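import Mathlib

/-!
MP_61673a_co, Q2: the set of integers of `{0, …, 4^t - 1}` with base-4 digits `1, 2` only is a
maximal 3-free set with `2^t` elements.  Stated in the language of the hand-in `Concentration`
(subsets of `{1, …, n}`).
-/

set_option autoImplicit false

namespace MP61673a.Q2

/-- `A` contains no three elements `a < b < c` with `a + c = 2 b`. -/
def ThreeFree (A : Finset ℕ) : Prop :=
  ∀ a ∈ A, ∀ b ∈ A, ∀ c ∈ A, a < b → b < c → a + c ≠ 2 * b

/-- `A` is a maximal 3-free subset of `{1, …, n}`. -/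
def IsMaximalThreeFree (n : ℕ) (A : Finset ℕ) : Prop :=
  A ⊆ Finset.Icc 1 n ∧ ThreeFree A ∧
    ∀ x ∈ Finset.Icc 1 n, x ∉ A → ¬ ThreeFree (insert x A)

/-- `μ(n)`: the least size of a maximal 3-free subset of `{1, …, n}`. -/
noncomputable def mu (n : ℕ) : ℕ :=
  sInf {k | ∃ A : Finset ℕ, IsMaximalThreeFree n A ∧ A.card = k}

/-- numbers below `4^t` whose base-4 digits (all `t` of them) are `1` or `2` -/
def C : ℕ → Finset ℕ
  | 0 => {0}
  | t + 1 => (C t).image (fun x => 4 * x + 1) ∪ (C t).image (fun x => 4 * x + 2)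

lemma mem_C_succ {t y : ℕ} :
    y ∈ C (t + 1) ↔ ∃ x ∈ C t, y = 4 * x + 1 ∨ y = 4 * x + 2 := by
  simp only [C, Finset.mem_union, Finset.mem_image]
  constructor
  · rintro (⟨x, hx, rfl⟩ | ⟨x, hx, rfl⟩)
    · exact ⟨x, hx, Or.inl rfl⟩
    · exact ⟨x, hx, Or.inr rfl⟩
  · rintro ⟨x, hx, rfl | rfl⟩
    · exact Or.inl ⟨x, hx, rfl⟩
    · exact Or.inr ⟨x, hx, rfl⟩

lemma card_C (t : ℕ) : (C t).card = 2 ^ t := by
  induction t with
  | zero => simp [C]
  | succ t ih =>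
    rw [C, Finset.card_union_of_disjoint, Finset.card_image_of_injective,
      Finset.card_image_of_injective, ih]
    · ring
    · intro x y h
      simp only at h
      omega
    · intro x y h
      simp only at h
      omega
    · rw [Finset.disjoint_left]
      intro y hy hy'
      rw [Finset.mem_image] at hy hy'
      obtain ⟨a, _, ha⟩ := hy
      obtain ⟨b, _, hb⟩ := hy'
      omega

lemma lt_of_mem_C {t : ℕ} : ∀ {y : ℕ}, y ∈ C t → y < 4 ^ t := by
  induction t with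
  | zero => intro y hy; simp [C] at hy; simp [hy]
  | succ t ih =>
    intro y hy
    obtain ⟨x, hx, h⟩ := mem_C_succ.1 hy
    have := ih hx
    rw [pow_succ]
    omega

/-- every number below `4^t` is `2 b - a` with `a`, `b` in `C t` -/
lemma cover_C (t : ℕ) : ∀ x < 4 ^ t, ∃ a ∈ C t, ∃ b ∈ C t, x + a = 2 * b := by
  induction t with
  | zero =>
    intro x hx
    have : x = 0 := by simpa using hx
    exact ⟨0, by simp [C], 0, by simp [C], by omega⟩
  | succ t ih =>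
    intro x hx
    have hx' : x / 4 < 4 ^ t := by
      rw [pow_succ] at hx
      omega
    obtain ⟨a, ha, b, hb, hab⟩ := ih (x / 4) hx'
    have h4 : x % 4 < 4 := Nat.mod_lt _ (by norm_num)
    have hdiv : x = 4 * (x / 4) + x % 4 := by omega
    interval_cases h : x % 4
    · exact ⟨4 * a + 2, mem_C_succ.2 ⟨a, ha, Or.inr rfl⟩, 4 * b + 1,
        mem_C_succ.2 ⟨b, hb, Or.inl rfl⟩, by omega⟩
    · exact ⟨4 * a + 1, mem_C_succ.2 ⟨a, ha, Or.inl rfl⟩, 4 * b + 1,
        mem_C_succ.2 ⟨b, hb, Or.inl rfl⟩, by omega⟩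
    · exact ⟨4 * a + 2, mem_C_succ.2 ⟨a, ha, Or.inr rfl⟩, 4 * b + 2,
        mem_C_succ.2 ⟨b, hb, Or.inr rfl⟩, by omega⟩
    · exact ⟨4 * a + 1, mem_C_succ.2 ⟨a, ha, Or.inl rfl⟩, 4 * b + 2,
        mem_C_succ.2 ⟨b, hb, Or.inr rfl⟩, by omega⟩

/-- `a + c = 2 b` in `C t` only for `a = b = c` -/
lemma free_C (t : ℕ) : ∀ a ∈ C t, ∀ b ∈ C t, ∀ c ∈ C t, a + c = 2 * b → a = b ∧ b = c := by
  induction t with
  | zero =>
    intro a ha b hb c hc _
    simp only [C, Finset.mem_singleton] at ha hb hc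
    omega
  | succ t ih =>
    intro a ha b hb c hc h
    obtain ⟨a', ha', h1⟩ := mem_C_succ.1 ha
    obtain ⟨b', hb', h2⟩ := mem_C_succ.1 hb
    obtain ⟨c', hc', h3⟩ := mem_C_succ.1 hc
    have h4 : a' + c' = 2 * b' := by omega
    obtain ⟨h5, h6⟩ := ih a' ha' b' hb' c' hc' h4
    omega

/-- the shifted set, a subset of `{1, …, 4^t}` -/
def A (t : ℕ) : Finset ℕ := (C t).image (fun x => x + 1)

lemma mem_A {t y : ℕ} : y ∈ A t ↔ ∃ x ∈ C t, y = x + 1 := by
  simp only [A, Finset.mem_image]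
  constructor
  · rintro ⟨x, hx, rfl⟩
    exact ⟨x, hx, rfl⟩
  · rintro ⟨x, hx, rfl⟩
    exact ⟨x, hx, rfl⟩

lemma card_A (t : ℕ) : (A t).card = 2 ^ t := by
  rw [A, Finset.card_image_of_injective _ (add_left_injective 1), card_C]

/-- `A t` is a maximal 3-free subset of `{1, …, 4^t}` -/
theorem isMaximal_A (t : ℕ) : IsMaximalThreeFree (4 ^ t) (A t) := by
  refine ⟨?_, ?_, ?_⟩
  · intro y hy
    obtain ⟨x, hx, rfl⟩ := mem_A.1 hy
    have := lt_of_mem_C hx
    rw [Finset.mem_Icc]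
    omega
  · intro a ha b hb c hc hab hbc h
    obtain ⟨a', ha', rfl⟩ := mem_A.1 ha
    obtain ⟨b', hb', rfl⟩ := mem_A.1 hb
    obtain ⟨c', hc', rfl⟩ := mem_A.1 hc
    have := free_C t a' ha' b' hb' c' hc' (by omega)
    omega
  · intro x hx hxA hfree
    rw [Finset.mem_Icc] at hx
    obtain ⟨a, ha, b, hb, hab⟩ := cover_C t (x - 1) (by omega)
    have haA : a + 1 ∈ A t := mem_A.2 ⟨a, ha, rfl⟩
    have hbA : b + 1 ∈ A t := mem_A.2 ⟨b, hb, rfl⟩
    have hne : x ≠ a + 1 := by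
      rintro rfl
      exact hxA haA
    rcases lt_or_gt_of_ne hne with h | h
    · exact hfree x (Finset.mem_insert_self _ _) (b + 1) (Finset.mem_insert_of_mem hbA) (a + 1)
        (Finset.mem_insert_of_mem haA) (by omega) (by omega) (by omega)
    · exact hfree (a + 1) (Finset.mem_insert_of_mem haA) (b + 1) (Finset.mem_insert_of_mem hbA) x
        (Finset.mem_insert_self _ _) (by omega) (by omega) (by omega)

theorem mu_le (t : ℕ) : mu (4 ^ t) ≤ 2 ^ t :=
  Nat.sInf_le ⟨A t, isMaximal_A t, card_A t⟩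

/-- the reduction of Q2 to the lower bound -/
theorem mu_eq (t : ℕ) (h : ∀ B : Finset ℕ, IsMaximalThreeFree (4 ^ t) B → 4 ^ t ≤ B.card ^ 2) :
    mu (4 ^ t) = 2 ^ t := by
  refine le_antisymm (mu_le t) ?_
  have hmem : mu (4 ^ t) ∈ {k | ∃ B : Finset ℕ, IsMaximalThreeFree (4 ^ t) B ∧ B.card = k} :=
    Nat.sInf_mem ⟨2 ^ t, A t, isMaximal_A t, card_A t⟩
  obtain ⟨B, hB, hcard⟩ := hmem
  have h1 := h B hB
  rw [← hcard]
  have h2 : (2 ^ t) ^ 2 ≤ B.card ^ 2 := by
    calc (2 ^ t) ^ 2 = 4 ^ t := by rw [← pow_mul, mul_comm, pow_mul]; norm_num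
      _ ≤ _ := h1
  exact le_of_pow_le_pow_left₀ (by norm_num) (Nat.zero_le _) h2

end MP61673a.Q2
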