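import Pool.Agent.Mu673.Lift
import Pool.Agent.Mu673.UpperQ2

/-!
MP_61673a_co: from the inequality for all maximal sets to the two questions of the problem file.
-/

set_option autoImplicit false

namespace MP61673a.Answer

open Finset

/-- `A` contains no three elements `a < b < c` with `a + c = 2 b`. -/
def ThreeFree (A : Finset ℕ) : Prop :=
  ∀ a ∈ A, ∀ b ∈ A, ∀ c ∈ A, a < b → b < c → a + c ≠ 2 * b

/-- `A` is a maximal 3-free subset of `{1, …, n}`. -/
def IsMaximalThreeFree (n : ℕ) (A : Finset ℕ) : Prop :=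
  A ⊆ Finset.Icc 1 n ∧ ThreeFree A ∧
    ∀ x ∈ Finset.Icc 1 n, x ∉ A → ¬ ThreeFree (insert x A)

/-- `μ(n)`: the least size of a maximal 3-free subset of `{1, …, n}`. -/
noncomputable def mu (n : ℕ) : ℕ :=
  sInf {k | ∃ A : Finset ℕ, IsMaximalThreeFree n A ∧ A.card = k}

/-- maximal 3-free subsets exist -/
lemma exists_maximal (n : ℕ) : ∃ A : Finset ℕ, IsMaximalThreeFree n A := by
  classical
  let F : Finset (Finset ℕ) := (Finset.Icc 1 n).powerset.filter ThreeFree
  have hne : F.Nonempty := by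
    refine ⟨∅, ?_⟩
    simp only [F, mem_filter, mem_powerset, empty_subset, true_and]
    intro a ha
    simp at ha
  obtain ⟨A, hA, hmax⟩ := F.exists_max_image Finset.card hne
  simp only [F, mem_filter, mem_powerset] at hA
  refine ⟨A, hA.1, hA.2, ?_⟩
  intro x hx hxA hfree
  have h1 : insert x A ∈ F := by
    simp only [F, mem_filter, mem_powerset]
    exact ⟨insert_subset hx hA.1, hfree⟩
  have h2 := hmax _ h1
  rw [card_insert_of_notMem hxA] at h2
  omega

lemma mu_spec (n : ℕ) : ∃ A : Finset ℕ, IsMaximalThreeFree n A ∧ A.card = mu n := by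
  obtain ⟨A, hA⟩ := exists_maximal n
  exact Nat.sInf_mem (s := {k | ∃ A : Finset ℕ, IsMaximalThreeFree n A ∧ A.card = k})
    ⟨A.card, A, hA, rfl⟩

/-- the answers to both questions from the inequality -/
theorem answer
    (main : ∀ (n : ℕ) (A : Finset ℕ), MP61673a.Lift.IsMaximalThreeFree n A → n ≤ A.card ^ 2) :
    (∀ n : ℕ, Real.sqrt n ≤ mu n) ∧ ∀ t : ℕ, mu (4 ^ t) = 2 ^ t := by
  constructor
  · intro n
    obtain ⟨A, hA, hc⟩ := mu_spec n
    have h := main n A hA
    rw [hc] at h
    rw [Real.sqrt_le_left (by positivity)]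
    exact_mod_cast h
  · intro t
    exact MP61673a.Q2.mu_eq t fun B hB => main _ B hB

end MP61673a.Answer
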