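import Pool.Agent.Mu673.NetsE

/-!
Final reduction in the shifted hybrid frame, with charges between the strays, waste paid label by
label, deep labels and gains of the core, and the room `4^t/4` of `|A|^2 ≤ n - 1`.
-/

namespace MP61673a.Fin

open Finset MP61673a.W MP61673a.LiftW MP61673a.Mids
open MP61673a.Lift hiding PP QQ

noncomputable section

/-- FINAL REDUCTION with the room, shifted frame: ONE `t ≥ 1` is enough. -/
theorem finish_roomE {n : ℕ} {A : Finset ℕ} (h : IsMaximalThreeFree n A)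
    (hrest : A.card ^ 2 < n → ∃ t : ℕ, 1 ≤ t ∧ ∀ D K : ℤ, 1 ≤ K → D = 4 * K + 1 →
      3 * D + 1 ≤ 4 ^ t * (n : ℤ) → 4 ^ t * (n : ℤ) ≤ 3 * D + 12 →
      Cov (liftN t (shift A)) (fun y => Mid (shift A) (y / 4 ^ t)) (3 * D + 1) →
      ∃ (ρ : ℤ) (φ1 ψ1 : ℤ → ℝ), 1 ≤ ρ ∧ ρ ≤ K ∧ Adm D φ1 ψ1 ∧
      -(((mass (PP (liftN t (shift A)) (cut D) φ1 D)
            - mass (QQ (liftN t (shift A)) (cut D) ψ1 D)) ^ 2 / 4 + ((4:ℝ) ^ t / 4 - 3))
        * budgetE (PP (liftN t (shift A)) (cut D) φ1 D) (QQ (liftN t (shift A)) (cut D) ψ1 D) K ρ)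
      ≤ restE (PP (liftN t (shift A)) (cut D) φ1 D) (QQ (liftN t (shift A)) (cut D) ψ1 D) K ρ)
    (h5 : 5 ≤ n) : n ≤ A.card ^ 2 := by
  by_contra hlt
  push Not at hlt
  obtain ⟨t, ht, hr⟩ := hrest hlt
  obtain ⟨D, hD1, hD2, hD3⟩ : ∃ D : ℤ, D % 4 = 1 ∧ 3 * D + 1 ≤ 4 ^ t * (n : ℤ) ∧
      4 ^ t * (n : ℤ) ≤ 3 * D + 12 := by
    refine ⟨(4 ^ t * (n : ℤ) - 1) / 3 - ((4 ^ t * (n : ℤ) - 1) / 3 - 1) % 4, ?_, ?_, ?_⟩ <;>
      omega
  have h4 : (4:ℤ) ≤ 4 ^ t := by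
    calc (4:ℤ) = 4 ^ 1 := by norm_num
      _ ≤ 4 ^ t := pow_le_pow_right₀ (by norm_num) ht
  have hn : (5:ℤ) ≤ n := by exact_mod_cast h5
  have h20 : (20:ℤ) ≤ 4 ^ t * (n : ℤ) := by nlinarith
  obtain ⟨K, hK⟩ : ∃ K : ℤ, D = 4 * K + 1 := ⟨D / 4, by omega⟩
  have hK1 : 1 ≤ K := by omega
  have hcov := (cov_of_maximal h).liftN t
  obtain ⟨ρ, φ1, ψ1, hρ, hρK, hadm, hr2⟩ := hr D K hK1 hK hD2 hD3
    (fun x hx0 hx1 => hcov x hx0 (by linarith))
  have h6 := of_restE (liftN t (shift A)) hρ hρK hK hadm _ hr2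
  rw [card_liftN, card_shift] at h6
  push_cast at h6
  have ht4 : ((2:ℝ) ^ t) ^ 2 = 4 ^ t := by rw [← pow_mul, mul_comm, pow_mul]; norm_num
  have h7 : ((2:ℝ) ^ t * (A.card : ℝ)) ^ 2 = 4 ^ t * (A.card : ℝ) ^ 2 := by
    rw [mul_pow, ht4]
  rw [h7] at h6
  have h8 : ((A.card : ℝ)) ^ 2 + 1 ≤ n := by exact_mod_cast hlt
  have h9 : (4:ℝ) ^ t * n ≤ 3 * D + 12 := by exact_mod_cast hD3
  have h10 : (4:ℝ) ^ t * ((A.card : ℝ) ^ 2 + 1) ≤ 4 ^ t * n :=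
    mul_le_mul_of_nonneg_left h8 (by positivity)
  linarith

/-- FINAL REDUCTION, nothing dropped, shifted hybrid frame: one `t ≥ 1` is enough. -/
theorem finish_totalE {n : ℕ} {A : Finset ℕ} (h : IsMaximalThreeFree n A)
    {ω : ℤ → ℤ → ℝ} (hω : ∀ x y, ω x y + ω y x = 1) (h5 : 5 ≤ n)
    (hmain : A.card ^ 2 < n → ∃ t : ℕ, 1 ≤ t ∧ ∀ D K : ℤ, 1 ≤ K → D = 4 * K + 1 →
      3 * D + 1 ≤ 4 ^ t * (n : ℤ) → 4 ^ t * (n : ℤ) ≤ 3 * D + 12 →
      Cov (liftN t (shift A)) (fun y => Mid (shift A) (y / 4 ^ t)) (3 * D + 1) →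
      ∃ ρ z : ℤ, 1 ≤ ρ ∧ ρ ≤ K ∧ 0 ≤ z ∧
      ∀ P Q : WS, P = PH (liftN t (shift A)) D z → Q = QH (liftN t (shift A)) D z →
        -(((mass P - mass Q) ^ 2 / 4 + ((4:ℝ) ^ t / 4 - 3)) * budgetE P Q K ρ)
          ≤ netSumE P Q ω D K ρ z (4 ^ t - 1) 0 + netSumE Q P ω D K ρ z (4 ^ t - 1) 1
            + (deepB P Q D K (K - ρ) ρ + deepB Q P D K (K - ρ) ρ)
            + coreGE P Q D K (K - ρ) ρ
            + wstE P Q D K (K - ρ) ρ (xiR (shift A) t D z)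
            + wstE Q P D K (K - ρ) ρ (xiL (shift A) t D z)) :
    n ≤ A.card ^ 2 := by
  refine finish_roomE h ?_ h5
  intro hlt
  obtain ⟨t, ht, hall⟩ := hmain hlt
  refine ⟨t, ht, ?_⟩
  intro D K hK hD h1 h2 hcov
  obtain ⟨ρ, z, hρ, hρK, hz, hPQ⟩ := hall D K hK hD h1 h2 hcov
  exact ⟨ρ, _, _, hρ, hρK, adm_hybrid D z,
    (hPQ _ _ rfl rfl).trans (rest_ge_totalE (shift A) t hω hρ hρK hD hz)⟩

/-- FINAL REDUCTION, per stray, shifted hybrid frame, with charges, waste (also for the core: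
`κ0`, `κ0'`), deep labels and core gains. `demand` = what the net of a stray has to pay. -/
theorem finish_chargeE {n : ℕ} {A : Finset ℕ} (h : IsMaximalThreeFree n A) {C : ℝ} (hC : 0 ≤ C)
    (t0 : ℕ) {ω : ℤ → ℤ → ℝ} (hω : ∀ x y, ω x y + ω y x = 1) (h5 : 5 ≤ n)
    (hmain : A.card ^ 2 < n → ∀ t : ℕ, t0 ≤ t → ∀ D K : ℤ, 1 ≤ K → D = 4 * K + 1 →
      3 * D + 1 ≤ 4 ^ t * (n : ℤ) → 4 ^ t * (n : ℤ) ≤ 3 * D + 12 →
      Cov (liftN t (shift A)) (fun y => Mid (shift A) (y / 4 ^ t)) (3 * D + 1) →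
      ∃ ρ z : ℤ, 1 ≤ ρ ∧ 2 * ρ ≤ K + 1 ∧ 0 ≤ z ∧
      ∀ P Q : WS, P = PH (liftN t (shift A)) D z → Q = QH (liftN t (shift A)) D z →
        ∀ eR eL : ℤ → ℝ, eR = exc P Q D (xiR (shift A) t D z) →
          eL = exc Q P D (xiL (shift A) t D z) →
        ∃ (cR cL dR dL κ0 κ0' : ℤ → ℝ) (χR χL ψ κR κR' κL κL' : ℤ → ℤ → ℝ),
        0 ≤ strayC Q cR ∧ 0 ≤ strayC P cL ∧
        -(strayC Q dR + strayC P dL) - ∑ s ∈ Ico 0 D, (eR s * κ0 s + eL s * κ0' s)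
            - C * K * 2 ^ t
          ≤ (deepB P Q D K (K - ρ) ρ + deepB Q P D K (K - ρ) ρ) + coreGE P Q D K (K - ρ) ρ ∧
        (∀ s, 0 ≤ s → s < D →
          κ0 s + (strayC Q (fun τ => κR τ s) + strayC P (fun τ => κL τ s))
          ≤ priceE P Q D K (K - ρ) ρ s + C * 2 ^ t) ∧
        (∀ s, 0 ≤ s → s < D →
          κ0' s + (strayC Q (fun τ => κR' τ s) + strayC P (fun τ => κL' τ s))
          ≤ priceE Q P D K (K - ρ) ρ s + C * 2 ^ t) ∧
        (∀ b ∈ Q.S, Q.f b ≠ 0 → Q.u b < 0 →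
          demand P Q D (budgetE P Q K ρ) (mass P - mass Q) cR dR χR ψ κR κR' eR eL (-Q.u b)
              - C * K
            ≤ netE P Q ω D K (K - ρ) ρ ρ z (4 ^ t - 1) 0 (-Q.u b)) ∧
        (∀ a ∈ P.S, P.f a ≠ 0 → P.u a < 0 →
          demand Q P D (budgetE P Q K ρ) (-(mass P - mass Q)) cL dL χL (fun τ τ' => -ψ τ' τ)
              κL κL' eR eL (-P.u a) - C * K
            ≤ netE Q P ω D K (K - ρ) ρ ρ z (4 ^ t - 1) 1 (-P.u a))) :
    n ≤ A.card ^ 2 := by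
  refine finish_totalE h hω h5 ?_
  intro hlt
  set C' : ℝ := C * A.card + C + 54 * C * A.card ^ 2 with hC'
  have hC'0 : 0 ≤ C' := by positivity
  obtain ⟨t1, ht1⟩ : ∃ t1 : ℕ, 4 * C' + 4 ≤ 2 ^ t1 := by
    obtain ⟨m, hm⟩ := pow_unbounded_of_one_lt (4 * C' + 4) (one_lt_two (α := ℝ))
    exact ⟨m, hm.le⟩
  set t := max (max t0 t1) 1 with ht
  refine ⟨t, le_max_right _ _, ?_⟩
  have ht0 : t0 ≤ t := (le_max_left _ _).trans (le_max_left _ _)
  have htt1 : t1 ≤ t := (le_max_right _ _).trans (le_max_left _ _)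
  intro D K hK hD h1 h2 hcov
  obtain ⟨ρ, z, hρ, hρK, hz, hall⟩ := hmain hlt t ht0 D K hK hD h1 h2 hcov
  refine ⟨ρ, z, hρ, by omega, hz, ?_⟩
  rintro P Q rfl rfl
  obtain ⟨cR, cL, dR, dL, κ0, κ0', χR, χL, ψ, κR, κR', κL, κL', hcR, hcL, hdeep, hpR, hpL, hR,
    hL⟩ := hall _ _ rfl rfl _ _ rfl rfl
  have gP : Good (PH (liftN t (shift A)) D z) := goodP (adm_hybrid D z)
  have gQ : Good (QH (liftN t (shift A)) D z) := goodQ (adm_hybrid D z)
  have hm := mass_add (liftN t (shift A)) (cut D) (fun x => if D - z ≤ x then cut D x else 0)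
    (fun x => if x ≤ 2 * D + z then 1 - cut D x else 0) D
  rw [card_liftN, card_shift] at hm
  have hK1 : (1:ℝ) ≤ K := by exact_mod_cast hK
  have sR := sum_exc_le (A := shift A) (t := t) (D := D) z
  have sL := sum_exc_le' (A := shift A) (t := t) (D := D) z
  rw [card_shift] at sR sL
  have cvR := covR_hyb hcov z
  have cvL := covL_hyb hcov z
  set P := PH (liftN t (shift A)) D z with hPdef
  set Q := QH (liftN t (shift A)) D z with hQdef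
  set eR := exc P Q D (xiR (shift A) t D z) with heR
  set eL := exc Q P D (xiL (shift A) t D z) with heL
  have nP := nn_nonneg gP (1 + ρ)
  have nQ := nn_nonneg gQ (1 + ρ)
  have hρK' : 2 * (ρ:ℝ) ≤ K + 1 := by exact_mod_cast hρK
  have hB2 : (K:ℝ) ≤ budgetE P Q K ρ := by
    unfold budgetE
    linarith
  have hB : 0 < budgetE P Q K ρ := by linarith
  have q1 := sum_demand (D := D) (h := mass P - mass Q) hB (dR := dR) (dL := dL) hcR hcL
    χR χL ψ κR κR' κL κL' eR eL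
  have q2 : strayC Q (demand P Q D (budgetE P Q K ρ) (mass P - mass Q) cR dR χR ψ κR κR' eR eL)
      - C * K * mass Q ≤ netSumE P Q ω D K ρ z (4 ^ t - 1) 0 := by
    have e1 := strayC_const_le gQ (e := C * K) (mul_nonneg hC (by linarith))
    have e2 := strayC_mono gQ (c := fun τ => demand P Q D (budgetE P Q K ρ) (mass P - mass Q)
      cR dR χR ψ κR κR' eR eL τ - C * K) hR
    rw [strayC_sub] at e2
    unfold netSumE
    linarith
  have q3 : strayC P (demand Q P D (budgetE P Q K ρ) (-(mass P - mass Q)) cL dL χL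
      (fun τ τ' => -ψ τ' τ) κL κL' eR eL)
      - C * K * mass P ≤ netSumE Q P ω D K ρ z (4 ^ t - 1) 1 := by
    have e1 := strayC_const_le gP (e := C * K) (mul_nonneg hC (by linarith))
    have e2 := strayC_mono gP (c := fun τ => demand Q P D (budgetE P Q K ρ)
      (-(mass P - mass Q)) cL dL χL (fun τ τ' => -ψ τ' τ) κL κL' eR eL τ - C * K) hL
    rw [strayC_sub] at e2
    unfold netSumE
    linarith
  have t2 : (0:ℝ) < 2 ^ t := by positivity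
  have w1 : ∑ s ∈ Ico 0 D, eR s * κ0 s
      + ∑ s ∈ Ico 0 D, eR s * (strayC Q (fun τ => κR τ s) + strayC P (fun τ => κL τ s))
      ≤ wstE P Q D K (K - ρ) ρ (xiR (shift A) t D z)
        + C * 2 ^ t * ((4:ℝ) ^ t * A.card ^ 2) := by
    rw [← sum_add_distrib]
    have e1 : ∑ s ∈ Ico 0 D, (eR s * κ0 s
          + eR s * (strayC Q (fun τ => κR τ s) + strayC P (fun τ => κL τ s)))
        ≤ ∑ s ∈ Ico 0 D, (eR s * priceE P Q D K (K - ρ) ρ s + C * 2 ^ t * eR s) := by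
      refine sum_le_sum fun s hs => ?_
      rw [mem_Ico] at hs
      have e2 := mul_le_mul_of_nonneg_left (hpR s hs.1 hs.2) (exc_nonneg cvR hs.1 hs.2)
      rw [← heR] at e2
      linarith
    have e5 : ∑ s ∈ Ico 0 D, (eR s * priceE P Q D K (K - ρ) ρ s + C * 2 ^ t * eR s)
        = ∑ s ∈ Ico 0 D, eR s * priceE P Q D K (K - ρ) ρ s
          + C * 2 ^ t * ∑ s ∈ Ico 0 D, eR s := by
      rw [sum_add_distrib, ← mul_sum]
    have e3 := mul_le_mul_of_nonneg_left sR (by positivity : 0 ≤ C * 2 ^ t)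
    have e4 : wstE P Q D K (K - ρ) ρ (xiR (shift A) t D z)
        = ∑ s ∈ Ico 0 D, eR s * priceE P Q D K (K - ρ) ρ s := rfl
    rw [e4]
    linarith
  have w2 : ∑ s ∈ Ico 0 D, eL s * κ0' s
      + ∑ s ∈ Ico 0 D, eL s * (strayC Q (fun τ => κR' τ s) + strayC P (fun τ => κL' τ s))
      ≤ wstE Q P D K (K - ρ) ρ (xiL (shift A) t D z)
        + C * 2 ^ t * ((4:ℝ) ^ t * A.card ^ 2) := by
    rw [← sum_add_distrib]
    have e1 : ∑ s ∈ Ico 0 D, (eL s * κ0' s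
          + eL s * (strayC Q (fun τ => κR' τ s) + strayC P (fun τ => κL' τ s)))
        ≤ ∑ s ∈ Ico 0 D, (eL s * priceE Q P D K (K - ρ) ρ s + C * 2 ^ t * eL s) := by
      refine sum_le_sum fun s hs => ?_
      rw [mem_Ico] at hs
      have e2 := mul_le_mul_of_nonneg_left (hpL s hs.1 hs.2) (exc_nonneg cvL hs.1 hs.2)
      rw [← heL] at e2
      linarith
    have e5 : ∑ s ∈ Ico 0 D, (eL s * priceE Q P D K (K - ρ) ρ s + C * 2 ^ t * eL s)
        = ∑ s ∈ Ico 0 D, eL s * priceE Q P D K (K - ρ) ρ s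
          + C * 2 ^ t * ∑ s ∈ Ico 0 D, eL s := by
      rw [sum_add_distrib, ← mul_sum]
    have e3 := mul_le_mul_of_nonneg_left sL (by positivity : 0 ≤ C * 2 ^ t)
    have e4 : wstE Q P D K (K - ρ) ρ (xiL (shift A) t D z)
        = ∑ s ∈ Ico 0 D, eL s * priceE Q P D K (K - ρ) ρ s := rfl
    rw [e4]
    linarith
  push_cast at hm
  have hn : 1 ≤ n := by omega
  have h4t : (4:ℝ) ^ t ≤ 27 * K := by
    have e1 : (4:ℤ) ^ t ≤ 4 ^ t * (n:ℤ) := le_mul_of_one_le_right (by positivity) (by exact_mod_cast hn)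
    have e2 : (4:ℤ) ^ t ≤ 27 * K := by omega
    exact_mod_cast e2
  have k0 : (0:ℝ) ≤ A.card := Nat.cast_nonneg _
  have herr : C * K * (mass P + mass Q) ≤ C * A.card * 2 ^ t * budgetE P Q K ρ := by
    rw [hm]
    have e1 : 0 ≤ C * A.card * 2 ^ t := by positivity
    have e2 : C * K * (2 ^ t * A.card) = C * A.card * 2 ^ t * K := by ring
    rw [e2]
    exact mul_le_mul_of_nonneg_left hB2 e1
  have herr2 : C * K * 2 ^ t ≤ C * 2 ^ t * budgetE P Q K ρ := by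
    have e1 : 0 ≤ C * 2 ^ t := by positivity
    have e2 : C * K * 2 ^ t = C * 2 ^ t * K := by ring
    rw [e2]
    exact mul_le_mul_of_nonneg_left hB2 e1
  have herr3 : 2 * (C * 2 ^ t * ((4:ℝ) ^ t * A.card ^ 2))
      ≤ 2 * (27 * C * A.card ^ 2 * 2 ^ t * budgetE P Q K ρ) := by
    have e1 : (4:ℝ) ^ t * A.card ^ 2 ≤ 27 * budgetE P Q K ρ * A.card ^ 2 :=
      mul_le_mul_of_nonneg_right (by linarith) (by positivity)
    have e3 : 0 ≤ C * 2 ^ t := by positivity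
    have e6 := mul_le_mul_of_nonneg_left e1 e3
    linarith
  -- the error is absorbed by the room
  have t3 : 4 * C' + 4 ≤ (2:ℝ) ^ t := by
    have e1 : (2:ℝ) ^ t1 ≤ 2 ^ t := pow_le_pow_right₀ (by norm_num) htt1
    linarith
  have ht4 : ((2:ℝ) ^ t) ^ 2 = 4 ^ t := by rw [← pow_mul, mul_comm, pow_mul]; norm_num
  have t4 : C' * 2 ^ t ≤ (4:ℝ) ^ t / 4 - 3 := by
    have e1 : (4 * C' + 4) * (2:ℝ) ^ t ≤ 2 ^ t * 2 ^ t :=
      mul_le_mul_of_nonneg_right t3 t2.le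
    rw [← ht4]
    nlinarith
  have t5 := mul_le_mul_of_nonneg_right t4 hB.le
  have t6 : C' * 2 ^ t * budgetE P Q K ρ = C * A.card * 2 ^ t * budgetE P Q K ρ
      + C * 2 ^ t * budgetE P Q K ρ + 2 * (27 * C * A.card ^ 2 * 2 ^ t * budgetE P Q K ρ) := by
    rw [hC']
    ring
  have t7 : ∑ s ∈ Ico 0 D, (eR s * κ0 s + eL s * κ0' s)
      = ∑ s ∈ Ico 0 D, eR s * κ0 s + ∑ s ∈ Ico 0 D, eL s * κ0' s := sum_add_distrib
  rw [t7] at hdeep
  have h5 : -(((mass P - mass Q) ^ 2 / 4 + ((4:ℝ) ^ t / 4 - 3)) * budgetE P Q K ρ)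
      = -((mass P - mass Q) ^ 2 / 4 * budgetE P Q K ρ)
        - ((4:ℝ) ^ t / 4 - 3) * budgetE P Q K ρ := by ring
  rw [h5]
  linarith

end

end MP61673a.Fin
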