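import Pool.Agent.Mu673.DeepRow
import Pool.Agent.Mu673.ChargeE

/-!
Exotic labels of a window of the shifted frame, charged to the strays; the deep charge `dchE`.
-/

namespace MP61673a.Fin

open Finset MP61673a.W MP61673a.LiftW MP61673a.Mids
open MP61673a.Lift hiding PP QQ

noncomputable section

/-- indicator of the depths `> j0` -/
def inD (j0 : ℤ) : ℤ → ℝ := fun j => if j0 < j then 1 else 0

/-- indicator of the labels `< x` -/
def inS (x : ℤ) : ℤ → ℝ := fun s => if s < x then 1 else 0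

lemma inD_mono (j0 : ℤ) : Monotone (inD j0) := by
  intro i j hij
  unfold inD
  by_cases c : j0 < i
  · rw [if_pos c, if_pos (lt_of_lt_of_le c hij)]
  · rw [if_neg c]
    split_ifs <;> norm_num

lemma inD_nonneg (j0 x : ℤ) : 0 ≤ inD j0 x := by
  unfold inD
  split_ifs <;> norm_num

lemma inD_depth (D x s : ℤ) : inD (D - x) (D - s) = inS x s := by
  unfold inD inS
  by_cases c : s < x
  · rw [if_pos (by omega), if_pos c]
  · rw [if_neg (by omega), if_neg c]

lemma sum_inS (ξ : ℤ → ℝ) {D x : ℤ} (hx : x ≤ D) :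
    ∑ s ∈ Ico 0 D, ξ s * inS x s = ext ξ x := by
  unfold MP61673a.W.ext
  have h1 : ∑ s ∈ Ico 0 x, ξ s = ∑ s ∈ Ico 0 x, ξ s * inS x s := by
    refine sum_congr rfl fun s hs => ?_
    rw [mem_Ico] at hs
    unfold inS
    rw [if_pos hs.2, mul_one]
  rw [h1]
  symm
  refine sum_subset (fun s hs => ?_) (fun s _ hs => ?_)
  · rw [mem_Ico] at hs ⊢
    omega
  · rw [mem_Ico] at hs
    unfold inS
    rename_i hs2
    rw [mem_Ico] at hs2
    rw [if_neg (by omega), mul_zero]

/-- midpoints of a stray at depth `t` with a label of depth `> j0`, half shift -/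
def midN (P Q : WS) (ω : ℤ → ℤ → ℝ) (D E j0 t : ℤ) : ℝ :=
  1 / 2 * (mid P Q D 0 (inD j0) ω t + mid P Q D E (inD j0) ω t)

/-- exotic labels `< x` of the right side (midpoints, undoubled centres) of the stray of `Q` -/
def exoA (P Q : WS) (ω : ℤ → ℤ → ℝ) (D V E x t : ℤ) : ℝ :=
  midN P Q ω D E (D - x) t + exA Q D V (inS x) t

lemma exA_nonneg {Q : WS} (hQ : Good Q) (D V : ℤ) {g : ℤ → ℝ} (hg : ∀ s, 0 ≤ g s) (t : ℤ) :
    0 ≤ exA Q D V g t := by
  unfold exA
  split_ifs
  · refine sum_nonneg fun q hq => mul_nonneg (hQ.f_nonneg q hq) ?_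
    split_ifs
    · exact hg _
    · exact le_rfl
  · exact le_rfl

lemma exB_nonneg {Q : WS} (hQ : Good Q) (D : ℤ) {g : ℤ → ℝ} (hg : ∀ s, 0 ≤ g s) (t : ℤ) :
    0 ≤ exB Q D g t := by
  unfold exB
  refine sum_nonneg fun q hq => mul_nonneg (hQ.f_nonneg q hq) ?_
  split_ifs
  · exact hg _
  · exact le_rfl

lemma inS_nonneg (x s : ℤ) : 0 ≤ inS x s := by
  unfold inS
  split_ifs <;> norm_num

lemma midN_nonneg {P Q : WS} (hP : Good P) (hQ : Good Q) {ω : ℤ → ℤ → ℝ}
    (hω : ∀ x y, 0 ≤ ω x y) (D E j0 t : ℤ) : 0 ≤ midN P Q ω D E j0 t := by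
  unfold midN
  have h1 := mid_nonneg hP hQ hω D 0 (inD_nonneg j0) t
  have h2 := mid_nonneg hP hQ hω D E (inD_nonneg j0) t
  linarith

/-- the exotic right labels `< x`, by strays -/
theorem ext_xiR_le (A : Finset ℤ) (t : ℕ) {ω : ℤ → ℤ → ℝ} (hω : ∀ x y, ω x y + ω y x = 1)
    {D K z : ℤ} (hK : 1 ≤ K) (hD : D = 4 * K + 1) (hz : 0 ≤ z) {x : ℤ} (hx : x ≤ D) :
    ext (xiR A t D z) x
      ≤ strayC (QH (liftN t A) D z)
          (exoA (PH (liftN t A) D z) (QH (liftN t A) D z) ω D z (4 ^ t - 1) x)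
        + strayC (PH (liftN t A) D z) (exB (PH (liftN t A) D z) D (inS x)) := by
  have e2 := sum_extraR_g (liftN t A) D (fun x => if D - z ≤ x then cut D x else 0)
    (fun x => if x ≤ 2 * D + z then 1 - cut D x else 0) (inS x)
  have huP : ∀ a ∈ (PH (liftN t A) D z).S, (PH (liftN t A) D z).f a ≠ 0 →
      2 * (PH (liftN t A) D z).u a ≤ D := fun (a : ℤ) _ h => by
        have := leP hD a h
        change 2 * (a - D) ≤ D
        omega
  have m1 := (mids_gen A t hω (by omega : 0 < D) z (inD_mono (D - x)) (inD_nonneg (D - x))).1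
  have dQ := dblQ (liftN t A) D z
  have xR : ∀ s, xiR A t D z s = extraR (liftN t A) (cut D)
      (fun x => if x ≤ 2 * D + z then 1 - cut D x else 0) D s
      + ind (fun y => Mid A (y / 4 ^ t)) (3 * D - s) := fun _ => rfl
  set P := PH (liftN t A) D z with hPdef
  set Q := QH (liftN t A) D z with hQdef
  rw [← sum_inS _ hx]
  simp only [xR, add_mul, sum_add_distrib]
  rw [e2, sum_exA hz dQ D (inS x), sum_exB huP (inS x)]
  simp only [inD_depth] at m1
  have h1 : strayC Q (exoA P Q ω D z (4 ^ t - 1) x)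
      = strayC Q (midN P Q ω D (4 ^ t - 1) (D - x)) + strayC Q (exA Q D z (inS x)) := by
    rw [← strayC_add]
    rfl
  rw [h1]
  have h2 : strayC Q (midN P Q ω D (4 ^ t - 1) (D - x))
      = strayC Q (fun τ => 1 / 2 * (mid P Q D 0 (inD (D - x)) ω τ
        + mid P Q D (4 ^ t - 1) (inD (D - x)) ω τ)) := rfl
  rw [h2]
  linarith

/-- the exotic left labels `< x`, by strays -/
theorem ext_xiL_le (A : Finset ℤ) (t : ℕ) {ω : ℤ → ℤ → ℝ} (hω : ∀ x y, ω x y + ω y x = 1)
    {D K z : ℤ} (hK : 1 ≤ K) (hD : D = 4 * K + 1) (hz : 0 ≤ z) {x : ℤ} (hx : x ≤ D) :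
    ext (xiL A t D z) x
      ≤ strayC (PH (liftN t A) D z)
          (exoA (QH (liftN t A) D z) (PH (liftN t A) D z) ω D z (4 ^ t - 1) x)
        + strayC (QH (liftN t A) D z) (exB (QH (liftN t A) D z) D (inS x)) := by
  have e2 := sum_extraL_g (liftN t A) D (fun x => if D - z ≤ x then cut D x else 0)
    (fun x => if x ≤ 2 * D + z then 1 - cut D x else 0) (inS x)
  have huQ : ∀ a ∈ (QH (liftN t A) D z).S, (QH (liftN t A) D z).f a ≠ 0 →
      2 * (QH (liftN t A) D z).u a ≤ D := fun (a : ℤ) _ h => by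
        have := leQ hD a h
        change 2 * (2 * D - a) ≤ D
        omega
  have m1 := (mids_gen A t hω (by omega : 0 < D) z (inD_mono (D - x)) (inD_nonneg (D - x))).2
  have dP := dblP (liftN t A) D z
  have xL : ∀ s, xiL A t D z s = extraL (liftN t A) (cut D)
      (fun x => if D - z ≤ x then cut D x else 0) s
      + ind (fun y => Mid A (y / 4 ^ t)) s := fun _ => rfl
  set P := PH (liftN t A) D z with hPdef
  set Q := QH (liftN t A) D z with hQdef
  rw [← sum_inS _ hx]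
  simp only [xL, add_mul, sum_add_distrib]
  rw [e2, sum_exA hz dP D (inS x), sum_exB huQ (inS x)]
  simp only [inD_depth] at m1
  have h1 : strayC P (exoA Q P ω D z (4 ^ t - 1) x)
      = strayC P (midN Q P ω D (4 ^ t - 1) (D - x)) + strayC P (exA P D z (inS x)) := by
    rw [← strayC_add]
    rfl
  rw [h1]
  have h2 : strayC P (midN Q P ω D (4 ^ t - 1) (D - x))
      = strayC P (fun τ => 1 / 2 * (mid Q P D 0 (inD (D - x)) ω τ
        + mid Q P D (4 ^ t - 1) (inD (D - x)) ω τ)) := rfl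
  rw [h2]
  linarith

/-- deep charge of a stray at depth `t` of `Q`, shifted frame -/
def dchE (P Q : WS) (ω : ℤ → ℤ → ℝ) (D ρ V E t : ℤ) : ℝ :=
  max 0 (exoA P Q ω D V E (D - ρ) t - lt P (2 * t)) * dd Q P (D - ρ + 1)
    + max 0 (exB Q D (inS (D - ρ)) t - lo2 P t) * dd P Q (D - ρ + 1)

lemma dchE_nonneg {P Q : WS} (hP : Good P) (hQ : Good Q) (ω : ℤ → ℤ → ℝ) (D ρ V E t : ℤ) :
    0 ≤ dchE P Q ω D ρ V E t := by
  unfold dchE
  have h1 := dd_nonneg hQ hP (D - ρ + 1)
  have h2 := dd_nonneg hP hQ (D - ρ + 1)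
  exact add_nonneg (mul_nonneg (le_max_left _ _) h1) (mul_nonneg (le_max_left _ _) h2)

lemma lt_nonneg {P : WS} (hP : Good P) (x : ℤ) : 0 ≤ lt P x := by
  unfold lt
  refine sum_nonneg fun a ha => ?_
  split_ifs
  · exact hP.f_nonneg a ha
  · exact le_rfl

lemma lo2_nonneg {P : WS} (hP : Good P) (x : ℤ) : 0 ≤ lo2 P x := by
  unfold lo2
  refine sum_nonneg fun a ha => ?_
  split_ifs
  · exact hP.f_nonneg a ha
  · exact le_rfl

/-- the positive part of `ER` and `EL`, charged to the strays -/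
theorem defect_le {P Q : WS} (hP : Good P) (hQ : Good Q) {ω : ℤ → ℤ → ℝ} {D ρ V E : ℤ}
    {ξ : ℤ → ℝ} (hξ : ext ξ (D - ρ) ≤ strayC Q (exoA P Q ω D V E (D - ρ))
      + strayC P (exB P D (inS (D - ρ)))) :
    max 0 (ext ξ (D - ρ) - cc P Q 0 - nn Q (D + 1))
      ≤ strayC Q (fun t => max 0 (exoA P Q ω D V E (D - ρ) t - lt P (2 * t)))
        + strayC P (fun t => max 0 (exB P D (inS (D - ρ)) t - lo2 Q t)) := by
  have h2 : strayC Q (fun t => lt P (2 * t)) + strayC P (fun t => lo2 Q t) ≤ cc P Q 0 :=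
    cc0_ge hP hQ
  have h4 := nn_nonneg hQ (D + 1)
  have k1 := strayC_mono hQ (c := fun t => exoA P Q ω D V E (D - ρ) t - lt P (2 * t))
    (c' := fun t => max 0 (exoA P Q ω D V E (D - ρ) t - lt P (2 * t)))
    (fun b _ _ _ => le_max_right _ _)
  have k2 := strayC_mono hP (c := fun t => exB P D (inS (D - ρ)) t - lo2 Q t)
    (c' := fun t => max 0 (exB P D (inS (D - ρ)) t - lo2 Q t))
    (fun b _ _ _ => le_max_right _ _)
  rw [strayC_sub] at k1 k2
  have n1 := strayC_nonneg hQ (c := fun t => max 0 (exoA P Q ω D V E (D - ρ) t - lt P (2 * t)))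
    (fun t => le_max_left _ _)
  have n2 := strayC_nonneg hP (c := fun t => max 0 (exB P D (inS (D - ρ)) t - lo2 Q t))
    (fun t => le_max_left _ _)
  refine max_le (add_nonneg n1 n2) ?_
  linarith

/-- ROW: the defects of both sides times the deep labels are at most the deep charges. -/
theorem dch_charge (A : Finset ℤ) (t : ℕ) {ω : ℤ → ℤ → ℝ} (hω : ∀ x y, ω x y + ω y x = 1)
    {D K ρ z : ℤ} (hK : 1 ≤ K) (hD : D = 4 * K + 1) (hz : 0 ≤ z) (hρ : 0 ≤ ρ)
    {P Q : WS} (hP : P = PH (liftN t A) D z) (hQ : Q = QH (liftN t A) D z) :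
    max 0 (ext (xiR A t D z) (D - ρ) - cc P Q 0 - nn Q (D + 1)) * dd Q P (D - ρ + 1)
      + max 0 (ext (xiL A t D z) (D - ρ) - cc Q P 0 - nn P (D + 1)) * dd P Q (D - ρ + 1)
      ≤ strayC Q (dchE P Q ω D ρ z (4 ^ t - 1)) + strayC P (dchE Q P ω D ρ z (4 ^ t - 1)) := by
  subst hP hQ
  have hA := adm_hybrid D z
  have gP : Good (PH (liftN t A) D z) := goodP hA
  have gQ : Good (QH (liftN t A) D z) := goodQ hA
  have a1 := ext_xiR_le A t hω hK hD hz (show D - ρ ≤ D by omega)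
  have a2 := ext_xiL_le A t hω hK hD hz (show D - ρ ≤ D by omega)
  set P := PH (liftN t A) D z with hPdef
  set Q := QH (liftN t A) D z with hQdef
  have b1 := defect_le gP gQ a1
  have b2 := defect_le gQ gP a2
  have d1 := dd_nonneg gP gQ (D - ρ + 1)
  have d2 := dd_nonneg gQ gP (D - ρ + 1)
  have s1 := mul_le_mul_of_nonneg_right b1 d2
  have s2 := mul_le_mul_of_nonneg_right b2 d1
  have t1 : strayC Q (dchE P Q ω D ρ z (4 ^ t - 1))
      = strayC Q (fun τ => max 0 (exoA P Q ω D z (4 ^ t - 1) (D - ρ) τ - lt P (2 * τ)))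
          * dd Q P (D - ρ + 1)
        + strayC Q (fun τ => max 0 (exB Q D (inS (D - ρ)) τ - lo2 P τ))
          * dd P Q (D - ρ + 1) := by
    unfold dchE
    rw [strayC_add, strayC_mul, strayC_mul]
  have t2 : strayC P (dchE Q P ω D ρ z (4 ^ t - 1))
      = strayC P (fun τ => max 0 (exoA Q P ω D z (4 ^ t - 1) (D - ρ) τ - lt Q (2 * τ)))
          * dd P Q (D - ρ + 1)
        + strayC P (fun τ => max 0 (exB P D (inS (D - ρ)) τ - lo2 Q τ))
          * dd Q P (D - ρ + 1) := by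
    unfold dchE
    rw [strayC_add, strayC_mul, strayC_mul]
  rw [t1, t2]
  linarith

/-- midpoints of near strays have depth at most `ρ` (deeper rule) -/
lemma midN_near {P Q : WS} {D E ρ t : ℤ} (hP : ∀ a ∈ P.S, P.f a ≠ 0 → 2 * P.u a ≤ D)
    (hE : 0 ≤ E) (hD : 0 ≤ D) (ht : 0 ≤ t) (h : 2 * t + E < 2 * ρ + 2) :
    midN P Q deeper D E ρ t = 0 := by
  have key : ∀ E' : ℤ, 0 ≤ E' → E' ≤ E → mid P Q D E' (inD ρ) deeper t = 0 := by
    intro E' hE0 hE'
    unfold mid
    have h1 : ∑ q ∈ Q.S, Q.f q * ((if Q.u q < 0 then deeper t (-Q.u q) else 1)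
        * cp (inD ρ) ((t - Q.u q + E') / 2)) = 0 := by
      refine sum_eq_zero fun q _ => ?_
      by_cases c : Q.u q < -t
      · rw [if_pos (by omega)]
        unfold deeper
        rw [if_neg (by omega), if_pos (by omega), zero_mul, mul_zero]
      · have : cp (inD ρ) ((t - Q.u q + E') / 2) = 0 := by
          unfold cp inD
          rw [if_neg (show ¬ ρ < (t - Q.u q + E') / 2 by omega)]
          simp
        rw [this]
        simp
    have h2 : ∑ a ∈ P.S, P.f a * cp (inD ρ) ((t + P.u a - D + E') / 2) = 0 := by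
      refine sum_eq_zero fun a ha => ?_
      by_cases hf : P.f a = 0
      · rw [hf, zero_mul]
      · have := hP a ha hf
        have : cp (inD ρ) ((t + P.u a - D + E') / 2) = 0 := by
          unfold cp inD
          rw [if_neg (show ¬ ρ < (t + P.u a - D + E') / 2 by omega)]
          simp
        rw [this, mul_zero]
    rw [h1, h2, add_zero]
  unfold midN
  rw [key 0 le_rfl hE, key E hE le_rfl]
  norm_num

/-- near strays have no deep charge (deeper rule) -/
lemma dchE_near {P Q : WS} (hgP : Good P) {D E ρ V t : ℤ}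
    (hP : ∀ a ∈ P.S, P.f a ≠ 0 → 2 * P.u a ≤ D) (hQ : ∀ b ∈ Q.S, Q.f b ≠ 0 → 2 * Q.u b ≤ D)
    (hE : 0 ≤ E) (hD : 0 ≤ D) (ht : 0 ≤ t) (htV : t ≤ V) (htρ : t ≤ ρ)
    (h : 2 * t + E < 2 * ρ + 2) :
    dchE P Q deeper D ρ V E t = 0 := by
  have h1 : exoA P Q deeper D V E (D - ρ) t = 0 := by
    unfold exoA exA
    rw [show D - (D - ρ) = ρ by ring, midN_near hP hE hD ht h, if_neg (by omega), add_zero]
  have h2 : exB Q D (inS (D - ρ)) t = 0 := by
    unfold exB
    refine sum_eq_zero fun q hq => ?_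
    by_cases hf : Q.f q = 0
    · rw [hf, zero_mul]
    · have := hQ q hq hf
      unfold inS
      rw [if_neg (show ¬ 2 * D - 2 * Q.u q - t < D - ρ by omega)]
      simp
  unfold dchE
  rw [h1, h2, max_eq_left (by have := lt_nonneg hgP (2 * t); linarith),
    max_eq_left (by have := lo2_nonneg hgP t; linarith)]
  ring

/-- the deep charge may be taken to be zero for near strays: the two strayC with the charge only
on depths `> N` -/
theorem dch_chargeN (A : Finset ℤ) (t : ℕ)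
    {D K ρ z N : ℤ} (hK : 1 ≤ K) (hD : D = 4 * K + 1) (hz : 0 ≤ z) (hρ : 0 ≤ ρ) (hNz : N ≤ z)
    (hNρ : N ≤ ρ) (hN : 2 * N + (4 ^ t - 1) < 2 * ρ + 2)
    {P Q : WS} (hP : P = PH (liftN t A) D z) (hQ : Q = QH (liftN t A) D z) :
    max 0 (ext (xiR A t D z) (D - ρ) - cc P Q 0 - nn Q (D + 1)) * dd Q P (D - ρ + 1)
      + max 0 (ext (xiL A t D z) (D - ρ) - cc Q P 0 - nn P (D + 1)) * dd P Q (D - ρ + 1)
      ≤ strayC Q (fun τ => if N < τ then dchE P Q deeper D ρ z (4 ^ t - 1) τ else 0)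
        + strayC P (fun τ => if N < τ then dchE Q P deeper D ρ z (4 ^ t - 1) τ else 0) := by
  refine (dch_charge A t deeper_add hK hD hz hρ hP hQ).trans ?_
  have hA := adm_hybrid D z
  have gP : Good (PH (liftN t A) D z) := goodP hA
  have gQ : Good (QH (liftN t A) D z) := goodQ hA
  have huP : ∀ a ∈ (PH (liftN t A) D z).S, (PH (liftN t A) D z).f a ≠ 0 →
      2 * (PH (liftN t A) D z).u a ≤ D := fun (a : ℤ) _ h => by
        have := leP hD a h
        change 2 * (a - D) ≤ D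
        omega
  have huQ : ∀ a ∈ (QH (liftN t A) D z).S, (QH (liftN t A) D z).f a ≠ 0 →
      2 * (QH (liftN t A) D z).u a ≤ D := fun (a : ℤ) _ h => by
        have := leQ hD a h
        change 2 * (2 * D - a) ≤ D
        omega
  rw [← hP] at gP huP
  rw [← hQ] at gQ huQ
  have h4 : (1:ℤ) ≤ 4 ^ t := one_le_pow₀ (by norm_num)
  refine add_le_add ?_ ?_
  · refine strayC_mono gQ fun b hb hf hu => ?_
    by_cases c : N < -Q.u b
    · rw [if_pos c]
    · rw [if_neg c, dchE_near gP huP huQ (by omega) (by omega) (by omega) (by omega) (by omega)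
        (by omega)]
  · refine strayC_mono gP fun b hb hf hu => ?_
    by_cases c : N < -P.u b
    · rw [if_pos c]
    · rw [if_neg c, dchE_near gQ huQ huP (by omega) (by omega) (by omega) (by omega) (by omega)
        (by omega)]

/-- partners of a doubled stray at depth `t` with `u + 2 t ≥ x` -/
def bsN (Q : WS) (V x t : ℤ) : ℝ :=
  if t ≤ V then ∑ q ∈ Q.S, Q.f q * (if x ≤ Q.u q + 2 * t then 1 else 0) else 0

lemma bsN_nonneg {Q : WS} (hQ : Good Q) (V x t : ℤ) : 0 ≤ bsN Q V x t := by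
  unfold bsN
  split_ifs
  · refine sum_nonneg fun q hq => mul_nonneg (hQ.f_nonneg q hq) ?_
    split_ifs <;> norm_num
  · exact le_rfl

/-- pairs of `Q` with a large difference have a stray as doubled element -/
lemma nn_far {Q : WS} {V x B : ℤ} (_ : 0 ≤ V) (dQ : Dbl Q V)
    (hu : ∀ b ∈ Q.S, Q.f b ≠ 0 → Q.u b ≤ B) (hx : B < x) :
    nn Q x = strayC Q (bsN Q V x) := by
  unfold nn strayC bsN
  rw [sum_comm]
  refine sum_congr rfl fun b hb => ?_
  by_cases c : Q.u b < 0
  · rw [if_pos c, dQ b hb]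
    by_cases c1 : -V ≤ Q.u b
    · rw [if_pos c1, if_pos (by omega), mul_sum]
      refine sum_congr rfl fun q _ => ?_
      rw [show Q.u q + 2 * -Q.u b = Q.u q - 2 * Q.u b by ring]
      split_ifs <;> ring
    · rw [if_neg c1, if_neg (by omega), mul_zero]
      refine sum_eq_zero fun q _ => ?_
      split_ifs <;> ring
  · rw [if_neg c, mul_zero]
    refine sum_eq_zero fun q hq => ?_
    by_cases hf : Q.f q = 0
    · rw [hf]
      simp
    · have := hu q hq hf
      rw [if_neg (by omega)]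

/-- coverage of the far labels `[0, x)` of the left side which is not by pairs of `P`, `Q` -/
theorem farL_le (A : Finset ℤ) (t : ℕ) {ω : ℤ → ℤ → ℝ} (hω : ∀ x y, ω x y + ω y x = 1)
    {D K z : ℤ} (hK : 1 ≤ K) (hD : D = 4 * K + 1) (hz : 0 ≤ z) {x : ℤ} (hx : x ≤ 2 * K + 1)
    {P Q : WS} (hP : P = PH (liftN t A) D z) (hQ : Q = QH (liftN t A) D z) :
    ext (xiL A t D z) x + nn P (D + 1 - x)
      ≤ strayC P (fun τ => exoA Q P ω D z (4 ^ t - 1) x τ + bsN P z (D + 1 - x) τ)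
        + strayC Q (exB Q D (inS x)) := by
  have a2 := ext_xiL_le A t hω hK hD hz (show x ≤ D by omega)
  have huP : ∀ a ∈ (PH (liftN t A) D z).S, (PH (liftN t A) D z).f a ≠ 0 →
      (PH (liftN t A) D z).u a ≤ 2 * K := fun (a : ℤ) _ h => leP hD a h
  have dP := dblP (liftN t A) D z
  rw [← hP] at huP dP
  rw [← hP, ← hQ] at a2
  rw [nn_far hz dP huP (by omega), strayC_add]
  linarith

/-- coverage of the far labels `[0, x)` of the right side which is not by pairs of `P`, `Q` -/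
theorem farR_le (A : Finset ℤ) (t : ℕ) {ω : ℤ → ℤ → ℝ} (hω : ∀ x y, ω x y + ω y x = 1)
    {D K z : ℤ} (hK : 1 ≤ K) (hD : D = 4 * K + 1) (hz : 0 ≤ z) {x : ℤ} (hx : x ≤ 2 * K + 1)
    {P Q : WS} (hP : P = PH (liftN t A) D z) (hQ : Q = QH (liftN t A) D z) :
    ext (xiR A t D z) x + nn Q (D + 1 - x)
      ≤ strayC Q (fun τ => exoA P Q ω D z (4 ^ t - 1) x τ + bsN Q z (D + 1 - x) τ)
        + strayC P (exB P D (inS x)) := by
  have a2 := ext_xiR_le A t hω hK hD hz (show x ≤ D by omega)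
  have huQ : ∀ a ∈ (QH (liftN t A) D z).S, (QH (liftN t A) D z).f a ≠ 0 →
      (QH (liftN t A) D z).u a ≤ 2 * K := fun (a : ℤ) _ h => leQ hD a h
  have dQ := dblQ (liftN t A) D z
  rw [← hQ] at huQ dQ
  rw [← hP, ← hQ] at a2
  rw [nn_far hz dQ huQ (by omega), strayC_add]
  linarith

end

end MP61673a.Fin
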