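import Pool.Agent.Mu673.CoreY
import Pool.Agent.Mu673.DchE

/-!
FINAL REDUCTION of the shifted hybrid frame without deep hypothesis (helper61): CORE-DEEP
(`core_hdeep`) and the deep charge (`dch_chargeN`, helper31) are plugged into `finish_chargeE`;
the near strays (`≤ N`) are handled here. What is left: the per stray inequalities for the depths
`> N`, with `Env`.
-/

namespace MP61673a.Fin

open Finset MP61673a.W MP61673a.LiftW MP61673a.Mids
open MP61673a.Lift hiding PP QQ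

noncomputable section

/-- what a stray deeper than `N` pays for the deep labels: exotic deep labels + far labels -/
def deepD (P Q : WS) (D K ρ V E N : ℤ) (κ : ℝ) (τ : ℤ) : ℝ :=
  dchE P Q deeper D ρ V E τ + κ * farC P Q deeper D K E N τ

/-- FINAL REDUCTION, shifted hybrid frame, deeper rule. Per stray of depth `> N` only. -/
theorem finish_chargeE2 {n : ℕ} {A : Finset ℕ} (h : IsMaximalThreeFree n A) {C : ℝ} (hC : 0 ≤ C)
    (t0 : ℕ) (h5 : 5 ≤ n)
    (hmain : A.card ^ 2 < n → ∀ t : ℕ, t0 ≤ t → ∀ D K : ℤ, 1 ≤ K → D = 4 * K + 1 →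
      3 * D + 1 ≤ 4 ^ t * (n : ℤ) → 4 ^ t * (n : ℤ) ≤ 3 * D + 12 →
      ∃ (ρ z N : ℤ) (κ la : ℝ), 1 ≤ ρ ∧ 6 * ρ ≤ K ∧ 0 ≤ z ∧ 0 ≤ N ∧ N ≤ z ∧
        2 * N + (4 ^ t - 1) ≤ 2 * ρ - 1 ∧ 2 * (4 ^ t - 1 : ℤ) ≤ K ∧ 12 ≤ K ∧
        0 < la ∧ la ≤ 1 ∧ 0 < κ ∧ 9 / 16 * (ρ:ℝ) ^ 2 ≤ κ * (K - 4 * ρ) ∧
        (3 * (3 * (K:ℝ) + 15 / 4) - 6 * la * (K - 4 * ρ)) ^ 2 * (ρ:ℝ) ^ 2
          ≤ 8 * κ * (K - 4 * ρ) * (3 * K + 15 / 4) ^ 2 ∧
        κ * (3 * K + 15 / 4) ≤ 24 * la ^ 2 * ρ * (K - 4 * ρ) ∧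
      ∀ (P Q : WS) (ξR ξL : ℤ → ℝ), Env P Q D K z (4 ^ t - 1) n ξR ξL →
        ∀ eR eL : ℤ → ℝ, eR = exc P Q D ξR → eL = exc Q P D ξL →
        dd P Q (2 * K + 1 + ρ - 6 * N) ≤ K - ρ + 1 + nn P (1 + ρ) + C * 2 ^ t ∧
        dd Q P (2 * K + 1 + ρ - 6 * N) ≤ K - ρ + 1 + nn Q (1 + ρ) + C * 2 ^ t ∧
        ∃ (cR cL dR dL κ0 κ0' : ℤ → ℝ) (χR χL ψ κR κR' κL κL' : ℤ → ℤ → ℝ),
        0 ≤ strayC Q cR ∧ 0 ≤ strayC P cL ∧
        -(strayC Q dR + strayC P dL) - ∑ s ∈ Ico 0 D, (eR s * κ0 s + eL s * κ0' s)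
            - C * K * 2 ^ t ≤ (1 - la) * coreGE P Q D K (K - ρ) ρ ∧
        (∀ s, 0 ≤ s → s < D →
          κ0 s + (strayC Q (fun τ => κR τ s) + strayC P (fun τ => κL τ s))
          ≤ priceE P Q D K (K - ρ) ρ s + C * 2 ^ t) ∧
        (∀ s, 0 ≤ s → s < D →
          κ0' s + (strayC Q (fun τ => κR' τ s) + strayC P (fun τ => κL' τ s))
          ≤ priceE Q P D K (K - ρ) ρ s + C * 2 ^ t) ∧
        (∀ b ∈ Q.S, Q.f b ≠ 0 → Q.u b < 0 → -Q.u b ≤ N →
          demand P Q D (budgetE P Q K ρ) (mass P - mass Q) cR dR χR ψ κR κR' eR eL (-Q.u b)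
              - C * K ≤ 0) ∧
        (∀ a ∈ P.S, P.f a ≠ 0 → P.u a < 0 → -P.u a ≤ N →
          demand Q P D (budgetE P Q K ρ) (-(mass P - mass Q)) cL dL χL (fun τ τ' => -ψ τ' τ)
              κL κL' eR eL (-P.u a) - C * K ≤ 0) ∧
        (∀ b ∈ Q.S, Q.f b ≠ 0 → Q.u b < 0 → N < -Q.u b →
          demand P Q D (budgetE P Q K ρ) (mass P - mass Q) cR dR χR ψ κR κR' eR eL (-Q.u b)
              + deepD P Q D K ρ z (4 ^ t - 1) N κ (-Q.u b) - C * K
            ≤ netE P Q deeper D K (K - ρ) ρ ρ z (4 ^ t - 1) 0 (-Q.u b)) ∧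
        (∀ a ∈ P.S, P.f a ≠ 0 → P.u a < 0 → N < -P.u a →
          demand Q P D (budgetE P Q K ρ) (-(mass P - mass Q)) cL dL χL (fun τ τ' => -ψ τ' τ)
              κL κL' eR eL (-P.u a) + deepD Q P D K ρ z (4 ^ t - 1) N κ (-P.u a) - C * K
            ≤ netE Q P deeper D K (K - ρ) ρ ρ z (4 ^ t - 1) 1 (-P.u a))) :
    n ≤ A.card ^ 2 := by
  refine finish_chargeE h (C := 60 * C + 20) (by positivity) t0 (ω := deeper) deeper_add h5 ?_
  intro hlt t ht D K hK hD h1 h2 hcov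
  obtain ⟨ρ, z, N, κ, la, hρ, h6, hz, hN0, hNz, hN, hE2, hK12, hla, hla1, hκ, hC1, hC2, hC3,
    hall⟩ := hmain hlt t ht D K hK hD h1 h2
  have hpos : (1:ℤ) ≤ 4 ^ t := one_le_pow₀ (by norm_num)
  refine ⟨ρ, z, hρ, by omega, hz, ?_⟩
  intro P Q hP hQ eR eL heR heL
  have env := env_hyb h hlt t hK hD hz h1 h2 hcov
  rw [← hP, ← hQ] at env
  obtain ⟨p1, p2, cR, cL, dR, dL, κ0, κ0', χR, χL, ψ, κR, κR', κL, κL', hcR, hcL, hres, hpR, hpL,
    nR, nL, fR, fL⟩ := hall P Q _ _ env eR eL heR heL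
  have hch := dch_chargeN (shift A) t (ρ := ρ) (N := N) hK hD hz (by omega) hNz (by omega)
    (by omega) hP hQ
  have hNρ : N ≤ ρ := by omega
  have hdeep := core_hdeep env deeper_add hρ hN0 hNρ h6 hla hκ hC1 hC2 hC3 hch
  set bR : ℤ → ℝ := fun τ => (if τ ≤ N then la * kcN P Q K (K - ρ) ρ τ else 0)
    + (if N < τ then dchE P Q deeper D ρ z (4 ^ t - 1) τ else 0)
    + κ * farC P Q deeper D K (4 ^ t - 1) N τ with hbR
  set bL : ℤ → ℝ := fun τ => (if τ ≤ N then la * kcN Q P K (K - ρ) ρ τ else 0)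
    + (if N < τ then dchE Q P deeper D ρ z (4 ^ t - 1) τ else 0)
    + κ * farC Q P deeper D K (4 ^ t - 1) N τ with hbL
  have hdeep2 : -(strayC Q bR + strayC P bL) - 20 * K + (1 - la) * coreGE P Q D K (K - ρ) ρ
      ≤ deepB P Q D K (K - ρ) ρ + deepB Q P D K (K - ρ) ρ + coreGE P Q D K (K - ρ) ρ := hdeep
  have hKr : (1:ℝ) ≤ K := by exact_mod_cast hK
  have t2 : (1:ℝ) ≤ 2 ^ t := one_le_pow₀ (by norm_num)
  -- masses
  have hDr : (D:ℝ) = 4 * K + 1 := by exact_mod_cast hD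
  have h4t : (4:ℝ) ^ t ≤ 27 * K := by
    have e1 : (4:ℤ) ^ t ≤ 4 ^ t * (n:ℤ) :=
      le_mul_of_one_le_right (by positivity) (by exact_mod_cast (by omega : 1 ≤ n))
    have e2 : (4:ℤ) ^ t ≤ 27 * K := by omega
    exact_mod_cast e2
  have ht4 : ((2:ℝ) ^ t) ^ 2 = 4 ^ t := by rw [← pow_mul, mul_comm, pow_mul]; norm_num
  have mP := mass_nonneg env.gP
  have mQ := mass_nonneg env.gQ
  have hEr : (0:ℝ) ≤ ((4 ^ t - 1 : ℤ) : ℝ) := by exact_mod_cast (by omega : (0:ℤ) ≤ 4 ^ t - 1)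
  have hmm := env.hm
  have mm : ∀ m : ℝ, 0 ≤ m → m ≤ mass P + mass Q → 2 * (C * 2 ^ t) * m ≤ 53 * C * K := by
    intro m hm0 hm1
    have e1 : m ^ 2 ≤ 26 * K := by
      have := pow_le_pow_left₀ hm0 hm1 2
      linarith
    have e2 : 2 * ((2:ℝ) ^ t * m) ≤ 53 * K := by
      nlinarith [sq_nonneg ((2:ℝ) ^ t - m)]
    have e3 := mul_le_mul_of_nonneg_left e2 hC
    linarith
  -- linearity in `d`
  have dlin : ∀ (P Q : WS) (B h : ℝ) (c d b : ℤ → ℝ) (χ ψ κ κ' : ℤ → ℤ → ℝ) (τ : ℤ),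
      demand P Q D B h c (fun τ => d τ + b τ) χ ψ κ κ' eR eL τ
        = demand P Q D B h c d χ ψ κ κ' eR eL τ + b τ := by
    intro P Q B h c d b χ ψ κ κ' τ
    unfold demand
    ring
  refine ⟨cR, cL, fun τ => dR τ + bR τ, fun τ => dL τ + bL τ, κ0, κ0', χR, χL, ψ, κR, κR', κL,
    κL', hcR, hcL, ?_, ?_, ?_, ?_, ?_⟩
  · rw [strayC_add' Q dR bR, strayC_add' P dL bL]
    have e1 : C * K * 2 ^ t + 20 * K ≤ (60 * C + 20) * K * 2 ^ t := by
      have e2 : 20 * (K:ℝ) ≤ 20 * K * 2 ^ t := le_mul_of_one_le_right (by linarith) t2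
      have e3 : 0 ≤ 59 * C * K * 2 ^ t := by positivity
      linarith
    linarith
  · intro s h0 hs
    have e1 : C * 2 ^ t ≤ (60 * C + 20) * 2 ^ t :=
      mul_le_mul_of_nonneg_right (by linarith) (by linarith)
    have := hpR s h0 hs
    linarith
  · intro s h0 hs
    have e1 : C * 2 ^ t ≤ (60 * C + 20) * 2 ^ t :=
      mul_le_mul_of_nonneg_right (by linarith) (by linarith)
    have := hpL s h0 hs
    linarith
  · intro b hb hf hu
    rw [dlin]
    have e0 : C * K ≤ (60 * C + 20) * K := mul_le_mul_of_nonneg_right (by linarith) (by linarith)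
    by_cases c : -Q.u b ≤ N
    · have a1 := nR b hb hf hu c
      have a2 := farC_near env deeper (N := N) (τ := -Q.u b) c (by omega) hE2 hK12
      have d1 := dd_anti env.gP env.gQ
        (show 2 * K + 1 + ρ - 6 * N ≤ 2 * K + 1 + ρ - 6 * -Q.u b by omega)
      have d2 := dd_anti env.gQ env.gP
        (show 2 * K + 1 + ρ - 6 * N ≤ 2 * K + 1 + ρ - 6 * -Q.u b by omega)
      have a3 := near_netE_kc env.gP env.gQ (D := D) (K := K) (ρ := ρ) (V := z) (E := 4 ^ t - 1)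
        (lo := 0) (τ := -Q.u b) (C := C * 2 ^ t) (by positivity) hD hK (by omega) env.uP env.uQ
        (by omega) le_rfl (by norm_num) (by omega) (by omega) (by omega) (d1.trans p1)
        (d2.trans p2)
      have a4 := mm (mass P) mP (by linarith)
      have a5 := kcN_nonneg env.gP env.gQ K (K - ρ) ρ (-Q.u b)
      have a6 : la * kcN P Q K (K - ρ) ρ (-Q.u b) ≤ kcN P Q K (K - ρ) ρ (-Q.u b) :=
        mul_le_of_le_one_left a5 hla1
      have a7 : bR (-Q.u b) = la * kcN P Q K (K - ρ) ρ (-Q.u b) := by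
        simp only [hbR]
        rw [if_pos c, if_neg (by omega), a2]
        ring
      rw [a7]
      have a8 : C * (K:ℝ) ≥ 0 := by positivity
      linarith
    · have a1 := fR b hb hf hu (by omega)
      have a7 : bR (-Q.u b) = deepD P Q D K ρ z (4 ^ t - 1) N κ (-Q.u b) := by
        simp only [hbR]
        unfold deepD
        rw [if_neg c, if_pos (by omega)]
        ring
      rw [a7]
      linarith
  · intro a ha hf hu
    rw [dlin]
    have e0 : C * K ≤ (60 * C + 20) * K := mul_le_mul_of_nonneg_right (by linarith) (by linarith)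
    by_cases c : -P.u a ≤ N
    · have a1 := nL a ha hf hu c
      have a2 := farC_near env.symm deeper (N := N) (τ := -P.u a) c (by omega) hE2 hK12
      have d1 := dd_anti env.gP env.gQ
        (show 2 * K + 1 + ρ - 6 * N ≤ 2 * K + 1 + ρ - 6 * -P.u a by omega)
      have d2 := dd_anti env.gQ env.gP
        (show 2 * K + 1 + ρ - 6 * N ≤ 2 * K + 1 + ρ - 6 * -P.u a by omega)
      have a3 := near_netE_kc env.gQ env.gP (D := D) (K := K) (ρ := ρ) (V := z) (E := 4 ^ t - 1)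
        (lo := 1) (τ := -P.u a) (C := C * 2 ^ t) (by positivity) hD hK (by omega) env.uQ env.uP
        (by omega) (by norm_num) le_rfl (by omega) (by omega) (by omega) (d2.trans p2)
        (d1.trans p1)
      have a4 := mm (mass Q) mQ (by linarith)
      have a5 := kcN_nonneg env.gQ env.gP K (K - ρ) ρ (-P.u a)
      have a6 : la * kcN Q P K (K - ρ) ρ (-P.u a) ≤ kcN Q P K (K - ρ) ρ (-P.u a) :=
        mul_le_of_le_one_left a5 hla1
      have a7 : bL (-P.u a) = la * kcN Q P K (K - ρ) ρ (-P.u a) := by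
        simp only [hbL]
        rw [if_pos c, if_neg (by omega), a2]
        ring
      rw [a7]
      have a8 : C * (K:ℝ) ≥ 0 := by positivity
      linarith
    · have a1 := fL a ha hf hu (by omega)
      have a7 : bL (-P.u a) = deepD Q P D K ρ z (4 ^ t - 1) N κ (-P.u a) := by
        simp only [hbL]
        unfold deepD
        rw [if_neg c, if_pos (by omega)]
        ring
      rw [a7]
      linarith

end

end MP61673a.Fin
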