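import Pool.Agent.Mu673.Incl

set_option autoImplicit false

/-!
Row OUT: for `A` maximal 3-free in `{1..n}` with `|A|^2 < n` the number of pairs `(a,b)` of
elements of `A` with `2b-a` outside `[1,n]` is at most `(5/18) |A|^2`, at most `0.258 |A|^2` if no
interval `(a/2,(a+n)/2]` contains more than `4/5` of `A`; lifted forms and the forms in the
language of `GidW`.
-/

namespace MP61673a.Out

open MP61673a.Lift (ThreeFree IsMaximalThreeFree)

/-- the elements of `A` in the interval `(a/2, (a + n)/2]`; it has length `n/2` and, for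
`a ∈ {1, …, n}`, contains `a`. -/
def window (n : ℕ) (A : Finset ℕ) (a : ℕ) : Finset ℕ :=
  A.filter (fun b => a < 2 * b ∧ 2 * b ≤ a + n)

/-- the sum of the sizes of the windows of the elements `a` of `A` of parity `r`; it is the number
of pairs `(a, b)` of elements of `A` with `a ≡ r mod 2` and `1 ≤ 2 b - a ≤ n`. -/
def windowSum (n : ℕ) (A : Finset ℕ) (r : ℕ) : ℕ :=
  ∑ a ∈ A.filter (fun x => x % 2 = r), (window n A a).card

/-- a non-element is the far end or the midpoint of a pair of `A`. -/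
lemma cover {n : ℕ} {A : Finset ℕ} (h : IsMaximalThreeFree n A) {x : ℕ}
    (hx : x ∈ Finset.Icc 1 n) (hxA : x ∉ A) :
    (∃ a ∈ A, ∃ b ∈ A, x + a = 2 * b) ∨ (∃ a ∈ A, ∃ b ∈ A, a < b ∧ a + b = 2 * x) := by
  obtain ⟨_, hfree, hmax⟩ := h
  have := hmax x hx hxA
  unfold ThreeFree at this
  push Not at this
  obtain ⟨a, ha, b, hb, c, hc, hab, hbc, habc⟩ := this
  rw [Finset.mem_insert] at ha hb hc
  rcases ha with rfl | ha
  · rcases hb with rfl | hb
    · omega
    · rcases hc with rfl | hc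
      · omega
      · exact Or.inl ⟨c, hc, b, hb, habc⟩
  · rcases hb with rfl | hb
    · rcases hc with rfl | hc
      · omega
      · exact Or.inr ⟨a, ha, c, hc, by omega, habc⟩
    · rcases hc with rfl | hc
      · exact Or.inl ⟨a, ha, b, hb, by omega⟩
      · exact absurd habc (hfree a ha b hb c hc hab hbc)

/-- number of pairs `a < b` in `B` -/
lemma two_mul_lt_pairs (B : Finset ℕ) :
    2 * ((B ×ˢ B).filter fun p => p.1 < p.2).card + B.card = B.card * B.card := by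
  classical
  have hsplit : (B ×ˢ B) = ((B ×ˢ B).filter fun p => p.1 < p.2) ∪
      (((B ×ˢ B).filter fun p => p.2 < p.1) ∪ ((B ×ˢ B).filter fun p => p.1 = p.2)) := by
    ext p
    simp only [Finset.mem_union, Finset.mem_filter]
    constructor
    · intro hp
      rcases lt_trichotomy p.1 p.2 with h | h | h
      · exact Or.inl ⟨hp, h⟩
      · exact Or.inr (Or.inr ⟨hp, h⟩)
      · exact Or.inr (Or.inl ⟨hp, h⟩)
    · rintro (h | h | h) <;> exact h.1
  have h1 : ((B ×ˢ B).filter fun p => p.2 < p.1).card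
      = ((B ×ˢ B).filter fun p => p.1 < p.2).card := by
    apply Finset.card_bij (fun p _ => (p.2, p.1))
    · intro p hp
      simp only [Finset.mem_filter, Finset.mem_product] at hp ⊢
      exact ⟨⟨hp.1.2, hp.1.1⟩, hp.2⟩
    · intro p _ q _ hpq
      simp only [Prod.mk.injEq] at hpq
      exact Prod.ext hpq.2 hpq.1
    · intro p hp
      simp only [Finset.mem_filter, Finset.mem_product] at hp
      refine ⟨(p.2, p.1), ?_, rfl⟩
      simp only [Finset.mem_filter, Finset.mem_product]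
      exact ⟨⟨hp.1.2, hp.1.1⟩, hp.2⟩
  have h2 : ((B ×ˢ B).filter fun p => p.1 = p.2).card = B.card := by
    symm
    apply Finset.card_bij (fun a _ => (a, a))
    · intro a ha
      simp only [Finset.mem_filter, Finset.mem_product]
      exact ⟨⟨ha, ha⟩, trivial⟩
    · intro a _ b _ hab
      simpa using hab
    · intro p hp
      simp only [Finset.mem_filter, Finset.mem_product] at hp
      exact ⟨p.1, hp.1.1, Prod.ext rfl hp.2⟩
  have hcard := congrArg Finset.card hsplit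
  rw [Finset.card_union_of_disjoint, Finset.card_union_of_disjoint, h1, h2,
    Finset.card_product] at hcard
  · omega
  · rw [Finset.disjoint_left]
    intro p hp hq
    simp only [Finset.mem_filter] at hp hq
    omega
  · rw [Finset.disjoint_left]
    intro p hp hq
    simp only [Finset.mem_union, Finset.mem_filter] at hp hq
    omega

/-- pairs `a < b` with one entry in `X` and the other in `Y`. -/
lemma cross_pairs (B X Y : Finset ℕ) (P : ℕ × ℕ → Prop) [DecidablePred P]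
    (h : ∀ p ∈ (B ×ˢ B).filter (fun p => p.1 < p.2), P p →
      (p.1 ∈ X ∧ p.2 ∈ Y) ∨ (p.2 ∈ X ∧ p.1 ∈ Y)) (hXY : Disjoint X Y) :
    (((B ×ˢ B).filter (fun p => p.1 < p.2)).filter P).card ≤ X.card * Y.card := by
  classical
  rw [← Finset.card_product]
  apply Finset.card_le_card_of_injOn (fun p => if p.1 ∈ X then p else (p.2, p.1))
  · intro p hp
    rw [Finset.mem_coe, Finset.mem_filter] at hp
    have := h p hp.1 hp.2
    rw [Finset.mem_coe, Finset.mem_product]
    dsimp only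
    split_ifs with hX
    · rcases this with h1 | h1
      · exact h1
      · exact absurd h1.2 (Finset.disjoint_left.mp hXY hX)
    · rcases this with h1 | h1
      · exact absurd h1.1 hX
      · exact h1
  · intro p hp q hq hpq
    rw [Finset.mem_coe, Finset.mem_filter, Finset.mem_filter] at hp hq
    have hp' := hp.1.2
    have hq' := hq.1.2
    dsimp only at hpq
    split_ifs at hpq
    · exact hpq
    · rw [hpq] at hp'
      dsimp only at hp'
      omega
    · rw [← hpq] at hq'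
      dsimp only at hq'
      omega
    · simp only [Prod.mk.injEq] at hpq
      exact Prod.ext hpq.2 hpq.1


/-- the elements of `[n]` of parity `r` are covered. -/
lemma parity_count {n : ℕ} {A : Finset ℕ} (h : IsMaximalThreeFree n A) (r : ℕ) :
    ((Finset.Icc 1 n).filter (fun x => x % 2 = r)).card ≤ windowSum n A r +
      (((A ×ˢ A).filter (fun p => p.1 < p.2)).filter
        (fun p => (p.1 + p.2) % 2 = 0 ∧ (p.1 + p.2) / 2 % 2 = r)).card := by
  classical
  have hsig : windowSum n A r =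
      ((A.filter (fun x => x % 2 = r)).sigma (fun a => window n A a)).card := by
    rw [Finset.card_sigma]
    rfl
  rw [hsig]
  refine le_trans (Finset.card_le_card (t :=
    ((A.filter (fun x => x % 2 = r)).sigma (fun a => window n A a)).image
        (fun p => 2 * p.2 - p.1) ∪
    (((A ×ˢ A).filter (fun p => p.1 < p.2)).filter
        (fun p => (p.1 + p.2) % 2 = 0 ∧ (p.1 + p.2) / 2 % 2 = r)).image
        (fun p => (p.1 + p.2) / 2)) ?_)
    (le_trans (Finset.card_union_le _ _) (Nat.add_le_add Finset.card_image_le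
      Finset.card_image_le))
  intro x hx
  rw [Finset.mem_filter] at hx
  obtain ⟨hx, hr⟩ := hx
  have hx1 := Finset.mem_Icc.mp hx
  rw [Finset.mem_union]
  by_cases hxA : x ∈ A
  · refine Or.inl (Finset.mem_image.mpr ⟨⟨x, x⟩, ?_, ?_⟩)
    · rw [Finset.mem_sigma, window, Finset.mem_filter, Finset.mem_filter]
      refine ⟨⟨hxA, hr⟩, hxA, ?_, ?_⟩
      · dsimp only; omega
      · dsimp only; omega
    · dsimp only; omega
  · rcases cover h hx hxA with ⟨a, ha, b, hb, hab⟩ | ⟨a, ha, b, hb, hlt, hab⟩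
    · have hpar : a % 2 = r := by omega
      refine Or.inl (Finset.mem_image.mpr ⟨⟨a, b⟩, ?_, ?_⟩)
      · rw [Finset.mem_sigma, window, Finset.mem_filter, Finset.mem_filter]
        refine ⟨⟨ha, hpar⟩, hb, ?_, ?_⟩
        · dsimp only; omega
        · dsimp only; omega
      · dsimp only; omega
    · refine Or.inr (Finset.mem_image.mpr ⟨(a, b), ?_, ?_⟩)
      · rw [Finset.mem_filter, Finset.mem_filter, Finset.mem_product]
        refine ⟨⟨⟨ha, hb⟩, hlt⟩, ?_, ?_⟩
        · dsimp only; omega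
        · dsimp only
          have : (a + b) / 2 = x := by omega
          rw [this]; exact hr
      · dsimp only; omega

lemma card_parity (n : ℕ) :
    ((Finset.Icc 1 n).filter (fun x => x % 2 = 0)).card = n / 2 ∧
    ((Finset.Icc 1 n).filter (fun x => x % 2 = 1)).card = (n + 1) / 2 := by
  induction n with
  | zero => decide
  | succ n ih =>
    have hins : Finset.Icc 1 (n + 1) = insert (n + 1) (Finset.Icc 1 n) := by
      ext x
      simp only [Finset.mem_insert, Finset.mem_Icc]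
      omega
    rw [hins, Finset.filter_insert, Finset.filter_insert]
    have hn0 : n + 1 ∉ (Finset.Icc 1 n).filter (fun x => x % 2 = 0) := by simp
    have hn1 : n + 1 ∉ (Finset.Icc 1 n).filter (fun x => x % 2 = 1) := by simp
    rcases Nat.mod_two_eq_zero_or_one (n + 1) with h | h
    · rw [if_pos h, if_neg (by omega), Finset.card_insert_of_notMem hn0, ih.1, ih.2]
      omega
    · rw [if_neg (by omega), if_pos h, Finset.card_insert_of_notMem hn1, ih.1, ih.2]
      omega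

/-- The combinatorial inequalities. `e`, `o` are the numbers of even and odd elements. -/
lemma ineqs {n : ℕ} {A : Finset ℕ} (h : IsMaximalThreeFree n A) :
    ∃ e o e0 e2 o1 o3 : ℕ, e + o = A.card ∧ (A.filter (fun x => x % 2 = 0)).card = e ∧
      (A.filter (fun x => x % 2 = 1)).card = o ∧ e0 + e2 = e ∧ o1 + o3 = o ∧
      2 * n + (e + o) ≤ 2 * (windowSum n A 0 + windowSum n A 1) + e * e + o * o ∧
      n + o ≤ 2 * windowSum n A 1 + 2 * (e0 * e2) + o * o ∧
      n + e ≤ 2 * windowSum n A 0 + 2 * (o1 * o3) + e * e + 1 := by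
  classical
  set Ae := A.filter (fun x => x % 2 = 0) with hAe
  set Ao := A.filter (fun x => x % 2 = 1) with hAo
  set A0 := A.filter (fun x => x % 4 = 0) with hA0
  set A2 := A.filter (fun x => x % 4 = 2) with hA2
  set A1 := A.filter (fun x => x % 4 = 1) with hA1
  set A3 := A.filter (fun x => x % 4 = 3) with hA3
  have heo : Ae.card + Ao.card = A.card := by
    rw [← Finset.card_union_of_disjoint]
    · congr 1
      ext x
      simp only [hAe, hAo, Finset.mem_union, Finset.mem_filter]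
      rcases Nat.mod_two_eq_zero_or_one x with hx | hx
      · simp [hx]
      · simp [hx]
    · rw [Finset.disjoint_left]
      intro x hx hx'
      simp only [hAe, hAo, Finset.mem_filter] at hx hx'
      omega
  have he : A0.card + A2.card = Ae.card := by
    rw [← Finset.card_union_of_disjoint]
    · congr 1
      ext x
      simp only [hAe, hA0, hA2, Finset.mem_union, Finset.mem_filter]
      constructor
      · rintro (⟨hx, h4⟩ | ⟨hx, h4⟩)
        · exact ⟨hx, by omega⟩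
        · exact ⟨hx, by omega⟩
      · rintro ⟨hx, h2⟩
        rcases (by omega : x % 4 = 0 ∨ x % 4 = 2) with h4 | h4
        · exact Or.inl ⟨hx, h4⟩
        · exact Or.inr ⟨hx, h4⟩
    · rw [Finset.disjoint_left]
      intro x hx hx'
      simp only [hA0, hA2, Finset.mem_filter] at hx hx'
      omega
  have ho : A1.card + A3.card = Ao.card := by
    rw [← Finset.card_union_of_disjoint]
    · congr 1
      ext x
      simp only [hAo, hA1, hA3, Finset.mem_union, Finset.mem_filter]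
      constructor
      · rintro (⟨hx, h4⟩ | ⟨hx, h4⟩)
        · exact ⟨hx, by omega⟩
        · exact ⟨hx, by omega⟩
      · rintro ⟨hx, h2⟩
        rcases (by omega : x % 4 = 1 ∨ x % 4 = 3) with h4 | h4
        · exact Or.inl ⟨hx, h4⟩
        · exact Or.inr ⟨hx, h4⟩
    · rw [Finset.disjoint_left]
      intro x hx hx'
      simp only [hA1, hA3, Finset.mem_filter] at hx hx'
      omega
  -- the pairs
  set P := (A ×ˢ A).filter (fun p => p.1 < p.2) with hP
  set M0 := P.filter (fun p => (p.1 + p.2) % 2 = 0 ∧ (p.1 + p.2) / 2 % 2 = 0) with hM0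
  set M1 := P.filter (fun p => (p.1 + p.2) % 2 = 0 ∧ (p.1 + p.2) / 2 % 2 = 1) with hM1
  set Qe := (Ae ×ˢ Ae).filter (fun p => p.1 < p.2) with hQe
  set Qo := (Ao ×ˢ Ao).filter (fun p => p.1 < p.2) with hQo
  have hQe2 := two_mul_lt_pairs Ae
  have hQo2 := two_mul_lt_pairs Ao
  rw [← hQe] at hQe2
  rw [← hQo] at hQo2
  have hM01 : M0.card + M1.card ≤ Qe.card + Qo.card := by
    rw [← Finset.card_union_of_disjoint]
    · refine le_trans (Finset.card_le_card (t := Qe ∪ Qo) ?_) (Finset.card_union_le _ _)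
      intro p hp
      have hp' : (p.1 ∈ A ∧ p.2 ∈ A) ∧ p.1 < p.2 ∧ (p.1 + p.2) % 2 = 0 := by
        rcases Finset.mem_union.mp hp with hp | hp
        · simp only [hM0, hP, Finset.mem_filter, Finset.mem_product] at hp
          exact ⟨hp.1.1, hp.1.2, hp.2.1⟩
        · simp only [hM1, hP, Finset.mem_filter, Finset.mem_product] at hp
          exact ⟨hp.1.1, hp.1.2, hp.2.1⟩
      simp only [hQe, hQo, hAe, hAo, Finset.mem_union, Finset.mem_filter, Finset.mem_product]
      rcases Nat.mod_two_eq_zero_or_one p.1 with h1 | h1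
      · exact Or.inl ⟨⟨⟨hp'.1.1, h1⟩, hp'.1.2, by omega⟩, hp'.2.1⟩
      · exact Or.inr ⟨⟨⟨hp'.1.1, h1⟩, hp'.1.2, by omega⟩, hp'.2.1⟩
    · rw [Finset.disjoint_left]
      intro p hp hp'
      simp only [hM0, hM1, Finset.mem_filter] at hp hp'
      omega
  have hM1b : M1.card ≤ A0.card * A2.card + Qo.card := by
    have hsub : M1 ⊆ (P.filter (fun p => p.1 % 2 = 0 ∧ (p.1 + p.2) % 4 = 2)) ∪ Qo := by
      intro p hp
      simp only [hM1, hP, hQo, hAo, Finset.mem_union, Finset.mem_filter,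
        Finset.mem_product] at hp ⊢
      rcases Nat.mod_two_eq_zero_or_one p.1 with h1 | h1
      · exact Or.inl ⟨hp.1, h1, by omega⟩
      · exact Or.inr ⟨⟨⟨hp.1.1.1, h1⟩, hp.1.1.2, by omega⟩, hp.1.2⟩
    refine le_trans (Finset.card_le_card hsub) (le_trans (Finset.card_union_le _ _)
      (Nat.add_le_add_right (cross_pairs A A0 A2 _ ?_ ?_) _))
    · intro p hp hp2
      simp only [Finset.mem_filter, Finset.mem_product] at hp
      simp only [hA0, hA2, Finset.mem_filter]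
      rcases (by omega : p.1 % 4 = 0 ∨ p.1 % 4 = 2) with h4 | h4
      · exact Or.inl ⟨⟨hp.1.1, h4⟩, hp.1.2, by omega⟩
      · exact Or.inr ⟨⟨hp.1.2, by omega⟩, hp.1.1, h4⟩
    · rw [Finset.disjoint_left]
      intro x hx hx'
      simp only [hA0, hA2, Finset.mem_filter] at hx hx'
      omega
  have hM0b : M0.card ≤ A1.card * A3.card + Qe.card := by
    have hsub : M0 ⊆ (P.filter (fun p => p.1 % 2 = 1 ∧ (p.1 + p.2) % 4 = 0)) ∪ Qe := by
      intro p hp
      simp only [hM0, hP, hQe, hAe, Finset.mem_union, Finset.mem_filter,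
        Finset.mem_product] at hp ⊢
      rcases Nat.mod_two_eq_zero_or_one p.1 with h1 | h1
      · exact Or.inr ⟨⟨⟨hp.1.1.1, h1⟩, hp.1.1.2, by omega⟩, hp.1.2⟩
      · exact Or.inl ⟨hp.1, h1, by omega⟩
    refine le_trans (Finset.card_le_card hsub) (le_trans (Finset.card_union_le _ _)
      (Nat.add_le_add_right (cross_pairs A A1 A3 _ ?_ ?_) _))
    · intro p hp hp2
      simp only [Finset.mem_filter, Finset.mem_product] at hp
      simp only [hA1, hA3, Finset.mem_filter]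
      rcases (by omega : p.1 % 4 = 1 ∨ p.1 % 4 = 3) with h4 | h4
      · exact Or.inl ⟨⟨hp.1.1, h4⟩, hp.1.2, by omega⟩
      · exact Or.inr ⟨⟨hp.1.2, by omega⟩, hp.1.1, h4⟩
    · rw [Finset.disjoint_left]
      intro x hx hx'
      simp only [hA1, hA3, Finset.mem_filter] at hx hx'
      omega
  have hc0 := parity_count h 0
  have hc1 := parity_count h 1
  rw [(card_parity n).1, ← hP, ← hM0] at hc0
  rw [(card_parity n).2, ← hP, ← hM1] at hc1
  refine ⟨Ae.card, Ao.card, A0.card, A2.card, A1.card, A3.card, heo, rfl, rfl, he, ho,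
    ?_, ?_, ?_⟩
  · have h1 : n ≤ (windowSum n A 0 + windowSum n A 1) + (Qe.card + Qo.card) := by
      have : n / 2 + (n + 1) / 2 = n := by omega
      omega
    nlinarith
  · have h1 : n ≤ 2 * ((n + 1) / 2) := by omega
    nlinarith
  · have h1 : n ≤ 2 * (n / 2) + 1 := by omega
    nlinarith

/-- number of pairs `(a,b)` of elements of `A` with `1 ≤ 2b - a ≤ n` -/
def inp (n : ℕ) (A : Finset ℕ) : ℕ := windowSum n A 0 + windowSum n A 1

lemma inp_eq (n : ℕ) (A : Finset ℕ) : inp n A = ∑ a ∈ A, (window n A a).card := by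
  classical
  unfold inp windowSum
  rw [← Finset.sum_union]
  · refine Finset.sum_congr ?_ fun _ _ => rfl
    ext x
    simp only [Finset.mem_union, Finset.mem_filter]
    rcases Nat.mod_two_eq_zero_or_one x with hx | hx <;> simp [hx]
  · rw [Finset.disjoint_left]
    intro x hx hx'
    simp only [Finset.mem_filter] at hx hx'
    omega

/-- the counting data when `|A|^2 < n`: `t` is the difference of the parity classes -/
lemma data {n : ℕ} {m : ℝ} {A : Finset ℕ} (h : IsMaximalThreeFree n A) (hlt : A.card ^ 2 < n)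
    (hm : ∀ r, (windowSum n A r : ℝ) ≤ m * (A.filter (fun x => x % 2 = r)).card) :
    ∃ t : ℝ, 0 ≤ t ∧ t ≤ A.card ∧
      (A.card : ℝ) ^ 2 - inp n A ≤ ((A.card : ℝ) ^ 2 + t ^ 2) / 4 ∧
      (A.card : ℝ) ^ 2 ≤ ((A.card : ℝ) - t) * m + ((A.card + t) / 2) ^ 2 / 2 +
        ((A.card - t) / 2) ^ 2 := by
  obtain ⟨e, o, e0, e2, o1, o3, hk, hee, hoo, he, ho, h1, h2, h3⟩ := ineqs h
  have hm0 := hm 0
  have hm1 := hm 1
  rw [hee] at hm0
  rw [hoo] at hm1
  have hlt' : ((e + o : ℕ) : ℝ) ^ 2 + 1 ≤ n := by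
    rw [← hk] at hlt
    exact_mod_cast hlt
  unfold inp
  rw [← hk]
  set S0 := windowSum n A 0 with hS0
  set S1 := windowSum n A 1 with hS1
  have h1' : (2 * n + (e + o) : ℝ) ≤ 2 * (S0 + S1) + e * e + o * o := by
    exact_mod_cast h1
  have h2' : (n + o : ℝ) ≤ 2 * S1 + 2 * (e0 * e2) + o * o := by exact_mod_cast h2
  have h3' : (n + e : ℝ) ≤ 2 * S0 + 2 * (o1 * o3) + e * e + 1 := by exact_mod_cast h3
  have he' : (e0 + e2 : ℝ) = e := by exact_mod_cast he
  have ho' : (o1 + o3 : ℝ) = o := by exact_mod_cast ho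
  have p1 : (e0 * e2 : ℝ) ≤ e ^ 2 / 4 := by rw [← he']; nlinarith [sq_nonneg ((e0 : ℝ) - e2)]
  have p2 : (o1 * o3 : ℝ) ≤ o ^ 2 / 4 := by rw [← ho']; nlinarith [sq_nonneg ((o1 : ℝ) - o3)]
  have e0' : (0 : ℝ) ≤ e := Nat.cast_nonneg e
  have o0' : (0 : ℝ) ≤ o := Nat.cast_nonneg o
  push_cast at hlt' ⊢
  rcases le_total o e with hoe | hoe
  · have hoe' : (o : ℝ) ≤ e := by exact_mod_cast hoe
    refine ⟨e - o, by linarith, by linarith, ?_, ?_⟩
    · nlinarith
    · nlinarith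
  · have hoe' : (e : ℝ) ≤ o := by exact_mod_cast hoe
    refine ⟨o - e, by linarith, by linarith, ?_, ?_⟩
    · nlinarith
    · nlinarith

/-- a bound for all windows bounds the sums. -/
lemma windowSum_le {n : ℕ} {m : ℝ} {A : Finset ℕ}
    (hm : ∀ a ∈ A, ((window n A a).card : ℝ) ≤ m) (r : ℕ) :
    (windowSum n A r : ℝ) ≤ m * (A.filter (fun x => x % 2 = r)).card := by
  unfold windowSum
  push_cast
  calc ∑ a ∈ A.filter (fun x => x % 2 = r), ((window n A a).card : ℝ)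
      ≤ ∑ _a ∈ A.filter (fun x => x % 2 = r), m :=
        Finset.sum_le_sum fun a ha => hm a (Finset.mem_filter.mp ha).1
    _ = m * (A.filter (fun x => x % 2 = r)).card := by
        rw [Finset.sum_const, nsmul_eq_mul, mul_comm]

lemma card_pos_of_lt {n : ℕ} {A : Finset ℕ} (h : IsMaximalThreeFree n A) (hlt : A.card ^ 2 < n) :
    0 < A.card := by
  rcases Nat.eq_zero_or_pos A.card with h0 | h0
  · exfalso
    obtain ⟨t, ht0, ht1, h1, h2⟩ := data (m := (A.card : ℝ)) h hlt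
      (fun r => windowSum_le (fun a _ => by exact_mod_cast Finset.card_filter_le _ _) r)
    have hA : A = ∅ := Finset.card_eq_zero.mp h0
    subst hA
    have hn : 1 ∈ Finset.Icc 1 n := by
      rw [Finset.mem_Icc]
      simp at hlt
      omega
    apply h.2.2 1 hn (by simp)
    intro a ha b hb c hc hab hbc
    simp at ha hb hc
    omega
  · exact h0

/-- at most `5/18` of the pairs leave the window -/
theorem out_le {n : ℕ} {A : Finset ℕ} (h : IsMaximalThreeFree n A) (hlt : A.card ^ 2 < n) :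
    (A.card : ℝ) ^ 2 - inp n A ≤ 5 / 18 * (A.card : ℝ) ^ 2 := by
  obtain ⟨t, ht0, ht1, h1, h2⟩ := data (m := (A.card : ℝ)) h hlt
    (fun r => windowSum_le (fun a _ => by exact_mod_cast Finset.card_filter_le _ _) r)
  have hk : (0:ℝ) < A.card := by exact_mod_cast card_pos_of_lt h hlt
  have h3 : 3 * t ≤ A.card := by
    by_contra hc
    push Not at hc
    have : 0 < (3 * t - A.card) * (3 * A.card - t) := mul_pos (by linarith) (by linarith)
    nlinarith
  nlinarith [mul_nonneg (by linarith : (0:ℝ) ≤ A.card - 3 * t) ht0]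

lemma scale {k t c γ X : ℝ} (hk : 0 < k) (ht0 : 0 ≤ t) (ht1 : t ≤ k)
    (h1 : X ≤ (k ^ 2 + t ^ 2) / 4)
    (h2 : k ^ 2 ≤ (k - t) * (c * k) + ((k + t) / 2) ^ 2 / 2 + ((k - t) / 2) ^ 2)
    (hc : ∀ τ : ℝ, 0 ≤ τ → τ ≤ 1 → 1 ≤ c * (1 - τ) + (3 - 2 * τ + 3 * τ ^ 2) / 8 →
      (1 + τ ^ 2) / 4 ≤ γ) : X ≤ γ * k ^ 2 := by
  obtain ⟨τ, rfl⟩ : ∃ τ : ℝ, t = τ * k := ⟨t / k, (div_mul_cancel₀ t hk.ne').symm⟩
  have h3 : 0 ≤ τ := nonneg_of_mul_nonneg_left ht0 hk
  have h4 : τ ≤ 1 := by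
    by_contra hcon
    push Not at hcon
    nlinarith
  have hk2 : 0 < k ^ 2 := by positivity
  have h5 := hc τ h3 h4 (by
    have h6 : k ^ 2 * 1 ≤ k ^ 2 * (c * (1 - τ) + (3 - 2 * τ + 3 * τ ^ 2) / 8) := by
      refine le_trans (le_of_eq (mul_one _)) (h2.trans (le_of_eq ?_))
      ring
    exact le_of_mul_le_mul_left h6 hk2)
  have h6 := mul_le_mul_of_nonneg_left h5 hk2.le
  have h7 : k ^ 2 * ((1 + τ ^ 2) / 4) = (k ^ 2 + (τ * k) ^ 2) / 4 := by ring
  linarith

/-- the bound with a hypothesis on the windows, in averaged form: `c` between `1/2` and `1` and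
`γ` such that every `τ ∈ [0,1]` with `1 ≤ c (1-τ) + (3-2τ+3τ²)/8` has `(1+τ²)/4 ≤ γ` -/
theorem out_le_of {n : ℕ} {A : Finset ℕ} (h : IsMaximalThreeFree n A) (hlt : A.card ^ 2 < n)
    {c γ : ℝ} (hc : ∀ τ : ℝ, 0 ≤ τ → τ ≤ 1 → 1 ≤ c * (1 - τ) + (3 - 2 * τ + 3 * τ ^ 2) / 8 →
      (1 + τ ^ 2) / 4 ≤ γ)
    (hm : ∀ r, (windowSum n A r : ℝ)
      ≤ c * A.card * (A.filter (fun x => x % 2 = r)).card) :
    (A.card : ℝ) ^ 2 - inp n A ≤ γ * (A.card : ℝ) ^ 2 := by
  obtain ⟨t, ht0, ht1, h1, h2⟩ := data h hlt hm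
  exact scale (by exact_mod_cast card_pos_of_lt h hlt) ht0 ht1 h1 h2 hc

/-- windows at most `4/5`: at most `0.258` of the pairs leave the window `[1,n]` -/
theorem out_le_258 {n : ℕ} {A : Finset ℕ} (h : IsMaximalThreeFree n A) (hlt : A.card ^ 2 < n)
    (hw : ∀ a ∈ A, ((window n A a).card : ℝ) ≤ 4 / 5 * A.card) :
    (A.card : ℝ) ^ 2 - inp n A ≤ 258 / 1000 * (A.card : ℝ) ^ 2 :=
  out_le_of h hlt (c := 4 / 5) (fun τ h0 h1 h2 => by
    have : τ ≤ 1789 / 10000 := by
      by_contra hc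
      push Not at hc
      nlinarith [mul_nonneg (by linarith : (0:ℝ) ≤ τ - 1789 / 10000)
        (by linarith : (0:ℝ) ≤ 1 - τ)]
    nlinarith) (windowSum_le hw)

/-- windows at most `9/10`: at most `0.2671` of the pairs leave the window `[1,n]` -/
theorem out_le_2671 {n : ℕ} {A : Finset ℕ} (h : IsMaximalThreeFree n A) (hlt : A.card ^ 2 < n)
    (hw : ∀ a ∈ A, ((window n A a).card : ℝ) ≤ 9 / 10 * A.card) :
    (A.card : ℝ) ^ 2 - inp n A ≤ 2671 / 10000 * (A.card : ℝ) ^ 2 :=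
  out_le_of h hlt (c := 9 / 10) (fun τ h0 h1 h2 => by
    have : τ ≤ 2615 / 10000 := by
      by_contra hc
      push Not at hc
      nlinarith [mul_nonneg (by linarith : (0:ℝ) ≤ τ - 2615 / 10000)
        (by linarith : (0:ℝ) ≤ 1 - τ)]
    nlinarith) (windowSum_le hw)

/-- windows at most `149/200` are impossible (Concentration); windows at most `3/4`: at most
`0.2545` of the pairs leave the window -/
theorem out_le_2545 {n : ℕ} {A : Finset ℕ} (h : IsMaximalThreeFree n A) (hlt : A.card ^ 2 < n)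
    (hw : ∀ a ∈ A, ((window n A a).card : ℝ) ≤ 3 / 4 * A.card) :
    (A.card : ℝ) ^ 2 - inp n A ≤ 2545 / 10000 * (A.card : ℝ) ^ 2 :=
  out_le_of h hlt (c := 3 / 4) (fun τ h0 h1 h2 => by
    have : τ ≤ 1332 / 10000 := by
      by_contra hc
      push Not at hc
      nlinarith [mul_nonneg (by linarith : (0:ℝ) ≤ τ - 1332 / 10000)
        (by linarith : (0:ℝ) ≤ 1 - τ)]
    nlinarith) (windowSum_le hw)

lemma lin_unit {τ c x : ℝ} (h0 : 0 ≤ τ) (h1 : τ ≤ 1) (hc : c ≤ 1) (hx : x ≤ (1 + τ ^ 2) / 4)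
    (h2 : 1 ≤ c * (1 - τ) + (3 - 2 * τ + 3 * τ ^ 2) / 8) (h3 : 1 - x ≤ c) :
    x ≤ 5 / 18 - 93 / 1000 * (1 - c) := by
  rcases le_total τ (1287 / 10000) with h | h
  · have : τ ^ 2 ≤ (1287 / 10000) ^ 2 := pow_le_pow_left₀ h0 h 2
    nlinarith
  · have h4 : τ ≤ 1 / 3 := by
      by_contra hcon
      push Not at hcon
      have : 0 < (3 * τ - 1) * (3 - τ) := mul_pos (by linarith) (by linarith)
      nlinarith [mul_nonneg (by linarith : (0:ℝ) ≤ 1 - c) (by linarith : (0:ℝ) ≤ 1 - τ)]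
    have h5 : (1 - τ) * ((1 + τ ^ 2) / 4) ≤ (1 - τ) * (5 / 18 - 93 / 1000)
        + 93 / 1000 * (c * (1 - τ)) := by
      have h6 : 0 ≤ (1 / 3 - τ) * (τ - 1287 / 10000) := mul_nonneg (by linarith) (by linarith)
      nlinarith [mul_nonneg h6 (by linarith : (0:ℝ) ≤ 2 / 3 - τ), mul_nonneg h6 h0]
    have h7 : (1 - τ) * ((1 + τ ^ 2) / 4) ≤ (1 - τ) * (5 / 18 - 93 / 1000 * (1 - c)) := by
      nlinarith
    have h8 := le_of_mul_le_mul_left h7 (by linarith : (0:ℝ) < 1 - τ)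
    linarith

/-- UNCONDITIONAL LINEAR FORM: if every window `A ∩ (a/2,(a+n)/2]` has at most `W ≤ |A|` elements
then the pairs leaving `[1,n]` are at most `(5/18) k^2 - (93/1000) k (k - W)` -/
theorem out_lin {n : ℕ} {A : Finset ℕ} (h : IsMaximalThreeFree n A) (hlt : A.card ^ 2 < n)
    {W : ℝ} (hW : W ≤ A.card) (hw : ∀ a ∈ A, ((window n A a).card : ℝ) ≤ W) :
    (A.card : ℝ) ^ 2 - inp n A ≤ 5 / 18 * (A.card : ℝ) ^ 2 - 93 / 1000 * (A.card * (A.card - W)) := by
  obtain ⟨t, ht0, ht1, h1, h2⟩ := data h hlt (windowSum_le hw)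
  have h3 : (inp n A : ℝ) ≤ A.card * W := by
    rw [inp_eq]
    push_cast
    calc ∑ a ∈ A, ((window n A a).card : ℝ) ≤ ∑ _a ∈ A, W := Finset.sum_le_sum hw
      _ = A.card * W := by rw [Finset.sum_const, nsmul_eq_mul]
  have hk : (0:ℝ) < A.card := by exact_mod_cast card_pos_of_lt h hlt
  generalize (inp n A : ℝ) = X at *
  generalize (A.card : ℝ) = k at *
  obtain ⟨τ, rfl⟩ : ∃ τ : ℝ, t = τ * k := ⟨t / k, (div_mul_cancel₀ t hk.ne').symm⟩
  obtain ⟨c, rfl⟩ : ∃ c : ℝ, W = c * k := ⟨W / k, (div_mul_cancel₀ W hk.ne').symm⟩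
  have hk2 : 0 < k ^ 2 := by positivity
  obtain ⟨x, rfl⟩ : ∃ x : ℝ, X = (1 - x) * k ^ 2 :=
    ⟨1 - X / k ^ 2, by rw [sub_sub_cancel, div_mul_cancel₀ X hk2.ne']⟩
  have g0 : 0 ≤ τ := nonneg_of_mul_nonneg_left ht0 hk
  have g1 : τ ≤ 1 := by
    by_contra hcon
    push Not at hcon
    nlinarith
  have gc : c ≤ 1 := by
    by_contra hcon
    push Not at hcon
    nlinarith
  have gx : x ≤ (1 + τ ^ 2) / 4 := by
    have h6 : k ^ 2 * x ≤ k ^ 2 * ((1 + τ ^ 2) / 4) := by nlinarith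
    exact le_of_mul_le_mul_left h6 hk2
  have g2 : 1 ≤ c * (1 - τ) + (3 - 2 * τ + 3 * τ ^ 2) / 8 := by
    have h6 : k ^ 2 * 1 ≤ k ^ 2 * (c * (1 - τ) + (3 - 2 * τ + 3 * τ ^ 2) / 8) := by
      refine le_trans (le_of_eq (mul_one _)) (h2.trans (le_of_eq ?_))
      ring
    exact le_of_mul_le_mul_left h6 hk2
  have g3 : 1 - x ≤ c := by
    have h6 : k ^ 2 * (1 - x) ≤ k ^ 2 * c := by nlinarith
    exact le_of_mul_le_mul_left h6 hk2
  have h7 := mul_le_mul_of_nonneg_left (lin_unit g0 g1 gc gx g2 g3) hk2.le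
  nlinarith

/-! ### Lifted forms -/

open Finset MP61673a.W MP61673a.LiftW MP61673a.Fin
open MP61673a.Lift (liftN shift reps reps_liftN card_liftN card_shift dig dig_mem dig_bounds
  card_dig sum_liftN)

noncomputable section

lemma lab_eq_reps (A : Finset ℤ) (y : ℤ) : lab A y = (reps A y : ℝ) := by
  unfold lab reps
  push_cast
  rfl

lemma sum_Ico_ite (N z : ℤ) :
    ∑ y ∈ Ico (0:ℤ) N, (if z = y then (1:ℝ) else 0) = if 0 ≤ z ∧ z < N then 1 else 0 := by
  rw [sum_ite_eq (Ico (0:ℤ) N) z (fun _ => (1:ℝ))]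
  simp only [mem_Ico]

/-- pairs of the translate with label in `[0,n)` -/
lemma sum_lab_shift (n : ℕ) (A : Finset ℕ) :
    ∑ y ∈ Ico (0:ℤ) n, lab (shift A) y = inp n A := by
  have hinj : Set.InjOn (fun a : ℕ => (a : ℤ) - 1) A := by
    intro a _ b _ h
    simp only at h
    omega
  rw [inp_eq]
  unfold lab shift
  rw [sum_comm, sum_image hinj]
  push_cast
  refine sum_congr rfl fun a _ => ?_
  rw [sum_comm, sum_image hinj]
  unfold window
  rw [card_filter]
  push_cast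
  refine sum_congr rfl fun b _ => ?_
  rw [sum_Ico_ite]
  by_cases c : a < 2 * b ∧ 2 * b ≤ a + n
  · rw [if_pos c, if_pos (by omega)]
  · rw [if_neg c, if_neg (by omega)]

lemma sum_div_block (m : ℤ) (hm : 0 < m) (n : ℤ) (g : ℤ → ℝ) :
    ∑ y ∈ Ico (0:ℤ) (m * n), g (y / m) = m * ∑ x ∈ Ico (0:ℤ) n, g x := by
  have h1 : ∀ y ∈ Ico (0:ℤ) (m * n), g (y / m) = ∑ x ∈ Ico (0:ℤ) n, if y / m = x then g x else 0 := by
    intro y hy
    rw [mem_Ico] at hy
    rw [sum_ite_eq (Ico (0:ℤ) n) (y / m) g, if_pos]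
    rw [mem_Ico]
    exact ⟨Int.ediv_nonneg hy.1 hm.le, Int.ediv_lt_of_lt_mul hm (by linarith [hy.2, mul_comm m n])⟩
  rw [sum_congr rfl h1, sum_comm, mul_sum]
  refine sum_congr rfl fun x hx => ?_
  rw [← sum_filter, sum_const, nsmul_eq_mul]
  congr 1
  have h2 : (Ico (0:ℤ) (m * n)).filter (fun y => y / m = x) = Ico (m * x) (m * x + m) := by
    ext y
    rw [mem_Ico] at hx
    rw [mem_filter, mem_Ico, mem_Ico]
    constructor
    · rintro ⟨_, h⟩
      have e1 := Int.mul_ediv_add_emod y m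
      have e2 := Int.emod_nonneg y hm.ne'
      have e3 := Int.emod_lt_of_pos y hm
      rw [h] at e1
      constructor <;> linarith
    · rintro ⟨h3, h4⟩
      have e4 : 0 ≤ m * x := mul_nonneg hm.le hx.1
      have e5 : m * (x + 1) ≤ m * n := mul_le_mul_of_nonneg_left (by linarith [hx.2]) hm.le
      refine ⟨⟨by linarith, by linarith⟩, ?_⟩
      apply le_antisymm
      · exact Int.le_of_lt_add_one (Int.ediv_lt_of_lt_mul hm (by linarith))
      · exact Int.le_ediv_of_mul_le hm (by linarith)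
  rw [h2, Int.card_Ico]
  have h3 : (((m * x + m - m * x).toNat : ℕ) : ℤ) = m := by
    rw [Int.toNat_of_nonneg (by linarith)]
    ring
  exact_mod_cast h3

/-- the labels of the lifted set: `4^t` times as many pairs in the window -/
lemma sum_lab_liftN (t : ℕ) (B : Finset ℤ) (n : ℤ) :
    ∑ y ∈ Ico (0:ℤ) (4 ^ t * n), lab (liftN t B) y = 4 ^ t * ∑ x ∈ Ico (0:ℤ) n, lab B x := by
  have h := sum_div_block (4 ^ t) (by positivity) n (fun x => lab B x)
  push_cast at h
  rw [← h]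
  refine sum_congr rfl fun y _ => ?_
  rw [lab_eq_reps, lab_eq_reps, reps_liftN]

lemma lab_le_card (B : Finset ℤ) (y : ℤ) : lab B y ≤ B.card := by
  unfold lab
  rw [sum_comm]
  calc ∑ j ∈ B, ∑ i ∈ B, (if 2 * j - i = y then (1:ℝ) else 0)
      ≤ ∑ j ∈ B, (1:ℝ) := by
        refine sum_le_sum fun j _ => ?_
        have h1 : ∑ i ∈ B, (if 2 * j - i = y then (1:ℝ) else 0)
            = ∑ i ∈ B, (if 2 * j - y = i then (1:ℝ) else 0) := by
          refine sum_congr rfl fun i _ => ?_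
          by_cases c : 2 * j - i = y
          · rw [if_pos c, if_pos (by omega)]
          · rw [if_neg c, if_neg (by omega)]
        rw [h1, sum_ite_eq B (2 * j - y) (fun _ => (1:ℝ))]
        split_ifs <;> norm_num
    _ = B.card := by rw [sum_const, nsmul_eq_mul, mul_one]

/-- cutting the window from `N` to `3D+1` loses at most 11 labels -/
lemma sum_lab_cut (B : Finset ℤ) {D N : ℤ} (h0 : 0 ≤ D) (h1 : 3 * D + 1 ≤ N)
    (h2 : N ≤ 3 * D + 12) :
    ∑ y ∈ Ico (0:ℤ) N, lab B y - 11 * B.card ≤ ∑ y ∈ Ico (0:ℤ) (3 * D + 1), lab B y := by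
  have h3 : ∑ y ∈ Ico (0:ℤ) N, lab B y = ∑ y ∈ Ico (0:ℤ) (3 * D + 1), lab B y
      + ∑ y ∈ Ico (3 * D + 1) N, lab B y := by
    rw [← sum_union]
    · refine sum_congr ?_ fun _ _ => rfl
      ext y
      simp only [mem_union, mem_Ico]
      omega
    · rw [disjoint_left]
      intro y hy hy'
      rw [mem_Ico] at hy hy'
      omega
  have h4 : ∑ y ∈ Ico (3 * D + 1) N, lab B y ≤ 11 * B.card := by
    calc ∑ y ∈ Ico (3 * D + 1) N, lab B y ≤ ∑ _y ∈ Ico (3 * D + 1) N, (B.card : ℝ) :=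
          sum_le_sum fun y _ => lab_le_card B y
      _ = ((Ico (3 * D + 1) N).card : ℝ) * B.card := by rw [sum_const, nsmul_eq_mul]
      _ ≤ 11 * B.card := by
          apply mul_le_mul_of_nonneg_right _ (Nat.cast_nonneg _)
          rw [Int.card_Ico]
          have : (N - (3 * D + 1)).toNat ≤ 11 := by omega
          exact_mod_cast this
  linarith

/-- pairs `(a,b)` of the family with `u a - 2 u b ≥ j`, full weights -/
def nf (P : WS) (j : ℤ) : ℝ :=
  ∑ a ∈ P.S, ∑ b ∈ P.S, if j ≤ P.u a - 2 * P.u b then P.f a * P.f b else 0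

/-- pairs whose label `2b-a` leaves the window -/
def outF (P Q : WS) (D : ℤ) : ℝ := cc P Q 0 + cc Q P 0 + nf P (D + 1) + nf Q (D + 1)

lemma outF_nonneg {P Q : WS} (hP : Good P) (hQ : Good Q) (D : ℤ) : 0 ≤ outF P Q D := by
  unfold outF nf
  have h1 := cc_nonneg hP hQ 0
  have h2 := cc_nonneg hQ hP 0
  have h3 : 0 ≤ ∑ a ∈ P.S, ∑ b ∈ P.S, (if D + 1 ≤ P.u a - 2 * P.u b then P.f a * P.f b else 0) :=
    sum_nonneg fun a ha => sum_nonneg fun b hb =>
      ite_nonneg' (mul_nonneg (hP.f_nonneg a ha) (hP.f_nonneg b hb))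
  have h4 : 0 ≤ ∑ a ∈ Q.S, ∑ b ∈ Q.S, (if D + 1 ≤ Q.u a - 2 * Q.u b then Q.f a * Q.f b else 0) :=
    sum_nonneg fun a ha => sum_nonneg fun b hb =>
      ite_nonneg' (mul_nonneg (hQ.f_nonneg a ha) (hQ.f_nonneg b hb))
  linarith

lemma outF_add_le (A : Finset ℤ) (D : ℤ) (φ1 ψ1 : ℤ → ℝ) :
    outF (PP A (cut D) φ1 D) (QQ A (cut D) ψ1 D) D + ∑ y ∈ Ico (0:ℤ) (3 * D + 1), lab A y
      ≤ (A.card : ℝ) ^ 2 := by
  have e : (A.card : ℝ) ^ 2 = ∑ i ∈ A, ∑ j ∈ A, (1:ℝ) := by
    simp only [sum_const, nsmul_eq_mul, mul_one]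
    ring
  have e2 : ∑ y ∈ Ico (0:ℤ) (3 * D + 1), lab A y
      = ∑ i ∈ A, ∑ j ∈ A, if 0 ≤ 2 * j - i ∧ 2 * j - i < 3 * D + 1 then (1:ℝ) else 0 := by
    unfold lab
    rw [sum_comm]
    refine sum_congr rfl fun i _ => ?_
    rw [sum_comm]
    refine sum_congr rfl fun j _ => ?_
    rw [sum_Ico_ite]
  have e3 : cc (QQ A (cut D) ψ1 D) (PP A (cut D) φ1 D) 0
      = ∑ i ∈ A, ∑ j ∈ A, (if (2 * D - i) + 2 * (j - D) < 0 then (1 - cut D i) * cut D j else 0) :=
    rfl
  have e4 : cc (PP A (cut D) φ1 D) (QQ A (cut D) ψ1 D) 0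
      = ∑ i ∈ A, ∑ j ∈ A, (if (i - D) + 2 * (2 * D - j) < 0 then cut D i * (1 - cut D j) else 0) :=
    rfl
  have e5 : nf (PP A (cut D) φ1 D) (D + 1)
      = ∑ i ∈ A, ∑ j ∈ A, (if D + 1 ≤ (i - D) - 2 * (j - D) then cut D i * cut D j else 0) := rfl
  have e6 : nf (QQ A (cut D) ψ1 D) (D + 1)
      = ∑ i ∈ A, ∑ j ∈ A, (if D + 1 ≤ (2 * D - i) - 2 * (2 * D - j)
          then (1 - cut D i) * (1 - cut D j) else 0) := rfl
  unfold outF
  rw [e, e2, e3, e4, e5, e6]
  simp only [← sum_add_distrib]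
  refine sum_le_sum fun i _ => sum_le_sum fun j _ => ?_
  unfold cut
  by_cases c1 : 2 * i ≤ 3 * D
  · by_cases c2 : 2 * j ≤ 3 * D
    · rw [if_pos c1, if_pos c2]
      norm_num
      split_ifs <;> first | (exfalso; omega) | norm_num
    · rw [if_pos c1, if_neg c2]
      norm_num
      split_ifs <;> first | (exfalso; omega) | norm_num
  · by_cases c2 : 2 * j ≤ 3 * D
    · rw [if_neg c1, if_pos c2]
      norm_num
      split_ifs <;> first | (exfalso; omega) | norm_num
    · rw [if_neg c1, if_neg c2]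
      norm_num
      split_ifs <;> first | (exfalso; omega) | norm_num

/-- ROW OUT, lifted: if `|A|^2 - inp ≤ γ |A|^2` then the pairs of `A_t` leaving the window are at
most `γ |A_t|^2 + 11 |A_t|`, for every choice of the doubled weights -/
theorem outF_le {n : ℕ} {A : Finset ℕ} {γ : ℝ}
    (hγ : (A.card : ℝ) ^ 2 - inp n A ≤ γ * (A.card : ℝ) ^ 2) (t : ℕ) {D : ℤ} (hD : 0 ≤ D)
    (h1 : 3 * D + 1 ≤ 4 ^ t * (n : ℤ)) (h2 : 4 ^ t * (n : ℤ) ≤ 3 * D + 12) (φ1 ψ1 : ℤ → ℝ) :
    outF (PP (liftN t (shift A)) (cut D) φ1 D) (QQ (liftN t (shift A)) (cut D) ψ1 D) D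
      ≤ γ * ((liftN t (shift A)).card : ℝ) ^ 2 + 11 * (liftN t (shift A)).card := by
  have h3 := outF_add_le (liftN t (shift A)) D φ1 ψ1
  have h4 := sum_lab_cut (liftN t (shift A)) hD h1 h2
  have h5 := sum_lab_liftN t (shift A) n
  rw [sum_lab_shift] at h5
  rw [h5] at h4
  have h6 : ((liftN t (shift A)).card : ℝ) ^ 2 = 4 ^ t * (A.card : ℝ) ^ 2 := by
    rw [card_liftN, card_shift]
    push_cast
    rw [mul_pow, ← pow_mul, mul_comm t 2, pow_mul]
    norm_num
  have h7 : (4:ℝ) ^ t * ((A.card : ℝ) ^ 2 - inp n A) ≤ 4 ^ t * (γ * (A.card : ℝ) ^ 2) :=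
    mul_le_mul_of_nonneg_left hγ (by positivity)
  rw [h6] at h3 ⊢
  linarith

/-- the same in terms of the masses of the two families -/
theorem outF_le_mass {n : ℕ} {A : Finset ℕ} {γ : ℝ}
    (hγ : (A.card : ℝ) ^ 2 - inp n A ≤ γ * (A.card : ℝ) ^ 2) (t : ℕ) {D : ℤ} (hD : 0 ≤ D)
    (h1 : 3 * D + 1 ≤ 4 ^ t * (n : ℤ)) (h2 : 4 ^ t * (n : ℤ) ≤ 3 * D + 12) {φ1 ψ1 : ℤ → ℝ}
    {P Q : WS} (hP : P = PP (liftN t (shift A)) (cut D) φ1 D)
    (hQ : Q = QQ (liftN t (shift A)) (cut D) ψ1 D) :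
    outF P Q D ≤ γ * (mass P + mass Q) ^ 2 + 11 * (mass P + mass Q) := by
  subst hP hQ
  rw [mass_add]
  exact outF_le hγ t hD h1 h2 φ1 ψ1

/-- a window of `A` in the lifted set: an interval of length `4^t n / 2` with `2^t` times as many
elements -/
theorem window_lift (n : ℕ) (A : Finset ℕ) (a : ℕ) {t : ℕ} (ht : 1 ≤ t) :
    ∃ x : ℤ, 2 ^ t * (window n A a).card
      ≤ ((liftN t (shift A)).filter (fun y => x ≤ y ∧ 2 * (y - x) ≤ 4 ^ t * (n:ℤ))).card := by
  refine ⟨4 ^ t * ((a:ℤ) / 2) + (4 ^ t - 1) / 3, ?_⟩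
  have h4 : (4:ℤ) ≤ 4 ^ t := by
    calc (4:ℤ) = 4 ^ 1 := by norm_num
      _ ≤ 4 ^ t := pow_le_pow_right₀ (by norm_num) ht
  have h1 : 2 ^ t * (window n A a).card
      = (((window n A a) ×ˢ dig t).image (fun p => 4 ^ t * ((p.1:ℤ) - 1) + p.2)).card := by
    rw [card_image_of_injOn]
    · rw [card_product, card_dig, mul_comm]
    · intro p hp q hq hpq
      rw [mem_coe, mem_product] at hp hq
      have b1 := dig_bounds hp.2
      have b2 := dig_bounds hq.2
      simp only at hpq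
      have e1 : ((p.1:ℤ) - 1) = ((q.1:ℤ) - 1) := by
        have g1 : (4 ^ t * ((p.1:ℤ) - 1) + p.2) / 4 ^ t = (p.1:ℤ) - 1 := by
          rw [add_comm, Int.add_mul_ediv_left _ _ (by positivity),
            Int.ediv_eq_zero_of_lt b1.1 b1.2, zero_add]
        have g2 : (4 ^ t * ((q.1:ℤ) - 1) + q.2) / 4 ^ t = (q.1:ℤ) - 1 := by
          rw [add_comm, Int.add_mul_ediv_left _ _ (by positivity),
            Int.ediv_eq_zero_of_lt b2.1 b2.2, zero_add]
        rw [← g1, ← g2, hpq]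
      rw [e1] at hpq
      have e2 : p.2 = q.2 := by linarith
      have e3 : p.1 = q.1 := by omega
      exact Prod.ext e3 e2
  rw [h1]
  apply card_le_card
  intro y hy
  rw [mem_image] at hy
  obtain ⟨p, hp, rfl⟩ := hy
  rw [mem_product] at hp
  have b1 := dig_mem hp.2
  have hw := hp.1
  unfold window at hw
  rw [mem_filter] at hw
  obtain ⟨hA, hw1, hw2⟩ := hw
  have hmem : 4 ^ t * ((p.1:ℤ) - 1) + p.2 ∈ liftN t (shift A) :=
    MP61673a.Lift.mem_liftN.2 ⟨(p.1:ℤ) - 1, MP61673a.Lift.mem_shift hA, p.2, hp.2, rfl⟩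
  rw [mem_filter]
  have g1 : (a:ℤ) / 2 ≤ (p.1:ℤ) - 1 := by omega
  have g2 : 2 * (((p.1:ℤ) - 1) - (a:ℤ) / 2) ≤ (n:ℤ) - 1 := by omega
  have m1 : (4:ℤ) ^ t * ((a:ℤ) / 2) ≤ 4 ^ t * ((p.1:ℤ) - 1) :=
    mul_le_mul_of_nonneg_left g1 (by positivity)
  have m2 : (4:ℤ) ^ t * (2 * (((p.1:ℤ) - 1) - (a:ℤ) / 2)) ≤ 4 ^ t * ((n:ℤ) - 1) :=
    mul_le_mul_of_nonneg_left g2 (by positivity)
  have m3 : (4:ℤ) ^ t * (2 * (((p.1:ℤ) - 1) - (a:ℤ) / 2))
      = 2 * (4 ^ t * ((p.1:ℤ) - 1)) - 2 * (4 ^ t * ((a:ℤ) / 2)) := by ring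
  have m4 : (4:ℤ) ^ t * ((n:ℤ) - 1) = 4 ^ t * n - 4 ^ t := by ring
  rw [m3, m4] at m2
  refine ⟨hmem, ?_, ?_⟩
  · omega
  · omega

/-- LIFTED LINEAR FORM: there is an interval of length `4^t n / 2` such that
`Out + (93/1000) M (M - elements in the interval) ≤ (5/18) M^2 + 11 M`, `M = |A_t|` -/
theorem out_lin_lift {n : ℕ} {A : Finset ℕ} (h : IsMaximalThreeFree n A)
    (hlt : A.card ^ 2 < n) {t : ℕ} (ht : 1 ≤ t) {D : ℤ} (hD : 0 ≤ D)
    (h1 : 3 * D + 1 ≤ 4 ^ t * (n : ℤ)) (h2 : 4 ^ t * (n : ℤ) ≤ 3 * D + 12) :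
    ∃ x : ℤ, ∀ φ1 ψ1 : ℤ → ℝ,
      outF (PP (liftN t (shift A)) (cut D) φ1 D) (QQ (liftN t (shift A)) (cut D) ψ1 D) D
        + 93 / 1000 * (((liftN t (shift A)).card : ℝ) * (((liftN t (shift A)).card : ℝ)
          - ((liftN t (shift A)).filter (fun y => x ≤ y ∧ 2 * (y - x) ≤ 4 ^ t * (n:ℤ))).card))
      ≤ 5 / 18 * ((liftN t (shift A)).card : ℝ) ^ 2 + 11 * (liftN t (shift A)).card := by
  have hne : A.Nonempty := card_pos.mp (card_pos_of_lt h hlt)
  obtain ⟨a, ha, hmax⟩ := exists_max_image A (fun a => (window n A a).card) hne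
  obtain ⟨x, hx⟩ := window_lift n A a ht
  refine ⟨x, fun φ1 ψ1 => ?_⟩
  set M : ℝ := ((liftN t (shift A)).card : ℝ) with hM
  set w : ℝ := ((window n A a).card : ℝ) with hw
  set f : ℝ := (((liftN t (shift A)).filter
    (fun y => x ≤ y ∧ 2 * (y - x) ≤ 4 ^ t * (n:ℤ))).card : ℝ) with hf
  have hk : (0:ℝ) < A.card := by exact_mod_cast card_pos_of_lt h hlt
  have hwk : w ≤ A.card := by
    rw [hw]
    exact_mod_cast card_filter_le _ _
  have h3 := out_lin h hlt hwk (fun b hb => by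
    rw [hw]
    exact_mod_cast hmax b hb)
  have h4 : (A.card : ℝ) ^ 2 - inp n A
      ≤ (5 / 18 - 93 / 1000 * ((A.card - w) / A.card)) * (A.card : ℝ) ^ 2 := by
    refine h3.trans (le_of_eq ?_)
    have e : (A.card - w) / A.card * (A.card : ℝ) ^ 2 = A.card * (A.card - w) := by
      rw [pow_two, ← mul_assoc, div_mul_cancel₀ _ hk.ne', mul_comm]
    linear_combination (93 / 1000 : ℝ) * e
  have h5 := outF_le h4 t hD h1 h2 φ1 ψ1
  rw [← hM] at h5
  have hMk : M = 2 ^ t * A.card := by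
    rw [hM, card_liftN, card_shift]
    push_cast
    ring
  have hf2 : 2 ^ t * w ≤ f := by
    rw [hf, hw]
    exact_mod_cast hx
  have e2 : (5 / 18 - 93 / 1000 * ((A.card - w) / A.card)) * M ^ 2
      = 5 / 18 * M ^ 2 - 93 / 1000 * (M * (M - 2 ^ t * w)) := by
    rw [hMk]
    field_simp
  have hM0 : 0 ≤ M := by
    rw [hM]
    exact Nat.cast_nonneg _
  have h6 : M * (M - f) ≤ M * (M - 2 ^ t * w) := mul_le_mul_of_nonneg_left (by linarith) hM0
  rw [e2] at h5
  linarith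

end

end MP61673a.Out
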