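import Pool.Agent.Mu673.Env
import Pool.Agent.Mu673.Out

/-!
The parity count fact in the language of the frame, symmetric in the two sides.
-/

namespace MP61673a.Fin

open Finset MP61673a.W MP61673a.LiftW MP61673a.Mids
open MP61673a.Lift hiding PP QQ
open MP61673a.Out

noncomputable section

/-- total mass -/
def tm (P Q : WS) : ℝ := mass P + mass Q

/-- PARITY COUNT FACT, linear form: pairs whose label leaves the window, plus `0.093` times total
mass times mass outside some interval of length half the window, are at most `5/18` of all pairs -/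
def OutFact (P Q : WS) (D : ℤ) : Prop :=
  ∃ x : ℤ, outF P Q D + 93 / 1000 * (tm P Q * (tm P Q - winM P Q D x))
    ≤ 5 / 18 * tm P Q ^ 2 + 11 * tm P Q

lemma tm_nonneg {P Q : WS} (hP : Good P) (hQ : Good Q) : 0 ≤ tm P Q :=
  add_nonneg (mass_nonneg hP) (mass_nonneg hQ)

lemma outF_symm (P Q : WS) (D : ℤ) : outF P Q D = outF Q P D := by
  unfold outF
  ring

lemma OutFact.symm {P Q : WS} (hP : Good P) (hQ : Good Q) {D : ℤ} (h : OutFact P Q D) :
    OutFact Q P D := by
  obtain ⟨x, hx⟩ := h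
  refine ⟨(3 * D - 2 * x - 12 + 1) / 2, ?_⟩
  have h1 : winM P Q D x ≤ winM Q P D ((3 * D - 2 * x - 12 + 1) / 2) := by
    unfold winM
    rw [add_comm]
    refine add_le_add (sum_le_sum fun b hb => mul_le_mul_of_nonneg_left ?_ (hQ.f_nonneg b hb))
      (sum_le_sum fun a ha => mul_le_mul_of_nonneg_left ?_ (hP.f_nonneg a ha))
    · by_cases c : x ≤ 2 * D - Q.u b ∧ 2 * (2 * D - Q.u b - x) ≤ 3 * D + 12
      · rw [if_pos c, if_pos (by omega)]
      · rw [if_neg c]
        split_ifs <;> norm_num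
    · by_cases c : x ≤ D + P.u a ∧ 2 * (D + P.u a - x) ≤ 3 * D + 12
      · rw [if_pos c, if_pos (by omega)]
      · rw [if_neg c]
        split_ifs <;> norm_num
  have h2 := tm_nonneg hP hQ
  have h3 : tm Q P = tm P Q := by unfold tm; ring
  rw [h3, ← outF_symm P Q]
  have h4 := mul_le_mul_of_nonneg_left h1 h2
  nlinarith

/-- the fact holds in the hybrid frame -/
theorem out_hyb {n : ℕ} {A : Finset ℕ} (h : IsMaximalThreeFree n A)
    (hlt : A.card ^ 2 < n) {t : ℕ} (ht : 1 ≤ t) {D : ℤ} (z : ℤ) (hD : 0 ≤ D)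
    (h1 : 3 * D + 1 ≤ 4 ^ t * (n : ℤ)) (h2 : 4 ^ t * (n : ℤ) ≤ 3 * D + 12) :
    OutFact (PH (liftN t (shift A)) D z) (QH (liftN t (shift A)) D z) D := by
  obtain ⟨x, hx⟩ := out_lin_lift h hlt ht hD h1 h2
  have hx := hx (fun x => if D - z ≤ x then cut D x else 0)
    (fun x => if x ≤ 2 * D + z then 1 - cut D x else 0)
  refine ⟨x, ?_⟩
  have hm := mass_add (liftN t (shift A)) (cut D) (fun x => if D - z ≤ x then cut D x else 0)
    (fun x => if x ≤ 2 * D + z then 1 - cut D x else 0) D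
  have e0 : tm (PH (liftN t (shift A)) D z) (QH (liftN t (shift A)) D z)
      = (liftN t (shift A)).card := hm
  rw [e0]
  have h3 : ((((liftN t (shift A)).filter
      (fun y => x ≤ y ∧ 2 * (y - x) ≤ 4 ^ t * (n:ℤ))).card : ℕ) : ℝ)
      ≤ winM (PH (liftN t (shift A)) D z) (QH (liftN t (shift A)) D z) D x := by
    rw [card_filter]
    push_cast
    have e1 : winM (PH (liftN t (shift A)) D z) (QH (liftN t (shift A)) D z) D x
        = ∑ y ∈ liftN t (shift A), (if x ≤ y ∧ 2 * (y - x) ≤ 3 * D + 12 then (1:ℝ) else 0) := by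
      change ∑ a ∈ liftN t (shift A), cut D a * (if x ≤ D + (a - D)
          ∧ 2 * (D + (a - D) - x) ≤ 3 * D + 12 then (1:ℝ) else 0)
        + ∑ b ∈ liftN t (shift A), (1 - cut D b) * (if x ≤ 2 * D - (2 * D - b)
          ∧ 2 * (2 * D - (2 * D - b) - x) ≤ 3 * D + 12 then (1:ℝ) else 0) = _
      rw [← sum_add_distrib]
      refine sum_congr rfl fun y _ => ?_
      rw [show D + (y - D) = y by ring, show 2 * D - (2 * D - y) = y by ring]
      ring
    rw [e1]
    refine sum_le_sum fun y _ => ?_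
    by_cases c : x ≤ y ∧ 2 * (y - x) ≤ 4 ^ t * (n:ℤ)
    · rw [if_pos c, if_pos ⟨c.1, c.2.trans h2⟩]
    · rw [if_neg c]
      split_ifs <;> norm_num
  have h4 : (0:ℝ) ≤ (liftN t (shift A)).card := Nat.cast_nonneg _
  have h5 := mul_le_mul_of_nonneg_left h3 h4
  linarith

end

end MP61673a.Fin
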