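import Pool.Agent.Mu673.Incl

/-!
The rest of the identity in ANY admissible frame (hybrid frames): exotic labels with an excluded
centre, same-side exotic labels, blocks of midpoints; exact prices and crude prices.
-/

namespace MP61673a.Fin

open Finset MP61673a.W MP61673a.LiftW
open MP61673a.Lift hiding PP QQ

noncomputable section

/-- pairs `(a,b)` of one side with `u a - 2 u b = j`, `b` an excluded centre -/
def qc (P : WS) (j : ℤ) : ℝ :=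
  ∑ a ∈ P.S, ∑ b ∈ P.S, if P.u a - 2 * P.u b = j then P.f a * (P.f b - P.f1 b) else 0

lemma qc_nonneg {P : WS} (hP : Good P) (j : ℤ) : 0 ≤ qc P j :=
  sum_nonneg fun a ha => sum_nonneg fun b hb =>
    ite_nonneg' (mul_nonneg (hP.f_nonneg a ha) (sub_nonneg.2 (hP.f1_le b hb)))

/-- value of the useless pairs of one side, any frame -/
def UUg (P Q : WS) (K T ρ : ℤ) : ℝ :=
  ∑ a ∈ P.S, ∑ b ∈ Q.S, (if P.u a + 2 * Q.u b < 0 then
    P.f a * Q.f b * (T + 1 + nn P (1 + ρ))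
      - P.f1 a * Q.f1 b * KK P Q K ρ (P.u a) (Q.u b) else 0)

/-- gains of the pairs with label `≥ 0`, any frame -/
def GGg (P Q : WS) (K ρ : ℤ) : ℝ :=
  ∑ a ∈ P.S, ∑ b ∈ Q.S, (if 0 ≤ P.u a + 2 * Q.u b then
    P.f1 a * Q.f1 b * KC P Q K ρ (P.u a) (Q.u b)
      + (P.f a * Q.f b - P.f1 a * Q.f1 b)
        * dd P Q (2 * K + 1 + ρ + 2 * (P.u a + 2 * Q.u b)) else 0)

/-- the two remaining gains of one side, any frame -/
def HHg (P Q : WS) (D K T ρ : ℤ) : ℝ :=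
  (T + 1 + nn P (1 + ρ)) * nn Q (D + 1)
      + ∑ s ∈ Ico 0 D, qq Q (D - s) * dd P Q (2 * K + 1 + ρ + 2 * s)

lemma side0_g (P Q : WS) (D K T ρ : ℤ) :
    side0 P Q D K T ρ = UUg P Q K T ρ + GGg P Q K ρ + HHg P Q D K T ρ + deep P Q D K T ρ := by
  rw [side0_K]
  unfold UUg GGg HHg
  have h1 : ∑ a ∈ P.S, ∑ b ∈ Q.S, (if P.u a + 2 * Q.u b < 0 then
      P.f a * Q.f b * (T + 1 + nn P (1 + ρ))
        - P.f1 a * Q.f1 b * KK P Q K ρ (P.u a) (Q.u b) else 0)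
      = (T + 1 + nn P (1 + ρ)) * cc P Q 0
        - ∑ a ∈ P.S, ∑ b ∈ Q.S, P.f1 a * Q.f1 b * (if P.u a + 2 * Q.u b < 0 then
            KK P Q K ρ (P.u a) (Q.u b) else 0) := by
    unfold cc
    rw [mul_sum, ← sum_sub_distrib]
    refine sum_congr rfl fun a _ => ?_
    rw [mul_sum, ← sum_sub_distrib]
    refine sum_congr rfl fun b _ => ?_
    split_ifs <;> ring
  have h2 : ∑ a ∈ P.S, ∑ b ∈ Q.S, (if 0 ≤ P.u a + 2 * Q.u b then
      P.f1 a * Q.f1 b * KC P Q K ρ (P.u a) (Q.u b)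
      + (P.f a * Q.f b - P.f1 a * Q.f1 b)
        * dd P Q (2 * K + 1 + ρ + 2 * (P.u a + 2 * Q.u b)) else 0)
      = ∑ a ∈ P.S, ∑ b ∈ Q.S, P.f1 a * Q.f1 b * (if 0 ≤ P.u a + 2 * Q.u b then
            KC P Q K ρ (P.u a) (Q.u b) else 0)
        + ∑ a ∈ P.S, ∑ b ∈ Q.S, (P.f a * Q.f b - P.f1 a * Q.f1 b)
            * (if 0 ≤ P.u a + 2 * Q.u b then
            dd P Q (2 * K + 1 + ρ + 2 * (P.u a + 2 * Q.u b)) else 0) := by
    simp only [← sum_add_distrib]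
    refine sum_congr rfl fun a _ => sum_congr rfl fun b _ => ?_
    split_ifs <;> ring
  rw [h1, h2]
  ring

/-- one side in any frame, exact prices -/
theorem side_ge_g {P Q : WS} (hP : Good P) (hQ : Good Q) {D K T ρ σ L : ℤ} {ξ : ℤ → ℝ}
    (hT : -1 ≤ T) (hK : 0 ≤ K) (hD : D = 2 * T + 2 * K + 1 + ρ + σ) (hσ0 : 0 ≤ σ) (hσ : σ ≤ 2)
    (hL : ∀ a ∈ P.S, ∀ b ∈ Q.S, P.f a * Q.f b ≠ 0 → P.u a + 2 * Q.u b ≤ L)
    (hL2 : L ≤ 2 * K + 2 + ρ + 2 * (2 * K + ρ)) (hM : 2 * K + ρ ≤ D - K)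
    (hcov : Covers P Q D ξ) (h0 : 0 ≤ price P Q D K T ρ 0) :
    UUg P Q K T ρ + GGg P Q K ρ + HHg P Q D K T ρ
      + (nn P (1 + ρ) - ((L:ℝ) - D + σ) / 2) * dd P Q D
      - ∑ s ∈ Ico 0 D, ξ s * price P Q D K T ρ s
      ≤ side0 P Q D K T ρ + waste P Q D K T ρ := by
  have h1 := deep_ge' (ρ := ρ) hP hQ hK hD hσ0 hσ hL
  have h2 := waste_ge (P := P) (Q := Q) (K := K) (T := T) (ρ := ρ) hcov
    (fun s hs _ => price_nonneg hP hQ hT h0 hM
      (fun a ha b hb h => (hL a ha b hb h).trans hL2) hs)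
  have h3 := side0_g P Q D K T ρ
  linarith

/-- three sums: the label sum to the end -/
lemma sum_swap (A : Finset ℤ) (D : ℤ) (F : ℤ → ℤ → ℤ → ℝ) :
    ∑ s ∈ Ico 0 D, ∑ i ∈ A, ∑ j ∈ A, F s i j = ∑ i ∈ A, ∑ j ∈ A, ∑ s ∈ Ico 0 D, F s i j := by
  rw [sum_comm]
  refine sum_congr rfl fun i _ => ?_
  rw [sum_comm]

/-- the exotic right labels in any frame -/
lemma sum_extraR_g (A : Finset ℤ) (D : ℤ) (φ1 ψ1 : ℤ → ℝ) (g : ℤ → ℝ) :
    ∑ s ∈ Ico 0 D, extraR A (cut D) ψ1 D s * g s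
      = ∑ s ∈ Ico 0 D, qc (QQ A (cut D) ψ1 D) (D - s) * g s + xx (PP A (cut D) φ1 D) D g := by
  have h0 : xx (PP A (cut D) φ1 D) D g
      = ∑ s ∈ Ico 0 D, extraR A (cut D) (fun x => 1 - cut D x) D s * g s :=
    (sum_extraR A D φ1 g).symm
  rw [h0, ← sum_add_distrib]
  refine sum_congr rfl fun s _ => ?_
  rw [← add_mul]
  congr 1
  unfold extraR qc QQ
  simp only [← sum_add_distrib]
  refine sum_congr rfl fun i _ => sum_congr rfl fun j _ => ?_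
  by_cases c : 2 * j - i = 3 * D - s
  · rw [if_pos c, if_pos (by linarith), if_pos c]
    ring
  · rw [if_neg c, if_neg (fun h => c (by linarith)), if_neg c]
    ring

/-- the exotic left labels in any frame -/
lemma sum_extraL_g (A : Finset ℤ) (D : ℤ) (φ1 ψ1 : ℤ → ℝ) (g : ℤ → ℝ) :
    ∑ s ∈ Ico 0 D, extraL A (cut D) φ1 s * g s
      = ∑ s ∈ Ico 0 D, qc (PP A (cut D) φ1 D) (D - s) * g s + xx (QQ A (cut D) ψ1 D) D g := by
  have h0 : xx (QQ A (cut D) ψ1 D) D g = ∑ s ∈ Ico 0 D, extraL A (cut D) (cut D) s * g s :=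
    (sum_extraL A D ψ1 g).symm
  rw [h0, ← sum_add_distrib]
  refine sum_congr rfl fun s _ => ?_
  rw [← add_mul]
  congr 1
  unfold extraL qc PP
  simp only [← sum_add_distrib]
  refine sum_congr rfl fun i _ => sum_congr rfl fun j _ => ?_
  by_cases c : 2 * j - i = s
  · rw [if_pos c, if_pos (by linarith), if_pos c]
    ring
  · rw [if_neg c, if_neg (fun h => c (by linarith)), if_neg c]
    ring

/-- `rest` in any admissible frame, exact prices -/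
theorem rest_ge_gen (A : Finset ℤ) (X : ℤ → Prop) {D K : ℤ} (hK : 1 ≤ K) (hD : D = 4 * K + 1)
    {φ1 ψ1 : ℤ → ℝ} (hA : Adm D φ1 ψ1) (hcov : Cov A X (3 * D + 1))
    (h0 : 0 ≤ price (PP A (cut D) φ1 D) (QQ A (cut D) ψ1 D) D K (K - 1) 1 0)
    (h0' : 0 ≤ price (QQ A (cut D) ψ1 D) (PP A (cut D) φ1 D) D K (K - 1) 1 0) :
    UUg (PP A (cut D) φ1 D) (QQ A (cut D) ψ1 D) K (K - 1) 1
      + UUg (QQ A (cut D) ψ1 D) (PP A (cut D) φ1 D) K (K - 1) 1
      + GGg (PP A (cut D) φ1 D) (QQ A (cut D) ψ1 D) K 1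
      + GGg (QQ A (cut D) ψ1 D) (PP A (cut D) φ1 D) K 1
      + HHg (PP A (cut D) φ1 D) (QQ A (cut D) ψ1 D) D K (K - 1) 1
      + HHg (QQ A (cut D) ψ1 D) (PP A (cut D) φ1 D) D K (K - 1) 1
      + (nn (PP A (cut D) φ1 D) 2 - K) * dd (PP A (cut D) φ1 D) (QQ A (cut D) ψ1 D) D
      + (nn (QQ A (cut D) ψ1 D) 2 - K) * dd (QQ A (cut D) ψ1 D) (PP A (cut D) φ1 D) D
      - ∑ s ∈ Ico 0 D, qc (QQ A (cut D) ψ1 D) (D - s)
          * price (PP A (cut D) φ1 D) (QQ A (cut D) ψ1 D) D K (K - 1) 1 s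
      - ∑ s ∈ Ico 0 D, qc (PP A (cut D) φ1 D) (D - s)
          * price (QQ A (cut D) ψ1 D) (PP A (cut D) φ1 D) D K (K - 1) 1 s
      - xx (PP A (cut D) φ1 D) D (price (PP A (cut D) φ1 D) (QQ A (cut D) ψ1 D) D K (K - 1) 1)
      - xx (QQ A (cut D) ψ1 D) D (price (QQ A (cut D) ψ1 D) (PP A (cut D) φ1 D) D K (K - 1) 1)
      - ∑ s ∈ Ico 0 D, ind X (3 * D - s)
          * price (PP A (cut D) φ1 D) (QQ A (cut D) ψ1 D) D K (K - 1) 1 s
      - ∑ s ∈ Ico 0 D, ind X s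
          * price (QQ A (cut D) ψ1 D) (PP A (cut D) φ1 D) D K (K - 1) 1 s
      ≤ rest (PP A (cut D) φ1 D) (QQ A (cut D) ψ1 D) K := by
  have hl := label_le (A := A) hD φ1 ψ1
  have h1 := side_ge_g (P := PP A (cut D) φ1 D) (Q := QQ A (cut D) ψ1 D) (goodP hA) (goodQ hA)
    (K := K) (T := K - 1) (ρ := 1) (σ := 1) (L := 6 * K) (D := D) (by omega) (by omega)
    (by omega) (by norm_num) (by norm_num)
    (fun a ha b hb h => by have := hl a ha b hb h; omega) (by omega) (by omega)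
    (coversR hcov (cut D) φ1 ψ1) h0
  have h2 := side_ge_g (P := QQ A (cut D) ψ1 D) (Q := PP A (cut D) φ1 D) (goodQ hA) (goodP hA)
    (K := K) (T := K - 1) (ρ := 1) (σ := 1) (L := 6 * K) (D := D) (by omega) (by omega)
    (by omega) (by norm_num) (by norm_num)
    (fun b hb a ha h => by have := hl a ha b hb (by rwa [mul_comm]); omega) (by omega) (by omega)
    (coversL hcov (cut D) φ1 ψ1) h0'
  have e1 : ((6 * K : ℤ) : ℝ) - (D : ℤ) + (1 : ℤ) = 2 * K := by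
    rw [hD]
    push_cast
    ring
  have e2 := sum_extraR_g A D φ1 ψ1
    (price (PP A (cut D) φ1 D) (QQ A (cut D) ψ1 D) D K (K - 1) 1)
  have e3 := sum_extraL_g A D φ1 ψ1
    (price (QQ A (cut D) ψ1 D) (PP A (cut D) φ1 D) D K (K - 1) 1)
  rw [e1] at h1 h2
  simp only [add_mul, sum_add_distrib] at h1 h2
  rw [e2] at h1
  rw [e3] at h2
  rw [show (1:ℤ) + 1 = 2 by norm_num, show (2 * (K:ℝ)) / 2 = K by ring] at h1 h2
  unfold rest
  rw [← hD]
  linarith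

/-- price between 0 and the crude price, in the frame -/
lemma price_bounds (A : Finset ℤ) {D K : ℤ} (hK : 1 ≤ K) (hD : D = 4 * K + 1)
    {φ1 ψ1 : ℤ → ℝ} (hA : Adm D φ1 ψ1)
    (h0 : 0 ≤ price (PP A (cut D) φ1 D) (QQ A (cut D) ψ1 D) D K (K - 1) 1 0) {s : ℤ}
    (hs : 0 ≤ s) :
    0 ≤ price (PP A (cut D) φ1 D) (QQ A (cut D) ψ1 D) D K (K - 1) 1 s ∧
    price (PP A (cut D) φ1 D) (QQ A (cut D) ψ1 D) D K (K - 1) 1 s
      ≤ cprice (PP A (cut D) φ1 D) D K (K - 1) 1 s := by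
  have hl := label_le (A := A) hD φ1 ψ1
  constructor
  · exact price_nonneg (goodP hA) (goodQ hA) (by omega) h0 (by omega)
      (fun a ha b hb h => by have := hl a ha b hb h; omega) hs
  · exact price_le_cprice (goodP hA) (goodQ hA) _ _ _ _ _

/-- the hybrid frame: doubled roles = elements of depth at most `z` -/
lemma adm_hybrid (D z : ℤ) : Adm D (fun x => if D - z ≤ x then cut D x else 0)
    (fun x => if x ≤ 2 * D + z then 1 - cut D x else 0) where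
  φ_nonneg := fun a => by split_ifs; exacts [cut_nonneg D a, le_rfl]
  φ_le := fun a => by split_ifs; exacts [le_rfl, cut_nonneg D a]
  ψ_nonneg := fun a => by split_ifs; exacts [sub_nonneg.2 (cut_le_one D a), le_rfl]
  ψ_le := fun a => by split_ifs; exacts [le_rfl, sub_nonneg.2 (cut_le_one D a)]

end

end MP61673a.Fin
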