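import Pool.Agent.Mu673.Mids

/-!
The midpoint cost with half of the shift: the two labels `y`, `y'` of a pair of elements `z`, `w` of
two cells have `y + y' = z + w` exactly, so one of them is not deeper than the mean of `z` and `w`
and the other one is deeper by at most half a cell. The cost is therefore at most the MEAN of the
costs with rounding `E = 0` and `E = 4^t - 1`.
-/

namespace MP61673a.Mids

open Finset MP61673a.LiftW
open MP61673a.Lift hiding PP QQ

noncomputable section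

lemma costR_cp (A : Finset ℤ) (t : ℕ) (D E : ℤ) (c : ℤ → ℝ) (z : ℤ) :
    ∑ w ∈ liftN t A, (if par t z w ∧ 0 < (z + w - 4 * D + E) / 2 then
      (if 2 * D < w then 1 / 2 else 1) * c ((z + w - 4 * D + E) / 2) else 0)
    = ∑ w ∈ liftN t A, (if par t z w then
      (if 2 * D < w then 1 / 2 else 1) * cp c ((z + w - 4 * D + E) / 2) else 0) := by
  refine sum_congr rfl fun w _ => ?_
  unfold cp
  by_cases h1 : par t z w <;> by_cases h2 : 0 < (z + w - 4 * D + E) / 2 <;> simp [h1, h2]

/-- RIGHT SIDE, half shift -/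
theorem mid_rightH (A : Finset ℤ) (t : ℕ) (D : ℤ) (c : ℤ → ℝ) (hc : Monotone c)
    (h0 : ∀ x, 0 ≤ c x) :
    ∑ s ∈ Ico 0 D, ind (fun y => Mid A (y / 4 ^ t)) (3 * D - s) * c (D - s)
      ≤ ∑ z ∈ liftN t A, (if 2 * D < z then ∑ w ∈ liftN t A, (if par t z w then
          (if 2 * D < w then 1 / 2 else 1) *
            (1 / 2 * (cp c ((z + w - 4 * D + 0) / 2) + cp c ((z + w - 4 * D + (4 ^ t - 1)) / 2)))
          else 0) else 0) := by
  have hm := cp_mono hc h0
  have e1 : ∑ s ∈ Ico 0 D, ind (fun y => Mid A (y / 4 ^ t)) (3 * D - s) * c (D - s)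
      = ∑ y ∈ Ioc (2 * D) (3 * D), ind (fun y => Mid A (y / 4 ^ t)) y * c (y - 2 * D) := by
    refine sum_nbij' (fun s => 3 * D - s) (fun y => 3 * D - y) ?_ ?_ ?_ ?_ ?_
    · intro s hs; rw [mem_Ico] at hs; rw [mem_Ioc]; omega
    · intro s hs; rw [mem_Ioc] at hs; rw [mem_Ico]; omega
    · intro s _; ring
    · intro s _; ring
    · intro s _
      rw [show 3 * D - s - 2 * D = D - s by ring]
  rw [e1]
  refine mids_le A t (Ioc (2 * D) (3 * D)) (fun y => c (y - 2 * D)) (fun y _ => h0 _)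
    (fun z w => 1 / 2 * (cp c ((z + w - 4 * D + 0) / 2) + cp c ((z + w - 4 * D + (4 ^ t - 1)) / 2)))
    (fun z w => by simp only [add_comm z w]) (fun z => 2 * D < z) ?_
  intro a _ b _ hab hpar d hd d' hd' y y' hy hy'
  have b1 := sub_le hd hd'
  have b2 := sub_le hd' hd
  have b3 := dig_bounds hd'
  have b4 := dig_bounds hd
  have b5 := dig_mem hd
  have b6 := dig_mem hd'
  have hE : (1:ℤ) ≤ 4 ^ t := one_le_pow₀ (by norm_num)
  have hx : 2 * ((a + b) / 2) = a + b := by omega
  have hx1 : (a + b) / 2 + 1 ≤ b := by omega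
  have hx2 : 4 ^ t * ((a + b) / 2) + 4 ^ t ≤ 4 ^ t * b := by
    have := mul_le_mul_of_nonneg_left hx1 (show (0:ℤ) ≤ 4 ^ t by linarith)
    linarith
  have hx3 : 2 * (4 ^ t * ((a + b) / 2)) = 4 ^ t * a + 4 ^ t * b := by
    calc 2 * (4 ^ t * ((a + b) / 2)) = 4 ^ t * (2 * ((a + b) / 2)) := by ring
      _ = 4 ^ t * a + 4 ^ t * b := by rw [hx]; ring
  have key : ∀ (y E : ℤ), 2 * y ≤ 4 ^ t * a + d + (4 ^ t * b + d') + E →
      y < 4 ^ t * b →
      (if y ∈ Ioc (2 * D) (3 * D) then c (y - 2 * D) else 0)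
      ≤ if 2 * D < 4 ^ t * a + d ∨ 2 * D < 4 ^ t * b + d' then
        cp c ((4 ^ t * a + d + (4 ^ t * b + d') - 4 * D + E) / 2) else 0 := by
    intro y E h1 h2
    by_cases h3 : y ∈ Ioc (2 * D) (3 * D)
    · rw [if_pos h3]
      rw [mem_Ioc] at h3
      rw [if_pos (Or.inr (by linarith))]
      have h4 : y - 2 * D ≤ (4 ^ t * a + d + (4 ^ t * b + d') - 4 * D + E) / 2 := by omega
      have h5 := hm h4
      rw [show cp c (y - 2 * D) = c (y - 2 * D) by
        unfold cp
        rw [if_pos (show 0 < y - 2 * D by linarith)]] at h5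
      exact h5
    · rw [if_neg h3]
      split_ifs
      · exact cp_nonneg h0 _
      · exact le_rfl
  have hsum : ∀ X Y : ℝ, (if 2 * D < 4 ^ t * a + d ∨ 2 * D < 4 ^ t * b + d' then X else 0)
      + (if 2 * D < 4 ^ t * a + d ∨ 2 * D < 4 ^ t * b + d' then Y else 0)
      = if 2 * D < 4 ^ t * a + d ∨ 2 * D < 4 ^ t * b + d' then X + Y else 0 := by
    intro X Y
    split_ifs <;> ring
  rcases le_total d d' with hdd | hdd
  · have k1 := key y (4 ^ t - 1) (by linarith) (by linarith)
    have k2 := key y' 0 (by linarith) (by linarith)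
    have k3 := add_le_add k2 k1
    rw [hsum] at k3
    refine (by linarith : _ ≤ 1 / 2 * (if 2 * D < 4 ^ t * a + d ∨ 2 * D < 4 ^ t * b + d' then
      cp c ((4 ^ t * a + d + (4 ^ t * b + d') - 4 * D + 0) / 2)
        + cp c ((4 ^ t * a + d + (4 ^ t * b + d') - 4 * D + (4 ^ t - 1)) / 2) else 0)).trans ?_
    split_ifs
    · exact le_rfl
    · norm_num
  · have k1 := key y' (4 ^ t - 1) (by linarith) (by linarith)
    have k2 := key y 0 (by linarith) (by linarith)
    have k3 := add_le_add k2 k1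
    rw [hsum] at k3
    refine (by linarith : _ ≤ 1 / 2 * (if 2 * D < 4 ^ t * a + d ∨ 2 * D < 4 ^ t * b + d' then
      cp c ((4 ^ t * a + d + (4 ^ t * b + d') - 4 * D + 0) / 2)
        + cp c ((4 ^ t * a + d + (4 ^ t * b + d') - 4 * D + (4 ^ t - 1)) / 2) else 0)).trans ?_
    split_ifs
    · exact le_rfl
    · norm_num

/-- LEFT SIDE, half shift -/
theorem mid_leftH (A : Finset ℤ) (t : ℕ) (D : ℤ) (c : ℤ → ℝ) (hc : Monotone c)
    (h0 : ∀ x, 0 ≤ c x) :
    ∑ s ∈ Ico 0 D, ind (fun y => Mid A (y / 4 ^ t)) s * c (D - s)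
      ≤ ∑ z ∈ liftN t A, (if z < D then ∑ w ∈ liftN t A, (if par t z w then
          (if w < D then 1 / 2 else 1) *
            (1 / 2 * (cp c ((2 * D - z - w + 0) / 2) + cp c ((2 * D - z - w + (4 ^ t - 1)) / 2)))
          else 0) else 0) := by
  have hm := cp_mono hc h0
  refine mids_le A t (Ico 0 D) (fun y => c (D - y)) (fun y _ => h0 _)
    (fun z w => 1 / 2 * (cp c ((2 * D - z - w + 0) / 2)
      + cp c ((2 * D - z - w + (4 ^ t - 1)) / 2)))
    (fun z w => by simp only [show 2 * D - z - w = 2 * D - w - z by ring]) (fun z => z < D) ?_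
  intro a _ b _ hab hpar d hd d' hd' y y' hy hy'
  have b1 := sub_le hd hd'
  have b2 := sub_le hd' hd
  have b3 := dig_bounds hd'
  have b4 := dig_bounds hd
  have b5 := dig_mem hd
  have b6 := dig_mem hd'
  have hE : (1:ℤ) ≤ 4 ^ t := one_le_pow₀ (by norm_num)
  have hx : 2 * ((a + b) / 2) = a + b := by omega
  have hx1 : a + 1 ≤ (a + b) / 2 := by omega
  have hx2 : 4 ^ t * a + 4 ^ t ≤ 4 ^ t * ((a + b) / 2) := by
    have := mul_le_mul_of_nonneg_left hx1 (show (0:ℤ) ≤ 4 ^ t by linarith)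
    linarith
  have hx3 : 2 * (4 ^ t * ((a + b) / 2)) = 4 ^ t * a + 4 ^ t * b := by
    calc 2 * (4 ^ t * ((a + b) / 2)) = 4 ^ t * (2 * ((a + b) / 2)) := by ring
      _ = 4 ^ t * a + 4 ^ t * b := by rw [hx]; ring
  have key : ∀ (y E : ℤ), 4 ^ t * a + d + (4 ^ t * b + d') - E ≤ 2 * y →
      4 ^ t * a + 4 ^ t ≤ y →
      (if y ∈ Ico 0 D then c (D - y) else 0)
      ≤ if 4 ^ t * a + d < D ∨ 4 ^ t * b + d' < D then
        cp c ((2 * D - (4 ^ t * a + d) - (4 ^ t * b + d') + E) / 2) else 0 := by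
    intro y E h1 h2
    by_cases h3 : y ∈ Ico 0 D
    · rw [if_pos h3]
      rw [mem_Ico] at h3
      rw [if_pos (Or.inl (by linarith))]
      have h4 : D - y ≤ (2 * D - (4 ^ t * a + d) - (4 ^ t * b + d') + E) / 2 := by omega
      have h5 := hm h4
      rw [show cp c (D - y) = c (D - y) by
        unfold cp
        rw [if_pos (show 0 < D - y by linarith)]] at h5
      exact h5
    · rw [if_neg h3]
      split_ifs
      · exact cp_nonneg h0 _
      · exact le_rfl
  have hsum : ∀ X Y : ℝ, (if 4 ^ t * a + d < D ∨ 4 ^ t * b + d' < D then X else 0)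
      + (if 4 ^ t * a + d < D ∨ 4 ^ t * b + d' < D then Y else 0)
      = if 4 ^ t * a + d < D ∨ 4 ^ t * b + d' < D then X + Y else 0 := by
    intro X Y
    split_ifs <;> ring
  rcases le_total d d' with hdd | hdd
  · have k1 := key y' (4 ^ t - 1) (by linarith) (by linarith)
    have k2 := key y 0 (by linarith) (by linarith)
    have k3 := add_le_add k2 k1
    rw [hsum] at k3
    refine (by linarith : _ ≤ 1 / 2 * (if 4 ^ t * a + d < D ∨ 4 ^ t * b + d' < D then
      cp c ((2 * D - (4 ^ t * a + d) - (4 ^ t * b + d') + 0) / 2)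
        + cp c ((2 * D - (4 ^ t * a + d) - (4 ^ t * b + d') + (4 ^ t - 1)) / 2)
        else 0)).trans ?_
    split_ifs
    · exact le_rfl
    · norm_num
  · have k1 := key y (4 ^ t - 1) (by linarith) (by linarith)
    have k2 := key y' 0 (by linarith) (by linarith)
    have k3 := add_le_add k2 k1
    rw [hsum] at k3
    refine (by linarith : _ ≤ 1 / 2 * (if 4 ^ t * a + d < D ∨ 4 ^ t * b + d' < D then
      cp c ((2 * D - (4 ^ t * a + d) - (4 ^ t * b + d') + 0) / 2)
        + cp c ((2 * D - (4 ^ t * a + d) - (4 ^ t * b + d') + (4 ^ t - 1)) / 2)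
        else 0)).trans ?_
    split_ifs
    · exact le_rfl
    · norm_num

open MP61673a.W (WS PP QQ)

/-- RIGHT SIDE in the frame, half shift -/
theorem mid_right_PQH (A : Finset ℤ) (t : ℕ) (D : ℤ) (c : ℤ → ℝ) (hc : Monotone c)
    (h0 : ∀ x, 0 ≤ c x) (φ φ1 ψ1 : ℤ → ℝ) (hφ : ∀ x, 2 * D < x → φ x = 0) :
    ∑ s ∈ Ico 0 D, ind (fun y => Mid A (y / 4 ^ t)) (3 * D - s) * c (D - s)
      ≤ 1 / 2 * (midCost (PP (liftN t A) φ φ1 D) (QQ (liftN t A) φ ψ1 D)
          (parw t) (parw t) D 0 c
        + midCost (PP (liftN t A) φ φ1 D) (QQ (liftN t A) φ ψ1 D)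
          (parw t) (parw t) D (4 ^ t - 1) c) := by
  refine (mid_rightH A t D c hc h0).trans (le_of_eq ?_)
  have h1 : ∀ E : ℤ, midCost (PP (liftN t A) φ φ1 D) (QQ (liftN t A) φ ψ1 D)
          (parw t) (parw t) D E c
      = ∑ z ∈ liftN t A, (if 2 * D < z then ∑ w ∈ liftN t A, (if par t z w then
          (if 2 * D < w then 1 / 2 else 1) * cp c ((z + w - 4 * D + E) / 2) else 0) else 0) := by
    intro E
    change ∑ z ∈ liftN t A, (1 - φ z) * (if 2 * D - z < 0 then
      ∑ w ∈ liftN t A, (1 - φ w) * (parw t z w * ((if 2 * D - w < 0 then 1 / 2 else 1)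
          * cp c ((-(2 * D - z) - (2 * D - w) + E) / 2)))
        + ∑ w ∈ liftN t A, φ w * (parw t z w
          * cp c ((-(2 * D - z) + (w - D) - D + E) / 2)) else 0) = _
    refine sum_congr rfl fun z _ => ?_
    by_cases h : 2 * D < z
    · rw [if_pos h, if_pos (by omega), hφ z h, sub_zero, one_mul, ← sum_add_distrib]
      refine sum_congr rfl fun w _ => ?_
      rw [show -(2 * D - z) - (2 * D - w) + E = z + w - 4 * D + E by ring,
        show -(2 * D - z) + (w - D) - D + E = z + w - 4 * D + E by ring]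
      have e3 : (if 2 * D - w < 0 then (1:ℝ) / 2 else 1) = if 2 * D < w then 1 / 2 else 1 := by
        split_ifs <;> first | omega | rfl
      rw [e3]
      unfold parw
      by_cases h1 : par t z w
      · rw [if_pos h1, if_pos h1]
        by_cases h3 : 2 * D < w
        · rw [if_pos h3, hφ w h3]
          ring
        · rw [if_neg h3]
          ring
      · rw [if_neg h1, if_neg h1]
        ring
    · rw [if_neg h, if_neg (by omega), mul_zero]
  rw [h1, h1, ← sum_add_distrib, mul_sum]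
  refine sum_congr rfl fun z _ => ?_
  by_cases h : 2 * D < z
  · simp only [if_pos h]
    rw [← sum_add_distrib, mul_sum]
    refine sum_congr rfl fun w _ => ?_
    split_ifs <;> ring
  · simp only [if_neg h]
    norm_num

/-- LEFT SIDE in the frame, half shift -/
theorem mid_left_PQH (A : Finset ℤ) (t : ℕ) (D : ℤ) (c : ℤ → ℝ) (hc : Monotone c)
    (h0 : ∀ x, 0 ≤ c x) (φ φ1 ψ1 : ℤ → ℝ) (hφ : ∀ x, x < D → φ x = 1) :
    ∑ s ∈ Ico 0 D, ind (fun y => Mid A (y / 4 ^ t)) s * c (D - s)
      ≤ 1 / 2 * (midCost (QQ (liftN t A) φ ψ1 D) (PP (liftN t A) φ φ1 D)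
          (parw t) (parw t) D 0 c
        + midCost (QQ (liftN t A) φ ψ1 D) (PP (liftN t A) φ φ1 D)
          (parw t) (parw t) D (4 ^ t - 1) c) := by
  refine (mid_leftH A t D c hc h0).trans (le_of_eq ?_)
  have h1 : ∀ E : ℤ, midCost (QQ (liftN t A) φ ψ1 D) (PP (liftN t A) φ φ1 D)
          (parw t) (parw t) D E c
      = ∑ z ∈ liftN t A, (if z < D then ∑ w ∈ liftN t A, (if par t z w then
          (if w < D then 1 / 2 else 1) * cp c ((2 * D - z - w + E) / 2) else 0) else 0) := by
    intro E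
    change ∑ z ∈ liftN t A, φ z * (if z - D < 0 then
      ∑ w ∈ liftN t A, φ w * (parw t z w * ((if w - D < 0 then 1 / 2 else 1)
          * cp c ((-(z - D) - (w - D) + E) / 2)))
        + ∑ w ∈ liftN t A, (1 - φ w) * (parw t z w
          * cp c ((-(z - D) + (2 * D - w) - D + E) / 2)) else 0) = _
    refine sum_congr rfl fun z _ => ?_
    by_cases h : z < D
    · rw [if_pos h, if_pos (by omega), hφ z h, one_mul, ← sum_add_distrib]
      refine sum_congr rfl fun w _ => ?_
      rw [show -(z - D) - (w - D) + E = 2 * D - z - w + E by ring,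
        show -(z - D) + (2 * D - w) - D + E = 2 * D - z - w + E by ring]
      have e3 : (if w - D < 0 then (1:ℝ) / 2 else 1) = if w < D then 1 / 2 else 1 := by
        split_ifs <;> first | omega | rfl
      rw [e3]
      unfold parw
      by_cases h1 : par t z w
      · rw [if_pos h1, if_pos h1]
        by_cases h3 : w < D
        · rw [if_pos h3, hφ w h3]
          ring
        · rw [if_neg h3]
          ring
      · rw [if_neg h1, if_neg h1]
        ring
    · rw [if_neg h, if_neg (by omega), mul_zero]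
  rw [h1, h1, ← sum_add_distrib, mul_sum]
  refine sum_congr rfl fun z _ => ?_
  by_cases h : z < D
  · simp only [if_pos h]
    rw [← sum_add_distrib, mul_sum]
    refine sum_congr rfl fun w _ => ?_
    split_ifs <;> ring
  · simp only [if_neg h]
    norm_num

end

end MP61673a.Mids
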