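import Pool.Agent.Mu673.Decomp
import Pool.Agent.Mu673.Hyb
import Pool.Agent.Mu673.MidsH

/-!
The rest of the identity in the hybrid frame is at least the sum of one net per stray.
-/

namespace MP61673a.Fin

open Finset MP61673a.W MP61673a.LiftW MP61673a.Mids
open MP61673a.Lift hiding PP QQ

noncomputable section

/-- external labels with the undoubled centre at `-t` of `Q` -/
def ex1 (P Q : WS) (D K T ρ V t : ℤ) : ℝ :=
  if V < t then ∑ q ∈ Q.S, Q.f q * (if 1 ≤ Q.u q + 2 * t ∧ Q.u q + 2 * t ≤ D then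
    price P Q D K T ρ (D - (Q.u q + 2 * t)) else 0) else 0

/-- labels of the other side, outer element `-t` of `Q`, centre in `Q` -/
def ex2 (P Q : WS) (D K T σ t : ℤ) : ℝ :=
  ∑ q ∈ Q.S, Q.f q * (if 0 ≤ 2 * D - 2 * Q.u q - t ∧ 2 * D - 2 * Q.u q - t < D then
    price Q P D K T σ (2 * D - 2 * Q.u q - t) else 0)

/-- midpoints of `-t` of `Q`: weight 1 for a partner which is not a stray, weight `ω t t'` if the
partner is a stray at `-t'` of the same side (any `ω` with `ω x y + ω y x = 1`) -/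
def mid (P Q : WS) (D E : ℤ) (c : ℤ → ℝ) (ω : ℤ → ℤ → ℝ) (t : ℤ) : ℝ :=
  ∑ q ∈ Q.S, Q.f q * ((if Q.u q < 0 then ω t (-Q.u q) else 1) * cp c ((t - Q.u q + E) / 2))
    + ∑ a ∈ P.S, P.f a * cp c ((t + P.u a - D + E) / 2)

/-- DEEPER RULE for the midpoints: the pair is paid by the deeper stray -/
def deeper (x y : ℤ) : ℝ := if y < x then 1 else if x < y then 0 else 1 / 2

lemma deeper_add (x y : ℤ) : deeper x y + deeper y x = 1 := by
  unfold deeper
  rcases lt_trichotomy x y with h | h | h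
  · rw [if_neg (by omega), if_pos h, if_pos h]
    norm_num
  · subst h
    rw [if_neg (lt_irrefl _), if_neg (lt_irrefl _)]
    norm_num
  · rw [if_pos h, if_neg (by omega), if_pos h]
    norm_num

/-- the half/half rule -/
def halves (_ _ : ℤ) : ℝ := 1 / 2

lemma halves_add (x y : ℤ) : halves x y + halves y x = 1 := by
  unfold halves
  norm_num

/-- changing the sharing rule of a symmetric sum over pairs of strays -/
lemma share_rule (Q : WS) (G : ℤ → ℤ → ℝ) (hG : ∀ x y, G x y = G y x) {ω : ℤ → ℤ → ℝ}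
    (hω : ∀ x y, ω x y + ω y x = 1) :
    ∑ b ∈ Q.S, Q.f b * (if Q.u b < 0 then
        ∑ q ∈ Q.S, Q.f q * ((if Q.u q < 0 then 1 / 2 else 1) * G (Q.u b) (Q.u q)) else 0)
      = ∑ b ∈ Q.S, Q.f b * (if Q.u b < 0 then
        ∑ q ∈ Q.S, Q.f q * ((if Q.u q < 0 then ω (-Q.u b) (-Q.u q) else 1)
          * G (Q.u b) (Q.u q)) else 0) := by
  set H : ℤ → ℤ → ℝ := fun x y => (1 / 2 - ω (-x) (-y)) * G x y with hH
  have h1 : ∑ b ∈ Q.S, ∑ q ∈ Q.S, (if Q.u b < 0 ∧ Q.u q < 0 then
      Q.f b * Q.f q * H (Q.u b) (Q.u q) else 0) = 0 := by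
    have h2 : ∑ b ∈ Q.S, ∑ q ∈ Q.S, (if Q.u b < 0 ∧ Q.u q < 0 then
        Q.f b * Q.f q * H (Q.u b) (Q.u q) else 0)
        = -∑ b ∈ Q.S, ∑ q ∈ Q.S, (if Q.u b < 0 ∧ Q.u q < 0 then
        Q.f b * Q.f q * H (Q.u b) (Q.u q) else 0) := by
      conv_lhs => rw [sum_comm]
      rw [← sum_neg_distrib]
      refine sum_congr rfl fun b _ => ?_
      rw [← sum_neg_distrib]
      refine sum_congr rfl fun q _ => ?_
      by_cases c : Q.u b < 0 ∧ Q.u q < 0
      · rw [if_pos c, if_pos ⟨c.2, c.1⟩, hH]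
        simp only
        rw [hG (Q.u q) (Q.u b)]
        have h3 := hω (-Q.u q) (-Q.u b)
        have h4 : ω (-Q.u q) (-Q.u b) = 1 - ω (-Q.u b) (-Q.u q) := by linarith
        rw [h4]
        ring
      · rw [if_neg c, if_neg (fun h => c ⟨h.2, h.1⟩), neg_zero]
    linarith
  rw [← sub_eq_zero, ← sum_sub_distrib, ← h1]
  refine sum_congr rfl fun b _ => ?_
  by_cases c : Q.u b < 0
  · rw [if_pos c, if_pos c, ← mul_sub, ← sum_sub_distrib, mul_sum]
    refine sum_congr rfl fun q _ => ?_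
    by_cases c2 : Q.u q < 0
    · rw [if_pos c2, if_pos c2, if_pos ⟨c, c2⟩, hH]
      simp only
      ring
    · rw [if_neg c2, if_neg c2, if_neg (fun h => c2 h.2)]
      ring
  · rw [if_neg c, if_neg c, sub_self]
    symm
    exact sum_eq_zero fun q _ => if_neg (fun h => c h.1)

/-- crude price as a function of the depth -/
def cpr (P : WS) (D K T ρ : ℤ) (j : ℤ) : ℝ := cprice P D K T ρ (D - j)

/-- NET OF A STRAY at `-t` of `Q` -/
def net (P Q : WS) (ω : ℤ → ℤ → ℝ) (D K T ρ σ V E lo t : ℤ) : ℝ :=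
  gain P Q D K T ρ σ V lo t - ex1 P Q D K T ρ V t - ex2 P Q D K T σ t
    - mid P Q D E (cpr P D K T ρ) ω t

lemma cpr_mono {P : WS} (hP : Good P) (D K T ρ : ℤ) : Monotone (cpr P D K T ρ) := by
  intro i j hij
  unfold cpr cprice kap
  refine add_le_add ?_ (nn_anti hP ?_)
  · refine sum_le_sum fun g _ => ?_
    by_cases c : D - i < 2 * K + 1 + ρ + 2 * g
    · rw [if_pos c, if_pos (by omega)]
    · rw [if_neg c]
      split_ifs <;> norm_num
  · have h : max (D - j - (D - K)) 0 ≤ max (D - i - (D - K)) 0 := max_le_max (by omega) le_rfl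
    omega

lemma sum_ex1 {P Q : WS} {V : ℤ} (hV : 0 ≤ V) (dQ : Dbl Q V) (D K T ρ : ℤ) :
    ∑ s ∈ Ico 0 D, qc Q (D - s) * price P Q D K T ρ s
      = ∑ b ∈ Q.S, Q.f b * (if Q.u b < 0 then ex1 P Q D K T ρ V (-Q.u b) else 0) := by
  have h2 : ∀ s ∈ Ico 0 D, qc Q (D - s) * price P Q D K T ρ s
      = ∑ q ∈ Q.S, ∑ b ∈ Q.S, (if s = D - (Q.u q - 2 * Q.u b) then
        Q.f q * (Q.f b - Q.f1 b) * price P Q D K T ρ s else 0) := by
    intro s _
    unfold qc
    rw [sum_mul]
    refine sum_congr rfl fun q _ => ?_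
    rw [sum_mul]
    refine sum_congr rfl fun b _ => ?_
    by_cases c : s = D - (Q.u q - 2 * Q.u b)
    · rw [if_pos c, if_pos (by omega)]
    · rw [if_neg c, if_neg (by omega), zero_mul]
  have h4 : ∀ F : ℤ → Q.ι → Q.ι → ℝ, ∑ s ∈ Ico 0 D, ∑ q ∈ Q.S, ∑ b ∈ Q.S, F s q b
      = ∑ b ∈ Q.S, ∑ q ∈ Q.S, ∑ s ∈ Ico 0 D, F s q b := by
    intro F
    rw [sum_comm]
    have h5 : ∀ q ∈ Q.S, ∑ s ∈ Ico 0 D, ∑ b ∈ Q.S, F s q b
        = ∑ b ∈ Q.S, ∑ s ∈ Ico 0 D, F s q b := fun q _ => sum_comm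
    rw [sum_congr rfl h5, sum_comm]
  rw [sum_congr rfl h2, h4]
  refine sum_congr rfl fun b hb => ?_
  have h3 : ∀ q ∈ Q.S, ∑ s ∈ Ico 0 D, (if s = D - (Q.u q - 2 * Q.u b) then
        Q.f q * (Q.f b - Q.f1 b) * price P Q D K T ρ s else 0)
      = (if 1 ≤ Q.u q - 2 * Q.u b ∧ Q.u q - 2 * Q.u b ≤ D then
        Q.f q * (Q.f b - Q.f1 b) * price P Q D K T ρ (D - (Q.u q - 2 * Q.u b)) else 0) := by
    intro q _
    rw [sum_ite_eq' (Ico 0 D) (D - (Q.u q - 2 * Q.u b))
      (fun s => Q.f q * (Q.f b - Q.f1 b) * price P Q D K T ρ s)]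
    simp only [mem_Ico]
    by_cases c : 1 ≤ Q.u q - 2 * Q.u b ∧ Q.u q - 2 * Q.u b ≤ D
    · rw [if_pos (by omega), if_pos c]
    · rw [if_neg (by omega), if_neg c]
  rw [sum_congr rfl h3, dQ b hb]
  by_cases c1 : -V ≤ Q.u b
  · have e1 : (if Q.u b < 0 then ex1 P Q D K T ρ V (-Q.u b) else 0) = 0 := by
      unfold ex1
      rw [if_neg (show ¬ V < -Q.u b by omega)]
      simp
    rw [e1, mul_zero]
    refine sum_eq_zero fun q _ => ?_
    rw [if_pos c1]
    simp
  · have c2 : Q.u b < 0 := by omega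
    unfold ex1
    rw [if_pos c2, if_pos (show V < -Q.u b by omega), mul_sum]
    refine sum_congr rfl fun q _ => ?_
    rw [if_neg c1, show Q.u q + 2 * -Q.u b = Q.u q - 2 * Q.u b by ring]
    split_ifs <;> ring

lemma sum_ex2 {P Q : WS} {D : ℤ} (hu : ∀ b ∈ Q.S, Q.f b ≠ 0 → 2 * Q.u b ≤ D)
    (K T σ : ℤ) :
    xx Q D (price Q P D K T σ)
      = ∑ b ∈ Q.S, Q.f b * (if Q.u b < 0 then ex2 P Q D K T σ (-Q.u b) else 0) := by
  unfold xx ex2
  refine sum_congr rfl fun b hb => ?_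
  by_cases c : Q.u b < 0
  · rw [if_pos c, mul_sum]
    refine sum_congr rfl fun q _ => ?_
    rw [show 2 * D - (2 * Q.u q - Q.u b) = 2 * D - 2 * Q.u q - -Q.u b by ring]
    split_ifs <;> ring
  · rw [if_neg c, mul_zero]
    refine sum_eq_zero fun q hq => ?_
    by_cases h0 : Q.f q = 0
    · rw [h0]
      simp
    · have := hu q hq h0
      rw [if_neg]
      omega

lemma sum_mid {P Q : WS} (hP : Good P) (hQ : Good Q) {R : Q.ι → Q.ι → ℝ} {R' : Q.ι → P.ι → ℝ}
    (hR : ∀ b q, R b q ≤ 1) (hR' : ∀ b a, R' b a ≤ 1) (D E : ℤ) {c : ℤ → ℝ} (h0 : ∀ x, 0 ≤ c x)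
    {ω : ℤ → ℤ → ℝ} (hω : ∀ x y, ω x y + ω y x = 1) :
    midCost P Q R R' D E c
      ≤ ∑ b ∈ Q.S, Q.f b * (if Q.u b < 0 then mid P Q D E c ω (-Q.u b) else 0) := by
  refine (midCost_le hP.f_nonneg hQ.f_nonneg hR hR' D E h0).trans (le_of_eq ?_)
  have h1 := share_rule Q (fun x y => cp c ((-x - y + E) / 2))
    (fun x y => by rw [show -x - y = -y - x by ring]) hω
  have h2 : ∀ F : Q.ι → ℝ, ∀ G : Q.ι → ℝ,
      ∑ b ∈ Q.S, Q.f b * (if Q.u b < 0 then F b + G b else 0)
        = ∑ b ∈ Q.S, Q.f b * (if Q.u b < 0 then F b else 0)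
          + ∑ b ∈ Q.S, Q.f b * (if Q.u b < 0 then G b else 0) := by
    intro F G
    rw [← sum_add_distrib]
    refine sum_congr rfl fun b _ => ?_
    split_ifs <;> ring
  unfold midCost mid
  rw [h2, h2]
  simp only [one_mul]
  rw [h1]

/-- the left family of the hybrid frame -/
abbrev PH (A : Finset ℤ) (D z : ℤ) : WS :=
  PP A (cut D) (fun x => if D - z ≤ x then cut D x else 0) D

/-- the right family of the hybrid frame -/
abbrev QH (A : Finset ℤ) (D z : ℤ) : WS :=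
  QQ A (cut D) (fun x => if x ≤ 2 * D + z then 1 - cut D x else 0) D

lemma dblP (A : Finset ℤ) (D z : ℤ) : Dbl (PH A D z) z := by
  intro (a : ℤ) _
  change (if D - z ≤ a then cut D a else 0) = if -z ≤ a - D then cut D a else 0
  by_cases c : D - z ≤ a
  · rw [if_pos c, if_pos (by omega)]
  · rw [if_neg c, if_neg (by omega)]

lemma dblQ (A : Finset ℤ) (D z : ℤ) : Dbl (QH A D z) z := by
  intro (a : ℤ) _
  change (if a ≤ 2 * D + z then 1 - cut D a else 0) = if -z ≤ 2 * D - a then 1 - cut D a else 0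
  by_cases c : a ≤ 2 * D + z
  · rw [if_pos c, if_pos (by omega)]
  · rw [if_neg c, if_neg (by omega)]

lemma leP {D K : ℤ} (hD : D = 4 * K + 1) (a : ℤ) (h : cut D a ≠ 0) : a - D ≤ 2 * K := by
  unfold cut at h
  by_contra hlt
  apply h
  rw [if_neg]
  omega

lemma leQ {D K : ℤ} (hD : D = 4 * K + 1) (a : ℤ) (h : 1 - cut D a ≠ 0) :
    2 * D - a ≤ 2 * K := by
  unfold cut at h
  by_contra hlt
  apply h
  rw [if_pos]
  · norm_num
  · omega

/-- price of the wasted labels: multiplicity (external representations `ξ` included) minus one,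
times the price; nonnegative by coverage -/
def wst (P Q : WS) (D K T ρ : ℤ) (ξ : ℤ → ℝ) : ℝ :=
  ∑ s ∈ Ico 0 D, (rr P Q s + qq Q (D - s) + ξ s - 1) * price P Q D K T ρ s

lemma wst_nonneg {P Q : WS} {D K T ρ : ℤ} {ξ : ℤ → ℝ} (h : Covers P Q D ξ)
    (hp : ∀ s, 0 ≤ s → s < D → 0 ≤ price P Q D K T ρ s) : 0 ≤ wst P Q D K T ρ ξ := by
  unfold wst
  refine sum_nonneg fun s hs => ?_
  rw [mem_Ico] at hs
  have h1 := h s hs.1 hs.2
  exact mul_nonneg (by linarith) (hp s hs.1 hs.2)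

lemma waste_eq (P Q : WS) (D K T ρ : ℤ) (ξ : ℤ → ℝ) :
    waste P Q D K T ρ = wst P Q D K T ρ ξ - ∑ s ∈ Ico 0 D, ξ s * price P Q D K T ρ s := by
  unfold waste wst
  rw [← sum_sub_distrib]
  refine sum_congr rfl fun s _ => ?_
  ring

/-- external labels of the right side of the hybrid frame: undoubled centres, labels of the other
side, midpoint blocks -/
def xiR (A : Finset ℤ) (t : ℕ) (D z : ℤ) (s : ℤ) : ℝ :=
  extraR (liftN t A) (cut D) (fun x => if x ≤ 2 * D + z then 1 - cut D x else 0) D s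
    + ind (fun y => Mid A (y / 4 ^ t)) (3 * D - s)

/-- external labels of the left side of the hybrid frame -/
def xiL (A : Finset ℤ) (t : ℕ) (D z : ℤ) (s : ℤ) : ℝ :=
  extraL (liftN t A) (cut D) (fun x => if D - z ≤ x then cut D x else 0) s
    + ind (fun y => Mid A (y / 4 ^ t)) s

lemma covR_hyb {A : Finset ℤ} {t : ℕ} {D : ℤ}
    (hcov : Cov (liftN t A) (fun y => Mid A (y / 4 ^ t)) (3 * D + 1)) (z : ℤ) :
    Covers (PH (liftN t A) D z) (QH (liftN t A) D z) D (xiR A t D z) :=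
  coversR hcov _ _ _

lemma covL_hyb {A : Finset ℤ} {t : ℕ} {D : ℤ}
    (hcov : Cov (liftN t A) (fun y => Mid A (y / 4 ^ t)) (3 * D + 1)) (z : ℤ) :
    Covers (QH (liftN t A) D z) (PH (liftN t A) D z) D (xiL A t D z) :=
  coversL hcov _ _ _

/-- gain of a stray without the midpoints -/
def gross (P Q : WS) (D K T ρ σ V lo t : ℤ) : ℝ :=
  gain P Q D K T ρ σ V lo t - ex1 P Q D K T ρ V t - ex2 P Q D K T σ t

/-- MEAN OF THE NETS with the midpoint roundings `0` and `E` -/
def netH (P Q : WS) (ω : ℤ → ℤ → ℝ) (D K T ρ σ V E lo t : ℤ) : ℝ :=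
  1 / 2 * (net P Q ω D K T ρ σ V 0 lo t + net P Q ω D K T ρ σ V E lo t)

/-- GENERAL FORM: `μR`, `μL` = any shares of the midpoint blocks (functions of the depth of the
stray). Rest ≥ sum of (gross - share) + deep terms + waste. No coverage, no sign of the price. -/
theorem rest_ge_mu (A : Finset ℤ) (t : ℕ) {D K z : ℤ} (hK : 1 ≤ K) (hD : D = 4 * K + 1)
    (hz : 0 ≤ z) (μR μL : ℤ → ℝ)
    (y1 : ∑ s ∈ Ico 0 D, ind (fun y => Mid A (y / 4 ^ t)) (3 * D - s)
        * price (PH (liftN t A) D z) (QH (liftN t A) D z) D K (K - 1) 1 s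
      ≤ ∑ b ∈ (QH (liftN t A) D z).S, (QH (liftN t A) D z).f b
        * (if (QH (liftN t A) D z).u b < 0 then μR (-(QH (liftN t A) D z).u b) else 0))
    (y2 : ∑ s ∈ Ico 0 D, ind (fun y => Mid A (y / 4 ^ t)) s
        * price (QH (liftN t A) D z) (PH (liftN t A) D z) D K (K - 1) 1 s
      ≤ ∑ a ∈ (PH (liftN t A) D z).S, (PH (liftN t A) D z).f a
        * (if (PH (liftN t A) D z).u a < 0 then μL (-(PH (liftN t A) D z).u a) else 0)) :
    ∑ b ∈ (QH (liftN t A) D z).S, (QH (liftN t A) D z).f b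
        * (if (QH (liftN t A) D z).u b < 0 then
          gross (PH (liftN t A) D z) (QH (liftN t A) D z) D K (K - 1) 1 1 z 0
            (-(QH (liftN t A) D z).u b) - μR (-(QH (liftN t A) D z).u b) else 0)
      + ∑ a ∈ (PH (liftN t A) D z).S, (PH (liftN t A) D z).f a
        * (if (PH (liftN t A) D z).u a < 0 then
          gross (QH (liftN t A) D z) (PH (liftN t A) D z) D K (K - 1) 1 1 z 1
            (-(PH (liftN t A) D z).u a) - μL (-(PH (liftN t A) D z).u a) else 0)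
      + (nn (PH (liftN t A) D z) 2 - K) * dd (PH (liftN t A) D z) (QH (liftN t A) D z) D
      + (nn (QH (liftN t A) D z) 2 - K) * dd (QH (liftN t A) D z) (PH (liftN t A) D z) D
      + wst (PH (liftN t A) D z) (QH (liftN t A) D z) D K (K - 1) 1 (xiR A t D z)
      + wst (QH (liftN t A) D z) (PH (liftN t A) D z) D K (K - 1) 1 (xiL A t D z)
      ≤ rest (PH (liftN t A) D z) (QH (liftN t A) D z) K := by
  have hA := adm_hybrid D z
  have gP : Good (PH (liftN t A) D z) := goodP hA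
  have gQ : Good (QH (liftN t A) D z) := goodQ hA
  have hl : ∀ a ∈ (PH (liftN t A) D z).S, ∀ b ∈ (QH (liftN t A) D z).S,
      (PH (liftN t A) D z).f a * (QH (liftN t A) D z).f b ≠ 0 →
      (PH (liftN t A) D z).u a ≤ 2 * K ∧ (QH (liftN t A) D z).u b ≤ 2 * K :=
    label_le (A := liftN t A) hD (fun x => if D - z ≤ x then cut D x else 0)
    (fun x => if x ≤ 2 * D + z then 1 - cut D x else 0)
  have e2 := sum_extraR_g (liftN t A) D (fun x => if D - z ≤ x then cut D x else 0)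
    (fun x => if x ≤ 2 * D + z then 1 - cut D x else 0)
    (price (PH (liftN t A) D z) (QH (liftN t A) D z) D K (K - 1) 1)
  have e3 := sum_extraL_g (liftN t A) D (fun x => if D - z ≤ x then cut D x else 0)
    (fun x => if x ≤ 2 * D + z then 1 - cut D x else 0)
    (price (QH (liftN t A) D z) (PH (liftN t A) D z) D K (K - 1) 1)
  have huP : ∀ a ∈ (PH (liftN t A) D z).S, (PH (liftN t A) D z).f a ≠ 0 →
      (PH (liftN t A) D z).u a ≤ 2 * K := fun (a : ℤ) _ h => leP hD a h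
  have huQ : ∀ a ∈ (QH (liftN t A) D z).S, (QH (liftN t A) D z).f a ≠ 0 →
      (QH (liftN t A) D z).u a ≤ 2 * K := fun (a : ℤ) _ h => leQ hD a h
  have dP := dblP (liftN t A) D z
  have dQ := dblQ (liftN t A) D z
  set P := PH (liftN t A) D z with hPdef
  set Q := QH (liftN t A) D z with hQdef
  have w1 := waste_eq P Q D K (K - 1) 1 (xiR A t D z)
  have w2 := waste_eq Q P D K (K - 1) 1 (xiL A t D z)
  have w1' : ∑ s ∈ Ico 0 D, xiR A t D z s * price P Q D K (K - 1) 1 s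
      = ∑ s ∈ Ico 0 D, (extraR (liftN t A) (cut D)
          (fun x => if x ≤ 2 * D + z then 1 - cut D x else 0) D s
          + ind (fun y => Mid A (y / 4 ^ t)) (3 * D - s)) * price P Q D K (K - 1) 1 s := rfl
  have w2' : ∑ s ∈ Ico 0 D, xiL A t D z s * price Q P D K (K - 1) 1 s
      = ∑ s ∈ Ico 0 D, (extraL (liftN t A) (cut D)
          (fun x => if D - z ≤ x then cut D x else 0) s
          + ind (fun y => Mid A (y / 4 ^ t)) s) * price Q P D K (K - 1) 1 s := rfl
  rw [w1'] at w1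
  rw [w2'] at w2
  have d1 := decomp gP gQ (D := D) (K := K) (T := K - 1) (ρ := 1) (σ := 1) (L := 6 * K)
    (V := z) (by omega) hz dP dQ (by omega) (by norm_num) (by norm_num) (by norm_num)
    (by norm_num) (fun a ha b hb h => by have := hl a ha b hb h; omega)
    (fun b hb a ha h => by have := hl a ha b hb (by rwa [mul_comm]); omega)
  have e1 : ((6 * K : ℤ) : ℝ) - (D : ℤ) + (1 : ℤ) = 2 * K := by
    rw [hD]
    push_cast
    ring
  rw [e1, show (1:ℤ) + 1 = 2 by norm_num, show (2 * (K:ℝ)) / 2 = K by ring] at d1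
  simp only [add_mul, sum_add_distrib] at w1 w2
  rw [e2] at w1
  rw [e3] at w2
  have x1 := sum_ex1 (P := P) hz dQ D K (K - 1) 1
  have x1' := sum_ex1 (P := Q) hz dP D K (K - 1) 1
  have x2 := sum_ex2 (P := P) (Q := Q) (D := D)
    (fun b hb h => by have := huQ b hb h; omega) K (K - 1) 1
  have x2' := sum_ex2 (P := Q) (Q := P) (D := D)
    (fun b hb h => by have := huP b hb h; omega) K (K - 1) 1
  have n1 : ∑ b ∈ Q.S, Q.f b * (if Q.u b < 0 then
        gross P Q D K (K - 1) 1 1 z 0 (-Q.u b) - μR (-Q.u b) else 0)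
      = ∑ b ∈ Q.S, Q.f b * (if Q.u b < 0 then gain P Q D K (K - 1) 1 1 z 0 (-Q.u b) else 0)
        - ∑ b ∈ Q.S, Q.f b * (if Q.u b < 0 then ex1 P Q D K (K - 1) 1 z (-Q.u b) else 0)
        - ∑ b ∈ Q.S, Q.f b * (if Q.u b < 0 then ex2 P Q D K (K - 1) 1 (-Q.u b) else 0)
        - ∑ b ∈ Q.S, Q.f b * (if Q.u b < 0 then μR (-Q.u b) else 0) := by
    rw [← sum_sub_distrib, ← sum_sub_distrib, ← sum_sub_distrib]
    refine sum_congr rfl fun b _ => ?_
    unfold gross
    split_ifs <;> ring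
  have n2 : ∑ a ∈ P.S, P.f a * (if P.u a < 0 then
        gross Q P D K (K - 1) 1 1 z 1 (-P.u a) - μL (-P.u a) else 0)
      = ∑ a ∈ P.S, P.f a * (if P.u a < 0 then gain Q P D K (K - 1) 1 1 z 1 (-P.u a) else 0)
        - ∑ a ∈ P.S, P.f a * (if P.u a < 0 then ex1 Q P D K (K - 1) 1 z (-P.u a) else 0)
        - ∑ a ∈ P.S, P.f a * (if P.u a < 0 then ex2 Q P D K (K - 1) 1 (-P.u a) else 0)
        - ∑ a ∈ P.S, P.f a * (if P.u a < 0 then μL (-P.u a) else 0) := by
    rw [← sum_sub_distrib, ← sum_sub_distrib, ← sum_sub_distrib]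
    refine sum_congr rfl fun b _ => ?_
    unfold gross
    split_ifs <;> ring
  rw [n1, n2]
  unfold rest
  rw [← hD]
  linarith

/-- the two midpoint bounds (half shift), in terms of the depth of the stray -/
lemma mids_hyb (A : Finset ℤ) (t : ℕ) {ω : ℤ → ℤ → ℝ} (hω : ∀ x y, ω x y + ω y x = 1)
    {D : ℤ} (hD : 0 < D) (K z : ℤ) :
    ∑ s ∈ Ico 0 D, ind (fun y => Mid A (y / 4 ^ t)) (3 * D - s)
        * price (PH (liftN t A) D z) (QH (liftN t A) D z) D K (K - 1) 1 s
      ≤ ∑ b ∈ (QH (liftN t A) D z).S, (QH (liftN t A) D z).f b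
        * (if (QH (liftN t A) D z).u b < 0 then 1 / 2 *
          (mid (PH (liftN t A) D z) (QH (liftN t A) D z) D 0
              (cpr (PH (liftN t A) D z) D K (K - 1) 1) ω (-(QH (liftN t A) D z).u b)
            + mid (PH (liftN t A) D z) (QH (liftN t A) D z) D (4 ^ t - 1)
              (cpr (PH (liftN t A) D z) D K (K - 1) 1) ω (-(QH (liftN t A) D z).u b)) else 0)
    ∧ ∑ s ∈ Ico 0 D, ind (fun y => Mid A (y / 4 ^ t)) s
        * price (QH (liftN t A) D z) (PH (liftN t A) D z) D K (K - 1) 1 s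
      ≤ ∑ a ∈ (PH (liftN t A) D z).S, (PH (liftN t A) D z).f a
        * (if (PH (liftN t A) D z).u a < 0 then 1 / 2 *
          (mid (QH (liftN t A) D z) (PH (liftN t A) D z) D 0
              (cpr (QH (liftN t A) D z) D K (K - 1) 1) ω (-(PH (liftN t A) D z).u a)
            + mid (QH (liftN t A) D z) (PH (liftN t A) D z) D (4 ^ t - 1)
              (cpr (QH (liftN t A) D z) D K (K - 1) 1) ω (-(PH (liftN t A) D z).u a)) else 0) := by
  have hA := adm_hybrid D z
  have gP : Good (PH (liftN t A) D z) := goodP hA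
  have gQ : Good (QH (liftN t A) D z) := goodQ hA
  have m1 := mid_right_PQH A t D (cpr (PH (liftN t A) D z) D K (K - 1) 1) (cpr_mono gP _ _ _ _)
    (fun x => cprice_nonneg gP _ _ _ _ _) (cut D) (fun x => if D - z ≤ x then cut D x else 0)
    (fun x => if x ≤ 2 * D + z then 1 - cut D x else 0)
    (fun x hx => by unfold cut; rw [if_neg]; omega)
  have m2 := mid_left_PQH A t D (cpr (QH (liftN t A) D z) D K (K - 1) 1) (cpr_mono gQ _ _ _ _)
    (fun x => cprice_nonneg gQ _ _ _ _ _) (cut D) (fun x => if D - z ≤ x then cut D x else 0)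
    (fun x => if x ≤ 2 * D + z then 1 - cut D x else 0)
    (fun x hx => by unfold cut; rw [if_pos]; omega)
  set P := PH (liftN t A) D z with hPdef
  set Q := QH (liftN t A) D z with hQdef
  have avg : ∀ (Y : WS) (F G : ℤ → ℝ), ∑ b ∈ Y.S, Y.f b * (if Y.u b < 0 then
      1 / 2 * (F (-Y.u b) + G (-Y.u b)) else 0)
      = 1 / 2 * (∑ b ∈ Y.S, Y.f b * (if Y.u b < 0 then F (-Y.u b) else 0)
        + ∑ b ∈ Y.S, Y.f b * (if Y.u b < 0 then G (-Y.u b) else 0)) := by
    intro Y F G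
    rw [← sum_add_distrib, mul_sum]
    refine sum_congr rfl fun b _ => ?_
    split_ifs <;> ring
  constructor
  · rw [avg Q]
    refine le_trans ?_ (m1.trans (mul_le_mul_of_nonneg_left (add_le_add
      (sum_mid gP gQ (parw_le t) (parw_le t) D _ (fun x => cprice_nonneg gP _ _ _ _ _) hω)
      (sum_mid gP gQ (parw_le t) (parw_le t) D _ (fun x => cprice_nonneg gP _ _ _ _ _) hω))
      (by norm_num)))
    refine sum_le_sum fun s _ => ?_
    refine mul_le_mul_of_nonneg_left ?_ (ind_nonneg _ _)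
    have := price_le_cprice gP gQ D K (K - 1) 1 s
    unfold cpr
    rwa [show D - (D - s) = s by ring]
  · rw [avg P]
    refine le_trans ?_ (m2.trans (mul_le_mul_of_nonneg_left (add_le_add
      (sum_mid gQ gP (parw_le t) (parw_le t) D _ (fun x => cprice_nonneg gQ _ _ _ _ _) hω)
      (sum_mid gQ gP (parw_le t) (parw_le t) D _ (fun x => cprice_nonneg gQ _ _ _ _ _) hω))
      (by norm_num)))
    refine sum_le_sum fun s _ => ?_
    refine mul_le_mul_of_nonneg_left ?_ (ind_nonneg _ _)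
    have := price_le_cprice gQ gP D K (K - 1) 1 s
    unfold cpr
    rwa [show D - (D - s) = s by ring]

/-- REST ≥ SUM OF THE MEAN NETS + DEEP TERMS + WASTE (half shift of the midpoints) -/
theorem rest_ge_netsH (A : Finset ℤ) (t : ℕ) {ω : ℤ → ℤ → ℝ} (hω : ∀ x y, ω x y + ω y x = 1)
    {D K z : ℤ} (hK : 1 ≤ K) (hD : D = 4 * K + 1) (hz : 0 ≤ z) :
    ∑ b ∈ (QH (liftN t A) D z).S, (QH (liftN t A) D z).f b
        * (if (QH (liftN t A) D z).u b < 0 then
          netH (PH (liftN t A) D z) (QH (liftN t A) D z) ω D K (K - 1) 1 1 z (4 ^ t - 1) 0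
            (-(QH (liftN t A) D z).u b) else 0)
      + ∑ a ∈ (PH (liftN t A) D z).S, (PH (liftN t A) D z).f a
        * (if (PH (liftN t A) D z).u a < 0 then
          netH (QH (liftN t A) D z) (PH (liftN t A) D z) ω D K (K - 1) 1 1 z (4 ^ t - 1) 1
            (-(PH (liftN t A) D z).u a) else 0)
      + (nn (PH (liftN t A) D z) 2 - K) * dd (PH (liftN t A) D z) (QH (liftN t A) D z) D
      + (nn (QH (liftN t A) D z) 2 - K) * dd (QH (liftN t A) D z) (PH (liftN t A) D z) D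
      + wst (PH (liftN t A) D z) (QH (liftN t A) D z) D K (K - 1) 1 (xiR A t D z)
      + wst (QH (liftN t A) D z) (PH (liftN t A) D z) D K (K - 1) 1 (xiL A t D z)
      ≤ rest (PH (liftN t A) D z) (QH (liftN t A) D z) K := by
  obtain ⟨y1, y2⟩ := mids_hyb A t hω (show 0 < D by omega) K z
  have h := rest_ge_mu A t hK hD hz
    (fun τ => 1 / 2 * (mid (PH (liftN t A) D z) (QH (liftN t A) D z) D 0
              (cpr (PH (liftN t A) D z) D K (K - 1) 1) ω τ
            + mid (PH (liftN t A) D z) (QH (liftN t A) D z) D (4 ^ t - 1)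
              (cpr (PH (liftN t A) D z) D K (K - 1) 1) ω τ))
    (fun τ => 1 / 2 * (mid (QH (liftN t A) D z) (PH (liftN t A) D z) D 0
              (cpr (QH (liftN t A) D z) D K (K - 1) 1) ω τ
            + mid (QH (liftN t A) D z) (PH (liftN t A) D z) D (4 ^ t - 1)
              (cpr (QH (liftN t A) D z) D K (K - 1) 1) ω τ)) y1 y2
  have e : ∀ (X Y : WS) (lo τ : ℤ), gross X Y D K (K - 1) 1 1 z lo τ
      - 1 / 2 * (mid X Y D 0 (cpr X D K (K - 1) 1) ω τ
        + mid X Y D (4 ^ t - 1) (cpr X D K (K - 1) 1) ω τ)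
      = netH X Y ω D K (K - 1) 1 1 z (4 ^ t - 1) lo τ := by
    intro X Y lo τ
    unfold netH net gross
    ring
  simp only [e] at h
  exact h

/-- REST ≥ SUM OF THE NETS + DEEP TERMS + WASTE in the hybrid frame with threshold `z`, lifted set.
No coverage and no sign of the price is needed here. -/
theorem rest_ge_netsW (A : Finset ℤ) (t : ℕ) {ω : ℤ → ℤ → ℝ} (hω : ∀ x y, ω x y + ω y x = 1)
    {D K z : ℤ} (hK : 1 ≤ K) (hD : D = 4 * K + 1)
    (hz : 0 ≤ z) :
    ∑ b ∈ (QH (liftN t A) D z).S, (QH (liftN t A) D z).f b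
        * (if (QH (liftN t A) D z).u b < 0 then
          net (PH (liftN t A) D z) (QH (liftN t A) D z) ω D K (K - 1) 1 1 z (4 ^ t - 1) 0
            (-(QH (liftN t A) D z).u b) else 0)
      + ∑ a ∈ (PH (liftN t A) D z).S, (PH (liftN t A) D z).f a
        * (if (PH (liftN t A) D z).u a < 0 then
          net (QH (liftN t A) D z) (PH (liftN t A) D z) ω D K (K - 1) 1 1 z (4 ^ t - 1) 1
            (-(PH (liftN t A) D z).u a) else 0)
      + (nn (PH (liftN t A) D z) 2 - K) * dd (PH (liftN t A) D z) (QH (liftN t A) D z) D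
      + (nn (QH (liftN t A) D z) 2 - K) * dd (QH (liftN t A) D z) (PH (liftN t A) D z) D
      + wst (PH (liftN t A) D z) (QH (liftN t A) D z) D K (K - 1) 1 (xiR A t D z)
      + wst (QH (liftN t A) D z) (PH (liftN t A) D z) D K (K - 1) 1 (xiL A t D z)
      ≤ rest (PH (liftN t A) D z) (QH (liftN t A) D z) K := by
  have hA := adm_hybrid D z
  have gP : Good (PH (liftN t A) D z) := goodP hA
  have gQ : Good (QH (liftN t A) D z) := goodQ hA
  have hl : ∀ a ∈ (PH (liftN t A) D z).S, ∀ b ∈ (QH (liftN t A) D z).S,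
      (PH (liftN t A) D z).f a * (QH (liftN t A) D z).f b ≠ 0 →
      (PH (liftN t A) D z).u a ≤ 2 * K ∧ (QH (liftN t A) D z).u b ≤ 2 * K :=
    label_le (A := liftN t A) hD (fun x => if D - z ≤ x then cut D x else 0)
    (fun x => if x ≤ 2 * D + z then 1 - cut D x else 0)
  have e2 := sum_extraR_g (liftN t A) D (fun x => if D - z ≤ x then cut D x else 0)
    (fun x => if x ≤ 2 * D + z then 1 - cut D x else 0)
    (price (PH (liftN t A) D z) (QH (liftN t A) D z) D K (K - 1) 1)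
  have e3 := sum_extraL_g (liftN t A) D (fun x => if D - z ≤ x then cut D x else 0)
    (fun x => if x ≤ 2 * D + z then 1 - cut D x else 0)
    (price (QH (liftN t A) D z) (PH (liftN t A) D z) D K (K - 1) 1)
  have huP : ∀ a ∈ (PH (liftN t A) D z).S, (PH (liftN t A) D z).f a ≠ 0 →
      (PH (liftN t A) D z).u a ≤ 2 * K := fun (a : ℤ) _ h => leP hD a h
  have huQ : ∀ a ∈ (QH (liftN t A) D z).S, (QH (liftN t A) D z).f a ≠ 0 →
      (QH (liftN t A) D z).u a ≤ 2 * K := fun (a : ℤ) _ h => leQ hD a h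
  have m1 := mid_right_PQ A t D (cpr (PH (liftN t A) D z) D K (K - 1) 1) (cpr_mono gP _ _ _ _)
    (fun x => cprice_nonneg gP _ _ _ _ _) (cut D) (fun x => if D - z ≤ x then cut D x else 0)
    (fun x => if x ≤ 2 * D + z then 1 - cut D x else 0)
    (fun x hx => by unfold cut; rw [if_neg]; omega)
  have m2 := mid_left_PQ A t D (cpr (QH (liftN t A) D z) D K (K - 1) 1) (cpr_mono gQ _ _ _ _)
    (fun x => cprice_nonneg gQ _ _ _ _ _) (cut D) (fun x => if D - z ≤ x then cut D x else 0)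
    (fun x => if x ≤ 2 * D + z then 1 - cut D x else 0)
    (fun x hx => by unfold cut; rw [if_pos]; omega)
  have dP := dblP (liftN t A) D z
  have dQ := dblQ (liftN t A) D z
  set P := PH (liftN t A) D z with hPdef
  set Q := QH (liftN t A) D z with hQdef
  have w1 := waste_eq P Q D K (K - 1) 1 (xiR A t D z)
  have w2 := waste_eq Q P D K (K - 1) 1 (xiL A t D z)
  have w1' : ∑ s ∈ Ico 0 D, xiR A t D z s * price P Q D K (K - 1) 1 s
      = ∑ s ∈ Ico 0 D, (extraR (liftN t A) (cut D)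
          (fun x => if x ≤ 2 * D + z then 1 - cut D x else 0) D s
          + ind (fun y => Mid A (y / 4 ^ t)) (3 * D - s)) * price P Q D K (K - 1) 1 s := rfl
  have w2' : ∑ s ∈ Ico 0 D, xiL A t D z s * price Q P D K (K - 1) 1 s
      = ∑ s ∈ Ico 0 D, (extraL (liftN t A) (cut D)
          (fun x => if D - z ≤ x then cut D x else 0) s
          + ind (fun y => Mid A (y / 4 ^ t)) s) * price Q P D K (K - 1) 1 s := rfl
  rw [w1'] at w1
  rw [w2'] at w2
  have d1 := decomp gP gQ (D := D) (K := K) (T := K - 1) (ρ := 1) (σ := 1) (L := 6 * K)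
    (V := z) (by omega) hz dP dQ (by omega) (by norm_num) (by norm_num) (by norm_num)
    (by norm_num) (fun a ha b hb h => by have := hl a ha b hb h; omega)
    (fun b hb a ha h => by have := hl a ha b hb (by rwa [mul_comm]); omega)
  have e1 : ((6 * K : ℤ) : ℝ) - (D : ℤ) + (1 : ℤ) = 2 * K := by
    rw [hD]
    push_cast
    ring
  rw [e1, show (1:ℤ) + 1 = 2 by norm_num, show (2 * (K:ℝ)) / 2 = K by ring] at d1
  simp only [add_mul, sum_add_distrib] at w1 w2
  rw [e2] at w1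
  rw [e3] at w2
  have x1 := sum_ex1 (P := P) hz dQ D K (K - 1) 1
  have x1' := sum_ex1 (P := Q) hz dP D K (K - 1) 1
  have x2 := sum_ex2 (P := P) (Q := Q) (D := D)
    (fun b hb h => by have := huQ b hb h; omega) K (K - 1) 1
  have x2' := sum_ex2 (P := Q) (Q := P) (D := D)
    (fun b hb h => by have := huP b hb h; omega) K (K - 1) 1
  have y1 : ∑ s ∈ Ico 0 D, ind (fun y => Mid A (y / 4 ^ t)) (3 * D - s)
        * price P Q D K (K - 1) 1 s
      ≤ ∑ b ∈ Q.S, Q.f b * (if Q.u b < 0 then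
        mid P Q D (4 ^ t - 1) (cpr P D K (K - 1) 1) ω (-Q.u b) else 0) := by
    refine le_trans ?_ (m1.trans (sum_mid gP gQ (parw_le t) (parw_le t) D _
      (fun x => cprice_nonneg gP _ _ _ _ _) hω))
    refine sum_le_sum fun s _ => ?_
    refine mul_le_mul_of_nonneg_left ?_ (ind_nonneg _ _)
    have := price_le_cprice gP gQ D K (K - 1) 1 s
    unfold cpr
    rwa [show D - (D - s) = s by ring]
  have y2 : ∑ s ∈ Ico 0 D, ind (fun y => Mid A (y / 4 ^ t)) s
        * price Q P D K (K - 1) 1 s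
      ≤ ∑ a ∈ P.S, P.f a * (if P.u a < 0 then
        mid Q P D (4 ^ t - 1) (cpr Q D K (K - 1) 1) ω (-P.u a) else 0) := by
    refine le_trans ?_ (m2.trans (sum_mid gQ gP (parw_le t) (parw_le t) D _
      (fun x => cprice_nonneg gQ _ _ _ _ _) hω))
    refine sum_le_sum fun s _ => ?_
    refine mul_le_mul_of_nonneg_left ?_ (ind_nonneg _ _)
    have := price_le_cprice gQ gP D K (K - 1) 1 s
    unfold cpr
    rwa [show D - (D - s) = s by ring]
  have n1 : ∑ b ∈ Q.S, Q.f b * (if Q.u b < 0 then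
        net P Q ω D K (K - 1) 1 1 z (4 ^ t - 1) 0 (-Q.u b) else 0)
      = ∑ b ∈ Q.S, Q.f b * (if Q.u b < 0 then gain P Q D K (K - 1) 1 1 z 0 (-Q.u b) else 0)
        - ∑ b ∈ Q.S, Q.f b * (if Q.u b < 0 then ex1 P Q D K (K - 1) 1 z (-Q.u b) else 0)
        - ∑ b ∈ Q.S, Q.f b * (if Q.u b < 0 then ex2 P Q D K (K - 1) 1 (-Q.u b) else 0)
        - ∑ b ∈ Q.S, Q.f b * (if Q.u b < 0 then
          mid P Q D (4 ^ t - 1) (cpr P D K (K - 1) 1) ω (-Q.u b) else 0) := by
    rw [← sum_sub_distrib, ← sum_sub_distrib, ← sum_sub_distrib]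
    refine sum_congr rfl fun b _ => ?_
    unfold net
    split_ifs <;> ring
  have n2 : ∑ a ∈ P.S, P.f a * (if P.u a < 0 then
        net Q P ω D K (K - 1) 1 1 z (4 ^ t - 1) 1 (-P.u a) else 0)
      = ∑ a ∈ P.S, P.f a * (if P.u a < 0 then gain Q P D K (K - 1) 1 1 z 1 (-P.u a) else 0)
        - ∑ a ∈ P.S, P.f a * (if P.u a < 0 then ex1 Q P D K (K - 1) 1 z (-P.u a) else 0)
        - ∑ a ∈ P.S, P.f a * (if P.u a < 0 then ex2 Q P D K (K - 1) 1 (-P.u a) else 0)
        - ∑ a ∈ P.S, P.f a * (if P.u a < 0 then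
          mid Q P D (4 ^ t - 1) (cpr Q D K (K - 1) 1) ω (-P.u a) else 0) := by
    rw [← sum_sub_distrib, ← sum_sub_distrib, ← sum_sub_distrib]
    refine sum_congr rfl fun b _ => ?_
    unfold net
    split_ifs <;> ring
  rw [n1, n2]
  unfold rest
  rw [← hD]
  linarith

/-- REST ≥ SUM OF THE NETS in the hybrid frame with threshold `z`, lifted set (waste dropped). -/
theorem rest_ge_nets (A : Finset ℤ) (t : ℕ) {ω : ℤ → ℤ → ℝ} (hω : ∀ x y, ω x y + ω y x = 1)
    {D K z : ℤ} (hK : 1 ≤ K) (hD : D = 4 * K + 1)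
    (hz : 0 ≤ z) (hcov : Cov (liftN t A) (fun y => Mid A (y / 4 ^ t)) (3 * D + 1))
    (h0 : 0 ≤ price (PH (liftN t A) D z) (QH (liftN t A) D z) D K (K - 1) 1 0)
    (h0' : 0 ≤ price (QH (liftN t A) D z) (PH (liftN t A) D z) D K (K - 1) 1 0) :
    ∑ b ∈ (QH (liftN t A) D z).S, (QH (liftN t A) D z).f b
        * (if (QH (liftN t A) D z).u b < 0 then
          net (PH (liftN t A) D z) (QH (liftN t A) D z) ω D K (K - 1) 1 1 z (4 ^ t - 1) 0
            (-(QH (liftN t A) D z).u b) else 0)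
      + ∑ a ∈ (PH (liftN t A) D z).S, (PH (liftN t A) D z).f a
        * (if (PH (liftN t A) D z).u a < 0 then
          net (QH (liftN t A) D z) (PH (liftN t A) D z) ω D K (K - 1) 1 1 z (4 ^ t - 1) 1
            (-(PH (liftN t A) D z).u a) else 0)
      + (nn (PH (liftN t A) D z) 2 - K) * dd (PH (liftN t A) D z) (QH (liftN t A) D z) D
      + (nn (QH (liftN t A) D z) 2 - K) * dd (QH (liftN t A) D z) (PH (liftN t A) D z) D
      ≤ rest (PH (liftN t A) D z) (QH (liftN t A) D z) K := by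
  have hA := adm_hybrid D z
  have gP : Good (PH (liftN t A) D z) := goodP hA
  have gQ : Good (QH (liftN t A) D z) := goodQ hA
  have hl : ∀ a ∈ (PH (liftN t A) D z).S, ∀ b ∈ (QH (liftN t A) D z).S,
      (PH (liftN t A) D z).f a * (QH (liftN t A) D z).f b ≠ 0 →
      (PH (liftN t A) D z).u a ≤ 2 * K ∧ (QH (liftN t A) D z).u b ≤ 2 * K :=
    label_le (A := liftN t A) hD (fun x => if D - z ≤ x then cut D x else 0)
    (fun x => if x ≤ 2 * D + z then 1 - cut D x else 0)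
  have h3 := rest_ge_netsW A t hω hK hD hz
  have w1 := wst_nonneg (K := K) (T := K - 1) (ρ := 1) (covR_hyb hcov z)
    (fun s hs _ => price_nonneg gP gQ (by omega) h0 (by omega)
      (fun a ha b hb h => by have := hl a ha b hb h; omega) hs)
  have w2 := wst_nonneg (K := K) (T := K - 1) (ρ := 1) (covL_hyb hcov z)
    (fun s hs _ => price_nonneg gQ gP (by omega) h0' (by omega)
      (fun b hb a ha h => by have := hl a ha b hb (by rwa [mul_comm]); omega) hs)
  linarith

end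

end MP61673a.Fin
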