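import Pool.Agent.Mu673.Hat
import Pool.Agent.Mu673.Nets

set_option autoImplicit false

/-!
Box trees of three point certificates: far share of a set with `|A|^2 < n`.
* `Certified n cE J ℓ`: a three point certificate for the linear facts `ℓ j`, `j ∈ J`;
* `BoxCert n χ lo hi`: the same for the box `lo j ≤ (share of χ j) ≤ hi j`;
* `tree_false`: a tree of splits whose leaves are certified excludes the root box;
* `far_frame`: translation of `Σ χ0(pos a) ≤ f |A|` to the masses at depth `≥ 31 D/120` of the frame.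
-/

namespace MP61673a.TP

open Finset MP61673a.Sos MP61673a.W
open MP61673a.Lift (shift Mid Cov IsMaximalThreeFree cov_of_maximal card_shift liftN mem_liftN
  card_liftN dig dig_mem sum_liftN card_dig)

noncomputable section

/-- sum of a function of the position -/
def lin (n : ℕ) (S : Finset ℤ) (ℓ : ℝ → ℝ) : ℝ := ∑ a ∈ S, ℓ (pos n a)

lemma lin_const (n : ℕ) (S : Finset ℤ) (c : ℝ) : lin n S (fun _ => c) = c * S.card := by
  unfold lin
  rw [sum_const, nsmul_eq_mul, mul_comm]

lemma lin_sub (n : ℕ) (S : Finset ℤ) (ℓ ℓ' : ℝ → ℝ) :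
    lin n S (fun x => ℓ x - ℓ' x) = lin n S ℓ - lin n S ℓ' := by
  unfold lin
  rw [sum_sub_distrib]

/-- a three point certificate for the linear facts `ℓ j ≥ 0`, `j ∈ J` -/
def Certified (n : ℕ) (cE : ℝ) {ιJ : Type} (J : Finset ιJ) (ℓ : ιJ → ℝ → ℝ) : Prop :=
  ∃ (g : ℝ → ℝ → ℝ) (κ : ℝ → ℝ) (m : ℕ) (s : Fin m → ℝ → ℝ → ℝ) (ν : ιJ → ℝ → ℝ → ℝ)
    (θ γ : ℝ), (∀ z x, 0 ≤ g z x) ∧ (∀ z, 0 ≤ κ z) ∧ (∀ j ∈ J, ∀ a b, 0 ≤ ν j a b) ∧
    0 < θ ∧ θ ≤ γ ∧
    (∀ z, 0 < z → z < 1 → γ * n ≤ ∑ x ∈ Ico (0 : ℤ) n, g z (pos n x)) ∧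
    ∀ a b c : ℝ, 0 < a → a < 1 → 0 < b → b < 1 → 0 < c → c < 1 →
      sym6 (F g κ cE J ν ℓ) a b c + 2 * sq3 univ s a b c ≤ 6 * θ

lemma shift_bounds {n : ℕ} {A : Finset ℕ} (h : IsMaximalThreeFree n A) {a : ℤ}
    (ha : a ∈ shift A) : 0 ≤ a ∧ a < n := by
  unfold shift at ha
  rw [mem_image] at ha
  obtain ⟨b, hb, rfl⟩ := ha
  have hb2 := h.1 hb
  rw [Finset.mem_Icc] at hb2
  omega

/-- a certified family of linear facts is contradictory -/
theorem Certified.false {n : ℕ} {A : Finset ℕ} (h : IsMaximalThreeFree n A)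
    (hlt : A.card ^ 2 < n) {ιJ : Type} {J : Finset ιJ} {ℓ : ιJ → ℝ → ℝ}
    (cert : Certified n (13 / 18) J ℓ) (hJ : ∀ j ∈ J, 0 ≤ lin n (shift A) (ℓ j)) : False := by
  obtain ⟨g, κ, m, s, ν, θ, γ, hg, hκ, hν, hθ, hθγ, hsum, h3⟩ := cert
  have hn : 0 < n := lt_of_le_of_lt (Nat.zero_le _) hlt
  have hCE : (13 / 18 : ℝ) * ((shift A).card : ℝ) ^ 2 ≤ ∑ y ∈ Ico (0 : ℤ) n, lab (shift A) y := by
    rw [card_shift]
    exact CE.ce_lab h hlt
  have key := three_point_bound hn (shift A) (fun a ha => shift_bounds h ha) (cov_of_maximal h)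
    g hg κ hκ hCE J ν hν ℓ hJ univ s hsum h3
  rw [card_shift] at key
  have hk : 0 < A.card := by
    rcases Nat.eq_zero_or_pos A.card with h0 | h0
    · exfalso
      rw [card_eq_zero] at h0
      subst h0
      have h1 : (1 : ℕ) ∈ Finset.Icc 1 n := by rw [Finset.mem_Icc]; omega
      rcases CE.cover h h1 (by simp) with ⟨a, ha, _⟩ | ⟨a, ha, _⟩
      · simp at ha
      · simp at ha
    · exact h0
  have hk' : (0:ℝ) < A.card := by exact_mod_cast hk
  have hn' : (0:ℝ) < n := by exact_mod_cast hn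
  have hlt' : (A.card : ℝ) ^ 2 < n := by exact_mod_cast hlt
  have h1 : θ * (A.card : ℝ) ^ 3 < θ * n * A.card := by
    have h5 : (A.card : ℝ) ^ 2 * (A.card : ℝ) < (n : ℝ) * (A.card : ℝ) :=
      mul_lt_mul_of_pos_right hlt' hk'
    have h6 := mul_lt_mul_of_pos_left h5 hθ
    have e1 : θ * (A.card : ℝ) ^ 3 = θ * ((A.card : ℝ) ^ 2 * (A.card : ℝ)) := by ring
    rw [e1, mul_assoc]
    exact h6
  have h2 : θ * n * A.card ≤ γ * n * A.card :=
    mul_le_mul_of_nonneg_right (mul_le_mul_of_nonneg_right hθγ hn'.le) hk'.le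
  linarith

/-! ### Boxes -/

/-- the linear functions of a box -/
def boxFun {m : ℕ} (χ : Fin m → ℝ → ℝ) (lo hi : Fin m → ℝ) (j : Fin m × Bool) (x : ℝ) : ℝ :=
  if j.2 then χ j.1 x - lo j.1 else hi j.1 - χ j.1 x

/-- the shares of a set lie in the box -/
def InBox (n : ℕ) (S : Finset ℤ) {m : ℕ} (χ : Fin m → ℝ → ℝ) (lo hi : Fin m → ℝ) : Prop :=
  ∀ j, lo j * S.card ≤ lin n S (χ j) ∧ lin n S (χ j) ≤ hi j * S.card

/-- certificate of a box -/
def BoxCert (n : ℕ) {m : ℕ} (χ : Fin m → ℝ → ℝ) (lo hi : Fin m → ℝ) : Prop :=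
  Certified n (13 / 18) univ (boxFun χ lo hi)

lemma InBox.facts {n : ℕ} {S : Finset ℤ} {m : ℕ} {χ : Fin m → ℝ → ℝ} {lo hi : Fin m → ℝ}
    (hb : InBox n S χ lo hi) (j : Fin m × Bool) : 0 ≤ lin n S (boxFun χ lo hi j) := by
  obtain ⟨i, b⟩ := j
  cases b
  · have e : lin n S (boxFun χ lo hi (i, false)) = hi i * S.card - lin n S (χ i) := by
      rw [← lin_const n S (hi i), ← lin_sub]
      rfl
    rw [e]
    linarith [(hb i).2]
  · have e : lin n S (boxFun χ lo hi (i, true)) = lin n S (χ i) - lo i * S.card := by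
      rw [← lin_const n S (lo i), ← lin_sub]
      rfl
    rw [e]
    linarith [(hb i).1]

theorem BoxCert.false {n : ℕ} {A : Finset ℕ} (h : IsMaximalThreeFree n A)
    (hlt : A.card ^ 2 < n) {m : ℕ} {χ : Fin m → ℝ → ℝ} {lo hi : Fin m → ℝ}
    (cert : BoxCert n χ lo hi) (hb : InBox n (shift A) χ lo hi) : False :=
  Certified.false h hlt cert fun j _ => hb.facts j

/-- splitting a box -/
lemma InBox.split {n : ℕ} {S : Finset ℤ} {m : ℕ} {χ : Fin m → ℝ → ℝ} {lo hi : Fin m → ℝ}
    (hb : InBox n S χ lo hi) (j : Fin m) (c : ℝ) :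
    InBox n S χ lo (Function.update hi j c) ∨ InBox n S χ (Function.update lo j c) hi := by
  rcases le_total (lin n S (χ j)) (c * S.card) with h | h
  · left
    intro i
    rcases eq_or_ne i j with rfl | hij
    · rw [Function.update_self]
      exact ⟨(hb i).1, h⟩
    · rw [Function.update_of_ne hij]
      exact hb i
  · right
    intro i
    rcases eq_or_ne i j with rfl | hij
    · rw [Function.update_self]
      exact ⟨h, (hb i).2⟩
    · rw [Function.update_of_ne hij]
      exact hb i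

/-- tree of splits -/
inductive BT (m : ℕ) where
  | leaf : BT m
  | node : Fin m → ℚ → BT m → BT m → BT m

/-- the leaf boxes -/
def BT.leaves {m : ℕ} : BT m → (Fin m → ℚ) → (Fin m → ℚ) → List ((Fin m → ℚ) × (Fin m → ℚ))
  | .leaf, lo, hi => [(lo, hi)]
  | .node j c l r, lo, hi =>
    l.leaves lo (Function.update hi j c) ++ r.leaves (Function.update lo j c) hi

lemma cast_update {m : ℕ} (f : Fin m → ℚ) (j : Fin m) (c : ℚ) :
    (fun i => ((Function.update f j c i : ℚ) : ℝ)) = Function.update (fun i => ((f i : ℚ) : ℝ)) j c := by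
  funext i
  rcases eq_or_ne i j with rfl | hij
  · rw [Function.update_self, Function.update_self]
  · rw [Function.update_of_ne hij, Function.update_of_ne hij]

/-- certified leaves exclude the root box -/
theorem tree_false {n : ℕ} {A : Finset ℕ} (h : IsMaximalThreeFree n A)
    (hlt : A.card ^ 2 < n) {m : ℕ} {χ : Fin m → ℝ → ℝ} (T : BT m) :
    ∀ (lo hi : Fin m → ℚ),
    (∀ b ∈ T.leaves lo hi, BoxCert n χ (fun i => ((b.1 i : ℚ) : ℝ)) (fun i => ((b.2 i : ℚ) : ℝ))) →
    InBox n (shift A) χ (fun i => ((lo i : ℚ) : ℝ)) (fun i => ((hi i : ℚ) : ℝ)) → False := by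
  induction T with
  | leaf =>
    intro lo hi hall hb
    exact BoxCert.false h hlt (hall (lo, hi) (by simp [BT.leaves])) hb
  | node j c l r ihl ihr =>
    intro lo hi hall hb
    rcases hb.split j (c : ℝ) with h1 | h1
    · refine ihl lo (Function.update hi j c) (fun b hbm => hall b ?_) ?_
      · simp only [BT.leaves, List.mem_append]
        exact Or.inl hbm
      · rw [cast_update]
        exact h1
    · refine ihr (Function.update lo j c) hi (fun b hbm => hall b ?_) ?_
      · simp only [BT.leaves, List.mem_append]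
        exact Or.inr hbm
      · rw [cast_update]
        exact h1

/-! ### Translation to the frame -/

open MP61673a.Fin (cut cut_nonneg PH QH) in
/-- the far masses of the frame: depth at least `31 D / 120` -/
theorem far_frame {n : ℕ} {A : Finset ℕ} (hn : 100 ≤ n)
    {χ0 : ℝ → ℝ} (h0 : ∀ x, 0 ≤ χ0 x) (h1 : ∀ x, x ≤ 1 / 4 → 1 ≤ χ0 x)
    (h2 : ∀ x, 3 / 4 ≤ x → 1 ≤ χ0 x) {f : ℝ}
    (hf : lin n (shift A) χ0 ≤ f * A.card) {t : ℕ} (ht : 3 ≤ t) {D z c : ℤ}
    (hc : 31 * D ≤ 120 * c)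
    (e1 : 3 * D + 1 ≤ 4 ^ t * (n : ℤ)) (e2 : 4 ^ t * (n : ℤ) ≤ 3 * D + 12) :
    (∑ a ∈ (PH (liftN t (shift A)) D z).S, if (PH (liftN t (shift A)) D z).u a ≤ -c then
        (PH (liftN t (shift A)) D z).f a else 0)
      + (∑ b ∈ (QH (liftN t (shift A)) D z).S, if (QH (liftN t (shift A)) D z).u b ≤ -c then
        (QH (liftN t (shift A)) D z).f b else 0)
      ≤ f * (mass (PH (liftN t (shift A)) D z) + mass (QH (liftN t (shift A)) D z)) := by
  have hmass : mass (PH (liftN t (shift A)) D z) + mass (QH (liftN t (shift A)) D z)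
      = (liftN t (shift A)).card := mass_add _ _ _ _ _
  rw [hmass, card_liftN, card_shift]
  have hle : (∑ a ∈ (PH (liftN t (shift A)) D z).S, if (PH (liftN t (shift A)) D z).u a ≤ -c then
        (PH (liftN t (shift A)) D z).f a else 0)
      + (∑ b ∈ (QH (liftN t (shift A)) D z).S, if (QH (liftN t (shift A)) D z).u b ≤ -c then
        (QH (liftN t (shift A)) D z).f b else 0)
      ≤ ∑ x ∈ liftN t (shift A), (if x ≤ D - c ∨ 2 * D + c ≤ x then (1:ℝ) else 0) := by
    change (∑ x ∈ liftN t (shift A), if x - D ≤ -c then cut D x else 0)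
      + (∑ x ∈ liftN t (shift A), if 2 * D - x ≤ -c then 1 - cut D x else 0) ≤ _
    rw [← sum_add_distrib]
    refine sum_le_sum fun x _ => ?_
    have k0 := cut_nonneg D x
    have k1 : cut D x ≤ 1 := by
      unfold MP61673a.Fin.cut
      split_ifs <;> norm_num
    by_cases c1 : x ≤ D - c
    · by_cases c2 : 2 * D + c ≤ x
      · rw [if_pos (by omega), if_pos (by omega), if_pos (Or.inl c1)]
        linarith
      · rw [if_pos (by omega), if_neg (by omega), if_pos (Or.inl c1)]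
        linarith
    · by_cases c2 : 2 * D + c ≤ x
      · rw [if_neg (by omega), if_pos (by omega), if_pos (Or.inr c2)]
        linarith
      · rw [if_neg (by omega), if_neg (by omega), if_neg (by omega)]
        linarith
  refine hle.trans ?_
  rw [sum_liftN]
  have hcell : ∀ a ∈ shift A, ∑ c' ∈ dig t,
      (if 4 ^ t * a + c' ≤ D - c ∨ 2 * D + c ≤ 4 ^ t * a + c' then (1:ℝ) else 0)
      ≤ 2 ^ t * χ0 (pos n a) := by
    intro a _
    have hp : (64:ℤ) ≤ 4 ^ t := by
      calc (64:ℤ) = 4 ^ 3 := by norm_num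
        _ ≤ 4 ^ t := pow_le_pow_right₀ (by norm_num) ht
    have hnn : (100:ℤ) ≤ n := by exact_mod_cast hn
    by_cases hex : ∃ c' ∈ dig t, 4 ^ t * a + c' ≤ D - c ∨ 2 * D + c ≤ 4 ^ t * a + c'
    · obtain ⟨c', hc', hd⟩ := hex
      have hchi : 1 ≤ χ0 (pos n a) := by
        have hm := dig_mem hc'
        have hn' : (0:ℝ) < n := by
          have : (0:ℕ) < n := by omega
          exact_mod_cast this
        rcases hd with hd | hd
        · apply h1
          unfold pos
          rw [div_le_iff₀ hn']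
          -- 360 * (4^t a + c') ≤ 360 (D - c) ≤ 267 D ≤ 89 (4^t n - 1)
          have i1 : 120 * (4 ^ t * a + c') ≤ 89 * D := by omega
          have i2 : 360 * (4 ^ t * a + c') ≤ 89 * (4 ^ t * (n:ℤ) - 1) := by omega
          have i3 : 360 * (4 ^ t * a) + 120 * (4 ^ t - 1) ≤ 89 * (4 ^ t * (n:ℤ)) - 89 := by
            linarith [hm.1]
          have i4 : 4 ^ t * (360 * a + 120) ≤ (4:ℤ) ^ t * (89 * n) + 31 := by linarith
          have i5 : 360 * a + 120 ≤ 89 * (n:ℤ) := by
            by_contra hcon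
            have j1 : 89 * (n:ℤ) + 1 ≤ 360 * a + 120 := by omega
            have j2 : (4:ℤ) ^ t * (89 * n + 1) ≤ 4 ^ t * (360 * a + 120) :=
              mul_le_mul_of_nonneg_left j1 (by linarith)
            linarith
          have i6 : 360 * a + 180 ≤ 90 * (n:ℤ) := by omega
          have i7 : (360:ℝ) * a + 180 ≤ 90 * n := by exact_mod_cast i6
          linarith
        · apply h2
          unfold pos
          rw [le_div_iff₀ hn']
          have i1 : 271 * D ≤ 120 * (4 ^ t * a + c') := by omega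
          have i2 : 271 * (4 ^ t * (n:ℤ) - 12) ≤ 360 * (4 ^ t * a + c') := by omega
          have i3 : 271 * (4 ^ t * (n:ℤ)) - 3252 ≤ 360 * (4 ^ t * a) + 240 * (4 ^ t - 1) := by
            linarith [hm.2]
          have i4 : (4:ℤ) ^ t * (271 * n) ≤ 4 ^ t * (360 * a + 240) + 3012 := by linarith
          have i5 : 271 * (n:ℤ) ≤ 360 * a + 240 + 47 := by
            by_contra hcon
            have j1 : 360 * a + 240 + 48 ≤ 271 * (n:ℤ) := by omega
            have j2 : (4:ℤ) ^ t * (360 * a + 240 + 48) ≤ 4 ^ t * (271 * n) :=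
              mul_le_mul_of_nonneg_left j1 (by linarith)
            nlinarith
          have i6 : 270 * (n:ℤ) ≤ 360 * a + 187 := by omega
          have i8 : 270 * (n:ℤ) ≤ 360 * a + 180 := by omega
          have i7 : (270:ℝ) * n ≤ 360 * a + 180 := by exact_mod_cast i8
          linarith
      calc ∑ c' ∈ dig t, (if 4 ^ t * a + c' ≤ D - c ∨ 2 * D + c ≤ 4 ^ t * a + c' then (1:ℝ) else 0)
          ≤ ∑ c' ∈ dig t, (1:ℝ) := sum_le_sum fun c' _ => by split_ifs <;> norm_num
        _ = 2 ^ t := by rw [sum_const, card_dig]; simp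
        _ ≤ 2 ^ t * χ0 (pos n a) := by
          have : (0:ℝ) < 2 ^ t := by positivity
          nlinarith
    · have hz : ∀ c' ∈ dig t, (if 4 ^ t * a + c' ≤ D - c ∨ 2 * D + c ≤ 4 ^ t * a + c' then (1:ℝ)
          else 0) = 0 := by
        intro c' hc'
        rw [if_neg]
        intro hh
        exact hex ⟨c', hc', hh⟩
      rw [sum_congr rfl hz, sum_const_zero]
      exact mul_nonneg (by positivity) (h0 _)
  refine (sum_le_sum hcell).trans ?_
  rw [← mul_sum]
  have hf' : ∑ a ∈ shift A, χ0 (pos n a) ≤ f * A.card := hf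
  push_cast
  have : (0:ℝ) < 2 ^ t := by positivity
  nlinarith

end

end MP61673a.TP
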