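import Pool.Agent.Mu673.Fin
import Pool.Agent.Mu673.Nets

/-!
AT MOST ONE UNIT OF WEIGHT AT EVERY POSITION of a side of the hybrid frame (helper87).
-/

set_option autoImplicit false

namespace MP61673a.Fin

open Finset MP61673a.W MP61673a.LiftW MP61673a.Mids
open MP61673a.Lift hiding PP QQ

/-- the weight at every position is at most one -/
def OneW (P : WS) : Prop := ∀ s : ℤ, ∑ a ∈ P.S, (if P.u a = s then P.f a else 0) ≤ 1

lemma oneW_PP (A : Finset ℤ) (D : ℤ) (φ1 : ℤ → ℝ) : OneW (PP A (cut D) φ1 D) := by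
  intro s
  change ∑ a ∈ A, (if a - D = s then cut D a else 0) ≤ 1
  have e : ∑ a ∈ A, (if a - D = s then cut D a else 0) ≤ ∑ a ∈ A, (if a = s + D then (1:ℝ) else 0) := by
    refine sum_le_sum fun a _ => ?_
    by_cases c : a - D = s
    · rw [if_pos c, if_pos (by omega)]
      exact cut_le_one D a
    · rw [if_neg c, if_neg (by omega)]
  refine e.trans ?_
  rw [sum_ite_eq' A (s + D) (fun _ => (1:ℝ))]
  split_ifs <;> norm_num

lemma oneW_QQ (A : Finset ℤ) (D : ℤ) (ψ1 : ℤ → ℝ) : OneW (QQ A (cut D) ψ1 D) := by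
  intro s
  change ∑ a ∈ A, (if 2 * D - a = s then 1 - cut D a else 0) ≤ 1
  have e : ∑ a ∈ A, (if 2 * D - a = s then 1 - cut D a else 0)
      ≤ ∑ a ∈ A, (if a = 2 * D - s then (1:ℝ) else 0) := by
    refine sum_le_sum fun a _ => ?_
    by_cases c : 2 * D - a = s
    · rw [if_pos c, if_pos (by omega)]
      linarith [cut_nonneg D a]
    · rw [if_neg c, if_neg (by omega)]
  refine e.trans ?_
  rw [sum_ite_eq' A (2 * D - s) (fun _ => (1:ℝ))]
  split_ifs <;> norm_num

lemma oneW_PH (A : Finset ℤ) (D z : ℤ) : OneW (PH A D z) := oneW_PP A D _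

lemma oneW_QH (A : Finset ℤ) (D z : ℤ) : OneW (QH A D z) := oneW_QQ A D _

end MP61673a.Fin
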