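import Pool.Agent.Mu673.ThreePointT

set_option autoImplicit false

/-!
Typed certificates: `CertifiedT`, boxes, trees; the exact normalisation of a piecewise linear
label weight: `Σ_x λ(pos x) ≥ n · trapezoid(λ) - (N/(8n)) Σ_j D'_j`, `D'_j` = convex second difference.
-/

namespace MP61673a.TP

open Finset MP61673a.Sos MP61673a.W
open MP61673a.Lift (shift Mid Cov IsMaximalThreeFree cov_of_maximal card_shift mem_shift)

noncomputable section

/-! ### Normalisation -/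

/-- summation by parts -/
lemma abel (M : ℕ) (l E : ℕ → ℝ) (h0 : E 0 = 0) (hM : E (M + 1) = 0) :
    ∑ j ∈ range M, l (j + 1) * (E j - 2 * E (j + 1) + E (j + 2)) + l 0 * E 1
      + l (M + 1) * E M
      = ∑ j ∈ range M, E (j + 1) * (l j - 2 * l (j + 1) + l (j + 2)) := by
  have h := sum_range_sub (fun j => l j * E (j + 1) - l (j + 1) * E j) M
  have e : ∀ j, l (j + 1) * (E j - 2 * E (j + 1) + E (j + 2))
      - E (j + 1) * (l j - 2 * l (j + 1) + l (j + 2))
      = (l (j + 1) * E (j + 2) - l (j + 2) * E (j + 1)) - (l j * E (j + 1) - l (j + 1) * E j) := by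
    intro j
    ring
  have h2 : ∑ j ∈ range M, (l (j + 1) * (E j - 2 * E (j + 1) + E (j + 2))
      - E (j + 1) * (l j - 2 * l (j + 1) + l (j + 2)))
      = (l M * E (M + 1) - l (M + 1) * E M) - (l 0 * E (0 + 1) - l (0 + 1) * E 0) := by
    rw [← h]
    exact sum_congr rfl fun j _ => e j
  rw [sum_sub_distrib, h0, hM] at h2
  simp only [zero_add, mul_zero, sub_zero] at h2
  linarith

/-- the deficit of the sum of `|x - t|` -/
def defi (n : ℕ) (t : ℝ) : ℝ :=
  n * (t ^ 2 + (1 - t) ^ 2) / 2 - ∑ x ∈ Ico (0 : ℤ) n, |pos n x - t|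

lemma defi_nonneg {n : ℕ} (hn : 0 < n) {t : ℝ} (h0 : 0 ≤ t) (h1 : t ≤ 1) : 0 ≤ defi n t := by
  unfold defi
  linarith [abs_sum_le hn h0 h1]

lemma defi_le {n : ℕ} (hn : 0 < n) {t : ℝ} (h0 : 0 ≤ t) (h1 : t ≤ 1) :
    defi n t ≤ 1 / (4 * n) := by
  unfold defi
  linarith [abs_sum_ge hn h0 h1]

lemma defi_zero {n : ℕ} (hn : 0 < n) : defi n 0 = 0 := by
  unfold defi
  have : ∑ x ∈ Ico (0 : ℤ) n, |pos n x - 0| = ∑ x ∈ Ico (0 : ℤ) n, pos n x := by
    refine sum_congr rfl fun x hx => ?_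
    rw [mem_Ico] at hx
    rw [sub_zero, abs_of_pos (pos_mem hx.1 hx.2).1]
  rw [this, pos_sum hn]
  ring

lemma defi_one {n : ℕ} (hn : 0 < n) : defi n 1 = 0 := by
  unfold defi
  have : ∑ x ∈ Ico (0 : ℤ) n, |pos n x - 1| = ∑ x ∈ Ico (0 : ℤ) n, (1 - pos n x) := by
    refine sum_congr rfl fun x hx => ?_
    rw [mem_Ico] at hx
    rw [abs_of_neg (by linarith [(pos_mem hx.1 hx.2).2])]
    ring
  rw [this, sum_sub_distrib, pos_sum hn, sum_const, Int.card_Ico]
  simp only [sub_zero, Int.toNat_natCast, nsmul_eq_mul]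
  ring

lemma hat_sum_eq {n N : ℕ} (hN : 0 < N) (i : ℤ) :
    ∑ x ∈ Ico (0 : ℤ) n, hat N i (pos n x)
      = (n : ℝ) / N - N / 2 * (defi n ((i - 1) / N) - 2 * defi n (i / N) + defi n ((i + 1) / N)) := by
  have hN' : (0:ℝ) < N := by exact_mod_cast hN
  have e : ∑ x ∈ Ico (0 : ℤ) n, hat N i (pos n x)
      = (N * ∑ x ∈ Ico (0 : ℤ) n, |pos n x - (i - 1) / N|
        - 2 * (N * ∑ x ∈ Ico (0 : ℤ) n, |pos n x - i / N|)
        + N * ∑ x ∈ Ico (0 : ℤ) n, |pos n x - (i + 1) / N|) / 2 := by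
    rw [mul_sum, mul_sum, mul_sum, mul_sum, ← sum_sub_distrib, ← sum_add_distrib, sum_div]
    refine sum_congr rfl fun x _ => ?_
    rw [hat_eq_abs, abs_scale hN, abs_scale hN, abs_scale hN]
  rw [e]
  unfold defi
  have e2 : (n : ℝ) / N
      = N / 2 * (n * ((((i:ℝ) - 1) / N) ^ 2 + (1 - ((i:ℝ) - 1) / N) ^ 2) / 2
        - 2 * (n * (((i:ℝ) / N) ^ 2 + (1 - (i:ℝ) / N) ^ 2) / 2)
        + n * ((((i:ℝ) + 1) / N) ^ 2 + (1 - ((i:ℝ) + 1) / N) ^ 2) / 2) := by
    field_simp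
    ring
  rw [e2]
  ring

lemma hat_sum_eq_zero {n N : ℕ} (hn : 0 < n) (hN : 0 < N) :
    ∑ x ∈ Ico (0 : ℤ) n, hat N 0 (pos n x) = (n : ℝ) / (2 * N) - N / 2 * defi n (1 / N) := by
  have hN' : (0:ℝ) < N := by exact_mod_cast hN
  have e : ∑ x ∈ Ico (0 : ℤ) n, hat N 0 (pos n x)
      = (N * ∑ x ∈ Ico (0 : ℤ) n, |pos n x - 1 / N|
        - N * ∑ x ∈ Ico (0 : ℤ) n, pos n x + ∑ x ∈ Ico (0 : ℤ) n, (1:ℝ)) / 2 := by
    rw [mul_sum, mul_sum, ← sum_sub_distrib, ← sum_add_distrib, sum_div]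
    refine sum_congr rfl fun x hx => ?_
    rw [mem_Ico] at hx
    have hp := (pos_mem hx.1 hx.2).1
    rw [hat_eq_abs, ← abs_scale hN]
    push_cast
    have hy : 0 < (N:ℝ) * pos n x := mul_pos hN' hp
    rw [abs_of_nonneg (by linarith : (0:ℝ) ≤ N * pos n x - (0 - 1)),
      abs_of_nonneg (by linarith : (0:ℝ) ≤ N * pos n x - 0)]
    have : (N:ℝ) * pos n x - (0 + 1) = N * pos n x - 1 := by ring
    rw [this]
    ring
  rw [e, pos_sum hn]
  have c : ∑ x ∈ Ico (0 : ℤ) n, (1:ℝ) = n := by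
    rw [sum_const, Int.card_Ico]
    simp
  rw [c]
  unfold defi
  have e2 : (n : ℝ) / (2 * N)
      = N / 2 * (n * ((1 / (N:ℝ)) ^ 2 + (1 - 1 / (N:ℝ)) ^ 2) / 2) - N * (n / 2) / 2 + n / 2 := by
    field_simp
    ring
  rw [e2]
  ring

lemma defi_reflect {n : ℕ} (hn : 0 < n) (t : ℝ) : defi n (1 - t) = defi n t := by
  unfold defi
  have : ∑ x ∈ Ico (0 : ℤ) n, |pos n x - (1 - t)| = ∑ x ∈ Ico (0 : ℤ) n, |pos n x - t| := by
    rw [← sum_reflect]
    refine sum_congr rfl fun x _ => ?_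
    rw [pos_reflect n hn, ← abs_neg]
    congr 1
    ring
  rw [this]
  ring

lemma hat_sum_eq_last {n N : ℕ} (hn : 0 < n) (hN : 0 < N) :
    ∑ x ∈ Ico (0 : ℤ) n, hat N N (pos n x)
      = (n : ℝ) / (2 * N) - N / 2 * defi n (((N:ℝ) - 1) / N) := by
  have hN' : (0:ℝ) < N := by exact_mod_cast hN
  have e : ((N:ℝ) - 1) / N = 1 - 1 / N := by
    field_simp
  rw [e, defi_reflect hn, ← hat_sum_eq_zero hn hN, ← sum_reflect]
  refine sum_congr rfl fun x _ => ?_
  rw [pos_reflect n hn]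
  unfold hat
  congr 2
  rw [← abs_neg]
  congr 1
  push_cast
  ring

/-- NORMALISATION of a piecewise linear weight with node values `l 0, …, l N` (`N = M + 1`) -/
theorem weight_sum_ge {n M : ℕ} (hn : 0 < n) (l D' : ℕ → ℝ) (hD0 : ∀ j, j < M → 0 ≤ D' (j + 1))
    (hD : ∀ j, j < M → l j - 2 * l (j + 1) + l (j + 2) ≤ D' (j + 1)) :
    (n : ℝ) / (M + 1) * (l 0 / 2 + ∑ j ∈ range M, l (j + 1) + l (M + 1) / 2)
      - (M + 1) / (8 * n) * ∑ j ∈ range M, D' (j + 1)
      ≤ ∑ x ∈ Ico (0 : ℤ) n, ∑ j ∈ range (M + 2), l j * hat (M + 1) (j : ℤ) (pos n x) := by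
  have hN : 0 < M + 1 := Nat.succ_pos M
  have hN' : (0:ℝ) < (M:ℝ) + 1 := by positivity
  have hn' : (0:ℝ) < n := by exact_mod_cast hn
  set E : ℕ → ℝ := fun j => defi n ((j : ℝ) / (M + 1)) with hE
  have hE0 : E 0 = 0 := by
    rw [hE]
    simp only [Nat.cast_zero, zero_div]
    exact defi_zero hn
  have hEM : E (M + 1) = 0 := by
    rw [hE]
    simp only
    push_cast
    rw [div_self hN'.ne']
    exact defi_one hn
  have e1 : ∑ x ∈ Ico (0 : ℤ) n, ∑ j ∈ range (M + 2), l j * hat (M + 1) (j : ℤ) (pos n x)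
      = ∑ j ∈ range (M + 2), l j * ∑ x ∈ Ico (0 : ℤ) n, hat (M + 1) (j : ℤ) (pos n x) := by
    rw [sum_comm]
    refine sum_congr rfl fun j _ => ?_
    rw [mul_sum]
  rw [e1, sum_range_succ, sum_range_succ']
  have f0 : ∑ x ∈ Ico (0 : ℤ) n, hat (M + 1) ((0 : ℕ) : ℤ) (pos n x)
      = (n : ℝ) / (2 * (M + 1)) - (M + 1) / 2 * E 1 := by
    have := hat_sum_eq_zero (N := M + 1) hn hN
    push_cast at this ⊢
    rw [this, hE]
    simp
  have f1 : ∑ x ∈ Ico (0 : ℤ) n, hat (M + 1) ((M + 1 : ℕ) : ℤ) (pos n x)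
      = (n : ℝ) / (2 * (M + 1)) - (M + 1) / 2 * E M := by
    have := hat_sum_eq_last (N := M + 1) hn hN
    push_cast at this ⊢
    rw [this, hE]
    simp
  have f2 : ∀ j ∈ range M, l (j + 1) * ∑ x ∈ Ico (0 : ℤ) n, hat (M + 1) ((j + 1 : ℕ) : ℤ) (pos n x)
      = (n : ℝ) / (M + 1) * l (j + 1)
        - (M + 1) / 2 * (l (j + 1) * (E j - 2 * E (j + 1) + E (j + 2))) := by
    intro j hj
    rw [mem_range] at hj
    have := hat_sum_eq (n := n) (N := M + 1) hN ((j + 1 : ℕ) : ℤ)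
    rw [this, hE]
    simp only
    push_cast
    have g1 : ((j : ℝ) + 1 - 1) / (M + 1) = (j : ℝ) / (M + 1) := by ring
    have g2 : ((j : ℝ) + 1 + 1) / (M + 1) = ((j : ℝ) + 2) / (M + 1) := by ring
    rw [g1, g2]
    ring
  rw [f1, f0, sum_congr rfl f2, sum_sub_distrib, ← mul_sum, ← mul_sum]
  have hab := abel M l E hE0 hEM
  have hb : ∑ j ∈ range M, E (j + 1) * (l j - 2 * l (j + 1) + l (j + 2))
      ≤ 1 / (4 * n) * ∑ j ∈ range M, D' (j + 1) := by
    rw [mul_sum]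
    refine sum_le_sum fun j hj => ?_
    rw [mem_range] at hj
    have t0 : 0 ≤ ((j + 1 : ℕ) : ℝ) / (M + 1) := by positivity
    have t1 : ((j + 1 : ℕ) : ℝ) / (M + 1) ≤ 1 := by
      rw [div_le_one hN']
      have : ((j + 1 : ℕ) : ℝ) ≤ ((M : ℕ) : ℝ) := by exact_mod_cast hj
      linarith
    have b0 : 0 ≤ E (j + 1) := defi_nonneg hn t0 t1
    have b1 : E (j + 1) ≤ 1 / (4 * n) := defi_le hn t0 t1
    calc E (j + 1) * (l j - 2 * l (j + 1) + l (j + 2)) ≤ E (j + 1) * D' (j + 1) :=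
          mul_le_mul_of_nonneg_left (hD j hj) b0
      _ ≤ 1 / (4 * n) * D' (j + 1) := mul_le_mul_of_nonneg_right b1 (hD0 j hj)
  have hb2 := mul_le_mul_of_nonneg_left hb (by positivity : (0:ℝ) ≤ ((M:ℝ) + 1) / 2)
  have e3 : ((M:ℝ) + 1) / 2 * (1 / (4 * n) * ∑ j ∈ range M, D' (j + 1))
      = (M + 1) / (8 * n) * ∑ j ∈ range M, D' (j + 1) := by
    have e30 : ((M:ℝ) + 1) / 2 * (1 / (4 * n)) = (M + 1) / (8 * n) := by
      rw [div_mul_div_comm, mul_one]
      have e31 : (2:ℝ) * (4 * n) = 8 * n := by ring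
      rw [e31]
    rw [← mul_assoc, e30]
  rw [e3] at hb2
  have e4 : (n : ℝ) / (M + 1) * (l 0 / 2 + ∑ j ∈ range M, l (j + 1) + l (M + 1) / 2)
      = (n : ℝ) / (M + 1) * ∑ j ∈ range M, l (j + 1) + l 0 * ((n : ℝ) / (2 * (M + 1)))
        + l (M + 1) * ((n : ℝ) / (2 * (M + 1))) := by
    field_simp
    ring
  rw [e4]
  have e5 : ((M:ℝ) + 1) / 2 * (∑ j ∈ range M, l (j + 1) * (E j - 2 * E (j + 1) + E (j + 2)))
      + ((M:ℝ) + 1) / 2 * (l 0 * E 1) + ((M:ℝ) + 1) / 2 * (l (M + 1) * E M)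
      = ((M:ℝ) + 1) / 2 * (∑ j ∈ range M, E (j + 1) * (l j - 2 * l (j + 1) + l (j + 2))) := by
    rw [← hab]
    ring
  linarith

/-! ### Typed certificates -/

/-- sum of a function of the typed point -/
def linT (n : ℕ) (S : Finset ℤ) (ℓ : Pt → ℝ) : ℝ := ∑ a ∈ S, ℓ (tp n a)

lemma linT_const (n : ℕ) (S : Finset ℤ) (c : ℝ) : linT n S (fun _ => c) = c * S.card := by
  unfold linT
  rw [sum_const, nsmul_eq_mul, mul_comm]

lemma linT_sub (n : ℕ) (S : Finset ℤ) (ℓ ℓ' : Pt → ℝ) :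
    linT n S (fun x => ℓ x - ℓ' x) = linT n S ℓ - linT n S ℓ' := by
  unfold linT
  rw [sum_sub_distrib]

/-- a typed three point certificate for the linear facts `ℓ j ≥ 0`, `j ∈ J` -/
def CertifiedT (n : ℕ) (cE : ℝ) {ιJ : Type} (J : Finset ιJ) (ℓ : ιJ → Pt → ℝ) : Prop :=
  ∃ (g : Pt → ℝ → ℝ) (κ : Pt → ℝ) (m : ℕ) (s : Fin m → Pt → Pt → ℝ) (ν : ιJ → Pt → Pt → ℝ)
    (θ γ : ℝ), (∀ z x, 0 ≤ g z x) ∧ (∀ z, 0 ≤ κ z) ∧ (∀ j ∈ J, ∀ a b, 0 ≤ ν j a b) ∧
    0 < θ ∧ θ ≤ γ ∧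
    (∀ z : Pt, z.In → γ * n ≤ ∑ x ∈ Ico (0 : ℤ) n, g z (pos n x)) ∧
    ∀ a b c : Pt, a.In → b.In → c.In →
      sym6 (FT g κ cE J ν ℓ) a b c + 2 * sq3 univ s a b c ≤ 6 * θ

lemma card_pos_of_maximal {n : ℕ} {A : Finset ℕ} (h : IsMaximalThreeFree n A) (hn : 0 < n) :
    0 < A.card := by
  rcases Nat.eq_zero_or_pos A.card with h0 | h0
  · exfalso
    rw [card_eq_zero] at h0
    subst h0
    have h1 : (1 : ℕ) ∈ Finset.Icc 1 n := by rw [Finset.mem_Icc]; omega
    rcases CE.cover h h1 (by simp) with ⟨a, ha, _⟩ | ⟨a, ha, _⟩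
    · simp at ha
    · simp at ha
  · exact h0

theorem CertifiedT.false {n : ℕ} {A : Finset ℕ} (h : IsMaximalThreeFree n A)
    (hlt : A.card ^ 2 < n) {ιJ : Type} {J : Finset ιJ} {ℓ : ιJ → Pt → ℝ}
    (cert : CertifiedT n (13 / 18) J ℓ) (hJ : ∀ j ∈ J, 0 ≤ linT n (shift A) (ℓ j)) : False := by
  obtain ⟨g, κ, m, s, ν, θ, γ, hg, hκ, hν, hθ, hθγ, hsum, h3⟩ := cert
  have hn : 0 < n := lt_of_le_of_lt (Nat.zero_le _) hlt
  have hCE : (13 / 18 : ℝ) * ((shift A).card : ℝ) ^ 2 ≤ ∑ y ∈ Ico (0 : ℤ) n, lab (shift A) y := by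
    rw [card_shift]
    exact CE.ce_lab h hlt
  have key := three_point_boundT hn (shift A) (fun a ha => shift_bounds h ha) (cov_of_maximal h)
    g hg κ hκ hCE J ν hν ℓ hJ univ s hsum h3
  rw [card_shift] at key
  have hk := card_pos_of_maximal h hn
  have hk' : (0:ℝ) < A.card := by exact_mod_cast hk
  have hn' : (0:ℝ) < n := by exact_mod_cast hn
  have hlt' : (A.card : ℝ) ^ 2 < n := by exact_mod_cast hlt
  have h1 : θ * (A.card : ℝ) ^ 3 < θ * n * A.card := by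
    have h5 : (A.card : ℝ) ^ 2 * (A.card : ℝ) < (n : ℝ) * (A.card : ℝ) :=
      mul_lt_mul_of_pos_right hlt' hk'
    have h6 := mul_lt_mul_of_pos_left h5 hθ
    have e1 : θ * (A.card : ℝ) ^ 3 = θ * ((A.card : ℝ) ^ 2 * (A.card : ℝ)) := by ring
    rw [e1, mul_assoc]
    exact h6
  have h2 : θ * n * A.card ≤ γ * n * A.card :=
    mul_le_mul_of_nonneg_right (mul_le_mul_of_nonneg_right hθγ hn'.le) hk'.le
  linarith

/-- class function: `1` on the class `b` -/
def clsF (b : Bool) (z : Pt) : ℝ := if z.1 = b then 1 else 0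

/-- both classes have share at least `1/3` -/
theorem class_facts {n : ℕ} {A : Finset ℕ} (h : IsMaximalThreeFree n A) (hlt : A.card ^ 2 < n)
    (b : Bool) : (1 / 3 : ℝ) * (shift A).card ≤ linT n (shift A) (clsF b) := by
  have hc := class_third h hlt
  have hinj : ∀ x ∈ A, ∀ y ∈ A, (x : ℤ) - 1 = (y : ℤ) - 1 → x = y := by
    intro x _ y _ hxy
    omega
  have e : linT n (shift A) (clsF b) = ∑ x ∈ A, (if (decide (((x : ℤ) - 1) % 2 = 0)) = b then
      (1:ℝ) else 0) := by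
    unfold linT shift
    rw [sum_image (fun x hx y hy hxy => hinj x hx y hy hxy)]
    rfl
  rw [e, card_shift]
  cases b
  · have e2 : ∑ x ∈ A, (if (decide (((x : ℤ) - 1) % 2 = 0)) = false then (1:ℝ) else 0)
        = ((A.filter (fun x => x % 2 = 0)).card : ℝ) := by
      rw [card_filter]
      push_cast
      refine sum_congr rfl fun x _ => ?_
      by_cases c : x % 2 = 0
      · rw [if_pos c, if_pos (by rw [decide_eq_false_iff_not]; omega)]
      · rw [if_neg c, if_neg (by rw [decide_eq_false_iff_not]; omega)]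
    rw [e2]
    have : (A.card : ℝ) ≤ 3 * ((A.filter (fun x => x % 2 = 0)).card : ℝ) := by exact_mod_cast hc.1
    linarith
  · have e2 : ∑ x ∈ A, (if (decide (((x : ℤ) - 1) % 2 = 0)) = true then (1:ℝ) else 0)
        = ((A.filter (fun x => x % 2 = 1)).card : ℝ) := by
      rw [card_filter]
      push_cast
      refine sum_congr rfl fun x _ => ?_
      by_cases c : x % 2 = 1
      · rw [if_pos c, if_pos (by rw [decide_eq_true_iff]; omega)]
      · rw [if_neg c, if_neg (by rw [decide_eq_true_iff]; omega)]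
    rw [e2]
    have : (A.card : ℝ) ≤ 3 * ((A.filter (fun x => x % 2 = 1)).card : ℝ) := by exact_mod_cast hc.2
    linarith

/-! ### Boxes -/

/-- the linear functions of a box, and the two class facts -/
def boxFunT {m : ℕ} (χ : Fin m → Pt → ℝ) (lo hi : Fin m → ℝ) : (Fin m × Bool) ⊕ Bool → Pt → ℝ
  | .inl j, x => if j.2 then χ j.1 x - lo j.1 else hi j.1 - χ j.1 x
  | .inr b, x => clsF b x - 1 / 3

/-- the shares of a set lie in the box -/
def InBoxT (n : ℕ) (S : Finset ℤ) {m : ℕ} (χ : Fin m → Pt → ℝ) (lo hi : Fin m → ℝ) : Prop :=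
  ∀ j, lo j * S.card ≤ linT n S (χ j) ∧ linT n S (χ j) ≤ hi j * S.card

/-- certificate of a box -/
def BoxCertT (n : ℕ) {m : ℕ} (χ : Fin m → Pt → ℝ) (lo hi : Fin m → ℝ) : Prop :=
  CertifiedT n (13 / 18) univ (boxFunT χ lo hi)

theorem BoxCertT.false {n : ℕ} {A : Finset ℕ} (h : IsMaximalThreeFree n A)
    (hlt : A.card ^ 2 < n) {m : ℕ} {χ : Fin m → Pt → ℝ} {lo hi : Fin m → ℝ}
    (cert : BoxCertT n χ lo hi) (hb : InBoxT n (shift A) χ lo hi) : False := by
  refine CertifiedT.false h hlt cert fun j _ => ?_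
  rcases j with ⟨i, b⟩ | b
  · cases b
    · have e : linT n (shift A) (boxFunT χ lo hi (Sum.inl (i, Bool.false)))
          = hi i * (shift A).card - linT n (shift A) (χ i) := by
        rw [← linT_const n (shift A) (hi i), ← linT_sub]
        rfl
      rw [e]
      linarith [(hb i).2]
    · have e : linT n (shift A) (boxFunT χ lo hi (Sum.inl (i, Bool.true)))
          = linT n (shift A) (χ i) - lo i * (shift A).card := by
        rw [← linT_const n (shift A) (lo i), ← linT_sub]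
        rfl
      rw [e]
      linarith [(hb i).1]
  · have e : linT n (shift A) (boxFunT χ lo hi (.inr b))
        = linT n (shift A) (clsF b) - 1 / 3 * (shift A).card := by
      rw [← linT_const n (shift A) (1 / 3), ← linT_sub]
      rfl
    rw [e]
    linarith [class_facts h hlt b]

/-- splitting a box -/
lemma InBoxT.split {n : ℕ} {S : Finset ℤ} {m : ℕ} {χ : Fin m → Pt → ℝ} {lo hi : Fin m → ℝ}
    (hb : InBoxT n S χ lo hi) (j : Fin m) (c : ℝ) :
    InBoxT n S χ lo (Function.update hi j c) ∨ InBoxT n S χ (Function.update lo j c) hi := by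
  rcases le_total (linT n S (χ j)) (c * S.card) with h | h
  · left
    intro i
    rcases eq_or_ne i j with rfl | hij
    · rw [Function.update_self]
      exact ⟨(hb i).1, h⟩
    · rw [Function.update_of_ne hij]
      exact hb i
  · right
    intro i
    rcases eq_or_ne i j with rfl | hij
    · rw [Function.update_self]
      exact ⟨h, (hb i).2⟩
    · rw [Function.update_of_ne hij]
      exact hb i

/-- certified leaves exclude the root box -/
theorem tree_falseT {n : ℕ} {A : Finset ℕ} (h : IsMaximalThreeFree n A)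
    (hlt : A.card ^ 2 < n) {m : ℕ} {χ : Fin m → Pt → ℝ} (T : BT m) :
    ∀ (lo hi : Fin m → ℚ),
    (∀ b ∈ T.leaves lo hi, BoxCertT n χ (fun i => ((b.1 i : ℚ) : ℝ)) (fun i => ((b.2 i : ℚ) : ℝ))) →
    InBoxT n (shift A) χ (fun i => ((lo i : ℚ) : ℝ)) (fun i => ((hi i : ℚ) : ℝ)) → False := by
  induction T with
  | leaf =>
    intro lo hi hall hb
    exact BoxCertT.false h hlt (hall (lo, hi) (by simp [BT.leaves])) hb
  | node j c l r ihl ihr =>
    intro lo hi hall hb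
    rcases hb.split j (c : ℝ) with h1 | h1
    · refine ihl lo (Function.update hi j c) (fun b hbm => hall b ?_) ?_
      · simp only [BT.leaves, List.mem_append]
        exact Or.inl hbm
      · rw [cast_update]
        exact h1
    · refine ihr (Function.update lo j c) hi (fun b hbm => hall b ?_) ?_
      · simp only [BT.leaves, List.mem_append]
        exact Or.inr hbm
      · rw [cast_update]
        exact h1

/-- ONE FUNCTIONAL, no tree: the share of `χ0` is less than `f` -/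
theorem share_lt {n : ℕ} {A : Finset ℕ} (h : IsMaximalThreeFree n A) (hlt : A.card ^ 2 < n)
    {χ0 : ℝ → ℝ} {f : ℝ}
    (cert : BoxCertT n (fun _ : Fin 1 => fun z : Pt => χ0 z.2) (fun _ => f) (fun _ => 1))
    (hχ : ∀ x, χ0 x ≤ 1) : lin n (shift A) χ0 < f * A.card := by
  by_contra hc
  push Not at hc
  refine BoxCertT.false h hlt cert fun j => ⟨?_, ?_⟩
  · rw [card_shift]
    exact hc
  · rw [one_mul]
    calc linT n (shift A) (fun z : Pt => χ0 z.2) ≤ linT n (shift A) (fun _ => (1:ℝ)) :=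
          sum_le_sum fun a _ => hχ _
      _ = (shift A).card := by rw [linT_const, one_mul]

end

end MP61673a.TP
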