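import Pool.Agent.Mu673.Pts
import Pool.Agent.Mu673.FarBoxT

/-!
TYPED FACTS OF A FRAME. The points carry the parity class of their block; a label has the class of
its block, which is the class of the single element of every pair which covers it (the pair of
blocks `(A,B)` covers exactly the block `2B - A`); midpoints only between equal classes.
-/

namespace MP61673a.Fin

open Finset MP61673a.W MP61673a.LiftW MP61673a.Mids MP61673a.Sos
open MP61673a.Lift hiding PP QQ

noncomputable section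

/-- a typed point: class, side, coordinate -/
abbrev P4 := Bool × P3

/-- the typed point of an element -/
def pt4 (P Q : WS) (cl : P.ι ⊕ Q.ι → Bool) (x : P.ι ⊕ Q.ι) : P4 := (cl x, pt3 P Q x)

/-- sum over the typed points -/
def U1 (P Q : WS) (cl : P.ι ⊕ Q.ι → Bool) (c : P4 → ℝ) : ℝ :=
  ∑ x ∈ st3 P Q, wt3 P Q x * c (pt4 P Q cl x)

/-- sum over the ordered pairs of typed points -/
def U2 (P Q : WS) (cl : P.ι ⊕ Q.ι → Bool) (g : P4 → P4 → ℝ) : ℝ :=
  ∑ x ∈ st3 P Q, ∑ y ∈ st3 P Q, wt3 P Q x * wt3 P Q y * g (pt4 P Q cl x) (pt4 P Q cl y)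

/-- sum over the triples of typed points -/
def U3 (P Q : WS) (cl : P.ι ⊕ Q.ι → Bool) (F : P4 → P4 → P4 → ℝ) : ℝ :=
  tri (st3 P Q) (wt3 P Q) (fun x y z => F (pt4 P Q cl x) (pt4 P Q cl y) (pt4 P Q cl z))

lemma U1_T1 (P Q : WS) (cl : P.ι ⊕ Q.ι → Bool) (c : P3 → ℝ) :
    U1 P Q cl (fun x => c x.2) = T1 P Q c := rfl

lemma U2_T2 (P Q : WS) (cl : P.ι ⊕ Q.ι → Bool) (g : P3 → P3 → ℝ) :
    U2 P Q cl (fun x y => g x.2 y.2) = T2 P Q g := rfl

lemma U3_T3 (P Q : WS) (cl : P.ι ⊕ Q.ι → Bool) (F : P3 → P3 → P3 → ℝ) :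
    U3 P Q cl (fun x y z => F x.2 y.2 z.2) = T3 P Q F := rfl

lemma U1_eq (P Q : WS) (cl : P.ι ⊕ Q.ι → Bool) (c : P4 → ℝ) :
    U1 P Q cl c = ∑ a ∈ P.S, P.f a * c (cl (Sum.inl a), (false, P.u a))
      + ∑ b ∈ Q.S, Q.f b * c (cl (Sum.inr b), (true, Q.u b)) := by
  unfold U1 st3
  rw [sum_disjSum]
  rfl

lemma U2_eq (P Q : WS) (cl : P.ι ⊕ Q.ι → Bool) (g : P4 → P4 → ℝ) :
    U2 P Q cl g = U1 P Q cl (fun x => U1 P Q cl (g x)) := by
  unfold U2 U1
  refine sum_congr rfl fun x _ => ?_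
  rw [mul_sum]
  refine sum_congr rfl fun y _ => ?_
  ring

lemma U3_eq (P Q : WS) (cl : P.ι ⊕ Q.ι → Bool) (F : P4 → P4 → P4 → ℝ) :
    U3 P Q cl F = U1 P Q cl (fun x => U2 P Q cl (F x)) := by
  unfold U3 tri U1 U2
  refine sum_congr rfl fun x _ => ?_
  rw [mul_sum]
  refine sum_congr rfl fun y _ => ?_
  rw [mul_sum]
  refine sum_congr rfl fun z _ => ?_
  ring

/-- the other side, typed -/
def flip4 (x : P4) : P4 := (x.1, flip3 x.2)

lemma U1_swap (P Q : WS) (cl : P.ι ⊕ Q.ι → Bool) (c : P4 → ℝ) :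
    U1 Q P (fun x => cl x.swap) c = U1 P Q cl (fun x => c (flip4 x)) := by
  rw [U1_eq, U1_eq, add_comm]
  rfl

lemma U2_swap (P Q : WS) (cl : P.ι ⊕ Q.ι → Bool) (g : P4 → P4 → ℝ) :
    U2 Q P (fun x => cl x.swap) g = U2 P Q cl (fun x y => g (flip4 x) (flip4 y)) := by
  rw [U2_eq, U2_eq, U1_swap]
  congr 1
  funext x
  exact U1_swap P Q cl _

/-- the classes of the labels alternate in blocks of length `M` -/
def Alt (M : ℤ) (l : ℤ → Bool) : Prop :=
  ∃ (c0 : ℤ) (b : Bool), ∀ s, l s = xor b (decide ((s + c0) / M % 2 = 0))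

/-- typed right coverage kernel: price `γ e s` of the label `s` of class `e`; `G` = majorant for
the midpoints -/
def covRt (D : ℤ) (γ : Bool → ℤ → ℝ) (G : ℤ → ℝ) (y z : P4) : ℝ :=
  gdep D (γ y.1) (rc D y.2 - 2 * rc D z.2)
    + 1 / 2 * (if y.1 = z.1 ∧ (rc D y.2 < 0 ∨ rc D z.2 < 0) then G (-rc D y.2 - rc D z.2) else 0)

/-- typed left coverage kernel -/
def covLt (D : ℤ) (γ : Bool → ℤ → ℝ) (G : ℤ → ℝ) (y z : P4) : ℝ :=
  gdep D (γ y.1) (lc D y.2 - 2 * lc D z.2)
    + 1 / 2 * (if y.1 = z.1 ∧ (lc D y.2 < 0 ∨ lc D z.2 < 0) then G (-lc D y.2 - lc D z.2) else 0)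

/-- TYPED FACTS: `cl` = class of the elements, `lR`, `lL` = classes of the labels -/
structure Typ (P Q : WS) (D E : ℤ) (cl : P.ι ⊕ Q.ι → Bool) (lR lL : ℤ → Bool) : Prop where
  altR : Alt (E + 1) lR
  altL : Alt (E + 1) lL
  share : ∀ b : Bool, 1 / 3 * (mass P + mass Q) ≤ U1 P Q cl (fun x => if x.1 = b then 1 else 0)
  cR : ∀ (γ : Bool → ℤ → ℝ) (H G : ℤ → ℝ), (∀ e s, 0 ≤ s → s < D → 0 ≤ γ e s) →
    (∀ e s, 0 ≤ s → s < D → γ e s ≤ H s) → Maj D E H G →
    ∑ s ∈ Ico 0 D, γ (lR s) s ≤ U2 P Q cl (covRt D γ G)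
  cL : ∀ (γ : Bool → ℤ → ℝ) (H G : ℤ → ℝ), (∀ e s, 0 ≤ s → s < D → 0 ≤ γ e s) →
    (∀ e s, 0 ≤ s → s < D → γ e s ≤ H s) → Maj D E H G →
    ∑ s ∈ Ico 0 D, γ (lL s) s ≤ U2 P Q cl (covLt D γ G)

lemma Typ.symm {P Q : WS} {D E : ℤ} {cl : P.ι ⊕ Q.ι → Bool} {lR lL : ℤ → Bool}
    (h : Typ P Q D E cl lR lL) : Typ Q P D E (fun x => cl x.swap) lL lR where
  altR := h.altL
  altL := h.altR
  share := fun b => by
    rw [U1_swap, add_comm]
    exact h.share b
  cR := fun γ H G h1 h2 h3 => by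
    rw [U2_swap]
    refine (h.cL γ H G h1 h2 h3).trans (le_of_eq ?_)
    congr 1
    funext y z
    unfold covRt covLt flip4
    simp only [rc_flip]
  cL := fun γ H G h1 h2 h3 => by
    rw [U2_swap]
    refine (h.cR γ H G h1 h2 h3).trans (le_of_eq ?_)
    congr 1
    funext y z
    unfold covRt covLt flip4
    simp only [lc_flip]

/-! ### The hybrid frame of a lifted set -/

/-- class of the position `x` -/
def cls (t : ℕ) (x : ℤ) : Bool := decide (x / 4 ^ t % 2 = 0)

/-- classes of the elements of the hybrid frame -/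
def clH (t : ℕ) (A' : Finset ℤ) (D z : ℤ) : (PH A' D z).ι ⊕ (QH A' D z).ι → Bool :=
  Sum.elim (fun x : ℤ => cls t x) (fun x : ℤ => cls t x)

/-- sums of functions of the position -/
lemma U1_frame (t : ℕ) (A' : Finset ℤ) (D z : ℤ) {c : P4 → ℝ} {k : ℤ → ℝ}
    (h1 : ∀ x ∈ A', c (cls t x, (false, x - D)) = k x)
    (h2 : ∀ x ∈ A', c (cls t x, (true, 2 * D - x)) = k x) :
    U1 (PH A' D z) (QH A' D z) (clH t A' D z) c = ∑ x ∈ A', k x := by
  rw [U1_eq]
  change ∑ x ∈ A', cut D x * c (cls t x, (false, x - D))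
    + ∑ x ∈ A', (1 - cut D x) * c (cls t x, (true, 2 * D - x)) = _
  rw [← sum_add_distrib]
  refine sum_congr rfl fun x hx => ?_
  rw [h1 x hx, h2 x hx]
  ring

lemma U2_frame (t : ℕ) (A' : Finset ℤ) (D z : ℤ) {g : P4 → P4 → ℝ} {k : ℤ → ℤ → ℝ}
    (h11 : ∀ x ∈ A', ∀ y ∈ A', g (cls t x, (false, x - D)) (cls t y, (false, y - D)) = k x y)
    (h12 : ∀ x ∈ A', ∀ y ∈ A', g (cls t x, (false, x - D)) (cls t y, (true, 2 * D - y)) = k x y)
    (h21 : ∀ x ∈ A', ∀ y ∈ A', g (cls t x, (true, 2 * D - x)) (cls t y, (false, y - D)) = k x y)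
    (h22 : ∀ x ∈ A', ∀ y ∈ A', g (cls t x, (true, 2 * D - x)) (cls t y, (true, 2 * D - y))
      = k x y) :
    U2 (PH A' D z) (QH A' D z) (clH t A' D z) g = ∑ x ∈ A', ∑ y ∈ A', k x y := by
  rw [U2_eq]
  exact U1_frame t A' D z (fun x hx => U1_frame t A' D z (h11 x hx) (h12 x hx))
    (fun x hx => U1_frame t A' D z (h21 x hx) (h22 x hx))

/-- no carry: the block of `2 b - a` -/
lemma blk_label {A : Finset ℤ} {t : ℕ} {a b : ℤ} (ha : a ∈ liftN t A) (hb : b ∈ liftN t A) :
    (2 * b - a) / 4 ^ t = 2 * (b / 4 ^ t) - a / 4 ^ t := by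
  obtain ⟨α, _, c, hc, rfl⟩ := mem_liftN.1 ha
  obtain ⟨β, _, c', hc', rfl⟩ := mem_liftN.1 hb
  rw [cell hc, cell hc']
  have h1 := dig_mem hc
  have h2 := dig_mem hc'
  have hpos : (0:ℤ) < 4 ^ t := by positivity
  have e : 2 * (4 ^ t * β + c') - (4 ^ t * α + c) = (2 * c' - c) + (2 * β - α) * 4 ^ t := by ring
  rw [e, Int.add_mul_ediv_right _ _ hpos.ne', Int.ediv_eq_zero_of_lt (by linarith) (by linarith)]
  ring

lemma cls_label {A : Finset ℤ} {t : ℕ} {a b : ℤ} (ha : a ∈ liftN t A) (hb : b ∈ liftN t A) :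
    cls t (2 * b - a) = cls t a := by
  unfold cls
  rw [blk_label ha hb]
  have : ((2 * (b / 4 ^ t) - a / 4 ^ t) % 2 = 0) ↔ (a / 4 ^ t % 2 = 0) := by omega
  simp only [this]

/-- symmetric sums: half of everything -/
lemma half_sym (S : Finset ℤ) (Z : ℤ → Prop) [DecidablePred Z] (F : ℤ → ℤ → ℝ)
    (hF : ∀ z w, F z w = F w z) :
    ∑ z ∈ S, (if Z z then ∑ w ∈ S, (if Z w then 1 / 2 else 1) * F z w else 0)
      = ∑ z ∈ S, ∑ w ∈ S, 1 / 2 * (if Z z ∨ Z w then F z w else 0) := by
  have f1 : ∑ b ∈ S, ∑ q ∈ S, 1 / 2 * (if Z b ∧ ¬ Z q then F b q else 0)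
      = ∑ b ∈ S, ∑ q ∈ S, 1 / 2 * (if ¬ Z b ∧ Z q then F b q else 0) := by
    rw [sum_comm]
    refine sum_congr rfl fun b _ => sum_congr rfl fun q _ => ?_
    rw [hF q b]
    have : (if Z q ∧ ¬ Z b then F b q else 0) = (if ¬ Z b ∧ Z q then F b q else 0) :=
      if_congr (by tauto) rfl rfl
    rw [this]
  have f2 : ∑ b ∈ S, ∑ q ∈ S, 1 / 2 * (if Z b ∨ Z q then F b q else 0)
      = ∑ b ∈ S, ∑ q ∈ S, 1 / 2 * (if Z b ∧ Z q then F b q else 0)
      + ∑ b ∈ S, ∑ q ∈ S, 1 / 2 * (if Z b ∧ ¬ Z q then F b q else 0)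
      + ∑ b ∈ S, ∑ q ∈ S, 1 / 2 * (if ¬ Z b ∧ Z q then F b q else 0) := by
    simp only [← sum_add_distrib]
    refine sum_congr rfl fun b _ => sum_congr rfl fun q _ => ?_
    by_cases c1 : Z b <;> by_cases c2 : Z q <;> simp [c1, c2]
  rw [f2, ← f1]
  simp only [← sum_add_distrib]
  refine sum_congr rfl fun b _ => ?_
  by_cases c1 : Z b
  · rw [if_pos c1]
    refine sum_congr rfl fun q _ => ?_
    by_cases c2 : Z q
    · simp only [c1, c2, not_true_eq_false, and_true, and_false, if_true, if_false]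
      ring
    · simp only [c1, c2, not_false_eq_true, and_true, and_false, if_true, if_false]
      ring
  · rw [if_neg c1]
    symm
    refine sum_eq_zero fun q _ => ?_
    simp only [c1, false_and, if_false]
    ring

lemma par_symm {t : ℕ} {z w : ℤ} : par t z w ↔ par t w z := by
  unfold par
  constructor <;> intro h <;> exact ⟨fun e => h.1 e.symm, by have := h.2; omega⟩

lemma cls_of_par {t : ℕ} {z w : ℤ} (h : par t z w) : cls t z = cls t w := by
  unfold cls par at *
  have : (z / 4 ^ t % 2 = 0) ↔ (w / 4 ^ t % 2 = 0) := by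
    have := h.2
    omega
  simp only [this]

/-- typed midpoints, right side -/
lemma mid_typed_R (A : Finset ℤ) (t : ℕ) {D : ℤ} {g G : ℤ → ℝ} (z : ℤ)
    (h0 : ∀ s, 0 ≤ s → s < D → 0 ≤ g s) (hG : Maj D (4 ^ t - 1) g G) :
    ∑ s ∈ Ico 0 D, ind (fun y => Mid A (y / 4 ^ t)) (3 * D - s) * g s
      ≤ U2 (PH (liftN t A) D z) (QH (liftN t A) D z) (clH t (liftN t A) D z)
        (fun y z => 1 / 2 * (if y.1 = z.1 ∧ (rc D y.2 < 0 ∨ rc D z.2 < 0) then
          G (-rc D y.2 - rc D z.2) else 0)) := by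
  refine (midg_right A t D h0 hG).trans ?_
  have e := U2_frame t (liftN t A) D z
    (g := fun y z => 1 / 2 * (if y.1 = z.1 ∧ (rc D y.2 < 0 ∨ rc D z.2 < 0) then
          G (-rc D y.2 - rc D z.2) else 0))
    (k := fun x y => 1 / 2 * (if cls t x = cls t y ∧ (2 * D - x < 0 ∨ 2 * D - y < 0) then
      G (x + y - 4 * D) else 0)) ?_ ?_ ?_ ?_
  · rw [e]
    have h1 : ∀ x ∈ liftN t A, (if 2 * D < x then ∑ w ∈ liftN t A, (if par t x w then
          (if 2 * D < w then (1:ℝ) / 2 else 1) * G (x + w - 4 * D) else 0) else 0)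
        = (if 2 * D < x then ∑ w ∈ liftN t A, (if 2 * D < w then (1:ℝ) / 2 else 1)
          * (if par t x w then G (x + w - 4 * D) else 0) else 0) := by
      intro x _
      split_ifs
      · refine sum_congr rfl fun w _ => ?_
        split_ifs <;> ring
      · rfl
    rw [sum_congr rfl h1, half_sym (liftN t A) (fun x => 2 * D < x)
      (fun x w => if par t x w then G (x + w - 4 * D) else 0)
      (fun z w => by
        rw [show z + w - 4 * D = w + z - 4 * D by ring]
        exact if_congr par_symm rfl rfl)]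
    refine sum_le_sum fun x _ => sum_le_sum fun w _ => ?_
    refine mul_le_mul_of_nonneg_left ?_ (by norm_num)
    have g0 := hG.nonneg (x + w - 4 * D)
    by_cases c1 : 2 * D < x ∨ 2 * D < w
    · rw [if_pos c1]
      by_cases c2 : par t x w
      · rw [if_pos c2, if_pos ⟨cls_of_par c2, by omega⟩]
      · rw [if_neg c2]
        split_ifs
        · exact g0
        · exact le_rfl
    · rw [if_neg c1]
      split_ifs
      · exact g0
      · exact le_rfl
  all_goals
    intro x _ y _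
    unfold rc
    simp only [Bool.false_eq_true, if_false, if_true]
  · rw [show D - (x - D) = 2 * D - x by ring, show D - (y - D) = 2 * D - y by ring,
      show -(2 * D - x) - (2 * D - y) = x + y - 4 * D by ring]
  · rw [show D - (x - D) = 2 * D - x by ring,
      show -(2 * D - x) - (2 * D - y) = x + y - 4 * D by ring]
  · rw [show D - (y - D) = 2 * D - y by ring,
      show -(2 * D - x) - (2 * D - y) = x + y - 4 * D by ring]
  · rw [show -(2 * D - x) - (2 * D - y) = x + y - 4 * D by ring]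

/-- typed midpoints, left side -/
lemma mid_typed_L (A : Finset ℤ) (t : ℕ) {D : ℤ} {g G : ℤ → ℝ} (z : ℤ)
    (h0 : ∀ s, 0 ≤ s → s < D → 0 ≤ g s) (hG : Maj D (4 ^ t - 1) g G) :
    ∑ s ∈ Ico 0 D, ind (fun y => Mid A (y / 4 ^ t)) s * g s
      ≤ U2 (PH (liftN t A) D z) (QH (liftN t A) D z) (clH t (liftN t A) D z)
        (fun y z => 1 / 2 * (if y.1 = z.1 ∧ (lc D y.2 < 0 ∨ lc D z.2 < 0) then
          G (-lc D y.2 - lc D z.2) else 0)) := by
  refine (midg_left A t D h0 hG).trans ?_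
  have e := U2_frame t (liftN t A) D z
    (g := fun y z => 1 / 2 * (if y.1 = z.1 ∧ (lc D y.2 < 0 ∨ lc D z.2 < 0) then
          G (-lc D y.2 - lc D z.2) else 0))
    (k := fun x y => 1 / 2 * (if cls t x = cls t y ∧ (x - D < 0 ∨ y - D < 0) then
      G (2 * D - x - y) else 0)) ?_ ?_ ?_ ?_
  · rw [e]
    have h1 : ∀ x ∈ liftN t A, (if x < D then ∑ w ∈ liftN t A, (if par t x w then
          (if w < D then (1:ℝ) / 2 else 1) * G (2 * D - x - w) else 0) else 0)
        = (if x < D then ∑ w ∈ liftN t A, (if w < D then (1:ℝ) / 2 else 1)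
          * (if par t x w then G (2 * D - x - w) else 0) else 0) := by
      intro x _
      split_ifs
      · refine sum_congr rfl fun w _ => ?_
        split_ifs <;> ring
      · rfl
    rw [sum_congr rfl h1, half_sym (liftN t A) (fun x => x < D)
      (fun x w => if par t x w then G (2 * D - x - w) else 0)
      (fun z w => by
        rw [show 2 * D - z - w = 2 * D - w - z by ring]
        exact if_congr par_symm rfl rfl)]
    refine sum_le_sum fun x _ => sum_le_sum fun w _ => ?_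
    refine mul_le_mul_of_nonneg_left ?_ (by norm_num)
    have g0 := hG.nonneg (2 * D - x - w)
    by_cases c1 : x < D ∨ w < D
    · rw [if_pos c1]
      by_cases c2 : par t x w
      · rw [if_pos c2, if_pos ⟨cls_of_par c2, by omega⟩]
      · rw [if_neg c2]
        split_ifs
        · exact g0
        · exact le_rfl
    · rw [if_neg c1]
      split_ifs
      · exact g0
      · exact le_rfl
  all_goals
    intro x _ y _
    unfold lc
    simp only [Bool.false_eq_true, if_false, if_true]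
  · rw [show -(x - D) - (y - D) = 2 * D - x - y by ring]
  · rw [show D - (2 * D - y) = y - D by ring, show -(x - D) - (y - D) = 2 * D - x - y by ring]
  · rw [show D - (2 * D - x) = x - D by ring, show -(x - D) - (y - D) = 2 * D - x - y by ring]
  · rw [show D - (2 * D - x) = x - D by ring, show D - (2 * D - y) = y - D by ring,
      show -(x - D) - (y - D) = 2 * D - x - y by ring]

/-- the labels of the pairs, typed = untyped, right side -/
lemma pairs_typed_R (A : Finset ℤ) (t : ℕ) (D z : ℤ) (γ : Bool → ℤ → ℝ) :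
    T2 (PH (liftN t A) D z) (QH (liftN t A) D z)
        (fun y z => gdep D (fun s => γ (cls t (3 * D - s)) s) (rc D y - 2 * rc D z))
      = U2 (PH (liftN t A) D z) (QH (liftN t A) D z) (clH t (liftN t A) D z)
        (fun y z => gdep D (γ y.1) (rc D y.2 - 2 * rc D z.2)) := by
  rw [← U2_T2 _ _ (clH t (liftN t A) D z)]
  rw [U2_frame t (liftN t A) D z (k := fun x y => gdep D (γ (cls t x)) (2 * y - x - 2 * D)),
    U2_frame t (liftN t A) D z (k := fun x y => gdep D (γ (cls t x)) (2 * y - x - 2 * D))]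
  all_goals
    intro x hx y hy
    unfold rc
    simp only [Bool.false_eq_true, if_false, if_true]
  · rw [show D - (x - D) - 2 * (D - (y - D)) = 2 * y - x - 2 * D by ring]
  · rw [show D - (x - D) - 2 * (2 * D - y) = 2 * y - x - 2 * D by ring]
  · rw [show 2 * D - x - 2 * (D - (y - D)) = 2 * y - x - 2 * D by ring]
  · rw [show 2 * D - x - 2 * (2 * D - y) = 2 * y - x - 2 * D by ring]
  all_goals
    have e : ∀ j : ℤ, j = 2 * y - x - 2 * D →
        gdep D (fun s => γ (cls t (3 * D - s)) s) j = gdep D (γ (cls t x)) j := by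
      intro j hj
      unfold gdep
      by_cases c : 1 ≤ j ∧ j ≤ D
      · rw [if_pos c, if_pos c]
        beta_reduce
        rw [show 3 * D - (D - j) = 2 * y - x by omega, cls_label hx hy]
      · rw [if_neg c, if_neg c]
  · rw [show D - (x - D) - 2 * (D - (y - D)) = 2 * y - x - 2 * D by ring, e _ rfl]
  · rw [show D - (x - D) - 2 * (2 * D - y) = 2 * y - x - 2 * D by ring, e _ rfl]
  · rw [show 2 * D - x - 2 * (D - (y - D)) = 2 * y - x - 2 * D by ring, e _ rfl]
  · rw [show 2 * D - x - 2 * (2 * D - y) = 2 * y - x - 2 * D by ring, e _ rfl]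

/-- the labels of the pairs, typed = untyped, left side -/
lemma pairs_typed_L (A : Finset ℤ) (t : ℕ) (D z : ℤ) (γ : Bool → ℤ → ℝ) :
    T2 (PH (liftN t A) D z) (QH (liftN t A) D z)
        (fun y z => gdep D (fun s => γ (cls t s) s) (lc D y - 2 * lc D z))
      = U2 (PH (liftN t A) D z) (QH (liftN t A) D z) (clH t (liftN t A) D z)
        (fun y z => gdep D (γ y.1) (lc D y.2 - 2 * lc D z.2)) := by
  rw [← U2_T2 _ _ (clH t (liftN t A) D z)]
  rw [U2_frame t (liftN t A) D z (k := fun x y => gdep D (γ (cls t x)) (x - 2 * y + D)),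
    U2_frame t (liftN t A) D z (k := fun x y => gdep D (γ (cls t x)) (x - 2 * y + D))]
  all_goals
    intro x hx y hy
    unfold lc
    simp only [Bool.false_eq_true, if_false, if_true]
  · rw [show x - D - 2 * (y - D) = x - 2 * y + D by ring]
  · rw [show x - D - 2 * (D - (2 * D - y)) = x - 2 * y + D by ring]
  · rw [show D - (2 * D - x) - 2 * (y - D) = x - 2 * y + D by ring]
  · rw [show D - (2 * D - x) - 2 * (D - (2 * D - y)) = x - 2 * y + D by ring]
  all_goals
    have e : ∀ j : ℤ, j = x - 2 * y + D →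
        gdep D (fun s => γ (cls t s) s) j = gdep D (γ (cls t x)) j := by
      intro j hj
      unfold gdep
      by_cases c : 1 ≤ j ∧ j ≤ D
      · rw [if_pos c, if_pos c]
        beta_reduce
        rw [show D - j = 2 * y - x by omega, cls_label hx hy]
      · rw [if_neg c, if_neg c]
  · rw [show x - D - 2 * (y - D) = x - 2 * y + D by ring, e _ rfl]
  · rw [show x - D - 2 * (D - (2 * D - y)) = x - 2 * y + D by ring, e _ rfl]
  · rw [show D - (2 * D - x) - 2 * (y - D) = x - 2 * y + D by ring, e _ rfl]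
  · rw [show D - (2 * D - x) - 2 * (D - (2 * D - y)) = x - 2 * y + D by ring, e _ rfl]

/-- the left coverage of an environment, with a bound of the midpoints -/
lemma cov2L_aux {P Q : WS} {D K V E N : ℤ} {ξR ξL : ℤ → ℝ} (h : Env P Q D K V E N ξR ξL)
    {g : ℤ → ℝ} (hg : ∀ s, 0 ≤ s → s < D → 0 ≤ g s) {B : ℝ}
    (hB : ∑ s ∈ Ico 0 D, ξL s * g s
      ≤ strayC P (fun τ => ex1g P D V g τ) + strayC Q (fun τ => ex2g Q D g τ) + B) :
    ∑ s ∈ Ico 0 D, g s ≤ T2 P Q (fun y z => gdep D g (lc D y - 2 * lc D z)) + B := by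
  have h1 := cov2_aux h.symm hg hB
  rw [T2_swap] at h1
  simp only [rc_flip] at h1
  exact h1

/-- THE HYBRID FRAME HAS THE TYPED FACTS -/
theorem typ_hyb {n : ℕ} {A : Finset ℕ} (h : IsMaximalThreeFree n A) (hlt : A.card ^ 2 < n)
    (t : ℕ) {D K z : ℤ} (hK : 1 ≤ K) (hD : D = 4 * K + 1) (hz : 0 ≤ z)
    (h1 : 3 * D + 1 ≤ 4 ^ t * (n : ℤ)) (h2 : 4 ^ t * (n : ℤ) ≤ 3 * D + 12)
    (hcov : Cov (liftN t (shift A)) (fun y => Mid (shift A) (y / 4 ^ t)) (3 * D + 1)) :
    Typ (PH (liftN t (shift A)) D z) (QH (liftN t (shift A)) D z) D (4 ^ t - 1)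
      (clH t (liftN t (shift A)) D z) (fun s => cls t (3 * D - s)) (fun s => cls t s) := by
  have henv := env_hyb h hlt t hK hD hz h1 h2 hcov
  have hpos : (0:ℤ) < 4 ^ t := by positivity
  have huP : ∀ a ∈ (PH (liftN t (shift A)) D z).S, (PH (liftN t (shift A)) D z).f a ≠ 0 →
      (PH (liftN t (shift A)) D z).u a ≤ 2 * K := fun (a : ℤ) _ h => leP hD a h
  have huQ : ∀ a ∈ (QH (liftN t (shift A)) D z).S, (QH (liftN t (shift A)) D z).f a ≠ 0 →
      (QH (liftN t (shift A)) D z).u a ≤ 2 * K := fun (a : ℤ) _ h => leQ hD a h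
  refine ⟨?_, ?_, ?_, ?_, ?_⟩
  · -- right labels: `(3 D - s) / M = - ((s + c0) / M)`
    refine ⟨4 ^ t - 1 - 3 * D, false, fun s => ?_⟩
    unfold cls
    rw [Bool.false_xor, sub_add_cancel]
    have e : (3 * D - s) / 4 ^ t = -((s + (4 ^ t - 1 - 3 * D)) / 4 ^ t) := by
      have q := Int.emod_add_mul_ediv (3 * D - s) (4 ^ t)
      have r0 := Int.emod_nonneg (3 * D - s) hpos.ne'
      have r1 := Int.emod_lt_of_pos (3 * D - s) hpos
      have e2 : s + (4 ^ t - 1 - 3 * D)
          = (4 ^ t - 1 - (3 * D - s) % 4 ^ t) + (-((3 * D - s) / 4 ^ t)) * 4 ^ t := by linarith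
      have e3 : (4 ^ t - 1 - (3 * D - s) % 4 ^ t) / 4 ^ t = 0 :=
        Int.ediv_eq_zero_of_lt (by linarith) (by linarith)
      rw [e2, Int.add_mul_ediv_right _ _ hpos.ne', e3]
      ring
    beta_reduce
    rw [e]
    have : ((-((s + (4 ^ t - 1 - 3 * D)) / 4 ^ t)) % 2 = 0)
        ↔ ((s + (4 ^ t - 1 - 3 * D)) / 4 ^ t % 2 = 0) := by omega
    simp only [this]
  · refine ⟨0, false, fun s => ?_⟩
    unfold cls
    rw [Bool.false_xor, sub_add_cancel, add_zero]
  · intro b
    have e := U1_frame t (liftN t (shift A)) D z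
      (c := fun x => if x.1 = b then 1 else 0) (k := fun x => if cls t x = b then 1 else 0)
      (fun _ _ => rfl) (fun _ _ => rfl)
    rw [e, sum_liftN]
    have hm := mass_add (liftN t (shift A)) (cut D) (fun x => if D - z ≤ x then cut D x else 0)
      (fun x => if x ≤ 2 * D + z then 1 - cut D x else 0) D
    rw [card_liftN] at hm
    push_cast at hm
    have e0 : mass (PH (liftN t (shift A)) D z) + mass (QH (liftN t (shift A)) D z)
        = 2 ^ t * (shift A).card := hm
    have e1 : ∀ a ∈ shift A, ∑ c ∈ dig t, (if cls t (4 ^ t * a + c) = b then (1:ℝ) else 0)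
        = 2 ^ t * (if decide (a % 2 = 0) = b then 1 else 0) := by
      intro a _
      have e2 : ∀ c ∈ dig t, (if cls t (4 ^ t * a + c) = b then (1:ℝ) else 0)
          = (if decide (a % 2 = 0) = b then 1 else 0) := by
        intro c hc
        unfold cls
        rw [cell hc]
      rw [sum_congr rfl e2, sum_const, card_dig, nsmul_eq_mul]
      push_cast
      ring
    rw [sum_congr rfl e1, ← mul_sum, e0]
    have cf := MP61673a.TP.class_facts h hlt b
    unfold MP61673a.TP.linT MP61673a.TP.clsF at cf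
    have e3 : ∑ a ∈ shift A, (if (MP61673a.TP.tp n a).1 = b then (1:ℝ) else 0)
        = ∑ a ∈ shift A, (if decide (a % 2 = 0) = b then 1 else 0) := rfl
    rw [e3] at cf
    have := mul_le_mul_of_nonneg_left cf (show (0:ℝ) ≤ 2 ^ t by positivity)
    linarith
  · intro γ H G g0 gH hG
    have hg : ∀ s, 0 ≤ s → s < D → 0 ≤ γ (cls t (3 * D - s)) s := fun s a b => g0 _ s a b
    have hG' : Maj D (4 ^ t - 1) (fun s => γ (cls t (3 * D - s)) s) G := by
      refine ⟨hG.nonneg, fun j j' a b => le_trans (add_le_add ?_ ?_) (hG.maj j j' a b)⟩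
      · unfold gdep
        split_ifs
        · exact gH _ _ (by omega) (by omega)
        · exact le_rfl
      · unfold gdep
        split_ifs
        · exact gH _ _ (by omega) (by omega)
        · exact le_rfl
    have e2 := sum_extraR_g (liftN t (shift A)) D (fun x => if D - z ≤ x then cut D x else 0)
      (fun x => if x ≤ 2 * D + z then 1 - cut D x else 0) (fun s => γ (cls t (3 * D - s)) s)
    have x1 := sum_ex1g hz (dblQ (liftN t (shift A)) D z) D (fun s => γ (cls t (3 * D - s)) s)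
    have x2 := sum_ex2g (Q := PH (liftN t (shift A)) D z) (D := D)
      (fun b hb h => by have := huP b hb h; omega) (fun s => γ (cls t (3 * D - s)) s)
    have y1 := mid_typed_R (shift A) t z hg hG'
    have e : ∑ s ∈ Ico 0 D, xiR (shift A) t D z s * (γ (cls t (3 * D - s)) s)
        = ∑ s ∈ Ico 0 D, (extraR (liftN t (shift A)) (cut D)
          (fun x => if x ≤ 2 * D + z then 1 - cut D x else 0) D s
          + ind (fun y => Mid (shift A) (y / 4 ^ t)) (3 * D - s)) * (γ (cls t (3 * D - s)) s) :=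
      rfl
    have key := cov2_aux henv hg (B := U2 (PH (liftN t (shift A)) D z)
        (QH (liftN t (shift A)) D z) (clH t (liftN t (shift A)) D z)
        (fun y z => 1 / 2 * (if y.1 = z.1 ∧ (rc D y.2 < 0 ∨ rc D z.2 < 0) then
          G (-rc D y.2 - rc D z.2) else 0))) (by
      rw [e]
      simp only [add_mul, sum_add_distrib]
      rw [e2, x1, x2]
      linarith)
    rw [pairs_typed_R] at key
    refine key.trans (le_of_eq ?_)
    unfold U2 covRt
    simp only [← sum_add_distrib]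
    refine sum_congr rfl fun x _ => sum_congr rfl fun y _ => ?_
    ring
  · intro γ H G g0 gH hG
    have hg : ∀ s, 0 ≤ s → s < D → 0 ≤ γ (cls t s) s := fun s a b => g0 _ s a b
    have hG' : Maj D (4 ^ t - 1) (fun s => γ (cls t s) s) G := by
      refine ⟨hG.nonneg, fun j j' a b => le_trans (add_le_add ?_ ?_) (hG.maj j j' a b)⟩
      · unfold gdep
        split_ifs
        · exact gH _ _ (by omega) (by omega)
        · exact le_rfl
      · unfold gdep
        split_ifs
        · exact gH _ _ (by omega) (by omega)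
        · exact le_rfl
    have e2 := sum_extraL_g (liftN t (shift A)) D (fun x => if D - z ≤ x then cut D x else 0)
      (fun x => if x ≤ 2 * D + z then 1 - cut D x else 0) (fun s => γ (cls t s) s)
    have x1 := sum_ex1g hz (dblP (liftN t (shift A)) D z) D (fun s => γ (cls t s) s)
    have x2 := sum_ex2g (Q := QH (liftN t (shift A)) D z) (D := D)
      (fun b hb h => by have := huQ b hb h; omega) (fun s => γ (cls t s) s)
    have y1 := mid_typed_L (shift A) t z hg hG'
    have e : ∑ s ∈ Ico 0 D, xiL (shift A) t D z s * (γ (cls t s) s)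
        = ∑ s ∈ Ico 0 D, (extraL (liftN t (shift A)) (cut D)
          (fun x => if D - z ≤ x then cut D x else 0) s
          + ind (fun y => Mid (shift A) (y / 4 ^ t)) s) * (γ (cls t s) s) := rfl
    have key := cov2L_aux henv hg (B := U2 (PH (liftN t (shift A)) D z)
        (QH (liftN t (shift A)) D z) (clH t (liftN t (shift A)) D z)
        (fun y z => 1 / 2 * (if y.1 = z.1 ∧ (lc D y.2 < 0 ∨ lc D z.2 < 0) then
          G (-lc D y.2 - lc D z.2) else 0))) (by
      rw [e]
      simp only [add_mul, sum_add_distrib]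
      rw [e2, x1, x2]
      linarith)
    rw [pairs_typed_L] at key
    refine key.trans (le_of_eq ?_)
    unfold U2 covLt
    simp only [← sum_add_distrib]
    refine sum_congr rfl fun x _ => sum_congr rfl fun y _ => ?_
    ring

end

end MP61673a.Fin
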