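import Pool.Agent.Mu673.ChargeE
import Pool.Agent.Mu673.EnvOut
import Pool.Agent.Mu673.DchE
import Pool.Agent.Mu673.ChargeE2
import Pool.Agent.Mu673.FarBox
import Pool.Agent.Mu673.Typed
import Pool.Agent.Mu673.OneW

/-!
ASSEMBLY. `EnvS` = one frame with all facts which the pieces may use; `asm_gen` = the reduction of
the theorem to rows for every `EnvS`, symmetric in the two sides (every row is stated for the strays
of `Q` only). `asmE` = the same with the deep labels, the core and the near strays already paid.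
-/

namespace MP61673a.Fin

open Finset MP61673a.W MP61673a.LiftW MP61673a.Mids
open MP61673a.Lift hiding PP QQ

noncomputable section

/-! ### The parameters of the frame -/

/-- shift of the frame, `eps D` with `eps = 1/40` -/
def rhoE (D : ℤ) : ℤ := D / 40

/-- threshold of the doubled roles -/
def zE (D : ℤ) : ℤ := D / 8

/-- the near strays are those of depth `≤ D / 80` -/
def nearE (D : ℤ) : ℤ := D / 80

/-- the constant of the far labels -/
def kapE (K ρ : ℤ) : ℝ := 8 / 5 * ((ρ:ℝ) ^ 2 / K)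

/-- mass at depth at least `c` -/
def farM (P : WS) (c : ℤ) : ℝ := ∑ a ∈ P.S, if P.u a ≤ -c then P.f a else 0

/-- FAR SHARE: at most the share `f` of the mass has depth `≥ (31/120) D` -/
def FarFact (P Q : WS) (D : ℤ) (f : ℝ) : Prop :=
  ∀ c : ℤ, 31 * D ≤ 120 * c → farM P c + farM Q c ≤ f * (mass P + mass Q)

/-- there is a stray of `Q` at depth `τ` -/
def IsStray (Q : WS) (τ : ℤ) : Prop := ∃ b ∈ Q.S, Q.f b ≠ 0 ∧ Q.u b < 0 ∧ τ = -Q.u b

/-- ONE FRAME WITH ALL FACTS, symmetric in the two sides -/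
structure EnvS (K0 : ℤ) (f : ℝ) (P Q : WS) (D K ρ V E N : ℤ) (ξR ξL : ℤ → ℝ) : Prop
    extends Env P Q D K V E N ξR ξL where
  hK0 : K0 ≤ K
  hK1 : 10000 ≤ K
  hN0 : 122 ≤ N
  eρ : ρ = rhoE D
  eV : V = zE D
  out : OutFact P Q D
  far : FarFact P Q D f
  exoR : ∀ x, x ≤ D → ext ξR x ≤ strayC Q (exoA P Q deeper D V E x) + strayC P (exB P D (inS x))
  exoL : ∀ x, x ≤ D → ext ξL x ≤ strayC P (exoA Q P deeper D V E x) + strayC Q (exB Q D (inS x))
  pxR : dd P Q (2 * K + 1 + ρ - 6 * nearE D) ≤ K - ρ + 1 + nn P (1 + ρ) + 1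
  pxL : dd Q P (2 * K + 1 + ρ - 6 * nearE D) ≤ K - ρ + 1 + nn Q (1 + ρ) + 1
  lit : ∀ c : ℤ, 1168 * D ≤ 10000 * c → farM P c + farM Q c ≤ 1 / 20 * (mass P + mass Q)
  ty : ∃ (cl : P.ι ⊕ Q.ι → Bool) (lR lL : ℤ → Bool), Typ P Q D E cl lR lL
  one : OneW P ∧ OneW Q

lemma EnvS.symm {K0 : ℤ} {f : ℝ} {P Q : WS} {D K ρ V E N : ℤ} {ξR ξL : ℤ → ℝ}
    (h : EnvS K0 f P Q D K ρ V E N ξR ξL) : EnvS K0 f Q P D K ρ V E N ξL ξR where
  toEnv := h.toEnv.symm
  hK0 := h.hK0
  hK1 := h.hK1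
  hN0 := h.hN0
  eρ := h.eρ
  eV := h.eV
  out := h.out.symm h.gP h.gQ
  far := fun c hc => by
    rw [add_comm (farM Q c), add_comm (mass Q)]
    exact h.far c hc
  exoR := h.exoL
  exoL := h.exoR
  pxR := h.pxL
  pxL := h.pxR
  lit := fun c hc => by
    rw [add_comm (farM Q c), add_comm (mass Q)]
    exact h.lit c hc
  ty := by
    obtain ⟨cl, lR, lL, ht⟩ := h.ty
    exact ⟨_, _, _, ht.symm⟩
  one := ⟨h.one.2, h.one.1⟩

section basic

variable {K0 : ℤ} {f : ℝ} {P Q : WS} {D K ρ V E N : ℤ} {ξR ξL : ℤ → ℝ}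

lemma EnvS.hρ (h : EnvS K0 f P Q D K ρ V E N ξR ξL) : 1 ≤ ρ := by
  have h1 := h.eρ
  have h2 := h.hD
  have h3 := h.hK1
  unfold rhoE at h1
  omega

lemma EnvS.ρ_lower (h : EnvS K0 f P Q D K ρ V E N ξR ξL) : D - 39 ≤ 40 * ρ := by
  have h1 := h.eρ
  unfold rhoE at h1
  omega

lemma EnvS.ρ_upper (h : EnvS K0 f P Q D K ρ V E N ξR ξL) : 40 * ρ ≤ D := by
  have h1 := h.eρ
  unfold rhoE at h1
  omega

lemma EnvS.hρK (h : EnvS K0 f P Q D K ρ V E N ξR ξL) : 10 * ρ ≤ K := by
  have h1 := h.ρ_upper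
  have h2 := h.hD
  omega

lemma EnvS.V_lower (h : EnvS K0 f P Q D K ρ V E N ξR ξL) : D - 7 ≤ 8 * V := by
  have h1 := h.eV
  unfold zE at h1
  omega

lemma EnvS.V_upper (h : EnvS K0 f P Q D K ρ V E N ξR ξL) : 8 * V ≤ D := by
  have h1 := h.eV
  unfold zE at h1
  omega

lemma EnvS.hρV (h : EnvS K0 f P Q D K ρ V E N ξR ξL) : ρ ≤ V := by
  have h1 := h.ρ_upper
  have h2 := h.V_lower
  have h3 := h.hK1
  have h4 := h.hD
  omega

/-- the block shift is at most `(3 D + 12) / 122` -/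
lemma EnvS.E_upper (h : EnvS K0 f P Q D K ρ V E N ξR ξL) : 122 * (E + 1) ≤ 3 * D + 12 := by
  have h1 := h.hN'
  have h2 := h.hN0
  have h3 := h.hE
  nlinarith

lemma EnvS.hEρ (h : EnvS K0 f P Q D K ρ V E N ξR ξL) : E + 1 ≤ 2 * ρ := by
  have h1 := h.E_upper
  have h2 := h.ρ_lower
  have h3 := h.hK1
  have h4 := h.hD
  omega

lemma EnvS.near_nonneg (h : EnvS K0 f P Q D K ρ V E N ξR ξL) : 0 ≤ nearE D := by
  have h1 := h.hK1
  have h2 := h.hD
  unfold nearE
  omega

lemma near_upper (D : ℤ) : 80 * nearE D ≤ D := by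
  unfold nearE
  omega

lemma near_lower (D : ℤ) : D - 79 ≤ 80 * nearE D := by
  unfold nearE
  omega

/-- the midpoints of the near strays are free -/
lemma EnvS.near_shift (h : EnvS K0 f P Q D K ρ V E N ξR ξL) :
    2 * nearE D + E ≤ 2 * ρ - 1 := by
  have h1 := h.E_upper
  have h2 := h.ρ_lower
  have h3 := h.hK1
  have h4 := h.hD
  have h5 := near_upper D
  omega

lemma EnvS.near_le (h : EnvS K0 f P Q D K ρ V E N ξR ξL) : nearE D ≤ ρ := by
  have h1 := h.near_shift
  have h2 := h.hE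
  omega

lemma EnvS.mass_mul (h : EnvS K0 f P Q D K ρ V E N ξR ξL) :
    mass P * mass Q ≤ 3 * K + 15 / 4 := by
  have h1 := h.hm
  have h2 : (0:ℝ) ≤ E := by exact_mod_cast h.hE
  have h3 : (D:ℝ) = 4 * K + 1 := by exact_mod_cast h.hD
  rw [h3] at h1
  nlinarith [sq_nonneg (mass P - mass Q)]

end basic

/-! ### The bonus of the heavier side -/

/-- bonus of the strays of the heavier side: `h` = excess of its mass, `X` = sum of the weights
over its strays, `B` = budget; the maximum of `λ (h - λ X / B)` over `0 ≤ λ ≤ 1` -/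
def bonus (B h X : ℝ) : ℝ := if 2 * X ≤ h * B then h - X / B else h ^ 2 * B / (4 * X)

/-- the factor of the bonus -/
def bfac (B h X : ℝ) : ℝ := if 2 * X ≤ h * B then 1 else h * B / (2 * X)

lemma bonus_eq {B h X : ℝ} (hB : 0 < B) :
    bfac B h X * (h - bfac B h X * X / B) = bonus B h X := by
  unfold bfac bonus
  split_ifs with c
  · rw [one_mul, one_mul]
  · by_cases hX : X = 0
    · rw [hX]
      simp
    · field_simp
      ring

lemma bfac_nonneg {B h X : ℝ} (hB : 0 < B) (hh : 0 ≤ h) (hX : 0 ≤ X) : 0 ≤ bfac B h X := by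
  unfold bfac
  split_ifs
  · norm_num
  · positivity

lemma bonus_nonneg {B h X : ℝ} (hB : 0 < B) (hX : 0 ≤ X) : 0 ≤ bonus B h X := by
  unfold bonus
  split_ifs with c
  · have : X / B ≤ h := by
      rw [div_le_iff₀ hB]
      linarith
    linarith
  · positivity

/-- every `λ` in `[0,1]` gives a lower bound of the bonus -/
lemma le_bonus {B h X l : ℝ} (hB : 0 < B) (hX : 0 ≤ X) (l1 : l ≤ 1) (hh : 0 ≤ h) :
    l * (h - l * X / B) ≤ bonus B h X := by
  unfold bonus
  split_ifs with c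
  · have e1 : h - X / B - l * (h - l * X / B) = (1 - l) * (h - (1 + l) * X / B) := by
      field_simp
      ring
    have e2 : (1 + l) * X / B ≤ h := by
      rw [div_le_iff₀ hB]
      nlinarith
    nlinarith
  · push Not at c
    have hX0 : 0 < X := by
      rcases lt_or_eq_of_le hX with h0 | h0
      · exact h0
      · rw [← h0] at c
        have := mul_nonneg hh hB.le
        linarith
    rw [le_div_iff₀ (by positivity)]
    have e1 : h ^ 2 * B - l * (h - l * X / B) * (4 * X) = (h * B - 2 * l * X) ^ 2 / B := by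
      field_simp
      ring
    have e2 : 0 ≤ (h * B - 2 * l * X) ^ 2 / B := div_nonneg (sq_nonneg _) hB.le
    linarith

lemma strayC_smul (Q : WS) (l : ℝ) (c : ℤ → ℝ) :
    strayC Q (fun τ => l * c τ) = l * strayC Q c := by
  unfold strayC
  rw [mul_sum]
  refine sum_congr rfl fun b _ => ?_
  split_ifs
  · ring
  · ring

lemma strayC_zero (Q : WS) : strayC Q (fun _ => (0:ℝ)) = 0 := by
  unfold strayC
  exact sum_eq_zero fun b _ => by split_ifs <;> simp

/-! ### The hybrid frame is an `EnvS` -/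

/-- the far share fact, as produced by the certificate -/
def FarCert (n : ℕ) (A : Finset ℕ) (f : ℝ) : Prop :=
  ∃ χ0 : ℝ → ℝ, (∀ x, 0 ≤ χ0 x) ∧ (∀ x, x ≤ 1 / 4 → 1 ≤ χ0 x) ∧ (∀ x, 3 / 4 ≤ x → 1 ≤ χ0 x) ∧
    MP61673a.TP.lin n (shift A) χ0 ≤ f * A.card

/-- the price fact of the frames of one set -/
def PxCert (n : ℕ) (A : Finset ℕ) : Prop :=
  ∀ (t : ℕ) (D K : ℤ), 10 ≤ t → D = 4 * K + 1 → 3 * D + 1 ≤ 4 ^ t * (n : ℤ) →
    4 ^ t * (n : ℤ) ≤ 3 * D + 12 →
    dd (PH (liftN t (shift A)) D (zE D)) (QH (liftN t (shift A)) D (zE D))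
          (2 * K + 1 + rhoE D - 6 * nearE D)
        ≤ K - rhoE D + 1 + nn (PH (liftN t (shift A)) D (zE D)) (1 + rhoE D) + 1 ∧
      dd (QH (liftN t (shift A)) D (zE D)) (PH (liftN t (shift A)) D (zE D))
          (2 * K + 1 + rhoE D - 6 * nearE D)
        ≤ K - rhoE D + 1 + nn (QH (liftN t (shift A)) D (zE D)) (1 + rhoE D) + 1

/-- the light share fact of the frames of one set -/
def LitCert (n : ℕ) (A : Finset ℕ) : Prop :=
  ∀ (t : ℕ) (D c : ℤ), 10 ≤ t → 1168 * D ≤ 10000 * c → 3 * D + 1 ≤ 4 ^ t * (n : ℤ) →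
    4 ^ t * (n : ℤ) ≤ 3 * D + 12 →
    farM (PH (liftN t (shift A)) D (zE D)) c + farM (QH (liftN t (shift A)) D (zE D)) c
      ≤ 1 / 20 * (mass (PH (liftN t (shift A)) D (zE D))
        + mass (QH (liftN t (shift A)) D (zE D)))

theorem envS_hyb {n : ℕ} {A : Finset ℕ} (h : IsMaximalThreeFree n A) (hlt : A.card ^ 2 < n)
    (hn : 122 ≤ n) {K0 : ℤ} {f : ℝ} (hfar : FarCert n A f) (hpx : PxCert n A)
    (hlit : LitCert n A)
    {t : ℕ} (ht : 10 ≤ t) {D K : ℤ} (hK : 10000 ≤ K) (hK0 : K0 ≤ K) (hD : D = 4 * K + 1)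
    (h1 : 3 * D + 1 ≤ 4 ^ t * (n : ℤ)) (h2 : 4 ^ t * (n : ℤ) ≤ 3 * D + 12)
    (hcov : Cov (liftN t (shift A)) (fun y => Mid (shift A) (y / 4 ^ t)) (3 * D + 1)) :
    EnvS K0 f (PH (liftN t (shift A)) D (zE D)) (QH (liftN t (shift A)) D (zE D)) D K (rhoE D)
      (zE D) (4 ^ t - 1) n (xiR (shift A) t D (zE D)) (xiL (shift A) t D (zE D)) where
  toEnv := env_hyb h hlt t (by omega) hD (by unfold zE; omega) h1 h2 hcov
  hK0 := hK0
  hK1 := hK
  hN0 := by exact_mod_cast hn
  eρ := rfl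
  eV := rfl
  out := out_hyb h hlt (by omega) _ (by omega) h1 h2
  far := by
    obtain ⟨χ0, a0, a1, a2, a3⟩ := hfar
    intro c hc
    exact MP61673a.TP.far_frame (by omega) a0 a1 a2 a3 (by omega) hc h1 h2
  exoR := fun x hx => ext_xiR_le (shift A) t deeper_add (by omega) hD (by unfold zE; omega) hx
  exoL := fun x hx => ext_xiL_le (shift A) t deeper_add (by omega) hD (by unfold zE; omega) hx
  pxR := (hpx t D K ht hD h1 h2).1
  pxL := (hpx t D K ht hD h1 h2).2
  lit := fun c hc => hlit t D c ht hc h1 h2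
  ty := ⟨_, _, _, typ_hyb h hlt t (by omega) hD (by unfold zE; omega) h1 h2 hcov⟩
  one := ⟨oneW_PH _ _ _, oneW_QH _ _ _⟩

/-! ### Deep labels and near strays -/

section deep

variable {K0 : ℤ} {f : ℝ} {P Q : WS} {D K ρ V E N : ℤ} {ξR ξL : ℤ → ℝ}

/-- a charge which vanishes on the near strays -/
lemma strayC_near {Q : WS} {c : ℤ → ℝ} {N : ℤ} (h : ∀ τ, 0 ≤ τ → τ ≤ N → c τ = 0) :
    strayC Q c = strayC Q (fun τ => if N < τ then c τ else 0) := by
  unfold strayC
  refine sum_congr rfl fun b _ => ?_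
  beta_reduce
  by_cases c1 : Q.u b < 0
  · rw [if_pos c1, if_pos c1]
    by_cases c2 : N < -Q.u b
    · rw [if_pos c2]
    · rw [if_neg c2, h _ (by omega) (by omega)]
  · rw [if_neg c1, if_neg c1]

/-- the deep charges, for every `EnvS` -/
lemma EnvS.dch_le (h : EnvS K0 f P Q D K ρ V E N ξR ξL) :
    max 0 (ext ξR (D - ρ) - cc P Q 0 - nn Q (D + 1)) * dd Q P (D - ρ + 1)
      + max 0 (ext ξL (D - ρ) - cc Q P 0 - nn P (D + 1)) * dd P Q (D - ρ + 1)
      ≤ strayC Q (fun τ => if nearE D < τ then dchE P Q deeper D ρ V E τ else 0)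
        + strayC P (fun τ => if nearE D < τ then dchE Q P deeper D ρ V E τ else 0) := by
  have hρ := h.hρ
  have b1 := defect_le h.gP h.gQ (h.exoR (D - ρ) (by omega))
  have b2 := defect_le h.gQ h.gP (h.exoL (D - ρ) (by omega))
  have d1 := dd_nonneg h.gP h.gQ (D - ρ + 1)
  have d2 := dd_nonneg h.gQ h.gP (D - ρ + 1)
  have s1 := mul_le_mul_of_nonneg_right b1 d2
  have s2 := mul_le_mul_of_nonneg_right b2 d1
  have t1 : strayC Q (dchE P Q deeper D ρ V E)
      = strayC Q (fun τ => max 0 (exoA P Q deeper D V E (D - ρ) τ - lt P (2 * τ)))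
          * dd Q P (D - ρ + 1)
        + strayC Q (fun τ => max 0 (exB Q D (inS (D - ρ)) τ - lo2 P τ))
          * dd P Q (D - ρ + 1) := by
    unfold dchE
    rw [strayC_add, strayC_mul, strayC_mul]
  have t2 : strayC P (dchE Q P deeper D ρ V E)
      = strayC P (fun τ => max 0 (exoA Q P deeper D V E (D - ρ) τ - lt Q (2 * τ)))
          * dd P Q (D - ρ + 1)
        + strayC P (fun τ => max 0 (exB P D (inS (D - ρ)) τ - lo2 Q τ))
          * dd Q P (D - ρ + 1) := by
    unfold dchE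
    rw [strayC_add, strayC_mul, strayC_mul]
  have hK := h.hK1
  have hD := h.hD
  have hn := h.near_le
  have hs := h.near_shift
  have hE := h.hE
  have hρV := h.hρV
  have near : ∀ {P Q : WS}, Good P → (∀ a ∈ P.S, P.f a ≠ 0 → P.u a ≤ 2 * K) →
      (∀ a ∈ Q.S, Q.f a ≠ 0 → Q.u a ≤ 2 * K) → ∀ τ, 0 ≤ τ → τ ≤ nearE D →
      dchE P Q deeper D ρ V E τ = 0 := by
    intro P Q gP uP uQ τ h0 h1
    exact dchE_near gP (fun a ha hf => by have := uP a ha hf; omega)
      (fun a ha hf => by have := uQ a ha hf; omega) hE (by omega) h0 (by omega) (by omega)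
      (by omega)
  rw [← strayC_near (near h.gP h.uP h.uQ), ← strayC_near (near h.gQ h.uQ h.uP), t1, t2]
  linarith

/-- what a stray pays for the deep labels: near strays a quarter of their `KCE` terms -/
def dstd (P Q : WS) (D K ρ V E τ : ℤ) : ℝ :=
  if τ ≤ nearE D then 1 / 4 * kcN P Q K (K - ρ) ρ τ
  else deepD P Q D K ρ V E (nearE D) (kapE K ρ) τ

/-- DEEP ROW; three quarters of the gains of the core are left over -/
theorem EnvS.deep_row (h : EnvS K0 f P Q D K ρ V E N ξR ξL) :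
    -(strayC Q (dstd P Q D K ρ V E) + strayC P (dstd Q P D K ρ V E)) - 20 * K
        + 3 / 4 * coreGE P Q D K (K - ρ) ρ
      ≤ (deepB P Q D K (K - ρ) ρ + deepB Q P D K (K - ρ) ρ) + coreGE P Q D K (K - ρ) ρ := by
  have hK := h.hK1
  have hρ := h.hρ
  have h10 := h.hρK
  have hρr : (1:ℝ) ≤ ρ := by exact_mod_cast hρ
  have h10r : 10 * (ρ:ℝ) ≤ K := by exact_mod_cast h10
  obtain ⟨c0, c1, c2, c3⟩ := cond10q hρr h10r
  have hE := h.E_upper
  have hD := h.hD
  have hn := h.near_le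
  have key := core_hdeep h.toEnv deeper_add hρ h.near_nonneg hn (by omega) (κ := kapE K ρ)
    (la := 1 / 4) (by norm_num) c0 c1 c2 c3 h.dch_le
  have e : ∀ {P Q : WS} {ξR ξL : ℤ → ℝ}, Env P Q D K V E N ξR ξL →
      strayC Q (fun τ => (if τ ≤ nearE D then 1 / 4 * kcN P Q K (K - ρ) ρ τ else 0)
        + (if nearE D < τ then dchE P Q deeper D ρ V E τ else 0)
        + kapE K ρ * farC P Q deeper D K E (nearE D) τ)
      = strayC Q (dstd P Q D K ρ V E) := by
    intro P Q ξR ξL env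
    congr 1
    funext τ
    unfold dstd deepD
    by_cases c : τ ≤ nearE D
    · rw [if_pos c, if_pos c, if_neg (by omega), farC_near env deeper c (by omega) (by omega)
        (by omega)]
      ring
    · rw [if_neg c, if_neg c, if_pos (by omega)]
      ring
  rw [e h.toEnv, e h.toEnv.symm] at key
  linarith

/-- NEAR ROW from the price fact -/
theorem EnvS.near_row (h : EnvS K0 f P Q D K ρ V E N ξR ξL) {C : ℝ} (hC : 0 ≤ C)
    (hR : dd P Q (2 * K + 1 + ρ - 6 * nearE D) ≤ K - ρ + 1 + nn P (1 + ρ) + C)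
    (hL : dd Q P (2 * K + 1 + ρ - 6 * nearE D) ≤ K - ρ + 1 + nn Q (1 + ρ) + C)
    {lo τ : ℤ} (hlo : 0 ≤ lo) (hlo1 : lo ≤ 1) (h1 : 1 ≤ τ) (h2 : τ ≤ nearE D) :
    kcN P Q K (K - ρ) ρ τ - 2 * C * mass P ≤ netE P Q deeper D K (K - ρ) ρ ρ V E lo τ := by
  have hK := h.hK1
  have hρK := h.hρK
  have hs := h.near_shift
  have hn := h.near_le
  have hV := h.hρV
  have d1 := dd_anti h.gP h.gQ (show 2 * K + 1 + ρ - 6 * nearE D ≤ 2 * K + 1 + ρ - 6 * τ by omega)
  have d2 := dd_anti h.gQ h.gP (show 2 * K + 1 + ρ - 6 * nearE D ≤ 2 * K + 1 + ρ - 6 * τ by omega)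
  have hρ := h.hρ
  exact near_netE_kc h.gP h.gQ hC h.hD (by omega) (by omega) h.uP h.uQ h.hE hlo hlo1 h1
    (by omega) (by omega) (d1.trans hR) (d2.trans hL)

/-- PRICE `≥ 0` from the price fact -/
theorem EnvS.price_ge (h : EnvS K0 f P Q D K ρ V E N ξR ξL) {C : ℝ} (hC : 0 ≤ C)
    (hR : dd P Q (2 * K + 1 + ρ - 6 * nearE D) ≤ K - ρ + 1 + nn P (1 + ρ) + C)
    {s : ℤ} (hs : 0 ≤ s) : -C ≤ priceE P Q D K (K - ρ) ρ s := by
  have hK := h.hK1
  have hD := h.hD
  have hρ := h.hρ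
  have hρK := h.hρK
  have hn := h.near_nonneg
  unfold priceE
  by_cases c : s ≤ 2 * K
  · have d1 := dd_anti h.gP h.gQ (show 2 * K + 1 + ρ - 6 * nearE D ≤ 2 * K + 1 + ρ + 2 * s
      by omega)
    have k1 : kap K (K - ρ) ρ s = K - ρ + 1 := by
      unfold kap
      have e1 : ∀ g ∈ Icc (0:ℤ) (K - ρ), (if s < 2 * K + 1 + ρ + 2 * g then (1:ℝ) else 0) = 1 := by
        intro g hg
        rw [mem_Icc] at hg
        rw [if_pos (by omega)]
      rw [sum_congr rfl e1, sum_const, Int.card_Icc, nsmul_eq_mul, mul_one]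
      have : ((K - ρ + 1 - 0).toNat : ℤ) = K - ρ + 1 := by
        rw [Int.toNat_of_nonneg (by omega)]
        ring
      exact_mod_cast this
    rw [k1, if_pos (by omega), show 2 * max (s - (D - K)) 0 + 1 + ρ = 1 + ρ by
      rw [max_eq_right (by omega)]; ring]
    linarith
  · have d0 : dd P Q (2 * K + 1 + ρ + 2 * s) = 0 := by
      unfold dd
      refine sum_eq_zero fun a ha => sum_eq_zero fun b hb => ?_
      by_cases fa : P.f a = 0
      · rw [fa, zero_mul, ite_self]
      by_cases fb : Q.f b = 0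
      · rw [fb, mul_zero, ite_self]
      have u1 := h.uP a ha fa
      have u2 := h.uQ b hb fb
      rw [if_neg (by omega)]
    have k0 := kap_nonneg K (K - ρ) ρ s
    have n0 := nn_nonneg h.gP (2 * max (s - (D - K)) 0 + 1 + ρ)
    rw [d0]
    split_ifs <;> linarith

end deep

/-! ### Rows -/

/-- a function of the environment and of the depth: `P Q D K ρ V E τ` -/
abbrev EF := WS → WS → ℤ → ℤ → ℤ → ℤ → ℤ → ℤ → ℝ

/-- a function of the environment, the depth and the label: `P Q D K ρ V E τ s` -/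
abbrev EK := WS → WS → ℤ → ℤ → ℤ → ℤ → ℤ → ℤ → ℤ → ℝ

/-- nothing -/
def e0 : EF := fun _ _ _ _ _ _ _ _ => 0

/-- no waste -/
def k0 : EK := fun _ _ _ _ _ _ _ _ _ => 0

/-- the waste given to a stray of `Q` at depth `τ` -/
def wshare (k k' : EK) (P Q : WS) (D K ρ V E : ℤ) (ξR ξL : ℤ → ℝ) (τ : ℤ) : ℝ :=
  ∑ s ∈ Ico 0 D, (exc P Q D ξR s * k P Q D K ρ V E τ s + exc Q P D ξL s * k' P Q D K ρ V E τ s)

/-- THE ROW of a stray of `Q` at depth `τ > D/80`: its net pays the deep labels, minus its shares of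
the core gains (`r`) and of the waste (`k`, `k'`); on the heavier side it gets the bonus, too -/
def RowE (c r : EF) (k k' : EK) (C : ℝ) (P Q : WS) (D K ρ V E : ℤ) (ξR ξL : ℤ → ℝ) (lo τ : ℤ) :
    Prop :=
  (mass Q ≤ mass P →
    deepD P Q D K ρ V E (nearE D) (kapE K ρ) τ - r P Q D K ρ V E τ
        - wshare k k' P Q D K ρ V E ξR ξL τ - C * K
      ≤ netE P Q deeper D K (K - ρ) ρ ρ V E lo τ) ∧
  (mass P ≤ mass Q →
    deepD P Q D K ρ V E (nearE D) (kapE K ρ) τ - r P Q D K ρ V E τ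
        - wshare k k' P Q D K ρ V E ξR ξL τ
        - c P Q D K ρ V E τ * bonus (budgetE P Q K ρ) (mass Q - mass P)
            (strayC Q (c P Q D K ρ V E)) - C * K
      ≤ netE P Q deeper D K (K - ρ) ρ ρ V E lo τ)

/-- the row without weights -/
lemma demand_light {P Q : WS} {D : ℤ} (B h : ℝ) (d : ℤ → ℝ) (κ κ' : ℤ → ℤ → ℝ)
    (eR eL : ℤ → ℝ) (τ : ℤ) :
    demand P Q D B h (fun _ => 0) d (fun _ _ => 0) (fun _ _ => 0) κ κ' eR eL τ
      = d τ - ∑ s ∈ Ico 0 D, (eR s * κ τ s + eL s * κ' τ s) := by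
  unfold demand
  have h1 : strayC Q (fun τ' => (0:ℝ) - 0) = 0 := by simpa using strayC_zero Q
  have h2 : strayC P (fun _ => (0:ℝ)) = 0 := strayC_zero P
  simp only [h1, h2]
  ring

/-- the row with weights -/
lemma demand_heavy {P Q : WS} {D : ℤ} {B e : ℝ} (hB : 0 < B) (c d : ℤ → ℝ)
    (κ κ' : ℤ → ℤ → ℝ) (eR eL : ℤ → ℝ) (τ : ℤ) :
    demand P Q D B (-e) (fun τ => bfac B e (strayC Q c) * c τ) d (fun _ _ => 0) (fun _ _ => 0)
        κ κ' eR eL τ
      = d τ - c τ * bonus B e (strayC Q c)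
        - ∑ s ∈ Ico 0 D, (eR s * κ τ s + eL s * κ' τ s) := by
  unfold demand
  have h1 : strayC Q (fun τ' => (0:ℝ) - 0) = 0 := by simpa using strayC_zero Q
  have h2 : strayC P (fun _ => (0:ℝ)) = 0 := strayC_zero P
  simp only [h1, h2, strayC_smul]
  rw [← bonus_eq hB]
  ring

/-- what all strays pay together -/
def dall (r : EF) (P Q : WS) (D K ρ V E τ : ℤ) : ℝ :=
  dstd P Q D K ρ V E τ - (if nearE D < τ then r P Q D K ρ V E τ else 0)

/-- waste coefficients only for the strays beyond the near threshold -/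
def offN (k : EK) : EK := fun P Q D K ρ V E τ s =>
  if nearE D < τ then k P Q D K ρ V E τ s else 0

/-- a row for every stray -/
lemma all_rows {K0 : ℤ} {f : ℝ} {P Q : WS} {D K ρ V E N : ℤ} {ξR ξL : ℤ → ℝ}
    (env : EnvS K0 f P Q D K ρ V E N ξR ξL) {c r : EF} {k k' : EK} {C : ℝ} (hC : 0 ≤ C)
    (hc : ∀ τ, 0 ≤ c P Q D K ρ V E τ)
    (hR : dd P Q (2 * K + 1 + ρ - 6 * nearE D)
      ≤ K - ρ + 1 + nn P (1 + ρ) + C * (mass P + mass Q + 1))
    (hL : dd Q P (2 * K + 1 + ρ - 6 * nearE D)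
      ≤ K - ρ + 1 + nn Q (1 + ρ) + C * (mass P + mass Q + 1))
    {lo τ : ℤ} (hlo : 0 ≤ lo) (hlo1 : lo ≤ 1) (hst : IsStray Q τ)
    (hrow : nearE D < τ → RowE c r k k' C P Q D K ρ V E ξR ξL lo τ) :
    (mass Q ≤ mass P →
      dall r P Q D K ρ V E τ - wshare (offN k) (offN k') P Q D K ρ V E ξR ξL τ - 60 * C * K
        ≤ netE P Q deeper D K (K - ρ) ρ ρ V E lo τ) ∧
    (mass P ≤ mass Q →
      dall r P Q D K ρ V E τ - wshare (offN k) (offN k') P Q D K ρ V E ξR ξL τ
          - c P Q D K ρ V E τ * bonus (budgetE P Q K ρ) (mass Q - mass P)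
              (strayC Q (c P Q D K ρ V E)) - 60 * C * K
        ≤ netE P Q deeper D K (K - ρ) ρ ρ V E lo τ) := by
  obtain ⟨b, hb, hf, hu, hτ⟩ := id hst
  have hK : (10000:ℝ) ≤ K := by exact_mod_cast env.hK1
  have hCK : 0 ≤ C * K := mul_nonneg hC (by linarith)
  have mP := mass_nonneg env.gP
  have mQ := mass_nonneg env.gQ
  by_cases c1 : τ ≤ nearE D
  · have hmm : (mass P + mass Q + 1) * mass P ≤ 30 * K := by
      have h1 := env.hm
      have h2 : (0:ℝ) ≤ E := by exact_mod_cast env.hE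
      have h3 : (D:ℝ) = 4 * K + 1 := by exact_mod_cast env.hD
      rw [h3] at h1
      nlinarith
    have r1 := env.near_row (C := C * (mass P + mass Q + 1)) (by positivity) hR hL hlo hlo1
      (show 1 ≤ τ by omega) c1
    have r2 : 2 * (C * (mass P + mass Q + 1)) * mass P ≤ 60 * C * K := by
      have := mul_le_mul_of_nonneg_left hmm (show 0 ≤ 2 * C by linarith)
      linarith
    have kc := kcN_nonneg env.gP env.gQ K (K - ρ) ρ τ
    have ed : dall r P Q D K ρ V E τ = 1 / 4 * kcN P Q K (K - ρ) ρ τ := by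
      unfold dall dstd
      rw [if_pos c1, if_neg (by omega), sub_zero]
    have ew : wshare (offN k) (offN k') P Q D K ρ V E ξR ξL τ = 0 := by
      unfold wshare offN
      refine sum_eq_zero fun s _ => ?_
      rw [if_neg (by omega), if_neg (by omega)]
      ring
    have hB : 0 < budgetE P Q K ρ := by
      unfold budgetE
      have nP := nn_nonneg env.gP (1 + ρ)
      have nQ := nn_nonneg env.gQ (1 + ρ)
      have e1 : ((10 * ρ : ℤ) : ℝ) ≤ K := by exact_mod_cast env.hρK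
      push_cast at e1
      linarith
    have b0 : 0 ≤ c P Q D K ρ V E τ * bonus (budgetE P Q K ρ) (mass Q - mass P)
        (strayC Q (c P Q D K ρ V E)) :=
      mul_nonneg (hc τ) (bonus_nonneg hB (strayC_nonneg env.gQ hc))
    rw [ed, ew]
    exact ⟨fun _ => by linarith, fun _ => by linarith⟩
  · have rr := hrow (by omega)
    have ed : dall r P Q D K ρ V E τ
        = deepD P Q D K ρ V E (nearE D) (kapE K ρ) τ - r P Q D K ρ V E τ := by
      unfold dall dstd
      rw [if_neg c1, if_pos (by omega)]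
    have ew : wshare (offN k) (offN k') P Q D K ρ V E ξR ξL τ
        = wshare k k' P Q D K ρ V E ξR ξL τ := by
      unfold wshare offN
      refine sum_congr rfl fun s _ => ?_
      rw [if_pos (by omega), if_pos (by omega)]
    unfold RowE at rr
    rw [ed, ew]
    exact ⟨fun hle => by linarith [rr.1 hle], fun hle => by linarith [rr.2 hle]⟩

/-! ### Assembly -/

/-- ASSEMBLY. `n ≤ |A|²` for one `n ≥ 122` and one `A`, from
* `hfar`: the far share fact,
* `hPxi`: the price fact,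
* `hres`: the core gains given to the strays (`r`) are at most `3/4` of the core gains,
* `hwaste`: the waste given to the strays is at most the price,
* `hrow`: the rows of the strays of depth `> D/80`,
for every `EnvS` (both orientations of the frame, strays of `Q` only). -/
theorem asmE {n : ℕ} {A : Finset ℕ} (h : IsMaximalThreeFree n A) (hn : 122 ≤ n)
    {K0 : ℤ} {f C : ℝ} (hC : 0 ≤ C) (hfar : A.card ^ 2 < n → FarCert n A f)
    (hpx : A.card ^ 2 < n → PxCert n A) (hlit : A.card ^ 2 < n → LitCert n A)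
    (c r : EF) (k k' : EK)
    (hc : ∀ {P Q : WS} {D K ρ V E : ℤ} {ξR ξL : ℤ → ℝ}, EnvS K0 f P Q D K ρ V E n ξR ξL →
      ∀ τ, 0 ≤ c P Q D K ρ V E τ)
    (hPxi : ∀ {P Q : WS} {D K ρ V E : ℤ} {ξR ξL : ℤ → ℝ}, EnvS K0 f P Q D K ρ V E n ξR ξL →
      dd P Q (2 * K + 1 + ρ - 6 * nearE D)
        ≤ K - ρ + 1 + nn P (1 + ρ) + C * (mass P + mass Q + 1))
    (hres : ∀ {P Q : WS} {D K ρ V E : ℤ} {ξR ξL : ℤ → ℝ}, EnvS K0 f P Q D K ρ V E n ξR ξL →
      strayC Q (fun τ => if nearE D < τ then r P Q D K ρ V E τ else 0)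
          + strayC P (fun τ => if nearE D < τ then r Q P D K ρ V E τ else 0)
        ≤ 3 / 4 * coreGE P Q D K (K - ρ) ρ + C * K * (mass P + mass Q + 1))
    (hwaste : ∀ {P Q : WS} {D K ρ V E : ℤ} {ξR ξL : ℤ → ℝ}, EnvS K0 f P Q D K ρ V E n ξR ξL →
      ∀ s, 0 ≤ s → s < D →
        strayC Q (fun τ => if nearE D < τ then k P Q D K ρ V E τ s else 0)
            + strayC P (fun τ => if nearE D < τ then k' Q P D K ρ V E τ s else 0)
          ≤ priceE P Q D K (K - ρ) ρ s + C * (mass P + mass Q + 1))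
    (hrow : ∀ {P Q : WS} {D K ρ V E : ℤ} {ξR ξL : ℤ → ℝ}, EnvS K0 f P Q D K ρ V E n ξR ξL →
      ∀ lo τ : ℤ, 0 ≤ lo → lo ≤ 1 → nearE D < τ → IsStray Q τ →
        RowE c r k k' C P Q D K ρ V E ξR ξL lo τ) :
    n ≤ A.card ^ 2 := by
  have hCA : 0 ≤ (60 * C + 20) * (A.card + 1) := by positivity
  refine finish_chargeE h hCA (max 10 (max K0 10000).toNat) deeper_add (by omega) ?_
  intro hlt t ht D K hK hD h1 h2 hcov
  have ht3 : 10 ≤ t := (le_max_left _ _).trans ht
  have htK : (max K0 10000).toNat ≤ t := (le_max_right _ _).trans ht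
  have h4t : (t:ℤ) < 4 ^ t := by
    have := Nat.lt_pow_self (n := t) (show 1 < 4 by norm_num)
    exact_mod_cast this
  have hn' : (122:ℤ) ≤ n := by exact_mod_cast hn
  have hKt : (t:ℤ) ≤ K := by
    have e1 : 122 * (4:ℤ) ^ t ≤ 4 ^ t * n := by
      rw [mul_comm (122:ℤ)]
      exact mul_le_mul_of_nonneg_left hn' (by positivity)
    have e3 : (5:ℤ) ≤ t := by exact_mod_cast ((show 5 ≤ 10 by norm_num).trans ht3)
    omega
  have hmax : max K0 10000 ≤ (t:ℤ) := by
    have := Int.self_le_toNat (max K0 10000)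
    have h5 : (((max K0 10000).toNat : ℕ) : ℤ) ≤ t := by exact_mod_cast htK
    linarith
  have hK0 : K0 ≤ K := (le_max_left _ _).trans (hmax.trans hKt)
  have hK1 : 10000 ≤ K := (le_max_right _ _).trans (hmax.trans hKt)
  have henv := envS_hyb (K0 := K0) h hlt hn (hfar hlt) (hpx hlt) (hlit hlt) ht3 hK1 hK0 hD h1 h2 hcov
  have hm := mass_add (liftN t (shift A)) (cut D) (fun x => if D - zE D ≤ x then cut D x else 0)
    (fun x => if x ≤ 2 * D + zE D then 1 - cut D x else 0) D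
  rw [card_liftN, card_shift] at hm
  push_cast at hm
  refine ⟨rhoE D, zE D, henv.hρ, by have := henv.hρK; omega, henv.hV, ?_⟩
  rintro P Q hP hQ eR eL rfl rfl
  have env : EnvS K0 f P Q D K (rhoE D) (zE D) (4 ^ t - 1) n (xiR (shift A) t D (zE D))
      (xiL (shift A) t D (zE D)) := by
    rw [hP, hQ]
    exact henv
  have hmass : mass P + mass Q = 2 ^ t * (A.card : ℝ) := by
    rw [hP, hQ]
    exact hm
  have t2 : (1:ℝ) ≤ 2 ^ t := one_le_pow₀ (by norm_num)
  have hK2 : (0:ℝ) ≤ K := by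
    have : (0:ℤ) ≤ K := by omega
    exact_mod_cast this
  have hCK : 60 * C * K ≤ (60 * C + 20) * (A.card + 1) * K := by
    have e1 : 0 ≤ (60 * C + 20) * (A.card : ℝ) * K := by positivity
    linarith
  have em : mass P + mass Q + 1 ≤ (A.card + 1) * 2 ^ t := by
    rw [hmass]
    linarith
  have hdp := env.deep_row
  have hrs := hres env
  have herrd : C * K * (mass P + mass Q + 1) + 20 * K
      ≤ (60 * C + 20) * (A.card + 1) * K * 2 ^ t := by
    have e1 := mul_le_mul_of_nonneg_left em (mul_nonneg hC hK2)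
    have e2 : 20 * K ≤ 20 * (A.card + 1) * K * (2:ℝ) ^ t := by
      have a1 : (1:ℝ) ≤ (A.card + 1) * 2 ^ t := by nlinarith [Nat.cast_nonneg (α := ℝ) A.card]
      nlinarith
    have e3 : 0 ≤ 59 * C * (A.card + 1) * K * (2:ℝ) ^ t := by positivity
    linarith
  have herrw : C * (mass P + mass Q + 1) ≤ (60 * C + 20) * (A.card + 1) * 2 ^ t := by
    have e1 := mul_le_mul_of_nonneg_left em hC
    have e3 : 0 ≤ (59 * C + 20) * (A.card + 1) * (2:ℝ) ^ t := by positivity
    linarith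
  have hB : 0 < budgetE P Q K (rhoE D) := by
    unfold budgetE
    have nP := nn_nonneg env.gP (1 + rhoE D)
    have nQ := nn_nonneg env.gQ (1 + rhoE D)
    have e1 : ((10 * rhoE D : ℤ) : ℝ) ≤ K := by exact_mod_cast env.hρK
    push_cast at e1
    linarith
  have hcQ := strayC_nonneg env.gQ (hc env)
  have hcP := strayC_nonneg env.gP (hc env.symm)
  have sym : budgetE Q P K (rhoE D) = budgetE P Q K (rhoE D) := by
    unfold budgetE
    ring
  have z0 : ∀ Q : WS, 0 ≤ strayC Q (fun _ => (0:ℝ)) := fun Q => (strayC_zero Q).ge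
  have hxR := hPxi env
  have hxL := hPxi env.symm
  rw [add_comm (mass Q)] at hxL
  have rowQ := fun {lo τ : ℤ} (a1 : 0 ≤ lo) (a2 : lo ≤ 1) (a3 : IsStray Q τ) =>
    all_rows env hC (hc env) hxR hxL a1 a2 a3 (fun a4 => hrow env lo τ a1 a2 a4 a3)
  have rowP := fun {lo τ : ℤ} (a1 : 0 ≤ lo) (a2 : lo ≤ 1) (a3 : IsStray P τ) =>
    all_rows env.symm hC (hc env.symm) (by rw [add_comm (mass Q)]; exact hxL)
      (by rw [add_comm (mass Q)]; exact hxR) a1 a2 a3
      (fun a4 => hrow env.symm lo τ a1 a2 a4 a3)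
  have hd : -(strayC Q (dall r P Q D K (rhoE D) (zE D) (4 ^ t - 1))
        + strayC P (dall r Q P D K (rhoE D) (zE D) (4 ^ t - 1)))
      - (60 * C + 20) * (A.card + 1) * K * 2 ^ t
      ≤ (deepB P Q D K (K - rhoE D) (rhoE D) + deepB Q P D K (K - rhoE D) (rhoE D))
        + coreGE P Q D K (K - rhoE D) (rhoE D) := by
    have e1 : ∀ P Q : WS, strayC Q (dall r P Q D K (rhoE D) (zE D) (4 ^ t - 1))
        = strayC Q (dstd P Q D K (rhoE D) (zE D) (4 ^ t - 1))
          - strayC Q (fun τ => if nearE D < τ then r P Q D K (rhoE D) (zE D) (4 ^ t - 1) τ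
              else 0) := by
      intro P Q
      rw [← strayC_sub]
      rfl
    rw [e1, e1]
    linarith
  have w0 : ∀ (P Q : WS) (ξR ξL : ℤ → ℝ) (τ : ℤ),
      ∑ s ∈ Ico 0 D, (exc Q P D ξL s * offN k Q P D K (rhoE D) (zE D) (4 ^ t - 1) τ s
          + exc P Q D ξR s * offN k' Q P D K (rhoE D) (zE D) (4 ^ t - 1) τ s)
        = ∑ s ∈ Ico 0 D, (exc P Q D ξR s * offN k' Q P D K (rhoE D) (zE D) (4 ^ t - 1) τ s
          + exc Q P D ξL s * offN k Q P D K (rhoE D) (zE D) (4 ^ t - 1) τ s) :=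
    fun _ _ _ _ _ => sum_congr rfl fun s _ => add_comm _ _
  have ef0 : (fun τ τ' : ℤ => -((fun _ _ => (0:ℝ)) : ℤ → ℤ → ℝ) τ' τ) = fun _ _ => (0:ℝ) := by
    funext x y
    simp
  -- the two cases
  rcases le_total (mass Q) (mass P) with hle | hle
  · refine ⟨fun _ => 0, fun τ => bfac (budgetE P Q K (rhoE D)) (mass P - mass Q)
        (strayC P (c Q P D K (rhoE D) (zE D) (4 ^ t - 1))) * c Q P D K (rhoE D) (zE D) (4 ^ t - 1) τ,
      dall r P Q D K (rhoE D) (zE D) (4 ^ t - 1), dall r Q P D K (rhoE D) (zE D) (4 ^ t - 1),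
      fun _ => 0, fun _ => 0, fun _ _ => 0, fun _ _ => 0, fun _ _ => 0,
      offN k P Q D K (rhoE D) (zE D) (4 ^ t - 1), offN k' P Q D K (rhoE D) (zE D) (4 ^ t - 1),
      offN k' Q P D K (rhoE D) (zE D) (4 ^ t - 1), offN k Q P D K (rhoE D) (zE D) (4 ^ t - 1),
      z0 Q, ?_, ?_, ?_, ?_, ?_, ?_⟩
    · rw [strayC_smul]
      exact mul_nonneg (bfac_nonneg hB (by linarith) hcP) hcP
    · simp only [mul_zero, add_zero, sum_const_zero, sub_zero]
      linarith
    · intro s hs0 hs1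
      have := hwaste env s hs0 hs1
      unfold offN
      linarith
    · intro s hs0 hs1
      have := hwaste env.symm s hs0 hs1
      unfold offN
      linarith
    · intro b hb hf hu
      have r := (rowQ le_rfl (by norm_num) ⟨b, hb, hf, hu, rfl⟩).1 hle
      rw [demand_light]
      unfold wshare at r
      linarith
    · intro a ha hf hu
      have r := (rowP (by norm_num) le_rfl ⟨a, ha, hf, hu, rfl⟩).2 hle
      rw [ef0, demand_heavy hB]
      unfold wshare at r
      rw [sym, w0] at r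
      linarith
  · have eh : mass P - mass Q = -(mass Q - mass P) := by ring
    refine ⟨fun τ => bfac (budgetE P Q K (rhoE D)) (mass Q - mass P)
        (strayC Q (c P Q D K (rhoE D) (zE D) (4 ^ t - 1))) * c P Q D K (rhoE D) (zE D) (4 ^ t - 1) τ,
      fun _ => 0,
      dall r P Q D K (rhoE D) (zE D) (4 ^ t - 1), dall r Q P D K (rhoE D) (zE D) (4 ^ t - 1),
      fun _ => 0, fun _ => 0, fun _ _ => 0, fun _ _ => 0, fun _ _ => 0,
      offN k P Q D K (rhoE D) (zE D) (4 ^ t - 1), offN k' P Q D K (rhoE D) (zE D) (4 ^ t - 1),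
      offN k' Q P D K (rhoE D) (zE D) (4 ^ t - 1), offN k Q P D K (rhoE D) (zE D) (4 ^ t - 1),
      ?_, z0 P, ?_, ?_, ?_, ?_, ?_⟩
    · rw [strayC_smul]
      exact mul_nonneg (bfac_nonneg hB (by linarith) hcQ) hcQ
    · simp only [mul_zero, add_zero, sum_const_zero, sub_zero]
      linarith
    · intro s hs0 hs1
      have := hwaste env s hs0 hs1
      unfold offN
      linarith
    · intro s hs0 hs1
      have := hwaste env.symm s hs0 hs1
      unfold offN
      linarith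
    · intro b hb hf hu
      have r := (rowQ le_rfl (by norm_num) ⟨b, hb, hf, hu, rfl⟩).2 hle
      rw [eh, demand_heavy hB]
      unfold wshare at r
      linarith
    · intro a ha hf hu
      have r := (rowP (by norm_num) le_rfl ⟨a, ha, hf, hu, rfl⟩).1 hle
      rw [ef0, demand_light]
      unfold wshare at r
      rw [w0] at r
      linarith

/-! ### Special schemes -/

/-- SIMPLEST ASSEMBLY: far share, price fact, and `deepD - C K ≤ net` for every stray beyond `D/80`,
whatever the sign of the imbalance -/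
theorem asmE_plain {n : ℕ} {A : Finset ℕ} (h : IsMaximalThreeFree n A) (hn : 122 ≤ n)
    {K0 : ℤ} {f C : ℝ} (hC : 0 ≤ C) (hfar : A.card ^ 2 < n → FarCert n A f)
    (hpx : A.card ^ 2 < n → PxCert n A) (hlit : A.card ^ 2 < n → LitCert n A)
    (hPxi : ∀ {P Q : WS} {D K ρ V E : ℤ} {ξR ξL : ℤ → ℝ}, EnvS K0 f P Q D K ρ V E n ξR ξL →
      dd P Q (2 * K + 1 + ρ - 6 * nearE D)
        ≤ K - ρ + 1 + nn P (1 + ρ) + C * (mass P + mass Q + 1))
    (hrow : ∀ {P Q : WS} {D K ρ V E : ℤ} {ξR ξL : ℤ → ℝ}, EnvS K0 f P Q D K ρ V E n ξR ξL →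
      ∀ lo τ : ℤ, 0 ≤ lo → lo ≤ 1 → nearE D < τ → IsStray Q τ →
        deepD P Q D K ρ V E (nearE D) (kapE K ρ) τ - C * K
          ≤ netE P Q deeper D K (K - ρ) ρ ρ V E lo τ) :
    n ≤ A.card ^ 2 := by
  have z2 : ∀ (Q : WS) (D : ℤ), strayC Q (fun τ => if nearE D < τ then (0:ℝ) else 0) = 0 := by
    intro Q D
    simpa using strayC_zero Q
  refine asmE h hn hC hfar hpx hlit e0 e0 k0 k0 (fun _ _ => le_rfl) hPxi ?_ ?_ ?_
  · intro P Q D K ρ V E ξR ξL env
    unfold e0
    rw [z2, z2]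
    have h1 := coreGE_nonneg env.gP env.gQ D K (K - ρ) ρ
    have h2 := mass_nonneg env.gP
    have h3 := mass_nonneg env.gQ
    have h4 : (0:ℝ) ≤ K := by
      have := env.hK1
      exact_mod_cast (show (0:ℤ) ≤ K by omega)
    have h5 : 0 ≤ C * K * (mass P + mass Q + 1) := by positivity
    linarith
  · intro P Q D K ρ V E ξR ξL env s h0 h1
    unfold k0
    rw [z2, z2]
    have h2 := mass_nonneg env.gP
    have h3 := mass_nonneg env.gQ
    have h4 := env.price_ge (C := C * (mass P + mass Q + 1)) (by positivity) (hPxi env) h0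
    linarith
  · intro P Q D K ρ V E ξR ξL env lo τ h1 h2 h3 h4
    have r := hrow env lo τ h1 h2 h3 h4
    have ew : wshare k0 k0 P Q D K ρ V E ξR ξL τ = 0 := by
      unfold wshare k0
      exact sum_eq_zero fun s _ => by ring
    unfold RowE
    rw [ew]
    unfold e0
    exact ⟨fun _ => by linarith, fun _ => by linarith⟩

/-- weights of the plan of record: `0` near, `N_P` for doubled strays, `T + N_P` for the others -/
def cstd : EF := fun P _ D K ρ V _ τ =>
  if τ ≤ nearE D then 0 else if τ ≤ V then nn P (1 + ρ) else (K - ρ + 1) + nn P (1 + ρ)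

lemma cstd_nonneg {K0 : ℤ} {f : ℝ} {P Q : WS} {D K ρ V E N : ℤ} {ξR ξL : ℤ → ℝ}
    (h : EnvS K0 f P Q D K ρ V E N ξR ξL) (τ : ℤ) : 0 ≤ cstd P Q D K ρ V E τ := by
  unfold cstd
  have h1 := nn_nonneg h.gP (1 + ρ)
  have h2 := h.hρK
  have h3 := h.hρ
  have h4 : (ρ:ℝ) ≤ K := by exact_mod_cast (show ρ ≤ K by omega)
  split_ifs
  · exact le_rfl
  · exact h1
  · linarith

/-- larger `K0`, smaller `f`: more is known -/
lemma EnvS.weaken {K0 K1 : ℤ} {f f' : ℝ} {P Q : WS} {D K ρ V E N : ℤ} {ξR ξL : ℤ → ℝ}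
    (h : EnvS K1 f P Q D K ρ V E N ξR ξL) (hK : K0 ≤ K1) (hf : f ≤ f') :
    EnvS K0 f' P Q D K ρ V E N ξR ξL where
  toEnv := h.toEnv
  hK0 := hK.trans h.hK0
  hK1 := h.hK1
  hN0 := h.hN0
  eρ := h.eρ
  eV := h.eV
  out := h.out
  far := fun c hc => (h.far c hc).trans
    (mul_le_mul_of_nonneg_right hf (add_nonneg (mass_nonneg h.gP) (mass_nonneg h.gQ)))
  exoR := h.exoR
  exoL := h.exoL
  pxR := h.pxR
  pxL := h.pxL
  lit := h.lit
  ty := h.ty
  one := h.one

/-- a row with a smaller error constant -/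
lemma RowE.mono {c r : EF} {k k' : EK} {C C' : ℝ} {P Q : WS} {D K ρ V E : ℤ} {ξR ξL : ℤ → ℝ}
    {lo τ : ℤ} (h : RowE c r k k' C P Q D K ρ V E ξR ξL lo τ) (hC : C ≤ C') (hK : 0 ≤ K) :
    RowE c r k k' C' P Q D K ρ V E ξR ξL lo τ := by
  have e1 : C * K ≤ C' * K := mul_le_mul_of_nonneg_right hC (by exact_mod_cast hK)
  unfold RowE at h ⊢
  exact ⟨fun hle => by linarith [h.1 hle], fun hle => by linarith [h.2 hle]⟩

/-! ### Resources for the strays beyond `V`: left over waste and core gains -/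

/-- mass of the strays of `Q` beyond `V` -/
def outM (Q : WS) (V : ℤ) : ℝ := strayC Q (fun τ => if V < τ then 1 else 0)

lemma strayC_outM (Q : WS) (V : ℤ) (w : ℝ) :
    strayC Q (fun τ => if V < τ then w else 0) = w * outM Q V := by
  unfold outM
  rw [← strayC_smul]
  congr 1
  funext τ
  split_ifs <;> ring

/-- share of the core gains for the strays beyond `V` -/
def rres : EF := fun P Q D K ρ V _ τ =>
  if V < τ then 3 / 4 * coreGE P Q D K (K - ρ) ρ / (outM P V + outM Q V) else 0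

/-- waste coefficient on the own side: `k` for the doubled strays, the rest of the price, divided
by the mass of the strays beyond `V`, for the others -/
def kres (k k' : EK) : EK := fun P Q D K ρ V E τ s =>
  if τ ≤ V then k P Q D K ρ V E τ s else
    (priceE P Q D K (K - ρ) ρ s
      - strayC Q (fun τ => if nearE D < τ ∧ τ ≤ V then k P Q D K ρ V E τ s else 0)
      - strayC P (fun τ => if nearE D < τ ∧ τ ≤ V then k' Q P D K ρ V E τ s else 0))
    / (outM P V + outM Q V)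

/-- waste coefficient on the other side -/
def kres' (k k' : EK) : EK := fun P Q D K ρ V E τ s =>
  if τ ≤ V then k' P Q D K ρ V E τ s else
    (priceE Q P D K (K - ρ) ρ s
      - strayC P (fun τ => if nearE D < τ ∧ τ ≤ V then k Q P D K ρ V E τ s else 0)
      - strayC Q (fun τ => if nearE D < τ ∧ τ ≤ V then k' P Q D K ρ V E τ s else 0))
    / (outM P V + outM Q V)

/-- ASSEMBLY with the left over waste and `3/4` of the core gains for the strays beyond `V` -/
theorem asmE_res {n : ℕ} {A : Finset ℕ} (h : IsMaximalThreeFree n A) (hn : 122 ≤ n)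
    {K0 : ℤ} {f C : ℝ} (hC : 0 ≤ C) (hfar : A.card ^ 2 < n → FarCert n A f)
    (hpx : A.card ^ 2 < n → PxCert n A) (hlit : A.card ^ 2 < n → LitCert n A)
    (c : EF) (k k' : EK)
    (hc : ∀ {P Q : WS} {D K ρ V E : ℤ} {ξR ξL : ℤ → ℝ}, EnvS K0 f P Q D K ρ V E n ξR ξL →
      ∀ τ, 0 ≤ c P Q D K ρ V E τ)
    (hPxi : ∀ {P Q : WS} {D K ρ V E : ℤ} {ξR ξL : ℤ → ℝ}, EnvS K0 f P Q D K ρ V E n ξR ξL →
      dd P Q (2 * K + 1 + ρ - 6 * nearE D)
        ≤ K - ρ + 1 + nn P (1 + ρ) + C * (mass P + mass Q + 1))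
    (hwaste : ∀ {P Q : WS} {D K ρ V E : ℤ} {ξR ξL : ℤ → ℝ}, EnvS K0 f P Q D K ρ V E n ξR ξL →
      ∀ s, 0 ≤ s → s < D →
        strayC Q (fun τ => if nearE D < τ ∧ τ ≤ V then k P Q D K ρ V E τ s else 0)
            + strayC P (fun τ => if nearE D < τ ∧ τ ≤ V then k' Q P D K ρ V E τ s else 0)
          ≤ priceE P Q D K (K - ρ) ρ s + C * (mass P + mass Q + 1))
    (hrow : ∀ {P Q : WS} {D K ρ V E : ℤ} {ξR ξL : ℤ → ℝ}, EnvS K0 f P Q D K ρ V E n ξR ξL →
      ∀ lo τ : ℤ, 0 ≤ lo → lo ≤ 1 → nearE D < τ → IsStray Q τ →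
        RowE c rres (kres k k') (kres' k k') C P Q D K ρ V E ξR ξL lo τ) :
    n ≤ A.card ^ 2 := by
  refine asmE h hn hC hfar hpx hlit c rres (kres k k') (kres' k k') hc hPxi ?_ ?_ hrow
  · intro P Q D K ρ V E ξR ξL env
    have hNV : nearE D ≤ V := env.near_le.trans env.hρV
    have hG := coreGE_nonneg env.gP env.gQ D K (K - ρ) ρ
    have sG : coreGE Q P D K (K - ρ) ρ = coreGE P Q D K (K - ρ) ρ := by
      unfold coreGE
      have e1 : corePE Q P K (K - ρ) ρ ρ = corePE P Q K (K - ρ) ρ ρ := by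
        unfold corePE
        rw [sum_comm]
        refine sum_congr rfl fun a _ => sum_congr rfl fun b _ => ?_
        by_cases c : 0 ≤ P.u a ∧ 0 ≤ Q.u b
        · rw [if_pos c, if_pos ⟨c.2, c.1⟩]
          ring
        · rw [if_neg c, if_neg (fun h => c ⟨h.2, h.1⟩)]
      rw [e1]
      ring
    have h2 := mass_nonneg env.gP
    have h3 := mass_nonneg env.gQ
    have h4 : (0:ℝ) ≤ K := by
      have := env.hK1
      exact_mod_cast (show (0:ℤ) ≤ K by omega)
    have h5 : 0 ≤ C * K * (mass P + mass Q + 1) := by positivity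
    have e1 : ∀ P Q : WS,
        strayC Q (fun τ => if nearE D < τ then rres P Q D K ρ V E τ else 0)
        = 3 / 4 * coreGE P Q D K (K - ρ) ρ / (outM P V + outM Q V) * outM Q V := by
      intro P Q
      rw [← strayC_outM]
      congr 1
      funext τ
      unfold rres
      by_cases c1 : V < τ
      · simp only [if_pos c1, if_pos (show nearE D < τ by omega)]
      · simp only [if_neg c1, ite_self]
    rw [e1 P Q, e1 Q P, sG, add_comm (outM Q V)]
    by_cases ho : outM P V + outM Q V = 0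
    · rw [ho, div_zero, zero_mul, zero_mul]
      linarith
    · have : 3 / 4 * coreGE P Q D K (K - ρ) ρ / (outM P V + outM Q V) * outM Q V
          + 3 / 4 * coreGE P Q D K (K - ρ) ρ / (outM P V + outM Q V) * outM P V
          = 3 / 4 * coreGE P Q D K (K - ρ) ρ := by
        field_simp
        ring
      linarith
  · intro P Q D K ρ V E ξR ξL env s h0 h1
    have hw := hwaste env s h0 h1
    have hNV : nearE D ≤ V := env.near_le.trans env.hρV
    set uQ := strayC Q (fun τ => if nearE D < τ ∧ τ ≤ V then k P Q D K ρ V E τ s else 0) with huQ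
    set uP := strayC P (fun τ => if nearE D < τ ∧ τ ≤ V then k' Q P D K ρ V E τ s else 0) with huP
    set w := (priceE P Q D K (K - ρ) ρ s - uQ - uP) / (outM P V + outM Q V) with hw'
    have e1 : strayC Q (fun τ => if nearE D < τ then kres k k' P Q D K ρ V E τ s else 0)
        = uQ + w * outM Q V := by
      rw [← strayC_outM, huQ, ← strayC_add]
      congr 1
      funext τ
      unfold kres
      by_cases c1 : nearE D < τ
      · by_cases c2 : τ ≤ V
        · rw [if_pos c1, if_pos c2, if_pos ⟨c1, c2⟩, if_neg (by omega)]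
          ring
        · rw [if_pos c1, if_neg c2, if_neg (fun h => c2 h.2), if_pos (by omega), zero_add]
      · rw [if_neg c1, if_neg (fun h => c1 h.1), if_neg (by omega)]
        ring
    have e2 : strayC P (fun τ => if nearE D < τ then kres' k k' Q P D K ρ V E τ s else 0)
        = uP + w * outM P V := by
      rw [← strayC_outM, huP, ← strayC_add]
      congr 1
      funext τ
      unfold kres'
      by_cases c1 : nearE D < τ
      · by_cases c2 : τ ≤ V
        · rw [if_pos c1, if_pos c2, if_pos ⟨c1, c2⟩, if_neg (by omega)]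
          ring
        · rw [if_pos c1, if_neg c2, if_neg (fun h => c2 h.2), if_pos (by omega), zero_add,
            add_comm (outM Q V), ← huQ, ← huP, hw']
      · rw [if_neg c1, if_neg (fun h => c1 h.1), if_neg (by omega)]
        ring
    rw [e1, e2]
    have hm1 := mass_nonneg env.gP
    have hm2 := mass_nonneg env.gQ
    have hCm : 0 ≤ C * (mass P + mass Q + 1) := by positivity
    by_cases ho : outM P V + outM Q V = 0
    · have : w * outM Q V + w * outM P V = w * (outM P V + outM Q V) := by ring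
      rw [ho, mul_zero] at this
      linarith
    · have : w * outM Q V + w * outM P V = priceE P Q D K (K - ρ) ρ s - uQ - uP := by
        rw [hw']
        field_simp
        ring
      linarith

end

end MP61673a.Fin
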