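import Pool.Agent.Mu673.DeepS

/-!
ASSEMBLY WITH THE STRIP TRICK (helper82): all strays of depth `≤ ρ = D/40` are near strays, for
every `n ≥ 122`; rows are needed for the depths `> D/40` only.
-/

namespace MP61673a.Fin

open Finset MP61673a.W MP61673a.LiftW MP61673a.Mids
open MP61673a.Lift hiding PP QQ

noncomputable section

/-! ### Deep charges, coverage up to the depth `ρ + w` -/

lemma deeper_nonneg (x y : ℤ) : 0 ≤ deeper x y := by
  unfold deeper
  split_ifs <;> norm_num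

lemma exA_mono {Q : WS} (hQ : Good Q) (D V : ℤ) {g g' : ℤ → ℝ} (h : ∀ s, g s ≤ g' s) (t : ℤ) :
    exA Q D V g t ≤ exA Q D V g' t := by
  unfold exA
  split_ifs
  · refine sum_le_sum fun q hq => mul_le_mul_of_nonneg_left ?_ (hQ.f_nonneg q hq)
    split_ifs
    · exact h _
    · exact le_rfl
  · exact le_rfl

lemma exB_mono {Q : WS} (hQ : Good Q) (D : ℤ) {g g' : ℤ → ℝ} (h : ∀ s, g s ≤ g' s) (t : ℤ) :
    exB Q D g t ≤ exB Q D g' t := by
  unfold exB
  refine sum_le_sum fun q hq => mul_le_mul_of_nonneg_left ?_ (hQ.f_nonneg q hq)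
  split_ifs
  · exact h _
  · exact le_rfl

lemma inS_le {x x' : ℤ} (h : x ≤ x') (s : ℤ) : inS x s ≤ inS x' s := by
  unfold inS
  by_cases c : s < x
  · rw [if_pos c, if_pos (by omega)]
  · rw [if_neg c]
    split_ifs <;> norm_num

lemma inD_le {j j' : ℤ} (h : j ≤ j') (s : ℤ) : inD j' s ≤ inD j s := by
  unfold inD
  by_cases c : j' < s
  · rw [if_pos c, if_pos (by omega)]
  · rw [if_neg c]
    split_ifs <;> norm_num

lemma exoA_mono {P Q : WS} (hP : Good P) (hQ : Good Q) {ω : ℤ → ℤ → ℝ} (hω : ∀ x y, 0 ≤ ω x y)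
    (D V E : ℤ) {x x' : ℤ} (h : x ≤ x') (t : ℤ) :
    exoA P Q ω D V E x t ≤ exoA P Q ω D V E x' t := by
  unfold exoA midN
  have h1 := mid_le_mid hP hQ hω D 0 (inD_le (show D - x' ≤ D - x by omega)) t
  have h2 := mid_le_mid hP hQ hω D E (inD_le (show D - x' ≤ D - x by omega)) t
  have h3 := exA_mono hQ D V (inS_le h) t
  linarith

section deepS

variable {K0 : ℤ} {f : ℝ} {P Q : WS} {D K ρ V E N : ℤ} {ξR ξL : ℤ → ℝ}

/-- the deep charges with the coverage up to the depth `ρ + E / 2`: the strays of depth `≤ ρ` have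
none -/
lemma EnvS.dch_leS (h : EnvS K0 f P Q D K ρ V E N ξR ξL) :
    max 0 (ext ξR (D - (ρ + E / 2)) - cc P Q 0 - nn Q (D + 1)) * dd Q P (D - ρ + 1)
      + max 0 (ext ξL (D - (ρ + E / 2)) - cc Q P 0 - nn P (D + 1)) * dd P Q (D - ρ + 1)
      ≤ strayC Q (fun τ => if ρ < τ then dchE P Q deeper D ρ V E τ else 0)
        + strayC P (fun τ => if ρ < τ then dchE Q P deeper D ρ V E τ else 0) := by
  have hρ := h.hρ
  have hE := h.hE
  have hK := h.hK1
  have hD := h.hD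
  have hρV := h.hρV
  have h10 := h.hρK
  have b1 := defect_le (ρ := ρ + E / 2) h.gP h.gQ (h.exoR (D - (ρ + E / 2)) (by omega))
  have b2 := defect_le (ρ := ρ + E / 2) h.gQ h.gP (h.exoL (D - (ρ + E / 2)) (by omega))
  have d1 := dd_nonneg h.gP h.gQ (D - ρ + 1)
  have d2 := dd_nonneg h.gQ h.gP (D - ρ + 1)
  have s1 := mul_le_mul_of_nonneg_right b1 d2
  have s2 := mul_le_mul_of_nonneg_right b2 d1
  -- per stray
  have key : ∀ {P Q : WS} {ξR ξL : ℤ → ℝ}, EnvS K0 f P Q D K ρ V E N ξR ξL →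
      strayC Q (fun τ => max 0 (exoA P Q deeper D V E (D - (ρ + E / 2)) τ - lt P (2 * τ)))
          * dd Q P (D - ρ + 1)
        + strayC Q (fun τ => max 0 (exB Q D (inS (D - (ρ + E / 2))) τ - lo2 P τ))
          * dd P Q (D - ρ + 1)
      ≤ strayC Q (fun τ => if ρ < τ then dchE P Q deeper D ρ V E τ else 0) := by
    intro P Q ξR ξL h
    have d1 := dd_nonneg h.gP h.gQ (D - ρ + 1)
    have d2 := dd_nonneg h.gQ h.gP (D - ρ + 1)
    rw [← strayC_mul, ← strayC_mul, ← strayC_add]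
    refine strayC_mono h.gQ fun b hb hf hu => ?_
    have l0 := lt_nonneg h.gP (2 * -Q.u b)
    have l1 := lo2_nonneg h.gP (-Q.u b)
    have uP2 : ∀ a ∈ P.S, P.f a ≠ 0 → 2 * P.u a ≤ D := fun a ha hf => by
      have := h.uP a ha hf
      omega
    by_cases c : ρ < -Q.u b
    · rw [if_pos c]
      unfold dchE
      have m1 := exoA_mono h.gP h.gQ deeper_nonneg D V E
        (show D - (ρ + E / 2) ≤ D - ρ by omega) (-Q.u b)
      have m2 := exB_mono h.gQ D (inS_le (show D - (ρ + E / 2) ≤ D - ρ by omega)) (-Q.u b)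
      have e1 : max 0 (exoA P Q deeper D V E (D - (ρ + E / 2)) (-Q.u b) - lt P (2 * -Q.u b))
          ≤ max 0 (exoA P Q deeper D V E (D - ρ) (-Q.u b) - lt P (2 * -Q.u b)) :=
        max_le_max le_rfl (by linarith)
      have e2 : max 0 (exB Q D (inS (D - (ρ + E / 2))) (-Q.u b) - lo2 P (-Q.u b))
          ≤ max 0 (exB Q D (inS (D - ρ)) (-Q.u b) - lo2 P (-Q.u b)) :=
        max_le_max le_rfl (by linarith)
      exact add_le_add (mul_le_mul_of_nonneg_right e1 d2) (mul_le_mul_of_nonneg_right e2 d1)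
    · rw [if_neg c]
      have h1 : exoA P Q deeper D V E (D - (ρ + E / 2)) (-Q.u b) = 0 := by
        unfold exoA exA
        rw [show D - (D - (ρ + E / 2)) = ρ + E / 2 by ring,
          midN_near uP2 hE (by omega) (by omega) (by omega), if_neg (by omega), add_zero]
      have h2 : exB Q D (inS (D - (ρ + E / 2))) (-Q.u b) = 0 := by
        unfold exB
        refine sum_eq_zero fun q hq => ?_
        by_cases hf : Q.f q = 0
        · rw [hf, zero_mul]
        · have := h.uQ q hq hf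
          unfold inS
          rw [if_neg (show ¬ 2 * D - 2 * Q.u q - -Q.u b < D - (ρ + E / 2) by omega)]
          simp
      rw [h1, h2, max_eq_left (by linarith), max_eq_left (by linarith)]
      simp
  have k1 := key h
  have k2 := key h.symm
  linarith

end deepS

/-! ### Core-deep with the strip -/

/-- CORE-DEEP with the coverage up to the depth `ρ + w`, ready for `finish_chargeS` -/
theorem core_hdeepS {P Q : WS} {D K V E M : ℤ} {ξR ξL : ℤ → ℝ} (h : Env P Q D K V E M ξR ξL)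
    {ω : ℤ → ℤ → ℝ} (hω : ∀ x y, ω x y + ω y x = 1) {ρ r w N : ℤ}
    (hρ : 1 ≤ ρ) (hN0 : 0 ≤ N) (hN : N ≤ ρ) (hρr : ρ ≤ r) (h6 : 6 * r ≤ K)
    (hw : 0 ≤ w) (hw2 : ρ + w ≤ K) (hr : 3 * (ρ:ℝ) + 2 * w - E / 2 ≤ 3 * r)
    {κ la : ℝ} (hla : 0 < la)
    (hκ : 0 < κ) (hC1 : 9 / 16 * (r:ℝ) ^ 2 ≤ κ * (K - 4 * r))
    (hC2 : (3 * (3 * (K:ℝ) + 15 / 4) - 6 * la * (K - 4 * r)) ^ 2 * (r:ℝ) ^ 2
      ≤ 8 * κ * (K - 4 * r) * (3 * K + 15 / 4) ^ 2)
    (hC3 : κ * (3 * K + 15 / 4) ≤ 24 * la ^ 2 * r * (K - 4 * r))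
    {chR chL : ℤ → ℝ}
    (hch : max 0 (W.ext ξR (D - (ρ + w)) - cc P Q 0 - nn Q (D + 1)) * dd Q P (D - ρ + 1)
        + max 0 (W.ext ξL (D - (ρ + w)) - cc Q P 0 - nn P (D + 1)) * dd P Q (D - ρ + 1)
      ≤ strayC Q chR + strayC P chL) :
    -(strayC Q (fun τ => (if τ ≤ N then la * kcN P Q K (K - ρ) ρ τ else 0) + chR τ
          + κ * farC P Q ω D K E N τ)
        + strayC P (fun τ => (if τ ≤ N then la * kcN Q P K (K - ρ) ρ τ else 0) + chL τ
          + κ * farC Q P ω D K E N τ)) - 20 * K + (1 - la) * coreGE P Q D K (K - ρ) ρ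
      ≤ deepB P Q D K (K - ρ) ρ + deepB Q P D K (K - ρ) ρ + coreGE P Q D K (K - ρ) ρ := by
  have hD := h.hD
  have hK := h.hK
  set G : ℤ → ℝ := fun X => if 2 * (D - K) - E < X ∧ X ≤ 2 * (D - 0) + E ∧ 0 < X + E
        then 1 else 0 with hG
  set g : ℤ → ℝ := fun s => if 0 ≤ s ∧ s < K then 1 else 0 with hg
  have G0 : ∀ x, 0 ≤ G x := fun x => by rw [hG]; beta_reduce; split_ifs <;> norm_num
  have g0 : ∀ x, 0 ≤ g x := fun x => by rw [hg]; beta_reduce; split_ifs <;> norm_num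
  set yL : ℝ := strayC Q (fun τ => if N < τ then farS P K τ else 0)
      + strayC P (fun τ => if N < τ then farD Q K τ else 0) + nn P (D + 1 - K)
      + W.ext ξL K with hyL
  set yR : ℝ := strayC P (fun τ => if N < τ then farS Q K τ else 0)
      + strayC Q (fun τ => if N < τ then farD P K τ else 0) + nn Q (D + 1 - K)
      + W.ext ξR K with hyR
  have e0 : ∀ ξ : ℤ → ℝ, (∀ s, 0 ≤ ξ s) → 0 ≤ W.ext ξ K := fun ξ hξ =>
    sum_nonneg fun s _ => hξ s
  have yL0 : 0 ≤ yL := by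
    have a1 := strayC_nonneg h.gQ (c := fun τ => if N < τ then farS P K τ else 0)
      (fun t => ite_nonneg' (farS_nonneg h.gP K t))
    have a2 := strayC_nonneg h.gP (c := fun τ => if N < τ then farD Q K τ else 0)
      (fun t => ite_nonneg' (farD_nonneg h.gQ K t))
    have a3 := nn_nonneg h.gP (D + 1 - K)
    have a4 := e0 ξL h.nL
    linarith
  have yR0 : 0 ≤ yR := by
    have a1 := strayC_nonneg h.gP (c := fun τ => if N < τ then farS Q K τ else 0)
      (fun t => ite_nonneg' (farS_nonneg h.gQ K t))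
    have a2 := strayC_nonneg h.gQ (c := fun τ => if N < τ then farD P K τ else 0)
      (fun t => ite_nonneg' (farD_nonneg h.gP K t))
    have a3 := nn_nonneg h.gQ (D + 1 - K)
    have a4 := e0 ξR h.nR
    linarith
  have hE0 : (0:ℝ) ≤ E := by exact_mod_cast h.hE
  have hm : mass P * mass Q + (E:ℝ) / 4 ≤ 3 * K + 15 / 4 := by
    have h1 := h.hm
    have h2 : (D:ℝ) = 4 * K + 1 := by exact_mod_cast hD
    nlinarith [sq_nonneg (mass P - mass Q)]
  have main := core_deepS h.gP h.gQ hD hρ hN0 hN hρr h6 hw hw2 hr h.uP h.uQ h.cR h.cL hE0 hm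
    hla hκ hC1 hC2 hC3
    yL0 yR0 (fun v hv hvK => cover_far h.gP h.gQ hN0 h.cL h.nL (by omega) hv hvK)
    (fun v hv hvK => cover_far h.gQ h.gP hN0 h.cR h.nR (by omega) hv hvK)
  have xR := ext_far h hω
  have xL := ext_far h.symm hω
  have hy : yL + yR ≤ strayC Q (farC P Q ω D K E N) + strayC P (farC Q P ω D K E N) := by
    have s1 : ∀ P Q : WS, strayC Q (farC P Q ω D K E N)
        = strayC Q (fun τ => if N < τ then farS P K τ else 0)
          + strayC Q (fun τ => if N < τ then farD P K τ else 0)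
          + strayC Q (fun τ => farQ Q D K τ + midg P Q D G ω τ) + strayC Q (ex2g Q D g) := by
      intro P Q
      rw [← strayC_add', ← strayC_add', ← strayC_add']
      congr 1
      funext τ
      unfold farC
      split_ifs <;> ring
    rw [s1, s1]
    linarith
  have c1 := coreN_eq (P := P) (Q := Q) K (K - ρ) ρ hN0
  have c0 : ∀ (Q : WS) (c : ℤ → ℝ), strayC Q (fun τ => if τ ≤ N then la * c τ else 0)
      = la * ∑ b ∈ Q.S, Q.f b * (if Q.u b < 0 then (if -Q.u b ≤ N then c (-Q.u b) else 0)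
        else 0) := by
    intro Q c
    unfold strayC
    rw [mul_sum]
    refine sum_congr rfl fun b _ => ?_
    beta_reduce
    split_ifs <;> ring
  have c2 := c0 Q (kcN P Q K (K - ρ) ρ)
  have c3 := c0 P (kcN Q P K (K - ρ) ρ)
  have q1 : ∀ (Q : WS) (c d e : ℤ → ℝ), strayC Q (fun τ => c τ + d τ + κ * e τ)
      = strayC Q c + strayC Q d + κ * strayC Q e := by
    intro Q c d e
    rw [strayC_add', strayC_add']
    congr 1
    have := strayC_mul Q e κ
    rw [mul_comm κ, ← this]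
    congr 1
    funext τ
    ring
  rw [q1, q1, c2, c3]
  rw [c1] at main
  have hy' := mul_le_mul_of_nonneg_left hy hκ.le
  have p1 := mul_nonneg hla.le (coreDE_nonneg h.gP h.gQ D K (K - ρ) ρ)
  have p2 := mul_nonneg hla.le (coreDE_nonneg h.gQ h.gP D K (K - ρ) ρ)
  unfold coreGE
  linarith

/-- the conditions of `core_hdeepS` for `κ = kapE`, `la = 1` -/
lemma condS {ρ r K : ℝ} (hK : 10000 ≤ K) (h1 : 10 * ρ ≤ K) (h2 : K ≤ 10 * ρ + 10)
    (h3 : ρ ≤ r) (h4 : r ≤ 1165 / 10000 * K) :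
    0 < 8 / 5 * (ρ ^ 2 / K) ∧
    9 / 16 * r ^ 2 ≤ 8 / 5 * (ρ ^ 2 / K) * (K - 4 * r) ∧
    (3 * (3 * K + 15 / 4) - 6 * 1 * (K - 4 * r)) ^ 2 * r ^ 2
      ≤ 8 * (8 / 5 * (ρ ^ 2 / K)) * (K - 4 * r) * (3 * K + 15 / 4) ^ 2 ∧
    8 / 5 * (ρ ^ 2 / K) * (3 * K + 15 / 4) ≤ 24 * 1 ^ 2 * r * (K - 4 * r) := by
  have hK0 : 0 < K := by linarith
  have hρ : 999 / 10000 * K ≤ ρ := by linarith
  have hρ0 : 0 < ρ := by linarith
  have hr0 : 0 < r := by linarith
  -- the constant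
  have q1 : 998 / 100000 * K ≤ ρ ^ 2 / K := by
    rw [le_div_iff₀ hK0]
    nlinarith
  have q2 : ρ ^ 2 / K ≤ 1 / 100 * K := by
    rw [div_le_iff₀ hK0]
    nlinarith
  set κ := 8 / 5 * (ρ ^ 2 / K) with hκ
  have k1 : 15968 / 1000000 * K ≤ κ := by linarith
  have k2 : κ ≤ 16 / 1000 * K := by linarith
  have d1 : 534 / 1000 * K ≤ K - 4 * r := by linarith
  have hr2 : r ^ 2 ≤ (1165 / 10000 * K) ^ 2 := pow_le_pow_left₀ hr0.le h4 2
  have kd : 15968 / 1000000 * K * (534 / 1000 * K) ≤ κ * (K - 4 * r) :=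
    mul_le_mul k1 d1 (by positivity) (by linarith)
  have hKK : 0 < K ^ 2 := by positivity
  refine ⟨by linarith, by nlinarith, ?_, ?_⟩
  · have a1 : 3 * (3 * K + 15 / 4) - 6 * 1 * (K - 4 * r) ≤ 58 / 10 * K := by linarith
    have a0 : 0 ≤ 3 * (3 * K + 15 / 4) - 6 * 1 * (K - 4 * r) := by linarith
    have a2 : (3 * (3 * K + 15 / 4) - 6 * 1 * (K - 4 * r)) ^ 2 ≤ (58 / 10 * K) ^ 2 :=
      pow_le_pow_left₀ a0 a1 2
    have a3 : (3 * (3 * K + 15 / 4) - 6 * 1 * (K - 4 * r)) ^ 2 * r ^ 2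
        ≤ (58 / 10 * K) ^ 2 * (1165 / 10000 * K) ^ 2 :=
      mul_le_mul a2 hr2 (by positivity) (by positivity)
    have a4 : (3 * K) ^ 2 ≤ (3 * K + 15 / 4) ^ 2 :=
      pow_le_pow_left₀ (by linarith) (by linarith) 2
    have a5 : 8 * (15968 / 1000000 * K * (534 / 1000 * K)) * (3 * K) ^ 2
        ≤ 8 * (κ * (K - 4 * r)) * (3 * K + 15 / 4) ^ 2 :=
      mul_le_mul (by linarith) a4 (by positivity) (by nlinarith)
    have a6 : (58 / 10 * K) ^ 2 * (1165 / 10000 * K) ^ 2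
        ≤ 8 * (15968 / 1000000 * K * (534 / 1000 * K)) * (3 * K) ^ 2 := by
      have : 0 < K ^ 4 := by positivity
      nlinarith
    calc _ ≤ _ := a3
      _ ≤ _ := a6
      _ ≤ _ := a5
      _ = _ := by ring
  · have b1 : κ * (3 * K + 15 / 4) ≤ 16 / 1000 * K * (4 * K) :=
      mul_le_mul k2 (by linarith) (by linarith) (by positivity)
    have b2 : 24 * (999 / 10000 * K) * (534 / 1000 * K) ≤ 24 * 1 ^ 2 * r * (K - 4 * r) := by
      have := mul_le_mul (show 24 * (999 / 10000 * K) ≤ 24 * 1 ^ 2 * r by linarith) d1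
        (by positivity) (by positivity)
      exact this
    nlinarith

section rowS

variable {K0 : ℤ} {f : ℝ} {P Q : WS} {D K ρ V E N : ℤ} {ξR ξL : ℤ → ℝ}

/-- what a stray pays for the deep labels: strays of depth `≤ ρ` their `KCE` terms -/
def dstS (P Q : WS) (D K ρ V E τ : ℤ) : ℝ :=
  if τ ≤ ρ then kcN P Q K (K - ρ) ρ τ
  else deepD P Q D K ρ V E (nearE D) (kapE K ρ) τ

/-- DEEP ROW with the strip -/
theorem EnvS.deep_rowS (h : EnvS K0 f P Q D K ρ V E N ξR ξL) :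
    -(strayC Q (dstS P Q D K ρ V E) + strayC P (dstS Q P D K ρ V E)) - 20 * K
      ≤ (deepB P Q D K (K - ρ) ρ + deepB Q P D K (K - ρ) ρ) + coreGE P Q D K (K - ρ) ρ := by
  have hK := h.hK1
  have hρ := h.hρ
  have h10 := h.hρK
  have hE := h.E_upper
  have hE0 := h.hE
  have hD := h.hD
  have hlo := h.ρ_lower
  have hn := h.near_le
  have hKr : (10000:ℝ) ≤ K := by exact_mod_cast hK
  have h10r : 10 * (ρ:ℝ) ≤ K := by exact_mod_cast h10
  have hlr : (K:ℝ) ≤ 10 * ρ + 10 := by exact_mod_cast (show K ≤ 10 * ρ + 10 by omega)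
  have hr1 : ρ ≤ ρ + (E + 5) / 6 := by omega
  have hr2 : 10000 * (ρ + (E + 5) / 6) ≤ 1165 * K := by omega
  have hr3 : 6 * (ρ + (E + 5) / 6) ≤ K := by omega
  have hr4 : 6 * ρ + 4 * (E / 2) - E ≤ 6 * (ρ + (E + 5) / 6) := by omega
  have hr1r : (ρ:ℝ) ≤ ((ρ + (E + 5) / 6 : ℤ) : ℝ) := by exact_mod_cast hr1
  have hr2r : 10000 * ((ρ + (E + 5) / 6 : ℤ) : ℝ) ≤ 1165 * K := by exact_mod_cast hr2
  have hr4r : 6 * (ρ:ℝ) + 4 * ((E / 2 : ℤ) : ℝ) - E ≤ 6 * ((ρ + (E + 5) / 6 : ℤ) : ℝ) := by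
    exact_mod_cast hr4
  obtain ⟨c0, c1, c2, c3⟩ := condS (ρ := (ρ:ℝ)) (r := ((ρ + (E + 5) / 6 : ℤ) : ℝ)) hKr h10r hlr
    hr1r (by linarith)
  have key := core_hdeepS h.toEnv deeper_add (r := ρ + (E + 5) / 6) (w := E / 2) (N := ρ) hρ
    (by omega) le_rfl hr1 hr3 (by omega) (by omega) (by linarith) (κ := kapE K ρ)
    (la := 1) (by norm_num) c0 c1 c2 c3 h.dch_leS
  have e : ∀ {P Q : WS} {ξR ξL : ℤ → ℝ}, Env P Q D K V E N ξR ξL →
      strayC Q (fun τ => (if τ ≤ ρ then 1 * kcN P Q K (K - ρ) ρ τ else 0)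
        + (if ρ < τ then dchE P Q deeper D ρ V E τ else 0)
        + kapE K ρ * farC P Q deeper D K E ρ τ)
      = strayC Q (dstS P Q D K ρ V E) := by
    intro P Q ξR ξL env
    congr 1
    funext τ
    unfold dstS deepD
    by_cases c : τ ≤ ρ
    · rw [if_pos c, if_pos c, if_neg (by omega), farC_near env deeper c (by omega) (by omega)
        (by omega)]
      ring
    · rw [if_neg c, if_neg c, if_pos (by omega)]
      have ef : farC P Q deeper D K E ρ τ = farC P Q deeper D K E (nearE D) τ := by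
        unfold farC
        rw [if_pos (show ρ < τ by omega), if_pos (show nearE D < τ by omega)]
      rw [ef]
      ring
  rw [e h.toEnv, e h.toEnv.symm] at key
  linarith

end rowS

/-! ### Near strays: depth `≤ ρ` -/

/-- THE NEAR FACTS, symmetric in the two sides: thresholds moved by `3 ρ` (one side), `4 ρ` and
`2 ρ`, `6 ρ` and `6 ρ` (sums of the two sides) -/
structure NearFact (P Q : WS) (K ρ : ℤ) (C : ℝ) : Prop where
  aR : dd P Q (2 * K + 1 + ρ - 3 * ρ) ≤ K - ρ + 1 + nn P (1 + ρ) + C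
  aL : dd Q P (2 * K + 1 + ρ - 3 * ρ) ≤ K - ρ + 1 + nn Q (1 + ρ) + C
  bR : dd P Q (2 * K + 1 + ρ - 4 * ρ) + dd Q P (2 * K + 1 + ρ - 2 * ρ) ≤ budgetE P Q K ρ + C
  bL : dd Q P (2 * K + 1 + ρ - 4 * ρ) + dd P Q (2 * K + 1 + ρ - 2 * ρ) ≤ budgetE P Q K ρ + C
  c : dd P Q (2 * K + 1 + ρ - 6 * ρ) + dd Q P (2 * K + 1 + ρ - 6 * ρ) ≤ budgetE P Q K ρ + C

lemma NearFact.symm {P Q : WS} {K ρ : ℤ} {C : ℝ} (h : NearFact P Q K ρ C) :
    NearFact Q P K ρ C := by
  have e : budgetE Q P K ρ = budgetE P Q K ρ := by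
    unfold budgetE
    ring
  refine ⟨h.aL, h.aR, ?_, ?_, ?_⟩
  · rw [e]
    exact h.bL
  · rw [e]
    exact h.bR
  · rw [e, add_comm]
    exact h.c

/-- everything from the two prices with the threshold moved by `6 ρ` -/
lemma nearFact_of_px {P Q : WS} (hP : Good P) (hQ : Good Q) {K ρ : ℤ} (hρ : 0 ≤ ρ) {C : ℝ}
    (hC : 0 ≤ C) (hR : dd P Q (2 * K + 1 + ρ - 6 * ρ) ≤ K - ρ + 1 + nn P (1 + ρ) + C)
    (hL : dd Q P (2 * K + 1 + ρ - 6 * ρ) ≤ K - ρ + 1 + nn Q (1 + ρ) + C) :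
    NearFact P Q K ρ (2 * C) := by
  have m : ∀ {P Q : WS}, Good P → Good Q → ∀ k : ℤ, k ≤ 6 →
      dd P Q (2 * K + 1 + ρ - k * ρ) ≤ dd P Q (2 * K + 1 + ρ - 6 * ρ) := by
    intro P Q gP gQ k hk
    refine dd_anti gP gQ ?_
    nlinarith
  have a1 := m hP hQ 3 (by norm_num)
  have a2 := m hQ hP 3 (by norm_num)
  have b1 := m hP hQ 4 (by norm_num)
  have b2 := m hQ hP 4 (by norm_num)
  have c1 := m hP hQ 2 (by norm_num)
  have c2 := m hQ hP 2 (by norm_num)
  exact ⟨by linarith, by linarith, by unfold budgetE; linarith, by unfold budgetE; linarith,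
    by unfold budgetE; linarith⟩

/-- NEAR STRAYS keep the tuples of their pairs with label `≥ 0`; the truncated midpoints vanish -/
theorem near_netS_kc {P Q : WS} (hP : Good P) (hQ : Good Q) {D K ρ V E x0 lo τ : ℤ} {C : ℝ}
    (hC : 0 ≤ C) (hD : D = 4 * K + 1) (hK : 1 ≤ K) (hρK : ρ ≤ K)
    (uP : ∀ a ∈ P.S, P.f a ≠ 0 → P.u a ≤ 2 * K)
    (uQ : ∀ b ∈ Q.S, Q.f b ≠ 0 → Q.u b ≤ 2 * K)
    (hE : 0 ≤ E) (hlo : 0 ≤ lo) (hlo1 : lo ≤ 1) (hτ : 1 ≤ τ) (hτV : τ ≤ V) (hτρ : τ ≤ ρ)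
    (hx0 : 2 * τ + E ≤ 2 * x0 + 1) (hF : NearFact P Q K ρ C) :
    kcN P Q K (K - ρ) ρ τ - C * mass P
      ≤ netS P Q deeper D K (K - ρ) ρ ρ V E x0 lo τ := by
  unfold netS grossE gainE
  have m0 := midS_near (P := P) (Q := Q) (ρ := ρ) hD uP hx0 hE (by omega) (by omega) (by omega)
  have b1 := exB_near hP hQ (ρ := ρ) (τ := τ) hD uQ hτρ
  have a1 : exA Q D V (priceE P Q D K (K - ρ) ρ) τ = 0 := by
    unfold exA
    rw [if_neg (by omega)]
  have o1 := own_nonneg hP hQ (show -1 ≤ K - ρ by omega) D K ρ V τ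
  have d1 := deepNetE_nonneg hP hQ D K (K - ρ) ρ V τ
  have p1 : kcN P Q K (K - ρ) ρ τ - C * mass P ≤ pairNetE P Q K (K - ρ) ρ ρ V lo τ := by
    unfold pairNetE mass kcN
    rw [mul_sum, ← sum_sub_distrib]
    refine sum_le_sum fun a ha => ?_
    have f0 := hP.f_nonneg a ha
    by_cases c : lo - τ ≤ P.u a
    · rw [if_pos c]
      have hV1 : -V ≤ P.u a := by omega
      have hV2 : -V ≤ -τ := by omega
      have k1 := KKE_le_dd hP hQ K (K - ρ) ρ (P.u a) (-τ)
      have k2 := KKE_le_dd hQ hP K (K - ρ) ρ (-τ) (P.u a)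
      have key : (if 0 ≤ P.u a + 2 * -τ then KCE P Q K (K - ρ) ρ (P.u a) (-τ) else 0)
          + (if 0 ≤ -τ + 2 * P.u a then KCE Q P K (K - ρ) ρ (-τ) (P.u a) else 0) - C
          ≤ hhE P Q K (K - ρ) ρ V (P.u a) (-τ) + hhE Q P K (K - ρ) ρ V (-τ) (P.u a) := by
        unfold hhE
        rw [if_pos (show -V ≤ P.u a ∧ -V ≤ -τ from ⟨hV1, hV2⟩),
          if_pos (show -V ≤ P.u a ∧ -V ≤ -τ from ⟨hV1, hV2⟩),
          if_pos (show -V ≤ -τ ∧ -V ≤ P.u a from ⟨hV2, hV1⟩),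
          if_pos (show -V ≤ -τ ∧ -V ≤ P.u a from ⟨hV2, hV1⟩)]
        by_cases g1 : 0 ≤ P.u a + 2 * -τ
        · rw [if_pos g1, if_neg (show ¬ P.u a + 2 * -τ < 0 by omega),
            if_pos (show 0 ≤ -τ + 2 * P.u a by omega),
            if_neg (show ¬ -τ + 2 * P.u a < 0 by omega)]
          linarith
        · rw [if_neg g1, if_pos (show P.u a + 2 * -τ < 0 by omega)]
          by_cases g2 : 0 ≤ -τ + 2 * P.u a
          · rw [if_pos g2, if_neg (show ¬ -τ + 2 * P.u a < 0 by omega)]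
            have e1 := dd_anti hP hQ (show 2 * K + 1 + ρ - 3 * ρ
              ≤ 2 * K + 1 + ρ + 2 * (P.u a + 2 * -τ) by omega)
            have e2 := hF.aR
            push_cast
            linarith
          · rw [if_neg g2, if_pos (show -τ + 2 * P.u a < 0 by omega)]
            by_cases g3 : 0 ≤ P.u a
            · have e1 := dd_anti hP hQ (show 2 * K + 1 + ρ - 4 * ρ
                ≤ 2 * K + 1 + ρ + 2 * (P.u a + 2 * -τ) by omega)
              have e2 := dd_anti hQ hP (show 2 * K + 1 + ρ - 2 * ρ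
                ≤ 2 * K + 1 + ρ + 2 * (-τ + 2 * P.u a) by omega)
              have e3 := hF.bR
              unfold budgetE at e3
              push_cast
              linarith
            · have e1 := dd_anti hP hQ (show 2 * K + 1 + ρ - 6 * ρ
                ≤ 2 * K + 1 + ρ + 2 * (P.u a + 2 * -τ) by omega)
              have e2 := dd_anti hQ hP (show 2 * K + 1 + ρ - 6 * ρ
                ≤ 2 * K + 1 + ρ + 2 * (-τ + 2 * P.u a) by omega)
              have e3 := hF.c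
              unfold budgetE at e3
              push_cast
              linarith
      have e5 := mul_le_mul_of_nonneg_left key f0
      linarith
    · rw [if_neg c, if_neg (by omega), if_neg (by omega)]
      have : 0 ≤ C * P.f a := mul_nonneg hC f0
      linarith
  rw [m0, a1]
  linarith

/-- the near facts of the frames of one set -/
def NearCert (n : ℕ) (A : Finset ℕ) : Prop :=
  ∀ (t : ℕ) (D K : ℤ), 10 ≤ t → D = 4 * K + 1 → 3 * D + 1 ≤ 4 ^ t * (n : ℤ) →
    4 ^ t * (n : ℤ) ≤ 3 * D + 12 →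
    NearFact (PH (liftN t (shift A)) D (zE D)) (QH (liftN t (shift A)) D (zE D)) K (rhoE D) 2

/-- the price fact with the threshold moved by `6 ρ`, `ρ = D/40` -/
def PxCert6 (n : ℕ) (A : Finset ℕ) : Prop :=
  ∀ (t : ℕ) (D K : ℤ), 10 ≤ t → D = 4 * K + 1 → 3 * D + 1 ≤ 4 ^ t * (n : ℤ) →
    4 ^ t * (n : ℤ) ≤ 3 * D + 12 →
    dd (PH (liftN t (shift A)) D (zE D)) (QH (liftN t (shift A)) D (zE D))
          (2 * K + 1 + rhoE D - 6 * rhoE D)
        ≤ K - rhoE D + 1 + nn (PH (liftN t (shift A)) D (zE D)) (1 + rhoE D) + 1 ∧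
      dd (QH (liftN t (shift A)) D (zE D)) (PH (liftN t (shift A)) D (zE D))
          (2 * K + 1 + rhoE D - 6 * rhoE D)
        ≤ K - rhoE D + 1 + nn (QH (liftN t (shift A)) D (zE D)) (1 + rhoE D) + 1

lemma PxCert6.near {n : ℕ} {A : Finset ℕ} (hn : 122 ≤ n) (h : PxCert6 n A) : NearCert n A := by
  intro t D K ht hD h1 h2
  obtain ⟨hR, hL⟩ := h t D K ht hD h1 h2
  have h4 : (0:ℤ) < 4 ^ t := by positivity
  have hn' : (122:ℤ) ≤ n := by exact_mod_cast hn
  have h5 : 122 * (4:ℤ) ^ t ≤ 4 ^ t * n := by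
    rw [mul_comm (122:ℤ)]
    exact mul_le_mul_of_nonneg_left hn' h4.le
  have := nearFact_of_px (goodP (adm_hybrid D (zE D))) (goodQ (adm_hybrid D (zE D)))
    (show 0 ≤ rhoE D by unfold rhoE; omega) zero_le_one hR hL
  rwa [mul_one] at this

lemma PxCert6.px {n : ℕ} {A : Finset ℕ} (hn : 122 ≤ n) (h : PxCert6 n A) : PxCert n A := by
  intro t D K ht hD h1 h2
  obtain ⟨hR, hL⟩ := h t D K ht hD h1 h2
  have h4 : (0:ℤ) < 4 ^ t := by positivity
  have hn' : (122:ℤ) ≤ n := by exact_mod_cast hn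
  have h5 : 122 * (4:ℤ) ^ t ≤ 4 ^ t * n := by
    rw [mul_comm (122:ℤ)]
    exact mul_le_mul_of_nonneg_left hn' h4.le
  have hle : 2 * K + 1 + rhoE D - 6 * rhoE D ≤ 2 * K + 1 + rhoE D - 6 * nearE D := by
    unfold rhoE nearE
    omega
  have gP := goodP (A := liftN t (shift A)) (adm_hybrid D (zE D))
  have gQ := goodQ (A := liftN t (shift A)) (adm_hybrid D (zE D))
  exact ⟨(dd_anti gP gQ hle).trans hR, (dd_anti gQ gP hle).trans hL⟩

/-! ### Assembly -/

/-- ASSEMBLY WITH THE STRIP: far share, price, near facts, and rows for the depths `> ρ = D/40` -/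
theorem asmS {n : ℕ} {A : Finset ℕ} (h : IsMaximalThreeFree n A) (hn : 122 ≤ n)
    {K0 : ℤ} {f C : ℝ} (hC : 0 ≤ C) (hfar : A.card ^ 2 < n → FarCert n A f)
    (hpx : A.card ^ 2 < n → PxCert n A) (hlit : A.card ^ 2 < n → LitCert n A)
    (hnear : A.card ^ 2 < n → NearCert n A)
    (hrow : ∀ {P Q : WS} {D K ρ V E : ℤ} {ξR ξL : ℤ → ℝ}, EnvS K0 f P Q D K ρ V E n ξR ξL →
      ∀ lo τ : ℤ, 0 ≤ lo → lo ≤ 1 → ρ < τ → IsStray Q τ →
        deepD P Q D K ρ V E (nearE D) (kapE K ρ) τ - C * K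
          ≤ netE P Q deeper D K (K - ρ) ρ ρ V E lo τ) :
    n ≤ A.card ^ 2 := by
  have hCA : 0 ≤ (60 * C + 20 + 60) * (A.card + 1) := by positivity
  refine finish_chargeS h hCA (max 10 (max K0 10000).toNat) deeper_add hn ?_
  intro hlt t ht D K hK hD h1 h2 hcov
  have ht3 : 10 ≤ t := (le_max_left _ _).trans ht
  have htK : (max K0 10000).toNat ≤ t := (le_max_right _ _).trans ht
  have h4t : (t:ℤ) < 4 ^ t := by
    have := Nat.lt_pow_self (n := t) (show 1 < 4 by norm_num)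
    exact_mod_cast this
  have hn' : (122:ℤ) ≤ n := by exact_mod_cast hn
  have hKt : (t:ℤ) ≤ K := by
    have e1 : 122 * (4:ℤ) ^ t ≤ 4 ^ t * n := by
      rw [mul_comm (122:ℤ)]
      exact mul_le_mul_of_nonneg_left hn' (by positivity)
    have e3 : (10:ℤ) ≤ t := by exact_mod_cast ht3
    omega
  have hmax : max K0 10000 ≤ (t:ℤ) := by
    have := Int.self_le_toNat (max K0 10000)
    have h5 : (((max K0 10000).toNat : ℕ) : ℤ) ≤ t := by exact_mod_cast htK
    linarith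
  have hK0 : K0 ≤ K := (le_max_left _ _).trans (hmax.trans hKt)
  have hK1 : 10000 ≤ K := (le_max_right _ _).trans (hmax.trans hKt)
  have henv := envS_hyb (K0 := K0) h hlt hn (hfar hlt) (hpx hlt) (hlit hlt) ht3 hK1 hK0 hD h1 h2 hcov
  have hnf := hnear hlt t D K ht3 hD h1 h2
  have hm := mass_add (liftN t (shift A)) (cut D) (fun x => if D - zE D ≤ x then cut D x else 0)
    (fun x => if x ≤ 2 * D + zE D then 1 - cut D x else 0) D
  rw [card_liftN, card_shift] at hm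
  push_cast at hm
  refine ⟨rhoE D, zE D, henv.hρ, henv.hρK, henv.hV, ?_, ?_⟩
  · have := henv.V_upper
    have := henv.ρ_lower
    omega
  rintro P Q hP hQ eR eL rfl rfl
  have env : EnvS K0 f P Q D K (rhoE D) (zE D) (4 ^ t - 1) n (xiR (shift A) t D (zE D))
      (xiL (shift A) t D (zE D)) := by
    rw [hP, hQ]
    exact henv
  have nf : NearFact P Q K (rhoE D) 2 := by
    rw [hP, hQ]
    exact hnf
  have hmass : mass P + mass Q = 2 ^ t * (A.card : ℝ) := by
    rw [hP, hQ]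
    exact hm
  have t2 : (1:ℝ) ≤ 2 ^ t := one_le_pow₀ (by norm_num)
  have hKr : (10000:ℝ) ≤ K := by exact_mod_cast hK1
  have hK2 : (0:ℝ) ≤ K := by linarith
  have hCA0 : (60 * C + 20) ≤ (60 * C + 20 + 60) * (A.card + 1) := by
    have e1 : 0 ≤ (60 * C + 20 + 60) * (A.card : ℝ) := by positivity
    linarith
  have mP := mass_nonneg env.gP
  have mQ := mass_nonneg env.gQ
  have hdp := env.deep_rowS
  have z2 : ∀ (Q : WS), strayC Q (fun _ => (0:ℝ)) = 0 := strayC_zero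
  -- the row of one stray
  have rowG : ∀ {P Q : WS} {ξR ξL : ℤ → ℝ}, EnvS K0 f P Q D K (rhoE D) (zE D) (4 ^ t - 1) n ξR ξL →
      NearFact P Q K (rhoE D) 2 → ∀ lo τ : ℤ, 0 ≤ lo → lo ≤ 1 → IsStray Q τ →
      dstS P Q D K (rhoE D) (zE D) (4 ^ t - 1) τ - (60 * C + 20 + 60) * (A.card + 1) * K
        ≤ netS P Q deeper D K (K - rhoE D) (rhoE D) (rhoE D) (zE D) (4 ^ t - 1)
            (rhoE D + (4 ^ t - 1) / 2) lo τ := by
    intro P Q ξR ξL env nf lo τ hlo hlo1 hst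
    obtain ⟨b, hb, hf, hu, hτ⟩ := id hst
    have hρK := env.hρK
    have hρV := env.hρV
    have hE := env.hE
    have mP := mass_nonneg env.gP
    have mQ := mass_nonneg env.gQ
    have hCK := mul_le_mul_of_nonneg_right hCA0 hK2
    have hCC : 0 ≤ C * K := mul_nonneg hC hK2
    unfold dstS
    by_cases c : τ ≤ rhoE D
    · rw [if_pos c]
      have r := near_netS_kc env.gP env.gQ (V := zE D) (E := 4 ^ t - 1)
        (x0 := rhoE D + (4 ^ t - 1) / 2) (lo := lo) (τ := τ) (show (0:ℝ) ≤ 2 by norm_num) hD hK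
        (by omega) env.uP env.uQ hE hlo hlo1 (by omega) (by omega) c (by omega) nf
      have hmm : mass P ≤ 10 * K := by
        have h1 := env.hm
        have h2 : (0:ℝ) ≤ ((4 ^ t - 1 : ℤ) : ℝ) := by exact_mod_cast hE
        have h3 : (D:ℝ) = 4 * K + 1 := by exact_mod_cast hD
        rw [h3] at h1
        by_contra hcon
        push Not at hcon
        nlinarith
      linarith
    · rw [if_neg c]
      have r := hrow env lo τ hlo hlo1 (by omega) hst
      have r2 := netE_le_netS env.gP env.gQ deeper_nonneg D K (K - rhoE D) (rhoE D) (rhoE D)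
        (zE D) (4 ^ t - 1) (rhoE D + (4 ^ t - 1) / 2) lo τ
      linarith
  have pG : ∀ {P Q : WS} {ξR ξL : ℤ → ℝ}, EnvS K0 f P Q D K (rhoE D) (zE D) (4 ^ t - 1) n ξR ξL →
      ∀ s, 0 ≤ s → 0 ≤ priceE P Q D K (K - rhoE D) (rhoE D) s
        + (60 * C + 20 + 60) * (A.card + 1) * 2 ^ t := by
    intro P Q ξR ξL env s hs
    have e1 := env.price_ge (C := 1) zero_le_one env.pxR hs
    have e2 : (1:ℝ) * 1 ≤ (60 * C + 20 + 60) * (A.card + 1) * 2 ^ t := by
      refine mul_le_mul ?_ t2 zero_le_one hCA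
      linarith
    linarith
  refine ⟨dstS P Q D K (rhoE D) (zE D) (4 ^ t - 1), dstS Q P D K (rhoE D) (zE D) (4 ^ t - 1),
    fun _ => 0, fun _ => 0, fun _ _ => 0, fun _ _ => 0, fun _ _ => 0, fun _ _ => 0,
    fun _ _ => 0, fun _ _ => 0, fun _ _ => 0, ?_, ?_, ?_, ?_, ?_⟩
  · simp only [mul_zero, add_zero, sum_const_zero, sub_zero]
    have e2 : 20 * K ≤ (60 * C + 20 + 60) * (A.card + 1) * K * (2:ℝ) ^ t := by
      have a1 : (20:ℝ) ≤ (60 * C + 20 + 60) * (A.card + 1) := by linarith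
      have a2 := mul_le_mul_of_nonneg_right a1 hK2
      have a3 : (60 * C + 20 + 60) * (A.card + 1) * K * 1
          ≤ (60 * C + 20 + 60) * (A.card + 1) * K * (2:ℝ) ^ t :=
        mul_le_mul_of_nonneg_left t2 (mul_nonneg hCA hK2)
      linarith
    linarith
  · intro s hs0 hs1
    rw [z2, z2]
    have := pG env s hs0
    linarith
  · intro s hs0 hs1
    rw [z2, z2]
    have := pG env.symm s hs0
    linarith
  · intro b hb hf hu
    rw [demand_light]
    have r := rowG env nf 0 (-Q.u b) le_rfl (by norm_num) ⟨b, hb, hf, hu, rfl⟩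
    simp only [mul_zero, add_zero, sum_const_zero, sub_zero]
    linarith
  · intro a ha hf hu
    have ef0 : (fun τ τ' : ℤ => -((fun _ _ => (0:ℝ)) : ℤ → ℤ → ℝ) τ' τ) = fun _ _ => (0:ℝ) := by
      funext x y
      simp
    rw [ef0, demand_light]
    have r := rowG env.symm nf.symm 1 (-P.u a) (by norm_num) le_rfl ⟨a, ha, hf, hu, rfl⟩
    simp only [mul_zero, add_zero, sum_const_zero, sub_zero]
    linarith

end

end MP61673a.Fin
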