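import Mathlib

/-!
The SOS step of the three point line (helper9): a pointwise inequality on triples,
`Σ over the 6 permutations of F + 2 Σ_i [s_i(a;b)s_i(a;c) + s_i(b;a)s_i(b;c) + s_i(c;a)s_i(c;b)] ≤ 6 + ε`,
implies the cubic inequality `Σ w w w F ≤ (Σ w)^3 + (1/6) Σ w w w ε` for all weights `w ≥ 0`.
`F z a b` is the cost of the ordered pair `(a,b)` for the owner `z`.
-/

namespace MP61673a.Sos

open Finset

noncomputable section

variable {ι κ : Type*}

/-- sum over the six permutations -/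
def sym6 (F : ι → ι → ι → ℝ) (a b c : ι) : ℝ :=
  F a b c + F a c b + F b a c + F b c a + F c a b + F c b a

/-- the squares: `M_a(b,c) + M_b(a,c) + M_c(a,b)`, `M_z(b,c) = Σ_i s_i(z;b) s_i(z;c)` -/
def sq3 (K : Finset κ) (s : κ → ι → ι → ℝ) (a b c : ι) : ℝ :=
  ∑ i ∈ K, (s i a b * s i a c + s i b a * s i b c + s i c a * s i c b)

/-- the weighted triple sum -/
def tri (S : Finset ι) (w : ι → ℝ) (F : ι → ι → ι → ℝ) : ℝ :=
  ∑ a ∈ S, ∑ b ∈ S, ∑ c ∈ S, w a * w b * w c * F a b c

lemma tri_add (S : Finset ι) (w : ι → ℝ) (F G : ι → ι → ι → ℝ) :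
    tri S w (fun a b c => F a b c + G a b c) = tri S w F + tri S w G := by
  unfold tri
  simp only [← sum_add_distrib]
  refine sum_congr rfl fun a _ => sum_congr rfl fun b _ => sum_congr rfl fun c _ => ?_
  ring

lemma tri_smul (S : Finset ι) (w : ι → ℝ) (r : ℝ) (F : ι → ι → ι → ℝ) :
    tri S w (fun a b c => r * F a b c) = r * tri S w F := by
  unfold tri
  simp only [mul_sum]
  refine sum_congr rfl fun a _ => sum_congr rfl fun b _ => sum_congr rfl fun c _ => ?_
  ring

lemma tri_const (S : Finset ι) (w : ι → ℝ) (r : ℝ) :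
    tri S w (fun _ _ _ => r) = r * (∑ a ∈ S, w a) ^ 3 := by
  unfold tri
  rw [pow_succ, pow_two, sum_mul_sum, sum_mul, mul_sum]
  refine sum_congr rfl fun a _ => ?_
  rw [sum_mul, mul_sum]
  refine sum_congr rfl fun b _ => ?_
  rw [mul_sum, mul_sum]
  refine sum_congr rfl fun c _ => ?_
  ring

lemma tri_mono {S : Finset ι} {w : ι → ℝ} (hw : ∀ a ∈ S, 0 ≤ w a) {F G : ι → ι → ι → ℝ}
    (h : ∀ a ∈ S, ∀ b ∈ S, ∀ c ∈ S, F a b c ≤ G a b c) : tri S w F ≤ tri S w G :=
  sum_le_sum fun a ha => sum_le_sum fun b hb => sum_le_sum fun c hc =>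
    mul_le_mul_of_nonneg_left (h a ha b hb c hc)
      (mul_nonneg (mul_nonneg (hw a ha) (hw b hb)) (hw c hc))

/-- swap of the last two arguments -/
lemma tri_swap23 (S : Finset ι) (w : ι → ℝ) (F : ι → ι → ι → ℝ) :
    tri S w (fun a b c => F a c b) = tri S w F := by
  unfold tri
  refine sum_congr rfl fun a _ => ?_
  rw [sum_comm]
  refine sum_congr rfl fun b _ => sum_congr rfl fun c _ => ?_
  ring

/-- swap of the first two arguments -/
lemma tri_swap12 (S : Finset ι) (w : ι → ℝ) (F : ι → ι → ι → ℝ) :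
    tri S w (fun a b c => F b a c) = tri S w F := by
  unfold tri
  rw [sum_comm]
  refine sum_congr rfl fun a _ => sum_congr rfl fun b _ => sum_congr rfl fun c _ => ?_
  ring

lemma tri_sym6 (S : Finset ι) (w : ι → ℝ) (F : ι → ι → ι → ℝ) :
    tri S w (sym6 F) = 6 * tri S w F := by
  have h1 : tri S w (fun a b c => F a c b) = tri S w F := tri_swap23 S w F
  have h2 : tri S w (fun a b c => F b a c) = tri S w F := tri_swap12 S w F
  have h3 : tri S w (fun a b c => F b c a) = tri S w F := by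
    rw [← h1]
    exact tri_swap12 S w (fun a b c => F a c b)
  have h4 : tri S w (fun a b c => F c a b) = tri S w F := by
    rw [← h2]
    exact tri_swap23 S w (fun a b c => F b a c)
  have h5 : tri S w (fun a b c => F c b a) = tri S w F := by
    rw [← h3]
    exact tri_swap23 S w (fun a b c => F b c a)
  unfold sym6
  rw [tri_add S w (fun a b c => F a b c + F a c b + F b a c + F b c a + F c a b)
      (fun a b c => F c b a),
    tri_add S w (fun a b c => F a b c + F a c b + F b a c + F b c a) (fun a b c => F c a b),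
    tri_add S w (fun a b c => F a b c + F a c b + F b a c) (fun a b c => F b c a),
    tri_add S w (fun a b c => F a b c + F a c b) (fun a b c => F b a c),
    tri_add S w (fun a b c => F a b c) (fun a b c => F a c b), h1, h2, h3, h4, h5]
  ring

/-- the squares are nonnegative after summation -/
lemma tri_sq3_nonneg {S : Finset ι} {w : ι → ℝ} (hw : ∀ a ∈ S, 0 ≤ w a) (K : Finset κ)
    (s : κ → ι → ι → ℝ) : 0 ≤ tri S w (sq3 K s) := by
  have h0 : ∀ i : κ, 0 ≤ tri S w (fun a b c => s i a b * s i a c) := by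
    intro i
    have e : tri S w (fun a b c => s i a b * s i a c)
        = ∑ a ∈ S, w a * (∑ b ∈ S, w b * s i a b) ^ 2 := by
      unfold tri
      refine sum_congr rfl fun a _ => ?_
      rw [pow_two, sum_mul_sum, mul_sum]
      refine sum_congr rfl fun b _ => ?_
      rw [mul_sum]
      refine sum_congr rfl fun c _ => ?_
      ring
    rw [e]
    exact sum_nonneg fun a ha => mul_nonneg (hw a ha) (sq_nonneg _)
  have h1 : ∀ i : κ, tri S w (fun a b c => s i a b * s i a c + s i b a * s i b c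
      + s i c a * s i c b) = 3 * tri S w (fun a b c => s i a b * s i a c) := by
    intro i
    have e2 : tri S w (fun a b c => s i b a * s i b c)
        = tri S w (fun a b c => s i a b * s i a c) :=
      tri_swap12 S w (fun a b c => s i a b * s i a c)
    have e3 : tri S w (fun a b c => s i c a * s i c b)
        = tri S w (fun a b c => s i a b * s i a c) := by
      rw [← e2]
      exact tri_swap23 S w (fun a b c => s i b a * s i b c)
    rw [tri_add S w (fun a b c => s i a b * s i a c + s i b a * s i b c)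
        (fun a b c => s i c a * s i c b),
      tri_add S w (fun a b c => s i a b * s i a c) (fun a b c => s i b a * s i b c), e2, e3]
    ring
  have h2 : tri S w (sq3 K s) = ∑ i ∈ K, tri S w (fun a b c => s i a b * s i a c
      + s i b a * s i b c + s i c a * s i c b) := by
    unfold tri sq3
    simp only [mul_sum]
    rw [sum_comm]
    have : ∀ a ∈ S, ∑ b ∈ S, ∑ c ∈ S, ∑ i ∈ K, w a * w b * w c * (s i a b * s i a c
        + s i b a * s i b c + s i c a * s i c b)
        = ∑ i ∈ K, ∑ b ∈ S, ∑ c ∈ S, w a * w b * w c * (s i a b * s i a c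
        + s i b a * s i b c + s i c a * s i c b) := by
      intro a _
      have t1 : ∀ b ∈ S, ∑ c ∈ S, ∑ i ∈ K, w a * w b * w c * (s i a b * s i a c
          + s i b a * s i b c + s i c a * s i c b)
          = ∑ i ∈ K, ∑ c ∈ S, w a * w b * w c * (s i a b * s i a c
          + s i b a * s i b c + s i c a * s i c b) := fun b _ => sum_comm
      rw [sum_congr rfl t1, sum_comm]
    rw [sum_comm, sum_congr rfl this, sum_comm]
  rw [h2]
  refine sum_nonneg fun i _ => ?_
  rw [h1 i]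
  have := h0 i
  linarith

/-- THE SOS STEP -/
theorem sos_step {S : Finset ι} {w : ι → ℝ} (hw : ∀ a ∈ S, 0 ≤ w a) (F ε : ι → ι → ι → ℝ)
    (K : Finset κ) (s : κ → ι → ι → ℝ)
    (h : ∀ a ∈ S, ∀ b ∈ S, ∀ c ∈ S, sym6 F a b c + 2 * sq3 K s a b c ≤ 6 + ε a b c) :
    tri S w F ≤ (∑ a ∈ S, w a) ^ 3 + tri S w ε / 6 := by
  have h1 := tri_mono hw h
  rw [tri_add S w (sym6 F) (fun a b c => 2 * sq3 K s a b c), tri_smul, tri_sym6,
    tri_add S w (fun _ _ _ => (6:ℝ)) ε, tri_const] at h1
  have h2 := tri_sq3_nonneg hw K s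
  linarith

/-! ### symmetry: only sorted triples are needed -/

lemma sym6_swap12 (F : ι → ι → ι → ℝ) (a b c : ι) : sym6 F b a c = sym6 F a b c := by
  unfold sym6
  ring

lemma sym6_swap23 (F : ι → ι → ι → ℝ) (a b c : ι) : sym6 F a c b = sym6 F a b c := by
  unfold sym6
  ring

lemma sq3_swap12 (K : Finset κ) (s : κ → ι → ι → ℝ) (a b c : ι) :
    sq3 K s b a c = sq3 K s a b c := by
  unfold sq3
  refine sum_congr rfl fun i _ => ?_
  ring

lemma sq3_swap23 (K : Finset κ) (s : κ → ι → ι → ℝ) (a b c : ι) :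
    sq3 K s a c b = sq3 K s a b c := by
  unfold sq3
  refine sum_congr rfl fun i _ => ?_
  ring

/-- a symmetric property of triples holds everywhere if it holds for sorted triples -/
lemma of_sorted {ι : Type*} [LinearOrder ι] {P : ι → ι → ι → Prop}
    (h12 : ∀ a b c, P a b c → P b a c) (h23 : ∀ a b c, P a b c → P a c b)
    {S : Finset ι} (h : ∀ a ∈ S, ∀ b ∈ S, ∀ c ∈ S, a ≤ b → b ≤ c → P a b c) :
    ∀ a ∈ S, ∀ b ∈ S, ∀ c ∈ S, P a b c := by
  intro a ha b hb c hc
  rcases le_total a b with h1 | h1 <;> rcases le_total b c with h2 | h2 <;>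
    rcases le_total a c with h3 | h3
  · exact h a ha b hb c hc h1 h2
  · exact h a ha b hb c hc h1 h2
  · exact h23 _ _ _ (h a ha c hc b hb h3 h2)
  · exact h23 _ _ _ (h12 _ _ _ (h c hc a ha b hb h3 h1))
  · exact h12 _ _ _ (h b hb a ha c hc h1 h3)
  · exact h12 _ _ _ (h23 _ _ _ (h b hb c hc a ha h2 h3))
  · exact h12 _ _ _ (h b hb a ha c hc h1 h3)
  · exact h12 _ _ _ (h23 _ _ _ (h12 _ _ _ (h c hc b hb a ha h2 h1)))

/-- THE SOS STEP, sorted triples only; the error is a symmetric function -/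
theorem sos_step_sorted {ι κ : Type*} [LinearOrder ι] {S : Finset ι} {w : ι → ℝ}
    (hw : ∀ a ∈ S, 0 ≤ w a) (F ε : ι → ι → ι → ℝ)
    (hε12 : ∀ a b c, ε b a c = ε a b c) (hε23 : ∀ a b c, ε a c b = ε a b c)
    (K : Finset κ) (s : κ → ι → ι → ℝ)
    (h : ∀ a ∈ S, ∀ b ∈ S, ∀ c ∈ S, a ≤ b → b ≤ c →
      sym6 F a b c + 2 * sq3 K s a b c ≤ 6 + ε a b c) :
    tri S w F ≤ (∑ a ∈ S, w a) ^ 3 + tri S w ε / 6 := by
  refine sos_step hw F ε K s (of_sorted (P := fun a b c =>
    sym6 F a b c + 2 * sq3 K s a b c ≤ 6 + ε a b c) ?_ ?_ h)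
  · intro a b c h1
    rw [sym6_swap12, sq3_swap12, hε12]
    exact h1
  · intro a b c h1
    rw [sym6_swap23, sq3_swap23, hε23]
    exact h1

/-! ### sets of integers -/

/-- degenerate triples: at most `3 k^2` of them -/
lemma card_degenerate (A : Finset ℤ) :
    tri A (fun _ => 1) (fun a b c => if a = b ∨ b = c ∨ a = c then (1:ℝ) else 0)
      ≤ 3 * (A.card : ℝ) ^ 2 := by
  have h1 : tri A (fun _ => 1) (fun a b c => if a = b ∨ b = c ∨ a = c then (1:ℝ) else 0)
      ≤ tri A (fun _ => 1) (fun a b c => (if a = b then (1:ℝ) else 0)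
        + (if b = c then (1:ℝ) else 0) + (if a = c then (1:ℝ) else 0)) := by
    refine tri_mono (fun _ _ => zero_le_one) fun a _ b _ c _ => ?_
    have e1 : (0:ℝ) ≤ if a = b then (1:ℝ) else 0 := by split_ifs <;> norm_num
    have e2 : (0:ℝ) ≤ if b = c then (1:ℝ) else 0 := by split_ifs <;> norm_num
    have e3 : (0:ℝ) ≤ if a = c then (1:ℝ) else 0 := by split_ifs <;> norm_num
    by_cases hd : a = b ∨ b = c ∨ a = c
    · rw [if_pos hd]
      rcases hd with hd | hd | hd
      · rw [if_pos hd]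
        linarith
      · rw [if_pos hd]
        linarith
      · rw [if_pos hd]
        linarith
    · rw [if_neg hd]
      linarith
  refine h1.trans (le_of_eq ?_)
  rw [tri_add A (fun _ => 1) (fun a b c => (if a = b then (1:ℝ) else 0)
      + (if b = c then (1:ℝ) else 0)) (fun a b c => (if a = c then (1:ℝ) else 0)),
    tri_add A (fun _ => 1) (fun a b c => (if a = b then (1:ℝ) else 0))
      (fun a b c => (if b = c then (1:ℝ) else 0))]
  have e1 : tri A (fun _ => 1) (fun a b c => (if a = b then (1:ℝ) else 0))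
      = (A.card : ℝ) ^ 2 := by
    unfold tri
    have : ∀ a ∈ A, ∑ b ∈ A, ∑ c ∈ A, (1:ℝ) * 1 * 1 * (if a = b then (1:ℝ) else 0)
        = A.card := by
      intro a ha
      simp [ha]
    rw [sum_congr rfl this]
    simp [pow_two]
  have e2 : tri A (fun _ => 1) (fun a b c => (if b = c then (1:ℝ) else 0))
      = (A.card : ℝ) ^ 2 := by
    unfold tri
    have : ∀ a ∈ A, ∑ b ∈ A, ∑ c ∈ A, (1:ℝ) * 1 * 1 * (if b = c then (1:ℝ) else 0)
        = A.card := by
      intro a ha
      simp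
    rw [sum_congr rfl this]
    simp [pow_two]
  have e3 : tri A (fun _ => 1) (fun a b c => (if a = c then (1:ℝ) else 0))
      = (A.card : ℝ) ^ 2 := by
    unfold tri
    have : ∀ a ∈ A, ∑ b ∈ A, ∑ c ∈ A, (1:ℝ) * 1 * 1 * (if a = c then (1:ℝ) else 0)
        = A.card := by
      intro a ha
      simp [ha]
    rw [sum_congr rfl this]
    simp [pow_two]
  rw [e1, e2, e3]
  ring

/-- THE SOS STEP for a set: only `a < b < c` is needed, the triples with equal points go into
the error `3 (B + N) k^2`, `F ≤ B`, `Σ_i s_i(z;x) s_i(z;y) ≤ N`. -/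
theorem sos_set {κ : Type*} (A : Finset ℤ) (F : ℤ → ℤ → ℤ → ℝ) {B N e : ℝ}
    (hB : ∀ a ∈ A, ∀ b ∈ A, ∀ c ∈ A, F a b c ≤ B) (hB0 : 0 ≤ B) (hN0 : 0 ≤ N)
    (K : Finset κ) (s : κ → ℤ → ℤ → ℝ)
    (hN : ∀ a ∈ A, ∀ b ∈ A, ∀ c ∈ A, ∑ i ∈ K, s i a b * s i a c ≤ N)
    (ε : ℤ → ℤ → ℤ → ℝ) (hε0 : ∀ a b c, 0 ≤ ε a b c)
    (hε12 : ∀ a b c, ε b a c = ε a b c) (hε23 : ∀ a b c, ε a c b = ε a b c)
    (hsum : tri A (fun _ => 1) ε ≤ e)
    (h : ∀ a ∈ A, ∀ b ∈ A, ∀ c ∈ A, a < b → b < c →
      sym6 F a b c + 2 * sq3 K s a b c ≤ 6 + ε a b c) :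
    tri A (fun _ => 1) F ≤ (A.card : ℝ) ^ 3 + 3 * (B + N) * (A.card : ℝ) ^ 2 + e / 6 := by
  have key := sos_step_sorted (S := A) (w := fun _ => (1:ℝ)) (fun _ _ => zero_le_one) F
    (fun a b c => ε a b c + (6 * B + 6 * N)
      * (if a = b ∨ b = c ∨ a = c then (1:ℝ) else 0)) ?_ ?_ K s ?_
  · rw [tri_add, tri_smul A (fun _ => (1:ℝ)) (6 * B + 6 * N)] at key
    have h1 := card_degenerate A
    have h2 : (6 * B + 6 * N) * tri A (fun _ => 1)
        (fun a b c => if a = b ∨ b = c ∨ a = c then (1:ℝ) else 0)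
        ≤ (6 * B + 6 * N) * (3 * (A.card : ℝ) ^ 2) :=
      mul_le_mul_of_nonneg_left h1 (by linarith)
    have h3 : ∑ a ∈ A, (1:ℝ) = A.card := by simp
    rw [h3] at key
    linarith
  · intro a b c
    rw [hε12]
    congr 2
    exact if_congr (by tauto_set) rfl rfl
  · intro a b c
    rw [hε23]
    congr 2
    exact if_congr (by tauto_set) rfl rfl
  · intro a ha b hb c hc hab hbc
    by_cases hd : a = b ∨ b = c ∨ a = c
    · rw [if_pos hd]
      have h1 : sym6 F a b c ≤ 6 * B := by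
        unfold sym6
        linarith [hB a ha b hb c hc, hB a ha c hc b hb, hB b hb a ha c hc, hB b hb c hc a ha,
          hB c hc a ha b hb, hB c hc b hb a ha]
      have h2 : sq3 K s a b c ≤ 3 * N := by
        unfold sq3
        rw [sum_add_distrib, sum_add_distrib]
        linarith [hN a ha b hb c hc, hN b hb a ha c hc, hN c hc a ha b hb]
      have h3 := hε0 a b c
      linarith
    · rw [if_neg hd]
      push Not at hd
      have h1 := h a ha b hb c hc (lt_of_le_of_ne hab hd.1) (lt_of_le_of_ne hbc hd.2.1)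
      linarith

/-- labels and midpoints: `F z a b = G z (2b - a) + mid z a b / 2`; unordered pairs -/
theorem tri_split (A : Finset ℤ) (G : ℤ → ℤ → ℝ) (mid : ℤ → ℤ → ℤ → ℝ)
    (hsym : ∀ z a b, mid z a b = mid z b a) (h0 : ∀ z a, 0 ≤ mid z a a) :
    ∑ z ∈ A, ∑ a ∈ A, ∑ b ∈ A, G z (2 * b - a)
      + ∑ z ∈ A, ∑ a ∈ A, ∑ b ∈ A, (if a < b then mid z a b else 0)
      ≤ tri A (fun _ => 1) (fun z a b => G z (2 * b - a) + mid z a b / 2) := by
  unfold tri
  rw [← sum_add_distrib]
  refine sum_le_sum fun z _ => ?_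
  have h1 : ∑ a ∈ A, ∑ b ∈ A, (1:ℝ) * 1 * 1 * (G z (2 * b - a) + mid z a b / 2)
      = ∑ a ∈ A, ∑ b ∈ A, G z (2 * b - a) + (∑ a ∈ A, ∑ b ∈ A, mid z a b) / 2 := by
    rw [sum_div]
    simp only [sum_div, ← sum_add_distrib]
    refine sum_congr rfl fun a _ => sum_congr rfl fun b _ => ?_
    ring
  rw [h1]
  have h2 : ∑ a ∈ A, ∑ b ∈ A, (if a < b then mid z a b else 0)
      = ∑ a ∈ A, ∑ b ∈ A, (if b < a then mid z a b else 0) := by
    rw [sum_comm]
    refine sum_congr rfl fun a _ => sum_congr rfl fun b _ => ?_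
    split_ifs
    · exact hsym z b a
    · rfl
  have h3 : ∑ a ∈ A, ∑ b ∈ A, (if a < b then mid z a b else 0)
      + ∑ a ∈ A, ∑ b ∈ A, (if b < a then mid z a b else 0)
      ≤ ∑ a ∈ A, ∑ b ∈ A, mid z a b := by
    rw [← sum_add_distrib]
    refine sum_le_sum fun a _ => ?_
    rw [← sum_add_distrib]
    refine sum_le_sum fun b _ => ?_
    rcases lt_trichotomy a b with c | c | c
    · rw [if_pos c, if_neg (by omega), add_zero]
    · subst c
      rw [if_neg (lt_irrefl a), add_zero]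
      exact h0 z a
    · rw [if_neg (by omega), if_pos c, zero_add]
  linarith

end

end MP61673a.Sos
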