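import Pool.Agent.Mu673.Kink4
import Pool.Agent.Mu673.Sos

/-!
HAT INTERPOLATION FOR TYPED POINTS, NO SCALE: point = (class, real coordinate in node units), class
`c` has the nodes `lo c, .., hi c` (runs of different classes may overlap: double nodes).
`TX` three variables, `nX` two, `kX` one. `bridgeX`: node inequality ==> pointwise inequality.
-/

set_option autoImplicit false

namespace MP61673a.Bary

open Finset MP61673a.Kink MP61673a.Sos

noncomputable section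

variable {C : Type*} {κι : Type*}

/-- nodes of a class -/
def nd (lo hi : C → ℤ) (c : C) : Finset ℤ := Icc (lo c) (hi c)

/-- region of the points -/
def RegX (lo hi : C → ℤ) (z : C × ℝ) : Prop := (lo z.1 : ℝ) ≤ z.2 ∧ z.2 ≤ hi z.1

lemma RegX.near {lo hi : C → ℤ} {z : C × ℝ} (h : RegX lo hi z) : Near (nd lo hi z.1) z.2 :=
  near_Icc h.1 h.2

lemma RegX.one {lo hi : C → ℤ} {z : C × ℝ} (h : RegX lo hi z) :
    ∑ i ∈ nd lo hi z.1, hat i z.2 = 1 := sum_hat_one h.near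

/-- three variable interpolation -/
def TX (lo hi : C → ℤ) (f : C × ℤ → C × ℤ → C × ℤ → ℝ) (z a b : C × ℝ) : ℝ :=
  ∑ i ∈ nd lo hi z.1, ∑ j ∈ nd lo hi a.1, ∑ k ∈ nd lo hi b.1,
    hat i z.2 * hat j a.2 * hat k b.2 * f (z.1, i) (a.1, j) (b.1, k)

/-- two variable interpolation -/
def nX (lo hi : C → ℤ) (f : C × ℤ → C × ℤ → ℝ) (a b : C × ℝ) : ℝ :=
  ∑ j ∈ nd lo hi a.1, ∑ k ∈ nd lo hi b.1, hat j a.2 * hat k b.2 * f (a.1, j) (b.1, k)

/-- one variable interpolation -/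
def kX (lo hi : C → ℤ) (f : C × ℤ → ℝ) (z : C × ℝ) : ℝ :=
  ∑ i ∈ nd lo hi z.1, hat i z.2 * f (z.1, i)

section
variable (lo hi : C → ℤ)

lemma TX_add (f g : C × ℤ → C × ℤ → C × ℤ → ℝ) (z a b : C × ℝ) :
    TX lo hi (fun i j k => f i j k + g i j k) z a b = TX lo hi f z a b + TX lo hi g z a b := by
  unfold TX
  simp only [← sum_add_distrib]
  refine sum_congr rfl fun i _ => sum_congr rfl fun j _ => sum_congr rfl fun k _ => ?_
  ring

lemma TX_smul (f : C × ℤ → C × ℤ → C × ℤ → ℝ) (r : ℝ) (z a b : C × ℝ) :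
    TX lo hi (fun i j k => r * f i j k) z a b = r * TX lo hi f z a b := by
  unfold TX
  simp only [mul_sum]
  refine sum_congr rfl fun i _ => sum_congr rfl fun j _ => sum_congr rfl fun k _ => ?_
  ring

lemma TX_neg (f : C × ℤ → C × ℤ → C × ℤ → ℝ) (z a b : C × ℝ) :
    TX lo hi (fun i j k => - f i j k) z a b = - TX lo hi f z a b := by
  have h := TX_smul lo hi f (-1) z a b
  simp only [neg_one_mul] at h
  exact h

lemma TX_sub (f g : C × ℤ → C × ℤ → C × ℤ → ℝ) (z a b : C × ℝ) :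
    TX lo hi (fun i j k => f i j k - g i j k) z a b = TX lo hi f z a b - TX lo hi g z a b := by
  simp only [sub_eq_add_neg]
  rw [TX_add, TX_neg]

lemma TX_sum {ι : Type*} (J : Finset ι) (f : ι → C × ℤ → C × ℤ → C × ℤ → ℝ) (z a b : C × ℝ) :
    TX lo hi (fun i j k => ∑ q ∈ J, f q i j k) z a b = ∑ q ∈ J, TX lo hi (f q) z a b := by
  classical
  induction J using Finset.induction_on with
  | empty => simp [TX]
  | insert q J hq ih =>
    simp only [sum_insert hq]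
    rw [TX_add, ih]

lemma TX_swap23 (f : C × ℤ → C × ℤ → C × ℤ → ℝ) (z a b : C × ℝ) :
    TX lo hi f z b a = TX lo hi (fun i j k => f i k j) z a b := by
  unfold TX
  refine sum_congr rfl fun i _ => ?_
  rw [sum_comm]
  refine sum_congr rfl fun j _ => sum_congr rfl fun k _ => ?_
  ring

lemma TX_swap12 (f : C × ℤ → C × ℤ → C × ℤ → ℝ) (z a b : C × ℝ) :
    TX lo hi f a z b = TX lo hi (fun i j k => f j i k) z a b := by
  unfold TX
  rw [sum_comm]
  refine sum_congr rfl fun i _ => sum_congr rfl fun j _ => sum_congr rfl fun k _ => ?_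
  ring

lemma TX_nX (f : C × ℤ → C × ℤ → C × ℤ → ℝ) (z a b : C × ℝ) :
    TX lo hi f z a b = ∑ i ∈ nd lo hi z.1, hat i z.2 * nX lo hi (f (z.1, i)) a b := by
  unfold TX nX
  refine sum_congr rfl fun i _ => ?_
  rw [mul_sum]
  refine sum_congr rfl fun j _ => ?_
  rw [mul_sum]
  refine sum_congr rfl fun k _ => ?_
  ring

lemma TX_prod (u : C × ℤ → ℝ) (v : C × ℤ → C × ℤ → ℝ) (z a b : C × ℝ) :
    TX lo hi (fun i j k => u i * v j k) z a b = kX lo hi u z * nX lo hi v a b := by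
  rw [TX_nX]
  unfold kX nX
  rw [sum_mul]
  refine sum_congr rfl fun i _ => ?_
  rw [mul_assoc]
  congr 1
  simp only [mul_sum]
  refine sum_congr rfl fun j _ => sum_congr rfl fun k _ => ?_
  ring

lemma nX_add (f g : C × ℤ → C × ℤ → ℝ) (a b : C × ℝ) :
    nX lo hi (fun x y => f x y + g x y) a b = nX lo hi f a b + nX lo hi g a b := by
  unfold nX
  simp only [← sum_add_distrib]
  refine sum_congr rfl fun j _ => sum_congr rfl fun k _ => ?_
  ring

lemma nX_smul (f : C × ℤ → C × ℤ → ℝ) (r : ℝ) (a b : C × ℝ) :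
    nX lo hi (fun x y => r * f x y) a b = r * nX lo hi f a b := by
  unfold nX
  simp only [mul_sum]
  refine sum_congr rfl fun j _ => sum_congr rfl fun k _ => ?_
  ring

lemma nX_neg (f : C × ℤ → C × ℤ → ℝ) (a b : C × ℝ) :
    nX lo hi (fun x y => - f x y) a b = - nX lo hi f a b := by
  have h := nX_smul lo hi f (-1) a b
  simp only [neg_one_mul] at h
  exact h

lemma nX_sum {ι : Type*} (I : Finset ι) (f : ι → C × ℤ → C × ℤ → ℝ) (a b : C × ℝ) :
    nX lo hi (fun x y => ∑ i ∈ I, f i x y) a b = ∑ i ∈ I, nX lo hi (f i) a b := by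
  classical
  induction I using Finset.induction_on with
  | empty => simp [nX]
  | insert q I hq ih =>
    simp only [sum_insert hq]
    rw [nX_add, ih]

lemma nX_swap (f : C × ℤ → C × ℤ → ℝ) (a b : C × ℝ) :
    nX lo hi f b a = nX lo hi (fun x y => f y x) a b := by
  unfold nX
  rw [sum_comm]
  refine sum_congr rfl fun j _ => sum_congr rfl fun k _ => ?_
  ring

lemma nX_prod (u v : C × ℤ → ℝ) (a b : C × ℝ) :
    nX lo hi (fun x y => u x * v y) a b = kX lo hi u a * kX lo hi v b := by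
  unfold nX kX
  rw [sum_mul_sum]
  refine sum_congr rfl fun j _ => sum_congr rfl fun k _ => ?_
  ring

lemma kX_add (f g : C × ℤ → ℝ) (z : C × ℝ) :
    kX lo hi (fun x => f x + g x) z = kX lo hi f z + kX lo hi g z := by
  unfold kX
  rw [← sum_add_distrib]
  refine sum_congr rfl fun j _ => ?_
  ring

lemma kX_smul (f : C × ℤ → ℝ) (r : ℝ) (z : C × ℝ) :
    kX lo hi (fun x => r * f x) z = r * kX lo hi f z := by
  unfold kX
  rw [mul_sum]
  refine sum_congr rfl fun j _ => ?_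
  ring

lemma kX_nonneg {f : C × ℤ → ℝ} (z : C × ℝ) (h : ∀ i ∈ nd lo hi z.1, 0 ≤ f (z.1, i)) :
    0 ≤ kX lo hi f z :=
  sum_nonneg fun i hi' => mul_nonneg (hat_nonneg _ _) (h i hi')

lemma nX_nonneg {f : C × ℤ → C × ℤ → ℝ} (a b : C × ℝ)
    (h : ∀ i ∈ nd lo hi a.1, ∀ j ∈ nd lo hi b.1, 0 ≤ f (a.1, i) (b.1, j)) :
    0 ≤ nX lo hi f a b :=
  sum_nonneg fun i hi' => sum_nonneg fun j hj =>
    mul_nonneg (mul_nonneg (hat_nonneg _ _) (hat_nonneg _ _)) (h i hi' j hj)

variable {lo hi}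

lemma nX_const {a b : C × ℝ} (ha : RegX lo hi a) (hb : RegX lo hi b) (r : ℝ) :
    nX lo hi (fun _ _ => r) a b = r := by
  unfold nX
  have e : ∑ j ∈ nd lo hi a.1, ∑ k ∈ nd lo hi b.1, hat j a.2 * hat k b.2 * r
      = (∑ j ∈ nd lo hi a.1, ∑ k ∈ nd lo hi b.1, hat j a.2 * hat k b.2) * r := by
    rw [sum_mul]
    refine sum_congr rfl fun j _ => ?_
    rw [sum_mul]
  rw [e, ← sum_mul_sum, ha.one, hb.one]
  ring

lemma kX_const {z : C × ℝ} (hz : RegX lo hi z) (r : ℝ) : kX lo hi (fun _ => r) z = r := by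
  unfold kX
  rw [← sum_mul, hz.one, one_mul]

lemma TX_const {z a b : C × ℝ} (hz : RegX lo hi z) (ha : RegX lo hi a) (hb : RegX lo hi b)
    (r : ℝ) : TX lo hi (fun _ _ _ => r) z a b = r := by
  rw [TX_nX]
  have : ∀ i ∈ nd lo hi z.1, hat i z.2 * nX lo hi (fun _ _ => r) a b = hat i z.2 * r :=
    fun i _ => by rw [nX_const ha hb]
  rw [sum_congr rfl this, ← sum_mul, hz.one, one_mul]

/-- functions of the first point only -/
lemma TX_one1 (u : C × ℤ → ℝ) {a b : C × ℝ} (z : C × ℝ) (ha : RegX lo hi a)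
    (hb : RegX lo hi b) : TX lo hi (fun z _ _ => u z) z a b = kX lo hi u z := by
  have h := TX_prod lo hi u (fun _ _ => 1) z a b
  simp only [mul_one] at h
  rw [h, nX_const ha hb, mul_one]

/-- functions of the last two points only -/
lemma TX_two23 (v : C × ℤ → C × ℤ → ℝ) {z : C × ℝ} (hz : RegX lo hi z) (a b : C × ℝ) :
    TX lo hi (fun _ a b => v a b) z a b = nX lo hi v a b := by
  have h := TX_prod lo hi (fun _ => 1) v z a b
  simp only [one_mul] at h
  rw [h, kX_const hz, one_mul]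

/-- functions of the first two points only -/
lemma TX_two12 (v : C × ℤ → C × ℤ → ℝ) {b : C × ℝ} (hb : RegX lo hi b) (z a : C × ℝ) :
    TX lo hi (fun z a _ => v z a) z a b = nX lo hi v z a := by
  unfold TX nX
  refine sum_congr rfl fun i _ => sum_congr rfl fun j _ => ?_
  have e : ∑ k ∈ nd lo hi b.1, hat i z.2 * hat j a.2 * hat k b.2 * v (z.1, i) (a.1, j)
      = (∑ k ∈ nd lo hi b.1, hat k b.2) * (hat i z.2 * hat j a.2 * v (z.1, i) (a.1, j)) := by
    rw [sum_mul]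
    refine sum_congr rfl fun k _ => ?_
    ring
  rw [e, hb.one, one_mul]

/-- functions of the first and last points only -/
lemma TX_two13 (v : C × ℤ → C × ℤ → ℝ) {a : C × ℝ} (ha : RegX lo hi a) (z b : C × ℝ) :
    TX lo hi (fun z _ b => v z b) z a b = nX lo hi v z b := by
  rw [TX_swap23 lo hi _ z b a]
  exact TX_two12 v ha z b

lemma TX_mono {f g : C × ℤ → C × ℤ → C × ℤ → ℝ} {z a b : C × ℝ}
    (h : ∀ i ∈ nd lo hi z.1, ∀ j ∈ nd lo hi a.1, ∀ k ∈ nd lo hi b.1,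
      f (z.1, i) (a.1, j) (b.1, k) ≤ g (z.1, i) (a.1, j) (b.1, k)) :
    TX lo hi f z a b ≤ TX lo hi g z a b := by
  unfold TX
  exact sum_le_sum fun i hi' => sum_le_sum fun j hj => sum_le_sum fun k hk =>
    mul_le_mul_of_nonneg_left (h i hi' j hj k hk)
      (mul_nonneg (mul_nonneg (hat_nonneg _ _) (hat_nonneg _ _)) (hat_nonneg _ _))

lemma nX_mono {f g : C × ℤ → C × ℤ → ℝ} {a b : C × ℝ}
    (h : ∀ j ∈ nd lo hi a.1, ∀ k ∈ nd lo hi b.1, f (a.1, j) (b.1, k) ≤ g (a.1, j) (b.1, k)) :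
    nX lo hi f a b ≤ nX lo hi g a b := by
  unfold nX
  exact sum_le_sum fun j hj => sum_le_sum fun k hk =>
    mul_le_mul_of_nonneg_left (h j hj k hk) (mul_nonneg (hat_nonneg _ _) (hat_nonneg _ _))

lemma sym6_TX (f : C × ℤ → C × ℤ → C × ℤ → ℝ) (a b c : C × ℝ) :
    sym6 (TX lo hi f) a b c = TX lo hi (fun z a b => sym6 f z a b) a b c := by
  unfold sym6
  have e1 : TX lo hi f a c b = TX lo hi (fun i j k => f i k j) a b c := TX_swap23 _ _ _ _ _ _
  have e2 : TX lo hi f b a c = TX lo hi (fun i j k => f j i k) a b c := TX_swap12 _ _ _ _ _ _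
  have e3 : TX lo hi f b c a = TX lo hi (fun i j k => f j k i) a b c := by
    rw [TX_swap23 lo hi f b a c, TX_swap12]
  have e4 : TX lo hi f c a b = TX lo hi (fun i j k => f k i j) a b c := by
    rw [TX_swap12 lo hi f a c b, TX_swap23]
  have e5 : TX lo hi f c b a = TX lo hi (fun i j k => f k j i) a b c := by
    rw [TX_swap23 lo hi f c a b, TX_swap12 lo hi _ a c b, TX_swap23]
  rw [e1, e2, e3, e4, e5, TX_add, TX_add, TX_add, TX_add, TX_add]

end

/-- squares at real coordinates; index (square, node of the sampler) -/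
def sX (lo hi : C → ℤ) (sg : κι → C × ℤ → C × ℤ → ℝ) (q : κι × ℤ) (z b : C × ℝ) : ℝ :=
  (if q.2 ∈ nd lo hi z.1 then Real.sqrt (hat q.2 z.2) else 0)
    * ∑ j ∈ nd lo hi b.1, hat j b.2 * sg q.1 (z.1, q.2) (b.1, j)

/-- the squares at real coordinates are the interpolated node squares -/
lemma sq3X_eq {lo hi : C → ℤ} {K : Finset κι} {W : Finset ℤ}
    (hW : ∀ c, nd lo hi c ⊆ W) (sg : κι → C × ℤ → C × ℤ → ℝ) (a b c : C × ℝ) :
    sq3 (K ×ˢ W) (sX lo hi sg) a b c
      = TX lo hi (fun z a b => sq3 K sg z a b) a b c := by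
  have key : ∀ z x y : C × ℝ, ∑ q ∈ K ×ˢ W, sX lo hi sg q z x * sX lo hi sg q z y
      = TX lo hi (fun z x y => ∑ q ∈ K, sg q z x * sg q z y) z x y := by
    intro z x y
    rw [sum_product, TX_sum]
    refine sum_congr rfl fun q _ => ?_
    rw [TX_nX]
    have e0 : ∑ w ∈ W, sX lo hi sg (q, w) z x * sX lo hi sg (q, w) z y
        = ∑ w ∈ nd lo hi z.1, sX lo hi sg (q, w) z x * sX lo hi sg (q, w) z y := by
      symm
      apply sum_subset (hW z.1)
      intro w _ hw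
      unfold sX
      dsimp only
      rw [if_neg hw]
      ring
    rw [e0]
    refine sum_congr rfl fun i hi' => ?_
    unfold sX nX
    dsimp only
    rw [if_pos hi']
    have h1 := Real.mul_self_sqrt (hat_nonneg i z.2)
    have e1 : Real.sqrt (hat i z.2)
          * (∑ j ∈ nd lo hi x.1, hat j x.2 * sg q (z.1, i) (x.1, j))
          * (Real.sqrt (hat i z.2)
            * ∑ j ∈ nd lo hi y.1, hat j y.2 * sg q (z.1, i) (y.1, j))
        = (Real.sqrt (hat i z.2) * Real.sqrt (hat i z.2))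
          * ((∑ j ∈ nd lo hi x.1, hat j x.2 * sg q (z.1, i) (x.1, j))
            * ∑ j ∈ nd lo hi y.1, hat j y.2 * sg q (z.1, i) (y.1, j)) := by
      ring
    rw [e1, h1, sum_mul_sum]
    congr 1
    refine sum_congr rfl fun j _ => sum_congr rfl fun k _ => ?_
    ring
  unfold sq3
  rw [sum_add_distrib, sum_add_distrib, key a b c, key b a c, key c a b]
  have e2 : TX lo hi (fun z x y => ∑ q ∈ K, sg q z x * sg q z y) b a c
      = TX lo hi (fun i j k => ∑ q ∈ K, sg q j i * sg q j k) a b c := TX_swap12 lo hi _ a b c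
  have e3 : TX lo hi (fun z x y => ∑ q ∈ K, sg q z x * sg q z y) c a b
      = TX lo hi (fun i j k => ∑ q ∈ K, sg q k i * sg q k j) a b c := by
    rw [TX_swap12 lo hi _ a c b, TX_swap23]
  rw [e2, e3, ← TX_add, ← TX_add]
  congr 1
  funext i j k
  rw [← sum_add_distrib, ← sum_add_distrib]

/-- NODE INEQUALITY ==> POINTWISE INEQUALITY. `F` = pointwise functional, at most the interpolation
of the node table `Fn`; the node table satisfies the inequality at every triple of nodes. -/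
theorem bridgeX {lo hi : C → ℤ} {W : Finset ℤ} (hW : ∀ c, nd lo hi c ⊆ W)
    {F : C × ℝ → C × ℝ → C × ℝ → ℝ} {Fn : C × ℤ → C × ℤ → C × ℤ → ℝ} {K : Finset κι}
    {sg : κι → C × ℤ → C × ℤ → ℝ} {B : ℝ}
    (hF : ∀ z a b, RegX lo hi z → RegX lo hi a → RegX lo hi b → F z a b ≤ TX lo hi Fn z a b)
    (hnode : ∀ z a b : C × ℤ, z.2 ∈ nd lo hi z.1 → a.2 ∈ nd lo hi a.1 → b.2 ∈ nd lo hi b.1 →
      sym6 Fn z a b + 2 * sq3 K sg z a b ≤ B)
    {a b c : C × ℝ} (ha : RegX lo hi a) (hb : RegX lo hi b) (hc : RegX lo hi c) :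
    sym6 F a b c + 2 * sq3 (K ×ˢ W) (sX lo hi sg) a b c ≤ B := by
  have h1 : sym6 F a b c ≤ sym6 (TX lo hi Fn) a b c := by
    unfold sym6
    have i1 := hF a b c ha hb hc
    have i2 := hF a c b ha hc hb
    have i3 := hF b a c hb ha hc
    have i4 := hF b c a hb hc ha
    have i5 := hF c a b hc ha hb
    have i6 := hF c b a hc hb ha
    linarith
  rw [sym6_TX] at h1
  rw [sq3X_eq hW sg a b c]
  have h2 := TX_mono (lo := lo) (hi := hi) (f := fun z a b => sym6 Fn z a b + 2 * sq3 K sg z a b)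
    (g := fun _ _ _ => B) (z := a) (a := b) (b := c)
    (fun i hi' j hj k hk => hnode (a.1, i) (b.1, j) (c.1, k) hi' hj hk)
  rw [TX_const ha hb hc, TX_add, TX_smul] at h2
  linarith

/-- the same with squares indexed by `Fin m` -/
theorem bridgeX_fin {lo hi : C → ℤ} {W : Finset ℤ} (hW : ∀ c, nd lo hi c ⊆ W)
    {F : C × ℝ → C × ℝ → C × ℝ → ℝ} {Fn : C × ℤ → C × ℤ → C × ℤ → ℝ} {p : ℕ}
    {sg : Fin p → C × ℤ → C × ℤ → ℝ} {B : ℝ}
    (hF : ∀ z a b, RegX lo hi z → RegX lo hi a → RegX lo hi b → F z a b ≤ TX lo hi Fn z a b)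
    (hnode : ∀ z a b : C × ℤ, z.2 ∈ nd lo hi z.1 → a.2 ∈ nd lo hi a.1 → b.2 ∈ nd lo hi b.1 →
      sym6 Fn z a b + 2 * sq3 univ sg z a b ≤ B) :
    ∃ (m : ℕ) (s : Fin m → C × ℝ → C × ℝ → ℝ), ∀ a b c : C × ℝ, RegX lo hi a → RegX lo hi b →
      RegX lo hi c → sym6 F a b c + 2 * sq3 univ s a b c ≤ B := by
  set Ix : Finset (Fin p × ℤ) := (univ : Finset (Fin p)) ×ˢ W with hIx
  refine ⟨Ix.card, fun q => sX lo hi sg ((Ix.equivFin.symm q : Ix) : Fin p × ℤ), ?_⟩
  intro a b c ha hb hc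
  have key := bridgeX (K := univ) hW hF hnode ha hb hc
  have e3 : sq3 univ (fun q : Fin Ix.card =>
        sX lo hi sg ((Ix.equivFin.symm q : Ix) : Fin p × ℤ)) a b c
      = sq3 Ix (sX lo hi sg) a b c := by
    unfold sq3
    rw [Equiv.sum_comp Ix.equivFin.symm (fun q : Ix =>
        sX lo hi sg (q : Fin p × ℤ) a b * sX lo hi sg (q : Fin p × ℤ) a c
        + sX lo hi sg (q : Fin p × ℤ) b a * sX lo hi sg (q : Fin p × ℤ) b c
        + sX lo hi sg (q : Fin p × ℤ) c a * sX lo hi sg (q : Fin p × ℤ) c b)]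
    exact sum_coe_sort Ix (fun q =>
        sX lo hi sg q a b * sX lo hi sg q a c
        + sX lo hi sg q b a * sX lo hi sg q b c
        + sX lo hi sg q c a * sX lo hi sg q c b)
  rw [e3]
  exact key

/-! ### Label functions as node tables -/

/-- `pl lam (2 b - a)` -/
lemma endX {lam W : ℤ → ℝ} (h : EndOK lam W) {lo hi : C → ℤ} {a b : C × ℝ}
    (ha : RegX lo hi a) (hb : RegX lo hi b) :
    pl lam (2 * b.2 - a.2) ≤ nX lo hi (fun x y => W (2 * y.2 - x.2)) a b :=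
  h _ _ _ _ ha.near hb.near

/-- `pl lam (2 b + a)` -/
lemma endX_add {lam W : ℤ → ℝ} (h : EndOK lam W) {lo hi : C → ℤ} {a b : C × ℝ}
    (ha : RegX lo hi a) (hb : RegX lo hi b) :
    pl lam (2 * b.2 + a.2) ≤ nX lo hi (fun x y => W (2 * y.2 + x.2)) a b :=
  h.add ha.near hb.near

/-- `pl lam (a - 2 b)` -/
lemma endX_sub {lam W : ℤ → ℝ} (h : EndOK lam W) {lo hi : C → ℤ} {a b : C × ℝ}
    (ha : RegX lo hi a) (hb : RegX lo hi b) :
    pl lam (a.2 - 2 * b.2) ≤ nX lo hi (fun x y => W (x.2 - 2 * y.2)) a b :=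
  h.sub ha.near hb.near

/-- `pl lam (- 2 b - a)` -/
lemma endX_neg {lam W : ℤ → ℝ} (h : EndOK lam W) {lo hi : C → ℤ} {a b : C × ℝ}
    (ha : RegX lo hi a) (hb : RegX lo hi b) :
    pl lam (-(2 * b.2) - a.2) ≤ nX lo hi (fun x y => W (-(2 * y.2) - x.2)) a b :=
  h.neg ha.near hb.near

/-- `pl lam ((a + b) / 2)` -/
lemma midX {lam W : ℤ → ℝ} (h : MidOK lam W) {lo hi : C → ℤ} {a b : C × ℝ}
    (ha : RegX lo hi a) (hb : RegX lo hi b) :
    pl lam ((a.2 + b.2) / 2) ≤ nX lo hi (fun x y => W (x.2 + y.2)) a b :=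
  h _ _ _ _ ha.near hb.near

/-- `pl lam (-(a + b) / 2)` -/
lemma midX_neg {lam W : ℤ → ℝ} (h : MidOK lam W) {lo hi : C → ℤ} {a b : C × ℝ}
    (ha : RegX lo hi a) (hb : RegX lo hi b) :
    pl lam (-((a.2 + b.2) / 2)) ≤ nX lo hi (fun x y => W (-(x.2 + y.2))) a b :=
  h.neg ha.near hb.near

/-- `pl lam ((b - a) / 2)` -/
lemma midX_dif {lam W : ℤ → ℝ} (h : MidOK lam W) {lo hi : C → ℤ} {a b : C × ℝ}
    (ha : RegX lo hi a) (hb : RegX lo hi b) :
    pl lam ((b.2 - a.2) / 2) ≤ nX lo hi (fun x y => W (y.2 - x.2)) a b :=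
  h.dif ha.near hb.near

end

end MP61673a.Bary
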