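import Pool.Agent.Mu673.SegData
import Pool.Agent.Mu673.FarBoxT

/-!
BASE BOUND `κ n ≤ |A|^2` FROM AN INTEGER CERTIFICATE WITH SEGMENTS (SegData), no hypothesis on
the set.  The constant column `cc z` of the sampler node `z` (entry 7 of `ke`) is twice the
multiplier of `κ n - |A|^2 ≥ 0`; `κ = kn / kd`.
-/

set_option autoImplicit false

namespace MP61673a.KC

open Finset MP61673a.Kink MP61673a.Sos MP61673a.Bridge
open MP61673a.TP (CertifiedC)

noncomputable section

/-- the fact `f` is the share of the class of parity `e` minus `1/3`, times `3` -/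
def chkJ (l : List Seg) (f : FnS) (e : ℕ) : Bool :=
  allN (vN l) (fun v => Nat.beq (nth 0 f.lp v) (Nat.mul 2 (eqn (locE l v) e))
    && Nat.beq (nth 0 f.ln v) (Nat.sub 1 (eqn (locE l v) e)))

/-! ### The two full segments -/

/-- both parity classes over the whole window -/
def segs2 (N : ℕ) : List Seg := [⟨0, N + 1, 0⟩, ⟨0, N + 1, 1⟩]

/-- class of the cell `x` -/
def cl2 (x : ℤ) : ℕ := if x % 2 = 0 then 1 else 0

/-- node values of the share facts, minus `1/3` -/
def l2 (N : ℕ) (e : ℕ) (z : ℕ × ℤ) : ℝ :=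
  if (sgA (segs2 N) z.1).par = e then 2 / 3 else -1 / 3

lemma chkJ_spec {N : ℕ} {f : FnS} {e : ℕ} (he : e ≤ 1) (h : chkJ (segs2 N) f e = true)
    {z : ℕ × ℤ} (hz : okS (segs2 N) z) :
    (3 : ℝ) * l2 N e z = ((nth 0 f.lp (vO (segs2 N) z) : ℕ) : ℝ)
      - ((nth 0 f.ln (vO (segs2 N) z) : ℕ) : ℝ) := by
  obtain ⟨z1, z2, z3⟩ := vO_spec (segs2 N) z.1 z.2 hz
  change vO (segs2 N) z < _ at z1
  change locE (segs2 N) (vO (segs2 N) z) = _ at z3
  have h1 := allN_imp h _ z1
  rw [Bool.and_eq_true] at h1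
  have a1 := Nat.eq_of_beq_eq_true h1.1
  have a2 := Nat.eq_of_beq_eq_true h1.2
  rw [a1, a2, z3]
  have hp : (sgA (segs2 N) z.1).par ≤ 1 := by
    rw [← z3]
    refine locE_le _ (fun s hs => ?_) _
    unfold segs2 at hs
    simp only [List.mem_cons, List.not_mem_nil, or_false] at hs
    rcases hs with rfl | rfl <;> norm_num
  unfold l2
  generalize (sgA (segs2 N) z.1).par = u at hp ⊢
  have hu : u = 0 ∨ u = 1 := by omega
  have he' : e = 0 ∨ e = 1 := by omega
  rcases hu with rfl | rfl <;> rcases he' with rfl | rfl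
  · change (3:ℝ) * (if (0:ℕ) = 0 then (2:ℝ) / 3 else -1 / 3) = ((2 : ℕ) : ℝ) - ((0 : ℕ) : ℝ)
    norm_num
  · change (3:ℝ) * (if (0:ℕ) = 1 then (2:ℝ) / 3 else -1 / 3) = ((0 : ℕ) : ℝ) - ((1 : ℕ) : ℝ)
    norm_num
  · change (3:ℝ) * (if (1:ℕ) = 0 then (2:ℝ) / 3 else -1 / 3) = ((0 : ℕ) : ℝ) - ((1 : ℕ) : ℝ)
    norm_num
  · change (3:ℝ) * (if (1:ℕ) = 1 then (2:ℝ) / 3 else -1 / 3) = ((2 : ℕ) : ℝ) - ((0 : ℕ) : ℝ)
    norm_num

/-- THE BASE BOUND FROM THE TABLES: `κ n ≤ |A|^2`, `κ = kn / kd`, for every maximal `A`, `n ≥ n0` -/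
theorem base_bound {d : DatS} {X : List (List ℕ)} {o2 Mx Mw n0 kn kd M : ℕ} {f0 f1 : FnS}
    (hN : d.N = M + 1) (hsg : d.segs = segs2 (M + 1)) (hfn : d.fn = [f0, f1])
    (h0 : chkJ (segs2 (M + 1)) f0 0 = true) (h1 : chkJ (segs2 (M + 1)) f1 1 = true)
    (hb : bndS d = true) (hs : symS d = true)
    (hg : chkG d = true) (hX : chkY d X [] o2 Mx Mw n0 kd kn = true)
    (ho : o2 ≤ (d.N + 1) / 2) (hn0 : d.N ≤ n0) (hBd : 0 < d.Bd) (hkd : 0 < kd) (hk : kn ≤ kd)
    (hm : segCheck d 0 (vN d.segs) = true) {n : ℕ} (hn : n0 ≤ n) {A : Finset ℕ}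
    (h : Lift.IsMaximalThreeFree n A) : kn * n ≤ kd * A.card ^ 2 := by
  by_contra hcon
  push Not at hcon
  have hlt : A.card ^ 2 < n := by
    by_contra h2
    push Not at h2
    have : kn * n ≤ kd * A.card ^ 2 := Nat.mul_le_mul hk h2
    omega
  have hn1 : 0 < n := by omega
  set J : List FnS := [f0, f1] with hJ
  set l : Fin J.length → ℕ × ℤ → ℝ := fun q => l2 (M + 1) q.1 with hl
  have hlv : ∀ q : Fin J.length, ∀ z, okS d.segs z →
      ((3 : ℕ) : ℝ) * l q z = ((nth 0 (J.get q).lp (vO d.segs z) : ℕ) : ℝ)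
        - ((nth 0 (J.get q).ln (vO d.segs z) : ℕ) : ℝ) := by
    intro q z hz
    rw [hsg] at hz ⊢
    match q with
    | ⟨0, _⟩ =>
      have := chkJ_spec (by norm_num) h0 hz
      push_cast
      exact this
    | ⟨1, _⟩ =>
      have := chkJ_spec (by norm_num) h1 hz
      push_cast
      exact this
    | ⟨k + 2, hk2⟩ =>
      exfalso
      simp [hJ] at hk2
  have hF : Fct d J 3 l [] 1 (fun _ _ _ => 0) :=
    ⟨hlv, fun i => absurd i.2 (by simp)⟩
  have cert := certC_of_data (J := J) (l := l) (I := []) (dφ := 1) (phin := fun _ _ _ => 0)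
    hN hfn hb hs hg hX hF ho hn0 hBd hkd hm hn
    (ℓ := fun q z => kC (M + 1) (loC d.segs) (hiC d.segs) (l q) z) (fun q z _ => rfl)
    (φ := fun _ _ _ => 0) (fun i => absurd i.2 (by simp)) (c := fun _ => 0)
    (fun i => absurd i.2 (by simp))
  have hR : ∀ a ∈ Lift.shift A, RegC (M + 1) (loC d.segs) (hiC d.segs) (cl2 a, TP.pos n a) := by
    intro a ha
    have hr := TP.shift_bounds h ha
    have hp := TP.pos_mem (n := n) (x := a) hr.1 hr.2
    rw [hsg]
    have hc : cl2 a = 0 ∨ cl2 a = 1 := by unfold cl2; split_ifs <;> simp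
    have e0 : loC (segs2 (M + 1)) (cl2 a) = 0 := by
      rcases hc with h | h <;> rw [h] <;> rfl
    have e1 : hiC (segs2 (M + 1)) (cl2 a) = (M : ℤ) + 1 := by
      rcases hc with h | h <;> rw [h]
      · change ((0 : ℕ) : ℤ) + ((M + 1 + 1 : ℕ) : ℤ) - 1 = _
        push_cast
        ring
      · change ((0 : ℕ) : ℤ) + ((M + 1 + 1 : ℕ) : ℤ) - 1 = _
        push_cast
        ring
    refine ⟨?_, ?_, hp.1, hp.2⟩
    · change ((loC (segs2 (M + 1)) (cl2 a) : ℤ) : ℝ) ≤ _
      rw [e0]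
      have := mul_nonneg (show (0:ℝ) ≤ ((M + 1 : ℕ) : ℝ) by positivity) hp.1.le
      simpa using this
    · change _ ≤ ((hiC (segs2 (M + 1)) (cl2 a) : ℤ) : ℝ)
      rw [e1]
      push_cast
      have h3 : (0:ℝ) ≤ (M:ℝ) + 1 := by positivity
      have := mul_le_mul_of_nonneg_left hp.2.le h3
      linarith
  have hpar : ∀ a ∈ Lift.shift A, parC d.segs (cl2 a) = (TP.tp n a).1 := by
    intro a _
    rw [hsg]
    unfold cl2 TP.tp
    by_cases c : a % 2 = 0
    · rw [if_pos c]
      simp only [c, decide_true]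
      rfl
    · rw [if_neg c]
      simp only [c, decide_false]
      rfl
  refine cert.false h hlt cl2 hpar hR ?_ ?_
  · intro q _
    have e : ∀ a ∈ Lift.shift A, kC (M + 1) (loC d.segs) (hiC d.segs) (l q) (cl2 a, TP.pos n a)
        = (if (sgA (segs2 (M + 1)) (cl2 a)).par = q.1 then (2:ℝ) / 3 else -1 / 3) := by
      intro a ha
      have := (hR a ha).one
      unfold kC
      have e2 : ∀ i, l q ((cl2 a, TP.pos n a).1, i)
          = (if (sgA (segs2 (M + 1)) (cl2 a)).par = q.1 then (2:ℝ) / 3 else -1 / 3) := fun i => rfl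
      simp only [e2]
      rw [← sum_mul, this, one_mul]
    rw [sum_congr rfl e]
    have hq : q.1 = 0 ∨ q.1 = 1 := by
      have := q.2
      simp [hJ] at this
      omega
    have e3 : ∀ a : ℤ, (sgA (segs2 (M + 1)) (cl2 a)).par = if a % 2 = 0 then 1 else 0 := by
      intro a
      unfold cl2
      split_ifs <;> rfl
    have F := fun b => TP.class_facts h hlt b
    have key : ∀ b : Bool, (∀ a : ℤ, (decide (a % 2 = 0) = b)
        ↔ ((if a % 2 = 0 then 1 else 0) = q.1)) →
        0 ≤ ∑ a ∈ Lift.shift A, (if (sgA (segs2 (M + 1)) (cl2 a)).par = q.1 then (2:ℝ) / 3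
          else -1 / 3) := by
      intro b hb2
      have f := F b
      have e4 : TP.linT n (Lift.shift A) (TP.clsF b)
          = ∑ a ∈ Lift.shift A, (if (sgA (segs2 (M + 1)) (cl2 a)).par = q.1 then (1:ℝ) else 0) := by
        unfold TP.linT
        refine sum_congr rfl fun a _ => ?_
        unfold TP.clsF TP.tp
        simp only
        rw [e3]
        exact if_congr (hb2 a) rfl rfl
      rw [e4] at f
      have e5 : ∑ a ∈ Lift.shift A, (if (sgA (segs2 (M + 1)) (cl2 a)).par = q.1 then (2:ℝ) / 3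
          else -1 / 3)
          = ∑ a ∈ Lift.shift A, (if (sgA (segs2 (M + 1)) (cl2 a)).par = q.1 then (1:ℝ) else 0)
            - (1 / 3) * (Lift.shift A).card := by
        rw [← nsmul_eq_mul', ← sum_const, ← sum_sub_distrib]
        refine sum_congr rfl fun a _ => ?_
        split_ifs <;> norm_num
      rw [e5]
      linarith
    rcases hq with hq | hq
    · refine key false fun a => ?_
      rw [hq]
      by_cases c : a % 2 = 0
      · simp [c]
      · simp [c]
    · refine key true fun a => ?_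
      rw [hq]
      by_cases c : a % 2 = 0
      · simp [c]
      · simp [c]
  · intro i _
    match i with
    | some i => exact absurd i.2 (by simp)
    | none =>
      have hkd' : (0:ℝ) < kd := by exact_mod_cast hkd
      have hc : ((kd * A.card ^ 2 : ℕ) : ℝ) < ((kn * n : ℕ) : ℝ) := by exact_mod_cast hcon
      push_cast at hc
      have e : ∑ a ∈ Lift.shift A, ∑ b ∈ Lift.shift A,
          optF (fun (_ : Fin (([] : List Prf)).length) (_ _ : ℕ × ℝ) => (0:ℝ)) none
            (cl2 a, TP.pos n a) (cl2 b, TP.pos n b) = -((A.card : ℝ) ^ 2) := by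
        change ∑ a ∈ Lift.shift A, ∑ b ∈ Lift.shift A, (-1:ℝ) = _
        simp only [sum_const, Lift.card_shift]
        simp only [nsmul_eq_mul]
        ring
      rw [e]
      change (-((kn:ℝ) / kd)) * n ≤ _
      have e2 : -((kn:ℝ) / kd) * n = -((kn * n) / kd) := by ring
      rw [e2, neg_le_neg_iff, le_div_iff₀ hkd']
      linarith

end

end MP61673a.KC
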