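import Pool.Agent.Mu673.ThreePoint

set_option autoImplicit false

/-!
Hat functions on the nodes `i/N`, and their sums over the cell centres `(x+1/2)/n`:
`Σ_x hat N i (pos n x) ≥ n/N - N/(4n)` (half of it for the two end nodes).
-/

namespace MP61673a.TP

open Finset

noncomputable section

/-- cell integrals of `|u - t|`: antiderivative -/
def antid (t u : ℝ) : ℝ := (u - t) * |u - t| / 2

lemma cell_eq_left {t a b : ℝ} (hab : a ≤ b) (h : b ≤ t) :
    antid t b - antid t a = (b - a) * |(a + b) / 2 - t| := by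
  unfold antid
  rw [abs_of_nonpos (by linarith : b - t ≤ 0), abs_of_nonpos (by linarith : a - t ≤ 0),
    abs_of_nonpos (by linarith : (a + b) / 2 - t ≤ 0)]
  ring

lemma cell_eq_right {t a b : ℝ} (hab : a ≤ b) (h : t ≤ a) :
    antid t b - antid t a = (b - a) * |(a + b) / 2 - t| := by
  unfold antid
  rw [abs_of_nonneg (by linarith : 0 ≤ b - t), abs_of_nonneg (by linarith : 0 ≤ a - t),
    abs_of_nonneg (by linarith : 0 ≤ (a + b) / 2 - t)]
  ring

lemma cell_ge {t a b : ℝ} (hab : a ≤ b) :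
    (b - a) * |(a + b) / 2 - t| ≤ antid t b - antid t a := by
  by_cases h1 : b ≤ t
  · exact (cell_eq_left hab h1).ge
  by_cases h2 : t ≤ a
  · exact (cell_eq_right hab h2).ge
  push Not at h1 h2
  unfold antid
  rw [abs_of_nonneg (by linarith : 0 ≤ b - t), abs_of_nonpos (by linarith : a - t ≤ 0)]
  rcases le_total 0 ((a + b) / 2 - t) with h | h
  · rw [abs_of_nonneg h]
    nlinarith [mul_self_nonneg (t - a), mul_self_nonneg (b - t)]
  · rw [abs_of_nonpos h]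
    nlinarith [mul_self_nonneg (t - a), mul_self_nonneg (b - t)]

lemma cell_le {t a b : ℝ} (hab : a ≤ b) :
    antid t b - antid t a ≤ (b - a) * |(a + b) / 2 - t| + (b - a) ^ 2 / 4 := by
  by_cases h1 : b ≤ t
  · rw [cell_eq_left hab h1]
    nlinarith [sq_nonneg (b - a)]
  by_cases h2 : t ≤ a
  · rw [cell_eq_right hab h2]
    nlinarith [sq_nonneg (b - a)]
  push Not at h1 h2
  unfold antid
  rw [abs_of_nonneg (by linarith : 0 ≤ b - t), abs_of_nonpos (by linarith : a - t ≤ 0)]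
  rcases le_total 0 ((a + b) / 2 - t) with h | h
  · rw [abs_of_nonneg h]
    nlinarith [mul_nonneg (by linarith : 0 ≤ t - a) h, mul_nonneg (by linarith : 0 ≤ b - t) h]
  · rw [abs_of_nonpos h]
    nlinarith [mul_nonneg (by linarith : 0 ≤ t - a) (neg_nonneg.2 h),
      mul_nonneg (by linarith : 0 ≤ b - t) (neg_nonneg.2 h)]

lemma sum_Ico_int (n : ℕ) (f : ℤ → ℝ) :
    ∑ x ∈ Ico (0 : ℤ) n, f x = ∑ x ∈ range n, f (x : ℤ) := by
  symm
  refine sum_bij (fun (x : ℕ) _ => (x : ℤ)) ?_ ?_ ?_ ?_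
  · intro x hx
    rw [mem_range] at hx
    rw [mem_Ico]
    omega
  · intro a _ b _ h
    exact_mod_cast h
  · intro b hb
    rw [mem_Ico] at hb
    exact ⟨b.toNat, by rw [mem_range]; omega, by omega⟩
  · intro a _
    rfl

lemma antid_tel {n : ℕ} (hn : 0 < n) (t : ℝ) :
    ∑ x ∈ Ico (0 : ℤ) n, (antid t (((x : ℝ) + 1) / n) - antid t ((x : ℝ) / n))
      = antid t 1 - antid t 0 := by
  have hn' : (n : ℝ) ≠ 0 := by exact_mod_cast hn.ne'
  rw [sum_Ico_int n (fun x => antid t (((x : ℝ) + 1) / n) - antid t ((x : ℝ) / n))]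
  have := sum_range_sub (fun x : ℕ => antid t ((x : ℝ) / n)) n
  push_cast at this ⊢
  rw [this, div_self hn', zero_div]

/-- `Σ_x |pos x - t| ≤ n (t^2 + (1-t)^2)/2` -/
lemma abs_sum_le {n : ℕ} (hn : 0 < n) {t : ℝ} (h0 : 0 ≤ t) (h1 : t ≤ 1) :
    ∑ x ∈ Ico (0 : ℤ) n, |pos n x - t| ≤ n * (t ^ 2 + (1 - t) ^ 2) / 2 := by
  have hn' : (0:ℝ) < n := by exact_mod_cast hn
  have key : ∑ x ∈ Ico (0 : ℤ) n, |pos n x - t| / n
      ≤ ∑ x ∈ Ico (0 : ℤ) n, (antid t (((x : ℝ) + 1) / n) - antid t ((x : ℝ) / n)) := by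
    refine sum_le_sum fun x _ => ?_
    have := cell_ge (t := t) (a := (x : ℝ) / n) (b := ((x : ℝ) + 1) / n)
      (by gcongr; linarith)
    refine le_trans (le_of_eq ?_) this
    have e1 : ((x : ℝ) + 1) / n - (x : ℝ) / n = 1 / n := by ring
    have e2 : ((x : ℝ) / n + ((x : ℝ) + 1) / n) / 2 = pos n x := by
      unfold pos
      ring
    rw [e1, e2]
    ring
  rw [antid_tel hn, ← sum_div] at key
  have e3 : antid t 1 - antid t 0 = (t ^ 2 + (1 - t) ^ 2) / 2 := by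
    unfold antid
    rw [abs_of_nonneg (by linarith : 0 ≤ 1 - t), abs_of_nonpos (by linarith : 0 - t ≤ 0)]
    ring
  rw [e3, div_le_iff₀ hn'] at key
  linarith

/-- `Σ_x |pos x - t| ≥ n (t^2 + (1-t)^2)/2 - 1/(4n)` -/
lemma abs_sum_ge {n : ℕ} (hn : 0 < n) {t : ℝ} (h0 : 0 ≤ t) (h1 : t ≤ 1) :
    n * (t ^ 2 + (1 - t) ^ 2) / 2 - 1 / (4 * n) ≤ ∑ x ∈ Ico (0 : ℤ) n, |pos n x - t| := by
  have hn' : (0:ℝ) < n := by exact_mod_cast hn
  have key : ∑ x ∈ Ico (0 : ℤ) n, (antid t (((x : ℝ) + 1) / n) - antid t ((x : ℝ) / n))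
      ≤ ∑ x ∈ Ico (0 : ℤ) n, (|pos n x - t| / n
        + if x = ⌊(n : ℝ) * t⌋ then 1 / (4 * (n : ℝ) ^ 2) else 0) := by
    refine sum_le_sum fun x _ => ?_
    have e1 : ((x : ℝ) + 1) / n - (x : ℝ) / n = 1 / n := by ring
    have e2 : ((x : ℝ) / n + ((x : ℝ) + 1) / n) / 2 = pos n x := by
      unfold pos
      ring
    have hab : (x : ℝ) / n ≤ ((x : ℝ) + 1) / n := by gcongr; linarith
    by_cases c : x = ⌊(n : ℝ) * t⌋
    · rw [if_pos c]
      have := cell_le (t := t) hab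
      rw [e1, e2] at this
      refine this.trans (le_of_eq ?_)
      field_simp
    · rw [if_neg c, add_zero]
      rcases lt_or_gt_of_ne c with d | d
      · have h2 : (x : ℝ) + 1 ≤ n * t := by
          have h3 : ((x + 1 : ℤ) : ℝ) ≤ n * t := Int.le_floor.1 (by omega)
          push_cast at h3
          exact h3
        have h3 : ((x : ℝ) + 1) / n ≤ t := by
          rw [div_le_iff₀ hn']
          linarith
        rw [cell_eq_left hab h3, e1, e2]
        exact le_of_eq (by ring)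
      · have h2 : (n : ℝ) * t < x := Int.floor_lt.1 d
        have h3 : t ≤ (x : ℝ) / n := by
          rw [le_div_iff₀ hn']
          linarith
        rw [cell_eq_right hab h3, e1, e2]
        exact le_of_eq (by ring)
  rw [antid_tel hn, sum_add_distrib, ← sum_div] at key
  have e3 : antid t 1 - antid t 0 = (t ^ 2 + (1 - t) ^ 2) / 2 := by
    unfold antid
    rw [abs_of_nonneg (by linarith : 0 ≤ 1 - t), abs_of_nonpos (by linarith : 0 - t ≤ 0)]
    ring
  have e4 : ∑ x ∈ Ico (0 : ℤ) n, (if x = ⌊(n : ℝ) * t⌋ then 1 / (4 * (n : ℝ) ^ 2) else 0)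
      ≤ 1 / (4 * (n : ℝ) ^ 2) := by
    rw [sum_ite_eq']
    split_ifs
    · exact le_rfl
    · positivity
  rw [e3] at key
  have e5 : (t ^ 2 + (1 - t) ^ 2) / 2 - 1 / (4 * (n : ℝ) ^ 2)
      ≤ (∑ x ∈ Ico (0 : ℤ) n, |pos n x - t|) / n := by linarith
  rw [le_div_iff₀ hn'] at e5
  refine le_trans (le_of_eq ?_) e5
  field_simp

lemma pos_sum {n : ℕ} (hn : 0 < n) : ∑ x ∈ Ico (0 : ℤ) n, pos n x = n / 2 := by
  have h := abs_sum_le hn (t := 0) le_rfl zero_le_one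
  have hn' : (n : ℝ) ≠ 0 := by exact_mod_cast hn.ne'
  unfold pos
  rw [← sum_div, sum_Ico_int n (fun x => (x : ℝ) + 1 / 2)]
  have : ∀ m : ℕ, ∑ x ∈ range m, (((x : ℤ) : ℝ) + 1 / 2) = (m : ℝ) ^ 2 / 2 := by
    intro m
    induction m with
    | zero => simp
    | succ m ih =>
      rw [sum_range_succ, ih]
      push_cast
      ring
  rw [this]
  field_simp

/-- hat function of the node `i/N` -/
def hat (N : ℕ) (i : ℤ) (x : ℝ) : ℝ := max 0 (1 - |N * x - i|)

lemma hat_nonneg (N : ℕ) (i : ℤ) (x : ℝ) : 0 ≤ hat N i x := le_max_left _ _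

lemma hat_eq_abs (N : ℕ) (i : ℤ) (x : ℝ) :
    hat N i x = (|N * x - (i - 1)| - 2 * |N * x - i| + |N * x - (i + 1)|) / 2 := by
  unfold hat
  set y : ℝ := N * x
  rcases le_total y (i - 1 : ℝ) with h1 | h1
  · rw [abs_of_nonpos (by linarith : y - i ≤ 0), abs_of_nonpos (by linarith : y - (i - 1) ≤ 0),
      abs_of_nonpos (by linarith : y - (i + 1) ≤ 0), max_eq_left (by linarith)]
    ring
  rcases le_total y (i : ℝ) with h2 | h2
  · rw [abs_of_nonpos (by linarith : y - i ≤ 0), abs_of_nonneg (by linarith : 0 ≤ y - (i - 1)),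
      abs_of_nonpos (by linarith : y - (i + 1) ≤ 0), max_eq_right (by linarith)]
    ring
  rcases le_total y (i + 1 : ℝ) with h3 | h3
  · rw [abs_of_nonneg (by linarith : 0 ≤ y - i), abs_of_nonneg (by linarith : 0 ≤ y - (i - 1)),
      abs_of_nonpos (by linarith : y - (i + 1) ≤ 0), max_eq_right (by linarith)]
    ring
  · rw [abs_of_nonneg (by linarith : 0 ≤ y - i), abs_of_nonneg (by linarith : 0 ≤ y - (i - 1)),
      abs_of_nonneg (by linarith : 0 ≤ y - (i + 1)), max_eq_left (by linarith)]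
    ring

lemma abs_scale {N : ℕ} (hN : 0 < N) (x : ℝ) (j : ℝ) : |N * x - j| = N * |x - j / N| := by
  have hN' : (0:ℝ) < N := by exact_mod_cast hN
  rw [← abs_of_pos hN', ← abs_mul, abs_of_pos hN']
  congr 1
  field_simp

/-- sums of interior hats -/
theorem hat_sum_ge {n N : ℕ} (hn : 0 < n) (hN : 0 < N) {i : ℤ} (h1 : 1 ≤ i) (h2 : i + 1 ≤ N) :
    (n : ℝ) / N - N / (4 * n) ≤ ∑ x ∈ Ico (0 : ℤ) n, hat N i (pos n x) := by
  have hN' : (0:ℝ) < N := by exact_mod_cast hN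
  have hn' : (0:ℝ) < n := by exact_mod_cast hn
  have i1 : (1:ℝ) ≤ i := by exact_mod_cast h1
  have i2 : (i:ℝ) + 1 ≤ N := by exact_mod_cast h2
  have e : ∑ x ∈ Ico (0 : ℤ) n, hat N i (pos n x)
      = (N * ∑ x ∈ Ico (0 : ℤ) n, |pos n x - (i - 1) / N|
        - 2 * (N * ∑ x ∈ Ico (0 : ℤ) n, |pos n x - i / N|)
        + N * ∑ x ∈ Ico (0 : ℤ) n, |pos n x - (i + 1) / N|) / 2 := by
    rw [mul_sum, mul_sum, mul_sum, mul_sum, ← sum_sub_distrib, ← sum_add_distrib, sum_div]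
    refine sum_congr rfl fun x _ => ?_
    rw [hat_eq_abs, abs_scale hN, abs_scale hN, abs_scale hN]
  rw [e]
  have b1 := abs_sum_ge hn (t := ((i:ℝ) - 1) / N) (by
    apply div_nonneg
    · linarith
    · linarith) (by rw [div_le_one hN']; linarith)
  have b2 := abs_sum_le hn (t := (i:ℝ) / N) (by
    apply div_nonneg
    · linarith
    · linarith) (by rw [div_le_one hN']; linarith)
  have b3 := abs_sum_ge hn (t := ((i:ℝ) + 1) / N) (by
    apply div_nonneg
    · linarith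
    · linarith) (by rw [div_le_one hN']; linarith)
  have c1 := mul_le_mul_of_nonneg_left b1 hN'.le
  have c2 := mul_le_mul_of_nonneg_left b2 hN'.le
  have c3 := mul_le_mul_of_nonneg_left b3 hN'.le
  have e2 : (n : ℝ) / N - N / (4 * n)
      = (N * (n * ((((i:ℝ) - 1) / N) ^ 2 + (1 - ((i:ℝ) - 1) / N) ^ 2) / 2 - 1 / (4 * n))
        - 2 * (N * (n * (((i:ℝ) / N) ^ 2 + (1 - (i:ℝ) / N) ^ 2) / 2))
        + N * (n * ((((i:ℝ) + 1) / N) ^ 2 + (1 - ((i:ℝ) + 1) / N) ^ 2) / 2 - 1 / (4 * n))) / 2 := by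
    field_simp
    ring
  rw [e2]
  linarith

/-- sum of the hat of the left end -/
theorem hat_sum_zero {n N : ℕ} (hn : 0 < n) (hN : 0 < N) :
    (n : ℝ) / (2 * N) - N / (8 * n) ≤ ∑ x ∈ Ico (0 : ℤ) n, hat N 0 (pos n x) := by
  have hN' : (0:ℝ) < N := by exact_mod_cast hN
  have hn' : (0:ℝ) < n := by exact_mod_cast hn
  have hN1 : (1:ℝ) ≤ N := by exact_mod_cast hN
  have e : ∑ x ∈ Ico (0 : ℤ) n, hat N 0 (pos n x)
      = (N * ∑ x ∈ Ico (0 : ℤ) n, |pos n x - 1 / N|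
        - N * ∑ x ∈ Ico (0 : ℤ) n, pos n x + ∑ x ∈ Ico (0 : ℤ) n, (1:ℝ)) / 2 := by
    rw [mul_sum, mul_sum, ← sum_sub_distrib, ← sum_add_distrib, sum_div]
    refine sum_congr rfl fun x hx => ?_
    rw [mem_Ico] at hx
    have hp := (pos_mem hx.1 hx.2).1
    rw [hat_eq_abs, ← abs_scale hN]
    push_cast
    have hy : 0 < (N:ℝ) * pos n x := mul_pos hN' hp
    rw [abs_of_nonneg (by linarith : (0:ℝ) ≤ N * pos n x - (0 - 1)),
      abs_of_nonneg (by linarith : (0:ℝ) ≤ N * pos n x - 0)]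
    have : (N:ℝ) * pos n x - (0 + 1) = N * pos n x - 1 := by ring
    rw [this]
    ring
  rw [e, pos_sum hn]
  have c : ∑ x ∈ Ico (0 : ℤ) n, (1:ℝ) = n := by
    rw [sum_const, Int.card_Ico]
    simp
  rw [c]
  have b1 := abs_sum_ge hn (t := 1 / (N:ℝ)) (by positivity) (by rw [div_le_one hN']; exact hN1)
  have c1 := mul_le_mul_of_nonneg_left b1 hN'.le
  have e2 : (n : ℝ) / (2 * N) - N / (8 * n)
      = (N * (n * ((1 / (N:ℝ)) ^ 2 + (1 - 1 / (N:ℝ)) ^ 2) / 2 - 1 / (4 * n))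
        - N * (n / 2) + n) / 2 := by
    field_simp
    ring
  rw [e2]
  linarith

lemma pos_reflect (n : ℕ) (hn : 0 < n) (x : ℤ) : pos n (n - 1 - x) = 1 - pos n x := by
  have hn' : (n : ℝ) ≠ 0 := by exact_mod_cast hn.ne'
  unfold pos
  push_cast
  field_simp
  ring

lemma sum_reflect {n : ℕ} (f : ℤ → ℝ) :
    ∑ x ∈ Ico (0 : ℤ) n, f (n - 1 - x) = ∑ x ∈ Ico (0 : ℤ) n, f x := by
  refine sum_bij (fun x _ => (n : ℤ) - 1 - x) ?_ ?_ ?_ ?_
  · intro x hx
    rw [mem_Ico] at hx ⊢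
    omega
  · intro a _ b _ h
    omega
  · intro b hb
    rw [mem_Ico] at hb
    exact ⟨(n : ℤ) - 1 - b, by rw [mem_Ico]; omega, by omega⟩
  · intro a _
    rfl

/-- sum of the hat of the right end -/
theorem hat_sum_last {n N : ℕ} (hn : 0 < n) (hN : 0 < N) :
    (n : ℝ) / (2 * N) - N / (8 * n) ≤ ∑ x ∈ Ico (0 : ℤ) n, hat N N (pos n x) := by
  refine (hat_sum_zero hn hN).trans (le_of_eq ?_)
  rw [← sum_reflect]
  refine sum_congr rfl fun x _ => ?_
  rw [pos_reflect n hn]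
  unfold hat
  congr 2
  rw [← abs_neg]
  congr 1
  push_cast
  ring

/-- partition of unity -/
lemma hat_sum_one {N : ℕ} (hN : 0 < N) {x : ℝ} (h0 : 0 ≤ x) (h1 : x ≤ 1) :
    ∑ i ∈ Icc (0 : ℤ) N, hat N i x = 1 := by
  have hN' : (0:ℝ) < N := by exact_mod_cast hN
  set y : ℝ := N * x with hy
  have y0 : 0 ≤ y := by positivity
  have y1 : y ≤ N := by
    rw [hy]
    nlinarith
  have f0 : 0 ≤ ⌊y⌋ := Int.floor_nonneg.2 y0
  have f1 : (⌊y⌋ : ℝ) ≤ y := Int.floor_le y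
  have f2 : y < ⌊y⌋ + 1 := Int.lt_floor_add_one y
  have hz : ∀ i : ℤ, i ≠ ⌊y⌋ → i ≠ ⌊y⌋ + 1 → hat N i x = 0 := by
    intro i hi1 hi2
    unfold hat
    rw [← hy]
    apply max_eq_left
    rcases lt_or_gt_of_ne hi1 with h | h
    · have : (i:ℝ) + 1 ≤ ⌊y⌋ := by exact_mod_cast h
      rw [abs_of_nonneg (by linarith)]
      linarith
    · have : (⌊y⌋ : ℝ) + 2 ≤ i := by exact_mod_cast (by omega : ⌊y⌋ + 2 ≤ i)
      rw [abs_of_nonpos (by linarith)]
      linarith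
  have hfl : ⌊y⌋ ≤ N := by
    have : (⌊y⌋ : ℝ) ≤ N := f1.trans y1
    exact_mod_cast this
  have v1 : hat N ⌊y⌋ x = 1 - (y - ⌊y⌋) := by
    unfold hat
    rw [← hy, abs_of_nonneg (by linarith), max_eq_right (by linarith)]
  have v2 : hat N (⌊y⌋ + 1) x = y - ⌊y⌋ := by
    unfold hat
    rw [← hy]
    push_cast
    rw [abs_of_nonpos (by linarith), max_eq_right (by linarith)]
    ring
  by_cases c : ⌊y⌋ = N
  · rw [sum_eq_single ⌊y⌋]
    · rw [v1]
      have : (⌊y⌋ : ℝ) = N := by exact_mod_cast c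
      linarith
    · intro i hi hne
      rw [mem_Icc] at hi
      exact hz i hne (by omega)
    · intro h
      rw [mem_Icc] at h
      omega
  · rw [sum_eq_add (⌊y⌋) (⌊y⌋ + 1) (by omega)]
    · rw [v1, v2]
      ring
    · intro i _ hne
      exact hz i hne.1 hne.2
    · intro h
      rw [mem_Icc] at h
      omega
    · intro h
      rw [mem_Icc] at h
      omega

end

end MP61673a.TP
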