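import Pool.Agent.Mu673.Kink
import Pool.Agent.Mu673.Hat

/-!
BRIDGE: a finite element certificate (node inequalities on the lattice `0..N`) gives the pointwise
three point inequality of `ThreePoint.lean` for all real positions.
Node data (sampler node `i`, label node `y`): prices `lam i y ≥ 0` with kink bounds `D i y`,
multiplier `kap i` of the pair count fact with the majorant `inl`, `Din` of the window,
multipliers `nu J j k` of the linear facts with node values `l J i`, squares with node values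
`sg q i j` (`q` = index of the square, sampler node `i`, position node `j`).
-/

set_option autoImplicit false

namespace MP61673a.Bridge

open Finset MP61673a.Kink MP61673a.Sos
open MP61673a.TP (pos pos_mem three_point_bound hat_sum_ge hat_sum_zero hat_sum_last)

noncomputable section

/-- the nodes -/
def nd (N : ℕ) : Finset ℤ := Icc 0 (N : ℤ)

/-- trilinear interpolation of node values -/
def T3 (N : ℕ) (f : ℤ → ℤ → ℤ → ℝ) (z a b : ℝ) : ℝ :=
  ∑ i ∈ nd N, ∑ j ∈ nd N, ∑ k ∈ nd N, hat i (N * z) * hat j (N * a) * hat k (N * b) * f i j k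

lemma near_nd {N : ℕ} {x : ℝ} (h0 : 0 ≤ x) (h1 : x ≤ 1) : Near (nd N) (N * x) := by
  apply near_Icc
  · push_cast
    positivity
  · push_cast
    have : (0:ℝ) ≤ N := by positivity
    nlinarith

lemma T3_add (N : ℕ) (f g : ℤ → ℤ → ℤ → ℝ) (z a b : ℝ) :
    T3 N (fun i j k => f i j k + g i j k) z a b = T3 N f z a b + T3 N g z a b := by
  unfold T3
  simp only [← sum_add_distrib]
  refine sum_congr rfl fun i _ => sum_congr rfl fun j _ => sum_congr rfl fun k _ => ?_
  ring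

lemma T3_smul (N : ℕ) (f : ℤ → ℤ → ℤ → ℝ) (r z a b : ℝ) :
    T3 N (fun i j k => r * f i j k) z a b = r * T3 N f z a b := by
  unfold T3
  simp only [mul_sum]
  refine sum_congr rfl fun i _ => sum_congr rfl fun j _ => sum_congr rfl fun k _ => ?_
  ring

lemma T3_sum {ι : Type*} (N : ℕ) (J : Finset ι) (f : ι → ℤ → ℤ → ℤ → ℝ) (z a b : ℝ) :
    T3 N (fun i j k => ∑ q ∈ J, f q i j k) z a b = ∑ q ∈ J, T3 N (f q) z a b := by
  classical
  induction J using Finset.induction_on with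
  | empty =>
    simp [T3]
  | insert q J hq ih =>
    simp only [sum_insert hq]
    rw [T3_add, ih]

/-- swap the last two arguments -/
lemma T3_swap23 (N : ℕ) (f : ℤ → ℤ → ℤ → ℝ) (z a b : ℝ) :
    T3 N f z b a = T3 N (fun i j k => f i k j) z a b := by
  unfold T3
  refine sum_congr rfl fun i _ => ?_
  rw [sum_comm]
  refine sum_congr rfl fun j _ => sum_congr rfl fun k _ => ?_
  ring

/-- swap the first two arguments -/
lemma T3_swap12 (N : ℕ) (f : ℤ → ℤ → ℤ → ℝ) (z a b : ℝ) :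
    T3 N f a z b = T3 N (fun i j k => f j i k) z a b := by
  unfold T3
  rw [sum_comm]
  refine sum_congr rfl fun i _ => sum_congr rfl fun j _ => sum_congr rfl fun k _ => ?_
  ring

/-- product form -/
lemma T3_prod (N : ℕ) (u : ℤ → ℝ) (v : ℤ → ℤ → ℝ) (z a b : ℝ) :
    T3 N (fun i j k => u i * v j k) z a b
      = (∑ i ∈ nd N, hat i (N * z) * u i)
        * ∑ j ∈ nd N, ∑ k ∈ nd N, hat j (N * a) * hat k (N * b) * v j k := by
  unfold T3
  rw [sum_mul]
  refine sum_congr rfl fun i _ => ?_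
  rw [mul_sum]
  refine sum_congr rfl fun j _ => ?_
  rw [mul_sum]
  refine sum_congr rfl fun k _ => ?_
  ring

lemma T3_eq (N : ℕ) (f : ℤ → ℤ → ℤ → ℝ) (z a b : ℝ) :
    T3 N f z a b = ∑ i ∈ nd N, hat i (N * z)
      * ∑ j ∈ nd N, ∑ k ∈ nd N, hat j (N * a) * hat k (N * b) * f i j k := by
  unfold T3
  refine sum_congr rfl fun i _ => ?_
  rw [mul_sum]
  refine sum_congr rfl fun j _ => ?_
  rw [mul_sum]
  refine sum_congr rfl fun k _ => ?_
  ring

lemma T3_const {N : ℕ} {z a b : ℝ} (hz : 0 ≤ z ∧ z ≤ 1) (ha : 0 ≤ a ∧ a ≤ 1)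
    (hb : 0 ≤ b ∧ b ≤ 1) (C : ℝ) : T3 N (fun _ _ _ => C) z a b = C := by
  have h := T3_prod N (fun _ => C) (fun _ _ => 1) z a b
  simp only [mul_one] at h
  rw [h, ← sum_mul, sum_hat_one (near_nd hz.1 hz.2)]
  have h2 : ∑ j ∈ nd N, ∑ k ∈ nd N, hat j (N * a) * hat k (N * b) = 1 := by
    rw [← sum_mul_sum, sum_hat_one (near_nd ha.1 ha.2), sum_hat_one (near_nd hb.1 hb.2)]
    ring
  rw [h2]
  ring

lemma T3_mono {N : ℕ} {f g : ℤ → ℤ → ℤ → ℝ}
    (h : ∀ i ∈ nd N, ∀ j ∈ nd N, ∀ k ∈ nd N, f i j k ≤ g i j k) (z a b : ℝ) :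
    T3 N f z a b ≤ T3 N g z a b := by
  unfold T3
  refine sum_le_sum fun i hi => sum_le_sum fun j hj => sum_le_sum fun k hk => ?_
  exact mul_le_mul_of_nonneg_left (h i hi j hj k hk)
    (mul_nonneg (mul_nonneg (hat_nonneg _ _) (hat_nonneg _ _)) (hat_nonneg _ _))

/-- the sum over the permutations of a trilinear interpolation is the trilinear interpolation of
the sum over the permutations -/
lemma sym6_T3 (N : ℕ) (f : ℤ → ℤ → ℤ → ℝ) (a b c : ℝ) :
    sym6 (T3 N f) a b c = T3 N (fun i j k => sym6 f i j k) a b c := by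
  unfold sym6
  have e1 : T3 N f a c b = T3 N (fun i j k => f i k j) a b c := T3_swap23 N f a b c
  have e2 : T3 N f b a c = T3 N (fun i j k => f j i k) a b c := T3_swap12 N f a b c
  have e3 : T3 N f b c a = T3 N (fun i j k => f j k i) a b c := by
    rw [T3_swap23 N f b a c, T3_swap12]
  have e4 : T3 N f c a b = T3 N (fun i j k => f k i j) a b c := by
    rw [T3_swap12 N f a c b, T3_swap23]
  have e5 : T3 N f c b a = T3 N (fun i j k => f k j i) a b c := by
    rw [T3_swap23 N f c a b, T3_swap12 N _ a c b, T3_swap23]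
  rw [e1, e2, e3, e4, e5, T3_add, T3_add, T3_add, T3_add, T3_add]

variable {κι ιJ : Type*}

/-- prices at real positions -/
def gB (N : ℕ) (lam : ℤ → ℤ → ℝ) (z x : ℝ) : ℝ := ∑ i ∈ nd N, hat i (N * z) * pl (lam i) (N * x)

/-- one variable interpolation -/
def kB (N : ℕ) (kap : ℤ → ℝ) (z : ℝ) : ℝ := ∑ i ∈ nd N, hat i (N * z) * kap i

/-- two variable interpolation -/
def nB (N : ℕ) (nu : ℤ → ℤ → ℝ) (a b : ℝ) : ℝ :=
  ∑ j ∈ nd N, ∑ k ∈ nd N, hat j (N * a) * hat k (N * b) * nu j k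

/-- squares at real positions, index (square, sampler node) -/
def sB (N : ℕ) (sg : κι → ℤ → ℤ → ℝ) (q : κι × ℤ) (z b : ℝ) : ℝ :=
  Real.sqrt (hat q.2 (N * z)) * ∑ j ∈ nd N, hat j (N * b) * sg q.1 q.2 j

/-- node cost of the ordered pair `(j,k)` for the sampler node `i` -/
def Fn (lam D : ℤ → ℤ → ℝ) (kap : ℤ → ℝ) (inl Din : ℤ → ℝ) (cE : ℝ) (J : Finset ιJ)
    (nu : ιJ → ℤ → ℤ → ℝ) (l : ιJ → ℤ → ℝ) (i j k : ℤ) : ℝ :=
  kE (lam i) (D i) (2 * k - j) + kap i * kE inl Din (2 * k - j) + kM (lam i) (D i) (j + k) / 2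
    - cE * kap i + ∑ q ∈ J, nu q j k * l q i

lemma gB_nonneg (N : ℕ) {lam : ℤ → ℤ → ℝ} (h : ∀ i ∈ nd N, ∀ y, 0 ≤ lam i y) (z x : ℝ) :
    0 ≤ gB N lam z x :=
  sum_nonneg fun i hi => mul_nonneg (hat_nonneg _ _) (pl_nonneg (h i hi) _)

lemma kB_nonneg (N : ℕ) {kap : ℤ → ℝ} (h : ∀ i ∈ nd N, 0 ≤ kap i) (z : ℝ) : 0 ≤ kB N kap z :=
  sum_nonneg fun i hi => mul_nonneg (hat_nonneg _ _) (h i hi)

lemma nB_nonneg (N : ℕ) {nu : ℤ → ℤ → ℝ} (h : ∀ i ∈ nd N, ∀ j ∈ nd N, 0 ≤ nu i j) (a b : ℝ) :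
    0 ≤ nB N nu a b :=
  sum_nonneg fun i hi => sum_nonneg fun j hj =>
    mul_nonneg (mul_nonneg (hat_nonneg _ _) (hat_nonneg _ _)) (h i hi j hj)

/-- the pointwise cost is at most the interpolated node cost -/
lemma F_le {N : ℕ} {lam D : ℤ → ℤ → ℝ} {kap : ℤ → ℝ} {inl Din : ℤ → ℝ} {cE : ℝ}
    {J : Finset ιJ} {nu : ιJ → ℤ → ℤ → ℝ} {l : ιJ → ℤ → ℝ}
    (hlam : ∀ i ∈ nd N, ∀ y, 0 ≤ lam i y) (hD : ∀ i ∈ nd N, Kinks (lam i) (D i))
    (hkap : ∀ i ∈ nd N, 0 ≤ kap i) (hin0 : ∀ y, 0 ≤ inl y)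
    (hin1 : ∀ y : ℤ, 0 ≤ y → y ≤ N → 1 ≤ inl y) (hDin : Kinks inl Din)
    {z a b : ℝ} (hz : 0 ≤ z ∧ z ≤ 1) (ha : 0 ≤ a ∧ a ≤ 1) (hb : 0 ≤ b ∧ b ≤ 1) :
    TP.F (gB N lam) (kB N kap) cE J (fun q => nB N (nu q)) (fun q => kB N (l q)) z a b
      ≤ T3 N (Fn lam D kap inl Din cE J nu l) z a b := by
  have nz := near_nd (N := N) hz.1 hz.2
  have na := near_nd (N := N) ha.1 ha.2
  have nb := near_nd (N := N) hb.1 hb.2
  have hu : ∑ j ∈ nd N, ∑ k ∈ nd N, hat j (N * a) * hat k (N * b) = 1 := by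
    rw [← sum_mul_sum, sum_hat_one na, sum_hat_one nb]
    ring
  -- end point labels
  have p1 : (if 0 < 2 * b - a ∧ 2 * b - a < 1 then gB N lam z (2 * b - a) + kB N kap z else 0)
      ≤ T3 N (fun i j k => kE (lam i) (D i) (2 * k - j) + kap i * kE inl Din (2 * k - j))
        z a b := by
    have q1 : (if 0 < 2 * b - a ∧ 2 * b - a < 1 then gB N lam z (2 * b - a) + kB N kap z else 0)
        ≤ ∑ i ∈ nd N, hat i (N * z) * (pl (lam i) (N * (2 * b - a))
          + kap i * pl inl (N * (2 * b - a))) := by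
      split_ifs with c
      · unfold gB kB
        rw [← sum_add_distrib]
        refine sum_le_sum fun i hi => ?_
        rw [← mul_add]
        refine mul_le_mul_of_nonneg_left ?_ (hat_nonneg _ _)
        have h1 : 1 ≤ pl inl (N * (2 * b - a)) := by
          have hN : (0:ℝ) ≤ N := by positivity
          have x0 : 0 ≤ (N:ℝ) * (2 * b - a) := mul_nonneg hN c.1.le
          have x1 : (N:ℝ) * (2 * b - a) ≤ N := by nlinarith [c.2]
          set x : ℝ := N * (2 * b - a)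
          have f0 : 0 ≤ ⌊x⌋ := Int.floor_nonneg.2 x0
          have f1 : ⌊x⌋ ≤ N := by
            have : (⌊x⌋ : ℝ) ≤ N := (Int.floor_le x).trans x1
            exact_mod_cast this
          have g0 := hin1 ⌊x⌋ f0 f1
          have s0 := Int.fract_nonneg x
          have s1 := Int.fract_lt_one x
          unfold pl
          rcases eq_or_lt_of_le s0 with e | e
          · rw [← e]
            linarith
          · have f2 : ⌊x⌋ + 1 ≤ N := by
              have : (⌊x⌋ : ℝ) < N := by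
                have := Int.floor_add_fract x
                linarith
              have : ⌊x⌋ < (N:ℤ) := by exact_mod_cast this
              omega
            have g1 := hin1 (⌊x⌋ + 1) (by omega) f2
            nlinarith
        have := mul_le_mul_of_nonneg_left h1 (hkap i hi)
        linarith
      · refine sum_nonneg fun i hi => mul_nonneg (hat_nonneg _ _) ?_
        exact add_nonneg (pl_nonneg (hlam i hi) _) (mul_nonneg (hkap i hi) (pl_nonneg hin0 _))
    refine q1.trans ?_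
    rw [T3_eq]
    refine sum_le_sum fun i hi => mul_le_mul_of_nonneg_left ?_ (hat_nonneg _ _)
    have r1 := pl_le_E (hD i hi) na nb
    have r2 := pl_le_E hDin na nb
    rw [show 2 * ((N:ℝ) * b) - N * a = N * (2 * b - a) by ring] at r1 r2
    have r3 := mul_le_mul_of_nonneg_left r2 (hkap i hi)
    have e : ∑ j ∈ nd N, ∑ k ∈ nd N, hat j (N * a) * hat k (N * b)
          * (kE (lam i) (D i) (2 * k - j) + kap i * kE inl Din (2 * k - j))
        = ∑ j ∈ nd N, ∑ k ∈ nd N, hat j (N * a) * hat k (N * b) * kE (lam i) (D i) (2 * k - j)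
          + kap i * ∑ j ∈ nd N, ∑ k ∈ nd N, hat j (N * a) * hat k (N * b)
            * kE inl Din (2 * k - j) := by
      simp only [mul_sum, ← sum_add_distrib]
      refine sum_congr rfl fun j _ => sum_congr rfl fun k _ => ?_
      ring
    rw [e]
    linarith
  -- midpoints
  have p2 : gB N lam z ((a + b) / 2) / 2
      ≤ T3 N (fun i j k => kM (lam i) (D i) (j + k) / 2) z a b := by
    rw [T3_eq]
    unfold gB
    rw [sum_div]
    refine sum_le_sum fun i hi => ?_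
    rw [mul_div_assoc]
    refine mul_le_mul_of_nonneg_left ?_ (hat_nonneg _ _)
    have r1 := pl_le_M (hD i hi) na nb
    rw [show ((N:ℝ) * a + N * b) / 2 = N * ((a + b) / 2) by ring] at r1
    have e : ∑ j ∈ nd N, ∑ k ∈ nd N, hat j (N * a) * hat k (N * b) * (kM (lam i) (D i) (j + k) / 2)
        = (∑ j ∈ nd N, ∑ k ∈ nd N, hat j (N * a) * hat k (N * b) * kM (lam i) (D i) (j + k))
          / 2 := by
      simp only [sum_div]
      refine sum_congr rfl fun j _ => sum_congr rfl fun k _ => ?_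
      ring
    rw [e]
    linarith
  -- the constant of the pair count fact
  have p3 : -(cE * kB N kap z) = T3 N (fun i _ _ => -(cE * kap i)) z a b := by
    have h := T3_prod N (fun i => -(cE * kap i)) (fun _ _ => 1) z a b
    simp only [mul_one] at h
    rw [h, hu]
    unfold kB
    rw [mul_sum, mul_one, ← sum_neg_distrib]
    refine sum_congr rfl fun i _ => ?_
    ring
  -- linear facts
  have p4 : ∑ q ∈ J, nB N (nu q) a b * kB N (l q) z
      = T3 N (fun i j k => ∑ q ∈ J, nu q j k * l q i) z a b := by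
    rw [T3_sum]
    refine sum_congr rfl fun q _ => ?_
    have h := T3_prod N (l q) (nu q) z a b
    have h2 : T3 N (fun i j k => nu q j k * l q i) z a b
        = T3 N (fun i j k => l q i * nu q j k) z a b := by
      congr 1
      funext i j k
      ring
    rw [h2, h]
    unfold nB kB
    ring
  have e : T3 N (Fn lam D kap inl Din cE J nu l) z a b
      = T3 N (fun i j k => kE (lam i) (D i) (2 * k - j) + kap i * kE inl Din (2 * k - j)) z a b
        + T3 N (fun i j k => kM (lam i) (D i) (j + k) / 2) z a b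
        + T3 N (fun i _ _ => -(cE * kap i)) z a b
        + T3 N (fun i j k => ∑ q ∈ J, nu q j k * l q i) z a b := by
    rw [← T3_add, ← T3_add, ← T3_add]
    congr 1
  rw [e, ← p3, ← p4]
  unfold TP.F
  linarith

/-- the squares at real positions are the interpolated node squares -/
lemma sq3_eq {N : ℕ} {K : Finset κι} (sg : κι → ℤ → ℤ → ℝ) {a b c : ℝ}
    (ha : 0 ≤ a ∧ a ≤ 1) (hb : 0 ≤ b ∧ b ≤ 1) (hc : 0 ≤ c ∧ c ≤ 1) :
    sq3 (K ×ˢ nd N) (sB N sg) a b c
      = T3 N (fun i j k => sq3 K (fun q i j => sg q i j) i j k) a b c := by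
  have key : ∀ z x y : ℝ, ∑ q ∈ K ×ˢ nd N, sB N sg q z x * sB N sg q z y
      = T3 N (fun i j k => ∑ q ∈ K, sg q i j * sg q i k) z x y := by
    intro z x y
    rw [sum_product, T3_sum]
    refine sum_congr rfl fun q _ => ?_
    rw [T3_eq]
    refine sum_congr rfl fun i _ => ?_
    unfold sB
    simp only
    have h1 := Real.mul_self_sqrt (hat_nonneg i (N * z))
    have e1 : Real.sqrt (hat i (N * z)) * (∑ j ∈ nd N, hat j (N * x) * sg q i j)
          * (Real.sqrt (hat i (N * z)) * ∑ j ∈ nd N, hat j (N * y) * sg q i j)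
        = (Real.sqrt (hat i (N * z)) * Real.sqrt (hat i (N * z)))
          * ((∑ j ∈ nd N, hat j (N * x) * sg q i j) * ∑ j ∈ nd N, hat j (N * y) * sg q i j) := by
      ring
    rw [e1, h1, sum_mul_sum]
    congr 1
    refine sum_congr rfl fun j _ => sum_congr rfl fun k _ => ?_
    ring
  unfold sq3
  rw [sum_add_distrib, sum_add_distrib, key a b c, key b a c, key c a b]
  have e2 : T3 N (fun i j k => ∑ q ∈ K, sg q i j * sg q i k) b a c
      = T3 N (fun i j k => ∑ q ∈ K, sg q j i * sg q j k) a b c := T3_swap12 N _ a b c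
  have e3 : T3 N (fun i j k => ∑ q ∈ K, sg q i j * sg q i k) c a b
      = T3 N (fun i j k => ∑ q ∈ K, sg q k i * sg q k j) a b c := by
    rw [T3_swap12 N _ a c b, T3_swap23]
  rw [e2, e3, ← T3_add, ← T3_add]
  congr 1
  funext i j k
  rw [← sum_add_distrib, ← sum_add_distrib]

/-- (h3) THE POINTWISE THREE POINT INEQUALITY FROM THE NODE INEQUALITIES -/
theorem bridge {N : ℕ} {lam D : ℤ → ℤ → ℝ} {kap : ℤ → ℝ} {inl Din : ℤ → ℝ} {cE : ℝ}
    {J : Finset ιJ} {nu : ιJ → ℤ → ℤ → ℝ} {l : ιJ → ℤ → ℝ} {K : Finset κι}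
    {sg : κι → ℤ → ℤ → ℝ} {θ : ℝ}
    (hlam : ∀ i ∈ nd N, ∀ y, 0 ≤ lam i y) (hD : ∀ i ∈ nd N, Kinks (lam i) (D i))
    (hkap : ∀ i ∈ nd N, 0 ≤ kap i) (hin0 : ∀ y, 0 ≤ inl y)
    (hin1 : ∀ y : ℤ, 0 ≤ y → y ≤ N → 1 ≤ inl y) (hDin : Kinks inl Din)
    (hnode : ∀ i ∈ nd N, ∀ j ∈ nd N, ∀ k ∈ nd N,
      sym6 (Fn lam D kap inl Din cE J nu l) i j k + 2 * sq3 K (fun q i j => sg q i j) i j k
        ≤ 6 * θ)
    {a b c : ℝ} (ha : 0 < a ∧ a < 1) (hb : 0 < b ∧ b < 1) (hc : 0 < c ∧ c < 1) :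
    sym6 (TP.F (gB N lam) (kB N kap) cE J (fun q => nB N (nu q)) (fun q => kB N (l q))) a b c
      + 2 * sq3 (K ×ˢ nd N) (sB N sg) a b c ≤ 6 * θ := by
  have ha' : 0 ≤ a ∧ a ≤ 1 := ⟨ha.1.le, ha.2.le⟩
  have hb' : 0 ≤ b ∧ b ≤ 1 := ⟨hb.1.le, hb.2.le⟩
  have hc' : 0 ≤ c ∧ c ≤ 1 := ⟨hc.1.le, hc.2.le⟩
  have h1 : sym6 (TP.F (gB N lam) (kB N kap) cE J (fun q => nB N (nu q))
      (fun q => kB N (l q))) a b c ≤ sym6 (T3 N (Fn lam D kap inl Din cE J nu l)) a b c := by
    unfold sym6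
    have f := @F_le ιJ N lam D kap inl Din cE J nu l hlam hD hkap hin0 hin1 hDin
    have i1 := f (z := a) (a := b) (b := c) ha' hb' hc'
    have i2 := f (z := a) (a := c) (b := b) ha' hc' hb'
    have i3 := f (z := b) (a := a) (b := c) hb' ha' hc'
    have i4 := f (z := b) (a := c) (b := a) hb' hc' ha'
    have i5 := f (z := c) (a := a) (b := b) hc' ha' hb'
    have i6 := f (z := c) (a := b) (b := a) hc' hb' ha'
    linarith
  rw [sym6_T3] at h1
  rw [sq3_eq sg ha' hb' hc']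
  have h2 := T3_mono (N := N) hnode a b c
  rw [T3_const ha' hb' hc'] at h2
  have h3 : T3 N (fun i j k => sym6 (Fn lam D kap inl Din cE J nu l) i j k
        + 2 * sq3 K (fun q i j => sg q i j) i j k) a b c
      = T3 N (fun i j k => sym6 (Fn lam D kap inl Din cE J nu l) i j k) a b c
        + 2 * T3 N (fun i j k => sq3 K (fun q i j => sg q i j) i j k) a b c := by
    rw [T3_add, T3_smul]
  rw [h3] at h2
  linarith

/-- (normalisation) total price of a sampler -/
theorem bridge_sum {n N : ℕ} (hn : 0 < n) (hN : 0 < N) {lam : ℤ → ℤ → ℝ}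
    (hlam : ∀ i ∈ nd N, ∀ y, 0 ≤ lam i y) {G : ℝ}
    (hG : ∀ i ∈ nd N, G ≤ ∑ y ∈ Ico (1 : ℤ) N, lam i y + (lam i 0 + lam i N) / 2)
    (hnN : (N : ℝ) ^ 2 ≤ 4 * (n : ℝ) ^ 2) {z : ℝ} (hz : 0 ≤ z ∧ z ≤ 1) :
    G / N * (1 - (N : ℝ) ^ 2 / (4 * (n : ℝ) ^ 2)) * n
      ≤ ∑ x ∈ Ico (0 : ℤ) n, gB N lam z (pos n x) := by
  have hN' : (0:ℝ) < N := by exact_mod_cast hN
  have hn' : (0:ℝ) < n := by exact_mod_cast hn
  set w : ℝ := (n : ℝ) / N - N / (4 * n) with hw
  have hw0 : 0 ≤ w := by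
    have : w = (4 * (n:ℝ) ^ 2 - (N:ℝ) ^ 2) / (4 * n * N) := by
      rw [hw]
      field_simp
    rw [this]
    apply div_nonneg
    · linarith
    · positivity
  have e0 : G / N * (1 - (N : ℝ) ^ 2 / (4 * (n : ℝ) ^ 2)) * n = G * w := by
    rw [hw]
    field_simp
  rw [e0]
  -- per sampler node
  have key : ∀ i ∈ nd N, G * w ≤ ∑ x ∈ Ico (0 : ℤ) n, pl (lam i) (N * pos n x) := by
    intro i hi
    have e1 : ∑ x ∈ Ico (0 : ℤ) n, pl (lam i) (N * pos n x)
        = ∑ y ∈ nd N, lam i y * ∑ x ∈ Ico (0 : ℤ) n, TP.hat N y (pos n x) := by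
      have : ∀ x ∈ Ico (0 : ℤ) n, pl (lam i) (N * pos n x)
          = ∑ y ∈ nd N, hat y (N * pos n x) * lam i y := by
        intro x hx
        rw [mem_Ico] at hx
        have hp := pos_mem hx.1 hx.2
        exact pl_eq_sum (near_nd hp.1.le hp.2.le) _
      rw [sum_congr rfl this, sum_comm]
      refine sum_congr rfl fun y _ => ?_
      rw [mul_sum]
      refine sum_congr rfl fun x _ => ?_
      rw [mul_comm]
      rfl
    rw [e1]
    have hsplit : nd N = insert (0:ℤ) (insert (N:ℤ) (Ico (1:ℤ) N)) := by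
      ext y
      simp only [nd, mem_Icc, mem_insert, mem_Ico]
      omega
    have n1 : (0:ℤ) ∉ insert (N:ℤ) (Ico (1:ℤ) N) := by
      simp only [mem_insert, mem_Ico]
      omega
    have n2 : (N:ℤ) ∉ Ico (1:ℤ) N := by
      simp only [mem_Ico]
      omega
    rw [hsplit, sum_insert n1, sum_insert n2]
    have b0 := mul_le_mul_of_nonneg_left (hat_sum_zero hn hN) (hlam i hi 0)
    have b1 := mul_le_mul_of_nonneg_left (hat_sum_last hn hN) (hlam i hi N)
    have b2 : ∑ y ∈ Ico (1:ℤ) N, lam i y * w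
        ≤ ∑ y ∈ Ico (1:ℤ) N, lam i y * ∑ x ∈ Ico (0 : ℤ) n, TP.hat N y (pos n x) := by
      refine sum_le_sum fun y hy => ?_
      rw [mem_Ico] at hy
      exact mul_le_mul_of_nonneg_left (hat_sum_ge hn hN hy.1 (by omega)) (hlam i hi y)
    rw [← sum_mul] at b2
    have e2 : (n : ℝ) / (2 * N) - N / (8 * n) = w / 2 := by
      rw [hw]
      field_simp
      ring
    rw [e2] at b0 b1
    have b3 := mul_le_mul_of_nonneg_right (hG i hi) hw0
    nlinarith
  unfold gB
  rw [sum_comm]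
  have h1 : ∑ i ∈ nd N, hat i (N * z) * (G * w)
      ≤ ∑ i ∈ nd N, ∑ x ∈ Ico (0 : ℤ) n, hat i (N * z) * pl (lam i) (N * pos n x) := by
    refine sum_le_sum fun i hi => ?_
    rw [← mul_sum]
    exact mul_le_mul_of_nonneg_left (key i hi) (hat_nonneg _ _)
  rw [← sum_mul, sum_hat_one (near_nd hz.1 hz.2), one_mul] at h1
  exact h1

end

end MP61673a.Bridge
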