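import Pool.Agent.Mu673.ThreePointP

set_option autoImplicit false

/-!
Three point certificates for points typed by an ARBITRARY class (segment of the window × parity, ..):
point of the cell `x` = `(cl x, pos n x)`, `par (cl x)` = parity of `x`. Linear facts, pair facts,
pair count fact.
-/

namespace MP61673a.TP

open Finset MP61673a.Sos MP61673a.W
open MP61673a.Lift (shift Mid Cov IsMaximalThreeFree cov_of_maximal card_shift mem_shift)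

noncomputable section

variable {C : Type*} {κι ιJ ιI : Type*}

/-- the cost of the ordered pair `(a,b)` for the sampler `z` -/
def FC (par : C → Bool) (g : C × ℝ → Bool → ℝ → ℝ) (H : C × ℝ → ℝ → ℝ) (κ : C × ℝ → ℝ) (cE : ℝ)
    (J : Finset ιJ) (ν : ιJ → C × ℝ → C × ℝ → ℝ) (ℓ : ιJ → C × ℝ → ℝ) (I : Finset ιI)
    (τ : ιI → C × ℝ → ℝ) (φ : ιI → C × ℝ → C × ℝ → ℝ) (z a b : C × ℝ) : ℝ :=
  (if 0 < 2 * b.2 - a.2 ∧ 2 * b.2 - a.2 < 1 then g z (par a.1) (2 * b.2 - a.2) + κ z else 0)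
    + (if par a.1 = par b.1 then H z ((a.2 + b.2) / 2) / 2 else 0)
    - cE * κ z + ∑ j ∈ J, ν j a b * ℓ j z + ∑ i ∈ I, τ i z * φ i a b

/-- THREE POINT BOUND, arbitrary classes; `Reg` = region of the points -/
theorem three_point_boundC {n : ℕ} (hn : 0 < n) (S : Finset ℤ)
    (hcov : Cov S (Mid S) n) (par : C → Bool) (cl : ℤ → C)
    (hpar : ∀ a ∈ S, par (cl a) = (tp n a).1)
    (Reg : C × ℝ → Prop) (hReg : ∀ a ∈ S, Reg (cl a, pos n a))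
    (g : C × ℝ → Bool → ℝ → ℝ) (hg : ∀ z e x, 0 ≤ g z e x) (H : C × ℝ → ℝ → ℝ)
    (hH : ∀ z e x, g z e x ≤ H z x) (κ : C × ℝ → ℝ)
    (hκ : ∀ z, 0 ≤ κ z) {cE : ℝ}
    (hCE : cE * (S.card : ℝ) ^ 2 ≤ ∑ y ∈ Ico (0 : ℤ) n, lab S y)
    (J : Finset ιJ) (ν : ιJ → C × ℝ → C × ℝ → ℝ) (hν : ∀ j ∈ J, ∀ a b, 0 ≤ ν j a b)
    (ℓ : ιJ → C × ℝ → ℝ)
    (hℓ : ∀ j ∈ J, 0 ≤ ∑ a ∈ S, ℓ j (cl a, pos n a))
    (I : Finset ιI) (τ : ιI → C × ℝ → ℝ) (hτ : ∀ i ∈ I, ∀ z, 0 ≤ τ i z)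
    (φ : ιI → C × ℝ → C × ℝ → ℝ)
    (c : ιI → ℝ)
    (hφ : ∀ i ∈ I, c i * n ≤ ∑ a ∈ S, ∑ b ∈ S, φ i (cl a, pos n a) (cl b, pos n b))
    (K : Finset κι) (s : κι → C × ℝ → C × ℝ → ℝ) {θ γ : ℝ}
    (hsum : ∀ z, Reg z → γ * n ≤ ∑ x ∈ Ico (0 : ℤ) n, g z (tp n x).1 (pos n x)
      + n * ∑ i ∈ I, τ i z * c i)
    (h3 : ∀ a b c : C × ℝ, Reg a → Reg b → Reg c →
      sym6 (FC par g H κ cE J ν ℓ I τ φ) a b c + 2 * sq3 K s a b c ≤ 6 * θ) :
    γ * n * S.card ≤ θ * (S.card : ℝ) ^ 3 := by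
  classical
  set p : ℤ → C × ℝ := fun x => (cl x, pos n x) with hp
  have hpm : ∀ a ∈ S, Reg (p a) := fun a ha => hReg a ha
  have hp2 : ∀ a, (p a).2 = pos n a := fun a => rfl
  have hp1 : ∀ a ∈ S, par (p a).1 = (tp n a).1 := fun a ha => hpar a ha
  have key := sos_step (S := S) (w := fun _ => (1:ℝ)) (fun _ _ => zero_le_one)
    (fun z a b => FC par g H κ cE J ν ℓ I τ φ (p z) (p a) (p b)) (fun _ _ _ => 6 * θ - 6) K
    (fun i a b => s i (p a) (p b)) (by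
      intro a ha b hb c hc
      have h := h3 (p a) (p b) (p c) (hpm a ha) (hpm b hb) (hpm c hc)
      unfold sym6 sq3 at h ⊢
      linarith)
  rw [tri_const] at key
  have hw : ∑ a ∈ S, (1:ℝ) = S.card := by simp
  rw [hw] at key
  have key2 : tri S (fun _ => (1:ℝ)) (fun z a b => FC par g H κ cE J ν ℓ I τ φ (p z) (p a) (p b))
      ≤ θ * (S.card : ℝ) ^ 3 := by
    refine key.trans (le_of_eq ?_)
    ring
  refine le_trans ?_ key2
  have hce : cE * (S.card : ℝ) ^ 2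
      ≤ ∑ a ∈ S, ∑ b ∈ S,
        (if 0 < 2 * (p b).2 - (p a).2 ∧ 2 * (p b).2 - (p a).2 < 1 then (1:ℝ) else 0) := by
    refine hCE.trans (le_of_eq ?_)
    unfold lab
    rw [sum_comm]
    refine sum_congr rfl fun a _ => ?_
    rw [sum_comm]
    refine sum_congr rfl fun b _ => ?_
    rw [hp2, hp2, ← pos_lab]
    by_cases c : 0 ≤ 2 * b - a ∧ 2 * b - a < n
    · rw [if_pos ((pos_window hn _).2 c), sum_ite_eq, if_pos (by rw [mem_Ico]; exact c)]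
    · rw [if_neg (fun h => c ((pos_window hn _).1 h)), sum_ite_eq,
        if_neg (by rw [mem_Ico]; exact c)]
  have hzz : ∀ z ∈ S, γ * n ≤ ∑ a ∈ S, ∑ b ∈ S,
      ((if 0 < 2 * (p b).2 - (p a).2 ∧ 2 * (p b).2 - (p a).2 < 1 then
        g (p z) (par (p a).1) (2 * (p b).2 - (p a).2) + κ (p z) else 0)
        + (if par (p a).1 = par (p b).1 then H (p z) (((p a).2 + (p b).2) / 2) / 2 else 0)
        - cE * κ (p z) + ∑ i ∈ I, τ i (p z) * φ i (p a) (p b)) := by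
    intro z hzS
    have i1 := hsum (p z) (hpm z hzS)
    have i2 := cover_sum hn S hcov (tp n z) (fun _ e x => g (p z) e x) (fun e x => hg (p z) e x)
      (fun _ x => H (p z) x) (fun e x => hH (p z) e x)
    have i3 : ∑ a ∈ S, ∑ b ∈ S,
        ((if 0 < 2 * (p b).2 - (p a).2 ∧ 2 * (p b).2 - (p a).2 < 1 then
          g (p z) (par (p a).1) (2 * (p b).2 - (p a).2) + κ (p z) else 0)
          + (if par (p a).1 = par (p b).1 then H (p z) (((p a).2 + (p b).2) / 2) / 2 else 0)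
          - cE * κ (p z) + ∑ i ∈ I, τ i (p z) * φ i (p a) (p b))
        = ∑ a ∈ S, ∑ b ∈ S, ((if 0 < 2 * (tp n b).2 - (tp n a).2
            ∧ 2 * (tp n b).2 - (tp n a).2 < 1 then
          g (p z) (tp n a).1 (2 * (tp n b).2 - (tp n a).2) else 0)
          + (if (tp n a).1 = (tp n b).1 then H (p z) (((tp n a).2 + (tp n b).2) / 2) / 2 else 0))
        + κ (p z) * (∑ a ∈ S, ∑ b ∈ S,
            (if 0 < 2 * (p b).2 - (p a).2 ∧ 2 * (p b).2 - (p a).2 < 1 then (1:ℝ) else 0)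
          - cE * (S.card : ℝ) ^ 2)
        + ∑ i ∈ I, τ i (p z) * ∑ a ∈ S, ∑ b ∈ S, φ i (p a) (p b) := by
      have c2 : (S.card : ℝ) ^ 2 = ∑ a ∈ S, ∑ b ∈ S, (1:ℝ) := by
        simp [pow_two]
      have c3 : ∑ i ∈ I, τ i (p z) * ∑ a ∈ S, ∑ b ∈ S, φ i (p a) (p b)
          = ∑ a ∈ S, ∑ b ∈ S, ∑ i ∈ I, τ i (p z) * φ i (p a) (p b) := by
        have : ∀ i ∈ I, τ i (p z) * ∑ a ∈ S, ∑ b ∈ S, φ i (p a) (p b)
            = ∑ a ∈ S, ∑ b ∈ S, τ i (p z) * φ i (p a) (p b) := by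
          intro i _
          rw [mul_sum]
          refine sum_congr rfl fun a _ => ?_
          rw [mul_sum]
        rw [sum_congr rfl this, sum_comm]
        refine sum_congr rfl fun a _ => ?_
        rw [sum_comm]
      rw [c3, c2, mul_sum, ← sum_sub_distrib, mul_sum, ← sum_add_distrib, ← sum_add_distrib]
      refine sum_congr rfl fun a ha => ?_
      rw [mul_sum, ← sum_sub_distrib, mul_sum, ← sum_add_distrib, ← sum_add_distrib]
      refine sum_congr rfl fun b hb => ?_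
      rw [hp1 a ha, hp1 b hb]
      have t1 : (tp n a).2 = (p a).2 := rfl
      have t2 : (tp n b).2 = (p b).2 := rfl
      rw [t1, t2]
      by_cases c : 0 < 2 * (p b).2 - (p a).2 ∧ 2 * (p b).2 - (p a).2 < 1
      · rw [if_pos c, if_pos c, if_pos c]
        ring
      · rw [if_neg c, if_neg c, if_neg c]
        ring
    rw [i3]
    have i4 : 0 ≤ κ (p z) * (∑ a ∈ S, ∑ b ∈ S,
            (if 0 < 2 * (p b).2 - (p a).2 ∧ 2 * (p b).2 - (p a).2 < 1 then (1:ℝ) else 0)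
          - cE * (S.card : ℝ) ^ 2) := mul_nonneg (hκ _) (by linarith)
    have i5 : n * ∑ i ∈ I, τ i (p z) * c i
        ≤ ∑ i ∈ I, τ i (p z) * ∑ a ∈ S, ∑ b ∈ S, φ i (p a) (p b) := by
      rw [mul_sum]
      refine sum_le_sum fun i hi => ?_
      have := mul_le_mul_of_nonneg_left (hφ i hi) (hτ i hi (p z))
      linarith
    linarith
  have hlin : 0 ≤ ∑ z ∈ S, ∑ a ∈ S, ∑ b ∈ S, ∑ j ∈ J, ν j (p a) (p b) * ℓ j (p z) := by
    have e : ∑ z ∈ S, ∑ a ∈ S, ∑ b ∈ S, ∑ j ∈ J, ν j (p a) (p b) * ℓ j (p z)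
        = ∑ j ∈ J, (∑ a ∈ S, ∑ b ∈ S, ν j (p a) (p b)) * ∑ z ∈ S, ℓ j (p z) := by
      have : ∀ j ∈ J, (∑ a ∈ S, ∑ b ∈ S, ν j (p a) (p b)) * ∑ z ∈ S, ℓ j (p z)
          = ∑ z ∈ S, ∑ a ∈ S, ∑ b ∈ S, ν j (p a) (p b) * ℓ j (p z) := by
        intro j _
        rw [mul_sum]
        refine sum_congr rfl fun z _ => ?_
        rw [sum_mul]
        refine sum_congr rfl fun a _ => ?_
        rw [sum_mul]
      rw [sum_congr rfl this]
      refine Eq.trans ?_ sum_comm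
      refine sum_congr rfl fun z _ => ?_
      refine Eq.trans ?_ sum_comm
      refine sum_congr rfl fun a _ => ?_
      exact sum_comm
    rw [e]
    exact sum_nonneg fun j hj => mul_nonneg
      (sum_nonneg fun a _ => sum_nonneg fun b _ => hν j hj _ _) (hℓ j hj)
  have hfin : tri S (fun _ => (1:ℝ)) (fun z a b => FC par g H κ cE J ν ℓ I τ φ (p z) (p a) (p b))
      = ∑ z ∈ S, ∑ a ∈ S, ∑ b ∈ S,
      ((if 0 < 2 * (p b).2 - (p a).2 ∧ 2 * (p b).2 - (p a).2 < 1 then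
        g (p z) (par (p a).1) (2 * (p b).2 - (p a).2) + κ (p z) else 0)
        + (if par (p a).1 = par (p b).1 then H (p z) (((p a).2 + (p b).2) / 2) / 2 else 0)
        - cE * κ (p z) + ∑ i ∈ I, τ i (p z) * φ i (p a) (p b))
      + ∑ z ∈ S, ∑ a ∈ S, ∑ b ∈ S, ∑ j ∈ J, ν j (p a) (p b) * ℓ j (p z) := by
    unfold tri FC
    rw [← sum_add_distrib]
    refine sum_congr rfl fun z _ => ?_
    rw [← sum_add_distrib]
    refine sum_congr rfl fun a _ => ?_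
    rw [← sum_add_distrib]
    refine sum_congr rfl fun b _ => ?_
    ring
  rw [hfin]
  have hs := sum_le_sum hzz
  rw [sum_const, nsmul_eq_mul] at hs
  nlinarith [hs, hlin]

/-- a certificate for typed points: region `Reg`, classes with parity `par` -/
def CertifiedC (n : ℕ) (cE : ℝ) {C : Type} (par : C → Bool) (Reg : C × ℝ → Prop)
    {ιJ ιI : Type} (J : Finset ιJ) (ℓ : ιJ → C × ℝ → ℝ) (I : Finset ιI)
    (φ : ιI → C × ℝ → C × ℝ → ℝ) (c : ιI → ℝ) : Prop :=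
  ∃ (g : C × ℝ → Bool → ℝ → ℝ) (H : C × ℝ → ℝ → ℝ) (κ : C × ℝ → ℝ) (m : ℕ)
    (s : Fin m → C × ℝ → C × ℝ → ℝ)
    (ν : ιJ → C × ℝ → C × ℝ → ℝ) (τ : ιI → C × ℝ → ℝ)
    (θ γ : ℝ), (∀ z e x, 0 ≤ g z e x) ∧ (∀ z e x, g z e x ≤ H z x) ∧ (∀ z, 0 ≤ κ z) ∧
    (∀ j ∈ J, ∀ a b, 0 ≤ ν j a b) ∧ (∀ i ∈ I, ∀ z, 0 ≤ τ i z) ∧
    0 < θ ∧ θ ≤ γ ∧
    (∀ z, Reg z → γ * n ≤ ∑ x ∈ Ico (0 : ℤ) n, g z (tp n x).1 (pos n x)
      + n * ∑ i ∈ I, τ i z * c i) ∧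
    ∀ a b c : C × ℝ, Reg a → Reg b → Reg c →
      sym6 (FC par g H κ cE J ν ℓ I τ φ) a b c + 2 * sq3 univ s a b c ≤ 6 * θ

theorem CertifiedC.false {n : ℕ} {A : Finset ℕ} (h : IsMaximalThreeFree n A)
    (hlt : A.card ^ 2 < n) {C : Type} {par : C → Bool} {Reg : C × ℝ → Prop} {ιJ ιI : Type}
    {J : Finset ιJ} {ℓ : ιJ → C × ℝ → ℝ} {I : Finset ιI}
    {φ : ιI → C × ℝ → C × ℝ → ℝ} {c : ιI → ℝ}
    (cert : CertifiedC n (13 / 18) par Reg J ℓ I φ c) (cl : ℤ → C)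
    (hpar : ∀ a ∈ shift A, par (cl a) = (tp n a).1)
    (hReg : ∀ a ∈ shift A, Reg (cl a, pos n a))
    (hJ : ∀ j ∈ J, 0 ≤ ∑ a ∈ shift A, ℓ j (cl a, pos n a))
    (hI : ∀ i ∈ I, c i * n ≤ ∑ a ∈ shift A, ∑ b ∈ shift A, φ i (cl a, pos n a) (cl b, pos n b)) :
    False := by
  obtain ⟨g, H, κ, m, s, ν, τ, θ, γ, hg, hH, hκ, hν, hτ, hθ, hθγ, hsum, h3⟩ := cert
  have hn : 0 < n := lt_of_le_of_lt (Nat.zero_le _) hlt
  have hCE : (13 / 18 : ℝ) * ((shift A).card : ℝ) ^ 2 ≤ ∑ y ∈ Ico (0 : ℤ) n, lab (shift A) y := by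
    rw [card_shift]
    exact CE.ce_lab h hlt
  have key := three_point_boundC hn (shift A) (cov_of_maximal h) par cl hpar Reg hReg
    g hg H hH κ hκ hCE J ν hν ℓ hJ I τ hτ φ c hI univ s hsum h3
  rw [card_shift] at key
  have hk := card_pos_of_maximal h hn
  have hk' : (0:ℝ) < A.card := by exact_mod_cast hk
  have hn' : (0:ℝ) < n := by exact_mod_cast hn
  have hlt' : (A.card : ℝ) ^ 2 < n := by exact_mod_cast hlt
  have h1 : θ * (A.card : ℝ) ^ 3 < θ * n * A.card := by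
    have h5 : (A.card : ℝ) ^ 2 * (A.card : ℝ) < (n : ℝ) * (A.card : ℝ) :=
      mul_lt_mul_of_pos_right hlt' hk'
    have h6 := mul_lt_mul_of_pos_left h5 hθ
    have e1 : θ * (A.card : ℝ) ^ 3 = θ * ((A.card : ℝ) ^ 2 * (A.card : ℝ)) := by ring
    rw [e1, mul_assoc]
    exact h6
  have h2 : θ * n * A.card ≤ γ * n * A.card :=
    mul_le_mul_of_nonneg_right (mul_le_mul_of_nonneg_right hθγ hn'.le) hk'.le
  linarith

end

end MP61673a.TP
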