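import Pool.Agent.Mu673.FarCertL
import Pool.Agent.Mu673.ThreePointC

/-!
BRIDGE FOR ARBITRARY CLASSES: every class `c` has its own node set `Icc (lo c) (hi c)` (double nodes
at the cuts), parity `par c`. Node data: prices `lam s e y` (sampler node `s`, parity `e` of the
label, label node `y`), majorant `lamH s y`, multipliers of linear and pair facts, squares.
-/

set_option autoImplicit false

namespace MP61673a.Bridge

open Finset MP61673a.Kink MP61673a.Sos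
open MP61673a.TP (pos pos_mem tp FC CertifiedC)

noncomputable section

variable {C : Type*} {κι ιJ ιI : Type*}

/-- nodes of a class -/
def ns (lo hi : C → ℤ) (c : C) : Finset ℤ := Icc (lo c) (hi c)

/-- region of the points -/
def RegC (N : ℕ) (lo hi : C → ℤ) (z : C × ℝ) : Prop :=
  (lo z.1 : ℝ) ≤ N * z.2 ∧ (N : ℝ) * z.2 ≤ hi z.1 ∧ 0 < z.2 ∧ z.2 < 1

lemma RegC.near {N : ℕ} {lo hi : C → ℤ} {z : C × ℝ} (h : RegC N lo hi z) :
    Near (ns lo hi z.1) (N * z.2) := near_Icc h.1 h.2.1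

lemma RegC.one {N : ℕ} {lo hi : C → ℤ} {z : C × ℝ} (h : RegC N lo hi z) :
    ∑ i ∈ ns lo hi z.1, hat i (N * z.2) = 1 := sum_hat_one h.near

/-- trilinear interpolation -/
def TC (N : ℕ) (lo hi : C → ℤ) (f : C × ℤ → C × ℤ → C × ℤ → ℝ) (z a b : C × ℝ) : ℝ :=
  ∑ i ∈ ns lo hi z.1, ∑ j ∈ ns lo hi a.1, ∑ k ∈ ns lo hi b.1,
    hat i (N * z.2) * hat j (N * a.2) * hat k (N * b.2) * f (z.1, i) (a.1, j) (b.1, k)

section
variable (N : ℕ) (lo hi : C → ℤ)

lemma TC_add (f g : C × ℤ → C × ℤ → C × ℤ → ℝ) (z a b : C × ℝ) :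
    TC N lo hi (fun i j k => f i j k + g i j k) z a b = TC N lo hi f z a b + TC N lo hi g z a b := by
  unfold TC
  simp only [← sum_add_distrib]
  refine sum_congr rfl fun i _ => sum_congr rfl fun j _ => sum_congr rfl fun k _ => ?_
  ring

lemma TC_smul (f : C × ℤ → C × ℤ → C × ℤ → ℝ) (r : ℝ) (z a b : C × ℝ) :
    TC N lo hi (fun i j k => r * f i j k) z a b = r * TC N lo hi f z a b := by
  unfold TC
  simp only [mul_sum]
  refine sum_congr rfl fun i _ => sum_congr rfl fun j _ => sum_congr rfl fun k _ => ?_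
  ring

lemma TC_sum {ι : Type*} (J : Finset ι) (f : ι → C × ℤ → C × ℤ → C × ℤ → ℝ) (z a b : C × ℝ) :
    TC N lo hi (fun i j k => ∑ q ∈ J, f q i j k) z a b = ∑ q ∈ J, TC N lo hi (f q) z a b := by
  classical
  induction J using Finset.induction_on with
  | empty =>
    simp [TC]
  | insert q J hq ih =>
    simp only [sum_insert hq]
    rw [TC_add, ih]

lemma TC_swap23 (f : C × ℤ → C × ℤ → C × ℤ → ℝ) (z a b : C × ℝ) :
    TC N lo hi f z b a = TC N lo hi (fun i j k => f i k j) z a b := by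
  unfold TC
  refine sum_congr rfl fun i _ => ?_
  rw [sum_comm]
  refine sum_congr rfl fun j _ => sum_congr rfl fun k _ => ?_
  ring

lemma TC_swap12 (f : C × ℤ → C × ℤ → C × ℤ → ℝ) (z a b : C × ℝ) :
    TC N lo hi f a z b = TC N lo hi (fun i j k => f j i k) z a b := by
  unfold TC
  rw [sum_comm]
  refine sum_congr rfl fun i _ => sum_congr rfl fun j _ => sum_congr rfl fun k _ => ?_
  ring

lemma TC_prod (u : C × ℤ → ℝ) (v : C × ℤ → C × ℤ → ℝ) (z a b : C × ℝ) :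
    TC N lo hi (fun i j k => u i * v j k) z a b
      = (∑ i ∈ ns lo hi z.1, hat i (N * z.2) * u (z.1, i))
        * ∑ j ∈ ns lo hi a.1, ∑ k ∈ ns lo hi b.1,
          hat j (N * a.2) * hat k (N * b.2) * v (a.1, j) (b.1, k) := by
  unfold TC
  rw [sum_mul]
  refine sum_congr rfl fun i _ => ?_
  rw [mul_sum]
  refine sum_congr rfl fun j _ => ?_
  rw [mul_sum]
  refine sum_congr rfl fun k _ => ?_
  ring

lemma TC_eq (f : C × ℤ → C × ℤ → C × ℤ → ℝ) (z a b : C × ℝ) :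
    TC N lo hi f z a b = ∑ i ∈ ns lo hi z.1, hat i (N * z.2)
      * ∑ j ∈ ns lo hi a.1, ∑ k ∈ ns lo hi b.1,
        hat j (N * a.2) * hat k (N * b.2) * f (z.1, i) (a.1, j) (b.1, k) := by
  unfold TC
  refine sum_congr rfl fun i _ => ?_
  rw [mul_sum]
  refine sum_congr rfl fun j _ => ?_
  rw [mul_sum]
  refine sum_congr rfl fun k _ => ?_
  ring

variable {N lo hi}

lemma TC_const {z a b : C × ℝ} (hz : RegC N lo hi z) (ha : RegC N lo hi a) (hb : RegC N lo hi b)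
    (r : ℝ) : TC N lo hi (fun _ _ _ => r) z a b = r := by
  have h := TC_prod N lo hi (fun _ => r) (fun _ _ => 1) z a b
  simp only [mul_one] at h
  rw [h, ← sum_mul, hz.one]
  have h2 : ∑ j ∈ ns lo hi a.1, ∑ k ∈ ns lo hi b.1, hat j (N * a.2) * hat k (N * b.2) = 1 := by
    rw [← sum_mul_sum, ha.one, hb.one]
    ring
  rw [h2]
  ring

lemma TC_mono {f g : C × ℤ → C × ℤ → C × ℤ → ℝ} {z a b : C × ℝ}
    (h : ∀ i ∈ ns lo hi z.1, ∀ j ∈ ns lo hi a.1, ∀ k ∈ ns lo hi b.1,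
      f (z.1, i) (a.1, j) (b.1, k) ≤ g (z.1, i) (a.1, j) (b.1, k)) :
    TC N lo hi f z a b ≤ TC N lo hi g z a b := by
  unfold TC
  refine sum_le_sum fun i hi => sum_le_sum fun j hj => sum_le_sum fun k hk => ?_
  exact mul_le_mul_of_nonneg_left (h i hi j hj k hk)
    (mul_nonneg (mul_nonneg (hat_nonneg _ _) (hat_nonneg _ _)) (hat_nonneg _ _))

lemma sym6_TC (f : C × ℤ → C × ℤ → C × ℤ → ℝ) (a b c : C × ℝ) :
    sym6 (TC N lo hi f) a b c = TC N lo hi (fun z a b => sym6 f z a b) a b c := by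
  unfold sym6
  have e1 : TC N lo hi f a c b = TC N lo hi (fun i j k => f i k j) a b c := TC_swap23 _ _ _ _ _ _ _
  have e2 : TC N lo hi f b a c = TC N lo hi (fun i j k => f j i k) a b c := TC_swap12 _ _ _ _ _ _ _
  have e3 : TC N lo hi f b c a = TC N lo hi (fun i j k => f j k i) a b c := by
    rw [TC_swap23 N lo hi f b a c, TC_swap12]
  have e4 : TC N lo hi f c a b = TC N lo hi (fun i j k => f k i j) a b c := by
    rw [TC_swap12 N lo hi f a c b, TC_swap23]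
  have e5 : TC N lo hi f c b a = TC N lo hi (fun i j k => f k j i) a b c := by
    rw [TC_swap23 N lo hi f c a b, TC_swap12 N lo hi _ a c b, TC_swap23]
  rw [e1, e2, e3, e4, e5, TC_add, TC_add, TC_add, TC_add, TC_add]

end

/-- prices at real positions -/
def gC (N : ℕ) (lo hi : C → ℤ) (lam : C × ℤ → Bool → ℤ → ℝ) (z : C × ℝ) (e : Bool) (x : ℝ) : ℝ :=
  ∑ i ∈ ns lo hi z.1, hat i (N * z.2) * pl (lam (z.1, i) e) (N * x)

/-- majorant at real positions -/
def hC (N : ℕ) (lo hi : C → ℤ) (lamH : C × ℤ → ℤ → ℝ) (z : C × ℝ) (x : ℝ) : ℝ :=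
  ∑ i ∈ ns lo hi z.1, hat i (N * z.2) * pl (lamH (z.1, i)) (N * x)

/-- one variable interpolation -/
def kC (N : ℕ) (lo hi : C → ℤ) (kap : C × ℤ → ℝ) (z : C × ℝ) : ℝ :=
  ∑ i ∈ ns lo hi z.1, hat i (N * z.2) * kap (z.1, i)

/-- two variable interpolation -/
def nC (N : ℕ) (lo hi : C → ℤ) (nu : C × ℤ → C × ℤ → ℝ) (a b : C × ℝ) : ℝ :=
  ∑ j ∈ ns lo hi a.1, ∑ k ∈ ns lo hi b.1, hat j (N * a.2) * hat k (N * b.2)
    * nu (a.1, j) (b.1, k)

/-- squares at real positions; index (square, position of the sampler node) -/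
def sC (N : ℕ) (lo hi : C → ℤ) (sg : κι → C × ℤ → C × ℤ → ℝ) (q : κι × ℤ) (z b : C × ℝ) : ℝ :=
  (if q.2 ∈ ns lo hi z.1 then Real.sqrt (hat q.2 (N * z.2)) else 0)
    * ∑ j ∈ ns lo hi b.1, hat j (N * b.2) * sg q.1 (z.1, q.2) (b.1, j)

/-- node cost of the ordered pair `(a,b)` for the sampler node `z` -/
def FnC (par : C → Bool) (lam D : C × ℤ → Bool → ℤ → ℝ) (lamH DH : C × ℤ → ℤ → ℝ)
    (kap : C × ℤ → ℝ) (inl Din : ℤ → ℝ) (cE : ℝ) (J : Finset ιJ)
    (nu : ιJ → C × ℤ → C × ℤ → ℝ) (l : ιJ → C × ℤ → ℝ) (I : Finset ιI)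
    (tau : ιI → C × ℤ → ℝ) (phin : ιI → C × ℤ → C × ℤ → ℝ) (z a b : C × ℤ) : ℝ :=
  eK (lam z (par a.1)) (D z (par a.1)) (2 * b.2 - a.2) + kap z * eK inl Din (2 * b.2 - a.2)
    + (if par a.1 = par b.1 then mK (lamH z) (DH z) (a.2 + b.2) / 2 else 0)
    - cE * kap z + ∑ q ∈ J, nu q a b * l q z + ∑ i ∈ I, tau i z * phin i a b

lemma gC_nonneg (N : ℕ) (lo hi : C → ℤ) {lam : C × ℤ → Bool → ℤ → ℝ} (h : ∀ s e y, 0 ≤ lam s e y)
    (z : C × ℝ) (e : Bool) (x : ℝ) : 0 ≤ gC N lo hi lam z e x :=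
  sum_nonneg fun _ _ => mul_nonneg (hat_nonneg _ _) (pl_nonneg (h _ _) _)

lemma gC_le (N : ℕ) (lo hi : C → ℤ) {lam : C × ℤ → Bool → ℤ → ℝ} {lamH : C × ℤ → ℤ → ℝ}
    (h : ∀ s e y, lam s e y ≤ lamH s y) (z : C × ℝ) (e : Bool) (x : ℝ) :
    gC N lo hi lam z e x ≤ hC N lo hi lamH z x := by
  unfold gC hC
  refine sum_le_sum fun i _ => mul_le_mul_of_nonneg_left ?_ (hat_nonneg _ _)
  unfold pl
  have h0 := Int.fract_nonneg ((N:ℝ) * x)
  have h1 := Int.fract_lt_one ((N:ℝ) * x)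
  exact add_le_add (mul_le_mul_of_nonneg_left (h _ _ _) (by linarith))
    (mul_le_mul_of_nonneg_left (h _ _ _) h0)

lemma kC_nonneg (N : ℕ) (lo hi : C → ℤ) {kap : C × ℤ → ℝ} (h : ∀ s, 0 ≤ kap s) (z : C × ℝ) :
    0 ≤ kC N lo hi kap z :=
  sum_nonneg fun _ _ => mul_nonneg (hat_nonneg _ _) (h _)

lemma nC_nonneg (N : ℕ) (lo hi : C → ℤ) {nu : C × ℤ → C × ℤ → ℝ} (h : ∀ s t, 0 ≤ nu s t)
    (a b : C × ℝ) : 0 ≤ nC N lo hi nu a b :=
  sum_nonneg fun _ _ => sum_nonneg fun _ _ =>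
    mul_nonneg (mul_nonneg (hat_nonneg _ _) (hat_nonneg _ _)) (h _ _)

/-- the pointwise cost is at most the interpolated node cost -/
lemma FC_le {N : ℕ} {lo hi : C → ℤ} {par : C → Bool} {lam D : C × ℤ → Bool → ℤ → ℝ}
    {lamH DH : C × ℤ → ℤ → ℝ} {kap : C × ℤ → ℝ} {inl Din : ℤ → ℝ} {cE : ℝ}
    {J : Finset ιJ} {nu : ιJ → C × ℤ → C × ℤ → ℝ} {l : ιJ → C × ℤ → ℝ} {ℓ : ιJ → C × ℝ → ℝ}
    (hl : ∀ q ∈ J, ∀ z, RegC N lo hi z → ℓ q z = kC N lo hi (l q) z)
    {I : Finset ιI} {tau : ιI → C × ℤ → ℝ} {phin : ιI → C × ℤ → C × ℤ → ℝ}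
    {φ : ιI → C × ℝ → C × ℝ → ℝ}
    (htau : ∀ i ∈ I, ∀ s, 0 ≤ tau i s)
    (hphi : ∀ i ∈ I, ∀ a b, RegC N lo hi a → RegC N lo hi b → φ i a b ≤ nC N lo hi (phin i) a b)
    (hlam : ∀ s e y, 0 ≤ lam s e y) (hD : ∀ s e, Kinks (lam s e) (D s e))
    (hDH : ∀ s, Kinks (lamH s) (DH s))
    (hkap : ∀ s, 0 ≤ kap s) (hin0 : ∀ y, 0 ≤ inl y)
    (hin1 : ∀ y : ℤ, 0 ≤ y → y ≤ N → 1 ≤ inl y) (hDin : Kinks inl Din)
    {z a b : C × ℝ} (hz : RegC N lo hi z) (ha : RegC N lo hi a) (hb : RegC N lo hi b) :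
    FC par (gC N lo hi lam) (hC N lo hi lamH) (kC N lo hi kap) cE J
        (fun q => nC N lo hi (nu q)) ℓ I (fun i => kC N lo hi (tau i)) φ z a b
      ≤ TC N lo hi (FnC par lam D lamH DH kap inl Din cE J nu l I tau phin) z a b := by
  have hl' := fun q hq => hl q hq z hz
  have hphi' := fun i hi' => hphi i hi' a b ha hb
  have na := ha.near
  have nb := hb.near
  obtain ⟨ez, z⟩ := z
  obtain ⟨ea, a⟩ := a
  obtain ⟨eb, b⟩ := b
  dsimp only at na nb
  have hu : ∑ j ∈ ns lo hi ea, ∑ k ∈ ns lo hi eb, hat j (N * a) * hat k (N * b) = 1 := by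
    rw [← sum_mul_sum, ha.one, hb.one]
    ring
  -- end point labels
  have p1 : (if 0 < 2 * b - a ∧ 2 * b - a < 1 then
        gC N lo hi lam (ez, z) (par ea) (2 * b - a) + kC N lo hi kap (ez, z) else 0)
      ≤ TC N lo hi (fun z a b => eK (lam z (par a.1)) (D z (par a.1)) (2 * b.2 - a.2)
          + kap z * eK inl Din (2 * b.2 - a.2)) (ez, z) (ea, a) (eb, b) := by
    have q1 : (if 0 < 2 * b - a ∧ 2 * b - a < 1 then
        gC N lo hi lam (ez, z) (par ea) (2 * b - a) + kC N lo hi kap (ez, z) else 0)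
        ≤ ∑ i ∈ ns lo hi ez, hat i (N * z) * (pl (lam (ez, i) (par ea)) (N * (2 * b - a))
          + kap (ez, i) * pl inl (N * (2 * b - a))) := by
      split_ifs with c
      · unfold gC kC
        rw [← sum_add_distrib]
        refine sum_le_sum fun i _ => ?_
        rw [← mul_add]
        refine mul_le_mul_of_nonneg_left ?_ (hat_nonneg _ _)
        have h1 : 1 ≤ pl inl (N * (2 * b - a)) := by
          have hN : (0:ℝ) ≤ N := by positivity
          exact one_le_pl hin1 (mul_nonneg hN c.1.le) (by nlinarith [c.2])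
        have := mul_le_mul_of_nonneg_left h1 (hkap (ez, i))
        linarith
      · refine sum_nonneg fun i _ => mul_nonneg (hat_nonneg _ _) ?_
        exact add_nonneg (pl_nonneg (hlam _ _) _) (mul_nonneg (hkap _) (pl_nonneg hin0 _))
    refine q1.trans ?_
    rw [TC_eq]
    refine sum_le_sum fun i _ => mul_le_mul_of_nonneg_left ?_ (hat_nonneg _ _)
    have r1 := pl_le_eK (hD (ez, i) (par ea)) na nb
    have r2 := pl_le_eK hDin na nb
    rw [show 2 * ((N:ℝ) * b) - N * a = N * (2 * b - a) by ring] at r1 r2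
    have r3 := mul_le_mul_of_nonneg_left r2 (hkap (ez, i))
    have e : ∑ j ∈ ns lo hi ea, ∑ k ∈ ns lo hi eb, hat j (N * a) * hat k (N * b)
          * (eK (lam (ez, i) (par ea)) (D (ez, i) (par ea)) (2 * k - j)
            + kap (ez, i) * eK inl Din (2 * k - j))
        = ∑ j ∈ ns lo hi ea, ∑ k ∈ ns lo hi eb, hat j (N * a) * hat k (N * b)
            * eK (lam (ez, i) (par ea)) (D (ez, i) (par ea)) (2 * k - j)
          + kap (ez, i) * ∑ j ∈ ns lo hi ea, ∑ k ∈ ns lo hi eb, hat j (N * a) * hat k (N * b)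
            * eK inl Din (2 * k - j) := by
      simp only [mul_sum, ← sum_add_distrib]
      refine sum_congr rfl fun j _ => sum_congr rfl fun k _ => ?_
      ring
    dsimp only
    rw [e]
    linarith
  -- midpoints
  have p2 : (if par ea = par eb then hC N lo hi lamH (ez, z) ((a + b) / 2) / 2 else 0)
      ≤ TC N lo hi (fun z a b => if par a.1 = par b.1 then
          mK (lamH z) (DH z) (a.2 + b.2) / 2 else 0) (ez, z) (ea, a) (eb, b) := by
    by_cases hc : par ea = par eb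
    · rw [TC_eq]
      simp only [if_pos hc]
      unfold hC
      rw [sum_div]
      refine sum_le_sum fun i _ => ?_
      rw [mul_div_assoc]
      refine mul_le_mul_of_nonneg_left ?_ (hat_nonneg _ _)
      have r1 := pl_le_mK (hDH (ez, i)) na nb
      rw [show ((N:ℝ) * a + N * b) / 2 = N * ((a + b) / 2) by ring] at r1
      have e : ∑ j ∈ ns lo hi ea, ∑ k ∈ ns lo hi eb, hat j (N * a) * hat k (N * b)
            * (mK (lamH (ez, i)) (DH (ez, i)) (j + k) / 2)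
          = (∑ j ∈ ns lo hi ea, ∑ k ∈ ns lo hi eb, hat j (N * a) * hat k (N * b)
            * mK (lamH (ez, i)) (DH (ez, i)) (j + k)) / 2 := by
        simp only [sum_div]
        refine sum_congr rfl fun j _ => sum_congr rfl fun k _ => ?_
        ring
      rw [e]
      linarith
    · rw [if_neg hc]
      unfold TC
      simp only [if_neg hc]
      simp
  -- the constant of the pair count fact
  have p3 : -(cE * kC N lo hi kap (ez, z))
      = TC N lo hi (fun z _ _ => -(cE * kap z)) (ez, z) (ea, a) (eb, b) := by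
    have h := TC_prod N lo hi (fun z => -(cE * kap z)) (fun _ _ => 1) (ez, z) (ea, a) (eb, b)
    simp only [mul_one] at h
    rw [h, hu]
    unfold kC
    rw [mul_sum, mul_one, ← sum_neg_distrib]
    refine sum_congr rfl fun i _ => ?_
    ring
  -- linear facts
  have p4 : ∑ q ∈ J, nC N lo hi (nu q) (ea, a) (eb, b) * ℓ q (ez, z)
      = TC N lo hi (fun z a b => ∑ q ∈ J, nu q a b * l q z) (ez, z) (ea, a) (eb, b) := by
    rw [TC_sum]
    refine sum_congr rfl fun q hq => ?_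
    have h := TC_prod N lo hi (l q) (nu q) (ez, z) (ea, a) (eb, b)
    have h2 : TC N lo hi (fun z a b => nu q a b * l q z) (ez, z) (ea, a) (eb, b)
        = TC N lo hi (fun z a b => l q z * nu q a b) (ez, z) (ea, a) (eb, b) := by
      congr 1
      funext i j k
      ring
    rw [h2, h, hl' q hq]
    unfold nC kC
    ring
  -- pair facts
  have p5 : ∑ i ∈ I, kC N lo hi (tau i) (ez, z) * φ i (ea, a) (eb, b)
      ≤ TC N lo hi (fun z a b => ∑ i ∈ I, tau i z * phin i a b) (ez, z) (ea, a) (eb, b) := by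
    rw [TC_sum]
    refine sum_le_sum fun i hi' => ?_
    have h := TC_prod N lo hi (tau i) (phin i) (ez, z) (ea, a) (eb, b)
    rw [h]
    exact mul_le_mul_of_nonneg_left (hphi' i hi') (kC_nonneg N lo hi (htau i hi') (ez, z))
  have e : TC N lo hi (FnC par lam D lamH DH kap inl Din cE J nu l I tau phin)
        (ez, z) (ea, a) (eb, b)
      = TC N lo hi (fun z a b => eK (lam z (par a.1)) (D z (par a.1)) (2 * b.2 - a.2)
          + kap z * eK inl Din (2 * b.2 - a.2)) (ez, z) (ea, a) (eb, b)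
        + TC N lo hi (fun z a b => if par a.1 = par b.1 then
          mK (lamH z) (DH z) (a.2 + b.2) / 2 else 0) (ez, z) (ea, a) (eb, b)
        + TC N lo hi (fun z _ _ => -(cE * kap z)) (ez, z) (ea, a) (eb, b)
        + TC N lo hi (fun z a b => ∑ q ∈ J, nu q a b * l q z) (ez, z) (ea, a) (eb, b)
        + TC N lo hi (fun z a b => ∑ i ∈ I, tau i z * phin i a b) (ez, z) (ea, a) (eb, b) := by
    rw [← TC_add, ← TC_add, ← TC_add, ← TC_add]
    congr 1
  rw [e, ← p3, ← p4]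
  unfold FC
  dsimp only
  linarith

/-- the squares at real positions are the interpolated node squares -/
lemma sq3C_eq {N : ℕ} {lo hi : C → ℤ} {K : Finset κι} {W : Finset ℤ}
    (hW : ∀ c, ns lo hi c ⊆ W) (sg : κι → C × ℤ → C × ℤ → ℝ) (a b c : C × ℝ) :
    sq3 (K ×ˢ W) (sC N lo hi sg) a b c
      = TC N lo hi (fun z a b => sq3 K sg z a b) a b c := by
  have key : ∀ z x y : C × ℝ, ∑ q ∈ K ×ˢ W, sC N lo hi sg q z x * sC N lo hi sg q z y
      = TC N lo hi (fun z x y => ∑ q ∈ K, sg q z x * sg q z y) z x y := by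
    intro z x y
    rw [sum_product, TC_sum]
    refine sum_congr rfl fun q _ => ?_
    rw [TC_eq]
    have e0 : ∑ w ∈ W, sC N lo hi sg (q, w) z x * sC N lo hi sg (q, w) z y
        = ∑ w ∈ ns lo hi z.1, sC N lo hi sg (q, w) z x * sC N lo hi sg (q, w) z y := by
      symm
      apply sum_subset (hW z.1)
      intro w _ hw
      unfold sC
      dsimp only
      rw [if_neg hw]
      ring
    rw [e0]
    refine sum_congr rfl fun i hi' => ?_
    unfold sC
    dsimp only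
    rw [if_pos hi']
    have h1 := Real.mul_self_sqrt (hat_nonneg i (N * z.2))
    have e1 : Real.sqrt (hat i (N * z.2))
          * (∑ j ∈ ns lo hi x.1, hat j (N * x.2) * sg q (z.1, i) (x.1, j))
          * (Real.sqrt (hat i (N * z.2))
            * ∑ j ∈ ns lo hi y.1, hat j (N * y.2) * sg q (z.1, i) (y.1, j))
        = (Real.sqrt (hat i (N * z.2)) * Real.sqrt (hat i (N * z.2)))
          * ((∑ j ∈ ns lo hi x.1, hat j (N * x.2) * sg q (z.1, i) (x.1, j))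
            * ∑ j ∈ ns lo hi y.1, hat j (N * y.2) * sg q (z.1, i) (y.1, j)) := by
      ring
    rw [e1, h1, sum_mul_sum]
    congr 1
    refine sum_congr rfl fun j _ => sum_congr rfl fun k _ => ?_
    ring
  unfold sq3
  rw [sum_add_distrib, sum_add_distrib, key a b c, key b a c, key c a b]
  have e2 : TC N lo hi (fun z x y => ∑ q ∈ K, sg q z x * sg q z y) b a c
      = TC N lo hi (fun i j k => ∑ q ∈ K, sg q j i * sg q j k) a b c := TC_swap12 N lo hi _ a b c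
  have e3 : TC N lo hi (fun z x y => ∑ q ∈ K, sg q z x * sg q z y) c a b
      = TC N lo hi (fun i j k => ∑ q ∈ K, sg q k i * sg q k j) a b c := by
    rw [TC_swap12 N lo hi _ a c b, TC_swap23]
  rw [e2, e3, ← TC_add, ← TC_add]
  congr 1
  funext i j k
  rw [← sum_add_distrib, ← sum_add_distrib]

/-- (h3C) THE POINTWISE THREE POINT INEQUALITY FROM THE NODE INEQUALITIES -/
theorem bridgeC {N : ℕ} {lo hi : C → ℤ} {W : Finset ℤ} (hW : ∀ c, ns lo hi c ⊆ W)
    {par : C → Bool} {lam D : C × ℤ → Bool → ℤ → ℝ}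
    {lamH DH : C × ℤ → ℤ → ℝ} {kap : C × ℤ → ℝ} {inl Din : ℤ → ℝ} {cE : ℝ}
    {J : Finset ιJ} {nu : ιJ → C × ℤ → C × ℤ → ℝ} {l : ιJ → C × ℤ → ℝ} {ℓ : ιJ → C × ℝ → ℝ}
    (hl : ∀ q ∈ J, ∀ z, RegC N lo hi z → ℓ q z = kC N lo hi (l q) z)
    {I : Finset ιI} {tau : ιI → C × ℤ → ℝ} {phin : ιI → C × ℤ → C × ℤ → ℝ}
    {φ : ιI → C × ℝ → C × ℝ → ℝ}
    (htau : ∀ i ∈ I, ∀ s, 0 ≤ tau i s)
    (hphi : ∀ i ∈ I, ∀ a b, RegC N lo hi a → RegC N lo hi b → φ i a b ≤ nC N lo hi (phin i) a b)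
    {K : Finset κι} {sg : κι → C × ℤ → C × ℤ → ℝ} {θ : ℝ}
    (hlam : ∀ s e y, 0 ≤ lam s e y) (hD : ∀ s e, Kinks (lam s e) (D s e))
    (hDH : ∀ s, Kinks (lamH s) (DH s))
    (hkap : ∀ s, 0 ≤ kap s) (hin0 : ∀ y, 0 ≤ inl y)
    (hin1 : ∀ y : ℤ, 0 ≤ y → y ≤ N → 1 ≤ inl y) (hDin : Kinks inl Din)
    (hnode : ∀ z a b : C × ℤ, z.2 ∈ ns lo hi z.1 → a.2 ∈ ns lo hi a.1 → b.2 ∈ ns lo hi b.1 →
      sym6 (FnC par lam D lamH DH kap inl Din cE J nu l I tau phin) z a b + 2 * sq3 K sg z a b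
        ≤ 6 * θ)
    {a b c : C × ℝ} (ha : RegC N lo hi a) (hb : RegC N lo hi b) (hc : RegC N lo hi c) :
    sym6 (FC par (gC N lo hi lam) (hC N lo hi lamH) (kC N lo hi kap) cE J
        (fun q => nC N lo hi (nu q)) ℓ I (fun i => kC N lo hi (tau i)) φ) a b c
      + 2 * sq3 (K ×ˢ W) (sC N lo hi sg) a b c ≤ 6 * θ := by
  have h1 : sym6 (FC par (gC N lo hi lam) (hC N lo hi lamH) (kC N lo hi kap) cE J
        (fun q => nC N lo hi (nu q)) ℓ I (fun i => kC N lo hi (tau i)) φ) a b c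
      ≤ sym6 (TC N lo hi (FnC par lam D lamH DH kap inl Din cE J nu l I tau phin)) a b c := by
    unfold sym6
    have f := fun {z a b : C × ℝ} (hz : RegC N lo hi z) (ha : RegC N lo hi a)
        (hb : RegC N lo hi b) =>
      FC_le (par := par) (nu := nu) (cE := cE) hl htau hphi hlam hD hDH hkap hin0 hin1 hDin hz ha hb
    have i1 := f ha hb hc
    have i2 := f ha hc hb
    have i3 := f hb ha hc
    have i4 := f hb hc ha
    have i5 := f hc ha hb
    have i6 := f hc hb ha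
    linarith
  rw [sym6_TC] at h1
  rw [sq3C_eq hW sg a b c]
  have h2 := TC_mono (N := N) (lo := lo) (hi := hi) (f := fun z a b =>
      sym6 (FnC par lam D lamH DH kap inl Din cE J nu l I tau phin) z a b
        + 2 * sq3 K sg z a b) (g := fun _ _ _ => 6 * θ) (z := a) (a := b) (b := c)
    (fun i hi' j hj k hk => hnode (a.1, i) (b.1, j) (c.1, k) hi' hj hk)
  rw [TC_const ha hb hc, TC_add, TC_smul] at h2
  linarith

/-- NODE DATA GIVE THE CERTIFICATE, arbitrary classes -/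
theorem certC_of_nodes {n n0 M : ℕ} (hM : M + 1 ≤ n0) (hn : n0 ≤ n) {C : Type}
    {lo hi : C → ℤ} {W : Finset ℤ} (hW : ∀ c, ns lo hi c ⊆ W) {par : C → Bool}
    {ιJ ιI : Type}
    {J : Finset ιJ} {ℓ : ιJ → C × ℝ → ℝ} {l : ιJ → C × ℤ → ℝ}
    (hl : ∀ q ∈ J, ∀ z, RegC (M + 1) lo hi z → ℓ q z = kC (M + 1) lo hi (l q) z)
    {I : Finset ιI} {φ : ιI → C × ℝ → C × ℝ → ℝ} {c : ιI → ℝ}
    {tau : ιI → C × ℤ → ℝ} {phin : ιI → C × ℤ → C × ℤ → ℝ}
    (htau : ∀ i ∈ I, ∀ s, 0 ≤ tau i s)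
    (hphi : ∀ i ∈ I, ∀ a b, RegC (M + 1) lo hi a → RegC (M + 1) lo hi b →
      φ i a b ≤ nC (M + 1) lo hi (phin i) a b)
    {lam D : C × ℤ → Bool → ℤ → ℝ} {lamH DH D' Ad : C × ℤ → ℤ → ℝ} {kap : C × ℤ → ℝ}
    {inl Din : ℤ → ℝ}
    {nu : ιJ → C × ℤ → C × ℤ → ℝ} {p : ℕ}
    {sg : Fin p → C × ℤ → C × ℤ → ℝ} {θ : ℝ} (hθ : 0 < θ)
    (hlam : ∀ s e y, 0 ≤ lam s e y) (hH : ∀ s e y, lam s e y ≤ lamH s y)
    (hD : ∀ s e, Kinks (lam s e) (D s e)) (hDH : ∀ s, Kinks (lamH s) (DH s))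
    (hkap : ∀ s, 0 ≤ kap s) (hin0 : ∀ y, 0 ≤ inl y)
    (hin1 : ∀ y : ℤ, 0 ≤ y → y ≤ ((M + 1 : ℕ) : ℤ) → 1 ≤ inl y) (hDin : Kinks inl Din)
    (hnu : ∀ q s t, 0 ≤ nu q s t)
    (hD'0 : ∀ s y, 0 ≤ D' s y)
    (hD'1 : ∀ s y, (lam s true (y - 1) + lam s false (y - 1)) - 2 * (lam s true y + lam s false y)
      + (lam s true (y + 1) + lam s false (y + 1)) ≤ 2 * D' s y)
    (hAd : ∀ s y, |(lam s true (y - 1) - lam s false (y - 1))
      - 2 * (lam s true y - lam s false y)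
      + (lam s true (y + 1) - lam s false (y + 1))| ≤ Ad s y)
    (hsum : ∀ s : C × ℤ, s.2 ∈ ns lo hi s.1 →
      θ ≤ 1 / ((M : ℝ) + 1) * ((lam s true 0 + lam s false 0) / 4
          + ∑ j ∈ range M, (lam s true ((j + 1 : ℕ) : ℤ)
            + lam s false ((j + 1 : ℕ) : ℤ)) / 2
          + (lam s true ((M + 1 : ℕ) : ℤ) + lam s false ((M + 1 : ℕ) : ℤ)) / 4)
        - ((M : ℝ) + 1) / (8 * (n0 : ℝ) ^ 2)
          * (∑ j ∈ range M, D' s ((j + 1 : ℕ) : ℤ) + ∑ j ∈ range M, Ad s ((j + 1 : ℕ) : ℤ))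
        - (|lam s true 0 - lam s false 0|
          + |lam s true ((M + 1 : ℕ) : ℤ) - lam s false ((M + 1 : ℕ) : ℤ)|) / (4 * n0)
        + ∑ q ∈ I, tau q s * c q)
    (hnode : ∀ z a b : C × ℤ, z.2 ∈ ns lo hi z.1 → a.2 ∈ ns lo hi a.1 → b.2 ∈ ns lo hi b.1 →
      sym6 (FnC par lam D lamH DH kap inl Din (13 / 18) J nu l I tau phin) z a b
        + 2 * sq3 univ sg z a b ≤ 6 * θ) :
    CertifiedC n (13 / 18) par (RegC (M + 1) lo hi) J ℓ I φ c := by
  set Ix : Finset (Fin p × ℤ) := (univ : Finset (Fin p)) ×ˢ W with hIx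
  refine ⟨gC (M + 1) lo hi lam, hC (M + 1) lo hi lamH, kC (M + 1) lo hi kap, Ix.card,
    fun q => sC (M + 1) lo hi sg ((Ix.equivFin.symm q : Ix) : Fin p × ℤ),
    fun q => nC (M + 1) lo hi (nu q),
    fun i => kC (M + 1) lo hi (tau i),
    θ, θ, fun z e x => gC_nonneg _ lo hi hlam z e x, fun z e x => gC_le _ lo hi hH z e x,
    fun z => kC_nonneg _ lo hi hkap z,
    fun q _ a b => nC_nonneg _ lo hi (hnu q) a b,
    fun i hi' z => kC_nonneg _ lo hi (htau i hi') z, hθ, le_rfl,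
    ?_, ?_⟩
  · intro z hz
    have hn0 : 0 < n0 := lt_of_lt_of_le (Nat.succ_pos M) hM
    have hnpos : (0:ℝ) < n := by exact_mod_cast lt_of_lt_of_le hn0 hn
    -- per node: (θ - Σ τ c) n ≤ Σ prices
    have node : ∀ i ∈ ns lo hi z.1, (θ - ∑ q ∈ I, tau q (z.1, i) * c q) * n
        ≤ ∑ x ∈ Ico (0 : ℤ) n, pl (lam (z.1, i) (tp n x).1) (((M + 1 : ℕ) : ℝ) * pos n x) := by
      intro i hi'
      refine node_sumL hM hn (hD'0 (z.1, i)) (hD'1 (z.1, i)) (hAd (z.1, i)) ?_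
      have := hsum (z.1, i) hi'
      linarith
    have e1 : ∑ x ∈ Ico (0 : ℤ) n, gC (M + 1) lo hi lam z (tp n x).1 (pos n x)
        = ∑ i ∈ ns lo hi z.1, hat i (((M + 1 : ℕ) : ℝ) * z.2) * ∑ x ∈ Ico (0 : ℤ) n,
          pl (lam (z.1, i) (tp n x).1) (((M + 1 : ℕ) : ℝ) * pos n x) := by
      unfold gC
      rw [sum_comm]
      refine sum_congr rfl fun i _ => ?_
      rw [mul_sum]
    have e2 : n * ∑ q ∈ I, kC (M + 1) lo hi (tau q) z * c q
        = ∑ i ∈ ns lo hi z.1, hat i (((M + 1 : ℕ) : ℝ) * z.2)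
          * ((∑ q ∈ I, tau q (z.1, i) * c q) * n) := by
      unfold kC
      have : ∀ q ∈ I, (∑ i ∈ ns lo hi z.1, hat i (((M + 1 : ℕ) : ℝ) * z.2) * tau q (z.1, i)) * c q
          = ∑ i ∈ ns lo hi z.1, hat i (((M + 1 : ℕ) : ℝ) * z.2) * (tau q (z.1, i) * c q) := by
        intro q _
        rw [sum_mul]
        refine sum_congr rfl fun i _ => ?_
        ring
      rw [sum_congr rfl this, sum_comm, mul_sum]
      refine sum_congr rfl fun i _ => ?_
      rw [← mul_sum]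
      ring
    rw [e1, e2, ← sum_add_distrib]
    have h1 : ∑ i ∈ ns lo hi z.1, hat i (((M + 1 : ℕ) : ℝ) * z.2) * (θ * n)
        ≤ ∑ i ∈ ns lo hi z.1, (hat i (((M + 1 : ℕ) : ℝ) * z.2) * ∑ x ∈ Ico (0 : ℤ) n,
          pl (lam (z.1, i) (tp n x).1) (((M + 1 : ℕ) : ℝ) * pos n x)
          + hat i (((M + 1 : ℕ) : ℝ) * z.2) * ((∑ q ∈ I, tau q (z.1, i) * c q) * n)) := by
      refine sum_le_sum fun i hi' => ?_
      rw [← mul_add]
      refine mul_le_mul_of_nonneg_left ?_ (hat_nonneg _ _)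
      have := node i hi'
      linarith
    rw [← sum_mul, hz.one, one_mul] at h1
    exact h1
  · intro a b c ha hb hc
    have key := bridgeC (N := M + 1) (cE := 13 / 18) (K := univ) hW hl htau hphi hlam hD hDH hkap
      hin0 hin1 hDin hnode ha hb hc
    have e3 : sq3 univ (fun q : Fin Ix.card =>
          sC (M + 1) lo hi sg ((Ix.equivFin.symm q : Ix) : Fin p × ℤ)) a b c
        = sq3 Ix (sC (M + 1) lo hi sg) a b c := by
      unfold sq3
      rw [Equiv.sum_comp Ix.equivFin.symm (fun q : Ix =>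
          sC (M + 1) lo hi sg (q : Fin p × ℤ) a b * sC (M + 1) lo hi sg (q : Fin p × ℤ) a c
          + sC (M + 1) lo hi sg (q : Fin p × ℤ) b a * sC (M + 1) lo hi sg (q : Fin p × ℤ) b c
          + sC (M + 1) lo hi sg (q : Fin p × ℤ) c a * sC (M + 1) lo hi sg (q : Fin p × ℤ) c b)]
      exact sum_coe_sort Ix (fun q =>
          sC (M + 1) lo hi sg q a b * sC (M + 1) lo hi sg q a c
          + sC (M + 1) lo hi sg q b a * sC (M + 1) lo hi sg q b c
          + sC (M + 1) lo hi sg q c a * sC (M + 1) lo hi sg q c b)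
    rw [e3]
    exact key

end

end MP61673a.Bridge
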