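import Pool.Agent.Mu673.Kink2

/-!
THE EXACT RULE OF helper55 (free corrections): `W` = node values of the end point labels,
`lam` = piecewise linear price. In every cell the difference is bilinear in three strips, hence only
two quadratics per integer label have to be nonnegative.
-/

set_option autoImplicit false

namespace MP61673a.Kink

open Finset

noncomputable section

/-- END POINT RULE: the price at `2 d - c` is at most the interpolation of the node values -/
def EndOK (lam W : ℤ → ℝ) : Prop :=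
  ∀ (I J : Finset ℤ) (c d : ℝ), Near I c → Near J d →
    pl lam (2 * d - c) ≤ ∑ i ∈ I, ∑ j ∈ J, hat i c * hat j d * W (2 * j - i)

/-- MIDPOINT RULE -/
def MidOK (lam W : ℤ → ℝ) : Prop :=
  ∀ (I J : Finset ℤ) (c d : ℝ), Near I c → Near J d →
    pl lam ((c + d) / 2) ≤ ∑ i ∈ I, ∑ j ∈ J, hat i c * hat j d * W (i + j)

lemma EndOK.of_kinks {lam D : ℤ → ℝ} (h : Kinks lam D) : EndOK lam (eK lam D) :=
  fun _ _ _ _ hI hJ => pl_le_eK h hI hJ

lemma MidOK.of_kinks {lam D : ℤ → ℝ} (h : Kinks lam D) : MidOK lam (mK lam D) :=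
  fun _ _ _ _ hI hJ => pl_le_mK h hI hJ

lemma EndOK.mono {lam W W' : ℤ → ℝ} (h : EndOK lam W) (hw : ∀ y, W y ≤ W' y) : EndOK lam W' :=
  fun I J c d hI hJ => (h I J c d hI hJ).trans
    (sum_le_sum fun _ _ => sum_le_sum fun _ _ =>
      mul_le_mul_of_nonneg_left (hw _) (mul_nonneg (hat_nonneg _ _) (hat_nonneg _ _)))

lemma MidOK.mono {lam W W' : ℤ → ℝ} (h : MidOK lam W) (hw : ∀ y, W y ≤ W' y) : MidOK lam W' :=
  fun I J c d hI hJ => (h I J c d hI hJ).trans
    (sum_le_sum fun _ _ => sum_le_sum fun _ _ =>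
      mul_le_mul_of_nonneg_left (hw _) (mul_nonneg (hat_nonneg _ _) (hat_nonneg _ _)))

/-- the two quadratics of the label `m` -/
structure Fre (lam W : ℤ → ℝ) : Prop where
  ge : ∀ m, lam m ≤ W m
  two : ∀ m, 2 * lam m ≤ W (m - 1) + W (m + 1)
  q1 : ∀ m, 4 * lam m ≤ W m + 2 * W (m - 1) + W (m + 2) ∨
    (4 * lam m - (W m + 2 * W (m - 1) + W (m + 2))) ^ 2
      ≤ 8 * (W m - lam m) * (W (m - 1) + W (m + 1) - 2 * lam m)
  q2 : ∀ m, 4 * lam m ≤ W m + 2 * W (m + 1) + W (m - 2) ∨
    (4 * lam m - (W m + 2 * W (m + 1) + W (m - 2))) ^ 2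
      ≤ 8 * (W m - lam m) * (W (m - 1) + W (m + 1) - 2 * lam m)

/-- a quadratic in Bernstein form -/
lemma bern {p q r x y : ℝ} (hp : 0 ≤ p) (hr : 0 ≤ r) (hx : 0 ≤ x) (hy : 0 ≤ y)
    (h : 0 ≤ q ∨ q ^ 2 ≤ p * r) : 0 ≤ p * x ^ 2 + 2 * q * (x * y) + r * y ^ 2 := by
  rcases h with h | h
  · positivity
  · rcases hp.eq_or_lt with h0 | h0
    · rw [← h0] at h ⊢
      have hq : q = 0 := by nlinarith
      rw [hq]
      have := mul_nonneg hr (sq_nonneg y)
      linarith
    · have e : p * (p * x ^ 2 + 2 * q * (x * y) + r * y ^ 2)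
          = (p * x + q * y) ^ 2 + (p * r - q ^ 2) * y ^ 2 := by ring
      have h1 : 0 ≤ p * (p * x ^ 2 + 2 * q * (x * y) + r * y ^ 2) := by
        rw [e]
        have := mul_nonneg (sub_nonneg.2 h) (sq_nonneg y)
        have := sq_nonneg (p * x + q * y)
        linarith
      exact nonneg_of_mul_nonneg_right h1 h0

/-- quadratic on the line `2 u = s` -/
lemma Fre.line {lam W : ℤ → ℝ} (h : Fre lam W) (y : ℤ) {s : ℝ} (hs0 : 0 ≤ s) (hs1 : s ≤ 1) :
    lam y ≤ (1 - s) * (1 - s / 2) * W y + (1 - s) * (s / 2) * W (y + 2)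
      + s * (1 - s / 2) * W (y - 1) + s * (s / 2) * W (y + 1) := by
  have g0 := h.ge y
  have g2 := h.two y
  have k := bern (p := W y - lam y) (q := (W y + 2 * W (y - 1) + W (y + 2) - 4 * lam y) / 4)
    (r := (W (y - 1) + W (y + 1) - 2 * lam y) / 2) (x := 1 - s) (y := s) (by linarith)
    (by linarith) (by linarith) hs0 (by
      rcases h.q1 y with c | c
      · left
        linarith
      · right
        nlinarith)
  nlinarith

/-- quadratic on the line `2 u = s`, mirrored -/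
lemma Fre.line' {lam W : ℤ → ℝ} (h : Fre lam W) (y : ℤ) {s : ℝ} (hs0 : 0 ≤ s) (hs1 : s ≤ 1) :
    lam y ≤ (1 - s) * (1 - s / 2) * W y + (1 - s) * (s / 2) * W (y - 2)
      + s * (1 - s / 2) * W (y + 1) + s * (s / 2) * W (y - 1) := by
  have g0 := h.ge y
  have g2 := h.two y
  have k := bern (p := W y - lam y) (q := (W y + 2 * W (y + 1) + W (y - 2) - 4 * lam y) / 4)
    (r := (W (y - 1) + W (y + 1) - 2 * lam y) / 2) (x := 1 - s) (y := s) (by linarith)
    (by linarith) (by linarith) hs0 (by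
      rcases h.q2 y with c | c
      · left
        linarith
      · right
        nlinarith)
  nlinarith

lemma Fre.core {lam W : ℤ → ℝ} (h : Fre lam W) (y : ℤ) {s u : ℝ} (hs0 : 0 ≤ s) (hs1 : s ≤ 1)
    (hu0 : 0 ≤ u) (hu1 : u ≤ 1) :
    pl lam (y + 2 * u - s) ≤ (1 - s) * (1 - u) * W y + (1 - s) * u * W (y + 2)
      + s * (1 - u) * W (y - 1) + s * u * W (y + 1) := by
  have L0 := h.line y hs0 hs1
  have L1 := h.line' (y + 1) (s := 1 - s) (by linarith) (by linarith)
  rw [show y + 1 - 2 = y - 1 by ring, show y + 1 + 1 = y + 2 by ring,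
    show y + 1 - 1 = y by ring] at L1
  rcases le_total (2 * u) s with c | c
  · have hx := pl_of_mem lam (k := y - 1) (x := y + 2 * u - s) (by push_cast; linarith)
      (by push_cast; linarith)
    rw [show y - 1 + 1 = y by ring] at hx
    rw [hx]
    push_cast
    rcases hs0.eq_or_lt with c0 | c0
    · have hu : u = 0 := by linarith
      subst hu
      rw [← c0]
      have := h.ge y
      nlinarith
    · have a0 := h.ge y
      have a1 := h.ge (y - 1)
      have e1 : 0 ≤ (s - 2 * u) * ((1 - s) * (W y - lam y) + s * (W (y - 1) - lam (y - 1))) :=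
        mul_nonneg (by linarith) (add_nonneg (mul_nonneg (by linarith) (by linarith))
          (mul_nonneg hs0 (by linarith)))
      have e2 := mul_nonneg (by linarith : (0:ℝ) ≤ 2 * u) (sub_nonneg.2 L0)
      refine le_of_sub_nonneg (nonneg_of_mul_nonneg_right (a := s) ?_ c0)
      have e3 : s * ((1 - s) * (1 - u) * W y + (1 - s) * u * W (y + 2)
          + s * (1 - u) * W (y - 1) + s * u * W (y + 1)
          - ((↑y - 1 + 1 - (↑y + 2 * u - s)) * lam (y - 1)
            + (↑y + 2 * u - s - (↑y - 1)) * lam y))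
          = (s - 2 * u) * ((1 - s) * (W y - lam y) + s * (W (y - 1) - lam (y - 1)))
            + 2 * u * ((1 - s) * (1 - s / 2) * W y + (1 - s) * (s / 2) * W (y + 2)
              + s * (1 - s / 2) * W (y - 1) + s * (s / 2) * W (y + 1) - lam y) := by ring
      have e4 := add_nonneg e1 e2
      rw [← e3] at e4
      convert e4 using 2
  · rcases le_total (2 * u) (1 + s) with c' | c'
    · have hx := pl_of_mem lam (k := y) (x := y + 2 * u - s) (by linarith) (by linarith)
      rw [hx]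
      have e1 := mul_nonneg (by linarith : (0:ℝ) ≤ 1 + s - 2 * u) (sub_nonneg.2 L0)
      have e2 := mul_nonneg (by linarith : (0:ℝ) ≤ 2 * u - s) (sub_nonneg.2 L1)
      nlinarith
    · have hx := pl_of_mem lam (k := y + 1) (x := y + 2 * u - s) (by push_cast; linarith)
        (by push_cast; linarith)
      rw [show y + 1 + 1 = y + 2 by ring] at hx
      rw [hx]
      push_cast
      rcases hs1.eq_or_lt with c0 | c0
      · have hu : u = 1 := by linarith
        subst hu
        rw [c0]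
        have := h.ge (y + 1)
        nlinarith
      · have a0 := h.ge (y + 2)
        have a1 := h.ge (y + 1)
        have e1 : 0 ≤ (2 * u - (1 + s))
            * ((1 - s) * (W (y + 2) - lam (y + 2)) + s * (W (y + 1) - lam (y + 1))) :=
          mul_nonneg (by linarith) (add_nonneg (mul_nonneg (by linarith) (by linarith))
            (mul_nonneg hs0 (by linarith)))
        have e2 := mul_nonneg (by linarith : (0:ℝ) ≤ 2 * (1 - u)) (sub_nonneg.2 L1)
        refine le_of_sub_nonneg (nonneg_of_mul_nonneg_right (a := 1 - s) ?_ (by linarith))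
        have e4 := add_nonneg e1 e2
        convert e4 using 1
        ring

theorem EndOK.of_fre {lam W : ℤ → ℝ} (h : Fre lam W) : EndOK lam W := by
  intro I J c d hI hJ
  rw [sum_hat2 hI hJ (fun i j => W (2 * j - i))]
  have h0 := h.core (2 * ⌊d⌋ - ⌊c⌋) (Int.fract_nonneg c) (Int.fract_lt_one c).le
    (Int.fract_nonneg d) (Int.fract_lt_one d).le
  have e : ((2 * ⌊d⌋ - ⌊c⌋ : ℤ) : ℝ) + 2 * Int.fract d - Int.fract c = 2 * d - c := by
    have h1 := Int.floor_add_fract d
    have h2 := Int.floor_add_fract c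
    push_cast
    linarith
  rw [e] at h0
  rw [show 2 * (⌊d⌋ + 1) - ⌊c⌋ = 2 * ⌊d⌋ - ⌊c⌋ + 2 by ring,
    show 2 * ⌊d⌋ - (⌊c⌋ + 1) = 2 * ⌊d⌋ - ⌊c⌋ - 1 by ring,
    show 2 * (⌊d⌋ + 1) - (⌊c⌋ + 1) = 2 * ⌊d⌋ - ⌊c⌋ + 1 by ring]
  exact h0

/-! ### Midpoints with free corrections -/

/-- the exact rule for midpoints: node values `M m` of the half labels `m / 2` -/
structure FreM (lam M : ℤ → ℝ) : Prop where
  ev : ∀ k, lam k ≤ M (2 * k)
  od : ∀ k, lam k + lam (k + 1) ≤ 2 * M (2 * k + 1)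
  kn : ∀ k, 4 * lam k ≤ M (2 * k - 1) + M (2 * k + 1) + 2 * M (2 * k)

lemma FreM.core {lam M : ℤ → ℝ} (h : FreM lam M) (i j : ℤ) {s u : ℝ} (hs0 : 0 ≤ s) (hs1 : s ≤ 1)
    (hu0 : 0 ≤ u) (hu1 : u ≤ 1) :
    pl lam (((i + s) + (j + u)) / 2) ≤ (1 - s) * (1 - u) * M (i + j)
      + (1 - s) * u * M (i + j + 1) + s * (1 - u) * M (i + j + 1) + s * u * M (i + j + 2) := by
  have A0 := mul_nonneg (sub_nonneg.2 hs1) (sub_nonneg.2 hu1)
  have A1 := mul_nonneg hs0 hu0
  have A2 := mul_nonneg (sub_nonneg.2 hs1) hu0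
  have A3 := mul_nonneg hs0 (sub_nonneg.2 hu1)
  rcases Int.even_or_odd' (i + j) with ⟨k, hk | hk⟩
  · -- even
    have e1 : (i : ℝ) + j = 2 * k := by exact_mod_cast hk
    have hx := pl_of_mem lam (k := k) (x := ((i + s) + (j + u)) / 2) (by linarith) (by linarith)
    rw [hx, hk]
    have k0 := h.ev k
    have k1 := h.od k
    have k2 := h.ev (k + 1)
    rw [show 2 * (k + 1) = 2 * k + 2 by ring] at k2
    have e2 : ((i + s) + (j + u)) / 2 = (k : ℝ) + (s + u) / 2 := by linarith
    rw [e2]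
    have r0 := mul_nonneg A0 (sub_nonneg.2 k0)
    have r1 := mul_nonneg A2 (sub_nonneg.2 k1)
    have r2 := mul_nonneg A3 (sub_nonneg.2 k1)
    have r3 := mul_nonneg A1 (sub_nonneg.2 k2)
    nlinarith
  · -- odd
    have e1 : (i : ℝ) + j = 2 * k + 1 := by exact_mod_cast hk
    rw [hk]
    have k0 := h.od k
    have k1 := h.ev (k + 1)
    have k2 := h.od (k + 1)
    have k3 := h.kn (k + 1)
    rw [show 2 * (k + 1) = 2 * k + 1 + 1 by ring] at k1
    rw [show 2 * (k + 1) + 1 = 2 * k + 1 + 2 by ring, show k + 1 + 1 = k + 2 by ring] at k2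
    rw [show 2 * (k + 1) - 1 = 2 * k + 1 by ring, show 2 * (k + 1) + 1 = 2 * k + 1 + 2 by ring,
      show 2 * (k + 1) = 2 * k + 1 + 1 by ring] at k3
    have e2 : ((i + s) + (j + u)) / 2 = (k : ℝ) + 1 + (s + u - 1) / 2 := by linarith
    rw [e2]
    -- diagonal
    have diag : ∀ t : ℝ, 0 ≤ t → t ≤ 1 → lam (k + 1) ≤ (1 - t) * t * M (2 * k + 1)
        + (1 - t) * (1 - t) * M (2 * k + 1 + 1) + t * t * M (2 * k + 1 + 1)
        + t * (1 - t) * M (2 * k + 1 + 2) := by
      intro t t0 t1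
      have q0 : 0 ≤ t * (1 - t) := mul_nonneg t0 (by linarith)
      have q1 : 0 ≤ 1 - 4 * (t * (1 - t)) := by nlinarith [sq_nonneg (1 - 2 * t)]
      have r1 := mul_nonneg q0 (sub_nonneg.2 k3)
      have r2 := mul_nonneg q1 (sub_nonneg.2 k1)
      nlinarith
    rcases le_total (s + u) 1 with c | c
    · have hx := pl_of_mem lam (k := k) (x := (k : ℝ) + 1 + (s + u - 1) / 2) (by linarith)
        (by linarith)
      rw [hx]
      rcases hs1.eq_or_lt with c0 | c0
      · have hu : u = 0 := by linarith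
        subst hu
        rw [c0]
        nlinarith
      · have d := diag s hs0 hs1
        refine le_of_sub_nonneg (nonneg_of_mul_nonneg_right (a := 1 - s) ?_ (by linarith))
        have e3 : 0 ≤ (1 - s - u) * ((1 - s) * (M (2 * k + 1) - (lam k + lam (k + 1)) / 2)
            + s * (M (2 * k + 1 + 1) - lam (k + 1))) :=
          mul_nonneg (by linarith) (add_nonneg (mul_nonneg (by linarith) (by linarith))
            (mul_nonneg hs0 (by linarith)))
        have e4 := mul_nonneg hu0 (sub_nonneg.2 d)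
        have e5 := add_nonneg e3 e4
        convert e5 using 1
        ring
    · have hx := pl_of_mem lam (k := k + 1) (x := (k : ℝ) + 1 + (s + u - 1) / 2)
        (by push_cast; linarith) (by push_cast; linarith)
      rw [show k + 1 + 1 = k + 2 by ring] at hx
      rw [hx]
      push_cast
      rcases hs0.eq_or_lt with c0 | c0
      · have hu : u = 1 := by linarith
        subst hu
        rw [← c0]
        nlinarith
      · have d := diag s hs0 hs1
        refine le_of_sub_nonneg (nonneg_of_mul_nonneg_right (a := s) ?_ c0)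
        have e3 : 0 ≤ (s + u - 1) * (s * (M (2 * k + 1 + 2) - (lam (k + 1) + lam (k + 2)) / 2)
            + (1 - s) * (M (2 * k + 1 + 1) - lam (k + 1))) :=
          mul_nonneg (by linarith) (add_nonneg (mul_nonneg hs0 (by linarith))
            (mul_nonneg (by linarith) (by linarith)))
        have e4 := mul_nonneg (sub_nonneg.2 hu1) (sub_nonneg.2 d)
        have e5 := add_nonneg e3 e4
        convert e5 using 1
        ring

theorem MidOK.of_freM {lam M : ℤ → ℝ} (h : FreM lam M) : MidOK lam M := by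
  intro I J c d hI hJ
  rw [sum_hat2 hI hJ (fun i j => M (i + j))]
  have h0 := h.core ⌊c⌋ ⌊d⌋ (Int.fract_nonneg c) (Int.fract_lt_one c).le
    (Int.fract_nonneg d) (Int.fract_lt_one d).le
  rw [Int.floor_add_fract c, Int.floor_add_fract d] at h0
  rw [show ⌊c⌋ + (⌊d⌋ + 1) = ⌊c⌋ + ⌊d⌋ + 1 by ring,
    show ⌊c⌋ + 1 + ⌊d⌋ = ⌊c⌋ + ⌊d⌋ + 1 by ring,
    show ⌊c⌋ + 1 + (⌊d⌋ + 1) = ⌊c⌋ + ⌊d⌋ + 2 by ring]
  exact h0

/-! ### Other linear forms -/

lemma hat_neg (i : ℤ) (x : ℝ) : hat (-i) (-x) = hat i x := by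
  unfold hat
  push_cast
  rw [show -x - -(i:ℝ) = -(x - i) by ring, abs_neg]

lemma near_neg {I : Finset ℤ} {x : ℝ} (h : Near I x) : Near (I.image (fun i => -i)) (-x) := by
  intro i hi
  rw [mem_image]
  refine ⟨-i, h _ ?_, by ring⟩
  rw [← hat_neg (-i) x, neg_neg]
  exact hi

lemma sum_neg_image (I : Finset ℤ) (F : ℤ → ℝ) :
    ∑ i ∈ I.image (fun i => -i), F i = ∑ i ∈ I, F (-i) := by
  rw [sum_image]
  intro a _ b _ h
  simpa using h

/-- price at `2 d + c` -/
lemma EndOK.add {lam W : ℤ → ℝ} (h : EndOK lam W) {I J : Finset ℤ} {c d : ℝ} (hI : Near I c)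
    (hJ : Near J d) :
    pl lam (2 * d + c) ≤ ∑ i ∈ I, ∑ j ∈ J, hat i c * hat j d * W (2 * j + i) := by
  have k := h _ J (-c) d (near_neg hI) hJ
  rw [sum_neg_image] at k
  simp only [hat_neg, sub_neg_eq_add] at k
  exact k

/-- price at `c - 2 d` -/
lemma EndOK.sub {lam W : ℤ → ℝ} (h : EndOK lam W) {I J : Finset ℤ} {c d : ℝ} (hI : Near I c)
    (hJ : Near J d) :
    pl lam (c - 2 * d) ≤ ∑ i ∈ I, ∑ j ∈ J, hat i c * hat j d * W (i - 2 * j) := by
  have k := h _ _ (-c) (-d) (near_neg hI) (near_neg hJ)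
  rw [sum_neg_image] at k
  simp only [sum_neg_image, hat_neg] at k
  have e : 2 * -d - -c = c - 2 * d := by ring
  rw [e] at k
  refine k.trans (le_of_eq ?_)
  refine sum_congr rfl fun i _ => sum_congr rfl fun j _ => ?_
  rw [show 2 * -j - -i = i - 2 * j by ring]

/-- price at `- 2 d - c` -/
lemma EndOK.neg {lam W : ℤ → ℝ} (h : EndOK lam W) {I J : Finset ℤ} {c d : ℝ} (hI : Near I c)
    (hJ : Near J d) :
    pl lam (-(2 * d) - c) ≤ ∑ i ∈ I, ∑ j ∈ J, hat i c * hat j d * W (-(2 * j) - i) := by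
  have k := h I _ c (-d) hI (near_neg hJ)
  simp only [sum_neg_image, hat_neg] at k
  have e : 2 * -d - c = -(2 * d) - c := by ring
  rw [e] at k
  refine k.trans (le_of_eq ?_)
  refine sum_congr rfl fun i _ => sum_congr rfl fun j _ => ?_
  rw [show 2 * -j - i = -(2 * j) - i by ring]

/-- midpoint of `-c` and `-d` -/
lemma MidOK.neg {lam W : ℤ → ℝ} (h : MidOK lam W) {I J : Finset ℤ} {c d : ℝ} (hI : Near I c)
    (hJ : Near J d) :
    pl lam (-((c + d) / 2)) ≤ ∑ i ∈ I, ∑ j ∈ J, hat i c * hat j d * W (-(i + j)) := by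
  have k := h _ _ (-c) (-d) (near_neg hI) (near_neg hJ)
  rw [sum_neg_image] at k
  simp only [sum_neg_image, hat_neg] at k
  have e : (-c + -d) / 2 = -((c + d) / 2) := by ring
  rw [e] at k
  refine k.trans (le_of_eq ?_)
  refine sum_congr rfl fun i _ => sum_congr rfl fun j _ => ?_
  rw [show -i + -j = -(i + j) by ring]

/-- half difference `(d - c) / 2` -/
lemma MidOK.dif {lam W : ℤ → ℝ} (h : MidOK lam W) {I J : Finset ℤ} {c d : ℝ} (hI : Near I c)
    (hJ : Near J d) :
    pl lam ((d - c) / 2) ≤ ∑ i ∈ I, ∑ j ∈ J, hat i c * hat j d * W (j - i) := by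
  have k := h _ J (-c) d (near_neg hI) hJ
  rw [sum_neg_image] at k
  simp only [hat_neg] at k
  have e : (-c + d) / 2 = (d - c) / 2 := by ring
  rw [e] at k
  refine k.trans (le_of_eq ?_)
  refine sum_congr rfl fun i _ => sum_congr rfl fun j _ => ?_
  rw [show -i + j = j - i by ring]

end

end MP61673a.Kink
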