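import Pool.Agent.Mu673.BridgeC
import Pool.Agent.Mu673.Kink4

/-!
GENERAL BRIDGE FOR ARBITRARY CLASSES. Per sampler node `z`: label prices `G z e` (ANY nonnegative
functions of the position, jumps allowed), majorant `H z`, multiplier `kap z`, `tau i z`. Hypotheses:
pair cost of the node `z` ≤ two variable interpolation of a node table `WP z`; midpoints ≤ table
`WM z`; normalisation; node inequality. Conclusion: `CertifiedC`.
-/

set_option autoImplicit false

namespace MP61673a.Bridge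

open Finset MP61673a.Kink MP61673a.Sos
open MP61673a.TP (pos pos_mem tp FC CertifiedC)

noncomputable section

variable {C : Type*} {κι ιJ ιI : Type*}

/-- node cost of the ordered pair `(a,b)` for the sampler node `z` -/
def FnG (par : C → Bool) (WP WM : C × ℤ → C × ℤ → C × ℤ → ℝ) (J : Finset ιJ)
    (nu : ιJ → C × ℤ → C × ℤ → ℝ) (l : ιJ → C × ℤ → ℝ) (z a b : C × ℤ) : ℝ :=
  WP z a b + (if par a.1 = par b.1 then WM z a b / 2 else 0) + ∑ q ∈ J, nu q a b * l q z

/-- prices at real positions of the sampler -/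
def gG (N : ℕ) (lo hi : C → ℤ) (G : C × ℤ → Bool → ℝ → ℝ) (z : C × ℝ) (e : Bool) (x : ℝ) : ℝ :=
  ∑ i ∈ ns lo hi z.1, hat i (N * z.2) * G (z.1, i) e x

/-- majorant at real positions of the sampler -/
def hG (N : ℕ) (lo hi : C → ℤ) (H : C × ℤ → ℝ → ℝ) (z : C × ℝ) (x : ℝ) : ℝ :=
  ∑ i ∈ ns lo hi z.1, hat i (N * z.2) * H (z.1, i) x

/-- `TC` through `nC` -/
lemma TC_nC (N : ℕ) (lo hi : C → ℤ) (f : C × ℤ → C × ℤ → C × ℤ → ℝ) (z a b : C × ℝ) :
    TC N lo hi f z a b = ∑ i ∈ ns lo hi z.1, hat i (N * z.2) * nC N lo hi (f (z.1, i)) a b :=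
  TC_eq N lo hi f z a b

/-- the pointwise cost is at most the interpolated node cost -/
lemma FG_le {N : ℕ} {lo hi : C → ℤ} {par : C → Bool} {G : C × ℤ → Bool → ℝ → ℝ}
    {H : C × ℤ → ℝ → ℝ} {kap : C × ℤ → ℝ} {cE : ℝ} {WP WM : C × ℤ → C × ℤ → C × ℤ → ℝ}
    {J : Finset ιJ} {nu : ιJ → C × ℤ → C × ℤ → ℝ} {l : ιJ → C × ℤ → ℝ} {ℓ : ιJ → C × ℝ → ℝ}
    (hl : ∀ q ∈ J, ∀ z, RegC N lo hi z → ℓ q z = kC N lo hi (l q) z)
    {I : Finset ιI} {tau : ιI → C × ℤ → ℝ} {φ : ιI → C × ℝ → C × ℝ → ℝ}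
    (hpair : ∀ z : C × ℤ, z.2 ∈ ns lo hi z.1 → ∀ a b, RegC N lo hi a → RegC N lo hi b →
      (if 0 < 2 * b.2 - a.2 ∧ 2 * b.2 - a.2 < 1 then
        G z (par a.1) (2 * b.2 - a.2) + kap z else 0) - cE * kap z + ∑ i ∈ I, tau i z * φ i a b
      ≤ nC N lo hi (WP z) a b)
    (hmid : ∀ z : C × ℤ, z.2 ∈ ns lo hi z.1 → ∀ a b, RegC N lo hi a → RegC N lo hi b →
      par a.1 = par b.1 → H z ((a.2 + b.2) / 2) ≤ nC N lo hi (WM z) a b)
    {z a b : C × ℝ} (hz : RegC N lo hi z) (ha : RegC N lo hi a) (hb : RegC N lo hi b) :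
    FC par (gG N lo hi G) (hG N lo hi H) (kC N lo hi kap) cE J
        (fun q => nC N lo hi (nu q)) ℓ I (fun i => kC N lo hi (tau i)) φ z a b
      ≤ TC N lo hi (FnG par WP WM J nu l) z a b := by
  have hl' := fun q hq => hl q hq z hz
  -- pair part
  have p1 : (if 0 < 2 * b.2 - a.2 ∧ 2 * b.2 - a.2 < 1 then
        gG N lo hi G z (par a.1) (2 * b.2 - a.2) + kC N lo hi kap z else 0)
        - cE * kC N lo hi kap z + ∑ i ∈ I, kC N lo hi (tau i) z * φ i a b
      ≤ TC N lo hi WP z a b := by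
    rw [TC_nC]
    have e : (if 0 < 2 * b.2 - a.2 ∧ 2 * b.2 - a.2 < 1 then
        gG N lo hi G z (par a.1) (2 * b.2 - a.2) + kC N lo hi kap z else 0)
        - cE * kC N lo hi kap z + ∑ i ∈ I, kC N lo hi (tau i) z * φ i a b
        = ∑ i ∈ ns lo hi z.1, hat i (N * z.2) * ((if 0 < 2 * b.2 - a.2 ∧ 2 * b.2 - a.2 < 1 then
          G (z.1, i) (par a.1) (2 * b.2 - a.2) + kap (z.1, i) else 0) - cE * kap (z.1, i)
          + ∑ q ∈ I, tau q (z.1, i) * φ q a b) := by
      have e1 : ∀ i, hat i (N * z.2) * ((if 0 < 2 * b.2 - a.2 ∧ 2 * b.2 - a.2 < 1 then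
          G (z.1, i) (par a.1) (2 * b.2 - a.2) + kap (z.1, i) else 0) - cE * kap (z.1, i)
          + ∑ q ∈ I, tau q (z.1, i) * φ q a b)
          = (if 0 < 2 * b.2 - a.2 ∧ 2 * b.2 - a.2 < 1 then
            hat i (N * z.2) * G (z.1, i) (par a.1) (2 * b.2 - a.2)
              + hat i (N * z.2) * kap (z.1, i) else 0)
            - cE * (hat i (N * z.2) * kap (z.1, i))
            + ∑ q ∈ I, hat i (N * z.2) * tau q (z.1, i) * φ q a b := by
        intro i
        rw [mul_add, mul_sum]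
        have : ∑ q ∈ I, hat i (N * z.2) * (tau q (z.1, i) * φ q a b)
            = ∑ q ∈ I, hat i (N * z.2) * tau q (z.1, i) * φ q a b :=
          sum_congr rfl fun q _ => by ring
        rw [this]
        split_ifs <;> ring
      rw [sum_congr rfl fun i _ => e1 i, sum_add_distrib, sum_sub_distrib, ← mul_sum]
      congr 1
      · congr 1
        split_ifs
        · unfold gG kC
          rw [sum_add_distrib]
        · rw [sum_const_zero]
      · unfold kC
        rw [sum_comm]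
        refine sum_congr rfl fun q _ => ?_
        rw [sum_mul]
    rw [e]
    exact sum_le_sum fun i hi' => mul_le_mul_of_nonneg_left (hpair (z.1, i) hi' a b ha hb)
      (hat_nonneg _ _)
  -- midpoints
  have p2 : (if par a.1 = par b.1 then hG N lo hi H z ((a.2 + b.2) / 2) / 2 else 0)
      ≤ TC N lo hi (fun z a b => if par a.1 = par b.1 then WM z a b / 2 else 0) z a b := by
    by_cases hc : par a.1 = par b.1
    · rw [TC_nC]
      unfold hG nC
      simp only [if_pos hc]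
      rw [sum_div]
      refine sum_le_sum fun i hi' => ?_
      have r1 := hmid (z.1, i) hi' a b ha hb hc
      have e : ∑ j ∈ ns lo hi a.1, ∑ k ∈ ns lo hi b.1, hat j (N * a.2) * hat k (N * b.2)
            * (WM (z.1, i) (a.1, j) (b.1, k) / 2)
          = nC N lo hi (WM (z.1, i)) a b / 2 := by
        unfold nC
        simp only [sum_div]
        refine sum_congr rfl fun j _ => sum_congr rfl fun k _ => ?_
        ring
      rw [e, mul_div_assoc]
      exact mul_le_mul_of_nonneg_left (by linarith) (hat_nonneg _ _)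
    · rw [if_neg hc]
      unfold TC
      simp only [if_neg hc]
      simp
  -- linear facts
  have p4 : ∑ q ∈ J, nC N lo hi (nu q) a b * ℓ q z
      = TC N lo hi (fun z a b => ∑ q ∈ J, nu q a b * l q z) z a b := by
    rw [TC_sum]
    refine sum_congr rfl fun q hq => ?_
    have h := TC_prod N lo hi (l q) (nu q) z a b
    have h2 : TC N lo hi (fun z a b => nu q a b * l q z) z a b
        = TC N lo hi (fun z a b => l q z * nu q a b) z a b := by
      congr 1
      funext i j k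
      ring
    rw [h2, h, hl' q hq]
    unfold nC kC
    ring
  have e : TC N lo hi (FnG par WP WM J nu l) z a b
      = TC N lo hi WP z a b
        + TC N lo hi (fun z a b => if par a.1 = par b.1 then WM z a b / 2 else 0) z a b
        + TC N lo hi (fun z a b => ∑ q ∈ J, nu q a b * l q z) z a b := by
    rw [← TC_add, ← TC_add]
    congr 1
  rw [e, ← p4]
  unfold FC
  linarith

/-- NODE DATA GIVE THE CERTIFICATE, arbitrary classes, arbitrary label functions -/
theorem certG {n : ℕ} {N : ℕ} {C : Type} {lo hi : C → ℤ} {W : Finset ℤ}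
    (hW : ∀ c, ns lo hi c ⊆ W) {par : C → Bool} {ιJ ιI : Type} {cE : ℝ}
    {J : Finset ιJ} {ℓ : ιJ → C × ℝ → ℝ} {l : ιJ → C × ℤ → ℝ}
    (hl : ∀ q ∈ J, ∀ z, RegC N lo hi z → ℓ q z = kC N lo hi (l q) z)
    {I : Finset ιI} {φ : ιI → C × ℝ → C × ℝ → ℝ} {c : ιI → ℝ} {tau : ιI → C × ℤ → ℝ}
    (htau : ∀ i ∈ I, ∀ s, 0 ≤ tau i s)
    {G : C × ℤ → Bool → ℝ → ℝ} {H : C × ℤ → ℝ → ℝ} {kap : C × ℤ → ℝ}
    {WP WM : C × ℤ → C × ℤ → C × ℤ → ℝ} {nu : ιJ → C × ℤ → C × ℤ → ℝ} {p : ℕ}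
    {sg : Fin p → C × ℤ → C × ℤ → ℝ} {θ : ℝ} (hθ : 0 < θ)
    (hG0 : ∀ s e x, 0 ≤ G s e x) (hGH : ∀ s e x, G s e x ≤ H s x) (hkap : ∀ s, 0 ≤ kap s)
    (hpair : ∀ z : C × ℤ, z.2 ∈ ns lo hi z.1 → ∀ a b, RegC N lo hi a → RegC N lo hi b →
      (if 0 < 2 * b.2 - a.2 ∧ 2 * b.2 - a.2 < 1 then
        G z (par a.1) (2 * b.2 - a.2) + kap z else 0) - cE * kap z + ∑ i ∈ I, tau i z * φ i a b
      ≤ nC N lo hi (WP z) a b)
    (hmid : ∀ z : C × ℤ, z.2 ∈ ns lo hi z.1 → ∀ a b, RegC N lo hi a → RegC N lo hi b →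
      par a.1 = par b.1 → H z ((a.2 + b.2) / 2) ≤ nC N lo hi (WM z) a b)
    (hnu : ∀ q s t, 0 ≤ nu q s t)
    (hsum : ∀ s : C × ℤ, s.2 ∈ ns lo hi s.1 →
      (θ - ∑ q ∈ I, tau q s * c q) * n ≤ ∑ x ∈ Ico (0 : ℤ) n, G s (tp n x).1 (pos n x))
    (hnode : ∀ z a b : C × ℤ, z.2 ∈ ns lo hi z.1 → a.2 ∈ ns lo hi a.1 → b.2 ∈ ns lo hi b.1 →
      sym6 (FnG par WP WM J nu l) z a b + 2 * sq3 univ sg z a b ≤ 6 * θ) :
    CertifiedC n cE par (RegC N lo hi) J ℓ I φ c := by
  set Ix : Finset (Fin p × ℤ) := (univ : Finset (Fin p)) ×ˢ W with hIx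
  refine ⟨gG N lo hi G, hG N lo hi H, kC N lo hi kap, Ix.card,
    fun q => sC N lo hi sg ((Ix.equivFin.symm q : Ix) : Fin p × ℤ),
    fun q => nC N lo hi (nu q),
    fun i => kC N lo hi (tau i),
    θ, θ, fun z e x => sum_nonneg fun _ _ => mul_nonneg (hat_nonneg _ _) (hG0 _ _ _),
    fun z e x => sum_le_sum fun _ _ => mul_le_mul_of_nonneg_left (hGH _ _ _) (hat_nonneg _ _),
    fun z => kC_nonneg _ lo hi hkap z,
    fun q _ a b => nC_nonneg _ lo hi (hnu q) a b,
    fun i hi' z => kC_nonneg _ lo hi (htau i hi') z, hθ, le_rfl,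
    ?_, ?_⟩
  · intro z hz
    have e1 : ∑ x ∈ Ico (0 : ℤ) n, gG N lo hi G z (tp n x).1 (pos n x)
        = ∑ i ∈ ns lo hi z.1, hat i ((N : ℝ) * z.2) * ∑ x ∈ Ico (0 : ℤ) n,
          G (z.1, i) (tp n x).1 (pos n x) := by
      unfold gG
      rw [sum_comm]
      refine sum_congr rfl fun i _ => ?_
      rw [mul_sum]
    have e2 : n * ∑ q ∈ I, kC N lo hi (tau q) z * c q
        = ∑ i ∈ ns lo hi z.1, hat i ((N : ℝ) * z.2)
          * ((∑ q ∈ I, tau q (z.1, i) * c q) * n) := by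
      unfold kC
      have : ∀ q ∈ I, (∑ i ∈ ns lo hi z.1, hat i ((N : ℝ) * z.2) * tau q (z.1, i)) * c q
          = ∑ i ∈ ns lo hi z.1, hat i ((N : ℝ) * z.2) * (tau q (z.1, i) * c q) := by
        intro q _
        rw [sum_mul]
        refine sum_congr rfl fun i _ => ?_
        ring
      rw [sum_congr rfl this, sum_comm, mul_sum]
      refine sum_congr rfl fun i _ => ?_
      rw [← mul_sum]
      ring
    rw [e1, e2, ← sum_add_distrib]
    have h1 : ∑ i ∈ ns lo hi z.1, hat i ((N : ℝ) * z.2) * (θ * n)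
        ≤ ∑ i ∈ ns lo hi z.1, (hat i ((N : ℝ) * z.2) * ∑ x ∈ Ico (0 : ℤ) n,
          G (z.1, i) (tp n x).1 (pos n x)
          + hat i ((N : ℝ) * z.2) * ((∑ q ∈ I, tau q (z.1, i) * c q) * n)) := by
      refine sum_le_sum fun i hi' => ?_
      rw [← mul_add]
      refine mul_le_mul_of_nonneg_left ?_ (hat_nonneg _ _)
      have := hsum (z.1, i) hi'
      linarith
    rw [← sum_mul, hz.one, one_mul] at h1
    exact h1
  · intro a b c ha hb hc
    have h1 : sym6 (FC par (gG N lo hi G) (hG N lo hi H) (kC N lo hi kap) cE J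
          (fun q => nC N lo hi (nu q)) ℓ I (fun i => kC N lo hi (tau i)) φ) a b c
        ≤ sym6 (TC N lo hi (FnG par WP WM J nu l)) a b c := by
      unfold sym6
      have f := fun {z a b : C × ℝ} (hz : RegC N lo hi z) (ha : RegC N lo hi a)
          (hb : RegC N lo hi b) =>
        FG_le (par := par) (nu := nu) (cE := cE) hl hpair hmid hz ha hb
      have i1 := f ha hb hc
      have i2 := f ha hc hb
      have i3 := f hb ha hc
      have i4 := f hb hc ha
      have i5 := f hc ha hb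
      have i6 := f hc hb ha
      linarith
    rw [sym6_TC] at h1
    have e3 : sq3 univ (fun q : Fin Ix.card =>
          sC N lo hi sg ((Ix.equivFin.symm q : Ix) : Fin p × ℤ)) a b c
        = sq3 Ix (sC N lo hi sg) a b c := by
      unfold sq3
      rw [Equiv.sum_comp Ix.equivFin.symm (fun q : Ix =>
          sC N lo hi sg (q : Fin p × ℤ) a b * sC N lo hi sg (q : Fin p × ℤ) a c
          + sC N lo hi sg (q : Fin p × ℤ) b a * sC N lo hi sg (q : Fin p × ℤ) b c
          + sC N lo hi sg (q : Fin p × ℤ) c a * sC N lo hi sg (q : Fin p × ℤ) c b)]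
      exact sum_coe_sort Ix (fun q =>
          sC N lo hi sg q a b * sC N lo hi sg q a c
          + sC N lo hi sg q b a * sC N lo hi sg q b c
          + sC N lo hi sg q c a * sC N lo hi sg q c b)
    rw [e3, hIx, sq3C_eq hW sg a b c]
    have h2 := TC_mono (N := N) (lo := lo) (hi := hi) (f := fun z a b =>
        sym6 (FnG par WP WM J nu l) z a b + 2 * sq3 univ sg z a b)
      (g := fun _ _ _ => 6 * θ) (z := a) (a := b) (b := c)
      (fun i hi' j hj k hk => hnode (a.1, i) (b.1, j) (c.1, k) hi' hj hk)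
    rw [TC_const ha hb hc, TC_add, TC_smul] at h2
    linarith

/-! ### Supplying the pair hypothesis -/

lemma nC_add (N : ℕ) (lo hi : C → ℤ) (f g : C × ℤ → C × ℤ → ℝ) (a b : C × ℝ) :
    nC N lo hi (fun x y => f x y + g x y) a b = nC N lo hi f a b + nC N lo hi g a b := by
  unfold nC
  simp only [← sum_add_distrib]
  refine sum_congr rfl fun j _ => sum_congr rfl fun k _ => ?_
  ring

lemma nC_smul (N : ℕ) (lo hi : C → ℤ) (f : C × ℤ → C × ℤ → ℝ) (r : ℝ) (a b : C × ℝ) :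
    nC N lo hi (fun x y => r * f x y) a b = r * nC N lo hi f a b := by
  unfold nC
  simp only [mul_sum]
  refine sum_congr rfl fun j _ => sum_congr rfl fun k _ => ?_
  ring

lemma nC_sum (N : ℕ) (lo hi : C → ℤ) {ι : Type*} (I : Finset ι) (f : ι → C × ℤ → C × ℤ → ℝ)
    (a b : C × ℝ) :
    nC N lo hi (fun x y => ∑ i ∈ I, f i x y) a b = ∑ i ∈ I, nC N lo hi (f i) a b := by
  classical
  induction I using Finset.induction_on with
  | empty =>
    simp [nC]
  | insert q I hq ih =>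
    simp only [sum_insert hq]
    rw [nC_add, ih]

lemma nC_one {N : ℕ} {lo hi : C → ℤ} {a b : C × ℝ} (ha : RegC N lo hi a) (hb : RegC N lo hi b) :
    nC N lo hi (fun _ _ => 1) a b = 1 := by
  unfold nC
  simp only [mul_one]
  rw [← sum_mul_sum, ha.one, hb.one]
  ring

lemma nC_mono {N : ℕ} {lo hi : C → ℤ} {f g : C × ℤ → C × ℤ → ℝ} {a b : C × ℝ}
    (h : ∀ j ∈ ns lo hi a.1, ∀ k ∈ ns lo hi b.1, f (a.1, j) (b.1, k) ≤ g (a.1, j) (b.1, k)) :
    nC N lo hi f a b ≤ nC N lo hi g a b := by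
  unfold nC
  exact sum_le_sum fun j hj => sum_le_sum fun k hk =>
    mul_le_mul_of_nonneg_left (h j hj k hk) (mul_nonneg (hat_nonneg _ _) (hat_nonneg _ _))

/-- end point labels -/
lemma endOK_nC {lam W : ℤ → ℝ} (h : EndOK lam W) {N : ℕ} {lo hi : C → ℤ} {a b : C × ℝ}
    (ha : RegC N lo hi a) (hb : RegC N lo hi b) :
    pl lam (N * (2 * b.2 - a.2)) ≤ nC N lo hi (fun x y => W (2 * y.2 - x.2)) a b := by
  have k := h _ _ _ _ ha.near hb.near
  have e : (N:ℝ) * (2 * b.2 - a.2) = 2 * (N * b.2) - N * a.2 := by ring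
  rw [e]
  exact k

/-- midpoints -/
lemma midOK_nC {lam W : ℤ → ℝ} (h : MidOK lam W) {N : ℕ} {lo hi : C → ℤ} {a b : C × ℝ}
    (ha : RegC N lo hi a) (hb : RegC N lo hi b) :
    pl lam (N * ((a.2 + b.2) / 2)) ≤ nC N lo hi (fun x y => W (x.2 + y.2)) a b := by
  have k := h _ _ _ _ ha.near hb.near
  have e : (N:ℝ) * ((a.2 + b.2) / 2) = (N * a.2 + N * b.2) / 2 := by ring
  rw [e]
  exact k

end

end MP61673a.Bridge
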