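import Pool.Agent.Mu673.Kink2
import Pool.Agent.Mu673.Bridge

/-!
TYPED BRIDGE: a finite element certificate with classes (for parity: `C = Bool`) gives the
pointwise three point inequality for all real positions and all classes. Points are pairs
(class, position); midpoint labels only for pairs of the same class. Kink rule of `Kink2`.
Node data: prices `lam s y ≥ 0` for the sampler node `s : C × ℤ` and the label node `y`, kink bounds
`D s y`, multiplier `kap s` of the pair count fact with the majorant `inl`, `Din` of the window,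
multipliers `nu J a b` of the linear facts with node values `l J z`, squares with node values
`sg q z a`.
-/

set_option autoImplicit false

namespace MP61673a.Bridge

open Finset MP61673a.Kink MP61673a.Sos
open MP61673a.TP (pos pos_mem)

noncomputable section

variable {C : Type*} [DecidableEq C] {κι ιJ : Type*}

/-- the cost of the ordered pair `(a,b)` for the sampler `z`, typed points -/
def FT (g : C × ℝ → ℝ → ℝ) (κ : C × ℝ → ℝ) (cE : ℝ) (J : Finset ιJ)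
    (ν : ιJ → C × ℝ → C × ℝ → ℝ) (ℓ : ιJ → C × ℝ → ℝ) (z a b : C × ℝ) : ℝ :=
  (if 0 < 2 * b.2 - a.2 ∧ 2 * b.2 - a.2 < 1 then g z (2 * b.2 - a.2) + κ z else 0)
    + (if a.1 = b.1 then g z ((a.2 + b.2) / 2) / 2 else 0)
    - cE * κ z + ∑ j ∈ J, ν j a b * ℓ j z

/-- prices at real positions -/
def gT (N : ℕ) (lam : C × ℤ → ℤ → ℝ) (z : C × ℝ) (x : ℝ) : ℝ :=
  ∑ i ∈ nd N, hat i (N * z.2) * pl (lam (z.1, i)) (N * x)

/-- one variable interpolation -/
def kT (N : ℕ) (kap : C × ℤ → ℝ) (z : C × ℝ) : ℝ := ∑ i ∈ nd N, hat i (N * z.2) * kap (z.1, i)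

/-- two variable interpolation -/
def nT (N : ℕ) (nu : C × ℤ → C × ℤ → ℝ) (a b : C × ℝ) : ℝ :=
  ∑ j ∈ nd N, ∑ k ∈ nd N, hat j (N * a.2) * hat k (N * b.2) * nu (a.1, j) (b.1, k)

/-- squares at real positions, index (square, sampler node) -/
def sT (N : ℕ) (sg : κι → C × ℤ → C × ℤ → ℝ) (q : κι × ℤ) (z b : C × ℝ) : ℝ :=
  Real.sqrt (hat q.2 (N * z.2)) * ∑ j ∈ nd N, hat j (N * b.2) * sg q.1 (z.1, q.2) (b.1, j)

/-- node cost of the ordered pair `(a,b)` of typed nodes for the sampler node `z` -/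
def FnT (lam D : C × ℤ → ℤ → ℝ) (kap : C × ℤ → ℝ) (inl Din : ℤ → ℝ) (cE : ℝ) (J : Finset ιJ)
    (nu : ιJ → C × ℤ → C × ℤ → ℝ) (l : ιJ → C × ℤ → ℝ) (z a b : C × ℤ) : ℝ :=
  eK (lam z) (D z) (2 * b.2 - a.2) + kap z * eK inl Din (2 * b.2 - a.2)
    + (if a.1 = b.1 then mK (lam z) (D z) (a.2 + b.2) / 2 else 0)
    - cE * kap z + ∑ q ∈ J, nu q a b * l q z

/-- typed trilinear interpolation -/
def TT (N : ℕ) (f : C × ℤ → C × ℤ → C × ℤ → ℝ) (z a b : C × ℝ) : ℝ :=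
  T3 N (fun i j k => f (z.1, i) (a.1, j) (b.1, k)) z.2 a.2 b.2

omit [DecidableEq C] in
lemma gT_nonneg (N : ℕ) {lam : C × ℤ → ℤ → ℝ} (h : ∀ s y, 0 ≤ lam s y) (z : C × ℝ) (x : ℝ) :
    0 ≤ gT N lam z x :=
  sum_nonneg fun _ _ => mul_nonneg (hat_nonneg _ _) (pl_nonneg (h _) _)

omit [DecidableEq C] in
lemma kT_nonneg (N : ℕ) {kap : C × ℤ → ℝ} (h : ∀ s, 0 ≤ kap s) (z : C × ℝ) : 0 ≤ kT N kap z :=
  sum_nonneg fun _ _ => mul_nonneg (hat_nonneg _ _) (h _)

omit [DecidableEq C] in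
lemma nT_nonneg (N : ℕ) {nu : C × ℤ → C × ℤ → ℝ} (h : ∀ s t, 0 ≤ nu s t) (a b : C × ℝ) :
    0 ≤ nT N nu a b :=
  sum_nonneg fun _ _ => sum_nonneg fun _ _ =>
    mul_nonneg (mul_nonneg (hat_nonneg _ _) (hat_nonneg _ _)) (h _ _)

lemma one_le_pl {N : ℕ} {inl : ℤ → ℝ} (hin1 : ∀ y : ℤ, 0 ≤ y → y ≤ N → 1 ≤ inl y) {x : ℝ}
    (x0 : 0 ≤ x) (x1 : x ≤ N) : 1 ≤ pl inl x := by
  have f0 : 0 ≤ ⌊x⌋ := Int.floor_nonneg.2 x0
  have f1 : ⌊x⌋ ≤ N := by
    have : (⌊x⌋ : ℝ) ≤ N := (Int.floor_le x).trans x1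
    exact_mod_cast this
  have g0 := hin1 ⌊x⌋ f0 f1
  have s0 := Int.fract_nonneg x
  have s1 := Int.fract_lt_one x
  unfold pl
  rcases eq_or_lt_of_le s0 with e | e
  · rw [← e]
    linarith
  · have f2 : ⌊x⌋ + 1 ≤ N := by
      have : (⌊x⌋ : ℝ) < N := by
        have := Int.floor_add_fract x
        linarith
      have : ⌊x⌋ < (N:ℤ) := by exact_mod_cast this
      omega
    have g1 := hin1 (⌊x⌋ + 1) (by omega) f2
    nlinarith

/-- the pointwise cost is at most the interpolated node cost -/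
lemma FT_le {N : ℕ} {lam D : C × ℤ → ℤ → ℝ} {kap : C × ℤ → ℝ} {inl Din : ℤ → ℝ} {cE : ℝ}
    {J : Finset ιJ} {nu : ιJ → C × ℤ → C × ℤ → ℝ} {l : ιJ → C × ℤ → ℝ}
    (hlam : ∀ s y, 0 ≤ lam s y) (hD : ∀ s, Kinks (lam s) (D s))
    (hkap : ∀ s, 0 ≤ kap s) (hin0 : ∀ y, 0 ≤ inl y)
    (hin1 : ∀ y : ℤ, 0 ≤ y → y ≤ N → 1 ≤ inl y) (hDin : Kinks inl Din)
    {z a b : C × ℝ} (ha : 0 ≤ a.2 ∧ a.2 ≤ 1) (hb : 0 ≤ b.2 ∧ b.2 ≤ 1) :
    FT (gT N lam) (kT N kap) cE J (fun q => nT N (nu q)) (fun q => kT N (l q)) z a b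
      ≤ TT N (FnT lam D kap inl Din cE J nu l) z a b := by
  obtain ⟨ez, z⟩ := z
  obtain ⟨ea, a⟩ := a
  obtain ⟨eb, b⟩ := b
  dsimp only at ha hb
  have na := near_nd (N := N) ha.1 ha.2
  have nb := near_nd (N := N) hb.1 hb.2
  have hu : ∑ j ∈ nd N, ∑ k ∈ nd N, hat j (N * a) * hat k (N * b) = 1 := by
    rw [← sum_mul_sum, sum_hat_one na, sum_hat_one nb]
    ring
  -- end point labels
  have p1 : (if 0 < 2 * b - a ∧ 2 * b - a < 1 then
        gT N lam (ez, z) (2 * b - a) + kT N kap (ez, z) else 0)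
      ≤ T3 N (fun i j k => eK (lam (ez, i)) (D (ez, i)) (2 * k - j)
          + kap (ez, i) * eK inl Din (2 * k - j)) z a b := by
    have q1 : (if 0 < 2 * b - a ∧ 2 * b - a < 1 then
        gT N lam (ez, z) (2 * b - a) + kT N kap (ez, z) else 0)
        ≤ ∑ i ∈ nd N, hat i (N * z) * (pl (lam (ez, i)) (N * (2 * b - a))
          + kap (ez, i) * pl inl (N * (2 * b - a))) := by
      split_ifs with c
      · unfold gT kT
        rw [← sum_add_distrib]
        refine sum_le_sum fun i _ => ?_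
        rw [← mul_add]
        refine mul_le_mul_of_nonneg_left ?_ (hat_nonneg _ _)
        have h1 : 1 ≤ pl inl (N * (2 * b - a)) := by
          have hN : (0:ℝ) ≤ N := by positivity
          exact one_le_pl hin1 (mul_nonneg hN c.1.le) (by nlinarith [c.2])
        have := mul_le_mul_of_nonneg_left h1 (hkap (ez, i))
        linarith
      · refine sum_nonneg fun i _ => mul_nonneg (hat_nonneg _ _) ?_
        exact add_nonneg (pl_nonneg (hlam _) _) (mul_nonneg (hkap _) (pl_nonneg hin0 _))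
    refine q1.trans ?_
    rw [T3_eq]
    refine sum_le_sum fun i _ => mul_le_mul_of_nonneg_left ?_ (hat_nonneg _ _)
    have r1 := pl_le_eK (hD (ez, i)) na nb
    have r2 := pl_le_eK hDin na nb
    rw [show 2 * ((N:ℝ) * b) - N * a = N * (2 * b - a) by ring] at r1 r2
    have r3 := mul_le_mul_of_nonneg_left r2 (hkap (ez, i))
    have e : ∑ j ∈ nd N, ∑ k ∈ nd N, hat j (N * a) * hat k (N * b)
          * (eK (lam (ez, i)) (D (ez, i)) (2 * k - j) + kap (ez, i) * eK inl Din (2 * k - j))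
        = ∑ j ∈ nd N, ∑ k ∈ nd N, hat j (N * a) * hat k (N * b)
            * eK (lam (ez, i)) (D (ez, i)) (2 * k - j)
          + kap (ez, i) * ∑ j ∈ nd N, ∑ k ∈ nd N, hat j (N * a) * hat k (N * b)
            * eK inl Din (2 * k - j) := by
      simp only [mul_sum, ← sum_add_distrib]
      refine sum_congr rfl fun j _ => sum_congr rfl fun k _ => ?_
      ring
    rw [e]
    linarith
  -- midpoints
  have p2 : (if ea = eb then gT N lam (ez, z) ((a + b) / 2) / 2 else 0)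
      ≤ T3 N (fun i j k => if ea = eb then mK (lam (ez, i)) (D (ez, i)) (j + k) / 2 else 0)
        z a b := by
    by_cases hc : ea = eb
    · simp only [if_pos hc]
      rw [T3_eq]
      unfold gT
      rw [sum_div]
      refine sum_le_sum fun i _ => ?_
      rw [mul_div_assoc]
      refine mul_le_mul_of_nonneg_left ?_ (hat_nonneg _ _)
      have r1 := pl_le_mK (hD (ez, i)) na nb
      rw [show ((N:ℝ) * a + N * b) / 2 = N * ((a + b) / 2) by ring] at r1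
      have e : ∑ j ∈ nd N, ∑ k ∈ nd N, hat j (N * a) * hat k (N * b)
            * (mK (lam (ez, i)) (D (ez, i)) (j + k) / 2)
          = (∑ j ∈ nd N, ∑ k ∈ nd N, hat j (N * a) * hat k (N * b)
            * mK (lam (ez, i)) (D (ez, i)) (j + k)) / 2 := by
        simp only [sum_div]
        refine sum_congr rfl fun j _ => sum_congr rfl fun k _ => ?_
        ring
      rw [e]
      linarith
    · simp only [if_neg hc]
      unfold T3
      simp
  -- the constant of the pair count fact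
  have p3 : -(cE * kT N kap (ez, z)) = T3 N (fun i _ _ => -(cE * kap (ez, i))) z a b := by
    have h := T3_prod N (fun i => -(cE * kap (ez, i))) (fun _ _ => 1) z a b
    simp only [mul_one] at h
    rw [h, hu]
    unfold kT
    rw [mul_sum, mul_one, ← sum_neg_distrib]
    refine sum_congr rfl fun i _ => ?_
    ring
  -- linear facts
  have p4 : ∑ q ∈ J, nT N (nu q) (ea, a) (eb, b) * kT N (l q) (ez, z)
      = T3 N (fun i j k => ∑ q ∈ J, nu q (ea, j) (eb, k) * l q (ez, i)) z a b := by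
    rw [T3_sum]
    refine sum_congr rfl fun q _ => ?_
    have h := T3_prod N (fun i => l q (ez, i)) (fun j k => nu q (ea, j) (eb, k)) z a b
    have h2 : T3 N (fun i j k => nu q (ea, j) (eb, k) * l q (ez, i)) z a b
        = T3 N (fun i j k => l q (ez, i) * nu q (ea, j) (eb, k)) z a b := by
      congr 1
      funext i j k
      ring
    rw [h2, h]
    unfold nT kT
    ring
  have e : TT N (FnT lam D kap inl Din cE J nu l) (ez, z) (ea, a) (eb, b)
      = T3 N (fun i j k => eK (lam (ez, i)) (D (ez, i)) (2 * k - j)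
          + kap (ez, i) * eK inl Din (2 * k - j)) z a b
        + T3 N (fun i j k => if ea = eb then mK (lam (ez, i)) (D (ez, i)) (j + k) / 2 else 0)
          z a b
        + T3 N (fun i _ _ => -(cE * kap (ez, i))) z a b
        + T3 N (fun i j k => ∑ q ∈ J, nu q (ea, j) (eb, k) * l q (ez, i)) z a b := by
    rw [← T3_add, ← T3_add, ← T3_add]
    unfold TT
    congr 1
  rw [e, ← p3, ← p4]
  unfold FT
  dsimp only
  linarith

omit [DecidableEq C] in
/-- the squares at real positions are the interpolated node squares -/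
lemma sq3T_eq {N : ℕ} {K : Finset κι} (sg : κι → C × ℤ → C × ℤ → ℝ) (a b c : C × ℝ) :
    sq3 (K ×ˢ nd N) (sT N sg) a b c = TT N (fun z a b => sq3 K sg z a b) a b c := by
  have key : ∀ z x y : C × ℝ, ∑ q ∈ K ×ˢ nd N, sT N sg q z x * sT N sg q z y
      = T3 N (fun i j k => ∑ q ∈ K, sg q (z.1, i) (x.1, j) * sg q (z.1, i) (y.1, k))
        z.2 x.2 y.2 := by
    intro z x y
    rw [sum_product, T3_sum]
    refine sum_congr rfl fun q _ => ?_
    rw [T3_eq]
    refine sum_congr rfl fun i _ => ?_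
    unfold sT
    simp only
    have h1 := Real.mul_self_sqrt (hat_nonneg i (N * z.2))
    have e1 : Real.sqrt (hat i (N * z.2)) * (∑ j ∈ nd N, hat j (N * x.2) * sg q (z.1, i) (x.1, j))
          * (Real.sqrt (hat i (N * z.2)) * ∑ j ∈ nd N, hat j (N * y.2) * sg q (z.1, i) (y.1, j))
        = (Real.sqrt (hat i (N * z.2)) * Real.sqrt (hat i (N * z.2)))
          * ((∑ j ∈ nd N, hat j (N * x.2) * sg q (z.1, i) (x.1, j))
            * ∑ j ∈ nd N, hat j (N * y.2) * sg q (z.1, i) (y.1, j)) := by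
      ring
    rw [e1, h1, sum_mul_sum]
    congr 1
    refine sum_congr rfl fun j _ => sum_congr rfl fun k _ => ?_
    ring
  unfold sq3
  rw [sum_add_distrib, sum_add_distrib, key a b c, key b a c, key c a b]
  have e2 : T3 N (fun i j k => ∑ q ∈ K, sg q (b.1, i) (a.1, j) * sg q (b.1, i) (c.1, k))
        b.2 a.2 c.2
      = T3 N (fun i j k => ∑ q ∈ K, sg q (b.1, j) (a.1, i) * sg q (b.1, j) (c.1, k))
        a.2 b.2 c.2 := T3_swap12 N _ a.2 b.2 c.2
  have e3 : T3 N (fun i j k => ∑ q ∈ K, sg q (c.1, i) (a.1, j) * sg q (c.1, i) (b.1, k))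
        c.2 a.2 b.2
      = T3 N (fun i j k => ∑ q ∈ K, sg q (c.1, k) (a.1, i) * sg q (c.1, k) (b.1, j))
        a.2 b.2 c.2 := by
    rw [T3_swap12 N _ a.2 c.2 b.2, T3_swap23]
  rw [e2, e3, ← T3_add, ← T3_add]
  unfold TT
  congr 1
  funext i j k
  rw [← sum_add_distrib, ← sum_add_distrib]

omit [DecidableEq C] in
lemma sym6_TT (N : ℕ) (f : C × ℤ → C × ℤ → C × ℤ → ℝ) (a b c : C × ℝ) :
    sym6 (TT N f) a b c = TT N (fun z a b => sym6 f z a b) a b c := by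
  unfold sym6 TT
  have e1 : T3 N (fun i j k => f (a.1, i) (c.1, j) (b.1, k)) a.2 c.2 b.2
      = T3 N (fun i j k => f (a.1, i) (c.1, k) (b.1, j)) a.2 b.2 c.2 := T3_swap23 N _ _ _ _
  have e2 : T3 N (fun i j k => f (b.1, i) (a.1, j) (c.1, k)) b.2 a.2 c.2
      = T3 N (fun i j k => f (b.1, j) (a.1, i) (c.1, k)) a.2 b.2 c.2 := T3_swap12 N _ _ _ _
  have e3 : T3 N (fun i j k => f (b.1, i) (c.1, j) (a.1, k)) b.2 c.2 a.2
      = T3 N (fun i j k => f (b.1, j) (c.1, k) (a.1, i)) a.2 b.2 c.2 := by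
    rw [T3_swap23 N _ b.2 a.2 c.2, T3_swap12]
  have e4 : T3 N (fun i j k => f (c.1, i) (a.1, j) (b.1, k)) c.2 a.2 b.2
      = T3 N (fun i j k => f (c.1, k) (a.1, i) (b.1, j)) a.2 b.2 c.2 := by
    rw [T3_swap12 N _ a.2 c.2 b.2, T3_swap23]
  have e5 : T3 N (fun i j k => f (c.1, i) (b.1, j) (a.1, k)) c.2 b.2 a.2
      = T3 N (fun i j k => f (c.1, k) (b.1, j) (a.1, i)) a.2 b.2 c.2 := by
    rw [T3_swap23 N _ c.2 a.2 b.2, T3_swap12 N _ a.2 c.2 b.2, T3_swap23]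
  rw [e1, e2, e3, e4, e5, T3_add, T3_add, T3_add, T3_add, T3_add]

/-- (h3T) THE TYPED POINTWISE THREE POINT INEQUALITY FROM THE NODE INEQUALITIES -/
theorem bridgeT {N : ℕ} {lam D : C × ℤ → ℤ → ℝ} {kap : C × ℤ → ℝ} {inl Din : ℤ → ℝ} {cE : ℝ}
    {J : Finset ιJ} {nu : ιJ → C × ℤ → C × ℤ → ℝ} {l : ιJ → C × ℤ → ℝ} {K : Finset κι}
    {sg : κι → C × ℤ → C × ℤ → ℝ} {θ : ℝ}
    (hlam : ∀ s y, 0 ≤ lam s y) (hD : ∀ s, Kinks (lam s) (D s))
    (hkap : ∀ s, 0 ≤ kap s) (hin0 : ∀ y, 0 ≤ inl y)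
    (hin1 : ∀ y : ℤ, 0 ≤ y → y ≤ N → 1 ≤ inl y) (hDin : Kinks inl Din)
    (hnode : ∀ z a b : C × ℤ, z.2 ∈ nd N → a.2 ∈ nd N → b.2 ∈ nd N →
      sym6 (FnT lam D kap inl Din cE J nu l) z a b + 2 * sq3 K sg z a b ≤ 6 * θ)
    {a b c : C × ℝ} (ha : 0 < a.2 ∧ a.2 < 1) (hb : 0 < b.2 ∧ b.2 < 1) (hc : 0 < c.2 ∧ c.2 < 1) :
    sym6 (FT (gT N lam) (kT N kap) cE J (fun q => nT N (nu q)) (fun q => kT N (l q))) a b c
      + 2 * sq3 (K ×ˢ nd N) (sT N sg) a b c ≤ 6 * θ := by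
  have ha' : 0 ≤ a.2 ∧ a.2 ≤ 1 := ⟨ha.1.le, ha.2.le⟩
  have hb' : 0 ≤ b.2 ∧ b.2 ≤ 1 := ⟨hb.1.le, hb.2.le⟩
  have hc' : 0 ≤ c.2 ∧ c.2 ≤ 1 := ⟨hc.1.le, hc.2.le⟩
  have h1 : sym6 (FT (gT N lam) (kT N kap) cE J (fun q => nT N (nu q))
      (fun q => kT N (l q))) a b c ≤ sym6 (TT N (FnT lam D kap inl Din cE J nu l)) a b c := by
    unfold sym6
    have f : ∀ z a b : C × ℝ, (0 ≤ a.2 ∧ a.2 ≤ 1) → (0 ≤ b.2 ∧ b.2 ≤ 1) → _ :=
      fun z a b ha hb => @FT_le C _ ιJ N lam D kap inl Din cE J nu l hlam hD hkap hin0 hin1 hDin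
        z a b ha hb
    have i1 := f a b c hb' hc'
    have i2 := f a c b hc' hb'
    have i3 := f b a c ha' hc'
    have i4 := f b c a hc' ha'
    have i5 := f c a b ha' hb'
    have i6 := f c b a hb' ha'
    linarith
  rw [sym6_TT] at h1
  rw [sq3T_eq sg a b c]
  have h2 := T3_mono (N := N) (f := fun i j k =>
      sym6 (FnT lam D kap inl Din cE J nu l) (a.1, i) (b.1, j) (c.1, k)
        + 2 * sq3 K sg (a.1, i) (b.1, j) (c.1, k)) (g := fun _ _ _ => 6 * θ)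
    (fun i hi j hj k hk => hnode (a.1, i) (b.1, j) (c.1, k) hi hj hk) a.2 b.2 c.2
  rw [T3_const ha' hb' hc', T3_add, T3_smul] at h2
  unfold TT at h1 ⊢
  linarith

omit [DecidableEq C] in
/-- (normalisation) from the sampler nodes to all samplers -/
lemma gT_sum {n N : ℕ} {lam : C × ℤ → ℤ → ℝ} {G : ℝ}
    (h : ∀ e, ∀ i ∈ nd N, G ≤ ∑ x ∈ Ico (0 : ℤ) n, pl (lam (e, i)) (N * pos n x))
    (z : C × ℝ) (hz : 0 ≤ z.2 ∧ z.2 ≤ 1) :
    G ≤ ∑ x ∈ Ico (0 : ℤ) n, gT N lam z (pos n x) := by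
  unfold gT
  rw [sum_comm]
  have h1 : ∑ i ∈ nd N, hat i (N * z.2) * G
      ≤ ∑ i ∈ nd N, ∑ x ∈ Ico (0 : ℤ) n, hat i (N * z.2) * pl (lam (z.1, i)) (N * pos n x) := by
    refine sum_le_sum fun i hi => ?_
    rw [← mul_sum]
    exact mul_le_mul_of_nonneg_left (h z.1 i hi) (hat_nonneg _ _)
  rw [← sum_mul, sum_hat_one (near_nd hz.1 hz.2), one_mul] at h1
  exact h1

end

end MP61673a.Bridge
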