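import Pool.Agent.Mu673.Fin

set_option autoImplicit false

/-!
Row CE: the pair count fact. For a maximal 3-free `A` in `{1..n}` with `|A|^2 < n` at least `13/18`
of the ordered pairs `(a,b)` of elements have `2b-a` in `{1..n}`; the same for the lifted sets, and
in the frame: useless pairs are at most `5/18` of all pairs (up to a constant).
-/

namespace MP61673a.CE

open MP61673a.Lift (ThreeFree IsMaximalThreeFree)

/-- the elements of `A` in the interval `(a/2, (a + n)/2]`; it has length `n/2` and, for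
`a ∈ {1, …, n}`, contains `a`. -/
def window (n : ℕ) (A : Finset ℕ) (a : ℕ) : Finset ℕ :=
  A.filter (fun b => a < 2 * b ∧ 2 * b ≤ a + n)

/-- the sum of the sizes of the windows of the elements `a` of `A` of parity `r`; it is the number
of pairs `(a, b)` of elements of `A` with `a ≡ r mod 2` and `1 ≤ 2 b - a ≤ n`. -/
def windowSum (n : ℕ) (A : Finset ℕ) (r : ℕ) : ℕ :=
  ∑ a ∈ A.filter (fun x => x % 2 = r), (window n A a).card

/-- a non-element is the far end or the midpoint of a pair of `A`. -/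
lemma cover {n : ℕ} {A : Finset ℕ} (h : IsMaximalThreeFree n A) {x : ℕ}
    (hx : x ∈ Finset.Icc 1 n) (hxA : x ∉ A) :
    (∃ a ∈ A, ∃ b ∈ A, x + a = 2 * b) ∨ (∃ a ∈ A, ∃ b ∈ A, a < b ∧ a + b = 2 * x) := by
  obtain ⟨_, hfree, hmax⟩ := h
  have := hmax x hx hxA
  unfold ThreeFree at this
  push Not at this
  obtain ⟨a, ha, b, hb, c, hc, hab, hbc, habc⟩ := this
  rw [Finset.mem_insert] at ha hb hc
  rcases ha with rfl | ha
  · rcases hb with rfl | hb
    · omega
    · rcases hc with rfl | hc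
      · omega
      · exact Or.inl ⟨c, hc, b, hb, habc⟩
  · rcases hb with rfl | hb
    · rcases hc with rfl | hc
      · omega
      · exact Or.inr ⟨a, ha, c, hc, by omega, habc⟩
    · rcases hc with rfl | hc
      · exact Or.inl ⟨a, ha, b, hb, by omega⟩
      · exact absurd habc (hfree a ha b hb c hc hab hbc)

/-- number of pairs `a < b` in `B` -/
lemma two_mul_lt_pairs (B : Finset ℕ) :
    2 * ((B ×ˢ B).filter fun p => p.1 < p.2).card + B.card = B.card * B.card := by
  classical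
  have hsplit : (B ×ˢ B) = ((B ×ˢ B).filter fun p => p.1 < p.2) ∪
      (((B ×ˢ B).filter fun p => p.2 < p.1) ∪ ((B ×ˢ B).filter fun p => p.1 = p.2)) := by
    ext p
    simp only [Finset.mem_union, Finset.mem_filter]
    constructor
    · intro hp
      rcases lt_trichotomy p.1 p.2 with h | h | h
      · exact Or.inl ⟨hp, h⟩
      · exact Or.inr (Or.inr ⟨hp, h⟩)
      · exact Or.inr (Or.inl ⟨hp, h⟩)
    · rintro (h | h | h) <;> exact h.1
  have h1 : ((B ×ˢ B).filter fun p => p.2 < p.1).card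
      = ((B ×ˢ B).filter fun p => p.1 < p.2).card := by
    apply Finset.card_bij (fun p _ => (p.2, p.1))
    · intro p hp
      simp only [Finset.mem_filter, Finset.mem_product] at hp ⊢
      exact ⟨⟨hp.1.2, hp.1.1⟩, hp.2⟩
    · intro p _ q _ hpq
      simp only [Prod.mk.injEq] at hpq
      exact Prod.ext hpq.2 hpq.1
    · intro p hp
      simp only [Finset.mem_filter, Finset.mem_product] at hp
      refine ⟨(p.2, p.1), ?_, rfl⟩
      simp only [Finset.mem_filter, Finset.mem_product]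
      exact ⟨⟨hp.1.2, hp.1.1⟩, hp.2⟩
  have h2 : ((B ×ˢ B).filter fun p => p.1 = p.2).card = B.card := by
    symm
    apply Finset.card_bij (fun a _ => (a, a))
    · intro a ha
      simp only [Finset.mem_filter, Finset.mem_product]
      exact ⟨⟨ha, ha⟩, trivial⟩
    · intro a _ b _ hab
      simpa using hab
    · intro p hp
      simp only [Finset.mem_filter, Finset.mem_product] at hp
      exact ⟨p.1, hp.1.1, Prod.ext rfl hp.2⟩
  have hcard := congrArg Finset.card hsplit
  rw [Finset.card_union_of_disjoint, Finset.card_union_of_disjoint, h1, h2,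
    Finset.card_product] at hcard
  · omega
  · rw [Finset.disjoint_left]
    intro p hp hq
    simp only [Finset.mem_filter] at hp hq
    omega
  · rw [Finset.disjoint_left]
    intro p hp hq
    simp only [Finset.mem_union, Finset.mem_filter] at hp hq
    omega

/-- pairs `a < b` with one entry in `X` and the other in `Y`. -/
lemma cross_pairs (B X Y : Finset ℕ) (P : ℕ × ℕ → Prop) [DecidablePred P]
    (h : ∀ p ∈ (B ×ˢ B).filter (fun p => p.1 < p.2), P p →
      (p.1 ∈ X ∧ p.2 ∈ Y) ∨ (p.2 ∈ X ∧ p.1 ∈ Y)) (hXY : Disjoint X Y) :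
    (((B ×ˢ B).filter (fun p => p.1 < p.2)).filter P).card ≤ X.card * Y.card := by
  classical
  rw [← Finset.card_product]
  apply Finset.card_le_card_of_injOn (fun p => if p.1 ∈ X then p else (p.2, p.1))
  · intro p hp
    rw [Finset.mem_coe, Finset.mem_filter] at hp
    have := h p hp.1 hp.2
    rw [Finset.mem_coe, Finset.mem_product]
    dsimp only
    split_ifs with hX
    · rcases this with h1 | h1
      · exact h1
      · exact absurd h1.2 (Finset.disjoint_left.mp hXY hX)
    · rcases this with h1 | h1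
      · exact absurd h1.1 hX
      · exact h1
  · intro p hp q hq hpq
    rw [Finset.mem_coe, Finset.mem_filter, Finset.mem_filter] at hp hq
    have hp' := hp.1.2
    have hq' := hq.1.2
    dsimp only at hpq
    split_ifs at hpq
    · exact hpq
    · rw [hpq] at hp'
      dsimp only at hp'
      omega
    · rw [← hpq] at hq'
      dsimp only at hq'
      omega
    · simp only [Prod.mk.injEq] at hpq
      exact Prod.ext hpq.2 hpq.1


/-- the elements of `[n]` of parity `r` are covered. -/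
lemma parity_count {n : ℕ} {A : Finset ℕ} (h : IsMaximalThreeFree n A) (r : ℕ) :
    ((Finset.Icc 1 n).filter (fun x => x % 2 = r)).card ≤ windowSum n A r +
      (((A ×ˢ A).filter (fun p => p.1 < p.2)).filter
        (fun p => (p.1 + p.2) % 2 = 0 ∧ (p.1 + p.2) / 2 % 2 = r)).card := by
  classical
  have hsig : windowSum n A r =
      ((A.filter (fun x => x % 2 = r)).sigma (fun a => window n A a)).card := by
    rw [Finset.card_sigma]
    rfl
  rw [hsig]
  refine le_trans (Finset.card_le_card (t :=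
    ((A.filter (fun x => x % 2 = r)).sigma (fun a => window n A a)).image
        (fun p => 2 * p.2 - p.1) ∪
    (((A ×ˢ A).filter (fun p => p.1 < p.2)).filter
        (fun p => (p.1 + p.2) % 2 = 0 ∧ (p.1 + p.2) / 2 % 2 = r)).image
        (fun p => (p.1 + p.2) / 2)) ?_)
    (le_trans (Finset.card_union_le _ _) (Nat.add_le_add Finset.card_image_le
      Finset.card_image_le))
  intro x hx
  rw [Finset.mem_filter] at hx
  obtain ⟨hx, hr⟩ := hx
  have hx1 := Finset.mem_Icc.mp hx
  rw [Finset.mem_union]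
  by_cases hxA : x ∈ A
  · refine Or.inl (Finset.mem_image.mpr ⟨⟨x, x⟩, ?_, ?_⟩)
    · rw [Finset.mem_sigma, window, Finset.mem_filter, Finset.mem_filter]
      refine ⟨⟨hxA, hr⟩, hxA, ?_, ?_⟩
      · dsimp only; omega
      · dsimp only; omega
    · dsimp only; omega
  · rcases cover h hx hxA with ⟨a, ha, b, hb, hab⟩ | ⟨a, ha, b, hb, hlt, hab⟩
    · have hpar : a % 2 = r := by omega
      refine Or.inl (Finset.mem_image.mpr ⟨⟨a, b⟩, ?_, ?_⟩)
      · rw [Finset.mem_sigma, window, Finset.mem_filter, Finset.mem_filter]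
        refine ⟨⟨ha, hpar⟩, hb, ?_, ?_⟩
        · dsimp only; omega
        · dsimp only; omega
      · dsimp only; omega
    · refine Or.inr (Finset.mem_image.mpr ⟨(a, b), ?_, ?_⟩)
      · rw [Finset.mem_filter, Finset.mem_filter, Finset.mem_product]
        refine ⟨⟨⟨ha, hb⟩, hlt⟩, ?_, ?_⟩
        · dsimp only; omega
        · dsimp only
          have : (a + b) / 2 = x := by omega
          rw [this]; exact hr
      · dsimp only; omega

lemma card_parity (n : ℕ) :
    ((Finset.Icc 1 n).filter (fun x => x % 2 = 0)).card = n / 2 ∧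
    ((Finset.Icc 1 n).filter (fun x => x % 2 = 1)).card = (n + 1) / 2 := by
  induction n with
  | zero => decide
  | succ n ih =>
    have hins : Finset.Icc 1 (n + 1) = insert (n + 1) (Finset.Icc 1 n) := by
      ext x
      simp only [Finset.mem_insert, Finset.mem_Icc]
      omega
    rw [hins, Finset.filter_insert, Finset.filter_insert]
    have hn0 : n + 1 ∉ (Finset.Icc 1 n).filter (fun x => x % 2 = 0) := by simp
    have hn1 : n + 1 ∉ (Finset.Icc 1 n).filter (fun x => x % 2 = 1) := by simp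
    rcases Nat.mod_two_eq_zero_or_one (n + 1) with h | h
    · rw [if_pos h, if_neg (by omega), Finset.card_insert_of_notMem hn0, ih.1, ih.2]
      omega
    · rw [if_neg (by omega), if_pos h, Finset.card_insert_of_notMem hn1, ih.1, ih.2]
      omega

/-- The combinatorial inequalities. `e`, `o` are the numbers of even and odd elements. -/
lemma ineqs {n : ℕ} {A : Finset ℕ} (h : IsMaximalThreeFree n A) :
    ∃ e o e0 e2 o1 o3 : ℕ, e + o = A.card ∧ (A.filter (fun x => x % 2 = 0)).card = e ∧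
      (A.filter (fun x => x % 2 = 1)).card = o ∧ e0 + e2 = e ∧ o1 + o3 = o ∧
      2 * n + (e + o) ≤ 2 * (windowSum n A 0 + windowSum n A 1) + e * e + o * o ∧
      n + o ≤ 2 * windowSum n A 1 + 2 * (e0 * e2) + o * o ∧
      n + e ≤ 2 * windowSum n A 0 + 2 * (o1 * o3) + e * e + 1 := by
  classical
  set Ae := A.filter (fun x => x % 2 = 0) with hAe
  set Ao := A.filter (fun x => x % 2 = 1) with hAo
  set A0 := A.filter (fun x => x % 4 = 0) with hA0
  set A2 := A.filter (fun x => x % 4 = 2) with hA2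
  set A1 := A.filter (fun x => x % 4 = 1) with hA1
  set A3 := A.filter (fun x => x % 4 = 3) with hA3
  have heo : Ae.card + Ao.card = A.card := by
    rw [← Finset.card_union_of_disjoint]
    · congr 1
      ext x
      simp only [hAe, hAo, Finset.mem_union, Finset.mem_filter]
      rcases Nat.mod_two_eq_zero_or_one x with hx | hx
      · simp [hx]
      · simp [hx]
    · rw [Finset.disjoint_left]
      intro x hx hx'
      simp only [hAe, hAo, Finset.mem_filter] at hx hx'
      omega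
  have he : A0.card + A2.card = Ae.card := by
    rw [← Finset.card_union_of_disjoint]
    · congr 1
      ext x
      simp only [hAe, hA0, hA2, Finset.mem_union, Finset.mem_filter]
      constructor
      · rintro (⟨hx, h4⟩ | ⟨hx, h4⟩)
        · exact ⟨hx, by omega⟩
        · exact ⟨hx, by omega⟩
      · rintro ⟨hx, h2⟩
        rcases (by omega : x % 4 = 0 ∨ x % 4 = 2) with h4 | h4
        · exact Or.inl ⟨hx, h4⟩
        · exact Or.inr ⟨hx, h4⟩
    · rw [Finset.disjoint_left]
      intro x hx hx'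
      simp only [hA0, hA2, Finset.mem_filter] at hx hx'
      omega
  have ho : A1.card + A3.card = Ao.card := by
    rw [← Finset.card_union_of_disjoint]
    · congr 1
      ext x
      simp only [hAo, hA1, hA3, Finset.mem_union, Finset.mem_filter]
      constructor
      · rintro (⟨hx, h4⟩ | ⟨hx, h4⟩)
        · exact ⟨hx, by omega⟩
        · exact ⟨hx, by omega⟩
      · rintro ⟨hx, h2⟩
        rcases (by omega : x % 4 = 1 ∨ x % 4 = 3) with h4 | h4
        · exact Or.inl ⟨hx, h4⟩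
        · exact Or.inr ⟨hx, h4⟩
    · rw [Finset.disjoint_left]
      intro x hx hx'
      simp only [hA1, hA3, Finset.mem_filter] at hx hx'
      omega
  -- the pairs
  set P := (A ×ˢ A).filter (fun p => p.1 < p.2) with hP
  set M0 := P.filter (fun p => (p.1 + p.2) % 2 = 0 ∧ (p.1 + p.2) / 2 % 2 = 0) with hM0
  set M1 := P.filter (fun p => (p.1 + p.2) % 2 = 0 ∧ (p.1 + p.2) / 2 % 2 = 1) with hM1
  set Qe := (Ae ×ˢ Ae).filter (fun p => p.1 < p.2) with hQe
  set Qo := (Ao ×ˢ Ao).filter (fun p => p.1 < p.2) with hQo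
  have hQe2 := two_mul_lt_pairs Ae
  have hQo2 := two_mul_lt_pairs Ao
  rw [← hQe] at hQe2
  rw [← hQo] at hQo2
  have hM01 : M0.card + M1.card ≤ Qe.card + Qo.card := by
    rw [← Finset.card_union_of_disjoint]
    · refine le_trans (Finset.card_le_card (t := Qe ∪ Qo) ?_) (Finset.card_union_le _ _)
      intro p hp
      have hp' : (p.1 ∈ A ∧ p.2 ∈ A) ∧ p.1 < p.2 ∧ (p.1 + p.2) % 2 = 0 := by
        rcases Finset.mem_union.mp hp with hp | hp
        · simp only [hM0, hP, Finset.mem_filter, Finset.mem_product] at hp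
          exact ⟨hp.1.1, hp.1.2, hp.2.1⟩
        · simp only [hM1, hP, Finset.mem_filter, Finset.mem_product] at hp
          exact ⟨hp.1.1, hp.1.2, hp.2.1⟩
      simp only [hQe, hQo, hAe, hAo, Finset.mem_union, Finset.mem_filter, Finset.mem_product]
      rcases Nat.mod_two_eq_zero_or_one p.1 with h1 | h1
      · exact Or.inl ⟨⟨⟨hp'.1.1, h1⟩, hp'.1.2, by omega⟩, hp'.2.1⟩
      · exact Or.inr ⟨⟨⟨hp'.1.1, h1⟩, hp'.1.2, by omega⟩, hp'.2.1⟩
    · rw [Finset.disjoint_left]
      intro p hp hp'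
      simp only [hM0, hM1, Finset.mem_filter] at hp hp'
      omega
  have hM1b : M1.card ≤ A0.card * A2.card + Qo.card := by
    have hsub : M1 ⊆ (P.filter (fun p => p.1 % 2 = 0 ∧ (p.1 + p.2) % 4 = 2)) ∪ Qo := by
      intro p hp
      simp only [hM1, hP, hQo, hAo, Finset.mem_union, Finset.mem_filter,
        Finset.mem_product] at hp ⊢
      rcases Nat.mod_two_eq_zero_or_one p.1 with h1 | h1
      · exact Or.inl ⟨hp.1, h1, by omega⟩
      · exact Or.inr ⟨⟨⟨hp.1.1.1, h1⟩, hp.1.1.2, by omega⟩, hp.1.2⟩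
    refine le_trans (Finset.card_le_card hsub) (le_trans (Finset.card_union_le _ _)
      (Nat.add_le_add_right (cross_pairs A A0 A2 _ ?_ ?_) _))
    · intro p hp hp2
      simp only [Finset.mem_filter, Finset.mem_product] at hp
      simp only [hA0, hA2, Finset.mem_filter]
      rcases (by omega : p.1 % 4 = 0 ∨ p.1 % 4 = 2) with h4 | h4
      · exact Or.inl ⟨⟨hp.1.1, h4⟩, hp.1.2, by omega⟩
      · exact Or.inr ⟨⟨hp.1.2, by omega⟩, hp.1.1, h4⟩
    · rw [Finset.disjoint_left]
      intro x hx hx'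
      simp only [hA0, hA2, Finset.mem_filter] at hx hx'
      omega
  have hM0b : M0.card ≤ A1.card * A3.card + Qe.card := by
    have hsub : M0 ⊆ (P.filter (fun p => p.1 % 2 = 1 ∧ (p.1 + p.2) % 4 = 0)) ∪ Qe := by
      intro p hp
      simp only [hM0, hP, hQe, hAe, Finset.mem_union, Finset.mem_filter,
        Finset.mem_product] at hp ⊢
      rcases Nat.mod_two_eq_zero_or_one p.1 with h1 | h1
      · exact Or.inr ⟨⟨⟨hp.1.1.1, h1⟩, hp.1.1.2, by omega⟩, hp.1.2⟩
      · exact Or.inl ⟨hp.1, h1, by omega⟩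
    refine le_trans (Finset.card_le_card hsub) (le_trans (Finset.card_union_le _ _)
      (Nat.add_le_add_right (cross_pairs A A1 A3 _ ?_ ?_) _))
    · intro p hp hp2
      simp only [Finset.mem_filter, Finset.mem_product] at hp
      simp only [hA1, hA3, Finset.mem_filter]
      rcases (by omega : p.1 % 4 = 1 ∨ p.1 % 4 = 3) with h4 | h4
      · exact Or.inl ⟨⟨hp.1.1, h4⟩, hp.1.2, by omega⟩
      · exact Or.inr ⟨⟨hp.1.2, by omega⟩, hp.1.1, h4⟩
    · rw [Finset.disjoint_left]
      intro x hx hx'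
      simp only [hA1, hA3, Finset.mem_filter] at hx hx'
      omega
  have hc0 := parity_count h 0
  have hc1 := parity_count h 1
  rw [(card_parity n).1, ← hP, ← hM0] at hc0
  rw [(card_parity n).2, ← hP, ← hM1] at hc1
  refine ⟨Ae.card, Ao.card, A0.card, A2.card, A1.card, A3.card, heo, rfl, rfl, he, ho,
    ?_, ?_, ?_⟩
  · have h1 : n ≤ (windowSum n A 0 + windowSum n A 1) + (Qe.card + Qo.card) := by
      have : n / 2 + (n + 1) / 2 = n := by omega
      omega
    nlinarith
  · have h1 : n ≤ 2 * ((n + 1) / 2) := by omega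
    nlinarith
  · have h1 : n ≤ 2 * (n / 2) + 1 := by omega
    nlinarith

/-- a bound for all windows bounds the sums. -/
lemma windowSum_le {n : ℕ} {m : ℝ} {A : Finset ℕ}
    (hm : ∀ a ∈ A, ((window n A a).card : ℝ) ≤ m) (r : ℕ) :
    (windowSum n A r : ℝ) ≤ m * (A.filter (fun x => x % 2 = r)).card := by
  unfold windowSum
  push_cast
  calc ∑ a ∈ A.filter (fun x => x % 2 = r), ((window n A a).card : ℝ)
      ≤ ∑ _a ∈ A.filter (fun x => x % 2 = r), m :=
        Finset.sum_le_sum fun a ha => hm a (Finset.mem_filter.mp ha).1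
    _ = m * (A.filter (fun x => x % 2 = r)).card := by
        rw [Finset.sum_const, nsmul_eq_mul, mul_comm]


/-- CE, natural numbers: at least `13/18` of the pairs have `2b-a` in the window -/
theorem ce_nat {n : ℕ} {A : Finset ℕ} (h : IsMaximalThreeFree n A) (hlt : A.card ^ 2 < n) :
    13 * A.card ^ 2 ≤ 18 * (windowSum n A 0 + windowSum n A 1) := by
  obtain ⟨e, o, e0, e2, o1, o3, hk, hee, hoo, he, ho, h1, h2, h3⟩ := ineqs h
  have m0 := windowSum_le (n := n) (m := (A.card : ℝ)) (A := A)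
    (fun a _ => by exact_mod_cast Finset.card_filter_le _ _) 0
  have m1 := windowSum_le (n := n) (m := (A.card : ℝ)) (A := A)
    (fun a _ => by exact_mod_cast Finset.card_filter_le _ _) 1
  rw [hee] at m0
  rw [hoo] at m1
  rw [← hk] at m0 m1 hlt ⊢
  set S0 := windowSum n A 0
  set S1 := windowSum n A 1
  have h1' : (2 * n + (e + o) : ℝ) ≤ 2 * (S0 + S1) + e * e + o * o := by exact_mod_cast h1
  have h2' : (n + o : ℝ) ≤ 2 * S1 + 2 * (e0 * e2) + o * o := by exact_mod_cast h2
  have h3' : (n + e : ℝ) ≤ 2 * S0 + 2 * (o1 * o3) + e * e + 1 := by exact_mod_cast h3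
  have hlt' : ((e + o : ℝ)) ^ 2 + 1 ≤ n := by exact_mod_cast hlt
  have he' : (e0 + e2 : ℝ) = e := by exact_mod_cast he
  have ho' : (o1 + o3 : ℝ) = o := by exact_mod_cast ho
  have p1 : (e0 * e2 : ℝ) ≤ e ^ 2 / 4 := by rw [← he']; nlinarith [sq_nonneg ((e0 : ℝ) - e2)]
  have p2 : (o1 * o3 : ℝ) ≤ o ^ 2 / 4 := by rw [← ho']; nlinarith [sq_nonneg ((o1 : ℝ) - o3)]
  have e0' : (0 : ℝ) ≤ e := Nat.cast_nonneg e
  have o0' : (0 : ℝ) ≤ o := Nat.cast_nonneg o
  push_cast at m0 m1
  have q1 : (e : ℝ) ^ 2 ≤ (2 * o) ^ 2 := by nlinarith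
  have q2 : (o : ℝ) ^ 2 ≤ (2 * e) ^ 2 := by nlinarith
  have r1 : (e : ℝ) ≤ 2 * o := by
    exact le_trans (le_abs_self _) (abs_le_of_sq_le_sq q1 (by linarith))
  have r2 : (o : ℝ) ≤ 2 * e := by
    exact le_trans (le_abs_self _) (abs_le_of_sq_le_sq q2 (by linarith))
  have r3 : 0 ≤ (2 * (o : ℝ) - e) * (2 * e - o) := mul_nonneg (by linarith) (by linarith)
  have fin : (13 * (e + o) ^ 2 : ℝ) ≤ 18 * (S0 + S1) := by nlinarith
  exact_mod_cast fin

open Finset MP61673a.W MP61673a.LiftW MP61673a.Fin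
open MP61673a.Lift hiding PP QQ

noncomputable section

/-- swap of the sums -/
lemma sum_lab (B : Finset ℤ) (N : ℤ) :
    ∑ y ∈ Ico 0 N, lab B y
      = ∑ i ∈ B, ∑ j ∈ B, if 0 ≤ 2 * j - i ∧ 2 * j - i < N then (1 : ℝ) else 0 := by
  unfold lab
  rw [sum_comm]
  refine sum_congr rfl fun i _ => ?_
  rw [sum_comm]
  refine sum_congr rfl fun j _ => ?_
  rw [sum_ite_eq]
  simp only [mem_Ico]

/-- CE for the translate of `A` -/
theorem ce_lab {n : ℕ} {A : Finset ℕ} (h : IsMaximalThreeFree n A) (hlt : A.card ^ 2 < n) :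
    13 / 18 * (A.card : ℝ) ^ 2 ≤ ∑ y ∈ Ico (0 : ℤ) n, lab (shift A) y := by
  have h1 := ce_nat h hlt
  have h2 : ((windowSum n A 0 + windowSum n A 1 : ℕ) : ℝ)
      = ∑ y ∈ Ico (0 : ℤ) n, lab (shift A) y := by
    rw [sum_lab]
    have hinj : ∀ x ∈ A, ∀ y ∈ A, (x : ℤ) - 1 = (y : ℤ) - 1 → x = y := by
      intro x _ y _ hxy
      omega
    unfold shift
    rw [sum_image (fun x hx y hy hxy => hinj x hx y hy hxy)]
    have h3 : windowSum n A 0 + windowSum n A 1 = ∑ a ∈ A, (window n A a).card := by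
      unfold windowSum
      rw [← sum_filter_add_sum_filter_not A (fun x => x % 2 = 0)]
      congr 1
      refine sum_congr ?_ fun _ _ => rfl
      ext x
      simp only [mem_filter]
      constructor <;> rintro ⟨hx, hx2⟩ <;> exact ⟨hx, by omega⟩
    rw [h3]
    push_cast
    refine sum_congr rfl fun a _ => ?_
    rw [sum_image (fun x hx y hy hxy => hinj x hx y hy hxy)]
    unfold window
    rw [card_filter]
    push_cast
    refine sum_congr rfl fun b _ => ?_
    by_cases c : a < 2 * b ∧ 2 * b ≤ a + n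
    · rw [if_pos c, if_pos ⟨by omega, by omega⟩]
    · rw [if_neg c, if_neg (by omega)]
  rw [← h2]
  have h4 : (13 * A.card ^ 2 : ℝ) ≤ 18 * ((windowSum n A 0 + windowSum n A 1 : ℕ) : ℝ) := by
    exact_mod_cast h1
  linarith

/-- blocks -/
lemma sum_blocks (t : ℕ) (m : ℕ) (f : ℤ → ℝ) :
    ∑ y ∈ Ico (0 : ℤ) (4 ^ t * m), f (y / 4 ^ t) = 4 ^ t * ∑ x ∈ Ico (0 : ℤ) m, f x := by
  have hpos : (0:ℤ) < 4 ^ t := by positivity
  induction m with
  | zero => simp
  | succ m ih =>
    have e1 : Ico (0:ℤ) (4 ^ t * ((m + 1 : ℕ) : ℤ))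
        = Ico 0 (4 ^ t * (m : ℤ)) ∪ Ico (4 ^ t * (m : ℤ)) (4 ^ t * (m : ℤ) + 4 ^ t) := by
      rw [Ico_union_Ico_eq_Ico (by positivity) (by linarith),
        show (4:ℤ) ^ t * ((m + 1 : ℕ) : ℤ) = 4 ^ t * (m : ℤ) + 4 ^ t by push_cast; ring]
    have e2 : Ico (0:ℤ) ((m + 1 : ℕ) : ℤ) = insert (m : ℤ) (Ico 0 (m : ℤ)) := by
      ext x
      simp only [mem_insert, mem_Ico]
      push_cast
      omega
    rw [e1, sum_union (Ico_disjoint_Ico_consecutive _ _ _), ih, e2,
      sum_insert (by simp)]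
    have e3 : ∀ y ∈ Ico (4 ^ t * (m : ℤ)) (4 ^ t * (m : ℤ) + 4 ^ t), f (y / 4 ^ t) = f m := by
      intro y hy
      rw [mem_Ico] at hy
      congr 1
      have h1 : y = (y - 4 ^ t * m) + 4 ^ t * m := by ring
      rw [h1, Int.add_mul_ediv_left _ _ hpos.ne',
        Int.ediv_eq_zero_of_lt (by linarith) (by linarith), zero_add]
    rw [sum_congr rfl e3, sum_const, Int.card_Ico]
    have e4 : (4 ^ t * (m : ℤ) + 4 ^ t - 4 ^ t * (m : ℤ)).toNat = 4 ^ t := by
      rw [add_sub_cancel_left]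
      have : ((4:ℤ) ^ t) = ((4 ^ t : ℕ) : ℤ) := by push_cast; rfl
      rw [this, Int.toNat_natCast]
    rw [e4, nsmul_eq_mul]
    push_cast
    ring

lemma lab_eq_reps (B : Finset ℤ) (y : ℤ) : lab B y = (reps B y : ℝ) := by
  unfold lab reps
  push_cast
  rfl

lemma lab_liftN (t : ℕ) (B : Finset ℤ) (y : ℤ) : lab (liftN t B) y = lab B (y / 4 ^ t) := by
  rw [lab_eq_reps, lab_eq_reps, reps_liftN]

lemma lab_le_card (B : Finset ℤ) (y : ℤ) : lab B y ≤ B.card := by
  unfold lab
  calc ∑ i ∈ B, ∑ j ∈ B, (if 2 * j - i = y then (1:ℝ) else 0)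
      ≤ ∑ i ∈ B, (1:ℝ) := by
        refine sum_le_sum fun i _ => ?_
        rw [← sum_filter, sum_const, nsmul_eq_mul, mul_one]
        have : (B.filter (fun j => 2 * j - i = y)).card ≤ 1 := by
          rw [card_le_one]
          intro a ha b hb
          rw [mem_filter] at ha hb
          omega
        exact_mod_cast this
    _ = B.card := by rw [sum_const, nsmul_eq_mul, mul_one]

/-- CE for the lifted sets -/
theorem ce_lift {n : ℕ} {A : Finset ℕ} (h : IsMaximalThreeFree n A) (hlt : A.card ^ 2 < n)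
    (t : ℕ) :
    13 / 18 * ((liftN t (shift A)).card : ℝ) ^ 2
      ≤ ∑ y ∈ Ico (0 : ℤ) (4 ^ t * n), lab (liftN t (shift A)) y := by
  have h1 := ce_lab h hlt
  have h2 : ∑ y ∈ Ico (0 : ℤ) (4 ^ t * n), lab (liftN t (shift A)) y
      = 4 ^ t * ∑ x ∈ Ico (0 : ℤ) n, lab (shift A) x := by
    rw [← sum_blocks]
    exact sum_congr rfl fun y _ => lab_liftN t _ y
  rw [h2, card_liftN, card_shift]
  push_cast
  have e : ((2:ℝ) ^ t * (A.card : ℝ)) ^ 2 = 4 ^ t * (A.card : ℝ) ^ 2 := by
    rw [mul_pow, ← pow_mul, mul_comm t 2, pow_mul]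
    norm_num
  rw [e]
  have h4 : (0:ℝ) < 4 ^ t := by positivity
  have := mul_le_mul_of_nonneg_left h1 h4.le
  linarith

/-- CE in the window `[0,3D]` -/
theorem ce_window {n : ℕ} {A : Finset ℕ} (h : IsMaximalThreeFree n A) (hlt : A.card ^ 2 < n)
    (t : ℕ) {D : ℤ} (hD : 0 ≤ D) (hD2 : 4 ^ t * (n : ℤ) ≤ 3 * D + 12) :
    13 / 18 * ((liftN t (shift A)).card : ℝ) ^ 2 - 11 * A.card
      ≤ ∑ y ∈ Ico (0 : ℤ) (3 * D + 1), lab (liftN t (shift A)) y := by
  have h1 := ce_lift h hlt t
  have h2 : ∑ y ∈ Ico (0 : ℤ) (4 ^ t * n), lab (liftN t (shift A)) y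
      ≤ ∑ y ∈ Ico (0 : ℤ) (3 * D + 12), lab (liftN t (shift A)) y :=
    sum_le_sum_of_subset_of_nonneg (Ico_subset_Ico le_rfl hD2) fun _ _ _ => lab_nonneg _ _
  have h3 : Ico (0:ℤ) (3 * D + 12) = Ico 0 (3 * D + 1) ∪ Ico (3 * D + 1) (3 * D + 12) :=
    (Ico_union_Ico_eq_Ico (by linarith) (by linarith)).symm
  rw [h3, sum_union (Ico_disjoint_Ico_consecutive _ _ _)] at h2
  have h4 : ∑ y ∈ Ico (3 * D + 1) (3 * D + 12), lab (liftN t (shift A)) y
      ≤ ∑ _y ∈ Ico (3 * D + 1) (3 * D + 12), (A.card : ℝ) := by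
    refine sum_le_sum fun y _ => ?_
    rw [lab_liftN]
    have := lab_le_card (shift A) (y / 4 ^ t)
    rwa [card_shift] at this
  rw [sum_const, Int.card_Ico, nsmul_eq_mul,
    show 3 * D + 12 - (3 * D + 1) = 11 by ring] at h4
  have e11 : ((Int.toNat 11 : ℕ) : ℝ) = 11 := by
    have : Int.toNat 11 = 11 := rfl
    rw [this]
    norm_num
  rw [e11] at h4
  linarith

/-- pairs `(a,a1)` with `u a - 2 u a1 ≥ j`, all doubled roles allowed -/
def nf (P : WS) (j : ℤ) : ℝ :=
  ∑ a ∈ P.S, ∑ a1 ∈ P.S, if j ≤ P.u a - 2 * P.u a1 then P.f a * P.f a1 else 0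

lemma nn_le_nf {P : WS} (hP : Good P) (j : ℤ) : nn P j ≤ nf P j := by
  unfold nn nf
  refine sum_le_sum fun a ha => sum_le_sum fun a1 ha1 => ?_
  split_ifs
  · exact mul_le_mul_of_nonneg_left (hP.f1_le a1 ha1) (hP.f_nonneg a ha)
  · exact le_rfl

/-- OUT: the pairs with label outside the window -/
lemma out_add_lab (B : Finset ℤ) (D : ℤ) (φ1 ψ1 : ℤ → ℝ) :
    cc (PP B (cut D) φ1 D) (QQ B (cut D) ψ1 D) 0 + cc (QQ B (cut D) ψ1 D) (PP B (cut D) φ1 D) 0
      + nf (PP B (cut D) φ1 D) (D + 1) + nf (QQ B (cut D) ψ1 D) (D + 1)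
      + ∑ y ∈ Ico (0 : ℤ) (3 * D + 1), lab B y ≤ (B.card : ℝ) ^ 2 := by
  rw [sum_lab]
  have e : (B.card : ℝ) ^ 2 = ∑ _i ∈ B, ∑ _j ∈ B, (1:ℝ) := by
    simp only [sum_const, nsmul_eq_mul, mul_one]
    ring
  rw [e]
  have hc : cc (QQ B (cut D) ψ1 D) (PP B (cut D) φ1 D) 0
      = ∑ i ∈ B, ∑ j ∈ B, if (2 * D - i) + 2 * (j - D) < 0 then (1 - cut D i) * cut D j else 0 := by
    rfl
  rw [hc]
  unfold cc nf PP QQ
  simp only [← sum_add_distrib]
  refine sum_le_sum fun i _ => sum_le_sum fun j _ => ?_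
  have c1 : cut D i = 0 ∨ cut D i = 1 := by unfold cut; split_ifs <;> simp
  have c2 : cut D j = 0 ∨ cut D j = 1 := by unfold cut; split_ifs <;> simp
  rcases c1 with c1 | c1 <;> rcases c2 with c2 | c2 <;> rw [c1, c2] <;> split_ifs <;>
    first
    | (exfalso; omega)
    | norm_num

/-- CE in the frame: the useless pairs are at most `5/18` of all pairs, up to a constant -/
theorem out_le {n : ℕ} {A : Finset ℕ} (h : IsMaximalThreeFree n A) (hlt : A.card ^ 2 < n)
    (t : ℕ) {D : ℤ} (hD : 0 ≤ D) (hD2 : 4 ^ t * (n : ℤ) ≤ 3 * D + 12) (φ1 ψ1 : ℤ → ℝ) :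
    cc (PP (liftN t (shift A)) (cut D) φ1 D) (QQ (liftN t (shift A)) (cut D) ψ1 D) 0
      + cc (QQ (liftN t (shift A)) (cut D) ψ1 D) (PP (liftN t (shift A)) (cut D) φ1 D) 0
      + nf (PP (liftN t (shift A)) (cut D) φ1 D) (D + 1)
      + nf (QQ (liftN t (shift A)) (cut D) ψ1 D) (D + 1)
      ≤ 5 / 18 * ((liftN t (shift A)).card : ℝ) ^ 2 + 11 * A.card := by
  have h1 := ce_window h hlt t hD hD2
  have h2 := out_add_lab (liftN t (shift A)) D φ1 ψ1
  linarith

end

end MP61673a.CE
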