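import Pool.Agent.Mu673.OutNetE

/-!
t-CELLS for a stray without doubled role: for `V < t0 ≤ t ≤ t1` the net at `t` is at least
(gains at `t0`) - (costs at `t1`, savings at `t0`), up to `O(1)` per unit mass.
-/

set_option autoImplicit false

namespace MP61673a.Fin

open Finset MP61673a.W MP61673a.LiftW MP61673a.Mids
open MP61673a.Lift hiding PP QQ

noncomputable section

/-- gains of the pairs of a stray at depth `t` without doubled role -/
def pairOut (P Q : WS) (K ρ lo t : ℤ) : ℝ :=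
  (K - ρ + 1 + nn P (1 + ρ)) * win P (lo - t) (2 * t)
    + (K - ρ + 1 + nn Q (1 + ρ)) * win P (lo - t) ((t + 1) / 2)
    + tailR P Q K ρ t + tailL P Q K ρ t

/-- price at the exotic depth between `j0` and `j1`: crude price at `j1`, saving at `j0` -/
def pcell (P Q : WS) (D K T ρ j0 j1 : ℤ) : ℝ :=
  if 1 ≤ j1 ∧ j0 ≤ D then cprE P D K T ρ j1 - dd P Q (2 * K + 1 + ρ + 2 * (D - j0)) else 0

/-- exotic labels of the centre, cell version -/
def exAc (P Q : WS) (D K T ρ t0 t1 : ℤ) : ℝ :=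
  ∑ q ∈ Q.S, Q.f q * pcell P Q D K T ρ (Q.u q + 2 * t0) (Q.u q + 2 * t1)

/-- labels of the other side, cell version -/
def exBc (P Q : WS) (D K T ρ t0 t1 : ℤ) : ℝ :=
  ∑ q ∈ Q.S, Q.f q * pcell Q P D K T ρ (2 * Q.u q + t0 - D) (2 * Q.u q + t1 - D)

/-- inclusive share rule -/
def incl (x y : ℤ) : ℝ := if y ≤ x then 1 else 0

lemma deeper_le_incl {t t1 y : ℤ} (h : t ≤ t1) : deeper t y ≤ incl t1 y := by
  unfold deeper incl
  split_ifs <;> first | omega | norm_num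

/-- the gains are nondecreasing in the depth, up to the price fact -/
lemma pairOut_mono {P Q : WS} (hP : Good P) (hQ : Good Q) {K ρ lo t0 t : ℤ} {c0 : ℝ}
    (hρ : ρ ≤ K + 1) (hlo : lo ≤ 1) (ht0 : 1 ≤ t0) (h01 : t0 ≤ t) (hc : 0 ≤ c0)
    (hpR : dd P Q (2 * K + 1 + ρ) ≤ K - ρ + 1 + nn P (1 + ρ) + c0)
    (hpL : dd Q P (2 * K + 1 + ρ) ≤ K - ρ + 1 + nn Q (1 + ρ) + c0) :
    pairOut P Q K ρ lo t0 - 2 * c0 * mass P ≤ pairOut P Q K ρ lo t := by
  have hT : (0:ℝ) ≤ K - ρ + 1 := by exact_mod_cast (by omega : (0:ℤ) ≤ K - ρ + 1)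
  have aP : 0 ≤ (K:ℝ) - ρ + 1 + nn P (1 + ρ) := by
    have := nn_nonneg hP (1 + ρ)
    linarith
  have aQ : 0 ≤ (K:ℝ) - ρ + 1 + nn Q (1 + ρ) := by
    have := nn_nonneg hQ (1 + ρ)
    linarith
  have e1 : ∀ s : ℤ, pairOut P Q K ρ lo s
      = ∑ a ∈ P.S, (((if lo - s ≤ P.u a ∧ P.u a < 2 * s then
            (K - ρ + 1 + nn P (1 + ρ)) * P.f a else 0)
          + (if 2 * s ≤ P.u a then P.f a * dd P Q (2 * K + 1 + ρ + 2 * (P.u a - 2 * s)) else 0))
        + ((if lo - s ≤ P.u a ∧ P.u a < (s + 1) / 2 then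
            (K - ρ + 1 + nn Q (1 + ρ)) * P.f a else 0)
          + (if s ≤ 2 * P.u a then P.f a * dd Q P (2 * K + 1 + ρ + 2 * (2 * P.u a - s))
              else 0))) := by
    intro s
    unfold pairOut win tailR tailL
    rw [mul_sum, mul_sum, ← sum_add_distrib, ← sum_add_distrib, ← sum_add_distrib]
    refine sum_congr rfl fun a _ => ?_
    split_ifs <;> ring
  rw [e1 t0, e1 t]
  unfold mass
  rw [mul_sum, ← sum_sub_distrib]
  refine sum_le_sum fun a ha => ?_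
  have hf := hP.f_nonneg a ha
  have hcf := mul_nonneg hc hf
  -- right part
  have hR : ((if lo - t0 ≤ P.u a ∧ P.u a < 2 * t0 then
            (K - ρ + 1 + nn P (1 + ρ)) * P.f a else 0)
          + (if 2 * t0 ≤ P.u a then P.f a * dd P Q (2 * K + 1 + ρ + 2 * (P.u a - 2 * t0))
              else 0)) - c0 * P.f a
      ≤ ((if lo - t ≤ P.u a ∧ P.u a < 2 * t then
            (K - ρ + 1 + nn P (1 + ρ)) * P.f a else 0)
          + (if 2 * t ≤ P.u a then P.f a * dd P Q (2 * K + 1 + ρ + 2 * (P.u a - 2 * t))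
              else 0)) := by
    have m0 := mul_nonneg aP hf
    by_cases c1 : lo - t0 ≤ P.u a
    · by_cases c2 : P.u a < 2 * t0
      · rw [if_pos ⟨c1, c2⟩, if_neg (by omega), if_pos (by omega), if_neg (by omega)]
        linarith
      · rw [if_neg (by omega), if_pos (by omega)]
        by_cases c3 : P.u a < 2 * t
        · rw [if_pos (by omega), if_neg (by omega)]
          have k1 := dd_anti hP hQ (show 2 * K + 1 + ρ
            ≤ 2 * K + 1 + ρ + 2 * (P.u a - 2 * t0) by omega)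
          have k2 := mul_le_mul_of_nonneg_left (k1.trans hpR) hf
          linarith
        · rw [if_neg (by omega), if_pos (by omega)]
          have k1 := dd_anti hP hQ (show 2 * K + 1 + ρ + 2 * (P.u a - 2 * t)
            ≤ 2 * K + 1 + ρ + 2 * (P.u a - 2 * t0) by omega)
          have k2 := mul_le_mul_of_nonneg_left k1 hf
          linarith
    · rw [if_neg (by omega), if_neg (by omega)]
      have k3 := mul_nonneg hf (dd_nonneg hP hQ (2 * K + 1 + ρ + 2 * (P.u a - 2 * t)))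
      split_ifs <;> linarith
  have hL : ((if lo - t0 ≤ P.u a ∧ P.u a < (t0 + 1) / 2 then
            (K - ρ + 1 + nn Q (1 + ρ)) * P.f a else 0)
          + (if t0 ≤ 2 * P.u a then P.f a * dd Q P (2 * K + 1 + ρ + 2 * (2 * P.u a - t0))
              else 0)) - c0 * P.f a
      ≤ ((if lo - t ≤ P.u a ∧ P.u a < (t + 1) / 2 then
            (K - ρ + 1 + nn Q (1 + ρ)) * P.f a else 0)
          + (if t ≤ 2 * P.u a then P.f a * dd Q P (2 * K + 1 + ρ + 2 * (2 * P.u a - t))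
              else 0)) := by
    have m0 := mul_nonneg aQ hf
    by_cases c1 : lo - t0 ≤ P.u a
    · by_cases c2 : P.u a < (t0 + 1) / 2
      · rw [if_pos ⟨c1, c2⟩, if_neg (by omega), if_pos (by omega), if_neg (by omega)]
        linarith
      · rw [if_neg (by omega), if_pos (by omega)]
        by_cases c3 : P.u a < (t + 1) / 2
        · rw [if_pos (by omega), if_neg (by omega)]
          have k1 := dd_anti hQ hP (show 2 * K + 1 + ρ
            ≤ 2 * K + 1 + ρ + 2 * (2 * P.u a - t0) by omega)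
          have k2 := mul_le_mul_of_nonneg_left (k1.trans hpL) hf
          linarith
        · rw [if_neg (by omega), if_pos (by omega)]
          have k1 := dd_anti hQ hP (show 2 * K + 1 + ρ + 2 * (2 * P.u a - t)
            ≤ 2 * K + 1 + ρ + 2 * (2 * P.u a - t0) by omega)
          have k2 := mul_le_mul_of_nonneg_left k1 hf
          linarith
    · rw [if_neg (by omega), if_neg (by omega)]
      have k3 := mul_nonneg hf (dd_nonneg hQ hP (2 * K + 1 + ρ + 2 * (2 * P.u a - t)))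
      split_ifs <;> linarith
  linarith

/-- crude price at label `≤ 0` -/
lemma cprE_top (P : WS) {D K T ρ j : ℤ} (hT : -1 ≤ T) (hK : 0 ≤ K) (hρ : 0 ≤ ρ)
    (hD : K ≤ D) (hD2 : K < D + T + 1) (hj : D ≤ j) :
    cprE P D K T ρ j = T + 1 + nn P (1 + ρ) := by
  unfold cprE cpriceE kap
  rw [if_pos (by omega)]
  have h1 : max (D - j - (D - K)) 0 = 0 := by omega
  rw [h1, show 2 * (0:ℤ) + 1 + ρ = 1 + ρ by ring]
  have h2 : ∑ g ∈ Icc (0:ℤ) T, (if D - j < 2 * K + 1 + ρ + 2 * g then (1:ℝ) else 0)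
      = ∑ g ∈ Icc (0:ℤ) T, (1:ℝ) := by
    refine sum_congr rfl fun g hg => ?_
    rw [mem_Icc] at hg
    rw [if_pos (by omega)]
  rw [h2, sum_const, Int.card_Icc, nsmul_eq_mul, mul_one]
  have h3 : ((T + 1 - 0).toNat : ℝ) = ((T + 1 : ℤ) : ℝ) := by
    have : ((T + 1 - 0).toNat : ℤ) = T + 1 := by
      rw [Int.toNat_of_nonneg (by omega)]
      ring
    exact_mod_cast this
  rw [h3]
  push_cast
  ring

/-- the deep pairs vanish beyond the supports -/
lemma dd_zero_of_supp {P Q : WS} {K x : ℤ} (uP : ∀ a ∈ P.S, P.f a ≠ 0 → P.u a ≤ 2 * K)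
    (uQ : ∀ b ∈ Q.S, Q.f b ≠ 0 → Q.u b ≤ 2 * K) (hx : 6 * K < x) : dd P Q x = 0 := by
  unfold dd
  refine sum_eq_zero fun a ha => sum_eq_zero fun b hb => ?_
  by_cases h1 : P.f a = 0
  · rw [h1]
    simp
  by_cases h2 : Q.f b = 0
  · rw [h2]
    simp
  have := uP a ha h1
  have := uQ b hb h2
  rw [if_neg (by omega)]

/-- ONE PRICE in a cell -/
lemma price_cell {P Q : WS} (hP : Good P) (hQ : Good Q) {K ρ j0 j j1 : ℤ} {c0 : ℝ}
    (hK : 1 ≤ K) (hρ0 : 0 ≤ ρ) (hρ : ρ ≤ K + 1) (hc : 0 ≤ c0)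
    (uP : ∀ a ∈ P.S, P.f a ≠ 0 → P.u a ≤ 2 * K)
    (uQ : ∀ b ∈ Q.S, Q.f b ≠ 0 → Q.u b ≤ 2 * K)
    (hpR : dd P Q (2 * K + 1 + ρ) ≤ K - ρ + 1 + nn P (1 + ρ) + c0)
    (h0 : j0 ≤ j) (h1 : j ≤ j1) :
    (if 1 ≤ j ∧ j ≤ 4 * K + 1 then
        priceE P Q (4 * K + 1) K (K - ρ) ρ (4 * K + 1 - j) else 0)
      ≤ pcell P Q (4 * K + 1) K (K - ρ) ρ j0 j1 + c0 := by
  unfold pcell
  by_cases c1 : 1 ≤ j ∧ j ≤ 4 * K + 1
  · rw [if_pos c1, if_pos (by omega)]
    have e1 : priceE P Q (4 * K + 1) K (K - ρ) ρ (4 * K + 1 - j)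
        = cprE P (4 * K + 1) K (K - ρ) ρ j - dd P Q (2 * K + 1 + ρ + 2 * (4 * K + 1 - j)) := by
      unfold priceE cprE cpriceE
      rfl
    have e2 := cprE_mono hP (4 * K + 1) K (K - ρ) ρ h1
    have e3 := dd_anti hP hQ (show 2 * K + 1 + ρ + 2 * (4 * K + 1 - j)
      ≤ 2 * K + 1 + ρ + 2 * (4 * K + 1 - j0) by omega)
    rw [e1]
    linarith
  · rw [if_neg c1]
    by_cases c2 : 1 ≤ j1 ∧ j0 ≤ 4 * K + 1
    · rw [if_pos c2]
      by_cases c3 : j < 1
      · rw [dd_zero_of_supp uP uQ (by omega), sub_zero]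
        have := cpriceE_nonneg hP (4 * K + 1) K (K - ρ) ρ (4 * K + 1 - j1)
        unfold cprE
        linarith
      · rw [cprE_top P (by omega) (by omega) hρ0 (by omega) (by omega) (by omega)]
        have e3 := dd_anti hP hQ (show 2 * K + 1 + ρ
          ≤ 2 * K + 1 + ρ + 2 * (4 * K + 1 - j0) by omega)
        push_cast
        linarith
    · rw [if_neg c2]
      linarith

/-- the midpoints in a cell -/
lemma mid_cell {P Q : WS} (hP : Good P) (hQ : Good Q) (D e : ℤ) {c : ℤ → ℝ} (hc : Monotone c)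
    (h0 : ∀ x, 0 ≤ c x) {t t1 : ℤ} (h : t ≤ t1) :
    mid P Q D e c deeper t ≤ mid P Q D e c incl t1 := by
  have hcp : ∀ {x y : ℤ}, x ≤ y → cp c x ≤ cp c y := by
    intro x y hxy
    unfold cp
    by_cases c1 : 0 < x
    · rw [if_pos c1, if_pos (by omega)]
      exact hc hxy
    · rw [if_neg c1]
      split_ifs
      · exact h0 y
      · exact le_rfl
  unfold mid
  refine add_le_add (sum_le_sum fun q hq => ?_) (sum_le_sum fun a ha => ?_)
  · refine mul_le_mul_of_nonneg_left ?_ (hQ.f_nonneg q hq)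
    refine mul_le_mul ?_ (hcp (by omega)) (cp_nonneg h0 _) ?_
    · split_ifs
      · exact deeper_le_incl h
      · exact le_rfl
    · unfold incl
      split_ifs <;> norm_num
  · exact mul_le_mul_of_nonneg_left (hcp (by omega)) (hP.f_nonneg a ha)

/-- NET OF AN OUT STRAY IN A t-CELL: gains at `t0`, costs at `t1`, savings at `t0` -/
theorem net_out_cell {P Q : WS} (hP : Good P) (hQ : Good Q) {K ρ V E lo t0 t t1 : ℤ} {c0 : ℝ}
    (hK : 1 ≤ K) (hV : 0 ≤ V) (hρ0 : 0 ≤ ρ) (hρ : ρ ≤ K + 1) (hc : 0 ≤ c0) (hlo : lo ≤ 1)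
    (hVt : V < t0) (h0 : t0 ≤ t) (h1 : t ≤ t1)
    (uP : ∀ a ∈ P.S, P.f a ≠ 0 → P.u a ≤ 2 * K)
    (uQ : ∀ b ∈ Q.S, Q.f b ≠ 0 → Q.u b ≤ 2 * K)
    (hpR : dd P Q (2 * K + 1 + ρ) ≤ K - ρ + 1 + nn P (1 + ρ) + c0)
    (hpL : dd Q P (2 * K + 1 + ρ) ≤ K - ρ + 1 + nn Q (1 + ρ) + c0) :
    pairOut P Q K ρ lo t0 - exAc P Q (4 * K + 1) K (K - ρ) ρ t0 t1
        - exBc P Q (4 * K + 1) K (K - ρ) ρ t0 t1
        - midE P Q incl (4 * K + 1) K (K - ρ) ρ E t1 - 2 * c0 * (mass P + mass Q)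
      ≤ netE P Q deeper (4 * K + 1) K (K - ρ) ρ ρ V E lo t := by
  have a1 := pairNetE_out P Q K (K - ρ) ρ ρ (V := V) (lo := lo) (t := t) (by omega) hlo
    (by omega)
  have a2 := pairOut_mono hP hQ (lo := lo) hρ hlo (by omega : 1 ≤ t0) h0 hc hpR hpL
  have a3 : own P Q (4 * K + 1) K (K - ρ) ρ V t = 0 := by
    unfold own
    rw [if_neg (by omega)]
  have a4 : deepNetE P Q (4 * K + 1) K (K - ρ) ρ V t = 0 := by
    unfold deepNetE
    rw [if_neg (by omega)]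
  have a5 : exA Q (4 * K + 1) V (priceE P Q (4 * K + 1) K (K - ρ) ρ) t
      ≤ exAc P Q (4 * K + 1) K (K - ρ) ρ t0 t1 + c0 * mass Q := by
    unfold exA exAc mass
    rw [if_pos (by omega), mul_sum, ← sum_add_distrib]
    refine sum_le_sum fun q hq => ?_
    have := mul_le_mul_of_nonneg_left (price_cell hP hQ (j0 := Q.u q + 2 * t0)
      (j := Q.u q + 2 * t) (j1 := Q.u q + 2 * t1) hK hρ0 hρ hc uP uQ hpR (by omega) (by omega))
      (hQ.f_nonneg q hq)
    linarith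
  have a6 : exB Q (4 * K + 1) (priceE Q P (4 * K + 1) K (K - ρ) ρ) t
      ≤ exBc P Q (4 * K + 1) K (K - ρ) ρ t0 t1 + c0 * mass Q := by
    unfold exB exBc mass
    rw [mul_sum, ← sum_add_distrib]
    refine sum_le_sum fun q hq => ?_
    have h5 := price_cell hQ hP (j0 := 2 * Q.u q + t0 - (4 * K + 1))
      (j := 2 * Q.u q + t - (4 * K + 1)) (j1 := 2 * Q.u q + t1 - (4 * K + 1)) hK hρ0 hρ hc uQ uP
      hpL (by omega) (by omega)
    have h6 : (if 0 ≤ 2 * (4 * K + 1) - 2 * Q.u q - t ∧ 2 * (4 * K + 1) - 2 * Q.u q - t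
          < 4 * K + 1 then
        priceE Q P (4 * K + 1) K (K - ρ) ρ (2 * (4 * K + 1) - 2 * Q.u q - t) else 0)
        = (if 1 ≤ 2 * Q.u q + t - (4 * K + 1) ∧ 2 * Q.u q + t - (4 * K + 1) ≤ 4 * K + 1 then
        priceE Q P (4 * K + 1) K (K - ρ) ρ (4 * K + 1 - (2 * Q.u q + t - (4 * K + 1)))
          else 0) := by
      rw [show 4 * K + 1 - (2 * Q.u q + t - (4 * K + 1)) = 2 * (4 * K + 1) - 2 * Q.u q - t by
        ring]
      by_cases c : 1 ≤ 2 * Q.u q + t - (4 * K + 1) ∧ 2 * Q.u q + t - (4 * K + 1) ≤ 4 * K + 1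
      · rw [if_pos c, if_pos (by omega)]
      · rw [if_neg c, if_neg (by omega)]
    rw [h6]
    have := mul_le_mul_of_nonneg_left h5 (hQ.f_nonneg q hq)
    linarith
  have a7 : midE P Q deeper (4 * K + 1) K (K - ρ) ρ E t
      ≤ midE P Q incl (4 * K + 1) K (K - ρ) ρ E t1 := by
    unfold midE
    have m1 := cprE_mono hP (4 * K + 1) K (K - ρ) ρ
    have m2 : ∀ x, 0 ≤ cprE P (4 * K + 1) K (K - ρ) ρ x := fun x => by
      unfold cprE
      exact cpriceE_nonneg hP _ _ _ _ _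
    have b1 := mid_cell hP hQ (4 * K + 1) 0 m1 m2 h1
    have b2 := mid_cell hP hQ (4 * K + 1) E m1 m2 h1
    linarith
  unfold netE grossE gainE
  rw [a3, a4, a1]
  unfold pairOut at a2
  push_cast
  unfold pairOut
  linarith

end

end MP61673a.Fin
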