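import Pool.Agent.Mu673.Net3
import Pool.Agent.Mu673.CellOut

/-!
t-CELLS IN THREE-POINT FORM: the row of every stray depth `t0 ≤ t ≤ t1` (without doubled role) from
ONE pointwise inequality whose kernels depend only on `(t0, t1)`.
-/

set_option autoImplicit false

namespace MP61673a.Fin

open Finset MP61673a.W MP61673a.LiftW MP61673a.Mids MP61673a.Sos
open MP61673a.Lift hiding PP QQ

noncomputable section

/-- sharing weight of a midpoint in a cell -/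
def omc (t1 u : ℤ) : ℝ := if u < 0 then incl t1 (-u) else 1

/-- one-body part of the net in the cell `[t0, t1]` -/
def n1c (K ρ E lo t0 t1 : ℤ) (x : P3) : ℝ :=
  if x.1 = false then
    (K - ρ + 1) * (bo (lo - t0 ≤ x.2 ∧ x.2 < 2 * t0) + bo (lo - t0 ≤ x.2 ∧ 2 * x.2 < t0))
      - 1 / 2 * (bo (0 < (t1 + x.2 - (4 * K + 1) + 0) / 2)
          * kvr K ρ ((t1 + x.2 - (4 * K + 1) + 0) / 2)
        + bo (0 < (t1 + x.2 - (4 * K + 1) + E) / 2)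
          * kvr K ρ ((t1 + x.2 - (4 * K + 1) + E) / 2))
  else
    -(bo (1 ≤ x.2 + 2 * t1 ∧ x.2 + 2 * t0 ≤ 4 * K + 1) * kvr K ρ (x.2 + 2 * t1))
      - bo (1 ≤ 2 * x.2 + t1 - (4 * K + 1) ∧ 2 * x.2 + t0 - (4 * K + 1) ≤ 4 * K + 1)
        * kvr K ρ (2 * x.2 + t1 - (4 * K + 1))
      - 1 / 2 * omc t1 x.2 * (bo (0 < (t1 - x.2 + 0) / 2) * kvr K ρ ((t1 - x.2 + 0) / 2)
        + bo (0 < (t1 - x.2 + E) / 2) * kvr K ρ ((t1 - x.2 + E) / 2))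

/-- three-body part of the net in the cell `[t0, t1]` -/
def n3c (K ρ V E lo t0 t1 : ℤ) (x y z : P3) : ℝ :=
  if x.1 = false then
    bo (lo - t0 ≤ x.2 ∧ x.2 < 2 * t0) * kNP V (1 + ρ) y z
      + bo (lo - t0 ≤ x.2 ∧ 2 * x.2 < t0) * kNQ V (1 + ρ) y z
      + bo (2 * t0 ≤ x.2) * kPQ (2 * K + 1 + ρ + 2 * (x.2 - 2 * t0)) y z
      + bo (t0 ≤ 2 * x.2) * kQP (2 * K + 1 + ρ + 2 * (2 * x.2 - t0)) y z
      - 1 / 2 * (bo (0 < (t1 + x.2 - (4 * K + 1) + 0) / 2 ∧ ρ ≤ (t1 + x.2 - (4 * K + 1) + 0) / 2)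
          * kNP V (thr K ρ ((t1 + x.2 - (4 * K + 1) + 0) / 2)) y z
        + bo (0 < (t1 + x.2 - (4 * K + 1) + E) / 2 ∧ ρ ≤ (t1 + x.2 - (4 * K + 1) + E) / 2)
          * kNP V (thr K ρ ((t1 + x.2 - (4 * K + 1) + E) / 2)) y z)
  else
    -(bo ((1 ≤ x.2 + 2 * t1 ∧ x.2 + 2 * t0 ≤ 4 * K + 1) ∧ ρ ≤ x.2 + 2 * t1)
        * kNP V (thr K ρ (x.2 + 2 * t1)) y z)
      + bo (1 ≤ x.2 + 2 * t1 ∧ x.2 + 2 * t0 ≤ 4 * K + 1)
        * kPQ (2 * K + 1 + ρ + 2 * (4 * K + 1 - (x.2 + 2 * t0))) y z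
      - bo ((1 ≤ 2 * x.2 + t1 - (4 * K + 1) ∧ 2 * x.2 + t0 - (4 * K + 1) ≤ 4 * K + 1)
          ∧ ρ ≤ 2 * x.2 + t1 - (4 * K + 1))
        * kNQ V (thr K ρ (2 * x.2 + t1 - (4 * K + 1))) y z
      + bo (1 ≤ 2 * x.2 + t1 - (4 * K + 1) ∧ 2 * x.2 + t0 - (4 * K + 1) ≤ 4 * K + 1)
        * kQP (2 * K + 1 + ρ + 2 * (4 * K + 1 - (2 * x.2 + t0 - (4 * K + 1)))) y z
      - 1 / 2 * omc t1 x.2
        * (bo (0 < (t1 - x.2 + 0) / 2 ∧ ρ ≤ (t1 - x.2 + 0) / 2)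
            * kNP V (thr K ρ ((t1 - x.2 + 0) / 2)) y z
          + bo (0 < (t1 - x.2 + E) / 2 ∧ ρ ≤ (t1 - x.2 + E) / 2)
            * kNP V (thr K ρ ((t1 - x.2 + E) / 2)) y z)

/-- the cell functional in three-point form, exact -/
theorem net3c {P Q : WS} {K ρ V E lo t0 t1 : ℤ} (dP : Dbl P V) (dQ : Dbl Q V)
    (hρ : ρ ≤ K + 1) :
    pairOut P Q K ρ lo t0 - exAc P Q (4 * K + 1) K (K - ρ) ρ t0 t1
        - exBc P Q (4 * K + 1) K (K - ρ) ρ t0 t1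
        - midE P Q incl (4 * K + 1) K (K - ρ) ρ E t1
      = T1 P Q (n1c K ρ E lo t0 t1) + T3 P Q (n3c K ρ V E lo t0 t1) := by
  have m0 := mid_eqE P Q (K := K) (ρ := ρ) hρ incl 0 t1
  have mE := mid_eqE P Q (K := K) (ρ := ρ) hρ incl E t1
  -- the right hand side, per point
  have r1 : T1 P Q (n1c K ρ E lo t0 t1) + T3 P Q (n3c K ρ V E lo t0 t1)
      = ∑ a ∈ P.S, P.f a * (n1c K ρ E lo t0 t1 (false, P.u a)
          + T2 P Q (n3c K ρ V E lo t0 t1 (false, P.u a)))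
        + ∑ b ∈ Q.S, Q.f b * (n1c K ρ E lo t0 t1 (true, Q.u b)
          + T2 P Q (n3c K ρ V E lo t0 t1 (true, Q.u b))) := by
    rw [T3_eq, ← T1_add, T1_eq]
  have rP : ∀ u : ℤ, T2 P Q (n3c K ρ V E lo t0 t1 (false, u))
      = bo (lo - t0 ≤ u ∧ u < 2 * t0) * nn P (1 + ρ)
      + bo (lo - t0 ≤ u ∧ 2 * u < t0) * nn Q (1 + ρ)
      + bo (2 * t0 ≤ u) * dd P Q (2 * K + 1 + ρ + 2 * (u - 2 * t0))
      + bo (t0 ≤ 2 * u) * dd Q P (2 * K + 1 + ρ + 2 * (2 * u - t0))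
      - 1 / 2 * (bo (0 < (t1 + u - (4 * K + 1) + 0) / 2 ∧ ρ ≤ (t1 + u - (4 * K + 1) + 0) / 2)
          * nn P (thr K ρ ((t1 + u - (4 * K + 1) + 0) / 2))
        + bo (0 < (t1 + u - (4 * K + 1) + E) / 2 ∧ ρ ≤ (t1 + u - (4 * K + 1) + E) / 2)
          * nn P (thr K ρ ((t1 + u - (4 * K + 1) + E) / 2))) := by
    intro u
    have e : n3c K ρ V E lo t0 t1 (false, u) = fun y z =>
      bo (lo - t0 ≤ u ∧ u < 2 * t0) * kNP V (1 + ρ) y z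
      + bo (lo - t0 ≤ u ∧ 2 * u < t0) * kNQ V (1 + ρ) y z
      + bo (2 * t0 ≤ u) * kPQ (2 * K + 1 + ρ + 2 * (u - 2 * t0)) y z
      + bo (t0 ≤ 2 * u) * kQP (2 * K + 1 + ρ + 2 * (2 * u - t0)) y z
      - 1 / 2 * (bo (0 < (t1 + u - (4 * K + 1) + 0) / 2 ∧ ρ ≤ (t1 + u - (4 * K + 1) + 0) / 2)
          * kNP V (thr K ρ ((t1 + u - (4 * K + 1) + 0) / 2)) y z
        + bo (0 < (t1 + u - (4 * K + 1) + E) / 2 ∧ ρ ≤ (t1 + u - (4 * K + 1) + E) / 2)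
          * kNP V (thr K ρ ((t1 + u - (4 * K + 1) + E) / 2)) y z) := by
      funext y z
      unfold n3c
      rw [if_pos rfl]
    rw [e, T2_lin4, T2_kNP dP, T2_kNQ dQ, T2_kPQ, T2_kQP, T2_kNP dP, T2_kNP dP]
  have rQ : ∀ u : ℤ, T2 P Q (n3c K ρ V E lo t0 t1 (true, u))
      = -(bo ((1 ≤ u + 2 * t1 ∧ u + 2 * t0 ≤ 4 * K + 1) ∧ ρ ≤ u + 2 * t1)
        * nn P (thr K ρ (u + 2 * t1)))
      + bo (1 ≤ u + 2 * t1 ∧ u + 2 * t0 ≤ 4 * K + 1)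
        * dd P Q (2 * K + 1 + ρ + 2 * (4 * K + 1 - (u + 2 * t0)))
      - bo ((1 ≤ 2 * u + t1 - (4 * K + 1) ∧ 2 * u + t0 - (4 * K + 1) ≤ 4 * K + 1)
          ∧ ρ ≤ 2 * u + t1 - (4 * K + 1))
        * nn Q (thr K ρ (2 * u + t1 - (4 * K + 1)))
      + bo (1 ≤ 2 * u + t1 - (4 * K + 1) ∧ 2 * u + t0 - (4 * K + 1) ≤ 4 * K + 1)
        * dd Q P (2 * K + 1 + ρ + 2 * (4 * K + 1 - (2 * u + t0 - (4 * K + 1))))
      - 1 / 2 * omc t1 u
        * (bo (0 < (t1 - u + 0) / 2 ∧ ρ ≤ (t1 - u + 0) / 2)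
            * nn P (thr K ρ ((t1 - u + 0) / 2))
          + bo (0 < (t1 - u + E) / 2 ∧ ρ ≤ (t1 - u + E) / 2)
            * nn P (thr K ρ ((t1 - u + E) / 2))) := by
    intro u
    have e : n3c K ρ V E lo t0 t1 (true, u) = fun y z =>
      -(bo ((1 ≤ u + 2 * t1 ∧ u + 2 * t0 ≤ 4 * K + 1) ∧ ρ ≤ u + 2 * t1)
        * kNP V (thr K ρ (u + 2 * t1)) y z)
      + bo (1 ≤ u + 2 * t1 ∧ u + 2 * t0 ≤ 4 * K + 1)
        * kPQ (2 * K + 1 + ρ + 2 * (4 * K + 1 - (u + 2 * t0))) y z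
      - bo ((1 ≤ 2 * u + t1 - (4 * K + 1) ∧ 2 * u + t0 - (4 * K + 1) ≤ 4 * K + 1)
          ∧ ρ ≤ 2 * u + t1 - (4 * K + 1))
        * kNQ V (thr K ρ (2 * u + t1 - (4 * K + 1))) y z
      + bo (1 ≤ 2 * u + t1 - (4 * K + 1) ∧ 2 * u + t0 - (4 * K + 1) ≤ 4 * K + 1)
        * kQP (2 * K + 1 + ρ + 2 * (4 * K + 1 - (2 * u + t0 - (4 * K + 1)))) y z
      - 1 / 2 * omc t1 u
        * (bo (0 < (t1 - u + 0) / 2 ∧ ρ ≤ (t1 - u + 0) / 2)
            * kNP V (thr K ρ ((t1 - u + 0) / 2)) y z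
          + bo (0 < (t1 - u + E) / 2 ∧ ρ ≤ (t1 - u + E) / 2)
            * kNP V (thr K ρ ((t1 - u + E) / 2)) y z) := by
      funext y z
      unfold n3c
      rw [if_neg (by simp)]
    rw [e, T2_lin5, T2_kNP dP, T2_kPQ, T2_kNQ dQ, T2_kQP, T2_kNP dP, T2_kNP dP]
  have e3 : ∀ j : ℤ, (if 0 < j then ((kv K ρ j : ℤ) : ℝ) + (if ρ ≤ j then
      nn P (2 * max (K - j) 0 + 1 + ρ) else 0) else 0)
      = (if 0 < j then 1 else 0) * ((kv K ρ j : ℤ) : ℝ)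
        + (if 0 < j ∧ ρ ≤ j then 1 else 0) * nn P (2 * max (K - j) 0 + 1 + ρ) := by
    intro j
    by_cases c1 : 0 < j
    · by_cases c2 : ρ ≤ j
      · rw [if_pos c1, if_pos c2, if_pos c1, if_pos ⟨c1, c2⟩]
        ring
      · rw [if_pos c1, if_neg c2, if_pos c1, if_neg (fun h => c2 h.2)]
        ring
    · rw [if_neg c1, if_neg c1, if_neg (fun h => c1 h.1)]
      ring
  -- the left hand side, per point
  have lP : ∀ a ∈ P.S, P.f a * (n1c K ρ E lo t0 t1 (false, P.u a)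
          + T2 P Q (n3c K ρ V E lo t0 t1 (false, P.u a)))
      = ((K:ℝ) - ρ + 1 + nn P (1 + ρ)) * (if lo - t0 ≤ P.u a ∧ P.u a < 2 * t0 then P.f a else 0)
        + ((K:ℝ) - ρ + 1 + nn Q (1 + ρ))
          * (if lo - t0 ≤ P.u a ∧ P.u a < (t0 + 1) / 2 then P.f a else 0)
        + (if 2 * t0 ≤ P.u a then
            P.f a * dd P Q (2 * K + 1 + ρ + 2 * (P.u a - 2 * t0)) else 0)
        + (if t0 ≤ 2 * P.u a then
            P.f a * dd Q P (2 * K + 1 + ρ + 2 * (2 * P.u a - t0)) else 0)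
        - 1 / 2 * (P.f a * (if 0 < (t1 + P.u a - (4 * K + 1) + 0) / 2 then
            ((kv K ρ ((t1 + P.u a - (4 * K + 1) + 0) / 2) : ℤ) : ℝ)
            + (if ρ ≤ (t1 + P.u a - (4 * K + 1) + 0) / 2 then
                nn P (2 * max (K - (t1 + P.u a - (4 * K + 1) + 0) / 2) 0 + 1 + ρ) else 0)
            else 0)
          + P.f a * (if 0 < (t1 + P.u a - (4 * K + 1) + E) / 2 then
            ((kv K ρ ((t1 + P.u a - (4 * K + 1) + E) / 2) : ℤ) : ℝ)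
            + (if ρ ≤ (t1 + P.u a - (4 * K + 1) + E) / 2 then
                nn P (2 * max (K - (t1 + P.u a - (4 * K + 1) + E) / 2) 0 + 1 + ρ) else 0)
            else 0)) := by
    intro a _
    rw [rP]
    unfold n1c bo kvr thr
    rw [if_pos rfl]
    have e1 : (if lo - t0 ≤ P.u a ∧ P.u a < (t0 + 1) / 2 then P.f a else 0)
        = P.f a * (if lo - t0 ≤ P.u a ∧ 2 * P.u a < t0 then 1 else 0) := by
      by_cases c : lo - t0 ≤ P.u a ∧ 2 * P.u a < t0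
      · rw [if_pos c, if_pos (by omega), mul_one]
      · rw [if_neg c, if_neg (by omega), mul_zero]
    have e2 : (if lo - t0 ≤ P.u a ∧ P.u a < 2 * t0 then P.f a else 0)
        = P.f a * (if lo - t0 ≤ P.u a ∧ P.u a < 2 * t0 then 1 else 0) := by
      split_ifs <;> ring
    rw [e1, e2, e3, e3]
    have e4 : (if 2 * t0 ≤ P.u a then
            P.f a * dd P Q (2 * K + 1 + ρ + 2 * (P.u a - 2 * t0)) else 0)
        = P.f a * ((if 2 * t0 ≤ P.u a then 1 else 0)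
          * dd P Q (2 * K + 1 + ρ + 2 * (P.u a - 2 * t0))) := by
      split_ifs <;> ring
    have e5 : (if t0 ≤ 2 * P.u a then
            P.f a * dd Q P (2 * K + 1 + ρ + 2 * (2 * P.u a - t0)) else 0)
        = P.f a * ((if t0 ≤ 2 * P.u a then 1 else 0)
          * dd Q P (2 * K + 1 + ρ + 2 * (2 * P.u a - t0))) := by
      split_ifs <;> ring
    rw [e4, e5]
    ring
  have lQ : ∀ q ∈ Q.S, Q.f q * (n1c K ρ E lo t0 t1 (true, Q.u q)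
          + T2 P Q (n3c K ρ V E lo t0 t1 (true, Q.u q)))
      = -(Q.f q * pcell P Q (4 * K + 1) K (K - ρ) ρ (Q.u q + 2 * t0) (Q.u q + 2 * t1))
        - Q.f q * pcell Q P (4 * K + 1) K (K - ρ) ρ (2 * Q.u q + t0 - (4 * K + 1))
            (2 * Q.u q + t1 - (4 * K + 1))
        - 1 / 2 * (Q.f q * ((if Q.u q < 0 then incl t1 (-Q.u q) else 1)
          * (if 0 < (t1 - Q.u q + 0) / 2 then ((kv K ρ ((t1 - Q.u q + 0) / 2) : ℤ) : ℝ)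
            + (if ρ ≤ (t1 - Q.u q + 0) / 2 then
                nn P (2 * max (K - (t1 - Q.u q + 0) / 2) 0 + 1 + ρ) else 0) else 0))
          + Q.f q * ((if Q.u q < 0 then incl t1 (-Q.u q) else 1)
          * (if 0 < (t1 - Q.u q + E) / 2 then ((kv K ρ ((t1 - Q.u q + E) / 2) : ℤ) : ℝ)
            + (if ρ ≤ (t1 - Q.u q + E) / 2 then
                nn P (2 * max (K - (t1 - Q.u q + E) / 2) 0 + 1 + ρ) else 0) else 0))) := by
    intro q _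
    rw [rQ]
    unfold n1c bo kvr thr omc pcell
    rw [if_neg (by simp), cprE_eq P hρ, cprE_eq Q hρ]
    have e4 : (if 1 ≤ Q.u q + 2 * t1 ∧ Q.u q + 2 * t0 ≤ 4 * K + 1 then
          ((kv K ρ (Q.u q + 2 * t1) : ℤ) : ℝ)
            + (if ρ ≤ Q.u q + 2 * t1 then nn P (2 * max (K - (Q.u q + 2 * t1)) 0 + 1 + ρ) else 0)
          - dd P Q (2 * K + 1 + ρ + 2 * (4 * K + 1 - (Q.u q + 2 * t0))) else 0)
        = (if 1 ≤ Q.u q + 2 * t1 ∧ Q.u q + 2 * t0 ≤ 4 * K + 1 then 1 else 0)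
            * ((kv K ρ (Q.u q + 2 * t1) : ℤ) : ℝ)
          + (if (1 ≤ Q.u q + 2 * t1 ∧ Q.u q + 2 * t0 ≤ 4 * K + 1) ∧ ρ ≤ Q.u q + 2 * t1
              then 1 else 0) * nn P (2 * max (K - (Q.u q + 2 * t1)) 0 + 1 + ρ)
          - (if 1 ≤ Q.u q + 2 * t1 ∧ Q.u q + 2 * t0 ≤ 4 * K + 1 then 1 else 0)
            * dd P Q (2 * K + 1 + ρ + 2 * (4 * K + 1 - (Q.u q + 2 * t0))) := by
      by_cases c : 1 ≤ Q.u q + 2 * t1 ∧ Q.u q + 2 * t0 ≤ 4 * K + 1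
      · rw [if_pos c, if_pos c]
        by_cases c2 : ρ ≤ Q.u q + 2 * t1
        · rw [if_pos c2, if_pos ⟨c, c2⟩]
          ring
        · rw [if_neg c2, if_neg (fun h => c2 h.2)]
          ring
      · rw [if_neg c, if_neg c, if_neg (fun h => c h.1)]
        ring
    have e5 : (if 1 ≤ 2 * Q.u q + t1 - (4 * K + 1) ∧ 2 * Q.u q + t0 - (4 * K + 1) ≤ 4 * K + 1
        then ((kv K ρ (2 * Q.u q + t1 - (4 * K + 1)) : ℤ) : ℝ)
          + (if ρ ≤ 2 * Q.u q + t1 - (4 * K + 1) then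
              nn Q (2 * max (K - (2 * Q.u q + t1 - (4 * K + 1))) 0 + 1 + ρ) else 0)
          - dd Q P (2 * K + 1 + ρ + 2 * (4 * K + 1 - (2 * Q.u q + t0 - (4 * K + 1)))) else 0)
        = (if 1 ≤ 2 * Q.u q + t1 - (4 * K + 1) ∧ 2 * Q.u q + t0 - (4 * K + 1) ≤ 4 * K + 1
            then 1 else 0) * ((kv K ρ (2 * Q.u q + t1 - (4 * K + 1)) : ℤ) : ℝ)
          + (if (1 ≤ 2 * Q.u q + t1 - (4 * K + 1) ∧ 2 * Q.u q + t0 - (4 * K + 1) ≤ 4 * K + 1)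
              ∧ ρ ≤ 2 * Q.u q + t1 - (4 * K + 1) then 1 else 0)
            * nn Q (2 * max (K - (2 * Q.u q + t1 - (4 * K + 1))) 0 + 1 + ρ)
          - (if 1 ≤ 2 * Q.u q + t1 - (4 * K + 1) ∧ 2 * Q.u q + t0 - (4 * K + 1) ≤ 4 * K + 1
            then 1 else 0)
            * dd Q P (2 * K + 1 + ρ + 2 * (4 * K + 1 - (2 * Q.u q + t0 - (4 * K + 1)))) := by
      by_cases c : 1 ≤ 2 * Q.u q + t1 - (4 * K + 1) ∧ 2 * Q.u q + t0 - (4 * K + 1) ≤ 4 * K + 1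
      · rw [if_pos c, if_pos c]
        by_cases c2 : ρ ≤ 2 * Q.u q + t1 - (4 * K + 1)
        · rw [if_pos c2, if_pos ⟨c, c2⟩]
          ring
        · rw [if_neg c2, if_neg (fun h => c2 h.2)]
          ring
      · rw [if_neg c, if_neg c, if_neg (fun h => c h.1)]
        ring
    rw [e3, e3, e4, e5]
    ring
  rw [r1, sum_congr rfl lP, sum_congr rfl lQ]
  simp only [sum_add_distrib, sum_sub_distrib, sum_neg_distrib, ← mul_sum]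
  unfold midE
  rw [m0, mE]
  unfold pairOut win tailR tailL exAc exBc
  push_cast
  ring


/-! ### The deep charge and the far labels in a cell -/

lemma bo_mono {p q : Prop} [Decidable p] [Decidable q] (h : p → q) : bo p ≤ bo q := by
  by_cases c : p
  · rw [bo_true c, bo_true (h c)]
  · rw [bo_false c]
    exact bo_nonneg _

lemma omw_le_omc {t t1 u : ℤ} (h : t ≤ t1) : omw t u ≤ omc t1 u := by
  unfold omw omc
  split_ifs
  · exact deeper_le_incl h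
  · exact le_rfl

lemma omc_nonneg (t u : ℤ) : 0 ≤ omc t u := by
  unfold omc incl
  split_ifs <;> norm_num

/-- deep right labels made by the stray and the point `x`, cell version -/
def aRc (D ρ E t0 t1 : ℤ) (x : P3) : ℝ :=
  if x.1 = false then
    1 / 2 * (bo (0 < (t1 + x.2 - D + 0) / 2 ∧ ρ < (t1 + x.2 - D + 0) / 2)
      + bo (0 < (t1 + x.2 - D + E) / 2 ∧ ρ < (t1 + x.2 - D + E) / 2))
  else
    1 / 2 * omc t1 x.2 * (bo (0 < (t1 - x.2 + 0) / 2 ∧ ρ < (t1 - x.2 + 0) / 2)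
      + bo (0 < (t1 - x.2 + E) / 2 ∧ ρ < (t1 - x.2 + E) / 2))
      + bo ((1 ≤ x.2 + 2 * t1 ∧ x.2 + 2 * t0 ≤ D) ∧ ρ < x.2 + 2 * t1)

/-- deep left labels, cell version -/
def aLc (D ρ t0 t1 : ℤ) (x : P3) : ℝ :=
  if x.1 = false then 0
  else bo ((1 ≤ 2 * x.2 + t1 - D ∧ 2 * x.2 + t0 - D ≤ D) ∧ ρ < 2 * x.2 + t1 - D)

/-- far labels, cell version -/
def fCc (D K E t0 t1 : ℤ) (x : P3) : ℝ :=
  if x.1 = false then
    bo (t0 ≤ 2 * x.2 ∧ 2 * x.2 < t1 + K) + bo (2 * t0 ≤ x.2 ∧ x.2 < 2 * t1 + K)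
      + bo (2 * (D - K) - E < t1 + x.2 - D ∧ t0 + x.2 - D ≤ 2 * (D - 0) + E
        ∧ 0 < t1 + x.2 - D + E)
  else
    bo (D + 1 - K ≤ x.2 + 2 * t1)
      + omc t1 x.2 * bo (2 * (D - K) - E < t1 - x.2 ∧ t0 - x.2 ≤ 2 * (D - 0) + E
        ∧ 0 < t1 - x.2 + E)
      + bo ((1 ≤ 2 * x.2 + t1 - D ∧ 2 * x.2 + t0 - D ≤ D) ∧ D - (2 * x.2 + t1 - D) < K)

lemma aR_le_aRc {D ρ E t0 t t1 : ℤ} (h0 : t0 ≤ t) (h1 : t ≤ t1) (x : P3) :
    aR D ρ E t x ≤ aRc D ρ E t0 t1 x := by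
  unfold aR aRc
  split_ifs with c
  · have e1 := bo_mono (p := 0 < (t + x.2 - D + 0) / 2 ∧ ρ < (t + x.2 - D + 0) / 2)
      (q := 0 < (t1 + x.2 - D + 0) / 2 ∧ ρ < (t1 + x.2 - D + 0) / 2) (fun h => by omega)
    have e2 := bo_mono (p := 0 < (t + x.2 - D + E) / 2 ∧ ρ < (t + x.2 - D + E) / 2)
      (q := 0 < (t1 + x.2 - D + E) / 2 ∧ ρ < (t1 + x.2 - D + E) / 2) (fun h => by omega)
    linarith
  · have e1 := bo_mono (p := 0 < (t - x.2 + 0) / 2 ∧ ρ < (t - x.2 + 0) / 2)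
      (q := 0 < (t1 - x.2 + 0) / 2 ∧ ρ < (t1 - x.2 + 0) / 2) (fun h => by omega)
    have e2 := bo_mono (p := 0 < (t - x.2 + E) / 2 ∧ ρ < (t - x.2 + E) / 2)
      (q := 0 < (t1 - x.2 + E) / 2 ∧ ρ < (t1 - x.2 + E) / 2) (fun h => by omega)
    have e3 := bo_mono (p := (1 ≤ x.2 + 2 * t ∧ x.2 + 2 * t ≤ D) ∧ ρ < x.2 + 2 * t)
      (q := (1 ≤ x.2 + 2 * t1 ∧ x.2 + 2 * t0 ≤ D) ∧ ρ < x.2 + 2 * t1) (fun h => by omega)
    have e4 := omw_le_omc (u := x.2) h1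
    have e5 := omw_nonneg t x.2
    have e6 := bo_nonneg (0 < (t - x.2 + 0) / 2 ∧ ρ < (t - x.2 + 0) / 2)
    have e7 := bo_nonneg (0 < (t - x.2 + E) / 2 ∧ ρ < (t - x.2 + E) / 2)
    have e8 := omc_nonneg t1 x.2
    have e9 := mul_le_mul (by linarith : 1 / 2 * omw t x.2 ≤ 1 / 2 * omc t1 x.2)
      (add_le_add e1 e2) (by linarith) (by linarith)
    linarith

lemma aL_le_aLc {D ρ t0 t t1 : ℤ} (h0 : t0 ≤ t) (h1 : t ≤ t1) (x : P3) :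
    aL D ρ t x ≤ aLc D ρ t0 t1 x := by
  unfold aL aLc
  split_ifs with c
  · exact le_rfl
  · exact bo_mono (fun h => by omega)

lemma fC_le_fCc {D K E t0 t t1 : ℤ} (h0 : t0 ≤ t) (h1 : t ≤ t1) (x : P3) :
    fC D K E t x ≤ fCc D K E t0 t1 x := by
  unfold fC fCc
  split_ifs with c
  · have e1 := bo_mono (p := t ≤ 2 * x.2 ∧ 2 * x.2 < t + K)
      (q := t0 ≤ 2 * x.2 ∧ 2 * x.2 < t1 + K) (fun h => by omega)
    have e2 := bo_mono (p := 2 * t ≤ x.2 ∧ x.2 < 2 * t + K)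
      (q := 2 * t0 ≤ x.2 ∧ x.2 < 2 * t1 + K) (fun h => by omega)
    have e3 := bo_mono (p := 2 * (D - K) - E < t + x.2 - D ∧ t + x.2 - D ≤ 2 * (D - 0) + E
        ∧ 0 < t + x.2 - D + E)
      (q := 2 * (D - K) - E < t1 + x.2 - D ∧ t0 + x.2 - D ≤ 2 * (D - 0) + E
        ∧ 0 < t1 + x.2 - D + E) (fun h => by omega)
    linarith
  · have e1 := bo_mono (p := D + 1 - K ≤ x.2 + 2 * t) (q := D + 1 - K ≤ x.2 + 2 * t1)
      (fun h => by omega)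
    have e2 := bo_mono (p := 2 * (D - K) - E < t - x.2 ∧ t - x.2 ≤ 2 * (D - 0) + E
        ∧ 0 < t - x.2 + E)
      (q := 2 * (D - K) - E < t1 - x.2 ∧ t0 - x.2 ≤ 2 * (D - 0) + E
        ∧ 0 < t1 - x.2 + E) (fun h => by omega)
    have e3 := bo_mono (p := (1 ≤ 2 * x.2 + t - D ∧ 2 * x.2 + t - D ≤ D)
        ∧ D - (2 * x.2 + t - D) < K)
      (q := (1 ≤ 2 * x.2 + t1 - D ∧ 2 * x.2 + t0 - D ≤ D)
        ∧ D - (2 * x.2 + t1 - D) < K) (fun h => by omega)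
    have e4 := omw_le_omc (u := x.2) h1
    have e9 := mul_le_mul e4 e2 (bo_nonneg _) (omc_nonneg t1 x.2)
    linarith

lemma bR_mono {t0 t : ℤ} (h0 : t0 ≤ t) (x : P3) : bR t0 x ≤ bR t x := by
  unfold bR
  split_ifs
  · exact bo_mono (fun h => by omega)
  · exact le_rfl

lemma bL_mono {t0 t : ℤ} (h0 : t0 ≤ t) (x : P3) : bL t0 x ≤ bL t x := by
  unfold bL
  split_ifs
  · exact bo_mono (fun h => by omega)
  · exact le_rfl

/-- the deep charge of a cell -/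
def dchc (P Q : WS) (D ρ E t0 t1 : ℤ) : ℝ :=
  max 0 (T1 P Q (aRc D ρ E t0 t1) - T1 P Q (bR t0)) * T2 P Q (kQP (D - ρ + 1))
    + max 0 (T1 P Q (aLc D ρ t0 t1) - T1 P Q (bL t0)) * T2 P Q (kPQ (D - ρ + 1))

theorem dchE_le_dchc {P Q : WS} {D K V E N : ℤ} {ξR ξL : ℤ → ℝ} (h : Env P Q D K V E N ξR ξL)
    {ρ t0 t t1 : ℤ} (hVt : V < t) (h0 : t0 ≤ t) (h1 : t ≤ t1) :
    dchE P Q deeper D ρ V E t ≤ dchc P Q D ρ E t0 t1 := by
  rw [dch_T hVt]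
  unfold dchc
  have a1 := h.T1_mono (c := aR D ρ E t) (d := aRc D ρ E t0 t1) (fun x _ => aR_le_aRc h0 h1 x)
  have a2 := h.T1_mono (c := bR t0) (d := bR t) (fun x _ => bR_mono h0 x)
  have a3 := h.T1_mono (c := aL D ρ t) (d := aLc D ρ t0 t1) (fun x _ => aL_le_aLc h0 h1 x)
  have a4 := h.T1_mono (c := bL t0) (d := bL t) (fun x _ => bL_mono h0 x)
  have b1 : 0 ≤ T2 P Q (kQP (D - ρ + 1)) := by
    rw [T2_kQP]
    exact dd_nonneg h.gQ h.gP _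
  have b2 : 0 ≤ T2 P Q (kPQ (D - ρ + 1)) := by
    rw [T2_kPQ]
    exact dd_nonneg h.gP h.gQ _
  exact add_le_add (mul_le_mul_of_nonneg_right (max_le_max le_rfl (by linarith)) b1)
    (mul_le_mul_of_nonneg_right (max_le_max le_rfl (by linarith)) b2)

/-- the deep charge of a cell in three-point form; `sR = 1`, `sL = 1`: the useless pairs are
subtracted -/
def dk3c (D ρ E t0 t1 : ℤ) (eR eL sR sL : ℝ) (x y z : P3) : ℝ :=
  eR * ((aRc D ρ E t0 t1 x - sR * bR t0 x) * kQP (D - ρ + 1) y z)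
    + eL * ((aLc D ρ t0 t1 x - sL * bL t0 x) * kPQ (D - ρ + 1) y z)

lemma T3_dk3c (P Q : WS) (D ρ E t0 t1 : ℤ) (eR eL sR sL : ℝ) :
    T3 P Q (dk3c D ρ E t0 t1 eR eL sR sL)
      = eR * ((T1 P Q (aRc D ρ E t0 t1) - sR * T1 P Q (bR t0)) * T2 P Q (kQP (D - ρ + 1)))
        + eL * ((T1 P Q (aLc D ρ t0 t1) - sL * T1 P Q (bL t0))
          * T2 P Q (kPQ (D - ρ + 1))) := by
  unfold dk3c
  rw [T3_add P Q (fun x y z => eR * ((aRc D ρ E t0 t1 x - sR * bR t0 x)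
      * kQP (D - ρ + 1) y z)),
    T3_mul P Q eR, T3_mul P Q eL, T3_prod P Q (fun x => aRc D ρ E t0 t1 x - sR * bR t0 x),
    T3_prod P Q (fun x => aLc D ρ t0 t1 x - sL * bL t0 x), T1_sub, T1_sub, T1_mul, T1_mul]

/-- the deep charge of a cell, useless pairs dropped -/
theorem dchc_drop {P Q : WS} {D K V E N : ℤ} {ξR ξL : ℤ → ℝ} (h : Env P Q D K V E N ξR ξL)
    {ρ t0 t1 : ℤ} (h01 : t0 ≤ t1) :
    dchc P Q D ρ E t0 t1 ≤ T3 P Q (dk3c D ρ E t0 t1 1 1 0 0) := by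
  rw [T3_dk3c, zero_mul, zero_mul, sub_zero, sub_zero, one_mul, one_mul]
  unfold dchc
  have a1 : 0 ≤ T1 P Q (aRc D ρ E t0 t1) := (h.T1_nonneg (c := aR D ρ E t0)
    (fun x _ => aR_nonneg _ _ _ _ _)).trans
    (h.T1_mono (c := aR D ρ E t0) (d := aRc D ρ E t0 t1) (fun x _ => aR_le_aRc le_rfl h01 x))
  have a2 := h.T1_nonneg (c := bR t0) (fun x _ => bR_nonneg _ _)
  have a3 : 0 ≤ T1 P Q (aLc D ρ t0 t1) := (h.T1_nonneg (c := aL D ρ t0)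
    (fun x _ => aL_nonneg _ _ _ _)).trans
    (h.T1_mono (c := aL D ρ t0) (d := aLc D ρ t0 t1) (fun x _ => aL_le_aLc le_rfl h01 x))
  have a4 := h.T1_nonneg (c := bL t0) (fun x _ => bL_nonneg _ _)
  have b1 : 0 ≤ T2 P Q (kQP (D - ρ + 1)) := by
    rw [T2_kQP]
    exact dd_nonneg h.gQ h.gP _
  have b2 : 0 ≤ T2 P Q (kPQ (D - ρ + 1)) := by
    rw [T2_kPQ]
    exact dd_nonneg h.gP h.gQ _
  exact add_le_add (mul_le_mul_of_nonneg_right (max_le a1 (by linarith)) b1)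
    (mul_le_mul_of_nonneg_right (max_le a3 (by linarith)) b2)

/-! ### The row of a cell -/

/-- one-body part of the row of a cell -/
def m1cell (K ρ E lo t0 t1 : ℤ) (pR pL : P3 → ℤ → ℝ) (X1 : P3 → ℝ) (x : P3) : ℝ :=
  n1c K ρ E lo t0 t1 x - kapE K ρ * fCc (4 * K + 1) K E t0 t1 x
    + ∑ s ∈ Ico 0 (4 * K + 1), (pR x s + pL x s) - X1 x

/-- three-body part of the row of a cell -/
def m3cell (K ρ V E lo t0 t1 : ℤ) (f : ℝ) (pR mR pL mL : P3 → ℤ → ℝ) (ν : P3 → P3 → ℝ)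
    (o : P3 → ℝ) (dk X3 : P3 → P3 → P3 → ℝ) (x y z : P3) : ℝ :=
  n3c K ρ V E lo t0 t1 x y z - dk x y z - cov3 (4 * K + 1) pR mR pL mL x y z
    + far3 (4 * K + 1) f ν x y z + out3 (4 * K + 1) o x y z - X3 x y z

lemma kapE_nonneg {K ρ : ℤ} (hK : 0 ≤ K) : 0 ≤ kapE K ρ := by
  unfold kapE
  have : (0:ℝ) ≤ K := by exact_mod_cast hK
  positivity

/-- ROWS OF ALL STRAYS OF DEPTH `t0 ≤ t ≤ t1` (without doubled role) FROM ONE POINTWISE INEQUALITY -/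
theorem row3c {K0 : ℤ} {f : ℝ} {P Q : WS} {D K ρ V E N : ℤ} {ξR ξL : ℤ → ℝ}
    (h : EnvS K0 f P Q D K ρ V E N ξR ξL) {lo t0 t t1 : ℤ} (hlo : lo ≤ 1) (hVt : V < t0)
    (h0 : t0 ≤ t) (h1 : t ≤ t1)
    {pR mR pL mL : P3 → ℤ → ℝ}
    (hpR : ∀ x, InR D K x → ∀ s, 0 ≤ s → s < D → 0 ≤ pR x s)
    (hpL : ∀ x, InR D K x → ∀ s, 0 ≤ s → s < D → 0 ≤ pL x s)
    (hmR : ∀ x, InR D K x → Maj D E (pR x) (mR x))
    (hmL : ∀ x, InR D K x → Maj D E (pL x) (mL x))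
    {ν : P3 → P3 → ℝ} (hν : ∀ x y, 0 ≤ ν x y)
    {o : P3 → ℝ} {o0 : ℝ} (ho : ∀ x, InR D K x → 0 ≤ o x) (ho1 : ∀ x, InR D K x → o x ≤ o0)
    (ho0 : 0 ≤ o0)
    {dk : P3 → P3 → P3 → ℝ} (hdk : dchc P Q D ρ E t0 t1 ≤ T3 P Q dk)
    {X1 : P3 → ℝ} {X3 : P3 → P3 → P3 → ℝ} {C0 : ℝ}
    (hX : -(C0 * K) ≤ T1 P Q X1 + T3 P Q X3)
    (hm : ∀ x, InR D K x → 0 ≤ m1cell K ρ E lo t0 t1 pR pL X1 x)
    {κ : Type} (I : Finset κ) (s : κ → P3 → P3 → ℝ) {c : ℝ} (hc : 0 ≤ c)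
    (hpt : ∀ x y z, InR D K x → InR D K y → InR D K z →
      2 * sq3 I s x y z ≤ sym6 (fun x y z => m1cell K ρ E lo t0 t1 pR pL X1 x / (3 * D + 11)
        + m3cell K ρ V E lo t0 t1 f pR mR pL mL ν o dk X3 x y z) x y z + c / K)
    {C : ℝ} (hC : 3 * c + 143 * o0 + C0 + 2 ≤ C) :
    deepD P Q D K ρ V E (nearE D) (kapE K ρ) t - C * K
      ≤ netE P Q deeper D K (K - ρ) ρ ρ V E lo t := by
  have hρV := h.hρV
  have hnρ := h.near_le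
  have hρ1 := h.hρ
  have hρK := h.hρK
  have hD := h.hD
  have hV0 := h.hV
  have hKr : (10000:ℝ) ≤ K := by exact_mod_cast h.hK1
  have hDr : (D:ℝ) = 4 * K + 1 := by exact_mod_cast hD
  have mP := mass_nonneg h.gP
  have mQ := mass_nonneg h.gQ
  have hS := h.sq_le
  have hSK : mass P + mass Q ≤ K := by
    have h1 : (mass P + mass Q) ^ 2 ≤ (K:ℝ) ^ 2 := by
      rw [hDr] at hS
      nlinarith
    by_contra h2
    push Not at h2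
    nlinarith
  have n0 : 0 ≤ nearE D := by
    unfold nearE
    omega
  have px1 : dd P Q (2 * K + 1 + ρ) ≤ K - ρ + 1 + nn P (1 + ρ) + 1 :=
    (dd_anti h.gP h.gQ (by omega)).trans h.pxR
  have px2 : dd Q P (2 * K + 1 + ρ) ≤ K - ρ + 1 + nn Q (1 + ρ) + 1 :=
    (dd_anti h.gQ h.gP (by omega)).trans h.pxL
  have p := point3 h hm I s hc hpt
  have cell := net_out_cell h.gP h.gQ (K := K) (ρ := ρ) (V := V) (E := E) (lo := lo)
    (t0 := t0) (t := t) (t1 := t1) (c0 := 1) h.hK hV0 (by omega) (by omega) zero_le_one hlo hVt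
    h0 h1 h.uP h.uQ px1 px2
  have net := net3c (P := P) (Q := Q) (K := K) (ρ := ρ) (V := V) (E := E) (lo := lo) (t0 := t0)
    (t1 := t1) h.dP h.dQ (by omega)
  have cov := cov3_ge h.toEnv hpR hpL hmR hmL
  have far := far3_le h hν
  have out := out3_le h ho ho1 ho0
  have farC := farC_T (P := P) (Q := Q) (D := D) (K := K) (E := E) (N := nearE D) (t := t)
    (by omega)
  have farC2 := h.toEnv.T1_mono (c := fC D K E t) (d := fCc D K E t0 t1)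
    (fun x _ => fC_le_fCc h0 h1 x)
  have dch := dchE_le_dchc h.toEnv (ρ := ρ) (E := E) (t0 := t0) (t1 := t1)
    (show V < t by omega) h0 h1
  rw [← hD] at net cell
  have e1 : T1 P Q (m1cell K ρ E lo t0 t1 pR pL X1) = T1 P Q (n1c K ρ E lo t0 t1)
      - kapE K ρ * T1 P Q (fCc D K E t0 t1)
      + T1 P Q (fun x => ∑ s ∈ Ico 0 D, (pR x s + pL x s)) - T1 P Q X1 := by
    rw [← T1_mul, ← T1_sub, ← T1_add, ← T1_sub, hD]
    rfl
  have e2 : T3 P Q (m3cell K ρ V E lo t0 t1 f pR mR pL mL ν o dk X3)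
      = T3 P Q (n3c K ρ V E lo t0 t1) - T3 P Q dk - T3 P Q (cov3 D pR mR pL mL)
        + T3 P Q (far3 D f ν) + T3 P Q (out3 D o) - T3 P Q X3 := by
    rw [← T3_sub, ← T3_sub, ← T3_add, ← T3_add, ← T3_sub, hD]
    rfl
  rw [e1, e2] at p
  have e3 : 11 * o0 * (3 * D + 11) ≤ 143 * o0 * K := by
    rw [hDr]
    nlinarith
  have e4 : (3 * c + 143 * o0 + C0 + 2) * K ≤ C * K := mul_le_mul_of_nonneg_right hC (by linarith)
  have e5 := mul_le_mul_of_nonneg_left farC2 (kapE_nonneg (ρ := ρ) (by omega : 0 ≤ K))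
  unfold deepD
  rw [farC]
  rw [net] at cell
  linarith

end

end MP61673a.Fin
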