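import Pool.Agent.Mu673.Net3In
import Pool.Agent.Mu673.Cell3

/-!
t-CELLS IN THREE-POINT FORM for strays WITH doubled role (`t ≤ V`), and the general cell row.
-/

set_option autoImplicit false

namespace MP61673a.Fin

open Finset MP61673a.W MP61673a.LiftW MP61673a.Mids MP61673a.Sos
open MP61673a.Lift hiding PP QQ

noncomputable section

/-! ### The general cell row -/

/-- one-body part of a cell row, any lower bound `n1` of the net -/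
def m1gc (K ρ E t0 t1 : ℤ) (n1 : P3 → ℝ) (pR pL : P3 → ℤ → ℝ) (X1 : P3 → ℝ) (x : P3) : ℝ :=
  n1 x - kapE K ρ * fCc (4 * K + 1) K E t0 t1 x
    + ∑ s ∈ Ico 0 (4 * K + 1), (pR x s + pL x s) - X1 x

/-- GENERAL CELL ROW: any kernels `n1`, `n3` that bound the net at the depth `t` of the cell -/
theorem row3gc {K0 : ℤ} {f : ℝ} {P Q : WS} {D K ρ V E N : ℤ} {ξR ξL : ℤ → ℝ}
    (h : EnvS K0 f P Q D K ρ V E N ξR ξL) {lo t0 t t1 : ℤ} (hNt : nearE D < t)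
    (h0 : t0 ≤ t) (h1 : t ≤ t1)
    {n1 : P3 → ℝ} {n3 : P3 → P3 → P3 → ℝ} {C1 : ℝ}
    (hnet : T1 P Q n1 + T3 P Q n3 - C1 * K ≤ netE P Q deeper D K (K - ρ) ρ ρ V E lo t)
    {pR mR pL mL : P3 → ℤ → ℝ}
    (hpR : ∀ x, InR D K x → ∀ s, 0 ≤ s → s < D → 0 ≤ pR x s)
    (hpL : ∀ x, InR D K x → ∀ s, 0 ≤ s → s < D → 0 ≤ pL x s)
    (hmR : ∀ x, InR D K x → Maj D E (pR x) (mR x))
    (hmL : ∀ x, InR D K x → Maj D E (pL x) (mL x))
    {ν : P3 → P3 → ℝ} (hν : ∀ x y, 0 ≤ ν x y)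
    {o : P3 → ℝ} {o0 : ℝ} (ho : ∀ x, InR D K x → 0 ≤ o x) (ho1 : ∀ x, InR D K x → o x ≤ o0)
    (ho0 : 0 ≤ o0)
    {dk : P3 → P3 → P3 → ℝ} (hdk : dchE P Q deeper D ρ V E t ≤ T3 P Q dk)
    {X1 : P3 → ℝ} {X3 : P3 → P3 → P3 → ℝ} {C0 : ℝ}
    (hX : -(C0 * K) ≤ T1 P Q X1 + T3 P Q X3)
    (hm : ∀ x, InR D K x → 0 ≤ m1gc K ρ E t0 t1 n1 pR pL X1 x)
    {κ : Type} (I : Finset κ) (s : κ → P3 → P3 → ℝ) {c : ℝ} (hc : 0 ≤ c)
    (hpt : ∀ x y z, InR D K x → InR D K y → InR D K z →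
      2 * sq3 I s x y z ≤ sym6 (fun x y z => m1gc K ρ E t0 t1 n1 pR pL X1 x / (3 * D + 11)
        + m3g K f n3 pR mR pL mL ν o dk X3 x y z) x y z + c / K)
    {C : ℝ} (hC : 3 * c + 143 * o0 + C0 + C1 ≤ C) :
    deepD P Q D K ρ V E (nearE D) (kapE K ρ) t - C * K
      ≤ netE P Q deeper D K (K - ρ) ρ ρ V E lo t := by
  have hD := h.hD
  have hK1 := h.hK1
  have hKr : (10000:ℝ) ≤ K := by exact_mod_cast h.hK1
  have hDr : (D:ℝ) = 4 * K + 1 := by exact_mod_cast hD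
  have p := point3 h hm I s hc hpt
  have cov := cov3_ge h.toEnv hpR hpL hmR hmL
  have far := far3_le h hν
  have out := out3_le h ho ho1 ho0
  have farC := farC_T (P := P) (Q := Q) (D := D) (K := K) (E := E) (N := nearE D) (t := t) hNt
  have farC2 := h.toEnv.T1_mono (c := fC D K E t) (d := fCc D K E t0 t1)
    (fun x _ => fC_le_fCc h0 h1 x)
  have e1 : T1 P Q (m1gc K ρ E t0 t1 n1 pR pL X1) = T1 P Q n1
      - kapE K ρ * T1 P Q (fCc D K E t0 t1)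
      + T1 P Q (fun x => ∑ s ∈ Ico 0 D, (pR x s + pL x s)) - T1 P Q X1 := by
    rw [← T1_mul, ← T1_sub, ← T1_add, ← T1_sub, hD]
    rfl
  have e2 : T3 P Q (m3g K f n3 pR mR pL mL ν o dk X3)
      = T3 P Q n3 - T3 P Q dk - T3 P Q (cov3 D pR mR pL mL)
        + T3 P Q (far3 D f ν) + T3 P Q (out3 D o) - T3 P Q X3 := by
    rw [← T3_sub, ← T3_sub, ← T3_add, ← T3_add, ← T3_sub, hD]
    rfl
  rw [e1, e2] at p
  have e3 : 11 * o0 * (3 * D + 11) ≤ 143 * o0 * K := by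
    rw [hDr]
    nlinarith
  have e4 : (3 * c + 143 * o0 + C0 + C1) * K ≤ C * K :=
    mul_le_mul_of_nonneg_right hC (by linarith)
  have e5 := mul_le_mul_of_nonneg_left farC2 (kapE_nonneg (ρ := ρ) (by omega : 0 ≤ K))
  unfold deepD
  rw [farC]
  linarith

/-- the net of an OUT stray at every depth of the cell, for `row3gc` -/
theorem net_out_cell_T {K0 : ℤ} {f : ℝ} {P Q : WS} {D K ρ V E N : ℤ} {ξR ξL : ℤ → ℝ}
    (h : EnvS K0 f P Q D K ρ V E N ξR ξL) {lo t0 t t1 : ℤ} (hlo : lo ≤ 1) (hVt : V < t0)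
    (h0 : t0 ≤ t) (h1 : t ≤ t1) :
    T1 P Q (n1c K ρ E lo t0 t1) + T3 P Q (n3c K ρ V E lo t0 t1) - 2 * K
      ≤ netE P Q deeper D K (K - ρ) ρ ρ V E lo t := by
  have hρV := h.hρV
  have hρ1 := h.hρ
  have hρK := h.hρK
  have hD := h.hD
  have hV0 := h.hV
  have hKr : (10000:ℝ) ≤ K := by exact_mod_cast h.hK1
  have hDr : (D:ℝ) = 4 * K + 1 := by exact_mod_cast hD
  have mP := mass_nonneg h.gP
  have mQ := mass_nonneg h.gQ
  have hS := h.sq_le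
  have hSK : mass P + mass Q ≤ K := by
    have h1 : (mass P + mass Q) ^ 2 ≤ (K:ℝ) ^ 2 := by
      rw [hDr] at hS
      nlinarith
    by_contra h2
    push Not at h2
    nlinarith
  have n0 : 0 ≤ nearE D := by
    unfold nearE
    omega
  have px1 : dd P Q (2 * K + 1 + ρ) ≤ K - ρ + 1 + nn P (1 + ρ) + 1 :=
    (dd_anti h.gP h.gQ (by omega)).trans h.pxR
  have px2 : dd Q P (2 * K + 1 + ρ) ≤ K - ρ + 1 + nn Q (1 + ρ) + 1 :=
    (dd_anti h.gQ h.gP (by omega)).trans h.pxL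
  have cell := net_out_cell h.gP h.gQ (K := K) (ρ := ρ) (V := V) (E := E) (lo := lo)
    (t0 := t0) (t := t) (t1 := t1) (c0 := 1) h.hK hV0 (by omega) (by omega) zero_le_one hlo hVt
    h0 h1 h.uP h.uQ px1 px2
  have net := net3c (P := P) (Q := Q) (K := K) (ρ := ρ) (V := V) (E := E) (lo := lo) (t0 := t0)
    (t1 := t1) h.dP h.dQ (by omega)
  rw [← hD] at cell net
  rw [net] at cell
  linarith


/-! ### Kernels of an IN stray in a cell -/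

lemma T2_mono {P Q : WS} (hP : Good P) (hQ : Good Q) {g h : P3 → P3 → ℝ}
    (hgh : ∀ y z, g y z ≤ h y z) : T2 P Q g ≤ T2 P Q h := by
  refine sum_le_sum fun x hx => sum_le_sum fun y hy => ?_
  exact mul_le_mul_of_nonneg_left (hgh _ _) (mul_nonneg (wt3_nonneg hP hQ x hx)
    (wt3_nonneg hP hQ y hy))

lemma kNP_anti (V : ℤ) {x y : ℤ} (h : x ≤ y) (a b : P3) : kNP V y a b ≤ kNP V x a b :=
  bo_mono (fun k => ⟨k.1, k.2.1, by omega⟩)

lemma kNQ_anti (V : ℤ) {x y : ℤ} (h : x ≤ y) (a b : P3) : kNQ V y a b ≤ kNQ V x a b :=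
  bo_mono (fun k => ⟨k.1, k.2.1, by omega⟩)

lemma kPQ_anti {x y : ℤ} (h : x ≤ y) (a b : P3) : kPQ y a b ≤ kPQ x a b :=
  bo_mono (fun k => ⟨k.1, by omega⟩)

lemma kQP_anti {x y : ℤ} (h : x ≤ y) (a b : P3) : kQP y a b ≤ kQP x a b :=
  bo_mono (fun k => ⟨k.1, by omega⟩)

lemma thr_anti (K ρ : ℤ) {i j : ℤ} (h : i ≤ j) : thr K ρ j ≤ thr K ρ i := by
  unfold thr
  omega

lemma kvr_mono (K ρ : ℤ) {i j : ℤ} (h : i ≤ j) : kvr K ρ i ≤ kvr K ρ j := by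
  unfold kvr
  have : kv K ρ i ≤ kv K ρ j := by
    unfold kv
    omega
  exact_mod_cast this

lemma kvr_nonneg (K ρ j : ℤ) : 0 ≤ kvr K ρ j := by
  unfold kvr
  exact_mod_cast kv_nonneg K ρ j

/-- lower bound of `kKC K ρ x y` for `y1 ≤ y ≤ y0` -/
def kKCc (K ρ x y0 y1 : ℤ) (a b : P3) : ℝ :=
  bo ((a.1 = false ∧ b.1 = true) ∧ ¬ (1 + ρ ≤ a.2 - 2 * x ∧ K - (K - ρ) ≤ b.2 - 2 * y1) ∧
    2 * K + 1 + ρ + 2 * (x + 2 * y0) ≤ a.2 + 2 * b.2)

/-- lower bound of `kKC' K ρ x y` for `x1 ≤ x ≤ x0` -/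
def kKCc' (K ρ x0 x1 y : ℤ) (a b : P3) : ℝ :=
  bo ((a.1 = true ∧ b.1 = false) ∧ ¬ (1 + ρ ≤ a.2 - 2 * x1 ∧ K - (K - ρ) ≤ b.2 - 2 * y) ∧
    2 * K + 1 + ρ + 2 * (x0 + 2 * y) ≤ a.2 + 2 * b.2)

lemma kKK_mono (K ρ x : ℤ) {y1 y : ℤ} (h : y1 ≤ y) (a b : P3) :
    kKK K ρ x y a b ≤ kKK K ρ x y1 a b :=
  bo_mono (fun k => ⟨k.1, ⟨k.2.1.1, by have := k.2.1.2; omega⟩, by have := k.2.2; omega⟩)

lemma kKK'_mono (K ρ y : ℤ) {x1 x : ℤ} (h : x1 ≤ x) (a b : P3) :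
    kKK' K ρ x y a b ≤ kKK' K ρ x1 y a b :=
  bo_mono (fun k => ⟨k.1, ⟨by have := k.2.1.1; omega, k.2.1.2⟩, by have := k.2.2; omega⟩)

lemma kKCc_le (K ρ x : ℤ) {y0 y y1 : ℤ} (h0 : y ≤ y0) (h1 : y1 ≤ y) (a b : P3) :
    kKCc K ρ x y0 y1 a b ≤ kKC K ρ x y a b :=
  bo_mono (fun k => ⟨k.1, fun c => k.2.1 ⟨c.1, by have := c.2; omega⟩, by
    have := k.2.2
    omega⟩)

lemma kKCc'_le (K ρ y : ℤ) {x0 x x1 : ℤ} (h0 : x ≤ x0) (h1 : x1 ≤ x) (a b : P3) :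
    kKCc' K ρ x0 x1 y a b ≤ kKC' K ρ x y a b :=
  bo_mono (fun k => ⟨k.1, fun c => k.2.1 ⟨by have := c.1; omega, c.2⟩, by
    have := k.2.2
    omega⟩)

/-- midpoint part of the net, point of the other side -/
def mP3 (K ρ V E t u : ℤ) (y z : P3) : ℝ :=
  1 / 2 * (bo (0 < (t + u - (4 * K + 1) + 0) / 2 ∧ ρ ≤ (t + u - (4 * K + 1) + 0) / 2)
          * kNP V (thr K ρ ((t + u - (4 * K + 1) + 0) / 2)) y z
        + bo (0 < (t + u - (4 * K + 1) + E) / 2 ∧ ρ ≤ (t + u - (4 * K + 1) + E) / 2)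
          * kNP V (thr K ρ ((t + u - (4 * K + 1) + E) / 2)) y z)

/-- midpoint part of the net, point of the same side, without the sharing weight -/
def mQ3 (K ρ V E t u : ℤ) (y z : P3) : ℝ :=
  bo (0 < (t - u + 0) / 2 ∧ ρ ≤ (t - u + 0) / 2) * kNP V (thr K ρ ((t - u + 0) / 2)) y z
    + bo (0 < (t - u + E) / 2 ∧ ρ ≤ (t - u + E) / 2) * kNP V (thr K ρ ((t - u + E) / 2)) y z

lemma bo_mul_mono {p q : Prop} [Decidable p] [Decidable q] {x y : ℝ} (h : p → q) (hxy : x ≤ y)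
    (hy : 0 ≤ y) : bo p * x ≤ bo q * y := by
  by_cases c : p
  · rw [bo_true c, bo_true (h c)]
    linarith
  · rw [bo_false c, zero_mul]
    exact mul_nonneg (bo_nonneg _) hy

lemma kNP_nonneg (V y : ℤ) (a b : P3) : 0 ≤ kNP V y a b := bo_nonneg _
lemma kNQ_nonneg (V y : ℤ) (a b : P3) : 0 ≤ kNQ V y a b := bo_nonneg _
lemma kPQ_nonneg (x : ℤ) (a b : P3) : 0 ≤ kPQ x a b := bo_nonneg _
lemma kQP_nonneg (x : ℤ) (a b : P3) : 0 ≤ kQP x a b := bo_nonneg _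

lemma mP3_mono (K ρ V E u : ℤ) {t t1 : ℤ} (h : t ≤ t1) (y z : P3) :
    mP3 K ρ V E t u y z ≤ mP3 K ρ V E t1 u y z := by
  unfold mP3
  have e1 := bo_mul_mono (p := 0 < (t + u - (4 * K + 1) + 0) / 2
      ∧ ρ ≤ (t + u - (4 * K + 1) + 0) / 2)
    (q := 0 < (t1 + u - (4 * K + 1) + 0) / 2 ∧ ρ ≤ (t1 + u - (4 * K + 1) + 0) / 2)
    (fun h => by omega)
    (kNP_anti V (thr_anti K ρ (show (t + u - (4 * K + 1) + 0) / 2
      ≤ (t1 + u - (4 * K + 1) + 0) / 2 by omega)) y z) (kNP_nonneg _ _ _ _)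
  have e2 := bo_mul_mono (p := 0 < (t + u - (4 * K + 1) + E) / 2
      ∧ ρ ≤ (t + u - (4 * K + 1) + E) / 2)
    (q := 0 < (t1 + u - (4 * K + 1) + E) / 2 ∧ ρ ≤ (t1 + u - (4 * K + 1) + E) / 2)
    (fun h => by omega)
    (kNP_anti V (thr_anti K ρ (show (t + u - (4 * K + 1) + E) / 2
      ≤ (t1 + u - (4 * K + 1) + E) / 2 by omega)) y z) (kNP_nonneg _ _ _ _)
  linarith

lemma mQ3_mono (K ρ V E u : ℤ) {t t1 : ℤ} (h : t ≤ t1) (y z : P3) :
    mQ3 K ρ V E t u y z ≤ mQ3 K ρ V E t1 u y z := by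
  unfold mQ3
  have e1 := bo_mul_mono (p := 0 < (t - u + 0) / 2 ∧ ρ ≤ (t - u + 0) / 2)
    (q := 0 < (t1 - u + 0) / 2 ∧ ρ ≤ (t1 - u + 0) / 2) (fun h => by omega)
    (kNP_anti V (thr_anti K ρ (show (t - u + 0) / 2 ≤ (t1 - u + 0) / 2 by omega)) y z)
    (kNP_nonneg _ _ _ _)
  have e2 := bo_mul_mono (p := 0 < (t - u + E) / 2 ∧ ρ ≤ (t - u + E) / 2)
    (q := 0 < (t1 - u + E) / 2 ∧ ρ ≤ (t1 - u + E) / 2) (fun h => by omega)
    (kNP_anti V (thr_anti K ρ (show (t - u + E) / 2 ≤ (t1 - u + E) / 2 by omega)) y z)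
    (kNP_nonneg _ _ _ _)
  linarith

lemma mQ3_nonneg (K ρ V E t u : ℤ) (y z : P3) : 0 ≤ mQ3 K ρ V E t u y z := by
  unfold mQ3
  have h1 := mul_nonneg (bo_nonneg (0 < (t - u + 0) / 2 ∧ ρ ≤ (t - u + 0) / 2))
    (kNP_nonneg V (thr K ρ ((t - u + 0) / 2)) y z)
  have h2 := mul_nonneg (bo_nonneg (0 < (t - u + E) / 2 ∧ ρ ≤ (t - u + E) / 2))
    (kNP_nonneg V (thr K ρ ((t - u + E) / 2)) y z)
  linarith

/-- one-body part of the net of an IN stray, cell version -/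
def n1inc (K ρ E lo t0 t1 : ℤ) (x : P3) : ℝ :=
  if x.1 = false then
    (K - ρ + 1) * (bo (lo - t0 ≤ x.2 ∧ x.2 < 2 * t0) + bo (lo - t0 ≤ x.2 ∧ 2 * x.2 < t0))
      - 1 / 2 * (bo (0 < (t1 + x.2 - (4 * K + 1) + 0) / 2)
          * kvr K ρ ((t1 + x.2 - (4 * K + 1) + 0) / 2)
        + bo (0 < (t1 + x.2 - (4 * K + 1) + E) / 2)
          * kvr K ρ ((t1 + x.2 - (4 * K + 1) + E) / 2))
  else
    -(bo (1 ≤ 2 * x.2 + t1 - (4 * K + 1) ∧ 2 * x.2 + t0 - (4 * K + 1) ≤ 4 * K + 1)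
        * kvr K ρ (2 * x.2 + t1 - (4 * K + 1)))
      - 1 / 2 * omc t1 x.2 * (bo (0 < (t1 - x.2 + 0) / 2) * kvr K ρ ((t1 - x.2 + 0) / 2)
        + bo (0 < (t1 - x.2 + E) / 2) * kvr K ρ ((t1 - x.2 + E) / 2))

/-- three-body part of the net of an IN stray, cell version. The elements of `P` whose depth lies
in the cell are inside or outside the window: only their cost is kept -/
def n3inc (K ρ V E lo t0 t1 : ℤ) (x y z : P3) : ℝ :=
  if x.1 = false then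
    bo (lo - t0 ≤ x.2 ∧ x.2 < 2 * t0) * (kNP V (1 + ρ) y z - kKK K ρ x.2 (-t1) y z)
      + bo (lo - t0 ≤ x.2 ∧ 2 * x.2 < t0) * (kNQ V (1 + ρ) y z - kKK' K ρ (-t1) x.2 y z)
      + bo (2 * t0 ≤ x.2) * kKCc K ρ x.2 (-t0) (-t1) y z
      + bo (t0 ≤ 2 * x.2) * kKCc' K ρ (-t0) (-t1) x.2 y z
      - bo (lo - t1 ≤ x.2 ∧ x.2 < lo - t0)
        * (kKK K ρ x.2 (-t1) y z + kKK' K ρ (-t1) x.2 y z)
      - mP3 K ρ V E t1 x.2 y z
  else
    bo (1 ≤ x.2 + 2 * t0 ∧ x.2 + 2 * t1 ≤ 4 * K + 1)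
        * kPQ (2 * K + 1 + ρ + 2 * (4 * K + 1 - (x.2 + 2 * t0))) y z
      + bo (1 + ρ ≤ x.2 + 2 * t0)
        * (kQP (4 * K + 1 - K + min ((x.2 + 2 * t1 - ρ + 1) / 2) (K - ρ + 1)) y z
          - kQP (4 * K + 1 - K + (K - ρ + 1)) y z)
      - bo ((1 ≤ 2 * x.2 + t1 - (4 * K + 1) ∧ 2 * x.2 + t0 - (4 * K + 1) ≤ 4 * K + 1)
          ∧ ρ ≤ 2 * x.2 + t1 - (4 * K + 1))
        * kNQ V (thr K ρ (2 * x.2 + t1 - (4 * K + 1))) y z
      - 1 / 2 * omc t1 x.2 * mQ3 K ρ V E t1 x.2 y z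

/-- points of the same side: pointwise -/
lemma in_cell_Q {K ρ V E lo t0 t t1 : ℤ} (hρ : ρ ≤ K + 1) (h0 : t0 ≤ t) (h1 : t ≤ t1)
    (u : ℤ) (y z : P3) :
    n1inc K ρ E lo t0 t1 (true, u) ≤ n1in K ρ E lo t (true, u)
      ∧ n3inc K ρ V E lo t0 t1 (true, u) y z ≤ n3in K ρ V E lo t (true, u) y z := by
  have hT : (0:ℝ) ≤ K - ρ + 1 := by exact_mod_cast (by omega : (0:ℤ) ≤ K - ρ + 1)
  constructor
  · unfold n1inc n1in
    rw [if_neg (by simp), if_neg (by simp)]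
    have a1 := bo_mul_mono (p := 1 ≤ 2 * u + t - (4 * K + 1)
        ∧ 2 * u + t - (4 * K + 1) ≤ 4 * K + 1)
      (q := 1 ≤ 2 * u + t1 - (4 * K + 1) ∧ 2 * u + t0 - (4 * K + 1) ≤ 4 * K + 1)
      (fun h => by omega) (kvr_mono K ρ (show 2 * u + t - (4 * K + 1)
        ≤ 2 * u + t1 - (4 * K + 1) by omega)) (kvr_nonneg _ _ _)
    have a2 := bo_mul_mono (p := 0 < (t - u + 0) / 2) (q := 0 < (t1 - u + 0) / 2)
      (fun h => by omega) (kvr_mono K ρ (show (t - u + 0) / 2 ≤ (t1 - u + 0) / 2 by omega))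
      (kvr_nonneg _ _ _)
    have a3 := bo_mul_mono (p := 0 < (t - u + E) / 2) (q := 0 < (t1 - u + E) / 2)
      (fun h => by omega) (kvr_mono K ρ (show (t - u + E) / 2 ≤ (t1 - u + E) / 2 by omega))
      (kvr_nonneg _ _ _)
    have a4 := mul_nonneg (bo_nonneg (4 * K + 1 < u + 2 * t)) hT
    have b1 := mul_nonneg (bo_nonneg (0 < (t - u + 0) / 2)) (kvr_nonneg K ρ ((t - u + 0) / 2))
    have b2 := mul_nonneg (bo_nonneg (0 < (t - u + E) / 2)) (kvr_nonneg K ρ ((t - u + E) / 2))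
    have a5 := mul_le_mul (omw_le_omc (u := u) h1) (add_le_add a2 a3) (by linarith)
      (omc_nonneg t1 u)
    simp only
    linarith
  · unfold n3inc n3in
    rw [if_neg (by simp), if_neg (by simp)]
    have a1 := mul_nonneg (bo_nonneg (4 * K + 1 < u + 2 * t)) (kNP_nonneg V (1 + ρ) y z)
    have a2 := bo_mul_mono (p := 1 ≤ u + 2 * t0 ∧ u + 2 * t1 ≤ 4 * K + 1)
      (q := 1 ≤ u + 2 * t ∧ u + 2 * t ≤ 4 * K + 1) (fun h => by omega)
      (kPQ_anti (show 2 * K + 1 + ρ + 2 * (4 * K + 1 - (u + 2 * t))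
        ≤ 2 * K + 1 + ρ + 2 * (4 * K + 1 - (u + 2 * t0)) by omega) y z) (kPQ_nonneg _ _ _)
    have a3 := bo_mul_mono (p := 1 + ρ ≤ u + 2 * t0) (q := 1 + ρ ≤ u + 2 * t)
      (fun h => by omega)
      (show kQP (4 * K + 1 - K + min ((u + 2 * t1 - ρ + 1) / 2) (K - ρ + 1)) y z
          - kQP (4 * K + 1 - K + (K - ρ + 1)) y z
        ≤ kQP (4 * K + 1 - K + min ((u + 2 * t - ρ + 1) / 2) (K - ρ + 1)) y z
          - kQP (4 * K + 1 - K + (K - ρ + 1)) y z by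
        have := kQP_anti (show 4 * K + 1 - K + min ((u + 2 * t - ρ + 1) / 2) (K - ρ + 1)
          ≤ 4 * K + 1 - K + min ((u + 2 * t1 - ρ + 1) / 2) (K - ρ + 1) by omega) y z
        linarith)
      (by
        have := kQP_anti (show 4 * K + 1 - K + min ((u + 2 * t - ρ + 1) / 2) (K - ρ + 1)
          ≤ 4 * K + 1 - K + (K - ρ + 1) by omega) y z
        linarith)
    have a4 := bo_mul_mono (p := (1 ≤ 2 * u + t - (4 * K + 1)
          ∧ 2 * u + t - (4 * K + 1) ≤ 4 * K + 1) ∧ ρ ≤ 2 * u + t - (4 * K + 1))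
      (q := (1 ≤ 2 * u + t1 - (4 * K + 1) ∧ 2 * u + t0 - (4 * K + 1) ≤ 4 * K + 1)
          ∧ ρ ≤ 2 * u + t1 - (4 * K + 1)) (fun h => by omega)
      (kNQ_anti V (thr_anti K ρ (show 2 * u + t - (4 * K + 1)
        ≤ 2 * u + t1 - (4 * K + 1) by omega)) y z) (kNQ_nonneg _ _ _ _)
    have a5 := mul_nonneg (bo_nonneg (1 ≤ 2 * u + t - (4 * K + 1)
        ∧ 2 * u + t - (4 * K + 1) ≤ 4 * K + 1))
      (kQP_nonneg (2 * K + 1 + ρ + 2 * (2 * (4 * K + 1) - 2 * u - t)) y z)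
    have a6 := mul_le_mul (omw_le_omc (u := u) h1) (mQ3_mono K ρ V E u h1 y z)
      (mQ3_nonneg K ρ V E t u y z) (omc_nonneg t1 u)
    unfold mQ3 at a6 ⊢
    simp only
    linarith


/-- points of the other side: in sum over the pairs of the two other points -/
lemma in_cell_P {K0 : ℤ} {f : ℝ} {P Q : WS} {D K ρ V E N : ℤ} {ξR ξL : ℤ → ℝ}
    (h : EnvS K0 f P Q D K ρ V E N ξR ξL) {lo t0 t t1 : ℤ} (hlo0 : 0 ≤ lo) (hlo : lo ≤ 1)
    (ht0 : 1 ≤ t0)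
    (h0 : t0 ≤ t) (h1 : t ≤ t1) (hw : 2 * (t1 - t0) ≤ 3 * nearE D) (u : ℤ) :
    n1inc K ρ E lo t0 t1 (false, u) + T2 P Q (n3inc K ρ V E lo t0 t1 (false, u)) - 2
      ≤ n1in K ρ E lo t (false, u) + T2 P Q (n3in K ρ V E lo t (false, u)) := by
  have gP := h.gP
  have gQ := h.gQ
  have hρK := h.hρK
  have hρ1 := h.hρ
  have hD := h.hD
  have hK1 := h.hK1
  have hT : (0:ℝ) ≤ K - ρ + 1 := by exact_mod_cast (by omega : (0:ℤ) ≤ K - ρ + 1)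
  -- abbreviations
  set NP := nn P (1 + ρ) with hNP
  set NQ := nn Q (1 + ρ) with hNQ
  have nP := nn_nonneg gP (1 + ρ)
  have nQ := nn_nonneg gQ (1 + ρ)
  -- the exact kernels of the pairs
  have eA : T2 P Q (n3in K ρ V E lo t (false, u))
      = (bo (lo - t ≤ u ∧ u < 2 * t) * (NP - KKE P Q K (K - ρ) ρ u (-t))
      + bo (lo - t ≤ u ∧ 2 * u < t) * (NQ - KKE Q P K (K - ρ) ρ (-t) u)
      + bo (2 * t ≤ u) * KCE P Q K (K - ρ) ρ u (-t)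
      + bo (t ≤ 2 * u) * KCE Q P K (K - ρ) ρ (-t) u)
      - T2 P Q (mP3 K ρ V E t u) := by
    have e : n3in K ρ V E lo t (false, u) = fun y z =>
        (bo (lo - t ≤ u ∧ u < 2 * t) * (kNP V (1 + ρ) y z - kKK K ρ u (-t) y z)
        + bo (lo - t ≤ u ∧ 2 * u < t) * (kNQ V (1 + ρ) y z - kKK' K ρ (-t) u y z)
        + bo (2 * t ≤ u) * kKC K ρ u (-t) y z
        + bo (t ≤ 2 * u) * kKC' K ρ (-t) u y z) - mP3 K ρ V E t u y z := by
      funext y z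
      unfold n3in mP3
      rw [if_pos rfl]
    rw [e]
    refine T2_sub' P Q _ _ (T2_add' P Q _ _ (T2_add' P Q _ _ (T2_add' P Q _ _ ?_ ?_) ?_) ?_) rfl
    · exact T2_mul' P Q _ _ (T2_sub' P Q _ _ (T2_kNP h.dP _) (T2_kKK P Q _ _ _ _))
    · exact T2_mul' P Q _ _ (T2_sub' P Q _ _ (T2_kNQ h.dQ _) (T2_kKK' P Q _ _ _ _))
    · exact T2_mul' P Q _ _ (T2_kKC P Q _ _ _ _)
    · exact T2_mul' P Q _ _ (T2_kKC' P Q _ _ _ _)
  have eB : T2 P Q (n3inc K ρ V E lo t0 t1 (false, u))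
      = (bo (lo - t0 ≤ u ∧ u < 2 * t0) * (NP - KKE P Q K (K - ρ) ρ u (-t1))
      + bo (lo - t0 ≤ u ∧ 2 * u < t0) * (NQ - KKE Q P K (K - ρ) ρ (-t1) u)
      + bo (2 * t0 ≤ u) * T2 P Q (kKCc K ρ u (-t0) (-t1))
      + bo (t0 ≤ 2 * u) * T2 P Q (kKCc' K ρ (-t0) (-t1) u)
      - bo (lo - t1 ≤ u ∧ u < lo - t0)
        * (KKE P Q K (K - ρ) ρ u (-t1) + KKE Q P K (K - ρ) ρ (-t1) u))
      - T2 P Q (mP3 K ρ V E t1 u) := by
    have e : n3inc K ρ V E lo t0 t1 (false, u) = fun y z =>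
        (bo (lo - t0 ≤ u ∧ u < 2 * t0) * (kNP V (1 + ρ) y z - kKK K ρ u (-t1) y z)
        + bo (lo - t0 ≤ u ∧ 2 * u < t0) * (kNQ V (1 + ρ) y z - kKK' K ρ (-t1) u y z)
        + bo (2 * t0 ≤ u) * kKCc K ρ u (-t0) (-t1) y z
        + bo (t0 ≤ 2 * u) * kKCc' K ρ (-t0) (-t1) u y z
        - bo (lo - t1 ≤ u ∧ u < lo - t0)
          * (kKK K ρ u (-t1) y z + kKK' K ρ (-t1) u y z)) - mP3 K ρ V E t1 u y z := by
      funext y z
      unfold n3inc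
      rw [if_pos rfl]
    rw [e]
    refine T2_sub' P Q _ _ (T2_sub' P Q _ _ (T2_add' P Q _ _ (T2_add' P Q _ _
      (T2_add' P Q _ _ ?_ ?_) ?_) ?_) ?_) rfl
    · exact T2_mul' P Q _ _ (T2_sub' P Q _ _ (T2_kNP h.dP _) (T2_kKK P Q _ _ _ _))
    · exact T2_mul' P Q _ _ (T2_sub' P Q _ _ (T2_kNQ h.dQ _) (T2_kKK' P Q _ _ _ _))
    · exact T2_mul' P Q _ _ rfl
    · exact T2_mul' P Q _ _ rfl
    · exact T2_mul' P Q _ _ (T2_add' P Q _ _ (T2_kKK P Q _ _ _ _) (T2_kKK' P Q _ _ _ _))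
  have m3 := T2_mono gP gQ (fun y z => mP3_mono K ρ V E u h1 y z)
  -- comparisons of the pair numbers
  have k1 : KKE P Q K (K - ρ) ρ u (-t) ≤ KKE P Q K (K - ρ) ρ u (-t1) := by
    rw [← T2_kKK, ← T2_kKK]
    exact T2_mono gP gQ (fun y z => kKK_mono K ρ u (by omega) y z)
  have k1' : KKE Q P K (K - ρ) ρ (-t) u ≤ KKE Q P K (K - ρ) ρ (-t1) u := by
    rw [← T2_kKK', ← T2_kKK']
    exact T2_mono gP gQ (fun y z => kKK'_mono K ρ u (by omega) y z)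
  have k2 : T2 P Q (kKCc K ρ u (-t0) (-t1)) ≤ KCE P Q K (K - ρ) ρ u (-t) := by
    rw [← T2_kKC]
    exact T2_mono gP gQ (fun y z => kKCc_le K ρ u (by omega) (by omega) y z)
  have k2' : T2 P Q (kKCc' K ρ (-t0) (-t1) u) ≤ KCE Q P K (K - ρ) ρ (-t) u := by
    rw [← T2_kKC']
    exact T2_mono gP gQ (fun y z => kKCc'_le K ρ u (by omega) (by omega) y z)
  have k3 := KKE_add_KCE P Q K (K - ρ) ρ u (-t)
  have k3' := KKE_add_KCE Q P K (K - ρ) ρ (-t) u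
  have k4 : -(6 * nearE D) ≤ 2 * (u + 2 * -t) →
      dd P Q (2 * K + 1 + ρ + 2 * (u + 2 * -t)) ≤ K - ρ + 1 + NP + 1 := fun hh =>
    (dd_anti gP gQ (by omega)).trans h.pxR
  have k4' : -(6 * nearE D) ≤ 2 * (-t + 2 * u) →
      dd Q P (2 * K + 1 + ρ + 2 * (-t + 2 * u)) ≤ K - ρ + 1 + NQ + 1 := fun hh =>
    (dd_anti gQ gP (by omega)).trans h.pxL
  have k5 := KKE_nonneg gP gQ K (K - ρ) ρ u (-t1)
  have k5' := KKE_nonneg gQ gP K (K - ρ) ρ (-t1) u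
  -- one-body parts
  have o1 : n1in K ρ E lo t (false, u)
      = (K - ρ + 1) * (bo (lo - t ≤ u ∧ u < 2 * t) + bo (lo - t ≤ u ∧ 2 * u < t))
        - 1 / 2 * (bo (0 < (t + u - (4 * K + 1) + 0) / 2)
            * kvr K ρ ((t + u - (4 * K + 1) + 0) / 2)
          + bo (0 < (t + u - (4 * K + 1) + E) / 2)
            * kvr K ρ ((t + u - (4 * K + 1) + E) / 2)) := by
    unfold n1in
    rw [if_pos rfl]
  have o2 : n1inc K ρ E lo t0 t1 (false, u)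
      = (K - ρ + 1) * (bo (lo - t0 ≤ u ∧ u < 2 * t0) + bo (lo - t0 ≤ u ∧ 2 * u < t0))
        - 1 / 2 * (bo (0 < (t1 + u - (4 * K + 1) + 0) / 2)
            * kvr K ρ ((t1 + u - (4 * K + 1) + 0) / 2)
          + bo (0 < (t1 + u - (4 * K + 1) + E) / 2)
            * kvr K ρ ((t1 + u - (4 * K + 1) + E) / 2)) := by
    unfold n1inc
    rw [if_pos rfl]
  have v1 := bo_mul_mono (p := 0 < (t + u - (4 * K + 1) + 0) / 2)
    (q := 0 < (t1 + u - (4 * K + 1) + 0) / 2) (fun h => by omega)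
    (kvr_mono K ρ (show (t + u - (4 * K + 1) + 0) / 2 ≤ (t1 + u - (4 * K + 1) + 0) / 2
      by omega)) (kvr_nonneg _ _ _)
  have v2 := bo_mul_mono (p := 0 < (t + u - (4 * K + 1) + E) / 2)
    (q := 0 < (t1 + u - (4 * K + 1) + E) / 2) (fun h => by omega)
    (kvr_mono K ρ (show (t + u - (4 * K + 1) + E) / 2 ≤ (t1 + u - (4 * K + 1) + E) / 2
      by omega)) (kvr_nonneg _ _ _)
  rw [eA, eB, o1, o2]
  -- right part
  have hR : (K - ρ + 1) * bo (lo - t0 ≤ u ∧ u < 2 * t0)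
        + bo (lo - t0 ≤ u ∧ u < 2 * t0) * (NP - KKE P Q K (K - ρ) ρ u (-t1))
        + bo (2 * t0 ≤ u) * T2 P Q (kKCc K ρ u (-t0) (-t1))
        - bo (lo - t1 ≤ u ∧ u < lo - t0) * KKE P Q K (K - ρ) ρ u (-t1) - 1
      ≤ (K - ρ + 1) * bo (lo - t ≤ u ∧ u < 2 * t)
        + bo (lo - t ≤ u ∧ u < 2 * t) * (NP - KKE P Q K (K - ρ) ρ u (-t))
        + bo (2 * t ≤ u) * KCE P Q K (K - ρ) ρ u (-t) := by
    unfold bo
    by_cases c1 : lo - t0 ≤ u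
    · by_cases c2 : u < 2 * t0
      · rw [if_pos ⟨c1, c2⟩, if_neg (by omega), if_neg (by omega), if_pos (by omega),
          if_neg (by omega)]
        linarith
      · rw [if_neg (by omega), if_pos (by omega), if_neg (by omega)]
        by_cases c3 : u < 2 * t
        · rw [if_pos (by omega), if_neg (by omega)]
          have := k4 (by omega)
          linarith
        · rw [if_neg (by omega), if_pos (by omega)]
          linarith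
    · rw [if_neg (by omega), if_neg (by omega)]
      by_cases c3 : lo - t ≤ u
      · rw [if_pos (by omega), if_pos (by omega), if_neg (by omega)]
        linarith
      · rw [if_neg (show ¬ (lo - t ≤ u ∧ u < 2 * t) by omega),
          if_neg (show ¬ (2 * t ≤ u) by omega)]
        split_ifs <;> linarith
  have hL : (K - ρ + 1) * bo (lo - t0 ≤ u ∧ 2 * u < t0)
        + bo (lo - t0 ≤ u ∧ 2 * u < t0) * (NQ - KKE Q P K (K - ρ) ρ (-t1) u)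
        + bo (t0 ≤ 2 * u) * T2 P Q (kKCc' K ρ (-t0) (-t1) u)
        - bo (lo - t1 ≤ u ∧ u < lo - t0) * KKE Q P K (K - ρ) ρ (-t1) u - 1
      ≤ (K - ρ + 1) * bo (lo - t ≤ u ∧ 2 * u < t)
        + bo (lo - t ≤ u ∧ 2 * u < t) * (NQ - KKE Q P K (K - ρ) ρ (-t) u)
        + bo (t ≤ 2 * u) * KCE Q P K (K - ρ) ρ (-t) u := by
    unfold bo
    by_cases c1 : lo - t0 ≤ u
    · by_cases c2 : 2 * u < t0
      · rw [if_pos ⟨c1, c2⟩, if_neg (by omega), if_neg (by omega), if_pos (by omega),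
          if_neg (by omega)]
        linarith
      · rw [if_neg (by omega), if_pos (by omega), if_neg (by omega)]
        by_cases c3 : 2 * u < t
        · rw [if_pos (by omega), if_neg (by omega)]
          have := k4' (by omega)
          linarith
        · rw [if_neg (by omega), if_pos (by omega)]
          linarith
    · rw [if_neg (by omega), if_neg (by omega)]
      by_cases c3 : lo - t ≤ u
      · rw [if_pos (by omega), if_pos (by omega), if_neg (by omega)]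
        linarith
      · rw [if_neg (show ¬ (lo - t ≤ u ∧ 2 * u < t) by omega),
          if_neg (show ¬ (t ≤ 2 * u) by omega)]
        split_ifs <;> linarith
  linarith

/-- the net of an IN stray at every depth of the cell, for `row3g`, `row3gc`, `row3t` -/
theorem net_in_cell_T {K0 : ℤ} {f : ℝ} {P Q : WS} {D K ρ V E N : ℤ} {ξR ξL : ℤ → ℝ}
    (h : EnvS K0 f P Q D K ρ V E N ξR ξL) {lo t0 t t1 : ℤ} (hlo0 : 0 ≤ lo) (hlo : lo ≤ 1)
    (ht0 : 1 ≤ t0) (h0 : t0 ≤ t) (h1 : t ≤ t1) (hNt : nearE D < t) (hVt : t ≤ V)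
    (hw : 2 * (t1 - t0) ≤ 3 * nearE D) :
    T1 P Q (n1inc K ρ E lo t0 t1) + T3 P Q (n3inc K ρ V E lo t0 t1) - 2 * K
      ≤ netE P Q deeper D K (K - ρ) ρ ρ V E lo t := by
  have e := net_in_T h (lo := lo) (t := t) hlo0 hlo hNt hVt
  have hρK := h.hρK
  have hρ1 := h.hρ
  have hK1 := h.hK1
  have hD := h.hD
  have hKr : (10000:ℝ) ≤ K := by exact_mod_cast h.hK1
  have hDr : (D:ℝ) = 4 * K + 1 := by exact_mod_cast hD
  have mP := mass_nonneg h.gP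
  have mQ := mass_nonneg h.gQ
  have hS := h.sq_le
  have hSK : mass P + mass Q ≤ K := by
    have h1 : (mass P + mass Q) ^ 2 ≤ (K:ℝ) ^ 2 := by
      rw [hDr] at hS
      nlinarith
    by_contra h2
    push Not at h2
    nlinarith
  have main : T1 P Q (fun x => n1inc K ρ E lo t0 t1 x + T2 P Q (n3inc K ρ V E lo t0 t1 x))
      - 2 * (mass P + mass Q)
      ≤ T1 P Q (fun x => n1in K ρ E lo t x + T2 P Q (n3in K ρ V E lo t x)) := by
    rw [← T1_const P Q 2, ← T1_sub P Q (fun x => n1inc K ρ E lo t0 t1 x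
      + T2 P Q (n3inc K ρ V E lo t0 t1 x))]
    refine h.toEnv.T1_mono fun x _ => ?_
    obtain ⟨b, u⟩ := x
    cases b with
    | false => exact in_cell_P h hlo0 hlo ht0 h0 h1 hw u
    | true =>
      have q1 := fun y z => (in_cell_Q (K := K) (ρ := ρ) (V := V) (E := E) (lo := lo)
        (by omega) h0 h1 u y z).2
      have q2 := (in_cell_Q (K := K) (ρ := ρ) (V := V) (E := E) (lo := lo)
        (by omega) h0 h1 u (false, 0) (false, 0)).1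
      have q3 := T2_mono h.gP h.gQ q1
      linarith
  rw [T1_add P Q (n1inc K ρ E lo t0 t1), ← T3_eq, T1_add P Q (n1in K ρ E lo t), ← T3_eq] at main
  linarith

end

end MP61673a.Fin
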