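import Pool.Agent.Mu673.RowT
import Pool.Agent.Mu673.Cell3In

/-!
TYPED CELL ROWS: `row3t` for all depths `t0 ≤ t ≤ t1` of a cell; deep charge of an IN cell.
-/

set_option autoImplicit false

namespace MP61673a.Fin

open Finset MP61673a.W MP61673a.LiftW MP61673a.Mids MP61673a.Sos
open MP61673a.Lift hiding PP QQ

noncomputable section

/-! ### The deep charge of an IN cell -/

/-- deep right labels made by an IN stray and the point `x`, cell version -/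
def aRinc (D ρ E t1 : ℤ) (x : P3) : ℝ :=
  if x.1 = false then
    1 / 2 * (bo (0 < (t1 + x.2 - D + 0) / 2 ∧ ρ < (t1 + x.2 - D + 0) / 2)
      + bo (0 < (t1 + x.2 - D + E) / 2 ∧ ρ < (t1 + x.2 - D + E) / 2))
  else
    1 / 2 * omc t1 x.2 * (bo (0 < (t1 - x.2 + 0) / 2 ∧ ρ < (t1 - x.2 + 0) / 2)
      + bo (0 < (t1 - x.2 + E) / 2 ∧ ρ < (t1 - x.2 + E) / 2))

lemma aRin_le_aRinc {D ρ E t t1 : ℤ} (h1 : t ≤ t1) (x : P3) :
    aRin D ρ E t x ≤ aRinc D ρ E t1 x := by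
  unfold aRin aRinc
  split_ifs with c
  · have e1 := bo_mono (p := 0 < (t + x.2 - D + 0) / 2 ∧ ρ < (t + x.2 - D + 0) / 2)
      (q := 0 < (t1 + x.2 - D + 0) / 2 ∧ ρ < (t1 + x.2 - D + 0) / 2) (fun h => by omega)
    have e2 := bo_mono (p := 0 < (t + x.2 - D + E) / 2 ∧ ρ < (t + x.2 - D + E) / 2)
      (q := 0 < (t1 + x.2 - D + E) / 2 ∧ ρ < (t1 + x.2 - D + E) / 2) (fun h => by omega)
    linarith
  · have e1 := bo_mono (p := 0 < (t - x.2 + 0) / 2 ∧ ρ < (t - x.2 + 0) / 2)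
      (q := 0 < (t1 - x.2 + 0) / 2 ∧ ρ < (t1 - x.2 + 0) / 2) (fun h => by omega)
    have e2 := bo_mono (p := 0 < (t - x.2 + E) / 2 ∧ ρ < (t - x.2 + E) / 2)
      (q := 0 < (t1 - x.2 + E) / 2 ∧ ρ < (t1 - x.2 + E) / 2) (fun h => by omega)
    have e4 := omw_le_omc (u := x.2) h1
    have e6 := bo_nonneg (0 < (t - x.2 + 0) / 2 ∧ ρ < (t - x.2 + 0) / 2)
    have e7 := bo_nonneg (0 < (t - x.2 + E) / 2 ∧ ρ < (t - x.2 + E) / 2)
    have e8 := omc_nonneg t1 x.2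
    exact mul_le_mul (by linarith : 1 / 2 * omw t x.2 ≤ 1 / 2 * omc t1 x.2)
      (add_le_add e1 e2) (by linarith) (by linarith)

/-- the deep charge of an IN cell -/
def dchcin (P Q : WS) (D ρ E t0 t1 : ℤ) : ℝ :=
  max 0 (T1 P Q (aRinc D ρ E t1) - T1 P Q (bR t0)) * T2 P Q (kQP (D - ρ + 1))
    + max 0 (T1 P Q (aLc D ρ t0 t1) - T1 P Q (bL t0)) * T2 P Q (kPQ (D - ρ + 1))

theorem dchE_le_dchcin {P Q : WS} {D K V E N : ℤ} {ξR ξL : ℤ → ℝ} (h : Env P Q D K V E N ξR ξL)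
    {ρ t0 t t1 : ℤ} (hVt : t ≤ V) (h0 : t0 ≤ t) (h1 : t ≤ t1) :
    dchE P Q deeper D ρ V E t ≤ dchcin P Q D ρ E t0 t1 := by
  rw [dch_T_in hVt]
  unfold dchcin
  have a1 := h.T1_mono (c := aRin D ρ E t) (d := aRinc D ρ E t1) (fun x _ => aRin_le_aRinc h1 x)
  have a2 := h.T1_mono (c := bR t0) (d := bR t) (fun x _ => bR_mono h0 x)
  have a3 := h.T1_mono (c := aL D ρ t) (d := aLc D ρ t0 t1) (fun x _ => aL_le_aLc h0 h1 x)
  have a4 := h.T1_mono (c := bL t0) (d := bL t) (fun x _ => bL_mono h0 x)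
  have b1 : 0 ≤ T2 P Q (kQP (D - ρ + 1)) := by
    rw [T2_kQP]
    exact dd_nonneg h.gQ h.gP _
  have b2 : 0 ≤ T2 P Q (kPQ (D - ρ + 1)) := by
    rw [T2_kPQ]
    exact dd_nonneg h.gP h.gQ _
  exact add_le_add (mul_le_mul_of_nonneg_right (max_le_max le_rfl (by linarith)) b1)
    (mul_le_mul_of_nonneg_right (max_le_max le_rfl (by linarith)) b2)

/-- the deep charge of an IN cell in three-point form -/
def dk3cin (D ρ E t0 t1 : ℤ) (eR eL sR sL : ℝ) (x y z : P3) : ℝ :=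
  eR * ((aRinc D ρ E t1 x - sR * bR t0 x) * kQP (D - ρ + 1) y z)
    + eL * ((aLc D ρ t0 t1 x - sL * bL t0 x) * kPQ (D - ρ + 1) y z)

lemma T3_dk3cin (P Q : WS) (D ρ E t0 t1 : ℤ) (eR eL sR sL : ℝ) :
    T3 P Q (dk3cin D ρ E t0 t1 eR eL sR sL)
      = eR * ((T1 P Q (aRinc D ρ E t1) - sR * T1 P Q (bR t0)) * T2 P Q (kQP (D - ρ + 1)))
        + eL * ((T1 P Q (aLc D ρ t0 t1) - sL * T1 P Q (bL t0))
          * T2 P Q (kPQ (D - ρ + 1))) := by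
  unfold dk3cin
  rw [T3_add P Q (fun x y z => eR * ((aRinc D ρ E t1 x - sR * bR t0 x)
      * kQP (D - ρ + 1) y z)),
    T3_mul P Q eR, T3_mul P Q eL, T3_prod P Q (fun x => aRinc D ρ E t1 x - sR * bR t0 x),
    T3_prod P Q (fun x => aLc D ρ t0 t1 x - sL * bL t0 x), T1_sub, T1_sub, T1_mul, T1_mul]

/-- the deep charge of an IN cell, useless pairs dropped -/
theorem dchcin_drop {P Q : WS} {D K V E N : ℤ} {ξR ξL : ℤ → ℝ} (h : Env P Q D K V E N ξR ξL)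
    {ρ t0 t1 : ℤ} (h01 : t0 ≤ t1) :
    dchcin P Q D ρ E t0 t1 ≤ T3 P Q (dk3cin D ρ E t0 t1 1 1 0 0) := by
  rw [T3_dk3cin, zero_mul, zero_mul, sub_zero, sub_zero, one_mul, one_mul]
  unfold dchcin
  have a1 : 0 ≤ T1 P Q (aRinc D ρ E t1) := (h.T1_nonneg (c := aRin D ρ E t1)
    (fun x _ => aRin_nonneg _ _ _ _ _)).trans
    (h.T1_mono (c := aRin D ρ E t1) (d := aRinc D ρ E t1) (fun x _ => aRin_le_aRinc le_rfl x))
  have a2 := h.T1_nonneg (c := bR t0) (fun x _ => bR_nonneg _ _)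
  have a3 : 0 ≤ T1 P Q (aLc D ρ t0 t1) := (h.T1_nonneg (c := aL D ρ t0)
    (fun x _ => aL_nonneg _ _ _ _)).trans
    (h.T1_mono (c := aL D ρ t0) (d := aLc D ρ t0 t1) (fun x _ => aL_le_aLc le_rfl h01 x))
  have a4 := h.T1_nonneg (c := bL t0) (fun x _ => bL_nonneg _ _)
  have b1 : 0 ≤ T2 P Q (kQP (D - ρ + 1)) := by
    rw [T2_kQP]
    exact dd_nonneg h.gQ h.gP _
  have b2 : 0 ≤ T2 P Q (kPQ (D - ρ + 1)) := by
    rw [T2_kPQ]
    exact dd_nonneg h.gP h.gQ _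
  exact add_le_add (mul_le_mul_of_nonneg_right (max_le a1 (by linarith)) b1)
    (mul_le_mul_of_nonneg_right (max_le a3 (by linarith)) b2)

/-- the deep charge with one side charged exactly: `max 0 x ≤ e * x` in the two cases
`x < 0`, `e = 0` and `0 ≤ x`, `e = 1` -/
lemma max_case (x : ℝ) : (0 ≤ x ∧ max 0 x = 1 * x) ∨ (x < 0 ∧ max 0 x = 0 * x) := by
  by_cases h : 0 ≤ x
  · exact Or.inl ⟨h, by rw [max_eq_right h, one_mul]⟩
  · exact Or.inr ⟨lt_of_not_ge h, by rw [max_eq_left (le_of_not_ge h), zero_mul]⟩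

/-- OUT cell: the deep charge in four cases; `eR, eL` in `{0, 1}`, and the sign of the exact charge
is known (usable as an extra fact) -/
theorem dchc_cases {P Q : WS} {D K V E N : ℤ} {ξR ξL : ℤ → ℝ} (h : Env P Q D K V E N ξR ξL)
    {ρ t0 t1 : ℤ} :
    ∃ eR eL : ℝ, (eR = 0 ∨ eR = 1) ∧ (eL = 0 ∨ eL = 1)
      ∧ dchc P Q D ρ E t0 t1 ≤ T3 P Q (dk3c D ρ E t0 t1 eR eL 1 1)
      ∧ (eR = 1 → 0 ≤ T1 P Q (fun x => aRc D ρ E t0 t1 x - bR t0 x))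
      ∧ (eR = 0 → T1 P Q (fun x => aRc D ρ E t0 t1 x - bR t0 x) ≤ 0)
      ∧ (eL = 1 → 0 ≤ T1 P Q (fun x => aLc D ρ t0 t1 x - bL t0 x))
      ∧ (eL = 0 → T1 P Q (fun x => aLc D ρ t0 t1 x - bL t0 x) ≤ 0) := by
  have b1 : 0 ≤ T2 P Q (kQP (D - ρ + 1)) := by
    rw [T2_kQP]
    exact dd_nonneg h.gQ h.gP _
  have b2 : 0 ≤ T2 P Q (kPQ (D - ρ + 1)) := by
    rw [T2_kPQ]
    exact dd_nonneg h.gP h.gQ _
  rcases max_case (T1 P Q (aRc D ρ E t0 t1) - T1 P Q (bR t0)) with ⟨r1, r2⟩ | ⟨r1, r2⟩ <;>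
  rcases max_case (T1 P Q (aLc D ρ t0 t1) - T1 P Q (bL t0)) with ⟨l1, l2⟩ | ⟨l1, l2⟩
  · refine ⟨1, 1, Or.inr rfl, Or.inr rfl, ?_, fun _ => ?_, fun k => by norm_num at k,
      fun _ => ?_, fun k => by norm_num at k⟩
    · rw [T3_dk3c]
      unfold dchc
      rw [r2, l2]
      apply le_of_eq
      ring
    · rw [T1_sub]
      exact r1
    · rw [T1_sub]
      exact l1
  · refine ⟨1, 0, Or.inr rfl, Or.inl rfl, ?_, fun _ => ?_, fun k => by norm_num at k,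
      fun k => by norm_num at k, fun _ => ?_⟩
    · rw [T3_dk3c]
      unfold dchc
      rw [r2, l2]
      apply le_of_eq
      ring
    · rw [T1_sub]
      exact r1
    · rw [T1_sub]
      exact l1.le
  · refine ⟨0, 1, Or.inl rfl, Or.inr rfl, ?_, fun k => by norm_num at k, fun _ => ?_,
      fun _ => ?_, fun k => by norm_num at k⟩
    · rw [T3_dk3c]
      unfold dchc
      rw [r2, l2]
      apply le_of_eq
      ring
    · rw [T1_sub]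
      exact r1.le
    · rw [T1_sub]
      exact l1
  · refine ⟨0, 0, Or.inl rfl, Or.inl rfl, ?_, fun k => by norm_num at k, fun _ => ?_,
      fun k => by norm_num at k, fun _ => ?_⟩
    · rw [T3_dk3c]
      unfold dchc
      rw [r2, l2]
      apply le_of_eq
      ring
    · rw [T1_sub]
      exact r1.le
    · rw [T1_sub]
      exact l1.le

/-! ### Typed rows of a cell -/

variable {P Q : WS} {cl : P.ι ⊕ Q.ι → Bool} {lR lL : ℤ → Bool}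

/-- one-body part of a typed cell row -/
def m1tc (K ρ E t0 t1 : ℤ) (n1 : P3 → ℝ) (B X1 : P4 → ℝ) (x : P4) : ℝ :=
  n1 x.2 - kapE K ρ * fCc (4 * K + 1) K E t0 t1 x.2 + B x - X1 x

lemma m1tc_le {K ρ E t0 t t1 : ℤ} (hK : 0 ≤ K) (h0 : t0 ≤ t) (h1 : t ≤ t1) (n1 : P3 → ℝ)
    (B X1 : P4 → ℝ) (x : P4) : m1tc K ρ E t0 t1 n1 B X1 x ≤ m1t K ρ E t n1 B X1 x := by
  unfold m1tc m1t
  have := mul_le_mul_of_nonneg_left (fC_le_fCc (D := 4 * K + 1) (K := K) (E := E) h0 h1 x.2)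
    (kapE_nonneg (ρ := ρ) hK)
  linarith

/-- TYPED CELL ROW: the row of every depth `t0 ≤ t ≤ t1` from one pointwise inequality whose kernels
do not contain `t` (`hnet` from `net_out_cell_T` or `net_in_cell_T`, `hdk` from `dchE_le_dchc` or
`dchE_le_dchcin`) -/
theorem row3tc {K0 : ℤ} {f : ℝ} {D K ρ V E N : ℤ} {ξR ξL : ℤ → ℝ}
    (h : EnvS K0 f P Q D K ρ V E N ξR ξL) (ht : Typ P Q D E cl lR lL) {lo t0 t t1 : ℤ}
    (hNt : nearE D < t) (h0 : t0 ≤ t) (h1 : t ≤ t1)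
    {n1 : P3 → ℝ} {n3 : P3 → P3 → P3 → ℝ} {C1 : ℝ}
    (hnet : T1 P Q n1 + T3 P Q n3 - C1 * K ≤ netE P Q deeper D K (K - ρ) ρ ρ V E lo t)
    {γR γL : P4 → Bool → ℤ → ℝ} {hR mR hL mL : P4 → ℤ → ℝ}
    (pR : ∀ x : P4, InR D K x.2 → ∀ e s, 0 ≤ s → s < D → 0 ≤ γR x e s)
    (pL : ∀ x : P4, InR D K x.2 → ∀ e s, 0 ≤ s → s < D → 0 ≤ γL x e s)
    (qR : ∀ x : P4, InR D K x.2 → ∀ e s, 0 ≤ s → s < D → γR x e s ≤ hR x s)
    (qL : ∀ x : P4, InR D K x.2 → ∀ e s, 0 ≤ s → s < D → γL x e s ≤ hL x s)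
    (jR : ∀ x : P4, InR D K x.2 → Maj D E (hR x) (mR x))
    (jL : ∀ x : P4, InR D K x.2 → Maj D E (hL x) (mL x))
    {B : P4 → ℝ} (hB : ∀ x : P4, InR D K x.2 →
      B x ≤ ∑ s ∈ Ico 0 D, (γR x (lR s) s + γL x (lL s) s))
    {ν : P4 → P4 → ℝ} (hν : ∀ x y, 0 ≤ ν x y)
    {σ : Bool → P4 → P4 → ℝ} (hσ : ∀ b x y, 0 ≤ σ b x y)
    {o : P4 → ℝ} {o0 : ℝ} (ho : ∀ x : P4, InR D K x.2 → 0 ≤ o x)
    (ho1 : ∀ x : P4, InR D K x.2 → o x ≤ o0) (ho0 : 0 ≤ o0)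
    {dk : P3 → P3 → P3 → ℝ} (hdk : dchE P Q deeper D ρ V E t ≤ T3 P Q dk)
    {X1 : P4 → ℝ} {X3 : P4 → P4 → P4 → ℝ} {C0 : ℝ}
    (hX : -(C0 * K) ≤ U1 P Q cl X1 + U3 P Q cl X3)
    (hm : ∀ x : P4, InR D K x.2 → 0 ≤ m1tc K ρ E t0 t1 n1 B X1 x)
    {κ : Type} (I : Finset κ) (s : κ → P4 → P4 → ℝ) {c : ℝ} (hc : 0 ≤ c)
    (hpt : ∀ x y z : P4, InR D K x.2 → InR D K y.2 → InR D K z.2 →
      2 * sq3 I s x y z ≤ sym6 (fun x y z => m1tc K ρ E t0 t1 n1 B X1 x / (3 * D + 11)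
        + m3t K f n3 γR mR γL mL ν σ o dk X3 x y z) x y z + c / K)
    {C : ℝ} (hC : 3 * c + 143 * o0 + C0 + C1 ≤ C) :
    deepD P Q D K ρ V E (nearE D) (kapE K ρ) t - C * K
      ≤ netE P Q deeper D K (K - ρ) ρ ρ V E lo t := by
  have hK1 := h.hK1
  have hD := h.hD
  have hm' := fun x : P4 => m1tc_le (K := K) (ρ := ρ) (E := E) (by omega : 0 ≤ K) h0 h1 n1 B X1 x
  have hD0 : (0:ℝ) < 3 * D + 11 := by
    have : (0:ℤ) < 3 * D + 11 := by omega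
    exact_mod_cast this
  refine row3t h ht hNt hnet pR pL qR qL jR jL hB hν hσ ho ho1 ho0 hdk hX
    (fun x hx => (hm x hx).trans (hm' x)) I s hc (fun x y z hx hy hz => ?_) hC
  refine (hpt x y z hx hy hz).trans ?_
  have e : ∀ x : P4, m1tc K ρ E t0 t1 n1 B X1 x / (3 * D + 11)
      ≤ m1t K ρ E t n1 B X1 x / (3 * D + 11) := fun x =>
    div_le_div_of_nonneg_right (hm' x) hD0.le
  have e1 := e x
  have e2 := e y
  have e3 := e z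
  unfold sym6
  linarith

end

end MP61673a.Fin
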