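import Pool.Agent.Mu673.RowDefs
import Pool.Agent.Mu673.CellT

/-!
`RowCell` and `RowTail` from statements with two fixed depths `t0 ≤ t ≤ t1`, valid for any choice of
the reach of the doubled roles (`zE`) and of the threshold of the near strays (`nearE`).
-/

set_option autoImplicit false

namespace MP61673a.Fin

open Finset MP61673a.W MP61673a.LiftW MP61673a.Mids MP61673a.Sos
open MP61673a.Lift hiding PP QQ

noncomputable section

/-- the row at depth `t` -/
def RowAt (C : ℝ) (P Q : WS) (D K ρ V E lo t : ℤ) : Prop :=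
  deepD P Q D K ρ V E (nearE D) (kapE K ρ) t - C * K
    ≤ netE P Q deeper D K (K - ρ) ρ ρ V E lo t

/-- `t0` and `t1` are the first and the last depth of the cell `(a D / m, b D / m]` -/
def CellPos (m a b D t0 t1 : ℤ) : Prop :=
  a * D < m * t0 ∧ m * t0 ≤ a * D + m ∧ b * D < m * t1 + m ∧ m * t1 ≤ b * D

lemma cellPos_ex {m a b D τ : ℤ} (hm : 0 < m) (g4 : a * D < m * τ) (g5 : m * τ ≤ b * D) :
    ∃ t0 t1 : ℤ, CellPos m a b D t0 t1 ∧ t0 ≤ τ ∧ τ ≤ t1 := by
  have hm0 : m ≠ 0 := by omega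
  have i0 := Int.emod_add_mul_ediv (a * D) m
  have i1 := Int.emod_nonneg (a * D) hm0
  have i2 := Int.emod_lt_of_pos (a * D) hm
  have j0 := Int.emod_add_mul_ediv (b * D) m
  have j1 := Int.emod_nonneg (b * D) hm0
  have j2 := Int.emod_lt_of_pos (b * D) hm
  refine ⟨a * D / m + 1, b * D / m, ⟨?_, ?_, by linarith, by linarith⟩, ?_, ?_⟩
  · have : m * (a * D / m + 1) = m * (a * D / m) + m := by ring
    linarith
  · have : m * (a * D / m + 1) = m * (a * D / m) + m := by ring
    linarith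
  · by_contra hc
    push Not at hc
    have h1 : τ ≤ a * D / m := by omega
    have h2 := mul_le_mul_of_nonneg_left h1 hm.le
    linarith
  · by_contra hc
    push Not at hc
    have h1 : b * D / m + 1 ≤ τ := by omega
    have h2 := mul_le_mul_of_nonneg_left h1 hm.le
    have h3 : m * (b * D / m + 1) = m * (b * D / m) + m := by ring
    linarith

/-- a cell beyond the doubled roles. The positions of `t0`, `t1` are those of the ends of the cell up
to one unit -/
theorem rowCell_of {K0 : ℤ} {f C : ℝ} {N m a b : ℤ} (hm : 0 < m)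
    (ha : ∀ D : ℤ, 0 ≤ D → m * zE D ≤ a * D)
    (H : ∀ {P Q : WS} {D K ρ V E : ℤ} {ξR ξL : ℤ → ℝ}, EnvS K0 f P Q D K ρ V E N ξR ξL →
      ∀ lo t0 t1 : ℤ, 0 ≤ lo → lo ≤ 1 → V < t0 → CellPos m a b D t0 t1 →
        ∀ t, nearE D < t → t0 ≤ t → t ≤ t1 → RowAt C P Q D K ρ V E lo t) :
    RowCell K0 f C N m a b := by
  intro P Q D K ρ V E ξR ξL env lo τ g1 g2 g3 g4 g5 g6
  obtain ⟨t0, t1, p, q0, q1⟩ := cellPos_ex hm g4 g5
  have hV : V < t0 := by
    have e := env.eV
    have hD := env.hD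
    have hK := env.hK1
    have h2 := ha D (by omega)
    rw [← e] at h2
    by_contra hc
    push Not at hc
    have h3 := mul_le_mul_of_nonneg_left hc hm.le
    have h4 := p.1
    linarith
  exact H env lo t0 t1 g1 g2 hV p τ g3 q0 q1

/-- a cell with doubled roles -/
theorem rowCell_in_of {K0 : ℤ} {f C : ℝ} {N m a b : ℤ} (hm : 0 < m)
    (hb : ∀ D : ℤ, 40000 ≤ D → ∀ t : ℤ, m * t ≤ b * D → t ≤ zE D)
    (H : ∀ {P Q : WS} {D K ρ V E : ℤ} {ξR ξL : ℤ → ℝ}, EnvS K0 f P Q D K ρ V E N ξR ξL →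
      ∀ lo t0 t1 : ℤ, 0 ≤ lo → lo ≤ 1 → t1 ≤ V → CellPos m a b D t0 t1 →
        ∀ t, nearE D < t → t0 ≤ t → t ≤ t1 → RowAt C P Q D K ρ V E lo t) :
    RowCell K0 f C N m a b := by
  intro P Q D K ρ V E ξR ξL env lo τ g1 g2 g3 g4 g5 g6
  obtain ⟨t0, t1, p, q0, q1⟩ := cellPos_ex hm g4 g5
  have hD := env.hD
  have hK := env.hK1
  have hV : t1 ≤ V := by
    rw [env.eV]
    exact hb D (by omega) t1 p.2.2.2
  exact H env lo t0 t1 g1 g2 hV p τ g3 q0 q1

/-- the first cell starts at the threshold of the near strays: nothing to prove below it -/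
lemma rowCell_near {K0 : ℤ} {f C : ℝ} {N m b : ℤ}
    (hb : ∀ D : ℤ, 40000 ≤ D → ∀ t : ℤ, nearE D < t → b * D < m * t) :
    RowCell K0 f C N m 0 b := by
  intro P Q D K ρ V E ξR ξL env lo τ g1 g2 g3 g4 g5 g6
  have hD := env.hD
  have hK := env.hK1
  have := hb D (by omega) τ g3
  omega

/-- the last cell, up to the end of the support -/
theorem rowTail_of {K0 : ℤ} {f C : ℝ} {N m a : ℤ} (hm : 0 < m)
    (ha : ∀ D : ℤ, 0 ≤ D → m * zE D ≤ a * D)
    (H : ∀ {P Q : WS} {D K ρ V E : ℤ} {ξR ξL : ℤ → ℝ}, EnvS K0 f P Q D K ρ V E N ξR ξL →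
      ∀ lo t0 : ℤ, 0 ≤ lo → lo ≤ 1 → V < t0 →
        a * D < m * t0 → m * t0 ≤ a * D + m → t0 ≤ D + 11 →
        ∀ t, nearE D < t → t0 ≤ t → t ≤ D + 11 → RowAt C P Q D K ρ V E lo t) :
    RowTail K0 f C N m a := by
  intro P Q D K ρ V E ξR ξL env lo τ g1 g2 g3 g4 g6
  have k6 : τ ≤ D + 11 := by
    obtain ⟨q, hq, hf, _, hτ⟩ := g6
    have := env.lQ q hq hf
    omega
  obtain ⟨t0, t1, p, q0, q1⟩ := cellPos_ex (b := a + m * τ) hm g4 (by
    have hD := env.hD
    have hK := env.hK1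
    have h1 : m * τ * 1 ≤ m * τ * D :=
      mul_le_mul_of_nonneg_left (by omega) (mul_nonneg hm.le (by
        have : 0 ≤ nearE D := by
          unfold nearE
          omega
        omega))
    have h2 : 0 ≤ a * D := by
      have h3 := ha D (by omega)
      have h4 : 0 ≤ zE D := by
        have := env.hV
        rw [env.eV] at this
        omega
      have h5 := mul_nonneg hm.le h4
      linarith
    have h3 : (a + m * τ) * D = a * D + m * τ * D := by ring
    rw [h3]
    linarith)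
  have hV : V < t0 := by
    have e := env.eV
    have hD := env.hD
    have hK := env.hK1
    have h2 := ha D (by omega)
    rw [← e] at h2
    by_contra hc
    push Not at hc
    have h3 := mul_le_mul_of_nonneg_left hc hm.le
    have h4 := p.1
    linarith
  exact H env lo t0 g1 g2 hV p.1 p.2.1 (by omega) τ g3 q0 k6

/-- several cells of one cut -/
lemma rowTail_of_cells {K0 : ℤ} {f C : ℝ} {N m : ℤ} (c : ℕ → ℤ) (n : ℕ)
    (h : ∀ i < n, RowCell K0 f C N m (c i) (c (i + 1))) (ht : RowTail K0 f C N m (c n)) :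
    RowTail K0 f C N m (c 0) := by
  induction n with
  | zero => exact ht
  | succ n ih =>
    exact ih (fun i hi => h i (by omega)) (RowTail.cons (h n (by omega)) ht)

end

end MP61673a.Fin
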