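import Pool.Agent.Mu673.CellT

/-!
CELL KERNELS WITH FREE CUTS (helper28). The windows of the stray on its partner side and the gains of
the exotic pairs change role at `2 t0`, `t0 / 2`, `D - 2 t0`; by the price fact the role may change
at any integers `c1`, `c2`, `c3` close to these.
-/

set_option autoImplicit false

namespace MP61673a.Fin

open Finset MP61673a.W MP61673a.LiftW MP61673a.Mids MP61673a.Sos
open MP61673a.Lift hiding PP QQ

noncomputable section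

/-- one-body part of the net in the cell `[t0, t1]`, cuts `c1`, `c2`, `c3` -/
def n1x (K ρ E lo t0 t1 c1 c2 c3 : ℤ) (x : P3) : ℝ :=
  if x.1 = false then
    (K - ρ + 1) * (bo (lo - t0 ≤ x.2 ∧ x.2 < c1) + bo (lo - t0 ≤ x.2 ∧ x.2 < c2))
      - 1 / 2 * (bo (0 < (t1 + x.2 - (4 * K + 1) + 0) / 2)
          * kvr K ρ ((t1 + x.2 - (4 * K + 1) + 0) / 2)
        + bo (0 < (t1 + x.2 - (4 * K + 1) + E) / 2)
          * kvr K ρ ((t1 + x.2 - (4 * K + 1) + E) / 2))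
  else
    -(bo (1 ≤ x.2 + 2 * t1 ∧ x.2 ≤ c3) * kvr K ρ (x.2 + 2 * t1))
      - bo (1 ≤ 2 * x.2 + t1 - (4 * K + 1) ∧ 2 * x.2 + t0 - (4 * K + 1) ≤ 4 * K + 1)
        * kvr K ρ (2 * x.2 + t1 - (4 * K + 1))
      - 1 / 2 * omc t1 x.2 * (bo (0 < (t1 - x.2 + 0) / 2) * kvr K ρ ((t1 - x.2 + 0) / 2)
        + bo (0 < (t1 - x.2 + E) / 2) * kvr K ρ ((t1 - x.2 + E) / 2))

/-- three-body part of the net in the cell `[t0, t1]`, cuts `c1`, `c2`, `c3` -/
def n3x (K ρ V E lo t0 t1 c1 c2 c3 : ℤ) (x y z : P3) : ℝ :=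
  if x.1 = false then
    bo (lo - t0 ≤ x.2 ∧ x.2 < c1) * kNP V (1 + ρ) y z
      + bo (lo - t0 ≤ x.2 ∧ x.2 < c2) * kNQ V (1 + ρ) y z
      + bo (c1 ≤ x.2) * kPQ (2 * K + 1 + ρ + 2 * (x.2 - 2 * t0)) y z
      + bo (c2 ≤ x.2) * kQP (2 * K + 1 + ρ + 2 * (2 * x.2 - t0)) y z
      - 1 / 2 * (bo (0 < (t1 + x.2 - (4 * K + 1) + 0) / 2 ∧ ρ ≤ (t1 + x.2 - (4 * K + 1) + 0) / 2)
          * kNP V (thr K ρ ((t1 + x.2 - (4 * K + 1) + 0) / 2)) y z
        + bo (0 < (t1 + x.2 - (4 * K + 1) + E) / 2 ∧ ρ ≤ (t1 + x.2 - (4 * K + 1) + E) / 2)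
          * kNP V (thr K ρ ((t1 + x.2 - (4 * K + 1) + E) / 2)) y z)
  else
    -(bo ((1 ≤ x.2 + 2 * t1 ∧ x.2 ≤ c3) ∧ ρ ≤ x.2 + 2 * t1)
        * kNP V (thr K ρ (x.2 + 2 * t1)) y z)
      + bo (1 ≤ x.2 + 2 * t1 ∧ x.2 ≤ c3)
        * kPQ (2 * K + 1 + ρ + 2 * (4 * K + 1 - (x.2 + 2 * t0))) y z
      - bo ((1 ≤ 2 * x.2 + t1 - (4 * K + 1) ∧ 2 * x.2 + t0 - (4 * K + 1) ≤ 4 * K + 1)
          ∧ ρ ≤ 2 * x.2 + t1 - (4 * K + 1))
        * kNQ V (thr K ρ (2 * x.2 + t1 - (4 * K + 1))) y z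
      + bo (1 ≤ 2 * x.2 + t1 - (4 * K + 1) ∧ 2 * x.2 + t0 - (4 * K + 1) ≤ 4 * K + 1)
        * kQP (2 * K + 1 + ρ + 2 * (4 * K + 1 - (2 * x.2 + t0 - (4 * K + 1)))) y z
      - 1 / 2 * omc t1 x.2
        * (bo (0 < (t1 - x.2 + 0) / 2 ∧ ρ ≤ (t1 - x.2 + 0) / 2)
            * kNP V (thr K ρ ((t1 - x.2 + 0) / 2)) y z
          + bo (0 < (t1 - x.2 + E) / 2 ∧ ρ ≤ (t1 - x.2 + E) / 2)
            * kNP V (thr K ρ ((t1 - x.2 + E) / 2)) y z)

/-- admissible cuts -/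
structure Cuts (D t0 c1 c2 c3 : ℤ) : Prop where
  a1 : 2 * t0 - 2 ≤ c1
  b1 : c1 ≤ 2 * t0
  a2 : t0 - 2 ≤ 2 * c2
  b2 : 2 * c2 ≤ t0 + 1
  a3 : D ≤ c3 + 2 * t0
  b3 : c3 + 2 * t0 ≤ D + 2

/-- the cuts of a cell that starts at `a D / m` -/
lemma Cuts.of_cell {D t0 a m : ℤ} (hm : 0 < m) (h0 : a * D < m * t0) (h1 : m * t0 ≤ a * D + m) :
    Cuts D t0 (2 * a * D / m + 1) (a * D / (2 * m) + 1) (-((2 * a * D - m * D) / m) - 1) := by
  have e1 := Int.mul_ediv_add_emod (2 * a * D) m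
  have e2 := Int.emod_nonneg (2 * a * D) hm.ne'
  have e3 := Int.emod_lt_of_pos (2 * a * D) hm
  have f1 := Int.mul_ediv_add_emod (a * D) (2 * m)
  have f2 := Int.emod_nonneg (a * D) (by omega : (2 * m) ≠ 0)
  have f3 := Int.emod_lt_of_pos (a * D) (by omega : 0 < 2 * m)
  have g1 := Int.mul_ediv_add_emod (2 * a * D - m * D) m
  have g2 := Int.emod_nonneg (2 * a * D - m * D) hm.ne'
  have g3 := Int.emod_lt_of_pos (2 * a * D - m * D) hm
  set u := 2 * a * D / m with hu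
  set v := a * D / (2 * m) with hv
  set w := (2 * a * D - m * D) / m with hw
  refine ⟨?_, ?_, ?_, ?_, ?_, ?_⟩
  · have : m * (2 * t0 - 2) < m * (u + 1) := by nlinarith
    have := lt_of_mul_lt_mul_left this hm.le
    omega
  · have : m * u < m * (2 * t0) := by nlinarith
    have := lt_of_mul_lt_mul_left this hm.le
    omega
  · have : m * (t0 - 1) < m * (2 * v + 2) := by nlinarith
    have := lt_of_mul_lt_mul_left this hm.le
    omega
  · have : m * (2 * v) < m * t0 := by nlinarith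
    have := lt_of_mul_lt_mul_left this hm.le
    omega
  · have : m * (D + w) < m * (2 * t0) := by nlinarith
    have := lt_of_mul_lt_mul_left this hm.le
    omega
  · have : m * (2 * t0 - 2) < m * (D + w + 1) := by nlinarith
    have := lt_of_mul_lt_mul_left this hm.le
    omega

lemma bo_and (p q : Prop) [Decidable p] [Decidable q] : bo (p ∧ q) = bo p * bo q := by
  by_cases hp : p
  · by_cases hq : q
    · rw [bo_true ⟨hp, hq⟩, bo_true hp, bo_true hq, one_mul]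
    · rw [bo_false (fun h => hq h.2), bo_false hq, mul_zero]
  · rw [bo_false (fun h => hp h.1), bo_false hp, zero_mul]

/-- the kernels with cuts are at most the cell kernels, up to one for every point -/
theorem cut_le {P Q : WS} (gP : Good P) (gQ : Good Q) {D K ρ V E lo t0 t1 c1 c2 c3 : ℤ}
    (dP : Dbl P V) (dQ : Dbl Q V) (hD : D = 4 * K + 1) (hρ0 : 0 ≤ ρ) (hρK : ρ ≤ K) (hlo : lo ≤ 1)
    (ht0 : 2 ≤ t0) (h01 : t0 ≤ t1) (hc : Cuts D t0 c1 c2 c3)
    (px : dd P Q (2 * K + 1 + ρ - 4) ≤ K - ρ + 1 + nn P (1 + ρ) + 1)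
    (px' : dd Q P (2 * K + 1 + ρ - 4) ≤ K - ρ + 1 + nn Q (1 + ρ) + 1) :
    T1 P Q (n1x K ρ E lo t0 t1 c1 c2 c3) + T3 P Q (n3x K ρ V E lo t0 t1 c1 c2 c3)
      ≤ T1 P Q (n1c K ρ E lo t0 t1) + T3 P Q (n3c K ρ V E lo t0 t1)
        + 2 * (mass P + mass Q) := by
  have r0 : ∀ (f : P3 → ℝ) (g : P3 → P3 → P3 → ℝ), T1 P Q f + T3 P Q g
      = ∑ a ∈ P.S, P.f a * (f (false, P.u a) + T2 P Q (g (false, P.u a)))
        + ∑ b ∈ Q.S, Q.f b * (f (true, Q.u b) + T2 P Q (g (true, Q.u b))) := by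
    intro f g
    rw [T3_eq, ← T1_add, T1_eq]
  rw [r0, r0]
  have a1 := hc.a1
  have b1 := hc.b1
  have a2 := hc.a2
  have b2 := hc.b2
  have a3 := hc.a3
  have b3 := hc.b3
  have keyP : ∀ u : ℤ, n1x K ρ E lo t0 t1 c1 c2 c3 (false, u)
      + T2 P Q (n3x K ρ V E lo t0 t1 c1 c2 c3 (false, u))
      ≤ n1c K ρ E lo t0 t1 (false, u) + T2 P Q (n3c K ρ V E lo t0 t1 (false, u)) + 2 := by
    intro u
    set β1 := bo (c1 ≤ u ∧ u < 2 * t0) with hβ1
    set β2 := bo (c2 ≤ u ∧ 2 * u < t0) with hβ2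
    have w1 : bo (lo - t0 ≤ u ∧ u < 2 * t0) = bo (lo - t0 ≤ u ∧ u < c1) + β1 := by
      rw [hβ1]
      by_cases c : c1 ≤ u
      · rw [bo_false (p := lo - t0 ≤ u ∧ u < c1) (by omega)]
        by_cases c' : u < 2 * t0
        · rw [bo_true ⟨by omega, c'⟩, bo_true ⟨c, c'⟩]
          ring
        · rw [bo_false (fun h => c' h.2), bo_false (fun h => c' h.2)]
          ring
      · rw [bo_false (p := c1 ≤ u ∧ u < 2 * t0) (fun h => c h.1), add_zero]
        by_cases c' : lo - t0 ≤ u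
        · rw [bo_true ⟨c', by omega⟩, bo_true ⟨c', by omega⟩]
        · rw [bo_false (fun h => c' h.1), bo_false (fun h => c' h.1)]
    have w2 : bo (lo - t0 ≤ u ∧ 2 * u < t0) = bo (lo - t0 ≤ u ∧ u < c2) + β2 := by
      rw [hβ2]
      by_cases c : c2 ≤ u
      · rw [bo_false (p := lo - t0 ≤ u ∧ u < c2) (by omega)]
        by_cases c' : 2 * u < t0
        · rw [bo_true ⟨by omega, c'⟩, bo_true ⟨c, c'⟩]
          ring
        · rw [bo_false (fun h => c' h.2), bo_false (fun h => c' h.2)]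
          ring
      · rw [bo_false (p := c2 ≤ u ∧ 2 * u < t0) (fun h => c h.1), add_zero]
        by_cases c' : lo - t0 ≤ u
        · rw [bo_true ⟨c', by omega⟩, bo_true ⟨c', by omega⟩]
        · rw [bo_false (fun h => c' h.1), bo_false (fun h => c' h.1)]
    have w3 : bo (c1 ≤ u) = bo (2 * t0 ≤ u) + β1 := by
      rw [hβ1]
      by_cases c : c1 ≤ u
      · by_cases c' : u < 2 * t0
        · rw [bo_true c, bo_false (by omega), bo_true ⟨c, c'⟩]
          ring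
        · rw [bo_true c, bo_true (by omega), bo_false (fun h => c' h.2)]
          ring
      · rw [bo_false c, bo_false (by omega), bo_false (fun h => c h.1)]
        ring
    have w4 : bo (c2 ≤ u) = bo (t0 ≤ 2 * u) + β2 := by
      rw [hβ2]
      by_cases c : c2 ≤ u
      · by_cases c' : 2 * u < t0
        · rw [bo_true c, bo_false (by omega), bo_true ⟨c, c'⟩]
          ring
        · rw [bo_true c, bo_true (by omega), bo_false (fun h => c' h.2)]
          ring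
      · rw [bo_false c, bo_false (by omega), bo_false (fun h => c h.1)]
        ring
    have e1 : n1x K ρ E lo t0 t1 c1 c2 c3 (false, u)
        = n1c K ρ E lo t0 t1 (false, u) - (K - ρ + 1) * (β1 + β2) := by
      unfold n1x n1c
      rw [if_pos rfl, if_pos rfl, w1, w2]
      ring
    have e3 : n3x K ρ V E lo t0 t1 c1 c2 c3 (false, u) = fun y z =>
        n3c K ρ V E lo t0 t1 (false, u) y z
          + (β1 * (kPQ (2 * K + 1 + ρ + 2 * (u - 2 * t0)) y z - kNP V (1 + ρ) y z)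
          + β2 * (kQP (2 * K + 1 + ρ + 2 * (2 * u - t0)) y z - kNQ V (1 + ρ) y z)) := by
      funext y z
      unfold n3x n3c
      rw [if_pos rfl, if_pos rfl, w1, w2, w3, w4]
      ring
    rw [e1, e3, T2_add P Q (n3c K ρ V E lo t0 t1 (false, u)),
      T2_add P Q (fun y z => β1 * (kPQ (2 * K + 1 + ρ + 2 * (u - 2 * t0)) y z
        - kNP V (1 + ρ) y z)), T2_mul P Q β1, T2_mul P Q β2, T2_sub, T2_sub, T2_kPQ, T2_kQP,
      T2_kNP dP, T2_kNQ dQ]
    have q1 : β1 * (dd P Q (2 * K + 1 + ρ + 2 * (u - 2 * t0)) - nn P (1 + ρ) - (K - ρ + 1))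
        ≤ 1 := by
      rw [hβ1]
      by_cases c : c1 ≤ u ∧ u < 2 * t0
      · rw [bo_true c]
        have := (dd_anti gP gQ (x := 2 * K + 1 + ρ - 4)
          (y := 2 * K + 1 + ρ + 2 * (u - 2 * t0)) (by omega)).trans px
        linarith
      · rw [bo_false c]
        linarith
    have q2 : β2 * (dd Q P (2 * K + 1 + ρ + 2 * (2 * u - t0)) - nn Q (1 + ρ) - (K - ρ + 1))
        ≤ 1 := by
      rw [hβ2]
      by_cases c : c2 ≤ u ∧ 2 * u < t0
      · rw [bo_true c]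
        have := (dd_anti gQ gP (x := 2 * K + 1 + ρ - 4)
          (y := 2 * K + 1 + ρ + 2 * (2 * u - t0)) (by omega)).trans px'
        linarith
      · rw [bo_false c]
        linarith
    linarith
  have keyQ : ∀ u : ℤ, n1x K ρ E lo t0 t1 c1 c2 c3 (true, u)
      + T2 P Q (n3x K ρ V E lo t0 t1 c1 c2 c3 (true, u))
      ≤ n1c K ρ E lo t0 t1 (true, u) + T2 P Q (n3c K ρ V E lo t0 t1 (true, u)) + 2 := by
    intro u
    set β := bo ((1 ≤ u + 2 * t1 ∧ u ≤ c3) ∧ D < u + 2 * t0) with hβ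
    have w1 : bo (1 ≤ u + 2 * t1 ∧ u ≤ c3) = bo (1 ≤ u + 2 * t1 ∧ u + 2 * t0 ≤ 4 * K + 1) + β := by
      rw [hβ]
      by_cases c : 1 ≤ u + 2 * t1
      · by_cases c' : u + 2 * t0 ≤ 4 * K + 1
        · rw [bo_true ⟨c, by omega⟩, bo_true ⟨c, c'⟩, bo_false (by omega)]
          ring
        · by_cases c'' : u ≤ c3
          · rw [bo_true ⟨c, c''⟩, bo_false (fun h => c' h.2), bo_true ⟨⟨c, c''⟩, by omega⟩]
            ring
          · rw [bo_false (fun h => c'' h.2), bo_false (fun h => c' h.2),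
              bo_false (fun h => c'' h.1.2)]
            ring
      · rw [bo_false (fun h => c h.1), bo_false (fun h => c h.1), bo_false (fun h => c h.1.1)]
        ring
    have hr : (1 ≤ u + 2 * t1 ∧ u ≤ c3) ∧ D < u + 2 * t0 → ρ ≤ u + 2 * t1 := fun h => by omega
    have w2 : bo ((1 ≤ u + 2 * t1 ∧ u ≤ c3) ∧ ρ ≤ u + 2 * t1)
        = bo ((1 ≤ u + 2 * t1 ∧ u + 2 * t0 ≤ 4 * K + 1) ∧ ρ ≤ u + 2 * t1) + β := by
      rw [bo_and, bo_and (1 ≤ u + 2 * t1 ∧ u + 2 * t0 ≤ 4 * K + 1), w1, add_mul]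
      congr 1
      rw [hβ]
      by_cases c : (1 ≤ u + 2 * t1 ∧ u ≤ c3) ∧ D < u + 2 * t0
      · rw [bo_true (hr c), mul_one]
      · rw [bo_false c, zero_mul]
    have e1 : n1x K ρ E lo t0 t1 c1 c2 c3 (true, u)
        = n1c K ρ E lo t0 t1 (true, u) - β * kvr K ρ (u + 2 * t1) := by
      unfold n1x n1c
      rw [if_neg (by simp), if_neg (by simp), w1]
      ring
    have e3 : n3x K ρ V E lo t0 t1 c1 c2 c3 (true, u) = fun y z =>
        n3c K ρ V E lo t0 t1 (true, u) y z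
          + β * (kPQ (2 * K + 1 + ρ + 2 * (4 * K + 1 - (u + 2 * t0))) y z
            - kNP V (thr K ρ (u + 2 * t1)) y z) := by
      funext y z
      unfold n3x n3c
      rw [if_neg (by simp), if_neg (by simp), w1, w2]
      ring
    rw [e1, e3, T2_add P Q (n3c K ρ V E lo t0 t1 (true, u)), T2_mul P Q β, T2_sub, T2_kPQ,
      T2_kNP dP]
    have q1 : β * (dd P Q (2 * K + 1 + ρ + 2 * (4 * K + 1 - (u + 2 * t0)))
        - nn P (thr K ρ (u + 2 * t1)) - kvr K ρ (u + 2 * t1)) ≤ 1 := by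
      rw [hβ]
      by_cases c : (1 ≤ u + 2 * t1 ∧ u ≤ c3) ∧ D < u + 2 * t0
      · rw [bo_true c]
        have i1 := (dd_anti gP gQ (x := 2 * K + 1 + ρ - 4)
          (y := 2 * K + 1 + ρ + 2 * (4 * K + 1 - (u + 2 * t0))) (by omega)).trans px
        have i2 : thr K ρ (u + 2 * t1) = 1 + ρ := by
          unfold thr
          omega
        have i3 : kvr K ρ (u + 2 * t1) = K - ρ + 1 := by
          unfold kvr
          have : kv K ρ (u + 2 * t1) = K - ρ + 1 := by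
            unfold kv
            omega
          rw [this]
          push_cast
          ring
        rw [i2, i3]
        linarith
      · rw [bo_false c]
        linarith
    linarith
  have sP : ∑ a ∈ P.S, P.f a * (n1x K ρ E lo t0 t1 c1 c2 c3 (false, P.u a)
        + T2 P Q (n3x K ρ V E lo t0 t1 c1 c2 c3 (false, P.u a)))
      ≤ ∑ a ∈ P.S, P.f a * (n1c K ρ E lo t0 t1 (false, P.u a)
        + T2 P Q (n3c K ρ V E lo t0 t1 (false, P.u a))) + 2 * mass P := by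
    unfold mass
    rw [mul_sum, ← sum_add_distrib]
    refine sum_le_sum fun a ha => ?_
    have := mul_le_mul_of_nonneg_left (keyP (P.u a)) (gP.f_nonneg a ha)
    linarith
  have sQ : ∑ b ∈ Q.S, Q.f b * (n1x K ρ E lo t0 t1 c1 c2 c3 (true, Q.u b)
        + T2 P Q (n3x K ρ V E lo t0 t1 c1 c2 c3 (true, Q.u b)))
      ≤ ∑ b ∈ Q.S, Q.f b * (n1c K ρ E lo t0 t1 (true, Q.u b)
        + T2 P Q (n3c K ρ V E lo t0 t1 (true, Q.u b))) + 2 * mass Q := by
    unfold mass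
    rw [mul_sum, ← sum_add_distrib]
    refine sum_le_sum fun b hb => ?_
    have := mul_le_mul_of_nonneg_left (keyQ (Q.u b)) (gQ.f_nonneg b hb)
    linarith
  linarith

/-- THE NET OF AN OUT STRAY AT EVERY DEPTH OF THE CELL, free cuts -/
theorem net_out_cell_X {K0 : ℤ} {f : ℝ} {P Q : WS} {D K ρ V E N : ℤ} {ξR ξL : ℤ → ℝ}
    (h : EnvS K0 f P Q D K ρ V E N ξR ξL) {lo t0 t t1 c1 c2 c3 : ℤ} (hlo : lo ≤ 1) (hVt : V < t0)
    (h0 : t0 ≤ t) (h1 : t ≤ t1) (hc : Cuts D t0 c1 c2 c3) :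
    T1 P Q (n1x K ρ E lo t0 t1 c1 c2 c3) + T3 P Q (n3x K ρ V E lo t0 t1 c1 c2 c3) - 4 * K
      ≤ netE P Q deeper D K (K - ρ) ρ ρ V E lo t := by
  have hρV := h.hρV
  have hρ1 := h.hρ
  have hρK := h.hρK
  have hD := h.hD
  have hV0 := h.hV
  have hK1 := h.hK1
  have hKr : (10000:ℝ) ≤ K := by exact_mod_cast h.hK1
  have hDr : (D:ℝ) = 4 * K + 1 := by exact_mod_cast hD
  have mP := mass_nonneg h.gP
  have mQ := mass_nonneg h.gQ
  have hS := h.sq_le
  have hSK : mass P + mass Q ≤ K := by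
    have h1 : (mass P + mass Q) ^ 2 ≤ (K:ℝ) ^ 2 := by
      rw [hDr] at hS
      nlinarith
    by_contra h2
    push Not at h2
    nlinarith
  have n0 : 1 ≤ nearE D := by
    unfold nearE
    omega
  have px1 : dd P Q (2 * K + 1 + ρ - 4) ≤ K - ρ + 1 + nn P (1 + ρ) + 1 :=
    (dd_anti h.gP h.gQ (by omega)).trans h.pxR
  have px2 : dd Q P (2 * K + 1 + ρ - 4) ≤ K - ρ + 1 + nn Q (1 + ρ) + 1 :=
    (dd_anti h.gQ h.gP (by omega)).trans h.pxL
  have k := cut_le h.gP h.gQ (E := E) (lo := lo) (t1 := t1) h.dP h.dQ hD (by omega) (by omega) hlo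
    (by omega) (by omega) hc px1 px2
  have net := net_out_cell_T h hlo hVt h0 h1
  linarith

end

end MP61673a.Fin
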