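import Pool.Agent.Mu673.FinNets

/-!
The signed deep inequality: `N_P ≥ 1/4`, `N_Q ≥ 1/4` may fail because of exotic labels; the
defect, times the number of deep labels, is charged to the strays.
-/

namespace MP61673a.Fin

open Finset MP61673a.W MP61673a.LiftW MP61673a.Mids
open MP61673a.Lift hiding PP QQ

noncomputable section

/-- the constant function one -/
def one1 : ℤ → ℝ := fun _ => 1

/-- partners `q` of an undoubled centre at depth `t` of the own side with a label in the window -/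
def exn (Q : WS) (D V t : ℤ) : ℝ :=
  if V < t then ∑ q ∈ Q.S, Q.f q * (if 1 ≤ Q.u q + 2 * t ∧ Q.u q + 2 * t ≤ D then 1 else 0) else 0

/-- centres `q` of the own side whose label with the stray at depth `t` lies on the other side -/
def r3n (Q : WS) (D t : ℤ) : ℝ :=
  ∑ q ∈ Q.S, Q.f q * (if 0 ≤ 2 * D - 2 * Q.u q - t ∧ 2 * D - 2 * Q.u q - t < D then 1 else 0)

/-- mass of the positions `0 ≤ u`, `2 u < t` -/
def lo2 (P : WS) (t : ℤ) : ℝ := ∑ a ∈ P.S, if 0 ≤ P.u a ∧ 2 * P.u a < t then P.f a else 0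

/-- deep charge of a stray at depth `t` of `Q` -/
def dch (P Q : WS) (ω : ℤ → ℤ → ℝ) (D V E t : ℤ) : ℝ :=
  max 0 (mid P Q D E one1 ω t + exn Q D V t - lt P (2 * t)) * dd Q P D
    + max 0 (r3n Q D t - lo2 P t) * dd P Q D

/-- useless pairs of one side, by strays -/
lemma cc0_ge {P Q : WS} (hP : Good P) (hQ : Good Q) :
    ∑ b ∈ Q.S, Q.f b * (if Q.u b < 0 then lt P (2 * -Q.u b) else 0)
      + ∑ a ∈ P.S, P.f a * (if P.u a < 0 then lo2 Q (-P.u a) else 0) ≤ cc P Q 0 := by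
  have h1 : ∑ b ∈ Q.S, Q.f b * (if Q.u b < 0 then lt P (2 * -Q.u b) else 0)
      = ∑ a ∈ P.S, ∑ b ∈ Q.S, (if Q.u b < 0 ∧ P.u a + 2 * Q.u b < 0 then
          P.f a * Q.f b else 0) := by
    rw [sum_comm]
    refine sum_congr rfl fun b _ => ?_
    unfold lt
    by_cases c : Q.u b < 0
    · rw [if_pos c, mul_sum]
      refine sum_congr rfl fun a _ => ?_
      by_cases c2 : P.u a + 2 * Q.u b < 0
      · rw [if_pos (by omega), if_pos ⟨c, c2⟩, mul_comm]
      · rw [if_neg (by omega), if_neg (fun h => c2 h.2), mul_zero]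
    · rw [if_neg c, mul_zero]
      symm
      exact sum_eq_zero fun a _ => if_neg (fun h => c h.1)
  have h2 : ∑ a ∈ P.S, P.f a * (if P.u a < 0 then lo2 Q (-P.u a) else 0)
      = ∑ a ∈ P.S, ∑ b ∈ Q.S, (if 0 ≤ Q.u b ∧ P.u a + 2 * Q.u b < 0 then
          P.f a * Q.f b else 0) := by
    refine sum_congr rfl fun a _ => ?_
    unfold lo2
    by_cases c : P.u a < 0
    · rw [if_pos c, mul_sum]
      refine sum_congr rfl fun b _ => ?_
      by_cases c2 : 0 ≤ Q.u b ∧ P.u a + 2 * Q.u b < 0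
      · rw [if_pos (by omega), if_pos c2]
      · rw [if_neg (by omega), if_neg c2, mul_zero]
    · rw [if_neg c, mul_zero]
      symm
      exact sum_eq_zero fun b _ => if_neg (by omega)
  rw [h1, h2]
  unfold cc
  simp only [← sum_add_distrib]
  refine sum_le_sum fun a ha => sum_le_sum fun b hb => ?_
  have h3 := mul_nonneg (hP.f_nonneg a ha) (hQ.f_nonneg b hb)
  by_cases c : P.u a + 2 * Q.u b < 0
  · rw [if_pos c]
    by_cases c2 : Q.u b < 0
    · rw [if_pos ⟨c2, c⟩, if_neg (by omega)]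
      linarith
    · rw [if_neg (fun h => c2 h.1), if_pos ⟨by omega, c⟩]
      linarith
  · rw [if_neg c, if_neg (fun h => c h.2), if_neg (fun h => c h.2)]
    linarith

lemma sum_qc_one {Q : WS} {V : ℤ} (hV : 0 ≤ V) (dQ : Dbl Q V) (D : ℤ) :
    ∑ s ∈ Ico 0 D, qc Q (D - s) * one1 s
      = ∑ b ∈ Q.S, Q.f b * (if Q.u b < 0 then exn Q D V (-Q.u b) else 0) := by
  have h2 : ∀ s ∈ Ico 0 D, qc Q (D - s) * one1 s
      = ∑ q ∈ Q.S, ∑ b ∈ Q.S, (if s = D - (Q.u q - 2 * Q.u b) then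
        Q.f q * (Q.f b - Q.f1 b) else 0) := by
    intro s _
    unfold qc one1
    rw [mul_one]
    refine sum_congr rfl fun q _ => ?_
    refine sum_congr rfl fun b _ => ?_
    by_cases c : s = D - (Q.u q - 2 * Q.u b)
    · rw [if_pos c, if_pos (by omega)]
    · rw [if_neg c, if_neg (by omega)]
  have h4 : ∀ F : ℤ → Q.ι → Q.ι → ℝ, ∑ s ∈ Ico 0 D, ∑ q ∈ Q.S, ∑ b ∈ Q.S, F s q b
      = ∑ b ∈ Q.S, ∑ q ∈ Q.S, ∑ s ∈ Ico 0 D, F s q b := by
    intro F
    rw [sum_comm]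
    have h5 : ∀ q ∈ Q.S, ∑ s ∈ Ico 0 D, ∑ b ∈ Q.S, F s q b
        = ∑ b ∈ Q.S, ∑ s ∈ Ico 0 D, F s q b := fun q _ => sum_comm
    rw [sum_congr rfl h5, sum_comm]
  rw [sum_congr rfl h2, h4]
  refine sum_congr rfl fun b hb => ?_
  have h3 : ∀ q ∈ Q.S, ∑ s ∈ Ico 0 D, (if s = D - (Q.u q - 2 * Q.u b) then
        Q.f q * (Q.f b - Q.f1 b) else 0)
      = (if 1 ≤ Q.u q - 2 * Q.u b ∧ Q.u q - 2 * Q.u b ≤ D then
        Q.f q * (Q.f b - Q.f1 b) else 0) := by
    intro q _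
    rw [sum_ite_eq' (Ico 0 D) (D - (Q.u q - 2 * Q.u b))
      (fun _ => Q.f q * (Q.f b - Q.f1 b))]
    simp only [mem_Ico]
    by_cases c : 1 ≤ Q.u q - 2 * Q.u b ∧ Q.u q - 2 * Q.u b ≤ D
    · rw [if_pos (by omega), if_pos c]
    · rw [if_neg (by omega), if_neg c]
  rw [sum_congr rfl h3, dQ b hb]
  by_cases c1 : -V ≤ Q.u b
  · have e1 : (if Q.u b < 0 then exn Q D V (-Q.u b) else 0) = 0 := by
      unfold exn
      rw [if_neg (show ¬ V < -Q.u b by omega)]
      simp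
    rw [e1, mul_zero]
    refine sum_eq_zero fun q _ => ?_
    rw [if_pos c1]
    simp
  · have c2 : Q.u b < 0 := by omega
    unfold exn
    rw [if_pos c2, if_pos (show V < -Q.u b by omega), mul_sum]
    refine sum_congr rfl fun q _ => ?_
    rw [if_neg c1, show Q.u q + 2 * -Q.u b = Q.u q - 2 * Q.u b by ring]
    split_ifs <;> ring

lemma xx_one {Q : WS} {D : ℤ} (hu : ∀ b ∈ Q.S, Q.f b ≠ 0 → 2 * Q.u b ≤ D) :
    xx Q D one1 = ∑ b ∈ Q.S, Q.f b * (if Q.u b < 0 then r3n Q D (-Q.u b) else 0) := by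
  unfold xx r3n one1
  refine sum_congr rfl fun b hb => ?_
  by_cases c : Q.u b < 0
  · rw [if_pos c, mul_sum]
    refine sum_congr rfl fun q _ => ?_
    rw [show 2 * D - (2 * Q.u q - Q.u b) = 2 * D - 2 * Q.u q - -Q.u b by ring]
    split_ifs <;> ring
  · rw [if_neg c, mul_zero]
    refine sum_eq_zero fun q hq => ?_
    by_cases h0 : Q.f q = 0
    · rw [h0]
      simp
    · have := hu q hq h0
      rw [if_neg]
      omega

/-- one side: the number of near pairs from coverage, with the exotic labels charged to strays -/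
lemma nn2_ge {P Q : WS} (hP : Good P) (hQ : Good Q) {ω : ℤ → ℤ → ℝ} {D K V E : ℤ} (hD : D = 4 * K + 1)
    (hK : 1 ≤ K) {ξ : ℤ → ℝ} (hc : Covers P Q D ξ) (hξ0 : 0 ≤ ξ (D - 1))
    (hξ : ∑ s ∈ Ico 0 D, ξ s
      ≤ ∑ b ∈ Q.S, Q.f b * (if Q.u b < 0 then
          mid P Q D E one1 ω (-Q.u b) + exn Q D V (-Q.u b) else 0)
        + ∑ a ∈ P.S, P.f a * (if P.u a < 0 then r3n P D (-P.u a) else 0))
    (hm : mass P * mass Q ≤ 3 * K + 15 / 4) :
    -4 - ∑ b ∈ Q.S, Q.f b * (if Q.u b < 0 then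
          max 0 (mid P Q D E one1 ω (-Q.u b) + exn Q D V (-Q.u b) - lt P (2 * -Q.u b)) else 0)
      - ∑ a ∈ P.S, P.f a * (if P.u a < 0 then
          max 0 (r3n P D (-P.u a) - lo2 Q (-P.u a)) else 0) ≤ nn Q 2 - K := by
  have h1 := nn_ge hc (show (0:ℤ) ≤ 1 by norm_num) (show (1:ℤ) ≤ D by omega)
  have h2 := cc0_ge hP hQ
  have h3 := dd_nonneg hP hQ (D - 1)
  have h4 := nn_nonneg hQ (D + 1)
  have h5 : ext ξ (D - 1) + ξ (D - 1) = ∑ s ∈ Ico 0 D, ξ s := by
    have := ext_succ ξ (x := D - 1) (by omega)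
    rw [show D - 1 + 1 = D by ring] at this
    rw [← this]
    rfl
  have h6 : (D : ℝ) = 4 * K + 1 := by exact_mod_cast hD
  rw [show (1:ℤ) + 1 = 2 by norm_num, Int.cast_one] at h1
  have h7 : ∑ b ∈ Q.S, Q.f b * (if Q.u b < 0 then
          mid P Q D E one1 ω (-Q.u b) + exn Q D V (-Q.u b) else 0)
        - ∑ b ∈ Q.S, Q.f b * (if Q.u b < 0 then lt P (2 * -Q.u b) else 0)
      ≤ ∑ b ∈ Q.S, Q.f b * (if Q.u b < 0 then
          max 0 (mid P Q D E one1 ω (-Q.u b) + exn Q D V (-Q.u b) - lt P (2 * -Q.u b)) else 0) := by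
    rw [← sum_sub_distrib]
    refine sum_le_sum fun b hb => ?_
    rw [← mul_sub]
    refine mul_le_mul_of_nonneg_left ?_ (hQ.f_nonneg b hb)
    by_cases c : Q.u b < 0
    · simp only [if_pos c]
      exact le_max_right _ _
    · simp only [if_neg c]
      norm_num
  have h8 : ∑ a ∈ P.S, P.f a * (if P.u a < 0 then r3n P D (-P.u a) else 0)
        - ∑ a ∈ P.S, P.f a * (if P.u a < 0 then lo2 Q (-P.u a) else 0)
      ≤ ∑ a ∈ P.S, P.f a * (if P.u a < 0 then
          max 0 (r3n P D (-P.u a) - lo2 Q (-P.u a)) else 0) := by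
    rw [← sum_sub_distrib]
    refine sum_le_sum fun b hb => ?_
    rw [← mul_sub]
    refine mul_le_mul_of_nonneg_left ?_ (hP.f_nonneg b hb)
    by_cases c : P.u b < 0
    · simp only [if_pos c]
      exact le_max_right _ _
    · simp only [if_neg c]
      norm_num
  linarith

lemma strayC_mul (Q : WS) (c : ℤ → ℝ) (x : ℝ) :
    strayC Q (fun t => c t * x) = strayC Q c * x := by
  unfold strayC
  rw [sum_mul]
  refine sum_congr rfl fun b _ => ?_
  split_ifs <;> ring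

lemma strayC_add (Q : WS) (c d : ℤ → ℝ) :
    strayC Q (fun t => c t + d t) = strayC Q c + strayC Q d := by
  unfold strayC
  rw [← sum_add_distrib]
  refine sum_congr rfl fun b _ => ?_
  split_ifs <;> ring

lemma extraR_nonneg_g (A : Finset ℤ) (D s : ℤ) {φ1 ψ1 : ℤ → ℝ} (h : Adm D φ1 ψ1) :
    0 ≤ extraR A (cut D) ψ1 D s := by
  unfold extraR
  refine sum_nonneg fun i _ => sum_nonneg fun j _ => ?_
  have h1 := cut_nonneg D i
  have h2 := cut_nonneg D j
  have h3 := cut_le_one D i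
  have h4 := h.ψ_le j
  split_ifs
  · nlinarith [mul_nonneg h1 h2, mul_nonneg (sub_nonneg.2 h3) h2,
      mul_nonneg (sub_nonneg.2 h3) (sub_nonneg.2 h4)]
  · exact le_rfl

lemma extraL_nonneg_g (A : Finset ℤ) (D s : ℤ) {φ1 ψ1 : ℤ → ℝ} (h : Adm D φ1 ψ1) :
    0 ≤ extraL A (cut D) φ1 s := by
  unfold extraL
  refine sum_nonneg fun i _ => sum_nonneg fun j _ => ?_
  have h1 := cut_nonneg D i
  have h2 := cut_le_one D j
  have h3 := cut_le_one D i
  have h4 := h.φ_le j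
  split_ifs
  · nlinarith [mul_nonneg h1 (sub_nonneg.2 h2), mul_nonneg (sub_nonneg.2 h3) (sub_nonneg.2 h2),
      mul_nonneg h1 (sub_nonneg.2 h4)]
  · exact le_rfl

/-- ROW (b): the signed deep inequality in the hybrid frame. -/
theorem deep_signed (A : Finset ℤ) (t : ℕ) {ω : ℤ → ℤ → ℝ} (hω : ∀ x y, ω x y + ω y x = 1)
    {D K z : ℤ} (hK : 1 ≤ K) (hD : D = 4 * K + 1)
    (hz : 0 ≤ z) (hcov : Cov (liftN t A) (fun y => Mid A (y / 4 ^ t)) (3 * D + 1))
    (hm : mass (PH (liftN t A) D z) * mass (QH (liftN t A) D z) ≤ 3 * K + 15 / 4) :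
    -(strayC (QH (liftN t A) D z) (dch (PH (liftN t A) D z) (QH (liftN t A) D z) ω D z (4 ^ t - 1))
      + strayC (PH (liftN t A) D z) (dch (QH (liftN t A) D z) (PH (liftN t A) D z) ω D z (4 ^ t - 1)))
      - 54 * K * 2 ^ t
      ≤ (nn (PH (liftN t A) D z) 2 - K) * dd (PH (liftN t A) D z) (QH (liftN t A) D z) D
      + (nn (QH (liftN t A) D z) 2 - K) * dd (QH (liftN t A) D z) (PH (liftN t A) D z) D := by
  have hA := adm_hybrid D z
  have gP : Good (PH (liftN t A) D z) := goodP hA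
  have gQ : Good (QH (liftN t A) D z) := goodQ hA
  have hcR := coversR hcov (cut D) (fun x => if D - z ≤ x then cut D x else 0)
    (fun x => if x ≤ 2 * D + z then 1 - cut D x else 0)
  have hcL := coversL hcov (cut D) (fun x => if D - z ≤ x then cut D x else 0)
    (fun x => if x ≤ 2 * D + z then 1 - cut D x else 0)
  have e2 := sum_extraR_g (liftN t A) D (fun x => if D - z ≤ x then cut D x else 0)
    (fun x => if x ≤ 2 * D + z then 1 - cut D x else 0) one1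
  have e3 := sum_extraL_g (liftN t A) D (fun x => if D - z ≤ x then cut D x else 0)
    (fun x => if x ≤ 2 * D + z then 1 - cut D x else 0) one1
  have huP : ∀ a ∈ (PH (liftN t A) D z).S, (PH (liftN t A) D z).f a ≠ 0 →
      2 * (PH (liftN t A) D z).u a ≤ D := fun (a : ℤ) _ h => by
        have := leP hD a h
        change 2 * (a - D) ≤ D
        omega
  have huQ : ∀ a ∈ (QH (liftN t A) D z).S, (QH (liftN t A) D z).f a ≠ 0 →
      2 * (QH (liftN t A) D z).u a ≤ D := fun (a : ℤ) _ h => by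
        have := leQ hD a h
        change 2 * (2 * D - a) ≤ D
        omega
  have hmono : Monotone one1 := fun _ _ _ => le_rfl
  have h01 : ∀ x, 0 ≤ one1 x := fun _ => zero_le_one
  have m1 := mid_right_PQ A t D one1 hmono h01 (cut D)
    (fun x => if D - z ≤ x then cut D x else 0)
    (fun x => if x ≤ 2 * D + z then 1 - cut D x else 0)
    (fun x hx => by unfold cut; rw [if_neg]; omega)
  have m2 := mid_left_PQ A t D one1 hmono h01 (cut D)
    (fun x => if D - z ≤ x then cut D x else 0)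
    (fun x => if x ≤ 2 * D + z then 1 - cut D x else 0)
    (fun x hx => by unfold cut; rw [if_pos]; omega)
  have x0 : 0 ≤ extraR (liftN t A) (cut D) (fun x => if x ≤ 2 * D + z then 1 - cut D x else 0) D
      (D - 1) + ind (fun y => Mid A (y / 4 ^ t)) (3 * D - (D - 1)) :=
    add_nonneg (extraR_nonneg_g _ _ _ hA) (ind_nonneg _ _)
  have x0' : 0 ≤ extraL (liftN t A) (cut D) (fun x => if D - z ≤ x then cut D x else 0)
      (D - 1) + ind (fun y => Mid A (y / 4 ^ t)) (D - 1) :=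
    add_nonneg (extraL_nonneg_g _ _ _ hA) (ind_nonneg _ _)
  have dP := dblP (liftN t A) D z
  have dQ := dblQ (liftN t A) D z
  set P := PH (liftN t A) D z with hPdef
  set Q := QH (liftN t A) D z with hQdef
  have n1 := m1.trans (sum_mid gP gQ (parw_le t) (parw_le t) D (4 ^ t - 1) h01 hω)
  have n2 := m2.trans (sum_mid gQ gP (parw_le t) (parw_le t) D (4 ^ t - 1) h01 hω)
  rw [sum_qc_one hz dQ D, xx_one huP] at e2
  rw [sum_qc_one hz dP D, xx_one huQ] at e3
  have one_mul' : ∀ x : ℝ, ∀ s : ℤ, x * one1 s = x := fun x s => mul_one x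
  have r1 := nn2_ge (ω := ω) (V := z) (E := 4 ^ t - 1) gP gQ hD hK hcR x0 (by
    simp only [sum_add_distrib]
    simp only [one_mul'] at e2 n1
    rw [e2]
    have e4 : ∑ b ∈ Q.S, Q.f b * (if Q.u b < 0 then
          mid P Q D (4 ^ t - 1) one1 ω (-Q.u b) + exn Q D z (-Q.u b) else 0)
        = ∑ b ∈ Q.S, Q.f b * (if Q.u b < 0 then mid P Q D (4 ^ t - 1) one1 ω (-Q.u b) else 0)
          + ∑ b ∈ Q.S, Q.f b * (if Q.u b < 0 then exn Q D z (-Q.u b) else 0) := by
      rw [← sum_add_distrib]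
      refine sum_congr rfl fun b _ => ?_
      split_ifs <;> ring
    rw [e4]
    linarith) hm
  have r2 := nn2_ge (ω := ω) (V := z) (E := 4 ^ t - 1) gQ gP hD hK hcL x0' (by
    simp only [sum_add_distrib]
    simp only [one_mul'] at e3 n2
    rw [e3]
    have e4 : ∑ b ∈ P.S, P.f b * (if P.u b < 0 then
          mid Q P D (4 ^ t - 1) one1 ω (-P.u b) + exn P D z (-P.u b) else 0)
        = ∑ b ∈ P.S, P.f b * (if P.u b < 0 then mid Q P D (4 ^ t - 1) one1 ω (-P.u b) else 0)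
          + ∑ b ∈ P.S, P.f b * (if P.u b < 0 then exn P D z (-P.u b) else 0) := by
      rw [← sum_add_distrib]
      refine sum_congr rfl fun b _ => ?_
      split_ifs <;> ring
    rw [e4]
    linarith) (by rwa [mul_comm])
  have d1 := dd_nonneg gP gQ D
  have d2 := dd_nonneg gQ gP D
  have d3 := dd_le_mass gP gQ D
  have d4 := dd_le_mass gQ gP D
  have s1 := mul_le_mul_of_nonneg_right r1 d2
  have s2 := mul_le_mul_of_nonneg_right r2 d1
  have t1 : strayC Q (dch P Q ω D z (4 ^ t - 1))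
      = (∑ b ∈ Q.S, Q.f b * (if Q.u b < 0 then
          max 0 (mid P Q D (4 ^ t - 1) one1 ω (-Q.u b) + exn Q D z (-Q.u b)
            - lt P (2 * -Q.u b)) else 0)) * dd Q P D
        + (∑ b ∈ Q.S, Q.f b * (if Q.u b < 0 then
          max 0 (r3n Q D (-Q.u b) - lo2 P (-Q.u b)) else 0)) * dd P Q D := by
    unfold dch
    rw [strayC_add, strayC_mul, strayC_mul]
    rfl
  have t2 : strayC P (dch Q P ω D z (4 ^ t - 1))
      = (∑ b ∈ P.S, P.f b * (if P.u b < 0 then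
          max 0 (mid Q P D (4 ^ t - 1) one1 ω (-P.u b) + exn P D z (-P.u b)
            - lt Q (2 * -P.u b)) else 0)) * dd P Q D
        + (∑ b ∈ P.S, P.f b * (if P.u b < 0 then
          max 0 (r3n P D (-P.u b) - lo2 Q (-P.u b)) else 0)) * dd Q P D := by
    unfold dch
    rw [strayC_add, strayC_mul, strayC_mul]
    rfl
  have hK1 : (1:ℝ) ≤ K := by exact_mod_cast hK
  have t3 : (1:ℝ) ≤ 2 ^ t := one_le_pow₀ (by norm_num)
  have t4 : 4 * dd P Q D + 4 * dd Q P D ≤ 54 * K * 2 ^ t := by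
    have a1 : 4 * dd P Q D + 4 * dd Q P D ≤ 54 * K := by
      rw [mul_comm (mass Q)] at d4
      linarith
    have a2 : 54 * (K:ℝ) * 1 ≤ 54 * K * 2 ^ t :=
      mul_le_mul_of_nonneg_left t3 (by linarith)
    linarith
  rw [t1, t2]
  linarith

/-- the product of the two masses -/
lemma mass_mul_le {n : ℕ} {A : Finset ℕ} (hlt : A.card ^ 2 < n) (t : ℕ) {D K : ℤ} (z : ℤ)
    (hD : D = 4 * K + 1) (h2 : 4 ^ t * (n : ℤ) ≤ 3 * D + 12) :
    mass (PH (liftN t (shift A)) D z) * mass (QH (liftN t (shift A)) D z) ≤ 3 * K + 15 / 4 := by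
  have hm := mass_add (liftN t (shift A)) (cut D) (fun x => if D - z ≤ x then cut D x else 0)
    (fun x => if x ≤ 2 * D + z then 1 - cut D x else 0) D
  rw [card_liftN, card_shift] at hm
  push_cast at hm
  have ht4 : ((2:ℝ) ^ t) ^ 2 = 4 ^ t := by rw [← pow_mul, mul_comm, pow_mul]; norm_num
  have h3 : (4:ℝ) ^ t * n ≤ 3 * (4 * K + 1) + 12 := by
    rw [hD] at h2
    exact_mod_cast h2
  have h4 : ((A.card : ℕ) : ℝ) ^ 2 ≤ n := by exact_mod_cast hlt.le
  have h5 : (4:ℝ) ^ t * (A.card : ℝ) ^ 2 ≤ 4 ^ t * n :=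
    mul_le_mul_of_nonneg_left h4 (by positivity)
  set x := mass (PH (liftN t (shift A)) D z)
  set y := mass (QH (liftN t (shift A)) D z)
  have h6 : (x + y) ^ 2 = 4 ^ t * (A.card : ℝ) ^ 2 := by
    rw [← ht4, ← mul_pow, ← hm]
  nlinarith [sq_nonneg (x - y)]

/-- FINAL REDUCTION to the inequality per stray: the deep charge `dch` is paid by the strays,
no hypothesis on `N_P`, `N_Q` is left. -/
theorem finish_nets3 {n : ℕ} {A : Finset ℕ} (h : IsMaximalThreeFree n A) {C : ℝ} (hC : 0 ≤ C)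
    (t0 : ℕ) {ω : ℤ → ℤ → ℝ} (hω : ∀ x y, ω x y + ω y x = 1)
    (hmain : A.card ^ 2 < n → ∀ t : ℕ, t0 ≤ t → ∀ D K : ℤ, 1 ≤ K → D = 4 * K + 1 →
      3 * D + 1 ≤ 4 ^ t * (n : ℤ) → 4 ^ t * (n : ℤ) ≤ 3 * D + 12 →
      Cov (liftN t (shift A)) (fun y => Mid (shift A) (y / 4 ^ t)) (3 * D + 1) →
      ∃ (z : ℤ) (cR cL : ℤ → ℝ), 0 ≤ z ∧ (∀ τ, 0 ≤ cR τ) ∧ (∀ τ, 0 ≤ cL τ) ∧
      ∀ P Q : WS, P = PH (liftN t (shift A)) D z → Q = QH (liftN t (shift A)) D z →
        0 ≤ price P Q D K (K - 1) 1 0 ∧ 0 ≤ price Q P D K (K - 1) 1 0 ∧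
        (∀ b ∈ Q.S, Q.f b ≠ 0 → Q.u b < 0 →
          cR (-Q.u b) * ((mass P - mass Q) + strayC Q cR / budget P Q K)
            + dch P Q ω D z (4 ^ t - 1) (-Q.u b) - C * K
            ≤ net P Q ω D K (K - 1) 1 1 z (4 ^ t - 1) 0 (-Q.u b)) ∧
        (∀ a ∈ P.S, P.f a ≠ 0 → P.u a < 0 →
          cL (-P.u a) * (-(mass P - mass Q) + strayC P cL / budget P Q K)
            + dch Q P ω D z (4 ^ t - 1) (-P.u a) - C * K
            ≤ net Q P ω D K (K - 1) 1 1 z (4 ^ t - 1) 1 (-P.u a))) :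
    n ≤ A.card ^ 2 := by
  refine finish_nets2 h (C := C + 54) (by linarith) t0 hω ?_
  intro hlt t ht D K hK hD h1 h2 hcov
  obtain ⟨z, cR, cL, hz, hcR, hcL, hall⟩ := hmain hlt t ht D K hK hD h1 h2 hcov
  refine ⟨z, cR, cL,
    dch (PH (liftN t (shift A)) D z) (QH (liftN t (shift A)) D z) ω D z (4 ^ t - 1),
    dch (QH (liftN t (shift A)) D z) (PH (liftN t (shift A)) D z) ω D z (4 ^ t - 1),
    hz, hcR, hcL, ?_⟩
  intro P Q hP hQ
  obtain ⟨p1, p2, hR, hL⟩ := hall P Q hP hQ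
  have hK1 : (1:ℝ) ≤ K := by exact_mod_cast hK
  refine ⟨p1, p2, ?_, ?_, ?_⟩
  · have h3 := deep_signed (shift A) t hω hK hD hz hcov (mass_mul_le hlt t z hD h2)
    rw [← hP, ← hQ] at h3 ⊢
    have h4 : 0 ≤ C * K * 2 ^ t := by positivity
    linarith
  · intro b hb hf hu
    have h3 := hR b hb hf hu
    rw [← hP, ← hQ]
    linarith
  · intro a ha hf hu
    have h3 := hL a ha hf hu
    rw [← hP, ← hQ]
    linarith

end

end MP61673a.Fin
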