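import Pool.Agent.Mu673.Total
import Pool.Agent.Mu673.DeepRow

/-!
Final reduction to inequalities per stray, with (i) the square of the imbalance, (ii) charges
between the strays, (iii) waste paid label by label, (iv) deep brackets and gains of the core.
-/

namespace MP61673a.Fin

open Finset MP61673a.W MP61673a.LiftW MP61673a.Mids
open MP61673a.Lift hiding PP QQ

noncomputable section

lemma strayC_sub (Q : WS) (c c' : ℤ → ℝ) :
    strayC Q (fun τ => c τ - c' τ) = strayC Q c - strayC Q c' := by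
  unfold strayC
  rw [← sum_sub_distrib]
  refine sum_congr rfl fun b _ => ?_
  split_ifs <;> ring

lemma strayC_sum (Q : WS) {ι : Type} (S : Finset ι) (c : ι → ℤ → ℝ) :
    strayC Q (fun τ => ∑ s ∈ S, c s τ) = ∑ s ∈ S, strayC Q (c s) := by
  unfold strayC
  rw [sum_comm]
  refine sum_congr rfl fun b _ => ?_
  by_cases h : Q.u b < 0
  · rw [if_pos h, mul_sum]
    refine sum_congr rfl fun s _ => ?_
    rw [if_pos h]
  · rw [if_neg h, mul_zero]
    symm
    refine sum_eq_zero fun s _ => ?_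
    rw [if_neg h, mul_zero]

lemma strayC_mono {Q : WS} (hQ : Good Q) {c c' : ℤ → ℝ}
    (h : ∀ b ∈ Q.S, Q.f b ≠ 0 → Q.u b < 0 → c (-Q.u b) ≤ c' (-Q.u b)) :
    strayC Q c ≤ strayC Q c' := by
  unfold strayC
  refine sum_le_sum fun b hb => ?_
  by_cases hf : Q.f b = 0
  · rw [hf]
    simp
  by_cases c : Q.u b < 0
  · rw [if_pos c, if_pos c]
    exact mul_le_mul_of_nonneg_left (h b hb hf c) (hQ.f_nonneg b hb)
  · rw [if_neg c, if_neg c]

lemma strayC_const_le {Q : WS} (hQ : Good Q) {e : ℝ} (he : 0 ≤ e) :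
    strayC Q (fun _ => e) ≤ e * mass Q := by
  unfold strayC mass
  rw [mul_sum]
  refine sum_le_sum fun b hb => ?_
  have h0 := hQ.f_nonneg b hb
  by_cases c : Q.u b < 0
  · rw [if_pos c]
    linarith
  · rw [if_neg c, mul_zero]
    exact mul_nonneg he h0

/-- charges between two families -/
lemma strayC_comm (P Q : WS) (ψ : ℤ → ℤ → ℝ) :
    strayC Q (fun τ => strayC P (fun τ' => ψ τ τ'))
      = strayC P (fun τ' => strayC Q (fun τ => ψ τ τ')) := by
  have h1 : ∀ (P Q : WS) (ψ : ℤ → ℤ → ℝ), strayC Q (fun τ => strayC P (fun τ' => ψ τ τ'))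
      = ∑ b ∈ Q.S, ∑ a ∈ P.S, (if Q.u b < 0 ∧ P.u a < 0 then
        Q.f b * P.f a * ψ (-Q.u b) (-P.u a) else 0) := by
    intro P Q ψ
    unfold strayC
    refine sum_congr rfl fun b _ => ?_
    by_cases c : Q.u b < 0
    · rw [if_pos c, mul_sum]
      refine sum_congr rfl fun a _ => ?_
      by_cases c2 : P.u a < 0
      · rw [if_pos c2, if_pos ⟨c, c2⟩]
        ring
      · rw [if_neg c2, if_neg (fun h => c2 h.2)]
        ring
    · rw [if_neg c, mul_zero]
      symm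
      exact sum_eq_zero fun a _ => if_neg (fun h => c h.1)
  rw [h1, h1, sum_comm]
  refine sum_congr rfl fun a _ => sum_congr rfl fun b _ => ?_
  by_cases c : Q.u b < 0 ∧ P.u a < 0
  · rw [if_pos c, if_pos ⟨c.2, c.1⟩]
    ring
  · rw [if_neg c, if_neg (fun h => c ⟨h.2, h.1⟩)]

/-- charges inside one family -/
lemma strayC_antisymm (Q : WS) (χ : ℤ → ℤ → ℝ) :
    strayC Q (fun τ => strayC Q (fun τ' => χ τ τ' - χ τ' τ)) = 0 := by
  have h1 : strayC Q (fun τ => strayC Q (fun τ' => χ τ τ' - χ τ' τ))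
      = strayC Q (fun τ => strayC Q (fun τ' => χ τ τ'))
        - strayC Q (fun τ => strayC Q (fun τ' => χ τ' τ)) := by
    rw [← strayC_sub]
    congr 1
    funext τ
    rw [strayC_sub]
  rw [h1, strayC_comm Q Q (fun τ τ' => χ τ' τ), sub_self]

/-- what the strays get in the per stray inequalities:
`c (h + X/B) + d + charges - waste` -/
def demand (P Q : WS) (D : ℤ) (B h : ℝ) (c d : ℤ → ℝ) (χ ψ κ κ' : ℤ → ℤ → ℝ) (eR eL : ℤ → ℝ)
    (τ : ℤ) : ℝ :=
  c τ * (h + strayC Q c / B) + d τ + strayC Q (fun τ' => χ τ τ' - χ τ' τ)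
    + strayC P (fun τ' => ψ τ τ')
    - ∑ s ∈ Ico 0 D, (eR s * κ τ s + eL s * κ' τ s)

lemma sum_demand {P Q : WS} {D : ℤ} {B h : ℝ} (hB : 0 < B)
    {cR cL dR dL : ℤ → ℝ} (hcR : 0 ≤ strayC Q cR) (hcL : 0 ≤ strayC P cL)
    (χR χL ψ κR κR' κL κL' : ℤ → ℤ → ℝ) (eR eL : ℤ → ℝ) :
    -(h ^ 2 / 4 * B) + strayC Q dR + strayC P dL
        - ∑ s ∈ Ico 0 D, eR s * (strayC Q (fun τ => κR τ s) + strayC P (fun τ => κL τ s))
        - ∑ s ∈ Ico 0 D, eL s * (strayC Q (fun τ => κR' τ s) + strayC P (fun τ => κL' τ s))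
      ≤ strayC Q (demand P Q D B h cR dR χR ψ κR κR' eR eL)
        + strayC P (demand Q P D B (-h) cL dL χL (fun τ τ' => -ψ τ' τ) κL κL' eR eL) := by
  have e1 : ∀ (P Q : WS) (h : ℝ) (c d : ℤ → ℝ) (χ ψ κ κ' : ℤ → ℤ → ℝ),
      strayC Q (demand P Q D B h c d χ ψ κ κ' eR eL)
      = strayC Q c * (h + strayC Q c / B) + strayC Q d
        + strayC Q (fun τ => strayC P (fun τ' => ψ τ τ'))
        - ∑ s ∈ Ico 0 D, eR s * strayC Q (fun τ => κ τ s)
        - ∑ s ∈ Ico 0 D, eL s * strayC Q (fun τ => κ' τ s) := by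
    intro P Q h c d χ ψ κ κ'
    unfold demand
    rw [strayC_sub, strayC_add, strayC_add, strayC_add, strayC_mul, strayC_antisymm, strayC_sum]
    have h2 : ∑ s ∈ Ico 0 D, strayC Q (fun τ => eR s * κ τ s + eL s * κ' τ s)
        = ∑ s ∈ Ico 0 D, eR s * strayC Q (fun τ => κ τ s)
          + ∑ s ∈ Ico 0 D, eL s * strayC Q (fun τ => κ' τ s) := by
      rw [← sum_add_distrib]
      refine sum_congr rfl fun s _ => ?_
      rw [strayC_add, mul_comm (eR s), mul_comm (eL s), ← strayC_mul, ← strayC_mul]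
      simp only [mul_comm]
    rw [h2]
    ring
  rw [e1, e1]
  have e2 : strayC P (fun τ => strayC Q (fun τ' => -ψ τ' τ))
      = - strayC Q (fun τ => strayC P (fun τ' => ψ τ τ')) := by
    rw [strayC_comm P Q ψ]
    have h3 : ∀ (Q : WS) (c : ℤ → ℝ), strayC Q (fun τ => -c τ) = -strayC Q c := by
      intro Q c
      have := strayC_sub Q (fun _ => (0:ℝ)) c
      have h0 : strayC Q (fun _ => (0:ℝ)) = 0 := by
        unfold strayC
        exact sum_eq_zero fun b _ => by split_ifs <;> simp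
      rw [h0] at this
      simpa using this
    rw [← h3]
    congr 1
    funext τ
    rw [h3]
  rw [e2]
  set X := strayC Q cR
  set Y := strayC P cL
  have h5 : -(h ^ 2 / 4 * B) ≤ X * (h + X / B) + Y * (-h + Y / B) := by
    have e1 : X * (h + X / B) + Y * (-h + Y / B) + h ^ 2 / 4 * B
        = ((h * B / 2 + (X - Y)) ^ 2 + 2 * (X * Y)) / B := by
      field_simp
      ring
    have e2 : 0 ≤ ((h * B / 2 + (X - Y)) ^ 2 + 2 * (X * Y)) / B :=
      div_nonneg (by positivity) hB.le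
    linarith
  simp only [mul_add, sum_add_distrib]
  linarith

lemma netH_eq (P Q : WS) (ω : ℤ → ℤ → ℝ) (D K z E lo : ℤ) :
    1 / 2 * (netSum P Q ω D K z 0 lo + netSum P Q ω D K z E lo)
      = strayC Q (fun τ => netH P Q ω D K (K - 1) 1 1 z E lo τ) := by
  unfold netSum strayC netH
  rw [← sum_add_distrib, mul_sum]
  refine sum_congr rfl fun b _ => ?_
  split_ifs <;> ring

lemma netSum_eq (P Q : WS) (ω : ℤ → ℤ → ℝ) (D K z E lo : ℤ) :
    netSum P Q ω D K z E lo = strayC Q (fun τ => net P Q ω D K (K - 1) 1 1 z E lo τ) := rfl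

/-- total number of the labels of one side -/
lemma sum_exc_le {A : Finset ℤ} {t : ℕ} {D : ℤ} (z : ℤ) :
    ∑ s ∈ Ico 0 D, exc (PH (liftN t A) D z) (QH (liftN t A) D z) D (xiR A t D z) s
      ≤ (4:ℝ) ^ t * A.card ^ 2 := by
  have h1 : ∀ s, exc (PH (liftN t A) D z) (QH (liftN t A) D z) D (xiR A t D z) s
      ≤ lab (liftN t A) (3 * D - s) := by
    intro s
    unfold exc xiR
    have h2 := covR (liftN t A) (cut D) (fun x => if D - z ≤ x then cut D x else 0)
      (fun x => if x ≤ 2 * D + z then 1 - cut D x else 0) D s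
    have h3 := ind_le_one (fun y => Mid A (y / 4 ^ t)) (3 * D - s)
    linarith
  refine (sum_le_sum fun s _ => h1 s).trans ?_
  unfold lab
  rw [sum_comm]
  have h4 : ∀ i ∈ liftN t A, ∑ s ∈ Ico 0 D, ∑ j ∈ liftN t A,
      (if 2 * j - i = 3 * D - s then (1:ℝ) else 0) ≤ ((liftN t A).card : ℝ) := by
    intro i _
    rw [sum_comm]
    have h5 : ∀ j ∈ liftN t A, ∑ s ∈ Ico 0 D, (if 2 * j - i = 3 * D - s then (1:ℝ) else 0)
        ≤ 1 := by
      intro j _
      have h6 : ∀ s ∈ Ico 0 D, (if 2 * j - i = 3 * D - s then (1:ℝ) else 0)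
          = if s = 3 * D - (2 * j - i) then (1:ℝ) else 0 := by
        intro s _
        by_cases c : 2 * j - i = 3 * D - s
        · rw [if_pos c, if_pos (by omega)]
        · rw [if_neg c, if_neg (by omega)]
      rw [sum_congr rfl h6, sum_ite_eq' (Ico 0 D) (3 * D - (2 * j - i)) (fun _ => (1:ℝ))]
      split_ifs <;> norm_num
    calc ∑ j ∈ liftN t A, ∑ s ∈ Ico 0 D, (if 2 * j - i = 3 * D - s then (1:ℝ) else 0)
        ≤ ∑ j ∈ liftN t A, (1:ℝ) := sum_le_sum h5
      _ = ((liftN t A).card : ℝ) := by simp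
  calc ∑ i ∈ liftN t A, ∑ s ∈ Ico 0 D, ∑ j ∈ liftN t A,
        (if 2 * j - i = 3 * D - s then (1:ℝ) else 0)
      ≤ ∑ i ∈ liftN t A, ((liftN t A).card : ℝ) := sum_le_sum h4
    _ = ((liftN t A).card : ℝ) ^ 2 := by
        rw [sum_const, nsmul_eq_mul]
        ring
    _ = (4:ℝ) ^ t * A.card ^ 2 := by
        rw [card_liftN]
        push_cast
        rw [mul_pow, ← pow_mul, mul_comm t 2, pow_mul]
        norm_num

lemma sum_exc_le' {A : Finset ℤ} {t : ℕ} {D : ℤ} (z : ℤ) :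
    ∑ s ∈ Ico 0 D, exc (QH (liftN t A) D z) (PH (liftN t A) D z) D (xiL A t D z) s
      ≤ (4:ℝ) ^ t * A.card ^ 2 := by
  have h1 : ∀ s, exc (QH (liftN t A) D z) (PH (liftN t A) D z) D (xiL A t D z) s
      ≤ lab (liftN t A) s := by
    intro s
    unfold exc xiL
    have h2 := covL (liftN t A) (cut D) (fun x => if D - z ≤ x then cut D x else 0)
      (fun x => if x ≤ 2 * D + z then 1 - cut D x else 0) D s
    have h3 := ind_le_one (fun y => Mid A (y / 4 ^ t)) s
    linarith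
  refine (sum_le_sum fun s _ => h1 s).trans ?_
  unfold lab
  rw [sum_comm]
  have h4 : ∀ i ∈ liftN t A, ∑ s ∈ Ico 0 D, ∑ j ∈ liftN t A,
      (if 2 * j - i = s then (1:ℝ) else 0) ≤ ((liftN t A).card : ℝ) := by
    intro i _
    rw [sum_comm]
    have h5 : ∀ j ∈ liftN t A, ∑ s ∈ Ico 0 D, (if 2 * j - i = s then (1:ℝ) else 0) ≤ 1 := by
      intro j _
      rw [sum_ite_eq (Ico 0 D) (2 * j - i) (fun _ => (1:ℝ))]
      split_ifs <;> norm_num
    calc ∑ j ∈ liftN t A, ∑ s ∈ Ico 0 D, (if 2 * j - i = s then (1:ℝ) else 0)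
        ≤ ∑ j ∈ liftN t A, (1:ℝ) := sum_le_sum h5
      _ = ((liftN t A).card : ℝ) := by simp
  calc ∑ i ∈ liftN t A, ∑ s ∈ Ico 0 D, ∑ j ∈ liftN t A,
        (if 2 * j - i = s then (1:ℝ) else 0)
      ≤ ∑ i ∈ liftN t A, ((liftN t A).card : ℝ) := sum_le_sum h4
    _ = ((liftN t A).card : ℝ) ^ 2 := by
        rw [sum_const, nsmul_eq_mul]
        ring
    _ = (4:ℝ) ^ t * A.card ^ 2 := by
        rw [card_liftN]
        push_cast
        rw [mul_pow, ← pow_mul, mul_comm t 2, pow_mul]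
        norm_num

/-- FINAL REDUCTION, per stray, with charges, waste, deep brackets and core gains.
`demand` = what the net of a stray has to pay. -/
theorem finish_charge {n : ℕ} {A : Finset ℕ} (h : IsMaximalThreeFree n A) {C : ℝ} (hC : 0 ≤ C)
    (t0 : ℕ) {ω : ℤ → ℤ → ℝ} (hω : ∀ x y, ω x y + ω y x = 1)
    (hmain : A.card ^ 2 < n → ∀ t : ℕ, t0 ≤ t → ∀ D K : ℤ, 1 ≤ K → D = 4 * K + 1 →
      3 * D + 1 ≤ 4 ^ t * (n : ℤ) → 4 ^ t * (n : ℤ) ≤ 3 * D + 12 →
      Cov (liftN t (shift A)) (fun y => Mid (shift A) (y / 4 ^ t)) (3 * D + 1) →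
      ∃ z : ℤ, 0 ≤ z ∧
      ∀ P Q : WS, P = PH (liftN t (shift A)) D z → Q = QH (liftN t (shift A)) D z →
        ∀ eR eL : ℤ → ℝ, eR = exc P Q D (xiR (shift A) t D z) →
          eL = exc Q P D (xiL (shift A) t D z) →
        ∃ (cR cL dR dL : ℤ → ℝ) (χR χL ψ κR κR' κL κL' : ℤ → ℤ → ℝ),
        0 ≤ strayC Q cR ∧ 0 ≤ strayC P cL ∧
        -(strayC Q dR + strayC P dL) - C * K * 2 ^ t
          ≤ (nn P 2 - K) * dd P Q D + (nn Q 2 - K) * dd Q P D + coreG P Q D K ∧
        (∀ s, 0 ≤ s → s < D → strayC Q (fun τ => κR τ s) + strayC P (fun τ => κL τ s)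
          ≤ price P Q D K (K - 1) 1 s + C * 2 ^ t) ∧
        (∀ s, 0 ≤ s → s < D → strayC Q (fun τ => κR' τ s) + strayC P (fun τ => κL' τ s)
          ≤ price Q P D K (K - 1) 1 s + C * 2 ^ t) ∧
        (∀ b ∈ Q.S, Q.f b ≠ 0 → Q.u b < 0 →
          demand P Q D (budget P Q K) (mass P - mass Q) cR dR χR ψ κR κR' eR eL (-Q.u b) - C * K
            ≤ netH P Q ω D K (K - 1) 1 1 z (4 ^ t - 1) 0 (-Q.u b)) ∧
        (∀ a ∈ P.S, P.f a ≠ 0 → P.u a < 0 →
          demand Q P D (budget P Q K) (-(mass P - mass Q)) cL dL χL (fun τ τ' => -ψ τ' τ)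
              κL κL' eR eL (-P.u a) - C * K
            ≤ netH Q P ω D K (K - 1) 1 1 z (4 ^ t - 1) 1 (-P.u a))) :
    n ≤ A.card ^ 2 := by
  refine finish_total h (C := C * A.card + C + 27 * C * A.card ^ 2) t0 hω ?_
  intro hlt t ht D K hK hD h1 h2 hcov
  obtain ⟨z, hz, hall⟩ := hmain hlt t ht D K hK hD h1 h2 hcov
  refine ⟨z, hz, ?_⟩
  rintro P Q rfl rfl
  obtain ⟨cR, cL, dR, dL, χR, χL, ψ, κR, κR', κL, κL', hcR, hcL, hdeep, hpR, hpL, hR, hL⟩ :=
    hall _ _ rfl rfl _ _ rfl rfl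
  have gP : Good (PH (liftN t (shift A)) D z) := goodP (adm_hybrid D z)
  have gQ : Good (QH (liftN t (shift A)) D z) := goodQ (adm_hybrid D z)
  have hm := mass_add (liftN t (shift A)) (cut D) (fun x => if D - z ≤ x then cut D x else 0)
    (fun x => if x ≤ 2 * D + z then 1 - cut D x else 0) D
  rw [card_liftN, card_shift] at hm
  have hK1 : (1:ℝ) ≤ K := by exact_mod_cast hK
  have sR := sum_exc_le (A := shift A) (t := t) (D := D) z
  have sL := sum_exc_le' (A := shift A) (t := t) (D := D) z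
  rw [card_shift] at sR sL
  have cvR := covR_hyb hcov z
  have cvL := covL_hyb hcov z
  set P := PH (liftN t (shift A)) D z with hPdef
  set Q := QH (liftN t (shift A)) D z with hQdef
  set eR := exc P Q D (xiR (shift A) t D z) with heR
  set eL := exc Q P D (xiL (shift A) t D z) with heL
  have nP := nn_nonneg gP 2
  have nQ := nn_nonneg gQ 2
  have hB2 : 2 * (K:ℝ) ≤ budget P Q K := by
    unfold budget
    linarith
  have hB : 0 < budget P Q K := by linarith
  have q1 := sum_demand (D := D) (h := mass P - mass Q) hB (dR := dR) (dL := dL) hcR hcL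
    χR χL ψ κR κR' κL κL' eR eL
  have q2 : strayC Q (demand P Q D (budget P Q K) (mass P - mass Q) cR dR χR ψ κR κR' eR eL)
      - C * K * mass Q ≤ 1 / 2 * (netSum P Q ω D K z 0 0
        + netSum P Q ω D K z (4 ^ t - 1) 0) := by
    rw [netH_eq]
    have e1 := strayC_const_le gQ (e := C * K) (mul_nonneg hC (by linarith))
    have e2 := strayC_mono gQ (c := fun τ => demand P Q D (budget P Q K) (mass P - mass Q)
      cR dR χR ψ κR κR' eR eL τ - C * K) hR
    rw [strayC_sub] at e2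
    linarith
  have q3 : strayC P (demand Q P D (budget P Q K) (-(mass P - mass Q)) cL dL χL
      (fun τ τ' => -ψ τ' τ) κL κL' eR eL)
      - C * K * mass P ≤ 1 / 2 * (netSum Q P ω D K z 0 1
        + netSum Q P ω D K z (4 ^ t - 1) 1) := by
    rw [netH_eq]
    have e1 := strayC_const_le gP (e := C * K) (mul_nonneg hC (by linarith))
    have e2 := strayC_mono gP (c := fun τ => demand Q P D (budget P Q K)
      (-(mass P - mass Q)) cL dL χL (fun τ τ' => -ψ τ' τ) κL κL' eR eL τ - C * K) hL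
    rw [strayC_sub] at e2
    linarith
  have t2 : (0:ℝ) < 2 ^ t := by positivity
  have w1 : ∑ s ∈ Ico 0 D, eR s * (strayC Q (fun τ => κR τ s) + strayC P (fun τ => κL τ s))
      ≤ wst P Q D K (K - 1) 1 (xiR (shift A) t D z)
        + C * 2 ^ t * ((4:ℝ) ^ t * A.card ^ 2) := by
    have e1 : ∑ s ∈ Ico 0 D, eR s * (strayC Q (fun τ => κR τ s) + strayC P (fun τ => κL τ s))
        ≤ ∑ s ∈ Ico 0 D, (eR s * price P Q D K (K - 1) 1 s + C * 2 ^ t * eR s) := by
      refine sum_le_sum fun s hs => ?_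
      rw [mem_Ico] at hs
      have e2 := mul_le_mul_of_nonneg_left (hpR s hs.1 hs.2) (exc_nonneg cvR hs.1 hs.2)
      rw [← heR] at e2
      linarith
    rw [sum_add_distrib, ← mul_sum] at e1
    have e3 := mul_le_mul_of_nonneg_left sR (by positivity : 0 ≤ C * 2 ^ t)
    have e4 : wst P Q D K (K - 1) 1 (xiR (shift A) t D z)
        = ∑ s ∈ Ico 0 D, eR s * price P Q D K (K - 1) 1 s := rfl
    rw [e4]
    linarith
  have w2 : ∑ s ∈ Ico 0 D, eL s * (strayC Q (fun τ => κR' τ s) + strayC P (fun τ => κL' τ s))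
      ≤ wst Q P D K (K - 1) 1 (xiL (shift A) t D z)
        + C * 2 ^ t * ((4:ℝ) ^ t * A.card ^ 2) := by
    have e1 : ∑ s ∈ Ico 0 D, eL s * (strayC Q (fun τ => κR' τ s) + strayC P (fun τ => κL' τ s))
        ≤ ∑ s ∈ Ico 0 D, (eL s * price Q P D K (K - 1) 1 s + C * 2 ^ t * eL s) := by
      refine sum_le_sum fun s hs => ?_
      rw [mem_Ico] at hs
      have e2 := mul_le_mul_of_nonneg_left (hpL s hs.1 hs.2) (exc_nonneg cvL hs.1 hs.2)
      rw [← heL] at e2
      linarith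
    rw [sum_add_distrib, ← mul_sum] at e1
    have e3 := mul_le_mul_of_nonneg_left sL (by positivity : 0 ≤ C * 2 ^ t)
    have e4 : wst Q P D K (K - 1) 1 (xiL (shift A) t D z)
        = ∑ s ∈ Ico 0 D, eL s * price Q P D K (K - 1) 1 s := rfl
    rw [e4]
    linarith
  push_cast at hm
  have hn : 1 ≤ n := by
    rcases Nat.eq_zero_or_pos n with h0 | h0
    · subst h0
      simp at hlt
    · exact h0
  have h4t : (4:ℝ) ^ t ≤ 27 * K := by
    have e1 : (4:ℤ) ^ t ≤ 4 ^ t * (n:ℤ) := le_mul_of_one_le_right (by positivity) (by exact_mod_cast hn)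
    have e2 : (4:ℤ) ^ t ≤ 27 * K := by omega
    exact_mod_cast e2
  have k0 : (0:ℝ) ≤ A.card := Nat.cast_nonneg _
  have herr : C * K * (mass P + mass Q) ≤ C * A.card * 2 ^ t * budget P Q K := by
    rw [hm]
    have e1 : 0 ≤ C * A.card * 2 ^ t := by positivity
    have e2 : C * K * (2 ^ t * A.card) = C * A.card * 2 ^ t * K := by ring
    rw [e2]
    exact mul_le_mul_of_nonneg_left (by linarith) e1
  have herr2 : C * K * 2 ^ t ≤ C * 2 ^ t * budget P Q K := by
    have e1 : 0 ≤ C * 2 ^ t := by positivity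
    have e2 : C * K * 2 ^ t = C * 2 ^ t * K := by ring
    rw [e2]
    exact mul_le_mul_of_nonneg_left (by linarith) e1
  have herr3 : 2 * (C * 2 ^ t * ((4:ℝ) ^ t * A.card ^ 2))
      ≤ 27 * C * A.card ^ 2 * 2 ^ t * budget P Q K := by
    have e1 : (4:ℝ) ^ t * A.card ^ 2 ≤ 27 / 2 * budget P Q K * A.card ^ 2 :=
      mul_le_mul_of_nonneg_right (by linarith) (by positivity)
    have e3 : 0 ≤ C * 2 ^ t := by positivity
    have e6 := mul_le_mul_of_nonneg_left e1 e3
    linarith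
  have h5 : -(((mass P - mass Q) ^ 2 / 4 + (C * A.card + C + 27 * C * A.card ^ 2) * 2 ^ t)
      * budget P Q K) = -((mass P - mass Q) ^ 2 / 4 * budget P Q K)
        - C * A.card * 2 ^ t * budget P Q K - C * 2 ^ t * budget P Q K
        - 27 * C * A.card ^ 2 * 2 ^ t * budget P Q K := by ring
  rw [h5]
  linarith

end

end MP61673a.Fin
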