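import Pool.Agent.Mu673.FinNets

/-!
FACT INTERFACE. `Env P Q D K V E N ξR ξL` collects everything that is known about the hybrid frame of
a lifted set (`E = 4^t - 1`, `N = n`), symmetric in the two sides. The external labels are bounded for every
nonnegative function of the label.
-/

namespace MP61673a.Fin

open Finset MP61673a.W MP61673a.LiftW MP61673a.Mids
open MP61673a.Lift hiding PP QQ

noncomputable section

/-- a function of the label `s`, as a function of the depth `j = D - s`, zero outside `1 ≤ j ≤ D` -/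
def gdep (D : ℤ) (g : ℤ → ℝ) (j : ℤ) : ℝ := if 1 ≤ j ∧ j ≤ D then g (D - j) else 0

/-- labels of a centre at depth `t` of the own side without doubled role -/
def ex1g (Q : WS) (D V : ℤ) (g : ℤ → ℝ) (t : ℤ) : ℝ :=
  if V < t then ∑ q ∈ Q.S, Q.f q * gdep D g (Q.u q + 2 * t) else 0

/-- labels on the OTHER side, outer element at depth `t` of `Q`, centre in `Q`; depth `2q + t - D` -/
def ex2g (Q : WS) (D : ℤ) (g : ℤ → ℝ) (t : ℤ) : ℝ :=
  ∑ q ∈ Q.S, Q.f q * gdep D g (2 * Q.u q + t - D)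

/-- midpoints of a stray at depth `t` of `Q`; `G` = function of the DOUBLED depth -/
def midg (P Q : WS) (D : ℤ) (G : ℤ → ℝ) (ω : ℤ → ℤ → ℝ) (t : ℤ) : ℝ :=
  ∑ q ∈ Q.S, Q.f q * ((if Q.u q < 0 then ω t (-Q.u q) else 1) * G (t - Q.u q))
    + ∑ a ∈ P.S, P.f a * G (t + P.u a - D)

/-- `G` (of the doubled depth) majorises the mean of `g` at two labels whose depths differ by at
most `E` -/
structure Maj (D E : ℤ) (g G : ℤ → ℝ) : Prop where
  nonneg : ∀ x, 0 ≤ G x
  maj : ∀ j j' : ℤ, j - j' ≤ E → j' - j ≤ E → gdep D g j + gdep D g j' ≤ 2 * G (j + j')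

/-- positions of the elements of the window `x ≤ y`, `2 (y - x) ≤ 3 D + 12`, mass -/
def winM (P Q : WS) (D x : ℤ) : ℝ :=
  ∑ a ∈ P.S, P.f a * (if x ≤ D + P.u a ∧ 2 * (D + P.u a - x) ≤ 3 * D + 12 then 1 else 0)
    + ∑ b ∈ Q.S, Q.f b * (if x ≤ 2 * D - Q.u b ∧ 2 * (2 * D - Q.u b - x) ≤ 3 * D + 12 then 1
      else 0)

/-- everything known about one frame; symmetric in the two sides -/
structure Env (P Q : WS) (D K V E N : ℤ) (ξR ξL : ℤ → ℝ) : Prop where
  gP : Good P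
  gQ : Good Q
  hK : 1 ≤ K
  hD : D = 4 * K + 1
  hV : 0 ≤ V
  hE : 0 ≤ E
  dP : Dbl P V
  dQ : Dbl Q V
  uP : ∀ a ∈ P.S, P.f a ≠ 0 → P.u a ≤ 2 * K
  uQ : ∀ b ∈ Q.S, Q.f b ≠ 0 → Q.u b ≤ 2 * K
  lP : ∀ a ∈ P.S, P.f a ≠ 0 → -D - 11 ≤ P.u a
  lQ : ∀ b ∈ Q.S, Q.f b ≠ 0 → -D - 11 ≤ Q.u b
  cR : Covers P Q D ξR
  cL : Covers Q P D ξL
  nR : ∀ s, 0 ≤ ξR s
  nL : ∀ s, 0 ≤ ξL s
  hN : 3 * D + 1 ≤ (E + 1) * N
  hN' : (E + 1) * N ≤ 3 * D + 12
  hm : (mass P + mass Q) ^ 2 + E ≤ 3 * D + 11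
  exR : ∀ ω : ℤ → ℤ → ℝ, (∀ x y, ω x y + ω y x = 1) → ∀ g G : ℤ → ℝ,
    (∀ s, 0 ≤ s → s < D → 0 ≤ g s) → Maj D E g G →
    ∑ s ∈ Ico 0 D, ξR s * g s
      ≤ strayC Q (fun τ => ex1g Q D V g τ + midg P Q D G ω τ) + strayC P (fun τ => ex2g P D g τ)
  exL : ∀ ω : ℤ → ℤ → ℝ, (∀ x y, ω x y + ω y x = 1) → ∀ g G : ℤ → ℝ,
    (∀ s, 0 ≤ s → s < D → 0 ≤ g s) → Maj D E g G →
    ∑ s ∈ Ico 0 D, ξL s * g s
      ≤ strayC P (fun τ => ex1g P D V g τ + midg Q P D G ω τ) + strayC Q (fun τ => ex2g Q D g τ)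

lemma Env.symm {P Q : WS} {D K V E N : ℤ} {ξR ξL : ℤ → ℝ} (h : Env P Q D K V E N ξR ξL) :
    Env Q P D K V E N ξL ξR where
  gP := h.gQ
  gQ := h.gP
  hK := h.hK
  hD := h.hD
  hV := h.hV
  hE := h.hE
  dP := h.dQ
  dQ := h.dP
  uP := h.uQ
  uQ := h.uP
  lP := h.lQ
  lQ := h.lP
  cR := h.cL
  cL := h.cR
  nR := h.nL
  nL := h.nR
  hN := h.hN
  hN' := h.hN'
  hm := by rw [add_comm (mass Q)]; exact h.hm
  exR := h.exL
  exL := h.exR

/-! ### The external labels, exactly -/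

lemma sum_ex1g {Q : WS} {V : ℤ} (hV : 0 ≤ V) (dQ : Dbl Q V) (D : ℤ) (g : ℤ → ℝ) :
    ∑ s ∈ Ico 0 D, qc Q (D - s) * g s = strayC Q (fun τ => ex1g Q D V g τ) := by
  unfold strayC
  have h2 : ∀ s ∈ Ico 0 D, qc Q (D - s) * g s
      = ∑ q ∈ Q.S, ∑ b ∈ Q.S, (if s = D - (Q.u q - 2 * Q.u b) then
        Q.f q * (Q.f b - Q.f1 b) * g s else 0) := by
    intro s _
    unfold qc
    rw [sum_mul]
    refine sum_congr rfl fun q _ => ?_
    rw [sum_mul]
    refine sum_congr rfl fun b _ => ?_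
    by_cases c : s = D - (Q.u q - 2 * Q.u b)
    · rw [if_pos c, if_pos (by omega)]
    · rw [if_neg c, if_neg (by omega), zero_mul]
  have h4 : ∀ F : ℤ → Q.ι → Q.ι → ℝ, ∑ s ∈ Ico 0 D, ∑ q ∈ Q.S, ∑ b ∈ Q.S, F s q b
      = ∑ b ∈ Q.S, ∑ q ∈ Q.S, ∑ s ∈ Ico 0 D, F s q b := by
    intro F
    rw [sum_comm]
    have h5 : ∀ q ∈ Q.S, ∑ s ∈ Ico 0 D, ∑ b ∈ Q.S, F s q b
        = ∑ b ∈ Q.S, ∑ s ∈ Ico 0 D, F s q b := fun q _ => sum_comm
    rw [sum_congr rfl h5, sum_comm]
  rw [sum_congr rfl h2, h4]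
  refine sum_congr rfl fun b hb => ?_
  have h3 : ∀ q ∈ Q.S, ∑ s ∈ Ico 0 D, (if s = D - (Q.u q - 2 * Q.u b) then
        Q.f q * (Q.f b - Q.f1 b) * g s else 0)
      = (if 1 ≤ Q.u q - 2 * Q.u b ∧ Q.u q - 2 * Q.u b ≤ D then
        Q.f q * (Q.f b - Q.f1 b) * g (D - (Q.u q - 2 * Q.u b)) else 0) := by
    intro q _
    rw [sum_ite_eq' (Ico 0 D) (D - (Q.u q - 2 * Q.u b))
      (fun s => Q.f q * (Q.f b - Q.f1 b) * g s)]
    simp only [mem_Ico]
    by_cases c : 1 ≤ Q.u q - 2 * Q.u b ∧ Q.u q - 2 * Q.u b ≤ D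
    · rw [if_pos (by omega), if_pos c]
    · rw [if_neg (by omega), if_neg c]
  rw [sum_congr rfl h3, dQ b hb]
  by_cases c1 : -V ≤ Q.u b
  · have e1 : (if Q.u b < 0 then ex1g Q D V g (-Q.u b) else 0) = 0 := by
      unfold ex1g
      rw [if_neg (show ¬ V < -Q.u b by omega)]
      simp
    rw [e1, mul_zero]
    refine sum_eq_zero fun q _ => ?_
    rw [if_pos c1]
    simp
  · have c2 : Q.u b < 0 := by omega
    unfold ex1g
    rw [if_pos c2]
    beta_reduce
    rw [if_pos (show V < -Q.u b by omega), mul_sum]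
    refine sum_congr rfl fun q _ => ?_
    rw [if_neg c1, show Q.u q + 2 * -Q.u b = Q.u q - 2 * Q.u b by ring]
    unfold gdep
    split_ifs <;> ring

lemma sum_ex2g {Q : WS} {D : ℤ} (hu : ∀ b ∈ Q.S, Q.f b ≠ 0 → 2 * Q.u b ≤ D) (g : ℤ → ℝ) :
    xx Q D g = strayC Q (fun τ => ex2g Q D g τ) := by
  unfold xx ex2g strayC
  refine sum_congr rfl fun b hb => ?_
  by_cases c : Q.u b < 0
  · rw [if_pos c, mul_sum]
    refine sum_congr rfl fun q _ => ?_
    unfold gdep
    rw [show D - (2 * Q.u q + -Q.u b - D) = 2 * D - (2 * Q.u q - Q.u b) by ring]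
    by_cases c2 : 0 ≤ 2 * D - (2 * Q.u q - Q.u b) ∧ 2 * D - (2 * Q.u q - Q.u b) < D
    · rw [if_pos c2, if_pos (by omega)]
      ring
    · rw [if_neg c2, if_neg (by omega)]
      ring
  · rw [if_neg c, mul_zero]
    refine sum_eq_zero fun q hq => ?_
    by_cases h0 : Q.f q = 0
    · rw [h0]
      simp
    · have := hu q hq h0
      rw [if_neg]
      omega

/-- midpoints, right side, any nonnegative function of the label -/
theorem midg_right (A : Finset ℤ) (t : ℕ) (D : ℤ) {g G : ℤ → ℝ}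
    (h0 : ∀ s, 0 ≤ s → s < D → 0 ≤ g s) (hG : Maj D (4 ^ t - 1) g G) :
    ∑ s ∈ Ico 0 D, ind (fun y => Mid A (y / 4 ^ t)) (3 * D - s) * g s
      ≤ ∑ z ∈ liftN t A, (if 2 * D < z then ∑ w ∈ liftN t A, (if par t z w then
          (if 2 * D < w then 1 / 2 else 1) * G (z + w - 4 * D) else 0) else 0) := by
  have e1 : ∑ s ∈ Ico 0 D, ind (fun y => Mid A (y / 4 ^ t)) (3 * D - s) * g s
      = ∑ y ∈ Ioc (2 * D) (3 * D), ind (fun y => Mid A (y / 4 ^ t)) y * g (3 * D - y) := by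
    refine sum_nbij' (fun s => 3 * D - s) (fun y => 3 * D - y) ?_ ?_ ?_ ?_ ?_
    · intro s hs; rw [mem_Ico] at hs; rw [mem_Ioc]; omega
    · intro s hs; rw [mem_Ioc] at hs; rw [mem_Ico]; omega
    · intro s _; ring
    · intro s _; ring
    · intro s _
      rw [show 3 * D - (3 * D - s) = s by ring]
  rw [e1]
  refine mids_le A t (Ioc (2 * D) (3 * D)) (fun y => g (3 * D - y))
    (fun y hy => by rw [mem_Ioc] at hy; exact h0 _ (by omega) (by omega))
    (fun z w => G (z + w - 4 * D)) (fun z w => by simp only [add_comm z w])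
    (fun z => 2 * D < z) ?_
  intro a _ b _ hab hpar d hd d' hd' y y' hy hy'
  have b1 := sub_le hd hd'
  have b2 := sub_le hd' hd
  have b3 := dig_bounds hd'
  have b4 := dig_bounds hd
  have b5 := dig_mem hd
  have b6 := dig_mem hd'
  have hE : (1:ℤ) ≤ 4 ^ t := one_le_pow₀ (by norm_num)
  have hx : 2 * ((a + b) / 2) = a + b := by omega
  have hx1 : (a + b) / 2 + 1 ≤ b := by omega
  have hx2 : 4 ^ t * ((a + b) / 2) + 4 ^ t ≤ 4 ^ t * b := by
    have := mul_le_mul_of_nonneg_left hx1 (show (0:ℤ) ≤ 4 ^ t by linarith)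
    linarith
  have hx3 : 2 * (4 ^ t * ((a + b) / 2)) = 4 ^ t * a + 4 ^ t * b := by
    calc 2 * (4 ^ t * ((a + b) / 2)) = 4 ^ t * (2 * ((a + b) / 2)) := by ring
      _ = 4 ^ t * a + 4 ^ t * b := by rw [hx]; ring
  have k1 : ∀ y : ℤ, (if y ∈ Ioc (2 * D) (3 * D) then g (3 * D - y) else 0)
      = gdep D g (y - 2 * D) := by
    intro y
    unfold gdep
    by_cases c : y ∈ Ioc (2 * D) (3 * D)
    · rw [if_pos c]
      rw [mem_Ioc] at c
      rw [if_pos (by omega), show D - (y - 2 * D) = 3 * D - y by ring]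
    · rw [if_neg c, if_neg]
      rw [mem_Ioc] at c
      omega
  simp only [k1]
  by_cases c : 2 * D < 4 ^ t * a + d ∨ 2 * D < 4 ^ t * b + d'
  · rw [if_pos c]
    have k2 := hG.maj (y - 2 * D) (y' - 2 * D) (by linarith) (by linarith)
    rw [show y - 2 * D + (y' - 2 * D) = 4 ^ t * a + d + (4 ^ t * b + d') - 4 * D by linarith]
      at k2
    linarith
  · rw [if_neg c]
    push Not at c
    have z1 : gdep D g (y - 2 * D) = 0 := by
      unfold gdep
      rw [if_neg]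
      intro h
      linarith [c.2, h.1]
    have z2 : gdep D g (y' - 2 * D) = 0 := by
      unfold gdep
      rw [if_neg]
      intro h
      linarith [c.2, h.1]
    rw [z1, z2]
    norm_num

/-- midpoints, left side, any nonnegative function of the label -/
theorem midg_left (A : Finset ℤ) (t : ℕ) (D : ℤ) {g G : ℤ → ℝ}
    (h0 : ∀ s, 0 ≤ s → s < D → 0 ≤ g s) (hG : Maj D (4 ^ t - 1) g G) :
    ∑ s ∈ Ico 0 D, ind (fun y => Mid A (y / 4 ^ t)) s * g s
      ≤ ∑ z ∈ liftN t A, (if z < D then ∑ w ∈ liftN t A, (if par t z w then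
          (if w < D then 1 / 2 else 1) * G (2 * D - z - w) else 0) else 0) := by
  refine mids_le A t (Ico 0 D) g
    (fun y hy => by rw [mem_Ico] at hy; exact h0 _ hy.1 hy.2)
    (fun z w => G (2 * D - z - w))
    (fun z w => by simp only [show 2 * D - z - w = 2 * D - w - z by ring])
    (fun z => z < D) ?_
  intro a _ b _ hab hpar d hd d' hd' y y' hy hy'
  have b1 := sub_le hd hd'
  have b2 := sub_le hd' hd
  have b3 := dig_bounds hd'
  have b4 := dig_bounds hd
  have b5 := dig_mem hd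
  have b6 := dig_mem hd'
  have hE : (1:ℤ) ≤ 4 ^ t := one_le_pow₀ (by norm_num)
  have hx : 2 * ((a + b) / 2) = a + b := by omega
  have hx1 : a + 1 ≤ (a + b) / 2 := by omega
  have hx2 : 4 ^ t * a + 4 ^ t ≤ 4 ^ t * ((a + b) / 2) := by
    have := mul_le_mul_of_nonneg_left hx1 (show (0:ℤ) ≤ 4 ^ t by linarith)
    linarith
  have hx3 : 2 * (4 ^ t * ((a + b) / 2)) = 4 ^ t * a + 4 ^ t * b := by
    calc 2 * (4 ^ t * ((a + b) / 2)) = 4 ^ t * (2 * ((a + b) / 2)) := by ring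
      _ = 4 ^ t * a + 4 ^ t * b := by rw [hx]; ring
  have k1 : ∀ y : ℤ, (if y ∈ Ico 0 D then g y else 0) = gdep D g (D - y) := by
    intro y
    unfold gdep
    by_cases c : y ∈ Ico 0 D
    · rw [if_pos c]
      rw [mem_Ico] at c
      rw [if_pos (by omega), show D - (D - y) = y by ring]
    · rw [if_neg c, if_neg]
      rw [mem_Ico] at c
      omega
  simp only [k1]
  by_cases c : 4 ^ t * a + d < D ∨ 4 ^ t * b + d' < D
  · rw [if_pos c]
    have k2 := hG.maj (D - y) (D - y') (by linarith) (by linarith)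
    rw [show D - y + (D - y') = 2 * D - (4 ^ t * a + d) - (4 ^ t * b + d') by linarith] at k2
    linarith
  · rw [if_neg c]
    push Not at c
    have z1 : gdep D g (D - y) = 0 := by
      unfold gdep
      rw [if_neg]
      intro h
      linarith [c.1, h.1]
    have z2 : gdep D g (D - y') = 0 := by
      unfold gdep
      rw [if_neg]
      intro h
      linarith [c.1, h.1]
    rw [z1, z2]
    norm_num

/-- strays of the right family: weight 1/2 rule replaced by `ω` -/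
lemma sum_midg {P Q : WS} (hP : Good P) (hQ : Good Q) {R : Q.ι → Q.ι → ℝ} {R' : Q.ι → P.ι → ℝ}
    (hR : ∀ b q, R b q ≤ 1) (hR' : ∀ b a, R' b a ≤ 1) (D : ℤ) {G : ℤ → ℝ} (h0 : ∀ x, 0 ≤ G x)
    {ω : ℤ → ℤ → ℝ} (hω : ∀ x y, ω x y + ω y x = 1) :
    ∑ b ∈ Q.S, Q.f b * (if Q.u b < 0 then
      ∑ q ∈ Q.S, Q.f q * (R b q * ((if Q.u q < 0 then 1 / 2 else 1) * G (-Q.u b - Q.u q)))
        + ∑ a ∈ P.S, P.f a * (R' b a * G (-Q.u b + P.u a - D)) else 0)
      ≤ strayC Q (fun τ => midg P Q D G ω τ) := by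
  have h1 := share_rule Q (fun x y => G (-x - y))
    (fun x y => by rw [show -x - y = -y - x by ring]) hω
  have h2 : ∀ F : Q.ι → ℝ, ∀ H : Q.ι → ℝ,
      ∑ b ∈ Q.S, Q.f b * (if Q.u b < 0 then F b + H b else 0)
        = ∑ b ∈ Q.S, Q.f b * (if Q.u b < 0 then F b else 0)
          + ∑ b ∈ Q.S, Q.f b * (if Q.u b < 0 then H b else 0) := by
    intro F H
    rw [← sum_add_distrib]
    refine sum_congr rfl fun b _ => ?_
    split_ifs <;> ring
  have h3 : ∑ b ∈ Q.S, Q.f b * (if Q.u b < 0 then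
      ∑ q ∈ Q.S, Q.f q * (R b q * ((if Q.u q < 0 then 1 / 2 else 1) * G (-Q.u b - Q.u q)))
        + ∑ a ∈ P.S, P.f a * (R' b a * G (-Q.u b + P.u a - D)) else 0)
      ≤ ∑ b ∈ Q.S, Q.f b * (if Q.u b < 0 then
      ∑ q ∈ Q.S, Q.f q * ((if Q.u q < 0 then 1 / 2 else 1) * G (-Q.u b - Q.u q))
        + ∑ a ∈ P.S, P.f a * G (-Q.u b + P.u a - D) else 0) := by
    refine sum_le_sum fun b hb => mul_le_mul_of_nonneg_left ?_ (hQ.f_nonneg b hb)
    by_cases c : Q.u b < 0
    · rw [if_pos c, if_pos c]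
      refine add_le_add (sum_le_sum fun q hq => mul_le_mul_of_nonneg_left ?_ (hQ.f_nonneg q hq))
        (sum_le_sum fun a ha => mul_le_mul_of_nonneg_left ?_ (hP.f_nonneg a ha))
      · exact mul_le_of_le_one_left (mul_nonneg (by split_ifs <;> norm_num) (h0 _)) (hR b q)
      · exact mul_le_of_le_one_left (h0 _) (hR' b a)
    · rw [if_neg c, if_neg c]
  refine h3.trans (le_of_eq ?_)
  unfold strayC midg
  rw [h2, h1, ← h2]

/-- midpoints in the frame, right side -/
theorem midg_right_PQ (A : Finset ℤ) (t : ℕ) {D : ℤ} (hD : 0 < D) {g G : ℤ → ℝ}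
    (h0 : ∀ s, 0 ≤ s → s < D → 0 ≤ g s) (hG : Maj D (4 ^ t - 1) g G)
    {ω : ℤ → ℤ → ℝ} (hω : ∀ x y, ω x y + ω y x = 1) (z : ℤ) :
    ∑ s ∈ Ico 0 D, ind (fun y => Mid A (y / 4 ^ t)) (3 * D - s) * g s
      ≤ strayC (QH (liftN t A) D z) (fun τ => midg (PH (liftN t A) D z) (QH (liftN t A) D z) D G ω τ)
      := by
  have hA := adm_hybrid D z
  refine (midg_right A t D h0 hG).trans (le_trans (le_of_eq ?_)
    (sum_midg (goodP hA) (goodQ hA) (parw_le t) (parw_le t) D hG.nonneg hω))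
  change _ = ∑ z ∈ liftN t A, (1 - cut D z) * (if 2 * D - z < 0 then
      ∑ w ∈ liftN t A, (1 - cut D w) * (parw t z w * ((if 2 * D - w < 0 then 1 / 2 else 1)
          * G (-(2 * D - z) - (2 * D - w))))
        + ∑ w ∈ liftN t A, cut D w * (parw t z w * G (-(2 * D - z) + (w - D) - D)) else 0)
  have hφ : ∀ x, 2 * D < x → cut D x = 0 := fun x hx => by unfold cut; rw [if_neg]; omega
  refine sum_congr rfl fun z _ => ?_
  by_cases h : 2 * D < z
  · rw [if_pos h, if_pos (by omega), hφ z h, sub_zero, one_mul, ← sum_add_distrib]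
    refine sum_congr rfl fun w _ => ?_
    rw [show -(2 * D - z) - (2 * D - w) = z + w - 4 * D by ring,
      show -(2 * D - z) + (w - D) - D = z + w - 4 * D by ring]
    have e3 : (if 2 * D - w < 0 then (1:ℝ) / 2 else 1) = if 2 * D < w then 1 / 2 else 1 := by
      split_ifs <;> first | omega | rfl
    rw [e3]
    unfold parw
    by_cases h1 : par t z w
    · rw [if_pos h1, if_pos h1]
      by_cases h3 : 2 * D < w
      · rw [if_pos h3, hφ w h3]
        ring
      · rw [if_neg h3]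
        ring
    · rw [if_neg h1, if_neg h1]
      ring
  · rw [if_neg h, if_neg (by omega), mul_zero]

/-- midpoints in the frame, left side -/
theorem midg_left_PQ (A : Finset ℤ) (t : ℕ) {D : ℤ} (hD : 0 < D) {g G : ℤ → ℝ}
    (h0 : ∀ s, 0 ≤ s → s < D → 0 ≤ g s) (hG : Maj D (4 ^ t - 1) g G)
    {ω : ℤ → ℤ → ℝ} (hω : ∀ x y, ω x y + ω y x = 1) (z : ℤ) :
    ∑ s ∈ Ico 0 D, ind (fun y => Mid A (y / 4 ^ t)) s * g s
      ≤ strayC (PH (liftN t A) D z) (fun τ => midg (QH (liftN t A) D z) (PH (liftN t A) D z) D G ω τ)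
      := by
  have hA := adm_hybrid D z
  refine (midg_left A t D h0 hG).trans (le_trans (le_of_eq ?_)
    (sum_midg (goodQ hA) (goodP hA) (parw_le t) (parw_le t) D hG.nonneg hω))
  change _ = ∑ z ∈ liftN t A, cut D z * (if z - D < 0 then
      ∑ w ∈ liftN t A, cut D w * (parw t z w * ((if w - D < 0 then 1 / 2 else 1)
          * G (-(z - D) - (w - D))))
        + ∑ w ∈ liftN t A, (1 - cut D w) * (parw t z w * G (-(z - D) + (2 * D - w) - D)) else 0)
  have hφ : ∀ x, x < D → cut D x = 1 := fun x hx => by unfold cut; rw [if_pos]; omega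
  refine sum_congr rfl fun z _ => ?_
  by_cases h : z < D
  · rw [if_pos h, if_pos (by omega), hφ z h, one_mul, ← sum_add_distrib]
    refine sum_congr rfl fun w _ => ?_
    rw [show -(z - D) - (w - D) = 2 * D - z - w by ring,
      show -(z - D) + (2 * D - w) - D = 2 * D - z - w by ring]
    have e3 : (if w - D < 0 then (1:ℝ) / 2 else 1) = if w < D then 1 / 2 else 1 := by
      split_ifs <;> first | omega | rfl
    rw [e3]
    unfold parw
    by_cases h1 : par t z w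
    · rw [if_pos h1, if_pos h1]
      by_cases h3 : w < D
      · rw [if_pos h3, hφ w h3]
        ring
      · rw [if_neg h3]
        ring
    · rw [if_neg h1, if_neg h1]
      ring
  · rw [if_neg h, if_neg (by omega), mul_zero]

lemma liftN_bounds {n : ℕ} {A : Finset ℕ} (h : IsMaximalThreeFree n A) {t : ℕ} {x : ℤ}
    (hx : x ∈ liftN t (shift A)) : 0 ≤ x ∧ x < 4 ^ t * (n : ℤ) := by
  obtain ⟨a, ha, c, hc, rfl⟩ := mem_liftN.1 hx
  unfold shift at ha
  rw [mem_image] at ha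
  obtain ⟨b, hb, rfl⟩ := ha
  have hb2 := h.1 hb
  rw [Finset.mem_Icc] at hb2
  have h1 := dig_bounds hc
  have hpos : (1:ℤ) ≤ 4 ^ t := one_le_pow₀ (by norm_num)
  have hb3 : (1:ℤ) ≤ b := by exact_mod_cast hb2.1
  have hb4 : (b:ℤ) ≤ n := by exact_mod_cast hb2.2
  have h2 : 0 ≤ (4:ℤ) ^ t * ((b:ℤ) - 1) := mul_nonneg (by linarith) (by linarith)
  have h3 : (4:ℤ) ^ t * ((b:ℤ) - 1) + 4 ^ t ≤ 4 ^ t * n := by
    have := mul_le_mul_of_nonneg_left hb4 (show (0:ℤ) ≤ 4 ^ t by linarith)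
    linarith
  constructor <;> linarith [h1.1, h1.2]

lemma strayC_add' (Q : WS) (c d : ℤ → ℝ) :
    strayC Q (fun t => c t + d t) = strayC Q c + strayC Q d := by
  unfold strayC
  rw [← sum_add_distrib]
  refine sum_congr rfl fun b _ => ?_
  split_ifs <;> ring

lemma xiR_nonneg (A : Finset ℤ) (t : ℕ) (D z s : ℤ) : 0 ≤ xiR A t D z s := by
  have h := adm_hybrid D z
  unfold xiR extraR
  refine add_nonneg (sum_nonneg fun i _ => sum_nonneg fun j _ => ?_) (ind_nonneg _ _)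
  refine ite_nonneg' ?_
  have h1 := cut_nonneg D i
  have h2 := cut_le_one D i
  have h3 := cut_nonneg D j
  have h4 := cut_le_one D j
  have h5 := h.ψ_le j
  have h6 := mul_nonneg (sub_nonneg.2 h2) (sub_nonneg.2 h5)
  have h7 := mul_nonneg h1 h3
  have h8 := mul_nonneg (sub_nonneg.2 h2) h3
  linarith

lemma xiL_nonneg (A : Finset ℤ) (t : ℕ) (D z s : ℤ) : 0 ≤ xiL A t D z s := by
  have h := adm_hybrid D z
  unfold xiL extraL
  refine add_nonneg (sum_nonneg fun i _ => sum_nonneg fun j _ => ?_) (ind_nonneg _ _)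
  refine ite_nonneg' ?_
  have h1 := cut_nonneg D i
  have h2 := cut_le_one D i
  have h3 := cut_nonneg D j
  have h4 := cut_le_one D j
  have h5 := h.φ_le j
  have h6 := mul_nonneg h1 (sub_nonneg.2 h5)
  have h7 := mul_nonneg (sub_nonneg.2 h2) (sub_nonneg.2 h4)
  have h8 := mul_nonneg h1 (sub_nonneg.2 h4)
  linarith

/-- THE HYBRID FRAME IS AN ENVIRONMENT -/
theorem env_hyb {n : ℕ} {A : Finset ℕ} (h : IsMaximalThreeFree n A) (hlt : A.card ^ 2 < n)
    (t : ℕ) {D K z : ℤ} (hK : 1 ≤ K) (hD : D = 4 * K + 1) (hz : 0 ≤ z)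
    (h1 : 3 * D + 1 ≤ 4 ^ t * (n : ℤ)) (h2 : 4 ^ t * (n : ℤ) ≤ 3 * D + 12)
    (hcov : Cov (liftN t (shift A)) (fun y => Mid (shift A) (y / 4 ^ t)) (3 * D + 1)) :
    Env (PH (liftN t (shift A)) D z) (QH (liftN t (shift A)) D z) D K z (4 ^ t - 1) n
      (xiR (shift A) t D z) (xiL (shift A) t D z) := by
  have hA := adm_hybrid D z
  have hD0 : 0 < D := by omega
  have hpos : (1:ℤ) ≤ 4 ^ t := one_le_pow₀ (by norm_num)
  have hsub : ∀ x ∈ liftN t (shift A), 0 ≤ x ∧ x ≤ 3 * D + 11 := by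
    intro x hx
    have := liftN_bounds h hx
    omega
  have huP : ∀ a ∈ (PH (liftN t (shift A)) D z).S, (PH (liftN t (shift A)) D z).f a ≠ 0 →
      (PH (liftN t (shift A)) D z).u a ≤ 2 * K := fun (a : ℤ) _ h => leP hD a h
  have huQ : ∀ a ∈ (QH (liftN t (shift A)) D z).S, (QH (liftN t (shift A)) D z).f a ≠ 0 →
      (QH (liftN t (shift A)) D z).u a ≤ 2 * K := fun (a : ℤ) _ h => leQ hD a h
  refine ⟨goodP hA, goodQ hA, hK, hD, hz, by omega, dblP _ _ _, dblQ _ _ _, huP, huQ, ?_, ?_,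
    covR_hyb hcov z, covL_hyb hcov z, xiR_nonneg _ _ _ _, xiL_nonneg _ _ _ _,
    by rw [sub_add_cancel]; exact h1, by rw [sub_add_cancel]; exact h2, ?_, ?_, ?_⟩
  · intro (a : ℤ) ha _
    have := (hsub a ha).1
    change -D - 11 ≤ a - D
    omega
  · intro (a : ℤ) ha _
    have := (hsub a ha).2
    change -D - 11 ≤ 2 * D - a
    omega
  · have hm := mass_add (liftN t (shift A)) (cut D) (fun x => if D - z ≤ x then cut D x else 0)
      (fun x => if x ≤ 2 * D + z then 1 - cut D x else 0) D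
    rw [card_liftN, card_shift] at hm
    push_cast at hm
    have e0 : mass (PH (liftN t (shift A)) D z) + mass (QH (liftN t (shift A)) D z)
        = 2 ^ t * A.card := hm
    rw [e0]
    have ht4 : ((2:ℝ) ^ t) ^ 2 = 4 ^ t := by rw [← pow_mul, mul_comm, pow_mul]; norm_num
    have h3 : (4:ℝ) ^ t * n ≤ 3 * D + 12 := by exact_mod_cast h2
    have h4 : (A.card : ℝ) ^ 2 + 1 ≤ n := by exact_mod_cast hlt
    have h5 : (4:ℝ) ^ t * ((A.card : ℝ) ^ 2 + 1) ≤ 4 ^ t * n :=
      mul_le_mul_of_nonneg_left h4 (by positivity)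
    have h6 : (2 ^ t * (A.card : ℝ)) ^ 2 = 4 ^ t * (A.card : ℝ) ^ 2 := by rw [mul_pow, ht4]
    rw [h6]
    push_cast
    linarith
  · intro ω hω g G hg hG
    have e2 := sum_extraR_g (liftN t (shift A)) D (fun x => if D - z ≤ x then cut D x else 0)
      (fun x => if x ≤ 2 * D + z then 1 - cut D x else 0) g
    have x1 := sum_ex1g hz (dblQ (liftN t (shift A)) D z) D g
    have x2 := sum_ex2g (Q := PH (liftN t (shift A)) D z) (D := D)
      (fun b hb h => by have := huP b hb h; omega) g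
    have y1 := midg_right_PQ (shift A) t hD0 hg hG hω z
    have e : ∑ s ∈ Ico 0 D, xiR (shift A) t D z s * g s
        = ∑ s ∈ Ico 0 D, (extraR (liftN t (shift A)) (cut D)
          (fun x => if x ≤ 2 * D + z then 1 - cut D x else 0) D s
          + ind (fun y => Mid (shift A) (y / 4 ^ t)) (3 * D - s)) * g s := rfl
    rw [e]
    simp only [add_mul, sum_add_distrib]
    rw [e2, x1, x2, strayC_add']
    linarith
  · intro ω hω g G hg hG
    have e2 := sum_extraL_g (liftN t (shift A)) D (fun x => if D - z ≤ x then cut D x else 0)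
      (fun x => if x ≤ 2 * D + z then 1 - cut D x else 0) g
    have x1 := sum_ex1g hz (dblP (liftN t (shift A)) D z) D g
    have x2 := sum_ex2g (Q := QH (liftN t (shift A)) D z) (D := D)
      (fun b hb h => by have := huQ b hb h; omega) g
    have y1 := midg_left_PQ (shift A) t hD0 hg hG hω z
    have e : ∑ s ∈ Ico 0 D, xiL (shift A) t D z s * g s
        = ∑ s ∈ Ico 0 D, (extraL (liftN t (shift A)) (cut D)
          (fun x => if D - z ≤ x then cut D x else 0) s
          + ind (fun y => Mid (shift A) (y / 4 ^ t)) s) * g s := rfl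
    rw [e]
    simp only [add_mul, sum_add_distrib]
    rw [e2, x1, x2, strayC_add']
    linarith

/-! ### Majorants -/

/-- price bounded by a nondecreasing function `c` of the depth: mean of `c` at the exact depth and
at the depth shifted by `E / 2` -/
lemma maj_mono {D E : ℤ} {g c : ℤ → ℝ} (hc : Monotone c) (h0 : ∀ x, 0 ≤ c x)
    (hg : ∀ s, 0 ≤ s → s < D → g s ≤ c (D - s)) :
    Maj D E g (fun X => 1 / 2 * (cp c (X / 2) + cp c ((X + E) / 2))) where
  nonneg := fun x => mul_nonneg (by norm_num) (add_nonneg (cp_nonneg h0 _) (cp_nonneg h0 _))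
  maj := by
    intro j j' h1 h2
    have hm := cp_mono hc h0
    have hd : ∀ j, gdep D g j ≤ cp c j := by
      intro j
      unfold gdep cp
      by_cases c1 : 1 ≤ j ∧ j ≤ D
      · rw [if_pos c1, if_pos (by omega)]
        have := hg (D - j) (by omega) (by omega)
        rwa [show D - (D - j) = j by ring] at this
      · rw [if_neg c1]
        split_ifs
        · exact h0 _
        · exact le_rfl
    have a1 := hd j
    have a2 := hd j'
    rcases le_total j j' with h | h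
    · have b1 := hm (show j ≤ (j + j') / 2 by omega)
      have b2 := hm (show j' ≤ (j + j' + E) / 2 by omega)
      linarith
    · have b1 := hm (show j' ≤ (j + j') / 2 by omega)
      have b2 := hm (show j ≤ (j + j' + E) / 2 by omega)
      linarith

/-- the labels `x ≤ s < y` (depths `D - y < j ≤ D - x`), crude -/
lemma maj_window {D E : ℤ} (x y : ℤ) :
    Maj D E (fun s => if x ≤ s ∧ s < y then 1 else 0)
      (fun X => if 2 * (D - y) - E < X ∧ X ≤ 2 * (D - x) + E ∧ 0 < X + E then 1 else 0) where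
  nonneg := fun X => by split_ifs <;> norm_num
  maj := by
    intro j j' h1 h2
    by_cases c : 2 * (D - y) - E < j + j' ∧ j + j' ≤ 2 * (D - x) + E ∧ 0 < j + j' + E
    · simp only [if_pos c]
      have o : ∀ j : ℤ, gdep D (fun s => if x ≤ s ∧ s < y then (1:ℝ) else 0) j ≤ 1 := by
        intro j
        unfold gdep
        beta_reduce
        split_ifs <;> norm_num
      have := o j
      have := o j'
      linarith
    · simp only [if_neg c]
      have z : ∀ j j' : ℤ, j - j' ≤ E → j' - j ≤ E →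
          ¬ (2 * (D - y) - E < j + j' ∧ j + j' ≤ 2 * (D - x) + E ∧ 0 < j + j' + E) →
          gdep D (fun s => if x ≤ s ∧ s < y then (1:ℝ) else 0) j = 0 := by
        intro j j' h1 h2 c
        unfold gdep
        by_cases c1 : 1 ≤ j ∧ j ≤ D
        · rw [if_pos c1]
          beta_reduce
          rw [if_neg]
          omega
        · rw [if_neg c1]
      rw [z j j' h1 h2 c, z j' j h2 h1 (by rwa [add_comm j' j])]
      norm_num

/-- number of external labels `x ≤ s < y` of the right side -/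
lemma Env.extR {P Q : WS} {D K V E N : ℤ} {ξR ξL : ℤ → ℝ} (h : Env P Q D K V E N ξR ξL)
    {ω : ℤ → ℤ → ℝ} (hω : ∀ x y, ω x y + ω y x = 1) (x y : ℤ) :
    ∑ s ∈ Ico 0 D, ξR s * (if x ≤ s ∧ s < y then 1 else 0)
      ≤ strayC Q (fun τ => ex1g Q D V (fun s => if x ≤ s ∧ s < y then 1 else 0) τ
          + midg P Q D (fun X => if 2 * (D - y) - E < X ∧ X ≤ 2 * (D - x) + E ∧ 0 < X + E
              then 1 else 0) ω τ)
        + strayC P (fun τ => ex2g P D (fun s => if x ≤ s ∧ s < y then 1 else 0) τ) :=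
  h.exR ω hω _ _ (fun s _ _ => by split_ifs <;> norm_num) (maj_window x y)

/-- product of the masses -/
lemma Env.mass_mul {P Q : WS} {D K V E N : ℤ} {ξR ξL : ℤ → ℝ} (h : Env P Q D K V E N ξR ξL) :
    4 * (mass P * mass Q) + (mass P - mass Q) ^ 2 + E ≤ 3 * D + 11 := by
  have := h.hm
  linarith [show (mass P + mass Q) ^ 2 = 4 * (mass P * mass Q) + (mass P - mass Q) ^ 2 by ring]

end

end MP61673a.Fin
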