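import Pool.Agent.Mu673.NetsS
import Pool.Agent.Mu673.Env

/-!
Final reduction with the truncated midpoints (`netS`): the strips are paid by the room
`4^t/4 + (l-r)²/4` of the identity. No imbalance weights.
-/

namespace MP61673a.Fin

open Finset MP61673a.W MP61673a.LiftW MP61673a.Mids
open MP61673a.Lift hiding PP QQ

noncomputable section

/-- pairs with a large difference: the two roles lie in disjoint ranges of positions -/
lemma nn_quarter {P : WS} (hP : Good P) {V w B θ : ℤ} (dP : Dbl P V)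
    (hu : ∀ a ∈ P.S, P.f a ≠ 0 → P.u a ≤ B) (h1 : B - w < 2 * θ) (h2 : θ ≤ w - 2 * V) :
    4 * nn P w ≤ mass P ^ 2 := by
  have e1 : nn P w ≤ ge P θ * lt P θ := by
    unfold nn ge lt
    rw [sum_mul_sum]
    refine sum_le_sum fun a ha => sum_le_sum fun b hb => ?_
    have fa := hP.f_nonneg a ha
    have fb := hP.f_nonneg b hb
    have gb := hP.f1_nonneg b hb
    have lb := hP.f1_le b hb
    by_cases c : w ≤ P.u a - 2 * P.u b
    · rw [if_pos c]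
      by_cases z1 : P.f a = 0
      · rw [z1, zero_mul]
        split_ifs <;> simp
      by_cases z2 : P.f1 b = 0
      · rw [z2, mul_zero]
        refine mul_nonneg ?_ ?_ <;> split_ifs <;> first | exact fa | exact fb | exact le_rfl
      have hb2 : -V ≤ P.u b := by
        by_contra hcon
        exact z2 (by rw [dP b hb, if_neg hcon])
      have ha2 := hu a ha z1
      rw [if_pos (show θ ≤ P.u a by omega), if_pos (show P.u b < θ by omega)]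
      exact mul_le_mul_of_nonneg_left lb fa
    · rw [if_neg c]
      refine mul_nonneg ?_ ?_ <;> split_ifs <;> first | exact fa | exact fb | exact le_rfl
  have e2 := lt_add_ge P θ
  rw [← e2]
  nlinarith [sq_nonneg (ge P θ - lt P θ)]

lemma cprE_le {P : WS} {D K ρ x0 : ℤ} (hD : D = 4 * K + 1) (hρ : 0 ≤ ρ) (hx : ρ ≤ x0)
    (hxK : x0 ≤ K) (hρK : ρ ≤ K) :
    cprE P D K (K - ρ) ρ x0 ≤ ((x0:ℝ) - ρ) / 2 + 1 + nn P (2 * K + 1 + ρ - 2 * x0) := by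
  unfold cprE cpriceE
  have k1 : kap K (K - ρ) ρ (D - x0) ≤ ((x0:ℝ) - ρ) / 2 + 1 := by
    unfold kap
    have h1 : ∑ g ∈ Icc (0:ℤ) (K - ρ), (if D - x0 < 2 * K + 1 + ρ + 2 * g then (1:ℝ) else 0)
        ≤ ∑ g ∈ Icc (K - (x0 + ρ) / 2) (K - ρ), (1:ℝ) := by
      rw [← sum_filter]
      refine sum_le_sum_of_subset_of_nonneg ?_ fun _ _ _ => by norm_num
      intro g hg
      rw [mem_filter, mem_Icc] at hg
      rw [mem_Icc]
      omega
    rw [sum_const, Int.card_Icc, nsmul_eq_mul, mul_one] at h1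
    refine h1.trans ?_
    have h2 : 2 * (((K - ρ + 1 - (K - (x0 + ρ) / 2)).toNat : ℕ) : ℤ) ≤ x0 - ρ + 2 := by omega
    have h3 : 2 * (((K - ρ + 1 - (K - (x0 + ρ) / 2)).toNat : ℕ) : ℝ) ≤ x0 - ρ + 2 := by
      exact_mod_cast h2
    linarith
  rw [if_pos (by omega), max_eq_left (by omega),
    show 2 * (D - x0 - (D - K)) + 1 + ρ = 2 * K + 1 + ρ - 2 * x0 by ring]
  linarith

lemma strip_le {P : WS} (hP : Good P) {D K ρ x0 : ℤ} (hD : D = 4 * K + 1) (hρ : 1 ≤ ρ)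
    (hx : ρ ≤ x0) (hxK : x0 ≤ K) (hρK : ρ ≤ K) :
    strip P D K (K - ρ) ρ x0
      ≤ ((x0:ℝ) - ρ + 1) * (((x0:ℝ) - ρ) / 2 + 1 + nn P (2 * K + 1 + ρ - 2 * x0)) := by
  have h1 : strip P D K (K - ρ) ρ x0 ≤ ∑ j ∈ Icc ρ x0, cprE P D K (K - ρ) ρ x0 := by
    unfold strip
    have h2 : ∑ j ∈ Icc 1 x0, cprE P D K (K - ρ) ρ j
        = ∑ j ∈ Icc ρ x0, cprE P D K (K - ρ) ρ j := by
      symm
      refine sum_subset (fun j hj => ?_) (fun j hj hj2 => ?_)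
      · rw [mem_Icc] at hj ⊢
        omega
      · rw [mem_Icc] at hj hj2
        exact cprE_zero P (by omega) (by omega) (by omega)
    rw [h2]
    refine sum_le_sum fun j hj => ?_
    rw [mem_Icc] at hj
    exact cprE_mono hP D K (K - ρ) ρ hj.2
  refine h1.trans ?_
  rw [sum_const, Int.card_Icc, nsmul_eq_mul]
  have h3 : (((x0 + 1 - ρ).toNat : ℕ) : ℤ) = x0 + 1 - ρ := Int.toNat_of_nonneg (by omega)
  have h4 : (((x0 + 1 - ρ).toNat : ℕ) : ℝ) = x0 - ρ + 1 := by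
    have : (((x0 + 1 - ρ).toNat : ℕ) : ℝ) = ((x0 + 1 - ρ : ℤ) : ℝ) := by exact_mod_cast h3
    rw [this]
    push_cast
    ring
  rw [h4]
  refine mul_le_mul_of_nonneg_left (cprE_le hD (by omega) hx hxK hρK) ?_
  have : (ρ:ℝ) ≤ x0 := by exact_mod_cast hx
  linarith

/-- THE ROOM PAYS THE STRIPS -/
theorem strips_room {P Q : WS} (hP : Good P) (hQ : Good Q) {D K ρ V E : ℤ} (hD : D = 4 * K + 1)
    (hρ : 1 ≤ ρ) (h10 : 10 * ρ ≤ K) (hV0 : 0 ≤ V) (hV : 2 * V ≤ K + ρ) (hE : 1023 ≤ E)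
    (hE2 : 122 * (E + 1) ≤ 3 * D + 12)
    (dP : Dbl P V) (dQ : Dbl Q V)
    (uP : ∀ a ∈ P.S, P.f a ≠ 0 → P.u a ≤ 2 * K) (uQ : ∀ b ∈ Q.S, Q.f b ≠ 0 → Q.u b ≤ 2 * K)
    (hm : (mass P + mass Q) ^ 2 + E ≤ 3 * D + 11) :
    strip P D K (K - ρ) ρ (ρ + E / 2) + strip Q D K (K - ρ) ρ (ρ + E / 2)
      ≤ ((mass P - mass Q) ^ 2 / 4 + 19 / 80 * (E + 1)) * budgetE P Q K ρ := by
  set x0 := ρ + E / 2 with hx0
  have s1 := strip_le hP hD hρ (show ρ ≤ x0 by omega) (by omega) (by omega)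
  have s2 := strip_le hQ hD hρ (show ρ ≤ x0 by omega) (by omega) (by omega)
  have q1 := nn_quarter hP (V := V) (w := 2 * K + 1 + ρ - 2 * x0) (B := 2 * K)
    (θ := (ρ + E) / 2 + 1) dP uP (by omega) (by omega)
  have q2 := nn_quarter hQ (V := V) (w := 2 * K + 1 + ρ - 2 * x0) (B := 2 * K)
    (θ := (ρ + E) / 2 + 1) dQ uQ (by omega) (by omega)
  have a1 := nn_anti hP (show 1 + ρ ≤ 2 * K + 1 + ρ - 2 * x0 by omega)
  have a2 := nn_anti hQ (show 1 + ρ ≤ 2 * K + 1 + ρ - 2 * x0 by omega)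
  have n1 := nn_nonneg hP (2 * K + 1 + ρ - 2 * x0)
  have n2 := nn_nonneg hQ (2 * K + 1 + ρ - 2 * x0)
  have mP := mass_nonneg hP
  have mQ := mass_nonneg hQ
  set l := mass P
  set r := mass Q
  set X1 := nn P (2 * K + 1 + ρ - 2 * x0)
  set X2 := nn Q (2 * K + 1 + ρ - 2 * x0)
  have hDr : (D:ℝ) = 4 * K + 1 := by exact_mod_cast hD
  have ex : (x0:ℝ) - ρ ≤ E / 2 := by
    have h : 2 * (x0 - ρ) ≤ E := by omega
    have h' : 2 * ((x0:ℝ) - ρ) ≤ E := by exact_mod_cast h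
    linarith
  have ex0 : (0:ℝ) ≤ (x0:ℝ) - ρ := by
    have h : ρ ≤ x0 := by omega
    have h' : (ρ:ℝ) ≤ x0 := by exact_mod_cast h
    linarith
  have hEr : (1023:ℝ) ≤ E := by exact_mod_cast hE
  have hE2r : 122 * ((E:ℝ) + 1) ≤ 3 * D + 12 := by exact_mod_cast hE2
  have hρr : 10 * (ρ:ℝ) ≤ K := by exact_mod_cast h10
  have hρ1 : (1:ℝ) ≤ ρ := by exact_mod_cast hρ
  rw [hDr] at hE2r hm
  -- strips
  have t1 : strip P D K (K - ρ) ρ x0 ≤ ((E:ℝ) / 2 + 1) * (E / 4 + 1 + X1) :=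
    s1.trans (mul_le_mul (by linarith) (by linarith) (by linarith) (by linarith))
  have t2 : strip Q D K (K - ρ) ρ x0 ≤ ((E:ℝ) / 2 + 1) * (E / 4 + 1 + X2) :=
    s2.trans (mul_le_mul (by linarith) (by linarith) (by linarith) (by linarith))
  set X := X1 + X2 with hX
  set h := l - r with hh
  have hXb : 8 * X ≤ 12 * K + 14 + h ^ 2 := by
    have : (l + r) ^ 2 + (l - r) ^ 2 = 2 * l ^ 2 + 2 * r ^ 2 := by ring
    rw [hh]
    linarith
  have hX0 : 0 ≤ X := by positivity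
  have hB : 2 * ((K:ℝ) - ρ + 1) + X ≤ budgetE P Q K ρ := by
    unfold budgetE
    linarith
  have hB9 : 9 / 5 * (K:ℝ) ≤ budgetE P Q K ρ := by linarith
  have hsum : strip P D K (K - ρ) ρ x0 + strip Q D K (K - ρ) ρ x0
      ≤ ((E:ℝ) / 2 + 1) * (E / 2 + 2 + X) := by
    have : ((E:ℝ) / 2 + 1) * (E / 4 + 1 + X1) + ((E:ℝ) / 2 + 1) * (E / 4 + 1 + X2)
        = ((E:ℝ) / 2 + 1) * (E / 2 + 2 + X) := by
      rw [hX]
      ring
    linarith
  refine hsum.trans ?_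
  have hK : (122:ℝ) * (E + 1) ≤ 12 * K + 15 := by linarith
  set B := budgetE P Q K ρ
  have g1 : 19 / 80 * ((E:ℝ) + 1) * (9 / 5 * K + X) ≤ 19 / 80 * ((E:ℝ) + 1) * B := by
    refine mul_le_mul_of_nonneg_left ?_ (by positivity)
    linarith
  have g2 : h ^ 2 / 4 * (9 / 5 * K) ≤ h ^ 2 / 4 * B :=
    mul_le_mul_of_nonneg_left hB9 (by positivity)
  have g3 : ((E:ℝ) / 2 + 1 - 19 / 80 * (E + 1)) * X
      ≤ ((E:ℝ) / 2 + 1 - 19 / 80 * (E + 1)) * ((12 * K + 14 + h ^ 2) / 8) :=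
    mul_le_mul_of_nonneg_left (by linarith) (by linarith)
  have g4 : ((E:ℝ) / 2 + 1 - 19 / 80 * (E + 1)) * (h ^ 2 / 8) ≤ h ^ 2 / 4 * (9 / 5 * K) := by
    have : ((E:ℝ) / 2 + 1 - 19 / 80 * (E + 1)) / 8 ≤ 9 / 20 * K := by linarith
    have h2 := mul_le_mul_of_nonneg_right this (sq_nonneg h)
    linarith
  have g5 : ((E:ℝ) / 2 + 1) * (E / 2 + 2)
      + ((E:ℝ) / 2 + 1 - 19 / 80 * (E + 1)) * ((12 * K + 14) / 8)
      ≤ 19 / 80 * ((E:ℝ) + 1) * (9 / 5 * K) := by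
    set e : ℝ := (E:ℝ) + 1 with he
    have hEe : (E:ℝ) = e - 1 := by rw [he]; ring
    rw [hEe]
    have he1 : (1024:ℝ) ≤ e := by linarith
    have hK1 : (10000:ℝ) ≤ K := by linarith
    have p1 : 0 ≤ (12 * (K:ℝ) + 15 - 122 * e) * e := mul_nonneg (by linarith) (by linarith)
    have p2 : 0 ≤ (e - 1024) * (K:ℝ) := mul_nonneg (by linarith) (by linarith)
    have p3 : 0 ≤ ((K:ℝ) - 10000) * e := mul_nonneg (by linarith) (by linarith)
    have e1 : 19 / 80 * e * (9 / 5 * (K:ℝ)) - ((e - 1) / 2 + 1) * ((e - 1) / 2 + 2)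
        - ((e - 1) / 2 + 1 - 19 / 80 * e) * ((12 * K + 14) / 8)
        = 171 / 400 * (e * K) - (e * e / 4 + e + 3 / 4) - 63 / 160 * (e * K) - 147 / 320 * e
          - 3 / 4 * K - 7 / 8 := by ring
    have e2 : (12 * (K:ℝ) + 15 - 122 * e) * e = 12 * (e * K) + 15 * e - 122 * (e * e) := by ring
    have e3 : (e - 1024) * (K:ℝ) = e * K - 1024 * K := by ring
    have e4 : ((K:ℝ) - 10000) * e = e * K - 10000 * e := by ring
    rw [e2] at p1
    rw [e3] at p2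
    rw [e4] at p3
    linarith
  have e5 : ((E:ℝ) / 2 + 1) * (E / 2 + 2 + X)
      = ((E:ℝ) / 2 + 1) * (E / 2 + 2) + ((E:ℝ) / 2 + 1 - 19 / 80 * (E + 1)) * X
        + 19 / 80 * ((E:ℝ) + 1) * X := by ring
  have e6 : ((E:ℝ) / 2 + 1 - 19 / 80 * (E + 1)) * ((12 * K + 14 + h ^ 2) / 8)
      = ((E:ℝ) / 2 + 1 - 19 / 80 * (E + 1)) * ((12 * K + 14) / 8)
        + ((E:ℝ) / 2 + 1 - 19 / 80 * (E + 1)) * (h ^ 2 / 8) := by ring
  have e7 : 19 / 80 * ((E:ℝ) + 1) * (9 / 5 * K + X)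
      = 19 / 80 * ((E:ℝ) + 1) * (9 / 5 * K) + 19 / 80 * ((E:ℝ) + 1) * X := by ring
  have e8 : (h ^ 2 / 4 + 19 / 80 * ((E:ℝ) + 1)) * B
      = h ^ 2 / 4 * B + 19 / 80 * ((E:ℝ) + 1) * B := by ring
  rw [e5, e8]
  rw [e6] at g3
  rw [e7] at g1
  linarith

/-- FINAL REDUCTION, nothing dropped, truncated midpoints -/
theorem finish_totalS {n : ℕ} {A : Finset ℕ} (h : IsMaximalThreeFree n A)
    {ω : ℤ → ℤ → ℝ} (hω : ∀ x y, ω x y + ω y x = 1) (h5 : 5 ≤ n)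
    (hmain : A.card ^ 2 < n → ∃ t : ℕ, 1 ≤ t ∧ ∀ D K : ℤ, 1 ≤ K → D = 4 * K + 1 →
      3 * D + 1 ≤ 4 ^ t * (n : ℤ) → 4 ^ t * (n : ℤ) ≤ 3 * D + 12 →
      Cov (liftN t (shift A)) (fun y => Mid (shift A) (y / 4 ^ t)) (3 * D + 1) →
      ∃ ρ z x0 : ℤ, 1 ≤ ρ ∧ ρ ≤ K ∧ 0 ≤ z ∧ x0 ≤ D ∧
      ∀ P Q : WS, P = PH (liftN t (shift A)) D z → Q = QH (liftN t (shift A)) D z →
        -(((mass P - mass Q) ^ 2 / 4 + ((4:ℝ) ^ t / 4 - 3)) * budgetE P Q K ρ)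
          ≤ netSumS P Q ω D K ρ z (4 ^ t - 1) x0 0 + netSumS Q P ω D K ρ z (4 ^ t - 1) x0 1
            + (deepB P Q D K (K - ρ) ρ + deepB Q P D K (K - ρ) ρ)
            + coreGE P Q D K (K - ρ) ρ
            + wstE P Q D K (K - ρ) ρ (xiR (shift A) t D z)
            + wstE Q P D K (K - ρ) ρ (xiL (shift A) t D z)
            - (strip P D K (K - ρ) ρ x0 + strip Q D K (K - ρ) ρ x0)) :
    n ≤ A.card ^ 2 := by
  refine finish_roomE h ?_ h5
  intro hlt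
  obtain ⟨t, ht, hall⟩ := hmain hlt
  refine ⟨t, ht, ?_⟩
  intro D K hK hD h1 h2 hcov
  obtain ⟨ρ, z, x0, hρ, hρK, hz, hx, hPQ⟩ := hall D K hK hD h1 h2 hcov
  exact ⟨ρ, _, _, hρ, hρK, adm_hybrid D z,
    (hPQ _ _ rfl rfl).trans (rest_ge_totalS (shift A) t hω hρ hρK hD hz hx)⟩

/-- without imbalance weights the imbalance does not enter the demand -/
lemma demand_zero {P Q : WS} {D : ℤ} (B h : ℝ) (d : ℤ → ℝ) (χ ψ κ κ' : ℤ → ℤ → ℝ)
    (eR eL : ℤ → ℝ) (τ : ℤ) :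
    demand P Q D B h (fun _ => 0) d χ ψ κ κ' eR eL τ
      = demand P Q D B 0 (fun _ => 0) d χ ψ κ κ' eR eL τ := by
  unfold demand
  simp

/-- FINAL REDUCTION, per stray, truncated midpoints, no imbalance weights. The midpoints pay only
for the labels of depth `> ρ + E/2`, `E = 4^t - 1`. -/
theorem finish_chargeS {n : ℕ} {A : Finset ℕ} (h : IsMaximalThreeFree n A) {C : ℝ} (hC : 0 ≤ C)
    (t0 : ℕ) {ω : ℤ → ℤ → ℝ} (hω : ∀ x y, ω x y + ω y x = 1) (hn : 122 ≤ n)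
    (hmain : A.card ^ 2 < n → ∀ t : ℕ, t0 ≤ t → ∀ D K : ℤ, 1 ≤ K → D = 4 * K + 1 →
      3 * D + 1 ≤ 4 ^ t * (n : ℤ) → 4 ^ t * (n : ℤ) ≤ 3 * D + 12 →
      Cov (liftN t (shift A)) (fun y => Mid (shift A) (y / 4 ^ t)) (3 * D + 1) →
      ∃ ρ z : ℤ, 1 ≤ ρ ∧ 10 * ρ ≤ K ∧ 0 ≤ z ∧ 2 * z ≤ K + ρ ∧
      ∀ P Q : WS, P = PH (liftN t (shift A)) D z → Q = QH (liftN t (shift A)) D z →
        ∀ eR eL : ℤ → ℝ, eR = exc P Q D (xiR (shift A) t D z) →
          eL = exc Q P D (xiL (shift A) t D z) →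
        ∃ (dR dL κ0 κ0' : ℤ → ℝ) (χR χL ψ κR κR' κL κL' : ℤ → ℤ → ℝ),
        -(strayC Q dR + strayC P dL) - ∑ s ∈ Ico 0 D, (eR s * κ0 s + eL s * κ0' s)
            - C * K * 2 ^ t
          ≤ (deepB P Q D K (K - ρ) ρ + deepB Q P D K (K - ρ) ρ) + coreGE P Q D K (K - ρ) ρ ∧
        (∀ s, 0 ≤ s → s < D →
          κ0 s + (strayC Q (fun τ => κR τ s) + strayC P (fun τ => κL τ s))
          ≤ priceE P Q D K (K - ρ) ρ s + C * 2 ^ t) ∧
        (∀ s, 0 ≤ s → s < D →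
          κ0' s + (strayC Q (fun τ => κR' τ s) + strayC P (fun τ => κL' τ s))
          ≤ priceE Q P D K (K - ρ) ρ s + C * 2 ^ t) ∧
        (∀ b ∈ Q.S, Q.f b ≠ 0 → Q.u b < 0 →
          demand P Q D (budgetE P Q K ρ) 0 (fun _ => 0) dR χR ψ κR κR' eR eL (-Q.u b)
              - C * K
            ≤ netS P Q ω D K (K - ρ) ρ ρ z (4 ^ t - 1) (ρ + (4 ^ t - 1) / 2) 0 (-Q.u b)) ∧
        (∀ a ∈ P.S, P.f a ≠ 0 → P.u a < 0 →
          demand Q P D (budgetE P Q K ρ) 0 (fun _ => 0) dL χL (fun τ τ' => -ψ τ' τ)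
              κL κL' eR eL (-P.u a) - C * K
            ≤ netS Q P ω D K (K - ρ) ρ ρ z (4 ^ t - 1) (ρ + (4 ^ t - 1) / 2) 1 (-P.u a))) :
    n ≤ A.card ^ 2 := by
  refine finish_totalS h hω (by omega) ?_
  intro hlt
  set C' : ℝ := C * A.card + C + 54 * C * A.card ^ 2 with hC'
  have hC'0 : 0 ≤ C' := by positivity
  obtain ⟨t1, ht1⟩ : ∃ t1 : ℕ, 80 * C' + 240 ≤ 2 ^ t1 := by
    obtain ⟨m, hm⟩ := pow_unbounded_of_one_lt (80 * C' + 240) (one_lt_two (α := ℝ))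
    exact ⟨m, hm.le⟩
  set t := max (max t0 t1) 5 with ht
  have ht5 : 5 ≤ t := le_max_right _ _
  refine ⟨t, by omega, ?_⟩
  have ht0 : t0 ≤ t := (le_max_left _ _).trans (le_max_left _ _)
  have htt1 : t1 ≤ t := (le_max_right _ _).trans (le_max_left _ _)
  intro D K hK hD h1 h2 hcov
  obtain ⟨ρ, z, hρ, hρK, hz, hzK, hall⟩ := hmain hlt t ht0 D K hK hD h1 h2 hcov
  have hR1024 : (1024:ℤ) ≤ 4 ^ t := by
    calc (1024:ℤ) = 4 ^ 5 := by norm_num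
      _ ≤ 4 ^ t := pow_le_pow_right₀ (by norm_num) ht5
  have hn' : (122:ℤ) ≤ n := by exact_mod_cast hn
  have h122 : 122 * ((4 ^ t - 1 : ℤ) + 1) ≤ 3 * D + 12 := by
    have e1 : 122 * (4:ℤ) ^ t ≤ 4 ^ t * n := by
      rw [mul_comm (122:ℤ)]
      exact mul_le_mul_of_nonneg_left hn' (by positivity)
    linarith
  refine ⟨ρ, z, ρ + (4 ^ t - 1) / 2, hρ, by omega, hz, by omega, ?_⟩
  rintro P Q rfl rfl
  obtain ⟨dR, dL, κ0, κ0', χR, χL, ψ, κR, κR', κL, κL', hdeep, hpR, hpL, hR,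
    hL⟩ := hall _ _ rfl rfl _ _ rfl rfl
  have gP : Good (PH (liftN t (shift A)) D z) := goodP (adm_hybrid D z)
  have gQ : Good (QH (liftN t (shift A)) D z) := goodQ (adm_hybrid D z)
  have env := env_hyb h hlt t hK hD hz h1 h2 hcov
  have hm := mass_add (liftN t (shift A)) (cut D) (fun x => if D - z ≤ x then cut D x else 0)
    (fun x => if x ≤ 2 * D + z then 1 - cut D x else 0) D
  rw [card_liftN, card_shift] at hm
  have hK1 : (1:ℝ) ≤ K := by exact_mod_cast hK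
  have sR := sum_exc_le (A := shift A) (t := t) (D := D) z
  have sL := sum_exc_le' (A := shift A) (t := t) (D := D) z
  rw [card_shift] at sR sL
  have cvR := covR_hyb hcov z
  have cvL := covL_hyb hcov z
  set P := PH (liftN t (shift A)) D z with hPdef
  set Q := QH (liftN t (shift A)) D z with hQdef
  have hstrip := strips_room gP gQ hD hρ hρK hz hzK (by omega) h122 env.dP env.dQ env.uP env.uQ
    env.hm
  push_cast at hstrip
  rw [sub_add_cancel] at hstrip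
  set eR := exc P Q D (xiR (shift A) t D z) with heR
  set eL := exc Q P D (xiL (shift A) t D z) with heL
  have nP := nn_nonneg gP (1 + ρ)
  have nQ := nn_nonneg gQ (1 + ρ)
  have hρK' : 10 * (ρ:ℝ) ≤ K := by exact_mod_cast hρK
  have hρ1 : (1:ℝ) ≤ ρ := by exact_mod_cast hρ
  have hB2 : (K:ℝ) ≤ budgetE P Q K ρ := by
    unfold budgetE
    linarith
  have hB : 0 < budgetE P Q K ρ := by linarith
  have z0 : ∀ Q : WS, 0 ≤ strayC Q (fun _ => (0:ℝ)) := fun Q => by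
    unfold strayC
    simp
  have q1 := sum_demand (D := D) (h := 0) hB (dR := dR) (dL := dL) (z0 Q) (z0 P)
    χR χL ψ κR κR' κL κL' eR eL
  rw [neg_zero] at q1
  have q2 : strayC Q (demand P Q D (budgetE P Q K ρ) 0 (fun _ => 0) dR χR ψ κR κR' eR eL)
      - C * K * mass Q ≤ netSumS P Q ω D K ρ z (4 ^ t - 1) (ρ + (4 ^ t - 1) / 2) 0 := by
    have e1 := strayC_const_le gQ (e := C * K) (mul_nonneg hC (by linarith))
    have e2 := strayC_mono gQ (c := fun τ => demand P Q D (budgetE P Q K ρ) 0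
      (fun _ => 0) dR χR ψ κR κR' eR eL τ - C * K) hR
    rw [strayC_sub] at e2
    unfold netSumS
    linarith
  have q3 : strayC P (demand Q P D (budgetE P Q K ρ) 0 (fun _ => 0) dL χL
      (fun τ τ' => -ψ τ' τ) κL κL' eR eL)
      - C * K * mass P ≤ netSumS Q P ω D K ρ z (4 ^ t - 1) (ρ + (4 ^ t - 1) / 2) 1 := by
    have e1 := strayC_const_le gP (e := C * K) (mul_nonneg hC (by linarith))
    have e2 := strayC_mono gP (c := fun τ => demand Q P D (budgetE P Q K ρ)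
      0 (fun _ => 0) dL χL (fun τ τ' => -ψ τ' τ) κL κL' eR eL τ - C * K) hL
    rw [strayC_sub] at e2
    unfold netSumS
    linarith
  have t2 : (0:ℝ) < 2 ^ t := by positivity
  have w1 : ∑ s ∈ Ico 0 D, eR s * κ0 s
      + ∑ s ∈ Ico 0 D, eR s * (strayC Q (fun τ => κR τ s) + strayC P (fun τ => κL τ s))
      ≤ wstE P Q D K (K - ρ) ρ (xiR (shift A) t D z)
        + C * 2 ^ t * ((4:ℝ) ^ t * A.card ^ 2) := by
    rw [← sum_add_distrib]
    have e1 : ∑ s ∈ Ico 0 D, (eR s * κ0 s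
          + eR s * (strayC Q (fun τ => κR τ s) + strayC P (fun τ => κL τ s)))
        ≤ ∑ s ∈ Ico 0 D, (eR s * priceE P Q D K (K - ρ) ρ s + C * 2 ^ t * eR s) := by
      refine sum_le_sum fun s hs => ?_
      rw [mem_Ico] at hs
      have e2 := mul_le_mul_of_nonneg_left (hpR s hs.1 hs.2) (exc_nonneg cvR hs.1 hs.2)
      rw [← heR] at e2
      linarith
    have e5 : ∑ s ∈ Ico 0 D, (eR s * priceE P Q D K (K - ρ) ρ s + C * 2 ^ t * eR s)
        = ∑ s ∈ Ico 0 D, eR s * priceE P Q D K (K - ρ) ρ s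
          + C * 2 ^ t * ∑ s ∈ Ico 0 D, eR s := by
      rw [sum_add_distrib, ← mul_sum]
    have e3 := mul_le_mul_of_nonneg_left sR (by positivity : 0 ≤ C * 2 ^ t)
    have e4 : wstE P Q D K (K - ρ) ρ (xiR (shift A) t D z)
        = ∑ s ∈ Ico 0 D, eR s * priceE P Q D K (K - ρ) ρ s := rfl
    rw [e4]
    linarith
  have w2 : ∑ s ∈ Ico 0 D, eL s * κ0' s
      + ∑ s ∈ Ico 0 D, eL s * (strayC Q (fun τ => κR' τ s) + strayC P (fun τ => κL' τ s))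
      ≤ wstE Q P D K (K - ρ) ρ (xiL (shift A) t D z)
        + C * 2 ^ t * ((4:ℝ) ^ t * A.card ^ 2) := by
    rw [← sum_add_distrib]
    have e1 : ∑ s ∈ Ico 0 D, (eL s * κ0' s
          + eL s * (strayC Q (fun τ => κR' τ s) + strayC P (fun τ => κL' τ s)))
        ≤ ∑ s ∈ Ico 0 D, (eL s * priceE Q P D K (K - ρ) ρ s + C * 2 ^ t * eL s) := by
      refine sum_le_sum fun s hs => ?_
      rw [mem_Ico] at hs
      have e2 := mul_le_mul_of_nonneg_left (hpL s hs.1 hs.2) (exc_nonneg cvL hs.1 hs.2)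
      rw [← heL] at e2
      linarith
    have e5 : ∑ s ∈ Ico 0 D, (eL s * priceE Q P D K (K - ρ) ρ s + C * 2 ^ t * eL s)
        = ∑ s ∈ Ico 0 D, eL s * priceE Q P D K (K - ρ) ρ s
          + C * 2 ^ t * ∑ s ∈ Ico 0 D, eL s := by
      rw [sum_add_distrib, ← mul_sum]
    have e3 := mul_le_mul_of_nonneg_left sL (by positivity : 0 ≤ C * 2 ^ t)
    have e4 : wstE Q P D K (K - ρ) ρ (xiL (shift A) t D z)
        = ∑ s ∈ Ico 0 D, eL s * priceE Q P D K (K - ρ) ρ s := rfl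
    rw [e4]
    linarith
  push_cast at hm
  have h4t : (4:ℝ) ^ t ≤ 27 * K := by
    have e1 : (4:ℤ) ^ t ≤ 4 ^ t * (n:ℤ) := le_mul_of_one_le_right (by positivity) (by omega)
    have e2 : (4:ℤ) ^ t ≤ 27 * K := by omega
    exact_mod_cast e2
  have k0 : (0:ℝ) ≤ A.card := Nat.cast_nonneg _
  have herr : C * K * (mass P + mass Q) ≤ C * A.card * 2 ^ t * budgetE P Q K ρ := by
    rw [hm]
    have e1 : 0 ≤ C * A.card * 2 ^ t := by positivity
    have e2 : C * K * (2 ^ t * A.card) = C * A.card * 2 ^ t * K := by ring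
    rw [e2]
    exact mul_le_mul_of_nonneg_left hB2 e1
  have herr2 : C * K * 2 ^ t ≤ C * 2 ^ t * budgetE P Q K ρ := by
    have e1 : 0 ≤ C * 2 ^ t := by positivity
    have e2 : C * K * 2 ^ t = C * 2 ^ t * K := by ring
    rw [e2]
    exact mul_le_mul_of_nonneg_left hB2 e1
  have herr3 : 2 * (C * 2 ^ t * ((4:ℝ) ^ t * A.card ^ 2))
      ≤ 2 * (27 * C * A.card ^ 2 * 2 ^ t * budgetE P Q K ρ) := by
    have e1 : (4:ℝ) ^ t * A.card ^ 2 ≤ 27 * budgetE P Q K ρ * A.card ^ 2 :=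
      mul_le_mul_of_nonneg_right (by linarith) (by positivity)
    have e3 : 0 ≤ C * 2 ^ t := by positivity
    have e6 := mul_le_mul_of_nonneg_left e1 e3
    linarith
  -- the error is absorbed by what the strips leave of the room
  have t3 : 80 * C' + 240 ≤ (2:ℝ) ^ t := by
    have e1 : (2:ℝ) ^ t1 ≤ 2 ^ t := pow_le_pow_right₀ (by norm_num) htt1
    linarith
  have ht4 : ((2:ℝ) ^ t) ^ 2 = 4 ^ t := by rw [← pow_mul, mul_comm, pow_mul]; norm_num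
  have t4 : C' * 2 ^ t ≤ (4:ℝ) ^ t / 80 - 3 := by
    have t1' : (1:ℝ) ≤ 2 ^ t := one_le_pow₀ (by norm_num)
    have e1 : (80 * C' + 240) * (2:ℝ) ^ t ≤ 2 ^ t * 2 ^ t :=
      mul_le_mul_of_nonneg_right t3 t2.le
    rw [← ht4]
    nlinarith
  have t5 := mul_le_mul_of_nonneg_right t4 hB.le
  have t6 : C' * 2 ^ t * budgetE P Q K ρ = C * A.card * 2 ^ t * budgetE P Q K ρ
      + C * 2 ^ t * budgetE P Q K ρ + 2 * (27 * C * A.card ^ 2 * 2 ^ t * budgetE P Q K ρ) := by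
    rw [hC']
    ring
  have t7 : ∑ s ∈ Ico 0 D, (eR s * κ0 s + eL s * κ0' s)
      = ∑ s ∈ Ico 0 D, eR s * κ0 s + ∑ s ∈ Ico 0 D, eL s * κ0' s := sum_add_distrib
  rw [t7] at hdeep
  have h5 : -(((mass P - mass Q) ^ 2 / 4 + ((4:ℝ) ^ t / 4 - 3)) * budgetE P Q K ρ)
      = -(((mass P - mass Q) ^ 2 / 4 + 19 / 80 * (4:ℝ) ^ t) * budgetE P Q K ρ)
        - ((4:ℝ) ^ t / 80 - 3) * budgetE P Q K ρ := by ring
  rw [h5]
  linarith

end

end MP61673a.Fin
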