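import Pool.Agent.Mu673.RowNumR


/-!
CLASS FLAGS OF AN IN CELL from the class descriptors (helper40): upper bounds of the cost
indicators, lower bounds of the gain indicators, windows with the real lower end `w = lo - t` and the
cuts `c1`, `c2`. `iw` as in `RowNumR` (helper96): `1` = inside copy (`w ≤ u`), `2` = outside copy
(`u < w`).
-/

set_option autoImplicit false

namespace MP61673a.CkI

open Finset MP61673a.Kink MP61673a.Bary MP61673a.Sos MP61673a.Fin MP61673a.KC MP61673a.FE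

/-! ### Integer flags -/

/-- midpoints, first parity -/
def nM0 (q m b : ℤ) (c : Cl) : ℤ :=
  if fom q m b c = 0 ∨ (c.bt = false ∧ 20 * (b * q - m * c.na) + 1 ≤ m * q) then 0 else 1

/-- midpoints, second parity -/
def nM1 (q m b : ℤ) (c : Cl) : ℤ :=
  if fom q m b c = 0 ∨ (c.bt = false ∧ 40 * (b * q - m * c.na) ≤ m * q) then 0 else 1

/-- costs of the doubled point of the first window at a sampler of `Q` -/
def nK1 (q m b : ℤ) (c : Cl) : ℤ := if 40 * (m * c.nb + 2 * b * q) + 1 ≤ m * q then 0 else 1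

/-- costs of the doubled point of the second window at a sampler of `Q` -/
def nK2 (q m b : ℤ) (c : Cl) : ℤ := if 40 * (m * c.nb + 2 * b * q) ≤ m * q then 0 else 1

/-- own gain of `Q` -/
def gO (q m a : ℤ) (c : Cl) : ℤ :=
  if c.bt = false ∧ m * q ≤ 40 * (m * c.na + 2 * a * q) then 1 else 0

/-- own gain of `Q` on the pairs `(P, Q)` -/
def gA (q m a b : ℤ) (c : Cl) : ℤ :=
  if c.bt = false ∧ 0 ≤ m * c.na + 2 * a * q ∧ m * c.nb + 2 * b * q ≤ m * q then 1 else 0

/-- the class lies below the lower end of the windows -/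
def bel (q m b : ℤ) (iw : ℕ) (c : Cl) : Bool :=
  decide (iw = 2) || decide (m * c.nb < -(b * q)) || (decide (m * c.nb ≤ -(b * q)) && c.sb)

/-- the class lies above the cut at `e / f` -/
def abv (q e f : ℤ) (c : Cl) : Bool :=
  !c.bt && (decide (e * q < f * c.na) || (decide (e * q ≤ f * c.na) && c.sa))

/-- the class may meet the first window -/
def nW1 (q m a b : ℤ) (iw : ℕ) (c : Cl) : ℤ :=
  if bel q m b iw c = true ∨ abv q (2 * a) m c = true then 0 else 1

/-- the class may meet the second window -/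
def nW2 (q m a b : ℤ) (iw : ℕ) (c : Cl) : ℤ :=
  if bel q m b iw c = true ∨ abv q a (2 * m) c = true then 0 else 1

/-- the class lies in `[w, ∞)` -/
def inw (q m a : ℤ) (iw : ℕ) (c : Cl) : Bool :=
  (!c.bt && decide (-(a * q) ≤ m * c.na)) || decide (iw = 1)

section
variable {q m a b D K E t0 t1 t w c1 c2 : ℤ} {c : Cl} {x : P3}

/-- a product inequality with a large `D` -/
lemma big_aux {m q D u v : ℤ} (hmq : 0 < m * q) (hD : 39 * (m * q) < D) (h1 : v ≤ m * q - 1)
    (h2 : m * q * u ≤ v * D) : u < D - 39 := by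
  have h3 : v * D ≤ (m * q - 1) * D := mul_le_mul_of_nonneg_right h1 (by linarith)
  have h4 : m * q * u < m * q * (D - 39) := by linarith
  exact lt_of_mul_lt_mul_left h4 hmq.le

lemma nM0_ge (hq : 0 < q) (hD : 0 < D) (hDm : 39 * (m * q) < D) (hc : CellAt m a b D t0 t1)
    (hx : c.has q D x) :
    1 / 2 * omc t1 x.2 * bo (0 < (t1 - x.2 + 0) / 2 ∧ rhoE D ≤ (t1 - x.2 + 0) / 2)
      ≤ 1 / 2 * ((nM0 q m b c : ℤ) : ℝ) := by
  have o1 := fom_ge hq hD hc hx
  have o2 := omc_nonneg t1 x.2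
  have o3 : omc t1 x.2 ≤ 1 := by
    unfold omc incl
    split_ifs <;> norm_num
  unfold nM0
  split_ifs with h
  · have : omc t1 x.2 * bo (0 < (t1 - x.2 + 0) / 2 ∧ rhoE D ≤ (t1 - x.2 + 0) / 2) = 0 := by
      rcases h with h | ⟨hb, h⟩
      · rw [h, Int.cast_zero] at o1
        rw [le_antisymm o1 o2, zero_mul]
      · rw [bo_false, mul_zero]
        rintro ⟨_, h2⟩
        have r := (rho_le D).2
        have e1 : D - 39 ≤ 20 * (t1 - x.2) := by omega
        have hmq := mul_pos hc.m0 hq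
        have u1 := mul_le_mul_of_nonneg_left (Cl.has_lo hx hb) hc.m0.le
        have u2 := mul_le_mul_of_nonneg_left hc.h1 hq.le
        have := big_aux (u := 20 * (t1 - x.2)) (v := 20 * (b * q - m * c.na)) hmq hDm
          (by linarith) (by linarith)
        linarith
    rw [mul_assoc, this, Int.cast_zero]
  · rw [Int.cast_one, mul_assoc]
    exact mul_le_mul_of_nonneg_left (mul_le_one₀ o3 (bo_nonneg _) (bo_le_one _)) (by norm_num)

lemma nM1_ge (hq : 0 < q) (hD : 40000 < D) (hc : CellAt m a b D t0 t1)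
    (hE : 122 * (E + 1) ≤ 3 * D + 12) (hx : c.has q D x) :
    1 / 2 * omc t1 x.2 * bo (0 < (t1 - x.2 + E) / 2 ∧ rhoE D ≤ (t1 - x.2 + E) / 2)
      ≤ 1 / 2 * ((nM1 q m b c : ℤ) : ℝ) := by
  have hD0 : 0 < D := by omega
  have o1 := fom_ge hq hD0 hc hx
  have o2 := omc_nonneg t1 x.2
  have o3 : omc t1 x.2 ≤ 1 := by
    unfold omc incl
    split_ifs <;> norm_num
  unfold nM1
  split_ifs with h
  · have : omc t1 x.2 * bo (0 < (t1 - x.2 + E) / 2 ∧ rhoE D ≤ (t1 - x.2 + E) / 2) = 0 := by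
      rcases h with h | ⟨hb, h⟩
      · rw [h, Int.cast_zero] at o1
        rw [le_antisymm o1 o2, zero_mul]
      · rw [bo_false, mul_zero]
        rintro ⟨_, h2⟩
        have r := (rho_le D).2
        have e1 : 2 * (D - 39) ≤ 40 * (t1 - x.2) + 40 * E := by omega
        have hmq := mul_pos hc.m0 hq
        have u1 := mul_le_mul_of_nonneg_left (Cl.has_lo hx hb) hc.m0.le
        have u2 := mul_le_mul_of_nonneg_left hc.h1 hq.le
        have u3 := mul_le_mul_of_nonneg_right h hD0.le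
        have e2 : m * q * (40 * (t1 - x.2)) ≤ m * q * D := by linarith
        have e3 := le_of_mul_le_mul_left e2 hmq
        omega
    rw [mul_assoc, this, Int.cast_zero]
  · rw [Int.cast_one, mul_assoc]
    exact mul_le_mul_of_nonneg_left (mul_le_one₀ o3 (bo_nonneg _) (bo_le_one _)) (by norm_num)

lemma nK1_ge (hq : 0 < q) (hDm : 39 * (m * q) < D) (hc : CellAt m a b D t0 t1)
    (hx : c.has q D x) : bo (rhoE D ≤ x.2 + 2 * t1) ≤ ((nK1 q m b c : ℤ) : ℝ) := by
  unfold nK1
  split_ifs with h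
  · rw [bo_false, Int.cast_zero]
    intro h2
    have r := (rho_le D).2
    have e1 : D - 39 ≤ 40 * (x.2 + 2 * t1) := by omega
    have hmq := mul_pos hc.m0 hq
    have u1 := mul_le_mul_of_nonneg_left (Cl.has_hi hx) hc.m0.le
    have u2 := mul_le_mul_of_nonneg_left hc.h1 hq.le
    have := big_aux (u := 40 * (x.2 + 2 * t1)) (v := 40 * (m * c.nb + 2 * b * q)) hmq hDm
      (by linarith) (by linarith)
    linarith
  · rw [Int.cast_one]
    exact bo_le_one _

lemma nK2_ge (hq : 0 < q) (hD : 0 < D) (hc : CellAt m a b D t0 t1)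
    (hx : c.has q D x) : bo (1 + rhoE D ≤ x.2 + 2 * t1) ≤ ((nK2 q m b c : ℤ) : ℝ) := by
  unfold nK2
  split_ifs with h
  · rw [bo_false, Int.cast_zero]
    intro h2
    have r := (rho_le D).2
    have e1 : D + 1 ≤ 40 * (x.2 + 2 * t1) := by omega
    have hmq := mul_pos hc.m0 hq
    have u1 := mul_le_mul_of_nonneg_left (Cl.has_hi hx) hc.m0.le
    have u2 := mul_le_mul_of_nonneg_left hc.h1 hq.le
    have u3 := mul_le_mul_of_nonneg_right h hD.le
    have e2 : m * q * (40 * (x.2 + 2 * t1)) ≤ m * q * D := by linarith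
    have := le_of_mul_le_mul_left e2 hmq
    omega
  · rw [Int.cast_one]
    exact bo_le_one _

lemma gO_le (hq : 0 < q) (hD : 0 < D) (hc : CellAt m a b D t0 t1) (hx : c.has q D x) :
    ((gO q m a c : ℤ) : ℝ) ≤ bo (1 + rhoE D ≤ x.2 + 2 * t0) := by
  unfold gO
  split_ifs with h
  · rw [bo_true, Int.cast_one]
    have r := (rho_le D).1
    have hmq := mul_pos hc.m0 hq
    have u1 := mul_le_mul_of_nonneg_left (Cl.has_lo hx h.1) hc.m0.le
    have u2 := mul_lt_mul_of_pos_left hc.h0 hq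
    have u3 := mul_le_mul_of_nonneg_right h.2 hD.le
    have e2 : m * q * D < m * q * (40 * (x.2 + 2 * t0)) := by linarith
    have := lt_of_mul_lt_mul_left e2 hmq.le
    omega
  · rw [Int.cast_zero]
    exact bo_nonneg _

lemma gA_le (hq : 0 < q) (hD : D = 4 * K + 1) (hK : 0 ≤ K) (hc : CellAt m a b D t0 t1)
    (hx : c.has q D x) :
    ((gA q m a b c : ℤ) : ℝ) ≤ bo (1 ≤ x.2 + 2 * t0 ∧ x.2 + 2 * t1 ≤ 4 * K + 1) := by
  unfold gA
  have hD0 : 0 < D := by omega
  split_ifs with h
  · rw [bo_true, Int.cast_one]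
    obtain ⟨h1, h2, h3⟩ := h
    have hmq := mul_pos hc.m0 hq
    have u1 := mul_le_mul_of_nonneg_left (Cl.has_lo hx h1) hc.m0.le
    have u2 := mul_lt_mul_of_pos_left hc.h0 hq
    have u3 := mul_nonneg h2 hD0.le
    have v1 := mul_le_mul_of_nonneg_left (Cl.has_hi hx) hc.m0.le
    have v2 := mul_le_mul_of_nonneg_left hc.h1 hq.le
    have v3 := mul_le_mul_of_nonneg_right h3 hD0.le
    constructor
    · have e2 : m * q * 0 < m * q * (x.2 + 2 * t0) := by linarith
      have := lt_of_mul_lt_mul_left e2 hmq.le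
      omega
    · have e2 : m * q * (x.2 + 2 * t1) ≤ m * q * D := by linarith
      have := le_of_mul_le_mul_left e2 hmq
      omega
  · rw [Int.cast_zero]
    exact bo_nonneg _

/-- the cut is not above the points beyond `e D / f` -/
def CutUp (e f D c1 : ℤ) : Prop := ∀ u : ℤ, e * D < f * u → c1 ≤ u

lemma cutUp_div {e f D : ℤ} (hf : 0 < f) : CutUp e f D (e * D / f + 1) := by
  intro u hu
  have := (Int.ediv_lt_iff_lt_mul hf).2 (by linarith : e * D < u * f)
  omega

lemma abv_ge {e f : ℤ} (hf : 0 < f) (hq : 0 < q) (hD : 0 < D) (hk : CutUp e f D c1)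
    (h : abv q e f c = true) (hx : c.has q D x) : c1 ≤ x.2 := by
  unfold abv at h
  simp only [Bool.and_eq_true, Bool.not_eq_true', Bool.or_eq_true, decide_eq_true_eq] at h
  obtain ⟨hb, h⟩ := h
  apply hk
  have hfq := mul_pos hf hq
  have e2 : f * q * 0 < f * (q * x.2) - q * (e * D) := by
    rcases h with h | ⟨h, hs⟩
    · have u1 := mul_le_mul_of_nonneg_left (Cl.has_lo hx hb) hf.le
      have u2 := mul_lt_mul_of_pos_right h hD
      linarith
    · have u0 : c.na * D < q * x.2 := by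
        rcases hx.2.1 with h1 | h1
        · rw [hb] at h1
          exact absurd h1 (by simp)
        · rwa [if_pos hs] at h1
      have u1 := mul_lt_mul_of_pos_left u0 hf
      have u2 := mul_le_mul_of_nonneg_right h hD.le
      linarith
  have e3 : q * (e * D) < q * (f * x.2) := by linarith
  exact lt_of_mul_lt_mul_left e3 hq.le

lemma bel_lt {iw : ℕ} (hq : 0 < q) (hD : 0 < D) (hc : CellAt m a b D t0 t1)
    (hw : -t1 ≤ w) (hiw : iw = 2 → x.2 < w) (h : bel q m b iw c = true) (hx : c.has q D x) :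
    x.2 < w := by
  unfold bel at h
  simp only [Bool.and_eq_true, Bool.or_eq_true, decide_eq_true_eq] at h
  have hmq := mul_pos hc.m0 hq
  have v2 := mul_le_mul_of_nonneg_left hc.h1 hq.le
  rcases h with (h | h) | ⟨h, hs⟩
  · exact hiw h
  · have v1 := mul_le_mul_of_nonneg_left (Cl.has_hi hx) hc.m0.le
    have v3 := mul_lt_mul_of_pos_right h hD
    have e2 : m * q * (x.2 + t1) < m * q * 0 := by linarith
    have := lt_of_mul_lt_mul_left e2 hmq.le
    omega
  · have v1 := mul_lt_mul_of_pos_left (Cl.has_hi_lt hx hs) hc.m0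
    have v3 := mul_le_mul_of_nonneg_right h hD.le
    have e2 : m * q * (x.2 + t1) < m * q * 0 := by linarith
    have := lt_of_mul_lt_mul_left e2 hmq.le
    omega

lemma inw_ge {iw : ℕ} (hq : 0 < q) (hD : 0 < D) (hc : CellAt m a b D t0 t1)
    (hw : w ≤ 1 - t0) (hiw : iw = 1 → w ≤ x.2) (h : inw q m a iw c = true) (hx : c.has q D x) :
    w ≤ x.2 := by
  unfold inw at h
  simp only [Bool.and_eq_true, Bool.or_eq_true, Bool.not_eq_true', decide_eq_true_eq] at h
  rcases h with ⟨hb, h⟩ | h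
  · have hmq := mul_pos hc.m0 hq
    have v2 := mul_lt_mul_of_pos_left hc.h0 hq
    have v1 := mul_le_mul_of_nonneg_left (Cl.has_lo hx hb) hc.m0.le
    have v3 := mul_le_mul_of_nonneg_right h hD.le
    have e2 : m * q * 0 < m * q * (x.2 + t0) := by linarith
    have := lt_of_mul_lt_mul_left e2 hmq.le
    omega
  · exact hiw h

lemma nW1_ge {iw : ℕ} (hq : 0 < q) (hD : 0 < D) (hc : CellAt m a b D t0 t1) (hw : -t1 ≤ w)
    (hk : CutUp (2 * a) m D c1) (hiw : iw = 2 → x.2 < w) (hx : c.has q D x) :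
    bo (w ≤ x.2 ∧ x.2 < c1) ≤ ((nW1 q m a b iw c : ℤ) : ℝ) := by
  unfold nW1
  split_ifs with h
  · rw [bo_false, Int.cast_zero]
    rintro ⟨h1, h2⟩
    rcases h with h | h
    · have := bel_lt hq hD hc hw hiw h hx
      omega
    · have := abv_ge hc.m0 hq hD hk h hx
      omega
  · rw [Int.cast_one]
    exact bo_le_one _

lemma nW2_ge {iw : ℕ} (hq : 0 < q) (hD : 0 < D) (hc : CellAt m a b D t0 t1) (hw : -t1 ≤ w)
    (hk : CutUp a (2 * m) D c2) (hiw : iw = 2 → x.2 < w) (hx : c.has q D x) :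
    bo (w ≤ x.2 ∧ x.2 < c2) ≤ ((nW2 q m a b iw c : ℤ) : ℝ) := by
  unfold nW2
  split_ifs with h
  · rw [bo_false, Int.cast_zero]
    rintro ⟨h1, h2⟩
    rcases h with h | h
    · have := bel_lt hq hD hc hw hiw h hx
      omega
    · have := abv_ge (by have := hc.m0; omega) hq hD hk h hx
      omega
  · rw [Int.cast_one]
    exact bo_le_one _

end

/-! ### Exact windows -/

/-- the cut is above the points at or below `e D / f` -/
def CutDn (e f D c1 : ℤ) : Prop := ∀ u : ℤ, f * u ≤ e * D → u < c1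

lemma cutDn_div {e f D : ℤ} (hf : 0 < f) : CutDn e f D (e * D / f + 1) := by
  intro u hu
  have := (Int.le_ediv_iff_mul_le hf).2 (by linarith : u * f ≤ e * D)
  omega

/-- the class lies at or below the cut at `e / f` -/
def blw (q e f : ℤ) (c : Cl) : Bool := decide (f * c.nb ≤ e * q)

/-- the flag of the first window is exact -/
def ok1 (q m a b : ℤ) (iw : ℕ) (c : Cl) : Bool :=
  decide (nW1 q m a b iw c = 0) || (inw q m a iw c && blw q (2 * a) m c)

/-- the flag of the second window is exact -/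
def ok2 (q m a b : ℤ) (iw : ℕ) (c : Cl) : Bool :=
  decide (nW2 q m a b iw c = 0) || (inw q m a iw c && blw q a (2 * m) c)

section
variable {q m a b D K E t0 t1 t w c1 c2 : ℤ} {c : Cl} {x : P3}

lemma blw_lt {e f : ℤ} (hf : 0 < f) (hq : 0 < q) (hD : 0 < D) (hk : CutDn e f D c1)
    (h : blw q e f c = true) (hx : c.has q D x) : x.2 < c1 := by
  have h' : f * c.nb ≤ e * q := of_decide_eq_true h
  apply hk
  have v1 := mul_le_mul_of_nonneg_left (Cl.has_hi hx) hf.le
  have v3 := mul_le_mul_of_nonneg_right h' hD.le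
  have e2 : q * (f * x.2) ≤ q * (e * D) := by linarith
  exact le_of_mul_le_mul_left e2 hq

lemma nW1_eq {iw : ℕ} (hq : 0 < q) (hD : 0 < D) (hc : CellAt m a b D t0 t1) (hw : -t1 ≤ w)
    (hw' : w ≤ 1 - t0) (hk : CutUp (2 * a) m D c1) (hk' : CutDn (2 * a) m D c1)
    (h1 : iw = 2 → x.2 < w) (h2 : iw = 1 → w ≤ x.2) (ho : ok1 q m a b iw c = true)
    (hx : c.has q D x) : ((nW1 q m a b iw c : ℤ) : ℝ) = bo (w ≤ x.2 ∧ x.2 < c1) := by
  unfold ok1 at ho
  simp only [Bool.or_eq_true, Bool.and_eq_true, decide_eq_true_eq] at ho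
  have up := nW1_ge hq hD hc hw hk h1 hx
  by_cases h0 : nW1 q m a b iw c = 0
  · rw [h0, Int.cast_zero] at up ⊢
    exact (le_antisymm up (bo_nonneg _)).symm
  · rcases ho with h | ⟨h3, h4⟩
    · exact absurd h h0
    · rw [bo_true ⟨inw_ge hq hD hc hw' h2 h3 hx, blw_lt hc.m0 hq hD hk' h4 hx⟩]
      have : nW1 q m a b iw c = 1 := by
        unfold nW1 at h0 ⊢
        split_ifs at h0 ⊢ with h5
        · exact absurd rfl h0
        · rfl
      rw [this, Int.cast_one]

lemma nW2_eq {iw : ℕ} (hq : 0 < q) (hD : 0 < D) (hc : CellAt m a b D t0 t1) (hw : -t1 ≤ w)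
    (hw' : w ≤ 1 - t0) (hk : CutUp a (2 * m) D c2) (hk' : CutDn a (2 * m) D c2)
    (h1 : iw = 2 → x.2 < w) (h2 : iw = 1 → w ≤ x.2) (ho : ok2 q m a b iw c = true)
    (hx : c.has q D x) : ((nW2 q m a b iw c : ℤ) : ℝ) = bo (w ≤ x.2 ∧ x.2 < c2) := by
  unfold ok2 at ho
  simp only [Bool.or_eq_true, Bool.and_eq_true, decide_eq_true_eq] at ho
  have up := nW2_ge hq hD hc hw hk h1 hx
  by_cases h0 : nW2 q m a b iw c = 0
  · rw [h0, Int.cast_zero] at up ⊢
    exact (le_antisymm up (bo_nonneg _)).symm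
  · rcases ho with h | ⟨h3, h4⟩
    · exact absurd h h0
    · rw [bo_true ⟨inw_ge hq hD hc hw' h2 h3 hx,
        blw_lt (by have := hc.m0; omega) hq hD hk' h4 hx⟩]
      have : nW2 q m a b iw c = 1 := by
        unfold nW2 at h0 ⊢
        split_ifs at h0 ⊢ with h5
        · exact absurd rfl h0
        · rfl
      rw [this, Int.cast_one]

/-- the first cut of the windows, not above `2 t1` -/
lemma c1_le (hc : CellAt m a b D t0 t1) (ht : t0 ≤ t1) : 2 * a * D / m + 1 ≤ 2 * t1 := by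
  have h := (Int.ediv_lt_iff_lt_mul hc.m0).2 (by linarith [hc.h0] : 2 * a * D < 2 * t0 * m)
  omega

/-- the second cut of the windows -/
lemma c2_le (hc : CellAt m a b D t0 t1) (ht : t0 ≤ t1) : 2 * (a * D / (2 * m) + 1) ≤ t1 + 1 := by
  have hm := hc.m0
  have h1 : 2 * (a * D / (2 * m)) * m ≤ a * D := by
    have := Int.ediv_mul_le (a * D) (by omega : 2 * m ≠ 0)
    linarith
  have h2 : 2 * (a * D / (2 * m)) * m < t0 * m := by linarith [hc.h0]
  have h3 := lt_of_mul_lt_mul_right h2 hm.le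
  omega

end

end MP61673a.CkI
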