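import Pool.Agent.Mu673.OneP3

/-!
CLASSES OF A ROW CERTIFICATE. Computable descriptors: side, interval of the own depth (units `D/q`),
strict or closed ends, node run in the left coordinate. They give the frame `GrdD` and the flags of
the one-body part of the cell `a/m < t/D ≤ b/m`.
-/

set_option autoImplicit false

namespace MP61673a.FE

open Finset MP61673a.Kink MP61673a.Bary MP61673a.Sos MP61673a.Fin

/-- class descriptor; `bt`: bottom class, no lower bound -/
structure Cl where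
  sd : Bool
  na : ℤ
  nb : ℤ
  sa : Bool
  sb : Bool
  bt : Bool
  lo : ℤ
  hi : ℤ
deriving DecidableEq, Inhabited

/-- the point lies in the class -/
def Cl.has (q D : ℤ) (c : Cl) (x : P3) : Prop :=
  x.1 = c.sd ∧ (c.bt = true ∨ (if c.sa = true then c.na * D < q * x.2 else c.na * D ≤ q * x.2)) ∧
    (if c.sb = true then q * x.2 < c.nb * D else q * x.2 ≤ c.nb * D)

instance (q D : ℤ) (c : Cl) (x : P3) : Decidable (c.has q D x) := by
  unfold Cl.has
  infer_instance

lemma Cl.has_sd {q D : ℤ} {c : Cl} {x : P3} (h : c.has q D x) : x.1 = c.sd := h.1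

lemma Cl.has_lo {q D : ℤ} {c : Cl} {x : P3} (h : c.has q D x) (hb : c.bt = false) :
    c.na * D ≤ q * x.2 := by
  rcases h.2.1 with h1 | h1
  · rw [hb] at h1
    exact absurd h1 (by simp)
  · split_ifs at h1
    · exact h1.le
    · exact h1

lemma Cl.has_hi {q D : ℤ} {c : Cl} {x : P3} (h : c.has q D x) : q * x.2 ≤ c.nb * D := by
  have h1 := h.2.2
  split_ifs at h1
  · exact h1.le
  · exact h1

lemma Cl.has_hi_lt {q D : ℤ} {c : Cl} {x : P3} (h : c.has q D x) (hs : c.sb = true) :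
    q * x.2 < c.nb * D := by
  have h1 := h.2.2
  rwa [if_pos hs] at h1

/-- the node run contains the class; `s2 = 2 σ` -/
def Cl.run (M s2 q : ℤ) (c : Cl) : Prop :=
  c.lo ≤ c.hi ∧
    (if c.sd = false then
      (if c.bt = true then 2 * c.lo ≤ -2 * M - s2 else 2 * q * c.lo ≤ 2 * M * c.na - s2 * q)
        ∧ 2 * M * c.nb - s2 * q ≤ 2 * q * c.hi
    else
      2 * q * c.lo ≤ 2 * M * (q - c.nb) - s2 * q
        ∧ (if c.bt = true then 4 * M - s2 ≤ 2 * c.hi
          else 2 * M * (q - c.na) - s2 * q ≤ 2 * q * c.hi))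

instance (M s2 q : ℤ) (c : Cl) : Decidable (c.run M s2 q) := by
  unfold Cl.run
  infer_instance

noncomputable section

/-- position of a point, clamped to the run -/
def Cl.pos (M : ℕ) (σ : ℝ) (D : ℤ) (c : Cl) (x : P3) : ℝ :=
  max (c.lo : ℝ) (min (c.hi : ℝ) (yc M σ D (lc D x)))

lemma Cl.pos_mem {M : ℕ} {σ : ℝ} {D : ℤ} {c : Cl} (h : c.lo ≤ c.hi) (x : P3) :
    (c.lo : ℝ) ≤ c.pos M σ D x ∧ c.pos M σ D x ≤ c.hi := by
  unfold Cl.pos
  have h' : (c.lo:ℝ) ≤ c.hi := by exact_mod_cast h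
  exact ⟨le_max_left _ _, max_le h' (min_le_left _ _)⟩

lemma clamp_near {lo hi y δ : ℝ} (hδ : 0 ≤ δ) (h : lo ≤ hi) (h1 : lo - δ ≤ y)
    (h2 : y ≤ hi + δ) : |max lo (min hi y) - y| ≤ δ := by
  rcases le_total hi y with c | c
  · rw [min_eq_left c, max_eq_right h, abs_le]
    constructor <;> linarith
  · rw [min_eq_right c]
    rcases le_total lo y with d | d
    · rw [max_eq_right d, sub_self, abs_zero]
      exact hδ
    · rw [max_eq_left d, abs_le]
      constructor <;> linarith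

/-- the position is right up to `12 M / D` -/
theorem Cl.pos_near {M : ℕ} {s2 q D K : ℤ} {c : Cl} (hq : 0 < q) (hD : D = 4 * K + 1)
    (hK : 1 ≤ K) (hr : c.run M s2 q) {x : P3} (hx : InR D K x) (hc : c.has q D x) :
    |c.pos M (s2 / 2) D x - yc M (s2 / 2) D (lc D x)| ≤ 12 * M / D := by
  have hDp : (0:ℝ) < D := by exact_mod_cast (by omega : (0:ℤ) < D)
  have hqp : (0:ℝ) < q := by exact_mod_cast hq
  have hM0 : (0:ℝ) ≤ M := Nat.cast_nonneg M
  have hlh : (c.lo:ℝ) ≤ c.hi := by exact_mod_cast hr.1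
  have hδ : (0:ℝ) ≤ 12 * M / D := by positivity
  have h2 := hr.2
  have hs := Cl.has_sd hc
  have hup : (q:ℝ) * x.2 ≤ c.nb * D := by exact_mod_cast Cl.has_hi hc
  unfold Cl.pos
  apply clamp_near hδ hlh
  · -- lower bound
    unfold yc
    rcases hsd : c.sd with _ | _
    · rw [if_pos hsd] at h2
      have elc : lc D x = x.2 := by
        unfold lc
        rw [hs, hsd]
        simp
      rw [elc]
      have h3 := h2.1
      rcases hbt : c.bt with _ | _
      · rw [if_neg (by rw [hbt]; simp)] at h3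
        have h4 : 2 * (q:ℝ) * c.lo ≤ 2 * M * c.na - s2 * q := by exact_mod_cast h3
        have h5 : (c.na:ℝ) * D ≤ q * x.2 := by exact_mod_cast Cl.has_lo hc hbt
        have h6 : (M:ℝ) * c.na ≤ M * (q * x.2 / D) := by
          apply mul_le_mul_of_nonneg_left _ hM0
          rw [le_div_iff₀ hDp]
          exact h5
        have h7 : (c.lo:ℝ) ≤ M * x.2 / D - s2 / 2 := by
          have : (q:ℝ) * c.lo ≤ q * (M * x.2 / D - s2 / 2) := by
            have e : (q:ℝ) * (M * x.2 / D - s2 / 2) = M * (q * x.2 / D) - s2 * q / 2 := by ring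
            rw [e]
            linarith
          exact le_of_mul_le_mul_left this hqp
        linarith
      · rw [if_pos hbt] at h3
        have h4 : 2 * (c.lo:ℝ) ≤ -2 * M - s2 := by exact_mod_cast h3
        have h5 : -(D:ℝ) - 11 ≤ x.2 := by exact_mod_cast hx.1
        have h6 : (M:ℝ) * (-(D:ℝ) - 11) / D ≤ M * x.2 / D :=
          div_le_div_of_nonneg_right (mul_le_mul_of_nonneg_left h5 hM0) hDp.le
        have e : (M:ℝ) * (-(D:ℝ) - 11) / D = -M - 11 * M / D := by
          field_simp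
        have e2 : (12:ℝ) * M / D = 11 * M / D + M / D := by ring
        have : 0 ≤ (M:ℝ) / D := by positivity
        rw [e] at h6
        linarith
    · rw [if_neg (by rw [hsd]; simp)] at h2
      have elc : lc D x = D - x.2 := by
        unfold lc
        rw [hs, hsd]
        simp
      rw [elc]
      have h4 : 2 * (q:ℝ) * c.lo ≤ 2 * M * (q - c.nb) - s2 * q := by exact_mod_cast h2.1
      have h6 : (M:ℝ) * (q * x.2 / D) ≤ M * c.nb := by
        apply mul_le_mul_of_nonneg_left _ hM0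
        rw [div_le_iff₀ hDp]
        exact hup
      have h7 : (c.lo:ℝ) ≤ M * ((D - x.2 : ℤ) : ℝ) / D - s2 / 2 := by
        have : (q:ℝ) * c.lo ≤ q * (M * ((D - x.2 : ℤ) : ℝ) / D - s2 / 2) := by
          have e : (q:ℝ) * (M * ((D - x.2 : ℤ) : ℝ) / D - s2 / 2)
              = M * q - M * (q * x.2 / D) - s2 * q / 2 := by
            push_cast
            field_simp
          rw [e]
          linarith
        exact le_of_mul_le_mul_left this hqp
      linarith
  · -- upper bound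
    unfold yc
    rcases hsd : c.sd with _ | _
    · rw [if_pos hsd] at h2
      have elc : lc D x = x.2 := by
        unfold lc
        rw [hs, hsd]
        simp
      rw [elc]
      have h4 : 2 * (M:ℝ) * c.nb - s2 * q ≤ 2 * q * c.hi := by exact_mod_cast h2.2
      have h6 : (M:ℝ) * (q * x.2 / D) ≤ M * c.nb := by
        apply mul_le_mul_of_nonneg_left _ hM0
        rw [div_le_iff₀ hDp]
        exact hup
      have h7 : (M:ℝ) * x.2 / D - s2 / 2 ≤ c.hi := by
        have : (q:ℝ) * (M * x.2 / D - s2 / 2) ≤ q * c.hi := by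
          have e : (q:ℝ) * (M * x.2 / D - s2 / 2) = M * (q * x.2 / D) - s2 * q / 2 := by ring
          rw [e]
          linarith
        exact le_of_mul_le_mul_left this hqp
      linarith
    · rw [if_neg (by rw [hsd]; simp)] at h2
      have elc : lc D x = D - x.2 := by
        unfold lc
        rw [hs, hsd]
        simp
      rw [elc]
      have h3 := h2.2
      rcases hbt : c.bt with _ | _
      · rw [if_neg (by rw [hbt]; simp)] at h3
        have h4 : 2 * (M:ℝ) * (q - c.na) - s2 * q ≤ 2 * q * c.hi := by exact_mod_cast h3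
        have h5 : (c.na:ℝ) * D ≤ q * x.2 := by exact_mod_cast Cl.has_lo hc hbt
        have h6 : (M:ℝ) * c.na ≤ M * (q * x.2 / D) := by
          apply mul_le_mul_of_nonneg_left _ hM0
          rw [le_div_iff₀ hDp]
          exact h5
        have h7 : M * ((D - x.2 : ℤ) : ℝ) / D - s2 / 2 ≤ (c.hi:ℝ) := by
          have : (q:ℝ) * (M * ((D - x.2 : ℤ) : ℝ) / D - s2 / 2) ≤ q * c.hi := by
            have e : (q:ℝ) * (M * ((D - x.2 : ℤ) : ℝ) / D - s2 / 2)
                = M * q - M * (q * x.2 / D) - s2 * q / 2 := by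
              push_cast
              field_simp
            rw [e]
            linarith
          exact le_of_mul_le_mul_left this hqp
        linarith
      · rw [if_pos hbt] at h3
        have h4 : 4 * (M:ℝ) - s2 ≤ 2 * c.hi := by exact_mod_cast h3
        have h5 : ((D - x.2 : ℤ) : ℝ) ≤ 2 * D + 11 := by
          have := hx.1
          exact_mod_cast (by omega : D - x.2 ≤ 2 * D + 11)
        have h6 : (M:ℝ) * ((D - x.2 : ℤ) : ℝ) / D ≤ M * (2 * D + 11) / D :=
          div_le_div_of_nonneg_right (mul_le_mul_of_nonneg_left h5 hM0) hDp.le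
        have e : (M:ℝ) * (2 * D + 11) / D = 2 * M + 11 * M / D := by
          field_simp
        have e2 : (12:ℝ) * M / D = 11 * M / D + M / D := by ring
        have : 0 ≤ (M:ℝ) / D := by positivity
        rw [e] at h6
        linarith

/-! ### The frame -/

variable {C : Type}

/-- class map of the points -/
structure ClMap (ds : C → Cl) (q D K : ℤ) (cl : P4 → C) : Prop where
  has : ∀ x : P4, InR D K x.2 → (ds (cl x)).has q D x.2

/-- left cut of the zones -/
def cutL (M : ℕ) (σ : ℝ) : ℝ := -((M:ℝ) / 40) - σ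

/-- right cut of the zones -/
def cutR (M : ℕ) (σ : ℝ) : ℝ := M + (M:ℝ) / 40 - σ

lemma rho_le (D : ℤ) : 40 * rhoE D ≤ D ∧ D ≤ 40 * rhoE D + 39 := by
  unfold rhoE
  omega

/-- the frame of a certificate -/
def mkGrd {M : ℕ} {s2 q D K : ℤ} {ds : C → Cl} {cl : P4 → C} (hq : 0 < q)
    (hD : D = 4 * K + 1) (hK : 1 ≤ K) (hrun : ∀ c, (ds c).run M s2 q)
    (hcl : ClMap ds q D K cl) :
    GrdD C M (s2 / 2) (12 * M / D) D K (rhoE D) (cutL M (s2 / 2)) (cutR M (s2 / 2)) where
  ok := fun x => InR D K x.2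
  cl := cl
  J := fun x => (ds (cl x)).pos M (s2 / 2) D x.2
  lo := fun c => (ds c).lo
  hi := fun c => (ds c).hi
  reg := fun x _ => (ds (cl x)).pos_mem (hrun _).1 x.2
  okE := fun _ => Iff.rfl
  near := fun x hx => Cl.pos_near hq hD hK (hrun _) hx (hcl.has x hx)
  z0 := by
    have hDp : (0:ℝ) < D := by exact_mod_cast (by omega : (0:ℤ) < D)
    have hM0 : (0:ℝ) ≤ M := Nat.cast_nonneg M
    have h2 : (D:ℝ) / 40 ≤ 1 + rhoE D := by
      have : (D:ℝ) ≤ 40 * (rhoE D : ℤ) + 39 := by exact_mod_cast (rho_le D).2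
      linarith
    simp only [yc, cutL]
    push_cast
    have h3 : (M:ℝ) * (D / 40) / D ≤ M * (1 + rhoE D) / D :=
      div_le_div_of_nonneg_right (mul_le_mul_of_nonneg_left h2 hM0) hDp.le
    have e : (M:ℝ) * (D / 40) / D = M / 40 := by
      field_simp
    rw [e] at h3
    have h4 : (0:ℝ) ≤ 12 * M / D := by positivity
    have e2 : (M:ℝ) * (-1 - (rhoE D : ℝ)) / D = -(M * (1 + rhoE D) / D) := by ring
    rw [e2]
    linarith
  z1 := by
    have hDp : (0:ℝ) < D := by exact_mod_cast (by omega : (0:ℤ) < D)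
    have hM0 : (0:ℝ) ≤ M := Nat.cast_nonneg M
    have h2 : (rhoE D : ℝ) ≤ D / 40 := by
      have : 40 * ((rhoE D : ℤ) : ℝ) ≤ D := by exact_mod_cast (rho_le D).1
      linarith
    simp only [yc, cutL, cutR]
    push_cast
    have h3 : (M:ℝ) * rhoE D / D ≤ M * (D / 40) / D :=
      div_le_div_of_nonneg_right (mul_le_mul_of_nonneg_left h2 hM0) hDp.le
    have e : (M:ℝ) * (D / 40) / D = M / 40 := by
      field_simp
    rw [e] at h3
    have h4 : (0:ℝ) ≤ 12 * M / D := by positivity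
    have e2 : (M:ℝ) * (-(rhoE D : ℝ)) / D = -(M * rhoE D / D) := by ring
    rw [e2]
    linarith
  z1' := by
    have hDp : (0:ℝ) < D := by exact_mod_cast (by omega : (0:ℤ) < D)
    have hM0 : (0:ℝ) ≤ M := Nat.cast_nonneg M
    have h2 : (rhoE D : ℝ) ≤ D / 40 := by
      have : 40 * ((rhoE D : ℤ) : ℝ) ≤ D := by exact_mod_cast (rho_le D).1
      linarith
    simp only [yc, cutL, cutR]
    push_cast
    have h3 : (M:ℝ) * rhoE D / D ≤ M * (D / 40) / D :=
      div_le_div_of_nonneg_right (mul_le_mul_of_nonneg_left h2 hM0) hDp.le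
    have e : (M:ℝ) * (D / 40) / D = M / 40 := by
      field_simp
    rw [e] at h3
    have h4 : (0:ℝ) ≤ 12 * M / D := by positivity
    have e2 : (M:ℝ) * ((D:ℝ) + rhoE D) / D = M + M * rhoE D / D := by
      field_simp
    rw [e2]
    linarith
  z2 := by
    have hDp : (0:ℝ) < D := by exact_mod_cast (by omega : (0:ℤ) < D)
    have hM0 : (0:ℝ) ≤ M := Nat.cast_nonneg M
    have h2 : (D:ℝ) / 40 ≤ 1 + rhoE D := by
      have : (D:ℝ) ≤ 40 * (rhoE D : ℤ) + 39 := by exact_mod_cast (rho_le D).2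
      linarith
    simp only [yc, cutL, cutR]
    push_cast
    have h3 : (M:ℝ) * (D / 40) / D ≤ M * (1 + rhoE D) / D :=
      div_le_div_of_nonneg_right (mul_le_mul_of_nonneg_left h2 hM0) hDp.le
    have e : (M:ℝ) * (D / 40) / D = M / 40 := by
      field_simp
    rw [e] at h3
    have h4 : (0:ℝ) ≤ 12 * M / D := by positivity
    have e2 : (M:ℝ) * ((D:ℝ) + rhoE D + 1) / D = M + M * (1 + rhoE D) / D := by
      field_simp
      ring
    rw [e2]
    linarith
  hk := by
    have hM0 : (0:ℝ) ≤ M := Nat.cast_nonneg M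
    unfold cutL cutR
    linarith
  hD0 := by omega

/-! ### Existence of the class map -/

/-- the classes cover the depths up to `nb D / q` of the side `sd` -/
def CovUp (q : ℤ) (cs : List Cl) (sd : Bool) (nb : ℤ) (st : Bool) : Prop :=
  ∀ (D : ℤ) (x : P3), 0 < D → x.1 = sd → (if st = true then q * x.2 < nb * D
    else q * x.2 ≤ nb * D) → ∃ c ∈ cs, c.has q D x

/-- check that the classes of a list, in increasing order, leave no gap; the state is the upper end
of what is covered -/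
def covChk (sd : Bool) : List Cl → ℤ → Bool → Option (ℤ × Bool)
  | [], nb, st => some (nb, st)
  | c :: cs, nb, st =>
    if c.sd ≠ sd then covChk sd cs nb st
    else if c.bt = true ∨ c.na < nb ∨ (c.na = nb ∧ ¬ (c.sa = true ∧ st = true)) then
      covChk sd cs c.nb c.sb
    else none

lemma covUp_step {q : ℤ} {cs : List Cl} {sd : Bool} {nb : ℤ} {st : Bool}
    (h : CovUp q cs sd nb st) {c : Cl} (hc : c ∈ cs) (hsd : c.sd = sd)
    (hn : c.bt = true ∨ c.na < nb ∨ (c.na = nb ∧ ¬ (c.sa = true ∧ st = true))) :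
    CovUp q cs sd c.nb c.sb := by
  intro D x hD hx hu
  by_cases h1 : (if st = true then q * x.2 < nb * D else q * x.2 ≤ nb * D)
  · exact h D x hD hx h1
  · refine ⟨c, hc, hx.trans hsd.symm, ?_, hu⟩
    rcases hn with hn | hn | ⟨hn, hs⟩
    · exact Or.inl hn
    · refine Or.inr ?_
      have h2 : c.na * D < nb * D := mul_lt_mul_of_pos_right hn hD
      have h3 : nb * D ≤ q * x.2 := by
        split_ifs at h1 <;> omega
      split_ifs <;> omega
    · refine Or.inr ?_
      rw [hn]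
      split_ifs at h1 ⊢ with a b
      · exact absurd ⟨a, b⟩ hs
      · omega
      · omega
      · omega

lemma covChk_sound {q : ℤ} {cs : List Cl} {sd : Bool} (l : List Cl) (hl : ∀ c ∈ l, c ∈ cs) :
    ∀ (nb : ℤ) (st : Bool), CovUp q cs sd nb st → ∀ r, covChk sd l nb st = some r →
      CovUp q cs sd r.1 r.2 := by
  induction l with
  | nil =>
    intro nb st h r hr
    simp only [covChk, Option.some.injEq] at hr
    rw [← hr]
    exact h
  | cons c l ih =>
    intro nb st h r hr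
    have hl' := fun d hd => hl d (List.mem_cons_of_mem _ hd)
    rw [covChk] at hr
    by_cases h1 : c.sd ≠ sd
    · rw [if_pos h1] at hr
      exact ih hl' nb st h r hr
    · rw [if_neg h1] at hr
      by_cases h2 : c.bt = true ∨ c.na < nb ∨ (c.na = nb ∧ ¬ (c.sa = true ∧ st = true))
      · rw [if_pos h2] at hr
        exact ih hl' c.nb c.sb (covUp_step h (hl c List.mem_cons_self) (not_not.1 h1) h2) r hr
      · rw [if_neg h2] at hr
        exact absurd hr (by simp)

/-- the first class of the side is a bottom class -/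
def covAll (sd : Bool) (q : ℤ) (cs : List Cl) : Bool :=
  match cs.find? (fun c => c.sd == sd && c.bt) with
  | none => false
  | some c =>
    match covChk sd cs c.nb c.sb with
    | none => false
    | some r => decide (q < 2 * r.1 ∨ q = 2 * r.1 ∧ r.2 = false)

lemma covAll_sound {q : ℤ} {cs : List Cl} {sd : Bool} (hq : 0 < q)
    (h : covAll sd q cs = true) {D K : ℤ} (hD : D = 4 * K + 1) (hK : 1 ≤ K) {x : P3}
    (hx : InR D K x) (hs : x.1 = sd) : ∃ c ∈ cs, c.has q D x := by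
  rcases hf : cs.find? (fun c => c.sd == sd && c.bt) with _ | c
  · simp [covAll, hf] at h
  · have hmem : c ∈ cs := List.mem_of_find?_eq_some hf
    have hprop := List.find?_some hf
    simp only [Bool.and_eq_true, beq_iff_eq] at hprop
    have base : CovUp q cs sd c.nb c.sb := by
      intro D x _ hx hu
      exact ⟨c, hmem, hx.trans hprop.1.symm, Or.inl hprop.2, hu⟩
    rcases hg : covChk sd cs c.nb c.sb with _ | r
    · simp [covAll, hf, hg] at h
    · simp only [covAll, hf, hg] at h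
      have hcov := covChk_sound cs (fun c hc => hc) c.nb c.sb base r hg
      refine hcov D x (by omega) hs ?_
      have h1 : q < 2 * r.1 ∨ q = 2 * r.1 ∧ r.2 = false := by simpa using h
      have h2 : 2 * (q * x.2) ≤ q * (4 * K) := by
        have := mul_le_mul_of_nonneg_left hx.2 hq.le
        linarith
      have h3 : q * (4 * K) < q * D := mul_lt_mul_of_pos_left (by omega) hq
      have h4 : q * D ≤ 2 * r.1 * D := mul_le_mul_of_nonneg_right (by omega) (by omega)
      have h5 : q * x.2 < r.1 * D := by linarith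
      split_ifs
      · exact h5
      · exact h5.le

/-- CLASS MAP, classes = positions in a list, no types -/
theorem exists_clMap {q : ℤ} {cs : List Cl} (hq : 0 < q) (h0 : covAll false q cs = true)
    (h1 : covAll true q cs = true) {D K : ℤ} (hD : D = 4 * K + 1) (hK : 1 ≤ K) :
    ∃ cl : P4 → Fin cs.length, ClMap (fun i => cs.get i) q D K cl ∧
      ∀ x y : P4, x.2 = y.2 → cl x = cl y := by
  have key : ∀ x : P3, InR D K x → ∃ i : Fin cs.length, (cs.get i).has q D x := by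
    intro x hx
    have : ∃ c ∈ cs, c.has q D x := by
      rcases hs : x.1 with _ | _
      · exact covAll_sound hq h0 hD hK hx hs
      · exact covAll_sound hq h1 hD hK hx hs
    obtain ⟨c, hc, hh⟩ := this
    obtain ⟨i, hi⟩ := List.get_of_mem hc
    exact ⟨i, by rw [hi]; exact hh⟩
  have hne : Nonempty (Fin cs.length) := by
    obtain ⟨i, _⟩ := key (false, 0) ⟨by omega, by dsimp only; omega⟩
    exact ⟨i⟩
  classical
  refine ⟨fun x => if hx : InR D K x.2 then Classical.choose (key x.2 hx)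
    else Classical.choice hne, ⟨fun x hx => ?_⟩, fun x y hxy => ?_⟩
  · rw [dif_pos hx]
    exact Classical.choose_spec (key x.2 hx)
  · simp only [hxy]

/-- CLASS MAP with types -/
theorem exists_clMapT {q : ℤ} {cs : List Cl} (hq : 0 < q) (h0 : covAll false q cs = true)
    (h1 : covAll true q cs = true) {D K : ℤ} (hD : D = 4 * K + 1) (hK : 1 ≤ K) :
    ∃ cl : P4 → Bool × Fin cs.length, ClMap (fun i => cs.get i.2) q D K cl ∧
      ∀ x : P4, (cl x).1 = x.1 := by
  obtain ⟨cl, hcl, _⟩ := exists_clMap hq h0 h1 hD hK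
  exact ⟨fun x => (x.1, cl x), ⟨fun x hx => hcl.has x hx⟩, fun _ => rfl⟩

end

/-! ### Flags of the classes in the cell `a/m < t/D ≤ b/m` -/

/-- window `[-t, 2t)`; `iw = 1`: the class contains only points above the lower end -/
def fw1 (q m a : ℤ) (iw : ℕ) (c : Cl) : ℤ :=
  if ((c.bt = false ∧ -(a * q) ≤ m * c.na) ∨ iw = 1) ∧ m * c.nb ≤ 2 * a * q then 1 else 0

/-- window `[-t, t/2)` -/
def fw2 (q m a : ℤ) (iw : ℕ) (c : Cl) : ℤ :=
  if ((c.bt = false ∧ -(a * q) ≤ m * c.na) ∨ iw = 1) ∧ 2 * m * c.nb ≤ a * q then 1 else 0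

/-- exotic window of the own side -/
def ff1 (q m a b : ℤ) (c : Cl) : ℤ :=
  if m * c.nb ≤ -(2 * b * q) ∨ (c.bt = false ∧ (m - 2 * a) * q ≤ m * c.na) then 0 else 1

/-- exotic window of the other side -/
def ff2 (q m a b : ℤ) (c : Cl) : ℤ :=
  if 2 * m * c.nb ≤ (m - b) * q ∨ (c.bt = false ∧ (2 * m - a) * q ≤ 2 * m * c.na) then 0 else 1

/-- sharing of the midpoints -/
def fom (q m b : ℤ) (c : Cl) : ℤ :=
  if m * c.nb < -(b * q) ∨ (m * c.nb ≤ -(b * q) ∧ c.sb = true) then 0 else 1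

/-- far labels -/
def fFc (q m a b : ℤ) (c : Cl) : ℤ :=
  if c.sd = false then
    (if 2 * m * c.nb ≤ a * q ∨ (c.bt = false ∧ (4 * b + m) * q ≤ 8 * m * c.na) then 0 else 1)
      + (if m * c.nb ≤ 2 * a * q ∨ (c.bt = false ∧ (8 * b + m) * q ≤ 4 * m * c.na) then 0 else 1)
  else
    (if 4 * m * c.nb + 8 * b * q ≤ 3 * m * q then 0 else 1)
      + (if fom q m b c = 0 ∨ (c.bt = false ∧ 40 * b * q - 40 * m * c.na ≤ 59 * m * q)
          then 0 else 1)
      + (if ff2 q m a b c = 0 ∨ 8 * m * c.nb + 4 * b * q ≤ 7 * m * q then 0 else 1)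

/-- integer ends of the windows: lower end `w`, upper ends `c1`, `c2` (side `P`), `c3` (side `Q`) -/
structure CutOK (m a D t0 w c1 c2 c3 : ℤ) : Prop where
  w : w ≤ 1 - t0
  c1 : ∀ u, m * u ≤ 2 * a * D → u < c1
  c2 : ∀ u, 2 * m * u ≤ a * D → u < c2
  c3 : ∀ u, u ≤ c3 → m * u < (m - 2 * a) * D

/-- the one-body kernel with cuts; `o = true`: OUT cell -/
noncomputable def n1cut (o : Bool) (K ρ E t0 t1 w c1 c2 c3 : ℤ) (x : P3) : ℝ :=
  n1g K ρ E t0 t1 (fun u => bo (w ≤ u ∧ u < c1)) (fun u => bo (w ≤ u ∧ u < c2))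
    (fun u => if o = true then bo (1 ≤ u + 2 * t1 ∧ u ≤ c3) else 0) x

/-- position of a cell -/
structure CellAt (m a b D t0 t1 : ℤ) : Prop where
  m0 : 0 < m
  h0 : a * D < m * t0
  h1 : m * t1 ≤ b * D
  t1n : 0 ≤ t1
  b2 : 2 * b ≤ 3 * m

section
variable {q m a b D K E lo t0 t1 : ℤ} {c : Cl} {x : P3}

/-- the usual cuts -/
lemma CutOK.usual (h : CellAt m a b D t0 t1) (hlo : lo ≤ 1) :
    CutOK m a D t0 (lo - t0) (2 * t0) ((t0 + 1) / 2) (D - 2 * t0) where
  w := by omega
  c1 := fun u hu => by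
    have hm := h.m0
    have h0 := h.h0
    have e1 : 0 < m * (2 * t0 - u) := by linarith
    have := (mul_pos_iff_of_pos_left hm).1 e1
    omega
  c2 := fun u hu => by
    have hm := h.m0
    have h0 := h.h0
    have e1 : 0 < m * (t0 - 2 * u) := by linarith
    have := (mul_pos_iff_of_pos_left hm).1 e1
    omega
  c3 := fun u hu => by
    have hm := h.m0
    have h0 := h.h0
    have e1 : m * u ≤ m * (D - 2 * t0) := mul_le_mul_of_nonneg_left hu hm.le
    linarith

lemma n1c_cut (K ρ E lo t0 t1 : ℤ) (x : P3) :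
    n1c K ρ E lo t0 t1 x
      = n1cut true K ρ E t0 t1 (lo - t0) (2 * t0) ((t0 + 1) / 2) (4 * K + 1 - 2 * t0) x := by
  rw [n1c_eq]
  unfold n1cut
  congr 1
  · funext u
    congr 1
    apply propext
    constructor <;> rintro ⟨h1, h2⟩ <;> exact ⟨h1, by omega⟩
  · funext u
    rw [if_pos rfl]
    congr 1
    apply propext
    constructor <;> rintro ⟨h1, h2⟩ <;> exact ⟨h1, by omega⟩

lemma n1inc_cut (K ρ E lo t0 t1 c3 : ℤ) (x : P3) :
    n1inc K ρ E lo t0 t1 x
      = n1cut false K ρ E t0 t1 (lo - t0) (2 * t0) ((t0 + 1) / 2) c3 x := by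
  rw [n1inc_eq]
  unfold n1cut
  congr 1
  funext u
  congr 1
  apply propext
  constructor <;> rintro ⟨h1, h2⟩ <;> exact ⟨h1, by omega⟩

lemma fw1_le {w c1 c2 c3 : ℤ} {iw : ℕ} (hq : 0 < q) (hD : 0 < D)
    (hc : CellAt m a b D t0 t1) (hk : CutOK m a D t0 w c1 c2 c3)
    (hiw : iw = 1 → w ≤ x.2) (hx : c.has q D x) :
    ((fw1 q m a iw c : ℤ) : ℝ) ≤ bo (w ≤ x.2 ∧ x.2 < c1) := by
  unfold fw1
  split_ifs with h
  · have hm := hc.m0
    have u1 := mul_le_mul_of_nonneg_left (Cl.has_hi hx) hm.le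
    have u2 := mul_le_mul_of_nonneg_right h.2 hD.le
    have e2 : q * (m * x.2) ≤ q * (2 * a * D) := by linarith
    have p2 := hk.c1 _ (le_of_mul_le_mul_left e2 hq)
    have p1 : w ≤ x.2 := by
      rcases h.1 with ⟨hb, h1⟩ | h1
      · have l1 := mul_le_mul_of_nonneg_left (Cl.has_lo hx hb) hm.le
        have l2 := mul_le_mul_of_nonneg_right h1 hD.le
        have l3 := mul_lt_mul_of_pos_left hc.h0 hq
        have e1 : 0 < (m * q) * (x.2 + t0) := by linarith
        have p1 := (mul_pos_iff_of_pos_left (mul_pos hm hq)).1 e1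
        have := hk.w
        omega
      · exact hiw h1
    rw [bo_true ⟨p1, p2⟩]
    norm_num
  · rw [Int.cast_zero]
    exact bo_nonneg _

lemma fw2_le {w c1 c2 c3 : ℤ} {iw : ℕ} (hq : 0 < q) (hD : 0 < D)
    (hc : CellAt m a b D t0 t1) (hk : CutOK m a D t0 w c1 c2 c3)
    (hiw : iw = 1 → w ≤ x.2) (hx : c.has q D x) :
    ((fw2 q m a iw c : ℤ) : ℝ) ≤ bo (w ≤ x.2 ∧ x.2 < c2) := by
  unfold fw2
  split_ifs with h
  · have hm := hc.m0
    have u1 := mul_le_mul_of_nonneg_left (Cl.has_hi hx) hm.le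
    have u2 := mul_le_mul_of_nonneg_right h.2 hD.le
    have e2 : q * (2 * m * x.2) ≤ q * (a * D) := by linarith
    have p2 := hk.c2 _ (le_of_mul_le_mul_left e2 hq)
    have p1 : w ≤ x.2 := by
      rcases h.1 with ⟨hb, h1⟩ | h1
      · have l1 := mul_le_mul_of_nonneg_left (Cl.has_lo hx hb) hm.le
        have l2 := mul_le_mul_of_nonneg_right h1 hD.le
        have l3 := mul_lt_mul_of_pos_left hc.h0 hq
        have e1 : 0 < (m * q) * (x.2 + t0) := by linarith
        have p1 := (mul_pos_iff_of_pos_left (mul_pos hm hq)).1 e1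
        have := hk.w
        omega
      · exact hiw h1
    rw [bo_true ⟨p1, p2⟩]
    norm_num
  · rw [Int.cast_zero]
    exact bo_nonneg _

lemma ff1_ge {w c1 c2 c3 : ℤ} (hq : 0 < q) (hD0 : 0 < D) (hc : CellAt m a b D t0 t1)
    (hk : CutOK m a D t0 w c1 c2 c3) (hx : c.has q D x) :
    bo (1 ≤ x.2 + 2 * t1 ∧ x.2 ≤ c3) ≤ ((ff1 q m a b c : ℤ) : ℝ) := by
  unfold ff1
  have hm := hc.m0
  split_ifs with h
  · rw [bo_false, Int.cast_zero]
    rintro ⟨d1, d2⟩
    rcases h with h | ⟨hb, h⟩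
    · have u1 := mul_le_mul_of_nonneg_left (Cl.has_hi hx) hm.le
      have u2 := mul_le_mul_of_nonneg_right h hD0.le
      have l3 := mul_le_mul_of_nonneg_left hc.h1 hq.le
      have e1 : (m * q) * (x.2 + 2 * t1) ≤ 0 := by linarith
      have e2 : 0 < (m * q) * (x.2 + 2 * t1) := mul_pos (mul_pos hm hq) (by omega)
      omega
    · have u1 := mul_le_mul_of_nonneg_left (Cl.has_lo hx hb) hm.le
      have u2 := mul_le_mul_of_nonneg_right h hD0.le
      have l3 := mul_lt_mul_of_pos_left (hk.c3 _ d2) hq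
      linarith
  · rw [Int.cast_one]
    exact bo_le_one _

lemma ff2_ge (hq : 0 < q) (hD : D = 4 * K + 1) (hK : 1 ≤ K) (hc : CellAt m a b D t0 t1)
    (hx : c.has q D x) :
    bo (1 ≤ 2 * x.2 + t1 - (4 * K + 1) ∧ 2 * x.2 + t0 - (4 * K + 1) ≤ 4 * K + 1)
      ≤ ((ff2 q m a b c : ℤ) : ℝ) := by
  unfold ff2
  have hD0 : 0 < D := by omega
  have hm := hc.m0
  split_ifs with h
  · rw [bo_false, Int.cast_zero]
    rintro ⟨c1, c2⟩
    rcases h with h | ⟨hb, h⟩
    · have u1 := mul_le_mul_of_nonneg_left (Cl.has_hi hx) hm.le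
      have u2 := mul_le_mul_of_nonneg_right h hD0.le
      have l3 := mul_le_mul_of_nonneg_left hc.h1 hq.le
      have e1 : (m * q) * (2 * x.2 + t1 - D) ≤ 0 := by linarith
      have e2 : 0 < (m * q) * (2 * x.2 + t1 - D) := mul_pos (mul_pos hm hq) (by omega)
      omega
    · have u1 := mul_le_mul_of_nonneg_left (Cl.has_lo hx hb) hm.le
      have u2 := mul_le_mul_of_nonneg_right h hD0.le
      have l3 := mul_lt_mul_of_pos_left hc.h0 hq
      have e1 : 0 < (m * q) * (2 * x.2 + t0 - 2 * D) := by linarith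
      have e2 := (mul_pos_iff_of_pos_left (mul_pos hm hq)).1 e1
      omega
  · rw [Int.cast_one]
    exact bo_le_one _

lemma fom_ge (hq : 0 < q) (hD : 0 < D) (hc : CellAt m a b D t0 t1) (hx : c.has q D x) :
    omc t1 x.2 ≤ ((fom q m b c : ℤ) : ℝ) := by
  unfold fom
  have hm := hc.m0
  have hle : omc t1 x.2 ≤ 1 := by
    unfold omc incl
    split_ifs <;> norm_num
  split_ifs with h
  · have u1 := mul_le_mul_of_nonneg_left (Cl.has_hi hx) hm.le
    have l3 := mul_le_mul_of_nonneg_left hc.h1 hq.le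
    have e1 : 0 < (m * q) * (-x.2 - t1) := by
      rcases h with h | ⟨h, hs⟩
      · have u2 := mul_lt_mul_of_pos_right h hD
        linarith
      · have u2 := mul_le_mul_of_nonneg_right h hD.le
        have u3 := mul_lt_mul_of_pos_left (Cl.has_hi_lt hx hs) hm
        linarith
    have e2 := (mul_pos_iff_of_pos_left (mul_pos hm hq)).1 e1
    have t1n := hc.t1n
    rw [Int.cast_zero]
    unfold omc incl
    rw [if_pos (by omega), if_neg (by omega)]
  · rw [Int.cast_one]
    exact hle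

lemma fFc_ge (hq : 0 < q) (hD : D = 4 * K + 1) (hK : 1 ≤ K) (hE : 40 * E ≤ D)
    (hc : CellAt m a b D t0 t1) (hK2 : x.2 ≤ 2 * K) (hx : c.has q D x) :
    fCc D K E t0 t1 x ≤ ((fFc q m a b c : ℤ) : ℝ) := by
  have hD0 : 0 < D := by omega
  have hm := hc.m0
  have hmq := mul_pos hm hq
  have hsd := Cl.has_sd hx
  have hh1 := mul_le_mul_of_nonneg_left hc.h1 hq.le
  have hh0 := mul_lt_mul_of_pos_left hc.h0 hq
  have hup := mul_le_mul_of_nonneg_left (Cl.has_hi hx) hm.le
  unfold fCc fFc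
  rcases hs : c.sd with _ | _
  · rw [if_pos (hsd.trans hs), if_pos rfl]
    push_cast
    have b1 : bo (t0 ≤ 2 * x.2 ∧ 2 * x.2 < t1 + K)
        ≤ (((if 2 * m * c.nb ≤ a * q ∨ (c.bt = false ∧ (4 * b + m) * q ≤ 8 * m * c.na)
          then (0:ℤ) else 1) : ℤ) : ℝ) := by
      split_ifs with h
      · rw [bo_false, Int.cast_zero]
        rintro ⟨c1, c2⟩
        rcases h with h | ⟨hb, h⟩
        · have u2 := mul_le_mul_of_nonneg_right h hD0.le
          have e1 : 0 < (m * q) * (t0 - 2 * x.2) := by linarith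
          have e2 := (mul_pos_iff_of_pos_left hmq).1 e1
          omega
        · have u1 := mul_le_mul_of_nonneg_left (Cl.has_lo hx hb) hm.le
          have u2 := mul_le_mul_of_nonneg_right h hD0.le
          have u3 : 0 < (m * q) * (t1 + K - 2 * x.2) := mul_pos hmq (by omega)
          have u4 : 0 ≤ (m * q) * (D - 4 * K) := mul_nonneg hmq.le (by omega)
          linarith
      · rw [Int.cast_one]
        exact bo_le_one _
    have b2 : bo (2 * t0 ≤ x.2 ∧ x.2 < 2 * t1 + K)
        ≤ (((if m * c.nb ≤ 2 * a * q ∨ (c.bt = false ∧ (8 * b + m) * q ≤ 4 * m * c.na)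
          then (0:ℤ) else 1) : ℤ) : ℝ) := by
      split_ifs with h
      · rw [bo_false, Int.cast_zero]
        rintro ⟨c1, c2⟩
        rcases h with h | ⟨hb, h⟩
        · have u2 := mul_le_mul_of_nonneg_right h hD0.le
          have e1 : 0 < (m * q) * (2 * t0 - x.2) := by linarith
          have e2 := (mul_pos_iff_of_pos_left hmq).1 e1
          omega
        · have u1 := mul_le_mul_of_nonneg_left (Cl.has_lo hx hb) hm.le
          have u2 := mul_le_mul_of_nonneg_right h hD0.le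
          have u3 : 0 < (m * q) * (2 * t1 + K - x.2) := mul_pos hmq (by omega)
          have u4 : 0 ≤ (m * q) * (D - 4 * K) := mul_nonneg hmq.le (by omega)
          linarith
      · rw [Int.cast_one]
        exact bo_le_one _
    have b3 : bo (2 * (D - K) - E < t1 + x.2 - D ∧ t0 + x.2 - D ≤ 2 * (D - 0) + E
        ∧ 0 < t1 + x.2 - D + E) = 0 := by
      apply bo_false
      rintro ⟨c1, _, _⟩
      have e1 : m * (2 * t1) ≤ m * (3 * D) := by
        have := mul_le_mul_of_nonneg_right hc.b2 hD0.le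
        have h1 := hc.h1
        linarith
      have e2 : 2 * t1 ≤ 3 * D := le_of_mul_le_mul_left e1 hm
      omega
    have b1' := b1
    have b2' := b2
    push_cast at b1' b2'
    rw [b3]
    linarith
  · rw [if_neg (by rw [hsd, hs]; simp), if_neg (by simp)]
    push_cast
    have b1 : bo (D + 1 - K ≤ x.2 + 2 * t1)
        ≤ (((if 4 * m * c.nb + 8 * b * q ≤ 3 * m * q then (0:ℤ) else 1) : ℤ) : ℝ) := by
      split_ifs with h
      · rw [bo_false, Int.cast_zero]
        intro c1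
        have u2 := mul_le_mul_of_nonneg_right h hD0.le
        have u3 : 0 < (m * q) * (x.2 + 2 * t1 - (D - K)) := mul_pos hmq (by omega)
        have u4 : 0 ≤ (m * q) * (D - 4 * K) := mul_nonneg hmq.le (by omega)
        linarith
      · rw [Int.cast_one]
        exact bo_le_one _
    have o1 := fom_ge hq hD0 hc hx
    have o2 := ff2_ge hq hD hK hc hx
    have b2 : omc t1 x.2 * bo (2 * (D - K) - E < t1 - x.2 ∧ t0 - x.2 ≤ 2 * (D - 0) + E
        ∧ 0 < t1 - x.2 + E)
        ≤ (((if fom q m b c = 0 ∨ (c.bt = false ∧ 40 * b * q - 40 * m * c.na ≤ 59 * m * q)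
          then (0:ℤ) else 1) : ℤ) : ℝ) := by
      split_ifs with h
      · rw [Int.cast_zero]
        rcases h with h | ⟨hb, h⟩
        · rw [h, Int.cast_zero] at o1
          have o3 := omc_nonneg t1 x.2
          have o4 : omc t1 x.2 = 0 := le_antisymm o1 o3
          rw [o4, zero_mul]
        · rw [bo_false, mul_zero]
          rintro ⟨c1, _, _⟩
          have u1 := mul_le_mul_of_nonneg_left (Cl.has_lo hx hb) hm.le
          have u2 := mul_le_mul_of_nonneg_right h hD0.le
          have u3 : 0 < (m * q) * (40 * (t1 - x.2) - 59 * D) := mul_pos hmq (by omega)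
          linarith
      · rw [Int.cast_one]
        have o3 := bo_le_one (2 * (D - K) - E < t1 - x.2 ∧ t0 - x.2 ≤ 2 * (D - 0) + E
          ∧ 0 < t1 - x.2 + E)
        have o4 := bo_nonneg (2 * (D - K) - E < t1 - x.2 ∧ t0 - x.2 ≤ 2 * (D - 0) + E
          ∧ 0 < t1 - x.2 + E)
        have o5 : omc t1 x.2 ≤ 1 := by
          unfold omc incl
          split_ifs <;> norm_num
        exact mul_le_one₀ o5 o4 o3
    have b3 : bo ((1 ≤ 2 * x.2 + t1 - D ∧ 2 * x.2 + t0 - D ≤ D) ∧ D - (2 * x.2 + t1 - D) < K)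
        ≤ (((if ff2 q m a b c = 0 ∨ 8 * m * c.nb + 4 * b * q ≤ 7 * m * q
          then (0:ℤ) else 1) : ℤ) : ℝ) := by
      split_ifs with h
      · rw [bo_false, Int.cast_zero]
        rintro ⟨⟨c1, c2⟩, c3⟩
        rcases h with h | h
        · rw [h, Int.cast_zero, bo_true ⟨by omega, by omega⟩] at o2
          norm_num at o2
        · have u2 := mul_le_mul_of_nonneg_right h hD0.le
          have u3 : 0 < (m * q) * (2 * x.2 + t1 - D - (D - K)) := mul_pos hmq (by omega)
          have u4 : 0 ≤ (m * q) * (D - 4 * K) := mul_nonneg hmq.le (by omega)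
          linarith
      · rw [Int.cast_one]
        exact bo_le_one _
    have b1' := b1
    have b2' := b2
    have b3' := b3
    push_cast at b1' b2' b3'
    linarith

lemma fw1_bd (q m a : ℤ) (iw : ℕ) (c : Cl) : 0 ≤ fw1 q m a iw c ∧ fw1 q m a iw c ≤ 1 := by
  unfold fw1
  split_ifs <;> norm_num

lemma fw2_bd (q m a : ℤ) (iw : ℕ) (c : Cl) : 0 ≤ fw2 q m a iw c ∧ fw2 q m a iw c ≤ 1 := by
  unfold fw2
  split_ifs <;> norm_num

lemma ff1_bd (q m a b : ℤ) (c : Cl) : 0 ≤ ff1 q m a b c ∧ ff1 q m a b c ≤ 1 := by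
  unfold ff1
  split_ifs <;> norm_num

lemma ff2_bd (q m a b : ℤ) (c : Cl) : 0 ≤ ff2 q m a b c ∧ ff2 q m a b c ≤ 1 := by
  unfold ff2
  split_ifs <;> norm_num

lemma fom_bd (q m b : ℤ) (c : Cl) : 0 ≤ fom q m b c ∧ fom q m b c ≤ 1 := by
  unfold fom
  split_ifs <;> norm_num

lemma fFc_bd (q m a b : ℤ) (c : Cl) : 0 ≤ fFc q m a b c ∧ fFc q m a b c ≤ 3 := by
  unfold fFc
  split_ifs <;> norm_num

end

noncomputable section

/-! ### Canonical tables of the truncated price -/

/-- exact node value, except at the first node beyond the cap, where the ramp is extended -/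
def kapX (ε T α β : ℝ) (i : ℤ) : ℝ :=
  if 2 * T + ε < α * i + β ∧ α * i + β < 2 * T + ε + |α| then (α * i + β - ε) / 2
  else kapR ε T (α * i + β)

lemma kapR_le_kapX {ε T : ℝ} (hT : 0 ≤ T) (α β : ℝ) (i : ℤ) :
    kapR ε T (α * i + β) ≤ kapX ε T α β i := by
  unfold kapX
  split_ifs with h
  · refine (kapR_le hT _).trans ?_
    linarith [h.1]
  · exact le_rfl

theorem kapX_ok {ε T : ℝ} (hT : 0 ≤ T) (α β : ℝ) (lo hi : ℤ) :
    KapOK ε T α β lo hi (kapX ε T α β) := by
  refine ⟨fun i _ _ => kapR_le_kapX hT α β i, fun i _ _ => ?_⟩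
  have g0 := kapR_le_kapX (ε := ε) hT α β i
  have g1 := kapR_le_kapX (ε := ε) hT α β (i + 1)
  have e : α * ((i + 1 : ℤ) : ℝ) + β = α * i + β + α := by
    push_cast
    ring
  rw [e] at g1 ⊢
  unfold CapOK
  rcases le_or_gt (2 * T + ε) (α * i + β) with c0 | c0
  · rcases le_or_gt (2 * T + ε) (α * i + β + α) with c1 | c1
    · exact Or.inl ⟨c0, c1⟩
    · rcases eq_or_lt_of_le c0 with c2 | c2
      · exact Or.inr (Or.inl ⟨c2.ge, c1.le⟩)
      · refine Or.inr (Or.inr (Or.inr ⟨c1, c2, ?_⟩))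
        have hα : α < 0 := by linarith
        have k0 : kapX ε T α β i = (α * i + β - ε) / 2 := by
          unfold kapX
          rw [if_pos ⟨c2, by rw [abs_of_neg hα]; linarith⟩]
        have q1 := (line_le_kapR c1.le).trans g1
        have a := mul_le_mul_of_nonneg_right q1 (by linarith : 0 ≤ α * i + β - (2 * T + ε))
        rw [k0]
        nlinarith
  · rcases le_or_gt (α * i + β + α) (2 * T + ε) with c1 | c1
    · exact Or.inr (Or.inl ⟨c0.le, c1⟩)
    · refine Or.inr (Or.inr (Or.inl ⟨c0, c1, ?_⟩))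
      have hα : 0 < α := by linarith
      have k1 : kapX ε T α β (i + 1) = (α * i + β + α - ε) / 2 := by
        unfold kapX
        rw [e, if_pos ⟨c1, by rw [abs_of_pos hα]; linarith⟩]
      have q0 := (line_le_kapR c0.le).trans g0
      have a := mul_le_mul_of_nonneg_right q0 (by linarith : 0 ≤ α * i + β + α - (2 * T + ε))
      rw [k1]
      nlinarith

end

/-- rational version of `kapR` -/
def kapQ (ε T y : ℚ) : ℚ := max 0 (min T ((y - ε) / 2))

/-- rational version of `kapX` -/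
def kapXQ (ε T α β : ℚ) (i : ℤ) : ℚ :=
  if 2 * T + ε < α * i + β ∧ α * i + β < 2 * T + ε + |α| then (α * i + β - ε) / 2
  else kapQ ε T (α * i + β)

lemma kapQ_cast (ε T y : ℚ) : ((kapQ ε T y : ℚ) : ℝ) = kapR ε T y := by
  unfold kapQ kapR
  push_cast
  rfl

lemma kapXQ_cast (ε T α β : ℚ) (i : ℤ) :
    ((kapXQ ε T α β i : ℚ) : ℝ) = kapX ε T α β i := by
  unfold kapXQ kapX
  have h : (2 * T + ε < α * i + β ∧ α * i + β < 2 * T + ε + |α|)
      ↔ (2 * (T:ℝ) + ε < α * i + β ∧ (α:ℝ) * i + β < 2 * T + ε + |(α:ℝ)|) := by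
    constructor
    · rintro ⟨h1, h2⟩
      exact ⟨by exact_mod_cast h1, by exact_mod_cast h2⟩
    · rintro ⟨h1, h2⟩
      exact ⟨by exact_mod_cast h1, by exact_mod_cast h2⟩
  by_cases c : 2 * T + ε < α * i + β ∧ α * i + β < 2 * T + ε + |α|
  · rw [if_pos c, if_pos (h.1 c)]
    push_cast
    ring
  · rw [if_neg c, if_neg (fun h' => c (h.2 h')), kapQ_cast]
    push_cast
    rfl

/-- data of a cell: mesh `M`, `σ = s2/2`, class denominator `q`, cell `a/m < t/D ≤ b/m`,
`o = true`: OUT cell -/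
structure CellPar where
  M : ℕ
  s2 : ℤ
  q : ℤ
  m : ℤ
  a : ℤ
  b : ℤ
  kn : ℤ := 1
  kd : ℤ := 250
  o : Bool := true

namespace CellPar

/-- node table of the midpoint price, first parity -/
def kA (p : CellPar) (i : ℤ) : ℚ :=
  kapXQ (1 / 40) (9 / 40) (1 / (2 * p.M)) ((p.b / p.m - 1 + p.s2 / 2 / p.M) / 2) i

/-- node table of the midpoint price, second parity -/
def kB (p : CellPar) (i : ℤ) : ℚ :=
  kapXQ (1 / 40) (9 / 40) (1 / (2 * p.M)) ((p.b / p.m - 1 + 1 / 40 + p.s2 / 2 / p.M) / 2) i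

/-- node table of the exotic price of the own side -/
def k1 (p : CellPar) (i : ℤ) : ℚ :=
  kapXQ (1 / 40) (9 / 40) (-(1 / p.M)) (1 + 2 * (p.b / p.m) - p.s2 / 2 / p.M) i

/-- node table of the exotic price of the other side -/
def k2 (p : CellPar) (i : ℤ) : ℚ :=
  kapXQ (1 / 40) (9 / 40) (-(2 / p.M)) (1 + p.b / p.m - 2 * (p.s2 / 2 / p.M)) i

/-- charge of a far label, units of `D` -/
def kc (p : CellPar) : ℚ := p.kn / p.kd

/-- own exotic window, only in OUT cells -/
def fo1 (p : CellPar) (c : Cl) : ℤ := if p.o = true then ff1 p.q p.m p.a p.b c else 0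

lemma fo1_bd (p : CellPar) (c : Cl) : 0 ≤ p.fo1 c ∧ p.fo1 c ≤ 1 := by
  have h := ff1_bd p.q p.m p.a p.b c
  unfold fo1
  split_ifs
  · exact h
  · norm_num

/-- one body part of the net at the nodes, units of `D` -/
def nb (p : CellPar) (iw : ℕ) (c : Cl) (i : ℤ) : ℚ :=
  (if c.sd = false then
      9 / 40 * (fw1 p.q p.m p.a iw c + fw2 p.q p.m p.a iw c) - 1 / 2 * (p.kA i + p.kB i)
    else -(p.fo1 c * p.k1 i) - ff2 p.q p.m p.a p.b c * p.k2 i
      - 1 / 2 * fom p.q p.m p.b c * (p.kA i + p.kB i)) - fFc p.q p.m p.a p.b c * p.kc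

end CellPar

noncomputable section

variable {C : Type}

/-- THE FLAGS OF A CELL, from the class descriptors -/
theorem flg_cls {p : CellPar} {D K E t0 t1 w c1 c2 c3 : ℤ} {ds : C → Cl} {iw : C → ℕ}
    {cl : P4 → C}
    (hq : 0 < p.q) (hD : D = 4 * K + 1) (hK : 1 ≤ K) (hrun : ∀ c, (ds c).run p.M p.s2 p.q)
    (hcl : ClMap ds p.q D K cl) (hiw : ∀ x, InR D K x.2 → iw (cl x) = 1 → w ≤ x.2.2)
    (hc : CellAt p.m p.a p.b D t0 t1) (hk : CutOK p.m p.a D t0 w c1 c2 c3)
    (hE : 40 * E ≤ D) :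
    FlgOut (mkGrd hq hD hK hrun hcl) (1 / 40) (9 / 40) (1 / 40) (p.b / p.m) E t0 t1
      (fun u => bo (w ≤ u ∧ u < c1)) (fun u => bo (w ≤ u ∧ u < c2))
      (fun u => if p.o = true then bo (1 ≤ u + 2 * t1 ∧ u ≤ c3) else 0)
      (fun c => (ds c).sd) (fun c => (fw1 p.q p.m p.a (iw c) (ds c) : ℤ))
      (fun c => (fw2 p.q p.m p.a (iw c) (ds c) : ℤ)) (fun c => (p.fo1 (ds c) : ℤ))
      (fun c => (ff2 p.q p.m p.a p.b (ds c) : ℤ)) (fun c => (fom p.q p.m p.b (ds c) : ℤ))
      (fun c => (fFc p.q p.m p.a p.b (ds c) : ℤ)) (fun _ i => (p.kA i : ℚ))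
      (fun _ i => (p.kB i : ℚ)) (fun _ i => (p.k1 i : ℚ)) (fun _ i => (p.k2 i : ℚ)) where
  hsd := fun x hx => (Cl.has_sd (hcl.has x hx)).symm
  hw1 := fun x hx _ => fw1_le hq (by omega) hc hk (hiw x hx) (hcl.has x hx)
  hw2 := fun x hx _ => fw2_le hq (by omega) hc hk (hiw x hx) (hcl.has x hx)
  hw10 := fun c => by exact_mod_cast (fw1_bd p.q p.m p.a (iw c) (ds c)).1
  hw20 := fun c => by exact_mod_cast (fw2_bd p.q p.m p.a (iw c) (ds c)).1
  hF0 := fun x _ _ => by
    split_ifs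
    · exact bo_nonneg _
    · exact le_rfl
  hf1 := fun x hx _ => by
    unfold CellPar.fo1
    split_ifs
    · exact ff1_ge hq (by omega) hc hk (hcl.has x hx)
    · rw [Int.cast_zero]
  hf2 := fun x hx _ => ff2_ge hq hD hK hc (hcl.has x hx)
  hom := fun x hx _ => fom_ge hq (by omega) hc (hcl.has x hx)
  hf11 := fun c => by exact_mod_cast (p.fo1_bd (ds c)).2
  hf21 := fun c => by exact_mod_cast (ff2_bd p.q p.m p.a p.b (ds c)).2
  hom1 := fun c => by exact_mod_cast (fom_bd p.q p.m p.b (ds c)).2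
  hom0 := fun c => by exact_mod_cast (fom_bd p.q p.m p.b (ds c)).1
  hf10 := fun c => by exact_mod_cast (p.fo1_bd (ds c)).1
  hf20 := fun c => by exact_mod_cast (ff2_bd p.q p.m p.a p.b (ds c)).1
  hFc := fun x hx => fFc_ge hq hD hK hE hc hx.2 (hcl.has x hx)
  hFc0 := fun c => by exact_mod_cast (fFc_bd p.q p.m p.a p.b (ds c)).1
  hFc3 := fun c => by exact_mod_cast (fFc_bd p.q p.m p.a p.b (ds c)).2
  hkA := fun c => by
    have h := kapX_ok (ε := 1 / 40) (T := 9 / 40) (by norm_num) (1 / (2 * (p.M:ℝ)))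
      (((p.b:ℝ) / p.m - 1 + (p.s2:ℝ) / 2 / p.M) / 2)
      ((mkGrd hq hD hK hrun hcl).lo c) ((mkGrd hq hD hK hrun hcl).hi c)
    have e : (fun i => ((p.kA i : ℚ) : ℝ)) = kapX (1 / 40) (9 / 40) (1 / (2 * (p.M:ℝ)))
      (((p.b:ℝ) / p.m - 1 + (p.s2:ℝ) / 2 / p.M) / 2) := by
      funext i
      unfold CellPar.kA
      rw [kapXQ_cast]
      push_cast
      rfl
    rw [e]
    exact h
  hkB := fun c => by
    have h := kapX_ok (ε := 1 / 40) (T := 9 / 40) (by norm_num) (1 / (2 * (p.M:ℝ)))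
      (((p.b:ℝ) / p.m - 1 + 1 / 40 + (p.s2:ℝ) / 2 / p.M) / 2)
      ((mkGrd hq hD hK hrun hcl).lo c) ((mkGrd hq hD hK hrun hcl).hi c)
    have e : (fun i => ((p.kB i : ℚ) : ℝ)) = kapX (1 / 40) (9 / 40) (1 / (2 * (p.M:ℝ)))
      (((p.b:ℝ) / p.m - 1 + 1 / 40 + (p.s2:ℝ) / 2 / p.M) / 2) := by
      funext i
      unfold CellPar.kB
      rw [kapXQ_cast]
      push_cast
      rfl
    rw [e]
    exact h
  hk1 := fun c _ => by
    have h := kapX_ok (ε := 1 / 40) (T := 9 / 40) (by norm_num) (-(1 / (p.M:ℝ)))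
      (1 + 2 * ((p.b:ℝ) / p.m) - (p.s2:ℝ) / 2 / p.M)
      ((mkGrd hq hD hK hrun hcl).lo c) ((mkGrd hq hD hK hrun hcl).hi c)
    have e : (fun i => ((p.k1 i : ℚ) : ℝ)) = kapX (1 / 40) (9 / 40) (-(1 / (p.M:ℝ)))
      (1 + 2 * ((p.b:ℝ) / p.m) - (p.s2:ℝ) / 2 / p.M) := by
      funext i
      unfold CellPar.k1
      rw [kapXQ_cast]
      push_cast
      rfl
    rw [e]
    exact h
  hk2 := fun c _ => by
    have h := kapX_ok (ε := 1 / 40) (T := 9 / 40) (by norm_num) (-(2 / (p.M:ℝ)))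
      (1 + (p.b:ℝ) / p.m - 2 * ((p.s2:ℝ) / 2 / p.M))
      ((mkGrd hq hD hK hrun hcl).lo c) ((mkGrd hq hD hK hrun hcl).hi c)
    have e : (fun i => ((p.k2 i : ℚ) : ℝ)) = kapX (1 / 40) (9 / 40) (-(2 / (p.M:ℝ)))
      (1 + (p.b:ℝ) / p.m - 2 * ((p.s2:ℝ) / 2 / p.M)) := by
      funext i
      unfold CellPar.k2
      rw [kapXQ_cast]
      push_cast
      rfl
    rw [e]
    exact h

/-- the node table is rational and computable -/
lemma nb_cast (p : CellPar) (iw : C → ℕ) (ds : C → Cl) (ζ : C × ℤ) :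
    nbOut (9 / 40) (p.kc : ℝ) (fun c => (ds c).sd) (fun c => ((fw1 p.q p.m p.a (iw c) (ds c) : ℤ) : ℝ))
      (fun c => ((fw2 p.q p.m p.a (iw c) (ds c) : ℤ) : ℝ))
      (fun c => ((p.fo1 (ds c) : ℤ) : ℝ))
      (fun c => ((ff2 p.q p.m p.a p.b (ds c) : ℤ) : ℝ))
      (fun c => ((fom p.q p.m p.b (ds c) : ℤ) : ℝ))
      (fun c => ((fFc p.q p.m p.a p.b (ds c) : ℤ) : ℝ)) (fun _ i => ((p.kA i : ℚ) : ℝ))
      (fun _ i => ((p.kB i : ℚ) : ℝ)) (fun _ i => ((p.k1 i : ℚ) : ℝ))
      (fun _ i => ((p.k2 i : ℚ) : ℝ)) ζ = ((p.nb (iw ζ.1) (ds ζ.1) ζ.2 : ℚ) : ℝ) := by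
  unfold nbOut CellPar.nb
  by_cases h : (ds ζ.1).sd = false
  · have h' : (fun c => (ds c).sd) ζ.1 = false := h
    rw [if_pos h', if_pos h]
    push_cast
    rfl
  · have h' : ¬ (fun c => (ds c).sd) ζ.1 = false := h
    rw [if_neg h', if_neg h]
    push_cast
    rfl

end

end MP61673a.FE
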