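import Pool.Agent.Mu673.CoreGain

/-!
CORE-DEEP (helper61): in the shifted frame (`T = K - ρ`, `6 ρ ≤ K`) the signed deep labels of both
sides plus the gains of the pairs of positions `≥ -N` are nonnegative, up to the exotic labels and
up to the defect of the coverage of the labels `< K` by such pairs.
-/

namespace MP61673a.W

open Finset

noncomputable section

/-- number of the prices hit by the label `s` -/
lemma count_leE {D K ρ s : ℤ} (hD : D = 4 * K + 1) :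
    ∑ g ∈ Ico (K - ρ + 1) D, (if 2 * K + 1 + ρ + 2 * g ≤ s then (1:ℝ) else 0)
      ≤ (if D - ρ + 1 ≤ s then ((s:ℝ) - D + ρ) / 2 else 0) := by
  by_cases c : D - ρ + 1 ≤ s
  · rw [if_pos c]
    set G : ℤ := (s - 2 * K - 1 - ρ) / 2 with hG
    have h1 : ∑ g ∈ Ico (K - ρ + 1) D, (if 2 * K + 1 + ρ + 2 * g ≤ s then (1:ℝ) else 0)
        ≤ ∑ g ∈ Icc (K - ρ + 1) G, (1:ℝ) := by
      rw [← sum_filter]
      refine sum_le_sum_of_subset_of_nonneg ?_ fun _ _ _ => by norm_num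
      intro g hg
      rw [mem_filter, mem_Ico] at hg
      rw [mem_Icc]
      omega
    rw [sum_const, Int.card_Icc, nsmul_eq_mul, mul_one] at h1
    have h2 : 2 * (((G + 1 - (K - ρ + 1)).toNat : ℕ) : ℤ) ≤ s - D + ρ := by omega
    have h3 : 2 * (((G + 1 - (K - ρ + 1)).toNat : ℕ) : ℝ) ≤ s - D + ρ := by
      exact_mod_cast h2
    linarith
  · rw [if_neg c]
    refine le_of_eq (sum_eq_zero fun g hg => ?_)
    rw [mem_Ico] at hg
    rw [if_neg]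
    omega

/-- the deep labels, pair by pair -/
lemma deepB_ge {P Q : WS} (hP : Good P) (hQ : Good Q) {D K ρ : ℤ} (hD : D = 4 * K + 1) :
    ∑ b ∈ Q.S, ∑ a ∈ P.S, Q.f b * P.f a * (if D - ρ + 1 ≤ Q.u b + 2 * P.u a then
        nn Q (1 + ρ) - (((Q.u b + 2 * P.u a : ℤ) : ℝ) - D + ρ) / 2 else 0)
      ≤ deepB P Q D K (K - ρ) ρ := by
  unfold deepB
  rw [show D - K + (K - ρ + 1) = D - ρ + 1 by ring, sum_dd_eq]
  unfold dd
  rw [mul_sum, ← sum_sub_distrib]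
  refine sum_le_sum fun b hb => ?_
  rw [mul_sum, ← sum_sub_distrib]
  refine sum_le_sum fun a ha => ?_
  have e1 := mul_nonneg (hQ.f_nonneg b hb) (hP.f_nonneg a ha)
  have e2 := mul_le_mul_of_nonneg_left (count_leE (ρ := ρ) (s := Q.u b + 2 * P.u a) hD) e1
  by_cases c : D - ρ + 1 ≤ Q.u b + 2 * P.u a
  · rw [if_pos c] at e2 ⊢
    rw [if_pos c]
    linarith
  · rw [if_neg c] at e2 ⊢
    rw [if_neg c]
    linarith

/-- weight of the position `u` near the centre -/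
def cph (K ρ u : ℤ) : ℝ := max 0 (1 - (2 * (K:ℝ) - u) / (3 * ρ))

/-- weighted mass near the centre -/
def cor (P : WS) (K ρ : ℤ) : ℝ := ∑ a ∈ P.S, P.f a * cph K ρ (P.u a)

lemma cph_nonneg (K ρ u : ℤ) : 0 ≤ cph K ρ u := le_max_left _ _

lemma cor_nonneg {P : WS} (hP : Good P) (K ρ : ℤ) : 0 ≤ cor P K ρ :=
  sum_nonneg fun a ha => mul_nonneg (hP.f_nonneg a ha) (cph_nonneg _ _ _)

/-- the defect of a pair, both sides together -/
lemma defect2 {r x y : ℝ} (hr : 0 < r) (hx : 0 ≤ x) (hy : 0 ≤ y) :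
    max 0 (3 * r - y - 2 * x) / 2 + max 0 (3 * r - x - 2 * y) / 2
      ≤ 3 * r * (max 0 (1 - x / (3 * r)) * max 0 (1 - y / (3 * r))) := by
  have h3 : (0:ℝ) < 3 * r := by linarith
  have ex : 3 * r * (x / (3 * r)) = x := mul_div_cancel₀ _ h3.ne'
  have ey : 3 * r * (y / (3 * r)) = y := mul_div_cancel₀ _ h3.ne'
  set α := x / (3 * r) with hα
  set β := y / (3 * r) with hβ
  have ha : 0 ≤ α := div_nonneg hx h3.le
  have hb : 0 ≤ β := div_nonneg hy h3.le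
  have e1 : 3 * r - y - 2 * x = 3 * r * (1 - β - 2 * α) := by rw [← ex, ← ey]; ring
  have e2 : 3 * r - x - 2 * y = 3 * r * (1 - α - 2 * β) := by rw [← ex, ← ey]; ring
  have m1 : max 0 (3 * r - y - 2 * x) = 3 * r * max 0 (1 - β - 2 * α) := by
    rw [e1, mul_max_of_nonneg _ _ h3.le, mul_zero]
  have m2 : max 0 (3 * r - x - 2 * y) = 3 * r * max 0 (1 - α - 2 * β) := by
    rw [e2, mul_max_of_nonneg _ _ h3.le, mul_zero]
  rw [m1, m2]
  have key : max 0 (1 - β - 2 * α) / 2 + max 0 (1 - α - 2 * β) / 2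
      ≤ max 0 (1 - α) * max 0 (1 - β) := by
    have g1 : 0 ≤ max 0 (1 - α) * max 0 (1 - β) := mul_nonneg (le_max_left _ _) (le_max_left _ _)
    rcases le_total (1 - β - 2 * α) 0 with c1 | c1
    · rw [max_eq_left c1]
      rcases le_total (1 - α - 2 * β) 0 with c2 | c2
      · rw [max_eq_left c2]
        linarith
      · rw [max_eq_right c2, max_eq_right (show 0 ≤ 1 - α by linarith),
          max_eq_right (show 0 ≤ 1 - β by linarith)]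
        nlinarith [mul_nonneg ha hb]
    · rcases le_total (1 - α - 2 * β) 0 with c2 | c2
      · rw [max_eq_right c1, max_eq_left c2, max_eq_right (show 0 ≤ 1 - α by linarith),
          max_eq_right (show 0 ≤ 1 - β by linarith)]
        nlinarith [mul_nonneg ha hb]
      · rw [max_eq_right c1, max_eq_right c2, max_eq_right (show 0 ≤ 1 - α by linarith),
          max_eq_right (show 0 ≤ 1 - β by linarith)]
        nlinarith [mul_nonneg ha hb]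
  have := mul_le_mul_of_nonneg_left key h3.le
  linarith

lemma cph_le_one {K ρ u : ℤ} (hρ : 1 ≤ ρ) (hu : u ≤ 2 * K) : cph K ρ u ≤ 1 := by
  unfold cph
  refine max_le zero_le_one ?_
  have h1 : (0:ℝ) < 3 * ρ := by
    have : (1:ℝ) ≤ ρ := by exact_mod_cast hρ
    linarith
  have h2 : (0:ℝ) ≤ 2 * (K:ℝ) - u := by
    have : (u:ℝ) ≤ 2 * K := by exact_mod_cast hu
    linarith
  have := div_nonneg h2 h1.le
  linarith

lemma cph_pos_iff {K ρ u : ℤ} (hρ : 1 ≤ ρ) : 0 < cph K ρ u ↔ 2 * K - 3 * ρ < u := by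
  unfold cph
  have h1 : (0:ℝ) < 3 * ρ := by
    have : (1:ℝ) ≤ ρ := by exact_mod_cast hρ
    linarith
  rw [lt_max_iff]
  constructor
  · rintro (h | h)
    · exact absurd h (lt_irrefl _)
    · have h2 : (2 * (K:ℝ) - u) / (3 * ρ) < 1 := by linarith
      rw [div_lt_one h1] at h2
      have h3 : ((2 * K - u : ℤ) : ℝ) < ((3 * ρ : ℤ) : ℝ) := by push_cast; exact h2
      have h4 : 2 * K - u < 3 * ρ := by exact_mod_cast h3
      omega
  · intro h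
    right
    have h2 : (2 * (K:ℝ) - u) / (3 * ρ) < 1 := by
      rw [div_lt_one h1]
      have h3 : 2 * K - u < 3 * ρ := by omega
      have h4 : ((2 * K - u : ℤ) : ℝ) < ((3 * ρ : ℤ) : ℝ) := by exact_mod_cast h3
      push_cast at h4
      exact h4
    linarith

/-- all pairs of elements near the centre are deep on both sides -/
lemma cor_mul_le {P Q : WS} (hP : Good P) (hQ : Good Q) {D K ρ : ℤ} (hD : D = 4 * K + 1)
    (hρ : 1 ≤ ρ) (h6 : 6 * ρ ≤ K) (huP : ∀ a ∈ P.S, P.f a ≠ 0 → P.u a ≤ 2 * K)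
    (huQ : ∀ b ∈ Q.S, Q.f b ≠ 0 → Q.u b ≤ 2 * K) :
    cor P K ρ * cor Q K ρ ≤ dd Q P (D - ρ + 1) := by
  unfold cor dd
  rw [mul_comm, sum_mul_sum]
  refine sum_le_sum fun b hb => sum_le_sum fun a ha => ?_
  have fa := hP.f_nonneg a ha
  have fb := hQ.f_nonneg b hb
  have e0 : 0 ≤ Q.f b * P.f a := mul_nonneg fb fa
  by_cases za : P.f a = 0
  · rw [za]
    simp
  by_cases zb : Q.f b = 0
  · rw [zb]
    simp
  have ua := huP a ha za
  have ub := huQ b hb zb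
  have c1 := cph_le_one hρ ua
  have c2 := cph_le_one hρ ub
  have n1 := cph_nonneg K ρ (P.u a)
  have n2 := cph_nonneg K ρ (Q.u b)
  by_cases c : D - ρ + 1 ≤ Q.u b + 2 * P.u a
  · rw [if_pos c]
    have e1 : Q.f b * cph K ρ (Q.u b) ≤ Q.f b := mul_le_of_le_one_right fb c2
    have e2 : P.f a * cph K ρ (P.u a) ≤ P.f a := mul_le_of_le_one_right fa c1
    exact mul_le_mul e1 e2 (mul_nonneg fa n1) fb
  · rw [if_neg c]
    have h0 : ¬ (0 < cph K ρ (P.u a) ∧ 0 < cph K ρ (Q.u b)) := by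
      rintro ⟨h1, h2⟩
      rw [cph_pos_iff hρ] at h1 h2
      omega
    rcases n1.eq_or_lt with h1 | h1
    · rw [← h1]
      simp
    · rcases n2.eq_or_lt with h2 | h2
      · rw [← h2]
        simp
      · exact absurd ⟨h1, h2⟩ h0

lemma cor_le_mass {P : WS} (hP : Good P) {K ρ : ℤ} (hρ : 1 ≤ ρ)
    (huP : ∀ a ∈ P.S, P.f a ≠ 0 → P.u a ≤ 2 * K) : cor P K ρ ≤ mass P := by
  unfold cor mass
  refine sum_le_sum fun a ha => ?_
  by_cases za : P.f a = 0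
  · rw [za, zero_mul]
  · exact mul_le_of_le_one_right (hP.f_nonneg a ha) (cph_le_one hρ (huP a ha za))

/-- gain of one side, linearized: every slope `θ ≤ 6 ρ` -/
lemma gain_side {P Q : WS} (hP : Good P) (hQ : Good Q) {K ρ N : ℤ}
    (hρ : 1 ≤ ρ) (hN0 : 0 ≤ N) (hN : N ≤ ρ) (h6 : 6 * ρ ≤ K)
    (huP : ∀ a ∈ P.S, P.f a ≠ 0 → P.u a ≤ 2 * K)
    {y θ : ℝ} (hθ0 : 0 ≤ θ) (hθ : θ ≤ 6 * ρ)
    (hyc : ∀ v : ℤ, 0 ≤ v → v ≤ K → (v:ℝ) ≤ ccN P Q N v + y) :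
    θ * cor P K ρ * (K - 4 * ρ - y)
      ≤ mass P * ∑ a ∈ P.S, P.f a * tcN P Q N (P.u a - K + (1 - ρ - N) / 2) := by
  unfold cor
  rw [mul_sum, mul_sum, sum_mul]
  refine sum_le_sum fun a ha => ?_
  have fa := hP.f_nonneg a ha
  have mP := mass_nonneg hP
  have t0 := tcN_nonneg hP hQ N (P.u a - K + (1 - ρ - N) / 2)
  have rhs0 : 0 ≤ mass P * (P.f a * tcN P Q N (P.u a - K + (1 - ρ - N) / 2)) :=
    mul_nonneg mP (mul_nonneg fa t0)
  by_cases za : P.f a = 0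
  · rw [za]
    simp
  have ua := huP a ha za
  rcases (cph_nonneg K ρ (P.u a)).eq_or_lt with h1 | h1
  · rw [← h1, mul_zero, mul_zero, zero_mul]
    exact rhs0
  have hpos := (cph_pos_iff hρ).1 h1
  have hρr : (1:ℝ) ≤ ρ := by exact_mod_cast hρ
  have har : (P.u a : ℝ) ≤ 2 * K := by exact_mod_cast ua
  have hc : cph K ρ (P.u a) = 1 - (2 * (K:ℝ) - P.u a) / (3 * ρ) := by
    unfold cph at h1 ⊢
    refine max_eq_right ?_
    rcases lt_max_iff.1 h1 with h | h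
    · exact absurd h (lt_irrefl _)
    · exact h.le
  set φ := cph K ρ (P.u a) with hφ
  have hx : 2 * (K:ℝ) - P.u a = 3 * ρ * (1 - φ) := by
    rw [hc]
    have h3 : (3 * (ρ:ℝ)) ≠ 0 := by positivity
    field_simp
    ring
  set v : ℤ := P.u a - K + (1 - ρ - N) / 2 with hv
  have hv0 : 0 ≤ v := by omega
  have hvK : v ≤ K := by omega
  have hvr : (K:ℝ) - 4 * ρ + 3 * ρ * φ ≤ v := by
    have h2 : P.u a - K - ρ ≤ v := by omega
    have h3 : ((P.u a - K - ρ : ℤ) : ℝ) ≤ (v : ℝ) := by exact_mod_cast h2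
    push_cast at h3
    linarith
  have hcc := hyc v hv0 hvK
  have hca := core_cauchy hP hQ N v
  have h4 : 0 ≤ θ * φ := mul_nonneg hθ0 h1.le
  have h5 : 2 * (θ * φ) * ccN P Q N v - (θ * φ) ^ 2 ≤ ccN P Q N v ^ 2 := by
    nlinarith [sq_nonneg (ccN P Q N v - θ * φ)]
  have h6' : (θ * φ) * (K - 4 * ρ + 3 * ρ * φ - y) ≤ (θ * φ) * ccN P Q N v :=
    mul_le_mul_of_nonneg_left (by linarith) h4
  have h7 : 0 ≤ θ * φ ^ 2 * (6 * ρ - θ) :=
    mul_nonneg (mul_nonneg hθ0 (sq_nonneg _)) (by linarith)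
  have h8 : θ * φ * (K - 4 * ρ - y) ≤ mass P * tcN P Q N v := by
    have e1 : 2 * (θ * φ * (K - 4 * ρ - y)) + θ * φ ^ 2 * (6 * ρ - θ)
        = 2 * ((θ * φ) * (K - 4 * ρ + 3 * ρ * φ - y)) - (θ * φ) ^ 2 := by ring
    linarith
  have h9 := mul_le_mul_of_nonneg_left h8 fa
  calc θ * (P.f a * φ) * (K - 4 * ρ - y) = P.f a * (θ * φ * (K - 4 * ρ - y)) := by ring
    _ ≤ P.f a * (mass P * tcN P Q N v) := h9
    _ = mass P * (P.f a * tcN P Q N v) := by ring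

/-- the best slope -/
lemma gain_min {m A G κ H y r : ℝ} (hm : 0 < m) (hr : 0 ≤ r) (hκ : 0 ≤ κ) (hy : 0 ≤ y)
    (h : ∀ θ : ℝ, 0 ≤ θ → θ ≤ r → θ * A * (H - y) ≤ m * G) (hA : 0 ≤ A) :
    (r * A ≤ κ * m ∧ r * A * H ≤ m * (G + κ * y)) ∨ (κ * m ≤ r * A ∧ κ * H ≤ G + κ * y) := by
  rcases le_or_gt (r * A) (κ * m) with c | c
  · left
    refine ⟨c, ?_⟩
    have h1 := h r hr le_rfl
    have h2 := mul_le_mul_of_nonneg_right c hy
    nlinarith
  · right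
    refine ⟨c.le, ?_⟩
    have hA0 : 0 < A := by
      rcases hA.eq_or_lt with e | e
      · rw [← e, mul_zero] at c
        exact absurd c (not_lt.2 (mul_nonneg hκ hm.le))
      · exact e
    have h1 := h (κ * m / A) (div_nonneg (mul_nonneg hκ hm.le) hA) (by
      rw [div_le_iff₀ hA0]
      exact c.le)
    rw [div_mul_cancel₀ _ hA0.ne'] at h1
    have h2 : m * (κ * (H - y)) ≤ m * G := by linarith
    have h3 := le_of_mul_le_mul_left h2 hm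
    linarith

/-- the scalar inequality -/
lemma scalar_core {ρ A B G1 G2 m1 m2 κ H M y1 y2 : ℝ} (hρ : 0 < ρ) (hH : 0 < H) (hM : 0 < M)
    (hκ : 0 < κ) (hC1 : 9 / 16 * ρ ^ 2 ≤ κ * H)
    (hC2 : (3 * M - 6 * H) ^ 2 * ρ ^ 2 ≤ 8 * κ * H * M ^ 2) (hC3 : κ * M ≤ 24 * ρ * H)
    (hy1 : 0 ≤ y1) (hy2 : 0 ≤ y2) (hG1 : 0 ≤ G1) (hG2 : 0 ≤ G2)
    (hA : 0 ≤ A) (hB : 0 ≤ B) (hA1 : A ≤ m1) (hB1 : B ≤ m2) (hm : m1 * m2 ≤ M)
    (h1 : ∀ θ : ℝ, 0 ≤ θ → θ ≤ 6 * ρ → θ * A * (H - y1) ≤ m1 * G1)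
    (h2 : ∀ θ : ℝ, 0 ≤ θ → θ ≤ 6 * ρ → θ * B * (H - y2) ≤ m2 * G2) :
    3 * ρ * (A * B) - 2 * (A * B) ^ 2 ≤ G1 + G2 + κ * (y1 + y2) := by
  have g1 : 0 ≤ G1 + κ * y1 := by positivity
  have g2 : 0 ≤ G2 + κ * y2 := by positivity
  have e0 : G1 + G2 + κ * (y1 + y2) = (G1 + κ * y1) + (G2 + κ * y2) := by ring
  rw [e0]
  set t := A * B with ht
  have t0 : 0 ≤ t := mul_nonneg hA hB
  rcases (hA.trans hA1).eq_or_lt with z | hm1
  · have : A = 0 := le_antisymm (by linarith) hA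
    have : t = 0 := by rw [ht, this, zero_mul]
    rw [this]
    linarith
  rcases (hB.trans hB1).eq_or_lt with z | hm2
  · have : B = 0 := le_antisymm (by linarith) hB
    have : t = 0 := by rw [ht, this, mul_zero]
    rw [this]
    linarith
  -- one small, one large
  have mixed : ∀ {m m' a b x x' : ℝ}, 0 < m → 0 < m' → 0 ≤ a → 0 ≤ b → b ≤ m' → m * m' ≤ M →
      a * b = t → 6 * ρ * a * H ≤ m * x → 0 ≤ x → κ * H ≤ x' →
      3 * ρ * t - 2 * t ^ 2 ≤ x + x' := by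
    intro m m' a b x x' hm hm' ha hb hbm hmm hab hx hx0 hx'
    have e1 : 6 * ρ * t * H ≤ M * x := by
      have e2 : 6 * ρ * a * H * b ≤ 6 * ρ * a * H * m' :=
        mul_le_mul_of_nonneg_left hbm (by positivity)
      have e3 : 6 * ρ * a * H * m' ≤ m * x * m' := mul_le_mul_of_nonneg_right hx hm'.le
      have e4 : (m * m') * x ≤ M * x := mul_le_mul_of_nonneg_right hmm hx0
      rw [← hab]
      nlinarith
    have e5 : M * (3 * ρ * t - 2 * t ^ 2) ≤ 6 * ρ * t * H + M * (κ * H) := by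
      have e6 : 0 ≤ ((3 * M - 6 * H) * ρ - 4 * M * t) ^ 2 := sq_nonneg _
      have e7 : 8 * M * (M * (3 * ρ * t - 2 * t ^ 2) - 6 * ρ * t * H - M * (κ * H))
          = (3 * M - 6 * H) ^ 2 * ρ ^ 2 - 8 * κ * H * M ^ 2
            - ((3 * M - 6 * H) * ρ - 4 * M * t) ^ 2 := by ring
      by_contra hcon
      have hcon' := not_le.1 hcon
      have e8 : 0 < 8 * M * (M * (3 * ρ * t - 2 * t ^ 2) - 6 * ρ * t * H - M * (κ * H)) :=
        mul_pos (by positivity) (by linarith)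
      linarith
    have e9 : M * (3 * ρ * t - 2 * t ^ 2) ≤ M * (x + x') := by
      have := mul_le_mul_of_nonneg_left hx' hM.le
      linarith
    exact le_of_mul_le_mul_left e9 hM
  rcases gain_min (r := 6 * ρ) hm1 (by positivity) hκ.le hy1 h1 hA with ⟨a1, a2⟩ | ⟨a1, a2⟩
  · rcases gain_min (r := 6 * ρ) hm2 (by positivity) hκ.le hy2 h2 hB with ⟨b1, b2⟩ | ⟨b1, b2⟩
    · -- both small
      have hκM : 0 < κ * M := mul_pos hκ hM
      have e1 : 36 * ρ ^ 2 * H * t ≤ κ * M * (G1 + κ * y1) := by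
        have e2 := mul_le_mul_of_nonneg_left a2 (show 0 ≤ κ * m2 by positivity)
        have e3 := mul_le_mul_of_nonneg_right b1 (show 0 ≤ 6 * ρ * A * H by positivity)
        have e4 := mul_le_mul_of_nonneg_right hm (show 0 ≤ κ * (G1 + κ * y1) by positivity)
        have e5 : 36 * ρ ^ 2 * H * t = 6 * ρ * B * (6 * ρ * A * H) := by rw [ht]; ring
        rw [e5]
        nlinarith
      have e1' : 36 * ρ ^ 2 * H * t ≤ κ * M * (G2 + κ * y2) := by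
        have e2 := mul_le_mul_of_nonneg_left b2 (show 0 ≤ κ * m1 by positivity)
        have e3 := mul_le_mul_of_nonneg_right a1 (show 0 ≤ 6 * ρ * B * H by positivity)
        have e4 := mul_le_mul_of_nonneg_right hm (show 0 ≤ κ * (G2 + κ * y2) by positivity)
        have e5 : 36 * ρ ^ 2 * H * t = 6 * ρ * A * (6 * ρ * B * H) := by rw [ht]; ring
        rw [e5]
        nlinarith
      have e6 : κ * M * (3 * ρ * t) ≤ 24 * ρ * H * (3 * ρ * t) :=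
        mul_le_mul_of_nonneg_right hC3 (by positivity)
      have e7 : κ * M * (3 * ρ * t - 2 * t ^ 2)
          ≤ κ * M * ((G1 + κ * y1) + (G2 + κ * y2)) := by
        have : 0 ≤ κ * M * (2 * t ^ 2) := by positivity
        nlinarith
      exact le_of_mul_le_mul_left e7 hκM
    · exact mixed hm1 hm2 hA hB hB1 hm rfl a2 g1 b2
  · rcases gain_min (r := 6 * ρ) hm2 (by positivity) hκ.le hy2 h2 hB with ⟨b1, b2⟩ | ⟨b1, b2⟩
    · have := mixed hm2 hm1 hB hA hA1 (by linarith) (by rw [ht]; ring) b2 g2 a2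
      linarith
    · have : 3 * ρ * t - 2 * t ^ 2 ≤ 9 / 8 * ρ ^ 2 := by
        nlinarith [sq_nonneg (t - 3 / 4 * ρ)]
      linarith

/-- one side of the deep labels: defect of the corner pairs, product gain, exotic labels -/
lemma deep_side {P Q : WS} (hP : Good P) (hQ : Good Q) {D K ρ : ℤ} {ξR : ℤ → ℝ}
    (hD : D = 4 * K + 1) (hρ : 1 ≤ ρ) (h6 : 6 * ρ ≤ K)
    (huP : ∀ a ∈ P.S, P.f a ≠ 0 → P.u a ≤ 2 * K) (huQ : ∀ b ∈ Q.S, Q.f b ≠ 0 → Q.u b ≤ 2 * K)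
    (hcR : Covers P Q D ξR) (hm : mass P * mass Q ≤ 3 * K + 15 / 4) :
    dd Q P (D - ρ + 1) * (dd P Q (D - ρ + 1)
        - max 0 (ext ξR (D - ρ) - cc P Q 0 - nn Q (D + 1)) - 9 / 4)
      - ∑ b ∈ Q.S, ∑ a ∈ P.S, Q.f b * P.f a *
        (max 0 (3 * ρ - (2 * (K:ℝ) - Q.u b) - 2 * (2 * (K:ℝ) - P.u a)) / 2)
      ≤ deepB P Q D K (K - ρ) ρ := by
  refine le_trans ?_ (deepB_ge hP hQ hD)
  have h1 := nn_ge hcR (j := ρ) (by omega) (by omega)
  have h2 := dd_anti hP hQ (show D - ρ ≤ D - ρ + 1 by omega)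
  have hDr : (D:ℝ) = 4 * K + 1 := by exact_mod_cast hD
  set E := ext ξR (D - ρ) - cc P Q 0 - nn Q (D + 1) with hE
  have hE0 : E ≤ max 0 E := le_max_right _ _
  set N := dd P Q (D - ρ + 1) with hN
  have h3 : (K:ℝ) - ρ - 11 / 4 + N - max 0 E ≤ nn Q (1 + ρ) := by
    rw [show ρ + 1 = 1 + ρ by ring] at h1
    linarith
  have h4 : dd Q P (D - ρ + 1) * (N - max 0 E - 9 / 4)
      = ∑ b ∈ Q.S, ∑ a ∈ P.S, (if D - ρ + 1 ≤ Q.u b + 2 * P.u a then Q.f b * P.f a else 0)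
        * (N - max 0 E - 9 / 4) := by
    unfold dd
    rw [sum_mul]
    refine sum_congr rfl fun b _ => ?_
    rw [sum_mul]
  rw [h4]
  simp only [← sum_sub_distrib]
  refine sum_le_sum fun b hb => sum_le_sum fun a ha => ?_
  have fa := hP.f_nonneg a ha
  have fb := hQ.f_nonneg b hb
  have e0 : 0 ≤ Q.f b * P.f a := mul_nonneg fb fa
  by_cases za : P.f a = 0
  · rw [za]
    simp
  by_cases zb : Q.f b = 0
  · rw [zb]
    simp
  have ua : (P.u a : ℝ) ≤ 2 * K := by exact_mod_cast huP a ha za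
  have ub : (Q.u b : ℝ) ≤ 2 * K := by exact_mod_cast huQ b hb zb
  have m0 : 0 ≤ max 0 (3 * ρ - (2 * (K:ℝ) - Q.u b) - 2 * (2 * (K:ℝ) - P.u a)) / 2 :=
    div_nonneg (le_max_left _ _) (by norm_num)
  have m1 : 3 * ρ - (2 * (K:ℝ) - Q.u b) - 2 * (2 * (K:ℝ) - P.u a)
      ≤ max 0 (3 * ρ - (2 * (K:ℝ) - Q.u b) - 2 * (2 * (K:ℝ) - P.u a)) := le_max_right _ _
  by_cases c : D - ρ + 1 ≤ Q.u b + 2 * P.u a
  · rw [if_pos c, if_pos c]
    have h5 : (N - max 0 E - 9 / 4)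
        - max 0 (3 * ρ - (2 * (K:ℝ) - Q.u b) - 2 * (2 * (K:ℝ) - P.u a)) / 2
        ≤ nn Q (1 + ρ) - (((Q.u b + 2 * P.u a : ℤ) : ℝ) - D + ρ) / 2 := by
      push_cast
      linarith
    have h6 := mul_le_mul_of_nonneg_left h5 e0
    linarith
  · rw [if_neg c, if_neg c, zero_mul, mul_zero]
    have := mul_nonneg e0 m0
    linarith

/-- CORE-DEEP in the shifted frame, near strays (depth `≤ N ≤ ρ`) counted with the core.
`yL`, `yR` = defects of the coverage of the labels `< K` by pairs of positions `≥ -N`;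
`κ` = price of one unit of this defect; only the part `la` of the core gain is used. -/
theorem core_deepN {P Q : WS} (hP : Good P) (hQ : Good Q) {D K ρ N : ℤ} {ξR ξL : ℤ → ℝ}
    (hD : D = 4 * K + 1) (hρ : 1 ≤ ρ) (hN0 : 0 ≤ N) (hN : N ≤ ρ) (h6 : 6 * ρ ≤ K)
    (huP : ∀ a ∈ P.S, P.f a ≠ 0 → P.u a ≤ 2 * K) (huQ : ∀ b ∈ Q.S, Q.f b ≠ 0 → Q.u b ≤ 2 * K)
    (hcR : Covers P Q D ξR) (hcL : Covers Q P D ξL) (hm : mass P * mass Q ≤ 3 * K + 15 / 4)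
    {κ la yL yR : ℝ} (hla : 0 < la) (hκ : 0 < κ)
    (hC1 : 9 / 16 * (ρ:ℝ) ^ 2 ≤ κ * (K - 4 * ρ))
    (hC2 : (3 * (3 * (K:ℝ) + 15 / 4) - 6 * la * (K - 4 * ρ)) ^ 2 * (ρ:ℝ) ^ 2
      ≤ 8 * κ * (K - 4 * ρ) * (3 * K + 15 / 4) ^ 2)
    (hC3 : κ * (3 * K + 15 / 4) ≤ 24 * la ^ 2 * ρ * (K - 4 * ρ))
    (hyL0 : 0 ≤ yL) (hyR0 : 0 ≤ yR)
    (hyL : ∀ v : ℤ, 0 ≤ v → v ≤ K → (v:ℝ) ≤ ccN P Q N v + yL)
    (hyR : ∀ v : ℤ, 0 ≤ v → v ≤ K → (v:ℝ) ≤ ccN Q P N v + yR) :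
    -(max 0 (ext ξR (D - ρ) - cc P Q 0 - nn Q (D + 1)) * dd Q P (D - ρ + 1)
        + max 0 (ext ξL (D - ρ) - cc Q P 0 - nn P (D + 1)) * dd P Q (D - ρ + 1))
      - κ * (yL + yR) - 20 * K
      ≤ deepB P Q D K (K - ρ) ρ + deepB Q P D K (K - ρ) ρ
        + la * coreN P Q K (K - ρ) ρ N := by
  have hρr : (1:ℝ) ≤ ρ := by exact_mod_cast hρ
  have h6r : 6 * (ρ:ℝ) ≤ K := by exact_mod_cast h6
  have hK : (6:ℝ) ≤ K := by linarith
  have s1 := deep_side hP hQ hD hρ h6 huP huQ hcR hm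
  have s2 := deep_side hQ hP hD hρ h6 huQ huP hcL (by rwa [mul_comm])
  have c1 := cor_mul_le hP hQ hD hρ h6 huP huQ
  have c2 := cor_mul_le hQ hP hD hρ h6 huQ huP
  have A0 := cor_nonneg hP K ρ
  have B0 := cor_nonneg hQ K ρ
  have A1 := cor_le_mass hP hρ huP
  have B1 := cor_le_mass hQ hρ huQ
  have d1 := dd_le_mass hQ hP (D - ρ + 1)
  have d2 := dd_le_mass hP hQ (D - ρ + 1)
  have d1' := dd_nonneg hQ hP (D - ρ + 1)
  have d2' := dd_nonneg hP hQ (D - ρ + 1)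
  have g := coreN_ge (T := K - ρ) hP hQ hN (K := K)
    (v := fun a => P.u a - K + (1 - ρ - N) / 2) (w := fun b => Q.u b - K + (1 - ρ - N) / 2)
    (fun a _ => by omega) (fun b _ => by omega)
  have gg1 := fun θ (h0 : (0:ℝ) ≤ θ) (h1 : θ ≤ 6 * ρ) =>
    gain_side hP hQ hρ hN0 hN h6 huP h0 h1 hyL
  have gg2 := fun θ (h0 : (0:ℝ) ≤ θ) (h1 : θ ≤ 6 * ρ) =>
    gain_side hQ hP hρ hN0 hN h6 huQ h0 h1 hyR
  set A := cor P K ρ with hA
  set B := cor Q K ρ with hB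
  set NL := dd Q P (D - ρ + 1) with hNL
  set NR := dd P Q (D - ρ + 1) with hNR
  set G1 := ∑ a ∈ P.S, P.f a * tcN P Q N (P.u a - K + (1 - ρ - N) / 2) with hG1
  set G2 := ∑ b ∈ Q.S, Q.f b * tcN Q P N (Q.u b - K + (1 - ρ - N) / 2) with hG2
  have G10 : 0 ≤ G1 := sum_nonneg fun a ha => mul_nonneg (hP.f_nonneg a ha) (tcN_nonneg hP hQ _ _)
  have G20 : 0 ≤ G2 := sum_nonneg fun b hb => mul_nonneg (hQ.f_nonneg b hb) (tcN_nonneg hQ hP _ _)
  -- the defects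
  have hdef : ∑ b ∈ Q.S, ∑ a ∈ P.S, Q.f b * P.f a *
        (max 0 (3 * ρ - (2 * (K:ℝ) - Q.u b) - 2 * (2 * (K:ℝ) - P.u a)) / 2)
      + ∑ a ∈ P.S, ∑ b ∈ Q.S, P.f a * Q.f b *
        (max 0 (3 * ρ - (2 * (K:ℝ) - P.u a) - 2 * (2 * (K:ℝ) - Q.u b)) / 2)
      ≤ 3 * ρ * (A * B) := by
    rw [sum_comm (s := Q.S) (t := P.S), ← sum_add_distrib, hA, hB]
    unfold cor
    rw [sum_mul_sum, mul_sum]
    refine sum_le_sum fun a ha => ?_
    rw [← sum_add_distrib, mul_sum]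
    refine sum_le_sum fun b hb => ?_
    have fa := hP.f_nonneg a ha
    have fb := hQ.f_nonneg b hb
    by_cases za : P.f a = 0
    · rw [za]
      simp
    by_cases zb : Q.f b = 0
    · rw [zb]
      simp
    have ua : (P.u a : ℝ) ≤ 2 * K := by exact_mod_cast huP a ha za
    have ub : (Q.u b : ℝ) ≤ 2 * K := by exact_mod_cast huQ b hb zb
    have h := defect2 (r := (ρ:ℝ)) (x := 2 * (K:ℝ) - P.u a) (y := 2 * (K:ℝ) - Q.u b)
      (by linarith) (by linarith) (by linarith)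
    have h' := mul_le_mul_of_nonneg_left h (mul_nonneg fa fb)
    unfold cph
    refine le_trans (le_of_eq ?_) (h'.trans (le_of_eq ?_))
    · ring
    · ring
  -- the product gain
  have ht0 : 0 ≤ A * B := mul_nonneg A0 B0
  have hprod : (A * B) ^ 2 ≤ NL * NR := by
    rw [sq]
    exact mul_le_mul c1 (by rwa [mul_comm B A] at c2) ht0 d1'
  have herr : 9 / 4 * (NL + NR) ≤ 20 * K := by
    have e1 : NL ≤ 3 * K + 15 / 4 := by
      rw [mul_comm] at d1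
      linarith
    linarith
  have hκl : 0 < κ / la := div_pos hκ hla
  have hκe : κ / la * la = κ := div_mul_cancel₀ _ hla.ne'
  have hfin := scalar_core (ρ := (ρ:ℝ)) (H := la * (K - 4 * ρ)) (M := 3 * K + 15 / 4)
    (κ := κ / la) (y1 := la * yL) (y2 := la * yR) (G1 := la * G1) (G2 := la * G2)
    (A := A) (B := B) (m1 := mass P) (m2 := mass Q) (by linarith)
    (mul_pos hla (by linarith)) (by linarith) hκl
    (by rw [← mul_assoc, hκe]; exact hC1)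
    (by
      have e1 : 8 * (κ / la) * (la * ((K:ℝ) - 4 * ρ)) * (3 * K + 15 / 4) ^ 2
          = 8 * (κ / la * la) * (K - 4 * ρ) * (3 * K + 15 / 4) ^ 2 := by ring
      rw [e1, hκe, ← mul_assoc 6 la]
      exact hC2)
    (by
      have e1 : κ / la * (3 * (K:ℝ) + 15 / 4) = κ * (3 * K + 15 / 4) / la := by ring
      rw [e1, div_le_iff₀ hla]
      have e2 : 24 * (ρ:ℝ) * (la * (K - 4 * ρ)) * la = 24 * la ^ 2 * ρ * (K - 4 * ρ) := by ring
      rw [e2]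
      exact hC3)
    (by positivity) (by positivity) (by positivity) (by positivity) A0 B0 A1 B1 hm
    (fun θ h0 h1 => by
      have e1 := mul_le_mul_of_nonneg_left (gg1 θ h0 h1) hla.le
      have e2 : θ * A * (la * ((K:ℝ) - 4 * ρ) - la * yL) = la * (θ * A * (K - 4 * ρ - yL)) := by
        ring
      have e3 : mass P * (la * G1) = la * (mass P * G1) := by ring
      rw [e2, e3]
      exact e1)
    (fun θ h0 h1 => by
      have e1 := mul_le_mul_of_nonneg_left (gg2 θ h0 h1) hla.le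
      have e2 : θ * B * (la * ((K:ℝ) - 4 * ρ) - la * yR) = la * (θ * B * (K - 4 * ρ - yR)) := by
        ring
      have e3 : mass Q * (la * G2) = la * (mass Q * G2) := by ring
      rw [e2, e3]
      exact e1)
  have hfin' : 3 * ρ * (A * B) - 2 * (A * B) ^ 2
      ≤ la * coreN P Q K (K - ρ) ρ N + κ * (yL + yR) := by
    have e1 : κ / la * (la * yL + la * yR) = κ / la * la * (yL + yR) := by ring
    rw [e1, hκe] at hfin
    have e2 := mul_le_mul_of_nonneg_left g hla.le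
    linarith
  nlinarith [hprod, hfin', hdef, s1, s2, herr]

/-- the conditions for `10 ρ ≤ K`, the whole core gain, `κ = 15/16 ρ²/K` -/
lemma cond10 {K ρ : ℝ} (hρ : 1 ≤ ρ) (h10 : 10 * ρ ≤ K) :
    0 < 15 / 16 * (ρ ^ 2 / K) ∧
    9 / 16 * ρ ^ 2 ≤ 15 / 16 * (ρ ^ 2 / K) * (K - 4 * ρ) ∧
    (3 * (3 * K + 15 / 4) - 6 * 1 * (K - 4 * ρ)) ^ 2 * ρ ^ 2
      ≤ 8 * (15 / 16 * (ρ ^ 2 / K)) * (K - 4 * ρ) * (3 * K + 15 / 4) ^ 2 ∧
    15 / 16 * (ρ ^ 2 / K) * (3 * K + 15 / 4) ≤ 24 * 1 ^ 2 * ρ * (K - 4 * ρ) := by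
  have hK : 10 ≤ K := by linarith
  have hK0 : 0 < K := by linarith
  have hρK : ρ / K ≤ 1 / 10 := by
    rw [div_le_div_iff₀ hK0 (by norm_num)]
    linarith
  have q0 : 0 ≤ ρ / K := by positivity
  have hκ1 : 15 / 16 * (ρ ^ 2 / K) * (K - 4 * ρ) = ρ ^ 2 * (15 / 16 * (1 - 4 * (ρ / K))) := by
    field_simp
  have e2 : 9 / 16 ≤ 15 / 16 * (1 - 4 * (ρ / K)) := by linarith
  refine ⟨by positivity, ?_, ?_, ?_⟩
  · rw [hκ1]
    have := mul_le_mul_of_nonneg_left e2 (sq_nonneg ρ)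
    linarith
  · have e1 : 8 * (15 / 16 * (ρ ^ 2 / K)) * (K - 4 * ρ) * (3 * K + 15 / 4) ^ 2
        = (15 / 16 * (ρ ^ 2 / K) * (K - 4 * ρ)) * (8 * (3 * K + 15 / 4) ^ 2) := by ring
    rw [e1, hκ1]
    have e3 : (3 * (3 * K + 15 / 4) - 6 * 1 * (K - 4 * ρ)) ^ 2
        ≤ 9 / 16 * (8 * (3 * K + 15 / 4) ^ 2) := by
      have e4 : 0 ≤ 3 * (3 * K + 15 / 4) - 6 * 1 * (K - 4 * ρ) := by linarith
      have e5 : 3 * (3 * K + 15 / 4) - 6 * 1 * (K - 4 * ρ) ≤ 21 / 10 * (3 * K + 15 / 4) := by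
        linarith
      have e6 := pow_le_pow_left₀ e4 e5 2
      have e7 : 0 ≤ (3 * K + 15 / 4) ^ 2 := sq_nonneg _
      nlinarith
    have e8 : 9 / 16 * (8 * (3 * K + 15 / 4) ^ 2)
        ≤ 15 / 16 * (1 - 4 * (ρ / K)) * (8 * (3 * K + 15 / 4) ^ 2) :=
      mul_le_mul_of_nonneg_right e2 (by positivity)
    have e9 := mul_le_mul_of_nonneg_right (e3.trans e8) (sq_nonneg ρ)
    linarith
  · have e1 : 15 / 16 * (ρ ^ 2 / K) = 15 / 16 * (ρ * (ρ / K)) := by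
      rw [sq, mul_div_assoc]
    rw [e1]
    have e2 : ρ * (ρ / K) ≤ ρ * (1 / 10) := mul_le_mul_of_nonneg_left hρK (by linarith)
    have e3 : 15 / 16 * (ρ * (ρ / K)) * (3 * K + 15 / 4)
        ≤ 15 / 16 * (ρ * (1 / 10)) * (3 * K + 15 / 4) :=
      mul_le_mul_of_nonneg_right (by linarith) (by linarith)
    have e4 : 15 / 16 * (1 / 10) * (3 * K + 15 / 4) ≤ 24 * (K - 4 * ρ) := by linarith
    have e5 := mul_le_mul_of_nonneg_left e4 (show 0 ≤ ρ by linarith)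
    linarith

/-- the conditions for `10 ρ ≤ K`, a quarter of the core gain, `κ = 8/5 ρ²/K` -/
lemma cond10q {K ρ : ℝ} (hρ : 1 ≤ ρ) (h10 : 10 * ρ ≤ K) :
    0 < 8 / 5 * (ρ ^ 2 / K) ∧
    9 / 16 * ρ ^ 2 ≤ 8 / 5 * (ρ ^ 2 / K) * (K - 4 * ρ) ∧
    (3 * (3 * K + 15 / 4) - 6 * (1 / 4) * (K - 4 * ρ)) ^ 2 * ρ ^ 2
      ≤ 8 * (8 / 5 * (ρ ^ 2 / K)) * (K - 4 * ρ) * (3 * K + 15 / 4) ^ 2 ∧
    8 / 5 * (ρ ^ 2 / K) * (3 * K + 15 / 4) ≤ 24 * (1 / 4) ^ 2 * ρ * (K - 4 * ρ) := by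
  have hK : 10 ≤ K := by linarith
  have hK0 : 0 < K := by linarith
  have hρK : ρ / K ≤ 1 / 10 := by
    rw [div_le_div_iff₀ hK0 (by norm_num)]
    linarith
  have q0 : 0 ≤ ρ / K := by positivity
  have hκ1 : 8 / 5 * (ρ ^ 2 / K) * (K - 4 * ρ) = ρ ^ 2 * (8 / 5 * (1 - 4 * (ρ / K))) := by
    field_simp
  refine ⟨by positivity, ?_, ?_, ?_⟩
  · rw [hκ1]
    have := mul_le_mul_of_nonneg_left (show 9 / 16 ≤ 8 / 5 * (1 - 4 * (ρ / K)) by linarith)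
      (sq_nonneg ρ)
    linarith
  · have e1 : 8 * (8 / 5 * (ρ ^ 2 / K)) * (K - 4 * ρ) * (3 * K + 15 / 4) ^ 2
        = (8 / 5 * (ρ ^ 2 / K) * (K - 4 * ρ)) * (8 * (3 * K + 15 / 4) ^ 2) := by ring
    rw [e1, hκ1]
    have e3 : (3 * (3 * K + 15 / 4) - 6 * (1 / 4) * (K - 4 * ρ)) ^ 2
        ≤ 24 / 25 * (8 * (3 * K + 15 / 4) ^ 2) := by
      have e4 : 0 ≤ 3 * (3 * K + 15 / 4) - 6 * (1 / 4) * (K - 4 * ρ) := by linarith
      have e5 : 3 * (3 * K + 15 / 4) - 6 * (1 / 4) * (K - 4 * ρ)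
          ≤ 277 / 100 * (3 * K + 15 / 4) := by linarith
      have e6 := pow_le_pow_left₀ e4 e5 2
      have e7 : 0 ≤ (3 * K + 15 / 4) ^ 2 := sq_nonneg _
      nlinarith
    have e8 : 24 / 25 * (8 * (3 * K + 15 / 4) ^ 2)
        ≤ 8 / 5 * (1 - 4 * (ρ / K)) * (8 * (3 * K + 15 / 4) ^ 2) :=
      mul_le_mul_of_nonneg_right (by linarith) (by positivity)
    have e9 := mul_le_mul_of_nonneg_right (e3.trans e8) (sq_nonneg ρ)
    linarith
  · have e1 : 8 / 5 * (ρ ^ 2 / K) = 8 / 5 * (ρ * (ρ / K)) := by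
      rw [sq, mul_div_assoc]
    rw [e1]
    have e2 : ρ * (ρ / K) ≤ ρ * (1 / 10) := mul_le_mul_of_nonneg_left hρK (by linarith)
    have e3 : 8 / 5 * (ρ * (ρ / K)) * (3 * K + 15 / 4)
        ≤ 8 / 5 * (ρ * (1 / 10)) * (3 * K + 15 / 4) :=
      mul_le_mul_of_nonneg_right (by linarith) (by linarith)
    have e4 : 8 / 5 * (1 / 10) * (3 * K + 15 / 4) ≤ 24 * (1 / 4) ^ 2 * (K - 4 * ρ) := by
      linarith
    have e5 := mul_le_mul_of_nonneg_left e4 (show 0 ≤ ρ by linarith)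
    linarith

/-- the conditions for `6 ρ ≤ K`, the whole core gain, `κ = 9/4 ρ²/K` -/
lemma cond6 {K ρ : ℝ} (hρ : 1 ≤ ρ) (h6 : 6 * ρ ≤ K) :
    0 < 9 / 4 * (ρ ^ 2 / K) ∧
    9 / 16 * ρ ^ 2 ≤ 9 / 4 * (ρ ^ 2 / K) * (K - 4 * ρ) ∧
    (3 * (3 * K + 15 / 4) - 6 * 1 * (K - 4 * ρ)) ^ 2 * ρ ^ 2
      ≤ 8 * (9 / 4 * (ρ ^ 2 / K)) * (K - 4 * ρ) * (3 * K + 15 / 4) ^ 2 ∧
    9 / 4 * (ρ ^ 2 / K) * (3 * K + 15 / 4) ≤ 24 * 1 ^ 2 * ρ * (K - 4 * ρ) := by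
  have hK : 6 ≤ K := by linarith
  have hK0 : 0 < K := by linarith
  have hρK : ρ / K ≤ 1 / 6 := by
    rw [div_le_div_iff₀ hK0 (by norm_num)]
    linarith
  have q0 : 0 ≤ ρ / K := by positivity
  have hκ1 : 9 / 4 * (ρ ^ 2 / K) * (K - 4 * ρ) = ρ ^ 2 * (9 / 4 * (1 - 4 * (ρ / K))) := by
    field_simp
  refine ⟨by positivity, ?_, ?_, ?_⟩
  · rw [hκ1]
    have := mul_le_mul_of_nonneg_left (show 9 / 16 ≤ 9 / 4 * (1 - 4 * (ρ / K)) by linarith)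
      (sq_nonneg ρ)
    linarith
  · have e1 : 8 * (9 / 4 * (ρ ^ 2 / K)) * (K - 4 * ρ) * (3 * K + 15 / 4) ^ 2
        = (9 / 4 * (ρ ^ 2 / K) * (K - 4 * ρ)) * (8 * (3 * K + 15 / 4) ^ 2) := by ring
    rw [e1, hκ1]
    have e3 : (3 * (3 * K + 15 / 4) - 6 * 1 * (K - 4 * ρ)) ^ 2
        ≤ 3 / 4 * (8 * (3 * K + 15 / 4) ^ 2) := by
      have e4 : 0 ≤ 3 * (3 * K + 15 / 4) - 6 * 1 * (K - 4 * ρ) := by linarith
      have e5 : 3 * (3 * K + 15 / 4) - 6 * 1 * (K - 4 * ρ)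
          ≤ 2449 / 1000 * (3 * K + 15 / 4) := by linarith
      have e6 := pow_le_pow_left₀ e4 e5 2
      have e7 : 0 ≤ (3 * K + 15 / 4) ^ 2 := sq_nonneg _
      nlinarith
    have e8 : 3 / 4 * (8 * (3 * K + 15 / 4) ^ 2)
        ≤ 9 / 4 * (1 - 4 * (ρ / K)) * (8 * (3 * K + 15 / 4) ^ 2) :=
      mul_le_mul_of_nonneg_right (by linarith) (by positivity)
    have e9 := mul_le_mul_of_nonneg_right (e3.trans e8) (sq_nonneg ρ)
    linarith
  · have e1 : 9 / 4 * (ρ ^ 2 / K) = 9 / 4 * (ρ * (ρ / K)) := by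
      rw [sq, mul_div_assoc]
    rw [e1]
    have e2 : ρ * (ρ / K) ≤ ρ * (1 / 6) := mul_le_mul_of_nonneg_left hρK (by linarith)
    have e3 : 9 / 4 * (ρ * (ρ / K)) * (3 * K + 15 / 4)
        ≤ 9 / 4 * (ρ * (1 / 6)) * (3 * K + 15 / 4) :=
      mul_le_mul_of_nonneg_right (by linarith) (by linarith)
    have e4 : 9 / 4 * (1 / 6) * (3 * K + 15 / 4) ≤ 24 * (K - 4 * ρ) := by linarith
    have e5 := mul_le_mul_of_nonneg_left e4 (show 0 ≤ ρ by linarith)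
    linarith

end

end MP61673a.W
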