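import Pool.Agent.Mu673.DecompE

/-!
First order gain of the core pairs per element near the centre (helper61): the deficit of the deep
bracket in the shifted frame is paid by the tuples `KCE` of the pairs of elements of position
`≥ -N` (core and near strays) with label `≥ 0`.
-/

namespace MP61673a.W

open Finset

noncomputable section

/-- pairs (single `b` of `Q`, doubled `a` of `P`) of positions `≥ -N` with label in `[0,v)` -/
def ccN (P Q : WS) (N v : ℤ) : ℝ :=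
  ∑ a ∈ P.S, ∑ b ∈ Q.S, if (-N ≤ P.u a ∧ -N ≤ Q.u b) ∧ 0 ≤ Q.u b + 2 * P.u a ∧
    Q.u b + 2 * P.u a < v then P.f a * Q.f b else 0

/-- triples `(b', b, a)`, label of `(b,a)` in `[0,v)`, `-N ≤ u b' ≤ u b` -/
def tcN (P Q : WS) (N v : ℤ) : ℝ :=
  ∑ a ∈ P.S, ∑ b ∈ Q.S, ∑ b' ∈ Q.S,
    if ((-N ≤ P.u a ∧ -N ≤ Q.u b) ∧ 0 ≤ Q.u b + 2 * P.u a ∧ Q.u b + 2 * P.u a < v) ∧
      -N ≤ Q.u b' ∧ Q.u b' ≤ Q.u b then P.f a * Q.f b * Q.f b' else 0

/-- the tuples `KCE` of all pairs of positions `≥ -N` with label `≥ 0`, both sides -/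
def coreN (P Q : WS) (K T ρ N : ℤ) : ℝ :=
  ∑ a ∈ P.S, ∑ b ∈ Q.S, P.f a * Q.f b *
    ((if (-N ≤ P.u a ∧ -N ≤ Q.u b) ∧ 0 ≤ P.u a + 2 * Q.u b then
        KCE P Q K T ρ (P.u a) (Q.u b) else 0)
      + (if (-N ≤ P.u a ∧ -N ≤ Q.u b) ∧ 0 ≤ Q.u b + 2 * P.u a then
        KCE Q P K T ρ (Q.u b) (P.u a) else 0))

lemma ccN_nonneg {P Q : WS} (hP : Good P) (hQ : Good Q) (N v : ℤ) : 0 ≤ ccN P Q N v :=
  sum_nonneg fun a ha => sum_nonneg fun b hb =>
    ite_nonneg' (mul_nonneg (hP.f_nonneg a ha) (hQ.f_nonneg b hb))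

lemma tcN_nonneg {P Q : WS} (hP : Good P) (hQ : Good Q) (N v : ℤ) : 0 ≤ tcN P Q N v :=
  sum_nonneg fun a ha => sum_nonneg fun b hb => sum_nonneg fun b' hb' =>
    ite_nonneg' (mul_nonneg (mul_nonneg (hP.f_nonneg a ha) (hQ.f_nonneg b hb))
      (hQ.f_nonneg b' hb'))

/-- pairs of elements, the first not deeper than the second: at least half of the square of the
mass of a window -/
lemma half_sq {Q : WS} (hQ : Good Q) (N : ℤ) (w : Q.ι → Prop) [DecidablePred w]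
    (hw : ∀ b, w b → -N ≤ Q.u b) :
    (∑ b ∈ Q.S, if w b then Q.f b else 0) ^ 2 ≤ 2 * ∑ b ∈ Q.S, ∑ b' ∈ Q.S,
      if w b ∧ -N ≤ Q.u b' ∧ Q.u b' ≤ Q.u b then Q.f b * Q.f b' else 0 := by
  have h1 : (∑ b ∈ Q.S, if w b then Q.f b else 0) ^ 2 = ∑ b ∈ Q.S, ∑ b' ∈ Q.S,
      if w b ∧ w b' then Q.f b * Q.f b' else 0 := by
    rw [sq, sum_mul_sum]
    refine sum_congr rfl fun b _ => sum_congr rfl fun b' _ => ?_
    by_cases c : w b
    · by_cases c' : w b'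
      · rw [if_pos c, if_pos c', if_pos ⟨c, c'⟩]
      · rw [if_neg c', mul_zero, if_neg (fun h => c' h.2)]
    · rw [if_neg c, zero_mul, if_neg (fun h => c h.1)]
  set F : Q.ι → Q.ι → ℝ := fun b b' =>
    if w b ∧ -N ≤ Q.u b' ∧ Q.u b' ≤ Q.u b then Q.f b * Q.f b' else 0 with hF
  have h2 : ∑ b ∈ Q.S, ∑ b' ∈ Q.S, F b b' = ∑ b ∈ Q.S, ∑ b' ∈ Q.S, F b' b := sum_comm
  have h3 : (∑ b ∈ Q.S, if w b then Q.f b else 0) ^ 2
      ≤ ∑ b ∈ Q.S, ∑ b' ∈ Q.S, (F b b' + F b' b) := by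
    rw [h1]
    refine sum_le_sum fun b hb => sum_le_sum fun b' hb' => ?_
    have e := mul_nonneg (hQ.f_nonneg b hb) (hQ.f_nonneg b' hb')
    have e' := mul_nonneg (hQ.f_nonneg b' hb') (hQ.f_nonneg b hb)
    have n1 : 0 ≤ F b b' := ite_nonneg' e
    have n2 : 0 ≤ F b' b := ite_nonneg' e'
    by_cases c : w b ∧ w b'
    · rw [if_pos c]
      rcases le_total (Q.u b') (Q.u b) with h | h
      · have : F b b' = Q.f b * Q.f b' := if_pos ⟨c.1, hw _ c.2, h⟩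
        linarith
      · have : F b' b = Q.f b' * Q.f b := if_pos ⟨c.2, hw _ c.1, h⟩
        linarith
    · rw [if_neg c]
      exact add_nonneg n1 n2
  simp only [sum_add_distrib] at h3
  rw [← h2] at h3
  linarith

/-- CAUCHY: the number of triples -/
theorem core_cauchy {P Q : WS} (hP : Good P) (hQ : Good Q) (N v : ℤ) :
    ccN P Q N v ^ 2 ≤ 2 * mass P * tcN P Q N v := by
  set W : P.ι → ℝ := fun a => ∑ b ∈ Q.S, if (-N ≤ Q.u b) ∧ 0 ≤ Q.u b + 2 * P.u a ∧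
    Q.u b + 2 * P.u a < v then Q.f b else 0 with hW
  have h1 : ccN P Q N v = ∑ a ∈ P.S, (if -N ≤ P.u a then P.f a else 0) * W a := by
    unfold ccN
    refine sum_congr rfl fun a _ => ?_
    simp only [hW]
    rw [mul_sum]
    refine sum_congr rfl fun b _ => ?_
    by_cases c : -N ≤ P.u a
    · rw [if_pos c]
      by_cases c' : (-N ≤ Q.u b) ∧ 0 ≤ Q.u b + 2 * P.u a ∧ Q.u b + 2 * P.u a < v
      · rw [if_pos c', if_pos ⟨⟨c, c'.1⟩, c'.2⟩]
      · rw [if_neg c', mul_zero, if_neg (fun h => c' ⟨h.1.2, h.2⟩)]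
    · rw [if_neg c, zero_mul, if_neg (fun h => c h.1.1)]
  have h2 : ∑ a ∈ P.S, (if -N ≤ P.u a then P.f a else 0) * W a ^ 2 ≤ 2 * tcN P Q N v := by
    unfold tcN
    rw [mul_sum]
    refine sum_le_sum fun a ha => ?_
    by_cases c : -N ≤ P.u a
    · rw [if_pos c]
      have e := mul_le_mul_of_nonneg_left (half_sq hQ N (fun b => (-N ≤ Q.u b) ∧
        0 ≤ Q.u b + 2 * P.u a ∧ Q.u b + 2 * P.u a < v) (fun b h => h.1)) (hP.f_nonneg a ha)
      refine e.trans (le_of_eq ?_)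
      rw [mul_left_comm, mul_sum]
      congr 1
      refine sum_congr rfl fun b _ => ?_
      rw [mul_sum]
      refine sum_congr rfl fun b' _ => ?_
      by_cases c' : ((-N ≤ Q.u b) ∧ 0 ≤ Q.u b + 2 * P.u a ∧ Q.u b + 2 * P.u a < v) ∧
        -N ≤ Q.u b' ∧ Q.u b' ≤ Q.u b
      · rw [if_pos c', if_pos ⟨⟨⟨c, c'.1.1⟩, c'.1.2⟩, c'.2⟩]
        ring
      · rw [if_neg c', mul_zero, if_neg (fun h => c' ⟨⟨h.1.1.2, h.1.2⟩, h.2⟩)]
    · rw [if_neg c, zero_mul]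
      refine mul_nonneg (by norm_num) (sum_nonneg fun b hb => sum_nonneg fun b' hb' =>
        ite_nonneg' (mul_nonneg (mul_nonneg (hP.f_nonneg a ha) (hQ.f_nonneg b hb))
          (hQ.f_nonneg b' hb')))
  have h3 : (∑ a ∈ P.S, (if -N ≤ P.u a then P.f a else 0) * W a) ^ 2
      ≤ (∑ a ∈ P.S, (if -N ≤ P.u a then P.f a else 0))
        * ∑ a ∈ P.S, (if -N ≤ P.u a then P.f a else 0) * W a ^ 2 := by
    refine sum_sq_le_sum_mul_sum_of_sq_le_mul P.S (fun a ha => ite_nonneg' (hP.f_nonneg a ha))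
      (fun a ha => mul_nonneg (ite_nonneg' (hP.f_nonneg a ha)) (sq_nonneg _)) ?_
    intro a _
    exact le_of_eq (by ring)
  have h4 : ∑ a ∈ P.S, (if -N ≤ P.u a then P.f a else 0) ≤ mass P := by
    unfold mass
    refine sum_le_sum fun a ha => ?_
    have := hP.f_nonneg a ha
    split_ifs
    · exact le_rfl
    · exact this
  have h5 : 0 ≤ ∑ a ∈ P.S, (if -N ≤ P.u a then P.f a else 0) :=
    sum_nonneg fun a ha => ite_nonneg' (hP.f_nonneg a ha)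
  have h6 := tcN_nonneg hP hQ N v
  rw [h1]
  calc _ ≤ _ := h3
    _ ≤ (∑ a ∈ P.S, (if -N ≤ P.u a then P.f a else 0)) * (2 * tcN P Q N v) :=
        mul_le_mul_of_nonneg_left h2 h5
    _ ≤ mass P * (2 * tcN P Q N v) := mul_le_mul_of_nonneg_right h4 (by linarith)
    _ = 2 * mass P * tcN P Q N v := by ring

/-- one side of the gain: every single element `a'` of `P` -/
lemma core_side {P Q : WS} (hP : Good P) (hQ : Good Q) {K T ρ N : ℤ} (hN : N ≤ ρ)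
    {v : P.ι → ℤ} (hv : ∀ a' ∈ P.S, 2 * v a' ≤ 2 * P.u a' - 2 * K + 1 - ρ - N) :
    ∑ a' ∈ P.S, P.f a' * tcN P Q N (v a')
      ≤ ∑ a ∈ P.S, ∑ b ∈ Q.S, P.f a * Q.f b *
        (if (-N ≤ P.u a ∧ -N ≤ Q.u b) ∧ 0 ≤ Q.u b + 2 * P.u a then
          KCE Q P K T ρ (Q.u b) (P.u a) else 0) := by
  have h1 : ∑ a' ∈ P.S, P.f a' * tcN P Q N (v a')
      = ∑ a ∈ P.S, ∑ b ∈ Q.S, ∑ b' ∈ Q.S, ∑ a' ∈ P.S,
        P.f a' * (if ((-N ≤ P.u a ∧ -N ≤ Q.u b) ∧ 0 ≤ Q.u b + 2 * P.u a ∧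
          Q.u b + 2 * P.u a < v a') ∧ -N ≤ Q.u b' ∧ Q.u b' ≤ Q.u b then
          P.f a * Q.f b * Q.f b' else 0) := by
    unfold tcN
    simp only [mul_sum]
    rw [sum_comm]
    refine sum_congr rfl fun a _ => ?_
    rw [sum_comm]
    refine sum_congr rfl fun b _ => ?_
    rw [sum_comm]
  rw [h1]
  refine sum_le_sum fun a ha => sum_le_sum fun b hb => ?_
  have fa := hP.f_nonneg a ha
  have fb := hQ.f_nonneg b hb
  by_cases c : (-N ≤ P.u a ∧ -N ≤ Q.u b) ∧ 0 ≤ Q.u b + 2 * P.u a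
  · rw [if_pos c]
    unfold KCE
    rw [mul_sum]
    refine sum_le_sum fun b' hb' => ?_
    rw [mul_sum]
    refine sum_le_sum fun a' ha' => ?_
    have fa' := hP.f_nonneg a' ha'
    have fb' := hQ.f_nonneg b' hb'
    by_cases c2 : ((-N ≤ P.u a ∧ -N ≤ Q.u b) ∧ 0 ≤ Q.u b + 2 * P.u a ∧
          Q.u b + 2 * P.u a < v a') ∧ -N ≤ Q.u b' ∧ Q.u b' ≤ Q.u b
    · have h2 := hv a' ha'
      rw [if_pos c2, if_pos (show ¬ (1 + ρ ≤ Q.u b' - 2 * Q.u b ∧ K - T ≤ P.u a' - 2 * P.u a) ∧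
        2 * K + 1 + ρ + 2 * (Q.u b + 2 * P.u a) ≤ Q.u b' + 2 * P.u a' from
          ⟨fun h => by omega, by omega⟩)]
      exact le_of_eq (by ring)
    · rw [if_neg c2, mul_zero]
      exact mul_nonneg (mul_nonneg fa fb) (ite_nonneg' (mul_nonneg fb' fa'))
  · rw [if_neg c, mul_zero]
    refine le_of_eq (sum_eq_zero fun b' _ => sum_eq_zero fun a' _ => ?_)
    rw [if_neg (fun h => c ⟨h.1.1, h.1.2.1⟩), mul_zero]

/-- GAIN OF THE PAIRS OF POSITIONS `≥ -N`, first order in the single elements near the centre -/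
theorem coreN_ge {P Q : WS} (hP : Good P) (hQ : Good Q) {K T ρ N : ℤ} (hN : N ≤ ρ)
    {v : P.ι → ℤ} {w : Q.ι → ℤ}
    (hv : ∀ a' ∈ P.S, 2 * v a' ≤ 2 * P.u a' - 2 * K + 1 - ρ - N)
    (hw : ∀ b' ∈ Q.S, 2 * w b' ≤ 2 * Q.u b' - 2 * K + 1 - ρ - N) :
    ∑ a' ∈ P.S, P.f a' * tcN P Q N (v a') + ∑ b' ∈ Q.S, Q.f b' * tcN Q P N (w b')
      ≤ coreN P Q K T ρ N := by
  have h1 := core_side (T := T) hP hQ hN hv
  have h2 := core_side (T := T) hQ hP hN hw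
  have h3 : ∑ b ∈ Q.S, ∑ a ∈ P.S, Q.f b * P.f a *
        (if (-N ≤ Q.u b ∧ -N ≤ P.u a) ∧ 0 ≤ P.u a + 2 * Q.u b then
          KCE P Q K T ρ (P.u a) (Q.u b) else 0)
      = ∑ a ∈ P.S, ∑ b ∈ Q.S, P.f a * Q.f b *
        (if (-N ≤ P.u a ∧ -N ≤ Q.u b) ∧ 0 ≤ P.u a + 2 * Q.u b then
          KCE P Q K T ρ (P.u a) (Q.u b) else 0) := by
    rw [sum_comm]
    refine sum_congr rfl fun a _ => sum_congr rfl fun b _ => ?_
    by_cases c : (-N ≤ P.u a ∧ -N ≤ Q.u b) ∧ 0 ≤ P.u a + 2 * Q.u b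
    · rw [if_pos c, if_pos ⟨⟨c.1.2, c.1.1⟩, c.2⟩]
      ring
    · rw [if_neg c, if_neg (fun h => c ⟨⟨h.1.2, h.1.1⟩, h.2⟩), mul_zero, mul_zero]
  rw [h3] at h2
  unfold coreN
  simp only [mul_add, sum_add_distrib]
  linarith

/-- the tuples of the pairs (near stray at `-t` of `Q`, element of `P`) with label `≥ 0` -/
def kcN (P Q : WS) (K T ρ t : ℤ) : ℝ :=
  ∑ a ∈ P.S, P.f a * ((if 0 ≤ P.u a + 2 * -t then KCE P Q K T ρ (P.u a) (-t) else 0)
    + (if 0 ≤ -t + 2 * P.u a then KCE Q P K T ρ (-t) (P.u a) else 0))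

lemma kcN_nonneg {P Q : WS} (hP : Good P) (hQ : Good Q) (K T ρ t : ℤ) :
    0 ≤ kcN P Q K T ρ t :=
  sum_nonneg fun a ha => mul_nonneg (hP.f_nonneg a ha)
    (add_nonneg (ite_nonneg' (KCE_nonneg hP hQ _ _ _ _ _))
      (ite_nonneg' (KCE_nonneg hQ hP _ _ _ _ _)))

/-- `coreN` = the pairs of the core + the near strays -/
theorem coreN_eq {P Q : WS} (K T ρ : ℤ) {N : ℤ} (hN : 0 ≤ N) :
    coreN P Q K T ρ N = corePE P Q K T ρ ρ
      + ∑ b ∈ Q.S, Q.f b * (if Q.u b < 0 then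
          (if -Q.u b ≤ N then kcN P Q K T ρ (-Q.u b) else 0) else 0)
      + ∑ a ∈ P.S, P.f a * (if P.u a < 0 then
          (if -P.u a ≤ N then kcN Q P K T ρ (-P.u a) else 0) else 0) := by
  have e1 : ∑ b ∈ Q.S, Q.f b * (if Q.u b < 0 then
          (if -Q.u b ≤ N then kcN P Q K T ρ (-Q.u b) else 0) else 0)
      = ∑ a ∈ P.S, ∑ b ∈ Q.S, P.f a * Q.f b * (if Q.u b < 0 ∧ -N ≤ Q.u b then
          ((if 0 ≤ P.u a + 2 * Q.u b then KCE P Q K T ρ (P.u a) (Q.u b) else 0)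
            + (if 0 ≤ Q.u b + 2 * P.u a then KCE Q P K T ρ (Q.u b) (P.u a) else 0)) else 0) := by
    rw [sum_comm]
    refine sum_congr rfl fun b _ => ?_
    unfold kcN
    by_cases c : Q.u b < 0
    · rw [if_pos c]
      by_cases c' : -Q.u b ≤ N
      · rw [if_pos c', mul_sum]
        refine sum_congr rfl fun a _ => ?_
        rw [if_pos (show Q.u b < 0 ∧ -N ≤ Q.u b from ⟨c, by omega⟩), neg_neg]
        ring
      · rw [if_neg c', mul_zero]
        refine (sum_eq_zero fun a _ => ?_).symm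
        rw [if_neg (fun h => c' (by omega)), mul_zero]
    · rw [if_neg c, mul_zero]
      refine (sum_eq_zero fun a _ => ?_).symm
      rw [if_neg (fun h => c h.1), mul_zero]
  have e2 : ∑ a ∈ P.S, P.f a * (if P.u a < 0 then
          (if -P.u a ≤ N then kcN Q P K T ρ (-P.u a) else 0) else 0)
      = ∑ a ∈ P.S, ∑ b ∈ Q.S, P.f a * Q.f b * (if P.u a < 0 ∧ -N ≤ P.u a then
          ((if 0 ≤ P.u a + 2 * Q.u b then KCE P Q K T ρ (P.u a) (Q.u b) else 0)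
            + (if 0 ≤ Q.u b + 2 * P.u a then KCE Q P K T ρ (Q.u b) (P.u a) else 0)) else 0) := by
    refine sum_congr rfl fun a _ => ?_
    unfold kcN
    by_cases c : P.u a < 0
    · rw [if_pos c]
      by_cases c' : -P.u a ≤ N
      · rw [if_pos c', mul_sum]
        refine sum_congr rfl fun b _ => ?_
        rw [if_pos (show P.u a < 0 ∧ -N ≤ P.u a from ⟨c, by omega⟩), neg_neg]
        ring
      · rw [if_neg c', mul_zero]
        refine (sum_eq_zero fun b _ => ?_).symm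
        rw [if_neg (fun h => c' (by omega)), mul_zero]
    · rw [if_neg c, mul_zero]
      refine (sum_eq_zero fun b _ => ?_).symm
      rw [if_neg (fun h => c h.1), mul_zero]
  rw [e1, e2]
  unfold coreN corePE
  simp only [← sum_add_distrib]
  refine sum_congr rfl fun a _ => sum_congr rfl fun b _ => ?_
  by_cases ca : 0 ≤ P.u a
  · by_cases cb : 0 ≤ Q.u b
    · rw [if_pos (show 0 ≤ P.u a ∧ 0 ≤ Q.u b from ⟨ca, cb⟩),
        if_neg (show ¬ (Q.u b < 0 ∧ -N ≤ Q.u b) by omega),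
        if_neg (show ¬ (P.u a < 0 ∧ -N ≤ P.u a) by omega),
        if_pos (show (-N ≤ P.u a ∧ -N ≤ Q.u b) ∧ 0 ≤ P.u a + 2 * Q.u b by omega),
        if_pos (show (-N ≤ P.u a ∧ -N ≤ Q.u b) ∧ 0 ≤ Q.u b + 2 * P.u a by omega)]
      ring
    · rw [if_neg (show ¬ (0 ≤ P.u a ∧ 0 ≤ Q.u b) from fun h => cb h.2),
        if_neg (show ¬ (P.u a < 0 ∧ -N ≤ P.u a) by omega)]
      by_cases cn : -N ≤ Q.u b
      · rw [if_pos (show Q.u b < 0 ∧ -N ≤ Q.u b by omega)]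
        by_cases c1 : 0 ≤ P.u a + 2 * Q.u b
        · rw [if_pos (show (-N ≤ P.u a ∧ -N ≤ Q.u b) ∧ 0 ≤ P.u a + 2 * Q.u b by omega),
            if_pos c1]
          by_cases c2 : 0 ≤ Q.u b + 2 * P.u a
          · rw [if_pos (show (-N ≤ P.u a ∧ -N ≤ Q.u b) ∧ 0 ≤ Q.u b + 2 * P.u a by omega),
              if_pos c2]
            ring
          · rw [if_neg (fun h => c2 h.2), if_neg c2]
            ring
        · rw [if_neg (fun h => c1 h.2), if_neg c1]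
          by_cases c2 : 0 ≤ Q.u b + 2 * P.u a
          · rw [if_pos (show (-N ≤ P.u a ∧ -N ≤ Q.u b) ∧ 0 ≤ Q.u b + 2 * P.u a by omega),
              if_pos c2]
            ring
          · rw [if_neg (fun h => c2 h.2), if_neg c2]
            ring
      · rw [if_neg (fun h => cn h.1.2), if_neg (fun h => cn h.1.2), if_neg (fun h => cn h.2)]
        ring
  · rw [if_neg (show ¬ (0 ≤ P.u a ∧ 0 ≤ Q.u b) from fun h => ca h.1)]
    by_cases cb : 0 ≤ Q.u b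
    · rw [if_neg (show ¬ (Q.u b < 0 ∧ -N ≤ Q.u b) by omega)]
      by_cases cn : -N ≤ P.u a
      · rw [if_pos (show P.u a < 0 ∧ -N ≤ P.u a by omega)]
        by_cases c1 : 0 ≤ P.u a + 2 * Q.u b
        · rw [if_pos (show (-N ≤ P.u a ∧ -N ≤ Q.u b) ∧ 0 ≤ P.u a + 2 * Q.u b by omega),
            if_pos c1]
          by_cases c2 : 0 ≤ Q.u b + 2 * P.u a
          · rw [if_pos (show (-N ≤ P.u a ∧ -N ≤ Q.u b) ∧ 0 ≤ Q.u b + 2 * P.u a by omega),
              if_pos c2]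
            ring
          · rw [if_neg (fun h => c2 h.2), if_neg c2]
            ring
        · rw [if_neg (fun h => c1 h.2), if_neg c1]
          by_cases c2 : 0 ≤ Q.u b + 2 * P.u a
          · rw [if_pos (show (-N ≤ P.u a ∧ -N ≤ Q.u b) ∧ 0 ≤ Q.u b + 2 * P.u a by omega),
              if_pos c2]
            ring
          · rw [if_neg (fun h => c2 h.2), if_neg c2]
            ring
      · rw [if_neg (fun h => cn h.1.1), if_neg (fun h => cn h.1.1), if_neg (fun h => cn h.2)]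
        ring
    · have c1 : ¬ 0 ≤ P.u a + 2 * Q.u b := by omega
      have c2 : ¬ 0 ≤ Q.u b + 2 * P.u a := by omega
      simp only [if_neg c1, if_neg c2, if_neg (fun h : (-N ≤ P.u a ∧ -N ≤ Q.u b) ∧
        0 ≤ P.u a + 2 * Q.u b => c1 h.2), if_neg (fun h : (-N ≤ P.u a ∧ -N ≤ Q.u b) ∧
        0 ≤ Q.u b + 2 * P.u a => c2 h.2), add_zero, ite_self, mul_zero]

end

end MP61673a.W
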