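import Pool.Agent.Mu673.NetsE

/-!
NEAR STRAYS in the shifted frame: a stray of depth `t ≤ ρ - 1 - E/2` costs nothing. All its
midpoints and `R3` labels have price `0`, and every entry of a useless pair is nonnegative as soon
as the price at the label `0` is nonnegative with the threshold moved by `6 t`.
-/

namespace MP61673a.Fin

open Finset MP61673a.W MP61673a.LiftW MP61673a.Mids
open MP61673a.Lift hiding PP QQ

noncomputable section

lemma own_nonneg {P Q : WS} (hP : Good P) (hQ : Good Q) {T : ℤ} (hT : -1 ≤ T) (D K ρ V t : ℤ) :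
    0 ≤ own P Q D K T ρ V t := by
  unfold own
  refine ite_nonneg' (sum_nonneg fun q hq => ?_)
  exact mul_nonneg (hQ.f_nonneg q hq) (ow_nonneg hP hQ hT _ _ _ _)

/-- an entry of a pair of doubled positions is nonnegative if the price at `0`, threshold moved
by `2 m`, is nonnegative (`-m ≤` label) -/
lemma hhE_ge {P Q : WS} (hP : Good P) (hQ : Good Q) {K T ρ V x y m : ℤ} {C : ℝ} (hC : 0 ≤ C)
    (hx : -V ≤ x) (hy : -V ≤ y) (hm : -m ≤ x + 2 * y)
    (h0 : dd P Q (2 * K + 1 + ρ - 2 * m) ≤ T + 1 + nn P (1 + ρ) + C) :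
    -C ≤ hhE P Q K T ρ V x y := by
  unfold hhE
  have h1 := KKE_le_dd hP hQ K T ρ x y
  have h2 := dd_anti hP hQ (show 2 * K + 1 + ρ - 2 * m ≤ 2 * K + 1 + ρ + 2 * (x + 2 * y) by omega)
  have h3 := KCE_nonneg hP hQ K T ρ x y
  rw [if_pos (⟨hx, hy⟩ : -V ≤ x ∧ -V ≤ y), if_pos (⟨hx, hy⟩ : -V ≤ x ∧ -V ≤ y)]
  split_ifs <;> linarith

/-- the midpoints of a near stray are free -/
lemma mid_near {P Q : WS} {D K ρ E τ : ℤ} (hD : D = 4 * K + 1)
    (uP : ∀ a ∈ P.S, P.f a ≠ 0 → P.u a ≤ 2 * K) (hτ : 0 ≤ τ) (hτρ : 2 * τ + E ≤ 2 * ρ - 1)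
    (_hE : 0 ≤ E) (hK : 0 ≤ K) :
    mid P Q D E (cprE P D K (K - ρ) ρ) deeper τ = 0 := by
  have hz : ∀ j : ℤ, j ≤ ρ - 1 → cp (cprE P D K (K - ρ) ρ) j = 0 := by
    intro j hj
    unfold cp
    split_ifs
    · exact cprE_zero P (by omega) (by omega) (by omega)
    · rfl
  unfold mid
  rw [sum_eq_zero, sum_eq_zero, add_zero]
  · intro a ha
    by_cases h0 : P.f a = 0
    · rw [h0, zero_mul]
    · have := uP a ha h0
      rw [hz _ (by omega), mul_zero]
  · intro q hq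
    by_cases c : Q.u q < 0
    · rw [if_pos c]
      by_cases c2 : τ < -Q.u q
      · unfold deeper
        rw [if_neg (by omega), if_pos c2, zero_mul, mul_zero]
      · rw [hz _ (by omega), mul_zero, mul_zero]
    · rw [hz _ (by omega), mul_zero, mul_zero]

/-- the `R3` labels of a near stray are free -/
lemma exB_near {P Q : WS} (hP : Good P) (hQ : Good Q) {D K ρ τ : ℤ} (hD : D = 4 * K + 1)
    (uQ : ∀ b ∈ Q.S, Q.f b ≠ 0 → Q.u b ≤ 2 * K) (hτρ : τ ≤ ρ) :
    exB Q D (priceE Q P D K (K - ρ) ρ) τ ≤ 0 := by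
  unfold exB
  refine sum_nonpos fun q hq => ?_
  by_cases h0 : Q.f q = 0
  · rw [h0, zero_mul]
  · have h1 := uQ q hq h0
    refine mul_nonpos_of_nonneg_of_nonpos (hQ.f_nonneg q hq) ?_
    split_ifs
    · have h2 := priceE_le_cpriceE hQ hP D K (K - ρ) ρ (2 * D - 2 * Q.u q - τ)
      have h3 := cprE_zero Q (D := D) (K := K) (T := K - ρ) (ρ := ρ) (j := 2 * Q.u q + τ - D)
        (by omega) (by omega) (by omega)
      unfold cprE at h3
      rw [show D - (2 * Q.u q + τ - D) = 2 * D - 2 * Q.u q - τ by ring] at h3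
      linarith
    · exact le_rfl

/-- NEAR STRAYS ARE FREE in the shifted frame, up to the error `C` of the two price bounds -/
theorem near_netE {P Q : WS} (hP : Good P) (hQ : Good Q) {D K ρ V E lo τ : ℤ} {C : ℝ}
    (hC : 0 ≤ C) (hD : D = 4 * K + 1) (hK : 1 ≤ K) (hρK : ρ ≤ K)
    (uP : ∀ a ∈ P.S, P.f a ≠ 0 → P.u a ≤ 2 * K)
    (uQ : ∀ b ∈ Q.S, Q.f b ≠ 0 → Q.u b ≤ 2 * K)
    (hE : 0 ≤ E) (hlo : 0 ≤ lo) (hτ : 0 ≤ τ) (hτV : τ ≤ V) (hτρ : 2 * τ + E ≤ 2 * ρ - 1)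
    (hR : dd P Q (2 * K + 1 + ρ - 6 * τ) ≤ K - ρ + 1 + nn P (1 + ρ) + C)
    (hL : dd Q P (2 * K + 1 + ρ - 6 * τ) ≤ K - ρ + 1 + nn Q (1 + ρ) + C) :
    -(2 * C * mass P) ≤ netE P Q deeper D K (K - ρ) ρ ρ V E lo τ := by
  unfold netE grossE gainE midE
  have m0 := mid_near (P := P) (Q := Q) (ρ := ρ) (τ := τ) (E := 0) hD uP hτ (by omega) le_rfl
    (by omega)
  have m1 := mid_near (P := P) (Q := Q) (ρ := ρ) (τ := τ) (E := E) hD uP hτ hτρ hE (by omega)
  have b1 := exB_near hP hQ (ρ := ρ) (τ := τ) hD uQ (by omega)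
  have a1 : exA Q D V (priceE P Q D K (K - ρ) ρ) τ = 0 := by
    unfold exA
    rw [if_neg (by omega)]
  have o1 := own_nonneg hP hQ (show -1 ≤ K - ρ by omega) D K ρ V τ
  have d1 := deepNetE_nonneg hP hQ D K (K - ρ) ρ V τ
  have p1 : -(2 * C * mass P) ≤ pairNetE P Q K (K - ρ) ρ ρ V lo τ := by
    unfold pairNetE mass
    rw [mul_sum, ← sum_neg_distrib]
    refine sum_le_sum fun a ha => ?_
    have f0 := hP.f_nonneg a ha
    by_cases c : lo - τ ≤ P.u a
    · rw [if_pos c]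
      have e1 := hhE_ge hP hQ (K := K) (T := K - ρ) (ρ := ρ) (V := V) (x := P.u a) (y := -τ)
        (m := 3 * τ) hC (by omega) (by omega) (by omega)
        (by rw [show 2 * K + 1 + ρ - 2 * (3 * τ) = 2 * K + 1 + ρ - 6 * τ by ring]
            push_cast
            exact hR)
      have e2 := hhE_ge hQ hP (K := K) (T := K - ρ) (ρ := ρ) (V := V) (x := -τ) (y := P.u a)
        (m := 3 * τ) hC (by omega) (by omega) (by omega)
        (by rw [show 2 * K + 1 + ρ - 2 * (3 * τ) = 2 * K + 1 + ρ - 6 * τ by ring]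
            push_cast
            exact hL)
      have e3 := mul_le_mul_of_nonneg_left (add_le_add e1 e2) f0
      linarith
    · rw [if_neg c]
      have : 0 ≤ 2 * C * P.f a := by positivity
      linarith
  rw [m0, m1, a1]
  linarith

end

end MP61673a.Fin
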