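import Pool.Agent.Mu673.CoreDeep
import Pool.Agent.Mu673.Env
import Pool.Agent.Mu673.NearE

/-!
CORE-DEEP with `Env` (helper61): the far labels (`s < K`) covered by pairs with a stray deeper than
`N`, by two strays and a centre, and by midpoints, charged to the strays; near strays (`≤ N`) keep
their tuples `KCE`.
-/

namespace MP61673a.Fin

open Finset MP61673a.W MP61673a.LiftW MP61673a.Mids
open MP61673a.Lift hiding PP QQ

noncomputable section

/-- labels `< K` with the stray at depth `t` as single element -/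
def farS (P : WS) (K t : ℤ) : ℝ :=
  ∑ a ∈ P.S, P.f a * (if t ≤ 2 * P.u a ∧ 2 * P.u a < t + K then 1 else 0)

/-- labels `< K` with the stray at depth `t` as doubled element -/
def farD (P : WS) (K t : ℤ) : ℝ :=
  ∑ a ∈ P.S, P.f a * (if 2 * t ≤ P.u a ∧ P.u a < 2 * t + K then 1 else 0)

/-- labels `< K` with a centre at depth `t`, both elements in `Q` -/
def farQ (Q : WS) (D K t : ℤ) : ℝ :=
  ∑ q ∈ Q.S, Q.f q * (if D + 1 - K ≤ Q.u q + 2 * t then 1 else 0)

/-- all labels `< K` charged to a stray at depth `t` of `Q` (both sides) -/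
def farC (P Q : WS) (ω : ℤ → ℤ → ℝ) (D K E N t : ℤ) : ℝ :=
  (if N < t then farS P K t + farD P K t else 0) + farQ Q D K t
    + midg P Q D (fun X => if 2 * (D - K) - E < X ∧ X ≤ 2 * (D - 0) + E ∧ 0 < X + E
        then 1 else 0) ω t
    + ex2g Q D (fun s => if 0 ≤ s ∧ s < K then 1 else 0) t

lemma farS_nonneg {P : WS} (hP : Good P) (K t : ℤ) : 0 ≤ farS P K t :=
  sum_nonneg fun a ha => mul_nonneg (hP.f_nonneg a ha) (by split_ifs <;> norm_num)

lemma farD_nonneg {P : WS} (hP : Good P) (K t : ℤ) : 0 ≤ farD P K t :=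
  sum_nonneg fun a ha => mul_nonneg (hP.f_nonneg a ha) (by split_ifs <;> norm_num)

lemma farQ_nonneg {P : WS} (hP : Good P) (D K t : ℤ) : 0 ≤ farQ P D K t :=
  sum_nonneg fun a ha => mul_nonneg (hP.f_nonneg a ha) (by split_ifs <;> norm_num)

lemma farM_nonneg {P Q : WS} (hP : Good P) (hQ : Good Q) {ω : ℤ → ℤ → ℝ}
    (h0 : ∀ x y, 0 ≤ ω x y) (D : ℤ) {G : ℤ → ℝ} (hG : ∀ x, 0 ≤ G x) (t : ℤ) :
    0 ≤ midg P Q D G ω t := by
  unfold midg
  refine add_nonneg (sum_nonneg fun q hq => mul_nonneg (hQ.f_nonneg q hq) (mul_nonneg ?_ (hG _)))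
    (sum_nonneg fun a ha => mul_nonneg (hP.f_nonneg a ha) (hG _))
  split_ifs
  · exact h0 _ _
  · norm_num

lemma farE_nonneg {Q : WS} (hQ : Good Q) (D : ℤ) {g : ℤ → ℝ} (hg : ∀ x, 0 ≤ g x) (t : ℤ) :
    0 ≤ ex2g Q D g t := by
  unfold ex2g gdep
  refine sum_nonneg fun q hq => mul_nonneg (hQ.f_nonneg q hq) ?_
  split_ifs
  · exact hg _
  · exact le_rfl

/-- COVERAGE OF THE FAR LABELS by pairs of positions `≥ -N` -/
lemma cover_far {P Q : WS} (hP : Good P) (hQ : Good Q) {D K N : ℤ} {ξ : ℤ → ℝ}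
    (hN : 0 ≤ N) (hc : Covers Q P D ξ) (hξ : ∀ s, 0 ≤ ξ s) (hKD : K ≤ D) {v : ℤ} (hv0 : 0 ≤ v)
    (hvK : v ≤ K) :
    (v:ℝ) ≤ ccN P Q N v + (strayC Q (fun τ => if N < τ then farS P K τ else 0)
      + strayC P (fun τ => if N < τ then farD Q K τ else 0) + nn P (D + 1 - K) + ext ξ K) := by
  have w := wx_mono hc le_rfl hv0 (hvK.trans hKD)
  rw [wx_zero] at w
  unfold wx ww at w
  have n1 := nn_anti hP (show D + 1 - K ≤ D + 1 - v by omega)
  have n2 := nn_nonneg hP (D + 1)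
  have n3 : ext ξ v ≤ ext ξ K := by
    unfold W.ext
    refine sum_le_sum_of_subset_of_nonneg ?_ fun s _ _ => hξ s
    intro s hs
    rw [mem_Ico] at hs ⊢
    omega
  have h1 : strayC Q (fun τ => if N < τ then farS P K τ else 0)
      = ∑ b ∈ Q.S, ∑ a ∈ P.S, (if Q.u b < 0 ∧ N < -Q.u b ∧ -Q.u b ≤ 2 * P.u a ∧
        2 * P.u a < -Q.u b + K then Q.f b * P.f a else 0) := by
    unfold strayC farS
    refine sum_congr rfl fun b _ => ?_
    beta_reduce
    by_cases c : Q.u b < 0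
    · rw [if_pos c]
      by_cases c2 : N < -Q.u b
      · rw [if_pos c2, mul_sum]
        refine sum_congr rfl fun a _ => ?_
        by_cases c3 : -Q.u b ≤ 2 * P.u a ∧ 2 * P.u a < -Q.u b + K
        · rw [if_pos c3, if_pos ⟨c, c2, c3⟩, mul_one]
        · rw [if_neg c3, if_neg (fun h => c3 h.2.2), mul_zero, mul_zero]
      · rw [if_neg c2, mul_zero]
        exact (sum_eq_zero fun a _ => if_neg (fun h => c2 h.2.1)).symm
    · rw [if_neg c, mul_zero]
      exact (sum_eq_zero fun a _ => if_neg (fun h => c h.1)).symm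
  have h2 : strayC P (fun τ => if N < τ then farD Q K τ else 0)
      = ∑ b ∈ Q.S, ∑ a ∈ P.S, (if P.u a < 0 ∧ N < -P.u a ∧ 2 * -P.u a ≤ Q.u b ∧
        Q.u b < 2 * -P.u a + K then Q.f b * P.f a else 0) := by
    rw [sum_comm]
    unfold strayC farD
    refine sum_congr rfl fun a _ => ?_
    beta_reduce
    by_cases c : P.u a < 0
    · rw [if_pos c]
      by_cases c2 : N < -P.u a
      · rw [if_pos c2, mul_sum]
        refine sum_congr rfl fun b _ => ?_
        by_cases c3 : 2 * -P.u a ≤ Q.u b ∧ Q.u b < 2 * -P.u a + K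
        · rw [if_pos c3, if_pos ⟨c, c2, c3⟩]
          ring
        · rw [if_neg c3, if_neg (fun h => c3 h.2.2), mul_zero, mul_zero]
      · rw [if_neg c2, mul_zero]
        exact (sum_eq_zero fun a _ => if_neg (fun h => c2 h.2.1)).symm
    · rw [if_neg c, mul_zero]
      exact (sum_eq_zero fun a _ => if_neg (fun h => c h.1)).symm
  have h3 : ccN P Q N v = ∑ b ∈ Q.S, ∑ a ∈ P.S, (if (-N ≤ P.u a ∧ -N ≤ Q.u b) ∧
      0 ≤ Q.u b + 2 * P.u a ∧ Q.u b + 2 * P.u a < v then P.f a * Q.f b else 0) := by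
    unfold ccN
    rw [sum_comm]
  have h4 : cc Q P v ≤ cc Q P 0 + (ccN P Q N v
      + (strayC Q (fun τ => if N < τ then farS P K τ else 0)
      + strayC P (fun τ => if N < τ then farD Q K τ else 0))) := by
    rw [h1, h2, h3]
    unfold cc
    simp only [← sum_add_distrib]
    refine sum_le_sum fun b hb => sum_le_sum fun a ha => ?_
    have e0 := mul_nonneg (hQ.f_nonneg b hb) (hP.f_nonneg a ha)
    have e1 := mul_nonneg (hP.f_nonneg a ha) (hQ.f_nonneg b hb)
    have z1 : 0 ≤ (if (-N ≤ P.u a ∧ -N ≤ Q.u b) ∧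
      0 ≤ Q.u b + 2 * P.u a ∧ Q.u b + 2 * P.u a < v then P.f a * Q.f b else 0) := ite_nonneg' e1
    have z2 : 0 ≤ (if Q.u b < 0 ∧ N < -Q.u b ∧ -Q.u b ≤ 2 * P.u a ∧
        2 * P.u a < -Q.u b + K then Q.f b * P.f a else 0) := ite_nonneg' e0
    have z3 : 0 ≤ (if P.u a < 0 ∧ N < -P.u a ∧ 2 * -P.u a ≤ Q.u b ∧
        Q.u b < 2 * -P.u a + K then Q.f b * P.f a else 0) := ite_nonneg' e0
    by_cases c : Q.u b + 2 * P.u a < v
    · rw [if_pos c]
      by_cases c0 : Q.u b + 2 * P.u a < 0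
      · rw [if_pos c0]
        linarith
      · rw [if_neg c0, zero_add]
        by_cases cP : -N ≤ P.u a
        · by_cases cQ : -N ≤ Q.u b
          · rw [if_pos (show (-N ≤ P.u a ∧ -N ≤ Q.u b) ∧
              0 ≤ Q.u b + 2 * P.u a ∧ Q.u b + 2 * P.u a < v from ⟨⟨cP, cQ⟩, by omega, c⟩),
              mul_comm (P.f a)]
            linarith
          · rw [if_pos (show Q.u b < 0 ∧ N < -Q.u b ∧ -Q.u b ≤ 2 * P.u a ∧
              2 * P.u a < -Q.u b + K by omega)]
            linarith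
        · rw [if_pos (show P.u a < 0 ∧ N < -P.u a ∧ 2 * -P.u a ≤ Q.u b ∧
            Q.u b < 2 * -P.u a + K by omega)]
          linarith
    · rw [if_neg c]
      have : 0 ≤ (if Q.u b + 2 * P.u a < 0 then Q.f b * P.f a else 0) := ite_nonneg' e0
      linarith
  linarith

/-- centres without external role -/
lemma nn_farC {P : WS} {D K V : ℤ} (hP : Good P) (hD : D = 4 * K + 1) (hK : 1 ≤ K)
    (dP : Dbl P V) (uP : ∀ a ∈ P.S, P.f a ≠ 0 → P.u a ≤ 2 * K) :
    nn P (D + 1 - K) ≤ strayC P (fun τ => if τ ≤ V then farQ P D K τ else 0) := by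
  rw [nn_eq_sum]
  unfold strayC
  refine sum_le_sum fun p hp => ?_
  beta_reduce
  rw [dP p hp]
  by_cases c : P.u p < 0
  · rw [if_pos c]
    by_cases c2 : -V ≤ P.u p
    · rw [if_pos c2, if_pos (show -P.u p ≤ V by omega)]
      refine mul_le_mul_of_nonneg_left (le_of_eq ?_) (hP.f_nonneg p hp)
      unfold ge farQ
      refine sum_congr rfl fun a _ => ?_
      by_cases c3 : D + 1 - K + 2 * P.u p ≤ P.u a
      · rw [if_pos c3, if_pos (by omega), mul_one]
      · rw [if_neg c3, if_neg (by omega), mul_zero]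
    · rw [if_neg c2, if_neg (by omega), zero_mul, mul_zero]
  · rw [if_neg c, mul_zero]
    refine le_of_eq ?_
    have : ge P (D + 1 - K + 2 * P.u p) = 0 := by
      unfold ge
      refine sum_eq_zero fun a ha => ?_
      by_cases h0 : P.f a = 0
      · rw [h0, ite_self]
      · have := uP a ha h0
        rw [if_neg]
        omega
    rw [this, mul_zero]

/-- the external labels `< K` -/
lemma ext_far {P Q : WS} {D K V E M : ℤ} {ξR ξL : ℤ → ℝ} (h : Env P Q D K V E M ξR ξL)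
    {ω : ℤ → ℤ → ℝ} (hω : ∀ x y, ω x y + ω y x = 1) :
    W.ext ξR K + nn Q (D + 1 - K)
      ≤ strayC Q (fun τ => farQ Q D K τ + midg P Q D (fun X => if 2 * (D - K) - E < X ∧
          X ≤ 2 * (D - 0) + E ∧ 0 < X + E then 1 else 0) ω τ)
        + strayC P (fun τ => ex2g P D (fun s => if 0 ≤ s ∧ s < K then 1 else 0) τ) := by
  have h1 := h.extR hω 0 K
  have h2 := nn_farC h.gQ h.hD h.hK h.dQ h.uQ
  have h3 : W.ext ξR K ≤ ∑ s ∈ Ico 0 D, ξR s * (if 0 ≤ s ∧ s < K then 1 else 0) := by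
    unfold W.ext
    rw [← sum_filter_add_sum_filter_not (Ico 0 D) (fun s => s < K)]
    have e1 : ∑ s ∈ Ico 0 D with s < K, ξR s * (if 0 ≤ s ∧ s < K then 1 else 0)
        = ∑ s ∈ Ico 0 K, ξR s := by
      have e2 : (Ico 0 D).filter (fun s => s < K) = Ico 0 K := by
        ext s
        simp only [mem_filter, mem_Ico]
        have := h.hD
        have := h.hK
        omega
      rw [e2]
      refine sum_congr rfl fun s hs => ?_
      rw [mem_Ico] at hs
      rw [if_pos hs, mul_one]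
    rw [e1]
    have : 0 ≤ ∑ s ∈ Ico 0 D with ¬ s < K, ξR s * (if 0 ≤ s ∧ s < K then 1 else 0) :=
      sum_nonneg fun s _ => mul_nonneg (h.nR s) (by split_ifs <;> norm_num)
    linarith
  have h4 : strayC Q (fun τ => ex1g Q D V (fun s => if 0 ≤ s ∧ s < K then 1 else 0) τ
          + midg P Q D (fun X => if 2 * (D - K) - E < X ∧ X ≤ 2 * (D - 0) + E ∧ 0 < X + E
              then 1 else 0) ω τ) + strayC Q (fun τ => if τ ≤ V then farQ Q D K τ else 0)
      ≤ strayC Q (fun τ => farQ Q D K τ + midg P Q D (fun X => if 2 * (D - K) - E < X ∧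
          X ≤ 2 * (D - 0) + E ∧ 0 < X + E then 1 else 0) ω τ) := by
    rw [← strayC_add']
    refine strayC_mono h.gQ fun b hb _ _ => ?_
    have n0 := farQ_nonneg h.gQ D K (-Q.u b)
    by_cases c : V < -Q.u b
    · rw [if_neg (by omega : ¬ -Q.u b ≤ V)]
      have e1 : ex1g Q D V (fun s => if 0 ≤ s ∧ s < K then 1 else 0) (-Q.u b)
          ≤ farQ Q D K (-Q.u b) := by
        unfold ex1g farQ
        rw [if_pos c]
        refine sum_le_sum fun q hq => mul_le_mul_of_nonneg_left ?_ (h.gQ.f_nonneg q hq)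
        unfold gdep
        by_cases c1 : 1 ≤ Q.u q + 2 * -Q.u b ∧ Q.u q + 2 * -Q.u b ≤ D
        · rw [if_pos c1]
          beta_reduce
          by_cases c2 : 0 ≤ D - (Q.u q + 2 * -Q.u b) ∧ D - (Q.u q + 2 * -Q.u b) < K
          · rw [if_pos c2, if_pos (by omega)]
          · rw [if_neg c2]
            split_ifs <;> norm_num
        · rw [if_neg c1]
          split_ifs <;> norm_num
      linarith
    · rw [if_pos (by omega : -Q.u b ≤ V)]
      have e1 : ex1g Q D V (fun s => if 0 ≤ s ∧ s < K then 1 else 0) (-Q.u b) = 0 := by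
        unfold ex1g
        rw [if_neg c]
      linarith
  linarith

/-- NEAR STRAYS keep the tuples of their pairs with label `≥ 0` (after helper8) -/
theorem near_netE_kc {P Q : WS} (hP : Good P) (hQ : Good Q) {D K ρ V E lo τ : ℤ} {C : ℝ}
    (hC : 0 ≤ C) (hD : D = 4 * K + 1) (hK : 1 ≤ K) (hρK : ρ ≤ K)
    (uP : ∀ a ∈ P.S, P.f a ≠ 0 → P.u a ≤ 2 * K)
    (uQ : ∀ b ∈ Q.S, Q.f b ≠ 0 → Q.u b ≤ 2 * K)
    (hE : 0 ≤ E) (hlo : 0 ≤ lo) (hlo1 : lo ≤ 1) (hτ : 1 ≤ τ) (hτV : τ ≤ V)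
    (hτρ : 2 * τ + E ≤ 2 * ρ - 1)
    (hR : dd P Q (2 * K + 1 + ρ - 6 * τ) ≤ K - ρ + 1 + nn P (1 + ρ) + C)
    (hL : dd Q P (2 * K + 1 + ρ - 6 * τ) ≤ K - ρ + 1 + nn Q (1 + ρ) + C) :
    kcN P Q K (K - ρ) ρ τ - 2 * C * mass P
      ≤ netE P Q deeper D K (K - ρ) ρ ρ V E lo τ := by
  unfold netE grossE gainE midE
  have m0 := mid_near (P := P) (Q := Q) (ρ := ρ) (τ := τ) (E := 0) hD uP (by omega) (by omega)
    le_rfl (by omega)
  have m1 := mid_near (P := P) (Q := Q) (ρ := ρ) (τ := τ) (E := E) hD uP (by omega) hτρ hE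
    (by omega)
  have b1 := exB_near hP hQ (ρ := ρ) (τ := τ) hD uQ (by omega)
  have a1 : exA Q D V (priceE P Q D K (K - ρ) ρ) τ = 0 := by
    unfold exA
    rw [if_neg (by omega)]
  have o1 := own_nonneg hP hQ (show -1 ≤ K - ρ by omega) D K ρ V τ
  have d1 := deepNetE_nonneg hP hQ D K (K - ρ) ρ V τ
  have p1 : kcN P Q K (K - ρ) ρ τ - 2 * C * mass P ≤ pairNetE P Q K (K - ρ) ρ ρ V lo τ := by
    unfold pairNetE mass kcN
    rw [mul_sum, ← sum_sub_distrib]
    refine sum_le_sum fun a ha => ?_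
    have f0 := hP.f_nonneg a ha
    by_cases c : lo - τ ≤ P.u a
    · rw [if_pos c]
      have e1 := hhE_ge hP hQ (K := K) (T := K - ρ) (ρ := ρ) (V := V) (x := P.u a) (y := -τ)
        (m := 3 * τ) hC (by omega) (by omega) (by omega)
        (by rw [show 2 * K + 1 + ρ - 2 * (3 * τ) = 2 * K + 1 + ρ - 6 * τ by ring]
            push_cast
            exact hR)
      have e2 := hhE_ge hQ hP (K := K) (T := K - ρ) (ρ := ρ) (V := V) (x := -τ) (y := P.u a)
        (m := 3 * τ) hC (by omega) (by omega) (by omega)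
        (by rw [show 2 * K + 1 + ρ - 2 * (3 * τ) = 2 * K + 1 + ρ - 6 * τ by ring]
            push_cast
            exact hL)
      have e3 : (if 0 ≤ P.u a + 2 * -τ then KCE P Q K (K - ρ) ρ (P.u a) (-τ) else 0) - C
          ≤ hhE P Q K (K - ρ) ρ V (P.u a) (-τ) := by
        by_cases g : 0 ≤ P.u a + 2 * -τ
        · rw [if_pos g]
          unfold hhE
          rw [if_neg (by omega), if_pos (by omega)]
          linarith
        · rw [if_neg g]
          linarith
      have e4 : (if 0 ≤ -τ + 2 * P.u a then KCE Q P K (K - ρ) ρ (-τ) (P.u a) else 0) - C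
          ≤ hhE Q P K (K - ρ) ρ V (-τ) (P.u a) := by
        by_cases g : 0 ≤ -τ + 2 * P.u a
        · rw [if_pos g]
          unfold hhE
          rw [if_neg (by omega), if_pos (by omega)]
          linarith
        · rw [if_neg g]
          linarith
      have e5 := mul_le_mul_of_nonneg_left (add_le_add e3 e4) f0
      linarith
    · rw [if_neg c, if_neg (by omega), if_neg (by omega)]
      have : 0 ≤ 2 * C * P.f a := by positivity
      linarith
  rw [m0, m1, a1]
  linarith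

/-- no midpoints and no `R3` labels at depth `≤ 2 K - E - 10` -/
lemma farC_eq {P Q : WS} {D K V E M : ℤ} {ξR ξL : ℤ → ℝ} (h : Env P Q D K V E M ξR ξL)
    (ω : ℤ → ℤ → ℝ) {N τ : ℤ} (hτ : τ + E + 10 ≤ 2 * K) :
    farC P Q ω D K E N τ
      = (if N < τ then farS P K τ + farD P K τ else 0) + farQ Q D K τ := by
  have hD := h.hD
  have hK := h.hK
  have hE := h.hE
  unfold farC
  have h2 : midg P Q D (fun X => if 2 * (D - K) - E < X ∧ X ≤ 2 * (D - 0) + E ∧ 0 < X + E
        then 1 else 0) ω τ = 0 := by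
    unfold midg
    rw [sum_eq_zero, sum_eq_zero, add_zero]
    · intro a ha
      by_cases h0 : P.f a = 0
      · rw [h0, zero_mul]
      · have := h.uP a ha h0
        beta_reduce
        rw [if_neg (by omega), mul_zero]
    · intro q hq
      by_cases h0 : Q.f q = 0
      · rw [h0, zero_mul]
      · have := h.uQ q hq h0
        have := h.lQ q hq h0
        beta_reduce
        rw [if_neg (show ¬ (2 * (D - K) - E < τ - Q.u q ∧ τ - Q.u q ≤ 2 * (D - 0) + E ∧
          0 < τ - Q.u q + E) by omega), mul_zero, mul_zero]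
  have h3 : ex2g Q D (fun s => if 0 ≤ s ∧ s < K then 1 else 0) τ = 0 := by
    unfold ex2g gdep
    refine sum_eq_zero fun q hq => ?_
    by_cases h0 : Q.f q = 0
    · rw [h0, zero_mul]
    · have := h.uQ q hq h0
      by_cases c : 1 ≤ 2 * Q.u q + τ - D ∧ 2 * Q.u q + τ - D ≤ D
      · rw [if_pos c]
        beta_reduce
        rw [if_neg (by omega), mul_zero]
      · rw [if_neg c, mul_zero]
  rw [h2, h3]
  ring

lemma farQ_eq {P Q : WS} {D K V E M : ℤ} {ξR ξL : ℤ → ℝ} (h : Env P Q D K V E M ξR ξL)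
    {τ : ℤ} (hτ : 2 * τ ≤ K + 1) : farQ Q D K τ = 0 := by
  have hD := h.hD
  unfold farQ
  refine sum_eq_zero fun q hq => ?_
  by_cases h0 : Q.f q = 0
  · rw [h0, zero_mul]
  · have := h.uQ q hq h0
    rw [if_neg (by omega), mul_zero]

/-- near strays are not charged -/
lemma farC_near {P Q : WS} {D K V E M : ℤ} {ξR ξL : ℤ → ℝ} (h : Env P Q D K V E M ξR ξL)
    (ω : ℤ → ℤ → ℝ) {N τ : ℤ} (hτ : τ ≤ N) (h6 : 6 * N ≤ K) (hE : 2 * E ≤ K) (hK : 12 ≤ K) :
    farC P Q ω D K E N τ = 0 := by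
  rw [farC_eq h ω (by omega), farQ_eq h (by omega), if_neg (by omega)]
  norm_num

/-- crude bound of the charge -/
lemma farC_le {P Q : WS} {D K V E M : ℤ} {ξR ξL : ℤ → ℝ} (h : Env P Q D K V E M ξR ξL)
    {ω : ℤ → ℤ → ℝ} (hω0 : ∀ x y, 0 ≤ ω x y) (hω1 : ∀ x y, ω x y ≤ 1) (N τ : ℤ) :
    farC P Q ω D K E N τ ≤ 3 * mass P + 3 * mass Q := by
  have mP := mass_nonneg h.gP
  have mQ := mass_nonneg h.gQ
  have key : ∀ (X : WS) (_ : Good X) (c : ℤ → ℝ), (∀ x, c x ≤ 1) →
      ∑ a ∈ X.S, X.f a * c (X.u a) ≤ mass X := by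
    intro X hX c hc
    unfold mass
    refine sum_le_sum fun a ha => ?_
    exact mul_le_of_le_one_right (hX.f_nonneg a ha) (hc _)
  have h1 : farS P K τ ≤ mass P := by
    unfold farS
    exact key P h.gP (fun u => if τ ≤ 2 * u ∧ 2 * u < τ + K then 1 else 0)
      (fun x => by split_ifs <;> norm_num)
  have h2 : farD P K τ ≤ mass P := by
    unfold farD
    exact key P h.gP (fun u => if 2 * τ ≤ u ∧ u < 2 * τ + K then 1 else 0)
      (fun x => by split_ifs <;> norm_num)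
  have h3 : farQ Q D K τ ≤ mass Q := by
    unfold farQ
    exact key Q h.gQ (fun u => if D + 1 - K ≤ u + 2 * τ then 1 else 0)
      (fun x => by split_ifs <;> norm_num)
  have h4 : midg P Q D (fun X => if 2 * (D - K) - E < X ∧ X ≤ 2 * (D - 0) + E ∧ 0 < X + E
        then 1 else 0) ω τ ≤ mass Q + mass P := by
    unfold midg
    refine add_le_add ?_ ?_
    · unfold mass
      refine sum_le_sum fun q hq => ?_
      refine mul_le_of_le_one_right (h.gQ.f_nonneg q hq) ?_
      have e1 : (if Q.u q < 0 then ω τ (-Q.u q) else 1) ≤ 1 := by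
        split_ifs
        · exact hω1 _ _
        · exact le_rfl
      have e2 : 0 ≤ (if Q.u q < 0 then ω τ (-Q.u q) else 1) := by
        split_ifs
        · exact hω0 _ _
        · norm_num
      beta_reduce
      split_ifs at e1 e2 ⊢ <;> linarith
    · exact key P h.gP (fun u => (if 2 * (D - K) - E < τ + u - D ∧ τ + u - D ≤ 2 * (D - 0) + E ∧
        0 < τ + u - D + E then 1 else 0)) (fun x => by split_ifs <;> norm_num)
  have h5 : ex2g Q D (fun s => if 0 ≤ s ∧ s < K then 1 else 0) τ ≤ mass Q := by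
    unfold ex2g
    exact key Q h.gQ (fun u => gdep D (fun s => if 0 ≤ s ∧ s < K then 1 else 0) (2 * u + τ - D))
      (fun x => by unfold gdep; beta_reduce; split_ifs <;> norm_num)
  unfold farC
  split_ifs <;> linarith

/-- CORE-DEEP, ready for `finish_chargeE`: `chR`, `chL` = exotic deep labels, by strays;
`κ` = price of a far label; the part `1 - la` of the core gain is left. -/
theorem core_hdeep {P Q : WS} {D K V E M : ℤ} {ξR ξL : ℤ → ℝ} (h : Env P Q D K V E M ξR ξL)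
    {ω : ℤ → ℤ → ℝ} (hω : ∀ x y, ω x y + ω y x = 1) {ρ N : ℤ}
    (hρ : 1 ≤ ρ) (hN0 : 0 ≤ N) (hN : N ≤ ρ) (h6 : 6 * ρ ≤ K) {κ la : ℝ} (hla : 0 < la)
    (hκ : 0 < κ) (hC1 : 9 / 16 * (ρ:ℝ) ^ 2 ≤ κ * (K - 4 * ρ))
    (hC2 : (3 * (3 * (K:ℝ) + 15 / 4) - 6 * la * (K - 4 * ρ)) ^ 2 * (ρ:ℝ) ^ 2
      ≤ 8 * κ * (K - 4 * ρ) * (3 * K + 15 / 4) ^ 2)
    (hC3 : κ * (3 * K + 15 / 4) ≤ 24 * la ^ 2 * ρ * (K - 4 * ρ))
    {chR chL : ℤ → ℝ}
    (hch : max 0 (W.ext ξR (D - ρ) - cc P Q 0 - nn Q (D + 1)) * dd Q P (D - ρ + 1)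
        + max 0 (W.ext ξL (D - ρ) - cc Q P 0 - nn P (D + 1)) * dd P Q (D - ρ + 1)
      ≤ strayC Q chR + strayC P chL) :
    -(strayC Q (fun τ => (if τ ≤ N then la * kcN P Q K (K - ρ) ρ τ else 0) + chR τ
          + κ * farC P Q ω D K E N τ)
        + strayC P (fun τ => (if τ ≤ N then la * kcN Q P K (K - ρ) ρ τ else 0) + chL τ
          + κ * farC Q P ω D K E N τ)) - 20 * K + (1 - la) * coreGE P Q D K (K - ρ) ρ
      ≤ deepB P Q D K (K - ρ) ρ + deepB Q P D K (K - ρ) ρ + coreGE P Q D K (K - ρ) ρ := by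
  have hD := h.hD
  have hK := h.hK
  set G : ℤ → ℝ := fun X => if 2 * (D - K) - E < X ∧ X ≤ 2 * (D - 0) + E ∧ 0 < X + E
        then 1 else 0 with hG
  set g : ℤ → ℝ := fun s => if 0 ≤ s ∧ s < K then 1 else 0 with hg
  have G0 : ∀ x, 0 ≤ G x := fun x => by rw [hG]; beta_reduce; split_ifs <;> norm_num
  have g0 : ∀ x, 0 ≤ g x := fun x => by rw [hg]; beta_reduce; split_ifs <;> norm_num
  set yL : ℝ := strayC Q (fun τ => if N < τ then farS P K τ else 0)
      + strayC P (fun τ => if N < τ then farD Q K τ else 0) + nn P (D + 1 - K)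
      + W.ext ξL K with hyL
  set yR : ℝ := strayC P (fun τ => if N < τ then farS Q K τ else 0)
      + strayC Q (fun τ => if N < τ then farD P K τ else 0) + nn Q (D + 1 - K)
      + W.ext ξR K with hyR
  have e0 : ∀ ξ : ℤ → ℝ, (∀ s, 0 ≤ ξ s) → 0 ≤ W.ext ξ K := fun ξ hξ =>
    sum_nonneg fun s _ => hξ s
  have yL0 : 0 ≤ yL := by
    have a1 := strayC_nonneg h.gQ (c := fun τ => if N < τ then farS P K τ else 0)
      (fun t => ite_nonneg' (farS_nonneg h.gP K t))
    have a2 := strayC_nonneg h.gP (c := fun τ => if N < τ then farD Q K τ else 0)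
      (fun t => ite_nonneg' (farD_nonneg h.gQ K t))
    have a3 := nn_nonneg h.gP (D + 1 - K)
    have a4 := e0 ξL h.nL
    linarith
  have yR0 : 0 ≤ yR := by
    have a1 := strayC_nonneg h.gP (c := fun τ => if N < τ then farS Q K τ else 0)
      (fun t => ite_nonneg' (farS_nonneg h.gQ K t))
    have a2 := strayC_nonneg h.gQ (c := fun τ => if N < τ then farD P K τ else 0)
      (fun t => ite_nonneg' (farD_nonneg h.gP K t))
    have a3 := nn_nonneg h.gQ (D + 1 - K)
    have a4 := e0 ξR h.nR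
    linarith
  have hm : mass P * mass Q ≤ 3 * K + 15 / 4 := by
    have h1 := h.mass_mul
    have h2 : (D:ℝ) = 4 * K + 1 := by exact_mod_cast hD
    have h3 : (0:ℝ) ≤ E := by exact_mod_cast h.hE
    nlinarith [sq_nonneg (mass P - mass Q)]
  have main := core_deepN h.gP h.gQ hD hρ hN0 hN h6 h.uP h.uQ h.cR h.cL hm hla hκ hC1 hC2 hC3
    yL0 yR0 (fun v hv hvK => cover_far h.gP h.gQ hN0 h.cL h.nL (by omega) hv hvK)
    (fun v hv hvK => cover_far h.gQ h.gP hN0 h.cR h.nR (by omega) hv hvK)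
  have xR := ext_far h hω
  have xL := ext_far h.symm hω
  have hy : yL + yR ≤ strayC Q (farC P Q ω D K E N) + strayC P (farC Q P ω D K E N) := by
    have s1 : ∀ P Q : WS, strayC Q (farC P Q ω D K E N)
        = strayC Q (fun τ => if N < τ then farS P K τ else 0)
          + strayC Q (fun τ => if N < τ then farD P K τ else 0)
          + strayC Q (fun τ => farQ Q D K τ + midg P Q D G ω τ) + strayC Q (ex2g Q D g) := by
      intro P Q
      rw [← strayC_add', ← strayC_add', ← strayC_add']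
      congr 1
      funext τ
      unfold farC
      split_ifs <;> ring
    rw [s1, s1]
    linarith
  have c1 := coreN_eq (P := P) (Q := Q) K (K - ρ) ρ hN0
  have c0 : ∀ (Q : WS) (c : ℤ → ℝ), strayC Q (fun τ => if τ ≤ N then la * c τ else 0)
      = la * ∑ b ∈ Q.S, Q.f b * (if Q.u b < 0 then (if -Q.u b ≤ N then c (-Q.u b) else 0)
        else 0) := by
    intro Q c
    unfold strayC
    rw [mul_sum]
    refine sum_congr rfl fun b _ => ?_
    beta_reduce
    split_ifs <;> ring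
  have c2 := c0 Q (kcN P Q K (K - ρ) ρ)
  have c3 := c0 P (kcN Q P K (K - ρ) ρ)
  have q1 : ∀ (Q : WS) (c d e : ℤ → ℝ), strayC Q (fun τ => c τ + d τ + κ * e τ)
      = strayC Q c + strayC Q d + κ * strayC Q e := by
    intro Q c d e
    rw [strayC_add', strayC_add']
    congr 1
    have := strayC_mul Q e κ
    rw [mul_comm κ, ← this]
    congr 1
    funext τ
    ring
  rw [q1, q1, c2, c3]
  rw [c1] at main
  have hy' := mul_le_mul_of_nonneg_left hy hκ.le
  have p1 := mul_nonneg hla.le (coreDE_nonneg h.gP h.gQ D K (K - ρ) ρ)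
  have p2 := mul_nonneg hla.le (coreDE_nonneg h.gQ h.gP D K (K - ρ) ρ)
  unfold coreGE
  linarith

end

end MP61673a.Fin
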