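import Pool.Agent.Mu673.LiftW

set_option autoImplicit false

/-!
Row S2: the labels in the blocks of the midpoints, priced elementwise: a sum over the strays `z`
of the sum over the partners `w` (weight `1/2` for a stray partner).
-/

namespace MP61673a.Mids

open Finset MP61673a.LiftW
open MP61673a.Lift hiding PP QQ

noncomputable section

/-- the cells of two lifted elements are different and have an integral midpoint -/
def par (t : ℕ) (z w : ℤ) : Prop := z / 4 ^ t ≠ w / 4 ^ t ∧ (z / 4 ^ t + w / 4 ^ t) % 2 = 0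

instance (t : ℕ) (z w : ℤ) : Decidable (par t z w) := by unfold par; infer_instance

lemma par_comm {t : ℕ} {z w : ℤ} : par t z w ↔ par t w z := by
  unfold par
  rw [add_comm (z / 4 ^ t), ne_comm]

lemma cell {t : ℕ} {a c : ℤ} (hc : c ∈ dig t) : (4 ^ t * a + c) / 4 ^ t = a := by
  have hpos : (0:ℤ) < 4 ^ t := by positivity
  have h := dig_bounds hc
  rw [add_comm, Int.add_mul_ediv_left _ _ hpos.ne', Int.ediv_eq_zero_of_lt h.1 h.2, zero_add]

/-- ordered double sum over the lifted set = sum over the pairs of cells with a midpoint -/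
lemma sum_pairs (A : Finset ℤ) (t : ℕ) (F : ℤ → ℤ → ℝ) :
    ∑ z ∈ liftN t A, ∑ w ∈ liftN t A, (if par t z w then F z w else 0)
      = ∑ p ∈ mids A, ∑ c ∈ dig t, ∑ c' ∈ dig t,
        (F (4 ^ t * p.1 + c) (4 ^ t * p.2 + c') + F (4 ^ t * p.2 + c') (4 ^ t * p.1 + c)) := by
  have h1 : ∑ z ∈ liftN t A, ∑ w ∈ liftN t A, (if par t z w then F z w else 0)
      = ∑ a ∈ A, ∑ b ∈ A, (if a ≠ b ∧ (a + b) % 2 = 0 then
          ∑ c ∈ dig t, ∑ c' ∈ dig t, F (4 ^ t * a + c) (4 ^ t * b + c') else 0) := by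
    rw [sum_liftN]
    refine sum_congr rfl fun a _ => ?_
    have h2 : ∀ c ∈ dig t, ∑ w ∈ liftN t A, (if par t (4 ^ t * a + c) w then
          F (4 ^ t * a + c) w else 0)
        = ∑ b ∈ A, (if a ≠ b ∧ (a + b) % 2 = 0 then
          ∑ c' ∈ dig t, F (4 ^ t * a + c) (4 ^ t * b + c') else 0) := by
      intro c hc
      rw [sum_liftN]
      refine sum_congr rfl fun b _ => ?_
      by_cases h : a ≠ b ∧ (a + b) % 2 = 0
      · rw [if_pos h]
        refine sum_congr rfl fun c' hc' => ?_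
        rw [if_pos]
        unfold par
        rw [cell hc, cell hc']
        exact h
      · rw [if_neg h]
        refine sum_eq_zero fun c' hc' => ?_
        rw [if_neg]
        unfold par
        rw [cell hc, cell hc']
        exact h
    rw [sum_congr rfl h2, sum_comm]
    refine sum_congr rfl fun b _ => ?_
    by_cases h : a ≠ b ∧ (a + b) % 2 = 0
    · simp only [if_pos h]
    · simp only [if_neg h, sum_const_zero]
  rw [h1, ← sum_product' (f := fun a b => if a ≠ b ∧ (a + b) % 2 = 0 then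
          ∑ c ∈ dig t, ∑ c' ∈ dig t, F (4 ^ t * a + c) (4 ^ t * b + c') else 0)]
  have h3 : ∑ x ∈ A ×ˢ A, (if x.1 ≠ x.2 ∧ (x.1 + x.2) % 2 = 0 then
          ∑ c ∈ dig t, ∑ c' ∈ dig t, F (4 ^ t * x.1 + c) (4 ^ t * x.2 + c') else 0)
      = ∑ x ∈ A ×ˢ A, (if x.1 < x.2 ∧ (x.1 + x.2) % 2 = 0 then
          ∑ c ∈ dig t, ∑ c' ∈ dig t, F (4 ^ t * x.1 + c) (4 ^ t * x.2 + c') else 0)
        + ∑ x ∈ A ×ˢ A, (if x.2 < x.1 ∧ (x.1 + x.2) % 2 = 0 then
          ∑ c ∈ dig t, ∑ c' ∈ dig t, F (4 ^ t * x.1 + c) (4 ^ t * x.2 + c') else 0) := by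
    rw [← sum_add_distrib]
    refine sum_congr rfl fun x _ => ?_
    split_ifs <;> first | omega | simp
  have h4 : ∑ x ∈ A ×ˢ A, (if x.2 < x.1 ∧ (x.1 + x.2) % 2 = 0 then
          ∑ c ∈ dig t, ∑ c' ∈ dig t, F (4 ^ t * x.1 + c) (4 ^ t * x.2 + c') else 0)
      = ∑ x ∈ A ×ˢ A, (if x.1 < x.2 ∧ (x.1 + x.2) % 2 = 0 then
          ∑ c ∈ dig t, ∑ c' ∈ dig t, F (4 ^ t * x.2 + c) (4 ^ t * x.1 + c') else 0) := by
    refine sum_nbij' (fun x => (x.2, x.1)) (fun x => (x.2, x.1)) ?_ ?_ ?_ ?_ ?_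
    · intro x hx; rw [mem_product] at hx ⊢; exact ⟨hx.2, hx.1⟩
    · intro x hx; rw [mem_product] at hx ⊢; exact ⟨hx.2, hx.1⟩
    · intro x _; rfl
    · intro x _; rfl
    · intro x _
      simp only
      rw [add_comm x.1 x.2]
  rw [h3, h4, ← sum_add_distrib]
  unfold mids
  rw [sum_filter]
  refine sum_congr rfl fun x _ => ?_
  by_cases h : x.1 < x.2 ∧ (x.1 + x.2) % 2 = 0
  · rw [if_pos h, if_pos h, if_pos h]
    rw [sum_comm (f := fun c c' => F (4 ^ t * x.2 + c) (4 ^ t * x.1 + c')), ← sum_add_distrib]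
    refine sum_congr rfl fun c _ => ?_
    rw [← sum_add_distrib]
  · rw [if_neg h, if_neg h, if_neg h, add_zero]

/-- the same, split by the strays `Z z`, `Z w`: every pair of different cells with at least one
stray is counted once -/
lemma sum_strays (A : Finset ℤ) (t : ℕ) (F : ℤ → ℤ → ℝ) (hF : ∀ z w, F z w = F w z)
    (Z : ℤ → Prop) [DecidablePred Z] :
    ∑ p ∈ mids A, ∑ c ∈ dig t, ∑ c' ∈ dig t,
        (if Z (4 ^ t * p.1 + c) ∨ Z (4 ^ t * p.2 + c') then
          F (4 ^ t * p.1 + c) (4 ^ t * p.2 + c') else 0)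
      = ∑ z ∈ liftN t A, (if Z z then ∑ w ∈ liftN t A, (if par t z w then
          (if Z w then 1 / 2 else 1) * F z w else 0) else 0) := by
  have h1 : ∑ z ∈ liftN t A, (if Z z then ∑ w ∈ liftN t A, (if par t z w then
          (if Z w then 1 / 2 else 1) * F z w else 0) else 0)
      = ∑ z ∈ liftN t A, ∑ w ∈ liftN t A, (if par t z w then
          (if Z z then (if Z w then 1 / 2 else 1) * F z w else 0) else 0) := by
    refine sum_congr rfl fun z _ => ?_
    by_cases h : Z z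
    · simp only [if_pos h]
    · simp only [if_neg h, ite_self, sum_const_zero]
  rw [h1, sum_pairs]
  refine sum_congr rfl fun p _ => sum_congr rfl fun c _ => sum_congr rfl fun c' _ => ?_
  rw [hF (4 ^ t * p.2 + c')]
  by_cases h2 : Z (4 ^ t * p.1 + c) <;> by_cases h3 : Z (4 ^ t * p.2 + c') <;>
    simp [h2, h3]
  ring

/-- the sum over a block, EXACT, as a sum over the pairs of the two clusters: the two labels
`y = 2b - a`, `y' = 2a - b` (relative to the block) of a pair have `y + y' = z + w` -/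
lemma block_exact (t : ℕ) (x : ℤ) (h : ℤ → ℝ) :
    ∑ r ∈ Ico (0:ℤ) (4 ^ t), h (4 ^ t * x + r)
      = ∑ c ∈ dig t, ∑ c' ∈ dig t,
        (1 / 2 * (h (4 ^ t * x + (2 * c' - c)) + h (4 ^ t * x + (2 * c - c')))) := by
  have h1 := sum_dig t (fun r => h (4 ^ t * x + r))
  have h2 : ∑ c ∈ dig t, ∑ c' ∈ dig t, h (4 ^ t * x + (2 * c' - c))
      = ∑ c ∈ dig t, ∑ c' ∈ dig t, h (4 ^ t * x + (2 * c - c')) := sum_comm
  have h3 : ∑ c ∈ dig t, ∑ c' ∈ dig t,
        (1 / 2 * (h (4 ^ t * x + (2 * c' - c)) + h (4 ^ t * x + (2 * c - c'))))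
      = 1 / 2 * (∑ c ∈ dig t, ∑ c' ∈ dig t, h (4 ^ t * x + (2 * c' - c))
        + ∑ c ∈ dig t, ∑ c' ∈ dig t, h (4 ^ t * x + (2 * c - c'))) := by
    rw [← sum_add_distrib, mul_sum]
    refine sum_congr rfl fun c _ => ?_
    rw [← sum_add_distrib, mul_sum]
  rw [h3, h2, h1]
  ring

/-- GENERAL FORM: if `h` (a nonnegative function of the label, zero outside the labels that we
price) satisfies the pointwise bound `(h y + h y')/2 ≤ G z w` for the two labels of each pair of
elements and vanishes on the two labels when neither element is a stray, then the price of all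
midpoint blocks is at most the sum over the strays and their partners -/
theorem mids_le (A : Finset ℤ) (t : ℕ) (S : Finset ℤ) (h : ℤ → ℝ) (h0 : ∀ y ∈ S, 0 ≤ h y)
    (G : ℤ → ℤ → ℝ) (hG : ∀ z w, G z w = G w z) (Z : ℤ → Prop) [DecidablePred Z]
    (hle : ∀ a ∈ A, ∀ b ∈ A, a < b → (a + b) % 2 = 0 → ∀ c ∈ dig t, ∀ c' ∈ dig t,
      ∀ y y', y = 4 ^ t * ((a + b) / 2) + (2 * c' - c) →
      y' = 4 ^ t * ((a + b) / 2) + (2 * c - c') →
      1 / 2 * ((if y ∈ S then h y else 0) + (if y' ∈ S then h y' else 0))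
        ≤ if Z (4 ^ t * a + c) ∨ Z (4 ^ t * b + c') then G (4 ^ t * a + c) (4 ^ t * b + c')
          else 0) :
    ∑ y ∈ S, ind (fun y => Mid A (y / 4 ^ t)) y * h y
      ≤ ∑ z ∈ liftN t A, (if Z z then ∑ w ∈ liftN t A, (if par t z w then
          (if Z w then 1 / 2 else 1) * G z w else 0) else 0) := by
  refine (sum_ext_le A t S h h0).trans ?_
  rw [← sum_strays A t G hG Z]
  refine sum_le_sum fun p hp => ?_
  obtain ⟨h1, h2, h3, h4⟩ := mem_mids.1 hp
  have e := block_exact t ((p.1 + p.2) / 2) (fun y => if y ∈ S then h y else 0)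
  rw [e]
  exact sum_le_sum fun c hc => sum_le_sum fun c' hc' =>
    hle p.1 h1 p.2 h2 h3 h4 c hc c' hc' _ _ rfl rfl

/-- the price of the sum over the partners of a right stray `z` -/
def costR (A : Finset ℤ) (t : ℕ) (D : ℤ) (c : ℤ → ℝ) (z : ℤ) : ℝ :=
  ∑ w ∈ liftN t A, if par t z w ∧ 0 < (z + w - 4 * D + (4 ^ t - 1)) / 2 then
    (if 2 * D < w then 1 / 2 else 1) * c ((z + w - 4 * D + (4 ^ t - 1)) / 2) else 0

/-- the price of the sum over the partners of a left stray `z` -/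
def costL (A : Finset ℤ) (t : ℕ) (D : ℤ) (c : ℤ → ℝ) (z : ℤ) : ℝ :=
  ∑ w ∈ liftN t A, if par t z w ∧ 0 < (2 * D - z - w + (4 ^ t - 1)) / 2 then
    (if w < D then 1 / 2 else 1) * c ((2 * D - z - w + (4 ^ t - 1)) / 2) else 0

lemma ite_and' (p q : Prop) [Decidable p] [Decidable q] (k x : ℝ) :
    (if p then k * (if q then x else 0) else 0) = if p ∧ q then k * x else 0 := by
  by_cases h1 : p <;> by_cases h2 : q <;> simp [h1, h2]

lemma trunc_mono {c : ℤ → ℝ} (hc : Monotone c) (h0 : ∀ x, 0 ≤ c x) :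
    Monotone (fun x : ℤ => if 0 < x then c x else 0) := by
  intro x y hxy
  simp only
  by_cases h1 : 0 < x
  · rw [if_pos h1, if_pos (by omega)]
    exact hc hxy
  · rw [if_neg h1]
    split_ifs
    · exact h0 y
    · exact le_rfl

lemma sub_le {t : ℕ} {c c' : ℤ} (h : c ∈ dig t) (h' : c' ∈ dig t) :
    3 * c' - 3 * c ≤ 4 ^ t - 1 := by
  have h1 := dig_mem h
  have h2 := dig_mem h'
  linarith [h1.1, h2.2]

/-- RIGHT SIDE: for a nondecreasing nonnegative price `c` of the depth, the midpoint blocks cost at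
most the sum over the right strays `z > 2D` and their partners `w` (weight `1/2` for a stray
partner) of `c` at the depth of the mean of `z` and `w` plus half a cell -/
theorem mid_right (A : Finset ℤ) (t : ℕ) (D : ℤ) (c : ℤ → ℝ) (hc : Monotone c)
    (h0 : ∀ x, 0 ≤ c x) :
    ∑ s ∈ Ico 0 D, ind (fun y => Mid A (y / 4 ^ t)) (3 * D - s) * c (D - s)
      ≤ ∑ z ∈ (liftN t A).filter (fun z => 2 * D < z), costR A t D c z := by
  have hm := trunc_mono hc h0
  have e1 : ∑ s ∈ Ico 0 D, ind (fun y => Mid A (y / 4 ^ t)) (3 * D - s) * c (D - s)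
      = ∑ y ∈ Ioc (2 * D) (3 * D), ind (fun y => Mid A (y / 4 ^ t)) y * c (y - 2 * D) := by
    refine sum_nbij' (fun s => 3 * D - s) (fun y => 3 * D - y) ?_ ?_ ?_ ?_ ?_
    · intro s hs; rw [mem_Ico] at hs; rw [mem_Ioc]; omega
    · intro s hs; rw [mem_Ioc] at hs; rw [mem_Ico]; omega
    · intro s _; ring
    · intro s _; ring
    · intro s _
      rw [show 3 * D - s - 2 * D = D - s by ring]
  rw [e1]
  refine (mids_le A t (Ioc (2 * D) (3 * D)) (fun y => c (y - 2 * D)) (fun y _ => h0 _)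
    (fun z w => if 0 < (z + w - 4 * D + (4 ^ t - 1)) / 2 then
      c ((z + w - 4 * D + (4 ^ t - 1)) / 2) else 0)
    (fun z w => by rw [add_comm z w]) (fun z => 2 * D < z) ?_).trans (le_of_eq ?_)
  · intro a _ b _ hab hpar d hd d' hd' y y' hy hy'
    have b1 := sub_le hd hd'
    have b2 := sub_le hd' hd
    have b3 := dig_bounds hd'
    have b4 := dig_bounds hd
    have b5 := dig_mem hd
    have b6 := dig_mem hd'
    have hE : (1:ℤ) ≤ 4 ^ t := one_le_pow₀ (by norm_num)
    have hx : 2 * ((a + b) / 2) = a + b := by omega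
    have hx1 : (a + b) / 2 + 1 ≤ b := by omega
    have hx2 : 4 ^ t * ((a + b) / 2) + 4 ^ t ≤ 4 ^ t * b := by
      have := mul_le_mul_of_nonneg_left hx1 (show (0:ℤ) ≤ 4 ^ t by linarith)
      linarith
    have hx3 : 2 * (4 ^ t * ((a + b) / 2)) = 4 ^ t * a + 4 ^ t * b := by
      calc 2 * (4 ^ t * ((a + b) / 2)) = 4 ^ t * (2 * ((a + b) / 2)) := by ring
        _ = 4 ^ t * a + 4 ^ t * b := by rw [hx]; ring
    have key : ∀ y : ℤ, 2 * y ≤ 4 ^ t * a + d + (4 ^ t * b + d') + (4 ^ t - 1) →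
        y < 4 ^ t * b →
        (if y ∈ Ioc (2 * D) (3 * D) then c (y - 2 * D) else 0)
        ≤ if 2 * D < 4 ^ t * a + d ∨ 2 * D < 4 ^ t * b + d' then
          (if 0 < (4 ^ t * a + d + (4 ^ t * b + d') - 4 * D + (4 ^ t - 1)) / 2 then
            c ((4 ^ t * a + d + (4 ^ t * b + d') - 4 * D + (4 ^ t - 1)) / 2) else 0) else 0 := by
      intro y h1 h2
      by_cases h3 : y ∈ Ioc (2 * D) (3 * D)
      · rw [if_pos h3]
        rw [mem_Ioc] at h3
        rw [if_pos (Or.inr (by linarith))]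
        have h4 : y - 2 * D ≤ (4 ^ t * a + d + (4 ^ t * b + d') - 4 * D + (4 ^ t - 1)) / 2 := by
          omega
        have h5 := hm h4
        simp only at h5
        rw [if_pos (show 0 < y - 2 * D by linarith)] at h5
        exact h5
      · rw [if_neg h3]
        split_ifs
        · exact h0 _
        · exact le_rfl
        · exact le_rfl
    have k1 := key y (by linarith) (by linarith)
    have k2 := key y' (by linarith) (by linarith)
    linarith
  · rw [sum_filter]
    refine sum_congr rfl fun z _ => ?_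
    split_ifs with h
    · unfold costR
      exact sum_congr rfl fun w _ => ite_and' _ _ _ _
    · rfl

/-- LEFT SIDE -/
theorem mid_left (A : Finset ℤ) (t : ℕ) (D : ℤ) (c : ℤ → ℝ) (hc : Monotone c)
    (h0 : ∀ x, 0 ≤ c x) :
    ∑ s ∈ Ico 0 D, ind (fun y => Mid A (y / 4 ^ t)) s * c (D - s)
      ≤ ∑ z ∈ (liftN t A).filter (fun z => z < D), costL A t D c z := by
  have hm := trunc_mono hc h0
  refine (mids_le A t (Ico 0 D) (fun y => c (D - y)) (fun y _ => h0 _)
    (fun z w => if 0 < (2 * D - z - w + (4 ^ t - 1)) / 2 then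
      c ((2 * D - z - w + (4 ^ t - 1)) / 2) else 0)
    (fun z w => by rw [show 2 * D - z - w = 2 * D - w - z by ring]) (fun z => z < D)
    ?_).trans (le_of_eq ?_)
  · intro a _ b _ hab hpar d hd d' hd' y y' hy hy'
    have b1 := sub_le hd hd'
    have b2 := sub_le hd' hd
    have b3 := dig_bounds hd'
    have b4 := dig_bounds hd
    have b5 := dig_mem hd
    have b6 := dig_mem hd'
    have hE : (1:ℤ) ≤ 4 ^ t := one_le_pow₀ (by norm_num)
    have hx : 2 * ((a + b) / 2) = a + b := by omega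
    have hx1 : a + 1 ≤ (a + b) / 2 := by omega
    have hx2 : 4 ^ t * a + 4 ^ t ≤ 4 ^ t * ((a + b) / 2) := by
      have := mul_le_mul_of_nonneg_left hx1 (show (0:ℤ) ≤ 4 ^ t by linarith)
      linarith
    have hx3 : 2 * (4 ^ t * ((a + b) / 2)) = 4 ^ t * a + 4 ^ t * b := by
      calc 2 * (4 ^ t * ((a + b) / 2)) = 4 ^ t * (2 * ((a + b) / 2)) := by ring
        _ = 4 ^ t * a + 4 ^ t * b := by rw [hx]; ring
    have key : ∀ y : ℤ, 4 ^ t * a + d + (4 ^ t * b + d') - (4 ^ t - 1) ≤ 2 * y →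
        4 ^ t * a + 4 ^ t ≤ y →
        (if y ∈ Ico 0 D then c (D - y) else 0)
        ≤ if 4 ^ t * a + d < D ∨ 4 ^ t * b + d' < D then
          (if 0 < (2 * D - (4 ^ t * a + d) - (4 ^ t * b + d') + (4 ^ t - 1)) / 2 then
            c ((2 * D - (4 ^ t * a + d) - (4 ^ t * b + d') + (4 ^ t - 1)) / 2) else 0)
            else 0 := by
      intro y h1 h2
      by_cases h3 : y ∈ Ico 0 D
      · rw [if_pos h3]
        rw [mem_Ico] at h3
        rw [if_pos (Or.inl (by linarith))]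
        have h4 : D - y ≤ (2 * D - (4 ^ t * a + d) - (4 ^ t * b + d') + (4 ^ t - 1)) / 2 := by
          omega
        have h5 := hm h4
        simp only at h5
        rw [if_pos (show 0 < D - y by linarith)] at h5
        exact h5
      · rw [if_neg h3]
        split_ifs
        · exact h0 _
        · exact le_rfl
        · exact le_rfl
    have k1 := key y (by linarith) (by linarith)
    have k2 := key y' (by linarith) (by linarith)
    linarith
  · rw [sum_filter]
    refine sum_congr rfl fun z _ => ?_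
    split_ifs with h
    · unfold costL
      exact sum_congr rfl fun w _ => ite_and' _ _ _ _
    · rfl

/-! ### In the language of `PP`, `QQ` -/

open MP61673a.W (WS PP QQ)

/-- price truncated to positive depths -/
def cp (c : ℤ → ℝ) (x : ℤ) : ℝ := if 0 < x then c x else 0

lemma cp_nonneg {c : ℤ → ℝ} (h0 : ∀ x, 0 ≤ c x) (x : ℤ) : 0 ≤ cp c x := by
  unfold cp
  split_ifs
  · exact h0 x
  · exact le_rfl

lemma cp_mono {c : ℤ → ℝ} (hc : Monotone c) (h0 : ∀ x, 0 ≤ c x) : Monotone (cp c) :=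
  trunc_mono hc h0

/-- cost of the midpoints of the strays of `Q` (positions `u < 0`): partners in `Q` (weight `1/2`
for a stray partner) and in `P`. `E` = rounding in doubled units, `R`, `R'` = weights (`0` or `1`)
restricting the pairs -/
def midCost (P Q : WS) (R : Q.ι → Q.ι → ℝ) (R' : Q.ι → P.ι → ℝ) (D E : ℤ) (c : ℤ → ℝ) : ℝ :=
  ∑ b ∈ Q.S, Q.f b * (if Q.u b < 0 then
    ∑ q ∈ Q.S, Q.f q * (R b q * ((if Q.u q < 0 then 1 / 2 else 1)
        * cp c ((-Q.u b - Q.u q + E) / 2)))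
      + ∑ a ∈ P.S, P.f a * (R' b a * cp c ((-Q.u b + P.u a - D + E) / 2))
    else 0)

/-- dropping the restrictions -/
lemma midCost_le {P Q : WS} (hP : ∀ a ∈ P.S, 0 ≤ P.f a) (hQ : ∀ b ∈ Q.S, 0 ≤ Q.f b)
    {R : Q.ι → Q.ι → ℝ} {R' : Q.ι → P.ι → ℝ} (hR : ∀ b q, R b q ≤ 1) (hR' : ∀ b a, R' b a ≤ 1)
    (D E : ℤ) {c : ℤ → ℝ} (h0 : ∀ x, 0 ≤ c x) :
    midCost P Q R R' D E c ≤ midCost P Q (fun _ _ => 1) (fun _ _ => 1) D E c := by
  unfold midCost
  refine sum_le_sum fun b hb => mul_le_mul_of_nonneg_left ?_ (hQ b hb)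
  by_cases h : Q.u b < 0
  · rw [if_pos h, if_pos h]
    refine add_le_add (sum_le_sum fun q hq => mul_le_mul_of_nonneg_left ?_ (hQ q hq))
      (sum_le_sum fun a ha => mul_le_mul_of_nonneg_left ?_ (hP a ha))
    · exact mul_le_mul_of_nonneg_right (hR b q)
        (mul_nonneg (by split_ifs <;> norm_num) (cp_nonneg h0 _))
    · exact mul_le_mul_of_nonneg_right (hR' b a) (cp_nonneg h0 _)
  · rw [if_neg h, if_neg h]

/-- the restriction to pairs of different cells with an integral midpoint -/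
def parw (t : ℕ) (z w : ℤ) : ℝ := if par t z w then 1 else 0

lemma parw_le (t : ℕ) (z w : ℤ) : parw t z w ≤ 1 := by
  unfold parw
  split_ifs <;> norm_num

/-- RIGHT SIDE in the frame -/
theorem mid_right_PQ (A : Finset ℤ) (t : ℕ) (D : ℤ) (c : ℤ → ℝ) (hc : Monotone c)
    (h0 : ∀ x, 0 ≤ c x) (φ φ1 ψ1 : ℤ → ℝ) (hφ : ∀ x, 2 * D < x → φ x = 0) :
    ∑ s ∈ Ico 0 D, ind (fun y => Mid A (y / 4 ^ t)) (3 * D - s) * c (D - s)
      ≤ midCost (PP (liftN t A) φ φ1 D) (QQ (liftN t A) φ ψ1 D)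
        (parw t) (parw t) D (4 ^ t - 1) c := by
  refine (mid_right A t D c hc h0).trans (le_of_eq ?_)
  rw [sum_filter]
  change _ = ∑ z ∈ liftN t A, (1 - φ z) * (if 2 * D - z < 0 then
    ∑ w ∈ liftN t A, (1 - φ w) * (parw t z w * ((if 2 * D - w < 0 then 1 / 2 else 1)
        * cp c ((-(2 * D - z) - (2 * D - w) + (4 ^ t - 1)) / 2)))
      + ∑ w ∈ liftN t A, φ w * (parw t z w
        * cp c ((-(2 * D - z) + (w - D) - D + (4 ^ t - 1)) / 2)) else 0)
  refine sum_congr rfl fun z _ => ?_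
  by_cases h : 2 * D < z
  · rw [if_pos h, if_pos (by omega), hφ z h, sub_zero, one_mul, ← sum_add_distrib]
    unfold costR
    refine sum_congr rfl fun w _ => ?_
    have e1 : -(2 * D - z) - (2 * D - w) + (4 ^ t - 1) = z + w - 4 * D + (4 ^ t - 1) := by ring
    have e2 : -(2 * D - z) + (w - D) - D + (4 ^ t - 1) = z + w - 4 * D + (4 ^ t - 1) := by ring
    rw [e1, e2]
    unfold cp parw
    have e3 : (if 2 * D - w < 0 then (1:ℝ) / 2 else 1) = if 2 * D < w then 1 / 2 else 1 := by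
      split_ifs <;> first | omega | rfl
    rw [e3]
    by_cases h1 : par t z w
    · by_cases h2 : 0 < (z + w - 4 * D + (4 ^ t - 1)) / 2
      · rw [if_pos ⟨h1, h2⟩, if_pos h1, if_pos h2]
        by_cases h3 : 2 * D < w
        · rw [if_pos h3, hφ w h3]
          ring
        · rw [if_neg h3]
          ring
      · rw [if_neg (fun h3 => h2 h3.2), if_pos h1, if_neg h2]
        ring
    · rw [if_neg (fun h3 => h1 h3.1), if_neg h1]
      ring
  · rw [if_neg h, if_neg (by omega), mul_zero]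

/-- LEFT SIDE in the frame (the roles of `P` and `Q` are exchanged) -/
theorem mid_left_PQ (A : Finset ℤ) (t : ℕ) (D : ℤ) (c : ℤ → ℝ) (hc : Monotone c)
    (h0 : ∀ x, 0 ≤ c x) (φ φ1 ψ1 : ℤ → ℝ) (hφ : ∀ x, x < D → φ x = 1) :
    ∑ s ∈ Ico 0 D, ind (fun y => Mid A (y / 4 ^ t)) s * c (D - s)
      ≤ midCost (QQ (liftN t A) φ ψ1 D) (PP (liftN t A) φ φ1 D)
        (parw t) (parw t) D (4 ^ t - 1) c := by
  refine (mid_left A t D c hc h0).trans (le_of_eq ?_)
  rw [sum_filter]
  change _ = ∑ z ∈ liftN t A, φ z * (if z - D < 0 then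
    ∑ w ∈ liftN t A, φ w * (parw t z w * ((if w - D < 0 then 1 / 2 else 1)
        * cp c ((-(z - D) - (w - D) + (4 ^ t - 1)) / 2)))
      + ∑ w ∈ liftN t A, (1 - φ w) * (parw t z w
        * cp c ((-(z - D) + (2 * D - w) - D + (4 ^ t - 1)) / 2)) else 0)
  refine sum_congr rfl fun z _ => ?_
  by_cases h : z < D
  · rw [if_pos h, if_pos (by omega), hφ z h, one_mul, ← sum_add_distrib]
    unfold costL
    refine sum_congr rfl fun w _ => ?_
    have e1 : -(z - D) - (w - D) + (4 ^ t - 1) = 2 * D - z - w + (4 ^ t - 1) := by ring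
    have e2 : -(z - D) + (2 * D - w) - D + (4 ^ t - 1) = 2 * D - z - w + (4 ^ t - 1) := by ring
    rw [e1, e2]
    unfold cp parw
    have e3 : (if w - D < 0 then (1:ℝ) / 2 else 1) = if w < D then 1 / 2 else 1 := by
      split_ifs <;> first | omega | rfl
    rw [e3]
    by_cases h1 : par t z w
    · by_cases h2 : 0 < (2 * D - z - w + (4 ^ t - 1)) / 2
      · rw [if_pos ⟨h1, h2⟩, if_pos h1, if_pos h2]
        by_cases h3 : w < D
        · rw [if_pos h3, hφ w h3]
          ring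
        · rw [if_neg h3]
          ring
      · rw [if_neg (fun h3 => h2 h3.2), if_pos h1, if_neg h2]
        ring
    · rw [if_neg (fun h3 => h1 h3.1), if_neg h1]
      ring
  · rw [if_neg h, if_neg (by omega), mul_zero]

end

end MP61673a.Mids
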