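import Pool.Agent.Mu673.Incl
import Pool.Agent.Mu673.Mids

/-!
Exact decomposition of the remaining terms of the identity into one net per stray, hybrid frame:
doubled roles = elements of position `≥ -V`; a pair of two strays belongs to the deeper one
(`lo = 0`: ties belong to the stray, `lo = 1`: ties belong to the other one).
-/

namespace MP61673a.W

open Finset

noncomputable section

/-- doubled roles = positions `≥ -V` -/
def Dbl (P : WS) (V : ℤ) : Prop := ∀ a ∈ P.S, P.f1 a = if -V ≤ P.u a then P.f a else 0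

/-- value of a pair of positions, `x` single, `y` doubled, on the side `(P,Q)` -/
def hh (P Q : WS) (K T ρ V x y : ℤ) : ℝ :=
  if x + 2 * y < 0 then
    T + 1 + nn P (1 + ρ) - (if -V ≤ x ∧ -V ≤ y then KK P Q K ρ x y else 0)
  else (if -V ≤ x ∧ -V ≤ y then KC P Q K ρ x y
    else dd P Q (2 * K + 1 + ρ + 2 * (x + 2 * y)))

/-- the pairs of one side, collected -/
lemma side0_hh {P Q : WS} (D K T ρ V : ℤ) (dP : Dbl P V) (dQ : Dbl Q V) :
    side0 P Q D K T ρ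
      = ∑ a ∈ P.S, ∑ b ∈ Q.S, P.f a * Q.f b * hh P Q K T ρ V (P.u a) (Q.u b)
        + (T + 1 + nn P (1 + ρ)) * nn Q (D + 1)
        + ∑ s ∈ Ico 0 D, qq Q (D - s) * dd P Q (2 * K + 1 + ρ + 2 * s)
        + deep P Q D K T ρ := by
  rw [side0_K]
  have h1 : (T + 1 + nn P (1 + ρ)) * cc P Q 0
        - ∑ a ∈ P.S, ∑ b ∈ Q.S, P.f1 a * Q.f1 b * (if P.u a + 2 * Q.u b < 0 then
            KK P Q K ρ (P.u a) (Q.u b) else 0)
        + ∑ a ∈ P.S, ∑ b ∈ Q.S, P.f1 a * Q.f1 b * (if 0 ≤ P.u a + 2 * Q.u b then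
            KC P Q K ρ (P.u a) (Q.u b) else 0)
        + ∑ a ∈ P.S, ∑ b ∈ Q.S, (P.f a * Q.f b - P.f1 a * Q.f1 b)
            * (if 0 ≤ P.u a + 2 * Q.u b then
            dd P Q (2 * K + 1 + ρ + 2 * (P.u a + 2 * Q.u b)) else 0)
      = ∑ a ∈ P.S, ∑ b ∈ Q.S, P.f a * Q.f b * hh P Q K T ρ V (P.u a) (Q.u b) := by
    unfold cc
    rw [mul_sum, ← sum_sub_distrib, ← sum_add_distrib, ← sum_add_distrib]
    refine sum_congr rfl fun a ha => ?_
    rw [mul_sum, ← sum_sub_distrib, ← sum_add_distrib, ← sum_add_distrib]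
    refine sum_congr rfl fun b hb => ?_
    rw [dP a ha, dQ b hb]
    unfold hh
    by_cases c : P.u a + 2 * Q.u b < 0
    · have c' : ¬ 0 ≤ P.u a + 2 * Q.u b := by omega
      by_cases c1 : -V ≤ P.u a
      · by_cases c2 : -V ≤ Q.u b
        · have c3 : -V ≤ P.u a ∧ -V ≤ Q.u b := ⟨c1, c2⟩
          simp only [if_pos c, if_neg c', if_pos c1, if_pos c2, if_pos c3]
          ring
        · have c3 : ¬ (-V ≤ P.u a ∧ -V ≤ Q.u b) := fun h => c2 h.2
          simp only [if_pos c, if_neg c', if_neg c2, if_neg c3]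
          ring
      · have c3 : ¬ (-V ≤ P.u a ∧ -V ≤ Q.u b) := fun h => c1 h.1
        simp only [if_pos c, if_neg c', if_neg c1, if_neg c3]
        ring
    · have c' : 0 ≤ P.u a + 2 * Q.u b := by omega
      by_cases c1 : -V ≤ P.u a
      · by_cases c2 : -V ≤ Q.u b
        · have c3 : -V ≤ P.u a ∧ -V ≤ Q.u b := ⟨c1, c2⟩
          simp only [if_neg c, if_pos c', if_pos c1, if_pos c2, if_pos c3]
          ring
        · have c3 : ¬ (-V ≤ P.u a ∧ -V ≤ Q.u b) := fun h => c2 h.2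
          simp only [if_neg c, if_pos c', if_neg c2, if_neg c3]
          ring
      · have c3 : ¬ (-V ≤ P.u a ∧ -V ≤ Q.u b) := fun h => c1 h.1
        simp only [if_neg c, if_pos c', if_neg c1, if_neg c3]
        ring
  rw [← h1]
  ring

/-- splitting a double sum over the pairs by the deeper rule -/
lemma split_pairs (P Q : WS) (H : ℤ → ℤ → ℝ) :
    ∑ a ∈ P.S, ∑ b ∈ Q.S, P.f a * Q.f b * H (P.u a) (Q.u b)
      = ∑ b ∈ Q.S, Q.f b * (if Q.u b < 0 then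
          ∑ a ∈ P.S, (if 0 - (-Q.u b) ≤ P.u a then P.f a * H (P.u a) (Q.u b) else 0) else 0)
        + ∑ a ∈ P.S, P.f a * (if P.u a < 0 then
          ∑ b ∈ Q.S, (if 1 - (-P.u a) ≤ Q.u b then Q.f b * H (P.u a) (Q.u b) else 0) else 0)
        + ∑ a ∈ P.S, ∑ b ∈ Q.S, (if 0 ≤ P.u a ∧ 0 ≤ Q.u b then
          P.f a * Q.f b * H (P.u a) (Q.u b) else 0) := by
  have h1 : ∑ b ∈ Q.S, Q.f b * (if Q.u b < 0 then
          ∑ a ∈ P.S, (if 0 - (-Q.u b) ≤ P.u a then P.f a * H (P.u a) (Q.u b) else 0) else 0)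
      = ∑ a ∈ P.S, ∑ b ∈ Q.S, (if Q.u b < 0 ∧ Q.u b ≤ P.u a then
          P.f a * Q.f b * H (P.u a) (Q.u b) else 0) := by
    rw [sum_comm]
    refine sum_congr rfl fun b _ => ?_
    by_cases c : Q.u b < 0
    · rw [if_pos c, mul_sum]
      refine sum_congr rfl fun a _ => ?_
      by_cases c2 : Q.u b ≤ P.u a
      · rw [if_pos (by omega), if_pos ⟨c, c2⟩]
        ring
      · rw [if_neg (by omega), if_neg (fun h => c2 h.2), mul_zero]
    · rw [if_neg c, mul_zero]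
      symm
      exact sum_eq_zero fun a _ => if_neg (fun h => c h.1)
  have h2 : ∑ a ∈ P.S, P.f a * (if P.u a < 0 then
          ∑ b ∈ Q.S, (if 1 - (-P.u a) ≤ Q.u b then Q.f b * H (P.u a) (Q.u b) else 0) else 0)
      = ∑ a ∈ P.S, ∑ b ∈ Q.S, (if P.u a < 0 ∧ P.u a < Q.u b then
          P.f a * Q.f b * H (P.u a) (Q.u b) else 0) := by
    refine sum_congr rfl fun a _ => ?_
    by_cases c : P.u a < 0
    · rw [if_pos c, mul_sum]
      refine sum_congr rfl fun b _ => ?_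
      by_cases c2 : P.u a < Q.u b
      · rw [if_pos (by omega), if_pos ⟨c, c2⟩]
        ring
      · rw [if_neg (by omega), if_neg (fun h => c2 h.2), mul_zero]
    · rw [if_neg c, mul_zero]
      symm
      exact sum_eq_zero fun b _ => if_neg (fun h => c h.1)
  rw [h1, h2]
  simp only [← sum_add_distrib]
  refine sum_congr rfl fun a _ => sum_congr rfl fun b _ => ?_
  by_cases c1 : P.u a < 0 <;> by_cases c2 : Q.u b < 0 <;> by_cases c3 : P.u a < Q.u b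
  · rw [if_neg (by omega), if_pos ⟨c1, c3⟩, if_neg (by omega)]; ring
  · rw [if_pos ⟨c2, by omega⟩, if_neg (by omega), if_neg (by omega)]; ring
  · rw [if_neg (by omega), if_pos ⟨c1, c3⟩, if_neg (by omega)]; ring
  · omega
  · omega
  · rw [if_pos ⟨c2, by omega⟩, if_neg (by omega), if_neg (by omega)]; ring
  · rw [if_neg (by omega), if_neg (by omega), if_pos ⟨by omega, by omega⟩]; ring
  · rw [if_neg (by omega), if_neg (by omega), if_pos ⟨by omega, by omega⟩]; ring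

/-- the pairs of a stray at `-t` of the family `Q` with the family `P` -/
def pairNet (P Q : WS) (K T ρ σ V lo t : ℤ) : ℝ :=
  ∑ a ∈ P.S, if lo - t ≤ P.u a then
    P.f a * (hh P Q K T ρ V (P.u a) (-t) + hh Q P K T σ V (-t) (P.u a)) else 0

lemma pairs_decomp {P Q : WS} (hP : Good P) (hQ : Good Q) (K T ρ σ : ℤ) {V : ℤ} (hV : 0 ≤ V) :
    ∑ b ∈ Q.S, Q.f b * (if Q.u b < 0 then pairNet P Q K T ρ σ V 0 (-Q.u b) else 0)
      + ∑ a ∈ P.S, P.f a * (if P.u a < 0 then pairNet Q P K T σ ρ V 1 (-P.u a) else 0)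
      ≤ ∑ a ∈ P.S, ∑ b ∈ Q.S, P.f a * Q.f b * hh P Q K T ρ V (P.u a) (Q.u b)
        + ∑ b ∈ Q.S, ∑ a ∈ P.S, Q.f b * P.f a * hh Q P K T σ V (Q.u b) (P.u a) := by
  have h0 : ∑ a ∈ P.S, ∑ b ∈ Q.S, P.f a * Q.f b * hh P Q K T ρ V (P.u a) (Q.u b)
        + ∑ b ∈ Q.S, ∑ a ∈ P.S, Q.f b * P.f a * hh Q P K T σ V (Q.u b) (P.u a)
      = ∑ a ∈ P.S, ∑ b ∈ Q.S, P.f a * Q.f b *
        (hh P Q K T ρ V (P.u a) (Q.u b) + hh Q P K T σ V (Q.u b) (P.u a)) := by
    rw [sum_comm (s := Q.S)]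
    simp only [← sum_add_distrib]
    refine sum_congr rfl fun a _ => sum_congr rfl fun b _ => ?_
    ring
  rw [h0, split_pairs P Q (fun x y => hh P Q K T ρ V x y + hh Q P K T σ V y x)]
  have h1 : ∑ b ∈ Q.S, Q.f b * (if Q.u b < 0 then pairNet P Q K T ρ σ V 0 (-Q.u b) else 0)
      = ∑ b ∈ Q.S, Q.f b * (if Q.u b < 0 then
          ∑ a ∈ P.S, (if 0 - (-Q.u b) ≤ P.u a then P.f a *
            (hh P Q K T ρ V (P.u a) (Q.u b) + hh Q P K T σ V (Q.u b) (P.u a)) else 0) else 0) := by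
    refine sum_congr rfl fun b _ => ?_
    unfold pairNet
    rw [neg_neg]
  have h2 : ∑ a ∈ P.S, P.f a * (if P.u a < 0 then pairNet Q P K T σ ρ V 1 (-P.u a) else 0)
      = ∑ a ∈ P.S, P.f a * (if P.u a < 0 then
          ∑ b ∈ Q.S, (if 1 - (-P.u a) ≤ Q.u b then Q.f b *
            (hh P Q K T ρ V (P.u a) (Q.u b) + hh Q P K T σ V (Q.u b) (P.u a)) else 0) else 0) := by
    refine sum_congr rfl fun a _ => ?_
    unfold pairNet
    rw [neg_neg]
    simp only [add_comm (hh Q P K T σ V _ _)]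
  rw [h1, h2]
  refine le_add_of_nonneg_right ?_
  refine sum_nonneg fun a ha => sum_nonneg fun b hb => ?_
  by_cases c : 0 ≤ P.u a ∧ 0 ≤ Q.u b
  · rw [if_pos c]
    refine mul_nonneg (mul_nonneg (hP.f_nonneg a ha) (hQ.f_nonneg b hb)) ?_
    unfold hh
    have c1 : ¬ P.u a + 2 * Q.u b < 0 := by omega
    have c2 : ¬ Q.u b + 2 * P.u a < 0 := by omega
    have c3 : -V ≤ P.u a ∧ -V ≤ Q.u b := by omega
    have c4 : -V ≤ Q.u b ∧ -V ≤ P.u a := by omega
    simp only [if_neg c1, if_neg c2, if_pos c3, if_pos c4]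
    exact add_nonneg (KC_nonneg hP hQ _ _ _ _) (KC_nonneg hQ hP _ _ _ _)
  · rw [if_neg c]

/-- value of a pair of the own side with `u a - 2 u a1 = U` -/
def ow (P Q : WS) (D K T ρ U : ℤ) : ℝ :=
  if D < U then T + 1 + nn P (1 + ρ)
  else if 1 ≤ U then dd P Q (2 * K + 1 + ρ + 2 * (D - U)) else 0

lemma ow_nonneg {P Q : WS} (hP : Good P) (hQ : Good Q) {T : ℤ} (hT : -1 ≤ T) (D K ρ U : ℤ) :
    0 ≤ ow P Q D K T ρ U := by
  unfold ow
  have h1 := nn_nonneg hP (1 + ρ)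
  have h2 : (-1:ℝ) ≤ T := by exact_mod_cast hT
  split_ifs
  · linarith
  · exact dd_nonneg hP hQ _
  · exact le_rfl

/-- bonus of a doubled stray at `-t` of `Q` from the pairs of its own side -/
def own (P Q : WS) (D K T ρ V t : ℤ) : ℝ :=
  if t ≤ V then ∑ q ∈ Q.S, Q.f q * ow P Q D K T ρ (Q.u q + 2 * t) else 0

lemma own_eq (P Q : WS) (D K T ρ : ℤ) :
    (T + 1 + nn P (1 + ρ)) * nn Q (D + 1)
        + ∑ s ∈ Ico 0 D, qq Q (D - s) * dd P Q (2 * K + 1 + ρ + 2 * s)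
      = ∑ q ∈ Q.S, ∑ b ∈ Q.S, Q.f q * Q.f1 b * ow P Q D K T ρ (Q.u q - 2 * Q.u b) := by
  have h1 : ∑ s ∈ Ico 0 D, qq Q (D - s) * dd P Q (2 * K + 1 + ρ + 2 * s)
      = ∑ q ∈ Q.S, ∑ b ∈ Q.S, (if 1 ≤ Q.u q - 2 * Q.u b ∧ Q.u q - 2 * Q.u b ≤ D then
        Q.f q * Q.f1 b * dd P Q (2 * K + 1 + ρ + 2 * (D - (Q.u q - 2 * Q.u b))) else 0) := by
    have h2 : ∀ s ∈ Ico 0 D, qq Q (D - s) * dd P Q (2 * K + 1 + ρ + 2 * s)
        = ∑ q ∈ Q.S, ∑ b ∈ Q.S, (if s = D - (Q.u q - 2 * Q.u b) then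
          Q.f q * Q.f1 b * dd P Q (2 * K + 1 + ρ + 2 * s) else 0) := by
      intro s _
      unfold qq
      rw [sum_mul]
      refine sum_congr rfl fun q _ => ?_
      rw [sum_mul]
      refine sum_congr rfl fun b _ => ?_
      rw [ite_mul']
      by_cases c : s = D - (Q.u q - 2 * Q.u b)
      · rw [if_pos (by omega), if_pos c]
      · rw [if_neg (by omega), if_neg c]
    rw [sum_congr rfl h2]
    rw [sum_comm]
    refine sum_congr rfl fun q _ => ?_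
    rw [sum_comm]
    refine sum_congr rfl fun b _ => ?_
    rw [sum_ite_eq' (Ico 0 D) (D - (Q.u q - 2 * Q.u b))
      (fun s => Q.f q * Q.f1 b * dd P Q (2 * K + 1 + ρ + 2 * s))]
    simp only [mem_Ico]
    by_cases c : 1 ≤ Q.u q - 2 * Q.u b ∧ Q.u q - 2 * Q.u b ≤ D
    · rw [if_pos (by omega), if_pos c]
    · rw [if_neg (by omega), if_neg c]
  rw [h1]
  unfold nn
  rw [mul_sum, ← sum_add_distrib]
  refine sum_congr rfl fun q _ => ?_
  rw [mul_sum, ← sum_add_distrib]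
  refine sum_congr rfl fun b _ => ?_
  unfold ow nn
  by_cases c1 : D < Q.u q - 2 * Q.u b
  · rw [if_pos (by omega), if_pos c1, if_neg (by omega)]
    ring
  · by_cases c2 : 1 ≤ Q.u q - 2 * Q.u b
    · rw [if_neg (by omega), if_neg c1, if_pos c2, if_pos ⟨c2, by omega⟩]
      ring
    · rw [if_neg (by omega), if_neg c1, if_neg c2, if_neg (fun h => c2 h.1)]
      ring

lemma own_ge {P Q : WS} (hP : Good P) (hQ : Good Q) {T V : ℤ} (hT : -1 ≤ T) (dQ : Dbl Q V)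
    (D K ρ : ℤ) :
    ∑ b ∈ Q.S, Q.f b * (if Q.u b < 0 then own P Q D K T ρ V (-Q.u b) else 0)
      ≤ (T + 1 + nn P (1 + ρ)) * nn Q (D + 1)
        + ∑ s ∈ Ico 0 D, qq Q (D - s) * dd P Q (2 * K + 1 + ρ + 2 * s) := by
  rw [own_eq, sum_comm]
  refine sum_le_sum fun b hb => ?_
  have h0 : ∀ q ∈ Q.S, 0 ≤ Q.f q * Q.f1 b * ow P Q D K T ρ (Q.u q - 2 * Q.u b) :=
    fun q hq => mul_nonneg (mul_nonneg (hQ.f_nonneg q hq) (hQ.f1_nonneg b hb))
      (ow_nonneg hP hQ hT _ _ _ _)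
  by_cases c : Q.u b < 0
  · rw [if_pos c]
    unfold own
    by_cases c2 : -Q.u b ≤ V
    · rw [if_pos c2, mul_sum]
      refine le_of_eq (sum_congr rfl fun q _ => ?_)
      rw [dQ b hb, if_pos (by omega), show Q.u q + 2 * -Q.u b = Q.u q - 2 * Q.u b by ring]
      ring
    · rw [if_neg c2, mul_zero]
      exact sum_nonneg h0
  · rw [if_neg c, mul_zero]
    exact sum_nonneg h0

/-- bonus of a doubled stray at `-t` of `Q` from the deep bracket of the side `(Q,P)` -/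
def deepNet (P Q : WS) (D K σ V t : ℤ) : ℝ :=
  if t ≤ V then ∑ q ∈ Q.S, Q.f q * (if 1 + σ ≤ Q.u q + 2 * t then
    dd Q P (D - K + min ((Q.u q + 2 * t - σ + 1) / 2) K) - dd Q P D else 0) else 0

/-- the deep bracket of the side `(Q,P)`: total value and bonus of the doubled strays of `Q` -/
lemma deepNet_ge {P Q : WS} (hP : Good P) (hQ : Good Q) {D K T ρ σ L V : ℤ}
    (hD : D = 2 * T + 2 * K + 1 + σ + ρ) (hρ0 : 0 ≤ ρ) (hρ : ρ ≤ 2) (dQ : Dbl Q V)
    (hL : ∀ b ∈ Q.S, ∀ a ∈ P.S, Q.f b * P.f a ≠ 0 → Q.u b + 2 * P.u a ≤ L) :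
    ∑ b ∈ Q.S, Q.f b * (if Q.u b < 0 then deepNet P Q D K σ V (-Q.u b) else 0)
      + (nn Q (1 + σ) - ((L:ℝ) - D + ρ) / 2) * dd Q P D ≤ deep Q P D K T σ := by
  unfold deep
  have h0 : 0 ≤ ∑ g ∈ Ico (T + 1) K, nn Q (2 * g + 1 + σ) :=
    sum_nonneg fun g _ => nn_nonneg hQ _
  have h1 : ∑ g ∈ Ico (T + 1) D, dd Q P (2 * K + 1 + σ + 2 * g)
      ≤ ((L:ℝ) - D + ρ) / 2 * dd Q P D := by
    rw [sum_dd_eq]
    unfold dd
    rw [mul_sum]
    refine sum_le_sum fun b hb => ?_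
    rw [mul_sum]
    refine sum_le_sum fun a ha => ?_
    have e1 := mul_nonneg (hQ.f_nonneg b hb) (hP.f_nonneg a ha)
    have e2 := count_le (s := Q.u b + 2 * P.u a) hD hρ0 hρ
    by_cases h0 : Q.f b * P.f a = 0
    · rw [h0]
      simp
    by_cases c : D ≤ Q.u b + 2 * P.u a
    · rw [if_pos c] at e2 ⊢
      rw [mul_comm]
      refine mul_le_mul_of_nonneg_right (e2.trans ?_) e1
      have h2 : ((Q.u b + 2 * P.u a : ℤ) : ℝ) ≤ L := by exact_mod_cast hL b hb a ha h0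
      linarith
    · rw [if_neg c] at e2 ⊢
      rw [mul_zero]
      exact mul_nonpos_of_nonneg_of_nonpos e1 e2
  have h2 : ∑ b ∈ Q.S, Q.f b * (if Q.u b < 0 then deepNet P Q D K σ V (-Q.u b) else 0)
      + nn Q (1 + σ) * dd Q P D ≤ pp Q σ (fun y => dd Q P (D - K + min y K)) := by
    have e1 : pp Q σ (fun y => dd Q P (D - K + min y K))
        = ∑ b ∈ Q.S, ∑ q ∈ Q.S, (if 1 + σ ≤ Q.u q - 2 * Q.u b then Q.f q * Q.f1 b *
            (dd Q P (D - K + min (yy Q σ q b) K) - dd Q P D) else 0)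
          + nn Q (1 + σ) * dd Q P D := by
      unfold pp nn
      rw [sum_comm, sum_comm (s := Q.S) (t := Q.S)
        (f := fun a a1 => if 1 + σ ≤ Q.u a - 2 * Q.u a1 then Q.f a * Q.f1 a1 else 0),
        sum_mul, ← sum_add_distrib]
      refine sum_congr rfl fun b _ => ?_
      rw [sum_mul, ← sum_add_distrib]
      refine sum_congr rfl fun q _ => ?_
      split_ifs <;> ring
    rw [e1]
    refine add_le_add ?_ le_rfl
    refine sum_le_sum fun b hb => ?_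
    have g0 : ∀ q ∈ Q.S, 0 ≤ (if 1 + σ ≤ Q.u q - 2 * Q.u b then Q.f q * Q.f1 b *
            (dd Q P (D - K + min (yy Q σ q b) K) - dd Q P D) else 0) := by
      intro q hq
      refine ite_nonneg' (mul_nonneg (mul_nonneg (hQ.f_nonneg q hq) (hQ.f1_nonneg b hb)) ?_)
      have := dd_anti hQ hP (show D - K + min (yy Q σ q b) K ≤ D by
        have := min_le_right (yy Q σ q b) K
        omega)
      linarith
    by_cases c : Q.u b < 0
    · rw [if_pos c]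
      unfold deepNet
      by_cases c2 : -Q.u b ≤ V
      · rw [if_pos c2, mul_sum]
        refine le_of_eq (sum_congr rfl fun q _ => ?_)
        have c3 : -V ≤ Q.u b := by omega
        rw [dQ b hb, if_pos c3]
        unfold yy
        rw [show Q.u q + 2 * -Q.u b = Q.u q - 2 * Q.u b by ring]
        split_ifs <;> ring
      · rw [if_neg c2, mul_zero]
        exact sum_nonneg g0
    · rw [if_neg c, mul_zero]
      exact sum_nonneg g0
  linarith

/-- everything a stray at `-t` of `Q` gets from the identity, without the external labels -/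
def gain (P Q : WS) (D K T ρ σ V lo t : ℤ) : ℝ :=
  pairNet P Q K T ρ σ V lo t + own P Q D K T ρ V t + deepNet P Q D K σ V t

/-- DECOMPOSITION of the two sides -/
theorem decomp {P Q : WS} (hP : Good P) (hQ : Good Q) {D K T ρ σ L V : ℤ} (hT : -1 ≤ T)
    (hV : 0 ≤ V) (dP : Dbl P V) (dQ : Dbl Q V)
    (hD : D = 2 * T + 2 * K + 1 + ρ + σ) (hρ0 : 0 ≤ ρ) (hρ : ρ ≤ 2) (hσ0 : 0 ≤ σ) (hσ : σ ≤ 2)
    (hL : ∀ a ∈ P.S, ∀ b ∈ Q.S, P.f a * Q.f b ≠ 0 → P.u a + 2 * Q.u b ≤ L)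
    (hL' : ∀ b ∈ Q.S, ∀ a ∈ P.S, Q.f b * P.f a ≠ 0 → Q.u b + 2 * P.u a ≤ L) :
    ∑ b ∈ Q.S, Q.f b * (if Q.u b < 0 then gain P Q D K T ρ σ V 0 (-Q.u b) else 0)
      + ∑ a ∈ P.S, P.f a * (if P.u a < 0 then gain Q P D K T σ ρ V 1 (-P.u a) else 0)
      + (nn P (1 + ρ) - ((L:ℝ) - D + σ) / 2) * dd P Q D
      + (nn Q (1 + σ) - ((L:ℝ) - D + ρ) / 2) * dd Q P D
      ≤ side0 P Q D K T ρ + side0 Q P D K T σ := by
  rw [side0_hh D K T ρ V dP dQ, side0_hh D K T σ V dQ dP]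
  have h1 := pairs_decomp hP hQ K T ρ σ hV
  have h2 := own_ge hP hQ hT dQ D K ρ
  have h3 := own_ge hQ hP hT dP D K σ
  have h4 := deepNet_ge hP hQ (T := T) (by omega : D = 2 * T + 2 * K + 1 + σ + ρ) hρ0 hρ dQ hL'
  have h5 := deepNet_ge hQ hP (T := T) (by omega : D = 2 * T + 2 * K + 1 + ρ + σ) hσ0 hσ dP hL
  have e1 : ∑ b ∈ Q.S, Q.f b * (if Q.u b < 0 then gain P Q D K T ρ σ V 0 (-Q.u b) else 0)
      = ∑ b ∈ Q.S, Q.f b * (if Q.u b < 0 then pairNet P Q K T ρ σ V 0 (-Q.u b) else 0)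
        + ∑ b ∈ Q.S, Q.f b * (if Q.u b < 0 then own P Q D K T ρ V (-Q.u b) else 0)
        + ∑ b ∈ Q.S, Q.f b * (if Q.u b < 0 then deepNet P Q D K σ V (-Q.u b) else 0) := by
    rw [← sum_add_distrib, ← sum_add_distrib]
    refine sum_congr rfl fun b _ => ?_
    unfold gain
    split_ifs <;> ring
  have e2 : ∑ a ∈ P.S, P.f a * (if P.u a < 0 then gain Q P D K T σ ρ V 1 (-P.u a) else 0)
      = ∑ a ∈ P.S, P.f a * (if P.u a < 0 then pairNet Q P K T σ ρ V 1 (-P.u a) else 0)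
        + ∑ a ∈ P.S, P.f a * (if P.u a < 0 then own Q P D K T σ V (-P.u a) else 0)
        + ∑ a ∈ P.S, P.f a * (if P.u a < 0 then deepNet Q P D K ρ V (-P.u a) else 0) := by
    rw [← sum_add_distrib, ← sum_add_distrib]
    refine sum_congr rfl fun a _ => ?_
    unfold gain
    split_ifs <;> ring
  rw [e1, e2]
  linarith

end

end MP61673a.W
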