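import Pool.Agent.Mu673.FinE
import Pool.Agent.Mu673.Charge

/-!
Exact decomposition of the remaining terms of the identity into one net per stray, shifted frame
(cap `T+1`), hybrid: doubled roles = elements of position `≥ -V`; a pair of two strays belongs to
the deeper one.
-/

namespace MP61673a.W

open Finset

noncomputable section

/-- value of a pair of positions, `x` single, `y` doubled, on the side `(P,Q)` -/
def hhE (P Q : WS) (K T ρ V x y : ℤ) : ℝ :=
  if x + 2 * y < 0 then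
    T + 1 + nn P (1 + ρ) - (if -V ≤ x ∧ -V ≤ y then KKE P Q K T ρ x y else 0)
  else (if -V ≤ x ∧ -V ≤ y then KCE P Q K T ρ x y
    else dd P Q (2 * K + 1 + ρ + 2 * (x + 2 * y)))

/-- the pairs of one side, collected -/
lemma side0E_hh {P Q : WS} (D K T ρ V : ℤ) (dP : Dbl P V) (dQ : Dbl Q V) :
    side0E P Q D K T ρ
      = ∑ a ∈ P.S, ∑ b ∈ Q.S, P.f a * Q.f b * hhE P Q K T ρ V (P.u a) (Q.u b)
        + (T + 1 + nn P (1 + ρ)) * nn Q (D + 1)
        + ∑ s ∈ Ico 0 D, qq Q (D - s) * dd P Q (2 * K + 1 + ρ + 2 * s)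
        + deepE P Q D K T ρ := by
  rw [side0E_K]
  have h1 : (T + 1 + nn P (1 + ρ)) * cc P Q 0
        - ∑ a ∈ P.S, ∑ b ∈ Q.S, P.f1 a * Q.f1 b * (if P.u a + 2 * Q.u b < 0 then
            KKE P Q K T ρ (P.u a) (Q.u b) else 0)
        + ∑ a ∈ P.S, ∑ b ∈ Q.S, P.f1 a * Q.f1 b * (if 0 ≤ P.u a + 2 * Q.u b then
            KCE P Q K T ρ (P.u a) (Q.u b) else 0)
        + ∑ a ∈ P.S, ∑ b ∈ Q.S, (P.f a * Q.f b - P.f1 a * Q.f1 b)
            * (if 0 ≤ P.u a + 2 * Q.u b then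
            dd P Q (2 * K + 1 + ρ + 2 * (P.u a + 2 * Q.u b)) else 0)
      = ∑ a ∈ P.S, ∑ b ∈ Q.S, P.f a * Q.f b * hhE P Q K T ρ V (P.u a) (Q.u b) := by
    unfold cc
    rw [mul_sum, ← sum_sub_distrib, ← sum_add_distrib, ← sum_add_distrib]
    refine sum_congr rfl fun a ha => ?_
    rw [mul_sum, ← sum_sub_distrib, ← sum_add_distrib, ← sum_add_distrib]
    refine sum_congr rfl fun b hb => ?_
    rw [dP a ha, dQ b hb]
    unfold hhE
    by_cases c : P.u a + 2 * Q.u b < 0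
    · have c' : ¬ 0 ≤ P.u a + 2 * Q.u b := by omega
      by_cases c1 : -V ≤ P.u a
      · by_cases c2 : -V ≤ Q.u b
        · have c3 : -V ≤ P.u a ∧ -V ≤ Q.u b := ⟨c1, c2⟩
          simp only [if_pos c, if_neg c', if_pos c1, if_pos c2, if_pos c3]
          ring
        · have c3 : ¬ (-V ≤ P.u a ∧ -V ≤ Q.u b) := fun h => c2 h.2
          simp only [if_pos c, if_neg c', if_neg c2, if_neg c3]
          ring
      · have c3 : ¬ (-V ≤ P.u a ∧ -V ≤ Q.u b) := fun h => c1 h.1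
        simp only [if_pos c, if_neg c', if_neg c1, if_neg c3]
        ring
    · have c' : 0 ≤ P.u a + 2 * Q.u b := by omega
      by_cases c1 : -V ≤ P.u a
      · by_cases c2 : -V ≤ Q.u b
        · have c3 : -V ≤ P.u a ∧ -V ≤ Q.u b := ⟨c1, c2⟩
          simp only [if_neg c, if_pos c', if_pos c1, if_pos c2, if_pos c3]
          ring
        · have c3 : ¬ (-V ≤ P.u a ∧ -V ≤ Q.u b) := fun h => c2 h.2
          simp only [if_neg c, if_pos c', if_neg c2, if_neg c3]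
          ring
      · have c3 : ¬ (-V ≤ P.u a ∧ -V ≤ Q.u b) := fun h => c1 h.1
        simp only [if_neg c, if_pos c', if_neg c1, if_neg c3]
        ring
  rw [← h1]
  ring

/-- the pairs of a stray at `-t` of the family `Q` with the family `P` -/
def pairNetE (P Q : WS) (K T ρ σ V lo t : ℤ) : ℝ :=
  ∑ a ∈ P.S, if lo - t ≤ P.u a then
    P.f a * (hhE P Q K T ρ V (P.u a) (-t) + hhE Q P K T σ V (-t) (P.u a)) else 0

/-- gain of the pairs of core elements (both sides) -/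
def corePE (P Q : WS) (K T ρ σ : ℤ) : ℝ :=
  ∑ a ∈ P.S, ∑ b ∈ Q.S, (if 0 ≤ P.u a ∧ 0 ≤ Q.u b then
    P.f a * Q.f b * (KCE P Q K T ρ (P.u a) (Q.u b) + KCE Q P K T σ (Q.u b) (P.u a)) else 0)

lemma corePE_nonneg {P Q : WS} (hP : Good P) (hQ : Good Q) (K T ρ σ : ℤ) :
    0 ≤ corePE P Q K T ρ σ := by
  refine sum_nonneg fun a ha => sum_nonneg fun b hb => ite_nonneg' ?_
  exact mul_nonneg (mul_nonneg (hP.f_nonneg a ha) (hQ.f_nonneg b hb))
    (add_nonneg (KCE_nonneg hP hQ _ _ _ _ _) (KCE_nonneg hQ hP _ _ _ _ _))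

/-- the pairs, exactly -/
lemma pairs_decompE (P Q : WS) (K T ρ σ : ℤ) {V : ℤ} (hV : 0 ≤ V) :
    ∑ b ∈ Q.S, Q.f b * (if Q.u b < 0 then pairNetE P Q K T ρ σ V 0 (-Q.u b) else 0)
      + ∑ a ∈ P.S, P.f a * (if P.u a < 0 then pairNetE Q P K T σ ρ V 1 (-P.u a) else 0)
      + corePE P Q K T ρ σ
      = ∑ a ∈ P.S, ∑ b ∈ Q.S, P.f a * Q.f b * hhE P Q K T ρ V (P.u a) (Q.u b)
        + ∑ b ∈ Q.S, ∑ a ∈ P.S, Q.f b * P.f a * hhE Q P K T σ V (Q.u b) (P.u a) := by
  have h0 : ∑ a ∈ P.S, ∑ b ∈ Q.S, P.f a * Q.f b * hhE P Q K T ρ V (P.u a) (Q.u b)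
        + ∑ b ∈ Q.S, ∑ a ∈ P.S, Q.f b * P.f a * hhE Q P K T σ V (Q.u b) (P.u a)
      = ∑ a ∈ P.S, ∑ b ∈ Q.S, P.f a * Q.f b *
        (hhE P Q K T ρ V (P.u a) (Q.u b) + hhE Q P K T σ V (Q.u b) (P.u a)) := by
    rw [sum_comm (s := Q.S)]
    simp only [← sum_add_distrib]
    refine sum_congr rfl fun a _ => sum_congr rfl fun b _ => ?_
    ring
  rw [h0, split_pairs P Q (fun x y => hhE P Q K T ρ V x y + hhE Q P K T σ V y x)]
  have h1 : ∑ b ∈ Q.S, Q.f b * (if Q.u b < 0 then pairNetE P Q K T ρ σ V 0 (-Q.u b) else 0)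
      = ∑ b ∈ Q.S, Q.f b * (if Q.u b < 0 then
          ∑ a ∈ P.S, (if 0 - (-Q.u b) ≤ P.u a then P.f a *
            (hhE P Q K T ρ V (P.u a) (Q.u b) + hhE Q P K T σ V (Q.u b) (P.u a)) else 0) else 0) := by
    refine sum_congr rfl fun b _ => ?_
    unfold pairNetE
    rw [neg_neg]
  have h2 : ∑ a ∈ P.S, P.f a * (if P.u a < 0 then pairNetE Q P K T σ ρ V 1 (-P.u a) else 0)
      = ∑ a ∈ P.S, P.f a * (if P.u a < 0 then
          ∑ b ∈ Q.S, (if 1 - (-P.u a) ≤ Q.u b then Q.f b *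
            (hhE P Q K T ρ V (P.u a) (Q.u b) + hhE Q P K T σ V (Q.u b) (P.u a)) else 0) else 0) := by
    refine sum_congr rfl fun a _ => ?_
    unfold pairNetE
    rw [neg_neg]
    simp only [add_comm (hhE Q P K T σ V _ _)]
  rw [h1, h2]
  congr 1
  unfold corePE
  refine sum_congr rfl fun a ha => sum_congr rfl fun b hb => ?_
  by_cases c : 0 ≤ P.u a ∧ 0 ≤ Q.u b
  · rw [if_pos c, if_pos c]
    unfold hhE
    have c1 : ¬ P.u a + 2 * Q.u b < 0 := by omega
    have c2 : ¬ Q.u b + 2 * P.u a < 0 := by omega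
    have c3 : -V ≤ P.u a ∧ -V ≤ Q.u b := by omega
    have c4 : -V ≤ Q.u b ∧ -V ≤ P.u a := by omega
    simp only [if_neg c1, if_neg c2, if_pos c3, if_pos c4]
  · rw [if_neg c, if_neg c]

/-- bonus of a doubled stray at `-t` of `Q` from the deep bracket of the side `(Q,P)` -/
def deepNetE (P Q : WS) (D K T σ V t : ℤ) : ℝ :=
  if t ≤ V then ∑ q ∈ Q.S, Q.f q * (if 1 + σ ≤ Q.u q + 2 * t then
    dd Q P (D - K + min ((Q.u q + 2 * t - σ + 1) / 2) (T + 1)) - dd Q P (D - K + (T + 1))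
    else 0) else 0

/-- bonus of the core bases of `Q` in the deep bracket of the side `(Q,P)` -/
def coreDE (P Q : WS) (D K T σ : ℤ) : ℝ :=
  ∑ b ∈ Q.S, (if 0 ≤ Q.u b then Q.f b * ∑ q ∈ Q.S, Q.f q * (if 1 + σ ≤ Q.u q - 2 * Q.u b then
    dd Q P (D - K + min ((Q.u q - 2 * Q.u b - σ + 1) / 2) (T + 1)) - dd Q P (D - K + (T + 1))
    else 0) else 0)

lemma coreDE_nonneg {P Q : WS} (hP : Good P) (hQ : Good Q) (D K T σ : ℤ) :
    0 ≤ coreDE P Q D K T σ := by
  refine sum_nonneg fun b hb => ite_nonneg' ?_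
  refine mul_nonneg (hQ.f_nonneg b hb) (sum_nonneg fun q hq => ?_)
  refine mul_nonneg (hQ.f_nonneg q hq) (ite_nonneg' ?_)
  have := dd_anti hQ hP (show D - K + min ((Q.u q - 2 * Q.u b - σ + 1) / 2) (T + 1)
      ≤ D - K + (T + 1) by
    have := min_le_right ((Q.u q - 2 * Q.u b - σ + 1) / 2) (T + 1)
    omega)
  linarith

lemma deepNetE_nonneg {P Q : WS} (hP : Good P) (hQ : Good Q) (D K T σ V t : ℤ) :
    0 ≤ deepNetE P Q D K T σ V t := by
  unfold deepNetE
  refine ite_nonneg' (sum_nonneg fun q hq => ?_)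
  refine mul_nonneg (hQ.f_nonneg q hq) (ite_nonneg' ?_)
  have := dd_anti hQ hP (show D - K + min ((Q.u q + 2 * t - σ + 1) / 2) (T + 1)
      ≤ D - K + (T + 1) by
    have := min_le_right ((Q.u q + 2 * t - σ + 1) / 2) (T + 1)
    omega)
  linarith

/-- the deep labels of the side `(Q,P)`: signed, exact -/
def deepB (P Q : WS) (D K T σ : ℤ) : ℝ :=
  nn Q (1 + σ) * dd Q P (D - K + (T + 1))
    - ∑ g ∈ Ico (T + 1) D, dd Q P (2 * K + 1 + σ + 2 * g)

/-- the deep bracket, exactly (doubled strays, core bases, deep labels) -/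
lemma deepE_ge {P Q : WS} (hP : Good P) (hQ : Good Q) {D K T σ V : ℤ} (hV : 0 ≤ V)
    (dQ : Dbl Q V) :
    ∑ b ∈ Q.S, Q.f b * (if Q.u b < 0 then deepNetE P Q D K T σ V (-Q.u b) else 0)
      + coreDE P Q D K T σ + deepB P Q D K T σ ≤ deepE Q P D K T σ := by
  unfold deepE deepB
  have h2 : ∑ b ∈ Q.S, Q.f b * (if Q.u b < 0 then deepNetE P Q D K T σ V (-Q.u b) else 0)
      + coreDE P Q D K T σ
      + nn Q (1 + σ) * dd Q P (D - K + (T + 1))
        ≤ pp Q σ (fun y => dd Q P (D - K + min y (T + 1))) := by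
    have e1 : pp Q σ (fun y => dd Q P (D - K + min y (T + 1)))
        = ∑ b ∈ Q.S, ∑ q ∈ Q.S, (if 1 + σ ≤ Q.u q - 2 * Q.u b then Q.f q * Q.f1 b *
            (dd Q P (D - K + min (yy Q σ q b) (T + 1)) - dd Q P (D - K + (T + 1))) else 0)
          + nn Q (1 + σ) * dd Q P (D - K + (T + 1)) := by
      unfold pp nn
      rw [sum_comm, sum_comm (s := Q.S) (t := Q.S)
        (f := fun a a1 => if 1 + σ ≤ Q.u a - 2 * Q.u a1 then Q.f a * Q.f1 a1 else 0),
        sum_mul, ← sum_add_distrib]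
      refine sum_congr rfl fun b _ => ?_
      rw [sum_mul, ← sum_add_distrib]
      refine sum_congr rfl fun q _ => ?_
      split_ifs <;> ring
    rw [e1]
    refine add_le_add ?_ le_rfl
    unfold coreDE
    rw [← sum_add_distrib]
    refine sum_le_sum fun b hb => ?_
    have g0 : ∀ q ∈ Q.S, 0 ≤ (if 1 + σ ≤ Q.u q - 2 * Q.u b then Q.f q * Q.f1 b *
            (dd Q P (D - K + min (yy Q σ q b) (T + 1)) - dd Q P (D - K + (T + 1))) else 0) := by
      intro q hq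
      refine ite_nonneg' (mul_nonneg (mul_nonneg (hQ.f_nonneg q hq) (hQ.f1_nonneg b hb)) ?_)
      have := dd_anti hQ hP (show D - K + min (yy Q σ q b) (T + 1) ≤ D - K + (T + 1) by
        have := min_le_right (yy Q σ q b) (T + 1)
        omega)
      linarith
    by_cases c : Q.u b < 0
    · rw [if_pos c, if_neg (show ¬ 0 ≤ Q.u b by omega), add_zero]
      unfold deepNetE
      by_cases c2 : -Q.u b ≤ V
      · rw [if_pos c2, mul_sum]
        refine le_of_eq (sum_congr rfl fun q _ => ?_)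
        have c3 : -V ≤ Q.u b := by omega
        rw [dQ b hb, if_pos c3]
        unfold yy
        rw [show Q.u q + 2 * -Q.u b = Q.u q - 2 * Q.u b by ring]
        split_ifs <;> ring
      · rw [if_neg c2, mul_zero]
        exact sum_nonneg g0
    · rw [if_neg c, mul_zero, if_pos (show 0 ≤ Q.u b by omega), zero_add, mul_sum]
      refine le_of_eq (sum_congr rfl fun q _ => ?_)
      have c3 : -V ≤ Q.u b := by omega
      rw [dQ b hb, if_pos c3]
      unfold yy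
      split_ifs <;> ring
  linarith

/-- everything a stray at `-t` of `Q` gets from the identity, without the external labels -/
def gainE (P Q : WS) (D K T ρ σ V lo t : ℤ) : ℝ :=
  pairNetE P Q K T ρ σ V lo t + own P Q D K T ρ V t + deepNetE P Q D K T σ V t

/-- DECOMPOSITION of the two sides, with the gains of the core, nothing dropped -/
theorem decompE {P Q : WS} (hP : Good P) (hQ : Good Q) {D K T ρ σ V : ℤ} (hT : -1 ≤ T)
    (hV : 0 ≤ V) (dP : Dbl P V) (dQ : Dbl Q V) :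
    ∑ b ∈ Q.S, Q.f b * (if Q.u b < 0 then gainE P Q D K T ρ σ V 0 (-Q.u b) else 0)
      + ∑ a ∈ P.S, P.f a * (if P.u a < 0 then gainE Q P D K T σ ρ V 1 (-P.u a) else 0)
      + (corePE P Q K T ρ σ + coreDE P Q D K T σ + coreDE Q P D K T ρ)
      + (deepB P Q D K T σ + deepB Q P D K T ρ)
      ≤ side0E P Q D K T ρ + side0E Q P D K T σ := by
  rw [side0E_hh D K T ρ V dP dQ, side0E_hh D K T σ V dQ dP]
  have h1 := pairs_decompE P Q K T ρ σ hV
  have h2 := own_ge hP hQ hT dQ D K ρ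
  have h3 := own_ge hQ hP hT dP D K σ
  have h4 := deepE_ge hP hQ (D := D) (K := K) (T := T) (σ := σ) hV dQ
  have h5 := deepE_ge hQ hP (D := D) (K := K) (T := T) (σ := ρ) hV dP
  have e1 : ∑ b ∈ Q.S, Q.f b * (if Q.u b < 0 then gainE P Q D K T ρ σ V 0 (-Q.u b) else 0)
      = ∑ b ∈ Q.S, Q.f b * (if Q.u b < 0 then pairNetE P Q K T ρ σ V 0 (-Q.u b) else 0)
        + ∑ b ∈ Q.S, Q.f b * (if Q.u b < 0 then own P Q D K T ρ V (-Q.u b) else 0)
        + ∑ b ∈ Q.S, Q.f b * (if Q.u b < 0 then deepNetE P Q D K T σ V (-Q.u b) else 0) := by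
    rw [← sum_add_distrib, ← sum_add_distrib]
    refine sum_congr rfl fun b _ => ?_
    unfold gainE
    split_ifs <;> ring
  have e2 : ∑ a ∈ P.S, P.f a * (if P.u a < 0 then gainE Q P D K T σ ρ V 1 (-P.u a) else 0)
      = ∑ a ∈ P.S, P.f a * (if P.u a < 0 then pairNetE Q P K T σ ρ V 1 (-P.u a) else 0)
        + ∑ a ∈ P.S, P.f a * (if P.u a < 0 then own Q P D K T σ V (-P.u a) else 0)
        + ∑ a ∈ P.S, P.f a * (if P.u a < 0 then deepNetE Q P D K T ρ V (-P.u a) else 0) := by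
    rw [← sum_add_distrib, ← sum_add_distrib]
    refine sum_congr rfl fun a _ => ?_
    unfold gainE
    split_ifs <;> ring
  rw [e1, e2]
  linarith

end

end MP61673a.W
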