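import Pool.Agent.Mu673.FactsW

/-!
The deep bracket of one side.
-/

namespace MP61673a.W

open Finset

noncomputable section

/-- the deep bracket of one side -/
def deep (P Q : WS) (D K T ρ : ℤ) : ℝ :=
  pp P ρ (fun y => dd P Q (D - K + min y K))
    - ∑ g ∈ Ico (T + 1) D, dd P Q (2 * K + 1 + ρ + 2 * g)
    + ∑ g ∈ Ico (T + 1) K, nn P (2 * g + 1 + ρ)

/-- the other nonnegative terms of one side, `deep` and the useless pairs taken out -/
lemma side0_eq (P Q : WS) (D K T ρ : ℤ) :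
    side0 P Q D K T ρ
      = (T + 1 + nn P (1 + ρ)) * (cc P Q 0 + nn Q (D + 1))
        - ∑ a ∈ P.S, ∑ b ∈ Q.S, P.f1 a * Q.f1 b * (if P.u a + 2 * Q.u b < 0 then
            dd P Q (2 * K + 1 + ρ + 2 * (P.u a + 2 * Q.u b)) else 0)
        + ∑ a ∈ P.S, ∑ b ∈ Q.S, (P.f a * Q.f b - P.f1 a * Q.f1 b)
            * (if 0 ≤ P.u a + 2 * Q.u b then
            dd P Q (2 * K + 1 + ρ + 2 * (P.u a + 2 * Q.u b)) else 0)
        + ∑ s ∈ Ico 0 D, qq Q (D - s) * dd P Q (2 * K + 1 + ρ + 2 * s)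
        + deep P Q D K T ρ
        + ∑ a ∈ P.S, ∑ a1 ∈ P.S, (if P.u a - 2 * P.u a1 < 1 + ρ then
            P.f a * P.f1 a1 * nn Q (K + 1 - yy P ρ a a1) else 0)
        + pp P ρ (fun y => nn Q (K + 1 - y) - nn Q (K + 1 - min y K)) := by
  unfold side0 deep
  ring

lemma count_le {D K T ρ σ s : ℤ} (hD : D = 2 * T + 2 * K + 1 + ρ + σ) (hσ0 : 0 ≤ σ)
    (hσ : σ ≤ 2) :
    ∑ g ∈ Ico (T + 1) D, (if 2 * K + 1 + ρ + 2 * g ≤ s then (1:ℝ) else 0)
      ≤ (if D ≤ s then ((s:ℝ) - D + σ) / 2 else 0) := by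
  by_cases c : D ≤ s
  · rw [if_pos c]
    set G : ℤ := (s - 2 * K - 1 - ρ) / 2 with hG
    have h1 : ∑ g ∈ Ico (T + 1) D, (if 2 * K + 1 + ρ + 2 * g ≤ s then (1:ℝ) else 0)
        ≤ ∑ g ∈ Icc (T + 1) G, (1:ℝ) := by
      rw [← sum_filter]
      refine sum_le_sum_of_subset_of_nonneg ?_ fun _ _ _ => by norm_num
      intro g hg
      rw [mem_filter, mem_Ico] at hg
      rw [mem_Icc]
      omega
    rw [sum_const, Int.card_Icc, nsmul_eq_mul, mul_one] at h1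
    have h2 : 2 * (((G + 1 - (T + 1)).toNat : ℕ) : ℤ) ≤ s - D + σ := by omega
    have h3 : 2 * (((G + 1 - (T + 1)).toNat : ℕ) : ℝ) ≤ s - D + σ := by
      exact_mod_cast h2
    linarith
  · rw [if_neg c]
    refine le_of_eq (sum_eq_zero fun g hg => ?_)
    rw [mem_Ico] at hg
    rw [if_neg]
    omega

lemma sum_dd_eq (P Q : WS) (A B c : ℤ) :
    ∑ g ∈ Ico A B, dd P Q (c + 2 * g)
      = ∑ a ∈ P.S, ∑ b ∈ Q.S, P.f a * Q.f b *
        ∑ g ∈ Ico A B, (if c + 2 * g ≤ P.u a + 2 * Q.u b then (1:ℝ) else 0) := by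
  unfold dd
  rw [← sum3_comm]
  refine sum_congr rfl fun a _ => sum_congr rfl fun b _ => ?_
  rw [mul_sum]
  refine sum_congr rfl fun g _ => ?_
  rw [mul_ite', mul_one]

/-- (f) the deep bracket is at least the sum over the deep pairs of `N_P - (s' - D + σ)/2` -/
theorem deep_ge {P Q : WS} (hP : Good P) (hQ : Good Q) {D K T ρ σ : ℤ}
    (hK : 0 ≤ K) (hD : D = 2 * T + 2 * K + 1 + ρ + σ) (hσ0 : 0 ≤ σ) (hσ : σ ≤ 2) :
    ∑ a ∈ P.S, ∑ b ∈ Q.S, P.f a * Q.f b * (if D ≤ P.u a + 2 * Q.u b then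
        nn P (1 + ρ) - (((P.u a + 2 * Q.u b : ℤ) : ℝ) - D + σ) / 2 else 0)
      ≤ deep P Q D K T ρ := by
  unfold deep
  rw [pp_dd P Q hK, sum_dd_eq]
  have h0 : 0 ≤ ∑ g ∈ Ico (T + 1) K, nn P (2 * g + 1 + ρ) :=
    sum_nonneg fun g _ => nn_nonneg hP _
  have h1 : ∑ a ∈ P.S, ∑ b ∈ Q.S, P.f a * Q.f b * (if D ≤ P.u a + 2 * Q.u b then
        nn P (1 + ρ) - (((P.u a + 2 * Q.u b : ℤ) : ℝ) - D + σ) / 2 else 0)
      ≤ ∑ a ∈ P.S, ∑ b ∈ Q.S, P.f a * Q.f b *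
        (if P.u a + 2 * Q.u b < D - K then 0
          else if P.u a + 2 * Q.u b < D - K + K then
            nn P (1 + ρ) - nn P (2 * (P.u a + 2 * Q.u b - (D - K)) + 1 + ρ)
          else nn P (1 + ρ))
      - ∑ a ∈ P.S, ∑ b ∈ Q.S, P.f a * Q.f b *
        ∑ g ∈ Ico (T + 1) D, (if 2 * K + 1 + ρ + 2 * g ≤ P.u a + 2 * Q.u b
          then (1:ℝ) else 0) := by
    simp only [← sum_sub_distrib]
    refine sum_le_sum fun a ha => sum_le_sum fun b hb => ?_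
    rw [← mul_sub]
    refine mul_le_mul_of_nonneg_left ?_ (mul_nonneg (hP.f_nonneg a ha) (hQ.f_nonneg b hb))
    have h2 := count_le (s := P.u a + 2 * Q.u b) hD hσ0 hσ
    by_cases c : D ≤ P.u a + 2 * Q.u b
    · rw [if_pos c] at h2 ⊢
      rw [if_neg (by omega), if_neg (by omega)]
      linarith
    · rw [if_neg c] at h2 ⊢
      split_ifs with c1 c2
      · linarith
      · have h3 := nn_anti hP (show 1 + ρ ≤ 2 * (P.u a + 2 * Q.u b - (D - K)) + 1 + ρ by omega)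
        linarith
      · have h3 := nn_nonneg hP (1 + ρ)
        linarith
  linarith

/-- if all labels are at most `L` then the deep bracket is at least
`(N_P - (L - D + σ)/2) * (number of deep pairs)` -/
theorem deep_ge' {P Q : WS} (hP : Good P) (hQ : Good Q) {D K T ρ σ L : ℤ}
    (hK : 0 ≤ K) (hD : D = 2 * T + 2 * K + 1 + ρ + σ) (hσ0 : 0 ≤ σ) (hσ : σ ≤ 2)
    (hL : ∀ a ∈ P.S, ∀ b ∈ Q.S, P.f a * Q.f b ≠ 0 → P.u a + 2 * Q.u b ≤ L) :
    (nn P (1 + ρ) - ((L:ℝ) - D + σ) / 2) * dd P Q D ≤ deep P Q D K T ρ := by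
  refine le_trans ?_ (deep_ge hP hQ hK hD hσ0 hσ)
  unfold dd
  rw [mul_sum]
  refine sum_le_sum fun a ha => ?_
  rw [mul_sum]
  refine sum_le_sum fun b hb => ?_
  have h1 := mul_nonneg (hP.f_nonneg a ha) (hQ.f_nonneg b hb)
  by_cases h0 : P.f a * Q.f b = 0
  · rw [h0]
    simp
  by_cases c : D ≤ P.u a + 2 * Q.u b
  · rw [if_pos c, if_pos c, mul_comm]
    refine mul_le_mul_of_nonneg_left ?_ h1
    have h2 : ((P.u a + 2 * Q.u b : ℤ) : ℝ) ≤ L := by exact_mod_cast hL a ha b hb h0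
    linarith
  · rw [if_neg c, if_neg c]
    simp

end

end MP61673a.W
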