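import Pool.Agent.Mu673.ChargeS
import Pool.Agent.Mu673.CoreY
import Pool.Agent.Mu673.AsmE

/-!
CORE-DEEP with the coverage used only up to the depth `ρ + w` (helper82, after helper61): the near
strays may have any depth `≤ ρ`. The defect of the deep labels is that of a larger `r`,
`3 r ≥ 3 ρ + 2 w - E / 2`; the room `E` of the mass is used.
-/

namespace MP61673a.W

open Finset

noncomputable section

/-- one side of the deep labels, coverage up to the depth `ρ + w` -/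
lemma deep_sideS {P Q : WS} (hP : Good P) (hQ : Good Q) {D K ρ r w : ℤ} {E : ℝ} {ξR : ℤ → ℝ}
    (hD : D = 4 * K + 1) (hρ : 1 ≤ ρ) (hw : 0 ≤ w) (hw2 : ρ + w ≤ K)
    (hr : 3 * (ρ:ℝ) + 2 * w - E / 2 ≤ 3 * r)
    (huP : ∀ a ∈ P.S, P.f a ≠ 0 → P.u a ≤ 2 * K) (huQ : ∀ b ∈ Q.S, Q.f b ≠ 0 → Q.u b ≤ 2 * K)
    (hcR : Covers P Q D ξR) (hm : mass P * mass Q + E / 4 ≤ 3 * K + 15 / 4) :
    dd Q P (D - ρ + 1) * (dd P Q (D - ρ + 1)
        - max 0 (ext ξR (D - (ρ + w)) - cc P Q 0 - nn Q (D + 1)) - 9 / 4)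
      - ∑ b ∈ Q.S, ∑ a ∈ P.S, Q.f b * P.f a *
        (max 0 (3 * r - (2 * (K:ℝ) - Q.u b) - 2 * (2 * (K:ℝ) - P.u a)) / 2)
      ≤ deepB P Q D K (K - ρ) ρ := by
  refine le_trans ?_ (deepB_ge hP hQ hD)
  have h1 := nn_ge hcR (j := ρ + w) (by omega) (by omega)
  have h2 := dd_anti hP hQ (show D - (ρ + w) ≤ D - ρ + 1 by omega)
  have h2' := nn_anti hQ (show 1 + ρ ≤ ρ + w + 1 by omega)
  have hDr : (D:ℝ) = 4 * K + 1 := by exact_mod_cast hD
  set E0 := ext ξR (D - (ρ + w)) - cc P Q 0 - nn Q (D + 1) with hE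
  have hE0 : E0 ≤ max 0 E0 := le_max_right _ _
  set N := dd P Q (D - ρ + 1) with hN
  have h3 : (K:ℝ) - ρ - w + E / 4 - 11 / 4 + N - max 0 E0 ≤ nn Q (1 + ρ) := by
    push_cast at h1
    linarith
  have h4 : dd Q P (D - ρ + 1) * (N - max 0 E0 - 9 / 4)
      = ∑ b ∈ Q.S, ∑ a ∈ P.S, (if D - ρ + 1 ≤ Q.u b + 2 * P.u a then Q.f b * P.f a else 0)
        * (N - max 0 E0 - 9 / 4) := by
    unfold dd
    rw [sum_mul]
    refine sum_congr rfl fun b _ => ?_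
    rw [sum_mul]
  rw [h4]
  simp only [← sum_sub_distrib]
  refine sum_le_sum fun b hb => sum_le_sum fun a ha => ?_
  have fa := hP.f_nonneg a ha
  have fb := hQ.f_nonneg b hb
  have e0 : 0 ≤ Q.f b * P.f a := mul_nonneg fb fa
  by_cases za : P.f a = 0
  · rw [za]
    simp
  by_cases zb : Q.f b = 0
  · rw [zb]
    simp
  have ua : (P.u a : ℝ) ≤ 2 * K := by exact_mod_cast huP a ha za
  have ub : (Q.u b : ℝ) ≤ 2 * K := by exact_mod_cast huQ b hb zb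
  have m0 : 0 ≤ max 0 (3 * (r:ℝ) - (2 * (K:ℝ) - Q.u b) - 2 * (2 * (K:ℝ) - P.u a)) / 2 :=
    div_nonneg (le_max_left _ _) (by norm_num)
  have m1 : 3 * r - (2 * (K:ℝ) - Q.u b) - 2 * (2 * (K:ℝ) - P.u a)
      ≤ max 0 (3 * r - (2 * (K:ℝ) - Q.u b) - 2 * (2 * (K:ℝ) - P.u a)) := le_max_right _ _
  by_cases c : D - ρ + 1 ≤ Q.u b + 2 * P.u a
  · rw [if_pos c, if_pos c]
    have h5 : (N - max 0 E0 - 9 / 4)
        - max 0 (3 * r - (2 * (K:ℝ) - Q.u b) - 2 * (2 * (K:ℝ) - P.u a)) / 2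
        ≤ nn Q (1 + ρ) - (((Q.u b + 2 * P.u a : ℤ) : ℝ) - D + ρ) / 2 := by
      push_cast
      linarith
    have h6 := mul_le_mul_of_nonneg_left h5 e0
    linarith
  · rw [if_neg c, if_neg c, zero_mul, mul_zero]
    have := mul_nonneg e0 m0
    linarith

/-- all pairs of elements near the centre are deep on both sides -/
lemma cor_mul_leS {P Q : WS} (hP : Good P) (hQ : Good Q) {D K ρ r : ℤ} (hD : D = 4 * K + 1)
    (hr : 1 ≤ r) (hρ : 1 ≤ ρ) (h6 : 6 * r ≤ K) (huP : ∀ a ∈ P.S, P.f a ≠ 0 → P.u a ≤ 2 * K)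
    (huQ : ∀ b ∈ Q.S, Q.f b ≠ 0 → Q.u b ≤ 2 * K) :
    cor P K r * cor Q K r ≤ dd Q P (D - ρ + 1) := by
  unfold cor dd
  rw [mul_comm, sum_mul_sum]
  refine sum_le_sum fun b hb => sum_le_sum fun a ha => ?_
  have fa := hP.f_nonneg a ha
  have fb := hQ.f_nonneg b hb
  have e0 : 0 ≤ Q.f b * P.f a := mul_nonneg fb fa
  by_cases za : P.f a = 0
  · rw [za]
    simp
  by_cases zb : Q.f b = 0
  · rw [zb]
    simp
  have ua := huP a ha za
  have ub := huQ b hb zb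
  have c1 := cph_le_one hr ua
  have c2 := cph_le_one hr ub
  have n1 := cph_nonneg K r (P.u a)
  have n2 := cph_nonneg K r (Q.u b)
  by_cases c : D - ρ + 1 ≤ Q.u b + 2 * P.u a
  · rw [if_pos c]
    have e1 : Q.f b * cph K r (Q.u b) ≤ Q.f b := mul_le_of_le_one_right fb c2
    have e2 : P.f a * cph K r (P.u a) ≤ P.f a := mul_le_of_le_one_right fa c1
    exact mul_le_mul e1 e2 (mul_nonneg fa n1) fb
  · rw [if_neg c]
    have h0 : ¬ (0 < cph K r (P.u a) ∧ 0 < cph K r (Q.u b)) := by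
      rintro ⟨h1, h2⟩
      rw [cph_pos_iff hr] at h1 h2
      omega
    rcases n1.eq_or_lt with h1 | h1
    · rw [← h1]
      simp
    · rcases n2.eq_or_lt with h2 | h2
      · rw [← h2]
        simp
      · exact absurd ⟨h1, h2⟩ h0

/-- CORE-DEEP in the shifted frame, near strays (depth `≤ N ≤ ρ`) counted with the core.
`yL`, `yR` = defects of the coverage of the labels `< K` by pairs of positions `≥ -N`;
`κ` = price of one unit of this defect; only the part `la` of the core gain is used. -/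
theorem core_deepS {P Q : WS} (hP : Good P) (hQ : Good Q) {D K ρ r w N : ℤ} {E : ℝ} {ξR ξL : ℤ → ℝ}
    (hD : D = 4 * K + 1) (hρ : 1 ≤ ρ) (hN0 : 0 ≤ N) (hN : N ≤ ρ) (hρr : ρ ≤ r) (h6 : 6 * r ≤ K)
    (hw : 0 ≤ w) (hw2 : ρ + w ≤ K) (hr : 3 * (ρ:ℝ) + 2 * w - E / 2 ≤ 3 * r)
    (huP : ∀ a ∈ P.S, P.f a ≠ 0 → P.u a ≤ 2 * K) (huQ : ∀ b ∈ Q.S, Q.f b ≠ 0 → Q.u b ≤ 2 * K)
    (hcR : Covers P Q D ξR) (hcL : Covers Q P D ξL)
    (hE : 0 ≤ E) (hm : mass P * mass Q + E / 4 ≤ 3 * K + 15 / 4)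
    {κ la yL yR : ℝ} (hla : 0 < la) (hκ : 0 < κ)
    (hC1 : 9 / 16 * (r:ℝ) ^ 2 ≤ κ * (K - 4 * r))
    (hC2 : (3 * (3 * (K:ℝ) + 15 / 4) - 6 * la * (K - 4 * r)) ^ 2 * (r:ℝ) ^ 2
      ≤ 8 * κ * (K - 4 * r) * (3 * K + 15 / 4) ^ 2)
    (hC3 : κ * (3 * K + 15 / 4) ≤ 24 * la ^ 2 * r * (K - 4 * r))
    (hyL0 : 0 ≤ yL) (hyR0 : 0 ≤ yR)
    (hyL : ∀ v : ℤ, 0 ≤ v → v ≤ K → (v:ℝ) ≤ ccN P Q N v + yL)
    (hyR : ∀ v : ℤ, 0 ≤ v → v ≤ K → (v:ℝ) ≤ ccN Q P N v + yR) :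
    -(max 0 (ext ξR (D - (ρ + w)) - cc P Q 0 - nn Q (D + 1)) * dd Q P (D - ρ + 1)
        + max 0 (ext ξL (D - (ρ + w)) - cc Q P 0 - nn P (D + 1)) * dd P Q (D - ρ + 1))
      - κ * (yL + yR) - 20 * K
      ≤ deepB P Q D K (K - ρ) ρ + deepB Q P D K (K - ρ) ρ
        + la * coreN P Q K (K - ρ) ρ N := by
  have hr1 : 1 ≤ r := by omega
  have hρr' : (1:ℝ) ≤ ρ := by exact_mod_cast hρ
  have hrr : (1:ℝ) ≤ r := by exact_mod_cast hr1
  have h6r : 6 * (r:ℝ) ≤ K := by exact_mod_cast h6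
  have hK : (6:ℝ) ≤ K := by linarith
  have hm' : mass P * mass Q ≤ 3 * K + 15 / 4 := by linarith
  have s1 := deep_sideS hP hQ hD hρ hw hw2 hr huP huQ hcR hm
  have s2 := deep_sideS hQ hP hD hρ hw hw2 hr huQ huP hcL (by rwa [mul_comm (mass Q)])
  have c1 := cor_mul_leS hP hQ hD hr1 hρ h6 huP huQ
  have c2 := cor_mul_leS hQ hP hD hr1 hρ h6 huQ huP
  have A0 := cor_nonneg hP K r
  have B0 := cor_nonneg hQ K r
  have A1 := cor_le_mass hP hr1 huP
  have B1 := cor_le_mass hQ hr1 huQ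
  have d1 := dd_le_mass hQ hP (D - ρ + 1)
  have d2 := dd_le_mass hP hQ (D - ρ + 1)
  have d1' := dd_nonneg hQ hP (D - ρ + 1)
  have d2' := dd_nonneg hP hQ (D - ρ + 1)
  have g := coreN_ge (T := K - ρ) hP hQ hN (K := K)
    (v := fun a => P.u a - K + (1 - r - N) / 2) (w := fun b => Q.u b - K + (1 - r - N) / 2)
    (fun a _ => by omega) (fun b _ => by omega)
  have gg1 := fun θ (h0 : (0:ℝ) ≤ θ) (h1 : θ ≤ 6 * r) =>
    gain_side hP hQ hr1 hN0 (hN.trans hρr) h6 huP h0 h1 hyL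
  have gg2 := fun θ (h0 : (0:ℝ) ≤ θ) (h1 : θ ≤ 6 * r) =>
    gain_side hQ hP hr1 hN0 (hN.trans hρr) h6 huQ h0 h1 hyR
  set A := cor P K r with hA
  set B := cor Q K r with hB
  set NL := dd Q P (D - ρ + 1) with hNL
  set NR := dd P Q (D - ρ + 1) with hNR
  set G1 := ∑ a ∈ P.S, P.f a * tcN P Q N (P.u a - K + (1 - r - N) / 2) with hG1
  set G2 := ∑ b ∈ Q.S, Q.f b * tcN Q P N (Q.u b - K + (1 - r - N) / 2) with hG2
  have G10 : 0 ≤ G1 := sum_nonneg fun a ha => mul_nonneg (hP.f_nonneg a ha) (tcN_nonneg hP hQ _ _)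
  have G20 : 0 ≤ G2 := sum_nonneg fun b hb => mul_nonneg (hQ.f_nonneg b hb) (tcN_nonneg hQ hP _ _)
  -- the defects
  have hdef : ∑ b ∈ Q.S, ∑ a ∈ P.S, Q.f b * P.f a *
        (max 0 (3 * r - (2 * (K:ℝ) - Q.u b) - 2 * (2 * (K:ℝ) - P.u a)) / 2)
      + ∑ a ∈ P.S, ∑ b ∈ Q.S, P.f a * Q.f b *
        (max 0 (3 * r - (2 * (K:ℝ) - P.u a) - 2 * (2 * (K:ℝ) - Q.u b)) / 2)
      ≤ 3 * r * (A * B) := by
    rw [sum_comm (s := Q.S) (t := P.S), ← sum_add_distrib, hA, hB]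
    unfold cor
    rw [sum_mul_sum, mul_sum]
    refine sum_le_sum fun a ha => ?_
    rw [← sum_add_distrib, mul_sum]
    refine sum_le_sum fun b hb => ?_
    have fa := hP.f_nonneg a ha
    have fb := hQ.f_nonneg b hb
    by_cases za : P.f a = 0
    · rw [za]
      simp
    by_cases zb : Q.f b = 0
    · rw [zb]
      simp
    have ua : (P.u a : ℝ) ≤ 2 * K := by exact_mod_cast huP a ha za
    have ub : (Q.u b : ℝ) ≤ 2 * K := by exact_mod_cast huQ b hb zb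
    have h := defect2 (r := (r:ℝ)) (x := 2 * (K:ℝ) - P.u a) (y := 2 * (K:ℝ) - Q.u b)
      (by linarith) (by linarith) (by linarith)
    have h' := mul_le_mul_of_nonneg_left h (mul_nonneg fa fb)
    unfold cph
    refine le_trans (le_of_eq ?_) (h'.trans (le_of_eq ?_))
    · ring
    · ring
  -- the product gain
  have ht0 : 0 ≤ A * B := mul_nonneg A0 B0
  have hprod : (A * B) ^ 2 ≤ NL * NR := by
    rw [sq]
    exact mul_le_mul c1 (by rwa [mul_comm B A] at c2) ht0 d1'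
  have herr : 9 / 4 * (NL + NR) ≤ 20 * K := by
    have e1 : NL ≤ 3 * K + 15 / 4 := by
      rw [mul_comm] at d1
      linarith
    linarith
  have hκl : 0 < κ / la := div_pos hκ hla
  have hκe : κ / la * la = κ := div_mul_cancel₀ _ hla.ne'
  have hfin := scalar_core (ρ := (r:ℝ)) (H := la * (K - 4 * r)) (M := 3 * K + 15 / 4)
    (κ := κ / la) (y1 := la * yL) (y2 := la * yR) (G1 := la * G1) (G2 := la * G2)
    (A := A) (B := B) (m1 := mass P) (m2 := mass Q) (by linarith)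
    (mul_pos hla (by linarith)) (by linarith) hκl
    (by rw [← mul_assoc, hκe]; exact hC1)
    (by
      have e1 : 8 * (κ / la) * (la * ((K:ℝ) - 4 * r)) * (3 * K + 15 / 4) ^ 2
          = 8 * (κ / la * la) * (K - 4 * r) * (3 * K + 15 / 4) ^ 2 := by ring
      rw [e1, hκe, ← mul_assoc 6 la]
      exact hC2)
    (by
      have e1 : κ / la * (3 * (K:ℝ) + 15 / 4) = κ * (3 * K + 15 / 4) / la := by ring
      rw [e1, div_le_iff₀ hla]
      have e2 : 24 * (r:ℝ) * (la * (K - 4 * r)) * la = 24 * la ^ 2 * r * (K - 4 * r) := by ring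
      rw [e2]
      exact hC3)
    (by positivity) (by positivity) (by positivity) (by positivity) A0 B0 A1 B1 hm'
    (fun θ h0 h1 => by
      have e1 := mul_le_mul_of_nonneg_left (gg1 θ h0 h1) hla.le
      have e2 : θ * A * (la * ((K:ℝ) - 4 * r) - la * yL) = la * (θ * A * (K - 4 * r - yL)) := by
        ring
      have e3 : mass P * (la * G1) = la * (mass P * G1) := by ring
      rw [e2, e3]
      exact e1)
    (fun θ h0 h1 => by
      have e1 := mul_le_mul_of_nonneg_left (gg2 θ h0 h1) hla.le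
      have e2 : θ * B * (la * ((K:ℝ) - 4 * r) - la * yR) = la * (θ * B * (K - 4 * r - yR)) := by
        ring
      have e3 : mass Q * (la * G2) = la * (mass Q * G2) := by ring
      rw [e2, e3]
      exact e1)
  have hfin' : 3 * r * (A * B) - 2 * (A * B) ^ 2
      ≤ la * coreN P Q K (K - ρ) ρ N + κ * (yL + yR) := by
    have e1 : κ / la * (la * yL + la * yR) = κ / la * la * (yL + yR) := by ring
    rw [e1, hκe] at hfin
    have e2 := mul_le_mul_of_nonneg_left g hla.le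
    linarith
  nlinarith [hprod, hfin', hdef, s1, s2, herr]


end

end MP61673a.W
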