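import Pool.Agent.Mu673.KinkF

/-!
THREE BODIES, form `σ a + τ b + 2 ρ c`, FREE node values, exact conditions (helper56): the
interpolation of `G (σ i + τ j + 2 ρ k)` is above `pl lam (σ a + τ b + 2 ρ c)` at every real
position.
-/

set_option autoImplicit false

namespace MP61673a.Kink

open Finset

noncomputable section

/-- the cubic with Bernstein coefficients `b0, b1, b2, b3` is nonnegative on `[0,1]` -/
def QC (b0 b1 b2 b3 : ℝ) : Prop :=
  ∀ s : ℝ, 0 ≤ s → s ≤ 1 →
    0 ≤ b0 * (1 - s) ^ 3 + 3 * b1 * (s * (1 - s) ^ 2) + 3 * b2 * (s ^ 2 * (1 - s)) + b3 * s ^ 3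

lemma qc_of_nonneg {b0 b1 b2 b3 : ℝ} (h0 : 0 ≤ b0) (h1 : 0 ≤ b1) (h2 : 0 ≤ b2) (h3 : 0 ≤ b3) :
    QC b0 b1 b2 b3 := by
  intro s hs0 hs1
  have hs : 0 ≤ 1 - s := sub_nonneg.2 hs1
  positivity

lemma qc_split {b0 b1 b2 b3 : ℝ}
    (hl : QC b0 ((b0 + b1) / 2) ((b0 + 2 * b1 + b2) / 4) ((b0 + 3 * b1 + 3 * b2 + b3) / 8))
    (hr : QC ((b0 + 3 * b1 + 3 * b2 + b3) / 8) ((b1 + 2 * b2 + b3) / 4) ((b2 + b3) / 2) b3) :
    QC b0 b1 b2 b3 := by
  intro s hs0 hs1
  rcases le_total s (1 / 2) with c | c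
  · have h := hl (2 * s) (by linarith) (by linarith)
    refine h.trans (le_of_eq ?_)
    ring
  · have h := hr (2 * s - 1) (by linarith) (by linarith)
    refine h.trans (le_of_eq ?_)
    ring

/-- two body cells `(1,2)`, any node function -/
def Cell2 (lam G : ℤ → ℝ) : Prop :=
  ∀ (M : ℤ) (s u : ℝ), 0 ≤ s → s ≤ 1 → 0 ≤ u → u ≤ 1 → pl lam (M + s + 2 * u) ≤ bl G M s u

lemma Cell2.of_kinkF {lam G : ℤ → ℝ} (h : KinkF lam G) : Cell2 lam G :=
  fun M _ _ hs0 hs1 hu0 hu1 => kinkF_core h M hs0 hs1 hu0 hu1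

lemma near_pair {m : ℤ} {x : ℝ} (h0 : (m : ℝ) ≤ x) (h1 : x ≤ m + 1) : Near (Icc m (m + 1)) x :=
  near_Icc h0 (by push_cast; exact h1)

lemma sum_hat_pair {m : ℤ} {s : ℝ} (hs0 : 0 ≤ s) (hs1 : s ≤ 1) (F : ℤ → ℝ) :
    ∑ i ∈ Icc m (m + 1), hat i (m + s) * F i = (1 - s) * F m + s * F (m + 1) := by
  have e : Icc m (m + 1) = {m, m + 1} := by
    ext i
    rw [mem_Icc, mem_insert, mem_singleton]
    omega
  rw [e, sum_pair (by omega)]
  have h1 : hat m (m + s) = 1 - s := by
    unfold hat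
    rw [show (m:ℝ) + s - m = s by ring, abs_of_nonneg hs0]
    exact max_eq_right (by linarith)
  have h2 : hat (m + 1) (m + s) = s := by
    unfold hat
    push_cast
    rw [show (m:ℝ) + s - (m + 1) = s - 1 by ring, abs_of_nonpos (by linarith)]
    rw [max_eq_right (by linarith)]
    ring
  rw [h1, h2]

lemma Cell2.of_end {lam G : ℤ → ℝ} (h : EndOK lam G) : Cell2 lam G := by
  intro M s u hs0 hs1 hu0 hu1
  have k := h.add (I := Icc M (M + 1)) (J := Icc 0 (0 + 1)) (c := M + s) (d := ((0:ℤ):ℝ) + u)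
    (near_pair (by linarith) (by linarith)) (near_pair (by linarith) (by push_cast; linarith))
  have e1 : ∑ i ∈ Icc M (M + 1), ∑ j ∈ Icc (0:ℤ) (0 + 1),
      hat i (M + s) * hat j (((0:ℤ):ℝ) + u) * G (2 * j + i) = bl G M s u := by
    have e2 : ∀ i ∈ Icc M (M + 1), ∑ j ∈ Icc (0:ℤ) (0 + 1),
        hat i (M + s) * hat j (((0:ℤ):ℝ) + u) * G (2 * j + i)
        = hat i (M + s) * ((1 - u) * G (2 * 0 + i) + u * G (2 * (0 + 1) + i)) := by
      intro i _
      rw [← sum_hat_pair hu0 hu1 (fun j => G (2 * j + i)), mul_sum]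
      exact sum_congr rfl fun j _ => by ring
    rw [sum_congr rfl e2, sum_hat_pair hs0 hs1 (fun i => (1 - u) * G (2 * 0 + i)
      + u * G (2 * (0 + 1) + i))]
    unfold bl
    rw [show 2 * 0 + M = M by ring, show 2 * (0 + 1) + M = M + 2 by ring,
      show 2 * 0 + (M + 1) = M + 1 by ring, show 2 * (0 + 1) + (M + 1) = M + 3 by ring]
    ring
  rw [e1] at k
  refine le_trans (le_of_eq ?_) k
  congr 1
  push_cast
  ring

/-- interpolation in two bodies with coefficients `1, 1` -/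
def e2 (G : ℤ → ℝ) (M : ℤ) (s u : ℝ) : ℝ :=
  (1 - s) * (1 - u) * G M + (s * (1 - u) + (1 - s) * u) * G (M + 1) + s * u * G (M + 2)

/-- interpolation in three bodies with coefficients `1, 1, 2` -/
def t3 (G : ℤ → ℝ) (M : ℤ) (s u w : ℝ) : ℝ := (1 - w) * e2 G M s u + w * e2 G (M + 2) s u

/-- EXACT CONDITIONS for three bodies -/
structure Fre3 (lam G : ℤ → ℝ) : Prop where
  cell : Cell2 lam G
  le : ∀ m, lam m ≤ G m
  sum : ∀ m, 4 * lam m ≤ G (m - 1) + 2 * G m + G (m + 1)
  l1 : ∀ m, QC ((G (m - 1) + G (m + 1)) / 2 - lam m)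
    ((3 * G (m - 1) + G m + G (m + 1) + G (m + 2)) / 6 - lam m)
    ((9 * G (m - 1) + 10 * G m + 2 * G (m + 1) + 2 * G (m + 2) + G (m + 3)) / 24 - lam m)
    ((G (m - 1) + 2 * G m + G (m + 1)) / 4 - lam m)
  l2 : ∀ m, QC (G m - lam m) ((G (m - 2) + 2 * G (m + 1)) / 3 - lam m)
    ((2 * G (m - 1) + G (m + 2)) / 3 - lam m) (G m - lam m)
  l3 : ∀ m, QC ((G (m + 1) + G (m - 1)) / 2 - lam m)
    ((3 * G (m + 1) + G m + G (m - 1) + G (m - 2)) / 6 - lam m)
    ((9 * G (m + 1) + 10 * G m + 2 * G (m - 1) + 2 * G (m - 2) + G (m - 3)) / 24 - lam m)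
    ((G (m + 1) + 2 * G m + G (m - 1)) / 4 - lam m)

/-- edge rule on the diagonal -/
lemma e2_ge {lam G : ℤ → ℝ} (h : Fre3 lam G) (M : ℤ) {v : ℝ} (hv0 : 0 ≤ v) (hv1 : v ≤ 1 / 2) :
    (1 - 2 * v) * lam M + 2 * v * lam (M + 1) ≤ e2 G M v v := by
  have g0 := h.le M
  have g1 := h.le (M + 1)
  have g2 := h.sum (M + 1)
  rw [show M + 1 - 1 = M by ring, show M + 1 + 1 = M + 2 by ring] at g2
  have w : 0 ≤ 1 - 2 * v := by linarith
  have a0 := mul_nonneg (mul_nonneg w w) (sub_nonneg.2 g0)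
  have a1 := mul_nonneg (mul_nonneg w hv0) (sub_nonneg.2 g0)
  have a2 := mul_nonneg (mul_nonneg w hv0) (sub_nonneg.2 g1)
  have a3 := mul_nonneg (mul_nonneg hv0 hv0) (sub_nonneg.2 g2)
  have e : e2 G M v v - ((1 - 2 * v) * lam M + 2 * v * lam (M + 1))
      = (1 - 2 * v) * (1 - 2 * v) * (G M - lam M) + 2 * ((1 - 2 * v) * v * (G M - lam M))
        + 2 * ((1 - 2 * v) * v * (G (M + 1) - lam (M + 1)))
        + v * v * (G M + 2 * G (M + 1) + G (M + 2) - 4 * lam (M + 1)) := by
    unfold e2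
    ring
  linarith

/-- diagonal, first half -/
lemma diag_half {lam G : ℤ → ℝ} (h : Fre3 lam G) (M : ℤ) {v w : ℝ} (hv0 : 0 ≤ v)
    (hv1 : v ≤ 1 / 2) (hw0 : 0 ≤ w) (hw1 : w ≤ 1) :
    pl lam (M + 2 * v + 2 * w) ≤ t3 G M v v w := by
  have E0 := e2_ge h M hv0 hv1
  have E1 := e2_ge h (M + 2) hv0 hv1
  have L1 : lam (M + 1) ≤ t3 G M v v (1 / 2 - v) := by
    have q := h.l1 (M + 1) (2 * v) (by linarith) (by linarith)
    rw [show M + 1 - 1 = M by ring, show M + 1 + 1 = M + 2 by ring,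
      show M + 1 + 2 = M + 3 by ring, show M + 1 + 3 = M + 4 by ring] at q
    refine le_of_sub_nonneg (q.trans (le_of_eq ?_))
    unfold t3 e2
    rw [show M + 2 + 1 = M + 3 by ring, show M + 2 + 2 = M + 4 by ring]
    ring
  have L2 : lam (M + 2) ≤ t3 G M v v (1 - v) := by
    have q := h.l2 (M + 2) v hv0 (by linarith)
    rw [show M + 2 - 2 = M by ring, show M + 2 - 1 = M + 1 by ring,
      show M + 2 + 1 = M + 3 by ring, show M + 2 + 2 = M + 4 by ring] at q
    refine le_of_sub_nonneg (q.trans (le_of_eq ?_))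
    unfold t3 e2
    rw [show M + 2 + 1 = M + 3 by ring, show M + 2 + 2 = M + 4 by ring]
    ring
  rcases le_total (v + w) (1 / 2) with c | c
  · -- first strip
    have hx := pl_of_mem lam (k := M) (x := M + 2 * v + 2 * w) (by linarith) (by linarith)
    rw [hx]
    rcases eq_or_lt_of_le hv1 with e | e
    · have hw : w = 0 := by linarith
      subst hw
      have e1 : t3 G M v v 0 = e2 G M v v := by
        unfold t3
        ring
      rw [e1]
      refine le_trans (le_of_eq ?_) E0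
      ring
    · have a1 := mul_nonneg (by linarith : 0 ≤ 1 / 2 - v - w) (sub_nonneg.2 E0)
      have a2 := mul_nonneg hw0 (sub_nonneg.2 L1)
      refine le_of_sub_nonneg (nonneg_of_mul_nonneg_right (a := 1 / 2 - v) ?_ (by linarith))
      have e3 : (1 / 2 - v) * (t3 G M v v w - (((M:ℝ) + 1 - (M + 2 * v + 2 * w)) * lam M
            + ((M:ℝ) + 2 * v + 2 * w - M) * lam (M + 1)))
          = (1 / 2 - v - w) * (e2 G M v v - ((1 - 2 * v) * lam M + 2 * v * lam (M + 1)))
            + w * (t3 G M v v (1 / 2 - v) - lam (M + 1)) := by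
        unfold t3
        ring
      rw [e3]
      linarith
  · rcases le_total (v + w) 1 with c' | c'
    · -- middle strip
      have hx := pl_of_mem lam (k := M + 1) (x := M + 2 * v + 2 * w) (by push_cast; linarith)
        (by push_cast; linarith)
      rw [hx, show M + 1 + 1 = M + 2 by ring]
      have a1 := mul_nonneg (by linarith : 0 ≤ 2 - 2 * v - 2 * w) (sub_nonneg.2 L1)
      have a2 := mul_nonneg (by linarith : 0 ≤ 2 * v + 2 * w - 1) (sub_nonneg.2 L2)
      have e3 : t3 G M v v w - ((((M + 1 : ℤ) : ℝ) + 1 - (M + 2 * v + 2 * w)) * lam (M + 1)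
            + ((M:ℝ) + 2 * v + 2 * w - ((M + 1 : ℤ) : ℝ)) * lam (M + 2))
          = (2 - 2 * v - 2 * w) * (t3 G M v v (1 / 2 - v) - lam (M + 1))
            + (2 * v + 2 * w - 1) * (t3 G M v v (1 - v) - lam (M + 2)) := by
        unfold t3
        push_cast
        ring
      linarith
    · -- last strip
      have hx := pl_of_mem lam (k := M + 2) (x := M + 2 * v + 2 * w) (by push_cast; linarith)
        (by push_cast; linarith)
      rw [hx, show M + 2 + 1 = M + 3 by ring]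
      rw [show M + 2 + 1 = M + 3 by ring] at E1
      rcases eq_or_lt_of_le hv0 with e | e
      · have hw : w = 1 := by linarith
        subst hw
        have e1 : t3 G M v v 1 = e2 G (M + 2) v v := by
          unfold t3
          ring
        rw [e1]
        refine le_trans (le_of_eq ?_) E1
        rw [← e]
        push_cast
        ring
      · have a1 := mul_nonneg (by linarith : 0 ≤ 1 - w) (sub_nonneg.2 L2)
        have a2 := mul_nonneg (by linarith : 0 ≤ w - (1 - v)) (sub_nonneg.2 E1)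
        refine le_of_sub_nonneg (nonneg_of_mul_nonneg_right (a := v) ?_ e)
        have e3 : v * (t3 G M v v w - ((((M + 2 : ℤ) : ℝ) + 1 - (M + 2 * v + 2 * w)) * lam (M + 2)
              + ((M:ℝ) + 2 * v + 2 * w - ((M + 2 : ℤ) : ℝ)) * lam (M + 3)))
            = (1 - w) * (t3 G M v v (1 - v) - lam (M + 2))
              + (w - (1 - v)) * (e2 G (M + 2) v v
                - ((1 - 2 * v) * lam (M + 2) + 2 * v * lam (M + 3))) := by
          unfold t3
          push_cast
          ring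
        rw [e3]
        linarith

/-- reflection of a piecewise linear function -/
lemma pl_neg (lam : ℤ → ℝ) (x : ℝ) : pl (fun m => lam (-m)) (-x) = pl lam x := by
  have h0 := Int.fract_nonneg x
  have h1 := Int.fract_lt_one x
  have h2 := Int.floor_add_fract x
  have hx := pl_of_mem (fun m => lam (-m)) (k := -⌊x⌋ - 1) (x := -x) (by push_cast; linarith)
    (by push_cast; linarith)
  rw [hx]
  beta_reduce
  rw [show -(-⌊x⌋ - 1) = ⌊x⌋ + 1 by ring, show -(-⌊x⌋ - 1 + 1) = ⌊x⌋ by ring]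
  unfold pl
  push_cast
  have e : Int.fract x = x - ⌊x⌋ := by linarith
  rw [e]
  ring

lemma Cell2.reflect {lam G : ℤ → ℝ} (h : Cell2 lam G) :
    Cell2 (fun m => lam (-m)) (fun m => G (-m)) := by
  intro M s u hs0 hs1 hu0 hu1
  have k := h (-M - 3) (1 - s) (1 - u) (by linarith) (by linarith) (by linarith) (by linarith)
  have e := pl_neg lam (-(M + s + 2 * u))
  rw [neg_neg] at e
  rw [e]
  have e1 : -((M:ℝ) + s + 2 * u) = ((-M - 3 : ℤ) : ℝ) + (1 - s) + 2 * (1 - u) := by
    push_cast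
    ring
  rw [e1]
  refine k.trans (le_of_eq ?_)
  unfold bl
  beta_reduce
  rw [show -M - 3 + 1 = -(M + 2) by ring, show -M - 3 + 2 = -(M + 1) by ring,
    show -M - 3 + 3 = -M by ring, show -M - 3 = -(M + 3) by ring]
  ring

lemma Fre3.reflect {lam G : ℤ → ℝ} (h : Fre3 lam G) :
    Fre3 (fun m => lam (-m)) (fun m => G (-m)) where
  cell := h.cell.reflect
  le := fun m => h.le (-m)
  sum := fun m => by
    have := h.sum (-m)
    beta_reduce
    rw [show -(m - 1) = -m + 1 by ring, show -(m + 1) = -m - 1 by ring]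
    linarith
  l1 := fun m => by
    have := h.l3 (-m)
    beta_reduce
    rw [show -(m - 1) = -m + 1 by ring, show -(m + 1) = -m - 1 by ring,
      show -(m + 2) = -m - 2 by ring, show -(m + 3) = -m - 3 by ring]
    exact this
  l2 := fun m => by
    have := h.l2 (-m)
    beta_reduce
    rw [show -(m - 1) = -m + 1 by ring, show -(m + 1) = -m - 1 by ring,
      show -(m + 2) = -m - 2 by ring, show -(m - 2) = -m + 2 by ring]
    intro s hs0 hs1
    have k := this (1 - s) (by linarith) (by linarith)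
    refine k.trans (le_of_eq ?_)
    ring
  l3 := fun m => by
    have := h.l1 (-m)
    beta_reduce
    rw [show -(m - 1) = -m + 1 by ring, show -(m + 1) = -m - 1 by ring,
      show -(m - 2) = -m + 2 by ring, show -(m - 3) = -m + 3 by ring]
    exact this

lemma diag_all {lam G : ℤ → ℝ} (h : Fre3 lam G) (M : ℤ) {v w : ℝ} (hv0 : 0 ≤ v)
    (hv1 : v ≤ 1) (hw0 : 0 ≤ w) (hw1 : w ≤ 1) :
    pl lam (M + 2 * v + 2 * w) ≤ t3 G M v v w := by
  rcases le_total v (1 / 2) with c | c
  · exact diag_half h M hv0 c hw0 hw1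
  · have k := diag_half h.reflect (-M - 4) (v := 1 - v) (w := 1 - w) (by linarith) (by linarith)
      (by linarith) (by linarith)
    have e1 : ((-M - 4 : ℤ) : ℝ) + 2 * (1 - v) + 2 * (1 - w) = -((M:ℝ) + 2 * v + 2 * w) := by
      push_cast
      ring
    rw [e1, pl_neg] at k
    refine k.trans (le_of_eq ?_)
    unfold t3 e2
    beta_reduce
    rw [show -M - 4 + 2 + 1 = -(M + 1) by ring, show -M - 4 + 2 + 2 = -M by ring,
      show -M - 4 + 1 = -(M + 3) by ring, show -M - 4 + 2 = -(M + 2) by ring,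
      show -M - 4 = -(M + 4) by ring, show M + 2 + 1 = M + 3 by ring,
      show M + 2 + 2 = M + 4 by ring]
    simp only [neg_neg]
    ring

/-- THE CUBE -/
theorem cube_le {lam G : ℤ → ℝ} (h : Fre3 lam G) (M : ℤ) {s u w : ℝ} (hs0 : 0 ≤ s) (hs1 : s ≤ 1)
    (hu0 : 0 ≤ u) (hu1 : u ≤ 1) (hw0 : 0 ≤ w) (hw1 : w ≤ 1) :
    pl lam (M + s + u + 2 * w) ≤ t3 G M s u w := by
  set κ : ℝ := (1 - w) * (G M + G (M + 2) - 2 * G (M + 1))
    + w * (G (M + 2) + G (M + 4) - 2 * G (M + 3)) with hκ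
  rcases le_total 0 κ with c | c
  · rcases le_total (s + u) 1 with d | d
    · have k := h.cell M (s + u) w (by linarith) d hw0 hw1
      have e : t3 G M s u w = bl G M (s + u) w + κ * (s * u) := by
        rw [hκ]
        unfold t3 e2 bl
        rw [show M + 2 + 1 = M + 3 by ring, show M + 2 + 2 = M + 4 by ring]
        ring
      have a := mul_nonneg c (mul_nonneg hs0 hu0)
      rw [e, show (M:ℝ) + s + u + 2 * w = M + (s + u) + 2 * w by ring]
      linarith
    · have k := h.cell (M + 1) (s + u - 1) w (by linarith) (by linarith) hw0 hw1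
      have e : t3 G M s u w = bl G (M + 1) (s + u - 1) w + κ * ((1 - s) * (1 - u)) := by
        rw [hκ]
        unfold t3 e2 bl
        rw [show M + 2 + 1 = M + 3 by ring, show M + 2 + 2 = M + 4 by ring,
          show M + 1 + 1 = M + 2 by ring, show M + 1 + 2 = M + 3 by ring,
          show M + 1 + 3 = M + 4 by ring]
        ring
      have a := mul_nonneg c (mul_nonneg (sub_nonneg.2 hs1) (sub_nonneg.2 hu1))
      rw [e]
      have e1 : ((M + 1 : ℤ) : ℝ) + (s + u - 1) + 2 * w = M + s + u + 2 * w := by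
        push_cast
        ring
      rw [e1] at k
      linarith
  · have k := diag_all h M (v := (s + u) / 2) (w := w) (by linarith) (by linarith) hw0 hw1
    have e : t3 G M s u w = t3 G M ((s + u) / 2) ((s + u) / 2) w - κ * ((s - u) ^ 2 / 4) := by
      rw [hκ]
      unfold t3 e2
      rw [show M + 2 + 1 = M + 3 by ring, show M + 2 + 2 = M + 4 by ring]
      ring
    have a := mul_nonneg (neg_nonneg.2 c) (by positivity : 0 ≤ (s - u) ^ 2 / 4)
    rw [e]
    have e1 : (M:ℝ) + 2 * ((s + u) / 2) + 2 * w = M + s + u + 2 * w := by ring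
    rw [e1] at k
    linarith

/-- THREE BODIES, ALL SIGNS -/
theorem fre3_le {lam G : ℤ → ℝ} (h : Fre3 lam G) {I J K : Finset ℤ} {a b c : ℝ} (hI : Near I a)
    (hJ : Near J b) (hK : Near K c) {σ τ ρ : ℤ} (hσ : σ = 1 ∨ σ = -1) (hτ : τ = 1 ∨ τ = -1)
    (hρ : ρ = 1 ∨ ρ = -1) :
    pl lam (σ * a + τ * b + 2 * (ρ * c))
      ≤ ∑ i ∈ I, ∑ j ∈ J, ∑ k ∈ K, hat i a * hat j b * hat k c
          * G (σ * i + τ * j + 2 * (ρ * k)) := by
  obtain ⟨m, n, p, s, u, w, hs0, hs1, hu0, hu1, hw0, hw1, e1, e2', e3, g⟩ :=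
    sum3_sign hI hJ hK hσ hτ hρ
  rw [g (fun i j k => G (i + j + 2 * k))]
  have h0 := cube_le h (m + n + 2 * p) hs0 hs1 hu0 hu1 hw0 hw1
  rw [← e1, ← e2', ← e3]
  have e4 : ((m + n + 2 * p : ℤ) : ℝ) + s + u + 2 * w = m + s + (n + u) + 2 * (p + w) := by
    push_cast
    ring
  rw [e4] at h0
  refine h0.trans (le_of_eq ?_)
  unfold t3 e2
  beta_reduce
  rw [show m + n + 2 * (p + 1) = m + n + 2 * p + 2 by ring,
    show m + (n + 1) + 2 * p = m + n + 2 * p + 1 by ring,
    show m + (n + 1) + 2 * (p + 1) = m + n + 2 * p + 2 + 1 by ring,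
    show m + 1 + n + 2 * p = m + n + 2 * p + 1 by ring,
    show m + 1 + n + 2 * (p + 1) = m + n + 2 * p + 2 + 1 by ring,
    show m + 1 + (n + 1) + 2 * p = m + n + 2 * p + 2 by ring,
    show m + 1 + (n + 1) + 2 * (p + 1) = m + n + 2 * p + 2 + 2 by ring]
  ring

/-! ### Integer checks -/

lemma qc_scale {k b0 b1 b2 b3 : ℝ} (hk : 0 < k) (h : QC (k * b0) (k * b1) (k * b2) (k * b3)) :
    QC b0 b1 b2 b3 := by
  intro s hs0 hs1
  have q := h s hs0 hs1
  have e : k * b0 * (1 - s) ^ 3 + 3 * (k * b1) * (s * (1 - s) ^ 2)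
      + 3 * (k * b2) * (s ^ 2 * (1 - s)) + k * b3 * s ^ 3
      = k * (b0 * (1 - s) ^ 3 + 3 * b1 * (s * (1 - s) ^ 2) + 3 * b2 * (s ^ 2 * (1 - s))
        + b3 * s ^ 3) := by ring
  rw [e] at q
  exact nonneg_of_mul_nonneg_right q hk

lemma qn_scale {k b0 b1 b2 : ℝ} (hk : 0 < k) (h : QN (k * b0) (k * b1) (k * b2)) :
    QN b0 b1 b2 := by
  intro s hs0 hs1
  have q := h s hs0 hs1
  have e : k * b0 * (1 - s) ^ 2 + 2 * (k * b1) * (s * (1 - s)) + k * b2 * s ^ 2
      = k * (b0 * (1 - s) ^ 2 + 2 * b1 * (s * (1 - s)) + b2 * s ^ 2) := by ring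
  rw [e] at q
  exact nonneg_of_mul_nonneg_right q hk

/-- cubic nonnegative by `n` levels of subdivision -/
def qcB : ℕ → ℤ → ℤ → ℤ → ℤ → Bool
  | 0, a, b, c, d => decide (0 ≤ a) && decide (0 ≤ b) && decide (0 ≤ c) && decide (0 ≤ d)
  | n + 1, a, b, c, d =>
    (decide (0 ≤ a) && decide (0 ≤ b) && decide (0 ≤ c) && decide (0 ≤ d)) ||
      (qcB n (8 * a) (4 * (a + b)) (2 * (a + 2 * b + c)) (a + 3 * b + 3 * c + d) &&
        qcB n (a + 3 * b + 3 * c + d) (2 * (b + 2 * c + d)) (4 * (c + d)) (8 * d))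

lemma qc_of_qcB : ∀ (n : ℕ) {a b c d : ℤ}, qcB n a b c d = true → QC a b c d := by
  intro n
  induction n with
  | zero =>
    intro a b c d h
    unfold qcB at h
    simp only [Bool.and_eq_true, decide_eq_true_eq] at h
    exact qc_of_nonneg (by exact_mod_cast h.1.1.1) (by exact_mod_cast h.1.1.2)
      (by exact_mod_cast h.1.2) (by exact_mod_cast h.2)
  | succ n ih =>
    intro a b c d h
    unfold qcB at h
    simp only [Bool.or_eq_true, Bool.and_eq_true, decide_eq_true_eq] at h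
    rcases h with h | h
    · exact qc_of_nonneg (by exact_mod_cast h.1.1.1) (by exact_mod_cast h.1.1.2)
        (by exact_mod_cast h.1.2) (by exact_mod_cast h.2)
    · have k1 := ih h.1
      have k2 := ih h.2
      push_cast at k1 k2
      refine qc_split (qc_scale (k := 8) (by norm_num) ?_) (qc_scale (k := 8) (by norm_num) ?_)
      · convert k1 using 1 <;> ring
      · convert k2 using 1 <;> ring

/-- quadratic nonnegative by `n` levels of subdivision -/
def qnB : ℕ → ℤ → ℤ → ℤ → Bool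
  | 0, a, b, c => decide (0 ≤ a) && decide (0 ≤ b) && decide (0 ≤ c)
  | n + 1, a, b, c =>
    (decide (0 ≤ a) && decide (0 ≤ b) && decide (0 ≤ c)) ||
      (qnB n (4 * a) (2 * (a + b)) (a + 2 * b + c) &&
        qnB n (a + 2 * b + c) (2 * (b + c)) (4 * c))

lemma qn_of_qnB : ∀ (n : ℕ) {a b c : ℤ}, qnB n a b c = true → QN a b c := by
  intro n
  induction n with
  | zero =>
    intro a b c h
    unfold qnB at h
    simp only [Bool.and_eq_true, decide_eq_true_eq] at h
    exact qn_of_nonneg (by exact_mod_cast h.1.1) (by exact_mod_cast h.1.2)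
      (by exact_mod_cast h.2)
  | succ n ih =>
    intro a b c h
    unfold qnB at h
    simp only [Bool.or_eq_true, Bool.and_eq_true, decide_eq_true_eq] at h
    rcases h with h | h
    · exact qn_of_nonneg (by exact_mod_cast h.1.1) (by exact_mod_cast h.1.2)
        (by exact_mod_cast h.2)
    · have k1 := ih h.1
      have k2 := ih h.2
      push_cast at k1 k2
      refine qn_split (qn_scale (k := 4) (by norm_num) ?_) (qn_scale (k := 4) (by norm_num) ?_)
      · convert k1 using 1 <;> ring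
      · convert k2 using 1 <;> ring

end

end MP61673a.Kink
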