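import Pool.Agent.Mu673.BaryX
import Pool.Agent.Mu673.KinkT

/-!
PART CALCULUS (helper31). A functional of three points of a frame is bounded PART BY PART by the
interpolation of a node table; the node inequality for the sum of the tables gives the pointwise
inequality. Robust versions (`O(1/D)` errors of the positions) of the piecewise linear functions.
-/

set_option autoImplicit false

namespace MP61673a.FE

open Finset MP61673a.Kink MP61673a.Bary MP61673a.Sos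

noncomputable section

/-! ### Frames -/

/-- classes and coordinates (in node units) of the points -/
structure Grd (X C : Type) where
  /-- admissible points -/
  ok : X → Prop
  /-- class -/
  cl : X → C
  /-- coordinate -/
  J : X → ℝ
  /-- first node of the class -/
  lo : C → ℤ
  /-- last node of the class -/
  hi : C → ℤ
  reg : ∀ x, ok x → (lo (cl x) : ℝ) ≤ J x ∧ J x ≤ hi (cl x)

variable {X C : Type}

namespace Grd

/-- typed real point -/
def pt (G : Grd X C) (x : X) : C × ℝ := (G.cl x, G.J x)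

lemma regX (G : Grd X C) {x : X} (h : G.ok x) : RegX G.lo G.hi (G.pt x) := G.reg x h

/-- the functional `Φ` is at most the interpolation of `T`, up to `ε` -/
def Part (G : Grd X C) (Φ : X → X → X → ℝ) (T : C × ℤ → C × ℤ → C × ℤ → ℝ) (ε : ℝ) : Prop :=
  ∀ x y z, G.ok x → G.ok y → G.ok z →
    Φ x y z ≤ TX G.lo G.hi T (G.pt x) (G.pt y) (G.pt z) + ε

/-- the same for a family of pair functions indexed by the nodes of the sampler -/
def PairP (G : Grd X C) (Ψ : C × ℤ → X → X → ℝ) (W : C × ℤ → C × ℤ → C × ℤ → ℝ) (ε : ℝ) : Prop :=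
  ∀ ζ : C × ℤ, ζ.2 ∈ nd G.lo G.hi ζ.1 → ∀ y z, G.ok y → G.ok z →
    Ψ ζ y z ≤ nX G.lo G.hi (W ζ) (G.pt y) (G.pt z) + ε

/-- the same for functions of one point -/
def OneP (G : Grd X C) (u : X → ℝ) (a : C × ℤ → ℝ) (ε : ℝ) : Prop :=
  ∀ x, G.ok x → u x ≤ kX G.lo G.hi a (G.pt x) + ε

variable {G : Grd X C}

lemma Part.add {Φ Φ' : X → X → X → ℝ} {T T' : C × ℤ → C × ℤ → C × ℤ → ℝ} {ε ε' : ℝ}
    (h : G.Part Φ T ε) (h' : G.Part Φ' T' ε') :
    G.Part (fun x y z => Φ x y z + Φ' x y z) (fun a b c => T a b c + T' a b c) (ε + ε') := by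
  intro x y z hx hy hz
  have h1 := h x y z hx hy hz
  have h2 := h' x y z hx hy hz
  rw [TX_add]
  linarith

lemma Part.smul {Φ : X → X → X → ℝ} {T : C × ℤ → C × ℤ → C × ℤ → ℝ} {ε r : ℝ} (hr : 0 ≤ r)
    (h : G.Part Φ T ε) :
    G.Part (fun x y z => r * Φ x y z) (fun a b c => r * T a b c) (r * ε) := by
  intro x y z hx hy hz
  have h1 := mul_le_mul_of_nonneg_left (h x y z hx hy hz) hr
  rw [TX_smul]
  linarith

lemma Part.congr {Φ Φ' : X → X → X → ℝ} {T : C × ℤ → C × ℤ → C × ℤ → ℝ} {ε ε' : ℝ}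
    (h : G.Part Φ T ε) (e : ∀ x y z, G.ok x → G.ok y → G.ok z → Φ' x y z ≤ Φ x y z)
    (hε : ε ≤ ε') : G.Part Φ' T ε' := by
  intro x y z hx hy hz
  have h1 := h x y z hx hy hz
  have h2 := e x y z hx hy hz
  linarith

lemma Part.mono {Φ : X → X → X → ℝ} {T T' : C × ℤ → C × ℤ → C × ℤ → ℝ} {ε : ℝ}
    (h : G.Part Φ T ε) (e : ∀ a b c : C × ℤ, a.2 ∈ nd G.lo G.hi a.1 → b.2 ∈ nd G.lo G.hi b.1 →
      c.2 ∈ nd G.lo G.hi c.1 → T a b c ≤ T' a b c) : G.Part Φ T' ε := by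
  intro x y z hx hy hz
  have h1 := h x y z hx hy hz
  have h2 := TX_mono (lo := G.lo) (hi := G.hi) (f := T) (g := T') (z := G.pt x) (a := G.pt y)
    (b := G.pt z) (fun i hi' j hj k hk => e _ _ _ hi' hj hk)
  linarith

lemma Part.sum {ι : Type*} (I : Finset ι) {Φ : ι → X → X → X → ℝ}
    {T : ι → C × ℤ → C × ℤ → C × ℤ → ℝ} {ε : ι → ℝ} (h : ∀ i ∈ I, G.Part (Φ i) (T i) (ε i)) :
    G.Part (fun x y z => ∑ i ∈ I, Φ i x y z) (fun a b c => ∑ i ∈ I, T i a b c)
      (∑ i ∈ I, ε i) := by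
  intro x y z hx hy hz
  rw [TX_sum, ← sum_add_distrib]
  exact sum_le_sum fun i hi' => h i hi' x y z hx hy hz

/-- the zero part -/
lemma Part.zero : G.Part (fun _ _ _ => 0) (fun _ _ _ => 0) 0 := by
  intro x y z _ _ _
  unfold TX
  simp

/-- exchange of the last two points -/
lemma Part.swap {Φ : X → X → X → ℝ} {T : C × ℤ → C × ℤ → C × ℤ → ℝ} {ε : ℝ}
    (h : G.Part Φ T ε) : G.Part (fun x y z => Φ x z y) (fun a b c => T a c b) ε := by
  intro x y z hx hy hz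
  have h1 := h x z y hx hz hy
  rw [TX_swap23] at h1
  exact h1

lemma OneP.part {u : X → ℝ} {a : C × ℤ → ℝ} {ε : ℝ} (h : G.OneP u a ε) :
    G.Part (fun x _ _ => u x) (fun z _ _ => a z) ε := by
  intro x y z hx hy hz
  rw [TX_one1 a (G.pt x) (G.regX hy) (G.regX hz)]
  exact h x hx

lemma PairP.part {Ψ : C × ℤ → X → X → ℝ} {W : C × ℤ → C × ℤ → C × ℤ → ℝ} {ε : ℝ}
    (h : G.PairP Ψ W ε) :
    G.Part (fun x y z => kX G.lo G.hi (fun ζ => Ψ ζ y z) (G.pt x)) W ε := by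
  intro x y z hx hy hz
  have hr := G.regX hx
  rw [TX_nX]
  have e : kX G.lo G.hi (fun ζ => Ψ ζ y z) (G.pt x)
      ≤ ∑ i ∈ nd G.lo G.hi (G.pt x).1, hat i (G.pt x).2
        * (nX G.lo G.hi (W ((G.pt x).1, i)) (G.pt y) (G.pt z) + ε) := by
    unfold kX
    exact sum_le_sum fun i hi' => mul_le_mul_of_nonneg_left (h _ hi' y z hy hz) (hat_nonneg _ _)
  refine e.trans (le_of_eq ?_)
  simp only [mul_add]
  rw [sum_add_distrib, ← sum_mul, hr.one, one_mul]

lemma PairP.add {Ψ Ψ' : C × ℤ → X → X → ℝ} {W W' : C × ℤ → C × ℤ → C × ℤ → ℝ} {ε ε' : ℝ}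
    (h : G.PairP Ψ W ε) (h' : G.PairP Ψ' W' ε') :
    G.PairP (fun ζ y z => Ψ ζ y z + Ψ' ζ y z) (fun a b c => W a b c + W' a b c) (ε + ε') := by
  intro ζ hζ y z hy hz
  have h1 := h ζ hζ y z hy hz
  have h2 := h' ζ hζ y z hy hz
  rw [nX_add]
  linarith

/-- products of a function of one point which IS an interpolation with an arbitrary function -/
lemma part_mul {u : X → ℝ} {a : C × ℤ → ℝ} (hu : ∀ x, G.ok x → u x = kX G.lo G.hi a (G.pt x))
    (Ψ : X → X → ℝ) {W : C × ℤ → C × ℤ → C × ℤ → ℝ} {ε : ℝ}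
    (h : G.PairP (fun ζ y z => a ζ * Ψ y z) W ε) :
    G.Part (fun x y z => u x * Ψ y z) W ε := by
  refine h.part.congr (fun x y z hx hy hz => le_of_eq ?_) le_rfl
  rw [hu x hx]
  unfold kX
  rw [sum_mul]
  exact sum_congr rfl fun i _ => by ring

/-- exact products: `l x * nu y z` -/
lemma part_prod {l : X → ℝ} {a : C × ℤ → ℝ} (hl : ∀ x, G.ok x → l x = kX G.lo G.hi a (G.pt x))
    (nu : C × ℤ → C × ℤ → ℝ) :
    G.Part (fun x y z => l x * nX G.lo G.hi nu (G.pt y) (G.pt z)) (fun x y z => a x * nu y z)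
      0 := by
  intro x y z hx hy hz
  rw [TX_prod, add_zero]
  beta_reduce
  rw [hl x hx]

/-- THE POINTWISE INEQUALITY FROM THE NODE INEQUALITY -/
theorem point_of_part {W : Finset ℤ} (hW : ∀ c, nd G.lo G.hi c ⊆ W)
    {F : X → X → X → ℝ} {T : C × ℤ → C × ℤ → C × ℤ → ℝ} {ε : ℝ}
    (h : G.Part (fun x y z => -F x y z) T ε) {p : ℕ} {sg : Fin p → C × ℤ → C × ℤ → ℝ} {B : ℝ}
    (hnode : ∀ z a b : C × ℤ, z.2 ∈ nd G.lo G.hi z.1 → a.2 ∈ nd G.lo G.hi a.1 →
      b.2 ∈ nd G.lo G.hi b.1 → sym6 T z a b + 2 * sq3 univ sg z a b ≤ B) :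
    ∃ (m : ℕ) (s : Fin m → X → X → ℝ), ∀ x y z, G.ok x → G.ok y → G.ok z →
      2 * sq3 univ s x y z ≤ sym6 F x y z + (6 * ε + B) := by
  obtain ⟨m, s, hs⟩ := bridgeX_fin (lo := G.lo) (hi := G.hi) hW (F := TX G.lo G.hi T)
    (Fn := T) (sg := sg) (B := B) (fun _ _ _ _ _ _ => le_rfl) hnode
  refine ⟨m, fun q x y => s q (G.pt x) (G.pt y), fun x y z hx hy hz => ?_⟩
  have h0 := hs (G.pt x) (G.pt y) (G.pt z) (G.regX hx) (G.regX hy) (G.regX hz)
  have e : sq3 univ (fun q x y => s q (G.pt x) (G.pt y)) x y z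
      = sq3 univ s (G.pt x) (G.pt y) (G.pt z) := rfl
  rw [e]
  have i1 := h x y z hx hy hz
  have i2 := h x z y hx hz hy
  have i3 := h y x z hy hx hz
  have i4 := h y z x hy hz hx
  have i5 := h z x y hz hx hy
  have i6 := h z y x hz hy hx
  unfold sym6 at h0 ⊢
  linarith

end Grd

/-! ### Robust piecewise linear functions -/

lemma pl_abs_le {f : ℤ → ℝ} {B : ℝ} (hB : ∀ m, |f m| ≤ B) (x : ℝ) : |pl f x| ≤ B := by
  have h0 := Int.fract_nonneg x
  have h1 := Int.fract_lt_one x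
  have a := abs_le.1 (hB ⌊x⌋)
  have b := abs_le.1 (hB (⌊x⌋ + 1))
  unfold pl
  rw [abs_le]
  constructor <;> nlinarith

/-- one cell -/
lemma pl_lip_cell {f : ℤ → ℝ} {B : ℝ} (hB : ∀ m, |f m| ≤ B) {k : ℤ} {x y : ℝ} (hx : (k:ℝ) ≤ x)
    (hxy : x ≤ y) (hy : y ≤ k + 1) : |pl f x - pl f y| ≤ 2 * B * (y - x) := by
  rw [pl_of_mem f hx (by linarith), pl_of_mem f (by linarith) hy]
  have a := abs_le.1 (hB k)
  have b := abs_le.1 (hB (k + 1))
  have e : (k + 1 - x) * f k + (x - k) * f (k + 1) - ((k + 1 - y) * f k + (y - k) * f (k + 1))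
      = (y - x) * (f k - f (k + 1)) := by ring
  rw [e, abs_mul, abs_of_nonneg (by linarith : 0 ≤ y - x)]
  have h2 : |f k - f (k + 1)| ≤ 2 * B := by
    rw [abs_le]
    constructor <;> linarith
  nlinarith

lemma pl_lip_le {f : ℤ → ℝ} {B : ℝ} (hB : ∀ m, |f m| ≤ B) {x y : ℝ} (hxy : x ≤ y) :
    |pl f x - pl f y| ≤ 2 * B * (y - x) := by
  have hB0 : 0 ≤ B := (abs_nonneg _).trans (hB 0)
  rcases le_or_gt 1 (y - x) with c | c
  · have a := abs_le.1 (pl_abs_le hB x)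
    have b := abs_le.1 (pl_abs_le hB y)
    have h2 : |pl f x - pl f y| ≤ 2 * B := by
      rw [abs_le]
      constructor <;> linarith
    nlinarith
  · rcases le_or_gt y (⌊x⌋ + 1) with d | d
    · exact pl_lip_cell hB (Int.floor_le x) hxy d
    · have h1 := Int.lt_floor_add_one x
      have e1 := pl_lip_cell hB (k := ⌊x⌋) (x := x) (y := ⌊x⌋ + 1) (Int.floor_le x) h1.le le_rfl
      have e2 := pl_lip_cell hB (k := ⌊x⌋ + 1) (x := ((⌊x⌋:ℝ) + 1)) (y := y)
        (by push_cast; exact le_rfl) d.le (by push_cast; linarith)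
      have e3 := abs_sub_le (pl f x) (pl f ((⌊x⌋:ℝ) + 1)) (pl f y)
      linarith

/-- PIECEWISE LINEAR FUNCTIONS ARE LIPSCHITZ -/
lemma pl_lip {f : ℤ → ℝ} {B : ℝ} (hB : ∀ m, |f m| ≤ B) (x y : ℝ) :
    |pl f x - pl f y| ≤ 2 * B * |x - y| := by
  rcases le_total x y with c | c
  · rw [abs_of_nonpos (by linarith : x - y ≤ 0)]
    have := pl_lip_le hB c
    linarith
  · rw [abs_of_nonneg (by linarith : 0 ≤ x - y), abs_sub_comm]
    exact pl_lip_le hB c

/-- nodes `≤ b` -/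
lemma pl_mono_left {f g : ℤ → ℝ} {b : ℤ} (h : ∀ m, m ≤ b → f m ≤ g m) {x : ℝ} (hx : x ≤ b) :
    pl f x ≤ pl g x := by
  have f0 := Int.fract_nonneg x
  have f1 := Int.fract_lt_one x
  have h1 : ⌊x⌋ ≤ b := by
    have := Int.floor_le x
    have h3 : (⌊x⌋ : ℝ) ≤ b := by linarith
    exact_mod_cast h3
  rcases eq_or_lt_of_le h1 with e | e
  · have h4 : Int.fract x = 0 := by
      have := Int.floor_add_fract x
      rw [e] at this
      linarith
    unfold pl
    rw [h4]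
    have := h _ h1
    linarith
  · have a0 := mul_le_mul_of_nonneg_left (h ⌊x⌋ h1) (by linarith : 0 ≤ 1 - Int.fract x)
    have a1 := mul_le_mul_of_nonneg_left (h (⌊x⌋ + 1) (by omega)) f0
    unfold pl
    linarith

/-- nodes `≥ a` -/
lemma pl_mono_right {f g : ℤ → ℝ} {a : ℤ} (h : ∀ m, a ≤ m → f m ≤ g m) {x : ℝ} (hx : a ≤ x) :
    pl f x ≤ pl g x := by
  have f0 := Int.fract_nonneg x
  have f1 := Int.fract_lt_one x
  have h1 : a ≤ ⌊x⌋ := Int.le_floor.2 hx
  have a0 := mul_le_mul_of_nonneg_left (h ⌊x⌋ h1) (by linarith : 0 ≤ 1 - Int.fract x)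
  have a1 := mul_le_mul_of_nonneg_left (h (⌊x⌋ + 1) (by omega)) f0
  unfold pl
  linarith

/-- nodes between `a` and `b` -/
lemma pl_mono_mid {f g : ℤ → ℝ} {a b : ℤ} (h : ∀ m, a ≤ m → m ≤ b → f m ≤ g m) {x : ℝ}
    (ha : a ≤ x) (hb : x ≤ b) : pl f x ≤ pl g x := by
  have f0 := Int.fract_nonneg x
  have f1 := Int.fract_lt_one x
  have h2 : a ≤ ⌊x⌋ := Int.le_floor.2 ha
  have h1 : ⌊x⌋ ≤ b := by
    have := Int.floor_le x
    have h3 : (⌊x⌋ : ℝ) ≤ b := by linarith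
    exact_mod_cast h3
  rcases eq_or_lt_of_le h1 with e | e
  · have h4 : Int.fract x = 0 := by
      have := Int.floor_add_fract x
      rw [e] at this
      linarith
    unfold pl
    rw [h4]
    have := h _ h2 h1
    linarith
  · have a0 := mul_le_mul_of_nonneg_left (h ⌊x⌋ h2 h1) (by linarith : 0 ≤ 1 - Int.fract x)
    have a1 := mul_le_mul_of_nonneg_left (h (⌊x⌋ + 1) (by omega) (by omega)) f0
    unfold pl
    linarith

/-- robust: `x` is almost `≤ b`, `x'` is almost `x` -/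
lemma pl_rob_left {f g : ℤ → ℝ} {B δ : ℝ} (hf : ∀ m, |f m| ≤ B) (hg : ∀ m, |g m| ≤ B) {b : ℝ}
    (h : ∀ x : ℝ, x ≤ b → pl f x ≤ pl g x) {x x' : ℝ} (hx : x ≤ b + δ) (hd : |x - x'| ≤ δ) :
    pl f x ≤ pl g x' + 6 * B * δ := by
  have hB0 : 0 ≤ B := (abs_nonneg _).trans (hf 0)
  have hδ : 0 ≤ δ := (abs_nonneg _).trans hd
  have m1 : min x b ≤ b := min_le_right _ _
  have m2 : |x - min x b| ≤ δ := by
    rcases le_total x b with c | c
    · rw [min_eq_left c, sub_self, abs_zero]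
      exact hδ
    · rw [min_eq_right c, abs_of_nonneg (by linarith)]
      linarith
  have l1 := abs_le.1 ((pl_lip hf x (min x b)).trans
    (mul_le_mul_of_nonneg_left m2 (by linarith)))
  have m3 : |min x b - x'| ≤ δ + δ := by
    have := abs_sub_le (min x b) x x'
    rw [abs_sub_comm (min x b) x] at this
    linarith
  have l2 := abs_le.1 ((pl_lip hg (min x b) x').trans
    (mul_le_mul_of_nonneg_left m3 (by linarith)))
  have l3 := h _ m1
  linarith [l1.2, l2.2]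

/-- robust: `x` is almost `≥ a` -/
lemma pl_rob_right {f g : ℤ → ℝ} {B δ : ℝ} (hf : ∀ m, |f m| ≤ B) (hg : ∀ m, |g m| ≤ B) {a : ℝ}
    (h : ∀ x : ℝ, a ≤ x → pl f x ≤ pl g x) {x x' : ℝ} (hx : a - δ ≤ x) (hd : |x - x'| ≤ δ) :
    pl f x ≤ pl g x' + 6 * B * δ := by
  have hB0 : 0 ≤ B := (abs_nonneg _).trans (hf 0)
  have hδ : 0 ≤ δ := (abs_nonneg _).trans hd
  have m1 : a ≤ max x a := le_max_right _ _
  have m2 : |x - max x a| ≤ δ := by
    rcases le_total x a with c | c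
    · rw [max_eq_right c, abs_of_nonpos (by linarith)]
      linarith
    · rw [max_eq_left c, sub_self, abs_zero]
      exact hδ
  have l1 := abs_le.1 ((pl_lip hf x (max x a)).trans
    (mul_le_mul_of_nonneg_left m2 (by linarith)))
  have m3 : |max x a - x'| ≤ δ + δ := by
    have := abs_sub_le (max x a) x x'
    rw [abs_sub_comm (max x a) x] at this
    linarith
  have l2 := abs_le.1 ((pl_lip hg (max x a) x').trans
    (mul_le_mul_of_nonneg_left m3 (by linarith)))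
  have l3 := h _ m1
  linarith [l1.2, l2.2]

/-- robust: `x` is almost between `a` and `b` -/
lemma pl_rob_mid {f g : ℤ → ℝ} {B δ : ℝ} (hf : ∀ m, |f m| ≤ B) (hg : ∀ m, |g m| ≤ B) {a b : ℝ}
    (hab : a ≤ b) (h : ∀ x : ℝ, a ≤ x → x ≤ b → pl f x ≤ pl g x) {x x' : ℝ} (hx : a - δ ≤ x)
    (hx' : x ≤ b + δ) (hd : |x - x'| ≤ δ) : pl f x ≤ pl g x' + 6 * B * δ := by
  have hB0 : 0 ≤ B := (abs_nonneg _).trans (hf 0)
  have hδ : 0 ≤ δ := (abs_nonneg _).trans hd
  set w : ℝ := max a (min x b) with hw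
  have m0 : a ≤ w := le_max_left _ _
  have m1 : w ≤ b := max_le hab (min_le_right _ _)
  have m2 : |x - w| ≤ δ := by
    rcases le_total x b with c | c
    · rcases le_total x a with d | d
      · rw [hw, min_eq_left c, max_eq_left d, abs_of_nonpos (by linarith)]
        linarith
      · rw [hw, min_eq_left c, max_eq_right d, sub_self, abs_zero]
        exact hδ
    · rw [hw, min_eq_right c, max_eq_right hab, abs_of_nonneg (by linarith)]
      linarith
  have l1 := abs_le.1 ((pl_lip hf x w).trans (mul_le_mul_of_nonneg_left m2 (by linarith)))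
  have m3 : |w - x'| ≤ δ + δ := by
    have := abs_sub_le w x x'
    rw [abs_sub_comm w x] at this
    linarith
  have l2 := abs_le.1 ((pl_lip hg w x').trans (mul_le_mul_of_nonneg_left m3 (by linarith)))
  have l3 := h _ m0 m1
  linarith [l1.2, l2.2]

/-! ### Comparison on half lines and intervals with arbitrary real ends -/

/-- linear interpolation inside one cell -/
lemma pl_cell_between {f g : ℤ → ℝ} {k : ℤ} {a b x : ℝ} (ka : (k:ℝ) ≤ a) (ax : a ≤ x)
    (xb : x ≤ b) (bk : b ≤ k + 1) (ha : pl f a ≤ pl g a) (hb : pl f b ≤ pl g b) :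
    pl f x ≤ pl g x := by
  rcases eq_or_lt_of_le (ax.trans xb) with e | e
  · have : x = a := le_antisymm (by linarith) ax
    rw [this]
    exact ha
  · rw [pl_of_mem f ka (by linarith), pl_of_mem g ka (by linarith)] at ha
    rw [pl_of_mem f (by linarith) bk, pl_of_mem g (by linarith) bk] at hb
    rw [pl_of_mem f (by linarith) (by linarith), pl_of_mem g (by linarith) (by linarith)]
    have h1 := mul_le_mul_of_nonneg_left ha (by linarith : 0 ≤ b - x)
    have h2 := mul_le_mul_of_nonneg_left hb (by linarith : 0 ≤ x - a)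
    have h3 : 0 < b - a := by linarith
    refine le_of_sub_nonneg (nonneg_of_mul_nonneg_right (a := b - a) ?_ h3)
    have e1 : (b - a) * (((k:ℝ) + 1 - x) * g k + (x - k) * g (k + 1)
        - (((k:ℝ) + 1 - x) * f k + (x - k) * f (k + 1)))
        = ((b - x) * (((k:ℝ) + 1 - a) * g k + (a - k) * g (k + 1))
            - (b - x) * (((k:ℝ) + 1 - a) * f k + (a - k) * f (k + 1)))
          + ((x - a) * (((k:ℝ) + 1 - b) * g k + (b - k) * g (k + 1))
            - (x - a) * (((k:ℝ) + 1 - b) * f k + (b - k) * f (k + 1))) := by ring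
    rw [e1]
    linarith

/-- all `x ≤ κ`, `κ` in the cell `[a, a+1]` -/
lemma pl_le_left {f g : ℤ → ℝ} {κ : ℝ} {a : ℤ} (h1 : (a:ℝ) ≤ κ) (h2 : κ ≤ a + 1)
    (hn : ∀ m, m ≤ a → f m ≤ g m) (hk : pl f κ ≤ pl g κ) {x : ℝ} (hx : x ≤ κ) :
    pl f x ≤ pl g x := by
  rcases le_total x a with c | c
  · exact pl_mono_left hn c
  · refine pl_cell_between (k := a) (a := a) (b := κ) le_rfl c hx h2 ?_ hk
    rw [pl_int, pl_int]
    exact hn a le_rfl

/-- all `x ≥ κ`, `κ` in the cell `[b, b+1]` -/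
lemma pl_le_right {f g : ℤ → ℝ} {κ : ℝ} {b : ℤ} (h1 : (b:ℝ) ≤ κ) (h2 : κ ≤ b + 1)
    (hn : ∀ m, b + 1 ≤ m → f m ≤ g m) (hk : pl f κ ≤ pl g κ) {x : ℝ} (hx : κ ≤ x) :
    pl f x ≤ pl g x := by
  rcases le_total ((b:ℝ) + 1) x with c | c
  · exact pl_mono_right hn (by push_cast; exact c)
  · refine pl_cell_between (k := b) (a := κ) (b := b + 1) h1 hx c le_rfl hk ?_
    have e : ((b:ℝ) + 1) = ((b + 1 : ℤ) : ℝ) := by push_cast; rfl
    rw [e, pl_int, pl_int]
    exact hn _ le_rfl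

/-- all `κ ≤ x ≤ κ'`, `κ` in the cell `[a, a+1]`, `κ'` in the cell `[b, b+1]`, `a < b` -/
lemma pl_le_mid {f g : ℤ → ℝ} {κ κ' : ℝ} {a b : ℤ} (h1 : (a:ℝ) ≤ κ) (h2 : κ ≤ a + 1)
    (h3 : (b:ℝ) ≤ κ') (h4 : κ' ≤ b + 1) (hab : a < b)
    (hn : ∀ m, a + 1 ≤ m → m ≤ b → f m ≤ g m) (hk : pl f κ ≤ pl g κ) (hk' : pl f κ' ≤ pl g κ')
    {x : ℝ} (hx : κ ≤ x) (hx' : x ≤ κ') : pl f x ≤ pl g x := by
  rcases le_total x (a + 1) with c | c
  · refine pl_cell_between (k := a) (a := κ) (b := a + 1) h1 hx c le_rfl hk ?_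
    have e : ((a:ℝ) + 1) = ((a + 1 : ℤ) : ℝ) := by push_cast; rfl
    rw [e, pl_int, pl_int]
    exact hn _ le_rfl (by omega)
  · rcases le_total x b with d | d
    · exact pl_mono_mid hn (by push_cast; exact c) d
    · refine pl_cell_between (k := b) (a := b) (b := κ') le_rfl d hx' h4 ?_ hk'
      rw [pl_int, pl_int]
      exact hn b (by omega) le_rfl

end

end MP61673a.FE
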