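import Pool.Agent.Mu673.Net3

/-!
THREE-POINT FORM, the net of a stray WITH doubled role (`t ≤ V`), exact.
-/

namespace MP61673a.Fin

open Finset MP61673a.W MP61673a.LiftW MP61673a.Mids MP61673a.Sos
open MP61673a.Lift hiding PP QQ

noncomputable section

/-- pairs counted by `KKE P Q K (K-ρ) ρ x y` -/
def kKK (K ρ x y : ℤ) (a b : P3) : ℝ :=
  bo ((a.1 = false ∧ b.1 = true) ∧ (1 + ρ ≤ a.2 - 2 * x ∧ K - (K - ρ) ≤ b.2 - 2 * y) ∧
    2 * K + 1 + ρ + 2 * (x + 2 * y) ≤ a.2 + 2 * b.2)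

/-- pairs counted by `KCE P Q K (K-ρ) ρ x y` -/
def kKC (K ρ x y : ℤ) (a b : P3) : ℝ :=
  bo ((a.1 = false ∧ b.1 = true) ∧ ¬ (1 + ρ ≤ a.2 - 2 * x ∧ K - (K - ρ) ≤ b.2 - 2 * y) ∧
    2 * K + 1 + ρ + 2 * (x + 2 * y) ≤ a.2 + 2 * b.2)

/-- pairs counted by `KKE Q P K (K-ρ) ρ x y` -/
def kKK' (K ρ x y : ℤ) (a b : P3) : ℝ :=
  bo ((a.1 = true ∧ b.1 = false) ∧ (1 + ρ ≤ a.2 - 2 * x ∧ K - (K - ρ) ≤ b.2 - 2 * y) ∧
    2 * K + 1 + ρ + 2 * (x + 2 * y) ≤ a.2 + 2 * b.2)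

/-- pairs counted by `KCE Q P K (K-ρ) ρ x y` -/
def kKC' (K ρ x y : ℤ) (a b : P3) : ℝ :=
  bo ((a.1 = true ∧ b.1 = false) ∧ ¬ (1 + ρ ≤ a.2 - 2 * x ∧ K - (K - ρ) ≤ b.2 - 2 * y) ∧
    2 * K + 1 + ρ + 2 * (x + 2 * y) ≤ a.2 + 2 * b.2)

lemma T2_kKK (P Q : WS) (K ρ x y : ℤ) : T2 P Q (kKK K ρ x y) = KKE P Q K (K - ρ) ρ x y := by
  rw [T2_four]
  unfold kKK bo KKE
  simp only [Bool.false_eq_true, Bool.true_eq_false, and_false, false_and, if_false, mul_zero,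
    sum_const_zero, add_zero, zero_add, and_true, true_and]
  refine sum_congr rfl fun a _ => sum_congr rfl fun b _ => ?_
  split_ifs <;> ring

lemma T2_kKC (P Q : WS) (K ρ x y : ℤ) : T2 P Q (kKC K ρ x y) = KCE P Q K (K - ρ) ρ x y := by
  rw [T2_four]
  unfold kKC bo KCE
  simp only [Bool.false_eq_true, Bool.true_eq_false, and_false, false_and, if_false, mul_zero,
    sum_const_zero, add_zero, zero_add, and_true, true_and]
  refine sum_congr rfl fun a _ => sum_congr rfl fun b _ => ?_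
  split_ifs <;> ring

lemma T2_kKK' (P Q : WS) (K ρ x y : ℤ) : T2 P Q (kKK' K ρ x y) = KKE Q P K (K - ρ) ρ x y := by
  rw [T2_four]
  unfold kKK' bo KKE
  simp only [Bool.false_eq_true, Bool.true_eq_false, and_false, false_and, if_false, mul_zero,
    sum_const_zero, add_zero, zero_add, and_true, true_and]
  refine sum_congr rfl fun a _ => sum_congr rfl fun b _ => ?_
  split_ifs <;> ring

lemma T2_kKC' (P Q : WS) (K ρ x y : ℤ) : T2 P Q (kKC' K ρ x y) = KCE Q P K (K - ρ) ρ x y := by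
  rw [T2_four]
  unfold kKC' bo KCE
  simp only [Bool.false_eq_true, Bool.true_eq_false, and_false, false_and, if_false, mul_zero,
    sum_const_zero, add_zero, zero_add, and_true, true_and]
  refine sum_congr rfl fun a _ => sum_congr rfl fun b _ => ?_
  split_ifs <;> ring

/-- ONE-BODY PART of the net of a stray at depth `t ≤ V` of `Q` -/
def n1in (K ρ E lo t : ℤ) (x : P3) : ℝ :=
  if x.1 = false then
    (K - ρ + 1) * (bo (lo - t ≤ x.2 ∧ x.2 < 2 * t) + bo (lo - t ≤ x.2 ∧ 2 * x.2 < t))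
      - 1 / 2 * (bo (0 < (t + x.2 - (4 * K + 1) + 0) / 2)
          * kvr K ρ ((t + x.2 - (4 * K + 1) + 0) / 2)
        + bo (0 < (t + x.2 - (4 * K + 1) + E) / 2)
          * kvr K ρ ((t + x.2 - (4 * K + 1) + E) / 2))
  else
    bo (4 * K + 1 < x.2 + 2 * t) * (K - ρ + 1)
      - bo (1 ≤ 2 * x.2 + t - (4 * K + 1) ∧ 2 * x.2 + t - (4 * K + 1) ≤ 4 * K + 1)
        * kvr K ρ (2 * x.2 + t - (4 * K + 1))
      - 1 / 2 * omw t x.2 * (bo (0 < (t - x.2 + 0) / 2) * kvr K ρ ((t - x.2 + 0) / 2)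
        + bo (0 < (t - x.2 + E) / 2) * kvr K ρ ((t - x.2 + E) / 2))

/-- THREE-BODY PART of the net of a stray at depth `t ≤ V` of `Q`, exact -/
def n3in (K ρ V E lo t : ℤ) (x y z : P3) : ℝ :=
  if x.1 = false then
    bo (lo - t ≤ x.2 ∧ x.2 < 2 * t) * (kNP V (1 + ρ) y z - kKK K ρ x.2 (-t) y z)
      + bo (lo - t ≤ x.2 ∧ 2 * x.2 < t) * (kNQ V (1 + ρ) y z - kKK' K ρ (-t) x.2 y z)
      + bo (2 * t ≤ x.2) * kKC K ρ x.2 (-t) y z
      + bo (t ≤ 2 * x.2) * kKC' K ρ (-t) x.2 y z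
      - 1 / 2 * (bo (0 < (t + x.2 - (4 * K + 1) + 0) / 2 ∧ ρ ≤ (t + x.2 - (4 * K + 1) + 0) / 2)
          * kNP V (thr K ρ ((t + x.2 - (4 * K + 1) + 0) / 2)) y z
        + bo (0 < (t + x.2 - (4 * K + 1) + E) / 2 ∧ ρ ≤ (t + x.2 - (4 * K + 1) + E) / 2)
          * kNP V (thr K ρ ((t + x.2 - (4 * K + 1) + E) / 2)) y z)
  else
    bo (4 * K + 1 < x.2 + 2 * t) * kNP V (1 + ρ) y z
      + bo (1 ≤ x.2 + 2 * t ∧ x.2 + 2 * t ≤ 4 * K + 1)
        * kPQ (2 * K + 1 + ρ + 2 * (4 * K + 1 - (x.2 + 2 * t))) y z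
      + bo (1 + ρ ≤ x.2 + 2 * t)
        * (kQP (4 * K + 1 - K + min ((x.2 + 2 * t - ρ + 1) / 2) (K - ρ + 1)) y z
          - kQP (4 * K + 1 - K + (K - ρ + 1)) y z)
      - bo ((1 ≤ 2 * x.2 + t - (4 * K + 1) ∧ 2 * x.2 + t - (4 * K + 1) ≤ 4 * K + 1)
          ∧ ρ ≤ 2 * x.2 + t - (4 * K + 1))
        * kNQ V (thr K ρ (2 * x.2 + t - (4 * K + 1))) y z
      + bo (1 ≤ 2 * x.2 + t - (4 * K + 1) ∧ 2 * x.2 + t - (4 * K + 1) ≤ 4 * K + 1)
        * kQP (2 * K + 1 + ρ + 2 * (2 * (4 * K + 1) - 2 * x.2 - t)) y z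
      - 1 / 2 * omw t x.2
        * (bo (0 < (t - x.2 + 0) / 2 ∧ ρ ≤ (t - x.2 + 0) / 2)
            * kNP V (thr K ρ ((t - x.2 + 0) / 2)) y z
          + bo (0 < (t - x.2 + E) / 2 ∧ ρ ≤ (t - x.2 + E) / 2)
            * kNP V (thr K ρ ((t - x.2 + E) / 2)) y z)

/-- linearity of `T2`, stepwise -/
lemma T2_add' (P Q : WS) (g h : P3 → P3 → ℝ) {A B : ℝ} (hg : T2 P Q g = A) (hh : T2 P Q h = B) :
    T2 P Q (fun x y => g x y + h x y) = A + B := by rw [T2_add, hg, hh]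

lemma T2_sub' (P Q : WS) (g h : P3 → P3 → ℝ) {A B : ℝ} (hg : T2 P Q g = A) (hh : T2 P Q h = B) :
    T2 P Q (fun x y => g x y - h x y) = A - B := by rw [T2_sub, hg, hh]

lemma T2_mul' (P Q : WS) (r : ℝ) (g : P3 → P3 → ℝ) {A : ℝ} (hg : T2 P Q g = A) :
    T2 P Q (fun x y => r * g x y) = r * A := by rw [T2_mul, hg]

/-- THE NET OF A STRAY WITH DOUBLED ROLE IN THREE-POINT FORM, exact -/
theorem net3in {P Q : WS} {K ρ V E lo t : ℤ} (dP : Dbl P V) (dQ : Dbl Q V)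
    (hρ : ρ ≤ K + 1) (hVt : t ≤ V) (hlo0 : 0 ≤ lo) (hlo : lo ≤ 1) (ht : 1 ≤ t) :
    netE P Q deeper (4 * K + 1) K (K - ρ) ρ ρ V E lo t
      = T1 P Q (n1in K ρ E lo t) + T3 P Q (n3in K ρ V E lo t) := by
  have h5 := exB_eq P Q (K := K) (ρ := ρ) (t := t) hρ
  have m0 := mid_eqE P Q (K := K) (ρ := ρ) hρ deeper 0 t
  have mE := mid_eqE P Q (K := K) (ρ := ρ) hρ deeper E t
  have hA : exA Q (4 * K + 1) V (priceE P Q (4 * K + 1) K (K - ρ) ρ) t = 0 := by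
    unfold exA
    rw [if_neg (by omega)]
  have r1 : T1 P Q (n1in K ρ E lo t) + T3 P Q (n3in K ρ V E lo t)
      = ∑ a ∈ P.S, P.f a * (n1in K ρ E lo t (false, P.u a)
          + T2 P Q (n3in K ρ V E lo t (false, P.u a)))
        + ∑ b ∈ Q.S, Q.f b * (n1in K ρ E lo t (true, Q.u b)
          + T2 P Q (n3in K ρ V E lo t (true, Q.u b))) := by
    rw [T3_eq, ← T1_add, T1_eq]
  have rP : ∀ u : ℤ, T2 P Q (n3in K ρ V E lo t (false, u))
      = bo (lo - t ≤ u ∧ u < 2 * t) * (nn P (1 + ρ) - KKE P Q K (K - ρ) ρ u (-t))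
      + bo (lo - t ≤ u ∧ 2 * u < t) * (nn Q (1 + ρ) - KKE Q P K (K - ρ) ρ (-t) u)
      + bo (2 * t ≤ u) * KCE P Q K (K - ρ) ρ u (-t)
      + bo (t ≤ 2 * u) * KCE Q P K (K - ρ) ρ (-t) u
      - 1 / 2 * (bo (0 < (t + u - (4 * K + 1) + 0) / 2 ∧ ρ ≤ (t + u - (4 * K + 1) + 0) / 2)
          * nn P (thr K ρ ((t + u - (4 * K + 1) + 0) / 2))
        + bo (0 < (t + u - (4 * K + 1) + E) / 2 ∧ ρ ≤ (t + u - (4 * K + 1) + E) / 2)
          * nn P (thr K ρ ((t + u - (4 * K + 1) + E) / 2))) := by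
    intro u
    have e : n3in K ρ V E lo t (false, u) = fun y z =>
      bo (lo - t ≤ u ∧ u < 2 * t) * (kNP V (1 + ρ) y z - kKK K ρ u (-t) y z)
      + bo (lo - t ≤ u ∧ 2 * u < t) * (kNQ V (1 + ρ) y z - kKK' K ρ (-t) u y z)
      + bo (2 * t ≤ u) * kKC K ρ u (-t) y z
      + bo (t ≤ 2 * u) * kKC' K ρ (-t) u y z
      - 1 / 2 * (bo (0 < (t + u - (4 * K + 1) + 0) / 2 ∧ ρ ≤ (t + u - (4 * K + 1) + 0) / 2)
          * kNP V (thr K ρ ((t + u - (4 * K + 1) + 0) / 2)) y z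
        + bo (0 < (t + u - (4 * K + 1) + E) / 2 ∧ ρ ≤ (t + u - (4 * K + 1) + E) / 2)
          * kNP V (thr K ρ ((t + u - (4 * K + 1) + E) / 2)) y z) := by
      funext y z
      unfold n3in
      rw [if_pos rfl]
    rw [e]
    refine T2_sub' P Q _ _ (T2_add' P Q _ _ (T2_add' P Q _ _ (T2_add' P Q _ _ ?_ ?_) ?_) ?_) ?_
    · exact T2_mul' P Q _ _ (T2_sub' P Q _ _ (T2_kNP dP _) (T2_kKK P Q _ _ _ _))
    · exact T2_mul' P Q _ _ (T2_sub' P Q _ _ (T2_kNQ dQ _) (T2_kKK' P Q _ _ _ _))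
    · exact T2_mul' P Q _ _ (T2_kKC P Q _ _ _ _)
    · exact T2_mul' P Q _ _ (T2_kKC' P Q _ _ _ _)
    · exact T2_mul' P Q _ _ (T2_add' P Q _ _ (T2_mul' P Q _ _ (T2_kNP dP _))
        (T2_mul' P Q _ _ (T2_kNP dP _)))
  have rQ : ∀ u : ℤ, T2 P Q (n3in K ρ V E lo t (true, u))
      = bo (4 * K + 1 < u + 2 * t) * nn P (1 + ρ)
      + bo (1 ≤ u + 2 * t ∧ u + 2 * t ≤ 4 * K + 1)
        * dd P Q (2 * K + 1 + ρ + 2 * (4 * K + 1 - (u + 2 * t)))
      + bo (1 + ρ ≤ u + 2 * t)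
        * (dd Q P (4 * K + 1 - K + min ((u + 2 * t - ρ + 1) / 2) (K - ρ + 1))
          - dd Q P (4 * K + 1 - K + (K - ρ + 1)))
      - bo ((1 ≤ 2 * u + t - (4 * K + 1) ∧ 2 * u + t - (4 * K + 1) ≤ 4 * K + 1)
          ∧ ρ ≤ 2 * u + t - (4 * K + 1))
        * nn Q (thr K ρ (2 * u + t - (4 * K + 1)))
      + bo (1 ≤ 2 * u + t - (4 * K + 1) ∧ 2 * u + t - (4 * K + 1) ≤ 4 * K + 1)
        * dd Q P (2 * K + 1 + ρ + 2 * (2 * (4 * K + 1) - 2 * u - t))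
      - 1 / 2 * omw t u
        * (bo (0 < (t - u + 0) / 2 ∧ ρ ≤ (t - u + 0) / 2)
            * nn P (thr K ρ ((t - u + 0) / 2))
          + bo (0 < (t - u + E) / 2 ∧ ρ ≤ (t - u + E) / 2)
            * nn P (thr K ρ ((t - u + E) / 2))) := by
    intro u
    have e : n3in K ρ V E lo t (true, u) = fun y z =>
      bo (4 * K + 1 < u + 2 * t) * kNP V (1 + ρ) y z
      + bo (1 ≤ u + 2 * t ∧ u + 2 * t ≤ 4 * K + 1)
        * kPQ (2 * K + 1 + ρ + 2 * (4 * K + 1 - (u + 2 * t))) y z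
      + bo (1 + ρ ≤ u + 2 * t)
        * (kQP (4 * K + 1 - K + min ((u + 2 * t - ρ + 1) / 2) (K - ρ + 1)) y z
          - kQP (4 * K + 1 - K + (K - ρ + 1)) y z)
      - bo ((1 ≤ 2 * u + t - (4 * K + 1) ∧ 2 * u + t - (4 * K + 1) ≤ 4 * K + 1)
          ∧ ρ ≤ 2 * u + t - (4 * K + 1))
        * kNQ V (thr K ρ (2 * u + t - (4 * K + 1))) y z
      + bo (1 ≤ 2 * u + t - (4 * K + 1) ∧ 2 * u + t - (4 * K + 1) ≤ 4 * K + 1)
        * kQP (2 * K + 1 + ρ + 2 * (2 * (4 * K + 1) - 2 * u - t)) y z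
      - 1 / 2 * omw t u
        * (bo (0 < (t - u + 0) / 2 ∧ ρ ≤ (t - u + 0) / 2)
            * kNP V (thr K ρ ((t - u + 0) / 2)) y z
          + bo (0 < (t - u + E) / 2 ∧ ρ ≤ (t - u + E) / 2)
            * kNP V (thr K ρ ((t - u + E) / 2)) y z) := by
      funext y z
      unfold n3in
      rw [if_neg (by simp)]
    rw [e]
    refine T2_sub' P Q _ _ (T2_add' P Q _ _ (T2_sub' P Q _ _ (T2_add' P Q _ _
      (T2_add' P Q _ _ ?_ ?_) ?_) ?_) ?_) ?_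
    · exact T2_mul' P Q _ _ (T2_kNP dP _)
    · exact T2_mul' P Q _ _ (T2_kPQ P Q _)
    · exact T2_mul' P Q _ _ (T2_sub' P Q _ _ (T2_kQP P Q _) (T2_kQP P Q _))
    · exact T2_mul' P Q _ _ (T2_kNQ dQ _)
    · exact T2_mul' P Q _ _ (T2_kQP P Q _)
    · exact T2_mul' P Q _ _ (T2_add' P Q _ _ (T2_mul' P Q _ _ (T2_kNP dP _))
        (T2_mul' P Q _ _ (T2_kNP dP _)))
  have cK : ((K - ρ : ℤ) : ℝ) = (K:ℝ) - ρ := by push_cast; ring
  have e3 : ∀ j : ℤ, (if 0 < j then ((kv K ρ j : ℤ) : ℝ) + (if ρ ≤ j then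
        nn P (2 * max (K - j) 0 + 1 + ρ) else 0) else 0)
        = bo (0 < j) * kvr K ρ j + bo (0 < j ∧ ρ ≤ j) * nn P (thr K ρ j) := by
    intro j
    unfold bo kvr thr
    by_cases c1 : 0 < j
    · by_cases c2 : ρ ≤ j
      · rw [if_pos c1, if_pos c2, if_pos c1, if_pos ⟨c1, c2⟩]
        ring
      · rw [if_pos c1, if_neg c2, if_pos c1, if_neg (fun h => c2 h.2)]
        ring
    · rw [if_neg c1, if_neg c1, if_neg (fun h => c1 h.1)]
      ring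
  -- the left hand side, per point
  have lP : ∀ a ∈ P.S, P.f a * (n1in K ρ E lo t (false, P.u a)
          + T2 P Q (n3in K ρ V E lo t (false, P.u a)))
      = (if lo - t ≤ P.u a then P.f a * (hhE P Q K (K - ρ) ρ V (P.u a) (-t)
          + hhE Q P K (K - ρ) ρ V (-t) (P.u a)) else 0)
        - 1 / 2 * (P.f a * (if 0 < (t + P.u a - (4 * K + 1) + 0) / 2 then
            ((kv K ρ ((t + P.u a - (4 * K + 1) + 0) / 2) : ℤ) : ℝ)
            + (if ρ ≤ (t + P.u a - (4 * K + 1) + 0) / 2 then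
                nn P (2 * max (K - (t + P.u a - (4 * K + 1) + 0) / 2) 0 + 1 + ρ) else 0)
            else 0)
          + P.f a * (if 0 < (t + P.u a - (4 * K + 1) + E) / 2 then
            ((kv K ρ ((t + P.u a - (4 * K + 1) + E) / 2) : ℤ) : ℝ)
            + (if ρ ≤ (t + P.u a - (4 * K + 1) + E) / 2 then
                nn P (2 * max (K - (t + P.u a - (4 * K + 1) + E) / 2) 0 + 1 + ρ) else 0)
            else 0)) := by
    intro a _
    rw [rP, e3, e3]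
    unfold n1in
    rw [if_pos rfl]
    have e6 : (if lo - t ≤ P.u a then P.f a * (hhE P Q K (K - ρ) ρ V (P.u a) (-t)
          + hhE Q P K (K - ρ) ρ V (-t) (P.u a)) else 0)
        = P.f a * (((K:ℝ) - ρ + 1) * (bo (lo - t ≤ P.u a ∧ P.u a < 2 * t)
            + bo (lo - t ≤ P.u a ∧ 2 * P.u a < t))
          + bo (lo - t ≤ P.u a ∧ P.u a < 2 * t)
            * (nn P (1 + ρ) - KKE P Q K (K - ρ) ρ (P.u a) (-t))
          + bo (lo - t ≤ P.u a ∧ 2 * P.u a < t)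
            * (nn Q (1 + ρ) - KKE Q P K (K - ρ) ρ (-t) (P.u a))
          + bo (2 * t ≤ P.u a) * KCE P Q K (K - ρ) ρ (P.u a) (-t)
          + bo (t ≤ 2 * P.u a) * KCE Q P K (K - ρ) ρ (-t) (P.u a)) := by
      unfold bo
      by_cases c0 : lo - t ≤ P.u a
      · unfold hhE
        have v1 : -V ≤ P.u a ∧ -V ≤ -t := by omega
        have v2 : -V ≤ -t ∧ -V ≤ P.u a := by omega
        rw [if_pos c0]
        by_cases c1 : P.u a < 2 * t
        · by_cases c2 : 2 * P.u a < t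
          · rw [if_pos (show P.u a + 2 * -t < 0 by omega),
              if_pos (show -t + 2 * P.u a < 0 by omega), if_pos v1, if_pos v2,
              if_pos ⟨c0, c1⟩, if_pos ⟨c0, c2⟩, if_neg (show ¬ 2 * t ≤ P.u a by omega),
              if_neg (show ¬ t ≤ 2 * P.u a by omega), cK]
            ring
          · rw [if_pos (show P.u a + 2 * -t < 0 by omega),
              if_neg (show ¬ -t + 2 * P.u a < 0 by omega), if_pos v1, if_pos v2,
              if_pos ⟨c0, c1⟩, if_neg (fun h => c2 h.2), if_neg (show ¬ 2 * t ≤ P.u a by omega),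
              if_pos (show t ≤ 2 * P.u a by omega), cK]
            ring
        · rw [if_neg (show ¬ P.u a + 2 * -t < 0 by omega),
            if_neg (show ¬ -t + 2 * P.u a < 0 by omega), if_pos v1, if_pos v2,
            if_neg (fun h => c1 h.2), if_neg (show ¬ (lo - t ≤ P.u a ∧ 2 * P.u a < t) by omega),
            if_pos (show 2 * t ≤ P.u a by omega), if_pos (show t ≤ 2 * P.u a by omega)]
          ring
      · rw [if_neg c0, if_neg (fun h => c0 h.1), if_neg (fun h => c0 h.1),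
          if_neg (show ¬ 2 * t ≤ P.u a by omega), if_neg (show ¬ t ≤ 2 * P.u a by omega)]
        ring
    rw [e6]
    ring
  have lQ : ∀ q ∈ Q.S, Q.f q * (n1in K ρ E lo t (true, Q.u q)
          + T2 P Q (n3in K ρ V E lo t (true, Q.u q)))
      = Q.f q * ow P Q (4 * K + 1) K (K - ρ) ρ (Q.u q + 2 * t)
        + Q.f q * (if 1 + ρ ≤ Q.u q + 2 * t then
            dd Q P (4 * K + 1 - K + min ((Q.u q + 2 * t - ρ + 1) / 2) (K - ρ + 1))
              - dd Q P (4 * K + 1 - K + (K - ρ + 1)) else 0)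
        - (if 1 ≤ 2 * Q.u q + t - (4 * K + 1) ∧ 2 * Q.u q + t - (4 * K + 1) ≤ 4 * K + 1
        then Q.f q * (((kv K ρ (2 * Q.u q + t - (4 * K + 1)) : ℤ) : ℝ)
          + (if ρ ≤ 2 * Q.u q + t - (4 * K + 1) then
              nn Q (2 * max (K - (2 * Q.u q + t - (4 * K + 1))) 0 + 1 + ρ) else 0)
          - dd Q P (2 * K + 1 + ρ + 2 * (2 * (4 * K + 1) - 2 * Q.u q - t))) else 0)
        - 1 / 2 * (Q.f q * ((if Q.u q < 0 then deeper t (-Q.u q) else 1)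
          * (if 0 < (t - Q.u q + 0) / 2 then ((kv K ρ ((t - Q.u q + 0) / 2) : ℤ) : ℝ)
            + (if ρ ≤ (t - Q.u q + 0) / 2 then
                nn P (2 * max (K - (t - Q.u q + 0) / 2) 0 + 1 + ρ) else 0) else 0))
          + Q.f q * ((if Q.u q < 0 then deeper t (-Q.u q) else 1)
          * (if 0 < (t - Q.u q + E) / 2 then ((kv K ρ ((t - Q.u q + E) / 2) : ℤ) : ℝ)
            + (if ρ ≤ (t - Q.u q + E) / 2 then
                nn P (2 * max (K - (t - Q.u q + E) / 2) 0 + 1 + ρ) else 0) else 0))) := by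
    intro q _
    rw [rQ, e3, e3]
    unfold n1in
    rw [if_neg (by simp)]
    have e4 : ow P Q (4 * K + 1) K (K - ρ) ρ (Q.u q + 2 * t)
        = bo (4 * K + 1 < Q.u q + 2 * t) * ((K:ℝ) - ρ + 1)
          + bo (4 * K + 1 < Q.u q + 2 * t) * nn P (1 + ρ)
          + bo (1 ≤ Q.u q + 2 * t ∧ Q.u q + 2 * t ≤ 4 * K + 1)
            * dd P Q (2 * K + 1 + ρ + 2 * (4 * K + 1 - (Q.u q + 2 * t))) := by
      unfold ow bo
      by_cases c : 4 * K + 1 < Q.u q + 2 * t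
      · rw [if_pos c, if_pos c, if_neg (by omega), cK]
        ring
      · by_cases c2 : 1 ≤ Q.u q + 2 * t
        · rw [if_neg c, if_neg c, if_pos c2, if_pos (by omega)]
          ring
        · rw [if_neg c, if_neg c, if_neg c2, if_neg (fun h => c2 h.1)]
          ring
    have e5 : (if 1 ≤ 2 * Q.u q + t - (4 * K + 1) ∧ 2 * Q.u q + t - (4 * K + 1) ≤ 4 * K + 1
        then Q.f q * (((kv K ρ (2 * Q.u q + t - (4 * K + 1)) : ℤ) : ℝ)
          + (if ρ ≤ 2 * Q.u q + t - (4 * K + 1) then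
              nn Q (2 * max (K - (2 * Q.u q + t - (4 * K + 1))) 0 + 1 + ρ) else 0)
          - dd Q P (2 * K + 1 + ρ + 2 * (2 * (4 * K + 1) - 2 * Q.u q - t))) else 0)
        = Q.f q * (bo (1 ≤ 2 * Q.u q + t - (4 * K + 1) ∧ 2 * Q.u q + t - (4 * K + 1) ≤ 4 * K + 1)
            * kvr K ρ (2 * Q.u q + t - (4 * K + 1))
          + bo ((1 ≤ 2 * Q.u q + t - (4 * K + 1) ∧ 2 * Q.u q + t - (4 * K + 1) ≤ 4 * K + 1)
              ∧ ρ ≤ 2 * Q.u q + t - (4 * K + 1))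
            * nn Q (thr K ρ (2 * Q.u q + t - (4 * K + 1)))
          - bo (1 ≤ 2 * Q.u q + t - (4 * K + 1) ∧ 2 * Q.u q + t - (4 * K + 1) ≤ 4 * K + 1)
            * dd Q P (2 * K + 1 + ρ + 2 * (2 * (4 * K + 1) - 2 * Q.u q - t))) := by
      unfold bo kvr thr
      by_cases c : 1 ≤ 2 * Q.u q + t - (4 * K + 1) ∧ 2 * Q.u q + t - (4 * K + 1) ≤ 4 * K + 1
      · rw [if_pos c, if_pos c]
        by_cases c2 : ρ ≤ 2 * Q.u q + t - (4 * K + 1)
        · rw [if_pos c2, if_pos ⟨c, c2⟩]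
          ring
        · rw [if_neg c2, if_neg (fun h => c2 h.2)]
          ring
      · rw [if_neg c, if_neg c, if_neg (fun h => c h.1)]
        ring
    have e7 : (if 1 + ρ ≤ Q.u q + 2 * t then
            dd Q P (4 * K + 1 - K + min ((Q.u q + 2 * t - ρ + 1) / 2) (K - ρ + 1))
              - dd Q P (4 * K + 1 - K + (K - ρ + 1)) else 0)
        = bo (1 + ρ ≤ Q.u q + 2 * t)
          * (dd Q P (4 * K + 1 - K + min ((Q.u q + 2 * t - ρ + 1) / 2) (K - ρ + 1))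
              - dd Q P (4 * K + 1 - K + (K - ρ + 1))) := by
      unfold bo
      split_ifs <;> ring
    rw [e4, e5, e7]
    unfold omw
    ring
  rw [r1, sum_congr rfl lP, sum_congr rfl lQ]
  simp only [sum_add_distrib, sum_sub_distrib, ← mul_sum]
  unfold netE grossE gainE midE
  rw [hA, h5, m0, mE]
  unfold pairNetE own deepNetE
  rw [if_pos hVt, if_pos hVt]
  ring

/-! ### Deep charge of a stray with doubled role -/

/-- deep right labels made by the stray at depth `t ≤ V` of `Q` and the point `x`: midpoints -/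
def aRin (D ρ E t : ℤ) (x : P3) : ℝ :=
  if x.1 = false then
    1 / 2 * (bo (0 < (t + x.2 - D + 0) / 2 ∧ ρ < (t + x.2 - D + 0) / 2)
      + bo (0 < (t + x.2 - D + E) / 2 ∧ ρ < (t + x.2 - D + E) / 2))
  else
    1 / 2 * omw t x.2 * (bo (0 < (t - x.2 + 0) / 2 ∧ ρ < (t - x.2 + 0) / 2)
      + bo (0 < (t - x.2 + E) / 2 ∧ ρ < (t - x.2 + E) / 2))

lemma aRin_nonneg (D ρ E t : ℤ) (x : P3) : 0 ≤ aRin D ρ E t x := by
  unfold aRin
  have h := omw_nonneg t x.2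
  split_ifs
  · have h1 := bo_nonneg (0 < (t + x.2 - D + 0) / 2 ∧ ρ < (t + x.2 - D + 0) / 2)
    have h2 := bo_nonneg (0 < (t + x.2 - D + E) / 2 ∧ ρ < (t + x.2 - D + E) / 2)
    positivity
  · have h1 := bo_nonneg (0 < (t - x.2 + 0) / 2 ∧ ρ < (t - x.2 + 0) / 2)
    have h2 := bo_nonneg (0 < (t - x.2 + E) / 2 ∧ ρ < (t - x.2 + E) / 2)
    positivity

lemma aRin_P (D ρ E t u : ℤ) : aRin D ρ E t (false, u)
    = 1 / 2 * ((if 0 < (t + u - D + 0) / 2 ∧ ρ < (t + u - D + 0) / 2 then 1 else 0)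
      + (if 0 < (t + u - D + E) / 2 ∧ ρ < (t + u - D + E) / 2 then 1 else 0)) := by
  unfold aRin bo
  rw [if_pos rfl]

lemma aRin_Q (D ρ E t u : ℤ) : aRin D ρ E t (true, u)
    = 1 / 2 * omw t u * ((if 0 < (t - u + 0) / 2 ∧ ρ < (t - u + 0) / 2 then 1 else 0)
      + (if 0 < (t - u + E) / 2 ∧ ρ < (t - u + E) / 2 then 1 else 0)) := by
  unfold aRin bo
  rw [if_neg (by simp)]

lemma T1_aRin (P Q : WS) {D ρ V E t : ℤ} (hVt : t ≤ V) :
    T1 P Q (aRin D ρ E t) = exoA P Q deeper D V E (D - ρ) t := by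
  rw [T1_eq]
  unfold exoA midN mid exA cp inD
  rw [if_neg (by omega), show D - (D - ρ) = ρ by ring]
  have e1 : ∀ j : ℤ, (if 0 < j then (if ρ < j then (1:ℝ) else 0) else 0)
      = if 0 < j ∧ ρ < j then 1 else 0 := fun j => (ite_and _ _ _ _).symm
  simp only [e1, aRin_P, aRin_Q]
  have lP : ∀ a ∈ P.S, P.f a * (1 / 2 * ((if 0 < (t + P.u a - D + 0) / 2
          ∧ ρ < (t + P.u a - D + 0) / 2 then (1:ℝ) else 0)
      + (if 0 < (t + P.u a - D + E) / 2 ∧ ρ < (t + P.u a - D + E) / 2 then 1 else 0)))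
      = 1 / 2 * (P.f a * (if 0 < (t + P.u a - D + 0) / 2
          ∧ ρ < (t + P.u a - D + 0) / 2 then (1:ℝ) else 0)
        + P.f a * (if 0 < (t + P.u a - D + E) / 2
          ∧ ρ < (t + P.u a - D + E) / 2 then 1 else 0)) := by
    intro a _
    ring
  have lQ : ∀ q ∈ Q.S, Q.f q * (1 / 2 * omw t (Q.u q) * ((if 0 < (t - Q.u q + 0) / 2
          ∧ ρ < (t - Q.u q + 0) / 2 then (1:ℝ) else 0)
      + (if 0 < (t - Q.u q + E) / 2 ∧ ρ < (t - Q.u q + E) / 2 then 1 else 0)))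
      = 1 / 2 * (Q.f q * ((if Q.u q < 0 then deeper t (-Q.u q) else 1)
          * (if 0 < (t - Q.u q + 0) / 2 ∧ ρ < (t - Q.u q + 0) / 2 then (1:ℝ) else 0))
        + Q.f q * ((if Q.u q < 0 then deeper t (-Q.u q) else 1)
          * (if 0 < (t - Q.u q + E) / 2 ∧ ρ < (t - Q.u q + E) / 2 then 1 else 0))) := by
    intro q _
    unfold omw
    ring
  rw [sum_congr rfl lP, sum_congr rfl lQ]
  simp only [sum_add_distrib, ← mul_sum]
  ring

/-- THE DEEP CHARGE, `t ≤ V`, exactly -/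
theorem dch_T_in {P Q : WS} {D ρ V E t : ℤ} (hVt : t ≤ V) :
    dchE P Q deeper D ρ V E t
      = max 0 (T1 P Q (aRin D ρ E t) - T1 P Q (bR t)) * T2 P Q (kQP (D - ρ + 1))
        + max 0 (T1 P Q (aL D ρ t) - T1 P Q (bL t)) * T2 P Q (kPQ (D - ρ + 1)) := by
  rw [T1_aRin P Q hVt, T1_bR, T1_aL, T1_bL, T2_kQP, T2_kPQ]
  rfl

/-- the deep charge in three-point form, `t ≤ V` -/
def dk3in (D ρ E t : ℤ) (eR eL sR sL : ℝ) (x y z : P3) : ℝ :=
  eR * ((aRin D ρ E t x - sR * bR t x) * kQP (D - ρ + 1) y z)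
    + eL * ((aL D ρ t x - sL * bL t x) * kPQ (D - ρ + 1) y z)

lemma T3_dk3in (P Q : WS) (D ρ E t : ℤ) (eR eL sR sL : ℝ) :
    T3 P Q (dk3in D ρ E t eR eL sR sL)
      = eR * ((T1 P Q (aRin D ρ E t) - sR * T1 P Q (bR t)) * T2 P Q (kQP (D - ρ + 1)))
        + eL * ((T1 P Q (aL D ρ t) - sL * T1 P Q (bL t)) * T2 P Q (kPQ (D - ρ + 1))) := by
  unfold dk3in
  rw [T3_add P Q (fun x y z => eR * ((aRin D ρ E t x - sR * bR t x) * kQP (D - ρ + 1) y z)),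
    T3_mul P Q eR, T3_mul P Q eL, T3_prod P Q (fun x => aRin D ρ E t x - sR * bR t x),
    T3_prod P Q (fun x => aL D ρ t x - sL * bL t x), T1_sub, T1_sub, T1_mul, T1_mul]

/-- the deep charge, `t ≤ V`, useless pairs dropped -/
theorem dch_drop_in {P Q : WS} {D K V E N : ℤ} {ξR ξL : ℤ → ℝ} (h : Env P Q D K V E N ξR ξL)
    {ρ t : ℤ} (hVt : t ≤ V) :
    dchE P Q deeper D ρ V E t ≤ T3 P Q (dk3in D ρ E t 1 1 0 0) := by
  rw [dch_T_in hVt, T3_dk3in, zero_mul, zero_mul, sub_zero, sub_zero, one_mul, one_mul]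
  have a1 := h.T1_nonneg (c := aRin D ρ E t) (fun x _ => aRin_nonneg _ _ _ _ _)
  have a2 := h.T1_nonneg (c := bR t) (fun x _ => bR_nonneg _ _)
  have a3 := h.T1_nonneg (c := aL D ρ t) (fun x _ => aL_nonneg _ _ _ _)
  have a4 := h.T1_nonneg (c := bL t) (fun x _ => bL_nonneg _ _)
  have b1 : 0 ≤ T2 P Q (kQP (D - ρ + 1)) := by
    rw [T2_kQP]
    exact dd_nonneg h.gQ h.gP _
  have b2 : 0 ≤ T2 P Q (kPQ (D - ρ + 1)) := by
    rw [T2_kPQ]
    exact dd_nonneg h.gP h.gQ _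
  exact add_le_add (mul_le_mul_of_nonneg_right (max_le a1 (by linarith)) b1)
    (mul_le_mul_of_nonneg_right (max_le a3 (by linarith)) b2)

/-! ### The general row -/

/-- one-body part of a row, any lower bound `n1` of the net -/
def m1g (K ρ E t : ℤ) (n1 : P3 → ℝ) (pR pL : P3 → ℤ → ℝ) (X1 : P3 → ℝ) (x : P3) : ℝ :=
  n1 x - kapE K ρ * fC (4 * K + 1) K E t x + ∑ s ∈ Ico 0 (4 * K + 1), (pR x s + pL x s) - X1 x

/-- three-body part of a row, any lower bound `n3` of the net -/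
def m3g (K : ℤ) (f : ℝ) (n3 : P3 → P3 → P3 → ℝ) (pR mR pL mL : P3 → ℤ → ℝ)
    (ν : P3 → P3 → ℝ) (o : P3 → ℝ) (dk X3 : P3 → P3 → P3 → ℝ) (x y z : P3) : ℝ :=
  n3 x y z - dk x y z - cov3 (4 * K + 1) pR mR pL mL x y z
    + far3 (4 * K + 1) f ν x y z + out3 (4 * K + 1) o x y z - X3 x y z

/-- GENERAL ROW FROM ONE POINTWISE INEQUALITY: `net ≥ T1 n1 + T3 n3 - C1 K` is all that is used
about the net; any depth beyond the near threshold -/
theorem row3g {K0 : ℤ} {f : ℝ} {P Q : WS} {D K ρ V E N : ℤ} {ξR ξL : ℤ → ℝ}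
    (h : EnvS K0 f P Q D K ρ V E N ξR ξL) {lo t : ℤ} (hNt : nearE D < t)
    {n1 : P3 → ℝ} {n3 : P3 → P3 → P3 → ℝ} {C1 : ℝ}
    (hnet : T1 P Q n1 + T3 P Q n3 - C1 * K ≤ netE P Q deeper D K (K - ρ) ρ ρ V E lo t)
    {pR mR pL mL : P3 → ℤ → ℝ}
    (hpR : ∀ x, InR D K x → ∀ s, 0 ≤ s → s < D → 0 ≤ pR x s)
    (hpL : ∀ x, InR D K x → ∀ s, 0 ≤ s → s < D → 0 ≤ pL x s)
    (hmR : ∀ x, InR D K x → Maj D E (pR x) (mR x))
    (hmL : ∀ x, InR D K x → Maj D E (pL x) (mL x))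
    {ν : P3 → P3 → ℝ} (hν : ∀ x y, 0 ≤ ν x y)
    {o : P3 → ℝ} {o0 : ℝ} (ho : ∀ x, InR D K x → 0 ≤ o x) (ho1 : ∀ x, InR D K x → o x ≤ o0)
    (ho0 : 0 ≤ o0)
    {dk : P3 → P3 → P3 → ℝ} (hdk : dchE P Q deeper D ρ V E t ≤ T3 P Q dk)
    {X1 : P3 → ℝ} {X3 : P3 → P3 → P3 → ℝ} {C0 : ℝ}
    (hX : -(C0 * K) ≤ T1 P Q X1 + T3 P Q X3)
    (hm : ∀ x, InR D K x → 0 ≤ m1g K ρ E t n1 pR pL X1 x)
    {κ : Type} (I : Finset κ) (s : κ → P3 → P3 → ℝ) {c : ℝ} (hc : 0 ≤ c)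
    (hpt : ∀ x y z, InR D K x → InR D K y → InR D K z →
      2 * sq3 I s x y z ≤ sym6 (fun x y z => m1g K ρ E t n1 pR pL X1 x / (3 * D + 11)
        + m3g K f n3 pR mR pL mL ν o dk X3 x y z) x y z + c / K)
    {C : ℝ} (hC : 3 * c + 143 * o0 + C0 + C1 ≤ C) :
    deepD P Q D K ρ V E (nearE D) (kapE K ρ) t - C * K
      ≤ netE P Q deeper D K (K - ρ) ρ ρ V E lo t := by
  have hD := h.hD
  have hKr : (10000:ℝ) ≤ K := by exact_mod_cast h.hK1
  have hDr : (D:ℝ) = 4 * K + 1 := by exact_mod_cast hD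
  have p := point3 h hm I s hc hpt
  have cov := cov3_ge h.toEnv hpR hpL hmR hmL
  have far := far3_le h hν
  have out := out3_le h ho ho1 ho0
  have farC := farC_T (P := P) (Q := Q) (D := D) (K := K) (E := E) (N := nearE D) (t := t) hNt
  have e1 : T1 P Q (m1g K ρ E t n1 pR pL X1) = T1 P Q n1
      - kapE K ρ * T1 P Q (fC D K E t)
      + T1 P Q (fun x => ∑ s ∈ Ico 0 D, (pR x s + pL x s)) - T1 P Q X1 := by
    rw [← T1_mul, ← T1_sub, ← T1_add, ← T1_sub, hD]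
    rfl
  have e2 : T3 P Q (m3g K f n3 pR mR pL mL ν o dk X3)
      = T3 P Q n3 - T3 P Q dk - T3 P Q (cov3 D pR mR pL mL)
        + T3 P Q (far3 D f ν) + T3 P Q (out3 D o) - T3 P Q X3 := by
    rw [← T3_sub, ← T3_sub, ← T3_add, ← T3_add, ← T3_sub, hD]
    rfl
  rw [e1, e2] at p
  have e3 : 11 * o0 * (3 * D + 11) ≤ 143 * o0 * K := by
    rw [hDr]
    nlinarith
  have e4 : (3 * c + 143 * o0 + C0 + C1) * K ≤ C * K :=
    mul_le_mul_of_nonneg_right hC (by linarith)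
  unfold deepD
  rw [farC]
  linarith

/-- ROW OF A STRAY WITH DOUBLED ROLE (`nearE D < t ≤ V`): `hnet` of `row3g` with the exact kernels -/
theorem net_in_T {K0 : ℤ} {f : ℝ} {P Q : WS} {D K ρ V E N : ℤ} {ξR ξL : ℤ → ℝ}
    (h : EnvS K0 f P Q D K ρ V E N ξR ξL) {lo t : ℤ} (hlo0 : 0 ≤ lo) (hlo : lo ≤ 1)
    (hNt : nearE D < t) (hVt : t ≤ V) :
    T1 P Q (n1in K ρ E lo t) + T3 P Q (n3in K ρ V E lo t) - 0 * K
      ≤ netE P Q deeper D K (K - ρ) ρ ρ V E lo t := by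
  have h1 := h.near_nonneg
  have h2 := h.hρK
  have h3 := h.hρ
  have e := net3in (P := P) (Q := Q) (K := K) (ρ := ρ) (V := V) (E := E) (lo := lo) (t := t)
    h.dP h.dQ (by omega) hVt hlo0 hlo (by omega)
  rw [← h.hD] at e
  linarith

/-- the same for a stray without doubled role -/
theorem net_out_T {K0 : ℤ} {f : ℝ} {P Q : WS} {D K ρ V E N : ℤ} {ξR ξL : ℤ → ℝ}
    (h : EnvS K0 f P Q D K ρ V E N ξR ξL) {lo t : ℤ} (hlo : lo ≤ 1) (hVt : V < t) :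
    T1 P Q (n1out K ρ E lo t) + T3 P Q (n3out K ρ V E lo t) - 0 * K
      ≤ netE P Q deeper D K (K - ρ) ρ ρ V E lo t := by
  have h1 := h.hρV
  have h2 := h.hρK
  have h3 := h.hρ
  have e := net3 (P := P) (Q := Q) (K := K) (ρ := ρ) (V := V) (E := E) (lo := lo) (t := t)
    h.dP h.dQ (by omega) hVt hlo (by omega)
  rw [← h.hD] at e
  linarith

end

end MP61673a.Fin
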