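import Pool.Agent.Mu673.Kink4
import Pool.Agent.Mu673.Net3In

/-!
GLUE between piecewise linear label prices in node units and the integer frame.
`r = M / D` = node units per integer. Label coordinate of the price of the label `s` (depth
counted from the far end of the outer third): `r (D - s) - σ`, so that `gdep` at `j = D - s` is at
`r j - σ`.
-/

set_option autoImplicit false

namespace MP61673a.Kink

open Finset

noncomputable section

/-! ### Sums of hats -/

/-- half the square of the positive part -/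
def qp (y : ℝ) : ℝ := (max 0 y) ^ 2 / 2

/-- positive part against the increment of `qp` -/
lemma qp_step {y r : ℝ} (hr : 0 ≤ r) :
    0 ≤ r * max 0 y - (qp y - qp (y - r)) ∧ r * max 0 y - (qp y - qp (y - r)) ≤ r ^ 2 / 2 := by
  unfold qp
  rcases le_total 0 y with h | h
  · rw [max_eq_right h]
    rcases le_total 0 (y - r) with h1 | h1
    · rw [max_eq_right h1]
      constructor
      · have : r * y - (y ^ 2 / 2 - (y - r) ^ 2 / 2) = r ^ 2 / 2 := by ring
        rw [this]
        positivity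
      · have : r * y - (y ^ 2 / 2 - (y - r) ^ 2 / 2) = r ^ 2 / 2 := by ring
        rw [this]
    · rw [max_eq_left h1]
      constructor
      · nlinarith
      · nlinarith [sq_nonneg (y - r)]
  · rw [max_eq_left h, max_eq_left (by linarith : y - r ≤ 0)]
    constructor
    · simp
    · have := sq_nonneg r
      simp
      linarith

/-- antiderivative of the hat at `0` -/
def Hc (y : ℝ) : ℝ := qp (y + 1) - 2 * qp y + qp (y - 1)

lemma hat_eq_pos (k : ℤ) (x : ℝ) :
    hat k x = max 0 (x - k + 1) - 2 * max 0 (x - k) + max 0 (x - k - 1) := by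
  unfold hat
  rcases le_total 0 (x - k) with h | h
  · rw [abs_of_nonneg h]
    rcases le_total (x - k) 1 with h1 | h1
    · rw [max_eq_right (by linarith), max_eq_right (by linarith), max_eq_right (by linarith),
        max_eq_left (by linarith)]
      ring
    · rw [max_eq_left (by linarith), max_eq_right (by linarith), max_eq_right (by linarith),
        max_eq_right (by linarith)]
      ring
  · rw [abs_of_nonpos h]
    rcases le_total (-1) (x - k) with h1 | h1
    · rw [max_eq_right (by linarith), max_eq_right (by linarith), max_eq_left (by linarith),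
        max_eq_left (by linarith)]
      ring
    · rw [max_eq_left (by linarith), max_eq_left (by linarith), max_eq_left (by linarith),
        max_eq_left (by linarith)]
      ring

lemma hat_step {k : ℤ} {x r : ℝ} (hr : 0 ≤ r) :
    Hc (x - k) - Hc (x - r - k) - r ^ 2 ≤ r * hat k x := by
  rw [hat_eq_pos]
  unfold Hc
  have h1 := (qp_step (y := x - k + 1) hr).1
  have h2 := (qp_step (y := x - k) hr).2
  have h3 := (qp_step (y := x - k - 1) hr).1
  have e1 : x - k + 1 - r = x - r - k + 1 := by ring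
  have e2 : x - k - r = x - r - k := by ring
  have e3 : x - k - 1 - r = x - r - k - 1 := by ring
  rw [e1] at h1
  rw [e2] at h2
  rw [e3] at h3
  linarith

/-- weight of the node `k` in the sum of a label function over the outer third -/
def wHat (M : ℤ) (σ : ℝ) (k : ℤ) : ℝ := Hc (M - σ - k) - Hc (-σ - k)

/-- sum of a hat over the labels of the outer third -/
theorem sum_hat_ge {D M : ℤ} (hD : 0 < D) (hM : 0 ≤ M) (σ : ℝ) (k : ℤ) :
    (D:ℝ) / M * wHat M σ k - M ≤ ∑ s ∈ Ico 0 D, hat k ((M:ℝ) / D * (D - s) - σ) := by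
  have hD' : (0:ℝ) < D := by exact_mod_cast hD
  have hM' : (0:ℝ) ≤ M := by exact_mod_cast hM
  rcases hM'.eq_or_lt with h0 | hMp
  · have hs : 0 ≤ ∑ s ∈ Ico 0 D, hat k ((M:ℝ) / D * (D - s) - σ) :=
      sum_nonneg fun _ _ => hat_nonneg _ _
    rw [← h0] at hs ⊢
    simpa using hs
  set r : ℝ := (M:ℝ) / D with hr
  have hr0 : 0 < r := div_pos hMp hD'
  -- telescoping
  have tel : ∀ m : ℕ, Hc (r * m - σ - k) - Hc (-σ - k) - m * r ^ 2
      ≤ r * ∑ i ∈ range m, hat k (r * (i + 1) - σ) := by
    intro m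
    induction m with
    | zero => simp
    | succ m ih =>
      rw [sum_range_succ, mul_add]
      have h := hat_step (k := k) (x := r * (m + 1) - σ) hr0.le
      have e : r * ((m:ℝ) + 1) - σ - r - k = r * m - σ - k := by ring
      rw [e] at h
      push_cast
      linarith
  have hm := tel D.toNat
  have e1 : ((D.toNat : ℕ) : ℝ) = D := by
    have : ((D.toNat : ℕ) : ℤ) = D := Int.toNat_of_nonneg hD.le
    exact_mod_cast this
  rw [e1] at hm
  have e2 : ∑ i ∈ range D.toNat, hat k (r * ((i:ℝ) + 1) - σ)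
      = ∑ s ∈ Ico 0 D, hat k (r * (D - s) - σ) := by
    refine sum_bij' (fun i _ => D - 1 - (i:ℤ)) (fun s _ => (D - 1 - s).toNat) ?_ ?_ ?_ ?_ ?_
    · intro i hi
      rw [mem_range] at hi
      rw [mem_Ico]
      omega
    · intro s hs
      rw [mem_Ico] at hs
      rw [mem_range]
      omega
    · intro i hi
      rw [mem_range] at hi
      simp
    · intro s hs
      rw [mem_Ico] at hs
      omega
    · intro i hi
      congr 2
      push_cast
      ring
  rw [e2] at hm
  have e3 : r * (D:ℝ) = M := by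
    rw [hr]
    field_simp
  rw [e3] at hm
  unfold wHat
  have e4 : (D:ℝ) * r ^ 2 = M * r := by
    rw [← e3]
    ring
  rw [e4] at hm
  have e5 : (D:ℝ) / M = 1 / r := by
    rw [hr]
    field_simp
  rw [e5]
  have e6 : 1 / r * (Hc (M - σ - k) - Hc (-σ - k)) - M
      = 1 / r * (Hc (M - σ - k) - Hc (-σ - k) - M * r) := by
    field_simp
  rw [e6]
  calc 1 / r * (Hc (M - σ - k) - Hc (-σ - k) - M * r)
      ≤ 1 / r * (r * ∑ s ∈ Ico 0 D, hat k (r * (D - s) - σ)) :=
        mul_le_mul_of_nonneg_left hm (by positivity)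
    _ = ∑ s ∈ Ico 0 D, hat k (r * (D - s) - σ) := by
        field_simp

/-- SUM OF A PIECEWISE LINEAR PRICE over the labels of the outer third, from its node values -/
theorem sum_pl_ge {D M : ℤ} (hD : 0 < D) (hM : 0 ≤ M) {σ : ℝ} (h0 : 0 ≤ σ) (h1 : σ ≤ 1)
    {lam : ℤ → ℝ} (hl : ∀ k, 0 ≤ lam k) :
    (D:ℝ) / M * ∑ k ∈ Icc (-1) (M + 1), lam k * wHat M σ k
        - M * ∑ k ∈ Icc (-1) (M + 1), lam k
      ≤ ∑ s ∈ Ico 0 D, pl lam ((M:ℝ) / D * (D - s) - σ) := by
  have hD' : (0:ℝ) < D := by exact_mod_cast hD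
  have hM' : (0:ℝ) ≤ M := by exact_mod_cast hM
  have e1 : ∑ s ∈ Ico 0 D, pl lam ((M:ℝ) / D * (D - s) - σ)
      = ∑ k ∈ Icc (-1) (M + 1), lam k * ∑ s ∈ Ico 0 D, hat k ((M:ℝ) / D * (D - s) - σ) := by
    have : ∀ s ∈ Ico 0 D, pl lam ((M:ℝ) / D * (D - s) - σ)
        = ∑ k ∈ Icc (-1) (M + 1), hat k ((M:ℝ) / D * (D - s) - σ) * lam k := by
      intro s hs
      rw [mem_Ico] at hs
      have s0 : (0:ℝ) ≤ s := by exact_mod_cast hs.1
      have s1 : (s:ℝ) ≤ D := by exact_mod_cast hs.2.le
      apply pl_eq_sum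
      apply near_Icc
      · push_cast
        have : 0 ≤ (M:ℝ) / D * (D - s) := mul_nonneg (div_nonneg hM' hD'.le) (by linarith)
        linarith
      · push_cast
        have : (M:ℝ) / D * (D - s) ≤ (M:ℝ) / D * D :=
          mul_le_mul_of_nonneg_left (by linarith) (div_nonneg hM' hD'.le)
        have e : (M:ℝ) / D * D = M := by field_simp
        linarith
    rw [sum_congr rfl this, sum_comm]
    refine sum_congr rfl fun k _ => ?_
    rw [mul_sum]
    exact sum_congr rfl fun s _ => mul_comm _ _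
  rw [e1, mul_sum, mul_sum, ← sum_sub_distrib]
  refine sum_le_sum fun k _ => ?_
  have h := mul_le_mul_of_nonneg_left (sum_hat_ge hD hM σ k) (hl k)
  refine le_trans (le_of_eq ?_) h
  ring

/-! ### Averages of a piecewise linear function -/

/-- positive part of the second difference -/
def d2p (lam : ℤ → ℝ) (k : ℤ) : ℝ := max 0 (lam (k - 1) - 2 * lam k + lam (k + 1))

/-- node values of the majorant of the averages `(f (x + h) + f (x - h)) / 2`, `|h| ≤ d` -/
def avN (d : ℝ) (lam : ℤ → ℝ) (k : ℤ) : ℝ := lam k + d / 2 * d2p lam k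

lemma d2p_nonneg (lam : ℤ → ℝ) (k : ℤ) : 0 ≤ d2p lam k := le_max_left _ _

lemma le_avN {d : ℝ} (hd : 0 ≤ d) (lam : ℤ → ℝ) (k : ℤ) : lam k ≤ avN d lam k := by
  unfold avN
  have := mul_nonneg (by positivity : 0 ≤ d / 2) (d2p_nonneg lam k)
  linarith

lemma pl_mono {f g : ℤ → ℝ} (h : ∀ k, f k ≤ g k) (x : ℝ) : pl f x ≤ pl g x := by
  unfold pl
  have h0 := Int.fract_nonneg x
  have h1 := Int.fract_lt_one x
  have e1 := mul_le_mul_of_nonneg_left (h ⌊x⌋) (by linarith : 0 ≤ 1 - Int.fract x)
  have e2 := mul_le_mul_of_nonneg_left (h (⌊x⌋ + 1)) h0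
  linarith

/-- average of two values at distance `≤ 2 d`, `d ≤ 1` -/
theorem avg_le {d h x : ℝ} (hd : d ≤ 1) (h0 : 0 ≤ h) (hh : h ≤ d) (lam : ℤ → ℝ) :
    pl lam (x + h) + pl lam (x - h) ≤ 2 * pl (avN d lam) x := by
  obtain ⟨k, hk⟩ : ∃ k : ℤ, k = ⌊x⌋ := ⟨_, rfl⟩
  have k0 : (k:ℝ) ≤ x := by
    rw [hk]
    exact Int.floor_le x
  have k1 : x ≤ k + 1 := by
    rw [hk]
    exact (Int.lt_floor_add_one x).le
  set s : ℝ := x - k with hs
  have s0 : 0 ≤ s := by linarith
  have s1 : s ≤ 1 := by linarith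
  have px : ∀ f : ℤ → ℝ, pl f x = (1 - s) * f k + s * f (k + 1) := fun f => by
    rw [pl_of_mem f k0 k1, hs]
    ring
  -- upper point
  have up : pl lam (x + h) ≤ (1 - s) * lam k + s * lam (k + 1) + h * (lam (k + 1) - lam k)
      + d * s * d2p lam (k + 1) := by
    have hp := d2p_nonneg lam (k + 1)
    rcases le_total (x + h) (k + 1) with c | c
    · rw [pl_of_mem lam (show (k:ℝ) ≤ x + h by linarith) c]
      have : 0 ≤ d * s * d2p lam (k + 1) :=
        mul_nonneg (mul_nonneg (by linarith) s0) hp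
      have e : x + h - k = s + h := by rw [hs]; ring
      have e' : (k:ℝ) + 1 - (x + h) = 1 - (s + h) := by rw [hs]; ring
      rw [e, e']
      linarith
    · have c1 : ((k + 1 : ℤ):ℝ) ≤ x + h := by push_cast; exact c
      have c2 : x + h ≤ ((k + 1 : ℤ):ℝ) + 1 := by push_cast; linarith
      rw [pl_of_mem lam c1 c2]
      have hle : lam (k + 1 - 1) - 2 * lam (k + 1) + lam (k + 1 + 1) ≤ d2p lam (k + 1) :=
        le_max_right _ _
      have ek : k + 1 - 1 = k := by ring
      rw [ek] at hle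
      have e : x + h - ((k + 1 : ℤ):ℝ) = s + h - 1 := by
        rw [hs]
        push_cast
        ring
      have e' : ((k + 1 : ℤ):ℝ) + 1 - (x + h) = 2 - s - h := by
        rw [hs]
        push_cast
        ring
      rw [e, e']
      have v0 : 0 ≤ s + h - 1 := by
        rw [hs]
        linarith
      have v1 : s + h - 1 ≤ d * s := by nlinarith
      have a1 := mul_le_mul_of_nonneg_left hle v0
      have a2 := mul_le_mul_of_nonneg_right v1 hp
      linarith
  have lo : pl lam (x - h) ≤ (1 - s) * lam k + s * lam (k + 1) - h * (lam (k + 1) - lam k)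
      + d * (1 - s) * d2p lam k := by
    have hp := d2p_nonneg lam k
    rcases le_total (k:ℝ) (x - h) with c | c
    · rw [pl_of_mem lam c (show x - h ≤ k + 1 by linarith)]
      have : 0 ≤ d * (1 - s) * d2p lam k :=
        mul_nonneg (mul_nonneg (by linarith) (by linarith)) hp
      have e : x - h - k = s - h := by rw [hs]; ring
      have e' : (k:ℝ) + 1 - (x - h) = 1 - (s - h) := by rw [hs]; ring
      rw [e, e']
      linarith
    · have c1 : ((k - 1 : ℤ):ℝ) ≤ x - h := by push_cast; linarith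
      have c2 : x - h ≤ ((k - 1 : ℤ):ℝ) + 1 := by push_cast; linarith
      rw [pl_of_mem lam c1 c2]
      have hle : lam (k - 1) - 2 * lam k + lam (k + 1) ≤ d2p lam k := le_max_right _ _
      have ek : k - 1 + 1 = k := by ring
      rw [ek]
      have e : x - h - ((k - 1 : ℤ):ℝ) = s - h + 1 := by
        rw [hs]
        push_cast
        ring
      have e' : ((k - 1 : ℤ):ℝ) + 1 - (x - h) = h - s := by
        rw [hs]
        push_cast
        ring
      rw [e, e']
      have v0 : 0 ≤ h - s := by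
        rw [hs]
        linarith
      have v1 : h - s ≤ d * (1 - s) := by nlinarith
      have a1 := mul_le_mul_of_nonneg_left hle v0
      have a2 := mul_le_mul_of_nonneg_right v1 hp
      linarith
  rw [px]
  unfold avN
  linarith

/-! ### Values of the weights -/

lemma Hc_lo {y : ℝ} (h : y ≤ -1) : Hc y = 0 := by
  unfold Hc qp
  rw [max_eq_left (by linarith), max_eq_left (by linarith), max_eq_left (by linarith)]
  ring

lemma Hc_hi {y : ℝ} (h : 1 ≤ y) : Hc y = 1 := by
  unfold Hc qp
  rw [max_eq_right (by linarith), max_eq_right (by linarith), max_eq_right (by linarith)]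
  ring

lemma Hc_zero : Hc 0 = 1 / 2 := by
  unfold Hc qp
  norm_num

lemma Hc_half : Hc (1 / 2) = 7 / 8 := by
  unfold Hc qp
  norm_num

lemma Hc_neg_half : Hc (-(1 / 2)) = 1 / 8 := by
  unfold Hc qp
  norm_num

/-- mesh with nodes at the ends of the outer third: trapezoid weights -/
lemma wHat_zero {M k : ℤ} (hM : 1 ≤ M) :
    wHat M 0 k = if k = 0 ∨ k = M then 1 / 2 else if 0 < k ∧ k < M then 1 else 0 := by
  unfold wHat
  have hM' : (1:ℝ) ≤ M := by exact_mod_cast hM
  rcases lt_trichotomy k 0 with h | h | h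
  · have h' : (k:ℝ) ≤ -1 := by exact_mod_cast (by omega : k ≤ -1)
    rw [if_neg (by omega), if_neg (by omega), Hc_hi (by linarith), Hc_hi (by linarith)]
    ring
  · subst h
    rw [if_pos (Or.inl rfl), Hc_hi (by push_cast; linarith)]
    have : (-(0:ℝ) - ((0:ℤ):ℝ)) = 0 := by simp
    rw [this, Hc_zero]
    norm_num
  · have h' : (1:ℝ) ≤ k := by exact_mod_cast (by omega : 1 ≤ k)
    rw [Hc_lo (y := -0 - (k:ℝ)) (by linarith)]
    rcases lt_trichotomy k M with g | g | g
    · have g' : (k:ℝ) + 1 ≤ M := by exact_mod_cast (by omega : k + 1 ≤ M)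
      rw [if_neg (by omega), if_pos ⟨h, g⟩, Hc_hi (by linarith)]
      ring
    · subst g
      rw [if_pos (Or.inr rfl)]
      have : ((k:ℝ) - 0 - k) = 0 := by ring
      rw [this, Hc_zero]
      ring
    · have g' : (M:ℝ) + 1 ≤ k := by exact_mod_cast (by omega : M + 1 ≤ k)
      rw [if_neg (by omega), if_neg (by omega), Hc_lo (by linarith)]
      ring

/-- mesh with nodes at odd multiples of half a step -/
lemma wHat_half {M k : ℤ} (hM : 2 ≤ M) :
    wHat M (1 / 2) k = if k = -1 ∨ k = M then 1 / 8 else if k = 0 ∨ k = M - 1 then 7 / 8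
      else if 0 < k ∧ k < M then 1 else 0 := by
  unfold wHat
  have hM' : (2:ℝ) ≤ M := by exact_mod_cast hM
  rcases (by omega : k ≤ -2 ∨ k = -1 ∨ k = 0 ∨ 1 ≤ k) with h | h | h | h
  · have h' : (k:ℝ) ≤ -2 := by exact_mod_cast h
    rw [if_neg (by omega), if_neg (by omega), if_neg (by omega), Hc_hi (by linarith),
      Hc_hi (by linarith)]
    ring
  · subst h
    rw [if_pos (Or.inl rfl), Hc_hi (by push_cast; linarith)]
    have : (-(1/2:ℝ) - ((-1:ℤ):ℝ)) = 1 / 2 := by push_cast; ring
    rw [this, Hc_half]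
    norm_num
  · subst h
    rw [if_neg (by omega), if_pos (Or.inl rfl), Hc_hi (by push_cast; linarith)]
    have : (-(1/2:ℝ) - ((0:ℤ):ℝ)) = -(1 / 2) := by push_cast; ring
    rw [this, Hc_neg_half]
    norm_num
  · have h' : (1:ℝ) ≤ k := by exact_mod_cast h
    rw [Hc_lo (y := -(1/2) - (k:ℝ)) (by linarith)]
    rcases (by omega : k ≤ M - 2 ∨ k = M - 1 ∨ k = M ∨ M + 1 ≤ k) with g | g | g | g
    · have g' : (k:ℝ) + 2 ≤ M := by exact_mod_cast (by omega : k + 2 ≤ M)
      rw [if_neg (by omega), if_neg (by omega), if_pos (by omega), Hc_hi (by linarith)]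
      ring
    · have g' : (k:ℝ) = M - 1 := by rw [g]; push_cast; ring
      rw [if_neg (by omega), if_pos (Or.inr g)]
      have : ((M:ℝ) - 1 / 2 - k) = 1 / 2 := by rw [g']; ring
      rw [this, Hc_half]
      ring
    · have g' : (k:ℝ) = M := by rw [g]
      rw [if_pos (Or.inr g)]
      have : ((M:ℝ) - 1 / 2 - k) = -(1 / 2) := by rw [g']; ring
      rw [this, Hc_neg_half]
      ring
    · have g' : (M:ℝ) + 1 ≤ k := by exact_mod_cast g
      rw [if_neg (by omega), if_neg (by omega), if_neg (by omega), Hc_lo (by linarith)]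
      ring

end

end MP61673a.Kink

namespace MP61673a.Fin

open Finset MP61673a.W MP61673a.LiftW MP61673a.Mids MP61673a.Sos MP61673a.Kink
open MP61673a.Lift hiding PP QQ

noncomputable section

/-- price of the labels with node values `lam`; node coordinate of the label `s`:
`(M / D) (D - s) - σ` -/
def lblF (D M : ℤ) (σ : ℝ) (lam : ℤ → ℝ) (s : ℤ) : ℝ := pl lam ((M:ℝ) / D * (D - s) - σ)

/-- majorant for the midpoints -/
def mjF (D M : ℤ) (σ d : ℝ) (lam : ℤ → ℝ) (X : ℤ) : ℝ :=
  pl (avN d lam) ((M:ℝ) / D * (X / 2) - σ)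

lemma lblF_nonneg {lam : ℤ → ℝ} (h : ∀ k, 0 ≤ lam k) (D M : ℤ) (σ : ℝ) (s : ℤ) :
    0 ≤ lblF D M σ lam s := pl_nonneg h _

/-- the label price at `j` is at most the piecewise linear function -/
lemma gdep_lblF {lam : ℤ → ℝ} (h : ∀ k, 0 ≤ lam k) (D M : ℤ) (σ : ℝ) (j : ℤ) :
    gdep D (lblF D M σ lam) j ≤ pl lam ((M:ℝ) / D * j - σ) := by
  unfold gdep
  split_ifs
  · unfold lblF
    apply le_of_eq
    congr 2
    push_cast
    ring
  · exact pl_nonneg h _

/-- MAJORANT FOR THE MIDPOINTS from node values, fuzz `E`, `d ≥ M E / (2 D)` -/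
theorem maj_lblF {D E M : ℤ} (hD : 0 < D) (hM : 0 ≤ M) {σ d : ℝ}
    (hd : (M:ℝ) * E / (2 * D) ≤ d) (hd0 : 0 ≤ d) (hd1 : d ≤ 1) {lam : ℤ → ℝ}
    (hl : ∀ k, 0 ≤ lam k) : Maj D E (lblF D M σ lam) (mjF D M σ d lam) := by
  have hD' : (0:ℝ) < D := by exact_mod_cast hD
  have hM' : (0:ℝ) ≤ M := by exact_mod_cast hM
  constructor
  · intro X
    exact pl_nonneg (fun k => (hl k).trans (le_avN hd0 lam k)) _
  · intro j j' h1 h2
    have a1 := gdep_lblF hl D M σ j
    have a2 := gdep_lblF hl D M σ j'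
    have key : ∀ i i' : ℤ, i' ≤ i → i - i' ≤ E →
        pl lam ((M:ℝ) / D * i - σ) + pl lam ((M:ℝ) / D * i' - σ)
          ≤ 2 * mjF D M σ d lam (i + i') := by
      intro i i' g1 g2
      have g1' : (i':ℝ) ≤ i := by exact_mod_cast g1
      have g2' : (i:ℝ) - i' ≤ E := by exact_mod_cast g2
      have h0 : 0 ≤ (M:ℝ) / D * ((i - i') / 2) :=
        mul_nonneg (div_nonneg hM' hD'.le) (by linarith)
      have hh : (M:ℝ) / D * ((i - i') / 2) ≤ d := by
        refine le_trans ?_ hd
        have : (M:ℝ) * E / (2 * D) = (M:ℝ) / D * (E / 2) := by field_simp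
        rw [this]
        exact mul_le_mul_of_nonneg_left (by linarith) (div_nonneg hM' hD'.le)
      have := avg_le (x := (M:ℝ) / D * (((i + i' : ℤ):ℝ) / 2) - σ) hd1 h0 hh lam
      have e1 : (M:ℝ) / D * (((i + i' : ℤ):ℝ) / 2) - σ + (M:ℝ) / D * ((i - i') / 2)
          = (M:ℝ) / D * i - σ := by
        push_cast
        ring
      have e2 : (M:ℝ) / D * (((i + i' : ℤ):ℝ) / 2) - σ - (M:ℝ) / D * ((i - i') / 2)
          = (M:ℝ) / D * i' - σ := by
        push_cast
        ring
      rw [e1, e2] at this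
      exact this
    rcases le_total j' j with c | c
    · have := key j j' c h1
      linarith
    · have := key j' j c h2
      rw [add_comm j' j] at this
      linarith

/-- nonnegative combinations of majorants -/
lemma maj_sum {ι : Type*} (I : Finset ι) {D E : ℤ} (c : ι → ℝ) (hc : ∀ i ∈ I, 0 ≤ c i)
    (g G : ι → ℤ → ℝ) (h : ∀ i ∈ I, Maj D E (g i) (G i)) :
    Maj D E (fun s => ∑ i ∈ I, c i * g i s) (fun X => ∑ i ∈ I, c i * G i X) := by
  have e : ∀ j, gdep D (fun s => ∑ i ∈ I, c i * g i s) j = ∑ i ∈ I, c i * gdep D (g i) j := by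
    intro j
    unfold gdep
    split_ifs
    · rfl
    · simp
  constructor
  · intro X
    exact sum_nonneg fun i hi => mul_nonneg (hc i hi) ((h i hi).nonneg X)
  · intro j j' h1 h2
    rw [e, e, mul_sum, ← sum_add_distrib]
    refine sum_le_sum fun i hi => ?_
    have := mul_le_mul_of_nonneg_left ((h i hi).maj j j' h1 h2) (hc i hi)
    linarith

end

end MP61673a.Fin
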