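import Pool.Agent.Mu673.Net3In

/-!
TYPED ROWS: the general row theorem with parity classes (see `Typed`): the prices depend on the class
of the label, midpoints only between equal classes, both classes have share at least `1/3`.
-/

namespace MP61673a.Fin

open Finset MP61673a.W MP61673a.LiftW MP61673a.Mids MP61673a.Sos
open MP61673a.Lift hiding PP QQ

noncomputable section

section sums

variable (P Q : WS) (cl : P.ι ⊕ Q.ι → Bool)

lemma U1_add (c d : P4 → ℝ) :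
    U1 P Q cl (fun x => c x + d x) = U1 P Q cl c + U1 P Q cl d := by
  unfold U1
  rw [← sum_add_distrib]
  refine sum_congr rfl fun x _ => ?_
  ring

lemma U1_sub (c d : P4 → ℝ) :
    U1 P Q cl (fun x => c x - d x) = U1 P Q cl c - U1 P Q cl d := by
  unfold U1
  rw [← sum_sub_distrib]
  refine sum_congr rfl fun x _ => ?_
  ring

lemma U1_mul (r : ℝ) (c : P4 → ℝ) : U1 P Q cl (fun x => r * c x) = r * U1 P Q cl c := by
  unfold U1
  rw [mul_sum]
  refine sum_congr rfl fun x _ => ?_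
  ring

lemma U1_const (r : ℝ) : U1 P Q cl (fun _ => r) = r * (mass P + mass Q) := by
  have h := T1_const P Q r
  rw [← h]
  rfl

lemma U2_add (g h : P4 → P4 → ℝ) :
    U2 P Q cl (fun x y => g x y + h x y) = U2 P Q cl g + U2 P Q cl h := by
  unfold U2
  simp only [← sum_add_distrib]
  refine sum_congr rfl fun x _ => sum_congr rfl fun y _ => ?_
  ring

lemma U2_const (r : ℝ) : U2 P Q cl (fun _ _ => r) = r * (mass P + mass Q) ^ 2 := by
  have h := T2_const P Q r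
  rw [← h]
  rfl

lemma U2_mul (r : ℝ) (g : P4 → P4 → ℝ) :
    U2 P Q cl (fun x y => r * g x y) = r * U2 P Q cl g := by
  unfold U2
  simp only [mul_sum]
  refine sum_congr rfl fun x _ => sum_congr rfl fun y _ => ?_
  ring

lemma U3_add (F G : P4 → P4 → P4 → ℝ) :
    U3 P Q cl (fun x y z => F x y z + G x y z) = U3 P Q cl F + U3 P Q cl G :=
  tri_add _ _ _ _

lemma U3_mul (r : ℝ) (F : P4 → P4 → P4 → ℝ) :
    U3 P Q cl (fun x y z => r * F x y z) = r * U3 P Q cl F :=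
  tri_smul _ _ _ _

lemma U3_sub (F G : P4 → P4 → P4 → ℝ) :
    U3 P Q cl (fun x y z => F x y z - G x y z) = U3 P Q cl F - U3 P Q cl G := by
  have h := U3_add P Q cl (fun x y z => F x y z - G x y z) G
  have h2 : (fun x y z => F x y z - G x y z + G x y z) = F := by
    funext x y z
    ring
  rw [h2] at h
  linarith

lemma U3_prod (c : P4 → ℝ) (g : P4 → P4 → ℝ) :
    U3 P Q cl (fun x y z => c x * g y z) = U1 P Q cl c * U2 P Q cl g := by
  rw [U3_eq]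
  simp only [U2_mul]
  unfold U1
  rw [sum_mul]
  refine sum_congr rfl fun x _ => ?_
  ring

lemma U3_fst (c : P4 → ℝ) :
    U3 P Q cl (fun x _ _ => c x) = U1 P Q cl c * (mass P + mass Q) ^ 2 := by
  have h := U3_prod P Q cl c (fun _ _ => 1)
  rw [U2_const, one_mul] at h
  rw [← h]
  congr 1
  funext x y z
  ring

lemma U3_const (r : ℝ) :
    U3 P Q cl (fun _ _ _ => r) = r * (mass P + mass Q) ^ 3 := by
  rw [U3_fst P Q cl (fun _ => r), U1_const]
  ring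

end sums

variable {P Q : WS} {cl : P.ι ⊕ Q.ι → Bool} {lR lL : ℤ → Bool}

lemma Env.U1_mono {D K V E N : ℤ} {ξR ξL : ℤ → ℝ} (h : Env P Q D K V E N ξR ξL)
    (cl : P.ι ⊕ Q.ι → Bool) {c d : P4 → ℝ} (hcd : ∀ x : P4, InR D K x.2 → c x ≤ d x) :
    U1 P Q cl c ≤ U1 P Q cl d := by
  refine sum_le_sum fun x hx => ?_
  by_cases h0 : wt3 P Q x = 0
  · rw [h0, zero_mul, zero_mul]
  · exact mul_le_mul_of_nonneg_left (hcd _ (h.inR hx h0)) (wt3_nonneg h.gP h.gQ x hx)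

lemma Env.U1_nonneg {D K V E N : ℤ} {ξR ξL : ℤ → ℝ} (h : Env P Q D K V E N ξR ξL)
    (cl : P.ι ⊕ Q.ι → Bool) {c : P4 → ℝ} (hc : ∀ x : P4, InR D K x.2 → 0 ≤ c x) :
    0 ≤ U1 P Q cl c := by
  have h1 := h.U1_mono cl (c := fun _ => 0) hc
  rw [U1_const, zero_mul] at h1
  exact h1

lemma Env.U3_mono {D K V E N : ℤ} {ξR ξL : ℤ → ℝ} (h : Env P Q D K V E N ξR ξL)
    (cl : P.ι ⊕ Q.ι → Bool) {F G : P4 → P4 → P4 → ℝ}
    (hFG : ∀ x y z : P4, InR D K x.2 → InR D K y.2 → InR D K z.2 → F x y z ≤ G x y z) :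
    U3 P Q cl F ≤ U3 P Q cl G := by
  refine sum_le_sum fun x hx => sum_le_sum fun y hy => sum_le_sum fun z hz => ?_
  by_cases h0 : wt3 P Q x = 0
  · rw [h0]
    simp
  by_cases h1 : wt3 P Q y = 0
  · rw [h1]
    simp
  by_cases h2 : wt3 P Q z = 0
  · rw [h2]
    simp
  exact mul_le_mul_of_nonneg_left (hFG _ _ _ (h.inR hx h0) (h.inR hy h1) (h.inR hz h2))
    (mul_nonneg (mul_nonneg (wt3_nonneg h.gP h.gQ x hx) (wt3_nonneg h.gP h.gQ y hy))
      (wt3_nonneg h.gP h.gQ z hz))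

/-- typed coverage kernel, both sides, the prices depend on the typed point `x` -/
def cov3t (D : ℤ) (γR : P4 → Bool → ℤ → ℝ) (GR : P4 → ℤ → ℝ) (γL : P4 → Bool → ℤ → ℝ)
    (mL : P4 → ℤ → ℝ) (x y z : P4) : ℝ :=
  covRt D (γR x) (GR x) y z + covLt D (γL x) (mL x) y z

/-- TYPED COVERAGE, the prices depend on a third point -/
theorem cov3t_ge {D K V E N : ℤ} {ξR ξL : ℤ → ℝ} (h : Env P Q D K V E N ξR ξL)
    (ht : Typ P Q D E cl lR lL)
    {γR γL : P4 → Bool → ℤ → ℝ} {hR mR hL mL : P4 → ℤ → ℝ}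
    (pR : ∀ x : P4, InR D K x.2 → ∀ e s, 0 ≤ s → s < D → 0 ≤ γR x e s)
    (pL : ∀ x : P4, InR D K x.2 → ∀ e s, 0 ≤ s → s < D → 0 ≤ γL x e s)
    (qR : ∀ x : P4, InR D K x.2 → ∀ e s, 0 ≤ s → s < D → γR x e s ≤ hR x s)
    (qL : ∀ x : P4, InR D K x.2 → ∀ e s, 0 ≤ s → s < D → γL x e s ≤ hL x s)
    (jR : ∀ x : P4, InR D K x.2 → Maj D E (hR x) (mR x))
    (jL : ∀ x : P4, InR D K x.2 → Maj D E (hL x) (mL x)) :
    U1 P Q cl (fun x => ∑ s ∈ Ico 0 D, (γR x (lR s) s + γL x (lL s) s))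
      ≤ U3 P Q cl (cov3t D γR mR γL mL) := by
  rw [U3_eq]
  refine h.U1_mono cl fun x hx => ?_
  rw [sum_add_distrib]
  unfold cov3t
  rw [U2_add]
  exact add_le_add (ht.cR (γR x) (hR x) (mR x) (pR x hx) (qR x hx) (jR x hx))
    (ht.cL (γL x) (hL x) (mL x) (pL x hx) (qL x hx) (jL x hx))

/-- class shares, times any nonnegative function of the two other points -/
def cls3 (σ : Bool → P4 → P4 → ℝ) (x y z : P4) : ℝ :=
  σ false x y * (1 / 3 - (if z.1 = false then 1 else 0))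
    + σ true x y * (1 / 3 - (if z.1 = true then 1 else 0))

lemma cls3_le {D K V E N : ℤ} {ξR ξL : ℤ → ℝ} (h : Env P Q D K V E N ξR ξL)
    (ht : Typ P Q D E cl lR lL) {σ : Bool → P4 → P4 → ℝ} (hσ : ∀ b x y, 0 ≤ σ b x y) :
    U3 P Q cl (cls3 σ) ≤ 0 := by
  have w := wt3_nonneg h.gP h.gQ
  have h1 : ∀ b : Bool, U1 P Q cl (fun z => 1 / 3 - (if z.1 = b then 1 else 0)) ≤ 0 := by
    intro b
    rw [U1_sub, U1_const]
    have := ht.share b
    linarith
  have h2 : ∀ b : Bool, U3 P Q cl (fun x y z => σ b x y * (1 / 3 - (if z.1 = b then 1 else 0)))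
      ≤ 0 := by
    intro b
    have e : U3 P Q cl (fun x y z => σ b x y * (1 / 3 - (if z.1 = b then 1 else 0)))
        = ∑ x ∈ st3 P Q, ∑ y ∈ st3 P Q, wt3 P Q x * wt3 P Q y
          * σ b (pt4 P Q cl x) (pt4 P Q cl y)
          * U1 P Q cl (fun z => 1 / 3 - (if z.1 = b then 1 else 0)) := by
      unfold U3 tri U1
      refine sum_congr rfl fun x _ => sum_congr rfl fun y _ => ?_
      rw [mul_sum]
      refine sum_congr rfl fun z _ => ?_
      ring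
    rw [e]
    refine sum_nonpos fun x hx => sum_nonpos fun y hy => ?_
    exact mul_nonpos_of_nonneg_of_nonpos
      (mul_nonneg (mul_nonneg (w x hx) (w y hy)) (hσ _ _ _)) (h1 b)
  unfold cls3
  rw [U3_add]
  have a := h2 false
  have b := h2 true
  linarith

/-- typed version of the pointwise step -/
theorem point3t {K0 : ℤ} {f : ℝ} {D K ρ V E N : ℤ} {ξR ξL : ℤ → ℝ}
    (h : EnvS K0 f P Q D K ρ V E N ξR ξL) (cl : P.ι ⊕ Q.ι → Bool) {m : P4 → ℝ}
    {M : P4 → P4 → P4 → ℝ} (hm : ∀ x : P4, InR D K x.2 → 0 ≤ m x)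
    {κ : Type} (I : Finset κ) (s : κ → P4 → P4 → ℝ) {c : ℝ} (hc : 0 ≤ c)
    (hpt : ∀ x y z : P4, InR D K x.2 → InR D K y.2 → InR D K z.2 →
      2 * sq3 I s x y z ≤ sym6 (fun x y z => m x / (3 * D + 11) + M x y z) x y z + c / K) :
    -(3 * c * K) ≤ U1 P Q cl m + U3 P Q cl M := by
  have hKr : (10000:ℝ) ≤ K := by exact_mod_cast h.hK1
  have hDr : (D:ℝ) = 4 * K + 1 := by exact_mod_cast h.hD
  have hD0 : (0:ℝ) < 3 * D + 11 := by linarith
  have hS := h.sq_le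
  have mP := mass_nonneg h.gP
  have mQ := mass_nonneg h.gQ
  have q0 : 0 ≤ U3 P Q cl (sq3 I s) :=
    tri_sq3_nonneg (wt3_nonneg h.gP h.gQ) I (fun i x y => s i (pt4 P Q cl x) (pt4 P Q cl y))
  have q1 : U3 P Q cl (sym6 (fun x y z => m x / (3 * D + 11) + M x y z))
      = 6 * U3 P Q cl (fun x y z => m x / (3 * D + 11) + M x y z) :=
    tri_sym6 (st3 P Q) (wt3 P Q) (fun x y z => m (pt4 P Q cl x) / (3 * D + 11)
      + M (pt4 P Q cl x) (pt4 P Q cl y) (pt4 P Q cl z))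
  have q2 := h.toEnv.U3_mono cl hpt
  rw [U3_mul P Q cl 2, U3_add P Q cl (sym6 (fun x y z => m x / (3 * D + 11) + M x y z))
    (fun _ _ _ => c / K), U3_const, q1, U3_add P Q cl (fun x _ _ => m x / (3 * D + 11)) M,
    U3_fst P Q cl (fun x => m x / (3 * D + 11))] at q2
  have q3 : U1 P Q cl (fun x => m x / (3 * D + 11)) = U1 P Q cl m / (3 * D + 11) := by
    have : (fun x : P4 => m x / (3 * D + 11)) = fun x => (1 / (3 * D + 11)) * m x := by
      funext x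
      ring
    rw [this, U1_mul]
    ring
  rw [q3] at q2
  have q4 : 0 ≤ U1 P Q cl m := h.toEnv.U1_nonneg cl hm
  have q5 : U1 P Q cl m / (3 * D + 11) * (mass P + mass Q) ^ 2 ≤ U1 P Q cl m := by
    rw [div_mul_eq_mul_div, div_le_iff₀ hD0]
    exact mul_le_mul_of_nonneg_left hS q4
  have q6 : c / K * (mass P + mass Q) ^ 3 ≤ 18 * c * K := by
    have hSK : mass P + mass Q ≤ K := by
      by_contra h2
      push Not at h2
      nlinarith
    have h2 : (mass P + mass Q) ^ 3 ≤ (3 * D + 11) * K := by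
      rw [pow_succ]
      exact mul_le_mul hS hSK (by positivity) (by linarith)
    have h3 : (3 * (D:ℝ) + 11) * K ≤ 18 * K * K := by
      rw [hDr]
      nlinarith
    rw [div_mul_eq_mul_div, div_le_iff₀ (by linarith)]
    nlinarith [mul_le_mul_of_nonneg_left (h2.trans h3) hc]
  linarith

/-- one-body part of a typed row; `B x` = lower bound of the sum of the prices of the point `x` -/
def m1t (K ρ E t : ℤ) (n1 : P3 → ℝ) (B X1 : P4 → ℝ) (x : P4) : ℝ :=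
  n1 x.2 - kapE K ρ * fC (4 * K + 1) K E t x.2 + B x - X1 x

/-- three-body part of a typed row -/
def m3t (K : ℤ) (f : ℝ) (n3 : P3 → P3 → P3 → ℝ) (γR : P4 → Bool → ℤ → ℝ) (mR : P4 → ℤ → ℝ)
    (γL : P4 → Bool → ℤ → ℝ) (mL : P4 → ℤ → ℝ) (ν : P4 → P4 → ℝ) (σ : Bool → P4 → P4 → ℝ)
    (o : P4 → ℝ) (dk : P3 → P3 → P3 → ℝ) (X3 : P4 → P4 → P4 → ℝ) (x y z : P4) : ℝ :=
  n3 x.2 y.2 z.2 - dk x.2 y.2 z.2 - cov3t (4 * K + 1) γR mR γL mL x y z
    + ν x y * ((if 31 * (4 * K + 1) + 120 * z.2.2 ≤ 0 then 1 else 0) - f)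
    + cls3 σ x y z + o x * (outp (4 * K + 1) y.2 z.2 - 5 / 18) - X3 x y z

/-- TYPED GENERAL ROW FROM ONE POINTWISE INEQUALITY -/
theorem row3t {K0 : ℤ} {f : ℝ} {D K ρ V E N : ℤ} {ξR ξL : ℤ → ℝ}
    (h : EnvS K0 f P Q D K ρ V E N ξR ξL) (ht : Typ P Q D E cl lR lL) {lo t : ℤ}
    (hNt : nearE D < t)
    {n1 : P3 → ℝ} {n3 : P3 → P3 → P3 → ℝ} {C1 : ℝ}
    (hnet : T1 P Q n1 + T3 P Q n3 - C1 * K ≤ netE P Q deeper D K (K - ρ) ρ ρ V E lo t)
    {γR γL : P4 → Bool → ℤ → ℝ} {hR mR hL mL : P4 → ℤ → ℝ}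
    (pR : ∀ x : P4, InR D K x.2 → ∀ e s, 0 ≤ s → s < D → 0 ≤ γR x e s)
    (pL : ∀ x : P4, InR D K x.2 → ∀ e s, 0 ≤ s → s < D → 0 ≤ γL x e s)
    (qR : ∀ x : P4, InR D K x.2 → ∀ e s, 0 ≤ s → s < D → γR x e s ≤ hR x s)
    (qL : ∀ x : P4, InR D K x.2 → ∀ e s, 0 ≤ s → s < D → γL x e s ≤ hL x s)
    (jR : ∀ x : P4, InR D K x.2 → Maj D E (hR x) (mR x))
    (jL : ∀ x : P4, InR D K x.2 → Maj D E (hL x) (mL x))
    {B : P4 → ℝ} (hB : ∀ x : P4, InR D K x.2 →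
      B x ≤ ∑ s ∈ Ico 0 D, (γR x (lR s) s + γL x (lL s) s))
    {ν : P4 → P4 → ℝ} (hν : ∀ x y, 0 ≤ ν x y)
    {σ : Bool → P4 → P4 → ℝ} (hσ : ∀ b x y, 0 ≤ σ b x y)
    {o : P4 → ℝ} {o0 : ℝ} (ho : ∀ x : P4, InR D K x.2 → 0 ≤ o x)
    (ho1 : ∀ x : P4, InR D K x.2 → o x ≤ o0) (ho0 : 0 ≤ o0)
    {dk : P3 → P3 → P3 → ℝ} (hdk : dchE P Q deeper D ρ V E t ≤ T3 P Q dk)
    {X1 : P4 → ℝ} {X3 : P4 → P4 → P4 → ℝ} {C0 : ℝ}
    (hX : -(C0 * K) ≤ U1 P Q cl X1 + U3 P Q cl X3)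
    (hm : ∀ x : P4, InR D K x.2 → 0 ≤ m1t K ρ E t n1 B X1 x)
    {κ : Type} (I : Finset κ) (s : κ → P4 → P4 → ℝ) {c : ℝ} (hc : 0 ≤ c)
    (hpt : ∀ x y z : P4, InR D K x.2 → InR D K y.2 → InR D K z.2 →
      2 * sq3 I s x y z ≤ sym6 (fun x y z => m1t K ρ E t n1 B X1 x / (3 * D + 11)
        + m3t K f n3 γR mR γL mL ν σ o dk X3 x y z) x y z + c / K)
    {C : ℝ} (hC : 3 * c + 143 * o0 + C0 + C1 ≤ C) :
    deepD P Q D K ρ V E (nearE D) (kapE K ρ) t - C * K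
      ≤ netE P Q deeper D K (K - ρ) ρ ρ V E lo t := by
  have hD := h.hD
  have hKr : (10000:ℝ) ≤ K := by exact_mod_cast h.hK1
  have hDr : (D:ℝ) = 4 * K + 1 := by exact_mod_cast hD
  have w := wt3_nonneg h.gP h.gQ
  have p := point3t h cl hm I s hc hpt
  have cov := cov3t_ge h.toEnv ht pR pL qR qL jR jL
  have cB := h.toEnv.U1_mono cl hB
  have clf := cls3_le h.toEnv ht hσ
  -- far share
  have far : U3 P Q cl (fun x y z => ν x y
      * ((if 31 * (4 * K + 1) + 120 * z.2.2 ≤ 0 then 1 else 0) - f)) ≤ 0 := by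
    have h1 : U1 P Q cl (fun z => (if 31 * (4 * K + 1) + 120 * z.2.2 ≤ 0 then 1 else 0) - f)
        ≤ 0 := by
      have e := h.far ((31 * D + 119) / 120) (by omega)
      have e0 : U1 P Q cl (fun z => (if 31 * (4 * K + 1) + 120 * z.2.2 ≤ 0 then (1:ℝ) else 0) - f)
          = T1 P Q (fun z => (if 31 * (4 * K + 1) + 120 * z.2 ≤ 0 then 1 else 0) - f) := rfl
      rw [e0, T1_sub, T1_const, T1_eq]
      unfold farM at e
      have e1 : ∑ a ∈ P.S, P.f a * (if 31 * (4 * K + 1) + 120 * ((false, P.u a) : P3).2 ≤ 0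
          then 1 else 0)
          = ∑ a ∈ P.S, (if P.u a ≤ -((31 * D + 119) / 120) then P.f a else 0) := by
        refine sum_congr rfl fun a _ => ?_
        by_cases c : P.u a ≤ -((31 * D + 119) / 120)
        · rw [if_pos c, if_pos (show 31 * (4 * K + 1) + 120 * P.u a ≤ 0 by omega), mul_one]
        · rw [if_neg c, if_neg (show ¬ 31 * (4 * K + 1) + 120 * P.u a ≤ 0 by omega), mul_zero]
      have e2 : ∑ b ∈ Q.S, Q.f b * (if 31 * (4 * K + 1) + 120 * ((true, Q.u b) : P3).2 ≤ 0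
          then 1 else 0)
          = ∑ b ∈ Q.S, (if Q.u b ≤ -((31 * D + 119) / 120) then Q.f b else 0) := by
        refine sum_congr rfl fun b _ => ?_
        by_cases c : Q.u b ≤ -((31 * D + 119) / 120)
        · rw [if_pos c, if_pos (show 31 * (4 * K + 1) + 120 * Q.u b ≤ 0 by omega), mul_one]
        · rw [if_neg c, if_neg (show ¬ 31 * (4 * K + 1) + 120 * Q.u b ≤ 0 by omega), mul_zero]
      rw [e1, e2]
      linarith
    have h2 : U3 P Q cl (fun x y z => ν x y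
        * ((if 31 * (4 * K + 1) + 120 * z.2.2 ≤ 0 then 1 else 0) - f))
        = ∑ x ∈ st3 P Q, ∑ y ∈ st3 P Q, wt3 P Q x * wt3 P Q y
          * ν (pt4 P Q cl x) (pt4 P Q cl y)
          * U1 P Q cl (fun z => (if 31 * (4 * K + 1) + 120 * z.2.2 ≤ 0 then 1 else 0) - f) := by
      unfold U3 tri U1
      refine sum_congr rfl fun x _ => sum_congr rfl fun y _ => ?_
      rw [mul_sum]
      refine sum_congr rfl fun z _ => ?_
      ring
    rw [h2]
    refine sum_nonpos fun x hx => sum_nonpos fun y hy => ?_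
    exact mul_nonpos_of_nonneg_of_nonpos
      (mul_nonneg (mul_nonneg (w x hx) (w y hy)) (hν _ _)) h1
  -- parity count
  have out : U3 P Q cl (fun x y z => o x * (outp (4 * K + 1) y.2 z.2 - 5 / 18))
      ≤ 11 * o0 * (3 * D + 11) := by
    obtain ⟨x, hx⟩ := h.out
    have wM := winM_le h.gP h.gQ D x
    have hm' := tm_nonneg h.gP h.gQ
    have e1 : Out.outF P Q D ≤ 5 / 18 * tm P Q ^ 2 + 11 * tm P Q := by
      have : 0 ≤ tm P Q * (tm P Q - winM P Q D x) := mul_nonneg hm' (by unfold tm at *; linarith)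
      linarith
    rw [U3_prod P Q cl o (fun y z => outp (4 * K + 1) y.2 z.2 - 5 / 18)]
    have e0 : U2 P Q cl (fun y z => outp (4 * K + 1) y.2 z.2 - 5 / 18)
        = Out.outF P Q D - 5 / 18 * (mass P + mass Q) ^ 2 := by
      have e00 : U2 P Q cl (fun y z => outp (4 * K + 1) y.2 z.2 - 5 / 18)
          = T2 P Q (fun y z => outp (4 * K + 1) y z - 5 / 18) := rfl
      rw [e00, T2_sub, T2_const, ← hD, T2_outp]
    rw [e0]
    have e2 : 0 ≤ U1 P Q cl o := h.toEnv.U1_nonneg cl ho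
    have e3 : U1 P Q cl o ≤ o0 * (mass P + mass Q) := by
      rw [← U1_const P Q cl]
      exact h.toEnv.U1_mono cl ho1
    have e4 : Out.outF P Q D - 5 / 18 * (mass P + mass Q) ^ 2 ≤ 11 * (mass P + mass Q) := by
      unfold tm at e1
      linarith
    have e5 := h.sq_le
    have e6 : 0 ≤ mass P + mass Q := hm'
    calc U1 P Q cl o * (Out.outF P Q D - 5 / 18 * (mass P + mass Q) ^ 2)
        ≤ U1 P Q cl o * (11 * (mass P + mass Q)) := mul_le_mul_of_nonneg_left e4 e2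
      _ ≤ o0 * (mass P + mass Q) * (11 * (mass P + mass Q)) :=
          mul_le_mul_of_nonneg_right e3 (by positivity)
      _ = 11 * o0 * (mass P + mass Q) ^ 2 := by ring
      _ ≤ 11 * o0 * (3 * D + 11) := mul_le_mul_of_nonneg_left e5 (by positivity)
  have farC := farC_T (P := P) (Q := Q) (D := D) (K := K) (E := E) (N := nearE D) (t := t) hNt
  have e1 : U1 P Q cl (m1t K ρ E t n1 B X1) = T1 P Q n1
      - kapE K ρ * T1 P Q (fC D K E t) + U1 P Q cl B - U1 P Q cl X1 := by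
    rw [← U1_T1 P Q cl n1, ← U1_T1 P Q cl (fC D K E t), ← U1_mul, ← U1_sub, ← U1_add, ← U1_sub,
      hD]
    rfl
  have e2 : U3 P Q cl (m3t K f n3 γR mR γL mL ν σ o dk X3)
      = T3 P Q n3 - T3 P Q dk - U3 P Q cl (cov3t D γR mR γL mL)
        + U3 P Q cl (fun x y z => ν x y
          * ((if 31 * (4 * K + 1) + 120 * z.2.2 ≤ 0 then 1 else 0) - f))
        + U3 P Q cl (cls3 σ)
        + U3 P Q cl (fun x y z => o x * (outp (4 * K + 1) y.2 z.2 - 5 / 18))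
        - U3 P Q cl X3 := by
    rw [← U3_T3 P Q cl n3, ← U3_T3 P Q cl dk, ← U3_sub, ← U3_sub, ← U3_add, ← U3_add, ← U3_add,
      ← U3_sub, hD]
    rfl
  rw [e1, e2] at p
  have e3 : 11 * o0 * (3 * D + 11) ≤ 143 * o0 * K := by
    rw [hDr]
    nlinarith
  have e4 : (3 * c + 143 * o0 + C0 + C1) * K ≤ C * K :=
    mul_le_mul_of_nonneg_right hC (by linarith)
  unfold deepD
  rw [farC]
  linarith

end

end MP61673a.Fin
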