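import Pool.Agent.Mu673.FE2
import Pool.Agent.Mu673.Glue
import Pool.Agent.Mu673.RowT

/-!
ROW CERTIFICATES BY NODE TABLES: labels, zones and coverage (helper31). One left coordinate for all
points: `J = M lc / D - σ`; label of the pair `y` (single), `z` (doubled): `ℓ = 2 lc z - lc y`,
zones `ℓ ≤ -1 - ρ`, `-ρ ≤ ℓ ≤ D + ρ`, `D + ρ + 1 ≤ ℓ`.
-/

set_option autoImplicit false

namespace MP61673a.FE

open Finset MP61673a.Kink MP61673a.Bary MP61673a.Sos MP61673a.Fin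

noncomputable section

/-- label of the pair `y` (single), `z` (doubled) in the left coordinate -/
def lab (D : ℤ) (y z : P4) : ℤ := 2 * lc D z.2 - lc D y.2

/-- zone of a label -/
def zn (D ρ l : ℤ) : Fin 3 := if l ≤ -1 - ρ then 0 else if l ≤ D + ρ then 1 else 2

/-- node coordinate of an integer position -/
def yc (M : ℕ) (σ : ℝ) (D l : ℤ) : ℝ := (M:ℝ) * l / D - σ

lemma yc_mono {M : ℕ} {σ : ℝ} {D l l' : ℤ} (hD : 0 < D) (h : l ≤ l') :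
    yc M σ D l ≤ yc M σ D l' := by
  have hD' : (0:ℝ) < D := by exact_mod_cast hD
  have h' : (l:ℝ) ≤ l' := by exact_mod_cast h
  unfold yc
  have : (M:ℝ) * l / D ≤ (M:ℝ) * l' / D :=
    div_le_div_of_nonneg_right (mul_le_mul_of_nonneg_left h' (Nat.cast_nonneg _)) hD'.le
  linarith

/-- `L` majorises the zone tables on the zones `x ≤ kL`, `kL ≤ x ≤ kR`, `kR ≤ x` -/
structure ZoneOK (kL kR : ℝ) (lam : Fin 3 → ℤ → ℝ) (L : ℤ → ℝ) : Prop where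
  h0 : ∀ x : ℝ, x ≤ kL → pl (lam 0) x ≤ pl L x
  h1 : ∀ x : ℝ, kL ≤ x → x ≤ kR → pl (lam 1) x ≤ pl L x
  h2 : ∀ x : ℝ, kR ≤ x → pl (lam 2) x ≤ pl L x

/-- finite check: `kL` in the cell `[a, a+1]`, `kR` in the cell `[b, b+1]` -/
lemma ZoneOK.of_nodes {kL kR : ℝ} {lam : Fin 3 → ℤ → ℝ} {L : ℤ → ℝ} {a b : ℤ} (h1 : (a:ℝ) ≤ kL)
    (h2 : kL ≤ a + 1) (h3 : (b:ℝ) ≤ kR) (h4 : kR ≤ b + 1) (hab : a < b)
    (n0 : ∀ m, m ≤ a → lam 0 m ≤ L m) (n1 : ∀ m, a + 1 ≤ m → m ≤ b → lam 1 m ≤ L m)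
    (n2 : ∀ m, b + 1 ≤ m → lam 2 m ≤ L m) (c0 : pl (lam 0) kL ≤ pl L kL)
    (c1 : pl (lam 1) kL ≤ pl L kL) (c2 : pl (lam 1) kR ≤ pl L kR)
    (c3 : pl (lam 2) kR ≤ pl L kR) : ZoneOK kL kR lam L where
  h0 := fun _ hx => pl_le_left h1 h2 n0 c0 hx
  h1 := fun _ hx hx' => pl_le_mid h1 h2 h3 h4 hab n1 c1 c2 hx hx'
  h2 := fun _ hx => pl_le_right h3 h4 n2 c3 hx

/-- the frame of a row certificate -/
structure GrdD (C : Type) (M : ℕ) (σ δ : ℝ) (D K ρ : ℤ) (kL kR : ℝ) extends Grd P4 C where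
  okE : ∀ x, ok x ↔ InR D K x.2
  near : ∀ x, ok x → |J x - yc M σ D (lc D x.2)| ≤ δ
  z0 : yc M σ D (-1 - ρ) ≤ kL + δ
  z1 : kL - δ ≤ yc M σ D (-ρ)
  z1' : yc M σ D (D + ρ) ≤ kR + δ
  z2 : kR - δ ≤ yc M σ D (D + ρ + 1)
  hk : kL ≤ kR
  hD0 : 0 < D

variable {C : Type} {M : ℕ} {σ δ : ℝ} {D K ρ : ℤ} {kL kR : ℝ}

namespace GrdD

variable (G : GrdD C M σ δ D K ρ kL kR)

lemma delta_nonneg {x : P4} (hx : G.ok x) : 0 ≤ δ := (abs_nonneg _).trans (G.near x hx)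

lemma near_lab {y z : P4} (hy : G.ok y) (hz : G.ok z) :
    |yc M σ D (lab D y z) - (2 * (G.pt z).2 - (G.pt y).2)| ≤ 3 * δ := by
  have a := abs_le.1 (G.near y hy)
  have b := abs_le.1 (G.near z hz)
  have e : yc M σ D (lab D y z) = 2 * yc M σ D (lc D z.2) - yc M σ D (lc D y.2) := by
    unfold yc lab
    push_cast
    ring
  rw [e, abs_le]
  unfold Grd.pt
  constructor <;> linarith [a.1, a.2, b.1, b.2]

/-- PAIR RULE WITH ZONES. `L` majorises the zone tables on the zones. -/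
theorem zone_rule {lam : Fin 3 → ℤ → ℝ} {L W : ℤ → ℝ} {B : ℝ}
    (hb : ∀ i m, |lam i m| ≤ B) (hL : ∀ m, |L m| ≤ B) (hz0 : ZoneOK kL kR lam L)
    (hW : EndOK L W) {y z : P4} (hy : G.ok y) (hz : G.ok z) :
    pl (lam (zn D ρ (lab D y z))) (yc M σ D (lab D y z))
      ≤ nX G.lo G.hi (fun a b => W (2 * b.2 - a.2)) (G.pt y) (G.pt z) + 18 * B * δ := by
  have hd := G.near_lab hy hz
  have hδ := G.delta_nonneg hy
  have hB0 : 0 ≤ B := (abs_nonneg _).trans (hL 0)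
  have hw := endX hW (G.regX hy) (G.regX hz)
  have key : pl (lam (zn D ρ (lab D y z))) (yc M σ D (lab D y z))
      ≤ pl L (2 * (G.pt z).2 - (G.pt y).2) + 6 * B * (3 * δ) := by
    unfold zn
    split_ifs with c1 c2
    · refine pl_rob_left (hb 0) hL hz0.h0 ?_ hd
      have := yc_mono (M := M) (σ := σ) G.hD0 c1
      have := G.z0
      linarith
    · refine pl_rob_mid (hb 1) hL G.hk hz0.h1 ?_ ?_ hd
      · have := yc_mono (M := M) (σ := σ) G.hD0 (show -ρ ≤ lab D y z by omega)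
        have := G.z1
        linarith
      · have := yc_mono (M := M) (σ := σ) G.hD0 c2
        have := G.z1'
        linarith
    · refine pl_rob_right (hb 2) hL hz0.h2 ?_ hd
      have := yc_mono (M := M) (σ := σ) G.hD0 (show D + ρ + 1 ≤ lab D y z by omega)
      have := G.z2
      linarith
  linarith

/-- the pair rule for a family: `L`, `W` depend on the sampler node and on the two classes -/
theorem zone_pairP {lam : C × ℤ → C → C → Fin 3 → ℤ → ℝ} {L W : C × ℤ → C → C → ℤ → ℝ} {B : ℝ}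
    (hb : ∀ ζ c d i m, |lam ζ c d i m| ≤ B) (hL : ∀ ζ c d m, |L ζ c d m| ≤ B)
    (hz0 : ∀ ζ, ζ.2 ∈ nd G.lo G.hi ζ.1 → ∀ c d, ZoneOK kL kR (lam ζ c d) (L ζ c d))
    (hW : ∀ ζ, ζ.2 ∈ nd G.lo G.hi ζ.1 → ∀ c d, EndOK (L ζ c d) (W ζ c d))
    {Ψ : C × ℤ → P4 → P4 → ℝ} {ε : ℝ}
    (hΨ : ∀ ζ, ζ.2 ∈ nd G.lo G.hi ζ.1 → ∀ y z, G.ok y → G.ok z →
      Ψ ζ y z ≤ pl (lam ζ (G.cl y) (G.cl z) (zn D ρ (lab D y z))) (yc M σ D (lab D y z)) + ε) :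
    G.PairP Ψ (fun ζ a b => W ζ a.1 b.1 (2 * b.2 - a.2)) (18 * B * δ + ε) := by
  intro ζ hζ y z hy hz
  have a := hΨ ζ hζ y z hy hz
  have b := G.zone_rule (hb ζ (G.cl y) (G.cl z)) (hL ζ (G.cl y) (G.cl z))
    (hz0 ζ hζ _ _) (hW ζ hζ (G.cl y) (G.cl z)) hy hz
  have e : nX G.lo G.hi (fun a b => W ζ a.1 b.1 (2 * b.2 - a.2)) (G.pt y) (G.pt z)
      = nX G.lo G.hi (fun a b => W ζ (G.cl y) (G.cl z) (2 * b.2 - a.2)) (G.pt y) (G.pt z) := rfl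
  rw [e]
  linarith

end GrdD

/-! ### Coverage -/

/-- price of the labels of class `e` at the sampler node `ζ` -/
def gz (M : ℕ) (σ : ℝ) (D ρ : ℤ) (g : Fin 3 → C × ℤ → Bool → ℤ → ℝ) (ζ : C × ℤ) (e : Bool)
    (l : ℤ) : ℝ := pl (g (zn D ρ l) ζ e) (yc M σ D l)

lemma gz_nonneg {g : Fin 3 → C × ℤ → Bool → ℤ → ℝ} (hg : ∀ i ζ e m, 0 ≤ g i ζ e m) (ζ : C × ℤ)
    (e : Bool) (l : ℤ) : 0 ≤ gz M σ D ρ g ζ e l := pl_nonneg (hg _ _ _) _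

namespace GrdD

variable (G : GrdD C M σ δ D K ρ kL kR)

/-- prices of the right labels -/
def gR (g : Fin 3 → C × ℤ → Bool → ℤ → ℝ) (x : P4) (e : Bool) (s : ℤ) : ℝ :=
  kX G.lo G.hi (fun ζ => gz M σ D ρ g ζ e (2 * D - s)) (G.pt x)

/-- prices of the left labels -/
def gL (g : Fin 3 → C × ℤ → Bool → ℤ → ℝ) (x : P4) (e : Bool) (s : ℤ) : ℝ :=
  kX G.lo G.hi (fun ζ => gz M σ D ρ g ζ e (s - D)) (G.pt x)

/-- majorants -/
def mj (m : C × ℤ → ℤ → ℝ) (x : P4) (X : ℤ) : ℝ := kX G.lo G.hi (fun ζ => m ζ X) (G.pt x)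

lemma gR_nonneg {g : Fin 3 → C × ℤ → Bool → ℤ → ℝ} (hg : ∀ i ζ e m, 0 ≤ g i ζ e m) (x : P4)
    (e : Bool) (s : ℤ) : 0 ≤ G.gR g x e s :=
  kX_nonneg _ _ _ fun _ _ => gz_nonneg hg _ _ _

lemma gL_nonneg {g : Fin 3 → C × ℤ → Bool → ℤ → ℝ} (hg : ∀ i ζ e m, 0 ≤ g i ζ e m) (x : P4)
    (e : Bool) (s : ℤ) : 0 ≤ G.gL g x e s :=
  kX_nonneg _ _ _ fun _ _ => gz_nonneg hg _ _ _

lemma mj_maj {E : ℤ} {h m : C × ℤ → ℤ → ℝ}
    (hm : ∀ ζ, ζ.2 ∈ nd G.lo G.hi ζ.1 → Maj D E (h ζ) (m ζ)) (x : P4) :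
    Maj D E (G.mj h x) (G.mj m x) := by
  exact maj_sum (nd G.lo G.hi (G.pt x).1) (fun i => hat i (G.pt x).2)
    (fun i _ => hat_nonneg _ _) (fun i => h ((G.pt x).1, i)) (fun i => m ((G.pt x).1, i))
    (fun i hi' => hm _ hi')

lemma kX_le {f g : C × ℤ → ℝ} (x : P4) (h : ∀ ζ, ζ.2 ∈ nd G.lo G.hi ζ.1 → f ζ ≤ g ζ) :
    kX G.lo G.hi f (G.pt x) ≤ kX G.lo G.hi g (G.pt x) :=
  sum_le_sum fun _ hi' => mul_le_mul_of_nonneg_left (h _ hi') (hat_nonneg _ _)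

/-- pair function of the coverage at a sampler node -/
def covN (D ρ : ℤ) (M : ℕ) (σ : ℝ) (g : Fin 3 → C × ℤ → Bool → ℤ → ℝ) (mR mL : C × ℤ → ℤ → ℝ)
    (ζ : C × ℤ) (y z : P4) : ℝ :=
  gz M σ D ρ g ζ y.1 (lab D y z)
    + (1 / 2 * (if y.1 = z.1 ∧ (rc D y.2 < 0 ∨ rc D z.2 < 0) then mR ζ (-rc D y.2 - rc D z.2)
        else 0)
      + 1 / 2 * (if y.1 = z.1 ∧ (lc D y.2 < 0 ∨ lc D z.2 < 0) then mL ζ (-lc D y.2 - lc D z.2)
        else 0))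

/-- the end point labels of a pair, both sides -/
lemma gdep_both {g : Fin 3 → C × ℤ → Bool → ℤ → ℝ} (hg : ∀ i ζ e m, 0 ≤ g i ζ e m)
    (x y z : P4) :
    gdep D (G.gR g x y.1) (rc D y.2 - 2 * rc D z.2)
      + gdep D (G.gL g x y.1) (lc D y.2 - 2 * lc D z.2)
      ≤ kX G.lo G.hi (fun ζ => gz M σ D ρ g ζ y.1 (lab D y z)) (G.pt x) := by
  have h0 : 0 ≤ kX G.lo G.hi (fun ζ => gz M σ D ρ g ζ y.1 (lab D y z)) (G.pt x) :=
    kX_nonneg _ _ _ fun _ _ => gz_nonneg hg _ _ _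
  have e1 : rc D y.2 - 2 * rc D z.2 = lab D y z - D := by
    have a := rc_add_lc D y.2
    have b := rc_add_lc D z.2
    unfold lab
    linarith
  have e2 : lc D y.2 - 2 * lc D z.2 = -lab D y z := by
    unfold lab
    ring
  rw [e1, e2]
  unfold gdep
  by_cases c1 : 1 ≤ lab D y z - D ∧ lab D y z - D ≤ D
  · have hD0 := G.hD0
    rw [if_pos c1, if_neg (by omega), add_zero]
    unfold gR
    rw [show 2 * D - (D - (lab D y z - D)) = lab D y z by ring]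
  · rw [if_neg c1, zero_add]
    split_ifs
    · unfold gL
      rw [show D - -lab D y z - D = lab D y z by ring]
    · exact h0

/-- THE COVERAGE KERNEL as a pair function of the sampler nodes -/
theorem cov_le {g : Fin 3 → C × ℤ → Bool → ℤ → ℝ} (hg : ∀ i ζ e m, 0 ≤ g i ζ e m)
    (mR mL : C × ℤ → ℤ → ℝ) (x y z : P4) :
    cov3t D (G.gR g) (G.mj mR) (G.gL g) (G.mj mL) x y z
      ≤ kX G.lo G.hi (fun ζ => covN D ρ M σ g mR mL ζ y z) (G.pt x) := by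
  have h := G.gdep_both hg x y z
  unfold cov3t covRt covLt covN
  rw [kX_add, kX_add, kX_smul, kX_smul]
  have r1 : (if y.1 = z.1 ∧ (rc D y.2 < 0 ∨ rc D z.2 < 0) then
      G.mj mR x (-rc D y.2 - rc D z.2) else 0)
      = kX G.lo G.hi (fun ζ => if y.1 = z.1 ∧ (rc D y.2 < 0 ∨ rc D z.2 < 0) then
        mR ζ (-rc D y.2 - rc D z.2) else 0) (G.pt x) := by
    split_ifs
    · rfl
    · unfold kX
      simp
  have r2 : (if y.1 = z.1 ∧ (lc D y.2 < 0 ∨ lc D z.2 < 0) then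
      G.mj mL x (-lc D y.2 - lc D z.2) else 0)
      = kX G.lo G.hi (fun ζ => if y.1 = z.1 ∧ (lc D y.2 < 0 ∨ lc D z.2 < 0) then
        mL ζ (-lc D y.2 - lc D z.2) else 0) (G.pt x) := by
    split_ifs
    · rfl
    · unfold kX
      simp
  rw [← r1, ← r2]
  linarith

end GrdD

end

end MP61673a.FE
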