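import Pool.Agent.Mu673.FE3

/-!
ROW CERTIFICATES BY NODE TABLES: midpoints (helper31). Absolute node tables `hR ζ`, `hL ζ` majorise
the prices of the right and of the left labels of the sampler node `ζ`; `avN d` pays the fuzz of the
midpoints; one table `Wm ζ` of the sum of the two nodes.
-/

set_option autoImplicit false

namespace MP61673a.FE

open Finset MP61673a.Kink MP61673a.Bary MP61673a.Sos MP61673a.Fin

noncomputable section

/-! ### Shifts and reflections -/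

lemma pl_shift (f : ℤ → ℝ) (M : ℤ) (x : ℝ) : pl (fun k => f (k + M)) (x - M) = pl f x := by
  have h0 := Int.floor_le x
  have h1 := (Int.lt_floor_add_one x).le
  rw [pl_of_mem f h0 h1, pl_of_mem (fun k => f (k + M)) (k := ⌊x⌋ - M) (x := x - M)
    (by push_cast; linarith) (by push_cast; linarith)]
  beta_reduce
  rw [show ⌊x⌋ - M + M = ⌊x⌋ by ring, show ⌊x⌋ - M + 1 + M = ⌊x⌋ + 1 by ring]
  push_cast
  ring

lemma pl_refl (f : ℤ → ℝ) (τ : ℤ) (x : ℝ) : pl (fun k => f (-k - τ)) (-x - τ) = pl f x := by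
  have h := pl_shift (fun m => f (-m)) τ (-x)
  rw [pl_neg] at h
  rw [← h]
  congr 1
  funext k
  rw [show -(k + τ) = -k - τ by ring]

lemma pl_const_add (f : ℤ → ℝ) (c x : ℝ) : pl (fun k => f k + c) x = pl f x + c := by
  unfold pl
  ring

lemma avN_const_add (d : ℝ) (f : ℤ → ℝ) (c : ℝ) (k : ℤ) :
    avN d (fun k => f k + c) k = avN d f k + c := by
  unfold avN d2p
  have : f (k - 1) + c - 2 * (f k + c) + (f (k + 1) + c) = f (k - 1) - 2 * f k + f (k + 1) := by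
    ring
  rw [this]
  ring

lemma avN_shift (d : ℝ) (f : ℤ → ℝ) (M k : ℤ) : avN d (fun k => f (k + M)) k = avN d f (k + M) := by
  unfold avN d2p
  beta_reduce
  rw [show k - 1 + M = k + M - 1 by ring, show k + 1 + M = k + M + 1 by ring]

lemma avN_refl (d : ℝ) (f : ℤ → ℝ) (τ k : ℤ) :
    avN d (fun k => f (-k - τ)) k = avN d f (-k - τ) := by
  unfold avN d2p
  beta_reduce
  rw [show -(k - 1) - τ = -k - τ + 1 by ring, show -(k + 1) - τ = -k - τ - 1 by ring]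
  rw [show f (-k - τ + 1) - 2 * f (-k - τ) + f (-k - τ - 1)
    = f (-k - τ - 1) - 2 * f (-k - τ) + f (-k - τ + 1) by ring]

lemma avN_nonneg {d : ℝ} (hd : 0 ≤ d) {f : ℤ → ℝ} (hf : ∀ k, 0 ≤ f k) (k : ℤ) : 0 ≤ avN d f k :=
  (hf k).trans (le_avN hd f k)

variable {C : Type} {M : ℕ} {σ δ : ℝ} {D K ρ : ℤ} {kL kR : ℝ}

/-- price majorant of the right labels at a node -/
def HR (M : ℕ) (σ : ℝ) (D : ℤ) (h : C × ℤ → ℤ → ℝ) (e0 : ℝ) (ζ : C × ℤ) (s : ℤ) : ℝ :=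
  lblF D M σ (fun k => h ζ (k + M) + e0) s

/-- price majorant of the left labels at a node; `τ = 2 σ` -/
def HL (M : ℕ) (σ : ℝ) (τ : ℤ) (D : ℤ) (h : C × ℤ → ℤ → ℝ) (e0 : ℝ) (ζ : C × ℤ) (s : ℤ) : ℝ :=
  lblF D M σ (fun k => h ζ (-k - τ) + e0) s

/-- midpoint majorant, right -/
def MR (M : ℕ) (σ : ℝ) (D : ℤ) (d : ℝ) (h : C × ℤ → ℤ → ℝ) (e0 : ℝ) (ζ : C × ℤ) (s : ℤ) : ℝ :=
  mjF D M σ d (fun k => h ζ (k + M) + e0) s

/-- midpoint majorant, left -/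
def ML (M : ℕ) (σ : ℝ) (τ : ℤ) (D : ℤ) (d : ℝ) (h : C × ℤ → ℤ → ℝ) (e0 : ℝ) (ζ : C × ℤ)
    (s : ℤ) : ℝ :=
  mjF D M σ d (fun k => h ζ (-k - τ) + e0) s

lemma HR_eq (hD : 0 < D) (h : C × ℤ → ℤ → ℝ) (e0 : ℝ) (ζ : C × ℤ) (s : ℤ) :
    HR M σ D h e0 ζ s = pl (h ζ) (yc M σ D (2 * D - s)) + e0 := by
  have hD' : (D:ℝ) ≠ 0 := by
    have : (0:ℝ) < D := by exact_mod_cast hD
    exact this.ne'
  unfold HR lblF
  rw [pl_const_add (fun k => h ζ (k + M)) e0]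
  have e : (((M:ℤ) : ℝ)) / D * (D - s) - σ = yc M σ D (2 * D - s) - ((M:ℤ):ℝ) := by
    unfold yc
    push_cast
    field_simp
    ring
  rw [e, pl_shift (h ζ) (M:ℤ)]

lemma HL_eq (hD : 0 < D) {τ : ℤ} (hτ : 2 * σ = τ) (h : C × ℤ → ℤ → ℝ) (e0 : ℝ) (ζ : C × ℤ)
    (s : ℤ) : HL M σ τ D h e0 ζ s = pl (h ζ) (yc M σ D (s - D)) + e0 := by
  have hD' : (D:ℝ) ≠ 0 := by
    have : (0:ℝ) < D := by exact_mod_cast hD
    exact this.ne'
  unfold HL lblF
  rw [pl_const_add (fun k => h ζ (-k - τ)) e0]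
  have e : (((M:ℤ) : ℝ)) / D * (D - s) - σ = -yc M σ D (s - D) - (τ:ℝ) := by
    unfold yc
    rw [← hτ]
    push_cast
    field_simp
    ring
  rw [e, pl_refl (h ζ) τ]

/-- the right majorant at the sum of two positions -/
lemma MR_eq (hD : 0 < D) (d : ℝ) (h : C × ℤ → ℤ → ℝ) (e0 : ℝ) (ζ : C × ℤ) (a b : ℤ) :
    MR M σ D d h e0 ζ (a + b - 2 * D)
      = pl (avN d (h ζ)) ((yc M σ D a + yc M σ D b) / 2) + e0 := by
  have hD' : (D:ℝ) ≠ 0 := by
    have : (0:ℝ) < D := by exact_mod_cast hD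
    exact this.ne'
  unfold MR mjF
  have e : (((M:ℤ) : ℝ)) / D * (((a + b - 2 * D : ℤ) : ℝ) / 2) - σ
      = (yc M σ D a + yc M σ D b) / 2 - ((M:ℤ):ℝ) := by
    unfold yc
    push_cast
    field_simp
    ring
  have e2 : avN d (fun k => h ζ (k + M) + e0) = fun k => avN d (h ζ) (k + M) + e0 := by
    funext k
    rw [avN_const_add d (fun k => h ζ (k + M)) e0 k, avN_shift]
  rw [e, e2, pl_const_add (fun k => avN d (h ζ) (k + M)) e0, pl_shift (avN d (h ζ)) (M:ℤ)]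

/-- the left majorant at the sum of two positions -/
lemma ML_eq (hD : 0 < D) {τ : ℤ} (hτ : 2 * σ = τ) (d : ℝ) (h : C × ℤ → ℤ → ℝ) (e0 : ℝ)
    (ζ : C × ℤ) (a b : ℤ) :
    ML M σ τ D d h e0 ζ (-a - b)
      = pl (avN d (h ζ)) ((yc M σ D a + yc M σ D b) / 2) + e0 := by
  have hD' : (D:ℝ) ≠ 0 := by
    have : (0:ℝ) < D := by exact_mod_cast hD
    exact this.ne'
  unfold ML mjF
  have e : (((M:ℤ) : ℝ)) / D * (((-a - b : ℤ) : ℝ) / 2) - σ
      = -((yc M σ D a + yc M σ D b) / 2) - (τ:ℝ) := by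
    unfold yc
    rw [← hτ]
    push_cast
    field_simp
    ring
  have e2 : avN d (fun k => h ζ (-k - τ) + e0) = fun k => avN d (h ζ) (-k - τ) + e0 := by
    funext k
    rw [avN_const_add d (fun k => h ζ (-k - τ)) e0 k, avN_refl]
  rw [e, e2, pl_const_add (fun k => avN d (h ζ) (-k - τ)) e0, pl_refl (avN d (h ζ)) τ]

namespace GrdD

variable (G : GrdD C M σ δ D K ρ kL kR)

include G in
/-- domination of the right prices: `nR` = a node left of the right outer third -/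
lemma gz_le_HR {g : Fin 3 → C × ℤ → Bool → ℤ → ℝ} {h : C × ℤ → ℤ → ℝ} {B e0 : ℝ} (hδ : 0 ≤ δ)
    (hb : ∀ i ζ e m, |g i ζ e m| ≤ B) (hh : ∀ ζ m, |h ζ m| ≤ B) {nR : ℝ} (hn : nR ≤ M - σ)
    (hρ : 0 ≤ ρ) (hnk : nR ≤ kR) {ζ : C × ℤ}
    (h1 : ∀ e (x : ℝ), nR ≤ x → x ≤ kR → pl (g 1 ζ e) x ≤ pl (h ζ) x)
    (h2 : ∀ e (x : ℝ), kR ≤ x → pl (g 2 ζ e) x ≤ pl (h ζ) x)
    (he : 6 * B * δ ≤ e0) (e : Bool) {s : ℤ} (hs : s < D) :
    gz M σ D ρ g ζ e (2 * D - s) ≤ HR M σ D h e0 ζ s := by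
  have hD0 := G.hD0
  rw [HR_eq G.hD0]
  unfold gz zn
  have hd0 : |yc M σ D (2 * D - s) - yc M σ D (2 * D - s)| ≤ δ := by
    rw [sub_self, abs_zero]
    exact hδ
  rw [if_neg (by omega)]
  split_ifs with c
  · have := pl_rob_mid (hb 1 ζ e) (hh ζ) hnk (h1 e) (x := yc M σ D (2 * D - s)) ?_ ?_ hd0
    · linarith
    · have a := yc_mono (M := M) (σ := σ) G.hD0 (show D ≤ 2 * D - s by omega)
      have b : yc M σ D D = M - σ := by
        have hD' : (D:ℝ) ≠ 0 := by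
          have : (0:ℝ) < D := by exact_mod_cast hD0
          exact this.ne'
        unfold yc
        field_simp
      rw [b] at a
      linarith
    · have a := yc_mono (M := M) (σ := σ) G.hD0 c
      have := G.z1'
      linarith
  · have := pl_rob_right (hb 2 ζ e) (hh ζ) (h2 e) (x := yc M σ D (2 * D - s)) ?_ hd0
    · linarith
    · have a := yc_mono (M := M) (σ := σ) G.hD0 (show D + ρ + 1 ≤ 2 * D - s by omega)
      have := G.z2
      linarith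

include G in
/-- domination of the left prices: `nL` = a node right of the left outer third -/
lemma gz_le_HL {g : Fin 3 → C × ℤ → Bool → ℤ → ℝ} {h : C × ℤ → ℤ → ℝ} {B e0 : ℝ} (hδ : 0 ≤ δ)
    (hb : ∀ i ζ e m, |g i ζ e m| ≤ B) (hh : ∀ ζ m, |h ζ m| ≤ B) {nL : ℝ} {τ : ℤ}
    (hτ : 2 * σ = τ) (hn : -σ ≤ nL) (hρ : 0 ≤ ρ) (hnk : kL ≤ nL) {ζ : C × ℤ}
    (h1 : ∀ e (x : ℝ), kL ≤ x → x ≤ nL → pl (g 1 ζ e) x ≤ pl (h ζ) x)
    (h0 : ∀ e (x : ℝ), x ≤ kL → pl (g 0 ζ e) x ≤ pl (h ζ) x)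
    (he : 6 * B * δ ≤ e0) (e : Bool) {s : ℤ} (hs : s < D) :
    gz M σ D ρ g ζ e (s - D) ≤ HL M σ τ D h e0 ζ s := by
  have hD0 := G.hD0
  rw [HL_eq G.hD0 hτ]
  unfold gz zn
  have hd0 : |yc M σ D (s - D) - yc M σ D (s - D)| ≤ δ := by
    rw [sub_self, abs_zero]
    exact hδ
  split_ifs with c c'
  · have := pl_rob_left (hb 0 ζ e) (hh ζ) (h0 e) (x := yc M σ D (s - D)) ?_ hd0
    · linarith
    · have a := yc_mono (M := M) (σ := σ) G.hD0 c
      have := G.z0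
      linarith
  · have := pl_rob_mid (hb 1 ζ e) (hh ζ) hnk (h1 e) (x := yc M σ D (s - D)) ?_ ?_ hd0
    · linarith
    · have a := yc_mono (M := M) (σ := σ) G.hD0 (show -ρ ≤ s - D by omega)
      have := G.z1
      linarith
    · have a := yc_mono (M := M) (σ := σ) G.hD0 (show s - D ≤ 0 by omega)
      have b : yc M σ D 0 = -σ := by
        unfold yc
        simp
      rw [b] at a
      linarith
  · omega

/-- the two midpoint terms of a pair at a sampler node -/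
def midN (D : ℤ) (mR mL : C × ℤ → ℤ → ℝ) (ζ : C × ℤ) (y z : P4) : ℝ :=
  1 / 2 * (if y.1 = z.1 ∧ (rc D y.2 < 0 ∨ rc D z.2 < 0) then mR ζ (-rc D y.2 - rc D z.2)
      else 0)
    + 1 / 2 * (if y.1 = z.1 ∧ (lc D y.2 < 0 ∨ lc D z.2 < 0) then mL ζ (-lc D y.2 - lc D z.2)
      else 0)

lemma covN_eq (g : Fin 3 → C × ℤ → Bool → ℤ → ℝ) (mR mL : C × ℤ → ℤ → ℝ) (ζ : C × ℤ)
    (y z : P4) :
    covN D ρ M σ g mR mL ζ y z = gz M σ D ρ g ζ y.1 (lab D y z) + midN D mR mL ζ y z := rfl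

/-- MIDPOINTS. `st c d = false` is allowed when no pair of the classes `c, d` has a priced
midpoint. -/
theorem mid_pairP {d e0 B : ℝ} (hd0 : 0 ≤ d) (he0 : 0 ≤ e0) {τ : ℤ} (hτ : 2 * σ = τ)
    {hR hL : C × ℤ → ℤ → ℝ} (pR : ∀ ζ m, 0 ≤ hR ζ m) (pL : ∀ ζ m, 0 ≤ hL ζ m)
    {Lm Wm : C × ℤ → ℤ → ℝ}
    (hLm : ∀ ζ, ζ.2 ∈ nd G.lo G.hi ζ.1 → ∀ m, avN d (hR ζ) m + avN d (hL ζ) m ≤ Lm ζ m)
    (hB : ∀ ζ m, |Lm ζ m| ≤ B)
    (hW : ∀ ζ, ζ.2 ∈ nd G.lo G.hi ζ.1 → MidOK (Lm ζ) (Wm ζ))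
    {st : C → C → Bool}
    (hst : ∀ y z, G.ok y → G.ok z → st (G.cl y) (G.cl z) = false →
      ¬ (y.1 = z.1 ∧ (rc D y.2 < 0 ∨ rc D z.2 < 0)) ∧
      ¬ (y.1 = z.1 ∧ (lc D y.2 < 0 ∨ lc D z.2 < 0))) :
    G.PairP (midN D (MR M σ D d hR e0) (ML M σ τ D d hL e0))
      (fun ζ a b => if st a.1 b.1 = true then 1 / 2 * Wm ζ (a.2 + b.2) else 0)
      (B * δ + e0) := by
  intro ζ hζ y z hy hz
  have hδ := G.delta_nonneg hy
  have hB0 : 0 ≤ B := (abs_nonneg _).trans (hB ζ 0)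
  by_cases c : st (G.cl y) (G.cl z) = true
  · have e1 : nX G.lo G.hi (fun a b => if st a.1 b.1 = true then 1 / 2 * Wm ζ (a.2 + b.2) else 0)
        (G.pt y) (G.pt z) = 1 / 2 * nX G.lo G.hi (fun a b => Wm ζ (a.2 + b.2)) (G.pt y) (G.pt z) := by
      have : nX G.lo G.hi (fun a b => if st a.1 b.1 = true then 1 / 2 * Wm ζ (a.2 + b.2) else 0)
          (G.pt y) (G.pt z)
          = nX G.lo G.hi (fun a b => 1 / 2 * Wm ζ (a.2 + b.2)) (G.pt y) (G.pt z) := by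
        unfold nX Grd.pt
        dsimp only
        simp only [c, if_true]
      rw [this, nX_smul G.lo G.hi (fun a b => Wm ζ (a.2 + b.2)) (1 / 2)]
    rw [e1]
    have hm := midX (hW ζ hζ) (G.regX hy) (G.regX hz)
    have a := abs_le.1 (G.near y hy)
    have b := abs_le.1 (G.near z hz)
    set v : ℝ := (yc M σ D (lc D y.2) + yc M σ D (lc D z.2)) / 2 with hv
    have n1 : |v - ((G.pt y).2 + (G.pt z).2) / 2| ≤ δ := by
      rw [abs_le, hv]
      unfold Grd.pt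
      constructor <;> linarith [a.1, a.2, b.1, b.2]
    have n2 := abs_le.1 ((pl_lip (hB ζ) v (((G.pt y).2 + (G.pt z).2) / 2)).trans
      (mul_le_mul_of_nonneg_left n1 (by linarith)))
    have eR : MR M σ D d hR e0 ζ (-rc D y.2 - rc D z.2) = pl (avN d (hR ζ)) v + e0 := by
      have e : -rc D y.2 - rc D z.2 = lc D y.2 + lc D z.2 - 2 * D := by
        have a := rc_add_lc D y.2
        have b := rc_add_lc D z.2
        linarith
      rw [e, MR_eq G.hD0]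
    have eL : ML M σ τ D d hL e0 ζ (-lc D y.2 - lc D z.2) = pl (avN d (hL ζ)) v + e0 :=
      ML_eq G.hD0 hτ d hL e0 ζ _ _
    have pR0 : 0 ≤ pl (avN d (hR ζ)) v := pl_nonneg (avN_nonneg hd0 (pR ζ)) _
    have pL0 : 0 ≤ pl (avN d (hL ζ)) v := pl_nonneg (avN_nonneg hd0 (pL ζ)) _
    have s1 : (if y.1 = z.1 ∧ (rc D y.2 < 0 ∨ rc D z.2 < 0) then
        MR M σ D d hR e0 ζ (-rc D y.2 - rc D z.2) else 0) ≤ pl (avN d (hR ζ)) v + e0 := by
      split_ifs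
      · exact eR.le
      · linarith
    have s2 : (if y.1 = z.1 ∧ (lc D y.2 < 0 ∨ lc D z.2 < 0) then
        ML M σ τ D d hL e0 ζ (-lc D y.2 - lc D z.2) else 0) ≤ pl (avN d (hL ζ)) v + e0 := by
      split_ifs
      · exact eL.le
      · linarith
    have s3 : pl (avN d (hR ζ)) v + pl (avN d (hL ζ)) v ≤ pl (Lm ζ) v := by
      rw [← pl_add]
      exact pl_mono (hLm ζ hζ) v
    unfold midN
    linarith [n2.1, n2.2]
  · have c' : st (G.cl y) (G.cl z) = false := by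
      simpa using c
    have h := hst y z hy hz c'
    unfold midN
    rw [if_neg h.1, if_neg h.2]
    have e1 : nX G.lo G.hi (fun a b => if st a.1 b.1 = true then 1 / 2 * Wm ζ (a.2 + b.2) else 0)
        (G.pt y) (G.pt z) = 0 := by
      unfold nX Grd.pt
      dsimp only
      simp only [c, if_false]
      simp
    rw [e1]
    have : 0 ≤ B * δ := mul_nonneg hB0 hδ
    linarith

end GrdD

end

end MP61673a.FE
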