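import Pool.Agent.Mu673.FE3
import Pool.Agent.Mu673.Cell3In

/-!
CONSTANT THRESHOLDS JOINTLY WITH THE PRICE (helper56). The pair kernels `kNP V (1 + ρ)`,
`kNQ V (1 + ρ)`, `kQP (D - ρ + 1)`, `kPQ (D - ρ + 1)` are functions of the label, with jumps at the
two jump nodes `kL`, `kR` of the zones (up to one label). Five zones of labels:
`l ≤ -1 - ρ | l = -ρ | 1 - ρ ≤ l ≤ D + ρ - 1 | l = D + ρ | D + ρ + 1 ≤ l`.
-/

set_option autoImplicit false

namespace MP61673a.FE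

open Finset MP61673a.Kink MP61673a.Bary MP61673a.Sos MP61673a.Fin

noncomputable section

/-- five zones of the labels -/
def zn5 (D ρ l : ℤ) : Fin 5 :=
  if l ≤ -1 - ρ then 0 else if l ≤ -ρ then 1 else if l ≤ D + ρ - 1 then 2
  else if l ≤ D + ρ then 3 else 4

/-- the zone of `FE3` -/
def z53 (i : Fin 5) : Fin 3 := if i = 0 then 0 else if i = 4 then 2 else 1

lemma zn_eq5 {D ρ : ℤ} (h : 0 < D) (hρ : 0 ≤ ρ) (l : ℤ) : zn D ρ l = z53 (zn5 D ρ l) := by
  unfold zn zn5 z53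
  by_cases c0 : l ≤ -1 - ρ
  · rw [if_pos c0, if_pos c0, if_pos rfl]
  · rw [if_neg c0, if_neg c0]
    by_cases c1 : l ≤ -ρ
    · rw [if_pos (by omega), if_pos c1, if_neg (by decide), if_neg (by decide)]
    · rw [if_neg c1]
      by_cases c2 : l ≤ D + ρ - 1
      · rw [if_pos (by omega), if_pos c2, if_neg (by decide), if_neg (by decide)]
      · rw [if_neg c2]
        by_cases c3 : l ≤ D + ρ
        · rw [if_pos c3, if_pos c3, if_neg (by decide), if_neg (by decide)]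
        · rw [if_neg c3, if_neg c3, if_neg (by decide), if_pos rfl]

lemma pl_add_const (f : ℤ → ℝ) (c x : ℝ) : pl (fun m => f m + c) x = pl f x + c := by
  unfold pl
  ring

variable {C : Type} {M : ℕ} {σ δ : ℝ} {D K ρ : ℤ} {kL kR : ℝ}

lemma yc_succ (M : ℕ) (σ : ℝ) {D : ℤ} (hD : 0 < D) (l : ℤ) :
    yc M σ D (l + 1) = yc M σ D l + (M:ℝ) / D := by
  have hD' : (D:ℝ) ≠ 0 := by
    have : (0:ℝ) < D := by exact_mod_cast hD
    exact this.ne'
  unfold yc
  push_cast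
  field_simp
  ring

/-- `L` majorises the tables of the five zones (the zones 1 and 3 are single labels at the cuts) -/
structure Zone5 (kL kR : ℝ) (lam : Fin 5 → ℤ → ℝ) (L : ℤ → ℝ) : Prop where
  h0 : ∀ x : ℝ, x ≤ kL → pl (lam 0) x ≤ pl L x
  h1 : pl (lam 1) kL ≤ pl L kL
  h2 : ∀ x : ℝ, kL ≤ x → x ≤ kR → pl (lam 2) x ≤ pl L x
  h3 : pl (lam 3) kR ≤ pl L kR
  h4 : ∀ x : ℝ, kR ≤ x → pl (lam 4) x ≤ pl L x

/-- finite check: `kL` in the cell `[a, a+1]`, `kR` in the cell `[b, b+1]` -/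
lemma Zone5.of_nodes {kL kR : ℝ} {lam : Fin 5 → ℤ → ℝ} {L : ℤ → ℝ} {a b : ℤ} (h1 : (a:ℝ) ≤ kL)
    (h2 : kL ≤ a + 1) (h3 : (b:ℝ) ≤ kR) (h4 : kR ≤ b + 1) (hab : a < b)
    (n0 : ∀ m, m ≤ a → lam 0 m ≤ L m) (n2 : ∀ m, a + 1 ≤ m → m ≤ b → lam 2 m ≤ L m)
    (n4 : ∀ m, b + 1 ≤ m → lam 4 m ≤ L m) (c0 : pl (lam 0) kL ≤ pl L kL)
    (c1 : pl (lam 1) kL ≤ pl L kL) (c2 : pl (lam 2) kL ≤ pl L kL)
    (c3 : pl (lam 2) kR ≤ pl L kR) (c4 : pl (lam 3) kR ≤ pl L kR)
    (c5 : pl (lam 4) kR ≤ pl L kR) : Zone5 kL kR lam L where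
  h0 := fun _ hx => pl_le_left h1 h2 n0 c0 hx
  h1 := c1
  h2 := fun _ hx hx' => pl_le_mid h1 h2 h3 h4 hab n2 c2 c3 hx hx'
  h3 := c4
  h4 := fun _ hx => pl_le_right h3 h4 n4 c5 hx

/-- cuts on nodes -/
lemma Zone5.of_int {a b : ℤ} {lam : Fin 5 → ℤ → ℝ} {L : ℤ → ℝ} (hab : a < b)
    (n0 : ∀ m, m ≤ a → lam 0 m ≤ L m) (n1 : lam 1 a ≤ L a)
    (n2 : ∀ m, a ≤ m → m ≤ b → lam 2 m ≤ L m) (n3 : lam 3 b ≤ L b)
    (n4 : ∀ m, b ≤ m → lam 4 m ≤ L m) : Zone5 (a:ℝ) (b:ℝ) lam L := by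
  refine Zone5.of_nodes (a := a) (b := b) le_rfl (by linarith) le_rfl (by linarith) hab n0
    (fun m h h' => n2 m (by omega) h') (fun m h => n4 m (by omega)) ?_ ?_ ?_ ?_ ?_ ?_ <;>
  rw [pl_int, pl_int]
  · exact n0 a le_rfl
  · exact n1
  · exact n2 a le_rfl hab.le
  · exact n2 b hab.le le_rfl
  · exact n3
  · exact n4 b le_rfl

/-- the three zone condition suffices when the tables of the single labels are below one of the
neighbours at the cut -/
lemma Zone5.of_three {kL kR : ℝ} {lam : Fin 5 → ℤ → ℝ} {L : ℤ → ℝ} (hk : kL ≤ kR)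
    (hz : ZoneOK kL kR ![lam 0, lam 2, lam 4] L)
    (c1 : pl (lam 1) kL ≤ pl (lam 0) kL ∨ pl (lam 1) kL ≤ pl (lam 2) kL)
    (c3 : pl (lam 3) kR ≤ pl (lam 2) kR ∨ pl (lam 3) kR ≤ pl (lam 4) kR) :
    Zone5 kL kR lam L where
  h0 := hz.h0
  h1 := by
    rcases c1 with c | c
    · exact c.trans (hz.h0 _ le_rfl)
    · exact c.trans (hz.h1 _ le_rfl hk)
  h2 := hz.h1
  h3 := by
    rcases c3 with c | c
    · exact c.trans (hz.h1 _ hk le_rfl)
    · exact c.trans (hz.h2 _ le_rfl)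
  h4 := hz.h2

namespace GrdD

variable (G : GrdD C M σ δ D K ρ kL kR)

/-- PAIR RULE WITH FIVE ZONES -/
theorem zone_rule5 (hM : (M:ℝ) / D ≤ δ) {lam : Fin 5 → ℤ → ℝ} {L W : ℤ → ℝ} {B : ℝ}
    (hb : ∀ i m, |lam i m| ≤ B) (hL : ∀ m, |L m| ≤ B) (hz0 : Zone5 kL kR lam L)
    (hW : EndOK L W) {y z : P4} (hy : G.ok y) (hz : G.ok z) :
    pl (lam (zn5 D ρ (lab D y z))) (yc M σ D (lab D y z))
      ≤ nX G.lo G.hi (fun a b => W (2 * b.2 - a.2)) (G.pt y) (G.pt z) + 18 * B * δ := by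
  have hd := G.near_lab hy hz
  have hδ := G.delta_nonneg hy
  have hB0 : 0 ≤ B := (abs_nonneg _).trans (hL 0)
  have hw := endX hW (G.regX hy) (G.regX hz)
  have key : pl (lam (zn5 D ρ (lab D y z))) (yc M σ D (lab D y z))
      ≤ pl L (2 * (G.pt z).2 - (G.pt y).2) + 6 * B * (3 * δ) := by
    unfold zn5
    split_ifs with c1 c2 c3 c4
    · refine pl_rob_left (hb 0) hL hz0.h0 ?_ hd
      have := yc_mono (M := M) (σ := σ) G.hD0 c1
      have := G.z0
      linarith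
    · have e : lab D y z = -ρ := by omega
      refine pl_rob_mid (hb 1) hL (le_refl kL) (fun m hm hm' => ?_) ?_ ?_ hd
      · obtain rfl : m = kL := le_antisymm hm' hm
        exact hz0.h1
      · rw [e]
        have := G.z1
        linarith
      · rw [e]
        have i1 := yc_succ M σ G.hD0 (-1 - ρ)
        rw [show (-1 - ρ + 1 : ℤ) = -ρ by ring] at i1
        have := G.z0
        linarith
    · refine pl_rob_mid (hb 2) hL G.hk hz0.h2 ?_ ?_ hd
      · have := yc_mono (M := M) (σ := σ) G.hD0 (show -ρ ≤ lab D y z by omega)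
        have := G.z1
        linarith
      · have := yc_mono (M := M) (σ := σ) G.hD0 (show lab D y z ≤ D + ρ by omega)
        have := G.z1'
        linarith
    · have e : lab D y z = D + ρ := by omega
      refine pl_rob_mid (hb 3) hL (le_refl kR) (fun m hm hm' => ?_) ?_ ?_ hd
      · obtain rfl : m = kR := le_antisymm hm' hm
        exact hz0.h3
      · rw [e]
        have i1 := yc_succ M σ G.hD0 (D + ρ)
        have := G.z2
        linarith
      · rw [e]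
        have := G.z1'
        linarith
    · refine pl_rob_right (hb 4) hL hz0.h4 ?_ hd
      have := yc_mono (M := M) (σ := σ) G.hD0 (show D + ρ + 1 ≤ lab D y z by omega)
      have := G.z2
      linarith
  linarith

/-- the pair rule with five zones for a family -/
theorem zone_pairP5 (hM : (M:ℝ) / D ≤ δ) {lam : C × ℤ → C → C → Fin 5 → ℤ → ℝ}
    {L W : C × ℤ → C → C → ℤ → ℝ} {B : ℝ}
    (hb : ∀ ζ c d i m, |lam ζ c d i m| ≤ B) (hL : ∀ ζ c d m, |L ζ c d m| ≤ B)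
    (hz0 : ∀ ζ, ζ.2 ∈ nd G.lo G.hi ζ.1 → ∀ c d, Zone5 kL kR (lam ζ c d) (L ζ c d))
    (hW : ∀ ζ, ζ.2 ∈ nd G.lo G.hi ζ.1 → ∀ c d, EndOK (L ζ c d) (W ζ c d))
    {Ψ : C × ℤ → P4 → P4 → ℝ} {ε : ℝ}
    (hΨ : ∀ ζ, ζ.2 ∈ nd G.lo G.hi ζ.1 → ∀ y z, G.ok y → G.ok z →
      Ψ ζ y z ≤ pl (lam ζ (G.cl y) (G.cl z) (zn5 D ρ (lab D y z))) (yc M σ D (lab D y z)) + ε) :
    G.PairP Ψ (fun ζ a b => W ζ a.1 b.1 (2 * b.2 - a.2)) (18 * B * δ + ε) := by
  intro ζ hζ y z hy hz
  have a := hΨ ζ hζ y z hy hz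
  have b := G.zone_rule5 hM (hb ζ (G.cl y) (G.cl z)) (hL ζ (G.cl y) (G.cl z))
    (hz0 ζ hζ _ _) (hW ζ hζ (G.cl y) (G.cl z)) hy hz
  have e : nX G.lo G.hi (fun a b => W ζ a.1 b.1 (2 * b.2 - a.2)) (G.pt y) (G.pt z)
      = nX G.lo G.hi (fun a b => W ζ (G.cl y) (G.cl z) (2 * b.2 - a.2)) (G.pt y) (G.pt z) := rfl
  rw [e]
  linarith

end GrdD

/-! ### Class flags -/

/-- what the classes know about their points: pole, type, position with respect to `-V` -/
structure Flg (G : Grd P4 C) (V : ℤ) where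
  /-- `false` = `P` -/
  pole : C → Bool
  /-- class of the element -/
  typ : C → Bool
  /-- all points `≥ -V` -/
  vI : C → Bool
  /-- all points `< -V` -/
  vO : C → Bool
  hpole : ∀ x, G.ok x → x.2.1 = pole (G.cl x)
  htyp : ∀ x, G.ok x → x.1 = typ (G.cl x)
  hvI : ∀ x, G.ok x → vI (G.cl x) = true → -V ≤ x.2.2
  hvO : ∀ x, G.ok x → vO (G.cl x) = true → x.2.2 < -V

/-- effective coefficient of an indicator that contains `-V ≤ u` -/
def effc (vi vo : Bool) (a : ℝ) : ℝ := if vi then a else if vo then 0 else max a 0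

/-- the constants of the zones: `a`, `b` = coefficients of `kNP`, `kNQ`, `e`, `g` = coefficients of
`kQP`, `kPQ`; `c` = pole of the single point, `d` = pole of the doubled point, `vi`, `vo` = flags of
the doubled point -/
def kz (c d vi vo : Bool) (a b e g : ℝ) (i : Fin 5) : ℝ :=
  (if c = false ∧ d = false ∧ i = 0 then effc vi vo a else 0)
    + (if c = true ∧ d = true ∧ i = 4 then effc vi vo b else 0)
    + (if c = true ∧ d = false ∧ (i = 2 ∨ i = 3 ∨ i = 4) then e else 0)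
    + (if c = false ∧ d = true ∧ (i = 0 ∨ i = 1 ∨ i = 2) then g else 0)

lemma effc_le {vi vo : Bool} {a : ℝ} {V u : ℤ} {p q : Prop} [Decidable p] [Decidable q]
    (h1 : vi = true → -V ≤ u) (h2 : vo = true → u < -V) (hq : q ↔ (-V ≤ u ∧ p)) :
    a * bo q ≤ effc vi vo a * bo p := by
  unfold effc
  by_cases c1 : vi = true
  · rw [if_pos c1]
    have e : bo q = bo p := by
      by_cases hp : p
      · rw [bo_true hp, bo_true (hq.2 ⟨h1 c1, hp⟩)]
      · rw [bo_false hp, bo_false (fun h => hp (hq.1 h).2)]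
    rw [e]
  · rw [if_neg c1]
    by_cases c2 : vo = true
    · rw [if_pos c2, zero_mul]
      have e : bo q = 0 := bo_false (fun h => by have := (hq.1 h).1; have := h2 c2; omega)
      rw [e, mul_zero]
    · rw [if_neg c2]
      have e1 := bo_nonneg p
      have e2 := bo_nonneg q
      have e3 : bo q ≤ bo p := by
        by_cases hp : q
        · rw [bo_true hp, bo_true (hq.1 hp).2]
        · rw [bo_false hp]
          exact e1
      have e4 : a ≤ max a 0 := le_max_left _ _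
      have e5 : 0 ≤ max a 0 := le_max_right _ _
      nlinarith

lemma lab_eq (D : ℤ) (y z : P4) : lab D y z
    = 2 * (if z.2.1 then D - z.2.2 else z.2.2) - (if y.2.1 then D - y.2.2 else y.2.2) := rfl

/-- THE FOUR KERNELS AS FUNCTIONS OF THE LABEL -/
theorem kz_le {D ρ V : ℤ} (hD : 0 < D) (hρ : 0 ≤ ρ) {y z : P4} {vi vo : Bool}
    (h1 : vi = true → -V ≤ z.2.2) (h2 : vo = true → z.2.2 < -V) (a b e g : ℝ) :
    a * kNP V (1 + ρ) y.2 z.2 + b * kNQ V (1 + ρ) y.2 z.2 + e * kQP (D - ρ + 1) y.2 z.2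
      + g * kPQ (D - ρ + 1) y.2 z.2
      ≤ kz y.2.1 z.2.1 vi vo a b e g (zn5 D ρ (lab D y z)) := by
  obtain ⟨ty, cy, uy⟩ := y
  obtain ⟨tz, cz, uz⟩ := z
  unfold kNP kNQ kQP kPQ kz
  rw [lab_eq]
  dsimp only at h1 h2 ⊢
  cases cy <;> cases cz
  · -- P, P
    have e1 : bo ((False ∧ False) ∧ -V ≤ uz ∧ 1 + ρ ≤ uy - 2 * uz) = 0 := bo_false (by tauto)
    have e2 : bo ((False ∧ True) ∧ D - ρ + 1 ≤ uy + 2 * uz) = 0 := bo_false (by tauto)
    have e3 : bo ((True ∧ False) ∧ D - ρ + 1 ≤ uy + 2 * uz) = 0 := bo_false (by tauto)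
    simp only [Bool.false_eq_true, and_self, true_and, and_true, false_and, and_false, if_false,
      bo_false not_false, mul_zero, add_zero]
    have k := effc_le (a := a) (V := V) (u := uz) (p := 2 * uz - uy ≤ -1 - ρ)
      (q := -V ≤ uz ∧ 1 + ρ ≤ uy - 2 * uz) h1 h2
      (by constructor <;> rintro ⟨h3, h4⟩ <;> exact ⟨h3, by omega⟩)
    refine k.trans (le_of_eq ?_)
    unfold zn5
    by_cases c : 2 * uz - uy ≤ -1 - ρ
    · rw [bo_true c, if_pos c, mul_one, if_pos rfl]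
    · rw [bo_false c, if_neg c, mul_zero]
      symm
      apply if_neg
      split_ifs <;> decide
  · -- P, Q
    simp only [Bool.false_eq_true, Bool.true_eq_false, and_self, true_and, and_true, false_and,
      and_false, if_false, if_true, bo_false not_false, mul_zero, zero_add]
    refine le_of_eq ?_
    unfold zn5
    by_cases c : D - ρ + 1 ≤ uy + 2 * uz
    · rw [bo_true c, mul_one]
      symm
      apply if_pos
      split_ifs
      · exact Or.inl rfl
      · exact Or.inr (Or.inl rfl)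
      · exact Or.inr (Or.inr rfl)
      · omega
      · omega
    · rw [bo_false c, mul_zero]
      symm
      apply if_neg
      split_ifs
      · omega
      · omega
      · omega
      · decide
      · decide
  · -- Q, P
    simp only [Bool.false_eq_true, Bool.true_eq_false, and_self, true_and, and_true, false_and,
      and_false, if_false, if_true, bo_false not_false, mul_zero, zero_add, add_zero]
    refine le_of_eq ?_
    unfold zn5
    by_cases c : D - ρ + 1 ≤ uy + 2 * uz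
    · rw [bo_true c, mul_one]
      symm
      apply if_pos
      split_ifs
      · omega
      · omega
      · exact Or.inl rfl
      · exact Or.inr (Or.inl rfl)
      · exact Or.inr (Or.inr rfl)
    · rw [bo_false c, mul_zero]
      symm
      apply if_neg
      split_ifs
      · decide
      · decide
      · omega
      · omega
      · omega
  · -- Q, Q
    simp only [Bool.true_eq_false, and_self, true_and, and_true, false_and, and_false,
      if_false, if_true, bo_false not_false, mul_zero, zero_add, add_zero]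
    have k := effc_le (a := b) (V := V) (u := uz) (p := D + ρ + 1 ≤ 2 * (D - uz) - (D - uy))
      (q := -V ≤ uz ∧ 1 + ρ ≤ uy - 2 * uz) h1 h2
      (by constructor <;> rintro ⟨h3, h4⟩ <;> exact ⟨h3, by omega⟩)
    refine k.trans (le_of_eq ?_)
    unfold zn5
    by_cases c : D + ρ + 1 ≤ 2 * (D - uz) - (D - uy)
    · rw [bo_true c, mul_one]
      symm
      apply if_pos
      split_ifs
      · omega
      · omega
      · omega
      · omega
      · rfl
    · rw [bo_false c, mul_zero]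
      symm
      apply if_neg
      split_ifs
      · decide
      · decide
      · decide
      · decide
      · omega

/-! ### The joint part -/

section joint

variable (G : GrdD C M σ δ D K ρ kL kR) {V : ℤ} (F : Flg G.toGrd V)

/-- zone tables of the price jointly with the constant thresholds -/
def lam5 (g : Fin 3 → C × ℤ → Bool → ℤ → ℝ) (ca cb ce cg : C × ℤ → ℝ) (ζ : C × ℤ) (c d : C)
    (i : Fin 5) (m : ℤ) : ℝ :=
  g (z53 i) ζ (F.typ c) m
    + kz (F.pole c) (F.pole d) (F.vI d) (F.vO d) (ca ζ) (cb ζ) (ce ζ) (cg ζ) i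

/-- pair function: price and constant thresholds -/
def cstN (D ρ V : ℤ) (M : ℕ) (σ : ℝ) (g : Fin 3 → C × ℤ → Bool → ℤ → ℝ)
    (ca cb ce cg : C × ℤ → ℝ) (ζ : C × ℤ) (y z : P4) : ℝ :=
  gz M σ D ρ g ζ y.1 (lab D y z)
    + (ca ζ * kNP V (1 + ρ) y.2 z.2 + cb ζ * kNQ V (1 + ρ) y.2 z.2
      + ce ζ * kQP (D - ρ + 1) y.2 z.2 + cg ζ * kPQ (D - ρ + 1) y.2 z.2)

/-- PRICE AND CONSTANT THRESHOLDS: one pair rule per sampler node and pair of classes -/
theorem cst_pairP (hρ : 0 ≤ ρ) (hM : (M:ℝ) / D ≤ δ) {g : Fin 3 → C × ℤ → Bool → ℤ → ℝ}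
    {ca cb ce cg : C × ℤ → ℝ} {L W : C × ℤ → C → C → ℤ → ℝ} {B : ℝ}
    (hb : ∀ ζ c d i m, |lam5 G F g ca cb ce cg ζ c d i m| ≤ B)
    (hL : ∀ ζ c d m, |L ζ c d m| ≤ B)
    (hz0 : ∀ ζ, ζ.2 ∈ nd G.lo G.hi ζ.1 → ∀ c d,
      Zone5 kL kR (lam5 G F g ca cb ce cg ζ c d) (L ζ c d))
    (hW : ∀ ζ, ζ.2 ∈ nd G.lo G.hi ζ.1 → ∀ c d, EndOK (L ζ c d) (W ζ c d)) :
    G.PairP (cstN D ρ V M σ g ca cb ce cg)
      (fun ζ a b => W ζ a.1 b.1 (2 * b.2 - a.2)) (18 * B * δ) := by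
  have key := G.zone_pairP5 hM hb hL hz0 hW (Ψ := cstN D ρ V M σ g ca cb ce cg)
    (ε := 0) (fun ζ _ y z hy hz => ?_)
  · rw [add_zero] at key
    exact key
  · have k := kz_le G.hD0 hρ (V := V) (y := y) (z := z) (F.hvI z hz) (F.hvO z hz)
      (ca ζ) (cb ζ) (ce ζ) (cg ζ)
    unfold cstN gz lam5
    rw [zn_eq5 G.hD0 hρ, F.htyp y hy]
    rw [F.hpole y hy, F.hpole z hz] at k
    rw [pl_add_const]
    linarith

variable {G}

lemma kX_mul_right (f : C × ℤ → ℝ) (r : ℝ) (p : C × ℝ) :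
    kX G.lo G.hi (fun ζ => f ζ * r) p = kX G.lo G.hi f p * r := by
  unfold kX
  rw [sum_mul]
  exact sum_congr rfl fun i _ => by ring

lemma kX_cst {x : P4} (hx : G.ok x) (v : C → ℝ) :
    kX G.lo G.hi (fun ζ => v ζ.1) (G.pt x) = v (G.cl x) := by
  have h := (G.regX hx).one
  unfold kX
  show ∑ i ∈ nd G.lo G.hi (G.pt x).1, hat i (G.pt x).2 * v (G.cl x) = v (G.cl x)
  rw [← sum_mul, h, one_mul]

/-- THE JOINT PART: coefficient functions of the third point -/
theorem cst_part {g : Fin 3 → C × ℤ → Bool → ℤ → ℝ} {ca cb ce cg : C × ℤ → ℝ}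
    {W : C × ℤ → C × ℤ → C × ℤ → ℝ} {ε : ℝ}
    (hW : G.PairP (cstN D ρ V M σ g ca cb ce cg) W ε) {a b e e' : P4 → ℝ}
    (ha : ∀ x, G.ok x → a x ≤ kX G.lo G.hi ca (G.pt x))
    (hb : ∀ x, G.ok x → b x ≤ kX G.lo G.hi cb (G.pt x))
    (he : ∀ x, G.ok x → e x ≤ kX G.lo G.hi ce (G.pt x))
    (he' : ∀ x, G.ok x → e' x ≤ kX G.lo G.hi cg (G.pt x)) :
    G.Part (fun x y z => kX G.lo G.hi (fun ζ => gz M σ D ρ g ζ y.1 (lab D y z)) (G.pt x)
      + (a x * kNP V (1 + ρ) y.2 z.2 + b x * kNQ V (1 + ρ) y.2 z.2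
        + e x * kQP (D - ρ + 1) y.2 z.2 + e' x * kPQ (D - ρ + 1) y.2 z.2)) W ε := by
  refine hW.part.congr (fun x y z hx _ _ => ?_) le_rfl
  unfold cstN
  rw [kX_add, kX_add, kX_add, kX_add, kX_mul_right, kX_mul_right, kX_mul_right, kX_mul_right]
  have i1 := mul_le_mul_of_nonneg_right (ha x hx) (kNP_nonneg V (1 + ρ) y.2 z.2)
  have i2 := mul_le_mul_of_nonneg_right (hb x hx) (kNQ_nonneg V (1 + ρ) y.2 z.2)
  have i3 := mul_le_mul_of_nonneg_right (he x hx) (kQP_nonneg (D - ρ + 1) y.2 z.2)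
  have i4 := mul_le_mul_of_nonneg_right (he' x hx) (kPQ_nonneg (D - ρ + 1) y.2 z.2)
  linarith

end joint

end

end MP61673a.FE
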