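import Pool.Agent.Mu673.FE5
import Pool.Agent.Mu673.CellT

/-!
FREE FACTS of a row certificate (helper56): `X1`, `X3` of `row3t`, `row3tc` built from products of a
one point functional and a pair functional (case distinctions on signs, boxes of a pair count,
shares), and one table above or below a constant threshold kernel.
-/

set_option autoImplicit false

namespace MP61673a.FE

open Finset MP61673a.Kink MP61673a.Bary MP61673a.Sos MP61673a.Fin MP61673a.W

noncomputable section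

variable {P Q : WS} {cl : P.ι ⊕ Q.ι → Bool}

/-- a fact: usable as `X1`, `X3` with the constant `c` -/
def XF (P Q : WS) (cl : P.ι ⊕ Q.ι → Bool) (K : ℤ) (X1 : P4 → ℝ) (X3 : P4 → P4 → P4 → ℝ)
    (c : ℝ) : Prop :=
  -(c * K) ≤ U1 P Q cl X1 + U3 P Q cl X3

namespace XF

lemma zero (K : ℤ) : XF P Q cl K (fun _ => 0) (fun _ _ _ => 0) 0 := by
  unfold XF
  rw [U1_const, U3_const]
  simp

lemma add {K : ℤ} {X1 Y1 : P4 → ℝ} {X3 Y3 : P4 → P4 → P4 → ℝ} {c d : ℝ}
    (h : XF P Q cl K X1 X3 c) (h' : XF P Q cl K Y1 Y3 d) :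
    XF P Q cl K (fun x => X1 x + Y1 x) (fun x y z => X3 x y z + Y3 x y z) (c + d) := by
  unfold XF at *
  rw [U1_add, U3_add]
  linarith

lemma smul {K : ℤ} {X1 : P4 → ℝ} {X3 : P4 → P4 → P4 → ℝ} {c r : ℝ} (hr : 0 ≤ r)
    (h : XF P Q cl K X1 X3 c) :
    XF P Q cl K (fun x => r * X1 x) (fun x y z => r * X3 x y z) (r * c) := by
  unfold XF at *
  rw [U1_mul, U3_mul]
  have := mul_le_mul_of_nonneg_left h hr
  linarith

lemma mono {K : ℤ} {X1 : P4 → ℝ} {X3 : P4 → P4 → P4 → ℝ} {c d : ℝ} (hK : 0 ≤ K) (hcd : c ≤ d)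
    (h : XF P Q cl K X1 X3 c) : XF P Q cl K X1 X3 d := by
  unfold XF at *
  have hK' : (0:ℝ) ≤ K := by exact_mod_cast hK
  have := mul_le_mul_of_nonneg_right hcd hK'
  linarith

end XF

lemma mass_le_K {K0 : ℤ} {f : ℝ} {D K ρ V E N : ℤ} {ξR ξL : ℤ → ℝ}
    (h : EnvS K0 f P Q D K ρ V E N ξR ξL) :
    0 ≤ mass P + mass Q ∧ mass P + mass Q ≤ K ∧ (mass P + mass Q) ^ 2 ≤ 13 * K := by
  have h1 := h.sq_le
  have hD : (D:ℝ) = 4 * K + 1 := by exact_mod_cast h.hD
  have hK : (10000:ℝ) ≤ K := by exact_mod_cast h.hK1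
  have h2 : (0:ℝ) ≤ mass P + mass Q := tm_nonneg h.gP h.gQ
  have h3 : (mass P + mass Q) ^ 2 ≤ 13 * K := by
    rw [hD] at h1
    linarith
  refine ⟨h2, ?_, h3⟩
  by_contra hc
  rw [not_le] at hc
  nlinarith

/-- PRODUCT OF A FUNCTIONAL OF KNOWN SIGN WITH A PAIR FUNCTION `≥ -e / K` -/
theorem XF.prod {K0 : ℤ} {f : ℝ} {D K ρ V E N : ℤ} {ξR ξL : ℤ → ℝ}
    (h : EnvS K0 f P Q D K ρ V E N ξR ξL) {l : P4 → ℝ} {B0 e : ℝ} (he : 0 ≤ e)
    (hl : 0 ≤ U1 P Q cl l) (hl0 : ∀ x : P4, InR D K x.2 → l x ≤ B0)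
    {ν : P4 → P4 → ℝ} (hν : ∀ y z : P4, InR D K y.2 → InR D K z.2 → -(e / K) ≤ ν y z) :
    XF P Q cl K (fun _ => 0) (fun x y z => l x * ν y z) (13 * (max B0 0 * e)) := by
  obtain ⟨m0, m1, m2⟩ := mass_le_K h
  have hK : (10000:ℝ) ≤ K := by exact_mod_cast h.hK1
  have hB : 0 ≤ max B0 0 := le_max_right _ _
  have u1 : U1 P Q cl l ≤ max B0 0 * (mass P + mass Q) := by
    rw [← U1_const P Q cl (max B0 0)]
    exact h.U1_mono cl fun x hx => (hl0 x hx).trans (le_max_left _ _)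
  have u2 : -(e / K) * (mass P + mass Q) ^ 2 ≤ U2 P Q cl ν := by
    rw [← U2_const P Q cl (-(e / K)), U2_eq, U2_eq]
    refine h.U1_mono cl fun y hy => h.U1_mono cl fun z hz => hν y z hy hz
  unfold XF
  rw [U3_prod, U1_const, zero_mul, zero_add]
  have e0 : 0 ≤ e / K := div_nonneg he (by linarith)
  have s1 : -(e / K * (13 * K)) ≤ U2 P Q cl ν := by
    have := mul_le_mul_of_nonneg_left m2 e0
    linarith
  have s2 : e / K * (13 * K) = 13 * e := by
    field_simp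
  rw [s2] at s1
  have s3 : U1 P Q cl l * (-(13 * e)) ≤ U1 P Q cl l * U2 P Q cl ν :=
    mul_le_mul_of_nonneg_left s1 hl
  have s4 : U1 P Q cl l * (13 * e) ≤ max B0 0 * K * (13 * e) :=
    mul_le_mul_of_nonneg_right (u1.trans (mul_le_mul_of_nonneg_left m1 hB)) (by linarith)
  linarith

/-- a linear fact times a nonnegative pair function, no error -/
theorem XF.prod0 {D K V E N : ℤ} {ξR ξL : ℤ → ℝ} (h : Env P Q D K V E N ξR ξL) {l : P4 → ℝ}
    (hl : 0 ≤ U1 P Q cl l) {ν : P4 → P4 → ℝ}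
    (hν : ∀ y z : P4, InR D K y.2 → InR D K z.2 → 0 ≤ ν y z) :
    XF P Q cl K (fun _ => 0) (fun x y z => l x * ν y z) 0 := by
  have u2 : 0 ≤ U2 P Q cl ν := by
    rw [U2_eq]
    exact h.U1_nonneg cl fun y hy => h.U1_nonneg cl fun z hz => hν y z hy hz
  unfold XF
  rw [U3_prod, U1_const]
  have := mul_nonneg hl u2
  linarith

/-- lower bound of a pair count times a nonnegative function of the third point -/
theorem XF.boxLo {D K V E N : ℤ} {ξR ξL : ℤ → ℝ} (h : Env P Q D K V E N ξR ξL)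
    {φ : P4 → ℝ} (hφ : ∀ x : P4, InR D K x.2 → 0 ≤ φ x) {g : P4 → P4 → ℝ} {c : ℝ}
    (hg : c ≤ U2 P Q cl g) :
    XF P Q cl K (fun x => -(c * φ x)) (fun x y z => φ x * g y z) 0 := by
  have u := h.U1_nonneg cl hφ
  have e : U1 P Q cl (fun x => -(c * φ x)) = -c * U1 P Q cl φ := by
    rw [← U1_mul]
    congr 1
    funext x
    ring
  unfold XF
  rw [U3_prod, e]
  have := mul_le_mul_of_nonneg_left hg u
  linarith

/-- upper bound of a pair count times a nonnegative function of the third point -/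
theorem XF.boxUp {D K V E N : ℤ} {ξR ξL : ℤ → ℝ} (h : Env P Q D K V E N ξR ξL)
    {φ : P4 → ℝ} (hφ : ∀ x : P4, InR D K x.2 → 0 ≤ φ x) {g : P4 → P4 → ℝ} {c : ℝ}
    (hg : U2 P Q cl g ≤ c) :
    XF P Q cl K (fun x => c * φ x) (fun x y z => -(φ x * g y z)) 0 := by
  have u := h.U1_nonneg cl hφ
  have e : U3 P Q cl (fun x y z => -(φ x * g y z)) = -(U1 P Q cl φ * U2 P Q cl g) := by
    rw [← U3_prod]
    have := U3_mul P Q cl (-1) (fun x y z => φ x * g y z)
    rw [neg_one_mul] at this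
    rw [← this]
    congr 1
    funext x y z
    ring
  unfold XF
  rw [e, U1_mul]
  have := mul_le_mul_of_nonneg_left hg u
  linarith

/-- SIGN CASES of a combined functional `l` against the pair kernel `k`: `lo` below `k`, `hi` above
`k` (up to `e / K`) -/
theorem XF.sign_cases {K0 : ℤ} {f : ℝ} {D K ρ V E N : ℤ} {ξR ξL : ℤ → ℝ}
    (h : EnvS K0 f P Q D K ρ V E N ξR ξL) (l : P4 → ℝ) {B0 e : ℝ} (he : 0 ≤ e)
    (hl0 : ∀ x : P4, InR D K x.2 → |l x| ≤ B0) {k lo hi : P4 → P4 → ℝ}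
    (hlo : ∀ y z : P4, InR D K y.2 → InR D K z.2 → lo y z ≤ k y z + e / K)
    (hhi : ∀ y z : P4, InR D K y.2 → InR D K z.2 → k y z ≤ hi y z + e / K) :
    (0 ≤ U1 P Q cl l
      ∧ XF P Q cl K (fun _ => 0) (fun x y z => l x * (k y z - lo y z)) (13 * (B0 * e)))
    ∨ (U1 P Q cl l ≤ 0
      ∧ XF P Q cl K (fun _ => 0) (fun x y z => l x * (k y z - hi y z)) (13 * (B0 * e))) := by
  have hInR : ∃ x : P4, InR D K x.2 := by
    refine ⟨(false, (false, 0)), ?_⟩
    have h1 := h.hK1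
    have h2 := h.hD
    constructor <;> dsimp only <;> omega
  obtain ⟨x0, hx0⟩ := hInR
  have hB : 0 ≤ B0 := (abs_nonneg _).trans (hl0 x0 hx0)
  rcases le_total 0 (U1 P Q cl l) with c | c
  · left
    refine ⟨c, ?_⟩
    have k1 := XF.prod h he c (fun x hx => (le_abs_self _).trans (hl0 x hx))
      (ν := fun y z => k y z - lo y z) (fun y z hy hz => by
        have := hlo y z hy hz
        linarith)
    rw [max_eq_left hB] at k1
    exact k1
  · right
    refine ⟨c, ?_⟩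
    have c' : 0 ≤ U1 P Q cl (fun x => -1 * l x) := by
      rw [U1_mul]
      linarith
    have k1 := XF.prod h he c' (fun x hx => (by
        have := neg_abs_le (l x)
        have := hl0 x hx
        show -1 * l x ≤ B0
        linarith)) (ν := fun y z => hi y z - k y z) (fun y z hy hz => by
        have := hhi y z hy hz
        linarith)
    rw [max_eq_left hB] at k1
    have e : (fun x y z => -1 * l x * (hi y z - k y z)) = fun x y z => l x * (k y z - hi y z) := by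
      funext x y z
      ring
    rw [e] at k1
    exact k1

/-- sign of an arbitrary functional, for exact products -/
theorem XF.le_cases (P Q : WS) (cl : P.ι ⊕ Q.ι → Bool) (l : P4 → ℝ) :
    0 ≤ U1 P Q cl l ∨ 0 ≤ U1 P Q cl (fun x => -l x) := by
  rcases le_total 0 (U1 P Q cl l) with c | c
  · exact Or.inl c
  · right
    have e : (fun x => -l x) = fun x => -1 * l x := by
      funext x
      ring
    rw [e, U1_mul]
    linarith

/-! ### One table above a combination of the constant threshold kernels -/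

namespace GrdD

variable {C : Type} {M : ℕ} {σ δ : ℝ} {D K ρ : ℤ} {kL kR : ℝ}
variable (G : GrdD C M σ δ D K ρ kL kR) {V : ℤ} (F : Flg G.toGrd V)

/-- UPPER TABLE of `a kNP + b kNQ + e kQP + g kPQ`; with negative coefficients: a lower table -/
theorem kz_nX (hρ : 0 ≤ ρ) (hM : (M:ℝ) / D ≤ δ) (a b e g : ℝ) {L W : C → C → ℤ → ℝ} {B : ℝ}
    (hb : ∀ c d i, |kz (F.pole c) (F.pole d) (F.vI d) (F.vO d) a b e g i| ≤ B)
    (hL : ∀ c d m, |L c d m| ≤ B)
    (hz0 : ∀ c d, Zone5 kL kR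
      (fun i _ => kz (F.pole c) (F.pole d) (F.vI d) (F.vO d) a b e g i) (L c d))
    (hW : ∀ c d, EndOK (L c d) (W c d)) {y z : P4} (hy : G.ok y) (hz : G.ok z) :
    a * kNP V (1 + ρ) y.2 z.2 + b * kNQ V (1 + ρ) y.2 z.2 + e * kQP (D - ρ + 1) y.2 z.2
      + g * kPQ (D - ρ + 1) y.2 z.2
      ≤ nX G.lo G.hi (fun a b => W a.1 b.1 (2 * b.2 - a.2)) (G.pt y) (G.pt z) + 18 * B * δ := by
  have k := kz_le G.hD0 hρ (V := V) (y := y) (z := z) (F.hvI z hz) (F.hvO z hz) a b e g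
  rw [F.hpole y hy, F.hpole z hz] at k
  have r := G.zone_rule5 hM (lam := fun i _ => kz (F.pole (G.cl y)) (F.pole (G.cl z))
    (F.vI (G.cl z)) (F.vO (G.cl z)) a b e g i) (fun i _ => hb _ _ i) (hL _ _)
    (hz0 (G.cl y) (G.cl z)) (hW (G.cl y) (G.cl z)) hy hz
  have e1 : nX G.lo G.hi (fun a b => W a.1 b.1 (2 * b.2 - a.2)) (G.pt y) (G.pt z)
      = nX G.lo G.hi (fun a b => W (G.cl y) (G.cl z) (2 * b.2 - a.2)) (G.pt y) (G.pt z) := rfl
  have e2 : pl (fun _ => kz (F.pole (G.cl y)) (F.pole (G.cl z))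
      (F.vI (G.cl z)) (F.vO (G.cl z)) a b e g (zn5 D ρ (lab D y z))) (yc M σ D (lab D y z))
      = kz (F.pole (G.cl y)) (F.pole (G.cl z))
      (F.vI (G.cl z)) (F.vO (G.cl z)) a b e g (zn5 D ρ (lab D y z)) := by
    unfold pl
    ring
  rw [e2] at r
  rw [e1]
  linarith

/-- LOWER TABLE: `nX W ≤ a kNP + b kNQ + e kQP + g kPQ + ε` from the upper table of the negative -/
theorem kz_nX_lo (hρ : 0 ≤ ρ) (hM : (M:ℝ) / D ≤ δ) (a b e g : ℝ) {L W : C → C → ℤ → ℝ} {B : ℝ}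
    (hb : ∀ c d i, |kz (F.pole c) (F.pole d) (F.vI d) (F.vO d) (-a) (-b) (-e) (-g) i| ≤ B)
    (hL : ∀ c d m, |L c d m| ≤ B)
    (hz0 : ∀ c d, Zone5 kL kR
      (fun i _ => kz (F.pole c) (F.pole d) (F.vI d) (F.vO d) (-a) (-b) (-e) (-g) i) (L c d))
    (hW : ∀ c d, EndOK (L c d) (fun m => -W c d m)) {y z : P4} (hy : G.ok y) (hz : G.ok z) :
    nX G.lo G.hi (fun a b => W a.1 b.1 (2 * b.2 - a.2)) (G.pt y) (G.pt z)
      ≤ a * kNP V (1 + ρ) y.2 z.2 + b * kNQ V (1 + ρ) y.2 z.2 + e * kQP (D - ρ + 1) y.2 z.2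
      + g * kPQ (D - ρ + 1) y.2 z.2 + 18 * B * δ := by
  have k := kz_nX G F hρ hM (-a) (-b) (-e) (-g) (W := fun c d m => -W c d m) hb hL hz0 hW hy hz
  have e1 : nX G.lo G.hi (fun a b => -W a.1 b.1 (2 * b.2 - a.2)) (G.pt y) (G.pt z)
      = -nX G.lo G.hi (fun a b => W a.1 b.1 (2 * b.2 - a.2)) (G.pt y) (G.pt z) := by
    have h := nX_smul G.lo G.hi (fun a b => W a.1 b.1 (2 * b.2 - a.2)) (-1) (G.pt y) (G.pt z)
    rw [neg_one_mul] at h
    rw [← h]
    congr 1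
    funext a b
    ring
  rw [e1] at k
  linarith

end GrdD

end

end MP61673a.FE
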