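import Pool.Agent.Mu673.FE3

/-!
FExr: THREE-BODY THRESHOLDS BY SHIFTED LABEL FUNCTIONS (helper31). Form `t = Y + p X`, `Y` = label
coordinate, `X` = coordinate of the sampler (node units). A piecewise linear function `φ` with the
sampler condition `XR q c φ`, `q = |p|`, has `∑ hat_i(X) φ (Y + p i) ≥ [Y + p X ≤ c]` for all real
`X`, `Y`; `XG` is the same for gains.
-/

set_option autoImplicit false

namespace MP61673a.FE

open Finset MP61673a.Kink MP61673a.Bary MP61673a.Sos MP61673a.Fin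

noncomputable section

/-- sampler condition for costs -/
structure XR (q : ℕ) (c : ℝ) (φ : ℤ → ℝ) : Prop where
  nonneg : ∀ m, 0 ≤ φ m
  le : ∀ t s : ℝ, 0 ≤ s → s ≤ 1 → t + q * s ≤ c → 1 ≤ (1 - s) * pl φ t + s * pl φ (t + q)

/-- sampler condition for gains -/
structure XG (q : ℕ) (c : ℝ) (ψ : ℤ → ℝ) : Prop where
  le_one : ∀ m, ψ m ≤ 1
  le : ∀ t s : ℝ, 0 ≤ s → s ≤ 1 → c ≤ t + q * s → (1 - s) * pl ψ t + s * pl ψ (t + q) ≤ 0

lemma pl_le_one {f : ℤ → ℝ} (h : ∀ m, f m ≤ 1) (x : ℝ) : pl f x ≤ 1 := by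
  have h0 := Int.fract_nonneg x
  have h1 := Int.fract_lt_one x
  have a := mul_le_mul_of_nonneg_left (h ⌊x⌋) (by linarith : 0 ≤ 1 - Int.fract x)
  have b := mul_le_mul_of_nonneg_left (h (⌊x⌋ + 1)) h0
  unfold pl
  linarith

/-- sufficient conditions for costs -/
lemma XR.mk' {q : ℕ} {c : ℝ} {φ : ℤ → ℝ} (hq : 1 ≤ q) (h0 : ∀ m, 0 ≤ φ m)
    (h1 : ∀ t : ℝ, t ≤ c → 1 ≤ pl φ t)
    (h2 : ∀ t : ℝ, c - q ≤ t → t ≤ c → (q:ℝ) ≤ (t - c + q) * pl φ t + (c - t) * pl φ (t + q)) :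
    XR q c φ := by
  refine ⟨h0, fun t s hs0 hs1 ht => ?_⟩
  have hq' : (1:ℝ) ≤ q := by exact_mod_cast hq
  have ht0 : t ≤ c := by nlinarith
  have a0 := h1 t ht0
  rcases le_total (t + q) c with d | d
  · have a1 := h1 (t + q) d
    have b0 := mul_le_mul_of_nonneg_left a0 (sub_nonneg.2 hs1)
    have b1 := mul_le_mul_of_nonneg_left a1 hs0
    linarith
  · have a1 := h2 t (by linarith) ht0
    -- linear in `s` between `0` and `(c - t) / q`
    rcases eq_or_lt_of_le ht0 with e | e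
    · have hs : s = 0 := by
        have : (q:ℝ) * s ≤ 0 := by linarith
        nlinarith
      rw [hs]
      linarith
    · have e0 : 0 < c - t := by linarith
      refine le_of_sub_nonneg (nonneg_of_mul_nonneg_right (a := c - t) ?_ e0)
      have e1 : (c - t) * ((1 - s) * pl φ t + s * pl φ (t + q) - 1)
          = (c - t - q * s) * (pl φ t - 1)
            + s * ((t - c + q) * pl φ t + (c - t) * pl φ (t + q) - q) := by ring
      rw [e1]
      have p1 := mul_nonneg (by linarith : 0 ≤ c - t - q * s) (sub_nonneg.2 a0)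
      have p2 := mul_nonneg hs0 (sub_nonneg.2 a1)
      linarith

/-- sufficient conditions for gains -/
lemma XG.mk' {q : ℕ} {c : ℝ} {ψ : ℤ → ℝ} (hq : 1 ≤ q) (h0 : ∀ m, ψ m ≤ 1)
    (h1 : ∀ t : ℝ, c ≤ t → pl ψ t ≤ 0)
    (h2 : ∀ t : ℝ, c - q ≤ t → t ≤ c → (t - c + q) * pl ψ t + (c - t) * pl ψ (t + q) ≤ 0) :
    XG q c ψ := by
  refine ⟨h0, fun t s hs0 hs1 ht => ?_⟩
  have hq' : (1:ℝ) ≤ q := by exact_mod_cast hq
  have ht0 : c ≤ t + q := by nlinarith
  have a0 := h1 (t + q) ht0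
  rcases le_total c t with d | d
  · have a1 := h1 t d
    have b0 := mul_nonneg (sub_nonneg.2 hs1) (neg_nonneg.2 a1)
    have b1 := mul_nonneg hs0 (neg_nonneg.2 a0)
    linarith
  · have a1 := h2 t (by linarith) d
    rcases eq_or_lt_of_le ht0 with e | e
    · have hs : s = 1 := by
        have : (q:ℝ) * 1 ≤ q * s := by linarith
        nlinarith
      rw [hs]
      linarith
    · have e0 : 0 < t - c + q := by linarith
      refine le_of_sub_nonneg (nonneg_of_mul_nonneg_right (a := t - c + q) ?_ e0)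
      have e1 : (t - c + q) * (0 - ((1 - s) * pl ψ t + s * pl ψ (t + q)))
          = (1 - s) * (0 - ((t - c + q) * pl ψ t + (c - t) * pl ψ (t + q)))
            + (t + q * s - c) * (0 - pl ψ (t + q)) := by ring
      rw [e1]
      have p1 := mul_nonneg (sub_nonneg.2 hs1) (sub_nonneg.2 a1)
      have p2 := mul_nonneg (by linarith : 0 ≤ t + q * s - c) (sub_nonneg.2 a0)
      linarith

/-! ### Checks inside a cell -/

/-- polar form of the quadratic `(t - c + q) pl φ t + (c - t) pl φ (t + q)` on the cell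
`[m, m+1]`, at `m + u`, `m + v` -/
def pol (q : ℕ) (c : ℝ) (φ : ℤ → ℝ) (m : ℤ) (u v : ℝ) : ℝ :=
  ((m + u - c + q) * ((1 - v) * φ m + v * φ (m + 1))
      + (m + v - c + q) * ((1 - u) * φ m + u * φ (m + 1))) / 2
    + ((c - m - u) * ((1 - v) * φ (m + q) + v * φ (m + q + 1))
      + (c - m - v) * ((1 - u) * φ (m + q) + u * φ (m + q + 1))) / 2

lemma pol_eq {q : ℕ} {c : ℝ} {φ : ℤ → ℝ} {m : ℤ} {t : ℝ} (h0 : (m:ℝ) ≤ t) (h1 : t ≤ m + 1) :
    (t - c + q) * pl φ t + (c - t) * pl φ (t + q) = pol q c φ m (t - m) (t - m) := by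
  rw [pl_of_mem φ h0 h1, pl_of_mem φ (k := m + q) (x := t + q) (by push_cast; linarith)
    (by push_cast; linarith)]
  unfold pol
  push_cast
  ring

/-- cost condition on a part `[m + u, m + v]` of a cell -/
lemma cell_cost {q : ℕ} {c : ℝ} {φ : ℤ → ℝ} {m : ℤ} {u v : ℝ} (hu : 0 ≤ u) (huv : u < v)
    (hv : v ≤ 1) (h : QN (pol q c φ m u u - q) (pol q c φ m u v - q) (pol q c φ m v v - q))
    {t : ℝ} (h0 : m + u ≤ t) (h1 : t ≤ m + v) :
    (q:ℝ) ≤ (t - c + q) * pl φ t + (c - t) * pl φ (t + q) := by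
  rw [pol_eq (m := m) (by linarith) (by linarith)]
  have hd : 0 < v - u := by linarith
  have k := h ((t - m - u) / (v - u)) (div_nonneg (by linarith) hd.le)
    ((div_le_one hd).2 (by linarith))
  have e : (pol q c φ m u u - q) * (1 - (t - m - u) / (v - u)) ^ 2
      + 2 * (pol q c φ m u v - q) * ((t - m - u) / (v - u) * (1 - (t - m - u) / (v - u)))
      + (pol q c φ m v v - q) * ((t - m - u) / (v - u)) ^ 2
      = pol q c φ m (t - m) (t - m) - q := by
    unfold pol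
    field_simp
    ring
  rw [e] at k
  linarith

/-- gain condition on a part `[m + u, m + v]` of a cell -/
lemma cell_gain {q : ℕ} {c : ℝ} {ψ : ℤ → ℝ} {m : ℤ} {u v : ℝ} (hu : 0 ≤ u) (huv : u < v)
    (hv : v ≤ 1) (h : QN (-pol q c ψ m u u) (-pol q c ψ m u v) (-pol q c ψ m v v))
    {t : ℝ} (h0 : m + u ≤ t) (h1 : t ≤ m + v) :
    (t - c + q) * pl ψ t + (c - t) * pl ψ (t + q) ≤ 0 := by
  rw [pol_eq (m := m) (by linarith) (by linarith)]
  have hd : 0 < v - u := by linarith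
  have k := h ((t - m - u) / (v - u)) (div_nonneg (by linarith) hd.le)
    ((div_le_one hd).2 (by linarith))
  have e : -pol q c ψ m u u * (1 - (t - m - u) / (v - u)) ^ 2
      + 2 * -pol q c ψ m u v * ((t - m - u) / (v - u) * (1 - (t - m - u) / (v - u)))
      + -pol q c ψ m v v * ((t - m - u) / (v - u)) ^ 2
      = -pol q c ψ m (t - m) (t - m) := by
    unfold pol
    field_simp
    ring
  rw [e] at k
  linarith

/-! ### The sampler direction -/

/-- hat sums in the form of two neighbours -/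
lemma sum_hat_two {I : Finset ℤ} {x : ℝ} (h : Near I x) (F : ℤ → ℝ) :
    ∑ i ∈ I, hat i x * F i = (1 - Int.fract x) * F ⌊x⌋ + Int.fract x * F (⌊x⌋ + 1) :=
  sum_hat h F

/-- costs, `p = q` or `p = -q` -/
lemma XR.sum {q : ℕ} {c : ℝ} {φ : ℤ → ℝ} (h : XR q c φ) {p : ℤ} (hp : p = q ∨ p = -q)
    {I : Finset ℤ} {x : ℝ} (hx : Near I x) {Y : ℝ} (hY : Y + p * x ≤ c) :
    1 ≤ ∑ i ∈ I, hat i x * pl φ (Y + p * i) := by
  have f0 := Int.fract_nonneg x
  have f1 := (Int.fract_lt_one x).le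
  have f2 := Int.floor_add_fract x
  rw [sum_hat_two hx (fun i => pl φ (Y + p * i))]
  rcases hp with rfl | rfl
  · have k := h.le (Y + q * ⌊x⌋) (Int.fract x) f0 f1 (by
      have : (Y:ℝ) + q * ⌊x⌋ + q * Int.fract x = Y + q * (⌊x⌋ + Int.fract x) := by ring
      rw [this, f2]
      push_cast at hY
      exact hY)
    refine k.trans (le_of_eq ?_)
    push_cast
    rw [show Y + (q:ℝ) * ⌊x⌋ + q = Y + q * (⌊x⌋ + 1) by ring]
  · have k := h.le (Y - q * (⌊x⌋ + 1)) (1 - Int.fract x) (by linarith) (by linarith) (by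
      have : (Y:ℝ) - q * (⌊x⌋ + 1) + q * (1 - Int.fract x) = Y - q * (⌊x⌋ + Int.fract x) := by
        ring
      rw [this, f2]
      push_cast at hY
      linarith)
    refine k.trans (le_of_eq ?_)
    push_cast
    rw [show Y - (q:ℝ) * (⌊x⌋ + 1) + q = Y + -q * ⌊x⌋ by ring,
      show Y - (q:ℝ) * (⌊x⌋ + 1) = Y + -q * (⌊x⌋ + 1) by ring]
    ring

/-- gains, `p = q` or `p = -q` -/
lemma XG.sum {q : ℕ} {c : ℝ} {ψ : ℤ → ℝ} (h : XG q c ψ) {p : ℤ} (hp : p = q ∨ p = -q)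
    {I : Finset ℤ} {x : ℝ} (hx : Near I x) {Y : ℝ} (hY : c ≤ Y + p * x) :
    ∑ i ∈ I, hat i x * pl ψ (Y + p * i) ≤ 0 := by
  have f0 := Int.fract_nonneg x
  have f1 := (Int.fract_lt_one x).le
  have f2 := Int.floor_add_fract x
  rw [sum_hat_two hx (fun i => pl ψ (Y + p * i))]
  rcases hp with rfl | rfl
  · have k := h.le (Y + q * ⌊x⌋) (Int.fract x) f0 f1 (by
      have : (Y:ℝ) + q * ⌊x⌋ + q * Int.fract x = Y + q * (⌊x⌋ + Int.fract x) := by ring
      rw [this, f2]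
      push_cast at hY
      exact hY)
    refine (le_of_eq ?_).trans k
    push_cast
    rw [show Y + (q:ℝ) * ⌊x⌋ + q = Y + q * (⌊x⌋ + 1) by ring]
  · have k := h.le (Y - q * (⌊x⌋ + 1)) (1 - Int.fract x) (by linarith) (by linarith) (by
      have : (Y:ℝ) - q * (⌊x⌋ + 1) + q * (1 - Int.fract x) = Y - q * (⌊x⌋ + Int.fract x) := by
        ring
      rw [this, f2]
      push_cast at hY
      linarith)
    refine (le_of_eq ?_).trans k
    push_cast
    rw [show Y - (q:ℝ) * (⌊x⌋ + 1) + q = Y + -q * ⌊x⌋ by ring,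
      show Y - (q:ℝ) * (⌊x⌋ + 1) = Y + -q * (⌊x⌋ + 1) by ring]
    ring

/-- shift of the argument inside a hat sum -/
lemma sum_pl_lip {φ : ℤ → ℝ} {B : ℝ} (hB : ∀ m, |φ m| ≤ B) {I : Finset ℤ} {x : ℝ}
    (hx : Near I x) (F F' : ℤ → ℝ) {η : ℝ} (hF : ∀ i, |F i - F' i| ≤ η) :
    |∑ i ∈ I, hat i x * pl φ (F i) - ∑ i ∈ I, hat i x * pl φ (F' i)| ≤ 2 * B * η := by
  have hB0 : 0 ≤ B := (abs_nonneg _).trans (hB 0)
  rw [← sum_sub_distrib]
  refine (abs_sum_le_sum_abs _ _).trans ?_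
  have h1 : ∀ i ∈ I, |hat i x * pl φ (F i) - hat i x * pl φ (F' i)| ≤ hat i x * (2 * B * η) := by
    intro i _
    rw [← mul_sub, abs_mul, abs_of_nonneg (hat_nonneg i x)]
    exact mul_le_mul_of_nonneg_left ((pl_lip hB _ _).trans
      (mul_le_mul_of_nonneg_left (hF i) (by linarith))) (hat_nonneg _ _)
  refine (sum_le_sum h1).trans (le_of_eq ?_)
  rw [← sum_mul, sum_hat_one hx, one_mul]

variable {C : Type} {M : ℕ} {σ δ : ℝ} {D K ρ : ℤ} {kL kR : ℝ}

namespace GrdD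

variable (G : GrdD C M σ δ D K ρ kL kR)

/-- COST FAMILY, robust: the form holds up to `η` -/
theorem fam_cost {q : ℕ} {c : ℝ} {φ : ℤ → ℝ} (h : XR q c φ) {B : ℝ} (hB : ∀ m, |φ m| ≤ B)
    {p : ℤ} (hp : p = q ∨ p = -q) {x : P4} (hx : G.ok x) {Y η : ℝ}
    (hY : Y + p * yc M σ D (lc D x.2) ≤ c + η) (hη : 0 ≤ η) :
    1 ≤ kX G.lo G.hi (fun ζ => pl φ (Y + p * ζ.2)) (G.pt x) + 2 * B * (q * δ + η) := by
  have hn := abs_le.1 (G.near x hx)
  have hδ := G.delta_nonneg hx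
  have hr := (G.regX hx).near
  have hq0 : (0:ℝ) ≤ q := Nat.cast_nonneg _
  have hY' : (Y - (q * δ + η)) + p * (G.pt x).2 ≤ c := by
    have e : (G.pt x).2 = G.J x := rfl
    rw [e]
    rcases hp with rfl | rfl
    · push_cast at hY ⊢
      have := mul_le_mul_of_nonneg_left (show G.J x ≤ yc M σ D (lc D x.2) + δ by linarith [hn.2])
        hq0
      linarith
    · push_cast at hY ⊢
      have := mul_le_mul_of_nonneg_left (show yc M σ D (lc D x.2) - δ ≤ G.J x by linarith [hn.1])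
        hq0
      linarith
  have k := h.sum hp hr hY'
  have l := abs_le.1 (sum_pl_lip hB hr (fun i => Y - (q * δ + η) + p * i) (fun i => Y + p * i)
    (η := q * δ + η) (fun i => by
      rw [show Y - (q * δ + η) + p * i - (Y + p * i) = -(q * δ + η) by ring, abs_neg,
        abs_of_nonneg (by positivity)]))
  unfold kX
  linarith [l.1, l.2]

/-- a cost family is nonnegative -/
lemma fam_nonneg {φ : ℤ → ℝ} (h : ∀ m, 0 ≤ φ m) {p : ℤ} (x : P4) (Y : ℝ) :
    0 ≤ kX G.lo G.hi (fun ζ => pl φ (Y + p * ζ.2)) (G.pt x) :=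
  kX_nonneg _ _ _ fun _ _ => pl_nonneg h _

/-- GAIN FAMILY, robust: the form fails up to `η` -/
theorem fam_gain {q : ℕ} {c : ℝ} {ψ : ℤ → ℝ} (h : XG q c ψ) {B : ℝ} (hB : ∀ m, |ψ m| ≤ B)
    {p : ℤ} (hp : p = q ∨ p = -q) {x : P4} (hx : G.ok x) {Y η : ℝ}
    (hY : c - η ≤ Y + p * yc M σ D (lc D x.2)) (hη : 0 ≤ η) :
    kX G.lo G.hi (fun ζ => pl ψ (Y + p * ζ.2)) (G.pt x) ≤ 2 * B * (q * δ + η) := by
  have hn := abs_le.1 (G.near x hx)
  have hδ := G.delta_nonneg hx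
  have hr := (G.regX hx).near
  have hq0 : (0:ℝ) ≤ q := Nat.cast_nonneg _
  have hY' : c ≤ (Y + (q * δ + η)) + p * (G.pt x).2 := by
    have e : (G.pt x).2 = G.J x := rfl
    rw [e]
    rcases hp with rfl | rfl
    · push_cast at hY ⊢
      have := mul_le_mul_of_nonneg_left (show yc M σ D (lc D x.2) - δ ≤ G.J x by linarith [hn.1])
        hq0
      linarith
    · push_cast at hY ⊢
      have := mul_le_mul_of_nonneg_left (show G.J x ≤ yc M σ D (lc D x.2) + δ by linarith [hn.2])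
        hq0
      linarith
  have k := h.sum hp hr hY'
  have l := abs_le.1 (sum_pl_lip hB hr (fun i => Y + (q * δ + η) + p * i) (fun i => Y + p * i)
    (η := q * δ + η) (fun i => by
      rw [show Y + (q * δ + η) + p * i - (Y + p * i) = (q * δ + η) by ring,
        abs_of_nonneg (by positivity)]))
  unfold kX
  linarith [l.1, l.2]

/-- a gain family is at most one -/
lemma fam_le_one {ψ : ℤ → ℝ} (h : ∀ m, ψ m ≤ 1) {p : ℤ} {x : P4} (hx : G.ok x) (Y : ℝ) :
    kX G.lo G.hi (fun ζ => pl ψ (Y + p * ζ.2)) (G.pt x) ≤ 1 := by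
  have h1 := G.kX_le x (f := fun ζ => pl ψ (Y + p * ζ.2)) (g := fun _ => 1)
    (fun ζ _ => pl_le_one h _)
  rw [kX_const (G.regX hx)] at h1
  exact h1

end GrdD

end

end MP61673a.FE
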