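import Pool.Agent.Mu673.FEz
import Pool.Agent.Mu673.FExr
import Pool.Agent.Mu673.FEX
import Pool.Agent.Mu673.FE4

/-!
ASSEMBLY OF A ROW CERTIFICATE, PART 1 (helper31): three-body families as label functions of the
sampler nodes, joint part of prices, constant thresholds and families (nine zones, prices on the
outer labels only), coverage.
-/

set_option autoImplicit false

namespace MP61673a.FE

open Finset MP61673a.Kink MP61673a.Bary MP61673a.Sos MP61673a.Fin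

noncomputable section

/-- reflection and shift of a node table -/
lemma pl_aff {s : ℤ} (hs : s = 1 ∨ s = -1) (f : ℤ → ℝ) (k : ℤ) (Y : ℝ) :
    pl (fun m => f (s * m + k)) Y = pl f (s * Y + k) := by
  rcases hs with rfl | rfl
  · have h := pl_shift f k (Y + k)
    rw [show Y + (k:ℝ) - k = Y by ring] at h
    rw [show (((1:ℤ) : ℝ)) * Y + k = Y + k by push_cast; ring, ← h]
    congr 1
    funext m
    rw [one_mul]
  · have h := pl_refl f (-k) (-Y + k)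
    rw [show -(-Y + (k:ℝ)) - ((-k : ℤ) : ℝ) = Y by push_cast; ring] at h
    rw [show (((-1:ℤ) : ℝ)) * Y + k = -Y + k by push_cast; ring, ← h]
    congr 1
    funext m
    rw [show -m - -k = -1 * m + k by ring]

lemma pl_smul' (r : ℝ) (f : ℤ → ℝ) (x : ℝ) : pl (fun m => r * f m) x = r * pl f x := by
  unfold pl
  ring

lemma pl_add' (f g : ℤ → ℝ) (x : ℝ) : pl (fun m => f m + g m) x = pl f x + pl g x := by
  unfold pl
  ring

lemma pl_neg' (f : ℤ → ℝ) (x : ℝ) : pl (fun m => -f m) x = -pl f x := by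
  unfold pl
  ring

variable {C : Type} {M : ℕ} {σ δ : ℝ} {D K ρ : ℤ} {kL kR : ℝ}

namespace GrdD

variable (G : GrdD C M σ δ D K ρ kL kR)

/-! ### Families: label functions of the sampler nodes -/

/-- a three-body functional bounded by label functions of the nodes of the sampler -/
def FamP (Φ : P4 → P4 → P4 → ℝ) (lam : C × ℤ → C → C → ℤ → ℝ) (ε : ℝ) : Prop :=
  ∀ x y z, G.ok x → G.ok y → G.ok z →
    Φ x y z ≤ kX G.lo G.hi (fun ζ => pl (lam ζ (G.cl y) (G.cl z)) (yc M σ D (lab D y z)))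
      (G.pt x) + ε

variable {G}

lemma FamP.zero : G.FamP (fun _ _ _ => 0) (fun _ _ _ _ => 0) 0 := by
  intro x y z _ _ _
  have e : (fun _ : C × ℤ => pl (fun _ : ℤ => (0:ℝ)) (yc M σ D (lab D y z))) = fun _ => 0 := by
    funext ζ
    exact pl_zero _
  rw [e]
  unfold kX
  simp

lemma FamP.add {Φ Φ' : P4 → P4 → P4 → ℝ} {lam lam' : C × ℤ → C → C → ℤ → ℝ} {ε ε' : ℝ}
    (h : G.FamP Φ lam ε) (h' : G.FamP Φ' lam' ε') :
    G.FamP (fun x y z => Φ x y z + Φ' x y z) (fun ζ c d m => lam ζ c d m + lam' ζ c d m)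
      (ε + ε') := by
  intro x y z hx hy hz
  have h1 := h x y z hx hy hz
  have h2 := h' x y z hx hy hz
  simp only [pl_add']
  rw [kX_add]
  linarith

lemma FamP.congr {Φ Φ' : P4 → P4 → P4 → ℝ} {lam : C × ℤ → C → C → ℤ → ℝ} {ε ε' : ℝ}
    (h : G.FamP Φ lam ε) (e : ∀ x y z, G.ok x → G.ok y → G.ok z → Φ' x y z ≤ Φ x y z)
    (hε : ε ≤ ε') : G.FamP Φ' lam ε' := by
  intro x y z hx hy hz
  have h1 := h x y z hx hy hz
  have h2 := e x y z hx hy hz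
  linarith

lemma FamP.mono {Φ : P4 → P4 → P4 → ℝ} {lam lam' : C × ℤ → C → C → ℤ → ℝ} {ε : ℝ}
    (h : G.FamP Φ lam ε) (e : ∀ ζ, ζ.2 ∈ nd G.lo G.hi ζ.1 → ∀ c d m, lam ζ c d m ≤ lam' ζ c d m) :
    G.FamP Φ lam' ε := by
  intro x y z hx hy hz
  have h1 := h x y z hx hy hz
  have h2 := G.kX_le x (f := fun ζ => pl (lam ζ (G.cl y) (G.cl z)) (yc M σ D (lab D y z)))
    (g := fun ζ => pl (lam' ζ (G.cl y) (G.cl z)) (yc M σ D (lab D y z)))
    (fun ζ hζ => pl_mono (fun k => e ζ hζ _ _ k) _)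
  linarith

lemma kX_cl {x : P4} (v : C → ℝ) (f : C × ℤ → ℝ) :
    kX G.lo G.hi (fun ζ => v ζ.1 * f ζ) (G.pt x) = v (G.cl x) * kX G.lo G.hi f (G.pt x) := by
  unfold kX
  rw [mul_sum]
  refine sum_congr rfl fun i _ => ?_
  show hat i (G.pt x).2 * (v (G.cl x) * f ((G.pt x).1, i))
    = v (G.cl x) * (hat i (G.pt x).2 * f ((G.pt x).1, i))
  ring

/-- A COST FAMILY: condition `s Y + p X ≤ c` (up to `η`) -/
theorem fam_costP {q : ℕ} {c : ℝ} {φ : ℤ → ℝ} (h : XR q c φ) {B : ℝ} (hB : ∀ m, |φ m| ≤ B)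
    {s p : ℤ} (hs : s = 1 ∨ s = -1) (hp : p = q ∨ p = -q) {η : ℝ} (hη : 0 ≤ η)
    {v : C → ℝ} {V1 : ℝ} (hv0 : ∀ c, 0 ≤ v c) (hv1 : ∀ c, v c ≤ V1)
    {fl : C → C → ℝ} (hf0 : ∀ c d, 0 ≤ fl c d) (hf1 : ∀ c d, fl c d ≤ 1)
    {Φ : P4 → P4 → P4 → ℝ} {cond : P4 → P4 → P4 → Prop} [∀ x y z, Decidable (cond x y z)]
    (hΦ : ∀ x y z, G.ok x → G.ok y → G.ok z →
      Φ x y z ≤ v (G.cl x) * (fl (G.cl y) (G.cl z) * bo (cond x y z)))
    (hc : ∀ x y z, G.ok x → G.ok y → G.ok z → cond x y z →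
      s * yc M σ D (lab D y z) + p * yc M σ D (lc D x.2) ≤ c + η) :
    G.FamP Φ (fun ζ a b m => v ζ.1 * (fl a b * φ (s * m + p * ζ.2)))
      (V1 * (2 * B * (q * δ + η))) := by
  intro x y z hx hy hz
  have hδ := G.delta_nonneg hx
  have hB0 : 0 ≤ B := (abs_nonneg _).trans (hB 0)
  have hq0 : (0:ℝ) ≤ q := Nat.cast_nonneg _
  have he : 0 ≤ 2 * B * (q * δ + η) := by positivity
  set Y : ℝ := yc M σ D (lab D y z) with hY
  have key : bo (cond x y z)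
      ≤ kX G.lo G.hi (fun ζ => pl φ (s * Y + p * ζ.2)) (G.pt x) + 2 * B * (q * δ + η) := by
    unfold bo
    split_ifs with c1
    · exact G.fam_cost h hB hp hx (hc x y z hx hy hz c1) hη
    · have := G.fam_nonneg h.nonneg (p := p) x (s * Y)
      linarith
  have e1 : kX G.lo G.hi (fun ζ => pl (fun m => v ζ.1 * (fl (G.cl y) (G.cl z)
      * φ (s * m + p * ζ.2))) Y) (G.pt x)
      = v (G.cl x) * (fl (G.cl y) (G.cl z)
        * kX G.lo G.hi (fun ζ => pl φ (s * Y + p * ζ.2)) (G.pt x)) := by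
    have e2 : (fun ζ : C × ℤ => pl (fun m => v ζ.1 * (fl (G.cl y) (G.cl z)
        * φ (s * m + p * ζ.2))) Y)
        = fun ζ => v ζ.1 * (fl (G.cl y) (G.cl z) * pl φ (s * Y + p * ζ.2)) := by
      funext ζ
      rw [pl_smul' (v ζ.1) (fun m => fl (G.cl y) (G.cl z) * φ (s * m + p * ζ.2)),
        pl_smul' (fl (G.cl y) (G.cl z)) (fun m => φ (s * m + p * ζ.2)),
        pl_aff hs φ (p * ζ.2)]
      push_cast
      rfl
    rw [e2, kX_cl v, kX_smul]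
  beta_reduce
  rw [e1]
  have h1 := hΦ x y z hx hy hz
  have h2 := mul_le_mul_of_nonneg_left (mul_le_mul_of_nonneg_left key (hf0 (G.cl y) (G.cl z)))
    (hv0 (G.cl x))
  have h3 : v (G.cl x) * (fl (G.cl y) (G.cl z) * (2 * B * (q * δ + η)))
      ≤ V1 * (2 * B * (q * δ + η)) := by
    have a1 := mul_le_mul_of_nonneg_right (hf1 (G.cl y) (G.cl z)) he
    have a2 := mul_le_mul_of_nonneg_left a1 (hv0 (G.cl x))
    have a3 := mul_le_mul_of_nonneg_right (hv1 (G.cl x)) he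
    linarith
  linarith

/-- A GAIN FAMILY: if the condition fails then `c ≤ s Y + p X` (up to `η`) -/
theorem fam_gainP {q : ℕ} {c : ℝ} {ψ : ℤ → ℝ} (h : XG q c ψ) {B : ℝ} (hB : ∀ m, |ψ m| ≤ B)
    {s p : ℤ} (hs : s = 1 ∨ s = -1) (hp : p = q ∨ p = -q) {η : ℝ} (hη : 0 ≤ η)
    {v : C → ℝ} {V1 : ℝ} (hv0 : ∀ c, 0 ≤ v c) (hv1 : ∀ c, v c ≤ V1)
    {fl : C → C → ℝ} (hf0 : ∀ c d, 0 ≤ fl c d) (hf1 : ∀ c d, fl c d ≤ 1)
    {Φ : P4 → P4 → P4 → ℝ} {cond : P4 → P4 → P4 → Prop} [∀ x y z, Decidable (cond x y z)]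
    (hΦ : ∀ x y z, G.ok x → G.ok y → G.ok z →
      Φ x y z ≤ -(v (G.cl x) * (fl (G.cl y) (G.cl z) * bo (cond x y z))))
    (hc : ∀ x y z, G.ok x → G.ok y → G.ok z → ¬ cond x y z →
      c - η ≤ s * yc M σ D (lab D y z) + p * yc M σ D (lc D x.2)) :
    G.FamP Φ (fun ζ a b m => -(v ζ.1 * (fl a b * ψ (s * m + p * ζ.2))))
      (V1 * (2 * B * (q * δ + η))) := by
  intro x y z hx hy hz
  have hδ := G.delta_nonneg hx
  have hB0 : 0 ≤ B := (abs_nonneg _).trans (hB 0)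
  have hq0 : (0:ℝ) ≤ q := Nat.cast_nonneg _
  have he : 0 ≤ 2 * B * (q * δ + η) := by positivity
  set Y : ℝ := yc M σ D (lab D y z) with hY
  have key : kX G.lo G.hi (fun ζ => pl ψ (s * Y + p * ζ.2)) (G.pt x)
      ≤ bo (cond x y z) + 2 * B * (q * δ + η) := by
    unfold bo
    split_ifs with c1
    · have := G.fam_le_one h.le_one (p := p) hx (s * Y)
      linarith
    · have := G.fam_gain h hB hp hx (hc x y z hx hy hz c1) hη
      linarith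
  have e1 : kX G.lo G.hi (fun ζ => pl (fun m => -(v ζ.1 * (fl (G.cl y) (G.cl z)
      * ψ (s * m + p * ζ.2)))) Y) (G.pt x)
      = -(v (G.cl x) * (fl (G.cl y) (G.cl z)
        * kX G.lo G.hi (fun ζ => pl ψ (s * Y + p * ζ.2)) (G.pt x))) := by
    have e2 : (fun ζ : C × ℤ => pl (fun m => -(v ζ.1 * (fl (G.cl y) (G.cl z)
        * ψ (s * m + p * ζ.2)))) Y)
        = fun ζ => (-v ζ.1) * (fl (G.cl y) (G.cl z) * pl ψ (s * Y + p * ζ.2)) := by
      funext ζ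
      rw [pl_neg' (fun m => v ζ.1 * (fl (G.cl y) (G.cl z) * ψ (s * m + p * ζ.2))),
        pl_smul' (v ζ.1) (fun m => fl (G.cl y) (G.cl z) * ψ (s * m + p * ζ.2)),
        pl_smul' (fl (G.cl y) (G.cl z)) (fun m => ψ (s * m + p * ζ.2)),
        pl_aff hs ψ (p * ζ.2)]
      push_cast
      ring
    rw [e2, kX_cl (fun c => -v c), kX_smul]
    ring
  beta_reduce
  rw [e1]
  have h1 := hΦ x y z hx hy hz
  have h2 := mul_le_mul_of_nonneg_left (mul_le_mul_of_nonneg_left key (hf0 (G.cl y) (G.cl z)))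
    (hv0 (G.cl x))
  have h3 : v (G.cl x) * (fl (G.cl y) (G.cl z) * (2 * B * (q * δ + η)))
      ≤ V1 * (2 * B * (q * δ + η)) := by
    have a1 := mul_le_mul_of_nonneg_right (hf1 (G.cl y) (G.cl z)) he
    have a2 := mul_le_mul_of_nonneg_left a1 (hv0 (G.cl x))
    have a3 := mul_le_mul_of_nonneg_right (hv1 (G.cl x)) he
    linarith
  linarith

/-! ### Nine zones: prices, constant thresholds and families jointly -/

end GrdD

/-- the zone of `FE5` -/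
def z95 (i : Fin 9) : Fin 5 := ![0, 0, 1, 2, 2, 2, 3, 4, 4] i

lemma zn5_eq9 {D ρ : ℤ} (hρ : 1 ≤ ρ) (hρD : ρ < D) (l : ℤ) : zn5 D ρ l = z95 (zn9 D ρ l) := by
  unfold zn5 zn9
  split_ifs <;> first | omega | rfl

/-- pair price on the outer labels -/
def gzo (M : ℕ) (σ : ℝ) (D ρ : ℤ) (g : Fin 3 → C × ℤ → Bool → ℤ → ℝ) (ζ : C × ℤ) (e : Bool)
    (l : ℤ) : ℝ := if outer D l then gz M σ D ρ g ζ e l else 0

section joint

variable (G : GrdD C M σ δ D K ρ kL kR) {V : ℤ} (F : Flg G.toGrd V)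

/-- zone tables: price, constant thresholds, families -/
def lam9 (g : Fin 3 → C × ℤ → Bool → ℤ → ℝ) (ca cb ce cg : C × ℤ → ℝ)
    (lamF : C × ℤ → C → C → ℤ → ℝ) (ζ : C × ℤ) (c d : C) (i : Fin 9) (m : ℤ) : ℝ :=
  g9 g ζ (F.typ c) i m
    + kz (F.pole c) (F.pole d) (F.vI d) (F.vO d) (ca ζ) (cb ζ) (ce ζ) (cg ζ) (z95 i)
    + lamF ζ c d m

/-- pair function: price, constant thresholds, families -/
def jN (g : Fin 3 → C × ℤ → Bool → ℤ → ℝ) (ca cb ce cg : C × ℤ → ℝ)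
    (lamF : C × ℤ → C → C → ℤ → ℝ) (V : ℤ) (ζ : C × ℤ) (y z : P4) : ℝ :=
  gzo M σ D ρ g ζ y.1 (lab D y z)
    + (ca ζ * kNP V (1 + ρ) y.2 z.2 + cb ζ * kNQ V (1 + ρ) y.2 z.2
      + ce ζ * kQP (D - ρ + 1) y.2 z.2 + cg ζ * kPQ (D - ρ + 1) y.2 z.2)
    + pl (lamF ζ (G.cl y) (G.cl z)) (yc M σ D (lab D y z))

/-- JOINT PAIR RULE -/
theorem j_pairP (hρ : 1 ≤ ρ) (hρD : ρ < D)
    (hI : ∀ l, ∃ x ∈ I9 M σ kL kR (zn9 D ρ l), |yc M σ D l - x| ≤ 2 * δ)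
    {g : Fin 3 → C × ℤ → Bool → ℤ → ℝ} {ca cb ce cg : C × ℤ → ℝ}
    {lamF : C × ℤ → C → C → ℤ → ℝ} {L W : C × ℤ → C → C → ℤ → ℝ} {B : ℝ}
    (hb : ∀ ζ c d i m, |lam9 G F g ca cb ce cg lamF ζ c d i m| ≤ B)
    (hL : ∀ ζ c d m, |L ζ c d m| ≤ B)
    (hz0 : ∀ ζ, ζ.2 ∈ nd G.lo G.hi ζ.1 → ∀ c d,
      Zone9 M σ kL kR (lam9 G F g ca cb ce cg lamF ζ c d) (L ζ c d))
    (hW : ∀ ζ, ζ.2 ∈ nd G.lo G.hi ζ.1 → ∀ c d, EndOK (L ζ c d) (W ζ c d)) :
    G.PairP (jN G g ca cb ce cg lamF V)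
      (fun ζ a b => W ζ a.1 b.1 (2 * b.2 - a.2)) (14 * B * δ) := by
  have key := G.zone_pairPI hI hb hL (fun ζ hζ c d i x hx => hz0 ζ hζ c d i x hx) hW
    (Ψ := jN G g ca cb ce cg lamF V) (ε := 0) (fun ζ _ y z hy hz => ?_)
  · rw [add_zero] at key
    exact key
  · have k := kz_le G.hD0 (by omega : 0 ≤ ρ) (V := V) (y := y) (z := z) (F.hvI z hz)
      (F.hvO z hz) (ca ζ) (cb ζ) (ce ζ) (cg ζ)
    have e1 := g9_eq (M := M) (σ := σ) hρ hρD g ζ y.1 (lab D y z)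
    have e2 : pl (lam9 G F g ca cb ce cg lamF ζ (G.cl y) (G.cl z) (zn9 D ρ (lab D y z)))
        (yc M σ D (lab D y z))
        = pl (g9 g ζ (F.typ (G.cl y)) (zn9 D ρ (lab D y z))) (yc M σ D (lab D y z))
          + kz (F.pole (G.cl y)) (F.pole (G.cl z)) (F.vI (G.cl z)) (F.vO (G.cl z)) (ca ζ)
            (cb ζ) (ce ζ) (cg ζ) (z95 (zn9 D ρ (lab D y z)))
          + pl (lamF ζ (G.cl y) (G.cl z)) (yc M σ D (lab D y z)) := by
      unfold lam9 pl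
      ring
    rw [e2, ← F.htyp y hy, e1, ← zn5_eq9 hρ hρD]
    rw [F.hpole y hy, F.hpole z hz] at k
    unfold jN gzo
    linarith

variable {G}

/-- JOINT PART -/
theorem j_part {g : Fin 3 → C × ℤ → Bool → ℤ → ℝ} {ca cb ce cg : C × ℤ → ℝ}
    {lamF : C × ℤ → C → C → ℤ → ℝ} {W : C × ℤ → C × ℤ → C × ℤ → ℝ} {ε εF : ℝ}
    (hW : G.PairP (jN G g ca cb ce cg lamF V) W ε) {a b e e' : P4 → ℝ}
    (ha : ∀ x, G.ok x → a x ≤ kX G.lo G.hi ca (G.pt x))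
    (hb : ∀ x, G.ok x → b x ≤ kX G.lo G.hi cb (G.pt x))
    (he : ∀ x, G.ok x → e x ≤ kX G.lo G.hi ce (G.pt x))
    (he' : ∀ x, G.ok x → e' x ≤ kX G.lo G.hi cg (G.pt x))
    {Φ : P4 → P4 → P4 → ℝ} (hΦ : G.FamP Φ lamF εF) :
    G.Part (fun x y z => kX G.lo G.hi (fun ζ => gzo M σ D ρ g ζ y.1 (lab D y z)) (G.pt x)
      + (a x * kNP V (1 + ρ) y.2 z.2 + b x * kNQ V (1 + ρ) y.2 z.2
        + e x * kQP (D - ρ + 1) y.2 z.2 + e' x * kPQ (D - ρ + 1) y.2 z.2) + Φ x y z) W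
      (ε + εF) := by
  intro x y z hx hy hz
  have h0 := hW.part x y z hx hy hz
  have h1 := hΦ x y z hx hy hz
  beta_reduce at h0 ⊢
  unfold jN at h0
  rw [kX_add, kX_add, kX_add, kX_add, kX_add, kX_mul_right, kX_mul_right, kX_mul_right,
    kX_mul_right] at h0
  have i1 := mul_le_mul_of_nonneg_right (ha x hx) (kNP_nonneg V (1 + ρ) y.2 z.2)
  have i2 := mul_le_mul_of_nonneg_right (hb x hx) (kNQ_nonneg V (1 + ρ) y.2 z.2)
  have i3 := mul_le_mul_of_nonneg_right (he x hx) (kQP_nonneg (D - ρ + 1) y.2 z.2)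
  have i4 := mul_le_mul_of_nonneg_right (he' x hx) (kPQ_nonneg (D - ρ + 1) y.2 z.2)
  linarith

end joint

namespace GrdD

variable (G : GrdD C M σ δ D K ρ kL kR)

/-! ### Coverage on the outer labels -/

/-- THE COVERAGE KERNEL, prices on the outer labels only -/
theorem cov_le9 (g : Fin 3 → C × ℤ → Bool → ℤ → ℝ) (mR mL : C × ℤ → ℤ → ℝ) (x y z : P4) :
    cov3t D (G.gR g) (G.mj mR) (G.gL g) (G.mj mL) x y z
      = kX G.lo G.hi (fun ζ => gzo M σ D ρ g ζ y.1 (lab D y z)) (G.pt x)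
        + kX G.lo G.hi (fun ζ => midN D mR mL ζ y z) (G.pt x) := by
  have h := G.gdep_outer g x y z
  unfold cov3t covRt covLt midN gzo
  rw [← h, kX_add, kX_smul, kX_smul]
  have r1 : (if y.1 = z.1 ∧ (rc D y.2 < 0 ∨ rc D z.2 < 0) then
      G.mj mR x (-rc D y.2 - rc D z.2) else 0)
      = kX G.lo G.hi (fun ζ => if y.1 = z.1 ∧ (rc D y.2 < 0 ∨ rc D z.2 < 0) then
        mR ζ (-rc D y.2 - rc D z.2) else 0) (G.pt x) := by
    split_ifs
    · rfl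
    · unfold kX
      simp
  have r2 : (if y.1 = z.1 ∧ (lc D y.2 < 0 ∨ lc D z.2 < 0) then
      G.mj mL x (-lc D y.2 - lc D z.2) else 0)
      = kX G.lo G.hi (fun ζ => if y.1 = z.1 ∧ (lc D y.2 < 0 ∨ lc D z.2 < 0) then
        mL ζ (-lc D y.2 - lc D z.2) else 0) (G.pt x) := by
    split_ifs
    · rfl
    · unfold kX
      simp
  rw [← r1, ← r2]
  ring

end GrdD

end

end MP61673a.FE
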