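import Mathlib

/-!
KERNEL CHECKER for typed three point certificates (typed points, typed labels).
All data are packed natural numbers, digits in base `2^40`.
-/

set_option autoImplicit false

namespace MP61673a.KC

noncomputable section

/-- digit `c` of `x` in base `2^40` -/
def dg (x c : ℕ) : ℕ := Nat.land (Nat.shiftRight x (Nat.mul 40 c)) 1099511627775

/-- all `k < n` satisfy `p` -/
def allN (n : ℕ) (p : ℕ → Bool) : Bool :=
  Nat.rec (motive := fun _ => Bool) true
    (fun k ih => Bool.rec (motive := fun _ => Bool) false ih (p k)) n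

/-- element `n` of a list -/
def nth {α : Type} (d : α) (l : List α) (n : ℕ) : α :=
  List.rec (motive := fun _ => ℕ → α) (fun _ => d)
    (fun a _ ih n => Nat.rec (motive := fun _ => α) a (fun k _ => ih k) n) l n

/-- sum over a list -/
def sumL {α : Type} (f : α → ℕ) (l : List α) : ℕ :=
  List.rec (motive := fun _ => ℕ) 0 (fun p _ ih => Nat.add (f p) ih) l

/-- all elements of a list -/
def allL {α : Type} (l : List α) (p : α → Bool) : Bool :=
  List.rec (motive := fun _ => Bool) true
    (fun a _ ih => Bool.rec (motive := fun _ => Bool) false ih (p a)) l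

/-- map -/
def mapL (f : ℕ → ℕ) (l : List ℕ) : List ℕ :=
  List.rec (motive := fun _ => List ℕ) [] (fun a _ ih => List.cons (f a) ih) l

/-- `2^(40 m)` -/
def bp (m : ℕ) : ℕ := Nat.pow 2 (Nat.mul 40 m)

/-- drop `s` digits -/
def shf (x s : ℕ) : ℕ := Nat.shiftRight x (Nat.mul 40 s)

/-- the first `m` digits of `x`, then the digits of `y` -/
def cat (m x y : ℕ) : ℕ := Nat.add (Nat.mod x (bp m)) (Nat.mul (bp m) y)

/-- the number with `m` digits `1` -/
def rep (m : ℕ) : ℕ := Nat.div (Nat.sub (bp m) 1) 1099511627775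

/-- `x` for even `b`, `y` for odd `b` -/
def par (b x y : ℕ) : ℕ := Nat.rec (motive := fun _ => ℕ) x (fun _ _ => y) (Nat.mod b 2)

/-- one linear fact: values `lp - ln` at the sampler nodes of class 0, multipliers of the pairs:
`same` for pairs of one class, `diff` for mixed pairs (rows over the first node) -/
structure Fn where
  /-- positive part of the values -/
  lp : List ℕ
  /-- negative part of the values -/
  ln : List ℕ
  /-- rows of the multipliers, same class -/
  same : List ℕ
  /-- rows of the multipliers, different classes -/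
  diff : List ℕ

/-- the data of a certificate -/
structure Dat where
  /-- mesh -/
  N : ℕ
  /-- squares of the sampler nodes of class 0 -/
  sq : List (List ℕ)
  /-- label values of the sampler nodes of class 0: `[Ke0, Ko0, Kr0, Ke1, Ko1, Kr1, M, cc]` -/
  ke : List (List ℕ)
  /-- linear facts -/
  fn : List Fn
  /-- multipliers of the class fact -/
  n00 : List ℕ
  /-- multipliers of the class fact -/
  n01 : List ℕ
  /-- multipliers of the class fact -/
  n10 : List ℕ
  /-- multipliers of the class fact -/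
  n11 : List ℕ
  /-- bound -/
  Bd : ℕ

/-- weighted sum of the squares: `∑ q, digit b of p_q * p_q` -/
def qs (b : ℕ) (l : List ℕ) : ℕ := sumL (fun p => Nat.mul (dg p b) p) l

/-- sum of the squares -/
def ps (l : List ℕ) : ℕ := sumL (fun p => p) l

/-- length -/
def len (l : List ℕ) : ℕ := sumL (fun _ => 1) l

/-- modular difference -/
def md (m x y : ℕ) : ℕ := Nat.mod (Nat.add x (Nat.mul (Nat.sub (bp m) 1) y)) (bp m)

/-- the square part of the row `b`: `2 ∑ q, (d b - h) (d c - h) + off` -/
def sqrow (m b : ℕ) (l : List ℕ) (x y : ℕ) : ℕ :=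
  md m (Nat.add (Nat.add (Nat.mul 2 (qs b l))
      (Nat.mul (Nat.add 137438953472 (Nat.mul 536870912 (len l))) (rep m))) x)
    (Nat.add (Nat.mul 32768 (Nat.add (Nat.mul (dg (ps l) b) (rep m)) (ps l))) y)

/-- shift of the end point label rows of the first kind -/
def s1 (N b : ℕ) : ℕ := Nat.sub (Nat.div (Nat.succ N) 2) (Nat.div (Nat.succ b) 2)

/-- shift of the end point label rows of the second kind -/
def s2 (N b : ℕ) : ℕ := Nat.sub (Nat.mul 2 N) (Nat.mul 2 b)

/-- row `b` (class 0) of the sampler `z` (class 0), all nodes `c`, plus the offset `2^37` -/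
def R0 (d : Dat) (z b : ℕ) : ℕ :=
  sqrow (Nat.mul 2 (Nat.succ d.N)) b (nth [] d.sq z)
    (Nat.add (Nat.add (Nat.add
      (cat (Nat.succ d.N) (shf (par b (nth 0 (nth [] d.ke z) 0) (nth 0 (nth [] d.ke z) 1)) (s1 d.N b))
        (shf (par b (nth 0 (nth [] d.ke z) 0) (nth 0 (nth [] d.ke z) 1)) (s1 d.N b)))
      (cat (Nat.succ d.N) (shf (nth 0 (nth [] d.ke z) 2) (s2 d.N b))
        (shf (nth 0 (nth [] d.ke z) 5) (s2 d.N b))))
      (cat (Nat.succ d.N) (shf (nth 0 (nth [] d.ke z) 6) b) 0))
      (Nat.add (Nat.mul 2 (cat (Nat.succ d.N) (nth 0 d.n00 b) (nth 0 d.n01 b)))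
        (sumL (fun f : Fn => Nat.mul (nth 0 f.lp z)
          (cat (Nat.succ d.N) (nth 0 f.same b) (nth 0 f.diff b))) d.fn)))
    (Nat.add (Nat.mul (nth 0 (nth [] d.ke z) 7) (rep (Nat.mul 2 (Nat.succ d.N))))
      (Nat.add (cat (Nat.succ d.N) (nth 0 d.n11 b) (nth 0 d.n10 b))
        (sumL (fun f : Fn => Nat.mul (nth 0 f.ln z)
          (cat (Nat.succ d.N) (nth 0 f.same b) (nth 0 f.diff b))) d.fn)))

/-- row `b` (class 1) of the sampler `z` (class 0), nodes `c` of class 1 -/
def R1 (d : Dat) (z b : ℕ) : ℕ :=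
  sqrow (Nat.succ d.N) b (mapL (fun p => shf p (Nat.succ d.N)) (nth [] d.sq z))
    (Nat.add (Nat.add (Nat.add
      (shf (par b (nth 0 (nth [] d.ke z) 3) (nth 0 (nth [] d.ke z) 4)) (s1 d.N b))
      (shf (nth 0 (nth [] d.ke z) 5) (s2 d.N b)))
      (shf (nth 0 (nth [] d.ke z) 6) b))
      (Nat.add (Nat.mul 2 (nth 0 d.n11 b))
        (sumL (fun f : Fn => Nat.mul (nth 0 f.lp z) (nth 0 f.same b)) d.fn)))
    (Nat.add (Nat.mul (nth 0 (nth [] d.ke z) 7) (rep (Nat.succ d.N)))
      (Nat.add (nth 0 d.n00 b)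
        (sumL (fun f : Fn => Nat.mul (nth 0 f.ln z) (nth 0 f.same b)) d.fn)))

/-- the triples `{a, b, c}` for fixed `a`, `b` of class 0, `x` = sum of the two rows -/
def inner (d : Dat) (a b x bd : ℕ) : Bool :=
  allN (Nat.succ d.N) (fun c =>
    Bool.rec (motive := fun _ => Bool) false
      (Nat.ble (Nat.add (dg (R1 d c a) b) (dg x (Nat.add (Nat.succ d.N) c))) bd)
      (Nat.ble (Nat.add (dg (R0 d c a) b) (dg x c)) bd))

/-- all triples with a first pair of nodes `b ≤ a`, `lo ≤ a < hi`, of class 0 -/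
def mainCheck (d : Dat) (lo hi : ℕ) : Bool :=
  allN (Nat.sub hi lo) (fun a' => allN (Nat.succ (Nat.add lo a')) (fun b =>
    inner d (Nat.add lo a') b (Nat.add (R0 d (Nat.add lo a') b) (R0 d b (Nat.add lo a')))
      (Nat.add d.Bd 412316860416)))

end

end MP61673a.KC
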