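import Pool.Agent.Mu673.FE3

/-!
PRICE SUMS OF A ROW CERTIFICATE. Sum of the label prices over both outer thirds from the node
values, with jumps at the real cuts `kL`, `kR` (weights = exact integrals of the hats).
-/

set_option autoImplicit false

namespace MP61673a.FE

open Finset MP61673a.Kink MP61673a.Bary MP61673a.Sos MP61673a.Fin

noncomputable section

lemma Hc_step_le (x : ℝ) {r : ℝ} (hr : 0 ≤ r) : Hc x - Hc (x - r) ≤ r + r ^ 2 := by
  have h := hat_step (k := 0) (x := x) hr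
  have h1 : hat 0 x ≤ 1 := by
    unfold hat
    exact max_le zero_le_one (by linarith [abs_nonneg (x - ((0:ℤ):ℝ))])
  have h2 := mul_le_mul_of_nonneg_left h1 hr
  simp only [Int.cast_zero, sub_zero] at h
  linarith

lemma Hc_step_ge (x : ℝ) {r : ℝ} (hr : 0 ≤ r) : -r ^ 2 ≤ Hc x - Hc (x - r) := by
  have h0 := hat_nonneg 0 x
  rw [hat_eq_pos] at h0
  unfold Hc
  have h1 := (qp_step (y := x + 1) hr).2
  have h2 := (qp_step (y := x) hr).1
  have h3 := (qp_step (y := x - 1) hr).2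
  have e1 : x + 1 - r = x - r + 1 := by ring
  have e3 : x - 1 - r = x - r - 1 := by ring
  rw [e1] at h1
  rw [e3] at h3
  simp only [Int.cast_zero, sub_zero] at h0
  have h4 := mul_nonneg hr h0
  linarith

lemma Hc_near {x y r : ℝ} (h : |x - y| ≤ r) (hr : r ≤ 1) : |Hc x - Hc y| ≤ 2 * r := by
  have key : ∀ u v : ℝ, u ≤ v → v - u ≤ r → |Hc v - Hc u| ≤ 2 * r := by
    intro u v h1 h2
    have h0 : 0 ≤ v - u := by linarith
    have a := Hc_step_le v h0
    have b := Hc_step_ge v h0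
    have e : v - (v - u) = u := by ring
    rw [e] at a b
    have c : (v - u) ^ 2 ≤ v - u := by nlinarith
    rw [abs_le]
    constructor <;> linarith
  rcases le_total x y with c | c
  · rw [abs_of_nonpos (by linarith)] at h
    have := key x y c (by linarith)
    rw [abs_sub_comm] at this
    exact this
  · rw [abs_of_nonneg (by linarith)] at h
    exact key y x c h

lemma yc_succS {M : ℕ} {σ : ℝ} {D l : ℤ} : yc M σ D (l + 1) - M / D = yc M σ D l := by
  unfold yc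
  push_cast
  ring

/-- sum of a hat over an interval of labels -/
lemma hat_Icc {M : ℕ} {σ : ℝ} {D : ℤ} (hD : 0 < D) (hM : 0 < M) (a : ℤ) (k : ℤ) (n : ℕ) :
    (D:ℝ) / M * (Hc (yc M σ D (a + n) - k) - Hc (yc M σ D a - k)) - n * (M / D)
      ≤ ∑ i ∈ range n, hat k (yc M σ D (a + i + 1)) := by
  have hD' : (0:ℝ) < D := by exact_mod_cast hD
  have hM' : (0:ℝ) < M := by exact_mod_cast hM
  set r : ℝ := (M:ℝ) / D with hr
  have hr0 : 0 < r := by positivity
  have key : Hc (yc M σ D (a + n) - k) - Hc (yc M σ D a - k) - n * r ^ 2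
      ≤ r * ∑ i ∈ range n, hat k (yc M σ D (a + i + 1)) := by
    induction n with
    | zero => simp
    | succ n ih =>
      rw [sum_range_succ, mul_add]
      have h := hat_step (k := k) (x := yc M σ D (a + n + 1)) hr0.le
      rw [hr, yc_succS, ← hr] at h
      have e : a + ((n + 1 : ℕ) : ℤ) = a + n + 1 := by push_cast; ring
      rw [e]
      push_cast
      linarith
  have e1 : (D:ℝ) / M = 1 / r := by
    rw [hr]
    field_simp
  rw [e1]
  have e2 : 1 / r * (Hc (yc M σ D (a + n) - k) - Hc (yc M σ D a - k)) - n * r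
      = 1 / r * (Hc (yc M σ D (a + n) - k) - Hc (yc M σ D a - k) - n * r ^ 2) := by
    field_simp
  rw [e2]
  calc 1 / r * (Hc (yc M σ D (a + n) - k) - Hc (yc M σ D a - k) - n * r ^ 2)
      ≤ 1 / r * (r * ∑ i ∈ range n, hat k (yc M σ D (a + i + 1))) :=
        mul_le_mul_of_nonneg_left key (by positivity)
    _ = _ := by field_simp

lemma sum_Ioc_range (f : ℤ → ℝ) {a b : ℤ} (h : a ≤ b) :
    ∑ l ∈ Ioc a b, f l = ∑ i ∈ range (b - a).toNat, f (a + i + 1) := by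
  symm
  refine sum_bij' (fun i _ => a + (i:ℤ) + 1) (fun l _ => (l - a - 1).toNat) ?_ ?_ ?_ ?_ ?_
  · intro i hi
    rw [mem_range] at hi
    rw [mem_Ioc]
    omega
  · intro l hl
    rw [mem_Ioc] at hl
    rw [mem_range]
    omega
  · intro i hi
    simp
    omega
  · intro l hl
    rw [mem_Ioc] at hl
    omega
  · intro i _
    rfl

/-- SUM OF A PIECEWISE LINEAR FUNCTION over `a < l ≤ b`; `A`, `B` = approximate end points -/
theorem seg_ge {M : ℕ} {σ : ℝ} {D : ℤ} (hD : 0 < D) (hM : 0 < M) {a b : ℤ} (hab : a ≤ b)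
    {f : ℤ → ℝ} (hf : ∀ k, 0 ≤ f k) {I : Finset ℤ}
    (hI : ∀ l, a < l → l ≤ b → Near I (yc M σ D l)) {A B r : ℝ}
    (hA : |yc M σ D a - A| ≤ r) (hB : |yc M σ D b - B| ≤ r) (hr : r ≤ 1) :
    (D:ℝ) / M * ∑ k ∈ I, f k * (Hc (B - k) - Hc (A - k))
        - (4 * r * (D / M) + (b - a) * (M / D)) * ∑ k ∈ I, f k
      ≤ ∑ l ∈ Ioc a b, pl f (yc M σ D l) := by
  have hD' : (0:ℝ) < D := by exact_mod_cast hD
  have hM' : (0:ℝ) < M := by exact_mod_cast hM
  have e1 : ∑ l ∈ Ioc a b, pl f (yc M σ D l)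
      = ∑ k ∈ I, f k * ∑ l ∈ Ioc a b, hat k (yc M σ D l) := by
    have : ∀ l ∈ Ioc a b, pl f (yc M σ D l) = ∑ k ∈ I, hat k (yc M σ D l) * f k := by
      intro l hl
      rw [mem_Ioc] at hl
      exact pl_eq_sum (hI l hl.1 hl.2) f
    rw [sum_congr rfl this, sum_comm]
    refine sum_congr rfl fun k _ => ?_
    rw [mul_sum]
    exact sum_congr rfl fun s _ => mul_comm _ _
  rw [e1, mul_sum, mul_sum, ← sum_sub_distrib]
  refine sum_le_sum fun k _ => ?_
  have h := hat_Icc (σ := σ) hD hM a k (b - a).toNat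
  have en : (((b - a).toNat : ℕ) : ℤ) = b - a := Int.toNat_of_nonneg (by omega)
  rw [← sum_Ioc_range (fun l => hat k (yc M σ D l)) hab, en] at h
  have en' : (((b - a).toNat : ℕ) : ℝ) = b - a := by exact_mod_cast en
  rw [en', show a + (b - a) = b by ring] at h
  have h1 := Hc_near (x := yc M σ D b - k) (y := B - k) (by
    rw [show yc M σ D b - (k:ℝ) - (B - k) = yc M σ D b - B by ring]
    exact hB) hr
  have h2 := Hc_near (x := yc M σ D a - k) (y := A - k) (by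
    rw [show yc M σ D a - (k:ℝ) - (A - k) = yc M σ D a - A by ring]
    exact hA) hr
  have h1' := abs_le.1 h1
  have h2' := abs_le.1 h2
  have h3 : (D:ℝ) / M * (Hc (B - k) - Hc (A - k)) - (4 * r * (D / M) + (b - a) * (M / D))
      ≤ ∑ l ∈ Ioc a b, hat k (yc M σ D l) := by
    refine le_trans ?_ h
    have h4 : Hc (B - k) - Hc (A - k) - 4 * r
        ≤ Hc (yc M σ D b - k) - Hc (yc M σ D a - k) := by linarith [h1'.1, h2'.2]
    have h5 := mul_le_mul_of_nonneg_left h4 (by positivity : 0 ≤ (D:ℝ) / M)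
    linarith
  have h6 := mul_le_mul_of_nonneg_left h3 (hf k)
  refine le_trans (le_of_eq ?_) h6
  ring

/-- weights of the node values in the price sum, zones `0`, `1`, `2` -/
def wz (M : ℕ) (σ kL kR : ℝ) (i : Fin 3) (k : ℤ) : ℝ :=
  if i = 0 then Hc (kL - k) - Hc (-M - σ - k)
  else if i = 1 then (Hc (-σ - k) - Hc (kL - k)) + (Hc (kR - k) - Hc (M - σ - k))
  else Hc (2 * M - σ - k) - Hc (kR - k)

/-- nodes of the labels -/
def Iz (M : ℕ) : Finset ℤ := Icc (-M - 2) (2 * M + 2)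

variable {C : Type} {M : ℕ} {σ δ : ℝ} {D K ρ : ℤ} {kL kR : ℝ}

/-- price sum of the node values -/
def bzS (M : ℕ) (σ kL kR : ℝ) (g : Fin 3 → ℤ → ℝ) : ℝ :=
  ∑ i : Fin 3, ∑ k ∈ Iz M, g i k * wz M σ kL kR i k

namespace GrdD

variable (G : GrdD C M σ δ D K ρ kL kR)

/-- PRICE SUM of one sampler node; `e`, `e'` = types of the labels (arbitrary) -/
theorem price_sum (G : GrdD C M σ δ D K ρ kL kR) (hM : 0 < M) (hσ0 : 0 ≤ σ) (hσ1 : σ ≤ 1)
    (hρ0 : 0 ≤ ρ) (hρ1 : ρ < D) (hδ : 0 ≤ δ) (hr : δ + M / D ≤ 1)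
    {g : Fin 3 → C × ℤ → Bool → ℤ → ℝ} {g0 : Fin 3 → C × ℤ → ℤ → ℝ}
    (hg0 : ∀ i ζ k, 0 ≤ g0 i ζ k) (hg : ∀ i ζ e k, g0 i ζ k ≤ g i ζ e k) (ζ : C × ℤ)
    (e e' : ℤ → Bool) :
    (D:ℝ) / M * bzS M σ kL kR (fun i => g0 i ζ)
        - (4 * (D * δ / M + 1) + M) * (2 * ∑ i : Fin 3, ∑ k ∈ Iz M, g0 i ζ k)
      ≤ ∑ s ∈ Ico 0 D, (gz M σ D ρ g ζ (e s) (2 * D - s) + gz M σ D ρ g ζ (e' s) (s - D)) := by
  have hD := G.hD0
  have hD' : (0:ℝ) < D := by exact_mod_cast hD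
  have hM' : (0:ℝ) < M := by exact_mod_cast hM
  have hMD : (0:ℝ) < (M:ℝ) / D := by positivity
  -- lower bound by the untyped prices
  have low : ∀ (b : Bool) (l : ℤ), pl (g0 (zn D ρ l) ζ) (yc M σ D l) ≤ gz M σ D ρ g ζ b l :=
    fun b l => pl_mono (fun k => hg _ _ _ _) _
  have s1 : ∑ s ∈ Ico 0 D, (pl (g0 (zn D ρ (2 * D - s)) ζ) (yc M σ D (2 * D - s))
        + pl (g0 (zn D ρ (s - D)) ζ) (yc M σ D (s - D)))
      ≤ ∑ s ∈ Ico 0 D, (gz M σ D ρ g ζ (e s) (2 * D - s) + gz M σ D ρ g ζ (e' s) (s - D)) :=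
    sum_le_sum fun s _ => add_le_add (low _ _) (low _ _)
  refine le_trans ?_ s1
  rw [sum_add_distrib]
  set F : ℤ → ℝ := fun l => pl (g0 (zn D ρ l) ζ) (yc M σ D l) with hF
  have eR : ∑ s ∈ Ico 0 D, pl (g0 (zn D ρ (2 * D - s)) ζ) (yc M σ D (2 * D - s))
      = ∑ l ∈ Ioc D (2 * D), F l := by
    refine sum_bij' (fun s _ => 2 * D - s) (fun l _ => 2 * D - l) ?_ ?_ ?_ ?_ ?_
    · intro s hs
      rw [mem_Ico] at hs
      rw [mem_Ioc]
      omega
    · intro l hl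
      rw [mem_Ioc] at hl
      rw [mem_Ico]
      omega
    · intro s _
      ring
    · intro l _
      ring
    · intro s _
      rfl
  have eL : ∑ s ∈ Ico 0 D, pl (g0 (zn D ρ (s - D)) ζ) (yc M σ D (s - D))
      = ∑ l ∈ Ioc (-D - 1) (-1), F l := by
    refine sum_bij' (fun s _ => s - D) (fun l _ => l + D) ?_ ?_ ?_ ?_ ?_
    · intro s hs
      rw [mem_Ico] at hs
      rw [mem_Ioc]
      omega
    · intro l hl
      rw [mem_Ioc] at hl
      rw [mem_Ico]
      omega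
    · intro s _
      ring
    · intro l _
      ring
    · intro s _
      rfl
  rw [eR, eL]
  have split : ∀ a b c : ℤ, a ≤ b → b ≤ c →
      ∑ l ∈ Ioc a c, F l = ∑ l ∈ Ioc a b, F l + ∑ l ∈ Ioc b c, F l := by
    intro a b c h1 h2
    rw [← Ioc_union_Ioc_eq_Ioc h1 h2, sum_union]
    rw [disjoint_left]
    intro x hx hy
    rw [mem_Ioc] at hx hy
    omega
  rw [split D (D + ρ) (2 * D) (by omega) (by omega),
    split (-D - 1) (-1 - ρ) (-1) (by omega) (by omega)]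
  have z0 : ∑ l ∈ Ioc (-D - 1) (-1 - ρ), F l
      = ∑ l ∈ Ioc (-D - 1) (-1 - ρ), pl (g0 0 ζ) (yc M σ D l) := by
    refine sum_congr rfl fun l hl => ?_
    rw [mem_Ioc] at hl
    simp only [hF]
    unfold zn
    rw [if_pos hl.2]
  have z1 : ∑ l ∈ Ioc (-1 - ρ) (-1), F l
      = ∑ l ∈ Ioc (-1 - ρ) (-1), pl (g0 1 ζ) (yc M σ D l) := by
    refine sum_congr rfl fun l hl => ?_
    rw [mem_Ioc] at hl
    simp only [hF]
    unfold zn
    rw [if_neg (by omega), if_pos (by omega)]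
  have z1' : ∑ l ∈ Ioc D (D + ρ), F l
      = ∑ l ∈ Ioc D (D + ρ), pl (g0 1 ζ) (yc M σ D l) := by
    refine sum_congr rfl fun l hl => ?_
    rw [mem_Ioc] at hl
    simp only [hF]
    unfold zn
    rw [if_neg (by omega), if_pos (by omega)]
  have z2 : ∑ l ∈ Ioc (D + ρ) (2 * D), F l
      = ∑ l ∈ Ioc (D + ρ) (2 * D), pl (g0 2 ζ) (yc M σ D l) := by
    refine sum_congr rfl fun l hl => ?_
    rw [mem_Ioc] at hl
    simp only [hF]
    unfold zn
    rw [if_neg (by omega), if_neg (by omega)]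
  rw [z0, z1, z1', z2]
  -- nodes
  have near : ∀ l : ℤ, -D - 1 < l → l ≤ 2 * D → Near (Iz M) (yc M σ D l) := by
    intro l h1 h2
    apply near_Icc
    · have h1' : -(D:ℝ) ≤ l := by exact_mod_cast (by omega : -D ≤ l)
      have : (M:ℝ) * (-(D:ℝ)) / D ≤ M * l / D :=
        div_le_div_of_nonneg_right (mul_le_mul_of_nonneg_left h1' hM'.le) hD'.le
      have e3 : (M:ℝ) * (-(D:ℝ)) / D = -M := by field_simp
      rw [e3] at this
      unfold yc
      push_cast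
      linarith
    · have h2' : (l:ℝ) ≤ 2 * D := by exact_mod_cast h2
      have : (M:ℝ) * l / D ≤ M * (2 * D) / D :=
        div_le_div_of_nonneg_right (mul_le_mul_of_nonneg_left h2' hM'.le) hD'.le
      have e3 : (M:ℝ) * (2 * D) / D = 2 * M := by field_simp
      rw [e3] at this
      unfold yc
      push_cast
      linarith
  -- end points
  have p0 : |yc M σ D (-D - 1) - (-M - σ)| ≤ δ + M / D := by
    have : yc M σ D (-D - 1) - (-M - σ) = -((M:ℝ) / D) := by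
      unfold yc
      push_cast
      field_simp
      ring
    rw [this, abs_neg, abs_of_nonneg hMD.le]
    linarith
  have p1 : |yc M σ D (-1 - ρ) - kL| ≤ δ + M / D := by
    have a := G.z0
    have b := G.z1
    have c : yc M σ D (-ρ) = yc M σ D (-1 - ρ) + M / D := by
      unfold yc
      push_cast
      ring
    rw [abs_le]
    constructor <;> linarith
  have p2 : |yc M σ D (-1) - (-σ)| ≤ δ + M / D := by
    have : yc M σ D (-1) - (-σ) = -((M:ℝ) / D) := by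
      unfold yc
      push_cast
      ring
    rw [this, abs_neg, abs_of_nonneg hMD.le]
    linarith
  have p3 : |yc M σ D D - (M - σ)| ≤ δ + M / D := by
    have : yc M σ D D - (M - σ) = 0 := by
      unfold yc
      field_simp
      ring
    rw [this, abs_zero]
    linarith
  have p4 : |yc M σ D (D + ρ) - kR| ≤ δ + M / D := by
    have a := G.z1'
    have b := G.z2
    have c : yc M σ D (D + ρ + 1) = yc M σ D (D + ρ) + M / D := by
      unfold yc
      push_cast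
      ring
    rw [abs_le]
    constructor <;> linarith
  have p5 : |yc M σ D (2 * D) - (2 * M - σ)| ≤ δ + M / D := by
    have : yc M σ D (2 * D) - (2 * M - σ) = 0 := by
      unfold yc
      push_cast
      field_simp
      ring
    rw [this, abs_zero]
    linarith
  have q0 := seg_ge hD hM (a := -D - 1) (b := -1 - ρ) (by omega) (hg0 0 ζ)
    (fun l h1 h2 => near l h1 (by omega)) p0 p1 hr
  have q1 := seg_ge hD hM (a := -1 - ρ) (b := -1) (by omega) (hg0 1 ζ)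
    (fun l h1 h2 => near l (by omega) (by omega)) p1 p2 hr
  have q2 := seg_ge hD hM (a := D) (b := D + ρ) (by omega) (hg0 1 ζ)
    (fun l h1 h2 => near l (by omega) (by omega)) p3 p4 hr
  have q3 := seg_ge hD hM (a := D + ρ) (b := 2 * D) (by omega) (hg0 2 ζ)
    (fun l h1 h2 => near l (by omega) h2) p4 p5 hr
  -- total
  have G0 : 0 ≤ ∑ k ∈ Iz M, g0 0 ζ k := sum_nonneg fun k _ => hg0 0 ζ k
  have G1 : 0 ≤ ∑ k ∈ Iz M, g0 1 ζ k := sum_nonneg fun k _ => hg0 1 ζ k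
  have G2 : 0 ≤ ∑ k ∈ Iz M, g0 2 ζ k := sum_nonneg fun k _ => hg0 2 ζ k
  have er : (δ + M / D) * ((D:ℝ) / M) = D * δ / M + 1 := by field_simp
  have cf : ∀ {a b : ℤ}, (b:ℝ) - a ≤ D →
      4 * (δ + M / D) * ((D:ℝ) / M) + (b - a) * (M / D) ≤ 4 * (D * δ / M + 1) + M := by
    intro a b h
    have h1 : ((b:ℝ) - a) * (M / D) ≤ D * (M / D) := mul_le_mul_of_nonneg_right h hMD.le
    have h2 : (D:ℝ) * (M / D) = M := by field_simp
    rw [mul_assoc, er]
    linarith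
  have hρ0' : (0:ℝ) ≤ ρ := by exact_mod_cast hρ0
  have hρ1' : (ρ:ℝ) ≤ D := by exact_mod_cast hρ1.le
  have c0 := mul_le_mul_of_nonneg_right (cf (a := -D - 1) (b := -1 - ρ) (by
    push_cast
    linarith)) G0
  have c1 := mul_le_mul_of_nonneg_right (cf (a := -1 - ρ) (b := -1) (by
    push_cast
    linarith)) G1
  have c2 := mul_le_mul_of_nonneg_right (cf (a := D) (b := D + ρ) (by
    push_cast
    linarith)) G1
  have c3 := mul_le_mul_of_nonneg_right (cf (a := D + ρ) (b := 2 * D) (by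
    push_cast
    linarith)) G2
  have eb : bzS M σ kL kR (fun i => g0 i ζ)
      = ∑ k ∈ Iz M, g0 0 ζ k * (Hc (kL - k) - Hc (-M - σ - k))
        + (∑ k ∈ Iz M, g0 1 ζ k * (Hc (-σ - k) - Hc (kL - k))
          + ∑ k ∈ Iz M, g0 1 ζ k * (Hc (kR - k) - Hc (M - σ - k)))
        + ∑ k ∈ Iz M, g0 2 ζ k * (Hc (2 * M - σ - k) - Hc (kR - k)) := by
    have e4 : ∑ k ∈ Iz M, g0 1 ζ k * ((Hc (-σ - k) - Hc (kL - k))
          + (Hc (kR - k) - Hc (M - σ - k)))
        = ∑ k ∈ Iz M, g0 1 ζ k * (Hc (-σ - k) - Hc (kL - k))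
          + ∑ k ∈ Iz M, g0 1 ζ k * (Hc (kR - k) - Hc (M - σ - k)) := by
      rw [← sum_add_distrib]
      exact sum_congr rfl fun k _ => by ring
    unfold bzS wz
    rw [Fin.sum_univ_three, ← e4]
    rfl
  rw [eb, Fin.sum_univ_three]
  have hc0 : 0 ≤ 4 * (D * δ / M + 1) + (M:ℝ) := by positivity
  have d0 := mul_nonneg hc0 G0
  have d2 := mul_nonneg hc0 G2
  linarith

/-- the price sum of the row, hypotheses `hB` of `row3tc` and of `onep_net` -/
theorem price_row (G : GrdD C M σ δ D K ρ kL kR) (hM : 0 < M) (hσ0 : 0 ≤ σ) (hσ1 : σ ≤ 1)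
    (hρ0 : 0 ≤ ρ) (hρ1 : ρ < D) (hδ : 0 ≤ δ) (hr : δ + M / D ≤ 1)
    {g : Fin 3 → C × ℤ → Bool → ℤ → ℝ} {g0 : Fin 3 → C × ℤ → ℤ → ℝ}
    (hg0 : ∀ i ζ k, 0 ≤ g0 i ζ k) (hg : ∀ i ζ e k, g0 i ζ k ≤ g i ζ e k)
    {Bn : C × ℤ → ℝ}
    (hBn : ∀ ζ, ζ.2 ∈ nd G.lo G.hi ζ.1 → Bn ζ ≤ bzS M σ kL kR (fun i => g0 i ζ)) {cB : ℝ}
    (hcB : ∀ ζ, (4 * (D * δ / M + 1) + M) * (2 * ∑ i : Fin 3, ∑ k ∈ Iz M, g0 i ζ k) ≤ cB)
    (lR lL : ℤ → Bool) {x : P4} (hx : G.ok x) :
    (D:ℝ) / M * kX G.lo G.hi Bn (G.pt x) - cB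
      ≤ ∑ s ∈ Ico 0 D, (G.gR g x (lR s) s + G.gL g x (lL s) s) := by
  have hD' : (0:ℝ) < D := by exact_mod_cast G.hD0
  have hM' : (0:ℝ) < M := by exact_mod_cast hM
  have e1 : ∑ s ∈ Ico 0 D, (G.gR g x (lR s) s + G.gL g x (lL s) s)
      = kX G.lo G.hi (fun ζ => ∑ s ∈ Ico 0 D, (gz M σ D ρ g ζ (lR s) (2 * D - s)
          + gz M σ D ρ g ζ (lL s) (s - D))) (G.pt x) := by
    have e3 : ∀ s ∈ Ico 0 D, G.gR g x (lR s) s + G.gL g x (lL s) s
        = ∑ i ∈ nd G.lo G.hi (G.pt x).1, hat i (G.pt x).2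
          * (gz M σ D ρ g ((G.pt x).1, i) (lR s) (2 * D - s)
            + gz M σ D ρ g ((G.pt x).1, i) (lL s) (s - D)) := by
      intro s _
      unfold gR gL kX
      rw [← sum_add_distrib]
      exact sum_congr rfl fun i _ => by ring
    rw [sum_congr rfl e3, sum_comm]
    unfold kX
    refine sum_congr rfl fun i _ => ?_
    rw [mul_sum]
  have e2 : (D:ℝ) / M * kX G.lo G.hi Bn (G.pt x) - cB
      = kX G.lo G.hi (fun ζ => (D:ℝ) / M * Bn ζ + -cB) (G.pt x) := by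
    rw [kX_add, kX_smul, kX_const (G.regX hx)]
    ring
  rw [e1, e2]
  refine G.kX_le x fun ζ hζ => ?_
  refine le_trans ?_ (G.price_sum hM hσ0 hσ1 hρ0 hρ1 hδ hr hg0 hg ζ lR lL)
  have h1 := mul_le_mul_of_nonneg_left (hBn ζ hζ) (by positivity : 0 ≤ (D:ℝ) / M)
  have h2 := hcB ζ
  linarith

end GrdD

end

end MP61673a.FE
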