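import Pool.Agent.Mu673.Classes
import Pool.Agent.Mu673.Sums
import Pool.Agent.Mu673.CellT
import Pool.Agent.Mu673.KCdef

/-!
INTEGER CHECK OF THE ONE-BODY PART of a row certificate: node constants, price sums; the row theorem
with an approximate sign condition.
-/

set_option autoImplicit false

namespace MP61673a.Fin

open Finset MP61673a.W MP61673a.LiftW MP61673a.Mids MP61673a.Sos
open MP61673a.Lift hiding PP QQ

noncomputable section

variable {P Q : WS} {cl : P.ι ⊕ Q.ι → Bool} {lR lL : ℤ → Bool}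

lemma EnvS.mass_le {K0 : ℤ} {f : ℝ} {D K ρ V E N : ℤ} {ξR ξL : ℤ → ℝ}
    (h : EnvS K0 f P Q D K ρ V E N ξR ξL) : mass P + mass Q ≤ K := by
  have h1 := h.sq_le
  have hK : (10000:ℝ) ≤ K := by exact_mod_cast h.hK1
  have hD : (D:ℝ) = 4 * K + 1 := by exact_mod_cast h.hD
  by_contra hc
  push Not at hc
  have h2 : (K:ℝ) * K ≤ (mass P + mass Q) ^ 2 := by nlinarith
  rw [hD] at h1
  nlinarith

/-- TYPED CELL ROW, the one-body part may be slightly negative -/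
theorem row3tn {K0 : ℤ} {f : ℝ} {D K ρ V E N : ℤ} {ξR ξL : ℤ → ℝ}
    (h : EnvS K0 f P Q D K ρ V E N ξR ξL) (ht : Typ P Q D E cl lR lL) {lo t0 t t1 : ℤ}
    (hNt : nearE D < t) (h0 : t0 ≤ t) (h1 : t ≤ t1)
    {n1 : P3 → ℝ} {n3 : P3 → P3 → P3 → ℝ} {C1 : ℝ}
    (hnet : T1 P Q n1 + T3 P Q n3 - C1 * K ≤ netE P Q deeper D K (K - ρ) ρ ρ V E lo t)
    {γR γL : P4 → Bool → ℤ → ℝ} {hR mR hL mL : P4 → ℤ → ℝ}
    (pR : ∀ x : P4, InR D K x.2 → ∀ e s, 0 ≤ s → s < D → 0 ≤ γR x e s)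
    (pL : ∀ x : P4, InR D K x.2 → ∀ e s, 0 ≤ s → s < D → 0 ≤ γL x e s)
    (qR : ∀ x : P4, InR D K x.2 → ∀ e s, 0 ≤ s → s < D → γR x e s ≤ hR x s)
    (qL : ∀ x : P4, InR D K x.2 → ∀ e s, 0 ≤ s → s < D → γL x e s ≤ hL x s)
    (jR : ∀ x : P4, InR D K x.2 → Maj D E (hR x) (mR x))
    (jL : ∀ x : P4, InR D K x.2 → Maj D E (hL x) (mL x))
    {B : P4 → ℝ} (hB : ∀ x : P4, InR D K x.2 →
      B x ≤ ∑ s ∈ Ico 0 D, (γR x (lR s) s + γL x (lL s) s))
    {ν : P4 → P4 → ℝ} (hν : ∀ x y, 0 ≤ ν x y)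
    {σ : Bool → P4 → P4 → ℝ} (hσ : ∀ b x y, 0 ≤ σ b x y)
    {o : P4 → ℝ} {o0 : ℝ} (ho : ∀ x : P4, InR D K x.2 → 0 ≤ o x)
    (ho1 : ∀ x : P4, InR D K x.2 → o x ≤ o0) (ho0 : 0 ≤ o0)
    {dk : P3 → P3 → P3 → ℝ} (hdk : dchE P Q deeper D ρ V E t ≤ T3 P Q dk)
    {X1 : P4 → ℝ} {X3 : P4 → P4 → P4 → ℝ} {C0 : ℝ}
    (hX : -(C0 * K) ≤ U1 P Q cl X1 + U3 P Q cl X3) {e0 : ℝ} (he0 : 0 ≤ e0)
    (hm : ∀ x : P4, InR D K x.2 → -e0 ≤ m1tc K ρ E t0 t1 n1 B X1 x)
    {κ : Type} (I : Finset κ) (s : κ → P4 → P4 → ℝ) {c : ℝ} (hc : 0 ≤ c)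
    (hpt : ∀ x y z : P4, InR D K x.2 → InR D K y.2 → InR D K z.2 →
      2 * sq3 I s x y z ≤ sym6 (fun x y z => m1tc K ρ E t0 t1 n1 B X1 x / (3 * D + 11)
        + m3t K f n3 γR mR γL mL ν σ o dk X3 x y z) x y z + c / K)
    {C : ℝ} (hC : 3 * c + 143 * o0 + C0 + C1 + e0 ≤ C) :
    deepD P Q D K ρ V E (nearE D) (kapE K ρ) t - C * K
      ≤ netE P Q deeper D K (K - ρ) ρ ρ V E lo t := by
  have hDK := h.hD
  have hK1 := h.hK1
  have hD0 : (0:ℝ) < 3 * D + 11 := by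
    have : (0:ℤ) < 3 * D + 11 := by omega
    exact_mod_cast this
  have e : ∀ x : P4, m1tc K ρ E t0 t1 n1 B (fun x => X1 x - e0) x
      = m1tc K ρ E t0 t1 n1 B X1 x + e0 := by
    intro x
    unfold m1tc
    ring
  refine row3tc h ht hNt h0 h1 hnet pR pL qR qL jR jL hB hν hσ ho ho1 ho0 hdk
    (X1 := fun x => X1 x - e0) (X3 := X3) (C0 := C0 + e0) ?_ (fun x hx => ?_) I s hc
    (fun x y z hx hy hz => ?_) (by linarith)
  · rw [U1_sub, U1_const]
    have := mul_le_mul_of_nonneg_left h.mass_le he0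
    linarith
  · rw [e]
    have := hm x hx
    linarith
  · refine (hpt x y z hx hy hz).trans ?_
    have e2 : ∀ x : P4, m1tc K ρ E t0 t1 n1 B X1 x / (3 * D + 11)
        ≤ m1tc K ρ E t0 t1 n1 B (fun x => X1 x - e0) x / (3 * D + 11) := by
      intro x
      rw [e]
      exact div_le_div_of_nonneg_right (by linarith) hD0.le
    have a1 := e2 x
    have a2 := e2 y
    have a3 := e2 z
    unfold sym6
    linarith

end

end MP61673a.Fin

namespace MP61673a.FE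

open Finset MP61673a.Kink MP61673a.Bary MP61673a.Sos MP61673a.Fin MP61673a.KC

/-! ### Primitive of the hat in integers -/

/-- `12800 * Hc ((x - 80) / 80)` -/
def HcN (x : ℕ) : ℕ :=
  if x ≤ 80 then x * x else 12800 - (160 - x) * (160 - x)

lemma HcN_mono {x y : ℕ} (h : x ≤ y) : HcN x ≤ HcN y := by
  unfold HcN
  by_cases hx : x ≤ 80
  · rw [if_pos hx]
    by_cases hy : y ≤ 80
    · rw [if_pos hy]
      exact Nat.mul_le_mul h h
    · rw [if_neg hy]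
      have h1 : x * x ≤ 80 * 80 := Nat.mul_le_mul hx hx
      have h2 : (160 - y) * (160 - y) ≤ 80 * 80 := Nat.mul_le_mul (by omega) (by omega)
      omega
  · rw [if_neg hx, if_neg (by omega)]
    have h1 : (160 - y) * (160 - y) ≤ (160 - x) * (160 - x) :=
      Nat.mul_le_mul (by omega) (by omega)
    omega

lemma HcN_cast (x : ℤ) : ((HcN x.toNat : ℕ) : ℝ) = 12800 * Hc (((x:ℝ) - 80) / 80) := by
  unfold HcN Hc qp
  rcases le_or_gt x 0 with h0 | h0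
  · have hr : (x:ℝ) ≤ 0 := by exact_mod_cast h0
    have e : x.toNat = 0 := by omega
    rw [e, if_pos (by norm_num), max_eq_left (by linarith), max_eq_left (by linarith),
      max_eq_left (by linarith)]
    norm_num
  · have hr : (0:ℝ) < x := by exact_mod_cast h0
    obtain ⟨n, hn⟩ := Int.eq_ofNat_of_zero_le h0.le
    have e : x.toNat = n := by omega
    have en : (x:ℝ) = n := by rw [hn]; simp
    rw [e, en] at *
    by_cases h1 : n ≤ 80
    · have h1' : (n:ℝ) ≤ 80 := by exact_mod_cast h1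
      rw [if_pos h1, max_eq_right (by linarith), max_eq_left (by linarith),
        max_eq_left (by linarith)]
      push_cast
      ring
    · have h1' : (80:ℝ) < n := by exact_mod_cast (by omega : 80 < n)
      rw [if_neg h1]
      by_cases h2 : n ≤ 160
      · have h2' : (n:ℝ) ≤ 160 := by exact_mod_cast h2
        have h3 : (160 - n) * (160 - n) ≤ 80 * 80 := Nat.mul_le_mul (by omega) (by omega)
        rw [Nat.cast_sub (by omega), max_eq_right (by linarith), max_eq_right (by linarith),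
          max_eq_left (by linarith), Nat.cast_mul, Nat.cast_sub h2]
        push_cast
        ring
      · have h2' : (160:ℝ) < n := by exact_mod_cast (by omega : 160 < n)
        have h3 : 160 - n = 0 := by omega
        rw [h3, max_eq_right (by linarith), max_eq_right (by linarith),
          max_eq_right (by linarith)]
        norm_num
        ring

/-- integer weights of the node values in the price sum (units `1/12800`), node `j - M - 2` -/
def wN (M s2 i j : ℕ) : ℕ :=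
  if i = 0 then HcN (78 * M + 240 - 40 * s2 - 80 * j) - HcN (240 - 40 * s2 - 80 * j)
  else if i = 1 then
    (HcN (80 * M + 240 - 40 * s2 - 80 * j) - HcN (78 * M + 240 - 40 * s2 - 80 * j))
      + (HcN (162 * M + 240 - 40 * s2 - 80 * j) - HcN (160 * M + 240 - 40 * s2 - 80 * j))
  else HcN (240 * M + 240 - 40 * s2 - 80 * j) - HcN (162 * M + 240 - 40 * s2 - 80 * j)

lemma HcN_at (A s2 j : ℕ) (_hs : s2 ≤ 2) (y : ℝ)
    (hy : 80 * y = (A:ℝ) + 160 - 40 * s2 - 80 * j) :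
    ((HcN (A + 240 - 40 * s2 - 80 * j) : ℕ) : ℝ) = 12800 * Hc y := by
  have e : A + 240 - 40 * s2 - 80 * j = ((A:ℤ) + 240 - 40 * s2 - 80 * j).toNat := by omega
  rw [e, HcN_cast]
  congr 2
  push_cast
  rw [div_eq_iff (by norm_num)]
  linarith

lemma wN_cast {M s2 : ℕ} (hs : s2 ≤ 2) (i : Fin 3) (j : ℕ) :
    ((wN M s2 i j : ℕ) : ℝ)
      = 12800 * wz M ((s2:ℝ) / 2) (cutL M ((s2:ℝ) / 2)) (cutR M ((s2:ℝ) / 2)) i
        ((j:ℤ) - M - 2) := by
  have q : ∀ {a b : ℕ}, b ≤ a → ((HcN a - HcN b : ℕ) : ℝ) = HcN a - HcN b := fun h =>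
    Nat.cast_sub (HcN_mono h)
  have e0 : 240 - 40 * s2 - 80 * j = 0 + 240 - 40 * s2 - 80 * j := by omega
  unfold wN wz cutL cutR
  fin_cases i
  · simp only [Fin.zero_eta, if_true]
    rw [q (by omega), e0]
    rw [HcN_at (78 * M) s2 j hs (-((M:ℝ) / 40) - s2 / 2 - ((j:ℤ) - M - 2 : ℤ))
      (by push_cast; ring)]
    rw [HcN_at 0 s2 j hs (-(M:ℝ) - s2 / 2 - ((j:ℤ) - M - 2 : ℤ)) (by push_cast; ring)]
    ring
  · simp only [Fin.mk_one, one_ne_zero, if_false, if_true]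
    rw [Nat.cast_add, q (by omega), q (by omega)]
    rw [HcN_at (80 * M) s2 j hs (-((s2:ℝ) / 2) - ((j:ℤ) - M - 2 : ℤ)) (by push_cast; ring)]
    rw [HcN_at (78 * M) s2 j hs (-((M:ℝ) / 40) - s2 / 2 - ((j:ℤ) - M - 2 : ℤ))
      (by push_cast; ring)]
    rw [HcN_at (162 * M) s2 j hs ((M:ℝ) + M / 40 - s2 / 2 - ((j:ℤ) - M - 2 : ℤ))
      (by push_cast; ring)]
    rw [HcN_at (160 * M) s2 j hs ((M:ℝ) - s2 / 2 - ((j:ℤ) - M - 2 : ℤ)) (by push_cast; ring)]
    simp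
    ring
  · simp
    rw [q (by omega)]
    rw [HcN_at (240 * M) s2 j hs (2 * (M:ℝ) - s2 / 2 - ((j:ℤ) - M - 2 : ℤ))
      (by push_cast; ring)]
    rw [HcN_at (162 * M) s2 j hs ((M:ℝ) + M / 40 - s2 / 2 - ((j:ℤ) - M - 2 : ℤ))
      (by push_cast; ring)]
    push_cast
    ring


/-! ### Node values of the net in integers -/

/-- truncated price in integer units -/
def kzN (A B T i : ℤ) : ℤ :=
  if T < A * i + B ∧ A * i + B < T + |A| then A * i + B else max 0 (min T (A * i + B))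

lemma kzN_cast {S ε T α β : ℚ} {A B Tn : ℤ} (hS : 0 < S) (hT : T * S = Tn)
    (hA : α * S = 2 * A) (hB : (β - ε) * S = 2 * B) (i : ℤ) :
    kapXQ ε T α β i * S = kzN A B Tn i := by
  have hr : (α * i + β - ε) / 2 * S = A * i + B := by linear_combination (i / 2 : ℚ) * hA + hB / 2
  have ha : |α| * S = 2 * |(A:ℚ)| := by
    have h1 : |α * S| = |2 * (A:ℚ)| := by rw [hA]
    rw [abs_mul, abs_mul, abs_of_pos hS] at h1
    rw [h1]
    norm_num
  have c1 : 2 * T + ε < α * i + β ↔ Tn < A * i + B := by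
    have e : (2 * T + ε < α * i + β) ↔ T * S < (α * i + β - ε) / 2 * S := by
      rw [mul_lt_mul_iff_left₀ hS]
      constructor <;> intro h <;> linarith
    rw [e, hT, hr]
    norm_cast
  have c2 : α * i + β < 2 * T + ε + |α| ↔ A * i + B < Tn + |A| := by
    have e : (α * i + β < 2 * T + ε + |α|) ↔ (α * i + β - ε) / 2 * S < (T + |α| / 2) * S := by
      rw [mul_lt_mul_iff_left₀ hS]
      constructor <;> intro h <;> linarith
    have e2 : (T + |α| / 2) * S = Tn + |(A:ℚ)| := by linear_combination hT + ha / 2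
    rw [e, hr, e2]
    norm_cast
  unfold kapXQ kzN
  by_cases h : 2 * T + ε < α * i + β ∧ α * i + β < 2 * T + ε + |α|
  · rw [if_pos h, if_pos ⟨c1.1 h.1, c2.1 h.2⟩, hr]
    push_cast
    rfl
  · rw [if_neg h, if_neg (fun h' => h ⟨c1.2 h'.1, c2.2 h'.2⟩)]
    unfold kapQ
    rw [max_mul_of_nonneg _ _ hS.le, min_mul_of_nonneg _ _ hS.le, hr, hT, zero_mul]
    push_cast
    rfl

namespace CellPar

/-- units `1 / (320 M m)` -/
def kAz (p : CellPar) (i : ℤ) : ℤ :=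
  kzN (80 * p.m) (80 * p.M * p.b - 84 * p.M * p.m + 40 * p.m * p.s2) (72 * p.M * p.m) i

/-- units `1 / (320 M m)` -/
def kBz (p : CellPar) (i : ℤ) : ℤ :=
  kzN (80 * p.m) (80 * p.M * p.b - 82 * p.M * p.m + 40 * p.m * p.s2) (72 * p.M * p.m) i

/-- units `1 / (320 M m)` -/
def k1z (p : CellPar) (i : ℤ) : ℤ :=
  kzN (-160 * p.m) (156 * p.M * p.m + 320 * p.M * p.b - 80 * p.s2 * p.m) (72 * p.M * p.m) i

/-- units `1 / (320 M m)` -/
def k2z (p : CellPar) (i : ℤ) : ℤ :=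
  kzN (-320 * p.m) (156 * p.M * p.m + 160 * p.M * p.b - 160 * p.s2 * p.m) (72 * p.M * p.m) i

/-- one body part of the net at the nodes, units `1 / (640 M m kd)` -/
def nbZ (p : CellPar) (iw : ℕ) (c : Cl) (i : ℤ) : ℤ :=
  (if c.sd = false then
      p.kd * (144 * p.M * p.m * (fw1 p.q p.m p.a iw c + fw2 p.q p.m p.a iw c)
        - (p.kAz i + p.kBz i))
    else -(p.kd * (2 * p.fo1 c * p.k1z i + 2 * ff2 p.q p.m p.a p.b c * p.k2z i
      + fom p.q p.m p.b c * (p.kAz i + p.kBz i))))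
    - 640 * p.M * p.m * p.kn * fFc p.q p.m p.a p.b c

/-- sizes of the data of a cell -/
structure Pos (p : CellPar) : Prop where
  M : 0 < p.M
  q : 0 < p.q
  m : 0 < p.m
  kd : 0 < p.kd
  kn : 0 ≤ p.kn
  s0 : 0 ≤ p.s2
  s2 : p.s2 ≤ 2
  kc : 1 * p.kd ≤ 250 * p.kn

theorem nb_int {p : CellPar} (h : p.Pos) (iw : ℕ) (c : Cl) (i : ℤ) :
    p.nb iw c i = (p.nbZ iw c i : ℚ) / (640 * p.M * p.m * p.kd) := by
  have hM : (0:ℚ) < p.M := by exact_mod_cast h.M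
  have hm : (0:ℚ) < p.m := by exact_mod_cast h.m
  have hk : (0:ℚ) < p.kd := by exact_mod_cast h.kd
  have hS : (0:ℚ) < 320 * p.M * p.m := by positivity
  have eA : p.kA i * (320 * p.M * p.m) = p.kAz i := by
    unfold kA kAz
    apply kzN_cast hS
    · push_cast
      ring
    · push_cast
      field_simp
      ring
    · push_cast
      field_simp
      ring
  have eB : p.kB i * (320 * p.M * p.m) = p.kBz i := by
    unfold kB kBz
    apply kzN_cast hS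
    · push_cast
      ring
    · push_cast
      field_simp
      ring
    · push_cast
      field_simp
      ring
  have e1 : p.k1 i * (320 * p.M * p.m) = p.k1z i := by
    unfold k1 k1z
    apply kzN_cast hS
    · push_cast
      ring
    · push_cast
      field_simp
      ring
    · push_cast
      field_simp
      ring
  have e2 : p.k2 i * (320 * p.M * p.m) = p.k2z i := by
    unfold k2 k2z
    apply kzN_cast hS
    · push_cast
      ring
    · push_cast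
      field_simp
    · push_cast
      field_simp
      ring
  rw [eq_div_iff (by positivity)]
  unfold nb nbZ kc
  by_cases hs : c.sd = false
  · rw [if_pos hs, if_pos hs]
    push_cast
    rw [← eA, ← eB]
    field_simp
    ring
  · rw [if_neg hs, if_neg hs]
    push_cast
    rw [← eA, ← eB, ← e1, ← e2]
    field_simp
    ring

end CellPar

/-- sum over an initial segment, kernel form -/
def sm (n : ℕ) (f : ℕ → ℕ) : ℕ :=
  Nat.rec (motive := fun _ => ℕ) 0 (fun k ih => Nat.add (f k) ih) n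

lemma sm_eq (n : ℕ) (f : ℕ → ℕ) : sm n f = ∑ k ∈ range n, f k := by
  induction n with
  | zero => rfl
  | succ n ih =>
    change Nat.add (f n) (sm n f) = _
    rw [ih, sum_range_succ]
    exact Nat.add_comm _ _

/-- price sum of a node; `g i j` = price of the zone `i` at the label node `j - M - 2` -/
def bzN (M : ℕ) (w g : ℕ → ℕ → ℕ) : ℕ :=
  sm (Nat.add (Nat.mul 3 M) 5) (fun j => Nat.add (Nat.add (Nat.mul (g 0 j) (w 0 j))
    (Nat.mul (g 1 j) (w 1 j))) (Nat.mul (g 2 j) (w 2 j)))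

/-- check of the weights -/
def wChk (M s2 : ℕ) (w : ℕ → ℕ → ℕ) : Bool :=
  allN (3 * M + 5) (fun j => allN 3 (fun i => Nat.beq (w i j) (wN M s2 i j)))

theorem bzS_int {M s2 U : ℕ} (hs : s2 ≤ 2) (hU : 0 < U) {w g : ℕ → ℕ → ℕ}
    (hw : ∀ j < 3 * M + 5, ∀ i < 3, w i j = wN M s2 i j) {g0 : Fin 3 → ℤ → ℝ}
    (hg : ∀ (i : Fin 3) (j : ℕ), j < 3 * M + 5 → g0 i ((j:ℤ) - M - 2) = (g i j : ℝ) / U) :
    bzS M ((s2:ℝ) / 2) (cutL M ((s2:ℝ) / 2)) (cutR M ((s2:ℝ) / 2)) g0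
      = (bzN M w g : ℝ) / (12800 * U) := by
  have hU' : (0:ℝ) < U := by exact_mod_cast hU
  have e0 : ∀ f : ℤ → ℝ, ∑ k ∈ Iz M, f k = ∑ j ∈ range (3 * M + 5), f ((j:ℤ) - M - 2) := by
    intro f
    symm
    refine sum_bij' (fun j _ => (j:ℤ) - M - 2) (fun k _ => (k + M + 2).toNat) ?_ ?_ ?_ ?_ ?_
    · intro j hj
      rw [mem_range] at hj
      unfold Iz
      rw [mem_Icc]
      omega
    · intro k hk
      unfold Iz at hk
      rw [mem_Icc] at hk
      rw [mem_range]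
      omega
    · intro j _
      omega
    · intro k hk
      unfold Iz at hk
      rw [mem_Icc] at hk
      omega
    · intro j _
      rfl
  have eb : bzN M w g = ∑ j ∈ range (3 * M + 5), (g 0 j * w 0 j + g 1 j * w 1 j
      + g 2 j * w 2 j) := sm_eq _ _
  rw [eb, eq_div_iff (by positivity)]
  unfold bzS
  simp only [e0]
  rw [Fin.sum_univ_three, ← sum_add_distrib, ← sum_add_distrib, sum_mul]
  push_cast
  refine sum_congr rfl fun j hj => ?_
  rw [mem_range] at hj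
  rw [hg 0 j hj, hg 1 j hj, hg 2 j hj]
  have w0 := wN_cast (M := M) hs 0 j
  have w1 := wN_cast (M := M) hs 1 j
  have w2 := wN_cast (M := M) hs 2 j
  rw [hw j hj 0 (by norm_num), hw j hj 1 (by norm_num), hw j hj 2 (by norm_num)]
  have f0 : ((0 : Fin 3) : ℕ) = 0 := rfl
  have f1 : ((1 : Fin 3) : ℕ) = 1 := rfl
  have f2 : ((2 : Fin 3) : ℕ) = 2 := rfl
  rw [f0] at w0
  rw [f1] at w1
  rw [f2] at w2
  rw [w0, w1, w2, f0, f1, f2]
  field_simp


/-! ### The check of the nodes -/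

/-- check of one node: `3 a ≤ net + price sum / M - x`, `a = an / (2 U)`, `x = xn / (2 U)` -/
def ndChk (p : CellPar) (U iw : ℕ) (c : Cl) (i : ℤ) (an : ℕ) (xn : ℤ) (bz : ℕ) : Bool :=
  decide (p.M * p.m * p.kd * (19200 * an + 6400 * xn)
    ≤ 20 * U * p.nbZ iw c i + p.m * p.kd * bz)

theorem ndChk_sound {p : CellPar} (h : p.Pos) {U : ℕ} (hU : 0 < U) {iw : ℕ} {c : Cl} {i : ℤ}
    {an : ℕ} {xn : ℤ} {bz : ℕ} (hc : ndChk p U iw c i an xn bz = true) :
    3 * ((an : ℝ) / (2 * U))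
      ≤ ((p.nb iw c i : ℚ) : ℝ) + (bz : ℝ) / (12800 * U) / p.M - xn / (2 * U) := by
  have hM : (0:ℝ) < p.M := by exact_mod_cast h.M
  have hm : (0:ℝ) < p.m := by exact_mod_cast h.m
  have hk : (0:ℝ) < p.kd := by exact_mod_cast h.kd
  have hU' : (0:ℝ) < U := by exact_mod_cast hU
  have h1 : p.M * p.m * p.kd * (19200 * an + 6400 * xn)
    ≤ 20 * U * p.nbZ iw c i + p.m * p.kd * bz := of_decide_eq_true hc
  have h2 : (p.M:ℝ) * p.m * p.kd * (19200 * an + 6400 * xn)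
    ≤ 20 * U * p.nbZ iw c i + p.m * p.kd * bz := by exact_mod_cast h1
  rw [CellPar.nb_int h]
  push_cast
  have hS : (0:ℝ) < 12800 * U * p.M * p.m * p.kd := by positivity
  have e1 : 3 * ((an : ℝ) / (2 * U)) * (12800 * U * p.M * p.m * p.kd)
      = p.M * p.m * p.kd * (19200 * an) := by
    field_simp
    ring
  have e2 : ((p.nbZ iw c i : ℝ) / (640 * p.M * p.m * p.kd) + (bz : ℝ) / (12800 * U) / p.M
      - xn / (2 * U)) * (12800 * U * p.M * p.m * p.kd)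
      = 20 * U * p.nbZ iw c i + p.m * p.kd * bz - p.M * p.m * p.kd * (6400 * xn) := by
    field_simp
    ring
  refine le_of_mul_le_mul_right ?_ hS
  rw [e1, e2]
  linarith


/-! ### The one-body part of a row -/

noncomputable section

variable {C : Type}

lemma hat_le_one (k : ℤ) (x : ℝ) : hat k x ≤ 1 := by
  unfold hat
  exact max_le zero_le_one (by linarith [abs_nonneg (x - k)])

lemma kX_abs_le [Fintype C] (lo hi : C → ℤ) (f : C × ℤ → ℝ) (z : C × ℝ) :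
    |kX lo hi f z| ≤ ∑ c, ∑ i ∈ nd lo hi c, |f (c, i)| := by
  have h1 : |kX lo hi f z| ≤ ∑ i ∈ nd lo hi z.1, |f (z.1, i)| := by
    unfold kX
    refine (abs_sum_le_sum_abs _ _).trans (sum_le_sum fun i _ => ?_)
    rw [abs_mul, abs_of_nonneg (hat_nonneg _ _)]
    exact mul_le_of_le_one_left (abs_nonneg _) (hat_le_one _ _)
  refine h1.trans ?_
  exact single_le_sum (f := fun c => ∑ i ∈ nd lo hi c, |f (c, i)|)
    (fun c _ => sum_nonneg fun i _ => abs_nonneg _) (mem_univ z.1)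

/-- constant of the one-body part: `A0` = sum of the sizes of the node values, `Bg` = bound of the
price sums, `cw` = error of the extra function -/
def oneC (M : ℕ) (A0 Bg cw : ℝ) : ℝ := 4 * A0 + 36 * M + (52 + M) * (2 * Bg) + cw + 9

/-- THE ONE-BODY PART OF A ROW CERTIFICATE from its node values. `wf` = extra function with the node
minorant `wn`. -/
theorem row_one [Fintype C] {p : CellPar} (hp : p.Pos) {D K E t0 t1 w c1 c2 c3 : ℤ}
    {ds : C → Cl} {iw : C → ℕ} {cl : P4 → C} (hD : D = 4 * K + 1) (hK : 1 ≤ K) (hK2 : 100 ≤ K)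
    (hDM : 13 * (p.M : ℤ) ≤ D)
    (hrun : ∀ c, (ds c).run p.M p.s2 p.q) (hcl : ClMap ds p.q D K cl)
    (hiw : ∀ x, InR D K x.2 → iw (cl x) = 1 → w ≤ x.2.2)
    (hc : CellAt p.m p.a p.b D t0 t1) (hk : CutOK p.m p.a D t0 w c1 c2 c3)
    (hE : 40 * E ≤ D)
    {g : Fin 3 → C × ℤ → Bool → ℤ → ℝ} {g0 : Fin 3 → C × ℤ → ℤ → ℝ}
    (hg0 : ∀ i ζ k, 0 ≤ g0 i ζ k) (hg : ∀ i ζ e k, g0 i ζ k ≤ g i ζ e k) {Bg : ℝ}
    (hBg : ∀ ζ, ∑ i : Fin 3, ∑ k ∈ Iz p.M, g0 i ζ k ≤ Bg)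
    {wf : P4 → ℝ} {wn : C × ℤ → ℝ} {cw : ℝ} (hcw : 0 ≤ cw)
    (hw : ∀ x, InR D K x.2 →
      (D:ℝ) * kX (mkGrd hp.q hD hK hrun hcl).lo (mkGrd hp.q hD hK hrun hcl).hi wn
        ((mkGrd hp.q hD hK hrun hcl).pt x) - cw ≤ wf x)
    {n1 : P3 → ℝ} {X1 : P4 → ℝ}
    (hn1 : ∀ x, InR D K x.2 →
      n1cut p.o K (rhoE D) E t0 t1 w c1 c2 c3 x.2 + wf x ≤ n1 x.2 - X1 x)
    {a : C × ℤ → ℝ}
    (ha0 : ∀ ζ, ζ.2 ∈ nd (mkGrd hp.q hD hK hrun hcl).lo (mkGrd hp.q hD hK hrun hcl).hi ζ.1 →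
      0 ≤ a ζ)
    (ha : ∀ ζ, ζ.2 ∈ nd (mkGrd hp.q hD hK hrun hcl).lo (mkGrd hp.q hD hK hrun hcl).hi ζ.1 →
      3 * a ζ ≤ ((p.nb (iw ζ.1) (ds ζ.1) ζ.2 : ℚ) : ℝ)
        + bzS p.M ((p.s2:ℝ) / 2) (cutL p.M ((p.s2:ℝ) / 2)) (cutR p.M ((p.s2:ℝ) / 2))
          (fun i => g0 i ζ) / p.M + wn ζ) :
    ∃ (B : P4 → ℝ) (c1 : ℝ), 0 ≤ c1
      ∧ c1 = oneC p.M (∑ c, ∑ i ∈ nd (mkGrd hp.q hD hK hrun hcl).lo
          (mkGrd hp.q hD hK hrun hcl).hi c, |((p.nb (iw c) (ds c) i : ℚ) : ℝ)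
          + (bzS p.M ((p.s2:ℝ) / 2) (cutL p.M ((p.s2:ℝ) / 2)) (cutR p.M ((p.s2:ℝ) / 2))
            (fun j => g0 j (c, i)) + p.M * wn (c, i)) / p.M|) Bg cw
      ∧ (∀ (lR lL : ℤ → Bool) (x : P4), InR D K x.2 →
        B x ≤ ∑ s ∈ Ico 0 D, ((mkGrd hp.q hD hK hrun hcl).gR g x (lR s) s
          + (mkGrd hp.q hD hK hrun hcl).gL g x (lL s) s))
      ∧ (∀ x : P4, InR D K x.2 → -(2 * c1) ≤ m1tc K (rhoE D) E t0 t1 n1 B X1 x)
      ∧ (mkGrd hp.q hD hK hrun hcl).OneP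
        (fun x => -(m1tc K (rhoE D) E t0 t1 n1 B X1 x / (3 * D + 11))) (fun ζ => -a ζ)
        (c1 / (3 * D)) := by
  set G := mkGrd hp.q hD hK hrun hcl with hG
  have hDi : 0 < D := by omega
  have hDp : (0:ℝ) < D := by exact_mod_cast hDi
  have hM : (0:ℝ) < p.M := by exact_mod_cast hp.M
  have hσ0 : (0:ℝ) ≤ (p.s2:ℝ) / 2 := by
    have : (0:ℝ) ≤ p.s2 := by exact_mod_cast hp.s0
    linarith
  have hσ1 : (p.s2:ℝ) / 2 ≤ 1 := by
    have : (p.s2:ℝ) ≤ 2 := by exact_mod_cast hp.s2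
    linarith
  have hρ := rho_le D
  have hδ : (0:ℝ) ≤ 12 * (p.M:ℝ) / D := by positivity
  have hDM' : 13 * (p.M:ℝ) ≤ D := by exact_mod_cast hDM
  have hr : 12 * (p.M:ℝ) / D + p.M / D ≤ 1 := by
    rw [← add_div, div_le_one hDp]
    linarith
  have hBg0 : ∀ ζ : C × ℤ, 0 ≤ ∑ i : Fin 3, ∑ k ∈ Iz p.M, g0 i ζ k := fun ζ =>
    sum_nonneg fun i _ => sum_nonneg fun k _ => hg0 _ _ _
  have hδD : (D:ℝ) * (12 * (p.M:ℝ) / D) / p.M = 12 := by
    field_simp
  -- the point `0` shows that there is a class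
  have hBgn : 0 ≤ Bg := (hBg0 (cl (false, (false, 0)), 0)).trans (hBg _)
  set cB : ℝ := (52 + p.M) * (2 * Bg) with hcBd
  have hcB0 : 0 ≤ cB := by positivity
  set Bn : C × ℤ → ℝ := fun ζ => bzS p.M ((p.s2:ℝ) / 2) (cutL p.M ((p.s2:ℝ) / 2))
    (cutR p.M ((p.s2:ℝ) / 2)) (fun i => g0 i ζ) with hBn
  have hprice := fun (lR lL : ℤ → Bool) (x : P4) (hx : InR D K x.2) =>
    GrdD.price_row G hp.M hσ0 hσ1 (by omega) (by omega) hδ hr hg0 hg (Bn := Bn)
      (fun ζ _ => le_rfl) (cB := cB) (fun ζ => by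
        rw [hδD, hcBd]
        have := hBg ζ
        have h0 := hBg0 ζ
        have hc0 : (0:ℝ) ≤ 52 + p.M := by positivity
        have := mul_le_mul_of_nonneg_left (mul_le_mul_of_nonneg_left this
          (by norm_num : (0:ℝ) ≤ 2)) hc0
        calc (4 * (12 + 1) + (p.M:ℝ)) * (2 * ∑ i : Fin 3, ∑ k ∈ Iz p.M, g0 i ζ k)
            = (52 + p.M) * (2 * ∑ i : Fin 3, ∑ k ∈ Iz p.M, g0 i ζ k) := by ring
          _ ≤ _ := this) lR lL (x := x) hx
  set B : P4 → ℝ := fun x => (D:ℝ) / p.M * kX G.lo G.hi Bn (G.pt x) - cB with hB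
  set A0 : ℝ := ∑ c, ∑ i ∈ nd G.lo G.hi c, |((p.nb (iw c) (ds c) i : ℚ) : ℝ)
    + (Bn (c, i) + p.M * wn (c, i)) / p.M| with hA0
  have hA0n : 0 ≤ A0 := sum_nonneg fun c _ => sum_nonneg fun i _ => abs_nonneg _
  have hc1 : 0 ≤ oneC p.M A0 Bg cw := by
    unfold oneC
    positivity
  refine ⟨B, oneC p.M A0 Bg cw, hc1, rfl, hprice, ?_⟩
  have hfl := flg_cls (p := p) hp.q hD hK hrun hcl hiw hc hk hE
  have hkc : kapE K (rhoE D) ≤ D * ((p.kc : ℚ) : ℝ) + 1 := by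
    refine (kapE_le (sc_E hD hK) hK2).trans ?_
    have hkd : (0:ℝ) < p.kd := by exact_mod_cast hp.kd
    have h1 : 1 * (p.kd:ℝ) ≤ 250 * p.kn := by exact_mod_cast hp.kc
    have h2 : (1:ℝ) / 250 ≤ ((p.kc : ℚ) : ℝ) := by
      unfold CellPar.kc
      push_cast
      rw [div_le_div_iff₀ (by norm_num) hkd]
      linarith
    have := mul_le_mul_of_nonneg_left h2 hDp.le
    linarith
  have hTb : ((t1 : ℤ) : ℝ) ≤ (p.b:ℝ) / p.m * D := by
    have hm : (0:ℝ) < p.m := by exact_mod_cast hp.m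
    have h1 : (p.m:ℝ) * t1 ≤ p.b * D := by exact_mod_cast hc.h1
    rw [div_mul_eq_mul_div, le_div_iff₀ hm]
    linarith
  have hEr : (E:ℝ) ≤ 1 / 40 * D := by
    have : 40 * (E:ℝ) ≤ D := by exact_mod_cast hE
    linarith
  have key := onep_net (T := 9 / 40) (kc := ((p.kc : ℚ) : ℝ)) (e := 1 / 40) (sc_E hD hK)
    (by omega) hkc hp.M hfl hTb hEr (B := fun x => B x + wf x)
    (Bn := fun ζ => Bn ζ + p.M * wn ζ) (cB := cB + cw) (by positivity)
    (fun x hx => by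
      have h1 := hw x hx
      have e : kX G.lo G.hi (fun ζ => Bn ζ + p.M * wn ζ) (G.pt x)
          = kX G.lo G.hi Bn (G.pt x) + p.M * kX G.lo G.hi wn (G.pt x) := by
        rw [kX_add, kX_smul]
      have e2 : (D:ℝ) / p.M * kX G.lo G.hi (fun ζ => Bn ζ + p.M * wn ζ) (G.pt x)
          = D / p.M * kX G.lo G.hi Bn (G.pt x) + D * kX G.lo G.hi wn (G.pt x) := by
        rw [e]
        field_simp
      show (D:ℝ) / p.M * kX G.lo G.hi (fun ζ => Bn ζ + p.M * wn ζ) (G.pt x) - (cB + cw)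
        ≤ B x + wf x
      rw [e2, hB]
      dsimp only
      linarith)
    (A0 := A0) (fun x hx => by
      refine (kX_abs_le G.lo G.hi _ (G.pt x)).trans (le_of_eq ?_)
      rw [hA0]
      refine sum_congr rfl fun c _ => sum_congr rfl fun i _ => ?_
      rw [nb_cast p iw ds (c, i)])
    (η := oneC p.M A0 Bg cw / (3 * D)) (by
      have e1 : oneC p.M A0 Bg cw / (3 * D) * (3 * D) = oneC p.M A0 Bg cw := by
        field_simp
      have e2 : 3 * ((D:ℝ) * (12 * (p.M:ℝ) / D)) = 36 * p.M := by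
        field_simp
        norm_num
      rw [e1, e2]
      unfold oneC
      linarith)
  have hone : G.OneP
        (fun x => -(m1tc K (rhoE D) E t0 t1 n1 B X1 x / (3 * D + 11))) (fun ζ => -a ζ)
        (oneC p.M A0 Bg cw / (3 * D)) := by
    intro x hx
    have h1 := key x hx
    have hD11 : (0:ℝ) < 3 * D + 11 := by linarith
    have h2 : n1cut p.o K (rhoE D) E t0 t1 w c1 c2 c3 x.2 - kapE K (rhoE D) * fCc D K E t0 t1 x.2
        + (B x + wf x) ≤ m1tc K (rhoE D) E t0 t1 n1 B X1 x := by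
      have := hn1 x hx
      unfold m1tc
      rw [← hD]
      linarith
    have h3 := div_le_div_of_nonneg_right h2 hD11.le
    have h4 : kX G.lo G.hi (fun ζ => -((nbOut (9 / 40) ((p.kc : ℚ) : ℝ) (fun c => (ds c).sd)
        (fun c => ((fw1 p.q p.m p.a (iw c) (ds c) : ℤ) : ℝ)) (fun c => ((fw2 p.q p.m p.a (iw c) (ds c) : ℤ) : ℝ))
        (fun c => ((p.fo1 (ds c) : ℤ) : ℝ)) (fun c => ((ff2 p.q p.m p.a p.b (ds c) : ℤ) : ℝ))
        (fun c => ((fom p.q p.m p.b (ds c) : ℤ) : ℝ))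
        (fun c => ((fFc p.q p.m p.a p.b (ds c) : ℤ) : ℝ)) (fun _ i => ((p.kA i : ℚ) : ℝ))
        (fun _ i => ((p.kB i : ℚ) : ℝ)) (fun _ i => ((p.k1 i : ℚ) : ℝ))
        (fun _ i => ((p.k2 i : ℚ) : ℝ)) ζ + (Bn ζ + p.M * wn ζ) / p.M) / 3)) (G.pt x)
        ≤ kX G.lo G.hi (fun ζ => -a ζ) (G.pt x) := by
      refine GrdD.kX_le G x fun ζ hζ => ?_
      rw [nb_cast p iw ds ζ]
      have h5 := ha ζ hζ
      have e : (Bn ζ + p.M * wn ζ) / p.M = Bn ζ / p.M + wn ζ := by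
        field_simp
      rw [e]
      linarith
    have h1' : -((n1cut p.o K (rhoE D) E t0 t1 w c1 c2 c3 x.2 - kapE K (rhoE D) * fCc D K E t0 t1 x.2
        + (B x + wf x)) / (3 * D + 11)) ≤ kX G.lo G.hi (fun ζ => -((nbOut (9 / 40) ((p.kc : ℚ) : ℝ) (fun c => (ds c).sd)
        (fun c => ((fw1 p.q p.m p.a (iw c) (ds c) : ℤ) : ℝ)) (fun c => ((fw2 p.q p.m p.a (iw c) (ds c) : ℤ) : ℝ))
        (fun c => ((p.fo1 (ds c) : ℤ) : ℝ)) (fun c => ((ff2 p.q p.m p.a p.b (ds c) : ℤ) : ℝ))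
        (fun c => ((fom p.q p.m p.b (ds c) : ℤ) : ℝ))
        (fun c => ((fFc p.q p.m p.a p.b (ds c) : ℤ) : ℝ)) (fun _ i => ((p.kA i : ℚ) : ℝ))
        (fun _ i => ((p.kB i : ℚ) : ℝ)) (fun _ i => ((p.k1 i : ℚ) : ℝ))
        (fun _ i => ((p.k2 i : ℚ) : ℝ)) ζ + (Bn ζ + p.M * wn ζ) / p.M) / 3)) (G.pt x)
        + oneC p.M A0 Bg cw / (3 * D) := h1
    have h6 : -(m1tc K (rhoE D) E t0 t1 n1 B X1 x / (3 * D + 11))
        ≤ -((n1cut p.o K (rhoE D) E t0 t1 w c1 c2 c3 x.2 - kapE K (rhoE D) * fCc D K E t0 t1 x.2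
        + (B x + wf x)) / (3 * D + 11)) := neg_le_neg h3
    exact h6.trans (h1'.trans (by linarith))
  refine ⟨fun x hx => ?_, hone⟩
  have h1 := hone x hx
  have hD11 : (0:ℝ) < 3 * D + 11 := by linarith
  have h2 : kX G.lo G.hi (fun ζ => -a ζ) (G.pt x) ≤ 0 := by
    unfold kX
    refine sum_nonpos fun i hi' => ?_
    have := ha0 ((G.pt x).1, i) hi'
    exact mul_nonpos_of_nonneg_of_nonpos (hat_nonneg _ _) (by linarith)
  have h1' : -(m1tc K (rhoE D) E t0 t1 n1 B X1 x / (3 * D + 11))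
      ≤ kX G.lo G.hi (fun ζ => -a ζ) (G.pt x) + oneC p.M A0 Bg cw / (3 * D) := h1
  have h3 : -(oneC p.M A0 Bg cw / (3 * D)) ≤ m1tc K (rhoE D) E t0 t1 n1 B X1 x / (3 * D + 11) := by
    linarith
  have h4 := mul_le_mul_of_nonneg_right h3 hD11.le
  rw [div_mul_cancel₀ _ hD11.ne'] at h4
  refine le_trans ?_ h4
  have hD100 : (11:ℝ) ≤ D := by exact_mod_cast (by omega : (11:ℤ) ≤ D)
  have h5 : oneC p.M A0 Bg cw / (3 * D) * (3 * D + 11) ≤ 2 * oneC p.M A0 Bg cw := by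
    rw [div_mul_eq_mul_div, div_le_iff₀ (by positivity)]
    nlinarith
  linarith

end

end MP61673a.FE
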