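import Pool.Agent.Mu673.FE6
import Pool.Agent.Mu673.RowNum
import Pool.Agent.Mu673.CellMain

/-!
ASSEMBLY OF A ROW CERTIFICATE, PART 2 (helper31): the row at every depth of a cell from the tables.
-/

set_option autoImplicit false

namespace MP61673a.FE

open Finset MP61673a.W MP61673a.Kink MP61673a.Bary MP61673a.Sos MP61673a.Fin

noncomputable section

variable {C : Type} {M : ℕ} {σ δ : ℝ} {D K ρ : ℤ} {kL kR : ℝ}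

/-- FIVE ZONES SUFFICE for nonnegative prices -/
lemma Zone9.of_zone5 {G : GrdD C M σ δ D K ρ kL kR} {V : ℤ} {F : Flg G.toGrd V}
    {g : Fin 3 → C × ℤ → Bool → ℤ → ℝ} (hg : ∀ i ζ e m, 0 ≤ g i ζ e m)
    {ca cb ce cg : C × ℤ → ℝ} {lamF : C × ℤ → C → C → ℤ → ℝ} {ζ : C × ℤ} {c d : C}
    {L : ℤ → ℝ} (h1 : -M - σ ≤ kL) (h2 : kL ≤ -σ) (h3 : M - σ ≤ kR) (h4 : kR ≤ 2 * M - σ)
    (hz : Zone5 kL kR (fun i m => lam5 G F g ca cb ce cg ζ c d i m + lamF ζ c d m) L) :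
    Zone9 M σ kL kR (lam9 G F g ca cb ce cg lamF ζ c d) L := by
  have hM0 : (0:ℝ) ≤ M := Nat.cast_nonneg _
  -- the price part is the only difference
  have hle : ∀ i m, lam9 G F g ca cb ce cg lamF ζ c d i m
      ≤ lam5 G F g ca cb ce cg ζ c d (z95 i) m + lamF ζ c d m := by
    intro i m
    unfold lam9 lam5
    have hgle : g9 g ζ (F.typ c) i m ≤ g (z53 (z95 i)) ζ (F.typ c) m := by
      fin_cases i
      · exact hg _ _ _ _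
      · exact le_rfl
      · exact le_rfl
      · exact le_rfl
      · exact hg _ _ _ _
      · exact le_rfl
      · exact le_rfl
      · exact le_rfl
      · exact hg _ _ _ _
    linarith
  have hpl : ∀ i x, pl (lam9 G F g ca cb ce cg lamF ζ c d i) x
      ≤ pl (fun m => lam5 G F g ca cb ce cg ζ c d (z95 i) m + lamF ζ c d m) x :=
    fun i x => pl_mono (hle i) x
  intro i x hx
  refine (hpl i x).trans ?_
  fin_cases i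
  · exact hz.h0 x (le_trans hx h1)
  · exact hz.h0 x hx.2
  · obtain rfl : x = kL := le_antisymm hx.2 hx.1
    exact hz.h1
  · exact hz.h2 x hx.1 (by have := hx.2; linarith)
  · exact hz.h2 x (by have := hx.1; linarith) (by have := hx.2; linarith)
  · exact hz.h2 x (by have := hx.1; linarith) hx.2
  · obtain rfl : x = kR := le_antisymm hx.2 hx.1
    exact hz.h3
  · exact hz.h4 x hx.1
  · exact hz.h4 x (le_trans h4 hx)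

lemma cls3_zero (x y z : P4) : cls3 (fun _ _ _ => 0) x y z = 0 := by
  unfold cls3
  simp

/-- the node table of a certificate -/
def Tcert (a1 : C × ℤ → ℝ) (W : C × ℤ → C → C → ℤ → ℝ) (st : C → C → Bool)
    (Wm : C × ℤ → ℤ → ℝ) (Tx : C × ℤ → C × ℤ → C × ℤ → ℝ) (z a b : C × ℤ) : ℝ :=
  a1 z + (W z a.1 b.1 (2 * b.2 - a.2)
    + (if st a.1 b.1 = true then 1 / 2 * Wm z (a.2 + b.2) else 0)) + Tx z a b

/-- THE ROW FROM THE TABLES -/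
theorem row_tables {K0 : ℤ} {f : ℝ} {P Q : WS} {V E N : ℤ} {ξR ξL : ℤ → ℝ}
    (h : EnvS K0 f P Q D K ρ V E N ξR ξL) {cl : P.ι ⊕ Q.ι → Bool} {lR lL : ℤ → Bool}
    (ht : Typ P Q D E cl lR lL) {lo t0 t t1 : ℤ} (hNt : nearE D < t) (h0 : t0 ≤ t)
    (h1 : t ≤ t1) {n1 : P3 → ℝ} {n3 : P3 → P3 → P3 → ℝ} {C1 : ℝ}
    (hnet : T1 P Q n1 + T3 P Q n3 - C1 * K ≤ netE P Q deeper D K (K - ρ) ρ ρ V E lo t)
    {dk : P3 → P3 → P3 → ℝ} (hdk : dchE P Q deeper D ρ V E t ≤ T3 P Q dk)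
    {X1 : P4 → ℝ} {X3 : P4 → P4 → P4 → ℝ} {C0 : ℝ} (hX : XF P Q cl K X1 X3 C0)
    -- frame
    (G : GrdD C M σ δ D K ρ kL kR) (F : Flg G.toGrd V) (hδ : 0 ≤ δ)
    {W0 : Finset ℤ} (hW0 : ∀ c, nd G.lo G.hi c ⊆ W0)
    (hI : ∀ l, ∃ x ∈ I9 M σ kL kR (zn9 D ρ l), |yc M σ D l - x| ≤ 2 * δ)
    -- prices
    {g : Fin 3 → C × ℤ → Bool → ℤ → ℝ} (hg : ∀ i ζ e m, 0 ≤ g i ζ e m) {Bg : ℝ}
    (hgB : ∀ i ζ e m, |g i ζ e m| ≤ Bg)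
    {hR hL : C × ℤ → ℤ → ℝ} (pR : ∀ ζ m, 0 ≤ hR ζ m) (pL : ∀ ζ m, 0 ≤ hL ζ m)
    (bR : ∀ ζ m, |hR ζ m| ≤ Bg) (bL : ∀ ζ m, |hL ζ m| ≤ Bg)
    {nR nL : ℝ} (hnR : nR ≤ M - σ) (hnRk : nR ≤ kR) (hnL : -σ ≤ nL) (hnLk : kL ≤ nL)
    (dR1 : ∀ ζ, ζ.2 ∈ nd G.lo G.hi ζ.1 → ∀ e (x : ℝ), nR ≤ x → x ≤ kR →
      pl (g 1 ζ e) x ≤ pl (hR ζ) x)
    (dR2 : ∀ ζ, ζ.2 ∈ nd G.lo G.hi ζ.1 → ∀ e (x : ℝ), kR ≤ x → pl (g 2 ζ e) x ≤ pl (hR ζ) x)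
    (dL1 : ∀ ζ, ζ.2 ∈ nd G.lo G.hi ζ.1 → ∀ e (x : ℝ), kL ≤ x → x ≤ nL →
      pl (g 1 ζ e) x ≤ pl (hL ζ) x)
    (dL0 : ∀ ζ, ζ.2 ∈ nd G.lo G.hi ζ.1 → ∀ e (x : ℝ), x ≤ kL → pl (g 0 ζ e) x ≤ pl (hL ζ) x)
    -- midpoints
    {τ : ℤ} (hτ : 2 * σ = τ) {d : ℝ} (hd : (M:ℝ) * E / (2 * D) ≤ d) (hd0 : 0 ≤ d) (hd1 : d ≤ 1)
    {Lm Wm : C × ℤ → ℤ → ℝ} {Bm : ℝ}
    (hLm : ∀ ζ, ζ.2 ∈ nd G.lo G.hi ζ.1 → ∀ m, avN d (hR ζ) m + avN d (hL ζ) m ≤ Lm ζ m)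
    (hBm : ∀ ζ m, |Lm ζ m| ≤ Bm)
    (hWm : ∀ ζ, ζ.2 ∈ nd G.lo G.hi ζ.1 → MidOK (Lm ζ) (Wm ζ))
    {st : C → C → Bool}
    (hst : ∀ y z, G.ok y → G.ok z → st (G.cl y) (G.cl z) = false →
      ¬ (y.1 = z.1 ∧ (rc D y.2 < 0 ∨ rc D z.2 < 0)) ∧
      ¬ (y.1 = z.1 ∧ (lc D y.2 < 0 ∨ lc D z.2 < 0)))
    -- one body part
    {BB : P4 → ℝ} (hB : ∀ x : P4, InR D K x.2 →
      BB x ≤ ∑ s ∈ Ico 0 D, (G.gR g x (lR s) s + G.gL g x (lL s) s))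
    {a1 : C × ℤ → ℝ} {ε1 e0 : ℝ} (he0 : 0 ≤ e0)
    (hm : ∀ x : P4, InR D K x.2 → -e0 ≤ m1tc K ρ E t0 t1 n1 BB X1 x)
    (hone : G.OneP (fun x => -(m1tc K ρ E t0 t1 n1 BB X1 x / (3 * D + 11))) a1 ε1)
    -- three body part
    {a b e e' : P4 → ℝ} {Φ Y3 : P4 → P4 → P4 → ℝ}
    (H3 : ∀ x y z, G.ok x → G.ok y → G.ok z →
      -n3 x.2 y.2 z.2 + dk x.2 y.2 z.2 + X3 x y z
        ≤ (a x * kNP V (1 + ρ) y.2 z.2 + b x * kNQ V (1 + ρ) y.2 z.2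
          + e x * kQP (D - ρ + 1) y.2 z.2 + e' x * kPQ (D - ρ + 1) y.2 z.2) + Φ x y z
          + Y3 x y z)
    {ca cb ce cg : C × ℤ → ℝ} (ha : ∀ x, G.ok x → a x ≤ kX G.lo G.hi ca (G.pt x))
    (hb : ∀ x, G.ok x → b x ≤ kX G.lo G.hi cb (G.pt x))
    (he : ∀ x, G.ok x → e x ≤ kX G.lo G.hi ce (G.pt x))
    (he' : ∀ x, G.ok x → e' x ≤ kX G.lo G.hi cg (G.pt x))
    {lamF : C × ℤ → C → C → ℤ → ℝ} {εF : ℝ} (hΦ : G.FamP Φ lamF εF)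
    {Tx : C × ℤ → C × ℤ → C × ℤ → ℝ} {εx : ℝ} (hY : G.Part Y3 Tx εx)
    -- tables
    {L W : C × ℤ → C → C → ℤ → ℝ} {B : ℝ}
    (hlb : ∀ ζ c d i m, |lam9 G F g ca cb ce cg lamF ζ c d i m| ≤ B)
    (hLb : ∀ ζ c d m, |L ζ c d m| ≤ B)
    (hz0 : ∀ ζ, ζ.2 ∈ nd G.lo G.hi ζ.1 → ∀ c d,
      Zone9 M σ kL kR (lam9 G F g ca cb ce cg lamF ζ c d) (L ζ c d))
    (hW : ∀ ζ, ζ.2 ∈ nd G.lo G.hi ζ.1 → ∀ c d, EndOK (L ζ c d) (W ζ c d))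
    -- squares
    {p : ℕ} {sg : Fin p → C × ℤ → C × ℤ → ℝ}
    (hnode : ∀ z a b : C × ℤ, z.2 ∈ nd G.lo G.hi z.1 → a.2 ∈ nd G.lo G.hi a.1 →
      b.2 ∈ nd G.lo G.hi b.1 →
      sym6 (Tcert a1 W st Wm Tx) z a b + 2 * sq3 univ sg z a b ≤ 0)
    {ε : ℝ} (hε0 : 0 ≤ ε)
    (hε : ε1 + (14 * B * δ + εF + (Bm * δ + 6 * Bg * δ)) + εx ≤ ε) {C' : ℝ}
    (hC : 18 * (K * ε) + C0 + C1 + e0 ≤ C') :
    RowAt C' P Q D K ρ V E lo t := by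
  have hK1 := h.hK1
  have hDK := h.hD
  have hKr : (10000:ℝ) ≤ K := by exact_mod_cast hK1
  have hρ1 := h.hρ
  have hρK := h.hρK
  have hρD : ρ < D := by omega
  have hBg : 0 ≤ Bg := (abs_nonneg _).trans (hgB 0 (G.cl (false, false, 0), 0) false 0)
  have hem : 0 ≤ 6 * Bg * δ := by positivity
  -- parts
  have hM0 : (0:ℤ) ≤ (M:ℤ) := Int.natCast_nonneg M
  have q1 := j_pairP G F hρ1 hρD hI hlb hLb hz0 hW
  have q2 := j_part q1 ha hb he he' hΦ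
  have q3 := G.mid_pairP hd0 hem hτ pR pL hLm hBm hWm hst
  have q4 := ((hone.part.add (q2.add q3.part)).add hY)
  have dR : ∀ x, ∀ e s, 0 ≤ s → s < D → G.gR g x e s
      ≤ G.mj (HR M σ D hR (6 * Bg * δ)) x s := fun x e s _ hs =>
    G.kX_le x fun ζ hζ => G.gz_le_HR hδ hgB bR hnR (by omega) hnRk (dR1 ζ hζ) (dR2 ζ hζ)
      le_rfl e hs
  have dL : ∀ x, ∀ e s, 0 ≤ s → s < D → G.gL g x e s
      ≤ G.mj (HL M σ τ D hL (6 * Bg * δ)) x s := fun x e s _ hs =>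
    G.kX_le x fun ζ hζ => G.gz_le_HL hδ hgB bL hτ hnL (by omega) hnLk (dL1 ζ hζ) (dL0 ζ hζ)
      le_rfl e hs
  have jR : ∀ x, Maj D E (G.mj (HR M σ D hR (6 * Bg * δ)) x)
      (G.mj (MR M σ D d hR (6 * Bg * δ)) x) := fun x =>
    G.mj_maj (fun ζ _ => maj_lblF G.hD0 hM0 (by push_cast; exact hd) hd0 hd1
      (fun k => add_nonneg (pR ζ _) hem)) x
  have jL : ∀ x, Maj D E (G.mj (HL M σ τ D hL (6 * Bg * δ)) x)
      (G.mj (ML M σ τ D d hL (6 * Bg * δ)) x) := fun x =>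
    G.mj_maj (fun ζ _ => maj_lblF G.hD0 hM0 (by push_cast; exact hd) hd0 hd1
      (fun k => add_nonneg (pL ζ _) hem)) x
  -- the pointwise inequality
  have q5 : G.Part (fun x y z => -(m1tc K ρ E t0 t1 n1 BB X1 x / (3 * D + 11)
      + m3t K f n3 (G.gR g) (G.mj (MR M σ D d hR (6 * Bg * δ))) (G.gL g)
        (G.mj (ML M σ τ D d hL (6 * Bg * δ))) (fun _ _ => 0) (fun _ _ _ => 0) (fun _ => 0) dk X3
        x y z)) (Tcert a1 W st Wm Tx) ε := by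
    refine (q4.congr (fun x y z hx hy hz => ?_) hε).mono (fun a b c _ _ _ => le_of_eq ?_)
    · have k1 := H3 x y z hx hy hz
      have k2 := G.cov_le9 g (MR M σ D d hR (6 * Bg * δ)) (ML M σ τ D d hL (6 * Bg * δ)) x y z
      unfold m3t
      rw [cls3_zero, ← hDK, k2]
      linarith
    · unfold Tcert
      ring
  obtain ⟨m, s, hs⟩ := Grd.point_of_part (G := G.toGrd) hW0 q5 (sg := sg) (B := 0) hnode
  · refine row3tn h ht hNt h0 h1 hnet (γR := G.gR g) (γL := G.gL g)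
      (hR := G.mj (HR M σ D hR (6 * Bg * δ))) (hL := G.mj (HL M σ τ D hL (6 * Bg * δ)))
      (fun x _ e s _ _ => G.gR_nonneg hg x e s) (fun x _ e s _ _ => G.gL_nonneg hg x e s)
      (fun x _ => dR x) (fun x _ => dL x) (fun x _ => jR x) (fun x _ => jL x) hB
      (ν := fun _ _ => 0) (fun _ _ => le_rfl) (σ := fun _ _ _ => 0) (fun _ _ _ => le_rfl)
      (o := fun _ => 0) (o0 := 0) (fun _ _ => le_rfl) (fun _ _ => le_rfl) le_rfl hdk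
      (X1 := X1) (X3 := X3) (C0 := C0) hX he0 hm univ s (c := 6 * (K * ε)) (by positivity)
      (fun x y z hx hy hz => ?_) (by linarith)
    refine (hs x y z ((G.okE x).2 hx) ((G.okE y).2 hy) ((G.okE z).2 hz)).trans (le_of_eq ?_)
    have e1 : 6 * ((K:ℝ) * ε) / K = 6 * ε := by
      field_simp
    rw [e1]
    ring

end

end MP61673a.FE
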