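import Pool.Agent.Mu673.FE7

/-!
ASSEMBLY OF A ROW CERTIFICATE WITH FAMILIES DEPENDING ON THE ZONE OF THE LABEL (helper10): the
statements of FE6 (joint part) and FE7 (`row_tables`) with `lamF ζ c d i m`, `i` = zone.
-/

set_option autoImplicit false

namespace MP61673a.FE

open Finset MP61673a.W MP61673a.Kink MP61673a.Bary MP61673a.Sos MP61673a.Fin

noncomputable section

variable {C : Type} {M : ℕ} {σ δ : ℝ} {D K ρ : ℤ} {kL kR : ℝ}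

namespace GrdD

variable (G : GrdD C M σ δ D K ρ kL kR)

/-- a three-body functional bounded by label functions of the nodes of the sampler, depending on
the zone of the label -/
def FamZ (Φ : P4 → P4 → P4 → ℝ) (lam : C × ℤ → C → C → Fin 9 → ℤ → ℝ) (ε : ℝ) : Prop :=
  ∀ x y z, G.ok x → G.ok y → G.ok z →
    Φ x y z ≤ kX G.lo G.hi (fun ζ => pl (lam ζ (G.cl y) (G.cl z) (zn9 D ρ (lab D y z)))
      (yc M σ D (lab D y z))) (G.pt x) + ε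

variable {G}

lemma FamP.toZ {Φ : P4 → P4 → P4 → ℝ} {lam : C × ℤ → C → C → ℤ → ℝ} {ε : ℝ}
    (h : G.FamP Φ lam ε) : G.FamZ Φ (fun ζ c d _ m => lam ζ c d m) ε := h

lemma FamZ.zero : G.FamZ (fun _ _ _ => 0) (fun _ _ _ _ _ => 0) 0 :=
  FamP.toZ FamP.zero

lemma FamZ.add {Φ Φ' : P4 → P4 → P4 → ℝ} {lam lam' : C × ℤ → C → C → Fin 9 → ℤ → ℝ}
    {ε ε' : ℝ} (h : G.FamZ Φ lam ε) (h' : G.FamZ Φ' lam' ε') :
    G.FamZ (fun x y z => Φ x y z + Φ' x y z) (fun ζ c d i m => lam ζ c d i m + lam' ζ c d i m)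
      (ε + ε') := by
  intro x y z hx hy hz
  have h1 := h x y z hx hy hz
  have h2 := h' x y z hx hy hz
  simp only [pl_add']
  rw [kX_add]
  linarith

lemma FamZ.congr {Φ Φ' : P4 → P4 → P4 → ℝ} {lam : C × ℤ → C → C → Fin 9 → ℤ → ℝ} {ε ε' : ℝ}
    (h : G.FamZ Φ lam ε) (e : ∀ x y z, G.ok x → G.ok y → G.ok z → Φ' x y z ≤ Φ x y z)
    (hε : ε ≤ ε') : G.FamZ Φ' lam ε' := by
  intro x y z hx hy hz
  have h1 := h x y z hx hy hz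
  have h2 := e x y z hx hy hz
  linarith

lemma FamZ.mono {Φ : P4 → P4 → P4 → ℝ} {lam lam' : C × ℤ → C → C → Fin 9 → ℤ → ℝ} {ε : ℝ}
    (h : G.FamZ Φ lam ε)
    (e : ∀ ζ, ζ.2 ∈ nd G.lo G.hi ζ.1 → ∀ c d i m, lam ζ c d i m ≤ lam' ζ c d i m) :
    G.FamZ Φ lam' ε := by
  intro x y z hx hy hz
  have h1 := h x y z hx hy hz
  have h2 := G.kX_le x
    (f := fun ζ => pl (lam ζ (G.cl y) (G.cl z) (zn9 D ρ (lab D y z))) (yc M σ D (lab D y z)))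
    (g := fun ζ => pl (lam' ζ (G.cl y) (G.cl z) (zn9 D ρ (lab D y z))) (yc M σ D (lab D y z)))
    (fun ζ hζ => pl_mono (fun k => e ζ hζ _ _ _ k) _)
  linarith

/-- A FAMILY ON SOME ZONES -/
theorem FamP.onZ {Φ Φ' : P4 → P4 → P4 → ℝ} {lam : C × ℤ → C → C → ℤ → ℝ} {ε : ℝ}
    (h : G.FamP Φ lam ε) (hε : 0 ≤ ε) (S : Fin 9 → Bool)
    (h1 : ∀ x y z, G.ok x → G.ok y → G.ok z → S (zn9 D ρ (lab D y z)) = true →
      Φ' x y z ≤ Φ x y z)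
    (h0 : ∀ x y z, G.ok x → G.ok y → G.ok z → S (zn9 D ρ (lab D y z)) = false →
      Φ' x y z ≤ 0) :
    G.FamZ Φ' (fun ζ c d i m => if S i = true then lam ζ c d m else 0) ε := by
  intro x y z hx hy hz
  rcases hs : S (zn9 D ρ (lab D y z)) with _ | _
  · have a := h0 x y z hx hy hz hs
    have e : (fun ζ : C × ℤ => pl (fun m => if S (zn9 D ρ (lab D y z)) = true then
        lam ζ (G.cl y) (G.cl z) m else 0) (yc M σ D (lab D y z))) = fun _ => 0 := by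
      funext ζ
      rw [hs]
      simp only [Bool.false_eq_true, if_false]
      unfold pl
      ring
    show _ ≤ kX G.lo G.hi (fun ζ : C × ℤ => pl (fun m => if S (zn9 D ρ (lab D y z)) = true then
        lam ζ (G.cl y) (G.cl z) m else 0) (yc M σ D (lab D y z))) (G.pt x) + ε
    rw [e]
    unfold kX
    simp only [mul_zero, sum_const_zero, zero_add]
    linarith
  · have a := h1 x y z hx hy hz hs
    have b := h x y z hx hy hz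
    have e : (fun ζ : C × ℤ => pl (fun m => if S (zn9 D ρ (lab D y z)) = true then
        lam ζ (G.cl y) (G.cl z) m else 0) (yc M σ D (lab D y z)))
        = fun ζ => pl (lam ζ (G.cl y) (G.cl z)) (yc M σ D (lab D y z)) := by
      funext ζ
      rw [hs]
      simp only [if_true]
    show _ ≤ kX G.lo G.hi (fun ζ : C × ℤ => pl (fun m => if S (zn9 D ρ (lab D y z)) = true then
        lam ζ (G.cl y) (G.cl z) m else 0) (yc M σ D (lab D y z))) (G.pt x) + ε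
    rw [e]
    linarith

/-- CONSTANTS on the zones, per class of the sampler and classes of the pair: a functional bounded
by `v` at the classes and zone -/
theorem FamZ.const {Φ : P4 → P4 → P4 → ℝ} (v : C → C → C → Fin 9 → ℝ)
    (h : ∀ x y z, G.ok x → G.ok y → G.ok z →
      Φ x y z ≤ v (G.cl x) (G.cl y) (G.cl z) (zn9 D ρ (lab D y z))) :
    G.FamZ Φ (fun ζ c d i _ => v ζ.1 c d i) 0 := by
  intro x y z hx hy hz
  have a := h x y z hx hy hz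
  have e : (fun ζ : C × ℤ => pl (fun _ : ℤ => v ζ.1 (G.cl y) (G.cl z) (zn9 D ρ (lab D y z)))
      (yc M σ D (lab D y z)))
      = fun ζ : C × ℤ => (fun ζ' : C × ℤ => v ζ'.1 (G.cl y) (G.cl z) (zn9 D ρ (lab D y z))) ζ := by
    funext ζ
    unfold pl
    ring
  show _ ≤ kX G.lo G.hi (fun ζ : C × ℤ => pl (fun _ : ℤ => v ζ.1 (G.cl y) (G.cl z)
    (zn9 D ρ (lab D y z))) (yc M σ D (lab D y z))) (G.pt x) + 0
  rw [e, add_zero]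
  refine a.trans (le_of_eq ?_)
  have hr := (G.regX hx).one
  unfold kX
  have e2 : ∀ i ∈ nd G.lo G.hi (G.pt x).1, hat i (G.pt x).2
      * v ((G.pt x).1, i).1 (G.cl y) (G.cl z) (zn9 D ρ (lab D y z))
      = hat i (G.pt x).2 * v (G.cl x) (G.cl y) (G.cl z) (zn9 D ρ (lab D y z)) := fun _ _ => rfl
  rw [sum_congr rfl e2, ← sum_mul, hr, one_mul]

end GrdD

section jointz

variable (G : GrdD C M σ δ D K ρ kL kR) {V : ℤ} (F : Flg G.toGrd V)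

/-- zone tables: price, constant thresholds, families -/
def lam9z (g : Fin 3 → C × ℤ → Bool → ℤ → ℝ) (ca cb ce cg : C × ℤ → ℝ)
    (lamF : C × ℤ → C → C → Fin 9 → ℤ → ℝ) (ζ : C × ℤ) (c d : C) (i : Fin 9) (m : ℤ) : ℝ :=
  g9 g ζ (F.typ c) i m
    + kz (F.pole c) (F.pole d) (F.vI d) (F.vO d) (ca ζ) (cb ζ) (ce ζ) (cg ζ) (z95 i)
    + lamF ζ c d i m

/-- pair function: price, constant thresholds, families -/
def jNz (g : Fin 3 → C × ℤ → Bool → ℤ → ℝ) (ca cb ce cg : C × ℤ → ℝ)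
    (lamF : C × ℤ → C → C → Fin 9 → ℤ → ℝ) (V : ℤ) (ζ : C × ℤ) (y z : P4) : ℝ :=
  gzo M σ D ρ g ζ y.1 (lab D y z)
    + (ca ζ * kNP V (1 + ρ) y.2 z.2 + cb ζ * kNQ V (1 + ρ) y.2 z.2
      + ce ζ * kQP (D - ρ + 1) y.2 z.2 + cg ζ * kPQ (D - ρ + 1) y.2 z.2)
    + pl (lamF ζ (G.cl y) (G.cl z) (zn9 D ρ (lab D y z))) (yc M σ D (lab D y z))

/-- JOINT PAIR RULE -/
theorem j_pairPz (hρ : 1 ≤ ρ) (hρD : ρ < D)
    (hI : ∀ l, ∃ x ∈ I9 M σ kL kR (zn9 D ρ l), |yc M σ D l - x| ≤ 2 * δ)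
    {g : Fin 3 → C × ℤ → Bool → ℤ → ℝ} {ca cb ce cg : C × ℤ → ℝ}
    {lamF : C × ℤ → C → C → Fin 9 → ℤ → ℝ} {L W : C × ℤ → C → C → ℤ → ℝ} {B : ℝ}
    (hb : ∀ ζ c d i m, |lam9z G F g ca cb ce cg lamF ζ c d i m| ≤ B)
    (hL : ∀ ζ c d m, |L ζ c d m| ≤ B)
    (hz0 : ∀ ζ, ζ.2 ∈ nd G.lo G.hi ζ.1 → ∀ c d,
      Zone9 M σ kL kR (lam9z G F g ca cb ce cg lamF ζ c d) (L ζ c d))
    (hW : ∀ ζ, ζ.2 ∈ nd G.lo G.hi ζ.1 → ∀ c d, EndOK (L ζ c d) (W ζ c d)) :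
    G.PairP (jNz G g ca cb ce cg lamF V)
      (fun ζ a b => W ζ a.1 b.1 (2 * b.2 - a.2)) (14 * B * δ) := by
  have key := G.zone_pairPI hI hb hL (fun ζ hζ c d i x hx => hz0 ζ hζ c d i x hx) hW
    (Ψ := jNz G g ca cb ce cg lamF V) (ε := 0) (fun ζ _ y z hy hz => ?_)
  · rw [add_zero] at key
    exact key
  · have k := kz_le G.hD0 (by omega : 0 ≤ ρ) (V := V) (y := y) (z := z) (F.hvI z hz)
      (F.hvO z hz) (ca ζ) (cb ζ) (ce ζ) (cg ζ)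
    have e1 := g9_eq (M := M) (σ := σ) hρ hρD g ζ y.1 (lab D y z)
    have e2 : pl (lam9z G F g ca cb ce cg lamF ζ (G.cl y) (G.cl z) (zn9 D ρ (lab D y z)))
        (yc M σ D (lab D y z))
        = pl (g9 g ζ (F.typ (G.cl y)) (zn9 D ρ (lab D y z))) (yc M σ D (lab D y z))
          + kz (F.pole (G.cl y)) (F.pole (G.cl z)) (F.vI (G.cl z)) (F.vO (G.cl z)) (ca ζ)
            (cb ζ) (ce ζ) (cg ζ) (z95 (zn9 D ρ (lab D y z)))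
          + pl (lamF ζ (G.cl y) (G.cl z) (zn9 D ρ (lab D y z))) (yc M σ D (lab D y z)) := by
      unfold lam9z pl
      ring
    rw [e2, ← F.htyp y hy, e1, ← zn5_eq9 hρ hρD]
    rw [F.hpole y hy, F.hpole z hz] at k
    unfold jNz gzo
    linarith

variable {G}

/-- JOINT PART -/
theorem j_partz {g : Fin 3 → C × ℤ → Bool → ℤ → ℝ} {ca cb ce cg : C × ℤ → ℝ}
    {lamF : C × ℤ → C → C → Fin 9 → ℤ → ℝ} {W : C × ℤ → C × ℤ → C × ℤ → ℝ} {ε εF : ℝ}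
    (hW : G.PairP (jNz G g ca cb ce cg lamF V) W ε) {a b e e' : P4 → ℝ}
    (ha : ∀ x, G.ok x → a x ≤ kX G.lo G.hi ca (G.pt x))
    (hb : ∀ x, G.ok x → b x ≤ kX G.lo G.hi cb (G.pt x))
    (he : ∀ x, G.ok x → e x ≤ kX G.lo G.hi ce (G.pt x))
    (he' : ∀ x, G.ok x → e' x ≤ kX G.lo G.hi cg (G.pt x))
    {Φ : P4 → P4 → P4 → ℝ} (hΦ : G.FamZ Φ lamF εF) :
    G.Part (fun x y z => kX G.lo G.hi (fun ζ => gzo M σ D ρ g ζ y.1 (lab D y z)) (G.pt x)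
      + (a x * kNP V (1 + ρ) y.2 z.2 + b x * kNQ V (1 + ρ) y.2 z.2
        + e x * kQP (D - ρ + 1) y.2 z.2 + e' x * kPQ (D - ρ + 1) y.2 z.2) + Φ x y z) W
      (ε + εF) := by
  intro x y z hx hy hz
  have h0 := hW.part x y z hx hy hz
  have h1 := hΦ x y z hx hy hz
  beta_reduce at h0 ⊢
  unfold jNz at h0
  rw [kX_add, kX_add, kX_add, kX_add, kX_add, kX_mul_right, kX_mul_right, kX_mul_right,
    kX_mul_right] at h0
  have i1 := mul_le_mul_of_nonneg_right (ha x hx) (kNP_nonneg V (1 + ρ) y.2 z.2)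
  have i2 := mul_le_mul_of_nonneg_right (hb x hx) (kNQ_nonneg V (1 + ρ) y.2 z.2)
  have i3 := mul_le_mul_of_nonneg_right (he x hx) (kQP_nonneg (D - ρ + 1) y.2 z.2)
  have i4 := mul_le_mul_of_nonneg_right (he' x hx) (kPQ_nonneg (D - ρ + 1) y.2 z.2)
  linarith

end jointz

/-- THE ROW FROM THE TABLES -/
theorem row_tablesZ {K0 : ℤ} {f : ℝ} {P Q : WS} {V E N : ℤ} {ξR ξL : ℤ → ℝ}
    (h : EnvS K0 f P Q D K ρ V E N ξR ξL) {cl : P.ι ⊕ Q.ι → Bool} {lR lL : ℤ → Bool}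
    (ht : Typ P Q D E cl lR lL) {lo t0 t t1 : ℤ} (hNt : nearE D < t) (h0 : t0 ≤ t)
    (h1 : t ≤ t1) {n1 : P3 → ℝ} {n3 : P3 → P3 → P3 → ℝ} {C1 : ℝ}
    (hnet : T1 P Q n1 + T3 P Q n3 - C1 * K ≤ netE P Q deeper D K (K - ρ) ρ ρ V E lo t)
    {dk : P3 → P3 → P3 → ℝ} (hdk : dchE P Q deeper D ρ V E t ≤ T3 P Q dk)
    {X1 : P4 → ℝ} {X3 : P4 → P4 → P4 → ℝ} {C0 : ℝ} (hX : XF P Q cl K X1 X3 C0)
    -- frame
    (G : GrdD C M σ δ D K ρ kL kR) (F : Flg G.toGrd V) (hδ : 0 ≤ δ)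
    {W0 : Finset ℤ} (hW0 : ∀ c, nd G.lo G.hi c ⊆ W0)
    (hI : ∀ l, ∃ x ∈ I9 M σ kL kR (zn9 D ρ l), |yc M σ D l - x| ≤ 2 * δ)
    -- prices
    {g : Fin 3 → C × ℤ → Bool → ℤ → ℝ} (hg : ∀ i ζ e m, 0 ≤ g i ζ e m) {Bg : ℝ}
    (hgB : ∀ i ζ e m, |g i ζ e m| ≤ Bg)
    {hR hL : C × ℤ → ℤ → ℝ} (pR : ∀ ζ m, 0 ≤ hR ζ m) (pL : ∀ ζ m, 0 ≤ hL ζ m)
    (bR : ∀ ζ m, |hR ζ m| ≤ Bg) (bL : ∀ ζ m, |hL ζ m| ≤ Bg)
    {nR nL : ℝ} (hnR : nR ≤ M - σ) (hnRk : nR ≤ kR) (hnL : -σ ≤ nL) (hnLk : kL ≤ nL)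
    (dR1 : ∀ ζ, ζ.2 ∈ nd G.lo G.hi ζ.1 → ∀ e (x : ℝ), nR ≤ x → x ≤ kR →
      pl (g 1 ζ e) x ≤ pl (hR ζ) x)
    (dR2 : ∀ ζ, ζ.2 ∈ nd G.lo G.hi ζ.1 → ∀ e (x : ℝ), kR ≤ x → pl (g 2 ζ e) x ≤ pl (hR ζ) x)
    (dL1 : ∀ ζ, ζ.2 ∈ nd G.lo G.hi ζ.1 → ∀ e (x : ℝ), kL ≤ x → x ≤ nL →
      pl (g 1 ζ e) x ≤ pl (hL ζ) x)
    (dL0 : ∀ ζ, ζ.2 ∈ nd G.lo G.hi ζ.1 → ∀ e (x : ℝ), x ≤ kL → pl (g 0 ζ e) x ≤ pl (hL ζ) x)
    -- midpoints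
    {τ : ℤ} (hτ : 2 * σ = τ) {d : ℝ} (hd : (M:ℝ) * E / (2 * D) ≤ d) (hd0 : 0 ≤ d) (hd1 : d ≤ 1)
    {Lm Wm : C × ℤ → ℤ → ℝ} {Bm : ℝ}
    (hLm : ∀ ζ, ζ.2 ∈ nd G.lo G.hi ζ.1 → ∀ m, avN d (hR ζ) m + avN d (hL ζ) m ≤ Lm ζ m)
    (hBm : ∀ ζ m, |Lm ζ m| ≤ Bm)
    (hWm : ∀ ζ, ζ.2 ∈ nd G.lo G.hi ζ.1 → MidOK (Lm ζ) (Wm ζ))
    {st : C → C → Bool}
    (hst : ∀ y z, G.ok y → G.ok z → st (G.cl y) (G.cl z) = false →
      ¬ (y.1 = z.1 ∧ (rc D y.2 < 0 ∨ rc D z.2 < 0)) ∧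
      ¬ (y.1 = z.1 ∧ (lc D y.2 < 0 ∨ lc D z.2 < 0)))
    -- one body part
    {BB : P4 → ℝ} (hB : ∀ x : P4, InR D K x.2 →
      BB x ≤ ∑ s ∈ Ico 0 D, (G.gR g x (lR s) s + G.gL g x (lL s) s))
    {a1 : C × ℤ → ℝ} {ε1 e0 : ℝ} (he0 : 0 ≤ e0)
    (hm : ∀ x : P4, InR D K x.2 → -e0 ≤ m1tc K ρ E t0 t1 n1 BB X1 x)
    (hone : G.OneP (fun x => -(m1tc K ρ E t0 t1 n1 BB X1 x / (3 * D + 11))) a1 ε1)
    -- three body part
    {a b e e' : P4 → ℝ} {Φ Y3 : P4 → P4 → P4 → ℝ}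
    (H3 : ∀ x y z, G.ok x → G.ok y → G.ok z →
      -n3 x.2 y.2 z.2 + dk x.2 y.2 z.2 + X3 x y z
        ≤ (a x * kNP V (1 + ρ) y.2 z.2 + b x * kNQ V (1 + ρ) y.2 z.2
          + e x * kQP (D - ρ + 1) y.2 z.2 + e' x * kPQ (D - ρ + 1) y.2 z.2) + Φ x y z
          + Y3 x y z)
    {ca cb ce cg : C × ℤ → ℝ} (ha : ∀ x, G.ok x → a x ≤ kX G.lo G.hi ca (G.pt x))
    (hb : ∀ x, G.ok x → b x ≤ kX G.lo G.hi cb (G.pt x))
    (he : ∀ x, G.ok x → e x ≤ kX G.lo G.hi ce (G.pt x))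
    (he' : ∀ x, G.ok x → e' x ≤ kX G.lo G.hi cg (G.pt x))
    {lamF : C × ℤ → C → C → Fin 9 → ℤ → ℝ} {εF : ℝ} (hΦ : G.FamZ Φ lamF εF)
    {Tx : C × ℤ → C × ℤ → C × ℤ → ℝ} {εx : ℝ} (hY : G.Part Y3 Tx εx)
    -- tables
    {L W : C × ℤ → C → C → ℤ → ℝ} {B : ℝ}
    (hlb : ∀ ζ c d i m, |lam9z G F g ca cb ce cg lamF ζ c d i m| ≤ B)
    (hLb : ∀ ζ c d m, |L ζ c d m| ≤ B)
    (hz0 : ∀ ζ, ζ.2 ∈ nd G.lo G.hi ζ.1 → ∀ c d,
      Zone9 M σ kL kR (lam9z G F g ca cb ce cg lamF ζ c d) (L ζ c d))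
    (hW : ∀ ζ, ζ.2 ∈ nd G.lo G.hi ζ.1 → ∀ c d, EndOK (L ζ c d) (W ζ c d))
    -- squares
    {p : ℕ} {sg : Fin p → C × ℤ → C × ℤ → ℝ}
    (hnode : ∀ z a b : C × ℤ, z.2 ∈ nd G.lo G.hi z.1 → a.2 ∈ nd G.lo G.hi a.1 →
      b.2 ∈ nd G.lo G.hi b.1 →
      sym6 (Tcert a1 W st Wm Tx) z a b + 2 * sq3 univ sg z a b ≤ 0)
    {ε : ℝ} (hε0 : 0 ≤ ε)
    (hε : ε1 + (14 * B * δ + εF + (Bm * δ + 6 * Bg * δ)) + εx ≤ ε) {C' : ℝ}
    (hC : 18 * (K * ε) + C0 + C1 + e0 ≤ C') :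
    RowAt C' P Q D K ρ V E lo t := by
  have hK1 := h.hK1
  have hDK := h.hD
  have hKr : (10000:ℝ) ≤ K := by exact_mod_cast hK1
  have hρ1 := h.hρ
  have hρK := h.hρK
  have hρD : ρ < D := by omega
  have hBg : 0 ≤ Bg := (abs_nonneg _).trans (hgB 0 (G.cl (false, false, 0), 0) false 0)
  have hem : 0 ≤ 6 * Bg * δ := by positivity
  -- parts
  have hM0 : (0:ℤ) ≤ (M:ℤ) := Int.natCast_nonneg M
  have q1 := j_pairPz G F hρ1 hρD hI hlb hLb hz0 hW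
  have q2 := j_partz q1 ha hb he he' hΦ
  have q3 := G.mid_pairP hd0 hem hτ pR pL hLm hBm hWm hst
  have q4 := ((hone.part.add (q2.add q3.part)).add hY)
  have dR : ∀ x, ∀ e s, 0 ≤ s → s < D → G.gR g x e s
      ≤ G.mj (HR M σ D hR (6 * Bg * δ)) x s := fun x e s _ hs =>
    G.kX_le x fun ζ hζ => G.gz_le_HR hδ hgB bR hnR (by omega) hnRk (dR1 ζ hζ) (dR2 ζ hζ)
      le_rfl e hs
  have dL : ∀ x, ∀ e s, 0 ≤ s → s < D → G.gL g x e s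
      ≤ G.mj (HL M σ τ D hL (6 * Bg * δ)) x s := fun x e s _ hs =>
    G.kX_le x fun ζ hζ => G.gz_le_HL hδ hgB bL hτ hnL (by omega) hnLk (dL1 ζ hζ) (dL0 ζ hζ)
      le_rfl e hs
  have jR : ∀ x, Maj D E (G.mj (HR M σ D hR (6 * Bg * δ)) x)
      (G.mj (MR M σ D d hR (6 * Bg * δ)) x) := fun x =>
    G.mj_maj (fun ζ _ => maj_lblF G.hD0 hM0 (by push_cast; exact hd) hd0 hd1
      (fun k => add_nonneg (pR ζ _) hem)) x
  have jL : ∀ x, Maj D E (G.mj (HL M σ τ D hL (6 * Bg * δ)) x)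
      (G.mj (ML M σ τ D d hL (6 * Bg * δ)) x) := fun x =>
    G.mj_maj (fun ζ _ => maj_lblF G.hD0 hM0 (by push_cast; exact hd) hd0 hd1
      (fun k => add_nonneg (pL ζ _) hem)) x
  -- the pointwise inequality
  have q5 : G.Part (fun x y z => -(m1tc K ρ E t0 t1 n1 BB X1 x / (3 * D + 11)
      + m3t K f n3 (G.gR g) (G.mj (MR M σ D d hR (6 * Bg * δ))) (G.gL g)
        (G.mj (ML M σ τ D d hL (6 * Bg * δ))) (fun _ _ => 0) (fun _ _ _ => 0) (fun _ => 0) dk X3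
        x y z)) (Tcert a1 W st Wm Tx) ε := by
    refine (q4.congr (fun x y z hx hy hz => ?_) hε).mono (fun a b c _ _ _ => le_of_eq ?_)
    · have k1 := H3 x y z hx hy hz
      have k2 := G.cov_le9 g (MR M σ D d hR (6 * Bg * δ)) (ML M σ τ D d hL (6 * Bg * δ)) x y z
      unfold m3t
      rw [cls3_zero, ← hDK, k2]
      linarith
    · unfold Tcert
      ring
  obtain ⟨m, s, hs⟩ := Grd.point_of_part (G := G.toGrd) hW0 q5 (sg := sg) (B := 0) hnode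
  · refine row3tn h ht hNt h0 h1 hnet (γR := G.gR g) (γL := G.gL g)
      (hR := G.mj (HR M σ D hR (6 * Bg * δ))) (hL := G.mj (HL M σ τ D hL (6 * Bg * δ)))
      (fun x _ e s _ _ => G.gR_nonneg hg x e s) (fun x _ e s _ _ => G.gL_nonneg hg x e s)
      (fun x _ => dR x) (fun x _ => dL x) (fun x _ => jR x) (fun x _ => jL x) hB
      (ν := fun _ _ => 0) (fun _ _ => le_rfl) (σ := fun _ _ _ => 0) (fun _ _ _ => le_rfl)
      (o := fun _ => 0) (o0 := 0) (fun _ _ => le_rfl) (fun _ _ => le_rfl) le_rfl hdk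
      (X1 := X1) (X3 := X3) (C0 := C0) hX he0 hm univ s (c := 6 * (K * ε)) (by positivity)
      (fun x y z hx hy hz => ?_) (by linarith)
    refine (hs x y z ((G.okE x).2 hx) ((G.okE y).2 hy) ((G.okE z).2 hz)).trans (le_of_eq ?_)
    have e1 : 6 * ((K:ℝ) * ε) / K = 6 * ε := by
      field_simp
    rw [e1]
    ring

end

end MP61673a.FE
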