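import Pool.Agent.Mu673.FE5
import Pool.Agent.Mu673.Classes

/-!
UNTYPED CLASSES: what the classes know about their points (pole and position with respect to `-V`),
without the type of the element; the prices must not depend on the type.
-/

set_option autoImplicit false

namespace MP61673a.FE

open Finset MP61673a.Kink MP61673a.Bary MP61673a.Sos MP61673a.Fin

variable {C : Type}

/-- data of untyped classes -/
structure FlgU (G : Grd P4 C) (V : ℤ) where
  /-- `false` = `P` -/
  pole : C → Bool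
  /-- all points `≥ -V` -/
  vI : C → Bool
  /-- all points `< -V` -/
  vO : C → Bool
  hpole : ∀ x, G.ok x → x.2.1 = pole (G.cl x)
  hvI : ∀ x, G.ok x → vI (G.cl x) = true → -V ≤ x.2.2
  hvO : ∀ x, G.ok x → vO (G.cl x) = true → x.2.2 < -V

/-- inside flag of a class -/
def Cl.insV (q : ℤ) (c : Cl) : Bool := decide (c.bt = false ∧ -q ≤ 8 * c.na)

/-- outside flag of a class -/
def Cl.outV (q : ℤ) (c : Cl) : Bool := decide (8 * c.nb ≤ -q)

lemma Cl.insV_ge {q D K : ℤ} {c : Cl} {x : P3} (hq : 0 < q) (hD : D = 4 * K + 1) (hK : 1 ≤ K)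
    (hx : c.has q D x) (h : c.insV q = true) : -(D / 8) ≤ x.2 := by
  obtain ⟨hb, h⟩ := of_decide_eq_true h
  have h1 := mul_le_mul_of_nonneg_right h (by omega : (0:ℤ) ≤ D)
  have h2 := Cl.has_lo hx hb
  have h3 : 0 ≤ q * (8 * x.2 + D) := by linarith
  have h4 := (mul_nonneg_iff_of_pos_left hq).1 h3
  omega

lemma Cl.outV_lt {q D K : ℤ} {c : Cl} {x : P3} (hq : 0 < q) (hD : D = 4 * K + 1) (hK : 1 ≤ K)
    (hx : c.has q D x) (h : c.outV q = true) : x.2 < -(D / 8) := by
  have h := of_decide_eq_true h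
  have h1 := mul_le_mul_of_nonneg_right h (by omega : (0:ℤ) ≤ D)
  have h2 := Cl.has_hi hx
  have h3 : 0 ≤ q * (-(8 * x.2) - D) := by linarith
  have h4 := (mul_nonneg_iff_of_pos_left hq).1 h3
  omega

/-- THE FLAGS OF THE CLASSES of a cell -/
def flgU_cls {M : ℕ} {s2 q D K V : ℤ} {ds : C → Cl} {cl : P4 → C} (hq : 0 < q)
    (hD : D = 4 * K + 1) (hK : 1 ≤ K) (hrun : ∀ c, (ds c).run M s2 q)
    (hcl : ClMap ds q D K cl) (hV : V = D / 8) :
    FlgU (mkGrd hq hD hK hrun hcl).toGrd V where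
  pole := fun c => (ds c).sd
  vI := fun c => (ds c).insV q
  vO := fun c => (ds c).outV q
  hpole := fun x hx => Cl.has_sd (hcl.has x hx)
  hvI := fun x hx h => by
    rw [hV]
    exact Cl.insV_ge hq hD hK (hcl.has x hx) h
  hvO := fun x hx h => by
    rw [hV]
    exact Cl.outV_lt hq hD hK (hcl.has x hx) h

end MP61673a.FE
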