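import Pool.Agent.Mu673.FEstep
import Pool.Agent.Mu673.FE5
import Pool.Agent.Mu673.CellT

/-!
THE NET OF AN OUT CELL AS PARTS: the three-body kernel `n3c` and the deep charge `dk3c` split into
constant thresholds (with coefficients per class) and the six moving families of `FEstep`.
-/

set_option autoImplicit false

namespace MP61673a.FE

open Finset MP61673a.Kink MP61673a.Bary MP61673a.Sos MP61673a.Fin

noncomputable section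

variable {C : Type} {M : ℕ} {σ δ : ℝ} {D K ρ : ℤ} {kL kR : ℝ}

/-- class data of the three-body kernel of an OUT cell. `w1, w2` windows; costs `F1` (exotic right
label), `F2` (exotic left label), `M0, M1` (midpoints): `c*` part with the constant threshold
`1 + ρ`, `v*` part with the moving threshold; gains `vA` (form (A)), `vB` (form (B)) -/
structure FlgNet (G : GrdD C M σ δ D K ρ kL kR) (E lo t0 t1 : ℤ) (sd : C → Bool)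
    (w1 w2 cF1 vF1 cF2 vF2 cM0 vM0 cM1 vM1 vA vB : C → ℝ) : Prop where
  hsd : ∀ x, G.ok x → sd (G.cl x) = x.2.1
  hw1 : ∀ x, G.ok x → x.2.1 = false → w1 (G.cl x) ≤ bo (lo - t0 ≤ x.2.2 ∧ x.2.2 < 2 * t0)
  hw2 : ∀ x, G.ok x → x.2.1 = false → w2 (G.cl x) ≤ bo (lo - t0 ≤ x.2.2 ∧ 2 * x.2.2 < t0)
  hF1 : ∀ x, G.ok x → x.2.1 = true →
    bo ((1 ≤ x.2.2 + 2 * t1 ∧ x.2.2 + 2 * t0 ≤ 4 * K + 1) ∧ ρ ≤ x.2.2 + 2 * t1)
      ≤ cF1 (G.cl x) + vF1 (G.cl x)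
  hF2 : ∀ x, G.ok x → x.2.1 = true →
    bo ((1 ≤ 2 * x.2.2 + t1 - (4 * K + 1) ∧ 2 * x.2.2 + t0 - (4 * K + 1) ≤ 4 * K + 1)
      ∧ ρ ≤ 2 * x.2.2 + t1 - (4 * K + 1)) ≤ cF2 (G.cl x) + vF2 (G.cl x)
  hMP0 : ∀ x, G.ok x → x.2.1 = false →
    1 / 2 * bo (0 < (t1 + x.2.2 - (4 * K + 1) + 0) / 2 ∧ ρ ≤ (t1 + x.2.2 - (4 * K + 1) + 0) / 2)
      ≤ cM0 (G.cl x) + vM0 (G.cl x)
  hMP1 : ∀ x, G.ok x → x.2.1 = false →
    1 / 2 * bo (0 < (t1 + x.2.2 - (4 * K + 1) + E) / 2 ∧ ρ ≤ (t1 + x.2.2 - (4 * K + 1) + E) / 2)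
      ≤ cM1 (G.cl x) + vM1 (G.cl x)
  hMQ0 : ∀ x, G.ok x → x.2.1 = true →
    1 / 2 * omc t1 x.2.2 * bo (0 < (t1 - x.2.2 + 0) / 2 ∧ ρ ≤ (t1 - x.2.2 + 0) / 2)
      ≤ cM0 (G.cl x) + vM0 (G.cl x)
  hMQ1 : ∀ x, G.ok x → x.2.1 = true →
    1 / 2 * omc t1 x.2.2 * bo (0 < (t1 - x.2.2 + E) / 2 ∧ ρ ≤ (t1 - x.2.2 + E) / 2)
      ≤ cM1 (G.cl x) + vM1 (G.cl x)
  hAP : ∀ x, G.ok x → x.2.1 = false → vA (G.cl x) ≤ bo (2 * t0 ≤ x.2.2)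
  hAQ : ∀ x, G.ok x → x.2.1 = true →
    vA (G.cl x) ≤ bo (1 ≤ x.2.2 + 2 * t1 ∧ x.2.2 + 2 * t0 ≤ 4 * K + 1)
  hBP : ∀ x, G.ok x → x.2.1 = false → vB (G.cl x) ≤ bo (t0 ≤ 2 * x.2.2)
  hBQ : ∀ x, G.ok x → x.2.1 = true →
    vB (G.cl x) ≤ bo (1 ≤ 2 * x.2.2 + t1 - (4 * K + 1) ∧ 2 * x.2.2 + t0 - (4 * K + 1) ≤ 4 * K + 1)
  nonneg : ∀ c, 0 ≤ w1 c ∧ 0 ≤ w2 c ∧ 0 ≤ cF1 c ∧ 0 ≤ vF1 c ∧ 0 ≤ cF2 c ∧ 0 ≤ vF2 c ∧ 0 ≤ cM0 c
    ∧ 0 ≤ vM0 c ∧ 0 ≤ cM1 c ∧ 0 ≤ vM1 c ∧ 0 ≤ vA c ∧ 0 ≤ vB c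
  zP : ∀ c, sd c = false → cF1 c = 0 ∧ vF1 c = 0 ∧ cF2 c = 0 ∧ vF2 c = 0
  zQ : ∀ c, sd c = true → w1 c = 0 ∧ w2 c = 0

/-- a cost step with a split weight -/
lemma split_cost {b c v k kc kv : ℝ} (hb : b ≤ c + v) (hc : 0 ≤ c) (hv : 0 ≤ v) (hk : 0 ≤ k)
    (h1 : k ≤ kc) (h2 : k ≤ kv) : b * k ≤ c * kc + v * kv := by
  have a1 := mul_le_mul_of_nonneg_right hb hk
  have a2 := mul_le_mul_of_nonneg_left h1 hc
  have a3 := mul_le_mul_of_nonneg_left h2 hv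
  linarith

/-- THE NET KERNEL OF AN OUT CELL, term by term -/
theorem n3c_parts {G : GrdD C M σ δ D K ρ kL kR} {V E lo t0 t1 : ℤ} (hD : D = 4 * K + 1)
    {sd : C → Bool} {w1 w2 cF1 vF1 cF2 vF2 cM0 vM0 cM1 vM1 vA vB : C → ℝ}
    (h : FlgNet G E lo t0 t1 sd w1 w2 cF1 vF1 cF2 vF2 cM0 vM0 cM1 vM1 vA vB)
    (x y z : P4) (hx : G.ok x) :
    -(n3c K ρ V E lo t0 t1 x.2 y.2 z.2)
      ≤ (cF1 (G.cl x) + cM0 (G.cl x) + cM1 (G.cl x) - w1 (G.cl x)) * kNP V (1 + ρ) y.2 z.2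
        + (cF2 (G.cl x) - w2 (G.cl x)) * kNQ V (1 + ρ) y.2 z.2
        + vF1 (G.cl x) * (fPP V y z * bo (2 * lc D x.2 + lab D y z ≤ cA D K ρ t1))
        + vF2 (G.cl x) * (fQQ V y z * bo (cB D K ρ t1 ≤ -4 * lc D x.2 + lab D y z))
        + vM0 (G.cl x) * (fPP V y z * bo (-1 * lc D x.2 + lab D y z ≤ cC D K ρ t1))
        + vM1 (G.cl x) * (fPP V y z * bo (-1 * lc D x.2 + lab D y z ≤ cC D K ρ (t1 + E)))
        - vA (G.cl x) * (fPQ y z * bo (2 * lc D x.2 + lab D y z ≤ cA D K ρ t0))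
        - vB (G.cl x) * (fQP y z * bo (cB D K ρ t0 ≤ -4 * lc D x.2 + lab D y z)) := by
  have hsd := h.hsd x hx
  obtain ⟨n1, n2, n3, n4, n5, n6, n7, n8, n9, n10, n11, n12⟩ := h.nonneg (G.cl x)
  have kN := kNP_nonneg V (1 + ρ) y.2 z.2
  have kM := kNQ_nonneg V (1 + ρ) y.2 z.2
  rcases hs : x.2.1 with _ | _
  · -- side P
    rw [hs] at hsd
    obtain ⟨z1, z2, z3, z4⟩ := h.zP _ hsd
    have a1 := mul_le_mul_of_nonneg_right (h.hw1 x hx hs) kN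
    have a2 := mul_le_mul_of_nonneg_right (h.hw2 x hx hs) kM
    have g1 := famG1 (D := D) (K := K) (ρ := ρ) (y := y) (z := z) hs (t := t0)
    have g2 := famG2 (D := D) (K := K) (ρ := ρ) (y := y) (z := z) hs (t := t0)
    have b1 := mul_le_mul_of_nonneg_right (h.hAP x hx hs)
      (kPQ_nonneg (2 * K + 1 + ρ + 2 * (x.2.2 - 2 * t0)) y.2 z.2)
    have b2 := mul_le_mul_of_nonneg_right (h.hBP x hx hs)
      (kQP_nonneg (2 * K + 1 + ρ + 2 * (2 * x.2.2 - t0)) y.2 z.2)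
    rw [g1] at b1
    rw [g2] at b2
    have f0 : kNP V (thr K ρ ((t1 + x.2.2 - (4 * K + 1) + 0) / 2)) y.2 z.2
        ≤ fPP V y z * bo (-1 * lc D x.2 + lab D y z ≤ cC D K ρ t1) := by
      have := famF4 (D := D) (K := K) (ρ := ρ) (V := V) (y := y) (z := z) hs (t := t1) (e := 0)
      rw [add_zero t1] at this
      rw [← hD]
      exact this
    have f1 : kNP V (thr K ρ ((t1 + x.2.2 - (4 * K + 1) + E) / 2)) y.2 z.2
        ≤ fPP V y z * bo (-1 * lc D x.2 + lab D y z ≤ cC D K ρ (t1 + E)) := by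
      rw [← hD]
      exact famF4 (D := D) (K := K) (ρ := ρ) (V := V) (y := y) (z := z) hs (t := t1) (e := E)
    have c0 := split_cost (h.hMP0 x hx hs) n7 n8
      (kNP_nonneg V (thr K ρ ((t1 + x.2.2 - (4 * K + 1) + 0) / 2)) y.2 z.2)
      (famF_const _ y z) f0
    have c1 := split_cost (h.hMP1 x hx hs) n9 n10
      (kNP_nonneg V (thr K ρ ((t1 + x.2.2 - (4 * K + 1) + E) / 2)) y.2 z.2)
      (famF_const _ y z) f1
    unfold n3c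
    rw [if_pos hs, z1, z2, z3, z4, g1, g2]
    linarith
  · -- side Q
    rw [hs] at hsd
    obtain ⟨z1, z2⟩ := h.zQ _ hsd
    have g1 := famG1' (D := D) (K := K) (ρ := ρ) (y := y) (z := z) hD hs (t := t0)
    have g2 := famG2' (D := D) (K := K) (ρ := ρ) (y := y) (z := z) hD hs (t := t0)
    have b1 := mul_le_mul_of_nonneg_right (h.hAQ x hx hs)
      (kPQ_nonneg (2 * K + 1 + ρ + 2 * (4 * K + 1 - (x.2.2 + 2 * t0))) y.2 z.2)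
    have b2 := mul_le_mul_of_nonneg_right (h.hBQ x hx hs)
      (kQP_nonneg (2 * K + 1 + ρ + 2 * (4 * K + 1 - (2 * x.2.2 + t0 - (4 * K + 1)))) y.2 z.2)
    rw [g1] at b1
    rw [g2] at b2
    have e1 := famF1 (D := D) (K := K) (ρ := ρ) (V := V) (y := y) (z := z) hs (t := t1)
    have e2 : kNQ V (thr K ρ (2 * x.2.2 + t1 - (4 * K + 1))) y.2 z.2
        ≤ fQQ V y z * bo (cB D K ρ t1 ≤ -4 * lc D x.2 + lab D y z) := by
      rw [← hD]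
      exact famF2 (D := D) (K := K) (ρ := ρ) (V := V) (y := y) (z := z) hs (t := t1)
    have f0 := famF3 (D := D) (K := K) (ρ := ρ) (V := V) (y := y) (z := z) hs (t := t1) (e := 0)
    have f1 := famF3 (D := D) (K := K) (ρ := ρ) (V := V) (y := y) (z := z) hs (t := t1) (e := E)
    rw [add_zero t1] at f0
    have d1 := split_cost (h.hF1 x hx hs) n3 n4
      (kNP_nonneg V (thr K ρ (x.2.2 + 2 * t1)) y.2 z.2) (famF_const _ y z) e1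
    have d2 := split_cost (h.hF2 x hx hs) n5 n6
      (kNQ_nonneg V (thr K ρ (2 * x.2.2 + t1 - (4 * K + 1))) y.2 z.2) (famF_constQ _ y z) e2
    have c0 := split_cost (h.hMQ0 x hx hs) n7 n8
      (kNP_nonneg V (thr K ρ ((t1 - x.2.2 + 0) / 2)) y.2 z.2) (famF_const _ y z) f0
    have c1 := split_cost (h.hMQ1 x hx hs) n9 n10
      (kNP_nonneg V (thr K ρ ((t1 - x.2.2 + E) / 2)) y.2 z.2) (famF_const _ y z) f1
    unfold n3c
    rw [if_neg (by rw [hs]; simp), z1, z2, g1, g2]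
    linarith

end

end MP61673a.FE
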