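import Pool.Agent.Mu673.Cell3In

/-!
THE NET OF AN IN STRAY AT THE DEPTH `t` OF A CELL (helper56). As `n1inc`, `n3inc` of `Cell3In`, but
the lower end `w = lo - t` of the windows is the exact one (no cost for the points of `P` whose depth
lies in the cell), and the upper ends `c1`, `c2` of the windows are free integers with
`2 t0 - 2 ≤ c1 ≤ 2 t0`, `t0 - 2 ≤ 2 c2 ≤ t0 + 1`, so that rational classes can be exact.
-/

set_option autoImplicit false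

namespace MP61673a.Fin

open Finset MP61673a.W MP61673a.LiftW MP61673a.Mids MP61673a.Sos
open MP61673a.Lift hiding PP QQ

noncomputable section

/-- one-body part of the net of an IN stray, cell version with free ends of the windows -/
def n1inw (K ρ E w t0 t1 c1 c2 : ℤ) (x : P3) : ℝ :=
  if x.1 = false then
    (K - ρ + 1) * (bo (w ≤ x.2 ∧ x.2 < c1) + bo (w ≤ x.2 ∧ x.2 < c2))
      - 1 / 2 * (bo (0 < (t1 + x.2 - (4 * K + 1) + 0) / 2)
          * kvr K ρ ((t1 + x.2 - (4 * K + 1) + 0) / 2)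
        + bo (0 < (t1 + x.2 - (4 * K + 1) + E) / 2)
          * kvr K ρ ((t1 + x.2 - (4 * K + 1) + E) / 2))
  else
    -(bo (1 ≤ 2 * x.2 + t1 - (4 * K + 1) ∧ 2 * x.2 + t0 - (4 * K + 1) ≤ 4 * K + 1)
        * kvr K ρ (2 * x.2 + t1 - (4 * K + 1)))
      - 1 / 2 * omc t1 x.2 * (bo (0 < (t1 - x.2 + 0) / 2) * kvr K ρ ((t1 - x.2 + 0) / 2)
        + bo (0 < (t1 - x.2 + E) / 2) * kvr K ρ ((t1 - x.2 + E) / 2))

/-- three-body part of the net of an IN stray, cell version with free ends of the windows -/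
def n3inw (K ρ V E w t0 t1 c1 c2 : ℤ) (x y z : P3) : ℝ :=
  if x.1 = false then
    bo (w ≤ x.2 ∧ x.2 < c1) * (kNP V (1 + ρ) y z - kKK K ρ x.2 (-t1) y z)
      + bo (w ≤ x.2 ∧ x.2 < c2) * (kNQ V (1 + ρ) y z - kKK' K ρ (-t1) x.2 y z)
      + bo (c1 ≤ x.2) * kKCc K ρ x.2 (-t0) (-t1) y z
      + bo (c2 ≤ x.2) * kKCc' K ρ (-t0) (-t1) x.2 y z
      - mP3 K ρ V E t1 x.2 y z
  else
    bo (1 ≤ x.2 + 2 * t0 ∧ x.2 + 2 * t1 ≤ 4 * K + 1)
        * kPQ (2 * K + 1 + ρ + 2 * (4 * K + 1 - (x.2 + 2 * t0))) y z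
      + bo (1 + ρ ≤ x.2 + 2 * t0)
        * (kQP (4 * K + 1 - K + min ((x.2 + 2 * t1 - ρ + 1) / 2) (K - ρ + 1)) y z
          - kQP (4 * K + 1 - K + (K - ρ + 1)) y z)
      - bo ((1 ≤ 2 * x.2 + t1 - (4 * K + 1) ∧ 2 * x.2 + t0 - (4 * K + 1) ≤ 4 * K + 1)
          ∧ ρ ≤ 2 * x.2 + t1 - (4 * K + 1))
        * kNQ V (thr K ρ (2 * x.2 + t1 - (4 * K + 1))) y z
      - 1 / 2 * omc t1 x.2 * mQ3 K ρ V E t1 x.2 y z

/-- points of the other side: in sum over the pairs of the two other points -/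
lemma in_cell_Pw {K0 : ℤ} {f : ℝ} {P Q : WS} {D K ρ V E N : ℤ} {ξR ξL : ℤ → ℝ}
    (h : EnvS K0 f P Q D K ρ V E N ξR ξL) {lo t0 t t1 w c1 c2 : ℤ} (hlo : lo ≤ 1)
    (ht0 : 2 ≤ t0) (hwt : w = lo - t) (h0 : t0 ≤ t) (h1 : t ≤ t1)
    (hc1 : 2 * t0 - 2 ≤ c1) (hc1' : c1 ≤ 2 * t0) (hc2 : t0 - 2 ≤ 2 * c2) (hc2' : 2 * c2 ≤ t0 + 1)
    (hw : 2 * (t1 - t0) + 2 ≤ 3 * nearE D) (u : ℤ) :
    n1inw K ρ E w t0 t1 c1 c2 (false, u) + T2 P Q (n3inw K ρ V E w t0 t1 c1 c2 (false, u)) - 2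
      ≤ n1in K ρ E lo t (false, u) + T2 P Q (n3in K ρ V E lo t (false, u)) := by
  have gP := h.gP
  have gQ := h.gQ
  have hρK := h.hρK
  have hρ1 := h.hρ
  have hD := h.hD
  have hK1 := h.hK1
  have hT : (0:ℝ) ≤ K - ρ + 1 := by exact_mod_cast (by omega : (0:ℤ) ≤ K - ρ + 1)
  -- abbreviations
  set NP := nn P (1 + ρ) with hNP
  set NQ := nn Q (1 + ρ) with hNQ
  have nP := nn_nonneg gP (1 + ρ)
  have nQ := nn_nonneg gQ (1 + ρ)
  -- the exact kernels of the pairs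
  have eA : T2 P Q (n3in K ρ V E lo t (false, u))
      = (bo (lo - t ≤ u ∧ u < 2 * t) * (NP - KKE P Q K (K - ρ) ρ u (-t))
      + bo (lo - t ≤ u ∧ 2 * u < t) * (NQ - KKE Q P K (K - ρ) ρ (-t) u)
      + bo (2 * t ≤ u) * KCE P Q K (K - ρ) ρ u (-t)
      + bo (t ≤ 2 * u) * KCE Q P K (K - ρ) ρ (-t) u)
      - T2 P Q (mP3 K ρ V E t u) := by
    have e : n3in K ρ V E lo t (false, u) = fun y z =>
        (bo (lo - t ≤ u ∧ u < 2 * t) * (kNP V (1 + ρ) y z - kKK K ρ u (-t) y z)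
        + bo (lo - t ≤ u ∧ 2 * u < t) * (kNQ V (1 + ρ) y z - kKK' K ρ (-t) u y z)
        + bo (2 * t ≤ u) * kKC K ρ u (-t) y z
        + bo (t ≤ 2 * u) * kKC' K ρ (-t) u y z) - mP3 K ρ V E t u y z := by
      funext y z
      unfold n3in mP3
      rw [if_pos rfl]
    rw [e]
    refine T2_sub' P Q _ _ (T2_add' P Q _ _ (T2_add' P Q _ _ (T2_add' P Q _ _ ?_ ?_) ?_) ?_) rfl
    · exact T2_mul' P Q _ _ (T2_sub' P Q _ _ (T2_kNP h.dP _) (T2_kKK P Q _ _ _ _))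
    · exact T2_mul' P Q _ _ (T2_sub' P Q _ _ (T2_kNQ h.dQ _) (T2_kKK' P Q _ _ _ _))
    · exact T2_mul' P Q _ _ (T2_kKC P Q _ _ _ _)
    · exact T2_mul' P Q _ _ (T2_kKC' P Q _ _ _ _)
  have eB : T2 P Q (n3inw K ρ V E w t0 t1 c1 c2 (false, u))
      = (bo (w ≤ u ∧ u < c1) * (NP - KKE P Q K (K - ρ) ρ u (-t1))
      + bo (w ≤ u ∧ u < c2) * (NQ - KKE Q P K (K - ρ) ρ (-t1) u)
      + bo (c1 ≤ u) * T2 P Q (kKCc K ρ u (-t0) (-t1))
      + bo (c2 ≤ u) * T2 P Q (kKCc' K ρ (-t0) (-t1) u))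
      - T2 P Q (mP3 K ρ V E t1 u) := by
    have e : n3inw K ρ V E w t0 t1 c1 c2 (false, u) = fun y z =>
        (bo (w ≤ u ∧ u < c1) * (kNP V (1 + ρ) y z - kKK K ρ u (-t1) y z)
        + bo (w ≤ u ∧ u < c2) * (kNQ V (1 + ρ) y z - kKK' K ρ (-t1) u y z)
        + bo (c1 ≤ u) * kKCc K ρ u (-t0) (-t1) y z
        + bo (c2 ≤ u) * kKCc' K ρ (-t0) (-t1) u y z) - mP3 K ρ V E t1 u y z := by
      funext y z
      unfold n3inw
      rw [if_pos rfl]
    rw [e]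
    refine T2_sub' P Q _ _ (T2_add' P Q _ _ (T2_add' P Q _ _ (T2_add' P Q _ _ ?_ ?_) ?_) ?_) rfl
    · exact T2_mul' P Q _ _ (T2_sub' P Q _ _ (T2_kNP h.dP _) (T2_kKK P Q _ _ _ _))
    · exact T2_mul' P Q _ _ (T2_sub' P Q _ _ (T2_kNQ h.dQ _) (T2_kKK' P Q _ _ _ _))
    · exact T2_mul' P Q _ _ rfl
    · exact T2_mul' P Q _ _ rfl
  have m3 := T2_mono gP gQ (fun y z => mP3_mono K ρ V E u h1 y z)
  -- comparisons of the pair numbers
  have k1 : KKE P Q K (K - ρ) ρ u (-t) ≤ KKE P Q K (K - ρ) ρ u (-t1) := by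
    rw [← T2_kKK, ← T2_kKK]
    exact T2_mono gP gQ (fun y z => kKK_mono K ρ u (by omega) y z)
  have k1' : KKE Q P K (K - ρ) ρ (-t) u ≤ KKE Q P K (K - ρ) ρ (-t1) u := by
    rw [← T2_kKK', ← T2_kKK']
    exact T2_mono gP gQ (fun y z => kKK'_mono K ρ u (by omega) y z)
  have k2 : T2 P Q (kKCc K ρ u (-t0) (-t1)) ≤ KCE P Q K (K - ρ) ρ u (-t) := by
    rw [← T2_kKC]
    exact T2_mono gP gQ (fun y z => kKCc_le K ρ u (by omega) (by omega) y z)
  have k2' : T2 P Q (kKCc' K ρ (-t0) (-t1) u) ≤ KCE Q P K (K - ρ) ρ (-t) u := by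
    rw [← T2_kKC']
    exact T2_mono gP gQ (fun y z => kKCc'_le K ρ u (by omega) (by omega) y z)
  have k3 := KKE_add_KCE P Q K (K - ρ) ρ u (-t)
  have k3' := KKE_add_KCE Q P K (K - ρ) ρ (-t) u
  have k4 : -(6 * nearE D) ≤ 2 * (u + 2 * -t) →
      dd P Q (2 * K + 1 + ρ + 2 * (u + 2 * -t)) ≤ K - ρ + 1 + NP + 1 := fun hh =>
    (dd_anti gP gQ (by omega)).trans h.pxR
  have k4' : -(6 * nearE D) ≤ 2 * (-t + 2 * u) →
      dd Q P (2 * K + 1 + ρ + 2 * (-t + 2 * u)) ≤ K - ρ + 1 + NQ + 1 := fun hh =>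
    (dd_anti gQ gP (by omega)).trans h.pxL
  -- one-body parts
  have o1 : n1in K ρ E lo t (false, u)
      = (K - ρ + 1) * (bo (lo - t ≤ u ∧ u < 2 * t) + bo (lo - t ≤ u ∧ 2 * u < t))
        - 1 / 2 * (bo (0 < (t + u - (4 * K + 1) + 0) / 2)
            * kvr K ρ ((t + u - (4 * K + 1) + 0) / 2)
          + bo (0 < (t + u - (4 * K + 1) + E) / 2)
            * kvr K ρ ((t + u - (4 * K + 1) + E) / 2)) := by
    unfold n1in
    rw [if_pos rfl]
  have o2 : n1inw K ρ E w t0 t1 c1 c2 (false, u)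
      = (K - ρ + 1) * (bo (w ≤ u ∧ u < c1) + bo (w ≤ u ∧ u < c2))
        - 1 / 2 * (bo (0 < (t1 + u - (4 * K + 1) + 0) / 2)
            * kvr K ρ ((t1 + u - (4 * K + 1) + 0) / 2)
          + bo (0 < (t1 + u - (4 * K + 1) + E) / 2)
            * kvr K ρ ((t1 + u - (4 * K + 1) + E) / 2)) := by
    unfold n1inw
    rw [if_pos rfl]
  have v1 := bo_mul_mono (p := 0 < (t + u - (4 * K + 1) + 0) / 2)
    (q := 0 < (t1 + u - (4 * K + 1) + 0) / 2) (fun h => by omega)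
    (kvr_mono K ρ (show (t + u - (4 * K + 1) + 0) / 2 ≤ (t1 + u - (4 * K + 1) + 0) / 2
      by omega)) (kvr_nonneg _ _ _)
  have v2 := bo_mul_mono (p := 0 < (t + u - (4 * K + 1) + E) / 2)
    (q := 0 < (t1 + u - (4 * K + 1) + E) / 2) (fun h => by omega)
    (kvr_mono K ρ (show (t + u - (4 * K + 1) + E) / 2 ≤ (t1 + u - (4 * K + 1) + E) / 2
      by omega)) (kvr_nonneg _ _ _)
  rw [eA, eB, o1, o2]
  -- right part
  have hR : (K - ρ + 1) * bo (w ≤ u ∧ u < c1)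
        + bo (w ≤ u ∧ u < c1) * (NP - KKE P Q K (K - ρ) ρ u (-t1))
        + bo (c1 ≤ u) * T2 P Q (kKCc K ρ u (-t0) (-t1)) - 1
      ≤ (K - ρ + 1) * bo (lo - t ≤ u ∧ u < 2 * t)
        + bo (lo - t ≤ u ∧ u < 2 * t) * (NP - KKE P Q K (K - ρ) ρ u (-t))
        + bo (2 * t ≤ u) * KCE P Q K (K - ρ) ρ u (-t) := by
    unfold bo
    by_cases d1 : w ≤ u
    · by_cases d2 : u < c1
      · rw [if_pos ⟨d1, d2⟩, if_neg (by omega), if_pos (by omega), if_neg (by omega)]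
        linarith
      · rw [if_neg (by omega), if_pos (by omega)]
        by_cases c3 : u < 2 * t
        · rw [if_pos (by omega), if_neg (by omega)]
          have := k4 (by omega)
          linarith
        · rw [if_neg (by omega), if_pos (by omega)]
          linarith
    · rw [if_neg (by omega), if_neg (by omega), if_neg (by omega), if_neg (by omega)]
      linarith
  have hL : (K - ρ + 1) * bo (w ≤ u ∧ u < c2)
        + bo (w ≤ u ∧ u < c2) * (NQ - KKE Q P K (K - ρ) ρ (-t1) u)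
        + bo (c2 ≤ u) * T2 P Q (kKCc' K ρ (-t0) (-t1) u) - 1
      ≤ (K - ρ + 1) * bo (lo - t ≤ u ∧ 2 * u < t)
        + bo (lo - t ≤ u ∧ 2 * u < t) * (NQ - KKE Q P K (K - ρ) ρ (-t) u)
        + bo (t ≤ 2 * u) * KCE Q P K (K - ρ) ρ (-t) u := by
    unfold bo
    by_cases d1 : w ≤ u
    · by_cases d2 : u < c2
      · rw [if_pos ⟨d1, d2⟩, if_neg (by omega), if_pos (by omega), if_neg (by omega)]
        linarith
      · rw [if_neg (by omega), if_pos (by omega)]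
        by_cases c3 : 2 * u < t
        · rw [if_pos (by omega), if_neg (by omega)]
          have := k4' (by omega)
          linarith
        · rw [if_neg (by omega), if_pos (by omega)]
          linarith
    · rw [if_neg (by omega), if_neg (by omega), if_neg (by omega), if_neg (by omega)]
      linarith
  linarith

/-- THE NET OF AN IN STRAY AT THE DEPTH `t` OF THE CELL, exact lower end of the windows -/
theorem net_in_w {K0 : ℤ} {f : ℝ} {P Q : WS} {D K ρ V E N : ℤ} {ξR ξL : ℤ → ℝ}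
    (h : EnvS K0 f P Q D K ρ V E N ξR ξL) {lo t0 t t1 w c1 c2 : ℤ} (hlo0 : 0 ≤ lo)
    (hlo : lo ≤ 1) (ht0 : 2 ≤ t0) (hwt : w = lo - t) (h0 : t0 ≤ t) (h1 : t ≤ t1)
    (hc1 : 2 * t0 - 2 ≤ c1) (hc1' : c1 ≤ 2 * t0) (hc2 : t0 - 2 ≤ 2 * c2) (hc2' : 2 * c2 ≤ t0 + 1)
    (hNt : nearE D < t) (hVt : t ≤ V) (hw : 2 * (t1 - t0) + 2 ≤ 3 * nearE D) :
    T1 P Q (n1inw K ρ E w t0 t1 c1 c2) + T3 P Q (n3inw K ρ V E w t0 t1 c1 c2) - 2 * K
      ≤ netE P Q deeper D K (K - ρ) ρ ρ V E lo t := by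
  have e := net_in_T h (lo := lo) (t := t) hlo0 hlo hNt hVt
  have hρK := h.hρK
  have hρ1 := h.hρ
  have hK1 := h.hK1
  have hD := h.hD
  have hKr : (10000:ℝ) ≤ K := by exact_mod_cast h.hK1
  have hDr : (D:ℝ) = 4 * K + 1 := by exact_mod_cast hD
  have mP := mass_nonneg h.gP
  have mQ := mass_nonneg h.gQ
  have hS := h.sq_le
  have hSK : mass P + mass Q ≤ K := by
    have h1 : (mass P + mass Q) ^ 2 ≤ (K:ℝ) ^ 2 := by
      rw [hDr] at hS
      nlinarith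
    by_contra h2
    push Not at h2
    nlinarith
  have main : T1 P Q (fun x => n1inw K ρ E w t0 t1 c1 c2 x
        + T2 P Q (n3inw K ρ V E w t0 t1 c1 c2 x)) - 2 * (mass P + mass Q)
      ≤ T1 P Q (fun x => n1in K ρ E lo t x + T2 P Q (n3in K ρ V E lo t x)) := by
    rw [← T1_const P Q 2, ← T1_sub P Q (fun x => n1inw K ρ E w t0 t1 c1 c2 x
      + T2 P Q (n3inw K ρ V E w t0 t1 c1 c2 x))]
    refine h.toEnv.T1_mono fun x _ => ?_
    obtain ⟨b, u⟩ := x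
    cases b with
    | false => exact in_cell_Pw h hlo ht0 hwt h0 h1 hc1 hc1' hc2 hc2' hw u
    | true =>
      have q1 := fun y z => (in_cell_Q (K := K) (ρ := ρ) (V := V) (E := E) (lo := lo)
        (by omega) h0 h1 u y z).2
      have q2 := (in_cell_Q (K := K) (ρ := ρ) (V := V) (E := E) (lo := lo)
        (by omega) h0 h1 u (false, 0) (false, 0)).1
      have q3 := T2_mono h.gP h.gQ q1
      have e1 : n1inw K ρ E w t0 t1 c1 c2 (true, u) = n1inc K ρ E lo t0 t1 (true, u) := by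
        unfold n1inw n1inc
        rw [if_neg (by simp), if_neg (by simp)]
      have e2 : n3inw K ρ V E w t0 t1 c1 c2 (true, u) = n3inc K ρ V E lo t0 t1 (true, u) := by
        funext y z
        unfold n3inw n3inc
        rw [if_neg (by simp), if_neg (by simp)]
      rw [e1, e2]
      linarith
  rw [T1_add P Q (n1inw K ρ E w t0 t1 c1 c2), ← T3_eq, T1_add P Q (n1in K ρ E lo t),
    ← T3_eq] at main
  linarith

end

end MP61673a.Fin
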