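import Pool.Agent.Mu673.FEz
import Pool.Agent.Mu673.FEnet
import Pool.Agent.Mu673.NetW

/-!
THE PAIR KERNELS OF AN IN CELL IN THE EXCHANGE FORM (helper56). The windows `[-D, -1 - ρ]`,
`(2 D - xR, 2 D]` (first kind) and `(D + ρ, 2 D]`, `[-D, xL - D)` (second kind) of the labels are
added to the prices of a sampler of `P`; together with them the kernels `kKK`, `kKK'` become
constants of the label zones and gains `kKCc`, `kKCc'` which are moved to the samplers of `Q`.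
Everything is a function of the label `lab D y z` with thresholds constant or moving with the
sampler.
-/

set_option autoImplicit false

namespace MP61673a.FE

open Finset MP61673a.Kink MP61673a.Bary MP61673a.Sos MP61673a.Fin

noncomputable section

section alg

/-- the sampler lies in the window `[w, c)` of `P` -/
def bW (w c : ℤ) (x : P3) : ℝ := bo (x.1 = false ∧ w ≤ x.2 ∧ x.2 < c)

/-- the sampler lies in `[w, ∞)` of `P` -/
def bI (w : ℤ) (x : P3) : ℝ := bo (x.1 = false ∧ w ≤ x.2)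

/-- right moving end of the first window -/
def xRw (K ρ t1 : ℤ) (x : P3) : ℤ := 2 * K + 1 + ρ + 2 * (x.2 - 2 * t1)

/-- left moving end of the second window -/
def xLw (K ρ t1 : ℤ) (x : P3) : ℤ := 2 * K + 1 + ρ + 2 * (2 * x.2 - t1)

/-- additional prices of the right labels -/
def winR (D K ρ w c1 c2 t1 : ℤ) (x : P3) (s : ℤ) : ℝ :=
  bW w c1 x * bo (0 ≤ s ∧ s < xRw K ρ t1 x) + bW w c2 x * bo (0 ≤ s ∧ s < D - ρ)

/-- additional prices of the left labels -/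
def winL (D K ρ w c1 c2 t1 : ℤ) (x : P3) (s : ℤ) : ℝ :=
  bW w c1 x * bo (0 ≤ s ∧ s < D - ρ) + bW w c2 x * bo (0 ≤ s ∧ s < xLw K ρ t1 x)

/-- the additional prices as a function of the label -/
def winN (D K ρ w c1 c2 t1 : ℤ) (x : P3) (l : ℤ) : ℝ :=
  bW w c1 x * (bo (-D ≤ l ∧ l ≤ -1 - ρ) + bo (2 * D - xRw K ρ t1 x < l ∧ l ≤ 2 * D))
    + bW w c2 x * (bo (D + ρ < l ∧ l ≤ 2 * D) + bo (-D ≤ l ∧ l < xLw K ρ t1 x - D))

/-- the end point labels of a pair through the additional prices -/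
lemma win_gdep {D K ρ w c1 c2 t1 : ℤ} (hD : D = 4 * K + 1) (hK : 0 ≤ K) (hρ : 0 ≤ ρ)
    (hρK : ρ ≤ K) (hc1 : c1 ≤ 2 * t1) (hc2 : 2 * c2 ≤ t1 + 1) (x : P3) (l : ℤ) :
    gdep D (winR D K ρ w c1 c2 t1 x) (l - D) + gdep D (winL D K ρ w c1 c2 t1 x) (-l)
      = winN D K ρ w c1 c2 t1 x l := by
  -- the moving ends are less than `D`
  have hR : bW w c1 x ≠ 0 → xRw K ρ t1 x < D := by
    intro h
    unfold bW at h
    by_cases c : x.1 = false ∧ w ≤ x.2 ∧ x.2 < c1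
    · unfold xRw
      omega
    · rw [bo_false c] at h
      exact absurd rfl h
  have hL : bW w c2 x ≠ 0 → xLw K ρ t1 x < D := by
    intro h
    unfold bW at h
    by_cases c : x.1 = false ∧ w ≤ x.2 ∧ x.2 < c2
    · unfold xLw
      omega
    · rw [bo_false c] at h
      exact absurd rfl h
  unfold gdep winR winL winN
  by_cases h1 : bW w c1 x = 0
  · by_cases h2 : bW w c2 x = 0
    · rw [h1, h2]
      simp
    · have hx := hL h2
      rw [h1]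
      simp only [zero_mul, zero_add]
      unfold bo
      split_ifs <;> first | omega | simp
  · have hx := hR h1
    by_cases h2 : bW w c2 x = 0
    · rw [h2]
      simp only [zero_mul, add_zero]
      unfold bo
      split_ifs <;> first | omega | simp
    · have hx' := hL h2
      by_cases d1 : 1 ≤ l - D ∧ l - D ≤ D
      · rw [if_pos d1, if_neg (by omega), add_zero]
        rw [bo_false (show ¬ (-D ≤ l ∧ l ≤ -1 - ρ) by omega),
          bo_false (show ¬ (-D ≤ l ∧ l < xLw K ρ t1 x - D) by omega)]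
        unfold bo
        split_ifs <;> first | omega | simp
      · rw [if_neg d1, zero_add]
        by_cases d2 : 1 ≤ -l ∧ -l ≤ D
        · rw [if_pos d2]
          rw [bo_false (show ¬ (2 * D - xRw K ρ t1 x < l ∧ l ≤ 2 * D) by omega),
            bo_false (show ¬ (D + ρ < l ∧ l ≤ 2 * D) by omega)]
          unfold bo
          split_ifs <;> first | omega | simp
        · rw [if_neg d2]
          rw [bo_false (show ¬ (-D ≤ l ∧ l ≤ -1 - ρ) by omega),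
            bo_false (show ¬ (-D ≤ l ∧ l < xLw K ρ t1 x - D) by omega),
            bo_false (show ¬ (2 * D - xRw K ρ t1 x < l ∧ l ≤ 2 * D) by omega),
            bo_false (show ¬ (D + ρ < l ∧ l ≤ 2 * D) by omega)]
          simp

/-- the pairs of the kernels `kKK` and `kKCc` -/
lemma kk_add {D K ρ t0 t1 : ℤ} (h01 : t0 ≤ t1) (x : P3) (y z : P4) :
    kKK K ρ x.2 (-t1) y.2 z.2 + kKCc K ρ x.2 (-t0) (-t1) y.2 z.2
      ≤ fPQ y z * bo (lab D y z ≤ 2 * D - xRw K ρ t1 x) := by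
  unfold kKK kKCc fPQ
  by_cases c : y.2.1 = false ∧ z.2.1 = true
  · rw [lab_PQ c.1 c.2, bo_true c, one_mul]
    unfold xRw
    by_cases d : 1 + ρ ≤ y.2.2 - 2 * x.2 ∧ K - (K - ρ) ≤ z.2.2 - 2 * -t1
    · rw [bo_false (show ¬ ((y.2.1 = false ∧ z.2.1 = true) ∧ ¬ (1 + ρ ≤ y.2.2 - 2 * x.2
        ∧ K - (K - ρ) ≤ z.2.2 - 2 * -t1) ∧ 2 * K + 1 + ρ + 2 * (x.2 + 2 * -t0)
          ≤ y.2.2 + 2 * z.2.2) from fun k => k.2.1 d), add_zero]
      exact bo_mono fun k => by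
        have := k.2.2
        omega
    · rw [bo_false (show ¬ ((y.2.1 = false ∧ z.2.1 = true) ∧ (1 + ρ ≤ y.2.2 - 2 * x.2
        ∧ K - (K - ρ) ≤ z.2.2 - 2 * -t1) ∧ 2 * K + 1 + ρ + 2 * (x.2 + 2 * -t1)
          ≤ y.2.2 + 2 * z.2.2) from fun k => d k.2.1), zero_add]
      exact bo_mono fun k => by
        have := k.2.2
        omega
  · rw [bo_false (fun k => c k.1), bo_false (fun k => c k.1), bo_false c]
    simp

/-- the pairs of the kernels `kKK'` and `kKCc'` -/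
lemma kk_add' {D K ρ t0 t1 : ℤ} (h01 : t0 ≤ t1) (x : P3) (y z : P4) :
    kKK' K ρ (-t1) x.2 y.2 z.2 + kKCc' K ρ (-t0) (-t1) x.2 y.2 z.2
      ≤ fQP y z * bo (xLw K ρ t1 x - D ≤ lab D y z) := by
  unfold kKK' kKCc' fQP
  by_cases c : y.2.1 = true ∧ z.2.1 = false
  · rw [lab_QP c.1 c.2, bo_true c, one_mul]
    unfold xLw
    by_cases d : 1 + ρ ≤ y.2.2 - 2 * -t1 ∧ K - (K - ρ) ≤ z.2.2 - 2 * x.2
    · rw [bo_false (show ¬ ((y.2.1 = true ∧ z.2.1 = false) ∧ ¬ (1 + ρ ≤ y.2.2 - 2 * -t1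
        ∧ K - (K - ρ) ≤ z.2.2 - 2 * x.2) ∧ 2 * K + 1 + ρ + 2 * (-t0 + 2 * x.2)
          ≤ y.2.2 + 2 * z.2.2) from fun k => k.2.1 d), add_zero]
      exact bo_mono fun k => by
        have := k.2.2
        omega
    · rw [bo_false (show ¬ ((y.2.1 = true ∧ z.2.1 = false) ∧ (1 + ρ ≤ y.2.2 - 2 * -t1
        ∧ K - (K - ρ) ≤ z.2.2 - 2 * x.2) ∧ 2 * K + 1 + ρ + 2 * (-t1 + 2 * x.2)
          ≤ y.2.2 + 2 * z.2.2) from fun k => d k.2.1), zero_add]
      exact bo_mono fun k => by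
        have := k.2.2
        omega
  · rw [bo_false (fun k => c k.1), bo_false (fun k => c k.1), bo_false c]
    simp

/-- no midpoints of the stray with points of `P` -/
lemma mP3_zero {K ρ V E t1 u : ℤ} (hE : 0 ≤ E) (hu : u ≤ 2 * K) (hmid : t1 + E ≤ 2 * K + 2)
    (y z : P3) : mP3 K ρ V E t1 u y z = 0 := by
  unfold mP3
  rw [bo_false (by omega), bo_false (by omega)]
  ring

/-- THE NET KERNEL OF A SAMPLER OF `P` -/
theorem n3inw_P {D K ρ V E w t0 t1 c1 c2 : ℤ} (h01 : t0 ≤ t1) (hE : 0 ≤ E)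
    (hmid : t1 + E ≤ 2 * K + 2) (hw1 : w ≤ c1) (hw2 : w ≤ c2) {x y z : P4} (hx : x.2.1 = false)
    (hxu : x.2.2 ≤ 2 * K) :
    -(n3inw K ρ V E w t0 t1 c1 c2 x.2 y.2 z.2)
      ≤ bW w c1 x.2 * (fPQ y z * bo (lab D y z ≤ 2 * D - xRw K ρ t1 x.2)
          - kNP V (1 + ρ) y.2 z.2)
        + bW w c2 x.2 * (fQP y z * bo (xLw K ρ t1 x.2 - D ≤ lab D y z)
          - kNQ V (1 + ρ) y.2 z.2)
        - bI w x.2 * kKCc K ρ x.2.2 (-t0) (-t1) y.2 z.2
        - bI w x.2 * kKCc' K ρ (-t0) (-t1) x.2.2 y.2 z.2 := by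
  have a1 := kk_add (D := D) (K := K) (ρ := ρ) h01 x.2 y z
  have a2 := kk_add' (D := D) (K := K) (ρ := ρ) h01 x.2 y z
  have p1 : 0 ≤ kKCc K ρ x.2.2 (-t0) (-t1) y.2 z.2 := bo_nonneg _
  have p2 : 0 ≤ kKCc' K ρ (-t0) (-t1) x.2.2 y.2 z.2 := bo_nonneg _
  unfold n3inw bW bI
  rw [if_pos hx, mP3_zero hE hxu hmid]
  by_cases c : w ≤ x.2.2
  · rw [bo_true (show x.2.1 = false ∧ w ≤ x.2.2 from ⟨hx, c⟩)]
    by_cases d1 : x.2.2 < c1
    · rw [bo_true (show w ≤ x.2.2 ∧ x.2.2 < c1 from ⟨c, d1⟩),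
        bo_true (show x.2.1 = false ∧ w ≤ x.2.2 ∧ x.2.2 < c1 from ⟨hx, c, d1⟩),
        bo_false (show ¬ c1 ≤ x.2.2 by omega)]
      by_cases d2 : x.2.2 < c2
      · rw [bo_true (show w ≤ x.2.2 ∧ x.2.2 < c2 from ⟨c, d2⟩),
          bo_true (show x.2.1 = false ∧ w ≤ x.2.2 ∧ x.2.2 < c2 from ⟨hx, c, d2⟩),
          bo_false (show ¬ c2 ≤ x.2.2 by omega)]
        linarith
      · rw [bo_false (show ¬ (w ≤ x.2.2 ∧ x.2.2 < c2) from fun k => d2 k.2),
          bo_false (show ¬ (x.2.1 = false ∧ w ≤ x.2.2 ∧ x.2.2 < c2) from fun k => d2 k.2.2),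
          bo_true (show c2 ≤ x.2.2 by omega)]
        linarith
    · rw [bo_false (show ¬ (w ≤ x.2.2 ∧ x.2.2 < c1) from fun k => d1 k.2),
        bo_false (show ¬ (x.2.1 = false ∧ w ≤ x.2.2 ∧ x.2.2 < c1) from fun k => d1 k.2.2),
        bo_true (show c1 ≤ x.2.2 by omega)]
      by_cases d2 : x.2.2 < c2
      · rw [bo_true (show w ≤ x.2.2 ∧ x.2.2 < c2 from ⟨c, d2⟩),
          bo_true (show x.2.1 = false ∧ w ≤ x.2.2 ∧ x.2.2 < c2 from ⟨hx, c, d2⟩),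
          bo_false (show ¬ c2 ≤ x.2.2 by omega)]
        linarith
      · rw [bo_false (show ¬ (w ≤ x.2.2 ∧ x.2.2 < c2) from fun k => d2 k.2),
          bo_false (show ¬ (x.2.1 = false ∧ w ≤ x.2.2 ∧ x.2.2 < c2) from fun k => d2 k.2.2),
          bo_true (show c2 ≤ x.2.2 by omega)]
        linarith
  · rw [bo_false (show ¬ (x.2.1 = false ∧ w ≤ x.2.2) from fun k => c k.2),
      bo_false (show ¬ (w ≤ x.2.2 ∧ x.2.2 < c1) from fun k => c k.1),
      bo_false (show ¬ (w ≤ x.2.2 ∧ x.2.2 < c2) from fun k => c k.1),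
      bo_false (show ¬ (x.2.1 = false ∧ w ≤ x.2.2 ∧ x.2.2 < c1) from fun k => c k.2.1),
      bo_false (show ¬ (x.2.1 = false ∧ w ≤ x.2.2 ∧ x.2.2 < c2) from fun k => c k.2.1),
      bo_false (show ¬ c1 ≤ x.2.2 by omega), bo_false (show ¬ c2 ≤ x.2.2 by omega)]
    linarith

/-! ### The gains moved to the samplers of `Q` -/

/-- right hand side of the form `x + 2 l` of the second gain -/
def cG (D K ρ t : ℤ) : ℤ := D - 2 * K - ρ + 2 * t

/-- right hand side of the form `x + 2 l` of the own gain -/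
def cOi (D K ρ t : ℤ) : ℤ := D + 2 * t - ρ - 1 - 2 * K

/-- the first gain of a sampler of `P` -/
def gK1 (K ρ w t0 t1 : ℤ) (x y z : P4) : ℝ := bI w x.2 * kKCc K ρ x.2.2 (-t0) (-t1) y.2 z.2

/-- the second gain of a sampler of `P` -/
def gK2 (K ρ w t0 t1 : ℤ) (x y z : P4) : ℝ := bI w x.2 * kKCc' K ρ (-t0) (-t1) x.2.2 y.2 z.2

lemma gK1_nonneg (K ρ w t0 t1 : ℤ) (x y z : P4) : 0 ≤ gK1 K ρ w t0 t1 x y z :=
  mul_nonneg (bo_nonneg _) (bo_nonneg _)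

lemma gK2_nonneg (K ρ w t0 t1 : ℤ) (x y z : P4) : 0 ≤ gK2 K ρ w t0 t1 x y z :=
  mul_nonneg (bo_nonneg _) (bo_nonneg _)

/-- first gain at a sampler `x` of `Q`, pair of points of `P` -/
lemma gK1_ge {D K ρ w t0 t1 : ℤ} {x y z : P4} (hx : x.2.1 = true) (hy : y.2.1 = false)
    (hz : z.2.1 = false) (hzw : w ≤ z.2.2) :
    bo (-ρ ≤ lab D y z) - bo (cA D K ρ t0 + 1 ≤ 2 * lc D x.2 + lab D y z)
      ≤ gK1 K ρ w t0 t1 z y x := by
  unfold gK1 bI
  rw [bo_true (show z.2.1 = false ∧ w ≤ z.2.2 from ⟨hz, hzw⟩), one_mul, lab_PP hy hz, lc_Q hx]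
  unfold kKCc cA
  by_cases c1 : -ρ ≤ 2 * z.2.2 - y.2.2
  · by_cases c2 : 2 * D - 2 * K - 1 - ρ + 4 * t0 + 1 ≤ 2 * (D - x.2.2) + (2 * z.2.2 - y.2.2)
    · rw [bo_true c1, bo_true c2]
      have := bo_nonneg ((y.2.1 = false ∧ x.2.1 = true) ∧ ¬ (1 + ρ ≤ y.2.2 - 2 * z.2.2
        ∧ K - (K - ρ) ≤ x.2.2 - 2 * -t1) ∧ 2 * K + 1 + ρ + 2 * (z.2.2 + 2 * -t0)
          ≤ y.2.2 + 2 * x.2.2)
      linarith
    · rw [bo_true c1, bo_false c2, bo_true (show (y.2.1 = false ∧ x.2.1 = true)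
        ∧ ¬ (1 + ρ ≤ y.2.2 - 2 * z.2.2 ∧ K - (K - ρ) ≤ x.2.2 - 2 * -t1)
        ∧ 2 * K + 1 + ρ + 2 * (z.2.2 + 2 * -t0) ≤ y.2.2 + 2 * x.2.2 from
          ⟨⟨hy, hx⟩, fun k => by have := k.1; omega, by omega⟩)]
      norm_num
  · rw [bo_false c1]
    have h1 := bo_nonneg ((y.2.1 = false ∧ x.2.1 = true) ∧ ¬ (1 + ρ ≤ y.2.2 - 2 * z.2.2
        ∧ K - (K - ρ) ≤ x.2.2 - 2 * -t1) ∧ 2 * K + 1 + ρ + 2 * (z.2.2 + 2 * -t0)
          ≤ y.2.2 + 2 * x.2.2)
    have h2 := bo_nonneg (2 * D - 2 * K - 1 - ρ + 4 * t0 + 1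
      ≤ 2 * (D - x.2.2) + (2 * z.2.2 - y.2.2))
    linarith

/-- second gain at a sampler `x` of `Q`, pair of points of `P` -/
lemma gK2_ge {D K ρ w t0 t1 : ℤ} {x y z : P4} (hx : x.2.1 = true) (hy : y.2.1 = false)
    (hz : z.2.1 = false) (hzw : w ≤ z.2.2) :
    bo (1 - ρ ≤ lab D y z) - bo (cG D K ρ t0 ≤ lc D x.2 + 2 * lab D y z)
      ≤ gK2 K ρ w t0 t1 z x y := by
  unfold gK2 bI
  rw [bo_true (show z.2.1 = false ∧ w ≤ z.2.2 from ⟨hz, hzw⟩), one_mul, lab_PP hy hz, lc_Q hx]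
  unfold kKCc' cG
  have h1 := bo_nonneg ((x.2.1 = true ∧ y.2.1 = false) ∧ ¬ (1 + ρ ≤ x.2.2 - 2 * -t1
        ∧ K - (K - ρ) ≤ y.2.2 - 2 * z.2.2) ∧ 2 * K + 1 + ρ + 2 * (-t0 + 2 * z.2.2)
          ≤ x.2.2 + 2 * y.2.2)
  by_cases c1 : 1 - ρ ≤ 2 * z.2.2 - y.2.2
  · by_cases c2 : D - 2 * K - ρ + 2 * t0 ≤ D - x.2.2 + 2 * (2 * z.2.2 - y.2.2)
    · rw [bo_true c1, bo_true c2]
      linarith
    · rw [bo_true c1, bo_false c2, bo_true (show (x.2.1 = true ∧ y.2.1 = false)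
        ∧ ¬ (1 + ρ ≤ x.2.2 - 2 * -t1 ∧ K - (K - ρ) ≤ y.2.2 - 2 * z.2.2)
        ∧ 2 * K + 1 + ρ + 2 * (-t0 + 2 * z.2.2) ≤ x.2.2 + 2 * y.2.2 from
          ⟨⟨hx, hy⟩, fun k => by have := k.2; omega, by omega⟩)]
      norm_num
  · rw [bo_false c1]
    have h2 := bo_nonneg (D - 2 * K - ρ + 2 * t0 ≤ D - x.2.2 + 2 * (2 * z.2.2 - y.2.2))
    linarith

/-- moving the gains under the symmetrisation -/
lemma sym6_move (G1 G2 F : P4 → P4 → P4 → ℝ) (x y z : P4) :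
    sym6 (fun x y z => F x y z - G1 x y z - G2 x y z + G1 z y x + G2 z x y) x y z
      = sym6 F x y z := by
  unfold sym6
  ring

/-- THE NET KERNEL OF A SAMPLER OF `Q` -/
theorem n3inw_Q {D K ρ V E w t0 t1 c1 c2 : ℤ} (hD : D = 4 * K + 1) {x y z : P4}
    (hx : x.2.1 = true) :
    -(n3inw K ρ V E w t0 t1 c1 c2 x.2 y.2 z.2)
      ≤ bo ((1 ≤ 2 * x.2.2 + t1 - (4 * K + 1) ∧ 2 * x.2.2 + t0 - (4 * K + 1) ≤ 4 * K + 1)
          ∧ ρ ≤ 2 * x.2.2 + t1 - (4 * K + 1))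
        * kNQ V (thr K ρ (2 * x.2.2 + t1 - (4 * K + 1))) y.2 z.2
      + 1 / 2 * omc t1 x.2.2 * mQ3 K ρ V E t1 x.2.2 y.2 z.2
      - bo (1 ≤ x.2.2 + 2 * t0 ∧ x.2.2 + 2 * t1 ≤ 4 * K + 1)
        * (fPQ y z * bo (2 * lc D x.2 + lab D y z ≤ cA D K ρ t0))
      - bo (1 + ρ ≤ x.2.2 + 2 * t0)
        * (fQP y z * max 0 (bo (lab D y z ≤ -ρ) - bo (lc D x.2 + 2 * lab D y z ≤ cOi D K ρ t1)))
      := by
  have g1 := famG1' (D := D) (K := K) (ρ := ρ) (x := x) (y := y) (z := z) hD hx (t := t0)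
  have e3 : fQP y z * max 0 (bo (lab D y z ≤ -ρ) - bo (lc D x.2 + 2 * lab D y z ≤ cOi D K ρ t1))
      ≤ kQP (4 * K + 1 - K + min ((x.2.2 + 2 * t1 - ρ + 1) / 2) (K - ρ + 1)) y.2 z.2
          - kQP (4 * K + 1 - K + (K - ρ + 1)) y.2 z.2 := by
    unfold fQP kQP
    by_cases c : y.2.1 = true ∧ z.2.1 = false
    · rw [bo_true c, one_mul, lab_QP c.1 c.2, lc_Q hx]
      unfold cOi
      have m1 := bo_mono (p := (y.2.1 = true ∧ z.2.1 = false)
          ∧ 4 * K + 1 - K + (K - ρ + 1) ≤ y.2.2 + 2 * z.2.2)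
        (q := (y.2.1 = true ∧ z.2.1 = false)
          ∧ 4 * K + 1 - K + min ((x.2.2 + 2 * t1 - ρ + 1) / 2) (K - ρ + 1)
            ≤ y.2.2 + 2 * z.2.2) (fun h => ⟨h.1, by have := h.2; omega⟩)
      refine max_le (by linarith) ?_
      by_cases d1 : y.2.2 + 2 * z.2.2 - D ≤ -ρ
      · rw [bo_true d1, bo_false (show ¬ ((y.2.1 = true ∧ z.2.1 = false)
          ∧ 4 * K + 1 - K + (K - ρ + 1) ≤ y.2.2 + 2 * z.2.2) from
            fun k => by have := k.2; omega)]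
        by_cases d2 : D - x.2.2 + 2 * (y.2.2 + 2 * z.2.2 - D) ≤ D + 2 * t1 - ρ - 1 - 2 * K
        · rw [bo_true d2]
          have := bo_nonneg ((y.2.1 = true ∧ z.2.1 = false)
            ∧ 4 * K + 1 - K + min ((x.2.2 + 2 * t1 - ρ + 1) / 2) (K - ρ + 1)
            ≤ y.2.2 + 2 * z.2.2)
          linarith
        · rw [bo_false d2, bo_true (show (y.2.1 = true ∧ z.2.1 = false)
            ∧ 4 * K + 1 - K + min ((x.2.2 + 2 * t1 - ρ + 1) / 2) (K - ρ + 1)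
            ≤ y.2.2 + 2 * z.2.2 from ⟨c, by omega⟩)]
      · rw [bo_false d1]
        have := bo_nonneg (D - x.2.2 + 2 * (y.2.2 + 2 * z.2.2 - D)
          ≤ D + 2 * t1 - ρ - 1 - 2 * K)
        linarith
    · rw [bo_false c, bo_false (show ¬ ((y.2.1 = true ∧ z.2.1 = false)
          ∧ 4 * K + 1 - K + min ((x.2.2 + 2 * t1 - ρ + 1) / 2) (K - ρ + 1)
            ≤ y.2.2 + 2 * z.2.2) from fun k => c k.1),
        bo_false (show ¬ ((y.2.1 = true ∧ z.2.1 = false)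
          ∧ 4 * K + 1 - K + (K - ρ + 1) ≤ y.2.2 + 2 * z.2.2) from fun k => c k.1)]
      simp
  have e4 := mul_le_mul_of_nonneg_left e3 (bo_nonneg (1 + ρ ≤ x.2.2 + 2 * t0))
  unfold n3inw
  rw [if_neg (by rw [hx]; simp), g1]
  linarith

end alg

/-! ### Constants of the nine zones -/

lemma zn9_le1 {D ρ l : ℤ} (h1 : 1 ≤ ρ) (h2 : ρ < D) : zn9 D ρ l ≤ 1 ↔ l ≤ -1 - ρ := by
  unfold zn9
  split_ifs <;> constructor <;> intro h <;> omega

lemma zn9_le2 {D ρ l : ℤ} (h1 : 1 ≤ ρ) (h2 : ρ < D) : zn9 D ρ l ≤ 2 ↔ l ≤ -ρ := by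
  unfold zn9
  split_ifs <;> constructor <;> intro h <;> omega

lemma zn9_le5 {D ρ l : ℤ} (h1 : 1 ≤ ρ) (h2 : ρ < D) : zn9 D ρ l ≤ 5 ↔ l ≤ D + ρ - 1 := by
  unfold zn9
  split_ifs <;> constructor <;> intro h <;> omega

lemma zn9_le7 {D ρ l : ℤ} (h1 : 1 ≤ ρ) (h2 : ρ < D) : zn9 D ρ l ≤ 7 ↔ l ≤ 2 * D := by
  unfold zn9
  split_ifs <;> constructor <;> intro h <;> omega

lemma zn9_ge1 {D ρ l : ℤ} (h1 : 1 ≤ ρ) (h2 : ρ < D) : 1 ≤ zn9 D ρ l ↔ -D ≤ l := by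
  unfold zn9
  split_ifs <;> constructor <;> intro h <;> omega

lemma zn9_ge2 {D ρ l : ℤ} (h1 : 1 ≤ ρ) (h2 : ρ < D) : 2 ≤ zn9 D ρ l ↔ -ρ ≤ l := by
  unfold zn9
  split_ifs <;> constructor <;> intro h <;> omega

lemma zn9_ge3 {D ρ l : ℤ} (h1 : 1 ≤ ρ) (h2 : ρ < D) : 3 ≤ zn9 D ρ l ↔ 1 - ρ ≤ l := by
  unfold zn9
  split_ifs <;> constructor <;> intro h <;> omega

lemma zn9_ge7 {D ρ l : ℤ} (h1 : 1 ≤ ρ) (h2 : ρ < D) : 7 ≤ zn9 D ρ l ↔ D + ρ + 1 ≤ l := by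
  unfold zn9
  split_ifs <;> constructor <;> intro h <;> omega

lemma zn9_eq1 {D ρ l : ℤ} (h1 : 1 ≤ ρ) (h2 : ρ < D) :
    zn9 D ρ l = 1 ↔ (-D ≤ l ∧ l ≤ -1 - ρ) := by
  unfold zn9
  split_ifs <;> constructor <;> intro h <;> omega

lemma zn9_eq0 {D ρ l : ℤ} (h1 : 1 ≤ ρ) (h2 : ρ < D) : zn9 D ρ l = 0 ↔ l < -D := by
  unfold zn9
  split_ifs <;> constructor <;> intro h <;> omega

lemma zn9_eq8 {D ρ l : ℤ} (h1 : 1 ≤ ρ) (h2 : ρ < D) : zn9 D ρ l = 8 ↔ 2 * D < l := by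
  unfold zn9
  split_ifs <;> constructor <;> intro h <;> omega

lemma zn9_eq7 {D ρ l : ℤ} (h1 : 1 ≤ ρ) (h2 : ρ < D) :
    zn9 D ρ l = 7 ↔ (D + ρ < l ∧ l ≤ 2 * D) := by
  unfold zn9
  split_ifs <;> constructor <;> intro h <;> omega

/-- ZONE CONSTANTS of a pair: `cy`, `cz` poles, `vi`, `vo`, `wi` flags of the doubled point;
`a`, `b`, `e`, `g` = coefficients of `kNP`, `kNQ`, `kQP`, `kPQ`; `w1`, `w2` windows; `ag` = moved
gains, `ow` = own gain; `h1`, `h2` = remainder beyond `2 D` resp. `-D` -/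
def kz9 (cy cz vi vo wi : Bool) (a b e g w1 w2 ag ow h1 h2 : ℝ) (i : Fin 9) : ℝ :=
  (if cy = false ∧ cz = false ∧ i ≤ 1 then effc vi vo a else 0)
    + (if cy = true ∧ cz = true ∧ 7 ≤ i then effc vi vo b else 0)
    + (if cy = true ∧ cz = false ∧ 3 ≤ i then e else 0)
    + (if cy = false ∧ cz = true ∧ i ≤ 5 then g else 0)
    + (if i = 1 then w1 else 0) + (if i = 7 then w2 else 0)
    + (if cy = false ∧ cz = true ∧ i ≤ 7 then w1 else 0)
    + (if cy = true ∧ cz = false ∧ 1 ≤ i then w2 else 0)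
    + (if cy = false ∧ cz = true ∧ i = 8 then h1 else 0)
    + (if cy = true ∧ cz = false ∧ i = 0 then h2 else 0)
    - (if cy = false ∧ cz = false ∧ wi = true ∧ 2 ≤ i then ag else 0)
    - (if cy = false ∧ cz = false ∧ wi = true ∧ 3 ≤ i then ag else 0)
    - (if cy = true ∧ cz = false ∧ i ≤ 2 then ow else 0)

/-- the pairs of the moved gains -/
def fWi (wi : Bool) (y z : P4) : ℝ := bo (y.2.1 = false ∧ z.2.1 = false ∧ wi = true)

lemma ite_bo (p : Prop) [Decidable p] (a : ℝ) : (if p then a else 0) = a * bo p := by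
  by_cases c : p
  · rw [if_pos c, bo_true c, mul_one]
  · rw [if_neg c, bo_false c, mul_zero]

/-- THE CONSTANT KERNELS AS FUNCTIONS OF THE LABEL -/
theorem kz9_le {D ρ V : ℤ} (hρ : 1 ≤ ρ) (hρD : ρ < D) {y z : P4} {vi vo wi : Bool}
    (h1 : vi = true → -V ≤ z.2.2) (h2 : vo = true → z.2.2 < -V)
    (a b e g w1 w2 ag ow r1 r2 : ℝ) :
    a * kNP V (1 + ρ) y.2 z.2 + b * kNQ V (1 + ρ) y.2 z.2 + e * kQP (D - ρ + 1) y.2 z.2
      + g * kPQ (D - ρ + 1) y.2 z.2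
      + w1 * (bo (-D ≤ lab D y z ∧ lab D y z ≤ -1 - ρ) + fPQ y z * bo (lab D y z ≤ 2 * D))
      + w2 * (bo (D + ρ < lab D y z ∧ lab D y z ≤ 2 * D) + fQP y z * bo (-D ≤ lab D y z))
      + r1 * (fPQ y z * bo (2 * D < lab D y z)) + r2 * (fQP y z * bo (lab D y z < -D))
      - ag * (fWi wi y z * (bo (-ρ ≤ lab D y z) + bo (1 - ρ ≤ lab D y z)))
      - ow * (fQP y z * bo (lab D y z ≤ -ρ))
      ≤ kz9 y.2.1 z.2.1 vi vo wi a b e g w1 w2 ag ow r1 r2 (zn9 D ρ (lab D y z)) := by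
  unfold kz9
  simp only [zn9_le1 hρ hρD, zn9_le2 hρ hρD, zn9_le5 hρ hρD, zn9_le7 hρ hρD, zn9_ge1 hρ hρD,
    zn9_ge2 hρ hρD, zn9_ge3 hρ hρD, zn9_ge7 hρ hρD, zn9_eq1 hρ hρD, zn9_eq7 hρ hρD,
    zn9_eq0 hρ hρD, zn9_eq8 hρ hρD]
  simp only [ite_bo]
  unfold kNP kNQ kQP kPQ fPQ fQP fWi
  rcases hy : y.2.1 with _ | _ <;> rcases hz : z.2.1 with _ | _
  · -- P, P
    rw [lab_PP hy hz]
    simp only [Bool.false_eq_true, Bool.true_eq_false, and_self, true_and, and_true, false_and,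
      and_false, bo_false not_false, mul_zero, zero_mul, add_zero, zero_add, sub_zero]
    have k := effc_le (a := a) (V := V) (u := z.2.2) (p := 2 * z.2.2 - y.2.2 ≤ -1 - ρ)
      (q := -V ≤ z.2.2 ∧ 1 + ρ ≤ y.2.2 - 2 * z.2.2) h1 h2
      (by constructor <;> rintro ⟨h3, h4⟩ <;> exact ⟨h3, by omega⟩)
    cases wi
    · simp only [Bool.false_eq_true, false_and, bo_false not_false, mul_zero, zero_mul, sub_zero]
      linarith
    · simp only [true_and, bo_true trivial, one_mul]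
      linarith
  · -- P, Q
    rw [lab_PQ hy hz]
    simp only [Bool.false_eq_true, Bool.true_eq_false, and_self, true_and, and_true, false_and,
      and_false, bo_false not_false, mul_zero, zero_mul, add_zero, zero_add, sub_zero,
      bo_true trivial, one_mul]
    have e1 : bo (D - ρ + 1 ≤ y.2.2 + 2 * z.2.2)
        = bo (2 * D - (y.2.2 + 2 * z.2.2) ≤ D + ρ - 1) := by
      unfold bo
      exact if_congr (by omega) rfl rfl
    rw [e1]
    apply le_of_eq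
    ring
  · -- Q, P
    rw [lab_QP hy hz]
    simp only [Bool.false_eq_true, Bool.true_eq_false, and_self, true_and, and_true, false_and,
      and_false, bo_false not_false, mul_zero, zero_mul, add_zero, zero_add, sub_zero,
      bo_true trivial, one_mul]
    have e1 : bo (D - ρ + 1 ≤ y.2.2 + 2 * z.2.2)
        = bo (1 - ρ ≤ y.2.2 + 2 * z.2.2 - D) := by
      unfold bo
      exact if_congr (by omega) rfl rfl
    rw [e1]
    apply le_of_eq
    ring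
  · -- Q, Q
    rw [lab_QQ hy hz]
    simp only [Bool.false_eq_true, Bool.true_eq_false, and_self, true_and, and_true, false_and,
      and_false, bo_false not_false, mul_zero, zero_mul, add_zero, zero_add, sub_zero]
    have k := effc_le (a := b) (V := V) (u := z.2.2)
      (p := D + ρ + 1 ≤ D - 2 * z.2.2 + y.2.2)
      (q := -V ≤ z.2.2 ∧ 1 + ρ ≤ y.2.2 - 2 * z.2.2) h1 h2
      (by constructor <;> rintro ⟨h3, h4⟩ <;> exact ⟨h3, by omega⟩)
    linarith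

/-! ### The net of an IN cell: classes and families -/

/-- class data of the three-body kernel of an IN cell. `w1, w2` windows (exact); costs `F2` (exotic
left label), `M0, M1` (midpoints): `c*` part with the constant threshold `1 + ρ`, `v*` part with the
moving threshold; gains `vA` (exotic pairs), `ow` (own), `ag` (moved); `wi d`: the points of the
class lie in `[w, ∞)` of `P` -/
structure FlgIn {C : Type} {M : ℕ} {σ δ : ℝ} {D K ρ : ℤ} {kL kR : ℝ}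
    (G : GrdD C M σ δ D K ρ kL kR) (E w t0 t1 c1 c2 : ℤ) (sd wi : C → Bool)
    (w1 w2 cF2 vF2 cM0 vM0 cM1 vM1 vA ow ag : C → ℝ) : Prop where
  hsd : ∀ x, G.ok x → sd (G.cl x) = x.2.1
  hwi : ∀ x, G.ok x → wi (G.cl x) = true → w ≤ x.2.2
  hw1 : ∀ x, G.ok x → w1 (G.cl x) = bW w c1 x.2
  hw2 : ∀ x, G.ok x → w2 (G.cl x) = bW w c2 x.2
  hF2 : ∀ x, G.ok x → x.2.1 = true →
    bo ((1 ≤ 2 * x.2.2 + t1 - (4 * K + 1) ∧ 2 * x.2.2 + t0 - (4 * K + 1) ≤ 4 * K + 1)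
      ∧ ρ ≤ 2 * x.2.2 + t1 - (4 * K + 1)) ≤ cF2 (G.cl x) + vF2 (G.cl x)
  hMQ0 : ∀ x, G.ok x → x.2.1 = true →
    1 / 2 * omc t1 x.2.2 * bo (0 < (t1 - x.2.2 + 0) / 2 ∧ ρ ≤ (t1 - x.2.2 + 0) / 2)
      ≤ cM0 (G.cl x) + vM0 (G.cl x)
  hMQ1 : ∀ x, G.ok x → x.2.1 = true →
    1 / 2 * omc t1 x.2.2 * bo (0 < (t1 - x.2.2 + E) / 2 ∧ ρ ≤ (t1 - x.2.2 + E) / 2)
      ≤ cM1 (G.cl x) + vM1 (G.cl x)
  hAQ : ∀ x, G.ok x → x.2.1 = true →
    vA (G.cl x) ≤ bo (1 ≤ x.2.2 + 2 * t0 ∧ x.2.2 + 2 * t1 ≤ 4 * K + 1)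
  how : ∀ x, G.ok x → x.2.1 = true → ow (G.cl x) ≤ bo (1 + ρ ≤ x.2.2 + 2 * t0)
  hag : ∀ x, G.ok x → x.2.1 = true → ag (G.cl x) ≤ 1
  nonneg : ∀ c, 0 ≤ cF2 c ∧ 0 ≤ vF2 c ∧ 0 ≤ cM0 c ∧ 0 ≤ vM0 c ∧ 0 ≤ cM1 c ∧ 0 ≤ vM1 c
    ∧ 0 ≤ vA c ∧ 0 ≤ ow c ∧ 0 ≤ ag c
  zP : ∀ c, sd c = false → cF2 c = 0 ∧ vF2 c = 0 ∧ cM0 c = 0 ∧ vM0 c = 0 ∧ cM1 c = 0 ∧ vM1 c = 0
    ∧ vA c = 0 ∧ ow c = 0 ∧ ag c = 0

/-- windows and kernels of a sampler of `P` in one line -/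
lemma win_PQ (p : Prop) [Decidable p] (l a b : ℤ) :
    bo p * bo (l ≤ a) + bo (a < l ∧ l ≤ b)
      ≤ bo p * bo (l ≤ b) + bo (a - b > 0) * (bo p * bo (b < l)) + (1 - bo p) * bo (a + 1 ≤ l) := by
  by_cases hp : p
  · rw [bo_true hp]
    by_cases h1 : l ≤ b
    · rw [bo_true h1, bo_false (show ¬ b < l by omega)]
      by_cases h2 : l ≤ a
      · rw [bo_true h2, bo_false (show ¬ (a < l ∧ l ≤ b) by omega)]
        norm_num
      · rw [bo_false h2, bo_true (show a < l ∧ l ≤ b by omega)]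
        norm_num
    · rw [bo_false h1, bo_true (show b < l by omega), bo_false (show ¬ (a < l ∧ l ≤ b) by omega)]
      by_cases h2 : l ≤ a
      · rw [bo_true h2, bo_true (show a - b > 0 by omega)]
        norm_num
      · rw [bo_false h2]
        have := bo_nonneg (a - b > 0)
        linarith
  · rw [bo_false hp]
    have h1 : bo (a < l ∧ l ≤ b) ≤ bo (a + 1 ≤ l) := bo_mono fun h => by omega
    linarith

/-- the same on the left side -/
lemma win_QP (p : Prop) [Decidable p] (l a b : ℤ) :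
    bo p * bo (a ≤ l) + bo (b ≤ l ∧ l < a)
      ≤ bo p * bo (b ≤ l) + bo (b - a > 0) * (bo p * bo (l < b)) + (1 - bo p) * bo (l ≤ a - 1) := by
  by_cases hp : p
  · rw [bo_true hp]
    by_cases h1 : b ≤ l
    · rw [bo_true h1, bo_false (show ¬ l < b by omega)]
      by_cases h2 : a ≤ l
      · rw [bo_true h2, bo_false (show ¬ (b ≤ l ∧ l < a) by omega)]
        norm_num
      · rw [bo_false h2, bo_true (show b ≤ l ∧ l < a by omega)]
        norm_num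
    · rw [bo_false h1, bo_true (show l < b by omega), bo_false (show ¬ (b ≤ l ∧ l < a) by omega)]
      by_cases h2 : a ≤ l
      · rw [bo_true h2, bo_true (show b - a > 0 by omega)]
        norm_num
      · rw [bo_false h2]
        have := bo_nonneg (b - a > 0)
        linarith
  · rw [bo_false hp]
    have h1 : bo (b ≤ l ∧ l < a) ≤ bo (l ≤ a - 1) := bo_mono fun h => by omega
    linarith

/-- THE NET KERNEL OF AN IN CELL WITH THE WINDOWS AND THE MOVED GAINS, term by term -/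
theorem inN_le {C : Type} {M : ℕ} {σ δ : ℝ} {D K ρ : ℤ} {kL kR : ℝ}
    {G : GrdD C M σ δ D K ρ kL kR} {V E w t0 t1 c1 c2 : ℤ} (hD : D = 4 * K + 1) (h01 : t0 ≤ t1)
    (hE : 0 ≤ E) (hmid : t1 + E ≤ 2 * K + 2) (hwc1 : w ≤ c1) (hwc2 : w ≤ c2)
    {sd wi : C → Bool} {w1 w2 cF2 vF2 cM0 vM0 cM1 vM1 vA ow ag : C → ℝ}
    (h : FlgIn G E w t0 t1 c1 c2 sd wi w1 w2 cF2 vF2 cM0 vM0 cM1 vM1 vA ow ag)
    (x y z : P4) (hx : G.ok x) (hz : G.ok z) :
    -(n3inw K ρ V E w t0 t1 c1 c2 x.2 y.2 z.2) + winN D K ρ w c1 c2 t1 x.2 (lab D y z)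
        + gK1 K ρ w t0 t1 x y z + gK2 K ρ w t0 t1 x y z
        - gK1 K ρ w t0 t1 z y x - gK2 K ρ w t0 t1 z x y
      ≤ (cM0 (G.cl x) + cM1 (G.cl x) - w1 (G.cl x)) * kNP V (1 + ρ) y.2 z.2
        + (cF2 (G.cl x) - w2 (G.cl x)) * kNQ V (1 + ρ) y.2 z.2
        + w1 (G.cl x) * (bo (-D ≤ lab D y z ∧ lab D y z ≤ -1 - ρ)
          + fPQ y z * bo (lab D y z ≤ 2 * D))
        + w2 (G.cl x) * (bo (D + ρ < lab D y z ∧ lab D y z ≤ 2 * D)
          + fQP y z * bo (-D ≤ lab D y z))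
        + w1 (G.cl x) * bo (xRw K ρ t1 x.2 < 0) * (fPQ y z * bo (2 * D < lab D y z))
        + w2 (G.cl x) * bo (xLw K ρ t1 x.2 < 0) * (fQP y z * bo (lab D y z < -D))
        - ag (G.cl x) * (fWi (wi (G.cl z)) y z * (bo (-ρ ≤ lab D y z) + bo (1 - ρ ≤ lab D y z)))
        - ow (G.cl x) * (fQP y z * bo (lab D y z ≤ -ρ))
        + (w1 (G.cl x) * ((1 - fPQ y z) * bo (cA D K ρ t1 + 1 ≤ 2 * lc D x.2 + lab D y z))
          + w2 (G.cl x) * ((1 - fQP y z) * bo (-4 * lc D x.2 + lab D y z ≤ cB D K ρ t1 - 1))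
          + vF2 (G.cl x) * (fQQ V y z * bo (cB D K ρ t1 ≤ -4 * lc D x.2 + lab D y z))
          + vM0 (G.cl x) * (fPP V y z * bo (-1 * lc D x.2 + lab D y z ≤ cC D K ρ t1))
          + vM1 (G.cl x) * (fPP V y z * bo (-1 * lc D x.2 + lab D y z ≤ cC D K ρ (t1 + E)))
          - vA (G.cl x) * (fPQ y z * bo (2 * lc D x.2 + lab D y z ≤ cA D K ρ t0))
          + ow (G.cl x) * (fQP y z * bo (lc D x.2 + 2 * lab D y z ≤ cOi D K ρ t1))
          + ag (G.cl x) * (fWi (wi (G.cl z)) y z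
            * bo (cA D K ρ t0 + 1 ≤ 2 * lc D x.2 + lab D y z))
          + ag (G.cl x) * (fWi (wi (G.cl z)) y z
            * bo (cG D K ρ t0 ≤ lc D x.2 + 2 * lab D y z))) := by
  have hsd := h.hsd x hx
  have e1 := h.hw1 x hx
  have e2 := h.hw2 x hx
  obtain ⟨n1, n2, n3, n4, n5, n6, n7, n8, n9⟩ := h.nonneg (G.cl x)
  have kN := kNP_nonneg V (1 + ρ) y.2 z.2
  have kM := kNQ_nonneg V (1 + ρ) y.2 z.2
  rcases hs : x.2.1 with _ | _
  · -- side P
    rw [hs] at hsd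
    obtain ⟨z1, z2, z3, z4, z5, z6, z7, z8, z9⟩ := h.zP _ hsd
    have p := n3inw_P (D := D) (V := V) (K := K) (ρ := ρ) (E := E) (w := w) (t0 := t0) (t1 := t1)
      (c1 := c1) (c2 := c2) (x := x) (y := y) (z := z) h01 hE hmid hwc1 hwc2 hs
      (((G.okE x).1 hx).2)
    have q1 : (cA D K ρ t1 + 1 ≤ 2 * lc D x.2 + lab D y z)
        ↔ (2 * D - xRw K ρ t1 x.2 + 1 ≤ lab D y z) := by
      rw [lc_P hs]
      unfold cA xRw
      constructor <;> intro h <;> omega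
    have q2 : (-4 * lc D x.2 + lab D y z ≤ cB D K ρ t1 - 1)
        ↔ (lab D y z ≤ xLw K ρ t1 x.2 - D - 1) := by
      rw [lc_P hs]
      unfold cB xLw
      constructor <;> intro h <;> omega
    have r1 := win_PQ (y.2.1 = false ∧ z.2.1 = true) (lab D y z) (2 * D - xRw K ρ t1 x.2) (2 * D)
    have r2 := win_QP (y.2.1 = true ∧ z.2.1 = false) (lab D y z) (xLw K ρ t1 x.2 - D) (-D)
    have b1 : bo (2 * D - xRw K ρ t1 x.2 - 2 * D > 0) = bo (xRw K ρ t1 x.2 < 0) := by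
      unfold bo
      exact if_congr (by constructor <;> intro h <;> omega) rfl rfl
    have b2 : bo (-D - (xLw K ρ t1 x.2 - D) > 0) = bo (xLw K ρ t1 x.2 < 0) := by
      unfold bo
      exact if_congr (by constructor <;> intro h <;> omega) rfl rfl
    have b3 : bo (cA D K ρ t1 + 1 ≤ 2 * lc D x.2 + lab D y z)
        = bo (2 * D - xRw K ρ t1 x.2 + 1 ≤ lab D y z) := by
      unfold bo
      exact if_congr q1 rfl rfl
    have b4 : bo (-4 * lc D x.2 + lab D y z ≤ cB D K ρ t1 - 1)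
        = bo (lab D y z ≤ xLw K ρ t1 x.2 - D - 1) := by
      unfold bo
      exact if_congr q2 rfl rfl
    rw [b1] at r1
    rw [b2] at r2
    have w10 : 0 ≤ w1 (G.cl x) := by
      rw [e1]
      exact bo_nonneg _
    have w20 : 0 ≤ w2 (G.cl x) := by
      rw [e2]
      exact bo_nonneg _
    have s1 := mul_le_mul_of_nonneg_left r1 w10
    have s2 := mul_le_mul_of_nonneg_left r2 w20
    have g1 := gK1_nonneg K ρ w t0 t1 z y x
    have g2 := gK2_nonneg K ρ w t0 t1 z x y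
    have u1 : gK1 K ρ w t0 t1 x y z = bI w x.2 * kKCc K ρ x.2.2 (-t0) (-t1) y.2 z.2 := rfl
    have u2 : gK2 K ρ w t0 t1 x y z = bI w x.2 * kKCc' K ρ (-t0) (-t1) x.2.2 y.2 z.2 := rfl
    have f1 : fPQ y z = bo (y.2.1 = false ∧ z.2.1 = true) := rfl
    have f2 : fQP y z = bo (y.2.1 = true ∧ z.2.1 = false) := rfl
    rw [← e1, ← e2] at p
    unfold winN
    rw [← e1, ← e2, z1, z2, z3, z4, z5, z6, z7, z8, z9, b3, b4, u1, u2]
    rw [f1, f2] at p ⊢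
    linarith
  · -- side Q
    rw [hs] at hsd
    have e1' : w1 (G.cl x) = 0 := by
      rw [e1]
      unfold bW
      exact bo_false (fun k => by rw [hs] at k; exact absurd k.1 (by simp))
    have e2' : w2 (G.cl x) = 0 := by
      rw [e2]
      unfold bW
      exact bo_false (fun k => by rw [hs] at k; exact absurd k.1 (by simp))
    have p := n3inw_Q (V := V) (K := K) (ρ := ρ) (E := E) (w := w) (t0 := t0) (t1 := t1)
      (c1 := c1) (c2 := c2) (x := x) (y := y) (z := z) hD hs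
    have i1 : bI w x.2 = 0 := by
      unfold bI
      exact bo_false (fun k => by rw [hs] at k; exact absurd k.1 (by simp))
    have u1 : gK1 K ρ w t0 t1 x y z = 0 := by
      unfold gK1
      rw [i1, zero_mul]
    have u2 : gK2 K ρ w t0 t1 x y z = 0 := by
      unfold gK2
      rw [i1, zero_mul]
    have wn : winN D K ρ w c1 c2 t1 x.2 (lab D y z) = 0 := by
      unfold winN
      rw [← e1, ← e2, e1', e2', zero_mul, zero_mul, add_zero]
    have c2' : kNQ V (thr K ρ (2 * x.2.2 + t1 - (4 * K + 1))) y.2 z.2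
        ≤ fQQ V y z * bo (cB D K ρ t1 ≤ -4 * lc D x.2 + lab D y z) := by
      rw [← hD]
      exact famF2 (D := D) (K := K) (ρ := ρ) (V := V) (y := y) (z := z) hs (t := t1)
    have f0 := famF3 (D := D) (K := K) (ρ := ρ) (V := V) (y := y) (z := z) hs (t := t1) (e := 0)
    have f1 := famF3 (D := D) (K := K) (ρ := ρ) (V := V) (y := y) (z := z) hs (t := t1) (e := E)
    rw [add_zero t1] at f0
    have d2 := split_cost (h.hF2 x hx hs) n1 n2
      (kNQ_nonneg V (thr K ρ (2 * x.2.2 + t1 - (4 * K + 1))) y.2 z.2) (famF_constQ _ y z) c2'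
    have m0 := split_cost (h.hMQ0 x hx hs) n3 n4
      (kNP_nonneg V (thr K ρ ((t1 - x.2.2 + 0) / 2)) y.2 z.2) (famF_const _ y z) f0
    have m1 := split_cost (h.hMQ1 x hx hs) n5 n6
      (kNP_nonneg V (thr K ρ ((t1 - x.2.2 + E) / 2)) y.2 z.2) (famF_const _ y z) f1
    have pq : 0 ≤ fPQ y z * bo (2 * lc D x.2 + lab D y z ≤ cA D K ρ t0) :=
      mul_nonneg (bo_nonneg _) (bo_nonneg _)
    have a1 := mul_le_mul_of_nonneg_right (h.hAQ x hx hs) pq
    -- own gain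
    have oq : 0 ≤ fQP y z
        * max 0 (bo (lab D y z ≤ -ρ) - bo (lc D x.2 + 2 * lab D y z ≤ cOi D K ρ t1)) :=
      mul_nonneg (bo_nonneg _) (le_max_left _ _)
    have o1 := mul_le_mul_of_nonneg_right (h.how x hx hs) oq
    have o2 : ow (G.cl x) * (fQP y z
          * (bo (lab D y z ≤ -ρ) - bo (lc D x.2 + 2 * lab D y z ≤ cOi D K ρ t1)))
        ≤ ow (G.cl x) * (fQP y z
          * max 0 (bo (lab D y z ≤ -ρ) - bo (lc D x.2 + 2 * lab D y z ≤ cOi D K ρ t1))) :=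
      mul_le_mul_of_nonneg_left (mul_le_mul_of_nonneg_left (le_max_right _ _) (bo_nonneg _)) n8
    -- moved gains
    have g1 : ag (G.cl x) * (fWi (wi (G.cl z)) y z * (bo (-ρ ≤ lab D y z)
          - bo (cA D K ρ t0 + 1 ≤ 2 * lc D x.2 + lab D y z))) ≤ gK1 K ρ w t0 t1 z y x := by
      have gn := gK1_nonneg K ρ w t0 t1 z y x
      unfold fWi
      by_cases c : y.2.1 = false ∧ z.2.1 = false ∧ wi (G.cl z) = true
      · rw [bo_true c, one_mul]
        have k := gK1_ge (D := D) (K := K) (ρ := ρ) (w := w) (t0 := t0) (t1 := t1) (x := x)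
          (y := y) (z := z) hs c.1 c.2.1 (h.hwi z hz c.2.2)
        have k2 := mul_le_mul_of_nonneg_left k n9
        have k3 := mul_le_mul_of_nonneg_right (h.hag x hx hs) gn
        linarith
      · rw [bo_false c, zero_mul, mul_zero]
        exact gn
    have g2 : ag (G.cl x) * (fWi (wi (G.cl z)) y z * (bo (1 - ρ ≤ lab D y z)
          - bo (cG D K ρ t0 ≤ lc D x.2 + 2 * lab D y z))) ≤ gK2 K ρ w t0 t1 z x y := by
      have gn := gK2_nonneg K ρ w t0 t1 z x y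
      unfold fWi
      by_cases c : y.2.1 = false ∧ z.2.1 = false ∧ wi (G.cl z) = true
      · rw [bo_true c, one_mul]
        have k := gK2_ge (D := D) (K := K) (ρ := ρ) (w := w) (t0 := t0) (t1 := t1) (x := x)
          (y := y) (z := z) hs c.1 c.2.1 (h.hwi z hz c.2.2)
        have k2 := mul_le_mul_of_nonneg_left k n9
        have k3 := mul_le_mul_of_nonneg_right (h.hag x hx hs) gn
        linarith
      · rw [bo_false c, zero_mul, mul_zero]
        exact gn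
    unfold mQ3 at p
    rw [u1, u2, wn, e1', e2']
    linarith

end

end MP61673a.FE
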