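import Pool.Agent.Mu673.FEin
import Pool.Agent.Mu673.FE6

/-!
IN CELLS, JOINT PART (helper56): prices on the outer labels, zone constants of `kz9` and families of
label functions in one pair rule per sampler node and pair of classes; crude families.
-/

set_option autoImplicit false

namespace MP61673a.FE

open Finset MP61673a.Kink MP61673a.Bary MP61673a.Sos MP61673a.Fin

noncomputable section

variable {C : Type} {M : ℕ} {σ δ : ℝ} {D K ρ : ℤ} {kL kR : ℝ}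

namespace GrdD

variable {G : GrdD C M σ δ D K ρ kL kR}

/-- A CRUDE FAMILY: one label function per sampler node -/
theorem fam_crudeP {χ : C × ℤ → ℤ → ℝ} (h0 : ∀ ζ m, 0 ≤ χ ζ m)
    {v : C → ℝ} {V1 : ℝ} (hv0 : ∀ c, 0 ≤ v c) (hv1 : ∀ c, v c ≤ V1)
    {fl : C → C → ℝ} (hf0 : ∀ c d, 0 ≤ fl c d) (hf1 : ∀ c d, fl c d ≤ 1)
    {Φ : P4 → P4 → P4 → ℝ} {cond : P4 → P4 → P4 → Prop} [∀ x y z, Decidable (cond x y z)]
    (hΦ : ∀ x y z, G.ok x → G.ok y → G.ok z →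
      Φ x y z ≤ v (G.cl x) * (fl (G.cl y) (G.cl z) * bo (cond x y z)))
    {ε : ℝ} (hε : 0 ≤ ε)
    (hc : ∀ x y z, G.ok x → G.ok y → G.ok z → cond x y z → ∀ i ∈ nd G.lo G.hi (G.cl x),
      |G.J x - i| < 1 → 1 ≤ pl (χ (G.cl x, i)) (yc M σ D (lab D y z)) + ε) :
    G.FamP Φ (fun ζ a b m => v ζ.1 * (fl a b * χ ζ m)) (V1 * ε) := by
  intro x y z hx hy hz
  set Y : ℝ := yc M σ D (lab D y z) with hY
  have key : bo (cond x y z)
      ≤ kX G.lo G.hi (fun ζ => pl (χ ζ) Y) (G.pt x) + ε := by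
    unfold bo
    split_ifs with c1
    · have := G.le_kX hx (v := 1 - ε) (f := fun ζ => pl (χ ζ) Y) (fun i hi' hi2 => by
        have := hc x y z hx hy hz c1 i hi' hi2
        linarith)
      linarith
    · have : 0 ≤ kX G.lo G.hi (fun ζ => pl (χ ζ) Y) (G.pt x) :=
        kX_nonneg _ _ _ fun _ _ => pl_nonneg (h0 _) _
      linarith
  have e1 : kX G.lo G.hi (fun ζ => pl (fun m => v ζ.1 * (fl (G.cl y) (G.cl z)
      * χ ζ m)) Y) (G.pt x)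
      = v (G.cl x) * (fl (G.cl y) (G.cl z) * kX G.lo G.hi (fun ζ => pl (χ ζ) Y) (G.pt x)) := by
    have e2 : (fun ζ : C × ℤ => pl (fun m => v ζ.1 * (fl (G.cl y) (G.cl z) * χ ζ m)) Y)
        = fun ζ => v ζ.1 * (fl (G.cl y) (G.cl z) * pl (χ ζ) Y) := by
      funext ζ
      rw [pl_smul' (v ζ.1) (fun m => fl (G.cl y) (G.cl z) * χ ζ m),
        pl_smul' (fl (G.cl y) (G.cl z)) (χ ζ)]
    rw [e2, kX_cl v, kX_smul]
  beta_reduce
  rw [e1]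
  have h1 := hΦ x y z hx hy hz
  have h2 := mul_le_mul_of_nonneg_left (mul_le_mul_of_nonneg_left key (hf0 (G.cl y) (G.cl z)))
    (hv0 (G.cl x))
  have h3 : v (G.cl x) * (fl (G.cl y) (G.cl z) * ε) ≤ V1 * ε := by
    have a1 := mul_le_mul_of_nonneg_right (hf1 (G.cl y) (G.cl z)) hε
    have a2 := mul_le_mul_of_nonneg_left a1 (hv0 (G.cl x))
    have a3 := mul_le_mul_of_nonneg_right (hv1 (G.cl x)) hε
    linarith
  linarith

end GrdD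

/-! ### The joint part -/

/-- coefficients of the zone constants at the sampler nodes -/
structure CoI (C : Type) where
  a : C × ℤ → ℝ
  b : C × ℤ → ℝ
  e : C × ℤ → ℝ
  g : C × ℤ → ℝ
  w1 : C × ℤ → ℝ
  w2 : C × ℤ → ℝ
  ag : C × ℤ → ℝ
  ow : C × ℤ → ℝ
  r1 : C × ℤ → ℝ
  r2 : C × ℤ → ℝ

/-- the constant kernels with coefficients -/
def cstI (D ρ V : ℤ) (a b e g w1 w2 ag ow r1 r2 : ℝ) (wi : Bool) (y z : P4) : ℝ :=
  a * kNP V (1 + ρ) y.2 z.2 + b * kNQ V (1 + ρ) y.2 z.2 + e * kQP (D - ρ + 1) y.2 z.2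
    + g * kPQ (D - ρ + 1) y.2 z.2
    + w1 * (bo (-D ≤ lab D y z ∧ lab D y z ≤ -1 - ρ) + fPQ y z * bo (lab D y z ≤ 2 * D))
    + w2 * (bo (D + ρ < lab D y z ∧ lab D y z ≤ 2 * D) + fQP y z * bo (-D ≤ lab D y z))
    + r1 * (fPQ y z * bo (2 * D < lab D y z)) + r2 * (fQP y z * bo (lab D y z < -D))
    - ag * (fWi wi y z * (bo (-ρ ≤ lab D y z) + bo (1 - ρ ≤ lab D y z)))
    - ow * (fQP y z * bo (lab D y z ≤ -ρ))

section joint

variable (G : GrdD C M σ δ D K ρ kL kR) {V : ℤ} (F : Flg G.toGrd V) (wi : C → Bool)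

/-- zone constants of a pair of classes at a sampler node -/
def kzI (k : CoI C) (ζ : C × ℤ) (c d : C) (i : Fin 9) : ℝ :=
  kz9 (F.pole c) (F.pole d) (F.vI d) (F.vO d) (wi d) (k.a ζ) (k.b ζ) (k.e ζ) (k.g ζ) (k.w1 ζ)
    (k.w2 ζ) (k.ag ζ) (k.ow ζ) (k.r1 ζ) (k.r2 ζ) i

/-- zone tables: price, zone constants, families -/
def lamI (g : Fin 3 → C × ℤ → Bool → ℤ → ℝ) (k : CoI C) (lamF : C × ℤ → C → C → ℤ → ℝ)
    (ζ : C × ℤ) (c d : C) (i : Fin 9) (m : ℤ) : ℝ :=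
  g9 g ζ (F.typ c) i m + kzI G F wi k ζ c d i + lamF ζ c d m

/-- pair function: price, zone constants, families -/
def jI (g : Fin 3 → C × ℤ → Bool → ℤ → ℝ) (k : CoI C) (lamF : C × ℤ → C → C → ℤ → ℝ) (V : ℤ)
    (ζ : C × ℤ) (y z : P4) : ℝ :=
  gzo M σ D ρ g ζ y.1 (lab D y z)
    + cstI D ρ V (k.a ζ) (k.b ζ) (k.e ζ) (k.g ζ) (k.w1 ζ) (k.w2 ζ) (k.ag ζ) (k.ow ζ) (k.r1 ζ)
      (k.r2 ζ) (wi (G.cl z)) y z
    + pl (lamF ζ (G.cl y) (G.cl z)) (yc M σ D (lab D y z))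

/-- JOINT PAIR RULE OF AN IN CELL -/
theorem jI_pairP (hρ : 1 ≤ ρ) (hρD : ρ < D)
    (hI : ∀ l, ∃ x ∈ I9 M σ kL kR (zn9 D ρ l), |yc M σ D l - x| ≤ 2 * δ)
    {g : Fin 3 → C × ℤ → Bool → ℤ → ℝ} {k : CoI C}
    {lamF : C × ℤ → C → C → ℤ → ℝ} {L W : C × ℤ → C → C → ℤ → ℝ} {B : ℝ}
    (hb : ∀ ζ c d i m, |lamI G F wi g k lamF ζ c d i m| ≤ B)
    (hL : ∀ ζ c d m, |L ζ c d m| ≤ B)
    (hz0 : ∀ ζ, ζ.2 ∈ nd G.lo G.hi ζ.1 → ∀ c d,
      Zone9 M σ kL kR (lamI G F wi g k lamF ζ c d) (L ζ c d))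
    (hW : ∀ ζ, ζ.2 ∈ nd G.lo G.hi ζ.1 → ∀ c d, EndOK (L ζ c d) (W ζ c d)) :
    G.PairP (jI G wi g k lamF V)
      (fun ζ a b => W ζ a.1 b.1 (2 * b.2 - a.2)) (14 * B * δ) := by
  have key := G.zone_pairPI hI hb hL (fun ζ hζ c d i x hx => hz0 ζ hζ c d i x hx) hW
    (Ψ := jI G wi g k lamF V) (ε := 0) (fun ζ _ y z hy hz => ?_)
  · rw [add_zero] at key
    exact key
  · have q := kz9_le hρ hρD (V := V) (y := y) (z := z) (wi := wi (G.cl z)) (F.hvI z hz)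
      (F.hvO z hz) (k.a ζ) (k.b ζ) (k.e ζ) (k.g ζ) (k.w1 ζ) (k.w2 ζ) (k.ag ζ) (k.ow ζ) (k.r1 ζ)
      (k.r2 ζ)
    have e1 := g9_eq (M := M) (σ := σ) hρ hρD g ζ y.1 (lab D y z)
    have e2 : pl (lamI G F wi g k lamF ζ (G.cl y) (G.cl z) (zn9 D ρ (lab D y z)))
        (yc M σ D (lab D y z))
        = pl (g9 g ζ (F.typ (G.cl y)) (zn9 D ρ (lab D y z))) (yc M σ D (lab D y z))
          + kzI G F wi k ζ (G.cl y) (G.cl z) (zn9 D ρ (lab D y z))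
          + pl (lamF ζ (G.cl y) (G.cl z)) (yc M σ D (lab D y z)) := by
      unfold lamI pl
      ring
    rw [e2, ← F.htyp y hy, e1]
    unfold kzI
    rw [← F.hpole y hy, ← F.hpole z hz]
    unfold jI gzo cstI
    linarith

/-- coefficient functions of the third point, below / above the tables `CoI` -/
structure CoX (k : CoI C) (a b e g w1 w2 ag ow r1 r2 : P4 → ℝ) : Prop where
  a : ∀ x, G.ok x → a x ≤ kX G.lo G.hi k.a (G.pt x)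
  b : ∀ x, G.ok x → b x ≤ kX G.lo G.hi k.b (G.pt x)
  e : ∀ x, G.ok x → e x ≤ kX G.lo G.hi k.e (G.pt x)
  g : ∀ x, G.ok x → g x ≤ kX G.lo G.hi k.g (G.pt x)
  w1 : ∀ x, G.ok x → w1 x ≤ kX G.lo G.hi k.w1 (G.pt x)
  w2 : ∀ x, G.ok x → w2 x ≤ kX G.lo G.hi k.w2 (G.pt x)
  ag : ∀ x, G.ok x → kX G.lo G.hi k.ag (G.pt x) ≤ ag x
  ow : ∀ x, G.ok x → kX G.lo G.hi k.ow (G.pt x) ≤ ow x
  r1 : ∀ x, G.ok x → r1 x ≤ kX G.lo G.hi k.r1 (G.pt x)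
  r2 : ∀ x, G.ok x → r2 x ≤ kX G.lo G.hi k.r2 (G.pt x)

variable {G}

/-- the constant kernels: interpolation of the coefficients -/
lemma cstI_kX {k : CoI C} {a b e g w1 w2 ag ow r1 r2 : P4 → ℝ}
    (h : CoX G k a b e g w1 w2 ag ow r1 r2) {x : P4} (hx : G.ok x) (wi : Bool) (y z : P4) :
    cstI D ρ V (a x) (b x) (e x) (g x) (w1 x) (w2 x) (ag x) (ow x) (r1 x) (r2 x) wi y z
      ≤ kX G.lo G.hi (fun ζ => cstI D ρ V (k.a ζ) (k.b ζ) (k.e ζ) (k.g ζ) (k.w1 ζ) (k.w2 ζ)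
        (k.ag ζ) (k.ow ζ) (k.r1 ζ) (k.r2 ζ) wi y z) (G.pt x) := by
  set p : ℝ := bo (-D ≤ lab D y z ∧ lab D y z ≤ -1 - ρ) + fPQ y z * bo (lab D y z ≤ 2 * D)
    with hp
  set q : ℝ := bo (D + ρ < lab D y z ∧ lab D y z ≤ 2 * D) + fQP y z * bo (-D ≤ lab D y z)
    with hq
  set r : ℝ := fPQ y z * bo (2 * D < lab D y z) with hr
  set s : ℝ := fQP y z * bo (lab D y z < -D) with hs
  set t : ℝ := fWi wi y z * (bo (-ρ ≤ lab D y z) + bo (1 - ρ ≤ lab D y z)) with ht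
  set u : ℝ := fQP y z * bo (lab D y z ≤ -ρ) with hu
  have p0 : 0 ≤ p := add_nonneg (bo_nonneg _) (mul_nonneg (bo_nonneg _) (bo_nonneg _))
  have q0 : 0 ≤ q := add_nonneg (bo_nonneg _) (mul_nonneg (bo_nonneg _) (bo_nonneg _))
  have r0 : 0 ≤ r := mul_nonneg (bo_nonneg _) (bo_nonneg _)
  have s0 : 0 ≤ s := mul_nonneg (bo_nonneg _) (bo_nonneg _)
  have t0 : 0 ≤ t := mul_nonneg (bo_nonneg _) (add_nonneg (bo_nonneg _) (bo_nonneg _))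
  have u0 : 0 ≤ u := mul_nonneg (bo_nonneg _) (bo_nonneg _)
  have e1 : (fun ζ => cstI D ρ V (k.a ζ) (k.b ζ) (k.e ζ) (k.g ζ) (k.w1 ζ) (k.w2 ζ)
        (k.ag ζ) (k.ow ζ) (k.r1 ζ) (k.r2 ζ) wi y z)
      = fun ζ => k.a ζ * kNP V (1 + ρ) y.2 z.2 + k.b ζ * kNQ V (1 + ρ) y.2 z.2
        + k.e ζ * kQP (D - ρ + 1) y.2 z.2 + k.g ζ * kPQ (D - ρ + 1) y.2 z.2 + k.w1 ζ * p
        + k.w2 ζ * q + k.r1 ζ * r + k.r2 ζ * s + k.ag ζ * (-t) + k.ow ζ * (-u) := by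
    funext ζ
    unfold cstI
    rw [hp, hq, hr, hs, ht, hu]
    ring
  rw [e1, kX_add, kX_add, kX_add, kX_add, kX_add, kX_add, kX_add, kX_add, kX_add,
    kX_mul_right, kX_mul_right, kX_mul_right, kX_mul_right, kX_mul_right, kX_mul_right,
    kX_mul_right, kX_mul_right, kX_mul_right, kX_mul_right]
  have i1 := mul_le_mul_of_nonneg_right (h.a x hx) (kNP_nonneg V (1 + ρ) y.2 z.2)
  have i2 := mul_le_mul_of_nonneg_right (h.b x hx) (kNQ_nonneg V (1 + ρ) y.2 z.2)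
  have i3 := mul_le_mul_of_nonneg_right (h.e x hx) (kQP_nonneg (D - ρ + 1) y.2 z.2)
  have i4 := mul_le_mul_of_nonneg_right (h.g x hx) (kPQ_nonneg (D - ρ + 1) y.2 z.2)
  have i5 := mul_le_mul_of_nonneg_right (h.w1 x hx) p0
  have i6 := mul_le_mul_of_nonneg_right (h.w2 x hx) q0
  have i7 := mul_le_mul_of_nonneg_right (h.r1 x hx) r0
  have i8 := mul_le_mul_of_nonneg_right (h.r2 x hx) s0
  have i9 := mul_le_mul_of_nonneg_right (h.ag x hx) t0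
  have i10 := mul_le_mul_of_nonneg_right (h.ow x hx) u0
  unfold cstI
  rw [← hp, ← hq, ← hr, ← hs, ← ht, ← hu]
  linarith

/-- JOINT PART OF AN IN CELL -/
theorem jI_part {g : Fin 3 → C × ℤ → Bool → ℤ → ℝ} {k : CoI C}
    {lamF : C × ℤ → C → C → ℤ → ℝ} {W : C × ℤ → C × ℤ → C × ℤ → ℝ} {ε εF : ℝ}
    (hW : G.PairP (jI G wi g k lamF V) W ε) {a b e g' w1 w2 ag ow r1 r2 : P4 → ℝ}
    (h : CoX G k a b e g' w1 w2 ag ow r1 r2) {Φ : P4 → P4 → P4 → ℝ} (hΦ : G.FamP Φ lamF εF) :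
    G.Part (fun x y z => kX G.lo G.hi (fun ζ => gzo M σ D ρ g ζ y.1 (lab D y z)) (G.pt x)
      + cstI D ρ V (a x) (b x) (e x) (g' x) (w1 x) (w2 x) (ag x) (ow x) (r1 x) (r2 x)
        (wi (G.cl z)) y z + Φ x y z) W (ε + εF) := by
  intro x y z hx hy hz
  have h0 := hW.part x y z hx hy hz
  have h1 := hΦ x y z hx hy hz
  have h2 := cstI_kX (V := V) h hx (wi (G.cl z)) y z
  beta_reduce at h0 ⊢
  unfold jI at h0
  rw [kX_add, kX_add] at h0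
  linarith

end joint

end

end MP61673a.FE
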