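import Pool.Agent.Mu673.FEin2

/-!
IN CELLS, COVERAGE (helper56): prices with the additional windows, refined majorants of the windows
for the midpoints, coverage kernel, midpoint part.
-/

set_option autoImplicit false

namespace MP61673a.FE

open Finset MP61673a.Kink MP61673a.Bary MP61673a.Sos MP61673a.Fin

noncomputable section

/-! ### Majorants of the windows -/

/-- majorant of the window `[0, y)` at the doubled depth `X` -/
def mjW (D E y X : ℤ) : ℝ :=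
  1 / 2 * bo (0 < y ∧ 2 * (D - y) - E < X ∧ X ≤ 2 * D + E)
    + 1 / 2 * bo (0 < y ∧ 2 * (D - y) < X ∧ X ≤ 2 * D)

lemma mjW_nonneg (D E y X : ℤ) : 0 ≤ mjW D E y X := by
  unfold mjW
  have h1 := bo_nonneg (0 < y ∧ 2 * (D - y) - E < X ∧ X ≤ 2 * D + E)
  have h2 := bo_nonneg (0 < y ∧ 2 * (D - y) < X ∧ X ≤ 2 * D)
  linarith

lemma maj_win (D E y : ℤ) : Maj D E (fun s => bo (0 ≤ s ∧ s < y)) (mjW D E y) where
  nonneg := mjW_nonneg D E y
  maj := by
    intro j j' h1 h2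
    have v : ∀ j : ℤ, gdep D (fun s => bo (0 ≤ s ∧ s < y)) j
        = bo (1 ≤ j ∧ j ≤ D ∧ D - y < j) := by
      intro j
      unfold gdep
      by_cases c : 1 ≤ j ∧ j ≤ D
      · rw [if_pos c]
        unfold bo
        exact if_congr (by constructor <;> intro h <;> omega) rfl rfl
      · rw [if_neg c, bo_false (fun h => c ⟨h.1, h.2.1⟩)]
    rw [v, v]
    unfold mjW
    by_cases c1 : 1 ≤ j ∧ j ≤ D ∧ D - y < j
    · by_cases c2 : 1 ≤ j' ∧ j' ≤ D ∧ D - y < j'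
      · rw [bo_true c1, bo_true c2, bo_true (show 0 < y ∧ 2 * (D - y) - E < j + j'
          ∧ j + j' ≤ 2 * D + E by omega), bo_true (show 0 < y ∧ 2 * (D - y) < j + j'
          ∧ j + j' ≤ 2 * D by omega)]
        norm_num
      · rw [bo_true c1, bo_false c2, bo_true (show 0 < y ∧ 2 * (D - y) - E < j + j'
          ∧ j + j' ≤ 2 * D + E by omega)]
        have := bo_nonneg (0 < y ∧ 2 * (D - y) < j + j' ∧ j + j' ≤ 2 * D)
        linarith
    · by_cases c2 : 1 ≤ j' ∧ j' ≤ D ∧ D - y < j'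
      · rw [bo_false c1, bo_true c2, bo_true (show 0 < y ∧ 2 * (D - y) - E < j + j'
          ∧ j + j' ≤ 2 * D + E by omega)]
        have := bo_nonneg (0 < y ∧ 2 * (D - y) < j + j' ∧ j + j' ≤ 2 * D)
        linarith
      · rw [bo_false c1, bo_false c2]
        have h3 := bo_nonneg (0 < y ∧ 2 * (D - y) < j + j' ∧ j + j' ≤ 2 * D)
        have h4 := bo_nonneg (0 < y ∧ 2 * (D - y) - E < j + j' ∧ j + j' ≤ 2 * D + E)
        linarith

lemma maj_add {D E : ℤ} {g g' G G' : ℤ → ℝ} (h : Maj D E g G) (h' : Maj D E g' G') :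
    Maj D E (fun s => g s + g' s) (fun X => G X + G' X) where
  nonneg := fun x => add_nonneg (h.nonneg x) (h'.nonneg x)
  maj := by
    intro j j' h1 h2
    have a := h.maj j j' h1 h2
    have b := h'.maj j j' h1 h2
    have e : ∀ j, gdep D (fun s => g s + g' s) j = gdep D g j + gdep D g' j := by
      intro j
      unfold gdep
      split_ifs
      · rfl
      · simp
    rw [e, e]
    linarith

lemma maj_smul {D E : ℤ} {g G : ℤ → ℝ} (h : Maj D E g G) {c : ℝ} (hc : 0 ≤ c) :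
    Maj D E (fun s => c * g s) (fun X => c * G X) where
  nonneg := fun x => mul_nonneg hc (h.nonneg x)
  maj := by
    intro j j' h1 h2
    have a := mul_le_mul_of_nonneg_left (h.maj j j' h1 h2) hc
    have e : ∀ j, gdep D (fun s => c * g s) j = c * gdep D g j := by
      intro j
      unfold gdep
      split_ifs
      · rfl
      · simp
    rw [e, e]
    linarith

/-- majorant of the additional prices of the right labels -/
def mwR (D K ρ w c1 c2 t1 E : ℤ) (x : P3) (X : ℤ) : ℝ :=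
  bW w c1 x * mjW D E (xRw K ρ t1 x) X + bW w c2 x * mjW D E (D - ρ) X

/-- majorant of the additional prices of the left labels -/
def mwL (D K ρ w c1 c2 t1 E : ℤ) (x : P3) (X : ℤ) : ℝ :=
  bW w c1 x * mjW D E (D - ρ) X + bW w c2 x * mjW D E (xLw K ρ t1 x) X

lemma maj_winR (D K ρ w c1 c2 t1 E : ℤ) (x : P3) :
    Maj D E (winR D K ρ w c1 c2 t1 x) (mwR D K ρ w c1 c2 t1 E x) :=
  maj_add (maj_smul (maj_win D E _) (bo_nonneg _)) (maj_smul (maj_win D E _) (bo_nonneg _))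

lemma maj_winL (D K ρ w c1 c2 t1 E : ℤ) (x : P3) :
    Maj D E (winL D K ρ w c1 c2 t1 x) (mwL D K ρ w c1 c2 t1 E x) :=
  maj_add (maj_smul (maj_win D E _) (bo_nonneg _)) (maj_smul (maj_win D E _) (bo_nonneg _))

lemma winR_nonneg (D K ρ w c1 c2 t1 : ℤ) (x : P3) (s : ℤ) : 0 ≤ winR D K ρ w c1 c2 t1 x s :=
  add_nonneg (mul_nonneg (bo_nonneg _) (bo_nonneg _)) (mul_nonneg (bo_nonneg _) (bo_nonneg _))

lemma winL_nonneg (D K ρ w c1 c2 t1 : ℤ) (x : P3) (s : ℤ) : 0 ≤ winL D K ρ w c1 c2 t1 x s :=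
  add_nonneg (mul_nonneg (bo_nonneg _) (bo_nonneg _)) (mul_nonneg (bo_nonneg _) (bo_nonneg _))

/-! ### Sums of the windows -/

lemma sum_win {D y : ℤ} (hD : 0 ≤ D) (hy : y ≤ D) :
    ∑ s ∈ Ico 0 D, bo (0 ≤ s ∧ s < y) = max 0 (y:ℝ) := by
  rcases le_total y 0 with c | c
  · have h0 : ∀ s ∈ Ico 0 D, bo (0 ≤ s ∧ s < y) = 0 := fun s _ => bo_false (by omega)
    rw [sum_congr rfl h0, sum_const_zero, max_eq_left]
    exact_mod_cast c
  · have e : Ico 0 D = Ico 0 y ∪ Ico y D := (Ico_union_Ico_eq_Ico c hy).symm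
    rw [e, sum_union (Ico_disjoint_Ico_consecutive 0 y D)]
    have h1 : ∀ s ∈ Ico 0 y, bo (0 ≤ s ∧ s < y) = 1 := fun s hs => bo_true (by
      have := mem_Ico.1 hs
      omega)
    have h2 : ∀ s ∈ Ico y D, bo (0 ≤ s ∧ s < y) = 0 := fun s hs => bo_false (by
      have := mem_Ico.1 hs
      omega)
    rw [sum_congr rfl h1, sum_congr rfl h2, sum_const_zero, add_zero, sum_const, Int.card_Ico,
      nsmul_eq_mul, mul_one, sub_zero, max_eq_right (by exact_mod_cast c)]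
    have : ((y.toNat : ℕ) : ℤ) = y := Int.toNat_of_nonneg c
    exact_mod_cast this

/-- THE SUM OF THE ADDITIONAL PRICES -/
theorem sum_winRL {D K ρ w c1 c2 t1 : ℤ} (hD : D = 4 * K + 1) (hK : 0 ≤ K) (hρ : 0 ≤ ρ)
    (hρK : ρ ≤ K) (hc1 : c1 ≤ 2 * t1) (hc2 : 2 * c2 ≤ t1 + 1) (x : P3) :
    ∑ s ∈ Ico 0 D, (winR D K ρ w c1 c2 t1 x s + winL D K ρ w c1 c2 t1 x s)
      = bW w c1 x * (max 0 (xRw K ρ t1 x : ℝ) + (D - ρ))
        + bW w c2 x * (max 0 (xLw K ρ t1 x : ℝ) + (D - ρ)) := by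
  have s0 : ∑ s ∈ Ico 0 D, bo (0 ≤ s ∧ s < D - ρ) = (D:ℝ) - ρ := by
    rw [sum_win (by omega) (by omega), max_eq_right]
    · push_cast
      rfl
    · exact_mod_cast (by omega : (0:ℤ) ≤ D - ρ)
  have hR : bW w c1 x * ∑ s ∈ Ico 0 D, bo (0 ≤ s ∧ s < xRw K ρ t1 x)
      = bW w c1 x * max 0 (xRw K ρ t1 x : ℝ) := by
    unfold bW
    by_cases c : x.1 = false ∧ w ≤ x.2 ∧ x.2 < c1
    · rw [sum_win (by omega) (by unfold xRw; omega)]
    · rw [bo_false c, zero_mul, zero_mul]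
  have hL : bW w c2 x * ∑ s ∈ Ico 0 D, bo (0 ≤ s ∧ s < xLw K ρ t1 x)
      = bW w c2 x * max 0 (xLw K ρ t1 x : ℝ) := by
    unfold bW
    by_cases c : x.1 = false ∧ w ≤ x.2 ∧ x.2 < c2
    · rw [sum_win (by omega) (by unfold xLw; omega)]
    · rw [bo_false c, zero_mul, zero_mul]
  unfold winR winL
  rw [sum_add_distrib, sum_add_distrib, sum_add_distrib, ← mul_sum, ← mul_sum, ← mul_sum,
    ← mul_sum, hR, hL, s0]
  ring

variable {C : Type} {M : ℕ} {σ δ : ℝ} {D K ρ : ℤ} {kL kR : ℝ}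

/-- the two midpoint terms of a pair through the additional prices -/
def wMid (D K ρ w c1 c2 t1 E : ℤ) (x y z : P4) : ℝ :=
  1 / 2 * (if y.1 = z.1 ∧ (rc D y.2 < 0 ∨ rc D z.2 < 0) then
      mwR D K ρ w c1 c2 t1 E x.2 (-rc D y.2 - rc D z.2) else 0)
    + 1 / 2 * (if y.1 = z.1 ∧ (lc D y.2 < 0 ∨ lc D z.2 < 0) then
      mwL D K ρ w c1 c2 t1 E x.2 (-lc D y.2 - lc D z.2) else 0)

namespace GrdD

variable (G : GrdD C M σ δ D K ρ kL kR)

/-- COVERAGE KERNEL OF AN IN CELL -/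
theorem cov_in {w c1 c2 t1 E : ℤ} (hD : D = 4 * K + 1) (hK : 0 ≤ K) (hρ : 0 ≤ ρ)
    (hρK : ρ ≤ K) (hc1 : c1 ≤ 2 * t1) (hc2 : 2 * c2 ≤ t1 + 1)
    (g : Fin 3 → C × ℤ → Bool → ℤ → ℝ) (mR mL : C × ℤ → ℤ → ℝ) (x y z : P4) :
    cov3t D (fun x e s => G.gR g x e s + winR D K ρ w c1 c2 t1 x.2 s)
        (fun x X => G.mj mR x X + mwR D K ρ w c1 c2 t1 E x.2 X)
        (fun x e s => G.gL g x e s + winL D K ρ w c1 c2 t1 x.2 s)
        (fun x X => G.mj mL x X + mwL D K ρ w c1 c2 t1 E x.2 X) x y z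
      = kX G.lo G.hi (fun ζ => gzo M σ D ρ g ζ y.1 (lab D y z)) (G.pt x)
        + winN D K ρ w c1 c2 t1 x.2 (lab D y z)
        + (kX G.lo G.hi (fun ζ => midN D mR mL ζ y z) (G.pt x)
          + wMid D K ρ w c1 c2 t1 E x y z) := by
  have h0 := G.cov_le9 g mR mL x y z
  have h1 := win_gdep hD hK hρ hρK hc1 hc2 (w := w) x.2 (lab D y z)
  have e1 : rc D y.2 - 2 * rc D z.2 = lab D y z - D := by
    have a := rc_add_lc D y.2
    have b := rc_add_lc D z.2
    unfold lab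
    linarith
  have e2 : lc D y.2 - 2 * lc D z.2 = -lab D y z := by
    unfold lab
    ring
  rw [← h1]
  have a1 : ∀ (p q : ℤ → ℝ) (j : ℤ), gdep D (fun s => p s + q s) j = gdep D p j + gdep D q j := by
    intro p q j
    unfold gdep
    split_ifs
    · rfl
    · simp
  have a2 : ∀ (c : Prop) [Decidable c] (p q : ℝ),
      (if c then p + q else 0) = (if c then p else 0) + (if c then q else 0) := by
    intro c _ p q
    split_ifs
    · rfl
    · simp
  rw [add_comm (kX G.lo G.hi (fun ζ => gzo M σ D ρ g ζ y.1 (lab D y z)) (G.pt x)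
    + (gdep D (winR D K ρ w c1 c2 t1 x.2) (lab D y z - D)
      + gdep D (winL D K ρ w c1 c2 t1 x.2) (-lab D y z)))]
  unfold cov3t covRt covLt at h0 ⊢
  unfold wMid
  rw [a1, a1, e1, e2, a2, a2]
  rw [e1, e2] at h0
  linarith

end GrdD

end

end MP61673a.FE
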