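import Pool.Agent.Mu673.NetW

/-!
THE NET OF AN IN STRAY IN SAMPLER FORM (helper87, form of helper79). The costs `kKK`, `kKK'` and the
gains `kKCc`, `kKCc'` of a point `x` of `P` are charged to the element of `Q` of the pair: `T3` is
invariant under permutations. The single label `ρ` of the pairs of `P` is paid by the error term.
-/

set_option autoImplicit false

namespace MP61673a.Fin

open Finset MP61673a.W MP61673a.LiftW MP61673a.Mids MP61673a.Sos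
open MP61673a.Lift hiding PP QQ

noncomputable section

/-! ### Permutations of a triple sum -/

lemma T3_perm23 (P Q : WS) (F : P3 → P3 → P3 → ℝ) :
    T3 P Q (fun x y z => F x z y) = T3 P Q F := by
  unfold T3 tri
  refine sum_congr rfl fun a _ => ?_
  rw [sum_comm]
  refine sum_congr rfl fun b _ => sum_congr rfl fun c _ => ?_
  ring

lemma T3_perm12 (P Q : WS) (F : P3 → P3 → P3 → ℝ) :
    T3 P Q (fun x y z => F y x z) = T3 P Q F := by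
  unfold T3 tri
  rw [sum_comm]
  refine sum_congr rfl fun a _ => sum_congr rfl fun b _ => sum_congr rfl fun c _ => ?_
  ring

lemma T3_perm13 (P Q : WS) (F : P3 → P3 → P3 → ℝ) :
    T3 P Q (fun x y z => F z y x) = T3 P Q F := by
  rw [← T3_perm12 P Q F, ← T3_perm23 P Q (fun x y z => F y x z),
    ← T3_perm12 P Q (fun x y z => F z x y)]

/-- `F z x y`: the third point comes first -/
lemma T3_rot (P Q : WS) (F : P3 → P3 → P3 → ℝ) :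
    T3 P Q (fun x y z => F z x y) = T3 P Q F := by
  rw [← T3_perm12 P Q F, ← T3_perm23 P Q (fun x y z => F y x z)]

lemma T3_mono {P Q : WS} (hP : Good P) (hQ : Good Q) {F G : P3 → P3 → P3 → ℝ}
    (hFG : ∀ x y z, F x y z ≤ G x y z) : T3 P Q F ≤ T3 P Q G := by
  unfold T3 tri
  refine sum_le_sum fun a ha => sum_le_sum fun b hb => sum_le_sum fun c hc => ?_
  exact mul_le_mul_of_nonneg_left (hFG _ _ _) (mul_nonneg (mul_nonneg (wt3_nonneg hP hQ a ha)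
    (wt3_nonneg hP hQ b hb)) (wt3_nonneg hP hQ c hc))

/-! ### The kernel -/

/-- the cost `kKK` of the point `z` of `P`, single `y` in `P`, sampler `x` in `Q` -/
def sKR (K ρ w t1 c1 : ℤ) (x y z : P3) : ℝ :=
  bo (z.1 = false ∧ w ≤ z.2 ∧ z.2 < c1) * kKK K ρ z.2 (-t1) y x

/-- the cost `kKK'` of the point `z` of `P`, single `y` in `P`, sampler `x` in `Q` -/
def sKL (K ρ w t1 c2 : ℤ) (x y z : P3) : ℝ :=
  bo (z.1 = false ∧ w ≤ z.2 ∧ z.2 < c2) * kKK' K ρ (-t1) z.2 x y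

/-- the label `ρ` of a pair of `P`, sampler in `Q` -/
def sR1 (ρ : ℤ) (x y z : P3) : ℝ :=
  bo ((x.1 = true ∧ y.1 = false ∧ z.1 = false) ∧ y.2 - 2 * z.2 = ρ)

/-- the cost `kKK'` without the label `ρ` -/
def sKL1 (K ρ w t1 c2 : ℤ) (x y z : P3) : ℝ :=
  bo (z.1 = false ∧ w ≤ z.2 ∧ z.2 < c2) *
    bo ((x.1 = true ∧ y.1 = false) ∧ (1 + ρ ≤ x.2 + 2 * t1 ∧ 1 + ρ ≤ y.2 - 2 * z.2) ∧
      2 * K + 1 + ρ + 2 * (-t1 + 2 * z.2) ≤ x.2 + 2 * y.2)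

lemma sKL_le (K ρ w t1 c2 : ℤ) (x y z : P3) :
    sKL K ρ w t1 c2 x y z ≤ sKL1 K ρ w t1 c2 x y z + sR1 ρ x y z := by
  unfold sKL sKL1 sR1 kKK'
  by_cases c : z.1 = false ∧ w ≤ z.2 ∧ z.2 < c2
  · rw [bo_true c, one_mul, one_mul]
    by_cases d : (x.1 = true ∧ y.1 = false) ∧ (1 + ρ ≤ x.2 - 2 * -t1 ∧
        K - (K - ρ) ≤ y.2 - 2 * z.2) ∧ 2 * K + 1 + ρ + 2 * (-t1 + 2 * z.2) ≤ x.2 + 2 * y.2
    · rw [bo_true d]
      by_cases e : y.2 - 2 * z.2 = ρ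
      · rw [bo_true (p := (x.1 = true ∧ y.1 = false ∧ z.1 = false) ∧ y.2 - 2 * z.2 = ρ)
          ⟨⟨d.1.1, d.1.2, c.1⟩, e⟩]
        have := bo_nonneg ((x.1 = true ∧ y.1 = false) ∧ (1 + ρ ≤ x.2 + 2 * t1 ∧
          1 + ρ ≤ y.2 - 2 * z.2) ∧ 2 * K + 1 + ρ + 2 * (-t1 + 2 * z.2) ≤ x.2 + 2 * y.2)
        linarith
      · obtain ⟨d1, ⟨d2, d3⟩, d4⟩ := d
        rw [bo_true (p := (x.1 = true ∧ y.1 = false) ∧ (1 + ρ ≤ x.2 + 2 * t1 ∧
          1 + ρ ≤ y.2 - 2 * z.2) ∧ 2 * K + 1 + ρ + 2 * (-t1 + 2 * z.2) ≤ x.2 + 2 * y.2)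
          ⟨d1, ⟨by omega, by omega⟩, d4⟩]
        have := bo_nonneg ((x.1 = true ∧ y.1 = false ∧ z.1 = false) ∧ y.2 - 2 * z.2 = ρ)
        linarith
    · rw [bo_false d]
      exact add_nonneg (bo_nonneg _) (bo_nonneg _)
  · rw [bo_false c, zero_mul, zero_mul, zero_add]
    exact bo_nonneg _

/-- one label of the pairs of `P` costs at most the square of the mass -/
lemma T3_sR1 {P Q : WS} (gP : Good P) (gQ : Good Q) (oP : OneW P) (ρ : ℤ) :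
    T3 P Q (sR1 ρ) ≤ (mass P + mass Q) ^ 2 := by
  rw [← T3_perm23 P Q (sR1 ρ), T3_eq]
  have h1 : ∀ x z : P3, T1 P Q (fun y => sR1 ρ x y z) ≤ 1 := by
    intro x z
    rw [T1_eq]
    have e1 : ∑ b ∈ Q.S, Q.f b * sR1 ρ x (true, Q.u b) z = 0 := by
      refine sum_eq_zero fun b _ => ?_
      unfold sR1
      rw [bo_false (by simp), mul_zero]
    have e2 : ∑ a ∈ P.S, P.f a * sR1 ρ x (false, P.u a) z
        ≤ ∑ a ∈ P.S, (if P.u a = 2 * z.2 + ρ then P.f a else 0) := by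
      refine sum_le_sum fun a ha => ?_
      have h0 := gP.f_nonneg a ha
      by_cases c : P.u a = 2 * z.2 + ρ
      · rw [if_pos c]
        have := bo_le_one ((x.1 = true ∧ false = false ∧ z.1 = false) ∧ P.u a - 2 * z.2 = ρ)
        calc P.f a * sR1 ρ x (false, P.u a) z ≤ P.f a * 1 := mul_le_mul_of_nonneg_left this h0
          _ = P.f a := mul_one _
      · rw [if_neg c]
        unfold sR1
        rw [bo_false (fun h => c (by have := h.2; simp only at this; omega)), mul_zero]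
    have := oP (2 * z.2 + ρ)
    linarith
  have h2 : ∀ x : P3, T2 P Q (fun z y => sR1 ρ x y z) ≤ mass P + mass Q := by
    intro x
    rw [T2_eq, ← T1_one P Q]
    refine sum_le_sum fun z hz => ?_
    exact mul_le_mul_of_nonneg_left (h1 x _) (wt3_nonneg gP gQ z hz)
  have h3 : T1 P Q (fun x => T2 P Q (fun z y => sR1 ρ x y z))
      ≤ T1 P Q (fun _ => mass P + mass Q) :=
    sum_le_sum fun x hx => mul_le_mul_of_nonneg_left (h2 _) (wt3_nonneg gP gQ x hx)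
  rw [T1_const] at h3
  have e : (mass P + mass Q) ^ 2 = (mass P + mass Q) * (mass P + mass Q) := by ring
  rw [e]
  exact h3

/-- the gain `kKCc` of the point `z` of `P`, single `y` in `P`, sampler `x` in `Q` -/
def sKC (K ρ t0 t1 c1 : ℤ) (x y z : P3) : ℝ :=
  bo (z.1 = false ∧ c1 ≤ z.2) * kKCc K ρ z.2 (-t0) (-t1) y x

/-- the gain `kKCc'` of the point `z` of `P`, single `y` in `P`, sampler `x` in `Q` -/
def sKCL (K ρ t0 t1 c2 : ℤ) (x y z : P3) : ℝ :=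
  bo (z.1 = false ∧ c2 ≤ z.2) * kKCc' K ρ (-t0) (-t1) z.2 x y

/-- the gain `kKCc'` in closed form, with the label `ρ` -/
def sKCL1 (K ρ t0 c2 : ℤ) (x y z : P3) : ℝ :=
  bo (z.1 = false ∧ c2 ≤ z.2) * bo ((x.1 = true ∧ y.1 = false) ∧ y.2 - 2 * z.2 ≤ ρ ∧
    2 * K + 1 + ρ + 2 * (-t0 + 2 * z.2) ≤ x.2 + 2 * y.2)

lemma sKCL_ge (K ρ t0 t1 c2 : ℤ) (x y z : P3) :
    sKCL1 K ρ t0 c2 x y z ≤ sKCL K ρ t0 t1 c2 x y z + sR1 ρ x y z := by
  unfold sKCL sKCL1 sR1 kKCc'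
  by_cases c : z.1 = false ∧ c2 ≤ z.2
  · rw [bo_true c, one_mul, one_mul]
    by_cases d : (x.1 = true ∧ y.1 = false) ∧ y.2 - 2 * z.2 ≤ ρ ∧
        2 * K + 1 + ρ + 2 * (-t0 + 2 * z.2) ≤ x.2 + 2 * y.2
    · rw [bo_true d]
      obtain ⟨d1, d2, d3⟩ := d
      by_cases e : y.2 - 2 * z.2 = ρ
      · rw [bo_true (p := (x.1 = true ∧ y.1 = false ∧ z.1 = false) ∧ y.2 - 2 * z.2 = ρ)
          ⟨⟨d1.1, d1.2, c.1⟩, e⟩]
        have := bo_nonneg ((x.1 = true ∧ y.1 = false) ∧ ¬(1 + ρ ≤ x.2 - 2 * -t1 ∧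
          K - (K - ρ) ≤ y.2 - 2 * z.2) ∧ 2 * K + 1 + ρ + 2 * (-t0 + 2 * z.2) ≤ x.2 + 2 * y.2)
        linarith
      · rw [bo_true (p := (x.1 = true ∧ y.1 = false) ∧ ¬(1 + ρ ≤ x.2 - 2 * -t1 ∧
          K - (K - ρ) ≤ y.2 - 2 * z.2) ∧ 2 * K + 1 + ρ + 2 * (-t0 + 2 * z.2) ≤ x.2 + 2 * y.2)
          ⟨d1, fun h => by have := h.2; omega, d3⟩]
        have := bo_nonneg ((x.1 = true ∧ y.1 = false ∧ z.1 = false) ∧ y.2 - 2 * z.2 = ρ)
        linarith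
    · rw [bo_false d]
      exact add_nonneg (bo_nonneg _) (bo_nonneg _)
  · rw [bo_false c, zero_mul, zero_mul, zero_add]
    exact bo_nonneg _

/-- windows, own gains and midpoints of the net of an IN stray -/
def n3b (K ρ V E w t0 t1 c1 c2 : ℤ) (x y z : P3) : ℝ :=
  if x.1 = false then
    bo (w ≤ x.2 ∧ x.2 < c1) * kNP V (1 + ρ) y z + bo (w ≤ x.2 ∧ x.2 < c2) * kNQ V (1 + ρ) y z
      - mP3 K ρ V E t1 x.2 y z
  else
    bo (1 ≤ x.2 + 2 * t0 ∧ x.2 + 2 * t1 ≤ 4 * K + 1)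
        * kPQ (2 * K + 1 + ρ + 2 * (4 * K + 1 - (x.2 + 2 * t0))) y z
      + bo (1 + ρ ≤ x.2 + 2 * t0)
        * (kQP (4 * K + 1 - K + min ((x.2 + 2 * t1 - ρ + 1) / 2) (K - ρ + 1)) y z
          - kQP (4 * K + 1 - K + (K - ρ + 1)) y z)
      - bo ((1 ≤ 2 * x.2 + t1 - (4 * K + 1) ∧ 2 * x.2 + t0 - (4 * K + 1) ≤ 4 * K + 1)
          ∧ ρ ≤ 2 * x.2 + t1 - (4 * K + 1))
        * kNQ V (thr K ρ (2 * x.2 + t1 - (4 * K + 1))) y z
      - 1 / 2 * omc t1 x.2 * mQ3 K ρ V E t1 x.2 y z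

/-- THE THREE-BODY KERNEL OF AN IN STRAY IN SAMPLER FORM -/
def n3s (K ρ V E w t0 t1 c1 c2 : ℤ) (x y z : P3) : ℝ :=
  n3b K ρ V E w t0 t1 c1 c2 x y z - sKR K ρ w t1 c1 x y z - sKL1 K ρ w t1 c2 x y z
    + sKC K ρ t0 t1 c1 x y z + sKCL1 K ρ t0 c2 x y z

lemma kKCc_nonneg (K ρ x y0 y1 : ℤ) (a b : P3) : 0 ≤ kKCc K ρ x y0 y1 a b := bo_nonneg _
lemma kKCc'_nonneg (K ρ x0 x1 y : ℤ) (a b : P3) : 0 ≤ kKCc' K ρ x0 x1 y a b := bo_nonneg _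
lemma kKK_nonneg (K ρ x y : ℤ) (a b : P3) : 0 ≤ kKK K ρ x y a b := bo_nonneg _
lemma kKK'_nonneg (K ρ x y : ℤ) (a b : P3) : 0 ≤ kKK' K ρ x y a b := bo_nonneg _

/-- the kernel of `NetW`, terms at their original sampler -/
lemma n3inw_eq (K ρ V E w t0 t1 c1 c2 : ℤ) (x y z : P3) :
    n3b K ρ V E w t0 t1 c1 c2 x y z - sKR K ρ w t1 c1 z y x - sKL K ρ w t1 c2 y z x
      + sKC K ρ t0 t1 c1 z y x + sKCL K ρ t0 t1 c2 y z x = n3inw K ρ V E w t0 t1 c1 c2 x y z := by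
  unfold n3inw n3b sKR sKL sKC sKCL
  rcases hs : x.1 with _ | _
  · rw [if_pos rfl, if_pos rfl]
    have e1 : bo (false = false ∧ w ≤ x.2 ∧ x.2 < c1) = bo (w ≤ x.2 ∧ x.2 < c1) := by
      by_cases c : w ≤ x.2 ∧ x.2 < c1
      · rw [bo_true ⟨rfl, c⟩, bo_true c]
      · rw [bo_false (fun h => c h.2), bo_false c]
    have e2 : bo (false = false ∧ w ≤ x.2 ∧ x.2 < c2) = bo (w ≤ x.2 ∧ x.2 < c2) := by
      by_cases c : w ≤ x.2 ∧ x.2 < c2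
      · rw [bo_true ⟨rfl, c⟩, bo_true c]
      · rw [bo_false (fun h => c h.2), bo_false c]
    have e3 : bo (false = false ∧ c1 ≤ x.2) = bo (c1 ≤ x.2) := by
      by_cases c : c1 ≤ x.2
      · rw [bo_true ⟨rfl, c⟩, bo_true c]
      · rw [bo_false (fun h => c h.2), bo_false c]
    have e4 : bo (false = false ∧ c2 ≤ x.2) = bo (c2 ≤ x.2) := by
      by_cases c : c2 ≤ x.2
      · rw [bo_true ⟨rfl, c⟩, bo_true c]
      · rw [bo_false (fun h => c h.2), bo_false c]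
    rw [e1, e2, e3, e4]
    ring
  · rw [if_neg (by simp), if_neg (by simp)]
    have e1 : bo (true = false ∧ w ≤ x.2 ∧ x.2 < c1) = 0 := bo_false (by simp)
    have e2 : bo (true = false ∧ w ≤ x.2 ∧ x.2 < c2) = 0 := bo_false (by simp)
    have e3 : bo (true = false ∧ c1 ≤ x.2) = 0 := bo_false (by simp)
    have e4 : bo (true = false ∧ c2 ≤ x.2) = 0 := bo_false (by simp)
    rw [e1, e2, e3, e4]
    ring

/-- the sampler form is at most the kernel of `NetW`, in sum, up to one label -/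
theorem T3_n3s_le {P Q : WS} (gP : Good P) (gQ : Good Q) (oP : OneW P)
    (K ρ V E w t0 t1 c1 c2 : ℤ) :
    T3 P Q (n3s K ρ V E w t0 t1 c1 c2)
      ≤ T3 P Q (n3inw K ρ V E w t0 t1 c1 c2) + 2 * (mass P + mass Q) ^ 2 := by
  have h0 := T3_sR1 gP gQ oP ρ
  have h1 : T3 P Q (n3s K ρ V E w t0 t1 c1 c2) - 2 * T3 P Q (sR1 ρ)
      ≤ T3 P Q (fun x y z => (((n3b K ρ V E w t0 t1 c1 c2 x y z
      - sKR K ρ w t1 c1 x y z) - sKL K ρ w t1 c2 x y z) + sKC K ρ t0 t1 c1 x y z)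
      + sKCL K ρ t0 t1 c2 x y z) := by
    rw [← T3_mul, ← T3_sub]
    refine T3_mono gP gQ fun x y z => ?_
    have h1 := sKL_le K ρ w t1 c2 x y z
    have h2 := sKCL_ge K ρ t0 t1 c2 x y z
    unfold n3s
    linarith
  have h2 : T3 P Q (fun x y z => (((n3b K ρ V E w t0 t1 c1 c2 x y z
      - sKR K ρ w t1 c1 x y z) - sKL K ρ w t1 c2 x y z) + sKC K ρ t0 t1 c1 x y z)
      + sKCL K ρ t0 t1 c2 x y z)
      = T3 P Q (n3inw K ρ V E w t0 t1 c1 c2) := by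
    have e : n3inw K ρ V E w t0 t1 c1 c2 = fun x y z => (((n3b K ρ V E w t0 t1 c1 c2 x y z
      - sKR K ρ w t1 c1 z y x) - sKL K ρ w t1 c2 y z x) + sKC K ρ t0 t1 c1 z y x)
      + sKCL K ρ t0 t1 c2 y z x := by
      funext x y z
      rw [← n3inw_eq]
    rw [e, T3_add P Q (fun x y z => ((n3b K ρ V E w t0 t1 c1 c2 x y z
      - sKR K ρ w t1 c1 x y z) - sKL K ρ w t1 c2 x y z) + sKC K ρ t0 t1 c1 x y z),
    T3_add P Q (fun x y z => (n3b K ρ V E w t0 t1 c1 c2 x y z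
      - sKR K ρ w t1 c1 x y z) - sKL K ρ w t1 c2 x y z),
    T3_sub P Q (fun x y z => n3b K ρ V E w t0 t1 c1 c2 x y z - sKR K ρ w t1 c1 x y z),
    T3_sub P Q (n3b K ρ V E w t0 t1 c1 c2),
    T3_add P Q (fun x y z => ((n3b K ρ V E w t0 t1 c1 c2 x y z
      - sKR K ρ w t1 c1 z y x) - sKL K ρ w t1 c2 y z x) + sKC K ρ t0 t1 c1 z y x),
    T3_add P Q (fun x y z => (n3b K ρ V E w t0 t1 c1 c2 x y z
      - sKR K ρ w t1 c1 z y x) - sKL K ρ w t1 c2 y z x),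
    T3_sub P Q (fun x y z => n3b K ρ V E w t0 t1 c1 c2 x y z - sKR K ρ w t1 c1 z y x),
    T3_sub P Q (n3b K ρ V E w t0 t1 c1 c2),
    T3_perm13 P Q (sKR K ρ w t1 c1), T3_perm13 P Q (sKC K ρ t0 t1 c1),
    ← T3_rot P Q (fun x y z => sKL K ρ w t1 c2 y z x),
    ← T3_rot P Q (fun x y z => sKCL K ρ t0 t1 c2 y z x)]
  linarith

/-- THE NET OF AN IN STRAY AT THE DEPTH `t` OF THE CELL, sampler form -/
theorem net_in_s {K0 : ℤ} {f : ℝ} {P Q : WS} {D K ρ V E N : ℤ} {ξR ξL : ℤ → ℝ}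
    (h : EnvS K0 f P Q D K ρ V E N ξR ξL) {lo t0 t t1 w c1 c2 : ℤ} (hlo0 : 0 ≤ lo)
    (hlo : lo ≤ 1) (ht0 : 2 ≤ t0) (hwt : w = lo - t) (h0 : t0 ≤ t) (h1 : t ≤ t1)
    (hc1 : 2 * t0 - 2 ≤ c1) (hc1' : c1 ≤ 2 * t0) (hc2 : t0 - 2 ≤ 2 * c2) (hc2' : 2 * c2 ≤ t0 + 1)
    (hNt : nearE D < t) (hVt : t ≤ V) (hw : 2 * (t1 - t0) + 2 ≤ 3 * nearE D) :
    T1 P Q (n1inw K ρ E w t0 t1 c1 c2) + T3 P Q (n3s K ρ V E w t0 t1 c1 c2) - 27 * K
      ≤ netE P Q deeper D K (K - ρ) ρ ρ V E lo t := by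
  have a := net_in_w h hlo0 hlo ht0 hwt h0 h1 hc1 hc1' hc2 hc2' hNt hVt hw
  have b := T3_n3s_le (P := P) (Q := Q) h.gP h.gQ h.one.1 K ρ V E w t0 t1 c1 c2
  have hD := h.hD
  have hKr : (10000:ℝ) ≤ K := by exact_mod_cast h.hK1
  have hDr : (D:ℝ) = 4 * K + 1 := by exact_mod_cast hD
  have hS := h.sq_le
  rw [hDr] at hS
  linarith

end

end MP61673a.Fin
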