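import Pool.Agent.Mu673.FEnet
import Pool.Agent.Mu673.NetIn2

/-!
THE NET OF AN IN CELL AS PARTS (helper87): the three-body kernel `n3s` (sampler form) split into
constant thresholds with coefficients per class and the families
* (B), (C) of `FEstep` (exotic left label, midpoints) as in an OUT cell;
* (K1) costs `kKK`: pairs of `P`, doubled element in `[w, c1)`, `ℓ ≤ -1 - ρ`, `2 x + ℓ ≤ cA t1`;
* (K2) costs `kKK'`: pairs of `P`, doubled element in `[w, c2)`, `ℓ ≤ -1 - ρ`, `x + 2 ℓ ≤ cL t1`;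
* (KG) gains `kKCc`: pairs of `P`, doubled element beyond `c1`, `-ρ ≤ ℓ`, `2 x + ℓ ≤ cA t0`;
* (KL) gains `kKCc'`: pairs of `P`, doubled element beyond `c2`, `-ρ ≤ ℓ`, `x + 2 ℓ ≤ cL t0`;
* (OW) own gain of `Q`: pairs `(Q, P)`, `ℓ ≤ -1 - ρ`, `cO t1 ≤ x + 2 ℓ`;
* (A) own gain of `Q`: pairs `(P, Q)`, `2 x + ℓ ≤ cA t0`, as in an OUT cell.
-/

set_option autoImplicit false

namespace MP61673a.FE

open Finset MP61673a.Kink MP61673a.Bary MP61673a.Sos MP61673a.Fin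

noncomputable section

variable {C : Type} {M : ℕ} {σ δ : ℝ} {D K ρ : ℤ} {kL kR : ℝ}

/-- right hand side of form (K2), `x + 2 ℓ ≤ cL` -/
def cL (D K ρ t : ℤ) : ℤ := D - 2 * K - 1 - ρ + 2 * t

/-- pair of `P`, doubled element in `[w, c)` -/
def fW (w c : ℤ) (y z : P4) : ℝ :=
  bo (y.2.1 = false ∧ z.2.1 = false ∧ w ≤ z.2.2 ∧ z.2.2 < c)

/-- pair of `P`, doubled element beyond `c` -/
def fB (c : ℤ) (y z : P4) : ℝ := bo (y.2.1 = false ∧ z.2.1 = false ∧ c ≤ z.2.2)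

/-- (K1): the cost `kKK` of the doubled element, sampler in `Q` -/
lemma famK1 {w t1 c1 : ℤ} {x y z : P4} :
    sKR K ρ w t1 c1 x.2 y.2 z.2 ≤ bo (x.2.1 = true ∧ ρ ≤ x.2.2 + 2 * t1)
      * (fW w c1 y z * bo (lab D y z ≤ -1 - ρ ∧ 2 * lc D x.2 + lab D y z ≤ cA D K ρ t1)) := by
  unfold sKR kKK fW
  by_cases c : z.2.1 = false ∧ w ≤ z.2.2 ∧ z.2.2 < c1
  · by_cases d : (y.2.1 = false ∧ x.2.1 = true) ∧ (1 + ρ ≤ y.2.2 - 2 * z.2.2 ∧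
        K - (K - ρ) ≤ x.2.2 - 2 * -t1) ∧
        2 * K + 1 + ρ + 2 * (z.2.2 + 2 * -t1) ≤ y.2.2 + 2 * x.2.2
    · obtain ⟨⟨d1, d2⟩, ⟨d3, d4⟩, d5⟩ := d
      rw [bo_true c, bo_true ⟨⟨d1, d2⟩, ⟨d3, d4⟩, d5⟩, bo_true ⟨d2, by omega⟩,
        bo_true ⟨d1, c.1, c.2⟩, bo_true]
      · norm_num
      · rw [lab_PP d1 c.1, lc_Q d2]
        unfold cA
        constructor <;> omega
    · rw [bo_false d, mul_zero]
      exact mul_nonneg (bo_nonneg _) (mul_nonneg (bo_nonneg _) (bo_nonneg _))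
  · rw [bo_false c, zero_mul]
    exact mul_nonneg (bo_nonneg _) (mul_nonneg (bo_nonneg _) (bo_nonneg _))

/-- (K2): the cost `kKK'` of the doubled element, sampler in `Q` -/
lemma famK2 {w t1 c2 : ℤ} {x y z : P4} :
    sKL1 K ρ w t1 c2 x.2 y.2 z.2 ≤ bo (x.2.1 = true ∧ 1 + ρ ≤ x.2.2 + 2 * t1)
      * (fW w c2 y z * bo (lab D y z ≤ -1 - ρ ∧ lc D x.2 + 2 * lab D y z ≤ cL D K ρ t1)) := by
  unfold sKL1 fW
  by_cases c : z.2.1 = false ∧ w ≤ z.2.2 ∧ z.2.2 < c2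
  · by_cases d : (x.2.1 = true ∧ y.2.1 = false) ∧ (1 + ρ ≤ x.2.2 + 2 * t1 ∧
        1 + ρ ≤ y.2.2 - 2 * z.2.2) ∧
        2 * K + 1 + ρ + 2 * (-t1 + 2 * z.2.2) ≤ x.2.2 + 2 * y.2.2
    · obtain ⟨⟨d1, d2⟩, ⟨d3, d4⟩, d5⟩ := d
      rw [bo_true c, bo_true ⟨⟨d1, d2⟩, ⟨d3, d4⟩, d5⟩, bo_true ⟨d1, d3⟩,
        bo_true ⟨d2, c.1, c.2⟩, bo_true]
      · norm_num
      · rw [lab_PP d2 c.1, lc_Q d1]
        unfold cL
        constructor <;> omega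
    · rw [bo_false d, mul_zero]
      exact mul_nonneg (bo_nonneg _) (mul_nonneg (bo_nonneg _) (bo_nonneg _))
  · rw [bo_false c, zero_mul]
    exact mul_nonneg (bo_nonneg _) (mul_nonneg (bo_nonneg _) (bo_nonneg _))

/-- (KG): the gain `kKCc` of the doubled element, sampler in `Q` -/
lemma famKG {t0 t1 c1 : ℤ} {x y z : P4} (hx : x.2.1 = true) :
    fB c1 y z * bo (-ρ ≤ lab D y z ∧ 2 * lc D x.2 + lab D y z ≤ cA D K ρ t0)
      ≤ sKC K ρ t0 t1 c1 x.2 y.2 z.2 := by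
  unfold sKC kKCc fB
  by_cases c : y.2.1 = false ∧ z.2.1 = false ∧ c1 ≤ z.2.2
  · by_cases d : -ρ ≤ lab D y z ∧ 2 * lc D x.2 + lab D y z ≤ cA D K ρ t0
    · rw [bo_true c, bo_true d, bo_true ⟨c.2.1, c.2.2⟩, bo_true]
      rw [lab_PP c.1 c.2.1, lc_Q hx] at d
      unfold cA at d
      exact ⟨⟨c.1, hx⟩, fun h => by have := h.1; omega, by omega⟩
    · rw [bo_false d, mul_zero]
      exact mul_nonneg (bo_nonneg _) (bo_nonneg _)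
  · rw [bo_false c, zero_mul]
    exact mul_nonneg (bo_nonneg _) (bo_nonneg _)

/-- left hand side of form (OW), `cO ≤ x + 2 ℓ` -/
def cO (D K ρ t : ℤ) : ℤ := D - 2 * K + 2 * t - ρ + 1

/-- (KL): the gain `kKCc'` of the doubled element, sampler in `Q` -/
lemma famKL {t0 c2 : ℤ} {x y z : P4} (hx : x.2.1 = true) :
    fB c2 y z * bo (-ρ ≤ lab D y z ∧ lc D x.2 + 2 * lab D y z ≤ cL D K ρ t0)
      ≤ sKCL1 K ρ t0 c2 x.2 y.2 z.2 := by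
  unfold sKCL1 fB
  by_cases c : y.2.1 = false ∧ z.2.1 = false ∧ c2 ≤ z.2.2
  · by_cases d : -ρ ≤ lab D y z ∧ lc D x.2 + 2 * lab D y z ≤ cL D K ρ t0
    · rw [bo_true c, bo_true d, bo_true ⟨c.2.1, c.2.2⟩, bo_true]
      rw [lab_PP c.1 c.2.1, lc_Q hx] at d
      unfold cL at d
      exact ⟨⟨hx, c.1⟩, by omega, by omega⟩
    · rw [bo_false d, mul_zero]
      exact mul_nonneg (bo_nonneg _) (bo_nonneg _)
  · rw [bo_false c, zero_mul]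
    exact mul_nonneg (bo_nonneg _) (bo_nonneg _)

/-- (OW): the own gain of `Q` on the pairs `(Q, P)` -/
lemma famOW {t1 : ℤ} {x y z : P4} (hD : D = 4 * K + 1) (hx : x.2.1 = true) :
    fQP y z * bo (lab D y z ≤ -1 - ρ ∧ cO D K ρ t1 ≤ lc D x.2 + 2 * lab D y z)
      ≤ kQP (4 * K + 1 - K + min ((x.2.2 + 2 * t1 - ρ + 1) / 2) (K - ρ + 1)) y.2 z.2
        - kQP (4 * K + 1 - K + (K - ρ + 1)) y.2 z.2 := by
  have hmin := min_le_right ((x.2.2 + 2 * t1 - ρ + 1) / 2) (K - ρ + 1)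
  have hmin' := min_le_left ((x.2.2 + 2 * t1 - ρ + 1) / 2) (K - ρ + 1)
  have hmono := kQP_anti (show 4 * K + 1 - K + min ((x.2.2 + 2 * t1 - ρ + 1) / 2) (K - ρ + 1)
    ≤ 4 * K + 1 - K + (K - ρ + 1) by omega) y.2 z.2
  unfold fQP
  by_cases c : y.2.1 = true ∧ z.2.1 = false
  · by_cases d : lab D y z ≤ -1 - ρ ∧ cO D K ρ t1 ≤ lc D x.2 + 2 * lab D y z
    · rw [bo_true c, bo_true d]
      rw [lab_QP c.1 c.2, lc_Q hx] at d
      unfold cO at d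
      obtain ⟨d1, d2⟩ := d
      unfold kQP
      rw [bo_true ⟨c, by omega⟩, bo_false (fun h => by have := h.2; omega)]
      norm_num
    · rw [bo_false d, mul_zero]
      linarith
  · rw [bo_false c, zero_mul]
    linarith

/-- class data of the three-body kernel of an IN cell. `w1, w2` windows; costs `F2` (exotic left
label), `M0, M1` (midpoints), `K1`, `K2`: `c*` part with the constant threshold, `v*` part with the
moving threshold; gains `vG` (KG), `vL` (KL), `vO` (OW), `vA` (A); pair flags `f1, f2` (doubled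
element in the windows), `f3, f4` (beyond) -/
structure FlgNetIn (G : GrdD C M σ δ D K ρ kL kR) (E w t0 t1 c1 c2 : ℤ) (sd : C → Bool)
    (w1 w2 cF2 vF2 cM0 vM0 cM1 vM1 cK1 vK1 cK2 vK2 vG vL vO vA : C → ℝ)
    (f1 f2 f3 f4 : C → C → ℝ) : Prop where
  hsd : ∀ x, G.ok x → sd (G.cl x) = x.2.1
  hw1 : ∀ x, G.ok x → x.2.1 = false → w1 (G.cl x) ≤ bo (w ≤ x.2.2 ∧ x.2.2 < c1)
  hw2 : ∀ x, G.ok x → x.2.1 = false → w2 (G.cl x) ≤ bo (w ≤ x.2.2 ∧ x.2.2 < c2)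
  hF2 : ∀ x, G.ok x → x.2.1 = true →
    bo ((1 ≤ 2 * x.2.2 + t1 - (4 * K + 1) ∧ 2 * x.2.2 + t0 - (4 * K + 1) ≤ 4 * K + 1)
      ∧ ρ ≤ 2 * x.2.2 + t1 - (4 * K + 1)) ≤ cF2 (G.cl x) + vF2 (G.cl x)
  hMP0 : ∀ x, G.ok x → x.2.1 = false →
    1 / 2 * bo (0 < (t1 + x.2.2 - (4 * K + 1) + 0) / 2 ∧ ρ ≤ (t1 + x.2.2 - (4 * K + 1) + 0) / 2)
      ≤ cM0 (G.cl x) + vM0 (G.cl x)
  hMP1 : ∀ x, G.ok x → x.2.1 = false →
    1 / 2 * bo (0 < (t1 + x.2.2 - (4 * K + 1) + E) / 2 ∧ ρ ≤ (t1 + x.2.2 - (4 * K + 1) + E) / 2)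
      ≤ cM1 (G.cl x) + vM1 (G.cl x)
  hMQ0 : ∀ x, G.ok x → x.2.1 = true →
    1 / 2 * omc t1 x.2.2 * bo (0 < (t1 - x.2.2 + 0) / 2 ∧ ρ ≤ (t1 - x.2.2 + 0) / 2)
      ≤ cM0 (G.cl x) + vM0 (G.cl x)
  hMQ1 : ∀ x, G.ok x → x.2.1 = true →
    1 / 2 * omc t1 x.2.2 * bo (0 < (t1 - x.2.2 + E) / 2 ∧ ρ ≤ (t1 - x.2.2 + E) / 2)
      ≤ cM1 (G.cl x) + vM1 (G.cl x)
  hK1 : ∀ x, G.ok x → x.2.1 = true → bo (ρ ≤ x.2.2 + 2 * t1) ≤ cK1 (G.cl x) + vK1 (G.cl x)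
  hK2 : ∀ x, G.ok x → x.2.1 = true →
    bo (1 + ρ ≤ x.2.2 + 2 * t1) ≤ cK2 (G.cl x) + vK2 (G.cl x)
  hG : ∀ x, G.ok x → x.2.1 = true → vG (G.cl x) ≤ 1
  hL : ∀ x, G.ok x → x.2.1 = true → vL (G.cl x) ≤ 1
  hO : ∀ x, G.ok x → x.2.1 = true → vO (G.cl x) ≤ bo (1 + ρ ≤ x.2.2 + 2 * t0)
  hA : ∀ x, G.ok x → x.2.1 = true →
    vA (G.cl x) ≤ bo (1 ≤ x.2.2 + 2 * t0 ∧ x.2.2 + 2 * t1 ≤ 4 * K + 1)
  hf1 : ∀ y z, G.ok y → G.ok z → fW w c1 y z ≤ f1 (G.cl y) (G.cl z)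
  hf2 : ∀ y z, G.ok y → G.ok z → fW w c2 y z ≤ f2 (G.cl y) (G.cl z)
  hf3 : ∀ y z, G.ok y → G.ok z → f3 (G.cl y) (G.cl z) ≤ fB c1 y z
  hf4 : ∀ y z, G.ok y → G.ok z → f4 (G.cl y) (G.cl z) ≤ fB c2 y z
  nonneg : ∀ c, 0 ≤ w1 c ∧ 0 ≤ w2 c ∧ 0 ≤ cF2 c ∧ 0 ≤ vF2 c ∧ 0 ≤ cM0 c ∧ 0 ≤ vM0 c ∧ 0 ≤ cM1 c
    ∧ 0 ≤ vM1 c ∧ 0 ≤ cK1 c ∧ 0 ≤ vK1 c ∧ 0 ≤ cK2 c ∧ 0 ≤ vK2 c
  nonneg3 : ∀ c d, 0 ≤ f3 c d ∧ 0 ≤ f4 c d
  zP : ∀ c, sd c = false → cF2 c = 0 ∧ vF2 c = 0 ∧ cK1 c = 0 ∧ vK1 c = 0 ∧ cK2 c = 0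
    ∧ vK2 c = 0 ∧ vG c = 0 ∧ vL c = 0 ∧ vO c = 0 ∧ vA c = 0
  zQ : ∀ c, sd c = true → w1 c = 0 ∧ w2 c = 0

lemma bo_le_and {p q : Prop} [Decidable p] [Decidable q] : bo (p ∧ q) ≤ bo p :=
  bo_mono fun h => h.1

/-- a cost with pair flags, threshold split into a constant and a moving part -/
lemma split_flag {b c v g f s s' : ℝ} (hb : b ≤ c + v) (hc : 0 ≤ c) (hv : 0 ≤ v) (hg : 0 ≤ g)
    (hgf : g ≤ f) (hs : 0 ≤ s) (hss : s ≤ s') : b * (g * s) ≤ c * (f * s') + v * (f * s) := by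
  have hf : 0 ≤ f := hg.trans hgf
  have a1 := mul_le_mul_of_nonneg_right hb (mul_nonneg hg hs)
  have a2 : g * s ≤ f * s' := mul_le_mul hgf hss hs hf
  have a3 : g * s ≤ f * s := mul_le_mul_of_nonneg_right hgf hs
  have a4 := mul_le_mul_of_nonneg_left a2 hc
  have a5 := mul_le_mul_of_nonneg_left a3 hv
  linarith

/-- THE NET KERNEL OF AN IN CELL, term by term -/
theorem n3s_parts {G : GrdD C M σ δ D K ρ kL kR} {V E w t0 t1 c1 c2 : ℤ} (hD : D = 4 * K + 1)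
    {sd : C → Bool} {w1 w2 cF2 vF2 cM0 vM0 cM1 vM1 cK1 vK1 cK2 vK2 vG vL vO vA : C → ℝ}
    {f1 f2 f3 f4 : C → C → ℝ}
    (h : FlgNetIn G E w t0 t1 c1 c2 sd w1 w2 cF2 vF2 cM0 vM0 cM1 vM1 cK1 vK1 cK2 vK2 vG vL vO vA
      f1 f2 f3 f4)
    (x y z : P4) (hx : G.ok x) (hy : G.ok y) (hz : G.ok z) :
    -(n3s K ρ V E w t0 t1 c1 c2 x.2 y.2 z.2)
      ≤ (cM0 (G.cl x) + cM1 (G.cl x) - w1 (G.cl x)) * kNP V (1 + ρ) y.2 z.2
        + (cF2 (G.cl x) - w2 (G.cl x)) * kNQ V (1 + ρ) y.2 z.2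
        + vF2 (G.cl x) * (fQQ V y z * bo (cB D K ρ t1 ≤ -4 * lc D x.2 + lab D y z))
        + vM0 (G.cl x) * (fPP V y z * bo (-1 * lc D x.2 + lab D y z ≤ cC D K ρ t1))
        + vM1 (G.cl x) * (fPP V y z * bo (-1 * lc D x.2 + lab D y z ≤ cC D K ρ (t1 + E)))
        + (cK1 (G.cl x) * (f1 (G.cl y) (G.cl z) * bo (lab D y z ≤ -1 - ρ))
          + vK1 (G.cl x) * (f1 (G.cl y) (G.cl z)
            * bo (lab D y z ≤ -1 - ρ ∧ 2 * lc D x.2 + lab D y z ≤ cA D K ρ t1)))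
        + (cK2 (G.cl x) * (f2 (G.cl y) (G.cl z) * bo (lab D y z ≤ -1 - ρ))
          + vK2 (G.cl x) * (f2 (G.cl y) (G.cl z)
            * bo (lab D y z ≤ -1 - ρ ∧ lc D x.2 + 2 * lab D y z ≤ cL D K ρ t1)))
        - vG (G.cl x) * (f3 (G.cl y) (G.cl z)
            * bo (-ρ ≤ lab D y z ∧ 2 * lc D x.2 + lab D y z ≤ cA D K ρ t0))
        - vL (G.cl x) * (f4 (G.cl y) (G.cl z)
            * bo (-ρ ≤ lab D y z ∧ lc D x.2 + 2 * lab D y z ≤ cL D K ρ t0))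
        - vO (G.cl x) * (fQP y z
            * bo (lab D y z ≤ -1 - ρ ∧ cO D K ρ t1 ≤ lc D x.2 + 2 * lab D y z))
        - vA (G.cl x) * (fPQ y z * bo (2 * lc D x.2 + lab D y z ≤ cA D K ρ t0)) := by
  have hsd := h.hsd x hx
  obtain ⟨n1, n2, n5, n6, n7, n8, n9, n10, m1, m2, m3, m4⟩ := h.nonneg (G.cl x)
  have kN := kNP_nonneg V (1 + ρ) y.2 z.2
  have kM := kNQ_nonneg V (1 + ρ) y.2 z.2
  rcases hs : x.2.1 with _ | _
  · -- side P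
    rw [hs] at hsd
    obtain ⟨z3, z4, z5, z6, z7, z8, z9, za, zb, zc⟩ := h.zP _ hsd
    have a1 := mul_le_mul_of_nonneg_right (h.hw1 x hx hs) kN
    have a2 := mul_le_mul_of_nonneg_right (h.hw2 x hx hs) kM
    have r0 : kNP V (thr K ρ ((t1 + x.2.2 - (4 * K + 1) + 0) / 2)) y.2 z.2
        ≤ fPP V y z * bo (-1 * lc D x.2 + lab D y z ≤ cC D K ρ t1) := by
      have := famF4 (D := D) (K := K) (ρ := ρ) (V := V) (y := y) (z := z) hs (t := t1) (e := 0)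
      rw [add_zero t1] at this
      rw [← hD]
      exact this
    have r1 : kNP V (thr K ρ ((t1 + x.2.2 - (4 * K + 1) + E) / 2)) y.2 z.2
        ≤ fPP V y z * bo (-1 * lc D x.2 + lab D y z ≤ cC D K ρ (t1 + E)) := by
      rw [← hD]
      exact famF4 (D := D) (K := K) (ρ := ρ) (V := V) (y := y) (z := z) hs (t := t1) (e := E)
    have s0 := split_cost (h.hMP0 x hx hs) n7 n8
      (kNP_nonneg V (thr K ρ ((t1 + x.2.2 - (4 * K + 1) + 0) / 2)) y.2 z.2)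
      (famF_const _ y z) r0
    have s1 := split_cost (h.hMP1 x hx hs) n9 n10
      (kNP_nonneg V (thr K ρ ((t1 + x.2.2 - (4 * K + 1) + E) / 2)) y.2 z.2)
      (famF_const _ y z) r1
    have g1 : sKR K ρ w t1 c1 x.2 y.2 z.2 ≤ 0 := by
      refine (famK1 (D := D)).trans (le_of_eq ?_)
      rw [bo_false (fun q => by rw [hs] at q; exact absurd q.1 (by simp)), zero_mul]
    have g2 : sKL1 K ρ w t1 c2 x.2 y.2 z.2 ≤ 0 := by
      refine (famK2 (D := D)).trans (le_of_eq ?_)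
      rw [bo_false (fun q => by rw [hs] at q; exact absurd q.1 (by simp)), zero_mul]
    have g3 : 0 ≤ sKC K ρ t0 t1 c1 x.2 y.2 z.2 :=
      mul_nonneg (bo_nonneg _) (kKCc_nonneg _ _ _ _ _ _ _)
    have g4 : 0 ≤ sKCL1 K ρ t0 c2 x.2 y.2 z.2 := mul_nonneg (bo_nonneg _) (bo_nonneg _)
    unfold n3s n3b mP3
    rw [if_pos hs, z3, z4, z5, z6, z7, z8, z9, za, zb, zc]
    linarith
  · -- side Q
    rw [hs] at hsd
    obtain ⟨z1, z2⟩ := h.zQ _ hsd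
    have e2 : kNQ V (thr K ρ (2 * x.2.2 + t1 - (4 * K + 1))) y.2 z.2
        ≤ fQQ V y z * bo (cB D K ρ t1 ≤ -4 * lc D x.2 + lab D y z) := by
      rw [← hD]
      exact famF2 (D := D) (K := K) (ρ := ρ) (V := V) (y := y) (z := z) hs (t := t1)
    have r0 := famF3 (D := D) (K := K) (ρ := ρ) (V := V) (y := y) (z := z) hs (t := t1) (e := 0)
    have r1 := famF3 (D := D) (K := K) (ρ := ρ) (V := V) (y := y) (z := z) hs (t := t1) (e := E)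
    rw [add_zero t1] at r0
    have d2 := split_cost (h.hF2 x hx hs) n5 n6
      (kNQ_nonneg V (thr K ρ (2 * x.2.2 + t1 - (4 * K + 1))) y.2 z.2) (famF_constQ _ y z) e2
    have s0 := split_cost (h.hMQ0 x hx hs) n7 n8
      (kNP_nonneg V (thr K ρ ((t1 - x.2.2 + 0) / 2)) y.2 z.2) (famF_const _ y z) r0
    have s1 := split_cost (h.hMQ1 x hx hs) n9 n10
      (kNP_nonneg V (thr K ρ ((t1 - x.2.2 + E) / 2)) y.2 z.2) (famF_const _ y z) r1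
    have q1 : bo (x.2.1 = true ∧ ρ ≤ x.2.2 + 2 * t1) = bo (ρ ≤ x.2.2 + 2 * t1) := by
      by_cases c : ρ ≤ x.2.2 + 2 * t1
      · rw [bo_true ⟨hs, c⟩, bo_true c]
      · rw [bo_false (fun q => c q.2), bo_false c]
    have q2 : bo (x.2.1 = true ∧ 1 + ρ ≤ x.2.2 + 2 * t1) = bo (1 + ρ ≤ x.2.2 + 2 * t1) := by
      by_cases c : 1 + ρ ≤ x.2.2 + 2 * t1
      · rw [bo_true ⟨hs, c⟩, bo_true c]
      · rw [bo_false (fun q => c q.2), bo_false c]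
    have g1 := famK1 (D := D) (K := K) (ρ := ρ) (w := w) (t1 := t1) (c1 := c1) (x := x) (y := y)
      (z := z)
    have g2 := famK2 (D := D) (K := K) (ρ := ρ) (w := w) (t1 := t1) (c2 := c2) (x := x) (y := y)
      (z := z)
    have g3 := famKG (D := D) (K := K) (ρ := ρ) (t0 := t0) (t1 := t1) (c1 := c1) (y := y)
      (z := z) hs
    rw [q1] at g1
    rw [q2] at g2
    have b1 : bo (ρ ≤ x.2.2 + 2 * t1) * (fW w c1 y z
        * bo (lab D y z ≤ -1 - ρ ∧ 2 * lc D x.2 + lab D y z ≤ cA D K ρ t1)) ≤ _ :=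
      split_flag (h.hK1 x hx hs) m1 m2 (bo_nonneg _) (h.hf1 y z hy hz) (bo_nonneg _)
        (bo_le_and (p := lab D y z ≤ -1 - ρ)
          (q := 2 * lc D x.2 + lab D y z ≤ cA D K ρ t1))
    have b2 : bo (1 + ρ ≤ x.2.2 + 2 * t1) * (fW w c2 y z
        * bo (lab D y z ≤ -1 - ρ ∧ lc D x.2 + 2 * lab D y z ≤ cL D K ρ t1)) ≤ _ :=
      split_flag (h.hK2 x hx hs) m3 m4 (bo_nonneg _) (h.hf2 y z hy hz) (bo_nonneg _)
        (bo_le_and (p := lab D y z ≤ -1 - ρ)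
          (q := lc D x.2 + 2 * lab D y z ≤ cL D K ρ t1))
    have b3 : vG (G.cl x) * (f3 (G.cl y) (G.cl z)
        * bo (-ρ ≤ lab D y z ∧ 2 * lc D x.2 + lab D y z ≤ cA D K ρ t0))
        ≤ sKC K ρ t0 t1 c1 x.2 y.2 z.2 := by
      refine le_trans ?_ g3
      have a1 := mul_le_mul_of_nonneg_right (h.hf3 y z hy hz)
        (bo_nonneg (-ρ ≤ lab D y z ∧ 2 * lc D x.2 + lab D y z ≤ cA D K ρ t0))
      have a2 := mul_nonneg (h.nonneg3 (G.cl y) (G.cl z)).1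
        (bo_nonneg (-ρ ≤ lab D y z ∧ 2 * lc D x.2 + lab D y z ≤ cA D K ρ t0))
      have a3 := mul_le_mul_of_nonneg_right (h.hG x hx hs) a2
      linarith
    have b4 : vL (G.cl x) * (f4 (G.cl y) (G.cl z)
        * bo (-ρ ≤ lab D y z ∧ lc D x.2 + 2 * lab D y z ≤ cL D K ρ t0))
        ≤ sKCL1 K ρ t0 c2 x.2 y.2 z.2 := by
      refine le_trans ?_ (famKL (D := D) (K := K) (ρ := ρ) (t0 := t0) (c2 := c2) (y := y)
        (z := z) hs)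
      have a1 := mul_le_mul_of_nonneg_right (h.hf4 y z hy hz)
        (bo_nonneg (-ρ ≤ lab D y z ∧ lc D x.2 + 2 * lab D y z ≤ cL D K ρ t0))
      have a2 := mul_nonneg (h.nonneg3 (G.cl y) (G.cl z)).2
        (bo_nonneg (-ρ ≤ lab D y z ∧ lc D x.2 + 2 * lab D y z ≤ cL D K ρ t0))
      have a3 := mul_le_mul_of_nonneg_right (h.hL x hx hs) a2
      linarith
    have b5 : vO (G.cl x) * (fQP y z
        * bo (lab D y z ≤ -1 - ρ ∧ cO D K ρ t1 ≤ lc D x.2 + 2 * lab D y z))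
        ≤ bo (1 + ρ ≤ x.2.2 + 2 * t0)
          * (kQP (4 * K + 1 - K + min ((x.2.2 + 2 * t1 - ρ + 1) / 2) (K - ρ + 1)) y.2 z.2
            - kQP (4 * K + 1 - K + (K - ρ + 1)) y.2 z.2) := by
      have a1 := mul_le_mul_of_nonneg_right (h.hO x hx hs) (mul_nonneg (bo_nonneg
        (y.2.1 = true ∧ z.2.1 = false))
        (bo_nonneg (lab D y z ≤ -1 - ρ ∧ cO D K ρ t1 ≤ lc D x.2 + 2 * lab D y z)))
      have a2 := mul_le_mul_of_nonneg_left (famOW (ρ := ρ) (t1 := t1) (y := y) (z := z) hD hs)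
        (bo_nonneg (1 + ρ ≤ x.2.2 + 2 * t0))
      exact a1.trans a2
    have b6 : vA (G.cl x) * (fPQ y z * bo (2 * lc D x.2 + lab D y z ≤ cA D K ρ t0))
        ≤ bo (1 ≤ x.2.2 + 2 * t0 ∧ x.2.2 + 2 * t1 ≤ 4 * K + 1)
          * kPQ (2 * K + 1 + ρ + 2 * (4 * K + 1 - (x.2.2 + 2 * t0))) y.2 z.2 := by
      rw [famG1' (D := D) (K := K) (ρ := ρ) (y := y) (z := z) hD hs (t := t0)]
      exact mul_le_mul_of_nonneg_right (h.hA x hx hs) (mul_nonneg (bo_nonneg _) (bo_nonneg _))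
    unfold n3s n3b mQ3
    rw [if_neg (by rw [hs]; simp), z1, z2]
    linarith

end

end MP61673a.FE
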