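import Pool.Agent.Mu673.CellX
import Pool.Agent.Mu673.FEnet

/-!
THE NET OF AN OUT CELL WITH FREE CUTS, TERM BY TERM (helper28): constants per class and the six
three-body families; the deep charge; the thresholds of the families in node units.
-/

set_option autoImplicit false

namespace MP61673a.FE

open Finset MP61673a.Kink MP61673a.Bary MP61673a.Sos MP61673a.Fin

noncomputable section

variable {C : Type} {M : ℕ} {σ δ : ℝ} {D K ρ : ℤ} {kL kR : ℝ}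

/-- class data of the three-body kernel of an OUT cell with the cuts `c1`, `c2`, `c3` -/
structure FlgNetX (G : GrdD C M σ δ D K ρ kL kR) (E lo t0 t1 c1 c2 c3 : ℤ) (sd : C → Bool)
    (w1 w2 cF1 vF1 cF2 vF2 cM0 vM0 cM1 vM1 vA vB : C → ℝ) : Prop where
  hsd : ∀ x, G.ok x → sd (G.cl x) = x.2.1
  hw1 : ∀ x, G.ok x → x.2.1 = false → w1 (G.cl x) ≤ bo (lo - t0 ≤ x.2.2 ∧ x.2.2 < c1)
  hw2 : ∀ x, G.ok x → x.2.1 = false → w2 (G.cl x) ≤ bo (lo - t0 ≤ x.2.2 ∧ x.2.2 < c2)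
  hF1 : ∀ x, G.ok x → x.2.1 = true →
    bo ((1 ≤ x.2.2 + 2 * t1 ∧ x.2.2 ≤ c3) ∧ ρ ≤ x.2.2 + 2 * t1)
      ≤ cF1 (G.cl x) + vF1 (G.cl x)
  hF2 : ∀ x, G.ok x → x.2.1 = true →
    bo ((1 ≤ 2 * x.2.2 + t1 - (4 * K + 1) ∧ 2 * x.2.2 + t0 - (4 * K + 1) ≤ 4 * K + 1)
      ∧ ρ ≤ 2 * x.2.2 + t1 - (4 * K + 1)) ≤ cF2 (G.cl x) + vF2 (G.cl x)
  hMP0 : ∀ x, G.ok x → x.2.1 = false →
    1 / 2 * bo (0 < (t1 + x.2.2 - (4 * K + 1) + 0) / 2 ∧ ρ ≤ (t1 + x.2.2 - (4 * K + 1) + 0) / 2)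
      ≤ cM0 (G.cl x) + vM0 (G.cl x)
  hMP1 : ∀ x, G.ok x → x.2.1 = false →
    1 / 2 * bo (0 < (t1 + x.2.2 - (4 * K + 1) + E) / 2 ∧ ρ ≤ (t1 + x.2.2 - (4 * K + 1) + E) / 2)
      ≤ cM1 (G.cl x) + vM1 (G.cl x)
  hMQ0 : ∀ x, G.ok x → x.2.1 = true →
    1 / 2 * omc t1 x.2.2 * bo (0 < (t1 - x.2.2 + 0) / 2 ∧ ρ ≤ (t1 - x.2.2 + 0) / 2)
      ≤ cM0 (G.cl x) + vM0 (G.cl x)
  hMQ1 : ∀ x, G.ok x → x.2.1 = true →
    1 / 2 * omc t1 x.2.2 * bo (0 < (t1 - x.2.2 + E) / 2 ∧ ρ ≤ (t1 - x.2.2 + E) / 2)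
      ≤ cM1 (G.cl x) + vM1 (G.cl x)
  hAP : ∀ x, G.ok x → x.2.1 = false → vA (G.cl x) ≤ bo (c1 ≤ x.2.2)
  hAQ : ∀ x, G.ok x → x.2.1 = true → vA (G.cl x) ≤ bo (x.2.2 ≤ c3)
  hBP : ∀ x, G.ok x → x.2.1 = false → vB (G.cl x) ≤ bo (c2 ≤ x.2.2)
  hBQ : ∀ x, G.ok x → x.2.1 = true → vB (G.cl x) ≤ 1
  nonneg : ∀ c, 0 ≤ w1 c ∧ 0 ≤ w2 c ∧ 0 ≤ cF1 c ∧ 0 ≤ vF1 c ∧ 0 ≤ cF2 c ∧ 0 ≤ vF2 c ∧ 0 ≤ cM0 c
    ∧ 0 ≤ vM0 c ∧ 0 ≤ cM1 c ∧ 0 ≤ vM1 c ∧ 0 ≤ vA c ∧ 0 ≤ vB c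
  zP : ∀ c, sd c = false → cF1 c = 0 ∧ vF1 c = 0 ∧ cF2 c = 0 ∧ vF2 c = 0
  zQ : ∀ c, sd c = true → w1 c = 0 ∧ w2 c = 0

lemma kPQ_zero {x : ℤ} (hx : 6 * K < x) {y z : P4} (hy : y.2.2 ≤ 2 * K) (hz : z.2.2 ≤ 2 * K) :
    kPQ x y.2 z.2 = 0 := by
  unfold kPQ
  exact bo_false (fun h => by omega)

lemma kQP_zero {x : ℤ} (hx : 6 * K < x) {y z : P4} (hy : y.2.2 ≤ 2 * K) (hz : z.2.2 ≤ 2 * K) :
    kQP x y.2 z.2 = 0 := by
  unfold kQP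
  exact bo_false (fun h => by omega)

/-- THE NET KERNEL OF AN OUT CELL WITH FREE CUTS, term by term -/
theorem n3x_parts {G : GrdD C M σ δ D K ρ kL kR} {V E lo t0 t1 c1 c2 c3 : ℤ}
    (hD : D = 4 * K + 1) (hK : 0 ≤ K) (hρ : 0 ≤ ρ) (h01 : t0 ≤ t1) (ht0 : t0 ≤ D + 1)
    {sd : C → Bool} {w1 w2 cF1 vF1 cF2 vF2 cM0 vM0 cM1 vM1 vA vB : C → ℝ}
    (h : FlgNetX G E lo t0 t1 c1 c2 c3 sd w1 w2 cF1 vF1 cF2 vF2 cM0 vM0 cM1 vM1 vA vB)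
    (x y z : P4) (hx : G.ok x) (hy : G.ok y) (hz : G.ok z) :
    -(n3x K ρ V E lo t0 t1 c1 c2 c3 x.2 y.2 z.2)
      ≤ (cF1 (G.cl x) + cM0 (G.cl x) + cM1 (G.cl x) - w1 (G.cl x)) * kNP V (1 + ρ) y.2 z.2
        + (cF2 (G.cl x) - w2 (G.cl x)) * kNQ V (1 + ρ) y.2 z.2
        + vF1 (G.cl x) * (fPP V y z * bo (2 * lc D x.2 + lab D y z ≤ cA D K ρ t1))
        + vF2 (G.cl x) * (fQQ V y z * bo (cB D K ρ t1 ≤ -4 * lc D x.2 + lab D y z))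
        + vM0 (G.cl x) * (fPP V y z * bo (-1 * lc D x.2 + lab D y z ≤ cC D K ρ t1))
        + vM1 (G.cl x) * (fPP V y z * bo (-1 * lc D x.2 + lab D y z ≤ cC D K ρ (t1 + E)))
        - vA (G.cl x) * (fPQ y z * bo (2 * lc D x.2 + lab D y z ≤ cA D K ρ t0))
        - vB (G.cl x) * (fQP y z * bo (cB D K ρ t0 ≤ -4 * lc D x.2 + lab D y z)) := by
  have hsd := h.hsd x hx
  obtain ⟨n1, n2, n3, n4, n5, n6, n7, n8, n9, n10, n11, n12⟩ := h.nonneg (G.cl x)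
  have kN := kNP_nonneg V (1 + ρ) y.2 z.2
  have kM := kNQ_nonneg V (1 + ρ) y.2 z.2
  have rx : x.2.2 ≤ 2 * K := ((G.okE x).1 hx).2
  have ry : y.2.2 ≤ 2 * K := ((G.okE y).1 hy).2
  have rz : z.2.2 ≤ 2 * K := ((G.okE z).1 hz).2
  rcases hs : x.2.1 with _ | _
  · -- side P
    rw [hs] at hsd
    obtain ⟨z1, z2, z3, z4⟩ := h.zP _ hsd
    have a1 := mul_le_mul_of_nonneg_right (h.hw1 x hx hs) kN
    have a2 := mul_le_mul_of_nonneg_right (h.hw2 x hx hs) kM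
    have g1 := famG1 (D := D) (K := K) (ρ := ρ) (y := y) (z := z) hs (t := t0)
    have g2 := famG2 (D := D) (K := K) (ρ := ρ) (y := y) (z := z) hs (t := t0)
    have b1 := mul_le_mul_of_nonneg_right (h.hAP x hx hs)
      (kPQ_nonneg (2 * K + 1 + ρ + 2 * (x.2.2 - 2 * t0)) y.2 z.2)
    have b2 := mul_le_mul_of_nonneg_right (h.hBP x hx hs)
      (kQP_nonneg (2 * K + 1 + ρ + 2 * (2 * x.2.2 - t0)) y.2 z.2)
    rw [g1] at b1
    rw [g2] at b2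
    have f0 : kNP V (thr K ρ ((t1 + x.2.2 - (4 * K + 1) + 0) / 2)) y.2 z.2
        ≤ fPP V y z * bo (-1 * lc D x.2 + lab D y z ≤ cC D K ρ t1) := by
      have := famF4 (D := D) (K := K) (ρ := ρ) (V := V) (y := y) (z := z) hs (t := t1) (e := 0)
      rw [add_zero t1] at this
      rw [← hD]
      exact this
    have f1 : kNP V (thr K ρ ((t1 + x.2.2 - (4 * K + 1) + E) / 2)) y.2 z.2
        ≤ fPP V y z * bo (-1 * lc D x.2 + lab D y z ≤ cC D K ρ (t1 + E)) := by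
      rw [← hD]
      exact famF4 (D := D) (K := K) (ρ := ρ) (V := V) (y := y) (z := z) hs (t := t1) (e := E)
    have c0 := split_cost (h.hMP0 x hx hs) n7 n8
      (kNP_nonneg V (thr K ρ ((t1 + x.2.2 - (4 * K + 1) + 0) / 2)) y.2 z.2)
      (famF_const _ y z) f0
    have c1 := split_cost (h.hMP1 x hx hs) n9 n10
      (kNP_nonneg V (thr K ρ ((t1 + x.2.2 - (4 * K + 1) + E) / 2)) y.2 z.2)
      (famF_const _ y z) f1
    unfold n3x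
    rw [if_pos hs, z1, z2, z3, z4, g1, g2]
    linarith
  · -- side Q
    rw [hs] at hsd
    obtain ⟨z1, z2⟩ := h.zQ _ hsd
    have g1 := famG1' (D := D) (K := K) (ρ := ρ) (y := y) (z := z) hD hs (t := t0)
    have g2 := famG2' (D := D) (K := K) (ρ := ρ) (y := y) (z := z) hD hs (t := t0)
    have b1 : vA (G.cl x) * kPQ (2 * K + 1 + ρ + 2 * (4 * K + 1 - (x.2.2 + 2 * t0))) y.2 z.2
        ≤ bo (1 ≤ x.2.2 + 2 * t1 ∧ x.2.2 ≤ c3)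
          * kPQ (2 * K + 1 + ρ + 2 * (4 * K + 1 - (x.2.2 + 2 * t0))) y.2 z.2 := by
      by_cases c : 1 ≤ x.2.2 + 2 * t1
      · refine mul_le_mul_of_nonneg_right ((h.hAQ x hx hs).trans ?_) (kPQ_nonneg _ _ _)
        by_cases c' : x.2.2 ≤ c3
        · rw [bo_true c', bo_true ⟨c, c'⟩]
        · rw [bo_false c']
          exact bo_nonneg _
      · rw [kPQ_zero (K := K) (by omega) ry rz, mul_zero, mul_zero]
    have b2 : vB (G.cl x)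
          * kQP (2 * K + 1 + ρ + 2 * (4 * K + 1 - (2 * x.2.2 + t0 - (4 * K + 1)))) y.2 z.2
        ≤ bo (1 ≤ 2 * x.2.2 + t1 - (4 * K + 1) ∧ 2 * x.2.2 + t0 - (4 * K + 1) ≤ 4 * K + 1)
          * kQP (2 * K + 1 + ρ + 2 * (4 * K + 1 - (2 * x.2.2 + t0 - (4 * K + 1)))) y.2 z.2 := by
      by_cases c : 1 ≤ 2 * x.2.2 + t1 - (4 * K + 1)
      · refine mul_le_mul_of_nonneg_right ((h.hBQ x hx hs).trans ?_) (kQP_nonneg _ _ _)
        rw [bo_true ⟨c, by omega⟩]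
      · rw [kQP_zero (K := K) (by omega) ry rz, mul_zero, mul_zero]
    rw [g1] at b1
    rw [g2] at b2
    have e1 := famF1 (D := D) (K := K) (ρ := ρ) (V := V) (y := y) (z := z) hs (t := t1)
    have e2 : kNQ V (thr K ρ (2 * x.2.2 + t1 - (4 * K + 1))) y.2 z.2
        ≤ fQQ V y z * bo (cB D K ρ t1 ≤ -4 * lc D x.2 + lab D y z) := by
      rw [← hD]
      exact famF2 (D := D) (K := K) (ρ := ρ) (V := V) (y := y) (z := z) hs (t := t1)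
    have f0 := famF3 (D := D) (K := K) (ρ := ρ) (V := V) (y := y) (z := z) hs (t := t1) (e := 0)
    have f1 := famF3 (D := D) (K := K) (ρ := ρ) (V := V) (y := y) (z := z) hs (t := t1) (e := E)
    rw [add_zero t1] at f0
    have d1 := split_cost (h.hF1 x hx hs) n3 n4
      (kNP_nonneg V (thr K ρ (x.2.2 + 2 * t1)) y.2 z.2) (famF_const _ y z) e1
    have d2 := split_cost (h.hF2 x hx hs) n5 n6
      (kNQ_nonneg V (thr K ρ (2 * x.2.2 + t1 - (4 * K + 1))) y.2 z.2) (famF_constQ _ y z) e2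
    have c0 := split_cost (h.hMQ0 x hx hs) n7 n8
      (kNP_nonneg V (thr K ρ ((t1 - x.2.2 + 0) / 2)) y.2 z.2) (famF_const _ y z) f0
    have c1 := split_cost (h.hMQ1 x hx hs) n9 n10
      (kNP_nonneg V (thr K ρ ((t1 - x.2.2 + E) / 2)) y.2 z.2) (famF_const _ y z) f1
    unfold n3x
    rw [if_neg (by rw [hs]; simp), z1, z2, g1, g2]
    linarith

/-! ### The deep charge -/

/-- THE DEEP CHARGE with class bounds `aR`, `aL` of the coefficients -/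
theorem dk3c_le {G : GrdD C M σ δ D K ρ kL kR} {E t0 t1 : ℤ} {eR eL sR sL : ℝ} {aR aL : C → ℝ}
    (hR : ∀ x, G.ok x → eR * (aRc D ρ E t0 t1 x.2 - sR * bR t0 x.2) ≤ aR (G.cl x))
    (hL : ∀ x, G.ok x → eL * (aLc D ρ t0 t1 x.2 - sL * bL t0 x.2) ≤ aL (G.cl x))
    (x y z : P4) (hx : G.ok x) :
    dk3c D ρ E t0 t1 eR eL sR sL x.2 y.2 z.2
      ≤ aR (G.cl x) * kQP (D - ρ + 1) y.2 z.2 + aL (G.cl x) * kPQ (D - ρ + 1) y.2 z.2 := by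
  have a1 := mul_le_mul_of_nonneg_right (hR x hx) (kQP_nonneg (D - ρ + 1) y.2 z.2)
  have a2 := mul_le_mul_of_nonneg_right (hL x hx) (kPQ_nonneg (D - ρ + 1) y.2 z.2)
  unfold dk3c
  linarith

/-- the right coefficient from flags of the classes (dropped form `eR = 1`, `sR = 0`) -/
lemma aRc_le {E t0 t1 : ℤ} {x : P3} {m0 m1 f : ℝ}
    (h0 : (if x.1 = false then 1 / 2 * bo (0 < (t1 + x.2 - D + 0) / 2
        ∧ ρ < (t1 + x.2 - D + 0) / 2) else 1 / 2 * omc t1 x.2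
        * bo (0 < (t1 - x.2 + 0) / 2 ∧ ρ < (t1 - x.2 + 0) / 2)) ≤ m0)
    (h1 : (if x.1 = false then 1 / 2 * bo (0 < (t1 + x.2 - D + E) / 2
        ∧ ρ < (t1 + x.2 - D + E) / 2) else 1 / 2 * omc t1 x.2
        * bo (0 < (t1 - x.2 + E) / 2 ∧ ρ < (t1 - x.2 + E) / 2)) ≤ m1)
    (hf : x.1 = true → bo ((1 ≤ x.2 + 2 * t1 ∧ x.2 + 2 * t0 ≤ D) ∧ ρ < x.2 + 2 * t1) ≤ f)
    (hf0 : 0 ≤ f) : aRc D ρ E t0 t1 x ≤ m0 + m1 + f := by
  unfold aRc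
  rcases hs : x.1 with _ | _
  · rw [if_pos hs] at h0 h1
    rw [if_pos rfl]
    linarith
  · rw [if_neg (by rw [hs]; simp)] at h0 h1
    rw [if_neg (by simp)]
    have := hf hs
    linarith

/-! ### The thresholds of the families in node units -/

/-- form (A), cost -/
lemma condA_cost (hD : D = 4 * K + 1) (hK : 1 ≤ K) (hρ : D ≤ 40 * ρ + 39) {a m t : ℤ}
    (hm : 0 < m) (ht : m * t ≤ a * D + 11 * m) {c : ℝ}
    (hc : M * (59 / 40 + 4 * ((a:ℝ) / m)) - 3 * σ ≤ c) {x y z : P4}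
    (h : 2 * lc D x.2 + lab D y z ≤ cA D K ρ t) :
    ((1:ℤ):ℝ) * yc M σ D (lab D y z) + ((2:ℤ):ℝ) * yc M σ D (lc D x.2) ≤ c + 45 * M / D := by
  have hD0 : (0:ℝ) < D := by exact_mod_cast (by omega : 0 < D)
  have hm0 : (0:ℝ) < m := by exact_mod_cast hm
  have hM0 : (0:ℝ) ≤ M := Nat.cast_nonneg M
  have h' : (2:ℝ) * lc D x.2 + lab D y z ≤ 2 * D - 2 * K - 1 - ρ + 4 * t := by
    unfold cA at h
    exact_mod_cast h
  have hK' : (D:ℝ) = 4 * K + 1 := by exact_mod_cast hD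
  have hρ' : (D:ℝ) ≤ 40 * ρ + 39 := by exact_mod_cast hρ
  have ht' : (t:ℝ) ≤ (a:ℝ) / m * D + 11 := by
    have h1 : (m:ℝ) * t ≤ a * D + 11 * m := by exact_mod_cast ht
    have h2 : (m:ℝ) * ((a:ℝ) / m * D + 11) = a * D + 11 * m := by
      field_simp
    exact le_of_mul_le_mul_left (by rw [h2]; exact h1) hm0
  have key : (2:ℝ) * lc D x.2 + lab D y z ≤ (59 / 40 + 4 * ((a:ℝ) / m)) * D + 45 := by linarith
  have k2 : M * ((2:ℝ) * lc D x.2 + lab D y z) / D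
      ≤ M * ((59 / 40 + 4 * ((a:ℝ) / m)) * D + 45) / D :=
    div_le_div_of_nonneg_right (mul_le_mul_of_nonneg_left key hM0) hD0.le
  have e1 : M * ((59 / 40 + 4 * ((a:ℝ) / m)) * D + 45) / D
      = M * (59 / 40 + 4 * ((a:ℝ) / m)) + 45 * M / D := by
    field_simp
  have e2 : ((1:ℤ):ℝ) * yc M σ D (lab D y z) + ((2:ℤ):ℝ) * yc M σ D (lc D x.2)
      = M * ((2:ℝ) * lc D x.2 + lab D y z) / D - 3 * σ := by
    unfold yc
    push_cast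
    ring
  rw [e2]
  linarith

/-- form (A), gain -/
lemma condA_gain (hD : D = 4 * K + 1) (hK : 1 ≤ K) (hρ : 40 * ρ ≤ D) {a m t : ℤ}
    (hm : 0 < m) (ht : a * D ≤ m * t) {c : ℝ}
    (hc : c ≤ M * (59 / 40 + 4 * ((a:ℝ) / m)) - 3 * σ) {x y z : P4}
    (h : ¬ 2 * lc D x.2 + lab D y z ≤ cA D K ρ t) :
    c ≤ ((1:ℤ):ℝ) * yc M σ D (lab D y z) + ((2:ℤ):ℝ) * yc M σ D (lc D x.2) := by
  have hD0 : (0:ℝ) < D := by exact_mod_cast (by omega : 0 < D)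
  have hm0 : (0:ℝ) < m := by exact_mod_cast hm
  have hM0 : (0:ℝ) ≤ M := Nat.cast_nonneg M
  have h' : 2 * (D:ℝ) - 2 * K - ρ + 4 * t ≤ (2:ℝ) * lc D x.2 + lab D y z := by
    unfold cA at h
    exact_mod_cast (by omega : 2 * D - 2 * K - ρ + 4 * t ≤ 2 * lc D x.2 + lab D y z)
  have hK' : (D:ℝ) = 4 * K + 1 := by exact_mod_cast hD
  have hρ' : 40 * (ρ:ℝ) ≤ D := by exact_mod_cast hρ
  have ht' : (a:ℝ) / m * D ≤ t := by
    have h1 : (a:ℝ) * D ≤ m * t := by exact_mod_cast ht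
    have h2 : (m:ℝ) * ((a:ℝ) / m * D) = a * D := by
      field_simp
    exact le_of_mul_le_mul_left (by rw [h2]; exact h1) hm0
  have key : (59 / 40 + 4 * ((a:ℝ) / m)) * D ≤ (2:ℝ) * lc D x.2 + lab D y z := by linarith
  have k2 : M * ((59 / 40 + 4 * ((a:ℝ) / m)) * D) / D
      ≤ M * ((2:ℝ) * lc D x.2 + lab D y z) / D :=
    div_le_div_of_nonneg_right (mul_le_mul_of_nonneg_left key hM0) hD0.le
  have e1 : M * ((59 / 40 + 4 * ((a:ℝ) / m)) * D) / D = M * (59 / 40 + 4 * ((a:ℝ) / m)) := by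
    field_simp
  have e2 : ((1:ℤ):ℝ) * yc M σ D (lab D y z) + ((2:ℤ):ℝ) * yc M σ D (lc D x.2)
      = M * ((2:ℝ) * lc D x.2 + lab D y z) / D - 3 * σ := by
    unfold yc
    push_cast
    ring
  rw [e2]
  linarith

/-- form (B), cost: `s = -1`, `p = 4` -/
lemma condB_cost (hD : D = 4 * K + 1) (hK : 1 ≤ K) (hρ : D ≤ 40 * ρ + 39) {a m t : ℤ}
    (hm : 0 < m) (ht : m * t ≤ a * D + 11 * m) {c : ℝ}
    (hc : M * (19 / 40 + 2 * ((a:ℝ) / m)) - 3 * σ ≤ c) {x y z : P4}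
    (h : cB D K ρ t ≤ -4 * lc D x.2 + lab D y z) :
    ((-1:ℤ):ℝ) * yc M σ D (lab D y z) + ((4:ℤ):ℝ) * yc M σ D (lc D x.2) ≤ c + 23 * M / D := by
  have hD0 : (0:ℝ) < D := by exact_mod_cast (by omega : 0 < D)
  have hm0 : (0:ℝ) < m := by exact_mod_cast hm
  have hM0 : (0:ℝ) ≤ M := Nat.cast_nonneg M
  have h' : (4:ℝ) * lc D x.2 - lab D y z ≤ D + 2 * t - 2 * K - 1 - ρ := by
    unfold cB at h
    exact_mod_cast (by omega : 4 * lc D x.2 - lab D y z ≤ D + 2 * t - 2 * K - 1 - ρ)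
  have hK' : (D:ℝ) = 4 * K + 1 := by exact_mod_cast hD
  have hρ' : (D:ℝ) ≤ 40 * ρ + 39 := by exact_mod_cast hρ
  have ht' : (t:ℝ) ≤ (a:ℝ) / m * D + 11 := by
    have h1 : (m:ℝ) * t ≤ a * D + 11 * m := by exact_mod_cast ht
    have h2 : (m:ℝ) * ((a:ℝ) / m * D + 11) = a * D + 11 * m := by
      field_simp
    exact le_of_mul_le_mul_left (by rw [h2]; exact h1) hm0
  have key : (4:ℝ) * lc D x.2 - lab D y z ≤ (19 / 40 + 2 * ((a:ℝ) / m)) * D + 23 := by linarith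
  have k2 : M * ((4:ℝ) * lc D x.2 - lab D y z) / D
      ≤ M * ((19 / 40 + 2 * ((a:ℝ) / m)) * D + 23) / D :=
    div_le_div_of_nonneg_right (mul_le_mul_of_nonneg_left key hM0) hD0.le
  have e1 : M * ((19 / 40 + 2 * ((a:ℝ) / m)) * D + 23) / D
      = M * (19 / 40 + 2 * ((a:ℝ) / m)) + 23 * M / D := by
    field_simp
  have e2 : ((-1:ℤ):ℝ) * yc M σ D (lab D y z) + ((4:ℤ):ℝ) * yc M σ D (lc D x.2)
      = M * ((4:ℝ) * lc D x.2 - lab D y z) / D - 3 * σ := by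
    unfold yc
    push_cast
    ring
  rw [e2]
  linarith

/-- form (B), gain -/
lemma condB_gain (hD : D = 4 * K + 1) (hK : 1 ≤ K) (hρ : 40 * ρ ≤ D) {a m t : ℤ}
    (hm : 0 < m) (ht : a * D ≤ m * t) {c : ℝ}
    (hc : c ≤ M * (19 / 40 + 2 * ((a:ℝ) / m)) - 3 * σ) {x y z : P4}
    (h : ¬ cB D K ρ t ≤ -4 * lc D x.2 + lab D y z) :
    c ≤ ((-1:ℤ):ℝ) * yc M σ D (lab D y z) + ((4:ℤ):ℝ) * yc M σ D (lc D x.2) := by
  have hD0 : (0:ℝ) < D := by exact_mod_cast (by omega : 0 < D)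
  have hm0 : (0:ℝ) < m := by exact_mod_cast hm
  have hM0 : (0:ℝ) ≤ M := Nat.cast_nonneg M
  have h' : (D:ℝ) + 2 * t - 2 * K - ρ ≤ (4:ℝ) * lc D x.2 - lab D y z := by
    unfold cB at h
    exact_mod_cast (by omega : D + 2 * t - 2 * K - ρ ≤ 4 * lc D x.2 - lab D y z)
  have hK' : (D:ℝ) = 4 * K + 1 := by exact_mod_cast hD
  have hρ' : 40 * (ρ:ℝ) ≤ D := by exact_mod_cast hρ
  have ht' : (a:ℝ) / m * D ≤ t := by
    have h1 : (a:ℝ) * D ≤ m * t := by exact_mod_cast ht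
    have h2 : (m:ℝ) * ((a:ℝ) / m * D) = a * D := by
      field_simp
    exact le_of_mul_le_mul_left (by rw [h2]; exact h1) hm0
  have key : (19 / 40 + 2 * ((a:ℝ) / m)) * D ≤ (4:ℝ) * lc D x.2 - lab D y z := by linarith
  have k2 : M * ((19 / 40 + 2 * ((a:ℝ) / m)) * D) / D
      ≤ M * ((4:ℝ) * lc D x.2 - lab D y z) / D :=
    div_le_div_of_nonneg_right (mul_le_mul_of_nonneg_left key hM0) hD0.le
  have e1 : M * ((19 / 40 + 2 * ((a:ℝ) / m)) * D) / D = M * (19 / 40 + 2 * ((a:ℝ) / m)) := by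
    field_simp
  have e2 : ((-1:ℤ):ℝ) * yc M σ D (lab D y z) + ((4:ℤ):ℝ) * yc M σ D (lc D x.2)
      = M * ((4:ℝ) * lc D x.2 - lab D y z) / D - 3 * σ := by
    unfold yc
    push_cast
    ring
  rw [e2]
  linarith

/-- form (C), cost with the shift `E` (`e = 0` or `40 E ≤ D`, `e = 1 / 40`): `s = 1`, `p = -1` -/
lemma condC_cost (hD : D = 4 * K + 1) (hK : 1 ≤ K) (hρ : D ≤ 40 * ρ + 39) {a m t E : ℤ}
    (hm : 0 < m) (ht : m * t ≤ a * D + 11 * m) {e : ℝ} (hE : (E:ℝ) ≤ e * D) {c : ℝ}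
    (hc : M * ((a:ℝ) / m + e - 61 / 40) ≤ c) {x y z : P4}
    (h : -1 * lc D x.2 + lab D y z ≤ cC D K ρ (t + E)) :
    ((1:ℤ):ℝ) * yc M σ D (lab D y z) + ((-1:ℤ):ℝ) * yc M σ D (lc D x.2) ≤ c + 12 * M / D := by
  have hD0 : (0:ℝ) < D := by exact_mod_cast (by omega : 0 < D)
  have hm0 : (0:ℝ) < m := by exact_mod_cast hm
  have hM0 : (0:ℝ) ≤ M := Nat.cast_nonneg M
  have h' : (lab D y z : ℝ) - lc D x.2 ≤ t + E - D - 2 * K - 1 - ρ := by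
    unfold cC at h
    exact_mod_cast (by omega : lab D y z - lc D x.2 ≤ t + E - D - 2 * K - 1 - ρ)
  have hK' : (D:ℝ) = 4 * K + 1 := by exact_mod_cast hD
  have hρ' : (D:ℝ) ≤ 40 * ρ + 39 := by exact_mod_cast hρ
  have ht' : (t:ℝ) ≤ (a:ℝ) / m * D + 11 := by
    have h1 : (m:ℝ) * t ≤ a * D + 11 * m := by exact_mod_cast ht
    have h2 : (m:ℝ) * ((a:ℝ) / m * D + 11) = a * D + 11 * m := by
      field_simp
    exact le_of_mul_le_mul_left (by rw [h2]; exact h1) hm0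
  have key : (lab D y z : ℝ) - lc D x.2 ≤ ((a:ℝ) / m + e - 61 / 40) * D + 12 := by linarith
  have k2 : M * ((lab D y z : ℝ) - lc D x.2) / D
      ≤ M * (((a:ℝ) / m + e - 61 / 40) * D + 12) / D :=
    div_le_div_of_nonneg_right (mul_le_mul_of_nonneg_left key hM0) hD0.le
  have e1 : M * (((a:ℝ) / m + e - 61 / 40) * D + 12) / D
      = M * ((a:ℝ) / m + e - 61 / 40) + 12 * M / D := by
    field_simp
  have e2 : ((1:ℤ):ℝ) * yc M σ D (lab D y z) + ((-1:ℤ):ℝ) * yc M σ D (lc D x.2)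
      = M * ((lab D y z : ℝ) - lc D x.2) / D := by
    unfold yc
    push_cast
    ring
  rw [e2]
  linarith

end

end MP61673a.FE
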