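import Pool.Agent.Mu673.FE3
import Pool.Agent.Mu673.Cell3In

/-!
THREE-BODY STEPS AS PARTS (for the part calculus of `FE2`, `FE3`). In the left coordinate all
three-body thresholds of the net of a stray have one of three forms
`l + 2 x ≤ c`, `l - 4 x ≥ c`, `l - x ≤ c`, `l = 2 z - y` the label of the pair.
-/

set_option autoImplicit false

namespace MP61673a.FE

open Finset MP61673a.Kink MP61673a.Bary MP61673a.Sos MP61673a.Fin

noncomputable section

/-! ### Trilinear interpolation on the whole lattice -/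

/-- three variable interpolation on the whole lattice -/
def tri3 (F : ℤ → ℤ → ℤ → ℝ) (a b c : ℝ) : ℝ := pl (fun i => pl (fun j => pl (F i j) c) b) a

lemma tri3_eq (F : ℤ → ℤ → ℤ → ℝ) {I J K : Finset ℤ} {a b c : ℝ} (hI : Near I a)
    (hJ : Near J b) (hK : Near K c) :
    ∑ i ∈ I, ∑ j ∈ J, ∑ k ∈ K, hat i a * hat j b * hat k c * F i j k = tri3 F a b c := by
  unfold tri3
  rw [pl_eq_sum hI]
  refine sum_congr rfl fun i _ => ?_
  rw [pl_eq_sum hJ, mul_sum]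
  refine sum_congr rfl fun j _ => ?_
  rw [pl_eq_sum hK, mul_sum, mul_sum]
  refine sum_congr rfl fun k _ => ?_
  ring

lemma tri3_lip {F : ℤ → ℤ → ℤ → ℝ} {B : ℝ} (hB : ∀ i j k, |F i j k| ≤ B) (a b b' c : ℝ) :
    |tri3 F a b c - tri3 F a b' c| ≤ 2 * B * |b - b'| := by
  unfold tri3
  have h1 : ∀ i j, |pl (F i j) c| ≤ B := fun i j => pl_abs_le (hB i j) c
  have h2 : ∀ i, |pl (fun j => pl (F i j) c) b - pl (fun j => pl (F i j) c) b'|
      ≤ 2 * B * |b - b'| := fun i => pl_lip (h1 i) b b'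
  have h3 : pl (fun i => pl (fun j => pl (F i j) c) b) a - pl (fun i => pl (fun j => pl (F i j) c) b') a
      = pl (fun i => pl (fun j => pl (F i j) c) b - pl (fun j => pl (F i j) c) b') a := by
    unfold pl
    ring
  rw [h3]
  exact pl_abs_le h2 a

/-- a near set for every real -/
lemma near_ex (x : ℝ) : ∃ I : Finset ℤ, Near I x :=
  ⟨Icc ⌊x⌋ (⌊x⌋ + 1), near_Icc (Int.floor_le x) (by
    push_cast
    exact (Int.lt_floor_add_one x).le)⟩

/-- majorant property: node table `G` of the form `p i + 2 k - j` against a function `S` -/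
def TabMaj (p : ℤ) (S : ℝ → ℝ) (G : ℤ → ℝ) : Prop :=
  ∀ a b c : ℝ, S (p * a + 2 * c - b) ≤ tri3 (fun i j k => G (p * i + 2 * k - j)) a b c

/-- minorant property -/
def TabMin (p : ℤ) (S : ℝ → ℝ) (G : ℤ → ℝ) : Prop :=
  ∀ a b c : ℝ, tri3 (fun i j k => G (p * i + 2 * k - j)) a b c ≤ S (p * a + 2 * c - b)

lemma TabMaj.of_sum {p : ℤ} {S : ℝ → ℝ} {G : ℤ → ℝ}
    (h : ∀ (a b c : ℝ) (I J K : Finset ℤ), Near I a → Near J b → Near K c →
      S (p * a + 2 * c - b) ≤ ∑ j ∈ J, ∑ k ∈ K, ∑ i ∈ I, hat j b * hat k c * hat i a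
        * G (p * i + 2 * k - j)) : TabMaj p S G := by
  intro a b c
  obtain ⟨I, hI⟩ := near_ex a
  obtain ⟨J, hJ⟩ := near_ex b
  obtain ⟨K, hK⟩ := near_ex c
  refine (h a b c I J K hI hJ hK).trans (le_of_eq ?_)
  rw [← tri3_eq (fun i j k => G (p * i + 2 * k - j)) hI hJ hK]
  have e : ∑ j ∈ J, ∑ k ∈ K, ∑ i ∈ I, hat j b * hat k c * hat i a * G (p * i + 2 * k - j)
      = ∑ j ∈ J, ∑ i ∈ I, ∑ k ∈ K, hat j b * hat k c * hat i a * G (p * i + 2 * k - j) :=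
    sum_congr rfl fun j _ => sum_comm
  rw [e, sum_comm]
  refine sum_congr rfl fun i _ => sum_congr rfl fun j _ => sum_congr rfl fun k _ => ?_
  ring

lemma TabMin.of_sum {p : ℤ} {S : ℝ → ℝ} {G : ℤ → ℝ}
    (h : ∀ (a b c : ℝ) (I J K : Finset ℤ), Near I a → Near J b → Near K c →
      ∑ j ∈ J, ∑ k ∈ K, ∑ i ∈ I, hat j b * hat k c * hat i a * G (p * i + 2 * k - j)
        ≤ S (p * a + 2 * c - b)) : TabMin p S G := by
  intro a b c
  obtain ⟨I, hI⟩ := near_ex a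
  obtain ⟨J, hJ⟩ := near_ex b
  obtain ⟨K, hK⟩ := near_ex c
  refine (le_of_eq ?_).trans (h a b c I J K hI hJ hK)
  rw [← tri3_eq (fun i j k => G (p * i + 2 * k - j)) hI hJ hK]
  have e : ∑ j ∈ J, ∑ k ∈ K, ∑ i ∈ I, hat j b * hat k c * hat i a * G (p * i + 2 * k - j)
      = ∑ j ∈ J, ∑ i ∈ I, ∑ k ∈ K, hat j b * hat k c * hat i a * G (p * i + 2 * k - j) :=
    sum_congr rfl fun j _ => sum_comm
  rw [e, sum_comm]
  refine sum_congr rfl fun i _ => sum_congr rfl fun j _ => sum_congr rfl fun k _ => ?_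
  ring

/-! ### The rules of `Step` in this form -/

/-- `p = ± 1`, increasing cost step -/
lemma tabMaj3_up {p : ℤ} (hp : p = 1 ∨ p = -1) (n : ℤ) :
    TabMaj p (fun v => stE (v - n)) (fun m => K3 (m - n)) := by
  refine TabMaj.of_sum fun a b c I J K hI hJ hK => ?_
  have h := step3' hJ hK hI (σ := -1) (τ := 1) (ρ := p) (Or.inr rfl) (Or.inl rfl) hp n
  have e1 : ((-1 : ℤ) : ℝ) * b + 2 * (((1 : ℤ) : ℝ) * c) + (p : ℝ) * a - n
      = (p * a + 2 * c - b) - n := by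
    push_cast
    ring
  rw [e1] at h
  refine h.trans (le_of_eq ?_)
  refine sum_congr rfl fun j _ => sum_congr rfl fun k _ => sum_congr rfl fun i _ => ?_
  rw [show -1 * j + 2 * (1 * k) + p * i - n = p * i + 2 * k - j - n by ring]

/-- `p = ± 1`, decreasing cost step -/
lemma tabMaj3_dn {p : ℤ} (hp : p = 1 ∨ p = -1) (n : ℤ) :
    TabMaj p (fun v => stE (n - v)) (fun m => K3 (n - m)) := by
  refine TabMaj.of_sum fun a b c I J K hI hJ hK => ?_
  have h := step3' hJ hK hI (σ := 1) (τ := -1) (ρ := -p) (Or.inl rfl) (Or.inr rfl)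
    (by omega) (-n)
  have e1 : ((1 : ℤ) : ℝ) * b + 2 * (((-1 : ℤ) : ℝ) * c) + ((-p : ℤ) : ℝ) * a - ((-n : ℤ) : ℝ)
      = n - (p * a + 2 * c - b) := by
    push_cast
    ring
  rw [e1] at h
  refine h.trans (le_of_eq ?_)
  refine sum_congr rfl fun j _ => sum_congr rfl fun k _ => sum_congr rfl fun i _ => ?_
  rw [show 1 * j + 2 * (-1 * k) + -p * i - -n = n - (p * i + 2 * k - j) by ring]

/-- `p = ± 1`, increasing gain step -/
lemma tabMin3_up {p : ℤ} (hp : p = 1 ∨ p = -1) (n : ℤ) :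
    TabMin p (fun v => st (v - n)) (fun m => k3 (m - n)) := by
  refine TabMin.of_sum fun a b c I J K hI hJ hK => ?_
  have h := step3 hJ hK hI (σ := -1) (τ := 1) (ρ := p) (Or.inr rfl) (Or.inl rfl) hp n
  have e1 : ((-1 : ℤ) : ℝ) * b + 2 * (((1 : ℤ) : ℝ) * c) + (p : ℝ) * a - n
      = (p * a + 2 * c - b) - n := by
    push_cast
    ring
  rw [e1] at h
  refine (le_of_eq ?_).trans h
  refine sum_congr rfl fun j _ => sum_congr rfl fun k _ => sum_congr rfl fun i _ => ?_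
  rw [show -1 * j + 2 * (1 * k) + p * i - n = p * i + 2 * k - j - n by ring]

/-- `p = ± 1`, decreasing gain step -/
lemma tabMin3_dn {p : ℤ} (hp : p = 1 ∨ p = -1) (n : ℤ) :
    TabMin p (fun v => st (n - v)) (fun m => k3 (n - m)) := by
  refine TabMin.of_sum fun a b c I J K hI hJ hK => ?_
  have h := step3 hJ hK hI (σ := 1) (τ := -1) (ρ := -p) (Or.inl rfl) (Or.inr rfl)
    (by omega) (-n)
  have e1 : ((1 : ℤ) : ℝ) * b + 2 * (((-1 : ℤ) : ℝ) * c) + ((-p : ℤ) : ℝ) * a - ((-n : ℤ) : ℝ)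
      = n - (p * a + 2 * c - b) := by
    push_cast
    ring
  rw [e1] at h
  refine (le_of_eq ?_).trans h
  refine sum_congr rfl fun j _ => sum_congr rfl fun k _ => sum_congr rfl fun i _ => ?_
  rw [show 1 * j + 2 * (-1 * k) + -p * i - -n = n - (p * i + 2 * k - j) by ring]

/-- `p = ± 2`, increasing cost step -/
lemma tabMaj5_up {q : ℤ} (hq : q = 1 ∨ q = -1) (n : ℤ) :
    TabMaj (2 * q) (fun v => stE (v - n)) (fun m => K5 (m - n)) := by
  refine TabMaj.of_sum fun a b c I J K hI hJ hK => ?_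
  have h := step5' hJ hK hI (σ := -1) (τ := 1) (ρ := q) (Or.inr rfl) (Or.inl rfl) hq n
  have e1 : ((-1 : ℤ) : ℝ) * b + 2 * (((1 : ℤ) : ℝ) * c) + 2 * ((q : ℝ) * a) - n
      = (((2 * q : ℤ) : ℝ) * a + 2 * c - b) - n := by
    push_cast
    ring
  rw [e1] at h
  refine h.trans (le_of_eq ?_)
  refine sum_congr rfl fun j _ => sum_congr rfl fun k _ => sum_congr rfl fun i _ => ?_
  rw [show -1 * j + 2 * (1 * k) + 2 * (q * i) - n = 2 * q * i + 2 * k - j - n by ring]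

/-- `p = ± 2`, decreasing cost step -/
lemma tabMaj5_dn {q : ℤ} (hq : q = 1 ∨ q = -1) (n : ℤ) :
    TabMaj (2 * q) (fun v => stE (n - v)) (fun m => K5 (n - m)) := by
  refine TabMaj.of_sum fun a b c I J K hI hJ hK => ?_
  have h := step5' hJ hK hI (σ := 1) (τ := -1) (ρ := -q) (Or.inl rfl) (Or.inr rfl)
    (by omega) (-n)
  have e1 : ((1 : ℤ) : ℝ) * b + 2 * (((-1 : ℤ) : ℝ) * c) + 2 * (((-q : ℤ) : ℝ) * a)
      - ((-n : ℤ) : ℝ) = n - (((2 * q : ℤ) : ℝ) * a + 2 * c - b) := by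
    push_cast
    ring
  rw [e1] at h
  refine h.trans (le_of_eq ?_)
  refine sum_congr rfl fun j _ => sum_congr rfl fun k _ => sum_congr rfl fun i _ => ?_
  rw [show 1 * j + 2 * (-1 * k) + 2 * (-q * i) - -n = n - (2 * q * i + 2 * k - j) by ring]

/-- `p = ± 2`, increasing gain step -/
lemma tabMin5_up {q : ℤ} (hq : q = 1 ∨ q = -1) (n : ℤ) :
    TabMin (2 * q) (fun v => st (v - n)) (fun m => k5 (m - n)) := by
  refine TabMin.of_sum fun a b c I J K hI hJ hK => ?_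
  have h := step5 hJ hK hI (σ := -1) (τ := 1) (ρ := q) (Or.inr rfl) (Or.inl rfl) hq n
  have e1 : ((-1 : ℤ) : ℝ) * b + 2 * (((1 : ℤ) : ℝ) * c) + 2 * ((q : ℝ) * a) - n
      = (((2 * q : ℤ) : ℝ) * a + 2 * c - b) - n := by
    push_cast
    ring
  rw [e1] at h
  refine (le_of_eq ?_).trans h
  refine sum_congr rfl fun j _ => sum_congr rfl fun k _ => sum_congr rfl fun i _ => ?_
  rw [show -1 * j + 2 * (1 * k) + 2 * (q * i) - n = 2 * q * i + 2 * k - j - n by ring]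

/-- `p = ± 2`, decreasing gain step -/
lemma tabMin5_dn {q : ℤ} (hq : q = 1 ∨ q = -1) (n : ℤ) :
    TabMin (2 * q) (fun v => st (n - v)) (fun m => k5 (n - m)) := by
  refine TabMin.of_sum fun a b c I J K hI hJ hK => ?_
  have h := step5 hJ hK hI (σ := 1) (τ := -1) (ρ := -q) (Or.inl rfl) (Or.inr rfl)
    (by omega) (-n)
  have e1 : ((1 : ℤ) : ℝ) * b + 2 * (((-1 : ℤ) : ℝ) * c) + 2 * (((-q : ℤ) : ℝ) * a)
      - ((-n : ℤ) : ℝ) = n - (((2 * q : ℤ) : ℝ) * a + 2 * c - b) := by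
    push_cast
    ring
  rw [e1] at h
  refine (le_of_eq ?_).trans h
  refine sum_congr rfl fun j _ => sum_congr rfl fun k _ => sum_congr rfl fun i _ => ?_
  rw [show 1 * j + 2 * (-1 * k) + 2 * (-q * i) - -n = n - (2 * q * i + 2 * k - j) by ring]

/-! ### Robust versions -/

lemma TabMaj.rob_up {p : ℤ} {n : ℝ} {G : ℤ → ℝ} (h : TabMaj p (fun v => stE (v - n)) G) {B : ℝ}
    (hB : ∀ m, |G m| ≤ B) {a b c v δ : ℝ} (hδ : 0 ≤ δ) (hv : v ≤ p * a + 2 * c - b + δ) :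
    stE (v - n) ≤ tri3 (fun i j k => G (p * i + 2 * k - j)) a b c + 2 * B * δ := by
  have hB0 : 0 ≤ B := (abs_nonneg _).trans (hB 0)
  have h1 := h a (b - δ) c
  have h2 := abs_le.1 (tri3_lip (F := fun i j k => G (p * i + 2 * k - j))
    (fun i j k => hB _) a (b - δ) b c)
  have h3 : |b - δ - b| = δ := by
    rw [show b - δ - b = -δ by ring, abs_neg, abs_of_nonneg hδ]
  rw [h3] at h2
  have h4 : stE (v - n) ≤ stE (p * a + 2 * c - (b - δ) - n) := by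
    unfold stE
    split_ifs <;> linarith
  linarith [h2.1, h2.2]

lemma TabMaj.rob_dn {p : ℤ} {n : ℝ} {G : ℤ → ℝ} (h : TabMaj p (fun v => stE (n - v)) G) {B : ℝ}
    (hB : ∀ m, |G m| ≤ B) {a b c v δ : ℝ} (hδ : 0 ≤ δ) (hv : p * a + 2 * c - b - δ ≤ v) :
    stE (n - v) ≤ tri3 (fun i j k => G (p * i + 2 * k - j)) a b c + 2 * B * δ := by
  have hB0 : 0 ≤ B := (abs_nonneg _).trans (hB 0)
  have h1 := h a (b + δ) c
  have h2 := abs_le.1 (tri3_lip (F := fun i j k => G (p * i + 2 * k - j))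
    (fun i j k => hB _) a (b + δ) b c)
  have h3 : |b + δ - b| = δ := by
    rw [show b + δ - b = δ by ring, abs_of_nonneg hδ]
  rw [h3] at h2
  have h4 : stE (n - v) ≤ stE (n - (p * a + 2 * c - (b + δ))) := by
    unfold stE
    split_ifs <;> linarith
  linarith [h2.1, h2.2]

lemma TabMin.rob_up {p : ℤ} {n : ℝ} {G : ℤ → ℝ} (h : TabMin p (fun v => st (v - n)) G) {B : ℝ}
    (hB : ∀ m, |G m| ≤ B) {a b c v δ : ℝ} (hδ : 0 ≤ δ) (hv : p * a + 2 * c - b - δ ≤ v) :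
    tri3 (fun i j k => G (p * i + 2 * k - j)) a b c ≤ st (v - n) + 2 * B * δ := by
  have hB0 : 0 ≤ B := (abs_nonneg _).trans (hB 0)
  have h1 := h a (b + δ) c
  have h2 := abs_le.1 (tri3_lip (F := fun i j k => G (p * i + 2 * k - j))
    (fun i j k => hB _) a (b + δ) b c)
  have h3 : |b + δ - b| = δ := by
    rw [show b + δ - b = δ by ring, abs_of_nonneg hδ]
  rw [h3] at h2
  have h4 : st (p * a + 2 * c - (b + δ) - n) ≤ st (v - n) := by
    unfold st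
    split_ifs <;> linarith
  linarith [h2.1, h2.2]

lemma TabMin.rob_dn {p : ℤ} {n : ℝ} {G : ℤ → ℝ} (h : TabMin p (fun v => st (n - v)) G) {B : ℝ}
    (hB : ∀ m, |G m| ≤ B) {a b c v δ : ℝ} (hδ : 0 ≤ δ) (hv : v ≤ p * a + 2 * c - b + δ) :
    tri3 (fun i j k => G (p * i + 2 * k - j)) a b c ≤ st (n - v) + 2 * B * δ := by
  have hB0 : 0 ≤ B := (abs_nonneg _).trans (hB 0)
  have h1 := h a (b - δ) c
  have h2 := abs_le.1 (tri3_lip (F := fun i j k => G (p * i + 2 * k - j))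
    (fun i j k => hB _) a (b - δ) b c)
  have h3 : |b - δ - b| = δ := by
    rw [show b - δ - b = -δ by ring, abs_neg, abs_of_nonneg hδ]
  rw [h3] at h2
  have h4 : st (n - (p * a + 2 * c - (b - δ))) ≤ st (n - v) := by
    unfold st
    split_ifs <;> linarith
  linarith [h2.1, h2.2]

/-! ### Parts -/

/-- interpolation of a table with class flags and one linear form -/
lemma TX_form {C : Type} {lo hi : C → ℤ} {z a b : C × ℝ} (hz : RegX lo hi z) (ha : RegX lo hi a)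
    (hb : RegX lo hi b) (fl : C → C → C → ℝ) (G : ℤ → ℝ) (p : ℤ) :
    TX lo hi (fun x y w => fl x.1 y.1 w.1 * G (p * x.2 + 2 * w.2 - y.2)) z a b
      = fl z.1 a.1 b.1 * tri3 (fun i j k => G (p * i + 2 * k - j)) z.2 a.2 b.2 := by
  rw [← tri3_eq (fun i j k => G (p * i + 2 * k - j)) hz.near ha.near hb.near]
  unfold TX
  rw [mul_sum]
  refine sum_congr rfl fun i _ => ?_
  rw [mul_sum]
  refine sum_congr rfl fun j _ => ?_
  rw [mul_sum]
  refine sum_congr rfl fun k _ => ?_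
  ring

namespace GrdD

variable {C : Type} {M : ℕ} {σ δ : ℝ} {D K ρ : ℤ} {kL kR : ℝ} (G : GrdD C M σ δ D K ρ kL kR)

/-- the linear form `p x + 2 z - y` in node units -/
lemma near_form (p : ℤ) {x y z : P4} (hx : G.ok x) (hy : G.ok y) (hz : G.ok z) :
    |(M:ℝ) * ((p * lc D x.2 + lab D y z : ℤ) : ℝ) / D - σ * (p + 1)
      - (p * (G.pt x).2 + 2 * (G.pt z).2 - (G.pt y).2)| ≤ (|(p:ℝ)| + 3) * δ := by
  have a := G.near x hx
  have b := abs_le.1 (G.near y hy)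
  have c := abs_le.1 (G.near z hz)
  have hδ := G.delta_nonneg hx
  have e : (M:ℝ) * ((p * lc D x.2 + lab D y z : ℤ) : ℝ) / D - σ * (p + 1)
      - (p * (G.pt x).2 + 2 * (G.pt z).2 - (G.pt y).2)
      = -(p * (G.J x - yc M σ D (lc D x.2))) + (-(2 * (G.J z - yc M σ D (lc D z.2)))
        + (G.J y - yc M σ D (lc D y.2))) := by
    unfold yc lab Grd.pt
    push_cast
    ring
  have h1 : |p * (G.J x - yc M σ D (lc D x.2))| ≤ |(p:ℝ)| * δ := by
    rw [abs_mul]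
    exact mul_le_mul_of_nonneg_left a (abs_nonneg _)
  have h1' := abs_le.1 h1
  rw [e, abs_le]
  constructor <;> linarith [h1'.1, h1'.2, b.1, b.2, c.1, c.2]

/-- COST OF A THREE-BODY FAMILY, decreasing form `p x + 2 z - y ≤ c`: the node threshold `n` is at
least the true threshold up to `δ'` -/
theorem cost_dn {p : ℤ} {n : ℝ} {Tb : ℤ → ℝ} (h : TabMaj p (fun v => stE (n - v)) Tb) {B F : ℝ}
    (hB : ∀ m, |Tb m| ≤ B) {c : ℤ} {δ' : ℝ} (hδ' : 0 ≤ δ')
    (hn : (M:ℝ) * c / D - σ * (p + 1) ≤ n + δ')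
    {fl : C → C → C → ℝ} (hfl : ∀ a b d, 0 ≤ fl a b d) (hF : ∀ a b d, fl a b d ≤ F)
    {Φ : P4 → P4 → P4 → ℝ}
    (hΦ : ∀ x y z, G.ok x → G.ok y → G.ok z → Φ x y z
      ≤ fl (G.cl x) (G.cl y) (G.cl z) * bo (p * lc D x.2 + lab D y z ≤ c)) :
    G.Part Φ (fun a b d => fl a.1 b.1 d.1 * Tb (p * a.2 + 2 * d.2 - b.2))
      (F * (2 * B * ((|(p:ℝ)| + 3) * δ + δ'))) := by
  intro x y z hx hy hz
  have hδ := G.delta_nonneg hx
  have hD : (0:ℝ) < D := by exact_mod_cast G.hD0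
  have hB0 : 0 ≤ B := (abs_nonneg _).trans (hB 0)
  have hf := hfl (G.cl x) (G.cl y) (G.cl z)
  have hf' := hF (G.cl x) (G.cl y) (G.cl z)
  have hnf := abs_le.1 (G.near_form p hx hy hz)
  set δ1 : ℝ := (|(p:ℝ)| + 3) * δ + δ' with hδ1
  have hδ1' : 0 ≤ δ1 := by
    have := abs_nonneg (p:ℝ)
    positivity
  have key : bo (p * lc D x.2 + lab D y z ≤ c)
      ≤ tri3 (fun i j k => Tb (p * i + 2 * k - j)) (G.pt x).2 (G.pt y).2 (G.pt z).2
        + 2 * B * δ1 := by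
    have r := h.rob_dn hB (a := (G.pt x).2) (b := (G.pt y).2) (c := (G.pt z).2)
      (v := (M:ℝ) * ((p * lc D x.2 + lab D y z : ℤ) : ℝ) / D - σ * (p + 1) - δ') (δ := δ1) hδ1'
      (by linarith [hnf.1, hnf.2])
    refine le_trans ?_ r
    unfold bo stE
    by_cases c1 : p * lc D x.2 + lab D y z ≤ c
    · have c2 : ((p * lc D x.2 + lab D y z : ℤ) : ℝ) ≤ c := by exact_mod_cast c1
      have c3 : (M:ℝ) * ((p * lc D x.2 + lab D y z : ℤ) : ℝ) / D ≤ (M:ℝ) * c / D :=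
        div_le_div_of_nonneg_right (mul_le_mul_of_nonneg_left c2 (Nat.cast_nonneg _)) hD.le
      rw [if_pos c1, if_pos (by linarith)]
    · rw [if_neg c1]
      split_ifs <;> norm_num
  rw [TX_form (G.regX hx) (G.regX hy) (G.regX hz) fl Tb p]
  have h1 := hΦ x y z hx hy hz
  have h2 := mul_le_mul_of_nonneg_left key hf
  have h3 := mul_le_mul_of_nonneg_right hf' (by positivity : 0 ≤ 2 * B * δ1)
  have e : (G.pt x).1 = G.cl x ∧ (G.pt y).1 = G.cl y ∧ (G.pt z).1 = G.cl z := ⟨rfl, rfl, rfl⟩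
  rw [e.1, e.2.1, e.2.2]
  linarith

/-- COST OF A THREE-BODY FAMILY, increasing form `c ≤ p x + 2 z - y` -/
theorem cost_up {p : ℤ} {n : ℝ} {Tb : ℤ → ℝ} (h : TabMaj p (fun v => stE (v - n)) Tb) {B F : ℝ}
    (hB : ∀ m, |Tb m| ≤ B) {c : ℤ} {δ' : ℝ} (hδ' : 0 ≤ δ')
    (hn : n - δ' ≤ (M:ℝ) * c / D - σ * (p + 1))
    {fl : C → C → C → ℝ} (hfl : ∀ a b d, 0 ≤ fl a b d) (hF : ∀ a b d, fl a b d ≤ F)
    {Φ : P4 → P4 → P4 → ℝ}
    (hΦ : ∀ x y z, G.ok x → G.ok y → G.ok z → Φ x y z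
      ≤ fl (G.cl x) (G.cl y) (G.cl z) * bo (c ≤ p * lc D x.2 + lab D y z)) :
    G.Part Φ (fun a b d => fl a.1 b.1 d.1 * Tb (p * a.2 + 2 * d.2 - b.2))
      (F * (2 * B * ((|(p:ℝ)| + 3) * δ + δ'))) := by
  intro x y z hx hy hz
  have hδ := G.delta_nonneg hx
  have hD : (0:ℝ) < D := by exact_mod_cast G.hD0
  have hB0 : 0 ≤ B := (abs_nonneg _).trans (hB 0)
  have hf := hfl (G.cl x) (G.cl y) (G.cl z)
  have hf' := hF (G.cl x) (G.cl y) (G.cl z)
  have hnf := abs_le.1 (G.near_form p hx hy hz)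
  set δ1 : ℝ := (|(p:ℝ)| + 3) * δ + δ' with hδ1
  have hδ1' : 0 ≤ δ1 := by
    have := abs_nonneg (p:ℝ)
    positivity
  have key : bo (c ≤ p * lc D x.2 + lab D y z)
      ≤ tri3 (fun i j k => Tb (p * i + 2 * k - j)) (G.pt x).2 (G.pt y).2 (G.pt z).2
        + 2 * B * δ1 := by
    have r := h.rob_up hB (a := (G.pt x).2) (b := (G.pt y).2) (c := (G.pt z).2)
      (v := (M:ℝ) * ((p * lc D x.2 + lab D y z : ℤ) : ℝ) / D - σ * (p + 1) + δ') (δ := δ1) hδ1'
      (by linarith [hnf.1, hnf.2])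
    refine le_trans ?_ r
    unfold bo stE
    by_cases c1 : c ≤ p * lc D x.2 + lab D y z
    · have c2 : (c:ℝ) ≤ ((p * lc D x.2 + lab D y z : ℤ) : ℝ) := by exact_mod_cast c1
      have c3 : (M:ℝ) * c / D ≤ (M:ℝ) * ((p * lc D x.2 + lab D y z : ℤ) : ℝ) / D :=
        div_le_div_of_nonneg_right (mul_le_mul_of_nonneg_left c2 (Nat.cast_nonneg _)) hD.le
      rw [if_pos c1, if_pos (by linarith)]
    · rw [if_neg c1]
      split_ifs <;> norm_num
  rw [TX_form (G.regX hx) (G.regX hy) (G.regX hz) fl Tb p]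
  have h1 := hΦ x y z hx hy hz
  have h2 := mul_le_mul_of_nonneg_left key hf
  have h3 := mul_le_mul_of_nonneg_right hf' (by positivity : 0 ≤ 2 * B * δ1)
  have e : (G.pt x).1 = G.cl x ∧ (G.pt y).1 = G.cl y ∧ (G.pt z).1 = G.cl z := ⟨rfl, rfl, rfl⟩
  rw [e.1, e.2.1, e.2.2]
  linarith

/-- GAIN OF A THREE-BODY FAMILY, decreasing form: `Φ ≥ fl * [p x + 2 z - y ≤ c]`, the node
threshold `n` is at most the true threshold up to `δ'` -/
theorem gain_dn {p : ℤ} {n : ℝ} {Tb : ℤ → ℝ} (h : TabMin p (fun v => st (n - v)) Tb) {B F : ℝ}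
    (hB : ∀ m, |Tb m| ≤ B) {c : ℤ} {δ' : ℝ} (hδ' : 0 ≤ δ')
    (hn : n - δ' ≤ (M:ℝ) * (c + 1) / D - σ * (p + 1))
    {fl : C → C → C → ℝ} (hfl : ∀ a b d, 0 ≤ fl a b d) (hF : ∀ a b d, fl a b d ≤ F)
    {Φ : P4 → P4 → P4 → ℝ}
    (hΦ : ∀ x y z, G.ok x → G.ok y → G.ok z →
      fl (G.cl x) (G.cl y) (G.cl z) * bo (p * lc D x.2 + lab D y z ≤ c) ≤ Φ x y z) :
    G.Part (fun x y z => -Φ x y z)
      (fun a b d => -(fl a.1 b.1 d.1 * Tb (p * a.2 + 2 * d.2 - b.2)))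
      (F * (2 * B * ((|(p:ℝ)| + 3) * δ + δ'))) := by
  intro x y z hx hy hz
  have hδ := G.delta_nonneg hx
  have hD : (0:ℝ) < D := by exact_mod_cast G.hD0
  have hB0 : 0 ≤ B := (abs_nonneg _).trans (hB 0)
  have hf := hfl (G.cl x) (G.cl y) (G.cl z)
  have hf' := hF (G.cl x) (G.cl y) (G.cl z)
  have hnf := abs_le.1 (G.near_form p hx hy hz)
  set δ1 : ℝ := (|(p:ℝ)| + 3) * δ + δ' with hδ1
  have hδ1' : 0 ≤ δ1 := by
    have := abs_nonneg (p:ℝ)
    positivity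
  have key : tri3 (fun i j k => Tb (p * i + 2 * k - j)) (G.pt x).2 (G.pt y).2 (G.pt z).2
      ≤ bo (p * lc D x.2 + lab D y z ≤ c) + 2 * B * δ1 := by
    have r := h.rob_dn hB (a := (G.pt x).2) (b := (G.pt y).2) (c := (G.pt z).2)
      (v := (M:ℝ) * ((p * lc D x.2 + lab D y z : ℤ) : ℝ) / D - σ * (p + 1) + δ') (δ := δ1) hδ1'
      (by linarith [hnf.1, hnf.2])
    refine r.trans ?_
    unfold bo st
    by_cases c1 : p * lc D x.2 + lab D y z ≤ c
    · rw [if_pos c1]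
      split_ifs <;> linarith
    · have c2 : (c:ℝ) + 1 ≤ ((p * lc D x.2 + lab D y z : ℤ) : ℝ) := by
        exact_mod_cast (by omega : c + 1 ≤ p * lc D x.2 + lab D y z)
      have c3 : (M:ℝ) * (c + 1) / D ≤ (M:ℝ) * ((p * lc D x.2 + lab D y z : ℤ) : ℝ) / D :=
        div_le_div_of_nonneg_right (mul_le_mul_of_nonneg_left c2 (Nat.cast_nonneg _)) hD.le
      rw [if_neg c1, if_neg (by linarith)]
  have e0 : TX G.lo G.hi (fun a b d => -(fl a.1 b.1 d.1 * Tb (p * a.2 + 2 * d.2 - b.2)))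
      (G.pt x) (G.pt y) (G.pt z)
      = -(fl (G.cl x) (G.cl y) (G.cl z)
        * tri3 (fun i j k => Tb (p * i + 2 * k - j)) (G.pt x).2 (G.pt y).2 (G.pt z).2) := by
    rw [TX_neg, TX_form (G.regX hx) (G.regX hy) (G.regX hz) fl Tb p]
    rfl
  rw [e0]
  have h1 := hΦ x y z hx hy hz
  have h2 := mul_le_mul_of_nonneg_left key hf
  have h3 := mul_le_mul_of_nonneg_right hf' (by positivity : 0 ≤ 2 * B * δ1)
  linarith

/-- GAIN OF A THREE-BODY FAMILY, increasing form -/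
theorem gain_up {p : ℤ} {n : ℝ} {Tb : ℤ → ℝ} (h : TabMin p (fun v => st (v - n)) Tb) {B F : ℝ}
    (hB : ∀ m, |Tb m| ≤ B) {c : ℤ} {δ' : ℝ} (hδ' : 0 ≤ δ')
    (hn : (M:ℝ) * (c - 1) / D - σ * (p + 1) ≤ n + δ')
    {fl : C → C → C → ℝ} (hfl : ∀ a b d, 0 ≤ fl a b d) (hF : ∀ a b d, fl a b d ≤ F)
    {Φ : P4 → P4 → P4 → ℝ}
    (hΦ : ∀ x y z, G.ok x → G.ok y → G.ok z →
      fl (G.cl x) (G.cl y) (G.cl z) * bo (c ≤ p * lc D x.2 + lab D y z) ≤ Φ x y z) :
    G.Part (fun x y z => -Φ x y z)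
      (fun a b d => -(fl a.1 b.1 d.1 * Tb (p * a.2 + 2 * d.2 - b.2)))
      (F * (2 * B * ((|(p:ℝ)| + 3) * δ + δ'))) := by
  intro x y z hx hy hz
  have hδ := G.delta_nonneg hx
  have hD : (0:ℝ) < D := by exact_mod_cast G.hD0
  have hB0 : 0 ≤ B := (abs_nonneg _).trans (hB 0)
  have hf := hfl (G.cl x) (G.cl y) (G.cl z)
  have hf' := hF (G.cl x) (G.cl y) (G.cl z)
  have hnf := abs_le.1 (G.near_form p hx hy hz)
  set δ1 : ℝ := (|(p:ℝ)| + 3) * δ + δ' with hδ1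
  have hδ1' : 0 ≤ δ1 := by
    have := abs_nonneg (p:ℝ)
    positivity
  have key : tri3 (fun i j k => Tb (p * i + 2 * k - j)) (G.pt x).2 (G.pt y).2 (G.pt z).2
      ≤ bo (c ≤ p * lc D x.2 + lab D y z) + 2 * B * δ1 := by
    have r := h.rob_up hB (a := (G.pt x).2) (b := (G.pt y).2) (c := (G.pt z).2)
      (v := (M:ℝ) * ((p * lc D x.2 + lab D y z : ℤ) : ℝ) / D - σ * (p + 1) - δ') (δ := δ1) hδ1'
      (by linarith [hnf.1, hnf.2])
    refine r.trans ?_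
    unfold bo st
    by_cases c1 : c ≤ p * lc D x.2 + lab D y z
    · rw [if_pos c1]
      split_ifs <;> linarith
    · have c2 : ((p * lc D x.2 + lab D y z : ℤ) : ℝ) ≤ (c:ℝ) - 1 := by
        exact_mod_cast (by omega : p * lc D x.2 + lab D y z ≤ c - 1)
      have c3 : (M:ℝ) * ((p * lc D x.2 + lab D y z : ℤ) : ℝ) / D ≤ (M:ℝ) * (c - 1) / D :=
        div_le_div_of_nonneg_right (mul_le_mul_of_nonneg_left c2 (Nat.cast_nonneg _)) hD.le
      rw [if_neg c1, if_neg (by linarith)]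
  have e0 : TX G.lo G.hi (fun a b d => -(fl a.1 b.1 d.1 * Tb (p * a.2 + 2 * d.2 - b.2)))
      (G.pt x) (G.pt y) (G.pt z)
      = -(fl (G.cl x) (G.cl y) (G.cl z)
        * tri3 (fun i j k => Tb (p * i + 2 * k - j)) (G.pt x).2 (G.pt y).2 (G.pt z).2) := by
    rw [TX_neg, TX_form (G.regX hx) (G.regX hy) (G.regX hz) fl Tb p]
    rfl
  rw [e0]
  have h1 := hΦ x y z hx hy hz
  have h2 := mul_le_mul_of_nonneg_left key hf
  have h3 := mul_le_mul_of_nonneg_right hf' (by positivity : 0 ≤ 2 * B * δ1)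
  linarith

/-! ### The crude reduction -/

/-- a bound at every node of the hat support is a bound of the interpolation -/
lemma le_kX {x : P4} (hx : G.ok x) {v : ℝ} {f : C × ℤ → ℝ}
    (h : ∀ i ∈ nd G.lo G.hi (G.cl x), |G.J x - i| < 1 → v ≤ f (G.cl x, i)) :
    v ≤ kX G.lo G.hi f (G.pt x) := by
  have hr := (G.regX hx).one
  have e : v = ∑ i ∈ nd G.lo G.hi (G.pt x).1, hat i (G.pt x).2 * v := by
    rw [← sum_mul, hr, one_mul]
  rw [e]
  unfold kX
  refine sum_le_sum fun i hi' => ?_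
  by_cases c : |G.J x - i| < 1
  · exact mul_le_mul_of_nonneg_left (h i hi' c) (hat_nonneg _ _)
  · have h0 : hat i (G.pt x).2 = 0 := by
      unfold hat Grd.pt
      push Not at c
      exact max_eq_left (by simp only; linarith)
    rw [h0, zero_mul, zero_mul]

/-- two-body step of a node of the sampler: worst position in the hat support (clamped at the ends
of the class), decreasing form with `0 ≤ p` (`x ≥ max (i - 1) lo`) -/
lemma crude_dn {p : ℤ} (hp : 0 ≤ p) {c : ℤ} {x y z : P4} (hx : G.ok x) :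
    bo (p * lc D x.2 + lab D y z ≤ c)
      ≤ kX G.lo G.hi (fun ζ => stE ((M:ℝ) * c / D - σ * (p + 1)
        - p * max ((ζ.2:ℝ) - 1) (G.lo ζ.1) + p * δ - yc M σ D (lab D y z))) (G.pt x) := by
  refine G.le_kX hx fun i hi' hi2 => ?_
  have hD : (0:ℝ) < D := by exact_mod_cast G.hD0
  have hnx := abs_le.1 (G.near x hx)
  have hr := G.reg x hx
  have hp' : (0:ℝ) ≤ p := by exact_mod_cast hp
  unfold bo stE
  by_cases c1 : p * lc D x.2 + lab D y z ≤ c
  · rw [if_pos c1, if_pos]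
    have c2 : ((p * lc D x.2 + lab D y z : ℤ) : ℝ) ≤ c := by exact_mod_cast c1
    have c3 : (M:ℝ) * ((p * lc D x.2 + lab D y z : ℤ) : ℝ) / D ≤ (M:ℝ) * c / D :=
      div_le_div_of_nonneg_right (mul_le_mul_of_nonneg_left c2 (Nat.cast_nonneg _)) hD.le
    have e1 : (M:ℝ) * ((p * lc D x.2 + lab D y z : ℤ) : ℝ) / D
        = p * (yc M σ D (lc D x.2) + σ) + (yc M σ D (lab D y z) + σ) := by
      unfold yc
      push_cast
      ring
    rw [e1] at c3
    have h4 := (abs_lt.1 hi2).1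
    have h5 : max ((i:ℝ) - 1) (G.lo (G.cl x)) ≤ G.J x := max_le (by linarith) hr.1
    have h6 := mul_le_mul_of_nonneg_left h5 hp'
    have h7 := mul_le_mul_of_nonneg_left hnx.2 hp'
    linarith
  · rw [if_neg c1]
    split_ifs <;> norm_num

/-- the same, `p ≤ 0` (`x ≤ min (i + 1) hi`) -/
lemma crude_dn' {p : ℤ} (hp : p ≤ 0) {c : ℤ} {x y z : P4} (hx : G.ok x) :
    bo (p * lc D x.2 + lab D y z ≤ c)
      ≤ kX G.lo G.hi (fun ζ => stE ((M:ℝ) * c / D - σ * (p + 1)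
        - p * min ((ζ.2:ℝ) + 1) (G.hi ζ.1) - p * δ - yc M σ D (lab D y z))) (G.pt x) := by
  refine G.le_kX hx fun i hi' hi2 => ?_
  have hD : (0:ℝ) < D := by exact_mod_cast G.hD0
  have hnx := abs_le.1 (G.near x hx)
  have hr := G.reg x hx
  have hp' : (0:ℝ) ≤ -p := by exact_mod_cast (by omega : 0 ≤ -p)
  unfold bo stE
  by_cases c1 : p * lc D x.2 + lab D y z ≤ c
  · rw [if_pos c1, if_pos]
    have c2 : ((p * lc D x.2 + lab D y z : ℤ) : ℝ) ≤ c := by exact_mod_cast c1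
    have c3 : (M:ℝ) * ((p * lc D x.2 + lab D y z : ℤ) : ℝ) / D ≤ (M:ℝ) * c / D :=
      div_le_div_of_nonneg_right (mul_le_mul_of_nonneg_left c2 (Nat.cast_nonneg _)) hD.le
    have e1 : (M:ℝ) * ((p * lc D x.2 + lab D y z : ℤ) : ℝ) / D
        = p * (yc M σ D (lc D x.2) + σ) + (yc M σ D (lab D y z) + σ) := by
      unfold yc
      push_cast
      ring
    rw [e1] at c3
    have h4 := (abs_lt.1 hi2).2
    have h5 : G.J x ≤ min ((i:ℝ) + 1) (G.hi (G.cl x)) := le_min (by linarith) hr.2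
    have h6 := mul_le_mul_of_nonneg_left h5 hp'
    have h7 := mul_le_mul_of_nonneg_left hnx.1 hp'
    linarith
  · rw [if_neg c1]
    split_ifs <;> norm_num

/-- increasing form, `0 ≤ p` -/
lemma crude_up {p : ℤ} (hp : 0 ≤ p) {c : ℤ} {x y z : P4} (hx : G.ok x) :
    bo (c ≤ p * lc D x.2 + lab D y z)
      ≤ kX G.lo G.hi (fun ζ => stE (yc M σ D (lab D y z) + p * min ((ζ.2:ℝ) + 1) (G.hi ζ.1)
        + p * δ - ((M:ℝ) * c / D - σ * (p + 1)))) (G.pt x) := by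
  refine G.le_kX hx fun i hi' hi2 => ?_
  have hD : (0:ℝ) < D := by exact_mod_cast G.hD0
  have hnx := abs_le.1 (G.near x hx)
  have hr := G.reg x hx
  have hp' : (0:ℝ) ≤ p := by exact_mod_cast hp
  unfold bo stE
  by_cases c1 : c ≤ p * lc D x.2 + lab D y z
  · rw [if_pos c1, if_pos]
    have c2 : (c:ℝ) ≤ ((p * lc D x.2 + lab D y z : ℤ) : ℝ) := by exact_mod_cast c1
    have c3 : (M:ℝ) * c / D ≤ (M:ℝ) * ((p * lc D x.2 + lab D y z : ℤ) : ℝ) / D :=
      div_le_div_of_nonneg_right (mul_le_mul_of_nonneg_left c2 (Nat.cast_nonneg _)) hD.le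
    have e1 : (M:ℝ) * ((p * lc D x.2 + lab D y z : ℤ) : ℝ) / D
        = p * (yc M σ D (lc D x.2) + σ) + (yc M σ D (lab D y z) + σ) := by
      unfold yc
      push_cast
      ring
    rw [e1] at c3
    have h4 := (abs_lt.1 hi2).2
    have h5 : G.J x ≤ min ((i:ℝ) + 1) (G.hi (G.cl x)) := le_min (by linarith) hr.2
    have h6 := mul_le_mul_of_nonneg_left h5 hp'
    have h7 := mul_le_mul_of_nonneg_left hnx.1 hp'
    linarith
  · rw [if_neg c1]
    split_ifs <;> norm_num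

/-- increasing form, `p ≤ 0` -/
lemma crude_up' {p : ℤ} (hp : p ≤ 0) {c : ℤ} {x y z : P4} (hx : G.ok x) :
    bo (c ≤ p * lc D x.2 + lab D y z)
      ≤ kX G.lo G.hi (fun ζ => stE (yc M σ D (lab D y z) + p * max ((ζ.2:ℝ) - 1) (G.lo ζ.1)
        - p * δ - ((M:ℝ) * c / D - σ * (p + 1)))) (G.pt x) := by
  refine G.le_kX hx fun i hi' hi2 => ?_
  have hD : (0:ℝ) < D := by exact_mod_cast G.hD0
  have hnx := abs_le.1 (G.near x hx)
  have hr := G.reg x hx
  have hp' : (0:ℝ) ≤ -p := by exact_mod_cast (by omega : 0 ≤ -p)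
  unfold bo stE
  by_cases c1 : c ≤ p * lc D x.2 + lab D y z
  · rw [if_pos c1, if_pos]
    have c2 : (c:ℝ) ≤ ((p * lc D x.2 + lab D y z : ℤ) : ℝ) := by exact_mod_cast c1
    have c3 : (M:ℝ) * c / D ≤ (M:ℝ) * ((p * lc D x.2 + lab D y z : ℤ) : ℝ) / D :=
      div_le_div_of_nonneg_right (mul_le_mul_of_nonneg_left c2 (Nat.cast_nonneg _)) hD.le
    have e1 : (M:ℝ) * ((p * lc D x.2 + lab D y z : ℤ) : ℝ) / D
        = p * (yc M σ D (lc D x.2) + σ) + (yc M σ D (lab D y z) + σ) := by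
      unfold yc
      push_cast
      ring
    rw [e1] at c3
    have h4 := (abs_lt.1 hi2).1
    have h5 : max ((i:ℝ) - 1) (G.lo (G.cl x)) ≤ G.J x := max_le (by linarith) hr.1
    have h6 := mul_le_mul_of_nonneg_left h5 hp'
    have h7 := mul_le_mul_of_nonneg_left hnx.2 hp'
    linarith
  · rw [if_neg c1]
    split_ifs <;> norm_num

end GrdD

/-! ### The families in the left coordinate -/

section families

variable {D K ρ : ℤ}

lemma lab_PP {y z : P4} (hy : y.2.1 = false) (hz : z.2.1 = false) :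
    lab D y z = 2 * z.2.2 - y.2.2 := by
  unfold lab lc
  rw [hy, hz]
  simp

lemma lab_QQ {y z : P4} (hy : y.2.1 = true) (hz : z.2.1 = true) :
    lab D y z = D - 2 * z.2.2 + y.2.2 := by
  unfold lab lc
  rw [hy, hz]
  simp
  ring

lemma lab_PQ {y z : P4} (hy : y.2.1 = false) (hz : z.2.1 = true) :
    lab D y z = 2 * D - (y.2.2 + 2 * z.2.2) := by
  unfold lab lc
  rw [hy, hz]
  simp
  ring

lemma lab_QP {y z : P4} (hy : y.2.1 = true) (hz : z.2.1 = false) :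
    lab D y z = y.2.2 + 2 * z.2.2 - D := by
  unfold lab lc
  rw [hy, hz]
  simp
  ring

lemma lc_P {x : P4} (hx : x.2.1 = false) : lc D x.2 = x.2.2 := by
  unfold lc
  rw [hx]
  simp

lemma lc_Q {x : P4} (hx : x.2.1 = true) : lc D x.2 = D - x.2.2 := by
  unfold lc
  rw [hx]
  simp

/-- side and role flag of a pair `(P, P doubled)` -/
def fPP (V : ℤ) (y z : P4) : ℝ := bo (y.2.1 = false ∧ z.2.1 = false ∧ -V ≤ z.2.2)
/-- side and role flag of a pair `(Q, Q doubled)` -/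
def fQQ (V : ℤ) (y z : P4) : ℝ := bo (y.2.1 = true ∧ z.2.1 = true ∧ -V ≤ z.2.2)
/-- side flag of a pair `(P, Q)` -/
def fPQ (y z : P4) : ℝ := bo (y.2.1 = false ∧ z.2.1 = true)
/-- side flag of a pair `(Q, P)` -/
def fQP (y z : P4) : ℝ := bo (y.2.1 = true ∧ z.2.1 = false)

/-- right hand side of form (A), `2 x + l ≤ cA` -/
def cA (D K ρ t : ℤ) : ℤ := 2 * D - 2 * K - 1 - ρ + 4 * t
/-- left hand side of form (B), `cB ≤ -4 x + l` -/
def cB (D K ρ t : ℤ) : ℤ := 2 * K + 1 + ρ - D - 2 * t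
/-- right hand side of form (C), `-x + l ≤ cC` -/
def cC (D K ρ t : ℤ) : ℤ := t - D - 2 * K - 1 - ρ

/-- (F1) exotic right label `u + 2 t` of a point of `Q` -/
lemma famF1 {V : ℤ} {x y z : P4} (hx : x.2.1 = true) {t : ℤ} :
    kNP V (thr K ρ (x.2.2 + 2 * t)) y.2 z.2
      ≤ fPP V y z * bo (2 * lc D x.2 + lab D y z ≤ cA D K ρ t) := by
  unfold kNP fPP
  by_cases c : (y.2.1 = false ∧ z.2.1 = false) ∧ -V ≤ z.2.2
      ∧ thr K ρ (x.2.2 + 2 * t) ≤ y.2.2 - 2 * z.2.2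
  · have c' := c.2.2
    unfold thr at c'
    have g : 2 * lc D x.2 + lab D y z ≤ cA D K ρ t := by
      rw [lab_PP c.1.1 c.1.2, lc_Q hx]
      unfold cA
      omega
    rw [bo_true c, bo_true ⟨c.1.1, c.1.2, c.2.1⟩, bo_true g]
    norm_num
  · rw [bo_false c]
    exact mul_nonneg (bo_nonneg _) (bo_nonneg _)

/-- (F2) exotic left label `2 u + t - D` of a point of `Q` -/
lemma famF2 {V : ℤ} {x y z : P4} (hx : x.2.1 = true) {t : ℤ} :
    kNQ V (thr K ρ (2 * x.2.2 + t - D)) y.2 z.2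
      ≤ fQQ V y z * bo (cB D K ρ t ≤ -4 * lc D x.2 + lab D y z) := by
  unfold kNQ fQQ
  by_cases c : (y.2.1 = true ∧ z.2.1 = true) ∧ -V ≤ z.2.2
      ∧ thr K ρ (2 * x.2.2 + t - D) ≤ y.2.2 - 2 * z.2.2
  · have c' := c.2.2
    unfold thr at c'
    have g : cB D K ρ t ≤ -4 * lc D x.2 + lab D y z := by
      rw [lab_QQ c.1.1 c.1.2, lc_Q hx]
      unfold cB
      omega
    rw [bo_true c, bo_true ⟨c.1.1, c.1.2, c.2.1⟩, bo_true g]
    norm_num
  · rw [bo_false c]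
    exact mul_nonneg (bo_nonneg _) (bo_nonneg _)

/-- (F3) midpoint of the stray and a point of `Q` -/
lemma famF3 {V : ℤ} {x y z : P4} (hx : x.2.1 = true) {t e : ℤ} :
    kNP V (thr K ρ ((t - x.2.2 + e) / 2)) y.2 z.2
      ≤ fPP V y z * bo (-1 * lc D x.2 + lab D y z ≤ cC D K ρ (t + e)) := by
  unfold kNP fPP
  by_cases c : (y.2.1 = false ∧ z.2.1 = false) ∧ -V ≤ z.2.2
      ∧ thr K ρ ((t - x.2.2 + e) / 2) ≤ y.2.2 - 2 * z.2.2
  · have c' := c.2.2
    unfold thr at c'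
    have g : -1 * lc D x.2 + lab D y z ≤ cC D K ρ (t + e) := by
      rw [lab_PP c.1.1 c.1.2, lc_Q hx]
      unfold cC
      omega
    rw [bo_true c, bo_true ⟨c.1.1, c.1.2, c.2.1⟩, bo_true g]
    norm_num
  · rw [bo_false c]
    exact mul_nonneg (bo_nonneg _) (bo_nonneg _)

/-- (F4) midpoint of the stray and a point of `P` -/
lemma famF4 {V : ℤ} {x y z : P4} (hx : x.2.1 = false) {t e : ℤ} :
    kNP V (thr K ρ ((t + x.2.2 - D + e) / 2)) y.2 z.2
      ≤ fPP V y z * bo (-1 * lc D x.2 + lab D y z ≤ cC D K ρ (t + e)) := by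
  unfold kNP fPP
  by_cases c : (y.2.1 = false ∧ z.2.1 = false) ∧ -V ≤ z.2.2
      ∧ thr K ρ ((t + x.2.2 - D + e) / 2) ≤ y.2.2 - 2 * z.2.2
  · have c' := c.2.2
    unfold thr at c'
    have g : -1 * lc D x.2 + lab D y z ≤ cC D K ρ (t + e) := by
      rw [lab_PP c.1.1 c.1.2, lc_P hx]
      unfold cC
      omega
    rw [bo_true c, bo_true ⟨c.1.1, c.1.2, c.2.1⟩, bo_true g]
    norm_num
  · rw [bo_false c]
    exact mul_nonneg (bo_nonneg _) (bo_nonneg _)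

/-- constant threshold instead of the moving one -/
lemma famF_const {V : ℤ} (j : ℤ) (y z : P4) :
    kNP V (thr K ρ j) y.2 z.2 ≤ kNP V (1 + ρ) y.2 z.2 :=
  kNP_anti V (by unfold thr; omega) _ _

lemma famF_constQ {V : ℤ} (j : ℤ) (y z : P4) :
    kNQ V (thr K ρ j) y.2 z.2 ≤ kNQ V (1 + ρ) y.2 z.2 :=
  kNQ_anti V (by unfold thr; omega) _ _

/-- (G1) right tail of a point of `P`, form (A) -/
lemma famG1 {x y z : P4} (hx : x.2.1 = false) {t : ℤ} :
    kPQ (2 * K + 1 + ρ + 2 * (x.2.2 - 2 * t)) y.2 z.2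
      = fPQ y z * bo (2 * lc D x.2 + lab D y z ≤ cA D K ρ t) := by
  unfold kPQ fPQ
  by_cases c : y.2.1 = false ∧ z.2.1 = true
  · rw [bo_true c, one_mul, lab_PQ c.1 c.2, lc_P hx]
    unfold cA
    by_cases d : 2 * K + 1 + ρ + 2 * (x.2.2 - 2 * t) ≤ y.2.2 + 2 * z.2.2
    · rw [bo_true ⟨c, d⟩, bo_true (by omega)]
    · rw [bo_false (fun h => d h.2), bo_false (by omega)]
  · rw [bo_false (fun h => c h.1), bo_false c, zero_mul]

/-- (G1') right saving of a point of `Q`, form (A) -/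
lemma famG1' {x y z : P4} (hD : D = 4 * K + 1) (hx : x.2.1 = true) {t : ℤ} :
    kPQ (2 * K + 1 + ρ + 2 * (4 * K + 1 - (x.2.2 + 2 * t))) y.2 z.2
      = fPQ y z * bo (2 * lc D x.2 + lab D y z ≤ cA D K ρ t) := by
  unfold kPQ fPQ
  by_cases c : y.2.1 = false ∧ z.2.1 = true
  · rw [bo_true c, one_mul, lab_PQ c.1 c.2, lc_Q hx]
    unfold cA
    by_cases d : 2 * K + 1 + ρ + 2 * (4 * K + 1 - (x.2.2 + 2 * t)) ≤ y.2.2 + 2 * z.2.2
    · rw [bo_true ⟨c, d⟩, bo_true (by omega)]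
    · rw [bo_false (fun h => d h.2), bo_false (by omega)]
  · rw [bo_false (fun h => c h.1), bo_false c, zero_mul]

/-- (G2) left tail of a point of `P`, form (B) -/
lemma famG2 {x y z : P4} (hx : x.2.1 = false) {t : ℤ} :
    kQP (2 * K + 1 + ρ + 2 * (2 * x.2.2 - t)) y.2 z.2
      = fQP y z * bo (cB D K ρ t ≤ -4 * lc D x.2 + lab D y z) := by
  unfold kQP fQP
  by_cases c : y.2.1 = true ∧ z.2.1 = false
  · rw [bo_true c, one_mul, lab_QP c.1 c.2, lc_P hx]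
    unfold cB
    by_cases d : 2 * K + 1 + ρ + 2 * (2 * x.2.2 - t) ≤ y.2.2 + 2 * z.2.2
    · rw [bo_true ⟨c, d⟩, bo_true (by omega)]
    · rw [bo_false (fun h => d h.2), bo_false (by omega)]
  · rw [bo_false (fun h => c h.1), bo_false c, zero_mul]

/-- (G2') left saving of a point of `Q`, form (B) -/
lemma famG2' {x y z : P4} (hD : D = 4 * K + 1) (hx : x.2.1 = true) {t : ℤ} :
    kQP (2 * K + 1 + ρ + 2 * (4 * K + 1 - (2 * x.2.2 + t - (4 * K + 1)))) y.2 z.2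
      = fQP y z * bo (cB D K ρ t ≤ -4 * lc D x.2 + lab D y z) := by
  unfold kQP fQP
  by_cases c : y.2.1 = true ∧ z.2.1 = false
  · rw [bo_true c, one_mul, lab_QP c.1 c.2, lc_Q hx]
    unfold cB
    by_cases d : 2 * K + 1 + ρ + 2 * (4 * K + 1 - (2 * x.2.2 + t - (4 * K + 1)))
        ≤ y.2.2 + 2 * z.2.2
    · rw [bo_true ⟨c, d⟩, bo_true (by omega)]
    · rw [bo_false (fun h => d h.2), bo_false (by omega)]
  · rw [bo_false (fun h => c h.1), bo_false c, zero_mul]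

end families

end

end MP61673a.FE
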