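import Pool.Agent.Mu673.FEX
import Pool.Agent.Mu673.FE4

/-!
GENERAL ZONE TOOLS (helper56): a function of the integer label that is piecewise (zones with arbitrary
real cut points) a piecewise linear function of the node coordinate goes into one node table; the same
for the sums of two positions (midpoints). Nine zones of the labels with the cuts
`-D | -ρ | 0 | D | D + ρ | 2 D`, prices counted only on the outer labels.
-/

set_option autoImplicit false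

namespace MP61673a.FE

open Finset MP61673a.Kink MP61673a.Bary MP61673a.Sos MP61673a.Fin

noncomputable section

/-! ### Comparison of piecewise linear functions on an interval -/

lemma pl_le_Icc {f g : ℤ → ℝ} {α β : ℝ} (hn : ∀ m : ℤ, α ≤ m → (m:ℝ) ≤ β → f m ≤ g m)
    (ha : pl f α ≤ pl g α) (hb : pl f β ≤ pl g β) {x : ℝ} (h1 : α ≤ x) (h2 : x ≤ β) :
    pl f x ≤ pl g x := by
  have k0 := Int.floor_le x
  have k1 := (Int.lt_floor_add_one x).le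
  have P : ∃ p : ℝ, (⌊x⌋:ℝ) ≤ p ∧ p ≤ x ∧ pl f p ≤ pl g p := by
    rcases le_total α (⌊x⌋:ℝ) with c | c
    · refine ⟨(⌊x⌋:ℝ), le_rfl, k0, ?_⟩
      rw [pl_int, pl_int]
      exact hn _ c (k0.trans h2)
    · exact ⟨α, c, h1, ha⟩
  have Q : ∃ q : ℝ, x ≤ q ∧ q ≤ (⌊x⌋:ℝ) + 1 ∧ pl f q ≤ pl g q := by
    rcases le_total ((⌊x⌋:ℝ) + 1) β with c | c
    · refine ⟨(⌊x⌋:ℝ) + 1, k1, le_rfl, ?_⟩
      have e : ((⌊x⌋:ℝ) + 1) = ((⌊x⌋ + 1 : ℤ) : ℝ) := by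
        push_cast
        rfl
      rw [e] at c ⊢
      rw [pl_int, pl_int]
      exact hn _ (by
        rw [← e]
        linarith) c
    · exact ⟨β, h2, c, hb⟩
  obtain ⟨p, p1, p2, p3⟩ := P
  obtain ⟨q, q1, q2, q3⟩ := Q
  exact pl_cell_between p1 p2 q1 q2 p3 q3

lemma pl_le_Iic {f g : ℤ → ℝ} {β : ℝ} (hn : ∀ m : ℤ, (m:ℝ) ≤ β → f m ≤ g m)
    (hb : pl f β ≤ pl g β) {x : ℝ} (h2 : x ≤ β) : pl f x ≤ pl g x := by
  have k0 := Int.floor_le x
  refine pl_le_Icc (α := ⌊x⌋) (fun m _ h => hn m h) ?_ hb k0 h2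
  rw [pl_int, pl_int]
  exact hn _ (k0.trans h2)

lemma pl_le_Ici {f g : ℤ → ℝ} {α : ℝ} (hn : ∀ m : ℤ, α ≤ m → f m ≤ g m)
    (ha : pl f α ≤ pl g α) {x : ℝ} (h1 : α ≤ x) : pl f x ≤ pl g x := by
  have k0 := (Int.lt_floor_add_one x).le
  have e : ((⌊x⌋:ℝ) + 1) = ((⌊x⌋ + 1 : ℤ) : ℝ) := by
    push_cast
    rfl
  rw [e] at k0
  refine pl_le_Icc (β := ((⌊x⌋ + 1 : ℤ) : ℝ)) (fun m h _ => hn m h) ha ?_ h1 k0
  rw [pl_int, pl_int]
  exact hn _ (h1.trans k0)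

lemma near_Icc_ex {a b v δ : ℝ} (hab : a ≤ b) (hδ : 0 ≤ δ) (h1 : a - δ ≤ v) (h2 : v ≤ b + δ) :
    ∃ x ∈ Set.Icc a b, |v - x| ≤ δ := by
  refine ⟨max a (min v b), ⟨le_max_left _ _, max_le hab (min_le_right _ _)⟩, ?_⟩
  rcases le_total v b with c | c
  · rcases le_total v a with d | d
    · rw [min_eq_left c, max_eq_left d, abs_of_nonpos (by linarith)]
      linarith
    · rw [min_eq_left c, max_eq_right d, sub_self, abs_zero]
      exact hδ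
  · rw [min_eq_right c, max_eq_right hab, abs_of_nonneg (by linarith)]
    linarith

lemma near_Iic_ex {b v δ : ℝ} (hδ : 0 ≤ δ) (h2 : v ≤ b + δ) : ∃ x ∈ Set.Iic b, |v - x| ≤ δ := by
  rcases le_total v b with c | c
  · exact ⟨v, c, by rw [sub_self, abs_zero]; exact hδ⟩
  · exact ⟨b, Set.mem_Iic.2 le_rfl, by rw [abs_of_nonneg (by linarith)]; linarith⟩

lemma near_Ici_ex {a v δ : ℝ} (hδ : 0 ≤ δ) (h1 : a - δ ≤ v) : ∃ x ∈ Set.Ici a, |v - x| ≤ δ := by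
  rcases le_total a v with c | c
  · exact ⟨v, c, by rw [sub_self, abs_zero]; exact hδ⟩
  · exact ⟨a, Set.mem_Ici.2 le_rfl, by rw [abs_of_nonpos (by linarith)]; linarith⟩

lemma pl_zero (x : ℝ) : pl (fun _ => (0:ℝ)) x = 0 := by
  unfold pl
  ring

/-! ### The general zone rules -/

variable {C : Type} {M : ℕ} {σ δ : ℝ} {D K ρ : ℤ} {kL kR : ℝ}

/-- node coordinate of the mean of two positions with the sum `S` -/
def yh (M : ℕ) (σ : ℝ) (D S : ℤ) : ℝ := (M:ℝ) * S / (2 * D) - σ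

lemma yh_add (M : ℕ) (σ : ℝ) {D : ℤ} (hD : 0 < D) (a b : ℤ) :
    yh M σ D (a + b) = (yc M σ D a + yc M σ D b) / 2 := by
  have hD' : (D:ℝ) ≠ 0 := by
    have : (0:ℝ) < D := by exact_mod_cast hD
    exact this.ne'
  unfold yh yc
  push_cast
  field_simp
  ring

namespace GrdD

variable (G : GrdD C M σ δ D K ρ kL kR)

/-- GENERAL ZONE RULE for the label of a pair -/
theorem zone_ruleI {ι : Type*} {I : ι → Set ℝ} {zl : ℤ → ι}
    (hI : ∀ l, ∃ x ∈ I (zl l), |yc M σ D l - x| ≤ 2 * δ) {lam : ι → ℤ → ℝ} {L W : ℤ → ℝ} {B : ℝ}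
    (hb : ∀ i m, |lam i m| ≤ B) (hL : ∀ m, |L m| ≤ B)
    (hz0 : ∀ i, ∀ x ∈ I i, pl (lam i) x ≤ pl L x) (hW : EndOK L W) {y z : P4} (hy : G.ok y)
    (hz : G.ok z) :
    pl (lam (zl (lab D y z))) (yc M σ D (lab D y z))
      ≤ nX G.lo G.hi (fun a b => W (2 * b.2 - a.2)) (G.pt y) (G.pt z) + 14 * B * δ := by
  have hd := G.near_lab hy hz
  have hB0 : 0 ≤ B := (abs_nonneg _).trans (hL 0)
  have hw := endX hW (G.regX hy) (G.regX hz)
  obtain ⟨x, hx, hx2⟩ := hI (lab D y z)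
  have h1 := hz0 _ x hx
  have l1 := abs_le.1 ((pl_lip (hb (zl (lab D y z))) (yc M σ D (lab D y z)) x).trans
    (mul_le_mul_of_nonneg_left hx2 (by linarith)))
  have h2 : |x - (2 * (G.pt z).2 - (G.pt y).2)| ≤ 5 * δ := by
    have := abs_sub_le x (yc M σ D (lab D y z)) (2 * (G.pt z).2 - (G.pt y).2)
    rw [abs_sub_comm x (yc M σ D (lab D y z))] at this
    linarith
  have l2 := abs_le.1 ((pl_lip hL x (2 * (G.pt z).2 - (G.pt y).2)).trans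
    (mul_le_mul_of_nonneg_left h2 (by linarith)))
  linarith [l1.2, l2.2]

/-- the general zone rule for a family -/
theorem zone_pairPI {ι : Type*} {I : ι → Set ℝ} {zl : ℤ → ι}
    (hI : ∀ l, ∃ x ∈ I (zl l), |yc M σ D l - x| ≤ 2 * δ)
    {lam : C × ℤ → C → C → ι → ℤ → ℝ} {L W : C × ℤ → C → C → ℤ → ℝ} {B : ℝ}
    (hb : ∀ ζ c d i m, |lam ζ c d i m| ≤ B) (hL : ∀ ζ c d m, |L ζ c d m| ≤ B)
    (hz0 : ∀ ζ, ζ.2 ∈ nd G.lo G.hi ζ.1 → ∀ c d i, ∀ x ∈ I i,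
      pl (lam ζ c d i) x ≤ pl (L ζ c d) x)
    (hW : ∀ ζ, ζ.2 ∈ nd G.lo G.hi ζ.1 → ∀ c d, EndOK (L ζ c d) (W ζ c d))
    {Ψ : C × ℤ → P4 → P4 → ℝ} {ε : ℝ}
    (hΨ : ∀ ζ, ζ.2 ∈ nd G.lo G.hi ζ.1 → ∀ y z, G.ok y → G.ok z →
      Ψ ζ y z ≤ pl (lam ζ (G.cl y) (G.cl z) (zl (lab D y z))) (yc M σ D (lab D y z)) + ε) :
    G.PairP Ψ (fun ζ a b => W ζ a.1 b.1 (2 * b.2 - a.2)) (14 * B * δ + ε) := by
  intro ζ hζ y z hy hz
  have a := hΨ ζ hζ y z hy hz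
  have b := G.zone_ruleI hI (hb ζ (G.cl y) (G.cl z)) (hL ζ (G.cl y) (G.cl z))
    (hz0 ζ hζ _ _) (hW ζ hζ (G.cl y) (G.cl z)) hy hz
  have e : nX G.lo G.hi (fun a b => W ζ a.1 b.1 (2 * b.2 - a.2)) (G.pt y) (G.pt z)
      = nX G.lo G.hi (fun a b => W ζ (G.cl y) (G.cl z) (2 * b.2 - a.2)) (G.pt y) (G.pt z) := rfl
  rw [e]
  linarith

/-- GENERAL ZONE RULE for the sum of two positions -/
theorem mid_ruleI {ι : Type*} {I : ι → Set ℝ} {zl : ℤ → ι}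
    (hI : ∀ S, ∃ x ∈ I (zl S), |yh M σ D S - x| ≤ 2 * δ) {lam : ι → ℤ → ℝ} {L W : ℤ → ℝ} {B : ℝ}
    (hb : ∀ i m, |lam i m| ≤ B) (hL : ∀ m, |L m| ≤ B)
    (hz0 : ∀ i, ∀ x ∈ I i, pl (lam i) x ≤ pl L x) (hW : MidOK L W) {y z : P4} (hy : G.ok y)
    (hz : G.ok z) :
    pl (lam (zl (lc D y.2 + lc D z.2))) (yh M σ D (lc D y.2 + lc D z.2))
      ≤ nX G.lo G.hi (fun a b => W (a.2 + b.2)) (G.pt y) (G.pt z) + 10 * B * δ := by
  have hB0 : 0 ≤ B := (abs_nonneg _).trans (hL 0)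
  have hw := midX hW (G.regX hy) (G.regX hz)
  have a := abs_le.1 (G.near y hy)
  have b := abs_le.1 (G.near z hz)
  have hd : |yh M σ D (lc D y.2 + lc D z.2) - ((G.pt y).2 + (G.pt z).2) / 2| ≤ δ := by
    rw [yh_add M σ G.hD0, abs_le]
    unfold Grd.pt
    constructor <;> linarith [a.1, a.2, b.1, b.2]
  obtain ⟨x, hx, hx2⟩ := hI (lc D y.2 + lc D z.2)
  have h1 := hz0 _ x hx
  have l1 := abs_le.1 ((pl_lip (hb (zl (lc D y.2 + lc D z.2)))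
    (yh M σ D (lc D y.2 + lc D z.2)) x).trans (mul_le_mul_of_nonneg_left hx2 (by linarith)))
  have h2 : |x - ((G.pt y).2 + (G.pt z).2) / 2| ≤ 3 * δ := by
    have := abs_sub_le x (yh M σ D (lc D y.2 + lc D z.2)) (((G.pt y).2 + (G.pt z).2) / 2)
    rw [abs_sub_comm x (yh M σ D (lc D y.2 + lc D z.2))] at this
    linarith
  have l2 := abs_le.1 ((pl_lip hL x (((G.pt y).2 + (G.pt z).2) / 2)).trans
    (mul_le_mul_of_nonneg_left h2 (by linarith)))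
  linarith [l1.2, l2.2]

/-- the general zone rule for midpoints, a family -/
theorem mid_pairPI {ι : Type*} {I : ι → Set ℝ} {zl : ℤ → ι}
    (hI : ∀ S, ∃ x ∈ I (zl S), |yh M σ D S - x| ≤ 2 * δ)
    {lam : C × ℤ → C → C → ι → ℤ → ℝ} {L W : C × ℤ → C → C → ℤ → ℝ} {B : ℝ}
    (hb : ∀ ζ c d i m, |lam ζ c d i m| ≤ B) (hL : ∀ ζ c d m, |L ζ c d m| ≤ B)
    (hz0 : ∀ ζ, ζ.2 ∈ nd G.lo G.hi ζ.1 → ∀ c d i, ∀ x ∈ I i,
      pl (lam ζ c d i) x ≤ pl (L ζ c d) x)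
    (hW : ∀ ζ, ζ.2 ∈ nd G.lo G.hi ζ.1 → ∀ c d, MidOK (L ζ c d) (W ζ c d))
    {Ψ : C × ℤ → P4 → P4 → ℝ} {ε : ℝ}
    (hΨ : ∀ ζ, ζ.2 ∈ nd G.lo G.hi ζ.1 → ∀ y z, G.ok y → G.ok z →
      Ψ ζ y z ≤ pl (lam ζ (G.cl y) (G.cl z) (zl (lc D y.2 + lc D z.2)))
        (yh M σ D (lc D y.2 + lc D z.2)) + ε) :
    G.PairP Ψ (fun ζ a b => W ζ a.1 b.1 (a.2 + b.2)) (10 * B * δ + ε) := by
  intro ζ hζ y z hy hz
  have a := hΨ ζ hζ y z hy hz
  have b := G.mid_ruleI hI (hb ζ (G.cl y) (G.cl z)) (hL ζ (G.cl y) (G.cl z))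
    (hz0 ζ hζ _ _) (hW ζ hζ (G.cl y) (G.cl z)) hy hz
  have e : nX G.lo G.hi (fun a b => W ζ a.1 b.1 (a.2 + b.2)) (G.pt y) (G.pt z)
      = nX G.lo G.hi (fun a b => W ζ (G.cl y) (G.cl z) (a.2 + b.2)) (G.pt y) (G.pt z) := rfl
  rw [e]
  linarith

end GrdD

/-! ### Nine zones -/

/-- the zones of the labels with the cuts `-D | -ρ | 0 | D | D + ρ | 2 D` (2 and 6: single labels) -/
def zn9 (D ρ l : ℤ) : Fin 9 :=
  if l < -D then 0 else if l ≤ -1 - ρ then 1 else if l ≤ -ρ then 2 else if l ≤ -1 then 3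
  else if l ≤ D then 4 else if l ≤ D + ρ - 1 then 5 else if l ≤ D + ρ then 6
  else if l ≤ 2 * D then 7 else 8

/-- the intervals of the zones -/
def I9 (M : ℕ) (σ kL kR : ℝ) (i : Fin 9) : Set ℝ :=
  ![Set.Iic (-M - σ), Set.Icc (-M - σ) kL, Set.Icc kL kL, Set.Icc kL (-σ), Set.Icc (-σ) (M - σ),
    Set.Icc (M - σ) kR, Set.Icc kR kR, Set.Icc kR (2 * M - σ), Set.Ici (2 * M - σ)] i

/-- `L` majorises the tables of the nine zones -/
def Zone9 (M : ℕ) (σ kL kR : ℝ) (lam : Fin 9 → ℤ → ℝ) (L : ℤ → ℝ) : Prop :=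
  ∀ i, ∀ x ∈ I9 M σ kL kR i, pl (lam i) x ≤ pl L x

lemma yc_D (M : ℕ) (σ : ℝ) {D : ℤ} (hD : 0 < D) (q : ℤ) : yc M σ D (q * D) = M * q - σ := by
  have hD' : (D:ℝ) ≠ 0 := by
    have : (0:ℝ) < D := by exact_mod_cast hD
    exact this.ne'
  unfold yc
  push_cast
  field_simp

/-- the zones are where they should be -/
theorem hI9 (G : GrdD C M σ δ D K ρ kL kR) (hδ : 0 ≤ δ) (hM : (M:ℝ) / D ≤ δ)
    (h1 : -M - σ ≤ kL) (h2 : kL ≤ -σ) (h3 : M - σ ≤ kR) (h4 : kR ≤ 2 * M - σ) (l : ℤ) :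
    ∃ x ∈ I9 M σ kL kR (zn9 D ρ l), |yc M σ D l - x| ≤ 2 * δ := by
  have hD := G.hD0
  have hM0 : (0:ℝ) ≤ M := Nat.cast_nonneg _
  have h2δ : 0 ≤ 2 * δ := by linarith
  have mono := fun {a b : ℤ} (h : a ≤ b) => yc_mono (M := M) (σ := σ) hD h
  have em1 : yc M σ D (-D) = -M - σ := by
    have := yc_D M σ hD (-1)
    rw [neg_one_mul] at this
    rw [this]
    push_cast
    ring
  have e0 : yc M σ D 0 = -σ := by
    have := yc_D M σ hD 0
    rw [zero_mul] at this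
    rw [this]
    push_cast
    ring
  have e1 : yc M σ D D = M - σ := by
    have := yc_D M σ hD 1
    rw [one_mul] at this
    rw [this]
    push_cast
    ring
  have e2 : yc M σ D (2 * D) = 2 * M - σ := by
    rw [yc_D M σ hD 2]
    push_cast
    ring
  have z0 := G.z0
  have z1 := G.z1
  have z1' := G.z1'
  have z2 := G.z2
  unfold zn9
  split_ifs with c0 c1 c2 c3 c4 c5 c6 c7
  · exact near_Iic_ex h2δ (by have := mono (show l ≤ -D by omega); linarith)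
  · exact near_Icc_ex h1 h2δ (by have := mono (show -D ≤ l by omega); linarith)
      (by have := mono c1; linarith)
  · have e : l = -ρ := by omega
    have s := yc_succ M σ hD (-1 - ρ)
    rw [show (-1 - ρ + 1 : ℤ) = -ρ by ring] at s
    rw [e]
    exact near_Icc_ex le_rfl h2δ (by linarith) (by linarith)
  · exact near_Icc_ex h2 h2δ (by have := mono (show -ρ ≤ l by omega); linarith)
      (by have := mono (show l ≤ 0 by omega); linarith)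
  · exact near_Icc_ex (by linarith) h2δ (by have := mono (show 0 ≤ l by omega); linarith)
      (by have := mono c4; linarith)
  · exact near_Icc_ex h3 h2δ (by have := mono (show D ≤ l by omega); linarith)
      (by have := mono (show l ≤ D + ρ by omega); linarith)
  · have e : l = D + ρ := by omega
    have s := yc_succ M σ hD (D + ρ)
    rw [e]
    exact near_Icc_ex le_rfl h2δ (by linarith) (by linarith)
  · exact near_Icc_ex h4 h2δ (by have := mono (show D + ρ + 1 ≤ l by omega); linarith)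
      (by have := mono c7; linarith)
  · exact near_Ici_ex h2δ (by have := mono (show 2 * D ≤ l by omega); linarith)

/-- finite check of the nine zones; `tl`, `tr` = tables of the single labels -/
lemma Zone9.of_checks {kL kR : ℝ} {lam : Fin 9 → ℤ → ℝ} {L : ℤ → ℝ}
    (n0 : ∀ m : ℤ, (m:ℝ) ≤ -M - σ → lam 0 m ≤ L m) (a0 : pl (lam 0) (-M - σ) ≤ pl L (-M - σ))
    (n1 : ∀ m : ℤ, -M - σ ≤ m → (m:ℝ) ≤ kL → lam 1 m ≤ L m)
    (a1 : pl (lam 1) (-M - σ) ≤ pl L (-M - σ)) (b1 : pl (lam 1) kL ≤ pl L kL)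
    (n2 : ∀ m : ℤ, kL ≤ m → (m:ℝ) ≤ kL → lam 2 m ≤ L m) (a2 : pl (lam 2) kL ≤ pl L kL)
    (n3 : ∀ m : ℤ, kL ≤ m → (m:ℝ) ≤ -σ → lam 3 m ≤ L m)
    (a3 : pl (lam 3) kL ≤ pl L kL) (b3 : pl (lam 3) (-σ) ≤ pl L (-σ))
    (n4 : ∀ m : ℤ, -σ ≤ m → (m:ℝ) ≤ M - σ → lam 4 m ≤ L m)
    (a4 : pl (lam 4) (-σ) ≤ pl L (-σ)) (b4 : pl (lam 4) (M - σ) ≤ pl L (M - σ))
    (n5 : ∀ m : ℤ, M - σ ≤ m → (m:ℝ) ≤ kR → lam 5 m ≤ L m)
    (a5 : pl (lam 5) (M - σ) ≤ pl L (M - σ)) (b5 : pl (lam 5) kR ≤ pl L kR)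
    (n6 : ∀ m : ℤ, kR ≤ m → (m:ℝ) ≤ kR → lam 6 m ≤ L m) (a6 : pl (lam 6) kR ≤ pl L kR)
    (n7 : ∀ m : ℤ, kR ≤ m → (m:ℝ) ≤ 2 * M - σ → lam 7 m ≤ L m)
    (a7 : pl (lam 7) kR ≤ pl L kR) (b7 : pl (lam 7) (2 * M - σ) ≤ pl L (2 * M - σ))
    (n8 : ∀ m : ℤ, 2 * M - σ ≤ m → lam 8 m ≤ L m)
    (a8 : pl (lam 8) (2 * M - σ) ≤ pl L (2 * M - σ)) : Zone9 M σ kL kR lam L := by
  intro i
  fin_cases i
  · exact fun x hx => pl_le_Iic n0 a0 hx
  · exact fun x hx => pl_le_Icc n1 a1 b1 hx.1 hx.2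
  · exact fun x hx => pl_le_Icc n2 a2 a2 hx.1 hx.2
  · exact fun x hx => pl_le_Icc n3 a3 b3 hx.1 hx.2
  · exact fun x hx => pl_le_Icc n4 a4 b4 hx.1 hx.2
  · exact fun x hx => pl_le_Icc n5 a5 b5 hx.1 hx.2
  · exact fun x hx => pl_le_Icc n6 a6 a6 hx.1 hx.2
  · exact fun x hx => pl_le_Icc n7 a7 b7 hx.1 hx.2
  · exact fun x hx => pl_le_Ici n8 a8 hx

/-! ### Prices on the outer labels only -/

/-- the priced labels -/
def outer (D l : ℤ) : Prop := (-D ≤ l ∧ l ≤ -1) ∨ (D + 1 ≤ l ∧ l ≤ 2 * D)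

instance (D l : ℤ) : Decidable (outer D l) := by
  unfold outer
  infer_instance

/-- table of the price in the nine zones -/
def g9 (g : Fin 3 → C × ℤ → Bool → ℤ → ℝ) (ζ : C × ℤ) (e : Bool) (i : Fin 9) (m : ℤ) : ℝ :=
  ![0, g 0 ζ e m, g 1 ζ e m, g 1 ζ e m, 0, g 1 ζ e m, g 1 ζ e m, g 2 ζ e m, 0] i

lemma g9_eq {D ρ : ℤ} (hρ : 1 ≤ ρ) (hρD : ρ < D) (g : Fin 3 → C × ℤ → Bool → ℤ → ℝ)
    (ζ : C × ℤ) (e : Bool) (l : ℤ) :
    pl (g9 g ζ e (zn9 D ρ l)) (yc M σ D l) = if outer D l then gz M σ D ρ g ζ e l else 0 := by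
  by_cases ho : outer D l
  · rw [if_pos ho]
    unfold outer at ho
    have e1 : g9 g ζ e (zn9 D ρ l) = g (zn D ρ l) ζ e := by
      unfold zn9 zn
      split_ifs <;> first | omega | rfl
    unfold gz
    rw [e1]
  · rw [if_neg ho]
    unfold outer at ho
    have e1 : g9 g ζ e (zn9 D ρ l) = fun _ => 0 := by
      unfold zn9
      split_ifs <;> first | omega | rfl
    rw [e1, pl_zero]

namespace GrdD

variable (G : GrdD C M σ δ D K ρ kL kR)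

/-- the end point labels of a pair, both sides, exactly -/
lemma gdep_outer (g : Fin 3 → C × ℤ → Bool → ℤ → ℝ) (x y z : P4) :
    gdep D (G.gR g x y.1) (rc D y.2 - 2 * rc D z.2)
      + gdep D (G.gL g x y.1) (lc D y.2 - 2 * lc D z.2)
      = kX G.lo G.hi (fun ζ => if outer D (lab D y z) then gz M σ D ρ g ζ y.1 (lab D y z)
        else 0) (G.pt x) := by
  have hD0 := G.hD0
  have e1 : rc D y.2 - 2 * rc D z.2 = lab D y z - D := by
    have a := rc_add_lc D y.2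
    have b := rc_add_lc D z.2
    unfold lab
    linarith
  have e2 : lc D y.2 - 2 * lc D z.2 = -lab D y z := by
    unfold lab
    ring
  have k0 : kX G.lo G.hi (fun _ => (0:ℝ)) (G.pt x) = 0 := by
    unfold kX
    simp
  rw [e1, e2]
  unfold gdep
  by_cases c1 : 1 ≤ lab D y z - D ∧ lab D y z - D ≤ D
  · have ho : outer D (lab D y z) := by
      unfold outer
      omega
    rw [if_pos c1, if_neg (by omega), add_zero]
    simp only [if_pos ho]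
    unfold gR
    rw [show 2 * D - (D - (lab D y z - D)) = lab D y z by ring]
  · rw [if_neg c1, zero_add]
    by_cases c2 : 1 ≤ -lab D y z ∧ -lab D y z ≤ D
    · have ho : outer D (lab D y z) := by
        unfold outer
        omega
      rw [if_pos c2]
      simp only [if_pos ho]
      unfold gL
      rw [show D - -lab D y z - D = lab D y z by ring]
    · have ho : ¬ outer D (lab D y z) := by
        unfold outer
        omega
      rw [if_neg c2]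
      simp only [if_neg ho]
      exact k0.symm

end GrdD

end

end MP61673a.FE
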