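import Pool.Agent.Mu673.FEin3
import Pool.Agent.Mu673.FEnetIn

/-!
THE KERNEL OF AN IN CELL, MIXED FORM (helper56). The terms `kKK`, `kKK'` of a point `x` of `P` are
counted with the weight `a1` resp. `a2` (function of the class of `x`) in the exchange form: constants
of the pairs `(P, Q)`, `(Q, P)` at the sampler `x`, windows as additional prices of `x`, gains at the
sampler of `Q` of the pair; with the remaining weight they are costs at the sampler of `Q`. `a1, a2` = the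
window flags: exchange form F1; `a1 = a2 = 0`: sampler form. Static windows have free weights `s1`, `s2`.
-/

set_option autoImplicit false

namespace MP61673a.FE

open Finset MP61673a.Kink MP61673a.Bary MP61673a.Sos MP61673a.Fin

noncomputable section

variable {C : Type} {M : ℕ} {σ δ : ℝ} {D K ρ : ℤ} {kL kR : ℝ}

/-! ### Moved terms -/

/-- first moved term of a point `x` of `P`, weight `α` -/
def U1 (K ρ w t0 t1 c1 : ℤ) (α : P4 → ℝ) (x y z : P4) : ℝ :=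
  α x * kKCc K ρ x.2.2 (-t1) (-t1) y.2 z.2 - (bW w c1 x.2 - α x) * kKK K ρ x.2.2 (-t1) y.2 z.2
    + bo (x.2.1 = false ∧ c1 ≤ x.2.2) * kKCc K ρ x.2.2 (-t0) (-t1) y.2 z.2

/-- second moved term of a point `x` of `P`, weight `α` -/
def U2 (K ρ w t0 t1 c2 : ℤ) (α : P4 → ℝ) (x y z : P4) : ℝ :=
  α x * kKCc' K ρ (-t1) (-t1) x.2.2 y.2 z.2 - (bW w c2 x.2 - α x) * kKK' K ρ (-t1) x.2.2 y.2 z.2
    + bo (x.2.1 = false ∧ c2 ≤ x.2.2) * kKCc' K ρ (-t0) (-t1) x.2.2 y.2 z.2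

/-- the moves -/
def movF (K ρ w t0 t1 c1 c2 : ℤ) (α β : P4 → ℝ) (x y z : P4) : ℝ :=
  U1 K ρ w t0 t1 c1 α x y z + U2 K ρ w t0 t1 c2 β x y z
    - U1 K ρ w t0 t1 c1 α z y x - U2 K ρ w t0 t1 c2 β z x y

lemma sym6_movF (K ρ w t0 t1 c1 c2 : ℤ) (α β : P4 → ℝ) (x y z : P4) :
    sym6 (movF K ρ w t0 t1 c1 c2 α β) x y z = 0 := by
  unfold sym6 movF
  ring

/-- the pairs of `kKK` and `kKCc` together -/
lemma kk_eq (t1 : ℤ) (x : P3) (y z : P4) :
    kKK K ρ x.2 (-t1) y.2 z.2 + kKCc K ρ x.2 (-t1) (-t1) y.2 z.2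
      = fPQ y z * bo (lab D y z ≤ 2 * D - xRw K ρ t1 x) := by
  unfold kKK kKCc fPQ
  by_cases c : y.2.1 = false ∧ z.2.1 = true
  · rw [lab_PQ c.1 c.2, bo_true c, one_mul]
    unfold xRw
    by_cases d : 1 + ρ ≤ y.2.2 - 2 * x.2 ∧ K - (K - ρ) ≤ z.2.2 - 2 * -t1
    · rw [bo_false (show ¬ ((y.2.1 = false ∧ z.2.1 = true) ∧ ¬ (1 + ρ ≤ y.2.2 - 2 * x.2
        ∧ K - (K - ρ) ≤ z.2.2 - 2 * -t1) ∧ 2 * K + 1 + ρ + 2 * (x.2 + 2 * -t1)
          ≤ y.2.2 + 2 * z.2.2) from fun k => k.2.1 d), add_zero]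
      unfold bo
      exact if_congr ⟨fun k => by have := k.2.2; omega, fun k => ⟨c, d, by omega⟩⟩ rfl rfl
    · rw [bo_false (show ¬ ((y.2.1 = false ∧ z.2.1 = true) ∧ (1 + ρ ≤ y.2.2 - 2 * x.2
        ∧ K - (K - ρ) ≤ z.2.2 - 2 * -t1) ∧ 2 * K + 1 + ρ + 2 * (x.2 + 2 * -t1)
          ≤ y.2.2 + 2 * z.2.2) from fun k => d k.2.1), zero_add]
      unfold bo
      exact if_congr ⟨fun k => by have := k.2.2; omega, fun k => ⟨c, d, by omega⟩⟩ rfl rfl
  · rw [bo_false (fun k => c k.1), bo_false (fun k => c k.1), bo_false c]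
    simp

/-- the pairs of `kKK'` and `kKCc'` together -/
lemma kk_eq' (t1 : ℤ) (x : P3) (y z : P4) :
    kKK' K ρ (-t1) x.2 y.2 z.2 + kKCc' K ρ (-t1) (-t1) x.2 y.2 z.2
      = fQP y z * bo (xLw K ρ t1 x - D ≤ lab D y z) := by
  unfold kKK' kKCc' fQP
  by_cases c : y.2.1 = true ∧ z.2.1 = false
  · rw [lab_QP c.1 c.2, bo_true c, one_mul]
    unfold xLw
    by_cases d : 1 + ρ ≤ y.2.2 - 2 * -t1 ∧ K - (K - ρ) ≤ z.2.2 - 2 * x.2
    · rw [bo_false (show ¬ ((y.2.1 = true ∧ z.2.1 = false) ∧ ¬ (1 + ρ ≤ y.2.2 - 2 * -t1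
        ∧ K - (K - ρ) ≤ z.2.2 - 2 * x.2) ∧ 2 * K + 1 + ρ + 2 * (-t1 + 2 * x.2)
          ≤ y.2.2 + 2 * z.2.2) from fun k => k.2.1 d), add_zero]
      unfold bo
      exact if_congr ⟨fun k => by have := k.2.2; omega, fun k => ⟨c, d, by omega⟩⟩ rfl rfl
    · rw [bo_false (show ¬ ((y.2.1 = true ∧ z.2.1 = false) ∧ (1 + ρ ≤ y.2.2 - 2 * -t1
        ∧ K - (K - ρ) ≤ z.2.2 - 2 * x.2) ∧ 2 * K + 1 + ρ + 2 * (-t1 + 2 * x.2)
          ≤ y.2.2 + 2 * z.2.2) from fun k => d k.2.1), zero_add]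
      unfold bo
      exact if_congr ⟨fun k => by have := k.2.2; omega, fun k => ⟨c, d, by omega⟩⟩ rfl rfl
  · rw [bo_false (fun k => c k.1), bo_false (fun k => c k.1), bo_false c]
    simp

/-- pairs of `P` at a sampler of `Q` -/
lemma kKK_q {t1 : ℤ} {x y z : P4} (hx : x.2.1 = true) (hy : y.2.1 = false)
    (hz : z.2.1 = false) :
    kKK K ρ z.2.2 (-t1) y.2 x.2 = bo (ρ ≤ x.2.2 + 2 * t1)
      * bo (lab D y z ≤ -1 - ρ ∧ 2 * lc D x.2 + lab D y z ≤ cA D K ρ t1) := by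
  unfold kKK cA
  rw [lab_PP hy hz, lc_Q hx]
  by_cases c : ρ ≤ x.2.2 + 2 * t1
  · rw [bo_true c, one_mul]
    unfold bo
    exact if_congr ⟨fun k => by
      have := k.2.1.1
      have := k.2.2
      omega, fun k => ⟨⟨hy, hx⟩, by omega, by omega⟩⟩ rfl rfl
  · rw [bo_false c, zero_mul]
    exact bo_false fun k => by
      have := k.2.1.2
      omega

lemma kKCc_q {t t1 : ℤ} {x y z : P4} (hx : x.2.1 = true) (hy : y.2.1 = false)
    (hz : z.2.1 = false) :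
    bo (-ρ ≤ lab D y z ∧ 2 * lc D x.2 + lab D y z ≤ cA D K ρ t)
      ≤ kKCc K ρ z.2.2 (-t) (-t1) y.2 x.2 := by
  unfold kKCc cA
  rw [lab_PP hy hz, lc_Q hx]
  exact bo_mono fun k => ⟨⟨hy, hx⟩, fun q => by have := q.1; omega, by omega⟩

lemma kKK'_q {t1 : ℤ} {x y z : P4} (hx : x.2.1 = true) (hy : y.2.1 = false)
    (hz : z.2.1 = false) :
    kKK' K ρ (-t1) z.2.2 x.2 y.2 = bo (1 + ρ ≤ x.2.2 + 2 * t1)
      * bo (lab D y z ≤ -ρ ∧ lc D x.2 + 2 * lab D y z ≤ cL D K ρ t1) := by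
  unfold kKK' cL
  rw [lab_PP hy hz, lc_Q hx]
  by_cases c : 1 + ρ ≤ x.2.2 + 2 * t1
  · rw [bo_true c, one_mul]
    unfold bo
    exact if_congr ⟨fun k => by
      have := k.2.1.2
      have := k.2.2
      omega, fun k => ⟨⟨hx, hy⟩, by omega, by omega⟩⟩ rfl rfl
  · rw [bo_false c, zero_mul]
    exact bo_false fun k => by
      have := k.2.1.1
      omega

lemma kKCc'_q {t t1 : ℤ} {x y z : P4} (hx : x.2.1 = true) (hy : y.2.1 = false)
    (hz : z.2.1 = false) :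
    bo (1 - ρ ≤ lab D y z ∧ lc D x.2 + 2 * lab D y z ≤ cL D K ρ t)
      ≤ kKCc' K ρ (-t) (-t1) z.2.2 x.2 y.2 := by
  unfold kKCc' cL
  rw [lab_PP hy hz, lc_Q hx]
  exact bo_mono fun k => ⟨⟨hx, hy⟩, fun q => by have := q.2; omega, by omega⟩

/-! ### Class data -/

/-- weight of a pair of `P`: function of the class of the doubled point -/
def ppw (sd : C → Bool) (g : C → ℝ) (c d : C) : ℝ :=
  if sd c = false ∧ sd d = false then g d else 0

/-- pairs of equal poles -/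
def fS (y z : P4) : ℝ := bo (y.2.1 = z.2.1)

/-- class data of the mixed form. Window flags of `P`: `w1, w2` below, `q1, q2` above, `o1, o2` below
(beyond the windows); weights `a1, a2` of the exchange form, `m1, m2` of the moving windows, `e1, e2`
pairs beyond `2 D`, below `-D`; costs of `Q` as in `FlgNetIn`; gains `h1, h0` (form `2 x + l`), `h2, h3`
(form `x + 2 l`), `vO`, `vA` (own) -/
structure FlgF (G : GrdD C M σ δ D K ρ kL kR) (E w t0 t1 c1 c2 : ℤ) (sd : C → Bool)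
    (w1 w2 q1 q2 o1 o2 a1 a2 m1 m2 e1 e2 : C → ℝ)
    (cF2 vF2 cM0 vM0 cM1 vM1 cK1 vK1 cK2 vK2 h1 h0 h2 h3 vO vA : C → ℝ) : Prop where
  hsd : ∀ x, G.ok x → sd (G.cl x) = x.2.1
  hw1 : ∀ x, G.ok x → x.2.1 = false → w1 (G.cl x) ≤ bo (w ≤ x.2.2 ∧ x.2.2 < c1)
  hw2 : ∀ x, G.ok x → x.2.1 = false → w2 (G.cl x) ≤ bo (w ≤ x.2.2 ∧ x.2.2 < c2)
  hq1 : ∀ x, G.ok x → x.2.1 = false → bo (w ≤ x.2.2 ∧ x.2.2 < c1) ≤ q1 (G.cl x)
  hq2 : ∀ x, G.ok x → x.2.1 = false → bo (w ≤ x.2.2 ∧ x.2.2 < c2) ≤ q2 (G.cl x)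
  ho1 : ∀ x, G.ok x → x.2.1 = false → o1 (G.cl x) ≤ bo (c1 ≤ x.2.2)
  ho2 : ∀ x, G.ok x → x.2.1 = false → o2 (G.cl x) ≤ bo (c2 ≤ x.2.2)
  ha1 : ∀ c, 0 ≤ m1 c ∧ m1 c ≤ a1 c ∧ a1 c ≤ w1 c
  ha2 : ∀ c, 0 ≤ m2 c ∧ m2 c ≤ a2 c ∧ a2 c ≤ w2 c
  hxR : ∀ x, G.ok x → x.2.1 = false → m1 (G.cl x) ≠ 0 → 0 ≤ xRw K ρ t1 x.2
  hxL : ∀ x, G.ok x → x.2.1 = false → m2 (G.cl x) ≠ 0 → 0 ≤ xLw K ρ t1 x.2
  he1 : ∀ x, G.ok x → x.2.1 = false → a1 (G.cl x) * bo (xRw K ρ t1 x.2 < 0) ≤ e1 (G.cl x)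
  he2 : ∀ x, G.ok x → x.2.1 = false → a2 (G.cl x) * bo (xLw K ρ t1 x.2 < 0) ≤ e2 (G.cl x)
  hF2 : ∀ x, G.ok x → x.2.1 = true →
    bo ((1 ≤ 2 * x.2.2 + t1 - (4 * K + 1) ∧ 2 * x.2.2 + t0 - (4 * K + 1) ≤ 4 * K + 1)
      ∧ ρ ≤ 2 * x.2.2 + t1 - (4 * K + 1)) ≤ cF2 (G.cl x) + vF2 (G.cl x)
  hMQ0 : ∀ x, G.ok x → x.2.1 = true →
    1 / 2 * omc t1 x.2.2 * bo (0 < (t1 - x.2.2 + 0) / 2 ∧ ρ ≤ (t1 - x.2.2 + 0) / 2)
      ≤ cM0 (G.cl x) + vM0 (G.cl x)
  hMQ1 : ∀ x, G.ok x → x.2.1 = true →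
    1 / 2 * omc t1 x.2.2 * bo (0 < (t1 - x.2.2 + E) / 2 ∧ ρ ≤ (t1 - x.2.2 + E) / 2)
      ≤ cM1 (G.cl x) + vM1 (G.cl x)
  hK1 : ∀ x, G.ok x → x.2.1 = true → bo (ρ ≤ x.2.2 + 2 * t1) ≤ cK1 (G.cl x) + vK1 (G.cl x)
  hK2 : ∀ x, G.ok x → x.2.1 = true →
    bo (1 + ρ ≤ x.2.2 + 2 * t1) ≤ cK2 (G.cl x) + vK2 (G.cl x)
  hH : ∀ c, h1 c ≤ 1 ∧ h0 c ≤ 1 ∧ h2 c ≤ 1 ∧ h3 c ≤ 1
  hO : ∀ x, G.ok x → x.2.1 = true → vO (G.cl x) ≤ bo (1 + ρ ≤ x.2.2 + 2 * t0)
  hA : ∀ x, G.ok x → x.2.1 = true →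
    vA (G.cl x) ≤ bo (1 ≤ x.2.2 + 2 * t0 ∧ x.2.2 + 2 * t1 ≤ 4 * K + 1)
  nonneg : ∀ c, 0 ≤ e1 c ∧ 0 ≤ e2 c ∧ 0 ≤ cF2 c ∧ 0 ≤ vF2 c ∧ 0 ≤ cM0 c ∧ 0 ≤ vM0 c ∧ 0 ≤ cM1 c
    ∧ 0 ≤ vM1 c ∧ 0 ≤ cK1 c ∧ 0 ≤ vK1 c ∧ 0 ≤ cK2 c ∧ 0 ≤ vK2 c
  nonnegH : ∀ c, 0 ≤ h1 c ∧ 0 ≤ h0 c ∧ 0 ≤ h2 c ∧ 0 ≤ h3 c ∧ 0 ≤ o1 c ∧ 0 ≤ o2 c
  zP : ∀ c, sd c = false → cF2 c = 0 ∧ vF2 c = 0 ∧ cM0 c = 0 ∧ vM0 c = 0 ∧ cM1 c = 0 ∧ vM1 c = 0
    ∧ cK1 c = 0 ∧ vK1 c = 0 ∧ cK2 c = 0 ∧ vK2 c = 0 ∧ h1 c = 0 ∧ h0 c = 0 ∧ h2 c = 0 ∧ h3 c = 0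
    ∧ vO c = 0 ∧ vA c = 0
  zQ : ∀ c, sd c = true → w1 c = 0 ∧ w2 c = 0

/-- additional prices of the right labels -/
def wR (G : GrdD C M σ δ D K ρ kL kR) (t1 : ℤ) (m1 s2 : C → ℝ) (x : P4) (s : ℤ) : ℝ :=
  m1 (G.cl x) * bo (0 ≤ s ∧ s < xRw K ρ t1 x.2) + s2 (G.cl x) * bo (0 ≤ s ∧ s < D - ρ)

/-- additional prices of the left labels -/
def wL (G : GrdD C M σ δ D K ρ kL kR) (t1 : ℤ) (m2 s1 : C → ℝ) (x : P4) (s : ℤ) : ℝ :=
  s1 (G.cl x) * bo (0 ≤ s ∧ s < D - ρ) + m2 (G.cl x) * bo (0 ≤ s ∧ s < xLw K ρ t1 x.2)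

/-- the additional prices at a label -/
lemma wRL_gdep (G : GrdD C M σ δ D K ρ kL kR) {t1 : ℤ} {m1 m2 s1 s2 : C → ℝ} {x : P4}
    (hρ : 0 ≤ ρ) (hρD : ρ < D) (h1 : 0 ≤ m1 (G.cl x)) (h2 : 0 ≤ m2 (G.cl x)) (l : ℤ) :
    gdep D (wR G t1 m1 s2 x) (l - D) + gdep D (wL G t1 m2 s1 x) (-l)
      ≤ m1 (G.cl x) * bo (D < l ∧ 2 * D - xRw K ρ t1 x.2 < l ∧ l ≤ 2 * D)
        + m2 (G.cl x) * bo (-D ≤ l ∧ l < 0 ∧ l < xLw K ρ t1 x.2 - D)
        + s1 (G.cl x) * bo (-D ≤ l ∧ l ≤ -1 - ρ) + s2 (G.cl x) * bo (D + ρ < l ∧ l ≤ 2 * D) := by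
  have b1 := mul_nonneg h1 (bo_nonneg (D < l ∧ 2 * D - xRw K ρ t1 x.2 < l ∧ l ≤ 2 * D))
  have b2 := mul_nonneg h2 (bo_nonneg (-D ≤ l ∧ l < 0 ∧ l < xLw K ρ t1 x.2 - D))
  unfold gdep wR wL
  by_cases d1 : 1 ≤ l - D ∧ l - D ≤ D
  · rw [if_pos d1, if_neg (show ¬ (1 ≤ -l ∧ -l ≤ D) by omega), add_zero,
      bo_false (show ¬ (-D ≤ l ∧ l ≤ -1 - ρ) by omega)]
    have e1 : bo (0 ≤ D - (l - D) ∧ D - (l - D) < xRw K ρ t1 x.2)
        = bo (D < l ∧ 2 * D - xRw K ρ t1 x.2 < l ∧ l ≤ 2 * D) := by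
      unfold bo
      exact if_congr (by constructor <;> intro h <;> omega) rfl rfl
    have e2 : bo (0 ≤ D - (l - D) ∧ D - (l - D) < D - ρ) = bo (D + ρ < l ∧ l ≤ 2 * D) := by
      unfold bo
      exact if_congr (by constructor <;> intro h <;> omega) rfl rfl
    rw [e1, e2]
    linarith
  · rw [if_neg d1, zero_add, bo_false (show ¬ (D + ρ < l ∧ l ≤ 2 * D) by omega)]
    by_cases d2 : 1 ≤ -l ∧ -l ≤ D
    · rw [if_pos d2]
      have e1 : bo (0 ≤ D - -l ∧ D - -l < xLw K ρ t1 x.2)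
          = bo (-D ≤ l ∧ l < 0 ∧ l < xLw K ρ t1 x.2 - D) := by
        unfold bo
        exact if_congr (by constructor <;> intro h <;> omega) rfl rfl
      have e2 : bo (0 ≤ D - -l ∧ D - -l < D - ρ) = bo (-D ≤ l ∧ l ≤ -1 - ρ) := by
        unfold bo
        exact if_congr (by constructor <;> intro h <;> omega) rfl rfl
      rw [e1, e2]
      linarith
    · rw [if_neg d2, bo_false (show ¬ (-D ≤ l ∧ l ≤ -1 - ρ) by omega)]
      linarith

/-- the constants of the mixed form -/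
def cstF (D ρ V : ℤ) (a b s1 s2 a1 a2 e1 e2 m1 m2 k1 k2 : ℝ) (y z : P4) : ℝ :=
  a * kNP V (1 + ρ) y.2 z.2 + b * kNQ V (1 + ρ) y.2 z.2
    + s1 * bo (-D ≤ lab D y z ∧ lab D y z ≤ -1 - ρ)
    + s2 * bo (D + ρ < lab D y z ∧ lab D y z ≤ 2 * D)
    + a1 * (fPQ y z * bo (lab D y z ≤ 2 * D)) + a2 * (fQP y z * bo (-D ≤ lab D y z))
    + e1 * (fPQ y z * bo (2 * D < lab D y z)) + e2 * (fQP y z * bo (lab D y z < -D))
    - m1 * (fS y z * bo (2 * D < lab D y z)) - m2 * (fS y z * bo (lab D y z < -D))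
    + k1 * bo (lab D y z ≤ -1 - ρ) + k2 * bo (lab D y z ≤ -ρ)

/-- the families of a sampler of `P` -/
def famF_P (D K ρ t1 : ℤ) (m1 m2 : ℝ) (x y z : P4) : ℝ :=
  m1 * (fS y z * bo (cA D K ρ t1 + 1 ≤ 2 * lc D x.2 + lab D y z))
    + m2 * (fS y z * bo (-4 * lc D x.2 + lab D y z ≤ cB D K ρ t1 - 1))

/-- the families of a sampler of `Q`, costs -/
def famF_C (D K ρ V E t1 : ℤ) (vF2 vM0 vM1 vK1 vK2 : ℝ) (x y z : P4) : ℝ :=
  vF2 * (fQQ V y z * bo (cB D K ρ t1 ≤ -4 * lc D x.2 + lab D y z))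
    + vM0 * (fPP V y z * bo (-1 * lc D x.2 + lab D y z ≤ cC D K ρ t1))
    + vM1 * (fPP V y z * bo (-1 * lc D x.2 + lab D y z ≤ cC D K ρ (t1 + E)))
    + vK1 * bo (lab D y z ≤ -1 - ρ ∧ 2 * lc D x.2 + lab D y z ≤ cA D K ρ t1)
    + vK2 * bo (lab D y z ≤ -ρ ∧ lc D x.2 + 2 * lab D y z ≤ cL D K ρ t1)

/-- the families of a sampler of `Q`, gains -/
def famF_G (D K ρ t0 t1 : ℤ) (h1 h0 h2 h3 vO vA : ℝ) (x y z : P4) : ℝ :=
  h1 * bo (-ρ ≤ lab D y z ∧ 2 * lc D x.2 + lab D y z ≤ cA D K ρ t1)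
    + h0 * bo (-ρ ≤ lab D y z ∧ 2 * lc D x.2 + lab D y z ≤ cA D K ρ t0)
    + h2 * bo (1 - ρ ≤ lab D y z ∧ lc D x.2 + 2 * lab D y z ≤ cL D K ρ t1)
    + h3 * bo (1 - ρ ≤ lab D y z ∧ lc D x.2 + 2 * lab D y z ≤ cL D K ρ t0)
    + vO * (fQP y z * bo (lab D y z ≤ -1 - ρ ∧ cO D K ρ t1 ≤ lc D x.2 + 2 * lab D y z))
    + vA * (fPQ y z * bo (2 * lc D x.2 + lab D y z ≤ cA D K ρ t0))

/-! ### The inequality -/

/-- labels of the first moving window -/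
lemma mov_R {a m e : ℝ} {xr l : ℤ} (hm0 : 0 ≤ m) (hma : m ≤ a) (hx : m ≠ 0 → 0 ≤ xr)
    (he : a * bo (xr < 0) ≤ e) (he0 : 0 ≤ e) {y z : P4}
    (hQP : y.2.1 = true → z.2.1 = false → l ≤ D) :
    a * (fPQ y z * bo (l ≤ 2 * D - xr)) + m * bo (D < l ∧ 2 * D - xr < l ∧ l ≤ 2 * D)
      ≤ a * (fPQ y z * bo (l ≤ 2 * D)) + e * (fPQ y z * bo (2 * D < l))
        - m * (fS y z * bo (2 * D < l)) + m * (fS y z * bo (2 * D - xr < l)) := by
  have ha : 0 ≤ a := hm0.trans hma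
  by_cases hm : m = 0
  · rw [hm]
    simp only [zero_mul, add_zero, sub_zero]
    by_cases c : y.2.1 = false ∧ z.2.1 = true
    · have f1 : fPQ y z = 1 := bo_true c
      rw [f1]
      simp only [one_mul]
      by_cases d : l ≤ 2 * D
      · rw [bo_true d, bo_false (show ¬ 2 * D < l by omega)]
        have := mul_le_mul_of_nonneg_left (bo_le_one (l ≤ 2 * D - xr)) ha
        linarith
      · rw [bo_false d, bo_true (show 2 * D < l by omega)]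
        by_cases d2 : l ≤ 2 * D - xr
        · rw [bo_true d2]
          rw [bo_true (show xr < 0 by omega)] at he
          linarith
        · rw [bo_false d2]
          linarith
    · have f1 : fPQ y z = 0 := bo_false c
      rw [f1]
      simp
  · have hxr := hx hm
    rcases hy : y.2.1 with _ | _ <;> rcases hz : z.2.1 with _ | _
    · have f1 : fPQ y z = 0 := bo_false (fun k => by rw [hz] at k; exact absurd k.2 (by simp))
      have f2 : fS y z = 1 := bo_true (by rw [hy, hz])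
      rw [f1, f2]
      simp only [zero_mul, mul_zero, one_mul, zero_add]
      by_cases d : 2 * D < l
      · rw [bo_true d, bo_true (show 2 * D - xr < l by omega),
          bo_false (show ¬ (D < l ∧ 2 * D - xr < l ∧ l ≤ 2 * D) by omega)]
        linarith
      · rw [bo_false d]
        have := bo_mono (p := D < l ∧ 2 * D - xr < l ∧ l ≤ 2 * D) (q := 2 * D - xr < l)
          (fun h => h.2.1)
        have := mul_le_mul_of_nonneg_left this hm0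
        linarith
    · have f1 : fPQ y z = 1 := bo_true ⟨hy, hz⟩
      have f2 : fS y z = 0 := bo_false (by rw [hy, hz]; simp)
      rw [f1, f2]
      simp only [zero_mul, mul_zero, one_mul, sub_zero, add_zero]
      by_cases d : l ≤ 2 * D - xr
      · rw [bo_true d, bo_true (show l ≤ 2 * D by omega),
          bo_false (show ¬ (D < l ∧ 2 * D - xr < l ∧ l ≤ 2 * D) by omega)]
        have := mul_nonneg he0 (bo_nonneg (2 * D < l))
        linarith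
      · rw [bo_false d]
        by_cases d2 : l ≤ 2 * D
        · rw [bo_true d2]
          have := mul_le_mul_of_nonneg_left
            (bo_le_one (D < l ∧ 2 * D - xr < l ∧ l ≤ 2 * D)) hm0
          have := mul_nonneg he0 (bo_nonneg (2 * D < l))
          linarith
        · rw [bo_false d2, bo_false (show ¬ (D < l ∧ 2 * D - xr < l ∧ l ≤ 2 * D) by omega)]
          have := mul_nonneg he0 (bo_nonneg (2 * D < l))
          linarith
    · have f1 : fPQ y z = 0 := bo_false (fun k => by rw [hy] at k; exact absurd k.1 (by simp))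
      have f2 : fS y z = 0 := bo_false (by rw [hy, hz]; simp)
      have := hQP hy hz
      rw [f1, f2, bo_false (show ¬ (D < l ∧ 2 * D - xr < l ∧ l ≤ 2 * D) by omega)]
      simp
    · have f1 : fPQ y z = 0 := bo_false (fun k => by rw [hy] at k; exact absurd k.1 (by simp))
      have f2 : fS y z = 1 := bo_true (by rw [hy, hz])
      rw [f1, f2]
      simp only [zero_mul, mul_zero, one_mul, zero_add]
      by_cases d : 2 * D < l
      · rw [bo_true d, bo_true (show 2 * D - xr < l by omega),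
          bo_false (show ¬ (D < l ∧ 2 * D - xr < l ∧ l ≤ 2 * D) by omega)]
        linarith
      · rw [bo_false d]
        have := bo_mono (p := D < l ∧ 2 * D - xr < l ∧ l ≤ 2 * D) (q := 2 * D - xr < l)
          (fun h => h.2.1)
        have := mul_le_mul_of_nonneg_left this hm0
        linarith

/-- labels of the second moving window -/
lemma mov_L {a m e : ℝ} {xl l : ℤ} (hm0 : 0 ≤ m) (hma : m ≤ a) (hx : m ≠ 0 → 0 ≤ xl)
    (he : a * bo (xl < 0) ≤ e) (he0 : 0 ≤ e) {y z : P4}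
    (hPQ : y.2.1 = false → z.2.1 = true → 0 ≤ l) :
    a * (fQP y z * bo (xl - D ≤ l)) + m * bo (-D ≤ l ∧ l < 0 ∧ l < xl - D)
      ≤ a * (fQP y z * bo (-D ≤ l)) + e * (fQP y z * bo (l < -D))
        - m * (fS y z * bo (l < -D)) + m * (fS y z * bo (l < xl - D)) := by
  have ha : 0 ≤ a := hm0.trans hma
  by_cases hm : m = 0
  · rw [hm]
    simp only [zero_mul, add_zero, sub_zero]
    by_cases c : y.2.1 = true ∧ z.2.1 = false
    · have f1 : fQP y z = 1 := bo_true c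
      rw [f1]
      simp only [one_mul]
      by_cases d : -D ≤ l
      · rw [bo_true d, bo_false (show ¬ l < -D by omega)]
        have := mul_le_mul_of_nonneg_left (bo_le_one (xl - D ≤ l)) ha
        linarith
      · rw [bo_false d, bo_true (show l < -D by omega)]
        by_cases d2 : xl - D ≤ l
        · rw [bo_true d2]
          rw [bo_true (show xl < 0 by omega)] at he
          linarith
        · rw [bo_false d2]
          linarith
    · have f1 : fQP y z = 0 := bo_false c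
      rw [f1]
      simp
  · have hxl := hx hm
    rcases hy : y.2.1 with _ | _ <;> rcases hz : z.2.1 with _ | _
    · have f1 : fQP y z = 0 := bo_false (fun k => by rw [hy] at k; exact absurd k.1 (by simp))
      have f2 : fS y z = 1 := bo_true (by rw [hy, hz])
      rw [f1, f2]
      simp only [zero_mul, mul_zero, one_mul, zero_add]
      by_cases d : l < -D
      · rw [bo_true d, bo_true (show l < xl - D by omega),
          bo_false (show ¬ (-D ≤ l ∧ l < 0 ∧ l < xl - D) by omega)]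
        linarith
      · rw [bo_false d]
        have := bo_mono (p := -D ≤ l ∧ l < 0 ∧ l < xl - D) (q := l < xl - D)
          (fun h => h.2.2)
        have := mul_le_mul_of_nonneg_left this hm0
        linarith
    · have f1 : fQP y z = 0 := bo_false (fun k => by rw [hy] at k; exact absurd k.1 (by simp))
      have f2 : fS y z = 0 := bo_false (by rw [hy, hz]; simp)
      have := hPQ hy hz
      rw [f1, f2, bo_false (show ¬ (-D ≤ l ∧ l < 0 ∧ l < xl - D) by omega)]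
      simp
    · have f1 : fQP y z = 1 := bo_true ⟨hy, hz⟩
      have f2 : fS y z = 0 := bo_false (by rw [hy, hz]; simp)
      rw [f1, f2]
      simp only [zero_mul, mul_zero, one_mul, sub_zero, add_zero]
      by_cases d : xl - D ≤ l
      · rw [bo_true d, bo_true (show -D ≤ l by omega),
          bo_false (show ¬ (-D ≤ l ∧ l < 0 ∧ l < xl - D) by omega)]
        have := mul_nonneg he0 (bo_nonneg (l < -D))
        linarith
      · rw [bo_false d]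
        by_cases d2 : -D ≤ l
        · rw [bo_true d2]
          have := mul_le_mul_of_nonneg_left
            (bo_le_one (-D ≤ l ∧ l < 0 ∧ l < xl - D)) hm0
          have := mul_nonneg he0 (bo_nonneg (l < -D))
          linarith
        · rw [bo_false d2, bo_false (show ¬ (-D ≤ l ∧ l < 0 ∧ l < xl - D) by omega)]
          have := mul_nonneg he0 (bo_nonneg (l < -D))
          linarith
    · have f1 : fQP y z = 0 := bo_false (fun k => by rw [hz] at k; exact absurd k.2 (by simp))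
      have f2 : fS y z = 1 := bo_true (by rw [hy, hz])
      rw [f1, f2]
      simp only [zero_mul, mul_zero, one_mul, zero_add]
      by_cases d : l < -D
      · rw [bo_true d, bo_true (show l < xl - D by omega),
          bo_false (show ¬ (-D ≤ l ∧ l < 0 ∧ l < xl - D) by omega)]
        linarith
      · rw [bo_false d]
        have := bo_mono (p := -D ≤ l ∧ l < 0 ∧ l < xl - D) (q := l < xl - D)
          (fun h => h.2.2)
        have := mul_le_mul_of_nonneg_left this hm0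
        linarith

section main

variable {G : GrdD C M σ δ D K ρ kL kR} {V E w t0 t1 c1 c2 : ℤ} {sd : C → Bool}
  {w1 w2 q1 q2 o1 o2 a1 a2 m1 m2 e1 e2 : C → ℝ}
  {cF2 vF2 cM0 vM0 cM1 vM1 cK1 vK1 cK2 vK2 h1 h0 h2 h3 vO vA : C → ℝ} {s1 s2 : C → ℝ}

/-- A SAMPLER OF `P` -/
theorem nF_P (hD : D = 4 * K + 1) (hE : 0 ≤ E) (hmid : t1 + E ≤ 2 * K + 2) (hρ : 0 ≤ ρ)
    (hρD : ρ < D)
    (h : FlgF G E w t0 t1 c1 c2 sd w1 w2 q1 q2 o1 o2 a1 a2 m1 m2 e1 e2 cF2 vF2 cM0 vM0 cM1 vM1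
      cK1 vK1 cK2 vK2 h1 h0 h2 h3 vO vA)
    (x y z : P4) (hx : G.ok x) (hy : G.ok y) (hz : G.ok z) (hs : x.2.1 = false) :
    -(n3inw K ρ V E w t0 t1 c1 c2 x.2 y.2 z.2)
        + (gdep D (wR G t1 m1 s2 x) (lab D y z - D) + gdep D (wL G t1 m2 s1 x) (-lab D y z))
        + movF K ρ w t0 t1 c1 c2 (fun x => a1 (G.cl x)) (fun x => a2 (G.cl x)) x y z
      ≤ cstF D ρ V (-w1 (G.cl x)) (-w2 (G.cl x)) (s1 (G.cl x)) (s2 (G.cl x)) (a1 (G.cl x))
          (a2 (G.cl x)) (e1 (G.cl x)) (e2 (G.cl x)) (m1 (G.cl x)) (m2 (G.cl x)) 0 0 y z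
        + famF_P D K ρ t1 (m1 (G.cl x)) (m2 (G.cl x)) x y z := by
  obtain ⟨r1, r2, r3⟩ := h.ha1 (G.cl x)
  obtain ⟨l1, l2, l3⟩ := h.ha2 (G.cl x)
  obtain ⟨n1, n2, -⟩ := h.nonneg (G.cl x)
  have hy2 := ((G.okE y).1 hy).2
  have hz2 := ((G.okE z).1 hz).2
  have hx2 := ((G.okE x).1 hx).2
  have gd := wRL_gdep G (t1 := t1) (m1 := m1) (m2 := m2) (s1 := s1) (s2 := s2) (x := x) hρ hρD
    r1 l1 (lab D y z)
  have k1 := kk_eq (D := D) (K := K) (ρ := ρ) t1 x.2 y z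
  have k2 := kk_eq' (D := D) (K := K) (ρ := ρ) t1 x.2 y z
  have b1 : bW w c1 x.2 = bo (w ≤ x.2.2 ∧ x.2.2 < c1) := by
    unfold bW bo
    exact if_congr ⟨fun k => k.2, fun k => ⟨hs, k⟩⟩ rfl rfl
  have b2 : bW w c2 x.2 = bo (w ≤ x.2.2 ∧ x.2.2 < c2) := by
    unfold bW bo
    exact if_congr ⟨fun k => k.2, fun k => ⟨hs, k⟩⟩ rfl rfl
  have b3 : bo (x.2.1 = false ∧ c1 ≤ x.2.2) = bo (c1 ≤ x.2.2) := by
    unfold bo
    exact if_congr ⟨fun k => k.2, fun k => ⟨hs, k⟩⟩ rfl rfl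
  have b4 : bo (x.2.1 = false ∧ c2 ≤ x.2.2) = bo (c2 ≤ x.2.2) := by
    unfold bo
    exact if_congr ⟨fun k => k.2, fun k => ⟨hs, k⟩⟩ rfl rfl
  -- the moved terms of the other points vanish
  have z1 : U1 K ρ w t0 t1 c1 (fun x => a1 (G.cl x)) z y x = 0 := by
    have e1 : ∀ t, kKCc K ρ z.2.2 t (-t1) y.2 x.2 = 0 := fun t => by
      unfold kKCc
      exact bo_false (fun k => by have := k.1.2; rw [hs] at this; exact absurd this (by simp))
    have e2 : kKK K ρ z.2.2 (-t1) y.2 x.2 = 0 := by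
      unfold kKK
      exact bo_false (fun k => by have := k.1.2; rw [hs] at this; exact absurd this (by simp))
    unfold U1
    rw [e1, e1, e2]
    simp
  have z2 : U2 K ρ w t0 t1 c2 (fun x => a2 (G.cl x)) z x y = 0 := by
    have e1 : ∀ t, kKCc' K ρ t (-t1) z.2.2 x.2 y.2 = 0 := fun t => by
      unfold kKCc'
      exact bo_false (fun k => by have := k.1.1; rw [hs] at this; exact absurd this (by simp))
    have e2 : kKK' K ρ (-t1) z.2.2 x.2 y.2 = 0 := by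
      unfold kKK'
      exact bo_false (fun k => by have := k.1.1; rw [hs] at this; exact absurd this (by simp))
    unfold U2
    rw [e1, e1, e2]
    simp
  have kN := kNP_nonneg V (1 + ρ) y.2 z.2
  have kM := kNQ_nonneg V (1 + ρ) y.2 z.2
  have g1 := mul_le_mul_of_nonneg_right (h.hw1 x hx hs) kN
  have g2 := mul_le_mul_of_nonneg_right (h.hw2 x hx hs) kM
  -- labels
  have R := mov_R (D := D) (a := a1 (G.cl x)) (m := m1 (G.cl x)) (e := e1 (G.cl x))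
    (xr := xRw K ρ t1 x.2) (l := lab D y z) r1 r2 (h.hxR x hx hs) (h.he1 x hx hs) n1 (y := y)
    (z := z) (fun p q => by rw [lab_QP p q]; omega)
  have L := mov_L (D := D) (a := a2 (G.cl x)) (m := m2 (G.cl x)) (e := e2 (G.cl x))
    (xl := xLw K ρ t1 x.2) (l := lab D y z) l1 l2 (h.hxL x hx hs) (h.he2 x hx hs) n2 (y := y)
    (z := z) (fun p q => by rw [lab_PQ p q]; omega)
  have q1' : bo (cA D K ρ t1 + 1 ≤ 2 * lc D x.2 + lab D y z)
      = bo (2 * D - xRw K ρ t1 x.2 < lab D y z) := by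
    rw [lc_P hs]
    unfold cA xRw bo
    exact if_congr (by constructor <;> intro h <;> omega) rfl rfl
  have q2' : bo (-4 * lc D x.2 + lab D y z ≤ cB D K ρ t1 - 1)
      = bo (lab D y z < xLw K ρ t1 x.2 - D) := by
    rw [lc_P hs]
    unfold cB xLw bo
    exact if_congr (by constructor <;> intro h <;> omega) rfl rfl
  have e0 : -(n3inw K ρ V E w t0 t1 c1 c2 x.2 y.2 z.2)
      + movF K ρ w t0 t1 c1 c2 (fun x => a1 (G.cl x)) (fun x => a2 (G.cl x)) x y z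
      = -(bo (w ≤ x.2.2 ∧ x.2.2 < c1) * kNP V (1 + ρ) y.2 z.2)
        - bo (w ≤ x.2.2 ∧ x.2.2 < c2) * kNQ V (1 + ρ) y.2 z.2
        + a1 (G.cl x) * (fPQ y z * bo (lab D y z ≤ 2 * D - xRw K ρ t1 x.2))
        + a2 (G.cl x) * (fQP y z * bo (xLw K ρ t1 x.2 - D ≤ lab D y z)) := by
    rw [← k1, ← k2]
    unfold movF
    rw [z1, z2]
    unfold U1 U2 n3inw
    rw [if_pos hs, mP3_zero hE hx2 hmid, b1, b2, b3, b4]
    ring
  unfold cstF famF_P
  rw [q1', q2']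
  linarith

/-- moved cost and gains of the first kind at a sampler of `Q` -/
lemma U1_q
    (h : FlgF G E w t0 t1 c1 c2 sd w1 w2 q1 q2 o1 o2 a1 a2 m1 m2 e1 e2 cF2 vF2 cM0 vM0 cM1 vM1
      cK1 vK1 cK2 vK2 h1 h0 h2 h3 vO vA)
    {x y z : P4} (hx : G.ok x) (hy : G.ok y) (hz : G.ok z) (hs : x.2.1 = true) :
    -(U1 K ρ w t0 t1 c1 (fun x => a1 (G.cl x)) z y x)
      ≤ cK1 (G.cl x) * ppw sd (fun c => q1 c - a1 c) (G.cl y) (G.cl z)
            * bo (lab D y z ≤ -1 - ρ)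
        + vK1 (G.cl x) * ppw sd (fun c => q1 c - a1 c) (G.cl y) (G.cl z)
            * bo (lab D y z ≤ -1 - ρ ∧ 2 * lc D x.2 + lab D y z ≤ cA D K ρ t1)
        - h1 (G.cl x) * ppw sd a1 (G.cl y) (G.cl z)
            * bo (-ρ ≤ lab D y z ∧ 2 * lc D x.2 + lab D y z ≤ cA D K ρ t1)
        - h0 (G.cl x) * ppw sd o1 (G.cl y) (G.cl z)
            * bo (-ρ ≤ lab D y z ∧ 2 * lc D x.2 + lab D y z ≤ cA D K ρ t0) := by
  obtain ⟨-, -, -, -, -, -, -, -, n1, n2, -, -⟩ := h.nonneg (G.cl x)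
  obtain ⟨g1, g2, -, -, -, -⟩ := h.nonnegH (G.cl x)
  obtain ⟨-, -, -, -, g5, -⟩ := h.nonnegH (G.cl z)
  obtain ⟨u1, u2, -, -⟩ := h.hH (G.cl x)
  obtain ⟨r1, r2, r3⟩ := h.ha1 (G.cl z)
  have sy := h.hsd y hy
  have sz := h.hsd z hz
  by_cases c : y.2.1 = false ∧ z.2.1 = false
  · have p : ∀ g : C → ℝ, ppw sd g (G.cl y) (G.cl z) = g (G.cl z) := fun g => by
      unfold ppw
      rw [if_pos ⟨by rw [sy, c.1], by rw [sz, c.2]⟩]
    rw [p, p, p]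
    have e1 := kKK_q (D := D) (K := K) (ρ := ρ) (t1 := t1) hs c.1 c.2
    have e2 := kKCc_q (D := D) (K := K) (ρ := ρ) (t := t1) (t1 := t1) hs c.1 c.2
    have e3 := kKCc_q (D := D) (K := K) (ρ := ρ) (t := t0) (t1 := t1) hs c.1 c.2
    have b1 : bW w c1 z.2 = bo (w ≤ z.2.2 ∧ z.2.2 < c1) := by
      unfold bW bo
      exact if_congr ⟨fun k => k.2, fun k => ⟨c.2, k⟩⟩ rfl rfl
    have b3 : bo (z.2.1 = false ∧ c1 ≤ z.2.2) = bo (c1 ≤ z.2.2) := by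
      unfold bo
      exact if_congr ⟨fun k => k.2, fun k => ⟨c.2, k⟩⟩ rfl rfl
    unfold U1
    rw [b1, b3, e1]
    set X1 := bo (lab D y z ≤ -1 - ρ ∧ 2 * lc D x.2 + lab D y z ≤ cA D K ρ t1) with hX1
    set X0 := bo (lab D y z ≤ -1 - ρ) with hX0
    set Y1 := bo (-ρ ≤ lab D y z ∧ 2 * lc D x.2 + lab D y z ≤ cA D K ρ t1) with hY1
    set Y0 := bo (-ρ ≤ lab D y z ∧ 2 * lc D x.2 + lab D y z ≤ cA D K ρ t0) with hY0
    have x1 : 0 ≤ X1 := bo_nonneg _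
    have x01 : X1 ≤ X0 := bo_mono fun k => k.1
    have y1 : 0 ≤ Y1 := bo_nonneg _
    have y0 : 0 ≤ Y0 := bo_nonneg _
    have w1' := h.hw1 z hz c.2
    have q1' := h.hq1 z hz c.2
    have o1' := h.ho1 z hz c.2
    have kk := h.hK1 x hx hs
    set W := bo (w ≤ z.2.2 ∧ z.2.2 < c1) with hW
    set R := bo (ρ ≤ x.2.2 + 2 * t1) with hR
    have R0 : 0 ≤ R := bo_nonneg _
    -- cost
    have C1 : (W - a1 (G.cl z)) * (R * X1)
        ≤ (q1 (G.cl z) - a1 (G.cl z)) * (cK1 (G.cl x) * X0 + vK1 (G.cl x) * X1) := by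
      have s1 : R * X1 ≤ cK1 (G.cl x) * X0 + vK1 (G.cl x) * X1 := by
        have t1 := mul_le_mul_of_nonneg_right kk x1
        have t2 := mul_le_mul_of_nonneg_left x01 n1
        linarith
      exact mul_le_mul (by linarith) s1 (mul_nonneg R0 x1) (by linarith)
    -- gains
    have C2 : h1 (G.cl x) * a1 (G.cl z) * Y1
        ≤ a1 (G.cl z) * kKCc K ρ z.2.2 (-t1) (-t1) y.2 x.2 := by
      have g3 : 0 ≤ a1 (G.cl z) := by linarith
      have s1 := mul_le_mul_of_nonneg_left e2 g3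
      have s2 := mul_le_mul_of_nonneg_right u1 (mul_nonneg g3 y1)
      linarith
    have C3 : h0 (G.cl x) * o1 (G.cl z) * Y0
        ≤ bo (c1 ≤ z.2.2) * kKCc K ρ z.2.2 (-t0) (-t1) y.2 x.2 := by
      have s1 : o1 (G.cl z) * Y0 ≤ bo (c1 ≤ z.2.2) * kKCc K ρ z.2.2 (-t0) (-t1) y.2 x.2 :=
        mul_le_mul o1' e3 y0 (bo_nonneg _)
      have s2 := mul_le_mul_of_nonneg_right u2 (mul_nonneg g5 y0)
      linarith
    beta_reduce
    linarith
  · have p : ∀ g : C → ℝ, ppw sd g (G.cl y) (G.cl z) = 0 := fun g => by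
      unfold ppw
      rw [if_neg (fun k => c ⟨by rw [← sy]; exact k.1, by rw [← sz]; exact k.2⟩)]
    rw [p, p, p]
    simp only [mul_zero, zero_mul, add_zero, sub_zero]
    rcases hz1 : z.2.1 with _ | _
    · have hy1 : y.2.1 ≠ false := fun k => c ⟨k, hz1⟩
      have e1 : ∀ t, kKCc K ρ z.2.2 t (-t1) y.2 x.2 = 0 := fun t => by
        unfold kKCc
        exact bo_false (fun k => hy1 k.1.1)
      have e2 : kKK K ρ z.2.2 (-t1) y.2 x.2 = 0 := by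
        unfold kKK
        exact bo_false (fun k => hy1 k.1.1)
      unfold U1
      rw [e1, e1, e2]
      simp
    · have q := (h.zQ (G.cl z) (by rw [sz, hz1])).1
      have a0 : a1 (G.cl z) = 0 := by linarith
      have b1 : bW w c1 z.2 = 0 := by
        unfold bW
        exact bo_false (fun k => by rw [hz1] at k; exact absurd k.1 (by simp))
      have b2 : bo (z.2.1 = false ∧ c1 ≤ z.2.2) = 0 :=
        bo_false (fun k => by rw [hz1] at k; exact absurd k.1 (by simp))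
      unfold U1
      beta_reduce
      rw [a0, b1, b2]
      simp

/-- moved cost and gains of the second kind at a sampler of `Q` -/
lemma U2_q
    (h : FlgF G E w t0 t1 c1 c2 sd w1 w2 q1 q2 o1 o2 a1 a2 m1 m2 e1 e2 cF2 vF2 cM0 vM0 cM1 vM1
      cK1 vK1 cK2 vK2 h1 h0 h2 h3 vO vA)
    {x y z : P4} (hx : G.ok x) (hy : G.ok y) (hz : G.ok z) (hs : x.2.1 = true) :
    -(U2 K ρ w t0 t1 c2 (fun x => a2 (G.cl x)) z x y)
      ≤ cK2 (G.cl x) * ppw sd (fun c => q2 c - a2 c) (G.cl y) (G.cl z)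
            * bo (lab D y z ≤ -ρ)
        + vK2 (G.cl x) * ppw sd (fun c => q2 c - a2 c) (G.cl y) (G.cl z)
            * bo (lab D y z ≤ -ρ ∧ lc D x.2 + 2 * lab D y z ≤ cL D K ρ t1)
        - h2 (G.cl x) * ppw sd a2 (G.cl y) (G.cl z)
            * bo (1 - ρ ≤ lab D y z ∧ lc D x.2 + 2 * lab D y z ≤ cL D K ρ t1)
        - h3 (G.cl x) * ppw sd o2 (G.cl y) (G.cl z)
            * bo (1 - ρ ≤ lab D y z ∧ lc D x.2 + 2 * lab D y z ≤ cL D K ρ t0) := by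
  obtain ⟨-, -, -, -, -, -, -, -, -, -, n1, n2⟩ := h.nonneg (G.cl x)
  obtain ⟨-, -, g1, g2, -, -⟩ := h.nonnegH (G.cl x)
  obtain ⟨-, -, -, -, -, g5⟩ := h.nonnegH (G.cl z)
  obtain ⟨-, -, u1, u2⟩ := h.hH (G.cl x)
  obtain ⟨r1, r2, r3⟩ := h.ha2 (G.cl z)
  have sy := h.hsd y hy
  have sz := h.hsd z hz
  by_cases c : y.2.1 = false ∧ z.2.1 = false
  · have p : ∀ g : C → ℝ, ppw sd g (G.cl y) (G.cl z) = g (G.cl z) := fun g => by
      unfold ppw
      rw [if_pos ⟨by rw [sy, c.1], by rw [sz, c.2]⟩]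
    rw [p, p, p]
    have e1 := kKK'_q (D := D) (K := K) (ρ := ρ) (t1 := t1) hs c.1 c.2
    have e2 := kKCc'_q (D := D) (K := K) (ρ := ρ) (t := t1) (t1 := t1) hs c.1 c.2
    have e3 := kKCc'_q (D := D) (K := K) (ρ := ρ) (t := t0) (t1 := t1) hs c.1 c.2
    have b1 : bW w c2 z.2 = bo (w ≤ z.2.2 ∧ z.2.2 < c2) := by
      unfold bW bo
      exact if_congr ⟨fun k => k.2, fun k => ⟨c.2, k⟩⟩ rfl rfl
    have b3 : bo (z.2.1 = false ∧ c2 ≤ z.2.2) = bo (c2 ≤ z.2.2) := by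
      unfold bo
      exact if_congr ⟨fun k => k.2, fun k => ⟨c.2, k⟩⟩ rfl rfl
    unfold U2
    rw [b1, b3, e1]
    set X1 := bo (lab D y z ≤ -ρ ∧ lc D x.2 + 2 * lab D y z ≤ cL D K ρ t1) with hX1
    set X0 := bo (lab D y z ≤ -ρ) with hX0
    set Y1 := bo (1 - ρ ≤ lab D y z ∧ lc D x.2 + 2 * lab D y z ≤ cL D K ρ t1) with hY1
    set Y0 := bo (1 - ρ ≤ lab D y z ∧ lc D x.2 + 2 * lab D y z ≤ cL D K ρ t0) with hY0
    have x1 : 0 ≤ X1 := bo_nonneg _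
    have x01 : X1 ≤ X0 := bo_mono fun k => k.1
    have y1 : 0 ≤ Y1 := bo_nonneg _
    have y0 : 0 ≤ Y0 := bo_nonneg _
    have w1' := h.hw2 z hz c.2
    have q1' := h.hq2 z hz c.2
    have o1' := h.ho2 z hz c.2
    have kk := h.hK2 x hx hs
    set W := bo (w ≤ z.2.2 ∧ z.2.2 < c2) with hW
    set R := bo (1 + ρ ≤ x.2.2 + 2 * t1) with hR
    have R0 : 0 ≤ R := bo_nonneg _
    -- cost
    have C1 : (W - a2 (G.cl z)) * (R * X1)
        ≤ (q2 (G.cl z) - a2 (G.cl z)) * (cK2 (G.cl x) * X0 + vK2 (G.cl x) * X1) := by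
      have s1 : R * X1 ≤ cK2 (G.cl x) * X0 + vK2 (G.cl x) * X1 := by
        have t1 := mul_le_mul_of_nonneg_right kk x1
        have t2 := mul_le_mul_of_nonneg_left x01 n1
        linarith
      exact mul_le_mul (by linarith) s1 (mul_nonneg R0 x1) (by linarith)
    -- gains
    have C2 : h2 (G.cl x) * a2 (G.cl z) * Y1
        ≤ a2 (G.cl z) * kKCc' K ρ (-t1) (-t1) z.2.2 x.2 y.2 := by
      have g3 : 0 ≤ a2 (G.cl z) := by linarith
      have s1 := mul_le_mul_of_nonneg_left e2 g3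
      have s2 := mul_le_mul_of_nonneg_right u1 (mul_nonneg g3 y1)
      linarith
    have C3 : h3 (G.cl x) * o2 (G.cl z) * Y0
        ≤ bo (c2 ≤ z.2.2) * kKCc' K ρ (-t0) (-t1) z.2.2 x.2 y.2 := by
      have s1 : o2 (G.cl z) * Y0 ≤ bo (c2 ≤ z.2.2) * kKCc' K ρ (-t0) (-t1) z.2.2 x.2 y.2 :=
        mul_le_mul o1' e3 y0 (bo_nonneg _)
      have s2 := mul_le_mul_of_nonneg_right u2 (mul_nonneg g5 y0)
      linarith
    beta_reduce
    linarith
  · have p : ∀ g : C → ℝ, ppw sd g (G.cl y) (G.cl z) = 0 := fun g => by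
      unfold ppw
      rw [if_neg (fun k => c ⟨by rw [← sy]; exact k.1, by rw [← sz]; exact k.2⟩)]
    rw [p, p, p]
    simp only [mul_zero, zero_mul, add_zero, sub_zero]
    rcases hz1 : z.2.1 with _ | _
    · have hy1 : y.2.1 ≠ false := fun k => c ⟨k, hz1⟩
      have e1 : ∀ t, kKCc' K ρ t (-t1) z.2.2 x.2 y.2 = 0 := fun t => by
        unfold kKCc'
        exact bo_false (fun k => hy1 k.1.2)
      have e2 : kKK' K ρ (-t1) z.2.2 x.2 y.2 = 0 := by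
        unfold kKK'
        exact bo_false (fun k => hy1 k.1.2)
      unfold U2
      rw [e1, e1, e2]
      simp
    · have q := (h.zQ (G.cl z) (by rw [sz, hz1])).2
      have a0 : a2 (G.cl z) = 0 := by linarith
      have b1 : bW w c2 z.2 = 0 := by
        unfold bW
        exact bo_false (fun k => by rw [hz1] at k; exact absurd k.1 (by simp))
      have b2 : bo (z.2.1 = false ∧ c2 ≤ z.2.2) = 0 :=
        bo_false (fun k => by rw [hz1] at k; exact absurd k.1 (by simp))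
      unfold U2
      beta_reduce
      rw [a0, b1, b2]
      simp

/-- A SAMPLER OF `Q` -/
theorem nF_Q (hD : D = 4 * K + 1) (hρ : 0 ≤ ρ) (hρD : ρ < D)
    (h : FlgF G E w t0 t1 c1 c2 sd w1 w2 q1 q2 o1 o2 a1 a2 m1 m2 e1 e2 cF2 vF2 cM0 vM0 cM1 vM1
      cK1 vK1 cK2 vK2 h1 h0 h2 h3 vO vA)
    (x y z : P4) (hx : G.ok x) (hy : G.ok y) (hz : G.ok z) (hs : x.2.1 = true) :
    -(n3inw K ρ V E w t0 t1 c1 c2 x.2 y.2 z.2)
        + (gdep D (wR G t1 m1 s2 x) (lab D y z - D) + gdep D (wL G t1 m2 s1 x) (-lab D y z))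
        + movF K ρ w t0 t1 c1 c2 (fun x => a1 (G.cl x)) (fun x => a2 (G.cl x)) x y z
      ≤ cstF D ρ V (cM0 (G.cl x) + cM1 (G.cl x)) (cF2 (G.cl x)) (s1 (G.cl x)) (s2 (G.cl x)) 0 0
          (e1 (G.cl x)) (e2 (G.cl x)) 0 0
          (cK1 (G.cl x) * ppw sd (fun c => q1 c - a1 c) (G.cl y) (G.cl z))
          (cK2 (G.cl x) * ppw sd (fun c => q2 c - a2 c) (G.cl y) (G.cl z)) y z
        + famF_C D K ρ V E t1 (vF2 (G.cl x)) (vM0 (G.cl x)) (vM1 (G.cl x))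
          (vK1 (G.cl x) * ppw sd (fun c => q1 c - a1 c) (G.cl y) (G.cl z))
          (vK2 (G.cl x) * ppw sd (fun c => q2 c - a2 c) (G.cl y) (G.cl z)) x y z
        - famF_G D K ρ t0 t1 (h1 (G.cl x) * ppw sd a1 (G.cl y) (G.cl z))
          (h0 (G.cl x) * ppw sd o1 (G.cl y) (G.cl z)) (h2 (G.cl x) * ppw sd a2 (G.cl y) (G.cl z))
          (h3 (G.cl x) * ppw sd o2 (G.cl y) (G.cl z)) (vO (G.cl x)) (vA (G.cl x)) x y z := by
  obtain ⟨n1, n2, n5, n6, n7, n8, n9, n10, k1, k2, k3, k4⟩ := h.nonneg (G.cl x)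
  obtain ⟨r1, r2, r3⟩ := h.ha1 (G.cl x)
  obtain ⟨l1, l2, l3⟩ := h.ha2 (G.cl x)
  have hsd := h.hsd x hx
  rw [hs] at hsd
  obtain ⟨z1, z2⟩ := h.zQ _ hsd
  have a10 : a1 (G.cl x) = 0 := by linarith
  have a20 : a2 (G.cl x) = 0 := by linarith
  have m10 : m1 (G.cl x) = 0 := by linarith
  have m20 : m2 (G.cl x) = 0 := by linarith
  have gd := wRL_gdep G (t1 := t1) (m1 := m1) (m2 := m2) (s1 := s1) (s2 := s2) (x := x) hρ hρD
    r1 l1 (lab D y z)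
  rw [m10, m20, zero_mul, zero_mul] at gd
  -- moved terms
  have b1 : bW w c1 x.2 = 0 := by
    unfold bW
    exact bo_false (fun k => by rw [hs] at k; exact absurd k.1 (by simp))
  have b2 : bW w c2 x.2 = 0 := by
    unfold bW
    exact bo_false (fun k => by rw [hs] at k; exact absurd k.1 (by simp))
  have b3 : bo (x.2.1 = false ∧ c1 ≤ x.2.2) = 0 :=
    bo_false (fun k => by rw [hs] at k; exact absurd k.1 (by simp))
  have b4 : bo (x.2.1 = false ∧ c2 ≤ x.2.2) = 0 :=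
    bo_false (fun k => by rw [hs] at k; exact absurd k.1 (by simp))
  have U1z : U1 K ρ w t0 t1 c1 (fun x => a1 (G.cl x)) x y z = 0 := by
    unfold U1
    beta_reduce
    rw [a10, b1, b3]
    ring
  have U2z : U2 K ρ w t0 t1 c2 (fun x => a2 (G.cl x)) x y z = 0 := by
    unfold U2
    beta_reduce
    rw [a20, b2, b4]
    ring
  have u1 := U1_q h hx hy hz hs
  have u2 := U2_q h hx hy hz hs
  -- costs of `Q`
  have e2 : kNQ V (thr K ρ (2 * x.2.2 + t1 - (4 * K + 1))) y.2 z.2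
      ≤ fQQ V y z * bo (cB D K ρ t1 ≤ -4 * lc D x.2 + lab D y z) := by
    rw [← hD]
    exact famF2 (D := D) (K := K) (ρ := ρ) (V := V) (y := y) (z := z) hs (t := t1)
  have f0 := famF3 (D := D) (K := K) (ρ := ρ) (V := V) (y := y) (z := z) hs (t := t1) (e := 0)
  have f1 := famF3 (D := D) (K := K) (ρ := ρ) (V := V) (y := y) (z := z) hs (t := t1) (e := E)
  rw [add_zero t1] at f0
  have d2 := split_cost (h.hF2 x hx hs) n5 n6
    (kNQ_nonneg V (thr K ρ (2 * x.2.2 + t1 - (4 * K + 1))) y.2 z.2) (famF_constQ _ y z) e2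
  have d0 := split_cost (h.hMQ0 x hx hs) n7 n8
    (kNP_nonneg V (thr K ρ ((t1 - x.2.2 + 0) / 2)) y.2 z.2) (famF_const _ y z) f0
  have d1 := split_cost (h.hMQ1 x hx hs) n9 n10
    (kNP_nonneg V (thr K ρ ((t1 - x.2.2 + E) / 2)) y.2 z.2) (famF_const _ y z) f1
  -- gains of `Q`
  have g5 : vO (G.cl x) * (fQP y z
      * bo (lab D y z ≤ -1 - ρ ∧ cO D K ρ t1 ≤ lc D x.2 + 2 * lab D y z))
      ≤ bo (1 + ρ ≤ x.2.2 + 2 * t0)
        * (kQP (4 * K + 1 - K + min ((x.2.2 + 2 * t1 - ρ + 1) / 2) (K - ρ + 1)) y.2 z.2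
          - kQP (4 * K + 1 - K + (K - ρ + 1)) y.2 z.2) := by
    have a1 := mul_le_mul_of_nonneg_right (h.hO x hx hs) (mul_nonneg (bo_nonneg
      (y.2.1 = true ∧ z.2.1 = false))
      (bo_nonneg (lab D y z ≤ -1 - ρ ∧ cO D K ρ t1 ≤ lc D x.2 + 2 * lab D y z)))
    have a2 := mul_le_mul_of_nonneg_left (famOW (ρ := ρ) (t1 := t1) (y := y) (z := z) hD hs)
      (bo_nonneg (1 + ρ ≤ x.2.2 + 2 * t0))
    exact a1.trans a2
  have g6 : vA (G.cl x) * (fPQ y z * bo (2 * lc D x.2 + lab D y z ≤ cA D K ρ t0))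
      ≤ bo (1 ≤ x.2.2 + 2 * t0 ∧ x.2.2 + 2 * t1 ≤ 4 * K + 1)
        * kPQ (2 * K + 1 + ρ + 2 * (4 * K + 1 - (x.2.2 + 2 * t0))) y.2 z.2 := by
    rw [famG1' (D := D) (K := K) (ρ := ρ) (y := y) (z := z) hD hs (t := t0)]
    exact mul_le_mul_of_nonneg_right (h.hA x hx hs) (mul_nonneg (bo_nonneg _) (bo_nonneg _))
  have g7 := mul_nonneg n1 (mul_nonneg (bo_nonneg (y.2.1 = false ∧ z.2.1 = true))
    (bo_nonneg (2 * D < lab D y z)))
  have g8 := mul_nonneg n2 (mul_nonneg (bo_nonneg (y.2.1 = true ∧ z.2.1 = false))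
    (bo_nonneg (lab D y z < -D)))
  unfold movF
  rw [U1z, U2z]
  unfold n3inw mQ3
  rw [if_neg (by rw [hs]; simp)]
  unfold cstF famF_C famF_G
  unfold fPQ fQP at *
  linarith

/-- THE NET KERNEL OF THE MIXED FORM, term by term -/
theorem n3F_parts (hD : D = 4 * K + 1) (hE : 0 ≤ E) (hmid : t1 + E ≤ 2 * K + 2) (hρ : 0 ≤ ρ)
    (hρD : ρ < D)
    (h : FlgF G E w t0 t1 c1 c2 sd w1 w2 q1 q2 o1 o2 a1 a2 m1 m2 e1 e2 cF2 vF2 cM0 vM0 cM1 vM1
      cK1 vK1 cK2 vK2 h1 h0 h2 h3 vO vA)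
    (x y z : P4) (hx : G.ok x) (hy : G.ok y) (hz : G.ok z) :
    -(n3inw K ρ V E w t0 t1 c1 c2 x.2 y.2 z.2)
        + (gdep D (wR G t1 m1 s2 x) (lab D y z - D) + gdep D (wL G t1 m2 s1 x) (-lab D y z))
        + movF K ρ w t0 t1 c1 c2 (fun x => a1 (G.cl x)) (fun x => a2 (G.cl x)) x y z
      ≤ cstF D ρ V (cM0 (G.cl x) + cM1 (G.cl x) - w1 (G.cl x)) (cF2 (G.cl x) - w2 (G.cl x))
          (s1 (G.cl x)) (s2 (G.cl x)) (a1 (G.cl x)) (a2 (G.cl x))
          (e1 (G.cl x)) (e2 (G.cl x)) (m1 (G.cl x)) (m2 (G.cl x))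
          (cK1 (G.cl x) * ppw sd (fun c => q1 c - a1 c) (G.cl y) (G.cl z))
          (cK2 (G.cl x) * ppw sd (fun c => q2 c - a2 c) (G.cl y) (G.cl z)) y z
        + famF_P D K ρ t1 (m1 (G.cl x)) (m2 (G.cl x)) x y z
        + famF_C D K ρ V E t1 (vF2 (G.cl x)) (vM0 (G.cl x)) (vM1 (G.cl x))
          (vK1 (G.cl x) * ppw sd (fun c => q1 c - a1 c) (G.cl y) (G.cl z))
          (vK2 (G.cl x) * ppw sd (fun c => q2 c - a2 c) (G.cl y) (G.cl z)) x y z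
        - famF_G D K ρ t0 t1 (h1 (G.cl x) * ppw sd a1 (G.cl y) (G.cl z))
          (h0 (G.cl x) * ppw sd o1 (G.cl y) (G.cl z)) (h2 (G.cl x) * ppw sd a2 (G.cl y) (G.cl z))
          (h3 (G.cl x) * ppw sd o2 (G.cl y) (G.cl z)) (vO (G.cl x)) (vA (G.cl x)) x y z := by
  have hsd := h.hsd x hx
  rcases hs : x.2.1 with _ | _
  · rw [hs] at hsd
    obtain ⟨z1, z2, z3, z4, z5, z6, z7, z8, z9, z10, z11, z12, z13, z14, z15, z16⟩ := h.zP _ hsd
    have k := nF_P (V := V) (s1 := s1) (s2 := s2) hD hE hmid hρ hρD h x y z hx hy hz hs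
    rw [z1, z2, z3, z4, z5, z6, z7, z8, z9, z10, z11, z12, z13, z14, z15, z16]
    refine k.trans (le_of_eq ?_)
    unfold cstF famF_C famF_G
    ring
  · rw [hs] at hsd
    obtain ⟨z1, z2⟩ := h.zQ _ hsd
    obtain ⟨r1, r2, r3⟩ := h.ha1 (G.cl x)
    obtain ⟨l1, l2, l3⟩ := h.ha2 (G.cl x)
    have a10 : a1 (G.cl x) = 0 := by linarith
    have a20 : a2 (G.cl x) = 0 := by linarith
    have m10 : m1 (G.cl x) = 0 := by linarith
    have m20 : m2 (G.cl x) = 0 := by linarith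
    have k := nF_Q (V := V) (s1 := s1) (s2 := s2) hD hρ hρD h x y z hx hy hz hs
    rw [z1, z2, a10, a20, m10, m20]
    refine k.trans (le_of_eq ?_)
    unfold cstF famF_P
    ring

end main

/-! ### Zone constants -/

/-- ZONE CONSTANTS of a pair, mixed form: `cy`, `cz` poles, `vi`, `vo` flags of the doubled point;
`a`, `b`, `e`, `g` coefficients of `kNP`, `kNQ`, `kQP`, `kPQ`; `s1`, `s2` static windows; `a1`, `a2`
exchanged kernels, `e1`, `e2` the same beyond `2 D`, below `-D`, `m1`, `m2` moving windows;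
`k1`, `k2` costs of the remaining weights -/
def kzF (cy cz vi vo : Bool) (a b e g s1 s2 a1 a2 e1 e2 m1 m2 k1 k2 : ℝ) (i : Fin 9) : ℝ :=
  (if cy = false ∧ cz = false ∧ i ≤ 1 then effc vi vo a else 0)
    + (if cy = true ∧ cz = true ∧ 7 ≤ i then effc vi vo b else 0)
    + (if cy = true ∧ cz = false ∧ 3 ≤ i then e else 0)
    + (if cy = false ∧ cz = true ∧ i ≤ 5 then g else 0)
    + (if i = 1 then s1 else 0) + (if i = 7 then s2 else 0)
    + (if cy = false ∧ cz = true ∧ i ≤ 7 then a1 else 0)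
    + (if cy = true ∧ cz = false ∧ 1 ≤ i then a2 else 0)
    + (if cy = false ∧ cz = true ∧ i = 8 then e1 else 0)
    + (if cy = true ∧ cz = false ∧ i = 0 then e2 else 0)
    - (if cy = cz ∧ i = 8 then m1 else 0) - (if cy = cz ∧ i = 0 then m2 else 0)
    + (if i ≤ 1 then k1 else 0) + (if i ≤ 2 then k2 else 0)

/-- THE CONSTANT KERNELS AS FUNCTIONS OF THE LABEL, mixed form -/
theorem kzF_le {D ρ V : ℤ} (hρ : 1 ≤ ρ) (hρD : ρ < D) {y z : P4} {vi vo : Bool}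
    (h1 : vi = true → -V ≤ z.2.2) (h2 : vo = true → z.2.2 < -V)
    (a b e g s1 s2 a1 a2 e1 e2 m1 m2 k1 k2 : ℝ) :
    cstF D ρ V a b s1 s2 a1 a2 e1 e2 m1 m2 k1 k2 y z + e * kQP (D - ρ + 1) y.2 z.2
      + g * kPQ (D - ρ + 1) y.2 z.2
      ≤ kzF y.2.1 z.2.1 vi vo a b e g s1 s2 a1 a2 e1 e2 m1 m2 k1 k2 (zn9 D ρ (lab D y z)) := by
  unfold kzF cstF
  simp only [zn9_le1 hρ hρD, zn9_le2 hρ hρD, zn9_le5 hρ hρD, zn9_le7 hρ hρD, zn9_ge1 hρ hρD,
    zn9_ge3 hρ hρD, zn9_ge7 hρ hρD, zn9_eq1 hρ hρD, zn9_eq7 hρ hρD,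
    zn9_eq0 hρ hρD, zn9_eq8 hρ hρD]
  simp only [ite_bo]
  unfold kNP kNQ kQP kPQ fPQ fQP fS
  rcases hy : y.2.1 with _ | _ <;> rcases hz : z.2.1 with _ | _
  · -- P, P
    rw [lab_PP hy hz]
    simp only [Bool.false_eq_true, Bool.true_eq_false, and_self, true_and, and_true, false_and,
      and_false, bo_false not_false, mul_zero, zero_mul, add_zero, zero_add, sub_zero,
      bo_true trivial, one_mul]
    have k := effc_le (a := a) (V := V) (u := z.2.2) (p := 2 * z.2.2 - y.2.2 ≤ -1 - ρ)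
      (q := -V ≤ z.2.2 ∧ 1 + ρ ≤ y.2.2 - 2 * z.2.2) h1 h2
      (by constructor <;> rintro ⟨h3, h4⟩ <;> exact ⟨h3, by omega⟩)
    linarith
  · -- P, Q
    rw [lab_PQ hy hz]
    simp only [Bool.false_eq_true, Bool.true_eq_false, and_self, true_and, and_true, false_and,
      and_false, bo_false not_false, mul_zero, zero_mul, add_zero, zero_add, sub_zero,
      bo_true trivial, one_mul]
    have e1 : bo (D - ρ + 1 ≤ y.2.2 + 2 * z.2.2)
        = bo (2 * D - (y.2.2 + 2 * z.2.2) ≤ D + ρ - 1) := by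
      unfold bo
      exact if_congr (by omega) rfl rfl
    rw [e1]
    apply le_of_eq
    ring
  · -- Q, P
    rw [lab_QP hy hz]
    simp only [Bool.false_eq_true, Bool.true_eq_false, and_self, true_and, and_true, false_and,
      and_false, bo_false not_false, mul_zero, zero_mul, add_zero, zero_add, sub_zero,
      bo_true trivial, one_mul]
    have e1 : bo (D - ρ + 1 ≤ y.2.2 + 2 * z.2.2)
        = bo (1 - ρ ≤ y.2.2 + 2 * z.2.2 - D) := by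
      unfold bo
      exact if_congr (by omega) rfl rfl
    rw [e1]
    apply le_of_eq
    ring
  · -- Q, Q
    rw [lab_QQ hy hz]
    simp only [Bool.false_eq_true, Bool.true_eq_false, and_self, true_and, and_true, false_and,
      and_false, bo_false not_false, mul_zero, zero_mul, add_zero, zero_add, sub_zero,
      bo_true trivial, one_mul]
    have k := effc_le (a := b) (V := V) (u := z.2.2)
      (p := D + ρ + 1 ≤ D - 2 * z.2.2 + y.2.2)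
      (q := -V ≤ z.2.2 ∧ 1 + ρ ≤ y.2.2 - 2 * z.2.2) h1 h2
      (by constructor <;> rintro ⟨h3, h4⟩ <;> exact ⟨h3, by omega⟩)
    linarith

/-- the length of the additional prices -/
def swF (G : GrdD C M σ δ D K ρ kL kR) (t1 : ℤ) (m1 m2 s1 s2 : C → ℝ) (x : P4) : ℝ :=
  m1 (G.cl x) * xRw K ρ t1 x.2 + m2 (G.cl x) * xLw K ρ t1 x.2
    + (s1 (G.cl x) + s2 (G.cl x)) * (D - ρ)

/-- the sum of the additional prices -/
lemma sum_wRL (G : GrdD C M σ δ D K ρ kL kR) {t1 : ℤ} {m1 m2 s1 s2 : C → ℝ} {x : P4}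
    (hD : 0 ≤ D) (hρ : 0 ≤ ρ) (hρD : ρ < D) (h1 : 0 ≤ m1 (G.cl x)) (h2 : 0 ≤ m2 (G.cl x))
    (hR : m1 (G.cl x) ≠ 0 → xRw K ρ t1 x.2 ≤ D) (hL : m2 (G.cl x) ≠ 0 → xLw K ρ t1 x.2 ≤ D) :
    swF G t1 m1 m2 s1 s2 x
      ≤ ∑ s ∈ Ico 0 D, (wR G t1 m1 s2 x s + wL G t1 m2 s1 x s) := by
  have s0 : ∑ s ∈ Ico 0 D, bo (0 ≤ s ∧ s < D - ρ) = (D:ℝ) - ρ := by
    rw [sum_win hD (by omega), max_eq_right]
    · push_cast
      rfl
    · exact_mod_cast (by omega : (0:ℤ) ≤ D - ρ)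
  have k1 : m1 (G.cl x) * xRw K ρ t1 x.2
      ≤ m1 (G.cl x) * ∑ s ∈ Ico 0 D, bo (0 ≤ s ∧ s < xRw K ρ t1 x.2) := by
    by_cases c : m1 (G.cl x) = 0
    · rw [c, zero_mul, zero_mul]
    · rw [sum_win hD (hR c)]
      exact mul_le_mul_of_nonneg_left (le_max_right _ _) h1
  have k2 : m2 (G.cl x) * xLw K ρ t1 x.2
      ≤ m2 (G.cl x) * ∑ s ∈ Ico 0 D, bo (0 ≤ s ∧ s < xLw K ρ t1 x.2) := by
    by_cases c : m2 (G.cl x) = 0
    · rw [c, zero_mul, zero_mul]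
    · rw [sum_win hD (hL c)]
      exact mul_le_mul_of_nonneg_left (le_max_right _ _) h2
  unfold wR wL swF
  rw [sum_add_distrib, sum_add_distrib, sum_add_distrib, ← mul_sum, ← mul_sum, ← mul_sum,
    ← mul_sum, s0]
  linarith

end

end MP61673a.FE
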