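import Pool.Agent.Mu673.FE7z

/-!
THE ROW FROM THE TABLES, GENERAL FORM (helper56): `row_tablesZ` of helper10 (families depending on the
nine zones of the labels, constants included) with additional prices `ωR`, `ωL` of the sampler
(windows) and a kernel `mov` whose symmetrisation vanishes (terms moved between the three points).
Prices `g` independent of the type bit (`hgt`); no flags of the classes.
-/

set_option autoImplicit false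

namespace MP61673a.FE

open Finset MP61673a.W MP61673a.Kink MP61673a.Bary MP61673a.Sos MP61673a.Fin

noncomputable section

variable {C : Type} {M : ℕ} {σ δ : ℝ} {D K ρ : ℤ} {kL kR : ℝ}

/-- zone tables: price on the outer labels, families (with the constants) -/
def lamW (g : Fin 3 → C × ℤ → Bool → ℤ → ℝ) (lamF : C × ℤ → C → C → Fin 9 → ℤ → ℝ)
    (ζ : C × ℤ) (c d : C) (i : Fin 9) (m : ℤ) : ℝ :=
  g9 g ζ false i m + lamF ζ c d i m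

/-- pair function: price, families -/
def jW (G : GrdD C M σ δ D K ρ kL kR) (g : Fin 3 → C × ℤ → Bool → ℤ → ℝ)
    (lamF : C × ℤ → C → C → Fin 9 → ℤ → ℝ) (ζ : C × ℤ) (y z : P4) : ℝ :=
  gzo M σ D ρ g ζ y.1 (lab D y z)
    + pl (lamF ζ (G.cl y) (G.cl z) (zn9 D ρ (lab D y z))) (yc M σ D (lab D y z))

/-- JOINT PAIR RULE -/
theorem jW_pairP (G : GrdD C M σ δ D K ρ kL kR) (hρ : 1 ≤ ρ)
    (hρD : ρ < D) (hI : ∀ l, ∃ x ∈ I9 M σ kL kR (zn9 D ρ l), |yc M σ D l - x| ≤ 2 * δ)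
    {g : Fin 3 → C × ℤ → Bool → ℤ → ℝ} (hgt : ∀ i ζ e m, g i ζ e m = g i ζ false m)
    {lamF : C × ℤ → C → C → Fin 9 → ℤ → ℝ}
    {L W : C × ℤ → C → C → ℤ → ℝ} {B : ℝ}
    (hb : ∀ ζ c d i m, |lamW g lamF ζ c d i m| ≤ B)
    (hL : ∀ ζ c d m, |L ζ c d m| ≤ B)
    (hz0 : ∀ ζ, ζ.2 ∈ nd G.lo G.hi ζ.1 → ∀ c d,
      Zone9 M σ kL kR (lamW g lamF ζ c d) (L ζ c d))
    (hW : ∀ ζ, ζ.2 ∈ nd G.lo G.hi ζ.1 → ∀ c d, EndOK (L ζ c d) (W ζ c d)) :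
    G.PairP (jW G g lamF) (fun ζ a b => W ζ a.1 b.1 (2 * b.2 - a.2)) (14 * B * δ) := by
  have key := G.zone_pairPI hI hb hL (fun ζ hζ c d i x hx => hz0 ζ hζ c d i x hx) hW
    (Ψ := jW G g lamF) (ε := 0) (fun ζ _ y z hy _ => ?_)
  · rw [add_zero] at key
    exact key
  · have e1 := g9_eq (M := M) (σ := σ) hρ hρD g ζ false (lab D y z)
    have e2 : pl (lamW g lamF ζ (G.cl y) (G.cl z) (zn9 D ρ (lab D y z)))
        (yc M σ D (lab D y z))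
        = pl (g9 g ζ false (zn9 D ρ (lab D y z))) (yc M σ D (lab D y z))
          + pl (lamF ζ (G.cl y) (G.cl z) (zn9 D ρ (lab D y z))) (yc M σ D (lab D y z)) := by
      unfold lamW pl
      ring
    have e3 : gzo M σ D ρ g ζ y.1 (lab D y z) = gzo M σ D ρ g ζ false (lab D y z) := by
      have e4 : ∀ i, g i ζ y.1 = g i ζ false := fun i => funext fun m => hgt i ζ y.1 m
      unfold gzo gz
      rw [e4]
    rw [e2, e1]
    unfold jW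
    rw [e3]
    unfold gzo
    linarith

/-- JOINT PART -/
theorem jW_part {G : GrdD C M σ δ D K ρ kL kR} {g : Fin 3 → C × ℤ → Bool → ℤ → ℝ}
    {lamF : C × ℤ → C → C → Fin 9 → ℤ → ℝ}
    {W : C × ℤ → C × ℤ → C × ℤ → ℝ} {ε εF : ℝ} (hW : G.PairP (jW G g lamF) W ε)
    {Φ : P4 → P4 → P4 → ℝ} (hΦ : G.FamZ Φ lamF εF) :
    G.Part (fun x y z => kX G.lo G.hi (fun ζ => gzo M σ D ρ g ζ y.1 (lab D y z)) (G.pt x)
      + Φ x y z) W (ε + εF) := by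
  intro x y z hx hy hz
  have h0 := hW.part x y z hx hy hz
  have h1 := hΦ x y z hx hy hz
  beta_reduce at h0 ⊢
  unfold jW at h0
  rw [kX_add] at h0
  linarith

/-- constants depending on the sampler node -/
lemma GrdD.FamZ.kz {G : GrdD C M σ δ D K ρ kL kR} (v : C × ℤ → C → C → Fin 9 → ℝ) :
    G.FamZ (fun x y z => kX G.lo G.hi
      (fun ζ => v ζ (G.cl y) (G.cl z) (zn9 D ρ (lab D y z))) (G.pt x))
      (fun ζ c d i _ => v ζ c d i) 0 := by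
  intro x y z _ _ _
  rw [add_zero]
  refine le_of_eq ?_
  have e : (fun ζ : C × ℤ => pl (fun _ : ℤ => v ζ (G.cl y) (G.cl z) (zn9 D ρ (lab D y z)))
      (yc M σ D (lab D y z)))
      = fun ζ : C × ℤ => v ζ (G.cl y) (G.cl z) (zn9 D ρ (lab D y z)) := by
    funext ζ
    unfold pl
    ring
  rw [e]

namespace GrdD

variable (G : GrdD C M σ δ D K ρ kL kR)

/-- prices with windows below the majorants, right -/
lemma win_le_HR {g : Fin 3 → C × ℤ → Bool → ℤ → ℝ} {uR h : C × ℤ → ℤ → ℝ} {vR : C → ℤ → ℝ}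
    {B : ℝ} (hδ : 0 ≤ δ) (hb : ∀ i ζ e m, |g i ζ e m| ≤ B)
    (hb2 : ∀ ζ e m, |g 2 ζ e m + uR ζ m| ≤ B) (hh : ∀ ζ m, |h ζ m| ≤ B) {nR : ℝ}
    (hn : nR ≤ M - σ) (hρ : 0 ≤ ρ) (hnk : nR ≤ kR)
    (h1 : ∀ ζ, ζ.2 ∈ nd G.lo G.hi ζ.1 → ∀ e (x : ℝ), nR ≤ x → x ≤ kR →
      pl (g 1 ζ e) x ≤ pl (h ζ) x)
    (h2 : ∀ ζ, ζ.2 ∈ nd G.lo G.hi ζ.1 → ∀ e (x : ℝ), kR ≤ x →
      pl (fun m => g 2 ζ e m + uR ζ m) x ≤ pl (h ζ) x)
    (hv : ∀ ζ : C × ℤ, ζ.2 ∈ nd G.lo G.hi ζ.1 → ∀ s, 0 ≤ s → s < D →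
      vR ζ.1 s ≤ if s < D - ρ then pl (uR ζ) (yc M σ D (2 * D - s)) else 0)
    {x : P4} (hx : G.ok x) (e : Bool) {s : ℤ} (hs0 : 0 ≤ s) (hs : s < D) :
    G.gR g x e s + vR (G.cl x) s ≤ G.mj (HR M σ D h (6 * B * δ)) x s := by
  have e1 : G.gR g x e s + vR (G.cl x) s
      = kX G.lo G.hi (fun ζ => gz M σ D ρ g ζ e (2 * D - s) + vR ζ.1 s) (G.pt x) := by
    rw [kX_add, kX_cst hx (fun c => vR c s)]
    rfl
  rw [e1]
  refine G.kX_le x fun ζ hζ => ?_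
  set g5 : Fin 3 → C × ℤ → Bool → ℤ → ℝ := fun i ζ e m =>
    if i = 2 then g 2 ζ e m + uR ζ m else g i ζ e m with hg5
  have b5 : ∀ i ζ e m, |g5 i ζ e m| ≤ B := by
    intro i ζ e m
    rw [hg5]
    beta_reduce
    split_ifs
    · exact hb2 ζ e m
    · exact hb i ζ e m
  have k := G.gz_le_HR (g := g5) (h := h) hδ b5 hh hn hρ hnk (ζ := ζ)
    (fun e x a b => h1 ζ hζ e x a b) (fun e x a => h2 ζ hζ e x a) (le_refl (6 * B * δ)) e hs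
  refine le_trans ?_ k
  have v := hv ζ hζ s hs0 hs
  unfold gz
  by_cases c : s < D - ρ
  · rw [if_pos c] at v
    have ez : zn D ρ (2 * D - s) = 2 := by
      unfold zn
      rw [if_neg (by omega), if_neg (by omega)]
    have e2 : pl (g5 2 ζ e) (yc M σ D (2 * D - s))
        = pl (g 2 ζ e) (yc M σ D (2 * D - s)) + pl (uR ζ) (yc M σ D (2 * D - s)) := by
      rw [hg5]
      unfold pl
      simp only [if_true]
      ring
    rw [ez, e2]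
    linarith
  · rw [if_neg c] at v
    have ez : zn D ρ (2 * D - s) = 1 := by
      unfold zn
      rw [if_neg (by omega), if_pos (by omega)]
    have e2 : g5 1 ζ e = g 1 ζ e := by
      funext m
      rw [hg5]
      simp
    rw [ez, e2]
    linarith

/-- prices with windows below the majorants, left -/
lemma win_le_HL {g : Fin 3 → C × ℤ → Bool → ℤ → ℝ} {uL h : C × ℤ → ℤ → ℝ} {vL : C → ℤ → ℝ}
    {B : ℝ} (hδ : 0 ≤ δ) (hb : ∀ i ζ e m, |g i ζ e m| ≤ B)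
    (hb2 : ∀ ζ e m, |g 0 ζ e m + uL ζ m| ≤ B) (hh : ∀ ζ m, |h ζ m| ≤ B) {nL : ℝ} {τ : ℤ}
    (hτ : 2 * σ = τ) (hn : -σ ≤ nL) (hρ : 0 ≤ ρ) (hnk : kL ≤ nL)
    (h1 : ∀ ζ, ζ.2 ∈ nd G.lo G.hi ζ.1 → ∀ e (x : ℝ), kL ≤ x → x ≤ nL →
      pl (g 1 ζ e) x ≤ pl (h ζ) x)
    (h0 : ∀ ζ, ζ.2 ∈ nd G.lo G.hi ζ.1 → ∀ e (x : ℝ), x ≤ kL →
      pl (fun m => g 0 ζ e m + uL ζ m) x ≤ pl (h ζ) x)
    (hv : ∀ ζ : C × ℤ, ζ.2 ∈ nd G.lo G.hi ζ.1 → ∀ s, 0 ≤ s → s < D →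
      vL ζ.1 s ≤ if s < D - ρ then pl (uL ζ) (yc M σ D (s - D)) else 0)
    {x : P4} (hx : G.ok x) (e : Bool) {s : ℤ} (hs0 : 0 ≤ s) (hs : s < D) :
    G.gL g x e s + vL (G.cl x) s ≤ G.mj (HL M σ τ D h (6 * B * δ)) x s := by
  have e1 : G.gL g x e s + vL (G.cl x) s
      = kX G.lo G.hi (fun ζ => gz M σ D ρ g ζ e (s - D) + vL ζ.1 s) (G.pt x) := by
    rw [kX_add, kX_cst hx (fun c => vL c s)]
    rfl
  rw [e1]
  refine G.kX_le x fun ζ hζ => ?_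
  set g5 : Fin 3 → C × ℤ → Bool → ℤ → ℝ := fun i ζ e m =>
    if i = 0 then g 0 ζ e m + uL ζ m else g i ζ e m with hg5
  have b5 : ∀ i ζ e m, |g5 i ζ e m| ≤ B := by
    intro i ζ e m
    rw [hg5]
    beta_reduce
    split_ifs
    · exact hb2 ζ e m
    · exact hb i ζ e m
  have k := G.gz_le_HL (g := g5) (h := h) hδ b5 hh hτ hn hρ hnk (ζ := ζ)
    (fun e x a b => h1 ζ hζ e x a b) (fun e x a => h0 ζ hζ e x a) (le_refl (6 * B * δ)) e hs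
  refine le_trans ?_ k
  have v := hv ζ hζ s hs0 hs
  unfold gz
  by_cases c : s < D - ρ
  · rw [if_pos c] at v
    have ez : zn D ρ (s - D) = 0 := by
      unfold zn
      rw [if_pos (by omega)]
    have e2 : pl (g5 0 ζ e) (yc M σ D (s - D))
        = pl (g 0 ζ e) (yc M σ D (s - D)) + pl (uL ζ) (yc M σ D (s - D)) := by
      rw [hg5]
      unfold pl
      simp only [if_true]
      ring
    rw [ez, e2]
    linarith
  · rw [if_neg c] at v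
    have ez : zn D ρ (s - D) = 1 := by
      unfold zn
      rw [if_neg (by omega), if_pos (by omega)]
    have e2 : g5 1 ζ e = g 1 ζ e := by
      funext m
      rw [hg5]
      simp
    rw [ez, e2]
    linarith

/-- coverage kernel with additional prices -/
theorem cov_add (g : Fin 3 → C × ℤ → Bool → ℤ → ℝ) (ωR ωL : P4 → ℤ → ℝ)
    (mR mL : C × ℤ → ℤ → ℝ) (x y z : P4) :
    cov3t D (fun x e s => G.gR g x e s + ωR x s) (G.mj mR)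
        (fun x e s => G.gL g x e s + ωL x s) (G.mj mL) x y z
      = kX G.lo G.hi (fun ζ => gzo M σ D ρ g ζ y.1 (lab D y z)) (G.pt x)
        + (gdep D (ωR x) (lab D y z - D) + gdep D (ωL x) (-lab D y z))
        + kX G.lo G.hi (fun ζ => midN D mR mL ζ y z) (G.pt x) := by
  have h0 := G.cov_le9 g mR mL x y z
  have e1 : rc D y.2 - 2 * rc D z.2 = lab D y z - D := by
    have a := rc_add_lc D y.2
    have b := rc_add_lc D z.2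
    unfold lab
    linarith
  have e2 : lc D y.2 - 2 * lc D z.2 = -lab D y z := by
    unfold lab
    ring
  have a1 : ∀ (p q : ℤ → ℝ) (j : ℤ), gdep D (fun s => p s + q s) j = gdep D p j + gdep D q j := by
    intro p q j
    unfold gdep
    split_ifs
    · rfl
    · simp
  unfold cov3t covRt covLt at h0 ⊢
  rw [a1, a1, e1, e2]
  rw [e1, e2] at h0
  linarith

end GrdD

/-- THE ROW FROM THE TABLES, general form -/
theorem row_tablesW {K0 : ℤ} {f : ℝ} {P Q : WS} {V E N : ℤ} {ξR ξL : ℤ → ℝ}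
    (h : EnvS K0 f P Q D K ρ V E N ξR ξL) {cl : P.ι ⊕ Q.ι → Bool} {lR lL : ℤ → Bool}
    (ht : Typ P Q D E cl lR lL) {lo t0 t t1 : ℤ} (hNt : nearE D < t) (h0 : t0 ≤ t)
    (h1 : t ≤ t1) {n1 : P3 → ℝ} {n3 : P3 → P3 → P3 → ℝ} {C1 : ℝ}
    (hnet : T1 P Q n1 + T3 P Q n3 - C1 * K ≤ netE P Q deeper D K (K - ρ) ρ ρ V E lo t)
    {dk : P3 → P3 → P3 → ℝ} (hdk : dchE P Q deeper D ρ V E t ≤ T3 P Q dk)
    {X1 : P4 → ℝ} {X3 : P4 → P4 → P4 → ℝ} {C0 : ℝ} (hX : XF P Q cl K X1 X3 C0)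
    -- frame
    (G : GrdD C M σ δ D K ρ kL kR) (hδ : 0 ≤ δ)
    {W0 : Finset ℤ} (hW0 : ∀ c, nd G.lo G.hi c ⊆ W0)
    (hI : ∀ l, ∃ x ∈ I9 M σ kL kR (zn9 D ρ l), |yc M σ D l - x| ≤ 2 * δ)
    -- prices
    {g : Fin 3 → C × ℤ → Bool → ℤ → ℝ} (hgt : ∀ i ζ e m, g i ζ e m = g i ζ false m)
    (hg : ∀ i ζ e m, 0 ≤ g i ζ e m) {Bg : ℝ} (hgB : ∀ i ζ e m, |g i ζ e m| ≤ Bg)
    -- additional prices
    {ωR ωL : P4 → ℤ → ℝ} (hω0 : ∀ x s, 0 ≤ ωR x s ∧ 0 ≤ ωL x s)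
    {vR vL : C → ℤ → ℝ} (hvR : ∀ x, G.ok x → ∀ s, 0 ≤ s → s < D → ωR x s ≤ vR (G.cl x) s)
    (hvL : ∀ x, G.ok x → ∀ s, 0 ≤ s → s < D → ωL x s ≤ vL (G.cl x) s)
    {uR uL : C × ℤ → ℤ → ℝ} (hu2 : ∀ ζ e m, |g 2 ζ e m + uR ζ m| ≤ Bg)
    (hu0 : ∀ ζ e m, |g 0 ζ e m + uL ζ m| ≤ Bg)
    (huR : ∀ ζ : C × ℤ, ζ.2 ∈ nd G.lo G.hi ζ.1 → ∀ s, 0 ≤ s → s < D →
      vR ζ.1 s ≤ if s < D - ρ then pl (uR ζ) (yc M σ D (2 * D - s)) else 0)
    (huL : ∀ ζ : C × ℤ, ζ.2 ∈ nd G.lo G.hi ζ.1 → ∀ s, 0 ≤ s → s < D →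
      vL ζ.1 s ≤ if s < D - ρ then pl (uL ζ) (yc M σ D (s - D)) else 0)
    {SW : P4 → ℝ} (hSW : ∀ x : P4, InR D K x.2 → SW x ≤ ∑ s ∈ Ico 0 D, (ωR x s + ωL x s))
    -- majorants of prices and additional prices
    {hR hL : C × ℤ → ℤ → ℝ} (pR : ∀ ζ m, 0 ≤ hR ζ m) (pL : ∀ ζ m, 0 ≤ hL ζ m)
    (bR : ∀ ζ m, |hR ζ m| ≤ Bg) (bL : ∀ ζ m, |hL ζ m| ≤ Bg)
    {nR nL : ℝ} (hnR : nR ≤ M - σ) (hnRk : nR ≤ kR) (hnL : -σ ≤ nL) (hnLk : kL ≤ nL)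
    (dR1 : ∀ ζ, ζ.2 ∈ nd G.lo G.hi ζ.1 → ∀ e (x : ℝ), nR ≤ x → x ≤ kR →
      pl (g 1 ζ e) x ≤ pl (hR ζ) x)
    (dR2 : ∀ ζ, ζ.2 ∈ nd G.lo G.hi ζ.1 → ∀ e (x : ℝ), kR ≤ x →
      pl (fun m => g 2 ζ e m + uR ζ m) x ≤ pl (hR ζ) x)
    (dL1 : ∀ ζ, ζ.2 ∈ nd G.lo G.hi ζ.1 → ∀ e (x : ℝ), kL ≤ x → x ≤ nL →
      pl (g 1 ζ e) x ≤ pl (hL ζ) x)
    (dL0 : ∀ ζ, ζ.2 ∈ nd G.lo G.hi ζ.1 → ∀ e (x : ℝ), x ≤ kL →
      pl (fun m => g 0 ζ e m + uL ζ m) x ≤ pl (hL ζ) x)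
    -- midpoints
    {τ : ℤ} (hτ : 2 * σ = τ) {d : ℝ} (hd : (M:ℝ) * E / (2 * D) ≤ d) (hd0 : 0 ≤ d) (hd1 : d ≤ 1)
    {Lm Wm : C × ℤ → ℤ → ℝ} {Bm : ℝ}
    (hLm : ∀ ζ, ζ.2 ∈ nd G.lo G.hi ζ.1 → ∀ m, avN d (hR ζ) m + avN d (hL ζ) m ≤ Lm ζ m)
    (hBm : ∀ ζ m, |Lm ζ m| ≤ Bm)
    (hWm : ∀ ζ, ζ.2 ∈ nd G.lo G.hi ζ.1 → MidOK (Lm ζ) (Wm ζ))
    {st : C → C → Bool}
    (hst : ∀ y z, G.ok y → G.ok z → st (G.cl y) (G.cl z) = false →
      ¬ (y.1 = z.1 ∧ (rc D y.2 < 0 ∨ rc D z.2 < 0)) ∧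
      ¬ (y.1 = z.1 ∧ (lc D y.2 < 0 ∨ lc D z.2 < 0)))
    -- one body part
    {BB : P4 → ℝ} (hB : ∀ x : P4, InR D K x.2 →
      BB x ≤ ∑ s ∈ Ico 0 D, (G.gR g x (lR s) s + G.gL g x (lL s) s))
    {a1 : C × ℤ → ℝ} {ε1 e0 : ℝ} (he0 : 0 ≤ e0)
    (hm : ∀ x : P4, InR D K x.2 →
      -e0 ≤ m1tc K ρ E t0 t1 n1 (fun x => BB x + SW x) X1 x)
    (hone : G.OneP (fun x => -(m1tc K ρ E t0 t1 n1 (fun x => BB x + SW x) X1 x
      / (3 * D + 11))) a1 ε1)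
    -- three body part
    {mov : P4 → P4 → P4 → ℝ} (hmov : ∀ x y z, sym6 mov x y z = 0)
    {Φ Y3 : P4 → P4 → P4 → ℝ}
    (H3 : ∀ x y z, G.ok x → G.ok y → G.ok z →
      -n3 x.2 y.2 z.2 + dk x.2 y.2 z.2 + X3 x y z
          + (gdep D (ωR x) (lab D y z - D) + gdep D (ωL x) (-lab D y z)) + mov x y z
        ≤ Φ x y z + Y3 x y z)
    {lamF : C × ℤ → C → C → Fin 9 → ℤ → ℝ} {εF : ℝ} (hΦ : G.FamZ Φ lamF εF)
    {Tx : C × ℤ → C × ℤ → C × ℤ → ℝ} {εx : ℝ} (hY : G.Part Y3 Tx εx)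
    -- tables
    {L W : C × ℤ → C → C → ℤ → ℝ} {B : ℝ}
    (hlb : ∀ ζ c d i m, |lamW g lamF ζ c d i m| ≤ B)
    (hLb : ∀ ζ c d m, |L ζ c d m| ≤ B)
    (hz0 : ∀ ζ, ζ.2 ∈ nd G.lo G.hi ζ.1 → ∀ c d,
      Zone9 M σ kL kR (lamW g lamF ζ c d) (L ζ c d))
    (hW : ∀ ζ, ζ.2 ∈ nd G.lo G.hi ζ.1 → ∀ c d, EndOK (L ζ c d) (W ζ c d))
    -- squares
    {p : ℕ} {sg : Fin p → C × ℤ → C × ℤ → ℝ}
    (hnode : ∀ z a b : C × ℤ, z.2 ∈ nd G.lo G.hi z.1 → a.2 ∈ nd G.lo G.hi a.1 →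
      b.2 ∈ nd G.lo G.hi b.1 →
      sym6 (Tcert a1 W st Wm Tx) z a b + 2 * sq3 univ sg z a b ≤ 0)
    {ε : ℝ} (hε0 : 0 ≤ ε)
    (hε : ε1 + (14 * B * δ + εF + (Bm * δ + 6 * Bg * δ)) + εx ≤ ε) {C' : ℝ}
    (hC : 18 * (K * ε) + C0 + C1 + e0 ≤ C') :
    RowAt C' P Q D K ρ V E lo t := by
  have hK1 := h.hK1
  have hDK := h.hD
  have hKr : (10000:ℝ) ≤ K := by exact_mod_cast hK1
  have hρ1 := h.hρ
  have hρK := h.hρK
  have hρD : ρ < D := by omega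
  have hBg : 0 ≤ Bg := (abs_nonneg _).trans (hgB 0 (G.cl (false, false, 0), 0) false 0)
  have hem : 0 ≤ 6 * Bg * δ := by positivity
  have hM0 : (0:ℤ) ≤ (M:ℤ) := Int.natCast_nonneg M
  -- parts
  have q1 := jW_pairP G hρ1 hρD hI hgt hlb hLb hz0 hW
  have q2 := jW_part q1 hΦ
  have q3 := G.mid_pairP hd0 hem hτ pR pL hLm hBm hWm hst
  have q4 := ((hone.part.add (q2.add q3.part)).add hY)
  have jR : ∀ x, Maj D E (G.mj (HR M σ D hR (6 * Bg * δ)) x)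
      (G.mj (MR M σ D d hR (6 * Bg * δ)) x) := fun x =>
    G.mj_maj (fun ζ _ => maj_lblF G.hD0 hM0 (by push_cast; exact hd) hd0 hd1
      (fun k => add_nonneg (pR ζ _) hem)) x
  have jL : ∀ x, Maj D E (G.mj (HL M σ τ D hL (6 * Bg * δ)) x)
      (G.mj (ML M σ τ D d hL (6 * Bg * δ)) x) := fun x =>
    G.mj_maj (fun ζ _ => maj_lblF G.hD0 hM0 (by push_cast; exact hd) hd0 hd1
      (fun k => add_nonneg (pL ζ _) hem)) x
  have dR : ∀ x : P4, InR D K x.2 → ∀ e s, 0 ≤ s → s < D → G.gR g x e s + ωR x s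
      ≤ G.mj (HR M σ D hR (6 * Bg * δ)) x s := by
    intro x hx e s hs0 hs
    have hok := (G.okE x).2 hx
    have a := G.win_le_HR hδ hgB hu2 bR hnR (by omega) hnRk dR1 dR2 huR hok e hs0 hs
    have b := hvR x hok s hs0 hs
    linarith
  have dL : ∀ x : P4, InR D K x.2 → ∀ e s, 0 ≤ s → s < D → G.gL g x e s + ωL x s
      ≤ G.mj (HL M σ τ D hL (6 * Bg * δ)) x s := by
    intro x hx e s hs0 hs
    have hok := (G.okE x).2 hx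
    have a := G.win_le_HL hδ hgB hu0 bL hτ hnL (by omega) hnLk dL1 dL0 huL hok e hs0 hs
    have b := hvL x hok s hs0 hs
    linarith
  have hB' : ∀ x : P4, InR D K x.2 → BB x + SW x
      ≤ ∑ s ∈ Ico 0 D, ((G.gR g x (lR s) s + ωR x s) + (G.gL g x (lL s) s + ωL x s)) := by
    intro x hx
    have s1 := hB x hx
    have s2 := hSW x hx
    have e : ∑ s ∈ Ico 0 D, ((G.gR g x (lR s) s + ωR x s) + (G.gL g x (lL s) s + ωL x s))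
        = ∑ s ∈ Ico 0 D, (G.gR g x (lR s) s + G.gL g x (lL s) s)
          + ∑ s ∈ Ico 0 D, (ωR x s + ωL x s) := by
      rw [← sum_add_distrib]
      refine sum_congr rfl fun s _ => ?_
      ring
    rw [e]
    linarith
  -- the pointwise inequality, gains moved
  set FF : P4 → P4 → P4 → ℝ := fun x y z =>
      m1tc K ρ E t0 t1 n1 (fun x => BB x + SW x) X1 x / (3 * D + 11)
      + m3t K f n3 (fun x e s => G.gR g x e s + ωR x s)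
        (G.mj (MR M σ D d hR (6 * Bg * δ))) (fun x e s => G.gL g x e s + ωL x s)
        (G.mj (ML M σ τ D d hL (6 * Bg * δ)))
        (fun _ _ => 0) (fun _ _ _ => 0) (fun _ => 0) dk X3 x y z with hFF
  have q5 : G.Part (fun x y z => -(FF x y z - mov x y z)) (Tcert a1 W st Wm Tx) ε := by
    refine (q4.congr (fun x y z hx hy hz => ?_) hε).mono (fun a b c _ _ _ => le_of_eq ?_)
    · have k1 := H3 x y z hx hy hz
      have k2 := G.cov_add g ωR ωL (MR M σ D d hR (6 * Bg * δ)) (ML M σ τ D d hL (6 * Bg * δ))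
        x y z
      rw [hFF]
      dsimp only
      unfold m3t
      rw [cls3_zero, ← hDK, k2]
      linarith
    · unfold Tcert
      ring
  obtain ⟨m, s, hs'⟩ := Grd.point_of_part (G := G.toGrd) hW0 q5 (sg := sg) (B := 0) hnode
  have hsym : ∀ x y z, sym6 (fun x y z => FF x y z - mov x y z) x y z = sym6 FF x y z := by
    intro x y z
    have := hmov x y z
    unfold sym6 at this ⊢
    linarith
  refine row3tn h ht hNt h0 h1 hnet (γR := fun x e s => G.gR g x e s + ωR x s)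
    (γL := fun x e s => G.gL g x e s + ωL x s)
    (hR := G.mj (HR M σ D hR (6 * Bg * δ))) (hL := G.mj (HL M σ τ D hL (6 * Bg * δ)))
    (mR := G.mj (MR M σ D d hR (6 * Bg * δ))) (mL := G.mj (ML M σ τ D d hL (6 * Bg * δ)))
    (fun x _ e s _ _ => add_nonneg (G.gR_nonneg hg x e s) (hω0 x s).1)
    (fun x _ e s _ _ => add_nonneg (G.gL_nonneg hg x e s) (hω0 x s).2)
    dR dL (fun x _ => jR x) (fun x _ => jL x) hB'
    (ν := fun _ _ => 0) (fun _ _ => le_rfl) (σ := fun _ _ _ => 0) (fun _ _ _ => le_rfl)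
    (o := fun _ => 0) (o0 := 0) (fun _ _ => le_rfl) (fun _ _ => le_rfl) le_rfl hdk
    (X1 := X1) (X3 := X3) (C0 := C0) hX he0 hm univ s (c := 6 * (K * ε)) (by positivity)
    (fun x y z hx hy hz => ?_) (by linarith)
  have k := hs' x y z ((G.okE x).2 hx) ((G.okE y).2 hy) ((G.okE z).2 hz)
  rw [hsym] at k
  refine k.trans (le_of_eq ?_)
  have e1 : 6 * ((K:ℝ) * ε) / K = 6 * ε := by
    field_simp
  rw [e1]
  ring

end

end MP61673a.FE
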