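import Pool.Agent.Mu673.NetIn2
import Pool.Agent.Mu673.CellMain
import Pool.Agent.Mu673.CellX

/-!
`RowCell` for an IN cell `(a D / m, b D / m]`, `1/80 ≤ a / m`, `b / m ≤ 1/8`, `(b - a) / m ≤ 1/64`: the
side conditions of `net_in_s` hold for every `D`.
-/

set_option autoImplicit false

namespace MP61673a.Fin

open Finset MP61673a.W MP61673a.LiftW MP61673a.Mids MP61673a.Sos
open MP61673a.Lift hiding PP QQ

noncomputable section

/-- side conditions of an IN cell -/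
lemma in_side {m a b D t0 t1 : ℤ} (hm : 0 < m) (hD : 40000 ≤ D) (ha : m ≤ 80 * a)
    (hab : 64 * (b - a) ≤ m) (p : CellPos m a b D t0 t1) :
    501 ≤ t0 ∧ 2 * (t1 - t0) + 2 ≤ 3 * nearE D ∧ 32 * (t1 - t0) ≤ D / 2 := by
  obtain ⟨p1, p2, p3, p4⟩ := p
  have e1 : m * D ≤ 80 * (a * D) := by
    have := mul_le_mul_of_nonneg_right ha (by omega : (0:ℤ) ≤ D)
    linarith
  have e2 : D < 80 * t0 := by
    have : m * D < m * (80 * t0) := by linarith
    exact lt_of_mul_lt_mul_left this hm.le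
  have e3 : 64 * (t1 - t0) < D := by
    have h1 : m * (64 * (t1 - t0)) < 64 * ((b - a) * D) := by linarith
    have h2 := mul_le_mul_of_nonneg_right hab (by omega : (0:ℤ) ≤ D)
    have : m * (64 * (t1 - t0)) < m * D := by linarith
    exact lt_of_mul_lt_mul_left this hm.le
  unfold nearE
  omega

lemma in_zE {m b : ℤ} (hm : 0 < m) (hb : 8 * b ≤ m) : ∀ D : ℤ, 40000 ≤ D → ∀ t : ℤ,
    m * t ≤ b * D → t ≤ zE D := by
  intro D hD t ht
  unfold zE
  have h2 := mul_le_mul_of_nonneg_right hb (by omega : (0:ℤ) ≤ D)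
  have : m * (8 * t) ≤ m * D := by linarith
  have := le_of_mul_le_mul_left this hm
  omega

/-- `RowCell` OF AN IN CELL from the row of the net in sampler form -/
theorem rowCell_in_s {K0 : ℤ} {f C : ℝ} {N m a b : ℤ} (hm : 0 < m) (ha : m ≤ 80 * a)
    (hab : 64 * (b - a) ≤ m) (hb : 8 * b ≤ m)
    (H : ∀ {P Q : WS} {D K ρ V E : ℤ} {ξR ξL : ℤ → ℝ}, EnvS K0 f P Q D K ρ V E N ξR ξL →
      ∀ lo t0 t1 c1 c2 c3 : ℤ, 0 ≤ lo → lo ≤ 1 → 501 ≤ t0 → t1 ≤ V → CellPos m a b D t0 t1 →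
        c1 = 2 * a * D / m + 1 → c2 = a * D / (2 * m) + 1 → c3 = -((2 * a * D - m * D) / m) - 1 →
        2 * t0 - 2 ≤ c1 → c1 ≤ 2 * t0 → t0 - 2 ≤ 2 * c2 → 2 * c2 ≤ t0 + 1 →
        ∀ t, nearE D < t → t0 ≤ t → t ≤ t1 →
          T1 P Q (n1inw K ρ E (lo - t) t0 t1 c1 c2)
              + T3 P Q (n3s K ρ V E (lo - t) t0 t1 c1 c2) - 27 * K
            ≤ netE P Q deeper D K (K - ρ) ρ ρ V E lo t →
          RowAt C P Q D K ρ V E lo t) :
    RowCell K0 f C N m a b := by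
  refine rowCell_in_of hm (in_zE hm hb) ?_
  intro P Q D K ρ V E ξR ξL env lo t0 t1 g1 g2 g3 p t g4 g5 g6
  have hD := env.hD
  have hK := env.hK1
  obtain ⟨s1, s2, _⟩ := in_side hm (by omega) ha hab p
  have hc := Cuts.of_cell hm p.1 p.2.1
  exact H env lo t0 t1 _ _ _ g1 g2 s1 g3 p rfl rfl rfl hc.a1 hc.b1 hc.a2 hc.b2 t g4 g5 g6
    (net_in_s env g1 g2 (by omega) rfl g5 g6 hc.a1 hc.b1 hc.a2 hc.b2 g4 (by omega) s2)

end

end MP61673a.Fin
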