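import Pool.Agent.Mu673.FF1
import Pool.Agent.Mu673.FF2
import Pool.Agent.Mu673.INside

/-!
THE MIXED FORM OF AN IN CELL (helper56): the three-body part as one predicate, `RowCell` from the net
with exact kernels.
-/

set_option autoImplicit false

namespace MP61673a.FE

open Finset MP61673a.W MP61673a.Kink MP61673a.Bary MP61673a.Sos MP61673a.Fin

noncomputable section

variable {C : Type} {M : ℕ} {σ δ : ℝ} {D K ρ : ℤ} {kL kR : ℝ}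

/-- THE THREE BODY PART of a cell: zone constants of a class and a pair of classes, families;
additional prices `ωR`, `ωL`, moved terms `mov` -/
def Net3W (G : GrdD C M σ δ D K ρ kL kR) (n3 dk : P3 → P3 → P3 → ℝ) (ωR ωL : P4 → ℤ → ℝ)
    (mov : P4 → P4 → P4 → ℝ) (kz : C → C → C → Fin 9 → ℝ)
    (lamF : C × ℤ → C → C → Fin 9 → ℤ → ℝ) (εF : ℝ) : Prop :=
  ∃ Φ : P4 → P4 → P4 → ℝ,
    (∀ x y z, G.ok x → G.ok y → G.ok z → -n3 x.2 y.2 z.2 + dk x.2 y.2 z.2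
        + (gdep D (ωR x) (lab D y z - D) + gdep D (ωL x) (-lab D y z)) + mov x y z
      ≤ kz (G.cl x) (G.cl y) (G.cl z) (zn9 D ρ (lab D y z)) + Φ x y z)
    ∧ G.FamZ Φ lamF εF

/-- constants of the class of the sampler -/
lemma kX_clz {G : GrdD C M σ δ D K ρ kL kR} {x : P4} (hx : G.ok x) (c : C → ℝ) :
    kX G.lo G.hi (fun ζ => c ζ.1) (G.pt x) = c (G.cl x) := by
  have h := GrdD.kX_cl (G := G) (x := x) c (fun _ => 1)
  rw [kX_const (G.regX hx), mul_one] at h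
  rw [← h]
  congr 1
  funext ζ
  rw [mul_one]

/-- the hypotheses `H3`, `hΦ` of `row_tablesW` -/
theorem Net3W.H3 {G : GrdD C M σ δ D K ρ kL kR} {n3 dk : P3 → P3 → P3 → ℝ} {ωR ωL : P4 → ℤ → ℝ}
    {mov : P4 → P4 → P4 → ℝ} {kz : C → C → C → Fin 9 → ℝ}
    {lamF : C × ℤ → C → C → Fin 9 → ℤ → ℝ} {εF : ℝ}
    (h : Net3W G n3 dk ωR ωL mov kz lamF εF) (X3 : P4 → P4 → P4 → ℝ) :
    ∃ Φ : P4 → P4 → P4 → ℝ, (∀ x y z, G.ok x → G.ok y → G.ok z →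
      -n3 x.2 y.2 z.2 + dk x.2 y.2 z.2 + X3 x y z
          + (gdep D (ωR x) (lab D y z - D) + gdep D (ωL x) (-lab D y z)) + mov x y z
        ≤ Φ x y z + X3 x y z)
      ∧ G.FamZ Φ (fun ζ c d i m => kz ζ.1 c d i + lamF ζ c d i m) (0 + εF) := by
  obtain ⟨Φ, h1, h2⟩ := h
  refine ⟨fun x y z => kX G.lo G.hi
      (fun ζ => kz ζ.1 (G.cl y) (G.cl z) (zn9 D ρ (lab D y z))) (G.pt x) + Φ x y z,
    fun x y z hx hy hz => ?_, (GrdD.FamZ.kz (fun ζ => kz ζ.1)).add h2⟩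
  have k := h1 x y z hx hy hz
  beta_reduce
  rw [kX_clz hx (fun c => kz c (G.cl y) (G.cl z) (zn9 D ρ (lab D y z)))]
  linarith

/-- THE THREE BODY PART OF AN IN CELL IN THE MIXED FORM: `ce`, `cg` = deep charges, `kz` = zone
constants, `Φ` = the families -/
theorem net3W_F {G : GrdD C M σ δ D K ρ kL kR} {V E w t0 t1 c1 c2 : ℤ} {sd vI vO : C → Bool}
    {w1 w2 q1 q2 o1 o2 a1 a2 m1 m2 e1 e2 : C → ℝ}
    {cF2 vF2 cM0 vM0 cM1 vM1 cK1 vK1 cK2 vK2 h1 h0 h2 h3 vO' vA : C → ℝ} {s1 s2 ce cg : C → ℝ}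
    (hD : D = 4 * K + 1) (hE : 0 ≤ E) (hmid : t1 + E ≤ 2 * K + 2) (hρ : 1 ≤ ρ) (hρD : ρ < D)
    (h : FlgF G E w t0 t1 c1 c2 sd w1 w2 q1 q2 o1 o2 a1 a2 m1 m2 e1 e2 cF2 vF2 cM0 vM0 cM1 vM1
      cK1 vK1 cK2 vK2 h1 h0 h2 h3 vO' vA)
    (hvI : ∀ x, G.ok x → vI (G.cl x) = true → -V ≤ x.2.2)
    (hvO : ∀ x, G.ok x → vO (G.cl x) = true → x.2.2 < -V)
    (hce : ∀ x, G.ok x → aRinc D ρ E t1 x.2 ≤ ce (G.cl x))
    (hcg : ∀ x, G.ok x → aLc D ρ t0 t1 x.2 ≤ cg (G.cl x))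
    {kz : C → C → C → Fin 9 → ℝ} (hkz : ∀ c a b i,
      kzF (sd a) (sd b) (vI b) (vO b) (cM0 c + cM1 c - w1 c) (cF2 c - w2 c) (ce c) (cg c)
        (s1 c) (s2 c) (a1 c) (a2 c) (e1 c) (e2 c) (m1 c) (m2 c)
        (cK1 c * ppw sd (fun c => q1 c - a1 c) a b) (cK2 c * ppw sd (fun c => q2 c - a2 c) a b) i
      ≤ kz c a b i)
    {lamF : C × ℤ → C → C → Fin 9 → ℤ → ℝ} {εF : ℝ}
    (hΦ : G.FamZ (fun x y z => famF_P D K ρ t1 (m1 (G.cl x)) (m2 (G.cl x)) x y z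
        + famF_C D K ρ V E t1 (vF2 (G.cl x)) (vM0 (G.cl x)) (vM1 (G.cl x))
          (vK1 (G.cl x) * ppw sd (fun c => q1 c - a1 c) (G.cl y) (G.cl z))
          (vK2 (G.cl x) * ppw sd (fun c => q2 c - a2 c) (G.cl y) (G.cl z)) x y z
        - famF_G D K ρ t0 t1 (h1 (G.cl x) * ppw sd a1 (G.cl y) (G.cl z))
          (h0 (G.cl x) * ppw sd o1 (G.cl y) (G.cl z)) (h2 (G.cl x) * ppw sd a2 (G.cl y) (G.cl z))
          (h3 (G.cl x) * ppw sd o2 (G.cl y) (G.cl z)) (vO' (G.cl x)) (vA (G.cl x)) x y z)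
      lamF εF) :
    Net3W G (n3inw K ρ V E w t0 t1 c1 c2) (dk3cin D ρ E t0 t1 1 1 0 0) (wR G t1 m1 s2)
      (wL G t1 m2 s1) (movF K ρ w t0 t1 c1 c2 (fun x => a1 (G.cl x)) (fun x => a2 (G.cl x)))
      kz lamF εF := by
  refine ⟨_, fun x y z hx hy hz => ?_, hΦ⟩
  have k := n3F_parts (V := V) (s1 := s1) (s2 := s2) hD hE hmid (by omega) hρD h x y z hx hy hz
  have k2 := kzF_le hρ hρD (V := V) (y := y) (z := z) (hvI z hz) (hvO z hz)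
    (cM0 (G.cl x) + cM1 (G.cl x) - w1 (G.cl x)) (cF2 (G.cl x) - w2 (G.cl x)) (ce (G.cl x))
    (cg (G.cl x)) (s1 (G.cl x)) (s2 (G.cl x)) (a1 (G.cl x)) (a2 (G.cl x)) (e1 (G.cl x))
    (e2 (G.cl x)) (m1 (G.cl x)) (m2 (G.cl x))
    (cK1 (G.cl x) * ppw sd (fun c => q1 c - a1 c) (G.cl y) (G.cl z))
    (cK2 (G.cl x) * ppw sd (fun c => q2 c - a2 c) (G.cl y) (G.cl z))
  have k3 := hkz (G.cl x) (G.cl y) (G.cl z) (zn9 D ρ (lab D y z))
  rw [← h.hsd y hy, ← h.hsd z hz] at k2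
  have k4 := mul_le_mul_of_nonneg_right (hce x hx) (kQP_nonneg (D - ρ + 1) y.2 z.2)
  have k5 := mul_le_mul_of_nonneg_right (hcg x hx) (kPQ_nonneg (D - ρ + 1) y.2 z.2)
  unfold dk3cin
  rw [zero_mul, zero_mul, sub_zero, sub_zero, one_mul, one_mul]
  beta_reduce
  linarith

end

end MP61673a.FE

namespace MP61673a.Fin

open Finset MP61673a.W MP61673a.LiftW MP61673a.Mids MP61673a.Sos
open MP61673a.Lift hiding PP QQ

noncomputable section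

/-- `RowCell` OF AN IN CELL from the row of the net with exact kernels (mixed form) -/
theorem rowCell_in_w {K0 : ℤ} {f C : ℝ} {N m a b : ℤ} (hm : 0 < m) (ha : m ≤ 80 * a)
    (hab : 64 * (b - a) ≤ m) (hb : 8 * b ≤ m)
    (H : ∀ {P Q : WS} {D K ρ V E : ℤ} {ξR ξL : ℤ → ℝ}, EnvS K0 f P Q D K ρ V E N ξR ξL →
      ∀ lo t0 t1 c1 c2 : ℤ, 0 ≤ lo → lo ≤ 1 → 501 ≤ t0 → t1 ≤ V → CellPos m a b D t0 t1 →
        c1 = 2 * a * D / m + 1 → c2 = a * D / (2 * m) + 1 →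
        2 * t0 - 2 ≤ c1 → c1 ≤ 2 * t0 → t0 - 2 ≤ 2 * c2 → 2 * c2 ≤ t0 + 1 →
        t1 + E ≤ 2 * K + 2 →
        ∀ t, nearE D < t → t0 ≤ t → t ≤ t1 →
          T1 P Q (n1inw K ρ E (lo - t) t0 t1 c1 c2)
              + T3 P Q (n3inw K ρ V E (lo - t) t0 t1 c1 c2) - 2 * K
            ≤ netE P Q deeper D K (K - ρ) ρ ρ V E lo t →
          dchE P Q deeper D ρ V E t ≤ T3 P Q (dk3cin D ρ E t0 t1 1 1 0 0) →
          RowAt C P Q D K ρ V E lo t) :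
    RowCell K0 f C N m a b := by
  refine rowCell_in_of hm (in_zE hm hb) ?_
  intro P Q D K ρ V E ξR ξL env lo t0 t1 g1 g2 g3 p t g4 g5 g6
  have hD := env.hD
  have hK := env.hK1
  obtain ⟨s1, s2, _⟩ := in_side hm (by omega) ha hab p
  have hc := Cuts.of_cell hm p.1 p.2.1
  have ht1 : 8 * t1 ≤ D := by
    have h1 := p.2.2.2
    have h2 := mul_le_mul_of_nonneg_right hb (by omega : (0:ℤ) ≤ D)
    have : m * (8 * t1) ≤ m * D := by linarith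
    exact le_of_mul_le_mul_left this hm
  have hmid : t1 + E ≤ 2 * K + 2 := by
    have e1 := env.hN'
    have e2 := env.hN0
    have e3 : (E + 1) * 122 ≤ (E + 1) * N :=
      mul_le_mul_of_nonneg_left e2 (by have := env.hE; omega)
    omega
  exact H env lo t0 t1 _ _ g1 g2 s1 g3 p rfl rfl hc.a1 hc.b1 hc.a2 hc.b2 hmid t g4 g5 g6
    (net_in_w env g1 g2 (by omega) rfl g5 g6 hc.a1 hc.b1 hc.a2 hc.b2 g4 (by omega) s2)
    ((dchE_le_dchcin env.toEnv (by omega) g5 g6).trans (dchcin_drop env.toEnv (by omega)))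

end

end MP61673a.Fin
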