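import Pool.Agent.Mu673.FF2
import Pool.Agent.Mu673.CkI
import Pool.Agent.Mu673.FEin

/-!
NUMERIC SIDE CONDITIONS OF THE WINDOWS (helper87): the classes on which the moving windows have a
nonnegative length, class majorants of the windows and their node tables (hypotheses `huR`, `huL` of
`row_tablesW`).
-/

set_option autoImplicit false

namespace MP61673a.FE

open Finset MP61673a.W MP61673a.Kink MP61673a.Bary MP61673a.Sos MP61673a.Fin MP61673a.KC MP61673a.CkI

noncomputable section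

/-! ### The reach of the moving windows -/

/-- the reach of the first window is nonnegative on the class -/
def okXR (q m b : ℤ) (iw : ℕ) (c : Cl) : Bool :=
  (!c.bt && decide (160 * (b * q) ≤ 80 * (m * c.na) + 21 * (m * q)))
    || (decide (iw = 1) && decide (240 * b ≤ 21 * m))

/-- the reach of the second window is nonnegative on the class -/
def okXL (q m b : ℤ) (iw : ℕ) (c : Cl) : Bool :=
  (!c.bt && decide (80 * (b * q) ≤ 160 * (m * c.na) + 21 * (m * q)))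
    || (decide (iw = 1) && decide (240 * b ≤ 21 * m))

section
variable {q m a b D K ρ t0 t1 w : ℤ} {c : Cl} {x : P3} {iw : ℕ}

lemma xRw_nonneg (hq : 0 < q) (hD : D = 4 * K + 1) (hK : 0 ≤ K) (hρ : D ≤ 40 * ρ + 39)
    (hc : CellAt m a b D t0 t1) (hw : -t1 ≤ w) (hiw : iw = 1 → w ≤ x.2)
    (h : okXR q m b iw c = true) (hx : c.has q D x) : 0 ≤ xRw K ρ t1 x := by
  unfold okXR at h
  simp only [Bool.or_eq_true, Bool.and_eq_true, Bool.not_eq_true', decide_eq_true_eq] at h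
  have hD0 : 0 ≤ D := by omega
  unfold xRw
  rcases h with ⟨hb, h⟩ | ⟨hi, h⟩
  · have hmq := mul_pos hc.m0 hq
    have u1 := mul_le_mul_of_nonneg_left (Cl.has_lo hx hb) hc.m0.le
    have u2 := mul_le_mul_of_nonneg_left hc.h1 hq.le
    have u3 := mul_le_mul_of_nonneg_right h hD0
    have e2 : m * q * 0 ≤ m * q * (21 * D + 80 * x.2 - 160 * t1) := by linarith
    have := le_of_mul_le_mul_left e2 hmq
    omega
  · have h1 := hiw hi
    have u2 := mul_le_mul_of_nonneg_right h hD0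
    have e2 : m * (240 * t1) ≤ m * (21 * D) := by
      have := hc.h1
      linarith
    have := le_of_mul_le_mul_left e2 hc.m0
    omega

lemma xLw_nonneg (hq : 0 < q) (hD : D = 4 * K + 1) (hK : 0 ≤ K) (hρ : D ≤ 40 * ρ + 39)
    (hc : CellAt m a b D t0 t1) (hw : -t1 ≤ w) (hiw : iw = 1 → w ≤ x.2)
    (h : okXL q m b iw c = true) (hx : c.has q D x) : 0 ≤ xLw K ρ t1 x := by
  unfold okXL at h
  simp only [Bool.or_eq_true, Bool.and_eq_true, Bool.not_eq_true', decide_eq_true_eq] at h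
  have hD0 : 0 ≤ D := by omega
  unfold xLw
  rcases h with ⟨hb, h⟩ | ⟨hi, h⟩
  · have hmq := mul_pos hc.m0 hq
    have u1 := mul_le_mul_of_nonneg_left (Cl.has_lo hx hb) hc.m0.le
    have u2 := mul_le_mul_of_nonneg_left hc.h1 hq.le
    have u3 := mul_le_mul_of_nonneg_right h hD0
    have e2 : m * q * 0 ≤ m * q * (21 * D + 160 * x.2 - 80 * t1) := by linarith
    have := le_of_mul_le_mul_left e2 hmq
    omega
  · have h1 := hiw hi
    have u2 := mul_le_mul_of_nonneg_right h hD0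
    have e2 : m * (240 * t1) ≤ m * (21 * D) := by
      have := hc.h1
      linarith
    have := le_of_mul_le_mul_left e2 hc.m0
    omega

/-- the first moving window lies in `s / D < 21 / 40` -/
lemma movR_le {c1 s : ℤ} (hD : D = 4 * K + 1) (hρ : 40 * ρ ≤ D) (h01 : t0 ≤ t1)
    (hc1 : c1 ≤ 2 * t0) (hx : x.2 < c1) :
    bo (0 ≤ s ∧ s < xRw K ρ t1 x) ≤ bo (40 * s < 21 * D) := by
  refine bo_mono fun h => ?_
  obtain ⟨_, h2⟩ := h
  unfold xRw at h2
  omega

/-- the second moving window lies in `s / D < 21 / 40` -/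
lemma movL_le {c2 s : ℤ} (hD : D = 4 * K + 1) (hρ : 40 * ρ ≤ D) (h01 : t0 ≤ t1)
    (hc2 : 2 * c2 ≤ t0 + 1) (hx : x.2 < c2) :
    bo (0 ≤ s ∧ s < xLw K ρ t1 x) ≤ bo (40 * s < 21 * D) := by
  refine bo_mono fun h => ?_
  obtain ⟨_, h2⟩ := h
  unfold xLw at h2
  omega

/-- the reaches are smaller than `D` -/
lemma xRw_lt {c1 : ℤ} (hD : D = 4 * K + 1) (hρ : 40 * ρ ≤ D) (h01 : t0 ≤ t1)
    (hc1 : c1 ≤ 2 * t0) (hx : x.2 < c1) : 40 * xRw K ρ t1 x < 21 * D := by
  unfold xRw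
  omega

lemma xLw_lt {c2 : ℤ} (hD : D = 4 * K + 1) (hρ : 40 * ρ ≤ D) (h01 : t0 ≤ t1)
    (hc2 : 2 * c2 ≤ t0 + 1) (hx : x.2 < c2) : 40 * xLw K ρ t1 x < 21 * D := by
  unfold xLw
  omega

end

/-! ### Windows as node tables -/

/-- class majorant of a static window (weight `sw`) and of a moving window (weight `mw`) -/
def vwin (D ρ : ℤ) (sw mw : ℝ) (s : ℤ) : ℝ :=
  sw * bo (s < D - ρ) + mw * bo (40 * s < 21 * D)

/-- node table of the windows at the right end -/
def uwR (M : ℕ) (τ : ℤ) (sw mw : ℝ) (m : ℤ) : ℝ :=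
  if m ≤ 2 * M - τ / 2 then sw + (if (59 * M - 20 * τ) / 40 ≤ m then mw else 0) else 0

/-- node table of the windows at the left end -/
def uwL (M : ℕ) (τ : ℤ) (sw mw : ℝ) (m : ℤ) : ℝ :=
  if -M - (τ + 1) / 2 ≤ m then sw + (if m ≤ -((19 * M + 20 * τ) / 40) then mw else 0) else 0

lemma uwR_nonneg {M : ℕ} {τ : ℤ} {sw mw : ℝ} (h0 : 0 ≤ sw) (h1 : 0 ≤ mw) (m : ℤ) :
    0 ≤ uwR M τ sw mw m := by
  unfold uwR
  split_ifs <;> linarith

lemma uwL_nonneg {M : ℕ} {τ : ℤ} {sw mw : ℝ} (h0 : 0 ≤ sw) (h1 : 0 ≤ mw) (m : ℤ) :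
    0 ≤ uwL M τ sw mw m := by
  unfold uwL
  split_ifs <;> linarith

lemma uwR_le {M : ℕ} {τ : ℤ} {sw mw : ℝ} (h0 : 0 ≤ sw) (h1 : 0 ≤ mw) (m : ℤ) :
    uwR M τ sw mw m ≤ sw + mw := by
  unfold uwR
  split_ifs <;> linarith

lemma uwL_le {M : ℕ} {τ : ℤ} {sw mw : ℝ} (h0 : 0 ≤ sw) (h1 : 0 ≤ mw) (m : ℤ) :
    uwL M τ sw mw m ≤ sw + mw := by
  unfold uwL
  split_ifs <;> linarith

lemma pl_ge_of {f : ℤ → ℝ} {x c : ℝ} (h0 : c ≤ f ⌊x⌋)
    (h1 : (⌊x⌋ : ℝ) < x → c ≤ f (⌊x⌋ + 1)) : c ≤ pl f x := by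
  unfold pl
  have a0 := Int.fract_nonneg x
  have a1 := Int.fract_lt_one x
  have a2 : x - (⌊x⌋ : ℝ) = Int.fract x := rfl
  by_cases hf : Int.fract x = 0
  · rw [hf]
    linarith
  · have hp : 0 < Int.fract x := lt_of_le_of_ne a0 (Ne.symm hf)
    have h2 := h1 (by linarith)
    have e1 := mul_le_mul_of_nonneg_left h0 (by linarith : 0 ≤ 1 - Int.fract x)
    have e2 := mul_le_mul_of_nonneg_left h2 a0
    linarith

/-- the windows at the right end below their node table -/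
theorem uwR_ok {M : ℕ} {σ : ℝ} {τ D ρ : ℤ} (hτ : 2 * σ = τ) (hD : 0 < D) (hρ : 40 * ρ ≤ D)
    {sw mw : ℝ} (h1 : 0 ≤ mw) {s : ℤ} (hs0 : 0 ≤ s) :
    vwin D ρ sw mw s
      ≤ if s < D - ρ then pl (uwR M τ sw mw) (yc M σ D (2 * D - s)) else 0 := by
  unfold vwin
  by_cases c : s < D - ρ
  · rw [if_pos c, bo_true c, mul_one]
    have hDr : (0:ℝ) < D := by exact_mod_cast hD
    have hsr : (0:ℝ) ≤ s := by exact_mod_cast hs0
    have hM : (0:ℝ) ≤ M := Nat.cast_nonneg M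
    have ey : yc M σ D (2 * D - s) = 2 * M - M * (s / D) - τ / 2 := by
      have hσ : σ = τ / 2 := by linarith
      unfold yc
      rw [hσ]
      push_cast
      field_simp
    set y := yc M σ D (2 * D - s) with hy
    have q0 : 0 ≤ (M:ℝ) * (s / D) := mul_nonneg hM (div_nonneg hsr hDr.le)
    have yu : y ≤ 2 * M - τ / 2 := by linarith
    have f0 : (⌊y⌋ : ℝ) ≤ y := Int.floor_le y
    have g0 : ⌊y⌋ ≤ 2 * M - τ / 2 := by
      have : (2:ℝ) * (⌊y⌋ : ℝ) ≤ 4 * M - τ := by linarith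
      have h2 : 2 * ⌊y⌋ ≤ 4 * (M:ℤ) - τ := by exact_mod_cast this
      omega
    have g1 : (⌊y⌋ : ℝ) < y → ⌊y⌋ + 1 ≤ 2 * M - τ / 2 := by
      intro hlt
      have : (2:ℝ) * (⌊y⌋ : ℝ) < 4 * M - τ := by linarith
      have h2 : 2 * ⌊y⌋ < 4 * (M:ℤ) - τ := by exact_mod_cast this
      omega
    have g2 : 40 * s < 21 * D → (59 * (M:ℤ) - 20 * τ) / 40 ≤ ⌊y⌋ := by
      intro hs
      rw [Int.le_floor]
      have hsr2 : (40:ℝ) * s ≤ 21 * D := by exact_mod_cast hs.le
      have h3 : (s:ℝ) / D ≤ 21 / 40 := by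
        rw [div_le_iff₀ hDr]
        linarith
      have h4 := mul_le_mul_of_nonneg_left h3 hM
      have h5 : 40 * ((59 * (M:ℤ) - 20 * τ) / 40) ≤ 59 * (M:ℤ) - 20 * τ := by omega
      have h6 : (40:ℝ) * (((59 * (M:ℤ) - 20 * τ) / 40 : ℤ) : ℝ) ≤ 59 * M - 20 * τ := by
        exact_mod_cast h5
      linarith
    refine pl_ge_of ?_ fun hlt => ?_
    · unfold uwR
      rw [if_pos g0]
      by_cases hs : 40 * s < 21 * D
      · rw [bo_true hs, if_pos (g2 hs)]
        linarith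
      · rw [bo_false hs]
        split_ifs <;> linarith
    · unfold uwR
      rw [if_pos (g1 hlt)]
      by_cases hs : 40 * s < 21 * D
      · have := g2 hs
        rw [bo_true hs, if_pos (by omega)]
        linarith
      · rw [bo_false hs]
        split_ifs <;> linarith
  · rw [if_neg c, bo_false c, bo_false (by omega)]
    linarith

/-- the windows at the left end below their node table -/
theorem uwL_ok {M : ℕ} {σ : ℝ} {τ D ρ : ℤ} (hτ : 2 * σ = τ) (hD : 0 < D) (hρ : 40 * ρ ≤ D)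
    {sw mw : ℝ} (h1 : 0 ≤ mw) {s : ℤ} (hs0 : 0 ≤ s) :
    vwin D ρ sw mw s
      ≤ if s < D - ρ then pl (uwL M τ sw mw) (yc M σ D (s - D)) else 0 := by
  unfold vwin
  by_cases c : s < D - ρ
  · rw [if_pos c, bo_true c, mul_one]
    have hDr : (0:ℝ) < D := by exact_mod_cast hD
    have hsr : (0:ℝ) ≤ s := by exact_mod_cast hs0
    have hM : (0:ℝ) ≤ M := Nat.cast_nonneg M
    have ey : yc M σ D (s - D) = M * (s / D) - M - τ / 2 := by
      have hσ : σ = τ / 2 := by linarith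
      unfold yc
      rw [hσ]
      push_cast
      field_simp
    set y := yc M σ D (s - D) with hy
    have q0 : 0 ≤ (M:ℝ) * (s / D) := mul_nonneg hM (div_nonneg hsr hDr.le)
    have g0 : -(M:ℤ) - (τ + 1) / 2 ≤ ⌊y⌋ := by
      rw [Int.le_floor]
      have h5 : 2 * (-(M:ℤ) - (τ + 1) / 2) ≤ -2 * (M:ℤ) - τ := by omega
      have h6 : (2:ℝ) * ((-(M:ℤ) - (τ + 1) / 2 : ℤ) : ℝ) ≤ -2 * M - τ := by exact_mod_cast h5
      linarith
    have f0 : (⌊y⌋ : ℝ) ≤ y := Int.floor_le y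
    -- upper bound of the floor in the moving window
    have g2 : 40 * s < 21 * D → (⌊y⌋ : ℝ) < y ∨ 0 < M →
        ⌊y⌋ + 1 ≤ -((19 * (M:ℤ) + 20 * τ) / 40) := by
      intro hs hor
      have hsr2 : (40:ℝ) * s < 21 * D := by exact_mod_cast hs
      have h3 : (s:ℝ) / D < 21 / 40 := by
        rw [div_lt_iff₀ hDr]
        linarith
      have h4 := mul_le_mul_of_nonneg_left h3.le hM
      have hlt : (⌊y⌋ : ℝ) < -(19 * M + 20 * τ) / 40 := by
        rcases hor with hlt | hM0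
        · linarith
        · have hM1 : (0:ℝ) < M := by exact_mod_cast hM0
          have h5 := mul_lt_mul_of_pos_left h3 hM1
          linarith
      have h6 : (40:ℝ) * (⌊y⌋ : ℝ) < -(19 * M + 20 * τ) := by linarith
      have h7 : 40 * ⌊y⌋ < -(19 * (M:ℤ) + 20 * τ) := by exact_mod_cast h6
      omega
    have g3 : 40 * s < 21 * D → ⌊y⌋ ≤ -((19 * (M:ℤ) + 20 * τ) / 40) := by
      intro hs
      have hsr2 : (40:ℝ) * s < 21 * D := by exact_mod_cast hs
      have h3 : (s:ℝ) / D < 21 / 40 := by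
        rw [div_lt_iff₀ hDr]
        linarith
      have h4 := mul_le_mul_of_nonneg_left h3.le hM
      have h6 : (40:ℝ) * (⌊y⌋ : ℝ) ≤ -(19 * M + 20 * τ) := by linarith
      have h7 : 40 * ⌊y⌋ ≤ -(19 * (M:ℤ) + 20 * τ) := by exact_mod_cast h6
      omega
    refine pl_ge_of ?_ fun hlt => ?_
    · unfold uwL
      rw [if_pos g0]
      by_cases hs : 40 * s < 21 * D
      · rw [bo_true hs, if_pos (g3 hs)]
        linarith
      · rw [bo_false hs]
        split_ifs <;> linarith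
    · unfold uwL
      rw [if_pos (by omega)]
      by_cases hs : 40 * s < 21 * D
      · rw [bo_true hs, if_pos (g2 hs (Or.inl hlt))]
        linarith
      · rw [bo_false hs]
        split_ifs <;> linarith
  · rw [if_neg c, bo_false c, bo_false (by omega)]
    linarith

end

end MP61673a.FE
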