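import Pool.Agent.Mu673.FF1
import Pool.Agent.Mu673.FFw

/-!
THE CLASS DATA OF THE MIXED FORM FROM THE DESCRIPTORS (helper87). `FlgF` of helper56 for the window
flags `nW1`, `nW2` of helper40 (exact), the weights `om1`, `om2` of the exchange form and the flags of
`CkI`; majorants and sum of the additional prices.
-/

set_option autoImplicit false

namespace MP61673a.FE

open Finset MP61673a.W MP61673a.Kink MP61673a.Bary MP61673a.Sos MP61673a.Fin MP61673a.KC MP61673a.CkI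

noncomputable section

/-! ### Class functions -/

/-- flag of the first window of a class -/
def wF1 (q m a b : ℤ) (iw : ℕ) (c : Cl) : ℝ :=
  if c.sd = true then 0 else ((nW1 q m a b iw c : ℤ) : ℝ)

/-- flag of the second window of a class -/
def wF2 (q m a b : ℤ) (iw : ℕ) (c : Cl) : ℝ :=
  if c.sd = true then 0 else ((nW2 q m a b iw c : ℤ) : ℝ)

/-- the class lies beyond the first window -/
def oF1 (q m a : ℤ) (c : Cl) : ℝ := if c.sd = false ∧ abv q (2 * a) m c = true then 1 else 0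

/-- the class lies beyond the second window -/
def oF2 (q m a : ℤ) (c : Cl) : ℝ := if c.sd = false ∧ abv q a (2 * m) c = true then 1 else 0

/-- weight of the first moving window -/
def mF1 (q m a b : ℤ) (iw : ℕ) (om : ℝ) (c : Cl) : ℝ :=
  if okXR q m b iw c = true then om * wF1 q m a b iw c else 0

/-- weight of the second moving window -/
def mF2 (q m a b : ℤ) (iw : ℕ) (om : ℝ) (c : Cl) : ℝ :=
  if okXL q m b iw c = true then om * wF2 q m a b iw c else 0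

/-- pairs beyond `2 D` -/
def eF1 (q m a b : ℤ) (iw : ℕ) (om : ℝ) (c : Cl) : ℝ :=
  if okXR q m b iw c = true then 0 else om * wF1 q m a b iw c

/-- pairs below `-D` -/
def eF2 (q m a b : ℤ) (iw : ℕ) (om : ℝ) (c : Cl) : ℝ :=
  if okXL q m b iw c = true then 0 else om * wF2 q m a b iw c

lemma nW1_01 (q m a b : ℤ) (iw : ℕ) (c : Cl) : nW1 q m a b iw c = 0 ∨ nW1 q m a b iw c = 1 := by
  unfold nW1
  split_ifs <;> simp

lemma nW2_01 (q m a b : ℤ) (iw : ℕ) (c : Cl) : nW2 q m a b iw c = 0 ∨ nW2 q m a b iw c = 1 := by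
  unfold nW2
  split_ifs <;> simp

lemma wF1_nonneg (q m a b : ℤ) (iw : ℕ) (c : Cl) : 0 ≤ wF1 q m a b iw c := by
  unfold wF1
  split_ifs
  · exact le_refl _
  · rcases nW1_01 q m a b iw c with h | h <;> rw [h] <;> norm_num

lemma wF2_nonneg (q m a b : ℤ) (iw : ℕ) (c : Cl) : 0 ≤ wF2 q m a b iw c := by
  unfold wF2
  split_ifs
  · exact le_refl _
  · rcases nW2_01 q m a b iw c with h | h <;> rw [h] <;> norm_num

variable {C : Type} {M : ℕ} {σ δ : ℝ} {D K ρ : ℤ} {kL kR : ℝ}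

/-- THE CLASS DATA FROM THE DESCRIPTORS -/
theorem flgF_cls {G : GrdD C M σ δ D K ρ kL kR} {ds : C → Cl} {iw : C → ℕ}
    {q m a b E w t0 t1 c1 c2 : ℤ} (hq : 0 < q) (hD : D = 4 * K + 1) (hK : 10000 ≤ K)
    (hρ : ρ = rhoE D) (hDm : 39 * (m * q) < D) (hE : 122 * (E + 1) ≤ 3 * D + 12)
    (hc : CellAt m a b D t0 t1) (hw : -t1 ≤ w) (hw' : w ≤ 1 - t0)
    (k1 : CutUp (2 * a) m D c1) (k1' : CutDn (2 * a) m D c1)
    (k2 : CutUp a (2 * m) D c2) (k2' : CutDn a (2 * m) D c2)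
    (hcl : ∀ x : P4, G.ok x → (ds (G.cl x)).has q D x.2)
    (hi1 : ∀ x : P4, G.ok x → iw (G.cl x) = 1 → w ≤ x.2.2)
    (hi2 : ∀ x : P4, G.ok x → iw (G.cl x) = 2 → x.2.2 < w)
    (ho1 : ∀ c, (ds c).sd = false → ok1 q m a b (iw c) (ds c) = true)
    (ho2 : ∀ c, (ds c).sd = false → ok2 q m a b (iw c) (ds c) = true)
    {om1 om2 : C → ℝ} (hom : ∀ c, 0 ≤ om1 c ∧ om1 c ≤ 1 ∧ 0 ≤ om2 c ∧ om2 c ≤ 1)
    {cF2 vF2 cM0 vM0 cM1 vM1 cK1 vK1 cK2 vK2 h1 h0 h2 h3 vO vA : C → ℝ}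
    (hF2 : ∀ c, (ds c).sd = true → ((ff2 q m a b (ds c) : ℤ) : ℝ) ≤ cF2 c + vF2 c)
    (hM0 : ∀ c, (ds c).sd = true → 1 / 2 * ((nM0 q m b (ds c) : ℤ) : ℝ) ≤ cM0 c + vM0 c)
    (hM1 : ∀ c, (ds c).sd = true → 1 / 2 * ((nM1 q m b (ds c) : ℤ) : ℝ) ≤ cM1 c + vM1 c)
    (hK1 : ∀ c, (ds c).sd = true → ((nK1 q m b (ds c) : ℤ) : ℝ) ≤ cK1 c + vK1 c)
    (hK2 : ∀ c, (ds c).sd = true → ((nK2 q m b (ds c) : ℤ) : ℝ) ≤ cK2 c + vK2 c)
    (hH : ∀ c, h1 c ≤ 1 ∧ h0 c ≤ 1 ∧ h2 c ≤ 1 ∧ h3 c ≤ 1)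
    (hO : ∀ c, (ds c).sd = true → vO c ≤ ((gO q m a (ds c) : ℤ) : ℝ))
    (hA : ∀ c, (ds c).sd = true → vA c ≤ ((gA q m a b (ds c) : ℤ) : ℝ))
    (nn : ∀ c, 0 ≤ cF2 c ∧ 0 ≤ vF2 c ∧ 0 ≤ cM0 c ∧ 0 ≤ vM0 c ∧ 0 ≤ cM1 c
      ∧ 0 ≤ vM1 c ∧ 0 ≤ cK1 c ∧ 0 ≤ vK1 c ∧ 0 ≤ cK2 c ∧ 0 ≤ vK2 c)
    (nnH : ∀ c, 0 ≤ h1 c ∧ 0 ≤ h0 c ∧ 0 ≤ h2 c ∧ 0 ≤ h3 c)
    (zP : ∀ c, (ds c).sd = false → cF2 c = 0 ∧ vF2 c = 0 ∧ cM0 c = 0 ∧ vM0 c = 0 ∧ cM1 c = 0
      ∧ vM1 c = 0 ∧ cK1 c = 0 ∧ vK1 c = 0 ∧ cK2 c = 0 ∧ vK2 c = 0 ∧ h1 c = 0 ∧ h0 c = 0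
      ∧ h2 c = 0 ∧ h3 c = 0 ∧ vO c = 0 ∧ vA c = 0) :
    FlgF G E w t0 t1 c1 c2 (fun c => (ds c).sd)
      (fun c => wF1 q m a b (iw c) (ds c)) (fun c => wF2 q m a b (iw c) (ds c))
      (fun c => wF1 q m a b (iw c) (ds c)) (fun c => wF2 q m a b (iw c) (ds c))
      (fun c => oF1 q m a (ds c)) (fun c => oF2 q m a (ds c))
      (fun c => om1 c * wF1 q m a b (iw c) (ds c)) (fun c => om2 c * wF2 q m a b (iw c) (ds c))
      (fun c => mF1 q m a b (iw c) (om1 c) (ds c)) (fun c => mF2 q m a b (iw c) (om2 c) (ds c))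
      (fun c => eF1 q m a b (iw c) (om1 c) (ds c)) (fun c => eF2 q m a b (iw c) (om2 c) (ds c))
      cF2 vF2 cM0 vM0 cM1 vM1 cK1 vK1 cK2 vK2 h1 h0 h2 h3 vO vA := by
  have hD0 : 0 < D := by omega
  have hm := hc.m0
  have h2m : (0:ℤ) < 2 * m := by omega
  have hρ' : D ≤ 40 * ρ + 39 := by
    rw [hρ]
    exact (rho_le D).2
  have side : ∀ x : P4, G.ok x → x.2.1 = (ds (G.cl x)).sd := fun x hx => (hcl x hx).1
  have eW1 : ∀ x : P4, G.ok x → x.2.1 = false →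
      wF1 q m a b (iw (G.cl x)) (ds (G.cl x)) = bo (w ≤ x.2.2 ∧ x.2.2 < c1) := by
    intro x hx hs
    have hsd : (ds (G.cl x)).sd = false := by rw [← side x hx, hs]
    unfold wF1
    rw [if_neg (by rw [hsd]; simp)]
    exact nW1_eq hq hD0 hc hw hw' k1 k1' (hi2 x hx) (hi1 x hx) (ho1 _ hsd) (hcl x hx)
  have eW2 : ∀ x : P4, G.ok x → x.2.1 = false →
      wF2 q m a b (iw (G.cl x)) (ds (G.cl x)) = bo (w ≤ x.2.2 ∧ x.2.2 < c2) := by
    intro x hx hs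
    have hsd : (ds (G.cl x)).sd = false := by rw [← side x hx, hs]
    unfold wF2
    rw [if_neg (by rw [hsd]; simp)]
    exact nW2_eq hq hD0 hc hw hw' k2 k2' (hi2 x hx) (hi1 x hx) (ho2 _ hsd) (hcl x hx)
  have aux : ∀ (u v : ℝ), 0 ≤ u → u ≤ 1 → 0 ≤ v → 0 ≤ u * v ∧ u * v ≤ v := by
    intro u v h0 h1 hv
    have := mul_le_mul_of_nonneg_right h1 hv
    exact ⟨mul_nonneg h0 hv, by linarith⟩
  refine
    { hsd := fun x hx => (side x hx).symm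
      hw1 := fun x hx hs => (eW1 x hx hs).le
      hw2 := fun x hx hs => (eW2 x hx hs).le
      hq1 := fun x hx hs => (eW1 x hx hs).ge
      hq2 := fun x hx hs => (eW2 x hx hs).ge
      ho1 := ?_, ho2 := ?_, ha1 := ?_, ha2 := ?_, hxR := ?_, hxL := ?_, he1 := ?_, he2 := ?_
      hF2 := ?_, hMQ0 := ?_, hMQ1 := ?_, hK1 := ?_, hK2 := ?_
      hH := hH
      hO := ?_, hA := ?_, nonneg := ?_, nonnegH := ?_
      zP := zP
      zQ := ?_ }
  · intro x hx _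
    unfold oF1
    split_ifs with h
    · rw [bo_true (abv_ge hm hq hD0 k1 h.2 (hcl x hx))]
    · exact bo_nonneg _
  · intro x hx _
    unfold oF2
    split_ifs with h
    · rw [bo_true (abv_ge h2m hq hD0 k2 h.2 (hcl x hx))]
    · exact bo_nonneg _
  · intro c
    obtain ⟨p0, p1, _, _⟩ := hom c
    obtain ⟨r0, r1⟩ := aux _ _ p0 p1 (wF1_nonneg q m a b (iw c) (ds c))
    unfold mF1
    split_ifs
    · exact ⟨r0, le_refl _, r1⟩
    · exact ⟨le_refl _, r0, r1⟩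
  · intro c
    obtain ⟨_, _, p0, p1⟩ := hom c
    obtain ⟨r0, r1⟩ := aux _ _ p0 p1 (wF2_nonneg q m a b (iw c) (ds c))
    unfold mF2
    split_ifs
    · exact ⟨r0, le_refl _, r1⟩
    · exact ⟨le_refl _, r0, r1⟩
  · intro x hx _ hm1
    unfold mF1 at hm1
    by_cases h : okXR q m b (iw (G.cl x)) (ds (G.cl x)) = true
    · exact xRw_nonneg hq hD (by omega) hρ' hc hw (hi1 x hx) h (hcl x hx)
    · rw [if_neg h] at hm1
      exact absurd rfl hm1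
  · intro x hx _ hm1
    unfold mF2 at hm1
    by_cases h : okXL q m b (iw (G.cl x)) (ds (G.cl x)) = true
    · exact xLw_nonneg hq hD (by omega) hρ' hc hw (hi1 x hx) h (hcl x hx)
    · rw [if_neg h] at hm1
      exact absurd rfl hm1
  · intro x hx _
    obtain ⟨p0, p1, _, _⟩ := hom (G.cl x)
    obtain ⟨r0, r1⟩ := aux _ _ p0 p1 (wF1_nonneg q m a b (iw (G.cl x)) (ds (G.cl x)))
    unfold eF1
    by_cases h : okXR q m b (iw (G.cl x)) (ds (G.cl x)) = true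
    · rw [if_pos h]
      have := xRw_nonneg (K := K) (ρ := ρ) hq hD (by omega) hρ' hc hw (hi1 x hx) h (hcl x hx)
      rw [bo_false (by omega), mul_zero]
    · rw [if_neg h]
      exact mul_le_of_le_one_right r0 (bo_le_one _)
  · intro x hx _
    obtain ⟨_, _, p0, p1⟩ := hom (G.cl x)
    obtain ⟨r0, r1⟩ := aux _ _ p0 p1 (wF2_nonneg q m a b (iw (G.cl x)) (ds (G.cl x)))
    unfold eF2
    by_cases h : okXL q m b (iw (G.cl x)) (ds (G.cl x)) = true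
    · rw [if_pos h]
      have := xLw_nonneg (K := K) (ρ := ρ) hq hD (by omega) hρ' hc hw (hi1 x hx) h (hcl x hx)
      rw [bo_false (by omega), mul_zero]
    · rw [if_neg h]
      exact mul_le_of_le_one_right r0 (bo_le_one _)
  · intro x hx hs
    have hsd : (ds (G.cl x)).sd = true := by rw [← side x hx, hs]
    have e := ff2_ge hq hD (by omega) hc (hcl x hx)
    refine le_trans (bo_mono fun h => h.1) (e.trans (hF2 _ hsd))
  · intro x hx hs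
    have hsd : (ds (G.cl x)).sd = true := by rw [← side x hx, hs]
    have e := nM0_ge hq hD0 hDm hc (hcl x hx)
    rw [← hρ] at e
    exact e.trans (hM0 _ hsd)
  · intro x hx hs
    have hsd : (ds (G.cl x)).sd = true := by rw [← side x hx, hs]
    have e := nM1_ge hq (by omega) hc hE (hcl x hx)
    rw [← hρ] at e
    exact e.trans (hM1 _ hsd)
  · intro x hx hs
    have hsd : (ds (G.cl x)).sd = true := by rw [← side x hx, hs]
    have e := nK1_ge hq hDm hc (hcl x hx)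
    rw [← hρ] at e
    exact e.trans (hK1 _ hsd)
  · intro x hx hs
    have hsd : (ds (G.cl x)).sd = true := by rw [← side x hx, hs]
    have e := nK2_ge hq hD0 hc (hcl x hx)
    rw [← hρ] at e
    exact e.trans (hK2 _ hsd)
  · intro x hx hs
    have hsd : (ds (G.cl x)).sd = true := by rw [← side x hx, hs]
    have e := gO_le hq hD0 hc (hcl x hx)
    rw [← hρ] at e
    exact (hO _ hsd).trans e
  · intro x hx hs
    have hsd : (ds (G.cl x)).sd = true := by rw [← side x hx, hs]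
    exact (hA _ hsd).trans (gA_le hq hD (by omega) hc (hcl x hx))
  · intro c
    obtain ⟨p0, p1, p2, p3⟩ := hom c
    have r1 := (aux _ _ p0 p1 (wF1_nonneg q m a b (iw c) (ds c))).1
    have r2 := (aux _ _ p2 p3 (wF2_nonneg q m a b (iw c) (ds c))).1
    refine ⟨?_, ?_, nn c⟩
    · unfold eF1
      split_ifs
      · exact le_refl _
      · exact r1
    · unfold eF2
      split_ifs
      · exact le_refl _
      · exact r2
  · intro c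
    obtain ⟨n1, n2, n3, n4⟩ := nnH c
    refine ⟨n1, n2, n3, n4, ?_, ?_⟩
    · unfold oF1
      split_ifs <;> norm_num
    · unfold oF2
      split_ifs <;> norm_num
  · intro c hs
    unfold wF1 wF2
    rw [if_pos hs, if_pos hs]
    exact ⟨rfl, rfl⟩

/-! ### The additional prices -/

section
variable {G : GrdD C M σ δ D K ρ kL kR} {E w t0 t1 c1 c2 : ℤ} {sd : C → Bool}
  {w1 w2 q1 q2 o1 o2 a1 a2 m1 m2 e1 e2 : C → ℝ}
  {cF2 vF2 cM0 vM0 cM1 vM1 cK1 vK1 cK2 vK2 h1 h0 h2 h3 vO vA : C → ℝ}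

/-- a class with a first moving window lies in the first window -/
lemma FlgF.m1_pos (h : FlgF G E w t0 t1 c1 c2 sd w1 w2 q1 q2 o1 o2 a1 a2 m1 m2 e1 e2 cF2 vF2 cM0
    vM0 cM1 vM1 cK1 vK1 cK2 vK2 h1 h0 h2 h3 vO vA) {x : P4} (hx : G.ok x)
    (hm : m1 (G.cl x) ≠ 0) : x.2.1 = false ∧ w ≤ x.2.2 ∧ x.2.2 < c1 := by
  obtain ⟨p0, p1, p2⟩ := h.ha1 (G.cl x)
  have hp : 0 < m1 (G.cl x) := lt_of_le_of_ne p0 (Ne.symm hm)
  have hs : x.2.1 = false := by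
    rcases hs : x.2.1 with _ | _
    · rfl
    · have := (h.zQ (G.cl x) (by rw [h.hsd x hx, hs])).1
      linarith
  refine ⟨hs, ?_⟩
  by_contra hc
  have := h.hw1 x hx hs
  rw [bo_false hc] at this
  linarith

/-- a class with a second moving window lies in the second window -/
lemma FlgF.m2_pos (h : FlgF G E w t0 t1 c1 c2 sd w1 w2 q1 q2 o1 o2 a1 a2 m1 m2 e1 e2 cF2 vF2 cM0
    vM0 cM1 vM1 cK1 vK1 cK2 vK2 h1 h0 h2 h3 vO vA) {x : P4} (hx : G.ok x)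
    (hm : m2 (G.cl x) ≠ 0) : x.2.1 = false ∧ w ≤ x.2.2 ∧ x.2.2 < c2 := by
  obtain ⟨p0, p1, p2⟩ := h.ha2 (G.cl x)
  have hp : 0 < m2 (G.cl x) := lt_of_le_of_ne p0 (Ne.symm hm)
  have hs : x.2.1 = false := by
    rcases hs : x.2.1 with _ | _
    · rfl
    · have := (h.zQ (G.cl x) (by rw [h.hsd x hx, hs])).2
      linarith
  refine ⟨hs, ?_⟩
  by_contra hc
  have := h.hw2 x hx hs
  rw [bo_false hc] at this
  linarith

/-- the additional prices of the right labels below the class majorant -/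
theorem FlgF.wR_le (h : FlgF G E w t0 t1 c1 c2 sd w1 w2 q1 q2 o1 o2 a1 a2 m1 m2 e1 e2 cF2 vF2 cM0
    vM0 cM1 vM1 cK1 vK1 cK2 vK2 h1 h0 h2 h3 vO vA) (hD : D = 4 * K + 1) (hρ : 40 * ρ ≤ D)
    (h01 : t0 ≤ t1) (hc1 : c1 ≤ 2 * t0) {s2 : C → ℝ} (hs2 : ∀ c, 0 ≤ s2 c)
    {x : P4} (hx : G.ok x) (s : ℤ) :
    wR G t1 m1 s2 x s ≤ vwin D ρ (s2 (G.cl x)) (m1 (G.cl x)) s := by
  unfold wR vwin
  have e1 := mul_le_mul_of_nonneg_left
    (bo_mono (p := 0 ≤ s ∧ s < D - ρ) (q := s < D - ρ) (fun h => h.2)) (hs2 (G.cl x))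
  have e2 : m1 (G.cl x) * bo (0 ≤ s ∧ s < xRw K ρ t1 x.2)
      ≤ m1 (G.cl x) * bo (40 * s < 21 * D) := by
    by_cases c : m1 (G.cl x) = 0
    · rw [c, zero_mul, zero_mul]
    · obtain ⟨_, _, k⟩ := h.m1_pos hx c
      exact mul_le_mul_of_nonneg_left (movR_le hD hρ h01 hc1 k) (h.ha1 _).1
  linarith

/-- the additional prices of the left labels below the class majorant -/
theorem FlgF.wL_le (h : FlgF G E w t0 t1 c1 c2 sd w1 w2 q1 q2 o1 o2 a1 a2 m1 m2 e1 e2 cF2 vF2 cM0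
    vM0 cM1 vM1 cK1 vK1 cK2 vK2 h1 h0 h2 h3 vO vA) (hD : D = 4 * K + 1) (hρ : 40 * ρ ≤ D)
    (h01 : t0 ≤ t1) (hc2 : 2 * c2 ≤ t0 + 1) {s1 : C → ℝ} (hs1 : ∀ c, 0 ≤ s1 c)
    {x : P4} (hx : G.ok x) (s : ℤ) :
    wL G t1 m2 s1 x s ≤ vwin D ρ (s1 (G.cl x)) (m2 (G.cl x)) s := by
  unfold wL vwin
  have e1 := mul_le_mul_of_nonneg_left
    (bo_mono (p := 0 ≤ s ∧ s < D - ρ) (q := s < D - ρ) (fun h => h.2)) (hs1 (G.cl x))
  have e2 : m2 (G.cl x) * bo (0 ≤ s ∧ s < xLw K ρ t1 x.2)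
      ≤ m2 (G.cl x) * bo (40 * s < 21 * D) := by
    by_cases c : m2 (G.cl x) = 0
    · rw [c, zero_mul, zero_mul]
    · obtain ⟨_, _, k⟩ := h.m2_pos hx c
      exact mul_le_mul_of_nonneg_left (movL_le hD hρ h01 hc2 k) (h.ha2 _).1
  linarith

/-- the additional prices are nonnegative -/
theorem FlgF.w_nonneg (h : FlgF G E w t0 t1 c1 c2 sd w1 w2 q1 q2 o1 o2 a1 a2 m1 m2 e1 e2 cF2 vF2
    cM0 vM0 cM1 vM1 cK1 vK1 cK2 vK2 h1 h0 h2 h3 vO vA) {s1 s2 : C → ℝ} (hs1 : ∀ c, 0 ≤ s1 c)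
    (hs2 : ∀ c, 0 ≤ s2 c) (x : P4) (s : ℤ) : 0 ≤ wR G t1 m1 s2 x s ∧ 0 ≤ wL G t1 m2 s1 x s := by
  unfold wR wL
  exact ⟨add_nonneg (mul_nonneg (h.ha1 _).1 (bo_nonneg _)) (mul_nonneg (hs2 _) (bo_nonneg _)),
    add_nonneg (mul_nonneg (hs1 _) (bo_nonneg _)) (mul_nonneg (h.ha2 _).1 (bo_nonneg _))⟩

/-- the sum of the additional prices -/
theorem FlgF.sum_w (h : FlgF G E w t0 t1 c1 c2 sd w1 w2 q1 q2 o1 o2 a1 a2 m1 m2 e1 e2 cF2 vF2
    cM0 vM0 cM1 vM1 cK1 vK1 cK2 vK2 h1 h0 h2 h3 vO vA) (hD : D = 4 * K + 1) (hK : 0 ≤ K)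
    (hρ0 : 0 ≤ ρ) (hρD : ρ < D) (hρ : 40 * ρ ≤ D) (h01 : t0 ≤ t1) (hc1 : c1 ≤ 2 * t0)
    (hc2 : 2 * c2 ≤ t0 + 1) (s1 s2 : C → ℝ) {x : P4} (hx : G.ok x) :
    swF G t1 m1 m2 s1 s2 x
      ≤ ∑ s ∈ Ico 0 D, (wR G t1 m1 s2 x s + wL G t1 m2 s1 x s) := by
  refine sum_wRL G (by omega) hρ0 hρD (h.ha1 _).1 (h.ha2 _).1 (fun c => ?_) (fun c => ?_)
  · obtain ⟨_, _, k⟩ := h.m1_pos hx c
    have := xRw_lt (K := K) hD hρ h01 hc1 k
    omega
  · obtain ⟨_, _, k⟩ := h.m2_pos hx c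
    have := xLw_lt (K := K) hD hρ h01 hc2 k
    omega

end

end

end MP61673a.FE
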