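import Pool.Agent.Mu673.FF3a
import Pool.Agent.Mu673.FF3

/-!
INTEGER FORM OF THE ZONE CONSTANTS OF THE MIXED FORM (helper87): `kzF` for weights `n / N`, class
bounds of the deep charge `aRinc`, `aLc` of an IN cell.
-/

set_option autoImplicit false

namespace MP61673a.FE

open Finset MP61673a.W MP61673a.Kink MP61673a.Bary MP61673a.Sos MP61673a.Fin MP61673a.KC MP61673a.CkI

noncomputable section

/-- integer version of `effc` -/
def effcI (vi vo : Bool) (a : ℤ) : ℤ := if vi then a else if vo then 0 else max a 0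

/-- integer version of `kzF` -/
def kzFI (cy cz vi vo : Bool) (a b e g s1 s2 a1 a2 e1 e2 m1 m2 k1 k2 : ℤ) (i : ℕ) : ℤ :=
  (if cy = false ∧ cz = false ∧ i ≤ 1 then effcI vi vo a else 0)
    + (if cy = true ∧ cz = true ∧ 7 ≤ i then effcI vi vo b else 0)
    + (if cy = true ∧ cz = false ∧ 3 ≤ i then e else 0)
    + (if cy = false ∧ cz = true ∧ i ≤ 5 then g else 0)
    + (if i = 1 then s1 else 0) + (if i = 7 then s2 else 0)
    + (if cy = false ∧ cz = true ∧ i ≤ 7 then a1 else 0)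
    + (if cy = true ∧ cz = false ∧ 1 ≤ i then a2 else 0)
    + (if cy = false ∧ cz = true ∧ i = 8 then e1 else 0)
    + (if cy = true ∧ cz = false ∧ i = 0 then e2 else 0)
    - (if cy = cz ∧ i = 8 then m1 else 0) - (if cy = cz ∧ i = 0 then m2 else 0)
    + (if i ≤ 1 then k1 else 0) + (if i ≤ 2 then k2 else 0)

lemma effc_int {N : ℝ} (hN : 0 < N) (vi vo : Bool) (a : ℤ) :
    effc vi vo ((a:ℝ) / N) = (effcI vi vo a : ℝ) / N := by
  unfold effc effcI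
  split_ifs
  · rfl
  · simp
  · rw [Int.cast_max, Int.cast_zero, ← max_div_div_right hN.le (a:ℝ) 0, zero_div]

/-- THE ZONE CONSTANTS IN INTEGERS -/
theorem kzF_int {N : ℝ} (hN : 0 < N) (cy cz vi vo : Bool)
    (a b e g s1 s2 a1 a2 e1 e2 m1 m2 k1 k2 : ℤ) (i : Fin 9) :
    kzF cy cz vi vo ((a:ℝ) / N) ((b:ℝ) / N) ((e:ℝ) / N) ((g:ℝ) / N) ((s1:ℝ) / N) ((s2:ℝ) / N)
        ((a1:ℝ) / N) ((a2:ℝ) / N) ((e1:ℝ) / N) ((e2:ℝ) / N) ((m1:ℝ) / N) ((m2:ℝ) / N)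
        ((k1:ℝ) / N) ((k2:ℝ) / N) i
      = (kzFI cy cz vi vo a b e g s1 s2 a1 a2 e1 e2 m1 m2 k1 k2 (i : ℕ) : ℝ) / N := by
  have ite_div : ∀ (p : Prop) [Decidable p] (u : ℤ),
      (if p then (u:ℝ) / N else 0) = ((if p then u else 0 : ℤ) : ℝ) / N := by
    intro p _ u
    split_ifs <;> simp
  unfold kzF kzFI
  rw [effc_int hN, effc_int hN]
  simp only [ite_div]
  have c0 : (i ≤ 1) = ((i : ℕ) ≤ 1) := rfl
  have c1 : (7 ≤ i) = (7 ≤ (i : ℕ)) := rfl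
  have c2 : (3 ≤ i) = (3 ≤ (i : ℕ)) := rfl
  have c3 : (i ≤ 5) = ((i : ℕ) ≤ 5) := rfl
  have c4 : (i ≤ 7) = ((i : ℕ) ≤ 7) := rfl
  have c5 : (1 ≤ i) = (1 ≤ (i : ℕ)) := rfl
  have c6 : (i ≤ 2) = ((i : ℕ) ≤ 2) := rfl
  have d0 : (i = 0) = ((i : ℕ) = 0) := propext Fin.ext_iff
  have d1 : (i = 1) = ((i : ℕ) = 1) := propext Fin.ext_iff
  have d7 : (i = 7) = ((i : ℕ) = 7) := propext Fin.ext_iff
  have d8 : (i = 8) = ((i : ℕ) = 8) := propext Fin.ext_iff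
  simp only [c0, c1, c2, c3, c4, c5, c6, d0, d1, d7, d8]
  push_cast
  ring

/-- the constants are monotone in the coefficients of the four constant kernels and costs -/
lemma effcI_mono {vi vo : Bool} {a b : ℤ} (h : a ≤ b) : effcI vi vo a ≤ effcI vi vo b := by
  unfold effcI
  split_ifs
  · exact h
  · exact le_refl _
  · exact max_le_max h (le_refl _)

/-! ### The deep charge -/

/-- twice the class bound of `aRinc` -/
def ceI (q m b : ℤ) (c : Cl) : ℤ := if c.sd = true then nM0 q m b c + nM1 q m b c else 0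

/-- twice the class bound of `aLc` -/
def cgI (q m a b : ℤ) (c : Cl) : ℤ := if c.sd = true then 2 * ff2 q m a b c else 0

lemma aRinc_le_ce {q m a b D K E t0 t1 : ℤ} {c : Cl} {x : P3} (hq : 0 < q)
    (hD : D = 4 * K + 1) (hK : 10000 ≤ K) (hDm : 39 * (m * q) < D) (hE0 : 0 ≤ E)
    (hE : 122 * (E + 1) ≤ 3 * D + 12) (hmid : t1 + E ≤ 2 * K + 2)
    (hc : CellAt m a b D t0 t1) (hx2 : 2 * x.2 ≤ 4 * K) (hx : c.has q D x) :
    aRinc D (rhoE D) E t1 x ≤ (ceI q m b c : ℝ) / 2 := by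
  have hD0 : 0 < D := by omega
  unfold aRinc ceI
  have hs := hx.1
  rcases h : x.1 with _ | _
  · rw [h] at hs
    rw [if_pos rfl, if_neg (by rw [← hs]; simp), bo_false (by omega), bo_false (by omega)]
    norm_num
  · rw [h] at hs
    rw [if_neg (by simp), if_pos hs.symm]
    have e0 := nM0_ge hq hD0 hDm hc hx
    have e1 := nM1_ge hq (by omega) hc hE hx
    have o := omc_nonneg t1 x.2
    have f0 := bo_mono (p := 0 < (t1 - x.2 + 0) / 2 ∧ rhoE D < (t1 - x.2 + 0) / 2)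
      (q := 0 < (t1 - x.2 + 0) / 2 ∧ rhoE D ≤ (t1 - x.2 + 0) / 2) (fun h => ⟨h.1, h.2.le⟩)
    have f1 := bo_mono (p := 0 < (t1 - x.2 + E) / 2 ∧ rhoE D < (t1 - x.2 + E) / 2)
      (q := 0 < (t1 - x.2 + E) / 2 ∧ rhoE D ≤ (t1 - x.2 + E) / 2) (fun h => ⟨h.1, h.2.le⟩)
    have g0 := mul_le_mul_of_nonneg_left f0 (by linarith : 0 ≤ 1 / 2 * omc t1 x.2)
    have g1 := mul_le_mul_of_nonneg_left f1 (by linarith : 0 ≤ 1 / 2 * omc t1 x.2)
    push_cast
    linarith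

lemma aLc_le_cg {q m a b D K ρ t0 t1 : ℤ} {c : Cl} {x : P3} (hq : 0 < q) (hD : D = 4 * K + 1)
    (hK : 1 ≤ K) (hc : CellAt m a b D t0 t1) (hx : c.has q D x) :
    aLc D ρ t0 t1 x ≤ (cgI q m a b c : ℝ) / 2 := by
  unfold aLc cgI
  have hs := hx.1
  rcases h : x.1 with _ | _
  · rw [h] at hs
    rw [if_pos rfl, if_neg (by rw [← hs]; simp)]
    norm_num
  · rw [h] at hs
    rw [if_neg (by simp), if_pos hs.symm]
    have e := ff2_ge hq hD hK hc hx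
    have f := bo_mono (p := (1 ≤ 2 * x.2 + t1 - D ∧ 2 * x.2 + t0 - D ≤ D) ∧ ρ < 2 * x.2 + t1 - D)
      (q := 1 ≤ 2 * x.2 + t1 - (4 * K + 1) ∧ 2 * x.2 + t0 - (4 * K + 1) ≤ 4 * K + 1)
      (fun h => by rw [← hD]; exact h.1)
    push_cast
    linarith

end

end MP61673a.FE
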