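import Pool.Agent.Mu673.FF4w
import Pool.Agent.Mu673.FF4a

/-!
THE THREE-BODY PART OF AN IN CELL FROM THE RECORD (helper56): one Bool check of the weights and of the
table of the zone constants, together with the families (`hΦ`) gives `Net3W`.
-/

set_option autoImplicit false

namespace MP61673a.RowI9

open Finset MP61673a.W MP61673a.Kink MP61673a.Bary MP61673a.Sos MP61673a.Fin MP61673a.FE MP61673a.KC
open MP61673a.RowI MP61673a.Row9 MP61673a.CkI

namespace RI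

variable (A : RI)

/-- flag of the first window -/
def w1I (c : ℕ) : ℤ := nW1 A.p.q A.p.m A.p.a A.p.b (nth 0 A.iw c) (clN A.cs c)

/-- flag of the second window -/
def w2I (c : ℕ) : ℤ := nW2 A.p.q A.p.m A.p.a A.p.b (nth 0 A.iw c) (clN A.cs c)

/-- coefficients of a class -/
def cjR (W : NW) (c : ℕ) : CJ :=
  if (clN A.cs c).sd then
    { a := max 0 (A.ko * nM0 A.p.q A.p.m A.p.b (clN A.cs c) - nth 0 W.v0 c)
        + max 0 (A.ko * nM1 A.p.q A.p.m A.p.b (clN A.cs c) - nth 0 W.v1 c)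
      b := max 0 (2 * A.ko * ff2 A.p.q A.p.m A.p.a A.p.b (clN A.cs c) - nth 0 W.v2 c)
      e := A.ko * (nM0 A.p.q A.p.m A.p.b (clN A.cs c) + nM1 A.p.q A.p.m A.p.b (clN A.cs c))
      g := 2 * A.ko * ff2 A.p.q A.p.m A.p.a A.p.b (clN A.cs c)
      s1 := 2 * nth 0 A.s1 c, s2 := 2 * nth 0 A.s2 c
      a1 := 0, a2 := 0, e1 := 0, e2 := 0, m1 := 0, m2 := 0
      k1 := 2 * nth 0 W.ck1 c, k2 := 2 * nth 0 W.ck2 c }
  else
    { a := -(2 * A.ko * A.w1I c)
      b := -(2 * A.ko * A.w2I c)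
      e := 0, g := 0
      s1 := 2 * nth 0 A.s1 c, s2 := 2 * nth 0 A.s2 c
      a1 := 2 * nth 0 A.a1 c, a2 := 2 * nth 0 A.a2 c
      e1 := 2 * (nth 0 A.a1 c - nth 0 A.m1 c), e2 := 2 * (nth 0 A.a2 c - nth 0 A.m2 c)
      m1 := 2 * nth 0 A.m1 c, m2 := 2 * nth 0 A.m2 c
      k1 := 0, k2 := 0 }

/-- code of a pair of classes -/
def pjR (i j : ℕ) : PJ :=
  ⟨cdI (clN A.cs i).sd (clN A.cs j).sd (vIc A.p.q (clN A.cs j)) (vOc A.p.q (clN A.cs j)),
    if (clN A.cs i).sd = false ∧ (clN A.cs j).sd = false then A.ko * A.w1I j - nth 0 A.a1 j else 0,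
    if (clN A.cs i).sd = false ∧ (clN A.cs j).sd = false then A.ko * A.w2I j - nth 0 A.a2 j else 0⟩

/-- membership -/
def memJ (p : PJ) (l : List PJ) : Bool := !(allL l (fun r => !(decide (p = r))))

/-- all entries vanish -/
def zeroL (l : List (List ℤ)) (c : ℕ) : Bool := allL l (fun x => decide (nth 0 x c = 0))

/-- the entries lie between `0` and `ko` -/
def btwL (l : List (List ℤ)) (c : ℕ) : Bool :=
  allL l (fun x => decide (0 ≤ nth 0 x c) && decide (nth 0 x c ≤ A.ko))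

/-- all entries are nonnegative -/
def posL (l : List (List ℤ)) (c : ℕ) : Bool := allL l (fun x => decide (0 ≤ nth 0 x c))

/-- the weights of one class -/
def wtP (W : NW) (c : ℕ) : Bool :=
  decide (0 ≤ nth 0 A.a1 c) && decide (nth 0 A.a1 c ≤ A.ko * A.w1I c)
  && decide (0 ≤ nth 0 A.a2 c) && decide (nth 0 A.a2 c ≤ A.ko * A.w2I c)
  && decide (nth 0 A.m1 c = if okXR A.p.q A.p.m A.p.b (nth 0 A.iw c) (clN A.cs c) = true
      then nth 0 A.a1 c else 0)
  && decide (nth 0 A.m2 c = if okXL A.p.q A.p.m A.p.b (nth 0 A.iw c) (clN A.cs c) = true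
      then nth 0 A.a2 c else 0)
  && zeroL [W.v2, W.v0, W.v1, W.vk1, W.vk2, W.ck1, W.ck2, W.h1, W.h0, W.h2, W.h3, W.vO, W.vA] c
  && ok1 A.p.q A.p.m A.p.a A.p.b (nth 0 A.iw c) (clN A.cs c)
  && ok2 A.p.q A.p.m A.p.a A.p.b (nth 0 A.iw c) (clN A.cs c)

/-- the weights of one class of `Q` -/
def wtQ (W : NW) (c : ℕ) : Bool :=
  zeroL [A.a1, A.a2, A.m1, A.m2] c
  && posL [W.v2, W.v0, W.v1, W.vk1, W.vk2, W.ck1, W.ck2] c
  && A.btwL [W.h1, W.h0, W.h2, W.h3] c
  && decide (nK1 A.p.q A.p.m A.p.b (clN A.cs c) ≤ nth 0 W.ck1 c + nth 0 W.vk1 c)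
  && decide (nK2 A.p.q A.p.m A.p.b (clN A.cs c) ≤ nth 0 W.ck2 c + nth 0 W.vk2 c)
  && decide (nth 0 W.vO c ≤ A.ko * gO A.p.q A.p.m A.p.a (clN A.cs c))
  && decide (nth 0 W.vA c ≤ A.ko * gA A.p.q A.p.m A.p.a A.p.b (clN A.cs c))

/-- THE CHECK OF THE WEIGHTS AND OF THE ZONE CONSTANTS -/
def netI (W : NW) : Bool :=
  allN A.cs.length (fun c => (if (clN A.cs c).sd then A.wtQ W c else A.wtP W c)
    && decide (nth default W.co c = A.cjR W c))
  && allN A.cs.length (fun i => allN A.cs.length (fun j =>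
    Nat.ble (Nat.succ (plE A.d.segs i j).k1) A.r.nk
    && memJ (A.pjR i j) (nth [] W.tb (plE A.d.segs i j).k1)))
  && allN A.cs.length (fun c => allN A.r.nk (fun k => allL (nth [] W.tb k) (fun P =>
    allN 9 (fun i => decide (kzC (nth default W.co c) P i ≤ A.kzN c k i)))))

end RI

/-! ### Soundness -/

lemma memJ_imp {p : PJ} {l : List PJ} (h : RI.memJ p l = true) : p ∈ l := by
  unfold RI.memJ at h
  rw [Bool.not_eq_true'] at h
  by_contra hn
  have : allL l (fun r => !(decide (p = r))) = true := by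
    rw [allL_iff]
    intro r hr
    rw [Bool.not_eq_true', decide_eq_false_iff_not]
    intro e
    exact hn (e ▸ hr)
  rw [this] at h
  exact absurd h (by simp)

lemma zeroL_imp {l : List (List ℤ)} {c : ℕ} (h : RI.zeroL l c = true) :
    ∀ x ∈ l, nth 0 x c = 0 := fun x hx => of_decide_eq_true ((allL_iff _ _).1 h x hx)

lemma posL_imp {l : List (List ℤ)} {c : ℕ} (h : RI.posL l c = true) :
    ∀ x ∈ l, 0 ≤ nth 0 x c := fun x hx => of_decide_eq_true ((allL_iff _ _).1 h x hx)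

lemma btwL_imp {A : RI} {l : List (List ℤ)} {c : ℕ} (h : A.btwL l c = true) :
    ∀ x ∈ l, 0 ≤ nth 0 x c ∧ nth 0 x c ≤ A.ko := fun x hx => by
  have := (allL_iff _ _).1 h x hx
  simp only [Bool.and_eq_true, decide_eq_true_eq] at this
  exact this

noncomputable section

variable {A : RI} {W : NW}

/-- constant weight of `M0` -/
def cM0W (A : RI) (W : NW) (c : ℕ) : ℝ :=
  if (clN A.cs c).sd then
    ((max 0 (A.ko * nM0 A.p.q A.p.m A.p.b (clN A.cs c) - nth 0 W.v0 c) : ℤ) : ℝ) / (2 * A.ko)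
  else 0

/-- constant weight of `M1` -/
def cM1W (A : RI) (W : NW) (c : ℕ) : ℝ :=
  if (clN A.cs c).sd then
    ((max 0 (A.ko * nM1 A.p.q A.p.m A.p.b (clN A.cs c) - nth 0 W.v1 c) : ℤ) : ℝ) / (2 * A.ko)
  else 0

/-- constant weight of `F2` -/
def cF2W (A : RI) (W : NW) (c : ℕ) : ℝ :=
  if (clN A.cs c).sd then
    ((max 0 (2 * A.ko * ff2 A.p.q A.p.m A.p.a A.p.b (clN A.cs c) - nth 0 W.v2 c) : ℤ) : ℝ)
      / (2 * A.ko)
  else 0

/-- flag of the first window -/
def w1W (A : RI) (c : ℕ) : ℝ := wF1 A.p.q A.p.m A.p.a A.p.b (nth 0 A.iw c) (clN A.cs c)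

/-- flag of the second window -/
def w2W (A : RI) (c : ℕ) : ℝ := wF2 A.p.q A.p.m A.p.a A.p.b (nth 0 A.iw c) (clN A.cs c)

/-- flag beyond the first window -/
def o1W (A : RI) (c : ℕ) : ℝ := oF1 A.p.q A.p.m A.p.a (clN A.cs c)

/-- flag beyond the second window -/
def o2W (A : RI) (c : ℕ) : ℝ := oF2 A.p.q A.p.m A.p.a (clN A.cs c)

/-- the facts of the weights of the classes of `P` -/
structure WtP (A : RI) (W : NW) (c : ℕ) : Prop where
  a1 : 0 ≤ nth 0 A.a1 c ∧ nth 0 A.a1 c ≤ A.ko * A.w1I c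
  a2 : 0 ≤ nth 0 A.a2 c ∧ nth 0 A.a2 c ≤ A.ko * A.w2I c
  m1 : nth 0 A.m1 c = if okXR A.p.q A.p.m A.p.b (nth 0 A.iw c) (clN A.cs c) = true
    then nth 0 A.a1 c else 0
  m2 : nth 0 A.m2 c = if okXL A.p.q A.p.m A.p.b (nth 0 A.iw c) (clN A.cs c) = true
    then nth 0 A.a2 c else 0
  z : ∀ x ∈ [W.v2, W.v0, W.v1, W.vk1, W.vk2, W.ck1, W.ck2, W.h1, W.h0, W.h2, W.h3, W.vO, W.vA],
    nth 0 x c = 0
  ok1 : ok1 A.p.q A.p.m A.p.a A.p.b (nth 0 A.iw c) (clN A.cs c) = true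
  ok2 : ok2 A.p.q A.p.m A.p.a A.p.b (nth 0 A.iw c) (clN A.cs c) = true

/-- the facts of the weights of the classes of `Q` -/
structure WtQ (A : RI) (W : NW) (c : ℕ) : Prop where
  z : ∀ x ∈ [A.a1, A.a2, A.m1, A.m2], nth 0 x c = 0
  pos : ∀ x ∈ [W.v2, W.v0, W.v1, W.vk1, W.vk2, W.ck1, W.ck2], 0 ≤ nth 0 x c
  btw : ∀ x ∈ [W.h1, W.h0, W.h2, W.h3], 0 ≤ nth 0 x c ∧ nth 0 x c ≤ A.ko
  k1 : nK1 A.p.q A.p.m A.p.b (clN A.cs c) ≤ nth 0 W.ck1 c + nth 0 W.vk1 c
  k2 : nK2 A.p.q A.p.m A.p.b (clN A.cs c) ≤ nth 0 W.ck2 c + nth 0 W.vk2 c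
  vO : nth 0 W.vO c ≤ A.ko * gO A.p.q A.p.m A.p.a (clN A.cs c)
  vA : nth 0 W.vA c ≤ A.ko * gA A.p.q A.p.m A.p.a A.p.b (clN A.cs c)

/-- the content of the check -/
structure NetOK (A : RI) (W : NW) : Prop where
  P : ∀ c < A.cs.length, (clN A.cs c).sd = false → WtP A W c
  Q : ∀ c < A.cs.length, (clN A.cs c).sd = true → WtQ A W c
  kz : ∀ c < A.cs.length, ∀ i < A.cs.length, ∀ j < A.cs.length, ∀ z < 9,
    kzC (A.cjR W c) (A.pjR i j) z ≤ A.kzN c (plE A.d.segs i j).k1 z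

lemma netI_imp (h : A.netI W = true) : NetOK A W := by
  unfold RI.netI at h
  simp only [Bool.and_eq_true] at h
  obtain ⟨⟨h1, h2⟩, h3⟩ := h
  have h1' := (allN_iff _ _).1 h1
  refine ⟨fun c hc hs => ?_, fun c hc hs => ?_, fun c hc i hi j hj z hz => ?_⟩
  · have k := h1' c hc
    rw [if_neg (by rw [hs]; simp), Bool.and_eq_true] at k
    have k1 := k.1
    unfold RI.wtP at k1
    simp only [Bool.and_eq_true, decide_eq_true_eq] at k1
    obtain ⟨⟨⟨⟨⟨⟨⟨⟨a1, a2⟩, a3⟩, a4⟩, a5⟩, a6⟩, a7⟩, a8⟩, a9⟩ := k1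
    exact ⟨⟨a1, a2⟩, ⟨a3, a4⟩, a5, a6, zeroL_imp a7, a8, a9⟩
  · have k := h1' c hc
    rw [if_pos hs, Bool.and_eq_true] at k
    have k1 := k.1
    unfold RI.wtQ at k1
    simp only [Bool.and_eq_true, decide_eq_true_eq] at k1
    obtain ⟨⟨⟨⟨⟨⟨a1, a2⟩, a3⟩, a4⟩, a5⟩, a6⟩, a7⟩ := k1
    exact ⟨zeroL_imp a1, posL_imp a2, btwL_imp a3, a4, a5, a6, a7⟩
  · have k := h1' c hc
    rw [Bool.and_eq_true] at k
    have kc := of_decide_eq_true k.2
    have c2 := (allN_iff _ _).1 ((allN_iff _ _).1 h2 i hi) j hj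
    rw [Bool.and_eq_true] at c2
    have hk : (plE A.d.segs i j).k1 < A.r.nk := Nat.le_of_ble_eq_true c2.1
    have c3 := (allL_iff _ _).1 ((allN_iff _ _).1 ((allN_iff _ _).1 h3 c hc) _ hk) _
      (memJ_imp c2.2)
    have c4 := of_decide_eq_true ((allN_iff _ _).1 c3 z hz)
    rwa [kc] at c4

/-! ### The flags -/

lemma w1I_01 (A : RI) (c : ℕ) : A.w1I c = 0 ∨ A.w1I c = 1 := nW1_01 _ _ _ _ _ _

lemma w2I_01 (A : RI) (c : ℕ) : A.w2I c = 0 ∨ A.w2I c = 1 := nW2_01 _ _ _ _ _ _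

/-- a weight between `0` and `ko` times a flag -/
lemma wr_flag (hk : (0:ℝ) < A.ko) {a w : ℤ} (hw : w = 0 ∨ w = 1) (h : 0 ≤ a ∧ a ≤ A.ko * w) :
    0 ≤ (a:ℝ) / A.ko ∧ (a:ℝ) / A.ko ≤ 1 ∧ (a:ℝ) / A.ko * (w:ℝ) = (a:ℝ) / A.ko := by
  obtain ⟨h1, h2⟩ := h
  have h1' : (0:ℝ) ≤ a := by exact_mod_cast h1
  have h2' : (a:ℝ) ≤ A.ko * w := by exact_mod_cast h2
  rcases hw with rfl | rfl
  · have : (a:ℝ) = 0 := by
      rw [Int.cast_zero, mul_zero] at h2'
      linarith
    rw [this]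
    simp
  · rw [Int.cast_one, mul_one] at h2'
    refine ⟨div_nonneg h1' hk.le, (div_le_one hk).2 h2', ?_⟩
    rw [Int.cast_one, mul_one]

/-- the weights of the exchange -/
lemma NetOK.om (hO : NetOK A W) (hk : (0:ℝ) < A.ko) (c : Fin A.cs.length) :
    (0 ≤ A.wr A.a1 c ∧ A.wr A.a1 c ≤ 1 ∧ 0 ≤ A.wr A.a2 c ∧ A.wr A.a2 c ≤ 1)
      ∧ A.wr A.a1 c * w1W A c = A.wr A.a1 c ∧ A.wr A.a2 c * w2W A c = A.wr A.a2 c := by
  rcases hs : (clN A.cs c).sd with _ | _
  · have k := hO.P c c.2 hs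
    obtain ⟨p1, p2, p3⟩ := wr_flag hk (w1I_01 A c) k.a1
    obtain ⟨p4, p5, p6⟩ := wr_flag hk (w2I_01 A c) k.a2
    refine ⟨⟨p1, p2, p4, p5⟩, ?_, ?_⟩
    · unfold w1W wF1 RI.wr
      rw [if_neg (by rw [hs]; simp)]
      exact p3
    · unfold w2W wF2 RI.wr
      rw [if_neg (by rw [hs]; simp)]
      exact p6
  · have k := hO.Q c c.2 hs
    have e1 : A.wr A.a1 c = 0 := by
      unfold RI.wr
      rw [k.z A.a1 (by simp)]
      simp
    have e2 : A.wr A.a2 c = 0 := by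
      unfold RI.wr
      rw [k.z A.a2 (by simp)]
      simp
    rw [e1, e2]
    simp

/-- THE CLASS DATA FROM THE CHECK -/
theorem NetOK.flg (hO : NetOK A W) (hk : 0 < A.ko) {D K E w t0 t1 c1 c2 : ℤ} {δ σ kL kR : ℝ}
    {M : ℕ} {G : GrdD (Fin A.cs.length) M σ δ D K (rhoE D) kL kR} (hq : 0 < A.p.q)
    (hD : D = 4 * K + 1) (hK : 10000 ≤ K) (hDm : 39 * (A.p.m * A.p.q) < D)
    (hE : 122 * (E + 1) ≤ 3 * D + 12) (hc : CellAt A.p.m A.p.a A.p.b D t0 t1) (hw : -t1 ≤ w)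
    (hw' : w ≤ 1 - t0) (k1 : CutUp (2 * A.p.a) A.p.m D c1) (k1' : CutDn (2 * A.p.a) A.p.m D c1)
    (k2 : CutUp A.p.a (2 * A.p.m) D c2) (k2' : CutDn A.p.a (2 * A.p.m) D c2)
    (hcl : ∀ x : P4, G.ok x → (clN A.cs (G.cl x)).has A.p.q D x.2)
    (hi1 : ∀ x : P4, G.ok x → nth 0 A.iw (G.cl x) = 1 → w ≤ x.2.2)
    (hi2 : ∀ x : P4, G.ok x → nth 0 A.iw (G.cl x) = 2 → x.2.2 < w) :
    FlgF G E w t0 t1 c1 c2 (fun c => (clN A.cs c).sd)
      (fun c => w1W A c) (fun c => w2W A c) (fun c => w1W A c) (fun c => w2W A c)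
      (fun c => o1W A c) (fun c => o2W A c) (fun c => A.wr A.a1 c) (fun c => A.wr A.a2 c)
      (fun c => A.wr A.m1 c) (fun c => A.wr A.m2 c)
      (fun c => A.wr A.a1 c - A.wr A.m1 c) (fun c => A.wr A.a2 c - A.wr A.m2 c)
      (fun c => cF2W A W c) (fun c => A.w2 W.v2 c) (fun c => cM0W A W c) (fun c => A.w2 W.v0 c)
      (fun c => cM1W A W c) (fun c => A.w2 W.v1 c) (fun c => wI W.ck1 c) (fun c => wI W.vk1 c)
      (fun c => wI W.ck2 c) (fun c => wI W.vk2 c) (fun c => A.wr W.h1 c) (fun c => A.wr W.h0 c)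
      (fun c => A.wr W.h2 c) (fun c => A.wr W.h3 c) (fun c => A.wr W.vO c)
      (fun c => A.wr W.vA c) := by
  have hkr : (0:ℝ) < A.ko := by exact_mod_cast hk
  have hk0 : (A.ko:ℝ) ≠ 0 := hkr.ne'
  have ea1 : (fun c : Fin A.cs.length => A.wr A.a1 c * w1W A c)
      = fun c : Fin A.cs.length => A.wr A.a1 c := funext fun c => (hO.om hkr c).2.1
  have ea2 : (fun c : Fin A.cs.length => A.wr A.a2 c * w2W A c)
      = fun c : Fin A.cs.length => A.wr A.a2 c := funext fun c => (hO.om hkr c).2.2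
  have em1 : (fun c : Fin A.cs.length => mF1 A.p.q A.p.m A.p.a A.p.b (nth 0 A.iw c)
      (A.wr A.a1 c) (clN A.cs c)) = fun c : Fin A.cs.length => A.wr A.m1 c := by
    funext c
    have h1 := (hO.om hkr c).2.1
    unfold w1W at h1
    unfold mF1
    rw [h1]
    rcases hs : (clN A.cs c).sd with _ | _
    · have k := (hO.P c c.2 hs).m1
      unfold RI.wr
      rw [k]
      split_ifs
      · rfl
      · simp
    · have k := (hO.Q c c.2 hs).z
      have e1 : A.wr A.a1 c = 0 := by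
        unfold RI.wr
        rw [k A.a1 (by simp)]
        simp
      have e2 : A.wr A.m1 c = 0 := by
        unfold RI.wr
        rw [k A.m1 (by simp)]
        simp
      rw [e1, e2]
      simp
  have em2 : (fun c : Fin A.cs.length => mF2 A.p.q A.p.m A.p.a A.p.b (nth 0 A.iw c)
      (A.wr A.a2 c) (clN A.cs c)) = fun c : Fin A.cs.length => A.wr A.m2 c := by
    funext c
    have h1 := (hO.om hkr c).2.2
    unfold w2W at h1
    unfold mF2
    rw [h1]
    rcases hs : (clN A.cs c).sd with _ | _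
    · have k := (hO.P c c.2 hs).m2
      unfold RI.wr
      rw [k]
      split_ifs
      · rfl
      · simp
    · have k := (hO.Q c c.2 hs).z
      have e1 : A.wr A.a2 c = 0 := by
        unfold RI.wr
        rw [k A.a2 (by simp)]
        simp
      have e2 : A.wr A.m2 c = 0 := by
        unfold RI.wr
        rw [k A.m2 (by simp)]
        simp
      rw [e1, e2]
      simp
  have ee1 : (fun c : Fin A.cs.length => eF1 A.p.q A.p.m A.p.a A.p.b (nth 0 A.iw c)
      (A.wr A.a1 c) (clN A.cs c))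
      = fun c : Fin A.cs.length => A.wr A.a1 c - A.wr A.m1 c := by
    funext c
    have h1 := congrFun em1 c
    have h2 := congrFun ea1 c
    beta_reduce at h1 h2
    rw [← h1]
    unfold w1W at h2
    unfold mF1 eF1
    split_ifs
    · rw [h2]
      ring
    · rw [h2]
      ring
  have ee2 : (fun c : Fin A.cs.length => eF2 A.p.q A.p.m A.p.a A.p.b (nth 0 A.iw c)
      (A.wr A.a2 c) (clN A.cs c))
      = fun c : Fin A.cs.length => A.wr A.a2 c - A.wr A.m2 c := by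
    funext c
    have h1 := congrFun em2 c
    have h2 := congrFun ea2 c
    beta_reduce at h1 h2
    rw [← h1]
    unfold w2W at h2
    unfold mF2 eF2
    split_ifs
    · rw [h2]
      ring
    · rw [h2]
      ring
  rw [← ee1, ← ee2, ← ea1, ← ea2, ← em1, ← em2]
  have zQ : ∀ c : Fin A.cs.length, (clN A.cs c).sd = true → WtQ A W c := fun c hs =>
    hO.Q c c.2 hs
  have zP : ∀ c : Fin A.cs.length, (clN A.cs c).sd = false → WtP A W c := fun c hs =>
    hO.P c c.2 hs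
  have wz : ∀ (l : List ℤ) (c : ℕ), nth 0 l c = 0 → A.wr l c = 0 := fun l c h => by
    unfold RI.wr
    rw [h]
    simp
  have w2z : ∀ (l : List ℤ) (c : ℕ), nth 0 l c = 0 → A.w2 l c = 0 := fun l c h => by
    unfold RI.w2
    rw [h]
    simp
  have wIz : ∀ (l : List ℤ) (c : ℕ), nth 0 l c = 0 → wI l c = 0 := fun l c h => by
    unfold wI
    rw [h]
    simp
  have btw : ∀ l ∈ [W.h1, W.h0, W.h2, W.h3], ∀ c : Fin A.cs.length,
      0 ≤ A.wr l c ∧ A.wr l c ≤ 1 := by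
    intro l hl c
    rcases hs : (clN A.cs c).sd with _ | _
    · rw [wz l c ((zP c hs).z l (by
        simp only [List.mem_cons, List.not_mem_nil, or_false] at hl ⊢
        tauto))]
      norm_num
    · obtain ⟨p1, p2⟩ := (zQ c hs).btw l hl
      have p1' : (0:ℝ) ≤ (nth 0 l c : ℤ) := by exact_mod_cast p1
      have p2' : ((nth 0 l c : ℤ) : ℝ) ≤ A.ko := by exact_mod_cast p2
      exact ⟨div_nonneg p1' hkr.le, (div_le_one hkr).2 p2'⟩
  have pos2 : ∀ l ∈ [W.v2, W.v0, W.v1], ∀ c : Fin A.cs.length, 0 ≤ A.w2 l c := by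
    intro l hl c
    rcases hs : (clN A.cs c).sd with _ | _
    · rw [w2z l c ((zP c hs).z l (by
        simp only [List.mem_cons, List.not_mem_nil, or_false] at hl ⊢
        tauto))]
    · have p1 := (zQ c hs).pos l (by
        simp only [List.mem_cons, List.not_mem_nil, or_false] at hl ⊢
        tauto)
      have p1' : (0:ℝ) ≤ (nth 0 l c : ℤ) := by exact_mod_cast p1
      unfold RI.w2
      positivity
  have posI : ∀ l ∈ [W.vk1, W.vk2, W.ck1, W.ck2], ∀ c : Fin A.cs.length, 0 ≤ wI l c := by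
    intro l hl c
    rcases hs : (clN A.cs c).sd with _ | _
    · rw [wIz l c ((zP c hs).z l (by
        simp only [List.mem_cons, List.not_mem_nil, or_false] at hl ⊢
        tauto))]
    · have p1 := (zQ c hs).pos l (by
        simp only [List.mem_cons, List.not_mem_nil, or_false] at hl ⊢
        tauto)
      have p1' : (0:ℝ) ≤ (nth 0 l c : ℤ) := by exact_mod_cast p1
      exact p1'
  have need : ∀ (l : List ℤ) (c : ℕ) (n : ℤ), (n:ℝ) / (2 * A.ko)
      ≤ ((max 0 (n - nth 0 l c) : ℤ) : ℝ) / (2 * A.ko) + A.w2 l c := by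
    intro l c n
    unfold RI.w2
    rw [← add_div]
    refine div_le_div_of_nonneg_right ?_ (by positivity)
    have : n - nth 0 l c ≤ max 0 (n - nth 0 l c) := le_max_right _ _
    have h' : ((n - nth 0 l c : ℤ) : ℝ) ≤ ((max 0 (n - nth 0 l c) : ℤ) : ℝ) := by
      exact_mod_cast this
    rw [Int.cast_sub] at h'
    linarith
  have cnn : ∀ (n : ℤ), (0:ℝ) ≤ ((max 0 n : ℤ) : ℝ) / (2 * A.ko) := by
    intro n
    have : (0:ℤ) ≤ max 0 n := le_max_left _ _
    have h' : (0:ℝ) ≤ ((max 0 n : ℤ) : ℝ) := by exact_mod_cast this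
    positivity
  exact flgF_cls (ds := fun c : Fin A.cs.length => clN A.cs c) (iw := fun c => nth 0 A.iw c)
    (om1 := fun c => A.wr A.a1 c) (om2 := fun c => A.wr A.a2 c) hq hD hK rfl hDm hE hc hw hw'
    k1 k1' k2 k2' hcl hi1 hi2 (fun c hs => (zP c hs).ok1) (fun c hs => (zP c hs).ok2)
    (fun c => (hO.om hkr c).1)
    (fun c hs => by
      have h := need W.v2 c (2 * A.ko * ff2 A.p.q A.p.m A.p.a A.p.b (clN A.cs c))
      unfold cF2W
      rw [if_pos hs]
      refine le_trans (le_of_eq ?_) h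
      push_cast
      field_simp)
    (fun c hs => by
      have h := need W.v0 c (A.ko * nM0 A.p.q A.p.m A.p.b (clN A.cs c))
      unfold cM0W
      rw [if_pos hs]
      refine le_trans (le_of_eq ?_) h
      push_cast
      field_simp)
    (fun c hs => by
      have h := need W.v1 c (A.ko * nM1 A.p.q A.p.m A.p.b (clN A.cs c))
      unfold cM1W
      rw [if_pos hs]
      refine le_trans (le_of_eq ?_) h
      push_cast
      field_simp)
    (fun c hs => by
      have h := (zQ c hs).k1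
      have h' : ((nK1 A.p.q A.p.m A.p.b (clN A.cs c) : ℤ) : ℝ)
          ≤ ((nth 0 W.ck1 c + nth 0 W.vk1 c : ℤ) : ℝ) := by exact_mod_cast h
      unfold wI
      push_cast at h'
      exact h')
    (fun c hs => by
      have h := (zQ c hs).k2
      have h' : ((nK2 A.p.q A.p.m A.p.b (clN A.cs c) : ℤ) : ℝ)
          ≤ ((nth 0 W.ck2 c + nth 0 W.vk2 c : ℤ) : ℝ) := by exact_mod_cast h
      unfold wI
      push_cast at h'
      exact h')
    (fun c => ⟨(btw W.h1 (by simp) c).2, (btw W.h0 (by simp) c).2, (btw W.h2 (by simp) c).2,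
      (btw W.h3 (by simp) c).2⟩)
    (fun c hs => by
      have h := (zQ c hs).vO
      have h' : ((nth 0 W.vO c : ℤ) : ℝ) ≤ A.ko * ((gO A.p.q A.p.m A.p.a (clN A.cs c) : ℤ) : ℝ) := by
        exact_mod_cast h
      unfold RI.wr
      rw [div_le_iff₀ hkr]
      linarith)
    (fun c hs => by
      have h := (zQ c hs).vA
      have h' : ((nth 0 W.vA c : ℤ) : ℝ)
          ≤ A.ko * ((gA A.p.q A.p.m A.p.a A.p.b (clN A.cs c) : ℤ) : ℝ) := by
        exact_mod_cast h
      unfold RI.wr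
      rw [div_le_iff₀ hkr]
      linarith)
    (fun c => by
      refine ⟨?_, pos2 W.v2 (by simp) c, ?_, pos2 W.v0 (by simp) c, ?_, pos2 W.v1 (by simp) c,
        posI W.ck1 (by simp) c, posI W.vk1 (by simp) c, posI W.ck2 (by simp) c,
        posI W.vk2 (by simp) c⟩
      · unfold cF2W
        split_ifs
        · exact cnn _
        · exact le_rfl
      · unfold cM0W
        split_ifs
        · exact cnn _
        · exact le_rfl
      · unfold cM1W
        split_ifs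
        · exact cnn _
        · exact le_rfl)
    (fun c => ⟨(btw W.h1 (by simp) c).1, (btw W.h0 (by simp) c).1, (btw W.h2 (by simp) c).1,
      (btw W.h3 (by simp) c).1⟩)
    (fun c hs => by
      have k := (zP c hs).z
      refine ⟨?_, w2z _ _ (k _ (by simp)), ?_, w2z _ _ (k _ (by simp)), ?_,
        w2z _ _ (k _ (by simp)), wIz _ _ (k _ (by simp)), wIz _ _ (k _ (by simp)),
        wIz _ _ (k _ (by simp)), wIz _ _ (k _ (by simp)), wz _ _ (k _ (by simp)),
        wz _ _ (k _ (by simp)), wz _ _ (k _ (by simp)), wz _ _ (k _ (by simp)),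
        wz _ _ (k _ (by simp)), wz _ _ (k _ (by simp))⟩
      · unfold cF2W
        rw [if_neg (by rw [hs]; simp)]
      · unfold cM0W
        rw [if_neg (by rw [hs]; simp)]
      · unfold cM1W
        rw [if_neg (by rw [hs]; simp)])

/-! ### The zone constants -/

lemma kzF_congr {cy cz vi vo : Bool} {a b e g s1 s2 a1 a2 e1 e2 m1 m2 k1 k2 : ℝ}
    {a' b' e' g' s1' s2' a1' a2' e1' e2' m1' m2' k1' k2' : ℝ} (i : Fin 9)
    (h1 : a = a') (h2 : b = b') (h3 : e = e') (h4 : g = g') (h5 : s1 = s1') (h6 : s2 = s2')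
    (h7 : a1 = a1') (h8 : a2 = a2') (h9 : e1 = e1') (h10 : e2 = e2') (h11 : m1 = m1')
    (h12 : m2 = m2') (h13 : k1 = k1') (h14 : k2 = k2') :
    kzF cy cz vi vo a b e g s1 s2 a1 a2 e1 e2 m1 m2 k1 k2 i
      = kzF cy cz vi vo a' b' e' g' s1' s2' a1' a2' e1' e2' m1' m2' k1' k2' i := by
  rw [h1, h2, h3, h4, h5, h6, h7, h8, h9, h10, h11, h12, h13, h14]

/-- THE ZONE CONSTANTS FROM THE CHECK -/
theorem NetOK.kzT (hO : NetOK A W) (hk : 0 < A.ko) (c i j : Fin A.cs.length) (z : Fin 9) :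
    kzF (clN A.cs i).sd (clN A.cs j).sd (vIc A.p.q (clN A.cs j)) (vOc A.p.q (clN A.cs j))
      (cM0W A W c + cM1W A W c - w1W A c) (cF2W A W c - w2W A c)
      ((ceI A.p.q A.p.m A.p.b (clN A.cs c) : ℝ) / 2)
      ((cgI A.p.q A.p.m A.p.a A.p.b (clN A.cs c) : ℝ) / 2)
      (A.wr A.s1 c) (A.wr A.s2 c) (A.wr A.a1 c) (A.wr A.a2 c)
      (A.wr A.a1 c - A.wr A.m1 c) (A.wr A.a2 c - A.wr A.m2 c) (A.wr A.m1 c) (A.wr A.m2 c)
      (wI W.ck1 c * ppw (fun c : Fin A.cs.length => (clN A.cs c).sd)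
        (fun c => w1W A c - A.wr A.a1 c) i j)
      (wI W.ck2 c * ppw (fun c : Fin A.cs.length => (clN A.cs c).sd)
        (fun c => w2W A c - A.wr A.a2 c) i j) z
    ≤ A.kzT c i j z := by
  have hkr : (0:ℝ) < A.ko := by exact_mod_cast hk
  have hk0 : (A.ko:ℝ) ≠ 0 := hkr.ne'
  have hu : (0:ℝ) < 2 * A.ko := by linarith
  have c4 := hO.kz c c.2 i i.2 j j.2 z z.2
  have e := kzC_eq hu (clN A.cs i).sd (clN A.cs j).sd (vIc A.p.q (clN A.cs j))
    (vOc A.p.q (clN A.cs j)) (A.cjR W c) (A.pjR i j).u1 (A.pjR i j).u2 z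
  have c5 : (kzC (A.cjR W c) (A.pjR i j) z : ℝ) / (2 * A.ko) ≤ A.kzT c i j z := by
    unfold RI.kzT
    have : (kzC (A.cjR W c) (A.pjR i j) z : ℝ) ≤ (A.kzN c (plE A.d.segs i j).k1 z : ℤ) := by
      exact_mod_cast c4
    exact div_le_div_of_nonneg_right this hu.le
  refine le_trans (le_of_eq ?_) c5
  have e2 : (⟨cdI (clN A.cs i).sd (clN A.cs j).sd (vIc A.p.q (clN A.cs j))
      (vOc A.p.q (clN A.cs j)), (A.pjR i j).u1, (A.pjR i j).u2⟩ : PJ) = A.pjR i j := rfl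
  rw [e2] at e
  rw [← e]
  rcases hs : (clN A.cs c).sd with _ | _
  · -- sampler in `P`
    have kz := (hO.P c c.2 hs).z
    have z1 := kz W.ck1 (by simp)
    have z2 := kz W.ck2 (by simp)
    refine kzF_congr z ?_ ?_ ?_ ?_ ?_ ?_ ?_ ?_ ?_ ?_ ?_ ?_ ?_ ?_
    · unfold cM0W cM1W w1W wF1 RI.cjR RI.w1I
      simp only [hs, Bool.false_eq_true, if_false]
      push_cast
      field_simp
      ring
    · unfold cF2W w2W wF2 RI.cjR RI.w2I
      simp only [hs, Bool.false_eq_true, if_false]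
      push_cast
      field_simp
      ring
    · unfold ceI RI.cjR
      simp [hs]
    · unfold cgI RI.cjR
      simp [hs]
    · unfold RI.wr RI.cjR
      simp only [hs, Bool.false_eq_true, if_false]
      push_cast
      field_simp
    · unfold RI.wr RI.cjR
      simp only [hs, Bool.false_eq_true, if_false]
      push_cast
      field_simp
    · unfold RI.wr RI.cjR
      simp only [hs, Bool.false_eq_true, if_false]
      push_cast
      field_simp
    · unfold RI.wr RI.cjR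
      simp only [hs, Bool.false_eq_true, if_false]
      push_cast
      field_simp
    · unfold RI.wr RI.cjR
      simp only [hs, Bool.false_eq_true, if_false]
      push_cast
      field_simp
    · unfold RI.wr RI.cjR
      simp only [hs, Bool.false_eq_true, if_false]
      push_cast
      field_simp
    · unfold RI.wr RI.cjR
      simp only [hs, Bool.false_eq_true, if_false]
      push_cast
      field_simp
    · unfold RI.wr RI.cjR
      simp only [hs, Bool.false_eq_true, if_false]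
      push_cast
      field_simp
    · unfold wI RI.cjR
      simp [hs, z1]
    · unfold wI RI.cjR
      simp [hs, z2]
  · -- sampler in `Q`
    have kz := (hO.Q c c.2 hs).z
    have z1 := kz A.a1 (by simp)
    have z2 := kz A.a2 (by simp)
    have z3 := kz A.m1 (by simp)
    have z4 := kz A.m2 (by simp)
    refine kzF_congr z ?_ ?_ ?_ ?_ ?_ ?_ ?_ ?_ ?_ ?_ ?_ ?_ ?_ ?_
    · unfold cM0W cM1W w1W wF1 RI.cjR
      simp only [hs, if_true]
      push_cast
      field_simp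
      ring
    · unfold cF2W w2W wF2 RI.cjR
      simp only [hs, if_true]
      push_cast
      field_simp
      ring
    · unfold ceI RI.cjR
      simp only [hs, if_true]
      push_cast
      field_simp
    · unfold cgI RI.cjR
      simp only [hs, if_true]
      push_cast
      field_simp
    · unfold RI.wr RI.cjR
      simp only [hs, if_true]
      push_cast
      field_simp
    · unfold RI.wr RI.cjR
      simp only [hs, if_true]
      push_cast
      field_simp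
    · unfold RI.wr RI.cjR
      simp [hs, z1]
    · unfold RI.wr RI.cjR
      simp [hs, z2]
    · unfold RI.wr RI.cjR
      simp [hs, z1, z3]
    · unfold RI.wr RI.cjR
      simp [hs, z2, z4]
    · unfold RI.wr RI.cjR
      simp [hs, z3]
    · unfold RI.wr RI.cjR
      simp [hs, z4]
    · unfold wI ppw RI.pjR RI.cjR RI.wr w1W wF1 RI.w1I
      simp only [hs, if_true]
      by_cases hp : (clN A.cs i).sd = false ∧ (clN A.cs j).sd = false
      · rw [if_pos hp, if_pos hp, if_neg (by rw [hp.2]; simp)]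
        push_cast
        field_simp
      · rw [if_neg hp, if_neg hp]
        simp
    · unfold wI ppw RI.pjR RI.cjR RI.wr w2W wF2 RI.w2I
      simp only [hs, if_true]
      by_cases hp : (clN A.cs i).sd = false ∧ (clN A.cs j).sd = false
      · rw [if_pos hp, if_pos hp, if_neg (by rw [hp.2]; simp)]
        push_cast
        field_simp
      · rw [if_neg hp, if_neg hp]
        simp

/-! ### The three-body part -/

/-- the functional of the families of the record -/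
def phiI (A : RI) (W : NW) {D K ρ : ℤ} {δ σ kL kR : ℝ} {M : ℕ}
    (G : GrdD (Fin A.cs.length) M σ δ D K ρ kL kR) (V E t0 t1 : ℤ) (x y z : P4) : ℝ :=
  famF_P D K ρ t1 (A.wr A.m1 (G.cl x)) (A.wr A.m2 (G.cl x)) x y z
    + famF_C D K ρ V E t1 (A.w2 W.v2 (G.cl x)) (A.w2 W.v0 (G.cl x)) (A.w2 W.v1 (G.cl x))
      (wI W.vk1 (G.cl x) * ppw (fun c : Fin A.cs.length => (clN A.cs c).sd)
        (fun c => w1W A c - A.wr A.a1 c) (G.cl y) (G.cl z))
      (wI W.vk2 (G.cl x) * ppw (fun c : Fin A.cs.length => (clN A.cs c).sd)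
        (fun c => w2W A c - A.wr A.a2 c) (G.cl y) (G.cl z)) x y z
    - famF_G D K ρ t0 t1
      (A.wr W.h1 (G.cl x) * ppw (fun c : Fin A.cs.length => (clN A.cs c).sd)
        (fun c => A.wr A.a1 c) (G.cl y) (G.cl z))
      (A.wr W.h0 (G.cl x) * ppw (fun c : Fin A.cs.length => (clN A.cs c).sd)
        (fun c => o1W A c) (G.cl y) (G.cl z))
      (A.wr W.h2 (G.cl x) * ppw (fun c : Fin A.cs.length => (clN A.cs c).sd)
        (fun c => A.wr A.a2 c) (G.cl y) (G.cl z))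
      (A.wr W.h3 (G.cl x) * ppw (fun c : Fin A.cs.length => (clN A.cs c).sd)
        (fun c => o2W A c) (G.cl y) (G.cl z))
      (A.wr W.vO (G.cl x)) (A.wr W.vA (G.cl x)) x y z

lemma vIc_ge {q D K : ℤ} {c : Cl} {x : P3} (hq : 0 < q) (hD : D = 4 * K + 1) (hK : 1 ≤ K)
    (hx : c.has q D x) (h : vIc q c = true) : -(D / 8) ≤ x.2 := by
  unfold vIc at h
  obtain ⟨h1, h2⟩ := of_decide_eq_true h
  have h3 := Cl.has_lo hx h1
  have h4 := mul_le_mul_of_nonneg_right h2 (by omega : (0:ℤ) ≤ D)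
  have h5 : 0 ≤ q * (8 * x.2 + D) := by linarith
  have h6 := (mul_nonneg_iff_of_pos_left hq).1 h5
  omega

lemma vOc_lt {q D K : ℤ} {c : Cl} {x : P3} (hq : 0 < q) (hD : D = 4 * K + 1) (hK : 1 ≤ K)
    (hx : c.has q D x) (h : vOc q c = true) : x.2 < -(D / 8) := by
  unfold vOc at h
  have h2 := of_decide_eq_true h
  have h3 := Cl.has_hi hx
  have h4 := mul_le_mul_of_nonneg_right h2 (by omega : (0:ℤ) ≤ D)
  have h5 : 0 ≤ q * (-(8 * x.2) - D) := by linarith
  have h6 := (mul_nonneg_iff_of_pos_left hq).1 h5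
  omega

/-- THE THREE-BODY PART OF AN IN CELL FROM THE CHECK AND THE FAMILIES -/
theorem net3_in (hO : NetOK A W) (hk : 0 < A.ko) {D K V E w t0 t1 c1 c2 : ℤ} {δ σ kL kR : ℝ}
    {M : ℕ} {G : GrdD (Fin A.cs.length) M σ δ D K (rhoE D) kL kR} (hq : 0 < A.p.q)
    (hD : D = 4 * K + 1) (hK : 10000 ≤ K) (hV : V = D / 8) (hE0 : 0 ≤ E)
    (hDm : 39 * (A.p.m * A.p.q) < D) (hE : 122 * (E + 1) ≤ 3 * D + 12)
    (hmid : t1 + E ≤ 2 * K + 2) (hc : CellAt A.p.m A.p.a A.p.b D t0 t1) (hw : -t1 ≤ w)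
    (hw' : w ≤ 1 - t0) (k1 : CutUp (2 * A.p.a) A.p.m D c1) (k1' : CutDn (2 * A.p.a) A.p.m D c1)
    (k2 : CutUp A.p.a (2 * A.p.m) D c2) (k2' : CutDn A.p.a (2 * A.p.m) D c2)
    (hcl : ∀ x : P4, G.ok x → (clN A.cs (G.cl x)).has A.p.q D x.2)
    (hi1 : ∀ x : P4, G.ok x → nth 0 A.iw (G.cl x) = 1 → w ≤ x.2.2)
    (hi2 : ∀ x : P4, G.ok x → nth 0 A.iw (G.cl x) = 2 → x.2.2 < w)
    {lamF : Fin A.cs.length × ℤ → Fin A.cs.length → Fin A.cs.length → Fin 9 → ℤ → ℝ} {εF : ℝ}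
    (hΦ : G.FamZ (phiI A W G V E t0 t1) lamF εF) :
    Net3W G (n3inw K (rhoE D) V E w t0 t1 c1 c2) (dk3cin D (rhoE D) E t0 t1 1 1 0 0)
      (wR G t1 (fun c => A.wr A.m1 c) (fun c => A.wr A.s2 c))
      (wL G t1 (fun c => A.wr A.m2 c) (fun c => A.wr A.s1 c))
      (movF K (rhoE D) w t0 t1 c1 c2 (fun x => A.wr A.a1 (G.cl x)) (fun x => A.wr A.a2 (G.cl x)))
      A.kzT lamF εF := by
  have hr := rho_le D
  have hfl := hO.flg hk hq hD hK hDm hE hc hw hw' k1 k1' k2 k2' hcl hi1 hi2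
  refine net3W_F (C := Fin A.cs.length) (vI := fun c : Fin A.cs.length => vIc A.p.q (clN A.cs c))
    (vO := fun c : Fin A.cs.length => vOc A.p.q (clN A.cs c))
    (ce := fun c : Fin A.cs.length => (ceI A.p.q A.p.m A.p.b (clN A.cs c) : ℝ) / 2)
    (cg := fun c : Fin A.cs.length => (cgI A.p.q A.p.m A.p.a A.p.b (clN A.cs c) : ℝ) / 2)
    hD hE0 hmid (by omega) (by omega) hfl
    (fun x hx h => by
      rw [hV]
      exact vIc_ge hq hD (by omega) (hcl x hx) h)
    (fun x hx h => by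
      rw [hV]
      exact vOc_lt hq hD (by omega) (hcl x hx) h)
    (fun x hx => aRinc_le_ce hq hD hK hDm hE0 hE hmid hc ?_ (hcl x hx))
    (fun x hx => aLc_le_cg hq hD (by omega) hc (hcl x hx))
    (fun c i j z => hO.kzT hk c i j z) hΦ
  have := ((G.okE x).1 hx).2
  omega

end

end MP61673a.RowI9
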