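import Pool.Agent.Mu673.GFam
import Pool.Agent.Mu673.FE7z
import Pool.Agent.Mu673.FEstep

/-!
CRUDE FAMILIES (threshold of a sampler node at the worst position of its hat support) AND ZONE FLAGS
(helper10). Crude condition `al X + be Y ≤ C` or `≥ C`, `X` sampler, `Y` label, node units.
-/

set_option autoImplicit false

namespace MP61673a.KC

open Finset MP61673a.Kink MP61673a.Bary MP61673a.Sos MP61673a.Fin MP61673a.FE

noncomputable section

/-! ### Real side -/

section real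

variable {C : Type} {M : ℕ} {σ δ : ℝ} {D K ρ : ℤ} {kL kR : ℝ} {G : GrdD C M σ δ D K ρ kL kR}

/-- A CRUDE COST FAMILY: one label function per sampler node -/
theorem fam_crP {χ : C × ℤ → ℤ → ℝ} (h0 : ∀ ζ m, 0 ≤ χ ζ m)
    {v : C → ℝ} {V1 : ℝ} (hv0 : ∀ c, 0 ≤ v c) (hv1 : ∀ c, v c ≤ V1)
    {fl : C → C → ℝ} (hf0 : ∀ c d, 0 ≤ fl c d) (hf1 : ∀ c d, fl c d ≤ 1)
    {Φ : P4 → P4 → P4 → ℝ} {cond : P4 → P4 → P4 → Prop} [∀ x y z, Decidable (cond x y z)]
    (hΦ : ∀ x y z, G.ok x → G.ok y → G.ok z →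
      Φ x y z ≤ v (G.cl x) * (fl (G.cl y) (G.cl z) * bo (cond x y z)))
    {ε : ℝ} (hε : 0 ≤ ε)
    (hc : ∀ x y z, G.ok x → G.ok y → G.ok z → cond x y z → ∀ i ∈ nd G.lo G.hi (G.cl x),
      |G.J x - i| < 1 → 1 ≤ pl (χ (G.cl x, i)) (yc M σ D (lab D y z)) + ε) :
    G.FamP Φ (fun ζ a b m => v ζ.1 * (fl a b * χ ζ m)) (V1 * ε) := by
  intro x y z hx hy hz
  set Y : ℝ := yc M σ D (lab D y z) with hY
  have key : bo (cond x y z)
      ≤ kX G.lo G.hi (fun ζ => pl (χ ζ) Y) (G.pt x) + ε := by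
    unfold bo
    split_ifs with c1
    · have := G.le_kX hx (v := 1 - ε) (f := fun ζ => pl (χ ζ) Y) (fun i hi' hi2 => by
        have := hc x y z hx hy hz c1 i hi' hi2
        linarith)
      linarith
    · have : 0 ≤ kX G.lo G.hi (fun ζ => pl (χ ζ) Y) (G.pt x) :=
        kX_nonneg _ _ _ fun _ _ => pl_nonneg (h0 _) _
      linarith
  have e1 : kX G.lo G.hi (fun ζ => pl (fun m => v ζ.1 * (fl (G.cl y) (G.cl z)
      * χ ζ m)) Y) (G.pt x)
      = v (G.cl x) * (fl (G.cl y) (G.cl z) * kX G.lo G.hi (fun ζ => pl (χ ζ) Y) (G.pt x)) := by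
    have e2 : (fun ζ : C × ℤ => pl (fun m => v ζ.1 * (fl (G.cl y) (G.cl z) * χ ζ m)) Y)
        = fun ζ => v ζ.1 * (fl (G.cl y) (G.cl z) * pl (χ ζ) Y) := by
      funext ζ
      rw [FE.pl_smul' (v ζ.1) (fun m => fl (G.cl y) (G.cl z) * χ ζ m),
        FE.pl_smul' (fl (G.cl y) (G.cl z)) (χ ζ)]
    rw [e2, GrdD.kX_cl v, kX_smul]
  beta_reduce
  rw [e1]
  have h1 := hΦ x y z hx hy hz
  have h2 := mul_le_mul_of_nonneg_left (mul_le_mul_of_nonneg_left key (hf0 (G.cl y) (G.cl z)))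
    (hv0 (G.cl x))
  have h3 : v (G.cl x) * (fl (G.cl y) (G.cl z) * ε) ≤ V1 * ε := by
    have a1 := mul_le_mul_of_nonneg_right (hf1 (G.cl y) (G.cl z)) hε
    have a2 := mul_le_mul_of_nonneg_left a1 (hv0 (G.cl x))
    have a3 := mul_le_mul_of_nonneg_right (hv1 (G.cl x)) hε
    linarith
  linarith

/-- A CRUDE GAIN FAMILY -/
theorem fam_crG {ψ : C × ℤ → ℤ → ℝ} (h1 : ∀ ζ m, ψ ζ m ≤ 1)
    {v : C → ℝ} {V1 : ℝ} (hv0 : ∀ c, 0 ≤ v c) (hv1 : ∀ c, v c ≤ V1)
    {fl : C → C → ℝ} (hf0 : ∀ c d, 0 ≤ fl c d) (hf1 : ∀ c d, fl c d ≤ 1)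
    {Φ : P4 → P4 → P4 → ℝ} {cond : P4 → P4 → P4 → Prop} [∀ x y z, Decidable (cond x y z)]
    (hΦ : ∀ x y z, G.ok x → G.ok y → G.ok z →
      Φ x y z ≤ -(v (G.cl x) * (fl (G.cl y) (G.cl z) * bo (cond x y z))))
    {ε : ℝ} (hε : 0 ≤ ε)
    (hc : ∀ x y z, G.ok x → G.ok y → G.ok z → ¬ cond x y z → ∀ i ∈ nd G.lo G.hi (G.cl x),
      |G.J x - i| < 1 → pl (ψ (G.cl x, i)) (yc M σ D (lab D y z)) ≤ ε) :
    G.FamP Φ (fun ζ a b m => -(v ζ.1 * (fl a b * ψ ζ m))) (V1 * ε) := by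
  intro x y z hx hy hz
  set Y : ℝ := yc M σ D (lab D y z) with hY
  have key : kX G.lo G.hi (fun ζ => pl (ψ ζ) Y) (G.pt x) ≤ bo (cond x y z) + ε := by
    unfold bo
    split_ifs with c1
    · have k1 := G.kX_le x (f := fun ζ => pl (ψ ζ) Y) (g := fun _ => 1)
        (fun ζ _ => pl_le_one (h1 ζ) _)
      rw [kX_const (G.regX hx)] at k1
      linarith
    · have k1 := G.le_kX hx (v := -ε) (f := fun ζ => -1 * pl (ψ ζ) Y) (fun i hi' hi2 => by
        have := hc x y z hx hy hz c1 i hi' hi2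
        linarith)
      rw [kX_smul] at k1
      linarith
  have e1 : kX G.lo G.hi (fun ζ => pl (fun m => -(v ζ.1 * (fl (G.cl y) (G.cl z)
      * ψ ζ m))) Y) (G.pt x)
      = -(v (G.cl x) * (fl (G.cl y) (G.cl z) * kX G.lo G.hi (fun ζ => pl (ψ ζ) Y) (G.pt x))) := by
    have e2 : (fun ζ : C × ℤ => pl (fun m => -(v ζ.1 * (fl (G.cl y) (G.cl z) * ψ ζ m))) Y)
        = fun ζ => (-v ζ.1) * (fl (G.cl y) (G.cl z) * pl (ψ ζ) Y) := by
      funext ζ
      rw [FE.pl_neg' (fun m => v ζ.1 * (fl (G.cl y) (G.cl z) * ψ ζ m)),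
        FE.pl_smul' (v ζ.1) (fun m => fl (G.cl y) (G.cl z) * ψ ζ m),
        FE.pl_smul' (fl (G.cl y) (G.cl z)) (ψ ζ)]
      ring
    rw [e2, GrdD.kX_cl (fun c => -v c), kX_smul]
    ring
  beta_reduce
  rw [e1]
  have h1 := hΦ x y z hx hy hz
  have h2 := mul_le_mul_of_nonneg_left (mul_le_mul_of_nonneg_left key (hf0 (G.cl y) (G.cl z)))
    (hv0 (G.cl x))
  have h3 : v (G.cl x) * (fl (G.cl y) (G.cl z) * ε) ≤ V1 * ε := by
    have a1 := mul_le_mul_of_nonneg_right (hf1 (G.cl y) (G.cl z)) hε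
    have a2 := mul_le_mul_of_nonneg_left a1 (hv0 (G.cl x))
    have a3 := mul_le_mul_of_nonneg_right (hv1 (G.cl x)) hε
    linarith
  linarith

end real

/-! ### Data -/

/-- a crude family, thresholds and positions in digits: `al p + be y` against `cN / cd`
(`p` = position of the sampler, `y` = digit of the label); `kd`: 0 cost `≤`, 1 gain `≤`, 2 gain `≥`,
3 cost `≥`; multiplier per class of the sampler, flag per end table -/
structure Gc where
  /-- coefficient of the sampler -/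
  al : ℕ
  /-- coefficient of the label -/
  be : ℕ
  /-- threshold, numerator -/
  cN : ℕ
  /-- threshold, denominator -/
  cd : ℕ
  /-- kind -/
  kd : ℕ
  /-- multiplier per class -/
  mu : List ℕ
  /-- flag per end table -/
  fk : List ℕ

/-- maximum -/
def mxN (a b : ℕ) : ℕ := Nat.add a (Nat.sub b a)

/-- minimum -/
def mnN (a b : ℕ) : ℕ := Nat.sub a (Nat.sub a b)

/-- number of digits before the step, lowest position of the sampler, rounded up -/
def cntA (f : Gc) (p lo : ℕ) : ℕ :=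
  Nat.succ (Nat.div (Nat.sub (Nat.add f.cN (Nat.sub (Nat.mul f.cd f.be) 1))
    (Nat.mul (Nat.mul f.cd f.al) (mxN (Nat.sub p 1) lo))) (Nat.mul f.cd f.be))

/-- number of digits before the step, highest position of the sampler, rounded down -/
def cntB (f : Gc) (p hi : ℕ) : ℕ :=
  Nat.div (Nat.sub f.cN (Nat.mul (Nat.mul f.cd f.al) (mnN (Nat.succ p) hi))) (Nat.mul f.cd f.be)

/-- the packed step of a sampler node -/
def wdC (P : ℕ) (f : Gc) (p lo hi : ℕ) : ℕ :=
  Nat.rec (motive := fun _ => ℕ) (rep (cntA f p lo))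
    (fun _ _ => Nat.sub (rep (Nat.succ (Nat.mul 3 P))) (rep (cntB f p hi))) (Nat.mod f.kd 2)

/-- multiplier of the class `c` and the end table `k` -/
def gcM (f : Gc) (c k : ℕ) : ℕ := Nat.mul (nth 0 f.mu c) (nth 0 f.fk k)

/-- `1` for gains -/
def isG (kd : ℕ) : ℕ :=
  Nat.rec (motive := fun _ => ℕ) 0 (fun k _ => Nat.rec (motive := fun _ => ℕ) 1
    (fun k' _ => Nat.rec (motive := fun _ => ℕ) 1 (fun _ _ => 0) k') k) kd

/-- one crude family at the node `z`, end table `k` -/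
def trC (d : DatR) (f : Gc) (z k : ℕ) : ℕ :=
  Nat.mul (gcM f (ixR d.segs z) k) (wdC d.P f (psR d.segs z) (sgR d.segs z).lo
    (Nat.sub (Nat.add (sgR d.segs z).lo (sgR d.segs z).len) 1))

/-- packed extra costs of the crude families -/
def exC (d : DatR) (fs : List Gc) (z k : ℕ) : ℕ := sumL (fun f => trC d f z k) fs

/-- constant of the gains -/
def exOC (fs : List Gc) (c k : ℕ) : ℕ := sumL (fun f => Nat.mul (gcM f c k) (isG f.kd)) fs

/-- expose the fields -/
def onC (f : Gc) (p : Gc → Bool) : Bool :=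
  Gc.rec (motive := fun _ => Bool) (fun al be cN cd kd mu fk => p ⟨al, be, cN, cd, kd, mu, fk⟩) f

/-- the check of one crude family -/
def chkC1 (f : Gc) : Bool :=
  Nat.ble 1 f.be && Nat.ble 1 f.cd && Nat.ble f.kd 3
    && allL f.mu (fun m => Nat.ble (Nat.succ m) 1073741824) && allL f.fk (fun m => Nat.ble m 1)

/-- the check of all crude families -/
def chkCs (fs : List Gc) : Bool :=
  Nat.ble (sumL (fun _ => 1) fs) 32 && allL fs (fun f => onC f chkC1)

/-- step function: `1` before the digit `cnt` -/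
def stp (P : ℕ) (s0 : ℤ) (cnt : ℕ) (m : ℤ) : ℝ :=
  if cnt = 0 then 0 else if m + P + s0 < cnt then 1 else 0

/-- first position of the class -/
def loP (d : DatR) (c : ℕ) : ℕ := (nth segD d.segs c).lo

/-- last position of the class -/
def hiP (d : DatR) (c : ℕ) : ℕ := Nat.sub (Nat.add (nth segD d.segs c).lo (nth segD d.segs c).len) 1

/-- the label function of a sampler node -/
def chC (d : DatR) (s0 : ℤ) (f : Gc) (ζ : ℕ × ℤ) (m : ℤ) : ℝ :=
  if f.kd = 0 then stp d.P s0 (cntA f (ζ.2 + s0).toNat (loP d ζ.1)) m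
  else if f.kd = 1 then stp d.P s0 (cntB f (ζ.2 + s0).toNat (hiP d ζ.1)) m
  else if f.kd = 2 then 1 - stp d.P s0 (cntA f (ζ.2 + s0).toNat (loP d ζ.1)) m
  else 1 - stp d.P s0 (cntB f (ζ.2 + s0).toNat (hiP d ζ.1)) m

/-- weight of the class -/
def vC (s : ℝ) (f : Gc) (c : ℕ) : ℝ := s * (nth 0 f.mu c : ℕ)

/-- flag of the pair of classes -/
def flC (d : DatR) (f : Gc) (a b : ℕ) : ℝ := (nth 0 f.fk (plE d.segs a b).k1 : ℕ)

/-- the label function of one crude family -/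
def lamC1 (d : DatR) (s0 : ℤ) (s : ℝ) (f : Gc) (ζ : ℕ × ℤ) (a b : ℕ) (m : ℤ) : ℝ :=
  if f.kd = 1 ∨ f.kd = 2 then -(vC s f ζ.1 * (flC d f a b * chC d s0 f ζ m))
  else vC s f ζ.1 * (flC d f a b * chC d s0 f ζ m)

/-- the label function of all crude families -/
def lamC (d : DatR) (s0 : ℤ) (s : ℝ) (fs : List Gc) (ζ : ℕ × ℤ) (a b : ℕ) (m : ℤ) : ℝ :=
  (fs.map fun f => lamC1 d s0 s f ζ a b m).sum

/-- the threshold in node units -/
def cC (P : ℕ) (s0 : ℤ) (f : Gc) : ℝ := (f.cN:ℝ) / f.cd - (f.al * s0 + f.be * (P + s0))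

end

/-! ### Soundness -/

lemma onC_eq (f : Gc) (p : Gc → Bool) : onC f p = p f := by
  cases f
  rfl

lemma mxN_eq (a b : ℕ) : mxN a b = max a b := by
  have : mxN a b = a + (b - a) := rfl
  omega

lemma mnN_eq (a b : ℕ) : mnN a b = min a b := by
  have : mnN a b = a - (a - b) := rfl
  omega

/-- the conditions of one crude family -/
structure CruOK (f : Gc) : Prop where
  be : 1 ≤ f.be
  cd : 1 ≤ f.cd
  kd : f.kd ≤ 3
  mu : ∀ c, nth 0 f.mu c < 2 ^ 30
  fk : ∀ k, nth 0 f.fk k ≤ 1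

lemma chkC1_imp {f : Gc} (h : chkC1 f = true) : CruOK f := by
  unfold chkC1 at h
  simp only [Bool.and_eq_true] at h
  obtain ⟨⟨⟨⟨h1, h2⟩, h3⟩, h4⟩, h5⟩ := h
  refine ⟨Nat.le_of_ble_eq_true h1, Nat.le_of_ble_eq_true h2, Nat.le_of_ble_eq_true h3,
    fun c => ?_, fun k => ?_⟩
  · rcases nth_mem 0 f.mu c with h | h
    · have := (allL_iff _ _).1 h4 _ h
      exact Nat.lt_of_succ_le (Nat.le_of_ble_eq_true this)
    · rw [h]
      positivity
  · rcases nth_mem 0 f.fk k with h | h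
    · exact Nat.le_of_ble_eq_true ((allL_iff _ _).1 h5 _ h)
    · rw [h]
      omega

lemma chkCs_imp {fs : List Gc} (h : chkCs fs = true) :
    fs.length ≤ 32 ∧ ∀ f ∈ fs, CruOK f := by
  unfold chkCs at h
  rw [Bool.and_eq_true] at h
  refine ⟨?_, fun f hf => ?_⟩
  · have := Nat.le_of_ble_eq_true h.1
    rwa [sumL_one] at this
  · have := (allL_iff _ _).1 h.2 f hf
    rw [onC_eq] at this
    exact chkC1_imp this

lemma isG_eq {kd : ℕ} (h : kd ≤ 3) : isG kd = if kd = 1 ∨ kd = 2 then 1 else 0 := by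
  interval_cases kd <;> rfl

lemma dg_rep (n y : ℕ) : dg (rep n) y = if y < n then 1 else 0 := by
  by_cases h : y < n
  · rw [if_pos h]
    have := (Rp.rep n).dg (fun c _ => by norm_num) h
    exact_mod_cast this
  · rw [if_neg h]
    refine dg_of_lt (m := n) ?_ (not_lt.1 h)
    have h1 : rep n = ∑ c ∈ range n, 2 ^ (40 * c) := rep_eq n
    rw [h1]
    clear h h1
    induction n with
    | zero => simp
    | succ n ih =>
      rw [sum_range_succ, show 40 * (n + 1) = 40 * n + 40 by ring, pow_add]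
      have : (2:ℕ) ^ (40 * n) * 2 ^ 40 = 2 ^ (40 * n) + (2 ^ 40 - 1) * 2 ^ (40 * n) := by
        calc (2:ℕ) ^ (40 * n) * 2 ^ 40 = 2 ^ (40 * n) * (1 + (2 ^ 40 - 1)) := by norm_num
          _ = 2 ^ (40 * n) + (2 ^ 40 - 1) * 2 ^ (40 * n) := by ring
      rw [this]
      have h2 : (2:ℕ) ^ (40 * n) ≤ (2 ^ 40 - 1) * 2 ^ (40 * n) :=
        Nat.le_mul_of_pos_left _ (by norm_num)
      omega

/-- digits of a difference of repunits -/
lemma dg_rep_sub (n c y : ℕ) : dg (Nat.sub (rep n) (rep c)) y = if c ≤ y ∧ y < n then 1 else 0 := by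
  rcases le_total n c with h | h
  · have h1 : rep n ≤ rep c := by
      rw [rep_eq, rep_eq]
      exact sum_le_sum_of_subset (range_mono h)
    have h2 : Nat.sub (rep n) (rep c) = 0 := Nat.sub_eq_zero_of_le h1
    rw [h2, dg_zero, if_neg (by omega)]
  · -- the difference is a sum of powers
    have h1 : Nat.sub (rep n) (rep c) = ∑ j ∈ range n, (if c ≤ j then 1 else 0) * 2 ^ (40 * j) := by
      have h2 : rep n = rep c + ∑ j ∈ range n, (if c ≤ j then 1 else 0) * 2 ^ (40 * j) := by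
        rw [rep_eq, rep_eq]
        have h3 : ∑ j ∈ range c, 2 ^ (40 * j)
            = ∑ j ∈ range n, (if c ≤ j then 0 else 1) * 2 ^ (40 * j) := by
          rw [← sum_range_add_sum_Ico _ h]
          have a1 : ∑ j ∈ range c, (if c ≤ j then 0 else 1) * 2 ^ (40 * j)
              = ∑ j ∈ range c, 2 ^ (40 * j) := by
            refine sum_congr rfl fun j hj => ?_
            rw [if_neg (by have := mem_range.1 hj; omega), one_mul]
          have a2 : ∑ j ∈ Ico c n, (if c ≤ j then 0 else 1) * 2 ^ (40 * j) = 0 := by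
            refine sum_eq_zero fun j hj => ?_
            rw [if_pos (mem_Ico.1 hj).1, zero_mul]
          rw [a1, a2, add_zero]
        rw [h3, ← sum_add_distrib]
        refine sum_congr rfl fun j _ => ?_
        split_ifs <;> ring
      show rep n - rep c = _
      omega
    have h4 : Rp n (Nat.sub (rep n) (rep c)) (fun j => if c ≤ j then 1 else 0) := by
      have := Rp.self n (Nat.sub (rep n) (rep c))
      have h5 : Nat.sub (rep n) (rep c) % 2 ^ (40 * n)
          = ∑ j ∈ range n, (if c ≤ j then 1 else 0) * 2 ^ (40 * j) := by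
        rw [← h1]
        refine Nat.mod_eq_of_lt ?_
        have h6 : Nat.sub (rep n) (rep c) ≤ rep n := Nat.sub_le _ _
        refine h6.trans_lt ?_
        by_contra hc
        push Not at hc
        have h7 := mod_eq_sum (rep n) n
        have h8 : rep n % 2 ^ (40 * n) = rep n := by
          rw [h7, rep_eq]
          refine sum_congr rfl fun j hj => ?_
          rw [← rep_eq, dg_rep, if_pos (mem_range.1 hj), one_mul]
        have h9 : rep n % 2 ^ (40 * n) < 2 ^ (40 * n) := Nat.mod_lt _ (by positivity)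
        omega
      have h10 := mod_eq_sum (Nat.sub (rep n) (rep c)) n
      have h11 := digits_unique n (fun j => (dg (Nat.sub (rep n) (rep c)) j : ℤ))
        (fun j => if c ≤ j then 1 else 0) (fun j _ => ⟨by positivity, by
          exact_mod_cast dg_lt _ _⟩) (fun j _ => by split_ifs <;> norm_num) (by
          have h12 : ∑ j ∈ range n, dg (Nat.sub (rep n) (rep c)) j * 2 ^ (40 * j)
              = ∑ j ∈ range n, (if c ≤ j then 1 else 0) * 2 ^ (40 * j) := by
            rw [← h10, h5]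
          have h13 : ((∑ j ∈ range n, dg (Nat.sub (rep n) (rep c)) j * 2 ^ (40 * j) : ℕ) : ℤ)
              = ((∑ j ∈ range n, (if c ≤ j then 1 else 0) * 2 ^ (40 * j) : ℕ) : ℤ) := by
            exact_mod_cast h12
          push_cast at h13
          rw [h13])
      exact this.congr fun j hj => h11 j hj
    by_cases hy : y < n
    · have := h4.dg (fun j _ => by split_ifs <;> norm_num) hy
      by_cases hc : c ≤ y
      · rw [if_pos ⟨hc, hy⟩]
        rw [if_pos hc] at this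
        exact_mod_cast this
      · rw [if_neg (fun h => hc h.1)]
        rw [if_neg hc] at this
        exact_mod_cast this
    · rw [if_neg (fun h => hy h.2)]
      refine dg_of_lt (m := n) ?_ (not_lt.1 hy)
      have h6 : Nat.sub (rep n) (rep c) ≤ rep n := Nat.sub_le _ _
      refine h6.trans_lt ?_
      have h7 := mod_eq_sum (rep n) n
      have h8 : rep n % 2 ^ (40 * n) = rep n := by
        rw [h7, rep_eq]
        refine sum_congr rfl fun j hj => ?_
        rw [← rep_eq, dg_rep, if_pos (mem_range.1 hj), one_mul]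
      have h9 : rep n % 2 ^ (40 * n) < 2 ^ (40 * n) := Nat.mod_lt _ (by positivity)
      omega

/-! ### Steps -/

lemma stp_nonneg (P : ℕ) (s0 : ℤ) (c : ℕ) (m : ℤ) : 0 ≤ stp P s0 c m := by
  unfold stp
  split_ifs <;> norm_num

lemma stp_le (P : ℕ) (s0 : ℤ) (c : ℕ) (m : ℤ) : stp P s0 c m ≤ 1 := by
  unfold stp
  split_ifs <;> norm_num

lemma stp_abs (P : ℕ) (s0 : ℤ) (c : ℕ) (m : ℤ) : |stp P s0 c m| ≤ 1 := by
  rw [abs_of_nonneg (stp_nonneg _ _ _ _)]
  exact stp_le _ _ _ _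

/-- the step is one left of its last node, up to a distance -/
lemma pl_stp_ge {P : ℕ} {s0 : ℤ} {n : ℕ} {Y η : ℝ} (hη : 0 ≤ η) (h : Y + P + s0 ≤ n + η) :
    1 - 2 * η ≤ pl (stp P s0 (n + 1)) Y := by
  set Y' : ℝ := min Y ((n:ℝ) - P - s0) with hY'
  have h1 : (1:ℝ) ≤ pl (stp P s0 (n + 1)) Y' := by
    have := pl_mono_left (f := fun _ => (1:ℝ)) (g := stp P s0 (n + 1)) (b := (n:ℤ) - P - s0)
      (fun m hm => by
        unfold stp
        rw [if_neg (by omega), if_pos (by push_cast; omega)]) (x := Y') (by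
        push_cast
        exact min_le_right _ _)
    rwa [pl_cst] at this
  have h2 := abs_le.1 (pl_lip (stp_abs P s0 (n + 1)) Y Y')
  have h3 : |Y - Y'| ≤ η := by
    rw [abs_of_nonneg (sub_nonneg.2 (min_le_left _ _))]
    rcases le_total Y ((n:ℝ) - P - s0) with c | c
    · rw [hY', min_eq_left c]
      linarith
    · rw [hY', min_eq_right c]
      linarith
  nlinarith [h2.1]

/-- the step is zero right of its count, up to a distance -/
lemma pl_stp_le {P : ℕ} {s0 : ℤ} {n : ℕ} {Y η : ℝ} (hη : 0 ≤ η)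
    (h : n ≠ 0 → (n:ℝ) - η ≤ Y + P + s0) :
    pl (stp P s0 n) Y ≤ 2 * η := by
  by_cases hn : n = 0
  · have e : stp P s0 n = fun _ => 0 := by
      funext m
      unfold stp
      rw [if_pos hn]
    rw [e, pl_cst]
    linarith
  · have h0 := h hn
    set Y' : ℝ := max Y ((n:ℝ) - P - s0) with hY'
    have h1 : pl (stp P s0 n) Y' ≤ 0 := by
      have := pl_mono_right (f := stp P s0 n) (g := fun _ => (0:ℝ)) (a := (n:ℤ) - P - s0)
        (fun m hm => by
          unfold stp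
          rw [if_neg hn, if_neg (by omega)]) (x := Y') (by
          push_cast
          exact le_max_right _ _)
      rwa [pl_cst] at this
    have h2 := abs_le.1 (pl_lip (stp_abs P s0 n) Y Y')
    have h3 : |Y - Y'| ≤ η := by
      rw [abs_of_nonpos (sub_nonpos.2 (le_max_left _ _))]
      rcases le_total Y ((n:ℝ) - P - s0) with c | c
      · rw [hY', max_eq_right c]
        linarith
      · rw [hY', max_eq_left c]
        linarith
    nlinarith [h2.2]

section real2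

variable {C : Type} {M : ℕ} {σ δ : ℝ} {D K ρ : ℤ} {kL kR : ℝ} {G : GrdD C M σ δ D K ρ kL kR}
  {d : DatR} {s0 : ℤ} {ι : C → ℕ}

/-- KEY A: the condition `≤` -/
lemma keyA {f : Gc} (F : CruOK f) (hG : ∀ c, G.lo c = loR d.segs s0 (ι c)) {x : P4} (hx : G.ok x)
    {i : ℤ} (hi : i ∈ nd G.lo G.hi (G.cl x)) (hi2 : |G.J x - i| < 1) {Y η : ℝ} (hη : 0 ≤ η)
    (hc : f.al * yc M σ D (lc D x.2) + f.be * Y ≤ cC d.P s0 f + η) :
    1 - 2 * (η + f.al * δ)
      ≤ pl (stp d.P s0 (cntA f (i + s0).toNat (loP d (ι (G.cl x))))) Y := by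
  have hδ := G.delta_nonneg hx
  have hnx := abs_le.1 (G.near x hx)
  have hr := G.reg x hx
  have hbe : (1:ℝ) ≤ f.be := by exact_mod_cast F.be
  have hcd : (1:ℝ) ≤ f.cd := by exact_mod_cast F.cd
  have hal : (0:ℝ) ≤ f.al := Nat.cast_nonneg _
  set lo := loP d (ι (G.cl x)) with hlo
  set p := (i + s0).toNat with hp
  have hlo' : (G.lo (G.cl x) : ℝ) = lo - s0 := by
    rw [hG, hlo]
    unfold loR loP
    push_cast
    ring
  have hil : (lo : ℤ) ≤ i + s0 := by
    have h1 := (mem_Icc.1 hi).1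
    rw [hG] at h1
    unfold loR at h1
    unfold loP at hlo
    omega
  -- the lowest position
  set q := mxN (Nat.sub p 1) lo with hq
  have hq' : (q:ℝ) ≤ G.J x + s0 := by
    rw [hq, mxN_eq]
    have h1 : (lo : ℝ) ≤ G.J x + s0 := by
      have := hr.1
      rw [hlo'] at this
      linarith
    have h2 : ((Nat.sub p 1 : ℕ) : ℝ) ≤ G.J x + s0 := by
      have h3 := (abs_lt.1 hi2).1
      have h4 : ((p : ℤ) : ℝ) = i + s0 := by
        have : (p : ℤ) = i + s0 := by
          rw [hp]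
          have : (0:ℤ) ≤ lo := Int.natCast_nonneg _
          omega
        rw [this]
        push_cast
        ring
      rcases Nat.eq_zero_or_pos p with h5 | h5
      · have h6 : Nat.sub p 1 = 0 := by
          show p - 1 = 0
          omega
        rw [h6]
        have h7 : (0:ℝ) ≤ lo := Nat.cast_nonneg _
        push_cast
        linarith
      · have h6 : ((Nat.sub p 1 : ℕ) : ℝ) = p - 1 := by
          show ((p - 1 : ℕ) : ℝ) = p - 1
          rw [Nat.cast_sub h5]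
          push_cast
          ring
        rw [h6]
        have h8 : (p:ℝ) = i + s0 := by exact_mod_cast h4
        linarith
    exact_mod_cast (show ((max (Nat.sub p 1) lo : ℕ) : ℝ) ≤ G.J x + s0 by
      rcases le_total (Nat.sub p 1) lo with c | c
      · rw [max_eq_right c]
        exact h1
      · rw [max_eq_left c]
        exact h2)
  -- the count
  set n := Nat.div (Nat.sub (Nat.add f.cN (Nat.sub (Nat.mul f.cd f.be) 1))
    (Nat.mul (Nat.mul f.cd f.al) q)) (Nat.mul f.cd f.be) with hn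
  have hcnt : cntA f p lo = n + 1 := rfl
  have hpos : 0 < f.cd * f.be := Nat.mul_pos (by have := F.cd; omega) (by have := F.be; omega)
  have hn' : (f.cN : ℝ) - f.cd * f.al * q ≤ f.cd * f.be * n := by
    have e : n = (f.cN + (f.cd * f.be - 1) - f.cd * f.al * q) / (f.cd * f.be) := rfl
    have h1 := Nat.div_add_mod (f.cN + (f.cd * f.be - 1) - f.cd * f.al * q) (f.cd * f.be)
    have h2 := Nat.mod_lt (f.cN + (f.cd * f.be - 1) - f.cd * f.al * q) hpos
    rw [← e] at h1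
    have h3 : f.cN ≤ f.cd * f.be * n + f.cd * f.al * q := by omega
    have h4 : (f.cN : ℝ) ≤ f.cd * f.be * n + f.cd * f.al * q := by exact_mod_cast h3
    linarith
  have hfin : Y + d.P + s0 ≤ n + (η + f.al * δ) := by
    have hC : cC d.P s0 f * f.cd = f.cN - f.cd * (f.al * s0 + f.be * (d.P + s0)) := by
      unfold cC
      have : (f.cd:ℝ) ≠ 0 := by positivity
      field_simp
    -- al J <= al (yc + delta)
    have h1 : (f.al:ℝ) * G.J x ≤ f.al * (yc M σ D (lc D x.2) + δ) :=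
      mul_le_mul_of_nonneg_left (by linarith [hnx.2]) hal
    have h2 : (f.al:ℝ) * q ≤ f.al * (G.J x + s0) := mul_le_mul_of_nonneg_left hq' hal
    have h3 : (f.be:ℝ) * (Y + d.P + s0) ≤ cC d.P s0 f + (f.al * s0 + f.be * (d.P + s0))
        - f.al * q + (η + f.al * δ) := by nlinarith
    have h4 : (f.cd:ℝ) * (cC d.P s0 f + (f.al * s0 + f.be * (d.P + s0)) - f.al * q)
        ≤ f.cd * (f.be * n) := by nlinarith
    have h5 : cC d.P s0 f + (f.al * s0 + f.be * (d.P + s0)) - f.al * q ≤ f.be * n :=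
      le_of_mul_le_mul_left h4 (by linarith)
    have h6 : (f.be:ℝ) * (Y + d.P + s0) ≤ f.be * (n + (η + f.al * δ)) := by
      have : (0:ℝ) ≤ η + f.al * δ := by positivity
      nlinarith
    exact le_of_mul_le_mul_left h6 (by linarith)
  rw [hcnt]
  exact pl_stp_ge (by positivity) hfin

/-- KEY B: the condition `≥` -/
lemma keyB {f : Gc} (F : CruOK f) (hGl : ∀ c, G.lo c = loR d.segs s0 (ι c))
    (hG : ∀ c, G.hi c = hiR d.segs s0 (ι c)) {x : P4} (hx : G.ok x)
    {i : ℤ} (hiN : i ∈ nd G.lo G.hi (G.cl x)) (hi2 : |G.J x - i| < 1) {Y η : ℝ}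
    (hη : 0 ≤ η) (hc : cC d.P s0 f - η ≤ f.al * yc M σ D (lc D x.2) + f.be * Y) :
    pl (stp d.P s0 (cntB f (i + s0).toNat (hiP d (ι (G.cl x))))) Y ≤ 2 * (η + f.al * δ) := by
  have hδ := G.delta_nonneg hx
  have hnx := abs_le.1 (G.near x hx)
  have hr := G.reg x hx
  have hbe : (1:ℝ) ≤ f.be := by exact_mod_cast F.be
  have hcd : (1:ℝ) ≤ f.cd := by exact_mod_cast F.cd
  have hal : (0:ℝ) ≤ f.al := Nat.cast_nonneg _
  have hi0 : 0 ≤ i + s0 := by
    have h1 := (mem_Icc.1 hiN).1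
    rw [hGl] at h1
    unfold loR at h1
    omega
  have hlen : 1 ≤ (nth segD d.segs (ι (G.cl x))).lo + (nth segD d.segs (ι (G.cl x))).len := by
    have h1 := (mem_Icc.1 hiN).1
    have h2 := (mem_Icc.1 hiN).2
    rw [hGl] at h1
    rw [hG] at h2
    unfold loR at h1
    unfold hiR at h2
    omega
  set hi := hiP d (ι (G.cl x)) with hhi
  set p := (i + s0).toNat with hp
  have hhi' : (G.hi (G.cl x) : ℝ) = hi - s0 := by
    rw [hG, hhi]
    unfold hiR hiP
    have h1 := hlen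
    have e : Nat.sub (Nat.add (nth segD d.segs (ι (G.cl x))).lo (nth segD d.segs (ι (G.cl x))).len) 1
        = (nth segD d.segs (ι (G.cl x))).lo + (nth segD d.segs (ι (G.cl x))).len - 1 := rfl
    rw [e, Nat.cast_sub h1]
    push_cast
    ring
  -- the highest position
  set q := mnN (Nat.succ p) hi with hq
  have hq' : G.J x + s0 ≤ q := by
    rw [hq, mnN_eq]
    have h1 : G.J x + s0 ≤ (hi : ℝ) := by
      have := hr.2
      rw [hhi'] at this
      linarith
    have h2 : G.J x + s0 ≤ ((Nat.succ p : ℕ) : ℝ) := by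
      have h3 := (abs_lt.1 hi2).2
      have h4 : (p : ℤ) = i + s0 := by
        rw [hp]
        omega
      have h5 : (p : ℝ) = i + s0 := by exact_mod_cast h4
      rw [Nat.cast_succ, h5]
      linarith
    exact_mod_cast (show G.J x + s0 ≤ ((min (Nat.succ p) hi : ℕ) : ℝ) by
      rcases le_total (Nat.succ p) hi with c | c
      · rw [min_eq_left c]
        exact h2
      · rw [min_eq_right c]
        exact h1)
  set n := cntB f p hi with hn
  have hpos : 0 < f.cd * f.be := Nat.mul_pos (by have := F.cd; omega) (by have := F.be; omega)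
  refine pl_stp_le (by positivity) (fun hn0 => ?_)
  have hn' : (f.cd:ℝ) * f.be * n ≤ f.cN - f.cd * f.al * q := by
    have e : n = (f.cN - f.cd * f.al * q) / (f.cd * f.be) := rfl
    have h1 := Nat.div_mul_le_self (f.cN - f.cd * f.al * q) (f.cd * f.be)
    rw [← e] at h1
    have h2 : 0 < n * (f.cd * f.be) := Nat.mul_pos (by omega) hpos
    have h3 : f.cd * f.be * n + f.cd * f.al * q ≤ f.cN := by
      have : f.cd * f.be * n = n * (f.cd * f.be) := by ring
      omega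
    have h4 : (f.cd:ℝ) * f.be * n + f.cd * f.al * q ≤ f.cN := by exact_mod_cast h3
    linarith
  have hC : cC d.P s0 f * f.cd = f.cN - f.cd * (f.al * s0 + f.be * (d.P + s0)) := by
    unfold cC
    have : (f.cd:ℝ) ≠ 0 := by positivity
    field_simp
  have h1 : (f.al:ℝ) * (yc M σ D (lc D x.2) - δ) ≤ f.al * G.J x :=
    mul_le_mul_of_nonneg_left (by linarith [hnx.1]) hal
  have h2 : (f.al:ℝ) * (G.J x + s0) ≤ f.al * q := mul_le_mul_of_nonneg_left hq' hal
  have h3 : cC d.P s0 f + (f.al * s0 + f.be * (d.P + s0)) - f.al * q - (η + f.al * δ)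
      ≤ (f.be:ℝ) * (Y + d.P + s0) := by nlinarith
  have h4 : (f.cd:ℝ) * (f.be * n)
      ≤ f.cd * (cC d.P s0 f + (f.al * s0 + f.be * (d.P + s0)) - f.al * q) := by nlinarith
  have h5 : (f.be:ℝ) * n ≤ cC d.P s0 f + (f.al * s0 + f.be * (d.P + s0)) - f.al * q :=
    le_of_mul_le_mul_left h4 (by linarith)
  have h6 : (f.be:ℝ) * (n - (η + f.al * δ)) ≤ f.be * (Y + d.P + s0) := by
    have : (0:ℝ) ≤ η + f.al * δ := by positivity
    nlinarith
  exact le_of_mul_le_mul_left h6 (by linarith)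

end real2

section real3

variable {C : Type} {M : ℕ} {σ δ : ℝ} {D K ρ : ℤ} {kL kR : ℝ} {G : GrdD C M σ δ D K ρ kL kR}
  {d : DatR} {s0 : ℤ} {ι : C → ℕ}

lemma pl_one_sub (f : ℤ → ℝ) (x : ℝ) : pl (fun m => 1 - f m) x = 1 - pl f x := by
  unfold pl
  ring

lemma vC_nonneg {s : ℝ} (hs : 0 ≤ s) (f : Gc) (c : ℕ) : 0 ≤ vC s f c := by
  unfold vC
  positivity

lemma CruOK.v_le {f : Gc} (F : CruOK f) {s : ℝ} (hs : 0 ≤ s) (c : ℕ) : vC s f c ≤ s * 2 ^ 30 := by
  unfold vC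
  have h : ((nth 0 f.mu c : ℕ) : ℝ) ≤ 2 ^ 30 := by exact_mod_cast (F.mu c).le
  exact mul_le_mul_of_nonneg_left h hs

lemma flC_nonneg (d : DatR) (f : Gc) (a b : ℕ) : 0 ≤ flC d f a b := Nat.cast_nonneg _

lemma CruOK.fl_le {f : Gc} (F : CruOK f) (d : DatR) (a b : ℕ) : flC d f a b ≤ 1 := by
  unfold flC
  exact_mod_cast F.fk _

lemma chC_nonneg (d : DatR) (s0 : ℤ) (f : Gc) (ζ : ℕ × ℤ) (m : ℤ) : 0 ≤ chC d s0 f ζ m := by
  unfold chC
  split_ifs
  · exact stp_nonneg _ _ _ _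
  · exact stp_nonneg _ _ _ _
  · exact sub_nonneg.2 (stp_le _ _ _ _)
  · exact sub_nonneg.2 (stp_le _ _ _ _)

lemma chC_le (d : DatR) (s0 : ℤ) (f : Gc) (ζ : ℕ × ℤ) (m : ℤ) : chC d s0 f ζ m ≤ 1 := by
  unfold chC
  split_ifs
  · exact stp_le _ _ _ _
  · exact stp_le _ _ _ _
  · exact sub_le_self _ (stp_nonneg _ _ _ _)
  · exact sub_le_self _ (stp_nonneg _ _ _ _)

/-- CRUDE COST FAMILY -/
theorem CruOK.famC {f : Gc} (F : CruOK f) (hk : f.kd = 0 ∨ f.kd = 3)
    (hGl : ∀ c, G.lo c = loR d.segs s0 (ι c)) (hGh : ∀ c, G.hi c = hiR d.segs s0 (ι c))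
    {s : ℝ} (hs : 0 ≤ s) {η : ℝ} (hη : 0 ≤ η) (hδ : 0 ≤ δ) {Φ : P4 → P4 → P4 → ℝ}
    {cond : P4 → P4 → P4 → Prop} [∀ x y z, Decidable (cond x y z)]
    (hΦ : ∀ x y z, G.ok x → G.ok y → G.ok z →
      Φ x y z ≤ vC s f (ι (G.cl x)) * (flC d f (ι (G.cl y)) (ι (G.cl z)) * bo (cond x y z)))
    (h0 : f.kd = 0 → ∀ x y z, G.ok x → G.ok y → G.ok z → cond x y z →
      f.al * yc M σ D (lc D x.2) + f.be * yc M σ D (lab D y z) ≤ cC d.P s0 f + η)
    (h3 : f.kd = 3 → ∀ x y z, G.ok x → G.ok y → G.ok z → cond x y z →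
      cC d.P s0 f - η ≤ f.al * yc M σ D (lc D x.2) + f.be * yc M σ D (lab D y z)) :
    G.FamP Φ (fun ζ a b m => lamC1 d s0 s f (ι ζ.1, ζ.2) (ι a) (ι b) m)
      (s * 2 ^ 30 * (2 * (η + f.al * δ))) := by
  have e : (fun (ζ : C × ℤ) (a b : C) (m : ℤ) => lamC1 d s0 s f (ι ζ.1, ζ.2) (ι a) (ι b) m)
      = fun ζ a b m => vC s f (ι ζ.1) * (flC d f (ι a) (ι b) * chC d s0 f (ι ζ.1, ζ.2) m) := by
    funext ζ a b m
    unfold lamC1
    rw [if_neg (by omega)]
  rw [e]
  refine fam_crP (G := G) (χ := fun ζ m => chC d s0 f (ι ζ.1, ζ.2) m)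
    (fun ζ m => chC_nonneg _ _ _ _ _) (v := fun c => vC s f (ι c)) (fun c => vC_nonneg hs f _)
    (fun c => F.v_le hs _) (fl := fun a b => flC d f (ι a) (ι b)) (fun a b => flC_nonneg d f _ _)
    (fun a b => F.fl_le d _ _) hΦ (by positivity) (fun x y z hx hy hz hcd i hi hi2 => ?_)
  rcases hk with hk | hk
  · have k := keyA F hGl hx hi hi2 hη (h0 hk x y z hx hy hz hcd)
    have e2 : (fun m => chC d s0 f (ι (G.cl x), i) m)
        = stp d.P s0 (cntA f (i + s0).toNat (loP d (ι (G.cl x)))) := by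
      funext m
      unfold chC
      rw [if_pos hk]
    show 1 ≤ pl (fun m => chC d s0 f (ι (G.cl x), i) m) _ + _
    rw [e2]
    linarith
  · have k := keyB F hGl hGh hx hi hi2 hη (h3 hk x y z hx hy hz hcd)
    have e2 : (fun m => chC d s0 f (ι (G.cl x), i) m)
        = fun m => 1 - stp d.P s0 (cntB f (i + s0).toNat (hiP d (ι (G.cl x)))) m := by
      funext m
      unfold chC
      rw [if_neg (by omega), if_neg (by omega), if_neg (by omega)]
    show 1 ≤ pl (fun m => chC d s0 f (ι (G.cl x), i) m) _ + _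
    rw [e2, pl_one_sub]
    linarith

/-- CRUDE GAIN FAMILY -/
theorem CruOK.famG {f : Gc} (F : CruOK f) (hk : f.kd = 1 ∨ f.kd = 2)
    (hGl : ∀ c, G.lo c = loR d.segs s0 (ι c)) (hGh : ∀ c, G.hi c = hiR d.segs s0 (ι c))
    {s : ℝ} (hs : 0 ≤ s) {η : ℝ} (hη : 0 ≤ η) (hδ : 0 ≤ δ) {Φ : P4 → P4 → P4 → ℝ}
    {cond : P4 → P4 → P4 → Prop} [∀ x y z, Decidable (cond x y z)]
    (hΦ : ∀ x y z, G.ok x → G.ok y → G.ok z →
      Φ x y z ≤ -(vC s f (ι (G.cl x)) * (flC d f (ι (G.cl y)) (ι (G.cl z)) * bo (cond x y z))))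
    (h1 : f.kd = 1 → ∀ x y z, G.ok x → G.ok y → G.ok z → ¬ cond x y z →
      cC d.P s0 f - η ≤ f.al * yc M σ D (lc D x.2) + f.be * yc M σ D (lab D y z))
    (h2 : f.kd = 2 → ∀ x y z, G.ok x → G.ok y → G.ok z → ¬ cond x y z →
      f.al * yc M σ D (lc D x.2) + f.be * yc M σ D (lab D y z) ≤ cC d.P s0 f + η) :
    G.FamP Φ (fun ζ a b m => lamC1 d s0 s f (ι ζ.1, ζ.2) (ι a) (ι b) m)
      (s * 2 ^ 30 * (2 * (η + f.al * δ))) := by
  have e : (fun (ζ : C × ℤ) (a b : C) (m : ℤ) => lamC1 d s0 s f (ι ζ.1, ζ.2) (ι a) (ι b) m)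
      = fun ζ a b m => -(vC s f (ι ζ.1) * (flC d f (ι a) (ι b)
        * chC d s0 f (ι ζ.1, ζ.2) m)) := by
    funext ζ a b m
    unfold lamC1
    rw [if_pos hk]
  rw [e]
  refine fam_crG (G := G) (ψ := fun ζ m => chC d s0 f (ι ζ.1, ζ.2) m)
    (fun ζ m => chC_le _ _ _ _ _) (v := fun c => vC s f (ι c)) (fun c => vC_nonneg hs f _)
    (fun c => F.v_le hs _) (fl := fun a b => flC d f (ι a) (ι b)) (fun a b => flC_nonneg d f _ _)
    (fun a b => F.fl_le d _ _) hΦ (by positivity) (fun x y z hx hy hz hcd i hi hi2 => ?_)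
  rcases hk with hk | hk
  · have k := keyB F hGl hGh hx hi hi2 hη (h1 hk x y z hx hy hz hcd)
    have e2 : (fun m => chC d s0 f (ι (G.cl x), i) m)
        = stp d.P s0 (cntB f (i + s0).toNat (hiP d (ι (G.cl x)))) := by
      funext m
      unfold chC
      rw [if_neg (by omega), if_pos hk]
    show pl (fun m => chC d s0 f (ι (G.cl x), i) m) _ ≤ _
    rw [e2]
    exact k
  · have k := keyA F hGl hx hi hi2 hη (h2 hk x y z hx hy hz hcd)
    have e2 : (fun m => chC d s0 f (ι (G.cl x), i) m)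
        = fun m => 1 - stp d.P s0 (cntA f (i + s0).toNat (loP d (ι (G.cl x)))) m := by
      funext m
      unfold chC
      rw [if_neg (by omega), if_neg (by omega), if_pos hk]
    show pl (fun m => chC d s0 f (ι (G.cl x), i) m) _ ≤ _
    rw [e2, pl_one_sub]
    linarith

end real3

/-! ### Digits -/

lemma wdC_dg (P : ℕ) (f : Gc) (p lo hi : ℕ) {y : ℕ} (hy : y ≤ 3 * P) :
    dg (wdC P f p lo hi) y = if f.kd % 2 = 0 then (if y < cntA f p lo then 1 else 0)
      else (if cntB f p hi ≤ y then 1 else 0) := by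
  have e : wdC P f p lo hi = Nat.rec (motive := fun _ => ℕ) (rep (cntA f p lo))
    (fun _ _ => Nat.sub (rep (Nat.succ (3 * P))) (rep (cntB f p hi))) (f.kd % 2) := rfl
  rw [e]
  split_ifs with h h1 h1
  · rw [h]
    show dg (rep _) y = 1
    rw [dg_rep, if_pos h1]
  · rw [h]
    show dg (rep _) y = 0
    rw [dg_rep, if_neg h1]
  · have h2 : f.kd % 2 = 1 := by omega
    rw [h2]
    show dg (Nat.sub (rep (3 * P + 1)) (rep _)) y = 1
    rw [dg_rep_sub, if_pos ⟨h1, by omega⟩]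
  · have h2 : f.kd % 2 = 1 := by omega
    rw [h2]
    show dg (Nat.sub (rep (3 * P + 1)) (rep _)) y = 0
    rw [dg_rep_sub, if_neg (fun h => h1 h.1)]

lemma wdC_le (P : ℕ) (f : Gc) (p lo hi y : ℕ) : dg (wdC P f p lo hi) y ≤ 1 := by
  have e : wdC P f p lo hi = Nat.rec (motive := fun _ => ℕ) (rep (cntA f p lo))
    (fun _ _ => Nat.sub (rep (Nat.succ (3 * P))) (rep (cntB f p hi))) (f.kd % 2) := rfl
  rw [e]
  rcases Nat.mod_two_eq_zero_or_one f.kd with h | h
  · rw [h]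
    show dg (rep _) y ≤ 1
    rw [dg_rep]
    split_ifs <;> omega
  · rw [h]
    show dg (Nat.sub (rep (3 * P + 1)) (rep _)) y ≤ 1
    rw [dg_rep_sub]
    split_ifs <;> omega

/-- digits of the crude families -/
lemma dg_exC (d : DatR) {fs : List Gc} (hl : fs.length ≤ 32) (h : ∀ f ∈ fs, CruOK f)
    (z k y : ℕ) :
    dg (exC d fs z k) y = (fs.map fun f => gcM f (ixR d.segs z) k
      * dg (wdC d.P f (psR d.segs z) (sgR d.segs z).lo
        (Nat.sub (Nat.add (sgR d.segs z).lo (sgR d.segs z).len) 1)) y).sum := by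
  have hb : ∀ f ∈ fs, ∀ c, gcM f (ixR d.segs z) k * dg (wdC d.P f (psR d.segs z)
      (sgR d.segs z).lo (Nat.sub (Nat.add (sgR d.segs z).lo (sgR d.segs z).len) 1)) c
      < 2 ^ 30 := by
    intro f hf c
    have F := h f hf
    have h3 := wdC_le d.P f (psR d.segs z) (sgR d.segs z).lo
      (Nat.sub (Nat.add (sgR d.segs z).lo (sgR d.segs z).len) 1) c
    have h4 : gcM f (ixR d.segs z) k ≤ nth 0 f.mu (ixR d.segs z) := by
      have e : gcM f (ixR d.segs z) k = nth 0 f.mu (ixR d.segs z) * nth 0 f.fk k := rfl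
      rw [e]
      calc nth 0 f.mu (ixR d.segs z) * nth 0 f.fk k ≤ nth 0 f.mu (ixR d.segs z) * 1 :=
            Nat.mul_le_mul_left _ (F.fk k)
        _ = _ := Nat.mul_one _
    calc gcM f (ixR d.segs z) k * _ ≤ gcM f (ixR d.segs z) k * 1 := Nat.mul_le_mul_left _ h3
      _ = gcM f (ixR d.segs z) k := Nat.mul_one _
      _ ≤ _ := h4
      _ < 2 ^ 30 := F.mu _
  have h1 := dg_sumL (fun f => trC d f z k) fs (fun f hf c => by
    unfold trC
    rw [dg_mulc (fun c => (hb f hf c).trans (by norm_num))]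
    exact hb f hf c) (by omega) y
  show dg (sumL (fun f => trC d f z k) fs) y = _
  rw [h1.1]
  congr 1
  refine List.map_congr_left fun f hf => ?_
  unfold trC
  rw [dg_mulc (fun c => (hb f hf c).trans (by norm_num))]

lemma stp_dg {P : ℕ} {s0 : ℤ} {c y : ℕ} (m : ℤ) (hm : m + P + s0 = y) :
    stp P s0 c m = if y < c then 1 else 0 := by
  unfold stp
  by_cases hc : c = 0
  · rw [if_pos hc, if_neg (by omega)]
  · rw [if_neg hc]
    by_cases h : y < c
    · rw [if_pos h, if_pos (by omega)]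
    · rw [if_neg h, if_neg (by omega)]

/-- one crude family in real form -/
lemma lamC1_eq (d : DatR) (s0 : ℤ) (s : ℝ) {f : Gc} (F : CruOK f) {ζ : ℕ × ℤ}
    (hz : loR d.segs s0 ζ.1 ≤ ζ.2 ∧ ζ.2 ≤ hiR d.segs s0 ζ.1) (a b : ℕ) {y : ℕ}
    (hy : y ≤ 3 * d.P) :
    lamC1 d s0 s f ζ a b ((y:ℤ) - (d.P + s0))
      = s * ((gcM f ζ.1 (plE d.segs a b).k1 * dg (wdC d.P f (psR d.segs (vT d.segs s0 ζ))
          (sgR d.segs (vT d.segs s0 ζ)).lo (Nat.sub (Nat.add (sgR d.segs (vT d.segs s0 ζ)).lo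
            (sgR d.segs (vT d.segs s0 ζ)).len) 1)) y : ℕ)
        - (Nat.mul (gcM f ζ.1 (plE d.segs a b).k1) (isG f.kd) : ℕ)) := by
  obtain ⟨z1, z2, z3⟩ := vT_spec d.segs s0 ζ.1 ζ.2 hz.1 hz.2
  have z2' : (psR d.segs (vT d.segs s0 ζ) : ℤ) = ζ.2 + s0 := z2
  have z3' : ixR d.segs (vT d.segs s0 ζ) = ζ.1 := z3
  obtain ⟨s1, _, _, _, _⟩ := sgR_eq d.segs z1
  have s1' : sgR d.segs (vT d.segs s0 ζ) = nth segD d.segs ζ.1 := by
    have : sgR d.segs (vT d.segs s0 ζ) = nth segD d.segs (ixR d.segs (vT d.segs s0 ζ)) := s1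
    rw [this, z3']
  have hp : (ζ.2 + s0).toNat = psR d.segs (vT d.segs s0 ζ) := by omega
  rw [s1', wdC_dg _ _ _ _ _ hy, isG_eq F.kd]
  have hm : ((y:ℤ) - (d.P + s0)) + d.P + s0 = y := by ring
  have eM : ((gcM f ζ.1 (plE d.segs a b).k1 : ℕ) : ℝ)
      = (nth 0 f.mu ζ.1 : ℕ) * (nth 0 f.fk (plE d.segs a b).k1 : ℕ) := by
    have : gcM f ζ.1 (plE d.segs a b).k1 = nth 0 f.mu ζ.1 * nth 0 f.fk (plE d.segs a b).k1 := rfl
    rw [this]
    push_cast
    rfl
  have hk := F.kd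
  unfold lamC1 vC flC chC loP hiP
  rw [hp, stp_dg _ hm, stp_dg _ hm]
  have em : ∀ u v : ℕ, ((Nat.mul u v : ℕ) : ℝ) = (u:ℝ) * v := fun u v => Nat.cast_mul u v
  rw [em, Nat.cast_mul, eM]
  have hk4 : f.kd = 0 ∨ f.kd = 1 ∨ f.kd = 2 ∨ f.kd = 3 := by omega
  rcases hk4 with hk0 | hk0 | hk0 | hk0 <;> rw [hk0] <;>
    norm_num <;> split_ifs <;> (first | (exfalso; omega) | ring1)

/-- THE EXTRA COSTS OF THE CRUDE FAMILIES -/
theorem lamC_eq (d : DatR) {fs : List Gc} (hl : fs.length ≤ 32) (h : ∀ f ∈ fs, CruOK f)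
    {s0 : ℤ} {ζ : ℕ × ℤ} (hz : loR d.segs s0 ζ.1 ≤ ζ.2 ∧ ζ.2 ≤ hiR d.segs s0 ζ.1) (s : ℝ)
    (a b : ℕ) {y : ℕ} (hy : y ≤ 3 * d.P) :
    lamC d s0 s fs ζ a b ((y:ℤ) - (d.P + s0))
      = s * ((dg (exC d fs (vT d.segs s0 ζ) (plE d.segs a b).k1) y : ℝ)
        - exOC fs ζ.1 (plE d.segs a b).k1) := by
  obtain ⟨z1, z2, z3⟩ := vT_spec d.segs s0 ζ.1 ζ.2 hz.1 hz.2
  have z3' : ixR d.segs (vT d.segs s0 ζ) = ζ.1 := z3
  rw [dg_exC d hl h, z3']
  have e1 : ∀ f ∈ fs, lamC1 d s0 s f ζ a b ((y:ℤ) - (d.P + s0))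
      = s * ((gcM f ζ.1 (plE d.segs a b).k1 * dg (wdC d.P f (psR d.segs (vT d.segs s0 ζ))
          (sgR d.segs (vT d.segs s0 ζ)).lo (Nat.sub (Nat.add (sgR d.segs (vT d.segs s0 ζ)).lo
            (sgR d.segs (vT d.segs s0 ζ)).len) 1)) y : ℕ)
        - (Nat.mul (gcM f ζ.1 (plE d.segs a b).k1) (isG f.kd) : ℕ)) :=
    fun f hf => lamC1_eq d s0 s (h f hf) hz a b hy
  unfold lamC
  have e2 : exOC fs ζ.1 (plE d.segs a b).k1
      = (fs.map fun f => Nat.mul (gcM f ζ.1 (plE d.segs a b).k1) (isG f.kd)).sum := sumL_eq _ _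
  rw [e2, List.map_congr_left e1]
  clear e1 e2 h hl
  induction fs with
  | nil => simp
  | cons f l ih =>
    simp only [List.map_cons, List.sum_cons]
    rw [ih]
    push_cast
    ring

/-- bound of the crude label functions -/
lemma lamC_abs (d : DatR) {fs : List Gc} (hl : fs.length ≤ 32) (h : ∀ f ∈ fs, CruOK f)
    (s0 : ℤ) {s : ℝ} (hs : 0 ≤ s) (ζ : ℕ × ℤ) (a b : ℕ) (m : ℤ) :
    |lamC d s0 s fs ζ a b m| ≤ s * 2 ^ 35 := by
  have h1 : ∀ f ∈ fs, |lamC1 d s0 s f ζ a b m| ≤ s * 2 ^ 30 := by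
    intro f hf
    have F := h f hf
    have v0 := vC_nonneg hs f ζ.1
    have v1 := F.v_le hs ζ.1
    have f0 := flC_nonneg d f a b
    have f1 := F.fl_le d a b
    have c0 := chC_nonneg d s0 f ζ m
    have c1 := chC_le d s0 f ζ m
    have k0 : 0 ≤ vC s f ζ.1 * (flC d f a b * chC d s0 f ζ m) :=
      mul_nonneg v0 (mul_nonneg f0 c0)
    have k1 : vC s f ζ.1 * (flC d f a b * chC d s0 f ζ m) ≤ s * 2 ^ 30 := by
      have k2 : flC d f a b * chC d s0 f ζ m ≤ 1 := mul_le_one₀ f1 c0 c1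
      calc vC s f ζ.1 * (flC d f a b * chC d s0 f ζ m) ≤ vC s f ζ.1 * 1 :=
            mul_le_mul_of_nonneg_left k2 v0
        _ ≤ s * 2 ^ 30 := by rw [mul_one]; exact v1
    unfold lamC1
    split_ifs
    · rw [abs_neg, abs_of_nonneg k0]
      exact k1
    · rw [abs_of_nonneg k0]
      exact k1
  have h2 : ∀ l : List Gc, (∀ f ∈ l, |lamC1 d s0 s f ζ a b m| ≤ s * 2 ^ 30) →
      |(l.map fun f => lamC1 d s0 s f ζ a b m).sum| ≤ l.length * (s * 2 ^ 30) := by
    intro l hl'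
    induction l with
    | nil => simp
    | cons f l ih =>
      simp only [List.map_cons, List.sum_cons, List.length_cons]
      refine (abs_add_le _ _).trans ?_
      have k1 := hl' f List.mem_cons_self
      have k2 := ih (fun g hg => hl' g (List.mem_cons_of_mem _ hg))
      push_cast
      linarith
  refine (h2 fs h1).trans ?_
  have h3 : (fs.length : ℝ) ≤ 32 := by exact_mod_cast hl
  have h4 : 0 ≤ s * 2 ^ 30 := by positivity
  calc (fs.length : ℝ) * (s * 2 ^ 30) ≤ 32 * (s * 2 ^ 30) := mul_le_mul_of_nonneg_right h3 h4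
    _ = s * 2 ^ 35 := by ring

/-! ### Zone flags -/

noncomputable section

/-- a family with its zones (flags of the five zones of `zn5`) -/
structure Zf where
  /-- family -/
  g : Gf
  /-- flags of the zones -/
  zk : List ℕ

/-- a crude family with its zones -/
structure Zc where
  /-- family -/
  g : Gc
  /-- flags of the zones -/
  zk : List ℕ

/-- families of the zone `i` -/
def selF (i : ℕ) (fs : List Zf) : List Gf :=
  List.rec (motive := fun _ => List Gf) []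
    (fun a _ ih => Nat.rec (motive := fun _ => List Gf) ih (fun _ _ => a.g :: ih)
      (nth 0 a.zk i)) fs

/-- crude families of the zone `i` -/
def selC (i : ℕ) (fs : List Zc) : List Gc :=
  List.rec (motive := fun _ => List Gc) []
    (fun a _ ih => Nat.rec (motive := fun _ => List Gc) ih (fun _ _ => a.g :: ih)
      (nth 0 a.zk i)) fs

/-- PACKED EXTRA COSTS of the zone `i` -/
def exZ (d : DatR) (fs : List Zf) (cs : List Zc) (z k i : ℕ) : ℕ :=
  Nat.add (exG d (selF i fs) z k) (exC d (selC i cs) z k)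

/-- constants of the gains -/
def exOZ (fs : List Zf) (cs : List Zc) (c k i : ℕ) : ℕ :=
  Nat.add (exO (selF i fs) c k) (exOC (selC i cs) c k)

/-- the check of all families -/
def chkZ (P : ℕ) (fs : List Zf) (cs : List Zc) : Bool :=
  Nat.ble (sumL (fun _ => 1) fs) 32 && Nat.ble (sumL (fun _ => 1) cs) 32
    && allL fs (fun a => onF a.g (fun f => chkFa P f)) && allL cs (fun a => onC a.g chkC1)

/-- THE LABEL FUNCTION of all families in the zone `i` -/
def lamZ (d : DatR) (s0 : ℤ) (s : ℝ) (fs : List Zf) (cs : List Zc) (ζ : ℕ × ℤ) (a b i : ℕ)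
    (m : ℤ) : ℝ :=
  lamG d s0 s (selF i fs) ζ a b m + lamC d s0 s (selC i cs) ζ a b m

end

/-- the zone flag -/
def zfl (zk : List ℕ) (i : Fin 9) : Bool := decide (nth 0 zk (z95 i : Fin 5) ≠ 0)

lemma selF_cons (i : ℕ) (a : Zf) (l : List Zf) :
    selF i (a :: l) = if nth 0 a.zk i = 0 then selF i l else a.g :: selF i l := by
  have e : selF i (a :: l) = Nat.rec (motive := fun _ => List Gf) (selF i l)
    (fun _ _ => a.g :: selF i l) (nth 0 a.zk i) := rfl
  rw [e]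
  split_ifs with h
  · rw [h]
    rfl
  · obtain ⟨k, hk⟩ : ∃ k, nth 0 a.zk i = k + 1 := ⟨nth 0 a.zk i - 1, by omega⟩
    rw [hk]

lemma selC_cons (i : ℕ) (a : Zc) (l : List Zc) :
    selC i (a :: l) = if nth 0 a.zk i = 0 then selC i l else a.g :: selC i l := by
  have e : selC i (a :: l) = Nat.rec (motive := fun _ => List Gc) (selC i l)
    (fun _ _ => a.g :: selC i l) (nth 0 a.zk i) := rfl
  rw [e]
  split_ifs with h
  · rw [h]
    rfl
  · obtain ⟨k, hk⟩ : ∃ k, nth 0 a.zk i = k + 1 := ⟨nth 0 a.zk i - 1, by omega⟩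
    rw [hk]

lemma selF_mem {i : ℕ} {f : Gf} {fs : List Zf} (h : f ∈ selF i fs) : ∃ a ∈ fs, a.g = f := by
  induction fs with
  | nil => exact absurd h (by simp [selF])
  | cons a l ih =>
    rw [selF_cons] at h
    split_ifs at h
    · obtain ⟨b, hb, e⟩ := ih h
      exact ⟨b, List.mem_cons_of_mem _ hb, e⟩
    · rcases List.mem_cons.1 h with h | h
      · exact ⟨a, List.mem_cons_self, h.symm⟩
      · obtain ⟨b, hb, e⟩ := ih h
        exact ⟨b, List.mem_cons_of_mem _ hb, e⟩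

lemma selC_mem {i : ℕ} {f : Gc} {fs : List Zc} (h : f ∈ selC i fs) : ∃ a ∈ fs, a.g = f := by
  induction fs with
  | nil => exact absurd h (by simp [selC])
  | cons a l ih =>
    rw [selC_cons] at h
    split_ifs at h
    · obtain ⟨b, hb, e⟩ := ih h
      exact ⟨b, List.mem_cons_of_mem _ hb, e⟩
    · rcases List.mem_cons.1 h with h | h
      · exact ⟨a, List.mem_cons_self, h.symm⟩
      · obtain ⟨b, hb, e⟩ := ih h
        exact ⟨b, List.mem_cons_of_mem _ hb, e⟩

lemma selF_length (i : ℕ) (fs : List Zf) : (selF i fs).length ≤ fs.length := by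
  induction fs with
  | nil => exact le_rfl
  | cons a l ih =>
    rw [selF_cons]
    split_ifs <;> simp <;> omega

lemma selC_length (i : ℕ) (fs : List Zc) : (selC i fs).length ≤ fs.length := by
  induction fs with
  | nil => exact le_rfl
  | cons a l ih =>
    rw [selC_cons]
    split_ifs <;> simp <;> omega

/-- the conditions of all families -/
structure ZOK (P : ℕ) (fs : List Zf) (cs : List Zc) : Prop where
  lf : fs.length ≤ 32
  lc : cs.length ≤ 32
  f : ∀ a ∈ fs, FamOK P a.g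
  c : ∀ a ∈ cs, CruOK a.g

lemma ZOK.of_check {P : ℕ} {fs : List Zf} {cs : List Zc} (h : chkZ P fs cs = true) :
    ZOK P fs cs := by
  unfold chkZ at h
  simp only [Bool.and_eq_true] at h
  obtain ⟨⟨⟨h1, h2⟩, h3⟩, h4⟩ := h
  have b1 := Nat.le_of_ble_eq_true h1
  have b2 := Nat.le_of_ble_eq_true h2
  rw [sumL_one] at b1 b2
  refine ⟨b1, b2, fun a ha => ?_, fun a ha => ?_⟩
  · have := (allL_iff _ _).1 h3 a ha
    rw [onF_eq] at this
    exact chkFa_imp this
  · have := (allL_iff _ _).1 h4 a ha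
    rw [onC_eq] at this
    exact chkC1_imp this

section zones

variable {P : ℕ} {fs : List Zf} {cs : List Zc}

lemma ZOK.sf (h : ZOK P fs cs) (i : ℕ) : (selF i fs).length ≤ 32 ∧ ∀ f ∈ selF i fs, FamOK P f :=
  ⟨(selF_length i fs).trans h.lf, fun f hf => by
    obtain ⟨a, ha, e⟩ := selF_mem hf
    rw [← e]
    exact h.f a ha⟩

lemma ZOK.sc (h : ZOK P fs cs) (i : ℕ) : (selC i cs).length ≤ 32 ∧ ∀ f ∈ selC i cs, CruOK f :=
  ⟨(selC_length i cs).trans h.lc, fun f hf => by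
    obtain ⟨a, ha, e⟩ := selC_mem hf
    rw [← e]
    exact h.c a ha⟩

end zones

/-- DIGITS OF THE EXTRA COSTS OF A ZONE = LABEL FUNCTION -/
theorem lamZ_eq (d : DatR) (hc : CnsR d) {fs : List Zf} {cs : List Zc} (h : ZOK d.P fs cs)
    {s0 : ℤ} {ζ : ℕ × ℤ} (hz : loR d.segs s0 ζ.1 ≤ ζ.2 ∧ ζ.2 ≤ hiR d.segs s0 ζ.1) (s : ℝ)
    (a b i : ℕ) {y : ℕ} (hy : y ≤ 3 * d.P) :
    lamZ d s0 s fs cs ζ a b i ((y:ℤ) - (d.P + s0))
      = s * ((dg (exZ d fs cs (vT d.segs s0 ζ) (plE d.segs a b).k1 i) y : ℝ)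
        - exOZ fs cs ζ.1 (plE d.segs a b).k1 i) := by
  obtain ⟨f1, f2⟩ := h.sf i
  obtain ⟨c1, c2⟩ := h.sc i
  have bG : ∀ y, dg (exG d (selF i fs) (vT d.segs s0 ζ) (plE d.segs a b).k1) y ≤ 2 ^ 35 := by
    intro y
    rw [dg_exG d f1 f2]
    have h1 : ∀ f ∈ selF i fs, gfM f (ixR d.segs (vT d.segs s0 ζ)) (plE d.segs a b).k1
        * dg f.x (y + g3s d.P (psR d.segs (vT d.segs s0 ζ)) (gfG f)) ≤ 2 ^ 30 := by
      intro f hf
      have F := f2 f hf
      have h4 : gfM f (ixR d.segs (vT d.segs s0 ζ)) (plE d.segs a b).k1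
          ≤ nth 0 f.mu (ixR d.segs (vT d.segs s0 ζ)) := by
        have e : gfM f (ixR d.segs (vT d.segs s0 ζ)) (plE d.segs a b).k1
            = nth 0 f.mu (ixR d.segs (vT d.segs s0 ζ)) * nth 0 f.fk (plE d.segs a b).k1 := rfl
        rw [e]
        calc nth 0 f.mu (ixR d.segs (vT d.segs s0 ζ)) * nth 0 f.fk (plE d.segs a b).k1
            ≤ nth 0 f.mu (ixR d.segs (vT d.segs s0 ζ)) * 1 := Nat.mul_le_mul_left _ (F.fk _)
          _ = _ := Nat.mul_one _
      have h5 : (2:ℕ) ^ 30 = 2 ^ (30 - f.bx) * 2 ^ f.bx := by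
        rw [← pow_add]
        congr 1
        have := F.bx
        omega
      rw [h5]
      exact Nat.mul_le_mul (h4.trans (F.mu _).le) (F.x _).le
    have h2 : ∀ l : List Gf, (∀ f ∈ l, gfM f (ixR d.segs (vT d.segs s0 ζ)) (plE d.segs a b).k1
        * dg f.x (y + g3s d.P (psR d.segs (vT d.segs s0 ζ)) (gfG f)) ≤ 2 ^ 30) →
        (l.map fun f => gfM f (ixR d.segs (vT d.segs s0 ζ)) (plE d.segs a b).k1
          * dg f.x (y + g3s d.P (psR d.segs (vT d.segs s0 ζ)) (gfG f))).sum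
          ≤ l.length * 2 ^ 30 := by
      intro l hl
      induction l with
      | nil => simp
      | cons f l ih =>
        simp only [List.map_cons, List.sum_cons, List.length_cons]
        have k1 := hl f List.mem_cons_self
        have k2 := ih (fun g hg => hl g (List.mem_cons_of_mem _ hg))
        have : (l.length + 1) * 2 ^ 30 = l.length * 2 ^ 30 + 2 ^ 30 := by ring
        omega
    have h3 := h2 _ h1
    have h4 : (selF i fs).length * 2 ^ 30 ≤ 32 * 2 ^ 30 := Nat.mul_le_mul_right _ f1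
    have h5 : (32:ℕ) * 2 ^ 30 = 2 ^ 35 := by norm_num
    omega
  have bC : ∀ y, dg (exC d (selC i cs) (vT d.segs s0 ζ) (plE d.segs a b).k1) y ≤ 2 ^ 35 := by
    intro y
    have h1 := dg_sumL (fun f => trC d f (vT d.segs s0 ζ) (plE d.segs a b).k1) (selC i cs)
      (fun f hf c => by
        have F := c2 f hf
        have h3 := wdC_le d.P f (psR d.segs (vT d.segs s0 ζ)) (sgR d.segs (vT d.segs s0 ζ)).lo
          (Nat.sub (Nat.add (sgR d.segs (vT d.segs s0 ζ)).lo
            (sgR d.segs (vT d.segs s0 ζ)).len) 1)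
        have h4 : gcM f (ixR d.segs (vT d.segs s0 ζ)) (plE d.segs a b).k1
            ≤ nth 0 f.mu (ixR d.segs (vT d.segs s0 ζ)) := by
          have e : gcM f (ixR d.segs (vT d.segs s0 ζ)) (plE d.segs a b).k1
              = nth 0 f.mu (ixR d.segs (vT d.segs s0 ζ)) * nth 0 f.fk (plE d.segs a b).k1 := rfl
          rw [e]
          calc nth 0 f.mu (ixR d.segs (vT d.segs s0 ζ)) * nth 0 f.fk (plE d.segs a b).k1
              ≤ nth 0 f.mu (ixR d.segs (vT d.segs s0 ζ)) * 1 := Nat.mul_le_mul_left _ (F.fk _)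
            _ = _ := Nat.mul_one _
        have h5 : ∀ c, gcM f (ixR d.segs (vT d.segs s0 ζ)) (plE d.segs a b).k1
            * dg (wdC d.P f (psR d.segs (vT d.segs s0 ζ)) (sgR d.segs (vT d.segs s0 ζ)).lo
              (Nat.sub (Nat.add (sgR d.segs (vT d.segs s0 ζ)).lo
                (sgR d.segs (vT d.segs s0 ζ)).len) 1)) c < 2 ^ 30 := fun c =>
          ((Nat.mul_le_mul_left _ (h3 c)).trans (by rw [Nat.mul_one]; exact h4)).trans_lt (F.mu _)
        unfold trC
        rw [dg_mulc (fun c => (h5 c).trans (by norm_num))]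
        exact h5 c) (by omega) y
    have h3 : (selC i cs).length * 2 ^ 30 ≤ 32 * 2 ^ 30 := Nat.mul_le_mul_right _ c1
    have h5 : (32:ℕ) * 2 ^ 30 = 2 ^ 35 := by norm_num
    have h6 := h1.2
    show dg (sumL (fun f => trC d f (vT d.segs s0 ζ) (plE d.segs a b).k1) (selC i cs)) y ≤ 2 ^ 35
    omega
  have e1 : dg (exZ d fs cs (vT d.segs s0 ζ) (plE d.segs a b).k1 i) y
      = dg (exG d (selF i fs) (vT d.segs s0 ζ) (plE d.segs a b).k1) y
        + dg (exC d (selC i cs) (vT d.segs s0 ζ) (plE d.segs a b).k1) y :=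
    dg_addb bG bC (by norm_num) y
  have e2 : exOZ fs cs ζ.1 (plE d.segs a b).k1 i
      = exO (selF i fs) ζ.1 (plE d.segs a b).k1 + exOC (selC i cs) ζ.1 (plE d.segs a b).k1 := rfl
  unfold lamZ
  rw [e1, e2, lamG_eq d hc f1 f2 hz s a b hy, lamC_eq d c1 c2 hz s a b hy]
  push_cast
  ring

/-- upper bound, all labels -/
theorem lamZ_up (d : DatR) {fs : List Zf} {cs : List Zc} (h : ZOK d.P fs cs) (s0 : ℤ) {s : ℝ}
    (hs : 0 ≤ s) (ζ : ℕ × ℤ) (a b i : ℕ) (m : ℤ) : lamZ d s0 s fs cs ζ a b i m ≤ s * 2 ^ 36 := by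
  obtain ⟨f1, f2⟩ := h.sf i
  obtain ⟨c1, c2⟩ := h.sc i
  have h1 := lamG_up d f1 f2 s0 hs ζ a b m
  have h2 := (abs_le.1 (lamC_abs d c1 c2 s0 hs ζ a b m)).2
  unfold lamZ
  have : s * 2 ^ 36 = s * 2 ^ 35 + s * 2 ^ 35 := by ring
  linarith

/-- absolute bound, all labels -/
theorem lamZ_abs (d : DatR) {fs : List Zf} {cs : List Zc} (h : ZOK d.P fs cs) (s0 : ℤ) {s : ℝ}
    (hs : 0 ≤ s) (ζ : ℕ × ℤ) (a b i : ℕ) (m : ℤ) :
    |lamZ d s0 s fs cs ζ a b i m| ≤ s * 2 ^ 66 := by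
  obtain ⟨f1, f2⟩ := h.sf i
  obtain ⟨c1, c2⟩ := h.sc i
  have h1 := lamG_le d f1 f2 s0 hs ζ a b m
  have h2 := lamC_abs d c1 c2 s0 hs ζ a b m
  unfold lamZ
  refine (abs_add_le _ _).trans ?_
  have h3 : s * 2 ^ 35 ≤ s * 2 ^ 65 := mul_le_mul_of_nonneg_left (by norm_num) hs
  have : s * 2 ^ 66 = s * 2 ^ 65 + s * 2 ^ 65 := by ring
  linarith

/-- the label function of a zone, family by family -/
lemma lamG_sel (d : DatR) (s0 : ℤ) (s : ℝ) (fs : List Zf) (ζ : ℕ × ℤ) (a b : ℕ) (i : Fin 9)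
    (m : ℤ) : lamG d s0 s (selF (z95 i : Fin 5) fs) ζ a b m
      = (fs.map fun f => if zfl f.zk i = true then lam1 d s0 s f.g ζ a b m else 0).sum := by
  unfold lamG
  induction fs with
  | nil => simp [selF]
  | cons f l ih =>
    rw [selF_cons, List.map_cons, List.sum_cons, ← ih]
    unfold zfl
    by_cases h : nth 0 f.zk (z95 i : Fin 5) = 0
    · rw [if_pos h]
      simp [h]
    · rw [if_neg h, List.map_cons, List.sum_cons]
      simp [h]

lemma lamC_sel (d : DatR) (s0 : ℤ) (s : ℝ) (fs : List Zc) (ζ : ℕ × ℤ) (a b : ℕ) (i : Fin 9)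
    (m : ℤ) : lamC d s0 s (selC (z95 i : Fin 5) fs) ζ a b m
      = (fs.map fun f => if zfl f.zk i = true then lamC1 d s0 s f.g ζ a b m else 0).sum := by
  unfold lamC
  induction fs with
  | nil => simp [selC]
  | cons f l ih =>
    rw [selC_cons, List.map_cons, List.sum_cons, ← ih]
    unfold zfl
    by_cases h : nth 0 f.zk (z95 i : Fin 5) = 0
    · rw [if_pos h]
      simp [h]
    · rw [if_neg h, List.map_cons, List.sum_cons]
      simp [h]

section famz

variable {C : Type} {M : ℕ} {σ δ : ℝ} {D K ρ : ℤ} {kL kR : ℝ} {G : GrdD C M σ δ D K ρ kL kR}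

/-- sums of families over a list -/
theorem famZ_sum {α : Type} (l : List α) (Φ : α → P4 → P4 → P4 → ℝ)
    (lam : α → C × ℤ → C → C → Fin 9 → ℤ → ℝ) (ε : α → ℝ)
    (h : ∀ a ∈ l, G.FamZ (Φ a) (lam a) (ε a)) :
    G.FamZ (fun x y z => (l.map fun a => Φ a x y z).sum)
      (fun ζ c d i m => (l.map fun a => lam a ζ c d i m).sum) (l.map ε).sum := by
  induction l with
  | nil => simpa using GrdD.FamZ.zero (G := G)
  | cons a l ih =>
    simp only [List.map_cons, List.sum_cons]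
    exact (h a List.mem_cons_self).add (ih fun b hb => h b (List.mem_cons_of_mem _ hb))

/-- ALL FAMILIES OF THE DATA: `Φf`, `Φc` functionals of the families -/
theorem famZ_all (d : DatR) (s0 : ℤ) (s : ℝ) (ι : C → ℕ) (fs : List Zf) (cs : List Zc)
    (Φf : Zf → P4 → P4 → P4 → ℝ) (Φc : Zc → P4 → P4 → P4 → ℝ) (εf : Zf → ℝ) (εc : Zc → ℝ)
    (hf : ∀ f ∈ fs, G.FamZ (Φf f) (fun ζ a b i m =>
      if zfl f.zk i = true then lam1 d s0 s f.g (ι ζ.1, ζ.2) (ι a) (ι b) m else 0) (εf f))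
    (hc : ∀ f ∈ cs, G.FamZ (Φc f) (fun ζ a b i m =>
      if zfl f.zk i = true then lamC1 d s0 s f.g (ι ζ.1, ζ.2) (ι a) (ι b) m else 0) (εc f)) :
    G.FamZ (fun x y z => (fs.map fun f => Φf f x y z).sum + (cs.map fun f => Φc f x y z).sum)
      (fun ζ a b i m => lamZ d s0 s fs cs (ι ζ.1, ζ.2) (ι a) (ι b) (z95 i : Fin 5) m)
      ((fs.map εf).sum + (cs.map εc).sum) := by
  have h1 := famZ_sum fs Φf _ εf hf
  have h2 := famZ_sum cs Φc _ εc hc
  have h3 := h1.add h2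
  have e : (fun (ζ : C × ℤ) (a b : C) (i : Fin 9) (m : ℤ) =>
      lamZ d s0 s fs cs (ι ζ.1, ζ.2) (ι a) (ι b) (z95 i : Fin 5) m)
      = fun ζ a b i m => (fs.map fun f => if zfl f.zk i = true then
          lam1 d s0 s f.g (ι ζ.1, ζ.2) (ι a) (ι b) m else 0).sum
        + (cs.map fun f => if zfl f.zk i = true then
          lamC1 d s0 s f.g (ι ζ.1, ζ.2) (ι a) (ι b) m else 0).sum := by
    funext ζ a b i m
    unfold lamZ
    rw [lamG_sel, lamC_sel]
  rw [e]
  exact h3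

end famz

end MP61673a.KC
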