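import Pool.Agent.Mu673.RowLink

/-!
ONE BOOL CHECK PER ROW CELL (price, end point and midpoint tables) and the families indexed by the
nodes `ζ = (class, node coordinate)` (helper89).
-/

set_option autoImplicit false

namespace MP61673a.KC

open Finset MP61673a.Kink MP61673a.FE

noncomputable section

/-! ### Kernel functions -/

/-- default price data -/
def prD : Prc := ⟨0, 0, 0, 0, 0, 0, 0⟩

/-- default end data -/
def ecD : Ect := ⟨0, 0, 0, 0, 0, 0, 0, 0, 0⟩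

/-- expose the fields -/
def onP (q : Prc) (f : Prc → Bool) : Bool :=
  Prc.rec (motive := fun _ => Bool) (fun g x0 x1 x2 x3 h oe => f ⟨g, x0, x1, x2, x3, h, oe⟩) q

/-- expose the fields -/
def onE (q : Ect) (f : Ect → Bool) : Bool :=
  Ect.rec (motive := fun _ => Bool)
    (fun c0 c1 c2 c3 c4 la la1 lb lb1 => f ⟨c0, c1, c2, c3, c4, la, la1, lb, lb1⟩) q

/-- table number `k` of the sampler node `z` (own part) -/
def wR (d : DatR) (z k : ℕ) : ℕ := nth 0 (nth16 [] d.W z) (nth ⟨0, []⟩ (sgR d.segs z).cb k).w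

/-- data of a row cell beside `DatR`: cuts, price data, end data, fuzz `num / den` of the
midpoints, `yl`, `mid`, `yr`, number of end tables, number of the midpoint table -/
structure RCd where
  /-- cuts -/
  c : CutP
  /-- prices, blocks of 16 -/
  pr : List (List Prc)
  /-- end data, blocks of 16 -/
  ec : List (List (List Ect))
  /-- numerator of the fuzz -/
  num : ℕ
  /-- denominator of the fuzz -/
  den : ℕ
  /-- last left label node of the midpoint majorant -/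
  yl : ℕ
  /-- zero digits `mid`, `mid + 1` -/
  mid : ℕ
  /-- first right label node -/
  yr : ℕ
  /-- number of end tables -/
  nk : ℕ
  /-- number of the midpoint table -/
  km : ℕ

/-- all conditions of one node, `ex k` = packed extra costs of the end table `k` -/
def chkNd (d : DatR) (r : RCd) (exf : ℕ → ℕ → ℕ) (z : ℕ) : Bool :=
  onP (nth16 prD r.pr z) (fun q =>
    chkSz r.c q && chkHd r.c q r.yl r.mid r.yr
    && frcB (wR d z r.km) (fun w => chkMd d.P r.num r.den q.h w)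
    && allN r.nk (fun k => onE (nth ecD (nth16 [] r.ec z) k) (fun e =>
        frcB (wR d z k) (fun w => chkEnd r.c q (exf z k) e w))))

/-- the nodes `lo, .., hi - 1` -/
def chkNds (d : DatR) (r : RCd) (exf : ℕ → ℕ → ℕ) (lo hi : ℕ) : Bool :=
  allN (Nat.sub hi lo) (fun z' => frcB (Nat.add lo z') (fun z => chkNd d r exf z))

/-- global conditions -/
def chkGl (d : DatR) (r : RCd) : Bool :=
  chkC r.c && Nat.beq r.c.n (Nat.mul 3 d.P) && Nat.ble 1 d.P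
  && allN (nC d.segs) (fun i => allN (nC d.segs) (fun j =>
      Nat.ble (Nat.succ (plE d.segs i j).k1) r.nk))

/-! ### The families -/

/-- node number -/
abbrev vN' (d : DatR) (s0 : ℤ) (ζ : ℕ × ℤ) : ℕ := vT d.segs s0 ζ

/-- the node belongs to its class -/
abbrev inN (d : DatR) (s0 : ℤ) (ζ : ℕ × ℤ) : Prop :=
  ζ.2 ∈ Bary.nd (loR d.segs s0) (hiR d.segs s0) ζ.1

/-- price data of the node -/
def prK (d : DatR) (r : RCd) (s0 : ℤ) (ζ : ℕ × ℤ) : Prc := nth16 prD r.pr (vN' d s0 ζ)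

/-- end data of the node and of the pair of classes -/
def ecK (d : DatR) (r : RCd) (s0 : ℤ) (ζ : ℕ × ℤ) (a b : ℕ) : Ect :=
  nth ecD (nth16 [] r.ec (vN' d s0 ζ)) (plE d.segs a b).k1

/-- extra costs -/
def exKr (d : DatR) (exf : ℕ → ℕ → ℕ) (s0 : ℤ) (ζ : ℕ × ℤ) (a b : ℕ) : ℕ :=
  exf (vN' d s0 ζ) (plE d.segs a b).k1

/-- zone prices -/
def gK (d : DatR) (r : RCd) (s0 : ℤ) (s : ℝ) (i : Fin 3) (ζ : ℕ × ℤ) (_e : Bool) (m : ℤ) : ℝ :=
  if inN d s0 ζ then s * gZ r.c (d.P + s0) (prK d r s0 ζ) i m else 0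

/-- right midpoint majorant -/
def hRK (d : DatR) (r : RCd) (s0 : ℤ) (s : ℝ) (ζ : ℕ × ℤ) (m : ℤ) : ℝ :=
  if inN d s0 ζ then s * hRz r.c (d.P + s0) (prK d r s0 ζ) r.mid m else 0

/-- left midpoint majorant -/
def hLK (d : DatR) (r : RCd) (s0 : ℤ) (s : ℝ) (ζ : ℕ × ℤ) (m : ℤ) : ℝ :=
  if inN d s0 ζ then s * hLz r.c (d.P + s0) (prK d r s0 ζ) r.mid m else 0

/-- midpoint table of the majorant -/
def LmK (d : DatR) (r : RCd) (s0 : ℤ) (s : ℝ) (ζ : ℕ × ℤ) (m : ℤ) : ℝ :=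
  if inN d s0 ζ then s * avN ((r.num:ℝ) / r.den) (hAz r.c (d.P + s0) (prK d r s0 ζ)) m else 0

/-- node values of the midpoints -/
def WmK (d : DatR) (r : RCd) (s0 : ℤ) (s : ℝ) (ζ : ℕ × ℤ) (m : ℤ) : ℝ :=
  if inN d s0 ζ then s * WMz d.P s0 (wR d (vN' d s0 ζ) r.km) m else 0

/-- joint majorant of the end point labels -/
def LK (d : DatR) (r : RCd) (exf : ℕ → ℕ → ℕ) (s0 : ℤ) (s : ℝ) (ζ : ℕ × ℤ) (a b : ℕ) (m : ℤ) : ℝ :=
  if inN d s0 ζ then s * (LZ r.c (d.P + s0)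
    (ltab r.c (prK d r s0 ζ) (exKr d exf s0 ζ a b) (ecK d r s0 ζ a b)) m - (prK d r s0 ζ).oe) else 0

/-- node values of the end point labels -/
def WK (d : DatR) (r : RCd) (s0 : ℤ) (s : ℝ) (ζ : ℕ × ℤ) (a b : ℕ) (m : ℤ) : ℝ :=
  if inN d s0 ζ then s * (WZ r.c (d.P + s0) (wR d (vN' d s0 ζ) (plE d.segs a b).k1) m
    - (prK d r s0 ζ).oe) else 0

end

/-! ### Soundness -/

lemma onP_eq (q : Prc) (f : Prc → Bool) : onP q f = f q := by
  cases q; rfl

lemma onE_eq (q : Ect) (f : Ect → Bool) : onE q f = f q := by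
  cases q; rfl

/-- the conditions of one node -/
structure NdOK (d : DatR) (r : RCd) (exf : ℕ → ℕ → ℕ) (z : ℕ) : Prop where
  sz : chkSz r.c (nth16 prD r.pr z) = true
  hd : chkHd r.c (nth16 prD r.pr z) r.yl r.mid r.yr = true
  md : chkMd d.P r.num r.den (nth16 prD r.pr z).h (wR d z r.km) = true
  en : ∀ k < r.nk, chkEnd r.c (nth16 prD r.pr z) (exf z k) (nth ecD (nth16 [] r.ec z) k)
    (wR d z k) = true

lemma chkNd_imp {d : DatR} {r : RCd} {exf : ℕ → ℕ → ℕ} {z : ℕ} (h : chkNd d r exf z = true) :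
    NdOK d r exf z := by
  unfold chkNd at h
  rw [onP_eq] at h
  simp only [Bool.and_eq_true] at h
  obtain ⟨⟨⟨h1, h2⟩, h3⟩, h4⟩ := h
  rw [frcB_eq] at h3
  refine ⟨h1, h2, h3, fun k hk => ?_⟩
  have := (allN_iff _ _).1 h4 k hk
  rw [onE_eq, frcB_eq] at this
  exact this

/-- all nodes of a range -/
def NdsOK (d : DatR) (r : RCd) (exf : ℕ → ℕ → ℕ) (lo hi : ℕ) : Prop :=
  ∀ z, lo ≤ z → z < hi → NdOK d r exf z

lemma NdsOK.of_check {d : DatR} {r : RCd} {exf : ℕ → ℕ → ℕ} {lo hi : ℕ}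
    (h : chkNds d r exf lo hi = true) : NdsOK d r exf lo hi := by
  intro z hz hz'
  have h1 := (allN_iff _ _).1 h (z - lo) (show z - lo < hi - lo by omega)
  rw [frcB_eq] at h1
  have e : Nat.add lo (z - lo) = z := by
    show lo + (z - lo) = z
    omega
  rw [e] at h1
  exact chkNd_imp h1

lemma NdsOK.join {d : DatR} {r : RCd} {exf : ℕ → ℕ → ℕ} {lo mid hi : ℕ}
    (h1 : NdsOK d r exf lo mid) (h2 : NdsOK d r exf mid hi) : NdsOK d r exf lo hi := by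
  intro z hz hz'
  by_cases h : z < mid
  · exact h1 z hz h
  · exact h2 z (by omega) hz'

/-- the global conditions -/
structure GlOK (d : DatR) (r : RCd) : Prop where
  c : chkC r.c = true
  n : r.c.n = 3 * d.P
  P : 1 ≤ d.P
  k : ∀ i < nC d.segs, ∀ j < nC d.segs, (plE d.segs i j).k1 < r.nk

lemma chkGl_imp {d : DatR} {r : RCd} (h : chkGl d r = true) : GlOK d r := by
  unfold chkGl at h
  simp only [Bool.and_eq_true] at h
  obtain ⟨⟨⟨h1, h2⟩, h3⟩, h4⟩ := h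
  refine ⟨h1, Nat.eq_of_beq_eq_true h2, Nat.le_of_ble_eq_true h3, fun i hi j hj => ?_⟩
  exact Nat.le_of_ble_eq_true ((allN_iff _ _).1 ((allN_iff _ _).1 h4 i hi) j hj)

lemma chkSz_imp {c : CutP} {q : Prc} (h : chkSz c q = true) : (∀ y, dg q.g y < 2 ^ 36)
    ∧ (∀ y, dg q.h y < 2 ^ 36) ∧ q.x0 ≤ 2 ^ 36 ∧ q.x1 ≤ 2 ^ 36 ∧ q.x2 ≤ 2 ^ 36
    ∧ q.x3 ≤ 2 ^ 36 := by
  unfold chkSz at h
  simp only [Bool.and_eq_true] at h
  obtain ⟨⟨⟨⟨⟨h1, h2⟩, h3⟩, h4⟩, h5⟩, h6⟩ := h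
  exact ⟨mask_dg (by norm_num) h1, mask_dg (by norm_num) h2, Nat.le_of_ble_eq_true h3,
    Nat.le_of_ble_eq_true h4, Nat.le_of_ble_eq_true h5, Nat.le_of_ble_eq_true h6⟩

lemma zd_le {c : CutP} {q : Prc} (h : chkSz c q = true) (i : Fin 3) (y : ℕ) :
    zd c q i y ≤ 2 ^ 36 := by
  obtain ⟨h1, -, h3, h4, h5, h6⟩ := chkSz_imp h
  have := (h1 y).le
  unfold zd
  split_ifs <;> first | assumption | positivity

section fam

variable {d : DatR} {r : RCd} {exf : ℕ → ℕ → ℕ} {s0 : ℤ} {s : ℝ}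

/-- a node of a class is a node -/
lemma inN_lt {ζ : ℕ × ℤ} (h : inN d s0 ζ) : vN' d s0 ζ < vR d.segs := by
  have h' := mem_Icc.1 h
  exact (vT_spec d.segs s0 ζ.1 ζ.2 h'.1 h'.2).1

/-- classes with nodes are classes -/
lemma inN_cls {ζ : ℕ × ℤ} (h : inN d s0 ζ) : ζ.1 < nC d.segs := by
  have h' := mem_Icc.1 h
  obtain ⟨h1, -, h3⟩ := vT_spec d.segs s0 ζ.1 ζ.2 h'.1 h'.2
  have := (sgR_eq d.segs h1).2.1
  rwa [h3] at this

/-- END POINT LABELS: zone conditions and end point rule, real units `s = 1 / U` -/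
theorem row_end (hg : GlOK d r) (hn : NdsOK d r exf 0 (vR d.segs)) (hs : 0 ≤ s) {ζ : ℕ × ℤ}
    (hζ : inN d s0 ζ) {a b : ℕ} (ha : a < nC d.segs) (hb : b < nC d.segs)
    {lam : Fin 5 → ℤ → ℝ}
    (hin : ∀ i (y : ℕ), y ≤ 3 * d.P → lam i ((y : ℤ) - (d.P + s0))
      ≤ s * (((zd r.c (prK d r s0 ζ) (z53 i) y : ℕ) : ℝ) + dg (exKr d exf s0 ζ a b) y
        + czN (ecK d r s0 ζ a b) i - (prK d r s0 ζ).oe))
    (hout : ∀ i m, (m + (d.P + s0) < 0 ∨ ((3 * d.P : ℕ) : ℤ) < m + (d.P + s0)) →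
      lam i m ≤ s * (2 ^ 37 - (prK d r s0 ζ).oe)) :
    Zone5 (kLc r.c (d.P + s0)) (kRc r.c (d.P + s0)) lam (LK d r exf s0 s ζ a b)
      ∧ EndOK (LK d r exf s0 s ζ a b) (WK d r s0 s ζ a b) := by
  have h := (hn _ (Nat.zero_le _) (inN_lt hζ)).en _ (hg.k a ha b hb)
  set q := prK d r s0 ζ with hq
  set e := ecK d r s0 ζ a b with he
  set ex := exKr d exf s0 ζ a b with hex
  -- an integer version of the tables above `lam`
  set lamI : Fin 5 → ℤ → ℝ := fun i => dz r.c.n (d.P + s0) (2 ^ 37) (2 ^ 37)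
    fun y => ((zd r.c q (z53 i) y : ℕ) : ℝ) + dg ex y + czN e i with hlamI
  obtain ⟨z5, eo, -⟩ := end_of_chk hg.c h (d.P + s0) hs (lam := lamI)
    (fun i y hy => le_of_eq (dz_in (by ring) hy))
    (fun i m hm => by
      rcases hm with hm | hm
      · exact (dz_lo hm).le
      · exact (dz_hi hm).le) (q.oe : ℝ)
  have eL : LK d r exf s0 s ζ a b = fun m => s * (LZ r.c (d.P + s0) (ltab r.c q ex e) m - q.oe) := by
    funext m
    unfold LK
    rw [if_pos hζ]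
  have eW : WK d r s0 s ζ a b
      = fun m => s * (WZ r.c (d.P + s0) (wR d (vN' d s0 ζ) (plE d.segs a b).k1) m - q.oe) := by
    funext m
    unfold WK
    rw [if_pos hζ]
  have le : ∀ i m, lam i m ≤ s * (lamI i m - q.oe) := by
    intro i m
    rcases dz_cases (n := r.c.n) (S := d.P + s0) m with o | o | ⟨y, hy, hyn⟩
    · refine (hout i m (Or.inl o)).trans (le_of_eq ?_)
      rw [hlamI]
      dsimp only
      rw [dz_lo o]
    · refine (hout i m (Or.inr ?_)).trans (le_of_eq ?_)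
      · rw [← hg.n]
        exact o
      · rw [hlamI]
        dsimp only
        rw [dz_hi o]
    · have em : m = (y : ℤ) - (d.P + s0) := by omega
      have := hin i y (by rw [← hg.n]; exact hyn)
      rw [em]
      refine this.trans (le_of_eq ?_)
      rw [hlamI]
      dsimp only
      rw [dz_in (m := (y : ℤ) - (d.P + s0)) (by ring) hyn]
  rw [eL, eW]
  refine ⟨⟨fun x hx => ?_, ?_, fun x hx hx' => ?_, ?_, fun x hx => ?_⟩, eo⟩
  · exact (pl_mono (le 0) x).trans (z5.h0 x hx)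
  · exact (pl_mono (le 1) _).trans z5.h1
  · exact (pl_mono (le 2) x).trans (z5.h2 x hx hx')
  · exact (pl_mono (le 3) _).trans z5.h3
  · exact (pl_mono (le 4) x).trans (z5.h4 x hx)

/-- MIDPOINTS -/
theorem row_mid (hg : GlOK d r) (hn : NdsOK d r exf 0 (vR d.segs)) (hs : 0 ≤ s) {ζ : ℕ × ℤ}
    (hζ : inN d s0 ζ) :
    (∀ m, avN ((r.num:ℝ) / r.den) (hRK d r s0 s ζ) m + avN ((r.num:ℝ) / r.den) (hLK d r s0 s ζ) m
      ≤ LmK d r s0 s ζ m) ∧ MidOK (LmK d r s0 s ζ) (WmK d r s0 s ζ) := by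
  have h := hn _ (Nat.zero_le _) (inN_lt hζ)
  obtain ⟨hm1, hm2, -, -⟩ := chkMd_imp h.md
  have hd' : (0:ℝ) < r.den := by exact_mod_cast hm2
  have hd0 : 0 ≤ (r.num:ℝ) / r.den := by positivity
  have avs : ∀ (f : ℤ → ℝ) m, avN ((r.num:ℝ) / r.den) (fun m => s * f m) m
      = s * avN ((r.num:ℝ) / r.den) f m := by
    intro f m
    unfold avN d2p
    have e : s * f (m - 1) - 2 * (s * f m) + s * f (m + 1)
        = s * (f (m - 1) - 2 * f m + f (m + 1)) := by ring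
    have e2 : max 0 (s * (f (m - 1) - 2 * f m + f (m + 1)))
        = s * max 0 (f (m - 1) - 2 * f m + f (m + 1)) := by
      rw [mul_max_of_nonneg _ _ hs, mul_zero]
    rw [e, e2]
    ring
  have eR : hRK d r s0 s ζ = fun m => s * hRz r.c (d.P + s0) (prK d r s0 ζ) r.mid m := by
    funext m
    unfold hRK
    rw [if_pos hζ]
  have eL : hLK d r s0 s ζ = fun m => s * hLz r.c (d.P + s0) (prK d r s0 ζ) r.mid m := by
    funext m
    unfold hLK
    rw [if_pos hζ]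
  have eM : LmK d r s0 s ζ
      = fun m => s * avN ((r.num:ℝ) / r.den) (hAz r.c (d.P + s0) (prK d r s0 ζ)) m := by
    funext m
    unfold LmK
    rw [if_pos hζ]
  have eW : WmK d r s0 s ζ = fun m => s * WMz d.P s0 (wR d (vN' d s0 ζ) r.km) m := by
    funext m
    unfold WmK
    rw [if_pos hζ]
  have z0 : dg (prK d r s0 ζ).h r.mid = 0 ∧ dg (prK d r s0 ζ).h (r.mid + 1) = 0 := by
    have k := h.hd
    unfold chkHd at k
    simp only [Bool.and_eq_true] at k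
    obtain ⟨⟨⟨⟨⟨⟨⟨⟨⟨⟨⟨z0, z1⟩, -⟩, -⟩, -⟩, -⟩, -⟩, -⟩, -⟩, -⟩, -⟩, -⟩ := k
    exact ⟨Nat.eq_of_beq_eq_true z0, Nat.eq_of_beq_eq_true z1⟩
  constructor
  · intro m
    rw [eR, eL, eM, avs, avs, ← mul_add]
    exact mul_le_mul_of_nonneg_left (avN_split z0.1 z0.2 (d.P + s0) hd0 m) hs
  · have fm : FreM (avN ((r.num:ℝ) / r.den) (hAz r.c (d.P + s0) (prK d r s0 ζ)))
        (WMz d.P s0 (wR d (vN' d s0 ζ) r.km)) := mid_of_chk (c := r.c) h.md (chkSz_imp h.sz).2.1 (s0 := s0) (S := d.P + s0) rfl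
      (by
        have := hg.n
        have := hg.P
        omega)
    rw [eM, eW]
    refine MidOK.of_freM ⟨fun k => ?_, fun k => ?_, fun k => ?_⟩
    · exact mul_le_mul_of_nonneg_left (fm.ev k) hs
    · have := mul_le_mul_of_nonneg_left (fm.od k) hs
      linarith
    · have := mul_le_mul_of_nonneg_left (fm.kn k) hs
      linarith

lemma pl_smul' (f : ℤ → ℝ) (s x : ℝ) : pl (fun m => s * f m) x = s * pl f x := by
  unfold pl
  ring

lemma pl_zero' (x : ℝ) : pl (fun _ => (0:ℝ)) x = 0 := by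
  unfold pl
  ring

/-- DOMINATION: hypotheses of `gz_le_HR`, `gz_le_HL` (all nodes `ζ`) -/
theorem row_dom (hg : GlOK d r) (hn : NdsOK d r exf 0 (vR d.segs)) (hs : 0 ≤ s) (ζ : ℕ × ℤ)
    (e : Bool) :
    (∀ x : ℝ, ((r.yr : ℤ) - (d.P + s0) : ℤ) ≤ x → x ≤ kRc r.c (d.P + s0) →
      pl (gK d r s0 s 1 ζ e) x ≤ pl (hRK d r s0 s ζ) x)
    ∧ (∀ x : ℝ, kRc r.c (d.P + s0) ≤ x → pl (gK d r s0 s 2 ζ e) x ≤ pl (hRK d r s0 s ζ) x)
    ∧ (∀ x : ℝ, kLc r.c (d.P + s0) ≤ x → x ≤ ((r.yl : ℤ) - (d.P + s0) : ℤ) →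
      pl (gK d r s0 s 1 ζ e) x ≤ pl (hLK d r s0 s ζ) x)
    ∧ (∀ x : ℝ, x ≤ kLc r.c (d.P + s0) → pl (gK d r s0 s 0 ζ e) x ≤ pl (hLK d r s0 s ζ) x) := by
  by_cases hζ : inN d s0 ζ
  · have h := hn _ (Nat.zero_le _) (inN_lt hζ)
    obtain ⟨d1, d2, d3, d4⟩ := dom_of_chk hg.c h.hd (d.P + s0)
    have eg : ∀ i, gK d r s0 s i ζ e = fun m => s * gZ r.c (d.P + s0) (prK d r s0 ζ) i m := by
      intro i
      funext m
      unfold gK
      rw [if_pos hζ]
    have eR : hRK d r s0 s ζ = fun m => s * hRz r.c (d.P + s0) (prK d r s0 ζ) r.mid m := by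
      funext m
      unfold hRK
      rw [if_pos hζ]
    have eL : hLK d r s0 s ζ = fun m => s * hLz r.c (d.P + s0) (prK d r s0 ζ) r.mid m := by
      funext m
      unfold hLK
      rw [if_pos hζ]
    rw [eg, eg, eg, eR, eL]
    refine ⟨fun x hx hx' => ?_, fun x hx => ?_, fun x hx hx' => ?_, fun x hx => ?_⟩ <;>
      rw [pl_smul', pl_smul'] <;> refine mul_le_mul_of_nonneg_left ?_ hs
    · exact d1 x hx hx'
    · exact d2 x hx
    · exact d3 x hx hx'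
    · exact d4 x hx
  · have eg : ∀ i, gK d r s0 s i ζ e = fun _ => 0 := by
      intro i
      funext m
      unfold gK
      rw [if_neg hζ]
    have eR : hRK d r s0 s ζ = fun _ => 0 := by
      funext m
      unfold hRK
      rw [if_neg hζ]
    have eL : hLK d r s0 s ζ = fun _ => 0 := by
      funext m
      unfold hLK
      rw [if_neg hζ]
    rw [eg, eg, eg, eR, eL]
    exact ⟨fun _ _ _ => le_rfl, fun _ _ => le_rfl, fun _ _ _ => le_rfl, fun _ _ => le_rfl⟩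

/-! ### Bounds -/

lemma gK_bd (hn : NdsOK d r exf 0 (vR d.segs)) (hs : 0 ≤ s) (i : Fin 3) (ζ : ℕ × ℤ) (e : Bool)
    (m : ℤ) : 0 ≤ gK d r s0 s i ζ e m ∧ gK d r s0 s i ζ e m ≤ s * 2 ^ 36 := by
  unfold gK
  split_ifs with hζ
  · have h := hn _ (Nat.zero_le _) (inN_lt hζ)
    have h0 : 0 ≤ gZ r.c (d.P + s0) (prK d r s0 ζ) i m :=
      dz_ge le_rfl le_rfl (fun y => Nat.cast_nonneg _) m
    have h1 : gZ r.c (d.P + s0) (prK d r s0 ζ) i m ≤ 2 ^ 36 :=
      dz_le (by positivity) (by positivity) (fun y => by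
        have := zd_le h.sz i y
        exact_mod_cast this) m
    exact ⟨mul_nonneg hs h0, mul_le_mul_of_nonneg_left h1 hs⟩
  · exact ⟨le_rfl, by positivity⟩

lemma hRK_bd (hn : NdsOK d r exf 0 (vR d.segs)) (hs : 0 ≤ s) (ζ : ℕ × ℤ) (m : ℤ) :
    0 ≤ hRK d r s0 s ζ m ∧ hRK d r s0 s ζ m ≤ s * 2 ^ 36 := by
  unfold hRK
  split_ifs with hζ
  · have h := hn _ (Nat.zero_le _) (inN_lt hζ)
    have hq : ∀ y, (dg (prK d r s0 ζ).h y : ℝ) ≤ 2 ^ 36 := fun y => by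
      have := (chkSz_imp h.sz).2.1 y
      exact_mod_cast this.le
    have h0 : 0 ≤ hRz r.c (d.P + s0) (prK d r s0 ζ) r.mid m :=
      dz_ge le_rfl le_rfl (fun y => by split_ifs; exacts [Nat.cast_nonneg _, le_rfl]) m
    have h1 : hRz r.c (d.P + s0) (prK d r s0 ζ) r.mid m ≤ 2 ^ 36 :=
      dz_le (by positivity) (by positivity) (fun y => by
        split_ifs
        · exact hq y
        · positivity) m
    exact ⟨mul_nonneg hs h0, mul_le_mul_of_nonneg_left h1 hs⟩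
  · exact ⟨le_rfl, by positivity⟩

lemma hLK_bd (hn : NdsOK d r exf 0 (vR d.segs)) (hs : 0 ≤ s) (ζ : ℕ × ℤ) (m : ℤ) :
    0 ≤ hLK d r s0 s ζ m ∧ hLK d r s0 s ζ m ≤ s * 2 ^ 36 := by
  unfold hLK
  split_ifs with hζ
  · have h := hn _ (Nat.zero_le _) (inN_lt hζ)
    have hq : ∀ y, (dg (prK d r s0 ζ).h y : ℝ) ≤ 2 ^ 36 := fun y => by
      have := (chkSz_imp h.sz).2.1 y
      exact_mod_cast this.le
    have h0 : 0 ≤ hLz r.c (d.P + s0) (prK d r s0 ζ) r.mid m :=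
      dz_ge le_rfl le_rfl (fun y => by split_ifs; exacts [le_rfl, Nat.cast_nonneg _]) m
    have h1 : hLz r.c (d.P + s0) (prK d r s0 ζ) r.mid m ≤ 2 ^ 36 :=
      dz_le (by positivity) (by positivity) (fun y => by
        split_ifs
        · positivity
        · exact hq y) m
    exact ⟨mul_nonneg hs h0, mul_le_mul_of_nonneg_left h1 hs⟩
  · exact ⟨le_rfl, by positivity⟩

lemma LmK_bd (hn : NdsOK d r exf 0 (vR d.segs)) (hs : 0 ≤ s) (ζ : ℕ × ℤ) (m : ℤ) :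
    |LmK d r s0 s ζ m| ≤ s * 2 ^ 37 := by
  unfold LmK
  split_ifs with hζ
  · have h := hn _ (Nat.zero_le _) (inN_lt hζ)
    obtain ⟨hm1, hm2, -, -⟩ := chkMd_imp h.md
    have hd' : (0:ℝ) < r.den := by exact_mod_cast hm2
    have hd0 : 0 ≤ (r.num:ℝ) / r.den := by positivity
    have hd1 : (r.num:ℝ) / r.den ≤ 1 := by
      rw [div_le_one hd']
      exact_mod_cast hm1
    have k := avN_bd hd0 hd1 (f := hAz r.c (d.P + s0) (prK d r s0 ζ)) (B := 2 ^ 36)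
      (dz_ge le_rfl le_rfl fun y => Nat.cast_nonneg _)
      (dz_le (by positivity) (by positivity) fun y => by
        have := (chkSz_imp h.sz).2.1 y
        exact_mod_cast this.le) m
    rw [abs_of_nonneg (mul_nonneg hs k.1)]
    refine mul_le_mul_of_nonneg_left (k.2.trans (le_of_eq ?_)) hs
    norm_num
  · rw [abs_zero]
    positivity

lemma LK_bd (hs : 0 ≤ s)
    (hoe : ∀ z < vR d.segs, (nth16 prD r.pr z).oe ≤ 2 ^ 37) (ζ : ℕ × ℤ) (a b : ℕ) (m : ℤ) :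
    |LK d r exf s0 s ζ a b m| ≤ s * 2 ^ 40 := by
  unfold LK
  split_ifs with hζ
  · have ho := hoe _ (inN_lt hζ)
    have ho' : ((prK d r s0 ζ).oe : ℝ) ≤ 2 ^ 37 := by exact_mod_cast ho
    have ho0 : (0:ℝ) ≤ (prK d r s0 ζ).oe := Nat.cast_nonneg _
    set X := LZ r.c (d.P + s0)
      (ltab r.c (prK d r s0 ζ) (exKr d exf s0 ζ a b) (ecK d r s0 ζ a b)) m with hX
    have h0 : 0 ≤ X := dz_ge (by positivity) (by positivity) (fun y => Nat.cast_nonneg _) m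
    have h1 : X ≤ 2 ^ 40 := dz_le (by norm_num) (by norm_num) (fun y => by
      have := dg_lt (ltab r.c (prK d r s0 ζ) (exKr d exf s0 ζ a b) (ecK d r s0 ζ a b)) y
      exact_mod_cast this.le) m
    rw [abs_mul, abs_of_nonneg hs]
    refine mul_le_mul_of_nonneg_left ?_ hs
    rw [abs_le]
    constructor
    · have : (2:ℝ) ^ 37 ≤ 2 ^ 40 := by norm_num
      linarith
    · linarith
  · rw [abs_zero]
    positivity

/-- THE LINK TO `TR`: own part of the tables, when the fixed table lists are empty -/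
lemma tvE_own {ζ : ℕ × ℤ} (hζ : inN d s0 ζ) {k : ℕ} (y : ℤ)
    (hG : ∀ sg ∈ d.segs, ∀ c ∈ sg.cb, c.g = []) :
    tvE d s0 ζ k y = dg (wR d (vN' d s0 ζ) k) (y + d.P + s0).toNat := by
  unfold tvE arrR tabR wR
  have hz := inN_lt hζ
  have e : (nth ⟨0, []⟩ (sgR d.segs (vN' d s0 ζ)).cb k).g = [] := by
    rcases nth_mem (⟨0, []⟩ : Cb) (sgR d.segs (vN' d s0 ζ)).cb k with h1 | h1
    · exact hG _ (sgR_eq d.segs hz).2.2.1 _ h1
    · rw [h1]
  rw [e]
  rfl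

/-- the end point part of the node table -/
lemma WK_eq (hg : GlOK d r) (hG : ∀ sg ∈ d.segs, ∀ c ∈ sg.cb, c.g = []) {ζ : ℕ × ℤ}
    (hζ : inN d s0 ζ) (a b : ℕ) {m : ℤ} (h1 : 0 ≤ m + d.P + s0) (h2 : m + d.P + s0 ≤ 3 * d.P) :
    WK d r s0 s ζ a b m
      = s * (tvE d s0 ζ (plE d.segs a b).k1 m - (prK d r s0 ζ).oe) := by
  unfold WK WZ
  rw [if_pos hζ, tvE_own hζ _ hG]
  obtain ⟨y, hy⟩ : ∃ y : ℕ, m + d.P + s0 = y := ⟨(m + d.P + s0).toNat, by omega⟩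
  rw [dz_in (y := y) (by rw [← hy]; ring) (by rw [hg.n]; omega), hy, Int.toNat_natCast]

/-- the midpoint part of the node table -/
lemma WmK_eq (hG : ∀ sg ∈ d.segs, ∀ c ∈ sg.cb, c.g = []) {ζ : ℕ × ℤ} (hζ : inN d s0 ζ) {m : ℤ}
    (h1 : 0 ≤ m + 2 * s0) (h2 : m + 2 * s0 ≤ 2 * d.P) :
    WmK d r s0 s ζ m = s * tvM d s0 ζ r.km m := by
  unfold WmK WMz tvM arrR tabR wR
  rw [if_pos hζ]
  have hz := inN_lt hζ
  have e : (nth ⟨0, []⟩ (sgR d.segs (vN' d s0 ζ)).cb r.km).g = [] := by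
    rcases nth_mem (⟨0, []⟩ : Cb) (sgR d.segs (vN' d s0 ζ)).cb r.km with h3 | h3
    · exact hG _ (sgR_eq d.segs hz).2.2.1 _ h3
    · rw [h3]
  obtain ⟨y, hy⟩ : ∃ y : ℕ, m + 2 * s0 = y := ⟨(m + 2 * s0).toNat, by omega⟩
  rw [dz_in (y := y) hy (by omega), hy, Int.toNat_natCast, e]
  have e2 : sumL (fun g : G3 => shf (nth 0 d.G g.ix) (g3s d.P (psR d.segs (vN' d s0 ζ)) g)) [] = 0 :=
    rfl
  rw [e2]
  show s * (dg _ y : ℝ) = s * (dg (_ + 0) y : ℝ)
  rw [Nat.add_zero]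

end fam

end MP61673a.KC
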