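import Pool.Agent.Mu673.RowLinkI
import Pool.Agent.Mu673.RowLink2
import Pool.Agent.Mu673.FE6

/-!
NODE LAYER OF THE IN ROWS (helper40): nine zones (`RowLinkI`), one constant per zone, extra costs that
may depend on the five zones of `FE5`, midpoint majorant above prices and windows. As `RowLink2`
(helper89): one Bool check per range of nodes, families indexed by `ζ = (class, node coordinate)`.
-/

set_option autoImplicit false

namespace MP61673a.Row9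

open Finset MP61673a.Kink MP61673a.FE MP61673a.KC MP61673a.RowI

/-! ### Kernel functions -/

/-- zone conditions of the majorant `L`; `x0, .., x4` = extra costs of the five zones of `FE5` -/
def chkZn95 (c : CutI) (q : PrcI) (x0 x1 x2 x3 x4 ec L : ℕ) : Bool :=
  pcL c.td c.a0 c.t0 (fz0 x0 (dg ec 0)) L
  && (pcI c.td c.a0 c.t0 c.a1 c.t1 (fz1 q.p0 c.a0 x0 (dg ec 1)) L
  && (pcC c.td c.a1 c.t1 (fz1 q.p1 c.a1 x1 (dg ec 2)) L
  && (pcI c.td c.a1 c.t1 c.a2 c.t2 (fz1 q.p1 c.a1 x2 (dg ec 3)) L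
  && (pcI c.td c.a2 c.t2 c.a3 c.t3 (fz0 x2 (dg ec 4)) L
  && (pcI c.td c.a3 c.t3 c.a4 c.t4 (fz1 q.p2 c.a3 x2 (dg ec 5)) L
  && (pcC c.td c.a4 c.t4 (fz1 q.p2 c.a3 x3 (dg ec 6)) L
  && (pcI c.td c.a4 c.t4 c.a5 c.t5 (fz1 q.p3 c.a4 x4 (dg ec 7)) L
  && pcR c.n c.td c.a5 c.t5 (fz0 x4 (dg ec 8)) L)))))))

/-- extra costs of the majorant: `x0` up to `a1`, `x2` up to `a4`, `x4` beyond -/
def exw (c : CutI) (x0 x2 x4 : ℕ) : ℕ :=
  cat (Nat.succ c.a1) x0 (cat (Nat.sub c.a4 c.a1) (shf x2 (Nat.succ c.a1))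
    (shf x4 (Nat.succ c.a4)))

/-- all conditions of an end point table with node values `w` -/
def chkE95 (c : CutI) (q : PrcI) (g x0 x1 x2 x3 x4 : ℕ) (e : EctI) (w : ℕ) : Bool :=
  frcB (ltab9 c g (exw c x0 x2 x4) e) (fun L =>
    mask 37 (Nat.succ (Nat.mul 3 c.n)) L && (chkZn95 c q x0 x1 x2 x3 x4 e.c L && chkFr c.n L w))

/-- the same, five words of extra costs -/
def chkE5 (c : CutI) (q : PrcI) (g : ℕ) (ex : ℕ → ℕ) (e : EctI) (w : ℕ) : Bool :=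
  frcB (ex 0) (fun x0 => frcB (ex 1) (fun x1 => frcB (ex 2) (fun x2 => frcB (ex 3) (fun x3 =>
    frcB (ex 4) (fun x4 => chkE95 c q g x0 x1 x2 x3 x4 e w)))))

/-- the same, one word of extra costs for all zones -/
def chkE1 (c : CutI) (q : PrcI) (g ex : ℕ) (e : EctI) (w : ℕ) : Bool :=
  frcB ex (fun x => chkE95 c q g x x x x x e w)

/-- data of a sampler node: prices, midpoint majorant, offset of the end point tables -/
structure Prn where
  /-- prices, `[-D, -ρ]` -/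
  p0 : ℕ
  /-- prices, `[-ρ, 0]` -/
  p1 : ℕ
  /-- prices, `[D, D + ρ]` -/
  p2 : ℕ
  /-- prices, `[D + ρ, 2 D]` -/
  p3 : ℕ
  /-- midpoint majorant -/
  h : ℕ
  /-- offset -/
  oe : ℕ

/-- the prices -/
def Prn.q (p : Prn) : PrcI := ⟨p.p0, p.p1, p.p2, p.p3⟩

/-- default -/
def pnD : Prn := ⟨0, 0, 0, 0, 0, 0⟩

/-- default -/
def enD : EctI := ⟨0, 0⟩

/-- expose the fields -/
noncomputable def onP9 (q : Prn) (f : Prn → Bool) : Bool :=
  Prn.rec (motive := fun _ => Bool) (fun p0 p1 p2 p3 h oe => f ⟨p0, p1, p2, p3, h, oe⟩) q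

/-- expose the fields -/
noncomputable def onE9 (q : EctI) (f : EctI → Bool) : Bool :=
  EctI.rec (motive := fun _ => Bool) (fun c l => f ⟨c, l⟩) q

/-- data of a row cell beside `DatR`: cuts, price data, end data, fuzz `num / den` of the
midpoints, zero digits `mid`, `mid + 1`, number of end tables, number of the midpoint table -/
structure RC9 where
  /-- cuts -/
  c : CutI
  /-- prices, blocks of 16 -/
  pr : List (List Prn)
  /-- end data, blocks of 16 -/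
  ec : List (List (List EctI))
  /-- numerator of the fuzz -/
  num : ℕ
  /-- denominator of the fuzz -/
  den : ℕ
  /-- zero digits `mid`, `mid + 1` -/
  mid : ℕ
  /-- number of end tables -/
  nk : ℕ
  /-- number of the midpoint table -/
  km : ℕ

/-- sizes of the data of a node -/
def chkSz9 (c : CutI) (q : Prn) : Bool :=
  chkSzI c q.q && (mask 36 (Nat.succ c.n) q.h && Nat.ble q.oe 68719476736)

/-- conditions of a node, prices and midpoints: `mc` = packed window constants of the nine zones,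
`mx` = packed moving windows -/
noncomputable def chkB9 (d : DatR) (r : RC9) (mc mx : ℕ) (z : ℕ) (q : Prn) : Bool :=
  chkSz9 r.c q && (frcB mc (fun mc => frcB mx (fun mx => chkDom9 r.c q.q mx mc q.h r.mid))
    && frcB (wR d z r.km) (fun w => chkMd d.P r.num r.den q.h w))

/-- all conditions of one node, `exf z k i` = extra costs of the end table `k` in the zone `i` -/
noncomputable def chkNd9 (d : DatR) (r : RC9) (exf : ℕ → ℕ → ℕ → ℕ) (mcf mxf : ℕ → ℕ)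
    (z : ℕ) : Bool :=
  onP9 (nth16 pnD r.pr z) (fun q => chkB9 d r (mcf z) (mxf z) z q
    && frcB (gtab r.c q.q) (fun g => allN r.nk (fun k => onE9 (nth enD (nth16 [] r.ec z) k)
      (fun e => frcB (wR d z k) (fun w => chkE5 r.c q.q g (exf z k) e w)))))

/-- all conditions of one node, `exf z k` = extra costs of the end table `k` in all zones -/
noncomputable def chkNd91 (d : DatR) (r : RC9) (exf : ℕ → ℕ → ℕ) (mcf mxf : ℕ → ℕ)
    (z : ℕ) : Bool :=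
  onP9 (nth16 pnD r.pr z) (fun q => chkB9 d r (mcf z) (mxf z) z q
    && frcB (gtab r.c q.q) (fun g => allN r.nk (fun k => onE9 (nth enD (nth16 [] r.ec z) k)
      (fun e => frcB (wR d z k) (fun w => chkE1 r.c q.q g (exf z k) e w)))))

/-- the nodes `lo, .., hi - 1` -/
noncomputable def chkNds9 (d : DatR) (r : RC9) (exf : ℕ → ℕ → ℕ → ℕ) (mcf mxf : ℕ → ℕ)
    (lo hi : ℕ) : Bool :=
  allN (Nat.sub hi lo) (fun z' => frcB (Nat.add lo z') (fun z => chkNd9 d r exf mcf mxf z))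

/-- the nodes `lo, .., hi - 1`, one word of extra costs -/
noncomputable def chkNds91 (d : DatR) (r : RC9) (exf : ℕ → ℕ → ℕ) (mcf mxf : ℕ → ℕ)
    (lo hi : ℕ) : Bool :=
  allN (Nat.sub hi lo) (fun z' => frcB (Nat.add lo z') (fun z => chkNd91 d r exf mcf mxf z))

/-- global conditions -/
noncomputable def chkGl9 (d : DatR) (r : RC9) : Bool :=
  chkCI r.c && (Nat.beq r.c.n (Nat.mul 3 d.P) && (Nat.ble 1 d.P
  && allN (nC d.segs) (fun i => allN (nC d.segs) (fun j =>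
      Nat.ble (Nat.succ (plE d.segs i j).k1) r.nk))))

/-! ### The zone conditions -/

section nine

variable {c : CutI} {q : PrcI} {S : ℤ}

/-- THE NINE ZONE CONDITIONS, extra costs of the five zones of `FE5` -/
theorem zone95_of_chk (hc : CIOK c) {M : ℕ} {σ kL kR : ℝ} (hk : Cuts M σ kL kR c S)
    {x0 x1 x2 x3 x4 ec L : ℕ}
    (h : chkZn95 c q x0 x1 x2 x3 x4 ec L = true) {lam : Fin 9 → ℤ → ℝ}
    (hin : ∀ i (y : ℕ), y ≤ c.n → lam i ((y : ℤ) - S)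
      ≤ zp9 c q i y + dg (![x0, x1, x2, x3, x4] (z95 i)) y + dg ec i)
    (hout : ∀ i m, (m + S < 0 ∨ (c.n : ℤ) < m + S) → lam i m ≤ 2 ^ 37) :
    Zone9 M σ kL kR lam (LN c.n S L) := by
  obtain ⟨o0, o1, o2, o3, o4, o5, td, t0, t1, t2, t3, t4, t5⟩ := id hc
  unfold chkZn95 at h
  simp only [Bool.and_eq_true] at h
  obtain ⟨h0, h1, h2, h3, h4, h5, h6, h7, h8⟩ := h
  have hL : ∀ y : ℕ, y ≤ c.n → (dg L y : ℝ) ≤ LN c.n S L ((y : ℤ) - S) := fun y hy => by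
    unfold LN
    rw [dz_in (m := (y:ℤ) - S) (sub_add_cancel _ _) hy]
  have ho : ∀ i m, (m + S < 0 ∨ (c.n : ℤ) < m + S) → lam i m ≤ LN c.n S L m := by
    intro i m hm
    have e : LN c.n S L m = 2 ^ 37 := by
      rcases hm with hm | hm
      · exact dz_lo hm
      · exact dz_hi hm
    rw [e]
    exact hout i m hm
  have hin0 : ∀ y : ℕ, y ≤ c.n → lam 0 ((y:ℤ) - S) ≤ zp9 c q 0 y + dg x0 y + dg ec 0 :=
    fun y hy => hin 0 y hy
  have hin1 : ∀ y : ℕ, y ≤ c.n → lam 1 ((y:ℤ) - S) ≤ zp9 c q 1 y + dg x0 y + dg ec 1 :=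
    fun y hy => hin 1 y hy
  have hin2 : ∀ y : ℕ, y ≤ c.n → lam 2 ((y:ℤ) - S) ≤ zp9 c q 2 y + dg x1 y + dg ec 2 :=
    fun y hy => hin 2 y hy
  have hin3 : ∀ y : ℕ, y ≤ c.n → lam 3 ((y:ℤ) - S) ≤ zp9 c q 3 y + dg x2 y + dg ec 3 :=
    fun y hy => hin 3 y hy
  have hin4 : ∀ y : ℕ, y ≤ c.n → lam 4 ((y:ℤ) - S) ≤ zp9 c q 4 y + dg x2 y + dg ec 4 :=
    fun y hy => hin 4 y hy
  have hin5 : ∀ y : ℕ, y ≤ c.n → lam 5 ((y:ℤ) - S) ≤ zp9 c q 5 y + dg x2 y + dg ec 5 :=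
    fun y hy => hin 5 y hy
  have hin6 : ∀ y : ℕ, y ≤ c.n → lam 6 ((y:ℤ) - S) ≤ zp9 c q 6 y + dg x3 y + dg ec 6 :=
    fun y hy => hin 6 y hy
  have hin7 : ∀ y : ℕ, y ≤ c.n → lam 7 ((y:ℤ) - S) ≤ zp9 c q 7 y + dg x4 y + dg ec 7 :=
    fun y hy => hin 7 y hy
  have hin8 : ∀ y : ℕ, y ≤ c.n → lam 8 ((y:ℤ) - S) ≤ zp9 c q 8 y + dg x4 y + dg ec 8 :=
    fun y hy => hin 8 y hy
  intro i
  fin_cases i
  · show ∀ x ∈ Set.Iic (-M - σ), _
    rw [hk.k0]
    refine pcL_sound h0 td t0 (fun y hy => ?_) (fun y hy => hL y (by omega))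
      (fun m hm => ho 0 m (Or.inl hm))
    have t : lam 0 ((y : ℤ) - S) ≤ (dg x0 y : ℝ) + dg ec 0 := by
      have := hin0 y (by omega)
      have e : zp9 c q 0 y = 0 := rfl
      rw [e, Nat.cast_zero, zero_add] at this
      exact this
    rw [fz0_real]
    exact t
  · show ∀ x ∈ Set.Icc (-M - σ) kL, _
    rw [hk.k0, hk.k1]
    refine pcI_sound h1 td t0 t1 (fun y hy hy' => ?_) (fun y _ hy => hL y (by omega)) o0
    have := hin1 y (by omega)
    rw [fz1_real]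
    have e : zp9 c q 1 y = zdI c q 0 y := rfl
    rw [e, zd0 hy hy'] at this
    exact this
  · show ∀ x ∈ Set.Icc kL kL, _
    intro x hx
    have ex' : x = kL := le_antisymm hx.2 hx.1
    rw [ex', hk.k1]
    refine pcC_real h2 td t1 (fun y hy hy' => ?_) (fun y _ hy => hL y (by omega))
    have := hin2 y (by omega)
    rw [fz1_real]
    have e : zp9 c q 2 y = zdI c q 1 y := rfl
    rw [e, zd1 hy (by omega)] at this
    exact this
  · show ∀ x ∈ Set.Icc kL (-σ), _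
    rw [hk.k1, hk.k2]
    refine pcI_sound h3 td t1 t2 (fun y hy hy' => ?_) (fun y _ hy => hL y (by omega)) o1
    have := hin3 y (by omega)
    rw [fz1_real]
    have e : zp9 c q 3 y = zdI c q 1 y := rfl
    rw [e, zd1 hy hy'] at this
    exact this
  · show ∀ x ∈ Set.Icc (-σ) (M - σ), _
    rw [hk.k2, hk.k3]
    refine pcI_sound h4 td t2 t3 (fun y hy hy' => ?_) (fun y _ hy => hL y (by omega)) (by omega)
    have t : lam 4 ((y : ℤ) - S) ≤ (dg x2 y : ℝ) + dg ec 4 := by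
      have := hin4 y (by omega)
      have e : zp9 c q 4 y = 0 := rfl
      rw [e, Nat.cast_zero, zero_add] at this
      exact this
    rw [fz0_real]
    exact t
  · show ∀ x ∈ Set.Icc (M - σ) kR, _
    rw [hk.k3, hk.k4]
    refine pcI_sound h5 td t3 t4 (fun y hy hy' => ?_) (fun y _ hy => hL y (by omega)) o3
    have := hin5 y (by omega)
    rw [fz1_real]
    have e : zp9 c q 5 y = zdI c q 1 y := rfl
    rw [e, zd2 hc hy hy'] at this
    exact this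
  · show ∀ x ∈ Set.Icc kR kR, _
    intro x hx
    have ex' : x = kR := le_antisymm hx.2 hx.1
    rw [ex', hk.k4]
    refine pcC_real h6 td t4 (fun y hy hy' => ?_) (fun y _ hy => hL y (by omega))
    have := hin6 y (by omega)
    rw [fz1_real]
    have e : zp9 c q 6 y = zdI c q 1 y := rfl
    rw [e, zd2 hc (by omega) hy'] at this
    exact this
  · show ∀ x ∈ Set.Icc kR (2 * M - σ), _
    rw [hk.k4, hk.k5]
    refine pcI_sound h7 td t4 t5 (fun y hy hy' => ?_) (fun y _ hy => hL y (by omega)) o4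
    have := hin7 y (by omega)
    rw [fz1_real]
    have e : zp9 c q 7 y = zdI c q 2 y := rfl
    rw [e, zd3 hy hy'] at this
    exact this
  · show ∀ x ∈ Set.Ici (2 * M - σ), _
    rw [hk.k5]
    refine pcR_sound h8 td t5 (by omega) (fun y hy hy' => ?_) (fun y _ hy => hL y hy)
      (fun m hm => ho 8 m (Or.inr hm))
    have t : lam 8 ((y : ℤ) - S) ≤ (dg x4 y : ℝ) + dg ec 8 := by
      have := hin8 y hy'
      have e : zp9 c q 8 y = 0 := rfl
      rw [e, Nat.cast_zero, zero_add] at this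
      exact this
    rw [fz0_real]
    exact t

/-- ALL CONDITIONS OF ONE END POINT TABLE, real units `s = 1 / U` -/
theorem end95_of_chk (hc : CIOK c) {M : ℕ} {σ kL kR : ℝ} (hk : Cuts M σ kL kR c S)
    {g x0 x1 x2 x3 x4 : ℕ} {e : EctI} {w : ℕ} (h : chkE95 c q g x0 x1 x2 x3 x4 e w = true) {s : ℝ}
    (hs : 0 ≤ s) {lam : Fin 9 → ℤ → ℝ}
    (hin : ∀ i (y : ℕ), y ≤ c.n → lam i ((y : ℤ) - S)
      ≤ zp9 c q i y + dg (![x0, x1, x2, x3, x4] (z95 i)) y + dg e.c i)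
    (hout : ∀ i m, (m + S < 0 ∨ (c.n : ℤ) < m + S) → lam i m ≤ 2 ^ 37) (o : ℝ) :
    Zone9 M σ kL kR (fun i m => s * (lam i m - o))
        (fun m => s * (LN c.n S (ltab9 c g (exw c x0 x2 x4) e) m - o))
      ∧ EndOK (fun m => s * (LN c.n S (ltab9 c g (exw c x0 x2 x4) e) m - o))
        (fun m => s * (WN c.n S w m - o))
      ∧ ∀ m, 0 ≤ LN c.n S (ltab9 c g (exw c x0 x2 x4) e) m
        ∧ LN c.n S (ltab9 c g (exw c x0 x2 x4) e) m ≤ 2 ^ 37 := by
  unfold chkE95 at h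
  rw [frcB_eq] at h
  simp only [Bool.and_eq_true] at h
  obtain ⟨h1, h2, h3⟩ := h
  have hL : ∀ y, dg (ltab9 c g (exw c x0 x2 x4) e) y < 2 ^ 37 := mask_dg (by norm_num) h1
  refine ⟨zone9_affine (zone95_of_chk hc hk h2 hin hout) hs o,
    EndOK.of_fre (fre_affine (fre_dz le_rfl le_rfl hL h3) hs o), fun m => ⟨?_, ?_⟩⟩
  · exact dz_ge (by positivity) (by positivity) (fun y => Nat.cast_nonneg _) m
  · refine dz_le le_rfl le_rfl (fun y => ?_) m
    have := hL y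
    exact_mod_cast this.le

end nine

/-! ### All nodes -/

lemma onP9_eq (q : Prn) (f : Prn → Bool) : onP9 q f = f q := by
  cases q; rfl

lemma onE9_eq (q : EctI) (f : EctI → Bool) : onE9 q f = f q := by
  cases q; rfl

/-- the common part of the conditions of one node (prices and midpoints) -/
structure NdB9 (d : DatR) (r : RC9) (mcf mxf : ℕ → ℕ) (z : ℕ) : Prop where
  sz : chkSz9 r.c (nth16 pnD r.pr z) = true
  dm : chkDom9 r.c (nth16 pnD r.pr z).q (mxf z) (mcf z) (nth16 pnD r.pr z).h r.mid = true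
  md : chkMd d.P r.num r.den (nth16 pnD r.pr z).h (wR d z r.km) = true

/-- the conditions of one node -/
structure NdOK9 (d : DatR) (r : RC9) (exf : ℕ → ℕ → ℕ → ℕ) (mcf mxf : ℕ → ℕ) (z : ℕ) : Prop
    extends NdB9 d r mcf mxf z where
  en : ∀ k < r.nk, chkE95 r.c (nth16 pnD r.pr z).q (gtab r.c (nth16 pnD r.pr z).q)
    (exf z k 0) (exf z k 1) (exf z k 2) (exf z k 3) (exf z k 4)
    (nth enD (nth16 [] r.ec z) k) (wR d z k) = true

lemma chkB9_imp {d : DatR} {r : RC9} {mcf mxf : ℕ → ℕ} {z : ℕ}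
    (h : chkB9 d r (mcf z) (mxf z) z (nth16 pnD r.pr z) = true) : NdB9 d r mcf mxf z := by
  unfold chkB9 at h
  rw [frcB_eq, frcB_eq, frcB_eq] at h
  simp only [Bool.and_eq_true] at h
  obtain ⟨h1, h2, h3⟩ := h
  exact ⟨h1, h2, h3⟩

lemma chkNd9_imp {d : DatR} {r : RC9} {exf : ℕ → ℕ → ℕ → ℕ} {mcf mxf : ℕ → ℕ} {z : ℕ}
    (h : chkNd9 d r exf mcf mxf z = true) : NdOK9 d r exf mcf mxf z := by
  unfold chkNd9 at h
  rw [onP9_eq] at h
  simp only [Bool.and_eq_true] at h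
  obtain ⟨h1, h4⟩ := h
  rw [frcB_eq] at h4
  refine ⟨chkB9_imp h1, fun k hk => ?_⟩
  have := (allN_iff _ _).1 h4 k hk
  rw [onE9_eq, frcB_eq] at this
  unfold chkE5 at this
  rw [frcB_eq, frcB_eq, frcB_eq, frcB_eq, frcB_eq] at this
  exact this

lemma chkNd91_imp {d : DatR} {r : RC9} {exf : ℕ → ℕ → ℕ} {mcf mxf : ℕ → ℕ} {z : ℕ}
    (h : chkNd91 d r exf mcf mxf z = true) : NdOK9 d r (fun z k _ => exf z k) mcf mxf z := by
  unfold chkNd91 at h
  rw [onP9_eq] at h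
  simp only [Bool.and_eq_true] at h
  obtain ⟨h1, h4⟩ := h
  rw [frcB_eq] at h4
  refine ⟨chkB9_imp h1, fun k hk => ?_⟩
  have := (allN_iff _ _).1 h4 k hk
  rw [onE9_eq, frcB_eq] at this
  unfold chkE1 at this
  rw [frcB_eq] at this
  exact this

/-- all nodes of a range -/
def NdsOK9 (d : DatR) (r : RC9) (exf : ℕ → ℕ → ℕ → ℕ) (mcf mxf : ℕ → ℕ) (lo hi : ℕ) : Prop :=
  ∀ z, lo ≤ z → z < hi → NdOK9 d r exf mcf mxf z

lemma NdsOK9.of_check {d : DatR} {r : RC9} {exf : ℕ → ℕ → ℕ → ℕ} {mcf mxf : ℕ → ℕ}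
    {lo hi : ℕ} (h : chkNds9 d r exf mcf mxf lo hi = true) : NdsOK9 d r exf mcf mxf lo hi := by
  intro z hz hz'
  have h1 := (allN_iff _ _).1 h (z - lo) (show z - lo < hi - lo by omega)
  rw [frcB_eq] at h1
  have e : Nat.add lo (z - lo) = z := by
    show lo + (z - lo) = z
    omega
  rw [e] at h1
  exact chkNd9_imp h1

lemma NdsOK9.of_check1 {d : DatR} {r : RC9} {exf : ℕ → ℕ → ℕ} {mcf mxf : ℕ → ℕ}
    {lo hi : ℕ} (h : chkNds91 d r exf mcf mxf lo hi = true) :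
    NdsOK9 d r (fun z k _ => exf z k) mcf mxf lo hi := by
  intro z hz hz'
  have h1 := (allN_iff _ _).1 h (z - lo) (show z - lo < hi - lo by omega)
  rw [frcB_eq] at h1
  have e : Nat.add lo (z - lo) = z := by
    show lo + (z - lo) = z
    omega
  rw [e] at h1
  exact chkNd91_imp h1

lemma NdsOK9.join {d : DatR} {r : RC9} {exf : ℕ → ℕ → ℕ → ℕ} {mcf mxf : ℕ → ℕ}
    {lo mid hi : ℕ} (h1 : NdsOK9 d r exf mcf mxf lo mid) (h2 : NdsOK9 d r exf mcf mxf mid hi) :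
    NdsOK9 d r exf mcf mxf lo hi := by
  intro z hz hz'
  by_cases h : z < mid
  · exact h1 z hz h
  · exact h2 z (by omega) hz'

/-- global conditions -/
structure GlOK9 (d : DatR) (r : RC9) : Prop where
  c : CIOK r.c
  n : r.c.n = 3 * d.P
  P : 1 ≤ d.P
  k : ∀ i < nC d.segs, ∀ j < nC d.segs, (plE d.segs i j).k1 < r.nk

lemma chkGl9_imp {d : DatR} {r : RC9} (h : chkGl9 d r = true) : GlOK9 d r := by
  unfold chkGl9 at h
  simp only [Bool.and_eq_true] at h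
  obtain ⟨h1, h2, h3, h4⟩ := h
  refine ⟨chkCI_imp h1, Nat.eq_of_beq_eq_true h2, Nat.le_of_ble_eq_true h3, fun i hi j hj => ?_⟩
  exact Nat.le_of_ble_eq_true ((allN_iff _ _).1 ((allN_iff _ _).1 h4 i hi) j hj)

lemma chkSz9_imp {c : CutI} {q : Prn} (h : chkSz9 c q = true) :
    (∀ y, dg q.p0 y < 2 ^ 36) ∧ (∀ y, dg q.p1 y < 2 ^ 36) ∧ (∀ y, dg q.p2 y < 2 ^ 36)
      ∧ (∀ y, dg q.p3 y < 2 ^ 36) ∧ (∀ y, dg q.h y < 2 ^ 36) ∧ q.oe ≤ 2 ^ 36 := by
  unfold chkSz9 chkSzI at h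
  simp only [Bool.and_eq_true] at h
  obtain ⟨⟨h1, h2, h3, h4⟩, h5, h6⟩ := h
  exact ⟨mask_dg (by norm_num) h1, mask_dg (by norm_num) h2, mask_dg (by norm_num) h3,
    mask_dg (by norm_num) h4, mask_dg (by norm_num) h5, Nat.le_of_ble_eq_true h6⟩

lemma zdI_lt {c : CutI} {q : Prn} (h : chkSz9 c q = true) (i : Fin 3) (y : ℕ) :
    zdI c q.q i y ≤ 2 ^ 36 := by
  obtain ⟨h1, h2, h3, h4, -, -⟩ := chkSz9_imp h
  have k1 := h1 (y - c.a0)
  have k2 := h2 (y - c.a1)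
  have k3 := h3 (y - c.a3)
  have k4 := h4 (y - c.a4)
  unfold zdI Prn.q
  dsimp only
  split_ifs <;> omega

noncomputable section

/-- data of the node -/
def pn9 (d : DatR) (r : RC9) (s0 : ℤ) (ζ : ℕ × ℤ) : Prn := nth16 pnD r.pr (vN' d s0 ζ)

/-- end data of the node and of the pair of classes -/
def en9 (d : DatR) (r : RC9) (s0 : ℤ) (ζ : ℕ × ℤ) (a b : ℕ) : EctI :=
  nth enD (nth16 [] r.ec (vN' d s0 ζ)) (plE d.segs a b).k1

/-- zone prices -/
def gK9 (d : DatR) (r : RC9) (s0 : ℤ) (s : ℝ) (i : Fin 3) (ζ : ℕ × ℤ) (_e : Bool) (m : ℤ) : ℝ :=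
  if inN d s0 ζ then s * gZI r.c (d.P + s0) (pn9 d r s0 ζ).q i m else 0

/-- dummy cuts with the last digit `n` -/
def cn9 (n : ℕ) : CutP := ⟨n, 0, 0, 0, 0, 1⟩

/-- dummy prices with the midpoint majorant `h` -/
def ph9 (h : ℕ) : Prc := ⟨0, 0, 0, 0, 0, h, 0⟩

/-- right midpoint majorant -/
def hRK9 (d : DatR) (r : RC9) (s0 : ℤ) (s : ℝ) (ζ : ℕ × ℤ) (m : ℤ) : ℝ :=
  if inN d s0 ζ then s * hRz (cn9 r.c.n) (d.P + s0) (ph9 (pn9 d r s0 ζ).h) r.mid m else 0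

/-- left midpoint majorant -/
def hLK9 (d : DatR) (r : RC9) (s0 : ℤ) (s : ℝ) (ζ : ℕ × ℤ) (m : ℤ) : ℝ :=
  if inN d s0 ζ then s * hLz (cn9 r.c.n) (d.P + s0) (ph9 (pn9 d r s0 ζ).h) r.mid m else 0

/-- midpoint table of the majorant -/
def LmK9 (d : DatR) (r : RC9) (s0 : ℤ) (s : ℝ) (ζ : ℕ × ℤ) (m : ℤ) : ℝ :=
  if inN d s0 ζ then s * avN ((r.num:ℝ) / r.den)
    (hAz (cn9 r.c.n) (d.P + s0) (ph9 (pn9 d r s0 ζ).h)) m else 0

/-- node values of the midpoints -/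
def WmK9 (d : DatR) (r : RC9) (s0 : ℤ) (s : ℝ) (ζ : ℕ × ℤ) (m : ℤ) : ℝ :=
  if inN d s0 ζ then s * WMz d.P s0 (wR d (vN' d s0 ζ) r.km) m else 0

/-- joint majorant of the end point labels -/
def LK9 (d : DatR) (r : RC9) (exf : ℕ → ℕ → ℕ → ℕ) (s0 : ℤ) (s : ℝ) (ζ : ℕ × ℤ) (a b : ℕ)
    (m : ℤ) : ℝ :=
  if inN d s0 ζ then s * (LN r.c.n (d.P + s0) (ltab9 r.c (gtab r.c (pn9 d r s0 ζ).q)
    (exw r.c (exf (vN' d s0 ζ) (plE d.segs a b).k1 0) (exf (vN' d s0 ζ) (plE d.segs a b).k1 2)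
      (exf (vN' d s0 ζ) (plE d.segs a b).k1 4)) (en9 d r s0 ζ a b)) m - (pn9 d r s0 ζ).oe) else 0

/-- node values of the end point labels -/
def WK9 (d : DatR) (r : RC9) (s0 : ℤ) (s : ℝ) (ζ : ℕ × ℤ) (a b : ℕ) (m : ℤ) : ℝ :=
  if inN d s0 ζ then s * (WN r.c.n (d.P + s0) (wR d (vN' d s0 ζ) (plE d.segs a b).k1) m
    - (pn9 d r s0 ζ).oe) else 0

end

section fam

variable {d : DatR} {r : RC9} {exf : ℕ → ℕ → ℕ → ℕ} {mcf mxf : ℕ → ℕ} {s0 : ℤ} {s : ℝ}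

/-- END POINT LABELS: zone conditions and end point rule, real units `s = 1 / U` -/
theorem row_end9 (hg : GlOK9 d r) (hn : NdsOK9 d r exf mcf mxf 0 (vR d.segs)) (hs : 0 ≤ s)
    {M : ℕ} {σ kL kR : ℝ} (hk : Cuts M σ kL kR r.c (d.P + s0)) {ζ : ℕ × ℤ}
    (hζ : inN d s0 ζ) {a b : ℕ} (ha : a < nC d.segs) (hb : b < nC d.segs)
    {lam : Fin 9 → ℤ → ℝ}
    (hin : ∀ (i : Fin 9) (y : ℕ), y ≤ 3 * d.P → lam i ((y : ℤ) - (d.P + s0))
      ≤ s * (((zp9 r.c (pn9 d r s0 ζ).q i y : ℕ) : ℝ)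
        + dg (exf (vN' d s0 ζ) (plE d.segs a b).k1 (z95 i)) y
        + dg (en9 d r s0 ζ a b).c i - (pn9 d r s0 ζ).oe))
    (hout : ∀ i m, (m + (d.P + s0) < 0 ∨ ((3 * d.P : ℕ) : ℤ) < m + (d.P + s0)) →
      lam i m ≤ s * (2 ^ 37 - (pn9 d r s0 ζ).oe)) :
    Zone9 M σ kL kR lam (LK9 d r exf s0 s ζ a b)
      ∧ EndOK (LK9 d r exf s0 s ζ a b) (WK9 d r s0 s ζ a b) := by
  have h := (hn _ (Nat.zero_le _) (inN_lt hζ)).en _ (hg.k a ha b hb)
  set p := pn9 d r s0 ζ with hp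
  set e := en9 d r s0 ζ a b with he
  set ex := exf (vN' d s0 ζ) (plE d.segs a b).k1 with hex
  have hv : ∀ i : Fin 5, (![ex 0, ex 1, ex 2, ex 3, ex 4] i : ℕ) = ex i := by
    intro i
    fin_cases i <;> rfl
  -- an integer version of the tables above `lam`
  set lamI : Fin 9 → ℤ → ℝ := fun i => dz r.c.n (d.P + s0) (2 ^ 37) (2 ^ 37)
    fun y => ((zp9 r.c p.q i y : ℕ) : ℝ) + dg (ex (z95 i)) y + dg e.c i with hlamI
  obtain ⟨z9, eo, -⟩ := end95_of_chk hg.c hk h hs (lam := lamI)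
    (fun i y hy => by
      rw [hv]
      exact le_of_eq (dz_in (by ring) hy))
    (fun i m hm => by
      rcases hm with hm | hm
      · exact (dz_lo hm).le
      · exact (dz_hi hm).le) (p.oe : ℝ)
  have eL : LK9 d r exf s0 s ζ a b
      = fun m => s * (LN r.c.n (d.P + s0) (ltab9 r.c (gtab r.c p.q) (exw r.c (ex 0) (ex 2) (ex 4))
        e) m - p.oe) := by
    funext m
    unfold LK9
    rw [if_pos hζ]
  have eW : WK9 d r s0 s ζ a b
      = fun m => s * (WN r.c.n (d.P + s0) (wR d (vN' d s0 ζ) (plE d.segs a b).k1) m - p.oe) := by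
    funext m
    unfold WK9
    rw [if_pos hζ]
  have le : ∀ i m, lam i m ≤ s * (lamI i m - p.oe) := by
    intro i m
    rcases dz_cases (n := r.c.n) (S := d.P + s0) m with o | o | ⟨y, hy, hyn⟩
    · refine (hout i m (Or.inl o)).trans (le_of_eq ?_)
      rw [hlamI]
      dsimp only
      rw [dz_lo o]
    · refine (hout i m (Or.inr ?_)).trans (le_of_eq ?_)
      · rw [← hg.n]
        exact o
      · rw [hlamI]
        dsimp only
        rw [dz_hi o]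
    · have em : m = (y : ℤ) - (d.P + s0) := by omega
      have := hin i y (by rw [← hg.n]; exact hyn)
      rw [em]
      refine this.trans (le_of_eq ?_)
      rw [hlamI]
      dsimp only
      rw [dz_in (m := (y : ℤ) - (d.P + s0)) (by ring) hyn]
  rw [eL, eW]
  exact ⟨zone9_mono z9 le, eo⟩

/-- MIDPOINTS -/
theorem row_mid9 (hg : GlOK9 d r) (hn : NdsOK9 d r exf mcf mxf 0 (vR d.segs)) (hs : 0 ≤ s)
    {ζ : ℕ × ℤ} (hζ : inN d s0 ζ) :
    (∀ m, avN ((r.num:ℝ) / r.den) (hRK9 d r s0 s ζ) m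
      + avN ((r.num:ℝ) / r.den) (hLK9 d r s0 s ζ) m ≤ LmK9 d r s0 s ζ m)
      ∧ MidOK (LmK9 d r s0 s ζ) (WmK9 d r s0 s ζ) := by
  have h := (hn _ (Nat.zero_le _) (inN_lt hζ)).toNdB9
  obtain ⟨hm1, hm2, -, -⟩ := chkMd_imp h.md
  have hd' : (0:ℝ) < r.den := by exact_mod_cast hm2
  have hd0 : 0 ≤ (r.num:ℝ) / r.den := by positivity
  have avs : ∀ (f : ℤ → ℝ) m, avN ((r.num:ℝ) / r.den) (fun m => s * f m) m
      = s * avN ((r.num:ℝ) / r.den) f m := by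
    intro f m
    unfold avN d2p
    have e : s * f (m - 1) - 2 * (s * f m) + s * f (m + 1)
        = s * (f (m - 1) - 2 * f m + f (m + 1)) := by ring
    have e2 : max 0 (s * (f (m - 1) - 2 * f m + f (m + 1)))
        = s * max 0 (f (m - 1) - 2 * f m + f (m + 1)) := by
      rw [mul_max_of_nonneg _ _ hs, mul_zero]
    rw [e, e2]
    ring
  have eR : hRK9 d r s0 s ζ = fun m => s * hRz (cn9 r.c.n) (d.P + s0) (ph9 (pn9 d r s0 ζ).h)
      r.mid m := by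
    funext m
    unfold hRK9
    rw [if_pos hζ]
  have eL : hLK9 d r s0 s ζ = fun m => s * hLz (cn9 r.c.n) (d.P + s0) (ph9 (pn9 d r s0 ζ).h)
      r.mid m := by
    funext m
    unfold hLK9
    rw [if_pos hζ]
  have eM : LmK9 d r s0 s ζ = fun m => s * avN ((r.num:ℝ) / r.den)
      (hAz (cn9 r.c.n) (d.P + s0) (ph9 (pn9 d r s0 ζ).h)) m := by
    funext m
    unfold LmK9
    rw [if_pos hζ]
  have eW : WmK9 d r s0 s ζ = fun m => s * WMz d.P s0 (wR d (vN' d s0 ζ) r.km) m := by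
    funext m
    unfold WmK9
    rw [if_pos hζ]
  have z0 : dg (ph9 (pn9 d r s0 ζ).h).h r.mid = 0
      ∧ dg (ph9 (pn9 d r s0 ζ).h).h (r.mid + 1) = 0 := by
    have k := h.dm
    unfold chkDom9 at k
    simp only [Bool.and_eq_true] at k
    obtain ⟨z0, z1, -⟩ := k
    exact ⟨Nat.eq_of_beq_eq_true z0, Nat.eq_of_beq_eq_true z1⟩
  constructor
  · intro m
    rw [eR, eL, eM, avs, avs, ← mul_add]
    exact mul_le_mul_of_nonneg_left (avN_split z0.1 z0.2 (d.P + s0) hd0 m) hs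
  · have fm : FreM (avN ((r.num:ℝ) / r.den) (hAz (cn9 r.c.n) (d.P + s0) (ph9 (pn9 d r s0 ζ).h)))
        (WMz d.P s0 (wR d (vN' d s0 ζ) r.km)) := mid_of_chk (c := cn9 r.c.n)
      (q := ph9 (pn9 d r s0 ζ).h) h.md (chkSz9_imp h.sz).2.2.2.2.1 (s0 := s0) (S := d.P + s0) rfl
      (by
        have h1 := hg.n
        have h2 := hg.P
        show 2 * d.P < r.c.n
        omega)
    rw [eM, eW]
    refine MidOK.of_freM ⟨fun k => ?_, fun k => ?_, fun k => ?_⟩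
    · exact mul_le_mul_of_nonneg_left (fm.ev k) hs
    · have := mul_le_mul_of_nonneg_left (fm.od k) hs
      linarith
    · have := mul_le_mul_of_nonneg_left (fm.kn k) hs
      linarith

/-- window tables of the midpoints, real units -/
noncomputable def lmD9 (d : DatR) (r : RC9) (mcf mxf : ℕ → ℕ) (s0 : ℤ) (s : ℝ) (ζ : ℕ × ℤ)
    (i : Fin 9) : ℤ → ℝ := fun m => s * dz r.c.n (d.P + s0) 0 0 (fun y =>
      ((zp9 r.c (pn9 d r s0 ζ).q i y : ℕ) : ℝ) + dg (mxf (vN' d s0 ζ)) y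
        + dg (mcf (vN' d s0 ζ)) i) m

/-- DOMINATION on the priced zones: prices and windows below the midpoint majorants -/
theorem row_dom9 (hg : GlOK9 d r) (hn : NdsOK9 d r exf mcf mxf 0 (vR d.segs)) (hs : 0 ≤ s)
    {M : ℕ} {σ kL kR : ℝ} (hk : Cuts M σ kL kR r.c (d.P + s0)) {ζ : ℕ × ℤ}
    (hζ : inN d s0 ζ) :
    (∀ i : Fin 9, (i = 1 ∨ i = 2 ∨ i = 3) → ∀ x ∈ I9 M σ kL kR i,
      pl (lmD9 d r mcf mxf s0 s ζ i) x ≤ pl (hLK9 d r s0 s ζ) x)
    ∧ (∀ i : Fin 9, (i = 5 ∨ i = 6 ∨ i = 7) → ∀ x ∈ I9 M σ kL kR i,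
      pl (lmD9 d r mcf mxf s0 s ζ i) x ≤ pl (hRK9 d r s0 s ζ) x) := by
  have h := (hn _ (Nat.zero_le _) (inN_lt hζ)).toNdB9
  have eR : hRK9 d r s0 s ζ = fun m => s * hRz (cn9 r.c.n) (d.P + s0) (ph9 (pn9 d r s0 ζ).h)
      r.mid m := by
    funext m
    unfold hRK9
    rw [if_pos hζ]
  have eL : hLK9 d r s0 s ζ = fun m => s * hLz (cn9 r.c.n) (d.P + s0) (ph9 (pn9 d r s0 ζ).h)
      r.mid m := by
    funext m
    unfold hLK9
    rw [if_pos hζ]
  obtain ⟨k1, k2⟩ := dom9_of_chk (ex := mxf (vN' d s0 ζ)) hg.c hk h.dm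
    (lam := fun i => dz r.c.n (d.P + s0) 0 0 (fun y =>
      ((zp9 r.c (pn9 d r s0 ζ).q i y : ℕ) : ℝ) + dg (mxf (vN' d s0 ζ)) y
        + dg (mcf (vN' d s0 ζ)) i))
    (fun i y hy => le_of_eq (dz_in (by ring) hy))
    (hl := hLz (cn9 r.c.n) (d.P + s0) (ph9 (pn9 d r s0 ζ).h) r.mid)
    (hr := hRz (cn9 r.c.n) (d.P + s0) (ph9 (pn9 d r s0 ζ).h) r.mid)
    (fun y hy => by
      by_cases hy' : y ≤ r.c.n
      · unfold hLz
        rw [dz_in (n := (cn9 r.c.n).n) (y := y) (by ring) hy', if_neg (not_lt.2 hy)]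
        exact le_rfl
      · exfalso
        have hm : r.mid + 1 ≤ r.c.a3 := by
          have k := h.dm
          unfold chkDom9 at k
          simp only [Bool.and_eq_true] at k
          obtain ⟨-, -, -, m2, -⟩ := k
          exact Nat.le_of_ble_eq_true m2
        have := hg.c.o3
        have := hg.c.o4
        have := hg.c.o5
        omega)
    (fun y hy hy' => by
      unfold hRz
      rw [dz_in (n := (cn9 r.c.n).n) (y := y) (by ring) hy', if_pos hy]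
      exact le_rfl)
  rw [eR, eL]
  unfold lmD9
  refine ⟨fun i hi x hx => ?_, fun i hi x hx => ?_⟩ <;> rw [KC.pl_smul', KC.pl_smul'] <;>
    refine mul_le_mul_of_nonneg_left ?_ hs
  · exact k1 i hi x hx
  · exact k2 i hi x hx

/-! ### Bounds -/

lemma gK9_bd (hn : NdsOK9 d r exf mcf mxf 0 (vR d.segs)) (hs : 0 ≤ s) (i : Fin 3) (ζ : ℕ × ℤ)
    (e : Bool) (m : ℤ) : 0 ≤ gK9 d r s0 s i ζ e m ∧ gK9 d r s0 s i ζ e m ≤ s * 2 ^ 36 := by
  unfold gK9
  split_ifs with hζ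
  · have h := (hn _ (Nat.zero_le _) (inN_lt hζ)).toNdB9
    have h0 : 0 ≤ gZI r.c (d.P + s0) (pn9 d r s0 ζ).q i m :=
      dz_ge le_rfl le_rfl (fun y => Nat.cast_nonneg _) m
    have h1 : gZI r.c (d.P + s0) (pn9 d r s0 ζ).q i m ≤ 2 ^ 36 :=
      dz_le (by positivity) (by positivity) (fun y => by
        have := zdI_lt h.sz i y
        exact_mod_cast this) m
    exact ⟨mul_nonneg hs h0, mul_le_mul_of_nonneg_left h1 hs⟩
  · exact ⟨le_rfl, by positivity⟩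

lemma hRK9_bd (hn : NdsOK9 d r exf mcf mxf 0 (vR d.segs)) (hs : 0 ≤ s) (ζ : ℕ × ℤ) (m : ℤ) :
    0 ≤ hRK9 d r s0 s ζ m ∧ hRK9 d r s0 s ζ m ≤ s * 2 ^ 36 := by
  unfold hRK9
  split_ifs with hζ
  · have h := (hn _ (Nat.zero_le _) (inN_lt hζ)).toNdB9
    have hq : ∀ y, (dg (ph9 (pn9 d r s0 ζ).h).h y : ℝ) ≤ 2 ^ 36 := fun y => by
      have := (chkSz9_imp h.sz).2.2.2.2.1 y
      exact_mod_cast this.le
    have h0 : 0 ≤ hRz (cn9 r.c.n) (d.P + s0) (ph9 (pn9 d r s0 ζ).h) r.mid m :=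
      dz_ge le_rfl le_rfl (fun y => by split_ifs; exacts [Nat.cast_nonneg _, le_rfl]) m
    have h1 : hRz (cn9 r.c.n) (d.P + s0) (ph9 (pn9 d r s0 ζ).h) r.mid m ≤ 2 ^ 36 :=
      dz_le (by positivity) (by positivity) (fun y => by
        split_ifs
        · exact hq y
        · positivity) m
    exact ⟨mul_nonneg hs h0, mul_le_mul_of_nonneg_left h1 hs⟩
  · exact ⟨le_rfl, by positivity⟩

lemma hLK9_bd (hn : NdsOK9 d r exf mcf mxf 0 (vR d.segs)) (hs : 0 ≤ s) (ζ : ℕ × ℤ) (m : ℤ) :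
    0 ≤ hLK9 d r s0 s ζ m ∧ hLK9 d r s0 s ζ m ≤ s * 2 ^ 36 := by
  unfold hLK9
  split_ifs with hζ
  · have h := (hn _ (Nat.zero_le _) (inN_lt hζ)).toNdB9
    have hq : ∀ y, (dg (ph9 (pn9 d r s0 ζ).h).h y : ℝ) ≤ 2 ^ 36 := fun y => by
      have := (chkSz9_imp h.sz).2.2.2.2.1 y
      exact_mod_cast this.le
    have h0 : 0 ≤ hLz (cn9 r.c.n) (d.P + s0) (ph9 (pn9 d r s0 ζ).h) r.mid m :=
      dz_ge le_rfl le_rfl (fun y => by split_ifs; exacts [le_rfl, Nat.cast_nonneg _]) m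
    have h1 : hLz (cn9 r.c.n) (d.P + s0) (ph9 (pn9 d r s0 ζ).h) r.mid m ≤ 2 ^ 36 :=
      dz_le (by positivity) (by positivity) (fun y => by
        split_ifs
        · positivity
        · exact hq y) m
    exact ⟨mul_nonneg hs h0, mul_le_mul_of_nonneg_left h1 hs⟩
  · exact ⟨le_rfl, by positivity⟩

lemma LmK9_bd (hn : NdsOK9 d r exf mcf mxf 0 (vR d.segs)) (hs : 0 ≤ s) (ζ : ℕ × ℤ) (m : ℤ) :
    |LmK9 d r s0 s ζ m| ≤ s * 2 ^ 37 := by
  unfold LmK9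
  split_ifs with hζ
  · have h := (hn _ (Nat.zero_le _) (inN_lt hζ)).toNdB9
    obtain ⟨hm1, hm2, -, -⟩ := chkMd_imp h.md
    have hd' : (0:ℝ) < r.den := by exact_mod_cast hm2
    have hd0 : 0 ≤ (r.num:ℝ) / r.den := by positivity
    have hd1 : (r.num:ℝ) / r.den ≤ 1 := by
      rw [div_le_one hd']
      exact_mod_cast hm1
    have k := avN_bd hd0 hd1 (f := hAz (cn9 r.c.n) (d.P + s0) (ph9 (pn9 d r s0 ζ).h))
      (B := 2 ^ 36)
      (dz_ge le_rfl le_rfl fun y => Nat.cast_nonneg _)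
      (dz_le (by positivity) (by positivity) fun y => by
        have := (chkSz9_imp h.sz).2.2.2.2.1 y
        exact_mod_cast this.le) m
    rw [abs_of_nonneg (mul_nonneg hs k.1)]
    refine mul_le_mul_of_nonneg_left (k.2.trans (le_of_eq ?_)) hs
    norm_num
  · rw [abs_zero]
    positivity

lemma LK9_bd (hs : 0 ≤ s)
    (hoe : ∀ z < vR d.segs, (nth16 pnD r.pr z).oe ≤ 2 ^ 37) (ζ : ℕ × ℤ) (a b : ℕ) (m : ℤ) :
    |LK9 d r exf s0 s ζ a b m| ≤ s * 2 ^ 40 := by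
  unfold LK9
  split_ifs with hζ
  · have ho := hoe _ (inN_lt hζ)
    have ho' : ((pn9 d r s0 ζ).oe : ℝ) ≤ 2 ^ 37 := by exact_mod_cast ho
    have ho0 : (0:ℝ) ≤ (pn9 d r s0 ζ).oe := Nat.cast_nonneg _
    set T := ltab9 r.c (gtab r.c (pn9 d r s0 ζ).q)
      (exw r.c (exf (vN' d s0 ζ) (plE d.segs a b).k1 0) (exf (vN' d s0 ζ) (plE d.segs a b).k1 2)
        (exf (vN' d s0 ζ) (plE d.segs a b).k1 4)) (en9 d r s0 ζ a b) with hT
    set X := LN r.c.n (d.P + s0) T m with hX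
    have h0 : 0 ≤ X := dz_ge (by positivity) (by positivity) (fun y => Nat.cast_nonneg _) m
    have h1 : X ≤ 2 ^ 40 := dz_le (by norm_num) (by norm_num) (fun y => by
      have := dg_lt T y
      exact_mod_cast this.le) m
    rw [abs_mul, abs_of_nonneg hs]
    refine mul_le_mul_of_nonneg_left ?_ hs
    rw [abs_le]
    constructor
    · have : (2:ℝ) ^ 37 ≤ 2 ^ 40 := by norm_num
      linarith
    · linarith
  · rw [abs_zero]
    positivity

/-- the end point part of the node table -/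
lemma WK9_eq (hg : GlOK9 d r) (hG : ∀ sg ∈ d.segs, ∀ c ∈ sg.cb, c.g = []) {ζ : ℕ × ℤ}
    (hζ : inN d s0 ζ) (a b : ℕ) {m : ℤ} (h1 : 0 ≤ m + d.P + s0) (h2 : m + d.P + s0 ≤ 3 * d.P) :
    WK9 d r s0 s ζ a b m
      = s * (tvE d s0 ζ (plE d.segs a b).k1 m - (pn9 d r s0 ζ).oe) := by
  unfold WK9 WN
  rw [if_pos hζ, tvE_own hζ _ hG]
  obtain ⟨y, hy⟩ : ∃ y : ℕ, m + d.P + s0 = y := ⟨(m + d.P + s0).toNat, by omega⟩
  rw [dz_in (y := y) (by rw [← hy]; ring) (by rw [hg.n]; omega), hy, Int.toNat_natCast]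

/-- the midpoint part of the node table -/
lemma WmK9_eq (hG : ∀ sg ∈ d.segs, ∀ c ∈ sg.cb, c.g = []) {ζ : ℕ × ℤ} (hζ : inN d s0 ζ) {m : ℤ}
    (h1 : 0 ≤ m + 2 * s0) (h2 : m + 2 * s0 ≤ 2 * d.P) :
    WmK9 d r s0 s ζ m = s * tvM d s0 ζ r.km m := by
  unfold WmK9 WMz tvM arrR tabR wR
  rw [if_pos hζ]
  have hz := inN_lt hζ
  have e : (nth ⟨0, []⟩ (sgR d.segs (vN' d s0 ζ)).cb r.km).g = [] := by
    rcases nth_mem (⟨0, []⟩ : Cb) (sgR d.segs (vN' d s0 ζ)).cb r.km with h3 | h3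
    · exact hG _ (sgR_eq d.segs hz).2.2.1 _ h3
    · rw [h3]
  obtain ⟨y, hy⟩ : ∃ y : ℕ, m + 2 * s0 = y := ⟨(m + 2 * s0).toNat, by omega⟩
  rw [dz_in (y := y) hy (by omega), hy, Int.toNat_natCast, e]
  have e2 : sumL (fun g : G3 => shf (nth 0 d.G g.ix) (g3s d.P (psR d.segs (vN' d s0 ζ)) g)) [] = 0 :=
    rfl
  rw [e2]
  show s * (dg _ y : ℝ) = s * (dg (_ + 0) y : ℝ)
  rw [Nat.add_zero]

end fam

end MP61673a.Row9
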