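import Pool.Agent.Mu673.RowInC
import Pool.Agent.Mu673.Row9
import Pool.Agent.Mu673.GZ

/-!
THE RECORD OF AN IN CELL (helper40).
-/

set_option autoImplicit false

namespace MP61673a.RowI9

open Finset MP61673a.W MP61673a.Kink MP61673a.Bary MP61673a.Sos MP61673a.Fin MP61673a.FE MP61673a.KC MP61673a.RowI MP61673a.Row9

noncomputable section

/-- the data of an IN cell: nodes, tables and squares `d`, prices and end data `r`, class descriptors
`cs` with window copies `iw` (`1` inside, `2` outside), cell `p`, families `fs`, crude families `gs`,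
scale `U`, position `s0` of the coordinate `0`, packed price weights `w`; in units `1 / (2 ko)` the
zone constants `kz` (per class of the sampler, entry `9 k + i`: end table `k`, zone `i`); per class
packed windows `mc` (digits `1`, `7`: static) and `mx` (moving), units `1 / U`; in units `1 / ko` per
class the static (`s1` left, `s2` right) and moving (`m1` right, `m2` left) weights of the additional
prices and the weights `a1`, `a2` of the mixture; packed window lengths `xw` per node, units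
`1 / (2 U)` per `D` -/
structure RI where
  /-- nodes, tables, squares -/
  d : DatR
  /-- prices and end data -/
  r : RC9
  /-- classes -/
  cs : List Cl
  /-- window copies -/
  iw : List ℕ
  /-- cell -/
  p : CellPar
  /-- families -/
  fs : List Zf
  /-- crude families -/
  gs : List Zc
  /-- scale -/
  U : ℕ
  /-- position of the coordinate `0` -/
  s0 : ℕ
  /-- price weights -/
  w : List ℕ
  /-- denominator of the class weights -/
  ko : ℕ
  /-- zone constants -/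
  kz : List (List ℤ)
  /-- packed static windows -/
  mc : List ℕ
  /-- packed moving windows -/
  mx : List ℕ
  /-- static windows at the left end -/
  s1 : List ℤ
  /-- static windows at the right end -/
  s2 : List ℤ
  /-- moving windows at the right end -/
  m1 : List ℤ
  /-- moving windows at the left end -/
  m2 : List ℤ
  /-- mixture, first kernel -/
  a1 : List ℤ
  /-- mixture, second kernel -/
  a2 : List ℤ
  /-- packed window lengths -/
  xw : ℕ

namespace RI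

variable (A : RI)

/-- scale -/
def s : ℝ := 1 / (A.U : ℝ)

/-- class weights -/
def wr (l : List ℤ) (c : ℕ) : ℝ := ((nth 0 l c : ℤ) : ℝ) / A.ko

/-- constant of the end table `k` in the zone `i` for the sampler class `c`, units `1 / (2 ko)` -/
def kzN (c k i : ℕ) : ℤ := nth 0 (nth [] A.kz c) (9 * k + i)

/-- zone constants -/
def kzT (c a b : Fin A.cs.length) (i : Fin 9) : ℝ :=
  (A.kzN c (plE A.d.segs a b).k1 i : ℝ) / (2 * A.ko)

/-- families -/
def lamT (ζ : Fin A.cs.length × ℤ) (a b : Fin A.cs.length) (i : Fin 9) (m : ℤ) : ℝ :=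
  lamZ A.d A.s0 A.s A.fs A.gs ((ζ.1 : ℕ), ζ.2) a b (z95 i : Fin 5) m

/-- extra costs -/
def exf (z k i : ℕ) : ℕ := exZ A.d A.fs A.gs z k i

/-- static windows of the node `z` -/
def mcf (z : ℕ) : ℕ := nth 0 A.mc (ixR A.d.segs z)

/-- moving windows of the node `z` -/
def mxf (z : ℕ) : ℕ := nth 0 A.mx (ixR A.d.segs z)

/-- zone price digit -/
def zdn (c : CutI) (q : Prn) (i y : ℕ) : ℕ :=
  if i = 0 then (if c.a0 ≤ y ∧ y ≤ c.a1 + 1 then dg q.p0 (y - c.a0) else 0)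
  else if i = 1 then (if c.a1 ≤ y ∧ y ≤ c.a2 + 1 then dg q.p1 (y - c.a1)
    else if c.a3 ≤ y ∧ y ≤ c.a4 + 1 then dg q.p2 (y - c.a3) else 0)
  else (if c.a4 ≤ y ∧ y ≤ c.a5 + 1 then dg q.p3 (y - c.a4) else 0)

lemma zdn_eq (c : CutI) (q : Prn) (i : Fin 3) (y : ℕ) : zdn c q i y = zdI c q.q i y := by
  unfold zdn zdI
  fin_cases i <;> simp [Prn.q]

/-- distance of the first label node of the price sums -/
def off : ℕ := A.d.P + A.s0 - (A.p.M + 2)

/-- prices of the node `v` in the order of the price sums -/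
def gN (v i j : ℕ) : ℕ := zdn A.r.c (nth16 pnD A.r.pr v) i (j + A.off)

/-- price weights -/
def wN (i j : ℕ) : ℕ := dg (nth 0 A.w i) j

/-- one body constant of the node `v` (units `1 / (2 U)`) -/
def aN (v : ℕ) : ℕ := Nat.sub (dg A.d.an v) (Nat.add (dg A.d.ap v)
  (Nat.mul 2 (nth16 pnD A.r.pr v).oe))

/-- window length of the node `v` (units `1 / (2 U)`), negative -/
def xN (v : ℕ) : ℤ := -((dg A.xw v : ℕ) : ℤ)

/-- class weights in `[0, 64 ko]` -/
def chkWt (l : List ℤ) : Bool := allL l (fun x => decide (0 ≤ x) && decide (x ≤ 64 * A.ko))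

/-- THE GLOBAL CHECK -/
def chkG : Bool :=
  chkGl9 A.d A.r && csChkB A.p.M A.p.s2 A.p.q A.s0 A.d.segs A.cs
  && covChkI A.p.q A.p.m A.p.a A.p.b A.cs A.iw
  && wChk A.p.M A.p.s2.toNat A.wN && chkZ A.d.P A.fs A.gs
  && decide (0 < A.p.M) && decide (0 < A.p.q) && decide (0 < A.p.m) && decide (0 < A.p.kd)
  && decide (0 ≤ A.p.kn) && decide (0 ≤ A.p.s2) && decide (A.p.s2 ≤ 2)
  && decide (1 * A.p.kd ≤ 250 * A.p.kn) && decide (0 < A.U) && decide (0 < A.ko)
  && decide (A.p.M + 2 ≤ A.d.P + A.s0) && decide (2 * A.p.M + 2 + A.s0 ≤ 2 * A.d.P)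
  && chkCut A.p.M A.p.s2 (A.d.P + A.s0) A.r.c
  && decide (A.r.c.t0 < A.r.c.td) && decide (0 < A.r.c.t5)
  && decide (A.p.M * A.r.den ≤ 80 * A.r.num)
  && allL A.d.segs (fun sg => allL sg.cb (fun c => Nat.beq (sumL (fun _ => 1) c.g) 0))
  && allN A.cs.length (fun i => allN A.cs.length (fun j =>
      Nat.beq (plE A.d.segs i j).km A.r.km))
  && Nat.beq A.d.Bd 0
  && decide (A.U ≤ 268435456)
  && allL A.kz (fun l => allL l (fun x => decide (|x| ≤ 64 * A.ko)))
  && (A.chkWt A.s1 && (A.chkWt A.s2 && (A.chkWt A.m1 && (A.chkWt A.m2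
    && (A.chkWt A.a1 && A.chkWt A.a2)))))

/-- the global conditions -/
structure GOK : Prop where
  gl : GlOK9 A.d A.r
  cs : CsB A.p.M A.p.s2 A.p.q A.s0 A.d.segs A.cs
  cov : CovI A.p.q A.p.m A.p.a A.p.b A.cs A.iw
  wc : wChk A.p.M A.p.s2.toNat A.wN = true
  z : ZOK A.d.P A.fs A.gs
  pos : A.p.Pos
  U : 0 < A.U
  ko : 0 < A.ko
  o1 : A.p.M + 2 ≤ A.d.P + A.s0
  o2 : 2 * A.p.M + 2 + A.s0 ≤ 2 * A.d.P
  cut : chkCut A.p.M A.p.s2 (A.d.P + A.s0) A.r.c = true
  t0 : A.r.c.t0 < A.r.c.td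
  t5 : 0 < A.r.c.t5
  fz : A.p.M * A.r.den ≤ 80 * A.r.num
  G : ∀ sg ∈ A.d.segs, ∀ c ∈ sg.cb, c.g = []
  km : ∀ i < A.cs.length, ∀ j < A.cs.length, (plE A.d.segs i j).km = A.r.km
  Bd : A.d.Bd = 0
  U2 : A.U ≤ 268435456
  kz : ∀ c k i, |A.kzN c k i| ≤ 64 * A.ko
  wt : ∀ l ∈ [A.s1, A.s2, A.m1, A.m2, A.a1, A.a2], ∀ c, 0 ≤ nth 0 l c ∧ nth 0 l c ≤ 64 * A.ko

lemma chkWt_imp {A : RI} {l : List ℤ} (h : A.chkWt l = true) (c : ℕ) :
    0 ≤ nth 0 l c ∧ nth 0 l c ≤ 64 * A.ko := by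
  rcases nth_mem (0:ℤ) l c with h1 | h1
  · have := (allL_iff _ _).1 h _ h1
    simp only [Bool.and_eq_true, decide_eq_true_eq] at this
    exact this
  · rw [h1]
    constructor
    · exact le_rfl
    · positivity

lemma chkG_imp {A : RI} (h : A.chkG = true) : A.GOK := by
  unfold chkG at h
  simp only [Bool.and_eq_true, decide_eq_true_eq] at h
  obtain ⟨⟨⟨⟨⟨⟨⟨⟨⟨⟨⟨⟨⟨⟨⟨⟨⟨⟨⟨⟨⟨⟨⟨⟨⟨⟨h1, h2⟩, h3⟩, h4⟩, h5⟩, h6⟩, h7⟩, h8⟩, h9⟩, h10⟩, h11⟩, h12⟩, h13⟩,
    h14⟩, h15⟩, h16⟩, h17⟩, h18⟩, h19⟩, h20⟩, h21⟩, h22⟩, h23⟩, h24⟩, h25⟩, h26⟩,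
    ⟨k1, k2, k3, k4, k5, k6⟩⟩ := h
  refine ⟨chkGl9_imp h1, csChkB_sound h2, covChkI_imp h3, h4, ZOK.of_check h5,
    ⟨h6, h7, h8, h9, h10, h11, h12, h13⟩, h14,
    h15, h16, h17, h18, h19, h20, h21, fun sg hs c hc => ?_, fun i hi j hj => ?_,
    Nat.eq_of_beq_eq_true h24, h25, fun c k i => ?_, fun l hl c => ?_⟩
  · have k := Nat.eq_of_beq_eq_true ((allL_iff _ _).1 ((allL_iff _ _).1 h22 _ hs) _ hc)
    rw [sumL_one] at k
    exact List.length_eq_zero_iff.1 k
  · exact Nat.eq_of_beq_eq_true ((allN_iff _ _).1 ((allN_iff _ _).1 h23 i hi) j hj)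
  · have hz : |(0:ℤ)| ≤ 64 * A.ko := by
      rw [abs_zero]
      positivity
    unfold kzN
    rcases nth_mem (0:ℤ) (nth [] A.kz c) (9 * k + i) with h1 | h1
    · rcases nth_mem ([] : List ℤ) A.kz c with h2 | h2
      · exact of_decide_eq_true ((allL_iff _ _).1 ((allL_iff _ _).1 h26 _ h2) _ h1)
      · rw [h2] at h1
        exact absurd h1 (by simp)
    · rw [h1]
      exact hz
  · simp only [List.mem_cons, List.not_mem_nil, or_false] at hl
    rcases hl with rfl | rfl | rfl | rfl | rfl | rfl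
    · exact chkWt_imp k1 c
    · exact chkWt_imp k2 c
    · exact chkWt_imp k3 c
    · exact chkWt_imp k4 c
    · exact chkWt_imp k5 c
    · exact chkWt_imp k6 c

lemma s_nonneg (A : RI) : 0 ≤ A.s := by
  unfold s
  positivity

section
variable {A : RI}

lemma GOK.U_pos (g : A.GOK) : (0:ℝ) < A.U := by exact_mod_cast g.U

lemma GOK.ko_pos (g : A.GOK) : (0:ℝ) < A.ko := by exact_mod_cast g.ko

/-- class weights -/
lemma GOK.wr_bd (g : A.GOK) {l : List ℤ} (hl : l ∈ [A.s1, A.s2, A.m1, A.m2, A.a1, A.a2]) (c : ℕ) :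
    0 ≤ A.wr l c ∧ A.wr l c ≤ 64 := by
  obtain ⟨h1, h2⟩ := g.wt l hl c
  have hk := g.ko_pos
  have h1' : (0:ℝ) ≤ (nth 0 l c : ℤ) := by exact_mod_cast h1
  have h2' : ((nth 0 l c : ℤ) : ℝ) ≤ 64 * A.ko := by exact_mod_cast h2
  unfold wr
  exact ⟨div_nonneg h1' hk.le, (div_le_iff₀ hk).2 h2'⟩

lemma GOK.kzT_bd (g : A.GOK) (c a b : Fin A.cs.length) (i : Fin 9) : |A.kzT c a b i| ≤ 32 := by
  have h := g.kz c (plE A.d.segs a b).k1 i
  have hk := g.ko_pos
  have h' : |(A.kzN c (plE A.d.segs a b).k1 i : ℝ)| ≤ 64 * A.ko := by exact_mod_cast h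
  unfold kzT
  rw [abs_div, abs_of_pos (by positivity : (0:ℝ) < 2 * A.ko), div_le_iff₀ (by positivity)]
  linarith

end

end RI

end

end MP61673a.RowI9
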