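import Pool.Agent.Mu673.FF3a
import Pool.Agent.Mu673.FF3
import Pool.Agent.Mu673.RIdef

/-!
THE THREE-BODY PART OF AN IN CELL FROM THE RECORD, DATA (helper56): zone constants of the mixed form in
integers by pair codes, the weights `NW` of the costs and gains.
-/

set_option autoImplicit false

namespace MP61673a.FE

open Finset MP61673a.W MP61673a.Kink MP61673a.Bary MP61673a.Sos MP61673a.Fin MP61673a.KC MP61673a.CkI

/-! ### Integer constants of a pair code -/

/-- code of a pair: poles of the single and of the doubled point, flags of the doubled point.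
`0` nothing, `1` / `2` pair of `P` / `Q` inside, `3` `(Q, P)`, `4` `(P, Q)`, `5` / `6` like `1` / `2`
without flags -/
def cdI (cy cz vi vo : Bool) : ℕ :=
  if cy then (if cz then (if vi then 2 else if vo then 0 else 6) else 3)
  else (if cz then 4 else (if vi then 1 else if vo then 0 else 5))

/-- coefficients of a class of the sampler, units `1 / (2 ko)` -/
structure CJ where
  /-- `kNP` -/
  a : ℤ
  /-- `kNQ` -/
  b : ℤ
  /-- `kQP` -/
  e : ℤ
  /-- `kPQ` -/
  g : ℤ
  /-- left static window -/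
  s1 : ℤ
  /-- right static window -/
  s2 : ℤ
  /-- exchanged kernel -/
  a1 : ℤ
  /-- exchanged kernel -/
  a2 : ℤ
  /-- beyond `2 D` -/
  e1 : ℤ
  /-- below `-D` -/
  e2 : ℤ
  /-- moving window -/
  m1 : ℤ
  /-- moving window -/
  m2 : ℤ
  /-- costs of the remaining weight, units `1 / 2` -/
  k1 : ℤ
  /-- costs of the remaining weight, units `1 / 2` -/
  k2 : ℤ
deriving DecidableEq, Inhabited

/-- code of a pair with the remaining weights of the doubled class, units `1 / ko` -/
structure PJ where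
  /-- code -/
  k : ℕ
  /-- remaining weight -/
  u1 : ℤ
  /-- remaining weight -/
  u2 : ℤ
deriving DecidableEq, Inhabited

/-- zone constants, units `1 / (2 ko)` -/
def kzC (t : CJ) (p : PJ) (i : ℕ) : ℤ :=
  (if p.k = 1 ∧ i ≤ 1 then t.a else 0) + (if p.k = 5 ∧ i ≤ 1 then max t.a 0 else 0)
    + (if p.k = 2 ∧ 7 ≤ i then t.b else 0) + (if p.k = 6 ∧ 7 ≤ i then max t.b 0 else 0)
    + (if p.k = 3 ∧ 3 ≤ i then t.e else 0) + (if p.k = 4 ∧ i ≤ 5 then t.g else 0)
    + (if i = 1 then t.s1 else 0) + (if i = 7 then t.s2 else 0)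
    + (if p.k = 4 ∧ i ≤ 7 then t.a1 else 0) + (if p.k = 3 ∧ 1 ≤ i then t.a2 else 0)
    + (if p.k = 4 ∧ i = 8 then t.e1 else 0) + (if p.k = 3 ∧ i = 0 then t.e2 else 0)
    - (if (p.k ≠ 3 ∧ p.k ≠ 4) ∧ i = 8 then t.m1 else 0)
    - (if (p.k ≠ 3 ∧ p.k ≠ 4) ∧ i = 0 then t.m2 else 0)
    + (if i ≤ 1 then t.k1 * p.u1 else 0) + (if i ≤ 2 then t.k2 * p.u2 else 0)

noncomputable section

lemma iteJ (p : Prop) [Decidable p] (a : ℤ) (u : ℝ) :
    (if p then (a:ℝ) / u else 0) = ((if p then a else 0 : ℤ) : ℝ) / u := by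
  split_ifs
  · rfl
  · simp

lemma effJ {u : ℝ} (hu : 0 < u) (vi vo : Bool) (a : ℤ) :
    effc vi vo ((a:ℝ) / u) = ((if vi then a else if vo then 0 else max a 0 : ℤ) : ℝ) / u := by
  unfold effc
  cases vi
  · cases vo
    · simp only [Bool.false_eq_true, if_false]
      rw [Int.cast_max, Int.cast_zero, ← max_div_div_right hu.le (a:ℝ) 0, zero_div]
    · simp
  · simp

/-- THE ZONE CONSTANTS IN INTEGERS -/
theorem kzC_eq {u : ℝ} (hu : 0 < u) (cy cz vi vo : Bool) (t : CJ) (u1 u2 : ℤ) (i : Fin 9) :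
    kzF cy cz vi vo (t.a / u) (t.b / u) (t.e / u) (t.g / u) (t.s1 / u) (t.s2 / u) (t.a1 / u)
        (t.a2 / u) (t.e1 / u) (t.e2 / u) (t.m1 / u) (t.m2 / u) (((t.k1 * u1 : ℤ) : ℝ) / u)
        (((t.k2 * u2 : ℤ) : ℝ) / u) i
      = (kzC t ⟨cdI cy cz vi vo, u1, u2⟩ i : ℝ) / u := by
  unfold kzF kzC
  rw [effJ hu, effJ hu]
  simp only [iteJ]
  cases cy <;> cases cz <;> cases vi <;> cases vo <;> fin_cases i <;> simp [cdI] <;> ring
  
end

/-! ### The weights of the record -/

/-- inside flag of the doubled point -/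
def vIc (q : ℤ) (c : Cl) : Bool := decide (c.bt = false ∧ -q ≤ 8 * c.na)

/-- outside flag -/
def vOc (q : ℤ) (c : Cl) : Bool := decide (8 * c.nb ≤ -q)

end MP61673a.FE

namespace MP61673a.RowI9

open Finset MP61673a.W MP61673a.Kink MP61673a.Bary MP61673a.Sos MP61673a.Fin MP61673a.FE MP61673a.KC
open MP61673a.RowI MP61673a.Row9 MP61673a.CkI

/-- the weights of the three-body part, per class, `0` on the classes of `P`: moving weights of the
costs `F2`, `M0`, `M1` (units `1 / (2 ko)`), moving and constant weights of `K1`, `K2` (`0` or `1`),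
gains (units `1 / ko`); kinds of the families; codes of the end tables, coefficients of the classes -/
structure NW where
  /-- moving weight of `F2` -/
  v2 : List ℤ
  /-- moving weight of `M0` -/
  v0 : List ℤ
  /-- moving weight of `M1` -/
  v1 : List ℤ
  /-- moving weight of `K1` -/
  vk1 : List ℤ
  /-- moving weight of `K2` -/
  vk2 : List ℤ
  /-- constant weight of `K1` -/
  ck1 : List ℤ
  /-- constant weight of `K2` -/
  ck2 : List ℤ
  /-- gains of the first kernel in the window -/
  h1 : List ℤ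
  /-- gains of the first kernel beyond -/
  h0 : List ℤ
  /-- gains of the second kernel in the window -/
  h2 : List ℤ
  /-- gains of the second kernel beyond -/
  h3 : List ℤ
  /-- own gain on the pairs `(Q, P)` -/
  vO : List ℤ
  /-- own gain on the pairs `(P, Q)` -/
  vA : List ℤ
  /-- kinds of the families -/
  ks : List ℕ
  /-- kinds of the crude families -/
  ls : List ℕ
  /-- codes of the pairs of an end table -/
  tb : List (List PJ)
  /-- coefficients of the classes -/
  co : List CJ

noncomputable section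

/-- class weight in units `1 / (2 ko)` -/
def RI.w2 (A : RI) (l : List ℤ) (c : ℕ) : ℝ := ((nth 0 l c : ℤ) : ℝ) / (2 * A.ko)

/-- class weight in units `1` -/
def wI (l : List ℤ) (c : ℕ) : ℝ := ((nth 0 l c : ℤ) : ℝ)

end

end MP61673a.RowI9
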