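import Pool.Agent.Mu673.FF1
import Pool.Agent.Mu673.GZ

/-!
THE FAMILIES OF AN IN CELL, MIXED FORM, FROM THE DATA (helper10). Kinds of the families: `0`, `1`
moving windows of a sampler of `P`; `2` exotic labels, `3`, `4` midpoints, `5` doubled point (form
`2 x + l`), gains `6`, `7`, `8`; crude `9` doubled point (form `x + 2 l`), gains `10`, `11`, `12`.
-/

set_option autoImplicit false

namespace MP61673a.KC

open Finset MP61673a.Kink MP61673a.Bary MP61673a.Sos MP61673a.Fin MP61673a.FE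

/-! ### Linear forms in node units -/

section lin

variable {M : ℕ} {σ : ℝ} {D : ℤ}

lemma yc_lin (p q u l : ℤ) : (q:ℝ) * yc M σ D l + (p:ℝ) * yc M σ D u
    = M * ((p:ℝ) * u + q * l) / D - (p + q) * σ := by
  unfold yc
  ring

lemma lin_le (hD : 0 < D) {p q u l : ℤ} {r : ℝ} (h : (p:ℝ) * u + q * l ≤ r * D + 50) :
    (q:ℝ) * yc M σ D l + (p:ℝ) * yc M σ D u ≤ M * r - (p + q) * σ + 50 * M / D := by
  have hD0 : (0:ℝ) < D := by exact_mod_cast hD
  rw [yc_lin]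
  have k := div_le_div_of_nonneg_right
    (mul_le_mul_of_nonneg_left h (Nat.cast_nonneg (α := ℝ) M)) hD0.le
  have e : (M:ℝ) * (r * D + 50) / D = M * r + 50 * M / D := by
    field_simp
  rw [e] at k
  linarith

lemma lin_ge (hD : 0 < D) {p q u l : ℤ} {r : ℝ} (h : r * D - 50 ≤ (p:ℝ) * u + q * l) :
    M * r - (p + q) * σ - 50 * M / D ≤ (q:ℝ) * yc M σ D l + (p:ℝ) * yc M σ D u := by
  have hD0 : (0:ℝ) < D := by exact_mod_cast hD
  rw [yc_lin]
  have k := div_le_div_of_nonneg_right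
    (mul_le_mul_of_nonneg_left h (Nat.cast_nonneg (α := ℝ) M)) hD0.le
  have e : (M:ℝ) * (r * D - 50) / D = M * r - 50 * M / D := by
    field_simp
  rw [e] at k
  linarith

end lin

/-! ### Thresholds of the kinds -/

/-- numerator of the threshold of a kind, over `40 m` -/
def limI (m a b : ℤ) (t : ℕ) : ℤ :=
  if t = 0 then -(59 * m + 160 * b)
  else if t = 1 then -(19 * m + 80 * b)
  else if t = 2 then 19 * m + 80 * b
  else if t = 3 then 40 * b - 61 * m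
  else if t = 4 then 40 * b - 60 * m
  else if t = 5 ∨ t = 6 then 59 * m + 160 * b
  else if t = 7 ∨ t = 8 then 59 * m + 160 * a
  else if t = 11 then 19 * m + 80 * a
  else 19 * m + 80 * b

/-- number of shifts in the threshold of a kind -/
def shI (t : ℕ) : ℤ := if t < 2 then -3 else if t = 3 ∨ t = 4 then 0 else 3

/-- place of the zero of the table of a family -/
def zeroI (P s0 : ℕ) (f : Gf) : ℤ :=
  if f.rf = 0 then offG P s0 (gfG f) else lenG P (gfG f) - offG P s0 (gfG f)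

/-- threshold of the kind, cleared -/
def tlI (M m a b s2 : ℤ) (cd t : ℕ) : ℤ := cd * (2 * M * limI m a b t - 40 * m * shI t * s2)

/-- threshold of a family, cleared -/
def trI (m : ℤ) (P s0 : ℕ) (f : Gf) : ℤ := 80 * m * (f.cN - zeroI P s0 f * f.cd)

/-- threshold of a crude family, cleared -/
def tcI (m : ℤ) (P s0 : ℕ) (f : Gc) : ℤ := 80 * m * (f.cN - (s0 + 2 * (P + s0)) * f.cd)

/-- form, kind, threshold and zones of a family -/
def kdI (M m a b s2 : ℤ) (P s0 : ℕ) (f : Zf) (t : ℕ) : Bool :=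
  decide (t < 9) && decide (1 ≤ f.g.cd)
  && (if t < 6 then decide (f.g.kd = 0) && decide (tlI M m a b s2 f.g.cd t ≤ trI m P s0 f.g)
      else decide (f.g.kd = 1) && decide (trI m P s0 f.g ≤ tlI M m a b s2 f.g.cd t))
  && (if t = 0 then decide (f.g.rf = 1 ∧ f.g.ng = 0 ∧ f.g.q = 2)
      else if t = 1 then decide (f.g.rf = 0 ∧ f.g.ng = 1 ∧ f.g.q = 4)
      else if t = 2 then decide (f.g.rf = 1 ∧ f.g.ng = 1 ∧ f.g.q = 4)
      else if t < 5 then decide (f.g.rf = 0 ∧ f.g.ng = 1 ∧ f.g.q = 1)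
      else decide (f.g.rf = 0 ∧ f.g.ng = 0 ∧ f.g.q = 2))
  && (if t < 5 then decide (nth 0 f.zk 0 ≠ 0 ∧ nth 0 f.zk 1 ≠ 0 ∧ nth 0 f.zk 2 ≠ 0
        ∧ nth 0 f.zk 3 ≠ 0 ∧ nth 0 f.zk 4 ≠ 0)
      else if t = 5 then decide (nth 0 f.zk 0 ≠ 0)
      else if t < 8 then decide (nth 0 f.zk 0 = 0)
      else true)

/-- form, kind, threshold and zones of a crude family -/
def kcI (M m a b s2 : ℤ) (P s0 : ℕ) (f : Zc) (t : ℕ) : Bool :=
  decide (9 ≤ t ∧ t < 13) && decide (1 ≤ f.g.cd) && decide (f.g.al = 1 ∧ f.g.be = 2)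
  && (if t = 9 then decide (f.g.kd = 0) && decide (tlI M m a b s2 f.g.cd t ≤ tcI m P s0 f.g)
      else if t = 12 then decide (f.g.kd = 2) && decide (tlI M m a b s2 f.g.cd t ≤ tcI m P s0 f.g)
      else decide (f.g.kd = 1) && decide (tcI m P s0 f.g ≤ tlI M m a b s2 f.g.cd t))
  && (if t = 9 then decide (nth 0 f.zk 0 ≠ 0 ∧ nth 0 f.zk 1 ≠ 0)
      else if t = 12 then decide (nth 0 f.zk 1 = 0 ∧ nth 0 f.zk 2 = 0 ∧ nth 0 f.zk 3 = 0
        ∧ nth 0 f.zk 4 = 0)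
      else decide (nth 0 f.zk 0 = 0 ∧ nth 0 f.zk 1 = 0))

/-- the facts of a family -/
structure KdI (M m a b s2 : ℤ) (P s0 : ℕ) (f : Zf) (t : ℕ) : Prop where
  t9 : t < 9
  cd : 1 ≤ f.g.cd
  kc : t < 6 → f.g.kd = 0 ∧ tlI M m a b s2 f.g.cd t ≤ trI m P s0 f.g
  kg : 6 ≤ t → f.g.kd = 1 ∧ trI m P s0 f.g ≤ tlI M m a b s2 f.g.cd t
  q0 : t = 0 → f.g.rf = 1 ∧ f.g.ng = 0 ∧ f.g.q = 2
  q1 : t = 1 → f.g.rf = 0 ∧ f.g.ng = 1 ∧ f.g.q = 4
  q2 : t = 2 → f.g.rf = 1 ∧ f.g.ng = 1 ∧ f.g.q = 4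
  q3 : (t = 3 ∨ t = 4) → f.g.rf = 0 ∧ f.g.ng = 1 ∧ f.g.q = 1
  q5 : 5 ≤ t → f.g.rf = 0 ∧ f.g.ng = 0 ∧ f.g.q = 2
  z0 : t < 5 → ∀ i : Fin 5, nth 0 f.zk i ≠ 0
  z5 : t = 5 → nth 0 f.zk 0 ≠ 0
  z6 : (t = 6 ∨ t = 7) → nth 0 f.zk 0 = 0

lemma kdI_imp {M m a b s2 : ℤ} {P s0 : ℕ} {f : Zf} {t : ℕ} (h : kdI M m a b s2 P s0 f t = true) :
    KdI M m a b s2 P s0 f t := by
  unfold kdI at h
  simp only [Bool.and_eq_true] at h
  obtain ⟨⟨⟨⟨h1, h2⟩, h3⟩, h4⟩, h5⟩ := h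
  refine ⟨of_decide_eq_true h1, of_decide_eq_true h2, fun ht => ?_, fun ht => ?_, fun ht => ?_,
    fun ht => ?_, fun ht => ?_, fun ht => ?_, fun ht => ?_, fun ht => ?_, fun ht => ?_,
    fun ht => ?_⟩
  · rw [if_pos ht] at h3
    simp only [Bool.and_eq_true, decide_eq_true_eq] at h3
    exact h3
  · rw [if_neg (by omega)] at h3
    simp only [Bool.and_eq_true, decide_eq_true_eq] at h3
    exact h3
  · rw [if_pos ht] at h4
    exact of_decide_eq_true h4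
  · rw [if_neg (by omega), if_pos ht] at h4
    exact of_decide_eq_true h4
  · rw [if_neg (by omega), if_neg (by omega), if_pos ht] at h4
    exact of_decide_eq_true h4
  · rw [if_neg (by omega), if_neg (by omega), if_neg (by omega), if_pos (by omega)] at h4
    exact of_decide_eq_true h4
  · rw [if_neg (by omega), if_neg (by omega), if_neg (by omega), if_neg (by omega)] at h4
    exact of_decide_eq_true h4
  · rw [if_pos ht] at h5
    obtain ⟨c0, c1, c2, c3, c4⟩ := of_decide_eq_true h5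
    intro i
    fin_cases i
    · exact c0
    · exact c1
    · exact c2
    · exact c3
    · exact c4
  · rw [if_neg (by omega), if_pos ht] at h5
    exact of_decide_eq_true h5
  · rw [if_neg (by omega), if_neg (by omega), if_pos (by omega)] at h5
    exact of_decide_eq_true h5

/-- the facts of a crude family -/
structure KcI (M m a b s2 : ℤ) (P s0 : ℕ) (f : Zc) (t : ℕ) : Prop where
  t9 : 9 ≤ t ∧ t < 13
  cd : 1 ≤ f.g.cd
  al : f.g.al = 1 ∧ f.g.be = 2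
  k9 : t = 9 → f.g.kd = 0 ∧ tlI M m a b s2 f.g.cd t ≤ tcI m P s0 f.g
  k12 : t = 12 → f.g.kd = 2 ∧ tlI M m a b s2 f.g.cd t ≤ tcI m P s0 f.g
  kg : (t = 10 ∨ t = 11) → f.g.kd = 1 ∧ tcI m P s0 f.g ≤ tlI M m a b s2 f.g.cd t
  z9 : t = 9 → nth 0 f.zk 0 ≠ 0 ∧ nth 0 f.zk 1 ≠ 0
  z12 : t = 12 → nth 0 f.zk 1 = 0 ∧ nth 0 f.zk 2 = 0 ∧ nth 0 f.zk 3 = 0 ∧ nth 0 f.zk 4 = 0
  zg : (t = 10 ∨ t = 11) → nth 0 f.zk 0 = 0 ∧ nth 0 f.zk 1 = 0

lemma kcI_imp {M m a b s2 : ℤ} {P s0 : ℕ} {f : Zc} {t : ℕ} (h : kcI M m a b s2 P s0 f t = true) :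
    KcI M m a b s2 P s0 f t := by
  unfold kcI at h
  simp only [Bool.and_eq_true] at h
  obtain ⟨⟨⟨⟨h1, h2⟩, h3⟩, h4⟩, h5⟩ := h
  refine ⟨of_decide_eq_true h1, of_decide_eq_true h2, of_decide_eq_true h3, fun ht => ?_,
    fun ht => ?_, fun ht => ?_, fun ht => ?_, fun ht => ?_, fun ht => ?_⟩
  · rw [if_pos ht] at h4
    simp only [Bool.and_eq_true, decide_eq_true_eq] at h4
    exact h4
  · rw [if_neg (by omega), if_pos ht] at h4
    simp only [Bool.and_eq_true, decide_eq_true_eq] at h4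
    exact h4
  · rw [if_neg (by omega), if_neg (by omega)] at h4
    simp only [Bool.and_eq_true, decide_eq_true_eq] at h4
    exact h4
  · rw [if_pos ht] at h5
    exact of_decide_eq_true h5
  · rw [if_neg (by omega), if_pos ht] at h5
    exact of_decide_eq_true h5
  · rw [if_neg (by omega), if_neg (by omega)] at h5
    exact of_decide_eq_true h5

noncomputable section

/-! ### Real thresholds -/

/-- the threshold of a kind, over `D` -/
def rI (m a b : ℤ) (t : ℕ) : ℝ := (limI m a b t : ℝ) / (40 * m)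

lemma tlI_eq {M m a b s2 : ℤ} (hm : 0 < m) (cd t : ℕ) :
    ((tlI M m a b s2 cd t : ℤ) : ℝ)
      = (80 * m * cd) * (M * rI m a b t - (shI t : ℝ) * ((s2:ℝ) / 2)) := by
  have h1 : (0:ℝ) < m := by exact_mod_cast hm
  unfold tlI rI
  push_cast
  field_simp
  ring

lemma trI_eq {m : ℤ} {P s0 : ℕ} {f : Gf} (hcd : 1 ≤ f.cd) :
    ((trI m P s0 f : ℤ) : ℝ) = (80 * m * f.cd) * cF P s0 f := by
  have h1 : (0:ℝ) < f.cd := by exact_mod_cast hcd
  have e : cF P s0 f = (f.cN:ℝ) / f.cd - (zeroI P s0 f : ℤ) := by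
    unfold cF zeroI
    split_ifs <;> push_cast <;> rfl
  rw [e]
  unfold trI
  push_cast
  field_simp

lemma tcI_eq {m : ℤ} {P s0 : ℕ} {f : Gc} (hcd : 1 ≤ f.cd) (ha : f.al = 1 ∧ f.be = 2) :
    ((tcI m P s0 f : ℤ) : ℝ) = (80 * m * f.cd) * KC.cC P s0 f := by
  have h1 : (0:ℝ) < f.cd := by exact_mod_cast hcd
  unfold KC.cC tcI
  rw [ha.1, ha.2]
  push_cast
  field_simp

lemma th_of_le {m : ℤ} (hm : 0 < m) {cd : ℕ} (hcd : 1 ≤ cd) {x y : ℤ} {u v : ℝ} (h : x ≤ y)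
    (hx : (x:ℝ) = (80 * m * cd) * u) (hy : (y:ℝ) = (80 * m * cd) * v) : u ≤ v := by
  have h1 : (0:ℝ) < cd := by exact_mod_cast hcd
  have h2 : (0:ℝ) < m := by exact_mod_cast hm
  have h3 : (x:ℝ) ≤ y := by exact_mod_cast h
  rw [hx, hy] at h3
  exact le_of_mul_le_mul_left h3 (by positivity)

section facts
variable {M m a b s2 : ℤ} {P s0 : ℕ} {t : ℕ}

lemma KdI.cost {f : Zf} (h : KdI M m a b s2 P s0 f t) (hm : 0 < m) (ht : t < 6) :
    M * rI m a b t - (shI t : ℝ) * ((s2:ℝ) / 2) ≤ cF P s0 f.g :=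
  th_of_le hm h.cd (h.kc ht).2 (tlI_eq hm _ _) (trI_eq h.cd)

lemma KdI.gain {f : Zf} (h : KdI M m a b s2 P s0 f t) (hm : 0 < m) (ht : 6 ≤ t) :
    cF P s0 f.g ≤ M * rI m a b t - (shI t : ℝ) * ((s2:ℝ) / 2) :=
  th_of_le hm h.cd (h.kg ht).2 (trI_eq h.cd) (tlI_eq hm _ _)

lemma KcI.cost {f : Zc} (h : KcI M m a b s2 P s0 f t) (hm : 0 < m) (ht : t = 9 ∨ t = 12) :
    M * rI m a b t - (shI t : ℝ) * ((s2:ℝ) / 2) ≤ KC.cC P s0 f.g := by
  rcases ht with ht | ht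
  · exact th_of_le hm h.cd (h.k9 ht).2 (tlI_eq hm _ _) (tcI_eq h.cd h.al)
  · exact th_of_le hm h.cd (h.k12 ht).2 (tlI_eq hm _ _) (tcI_eq h.cd h.al)

lemma KcI.gain {f : Zc} (h : KcI M m a b s2 P s0 f t) (hm : 0 < m) (ht : t = 10 ∨ t = 11) :
    KC.cC P s0 f.g ≤ M * rI m a b t - (shI t : ℝ) * ((s2:ℝ) / 2) :=
  th_of_le hm h.cd (h.kg ht).2 (tcI_eq h.cd h.al) (tlI_eq hm _ _)

end facts

lemma sp_form {f : Gf} {rf ng q : ℕ} (h : f.rf = rf ∧ f.ng = ng ∧ f.q = q) :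
    sF f = (if rf = 0 then 1 else -1)
      ∧ pF f = (if rf = 0 then 1 else -1) * (if ng = 0 then (q:ℤ) else -(q:ℤ)) := by
  obtain ⟨h1, h2, h3⟩ := h
  constructor
  · unfold sF
    rw [h1]
  · unfold pF sF g3p gfG
    simp only [h1, h2, h3]

/-! ### The numbers of a cell -/

/-- the depths `t0`, `t1` of a cell -/
structure CellE (m a b D K ρ E t0 t1 : ℤ) : Prop where
  hD : D = 4 * K + 1
  hK : 1 ≤ K
  r0 : 1 ≤ ρ
  r1 : 40 * ρ ≤ D
  r2 : D ≤ 40 * ρ + 39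
  m0 : 0 < m
  h0 : a * D ≤ m * t0
  h1 : b * D ≤ m * t1 + m
  h2 : m * t1 ≤ b * D
  hE : 40 * E ≤ D

/-- the real form -/
structure CellR (m a b D K ρ E t0 t1 : ℤ) : Prop where
  D0 : (0:ℝ) < D
  hD : (D:ℝ) = 4 * K + 1
  r1 : 40 * (ρ:ℝ) ≤ D
  r2 : (D:ℝ) ≤ 40 * ρ + 39
  h0 : (a:ℝ) / m * D ≤ t0
  h1 : (b:ℝ) / m * D - 1 ≤ t1
  h2 : (t1:ℝ) ≤ (b:ℝ) / m * D
  hE : 40 * (E:ℝ) ≤ D

lemma CellE.real {m a b D K ρ E t0 t1 : ℤ} (h : CellE m a b D K ρ E t0 t1) :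
    CellR m a b D K ρ E t0 t1 := by
  have hm0 : (0:ℝ) < m := by exact_mod_cast h.m0
  refine ⟨?_, by exact_mod_cast h.hD, by exact_mod_cast h.r1, by exact_mod_cast h.r2, ?_, ?_, ?_,
    by exact_mod_cast h.hE⟩
  · have := h.hD
    have := h.hK
    exact_mod_cast (by omega : 0 < D)
  · have h1 : (a:ℝ) * D ≤ m * t0 := by exact_mod_cast h.h0
    have h2 : (m:ℝ) * ((a:ℝ) / m * D) = a * D := by
      field_simp
    exact le_of_mul_le_mul_left (by rw [h2]; exact h1) hm0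
  · have h1 : (b:ℝ) * D ≤ m * t1 + m := by exact_mod_cast h.h1
    have h2 : (m:ℝ) * ((b:ℝ) / m * D - 1) = b * D - m := by
      field_simp
    exact le_of_mul_le_mul_left (by rw [h2]; linarith) hm0
  · have h1 : (m:ℝ) * t1 ≤ b * D := by exact_mod_cast h.h2
    have h2 : (m:ℝ) * ((b:ℝ) / m * D) = b * D := by
      field_simp
    exact le_of_mul_le_mul_left (by rw [h2]; exact h1) hm0

/-- the thresholds, kind by kind -/
lemma rI_eq {m : ℤ} (hm : 0 < m) (a b : ℤ) :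
    rI m a b 0 = -(59 / 40 + 4 * ((b:ℝ) / m)) ∧ rI m a b 1 = -(19 / 40 + 2 * ((b:ℝ) / m))
    ∧ rI m a b 2 = 19 / 40 + 2 * ((b:ℝ) / m) ∧ rI m a b 3 = (b:ℝ) / m - 61 / 40
    ∧ rI m a b 4 = (b:ℝ) / m + 1 / 40 - 61 / 40 ∧ rI m a b 5 = 59 / 40 + 4 * ((b:ℝ) / m)
    ∧ rI m a b 6 = 59 / 40 + 4 * ((b:ℝ) / m) ∧ rI m a b 7 = 59 / 40 + 4 * ((a:ℝ) / m)
    ∧ rI m a b 8 = 59 / 40 + 4 * ((a:ℝ) / m) ∧ rI m a b 9 = 19 / 40 + 2 * ((b:ℝ) / m)
    ∧ rI m a b 10 = 19 / 40 + 2 * ((b:ℝ) / m) ∧ rI m a b 11 = 19 / 40 + 2 * ((a:ℝ) / m)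
    ∧ rI m a b 12 = 19 / 40 + 2 * ((b:ℝ) / m) := by
  have h1 : (0:ℝ) < m := by exact_mod_cast hm
  unfold rI limI
  refine ⟨?_, ?_, ?_, ?_, ?_, ?_, ?_, ?_, ?_, ?_, ?_, ?_, ?_⟩ <;> norm_num <;> field_simp <;> ring

/-! ### One family -/

variable {C : Type} {M : ℕ} {σ δ : ℝ} {D K ρ : ℤ} {kL kR : ℝ} {G : GrdD C M σ δ D K ρ kL kR}
  {d : DatR}

/-- a cost family with zones -/
theorem fam_costI {f : Zf} (F : FamOK d.P f.g) (hk : f.g.kd = 0) (ι : C → ℕ) (s0 : ℤ) {s : ℝ}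
    (hs : 0 ≤ s) {η : ℝ} (hη : 0 ≤ η) (hδ : 0 ≤ δ) {ψ : P4 → P4 → P4 → ℝ}
    {cond : P4 → P4 → P4 → Prop} [∀ x y z, Decidable (cond x y z)]
    (h1 : ∀ x y z, ψ x y z ≤ bo (cond x y z))
    (h0 : ∀ x y z, zfl f.zk (zn9 D ρ (lab D y z)) = false → ψ x y z ≤ 0)
    (hc : ∀ x y z, cond x y z →
      sF f.g * yc M σ D (lab D y z) + pF f.g * yc M σ D (lc D x.2) ≤ cF d.P s0 f.g + η) :
    G.FamZ (fun x y z => vF s f.g (ι (G.cl x))
        * (flF d f.g (ι (G.cl y)) (ι (G.cl z)) * ψ x y z))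
      (fun ζ a b i m => if zfl f.zk i = true then lam1 d s0 s f.g (ι ζ.1, ζ.2) (ι a) (ι b) m
        else 0) (s * (2 ^ 30 * f.g.kp) * (2 * 2 ^ 30 * (f.g.q * δ + η))) := by
  have h := F.famC (G := G) hk ι s0 hs hη (cond := cond)
    (Φ := fun x y z => vF s f.g (ι (G.cl x)) * (flF d f.g (ι (G.cl y)) (ι (G.cl z))
      * bo (cond x y z))) (fun x y z _ _ _ => le_rfl) (fun x y z _ _ _ => hc x y z)
  refine h.onZ (by positivity) (zfl f.zk) (fun x y z _ _ _ _ => ?_) (fun x y z _ _ _ hz => ?_)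
  · exact mul_le_mul_of_nonneg_left (mul_le_mul_of_nonneg_left (h1 x y z) (flF_nonneg d f.g _ _))
      (vF_nonneg hs f.g _)
  · exact mul_nonpos_of_nonneg_of_nonpos (vF_nonneg hs f.g _)
      (mul_nonpos_of_nonneg_of_nonpos (flF_nonneg d f.g _ _) (h0 x y z hz))

/-- a gain family with zones -/
theorem fam_gainI {f : Zf} (F : FamOK d.P f.g) (hk : f.g.kd ≠ 0) (ι : C → ℕ) (s0 : ℤ) {s : ℝ}
    (hs : 0 ≤ s) {η : ℝ} (hη : 0 ≤ η) (hδ : 0 ≤ δ) {ψ : P4 → P4 → P4 → ℝ}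
    {cond : P4 → P4 → P4 → Prop} [∀ x y z, Decidable (cond x y z)]
    (h1 : ∀ x y z, zfl f.zk (zn9 D ρ (lab D y z)) = true → ψ x y z ≤ -bo (cond x y z))
    (h0 : ∀ x y z, ψ x y z ≤ 0)
    (hc : ∀ x y z, ¬ cond x y z →
      cF d.P s0 f.g - η ≤ sF f.g * yc M σ D (lab D y z) + pF f.g * yc M σ D (lc D x.2)) :
    G.FamZ (fun x y z => vF s f.g (ι (G.cl x))
        * (flF d f.g (ι (G.cl y)) (ι (G.cl z)) * ψ x y z))
      (fun ζ a b i m => if zfl f.zk i = true then lam1 d s0 s f.g (ι ζ.1, ζ.2) (ι a) (ι b) m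
        else 0) (s * (2 ^ 30 * f.g.kp) * (2 * 2 ^ 30 * (f.g.q * δ + η))) := by
  have h := F.famG (G := G) hk ι s0 hs hη (cond := cond)
    (Φ := fun x y z => -(vF s f.g (ι (G.cl x)) * (flF d f.g (ι (G.cl y)) (ι (G.cl z))
      * bo (cond x y z)))) (fun x y z _ _ _ => le_rfl) (fun x y z _ _ _ => hc x y z)
  refine h.onZ (by positivity) (zfl f.zk) (fun x y z _ _ _ hz => ?_) (fun x y z _ _ _ _ => ?_)
  · have k := mul_le_mul_of_nonneg_left (mul_le_mul_of_nonneg_left (h1 x y z hz)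
      (flF_nonneg d f.g (ι (G.cl y)) (ι (G.cl z)))) (vF_nonneg hs f.g (ι (G.cl x)))
    linarith
  · exact mul_nonpos_of_nonneg_of_nonpos (vF_nonneg hs f.g _)
      (mul_nonpos_of_nonneg_of_nonpos (flF_nonneg d f.g _ _) (h0 x y z))

/-- a crude cost family with zones -/
theorem fam_costJ {f : Zc} (F : CruOK f.g) (hk : f.g.kd = 0) (ι : C → ℕ) (s0 : ℤ)
    (hGl : ∀ c, G.lo c = loR d.segs s0 (ι c)) (hGh : ∀ c, G.hi c = hiR d.segs s0 (ι c)) {s : ℝ}
    (hs : 0 ≤ s) {η : ℝ} (hη : 0 ≤ η) (hδ : 0 ≤ δ) {ψ : P4 → P4 → P4 → ℝ}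
    {cond : P4 → P4 → P4 → Prop} [∀ x y z, Decidable (cond x y z)]
    (h1 : ∀ x y z, ψ x y z ≤ bo (cond x y z))
    (h0 : ∀ x y z, zfl f.zk (zn9 D ρ (lab D y z)) = false → ψ x y z ≤ 0)
    (hc : ∀ x y z, cond x y z → f.g.al * yc M σ D (lc D x.2) + f.g.be * yc M σ D (lab D y z)
      ≤ KC.cC d.P s0 f.g + η) :
    G.FamZ (fun x y z => vC s f.g (ι (G.cl x))
        * (flC d f.g (ι (G.cl y)) (ι (G.cl z)) * ψ x y z))
      (fun ζ a b i m => if zfl f.zk i = true then lamC1 d s0 s f.g (ι ζ.1, ζ.2) (ι a) (ι b) m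
        else 0) (s * 2 ^ 30 * (2 * (η + f.g.al * δ))) := by
  have h := F.famC (G := G) (Or.inl hk) hGl hGh hs hη hδ (cond := cond)
    (Φ := fun x y z => vC s f.g (ι (G.cl x)) * (flC d f.g (ι (G.cl y)) (ι (G.cl z))
      * bo (cond x y z))) (fun x y z _ _ _ => le_rfl) (fun _ x y z _ _ _ => hc x y z)
    (fun h3 => absurd h3 (by omega))
  refine h.onZ (by positivity) (zfl f.zk) (fun x y z _ _ _ _ => ?_) (fun x y z _ _ _ hz => ?_)
  · exact mul_le_mul_of_nonneg_left (mul_le_mul_of_nonneg_left (h1 x y z) (flC_nonneg d f.g _ _))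
      (vC_nonneg hs f.g _)
  · exact mul_nonpos_of_nonneg_of_nonpos (vC_nonneg hs f.g _)
      (mul_nonpos_of_nonneg_of_nonpos (flC_nonneg d f.g _ _) (h0 x y z hz))

/-- a crude gain family with zones -/
theorem fam_gainJ {f : Zc} (F : CruOK f.g) (hk : f.g.kd = 1 ∨ f.g.kd = 2) (ι : C → ℕ) (s0 : ℤ)
    (hGl : ∀ c, G.lo c = loR d.segs s0 (ι c)) (hGh : ∀ c, G.hi c = hiR d.segs s0 (ι c)) {s : ℝ}
    (hs : 0 ≤ s) {η : ℝ} (hη : 0 ≤ η) (hδ : 0 ≤ δ) {ψ : P4 → P4 → P4 → ℝ}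
    {cond : P4 → P4 → P4 → Prop} [∀ x y z, Decidable (cond x y z)]
    (h1 : ∀ x y z, zfl f.zk (zn9 D ρ (lab D y z)) = true → ψ x y z ≤ -bo (cond x y z))
    (h0 : ∀ x y z, ψ x y z ≤ 0)
    (hc1 : f.g.kd = 1 → ∀ x y z, ¬ cond x y z → KC.cC d.P s0 f.g - η
      ≤ f.g.al * yc M σ D (lc D x.2) + f.g.be * yc M σ D (lab D y z))
    (hc2 : f.g.kd = 2 → ∀ x y z, ¬ cond x y z →
      f.g.al * yc M σ D (lc D x.2) + f.g.be * yc M σ D (lab D y z) ≤ KC.cC d.P s0 f.g + η) :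
    G.FamZ (fun x y z => vC s f.g (ι (G.cl x))
        * (flC d f.g (ι (G.cl y)) (ι (G.cl z)) * ψ x y z))
      (fun ζ a b i m => if zfl f.zk i = true then lamC1 d s0 s f.g (ι ζ.1, ζ.2) (ι a) (ι b) m
        else 0) (s * 2 ^ 30 * (2 * (η + f.g.al * δ))) := by
  have h := F.famG (G := G) hk hGl hGh hs hη hδ (cond := cond)
    (Φ := fun x y z => -(vC s f.g (ι (G.cl x)) * (flC d f.g (ι (G.cl y)) (ι (G.cl z))
      * bo (cond x y z)))) (fun x y z _ _ _ => le_rfl) (fun e x y z _ _ _ => hc1 e x y z)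
    (fun e x y z _ _ _ => hc2 e x y z)
  refine h.onZ (by positivity) (zfl f.zk) (fun x y z _ _ _ hz => ?_) (fun x y z _ _ _ _ => ?_)
  · have k := mul_le_mul_of_nonneg_left (mul_le_mul_of_nonneg_left (h1 x y z hz)
      (flC_nonneg d f.g (ι (G.cl y)) (ι (G.cl z)))) (vC_nonneg hs f.g (ι (G.cl x)))
    linarith
  · exact mul_nonpos_of_nonneg_of_nonpos (vC_nonneg hs f.g _)
      (mul_nonpos_of_nonneg_of_nonpos (flC_nonneg d f.g _ _) (h0 x y z))

/-! ### The kinds -/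

/-- the condition of a kind with its zone and its sign -/
def psI (D K ρ E t0 t1 : ℤ) (t : ℕ) (x y z : P4) : ℝ :=
  if t = 0 then bo (cA D K ρ t1 + 1 ≤ 2 * lc D x.2 + lab D y z)
  else if t = 1 then bo (-4 * lc D x.2 + lab D y z ≤ cB D K ρ t1 - 1)
  else if t = 2 then bo (cB D K ρ t1 ≤ -4 * lc D x.2 + lab D y z)
  else if t = 3 then bo (-1 * lc D x.2 + lab D y z ≤ FE.cC D K ρ t1)
  else if t = 4 then bo (-1 * lc D x.2 + lab D y z ≤ FE.cC D K ρ (t1 + E))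
  else if t = 5 then bo (lab D y z ≤ -1 - ρ ∧ 2 * lc D x.2 + lab D y z ≤ cA D K ρ t1)
  else if t = 6 then -bo (-ρ ≤ lab D y z ∧ 2 * lc D x.2 + lab D y z ≤ cA D K ρ t1)
  else if t = 7 then -bo (-ρ ≤ lab D y z ∧ 2 * lc D x.2 + lab D y z ≤ cA D K ρ t0)
  else if t = 8 then -bo (2 * lc D x.2 + lab D y z ≤ cA D K ρ t0)
  else if t = 9 then bo (lab D y z ≤ -ρ ∧ lc D x.2 + 2 * lab D y z ≤ cL D K ρ t1)
  else if t = 10 then -bo (1 - ρ ≤ lab D y z ∧ lc D x.2 + 2 * lab D y z ≤ cL D K ρ t1)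
  else if t = 11 then -bo (1 - ρ ≤ lab D y z ∧ lc D x.2 + 2 * lab D y z ≤ cL D K ρ t0)
  else -bo (lab D y z ≤ -1 - ρ ∧ cO D K ρ t1 ≤ lc D x.2 + 2 * lab D y z)

section kinds

variable {m a b E t0 t1 : ℤ}

lemma zfl_eq (hρ : 1 ≤ ρ) (hρD : ρ < D) (zk : List ℕ) (l : ℤ) :
    zfl zk (zn9 D ρ l) = decide (nth 0 zk (zn5 D ρ l : Fin 5) ≠ 0) := by
  unfold zfl
  rw [zn5_eq9 hρ hρD]

lemma zn5_zero {l : ℤ} (h : l ≤ -1 - ρ) : zn5 D ρ l = 0 := by
  unfold zn5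
  rw [if_pos h]

lemma zn5_one {l : ℤ} (h : ¬ l ≤ -1 - ρ) (h2 : l ≤ -ρ) : zn5 D ρ l = 1 := by
  unfold zn5
  rw [if_neg h, if_pos h2]

lemma zn5_ge1 {l : ℤ} (h : ¬ l ≤ -1 - ρ) :
    zn5 D ρ l = 1 ∨ zn5 D ρ l = 2 ∨ zn5 D ρ l = 3 ∨ zn5 D ρ l = 4 := by
  unfold zn5
  rw [if_neg h]
  split_ifs <;> simp

lemma nth_five (zk : List ℕ) : nth 0 zk ((0 : Fin 5) : ℕ) = nth 0 zk 0
    ∧ nth 0 zk ((1 : Fin 5) : ℕ) = nth 0 zk 1 ∧ nth 0 zk ((2 : Fin 5) : ℕ) = nth 0 zk 2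
    ∧ nth 0 zk ((3 : Fin 5) : ℕ) = nth 0 zk 3 ∧ nth 0 zk ((4 : Fin 5) : ℕ) = nth 0 zk 4 :=
  ⟨rfl, rfl, rfl, rfl, rfl⟩

/-- error of a family -/
def errI (M : ℕ) (D : ℤ) (δ s : ℝ) (f : Zf) : ℝ :=
  s * (2 ^ 30 * f.g.kp) * (2 * 2 ^ 30 * (f.g.q * δ + 50 * M / D))

/-- error of a crude family -/
def errJ (M : ℕ) (D : ℤ) (δ s : ℝ) (f : Zc) : ℝ :=
  s * 2 ^ 30 * (2 * (50 * M / D + f.g.al * δ))

/-- ONE FAMILY OF THE DATA -/
theorem fam_gfI (e : CellE m a b D K ρ E t0 t1) {s2 : ℤ} (hσ : σ = (s2:ℝ) / 2) (hδ : 0 ≤ δ)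
    {f : Zf} {t : ℕ} (F : FamOK d.P f.g) {s0 : ℕ} (h : KdI M m a b s2 d.P s0 f t) (ι : C → ℕ)
    {s : ℝ} (hs : 0 ≤ s) :
    G.FamZ (fun x y z => vF s f.g (ι (G.cl x))
        * (flF d f.g (ι (G.cl y)) (ι (G.cl z)) * psI D K ρ E t0 t1 t x y z))
      (fun ζ a b i m => if zfl f.zk i = true then lam1 d s0 s f.g (ι ζ.1, ζ.2) (ι a) (ι b) m
        else 0) (errI M D δ s f) := by
  have r := e.real
  have hDi : 0 < D := by have := e.hD; have := e.hK; omega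
  have hρD : ρ < D := by have := e.r1; have := e.r0; omega
  have hη : (0:ℝ) ≤ 50 * (M:ℝ) / D := by
    have := r.D0
    positivity
  obtain ⟨q0, q1, q2, q3, q4, q5, q6, q7, q8, _⟩ := rI_eq e.m0 a b
  have t9 := h.t9
  have D0 := r.D0
  have c1 := r.hD
  have c2 := r.r1
  have c3 := r.r2
  have c4 := r.h0
  have c5 := r.h1
  have c6 := r.h2
  have c7 := r.hE
  have zall : t < 5 → ∀ y z, zfl f.zk (zn9 D ρ (lab D y z)) = true := fun ht y z => by
    rw [zfl_eq e.r0 hρD]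
    exact decide_eq_true (h.z0 ht _)
  interval_cases t
  · -- right window
    have sp := sp_form (h.q0 rfl)
    rw [if_neg (by norm_num), if_pos rfl] at sp
    have hth := h.cost e.m0 (by norm_num)
    rw [q0, ← hσ, Int.cast_natCast] at hth
    refine fam_costI F (h.kc (by norm_num)).1 ι s0 hs hη hδ
      (cond := fun x y z => cA D K ρ t1 + 1 ≤ 2 * lc D x.2 + lab D y z)
      (fun x y z => le_rfl) (fun x y z hz => by rw [zall (by norm_num)] at hz; simp at hz)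
      (fun x y z hc => ?_)
    rw [sp.1, sp.2]
    refine (lin_le hDi (r := -(59 / 40 + 4 * ((b:ℝ) / m))) ?_).trans ?_
    · have hc' : (2:ℝ) * D - 2 * K - 1 - ρ + 4 * t1 + 1 ≤ 2 * lc D x.2 + lab D y z := by
        unfold cA at hc
        exact_mod_cast hc
      push_cast
      linarith
    · have e1 : (shI 0 : ℝ) = -3 := by simp [shI]
      rw [e1] at hth
      push_cast
      linarith
  · -- left window
    have sp := sp_form (h.q1 rfl)
    rw [if_pos rfl, if_neg (by norm_num)] at sp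
    have hth := h.cost e.m0 (by norm_num)
    rw [q1, ← hσ, Int.cast_natCast] at hth
    refine fam_costI F (h.kc (by norm_num)).1 ι s0 hs hη hδ
      (cond := fun x y z => -4 * lc D x.2 + lab D y z ≤ cB D K ρ t1 - 1)
      (fun x y z => le_rfl) (fun x y z hz => by rw [zall (by norm_num)] at hz; simp at hz)
      (fun x y z hc => ?_)
    rw [sp.1, sp.2]
    refine (lin_le hDi (r := -(19 / 40 + 2 * ((b:ℝ) / m))) ?_).trans ?_
    · have hc' : -4 * (lc D x.2 : ℝ) + lab D y z ≤ 2 * K + 1 + ρ - D - 2 * t1 - 1 := by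
        unfold cB at hc
        exact_mod_cast hc
      push_cast
      linarith
    · have e1 : (shI 1 : ℝ) = -3 := by simp [shI]
      rw [e1] at hth
      push_cast
      linarith
  · -- exotic labels
    have sp := sp_form (h.q2 rfl)
    rw [if_neg (by norm_num), if_neg (by norm_num)] at sp
    have hth := h.cost e.m0 (by norm_num)
    rw [q2, ← hσ, Int.cast_natCast] at hth
    refine fam_costI F (h.kc (by norm_num)).1 ι s0 hs hη hδ
      (cond := fun x y z => cB D K ρ t1 ≤ -4 * lc D x.2 + lab D y z)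
      (fun x y z => le_rfl) (fun x y z hz => by rw [zall (by norm_num)] at hz; simp at hz)
      (fun x y z hc => ?_)
    rw [sp.1, sp.2]
    refine (lin_le hDi (r := 19 / 40 + 2 * ((b:ℝ) / m)) ?_).trans ?_
    · have hc' : (2:ℝ) * K + 1 + ρ - D - 2 * t1 ≤ -4 * lc D x.2 + lab D y z := by
        unfold cB at hc
        exact_mod_cast hc
      push_cast
      linarith
    · have e1 : (shI 2 : ℝ) = 3 := by simp [shI]
      rw [e1] at hth
      push_cast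
      linarith
  · -- midpoints
    have sp := sp_form (h.q3 (Or.inl rfl))
    rw [if_pos rfl, if_neg (by norm_num)] at sp
    have hth := h.cost e.m0 (by norm_num)
    rw [q3, ← hσ, Int.cast_natCast] at hth
    refine fam_costI F (h.kc (by norm_num)).1 ι s0 hs hη hδ
      (cond := fun x y z => -1 * lc D x.2 + lab D y z ≤ FE.cC D K ρ t1)
      (fun x y z => le_rfl) (fun x y z hz => by rw [zall (by norm_num)] at hz; simp at hz)
      (fun x y z hc => ?_)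
    rw [sp.1, sp.2]
    refine (lin_le hDi (r := (b:ℝ) / m - 61 / 40) ?_).trans ?_
    · have hc' : -1 * (lc D x.2 : ℝ) + lab D y z ≤ t1 - D - 2 * K - 1 - ρ := by
        unfold FE.cC at hc
        exact_mod_cast hc
      push_cast
      linarith
    · have e1 : (shI 3 : ℝ) = 0 := by simp [shI]
      rw [e1] at hth
      push_cast
      linarith
  · -- midpoints with the shift
    have sp := sp_form (h.q3 (Or.inr rfl))
    rw [if_pos rfl, if_neg (by norm_num)] at sp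
    have hth := h.cost e.m0 (by norm_num)
    rw [q4, ← hσ, Int.cast_natCast] at hth
    refine fam_costI F (h.kc (by norm_num)).1 ι s0 hs hη hδ
      (cond := fun x y z => -1 * lc D x.2 + lab D y z ≤ FE.cC D K ρ (t1 + E))
      (fun x y z => le_rfl) (fun x y z hz => by rw [zall (by norm_num)] at hz; simp at hz)
      (fun x y z hc => ?_)
    rw [sp.1, sp.2]
    refine (lin_le hDi (r := (b:ℝ) / m + 1 / 40 - 61 / 40) ?_).trans ?_
    · have hc' : -1 * (lc D x.2 : ℝ) + lab D y z ≤ t1 + E - D - 2 * K - 1 - ρ := by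
        unfold FE.cC at hc
        exact_mod_cast hc
      push_cast
      linarith
    · have e1 : (shI 4 : ℝ) = 0 := by simp [shI]
      rw [e1] at hth
      push_cast
      linarith
  · -- doubled point
    have sp := sp_form (h.q5 (by norm_num))
    rw [if_pos rfl, if_pos rfl] at sp
    have hth := h.cost e.m0 (by norm_num)
    rw [q5, ← hσ, Int.cast_natCast] at hth
    refine fam_costI F (h.kc (by norm_num)).1 ι s0 hs hη hδ
      (cond := fun x y z => 2 * lc D x.2 + lab D y z ≤ cA D K ρ t1)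
      (fun x y z => bo_mono fun k => k.2) (fun x y z hz => ?_) (fun x y z hc => ?_)
    · by_cases k : lab D y z ≤ -1 - ρ
      · rw [zfl_eq e.r0 hρD, zn5_zero k] at hz
        exact absurd (h.z5 rfl) (of_decide_eq_false hz)
      · exact le_of_eq (bo_false fun k' => k k'.1)
    rw [sp.1, sp.2]
    refine (lin_le hDi (r := 59 / 40 + 4 * ((b:ℝ) / m)) ?_).trans ?_
    · have hc' : 2 * (lc D x.2 : ℝ) + lab D y z ≤ 2 * D - 2 * K - 1 - ρ + 4 * t1 := by
        unfold cA at hc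
        exact_mod_cast hc
      push_cast
      linarith
    · have e1 : (shI 5 : ℝ) = 3 := by simp [shI]
      rw [e1] at hth
      push_cast
      linarith
  · -- gain, right, t1
    have sp := sp_form (h.q5 (by norm_num))
    rw [if_pos rfl, if_pos rfl] at sp
    have hth := h.gain e.m0 (by norm_num)
    rw [q6, ← hσ, Int.cast_natCast] at hth
    refine fam_gainI F (by rw [(h.kg (by norm_num)).1]; norm_num) ι s0 hs hη hδ
      (cond := fun x y z => 2 * lc D x.2 + lab D y z ≤ cA D K ρ t1)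
      (fun x y z hz => ?_) (fun x y z => neg_nonpos.2 (bo_nonneg _)) (fun x y z hc => ?_)
    · refine neg_le_neg (bo_mono fun k => ⟨?_, k⟩)
      by_contra k'
      rw [zfl_eq e.r0 hρD, zn5_zero (by omega)] at hz
      exact absurd (h.z6 (Or.inl rfl)) (of_decide_eq_true hz)
    rw [sp.1, sp.2]
    refine le_trans ?_ (lin_ge hDi (r := 59 / 40 + 4 * ((b:ℝ) / m)) ?_)
    · have e1 : (shI 6 : ℝ) = 3 := by simp [shI]
      rw [e1] at hth
      push_cast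
      linarith
    · have hc' : (2:ℝ) * D - 2 * K - 1 - ρ + 4 * t1 + 1 ≤ 2 * lc D x.2 + lab D y z := by
        unfold cA at hc
        exact_mod_cast (by omega : 2 * D - 2 * K - 1 - ρ + 4 * t1 + 1 ≤ 2 * lc D x.2 + lab D y z)
      push_cast
      linarith
  · -- gain, right, t0
    have sp := sp_form (h.q5 (by norm_num))
    rw [if_pos rfl, if_pos rfl] at sp
    have hth := h.gain e.m0 (by norm_num)
    rw [q7, ← hσ, Int.cast_natCast] at hth
    refine fam_gainI F (by rw [(h.kg (by norm_num)).1]; norm_num) ι s0 hs hη hδ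
      (cond := fun x y z => 2 * lc D x.2 + lab D y z ≤ cA D K ρ t0)
      (fun x y z hz => ?_) (fun x y z => neg_nonpos.2 (bo_nonneg _)) (fun x y z hc => ?_)
    · refine neg_le_neg (bo_mono fun k => ⟨?_, k⟩)
      by_contra k'
      rw [zfl_eq e.r0 hρD, zn5_zero (by omega)] at hz
      exact absurd (h.z6 (Or.inr rfl)) (of_decide_eq_true hz)
    rw [sp.1, sp.2]
    refine le_trans ?_ (lin_ge hDi (r := 59 / 40 + 4 * ((a:ℝ) / m)) ?_)
    · have e1 : (shI 7 : ℝ) = 3 := by simp [shI]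
      rw [e1] at hth
      push_cast
      linarith
    · have hc' : (2:ℝ) * D - 2 * K - 1 - ρ + 4 * t0 + 1 ≤ 2 * lc D x.2 + lab D y z := by
        unfold cA at hc
        exact_mod_cast (by omega : 2 * D - 2 * K - 1 - ρ + 4 * t0 + 1 ≤ 2 * lc D x.2 + lab D y z)
      push_cast
      linarith
  · -- own gain
    have sp := sp_form (h.q5 (by norm_num))
    rw [if_pos rfl, if_pos rfl] at sp
    have hth := h.gain e.m0 (by norm_num)
    rw [q8, ← hσ, Int.cast_natCast] at hth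
    refine fam_gainI F (by rw [(h.kg (by norm_num)).1]; norm_num) ι s0 hs hη hδ
      (cond := fun x y z => 2 * lc D x.2 + lab D y z ≤ cA D K ρ t0)
      (fun x y z hz => le_rfl) (fun x y z => neg_nonpos.2 (bo_nonneg _)) (fun x y z hc => ?_)
    rw [sp.1, sp.2]
    refine le_trans ?_ (lin_ge hDi (r := 59 / 40 + 4 * ((a:ℝ) / m)) ?_)
    · have e1 : (shI 8 : ℝ) = 3 := by simp [shI]
      rw [e1] at hth
      push_cast
      linarith
    · have hc' : (2:ℝ) * D - 2 * K - 1 - ρ + 4 * t0 + 1 ≤ 2 * lc D x.2 + lab D y z := by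
        unfold cA at hc
        exact_mod_cast (by omega : 2 * D - 2 * K - 1 - ρ + 4 * t0 + 1 ≤ 2 * lc D x.2 + lab D y z)
      push_cast
      linarith

/-- ONE CRUDE FAMILY OF THE DATA -/
theorem fam_gcI (e : CellE m a b D K ρ E t0 t1) {s2 : ℤ} (hσ : σ = (s2:ℝ) / 2) (hδ : 0 ≤ δ)
    {f : Zc} {t : ℕ} (F : CruOK f.g) {s0 : ℕ} (h : KcI M m a b s2 d.P s0 f t) (ι : C → ℕ)
    (hGl : ∀ c, G.lo c = loR d.segs s0 (ι c)) (hGh : ∀ c, G.hi c = hiR d.segs s0 (ι c))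
    {s : ℝ} (hs : 0 ≤ s) :
    G.FamZ (fun x y z => vC s f.g (ι (G.cl x))
        * (flC d f.g (ι (G.cl y)) (ι (G.cl z)) * psI D K ρ E t0 t1 t x y z))
      (fun ζ a b i m => if zfl f.zk i = true then lamC1 d s0 s f.g (ι ζ.1, ζ.2) (ι a) (ι b) m
        else 0) (errJ M D δ s f) := by
  have r := e.real
  have hDi : 0 < D := by have := e.hD; have := e.hK; omega
  have hρD : ρ < D := by have := e.r1; have := e.r0; omega
  have hη : (0:ℝ) ≤ 50 * (M:ℝ) / D := by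
    have := r.D0
    positivity
  obtain ⟨_, _, _, _, _, _, _, _, _, q9, q10, q11, q12⟩ := rI_eq e.m0 a b
  obtain ⟨t9, t13⟩ := h.t9
  have D0 := r.D0
  have c1 := r.hD
  have c2 := r.r1
  have c3 := r.r2
  have c4 := r.h0
  have c5 := r.h1
  have c6 := r.h2
  have hal : (f.g.al : ℝ) = ((1:ℤ):ℝ) := by rw [h.al.1]; norm_num
  have hbe : (f.g.be : ℝ) = ((2:ℤ):ℝ) := by rw [h.al.2]; norm_num
  interval_cases t
  · -- doubled point
    have hth := h.cost e.m0 (Or.inl rfl)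
    rw [q9, ← hσ, Int.cast_natCast] at hth
    refine fam_costJ F (h.k9 rfl).1 ι s0 hGl hGh hs hη hδ
      (cond := fun x y z => lc D x.2 + 2 * lab D y z ≤ cL D K ρ t1)
      (fun x y z => bo_mono fun k => k.2) (fun x y z hz => ?_) (fun x y z hc => ?_)
    · by_cases k : lab D y z ≤ -ρ
      · by_cases k2 : lab D y z ≤ -1 - ρ
        · rw [zfl_eq e.r0 hρD, zn5_zero k2] at hz
          exact absurd (h.z9 rfl).1 (of_decide_eq_false hz)
        · rw [zfl_eq e.r0 hρD, zn5_one k2 k] at hz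
          exact absurd (h.z9 rfl).2 (of_decide_eq_false hz)
      · exact le_of_eq (bo_false fun k' => k k'.1)
    rw [hal, hbe, add_comm]
    refine (lin_le hDi (r := 19 / 40 + 2 * ((b:ℝ) / m)) ?_).trans ?_
    · have hc' : (lc D x.2 : ℝ) + 2 * lab D y z ≤ D - 2 * K - 1 - ρ + 2 * t1 := by
        unfold cL at hc
        exact_mod_cast hc
      push_cast
      linarith
    · have e1 : (shI 9 : ℝ) = 3 := by simp [shI]
      rw [e1] at hth
      push_cast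
      linarith
  · -- gain, t1
    have hth := h.gain e.m0 (Or.inl rfl)
    rw [q10, ← hσ, Int.cast_natCast] at hth
    have hkd := (h.kg (Or.inl rfl)).1
    refine fam_gainJ F (Or.inl hkd) ι s0 hGl hGh hs hη hδ
      (cond := fun x y z => lc D x.2 + 2 * lab D y z ≤ cL D K ρ t1)
      (fun x y z hz => ?_) (fun x y z => neg_nonpos.2 (bo_nonneg _)) (fun _ x y z hc => ?_)
      (fun k => absurd k (by omega))
    · refine neg_le_neg (bo_mono fun k => ⟨?_, k⟩)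
      by_contra k'
      have zz := h.zg (Or.inl rfl)
      by_cases k2 : lab D y z ≤ -1 - ρ
      · rw [zfl_eq e.r0 hρD, zn5_zero k2] at hz
        exact absurd zz.1 (of_decide_eq_true hz)
      · rw [zfl_eq e.r0 hρD, zn5_one k2 (by omega)] at hz
        exact absurd zz.2 (of_decide_eq_true hz)
    rw [hal, hbe, add_comm (((1:ℤ):ℝ) * _)]
    refine le_trans ?_ (lin_ge hDi (r := 19 / 40 + 2 * ((b:ℝ) / m)) ?_)
    · have e1 : (shI 10 : ℝ) = 3 := by simp [shI]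
      rw [e1] at hth
      push_cast
      linarith
    · have hc' : (D:ℝ) - 2 * K - 1 - ρ + 2 * t1 + 1 ≤ lc D x.2 + 2 * lab D y z := by
        unfold cL at hc
        exact_mod_cast (by omega : D - 2 * K - 1 - ρ + 2 * t1 + 1 ≤ lc D x.2 + 2 * lab D y z)
      push_cast
      linarith
  · -- gain, t0
    have hth := h.gain e.m0 (Or.inr rfl)
    rw [q11, ← hσ, Int.cast_natCast] at hth
    have hkd := (h.kg (Or.inr rfl)).1
    refine fam_gainJ F (Or.inl hkd) ι s0 hGl hGh hs hη hδ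
      (cond := fun x y z => lc D x.2 + 2 * lab D y z ≤ cL D K ρ t0)
      (fun x y z hz => ?_) (fun x y z => neg_nonpos.2 (bo_nonneg _)) (fun _ x y z hc => ?_)
      (fun k => absurd k (by omega))
    · refine neg_le_neg (bo_mono fun k => ⟨?_, k⟩)
      by_contra k'
      have zz := h.zg (Or.inr rfl)
      by_cases k2 : lab D y z ≤ -1 - ρ
      · rw [zfl_eq e.r0 hρD, zn5_zero k2] at hz
        exact absurd zz.1 (of_decide_eq_true hz)
      · rw [zfl_eq e.r0 hρD, zn5_one k2 (by omega)] at hz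
        exact absurd zz.2 (of_decide_eq_true hz)
    rw [hal, hbe, add_comm (((1:ℤ):ℝ) * _)]
    refine le_trans ?_ (lin_ge hDi (r := 19 / 40 + 2 * ((a:ℝ) / m)) ?_)
    · have e1 : (shI 11 : ℝ) = 3 := by simp [shI]
      rw [e1] at hth
      push_cast
      linarith
    · have hc' : (D:ℝ) - 2 * K - 1 - ρ + 2 * t0 + 1 ≤ lc D x.2 + 2 * lab D y z := by
        unfold cL at hc
        exact_mod_cast (by omega : D - 2 * K - 1 - ρ + 2 * t0 + 1 ≤ lc D x.2 + 2 * lab D y z)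
      push_cast
      linarith
  · -- own gain, left
    have hth := h.cost e.m0 (Or.inr rfl)
    rw [q12, ← hσ, Int.cast_natCast] at hth
    have hkd := (h.k12 rfl).1
    refine fam_gainJ F (Or.inr hkd) ι s0 hGl hGh hs hη hδ
      (cond := fun x y z => cO D K ρ t1 ≤ lc D x.2 + 2 * lab D y z)
      (fun x y z hz => ?_) (fun x y z => neg_nonpos.2 (bo_nonneg _))
      (fun k => absurd k (by omega)) (fun _ x y z hc => ?_)
    · refine neg_le_neg (bo_mono fun k => ⟨?_, k⟩)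
      by_contra k'
      obtain ⟨z1, z2, z3, z4⟩ := h.z12 rfl
      rw [zfl_eq e.r0 hρD] at hz
      have hz' := of_decide_eq_true hz
      rcases zn5_ge1 (D := D) k' with k2 | k2 | k2 | k2 <;> rw [k2] at hz'
      · exact hz' z1
      · exact hz' z2
      · exact hz' z3
      · exact hz' z4
    rw [hal, hbe, add_comm]
    refine (lin_le hDi (r := 19 / 40 + 2 * ((b:ℝ) / m)) ?_).trans ?_
    · have hc' : (lc D x.2 : ℝ) + 2 * lab D y z ≤ D - 2 * K + 2 * t1 - ρ + 1 - 1 := by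
        unfold cO at hc
        exact_mod_cast (by omega : lc D x.2 + 2 * lab D y z ≤ D - 2 * K + 2 * t1 - ρ + 1 - 1)
      push_cast
      linarith
    · have e1 : (shI 12 : ℝ) = 3 := by simp [shI]
      rw [e1] at hth
      push_cast
      linarith

end kinds

/-! ### All families -/

/-- weight of the families of a kind -/
def WF (d : DatR) (s : ℝ) (l : List (Zf × ℕ)) (t c a b : ℕ) : ℝ :=
  (l.map fun p => if p.2 = t then vF s p.1.g c * flF d p.1.g a b else 0).sum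

/-- weight of the crude families of a kind -/
def WC (d : DatR) (s : ℝ) (l : List (Zc × ℕ)) (t c a b : ℕ) : ℝ :=
  (l.map fun p => if p.2 = t then vC s p.1.g c * flC d p.1.g a b else 0).sum

lemma WF_sum (s : ℝ) (c a b : ℕ) (ψ : ℕ → ℝ) : ∀ l : List (Zf × ℕ), (∀ p ∈ l, p.2 < 13) →
    (l.map fun p => vF s p.1.g c * (flF d p.1.g a b * ψ p.2)).sum
      = ∑ t ∈ range 13, WF d s l t c a b * ψ t := by
  intro l
  induction l with
  | nil =>
    intro _
    simp [WF]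
  | cons p l ih =>
    intro hp
    have h := ih fun q hq => hp q (List.mem_cons_of_mem _ hq)
    have h0 := hp p List.mem_cons_self
    have e : ∀ t, WF d s (p :: l) t c a b
        = (if p.2 = t then vF s p.1.g c * flF d p.1.g a b else 0) + WF d s l t c a b := by
      intro t
      unfold WF
      rw [List.map_cons, List.sum_cons]
    rw [List.map_cons, List.sum_cons, h]
    simp only [e, add_mul, sum_add_distrib, ite_mul, zero_mul]
    rw [sum_ite_eq, if_pos (mem_range.2 h0)]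
    ring

lemma WC_sum (s : ℝ) (c a b : ℕ) (ψ : ℕ → ℝ) : ∀ l : List (Zc × ℕ), (∀ p ∈ l, p.2 < 13) →
    (l.map fun p => vC s p.1.g c * (flC d p.1.g a b * ψ p.2)).sum
      = ∑ t ∈ range 13, WC d s l t c a b * ψ t := by
  intro l
  induction l with
  | nil =>
    intro _
    simp [WC]
  | cons p l ih =>
    intro hp
    have h := ih fun q hq => hp q (List.mem_cons_of_mem _ hq)
    have h0 := hp p List.mem_cons_self
    have e : ∀ t, WC d s (p :: l) t c a b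
        = (if p.2 = t then vC s p.1.g c * flC d p.1.g a b else 0) + WC d s l t c a b := by
      intro t
      unfold WC
      rw [List.map_cons, List.sum_cons]
    rw [List.map_cons, List.sum_cons, h]
    simp only [e, add_mul, sum_add_distrib, ite_mul, zero_mul]
    rw [sum_ite_eq, if_pos (mem_range.2 h0)]
    ring

/-- THE WEIGHTS: `W` weights of the data, `r1`, `r2` remaining window weights -/
structure WOK (sd ou : C → Bool) (W : ℕ → C → C → C → ℝ)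
    (m1 m2 vF2 vM0 vM1 vK1 vK2 h1 h0 h2 h3 vO vA r1 r2 a1 o1 a2 o2 : C → ℝ) : Prop where
  w0 : ∀ c a b, m1 c * (if sd a = sd b then 1 else 0) ≤ W 0 c a b
  w1 : ∀ c a b, m2 c * (if sd a = sd b then 1 else 0) ≤ W 1 c a b
  w2 : ∀ c a b, vF2 c * (if sd a = true ∧ sd b = true ∧ ou b = false then 1 else 0) ≤ W 2 c a b
  w3 : ∀ c a b, vM0 c * (if sd a = false ∧ sd b = false ∧ ou b = false then 1 else 0) ≤ W 3 c a b
  w4 : ∀ c a b, vM1 c * (if sd a = false ∧ sd b = false ∧ ou b = false then 1 else 0) ≤ W 4 c a b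
  w5 : ∀ c a b, vK1 c * ppw sd r1 a b ≤ W 5 c a b
  w6 : ∀ c a b, W 6 c a b ≤ h1 c * ppw sd a1 a b
  w7 : ∀ c a b, W 7 c a b ≤ h0 c * ppw sd o1 a b
  w8 : ∀ c a b, W 8 c a b ≤ vA c * (if sd a = false ∧ sd b = true then 1 else 0)
  w9 : ∀ c a b, vK2 c * ppw sd r2 a b ≤ W 9 c a b
  w10 : ∀ c a b, W 10 c a b ≤ h2 c * ppw sd a2 a b
  w11 : ∀ c a b, W 11 c a b ≤ h3 c * ppw sd o2 a b
  w12 : ∀ c a b, W 12 c a b ≤ vO c * (if sd a = true ∧ sd b = false then 1 else 0)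

section all

variable {m a b E t0 t1 V : ℤ}

lemma bo_ite (p : Prop) [Decidable p] : bo p = if p then (1:ℝ) else 0 := rfl

/-- THE FAMILIES OF `net3W_F` FROM THE DATA -/
theorem fam_in (e : CellE m a b D K ρ E t0 t1) {s2 : ℤ} (hσ : σ = (s2:ℝ) / 2) (hδ : 0 ≤ δ)
    {fs : List Zf} {cs : List Zc} (hz : ZOK d.P fs cs) {s0 : ℕ} {ks ls : List ℕ}
    (hks : ks.length = fs.length) (hls : ls.length = cs.length)
    (hkf : ∀ p ∈ fs.zip ks, KdI M m a b s2 d.P s0 p.1 p.2)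
    (hkc : ∀ p ∈ cs.zip ls, KcI M m a b s2 d.P s0 p.1 p.2) (ι : C → ℕ)
    (hGl : ∀ c, G.lo c = loR d.segs s0 (ι c)) (hGh : ∀ c, G.hi c = hiR d.segs s0 (ι c))
    {s : ℝ} (hs : 0 ≤ s) {sd ou : C → Bool} (hsd : ∀ x, G.ok x → sd (G.cl x) = x.2.1)
    (hou : ∀ x, G.ok x → ou (G.cl x) = true → x.2.2 < -V)
    {m1 m2 vF2 vM0 vM1 vK1 vK2 h1 h0 h2 h3 vO vA r1 r2 a1 o1 a2 o2 : C → ℝ}
    (w : WOK sd ou (fun t c a b => WF d s (fs.zip ks) t (ι c) (ι a) (ι b)
        + WC d s (cs.zip ls) t (ι c) (ι a) (ι b))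
      m1 m2 vF2 vM0 vM1 vK1 vK2 h1 h0 h2 h3 vO vA r1 r2 a1 o1 a2 o2)
    (hn : ∀ c, 0 ≤ vF2 c ∧ 0 ≤ vM0 c ∧ 0 ≤ vM1 c) :
    G.FamZ (fun x y z => famF_P D K ρ t1 (m1 (G.cl x)) (m2 (G.cl x)) x y z
        + famF_C D K ρ V E t1 (vF2 (G.cl x)) (vM0 (G.cl x)) (vM1 (G.cl x))
          (vK1 (G.cl x) * ppw sd r1 (G.cl y) (G.cl z))
          (vK2 (G.cl x) * ppw sd r2 (G.cl y) (G.cl z)) x y z
        - famF_G D K ρ t0 t1 (h1 (G.cl x) * ppw sd a1 (G.cl y) (G.cl z))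
          (h0 (G.cl x) * ppw sd o1 (G.cl y) (G.cl z)) (h2 (G.cl x) * ppw sd a2 (G.cl y) (G.cl z))
          (h3 (G.cl x) * ppw sd o2 (G.cl y) (G.cl z)) (vO (G.cl x)) (vA (G.cl x)) x y z)
      (fun ζ a b i m => lamZ d s0 s fs cs (ι ζ.1, ζ.2) (ι a) (ι b) (z95 i : Fin 5) m)
      ((fs.map fun f => errI M D δ s f).sum + (cs.map fun f => errJ M D δ s f).sum) := by
  set lf := fs.zip ks with hlf
  set lc' := cs.zip ls with hlc
  have mf : ∀ (F : Zf → ℝ), (lf.map fun p => F p.1).sum = (fs.map F).sum := by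
    intro F
    have : lf.map (fun p => F p.1) = (lf.map Prod.fst).map F := by
      rw [List.map_map]
      rfl
    rw [this, hlf, List.map_fst_zip (by omega)]
  have mc : ∀ (F : Zc → ℝ), (lc'.map fun p => F p.1).sum = (cs.map F).sum := by
    intro F
    have : lc'.map (fun p => F p.1) = (lc'.map Prod.fst).map F := by
      rw [List.map_map]
      rfl
    rw [this, hlc, List.map_fst_zip (by omega)]
  have memf : ∀ p ∈ lf, p.1 ∈ fs := fun p hp => (List.of_mem_zip hp).1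
  have memc : ∀ p ∈ lc', p.1 ∈ cs := fun p hp => (List.of_mem_zip hp).1
  have k1 := famZ_sum (G := G) lf (fun p x y z => vF s p.1.g (ι (G.cl x))
      * (flF d p.1.g (ι (G.cl y)) (ι (G.cl z)) * psI D K ρ E t0 t1 p.2 x y z))
    (fun p ζ a b i m => if zfl p.1.zk i = true then lam1 d s0 s p.1.g (ι ζ.1, ζ.2) (ι a) (ι b) m
        else 0) (fun p => errI M D δ s p.1)
    (fun p hp => fam_gfI e hσ hδ (hz.f _ (memf p hp)) (hkf p hp) ι hs)
  have k2 := famZ_sum (G := G) lc' (fun p x y z => vC s p.1.g (ι (G.cl x))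
      * (flC d p.1.g (ι (G.cl y)) (ι (G.cl z)) * psI D K ρ E t0 t1 p.2 x y z))
    (fun p ζ a b i m => if zfl p.1.zk i = true then lamC1 d s0 s p.1.g (ι ζ.1, ζ.2) (ι a) (ι b) m
        else 0) (fun p => errJ M D δ s p.1)
    (fun p hp => fam_gcI e hσ hδ (hz.c _ (memc p hp)) (hkc p hp) ι hGl hGh hs)
  have k3 := k1.add k2
  have el : (fun (ζ : C × ℤ) (a b : C) (i : Fin 9) (m : ℤ) =>
      lamZ d s0 s fs cs (ι ζ.1, ζ.2) (ι a) (ι b) (z95 i : Fin 5) m)
      = fun ζ a b i m => (lf.map fun p => if zfl p.1.zk i = true then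
          lam1 d s0 s p.1.g (ι ζ.1, ζ.2) (ι a) (ι b) m else 0).sum
        + (lc'.map fun p => if zfl p.1.zk i = true then
          lamC1 d s0 s p.1.g (ι ζ.1, ζ.2) (ι a) (ι b) m else 0).sum := by
    funext ζ a b i m
    unfold lamZ
    rw [lamG_sel, lamC_sel, ← mf, ← mc]
  have ee : (fs.map fun f => errI M D δ s f).sum + (cs.map fun f => errJ M D δ s f).sum
      = (lf.map fun p => errI M D δ s p.1).sum + (lc'.map fun p => errJ M D δ s p.1).sum := by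
    rw [← mf, ← mc]
  rw [el, ee]
  refine k3.congr (fun x y z hx hy hz' => ?_) le_rfl
  have f13 : ∀ p ∈ lf, p.2 < 13 := fun p hp => by
    have := (hkf p hp).t9
    omega
  have c13 : ∀ p ∈ lc', p.2 < 13 := fun p hp => (hkc p hp).t9.2
  rw [WF_sum (d := d) s (ι (G.cl x)) (ι (G.cl y)) (ι (G.cl z))
      (fun t => psI D K ρ E t0 t1 t x y z) lf f13,
    WC_sum (d := d) s (ι (G.cl x)) (ι (G.cl y)) (ι (G.cl z))
      (fun t => psI D K ρ E t0 t1 t x y z) lc' c13, ← sum_add_distrib]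
  have e13 : ∀ t, WF d s lf t (ι (G.cl x)) (ι (G.cl y)) (ι (G.cl z)) * psI D K ρ E t0 t1 t x y z
      + WC d s lc' t (ι (G.cl x)) (ι (G.cl y)) (ι (G.cl z)) * psI D K ρ E t0 t1 t x y z
      = (WF d s lf t (ι (G.cl x)) (ι (G.cl y)) (ι (G.cl z))
        + WC d s lc' t (ι (G.cl x)) (ι (G.cl y)) (ι (G.cl z))) * psI D K ρ E t0 t1 t x y z :=
    fun t => by ring
  simp only [e13]
  simp only [sum_range_succ, range_zero, sum_empty, zero_add]
  set W : ℕ → ℝ := fun t => WF d s lf t (ι (G.cl x)) (ι (G.cl y)) (ι (G.cl z))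
    + WC d s lc' t (ι (G.cl x)) (ι (G.cl y)) (ι (G.cl z)) with hW
  have sy := hsd y hy
  have sz := hsd z hz'
  -- the indicators of the classes
  have iS : fS y z = if sd (G.cl y) = sd (G.cl z) then (1:ℝ) else 0 := by
    unfold fS
    rw [sy, sz]
    rfl
  have iPQ : fPQ y z = if sd (G.cl y) = false ∧ sd (G.cl z) = true then (1:ℝ) else 0 := by
    unfold fPQ
    rw [sy, sz]
    rfl
  have iQP : fQP y z = if sd (G.cl y) = true ∧ sd (G.cl z) = false then (1:ℝ) else 0 := by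
    unfold fQP
    rw [sy, sz]
    rfl
  have vz : -V ≤ z.2.2 → ou (G.cl z) = false := fun k => by
    by_contra k'
    have := hou z hz' (by simpa using k')
    omega
  have iQQ : fQQ V y z ≤ if sd (G.cl y) = true ∧ sd (G.cl z) = true ∧ ou (G.cl z) = false
      then (1:ℝ) else 0 := by
    unfold fQQ
    rw [sy, sz]
    exact bo_mono fun k => ⟨k.1, k.2.1, vz k.2.2⟩
  have iPP : fPP V y z ≤ if sd (G.cl y) = false ∧ sd (G.cl z) = false ∧ ou (G.cl z) = false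
      then (1:ℝ) else 0 := by
    unfold fPP
    rw [sy, sz]
    exact bo_mono fun k => ⟨k.1, k.2.1, vz k.2.2⟩
  have nn := hn (G.cl x)
  have tc : ∀ {u w i i' β : ℝ}, 0 ≤ β → 0 ≤ u → i ≤ i' → u * i' ≤ w → u * (i * β) ≤ w * β := by
    intro u w i i' β hβ hu hi h
    have k1 := mul_le_mul_of_nonneg_right ((mul_le_mul_of_nonneg_left hi hu).trans h) hβ
    linarith
  have te : ∀ {u w i β : ℝ}, 0 ≤ β → u * i ≤ w → u * (i * β) ≤ w * β := by
    intro u w i β hβ h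
    have k1 := mul_le_mul_of_nonneg_right h hβ
    linarith
  have tg : ∀ {u w β : ℝ}, 0 ≤ β → w ≤ u → -(u * β) ≤ w * -β := by
    intro u w β hβ h
    have k1 := mul_le_mul_of_nonneg_right h hβ
    linarith
  have ti : ∀ {u w i β : ℝ}, 0 ≤ β → w ≤ u * i → -(u * (i * β)) ≤ w * -β := by
    intro u w i β hβ h
    have k1 := mul_le_mul_of_nonneg_right h hβ
    linarith
  have g0 : m1 (G.cl x) * (fS y z * bo (cA D K ρ t1 + 1 ≤ 2 * lc D x.2 + lab D y z))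
      ≤ W 0 * psI D K ρ E t0 t1 0 x y z := by
    rw [iS]
    exact te (bo_nonneg _) (w.w0 _ _ _)
  have g1 : m2 (G.cl x) * (fS y z * bo (-4 * lc D x.2 + lab D y z ≤ cB D K ρ t1 - 1))
      ≤ W 1 * psI D K ρ E t0 t1 1 x y z := by
    rw [iS]
    exact te (bo_nonneg _) (w.w1 _ _ _)
  have g2 : vF2 (G.cl x) * (fQQ V y z * bo (cB D K ρ t1 ≤ -4 * lc D x.2 + lab D y z))
      ≤ W 2 * psI D K ρ E t0 t1 2 x y z :=
    tc (bo_nonneg _) nn.1 iQQ (w.w2 _ _ _)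
  have g3 : vM0 (G.cl x) * (fPP V y z * bo (-1 * lc D x.2 + lab D y z ≤ FE.cC D K ρ t1))
      ≤ W 3 * psI D K ρ E t0 t1 3 x y z :=
    tc (bo_nonneg _) nn.2.1 iPP (w.w3 _ _ _)
  have g4 : vM1 (G.cl x) * (fPP V y z * bo (-1 * lc D x.2 + lab D y z ≤ FE.cC D K ρ (t1 + E)))
      ≤ W 4 * psI D K ρ E t0 t1 4 x y z :=
    tc (bo_nonneg _) nn.2.2 iPP (w.w4 _ _ _)
  have g5 : vK1 (G.cl x) * ppw sd r1 (G.cl y) (G.cl z)
        * bo (lab D y z ≤ -1 - ρ ∧ 2 * lc D x.2 + lab D y z ≤ cA D K ρ t1)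
      ≤ W 5 * psI D K ρ E t0 t1 5 x y z :=
    mul_le_mul_of_nonneg_right (w.w5 _ _ _) (bo_nonneg _)
  have g6 : -(h1 (G.cl x) * ppw sd a1 (G.cl y) (G.cl z)
        * bo (-ρ ≤ lab D y z ∧ 2 * lc D x.2 + lab D y z ≤ cA D K ρ t1))
      ≤ W 6 * psI D K ρ E t0 t1 6 x y z :=
    tg (bo_nonneg _) (w.w6 _ _ _)
  have g7 : -(h0 (G.cl x) * ppw sd o1 (G.cl y) (G.cl z)
        * bo (-ρ ≤ lab D y z ∧ 2 * lc D x.2 + lab D y z ≤ cA D K ρ t0))
      ≤ W 7 * psI D K ρ E t0 t1 7 x y z :=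
    tg (bo_nonneg _) (w.w7 _ _ _)
  have g8 : -(vA (G.cl x) * (fPQ y z * bo (2 * lc D x.2 + lab D y z ≤ cA D K ρ t0)))
      ≤ W 8 * psI D K ρ E t0 t1 8 x y z := by
    rw [iPQ]
    exact ti (bo_nonneg _) (w.w8 _ _ _)
  have g9 : vK2 (G.cl x) * ppw sd r2 (G.cl y) (G.cl z)
        * bo (lab D y z ≤ -ρ ∧ lc D x.2 + 2 * lab D y z ≤ cL D K ρ t1)
      ≤ W 9 * psI D K ρ E t0 t1 9 x y z :=
    mul_le_mul_of_nonneg_right (w.w9 _ _ _) (bo_nonneg _)
  have g10 : -(h2 (G.cl x) * ppw sd a2 (G.cl y) (G.cl z)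
        * bo (1 - ρ ≤ lab D y z ∧ lc D x.2 + 2 * lab D y z ≤ cL D K ρ t1))
      ≤ W 10 * psI D K ρ E t0 t1 10 x y z :=
    tg (bo_nonneg _) (w.w10 _ _ _)
  have g11 : -(h3 (G.cl x) * ppw sd o2 (G.cl y) (G.cl z)
        * bo (1 - ρ ≤ lab D y z ∧ lc D x.2 + 2 * lab D y z ≤ cL D K ρ t0))
      ≤ W 11 * psI D K ρ E t0 t1 11 x y z :=
    tg (bo_nonneg _) (w.w11 _ _ _)
  have g12 : -(vO (G.cl x) * (fQP y z
        * bo (lab D y z ≤ -1 - ρ ∧ cO D K ρ t1 ≤ lc D x.2 + 2 * lab D y z)))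
      ≤ W 12 * psI D K ρ E t0 t1 12 x y z := by
    rw [iQP]
    exact ti (bo_nonneg _) (w.w12 _ _ _)
  unfold famF_P famF_C famF_G
  linarith

end all

end

end MP61673a.KC
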