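import Pool.Agent.Mu673.FFb

/-!
THE WEIGHTS OF THE FAMILIES OF AN IN CELL FROM A BOOL CHECK (helper10): integer class data, products
of the sampler weight and the pair weight against the multipliers of the data.
-/

set_option autoImplicit false

namespace MP61673a.KC

open Finset MP61673a.Kink MP61673a.Bary MP61673a.Sos MP61673a.Fin MP61673a.FE

/-- multipliers of the families of kind `t`, class `c`, end table `k` -/
def nFk (l : List (Zf × ℕ)) (t c k : ℕ) : ℕ :=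
  sumL (fun p => cond (Nat.beq p.2 t)
    (Nat.mul (Nat.mul (nth 0 p.1.g.mu c) p.1.g.kp) (nth 0 p.1.g.fk k)) 0) l

/-- multipliers of the crude families of kind `t`, class `c`, end table `k` -/
def nCk (l : List (Zc × ℕ)) (t c k : ℕ) : ℕ :=
  sumL (fun p => cond (Nat.beq p.2 t) (Nat.mul (nth 0 p.1.g.mu c) (nth 0 p.1.g.fk k)) 0) l

/-- integer class data. Units: `m1 m2 r1 r2 a1 a2 h1 h0 h2 h3 vO vA` in `1 / ko`, `v2 v0 v1` in
`1 / (2 ko)`, `k1 k2 o1 o2` in `1` -/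
structure WI where
  /-- pole -/
  sd : ℕ → Bool
  /-- surely below `-V` -/
  ou : ℕ → Bool
  /-- moving window, right -/
  m1 : ℕ → ℤ
  /-- moving window, left -/
  m2 : ℕ → ℤ
  /-- exotic labels -/
  v2 : ℕ → ℤ
  /-- midpoints -/
  v0 : ℕ → ℤ
  /-- midpoints with the shift -/
  v1 : ℕ → ℤ
  /-- doubled point, first kernel -/
  k1 : ℕ → ℤ
  /-- doubled point, second kernel -/
  k2 : ℕ → ℤ
  /-- gain -/
  h1 : ℕ → ℤ
  /-- gain -/
  h0 : ℕ → ℤ
  /-- gain -/
  h2 : ℕ → ℤ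
  /-- gain -/
  h3 : ℕ → ℤ
  /-- own gain -/
  vO : ℕ → ℤ
  /-- own gain -/
  vA : ℕ → ℤ
  /-- rest of the first window -/
  r1 : ℕ → ℤ
  /-- rest of the second window -/
  r2 : ℕ → ℤ
  /-- mixture, first kernel -/
  a1 : ℕ → ℤ
  /-- beyond the first window -/
  o1 : ℕ → ℤ
  /-- mixture, second kernel -/
  a2 : ℕ → ℤ
  /-- beyond the second window -/
  o2 : ℕ → ℤ

/-- flags of the gains for a pair of classes -/
def wfChk (lf : List (Zf × ℕ)) (lc : List (Zc × ℕ)) (w : WI) (i j k : ℕ) : Bool :=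
  allL lf (fun p => cond (Nat.beq p.2 6 || Nat.beq p.2 7)
      ((!w.sd i && !w.sd j) || Nat.beq (nth 0 p.1.g.fk k) 0)
      (cond (Nat.beq p.2 8) ((!w.sd i && w.sd j) || Nat.beq (nth 0 p.1.g.fk k) 0) true))
  && allL lc (fun p => cond (Nat.beq p.2 10 || Nat.beq p.2 11)
      ((!w.sd i && !w.sd j) || Nat.beq (nth 0 p.1.g.fk k) 0)
      (cond (Nat.beq p.2 12) ((w.sd i && !w.sd j) || Nat.beq (nth 0 p.1.g.fk k) 0) true))

/-- products of a sampler class and a pair of classes -/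
def wiChk (U ko : ℕ) (lf : List (Zf × ℕ)) (lc : List (Zc × ℕ)) (w : WI) (c i j k : ℕ) : Bool :=
  ((w.sd i && !w.sd j) || (!w.sd i && w.sd j)
    || (decide (w.m1 c * U ≤ ko * nFk lf 0 c k) && decide (w.m2 c * U ≤ ko * nFk lf 1 c k)))
  && (!(w.sd i && w.sd j && !w.ou j) || decide (w.v2 c * U ≤ 2 * ko * nFk lf 2 c k))
  && (!(!w.sd i && !w.sd j)
    || ((w.ou j || (decide (w.v0 c * U ≤ 2 * ko * nFk lf 3 c k)
        && decide (w.v1 c * U ≤ 2 * ko * nFk lf 4 c k)))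
      && decide (w.k1 c * w.r1 j * U ≤ ko * nFk lf 5 c k)
      && decide (ko * ko * nFk lf 6 c k ≤ w.h1 c * w.a1 j * U)
      && decide (ko * nFk lf 7 c k ≤ w.h0 c * w.o1 j * U)
      && decide (w.k2 c * w.r2 j * U ≤ ko * nCk lc 9 c k)
      && decide (ko * ko * nCk lc 10 c k ≤ w.h2 c * w.a2 j * U)
      && decide (ko * nCk lc 11 c k ≤ w.h3 c * w.o2 j * U)))
  && (!(!w.sd i && w.sd j) || decide (ko * nFk lf 8 c k ≤ w.vA c * U))
  && (!(w.sd i && !w.sd j) || decide (ko * nCk lc 12 c k ≤ w.vO c * U))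

/-- THE CHECK OF THE WEIGHTS, `n` classes -/
def wAllChk (d : DatR) (n U ko : ℕ) (lf : List (Zf × ℕ)) (lc : List (Zc × ℕ)) (w : WI) : Bool :=
  allN n (fun i => allN n (fun j => wfChk lf lc w i j (plE d.segs i j).k1
    && allN n (fun c => wiChk U ko lf lc w c i j (plE d.segs i j).k1)))

/-- THE CHECK OF THE KINDS -/
def kndChk (M m a b s2 : ℤ) (P s0 : ℕ) (fs : List Zf) (ks : List ℕ) (gs : List Zc)
    (ls : List ℕ) : Bool :=
  Nat.beq ks.length fs.length && Nat.beq ls.length gs.length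
    && allL (fs.zip ks) (fun p => kdI M m a b s2 P s0 p.1 p.2)
    && allL (gs.zip ls) (fun p => kcI M m a b s2 P s0 p.1 p.2)

noncomputable section

lemma WF_nat (d : DatR) (U : ℕ) (l : List (Zf × ℕ)) (t c a b : ℕ) :
    WF d (1 / (U:ℝ)) l t c a b = (nFk l t c (plE d.segs a b).k1 : ℝ) / U := by
  unfold WF nFk
  rw [sumL_eq]
  induction l with
  | nil => simp
  | cons p l ih =>
    rw [List.map_cons, List.map_cons, List.sum_cons, List.sum_cons, ih]
    push_cast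
    rw [add_div]
    congr 1
    by_cases h : p.2 = t
    · rw [if_pos h, h, Nat.beq_refl, cond_true]
      unfold vF flF
      simp only [Nat.mul_eq]
      push_cast
      ring
    · have e : Nat.beq p.2 t = false := by
        rw [Bool.eq_false_iff]
        exact fun k => h (Nat.eq_of_beq_eq_true k)
      rw [if_neg h, e, cond_false]
      simp

lemma WC_nat (d : DatR) (U : ℕ) (l : List (Zc × ℕ)) (t c a b : ℕ) :
    WC d (1 / (U:ℝ)) l t c a b = (nCk l t c (plE d.segs a b).k1 : ℝ) / U := by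
  unfold WC nCk
  rw [sumL_eq]
  induction l with
  | nil => simp
  | cons p l ih =>
    rw [List.map_cons, List.map_cons, List.sum_cons, List.sum_cons, ih]
    push_cast
    rw [add_div]
    congr 1
    by_cases h : p.2 = t
    · rw [if_pos h, h, Nat.beq_refl, cond_true]
      unfold vC flC
      simp only [Nat.mul_eq]
      push_cast
      ring
    · have e : Nat.beq p.2 t = false := by
        rw [Bool.eq_false_iff]
        exact fun k => h (Nat.eq_of_beq_eq_true k)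
      rw [if_neg h, e, cond_false]
      simp

lemma nFk_zero {l : List (Zf × ℕ)} {t : ℕ} (c k : ℕ)
    (h : ∀ p ∈ l, p.2 = t → nth 0 p.1.g.fk k = 0) : nFk l t c k = 0 := by
  unfold nFk
  rw [sumL_eq]
  refine List.sum_eq_zero fun x hx => ?_
  obtain ⟨p, hp, rfl⟩ := List.mem_map.1 hx
  by_cases e : p.2 = t
  · have := h p hp e
    rw [this]
    cases Nat.beq p.2 t <;> simp
  · have e' : Nat.beq p.2 t = false := by
      rw [Bool.eq_false_iff]
      exact fun k => e (Nat.eq_of_beq_eq_true k)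
    rw [e', cond_false]

lemma nCk_zero {l : List (Zc × ℕ)} {t : ℕ} (c k : ℕ)
    (h : ∀ p ∈ l, p.2 = t → nth 0 p.1.g.fk k = 0) : nCk l t c k = 0 := by
  unfold nCk
  rw [sumL_eq]
  refine List.sum_eq_zero fun x hx => ?_
  obtain ⟨p, hp, rfl⟩ := List.mem_map.1 hx
  by_cases e : p.2 = t
  · have := h p hp e
    rw [this]
    cases Nat.beq p.2 t <;> simp
  · have e' : Nat.beq p.2 t = false := by
      rw [Bool.eq_false_iff]
      exact fun k => e (Nat.eq_of_beq_eq_true k)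
    rw [e', cond_false]

section sound

variable {C : Type} {d : DatR} {n U ko : ℕ} {lf : List (Zf × ℕ)} {lc : List (Zc × ℕ)} {w : WI}
  {ι : C → ℕ}

lemma cost_div {x U' den N : ℝ} (hU : 0 < U') (hd : 0 < den) (h : x * U' ≤ den * N) :
    x / den ≤ N / U' := by
  rw [div_le_div_iff₀ hd hU]
  linarith

lemma gain_div {x U' den N : ℝ} (hU : 0 < U') (hd : 0 < den) (h : den * N ≤ x * U') :
    N / U' ≤ x / den := by
  rw [div_le_div_iff₀ hU hd]
  linarith

/-- THE WEIGHTS FROM THE CHECK -/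
theorem wok_of_chk (hU : 0 < U) (hko : 0 < ko) (h : wAllChk d n U ko lf lc w = true)
    (hf : ∀ p ∈ lf, p.2 < 9) (hc : ∀ p ∈ lc, 9 ≤ p.2) (hι : ∀ c, ι c < n) :
    WOK (fun c : C => w.sd (ι c)) (fun c => w.ou (ι c))
      (fun t c a b => WF d (1 / (U:ℝ)) lf t (ι c) (ι a) (ι b)
        + WC d (1 / (U:ℝ)) lc t (ι c) (ι a) (ι b))
      (fun c => (w.m1 (ι c) : ℝ) / ko) (fun c => (w.m2 (ι c) : ℝ) / ko)
      (fun c => (w.v2 (ι c) : ℝ) / (2 * ko)) (fun c => (w.v0 (ι c) : ℝ) / (2 * ko))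
      (fun c => (w.v1 (ι c) : ℝ) / (2 * ko)) (fun c => (w.k1 (ι c) : ℝ))
      (fun c => (w.k2 (ι c) : ℝ)) (fun c => (w.h1 (ι c) : ℝ) / ko)
      (fun c => (w.h0 (ι c) : ℝ) / ko) (fun c => (w.h2 (ι c) : ℝ) / ko)
      (fun c => (w.h3 (ι c) : ℝ) / ko) (fun c => (w.vO (ι c) : ℝ) / ko)
      (fun c => (w.vA (ι c) : ℝ) / ko) (fun c => (w.r1 (ι c) : ℝ) / ko)
      (fun c => (w.r2 (ι c) : ℝ) / ko) (fun c => (w.a1 (ι c) : ℝ) / ko)
      (fun c => (w.o1 (ι c) : ℝ)) (fun c => (w.a2 (ι c) : ℝ) / ko)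
      (fun c => (w.o2 (ι c) : ℝ)) := by
  have hU' : (0:ℝ) < U := by exact_mod_cast hU
  have hk' : (0:ℝ) < ko := by exact_mod_cast hko
  have h2k : (0:ℝ) < 2 * ko := by positivity
  have hkk : (0:ℝ) < ko * ko := by positivity
  -- the checks
  have hp : ∀ a b : C, wfChk lf lc w (ι a) (ι b) (plE d.segs (ι a) (ι b)).k1 = true
      ∧ ∀ c : C, wiChk U ko lf lc w (ι c) (ι a) (ι b) (plE d.segs (ι a) (ι b)).k1 = true := by
    intro a b
    have h1 := (allN_iff _ _).1 ((allN_iff _ _).1 h (ι a) (hι a)) (ι b) (hι b)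
    rw [Bool.and_eq_true] at h1
    exact ⟨h1.1, fun c => (allN_iff _ _).1 h1.2 (ι c) (hι c)⟩
  -- the weights
  have eF : ∀ t < 9, ∀ c a b : C, WF d (1 / (U:ℝ)) lf t (ι c) (ι a) (ι b)
      + WC d (1 / (U:ℝ)) lc t (ι c) (ι a) (ι b)
      = (nFk lf t (ι c) (plE d.segs (ι a) (ι b)).k1 : ℝ) / U := by
    intro t ht c a b
    rw [WF_nat, WC_nat, nCk_zero (l := lc) (t := t) _ _ (fun p hp e => by
      have := hc p hp
      omega)]
    simp
  have eC : ∀ t, 9 ≤ t → ∀ c a b : C, WF d (1 / (U:ℝ)) lf t (ι c) (ι a) (ι b)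
      + WC d (1 / (U:ℝ)) lc t (ι c) (ι a) (ι b)
      = (nCk lc t (ι c) (plE d.segs (ι a) (ι b)).k1 : ℝ) / U := by
    intro t ht c a b
    rw [WF_nat, WC_nat, nFk_zero (l := lf) (t := t) _ _ (fun p hp e => by
      have := hf p hp
      omega)]
    simp
  have nn : ∀ x : ℕ, (0:ℝ) ≤ (x:ℝ) / U := fun x => by positivity
  -- one triple
  have key : ∀ c a b : C,
      (w.sd (ι a) = w.sd (ι b) →
        w.m1 (ι c) * U ≤ ko * nFk lf 0 (ι c) (plE d.segs (ι a) (ι b)).k1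
        ∧ w.m2 (ι c) * U ≤ ko * nFk lf 1 (ι c) (plE d.segs (ι a) (ι b)).k1)
      ∧ (w.sd (ι a) = true ∧ w.sd (ι b) = true ∧ w.ou (ι b) = false →
        w.v2 (ι c) * U ≤ 2 * ko * nFk lf 2 (ι c) (plE d.segs (ι a) (ι b)).k1)
      ∧ (w.sd (ι a) = false ∧ w.sd (ι b) = false ∧ w.ou (ι b) = false →
        w.v0 (ι c) * U ≤ 2 * ko * nFk lf 3 (ι c) (plE d.segs (ι a) (ι b)).k1
        ∧ w.v1 (ι c) * U ≤ 2 * ko * nFk lf 4 (ι c) (plE d.segs (ι a) (ι b)).k1)
      ∧ (w.sd (ι a) = false ∧ w.sd (ι b) = false →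
        w.k1 (ι c) * w.r1 (ι b) * U ≤ ko * nFk lf 5 (ι c) (plE d.segs (ι a) (ι b)).k1
        ∧ ko * ko * nFk lf 6 (ι c) (plE d.segs (ι a) (ι b)).k1 ≤ w.h1 (ι c) * w.a1 (ι b) * U
        ∧ ko * nFk lf 7 (ι c) (plE d.segs (ι a) (ι b)).k1 ≤ w.h0 (ι c) * w.o1 (ι b) * U
        ∧ w.k2 (ι c) * w.r2 (ι b) * U ≤ ko * nCk lc 9 (ι c) (plE d.segs (ι a) (ι b)).k1
        ∧ ko * ko * nCk lc 10 (ι c) (plE d.segs (ι a) (ι b)).k1 ≤ w.h2 (ι c) * w.a2 (ι b) * U
        ∧ ko * nCk lc 11 (ι c) (plE d.segs (ι a) (ι b)).k1 ≤ w.h3 (ι c) * w.o2 (ι b) * U)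
      ∧ (w.sd (ι a) = false ∧ w.sd (ι b) = true →
        ko * nFk lf 8 (ι c) (plE d.segs (ι a) (ι b)).k1 ≤ w.vA (ι c) * U)
      ∧ (w.sd (ι a) = true ∧ w.sd (ι b) = false →
        ko * nCk lc 12 (ι c) (plE d.segs (ι a) (ι b)).k1 ≤ w.vO (ι c) * U) := by
    intro c a b
    have h1 := (hp a b).2 c
    unfold wiChk at h1
    rcases ha : w.sd (ι a) with _ | _ <;> rcases hb : w.sd (ι b) with _ | _ <;>
      rcases ho : w.ou (ι b) with _ | _ <;>
      simp only [ha, hb, ho, Bool.not_true, Bool.not_false, Bool.and_true, Bool.and_false,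
        Bool.true_and, Bool.or_true, Bool.or_false, Bool.true_or, Bool.false_or,
        Bool.and_eq_true, decide_eq_true_eq] at h1 <;> simp_all
  have pp : ∀ (r : C → ℝ) (a b : C), w.sd (ι a) = false → w.sd (ι b) = false →
      ppw (fun c : C => w.sd (ι c)) r a b = r b := fun r a b ha hb => by
    unfold ppw
    rw [if_pos ⟨ha, hb⟩]
  have pn : ∀ (r : C → ℝ) (a b : C), ¬ (w.sd (ι a) = false ∧ w.sd (ι b) = false) →
      ppw (fun c : C => w.sd (ι c)) r a b = 0 := fun r a b h => by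
    unfold ppw
    rw [if_neg h]
  -- the gains vanish on the other pairs
  have zf : ∀ (t : ℕ) (c a b : C), (t = 6 ∨ t = 7) →
      ¬ (w.sd (ι a) = false ∧ w.sd (ι b) = false) →
      nFk lf t (ι c) (plE d.segs (ι a) (ι b)).k1 = 0 := by
    intro t c a b ht hab
    refine nFk_zero _ _ fun p hp' e => ?_
    have h1 := (hp a b).1
    unfold wfChk at h1
    rw [Bool.and_eq_true] at h1
    have h2 := (allL_iff _ _).1 h1.1 p hp'
    have e1 : (Nat.beq p.2 6 || Nat.beq p.2 7) = true := by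
      rcases ht with rfl | rfl <;> rw [e] <;> rfl
    have e2 : (!w.sd (ι a) && !w.sd (ι b)) = false := by
      rcases ha : w.sd (ι a) with _ | _ <;> rcases hb : w.sd (ι b) with _ | _ <;> simp_all
    rw [e1, cond_true, e2, Bool.false_or] at h2
    exact Nat.eq_of_beq_eq_true h2
  have z8 : ∀ (c a b : C), ¬ (w.sd (ι a) = false ∧ w.sd (ι b) = true) →
      nFk lf 8 (ι c) (plE d.segs (ι a) (ι b)).k1 = 0 := by
    intro c a b hab
    refine nFk_zero _ _ fun p hp' e => ?_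
    have h1 := (hp a b).1
    unfold wfChk at h1
    rw [Bool.and_eq_true] at h1
    have h2 := (allL_iff _ _).1 h1.1 p hp'
    have e2 : (!w.sd (ι a) && w.sd (ι b)) = false := by
      rcases ha : w.sd (ι a) with _ | _ <;> rcases hb : w.sd (ι b) with _ | _ <;> simp_all
    rw [e] at h2
    have e1 : (Nat.beq 8 6 || Nat.beq 8 7) = false := rfl
    have e3 : Nat.beq 8 8 = true := rfl
    rw [e1, cond_false, e3, cond_true, e2, Bool.false_or] at h2
    exact Nat.eq_of_beq_eq_true h2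
  have zc : ∀ (t : ℕ) (c a b : C), (t = 10 ∨ t = 11) →
      ¬ (w.sd (ι a) = false ∧ w.sd (ι b) = false) →
      nCk lc t (ι c) (plE d.segs (ι a) (ι b)).k1 = 0 := by
    intro t c a b ht hab
    refine nCk_zero _ _ fun p hp' e => ?_
    have h1 := (hp a b).1
    unfold wfChk at h1
    rw [Bool.and_eq_true] at h1
    have h2 := (allL_iff _ _).1 h1.2 p hp'
    have e1 : (Nat.beq p.2 10 || Nat.beq p.2 11) = true := by
      rcases ht with rfl | rfl <;> rw [e] <;> rfl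
    have e2 : (!w.sd (ι a) && !w.sd (ι b)) = false := by
      rcases ha : w.sd (ι a) with _ | _ <;> rcases hb : w.sd (ι b) with _ | _ <;> simp_all
    rw [e1, cond_true, e2, Bool.false_or] at h2
    exact Nat.eq_of_beq_eq_true h2
  have z12 : ∀ (c a b : C), ¬ (w.sd (ι a) = true ∧ w.sd (ι b) = false) →
      nCk lc 12 (ι c) (plE d.segs (ι a) (ι b)).k1 = 0 := by
    intro c a b hab
    refine nCk_zero _ _ fun p hp' e => ?_
    have h1 := (hp a b).1
    unfold wfChk at h1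
    rw [Bool.and_eq_true] at h1
    have h2 := (allL_iff _ _).1 h1.2 p hp'
    have e2 : (w.sd (ι a) && !w.sd (ι b)) = false := by
      rcases ha : w.sd (ι a) with _ | _ <;> rcases hb : w.sd (ι b) with _ | _ <;> simp_all
    rw [e] at h2
    have e1 : (Nat.beq 12 10 || Nat.beq 12 11) = false := rfl
    have e3 : Nat.beq 12 12 = true := rfl
    rw [e1, cond_false, e3, cond_true, e2, Bool.false_or] at h2
    exact Nat.eq_of_beq_eq_true h2
  refine ⟨?_, ?_, ?_, ?_, ?_, ?_, ?_, ?_, ?_, ?_, ?_, ?_, ?_⟩ <;> intro c a b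
  · rw [eF 0 (by norm_num)]
    split_ifs with hs
    · rw [mul_one]
      exact cost_div hU' hk' (by exact_mod_cast ((key c a b).1 hs).1)
    · rw [mul_zero]
      exact nn _
  · rw [eF 1 (by norm_num)]
    split_ifs with hs
    · rw [mul_one]
      exact cost_div hU' hk' (by exact_mod_cast ((key c a b).1 hs).2)
    · rw [mul_zero]
      exact nn _
  · rw [eF 2 (by norm_num)]
    split_ifs with hs
    · rw [mul_one]
      exact cost_div hU' h2k (by exact_mod_cast (key c a b).2.1 hs)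
    · rw [mul_zero]
      exact nn _
  · rw [eF 3 (by norm_num)]
    split_ifs with hs
    · rw [mul_one]
      exact cost_div hU' h2k (by exact_mod_cast ((key c a b).2.2.1 hs).1)
    · rw [mul_zero]
      exact nn _
  · rw [eF 4 (by norm_num)]
    split_ifs with hs
    · rw [mul_one]
      exact cost_div hU' h2k (by exact_mod_cast ((key c a b).2.2.1 hs).2)
    · rw [mul_zero]
      exact nn _
  · rw [eF 5 (by norm_num)]
    by_cases hs : w.sd (ι a) = false ∧ w.sd (ι b) = false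
    · rw [pp _ a b hs.1 hs.2, ← mul_div_assoc]
      exact cost_div hU' hk' (by exact_mod_cast ((key c a b).2.2.2.1 hs).1)
    · rw [pn _ a b hs, mul_zero]
      exact nn _
  · rw [eF 6 (by norm_num)]
    by_cases hs : w.sd (ι a) = false ∧ w.sd (ι b) = false
    · rw [pp _ a b hs.1 hs.2, div_mul_div_comm]
      exact gain_div hU' hkk (by exact_mod_cast ((key c a b).2.2.2.1 hs).2.1)
    · rw [pn _ a b hs, mul_zero, zf 6 c a b (Or.inl rfl) hs]
      simp
  · rw [eF 7 (by norm_num)]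
    by_cases hs : w.sd (ι a) = false ∧ w.sd (ι b) = false
    · rw [pp _ a b hs.1 hs.2, div_mul_eq_mul_div]
      exact gain_div hU' hk' (by exact_mod_cast ((key c a b).2.2.2.1 hs).2.2.1)
    · rw [pn _ a b hs, mul_zero, zf 7 c a b (Or.inr rfl) hs]
      simp
  · rw [eF 8 (by norm_num)]
    split_ifs with hs
    · rw [mul_one]
      exact gain_div hU' hk' (by exact_mod_cast (key c a b).2.2.2.2.1 hs)
    · rw [mul_zero, z8 c a b hs]
      simp
  · rw [eC 9 (by norm_num)]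
    by_cases hs : w.sd (ι a) = false ∧ w.sd (ι b) = false
    · rw [pp _ a b hs.1 hs.2, ← mul_div_assoc]
      exact cost_div hU' hk' (by exact_mod_cast ((key c a b).2.2.2.1 hs).2.2.2.1)
    · rw [pn _ a b hs, mul_zero]
      exact nn _
  · rw [eC 10 (by norm_num)]
    by_cases hs : w.sd (ι a) = false ∧ w.sd (ι b) = false
    · rw [pp _ a b hs.1 hs.2, div_mul_div_comm]
      exact gain_div hU' hkk (by exact_mod_cast ((key c a b).2.2.2.1 hs).2.2.2.2.1)
    · rw [pn _ a b hs, mul_zero, zc 10 c a b (Or.inl rfl) hs]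
      simp
  · rw [eC 11 (by norm_num)]
    by_cases hs : w.sd (ι a) = false ∧ w.sd (ι b) = false
    · rw [pp _ a b hs.1 hs.2, div_mul_eq_mul_div]
      exact gain_div hU' hk' (by exact_mod_cast ((key c a b).2.2.2.1 hs).2.2.2.2.2)
    · rw [pn _ a b hs, mul_zero, zc 11 c a b (Or.inr rfl) hs]
      simp
  · rw [eC 12 (by norm_num)]
    split_ifs with hs
    · rw [mul_one]
      exact gain_div hU' hk' (by exact_mod_cast (key c a b).2.2.2.2.2 hs)
    · rw [mul_zero, z12 c a b hs]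
      simp

/-- THE KINDS FROM THE CHECK -/
lemma kndChk_imp {M m a b s2 : ℤ} {P s0 : ℕ} {fs : List Zf} {ks : List ℕ} {gs : List Zc}
    {ls : List ℕ} (h : kndChk M m a b s2 P s0 fs ks gs ls = true) :
    ks.length = fs.length ∧ ls.length = gs.length
      ∧ (∀ p ∈ fs.zip ks, KdI M m a b s2 P s0 p.1 p.2)
      ∧ ∀ p ∈ gs.zip ls, KcI M m a b s2 P s0 p.1 p.2 := by
  unfold kndChk at h
  simp only [Bool.and_eq_true] at h
  obtain ⟨⟨⟨h1, h2⟩, h3⟩, h4⟩ := h
  exact ⟨Nat.eq_of_beq_eq_true h1, Nat.eq_of_beq_eq_true h2,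
    fun p hp => kdI_imp ((allL_iff _ _).1 h3 p hp), fun p hp => kcI_imp ((allL_iff _ _).1 h4 p hp)⟩

/-- THE FAMILIES OF `net3W_F` FROM THE TWO CHECKS -/
theorem fam_in_chk {M : ℕ} {σ δ : ℝ} {D K ρ : ℤ} {kL kR : ℝ} {G : GrdD C M σ δ D K ρ kL kR}
    {m a b E t0 t1 V : ℤ} (e : CellE m a b D K ρ E t0 t1) {s2 : ℤ} (hσ : σ = (s2:ℝ) / 2)
    (hδ : 0 ≤ δ) {fs : List Zf} {gs : List Zc} (hz : ZOK d.P fs gs) {s0 : ℕ} {ks ls : List ℕ}
    (hk : kndChk M m a b s2 d.P s0 fs ks gs ls = true) (hU : 0 < U) (hko : 0 < ko)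
    (hw : wAllChk d n U ko (fs.zip ks) (gs.zip ls) w = true) (hι : ∀ c, ι c < n)
    (hGl : ∀ c, G.lo c = loR d.segs s0 (ι c)) (hGh : ∀ c, G.hi c = hiR d.segs s0 (ι c))
    (hsd : ∀ x, G.ok x → w.sd (ι (G.cl x)) = x.2.1)
    (hou : ∀ x, G.ok x → w.ou (ι (G.cl x)) = true → x.2.2 < -V)
    (hn : ∀ c, 0 ≤ w.v2 (ι c) ∧ 0 ≤ w.v0 (ι c) ∧ 0 ≤ w.v1 (ι c)) :
    G.FamZ (fun x y z => famF_P D K ρ t1 ((w.m1 (ι (G.cl x)) : ℝ) / ko)
          ((w.m2 (ι (G.cl x)) : ℝ) / ko) x y z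
        + famF_C D K ρ V E t1 ((w.v2 (ι (G.cl x)) : ℝ) / (2 * ko))
          ((w.v0 (ι (G.cl x)) : ℝ) / (2 * ko)) ((w.v1 (ι (G.cl x)) : ℝ) / (2 * ko))
          ((w.k1 (ι (G.cl x)) : ℝ) * ppw (fun c => w.sd (ι c)) (fun c => (w.r1 (ι c) : ℝ) / ko)
            (G.cl y) (G.cl z))
          ((w.k2 (ι (G.cl x)) : ℝ) * ppw (fun c => w.sd (ι c)) (fun c => (w.r2 (ι c) : ℝ) / ko)
            (G.cl y) (G.cl z)) x y z
        - famF_G D K ρ t0 t1
          ((w.h1 (ι (G.cl x)) : ℝ) / ko * ppw (fun c => w.sd (ι c))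
            (fun c => (w.a1 (ι c) : ℝ) / ko) (G.cl y) (G.cl z))
          ((w.h0 (ι (G.cl x)) : ℝ) / ko * ppw (fun c => w.sd (ι c))
            (fun c => (w.o1 (ι c) : ℝ)) (G.cl y) (G.cl z))
          ((w.h2 (ι (G.cl x)) : ℝ) / ko * ppw (fun c => w.sd (ι c))
            (fun c => (w.a2 (ι c) : ℝ) / ko) (G.cl y) (G.cl z))
          ((w.h3 (ι (G.cl x)) : ℝ) / ko * ppw (fun c => w.sd (ι c))
            (fun c => (w.o2 (ι c) : ℝ)) (G.cl y) (G.cl z))
          ((w.vO (ι (G.cl x)) : ℝ) / ko) ((w.vA (ι (G.cl x)) : ℝ) / ko) x y z)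
      (fun ζ a b i m => lamZ d s0 (1 / (U:ℝ)) fs gs (ι ζ.1, ζ.2) (ι a) (ι b) (z95 i : Fin 5) m)
      ((fs.map fun f => errI M D δ (1 / (U:ℝ)) f).sum
        + (gs.map fun f => errJ M D δ (1 / (U:ℝ)) f).sum) := by
  obtain ⟨k1, k2, k3, k4⟩ := kndChk_imp hk
  refine fam_in e hσ hδ hz k1 k2 k3 k4 ι hGl hGh (by positivity) hsd hou
    (wok_of_chk hU hko hw (fun p hp => (k3 p hp).t9) (fun p hp => (k4 p hp).t9.1) hι)
    (fun c => ?_)
  obtain ⟨n1, n2, n3⟩ := hn c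
  have hk' : (0:ℝ) < ko := by exact_mod_cast hko
  have n1' : (0:ℝ) ≤ (w.v2 (ι c) : ℝ) := by exact_mod_cast n1
  have n2' : (0:ℝ) ≤ (w.v0 (ι c) : ℝ) := by exact_mod_cast n2
  have n3' : (0:ℝ) ≤ (w.v1 (ι c) : ℝ) := by exact_mod_cast n3
  exact ⟨by positivity, by positivity, by positivity⟩

end sound

/-! ### Errors -/

lemma errI_nonneg {M : ℕ} {D : ℤ} (hD : 0 < D) {δ s : ℝ} (hδ : 0 ≤ δ) (hs : 0 ≤ s) (f : Zf) :
    0 ≤ errI M D δ s f := by
  have hD0 : (0:ℝ) < D := by exact_mod_cast hD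
  unfold errI
  positivity

lemma errJ_nonneg {M : ℕ} {D : ℤ} (hD : 0 < D) {δ s : ℝ} (hδ : 0 ≤ δ) (hs : 0 ≤ s) (f : Zc) :
    0 ≤ errJ M D δ s f := by
  have hD0 : (0:ℝ) < D := by exact_mod_cast hD
  unfold errJ
  positivity

/-- the error of all families with `δ = c / D` is a constant over `D` -/
lemma err_div (M : ℕ) (D : ℤ) (c s : ℝ) (fs : List Zf) (gs : List Zc) :
    (fs.map fun f => errI M D (c / D) s f).sum + (gs.map fun f => errJ M D (c / D) s f).sum
      = ((fs.map fun f => errI M 1 (c / (1:ℤ)) s f).sum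
        + (gs.map fun f => errJ M 1 (c / (1:ℤ)) s f).sum) / D := by
  have e1 : (fun f => errI M D (c / D) s f) = fun f => errI M 1 (c / (1:ℤ)) s f / D := by
    funext f
    unfold errI
    push_cast
    ring
  have e2 : (fun f => errJ M D (c / D) s f) = fun f => errJ M 1 (c / (1:ℤ)) s f / D := by
    funext f
    unfold errJ
    push_cast
    ring
  have sd : ∀ {α : Type} (g : α → ℝ) (l : List α), (l.map fun f => g f / (D:ℝ)).sum
      = (l.map g).sum / D := by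
    intro α g l
    induction l with
    | nil => simp
    | cons x l ih =>
      rw [List.map_cons, List.sum_cons, ih, List.map_cons, List.sum_cons, add_div]
  rw [e1, e2, sd, sd, add_div]

lemma err_nonneg {M : ℕ} {D : ℤ} (hD : 0 < D) {δ s : ℝ} (hδ : 0 ≤ δ) (hs : 0 ≤ s)
    (fs : List Zf) (gs : List Zc) :
    0 ≤ (fs.map fun f => errI M D δ s f).sum + (gs.map fun f => errJ M D δ s f).sum := by
  refine add_nonneg (List.sum_nonneg fun x hx => ?_) (List.sum_nonneg fun x hx => ?_)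
  · obtain ⟨f, _, rfl⟩ := List.mem_map.1 hx
    exact errI_nonneg hD hδ hs f
  · obtain ⟨f, _, rfl⟩ := List.mem_map.1 hx
    exact errJ_nonneg hD hδ hs f

end

end MP61673a.KC
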