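import Pool.Agent.Mu673.FF4
import Pool.Agent.Mu673.FFc

/-!
THE FAMILIES OF AN IN CELL FROM THE RECORD (helper10): one Bool check gives `FamI` of `RowIn2`.
-/

set_option autoImplicit false

namespace MP61673a.RowI9

open Finset MP61673a.W MP61673a.Kink MP61673a.Bary MP61673a.Sos MP61673a.Fin MP61673a.FE MP61673a.KC
open MP61673a.RowI MP61673a.Row9 MP61673a.CkI

namespace RI

variable (A : RI)

/-- integer class data of the record -/
def wiR (W : NW) : WI where
  sd := fun c => (clN A.cs c).sd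
  ou := fun c => vOc A.p.q (clN A.cs c)
  m1 := fun c => nth 0 A.m1 c
  m2 := fun c => nth 0 A.m2 c
  v2 := fun c => nth 0 W.v2 c
  v0 := fun c => nth 0 W.v0 c
  v1 := fun c => nth 0 W.v1 c
  k1 := fun c => nth 0 W.vk1 c
  k2 := fun c => nth 0 W.vk2 c
  h1 := fun c => nth 0 W.h1 c
  h0 := fun c => nth 0 W.h0 c
  h2 := fun c => nth 0 W.h2 c
  h3 := fun c => nth 0 W.h3 c
  vO := fun c => nth 0 W.vO c
  vA := fun c => nth 0 W.vA c
  r1 := fun c => if (clN A.cs c).sd then 0 else A.ko * A.w1I c - nth 0 A.a1 c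
  r2 := fun c => if (clN A.cs c).sd then 0 else A.ko * A.w2I c - nth 0 A.a2 c
  a1 := fun c => nth 0 A.a1 c
  o1 := fun c => if (clN A.cs c).sd = false ∧ abv A.p.q (2 * A.p.a) A.p.m (clN A.cs c) = true
    then 1 else 0
  a2 := fun c => nth 0 A.a2 c
  o2 := fun c => if (clN A.cs c).sd = false ∧ abv A.p.q A.p.a (2 * A.p.m) (clN A.cs c) = true
    then 1 else 0

/-- THE CHECK OF THE FAMILIES -/
def chkFam (W : NW) : Bool :=
  kndChk A.p.M A.p.m A.p.a A.p.b A.p.s2 A.d.P A.s0 A.fs W.ks A.gs W.ls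
    && wAllChk A.d A.cs.length A.U A.ko (A.fs.zip W.ks) (A.gs.zip W.ls) (A.wiR W)

end RI

noncomputable section

variable {A : RI} {W : NW}

/-- the constant of the errors of the families -/
def cFam (A : RI) : ℝ :=
  (A.fs.map fun f => errI A.p.M 1 (12 * (A.p.M : ℝ) / (1:ℤ)) (1 / (A.U:ℝ)) f).sum
    + (A.gs.map fun f => errJ A.p.M 1 (12 * (A.p.M : ℝ) / (1:ℤ)) (1 / (A.U:ℝ)) f).sum

lemma cFam_nonneg (A : RI) : 0 ≤ cFam A := by
  unfold cFam
  refine err_nonneg (by norm_num) ?_ (by positivity) _ _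
  positivity

/-- remaining weight of a class of `P`, first window -/
lemma ppw_r1 (g : A.GOK) (c d : Fin A.cs.length) :
    ppw (fun c : Fin A.cs.length => (clN A.cs c).sd) (fun c => w1W A c - A.wr A.a1 c) c d
      = ppw (fun c : Fin A.cs.length => (clN A.cs c).sd)
        (fun c => (((A.wiR W).r1 c : ℤ) : ℝ) / A.ko) c d := by
  unfold ppw
  split_ifs with h
  · have hk := g.ko_pos
    unfold w1W wF1 RI.wiR RI.w1I RI.wr
    simp only [h.2, Bool.false_eq_true, if_false]
    push_cast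
    field_simp
  · rfl

/-- remaining weight of a class of `P`, second window -/
lemma ppw_r2 (g : A.GOK) (c d : Fin A.cs.length) :
    ppw (fun c : Fin A.cs.length => (clN A.cs c).sd) (fun c => w2W A c - A.wr A.a2 c) c d
      = ppw (fun c : Fin A.cs.length => (clN A.cs c).sd)
        (fun c => (((A.wiR W).r2 c : ℤ) : ℝ) / A.ko) c d := by
  unfold ppw
  split_ifs with h
  · have hk := g.ko_pos
    unfold w2W wF2 RI.wiR RI.w2I RI.wr
    simp only [h.2, Bool.false_eq_true, if_false]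
    push_cast
    field_simp
  · rfl

lemma o1_eq (c : Fin A.cs.length) : o1W A c = (((A.wiR W).o1 c : ℤ) : ℝ) := by
  unfold o1W oF1 RI.wiR
  dsimp only
  split_ifs <;> simp

lemma o2_eq (c : Fin A.cs.length) : o2W A c = (((A.wiR W).o2 c : ℤ) : ℝ) := by
  unfold o2W oF2 RI.wiR
  dsimp only
  split_ifs <;> simp

/-- THE FAMILIES FROM THE CHECK (`FamI A W (cFam A)` of `RowIn2`) -/
theorem famI_of (hO : NetOK A W) (h : A.chkFam W = true) {D K V E t0 t1 : ℤ}
    {cl : P4 → Fin A.cs.length} (g : A.GOK) (hD : D = 4 * K + 1) (hK : 1 ≤ K) (hK1 : 10000 ≤ K)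
    (hV : V = D / 8) (_hE0 : 0 ≤ E) (hE : 40 * E ≤ D) (hc : CellAt A.p.m A.p.a A.p.b D t0 t1)
    (ht : A.p.b * D < A.p.m * t1 + A.p.m)
    (hcl : ClMap (fun i : Fin A.cs.length => A.cs.get i) A.p.q D K cl) :
    (mkGrd g.pos.q hD hK g.cs.runF hcl).FamZ
      (phiI A W (mkGrd g.pos.q hD hK g.cs.runF hcl) V E t0 t1) A.lamT (cFam A / D) := by
  unfold RI.chkFam at h
  rw [Bool.and_eq_true] at h
  obtain ⟨h1, h2⟩ := h
  have hD0 : (0:ℝ) < D := by exact_mod_cast (by omega : 0 < D)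
  have hr := rho_le D
  have e : CellE A.p.m A.p.a A.p.b D K (rhoE D) E t0 t1 :=
    ⟨hD, hK, by omega, hr.1, hr.2, hc.m0, hc.h0.le, ht.le, hc.h1, hE⟩
  have hhas : ∀ x : P4, InR D K x.2 → (clN A.cs (cl x)).has A.p.q D x.2 := fun x hx => by
    rw [clN_get]
    exact hcl.has x hx
  have key := fam_in_chk (C := Fin A.cs.length) (d := A.d) (n := A.cs.length) (U := A.U)
    (ko := A.ko) (w := A.wiR W) (ι := fun c : Fin A.cs.length => (c:ℕ))
    (G := mkGrd g.pos.q hD hK g.cs.runF hcl) (V := V) e (s2 := A.p.s2) rfl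
    (by positivity) g.z (s0 := A.s0) h1 g.U g.ko h2 (fun c => c.2)
    (fun c => by
      have := g.cs.lo c c.2
      rw [clN_get] at this
      exact this)
    (fun c => by
      have := g.cs.hi c c.2
      rw [clN_get] at this
      exact this)
    (fun x hx => (hhas x hx).1.symm)
    (fun x hx ho => by
      rw [hV]
      exact vOc_lt g.pos.q hD hK (hhas x hx) ho)
    (fun c => by
      rcases hs : (clN A.cs c).sd with _ | _
      · have z := (hO.P c c.2 hs).z
        have e2 : (A.wiR W).v2 c = 0 := z W.v2 (by simp)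
        have e0 : (A.wiR W).v0 c = 0 := z W.v0 (by simp)
        have e1 : (A.wiR W).v1 c = 0 := z W.v1 (by simp)
        rw [e2, e0, e1]
        exact ⟨le_rfl, le_rfl, le_rfl⟩
      · have z := (hO.Q c c.2 hs).pos
        exact ⟨z W.v2 (by simp), z W.v0 (by simp), z W.v1 (by simp)⟩)
  have eE := err_div A.p.M D (12 * (A.p.M:ℝ)) (1 / (A.U:ℝ)) A.fs A.gs
  have eE' : ((A.fs.map fun f => errI A.p.M D (12 * (A.p.M:ℝ) / D) (1 / (A.U:ℝ)) f).sum
      + (A.gs.map fun f => errJ A.p.M D (12 * (A.p.M:ℝ) / D) (1 / (A.U:ℝ)) f).sum)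
      = cFam A / D := eE
  rw [eE'] at key
  intro x y z hx hy hz
  have k := key x y z hx hy hz
  refine le_trans (le_of_eq ?_) k
  beta_reduce
  unfold phiI
  rw [ppw_r1 (W := W) g, ppw_r2 (W := W) g,
    show (fun c : Fin A.cs.length => o1W A c)
      = fun c : Fin A.cs.length => (((A.wiR W).o1 c : ℤ) : ℝ) from funext fun c => o1_eq c,
    show (fun c : Fin A.cs.length => o2W A c)
      = fun c : Fin A.cs.length => (((A.wiR W).o2 c : ℤ) : ℝ) from funext fun c => o2_eq c]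
  rfl

end

end MP61673a.RowI9
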