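import Pool.Agent.Mu673.FactO

/-!
THE FACTS OF A CELL, general form (helper28). A fact of the data has node values; their piecewise
linear interpolation, minus `0` or `1` times the value of the light share, is `≥ 0` on the real
interval of positions of every class. This covers the light share and the moment facts of classes
with an end inside a mesh cell.
-/

set_option autoImplicit false

namespace MP61673a.RowO

open Finset MP61673a.W MP61673a.Kink MP61673a.Bary MP61673a.Sos MP61673a.Fin MP61673a.FE MP61673a.KC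

noncomputable section

/-! ### Positions of the points of a class -/

/-- lower end of the positions of a class, times `2 q` -/
def endL (M : ℕ) (s2 q : ℤ) (c : Cl) : ℤ :=
  if c.sd = false then
    (if c.bt = true then 2 * q * c.lo else min (2 * q * c.hi) (2 * M * c.na - s2 * q))
  else min (2 * q * c.hi) (2 * M * (q - c.nb) - s2 * q)

/-- upper end of the positions of a class, times `2 q` -/
def endU (M : ℕ) (s2 q : ℤ) (c : Cl) : ℤ :=
  if c.sd = false then max (2 * q * c.lo) (2 * M * c.nb - s2 * q)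
  else
    (if c.bt = true then 2 * q * c.hi else max (2 * q * c.lo) (2 * M * (q - c.na) - s2 * q))

lemma pos_ends {M : ℕ} {s2 q D : ℤ} {c : Cl} (hq : 0 < q) (hD : 0 < D) (hlh : c.lo ≤ c.hi)
    {x : P3} (hx : c.has q D x) :
    (endL M s2 q c : ℝ) ≤ 2 * q * c.pos M (s2 / 2) D x
      ∧ 2 * q * c.pos M (s2 / 2) D x ≤ endU M s2 q c := by
  have hDp : (0:ℝ) < D := by exact_mod_cast hD
  have hqp : (0:ℝ) < q := by exact_mod_cast hq
  have hM0 : (0:ℝ) ≤ M := Nat.cast_nonneg M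
  obtain ⟨m1, m2⟩ := Cl.pos_mem (M := M) (σ := (s2:ℝ) / 2) (D := D) hlh x
  have hs := Cl.has_sd hx
  have hup : (q:ℝ) * x.2 ≤ c.nb * D := by exact_mod_cast Cl.has_hi hx
  have hlo : c.bt = false → (c.na:ℝ) * D ≤ q * x.2 := fun hb => by
    exact_mod_cast Cl.has_lo hx hb
  have hp1 : min (c.hi:ℝ) (yc M (s2 / 2) D (lc D x)) ≤ c.pos M (s2 / 2) D x := le_max_right _ _
  have hp2 : c.pos M (s2 / 2) D x ≤ max (c.lo:ℝ) (yc M (s2 / 2) D (lc D x)) :=
    max_le_max le_rfl (min_le_right _ _)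
  have hxD : ∀ {r : ℝ}, r * D ≤ q * x.2 →
      2 * (M:ℝ) * r ≤ 2 * (q:ℝ) * ((M:ℝ) * (x.2:ℝ) / (D:ℝ)) := by
    intro r hr
    have h1 : (M:ℝ) * r ≤ M * ((q:ℝ) * (x.2:ℝ) / (D:ℝ)) :=
      mul_le_mul_of_nonneg_left (by rw [le_div_iff₀ hDp]; exact hr) hM0
    have h2 : 2 * (q:ℝ) * ((M:ℝ) * (x.2:ℝ) / (D:ℝ)) = 2 * ((M:ℝ) * ((q:ℝ) * (x.2:ℝ) / (D:ℝ))) := by
      ring
    rw [h2]
    linarith
  have hxU : ∀ {r : ℝ}, q * x.2 ≤ r * D →
      2 * (q:ℝ) * ((M:ℝ) * (x.2:ℝ) / (D:ℝ)) ≤ 2 * (M:ℝ) * r := by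
    intro r hr
    have h1 : (M:ℝ) * ((q:ℝ) * (x.2:ℝ) / (D:ℝ)) ≤ M * r :=
      mul_le_mul_of_nonneg_left (by rw [div_le_iff₀ hDp]; exact hr) hM0
    have h2 : 2 * (q:ℝ) * ((M:ℝ) * (x.2:ℝ) / (D:ℝ)) = 2 * ((M:ℝ) * ((q:ℝ) * (x.2:ℝ) / (D:ℝ))) := by
      ring
    rw [h2]
    linarith
  unfold endL endU
  rcases hsd : c.sd with _ | _
  · have elc : yc M (s2 / 2) D (lc D x) = M * x.2 / D - s2 / 2 := by
      have : lc D x = x.2 := by
        unfold lc
        rw [hs, hsd]
        simp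
      unfold yc
      rw [this]
    rw [elc] at hp1 hp2
    rw [if_pos rfl, if_pos rfl]
    constructor
    · rcases hbt : c.bt with _ | _
      · rw [if_neg (by simp)]
        have h1 := hxD (hlo hbt)
        rcases min_le_iff.1 hp1 with h2 | h2
        · have h3 : (min (2 * q * c.hi) (2 * M * c.na - s2 * q) : ℤ) ≤ 2 * q * c.hi :=
            min_le_left _ _
          have h3' : ((min (2 * q * c.hi) (2 * M * c.na - s2 * q) : ℤ) : ℝ) ≤ 2 * q * c.hi := by
            exact_mod_cast h3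
          have := mul_le_mul_of_nonneg_left h2 (by positivity : (0:ℝ) ≤ 2 * q)
          linarith
        · have h3 : (min (2 * q * c.hi) (2 * M * c.na - s2 * q) : ℤ) ≤ 2 * M * c.na - s2 * q :=
            min_le_right _ _
          have h3' : ((min (2 * q * c.hi) (2 * M * c.na - s2 * q) : ℤ) : ℝ)
              ≤ 2 * M * c.na - s2 * q := by
            exact_mod_cast h3
          have := mul_le_mul_of_nonneg_left h2 (by positivity : (0:ℝ) ≤ 2 * q)
          linarith
      · rw [if_pos rfl]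
        push_cast
        exact mul_le_mul_of_nonneg_left m1 (by positivity)
    · have h1 := hxU hup
      rcases le_max_iff.1 hp2 with h2 | h2
      · have h3 : 2 * q * c.lo ≤ (max (2 * q * c.lo) (2 * M * c.nb - s2 * q) : ℤ) :=
          le_max_left _ _
        have h3' : 2 * (q:ℝ) * c.lo ≤ ((max (2 * q * c.lo) (2 * M * c.nb - s2 * q) : ℤ) : ℝ) := by
          exact_mod_cast h3
        have := mul_le_mul_of_nonneg_left h2 (by positivity : (0:ℝ) ≤ 2 * q)
        linarith
      · have h3 : 2 * M * c.nb - s2 * q ≤ (max (2 * q * c.lo) (2 * M * c.nb - s2 * q) : ℤ) :=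
          le_max_right _ _
        have h3' : 2 * (M:ℝ) * c.nb - s2 * q
            ≤ ((max (2 * q * c.lo) (2 * M * c.nb - s2 * q) : ℤ) : ℝ) := by
          exact_mod_cast h3
        have := mul_le_mul_of_nonneg_left h2 (by positivity : (0:ℝ) ≤ 2 * q)
        linarith
  · have elc : yc M (s2 / 2) D (lc D x) = M - M * x.2 / D - s2 / 2 := by
      have : lc D x = D - x.2 := by
        unfold lc
        rw [hs, hsd]
        simp
      unfold yc
      rw [this]
      push_cast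
      field_simp
    rw [elc] at hp1 hp2
    rw [if_neg (by simp), if_neg (by simp)]
    constructor
    · have h1 := hxU hup
      rcases min_le_iff.1 hp1 with h2 | h2
      · have h3 : (min (2 * q * c.hi) (2 * M * (q - c.nb) - s2 * q) : ℤ) ≤ 2 * q * c.hi :=
          min_le_left _ _
        have h3' : ((min (2 * q * c.hi) (2 * M * (q - c.nb) - s2 * q) : ℤ) : ℝ)
            ≤ 2 * q * c.hi := by
          exact_mod_cast h3
        have := mul_le_mul_of_nonneg_left h2 (by positivity : (0:ℝ) ≤ 2 * q)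
        linarith
      · have h3 : (min (2 * q * c.hi) (2 * M * (q - c.nb) - s2 * q) : ℤ)
            ≤ 2 * M * (q - c.nb) - s2 * q := min_le_right _ _
        have h3' : ((min (2 * q * c.hi) (2 * M * (q - c.nb) - s2 * q) : ℤ) : ℝ)
            ≤ 2 * M * (q - c.nb) - s2 * q := by
          exact_mod_cast h3
        have := mul_le_mul_of_nonneg_left h2 (by positivity : (0:ℝ) ≤ 2 * q)
        linarith
    · rcases hbt : c.bt with _ | _
      · rw [if_neg (by simp)]
        have h1 := hxD (hlo hbt)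
        rcases le_max_iff.1 hp2 with h2 | h2
        · have h3 : 2 * q * c.lo ≤ (max (2 * q * c.lo) (2 * M * (q - c.na) - s2 * q) : ℤ) :=
            le_max_left _ _
          have h3' : 2 * (q:ℝ) * c.lo
              ≤ ((max (2 * q * c.lo) (2 * M * (q - c.na) - s2 * q) : ℤ) : ℝ) := by
            exact_mod_cast h3
          have := mul_le_mul_of_nonneg_left h2 (by positivity : (0:ℝ) ≤ 2 * q)
          linarith
        · have h3 : 2 * M * (q - c.na) - s2 * q
              ≤ (max (2 * q * c.lo) (2 * M * (q - c.na) - s2 * q) : ℤ) := le_max_right _ _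
          have h3' : 2 * (M:ℝ) * (q - c.na) - s2 * q
              ≤ ((max (2 * q * c.lo) (2 * M * (q - c.na) - s2 * q) : ℤ) : ℝ) := by
            exact_mod_cast h3
          have := mul_le_mul_of_nonneg_left h2 (by positivity : (0:ℝ) ≤ 2 * q)
          linarith
      · rw [if_pos rfl]
        push_cast
        exact mul_le_mul_of_nonneg_left m2 (by positivity)

/-! ### Piecewise linear functions on an interval -/

/-- the linear function with the values `a`, `b` at `i`, `i + 1` is `≥ 0` on `[eL, eU] / (2 q)` -/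
def cellChk (q eL eU i a b : ℤ) : Bool :=
  decide (min (2 * q * (i + 1)) eU < max (2 * q * i) eL) ||
  (decide (0 ≤ a * (2 * q * (i + 1) - max (2 * q * i) eL) + b * (max (2 * q * i) eL - 2 * q * i))
    && decide (0 ≤ a * (2 * q * (i + 1) - min (2 * q * (i + 1)) eU)
      + b * (min (2 * q * (i + 1)) eU - 2 * q * i)))

/-- the piecewise linear function with the node values `u` is `≥ 0` on `[eL, eU] / (2 q)` -/
def clsChk (q eL eU lo hi : ℤ) (u : ℤ → ℤ) : Bool :=
  (decide (lo < hi) || decide (0 ≤ u lo))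
    && allN (hi - lo).toNat (fun k => cellChk q eL eU (lo + k) (u (lo + k)) (u (lo + k + 1)))

lemma lin_nonneg {q i a b S0 S1 : ℤ} {r : ℝ} (hq : 0 < q) (h0 : (S0:ℝ) ≤ 2 * q * r)
    (h1 : 2 * q * r ≤ S1) (g0 : 0 ≤ a * (2 * q * (i + 1) - S0) + b * (S0 - 2 * q * i))
    (g1 : 0 ≤ a * (2 * q * (i + 1) - S1) + b * (S1 - 2 * q * i)) :
    0 ≤ (1 - (r - i)) * a + (r - i) * b := by
  have hqp : (0:ℝ) < q := by exact_mod_cast hq
  have g0' : (0:ℝ) ≤ a * (2 * q * (i + 1) - S0) + b * (S0 - 2 * q * i) := by exact_mod_cast g0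
  have g1' : (0:ℝ) ≤ a * (2 * q * (i + 1) - S1) + b * (S1 - 2 * q * i) := by exact_mod_cast g1
  have key : 0 ≤ 2 * q * ((1 - (r - i)) * a + (r - i) * b) := by
    rcases le_total (a:ℝ) b with c | c
    · have := mul_nonneg (sub_nonneg.2 c) (sub_nonneg.2 h0)
      nlinarith
    · have := mul_nonneg (sub_nonneg.2 c) (sub_nonneg.2 h1)
      nlinarith
  exact (mul_nonneg_iff_of_pos_left (by positivity)).1 key

lemma cls_nonneg {q eL eU lo hi : ℤ} {u : ℤ → ℤ} (hq : 0 < q)
    (h : clsChk q eL eU lo hi u = true) {r : ℝ} (h1 : (lo:ℝ) ≤ r) (h2 : r ≤ hi)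
    (h3 : (eL:ℝ) ≤ 2 * q * r) (h4 : 2 * q * r ≤ eU) : 0 ≤ pl (fun i => (u i : ℝ)) r := by
  have hqp : (0:ℝ) < q := by exact_mod_cast hq
  unfold clsChk at h
  rw [Bool.and_eq_true, Bool.or_eq_true, decide_eq_true_eq, decide_eq_true_eq] at h
  have hlh : lo ≤ hi := by exact_mod_cast h1.trans h2
  rcases hlh.eq_or_lt with e | hlt
  · subst e
    have hr : r = lo := le_antisymm h2 h1
    rw [hr]
    unfold pl
    rw [Int.fract_intCast, Int.floor_intCast]
    have h5 : 0 ≤ u lo := h.1.resolve_left (lt_irrefl _)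
    have h5' : (0:ℝ) ≤ u lo := by exact_mod_cast h5
    linarith
  · obtain ⟨i, hi1, hi2, r1, r2, er⟩ : ∃ i : ℤ, lo ≤ i ∧ i < hi ∧ (i:ℝ) ≤ r ∧ r ≤ i + 1 ∧
        pl (fun i => (u i : ℝ)) r = (1 - (r - i)) * u i + (r - i) * u (i + 1) := by
      rcases h2.lt_or_eq with c | c
      · refine ⟨⌊r⌋, Int.le_floor.2 h1, Int.floor_lt.2 c, Int.floor_le r,
          (Int.lt_floor_add_one r).le, ?_⟩
        unfold pl
        rw [Int.fract]
      · refine ⟨hi - 1, by omega, by omega, ?_, ?_, ?_⟩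
        · rw [c]
          push_cast
          linarith
        · rw [c]
          push_cast
          linarith
        · rw [c]
          unfold pl
          rw [Int.fract_intCast, Int.floor_intCast]
          push_cast
          have : hi - 1 + 1 = hi := by ring
          rw [this]
          ring
    rw [er]
    have hk := (allN_iff _ _).1 h.2 (i - lo).toNat (by omega)
    have ei : lo + ((i - lo).toNat : ℤ) = i := by omega
    rw [ei] at hk
    unfold cellChk at hk
    rw [Bool.or_eq_true, Bool.and_eq_true, decide_eq_true_eq, decide_eq_true_eq,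
      decide_eq_true_eq] at hk
    have s0 : ((max (2 * q * i) eL : ℤ) : ℝ) ≤ 2 * q * r := by
      push_cast
      refine max_le ?_ h3
      exact mul_le_mul_of_nonneg_left r1 (by positivity)
    have s1 : 2 * q * r ≤ ((min (2 * q * (i + 1)) eU : ℤ) : ℝ) := by
      push_cast
      refine le_min ?_ h4
      exact mul_le_mul_of_nonneg_left r2 (by positivity)
    rcases hk with hk | ⟨k1, k2⟩
    · exfalso
      have hk' : ((min (2 * q * (i + 1)) eU : ℤ) : ℝ) < ((max (2 * q * i) eL : ℤ) : ℝ) := by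
        exact_mod_cast hk
      linarith
    · exact lin_nonneg hq s0 s1 k1 k2

/-! ### Facts -/

/-- value of the fact at a node -/
def fctV (d : DatR) (s0 : ℤ) (f : FnR) (c : ℕ) (i : ℤ) : ℤ :=
  (dg f.lp (vT d.segs s0 (c, i)) : ℤ) - dg f.ln (vT d.segs s0 (c, i))

/-- the fact is at least `w` times the light share -/
def fctChk1 (d : DatR) (cs : List Cl) (M : ℕ) (s2 q s0 : ℤ) (w : ℤ) (f : FnR) : Bool :=
  allN cs.length (fun c => clsChk q (endL M s2 q (clN cs c)) (endU M s2 q (clN cs c))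
    (clN cs c).lo (clN cs c).hi (fun i => fctV d s0 f c i - w * ltV q (clN cs c)))

/-- THE CHECK OF THE FACTS -/
def fctChk (d : DatR) (cs : List Cl) (M : ℕ) (s2 q s0 : ℤ) : Bool :=
  allL d.fn (fun f => fctChk1 d cs M s2 q s0 1 f || fctChk1 d cs M s2 q s0 0 f)

/-- table of the facts -/
def TxG (d : DatR) (s0 : ℤ) (U : ℝ) {n : ℕ} (z a b : Fin n × ℤ) : ℝ :=
  (d.fn.map fun f => ((dg f.lp (vT d.segs s0 (ix z)) : ℝ) - dg f.ln (vT d.segs s0 (ix z)))
    * (dg (nth16 0 f.mat (vT d.segs s0 (ix a))) (vT d.segs s0 (ix b)) : ℝ)).sum / 2 / U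

section
variable {K0 : ℤ} {fs : ℝ} {P Q : WS} {D K ρ V E N : ℤ} {ξR ξL : ℤ → ℝ}
variable {M : ℕ} {s2 q : ℤ} {cs : List Cl} {cl : P4 → Fin cs.length}

/-- ONE FACT -/
lemma fct_one (h : EnvS K0 fs P Q D K ρ V E N ξR ξL) {d : DatR} {s0 w : ℤ} (hw : 0 ≤ w)
    {f : FnR} {U : ℝ} (hU : 0 ≤ U)
    (hf : fctChk1 d cs M s2 q s0 w f = true) (hq : 0 < q) (hD : D = 4 * K + 1) (hK : 1 ≤ K)
    (hrun : ∀ c : Fin cs.length, (cs.get c).run M s2 q)
    (hcl : ClMap (fun i : Fin cs.length => cs.get i) q D K cl)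
    {G : GrdD (Fin cs.length) M ((s2:ℝ) / 2) (12 * M / D) D K (rhoE D)
      (cutL M ((s2:ℝ) / 2)) (cutR M ((s2:ℝ) / 2))} (hG : G = mkGrd hq hD hK hrun hcl) :
    ∃ X3 : P4 → P4 → P4 → ℝ, (∀ cl', XF P Q cl' K (fun _ => 0) X3 0) ∧
      G.Part X3 (fun z a b => ((dg f.lp (vT d.segs s0 (ix z)) : ℝ)
        - dg f.ln (vT d.segs s0 (ix z)))
        * ((dg (nth16 0 f.mat (vT d.segs s0 (ix a))) (vT d.segs s0 (ix b)) : ℝ) / 2 / U)) 0 := by
  have hD0 : 0 < D := by omega
  have hpt : ∀ x, G.ok x → (w:ℝ) * (1 + -20 * bo (x.2.2 ≤ -litC D))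
      ≤ kX G.lo G.hi (fun ζ : Fin cs.length × ℤ => ((dg f.lp (vT d.segs s0 (ix ζ)) : ℝ)
        - dg f.ln (vT d.segs s0 (ix ζ)))) (G.pt x) := by
    intro x hx
    have hreg := G.regX hx
    subst hG
    have hhas := hcl.has x hx
    have hr := (hrun (cl x)).1
    have hwp : (0:ℝ) ≤ w := by exact_mod_cast hw
    have h1 := mul_le_mul_of_nonneg_left (lit_le hq hD0.le (x := x) hhas) hwp
    refine h1.trans ?_
    obtain ⟨e1, e2⟩ := pos_ends (M := M) (s2 := s2) hq hD0 hr hhas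
    obtain ⟨m1, m2⟩ := Cl.pos_mem (M := M) (σ := (s2:ℝ) / 2) (D := D) hr x.2
    have hc := (allN_iff _ _).1 hf (cl x) (cl x).2
    rw [clN_get] at hc
    have h2 := cls_nonneg hq hc m1 m2 e1 e2
    have e3 : kX (fun c => (cs.get c).lo) (fun c => (cs.get c).hi)
        (fun ζ : Fin cs.length × ℤ => ((dg f.lp (vT d.segs s0 (ix ζ)) : ℝ)
        - dg f.ln (vT d.segs s0 (ix ζ)))) (cl x, (cs.get (cl x)).pos M (s2 / 2) D x.2)
        = pl (fun i => ((dg f.lp (vT d.segs s0 ((cl x : ℕ), i)) : ℝ)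
        - dg f.ln (vT d.segs s0 ((cl x : ℕ), i)))) ((cs.get (cl x)).pos M (s2 / 2) D x.2) := by
      unfold kX
      exact sum_hat (RegX.near hreg) _
    have e4 : pl (fun i => ((fctV d s0 f (cl x) i - w * ltV q (cs.get (cl x)) : ℤ) : ℝ))
        ((cs.get (cl x)).pos M (s2 / 2) D x.2)
        = pl (fun i => ((dg f.lp (vT d.segs s0 ((cl x : ℕ), i)) : ℝ)
        - dg f.ln (vT d.segs s0 ((cl x : ℕ), i)))) ((cs.get (cl x)).pos M (s2 / 2) D x.2)
          - w * ltV q (cs.get (cl x)) := by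
      unfold pl fctV
      push_cast
      ring
    rw [e4] at h2
    have e5 : kX (mkGrd hq hD hK hrun hcl).lo (mkGrd hq hD hK hrun hcl).hi
        (fun ζ : Fin cs.length × ℤ => ((dg f.lp (vT d.segs s0 (ix ζ)) : ℝ)
        - dg f.ln (vT d.segs s0 (ix ζ)))) ((mkGrd hq hD hK hrun hcl).pt x)
        = pl (fun i => ((dg f.lp (vT d.segs s0 ((cl x : ℕ), i)) : ℝ)
        - dg f.ln (vT d.segs s0 ((cl x : ℕ), i)))) ((cs.get (cl x)).pos M (s2 / 2) D x.2) := e3
    rw [e5]
    linarith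
  refine ⟨fun x y z => kX G.lo G.hi (fun ζ : Fin cs.length × ℤ =>
      ((dg f.lp (vT d.segs s0 (ix ζ)) : ℝ) - dg f.ln (vT d.segs s0 (ix ζ)))) (G.pt x)
    * nX G.lo G.hi (fun a b : Fin cs.length × ℤ =>
      (dg (nth16 0 f.mat (vT d.segs s0 (ix a))) (vT d.segs s0 (ix b)) : ℝ) / 2 / U)
      (G.pt y) (G.pt z), fun cl' => ?_, ?_⟩
  · refine XF.prod0 h.toEnv ?_ fun y z _ _ => nX_nonneg _ _ _ _ fun i _ j _ => by positivity
    have k1 : 0 ≤ U1 P Q cl' (fun x => (w:ℝ) * (1 + -20 * bo (x.2.2 ≤ -litC D))) := by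
      rw [U1_mul]
      exact mul_nonneg (by exact_mod_cast hw) (lit_U1 h cl')
    exact k1.trans (h.toEnv.U1_mono cl' fun x hx => hpt x ((G.okE x).2 hx))
  · exact Grd.part_prod (G := G.toGrd) (l := fun x => kX G.lo G.hi
      (fun ζ : Fin cs.length × ℤ => ((dg f.lp (vT d.segs s0 (ix ζ)) : ℝ)
        - dg f.ln (vT d.segs s0 (ix ζ)))) (G.pt x)) (fun _ _ => rfl) _

/-- THE FACTS OF A CELL, general form -/
theorem fct_all (h : EnvS K0 fs P Q D K ρ V E N ξR ξL) {d : DatR} {s0 : ℤ} {U : ℝ} (hU : 0 ≤ U)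
    (hf : fctChk d cs M s2 q s0 = true) (hq : 0 < q) (hD : D = 4 * K + 1) (hK : 1 ≤ K)
    (hrun : ∀ c : Fin cs.length, (cs.get c).run M s2 q)
    (hcl : ClMap (fun i : Fin cs.length => cs.get i) q D K cl)
    {G : GrdD (Fin cs.length) M ((s2:ℝ) / 2) (12 * M / D) D K (rhoE D)
      (cutL M ((s2:ℝ) / 2)) (cutR M ((s2:ℝ) / 2))} (hG : G = mkGrd hq hD hK hrun hcl) :
    ∃ X3 : P4 → P4 → P4 → ℝ, (∀ cl', XF P Q cl' K (fun _ => 0) X3 0) ∧
      G.Part X3 (TxG d s0 U) 0 := by
  have key : ∀ l : List FnR, (∀ f ∈ l, fctChk1 d cs M s2 q s0 1 f = true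
      ∨ fctChk1 d cs M s2 q s0 0 f = true) →
      ∃ X3 : P4 → P4 → P4 → ℝ, (∀ cl', XF P Q cl' K (fun _ => 0) X3 0) ∧
      G.Part X3 (fun z a b => (l.map fun f => ((dg f.lp (vT d.segs s0 (ix z)) : ℝ)
        - dg f.ln (vT d.segs s0 (ix z)))
    * (dg (nth16 0 f.mat (vT d.segs s0 (ix a))) (vT d.segs s0 (ix b)) : ℝ)).sum / 2 / U) 0 := by
    intro l
    induction l with
    | nil =>
      intro _
      refine ⟨fun _ _ _ => 0, fun cl' => XF.zero K, ?_⟩
      have := Grd.Part.zero (G := G.toGrd)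
      simpa using this
    | cons f l ih =>
      intro hl
      obtain ⟨X, hX, hP⟩ := ih (fun g hg => hl g (List.mem_cons_of_mem _ hg))
      obtain ⟨Y, hY, hR⟩ : ∃ X3 : P4 → P4 → P4 → ℝ, (∀ cl', XF P Q cl' K (fun _ => 0) X3 0) ∧
          G.Part X3 (fun z a b => ((dg f.lp (vT d.segs s0 (ix z)) : ℝ)
            - dg f.ln (vT d.segs s0 (ix z)))
            * ((dg (nth16 0 f.mat (vT d.segs s0 (ix a))) (vT d.segs s0 (ix b)) : ℝ) / 2 / U))
            0 := by
        rcases hl f List.mem_cons_self with c | c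
        · exact fct_one h (by norm_num) hU c hq hD hK hrun hcl hG
        · exact fct_one h le_rfl hU c hq hD hK hrun hcl hG
      refine ⟨fun x y z => Y x y z + X x y z, fun cl' => ?_, ?_⟩
      · have := (hY cl').add (hX cl')
        simpa using this
      · have := hR.add hP
        rw [add_zero] at this
        refine this.mono fun a b c _ _ _ => le_of_eq ?_
        rw [List.map_cons, List.sum_cons]
        ring
  exact key d.fn fun f hfm => by
    have := (allL_iff _ _).1 hf f hfm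
    rwa [Bool.or_eq_true] at this

end

end

end MP61673a.RowO
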