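import Pool.Agent.Mu673.RowOut

/-!
THE FACTS OF A CELL (helper28): every fact of the data is the light share (at most `1/20` of the
mass is deeper than `.1168 D` on its side) times a nonnegative pair table.
-/

set_option autoImplicit false

namespace MP61673a.RowO

open Finset MP61673a.W MP61673a.Kink MP61673a.Bary MP61673a.Sos MP61673a.Fin MP61673a.FE MP61673a.KC

noncomputable section

/-- all points of the class are deeper than `.1168 D` on their side -/
def clLt (q : ℤ) (c : Cl) : Bool := decide (10000 * c.nb ≤ -(1168 * q))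

/-- value of the light share at a class -/
def ltV (q : ℤ) (c : Cl) : ℤ := if clLt q c = true then -19 else 1

/-- smallest depth of the light share -/
def litC (D : ℤ) : ℤ := (1168 * D + 9999) / 10000

lemma lit_U1 {K0 : ℤ} {f : ℝ} {P Q : WS} {D K ρ V E N : ℤ} {ξR ξL : ℤ → ℝ}
    (h : EnvS K0 f P Q D K ρ V E N ξR ξL) (cl' : P.ι ⊕ Q.ι → Bool) :
    0 ≤ U1 P Q cl' (fun x => 1 + -20 * bo (x.2.2 ≤ -litC D)) := by
  have e : U1 P Q cl' (fun x => bo (x.2.2 ≤ -litC D)) = farM P (litC D) + farM Q (litC D) := by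
    rw [U1_eq]
    unfold farM bo
    dsimp only
    simp only [mul_ite, mul_one, mul_zero]
  have hl := h.lit (litC D) (by
    unfold litC
    omega)
  rw [U1_add, U1_const, U1_mul, e]
  linarith

lemma lit_le {q D : ℤ} (hq : 0 < q) (hD : 0 ≤ D) {c : Cl} {x : P4} (hx : c.has q D x.2) :
    1 + -20 * bo (x.2.2 ≤ -litC D) ≤ (ltV q c : ℝ) := by
  unfold ltV
  split_ifs with hc
  · unfold clLt at hc
    have h1 := of_decide_eq_true hc
    have h2 := Cl.has_hi hx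
    have h3 := mul_le_mul_of_nonneg_right h1 hD
    have h4 : q * (10000 * x.2.2) ≤ q * (-(1168 * D)) := by linarith
    have h5 := le_of_mul_le_mul_left h4 hq
    have h6 : x.2.2 ≤ -litC D := by
      unfold litC
      omega
    rw [bo_true h6]
    norm_num
  · have := bo_nonneg (x.2.2 ≤ -litC D)
    push_cast
    linarith

namespace RD

/-- THE CHECK OF THE FACTS -/
def factChk (A : RD) : Bool :=
  allL A.d.fn (fun f => allN (vR A.d.segs) (fun v =>
    decide ((dg f.lp v : ℤ) - dg f.ln v = ltV A.p.q (clN A.cs (ixR A.d.segs v)))))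

/-- sum of the pair tables of the facts -/
def nuT (A : RD) (a b : Fin A.cs.length × ℤ) : ℝ :=
  (A.d.fn.map fun f => (dg (nth16 0 f.mat (vT A.d.segs A.s0 (ix a)))
    (vT A.d.segs A.s0 (ix b)) : ℝ)).sum / 2 / A.U

variable {A : RD}

lemma nuT_nonneg (a b : Fin A.cs.length × ℤ) : 0 ≤ A.nuT a b := by
  unfold nuT
  have h : 0 ≤ (A.d.fn.map fun f => (dg (nth16 0 f.mat (vT A.d.segs A.s0 (ix a)))
      (vT A.d.segs A.s0 (ix b)) : ℝ)).sum := by
    refine List.sum_nonneg fun x hx => ?_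
    obtain ⟨f, _, rfl⟩ := List.mem_map.1 hx
    positivity
  positivity

lemma TxT_nu (hf : A.factChk = true) {z : Fin A.cs.length × ℤ}
    (hz : KC.inN A.d A.s0 (ix z)) (a b : Fin A.cs.length × ℤ) :
    (ltV A.p.q (clN A.cs z.1) : ℝ) * A.nuT a b = A.TxT z a b := by
  have hm := mem_Icc.1 hz
  obtain ⟨z1, z2, z3⟩ := vT_spec A.d.segs A.s0 (z.1 : ℕ) z.2 hm.1 hm.2
  have key : ∀ f ∈ A.d.fn, ((dg f.lp (vT A.d.segs A.s0 (ix z)) : ℝ)
      - dg f.ln (vT A.d.segs A.s0 (ix z))) = (ltV A.p.q (clN A.cs z.1) : ℝ) := by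
    intro f hfm
    have h := of_decide_eq_true ((allN_iff _ _).1 ((allL_iff _ _).1 hf f hfm) _ z1)
    rw [z3] at h
    exact_mod_cast h
  unfold nuT TxT
  have e : (A.d.fn.map fun f => ((dg f.lp (vT A.d.segs A.s0 (ix z)) : ℝ)
      - dg f.ln (vT A.d.segs A.s0 (ix z)))
    * (dg (nth16 0 f.mat (vT A.d.segs A.s0 (ix a))) (vT A.d.segs A.s0 (ix b)) : ℝ))
      = A.d.fn.map fun f => (ltV A.p.q (clN A.cs z.1) : ℝ)
        * (dg (nth16 0 f.mat (vT A.d.segs A.s0 (ix a))) (vT A.d.segs A.s0 (ix b)) : ℝ) :=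
    List.map_congr_left fun f hfm => by rw [key f hfm]
  rw [e, List.sum_map_mul_left]
  ring

/-- THE FACTS OF A CELL -/
theorem fact_out (g : A.GOK) (hf : A.factChk = true) {K0 : ℤ} {f : ℝ} {P Q : WS}
    {D K ρ V E N : ℤ} {ξR ξL : ℤ → ℝ} (h : EnvS K0 f P Q D K ρ V E N ξR ξL)
    {cl : P4 → Fin A.cs.length} (hD : D = 4 * K + 1) (hK : 1 ≤ K)
    (hcl : ClMap (fun i : Fin A.cs.length => A.cs.get i) A.p.q D K cl)
    {G : GrdD (Fin A.cs.length) A.p.M ((A.p.s2:ℝ) / 2) (12 * A.p.M / D) D K (rhoE D)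
      (cutL A.p.M ((A.p.s2:ℝ) / 2)) (cutR A.p.M ((A.p.s2:ℝ) / 2))}
    (hG : G = mkGrd g.pos.q hD hK g.cs.runF hcl) :
    ∃ X3 : P4 → P4 → P4 → ℝ, (∀ cl', XF P Q cl' K (fun _ => 0) X3 0) ∧ G.Part X3 A.TxT 0 := by
  have hq := g.pos.q
  have hD0 : 0 ≤ D := by omega
  have inN : ∀ ζ : Fin A.cs.length × ℤ, ζ.2 ∈ nd G.lo G.hi ζ.1 → KC.inN A.d A.s0 (ix ζ) := by
    intro ζ hζ
    subst hG
    have := mem_Icc.1 hζ
    exact g.inN this.1 this.2
  have hc : ∀ x, G.ok x → (clN A.cs (G.cl x)).has A.p.q D x.2 := by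
    intro x hx
    subst hG
    rw [clN_get]
    exact hcl.has x hx
  refine ⟨fun x y z => (ltV A.p.q (clN A.cs (G.cl x)) : ℝ)
    * nX G.lo G.hi A.nuT (G.pt y) (G.pt z), fun cl' => ?_, ?_⟩
  · refine XF.prod0 h.toEnv ?_ fun y z _ _ => nX_nonneg _ _ _ _ fun i _ j _ => nuT_nonneg _ _
    refine (lit_U1 h cl').trans (h.toEnv.U1_mono cl' fun x hx => ?_)
    exact lit_le hq hD0 (hc x ((G.okE x).2 hx))
  · have hp := Grd.part_prod (G := G.toGrd)
      (l := fun x => (ltV A.p.q (clN A.cs (G.cl x)) : ℝ))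
      (a := fun ζ => (ltV A.p.q (clN A.cs ζ.1) : ℝ)) (fun x hx =>
        (kX_class hx (fun c => (ltV A.p.q (clN A.cs c) : ℝ))).symm) A.nuT
    exact hp.mono fun a b c ha _ _ => le_of_eq (TxT_nu hf (inN a ha) b c)

end RD

end

end MP61673a.RowO
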