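import Pool.Agent.Mu673.Pack

/-!
Facts on prices and on the deep bracket, in the language of `GidW` and `Pack`.
-/

namespace MP61673a.W

open Finset

noncomputable section

lemma kap_eq_of_le {K T ρ s : ℤ} (hT : -1 ≤ T) (hs : s ≤ 2 * K + ρ) :
    kap K T ρ s = T + 1 := by
  unfold kap
  have h1 : ∀ g ∈ Icc (0:ℤ) T, (if s < 2 * K + 1 + ρ + 2 * g then (1:ℝ) else 0) = 1 := by
    intro g hg
    rw [mem_Icc] at hg
    rw [if_pos]
    omega
  rw [sum_congr rfl h1, sum_const, Int.card_Icc, nsmul_eq_mul, sub_zero, mul_one]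
  have h3 : (((T + 1 : ℤ).toNat : ℕ) : ℤ) = T + 1 := Int.toNat_of_nonneg (by omega)
  exact_mod_cast h3

/-- (F4) all prices are nonnegative as soon as the first one is and all labels of nonzero
weight are at most `6K + 2 + 3ρ` -/
lemma price_nonneg {P Q : WS} (hP : Good P) (hQ : Good Q) {D K T ρ : ℤ} (hT : -1 ≤ T)
    (h0 : 0 ≤ price P Q D K T ρ 0) (hM : 2 * K + ρ ≤ D - K)
    (hmax : ∀ a ∈ P.S, ∀ b ∈ Q.S, P.f a * Q.f b ≠ 0 →
      P.u a + 2 * Q.u b ≤ 2 * K + 2 + ρ + 2 * (2 * K + ρ))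
    {s : ℤ} (hs : 0 ≤ s) : 0 ≤ price P Q D K T ρ s := by
  by_cases c : s ≤ 2 * K + ρ
  · have h1 : price P Q D K T ρ 0 ≤ price P Q D K T ρ s := by
      unfold price
      rw [kap_eq_of_le hT (show (0:ℤ) ≤ 2 * K + ρ by omega), kap_eq_of_le hT c,
        show max ((0:ℤ) - (D - K)) 0 = 0 by omega, show max (s - (D - K)) 0 = 0 by omega]
      have := dd_anti hP hQ (show 2 * K + 1 + ρ + 2 * 0 ≤ 2 * K + 1 + ρ + 2 * s by omega)
      linarith
    linarith
  · have h1 : dd P Q (2 * K + 1 + ρ + 2 * s) = 0 := by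
      unfold dd
      refine sum_eq_zero fun a ha => sum_eq_zero fun b hb => ?_
      by_cases h0 : P.f a * Q.f b = 0
      · rw [h0, ite_self]
      · rw [if_neg]
        have := hmax a ha b hb h0
        omega
    unfold price
    rw [h1]
    have := kap_nonneg K T ρ s
    have := nn_nonneg hP (2 * max (s - (D - K)) 0 + 1 + ρ)
    linarith

/-! ## The deep bracket -/

lemma pp_dd (P Q : WS) {K M ρ : ℤ} (_hK : 0 ≤ K) :
    pp P ρ (fun y => dd P Q (M + min y K))
      = ∑ a ∈ P.S, ∑ b ∈ Q.S, P.f a * Q.f b *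
        (if P.u a + 2 * Q.u b < M then 0
          else if P.u a + 2 * Q.u b < M + K then
            nn P (1 + ρ) - nn P (2 * (P.u a + 2 * Q.u b - M) + 1 + ρ)
          else nn P (1 + ρ)) := by
  have h1 : pp P ρ (fun y => dd P Q (M + min y K))
      = ∑ a' ∈ P.S, ∑ a1 ∈ P.S, ∑ a ∈ P.S, ∑ b ∈ Q.S,
        if 1 + ρ ≤ P.u a' - 2 * P.u a1 ∧ M + min (yy P ρ a' a1) K ≤ P.u a + 2 * Q.u b then
          P.f a' * P.f1 a1 * (P.f a * Q.f b) else 0 := by
    unfold pp
    refine sum_congr rfl fun a' _ => sum_congr rfl fun a1 _ => ?_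
    unfold dd
    split_ifs with h
    · rw [mul_sum]
      refine sum_congr rfl fun p _ => ?_
      rw [mul_sum]
      refine sum_congr rfl fun q _ => ?_
      rw [mul_ite']
      simp [h]
    · symm
      refine sum_eq_zero fun p _ => sum_eq_zero fun q _ => ?_
      simp [h]
  rw [h1, sum4_comm]
  refine sum_congr rfl fun a _ => sum_congr rfl fun b _ => ?_
  unfold nn yy
  split_ifs with h2 h3
  · rw [mul_zero]
    refine sum_eq_zero fun a' _ => sum_eq_zero fun a1 _ => ?_
    rw [if_neg]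
    omega
  · rw [← sum_sub_distrib, mul_sum]
    refine sum_congr rfl fun a' _ => ?_
    rw [← sum_sub_distrib, mul_sum]
    refine sum_congr rfl fun a1 _ => ?_
    split_ifs <;> first | omega | ring
  · rw [mul_sum]
    refine sum_congr rfl fun a' _ => ?_
    rw [mul_sum]
    refine sum_congr rfl fun a1 _ => ?_
    rw [mul_ite']
    split_ifs <;> first | omega | ring

end

end MP61673a.W
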