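import Pool.Agent.Mu673.ThreePointL
import Pool.Agent.Mu673.FarBoxT

set_option autoImplicit false

/-!
Certificates with typed points and typed labels: normalisation by classes
(`Σ_x g (x mod 2) (pos x)`, alternating sums of piecewise linear functions), `CertifiedL`, boxes, trees.
-/

namespace MP61673a.TP

open Finset MP61673a.Sos MP61673a.W
open MP61673a.Lift (shift Mid Cov IsMaximalThreeFree cov_of_maximal card_shift mem_shift)

noncomputable section

/-! ### Alternating sums -/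

/-- the sign of the class -/
def sg (x : ℤ) : ℝ := if x % 2 = 0 then 1 else -1

lemma sg_zero : sg 0 = 1 := by simp [sg]

lemma sg_succ (x : ℤ) : sg (x + 1) = -sg x := by
  unfold sg
  by_cases c : x % 2 = 0
  · rw [if_neg (by omega), if_pos c]
  · rw [if_pos (by omega), if_neg c, neg_neg]

lemma sg_abs (x : ℤ) : |sg x| = 1 := by
  unfold sg
  split_ifs <;> simp

lemma sum_Ico_succ (n : ℕ) (f : ℤ → ℝ) :
    ∑ x ∈ Ico (0 : ℤ) ((n + 1 : ℕ) : ℤ), f x = ∑ x ∈ Ico (0 : ℤ) n, f x + f n := by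
  have : Ico (0 : ℤ) ((n + 1 : ℕ) : ℤ) = insert (n : ℤ) (Ico (0 : ℤ) n) := by
    ext x
    simp only [mem_Ico, mem_insert]
    omega
  rw [this, sum_insert (by simp), add_comm]

lemma alt_id (n : ℕ) (d : ℤ → ℝ) :
    4 * ∑ x ∈ Ico (0 : ℤ) n, sg x * d x = (d (-1) + d 0) - sg n * (d (n - 1) + d n)
      - ∑ x ∈ Ico (0 : ℤ) n, sg x * (d (x - 1) - 2 * d x + d (x + 1)) := by
  induction n with
  | zero =>
    simp [sg_zero]
  | succ n ih =>
    rw [sum_Ico_succ, sum_Ico_succ]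
    have e1 : (((n + 1 : ℕ) : ℤ)) = (n : ℤ) + 1 := by push_cast; ring
    rw [e1, sg_succ]
    have e2 : (n : ℤ) + 1 - 1 = n := by ring
    rw [e2]
    linarith

lemma second_sum (n : ℕ) (d : ℤ → ℝ) :
    ∑ x ∈ Ico (0 : ℤ) n, (d (x - 1) - 2 * d x + d (x + 1))
      = (d n - d (n - 1)) - (d 0 - d (-1)) := by
  induction n with
  | zero => simp
  | succ n ih =>
    rw [sum_Ico_succ, ih]
    have e1 : (((n + 1 : ℕ) : ℤ)) = (n : ℤ) + 1 := by push_cast; ring
    rw [e1]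
    have e2 : (n : ℤ) + 1 - 1 = n := by ring
    rw [e2]
    ring

/-- alternating sum of `|x - t|` -/
lemma alt_abs {n : ℕ} (hn : 0 < n) {t : ℝ} (h0 : 1 / (2 * n) ≤ t) (h1 : t ≤ 1 - 1 / (2 * n)) :
    |∑ x ∈ Ico (0 : ℤ) n, sg x * |pos n x - t| - (t - sg n * (1 - t)) / 2| ≤ 1 / (2 * n) := by
  have hn' : (0:ℝ) < n := by exact_mod_cast hn
  have key := alt_id n (fun x => |pos n x - t|)
  have key2 := second_sum n (fun x => |pos n x - t|)
  have pm1 : pos n (-1) = -(1 / (2 * n)) := by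
    unfold pos
    push_cast
    field_simp
    ring
  have p0 : pos n 0 = 1 / (2 * n) := by
    unfold pos
    push_cast
    field_simp
    ring
  have pn : pos n (n : ℤ) = 1 + 1 / (2 * n) := by
    unfold pos
    push_cast
    field_simp
  have pn1 : pos n ((n : ℤ) - 1) = 1 - 1 / (2 * n) := by
    unfold pos
    push_cast
    field_simp
    ring
  have hq : (0:ℝ) < 1 / (2 * n) := by positivity
  rw [pm1, p0, pn, pn1, abs_of_nonpos (by linarith : -(1 / (2 * (n:ℝ))) - t ≤ 0),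
    abs_of_nonpos (by linarith : 1 / (2 * (n:ℝ)) - t ≤ 0),
    abs_of_nonneg (by linarith : 0 ≤ 1 - 1 / (2 * (n:ℝ)) - t),
    abs_of_nonneg (by linarith : 0 ≤ 1 + 1 / (2 * (n:ℝ)) - t)] at key key2
  have hb : |∑ x ∈ Ico (0 : ℤ) n, sg x * (|pos n (x - 1) - t| - 2 * |pos n x - t|
      + |pos n (x + 1) - t|)| ≤ 4 * (1 / (2 * n)) := by
    refine (abs_sum_le_sum_abs _ _).trans ?_
    have e : ∀ x ∈ Ico (0 : ℤ) n, |sg x * (|pos n (x - 1) - t| - 2 * |pos n x - t|
        + |pos n (x + 1) - t|)|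
        = |pos n (x - 1) - t| - 2 * |pos n x - t| + |pos n (x + 1) - t| := by
      intro x _
      rw [abs_mul, sg_abs, one_mul, abs_of_nonneg]
      have : pos n x - t = ((pos n (x - 1) - t) + (pos n (x + 1) - t)) / 2 := by
        unfold pos
        push_cast
        field_simp
        ring
      rw [this, abs_div, abs_two]
      have := abs_add_le (pos n (x - 1) - t) (pos n (x + 1) - t)
      linarith
    rw [sum_congr rfl e, key2]
    linarith
  have e : ∑ x ∈ Ico (0 : ℤ) n, sg x * |pos n x - t| - (t - sg n * (1 - t)) / 2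
      = -(∑ x ∈ Ico (0 : ℤ) n, sg x * (|pos n (x - 1) - t| - 2 * |pos n x - t|
      + |pos n (x + 1) - t|)) / 4 := by
    linarith
  rw [e, abs_div, abs_neg, abs_of_pos (by norm_num : (0:ℝ) < 4)]
  linarith

lemma alt_one (n : ℕ) : ∑ x ∈ Ico (0 : ℤ) n, sg x = (1 - sg n) / 2 := by
  have := alt_id n (fun _ => 1)
  simp only [mul_one] at this
  have e : ∑ x ∈ Ico (0 : ℤ) n, sg x * ((1:ℝ) - 2 + 1) = 0 :=
    sum_eq_zero fun x _ => by ring
  rw [e] at this
  linarith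

lemma alt_pos {n : ℕ} (hn : 0 < n) : ∑ x ∈ Ico (0 : ℤ) n, sg x * pos n x = -(sg n / 2) := by
  have hn' : (0:ℝ) < n := by exact_mod_cast hn
  have := alt_id n (fun x => pos n x)
  have e : ∑ x ∈ Ico (0 : ℤ) n, sg x * (pos n (x - 1) - 2 * pos n x + pos n (x + 1)) = 0 := by
    refine sum_eq_zero fun x _ => ?_
    have : pos n (x - 1) - 2 * pos n x + pos n (x + 1) = 0 := by
      unfold pos
      push_cast
      field_simp
      ring
    rw [this, mul_zero]
  have e2 : pos n (-1) + pos n 0 = 0 := by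
    unfold pos
    push_cast
    field_simp
    ring
  have e3 : pos n ((n : ℤ) - 1) + pos n (n : ℤ) = 2 := by
    unfold pos
    push_cast
    field_simp
    ring
  rw [e, e2, e3] at this
  linarith

lemma abel2 (M : ℕ) (l E : ℕ → ℝ) :
    ∑ j ∈ range M, l (j + 1) * (E j - 2 * E (j + 1) + E (j + 2)) + l 0 * (E 1 - E 0)
      + l (M + 1) * (E M - E (M + 1))
      = ∑ j ∈ range M, E (j + 1) * (l j - 2 * l (j + 1) + l (j + 2)) + E 0 * (l 1 - l 0)
      + E (M + 1) * (l M - l (M + 1)) := by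
  have h := sum_range_sub (fun j => l j * E (j + 1) - l (j + 1) * E j) M
  have e : ∀ j, l (j + 1) * (E j - 2 * E (j + 1) + E (j + 2))
      - E (j + 1) * (l j - 2 * l (j + 1) + l (j + 2))
      = (l (j + 1) * E (j + 2) - l (j + 2) * E (j + 1)) - (l j * E (j + 1) - l (j + 1) * E j) := by
    intro j
    ring
  have h2 : ∑ j ∈ range M, (l (j + 1) * (E j - 2 * E (j + 1) + E (j + 2))
      - E (j + 1) * (l j - 2 * l (j + 1) + l (j + 2)))
      = (l M * E (M + 1) - l (M + 1) * E M) - (l 0 * E (0 + 1) - l (0 + 1) * E 0) := by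
    rw [← h]
    exact sum_congr rfl fun j _ => e j
  rw [sum_sub_distrib] at h2
  simp only [zero_add] at h2
  linarith

/-- a piecewise linear function in terms of absolute values -/
lemma pl_abs {n M : ℕ} (l : ℕ → ℝ) {x : ℤ} (h0 : 0 ≤ x) (h1 : x < n) :
    2 * ∑ j ∈ range (M + 2), l j * hat (M + 1) (j : ℤ) (pos n x)
      = ∑ j ∈ range M, ((M:ℝ) + 1) * |pos n x - ((j + 1 : ℕ) : ℝ) / (M + 1)|
          * (l j - 2 * l (j + 1) + l (j + 2))
        + ((M:ℝ) + 1) * pos n x * (l 1 - l 0) + ((M:ℝ) + 1) * (1 - pos n x) * (l M - l (M + 1))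
        + (l 0 + l (M + 1)) := by
  have hp := pos_mem h0 h1
  have hN' : (0:ℝ) < (M:ℝ) + 1 := by positivity
  have key := abel2 M l (fun j => |((M:ℝ) + 1) * pos n x - j|)
  have f : ∀ j : ℕ, ((M:ℝ) + 1) * |pos n x - (j : ℝ) / (M + 1)| = |((M:ℝ) + 1) * pos n x - j| := by
    intro j
    rw [← abs_of_pos hN', ← abs_mul, abs_of_pos hN']
    congr 1
    field_simp
  have hM1 : ((M + 1 : ℕ) : ℝ) = (M:ℝ) + 1 := by push_cast; ring
  have y0 : 0 < ((M:ℝ) + 1) * pos n x := mul_pos hN' hp.1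
  have y1 : ((M:ℝ) + 1) * pos n x < (M:ℝ) + 1 := by nlinarith [hp.2]
  have a0 : |((M:ℝ) + 1) * pos n x - ((0 : ℕ) : ℝ)| = ((M:ℝ) + 1) * pos n x := by
    rw [Nat.cast_zero, sub_zero, abs_of_pos y0]
  have aN : |((M:ℝ) + 1) * pos n x - ((M + 1 : ℕ) : ℝ)| = ((M:ℝ) + 1) * (1 - pos n x) := by
    rw [hM1, abs_of_neg (by linarith)]
    ring
  rw [a0, aN] at key
  have g0 : 2 * hat (M + 1) ((0 : ℕ) : ℤ) (pos n x)
      = (|((M:ℝ) + 1) * pos n x - ((1 : ℕ) : ℝ)| - ((M:ℝ) + 1) * pos n x) + 1 := by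
    rw [hat_eq_abs]
    push_cast
    rw [abs_of_nonneg (by linarith : (0:ℝ) ≤ (↑M + 1) * pos n x - (0 - 1)),
      abs_of_nonneg (by linarith : (0:ℝ) ≤ (↑M + 1) * pos n x - 0)]
    have : ((M:ℝ) + 1) * pos n x - (0 + 1) = (↑M + 1) * pos n x - 1 := by ring
    rw [this]
    ring
  have gN : 2 * hat (M + 1) ((M + 1 : ℕ) : ℤ) (pos n x)
      = (|((M:ℝ) + 1) * pos n x - ((M : ℕ) : ℝ)| - ((M:ℝ) + 1) * (1 - pos n x)) + 1 := by
    rw [hat_eq_abs]
    push_cast
    rw [abs_of_neg (by linarith : (↑M + 1) * pos n x - ((M:ℝ) + 1 + 1) < 0),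
      abs_of_neg (by linarith : (↑M + 1) * pos n x - ((M:ℝ) + 1) < 0)]
    have : ((M:ℝ) + 1) * pos n x - (↑M + 1 - 1) = (↑M + 1) * pos n x - M := by ring
    rw [this]
    ring
  have gj : ∀ j ∈ range M, 2 * (l (j + 1) * hat (M + 1) ((j + 1 : ℕ) : ℤ) (pos n x))
      = l (j + 1) * (|((M:ℝ) + 1) * pos n x - (j : ℕ)|
        - 2 * |((M:ℝ) + 1) * pos n x - ((j + 1 : ℕ) : ℝ)|
        + |((M:ℝ) + 1) * pos n x - ((j + 2 : ℕ) : ℝ)|) := by
    intro j _
    rw [hat_eq_abs]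
    push_cast
    have e1 : ((M:ℝ) + 1) * pos n x - (↑j + 1 - 1) = (↑M + 1) * pos n x - j := by ring
    have e2 : ((M:ℝ) + 1) * pos n x - (↑j + 1 + 1) = (↑M + 1) * pos n x - (j + 2) := by ring
    rw [e1, e2]
    ring
  rw [sum_range_succ, sum_range_succ', mul_add, mul_add, mul_sum, sum_congr rfl gj]
  have g0' : 2 * (l 0 * hat (M + 1) ((0 : ℕ) : ℤ) (pos n x))
      = l 0 * ((|((M:ℝ) + 1) * pos n x - ((1 : ℕ) : ℝ)| - ((M:ℝ) + 1) * pos n x) + 1) := by
    rw [← g0]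
    ring
  have gN' : 2 * (l (M + 1) * hat (M + 1) ((M + 1 : ℕ) : ℤ) (pos n x))
      = l (M + 1) * ((|((M:ℝ) + 1) * pos n x - ((M : ℕ) : ℝ)| - ((M:ℝ) + 1) * (1 - pos n x)) + 1) := by
    rw [← gN]
    ring
  rw [g0', gN']
  have e3 : ∑ j ∈ range M, ((M:ℝ) + 1) * |pos n x - ((j + 1 : ℕ) : ℝ) / (M + 1)|
          * (l j - 2 * l (j + 1) + l (j + 2))
      = ∑ j ∈ range M, |((M:ℝ) + 1) * pos n x - ((j + 1 : ℕ) : ℝ)|
          * (l j - 2 * l (j + 1) + l (j + 2)) :=
    sum_congr rfl fun j _ => by rw [f]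
  rw [e3]
  linarith

/-- ALTERNATING SUM of a piecewise linear function -/
theorem weight_alt_le {n M : ℕ} (hn : M + 1 ≤ n) (d A : ℕ → ℝ)
    (hA : ∀ j, j < M → |d j - 2 * d (j + 1) + d (j + 2)| ≤ A (j + 1)) :
    |∑ x ∈ Ico (0 : ℤ) n, sg x * ∑ j ∈ range (M + 2), d j * hat (M + 1) (j : ℤ) (pos n x)|
      ≤ (|d 0| + |d (M + 1)|) / 2 + (M + 1) / (4 * n) * ∑ j ∈ range M, A (j + 1) := by
  have hn0 : 0 < n := by omega
  have hn' : (0:ℝ) < n := by exact_mod_cast hn0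
  have hN' : (0:ℝ) < (M:ℝ) + 1 := by positivity
  have hnM : (M:ℝ) + 1 ≤ n := by exact_mod_cast hn
  set al : ℕ → ℝ := fun j => ∑ x ∈ Ico (0 : ℤ) n, sg x * |pos n x - (j : ℝ) / (M + 1)| with hal
  -- main identity
  have e1 : 2 * ∑ x ∈ Ico (0 : ℤ) n, sg x * ∑ j ∈ range (M + 2), d j * hat (M + 1) (j : ℤ) (pos n x)
      = ∑ j ∈ range M, ((M:ℝ) + 1) * al (j + 1) * (d j - 2 * d (j + 1) + d (j + 2))
        + ((M:ℝ) + 1) * (-(sg n / 2)) * (d 1 - d 0)
        + ((M:ℝ) + 1) * ((1 - sg n) / 2 - -(sg n / 2)) * (d M - d (M + 1))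
        + (d 0 + d (M + 1)) * ((1 - sg n) / 2) := by
    rw [mul_sum]
    have : ∀ x ∈ Ico (0 : ℤ) n, 2 * (sg x * ∑ j ∈ range (M + 2), d j * hat (M + 1) (j : ℤ) (pos n x))
        = ∑ j ∈ range M, ((M:ℝ) + 1) * (sg x * |pos n x - ((j + 1 : ℕ) : ℝ) / (M + 1)|)
            * (d j - 2 * d (j + 1) + d (j + 2))
          + ((M:ℝ) + 1) * (sg x * pos n x) * (d 1 - d 0)
          + ((M:ℝ) + 1) * (sg x - sg x * pos n x) * (d M - d (M + 1))
          + (d 0 + d (M + 1)) * sg x := by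
      intro x hx
      rw [mem_Ico] at hx
      have := pl_abs (n := n) (M := M) d hx.1 hx.2
      have e : 2 * (sg x * ∑ j ∈ range (M + 2), d j * hat (M + 1) (j : ℤ) (pos n x))
          = sg x * (2 * ∑ j ∈ range (M + 2), d j * hat (M + 1) (j : ℤ) (pos n x)) := by ring
      rw [e, this, mul_add, mul_add, mul_add, mul_sum]
      have e2 : ∑ j ∈ range M, sg x * (((M:ℝ) + 1) * |pos n x - ((j + 1 : ℕ) : ℝ) / (M + 1)|
            * (d j - 2 * d (j + 1) + d (j + 2)))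
          = ∑ j ∈ range M, ((M:ℝ) + 1) * (sg x * |pos n x - ((j + 1 : ℕ) : ℝ) / (M + 1)|)
            * (d j - 2 * d (j + 1) + d (j + 2)) :=
        sum_congr rfl fun j _ => by ring
      rw [e2]
      ring
    rw [sum_congr rfl this, sum_add_distrib, sum_add_distrib, sum_add_distrib, sum_comm,
      ← mul_sum, ← sum_mul, ← mul_sum, ← sum_mul, ← mul_sum, sum_sub_distrib, alt_one, alt_pos hn0]
    congr 3
    refine sum_congr rfl fun j _ => ?_
    rw [hal, ← sum_mul, ← mul_sum]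
  -- moments of the second differences
  have m1 := abel2 M d (fun j => (j : ℝ))
  have m2 := abel2 M d (fun j => (M:ℝ) + 1 - j)
  push_cast at m1 m2
  have z1 : ∑ j ∈ range M, d (j + 1) * ((j:ℝ) - 2 * (↑j + 1) + (↑j + 2)) = 0 :=
    sum_eq_zero fun j _ => by ring
  have z2 : ∑ j ∈ range M, d (j + 1) * ((M:ℝ) + 1 - ↑j - 2 * (↑M + 1 - (↑j + 1))
      + (↑M + 1 - (↑j + 2))) = 0 :=
    sum_eq_zero fun j _ => by ring
  rw [z1] at m1
  rw [z2] at m2
  -- errors
  set er : ℕ → ℝ := fun j => al j - ((j : ℝ) / (M + 1) - sg n * (1 - (j : ℝ) / (M + 1))) / 2 with her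
  have her1 : ∀ j, j < M → |er (j + 1)| ≤ 1 / (2 * n) := by
    intro j hj
    have q1 : (1:ℝ) / (2 * n) ≤ 1 / (M + 1) := by
      apply one_div_le_one_div_of_le hN'
      linarith
    have q2 : (1:ℝ) / (M + 1) ≤ ((j + 1 : ℕ) : ℝ) / (M + 1) := by
      apply div_le_div_of_nonneg_right _ hN'.le
      push_cast
      have : (0:ℝ) ≤ j := Nat.cast_nonneg j
      linarith
    have q3 : ((j + 1 : ℕ) : ℝ) / (M + 1) ≤ 1 - 1 / (M + 1) := by
      rw [div_le_iff₀ hN', sub_mul, one_mul, one_div, inv_mul_cancel₀ hN'.ne']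
      have : ((j + 1 : ℕ) : ℝ) ≤ (M : ℝ) := by exact_mod_cast hj
      linarith
    exact alt_abs hn0 (q1.trans q2) (q3.trans (by linarith))
  have e2 : ∑ j ∈ range M, ((M:ℝ) + 1) * al (j + 1) * (d j - 2 * d (j + 1) + d (j + 2))
      = ∑ j ∈ range M, ((M:ℝ) + 1) * er (j + 1) * (d j - 2 * d (j + 1) + d (j + 2))
        + (1 / 2) * ∑ j ∈ range M, ((j:ℝ) + 1) * (d j - 2 * d (j + 1) + d (j + 2))
        - (sg n / 2) * ∑ j ∈ range M, ((M:ℝ) + 1 - (j + 1)) * (d j - 2 * d (j + 1) + d (j + 2)) := by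
    rw [mul_sum, mul_sum, ← sum_add_distrib, ← sum_sub_distrib]
    refine sum_congr rfl fun j _ => ?_
    have : al (j + 1) = er (j + 1)
        + (((j + 1 : ℕ) : ℝ) / (M + 1) - sg n * (1 - ((j + 1 : ℕ) : ℝ) / (M + 1))) / 2 := by
      rw [her]
      ring
    rw [this]
    push_cast
    field_simp
    ring
  have e3 : ∑ x ∈ Ico (0 : ℤ) n, sg x * ∑ j ∈ range (M + 2), d j * hat (M + 1) (j : ℤ) (pos n x)
      = (d 0 - sg n * d (M + 1)) / 2
        + (1 / 2) * ∑ j ∈ range M, ((M:ℝ) + 1) * er (j + 1) * (d j - 2 * d (j + 1) + d (j + 2)) := by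
    rw [e2] at e1
    linear_combination (1 / 2) * e1 - (1 / 4) * m1 + (sg n / 4) * m2
  rw [e3]
  have b1 : |(d 0 - sg n * d (M + 1)) / 2| ≤ (|d 0| + |d (M + 1)|) / 2 := by
    rw [abs_div, abs_two]
    have : |d 0 - sg n * d (M + 1)| ≤ |d 0| + |sg n * d (M + 1)| := abs_sub _ _
    rw [abs_mul, sg_abs, one_mul] at this
    linarith
  have b2 : |∑ j ∈ range M, ((M:ℝ) + 1) * er (j + 1) * (d j - 2 * d (j + 1) + d (j + 2))|
      ≤ (M + 1) / (2 * n) * ∑ j ∈ range M, A (j + 1) := by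
    refine (abs_sum_le_sum_abs _ _).trans ?_
    rw [mul_sum]
    refine sum_le_sum fun j hj => ?_
    rw [mem_range] at hj
    rw [abs_mul, abs_mul, abs_of_pos hN']
    have c1 := her1 j hj
    have c2 := hA j hj
    calc ((M:ℝ) + 1) * |er (j + 1)| * |d j - 2 * d (j + 1) + d (j + 2)|
        ≤ ((M:ℝ) + 1) * (1 / (2 * n)) * A (j + 1) := by
          apply mul_le_mul _ c2 (abs_nonneg _) (by positivity)
          exact mul_le_mul_of_nonneg_left c1 hN'.le
      _ = (M + 1) / (2 * n) * A (j + 1) := by ring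
  have b3 : |(1 / 2 : ℝ) * ∑ j ∈ range M, ((M:ℝ) + 1) * er (j + 1)
      * (d j - 2 * d (j + 1) + d (j + 2))| ≤ (M + 1) / (4 * n) * ∑ j ∈ range M, A (j + 1) := by
    rw [abs_mul, abs_of_pos (by norm_num : (0:ℝ) < 1 / 2)]
    calc (1 / 2 : ℝ) * |∑ j ∈ range M, ((M:ℝ) + 1) * er (j + 1)
          * (d j - 2 * d (j + 1) + d (j + 2))|
        ≤ (1 / 2) * ((M + 1) / (2 * n) * ∑ j ∈ range M, A (j + 1)) :=
          mul_le_mul_of_nonneg_left b2 (by norm_num)
      _ = (M + 1) / (4 * n) * ∑ j ∈ range M, A (j + 1) := by ring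
  exact (abs_add_le _ _).trans (add_le_add b1 b3)

/-- NORMALISATION with classes: `l e j` = price at node `j` of a label of class `e` -/
theorem weight_sum_geL {n M : ℕ} (hn : M + 1 ≤ n) (l : Bool → ℕ → ℝ) (D' A : ℕ → ℝ)
    (hD0 : ∀ j, j < M → 0 ≤ D' (j + 1))
    (hD : ∀ j, j < M → (l true j + l false j) - 2 * (l true (j + 1) + l false (j + 1))
      + (l true (j + 2) + l false (j + 2)) ≤ 2 * D' (j + 1))
    (hA : ∀ j, j < M → |(l true j - l false j) - 2 * (l true (j + 1) - l false (j + 1))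
      + (l true (j + 2) - l false (j + 2))| ≤ A (j + 1)) :
    (n : ℝ) / (M + 1) * ((l true 0 + l false 0) / 4
        + ∑ j ∈ range M, (l true (j + 1) + l false (j + 1)) / 2
        + (l true (M + 1) + l false (M + 1)) / 4)
      - (M + 1) / (8 * n) * ∑ j ∈ range M, D' (j + 1)
      - (|l true 0 - l false 0| + |l true (M + 1) - l false (M + 1)|) / 4
      - (M + 1) / (8 * n) * ∑ j ∈ range M, A (j + 1)
      ≤ ∑ x ∈ Ico (0 : ℤ) n, ∑ j ∈ range (M + 2),
          l (tp n x).1 j * hat (M + 1) (j : ℤ) (pos n x) := by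
  have hn0 : 0 < n := by omega
  have k1 := weight_sum_ge hn0 (fun j => (l true j + l false j) / 2) D' hD0
    (fun j hj => by
      have := hD j hj
      linarith)
  have k2 := weight_alt_le hn (fun j => l true j - l false j) A hA
  have e : ∑ x ∈ Ico (0 : ℤ) n, ∑ j ∈ range (M + 2),
          l (tp n x).1 j * hat (M + 1) (j : ℤ) (pos n x)
      = ∑ x ∈ Ico (0 : ℤ) n, ∑ j ∈ range (M + 2),
          (l true j + l false j) / 2 * hat (M + 1) (j : ℤ) (pos n x)
        + (1 / 2) * ∑ x ∈ Ico (0 : ℤ) n, sg x * ∑ j ∈ range (M + 2),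
          (l true j - l false j) * hat (M + 1) (j : ℤ) (pos n x) := by
    rw [mul_sum, ← sum_add_distrib]
    refine sum_congr rfl fun x _ => ?_
    rw [mul_sum, mul_sum, ← sum_add_distrib]
    refine sum_congr rfl fun j _ => ?_
    by_cases c : x % 2 = 0
    · have h1 : (tp n x).1 = true := by
        unfold tp
        simp [c]
      have h2 : sg x = 1 := by
        unfold sg
        rw [if_pos c]
      rw [h1, h2]
      ring
    · have h1 : (tp n x).1 = false := by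
        unfold tp
        simp [c]
      have h2 : sg x = -1 := by
        unfold sg
        rw [if_neg c]
      rw [h1, h2]
      ring
  rw [e]
  have k3 := (abs_le.1 k2).1
  have e4 : (n : ℝ) / (M + 1) * ((l true 0 + l false 0) / 4
        + ∑ j ∈ range M, (l true (j + 1) + l false (j + 1)) / 2
        + (l true (M + 1) + l false (M + 1)) / 4)
      = (n : ℝ) / (M + 1) * ((l true 0 + l false 0) / 2 / 2
        + ∑ j ∈ range M, (l true (j + 1) + l false (j + 1)) / 2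
        + (l true (M + 1) + l false (M + 1)) / 2 / 2) := by
    ring
  rw [e4]
  have e5 : ((M:ℝ) + 1) / (4 * n) * ∑ j ∈ range M, A (j + 1)
      = 2 * ((M + 1) / (8 * n) * ∑ j ∈ range M, A (j + 1)) := by
    ring
  rw [e5] at k3
  linarith

/-- a typed three point certificate for the linear facts `ℓ j ≥ 0`, `j ∈ J` -/
def CertifiedL (n : ℕ) (cE : ℝ) {ιJ : Type} (J : Finset ιJ) (ℓ : ιJ → Pt → ℝ) : Prop :=
  ∃ (g : Pt → Bool → ℝ → ℝ) (H : Pt → ℝ → ℝ) (κ : Pt → ℝ) (m : ℕ) (s : Fin m → Pt → Pt → ℝ) (ν : ιJ → Pt → Pt → ℝ)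
    (θ γ : ℝ), (∀ z e x, 0 ≤ g z e x) ∧ (∀ z e x, g z e x ≤ H z x) ∧ (∀ z, 0 ≤ κ z) ∧ (∀ j ∈ J, ∀ a b, 0 ≤ ν j a b) ∧
    0 < θ ∧ θ ≤ γ ∧
    (∀ z : Pt, z.In → γ * n ≤ ∑ x ∈ Ico (0 : ℤ) n, g z (tp n x).1 (pos n x)) ∧
    ∀ a b c : Pt, a.In → b.In → c.In →
      sym6 (FL g H κ cE J ν ℓ) a b c + 2 * sq3 univ s a b c ≤ 6 * θ

theorem CertifiedL.false {n : ℕ} {A : Finset ℕ} (h : IsMaximalThreeFree n A)
    (hlt : A.card ^ 2 < n) {ιJ : Type} {J : Finset ιJ} {ℓ : ιJ → Pt → ℝ}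
    (cert : CertifiedL n (13 / 18) J ℓ) (hJ : ∀ j ∈ J, 0 ≤ linT n (shift A) (ℓ j)) : False := by
  obtain ⟨g, H, κ, m, s, ν, θ, γ, hg, hH, hκ, hν, hθ, hθγ, hsum, h3⟩ := cert
  have hn : 0 < n := lt_of_le_of_lt (Nat.zero_le _) hlt
  have hCE : (13 / 18 : ℝ) * ((shift A).card : ℝ) ^ 2 ≤ ∑ y ∈ Ico (0 : ℤ) n, lab (shift A) y := by
    rw [card_shift]
    exact CE.ce_lab h hlt
  have key := three_point_boundL hn (shift A) (fun a ha => shift_bounds h ha) (cov_of_maximal h)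
    g hg H hH κ hκ hCE J ν hν ℓ hJ univ s hsum h3
  rw [card_shift] at key
  have hk := card_pos_of_maximal h hn
  have hk' : (0:ℝ) < A.card := by exact_mod_cast hk
  have hn' : (0:ℝ) < n := by exact_mod_cast hn
  have hlt' : (A.card : ℝ) ^ 2 < n := by exact_mod_cast hlt
  have h1 : θ * (A.card : ℝ) ^ 3 < θ * n * A.card := by
    have h5 : (A.card : ℝ) ^ 2 * (A.card : ℝ) < (n : ℝ) * (A.card : ℝ) :=
      mul_lt_mul_of_pos_right hlt' hk'
    have h6 := mul_lt_mul_of_pos_left h5 hθ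
    have e1 : θ * (A.card : ℝ) ^ 3 = θ * ((A.card : ℝ) ^ 2 * (A.card : ℝ)) := by ring
    rw [e1, mul_assoc]
    exact h6
  have h2 : θ * n * A.card ≤ γ * n * A.card :=
    mul_le_mul_of_nonneg_right (mul_le_mul_of_nonneg_right hθγ hn'.le) hk'.le
  linarith

/-! ### Boxes -/

/-- certificate of a box -/
def BoxCertL (n : ℕ) {m : ℕ} (χ : Fin m → Pt → ℝ) (lo hi : Fin m → ℝ) : Prop :=
  CertifiedL n (13 / 18) univ (boxFunT χ lo hi)

theorem BoxCertL.false {n : ℕ} {A : Finset ℕ} (h : IsMaximalThreeFree n A)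
    (hlt : A.card ^ 2 < n) {m : ℕ} {χ : Fin m → Pt → ℝ} {lo hi : Fin m → ℝ}
    (cert : BoxCertL n χ lo hi) (hb : InBoxT n (shift A) χ lo hi) : False := by
  refine CertifiedL.false h hlt cert fun j _ => ?_
  rcases j with ⟨i, b⟩ | b
  · cases b
    · have e : linT n (shift A) (boxFunT χ lo hi (Sum.inl (i, Bool.false)))
          = hi i * (shift A).card - linT n (shift A) (χ i) := by
        rw [← linT_const n (shift A) (hi i), ← linT_sub]
        rfl
      rw [e]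
      linarith [(hb i).2]
    · have e : linT n (shift A) (boxFunT χ lo hi (Sum.inl (i, Bool.true)))
          = linT n (shift A) (χ i) - lo i * (shift A).card := by
        rw [← linT_const n (shift A) (lo i), ← linT_sub]
        rfl
      rw [e]
      linarith [(hb i).1]
  · have e : linT n (shift A) (boxFunT χ lo hi (.inr b))
        = linT n (shift A) (clsF b) - 1 / 3 * (shift A).card := by
      rw [← linT_const n (shift A) (1 / 3), ← linT_sub]
      rfl
    rw [e]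
    linarith [class_facts h hlt b]

/-- certified leaves exclude the root box -/
theorem tree_falseL {n : ℕ} {A : Finset ℕ} (h : IsMaximalThreeFree n A)
    (hlt : A.card ^ 2 < n) {m : ℕ} {χ : Fin m → Pt → ℝ} (T : BT m) :
    ∀ (lo hi : Fin m → ℚ),
    (∀ b ∈ T.leaves lo hi, BoxCertL n χ (fun i => ((b.1 i : ℚ) : ℝ)) (fun i => ((b.2 i : ℚ) : ℝ))) →
    InBoxT n (shift A) χ (fun i => ((lo i : ℚ) : ℝ)) (fun i => ((hi i : ℚ) : ℝ)) → False := by
  induction T with
  | leaf =>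
    intro lo hi hall hb
    exact BoxCertL.false h hlt (hall (lo, hi) (by simp [BT.leaves])) hb
  | node j c l r ihl ihr =>
    intro lo hi hall hb
    rcases hb.split j (c : ℝ) with h1 | h1
    · refine ihl lo (Function.update hi j c) (fun b hbm => hall b ?_) ?_
      · simp only [BT.leaves, List.mem_append]
        exact Or.inl hbm
      · rw [cast_update]
        exact h1
    · refine ihr (Function.update lo j c) hi (fun b hbm => hall b ?_) ?_
      · simp only [BT.leaves, List.mem_append]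
        exact Or.inr hbm
      · rw [cast_update]
        exact h1

/-- ONE FUNCTIONAL, no tree: the share of `χ0` is less than `f` -/
theorem share_ltL {n : ℕ} {A : Finset ℕ} (h : IsMaximalThreeFree n A) (hlt : A.card ^ 2 < n)
    {χ0 : ℝ → ℝ} {f : ℝ}
    (cert : BoxCertL n (fun _ : Fin 1 => fun z : Pt => χ0 z.2) (fun _ => f) (fun _ => 1))
    (hχ : ∀ x, χ0 x ≤ 1) : lin n (shift A) χ0 < f * A.card := by
  by_contra hc
  push Not at hc
  refine BoxCertL.false h hlt cert fun j => ⟨?_, ?_⟩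
  · rw [card_shift]
    exact hc
  · rw [one_mul]
    calc linT n (shift A) (fun z : Pt => χ0 z.2) ≤ linT n (shift A) (fun _ => (1:ℝ)) :=
          sum_le_sum fun a _ => hχ _
      _ = (shift A).card := by rw [linT_const, one_mul]

end

end MP61673a.TP
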