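import Pool.Agent.Mu673.BridgeT
import Pool.Agent.Mu673.FarBoxT

/-!
From NODE DATA to the typed box certificate `BoxCertT` for every `n ≥ n0`.
-/

set_option autoImplicit false

namespace MP61673a.Bridge

open Finset MP61673a.Kink MP61673a.Sos
open MP61673a.TP (pos pos_mem Pt boxFunT BoxCertT CertifiedT clsF weight_sum_ge)

noncomputable section

/-- node values of the linear facts of a box and of the two class facts -/
def boxNode {m : ℕ} (χn : Fin m → Bool × ℤ → ℝ) (lo hi : Fin m → ℝ) :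
    (Fin m × Bool) ⊕ Bool → Bool × ℤ → ℝ
  | .inl j, s => if j.2 then χn j.1 s - lo j.1 else hi j.1 - χn j.1 s
  | .inr b, s => (if s.1 = b then 1 else 0) - 1 / 3

lemma kT_affine (N : ℕ) (u : Bool × ℤ → ℝ) (r c : ℝ) {z : Pt} (hz : 0 ≤ z.2 ∧ z.2 ≤ 1) :
    kT N (fun s => r * u s + c) z = r * kT N u z + c := by
  unfold kT
  have h1 := sum_hat_one (near_nd (N := N) hz.1 hz.2)
  have h2 : ∑ i ∈ nd N, hat i (N * z.2) * (r * u (z.1, i) + c)
      = r * ∑ i ∈ nd N, hat i (N * z.2) * u (z.1, i) + (∑ i ∈ nd N, hat i (N * z.2)) * c := by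
    rw [mul_sum, sum_mul, ← sum_add_distrib]
    refine sum_congr rfl fun i _ => ?_
    ring
  rw [h2, h1, one_mul]

lemma kT_class (N : ℕ) (b : Bool) {z : Pt} (hz : 0 ≤ z.2 ∧ z.2 ≤ 1) :
    kT N (fun s : Bool × ℤ => if s.1 = b then (1:ℝ) else 0) z = clsF b z := by
  unfold kT clsF
  rw [← sum_mul (nd N) (fun i => hat i (N * z.2)) (if z.1 = b then (1:ℝ) else 0),
    sum_hat_one (near_nd hz.1 hz.2), one_mul]

/-- the linear functions of the box are the interpolations of their node values -/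
lemma boxFunT_eq (N : ℕ) {m : ℕ} (χn : Fin m → Bool × ℤ → ℝ) (lo hi : Fin m → ℝ)
    (q : (Fin m × Bool) ⊕ Bool) {z : Pt} (hz : 0 ≤ z.2 ∧ z.2 ≤ 1) :
    boxFunT (fun j => kT N (χn j)) lo hi q z = kT N (boxNode χn lo hi q) z := by
  rcases q with ⟨j, b⟩ | b
  · cases b
    · have h := kT_affine N (χn j) (-1) (hi j) hz
      have e : boxNode χn lo hi (Sum.inl (j, Bool.false)) = fun s => (-1) * χn j s + hi j := by
        funext s
        simp only [boxNode, Bool.false_eq_true, if_false]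
        ring
      rw [e, h]
      simp only [boxFunT, Bool.false_eq_true, if_false]
      ring
    · have h := kT_affine N (χn j) 1 (-lo j) hz
      have e : boxNode χn lo hi (Sum.inl (j, Bool.true)) = fun s => 1 * χn j s + -lo j := by
        funext s
        simp only [boxNode, if_true]
        ring
      rw [e, h]
      simp only [boxFunT, if_true]
      ring
  · have h := kT_affine N (fun s : Bool × ℤ => if s.1 = b then (1:ℝ) else 0) 1 (-(1 / 3)) hz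
    have e : boxNode χn lo hi (Sum.inr b)
        = fun s : Bool × ℤ => 1 * (if s.1 = b then (1:ℝ) else 0) + -(1 / 3) := by
      funext s
      simp only [boxNode]
      ring
    rw [e, h, kT_class N b hz]
    simp only [boxFunT]
    ring

lemma pl_sum_eq {M : ℕ} (lam : ℤ → ℝ) {n : ℕ} :
    ∑ x ∈ Ico (0 : ℤ) n, pl lam (((M + 1 : ℕ) : ℝ) * pos n x)
      = ∑ x ∈ Ico (0 : ℤ) n, ∑ j ∈ range (M + 2), lam (j : ℤ) * TP.hat (M + 1) (j : ℤ) (pos n x) := by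
  refine sum_congr rfl fun x hx => ?_
  rw [mem_Ico] at hx
  have hp := pos_mem hx.1 hx.2
  rw [pl_eq_sum (near_nd (N := M + 1) hp.1.le hp.2.le) lam]
  have e : nd (M + 1) = (range (M + 2)).image (fun j : ℕ => (j : ℤ)) := by
    ext y
    simp only [nd, mem_Icc, mem_image, mem_range]
    constructor
    · rintro ⟨h0, h1⟩
      refine ⟨y.toNat, ?_, ?_⟩
      · push_cast at h1
        omega
      · omega
    · rintro ⟨j, hj, rfl⟩
      push_cast
      omega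
  rw [e, sum_image (by
    intro a _ b _ h
    have h' : (a : ℤ) = (b : ℤ) := h
    exact_mod_cast h')]
  refine sum_congr rfl fun j _ => ?_
  rw [mul_comm]
  rfl

/-- normalisation of a sampler node -/
lemma node_sum {n n0 M : ℕ} (hn0 : 0 < n0) (hn : n0 ≤ n) {lam D' : ℤ → ℝ} {θ : ℝ}
    (h0 : ∀ y, 0 ≤ D' y) (h1 : ∀ y, lam (y - 1) + lam (y + 1) - 2 * lam y ≤ D' y)
    (hs : θ ≤ 1 / ((M : ℝ) + 1) * (lam 0 / 2 + ∑ j ∈ range M, lam ((j + 1 : ℕ) : ℤ)
        + lam ((M + 1 : ℕ) : ℤ) / 2)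
      - ((M : ℝ) + 1) / (8 * (n0 : ℝ) ^ 2) * ∑ j ∈ range M, D' ((j + 1 : ℕ) : ℤ)) :
    θ * n ≤ ∑ x ∈ Ico (0 : ℤ) n, pl lam (((M + 1 : ℕ) : ℝ) * pos n x) := by
  have hnpos : 0 < n := lt_of_lt_of_le hn0 hn
  have hn' : (0:ℝ) < n := by exact_mod_cast hnpos
  have hn0' : (0:ℝ) < n0 := by exact_mod_cast hn0
  have hnn : (n0:ℝ) ≤ n := by exact_mod_cast hn
  rw [pl_sum_eq]
  have w := weight_sum_ge (M := M) hnpos (fun j => lam (j : ℤ)) (fun j => D' (j : ℤ))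
    (fun j _ => h0 _) (fun j _ => by
      have := h1 ((j + 1 : ℕ) : ℤ)
      have e1 : (((j + 1 : ℕ) : ℤ) - 1) = ((j : ℕ) : ℤ) := by push_cast; ring
      have e2 : (((j + 1 : ℕ) : ℤ) + 1) = ((j + 2 : ℕ) : ℤ) := by push_cast; ring
      rw [e1, e2] at this
      linarith)
  refine le_trans ?_ w
  set Dsum := ∑ j ∈ range M, D' ((j + 1 : ℕ) : ℤ) with hDsum
  have hDpos : 0 ≤ Dsum := sum_nonneg fun j _ => h0 _
  set tr := lam 0 / 2 + ∑ j ∈ range M, lam ((j + 1 : ℕ) : ℤ) + lam ((M + 1 : ℕ) : ℤ) / 2 with htr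
  have h3 := mul_le_mul_of_nonneg_right hs hn'.le
  have h4 : ((M : ℝ) + 1) / (8 * n) * Dsum ≤ ((M : ℝ) + 1) / (8 * (n0 : ℝ) ^ 2) * Dsum * n := by
    have e : ((M : ℝ) + 1) / (8 * (n0 : ℝ) ^ 2) * Dsum * n
        = ((M : ℝ) + 1) / (8 * n) * Dsum * ((n : ℝ) ^ 2 / (n0 : ℝ) ^ 2) := by
      field_simp
    rw [e]
    have h5 : 1 ≤ (n : ℝ) ^ 2 / (n0 : ℝ) ^ 2 := by
      rw [le_div_iff₀ (by positivity)]
      nlinarith
    have h6 : 0 ≤ ((M : ℝ) + 1) / (8 * n) * Dsum := by positivity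
    nlinarith
  have e5 : (n : ℝ) / (M + 1) * (lam (0 : ℕ) / 2 + ∑ j ∈ range M, lam ((j + 1 : ℕ) : ℤ)
      + lam ((M + 1 : ℕ) : ℤ) / 2) = 1 / ((M : ℝ) + 1) * tr * n := by
    rw [htr]
    simp only [Nat.cast_zero]
    ring
  rw [e5]
  linarith

/-- NODE DATA GIVE THE BOX CERTIFICATE -/
theorem boxCertT_of_nodes {n n0 M : ℕ} (hn0 : 0 < n0) (hn : n0 ≤ n) {m : ℕ}
    (χn : Fin m → Bool × ℤ → ℝ) (lo hi : Fin m → ℝ)
    {lam D D' : Bool × ℤ → ℤ → ℝ} {kap : Bool × ℤ → ℝ} {inl Din : ℤ → ℝ}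
    {nu : (Fin m × Bool) ⊕ Bool → Bool × ℤ → Bool × ℤ → ℝ} {p : ℕ}
    {sg : Fin p → Bool × ℤ → Bool × ℤ → ℝ} {θ : ℝ} (hθ : 0 < θ)
    (hlam : ∀ s y, 0 ≤ lam s y) (hD : ∀ s, Kinks (lam s) (D s))
    (hkap : ∀ s, 0 ≤ kap s) (hin0 : ∀ y, 0 ≤ inl y)
    (hin1 : ∀ y : ℤ, 0 ≤ y → y ≤ ((M + 1 : ℕ) : ℤ) → 1 ≤ inl y) (hDin : Kinks inl Din)
    (hnu : ∀ q s t, 0 ≤ nu q s t)
    (hD'0 : ∀ s y, 0 ≤ D' s y) (hD'1 : ∀ s y, lam s (y - 1) + lam s (y + 1) - 2 * lam s y ≤ D' s y)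
    (hsum : ∀ e, ∀ i ∈ nd (M + 1),
      θ ≤ 1 / ((M : ℝ) + 1) * (lam (e, i) 0 / 2 + ∑ j ∈ range M, lam (e, i) ((j + 1 : ℕ) : ℤ)
          + lam (e, i) ((M + 1 : ℕ) : ℤ) / 2)
        - ((M : ℝ) + 1) / (8 * (n0 : ℝ) ^ 2) * ∑ j ∈ range M, D' (e, i) ((j + 1 : ℕ) : ℤ))
    (hnode : ∀ z a b : Bool × ℤ, z.2 ∈ nd (M + 1) → a.2 ∈ nd (M + 1) → b.2 ∈ nd (M + 1) →
      sym6 (FnT lam D kap inl Din (13 / 18) univ nu (boxNode χn lo hi)) z a b
        + 2 * sq3 univ sg z a b ≤ 6 * θ) :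
    BoxCertT n (fun j => kT (M + 1) (χn j)) lo hi := by
  set Ix : Finset (Fin p × ℤ) := (univ : Finset (Fin p)) ×ˢ nd (M + 1) with hIx
  refine ⟨gT (M + 1) lam, kT (M + 1) kap, Ix.card,
    fun q => sT (M + 1) sg ((Ix.equivFin.symm q : Ix) : Fin p × ℤ), fun q => nT (M + 1) (nu q),
    θ, θ, fun z x => gT_nonneg _ hlam z x, fun z => kT_nonneg _ hkap z,
    fun q _ a b => nT_nonneg _ (hnu q) a b, hθ, le_rfl, ?_, ?_⟩
  · intro z hz
    exact gT_sum (fun e i hi => node_sum hn0 hn (hD'0 (e, i)) (hD'1 (e, i)) (hsum e i hi)) z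
      ⟨hz.1.le, hz.2.le⟩
  · intro a b c ha hb hc
    have key := bridgeT (C := Bool) (κι := Fin p) (ιJ := (Fin m × Bool) ⊕ Bool) (N := M + 1)
      (cE := 13 / 18) (J := univ) (K := univ) (l := boxNode χn lo hi) hlam hD hkap hin0 hin1 hDin
      hnode ha hb hc
    have e1 : ∀ z x y : Pt, z.In → TP.FT (gT (M + 1) lam) (kT (M + 1) kap) (13 / 18) univ
          (fun q => nT (M + 1) (nu q)) (boxFunT (fun j => kT (M + 1) (χn j)) lo hi) z x y
        = FT (gT (M + 1) lam) (kT (M + 1) kap) (13 / 18) univ (fun q => nT (M + 1) (nu q))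
          (fun q => kT (M + 1) (boxNode χn lo hi q)) z x y := by
      intro z x y hz
      unfold TP.FT FT
      congr 1
      refine sum_congr rfl fun q _ => ?_
      rw [boxFunT_eq (M + 1) χn lo hi q ⟨hz.1.le, hz.2.le⟩]
    have e2 : sym6 (TP.FT (gT (M + 1) lam) (kT (M + 1) kap) (13 / 18) univ
          (fun q => nT (M + 1) (nu q)) (boxFunT (fun j => kT (M + 1) (χn j)) lo hi)) a b c
        = sym6 (FT (gT (M + 1) lam) (kT (M + 1) kap) (13 / 18) univ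
          (fun q => nT (M + 1) (nu q)) (fun q => kT (M + 1) (boxNode χn lo hi q))) a b c := by
      unfold sym6
      rw [e1 a b c ha, e1 a c b ha, e1 b a c hb, e1 b c a hb, e1 c a b hc, e1 c b a hc]
    have e3 : sq3 univ (fun q : Fin Ix.card =>
          sT (M + 1) sg ((Ix.equivFin.symm q : Ix) : Fin p × ℤ)) a b c
        = sq3 Ix (sT (M + 1) sg) a b c := by
      unfold sq3
      rw [Equiv.sum_comp Ix.equivFin.symm (fun q : Ix => sT (M + 1) sg (q : Fin p × ℤ) a b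
          * sT (M + 1) sg (q : Fin p × ℤ) a c + sT (M + 1) sg (q : Fin p × ℤ) b a
          * sT (M + 1) sg (q : Fin p × ℤ) b c + sT (M + 1) sg (q : Fin p × ℤ) c a
          * sT (M + 1) sg (q : Fin p × ℤ) c b)]
      exact sum_coe_sort Ix (fun q => sT (M + 1) sg q a b * sT (M + 1) sg q a c
        + sT (M + 1) sg q b a * sT (M + 1) sg q b c + sT (M + 1) sg q c a * sT (M + 1) sg q c b)
    rw [e2, e3]
    exact key

end

end MP61673a.Bridge
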