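import Pool.Agent.Mu673.BridgeL
import Pool.Agent.Mu673.FarBoxL
import Pool.Agent.Mu673.FarCert

/-!
From NODE DATA with typed labels to the box certificate `BoxCertL` for every `n ≥ n0`.
-/

set_option autoImplicit false

namespace MP61673a.Bridge

open Finset MP61673a.Kink MP61673a.Sos
open MP61673a.TP (pos pos_mem Pt tp boxFunT BoxCertL CertifiedL weight_sum_geL)

noncomputable section

lemma pl_sum_eqL {M : ℕ} (lam : Bool → ℤ → ℝ) {n : ℕ} :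
    ∑ x ∈ Ico (0 : ℤ) n, pl (lam (tp n x).1) (((M + 1 : ℕ) : ℝ) * pos n x)
      = ∑ x ∈ Ico (0 : ℤ) n, ∑ j ∈ range (M + 2),
          lam (tp n x).1 (j : ℤ) * TP.hat (M + 1) (j : ℤ) (pos n x) := by
  refine sum_congr rfl fun x hx => ?_
  rw [mem_Ico] at hx
  have hp := pos_mem hx.1 hx.2
  rw [pl_eq_sum (near_nd (N := M + 1) hp.1.le hp.2.le) (lam (tp n x).1)]
  have e : nd (M + 1) = (range (M + 2)).image (fun j : ℕ => (j : ℤ)) := by
    ext y
    simp only [nd, mem_Icc, mem_image, mem_range]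
    constructor
    · rintro ⟨h0, h1⟩
      refine ⟨y.toNat, ?_, ?_⟩
      · push_cast at h1
        omega
      · omega
    · rintro ⟨j, hj, rfl⟩
      push_cast
      omega
  rw [e, sum_image (by
    intro a _ b _ h
    have h' : (a : ℤ) = (b : ℤ) := h
    exact_mod_cast h')]
  refine sum_congr rfl fun j _ => ?_
  rw [mul_comm]
  rfl

/-- normalisation of a sampler node, typed labels: `lam e y`, mean kinks `D'`, difference kinks
`Ad` -/
lemma node_sumL {n n0 M : ℕ} (hM : M + 1 ≤ n0) (hn : n0 ≤ n) {lam : Bool → ℤ → ℝ}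
    {D' Ad : ℤ → ℝ} {θ : ℝ}
    (h0 : ∀ y, 0 ≤ D' y)
    (h1 : ∀ y, (lam true (y - 1) + lam false (y - 1)) - 2 * (lam true y + lam false y)
      + (lam true (y + 1) + lam false (y + 1)) ≤ 2 * D' y)
    (h2 : ∀ y, |(lam true (y - 1) - lam false (y - 1)) - 2 * (lam true y - lam false y)
      + (lam true (y + 1) - lam false (y + 1))| ≤ Ad y)
    (hs : θ ≤ 1 / ((M : ℝ) + 1) * ((lam true 0 + lam false 0) / 4
        + ∑ j ∈ range M, (lam true ((j + 1 : ℕ) : ℤ) + lam false ((j + 1 : ℕ) : ℤ)) / 2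
        + (lam true ((M + 1 : ℕ) : ℤ) + lam false ((M + 1 : ℕ) : ℤ)) / 4)
      - ((M : ℝ) + 1) / (8 * (n0 : ℝ) ^ 2)
        * (∑ j ∈ range M, D' ((j + 1 : ℕ) : ℤ) + ∑ j ∈ range M, Ad ((j + 1 : ℕ) : ℤ))
      - (|lam true 0 - lam false 0|
        + |lam true ((M + 1 : ℕ) : ℤ) - lam false ((M + 1 : ℕ) : ℤ)|) / (4 * n0)) :
    θ * n ≤ ∑ x ∈ Ico (0 : ℤ) n, pl (lam (tp n x).1) (((M + 1 : ℕ) : ℝ) * pos n x) := by
  have hn0 : 0 < n0 := lt_of_lt_of_le (Nat.succ_pos M) hM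
  have hnpos : 0 < n := lt_of_lt_of_le hn0 hn
  have hn' : (0:ℝ) < n := by exact_mod_cast hnpos
  have hn0' : (0:ℝ) < n0 := by exact_mod_cast hn0
  have hnn : (n0:ℝ) ≤ n := by exact_mod_cast hn
  rw [pl_sum_eqL]
  have w := weight_sum_geL (M := M) (hM.trans hn) (fun e j => lam e (j : ℤ))
    (fun j => D' (j : ℤ)) (fun j => Ad (j : ℤ)) (fun j _ => h0 _) (fun j _ => by
      have := h1 ((j + 1 : ℕ) : ℤ)
      have e1 : (((j + 1 : ℕ) : ℤ) - 1) = ((j : ℕ) : ℤ) := by push_cast; ring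
      have e2 : (((j + 1 : ℕ) : ℤ) + 1) = ((j + 2 : ℕ) : ℤ) := by push_cast; ring
      rw [e1, e2] at this
      exact this) (fun j _ => by
      have := h2 ((j + 1 : ℕ) : ℤ)
      have e1 : (((j + 1 : ℕ) : ℤ) - 1) = ((j : ℕ) : ℤ) := by push_cast; ring
      have e2 : (((j + 1 : ℕ) : ℤ) + 1) = ((j + 2 : ℕ) : ℤ) := by push_cast; ring
      rw [e1, e2] at this
      exact this)
  refine le_trans ?_ w
  have hAd0 : ∀ y, 0 ≤ Ad y := fun y => (abs_nonneg _).trans (h2 y)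
  set Dsum := ∑ j ∈ range M, D' ((j + 1 : ℕ) : ℤ) with hDsum
  set Asum := ∑ j ∈ range M, Ad ((j + 1 : ℕ) : ℤ) with hAsum
  have hDpos : 0 ≤ Dsum := sum_nonneg fun j _ => h0 _
  have hApos : 0 ≤ Asum := sum_nonneg fun j _ => hAd0 _
  set E0 := |lam true 0 - lam false 0|
    + |lam true ((M + 1 : ℕ) : ℤ) - lam false ((M + 1 : ℕ) : ℤ)| with hE0
  have hE0pos : 0 ≤ E0 := add_nonneg (abs_nonneg _) (abs_nonneg _)
  set tr := (lam true 0 + lam false 0) / 4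
        + ∑ j ∈ range M, (lam true ((j + 1 : ℕ) : ℤ) + lam false ((j + 1 : ℕ) : ℤ)) / 2
        + (lam true ((M + 1 : ℕ) : ℤ) + lam false ((M + 1 : ℕ) : ℤ)) / 4 with htr
  have h3 := mul_le_mul_of_nonneg_right hs hn'.le
  have h4 : ((M : ℝ) + 1) / (8 * n) * (Dsum + Asum)
      ≤ ((M : ℝ) + 1) / (8 * (n0 : ℝ) ^ 2) * (Dsum + Asum) * n := by
    have e : ((M : ℝ) + 1) / (8 * (n0 : ℝ) ^ 2) * (Dsum + Asum) * n
        = ((M : ℝ) + 1) / (8 * n) * (Dsum + Asum) * ((n : ℝ) ^ 2 / (n0 : ℝ) ^ 2) := by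
      field_simp
    rw [e]
    have h5 : 1 ≤ (n : ℝ) ^ 2 / (n0 : ℝ) ^ 2 := by
      rw [le_div_iff₀ (by positivity)]
      nlinarith
    have h6 : 0 ≤ ((M : ℝ) + 1) / (8 * n) * (Dsum + Asum) := by positivity
    nlinarith
  have h7 : E0 / 4 ≤ E0 / (4 * n0) * n := by
    have e : E0 / (4 * n0) * n = E0 / 4 * ((n : ℝ) / n0) := by
      field_simp
    rw [e]
    have h5 : 1 ≤ (n : ℝ) / n0 := by
      rw [le_div_iff₀ hn0']
      linarith
    nlinarith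
  have e5 : (n : ℝ) / (M + 1) * tr = 1 / ((M : ℝ) + 1) * tr * n := by ring
  have e6 : (n : ℝ) / (M + 1) * ((lam true ((0 : ℕ) : ℤ) + lam false ((0 : ℕ) : ℤ)) / 4
        + ∑ j ∈ range M, (lam true ((j + 1 : ℕ) : ℤ) + lam false ((j + 1 : ℕ) : ℤ)) / 2
        + (lam true ((M + 1 : ℕ) : ℤ) + lam false ((M + 1 : ℕ) : ℤ)) / 4)
      = (n : ℝ) / (M + 1) * tr := by
    rw [htr]
    simp only [Nat.cast_zero]
  have e7 : (|lam true ((0 : ℕ) : ℤ) - lam false ((0 : ℕ) : ℤ)|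
        + |lam true ((M + 1 : ℕ) : ℤ) - lam false ((M + 1 : ℕ) : ℤ)|) / 4 = E0 / 4 := by
    rw [hE0]
    simp only [Nat.cast_zero]
  rw [e6, e7, e5]
  have e8 : ((M : ℝ) + 1) / (8 * n) * (Dsum + Asum)
      = ((M : ℝ) + 1) / (8 * n) * Dsum + ((M : ℝ) + 1) / (8 * n) * Asum := by ring
  nlinarith [h3, h4, h7, e8]

/-- NODE DATA WITH TYPED LABELS GIVE THE BOX CERTIFICATE -/
theorem boxCertL_of_nodes {n n0 M : ℕ} (hM : M + 1 ≤ n0) (hn : n0 ≤ n) {m : ℕ}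
    (χn : Fin m → Bool × ℤ → ℝ) (lo hi : Fin m → ℝ)
    {lam D : Bool × ℤ → Bool → ℤ → ℝ} {lamH DH D' Ad : Bool × ℤ → ℤ → ℝ} {kap : Bool × ℤ → ℝ}
    {inl Din : ℤ → ℝ}
    {nu : (Fin m × Bool) ⊕ Bool → Bool × ℤ → Bool × ℤ → ℝ} {p : ℕ}
    {sg : Fin p → Bool × ℤ → Bool × ℤ → ℝ} {θ : ℝ} (hθ : 0 < θ)
    (hlam : ∀ s e y, 0 ≤ lam s e y) (hH : ∀ s e y, lam s e y ≤ lamH s y)
    (hD : ∀ s e, Kinks (lam s e) (D s e)) (hDH : ∀ s, Kinks (lamH s) (DH s))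
    (hkap : ∀ s, 0 ≤ kap s) (hin0 : ∀ y, 0 ≤ inl y)
    (hin1 : ∀ y : ℤ, 0 ≤ y → y ≤ ((M + 1 : ℕ) : ℤ) → 1 ≤ inl y) (hDin : Kinks inl Din)
    (hnu : ∀ q s t, 0 ≤ nu q s t)
    (hD'0 : ∀ s y, 0 ≤ D' s y)
    (hD'1 : ∀ s y, (lam s true (y - 1) + lam s false (y - 1)) - 2 * (lam s true y + lam s false y)
      + (lam s true (y + 1) + lam s false (y + 1)) ≤ 2 * D' s y)
    (hAd : ∀ s y, |(lam s true (y - 1) - lam s false (y - 1))
      - 2 * (lam s true y - lam s false y)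
      + (lam s true (y + 1) - lam s false (y + 1))| ≤ Ad s y)
    (hsum : ∀ e, ∀ i ∈ nd (M + 1),
      θ ≤ 1 / ((M : ℝ) + 1) * ((lam (e, i) true 0 + lam (e, i) false 0) / 4
          + ∑ j ∈ range M, (lam (e, i) true ((j + 1 : ℕ) : ℤ)
            + lam (e, i) false ((j + 1 : ℕ) : ℤ)) / 2
          + (lam (e, i) true ((M + 1 : ℕ) : ℤ) + lam (e, i) false ((M + 1 : ℕ) : ℤ)) / 4)
        - ((M : ℝ) + 1) / (8 * (n0 : ℝ) ^ 2)
          * (∑ j ∈ range M, D' (e, i) ((j + 1 : ℕ) : ℤ) + ∑ j ∈ range M, Ad (e, i) ((j + 1 : ℕ) : ℤ))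
        - (|lam (e, i) true 0 - lam (e, i) false 0|
          + |lam (e, i) true ((M + 1 : ℕ) : ℤ) - lam (e, i) false ((M + 1 : ℕ) : ℤ)|) / (4 * n0))
    (hnode : ∀ z a b : Bool × ℤ, z.2 ∈ nd (M + 1) → a.2 ∈ nd (M + 1) → b.2 ∈ nd (M + 1) →
      sym6 (FnL lam D lamH DH kap inl Din (13 / 18) univ nu (boxNode χn lo hi)) z a b
        + 2 * sq3 univ sg z a b ≤ 6 * θ) :
    BoxCertL n (fun j => kT (M + 1) (χn j)) lo hi := by
  set Ix : Finset (Fin p × ℤ) := (univ : Finset (Fin p)) ×ˢ nd (M + 1) with hIx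
  refine ⟨gL (M + 1) lam, gT (M + 1) lamH, kT (M + 1) kap, Ix.card,
    fun q => sT (M + 1) sg ((Ix.equivFin.symm q : Ix) : Fin p × ℤ), fun q => nT (M + 1) (nu q),
    θ, θ, fun z e x => gL_nonneg _ hlam z e x, fun z e x => gL_le _ hH z e x,
    fun z => kT_nonneg _ hkap z,
    fun q _ a b => nT_nonneg _ (hnu q) a b, hθ, le_rfl, ?_, ?_⟩
  · intro z hz
    exact gL_sum (fun x => (tp n x).1)
      (fun e i hi => node_sumL hM hn (hD'0 (e, i)) (hD'1 (e, i)) (hAd (e, i)) (hsum e i hi)) z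
      ⟨hz.1.le, hz.2.le⟩
  · intro a b c ha hb hc
    have key := bridgeL (C := Bool) (κι := Fin p) (ιJ := (Fin m × Bool) ⊕ Bool) (N := M + 1)
      (cE := 13 / 18) (J := univ) (K := univ) (l := boxNode χn lo hi) hlam hD hDH hkap hin0 hin1
      hDin hnode ha hb hc
    have e1 : ∀ z x y : Pt, z.In → TP.FL (gL (M + 1) lam) (gT (M + 1) lamH) (kT (M + 1) kap)
          (13 / 18) univ
          (fun q => nT (M + 1) (nu q)) (boxFunT (fun j => kT (M + 1) (χn j)) lo hi) z x y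
        = FL (gL (M + 1) lam) (gT (M + 1) lamH) (kT (M + 1) kap) (13 / 18) univ
          (fun q => nT (M + 1) (nu q))
          (fun q => kT (M + 1) (boxNode χn lo hi q)) z x y := by
      intro z x y hz
      unfold TP.FL FL
      congr 1
      refine sum_congr rfl fun q _ => ?_
      rw [boxFunT_eq (M + 1) χn lo hi q ⟨hz.1.le, hz.2.le⟩]
    have e2 : sym6 (TP.FL (gL (M + 1) lam) (gT (M + 1) lamH) (kT (M + 1) kap) (13 / 18) univ
          (fun q => nT (M + 1) (nu q)) (boxFunT (fun j => kT (M + 1) (χn j)) lo hi)) a b c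
        = sym6 (FL (gL (M + 1) lam) (gT (M + 1) lamH) (kT (M + 1) kap) (13 / 18) univ
          (fun q => nT (M + 1) (nu q))
          (fun q => kT (M + 1) (boxNode χn lo hi q))) a b c := by
      unfold sym6
      rw [e1 a b c ha, e1 a c b ha, e1 b a c hb, e1 b c a hb, e1 c a b hc, e1 c b a hc]
    have e3 : sq3 univ (fun q : Fin Ix.card =>
          sT (M + 1) sg ((Ix.equivFin.symm q : Ix) : Fin p × ℤ)) a b c
        = sq3 Ix (sT (M + 1) sg) a b c := by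
      unfold sq3
      rw [Equiv.sum_comp Ix.equivFin.symm (fun q : Ix => sT (M + 1) sg (q : Fin p × ℤ) a b
          * sT (M + 1) sg (q : Fin p × ℤ) a c + sT (M + 1) sg (q : Fin p × ℤ) b a
          * sT (M + 1) sg (q : Fin p × ℤ) b c + sT (M + 1) sg (q : Fin p × ℤ) c a
          * sT (M + 1) sg (q : Fin p × ℤ) c b)]
      exact sum_coe_sort Ix (fun q => sT (M + 1) sg q a b * sT (M + 1) sg q a c
        + sT (M + 1) sg q b a * sT (M + 1) sg q b c + sT (M + 1) sg q c a * sT (M + 1) sg q c b)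
    rw [e2, e3]
    exact key

end

end MP61673a.Bridge
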