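import Pool.Agent.Mu673.KCsound
import Pool.Agent.Mu673.FarCertL

/-!
FROM THE INTEGER CERTIFICATE (`KCdef`, `KCsound`) TO THE BOX CERTIFICATE `BoxCertL`.
Label data: `X z = [X0, X1, XH]`, packed in base `2^40`, digit `m` = label node `m - o`, `o` even.
-/

set_option autoImplicit false

namespace MP61673a.KC

open Finset MP61673a.Kink MP61673a.Sos MP61673a.Bridge

noncomputable section

/-! ### Kernel functions -/

/-- concave kink of the packed digits -/
def kd (x m : ℕ) : ℕ :=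
  Nat.sub (Nat.mul 2 (dg x m)) (Nat.add (dg x (Nat.sub m 1)) (dg x (Nat.succ m)))

/-- `2000` times the value of an end point label -/
def ekc (x m : ℕ) : ℕ :=
  Nat.add (Nat.add (Nat.mul 2000 (dg x m)) (Nat.mul 500 (kd x m)))
    (Nat.mul 1169 (Nat.add (kd x (Nat.sub m 1)) (kd x (Nat.succ m))))

/-- sum over `k < n` -/
def sumN (n : ℕ) (f : ℕ → ℕ) : ℕ :=
  Nat.rec (motive := fun _ => ℕ) 0 (fun k ih => Nat.add (f k) ih) n

/-- end point label values `e` (class: 0 or 3) of the sampler: bounds for all digits `1 ≤ m ≤ Mx` -/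
def chkE (N o2 Mx x : ℕ) (ke : List ℕ) (e : ℕ) : Bool :=
  allN Mx (fun m' =>
    Nat.ble (ekc x (Nat.succ m')) (Nat.mul 2000
      (dg (nth 0 ke (Nat.add e (Nat.mod (Nat.succ m') 2)))
        (Nat.add (Nat.div (Nat.succ m') 2) (Nat.sub (Nat.div (Nat.succ N) 2) o2))))
    && Nat.ble (ekc x (Nat.succ m')) (Nat.mul 2000
      (dg (nth 0 ke (Nat.add e 2)) (Nat.sub (Nat.add (Nat.mul 2 N) (Nat.mul 2 o2)) (Nat.succ m')))))

/-- midpoint label values -/
def chkM (N o2 x M : ℕ) : Bool :=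
  allN (Nat.succ N) (fun j =>
    Nat.ble (Nat.add (Nat.mul 4 (dg x (Nat.add j (Nat.mul 2 o2)))) (kd x (Nat.add j (Nat.mul 2 o2))))
      (Nat.mul 4 (dg M (Nat.mul 2 j))))
  && allN N (fun j => Nat.ble (Nat.add (dg x (Nat.add j (Nat.mul 2 o2))) (dg x (Nat.succ (Nat.add j (Nat.mul 2 o2)))))
      (Nat.mul 2 (dg M (Nat.succ (Nat.mul 2 j)))))

/-- sum of the digit `m` of both prices -/
def sx (x0 x1 m : ℕ) : ℕ := Nat.add (dg x0 m) (dg x1 m)

/-- `|x - y|` -/
def ab (x y : ℕ) : ℕ := Nat.add (Nat.sub x y) (Nat.sub y x)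

/-- normalisation of a sampler: `o = 2 o2` = digit of the label node `0` -/
def chkS (N n0 Bd x0 x1 o : ℕ) : Bool :=
  Nat.ble
    (Nat.add (Nat.add (Nat.mul (Nat.mul 8 (Nat.mul N (Nat.mul n0 n0))) Bd)
      (Nat.mul (Nat.mul 3 (Nat.mul N N)) (sumN (Nat.sub N 1) (fun j' =>
        Nat.add
          (Nat.sub (Nat.add (sx x0 x1 (Nat.add o j')) (sx x0 x1 (Nat.add o (Nat.add j' 2))))
            (Nat.mul 2 (sx x0 x1 (Nat.add o (Nat.succ j')))))
          (Nat.mul 2 (ab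
            (Nat.add (Nat.add (dg x0 (Nat.add o j')) (dg x0 (Nat.add o (Nat.add j' 2))))
              (Nat.mul 2 (dg x1 (Nat.add o (Nat.succ j')))))
            (Nat.add (Nat.add (dg x1 (Nat.add o j')) (dg x1 (Nat.add o (Nat.add j' 2))))
              (Nat.mul 2 (dg x0 (Nat.add o (Nat.succ j')))))))))))
      (Nat.mul (Nat.mul 12 (Nat.mul N n0))
        (Nat.add (ab (dg x0 o) (dg x1 o)) (ab (dg x0 (Nat.add o N)) (dg x1 (Nat.add o N))))))
    (Nat.mul (Nat.mul 12 (Nat.mul n0 n0))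
      (Nat.add (Nat.add (sx x0 x1 o) (sx x0 x1 (Nat.add o N)))
        (Nat.mul 2 (sumN (Nat.sub N 1) (fun j' => sx x0 x1 (Nat.add o (Nat.succ j')))))))

/-- shape of a packed label function: digits `0`, `1` and all digits from `Mx` on are `0` -/
def shp (Mx x : ℕ) : Bool :=
  Nat.beq (dg x 0) 0 && Nat.beq (dg x 1) 0 && Nat.ble (Nat.succ x) (bp Mx)

/-- digitwise comparison -/
def dle (Mx x y : ℕ) : Bool := allN Mx (fun m => Nat.ble (dg x m) (dg y m))

/-- far nodes -/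
def farb (N z : ℕ) : Bool :=
  Nat.ble (Nat.succ (Nat.mul 4 z)) (Nat.add N 4) || Nat.ble (Nat.add (Nat.mul 3 N) 1)
    (Nat.add (Nat.mul 4 z) 4)

/-- the linear fact: `lp - ln = fden χ - fnum` -/
def chkF (N fnum fden : ℕ) (f : Fn) : Bool :=
  allN (Nat.succ N) (fun z =>
    Nat.beq (Nat.add (nth 0 f.lp z) fnum)
      (Nat.add (nth 0 f.ln z) (Bool.rec (motive := fun _ => ℕ) 0 fden (farb N z))))

/-- all checks of the label data of the samplers `z ≤ N` -/
def chkX (d : Dat) (X : List (List ℕ)) (o2 Mx n0 : ℕ) : Bool :=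
  allN (Nat.succ d.N) (fun z =>
    shp Mx (nth 0 (nth [] X z) 0) && shp Mx (nth 0 (nth [] X z) 1)
    && shp Mx (nth 0 (nth [] X z) 2)
    && dle Mx (nth 0 (nth [] X z) 0) (nth 0 (nth [] X z) 2)
    && dle Mx (nth 0 (nth [] X z) 1) (nth 0 (nth [] X z) 2)
    && chkE d.N o2 Mx (nth 0 (nth [] X z) 0) (nth [] d.ke z) 0
    && chkE d.N o2 Mx (nth 0 (nth [] X z) 1) (nth [] d.ke z) 3
    && chkM d.N o2 (nth 0 (nth [] X z) 2) (nth 0 (nth [] d.ke z) 6)
    && chkS d.N n0 d.Bd (nth 0 (nth [] X z) 0) (nth 0 (nth [] X z) 1) (Nat.mul 2 o2)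
    && Nat.beq (nth 0 (nth [] d.ke z) 7) 0)

/-! ### Semantics of the kernel functions -/

lemma allN_imp {n : ℕ} {p : ℕ → Bool} (h : allN n p = true) : ∀ k, k < n → p k = true := by
  induction n with
  | zero => intro k hk; omega
  | succ n ih =>
    have h' : Bool.rec (motive := fun _ => Bool) false (allN n p) (p n) = true := h
    intro k hk
    cases hp : p n with
    | false => rw [hp] at h'; exact absurd h' (by simp)
    | true =>
      rw [hp] at h'
      rcases Nat.lt_succ_iff_lt_or_eq.1 hk with h1 | h1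
      · exact ih h' k h1
      · rw [h1]; exact hp

lemma sumN_eq (n : ℕ) (f : ℕ → ℕ) : sumN n f = ∑ k ∈ range n, f k := by
  induction n with
  | zero => rfl
  | succ n ih =>
    rw [sum_range_succ, ← ih]
    change Nat.add (f n) (sumN n f) = _
    exact Nat.add_comm _ _

lemma dg_big {x M c : ℕ} (h : x < bp M) (hc : M ≤ c) : dg x c = 0 := by
  have h1 : x < 2 ^ (40 * c) := by
    have h2 : bp M = 2 ^ (40 * M) := rfl
    rw [h2] at h
    exact lt_of_lt_of_le h (Nat.pow_le_pow_right (by norm_num) (by omega))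
  have h3 : Nat.shiftRight x (Nat.mul 40 c) = 0 := by
    change x >>> (40 * c) = 0
    rw [Nat.shiftRight_eq_div_pow]
    exact Nat.div_eq_of_lt h1
  unfold dg
  rw [h3]
  change 0 &&& _ = 0
  exact Nat.zero_and _

/-- shape, as a proposition -/
structure Shp (Mx x : ℕ) : Prop where
  d0 : dg x 0 = 0
  d1 : dg x 1 = 0
  lt : x < bp Mx

lemma shp_imp {Mx x : ℕ} (h : shp Mx x = true) : Shp Mx x := by
  unfold shp at h
  simp only [Bool.and_eq_true] at h
  exact ⟨Nat.eq_of_beq_eq_true h.1.1, Nat.eq_of_beq_eq_true h.1.2, Nat.le_of_ble_eq_true h.2⟩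

lemma Shp.zero {Mx x : ℕ} (h : Shp Mx x) {m : ℕ} (hm : m ≤ 1 ∨ Mx ≤ m) : dg x m = 0 := by
  rcases hm with hm | hm
  · interval_cases m
    · exact h.d0
    · exact h.d1
  · exact dg_big h.lt hm

lemma kd_def (x m : ℕ) : kd x m = 2 * dg x m - (dg x (m - 1) + dg x (m + 1)) := rfl

lemma ekc_def (x m : ℕ) :
    ekc x m = 2000 * dg x m + 500 * kd x m + 1169 * (kd x (m - 1) + kd x (m + 1)) := rfl

lemma Shp.kd_zero {Mx x : ℕ} (h : Shp Mx x) {m : ℕ} (hm : m ≤ 1 ∨ Mx ≤ m) : kd x m = 0 := by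
  rw [kd_def, h.zero hm]
  omega

lemma Shp.ekc_zero {Mx x : ℕ} (h : Shp Mx x) {m : ℕ} (hm : m = 0 ∨ Mx < m) : ekc x m = 0 := by
  rw [ekc_def]
  rcases hm with rfl | hm
  · have a := h.kd_zero (m := 0) (Or.inl (by omega))
    have b := h.kd_zero (m := 1) (Or.inl (by omega))
    simp [h.d0, a, b]
  · rw [h.zero (Or.inr (by omega)), h.kd_zero (Or.inr (by omega)), h.kd_zero (Or.inr (by omega)),
      h.kd_zero (Or.inr (by omega))]

/-! ### Real label functions -/

/-- value at the label node `y` -/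
def lR (o x : ℕ) (y : ℤ) : ℝ := if 0 ≤ y + o then (dg x (y + o).toNat : ℝ) else 0

/-- kink bound -/
def dR (o x : ℕ) (y : ℤ) : ℝ := max 0 (2 * lR o x y - lR o x (y - 1) - lR o x (y + 1))

lemma lR_nonneg (o x : ℕ) (y : ℤ) : 0 ≤ lR o x y := by
  unfold lR
  split_ifs
  · positivity
  · exact le_rfl

lemma lR_nat (o x m : ℕ) : lR o x ((m : ℤ) - o) = dg x m := by
  unfold lR
  rw [if_pos (by omega)]
  congr 2
  omega

lemma kinks_R (o x : ℕ) : Kinks (lR o x) (dR o x) :=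
  ⟨fun _ => le_max_left _ _, fun _ => le_max_right _ _⟩

lemma dR_nat {Mx x : ℕ} (h : Shp Mx x) (o m : ℕ) : dR o x ((m : ℤ) - o) = kd x m := by
  have e2 : (m : ℤ) - o + 1 = ((m + 1 : ℕ) : ℤ) - o := by push_cast; ring
  unfold dR
  rw [lR_nat, e2, lR_nat, kd_def]
  rcases Nat.eq_zero_or_pos m with rfl | hm
  · have h0 := h.d0
    have h1 := h.d1
    rw [h0]
    have : lR o x (((0 : ℕ) : ℤ) - o - 1) = 0 := by
      unfold lR
      rw [if_neg (by omega)]
    rw [this]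
    simp only [zero_add]
    rw [h1]
    simp
  · have e1 : (m : ℤ) - o - 1 = ((m - 1 : ℕ) : ℤ) - o := by omega
    rw [e1, lR_nat]
    rcases le_total (dg x (m - 1) + dg x (m + 1)) (2 * dg x m) with c | c
    · rw [Nat.cast_sub c]
      have c' : ((dg x (m - 1) + dg x (m + 1) : ℕ) : ℝ) ≤ ((2 * dg x m : ℕ) : ℝ) := by
        exact_mod_cast c
      push_cast at c' ⊢
      rw [max_eq_right (by linarith)]
      ring
    · rw [Nat.sub_eq_zero_of_le c]
      have c' : ((2 * dg x m : ℕ) : ℝ) ≤ ((dg x (m - 1) + dg x (m + 1) : ℕ) : ℝ) := by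
        exact_mod_cast c
      push_cast at c' ⊢
      rw [max_eq_left (by linarith)]

lemma dR_neg {Mx x : ℕ} (h : Shp Mx x) {o : ℕ} {y : ℤ} (hy : y + o < 0) : dR o x y = 0 := by
  have h1 : lR o x y = 0 := by
    unfold lR
    rw [if_neg (by omega)]
  have h2 : lR o x (y - 1) = 0 := by
    unfold lR
    rw [if_neg (by omega)]
  have h3 : lR o x (y + 1) = 0 := by
    unfold lR
    split_ifs with c
    · have : (y + 1 + (o : ℤ)).toNat = 0 := by omega
      rw [this, h.d0]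
      simp
    · rfl
  unfold dR
  rw [h1, h2, h3]
  simp

lemma eK_R {Mx x : ℕ} (h : Shp Mx x) (o : ℕ) (y : ℤ) :
    2000 * eK (lR o x) (dR o x) y = if 0 ≤ y + o then (ekc x (y + o).toNat : ℝ) else 0 := by
  by_cases c : 0 ≤ y + o
  · rw [if_pos c]
    obtain ⟨m, hm⟩ : ∃ m : ℕ, y = (m : ℤ) - o := ⟨(y + o).toNat, by omega⟩
    have e : (y + o).toNat = m := by omega
    rw [e, hm]
    unfold eK
    have e2 : (m : ℤ) - o + 1 = ((m + 1 : ℕ) : ℤ) - o := by push_cast; ring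
    rw [lR_nat, dR_nat h, e2, dR_nat h, ekc_def]
    rcases Nat.eq_zero_or_pos m with rfl | hmp
    · have e3 : dR o x (((0 : ℕ) : ℤ) - o - 1) = 0 := dR_neg h (by omega)
      rw [e3, h.kd_zero (m := 0 - 1) (Or.inl (by omega))]
      push_cast
      ring
    · have e1 : (m : ℤ) - o - 1 = ((m - 1 : ℕ) : ℤ) - o := by omega
      rw [e1, dR_nat h]
      push_cast
      ring
  · rw [if_neg c]
    unfold eK
    have e1 : lR o x y = 0 := by
      unfold lR
      rw [if_neg c]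
    have e2 : dR o x (y + 1) = 0 := by
      by_cases c2 : y + 1 + o < 0
      · exact dR_neg h c2
      · have e : y + 1 = ((0 : ℕ) : ℤ) - o := by omega
        rw [e, dR_nat h, h.kd_zero (Or.inl (by omega))]
        simp
    rw [e1, dR_neg h (by omega), dR_neg h (by omega), e2]
    ring

/-- END POINT LABELS of both kinds are bounded by the digits -/
lemma eK_bound {N o2 Mx x : ℕ} {ke : List ℕ} {e : ℕ} (h : Shp Mx x)
    (hc : chkE N o2 Mx x ke e = true) (ho : o2 ≤ (N + 1) / 2)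
    (b c : ℕ) (hb : b ≤ N) :
    eK (lR (2 * o2) x) (dR (2 * o2) x) (2 * (c : ℤ) - b)
        ≤ dg (nth 0 ke (e + b % 2)) (c + s1 N b)
      ∧ eK (lR (2 * o2) x) (dR (2 * o2) x) (2 * (b : ℤ) - c)
        ≤ dg (nth 0 ke (e + 2)) (c + s2 N b) := by
  have s1e : s1 N b = (N + 1) / 2 - (b + 1) / 2 := rfl
  have s2e : s2 N b = 2 * N - 2 * b := rfl
  have key : ∀ y : ℤ, ∀ v : ℕ, (∀ m : ℕ, 1 ≤ m → m ≤ Mx → y = (m : ℤ) - ((2 * o2 : ℕ) : ℤ) →
      ekc x m ≤ 2000 * v) → eK (lR (2 * o2) x) (dR (2 * o2) x) y ≤ v := by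
    intro y v hv
    have h1 := eK_R h (2 * o2) y
    by_cases c : 0 ≤ y + ((2 * o2 : ℕ) : ℤ)
    · rw [if_pos c] at h1
      set m := (y + ((2 * o2 : ℕ) : ℤ)).toNat with hm
      have hy : y = (m : ℤ) - ((2 * o2 : ℕ) : ℤ) := by omega
      by_cases c1 : 1 ≤ m ∧ m ≤ Mx
      · have h2 : ((ekc x m : ℕ) : ℝ) ≤ ((2000 * v : ℕ) : ℝ) := by
          exact_mod_cast hv m c1.1 c1.2 hy
        push_cast at h2
        linarith
      · have h2 : ekc x m = 0 := h.ekc_zero (by omega)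
        rw [h2] at h1
        have h3 : (0:ℝ) ≤ v := by positivity
        push_cast at h1
        linarith
    · rw [if_neg c] at h1
      have h3 : (0:ℝ) ≤ v := by positivity
      linarith
  have hh := allN_imp hc
  constructor
  · refine key _ _ fun m m1 m2 hy => ?_
    have h1 := hh (m - 1) (by omega)
    simp only [Bool.and_eq_true] at h1
    have h2 := Nat.le_of_ble_eq_true h1.1
    have e1 : Nat.succ (m - 1) = m := by omega
    rw [e1] at h2
    have e2 : Nat.mod m 2 = b % 2 := by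
      change m % 2 = b % 2
      omega
    have e3 : Nat.add (Nat.div m 2) (Nat.sub (Nat.div (Nat.succ N) 2) o2) = c + s1 N b := by
      change m / 2 + ((N + 1) / 2 - o2) = c + s1 N b
      rw [s1e]
      omega
    rw [e2, e3] at h2
    exact h2
  · refine key _ _ fun m m1 m2 hy => ?_
    have h1 := hh (m - 1) (by omega)
    simp only [Bool.and_eq_true] at h1
    have h2 := Nat.le_of_ble_eq_true h1.2
    have e1 : Nat.succ (m - 1) = m := by omega
    rw [e1] at h2
    have e3 : Nat.sub (Nat.add (Nat.mul 2 N) (Nat.mul 2 o2)) m = c + s2 N b := by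
      change 2 * N + 2 * o2 - m = c + s2 N b
      rw [s2e]
      omega
    rw [e3] at h2
    exact h2

/-- MIDPOINTS are bounded by the digits -/
lemma mK_bound {N o2 Mx x M : ℕ} (h : Shp Mx x) (hc : chkM N o2 x M = true) (k : ℕ)
    (hk : k ≤ 2 * N) : mK (lR (2 * o2) x) (dR (2 * o2) x) (k : ℤ) ≤ dg M k := by
  unfold chkM at hc
  rw [Bool.and_eq_true] at hc
  rcases Nat.even_or_odd' k with ⟨j, hj | hj⟩
  · have h1 := allN_imp hc.1 j (by omega)
    have h2 := Nat.le_of_ble_eq_true h1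
    have h3 : 4 * dg x (j + 2 * o2) + kd x (j + 2 * o2) ≤ 4 * dg M (2 * j) := h2
    unfold mK
    rw [if_pos (by omega)]
    have e : (k : ℤ) / 2 = ((j + 2 * o2 : ℕ) : ℤ) - ((2 * o2 : ℕ) : ℤ) := by push_cast; omega
    rw [e, lR_nat, dR_nat h, hj]
    have h4 : ((4 * dg x (j + 2 * o2) + kd x (j + 2 * o2) : ℕ) : ℝ) ≤ ((4 * dg M (2 * j) : ℕ) : ℝ) := by
      exact_mod_cast h3
    push_cast at h4
    linarith
  · have h1 := allN_imp hc.2 j (by omega)
    have h2 := Nat.le_of_ble_eq_true h1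
    have h3 : dg x (j + 2 * o2) + dg x (j + 2 * o2 + 1) ≤ 2 * dg M (2 * j + 1) := h2
    unfold mK
    rw [if_neg (by omega)]
    have e : ((k : ℤ) - 1) / 2 = ((j + 2 * o2 : ℕ) : ℤ) - ((2 * o2 : ℕ) : ℤ) := by
      push_cast; omega
    have e' : ((k : ℤ) + 1) / 2 = ((j + 2 * o2 + 1 : ℕ) : ℤ) - ((2 * o2 : ℕ) : ℤ) := by
      push_cast; omega
    rw [e, e', lR_nat, lR_nat, hj]
    have h4 : ((dg x (j + 2 * o2) + dg x (j + 2 * o2 + 1) : ℕ) : ℝ)
        ≤ ((2 * dg M (2 * j + 1) : ℕ) : ℝ) := by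
      exact_mod_cast h3
    push_cast at h4
    linarith

/-! ### Scaling -/

lemma kinks_div {f g : ℤ → ℝ} (h : Kinks f g) {L : ℝ} (hL : 0 < L) :
    Kinks (fun y => f y / L) (fun y => g y / L) := by
  constructor
  · intro k
    exact div_nonneg (h.nonneg k) hL.le
  · intro k
    have := div_le_div_of_nonneg_right (h.le k) hL.le
    calc 2 * (f k / L) - f (k - 1) / L - f (k + 1) / L
        = (2 * f k - f (k - 1) - f (k + 1)) / L := by ring
      _ ≤ g k / L := this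

lemma eK_div (f g : ℤ → ℝ) (L : ℝ) (y : ℤ) :
    eK (fun y => f y / L) (fun y => g y / L) y = eK f g y / L := by
  unfold eK
  ring

lemma mK_div (f g : ℤ → ℝ) (L : ℝ) (y : ℤ) :
    mK (fun y => f y / L) (fun y => g y / L) y = mK f g y / L := by
  unfold mK
  split_ifs <;> ring

/-! ### Normalisation -/

lemma ab_cast (x y : ℕ) : ((ab x y : ℕ) : ℝ) = |(x : ℝ) - y| := by
  change ((x - y + (y - x) : ℕ) : ℝ) = _
  rcases le_total x y with c | c
  · have c' : (x : ℝ) ≤ y := by exact_mod_cast c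
    rw [Nat.sub_eq_zero_of_le c, abs_of_nonpos (by linarith)]
    push_cast [Nat.cast_sub c]
    ring
  · have c' : (y : ℝ) ≤ x := by exact_mod_cast c
    rw [Nat.sub_eq_zero_of_le c, abs_of_nonneg (by linarith)]
    push_cast [Nat.cast_sub c]
    ring

lemma sub_cast (x y : ℕ) : ((x - y : ℕ) : ℝ) = max 0 ((x : ℝ) - y) := by
  rcases le_total x y with c | c
  · have c' : (x : ℝ) ≤ y := by exact_mod_cast c
    rw [Nat.sub_eq_zero_of_le c, max_eq_left (by linarith)]
    simp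
  · have c' : (y : ℝ) ≤ x := by exact_mod_cast c
    rw [max_eq_right (by linarith), Nat.cast_sub c]

/-- the two kink sequences of the normalisation -/
def Ds (f g : ℤ → ℝ) (y : ℤ) : ℝ :=
  max 0 ((f (y - 1) + g (y - 1)) - 2 * (f y + g y) + (f (y + 1) + g (y + 1))) / 2

def As (f g : ℤ → ℝ) (y : ℤ) : ℝ :=
  |(f (y - 1) - g (y - 1)) - 2 * (f y - g y) + (f (y + 1) - g (y + 1))|

lemma Ds_comm (f g : ℤ → ℝ) : Ds f g = Ds g f := by
  funext y
  unfold Ds
  congr 2
  ring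

lemma As_comm (f g : ℤ → ℝ) : As f g = As g f := by
  funext y
  unfold As
  rw [← abs_neg]
  congr 1
  ring

/-- NORMALISATION of a sampler from the check -/
lemma chkS_imp {M n0 Bd x0 x1 o : ℕ} (hn0 : 0 < n0) (h : chkS (M + 1) n0 Bd x0 x1 o = true)
    {L : ℝ} (hL : 0 < L) :
    (Bd : ℝ) / (6 * L) ≤ 1 / ((M : ℝ) + 1)
        * ((lR o x0 0 / L + lR o x1 0 / L) / 4
          + ∑ j ∈ range M, (lR o x0 ((j + 1 : ℕ) : ℤ) / L + lR o x1 ((j + 1 : ℕ) : ℤ) / L) / 2
          + (lR o x0 ((M + 1 : ℕ) : ℤ) / L + lR o x1 ((M + 1 : ℕ) : ℤ) / L) / 4)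
      - ((M : ℝ) + 1) / (8 * (n0 : ℝ) ^ 2)
        * (∑ j ∈ range M, Ds (fun y => lR o x0 y / L) (fun y => lR o x1 y / L) ((j + 1 : ℕ) : ℤ)
          + ∑ j ∈ range M, As (fun y => lR o x0 y / L) (fun y => lR o x1 y / L)
            ((j + 1 : ℕ) : ℤ))
      - (|lR o x0 0 / L - lR o x1 0 / L|
        + |lR o x0 ((M + 1 : ℕ) : ℤ) / L - lR o x1 ((M + 1 : ℕ) : ℤ) / L|) / (4 * n0) := by
  have h1 := Nat.le_of_ble_eq_true h
  set f : ℕ → ℕ := fun j' =>
    (sx x0 x1 (o + j') + sx x0 x1 (o + (j' + 2)) - 2 * sx x0 x1 (o + (j' + 1)))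
      + 2 * ab (dg x0 (o + j') + dg x0 (o + (j' + 2)) + 2 * dg x1 (o + (j' + 1)))
        (dg x1 (o + j') + dg x1 (o + (j' + 2)) + 2 * dg x0 (o + (j' + 1))) with hf
  have h2 : 8 * ((M + 1) * (n0 * n0)) * Bd + 3 * ((M + 1) * (M + 1)) * sumN M f
      + 12 * ((M + 1) * n0) * (ab (dg x0 o) (dg x1 o) + ab (dg x0 (o + (M + 1))) (dg x1 (o + (M + 1))))
      ≤ 12 * (n0 * n0) * (sx x0 x1 o + sx x0 x1 (o + (M + 1))
        + 2 * sumN M (fun j' => sx x0 x1 (o + (j' + 1)))) := h1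
  rw [sumN_eq, sumN_eq] at h2
  have eL : ∀ (x j : ℕ), lR o x ((j : ℕ) : ℤ) = dg x (o + j) := by
    intro x j
    have := lR_nat o x (o + j)
    push_cast at this
    rw [← this]
    congr 1
    ring
  have eL0 : ∀ (x : ℕ), lR o x 0 = dg x o := by
    intro x
    have := eL x 0
    simpa using this
  -- the kinks
  have eD : ∀ j ∈ range M, Ds (fun y => lR o x0 y / L) (fun y => lR o x1 y / L) ((j + 1 : ℕ) : ℤ)
      + As (fun y => lR o x0 y / L) (fun y => lR o x1 y / L) ((j + 1 : ℕ) : ℤ)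
      = (f j : ℝ) / (2 * L) := by
    intro j _
    have e1 : ((j + 1 : ℕ) : ℤ) - 1 = ((j : ℕ) : ℤ) := by push_cast; ring
    have e2 : ((j + 1 : ℕ) : ℤ) + 1 = ((j + 2 : ℕ) : ℤ) := by push_cast; ring
    have s1 : ∀ m, ((sx x0 x1 m : ℕ) : ℝ) = dg x0 m + dg x1 m := by
      intro m
      change ((dg x0 m + dg x1 m : ℕ) : ℝ) = _
      push_cast
      ring
    have ef : (f j : ℝ) = max (0 : ℝ) ((dg x0 (o + j) : ℝ) + (dg x1 (o + j) : ℝ)
          + ((dg x0 (o + (j + 2)) : ℝ) + (dg x1 (o + (j + 2)) : ℝ))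
          - 2 * ((dg x0 (o + (j + 1)) : ℝ) + (dg x1 (o + (j + 1)) : ℝ)))
        + 2 * |(dg x0 (o + j) + dg x0 (o + (j + 2)) + 2 * dg x1 (o + (j + 1)) : ℝ)
          - (dg x1 (o + j) + dg x1 (o + (j + 2)) + 2 * dg x0 (o + (j + 1)))| := by
      rw [hf]
      simp only
      rw [Nat.cast_add, sub_cast, Nat.cast_mul 2 (ab _ _), ab_cast]
      push_cast [s1]
      ring
    unfold Ds As
    simp only
    rw [e1, e2, eL, eL, eL, eL, eL, eL, ef]
    have m1 : (0:ℝ) = 0 / L := by rw [zero_div]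
    have g1 : (dg x0 (o + j) : ℝ) / L + dg x1 (o + j) / L
        - 2 * (dg x0 (o + (j + 1)) / L + dg x1 (o + (j + 1)) / L)
        + (dg x0 (o + (j + 2)) / L + dg x1 (o + (j + 2)) / L)
        = (dg x0 (o + j) + dg x1 (o + j) + (dg x0 (o + (j + 2)) + dg x1 (o + (j + 2)))
          - 2 * (dg x0 (o + (j + 1)) + dg x1 (o + (j + 1)))) / L := by ring
    have g2 : (dg x0 (o + j) : ℝ) / L - dg x1 (o + j) / L
        - 2 * (dg x0 (o + (j + 1)) / L - dg x1 (o + (j + 1)) / L)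
        + (dg x0 (o + (j + 2)) / L - dg x1 (o + (j + 2)) / L)
        = (dg x0 (o + j) + dg x0 (o + (j + 2)) + 2 * dg x1 (o + (j + 1))
          - (dg x1 (o + j) + dg x1 (o + (j + 2)) + 2 * dg x0 (o + (j + 1)))) / L := by ring
    rw [g1, g2, abs_div, abs_of_pos hL]
    have g3 : ∀ v : ℝ, max 0 (v / L) = max 0 v / L := by
      intro v
      rcases le_total 0 v with c | c
      · rw [max_eq_right c, max_eq_right (div_nonneg c hL.le)]
      · rw [max_eq_left c, max_eq_left (div_nonpos_of_nonpos_of_nonneg c hL.le), zero_div]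
    rw [g3]
    field_simp
  have eD2 : ∑ j ∈ range M, Ds (fun y => lR o x0 y / L) (fun y => lR o x1 y / L) ((j + 1 : ℕ) : ℤ)
      + ∑ j ∈ range M, As (fun y => lR o x0 y / L) (fun y => lR o x1 y / L) ((j + 1 : ℕ) : ℤ)
      = (∑ j ∈ range M, (f j : ℝ)) / (2 * L) := by
    rw [← sum_add_distrib, sum_congr rfl eD, sum_div]
  rw [eD2]
  have h3 : ((8 * ((M + 1) * (n0 * n0)) * Bd + 3 * ((M + 1) * (M + 1)) * (∑ k ∈ range M, f k)
      + 12 * ((M + 1) * n0) * (ab (dg x0 o) (dg x1 o) + ab (dg x0 (o + (M + 1))) (dg x1 (o + (M + 1))))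
      : ℕ) : ℝ)
      ≤ ((12 * (n0 * n0) * (sx x0 x1 o + sx x0 x1 (o + (M + 1))
        + 2 * ∑ k ∈ range M, sx x0 x1 (o + (k + 1))) : ℕ) : ℝ) := by exact_mod_cast h2
  push_cast [ab_cast] at h3
  have s1 : ∀ m, ((sx x0 x1 m : ℕ) : ℝ) = dg x0 m + dg x1 m := by
    intro m
    change ((dg x0 m + dg x1 m : ℕ) : ℝ) = _
    push_cast
    ring
  simp only [s1] at h3
  rw [eL0, eL0, eL, eL]
  have eS : ∑ j ∈ range M, (lR o x0 ((j + 1 : ℕ) : ℤ) / L + lR o x1 ((j + 1 : ℕ) : ℤ) / L) / 2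
      = (∑ j ∈ range M, ((dg x0 (o + (j + 1)) : ℝ) + dg x1 (o + (j + 1)))) / (2 * L) := by
    rw [sum_div]
    refine sum_congr rfl fun j _ => ?_
    rw [eL, eL]
    field_simp
  rw [eS, ← sub_div, ← sub_div, abs_div, abs_div, abs_of_pos hL]
  set S := ∑ j ∈ range M, ((dg x0 (o + (j + 1)) : ℝ) + dg x1 (o + (j + 1))) with hS
  set F := ∑ j ∈ range M, (f j : ℝ) with hF
  set A0 := |(dg x0 o : ℝ) - dg x1 o| with hA0
  set A1 := |(dg x0 (o + (M + 1)) : ℝ) - dg x1 (o + (M + 1))| with hA1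
  set a0 := (dg x0 o : ℝ) with ha0
  set a1 := (dg x1 o : ℝ) with ha1
  set b0 := (dg x0 (o + (M + 1)) : ℝ) with hb0
  set b1 := (dg x1 (o + (M + 1)) : ℝ) with hb1
  have hn0' : (0:ℝ) < n0 := by exact_mod_cast hn0
  have hM' : (0:ℝ) < (M:ℝ) + 1 := by positivity
  have goal : 0 ≤ (1 / ((M : ℝ) + 1) * ((a0 / L + a1 / L) / 4 + S / (2 * L) + (b0 / L + b1 / L) / 4)
      - ((M : ℝ) + 1) / (8 * (n0 : ℝ) ^ 2) * (F / (2 * L))
      - (A0 / L + A1 / L) / (4 * n0) - (Bd : ℝ) / (6 * L)) := by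
    have e : (1 / ((M : ℝ) + 1) * ((a0 / L + a1 / L) / 4 + S / (2 * L) + (b0 / L + b1 / L) / 4)
      - ((M : ℝ) + 1) / (8 * (n0 : ℝ) ^ 2) * (F / (2 * L))
      - (A0 / L + A1 / L) / (4 * n0) - (Bd : ℝ) / (6 * L))
      = (12 * (n0 * n0) * (a0 + a1 + (b0 + b1) + 2 * S)
        - (8 * (((M:ℝ) + 1) * (n0 * n0)) * Bd + 3 * (((M:ℝ) + 1) * ((M:ℝ) + 1)) * F
          + 12 * (((M:ℝ) + 1) * n0) * (A0 + A1))) / (48 * (((M:ℝ) + 1) * (n0 * n0)) * L) := by
      field_simp
      ring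
    rw [e]
    apply div_nonneg
    · linarith
    · positivity
  linarith

/-! ### The real data -/

/-- the scale (the certificate is homogeneous) -/
def L0 : ℝ := 1

lemma L0_pos : 0 < L0 := by
  unfold L0
  norm_num

/-- packed label function `k` of the sampler `z` -/
def xx (X : List (List ℕ)) (z k : ℕ) : ℕ := nth 0 (nth [] X z) k

/-- prices -/
def lamD (N o : ℕ) (X : List (List ℕ)) (s : Bool × ℤ) (e : Bool) : ℤ → ℝ :=
  if 0 ≤ s.2 ∧ s.2 ≤ (N : ℤ) then
    fun y => lR o (xx X s.2.toNat (if e = s.1 then 0 else 1)) y / L0 else fun _ => 0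

/-- kinks of the prices -/
def dD (N o : ℕ) (X : List (List ℕ)) (s : Bool × ℤ) (e : Bool) : ℤ → ℝ :=
  if 0 ≤ s.2 ∧ s.2 ≤ (N : ℤ) then
    fun y => dR o (xx X s.2.toNat (if e = s.1 then 0 else 1)) y / L0 else fun _ => 0

/-- majorant -/
def hD (N o : ℕ) (X : List (List ℕ)) (s : Bool × ℤ) : ℤ → ℝ :=
  if 0 ≤ s.2 ∧ s.2 ≤ (N : ℤ) then
    fun y => lR o (xx X s.2.toNat 2) y / L0 else fun _ => 0

/-- kinks of the majorant -/
def eD (N o : ℕ) (X : List (List ℕ)) (s : Bool × ℤ) : ℤ → ℝ :=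
  if 0 ≤ s.2 ∧ s.2 ≤ (N : ℤ) then
    fun y => dR o (xx X s.2.toNat 2) y / L0 else fun _ => 0

/-- squares -/
def sgD (d : Dat) (q : Fin 64) (s t : Bool × ℤ) : ℝ :=
  ((nth [] d.sq s.2.toNat)[q.1]?).elim 0
    (fun p => (dg p (ix d.N (xor s.1 t.1) t.2.toNat) : ℝ) - 16384)

/-- multipliers of the facts -/
def nuD (d : Dat) (f : Fn) (fden : ℕ) : (Fin 1 × Bool) ⊕ Bool → Bool × ℤ → Bool × ℤ → ℝ
  | .inl (_, true), a, b => fden * (NU f a.1 a.2.toNat b.1 b.2.toNat : ℝ) / (2 * L0)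
  | .inl (_, false), _, _ => 0
  | .inr false, a, b => 3 * (NC d a.1 a.2.toNat b.1 b.2.toNat : ℝ) / (2 * L0)
  | .inr true, a, b => 3 * (NC d (!a.1) a.2.toNat (!b.1) b.2.toNat : ℝ) / (2 * L0)

/-- node values of the indicator of the outer quarters -/
def farX (N : ℕ) (s : Bool × ℤ) : ℝ :=
  if 4 * (s.2 - 1) < (N : ℤ) ∨ 4 * ((N : ℤ) - s.2 - 1) < (N : ℤ) then 1 else 0

lemma sum_opt {α : Type} (F : α → ℝ) : ∀ (l : List α) (P : ℕ), l.length ≤ P →
    ∑ q ∈ range P, (l[q]?).elim 0 F = (l.map F).sum := by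
  intro l
  induction l with
  | nil =>
    intro P _
    simp
  | cons a l ih =>
    intro P hP
    rw [List.length_cons] at hP
    obtain ⟨P', rfl⟩ : ∃ P', P = P' + 1 := ⟨P - 1, by omega⟩
    rw [sum_range_succ']
    simp only [List.getElem?_cons_succ, List.getElem?_cons_zero, Option.elim_some, List.map_cons,
      List.sum_cons]
    rw [ih P' (by omega)]
    ring

/-- the squares -/
lemma sgD_sum {d : Dat} (hb : bnds d = true) {z : ℕ} (hz : z ≤ d.N) (ea eb : Bool) (ia ib : ℕ) :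
    ∑ q : Fin 64, sgD d q (false, (z : ℤ)) (ea, (ia : ℤ)) * sgD d q (false, (z : ℤ)) (eb, (ib : ℤ))
      = (SS d z ea ia eb ib : ℝ) / L0 := by
  have hl := (Bnd.of d hb hz).len
  have e0 : ∀ q : Fin 64, sgD d q (false, (z : ℤ)) (ea, (ia : ℤ))
      * sgD d q (false, (z : ℤ)) (eb, (ib : ℤ))
      = (fun q' : ℕ => ((nth [] d.sq z)[q']?).elim 0 (fun p =>
        (((dg p (ix d.N ea ia) : ℝ) - 16384) * ((dg p (ix d.N eb ib) : ℝ) - 16384)) / L0)) q.1 := by
    intro q
    unfold sgD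
    simp only [Int.toNat_natCast, Bool.false_xor]
    cases (nth [] d.sq z)[q.1]? with
    | none => simp
    | some p =>
      simp only [Option.elim_some]
      unfold L0
      ring
  rw [sum_congr rfl fun q _ => e0 q, Fin.sum_univ_eq_sum_range (fun q' : ℕ =>
    ((nth [] d.sq z)[q']?).elim 0 (fun p =>
        (((dg p (ix d.N ea ia) : ℝ) - 16384) * ((dg p (ix d.N eb ib) : ℝ) - 16384)) / L0)) 64,
    sum_opt _ _ _ hl]
  unfold SS
  rw [Int.cast_list_sum]
  generalize nth [] d.sq z = l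
  clear hl e0
  induction l with
  | nil => simp
  | cons a l ih =>
    simp only [List.map_cons, List.sum_cons]
    rw [ih]
    push_cast
    ring

/-- node cost of the data -/
def FnD (d : Dat) (X : List (List ℕ)) (o2 : ℕ) (f : Fn) (fnum fden : ℕ) :
    Bool × ℤ → Bool × ℤ → Bool × ℤ → ℝ :=
  FnL (lamD d.N (2 * o2) X) (dD d.N (2 * o2) X) (hD d.N (2 * o2) X) (eD d.N (2 * o2) X)
    (fun _ => 0) (fun _ => 1) (fun _ => 0) (13 / 18) univ (nuD d f fden)
    (boxNode (fun _ : Fin 1 => farX d.N) (fun _ => (fnum : ℝ) / fden) (fun _ => 1))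

/-- symmetric cost of the pair `a, b` for the sampler `z` -/
def WD (d : Dat) (X : List (List ℕ)) (o2 : ℕ) (f : Fn) (fnum fden : ℕ)
    (z a b : Bool × ℤ) : ℝ :=
  FnD d X o2 f fnum fden z a b + FnD d X o2 f fnum fden z b a
    + 2 * ∑ q : Fin 64, sgD d q z a * sgD d q z b

lemma WD_symm (d : Dat) (X : List (List ℕ)) (o2 : ℕ) (f : Fn) (fnum fden : ℕ)
    (z a b : Bool × ℤ) : WD d X o2 f fnum fden z a b = WD d X o2 f fnum fden z b a := by
  unfold WD
  have : ∑ q : Fin 64, sgD d q z a * sgD d q z b = ∑ q : Fin 64, sgD d q z b * sgD d q z a :=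
    sum_congr rfl fun q _ => mul_comm _ _
  rw [this]
  ring

/-- the node form is the sum of the three costs -/
lemma tot_eq (d : Dat) (X : List (List ℕ)) (o2 : ℕ) (f : Fn) (fnum fden : ℕ)
    (a b c : Bool × ℤ) :
    sym6 (FnD d X o2 f fnum fden) a b c + 2 * sq3 univ (sgD d) a b c
      = WD d X o2 f fnum fden a b c + WD d X o2 f fnum fden b a c
        + WD d X o2 f fnum fden c a b := by
  unfold sym6 sq3 WD
  rw [sum_add_distrib, sum_add_distrib]
  ring

/-- swap of the class -/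
def sw (s : Bool × ℤ) : Bool × ℤ := (!s.1, s.2)

lemma lamD_sw (N o : ℕ) (X : List (List ℕ)) (s : Bool × ℤ) (e : Bool) :
    lamD N o X (sw s) (!e) = lamD N o X s e := by
  obtain ⟨c, i⟩ := s
  unfold lamD sw
  cases c <;> cases e <;> simp

lemma dD_sw (N o : ℕ) (X : List (List ℕ)) (s : Bool × ℤ) (e : Bool) :
    dD N o X (sw s) (!e) = dD N o X s e := by
  obtain ⟨c, i⟩ := s
  unfold dD sw
  cases c <;> cases e <;> simp

lemma sgD_sw (d : Dat) (q : Fin 64) (s t : Bool × ℤ) : sgD d q (sw s) (sw t) = sgD d q s t := by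
  obtain ⟨c, i⟩ := s
  obtain ⟨e, j⟩ := t
  unfold sgD sw
  cases c <;> cases e <;> simp

/-- sum of the linear facts -/
lemma facts_sum (d : Dat) (f : Fn) (fnum fden : ℕ) (z a b : Bool × ℤ) :
    ∑ q, nuD d f fden q a b
        * boxNode (fun _ : Fin 1 => farX d.N) (fun _ => (fnum : ℝ) / fden) (fun _ => 1) q z
      = fden * (NU f a.1 a.2.toNat b.1 b.2.toNat : ℝ) / (2 * L0) * (farX d.N z - fnum / fden)
        + (3 * (NC d a.1 a.2.toNat b.1 b.2.toNat : ℝ) / (2 * L0)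
            * ((if z.1 = false then 1 else 0) - 1 / 3)
          + 3 * (NC d (!a.1) a.2.toNat (!b.1) b.2.toNat : ℝ) / (2 * L0)
            * ((if z.1 = true then 1 else 0) - 1 / 3)) := by
  rw [Fintype.sum_sum_type, Fintype.sum_prod_type, Fin.sum_univ_one, Fintype.sum_bool,
    Fintype.sum_bool]
  simp only [nuD, boxNode, if_true, Bool.false_eq_true, if_false]
  ring

lemma NU_sw (f : Fn) (ea : Bool) (a : ℕ) (eb : Bool) (b : ℕ) :
    NU f (!ea) a (!eb) b = NU f ea a eb b := by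
  unfold NU
  cases ea <;> cases eb <;> simp

lemma FnD_sw (d : Dat) (X : List (List ℕ)) (o2 : ℕ) (f : Fn) (fnum fden : ℕ)
    (z a b : Bool × ℤ) :
    FnD d X o2 f fnum fden (sw z) (sw a) (sw b) = FnD d X o2 f fnum fden z a b := by
  have h1 : (sw a).1 = !a.1 := rfl
  have h2 : (sw b).1 = !b.1 := rfl
  have h3 : (sw z).1 = !z.1 := rfl
  have h4 : (sw a).2 = a.2 := rfl
  have h5 : (sw b).2 = b.2 := rfl
  have hc : ((!a.1) = (!b.1)) ↔ (a.1 = b.1) := by
    cases a.1 <;> cases b.1 <;> simp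
  have hH : hD d.N (2 * o2) X (sw z) = hD d.N (2 * o2) X z := rfl
  have hE : eD d.N (2 * o2) X (sw z) = eD d.N (2 * o2) X z := rfl
  have hF : farX d.N (sw z) = farX d.N z := rfl
  unfold FnD FnL
  rw [facts_sum, facts_sum, h1, h2, h3, h4, h5, lamD_sw, dD_sw, hH, hE, hF, NU_sw]
  simp only [hc, Bool.not_not]
  have e1 : (if (!z.1) = false then (1:ℝ) else 0) = if z.1 = true then 1 else 0 := by
    cases z.1 <;> simp
  have e2 : (if (!z.1) = true then (1:ℝ) else 0) = if z.1 = false then 1 else 0 := by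
    cases z.1 <;> simp
  rw [e1, e2]
  ring

lemma WD_sw (d : Dat) (X : List (List ℕ)) (o2 : ℕ) (f : Fn) (fnum fden : ℕ)
    (z a b : Bool × ℤ) :
    WD d X o2 f fnum fden (sw z) (sw a) (sw b) = WD d X o2 f fnum fden z a b := by
  unfold WD
  rw [FnD_sw, FnD_sw]
  congr 2
  exact sum_congr rfl fun q _ => by rw [sgD_sw, sgD_sw]

/-- the checks of one sampler, as propositions -/
structure SC (d : Dat) (X : List (List ℕ)) (o2 Mx n0 z : ℕ) : Prop where
  p0 : Shp Mx (xx X z 0)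
  p1 : Shp Mx (xx X z 1)
  p2 : Shp Mx (xx X z 2)
  l0 : dle Mx (xx X z 0) (xx X z 2) = true
  l1 : dle Mx (xx X z 1) (xx X z 2) = true
  e0 : chkE d.N o2 Mx (xx X z 0) (nth [] d.ke z) 0 = true
  e1 : chkE d.N o2 Mx (xx X z 1) (nth [] d.ke z) 3 = true
  m : chkM d.N o2 (xx X z 2) (nth 0 (nth [] d.ke z) 6) = true
  s : chkS d.N n0 d.Bd (xx X z 0) (xx X z 1) (2 * o2) = true
  cc : nth 0 (nth [] d.ke z) 7 = 0

lemma chkX_imp {d : Dat} {X : List (List ℕ)} {o2 Mx n0 : ℕ} (h : chkX d X o2 Mx n0 = true) {z : ℕ}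
    (hz : z ≤ d.N) : SC d X o2 Mx n0 z := by
  have h1 := allN_imp h z (by omega)
  simp only [Bool.and_eq_true] at h1
  obtain ⟨⟨⟨⟨⟨⟨⟨⟨⟨a0, a1⟩, a2⟩, a3⟩, a4⟩, a5⟩, a6⟩, a7⟩, a8⟩, a9⟩ := h1
  exact ⟨shp_imp a0, shp_imp a1, shp_imp a2, a3, a4, a5, a6, a7, a8, Nat.eq_of_beq_eq_true a9⟩

lemma farb_eq (N z : ℕ) : (Bool.rec (motive := fun _ => ℕ) 0 1 (farb N z) : ℕ)
    = farX N (false, (z : ℤ)) := by
  have h : farb N z = true ↔ (4 * ((z : ℤ) - 1) < (N : ℤ) ∨ 4 * ((N : ℤ) - z - 1) < (N : ℤ)) := by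
    unfold farb
    rw [Bool.or_eq_true]
    constructor
    · rintro (c | c)
      · have c' : 4 * z + 1 ≤ N + 4 := Nat.le_of_ble_eq_true c
        left
        omega
      · have c' : 3 * N + 1 ≤ 4 * z + 4 := Nat.le_of_ble_eq_true c
        right
        omega
    · rintro (c | c)
      · left
        apply Nat.ble_eq_true_of_le
        change 4 * z + 1 ≤ N + 4
        omega
      · right
        apply Nat.ble_eq_true_of_le
        change 3 * N + 1 ≤ 4 * z + 4
        omega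
  unfold farX
  by_cases c : (4 * ((z : ℤ) - 1) < (N : ℤ) ∨ 4 * ((N : ℤ) - z - 1) < (N : ℤ))
  · rw [if_pos c, h.2 c]
    simp
  · rw [if_neg c]
    have : farb N z = false := by
      rw [Bool.eq_false_iff]
      exact fun h' => c (h.1 h')
    rw [this]
    simp

lemma chkF_imp {N fnum fden : ℕ} {f : Fn} (h : chkF N fnum fden f = true) (hf : 0 < fden) {z : ℕ}
    (hz : z ≤ N) : (LV f z : ℝ) = fden * (farX N (false, (z : ℤ)) - fnum / fden) := by
  have h1 := Nat.eq_of_beq_eq_true (allN_imp h z (by omega))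
  have hf' : (0:ℝ) < fden := by exact_mod_cast hf
  have h2 : nth 0 f.lp z + fnum
      = nth 0 f.ln z + (Bool.rec (motive := fun _ => ℕ) 0 fden (farb N z) : ℕ) := h1
  have h3 : (Bool.rec (motive := fun _ => ℕ) 0 fden (farb N z) : ℕ)
      = fden * (Bool.rec (motive := fun _ => ℕ) 0 1 (farb N z) : ℕ) := by
    cases farb N z <;> simp
  rw [h3] at h2
  have h4 : ((nth 0 f.lp z + fnum : ℕ) : ℝ)
      = ((nth 0 f.ln z + fden * (Bool.rec (motive := fun _ => ℕ) 0 1 (farb N z) : ℕ) : ℕ) : ℝ) := by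
    exact_mod_cast h2
  push_cast at h4
  rw [farb_eq] at h4
  unfold LV
  push_cast
  have : (fden : ℝ) * (farX N (false, (z : ℤ)) - fnum / fden)
      = fden * farX N (false, (z : ℤ)) - fnum := by
    field_simp
  rw [this]
  linarith

/-- COST OF A CLASS 0 SAMPLER -/
lemma WD_le {d : Dat} {X : List (List ℕ)} {o2 Mx n0 : ℕ} {f : Fn} {fnum fden : ℕ}
    (hfn : d.fn = [f]) (hb : bnds d = true) (hs : syms d = true) (hX : chkX d X o2 Mx n0 = true)
    (hF : chkF d.N fnum fden f = true) (hfd : 0 < fden) (ho : o2 ≤ (d.N + 1) / 2)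
    {z a b : ℕ} (hz : z ≤ d.N) (ha : a ≤ d.N) (hbN : b ≤ d.N) (ea eb : Bool) :
    WD d X o2 f fnum fden (false, (z : ℤ)) (ea, (a : ℤ)) (eb, (b : ℤ))
      ≤ (Wi d z ea a eb b : ℝ) / L0 := by
  have S := chkX_imp hX hz
  have hL := L0_pos
  have hin : (0:ℤ) ≤ (z : ℤ) ∧ (z : ℤ) ≤ (d.N : ℤ) := ⟨by omega, by omega⟩
  -- end point labels
  have hE : ∀ e : Bool, ∀ p q : ℕ, p ≤ d.N →
      eK (lamD d.N (2 * o2) X (false, (z : ℤ)) e) (dD d.N (2 * o2) X (false, (z : ℤ)) e)
          (2 * (q : ℤ) - p) ≤ (KA d z e p q : ℝ) / L0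
      ∧ eK (lamD d.N (2 * o2) X (false, (z : ℤ)) e) (dD d.N (2 * o2) X (false, (z : ℤ)) e)
          (2 * (p : ℤ) - q) ≤ (KB d z e p q : ℝ) / L0 := by
    intro e p q hp
    unfold lamD dD
    simp only [if_pos hin, Int.toNat_natCast]
    rw [eK_div, eK_div]
    cases e with
    | false =>
      obtain ⟨k1, k2⟩ := eK_bound S.p0 S.e0 ho p q hp
      simp only [if_true]
      refine ⟨div_le_div_of_nonneg_right (k1.trans (le_of_eq ?_)) hL.le,
        div_le_div_of_nonneg_right (k2.trans (le_of_eq ?_)) hL.le⟩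
      · unfold KA
        simp
      · unfold KB
        simp
    | true =>
      obtain ⟨k1, k2⟩ := eK_bound S.p1 S.e1 ho p q hp
      simp only [Bool.true_eq_false, if_false]
      refine ⟨div_le_div_of_nonneg_right (k1.trans (le_of_eq ?_)) hL.le,
        div_le_div_of_nonneg_right (k2.trans (le_of_eq ?_)) hL.le⟩
      · unfold KA
        simp
      · unfold KB
        simp
  -- midpoints
  have hM : mK (hD d.N (2 * o2) X (false, (z : ℤ))) (eD d.N (2 * o2) X (false, (z : ℤ)))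
      ((a : ℤ) + b) ≤ (MM d z a b : ℝ) / L0 := by
    unfold hD eD
    simp only [if_pos hin, Int.toNat_natCast]
    rw [mK_div]
    refine div_le_div_of_nonneg_right ?_ hL.le
    have k := mK_bound S.p2 S.m (a + b) (by omega)
    push_cast at k
    refine k.trans (le_of_eq ?_)
    unfold MM
    rw [add_comm b a]
    simp
  have hsym := syms_sound d hs ha hbN ea eb
  have hsymc := syms_sound d hs ha hbN (!ea) (!eb)
  have hNU := hsym.2 f (by rw [hfn]; simp)
  have hLV := chkF_imp hF hfd hz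
  have hSS := sgD_sum hb hz ea eb a b
  have hCC : CC d z = 0 := by
    unfold CC
    rw [S.cc]
    simp
  have hWi : (Wi d z ea a eb b : ℝ) = 2 * (SS d z ea a eb b : ℝ) + KA d z ea a b + KB d z eb a b
      + (if ea = eb then (MM d z a b : ℝ) else 0)
      + (2 * (NC d ea a eb b : ℝ) - NC d (!ea) a (!eb) b)
      + LV f z * NU f ea a eb b := by
    unfold Wi
    rw [hCC, hfn]
    simp only [List.map_cons, List.map_nil, List.sum_cons, List.sum_nil]
    push_cast
    ring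
  unfold WD FnD FnL
  rw [facts_sum, facts_sum, hSS]
  simp only [Int.toNat_natCast, zero_mul, mul_zero, sub_zero, add_zero, if_true,
    Bool.false_eq_true, if_false]
  have hc : (eb = ea) ↔ (ea = eb) := ⟨Eq.symm, Eq.symm⟩
  simp only [hc]
  rw [← hNU, ← hsym.1, ← hsymc.1, add_comm (b : ℤ) a]
  have k1 := (hE ea a b ha).1
  have k2 := (hE eb a b ha).2
  have k3 : (if ea = eb then mK (hD d.N (2 * o2) X (false, (z : ℤ)))
      (eD d.N (2 * o2) X (false, (z : ℤ))) ((a : ℤ) + b) / 2 else 0)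
      + (if ea = eb then mK (hD d.N (2 * o2) X (false, (z : ℤ)))
      (eD d.N (2 * o2) X (false, (z : ℤ))) ((a : ℤ) + b) / 2 else 0)
      ≤ (if ea = eb then (MM d z a b : ℝ) else 0) / L0 := by
    split_ifs
    · linarith
    · simp
  have k4 : (fden : ℝ) * (NU f ea a eb b : ℝ) / (2 * L0) * (farX d.N (false, (z : ℤ)) - fnum / fden)
      = (LV f z : ℝ) * NU f ea a eb b / (2 * L0) := by
    rw [hLV]
    ring
  rw [k4, hWi]
  have e : (2 * (SS d z ea a eb b : ℝ) + KA d z ea a b + KB d z eb a b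
      + (if ea = eb then (MM d z a b : ℝ) else 0)
      + (2 * (NC d ea a eb b : ℝ) - NC d (!ea) a (!eb) b)
      + LV f z * NU f ea a eb b) / L0
      = 2 * ((SS d z ea a eb b : ℝ) / L0) + KA d z ea a b / L0 + KB d z eb a b / L0
        + (if ea = eb then (MM d z a b : ℝ) else 0) / L0
        + (2 * (NC d ea a eb b : ℝ) - NC d (!ea) a (!eb) b) / L0
        + LV f z * NU f ea a eb b / L0 := by ring
  rw [e]
  have e5 : (LV f z : ℝ) * NU f ea a eb b / L0 = (LV f z : ℝ) * NU f ea a eb b / (2 * L0)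
      + (LV f z : ℝ) * NU f ea a eb b / (2 * L0) := by
    field_simp
    ring
  have e6 : (2 * (NC d ea a eb b : ℝ) - NC d (!ea) a (!eb) b) / L0
      = (3 * (NC d ea a eb b : ℝ) / (2 * L0) * (1 - 1 / 3)
          + 3 * (NC d (!ea) a (!eb) b : ℝ) / (2 * L0) * (0 - 1 / 3))
        + (3 * (NC d ea a eb b : ℝ) / (2 * L0) * (1 - 1 / 3)
          + 3 * (NC d (!ea) a (!eb) b : ℝ) / (2 * L0) * (0 - 1 / 3)) := by
    field_simp
    ring
  rw [e5, e6]
  linarith

/-- the integer inequalities -/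
def Main (d : Dat) : Prop := ∀ a b c : ℕ, a ≤ d.N → b ≤ a → c ≤ d.N →
    Wi d a false b false c + Wi d b false a false c + Wi d c false a false b ≤ d.Bd
      ∧ Wi d a false b true c + Wi d b false a true c + Wi d c true a true b ≤ d.Bd

/-- total of three nodes -/
def TD (d : Dat) (X : List (List ℕ)) (o2 : ℕ) (f : Fn) (fnum fden : ℕ)
    (a b c : Bool × ℤ) : ℝ :=
  WD d X o2 f fnum fden a b c + WD d X o2 f fnum fden b a c + WD d X o2 f fnum fden c a b

lemma TD_12 (d : Dat) (X : List (List ℕ)) (o2 : ℕ) (f : Fn) (fnum fden : ℕ)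
    (a b c : Bool × ℤ) : TD d X o2 f fnum fden a b c = TD d X o2 f fnum fden b a c := by
  unfold TD
  rw [WD_symm d X o2 f fnum fden c a b]
  ring

lemma TD_23 (d : Dat) (X : List (List ℕ)) (o2 : ℕ) (f : Fn) (fnum fden : ℕ)
    (a b c : Bool × ℤ) : TD d X o2 f fnum fden a b c = TD d X o2 f fnum fden a c b := by
  unfold TD
  rw [WD_symm d X o2 f fnum fden a b c]
  ring

lemma TD_sw (d : Dat) (X : List (List ℕ)) (o2 : ℕ) (f : Fn) (fnum fden : ℕ)
    (a b c : Bool × ℤ) :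
    TD d X o2 f fnum fden (sw a) (sw b) (sw c) = TD d X o2 f fnum fden a b c := by
  unfold TD
  rw [WD_sw, WD_sw, WD_sw]

lemma sw_sw (s : Bool × ℤ) : sw (sw s) = s := by
  unfold sw
  simp

/-- three nodes, the first two of class 0 -/
lemma TD_le_ff {d : Dat} {X : List (List ℕ)} {o2 Mx n0 : ℕ} {f : Fn} {fnum fden : ℕ}
    (hfn : d.fn = [f]) (hb : bnds d = true) (hs : syms d = true) (hX : chkX d X o2 Mx n0 = true)
    (hF : chkF d.N fnum fden f = true) (hfd : 0 < fden) (ho : o2 ≤ (d.N + 1) / 2)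
    (hm : Main d) {a b c : ℕ} (ha : a ≤ d.N) (hbN : b ≤ d.N) (hc : c ≤ d.N) (e : Bool) :
    TD d X o2 f fnum fden (false, (a : ℤ)) (false, (b : ℤ)) (e, (c : ℤ)) ≤ (d.Bd : ℝ) / L0 := by
  wlog hba : b ≤ a generalizing a b with H
  · rw [TD_12]
    exact H hbN ha (by omega)
  have W := fun {z a b : ℕ} (hz : z ≤ d.N) (ha : a ≤ d.N) (hb' : b ≤ d.N) (ea eb : Bool) =>
    WD_le (z := z) (a := a) (b := b) hfn hb hs hX hF hfd ho hz ha hb' ea eb
  obtain ⟨m1, m2⟩ := hm a b c ha hba hc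
  have hL := L0_pos
  cases e with
  | false =>
    have w1 := W ha hbN hc false false
    have w2 := W hbN ha hc false false
    have w3 := W hc ha hbN false false
    have m1' : ((Wi d a false b false c + Wi d b false a false c + Wi d c false a false b : ℤ) : ℝ)
        ≤ ((d.Bd : ℤ) : ℝ) := by exact_mod_cast m1
    push_cast at m1'
    have m3 := div_le_div_of_nonneg_right m1' hL.le
    rw [add_div, add_div] at m3
    unfold TD
    linarith
  | true =>
    have w1 := W ha hbN hc false true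
    have w2 := W hbN ha hc false true
    have w3 := W hc ha hbN true true
    have e3 : WD d X o2 f fnum fden (true, (c : ℤ)) (false, (a : ℤ)) (false, (b : ℤ))
        = WD d X o2 f fnum fden (false, (c : ℤ)) (true, (a : ℤ)) (true, (b : ℤ)) := by
      rw [← WD_sw]
      rfl
    have m2' : ((Wi d a false b true c + Wi d b false a true c + Wi d c true a true b : ℤ) : ℝ)
        ≤ ((d.Bd : ℤ) : ℝ) := by exact_mod_cast m2
    push_cast at m2'
    have m3 := div_le_div_of_nonneg_right m2' hL.le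
    rw [add_div, add_div] at m3
    unfold TD
    rw [e3]
    linarith

/-- three arbitrary nodes -/
lemma TD_le {d : Dat} {X : List (List ℕ)} {o2 Mx n0 : ℕ} {f : Fn} {fnum fden : ℕ}
    (hfn : d.fn = [f]) (hb : bnds d = true) (hs : syms d = true) (hX : chkX d X o2 Mx n0 = true)
    (hF : chkF d.N fnum fden f = true) (hfd : 0 < fden) (ho : o2 ≤ (d.N + 1) / 2)
    (hm : Main d) {a b c : ℕ} (ha : a ≤ d.N) (hbN : b ≤ d.N) (hc : c ≤ d.N) (e1 e2 e3 : Bool) :
    TD d X o2 f fnum fden (e1, (a : ℤ)) (e2, (b : ℤ)) (e3, (c : ℤ)) ≤ (d.Bd : ℝ) / L0 := by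
  have F := fun {a b c : ℕ} (ha : a ≤ d.N) (hb' : b ≤ d.N) (hc : c ≤ d.N) (e : Bool) =>
    TD_le_ff (a := a) (b := b) (c := c) hfn hb hs hX hF hfd ho hm ha hb' hc e
  have S : ∀ (e1 e2 e3 : Bool), TD d X o2 f fnum fden (e1, (a : ℤ)) (e2, (b : ℤ)) (e3, (c : ℤ))
      = TD d X o2 f fnum fden (!e1, (a : ℤ)) (!e2, (b : ℤ)) (!e3, (c : ℤ)) := by
    intro e1 e2 e3
    rw [← TD_sw]
    rfl
  cases e1 <;> cases e2 <;> cases e3
  · exact F ha hbN hc false
  · exact F ha hbN hc true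
  · rw [TD_23]
    exact F ha hc hbN true
  · rw [S, TD_12, TD_23]
    exact F hbN hc ha true
  · rw [TD_12, TD_23]
    exact F hbN hc ha true
  · rw [S, TD_23]
    exact F ha hc hbN true
  · rw [S]
    exact F ha hbN hc true
  · rw [S]
    exact F ha hbN hc false

/-- INTEGER CERTIFICATE ==> BOX CERTIFICATE `f ≤ share of the outer quarters ≤ 1`, all `n ≥ n0` -/
theorem boxCertL_of_data {d : Dat} {X : List (List ℕ)} {o2 Mx n0 M : ℕ} {f : Fn} {fnum fden : ℕ}
    (hN : d.N = M + 1) (hfn : d.fn = [f]) (hb : bnds d = true) (hs : syms d = true)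
    (hX : chkX d X o2 Mx n0 = true) (hF : chkF d.N fnum fden f = true) (hfd : 0 < fden)
    (ho : o2 ≤ (d.N + 1) / 2) (hn0 : d.N ≤ n0) (hBd : 0 < d.Bd)
    (hm : Main d) {n : ℕ} (hn : n0 ≤ n) :
    TP.BoxCertL n (fun _ : Fin 1 => kT d.N (farX d.N)) (fun _ => (fnum : ℝ) / fden)
      (fun _ => 1) := by
  have hL := L0_pos
  have hS := fun {z : ℕ} (hz : z ≤ d.N) => chkX_imp hX hz
  have hpos : ∀ (o x : ℕ) (y : ℤ), 0 ≤ lR o x y / L0 := fun o x y =>
    div_nonneg (lR_nonneg o x y) hL.le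
  have hk0 : Kinks (fun _ : ℤ => (0:ℝ)) (fun _ => 0) := ⟨fun _ => le_rfl, fun _ => by norm_num⟩
  have hdle : ∀ {x y : ℕ}, dle Mx x y = true → Shp Mx x → ∀ (o : ℕ) (v : ℤ),
      lR o x v ≤ lR o y v := by
    intro x y h hsx o v
    unfold lR
    split_ifs with c
    · set m := (v + (o : ℤ)).toNat
      rcases Nat.lt_or_ge m Mx with c1 | c1
      · have := Nat.le_of_ble_eq_true (allN_imp h m c1)
        exact_mod_cast this
      · rw [hsx.zero (Or.inr c1)]
        simp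
    · exact le_rfl
  rw [hN] at ho hn0 ⊢
  have hBd' : (0:ℝ) < d.Bd := by exact_mod_cast hBd
  refine boxCertL_of_nodes (n0 := n0) (M := M) hn0 hn (fun _ : Fin 1 => farX (M + 1))
    (fun _ => (fnum : ℝ) / fden) (fun _ => 1)
    (lam := lamD (M + 1) (2 * o2) X) (D := dD (M + 1) (2 * o2) X) (lamH := hD (M + 1) (2 * o2) X)
    (DH := eD (M + 1) (2 * o2) X)
    (D' := fun s => Ds (lamD (M + 1) (2 * o2) X s true) (lamD (M + 1) (2 * o2) X s false))
    (Ad := fun s => As (lamD (M + 1) (2 * o2) X s true) (lamD (M + 1) (2 * o2) X s false))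
    (kap := fun _ => 0) (inl := fun _ => 1) (Din := fun _ => 0) (nu := nuD d f fden) (p := 64)
    (sg := sgD d) (θ := (d.Bd : ℝ) / (6 * L0)) (by positivity) ?_ ?_ ?_ ?_ (fun _ => le_rfl)
    (fun _ => zero_le_one) (fun _ _ _ => le_rfl) ⟨fun _ => le_rfl, fun _ => by norm_num⟩
    ?_ ?_ ?_ (fun _ _ => le_rfl) ?_ ?_
  · intro s e y
    unfold lamD
    split_ifs
    · exact hpos _ _ _
    · exact hpos _ _ _
    · exact le_refl (0:ℝ)
  · intro s e y
    unfold lamD hD
    split_ifs with c c2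
    · have hz : s.2.toNat ≤ d.N := by omega
      exact div_le_div_of_nonneg_right (hdle (hS hz).l0 (hS hz).p0 _ _) hL.le
    · have hz : s.2.toNat ≤ d.N := by omega
      exact div_le_div_of_nonneg_right (hdle (hS hz).l1 (hS hz).p1 _ _) hL.le
    · exact le_refl (0:ℝ)
  · intro s e
    unfold lamD dD
    split_ifs
    · exact kinks_div (kinks_R _ _) hL
    · exact kinks_div (kinks_R _ _) hL
    · exact hk0
  · intro s
    unfold hD eD
    split_ifs
    · exact kinks_div (kinks_R _ _) hL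
    · exact hk0
  · intro q s t
    rcases q with ⟨j, b⟩ | b
    · cases b with
      | false => exact le_rfl
      | true =>
        have : (0:ℝ) ≤ (NU f s.1 s.2.toNat t.1 t.2.toNat : ℝ) := by
          unfold NU
          positivity
        change 0 ≤ (fden : ℝ) * (NU f s.1 s.2.toNat t.1 t.2.toNat : ℝ) / (2 * L0)
        positivity
    · cases b with
      | false =>
        have : (0:ℝ) ≤ (NC d s.1 s.2.toNat t.1 t.2.toNat : ℝ) := by
          unfold NC
          positivity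
        change 0 ≤ 3 * (NC d s.1 s.2.toNat t.1 t.2.toNat : ℝ) / (2 * L0)
        positivity
      | true =>
        have : (0:ℝ) ≤ (NC d (!s.1) s.2.toNat (!t.1) t.2.toNat : ℝ) := by
          unfold NC
          positivity
        change 0 ≤ 3 * (NC d (!s.1) s.2.toNat (!t.1) t.2.toNat : ℝ) / (2 * L0)
        positivity
  · intro s y
    unfold Ds
    positivity
  · intro s y
    unfold Ds
    have := le_max_right (0:ℝ) ((lamD (M + 1) (2 * o2) X s true (y - 1)
      + lamD (M + 1) (2 * o2) X s false (y - 1))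
      - 2 * (lamD (M + 1) (2 * o2) X s true y + lamD (M + 1) (2 * o2) X s false y)
      + (lamD (M + 1) (2 * o2) X s true (y + 1) + lamD (M + 1) (2 * o2) X s false (y + 1)))
    linarith
  · intro e i hi
    unfold nd at hi
    rw [mem_Icc] at hi
    have hz : i.toNat ≤ d.N := by
      push_cast at hi
      omega
    have hin : (0:ℤ) ≤ i ∧ i ≤ ((M + 1 : ℕ) : ℤ) := hi
    have hn0' : 0 < n0 := by omega
    have h := (hS hz).s
    rw [hN] at h
    have key := chkS_imp hn0' h hL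
    cases e with
    | true =>
      have e1 : lamD (M + 1) (2 * o2) X (true, i) true
          = fun y => lR (2 * o2) (xx X i.toNat 0) y / L0 := by
        unfold lamD
        simp only [if_pos hin, if_true]
      have e2 : lamD (M + 1) (2 * o2) X (true, i) false
          = fun y => lR (2 * o2) (xx X i.toNat 1) y / L0 := by
        unfold lamD
        simp only [if_pos hin, Bool.false_eq_true, if_false]
      rw [e1, e2]
      exact key
    | false =>
      have e1 : lamD (M + 1) (2 * o2) X (false, i) true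
          = fun y => lR (2 * o2) (xx X i.toNat 1) y / L0 := by
        unfold lamD
        simp only [if_pos hin, Bool.true_eq_false, if_false]
      have e2 : lamD (M + 1) (2 * o2) X (false, i) false
          = fun y => lR (2 * o2) (xx X i.toNat 0) y / L0 := by
        unfold lamD
        simp only [if_pos hin, if_true]
      rw [e1, e2, Ds_comm, As_comm]
      refine key.trans (le_of_eq ?_)
      simp only
      rw [abs_sub_comm (lR (2 * o2) (xx X i.toNat 0) 0 / L0),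
        abs_sub_comm (lR (2 * o2) (xx X i.toNat 0) ((M + 1 : ℕ) : ℤ) / L0),
        add_comm (lR (2 * o2) (xx X i.toNat 0) 0 / L0),
        add_comm (lR (2 * o2) (xx X i.toNat 0) ((M + 1 : ℕ) : ℤ) / L0)]
      have e3 : ∑ j ∈ range M, (lR (2 * o2) (xx X i.toNat 0) ((j + 1 : ℕ) : ℤ) / L0
            + lR (2 * o2) (xx X i.toNat 1) ((j + 1 : ℕ) : ℤ) / L0) / 2
          = ∑ j ∈ range M, (lR (2 * o2) (xx X i.toNat 1) ((j + 1 : ℕ) : ℤ) / L0
            + lR (2 * o2) (xx X i.toNat 0) ((j + 1 : ℕ) : ℤ) / L0) / 2 :=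
        sum_congr rfl fun j _ => by rw [add_comm (lR (2 * o2) (xx X i.toNat 0) _ / L0)]
      rw [e3]
  · intro z a b hz ha hb'
    unfold nd at hz ha hb'
    rw [mem_Icc] at hz ha hb'
    have h := TD_le (X := X) hfn hb hs hX hF hfd (by rw [hN]; exact ho) hm
      (a := z.2.toNat) (b := a.2.toNat) (c := b.2.toNat)
      (by rw [hN]; push_cast at hz; omega) (by rw [hN]; push_cast at ha; omega)
      (by rw [hN]; push_cast at hb'; omega) z.1 a.1 b.1
    have ez : (z.1, (z.2.toNat : ℤ)) = z := by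
      rw [Int.toNat_of_nonneg hz.1]
    have ea : (a.1, (a.2.toNat : ℤ)) = a := by
      rw [Int.toNat_of_nonneg ha.1]
    have eb : (b.1, (b.2.toNat : ℤ)) = b := by
      rw [Int.toNat_of_nonneg hb'.1]
    rw [ez, ea, eb] at h
    have e := tot_eq d X o2 f fnum fden z a b
    unfold TD at h
    rw [← e] at h
    unfold FnD at h
    rw [hN] at h
    refine h.trans (le_of_eq ?_)
    field_simp

end

end MP61673a.KC
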