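import Pool.Agent.Mu673.FarBoxL
import Pool.Agent.Mu673.BridgeL

set_option autoImplicit false

/-!
FAR SHARE, final assembly: a certificate for a typed function `χ` that is at least `1` on the outer
quarters of the window gives the bound of the far masses of the frame.
-/

namespace MP61673a.TP

open Finset MP61673a.Sos MP61673a.W
open MP61673a.Lift (shift Mid Cov IsMaximalThreeFree cov_of_maximal card_shift liftN mem_liftN
  card_liftN dig dig_mem sum_liftN card_dig)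

noncomputable section

/-- indicator of the outer quarters -/
def outerQ (x : ℝ) : ℝ := if x ≤ 1 / 4 ∨ 3 / 4 ≤ x then 1 else 0

lemma outerQ_nonneg (x : ℝ) : 0 ≤ outerQ x := by
  unfold outerQ
  split_ifs <;> norm_num

/-- the sum of the indicator is at most the sum of a typed majorant -/
lemma lin_outerQ_le {n : ℕ} {A : Finset ℕ} (h : IsMaximalThreeFree n A) {χ : Pt → ℝ}
    (h0 : ∀ z : Pt, z.In → 0 ≤ χ z) (h1 : ∀ z : Pt, z.In → z.2 ≤ 1 / 4 → 1 ≤ χ z)
    (h2 : ∀ z : Pt, z.In → 3 / 4 ≤ z.2 → 1 ≤ χ z) :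
    lin n (shift A) outerQ ≤ linT n (shift A) χ := by
  unfold lin linT
  refine sum_le_sum fun a ha => ?_
  have hb := shift_bounds h ha
  have hin : (tp n a).In := tp_in hb.1 hb.2
  change outerQ (tp n a).2 ≤ χ (tp n a)
  unfold outerQ
  split_ifs with c
  · rcases c with c | c
    · exact h1 _ hin c
    · exact h2 _ hin c
  · exact h0 _ hin

/-- one functional, typed labels: the share of `χ` is less than `f` -/
theorem share_ltL' {n : ℕ} {A : Finset ℕ} (h : IsMaximalThreeFree n A) (hlt : A.card ^ 2 < n)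
    {χ : Pt → ℝ} {f : ℝ} (cert : BoxCertL n (fun _ : Fin 1 => χ) (fun _ => f) (fun _ => 1))
    (hχ : ∀ z : Pt, z.In → χ z ≤ 1) : linT n (shift A) χ < f * A.card := by
  by_contra hc
  push Not at hc
  refine BoxCertL.false h hlt cert fun j => ⟨?_, ?_⟩
  · rw [card_shift]
    exact hc
  · rw [one_mul]
    calc linT n (shift A) χ ≤ linT n (shift A) (fun _ => (1:ℝ)) := by
          unfold linT
          refine sum_le_sum fun a ha => hχ _ ?_
          have hb := shift_bounds h ha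
          exact tp_in hb.1 hb.2
      _ = (shift A).card := by rw [linT_const, one_mul]

/-- one functional, typed points: the share of `χ` is less than `f` -/
theorem share_ltT' {n : ℕ} {A : Finset ℕ} (h : IsMaximalThreeFree n A) (hlt : A.card ^ 2 < n)
    {χ : Pt → ℝ} {f : ℝ} (cert : BoxCertT n (fun _ : Fin 1 => χ) (fun _ => f) (fun _ => 1))
    (hχ : ∀ z : Pt, z.In → χ z ≤ 1) : linT n (shift A) χ < f * A.card := by
  by_contra hc
  push Not at hc
  refine BoxCertT.false h hlt cert fun j => ⟨?_, ?_⟩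
  · rw [card_shift]
    exact hc
  · rw [one_mul]
    calc linT n (shift A) χ ≤ linT n (shift A) (fun _ => (1:ℝ)) := by
          unfold linT
          refine sum_le_sum fun a ha => hχ _ ?_
          have hb := shift_bounds h ha
          exact tp_in hb.1 hb.2
      _ = (shift A).card := by rw [linT_const, one_mul]

/-- FAR SHARE IN THE FRAME from a bound of a typed functional -/
theorem far_frameT {n : ℕ} {A : Finset ℕ} (h : IsMaximalThreeFree n A) (hn : 100 ≤ n)
    {χ : Pt → ℝ} (h0 : ∀ z : Pt, z.In → 0 ≤ χ z) (h1 : ∀ z : Pt, z.In → z.2 ≤ 1 / 4 → 1 ≤ χ z)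
    (h2 : ∀ z : Pt, z.In → 3 / 4 ≤ z.2 → 1 ≤ χ z) {f : ℝ}
    (hf : linT n (shift A) χ ≤ f * A.card) {t : ℕ} (ht : 3 ≤ t) {D z c : ℤ}
    (hc : 31 * D ≤ 120 * c)
    (e1 : 3 * D + 1 ≤ 4 ^ t * (n : ℤ)) (e2 : 4 ^ t * (n : ℤ) ≤ 3 * D + 12) :
    (∑ a ∈ (MP61673a.Fin.PH (liftN t (shift A)) D z).S,
        if (MP61673a.Fin.PH (liftN t (shift A)) D z).u a ≤ -c then
          (MP61673a.Fin.PH (liftN t (shift A)) D z).f a else 0)
      + (∑ b ∈ (MP61673a.Fin.QH (liftN t (shift A)) D z).S,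
        if (MP61673a.Fin.QH (liftN t (shift A)) D z).u b ≤ -c then
          (MP61673a.Fin.QH (liftN t (shift A)) D z).f b else 0)
      ≤ f * (mass (MP61673a.Fin.PH (liftN t (shift A)) D z)
        + mass (MP61673a.Fin.QH (liftN t (shift A)) D z)) := by
  refine far_frame hn outerQ_nonneg (fun x hx => ?_) (fun x hx => ?_)
    ((lin_outerQ_le h h0 h1 h2).trans hf) ht hc e1 e2
  · unfold outerQ
    rw [if_pos (Or.inl hx)]
  · unfold outerQ
    rw [if_pos (Or.inr hx)]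

/-! ### Node functions -/

/-- node values that give a majorant of the outer quarters -/
structure FarNode (N : ℕ) (χn : Bool × ℤ → ℝ) : Prop where
  nonneg : ∀ s, 0 ≤ χn s
  le_one : ∀ s, χn s ≤ 1
  left : ∀ s, 4 * (s.2 - 1) < (N : ℤ) → χn s = 1
  right : ∀ s, 4 * ((N : ℤ) - s.2 - 1) < (N : ℤ) → χn s = 1

open MP61673a.Bridge (kT nd near_nd) in
lemma FarNode.facts {N : ℕ} {χn : Bool × ℤ → ℝ} (H : FarNode N χn) :
    (∀ z : Pt, z.In → 0 ≤ kT N χn z) ∧ (∀ z : Pt, z.In → kT N χn z ≤ 1) ∧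
    (∀ z : Pt, z.In → z.2 ≤ 1 / 4 → 1 ≤ kT N χn z) ∧
    (∀ z : Pt, z.In → 3 / 4 ≤ z.2 → 1 ≤ kT N χn z) := by
  have key : ∀ z : Pt, z.In → ∑ i ∈ nd N, MP61673a.Kink.hat i (N * z.2) = 1 := fun z hz =>
    MP61673a.Kink.sum_hat_one (near_nd hz.1.le hz.2.le)
  have hz0 : ∀ (i : ℤ) (y : ℝ), ¬ |y - i| < 1 → MP61673a.Kink.hat i y = 0 := by
    intro i y hy
    unfold MP61673a.Kink.hat
    rw [max_eq_left]
    linarith [not_lt.1 hy]
  refine ⟨fun z _ => ?_, fun z hz => ?_, fun z hz hz4 => ?_, fun z hz hz4 => ?_⟩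
  · exact sum_nonneg fun i _ => mul_nonneg (MP61673a.Kink.hat_nonneg _ _) (H.nonneg _)
  · rw [← key z hz]
    unfold kT
    refine sum_le_sum fun i _ => ?_
    have := mul_le_mul_of_nonneg_left (H.le_one (z.1, i)) (MP61673a.Kink.hat_nonneg i (N * z.2))
    linarith
  · rw [← key z hz]
    unfold kT
    refine sum_le_sum fun i _ => ?_
    by_cases c : |(N:ℝ) * z.2 - i| < 1
    · have c1 := (abs_lt.1 c).1
      have hN : (0:ℝ) ≤ N := Nat.cast_nonneg N
      have c2 : (4:ℝ) * (i - 1) < N := by nlinarith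
      have c3 : 4 * (i - 1) < (N : ℤ) := by exact_mod_cast c2
      rw [H.left (z.1, i) c3, mul_one]
    · rw [hz0 _ _ c, zero_mul]
  · rw [← key z hz]
    unfold kT
    refine sum_le_sum fun i _ => ?_
    by_cases c : |(N:ℝ) * z.2 - i| < 1
    · have c1 := (abs_lt.1 c).2
      have hN : (0:ℝ) ≤ N := Nat.cast_nonneg N
      have c2 : (4:ℝ) * ((N:ℝ) - i - 1) < N := by nlinarith
      have c3 : 4 * ((N : ℤ) - i - 1) < (N : ℤ) := by exact_mod_cast c2
      rw [H.right (z.1, i) c3, mul_one]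
    · rw [hz0 _ _ c, zero_mul]

open MP61673a.Bridge (kT) in
/-- FAR SHARE, typed labels -/
theorem far_shareL {n N : ℕ} {A : Finset ℕ} (h : IsMaximalThreeFree n A)
    (hlt : A.card ^ 2 < n) (hn : 100 ≤ n) {χn : Bool × ℤ → ℝ} (H : FarNode N χn) {f : ℝ}
    (cert : BoxCertL n (fun _ : Fin 1 => kT N χn) (fun _ => f) (fun _ => 1))
    {t : ℕ} (ht : 3 ≤ t) {D z c : ℤ} (hc : 31 * D ≤ 120 * c)
    (e1 : 3 * D + 1 ≤ 4 ^ t * (n : ℤ)) (e2 : 4 ^ t * (n : ℤ) ≤ 3 * D + 12) :
    (∑ a ∈ (MP61673a.Fin.PH (liftN t (shift A)) D z).S,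
        if (MP61673a.Fin.PH (liftN t (shift A)) D z).u a ≤ -c then
          (MP61673a.Fin.PH (liftN t (shift A)) D z).f a else 0)
      + (∑ b ∈ (MP61673a.Fin.QH (liftN t (shift A)) D z).S,
        if (MP61673a.Fin.QH (liftN t (shift A)) D z).u b ≤ -c then
          (MP61673a.Fin.QH (liftN t (shift A)) D z).f b else 0)
      ≤ f * (mass (MP61673a.Fin.PH (liftN t (shift A)) D z)
        + mass (MP61673a.Fin.QH (liftN t (shift A)) D z)) := by
  obtain ⟨k0, k1, k2, k3⟩ := H.facts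
  exact far_frameT h hn k0 k2 k3 (share_ltL' h hlt cert k1).le ht hc e1 e2

open MP61673a.Bridge (kT) in
/-- FAR SHARE, typed points only -/
theorem far_shareT {n N : ℕ} {A : Finset ℕ} (h : IsMaximalThreeFree n A)
    (hlt : A.card ^ 2 < n) (hn : 100 ≤ n) {χn : Bool × ℤ → ℝ} (H : FarNode N χn) {f : ℝ}
    (cert : BoxCertT n (fun _ : Fin 1 => kT N χn) (fun _ => f) (fun _ => 1))
    {t : ℕ} (ht : 3 ≤ t) {D z c : ℤ} (hc : 31 * D ≤ 120 * c)
    (e1 : 3 * D + 1 ≤ 4 ^ t * (n : ℤ)) (e2 : 4 ^ t * (n : ℤ) ≤ 3 * D + 12) :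
    (∑ a ∈ (MP61673a.Fin.PH (liftN t (shift A)) D z).S,
        if (MP61673a.Fin.PH (liftN t (shift A)) D z).u a ≤ -c then
          (MP61673a.Fin.PH (liftN t (shift A)) D z).f a else 0)
      + (∑ b ∈ (MP61673a.Fin.QH (liftN t (shift A)) D z).S,
        if (MP61673a.Fin.QH (liftN t (shift A)) D z).u b ≤ -c then
          (MP61673a.Fin.QH (liftN t (shift A)) D z).f b else 0)
      ≤ f * (mass (MP61673a.Fin.PH (liftN t (shift A)) D z)
        + mass (MP61673a.Fin.QH (liftN t (shift A)) D z)) := by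
  obtain ⟨k0, k1, k2, k3⟩ := H.facts
  exact far_frameT h hn k0 k2 k3 (share_ltT' h hlt cert k1).le ht hc e1 e2

end

end MP61673a.TP
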