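import Pool.Agent.Mu673.FarTabCheck
import Pool.Agent.Mu673.FarData
import Pool.Agent.Mu673.FarShare

/-!
FAR SHARE BELOW 1/5: the table `FarTab` (helpers 30, 10) is a certificate for every `n ≥ 122`.
-/

set_option autoImplicit false
set_option maxRecDepth 100000

namespace MP61673a.KC.FarTab

open MP61673a.Bridge (kT)
open MP61673a.Lift (shift IsMaximalThreeFree)

theorem lab_ok : chkX dat lab 2 54 122 = true := by decide +kernel

theorem fact_ok : chkF 47 1 5 fn0 = true := by decide +kernel

theorem main_all : Main dat := fun a b c ha hba hc =>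
  main_sound dat bnds_ok main_ok (le_refl _) (Nat.zero_le a) (Nat.lt_succ_of_le ha) hba hc

/-- the certificate -/
theorem box_cert {n : ℕ} (hn : 122 ≤ n) :
    TP.BoxCertL n (fun _ : Fin 1 => kT 47 (farX 47)) (fun _ => ((1 : ℕ) : ℝ) / ((5 : ℕ) : ℝ))
      (fun _ => 1) :=
  boxCertL_of_data (d := dat) (X := lab) (o2 := 2) (Mx := 54) (n0 := 122) (M := 46) (f := fn0)
    (fnum := 1) (fden := 5) rfl rfl bnds_ok syms_ok lab_ok fact_ok (by norm_num)
    (by decide) (by decide) (by decide) main_all hn

theorem farNode : TP.FarNode 47 (farX 47) := by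
  refine ⟨fun s => ?_, fun s => ?_, fun s h => ?_, fun s h => ?_⟩
  · unfold farX
    split_ifs <;> norm_num
  · unfold farX
    split_ifs <;> norm_num
  · unfold farX
    rw [if_pos (Or.inl h)]
  · unfold farX
    rw [if_pos (Or.inr h)]

/-- FAR SHARE: the outer quarters of the window hold less than a fifth of `A` -/
theorem far_share {n : ℕ} {A : Finset ℕ} (hn : 122 ≤ n) (h : IsMaximalThreeFree n A)
    (hlt : A.card ^ 2 < n) :
    TP.lin n (shift A) TP.outerQ ≤ 1 / 5 * A.card := by
  obtain ⟨k0, k1, k2, k3⟩ := farNode.facts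
  have hs := TP.share_ltL' h hlt (box_cert hn) k1
  have h2 := TP.lin_outerQ_le h k0 k2 k3
  have h3 := h2.trans hs.le
  norm_num at h3
  linarith

end MP61673a.KC.FarTab
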