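import Pool.Agent.Mu673.KCbase

/-!
Soundness of the kernel checker `KCdef`: the integer inequalities proved by `mainCheck`.
-/

set_option autoImplicit false

namespace MP61673a.KC

open Finset

noncomputable section

/-- index of the typed node `(e, c)` in a packed vector -/
def ix (N : ℕ) (e : Bool) (c : ℕ) : ℕ := if e then N + 1 + c else c

/-- the sum of the squares of the sampler `z` (class 0) at the typed nodes `(eb, b)`, `(ec, c)` -/
def SS (d : Dat) (z : ℕ) (eb : Bool) (b : ℕ) (ec : Bool) (c : ℕ) : ℤ :=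
  ((nth [] d.sq z).map fun p =>
    ((dg p (ix d.N eb b) : ℤ) - 16384) * ((dg p (ix d.N ec c) : ℤ) - 16384)).sum

/-- value used for the label `2c - b` of class `e`, sampler `z` of class 0 -/
def KA (d : Dat) (z : ℕ) (e : Bool) (b c : ℕ) : ℤ :=
  dg (nth 0 (nth [] d.ke z) ((if e then 3 else 0) + b % 2)) (c + s1 d.N b)

/-- value used for the label `2b - c` of class `e`, sampler `z` of class 0 -/
def KB (d : Dat) (z : ℕ) (e : Bool) (b c : ℕ) : ℤ :=
  dg (nth 0 (nth [] d.ke z) (if e then 5 else 2)) (c + s2 d.N b)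

/-- value used for the midpoint of `b` and `c` (both orders), sampler `z` of class 0 -/
def MM (d : Dat) (z b c : ℕ) : ℤ := dg (nth 0 (nth [] d.ke z) 6) (c + b)

/-- constant of the sampler `z` -/
def CC (d : Dat) (z : ℕ) : ℤ := ((nth 0 (nth [] d.ke z) 7 : ℕ) : ℤ)

/-- multiplier of the linear fact `f` -/
def NU (f : Fn) (eb : Bool) (b : ℕ) (ec : Bool) (c : ℕ) : ℤ :=
  dg (nth 0 (if eb = ec then f.same else f.diff) b) c

/-- value of the linear fact `f` at the sampler `z` of class 0 -/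
def LV (f : Fn) (z : ℕ) : ℤ := ((nth 0 f.lp z : ℕ) : ℤ) - ((nth 0 f.ln z : ℕ) : ℤ)

/-- multiplier of the class fact (class 0) -/
def NC (d : Dat) (eb : Bool) (b : ℕ) (ec : Bool) (c : ℕ) : ℤ :=
  dg (nth 0 (match eb, ec with
    | false, false => d.n00
    | false, true => d.n01
    | true, false => d.n10
    | true, true => d.n11) b) c

/-- integer cost of the (unordered) pair of typed nodes `(eb, b)`, `(ec, c)`, for the sampler node
`z` of class 0 -/
def Wi (d : Dat) (z : ℕ) (eb : Bool) (b : ℕ) (ec : Bool) (c : ℕ) : ℤ :=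
  2 * SS d z eb b ec c + KA d z eb b c + KB d z ec b c + (if eb = ec then MM d z b c else 0)
    - CC d z + (2 * NC d eb b ec c - NC d (!eb) b (!ec) c)
    + (d.fn.map fun f => LV f z * NU f eb b ec c).sum

/-- size conditions of the data -/
def bnds (d : Dat) : Bool :=
  allN (Nat.succ d.N) (fun z =>
    (Nat.ble (len (nth [] d.sq z)) 64)
      && allL (nth [] d.sq z) (mask 15 (Nat.mul 2 (Nat.succ d.N)))
      && allL (nth [] d.ke z) (mask 30 (Nat.succ (Nat.mul 3 (Nat.succ d.N))))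
      && mask 28 (Nat.succ d.N) (nth 0 d.n00 z) && mask 28 (Nat.succ d.N) (nth 0 d.n01 z)
      && mask 28 (Nat.succ d.N) (nth 0 d.n10 z) && mask 28 (Nat.succ d.N) (nth 0 d.n11 z)
      && Nat.ble (nth 0 (nth [] d.ke z) 7) 1073741824
      && allL d.fn (fun f => Nat.ble (nth 0 f.lp z) 255 && Nat.ble (nth 0 f.ln z) 255
        && mask 24 (Nat.succ d.N) (nth 0 f.same z) && mask 24 (Nat.succ d.N) (nth 0 f.diff z)))
    && Nat.ble (sumL (fun _ => 1) d.fn) 8

/-- `A` is the transpose of `B` -/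
def tps (m : ℕ) (A B : List ℕ) : Bool :=
  allN m (fun b => allN m (fun c => Nat.beq (dg (nth 0 A b) c) (dg (nth 0 B c) b)))

/-- symmetry conditions of the multipliers -/
def syms (d : Dat) : Bool :=
  tps (Nat.succ d.N) d.n00 d.n00 && tps (Nat.succ d.N) d.n11 d.n11
    && tps (Nat.succ d.N) d.n01 d.n10
    && allL d.fn (fun f => tps (Nat.succ d.N) f.same f.same && tps (Nat.succ d.N) f.diff f.diff)

/-- the size conditions, as propositions -/
structure Bnd (d : Dat) (z : ℕ) : Prop where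
  len : (nth [] d.sq z).length ≤ 64
  sq : ∀ p ∈ nth [] d.sq z, ∀ c, dg p c < 2 ^ 15
  ke : ∀ i c, dg (nth 0 (nth [] d.ke z) i) c < 2 ^ 30
  n00 : ∀ c, dg (nth 0 d.n00 z) c < 2 ^ 28
  n01 : ∀ c, dg (nth 0 d.n01 z) c < 2 ^ 28
  n10 : ∀ c, dg (nth 0 d.n10 z) c < 2 ^ 28
  n11 : ∀ c, dg (nth 0 d.n11 z) c < 2 ^ 28
  cc : nth 0 (nth [] d.ke z) 7 ≤ 2 ^ 30
  lp : ∀ f ∈ d.fn, nth 0 f.lp z ≤ 255
  ln : ∀ f ∈ d.fn, nth 0 f.ln z ≤ 255
  same : ∀ f ∈ d.fn, ∀ c, dg (nth 0 f.same z) c < 2 ^ 24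
  diff : ∀ f ∈ d.fn, ∀ c, dg (nth 0 f.diff z) c < 2 ^ 24
  fn : d.fn.length ≤ 8

lemma Bnd.of (d : Dat) (h : bnds d = true) {z : ℕ} (hz : z ≤ d.N) : Bnd d z := by
  unfold bnds at h
  rw [Bool.and_eq_true] at h
  obtain ⟨h, hfn⟩ := h
  have hz' := (allN_iff _ _).1 h z (Nat.lt_succ_of_le hz)
  simp only [Bool.and_eq_true] at hz'
  obtain ⟨⟨⟨⟨⟨⟨⟨⟨h1, h2⟩, h3⟩, h4⟩, h5⟩, h6⟩, h7⟩, h8⟩, h9⟩ := hz'
  have hf : ∀ f ∈ d.fn, (Nat.ble (nth 0 f.lp z) 255 = true ∧ Nat.ble (nth 0 f.ln z) 255 = true)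
      ∧ (mask 24 (Nat.succ d.N) (nth 0 f.same z) = true)
        ∧ (mask 24 (Nat.succ d.N) (nth 0 f.diff z) = true) := by
    intro f hf
    have := (allL_iff _ _).1 h9 f hf
    simp only [Bool.and_eq_true] at this
    exact ⟨⟨this.1.1.1, this.1.1.2⟩, this.1.2, this.2⟩
  refine ⟨?_, fun p hp c => mask_dg (by norm_num) ((allL_iff _ _).1 h2 p hp) c, fun i c => ?_,
    mask_dg (by norm_num) h4, mask_dg (by norm_num) h5, mask_dg (by norm_num) h6,
    mask_dg (by norm_num) h7, ?_, fun f hff => Nat.le_of_ble_eq_true (hf f hff).1.1,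
    fun f hff => Nat.le_of_ble_eq_true (hf f hff).1.2,
    fun f hff => mask_dg (by norm_num) (hf f hff).2.1,
    fun f hff => mask_dg (by norm_num) (hf f hff).2.2, ?_⟩
  · have := Nat.le_of_ble_eq_true h1
    unfold KC.len at this
    rw [sumL_eq] at this
    simpa using this
  · rcases nth_mem 0 (nth [] d.ke z) i with h | h
    · exact mask_dg (by norm_num) ((allL_iff _ _).1 h3 _ h) c
    · rw [h, dg_zero]
      norm_num
  · have := Nat.le_of_ble_eq_true h8
    simpa using this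
  · have := Nat.le_of_ble_eq_true hfn
    rw [sumL_eq] at this
    simpa using this

lemma sum_map_sub' {α : Type} (l : List α) (u v : α → ℤ) :
    (l.map fun f => (u f - v f)).sum = (l.map u).sum - (l.map v).sum := by
  induction l with
  | nil => simp
  | cons a l ih =>
    simp only [List.map_cons, List.sum_cons]
    rw [ih]
    ring

/-- bounds for the sums over the linear facts -/
lemma fn_sum {d : Dat} {z : ℕ} (h : Bnd d z) (u : Fn → ℤ)
    (hu : ∀ f ∈ d.fn, 0 ≤ u f ∧ u f < 2 ^ 24) :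
    (0 ≤ (d.fn.map fun f => ((nth 0 f.lp z : ℕ) : ℤ) * u f).sum
      ∧ (d.fn.map fun f => ((nth 0 f.lp z : ℕ) : ℤ) * u f).sum ≤ 2 ^ 35)
    ∧ (0 ≤ (d.fn.map fun f => ((nth 0 f.ln z : ℕ) : ℤ) * u f).sum
      ∧ (d.fn.map fun f => ((nth 0 f.ln z : ℕ) : ℤ) * u f).sum ≤ 2 ^ 35) := by
  have hlen : (d.fn.length : ℤ) ≤ 8 := by exact_mod_cast h.fn
  have hlen0 : (0:ℤ) ≤ d.fn.length := by positivity
  have g : ∀ (w : Fn → ℕ), (∀ f ∈ d.fn, w f ≤ 255) →
      0 ≤ (d.fn.map fun f => ((w f : ℕ) : ℤ) * u f).sum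
        ∧ (d.fn.map fun f => ((w f : ℕ) : ℤ) * u f).sum ≤ 2 ^ 35 := by
    intro w hw
    have hh := sum_bounds d.fn (fun f => ((w f : ℕ) : ℤ) * u f) (A := 0) (B := 255 * 2 ^ 24)
      (fun f hf => by
        have h1 : ((w f : ℕ) : ℤ) ≤ 255 := by exact_mod_cast hw f hf
        have h2 := hu f hf
        have h3 : (0:ℤ) ≤ (w f : ℕ) := by positivity
        exact ⟨mul_nonneg h3 h2.1, mul_le_mul h1 h2.2.le h2.1 (by norm_num)⟩)
    refine ⟨by simpa using hh.1, hh.2.trans ?_⟩
    nlinarith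
  exact ⟨g _ h.lp, g _ h.ln⟩

/-- bounds for the sum of squares -/
lemma SS_bounds {d : Dat} {z : ℕ} (h : Bnd d z) (eb : Bool) (b : ℕ) (ec : Bool) (c : ℕ) :
    -2 ^ 34 ≤ SS d z eb b ec c ∧ SS d z eb b ec c ≤ 2 ^ 34 := by
  have hlen : ((nth [] d.sq z).length : ℤ) ≤ 64 := by exact_mod_cast h.len
  have hlen0 : (0:ℤ) ≤ (nth [] d.sq z).length := by positivity
  have hh := sum_bounds (nth [] d.sq z) (fun p => ((dg p (ix d.N eb b) : ℤ) - 16384)
    * ((dg p (ix d.N ec c) : ℤ) - 16384)) (A := -2 ^ 28) (B := 2 ^ 28) (fun p hp => by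
      have h1 : ((dg p (ix d.N eb b) : ℕ) : ℤ) < 32768 := by exact_mod_cast h.sq p hp _
      have h2 : ((dg p (ix d.N ec c) : ℕ) : ℤ) < 32768 := by exact_mod_cast h.sq p hp _
      have h3 : (0:ℤ) ≤ (dg p (ix d.N eb b) : ℕ) := by positivity
      have h4 : (0:ℤ) ≤ (dg p (ix d.N ec c) : ℕ) := by positivity
      constructor <;> nlinarith)
  unfold SS
  constructor
  · refine le_trans ?_ hh.1
    nlinarith
  · refine hh.2.trans ?_
    nlinarith

/-- two sided bound of `Wi` -/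
lemma Wi_bounds {d : Dat} {z b : ℕ} (h : Bnd d z) (k : Bnd d b) (eb ec : Bool) (c : ℕ) :
    -2 ^ 37 < Wi d z eb b ec c ∧ Wi d z eb b ec c < 2 ^ 38 := by
  have s := SS_bounds h eb b ec c
  have k1 : 0 ≤ KA d z eb b c ∧ KA d z eb b c < 2 ^ 30 := by
    unfold KA
    exact ⟨by positivity, by exact_mod_cast h.ke _ _⟩
  have k2 : 0 ≤ KB d z ec b c ∧ KB d z ec b c < 2 ^ 30 := by
    unfold KB
    exact ⟨by positivity, by exact_mod_cast h.ke _ _⟩
  have k3 : 0 ≤ (if eb = ec then MM d z b c else 0) ∧ (if eb = ec then MM d z b c else 0) < 2 ^ 30 := by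
    split_ifs
    · unfold MM
      exact ⟨by positivity, by exact_mod_cast h.ke _ _⟩
    · norm_num
  have k4 : 0 ≤ CC d z ∧ CC d z ≤ 2 ^ 30 := by
    unfold CC
    exact ⟨by positivity, by exact_mod_cast h.cc⟩
  have n : ∀ e1 e2 : Bool, 0 ≤ NC d e1 b e2 c ∧ NC d e1 b e2 c < 2 ^ 28 := by
    intro e1 e2
    unfold NC
    refine ⟨by positivity, ?_⟩
    cases e1 <;> cases e2
    · exact_mod_cast k.n00 c
    · exact_mod_cast k.n01 c
    · exact_mod_cast k.n10 c
    · exact_mod_cast k.n11 c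
  have f1 := fn_sum h (fun f => NU f eb b ec c) (fun f hf => by
    unfold NU
    refine ⟨by positivity, ?_⟩
    split_ifs
    · exact_mod_cast k.same f hf c
    · exact_mod_cast k.diff f hf c)
  have e : (d.fn.map fun f => LV f z * NU f eb b ec c).sum
      = (d.fn.map fun f => ((nth 0 f.lp z : ℕ) : ℤ) * NU f eb b ec c).sum
        - (d.fn.map fun f => ((nth 0 f.ln z : ℕ) : ℤ) * NU f eb b ec c).sum := by
    rw [← sum_map_sub']
    congr 1
    refine List.map_congr_left fun f _ => ?_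
    unfold LV
    ring
  unfold Wi
  rw [e]
  have n1 := n eb ec
  have n2 := n (!eb) (!ec)
  norm_num at *
  constructor <;> linarith [s.1, s.2, k1.1, k1.2, k2.1, k2.2, k3.1, k3.2, k4.1, k4.2, n1.1, n1.2,
    n2.1, n2.2, f1.1.1, f1.1.2, f1.2.1, f1.2.2]

/-- the packed row `R0` -/
lemma R0_rp {d : Dat} {z b : ℕ} (h : Bnd d z) (hb : b ≤ d.N) :
    Rp (2 * (d.N + 1)) (R0 d z b) (fun c => if c < d.N + 1 then Wi d z false b false c + 137438953472
      else Wi d z false b true (c - (d.N + 1)) + 137438953472) := by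
  have hA : par b (nth 0 (nth [] d.ke z) 0) (nth 0 (nth [] d.ke z) 1)
      = nth 0 (nth [] d.ke z) (b % 2) := by
    rcases Nat.mod_two_eq_zero_or_one b with e | e
    · rw [par0 _ _ _ e, e]
    · rw [par1 _ _ _ e, e]
  unfold R0
  have x1 := Rp.cat (d.N + 1) (shf (nth 0 (nth [] d.ke z) (b % 2)) (s1 d.N b))
    (shf (nth 0 (nth [] d.ke z) (b % 2)) (s1 d.N b))
  have x2 := Rp.cat (d.N + 1) (shf (nth 0 (nth [] d.ke z) 2) (s2 d.N b))
    (shf (nth 0 (nth [] d.ke z) 5) (s2 d.N b))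
  have x3 := Rp.cat (d.N + 1) (shf (nth 0 (nth [] d.ke z) 6) b) 0
  have x4 := (Rp.cat (d.N + 1) (nth 0 d.n00 b) (nth 0 d.n01 b)).mul 2
  have x5 := Rp.sumL (m := 2 * (d.N + 1)) (fun f : Fn => Nat.mul (nth 0 f.lp z)
    (cat (d.N + 1) (nth 0 f.same b) (nth 0 f.diff b))) _ d.fn
    (fun f _ => (Rp.cat (d.N + 1) (nth 0 f.same b) (nth 0 f.diff b)).mul (nth 0 f.lp z))
  have y1 := (Rp.rep (2 * (d.N + 1))).mul (nth 0 (nth [] d.ke z) 7)
  have y2 := Rp.cat (d.N + 1) (nth 0 d.n11 b) (nth 0 d.n10 b)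
  have y3 := Rp.sumL (m := 2 * (d.N + 1)) (fun f : Fn => Nat.mul (nth 0 f.ln z)
    (cat (d.N + 1) (nth 0 f.same b) (nth 0 f.diff b))) _ d.fn
    (fun f _ => (Rp.cat (d.N + 1) (nth 0 f.same b) (nth 0 f.diff b)).mul (nth 0 f.ln z))
  have key := Rp.sqrow (m := 2 * (d.N + 1)) (b := b) (l := nth [] d.sq z) (by omega) h.len h.sq
    (((x1.add x2).add x3).add (x4.add x5)) (y1.add (y2.add y3))
  rw [hA]
  refine Rp.congr key fun c hc => ?_
  have el : ∀ (u v : Fn → ℤ), (d.fn.map fun f => (u f - v f)).sum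
      = (d.fn.map u).sum - (d.fn.map v).sum := sum_map_sub' _
  have efn : ∀ w : Fn → ℤ, (d.fn.map fun f => LV f z * w f).sum
      = (d.fn.map fun f => ((nth 0 f.lp z : ℕ) : ℤ) * w f).sum
        - (d.fn.map fun f => ((nth 0 f.ln z : ℕ) : ℤ) * w f).sum := by
    intro w
    rw [← el]
    congr 1
    refine List.map_congr_left fun f _ => ?_
    unfold LV
    ring
  by_cases hcm : c < d.N + 1
  · simp only [if_pos hcm, dg_shf]
    unfold Wi SS KA KB MM CC NC NU ix
    simp only [if_true, Bool.false_eq_true, if_false, Bool.not_false, zero_add]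
    rw [efn]
    push_cast
    ring
  · simp only [if_neg hcm, dg_shf, dg_zero]
    unfold Wi SS KA KB MM CC NC NU ix
    have ec : d.N + 1 + (c - (d.N + 1)) = c := by omega
    simp only [if_true, Bool.false_eq_true, if_false, Bool.not_false, Bool.not_true, zero_add, ec]
    rw [efn]
    simp
    ring

/-- the packed row `R1` -/
lemma R1_rp {d : Dat} {z b : ℕ} (h : Bnd d z) (hb : b ≤ d.N) :
    Rp (d.N + 1) (R1 d z b) (fun c => Wi d z true b true c + 137438953472) := by
  have hA : par b (nth 0 (nth [] d.ke z) 3) (nth 0 (nth [] d.ke z) 4)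
      = nth 0 (nth [] d.ke z) (3 + b % 2) := by
    rcases Nat.mod_two_eq_zero_or_one b with e | e
    · rw [par0 _ _ _ e, e]
    · rw [par1 _ _ _ e, e]
  unfold R1
  have x1 := Rp.shf (d.N + 1) (nth 0 (nth [] d.ke z) (3 + b % 2)) (s1 d.N b)
  have x2 := Rp.shf (d.N + 1) (nth 0 (nth [] d.ke z) 5) (s2 d.N b)
  have x3 := Rp.shf (d.N + 1) (nth 0 (nth [] d.ke z) 6) b
  have x4 := (Rp.self (d.N + 1) (nth 0 d.n11 b)).mul 2
  have x5 := Rp.sumL (m := d.N + 1) (fun f : Fn => Nat.mul (nth 0 f.lp z) (nth 0 f.same b)) _ d.fn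
    (fun f _ => (Rp.self (d.N + 1) (nth 0 f.same b)).mul (nth 0 f.lp z))
  have y1 := (Rp.rep (d.N + 1)).mul (nth 0 (nth [] d.ke z) 7)
  have y2 := Rp.self (d.N + 1) (nth 0 d.n00 b)
  have y3 := Rp.sumL (m := d.N + 1) (fun f : Fn => Nat.mul (nth 0 f.ln z) (nth 0 f.same b)) _ d.fn
    (fun f _ => (Rp.self (d.N + 1) (nth 0 f.same b)).mul (nth 0 f.ln z))
  have key := Rp.sqrow (m := d.N + 1) (b := b)
    (l := mapL (fun p => shf p (d.N + 1)) (nth [] d.sq z)) (by omega)
    (by rw [mapL_eq, List.length_map]; exact h.len)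
    (by
      intro p hp c
      rw [mapL_eq, List.mem_map] at hp
      obtain ⟨q, hq, rfl⟩ := hp
      rw [dg_shf]
      exact h.sq q hq _)
    (((x1.add x2).add x3).add (x4.add x5)) (y1.add (y2.add y3))
  rw [hA]
  refine Rp.congr key fun c hc => ?_
  have el : ∀ (u v : Fn → ℤ), (d.fn.map fun f => (u f - v f)).sum
      = (d.fn.map u).sum - (d.fn.map v).sum := sum_map_sub' _
  have efn : ∀ w : Fn → ℤ, (d.fn.map fun f => LV f z * w f).sum
      = (d.fn.map fun f => ((nth 0 f.lp z : ℕ) : ℤ) * w f).sum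
        - (d.fn.map fun f => ((nth 0 f.ln z : ℕ) : ℤ) * w f).sum := by
    intro w
    rw [← el]
    congr 1
    refine List.map_congr_left fun f _ => ?_
    unfold LV
    ring
  rw [mapL_eq, List.map_map]
  unfold Wi SS KA KB MM CC NC NU ix
  simp only [if_true, Bool.not_true, Function.comp_def, dg_shf]
  rw [efn]
  have e1 : (fun p => (((dg p (b + (d.N + 1)) : ℕ) : ℤ) - 16384)
      * (((dg p (c + (d.N + 1)) : ℕ) : ℤ) - 16384))
      = fun p => (((dg p (d.N + 1 + b) : ℕ) : ℤ) - 16384)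
      * (((dg p (d.N + 1 + c) : ℕ) : ℤ) - 16384) := by
    funext p
    rw [add_comm b, add_comm c]
  rw [e1]
  push_cast
  ring

/-- SOUNDNESS of the kernel check -/
theorem main_sound (d : Dat) (hb : bnds d = true) {lo hi : ℕ} (h : mainCheck d lo hi = true)
    (hhi : hi ≤ d.N + 1) {a b c : ℕ} (ha : lo ≤ a) (ha' : a < hi) (hba : b ≤ a) (hc : c ≤ d.N) :
    Wi d a false b false c + Wi d b false a false c + Wi d c false a false b ≤ d.Bd
      ∧ Wi d a false b true c + Wi d b false a true c + Wi d c true a true b ≤ d.Bd := by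
  have haN : a ≤ d.N := by omega
  have hbN : b ≤ d.N := by omega
  have Ba := Bnd.of d hb haN
  have Bb := Bnd.of d hb hbN
  have Bc := Bnd.of d hb hc
  unfold mainCheck at h
  have h1 := (allN_iff _ _).1 h (a - lo) (by
    show a - lo < hi - lo
    omega)
  have ea : Nat.add lo (a - lo) = a := by
    show lo + (a - lo) = a
    omega
  rw [ea] at h1
  have h2 := (allN_iff _ _).1 h1 b (Nat.lt_succ_of_le hba)
  unfold inner at h2
  have h3 := (allN_iff _ _).1 h2 c (Nat.lt_succ_of_le hc)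
  have h4 : Nat.ble (Nat.add (dg (R0 d c a) b) (dg (Nat.add (R0 d a b) (R0 d b a)) c))
        (Nat.add d.Bd 412316860416) = true
      ∧ Nat.ble (Nat.add (dg (R1 d c a) b)
        (dg (Nat.add (R0 d a b) (R0 d b a)) (Nat.add (Nat.succ d.N) c)))
        (Nat.add d.Bd 412316860416) = true := by
    revert h3
    generalize Nat.ble (Nat.add (dg (R0 d c a) b) (dg (Nat.add (R0 d a b) (R0 d b a)) c))
        (Nat.add d.Bd 412316860416) = p
    generalize Nat.ble (Nat.add (dg (R1 d c a) b)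
        (dg (Nat.add (R0 d a b) (R0 d b a)) (Nat.add (Nat.succ d.N) c)))
        (Nat.add d.Bd 412316860416) = q
    intro h3
    revert h3
    cases p
    · intro h3
      exact absurd h3 (by simp)
    · intro h3
      exact ⟨rfl, h3⟩
  have h5 : dg (R0 d c a) b + dg (Nat.add (R0 d a b) (R0 d b a)) c ≤ d.Bd + 412316860416 :=
    Nat.le_of_ble_eq_true h4.1
  have h6 : dg (R1 d c a) b + dg (Nat.add (R0 d a b) (R0 d b a)) (d.N + 1 + c)
      ≤ d.Bd + 412316860416 := Nat.le_of_ble_eq_true h4.2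
  -- bounds of the entries
  have wb : ∀ {z b : ℕ} (h : Bnd d z) (k : Bnd d b) (eb ec : Bool) (c : ℕ),
      0 ≤ Wi d z eb b ec c + 137438953472 ∧ Wi d z eb b ec c + 137438953472 < 2 ^ 39 := by
    intro z b h k eb ec c
    have := Wi_bounds h k eb ec c
    norm_num at *
    constructor <;> linarith [this.1, this.2]
  have r1 : ((dg (R0 d c a) b : ℕ) : ℤ) = Wi d c false a false b + 137438953472 := by
    rw [(R0_rp Bc haN).dg (fun k _ => ?_) (by omega : b < 2 * (d.N + 1)), if_pos (by omega)]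
    split_ifs
    · have := wb Bc Ba false false k
      exact ⟨this.1, this.2.trans (by norm_num)⟩
    · have := wb Bc Ba false true (k - (d.N + 1))
      exact ⟨this.1, this.2.trans (by norm_num)⟩
  have r2 : ((dg (R1 d c a) b : ℕ) : ℤ) = Wi d c true a true b + 137438953472 := by
    rw [(R1_rp Bc haN).dg (fun k _ => ?_) (by omega : b < d.N + 1)]
    have := wb Bc Ba true true k
    exact ⟨this.1, this.2.trans (by norm_num)⟩
  have hx := (R0_rp Ba hbN).add (R0_rp Bb haN)
  have hxb : ∀ k < 2 * (d.N + 1), 0 ≤ (if k < d.N + 1 then Wi d a false b false k + 137438953472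
        else Wi d a false b true (k - (d.N + 1)) + 137438953472)
      + (if k < d.N + 1 then Wi d b false a false k + 137438953472
        else Wi d b false a true (k - (d.N + 1)) + 137438953472)
      ∧ (if k < d.N + 1 then Wi d a false b false k + 137438953472
        else Wi d a false b true (k - (d.N + 1)) + 137438953472)
      + (if k < d.N + 1 then Wi d b false a false k + 137438953472
        else Wi d b false a true (k - (d.N + 1)) + 137438953472) < 2 ^ 40 := by
    intro k _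
    split_ifs
    · have u := wb Ba Bb false false k
      have v := wb Bb Ba false false k
      norm_num at *
      constructor <;> linarith [u.1, u.2, v.1, v.2]
    · have u := wb Ba Bb false true (k - (d.N + 1))
      have v := wb Bb Ba false true (k - (d.N + 1))
      norm_num at *
      constructor <;> linarith [u.1, u.2, v.1, v.2]
  have r3 := hx.dg hxb (by omega : c < 2 * (d.N + 1))
  have r4 := hx.dg hxb (by omega : d.N + 1 + c < 2 * (d.N + 1))
  rw [if_pos (by omega), if_pos (by omega)] at r3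
  rw [if_neg (by omega), if_neg (by omega), Nat.add_sub_cancel_left] at r4
  constructor
  · have : ((dg (R0 d c a) b : ℕ) : ℤ) + (dg (Nat.add (R0 d a b) (R0 d b a)) c : ℕ)
        ≤ (d.Bd : ℤ) + 412316860416 := by exact_mod_cast h5
    rw [r1, r3] at this
    linarith
  · have : ((dg (R1 d c a) b : ℕ) : ℤ) + (dg (Nat.add (R0 d a b) (R0 d b a)) (d.N + 1 + c) : ℕ)
        ≤ (d.Bd : ℤ) + 412316860416 := by exact_mod_cast h6
    rw [r2, r4] at this
    linarith

lemma tps_iff (m : ℕ) (A B : List ℕ) :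
    tps m A B = true ↔ ∀ b < m, ∀ c < m, dg (nth 0 A b) c = dg (nth 0 B c) b := by
  unfold tps
  rw [allN_iff]
  refine forall_congr' fun b => forall_congr' fun _ => ?_
  rw [allN_iff]
  refine forall_congr' fun c => forall_congr' fun _ => ?_
  exact ⟨Nat.eq_of_beq_eq_true, fun h => by rw [h]; exact Nat.beq_refl _⟩

theorem syms_sound (d : Dat) (h : syms d = true) {b c : ℕ} (hb : b ≤ d.N) (hc : c ≤ d.N)
    (eb ec : Bool) : NC d eb b ec c = NC d ec c eb b ∧
      ∀ f ∈ d.fn, NU f eb b ec c = NU f ec c eb b := by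
  unfold syms at h
  simp only [Bool.and_eq_true] at h
  obtain ⟨⟨⟨h1, h2⟩, h3⟩, h4⟩ := h
  have hb' : b < Nat.succ d.N := Nat.lt_succ_of_le hb
  have hc' : c < Nat.succ d.N := Nat.lt_succ_of_le hc
  rw [tps_iff] at h1 h2 h3
  constructor
  · unfold NC
    cases eb <;> cases ec
    · exact_mod_cast h1 b hb' c hc'
    · exact_mod_cast h3 b hb' c hc'
    · exact_mod_cast (h3 c hc' b hb').symm
    · exact_mod_cast h2 b hb' c hc'
  · intro f hf
    have := (allL_iff _ _).1 h4 f hf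
    rw [Bool.and_eq_true, tps_iff, tps_iff] at this
    unfold NU
    by_cases e : eb = ec
    · rw [if_pos e, if_pos e.symm]
      exact_mod_cast this.1 b hb' c hc'
    · rw [if_neg e, if_neg (Ne.symm e)]
      exact_mod_cast this.2 b hb' c hc'

end

end MP61673a.KC
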