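import Pool.Agent.Mu673.FarTab
import Pool.Agent.Mu673.KCsound

/-!
Kernel checks of the far share table.
-/

set_option autoImplicit false
set_option maxRecDepth 100000

namespace MP61673a.KC.FarTab

theorem bnds_ok : bnds dat = true := by decide +kernel

theorem syms_ok : syms dat = true := by decide +kernel

theorem main_ok : mainCheck dat 0 48 = true := by decide +kernel

end MP61673a.KC.FarTab
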