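import Mathlib

set_option autoImplicit false

/-!
Lift `A ↦ 4A + {1,2}` with an external set of labels, and the frame `P`, `Q` (thirds of the window).
-/

namespace MP61673a.Lift

open Finset

/-- every `x ∈ [0,n)` is `2b-a` with `a, b ∈ A`, or is external -/
def Cov (A : Finset ℤ) (X : ℤ → Prop) (n : ℤ) : Prop :=
  ∀ x, 0 ≤ x → x < n → (∃ a ∈ A, ∃ b ∈ A, x = 2 * b - a) ∨ X x

/-- one digit more -/
def lift (A : Finset ℤ) : Finset ℤ :=
  A.image (fun a => 4 * a + 1) ∪ A.image (fun a => 4 * a + 2)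

lemma mem_lift {A : Finset ℤ} {y : ℤ} :
    y ∈ lift A ↔ ∃ a ∈ A, y = 4 * a + 1 ∨ y = 4 * a + 2 := by
  unfold lift
  simp only [mem_union, mem_image]
  constructor
  · rintro (⟨a, ha, rfl⟩ | ⟨a, ha, rfl⟩)
    · exact ⟨a, ha, Or.inl rfl⟩
    · exact ⟨a, ha, Or.inr rfl⟩
  · rintro ⟨a, ha, rfl | rfl⟩
    · exact Or.inl ⟨a, ha, rfl⟩
    · exact Or.inr ⟨a, ha, rfl⟩

lemma lift_disjoint (A : Finset ℤ) :
    Disjoint (A.image (fun a => 4 * a + 1)) (A.image (fun a => 4 * a + 2)) := by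
  rw [disjoint_left]
  intro y h1 h2
  simp only [mem_image] at h1 h2
  obtain ⟨a, _, rfl⟩ := h1
  obtain ⟨b, _, h⟩ := h2
  omega

/-- sums over the lifted set -/
lemma sum_lift {M : Type*} [AddCommMonoid M] (A : Finset ℤ) (f : ℤ → M) :
    ∑ y ∈ lift A, f y = ∑ a ∈ A, (f (4 * a + 1) + f (4 * a + 2)) := by
  unfold lift
  rw [sum_union (lift_disjoint A), sum_image, sum_image, sum_add_distrib]
  · intro a _ b _ h
    simp only at h
    omega
  · intro a _ b _ h
    simp only at h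
    omega

lemma card_lift (A : Finset ℤ) : (lift A).card = 2 * A.card := by
  have h := sum_lift A (fun _ => 1)
  simp only [sum_const, smul_eq_mul, mul_one] at h
  rw [h]
  ring

lemma Cov.lift {A : Finset ℤ} {X : ℤ → Prop} {n : ℤ} (h : Cov A X n) :
    Cov (lift A) (fun y => X (y / 4)) (4 * n) := by
  intro y h0 h1
  have hx0 : 0 ≤ y / 4 := by omega
  have hx1 : y / 4 < n := by omega
  rcases h (y / 4) hx0 hx1 with ⟨a, ha, b, hb, hab⟩ | hX
  · left
    have h4 : y % 4 = 0 ∨ y % 4 = 1 ∨ y % 4 = 2 ∨ y % 4 = 3 := by omega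
    have hy : y = 4 * (y / 4) + y % 4 := by omega
    rcases h4 with r | r | r | r
    · exact ⟨4 * a + 2, mem_lift.2 ⟨a, ha, Or.inr rfl⟩, 4 * b + 1,
        mem_lift.2 ⟨b, hb, Or.inl rfl⟩, by omega⟩
    · exact ⟨4 * a + 1, mem_lift.2 ⟨a, ha, Or.inl rfl⟩, 4 * b + 1,
        mem_lift.2 ⟨b, hb, Or.inl rfl⟩, by omega⟩
    · exact ⟨4 * a + 2, mem_lift.2 ⟨a, ha, Or.inr rfl⟩, 4 * b + 2,
        mem_lift.2 ⟨b, hb, Or.inr rfl⟩, by omega⟩
    · exact ⟨4 * a + 1, mem_lift.2 ⟨a, ha, Or.inl rfl⟩, 4 * b + 2,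
        mem_lift.2 ⟨b, hb, Or.inr rfl⟩, by omega⟩
  · exact Or.inr hX

/-- `t` digits more -/
def liftN : ℕ → Finset ℤ → Finset ℤ
  | 0, A => A
  | t + 1, A => lift (liftN t A)

@[simp] lemma liftN_zero (A : Finset ℤ) : liftN 0 A = A := rfl

lemma liftN_succ (t : ℕ) (A : Finset ℤ) : liftN (t + 1) A = lift (liftN t A) := rfl

lemma card_liftN (t : ℕ) (A : Finset ℤ) : (liftN t A).card = 2 ^ t * A.card := by
  induction t with
  | zero => simp
  | succ t ih => rw [liftN_succ, card_lift, ih]; ring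

lemma Cov.liftN {A : Finset ℤ} {X : ℤ → Prop} {n : ℤ} (h : Cov A X n) (t : ℕ) :
    Cov (liftN t A) (fun y => X (y / 4 ^ t)) (4 ^ t * n) := by
  induction t with
  | zero => simpa using h
  | succ t ih =>
    have h1 := ih.lift
    intro y h0 hy
    have h2 := h1 y h0 (by rw [pow_succ] at hy; linarith)
    rcases h2 with h2 | h2
    · exact Or.inl h2
    · right
      simp only at h2 ⊢
      have e : y / 4 / 4 ^ t = y / 4 ^ (t + 1) := by
        rw [Int.ediv_ediv_of_nonneg (by norm_num), pow_succ, mul_comm ((4:ℤ) ^ t) 4]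
      rw [← e]
      exact h2

/-- the `t`-digit numbers with digits `1`, `2` in base `4` -/
def dig (t : ℕ) : Finset ℤ := liftN t {0}

lemma card_dig (t : ℕ) : (dig t).card = 2 ^ t := by
  unfold dig
  rw [card_liftN]
  simp

/-- sums over the lifted set as double sums -/
lemma sum_liftN {M : Type*} [AddCommMonoid M] (t : ℕ) (A : Finset ℤ) (f : ℤ → M) :
    ∑ y ∈ liftN t A, f y = ∑ a ∈ A, ∑ c ∈ dig t, f (4 ^ t * a + c) := by
  induction t generalizing f with
  | zero => simp [dig]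
  | succ t ih =>
    rw [liftN_succ, sum_lift, ih]
    refine sum_congr rfl fun a _ => ?_
    rw [show dig (t + 1) = lift (dig t) from rfl, sum_lift]
    refine sum_congr rfl fun c _ => ?_
    congr 2 <;> ring

lemma mem_liftN {t : ℕ} {A : Finset ℤ} {y : ℤ} :
    y ∈ liftN t A ↔ ∃ a ∈ A, ∃ c ∈ dig t, y = 4 ^ t * a + c := by
  induction t generalizing y with
  | zero => simp [dig]
  | succ t ih =>
    rw [liftN_succ, mem_lift]
    have hd : ∀ c, c ∈ dig (t + 1) ↔ ∃ d ∈ dig t, c = 4 * d + 1 ∨ c = 4 * d + 2 := fun c => mem_lift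
    constructor
    · rintro ⟨z, hz, hy⟩
      obtain ⟨a, ha, c, hc, rfl⟩ := ih.1 hz
      rcases hy with rfl | rfl
      · exact ⟨a, ha, 4 * c + 1, (hd _).2 ⟨c, hc, Or.inl rfl⟩, by ring⟩
      · exact ⟨a, ha, 4 * c + 2, (hd _).2 ⟨c, hc, Or.inr rfl⟩, by ring⟩
    · rintro ⟨a, ha, c, hc, rfl⟩
      obtain ⟨d, hdd, h⟩ := (hd c).1 hc
      refine ⟨4 ^ t * a + d, ih.2 ⟨a, ha, d, hdd, rfl⟩, ?_⟩
      rcases h with rfl | rfl
      · left; ring
      · right; ring

/-- the digits numbers lie in the middle third of `[0, 4^t)` -/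
lemma dig_mem {t : ℕ} {c : ℤ} (h : c ∈ dig t) : 4 ^ t - 1 ≤ 3 * c ∧ 3 * c ≤ 2 * (4 ^ t - 1) := by
  induction t generalizing c with
  | zero => simp only [dig, liftN_zero, mem_singleton] at h; subst h; simp
  | succ t ih =>
    obtain ⟨d, hd, h⟩ := mem_lift.1 (show c ∈ lift (dig t) from h)
    have := ih hd
    rw [pow_succ]
    rcases h with rfl | rfl <;> constructor <;> linarith [this.1, this.2]

lemma dig_bounds {t : ℕ} {c : ℤ} (h : c ∈ dig t) : 0 ≤ c ∧ c < 4 ^ t := by
  have h1 := dig_mem h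
  have h2 : (1:ℤ) ≤ 4 ^ t := one_le_pow₀ (by norm_num)
  constructor <;> linarith [h1.1, h1.2]

/-- `(c, c') ↦ 2c - c'` is a bijection from the pairs of digit numbers to `[0, 4^t)` -/
lemma sum_dig {M : Type*} [AddCommMonoid M] (t : ℕ) (f : ℤ → M) :
    ∑ c ∈ dig t, ∑ c' ∈ dig t, f (2 * c - c') = ∑ y ∈ Ico (0:ℤ) (4 ^ t), f y := by
  induction t generalizing f with
  | zero =>
    have : Ico (0:ℤ) (4 ^ 0) = {0} := by decide
    rw [this]
    simp [dig]
  | succ t ih =>
    have hd : dig (t + 1) = lift (dig t) := rfl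
    rw [hd, sum_lift]
    have h1 : ∀ c ∈ dig t, (∑ c' ∈ lift (dig t), f (2 * (4 * c + 1) - c'))
        + (∑ c' ∈ lift (dig t), f (2 * (4 * c + 2) - c'))
        = ∑ c' ∈ dig t, ((f (4 * (2 * c - c')) + f (4 * (2 * c - c') + 1))
            + (f (4 * (2 * c - c') + 2) + f (4 * (2 * c - c') + 3))) := by
      intro c _
      rw [sum_lift, sum_lift, ← sum_add_distrib]
      refine sum_congr rfl fun c' _ => ?_
      have e1 : 2 * (4 * c + 1) - (4 * c' + 1) = 4 * (2 * c - c') + 1 := by ring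
      have e2 : 2 * (4 * c + 1) - (4 * c' + 2) = 4 * (2 * c - c') := by ring
      have e3 : 2 * (4 * c + 2) - (4 * c' + 1) = 4 * (2 * c - c') + 3 := by ring
      have e4 : 2 * (4 * c + 2) - (4 * c' + 2) = 4 * (2 * c - c') + 2 := by ring
      rw [e1, e2, e3, e4, add_comm (f (4 * (2 * c - c') + 1)), add_comm (f (4 * (2 * c - c') + 3))]
    rw [sum_congr rfl h1,
      ih (fun x => (f (4 * x) + f (4 * x + 1)) + (f (4 * x + 2) + f (4 * x + 3)))]
    -- split `[0, 4^(t+1))` by the last digit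
    have h2 : ∑ y ∈ Ico (0:ℤ) (4 ^ (t + 1)), f y
        = ∑ x ∈ Ico (0:ℤ) (4 ^ t), ∑ r ∈ Ico (0:ℤ) 4, f (4 * x + r) := by
      rw [← sum_product']
      refine sum_nbij' (fun y => (y / 4, y % 4)) (fun p => 4 * p.1 + p.2) ?_ ?_ ?_ ?_ ?_
      · intro y hy
        rw [mem_Ico, pow_succ] at hy
        rw [mem_product, mem_Ico, mem_Ico]
        simp only
        omega
      · intro p hp
        rw [mem_product, mem_Ico, mem_Ico] at hp
        rw [mem_Ico, pow_succ]
        omega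
      · intro y _
        simp only
        omega
      · intro p hp
        rw [mem_product, mem_Ico, mem_Ico] at hp
        ext <;> simp only <;> omega
      · intro y _
        simp only
        congr 1
        omega
    rw [h2]
    refine sum_congr rfl fun x _ => ?_
    have h3 : Ico (0:ℤ) 4 = {0, 1, 2, 3} := by decide
    rw [h3, sum_insert (by decide), sum_insert (by decide), sum_insert (by decide), sum_singleton,
      add_zero]
    rw [add_assoc]

/-- number of representations `y = 2b - a` -/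
def reps (A : Finset ℤ) (y : ℤ) : ℕ := ∑ a ∈ A, ∑ b ∈ A, if 2 * b - a = y then 1 else 0

/-- the number of representations of `y` in the lifted set is that of its block -/
lemma reps_liftN (t : ℕ) (A : Finset ℤ) (y : ℤ) :
    reps (liftN t A) y = reps A (y / 4 ^ t) := by
  have hpos : (0:ℤ) < 4 ^ t := by positivity
  unfold reps
  rw [sum_liftN]
  refine sum_congr rfl fun a _ => ?_
  have h1 : ∀ c ∈ dig t, ∑ b' ∈ liftN t A, (if 2 * b' - (4 ^ t * a + c) = y then 1 else 0)
      = ∑ b ∈ A, ∑ c' ∈ dig t, (if 2 * (4 ^ t * b + c') - (4 ^ t * a + c) = y then 1 else 0) :=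
    fun c _ => sum_liftN t A _
  rw [sum_congr rfl h1, sum_comm]
  refine sum_congr rfl fun b _ => ?_
  rw [sum_comm]
  have h2 := sum_dig t (fun z => if 4 ^ t * (2 * b - a) + z = y then 1 else 0)
  have h3 : ∑ c' ∈ dig t, ∑ c ∈ dig t,
      (if 2 * (4 ^ t * b + c') - (4 ^ t * a + c) = y then (1:ℕ) else 0)
      = ∑ c' ∈ dig t, ∑ c ∈ dig t, (if 4 ^ t * (2 * b - a) + (2 * c' - c) = y then 1 else 0) := by
    refine sum_congr rfl fun c' _ => sum_congr rfl fun c _ => ?_
    congr 1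
    apply propext
    constructor <;> intro h <;> linarith
  rw [h3, h2]
  split_ifs with h
  · rw [sum_eq_single (y % 4 ^ t)]
    · rw [if_pos]
      rw [h]
      exact Int.mul_ediv_add_emod y (4 ^ t)
    · intro z hz hne
      rw [if_neg]
      intro h4
      apply hne
      rw [← h4]
      rw [mem_Ico] at hz
      rw [Int.add_emod, Int.mul_emod_right, zero_add, Int.emod_emod_of_dvd _ (dvd_refl _)]
      exact (Int.emod_eq_of_lt hz.1 hz.2).symm
    · intro h4
      exfalso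
      apply h4
      rw [mem_Ico]
      exact ⟨Int.emod_nonneg _ hpos.ne', Int.emod_lt_of_pos _ hpos⟩
  · refine sum_eq_zero fun z hz => ?_
    rw [if_neg]
    intro h4
    apply h
    rw [mem_Ico] at hz
    rw [← h4, add_comm, Int.add_mul_ediv_left _ _ hpos.ne', Int.ediv_eq_zero_of_lt hz.1 hz.2,
      zero_add]

/-- a bound with error of lower order along all lifts is exact -/
lemma le_of_lifts {n k C : ℤ} (h : ∀ t : ℕ, 4 ^ t * n ≤ 4 ^ t * k + C * 2 ^ t) : n ≤ k := by
  by_contra hlt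
  push Not at hlt
  obtain ⟨t, ht⟩ : ∃ t : ℕ, C < 2 ^ t := by
    obtain ⟨t, ht⟩ := pow_unbounded_of_one_lt C (show (1:ℤ) < 2 by norm_num)
    exact ⟨t, ht⟩
  have h1 := h t
  have h2 : (4:ℤ) ^ t = 2 ^ t * 2 ^ t := by rw [← mul_pow]; norm_num
  have h3 : (0:ℤ) < 2 ^ t := by positivity
  have h4 : (2:ℤ) ^ t * 2 ^ t * (k + 1) ≤ 2 ^ t * 2 ^ t * n :=
    mul_le_mul_of_nonneg_left (by linarith) (by positivity)
  rw [h2] at h1
  nlinarith

/-! ### The frame -/

/-- coordinates of the left half (distance to the point `D`) -/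
def PP (A : Finset ℤ) (D e : ℤ) : Finset ℤ := (A.filter (fun a => a ≤ D + e)).image (fun a => a - D)

/-- coordinates of the right half (distance to the point `2D`, from the right) -/
def QQ (A : Finset ℤ) (D e : ℤ) : Finset ℤ :=
  (A.filter (fun a => ¬ a ≤ D + e)).image (fun a => 2 * D - a)

lemma mem_PP {A : Finset ℤ} {D e p : ℤ} : p ∈ PP A D e ↔ D + p ∈ A ∧ p ≤ e := by
  unfold PP
  simp only [mem_image, mem_filter]
  constructor
  · rintro ⟨a, ⟨ha, h⟩, rfl⟩
    exact ⟨by rwa [show D + (a - D) = a by ring], by linarith⟩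
  · rintro ⟨h1, h2⟩
    exact ⟨D + p, ⟨h1, by linarith⟩, by ring⟩

lemma mem_QQ {A : Finset ℤ} {D e q : ℤ} : q ∈ QQ A D e ↔ 2 * D - q ∈ A ∧ D + e < 2 * D - q := by
  unfold QQ
  simp only [mem_image, mem_filter]
  constructor
  · rintro ⟨a, ⟨ha, h⟩, rfl⟩
    exact ⟨by rwa [show 2 * D - (2 * D - a) = a by ring], by linarith⟩
  · rintro ⟨h1, h2⟩
    exact ⟨2 * D - q, ⟨h1, by linarith⟩, by ring⟩

lemma sum_PP {M : Type*} [AddCommMonoid M] (A : Finset ℤ) (D e : ℤ) (f : ℤ → M) :
    ∑ p ∈ PP A D e, f p = ∑ a ∈ A.filter (fun a => a ≤ D + e), f (a - D) := by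
  unfold PP
  rw [sum_image]
  intro a _ b _ h
  simp only at h
  linarith

lemma sum_QQ {M : Type*} [AddCommMonoid M] (A : Finset ℤ) (D e : ℤ) (f : ℤ → M) :
    ∑ q ∈ QQ A D e, f q = ∑ a ∈ A.filter (fun a => ¬ a ≤ D + e), f (2 * D - a) := by
  unfold QQ
  rw [sum_image]
  intro a _ b _ h
  simp only at h
  linarith

lemma card_PP_add_card_QQ (A : Finset ℤ) (D e : ℤ) :
    (PP A D e).card + (QQ A D e).card = A.card := by
  have h1 := sum_PP A D e (fun _ => 1)
  have h2 := sum_QQ A D e (fun _ => 1)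
  simp only [sum_const, smul_eq_mul, mul_one] at h1 h2
  rw [h1, h2]
  exact card_filter_add_card_filter_not _

/-- the labels of the right outer third: `s` = distance to the end `3D` -/
lemma frame_right {A : Finset ℤ} {X : ℤ → Prop} {n D e : ℤ} (h : Cov A X n) (hD : 3 * D < n)
    (hDe : D = 2 * e + 1) (he : 0 ≤ e) {s : ℤ} (h0 : 0 ≤ s) (h1 : s < D) :
    (∃ p ∈ PP A D e, ∃ q ∈ QQ A D e, p + 2 * q = s) ∨
    (∃ q' ∈ QQ A D e, ∃ q ∈ QQ A D e, q' - 2 * q = D - s) ∨
    (∃ p' ∈ PP A D e, ∃ p ∈ PP A D e, p' - 2 * p = s - 2 * D) ∨ X (3 * D - s) := by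
  rcases h (3 * D - s) (by linarith) (by linarith) with ⟨a, ha, b, hb, hab⟩ | hX
  · by_cases cb : b ≤ D + e
    · by_cases ca : a ≤ D + e
      · right; right; left
        exact ⟨a - D, mem_PP.2 ⟨by rwa [show D + (a - D) = a by ring], by linarith⟩,
          b - D, mem_PP.2 ⟨by rwa [show D + (b - D) = b by ring], by linarith⟩, by linarith⟩
      · exfalso
        push Not at ca
        linarith
    · by_cases ca : a ≤ D + e
      · left
        exact ⟨a - D, mem_PP.2 ⟨by rwa [show D + (a - D) = a by ring], by linarith⟩,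
          2 * D - b, mem_QQ.2 ⟨by rwa [show 2 * D - (2 * D - b) = b by ring], by linarith⟩,
          by linarith⟩
      · right; left
        exact ⟨2 * D - a, mem_QQ.2 ⟨by rwa [show 2 * D - (2 * D - a) = a by ring], by linarith⟩,
          2 * D - b, mem_QQ.2 ⟨by rwa [show 2 * D - (2 * D - b) = b by ring], by linarith⟩,
          by linarith⟩
  · exact Or.inr (Or.inr (Or.inr hX))

/-- the labels of the left outer third: `s` = distance to the end `0` -/
lemma frame_left {A : Finset ℤ} {X : ℤ → Prop} {n D e : ℤ} (h : Cov A X n) (hD : 3 * D < n)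
    (hDe : D = 2 * e + 1) (he : 0 ≤ e) {s : ℤ} (h0 : 0 ≤ s) (h1 : s < D) :
    (∃ q ∈ QQ A D e, ∃ p ∈ PP A D e, q + 2 * p = s) ∨
    (∃ p' ∈ PP A D e, ∃ p ∈ PP A D e, p' - 2 * p = D - s) ∨
    (∃ q' ∈ QQ A D e, ∃ q ∈ QQ A D e, q' - 2 * q = s - 2 * D) ∨ X s := by
  rcases h s h0 (by linarith) with ⟨a, ha, b, hb, hab⟩ | hX
  · by_cases cb : b ≤ D + e
    · by_cases ca : a ≤ D + e
      · right; left
        exact ⟨a - D, mem_PP.2 ⟨by rwa [show D + (a - D) = a by ring], by linarith⟩,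
          b - D, mem_PP.2 ⟨by rwa [show D + (b - D) = b by ring], by linarith⟩, by linarith⟩
      · left
        exact ⟨2 * D - a, mem_QQ.2 ⟨by rwa [show 2 * D - (2 * D - a) = a by ring], by linarith⟩,
          b - D, mem_PP.2 ⟨by rwa [show D + (b - D) = b by ring], by linarith⟩, by linarith⟩
    · by_cases ca : a ≤ D + e
      · exfalso
        push Not at cb
        linarith
      · right; right; left
        exact ⟨2 * D - a, mem_QQ.2 ⟨by rwa [show 2 * D - (2 * D - a) = a by ring], by linarith⟩,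
          2 * D - b, mem_QQ.2 ⟨by rwa [show 2 * D - (2 * D - b) = b by ring], by linarith⟩,
          by linarith⟩
  · exact Or.inr (Or.inr (Or.inr hX))

/-! ### From maximal 3-free sets to coverings -/

/-- `A` contains no three elements `a < b < c` with `a + c = 2 b`. -/
def ThreeFree (A : Finset ℕ) : Prop :=
  ∀ a ∈ A, ∀ b ∈ A, ∀ c ∈ A, a < b → b < c → a + c ≠ 2 * b

/-- `A` is a maximal 3-free subset of `{1, …, n}`. -/
def IsMaximalThreeFree (n : ℕ) (A : Finset ℕ) : Prop :=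
  A ⊆ Finset.Icc 1 n ∧ ThreeFree A ∧
    ∀ x ∈ Finset.Icc 1 n, x ∉ A → ¬ ThreeFree (insert x A)

/-- integral midpoints of two different elements -/
def Mid (A : Finset ℤ) (x : ℤ) : Prop := ∃ a ∈ A, ∃ b ∈ A, a < b ∧ a + b = 2 * x

/-- the translate of `A` to `[0,n)` -/
def shift (A : Finset ℕ) : Finset ℤ := A.image (fun a : ℕ => (a : ℤ) - 1)

lemma card_shift (A : Finset ℕ) : (shift A).card = A.card := by
  unfold shift
  rw [card_image_of_injective]
  intro a b h
  simp only at h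
  omega

lemma mem_shift {A : Finset ℕ} {a : ℕ} (h : a ∈ A) : (a : ℤ) - 1 ∈ shift A := by
  unfold shift
  exact mem_image.2 ⟨a, h, rfl⟩

lemma cov_of_maximal {n : ℕ} {A : Finset ℕ} (h : IsMaximalThreeFree n A) :
    Cov (shift A) (Mid (shift A)) n := by
  intro x h0 h1
  obtain ⟨y, hy⟩ : ∃ y : ℕ, (y : ℤ) = x + 1 := ⟨(x + 1).toNat, by omega⟩
  have hyI : y ∈ Finset.Icc 1 n := by rw [Finset.mem_Icc]; omega
  obtain ⟨_, hfree, hmax⟩ := h
  by_cases hyA : y ∈ A
  · left
    exact ⟨(y : ℤ) - 1, mem_shift hyA, (y : ℤ) - 1, mem_shift hyA, by omega⟩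
  · have := hmax y hyI hyA
    unfold ThreeFree at this
    push Not at this
    obtain ⟨a, ha, b, hb, c, hc, hab, hbc, habc⟩ := this
    rw [Finset.mem_insert] at ha hb hc
    rcases ha with rfl | ha
    · rcases hb with rfl | hb
      · omega
      · rcases hc with rfl | hc
        · omega
        · left
          exact ⟨(c : ℤ) - 1, mem_shift hc, (b : ℤ) - 1, mem_shift hb, by omega⟩
    · rcases hb with rfl | hb
      · rcases hc with rfl | hc
        · omega
        · right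
          exact ⟨(a : ℤ) - 1, mem_shift ha, (c : ℤ) - 1, mem_shift hc, by omega, by omega⟩
      · rcases hc with rfl | hc
        · left
          exact ⟨(a : ℤ) - 1, mem_shift ha, (b : ℤ) - 1, mem_shift hb, by omega⟩
        · exact absurd habc (hfree a ha b hb c hc hab hbc)

/-- REDUCTION: it suffices to bound all lifted coverings with an error of lower order -/
theorem reduction {n : ℕ} {A : Finset ℕ} (h : IsMaximalThreeFree n A) {C : ℤ}
    (hC : ∀ t : ℕ, Cov (liftN t (shift A)) (fun y => Mid (shift A) (y / 4 ^ t)) (4 ^ t * n) →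
      4 ^ t * (n : ℤ) ≤ (((liftN t (shift A)).card : ℤ)) ^ 2 + C * 2 ^ t) :
    n ≤ A.card ^ 2 := by
  have h1 : (n : ℤ) ≤ (A.card : ℤ) ^ 2 := by
    apply le_of_lifts (C := C)
    intro t
    have h2 := hC t ((cov_of_maximal h).liftN t)
    rw [card_liftN, card_shift] at h2
    push_cast at h2
    have e : ((2:ℤ) ^ t * (A.card : ℤ)) ^ 2 = 4 ^ t * (A.card : ℤ) ^ 2 := by
      rw [mul_pow, ← pow_mul, mul_comm t 2, pow_mul]
      norm_num
    rw [e] at h2
    exact h2
  exact_mod_cast h1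

end MP61673a.Lift
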