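import Pool.Agent.Mu673.GidW
import Pool.Agent.Mu673.Lift

set_option autoImplicit false

/-!
Lifted coverings in the language of `GidW` (`lab`, `PP`, `QQ`, `extraR`, `extraL`), the external
labels (blocks of the midpoints) and the reduction with a free choice of `D`.
-/

namespace MP61673a.LiftW

open Finset MP61673a.Lift MP61673a.W

noncomputable section

/-- indicator -/
def ind (X : ℤ → Prop) (y : ℤ) : ℝ := by
  classical
  exact if X y then 1 else 0

lemma ind_of {X : ℤ → Prop} {y : ℤ} (h : X y) : ind X y = 1 := by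
  unfold ind
  rw [if_pos h]

lemma ind_not {X : ℤ → Prop} {y : ℤ} (h : ¬ X y) : ind X y = 0 := by
  unfold ind
  rw [if_neg h]

lemma ind_nonneg (X : ℤ → Prop) (y : ℤ) : 0 ≤ ind X y := by
  unfold ind
  split_ifs <;> norm_num

lemma ind_le_one (X : ℤ → Prop) (y : ℤ) : ind X y ≤ 1 := by
  unfold ind
  split_ifs <;> norm_num

/-- (i) coverage in terms of `lab` -/
lemma one_le {A : Finset ℤ} {X : ℤ → Prop} {n : ℤ} (h : Cov A X n) {y : ℤ} (h0 : 0 ≤ y)
    (h1 : y < n) : 1 ≤ lab A y + ind X y := by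
  rcases h y h0 h1 with ⟨a, ha, b, hb, hab⟩ | hX
  · have := one_le_lab (A := A) (y := y) ⟨a, ha, b, hb, hab.symm⟩
    have := ind_nonneg X y
    linarith
  · have := lab_nonneg A y
    rw [ind_of hX]
    linarith

/-- (i) right outer third -/
lemma covered_right {A : Finset ℤ} {X : ℤ → Prop} {n D : ℤ} (h : Cov A X n) (hD : 3 * D < n)
    (φ φ1 ψ1 : ℤ → ℝ) {s : ℤ} (h0 : 0 ≤ s) (h1 : s < D) :
    1 ≤ rr (PP A φ φ1 D) (QQ A φ ψ1 D) s + qq (QQ A φ ψ1 D) (D - s)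
      + (extraR A φ ψ1 D s + ind X (3 * D - s)) := by
  have h2 := one_le h (y := 3 * D - s) (by linarith) (by linarith)
  rw [← covR A φ φ1 ψ1 D s] at h2
  linarith

/-- (i) left outer third -/
lemma covered_left {A : Finset ℤ} {X : ℤ → Prop} {n D : ℤ} (h : Cov A X n) (hD : 3 * D < n)
    (φ φ1 ψ1 : ℤ → ℝ) {s : ℤ} (h0 : 0 ≤ s) (h1 : s < D) :
    1 ≤ rr (QQ A φ ψ1 D) (PP A φ φ1 D) s + qq (PP A φ φ1 D) (D - s)
      + (extraL A φ φ1 s + ind X s) := by
  have h2 := one_le h (y := s) h0 (by linarith)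
  rw [← covL A φ φ1 ψ1 D s] at h2
  linarith

/-! ### External labels -/

/-- unordered pairs of different elements with an integral midpoint -/
def mids (A : Finset ℤ) : Finset (ℤ × ℤ) :=
  (A ×ˢ A).filter (fun p => p.1 < p.2 ∧ (p.1 + p.2) % 2 = 0)

lemma mem_mids {A : Finset ℤ} {p : ℤ × ℤ} :
    p ∈ mids A ↔ p.1 ∈ A ∧ p.2 ∈ A ∧ p.1 < p.2 ∧ (p.1 + p.2) % 2 = 0 := by
  unfold mids
  rw [mem_filter, mem_product]
  tauto

lemma mid_iff {A : Finset ℤ} {x : ℤ} :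
    Mid A x ↔ ∃ p ∈ mids A, x = (p.1 + p.2) / 2 := by
  unfold Mid
  constructor
  · rintro ⟨a, ha, b, hb, hab, h⟩
    exact ⟨(a, b), mem_mids.2 ⟨ha, hb, hab, by simp only; omega⟩, by simp only; omega⟩
  · rintro ⟨p, hp, h⟩
    obtain ⟨h1, h2, h3, h4⟩ := mem_mids.1 hp
    exact ⟨p.1, h1, p.2, h2, h3, by omega⟩

/-- (ii) a price summed over the external labels is at most the sum over the pairs of the sum over
the block of the midpoint -/
lemma sum_ext_le (A : Finset ℤ) (t : ℕ) (S : Finset ℤ) (g : ℤ → ℝ) (hg : ∀ y ∈ S, 0 ≤ g y) :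
    ∑ y ∈ S, ind (fun y => Mid A (y / 4 ^ t)) y * g y
      ≤ ∑ p ∈ mids A, ∑ r ∈ Ico (0:ℤ) (4 ^ t),
        (if 4 ^ t * ((p.1 + p.2) / 2) + r ∈ S then g (4 ^ t * ((p.1 + p.2) / 2) + r) else 0) := by
  have hpos : (0:ℤ) < 4 ^ t := by positivity
  have h1 : ∀ y ∈ S, ind (fun y => Mid A (y / 4 ^ t)) y * g y
      ≤ ∑ p ∈ mids A, (if y / 4 ^ t = (p.1 + p.2) / 2 then g y else 0) := by
    intro y hy
    by_cases c : Mid A (y / 4 ^ t)
    · rw [ind_of (X := fun y => Mid A (y / 4 ^ t)) c, one_mul]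
      obtain ⟨p, hp, hp2⟩ := mid_iff.1 c
      calc g y = if y / 4 ^ t = (p.1 + p.2) / 2 then g y else 0 := by rw [if_pos hp2]
        _ ≤ _ := single_le_sum (f := fun p : ℤ × ℤ =>
            if y / 4 ^ t = (p.1 + p.2) / 2 then g y else 0)
            (fun _ _ => by split_ifs; exacts [hg y hy, le_rfl]) hp
    · rw [ind_not (X := fun y => Mid A (y / 4 ^ t)) c, zero_mul]
      exact sum_nonneg fun _ _ => by split_ifs; exacts [hg y hy, le_rfl]
  refine (sum_le_sum h1).trans ?_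
  rw [sum_comm]
  refine sum_le_sum fun p _ => ?_
  rw [← sum_filter, ← sum_filter]
  refine le_of_eq ?_
  refine sum_nbij' (fun y => y % 4 ^ t) (fun r => 4 ^ t * ((p.1 + p.2) / 2) + r) ?_ ?_ ?_ ?_ ?_
  · intro y hy
    rw [mem_filter] at hy
    rw [mem_filter, mem_Ico]
    refine ⟨⟨Int.emod_nonneg _ hpos.ne', Int.emod_lt_of_pos _ hpos⟩, ?_⟩
    rw [← hy.2, Int.mul_ediv_add_emod]
    exact hy.1
  · intro r hr
    rw [mem_filter, mem_Ico] at hr
    rw [mem_filter]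
    refine ⟨hr.2, ?_⟩
    rw [add_comm, Int.add_mul_ediv_left _ _ hpos.ne', Int.ediv_eq_zero_of_lt hr.1.1 hr.1.2,
      zero_add]
  · intro y hy
    rw [mem_filter] at hy
    rw [← hy.2, Int.mul_ediv_add_emod]
  · intro r hr
    rw [mem_filter, mem_Ico] at hr
    rw [Int.add_emod, Int.mul_emod_right, zero_add, Int.emod_emod_of_dvd _ (dvd_refl _)]
    exact Int.emod_eq_of_lt hr.1.1 hr.1.2
  · intro y hy
    rw [mem_filter] at hy
    rw [← hy.2, Int.mul_ediv_add_emod]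

/-- (ii) comparison of a block sum with the sum over the pairs of the two clusters, for a function
of the doubled label with a modulus of continuity on the block: `B` bounds `g y - G (a' + b')` -/
lemma block_le (t : ℕ) (x : ℤ) (g G : ℤ → ℝ) (B : ℝ)
    (h : ∀ r c c', r ∈ Ico (0:ℤ) (4 ^ t) → c ∈ dig t → c' ∈ dig t →
      g (4 ^ t * x + r) ≤ G (2 * (4 ^ t * x) + c + c') + B) :
    ∑ r ∈ Ico (0:ℤ) (4 ^ t), g (4 ^ t * x + r)
      ≤ ∑ c ∈ dig t, ∑ c' ∈ dig t, G (2 * (4 ^ t * x) + c + c') + 4 ^ t * B := by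
  have h1 := sum_dig t (fun r => g (4 ^ t * x + r))
  rw [← h1]
  have h2 : (4:ℝ) ^ t * B = ∑ c ∈ dig t, ∑ c' ∈ dig t, B := by
    rw [sum_const, sum_const, card_dig, nsmul_eq_mul, nsmul_eq_mul, ← mul_assoc]
    congr 1
    push_cast
    rw [← mul_pow]
    norm_num
  rw [h2, ← sum_add_distrib]
  refine sum_le_sum fun c hc => ?_
  rw [← sum_add_distrib]
  refine sum_le_sum fun c' hc' => ?_
  apply h _ _ _ _ hc hc'
  have h3 := dig_mem hc
  have h4 := dig_mem hc'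
  rw [mem_Ico]
  have h5 : (1:ℤ) ≤ 4 ^ t := one_le_pow₀ (by norm_num)
  constructor <;> linarith [h3.1, h3.2, h4.1, h4.2]

/-! ### (iii) the reduction with a free choice of `D` -/

/-- REDUCTION: fix `A` maximal 3-free in `{1..n}`. If for some constant `C`, for all `t ≥ 1` and all
`D ≡ 1 mod 4` with `3D+1 ≤ 4^t n ≤ 3D+12`, the covering of `[0,3D+1)` by the `t`-fold lift `A_t`
of `A` and the blocks of the midpoints gives `3D+1 ≤ |A_t|^2 + C 2^t`, then `n ≤ |A|^2`. -/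
theorem reduction3 {n : ℕ} {A : Finset ℕ} (h : IsMaximalThreeFree n A) {C : ℤ}
    (hC : ∀ t : ℕ, 1 ≤ t → ∀ D : ℤ, 1 ≤ D → D % 4 = 1 → 3 * D + 1 ≤ 4 ^ t * (n : ℤ) →
      4 ^ t * (n : ℤ) ≤ 3 * D + 12 →
      Cov (liftN t (shift A)) (fun y => Mid (shift A) (y / 4 ^ t)) (3 * D + 1) →
      3 * D + 1 ≤ (((liftN t (shift A)).card : ℤ)) ^ 2 + C * 2 ^ t) :
    n ≤ A.card ^ 2 := by
  rcases Nat.eq_zero_or_pos n with hn | hn
  · omega
  have h1 : (n : ℤ) ≤ (A.card : ℤ) ^ 2 := by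
    apply le_of_lifts (C := max (C + 11) n)
    intro t
    rcases Nat.eq_zero_or_pos t with ht | ht
    · subst ht
      have : (n : ℤ) ≤ max (C + 11) n := le_max_right _ _
      have : (0 : ℤ) ≤ (A.card : ℤ) ^ 2 := by positivity
      simp only [pow_zero, one_mul, mul_one]
      linarith
    · obtain ⟨D, hD1, hD2, hD3⟩ : ∃ D : ℤ, D % 4 = 1 ∧ 3 * D + 1 ≤ 4 ^ t * (n : ℤ) ∧
          4 ^ t * (n : ℤ) ≤ 3 * D + 12 := by
        refine ⟨(4 ^ t * (n : ℤ) - 1) / 3 - ((4 ^ t * (n : ℤ) - 1) / 3 - 1) % 4, ?_, ?_, ?_⟩ <;>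
          omega
      have h4 : (4:ℤ) ≤ 4 ^ t * (n : ℤ) := by
        have e1 : (4:ℤ) ≤ 4 ^ t := by
          calc (4:ℤ) = 4 ^ 1 := by norm_num
            _ ≤ 4 ^ t := pow_le_pow_right₀ (by norm_num) ht
        have e2 : (1:ℤ) ≤ n := by exact_mod_cast hn
        nlinarith
      have hD : 1 ≤ D := by omega
      have hcov := (cov_of_maximal h).liftN t
      have h2 := hC t ht D hD hD1 hD2 hD3
        (fun x hx0 hx1 => hcov x hx0 (by linarith))
      rw [card_liftN, card_shift] at h2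
      push_cast at h2
      have e : ((2:ℤ) ^ t * (A.card : ℤ)) ^ 2 = 4 ^ t * (A.card : ℤ) ^ 2 := by
        rw [mul_pow, ← pow_mul, mul_comm t 2, pow_mul]
        norm_num
      rw [e] at h2
      have e3 : C + 11 ≤ max (C + 11) n := le_max_left _ _
      have e4 : (1:ℤ) ≤ 2 ^ t := one_le_pow₀ (by norm_num)
      have e5 : (C + 11) * 2 ^ t ≤ max (C + 11) (n:ℤ) * 2 ^ t :=
        mul_le_mul_of_nonneg_right e3 (by positivity)
      nlinarith
  exact_mod_cast h1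

end

end MP61673a.LiftW
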