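import Pool.Agent.Mu673.Pack

/-!
Near strays inside the doubled roles, elementwise: a useless pair (label `G < 0`) earns the full
price `T + 1 + nn P (1+ρ)` and costs `dd P Q (2K+1+ρ+2G)`; both are compared by coverage.
-/

namespace MP61673a.W

open Finset

noncomputable section

/-- lower bound for one useless pair with label `G` -/
def LB (P Q : WS) (D K T ρ : ℤ) (ξR ξL : ℤ → ℝ) (G : ℤ) : ℝ :=
  (T + D + 2 * K + 2 : ℝ) - 2 * (mass P * mass Q) + 2 * G + cc P Q 0 + cc Q P 0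
    + nn Q (D + 1) + nn P (D + 1) + dd Q P (D - ρ)
    - ext ξL (D - ρ) - ext ξR (2 * K + 1 + ρ + 2 * G) - nn Q (D - 2 * K - ρ - 2 * G)

lemma near_entry {P Q : WS} {D K T ρ : ℤ} {ξR ξL : ℤ → ℝ}
    (hR : Covers P Q D ξR) (hL : Covers Q P D ξL) {G : ℤ}
    (hG : 0 ≤ 2 * K + 1 + ρ + 2 * G) (hG2 : 2 * K + 1 + ρ + 2 * G ≤ D)
    (hρ : 0 ≤ ρ) (hρD : ρ ≤ D) :
    LB P Q D K T ρ ξR ξL G
      ≤ T + 1 + nn P (1 + ρ) - dd P Q (2 * K + 1 + ρ + 2 * G) := by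
  have h1 := dd_le hR hG hG2
  have h2 := nn_ge hL hρ hρD
  rw [show D + 1 - (2 * K + 1 + ρ + 2 * G) = D - 2 * K - ρ - 2 * G by ring] at h1
  rw [show ρ + 1 = 1 + ρ by ring] at h2
  unfold LB
  push_cast at h1 h2 ⊢
  have h3 : mass Q * mass P = mass P * mass Q := mul_comm _ _
  rw [h3] at h2
  linarith

/-- the useless pairs of one side: gain minus cost -/
def useless (P Q : WS) (K T ρ : ℤ) : ℝ :=
  (T + 1 + nn P (1 + ρ)) * cc P Q 0
  - ∑ a ∈ P.S, ∑ b ∈ Q.S, P.f1 a * Q.f1 b * (if P.u a + 2 * Q.u b < 0 then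
      dd P Q (2 * K + 1 + ρ + 2 * (P.u a + 2 * Q.u b)) else 0)

lemma useless_eq (P Q : WS) (K T ρ : ℤ) :
    useless P Q K T ρ = ∑ a ∈ P.S, ∑ b ∈ Q.S, (if P.u a + 2 * Q.u b < 0 then
      ((T + 1 + nn P (1 + ρ)) * (P.f a * Q.f b)
        - P.f1 a * Q.f1 b * dd P Q (2 * K + 1 + ρ + 2 * (P.u a + 2 * Q.u b))) else 0) := by
  unfold useless cc
  rw [mul_sum, ← sum_sub_distrib]
  refine sum_congr rfl fun a _ => ?_
  rw [mul_sum, ← sum_sub_distrib]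
  refine sum_congr rfl fun b _ => ?_
  split_ifs <;> ring

/-- ELEMENTWISE: pairs in the doubled roles get `LB`, the others the full price.
Only needed: every useless pair in the doubled roles has `-G ≤ K` and the weights are good. -/
theorem useless_ge {P Q : WS} (hP : Good P) (hQ : Good Q) {D K T ρ : ℤ} {ξR ξL : ℤ → ℝ}
    (hR : Covers P Q D ξR) (hL : Covers Q P D ξL)
    (hρ : 0 ≤ ρ) (hρD : ρ ≤ D)
    (hG : ∀ a ∈ P.S, ∀ b ∈ Q.S, P.f1 a * Q.f1 b ≠ 0 → P.u a + 2 * Q.u b < 0 →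
      0 ≤ 2 * K + 1 + ρ + 2 * (P.u a + 2 * Q.u b) ∧
      2 * K + 1 + ρ + 2 * (P.u a + 2 * Q.u b) ≤ D) :
    ∑ a ∈ P.S, ∑ b ∈ Q.S, (if P.u a + 2 * Q.u b < 0 then
        (P.f a * Q.f b - P.f1 a * Q.f1 b) * (T + 1 + nn P (1 + ρ))
        + P.f1 a * Q.f1 b * LB P Q D K T ρ ξR ξL (P.u a + 2 * Q.u b) else 0)
      ≤ useless P Q K T ρ := by
  rw [useless_eq]
  refine sum_le_sum fun a ha => sum_le_sum fun b hb => ?_
  split_ifs with c
  · by_cases h0 : P.f1 a * Q.f1 b = 0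
    · rw [h0]
      ring_nf
      exact le_rfl
    · obtain ⟨h1, h2⟩ := hG a ha b hb h0 c
      have h3 := near_entry (T := T) hR hL (G := P.u a + 2 * Q.u b) h1 h2 hρ hρD
      have h4 : 0 ≤ P.f1 a * Q.f1 b := mul_nonneg (hP.f1_nonneg a ha) (hQ.f1_nonneg b hb)
      have h5 := mul_le_mul_of_nonneg_left h3 h4
      linarith
  · exact le_rfl

/-- pairs with large `u - 2 u1`: only doubled elements below a bound contribute.
If all positions are `≤ c` and `c < j`, then `nn Q j ≤ Σ_{u1 < 0} f1 * Q(≥ j + 2 u1)`. -/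
lemma nn_le_far {Q : WS} {j c : ℤ} (hc : ∀ b ∈ Q.S, Q.u b ≤ c) (hj : c < j) :
    nn Q j ≤ ∑ p ∈ Q.S, (if Q.u p < 0 then Q.f1 p * ge Q (j + 2 * Q.u p) else 0) := by
  rw [nn_eq_sum]
  refine sum_le_sum fun p hp => ?_
  split_ifs with h
  · exact le_rfl
  · have : ge Q (j + 2 * Q.u p) = 0 := by
      unfold ge
      refine sum_eq_zero fun a ha => ?_
      have := hc a ha
      rw [if_neg (by omega)]
    rw [this, mul_zero]

/-- crude form: doubled elements are `≥ -z` -/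
lemma nn_le_far' {Q : WS} (hQ : Good Q) {j c z : ℤ} (hc : ∀ b ∈ Q.S, Q.u b ≤ c) (hj : c < j)
    (hz : ∀ b ∈ Q.S, Q.f1 b ≠ 0 → -z ≤ Q.u b) :
    nn Q j ≤ lt Q 0 * ge Q (j - 2 * z) := by
  refine (nn_le_far hc hj).trans ?_
  unfold lt
  rw [sum_mul]
  refine sum_le_sum fun p hp => ?_
  have h0 := ge_nonneg hQ (j - 2 * z)
  split_ifs with h
  · by_cases h1 : Q.f1 p = 0
    · rw [h1, zero_mul]
      exact mul_nonneg (hQ.f_nonneg p hp) h0
    · have h2 := hz p hp h1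
      have h3 : ge Q (j + 2 * Q.u p) ≤ ge Q (j - 2 * z) := ge_anti hQ (by omega)
      exact mul_le_mul (hQ.f1_le p hp) h3 (ge_nonneg hQ _) (hQ.f_nonneg p hp)
  · rw [zero_mul]

/-- both sides together: the two bounds of a pair which is useless on both sides, `G + G*` counts -/
lemma LB_add (P Q : WS) (D K T ρ σ : ℤ) (ξR ξL : ℤ → ℝ) (G G' : ℤ) :
    LB P Q D K T ρ ξR ξL G + LB Q P D K T σ ξL ξR G'
      = 2 * (T + D + 2 * K + 2 : ℝ) - 4 * (mass P * mass Q) + 2 * (G + G')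
        + 2 * (cc P Q 0 + cc Q P 0) + 2 * (nn Q (D + 1) + nn P (D + 1))
        + dd Q P (D - ρ) + dd P Q (D - σ)
        - ext ξL (D - ρ) - ext ξR (D - σ)
        - ext ξR (2 * K + 1 + ρ + 2 * G) - ext ξL (2 * K + 1 + σ + 2 * G')
        - nn Q (D - 2 * K - ρ - 2 * G) - nn P (D - 2 * K - σ - 2 * G') := by
  unfold LB
  rw [mul_comm (mass Q) (mass P)]
  ring

/-- the main constant in terms of `D` and the budget: if `4 m ≤ n`, `n = 3 D + 1 + e` then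
`T + D + 2K + 2 - 2m ≥ (2K + 2 - e - ρ - σ) / 2` -/
lemma LB_const {P Q : WS} {D K T ρ σ : ℤ} {n e : ℝ} (hD : D = 2 * T + 2 * K + 1 + ρ + σ)
    (hn : n = 3 * D + 1 + e) (hm : 4 * (mass P * mass Q) ≤ n) :
    ((2 * K + 2 - ρ - σ : ℤ) : ℝ) / 2 - e / 2
      ≤ (T + D + 2 * K + 2 : ℝ) - 2 * (mass P * mass Q) := by
  have h : (D : ℝ) = 2 * T + 2 * K + 1 + ρ + σ := by
    rw [hD]
    push_cast
    ring
  push_cast
  rw [hn] at hm
  linarith

end

end MP61673a.W
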