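import Pool.Agent.Mu673.Pack

/-!
Per-stray net, discrete and exact.  A right stray at coordinate `-t` (excluded from the doubled
roles), environment `P`, `Q` arbitrary.
-/

namespace MP61673a.W

open Finset

noncomputable section

/-- right side: gains of the cross pairs `(p, -t)` minus the prices of the near labels
`u b + 2t` (centre `-t`) -/
def netR (P Q : WS) (D K T ρ t : ℤ) : ℝ :=
  (T + 1 + nn P (1 + ρ)) * lt P (2 * t)
  + ∑ p ∈ P.S, (if 2 * t ≤ P.u p then P.f p * dd P Q (2 * K + 1 + ρ + 2 * (P.u p - 2 * t)) else 0)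
  - ∑ b ∈ Q.S, Q.f b * (if 1 ≤ Q.u b + 2 * t ∧ Q.u b + 2 * t ≤ D then
      price P Q D K T ρ (D - (Q.u b + 2 * t)) else 0)

/-- left side: gains of the cross pairs `(-t, p)` -/
def netL (P Q : WS) (K T σ t : ℤ) : ℝ :=
  (T + 1 + nn Q (1 + σ)) * lt P ((t + 1) / 2)
  + ∑ p ∈ P.S, (if t ≤ 2 * P.u p then P.f p * dd Q P (2 * K + 1 + σ + 2 * (2 * P.u p - t)) else 0)

/-- right side, exchanged -/
lemma netR_eq (P Q : WS) (D K T ρ : ℤ) {t : ℤ} (hf : ∀ p ∈ P.S, 2 * t ≤ P.u p → P.f1 p = P.f p) :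
    netR P Q D K T ρ t
      = ∑ p ∈ P.S, (if P.u p < 2 * t then (T + 1 + nn P (1 + ρ)) * P.f p
          - P.f1 p * dd P Q (2 * K + 1 + ρ + 2 * (P.u p - 2 * t)) else 0)
        + ∑ b ∈ Q.S, Q.f b * (nn P (2 * (K - (Q.u b + 2 * t)) + 1 + ρ)
          - (if 1 ≤ Q.u b + 2 * t ∧ Q.u b + 2 * t ≤ D then
              price P Q D K T ρ (D - (Q.u b + 2 * t)) else 0)) := by
  have h := exch1 P Q (2 * K + 1 + ρ - 4 * t)
  have h1 : ∑ p ∈ P.S, P.f1 p * dd P Q (2 * K + 1 + ρ - 4 * t + 2 * P.u p)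
      = ∑ p ∈ P.S, (if P.u p < 2 * t then
          P.f1 p * dd P Q (2 * K + 1 + ρ + 2 * (P.u p - 2 * t)) else 0)
        + ∑ p ∈ P.S, (if 2 * t ≤ P.u p then
          P.f p * dd P Q (2 * K + 1 + ρ + 2 * (P.u p - 2 * t)) else 0) := by
    rw [← sum_add_distrib]
    refine sum_congr rfl fun p hp => ?_
    rw [show 2 * K + 1 + ρ - 4 * t + 2 * P.u p = 2 * K + 1 + ρ + 2 * (P.u p - 2 * t) by ring]
    by_cases c : P.u p < 2 * t
    · rw [if_pos c, if_neg (by omega), add_zero]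
    · rw [if_neg c, if_pos (by omega), zero_add, hf p hp (by omega)]
  have h2 : ∑ q ∈ Q.S, Q.f q * nn P (2 * K + 1 + ρ - 4 * t - 2 * Q.u q)
      = ∑ b ∈ Q.S, Q.f b * nn P (2 * (K - (Q.u b + 2 * t)) + 1 + ρ) := by
    refine sum_congr rfl fun b _ => ?_
    rw [show 2 * K + 1 + ρ - 4 * t - 2 * Q.u b = 2 * (K - (Q.u b + 2 * t)) + 1 + ρ by ring]
  rw [h1, h2] at h
  have h3 : ∑ p ∈ P.S, (if P.u p < 2 * t then (T + 1 + nn P (1 + ρ)) * P.f p
          - P.f1 p * dd P Q (2 * K + 1 + ρ + 2 * (P.u p - 2 * t)) else 0)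
      = (T + 1 + nn P (1 + ρ)) * lt P (2 * t)
        - ∑ p ∈ P.S, (if P.u p < 2 * t then
          P.f1 p * dd P Q (2 * K + 1 + ρ + 2 * (P.u p - 2 * t)) else 0) := by
    unfold lt
    rw [mul_sum, ← sum_sub_distrib]
    refine sum_congr rfl fun p _ => ?_
    split_ifs <;> ring
  have h4 : ∑ b ∈ Q.S, Q.f b * (nn P (2 * (K - (Q.u b + 2 * t)) + 1 + ρ)
          - (if 1 ≤ Q.u b + 2 * t ∧ Q.u b + 2 * t ≤ D then
              price P Q D K T ρ (D - (Q.u b + 2 * t)) else 0))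
      = ∑ b ∈ Q.S, Q.f b * nn P (2 * (K - (Q.u b + 2 * t)) + 1 + ρ)
        - ∑ b ∈ Q.S, Q.f b * (if 1 ≤ Q.u b + 2 * t ∧ Q.u b + 2 * t ≤ D then
              price P Q D K T ρ (D - (Q.u b + 2 * t)) else 0) := by
    rw [← sum_sub_distrib]
    refine sum_congr rfl fun b _ => ?_
    ring
  rw [h3, h4]
  unfold netR
  linarith

/-- left side, exchanged -/
lemma netL_eq (P Q : WS) (K T σ : ℤ) {t : ℤ} (hf : ∀ p ∈ P.S, t ≤ 2 * P.u p → P.f1 p = P.f p) :
    netL P Q K T σ t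
      = ∑ p ∈ P.S, (if 2 * P.u p < t then (T + 1 + nn Q (1 + σ)) * P.f p
          - P.f1 p * dd Q P (2 * K + 1 + σ + 2 * (2 * P.u p - t)) else 0)
        + ∑ b ∈ Q.S, Q.f b * nn P (K + 1 - (Q.u b + 2 * t - σ + 1) / 2) := by
  have h := exch2 P Q (2 * K + 1 + σ - 2 * t)
  have h1 : ∑ p ∈ P.S, P.f1 p * dd Q P (2 * K + 1 + σ - 2 * t + 4 * P.u p)
      = ∑ p ∈ P.S, (if 2 * P.u p < t then
          P.f1 p * dd Q P (2 * K + 1 + σ + 2 * (2 * P.u p - t)) else 0)
        + ∑ p ∈ P.S, (if t ≤ 2 * P.u p then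
          P.f p * dd Q P (2 * K + 1 + σ + 2 * (2 * P.u p - t)) else 0) := by
    rw [← sum_add_distrib]
    refine sum_congr rfl fun p hp => ?_
    rw [show 2 * K + 1 + σ - 2 * t + 4 * P.u p = 2 * K + 1 + σ + 2 * (2 * P.u p - t) by ring]
    by_cases c : 2 * P.u p < t
    · rw [if_pos c, if_neg (by omega), add_zero]
    · rw [if_neg c, if_pos (by omega), zero_add, hf p hp (by omega)]
  have h2 : ∑ q ∈ Q.S, Q.f q * nn P ((2 * K + 1 + σ - 2 * t - Q.u q + 1) / 2)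
      = ∑ b ∈ Q.S, Q.f b * nn P (K + 1 - (Q.u b + 2 * t - σ + 1) / 2) := by
    refine sum_congr rfl fun b _ => ?_
    rw [show (2 * K + 1 + σ - 2 * t - Q.u b + 1) / 2 = K + 1 - (Q.u b + 2 * t - σ + 1) / 2 by omega]
  rw [h1, h2] at h
  have h3 : ∑ p ∈ P.S, (if 2 * P.u p < t then (T + 1 + nn Q (1 + σ)) * P.f p
          - P.f1 p * dd Q P (2 * K + 1 + σ + 2 * (2 * P.u p - t)) else 0)
      = (T + 1 + nn Q (1 + σ)) * lt P ((t + 1) / 2)
        - ∑ p ∈ P.S, (if 2 * P.u p < t then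
          P.f1 p * dd Q P (2 * K + 1 + σ + 2 * (2 * P.u p - t)) else 0) := by
    unfold lt
    rw [mul_sum, ← sum_sub_distrib]
    refine sum_congr rfl fun p _ => ?_
    by_cases c : 2 * P.u p < t
    · rw [if_pos c, if_pos c, if_pos (by omega)]
    · rw [if_neg c, if_neg c, if_neg (by omega)]
      ring
  rw [h3]
  unfold netL
  linarith

/-- value of `kap` at depth `j` from the inner end: `#{g' ∈ [0,T] : 2g' < j - σ}`
is at most `⌈(j-σ)/2⌉` -/
lemma kap_depth {D K T ρ σ j : ℤ} (hT : -1 ≤ T) (hD : D = 2 * T + 2 * K + 1 + ρ + σ)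
    (hj : 0 ≤ j - σ) :
    kap K T ρ (D - j) ≤ min ((T:ℝ) + 1) (((j - σ + 1) / 2 : ℤ) : ℝ) := by
  refine le_min (kap_le K ρ _ hT) ?_
  unfold kap
  rw [sum_ite, sum_const_zero, add_zero, sum_const, nsmul_eq_mul, mul_one]
  have h1 : (Icc 0 T).filter (fun g => D - j < 2 * K + 1 + ρ + 2 * g)
      ⊆ Icc (T + 1 - (j - σ + 1) / 2) T := by
    intro g hg
    rw [mem_filter, mem_Icc] at hg
    rw [mem_Icc]
    omega
  have h2 := card_le_card h1
  rw [Int.card_Icc] at h2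
  have h3 : (T + 1 - (T + 1 - (j - σ + 1) / 2)).toNat = ((j - σ + 1) / 2).toNat := by
    congr 1
    ring
  rw [h3] at h2
  have h4 : ((((j - σ + 1) / 2).toNat : ℕ) : ℤ) = (j - σ + 1) / 2 :=
    Int.toNat_of_nonneg (by omega)
  have h5 : (((((j - σ + 1) / 2).toNat : ℕ)) : ℝ) = (((j - σ + 1) / 2 : ℤ) : ℝ) := by
    exact_mod_cast h4
  rw [← h5]
  exact_mod_cast h2

/-- NET OF A STRAY, both sides, after the second exchange: lower bound; the only fact used is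
the exact near count of the LEFT side.  Every element `b` of `Q` with `j = u b + 2t ≥ 1`
contributes `(M - m) + [F_L + W_L - X_L](M + min(K, ⌈(j-σ)/2⌉))` and two nonnegative terms. -/
theorem net_ge {P Q : WS} (hP : Good P) (hQ : Good Q) {D K T ρ σ t : ℤ}
    (hK : 0 ≤ K) (hT : -1 ≤ T) (hTK : T < K)
    (hσ1 : σ ≤ 1) (ht : 0 ≤ t)
    (hD : D = 2 * T + 2 * K + 1 + ρ + σ)
    (hf : ∀ p ∈ P.S, 0 ≤ P.u p → P.f1 p = P.f p) (ξ : ℤ → ℝ) :
    ∑ p ∈ P.S, (if P.u p < 2 * t then (T + 1 + nn P (1 + ρ)) * P.f p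
          - P.f1 p * dd P Q (2 * K + 1 + ρ + 2 * (P.u p - 2 * t)) else 0)
      + ∑ p ∈ P.S, (if 2 * P.u p < t then (T + 1 + nn Q (1 + σ)) * P.f p
          - P.f1 p * dd Q P (2 * K + 1 + σ + 2 * (2 * P.u p - t)) else 0)
      + ∑ b ∈ Q.S, Q.f b * (if 1 ≤ Q.u b + 2 * t then
          ((D - K - mass P * mass Q
            + dd Q P (D - K + min K ((Q.u b + 2 * t - σ + 1) / 2))
            + wx Q P D ξ (D - K + min K ((Q.u b + 2 * t - σ + 1) / 2))
            - ext ξ (D - K + min K ((Q.u b + 2 * t - σ + 1) / 2)))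
          + (nn P (2 * (K - (Q.u b + 2 * t)) + 1 + ρ)
            - nn P (2 * max (K - (Q.u b + 2 * t)) 0 + 1 + ρ))
          + (if Q.u b + 2 * t ≤ D then dd P Q (2 * K + 1 + ρ + 2 * (D - (Q.u b + 2 * t))) else 0))
          else 0)
      ≤ netR P Q D K T ρ t + netL P Q K T σ t := by
  rw [netR_eq P Q D K T ρ (fun p hp h => hf p hp (by linarith)),
    netL_eq P Q K T σ (fun p hp h => hf p hp (by omega))]
  have h : ∑ b ∈ Q.S, Q.f b * (if 1 ≤ Q.u b + 2 * t then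
          ((D - K - mass P * mass Q
            + dd Q P (D - K + min K ((Q.u b + 2 * t - σ + 1) / 2))
            + wx Q P D ξ (D - K + min K ((Q.u b + 2 * t - σ + 1) / 2))
            - ext ξ (D - K + min K ((Q.u b + 2 * t - σ + 1) / 2)))
          + (nn P (2 * (K - (Q.u b + 2 * t)) + 1 + ρ)
            - nn P (2 * max (K - (Q.u b + 2 * t)) 0 + 1 + ρ))
          + (if Q.u b + 2 * t ≤ D then dd P Q (2 * K + 1 + ρ + 2 * (D - (Q.u b + 2 * t))) else 0))
          else 0)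
      ≤ ∑ b ∈ Q.S, Q.f b * (nn P (2 * (K - (Q.u b + 2 * t)) + 1 + ρ)
          - (if 1 ≤ Q.u b + 2 * t ∧ Q.u b + 2 * t ≤ D then
              price P Q D K T ρ (D - (Q.u b + 2 * t)) else 0))
        + ∑ b ∈ Q.S, Q.f b * nn P (K + 1 - (Q.u b + 2 * t - σ + 1) / 2) := by
    rw [← sum_add_distrib]
    refine sum_le_sum fun b hb => ?_
    rw [← mul_add]
    refine mul_le_mul_of_nonneg_left ?_ (hQ.f_nonneg b hb)
    set j := Q.u b + 2 * t with hj
    set J := (j - σ + 1) / 2 with hJ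
    have n1 := nn_nonneg hP (2 * (K - j) + 1 + ρ)
    have n2 := nn_nonneg hP (K + 1 - J)
    by_cases c0 : 1 ≤ j
    · rw [if_pos c0]
      have hJ0 : 0 ≤ J := by omega
      -- exact near count at the truncated threshold
      have e1 := nn_eq Q P D ξ (K - min K J)
      rw [show D - (K - min K J) = D - K + min K J by ring] at e1
      have e2 : nn P (K - min K J + 1) ≤ nn P (K + 1 - J) := by
        refine nn_anti hP ?_
        have h8 := min_le_right K J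
        omega
      have e3 : mass Q * mass P = mass P * mass Q := by ring
      rw [e3] at e1
      push_cast at e1
      have m0 : (0:ℝ) ≤ min (K:ℝ) (J:ℝ) := by
        refine le_min ?_ ?_
        · exact_mod_cast hK
        · exact_mod_cast hJ0
      by_cases c : j ≤ D
      · rw [if_pos c, if_pos ⟨c0, c⟩]
        unfold price
        have k1 := kap_depth (K := K) (ρ := ρ) hT hD (j := j) (by omega)
        rw [← hJ] at k1
        have k3 : min ((T:ℝ) + 1) (J:ℝ) ≤ min (K:ℝ) (J:ℝ) := by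
          refine le_min ?_ (min_le_right _ _)
          refine (min_le_left _ _).trans ?_
          have : T + 1 ≤ K := by omega
          exact_mod_cast this
        have k4 : 2 * max (D - j - (D - K)) 0 + 1 + ρ = 2 * max (K - j) 0 + 1 + ρ := by
          rw [show D - j - (D - K) = K - j by ring]
        rw [k4]
        linarith
      · rw [if_neg c, if_neg (by omega)]
        have n3 := nn_nonneg hP (2 * max (K - j) 0 + 1 + ρ)
        linarith
    · rw [if_neg c0, if_neg (by omega)]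
      linarith
  linarith

/-- weight of the pairs `(a,p)` with `u p < x`, `u a - 2 u p ≥ 1 + ρ` -/
def pairs (P : WS) (ρ x : ℤ) : ℝ :=
  ∑ a ∈ P.S, ∑ p ∈ P.S, if P.u p < x ∧ 1 + ρ ≤ P.u a - 2 * P.u p then P.f a * P.f1 p else 0

lemma pairs_nonneg {P : WS} (hP : Good P) (ρ x : ℤ) : 0 ≤ pairs P ρ x :=
  sum_nonneg fun a ha => sum_nonneg fun b hb =>
    ite_nonneg' (mul_nonneg (hP.f_nonneg a ha) (hP.f1_nonneg b hb))

lemma pairs_le_nn {P : WS} (hP : Good P) (ρ x : ℤ) : pairs P ρ x ≤ nn P (1 + ρ) :=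
  sum_le_sum fun a ha => sum_le_sum fun b hb =>
    ite_le_ite (mul_nonneg (hP.f_nonneg a ha) (hP.f1_nonneg b hb)) (fun h1 => h1.2)

lemma pairs_bound {P : WS} (hP : Good P) (hP0 : ∀ a ∈ P.S, 0 ≤ P.u a) {ρ : ℤ} (hρ : 0 ≤ ρ)
    (x : ℤ) : 2 * pairs P ρ x ≤ lt P x * (2 * mass P - lt P x) := by
  refine le_trans ?_ (pair_bound hP hP0 x)
  refine mul_le_mul_of_nonneg_left ?_ (by norm_num)
  exact sum_le_sum fun a ha => sum_le_sum fun b hb =>
    ite_le_ite (mul_nonneg (hP.f_nonneg a ha) (hP.f1_nonneg b hb)) (fun h1 => ⟨h1.1, by omega⟩)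

/-- the tuples with `U_P ≤ ρ` are paid by the near counts beyond `K` -/
lemma sumR_aux {P Q : WS} (hP : Good P) (hQ : Good Q) (K ρ t : ℤ) :
    ∑ p ∈ P.S, (if P.u p < 2 * t then
        P.f1 p * dd P Q (2 * K + 1 + ρ + 2 * (P.u p - 2 * t)) else 0)
      ≤ mass Q * pairs P ρ (2 * t)
        + ∑ b ∈ Q.S, Q.f b * (nn P (2 * (K - (Q.u b + 2 * t)) + 1 + ρ)
            - nn P (2 * max (K - (Q.u b + 2 * t)) 0 + 1 + ρ)) := by
  -- left side as a triple sum
  have h1 : ∑ p ∈ P.S, (if P.u p < 2 * t then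
        P.f1 p * dd P Q (2 * K + 1 + ρ + 2 * (P.u p - 2 * t)) else 0)
      = ∑ b ∈ Q.S, ∑ a ∈ P.S, ∑ p ∈ P.S,
        (if P.u p < 2 * t ∧ 2 * (K - (Q.u b + 2 * t)) + 1 + ρ ≤ P.u a - 2 * P.u p then
          Q.f b * (P.f a * P.f1 p) else 0) := by
    have h2 : ∀ p ∈ P.S, (if P.u p < 2 * t then
        P.f1 p * dd P Q (2 * K + 1 + ρ + 2 * (P.u p - 2 * t)) else 0)
        = ∑ b ∈ Q.S, ∑ a ∈ P.S,
        (if P.u p < 2 * t ∧ 2 * (K - (Q.u b + 2 * t)) + 1 + ρ ≤ P.u a - 2 * P.u p then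
          Q.f b * (P.f a * P.f1 p) else 0) := by
      intro p _
      by_cases c : P.u p < 2 * t
      · rw [if_pos c]
        unfold dd
        rw [sum_comm, mul_sum]
        refine sum_congr rfl fun b _ => ?_
        rw [mul_sum]
        refine sum_congr rfl fun a _ => ?_
        rw [mul_ite']
        split_ifs <;> first | omega | ring
      · rw [if_neg c]
        symm
        refine sum_eq_zero fun b _ => sum_eq_zero fun a _ => ?_
        rw [if_neg (fun h => c h.1)]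
    rw [sum_congr rfl h2, sum_comm]
    refine sum_congr rfl fun b _ => ?_
    rw [sum_comm]
  have h3 : mass Q * pairs P ρ (2 * t) = ∑ b ∈ Q.S, ∑ a ∈ P.S, ∑ p ∈ P.S,
        (if P.u p < 2 * t ∧ 1 + ρ ≤ P.u a - 2 * P.u p then Q.f b * (P.f a * P.f1 p) else 0) := by
    unfold mass pairs
    rw [sum_mul]
    refine sum_congr rfl fun b _ => ?_
    rw [mul_sum]
    refine sum_congr rfl fun a _ => ?_
    rw [mul_sum]
    refine sum_congr rfl fun p _ => ?_
    rw [mul_ite']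
  rw [h1, h3, ← sum_add_distrib]
  refine sum_le_sum fun b hb => ?_
  have h4 : Q.f b * (nn P (2 * (K - (Q.u b + 2 * t)) + 1 + ρ)
            - nn P (2 * max (K - (Q.u b + 2 * t)) 0 + 1 + ρ))
      = ∑ a ∈ P.S, ∑ p ∈ P.S,
        (if 2 * (K - (Q.u b + 2 * t)) + 1 + ρ ≤ P.u a - 2 * P.u p
            ∧ ¬ 2 * max (K - (Q.u b + 2 * t)) 0 + 1 + ρ ≤ P.u a - 2 * P.u p then
          Q.f b * (P.f a * P.f1 p) else 0) := by
    unfold nn
    rw [mul_sub, mul_sum, mul_sum, ← sum_sub_distrib]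
    refine sum_congr rfl fun a _ => ?_
    rw [mul_sum, mul_sum, ← sum_sub_distrib]
    refine sum_congr rfl fun p _ => ?_
    have hm := le_max_left (K - (Q.u b + 2 * t)) 0
    rw [mul_ite', mul_ite']
    split_ifs <;> first | omega | ring
  rw [h4, ← sum_add_distrib]
  refine sum_le_sum fun a ha => ?_
  rw [← sum_add_distrib]
  refine sum_le_sum fun p hp => ?_
  have hw : 0 ≤ Q.f b * (P.f a * P.f1 p) :=
    mul_nonneg (hQ.f_nonneg b hb) (mul_nonneg (hP.f_nonneg a ha) (hP.f1_nonneg p hp))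
  rcases max_cases (K - (Q.u b + 2 * t)) 0 with ⟨hm, hm2⟩ | ⟨hm, hm2⟩ <;> rw [hm] <;>
    split_ifs <;> first | omega | linarith

/-- RIGHT PART of the net of a stray (`D1` of helper95 / `(F3)`): with `A = P(<2t)`, `r = Q`,
`a = #{(p1,p) : p < 2t, p1 > 2p}`: at least `(T+1) A - (r-A)^+ a` -/
theorem sumR_ge {P Q : WS} (hP : Good P) (hQ : Good Q) {K T ρ t : ℤ} :
    (T + 1) * lt P (2 * t) - max (mass Q - lt P (2 * t)) 0 * pairs P ρ (2 * t)
      ≤ ∑ p ∈ P.S, (if P.u p < 2 * t then (T + 1 + nn P (1 + ρ)) * P.f p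
          - P.f1 p * dd P Q (2 * K + 1 + ρ + 2 * (P.u p - 2 * t)) else 0)
        + ∑ b ∈ Q.S, Q.f b * (nn P (2 * (K - (Q.u b + 2 * t)) + 1 + ρ)
            - nn P (2 * max (K - (Q.u b + 2 * t)) 0 + 1 + ρ)) := by
  have h1 := sumR_aux hP hQ K ρ t
  have h3 : ∑ p ∈ P.S, (if P.u p < 2 * t then (T + 1 + nn P (1 + ρ)) * P.f p
          - P.f1 p * dd P Q (2 * K + 1 + ρ + 2 * (P.u p - 2 * t)) else 0)
      = (T + 1 + nn P (1 + ρ)) * lt P (2 * t)
        - ∑ p ∈ P.S, (if P.u p < 2 * t then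
          P.f1 p * dd P Q (2 * K + 1 + ρ + 2 * (P.u p - 2 * t)) else 0) := by
    unfold lt
    rw [mul_sum, ← sum_sub_distrib]
    refine sum_congr rfl fun p _ => ?_
    split_ifs <;> ring
  rw [h3]
  have h4 := pairs_le_nn hP ρ (2 * t)
  have h5 := pairs_nonneg hP ρ (2 * t)
  have h6 := lt_nonneg hP (2 * t)
  have h7 := mul_le_mul_of_nonneg_right h4 h6
  have h8 := mul_le_mul_of_nonneg_right (le_max_left (mass Q - lt P (2 * t)) 0) h5
  nlinarith

/-- NET OF A STRAY, summary: `A = P(<2t)`, `a = pairs P ρ (2t)`. -/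
theorem net_main {P Q : WS} (hP : Good P) (hQ : Good Q) {D K T ρ σ t : ℤ}
    (hK : 0 ≤ K) (hT : -1 ≤ T) (hTK : T < K)
    (hσ1 : σ ≤ 1) (ht : 0 ≤ t)
    (hD : D = 2 * T + 2 * K + 1 + ρ + σ)
    (hf : ∀ p ∈ P.S, 0 ≤ P.u p → P.f1 p = P.f p) (ξ : ℤ → ℝ) :
    (T + 1) * lt P (2 * t) - max (mass Q - lt P (2 * t)) 0 * pairs P ρ (2 * t)
      + ∑ p ∈ P.S, (if 2 * P.u p < t then (T + 1 + nn Q (1 + σ)) * P.f p
          - P.f1 p * dd Q P (2 * K + 1 + σ + 2 * (2 * P.u p - t)) else 0)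
      + ∑ b ∈ Q.S, Q.f b * (if 1 ≤ Q.u b + 2 * t then
          ((D - K - mass P * mass Q
            + dd Q P (D - K + min K ((Q.u b + 2 * t - σ + 1) / 2))
            + wx Q P D ξ (D - K + min K ((Q.u b + 2 * t - σ + 1) / 2))
            - ext ξ (D - K + min K ((Q.u b + 2 * t - σ + 1) / 2)))
          + (if Q.u b + 2 * t ≤ D then dd P Q (2 * K + 1 + ρ + 2 * (D - (Q.u b + 2 * t))) else 0))
          else 0)
      ≤ netR P Q D K T ρ t + netL P Q K T σ t := by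
  have h1 := net_ge hP hQ hK hT hTK hσ1 ht hD hf ξ
  have h2 := sumR_ge hP hQ (K := K) (T := T) (ρ := ρ) (t := t)
  have h3 : ∑ b ∈ Q.S, Q.f b * (nn P (2 * (K - (Q.u b + 2 * t)) + 1 + ρ)
            - nn P (2 * max (K - (Q.u b + 2 * t)) 0 + 1 + ρ))
      + ∑ b ∈ Q.S, Q.f b * (if 1 ≤ Q.u b + 2 * t then
          ((D - K - mass P * mass Q
            + dd Q P (D - K + min K ((Q.u b + 2 * t - σ + 1) / 2))
            + wx Q P D ξ (D - K + min K ((Q.u b + 2 * t - σ + 1) / 2))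
            - ext ξ (D - K + min K ((Q.u b + 2 * t - σ + 1) / 2)))
          + (if Q.u b + 2 * t ≤ D then dd P Q (2 * K + 1 + ρ + 2 * (D - (Q.u b + 2 * t))) else 0))
          else 0)
      = ∑ b ∈ Q.S, Q.f b * (if 1 ≤ Q.u b + 2 * t then
          ((D - K - mass P * mass Q
            + dd Q P (D - K + min K ((Q.u b + 2 * t - σ + 1) / 2))
            + wx Q P D ξ (D - K + min K ((Q.u b + 2 * t - σ + 1) / 2))
            - ext ξ (D - K + min K ((Q.u b + 2 * t - σ + 1) / 2)))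
          + (nn P (2 * (K - (Q.u b + 2 * t)) + 1 + ρ)
            - nn P (2 * max (K - (Q.u b + 2 * t)) 0 + 1 + ρ))
          + (if Q.u b + 2 * t ≤ D then dd P Q (2 * K + 1 + ρ + 2 * (D - (Q.u b + 2 * t))) else 0))
          else 0) := by
    rw [← sum_add_distrib]
    refine sum_congr rfl fun b _ => ?_
    by_cases c : 1 ≤ Q.u b + 2 * t
    · rw [if_pos c, if_pos c]
      ring
    · rw [if_neg c, if_neg c, max_eq_left (by omega)]
      ring
  linarith

end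

end MP61673a.W
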