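import Pool.Agent.Mu673.Net

/-!
Row (e) (helper28): LEFT part of the net of a stray by pair counting, mirror of `sumR_aux`.
-/

namespace MP61673a.W

open Finset

noncomputable section

/-- left side: the tuples with `U_P ≤ 0` are paid by the near counts beyond `K`;
`J = ⌈(u b + 2t - σ)/2⌉` -/
lemma sumL_aux {P Q : WS} (hP : Good P) (hQ : Good Q) (K σ t : ℤ) :
    ∑ p ∈ P.S, (if 2 * P.u p < t then
        P.f1 p * dd Q P (2 * K + 1 + σ + 2 * (2 * P.u p - t)) else 0)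
      ≤ mass Q * pairs P 0 ((t + 1) / 2)
        + ∑ b ∈ Q.S, Q.f b * (nn P (K + 1 - (Q.u b + 2 * t - σ + 1) / 2)
            - nn P (max (K - (Q.u b + 2 * t - σ + 1) / 2) 0 + 1)) := by
  have h1 : ∑ p ∈ P.S, (if 2 * P.u p < t then
        P.f1 p * dd Q P (2 * K + 1 + σ + 2 * (2 * P.u p - t)) else 0)
      = ∑ b ∈ Q.S, ∑ a ∈ P.S, ∑ p ∈ P.S,
        (if 2 * P.u p < t ∧ K + 1 - (Q.u b + 2 * t - σ + 1) / 2 ≤ P.u a - 2 * P.u p then
          Q.f b * (P.f a * P.f1 p) else 0) := by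
    have h2 : ∀ p ∈ P.S, (if 2 * P.u p < t then
        P.f1 p * dd Q P (2 * K + 1 + σ + 2 * (2 * P.u p - t)) else 0)
        = ∑ b ∈ Q.S, ∑ a ∈ P.S,
        (if 2 * P.u p < t ∧ K + 1 - (Q.u b + 2 * t - σ + 1) / 2 ≤ P.u a - 2 * P.u p then
          Q.f b * (P.f a * P.f1 p) else 0) := by
      intro p _
      by_cases c : 2 * P.u p < t
      · rw [if_pos c]
        unfold dd
        rw [mul_sum]
        refine sum_congr rfl fun b _ => ?_
        rw [mul_sum]
        refine sum_congr rfl fun a _ => ?_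
        rw [mul_ite']
        split_ifs <;> first | omega | ring
      · rw [if_neg c]
        symm
        refine sum_eq_zero fun b _ => sum_eq_zero fun a _ => ?_
        rw [if_neg (fun h => c h.1)]
    rw [sum_congr rfl h2, sum_comm]
    refine sum_congr rfl fun b _ => ?_
    rw [sum_comm]
  have h3 : mass Q * pairs P 0 ((t + 1) / 2) = ∑ b ∈ Q.S, ∑ a ∈ P.S, ∑ p ∈ P.S,
        (if P.u p < (t + 1) / 2 ∧ 1 + 0 ≤ P.u a - 2 * P.u p then
          Q.f b * (P.f a * P.f1 p) else 0) := by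
    unfold mass pairs
    rw [sum_mul]
    refine sum_congr rfl fun b _ => ?_
    rw [mul_sum]
    refine sum_congr rfl fun a _ => ?_
    rw [mul_sum]
    refine sum_congr rfl fun p _ => ?_
    rw [mul_ite']
  rw [h1, h3, ← sum_add_distrib]
  refine sum_le_sum fun b hb => ?_
  have h4 : Q.f b * (nn P (K + 1 - (Q.u b + 2 * t - σ + 1) / 2)
            - nn P (max (K - (Q.u b + 2 * t - σ + 1) / 2) 0 + 1))
      = ∑ a ∈ P.S, ∑ p ∈ P.S,
        (if K + 1 - (Q.u b + 2 * t - σ + 1) / 2 ≤ P.u a - 2 * P.u p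
            ∧ ¬ max (K - (Q.u b + 2 * t - σ + 1) / 2) 0 + 1 ≤ P.u a - 2 * P.u p then
          Q.f b * (P.f a * P.f1 p) else 0) := by
    unfold nn
    rw [mul_sub, mul_sum, mul_sum, ← sum_sub_distrib]
    refine sum_congr rfl fun a _ => ?_
    rw [mul_sum, mul_sum, ← sum_sub_distrib]
    refine sum_congr rfl fun p _ => ?_
    have hm := le_max_left (K - (Q.u b + 2 * t - σ + 1) / 2) 0
    rw [mul_ite', mul_ite']
    split_ifs <;> first | omega | ring
  rw [h4, ← sum_add_distrib]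
  refine sum_le_sum fun a ha => ?_
  rw [← sum_add_distrib]
  refine sum_le_sum fun p hp => ?_
  have hw : 0 ≤ Q.f b * (P.f a * P.f1 p) :=
    mul_nonneg (hQ.f_nonneg b hb) (mul_nonneg (hP.f_nonneg a ha) (hP.f1_nonneg p hp))
  rcases max_cases (K - (Q.u b + 2 * t - σ + 1) / 2) 0 with ⟨hm, hm2⟩ | ⟨hm, hm2⟩ <;>
    rw [hm] <;> split_ifs <;> first | omega | linarith

/-- LEFT PART of the net of a stray by pair counting: with `B = P(<t/2)`,
`a' = #{(p1,p) : p < t/2, p1 > 2p}`, `r = Q`: at least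
`(T + 1 + N_Q) B - r a' + Σ_b f b N_P(max(K - J_b, 0))` -/
theorem netL_ge_pairs {P Q : WS} (hP : Good P) (hQ : Good Q) {K T σ t : ℤ}
    (hf : ∀ p ∈ P.S, t ≤ 2 * P.u p → P.f1 p = P.f p) :
    (T + 1 + nn Q (1 + σ)) * lt P ((t + 1) / 2) - mass Q * pairs P 0 ((t + 1) / 2)
      + ∑ b ∈ Q.S, Q.f b * nn P (max (K - (Q.u b + 2 * t - σ + 1) / 2) 0 + 1)
      ≤ netL P Q K T σ t := by
  rw [netL_eq P Q K T σ hf]
  have h1 := sumL_aux hP hQ K σ t
  have h3 : ∑ p ∈ P.S, (if 2 * P.u p < t then (T + 1 + nn Q (1 + σ)) * P.f p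
          - P.f1 p * dd Q P (2 * K + 1 + σ + 2 * (2 * P.u p - t)) else 0)
      = (T + 1 + nn Q (1 + σ)) * lt P ((t + 1) / 2)
        - ∑ p ∈ P.S, (if 2 * P.u p < t then
          P.f1 p * dd Q P (2 * K + 1 + σ + 2 * (2 * P.u p - t)) else 0) := by
    unfold lt
    rw [mul_sum, ← sum_sub_distrib]
    refine sum_congr rfl fun p _ => ?_
    by_cases c : 2 * P.u p < t
    · rw [if_pos c, if_pos c, if_pos (by omega)]
    · rw [if_neg c, if_neg c, if_neg (by omega)]
      ring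
  have h4 : ∑ b ∈ Q.S, Q.f b * (nn P (K + 1 - (Q.u b + 2 * t - σ + 1) / 2)
            - nn P (max (K - (Q.u b + 2 * t - σ + 1) / 2) 0 + 1))
      = ∑ b ∈ Q.S, Q.f b * nn P (K + 1 - (Q.u b + 2 * t - σ + 1) / 2)
        - ∑ b ∈ Q.S, Q.f b * nn P (max (K - (Q.u b + 2 * t - σ + 1) / 2) 0 + 1) := by
    rw [← sum_sub_distrib]
    refine sum_congr rfl fun b _ => ?_
    ring
  rw [h3]
  linarith

/-- RIGHT PART of the net of a stray with the prices of the near labels: with `A = P(<2t)`,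
`a = #{(p1,p) : p < 2t, p1 > 2p}`, `r = Q`: at least `(T+1) A - (r-A)^+ a` minus
`Σ_b f b [kap(D - j) - F_R(..)]`, `j = u b + 2t` -/
theorem netR_ge_pairs {P Q : WS} (hP : Good P) (hQ : Good Q) {D K T ρ t : ℤ}
    (hf : ∀ p ∈ P.S, 2 * t ≤ P.u p → P.f1 p = P.f p) :
    (T + 1) * lt P (2 * t) - max (mass Q - lt P (2 * t)) 0 * pairs P ρ (2 * t)
      + ∑ b ∈ Q.S, Q.f b * (nn P (2 * max (K - (Q.u b + 2 * t)) 0 + 1 + ρ)
          - (if 1 ≤ Q.u b + 2 * t ∧ Q.u b + 2 * t ≤ D then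
              price P Q D K T ρ (D - (Q.u b + 2 * t)) else 0))
      ≤ netR P Q D K T ρ t := by
  rw [netR_eq P Q D K T ρ hf]
  have h2 := sumR_ge hP hQ (K := K) (T := T) (ρ := ρ) (t := t)
  have h3 : ∑ b ∈ Q.S, Q.f b * (nn P (2 * (K - (Q.u b + 2 * t)) + 1 + ρ)
            - nn P (2 * max (K - (Q.u b + 2 * t)) 0 + 1 + ρ))
      + ∑ b ∈ Q.S, Q.f b * (nn P (2 * max (K - (Q.u b + 2 * t)) 0 + 1 + ρ)
          - (if 1 ≤ Q.u b + 2 * t ∧ Q.u b + 2 * t ≤ D then
              price P Q D K T ρ (D - (Q.u b + 2 * t)) else 0))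
      = ∑ b ∈ Q.S, Q.f b * (nn P (2 * (K - (Q.u b + 2 * t)) + 1 + ρ)
          - (if 1 ≤ Q.u b + 2 * t ∧ Q.u b + 2 * t ≤ D then
              price P Q D K T ρ (D - (Q.u b + 2 * t)) else 0)) := by
    rw [← sum_add_distrib]
    refine sum_congr rfl fun b _ => ?_
    ring
  linarith

/-- NET OF A STRAY, summary, both sides by pair counting: `A = P(<2t)`, `B = P(<t/2)`,
`a = pairs P ρ (2t)`, `a' = pairs P 0 ⌈t/2⌉`. -/
theorem net_main_pairs {P Q : WS} (hP : Good P) (hQ : Good Q) {D K T ρ σ t : ℤ}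
    (hK : 0 ≤ K) (hT : -1 ≤ T) (hTK : T < K)
    (hσ1 : σ ≤ 1) (ht : 0 ≤ t)
    (hD : D = 2 * T + 2 * K + 1 + ρ + σ)
    (hf : ∀ p ∈ P.S, 0 ≤ P.u p → P.f1 p = P.f p) (ξ : ℤ → ℝ) :
    (T + 1) * lt P (2 * t) - max (mass Q - lt P (2 * t)) 0 * pairs P ρ (2 * t)
      + (T + 1 + nn Q (1 + σ)) * lt P ((t + 1) / 2) - mass Q * pairs P 0 ((t + 1) / 2)
      + ∑ b ∈ Q.S, Q.f b * (if 1 ≤ Q.u b + 2 * t then
          ((D - K - mass P * mass Q
            + dd Q P (D - K + min K ((Q.u b + 2 * t - σ + 1) / 2))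
            + wx Q P D ξ (D - K + min K ((Q.u b + 2 * t - σ + 1) / 2))
            - ext ξ (D - K + min K ((Q.u b + 2 * t - σ + 1) / 2)))
          + (if Q.u b + 2 * t ≤ D then dd P Q (2 * K + 1 + ρ + 2 * (D - (Q.u b + 2 * t))) else 0))
          else 0)
      ≤ netR P Q D K T ρ t + netL P Q K T σ t := by
  have h1 := netR_ge_pairs hP hQ (D := D) (K := K) (T := T) (ρ := ρ) (t := t)
    (fun p hp h => hf p hp (by linarith))
  have h2 := netL_ge_pairs hP hQ (K := K) (T := T) (σ := σ) (t := t)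
    (fun p hp h => hf p hp (by omega))
  have h : ∑ b ∈ Q.S, Q.f b * (if 1 ≤ Q.u b + 2 * t then
          ((D - K - mass P * mass Q
            + dd Q P (D - K + min K ((Q.u b + 2 * t - σ + 1) / 2))
            + wx Q P D ξ (D - K + min K ((Q.u b + 2 * t - σ + 1) / 2))
            - ext ξ (D - K + min K ((Q.u b + 2 * t - σ + 1) / 2)))
          + (if Q.u b + 2 * t ≤ D then dd P Q (2 * K + 1 + ρ + 2 * (D - (Q.u b + 2 * t))) else 0))
          else 0)
      ≤ ∑ b ∈ Q.S, Q.f b * (nn P (2 * max (K - (Q.u b + 2 * t)) 0 + 1 + ρ)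
          - (if 1 ≤ Q.u b + 2 * t ∧ Q.u b + 2 * t ≤ D then
              price P Q D K T ρ (D - (Q.u b + 2 * t)) else 0))
        + ∑ b ∈ Q.S, Q.f b * nn P (max (K - (Q.u b + 2 * t - σ + 1) / 2) 0 + 1) := by
    rw [← sum_add_distrib]
    refine sum_le_sum fun b hb => ?_
    rw [← mul_add]
    refine mul_le_mul_of_nonneg_left ?_ (hQ.f_nonneg b hb)
    set j := Q.u b + 2 * t with hj
    set J := (j - σ + 1) / 2 with hJ
    have n2 := nn_nonneg hP (max (K - J) 0 + 1)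
    have n3 := nn_nonneg hP (2 * max (K - j) 0 + 1 + ρ)
    by_cases c0 : 1 ≤ j
    · rw [if_pos c0]
      have hJ0 : 0 ≤ J := by omega
      have e1 := nn_eq Q P D ξ (K - min K J)
      rw [show D - (K - min K J) = D - K + min K J by ring] at e1
      have e2 : K - min K J = max (K - J) 0 := by
        rcases min_cases K J with ⟨h5, h6⟩ | ⟨h5, h6⟩ <;>
          rcases max_cases (K - J) 0 with ⟨h7, h8⟩ | ⟨h7, h8⟩ <;> omega
      rw [show nn P (K - min K J + 1) = nn P (max (K - J) 0 + 1) by rw [e2]] at e1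
      have e3 : mass Q * mass P = mass P * mass Q := by ring
      rw [e3] at e1
      push_cast at e1
      have m0 : (0:ℝ) ≤ min (K:ℝ) (J:ℝ) := by
        refine le_min ?_ ?_
        · exact_mod_cast hK
        · exact_mod_cast hJ0
      by_cases c : j ≤ D
      · rw [if_pos c, if_pos ⟨c0, c⟩]
        unfold price
        have k1 := kap_depth (K := K) (ρ := ρ) hT hD (j := j) (by omega)
        rw [← hJ] at k1
        have k3 : min ((T:ℝ) + 1) (J:ℝ) ≤ min (K:ℝ) (J:ℝ) := by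
          refine le_min ?_ (min_le_right _ _)
          refine (min_le_left _ _).trans ?_
          have : T + 1 ≤ K := by omega
          exact_mod_cast this
        have k4 : 2 * max (D - j - (D - K)) 0 + 1 + ρ = 2 * max (K - j) 0 + 1 + ρ := by
          rw [show D - j - (D - K) = K - j by ring]
        rw [k4]
        linarith
      · rw [if_neg c, if_neg (by omega)]
        linarith
    · rw [if_neg c0, if_neg (by omega)]
      linarith
  linarith

/-- pair counting on the left, in masses: `a' ≤ min (N_P(0+), B (l - B/2))` -/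
lemma pairs0_bound {P : WS} (hP : Good P) (hP0 : ∀ a ∈ P.S, 0 ≤ P.u a) (x : ℤ) :
    pairs P 0 x ≤ min (nn P 1) (lt P x * (mass P - lt P x / 2)) := by
  refine le_min ?_ ?_
  · have h := pairs_le_nn hP 0 x
    simpa using h
  · have h := pairs_bound hP hP0 (ρ := 0) le_rfl x
    linarith

/-- the left part of the net is bounded below without any coverage fact:
if `r l ≤ μ` and `ν ≤ T + 1 + N_Q` then, with `B = P(<t/2)`,
`(T+1+N_Q) B - r a' ≥ B (ν - μ + r B / 2)` -/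
lemma left_crude {P Q : WS} (hP : Good P) (hQ : Good Q) (hP0 : ∀ a ∈ P.S, 0 ≤ P.u a)
    {T σ t : ℤ} {μ ν : ℝ} (hμ : mass P * mass Q ≤ μ) (hν : ν ≤ T + 1 + nn Q (1 + σ)) :
    lt P ((t + 1) / 2) * (ν - μ + mass Q * lt P ((t + 1) / 2) / 2)
      ≤ (T + 1 + nn Q (1 + σ)) * lt P ((t + 1) / 2) - mass Q * pairs P 0 ((t + 1) / 2) := by
  have h1 := (pairs0_bound hP hP0 ((t + 1) / 2)).trans (min_le_right _ _)
  have h2 := lt_nonneg hP ((t + 1) / 2)
  have h3 := mass_nonneg hQ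
  have h4 := mul_le_mul_of_nonneg_left h1 h3
  have h5 := mul_le_mul_of_nonneg_right hμ h2
  have h6 := mul_le_mul_of_nonneg_right hν h2
  nlinarith

end

end MP61673a.W
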