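import Pool.Agent.Mu673.Deep
import Pool.Agent.Mu673.LiftW
import Pool.Agent.Mu673.Net
import Pool.Agent.Mu673.NetLeft
import Pool.Agent.Mu673.Near

/-!
Assembly: centre cut, `D = 4K+1`, `T = K-1`, `ρ = σ = 1`, and the reduction of `n ≤ |A|^2` to one
inequality about the remaining terms of the identity.
-/

namespace MP61673a.Fin

open Finset MP61673a.W MP61673a.LiftW
open MP61673a.Lift hiding PP QQ

noncomputable section

/-- centre cut of the window `[0,3D]` -/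
def cut (D : ℤ) (x : ℤ) : ℝ := if 2 * x ≤ 3 * D then 1 else 0

lemma cut_nonneg (D x : ℤ) : 0 ≤ cut D x := by
  unfold cut
  split_ifs <;> norm_num

lemma cut_le_one (D x : ℤ) : cut D x ≤ 1 := by
  unfold cut
  split_ifs <;> norm_num

/-- admissible weights of the doubled roles -/
structure Adm (D : ℤ) (φ1 ψ1 : ℤ → ℝ) : Prop where
  φ_nonneg : ∀ x, 0 ≤ φ1 x
  φ_le : ∀ x, φ1 x ≤ cut D x
  ψ_nonneg : ∀ x, 0 ≤ ψ1 x
  ψ_le : ∀ x, ψ1 x ≤ 1 - cut D x

lemma goodP {A : Finset ℤ} {D : ℤ} {φ1 ψ1 : ℤ → ℝ} (h : Adm D φ1 ψ1) :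
    Good (PP A (cut D) φ1 D) where
  f_nonneg := fun a _ => cut_nonneg D a
  f1_nonneg := fun a _ => h.φ_nonneg a
  f1_le := fun a _ => h.φ_le a

lemma goodQ {A : Finset ℤ} {D : ℤ} {φ1 ψ1 : ℤ → ℝ} (h : Adm D φ1 ψ1) :
    Good (QQ A (cut D) ψ1 D) where
  f_nonneg := fun a _ => sub_nonneg.2 (cut_le_one D a)
  f1_nonneg := fun a _ => h.ψ_nonneg a
  f1_le := fun a _ => h.ψ_le a

lemma adm_cut (D : ℤ) : Adm D (cut D) (fun x => 1 - cut D x) where
  φ_nonneg := fun a => cut_nonneg D a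
  φ_le := fun _ => le_rfl
  ψ_nonneg := fun a => sub_nonneg.2 (cut_le_one D a)
  ψ_le := fun _ => le_rfl

/-- semi-inclusive frame: only the elements of the middle third have doubled roles -/
lemma adm_semi (D : ℤ) : Adm D (fun x => if D ≤ x then cut D x else 0)
    (fun x => if x ≤ 2 * D then 1 - cut D x else 0) where
  φ_nonneg := fun a => by split_ifs; exacts [cut_nonneg D a, le_rfl]
  φ_le := fun a => by split_ifs; exacts [le_rfl, cut_nonneg D a]
  ψ_nonneg := fun a => by split_ifs; exacts [sub_nonneg.2 (cut_le_one D a), le_rfl]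
  ψ_le := fun a => by split_ifs; exacts [le_rfl, sub_nonneg.2 (cut_le_one D a)]

/-- all labels of nonzero weight are at most `(3D-3)/2`, i.e. `6K` for `D = 4K+1` -/
lemma label_le {A : Finset ℤ} {D K : ℤ} (hD : D = 4 * K + 1) (φ1 ψ1 : ℤ → ℝ) :
    ∀ a ∈ (PP A (cut D) φ1 D).S, ∀ b ∈ (QQ A (cut D) ψ1 D).S,
      (PP A (cut D) φ1 D).f a * (QQ A (cut D) ψ1 D).f b ≠ 0 →
      (PP A (cut D) φ1 D).u a ≤ 2 * K ∧ (QQ A (cut D) ψ1 D).u b ≤ 2 * K := by
  intro a _ b _ h0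
  simp only [PP, QQ] at h0 ⊢
  have h1 : cut D a ≠ 0 := fun h => h0 (by rw [h, zero_mul])
  have h2 : 1 - cut D b ≠ 0 := fun h => h0 (by rw [h, mul_zero])
  unfold cut at h1 h2
  constructor
  · by_contra hlt
    apply h1
    rw [if_neg]
    omega
  · by_contra hlt
    apply h2
    rw [if_pos]
    · norm_num
    · omega

/-- all terms of the identity except the main one -/
def rest (P Q : WS) (K : ℤ) : ℝ :=
  side0 P Q (4 * K + 1) K (K - 1) 1 + side0 Q P (4 * K + 1) K (K - 1) 1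
    + waste P Q (4 * K + 1) K (K - 1) 1 + waste Q P (4 * K + 1) K (K - 1) 1

/-- the budget -/
def budget (P Q : WS) (K : ℤ) : ℝ := 2 * K + nn P 2 + nn Q 2

/-- the identity in the frame `D = 4K+1` -/
theorem main_id (A : Finset ℤ) {D K : ℤ} (hK : 0 ≤ K) (hD : D = 4 * K + 1) (φ1 ψ1 : ℤ → ℝ) :
    (3 * K + 1 - mass (PP A (cut D) φ1 D) * mass (QQ A (cut D) ψ1 D))
        * budget (PP A (cut D) φ1 D) (QQ A (cut D) ψ1 D) K
      + rest (PP A (cut D) φ1 D) (QQ A (cut D) ψ1 D) K = 0 := by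
  have h := gid (PP A (cut D) φ1 D) (QQ A (cut D) ψ1 D) (D := D) (K := K) (T := K - 1) (ρ := 1)
    (σ := 1) hK (by omega) (by omega) (by omega) (by norm_num) (by norm_num) (by omega)
    (fun a ha b hb h0 => by
      have := label_le hD φ1 ψ1 a ha b hb h0
      omega)
    (fun a ha b hb h0 => by
      have := label_le hD φ1 ψ1 a ha b hb h0
      omega)
  unfold rest budget
  subst hD
  push_cast at h ⊢
  norm_num at h ⊢
  linarith

/-- ASSEMBLY. `A` is a finite set, `D = 4K+1`, `K ≥ 1`. If the remaining terms are at least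
`-((l-r)^2/4 + E) * budget` then `3D+1 ≤ |A|^2 + 4E`. -/
theorem of_rest (A : Finset ℤ) {D K : ℤ} (hK : 1 ≤ K) (hD : D = 4 * K + 1) {φ1 ψ1 : ℤ → ℝ}
    (h : Adm D φ1 ψ1) (E : ℝ)
    (hE : -(((mass (PP A (cut D) φ1 D) - mass (QQ A (cut D) ψ1 D)) ^ 2 / 4 + E)
        * budget (PP A (cut D) φ1 D) (QQ A (cut D) ψ1 D) K)
      ≤ rest (PP A (cut D) φ1 D) (QQ A (cut D) ψ1 D) K) :
    (3 * D + 1 : ℝ) ≤ (A.card : ℝ) ^ 2 + 4 * E := by
  have h1 := main_id A (by omega : 0 ≤ K) hD φ1 ψ1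
  have h2 := mass_add A (cut D) φ1 ψ1 D
  set P := PP A (cut D) φ1 D with hP
  set Q := QQ A (cut D) ψ1 D with hQ
  have h3 : 0 < budget P Q K := by
    unfold budget
    have a1 := nn_nonneg (goodP (A := A) h) 2
    have a2 := nn_nonneg (goodQ (A := A) h) 2
    have a3 : (1:ℝ) ≤ K := by exact_mod_cast hK
    rw [← hP] at a1
    rw [← hQ] at a2
    linarith
  have h4 : (3 * K + 1 - mass P * mass Q - ((mass P - mass Q) ^ 2 / 4 + E)) * budget P Q K
      ≤ 0 := by linarith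
  have h5 : 3 * (K:ℝ) + 1 - mass P * mass Q - ((mass P - mass Q) ^ 2 / 4 + E) ≤ 0 := by
    by_contra hc
    push Not at hc
    have := mul_pos hc h3
    linarith
  have h6 : (D : ℝ) = 4 * K + 1 := by exact_mod_cast hD
  rw [← h2, h6]
  nlinarith

/-- coverage on the right, with the exact list of the external labels -/
lemma coversR {A : Finset ℤ} {X : ℤ → Prop} {D : ℤ} (h : Cov A X (3 * D + 1)) (φ φ1 ψ1 : ℤ → ℝ) :
    Covers (PP A φ φ1 D) (QQ A φ ψ1 D) D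
      (fun s => extraR A φ ψ1 D s + ind X (3 * D - s)) :=
  fun _ h0 h1 => covered_right h (by linarith) φ φ1 ψ1 h0 h1

/-- coverage on the left, with the exact list of the external labels -/
lemma coversL {A : Finset ℤ} {X : ℤ → Prop} {D : ℤ} (h : Cov A X (3 * D + 1)) (φ φ1 ψ1 : ℤ → ℝ) :
    Covers (QQ A φ ψ1 D) (PP A φ φ1 D) D
      (fun s => extraL A φ φ1 s + ind X s) :=
  fun _ h0 h1 => covered_left h (by linarith) φ φ1 ψ1 h0 h1

/-- FINAL REDUCTION. `A` is maximal 3-free in `{1..n}`, `|A|^2 < n`. It suffices to have, for some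
constant `C` and all large `t`, the inequality for the rest in SOME admissible frame. -/
theorem finish {n : ℕ} {A : Finset ℕ} (h : IsMaximalThreeFree n A) {C : ℝ} (t0 : ℕ)
    (hrest : A.card ^ 2 < n → ∀ t : ℕ, t0 ≤ t → ∀ D K : ℤ, 1 ≤ K → D = 4 * K + 1 →
      3 * D + 1 ≤ 4 ^ t * (n : ℤ) → 4 ^ t * (n : ℤ) ≤ 3 * D + 12 →
      Cov (liftN t (shift A)) (fun y => Mid (shift A) (y / 4 ^ t)) (3 * D + 1) →
      ∃ φ1 ψ1 : ℤ → ℝ, Adm D φ1 ψ1 ∧
      -(((mass (PP (liftN t (shift A)) (cut D) φ1 D)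
            - mass (QQ (liftN t (shift A)) (cut D) ψ1 D)) ^ 2 / 4 + C * 2 ^ t)
        * budget (PP (liftN t (shift A)) (cut D) φ1 D) (QQ (liftN t (shift A)) (cut D) ψ1 D) K)
      ≤ rest (PP (liftN t (shift A)) (cut D) φ1 D) (QQ (liftN t (shift A)) (cut D) ψ1 D) K) :
    n ≤ A.card ^ 2 := by
  by_contra hlt
  push Not at hlt
  apply absurd _ (not_le.2 hlt)
  obtain ⟨B, hB⟩ : ∃ B : ℤ, 4 * C ≤ B := ⟨⌈4 * C⌉, Int.le_ceil _⟩
  apply reduction3 h (C := max B (max 16 (4 ^ t0 * n)))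
  intro t ht D hD1 hD2 hD3 hD4 hcov
  have hC1 : B ≤ max B (max 16 (4 ^ t0 * (n:ℤ))) := le_max_left _ _
  have hC2 : (16:ℤ) ≤ max B (max 16 (4 ^ t0 * (n:ℤ))) :=
    (le_max_left _ _).trans (le_max_right _ _)
  have hC3 : 4 ^ t0 * (n:ℤ) ≤ max B (max 16 (4 ^ t0 * (n:ℤ))) :=
    (le_max_right _ _).trans (le_max_right _ _)
  set CC : ℤ := max B (max 16 (4 ^ t0 * (n:ℤ))) with hCC
  have h2 : (1:ℤ) ≤ 2 ^ t := one_le_pow₀ (by norm_num)
  have hCC0 : 0 ≤ CC := by linarith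
  have h2' : CC ≤ CC * 2 ^ t := le_mul_of_one_le_right hCC0 h2
  have hsq : (0:ℤ) ≤ ((liftN t (shift A)).card : ℤ) ^ 2 := by positivity
  by_cases ht0 : t0 ≤ t
  · obtain ⟨K, hK⟩ : ∃ K : ℤ, D = 4 * K + 1 := ⟨D / 4, by omega⟩
    by_cases hK1 : 1 ≤ K
    · obtain ⟨φ1, ψ1, hadm, hr⟩ := hrest hlt t ht0 D K hK1 hK hD3 hD4 hcov
      have h3 := of_rest (liftN t (shift A)) hK1 hK hadm _ hr
      have h4 : (4 * (C * 2 ^ t) : ℝ) ≤ CC * 2 ^ t := by
        have e1 : (0:ℝ) ≤ 2 ^ t := by positivity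
        have e2 : 4 * C ≤ CC := hB.trans (by exact_mod_cast hC1)
        calc (4 * (C * 2 ^ t) : ℝ) = (4 * C) * 2 ^ t := by ring
          _ ≤ CC * 2 ^ t := mul_le_mul_of_nonneg_right e2 e1
      have h5 : (3 * D + 1 : ℝ) ≤ ((liftN t (shift A)).card : ℝ) ^ 2 + CC * 2 ^ t := by linarith
      exact_mod_cast h5
    · have : D = 1 := by omega
      subst this
      linarith
  · push Not at ht0
    have e1 : (4:ℤ) ^ t ≤ 4 ^ t0 := pow_le_pow_right₀ (by norm_num) ht0.le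
    have e2 : (4:ℤ) ^ t * n ≤ 4 ^ t0 * n := mul_le_mul_of_nonneg_right e1 (by positivity)
    linarith

end

end MP61673a.Fin
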