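import Pool.Agent.Mu673.PW

/-!
Third pointwise bound for a useless pair (helper65): the tuples of `KK` have a large label on the
other side, so the far coverage of the other side applies.
-/

namespace MP61673a.W

open Finset

noncomputable section

/-- third pointwise bound: the label `u b + 2 u a` of a tuple of `KK` is large -/
lemma KK_le_dd' {P Q : WS} (hP : Good P) (hQ : Good Q) (K ρ x y : ℤ) :
    KK P Q K ρ x y ≤ dd Q P (K + 2 + 2 * ρ + 4 * x + 2 * y) := by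
  unfold KK dd
  rw [sum_comm]
  refine sum_le_sum fun b hb => sum_le_sum fun a ha => ?_
  have h1 := mul_nonneg (hP.f_nonneg a ha) (hQ.f_nonneg b hb)
  have h2 : Q.f b * P.f a = P.f a * Q.f b := mul_comm _ _
  rw [h2]
  exact ite_le_ite h1 (fun h => by omega)

/-- (PW) third bound -/
theorem pw3 {P Q : WS} (hP : Good P) (hQ : Good Q) {D K T ρ : ℤ} {ξL : ℤ → ℝ}
    (hL : Covers Q P D ξL) (hρ : 0 ≤ ρ) (hρD : ρ ≤ D) {x y : ℤ}
    (h0 : 0 ≤ K + 2 + 2 * ρ + 4 * x + 2 * y) (h1 : K + 2 + 2 * ρ + 4 * x + 2 * y ≤ D) :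
    (T + 1 + D - ρ - 2 * (mass P * mass Q)) + (K + 2 + 2 * ρ + 4 * x + 2 * y)
        + cc Q P 0 + nn P (D + 1) - nn P (D - 1 - K - 2 * ρ - 4 * x - 2 * y)
        - ext ξL (K + 2 + 2 * ρ + 4 * x + 2 * y)
        + cc Q P 0 + nn P (D + 1) + dd Q P (D - ρ) - ext ξL (D - ρ)
      ≤ T + 1 + nn P (1 + ρ) - KK P Q K ρ x y := by
  have e1 := KK_le_dd' hP hQ K ρ x y
  have e2 := nn_ge hL hρ hρD
  have e3 := dd_le hL h0 h1
  rw [show ρ + 1 = 1 + ρ by ring] at e2
  rw [show D + 1 - (K + 2 + 2 * ρ + 4 * x + 2 * y) = D - 1 - K - 2 * ρ - 4 * x - 2 * y by ring]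
    at e3
  have h6 : mass Q * mass P = mass P * mass Q := mul_comm _ _
  rw [h6] at e2 e3
  push_cast at e3 ⊢
  linarith

end

end MP61673a.W
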