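import Pool.Agent.Mu673.GidE
import Pool.Agent.Mu673.PW3

/-!
K-form of one side in the shifted frame (cap `T+1`): cost tuples have
`u a - 2 u a1 ≥ 1+ρ` and `u b - 2 u b1 ≥ K-T`.
-/

namespace MP61673a.W

open Finset

noncomputable section

/-- cost tuples of a pair of doubled positions `x`, `y` -/
def KKE (P Q : WS) (K T ρ x y : ℤ) : ℝ :=
  ∑ a ∈ P.S, ∑ b ∈ Q.S, if (1 + ρ ≤ P.u a - 2 * x ∧ K - T ≤ Q.u b - 2 * y) ∧
    2 * K + 1 + ρ + 2 * (x + 2 * y) ≤ P.u a + 2 * Q.u b then P.f a * Q.f b else 0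

/-- the other tuples of a pair of doubled positions `x`, `y` -/
def KCE (P Q : WS) (K T ρ x y : ℤ) : ℝ :=
  ∑ a ∈ P.S, ∑ b ∈ Q.S, if ¬ (1 + ρ ≤ P.u a - 2 * x ∧ K - T ≤ Q.u b - 2 * y) ∧
    2 * K + 1 + ρ + 2 * (x + 2 * y) ≤ P.u a + 2 * Q.u b then P.f a * Q.f b else 0

lemma ite_split (p q : Prop) [Decidable p] [Decidable q] (x : ℝ) :
    (if p ∧ q then x else 0) + (if ¬p ∧ q then x else 0) = if q then x else 0 := by
  by_cases h : p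
  · simp [h]
  · simp [h]

lemma KKE_add_KCE (P Q : WS) (K T ρ x y : ℤ) :
    KKE P Q K T ρ x y + KCE P Q K T ρ x y = dd P Q (2 * K + 1 + ρ + 2 * (x + 2 * y)) := by
  unfold KKE KCE dd
  rw [← sum_add_distrib]
  refine sum_congr rfl fun a _ => ?_
  rw [← sum_add_distrib]
  refine sum_congr rfl fun b _ => ?_
  exact ite_split _ _ _

lemma KKE_nonneg {P Q : WS} (hP : Good P) (hQ : Good Q) (K T ρ x y : ℤ) :
    0 ≤ KKE P Q K T ρ x y :=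
  sum_nonneg fun a ha => sum_nonneg fun b hb =>
    ite_nonneg' (mul_nonneg (hP.f_nonneg a ha) (hQ.f_nonneg b hb))

lemma KCE_nonneg {P Q : WS} (hP : Good P) (hQ : Good Q) (K T ρ x y : ℤ) :
    0 ≤ KCE P Q K T ρ x y :=
  sum_nonneg fun a ha => sum_nonneg fun b hb =>
    ite_nonneg' (mul_nonneg (hP.f_nonneg a ha) (hQ.f_nonneg b hb))

/-- the two `PP` terms of `side0E` are exactly the complementary tuples -/
lemma reg23E (P Q : WS) (K T ρ : ℤ) :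
    ∑ a ∈ P.S, ∑ a1 ∈ P.S, (if P.u a - 2 * P.u a1 < 1 + ρ then
          P.f a * P.f1 a1 * nn Q (K + 1 - yy P ρ a a1) else 0)
        + pp P ρ (fun y => nn Q (K + 1 - y) - nn Q (K + 1 - min y (T + 1)))
      = ∑ a1 ∈ P.S, ∑ b1 ∈ Q.S, P.f1 a1 * Q.f1 b1 * KCE P Q K T ρ (P.u a1) (Q.u b1) := by
  have h1 : ∑ a1 ∈ P.S, ∑ b1 ∈ Q.S, P.f1 a1 * Q.f1 b1 * KCE P Q K T ρ (P.u a1) (Q.u b1)
      = ∑ a1 ∈ P.S, ∑ b1 ∈ Q.S, ∑ a ∈ P.S, ∑ b ∈ Q.S,
        if ¬ (1 + ρ ≤ P.u a - 2 * P.u a1 ∧ K - T ≤ Q.u b - 2 * Q.u b1) ∧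
          2 * K + 1 + ρ + 2 * (P.u a1 + 2 * Q.u b1) ≤ P.u a + 2 * Q.u b then
          P.f1 a1 * Q.f1 b1 * (P.f a * Q.f b) else 0 := by
    refine sum_congr rfl fun a1 _ => sum_congr rfl fun b1 _ => ?_
    unfold KCE
    rw [mul_sum]
    refine sum_congr rfl fun a _ => ?_
    rw [mul_sum]
    refine sum_congr rfl fun b _ => ?_
    rw [mul_ite']
  have h2 : ∑ a ∈ P.S, ∑ a1 ∈ P.S, (if P.u a - 2 * P.u a1 < 1 + ρ then
          P.f a * P.f1 a1 * nn Q (K + 1 - yy P ρ a a1) else 0)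
        + pp P ρ (fun y => nn Q (K + 1 - y) - nn Q (K + 1 - min y (T + 1)))
      = ∑ a ∈ P.S, ∑ a1 ∈ P.S, ∑ b ∈ Q.S, ∑ b1 ∈ Q.S,
        if ¬ (1 + ρ ≤ P.u a - 2 * P.u a1 ∧ K - T ≤ Q.u b - 2 * Q.u b1) ∧
          2 * K + 1 + ρ + 2 * (P.u a1 + 2 * Q.u b1) ≤ P.u a + 2 * Q.u b then
          P.f1 a1 * Q.f1 b1 * (P.f a * Q.f b) else 0 := by
    unfold pp
    simp only [← sum_add_distrib]
    refine sum_congr rfl fun a _ => sum_congr rfl fun a1 _ => ?_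
    by_cases c : P.u a - 2 * P.u a1 < 1 + ρ
    · rw [if_pos c, if_neg (by omega), add_zero]
      unfold nn yy
      rw [mul_sum]
      refine sum_congr rfl fun b _ => ?_
      rw [mul_sum]
      refine sum_congr rfl fun b1 _ => ?_
      rw [mul_ite']
      split_ifs <;> first | omega | ring
    · rw [if_neg c, if_pos (by omega), zero_add]
      unfold nn yy
      rw [← sum_sub_distrib, mul_sum]
      refine sum_congr rfl fun b _ => ?_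
      rw [← sum_sub_distrib, mul_sum]
      refine sum_congr rfl fun b1 _ => ?_
      split_ifs <;> first | omega | ring
  rw [h1, h2]
  have h3 : ∀ F : P.ι → P.ι → Q.ι → Q.ι → ℝ,
      ∑ a ∈ P.S, ∑ a1 ∈ P.S, ∑ b ∈ Q.S, ∑ b1 ∈ Q.S, F a a1 b b1
        = ∑ a1 ∈ P.S, ∑ b1 ∈ Q.S, ∑ a ∈ P.S, ∑ b ∈ Q.S, F a a1 b b1 := by
    intro F
    rw [sum_comm]
    refine sum_congr rfl fun a1 _ => ?_
    exact sum3_comm (fun a b b1 => F a a1 b b1)
  exact h3 _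

/-- the deep bracket of one side, cap `T+1` -/
def deepE (P Q : WS) (D K T ρ : ℤ) : ℝ :=
  pp P ρ (fun y => dd P Q (D - K + min y (T + 1)))
    - ∑ g ∈ Ico (T + 1) D, dd P Q (2 * K + 1 + ρ + 2 * g)

/-- EXACT K-FORM of one side, cap `T+1` -/
theorem side0E_K (P Q : WS) (D K T ρ : ℤ) :
    side0E P Q D K T ρ
      = (T + 1 + nn P (1 + ρ)) * (cc P Q 0 + nn Q (D + 1))
        - ∑ a ∈ P.S, ∑ b ∈ Q.S, P.f1 a * Q.f1 b * (if P.u a + 2 * Q.u b < 0 then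
            KKE P Q K T ρ (P.u a) (Q.u b) else 0)
        + ∑ a ∈ P.S, ∑ b ∈ Q.S, P.f1 a * Q.f1 b * (if 0 ≤ P.u a + 2 * Q.u b then
            KCE P Q K T ρ (P.u a) (Q.u b) else 0)
        + ∑ a ∈ P.S, ∑ b ∈ Q.S, (P.f a * Q.f b - P.f1 a * Q.f1 b)
            * (if 0 ≤ P.u a + 2 * Q.u b then
            dd P Q (2 * K + 1 + ρ + 2 * (P.u a + 2 * Q.u b)) else 0)
        + ∑ s ∈ Ico 0 D, qq Q (D - s) * dd P Q (2 * K + 1 + ρ + 2 * s)
        + deepE P Q D K T ρ := by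
  have h1 := reg23E P Q K T ρ
  have h2 : ∑ a ∈ P.S, ∑ b ∈ Q.S, P.f1 a * Q.f1 b * (if P.u a + 2 * Q.u b < 0 then
            dd P Q (2 * K + 1 + ρ + 2 * (P.u a + 2 * Q.u b)) else 0)
      = ∑ a ∈ P.S, ∑ b ∈ Q.S, P.f1 a * Q.f1 b * (if P.u a + 2 * Q.u b < 0 then
            KKE P Q K T ρ (P.u a) (Q.u b) else 0)
        - ∑ a ∈ P.S, ∑ b ∈ Q.S, P.f1 a * Q.f1 b * (if 0 ≤ P.u a + 2 * Q.u b then
            KCE P Q K T ρ (P.u a) (Q.u b) else 0)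
        + ∑ a1 ∈ P.S, ∑ b1 ∈ Q.S, P.f1 a1 * Q.f1 b1 * KCE P Q K T ρ (P.u a1) (Q.u b1) := by
    simp only [← sum_sub_distrib, ← sum_add_distrib]
    refine sum_congr rfl fun a _ => sum_congr rfl fun b _ => ?_
    have h3 := KKE_add_KCE P Q K T ρ (P.u a) (Q.u b)
    by_cases c : P.u a + 2 * Q.u b < 0
    · rw [if_pos c, if_pos c, if_neg (by omega), ← h3]
      ring
    · rw [if_neg c, if_neg c, if_pos (by omega)]
      ring
  unfold side0E deepE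
  linarith

/-- first pointwise bound -/
lemma KKE_le_prod {P Q : WS} (hP : Good P) (hQ : Good Q) (K T ρ x y : ℤ) :
    KKE P Q K T ρ x y ≤ ge P (2 * x + 1 + ρ) * ge Q (2 * y + K - T) := by
  unfold KKE ge
  rw [sum_mul_sum]
  refine sum_le_sum fun a ha => sum_le_sum fun b hb => ?_
  have h1 := hP.f_nonneg a ha
  have h2 := hQ.f_nonneg b hb
  by_cases c : (1 + ρ ≤ P.u a - 2 * x ∧ K - T ≤ Q.u b - 2 * y) ∧
    2 * K + 1 + ρ + 2 * (x + 2 * y) ≤ P.u a + 2 * Q.u b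
  · rw [if_pos c, if_pos (by omega), if_pos (by omega)]
  · rw [if_neg c]
    exact mul_nonneg (ite_nonneg' h1) (ite_nonneg' h2)

/-- second pointwise bound -/
lemma KKE_le_dd {P Q : WS} (hP : Good P) (hQ : Good Q) (K T ρ x y : ℤ) :
    KKE P Q K T ρ x y ≤ dd P Q (2 * K + 1 + ρ + 2 * (x + 2 * y)) := by
  rw [← KKE_add_KCE P Q K T]
  have := KCE_nonneg hP hQ K T ρ x y
  linarith

/-- third pointwise bound (helper65) -/
lemma KKE_le_dd' {P Q : WS} (hP : Good P) (hQ : Good Q) (K T ρ x y : ℤ) :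
    KKE P Q K T ρ x y ≤ dd Q P (K + 2 + 2 * ρ + 4 * x + 2 * y) := by
  unfold KKE dd
  rw [sum_comm]
  refine sum_le_sum fun b hb => sum_le_sum fun a ha => ?_
  have h1 := mul_nonneg (hP.f_nonneg a ha) (hQ.f_nonneg b hb)
  have h2 : Q.f b * P.f a = P.f a * Q.f b := mul_comm _ _
  rw [h2]
  exact ite_le_ite h1 (fun h => by omega)

/-- in the shifted frame the cost is at most the cost with `K - T = 1` -/
lemma KKE_le_KK {P Q : WS} (hP : Good P) (hQ : Good Q) {K T : ℤ} (hTK : T < K) (ρ x y : ℤ) :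
    KKE P Q K T ρ x y ≤ KK P Q K ρ x y := by
  unfold KKE KK
  refine sum_le_sum fun a ha => sum_le_sum fun b hb => ?_
  have h0 := mul_nonneg (hP.f_nonneg a ha) (hQ.f_nonneg b hb)
  by_cases c : (1 + ρ ≤ P.u a - 2 * x ∧ K - T ≤ Q.u b - 2 * y) ∧
    2 * K + 1 + ρ + 2 * (x + 2 * y) ≤ P.u a + 2 * Q.u b
  · rw [if_pos c, if_pos ⟨⟨c.1.1, by omega⟩, c.2⟩]
  · rw [if_neg c]
    exact ite_nonneg' h0

/-- (PW) first bound in the shifted frame -/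
theorem pw1E {P Q : WS} (hP : Good P) (hQ : Good Q) {D K T ρ : ℤ} {ξL : ℤ → ℝ}
    (hL : Covers Q P D ξL) (hρ : 0 ≤ ρ) (hρD : ρ ≤ D) (x y : ℤ) :
    (T + 1 + D - ρ - 2 * (mass P * mass Q)) + mass Q * lt P (2 * x + 1 + ρ)
        + ge P (2 * x + 1 + ρ) * lt Q (2 * y + K - T)
        + cc Q P 0 + nn P (D + 1) + dd Q P (D - ρ) - ext ξL (D - ρ)
      ≤ T + 1 + nn P (1 + ρ) - KKE P Q K T ρ x y := by
  have h1 := KKE_le_prod hP hQ K T ρ x y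
  have h2 := nn_ge hL hρ hρD
  have h3 := lt_add_ge P (2 * x + 1 + ρ)
  have h4 := lt_add_ge Q (2 * y + K - T)
  rw [show ρ + 1 = 1 + ρ by ring] at h2
  have h5 : ge P (2 * x + 1 + ρ) * ge Q (2 * y + K - T)
      = mass P * mass Q - mass Q * lt P (2 * x + 1 + ρ)
        - ge P (2 * x + 1 + ρ) * lt Q (2 * y + K - T) := by
    rw [← h3, ← h4]
    ring
  have h6 : mass Q * mass P = mass P * mass Q := mul_comm _ _
  rw [h6] at h2
  linarith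

/-- (PW) second bound in the shifted frame -/
theorem pw2E {P Q : WS} (hP : Good P) (hQ : Good Q) {D K T ρ : ℤ} {ξR ξL : ℤ → ℝ}
    (hR : Covers P Q D ξR) (hL : Covers Q P D ξL) (hρ : 0 ≤ ρ) (hρD : ρ ≤ D) {x y : ℤ}
    (h0 : 0 ≤ 2 * K + 1 + ρ + 2 * (x + 2 * y)) (h1 : 2 * K + 1 + ρ + 2 * (x + 2 * y) ≤ D) :
    (T + 1 + D - ρ - 2 * (mass P * mass Q)) + (2 * K + 1 + ρ + 2 * (x + 2 * y))
        + cc P Q 0 + nn Q (D + 1) - nn Q (D - 2 * K - ρ - 2 * (x + 2 * y))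
        - ext ξR (2 * K + 1 + ρ + 2 * (x + 2 * y))
        + cc Q P 0 + nn P (D + 1) + dd Q P (D - ρ) - ext ξL (D - ρ)
      ≤ T + 1 + nn P (1 + ρ) - KKE P Q K T ρ x y := by
  have e1 := KKE_le_dd hP hQ K T ρ x y
  have e2 := nn_ge hL hρ hρD
  have e3 := dd_le hR h0 h1
  rw [show ρ + 1 = 1 + ρ by ring] at e2
  rw [show D + 1 - (2 * K + 1 + ρ + 2 * (x + 2 * y)) = D - 2 * K - ρ - 2 * (x + 2 * y) by ring]
    at e3
  have h6 : mass Q * mass P = mass P * mass Q := mul_comm _ _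
  rw [h6] at e2
  push_cast at e3 ⊢
  linarith

end

end MP61673a.W
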