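import Pool.Agent.Mu673.Fin
import Pool.Agent.Mu673.PWE

/-!
Assembly in the shifted frame: centre cut, `D = 4K+1`, `T = K-ρ`, `σ = ρ`, any `1 ≤ ρ ≤ K`.
-/

namespace MP61673a.Fin

open Finset MP61673a.W MP61673a.LiftW
open MP61673a.Lift hiding PP QQ

noncomputable section

/-- all terms of the identity except the main one, shifted frame -/
def restE (P Q : WS) (K ρ : ℤ) : ℝ :=
  side0E P Q (4 * K + 1) K (K - ρ) ρ + side0E Q P (4 * K + 1) K (K - ρ) ρ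
    + wasteE P Q (4 * K + 1) K (K - ρ) ρ + wasteE Q P (4 * K + 1) K (K - ρ) ρ

/-- the budget, shifted frame -/
def budgetE (P Q : WS) (K ρ : ℤ) : ℝ := 2 * (K - ρ + 1) + nn P (1 + ρ) + nn Q (1 + ρ)

/-- the identity in the shifted frame -/
theorem main_idE (A : Finset ℤ) {D K ρ : ℤ} (hρ : 1 ≤ ρ) (hρK : ρ ≤ K) (hD : D = 4 * K + 1)
    (φ1 ψ1 : ℤ → ℝ) :
    (3 * K + 1 - mass (PP A (cut D) φ1 D) * mass (QQ A (cut D) ψ1 D))
        * budgetE (PP A (cut D) φ1 D) (QQ A (cut D) ψ1 D) K ρ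
      + restE (PP A (cut D) φ1 D) (QQ A (cut D) ψ1 D) K ρ = 0 := by
  have h := gidE (PP A (cut D) φ1 D) (QQ A (cut D) ψ1 D) (D := D) (K := K) (T := K - ρ) (ρ := ρ)
    (σ := ρ) (by omega) (by omega) (by omega) (by omega) (by omega) (by omega) (by omega)
    (fun a ha b hb h0 => by
      have := label_le hD φ1 ψ1 a ha b hb h0
      omega)
    (fun a ha b hb h0 => by
      have := label_le hD φ1 ψ1 a ha b hb h0
      omega)
  unfold restE budgetE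
  subst hD
  push_cast at h ⊢
  linarith

/-- ASSEMBLY, shifted frame -/
theorem of_restE (A : Finset ℤ) {D K ρ : ℤ} (hρ : 1 ≤ ρ) (hρK : ρ ≤ K) (hD : D = 4 * K + 1)
    {φ1 ψ1 : ℤ → ℝ} (h : Adm D φ1 ψ1) (E : ℝ)
    (hE : -(((mass (PP A (cut D) φ1 D) - mass (QQ A (cut D) ψ1 D)) ^ 2 / 4 + E)
        * budgetE (PP A (cut D) φ1 D) (QQ A (cut D) ψ1 D) K ρ)
      ≤ restE (PP A (cut D) φ1 D) (QQ A (cut D) ψ1 D) K ρ) :
    (3 * D + 1 : ℝ) ≤ (A.card : ℝ) ^ 2 + 4 * E := by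
  have h1 := main_idE A hρ hρK hD φ1 ψ1
  have h2 := mass_add A (cut D) φ1 ψ1 D
  set P := PP A (cut D) φ1 D with hP
  set Q := QQ A (cut D) ψ1 D with hQ
  have h3 : 0 < budgetE P Q K ρ := by
    unfold budgetE
    have a1 := nn_nonneg (goodP (A := A) h) (1 + ρ)
    have a2 := nn_nonneg (goodQ (A := A) h) (1 + ρ)
    have a3 : (ρ:ℝ) ≤ K := by exact_mod_cast hρK
    rw [← hP] at a1
    rw [← hQ] at a2
    linarith
  have h4 : (3 * K + 1 - mass P * mass Q - ((mass P - mass Q) ^ 2 / 4 + E)) * budgetE P Q K ρ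
      ≤ 0 := by linarith
  have h5 : 3 * (K:ℝ) + 1 - mass P * mass Q - ((mass P - mass Q) ^ 2 / 4 + E) ≤ 0 := by
    by_contra hc
    push Not at hc
    have := mul_pos hc h3
    linarith
  have h6 : (D : ℝ) = 4 * K + 1 := by exact_mod_cast hD
  rw [← h2, h6]
  nlinarith

/-- FINAL REDUCTION, shifted frame: `ρ` may be chosen freely for every `t`. -/
theorem finishE {n : ℕ} {A : Finset ℕ} (h : IsMaximalThreeFree n A) {C : ℝ} (t0 : ℕ)
    (hrest : A.card ^ 2 < n → ∀ t : ℕ, t0 ≤ t → ∀ D K : ℤ, 1 ≤ K → D = 4 * K + 1 →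
      3 * D + 1 ≤ 4 ^ t * (n : ℤ) → 4 ^ t * (n : ℤ) ≤ 3 * D + 12 →
      Cov (liftN t (shift A)) (fun y => Mid (shift A) (y / 4 ^ t)) (3 * D + 1) →
      ∃ (ρ : ℤ) (φ1 ψ1 : ℤ → ℝ), 1 ≤ ρ ∧ ρ ≤ K ∧ Adm D φ1 ψ1 ∧
      -(((mass (PP (liftN t (shift A)) (cut D) φ1 D)
            - mass (QQ (liftN t (shift A)) (cut D) ψ1 D)) ^ 2 / 4 + C * 2 ^ t)
        * budgetE (PP (liftN t (shift A)) (cut D) φ1 D) (QQ (liftN t (shift A)) (cut D) ψ1 D) K ρ)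
      ≤ restE (PP (liftN t (shift A)) (cut D) φ1 D) (QQ (liftN t (shift A)) (cut D) ψ1 D) K ρ) :
    n ≤ A.card ^ 2 := by
  by_contra hlt
  push Not at hlt
  apply absurd _ (not_le.2 hlt)
  obtain ⟨B, hB⟩ : ∃ B : ℤ, 4 * C ≤ B := ⟨⌈4 * C⌉, Int.le_ceil _⟩
  apply reduction3 h (C := max B (max 16 (4 ^ t0 * n)))
  intro t ht D hD1 hD2 hD3 hD4 hcov
  have hC1 : B ≤ max B (max 16 (4 ^ t0 * (n:ℤ))) := le_max_left _ _
  have hC2 : (16:ℤ) ≤ max B (max 16 (4 ^ t0 * (n:ℤ))) :=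
    (le_max_left _ _).trans (le_max_right _ _)
  have hC3 : 4 ^ t0 * (n:ℤ) ≤ max B (max 16 (4 ^ t0 * (n:ℤ))) :=
    (le_max_right _ _).trans (le_max_right _ _)
  set CC : ℤ := max B (max 16 (4 ^ t0 * (n:ℤ))) with hCC
  have h2 : (1:ℤ) ≤ 2 ^ t := one_le_pow₀ (by norm_num)
  have hCC0 : 0 ≤ CC := by linarith
  have h2' : CC ≤ CC * 2 ^ t := le_mul_of_one_le_right hCC0 h2
  have hsq : (0:ℤ) ≤ ((liftN t (shift A)).card : ℤ) ^ 2 := by positivity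
  by_cases ht0 : t0 ≤ t
  · obtain ⟨K, hK⟩ : ∃ K : ℤ, D = 4 * K + 1 := ⟨D / 4, by omega⟩
    by_cases hK1 : 1 ≤ K
    · obtain ⟨ρ, φ1, ψ1, hρ, hρK, hadm, hr⟩ := hrest hlt t ht0 D K hK1 hK hD3 hD4 hcov
      have h3 := of_restE (liftN t (shift A)) hρ hρK hK hadm _ hr
      have h4 : (4 * (C * 2 ^ t) : ℝ) ≤ CC * 2 ^ t := by
        have e1 : (0:ℝ) ≤ 2 ^ t := by positivity
        have e2 : 4 * C ≤ CC := hB.trans (by exact_mod_cast hC1)
        calc (4 * (C * 2 ^ t) : ℝ) = (4 * C) * 2 ^ t := by ring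
          _ ≤ CC * 2 ^ t := mul_le_mul_of_nonneg_right e2 e1
      have h5 : (3 * D + 1 : ℝ) ≤ ((liftN t (shift A)).card : ℝ) ^ 2 + CC * 2 ^ t := by linarith
      exact_mod_cast h5
    · have : D = 1 := by omega
      subst this
      linarith
  · push Not at ht0
    have e1 : (4:ℤ) ^ t ≤ 4 ^ t0 := pow_le_pow_right₀ (by norm_num) ht0.le
    have e2 : (4:ℤ) ^ t * n ≤ 4 ^ t0 * n := mul_le_mul_of_nonneg_right e1 (by positivity)
    linarith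

end

end MP61673a.Fin
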