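import Pool.Agent.Mu673.Nets

/-!
Final reduction of `n ≤ |A|^2` to the inequality per stray `(PS)` in the hybrid frame.
-/

namespace MP61673a.Fin

open Finset MP61673a.W MP61673a.LiftW MP61673a.Mids
open MP61673a.Lift hiding PP QQ

noncomputable section

/-- weighted number of the strays of `Q` -/
def strayC (Q : WS) (c : ℤ → ℝ) : ℝ :=
  ∑ b ∈ Q.S, Q.f b * (if Q.u b < 0 then c (-Q.u b) else 0)

lemma strayC_nonneg {Q : WS} (hQ : Good Q) {c : ℤ → ℝ} (hc : ∀ t, 0 ≤ c t) : 0 ≤ strayC Q c :=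
  sum_nonneg fun b hb => mul_nonneg (hQ.f_nonneg b hb) (ite_nonneg' (hc _))

lemma strayC_ge {Q : WS} (hQ : Good Q) {c nR : ℤ → ℝ} {x e : ℝ} (he : 0 ≤ e)
    (h : ∀ b ∈ Q.S, Q.f b ≠ 0 → Q.u b < 0 → c (-Q.u b) * x - e ≤ nR (-Q.u b)) :
    strayC Q c * x - e * mass Q ≤ ∑ b ∈ Q.S, Q.f b * (if Q.u b < 0 then nR (-Q.u b) else 0) := by
  unfold strayC mass
  rw [sum_mul, mul_sum, ← sum_sub_distrib]
  refine sum_le_sum fun b hb => ?_
  have h0 := hQ.f_nonneg b hb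
  by_cases hf : Q.f b = 0
  · rw [hf]
    simp
  by_cases c : Q.u b < 0
  · rw [if_pos c, if_pos c]
    have := mul_le_mul_of_nonneg_left (h b hb hf c) h0
    linarith
  · rw [if_neg c, if_neg c]
    have := mul_nonneg he h0
    linarith

/-- the sum over the strays, with the imbalance `h = l - r` paid by the square -/
lemma sum_nets {P Q : WS} (hP : Good P) (hQ : Good Q) {B e h : ℝ} (hB : 0 < B) (he : 0 ≤ e)
    {cR cL nR nL : ℤ → ℝ} (hcR : ∀ t, 0 ≤ cR t) (hcL : ∀ t, 0 ≤ cL t)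
    (hR : ∀ b ∈ Q.S, Q.f b ≠ 0 → Q.u b < 0 →
      cR (-Q.u b) * (h + strayC Q cR / B) - e ≤ nR (-Q.u b))
    (hL : ∀ a ∈ P.S, P.f a ≠ 0 → P.u a < 0 →
      cL (-P.u a) * (-h + strayC P cL / B) - e ≤ nL (-P.u a)) :
    -(h ^ 2 / 4 * B) - e * (mass P + mass Q)
      ≤ ∑ b ∈ Q.S, Q.f b * (if Q.u b < 0 then nR (-Q.u b) else 0)
        + ∑ a ∈ P.S, P.f a * (if P.u a < 0 then nL (-P.u a) else 0) := by
  have h1 := strayC_ge hQ he hR
  have h2 := strayC_ge hP he hL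
  have h3 := strayC_nonneg hQ hcR
  have h4 := strayC_nonneg hP hcL
  set X := strayC Q cR
  set Y := strayC P cL
  have h5 : -(h ^ 2 / 4 * B) ≤ X * (h + X / B) + Y * (-h + Y / B) := by
    have e1 : X * (h + X / B) + Y * (-h + Y / B) + h ^ 2 / 4 * B
        = ((h * B / 2 + (X - Y)) ^ 2 + 2 * (X * Y)) / B := by
      field_simp
      ring
    have e2 : 0 ≤ ((h * B / 2 + (X - Y)) ^ 2 + 2 * (X * Y)) / B :=
      div_nonneg (by positivity) hB.le
    linarith
  linarith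

/-- FINAL REDUCTION to the inequality per stray, hybrid frame with a threshold `z` chosen freely.
`μR`, `μL` = any shares of the midpoint blocks; `dR`, `dL` (any sign) = what the strays pay for the
signed deep terms minus what they get from the wasted labels. -/
theorem finish_mu {n : ℕ} {A : Finset ℕ} (h : IsMaximalThreeFree n A) {C : ℝ} (hC : 0 ≤ C)
    (t0 : ℕ)
    (hmain : A.card ^ 2 < n → ∀ t : ℕ, t0 ≤ t → ∀ D K : ℤ, 1 ≤ K → D = 4 * K + 1 →
      3 * D + 1 ≤ 4 ^ t * (n : ℤ) → 4 ^ t * (n : ℤ) ≤ 3 * D + 12 →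
      Cov (liftN t (shift A)) (fun y => Mid (shift A) (y / 4 ^ t)) (3 * D + 1) →
      ∃ (z : ℤ) (μR μL cR cL dR dL : ℤ → ℝ), 0 ≤ z ∧ (∀ τ, 0 ≤ cR τ) ∧ (∀ τ, 0 ≤ cL τ) ∧
      ∀ P Q : WS, P = PH (liftN t (shift A)) D z → Q = QH (liftN t (shift A)) D z →
        (∑ s ∈ Ico 0 D, ind (fun y => Mid (shift A) (y / 4 ^ t)) (3 * D - s)
          * price P Q D K (K - 1) 1 s
          ≤ ∑ b ∈ Q.S, Q.f b * (if Q.u b < 0 then μR (-Q.u b) else 0)) ∧
        (∑ s ∈ Ico 0 D, ind (fun y => Mid (shift A) (y / 4 ^ t)) s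
          * price Q P D K (K - 1) 1 s
          ≤ ∑ a ∈ P.S, P.f a * (if P.u a < 0 then μL (-P.u a) else 0)) ∧
        -(strayC Q dR + strayC P dL) - C * K * 2 ^ t
          ≤ (nn P 2 - K) * dd P Q D + (nn Q 2 - K) * dd Q P D
            + wst P Q D K (K - 1) 1 (xiR (shift A) t D z)
            + wst Q P D K (K - 1) 1 (xiL (shift A) t D z) ∧
        (∀ b ∈ Q.S, Q.f b ≠ 0 → Q.u b < 0 →
          cR (-Q.u b) * ((mass P - mass Q) + strayC Q cR / budget P Q K) + dR (-Q.u b) - C * K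
            ≤ gross P Q D K (K - 1) 1 1 z 0 (-Q.u b) - μR (-Q.u b)) ∧
        (∀ a ∈ P.S, P.f a ≠ 0 → P.u a < 0 →
          cL (-P.u a) * (-(mass P - mass Q) + strayC P cL / budget P Q K) + dL (-P.u a) - C * K
            ≤ gross Q P D K (K - 1) 1 1 z 1 (-P.u a) - μL (-P.u a))) :
    n ≤ A.card ^ 2 := by
  refine finish h (C := C * A.card + C) t0 ?_
  intro hlt t ht D K hK hD h1 h2 hcov
  obtain ⟨z, μR, μL, cR, cL, dR, dL, hz, hcR, hcL, hall⟩ := hmain hlt t ht D K hK hD h1 h2 hcov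
  obtain ⟨y1, y2, q1, hR, hL⟩ := hall _ _ rfl rfl
  refine ⟨_, _, adm_hybrid D z, ?_⟩
  have gP : Good (PH (liftN t (shift A)) D z) := goodP (adm_hybrid D z)
  have gQ : Good (QH (liftN t (shift A)) D z) := goodQ (adm_hybrid D z)
  have h3 := rest_ge_mu (shift A) t hK hD hz μR μL y1 y2
  have hm := mass_add (liftN t (shift A)) (cut D) (fun x => if D - z ≤ x then cut D x else 0)
    (fun x => if x ≤ 2 * D + z then 1 - cut D x else 0) D
  rw [card_liftN, card_shift] at hm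
  have hK1 : (1:ℝ) ≤ K := by exact_mod_cast hK
  set P := PH (liftN t (shift A)) D z with hPdef
  set Q := QH (liftN t (shift A)) D z with hQdef
  have nP := nn_nonneg gP 2
  have nQ := nn_nonneg gQ 2
  have hB2 : 2 * (K:ℝ) ≤ budget P Q K := by
    unfold budget
    linarith
  have hB : 0 < budget P Q K := by linarith
  have h4 := sum_nets gP gQ (e := C * K) (h := mass P - mass Q) hB (mul_nonneg hC (by linarith))
    (nR := fun τ => gross P Q D K (K - 1) 1 1 z 0 τ - μR τ - dR τ)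
    (nL := fun τ => gross Q P D K (K - 1) 1 1 z 1 τ - μL τ - dL τ)
    hcR hcL (fun b hb hf hu => by have := hR b hb hf hu; linarith)
    (fun a ha hf hu => by have := hL a ha hf hu; linarith)
  have e1 : ∑ b ∈ Q.S, Q.f b * (if Q.u b < 0 then
        gross P Q D K (K - 1) 1 1 z 0 (-Q.u b) - μR (-Q.u b) - dR (-Q.u b) else 0)
      = ∑ b ∈ Q.S, Q.f b * (if Q.u b < 0 then
        gross P Q D K (K - 1) 1 1 z 0 (-Q.u b) - μR (-Q.u b) else 0) - strayC Q dR := by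
    unfold strayC
    rw [← sum_sub_distrib]
    refine sum_congr rfl fun b _ => ?_
    split_ifs <;> ring
  have e2 : ∑ a ∈ P.S, P.f a * (if P.u a < 0 then
        gross Q P D K (K - 1) 1 1 z 1 (-P.u a) - μL (-P.u a) - dL (-P.u a) else 0)
      = ∑ a ∈ P.S, P.f a * (if P.u a < 0 then
        gross Q P D K (K - 1) 1 1 z 1 (-P.u a) - μL (-P.u a) else 0) - strayC P dL := by
    unfold strayC
    rw [← sum_sub_distrib]
    refine sum_congr rfl fun b _ => ?_
    split_ifs <;> ring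
  rw [e1, e2] at h4
  push_cast at hm
  have t2 : (0:ℝ) < 2 ^ t := by positivity
  have k0 : (0:ℝ) ≤ A.card := Nat.cast_nonneg _
  have herr : C * K * (mass P + mass Q) ≤ C * A.card * 2 ^ t * budget P Q K := by
    rw [hm]
    have e1 : 0 ≤ C * A.card * 2 ^ t := by positivity
    have e2 : C * K * (2 ^ t * A.card) = C * A.card * 2 ^ t * K := by ring
    rw [e2]
    exact mul_le_mul_of_nonneg_left (by linarith) e1
  have herr2 : C * K * 2 ^ t ≤ C * 2 ^ t * budget P Q K := by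
    have e1 : 0 ≤ C * 2 ^ t := by positivity
    have e2 : C * K * 2 ^ t = C * 2 ^ t * K := by ring
    rw [e2]
    exact mul_le_mul_of_nonneg_left (by linarith) e1
  have h5 : -(((mass P - mass Q) ^ 2 / 4 + (C * A.card + C) * 2 ^ t)
      * budget P Q K) = -((mass P - mass Q) ^ 2 / 4 * budget P Q K)
        - C * A.card * 2 ^ t * budget P Q K - C * 2 ^ t * budget P Q K := by ring
  rw [h5]
  linarith

/-- FINAL REDUCTION with the MEAN NETS `netH` (half shift of the midpoints), waste kept. -/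
theorem finish_netsH {n : ℕ} {A : Finset ℕ} (h : IsMaximalThreeFree n A) {C : ℝ} (hC : 0 ≤ C)
    (t0 : ℕ) {ω : ℤ → ℤ → ℝ} (hω : ∀ x y, ω x y + ω y x = 1)
    (hmain : A.card ^ 2 < n → ∀ t : ℕ, t0 ≤ t → ∀ D K : ℤ, 1 ≤ K → D = 4 * K + 1 →
      3 * D + 1 ≤ 4 ^ t * (n : ℤ) → 4 ^ t * (n : ℤ) ≤ 3 * D + 12 →
      Cov (liftN t (shift A)) (fun y => Mid (shift A) (y / 4 ^ t)) (3 * D + 1) →
      ∃ (z : ℤ) (cR cL dR dL : ℤ → ℝ), 0 ≤ z ∧ (∀ τ, 0 ≤ cR τ) ∧ (∀ τ, 0 ≤ cL τ) ∧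
      ∀ P Q : WS, P = PH (liftN t (shift A)) D z → Q = QH (liftN t (shift A)) D z →
        -(strayC Q dR + strayC P dL) - C * K * 2 ^ t
          ≤ (nn P 2 - K) * dd P Q D + (nn Q 2 - K) * dd Q P D
            + wst P Q D K (K - 1) 1 (xiR (shift A) t D z)
            + wst Q P D K (K - 1) 1 (xiL (shift A) t D z) ∧
        (∀ b ∈ Q.S, Q.f b ≠ 0 → Q.u b < 0 →
          cR (-Q.u b) * ((mass P - mass Q) + strayC Q cR / budget P Q K) + dR (-Q.u b) - C * K
            ≤ netH P Q ω D K (K - 1) 1 1 z (4 ^ t - 1) 0 (-Q.u b)) ∧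
        (∀ a ∈ P.S, P.f a ≠ 0 → P.u a < 0 →
          cL (-P.u a) * (-(mass P - mass Q) + strayC P cL / budget P Q K) + dL (-P.u a) - C * K
            ≤ netH Q P ω D K (K - 1) 1 1 z (4 ^ t - 1) 1 (-P.u a))) :
    n ≤ A.card ^ 2 := by
  refine finish_mu h hC t0 ?_
  intro hlt t ht D K hK hD h1 h2 hcov
  obtain ⟨z, cR, cL, dR, dL, hz, hcR, hcL, hall⟩ := hmain hlt t ht D K hK hD h1 h2 hcov
  obtain ⟨y1, y2⟩ := mids_hyb (shift A) t hω (show 0 < D by omega) K z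
  refine ⟨z,
    (fun τ => 1 / 2 * (mid (PH (liftN t (shift A)) D z) (QH (liftN t (shift A)) D z) D 0
              (cpr (PH (liftN t (shift A)) D z) D K (K - 1) 1) ω τ
            + mid (PH (liftN t (shift A)) D z) (QH (liftN t (shift A)) D z) D (4 ^ t - 1)
              (cpr (PH (liftN t (shift A)) D z) D K (K - 1) 1) ω τ)),
    (fun τ => 1 / 2 * (mid (QH (liftN t (shift A)) D z) (PH (liftN t (shift A)) D z) D 0
              (cpr (QH (liftN t (shift A)) D z) D K (K - 1) 1) ω τ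
            + mid (QH (liftN t (shift A)) D z) (PH (liftN t (shift A)) D z) D (4 ^ t - 1)
              (cpr (QH (liftN t (shift A)) D z) D K (K - 1) 1) ω τ)),
    cR, cL, dR, dL, hz, hcR, hcL, ?_⟩
  have e : ∀ (X Y : WS) (lo τ : ℤ), gross X Y D K (K - 1) 1 1 z lo τ
      - 1 / 2 * (mid X Y D 0 (cpr X D K (K - 1) 1) ω τ
        + mid X Y D (4 ^ t - 1) (cpr X D K (K - 1) 1) ω τ)
      = netH X Y ω D K (K - 1) 1 1 z (4 ^ t - 1) lo τ := by
    intro X Y lo τ
    unfold netH net gross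
    ring
  intro P Q hP hQ
  obtain ⟨q1, hR, hL⟩ := hall P Q hP hQ
  rw [← hP, ← hQ] at y1 y2 ⊢
  refine ⟨y1, y2, q1, ?_, ?_⟩
  · simp only [e]
    exact hR
  · simp only [e]
    exact hL

/-- FINAL REDUCTION to the inequality per stray, hybrid frame with a threshold `z` chosen freely.
`dR`, `dL` (any sign) = what the strays pay for the signed deep terms minus what they get from the
wasted labels. -/
theorem finish_netsW {n : ℕ} {A : Finset ℕ} (h : IsMaximalThreeFree n A) {C : ℝ} (hC : 0 ≤ C)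
    (t0 : ℕ) {ω : ℤ → ℤ → ℝ} (hω : ∀ x y, ω x y + ω y x = 1)
    (hmain : A.card ^ 2 < n → ∀ t : ℕ, t0 ≤ t → ∀ D K : ℤ, 1 ≤ K → D = 4 * K + 1 →
      3 * D + 1 ≤ 4 ^ t * (n : ℤ) → 4 ^ t * (n : ℤ) ≤ 3 * D + 12 →
      Cov (liftN t (shift A)) (fun y => Mid (shift A) (y / 4 ^ t)) (3 * D + 1) →
      ∃ (z : ℤ) (cR cL dR dL : ℤ → ℝ), 0 ≤ z ∧ (∀ τ, 0 ≤ cR τ) ∧ (∀ τ, 0 ≤ cL τ) ∧
      ∀ P Q : WS, P = PH (liftN t (shift A)) D z → Q = QH (liftN t (shift A)) D z →
        -(strayC Q dR + strayC P dL) - C * K * 2 ^ t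
          ≤ (nn P 2 - K) * dd P Q D + (nn Q 2 - K) * dd Q P D
            + wst P Q D K (K - 1) 1 (xiR (shift A) t D z)
            + wst Q P D K (K - 1) 1 (xiL (shift A) t D z) ∧
        (∀ b ∈ Q.S, Q.f b ≠ 0 → Q.u b < 0 →
          cR (-Q.u b) * ((mass P - mass Q) + strayC Q cR / budget P Q K) + dR (-Q.u b) - C * K
            ≤ net P Q ω D K (K - 1) 1 1 z (4 ^ t - 1) 0 (-Q.u b)) ∧
        (∀ a ∈ P.S, P.f a ≠ 0 → P.u a < 0 →
          cL (-P.u a) * (-(mass P - mass Q) + strayC P cL / budget P Q K) + dL (-P.u a) - C * K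
            ≤ net Q P ω D K (K - 1) 1 1 z (4 ^ t - 1) 1 (-P.u a))) :
    n ≤ A.card ^ 2 := by
  refine finish h (C := C * A.card + C) t0 ?_
  intro hlt t ht D K hK hD h1 h2 hcov
  obtain ⟨z, cR, cL, dR, dL, hz, hcR, hcL, hall⟩ := hmain hlt t ht D K hK hD h1 h2 hcov
  obtain ⟨q1, hR, hL⟩ := hall _ _ rfl rfl
  refine ⟨_, _, adm_hybrid D z, ?_⟩
  have gP : Good (PH (liftN t (shift A)) D z) := goodP (adm_hybrid D z)
  have gQ : Good (QH (liftN t (shift A)) D z) := goodQ (adm_hybrid D z)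
  have h3 := rest_ge_netsW (shift A) t hω hK hD hz
  have hm := mass_add (liftN t (shift A)) (cut D) (fun x => if D - z ≤ x then cut D x else 0)
    (fun x => if x ≤ 2 * D + z then 1 - cut D x else 0) D
  rw [card_liftN, card_shift] at hm
  have hK1 : (1:ℝ) ≤ K := by exact_mod_cast hK
  set P := PH (liftN t (shift A)) D z with hPdef
  set Q := QH (liftN t (shift A)) D z with hQdef
  have nP := nn_nonneg gP 2
  have nQ := nn_nonneg gQ 2
  have hB2 : 2 * (K:ℝ) ≤ budget P Q K := by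
    unfold budget
    linarith
  have hB : 0 < budget P Q K := by linarith
  have h4 := sum_nets gP gQ (e := C * K) (h := mass P - mass Q) hB (mul_nonneg hC (by linarith))
    (nR := fun τ => net P Q ω D K (K - 1) 1 1 z (4 ^ t - 1) 0 τ - dR τ)
    (nL := fun τ => net Q P ω D K (K - 1) 1 1 z (4 ^ t - 1) 1 τ - dL τ)
    hcR hcL (fun b hb hf hu => by have := hR b hb hf hu; linarith)
    (fun a ha hf hu => by have := hL a ha hf hu; linarith)
  have e1 : ∑ b ∈ Q.S, Q.f b * (if Q.u b < 0 then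
        net P Q ω D K (K - 1) 1 1 z (4 ^ t - 1) 0 (-Q.u b) - dR (-Q.u b) else 0)
      = ∑ b ∈ Q.S, Q.f b * (if Q.u b < 0 then
        net P Q ω D K (K - 1) 1 1 z (4 ^ t - 1) 0 (-Q.u b) else 0) - strayC Q dR := by
    unfold strayC
    rw [← sum_sub_distrib]
    refine sum_congr rfl fun b _ => ?_
    split_ifs <;> ring
  have e2 : ∑ a ∈ P.S, P.f a * (if P.u a < 0 then
        net Q P ω D K (K - 1) 1 1 z (4 ^ t - 1) 1 (-P.u a) - dL (-P.u a) else 0)
      = ∑ a ∈ P.S, P.f a * (if P.u a < 0 then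
        net Q P ω D K (K - 1) 1 1 z (4 ^ t - 1) 1 (-P.u a) else 0) - strayC P dL := by
    unfold strayC
    rw [← sum_sub_distrib]
    refine sum_congr rfl fun b _ => ?_
    split_ifs <;> ring
  rw [e1, e2] at h4
  push_cast at hm
  have t2 : (0:ℝ) < 2 ^ t := by positivity
  have k0 : (0:ℝ) ≤ A.card := Nat.cast_nonneg _
  have herr : C * K * (mass P + mass Q) ≤ C * A.card * 2 ^ t * budget P Q K := by
    rw [hm]
    have e1 : 0 ≤ C * A.card * 2 ^ t := by positivity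
    have e2 : C * K * (2 ^ t * A.card) = C * A.card * 2 ^ t * K := by ring
    rw [e2]
    exact mul_le_mul_of_nonneg_left (by linarith) e1
  have herr2 : C * K * 2 ^ t ≤ C * 2 ^ t * budget P Q K := by
    have e1 : 0 ≤ C * 2 ^ t := by positivity
    have e2 : C * K * 2 ^ t = C * 2 ^ t * K := by ring
    rw [e2]
    exact mul_le_mul_of_nonneg_left (by linarith) e1
  have h5 : -(((mass P - mass Q) ^ 2 / 4 + (C * A.card + C) * 2 ^ t)
      * budget P Q K) = -((mass P - mass Q) ^ 2 / 4 * budget P Q K)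
        - C * A.card * 2 ^ t * budget P Q K - C * 2 ^ t * budget P Q K := by ring
  rw [h5]
  linarith

/-- FINAL REDUCTION to the inequality per stray, hybrid frame with a threshold `z` chosen freely
(waste dropped). `dR`, `dL` = what the strays pay for the signed deep terms. -/
theorem finish_nets2 {n : ℕ} {A : Finset ℕ} (h : IsMaximalThreeFree n A) {C : ℝ} (hC : 0 ≤ C)
    (t0 : ℕ) {ω : ℤ → ℤ → ℝ} (hω : ∀ x y, ω x y + ω y x = 1)
    (hmain : A.card ^ 2 < n → ∀ t : ℕ, t0 ≤ t → ∀ D K : ℤ, 1 ≤ K → D = 4 * K + 1 →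
      3 * D + 1 ≤ 4 ^ t * (n : ℤ) → 4 ^ t * (n : ℤ) ≤ 3 * D + 12 →
      Cov (liftN t (shift A)) (fun y => Mid (shift A) (y / 4 ^ t)) (3 * D + 1) →
      ∃ (z : ℤ) (cR cL dR dL : ℤ → ℝ), 0 ≤ z ∧ (∀ τ, 0 ≤ cR τ) ∧ (∀ τ, 0 ≤ cL τ) ∧
      ∀ P Q : WS, P = PH (liftN t (shift A)) D z → Q = QH (liftN t (shift A)) D z →
        0 ≤ price P Q D K (K - 1) 1 0 ∧ 0 ≤ price Q P D K (K - 1) 1 0 ∧
        -(strayC Q dR + strayC P dL) - C * K * 2 ^ t
          ≤ (nn P 2 - K) * dd P Q D + (nn Q 2 - K) * dd Q P D ∧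
        (∀ b ∈ Q.S, Q.f b ≠ 0 → Q.u b < 0 →
          cR (-Q.u b) * ((mass P - mass Q) + strayC Q cR / budget P Q K) + dR (-Q.u b) - C * K
            ≤ net P Q ω D K (K - 1) 1 1 z (4 ^ t - 1) 0 (-Q.u b)) ∧
        (∀ a ∈ P.S, P.f a ≠ 0 → P.u a < 0 →
          cL (-P.u a) * (-(mass P - mass Q) + strayC P cL / budget P Q K) + dL (-P.u a) - C * K
            ≤ net Q P ω D K (K - 1) 1 1 z (4 ^ t - 1) 1 (-P.u a))) :
    n ≤ A.card ^ 2 := by
  refine finish_netsW h hC t0 hω ?_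
  intro hlt t ht D K hK hD h1 h2 hcov
  obtain ⟨z, cR, cL, dR, dL, hz, hcR, hcL, hall⟩ := hmain hlt t ht D K hK hD h1 h2 hcov
  refine ⟨z, cR, cL, dR, dL, hz, hcR, hcL, ?_⟩
  intro P Q hP hQ
  obtain ⟨p1, p2, q1, hR, hL⟩ := hall P Q hP hQ
  refine ⟨?_, hR, hL⟩
  have gP : Good P := by rw [hP]; exact goodP (adm_hybrid D z)
  have gQ : Good Q := by rw [hQ]; exact goodQ (adm_hybrid D z)
  have hl : ∀ a ∈ P.S, ∀ b ∈ Q.S, P.f a * Q.f b ≠ 0 → P.u a ≤ 2 * K ∧ Q.u b ≤ 2 * K := by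
    rw [hP, hQ]
    exact label_le (A := liftN t (shift A)) hD (fun x => if D - z ≤ x then cut D x else 0)
      (fun x => if x ≤ 2 * D + z then 1 - cut D x else 0)
  have cR' := covR_hyb hcov z
  have cL' := covL_hyb hcov z
  rw [← hP, ← hQ] at cR' cL'
  have w1 := wst_nonneg (K := K) (T := K - 1) (ρ := 1) cR'
    (fun s hs _ => price_nonneg gP gQ (by omega) p1 (by omega)
      (fun a ha b hb h => by have := hl a ha b hb h; omega) hs)
  have w2 := wst_nonneg (K := K) (T := K - 1) (ρ := 1) cL'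
    (fun s hs _ => price_nonneg gQ gP (by omega) p2 (by omega)
      (fun b hb a ha h => by have := hl a ha b hb (by rwa [mul_comm]); omega) hs)
  linarith

/-- FINAL REDUCTION to the inequality per stray, hybrid frame with a threshold `z` chosen freely -/
theorem finish_nets {n : ℕ} {A : Finset ℕ} (h : IsMaximalThreeFree n A) {C : ℝ} (hC : 0 ≤ C)
    (t0 : ℕ) {ω : ℤ → ℤ → ℝ} (hω : ∀ x y, ω x y + ω y x = 1)
    (hmain : A.card ^ 2 < n → ∀ t : ℕ, t0 ≤ t → ∀ D K : ℤ, 1 ≤ K → D = 4 * K + 1 →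
      3 * D + 1 ≤ 4 ^ t * (n : ℤ) → 4 ^ t * (n : ℤ) ≤ 3 * D + 12 →
      Cov (liftN t (shift A)) (fun y => Mid (shift A) (y / 4 ^ t)) (3 * D + 1) →
      ∃ (z : ℤ) (cR cL : ℤ → ℝ), 0 ≤ z ∧ (∀ τ, 0 ≤ cR τ) ∧ (∀ τ, 0 ≤ cL τ) ∧
      ∀ P Q : WS, P = PH (liftN t (shift A)) D z → Q = QH (liftN t (shift A)) D z →
        0 ≤ price P Q D K (K - 1) 1 0 ∧ 0 ≤ price Q P D K (K - 1) 1 0 ∧
        K - C * 2 ^ t ≤ nn P 2 ∧ K - C * 2 ^ t ≤ nn Q 2 ∧
        (∀ b ∈ Q.S, Q.f b ≠ 0 → Q.u b < 0 →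
          cR (-Q.u b) * ((mass P - mass Q) + strayC Q cR / budget P Q K) - C * K
            ≤ net P Q ω D K (K - 1) 1 1 z (4 ^ t - 1) 0 (-Q.u b)) ∧
        (∀ a ∈ P.S, P.f a ≠ 0 → P.u a < 0 →
          cL (-P.u a) * (-(mass P - mass Q) + strayC P cL / budget P Q K) - C * K
            ≤ net Q P ω D K (K - 1) 1 1 z (4 ^ t - 1) 1 (-P.u a))) :
    n ≤ A.card ^ 2 := by
  -- the final constant
  refine finish h (C := C * A.card + 7 * C * A.card ^ 2) t0 ?_
  intro hlt t ht D K hK hD h1 h2 hcov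
  obtain ⟨z, cR, cL, hz, hcR, hcL, hall⟩ := hmain hlt t ht D K hK hD h1 h2 hcov
  obtain ⟨p1, p2, q1, q2, hR, hL⟩ := hall _ _ rfl rfl
  refine ⟨_, _, adm_hybrid D z, ?_⟩
  have gP : Good (PH (liftN t (shift A)) D z) := goodP (adm_hybrid D z)
  have gQ : Good (QH (liftN t (shift A)) D z) := goodQ (adm_hybrid D z)
  have h3 := rest_ge_nets (shift A) t hω hK hD hz hcov p1 p2
  have hm := mass_add (liftN t (shift A)) (cut D) (fun x => if D - z ≤ x then cut D x else 0)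
    (fun x => if x ≤ 2 * D + z then 1 - cut D x else 0) D
  rw [card_liftN, card_shift] at hm
  have hK1 : (1:ℝ) ≤ K := by exact_mod_cast hK
  set P := PH (liftN t (shift A)) D z with hPdef
  set Q := QH (liftN t (shift A)) D z with hQdef
  have nP := nn_nonneg gP 2
  have nQ := nn_nonneg gQ 2
  have hB2 : 2 * (K:ℝ) ≤ budget P Q K := by
    unfold budget
    linarith
  have hB : 0 < budget P Q K := by linarith
  have h4 := sum_nets gP gQ (e := C * K) (h := mass P - mass Q) hB (mul_nonneg hC (by linarith))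
    hcR hcL hR hL
  have mP := mass_nonneg gP
  have mQ := mass_nonneg gQ
  have d1 := dd_le_mass gP gQ D
  have d2 := dd_le_mass gQ gP D
  have d1' := dd_nonneg gP gQ D
  have d2' := dd_nonneg gQ gP D
  push_cast at hm
  have t2 : (0:ℝ) < 2 ^ t := by positivity
  have ht4 : ((2:ℝ) ^ t) ^ 2 = 4 ^ t := by rw [← pow_mul, mul_comm, pow_mul]; norm_num
  have hn : 1 ≤ n := by
    rcases Nat.eq_zero_or_pos n with h0 | h0
    · subst h0
      simp at hlt
    · exact h0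
  have h4t : (4:ℝ) ^ t ≤ 27 * K := by
    have e1 : (4:ℤ) ^ t ≤ 4 ^ t * (n:ℤ) := le_mul_of_one_le_right (by positivity) (by exact_mod_cast hn)
    have e2 : (4:ℤ) ^ t ≤ 27 * K := by omega
    exact_mod_cast e2
  have k0 : (0:ℝ) ≤ A.card := Nat.cast_nonneg _
  -- deep terms
  have deep1 : ∀ x y : ℝ, K - C * 2 ^ t ≤ x → 0 ≤ y → y ≤ mass P * mass Q →
      -(C * 2 ^ t * (mass P * mass Q)) ≤ (x - K) * y := by
    intro x y hx hy hy2
    have e1 : 0 ≤ (x - K + C * 2 ^ t) * y := mul_nonneg (by linarith) hy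
    have e2 : C * 2 ^ t * y ≤ C * 2 ^ t * (mass P * mass Q) :=
      mul_le_mul_of_nonneg_left hy2 (by positivity)
    linarith
  have f1 := deep1 _ _ q1 d1' d1
  have f2 := deep1 _ _ q2 d2' (by rwa [mul_comm (mass Q)] at d2)
  have hprod : 4 * (mass P * mass Q) ≤ (2 ^ t * A.card) ^ 2 := by
    rw [← hm]
    nlinarith [sq_nonneg (mass P - mass Q)]
  have hprod2 : 2 * (C * 2 ^ t * (mass P * mass Q))
      ≤ 7 * C * A.card ^ 2 * 2 ^ t * budget P Q K := by
    have e1 : 4 * (mass P * mass Q) ≤ 4 ^ t * A.card ^ 2 := by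
      rw [← ht4]
      linarith [hprod, mul_pow ((2:ℝ) ^ t) (A.card : ℝ) 2]
    have e2 : (4:ℝ) ^ t * A.card ^ 2 ≤ 27 / 2 * budget P Q K * A.card ^ 2 :=
      mul_le_mul_of_nonneg_right (by linarith) (by positivity)
    have e3 : 0 ≤ C * 2 ^ t := by positivity
    have e4 : 0 ≤ budget P Q K * (A.card : ℝ) ^ 2 := by positivity
    have e5 : 2 * (mass P * mass Q) ≤ 7 * (budget P Q K * (A.card : ℝ) ^ 2) := by linarith
    have e6 := mul_le_mul_of_nonneg_left e5 e3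
    linarith
  have herr : C * K * (mass P + mass Q) ≤ C * A.card * 2 ^ t * budget P Q K := by
    rw [hm]
    have e1 : 0 ≤ C * A.card * 2 ^ t := by positivity
    have e2 : C * K * (2 ^ t * A.card) = C * A.card * 2 ^ t * K := by ring
    rw [e2]
    exact mul_le_mul_of_nonneg_left (by linarith) e1
  have h5 : -(((mass P - mass Q) ^ 2 / 4 + (C * A.card + 7 * C * A.card ^ 2) * 2 ^ t)
      * budget P Q K) = -((mass P - mass Q) ^ 2 / 4 * budget P Q K)
        - C * A.card * 2 ^ t * budget P Q K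
        - 7 * C * A.card ^ 2 * 2 ^ t * budget P Q K := by ring
  rw [h5]
  linarith

end

end MP61673a.Fin
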