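import Pool.Agent.Mu673.RowNumR
import Pool.Agent.Mu673.CkI

/-!
CLASS MAP AND ONE-BODY PART OF AN IN CELL (helper40): the copies of the classes next to the point `w`
(real end of the windows) have DIFFERENT regions: the outside copy (`iw = 2`, `u < w`) ends at
`-a / m`, the inside copy (`iw = 1`, `w ≤ u`) begins at `-b / m`.
-/

set_option autoImplicit false

namespace MP61673a.RowI9

open Finset MP61673a.Kink MP61673a.Bary MP61673a.Sos MP61673a.Fin MP61673a.KC MP61673a.FE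

/-! ### Classes and segments -/

/-- the class descriptors belong to the segments -/
def csChkB (M : ℕ) (s2 q S : ℤ) (segs : List SegR) (cs : List Cl) : Bool :=
  Nat.beq cs.length (nC segs)
    && allN cs.length (fun c => decide ((clN cs c).lo = loR segs S c)
      && decide ((clN cs c).hi = hiR segs S c) && decide ((clN cs c).run M s2 q))

/-- class descriptors and segments -/
structure CsB (M : ℕ) (s2 q S : ℤ) (segs : List SegR) (cs : List Cl) : Prop where
  len : cs.length = nC segs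
  lo : ∀ c < cs.length, (clN cs c).lo = loR segs S c
  hi : ∀ c < cs.length, (clN cs c).hi = hiR segs S c
  run : ∀ c < cs.length, (clN cs c).run M s2 q

lemma csChkB_sound {M : ℕ} {s2 q S : ℤ} {segs : List SegR} {cs : List Cl}
    (h : csChkB M s2 q S segs cs = true) : CsB M s2 q S segs cs := by
  unfold csChkB at h
  simp only [Bool.and_eq_true] at h
  obtain ⟨h1, h2⟩ := h
  have h2' := (allN_iff _ _).1 h2
  refine ⟨Nat.eq_of_beq_eq_true h1, fun c hc => ?_, fun c hc => ?_, fun c hc => ?_⟩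
  · have := h2' c hc
    simp only [Bool.and_eq_true, decide_eq_true_eq] at this
    exact this.1.1
  · have := h2' c hc
    simp only [Bool.and_eq_true, decide_eq_true_eq] at this
    exact this.1.2
  · have := h2' c hc
    simp only [Bool.and_eq_true, decide_eq_true_eq] at this
    exact this.2

lemma CsB.runF {M : ℕ} {s2 q S : ℤ} {segs : List SegR} {cs : List Cl}
    (h : CsB M s2 q S segs cs) (c : Fin cs.length) : (cs.get c).run M s2 q := by
  have := h.run c c.2
  rwa [clN_get] at this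

/-! ### Cover -/

/-- everything below `nb / q` -/
def cBot (nb : ℤ) : Cl := ⟨false, nb, nb, false, true, true, 0, 0⟩

/-- the outside copies replaced by everything below the inside copies -/
def rpA (nb : ℤ) (iw : List ℕ) : ℕ → List Cl → List Cl
  | _, [] => []
  | k, c :: cs => (if nth 0 iw k = 2 then cBot nb else c) :: rpA nb iw (k + 1) cs

/-- the inside copies begin at `na / q` -/
def rpB (na : ℤ) (iw : List ℕ) : ℕ → List Cl → List Cl
  | _, [] => []
  | k, c :: cs => (if nth 0 iw k = 1 then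
      { c with na := na, nb := max c.nb na, sa := false, bt := false } else c)
      :: rpB na iw (k + 1) cs

/-- THE COVER of an IN cell -/
def covChkI (q m a b : ℤ) (cs : List Cl) (iw : List ℕ) : Bool :=
  decide (m * (b * q / m) = b * q) && decide (m * (a * q / m) = a * q)
  && covAll false q (rpA (-(b * q / m)) iw 0 cs) && covAll false q (rpB (-(a * q / m)) iw 0 cs)
  && covAll true q cs
  && allN cs.length (fun i => decide (nth 0 iw i ≠ 1 ∧ nth 0 iw i ≠ 2)
      || decide ((clN cs i).sd = false))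

/-- the cover -/
structure CovI (q m a b : ℤ) (cs : List Cl) (iw : List ℕ) : Prop where
  hb : m * (b * q / m) = b * q
  ha : m * (a * q / m) = a * q
  cA : covAll false q (rpA (-(b * q / m)) iw 0 cs) = true
  cB : covAll false q (rpB (-(a * q / m)) iw 0 cs) = true
  cQ : covAll true q cs = true
  sd : ∀ i < cs.length, (nth 0 iw i = 1 ∨ nth 0 iw i = 2) → (clN cs i).sd = false

lemma covChkI_imp {q m a b : ℤ} {cs : List Cl} {iw : List ℕ}
    (h : covChkI q m a b cs iw = true) : CovI q m a b cs iw := by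
  unfold covChkI at h
  simp only [Bool.and_eq_true, decide_eq_true_eq] at h
  obtain ⟨⟨⟨⟨⟨h1, h2⟩, h3⟩, h4⟩, h5⟩, h6⟩ := h
  refine ⟨h1, h2, h3, h4, h5, fun i hi hw => ?_⟩
  have := (allN_iff _ _).1 h6 i hi
  simp only [Bool.or_eq_true, decide_eq_true_eq] at this
  rcases this with h7 | h7
  · rcases hw with hw | hw
    · exact absurd hw h7.1
    · exact absurd hw h7.2
  · exact h7

lemma rpA_mem (nb : ℤ) (iw : List ℕ) (k : ℕ) (cs : List Cl) {c : Cl} (h : c ∈ rpA nb iw k cs) :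
    ∃ i < cs.length, (nth 0 iw (k + i) = 2 ∧ c = cBot nb)
      ∨ (nth 0 iw (k + i) ≠ 2 ∧ c = clN cs i) := by
  induction cs generalizing k with
  | nil => simp [rpA] at h
  | cons a l ih =>
    unfold rpA at h
    rcases List.mem_cons.1 h with h1 | h1
    · refine ⟨0, by simp, ?_⟩
      rw [add_zero]
      by_cases h2 : nth 0 iw k = 2
      · rw [if_pos h2] at h1
        exact Or.inl ⟨h2, h1⟩
      · rw [if_neg h2] at h1
        exact Or.inr ⟨h2, h1⟩
    · obtain ⟨i, hi, h2⟩ := ih (k + 1) h1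
      refine ⟨i + 1, by simp; omega, ?_⟩
      rw [show k + (i + 1) = k + 1 + i by ring]
      exact h2

lemma rpB_mem (na : ℤ) (iw : List ℕ) (k : ℕ) (cs : List Cl) {c : Cl} (h : c ∈ rpB na iw k cs) :
    ∃ i < cs.length, (nth 0 iw (k + i) = 1
        ∧ c = { clN cs i with na := na, nb := max (clN cs i).nb na, sa := false, bt := false })
      ∨ (nth 0 iw (k + i) ≠ 1 ∧ c = clN cs i) := by
  induction cs generalizing k with
  | nil => simp [rpB] at h
  | cons a l ih =>
    unfold rpB at h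
    rcases List.mem_cons.1 h with h1 | h1
    · refine ⟨0, by simp, ?_⟩
      rw [add_zero]
      by_cases h2 : nth 0 iw k = 1
      · rw [if_pos h2] at h1
        exact Or.inl ⟨h2, h1⟩
      · rw [if_neg h2] at h1
        exact Or.inr ⟨h2, h1⟩
    · obtain ⟨i, hi, h2⟩ := ih (k + 1) h1
      refine ⟨i + 1, by simp; omega, ?_⟩
      rw [show k + (i + 1) = k + 1 + i by ring]
      exact h2

/-- CLASS MAP of an IN cell -/
theorem CovI.clMap {q m a b : ℤ} {cs : List Cl} {iw : List ℕ} (h : CovI q m a b cs iw)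
    (hq : 0 < q) {D K t0 t1 w : ℤ} (hD : D = 4 * K + 1) (hK : 1 ≤ K)
    (hc : CellAt m a b D t0 t1) (hw : -t1 ≤ w) (hw' : w ≤ 1 - t0) :
    ∃ cl : P4 → Fin cs.length, ClMap (fun i => cs.get i) q D K cl
      ∧ (∀ x : P4, InR D K x.2 → nth 0 iw (cl x) = 1 → w ≤ x.2.2)
      ∧ (∀ x : P4, InR D K x.2 → nth 0 iw (cl x) = 2 → x.2.2 < w)
      ∧ ∀ x y : P4, x.2 = y.2 → cl x = cl y := by
  have hm := hc.m0
  have hD0 : 0 < D := by omega
  have key : ∀ x : P3, InR D K x → ∃ i : Fin cs.length, (cs.get i).has q D x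
      ∧ (nth 0 iw i = 1 → w ≤ x.2) ∧ (nth 0 iw i = 2 → x.2 < w) := by
    intro x hx
    rcases hs : x.1 with _ | _
    · by_cases hxw : x.2 < w
      · obtain ⟨c, hcm, hh⟩ := covAll_sound hq h.cB hD hK hx hs
        obtain ⟨i, hi, h1 | h1⟩ := rpB_mem _ iw 0 cs hcm
        · -- the filler lies above `w`
          exfalso
          obtain ⟨h1, rfl⟩ := h1
          have h2 := Cl.has_lo hh rfl
          dsimp only at h2
          have h3 : -(a * q * D) ≤ m * (q * x.2) := by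
            have := mul_le_mul_of_nonneg_left h2 hm.le
            have e : m * (-(a * q / m) * D) = -(a * q * D) := by
              calc m * (-(a * q / m) * D) = -((m * (a * q / m)) * D) := by ring
                _ = -(a * q * D) := by rw [h.ha]
            linarith
          have h4 := mul_lt_mul_of_pos_left hc.h0 hq
          have h5 : q * (m * 0) < q * (m * (x.2 + t0)) := by linarith
          have h6 := lt_of_mul_lt_mul_left (lt_of_mul_lt_mul_left h5 hq.le) hm.le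
          omega
        · rw [zero_add] at h1
          obtain ⟨h1, rfl⟩ := h1
          refine ⟨⟨i, hi⟩, ?_, fun h5 => absurd h5 h1, fun _ => hxw⟩
          rw [← clN_get]
          exact hh
      · obtain ⟨c, hcm, hh⟩ := covAll_sound hq h.cA hD hK hx hs
        obtain ⟨i, hi, h1 | h1⟩ := rpA_mem _ iw 0 cs hcm
        · exfalso
          obtain ⟨h1, rfl⟩ := h1
          have h2 : q * x.2 < -(b * q / m) * D := Cl.has_hi_lt hh rfl
          have h3 : m * (q * x.2) < -(b * q * D) := by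
            have := mul_lt_mul_of_pos_left h2 hm
            have e : m * (-(b * q / m) * D) = -(b * q * D) := by
              calc m * (-(b * q / m) * D) = -((m * (b * q / m)) * D) := by ring
                _ = -(b * q * D) := by rw [h.hb]
            linarith
          have h4 := mul_le_mul_of_nonneg_left hc.h1 hq.le
          have h5 : q * (m * (x.2 + t1)) < q * (m * 0) := by linarith
          have h6 := lt_of_mul_lt_mul_left (lt_of_mul_lt_mul_left h5 hq.le) hm.le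
          omega
        · rw [zero_add] at h1
          obtain ⟨h1, rfl⟩ := h1
          refine ⟨⟨i, hi⟩, ?_, fun _ => by omega, fun h5 => absurd h5 h1⟩
          rw [← clN_get]
          exact hh
    · obtain ⟨c, hcm, hh⟩ := covAll_sound hq h.cQ hD hK hx hs
      obtain ⟨i, hi⟩ := List.get_of_mem hcm
      have hsd : (clN cs i).sd = true := by
        rw [clN_get, hi, ← hh.1]
        exact hs
      refine ⟨i, by rw [hi]; exact hh, fun h5 => ?_, fun h5 => ?_⟩
      · have := h.sd i i.2 (Or.inl h5)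
        rw [hsd] at this
        exact absurd this (by simp)
      · have := h.sd i i.2 (Or.inr h5)
        rw [hsd] at this
        exact absurd this (by simp)
  have hne : Nonempty (Fin cs.length) := by
    obtain ⟨i, _⟩ := key (false, 0) ⟨by omega, by dsimp only; omega⟩
    exact ⟨i⟩
  classical
  refine ⟨fun x => if hx : InR D K x.2 then Classical.choose (key x.2 hx)
    else Classical.choice hne, ⟨fun x hx => ?_⟩, fun x hx => ?_, fun x hx => ?_,
    fun x y hxy => ?_⟩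
  · rw [dif_pos hx]
    exact (Classical.choose_spec (key x.2 hx)).1
  · dsimp only
    rw [dif_pos hx]
    exact (Classical.choose_spec (key x.2 hx)).2.1
  · dsimp only
    rw [dif_pos hx]
    exact (Classical.choose_spec (key x.2 hx)).2.2
  · simp only [hxy]

/-! ### One-body part -/

/-- THE ONE-BODY CHECK AT ONE NODE -/
theorem oneB_sound {p : CellPar} (hp : p.Pos) {U : ℕ} (hU : 0 < U) {S : ℤ}
    {segs : List SegR} {cs : List Cl} {iw : List ℕ} (hcs : CsB p.M p.s2 p.q S segs cs)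
    {w : ℕ → ℕ → ℕ} (hw : wChk p.M p.s2.toNat w = true) {g : ℕ → ℕ → ℕ → ℕ} {a : ℕ → ℕ}
    {x : ℕ → ℤ} (h : oneR p U S segs cs iw w g a x = true)
    {g0 : Fin 3 → Fin cs.length × ℤ → ℤ → ℝ}
    (hg : ∀ (i : Fin 3) (ζ : Fin cs.length × ℤ) (j : ℕ), j < 3 * p.M + 5 →
      (cs.get ζ.1).lo ≤ ζ.2 → ζ.2 ≤ (cs.get ζ.1).hi →
      g0 i ζ ((j:ℤ) - p.M - 2) = (g (vT segs S (ζ.1, ζ.2)) i j : ℝ) / U)
    (ζ : Fin cs.length × ℤ) (h1 : (cs.get ζ.1).lo ≤ ζ.2) (h2 : ζ.2 ≤ (cs.get ζ.1).hi) :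
    3 * ((a (vT segs S (ζ.1, ζ.2)) : ℝ) / (2 * U))
      ≤ ((p.nb (nth 0 iw ζ.1) (cs.get ζ.1) ζ.2 : ℚ) : ℝ)
        + bzS p.M ((p.s2:ℝ) / 2) (cutL p.M ((p.s2:ℝ) / 2)) (cutR p.M ((p.s2:ℝ) / 2))
          (fun i => g0 i ζ) / p.M - x (vT segs S (ζ.1, ζ.2)) / (2 * U) := by
  have hlo := hcs.lo ζ.1 ζ.1.2
  have hhi := hcs.hi ζ.1 ζ.1.2
  rw [clN_get] at hlo hhi
  obtain ⟨v1, v2, v3⟩ := vT_spec segs S ζ.1 ζ.2 (by rw [← hlo]; exact h1)
    (by rw [← hhi]; exact h2)
  have hn := (allN_iff _ _).1 h _ v1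
  rw [v3, v2, clN_get, show ζ.2 + S - S = ζ.2 by ring] at hn
  have key := ndChk_sound hp hU hn
  have hs2 : p.s2.toNat ≤ 2 := by
    have := hp.s2
    omega
  have es : ((p.s2.toNat : ℕ) : ℝ) = (p.s2 : ℝ) := by
    have : ((p.s2.toNat : ℕ) : ℤ) = p.s2 := Int.toNat_of_nonneg hp.s0
    exact_mod_cast this
  have hw' := (allN_iff _ _).1 hw
  have eb := bzS_int (M := p.M) hs2 hU (w := w) (g := g (vT segs S (ζ.1, ζ.2)))
    (g0 := fun i => g0 i ζ) (fun j hj i hi => Nat.eq_of_beq_eq_true ((allN_iff _ _).1 (hw' j hj) i hi))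
    (fun i j hj => hg i ζ j hj h1 h2)
  rw [es] at eb
  rw [eb]
  exact key

noncomputable section

/-- THE ONE-BODY PART OF A ROW from the Bool check of all nodes -/
theorem one_rowB {p : CellPar} (hp : p.Pos) {U : ℕ} (hU : 0 < U) {S : ℤ}
    {segs : List SegR} {cs : List Cl} {iw : List ℕ} (hcs : CsB p.M p.s2 p.q S segs cs)
    {w : ℕ → ℕ → ℕ} (hw : wChk p.M p.s2.toNat w = true) {g : ℕ → ℕ → ℕ → ℕ} {a : ℕ → ℕ}
    {x : ℕ → ℤ} (h : oneR p U S segs cs iw w g a x = true)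
    {D K E t0 t1 wl c1 c2 c3 : ℤ} {cl : P4 → Fin cs.length} (hD : D = 4 * K + 1) (hK : 1 ≤ K)
    (hK2 : 100 ≤ K) (hDM : 13 * (p.M : ℤ) ≤ D)
    (hcl : ClMap (fun i : Fin cs.length => cs.get i) p.q D K cl)
    (hiw : ∀ y, InR D K y.2 → nth 0 iw (cl y) = 1 → wl ≤ y.2.2)
    (hc : CellAt p.m p.a p.b D t0 t1) (hk : CutOK p.m p.a D t0 wl c1 c2 c3)
    (hE : 40 * E ≤ D)
    {gr : Fin 3 → Fin cs.length × ℤ → Bool → ℤ → ℝ} {g0 : Fin 3 → Fin cs.length × ℤ → ℤ → ℝ}
    (hg0 : ∀ i ζ k, 0 ≤ g0 i ζ k) (hgr : ∀ i ζ e k, g0 i ζ k ≤ gr i ζ e k)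
    (hg : ∀ (i : Fin 3) (ζ : Fin cs.length × ℤ) (j : ℕ), j < 3 * p.M + 5 →
      (cs.get ζ.1).lo ≤ ζ.2 → ζ.2 ≤ (cs.get ζ.1).hi →
      g0 i ζ ((j:ℤ) - p.M - 2) = (g (vT segs S (ζ.1, ζ.2)) i j : ℝ) / U) {Bg : ℝ}
    (hBg : ∀ ζ, ∑ i : Fin 3, ∑ k ∈ Iz p.M, g0 i ζ k ≤ Bg)
    {wf : P4 → ℝ} {cw : ℝ} (hcw : 0 ≤ cw)
    (hwf : ∀ y, InR D K y.2 →
      (D:ℝ) * kX (mkGrd hp.q hD hK hcs.runF hcl).lo (mkGrd hp.q hD hK hcs.runF hcl).hi
        (fun ζ => -((x (vT segs S (ζ.1, ζ.2)) : ℝ) / (2 * U)))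
        ((mkGrd hp.q hD hK hcs.runF hcl).pt y) - cw ≤ wf y)
    {n1 : P3 → ℝ} {X1 : P4 → ℝ}
    (hn1 : ∀ y, InR D K y.2 →
      n1cut p.o K (rhoE D) E t0 t1 wl c1 c2 c3 y.2 + wf y ≤ n1 y.2 - X1 y) :
    ∃ (B : P4 → ℝ) (e1 : ℝ), 0 ≤ e1
      ∧ e1 = oneC p.M (∑ c : Fin cs.length, ∑ i ∈ nd (mkGrd hp.q hD hK hcs.runF hcl).lo
          (mkGrd hp.q hD hK hcs.runF hcl).hi c, |((p.nb (nth 0 iw c) (cs.get c) i : ℚ) : ℝ)
          + (bzS p.M ((p.s2:ℝ) / 2) (cutL p.M ((p.s2:ℝ) / 2)) (cutR p.M ((p.s2:ℝ) / 2))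
            (fun j => g0 j (c, i)) + p.M * -((x (vT segs S (c, i)) : ℝ) / (2 * U))) / p.M|) Bg cw
      ∧ (∀ (lR lL : ℤ → Bool) (y : P4), InR D K y.2 →
        B y ≤ ∑ s ∈ Ico 0 D, ((mkGrd hp.q hD hK hcs.runF hcl).gR gr y (lR s) s
          + (mkGrd hp.q hD hK hcs.runF hcl).gL gr y (lL s) s))
      ∧ (∀ y : P4, InR D K y.2 → -(2 * e1) ≤ m1tc K (rhoE D) E t0 t1 n1 B X1 y)
      ∧ (mkGrd hp.q hD hK hcs.runF hcl).OneP
        (fun y => -(m1tc K (rhoE D) E t0 t1 n1 B X1 y / (3 * D + 11)))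
        (fun ζ => -((a (vT segs S (ζ.1, ζ.2)) : ℝ) / (2 * U))) (e1 / (3 * D)) := by
  have hU' : (0:ℝ) < U := by exact_mod_cast hU
  refine row_one (iw := fun c : Fin cs.length => nth 0 iw c) hp hD hK hK2 hDM hcs.runF hcl hiw hc hk
    hE hg0 hgr hBg hcw hwf hn1
    (fun ζ _ => by positivity) (fun ζ hζ => ?_)
  have hm := mem_Icc.1 hζ
  have := oneB_sound hp hU hcs hw h hg ζ hm.1 hm.2
  linarith

end

end MP61673a.RowI9
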