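import Pool.Agent.Mu673.RowCut
import Pool.Agent.Mu673.RowInC
import Pool.Agent.Mu673.FF1

/-!
ONE-BODY PART OF AN IN CELL (helper17): `one_rowB` of `RowInC` with the length `swF` of the
additional prices (moving windows `m1`, `m2`, static windows `s1`, `s2` of every class).
-/

set_option autoImplicit false

namespace MP61673a.RowI9

open Finset MP61673a.Kink MP61673a.Bary MP61673a.Sos MP61673a.Fin MP61673a.KC MP61673a.FE

/-! ### Length of the additional prices at the nodes -/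

/-- length of the additional prices of a node, units `1 / (40 M m W)`, weights in units `1 / W` -/
def swZ (p : CellPar) (m1 m2 s : ℕ) (i : ℤ) : ℤ :=
  m1 * (21 * p.M * p.m + 40 * p.m * (2 * i + p.s2) - 160 * p.b * p.M)
    + m2 * (21 * p.M * p.m + 40 * p.m * (4 * i + 2 * p.s2) - 80 * p.b * p.M)
    + s * (39 * p.M * p.m)

/-- extra function of the one-body check: minus the length, units `1 / (2 U)`, rounded up
(= `- dg xws v` of the exporter of helper44 with `W = 2 ko`) -/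
def xwN (p : CellPar) (U W : ℕ) (segs : List SegR) (S : ℤ) (m1 m2 s : ℕ → ℕ) (v : ℕ) : ℤ :=
  -(2 * U * swZ p (m1 (ixR segs v)) (m2 (ixR segs v)) (s (ixR segs v)) (psR segs v - S)
    / (40 * p.M * p.m * W))

/-- the extra function of the record is at least minus the length (`x = xwN …` always is) -/
def xwChk (p : CellPar) (U W : ℕ) (segs : List SegR) (S : ℤ) (m1 m2 s : ℕ → ℕ)
    (x : ℕ → ℤ) : Bool :=
  allN (vR segs) (fun v => decide (xwN p U W segs S m1 m2 s v ≤ x v))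

/-- weights of the classes: at most one, moving windows only in `P` -/
def swChk (W : ℕ) (cs : List Cl) (m1 m2 : ℕ → ℕ) : Bool :=
  allN cs.length (fun c => Nat.ble (m1 c) W && Nat.ble (m2 c) W
    && (!(clN cs c).sd || (Nat.beq (m1 c) 0 && Nat.beq (m2 c) 0)))

/-- weights of the classes -/
structure SwOK (W : ℕ) (cs : List Cl) (m1 m2 : ℕ → ℕ) : Prop where
  h1 : ∀ c < cs.length, m1 c ≤ W
  h2 : ∀ c < cs.length, m2 c ≤ W
  h3 : ∀ c < cs.length, (clN cs c).sd = true → m1 c = 0 ∧ m2 c = 0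

lemma swChk_sound {W : ℕ} {cs : List Cl} {m1 m2 : ℕ → ℕ} (h : swChk W cs m1 m2 = true) :
    SwOK W cs m1 m2 := by
  have h' := (allN_iff _ _).1 h
  refine ⟨fun c hc => ?_, fun c hc => ?_, fun c hc hs => ?_⟩
  · have := h' c hc
    simp only [Bool.and_eq_true] at this
    exact Nat.le_of_ble_eq_true this.1.1
  · have := h' c hc
    simp only [Bool.and_eq_true] at this
    exact Nat.le_of_ble_eq_true this.1.2
  · have := h' c hc
    simp only [Bool.and_eq_true, Bool.or_eq_true, Bool.not_eq_true'] at this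
    rcases this.2 with h1 | h1
    · rw [hs] at h1
      exact absurd h1 (by simp)
    · exact ⟨Nat.eq_of_beq_eq_true h1.1, Nat.eq_of_beq_eq_true h1.2⟩

/-- node of a class: place in the list of nodes -/
lemma CsB.vT {M : ℕ} {s2 q S : ℤ} {segs : List SegR} {cs : List Cl}
    (h : CsB M s2 q S segs cs) (ζ : Fin cs.length × ℤ) (h1 : (cs.get ζ.1).lo ≤ ζ.2)
    (h2 : ζ.2 ≤ (cs.get ζ.1).hi) :
    KC.vT segs S (ζ.1, ζ.2) < vR segs ∧ (psR segs (KC.vT segs S (ζ.1, ζ.2)) : ℤ) = ζ.2 + S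
      ∧ ixR segs (KC.vT segs S (ζ.1, ζ.2)) = ζ.1 := by
  have hlo := h.lo ζ.1 ζ.1.2
  have hhi := h.hi ζ.1 ζ.1.2
  rw [clN_get] at hlo hhi
  exact vT_spec segs S ζ.1 ζ.2 (by rw [← hlo]; exact h1) (by rw [← hhi]; exact h2)

noncomputable section

/-- length of the additional prices at a node, units of `D` -/
def swN (p : CellPar) (m1 m2 s : ℝ) (i : ℝ) : ℝ :=
  m1 * (21 / 40 + 2 * (i + (p.s2:ℝ) / 2) / p.M - 4 * (p.b:ℝ) / p.m)
    + m2 * (21 / 40 + 4 * (i + (p.s2:ℝ) / 2) / p.M - 2 * (p.b:ℝ) / p.m) + s * (39 / 40)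

/-- the rounded value is below the length -/
lemma xwN_le {p : CellPar} (hp : p.Pos) {U W : ℕ} (hU : 0 < U) (hW : 0 < W) (segs : List SegR)
    (S : ℤ) (m1 m2 s : ℕ → ℕ) (v : ℕ) {c : ℕ} {i : ℤ} (hc : ixR segs v = c)
    (hi : (psR segs v : ℤ) = i + S) :
    -((xwN p U W segs S m1 m2 s v : ℝ) / (2 * U))
      ≤ swN p ((m1 c : ℝ) / W) ((m2 c : ℝ) / W) ((s c : ℝ) / W) i := by
  have hU' : (0:ℝ) < U := by exact_mod_cast hU
  have hW' : (0:ℝ) < W := by exact_mod_cast hW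
  have hM : (0:ℝ) < p.M := by exact_mod_cast hp.M
  have hm : (0:ℝ) < p.m := by exact_mod_cast hp.m
  have hMm : (0:ℤ) < 40 * p.M * p.m * W := by
    have h1 : (0:ℤ) < p.M := by exact_mod_cast hp.M
    have h2 := hp.m
    have h3 : (0:ℤ) < W := by exact_mod_cast hW
    positivity
  set z := swZ p (m1 c) (m2 c) (s c) i with hz
  have e : xwN p U W segs S m1 m2 s v = -(2 * U * z / (40 * p.M * p.m * W)) := by
    unfold xwN
    rw [hc, show (psR segs v : ℤ) - S = i by rw [hi]; ring]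
  have h1 : 2 * U * z / (40 * p.M * p.m * W) * (40 * p.M * p.m * W) ≤ 2 * U * z :=
    Int.ediv_mul_le _ hMm.ne'
  set Q := 2 * (U:ℤ) * z / (40 * p.M * p.m * W) with hQ
  have h2 : (Q : ℝ) * (40 * p.M * p.m * W) ≤ 2 * U * (z : ℝ) := by exact_mod_cast h1
  have e2 : (z : ℝ)
      = swN p ((m1 c : ℝ) / W) ((m2 c : ℝ) / W) ((s c : ℝ) / W) i * (40 * p.M * p.m * W) := by
    rw [hz]
    unfold swZ swN
    push_cast
    field_simp
    ring
  rw [e2] at h2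
  rw [e]
  push_cast
  rw [neg_div, neg_neg, div_le_iff₀ (by positivity)]
  have h3 : (Q : ℝ) * (40 * p.M * p.m * W)
      ≤ (swN p ((m1 c : ℝ) / W) ((m2 c : ℝ) / W) ((s c : ℝ) / W) i * (2 * U))
        * (40 * p.M * p.m * W) := h2.trans (le_of_eq (by ring))
  exact le_of_mul_le_mul_right h3 (by positivity)

/-- the length of a node function, linear in the position -/
lemma swN_pl (p : CellPar) (m1 m2 s x : ℝ) :
    pl (fun i => swN p m1 m2 s i) x = swN p m1 m2 s x := by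
  unfold pl swN
  have h : Int.fract x = x - ⌊x⌋ := rfl
  rw [h]
  push_cast
  ring

/-- THE LENGTH OF THE ADDITIONAL PRICES FROM BELOW -/
theorem swF_ge {p : CellPar} (hp : p.Pos) {D K t0 t1 : ℤ} {kL kR : ℝ} {C : Type}
    (G : GrdD C p.M ((p.s2:ℝ) / 2) (12 * p.M / D) D K (rhoE D) kL kR) (hD : D = 4 * K + 1)
    (hK : 1 ≤ K) (hc : CellAt p.m p.a p.b D t0 t1) {m1 m2 s1 s2 : C → ℝ} {y : P4} (hy : G.ok y)
    (h1 : 0 ≤ m1 (G.cl y)) (h2 : 0 ≤ m2 (G.cl y)) (h1' : m1 (G.cl y) ≤ 1)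
    (h2' : m2 (G.cl y) ≤ 1) (h3 : 0 ≤ s1 (G.cl y) + s2 (G.cl y))
    (hs : y.2.1 = true → m1 (G.cl y) = 0 ∧ m2 (G.cl y) = 0) :
    (D:ℝ) * kX G.lo G.hi (fun ζ => swN p (m1 ζ.1) (m2 ζ.1) (s1 ζ.1 + s2 ζ.1) ζ.2) (G.pt y) - 75
      ≤ swF G t1 m1 m2 s1 s2 y := by
  have hDp : (0:ℝ) < D := by exact_mod_cast (by omega : (0:ℤ) < D)
  have hDr : (D:ℝ) = 4 * K + 1 := by exact_mod_cast hD
  have hM : (0:ℝ) < p.M := by exact_mod_cast hp.M
  have hm : (0:ℝ) < p.m := by exact_mod_cast hp.m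
  have e1 : kX G.lo G.hi (fun ζ => swN p (m1 ζ.1) (m2 ζ.1) (s1 ζ.1 + s2 ζ.1) ζ.2) (G.pt y)
      = swN p (m1 (G.cl y)) (m2 (G.cl y)) (s1 (G.cl y) + s2 (G.cl y)) (G.J y) := by
    rw [kX_pl _ (G.regX hy)]
    exact swN_pl p _ _ _ _
  rw [e1]
  have hρ := rho_le D
  have r1 : (D:ℝ) ≤ 40 * rhoE D + 39 := by exact_mod_cast hρ.2
  have r0 : 40 * ((rhoE D : ℤ) : ℝ) ≤ D := by exact_mod_cast hρ.1
  have ht : ((t1 : ℤ) : ℝ) ≤ (p.b:ℝ) / p.m * D := by
    have h1 : (p.m:ℝ) * t1 ≤ p.b * D := by exact_mod_cast hc.h1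
    rw [div_mul_eq_mul_div, le_div_iff₀ hm]
    linarith
  have hst : (s1 (G.cl y) + s2 (G.cl y)) * (39 / 40 * D)
      ≤ (s1 (G.cl y) + s2 (G.cl y)) * (D - rhoE D) :=
    mul_le_mul_of_nonneg_left (by linarith) h3
  have eJ : (D:ℝ) * swN p (m1 (G.cl y)) (m2 (G.cl y)) (s1 (G.cl y) + s2 (G.cl y)) (G.J y)
      = m1 (G.cl y) * (21 / 40 * D + 2 * (D * (G.J y + (p.s2:ℝ) / 2) / p.M)
          - 4 * ((p.b:ℝ) / p.m * D))
        + m2 (G.cl y) * (21 / 40 * D + 4 * (D * (G.J y + (p.s2:ℝ) / 2) / p.M)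
          - 2 * ((p.b:ℝ) / p.m * D))
        + (s1 (G.cl y) + s2 (G.cl y)) * (39 / 40 * D) := by
    unfold swN
    field_simp
  rw [eJ]
  unfold swF
  rcases hb : y.2.1 with _ | _
  · -- a point of `P`
    have hn := abs_le.1 (G.near y hy)
    have el : lc D y.2 = y.2.2 := by
      unfold lc
      rw [hb]
      simp
    rw [el] at hn
    unfold yc at hn
    have hJ : D * (G.J y + (p.s2:ℝ) / 2) / p.M ≤ y.2.2 + 12 := by
      rw [div_le_iff₀ hM]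
      have a1 : G.J y + (p.s2:ℝ) / 2 ≤ (p.M:ℝ) * y.2.2 / D + 12 * p.M / D := by linarith [hn.2]
      have a2 := mul_le_mul_of_nonneg_left a1 hDp.le
      have a3 : (D:ℝ) * ((p.M:ℝ) * y.2.2 / D + 12 * p.M / D) = (y.2.2 + 12) * p.M := by
        field_simp
      linarith
    have xR : (xRw K (rhoE D) t1 y.2 : ℝ) = 2 * K + 1 + rhoE D + 2 * (y.2.2 - 2 * t1) := by
      unfold xRw
      push_cast
      ring
    have xL : (xLw K (rhoE D) t1 y.2 : ℝ) = 2 * K + 1 + rhoE D + 2 * (2 * y.2.2 - t1) := by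
      unfold xLw
      push_cast
      ring
    have k1 : 21 / 40 * D + 2 * (D * (G.J y + (p.s2:ℝ) / 2) / p.M) - 4 * ((p.b:ℝ) / p.m * D)
        ≤ xRw K (rhoE D) t1 y.2 + 25 := by
      rw [xR]
      linarith
    have k2 : 21 / 40 * D + 4 * (D * (G.J y + (p.s2:ℝ) / 2) / p.M) - 2 * ((p.b:ℝ) / p.m * D)
        ≤ xLw K (rhoE D) t1 y.2 + 50 := by
      rw [xL]
      linarith
    have k3 := mul_le_mul_of_nonneg_left k1 h1
    have k4 := mul_le_mul_of_nonneg_left k2 h2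
    linarith
  · obtain ⟨z1, z2⟩ := hs hb
    rw [z1, z2]
    linarith

/-- THE ONE-BODY PART OF AN IN ROW from the Bool check of all nodes: `n1inw` with the lengths of the
additional prices -/
theorem one_rowI {p : CellPar} (hp : p.Pos) (ho : p.o = false) {U : ℕ} (hU : 0 < U) {S : ℤ}
    {segs : List SegR} {cs : List Cl} {iw : List ℕ} (hcs : CsB p.M p.s2 p.q S segs cs)
    {w : ℕ → ℕ → ℕ} (hw : wChk p.M p.s2.toNat w = true) {g : ℕ → ℕ → ℕ → ℕ} {a : ℕ → ℕ}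
    {W : ℕ} (hW : 0 < W) {n1 n2 ns : ℕ → ℕ} (hsw : SwOK W cs n1 n2) {x : ℕ → ℤ}
    (hx : xwChk p U W segs S n1 n2 ns x = true)
    (h : oneR p U S segs cs iw w g a x = true)
    {D K E t0 t1 wl c1 c2 c3 : ℤ} {cl : P4 → Fin cs.length} (hD : D = 4 * K + 1) (hK : 1 ≤ K)
    (hK2 : 100 ≤ K) (hDM : 13 * (p.M : ℤ) ≤ D)
    (hcl : ClMap (fun i : Fin cs.length => cs.get i) p.q D K cl)
    (hiw : ∀ y, InR D K y.2 → nth 0 iw (cl y) = 1 → wl ≤ y.2.2)
    (hc : CellAt p.m p.a p.b D t0 t1) (hk : CutOK p.m p.a D t0 wl c1 c2 c3)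
    (hE : 40 * E ≤ D)
    {gr : Fin 3 → Fin cs.length × ℤ → Bool → ℤ → ℝ} {g0 : Fin 3 → Fin cs.length × ℤ → ℤ → ℝ}
    (hg0 : ∀ i ζ k, 0 ≤ g0 i ζ k) (hgr : ∀ i ζ e k, g0 i ζ k ≤ gr i ζ e k)
    (hg : ∀ (i : Fin 3) (ζ : Fin cs.length × ℤ) (j : ℕ), j < 3 * p.M + 5 →
      (cs.get ζ.1).lo ≤ ζ.2 → ζ.2 ≤ (cs.get ζ.1).hi →
      g0 i ζ ((j:ℤ) - p.M - 2) = (g (KC.vT segs S (ζ.1, ζ.2)) i j : ℝ) / U) {Bg : ℝ}
    (hBg : ∀ ζ, ∑ i : Fin 3, ∑ k ∈ Iz p.M, g0 i ζ k ≤ Bg)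
    {m1 m2 s1 s2 : Fin cs.length → ℝ} (hm1 : ∀ c, m1 c = (n1 c : ℝ) / W)
    (hm2 : ∀ c, m2 c = (n2 c : ℝ) / W) (hs : ∀ c, s1 c + s2 c = (ns c : ℝ) / W) :
    ∃ (B : P4 → ℝ) (e1 : ℝ), 0 ≤ e1
      ∧ e1 = oneC p.M (∑ c : Fin cs.length, ∑ i ∈ nd (mkGrd hp.q hD hK hcs.runF hcl).lo
          (mkGrd hp.q hD hK hcs.runF hcl).hi c, |((p.nb (nth 0 iw c) (cs.get c) i : ℚ) : ℝ)
          + (bzS p.M ((p.s2:ℝ) / 2) (cutL p.M ((p.s2:ℝ) / 2)) (cutR p.M ((p.s2:ℝ) / 2))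
            (fun j => g0 j (c, i)) + p.M * -((x (KC.vT segs S (c, i)) : ℝ) / (2 * U))) / p.M|) Bg 75
      ∧ (∀ (lR lL : ℤ → Bool) (y : P4), InR D K y.2 →
        B y ≤ ∑ s ∈ Ico 0 D, ((mkGrd hp.q hD hK hcs.runF hcl).gR gr y (lR s) s
          + (mkGrd hp.q hD hK hcs.runF hcl).gL gr y (lL s) s))
      ∧ (∀ y : P4, InR D K y.2 → -(2 * e1) ≤ m1tc K (rhoE D) E t0 t1
        (n1inw K (rhoE D) E wl t0 t1 c1 c2) (fun y => B y
          + swF (mkGrd hp.q hD hK hcs.runF hcl) t1 m1 m2 s1 s2 y) (fun _ => 0) y)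
      ∧ (mkGrd hp.q hD hK hcs.runF hcl).OneP
        (fun y => -(m1tc K (rhoE D) E t0 t1 (n1inw K (rhoE D) E wl t0 t1 c1 c2) (fun y => B y
          + swF (mkGrd hp.q hD hK hcs.runF hcl) t1 m1 m2 s1 s2 y) (fun _ => 0) y
          / (3 * D + 11)))
        (fun ζ => -((a (KC.vT segs S (ζ.1, ζ.2)) : ℝ) / (2 * U))) (e1 / (3 * D)) := by
  have hU' : (0:ℝ) < U := by exact_mod_cast hU
  have hW' : (0:ℝ) < W := by exact_mod_cast hW
  have hDp : (0:ℝ) ≤ D := by exact_mod_cast (by omega : (0:ℤ) ≤ D)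
  set G := mkGrd hp.q hD hK hcs.runF hcl with hG
  have em : ∀ (B : P4 → ℝ) (y : P4), m1tc K (rhoE D) E t0 t1
        (n1inw K (rhoE D) E wl t0 t1 c1 c2) (fun y => B y + swF G t1 m1 m2 s1 s2 y)
          (fun _ => 0) y
      = m1tc K (rhoE D) E t0 t1 (n1inw K (rhoE D) E wl t0 t1 c1 c2) B
        (fun y => -swF G t1 m1 m2 s1 s2 y) y := by
    intro B y
    unfold m1tc
    ring
  simp only [em]
  refine one_rowB hp hU hcs hw h hD hK hK2 hDM hcl hiw hc hk hE hg0 hgr hg hBg (cw := 75)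
    (by norm_num) (wf := swF G t1 m1 m2 s1 s2) (fun y hy => ?_) (fun y _ => ?_)
  · have hok : G.ok y := (G.okE y).2 hy
    have hcl' : (G.cl y : ℕ) < cs.length := (G.cl y).2
    have q1 : (m1 (G.cl y)) = (n1 (G.cl y) : ℝ) / W := hm1 _
    have q2 : (m2 (G.cl y)) = (n2 (G.cl y) : ℝ) / W := hm2 _
    have q3 : (s1 (G.cl y) + s2 (G.cl y)) = (ns (G.cl y) : ℝ) / W := hs _
    have b1 : (n1 (G.cl y) : ℝ) ≤ W := by exact_mod_cast hsw.h1 _ hcl'
    have b2 : (n2 (G.cl y) : ℝ) ≤ W := by exact_mod_cast hsw.h2 _ hcl'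
    refine le_trans ?_ (swF_ge hp G hD hK hc (s1 := s1) (s2 := s2) hok
      (by rw [q1]; positivity) (by rw [q2]; positivity)
      (by rw [q1, div_le_one hW']; exact b1) (by rw [q2, div_le_one hW']; exact b2)
      (by rw [q3]; positivity) (fun hb => ?_))
    · refine sub_le_sub_right (mul_le_mul_of_nonneg_left ?_ hDp) _
      refine GrdD.kX_le G y fun ζ hζ => ?_
      have hz := mem_Icc.1 hζ
      obtain ⟨v1, v2, v3⟩ := hcs.vT ζ hz.1 hz.2
      have k := xwN_le hp hU hW segs S n1 n2 ns (KC.vT segs S (ζ.1, ζ.2)) v3 v2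
      have k2 := of_decide_eq_true ((allN_iff _ _).1 hx _ v1)
      have k3 : (xwN p U W segs S n1 n2 ns (KC.vT segs S (ζ.1, ζ.2)) : ℝ)
          ≤ (x (KC.vT segs S (ζ.1, ζ.2)) : ℝ) := by exact_mod_cast k2
      rw [hm1, hm2, hs]
      refine le_trans ?_ k
      exact neg_le_neg (div_le_div_of_nonneg_right k3 (by positivity))
    · have hh := hcl.has y hy
      have e : (clN cs (G.cl y)).sd = true := by
        have h1 := Cl.has_sd hh
        have h2 : clN cs (G.cl y) = cs.get (cl y) := clN_get cs (cl y)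
        rw [h2, ← hb]
        exact h1.symm
      obtain ⟨z1, z2⟩ := hsw.h3 _ hcl' e
      rw [q1, q2, z1, z2]
      simp
  · rw [n1inw_cut K (rhoE D) E wl t0 t1 c1 c2 c3, ho]
    linarith

end

end MP61673a.RowI9
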