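import Pool.Agent.Mu673.RIdef
import Pool.Agent.Mu673.OneI

/-!
LENGTH OF THE ADDITIONAL PRICES OF AN IN CELL, for the record `RI` (helper17).
-/

set_option autoImplicit false

namespace MP61673a.RowI9

open Finset MP61673a.W MP61673a.Kink MP61673a.Bary MP61673a.Sos MP61673a.Fin MP61673a.FE MP61673a.KC

namespace RI

/-- class weight as a natural number -/
def nw (l : List ℤ) (c : ℕ) : ℕ := (nth 0 l c).toNat

/-- sum of the static weights of a class -/
def nws (A : RI) (c : ℕ) : ℕ := nw A.s1 c + nw A.s2 c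

/-- THE CHECK OF THE WINDOW LENGTHS: weights of the moving windows at most one and zero on the
classes of `Q`, the lengths `xw` of the record at most the lengths of the weights -/
def chkXw (A : RI) : Bool :=
  swChk A.ko A.cs (nw A.m1) (nw A.m2)
  && xwChk A.p A.U A.ko A.d.segs A.s0 (nw A.m1) (nw A.m2) A.nws A.xN

noncomputable section

variable {A : RI}

lemma GOK.wr_nw (g : A.GOK) {l : List ℤ} (hl : l ∈ [A.s1, A.s2, A.m1, A.m2, A.a1, A.a2]) (c : ℕ) :
    A.wr l c = (nw l c : ℝ) / A.ko := by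
  have h : ((nw l c : ℕ) : ℤ) = nth 0 l c := Int.toNat_of_nonneg (g.wt l hl c).1
  have h' : ((nw l c : ℕ) : ℝ) = ((nth 0 l c : ℤ) : ℝ) := by exact_mod_cast h
  unfold wr
  rw [h']

/-- THE LENGTHS OF THE RECORD BELOW THE LENGTH OF THE ADDITIONAL PRICES: hypothesis `hSW` of
`row_at9` with `SW = swF` and `cw = 75` -/
theorem GOK.sw_ge (g : A.GOK) (h : A.chkXw = true) {D K t0 t1 : ℤ} {cl : P4 → Fin A.cs.length}
    (hD : D = 4 * K + 1) (hK : 1 ≤ K)
    (hcl : ClMap (fun i : Fin A.cs.length => A.cs.get i) A.p.q D K cl)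
    (hc : CellAt A.p.m A.p.a A.p.b D t0 t1)
    {G : GrdD (Fin A.cs.length) A.p.M ((A.p.s2:ℝ) / 2) (12 * A.p.M / D) D K (rhoE D)
      (cutL A.p.M ((A.p.s2:ℝ) / 2)) (cutR A.p.M ((A.p.s2:ℝ) / 2))}
    (hG : G = mkGrd g.pos.q hD hK g.cs.runF hcl) (y : P4) (hy : InR D K y.2) :
    (D:ℝ) * kX G.lo G.hi (fun ζ => -((A.xN (KC.vT A.d.segs A.s0 (ζ.1, ζ.2)) : ℝ) / (2 * A.U)))
        (G.pt y) - 75
      ≤ swF G t1 (fun c => A.wr A.m1 c) (fun c => A.wr A.m2 c) (fun c => A.wr A.s1 c)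
        (fun c => A.wr A.s2 c) y := by
  unfold chkXw at h
  rw [Bool.and_eq_true] at h
  have hsw := swChk_sound h.1
  have hx := h.2
  have hU' := g.U_pos
  have hW' := g.ko_pos
  have hDp : (0:ℝ) ≤ D := by exact_mod_cast (by omega : (0:ℤ) ≤ D)
  have hok : G.ok y := (G.okE y).2 hy
  have hGcl : G.cl = cl := by rw [hG]; rfl
  have hlen : (G.cl y : ℕ) < A.cs.length := (G.cl y).2
  have q1 := fun c : Fin A.cs.length => g.wr_nw (l := A.m1) (by simp) c
  have q2 := fun c : Fin A.cs.length => g.wr_nw (l := A.m2) (by simp) c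
  have q3 : ∀ c : Fin A.cs.length, A.wr A.s1 c + A.wr A.s2 c = (A.nws c : ℝ) / A.ko := fun c => by
    rw [g.wr_nw (l := A.s1) (by simp), g.wr_nw (l := A.s2) (by simp), ← add_div]
    unfold nws
    push_cast
    rfl
  have b1 : (nw A.m1 (G.cl y) : ℝ) ≤ A.ko := by exact_mod_cast hsw.h1 _ hlen
  have b2 : (nw A.m2 (G.cl y) : ℝ) ≤ A.ko := by exact_mod_cast hsw.h2 _ hlen
  refine le_trans ?_ (swF_ge g.pos G hD hK hc (m1 := fun c => A.wr A.m1 c)
    (m2 := fun c => A.wr A.m2 c) (s1 := fun c => A.wr A.s1 c) (s2 := fun c => A.wr A.s2 c) hok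
    (by rw [q1]; positivity) (by rw [q2]; positivity)
    (by rw [q1, div_le_one hW']; exact b1)
    (by rw [q2, div_le_one hW']; exact b2)
    (by rw [q3]; positivity) (fun hb => ?_))
  · refine sub_le_sub_right (mul_le_mul_of_nonneg_left ?_ hDp) _
    refine GrdD.kX_le G y fun ζ hζ => ?_
    rw [hG] at hζ
    have hz := mem_Icc.1 hζ
    obtain ⟨v1, v2, v3⟩ := g.cs.vT ζ hz.1 hz.2
    have k := xwN_le g.pos g.U g.ko A.d.segs A.s0 (nw A.m1) (nw A.m2) A.nws
      (KC.vT A.d.segs A.s0 (ζ.1, ζ.2)) v3 v2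
    have k2 := of_decide_eq_true ((allN_iff _ _).1 hx _ v1)
    have k3 : (xwN A.p A.U A.ko A.d.segs A.s0 (nw A.m1) (nw A.m2) A.nws
        (KC.vT A.d.segs A.s0 (ζ.1, ζ.2)) : ℝ)
        ≤ (A.xN (KC.vT A.d.segs A.s0 (ζ.1, ζ.2)) : ℝ) := by exact_mod_cast k2
    rw [q1, q2, q3]
    refine le_trans ?_ k
    exact neg_le_neg (div_le_div_of_nonneg_right k3 (by positivity))
  · have hh := hcl.has y hy
    have e : (clN A.cs (G.cl y)).sd = true := by
      have h1 := Cl.has_sd hh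
      have h2 : clN A.cs (G.cl y) = A.cs.get (cl y) := by
        rw [hGcl]
        exact clN_get A.cs (cl y)
      rw [h2, ← hb]
      exact h1.symm
    obtain ⟨z1, z2⟩ := hsw.h3 _ hlen e
    rw [q1, q2, z1, z2]
    simp

end

end RI

end MP61673a.RowI9
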