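import Pool.Agent.Mu673.AsmE

set_option autoImplicit false

/-!
ROWS: the rows of the strays of a cell of depths (`RowCell`), of all depths beyond a bound
(`RowTail`), and how cells are put together.
-/

namespace MP61673a.Fin

open Finset MP61673a.W MP61673a.LiftW MP61673a.Mids
open MP61673a.Lift hiding PP QQ

noncomputable section

/-- the rows of the depths `τ` with `a D < m τ ≤ b D`, for all frames of one `N` -/
def RowCell (K0 : ℤ) (f C : ℝ) (N : ℤ) (m a b : ℤ) : Prop :=
  ∀ {P Q : WS} {D K ρ V E : ℤ} {ξR ξL : ℤ → ℝ}, EnvS K0 f P Q D K ρ V E N ξR ξL →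
    ∀ lo τ : ℤ, 0 ≤ lo → lo ≤ 1 → nearE D < τ → a * D < m * τ → m * τ ≤ b * D → IsStray Q τ →
      deepD P Q D K ρ V E (nearE D) (kapE K ρ) τ - C * K
        ≤ netE P Q deeper D K (K - ρ) ρ ρ V E lo τ

/-- the rows of the depths `τ` with `a D < m τ` (last cell) -/
def RowTail (K0 : ℤ) (f C : ℝ) (N : ℤ) (m a : ℤ) : Prop :=
  ∀ {P Q : WS} {D K ρ V E : ℤ} {ξR ξL : ℤ → ℝ}, EnvS K0 f P Q D K ρ V E N ξR ξL →
    ∀ lo τ : ℤ, 0 ≤ lo → lo ≤ 1 → nearE D < τ → a * D < m * τ → IsStray Q τ →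
      deepD P Q D K ρ V E (nearE D) (kapE K ρ) τ - C * K
        ≤ netE P Q deeper D K (K - ρ) ρ ρ V E lo τ

variable {K0 K1 : ℤ} {f f' C C' : ℝ} {N m a b c : ℤ}

lemma RowCell.mono (h : RowCell K0 f C N m a b) (hK : K0 ≤ K1) (hf : f' ≤ f) (hC : C ≤ C') :
    RowCell K1 f' C' N m a b := by
  intro P Q D K ρ V E ξR ξL env lo τ h1 h2 h3 h4 h5 h6
  have env' : EnvS K0 f P Q D K ρ V E N ξR ξL := env.weaken hK hf
  have r := h env' lo τ h1 h2 h3 h4 h5 h6
  have hK' : (0:ℝ) ≤ K := by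
    have := env.hK1
    exact_mod_cast (show (0:ℤ) ≤ K by omega)
  have := mul_le_mul_of_nonneg_right hC hK'
  linarith

lemma RowTail.mono (h : RowTail K0 f C N m a) (hK : K0 ≤ K1) (hf : f' ≤ f) (hC : C ≤ C') :
    RowTail K1 f' C' N m a := by
  intro P Q D K ρ V E ξR ξL env lo τ h1 h2 h3 h4 h6
  have env' : EnvS K0 f P Q D K ρ V E N ξR ξL := env.weaken hK hf
  have r := h env' lo τ h1 h2 h3 h4 h6
  have hK' : (0:ℝ) ≤ K := by
    have := env.hK1
    exact_mod_cast (show (0:ℤ) ≤ K by omega)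
  have := mul_le_mul_of_nonneg_right hC hK'
  linarith

/-- one more cell in front of the rest -/
lemma RowTail.cons (h1 : RowCell K0 f C N m a b) (h2 : RowTail K0 f C N m b) :
    RowTail K0 f C N m a := by
  intro P Q D K ρ V E ξR ξL env lo τ g1 g2 g3 g4 g6
  by_cases hc : m * τ ≤ b * D
  · exact h1 env lo τ g1 g2 g3 g4 hc g6
  · exact h2 env lo τ g1 g2 g3 (by omega) g6

/-- cells with another denominator -/
lemma RowCell.scale {m' a' b' : ℤ} (hm : 0 < m) (hm' : 0 < m') (h1 : a' * m = a * m')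
    (h2 : b' * m = b * m') (h : RowCell K0 f C N m a b) : RowCell K0 f C N m' a' b' := by
  intro P Q D K ρ V E ξR ξL env lo τ g1 g2 g3 g4 g5 g6
  refine h env lo τ g1 g2 g3 ?_ ?_ g6
  · have e1 : a * D * m' < m * τ * m' := by
      calc a * D * m' = (a * m') * D := by ring
        _ = (a' * m) * D := by rw [h1]
        _ = m * (a' * D) := by ring
        _ < m * (m' * τ) := by exact mul_lt_mul_of_pos_left g4 hm
        _ = m * τ * m' := by ring
    exact lt_of_mul_lt_mul_right e1 hm'.le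
  · have e1 : m * τ * m' ≤ b * D * m' := by
      calc m * τ * m' = m * (m' * τ) := by ring
        _ ≤ m * (b' * D) := by exact mul_le_mul_of_nonneg_left g5 hm.le
        _ = (b' * m) * D := by ring
        _ = (b * m') * D := by rw [h2]
        _ = b * D * m' := by ring
    exact le_of_mul_le_mul_right e1 hm'

lemma RowTail.scale {m' a' : ℤ} (hm : 0 < m) (hm' : 0 < m') (h1 : a' * m = a * m')
    (h : RowTail K0 f C N m a) : RowTail K0 f C N m' a' := by
  intro P Q D K ρ V E ξR ξL env lo τ g1 g2 g3 g4 g6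
  refine h env lo τ g1 g2 g3 ?_ g6
  have e1 : a * D * m' < m * τ * m' := by
    calc a * D * m' = (a * m') * D := by ring
      _ = (a' * m) * D := by rw [h1]
      _ = m * (a' * D) := by ring
      _ < m * (m' * τ) := by exact mul_lt_mul_of_pos_left g4 hm
      _ = m * τ * m' := by ring
  exact lt_of_mul_lt_mul_right e1 hm'.le

/-! ### Cells with existential constants -/

/-- the rows of the depths `τ` with `a D < m τ ≤ b D` for one `N`, with some constants -/
def CellEx (N m a b : ℤ) : Prop := ∃ (K0 : ℤ) (C : ℝ), RowCell K0 (1 / 20) C N m a b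

/-- the rows of the depths `τ` with `a D < m τ` for one `N`, with some constants -/
def TailEx (N m a : ℤ) : Prop := ∃ (K0 : ℤ) (C : ℝ), RowTail K0 (1 / 20) C N m a


lemma TailEx.cons (h1 : CellEx N m a b) (h2 : TailEx N m b) : TailEx N m a := by
  obtain ⟨K1, C1, h1⟩ := h1
  obtain ⟨K2, C2, h2⟩ := h2
  exact ⟨max K1 K2, max C1 C2,
    RowTail.cons (h1.mono (le_max_left _ _) le_rfl (le_max_left _ _))
      (h2.mono (le_max_right _ _) le_rfl (le_max_right _ _))⟩

lemma CellEx.scale {m' a' b' : ℤ} (hm : 0 < m) (hm' : 0 < m') (h1 : a' * m = a * m')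
    (h2 : b' * m = b * m') (h : CellEx N m a b) : CellEx N m' a' b' := by
  obtain ⟨K1, C1, h⟩ := h
  exact ⟨K1, C1, h.scale hm hm' h1 h2⟩

lemma TailEx.scale {m' a' : ℤ} (hm : 0 < m) (hm' : 0 < m') (h1 : a' * m = a * m')
    (h : TailEx N m a) : TailEx N m' a' := by
  obtain ⟨K1, C1, h⟩ := h
  refine ⟨K1, C1, ?_⟩
  intro P Q D K ρ V E ξR ξL env lo τ g1 g2 g3 g4 g6
  refine h env lo τ g1 g2 g3 ?_ g6
  have e1 : a * D * m' < m * τ * m' := by
    calc a * D * m' = (a * m') * D := by ring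
      _ = (a' * m) * D := by rw [h1]
      _ = m * (a' * D) := by ring
      _ < m * (m' * τ) := by exact mul_lt_mul_of_pos_left g4 hm
      _ = m * τ * m' := by ring
  exact lt_of_mul_lt_mul_right e1 hm'.le

/-- cells of another denominator in front of the rest -/
lemma TailEx.cons' {m' a' b' : ℤ} (hm : 0 < m) (hm' : 0 < m') (h1 : CellEx N m' a' b')
    (e1 : a * m' = a' * m) (e2 : b * m' = b' * m) (h2 : TailEx N m b) : TailEx N m a :=
  TailEx.cons (h1.scale hm' hm e1 e2) h2

end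

end MP61673a.Fin
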