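import Pool.Agent.Mu673.NetCk
import Pool.Agent.Mu673.CellMain

/-!
`RowCell` and `RowTail` of an OUT cell from a statement at one depth, with all position facts.
-/

set_option autoImplicit false

namespace MP61673a.FE

open MP61673a.W MP61673a.Fin

/-- the share of the shift in the midpoints -/
lemma EnvS.act {K0 : ℤ} {f : ℝ} {P Q : WS} {D K ρ V E N : ℤ} {ξR ξL : ℤ → ℝ}
    (h : EnvS K0 f P Q D K ρ V E N ξR ξL) : D < 40 * (2 * rhoE D - E) := by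
  have h1 := h.E_upper
  have h2 := (rho_le D).2
  have h3 := h.hK1
  have h4 := h.hD
  omega

lemma EnvS.E40 {K0 : ℤ} {f : ℝ} {P Q : WS} {D K ρ V E N : ℤ} {ξR ξL : ℤ → ℝ}
    (h : EnvS K0 f P Q D K ρ V E N ξR ξL) : 40 * E ≤ D := by
  have h1 := h.E_upper
  have h3 := h.hK1
  have h4 := h.hD
  omega

/-- ALL FACTS ABOUT THE POSITION of an OUT cell with the depths `t0 ≤ t ≤ t1` and the cuts
`c1 c2 c3` -/
structure PosOut (m a b D V lo t0 t t1 c1 c2 c3 : ℤ) : Prop where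
  lo0 : 0 ≤ lo
  lo1 : lo ≤ 1
  V : V < t0
  near : nearE D < t
  h0 : t0 ≤ t
  h1 : t ≤ t1
  hD1 : t0 ≤ D + 1
  at_ : CellAt m a b D t0 t1
  cuts : Cuts D t0 c1 c2 c3
  cok : CutOK m a D t0 (lo - t0) c1 c2 c3
  cg : CutG m a D c1 c2 c3

/-- the statement at one depth for all frames of one `N` -/
def DepthOut (K0 : ℤ) (f C : ℝ) (N m a b : ℤ) : Prop :=
  ∀ {P Q : WS} {D K V E : ℤ} {ξR ξL : ℤ → ℝ}, EnvS K0 f P Q D K (rhoE D) V E N ξR ξL →
    ∀ {lo t0 t t1 c1 c2 c3 : ℤ}, PosOut m a b D V lo t0 t t1 c1 c2 c3 →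
      RowAt C P Q D K (rhoE D) V E lo t

lemma zE_le {m a : ℤ} (hm : 0 < m) (ha : m ≤ 8 * a) (D : ℤ) (hD : 0 ≤ D) :
    m * zE D ≤ a * D := by
  have h1 : 8 * zE D ≤ D := by
    unfold zE
    omega
  have h2 := mul_le_mul_of_nonneg_left h1 hm.le
  have h3 := mul_le_mul_of_nonneg_right ha hD
  linarith

/-- OUT CELL -/
theorem rowCell_out {K0 : ℤ} {f C : ℝ} {N m a b : ℤ} (hm : 0 < m) (ha : m ≤ 8 * a)
    (ham : a ≤ m) (hb : 0 ≤ b) (hb2 : 2 * b ≤ 3 * m) (H : DepthOut K0 f C N m a b) :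
    RowCell K0 f C N m a b := by
  refine rowCell_of hm (fun D hD => zE_le hm ha D hD) ?_
  intro P Q D K ρ V E ξR ξL env lo t0 t1 g1 g2 hV hp t g3 g4 g5
  obtain rfl : ρ = rhoE D := env.eρ
  have hD := env.hD
  have hK := env.hK1
  obtain ⟨p0, p1, p2, p3⟩ := hp
  have hD0 : 0 ≤ D := by omega
  refine H env ⟨g1, g2, hV, g3, g4, g5, ?_, CellAt.of_pos hm hD0 hb hb2 p0 p2 p3,
    Cuts.of_cell hm p0 p1, CutOK.of_cell hm (by omega), CutG.of_cell hm⟩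
  have h1 := mul_le_mul_of_nonneg_right ham hD0
  have h2 : m * t0 ≤ m * (D + 1) := by linarith
  exact le_of_mul_le_mul_left h2 hm

/-- LAST OUT CELL, `t1 = D + 11` and `b / m > 1` -/
theorem rowTail_out {K0 : ℤ} {f C : ℝ} {N m a b d : ℤ} (hm : 0 < m) (ha : m ≤ 8 * a)
    (ham : a ≤ m) (hmb : m ≤ b) (hd : 0 ≤ d) (hd4 : d ≤ 4 * K0 + 1)
    (hb : m * (d + 11) ≤ b * d) (hb2 : 2 * b ≤ 3 * m) (H : DepthOut K0 f C N m a b) :
    RowTail K0 f C N m a := by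
  refine rowTail_of hm (fun D hD => zE_le hm ha D hD) ?_
  intro P Q D K ρ V E ξR ξL env lo t0 g1 g2 hV p0 p1 _ t g3 g4 g5
  obtain rfl : ρ = rhoE D := env.eρ
  have hD := env.hD
  have hK := env.hK1
  have hK0 := env.hK0
  have hD0 : 0 ≤ D := by omega
  refine H env ⟨g1, g2, hV, g3, g4, g5, ?_,
    CellAt.of_tail hm hmb hd hb (by omega) hb2 p0,
    Cuts.of_cell hm p0 p1, CutOK.of_cell hm (by omega), CutG.of_cell hm⟩
  have h1 := mul_le_mul_of_nonneg_right ham hD0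
  have h2 : m * t0 ≤ m * (D + 1) := by linarith
  exact le_of_mul_le_mul_left h2 hm

end MP61673a.FE
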