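import Pool.Agent.Mu673.RowIn
import Pool.Agent.Mu673.FFd
import Pool.Agent.Mu673.OneJ
import Pool.Agent.Mu673.RowWrap
import Pool.Agent.Mu673.RowDefs

/-!
AN IN CELL FROM ITS CERTIFICATE (helper17): all checks as Bools give `CellEx`.
-/

set_option autoImplicit false

namespace MP61673a.RowI9

open Finset MP61673a.W MP61673a.Kink MP61673a.Bary MP61673a.Sos MP61673a.Fin MP61673a.FE MP61673a.KC
open MP61673a.RowI MP61673a.Row9 MP61673a.CkI

noncomputable section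

namespace RI

variable {A : RI} {W : NW}

/-- the constants of the cell -/
def chkCell (A : RI) : Bool :=
  decide (A.p.o = false) && decide (A.p.m ≤ 80 * A.p.a)
  && decide (64 * (A.p.b - A.p.a) ≤ A.p.m) && decide (8 * A.p.b ≤ A.p.m) && decide (0 ≤ A.p.b)

lemma chkCell_imp (h : A.chkCell = true) : A.p.o = false ∧ A.p.m ≤ 80 * A.p.a
    ∧ 64 * (A.p.b - A.p.a) ≤ A.p.m ∧ 8 * A.p.b ≤ A.p.m ∧ 0 ≤ A.p.b := by
  unfold chkCell at h
  simp only [Bool.and_eq_true, decide_eq_true_eq] at h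
  obtain ⟨⟨⟨⟨h1, h2⟩, h3⟩, h4⟩, h5⟩ := h
  exact ⟨h1, h2, h3, h4, h5⟩

/-- THE ADDITIONAL PRICES FROM THE CLASS DATA -/
theorem winF (g : A.GOK) {D K E w t0 t1 c1 c2 : ℤ} {δ σ kL kR : ℝ} {M : ℕ}
    {G : GrdD (Fin A.cs.length) M σ δ D K (rhoE D) kL kR} {cl : P4 → Fin A.cs.length}
    (hGcl : G.cl = cl)
    {sd : Fin A.cs.length → Bool} {w1 w2 q1 q2 o1 o2 a1 a2 e1 e2 : Fin A.cs.length → ℝ}
    {cF2 vF2 cM0 vM0 cM1 vM1 cK1 vK1 cK2 vK2 h1 h0 h2 h3 vO vA : Fin A.cs.length → ℝ}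
    (hfl : FlgF G E w t0 t1 c1 c2 sd w1 w2 q1 q2 o1 o2 a1 a2 (fun c => A.wr A.m1 c)
      (fun c => A.wr A.m2 c) e1 e2 cF2 vF2 cM0 vM0 cM1 vM1 cK1 vK1 cK2 vK2 h1 h0 h2 h3 vO vA)
    (hD : D = 4 * K + 1) (hK : 10000 ≤ K) (h01 : t0 ≤ t1) (hc1 : c1 ≤ 2 * t0)
    (hc2 : 2 * c2 ≤ t0 + 1) :
    WinF A D K (rhoE D) cl (wR G t1 (fun c => A.wr A.m1 c) (fun c => A.wr A.s2 c))
      (wL G t1 (fun c => A.wr A.m2 c) (fun c => A.wr A.s1 c))
      (swF G t1 (fun c => A.wr A.m1 c) (fun c => A.wr A.m2 c) (fun c => A.wr A.s1 c)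
        (fun c => A.wr A.s2 c)) := by
  have hr := rho_le D
  have s1 : ∀ c : Fin A.cs.length, 0 ≤ A.wr A.s1 c := fun c => (g.wr_bd (by simp) c).1
  have s2 : ∀ c : Fin A.cs.length, 0 ≤ A.wr A.s2 c := fun c => (g.wr_bd (by simp) c).1
  refine ⟨fun x s => hfl.w_nonneg s1 s2 x s, fun x hx s _ _ => ?_, fun x hx s _ _ => ?_,
    fun x hx => ?_⟩
  · have k := hfl.wR_le hD hr.1 h01 hc1 s2 ((G.okE x).2 hx) s
    rw [hGcl] at k
    exact k
  · have k := hfl.wL_le hD hr.1 h01 hc2 s1 ((G.okE x).2 hx) s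
    rw [hGcl] at k
    exact k
  · exact hfl.sum_w hD (by omega) (by omega) (by omega) hr.1 h01 hc1 hc2 _ _ ((G.okE x).2 hx)

/-- ALL CHECKS OF AN IN CELL EXCEPT THE ROWS -/
structure InOK (A : RI) (W : NW) : Prop where
  g : A.chkG = true
  kz : A.chkKz = true
  win : A.chkWin = true
  one : A.chkOne = true
  xw : A.chkXw = true
  net : A.netI W = true
  fam : A.chkFam W = true
  fct : MP61673a.RowO.fctChk A.d A.cs A.p.M A.p.s2 A.p.q A.s0 = true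
  pos : A.chkCell = true

/-- IN CELL -/
theorem cell_in (h : A.InOK W) (hn : NdsOK9 A.d A.r A.exf A.mcf A.mxf 0 (vR A.d.segs))
    {k : ℕ} (hokr : okR k A.d = true) (hrow : RowOK A.d 0 (vR A.d.segs)) {m a b : ℤ}
    (hm : A.p.m = m) (ha : A.p.a = a) (hb : A.p.b = b) (N : ℤ) : CellEx N m a b := by
  have g := chkG_imp h.g
  have hO := netI_imp h.net
  obtain ⟨p1, p2, p3, p4, p5⟩ := chkCell_imp h.pos
  subst hm ha hb
  refine ⟨max (13 * (A.p.M : ℤ)) (39 * (A.p.m * A.p.q)), A.cst 75 (cFam A),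
    rowCell_in_w g.pos.m p2 p3 p4 ?_⟩
  intro P Q D K ρ V E ξR ξL env lo t0 t1 c1 c2 g1 g2 g3 g4 hp e1 e2 b1 b2 b3 b4 hmid t hNt h0 h1
    hnet hdk
  obtain rfl : ρ = rhoE D := env.eρ
  obtain ⟨q0, q1, q2, q3⟩ := hp
  have hm0 := g.pos.m
  have hD : D = 4 * K + 1 := env.hD
  have hK1 := env.hK1
  have hKK := env.hK0
  have hK : 1 ≤ K := by omega
  have hE := env.E_upper
  have hcA : CellAt A.p.m A.p.a A.p.b D t0 t1 :=
    CellAt.of_pos hm0 (by omega) p5 (by omega) q0 q2 q3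
  have hw : -t1 ≤ lo - t := by omega
  have hw' : lo - t ≤ 1 - t0 := by omega
  have hM1 := le_max_left (13 * (A.p.M : ℤ)) (39 * (A.p.m * A.p.q))
  have hM2 := le_max_right (13 * (A.p.M : ℤ)) (39 * (A.p.m * A.p.q))
  have k1 : CutUp (2 * A.p.a) A.p.m D c1 := by
    rw [e1]
    exact cutUp_div hm0
  have k1' : CutDn (2 * A.p.a) A.p.m D c1 := by
    rw [e1]
    exact cutDn_div hm0
  have k2 : CutUp A.p.a (2 * A.p.m) D c2 := by
    rw [e2]
    exact cutUp_div (by omega)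
  have k2' : CutDn A.p.a (2 * A.p.m) D c2 := by
    rw [e2]
    exact cutDn_div (by omega)
  have hco : CutOK A.p.m A.p.a D t0 (lo - t) c1 c2
      (-((2 * A.p.a * D - A.p.m * D) / A.p.m) - 1) := by
    rw [e1, e2]
    exact CutOK.of_cell hm0 hw'
  obtain ⟨cl, hcl, hi1, hi2, -⟩ := g.cov.clMap g.pos.q hD hK hcA hw hw'
  obtain ⟨G, hG⟩ : ∃ G, G = mkGrd g.pos.q hD hK g.cs.runF hcl := ⟨_, rfl⟩
  have hGcl : G.cl = cl := by rw [hG]; rfl
  have hhas : ∀ x : P4, G.ok x → (clN A.cs (G.cl x)).has A.p.q D x.2 := fun x hx => by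
    rw [hGcl, clN_get]
    exact hcl.has x ((G.okE x).1 hx)
  have hj1 : ∀ x : P4, G.ok x → nth 0 A.iw (G.cl x) = 1 → lo - t ≤ x.2.2 := fun x hx hi => by
    rw [hGcl] at hi
    exact hi1 x ((G.okE x).1 hx) hi
  have hj2 : ∀ x : P4, G.ok x → nth 0 A.iw (G.cl x) = 2 → x.2.2 < lo - t := fun x hx hi => by
    rw [hGcl] at hi
    exact hi2 x ((G.okE x).1 hx) hi
  have hfl := hO.flg g.ko g.pos.q hD hK1 (by omega) hE hcA hw hw' k1 k1' k2 k2' hhas hj1 hj2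
  have hphi := famI_of hO h.fam g hD hK hK1 env.eV env.hE (EnvS.E40 env) hcA q2 hcl
  have hcF := cFam_nonneg A
  rw [← hG] at hphi
  have hDp : (0:ℝ) < D := by exact_mod_cast (by omega : (0:ℤ) < D)
  refine row_at9 g p1 h.kz h.win h.one hn hokr hrow h.fct env (by omega) hNt h0 h1 hcA hco hnet hdk
    hD hK hcl hi1 hG (winF g hGcl hfl hD hK1 (h0.trans h1) b2 b4) (by norm_num)
    (fun y hy => g.sw_ge h.xw hD hK hcl hcA hG y hy)
    (sym6_movF K (rhoE D) (lo - t) t0 t1 c1 c2 (fun x => A.wr A.a1 (G.cl x))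
      (fun x => A.wr A.a2 (G.cl x)))
    (net3_in hO g.ko g.pos.q hD hK1 env.eV env.hE (by omega) hE hmid hcA hw hw' k1 k1' k2 k2'
      hhas hj1 hj2 hphi) (by positivity) ?_
  rw [mul_div_assoc', div_le_iff₀ hDp]
  have hK2 : (K:ℝ) ≤ D := by exact_mod_cast (by omega : K ≤ D)
  have := mul_le_mul_of_nonneg_left hK2 hcF
  linarith

end RI

end

end MP61673a.RowI9
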