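import Pool.Agent.Mu673.KCmatr

/-!
SOUNDNESS of the fast check `rowCheckG`.
-/

set_option autoImplicit false

namespace MP61673a.KC

open Finset

lemma sumL_zero {α : Type} {f : α → ℕ} {l : List α} (h : ∀ a, f a = 0) : sumL f l = 0 := by
  induction l with
  | nil => rfl
  | cons a l ih =>
    have e1 : sumL f (a :: l) = f a + sumL f l := rfl
    rw [e1, h, ih]

lemma Pf_zero {d : DatR} {m c0 z i : ℕ} (h : ¬ i < m) : Pf d m c0 z i = 0 := by
  unfold Pf
  rw [sumL_zero fun q => by rw [if_neg h, mul_zero], sumL_zero fun f => by rw [if_neg h, mul_zero],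
    if_neg h, if_neg h]
  simp

lemma Nf_zero {d : DatR} {m c0 z i : ℕ} (h : ¬ i < m) : Nf d m c0 z i = 0 := by
  unfold Nf
  rw [sumL_zero fun f => by rw [if_neg h, mul_zero], if_neg h, if_neg h]
  simp

/-- the two parts of a row -/
lemma PN_ex {d : DatR} (hB : BndR d) (hC : CnsR d) {z c0 i : ℕ} (hz : z < vR d.segs)
    (hi : i < vR d.segs - c0) :
    Nf d (vR d.segs - c0) c0 z i ≤ Pf d (vR d.segs - c0) c0 z i
    ∧ Ex (vR d.segs - c0) (Pf d (vR d.segs - c0) c0 z i - Nf d (vR d.segs - c0) c0 z i)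
      (fun c => WR d z (c0 + i) (c0 + c) + 137438953472) := by
  set m := vR d.segs - c0 with hm
  have hbV : c0 + i < vR d.segs := by omega
  -- positive part
  have p1 : Ex m (sumL (fun q => shf q c0 * dg (shf q c0) i) (sqR d z))
      (fun c => ((sqR d z).map fun q => ((dg (shf q c0) i : ℕ) : ℤ) * (dg (shf q c0) c : ℤ)).sum) :=
    Ex.sumL _ (fun q c => ((dg (shf q c0) i : ℕ) : ℤ) * (dg (shf q c0) c : ℤ)) _ fun q hq => by
      rw [mul_comm]
      exact (Ex.self (shf_lt (sq_lt hB hz hq))).mul _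
  have p3 : Ex m (labL d z c0 (c0 + i)) (fun c => KR d z (c0 + i) (c0 + c)) :=
    (Ex.self (labL_lt hC hbV (by omega))).congr fun c hc =>
      labL_dg hB hC hz hbV (by omega)
  have p4 : ∀ w : FnR → ℕ, Ex m (sumL (fun f : FnR => w f * shf (nth16 0 f.mat (c0 + i)) c0) d.fn)
      (fun c => (d.fn.map fun f => ((w f : ℕ) : ℤ)
        * (dg (nth16 0 f.mat (c0 + i)) (c0 + c) : ℤ)).sum) := fun w =>
    (Ex.sumL (fun f : FnR => w f * shf (nth16 0 f.mat (c0 + i)) c0)
      (fun f c => ((w f : ℕ) : ℤ) * (dg (shf (nth16 0 f.mat (c0 + i)) c0) c : ℤ)) d.fn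
      fun f hf => (Ex.self (shf_lt (mat_lt (hB.fn f hf) hbV))).mul _).congr fun c _ => by
        congr 1
        exact List.map_congr_left fun f _ => by rw [dg_shf, add_comm c c0]
  have hP : Ex m (Pf d m c0 z i) (fun c =>
      2 * ((sqR d z).map fun q => ((dg (shf q c0) i : ℕ) : ℤ) * (dg (shf q c0) c : ℤ)).sum
      + ((137438953472 + 536870912 * len (sqR d z) + dg d.ap z : ℕ) : ℤ) * 1
      + KR d z (c0 + i) (c0 + c)
      + (d.fn.map fun f => ((dg f.lp z : ℕ) : ℤ)
        * (dg (nth16 0 f.mat (c0 + i)) (c0 + c) : ℤ)).sum) := by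
    unfold Pf
    simp only [if_pos hi, mul_one]
    have h := (((p1.mul 2).add ((Ex.rep m).mul
      (137438953472 + 536870912 * len (sqR d z) + dg d.ap z))).add p3).add
        (p4 fun f => dg f.lp z)
    refine h.congr fun c _ => ?_
    push_cast
    ring
  -- negative part
  have n1 := exSumB hB (c0 := c0) hz
  have hsd : (dg (sumB d c0 z) i : ℤ) = ((sqR d z).map fun q => (dg (shf q c0) i : ℤ)).sum :=
    n1.dg (fun c _ => sumB_bd hB c0 hz c) hi
  have hN : Ex m (Nf d m c0 z i) (fun c =>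
      ((dg d.an z : ℕ) : ℤ) * 1
      + (d.fn.map fun f => ((dg f.ln z : ℕ) : ℤ)
        * (dg (nth16 0 f.mat (c0 + i)) (c0 + c) : ℤ)).sum
      + 32768 * (((sqR d z).map fun q => (dg (shf q c0) i : ℤ)).sum
        + ((sqR d z).map fun q => (dg (shf q c0) c : ℤ)).sum)) := by
    unfold Nf
    simp only [if_pos hi, mul_one]
    have h2 : Ex m (rep m * dg (sumB d c0 z) i) (fun _ => (dg (sumB d c0 z) i : ℤ)) := by
      rw [mul_comm]
      refine ((Ex.rep m).mul (dg (sumB d c0 z) i)).congr fun c _ => ?_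
      ring
    have h := (((Ex.rep m).mul (dg d.an z)).add (p4 fun f => dg f.ln z)).add
      ((h2.add n1).mul 32768)
    refine h.congr fun c _ => ?_
    rw [hsd]
    push_cast
    ring
  -- the difference
  have e : ∀ c, (2 * ((sqR d z).map fun q => ((dg (shf q c0) i : ℕ) : ℤ)
        * (dg (shf q c0) c : ℤ)).sum
      + ((137438953472 + 536870912 * len (sqR d z) + dg d.ap z : ℕ) : ℤ) * 1
      + KR d z (c0 + i) (c0 + c)
      + (d.fn.map fun f => ((dg f.lp z : ℕ) : ℤ)
        * (dg (nth16 0 f.mat (c0 + i)) (c0 + c) : ℤ)).sum)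
      - (((dg d.an z : ℕ) : ℤ) * 1
      + (d.fn.map fun f => ((dg f.ln z : ℕ) : ℤ)
        * (dg (nth16 0 f.mat (c0 + i)) (c0 + c) : ℤ)).sum
      + 32768 * (((sqR d z).map fun q => (dg (shf q c0) i : ℤ)).sum
        + ((sqR d z).map fun q => (dg (shf q c0) c : ℤ)).sum))
      = WR d z (c0 + i) (c0 + c) + 137438953472 := by
    intro c
    have e1 : (d.fn.map fun f => (((dg f.lp z : ℕ) : ℤ) - (dg f.ln z : ℕ))
        * (dg (nth16 0 f.mat (c0 + i)) (c0 + c) : ℤ)).sum
        = (d.fn.map fun f => ((dg f.lp z : ℕ) : ℤ)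
            * (dg (nth16 0 f.mat (c0 + i)) (c0 + c) : ℤ)).sum
          - (d.fn.map fun f => ((dg f.ln z : ℕ) : ℤ)
            * (dg (nth16 0 f.mat (c0 + i)) (c0 + c) : ℤ)).sum := by
      rw [← sum_map_subG]
      congr 1
      exact List.map_congr_left fun f _ => by ring
    unfold WR
    rw [e1, SSg_expand]
    simp only [dg_shf, add_comm i c0, add_comm c c0]
    push_cast
    ring
  have hs := hP.sub hN fun c hc => by
    rw [e c]
    have := WR_bound hB hz hbV (c := c0 + c)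
    exact ⟨this.1, this.2.trans (by norm_num)⟩
  exact ⟨hs.1, hs.2.congr fun c _ => e c⟩

/-- the packed matrix is a matrix of rows -/
lemma matR_eq {d : DatR} (hB : BndR d) (hC : CnsR d) {z c0 : ℕ} (hz : z < vR d.segs) :
    matR d (vR d.segs - c0) c0 z = bld (vR d.segs - c0 + 1)
      (fun i => Pf d (vR d.segs - c0) c0 z i - Nf d (vR d.segs - c0) c0 z i) 4 0 := by
  have h1 : bld (vR d.segs - c0 + 1) (Nf d (vR d.segs - c0) c0 z) 4 0
      + bld (vR d.segs - c0 + 1)
        (fun i => Pf d (vR d.segs - c0) c0 z i - Nf d (vR d.segs - c0) c0 z i) 4 0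
      = bld (vR d.segs - c0 + 1) (Pf d (vR d.segs - c0) c0 z) 4 0 := by
    rw [bld_add]
    refine bld_congr fun i _ _ => ?_
    by_cases h : i < vR d.segs - c0
    · exact Nat.add_sub_cancel' (PN_ex hB hC hz h).1
    · rw [Nf_zero h, Pf_zero h]
  unfold matR
  rw [posB_eq hB hz, negB_eq hB hz, ← h1]
  exact Nat.add_sub_cancel_left _ _

lemma D_lt {d : DatR} (hB : BndR d) (hC : CnsR d) {z c0 : ℕ} (hz : z < vR d.segs) (i : ℕ) :
    Pf d (vR d.segs - c0) c0 z i - Nf d (vR d.segs - c0) c0 z i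
      < 2 ^ (40 * (vR d.segs - c0 + 1)) := by
  by_cases h : i < vR d.segs - c0
  · refine ((PN_ex hB hC hz h).2.lt fun c _ => ?_).trans_le
      (Nat.pow_le_pow_right (by norm_num) (by omega))
    have := WR_bound hB hz (b := c0 + i) (c := c0 + c) (by omega)
    exact ⟨this.1, this.2.trans (by norm_num)⟩
  · rw [Pf_zero h, Nat.zero_sub]
    positivity

lemma rowI_lt (d : DatR) (m c0 z i : ℕ) : rowI d m c0 z i < 2 ^ (40 * m) :=
  Nat.mod_lt _ (by show 0 < 2 ^ (40 * m); positivity)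

/-- the entries of a row -/
lemma rowI_dg {d : DatR} (hB : BndR d) (hC : CnsR d) {z c0 i c : ℕ} (hz : z < vR d.segs)
    (hi : i < 16) (hb : c0 + i < vR d.segs) (hc : c0 + c < vR d.segs) :
    (dg (rowI d (vR d.segs - c0) c0 z i) c : ℤ) = WR d z (c0 + i) (c0 + c) + 137438953472 := by
  have e : rowI d (vR d.segs - c0) c0 z i
      = shf (matR d (vR d.segs - c0) c0 z) ((vR d.segs - c0 + 1) * i)
        % 2 ^ (40 * (vR d.segs - c0)) := rfl
  rw [e, dg_mod' (by omega), dg_shf, matR_eq hB hC hz, add_comm c,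
    dg_bld (D_lt hB hC hz) 0 (by norm_num; exact hi) (by omega), zero_add]
  exact (PN_ex hB hC hz (by omega)).2.dg (fun c _ => by
    have := WR_bound hB hz hb (c := c0 + c)
    exact ⟨this.1, this.2.trans (by norm_num)⟩) (by omega)

/-! ### The rows from the node `c0` on -/

/-- row `c0 + b` of the sampler `c0 + z`, nodes from `c0` on -/
noncomputable def rowF (d : DatR) (V c0 z b : ℕ) : ℕ :=
  rowI d (V - (c0 + 16 * (b / 16))) (c0 + 16 * (b / 16)) (c0 + z) (b % 16)
    * 2 ^ (40 * (16 * (b / 16)))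

lemma rowF_lt (d : DatR) (V c0 z b : ℕ) : rowF d V c0 z b < 2 ^ (40 * (V - c0)) := by
  unfold rowF
  set s := 16 * (b / 16) with hs
  have h := rowI_lt d (V - (c0 + s)) (c0 + s) (c0 + z) (b % 16)
  by_cases hc : c0 + s ≤ V
  · have e : 40 * (V - c0) = 40 * (V - (c0 + s)) + 40 * s := by omega
    rw [e, pow_add]
    exact Nat.mul_lt_mul_of_pos_right h (by positivity)
  · have e : V - (c0 + s) = 0 := by omega
    rw [e, mul_zero, pow_zero, Nat.lt_one_iff] at h
    rw [e, h, zero_mul]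
    positivity

lemma rowF_dg {d : DatR} (hB : BndR d) (hC : CnsR d) {c0 z b c : ℕ}
    (hz : c0 + z < vR d.segs) (hb : c0 + b < vR d.segs) (hc : c0 + c < vR d.segs) :
    (dg (rowF d (vR d.segs) c0 z b) c : ℤ)
      = if c < 16 * (b / 16) then 0 else WR d (c0 + z) (c0 + b) (c0 + c) + 137438953472 := by
  have e : rowF d (vR d.segs) c0 z b = Nat.mul
    (rowI d (vR d.segs - (c0 + 16 * (b / 16))) (c0 + 16 * (b / 16)) (c0 + z) (b % 16))
      (bp (16 * (b / 16))) := rfl
  rw [e, dg_mulbp]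
  split_ifs with h
  · rfl
  · have h1 := rowI_dg hB hC (c0 := c0 + 16 * (b / 16)) (i := b % 16) (c := c - 16 * (b / 16)) hz
      (Nat.mod_lt _ (by norm_num)) (by omega) (by omega)
    have e1 : c0 + 16 * (b / 16) + b % 16 = c0 + b := by omega
    have e2 : c0 + 16 * (b / 16) + (c - 16 * (b / 16)) = c0 + c := by omega
    rw [e1, e2] at h1
    exact h1

lemma blkA_eq (d : DatR) {V k4 c0 : ℕ} (ia : ℕ) (hm : V - c0 ≤ 2 ^ (k4 + 4)) :
    blkA d V (Nat.pow 2 (Nat.add k4 4)) k4 (V - c0) c0 ia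
      = mtA (k4 + 4) (V - c0) (rowF d V c0) ia := by
  refine two_mod (L := 2 ^ (k4 + 4)) (f := rowF d V c0 ia) (fun b => (rowF_lt d V c0 ia b).trans_le
    (Nat.pow_le_pow_right (by norm_num) (Nat.mul_le_mul_left _ hm))) fun s => ?_
  congr 1
  rw [frc_eq, frc_eq, u16_eq, shl_eq, mul_comm, bld_mul]
  have e0 : bld (2 ^ (k4 + 4)) (rowF d V c0 ia) 4 (16 * s)
      = bld (2 ^ (k4 + 4)) (fun i => rowF d V c0 ia (16 * s + i)) 4 0 := by
    rw [bld_shift, add_zero]
  rw [e0]
  refine bld_congr fun i _ hi => ?_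
  have hi' : i < 16 := by
    norm_num at hi
    exact hi
  unfold rowF
  have e1 : (16 * s + i) / 16 = s := by omega
  have e2 : (16 * s + i) % 16 = i := by omega
  rw [e1, e2]
  have e3 : Nat.sub (Nat.add c0 (Nat.mul 16 s)) c0 = 16 * s := by
    show c0 + 16 * s - c0 = 16 * s
    omega
  have e4 : Nat.mul 40 (Nat.sub (Nat.add c0 (Nat.mul 16 s)) c0) = 40 * (16 * s) := by
    rw [e3]
    rfl
  rw [e4, mul_comm]
  rfl

lemma blkB_eq (d : DatR) {V k4 c0 ia : ℕ} (hia : ia < 16) (hm : V - c0 ≤ 2 ^ (k4 + 4)) :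
    blkB d (Nat.pow 2 (Nat.add k4 4)) k4 (V - c0) c0 ia
      = mtB (k4 + 4) (V - c0) (rowF d V c0) ia := by
  refine two_mod (L := 2 ^ (k4 + 4)) (f := fun z => rowF d V c0 z ia)
    (fun z => (rowF_lt d V c0 z ia).trans_le
      (Nat.pow_le_pow_right (by norm_num) (Nat.mul_le_mul_left _ hm))) fun s => ?_
  congr 1
  rw [frc_eq, u16_eq]
  have e0 : bld (2 ^ (k4 + 4)) (fun z => rowF d V c0 z ia) 4 (16 * s)
      = bld (2 ^ (k4 + 4)) (fun i => rowF d V c0 (16 * s + i) ia) 4 0 := by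
    rw [bld_shift (2 ^ (k4 + 4)) (fun z => rowF d V c0 z ia), add_zero]
  rw [e0]
  refine bld_congr fun i _ _ => ?_
  unfold rowF
  have e1 : ia / 16 = 0 := by omega
  have e2 : ia % 16 = ia := by omega
  rw [e1, e2, mul_zero, mul_zero, pow_zero, mul_one, add_zero]
  have e3 : Nat.add (Nat.add c0 (Nat.mul 16 s)) i = c0 + (16 * s + i) := by
    show c0 + 16 * s + i = _
    ring
  rw [e3]

lemma fasB_eqA {k n bd a : ℕ} {Rw : ℕ → ℕ → ℕ}
    (h : fasB k bd (mtA k n Rw a) (mtB k n Rw a) = true) : fasCheck k n Rw bd a (a + 1) = true := by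
  unfold fasCheck
  refine (allN_iff _ _).2 fun t ht => ?_
  have ht' : t < a + 1 - a := ht
  obtain rfl : t = 0 := by omega
  rw [frcBk_eq]
  unfold fasB at h
  have e : trf (Nat.pow 2 k) k k (mtB k n Rw a) = trq (Nat.pow 2 k) k (mtB k n Rw a) :=
    trf_eq le_rfl _
  rw [e] at h
  exact h

/-- one block of smallest nodes -/
lemma blkC_sound {d : DatR} (hB : BndR d) (hC : CnsR d) {c0 k4 : ℕ}
    (hbd : d.Bd + 412316860416 < 2 ^ 39)
    (h : blkC d (vR d.segs) (vR d.segs - c0) c0 k4 = true) : RowMin d c0 (c0 + 16) := by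
  set V := vR d.segs with hV
  intro a ha ha' b hb c hc hcV
  have haV : a < V := by omega
  have h2 : V - c0 ≤ 2 ^ (k4 + 4) ∧ allN (Nat.sub (V - c0) (Nat.sub (V - c0) 16)) (fun ia =>
      fasB (Nat.add k4 4) d.Bd (blkA d V (Nat.pow 2 (Nat.add k4 4)) k4 (V - c0) c0 ia)
        (blkB d (Nat.pow 2 (Nat.add k4 4)) k4 (V - c0) c0 ia)) = true := by
    unfold blkC at h
    cases hh : Nat.ble (V - c0) (Nat.pow 2 (Nat.add k4 4)) with
    | false =>
      rw [hh] at h
      exact absurd h (by simp)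
    | true =>
      rw [hh] at h
      exact ⟨Nat.le_of_ble_eq_true hh, h⟩
  obtain ⟨hm, h3⟩ := h2
  have h4 := (allN_iff _ _).1 h3 (a - c0) (by
    show a - c0 < V - c0 - (V - c0 - 16)
    omega)
  rw [blkA_eq d _ hm, blkB_eq d (by omega) hm] at h4
  have key := fas_sound (V := V - c0) (Rw := rowF d V c0) (lo := a - c0) (hi := a - c0 + 1) hm hbd
    (fun z b => rowF_lt d V c0 z b) (fun z hz b hb c hc => by
      have e := rowF_dg hB hC (c0 := c0) (z := z) (b := b) (c := c) (by omega) (by omega)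
        (by omega)
      have w := WR_bound hB (z := c0 + z) (b := c0 + b) (c := c0 + c) (by omega) (by omega)
      have h6 : (dg (rowF d V c0 z b) c : ℤ) < 2 ^ 38 := by
        rw [e]
        split_ifs
        · norm_num
        · exact w.2
      exact_mod_cast h6) (fasB_eqA h4) (by omega) (a := a - c0) (b := b - c0) (c := c - c0)
    le_rfl (by omega) (by omega) (by omega)
  have q1 := rowF_dg hB hC (c0 := c0) (z := c - c0) (b := a - c0) (c := b - c0) (by omega)
    (by omega) (by omega)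
  have q2 := rowF_dg hB hC (c0 := c0) (z := a - c0) (b := b - c0) (c := c - c0) (by omega)
    (by omega) (by omega)
  have q3 := rowF_dg hB hC (c0 := c0) (z := b - c0) (b := a - c0) (c := c - c0) (by omega)
    (by omega) (by omega)
  rw [if_neg (by omega)] at q1 q2 q3
  have ea : c0 + (a - c0) = a := by omega
  have eb : c0 + (b - c0) = b := by omega
  have ec : c0 + (c - c0) = c := by omega
  rw [ea, eb, ec] at q1 q2 q3
  have key' : ((dg (rowF d V c0 (c - c0) (a - c0)) (b - c0) : ℕ) : ℤ)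
      + ((dg (rowF d V c0 (a - c0) (b - c0)) (c - c0) : ℕ)
        + (dg (rowF d V c0 (b - c0) (a - c0)) (c - c0) : ℕ)) ≤ (d.Bd : ℤ) + 412316860416 := by
    exact_mod_cast key
  rw [q1, q2, q3] at key'
  linarith

/-- the fast check gives the inequalities of the sorted triples -/
theorem RowMin.of_G {k : ℕ} {d : DatR} (h : okR k d = true) {lo hi : ℕ}
    (hc : rowCheckG d lo hi = true) : RowMin d (16 * lo) (16 * hi) := by
  obtain ⟨h1, h2, _, _, h5⟩ := okR_imp h
  have hB := bndR_imp h1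
  have hC := cnsR_imp h2
  unfold rowCheckG at hc
  rw [frcBk_eq] at hc
  intro a ha ha' b hb c hc' hcV
  have h3 := (allN_iff _ _).1 hc (a / 16 - lo) (by
    show a / 16 - lo < hi - lo
    omega)
  rw [frcBk_eq, frcBk_eq, frcBk_eq] at h3
  have e : Nat.mul 16 (Nat.add lo (a / 16 - lo)) = 16 * (a / 16) := by
    show 16 * (lo + (a / 16 - lo)) = 16 * (a / 16)
    omega
  rw [e] at h3
  exact blkC_sound hB hC h5 h3 a (by omega) (by omega) b hb c hc' hcV

/-- MAIN: the fast check of all blocks -/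
theorem RowOK.of_G {k n : ℕ} {d : DatR} (h : okR k d = true) (hc : rowCheckG d 0 n = true)
    (hn : vR d.segs ≤ 16 * n) : RowOK d 0 (vR d.segs) := by
  refine RowOK.of_min h fun a ha ha' b hb c hc' hcV => ?_
  exact RowMin.of_G h hc a (by omega) (by omega) b hb c hc' hcV

end MP61673a.KC
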