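import Pool.Agent.Mu673.RowTabI0810
import Pool.Agent.Mu673.KCmatc

/-!
Kernel check of all triples (row cell I0810).
-/

set_option autoImplicit false
set_option maxRecDepth 100000

namespace MP61673a.KC.RowI0810

open MP61673a.Kink MP61673a.Bary MP61673a.Sos MP61673a.Fin MP61673a.FE MP61673a.KC MP61673a.RowI MP61673a.Row9 MP61673a.RowI9

theorem chk2 : rowCheckG dat 7 13 = true := by decide +kernel

end MP61673a.KC.RowI0810
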