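import Pool.Agent.Mu673.RowTabI1014

/-!
Kernel checks of the tables of the nodes (row cell I1014).
-/

set_option autoImplicit false
set_option maxRecDepth 100000

namespace MP61673a.KC.RowI1014

open MP61673a.Kink MP61673a.Bary MP61673a.Sos MP61673a.Fin MP61673a.FE MP61673a.KC MP61673a.RowI MP61673a.Row9 MP61673a.RowI9

theorem nd_135 : NdsOK9 dat rcd A.exf A.mcf A.mxf 135 137 :=
  NdsOK9.of_checkF hcI (by decide +kernel)

theorem nd_137 : NdsOK9 dat rcd A.exf A.mcf A.mxf 137 139 :=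
  NdsOK9.of_checkF hcI (by decide +kernel)

theorem nd_139 : NdsOK9 dat rcd A.exf A.mcf A.mxf 139 141 :=
  NdsOK9.of_checkF hcI (by decide +kernel)

theorem nd_141 : NdsOK9 dat rcd A.exf A.mcf A.mxf 141 143 :=
  NdsOK9.of_checkF hcI (by decide +kernel)

theorem nd_143 : NdsOK9 dat rcd A.exf A.mcf A.mxf 143 145 :=
  NdsOK9.of_checkF hcI (by decide +kernel)

theorem nd_145 : NdsOK9 dat rcd A.exf A.mcf A.mxf 145 147 :=
  NdsOK9.of_checkF hcI (by decide +kernel)

theorem nd_147 : NdsOK9 dat rcd A.exf A.mcf A.mxf 147 149 :=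
  NdsOK9.of_checkF hcI (by decide +kernel)

theorem nd_149 : NdsOK9 dat rcd A.exf A.mcf A.mxf 149 151 :=
  NdsOK9.of_checkF hcI (by decide +kernel)

theorem nd_151 : NdsOK9 dat rcd A.exf A.mcf A.mxf 151 153 :=
  NdsOK9.of_checkF hcI (by decide +kernel)

theorem nd_153 : NdsOK9 dat rcd A.exf A.mcf A.mxf 153 155 :=
  NdsOK9.of_checkF hcI (by decide +kernel)

theorem nd_155 : NdsOK9 dat rcd A.exf A.mcf A.mxf 155 157 :=
  NdsOK9.of_checkF hcI (by decide +kernel)

theorem nd_157 : NdsOK9 dat rcd A.exf A.mcf A.mxf 157 159 :=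
  NdsOK9.of_checkF hcI (by decide +kernel)

theorem nd_159 : NdsOK9 dat rcd A.exf A.mcf A.mxf 159 161 :=
  NdsOK9.of_checkF hcI (by decide +kernel)

theorem nd_161 : NdsOK9 dat rcd A.exf A.mcf A.mxf 161 163 :=
  NdsOK9.of_checkF hcI (by decide +kernel)

theorem nd_163 : NdsOK9 dat rcd A.exf A.mcf A.mxf 163 165 :=
  NdsOK9.of_checkF hcI (by decide +kernel)

theorem nd_165 : NdsOK9 dat rcd A.exf A.mcf A.mxf 165 167 :=
  NdsOK9.of_checkF hcI (by decide +kernel)

theorem nd_167 : NdsOK9 dat rcd A.exf A.mcf A.mxf 167 169 :=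
  NdsOK9.of_checkF hcI (by decide +kernel)

theorem nd_169 : NdsOK9 dat rcd A.exf A.mcf A.mxf 169 171 :=
  NdsOK9.of_checkF hcI (by decide +kernel)

theorem nd_171 : NdsOK9 dat rcd A.exf A.mcf A.mxf 171 173 :=
  NdsOK9.of_checkF hcI (by decide +kernel)

theorem nd_173 : NdsOK9 dat rcd A.exf A.mcf A.mxf 173 175 :=
  NdsOK9.of_checkF hcI (by decide +kernel)

theorem nd_175 : NdsOK9 dat rcd A.exf A.mcf A.mxf 175 177 :=
  NdsOK9.of_checkF hcI (by decide +kernel)

theorem nd_177 : NdsOK9 dat rcd A.exf A.mcf A.mxf 177 179 :=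
  NdsOK9.of_checkF hcI (by decide +kernel)

theorem nd_179 : NdsOK9 dat rcd A.exf A.mcf A.mxf 179 181 :=
  NdsOK9.of_checkF hcI (by decide +kernel)

theorem nd_181 : NdsOK9 dat rcd A.exf A.mcf A.mxf 181 183 :=
  NdsOK9.of_checkF hcI (by decide +kernel)

theorem nd_183 : NdsOK9 dat rcd A.exf A.mcf A.mxf 183 185 :=
  NdsOK9.of_checkF hcI (by decide +kernel)

theorem nd_185 : NdsOK9 dat rcd A.exf A.mcf A.mxf 185 187 :=
  NdsOK9.of_checkF hcI (by decide +kernel)

theorem nd_187 : NdsOK9 dat rcd A.exf A.mcf A.mxf 187 189 :=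
  NdsOK9.of_checkF hcI (by decide +kernel)

theorem nd_189 : NdsOK9 dat rcd A.exf A.mcf A.mxf 189 191 :=
  NdsOK9.of_checkF hcI (by decide +kernel)

theorem nd_191 : NdsOK9 dat rcd A.exf A.mcf A.mxf 191 193 :=
  NdsOK9.of_checkF hcI (by decide +kernel)

theorem nd_193 : NdsOK9 dat rcd A.exf A.mcf A.mxf 193 195 :=
  NdsOK9.of_checkF hcI (by decide +kernel)

theorem nd_195 : NdsOK9 dat rcd A.exf A.mcf A.mxf 195 197 :=
  NdsOK9.of_checkF hcI (by decide +kernel)

theorem nd_197 : NdsOK9 dat rcd A.exf A.mcf A.mxf 197 199 :=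
  NdsOK9.of_checkF hcI (by decide +kernel)

theorem nd_199 : NdsOK9 dat rcd A.exf A.mcf A.mxf 199 201 :=
  NdsOK9.of_checkF hcI (by decide +kernel)

theorem nd_201 : NdsOK9 dat rcd A.exf A.mcf A.mxf 201 203 :=
  NdsOK9.of_checkF hcI (by decide +kernel)

theorem nd2 : NdsOK9 dat rcd A.exf A.mcf A.mxf 135 203 :=
  (((((((((((((((((((((((((((((((((nd_135.join nd_137).join nd_139).join nd_141).join nd_143).join nd_145).join nd_147).join nd_149).join
    nd_151).join nd_153).join nd_155).join nd_157).join nd_159).join nd_161).join nd_163).join nd_165).join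
    nd_167).join nd_169).join nd_171).join nd_173).join nd_175).join nd_177).join nd_179).join nd_181).join
    nd_183).join nd_185).join nd_187).join nd_189).join nd_191).join nd_193).join nd_195).join nd_197).join
    nd_199).join nd_201)

end MP61673a.KC.RowI1014
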