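import Pool.Agent.Mu673.RowTabI1419
import Pool.Agent.Mu673.RowIn2

/-!
Kernel checks of the global conditions (row cell I1419).
-/

set_option autoImplicit false
set_option maxRecDepth 100000

namespace MP61673a.KC.RowI1419

open MP61673a.Kink MP61673a.Bary MP61673a.Sos MP61673a.Fin MP61673a.FE MP61673a.KC MP61673a.RowI MP61673a.Row9 MP61673a.RowI9

theorem hG : A.chkG = true := by decide +kernel

theorem hZ : A.chkKz = true := by decide +kernel

theorem hW : A.chkWin = true := by decide +kernel

theorem h1 : A.chkOne = true := by decide +kernel

theorem hX : A.chkXw = true := by decide +kernel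

theorem hK : A.netI W = true := by decide +kernel

theorem hF : A.chkFam W = true := by decide +kernel

theorem hC : MP61673a.RowO.fctChk A.d A.cs A.p.M A.p.s2 A.p.q A.s0 = true := by decide +kernel

theorem hP : A.chkCell = true := by decide +kernel

end MP61673a.KC.RowI1419
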