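import Pool.Agent.Mu673.RowTabI1924

set_option autoImplicit false
set_option maxRecDepth 100000
namespace MP61673a.KC.RowI1924
open MP61673a.FE MP61673a.KC MP61673a.RowI MP61673a.Row9 MP61673a.RowI9

theorem ck0 : chkNds9 dat rcd A.exf A.mcf A.mxf 0 2 = true := by decide +kernel
theorem ck2 : chkNds9 dat rcd A.exf A.mcf A.mxf 2 4 = true := by decide +kernel
theorem ck4 : chkNds9 dat rcd A.exf A.mcf A.mxf 4 6 = true := by decide +kernel
theorem ck6 : chkNds9 dat rcd A.exf A.mcf A.mxf 6 8 = true := by decide +kernel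
theorem ck8 : chkNds9 dat rcd A.exf A.mcf A.mxf 8 10 = true := by decide +kernel
theorem ck10 : chkNds9 dat rcd A.exf A.mcf A.mxf 10 12 = true := by decide +kernel
theorem ck12 : chkNds9 dat rcd A.exf A.mcf A.mxf 12 14 = true := by decide +kernel
theorem ck14 : chkNds9 dat rcd A.exf A.mcf A.mxf 14 16 = true := by decide +kernel
theorem ck16 : chkNds9 dat rcd A.exf A.mcf A.mxf 16 18 = true := by decide +kernel
theorem ck18 : chkNds9 dat rcd A.exf A.mcf A.mxf 18 20 = true := by decide +kernel
theorem ck20 : chkNds9 dat rcd A.exf A.mcf A.mxf 20 22 = true := by decide +kernel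
theorem ck22 : chkNds9 dat rcd A.exf A.mcf A.mxf 22 24 = true := by decide +kernel
theorem ck24 : chkNds9 dat rcd A.exf A.mcf A.mxf 24 26 = true := by decide +kernel
theorem ck26 : chkNds9 dat rcd A.exf A.mcf A.mxf 26 28 = true := by decide +kernel
theorem ck28 : chkNds9 dat rcd A.exf A.mcf A.mxf 28 30 = true := by decide +kernel
theorem ck30 : chkNds9 dat rcd A.exf A.mcf A.mxf 30 32 = true := by decide +kernel
theorem ck32 : chkNds9 dat rcd A.exf A.mcf A.mxf 32 34 = true := by decide +kernel
theorem ck34 : chkNds9 dat rcd A.exf A.mcf A.mxf 34 36 = true := by decide +kernel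
theorem ck36 : chkNds9 dat rcd A.exf A.mcf A.mxf 36 38 = true := by decide +kernel
theorem ck38 : chkNds9 dat rcd A.exf A.mcf A.mxf 38 40 = true := by decide +kernel
theorem ck40 : chkNds9 dat rcd A.exf A.mcf A.mxf 40 42 = true := by decide +kernel
theorem ck42 : chkNds9 dat rcd A.exf A.mcf A.mxf 42 44 = true := by decide +kernel
theorem ck44 : chkNds9 dat rcd A.exf A.mcf A.mxf 44 46 = true := by decide +kernel
theorem ck46 : chkNds9 dat rcd A.exf A.mcf A.mxf 46 48 = true := by decide +kernel
theorem ck48 : chkNds9 dat rcd A.exf A.mcf A.mxf 48 50 = true := by decide +kernel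
theorem ck50 : chkNds9 dat rcd A.exf A.mcf A.mxf 50 52 = true := by decide +kernel
theorem ck52 : chkNds9 dat rcd A.exf A.mcf A.mxf 52 54 = true := by decide +kernel
theorem ck54 : chkNds9 dat rcd A.exf A.mcf A.mxf 54 56 = true := by decide +kernel
theorem ck56 : chkNds9 dat rcd A.exf A.mcf A.mxf 56 58 = true := by decide +kernel
theorem ck58 : chkNds9 dat rcd A.exf A.mcf A.mxf 58 60 = true := by decide +kernel
theorem ck60 : chkNds9 dat rcd A.exf A.mcf A.mxf 60 62 = true := by decide +kernel
theorem ck62 : chkNds9 dat rcd A.exf A.mcf A.mxf 62 64 = true := by decide +kernel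
theorem ck64 : chkNds9 dat rcd A.exf A.mcf A.mxf 64 66 = true := by decide +kernel

theorem nd0 : NdsOK9 dat rcd A.exf A.mcf A.mxf 0 66 := (((((((((((((((((((((((((((((((((NdsOK9.of_check ck0)).join (NdsOK9.of_check ck2)).join (NdsOK9.of_check ck4)).join (NdsOK9.of_check ck6)).join (NdsOK9.of_check ck8)).join (NdsOK9.of_check ck10)).join (NdsOK9.of_check ck12)).join (NdsOK9.of_check ck14)).join (NdsOK9.of_check ck16)).join (NdsOK9.of_check ck18)).join (NdsOK9.of_check ck20)).join (NdsOK9.of_check ck22)).join (NdsOK9.of_check ck24)).join (NdsOK9.of_check ck26)).join (NdsOK9.of_check ck28)).join (NdsOK9.of_check ck30)).join (NdsOK9.of_check ck32)).join (NdsOK9.of_check ck34)).join (NdsOK9.of_check ck36)).join (NdsOK9.of_check ck38)).join (NdsOK9.of_check ck40)).join (NdsOK9.of_check ck42)).join (NdsOK9.of_check ck44)).join (NdsOK9.of_check ck46)).join (NdsOK9.of_check ck48)).join (NdsOK9.of_check ck50)).join (NdsOK9.of_check ck52)).join (NdsOK9.of_check ck54)).join (NdsOK9.of_check ck56)).join (NdsOK9.of_check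 ck58)).join (NdsOK9.of_check ck60)).join (NdsOK9.of_check ck62)).join (NdsOK9.of_check ck64)

end MP61673a.KC.RowI1924
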