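import Pool.Agent.Mu673.RowTabI1924

set_option autoImplicit false
set_option maxRecDepth 100000
namespace MP61673a.KC.RowI1924
open MP61673a.FE MP61673a.KC MP61673a.RowI MP61673a.Row9 MP61673a.RowI9

theorem ck66 : chkNds9 dat rcd A.exf A.mcf A.mxf 66 68 = true := by decide +kernel
theorem ck68 : chkNds9 dat rcd A.exf A.mcf A.mxf 68 70 = true := by decide +kernel
theorem ck70 : chkNds9 dat rcd A.exf A.mcf A.mxf 70 72 = true := by decide +kernel
theorem ck72 : chkNds9 dat rcd A.exf A.mcf A.mxf 72 74 = true := by decide +kernel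
theorem ck74 : chkNds9 dat rcd A.exf A.mcf A.mxf 74 76 = true := by decide +kernel
theorem ck76 : chkNds9 dat rcd A.exf A.mcf A.mxf 76 78 = true := by decide +kernel
theorem ck78 : chkNds9 dat rcd A.exf A.mcf A.mxf 78 80 = true := by decide +kernel
theorem ck80 : chkNds9 dat rcd A.exf A.mcf A.mxf 80 82 = true := by decide +kernel
theorem ck82 : chkNds9 dat rcd A.exf A.mcf A.mxf 82 84 = true := by decide +kernel
theorem ck84 : chkNds9 dat rcd A.exf A.mcf A.mxf 84 86 = true := by decide +kernel
theorem ck86 : chkNds9 dat rcd A.exf A.mcf A.mxf 86 88 = true := by decide +kernel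
theorem ck88 : chkNds9 dat rcd A.exf A.mcf A.mxf 88 90 = true := by decide +kernel
theorem ck90 : chkNds9 dat rcd A.exf A.mcf A.mxf 90 92 = true := by decide +kernel
theorem ck92 : chkNds9 dat rcd A.exf A.mcf A.mxf 92 94 = true := by decide +kernel
theorem ck94 : chkNds9 dat rcd A.exf A.mcf A.mxf 94 96 = true := by decide +kernel
theorem ck96 : chkNds9 dat rcd A.exf A.mcf A.mxf 96 98 = true := by decide +kernel
theorem ck98 : chkNds9 dat rcd A.exf A.mcf A.mxf 98 100 = true := by decide +kernel
theorem ck100 : chkNds9 dat rcd A.exf A.mcf A.mxf 100 102 = true := by decide +kernel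
theorem ck102 : chkNds9 dat rcd A.exf A.mcf A.mxf 102 104 = true := by decide +kernel
theorem ck104 : chkNds9 dat rcd A.exf A.mcf A.mxf 104 106 = true := by decide +kernel
theorem ck106 : chkNds9 dat rcd A.exf A.mcf A.mxf 106 108 = true := by decide +kernel
theorem ck108 : chkNds9 dat rcd A.exf A.mcf A.mxf 108 110 = true := by decide +kernel
theorem ck110 : chkNds9 dat rcd A.exf A.mcf A.mxf 110 112 = true := by decide +kernel
theorem ck112 : chkNds9 dat rcd A.exf A.mcf A.mxf 112 114 = true := by decide +kernel
theorem ck114 : chkNds9 dat rcd A.exf A.mcf A.mxf 114 116 = true := by decide +kernel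
theorem ck116 : chkNds9 dat rcd A.exf A.mcf A.mxf 116 118 = true := by decide +kernel
theorem ck118 : chkNds9 dat rcd A.exf A.mcf A.mxf 118 120 = true := by decide +kernel
theorem ck120 : chkNds9 dat rcd A.exf A.mcf A.mxf 120 122 = true := by decide +kernel
theorem ck122 : chkNds9 dat rcd A.exf A.mcf A.mxf 122 124 = true := by decide +kernel
theorem ck124 : chkNds9 dat rcd A.exf A.mcf A.mxf 124 126 = true := by decide +kernel
theorem ck126 : chkNds9 dat rcd A.exf A.mcf A.mxf 126 128 = true := by decide +kernel
theorem ck128 : chkNds9 dat rcd A.exf A.mcf A.mxf 128 130 = true := by decide +kernel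
theorem ck130 : chkNds9 dat rcd A.exf A.mcf A.mxf 130 132 = true := by decide +kernel
theorem ck132 : chkNds9 dat rcd A.exf A.mcf A.mxf 132 133 = true := by decide +kernel

theorem nd1 : NdsOK9 dat rcd A.exf A.mcf A.mxf 66 133 := ((((((((((((((((((((((((((((((((((NdsOK9.of_check ck66)).join (NdsOK9.of_check ck68)).join (NdsOK9.of_check ck70)).join (NdsOK9.of_check ck72)).join (NdsOK9.of_check ck74)).join (NdsOK9.of_check ck76)).join (NdsOK9.of_check ck78)).join (NdsOK9.of_check ck80)).join (NdsOK9.of_check ck82)).join (NdsOK9.of_check ck84)).join (NdsOK9.of_check ck86)).join (NdsOK9.of_check ck88)).join (NdsOK9.of_check ck90)).join (NdsOK9.of_check ck92)).join (NdsOK9.of_check ck94)).join (NdsOK9.of_check ck96)).join (NdsOK9.of_check ck98)).join (NdsOK9.of_check ck100)).join (NdsOK9.of_check ck102)).join (NdsOK9.of_check ck104)).join (NdsOK9.of_check ck106)).join (NdsOK9.of_check ck108)).join (NdsOK9.of_check ck110)).join (NdsOK9.of_check ck112)).join (NdsOK9.of_check ck114)).join (NdsOK9.of_check ck116)).join (NdsOK9.of_check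 ck118)).join (NdsOK9.of_check ck120)).join (NdsOK9.of_check ck122)).join (NdsOK9.of_check ck124)).join (NdsOK9.of_check ck126)).join (NdsOK9.of_check ck128)).join (NdsOK9.of_check ck130)).join (NdsOK9.of_check ck132)

end MP61673a.KC.RowI1924
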