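import Pool.Agent.Mu673.RowTabI1924
import Pool.Agent.Mu673.KCmatc

set_option autoImplicit false
set_option maxRecDepth 100000
namespace MP61673a.KC.RowI1924
open MP61673a.FE MP61673a.KC MP61673a.RowI MP61673a.Row9 MP61673a.RowI9

theorem ok : okR 8 dat = true := by decide +kernel
theorem chk : rowCheckG dat 0 9 = true := by decide +kernel

end MP61673a.KC.RowI1924
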