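import Pool.Agent.Mu673.RowTabI1924
import Pool.Agent.Mu673.RowChkI1924_r
import Pool.Agent.Mu673.RowChkI1924_g
import Pool.Agent.Mu673.RowChkI1924_n0
import Pool.Agent.Mu673.RowChkI1924_n1

set_option autoImplicit false
set_option maxRecDepth 100000
namespace MP61673a.KC.RowI1924
open MP61673a.FE MP61673a.KC MP61673a.RowI MP61673a.Row9 MP61673a.RowI9

theorem hv : vR dat.segs = 133 := by decide +kernel

theorem all : RowOK A.d 0 (vR A.d.segs) :=
  RowOK.of_G ok chk ((le_of_eq hv).trans (by norm_num))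

theorem nds : NdsOK9 A.d A.r A.exf A.mcf A.mxf 0 (vR A.d.segs) := by
  show NdsOK9 dat rcd A.exf A.mcf A.mxf 0 (vR dat.segs)
  rw [hv]
  exact nd0.join nd1

theorem cell (N : ℤ) (_ : 122 ≤ N) : MP61673a.Fin.CellEx N 320 19 24 :=
  RI.cell_in (A := A) (W := W) { g := hG, kz := hZ, win := hW, one := h1, xw := hX, net := hK, fam := hF, fct := hC, pos := hP } nds ok all rfl rfl rfl N

end MP61673a.KC.RowI1924
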