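import Pool.Agent.Mu673.RowTabI2429

/-!
Kernel checks of the tables of the nodes (row cell I2429).
-/

set_option autoImplicit false
set_option maxRecDepth 100000

namespace MP61673a.KC.RowI2429

open MP61673a.Kink MP61673a.Bary MP61673a.Sos MP61673a.Fin MP61673a.FE MP61673a.KC MP61673a.RowI MP61673a.Row9 MP61673a.RowI9

theorem nd_46 : NdsOK9 dat rcd A.exf A.mcf A.mxf 46 48 :=
  NdsOK9.of_checkF hcI (by decide +kernel)

theorem nd_48 : NdsOK9 dat rcd A.exf A.mcf A.mxf 48 50 :=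
  NdsOK9.of_checkF hcI (by decide +kernel)

theorem nd_50 : NdsOK9 dat rcd A.exf A.mcf A.mxf 50 52 :=
  NdsOK9.of_checkF hcI (by decide +kernel)

theorem nd_52 : NdsOK9 dat rcd A.exf A.mcf A.mxf 52 54 :=
  NdsOK9.of_checkF hcI (by decide +kernel)

theorem nd_54 : NdsOK9 dat rcd A.exf A.mcf A.mxf 54 56 :=
  NdsOK9.of_checkF hcI (by decide +kernel)

theorem nd_56 : NdsOK9 dat rcd A.exf A.mcf A.mxf 56 58 :=
  NdsOK9.of_checkF hcI (by decide +kernel)

theorem nd_58 : NdsOK9 dat rcd A.exf A.mcf A.mxf 58 60 :=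
  NdsOK9.of_checkF hcI (by decide +kernel)

theorem nd_60 : NdsOK9 dat rcd A.exf A.mcf A.mxf 60 62 :=
  NdsOK9.of_checkF hcI (by decide +kernel)

theorem nd_62 : NdsOK9 dat rcd A.exf A.mcf A.mxf 62 64 :=
  NdsOK9.of_checkF hcI (by decide +kernel)

theorem nd_64 : NdsOK9 dat rcd A.exf A.mcf A.mxf 64 66 :=
  NdsOK9.of_checkF hcI (by decide +kernel)

theorem nd_66 : NdsOK9 dat rcd A.exf A.mcf A.mxf 66 68 :=
  NdsOK9.of_checkF hcI (by decide +kernel)

theorem nd_68 : NdsOK9 dat rcd A.exf A.mcf A.mxf 68 70 :=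
  NdsOK9.of_checkF hcI (by decide +kernel)

theorem nd_70 : NdsOK9 dat rcd A.exf A.mcf A.mxf 70 72 :=
  NdsOK9.of_checkF hcI (by decide +kernel)

theorem nd_72 : NdsOK9 dat rcd A.exf A.mcf A.mxf 72 74 :=
  NdsOK9.of_checkF hcI (by decide +kernel)

theorem nd_74 : NdsOK9 dat rcd A.exf A.mcf A.mxf 74 76 :=
  NdsOK9.of_checkF hcI (by decide +kernel)

theorem nd_76 : NdsOK9 dat rcd A.exf A.mcf A.mxf 76 78 :=
  NdsOK9.of_checkF hcI (by decide +kernel)

theorem nd_78 : NdsOK9 dat rcd A.exf A.mcf A.mxf 78 80 :=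
  NdsOK9.of_checkF hcI (by decide +kernel)

theorem nd_80 : NdsOK9 dat rcd A.exf A.mcf A.mxf 80 82 :=
  NdsOK9.of_checkF hcI (by decide +kernel)

theorem nd_82 : NdsOK9 dat rcd A.exf A.mcf A.mxf 82 84 :=
  NdsOK9.of_checkF hcI (by decide +kernel)

theorem nd_84 : NdsOK9 dat rcd A.exf A.mcf A.mxf 84 86 :=
  NdsOK9.of_checkF hcI (by decide +kernel)

theorem nd_86 : NdsOK9 dat rcd A.exf A.mcf A.mxf 86 88 :=
  NdsOK9.of_checkF hcI (by decide +kernel)

theorem nd_88 : NdsOK9 dat rcd A.exf A.mcf A.mxf 88 90 :=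
  NdsOK9.of_checkF hcI (by decide +kernel)

theorem nd_90 : NdsOK9 dat rcd A.exf A.mcf A.mxf 90 92 :=
  NdsOK9.of_checkF hcI (by decide +kernel)

theorem nd_92 : NdsOK9 dat rcd A.exf A.mcf A.mxf 92 93 :=
  NdsOK9.of_checkF hcI (by decide +kernel)

theorem nd1 : NdsOK9 dat rcd A.exf A.mcf A.mxf 46 93 :=
  (((((((((((((((((((((((nd_46.join nd_48).join nd_50).join nd_52).join nd_54).join nd_56).join nd_58).join nd_60).join
    nd_62).join nd_64).join nd_66).join nd_68).join nd_70).join nd_72).join nd_74).join nd_76).join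
    nd_78).join nd_80).join nd_82).join nd_84).join nd_86).join nd_88).join nd_90).join nd_92)

end MP61673a.KC.RowI2429
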