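import Pool.Agent.Mu673.RowChkI2429_r
import Pool.Agent.Mu673.RowChkI2429_g
import Pool.Agent.Mu673.RowChkI2429_n0
import Pool.Agent.Mu673.RowChkI2429_n1
import Pool.Agent.Mu673.RowChkI2429_n2

/-!
All checks (row cell I2429).
-/

set_option autoImplicit false
set_option maxRecDepth 100000

namespace MP61673a.KC.RowI2429

open MP61673a.Kink MP61673a.Bary MP61673a.Sos MP61673a.Fin MP61673a.FE MP61673a.KC MP61673a.RowI MP61673a.Row9 MP61673a.RowI9

theorem hv : vR dat.segs = 140 := by decide +kernel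

theorem all : RowOK A.d 0 (vR A.d.segs) := by
  show RowOK dat 0 (vR dat.segs)
  have h : RowMin dat (16 * 0) (16 * 9) :=
    (RowMin.of_G ok chk0)
  refine RowOK.of_min ok fun a ha ha' b hb c hc hcV => ?_
  have e := hv
  exact h a (by omega) (by omega) b hb c hc hcV

theorem nds : NdsOK9 A.d A.r A.exf A.mcf A.mxf 0 (vR A.d.segs) := by
  show NdsOK9 dat rcd A.exf A.mcf A.mxf 0 (vR dat.segs)
  rw [hv]
  exact ((nd0.join nd1).join nd2)

/-- THE ROW CELL 24/320 < t/D <= 29/320 -/
theorem cell (N : Int) (_hN : 122 ≤ N) : Fin.CellEx N 320 24 29 :=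
  RI.cell_in (A := A) (W := W)
    { g := hG, kz := hZ, win := hW, one := h1, xw := hX, net := hK, fam := hF, fct := hC, pos := hP }
    nds ok all rfl rfl rfl N

end MP61673a.KC.RowI2429
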