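import Pool.Agent.Mu673.RowTabI2931

/-!
Kernel checks of the tables of the nodes (row cell I2931).
-/

set_option autoImplicit false
set_option maxRecDepth 100000

namespace MP61673a.KC.RowI2931

open MP61673a.Kink MP61673a.Bary MP61673a.Sos MP61673a.Fin MP61673a.FE MP61673a.KC MP61673a.RowI MP61673a.Row9 MP61673a.RowI9

theorem nd_0 : NdsOK9 dat rcd A.exf A.mcf A.mxf 0 2 :=
  NdsOK9.of_checkF hcI (by decide +kernel)

theorem nd_2 : NdsOK9 dat rcd A.exf A.mcf A.mxf 2 4 :=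
  NdsOK9.of_checkF hcI (by decide +kernel)

theorem nd_4 : NdsOK9 dat rcd A.exf A.mcf A.mxf 4 6 :=
  NdsOK9.of_checkF hcI (by decide +kernel)

theorem nd_6 : NdsOK9 dat rcd A.exf A.mcf A.mxf 6 8 :=
  NdsOK9.of_checkF hcI (by decide +kernel)

theorem nd_8 : NdsOK9 dat rcd A.exf A.mcf A.mxf 8 10 :=
  NdsOK9.of_checkF hcI (by decide +kernel)

theorem nd_10 : NdsOK9 dat rcd A.exf A.mcf A.mxf 10 12 :=
  NdsOK9.of_checkF hcI (by decide +kernel)

theorem nd_12 : NdsOK9 dat rcd A.exf A.mcf A.mxf 12 14 :=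
  NdsOK9.of_checkF hcI (by decide +kernel)

theorem nd_14 : NdsOK9 dat rcd A.exf A.mcf A.mxf 14 16 :=
  NdsOK9.of_checkF hcI (by decide +kernel)

theorem nd_16 : NdsOK9 dat rcd A.exf A.mcf A.mxf 16 18 :=
  NdsOK9.of_checkF hcI (by decide +kernel)

theorem nd_18 : NdsOK9 dat rcd A.exf A.mcf A.mxf 18 20 :=
  NdsOK9.of_checkF hcI (by decide +kernel)

theorem nd_20 : NdsOK9 dat rcd A.exf A.mcf A.mxf 20 22 :=
  NdsOK9.of_checkF hcI (by decide +kernel)

theorem nd_22 : NdsOK9 dat rcd A.exf A.mcf A.mxf 22 24 :=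
  NdsOK9.of_checkF hcI (by decide +kernel)

theorem nd_24 : NdsOK9 dat rcd A.exf A.mcf A.mxf 24 26 :=
  NdsOK9.of_checkF hcI (by decide +kernel)

theorem nd_26 : NdsOK9 dat rcd A.exf A.mcf A.mxf 26 28 :=
  NdsOK9.of_checkF hcI (by decide +kernel)

theorem nd_28 : NdsOK9 dat rcd A.exf A.mcf A.mxf 28 30 :=
  NdsOK9.of_checkF hcI (by decide +kernel)

theorem nd_30 : NdsOK9 dat rcd A.exf A.mcf A.mxf 30 32 :=
  NdsOK9.of_checkF hcI (by decide +kernel)

theorem nd_32 : NdsOK9 dat rcd A.exf A.mcf A.mxf 32 34 :=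
  NdsOK9.of_checkF hcI (by decide +kernel)

theorem nd_34 : NdsOK9 dat rcd A.exf A.mcf A.mxf 34 36 :=
  NdsOK9.of_checkF hcI (by decide +kernel)

theorem nd_36 : NdsOK9 dat rcd A.exf A.mcf A.mxf 36 38 :=
  NdsOK9.of_checkF hcI (by decide +kernel)

theorem nd_38 : NdsOK9 dat rcd A.exf A.mcf A.mxf 38 40 :=
  NdsOK9.of_checkF hcI (by decide +kernel)

theorem nd_40 : NdsOK9 dat rcd A.exf A.mcf A.mxf 40 42 :=
  NdsOK9.of_checkF hcI (by decide +kernel)

theorem nd_42 : NdsOK9 dat rcd A.exf A.mcf A.mxf 42 44 :=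
  NdsOK9.of_checkF hcI (by decide +kernel)

theorem nd_44 : NdsOK9 dat rcd A.exf A.mcf A.mxf 44 46 :=
  NdsOK9.of_checkF hcI (by decide +kernel)

theorem nd_46 : NdsOK9 dat rcd A.exf A.mcf A.mxf 46 48 :=
  NdsOK9.of_checkF hcI (by decide +kernel)

theorem nd_48 : NdsOK9 dat rcd A.exf A.mcf A.mxf 48 50 :=
  NdsOK9.of_checkF hcI (by decide +kernel)

theorem nd_50 : NdsOK9 dat rcd A.exf A.mcf A.mxf 50 52 :=
  NdsOK9.of_checkF hcI (by decide +kernel)

theorem nd_52 : NdsOK9 dat rcd A.exf A.mcf A.mxf 52 54 :=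
  NdsOK9.of_checkF hcI (by decide +kernel)

theorem nd_54 : NdsOK9 dat rcd A.exf A.mcf A.mxf 54 56 :=
  NdsOK9.of_checkF hcI (by decide +kernel)

theorem nd_56 : NdsOK9 dat rcd A.exf A.mcf A.mxf 56 58 :=
  NdsOK9.of_checkF hcI (by decide +kernel)

theorem nd_58 : NdsOK9 dat rcd A.exf A.mcf A.mxf 58 60 :=
  NdsOK9.of_checkF hcI (by decide +kernel)

theorem nd_60 : NdsOK9 dat rcd A.exf A.mcf A.mxf 60 62 :=
  NdsOK9.of_checkF hcI (by decide +kernel)

theorem nd_62 : NdsOK9 dat rcd A.exf A.mcf A.mxf 62 64 :=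
  NdsOK9.of_checkF hcI (by decide +kernel)

theorem nd_64 : NdsOK9 dat rcd A.exf A.mcf A.mxf 64 66 :=
  NdsOK9.of_checkF hcI (by decide +kernel)

theorem nd_66 : NdsOK9 dat rcd A.exf A.mcf A.mxf 66 68 :=
  NdsOK9.of_checkF hcI (by decide +kernel)

theorem nd0 : NdsOK9 dat rcd A.exf A.mcf A.mxf 0 68 :=
  (((((((((((((((((((((((((((((((((nd_0.join nd_2).join nd_4).join nd_6).join nd_8).join nd_10).join nd_12).join nd_14).join
    nd_16).join nd_18).join nd_20).join nd_22).join nd_24).join nd_26).join nd_28).join nd_30).join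
    nd_32).join nd_34).join nd_36).join nd_38).join nd_40).join nd_42).join nd_44).join nd_46).join
    nd_48).join nd_50).join nd_52).join nd_54).join nd_56).join nd_58).join nd_60).join nd_62).join
    nd_64).join nd_66)

end MP61673a.KC.RowI2931
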