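import Pool.Agent.Mu673.RowTabI2931

/-!
Kernel checks of the tables of the nodes (row cell I2931).
-/

set_option autoImplicit false
set_option maxRecDepth 100000

namespace MP61673a.KC.RowI2931

open MP61673a.Kink MP61673a.Bary MP61673a.Sos MP61673a.Fin MP61673a.FE MP61673a.KC MP61673a.RowI MP61673a.Row9 MP61673a.RowI9

theorem nd_68 : NdsOK9 dat rcd A.exf A.mcf A.mxf 68 70 :=
  NdsOK9.of_checkF hcI (by decide +kernel)

theorem nd_70 : NdsOK9 dat rcd A.exf A.mcf A.mxf 70 72 :=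
  NdsOK9.of_checkF hcI (by decide +kernel)

theorem nd_72 : NdsOK9 dat rcd A.exf A.mcf A.mxf 72 74 :=
  NdsOK9.of_checkF hcI (by decide +kernel)

theorem nd_74 : NdsOK9 dat rcd A.exf A.mcf A.mxf 74 76 :=
  NdsOK9.of_checkF hcI (by decide +kernel)

theorem nd_76 : NdsOK9 dat rcd A.exf A.mcf A.mxf 76 78 :=
  NdsOK9.of_checkF hcI (by decide +kernel)

theorem nd_78 : NdsOK9 dat rcd A.exf A.mcf A.mxf 78 80 :=
  NdsOK9.of_checkF hcI (by decide +kernel)

theorem nd_80 : NdsOK9 dat rcd A.exf A.mcf A.mxf 80 82 :=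
  NdsOK9.of_checkF hcI (by decide +kernel)

theorem nd_82 : NdsOK9 dat rcd A.exf A.mcf A.mxf 82 84 :=
  NdsOK9.of_checkF hcI (by decide +kernel)

theorem nd_84 : NdsOK9 dat rcd A.exf A.mcf A.mxf 84 86 :=
  NdsOK9.of_checkF hcI (by decide +kernel)

theorem nd_86 : NdsOK9 dat rcd A.exf A.mcf A.mxf 86 88 :=
  NdsOK9.of_checkF hcI (by decide +kernel)

theorem nd_88 : NdsOK9 dat rcd A.exf A.mcf A.mxf 88 90 :=
  NdsOK9.of_checkF hcI (by decide +kernel)

theorem nd_90 : NdsOK9 dat rcd A.exf A.mcf A.mxf 90 92 :=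
  NdsOK9.of_checkF hcI (by decide +kernel)

theorem nd_92 : NdsOK9 dat rcd A.exf A.mcf A.mxf 92 94 :=
  NdsOK9.of_checkF hcI (by decide +kernel)

theorem nd_94 : NdsOK9 dat rcd A.exf A.mcf A.mxf 94 96 :=
  NdsOK9.of_checkF hcI (by decide +kernel)

theorem nd_96 : NdsOK9 dat rcd A.exf A.mcf A.mxf 96 98 :=
  NdsOK9.of_checkF hcI (by decide +kernel)

theorem nd_98 : NdsOK9 dat rcd A.exf A.mcf A.mxf 98 100 :=
  NdsOK9.of_checkF hcI (by decide +kernel)

theorem nd_100 : NdsOK9 dat rcd A.exf A.mcf A.mxf 100 102 :=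
  NdsOK9.of_checkF hcI (by decide +kernel)

theorem nd_102 : NdsOK9 dat rcd A.exf A.mcf A.mxf 102 104 :=
  NdsOK9.of_checkF hcI (by decide +kernel)

theorem nd_104 : NdsOK9 dat rcd A.exf A.mcf A.mxf 104 106 :=
  NdsOK9.of_checkF hcI (by decide +kernel)

theorem nd_106 : NdsOK9 dat rcd A.exf A.mcf A.mxf 106 108 :=
  NdsOK9.of_checkF hcI (by decide +kernel)

theorem nd_108 : NdsOK9 dat rcd A.exf A.mcf A.mxf 108 110 :=
  NdsOK9.of_checkF hcI (by decide +kernel)

theorem nd_110 : NdsOK9 dat rcd A.exf A.mcf A.mxf 110 112 :=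
  NdsOK9.of_checkF hcI (by decide +kernel)

theorem nd_112 : NdsOK9 dat rcd A.exf A.mcf A.mxf 112 114 :=
  NdsOK9.of_checkF hcI (by decide +kernel)

theorem nd_114 : NdsOK9 dat rcd A.exf A.mcf A.mxf 114 116 :=
  NdsOK9.of_checkF hcI (by decide +kernel)

theorem nd_116 : NdsOK9 dat rcd A.exf A.mcf A.mxf 116 118 :=
  NdsOK9.of_checkF hcI (by decide +kernel)

theorem nd_118 : NdsOK9 dat rcd A.exf A.mcf A.mxf 118 120 :=
  NdsOK9.of_checkF hcI (by decide +kernel)

theorem nd_120 : NdsOK9 dat rcd A.exf A.mcf A.mxf 120 122 :=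
  NdsOK9.of_checkF hcI (by decide +kernel)

theorem nd_122 : NdsOK9 dat rcd A.exf A.mcf A.mxf 122 124 :=
  NdsOK9.of_checkF hcI (by decide +kernel)

theorem nd_124 : NdsOK9 dat rcd A.exf A.mcf A.mxf 124 126 :=
  NdsOK9.of_checkF hcI (by decide +kernel)

theorem nd_126 : NdsOK9 dat rcd A.exf A.mcf A.mxf 126 128 :=
  NdsOK9.of_checkF hcI (by decide +kernel)

theorem nd_128 : NdsOK9 dat rcd A.exf A.mcf A.mxf 128 130 :=
  NdsOK9.of_checkF hcI (by decide +kernel)

theorem nd_130 : NdsOK9 dat rcd A.exf A.mcf A.mxf 130 132 :=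
  NdsOK9.of_checkF hcI (by decide +kernel)

theorem nd_132 : NdsOK9 dat rcd A.exf A.mcf A.mxf 132 134 :=
  NdsOK9.of_checkF hcI (by decide +kernel)

theorem nd_134 : NdsOK9 dat rcd A.exf A.mcf A.mxf 134 136 :=
  NdsOK9.of_checkF hcI (by decide +kernel)

theorem nd1 : NdsOK9 dat rcd A.exf A.mcf A.mxf 68 136 :=
  (((((((((((((((((((((((((((((((((nd_68.join nd_70).join nd_72).join nd_74).join nd_76).join nd_78).join nd_80).join nd_82).join
    nd_84).join nd_86).join nd_88).join nd_90).join nd_92).join nd_94).join nd_96).join nd_98).join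
    nd_100).join nd_102).join nd_104).join nd_106).join nd_108).join nd_110).join nd_112).join nd_114).join
    nd_116).join nd_118).join nd_120).join nd_122).join nd_124).join nd_126).join nd_128).join nd_130).join
    nd_132).join nd_134)

end MP61673a.KC.RowI2931
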