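import Pool.Agent.Mu673.RowTabI2931

/-!
Kernel checks of the tables of the nodes (row cell I2931).
-/

set_option autoImplicit false
set_option maxRecDepth 100000

namespace MP61673a.KC.RowI2931

open MP61673a.Kink MP61673a.Bary MP61673a.Sos MP61673a.Fin MP61673a.FE MP61673a.KC MP61673a.RowI MP61673a.Row9 MP61673a.RowI9

theorem nd_136 : NdsOK9 dat rcd A.exf A.mcf A.mxf 136 138 :=
  NdsOK9.of_checkF hcI (by decide +kernel)

theorem nd_138 : NdsOK9 dat rcd A.exf A.mcf A.mxf 138 140 :=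
  NdsOK9.of_checkF hcI (by decide +kernel)

theorem nd_140 : NdsOK9 dat rcd A.exf A.mcf A.mxf 140 142 :=
  NdsOK9.of_checkF hcI (by decide +kernel)

theorem nd_142 : NdsOK9 dat rcd A.exf A.mcf A.mxf 142 144 :=
  NdsOK9.of_checkF hcI (by decide +kernel)

theorem nd_144 : NdsOK9 dat rcd A.exf A.mcf A.mxf 144 146 :=
  NdsOK9.of_checkF hcI (by decide +kernel)

theorem nd_146 : NdsOK9 dat rcd A.exf A.mcf A.mxf 146 148 :=
  NdsOK9.of_checkF hcI (by decide +kernel)

theorem nd_148 : NdsOK9 dat rcd A.exf A.mcf A.mxf 148 150 :=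
  NdsOK9.of_checkF hcI (by decide +kernel)

theorem nd_150 : NdsOK9 dat rcd A.exf A.mcf A.mxf 150 152 :=
  NdsOK9.of_checkF hcI (by decide +kernel)

theorem nd_152 : NdsOK9 dat rcd A.exf A.mcf A.mxf 152 154 :=
  NdsOK9.of_checkF hcI (by decide +kernel)

theorem nd_154 : NdsOK9 dat rcd A.exf A.mcf A.mxf 154 156 :=
  NdsOK9.of_checkF hcI (by decide +kernel)

theorem nd_156 : NdsOK9 dat rcd A.exf A.mcf A.mxf 156 158 :=
  NdsOK9.of_checkF hcI (by decide +kernel)

theorem nd_158 : NdsOK9 dat rcd A.exf A.mcf A.mxf 158 160 :=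
  NdsOK9.of_checkF hcI (by decide +kernel)

theorem nd_160 : NdsOK9 dat rcd A.exf A.mcf A.mxf 160 162 :=
  NdsOK9.of_checkF hcI (by decide +kernel)

theorem nd_162 : NdsOK9 dat rcd A.exf A.mcf A.mxf 162 164 :=
  NdsOK9.of_checkF hcI (by decide +kernel)

theorem nd_164 : NdsOK9 dat rcd A.exf A.mcf A.mxf 164 166 :=
  NdsOK9.of_checkF hcI (by decide +kernel)

theorem nd_166 : NdsOK9 dat rcd A.exf A.mcf A.mxf 166 168 :=
  NdsOK9.of_checkF hcI (by decide +kernel)

theorem nd_168 : NdsOK9 dat rcd A.exf A.mcf A.mxf 168 170 :=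
  NdsOK9.of_checkF hcI (by decide +kernel)

theorem nd_170 : NdsOK9 dat rcd A.exf A.mcf A.mxf 170 172 :=
  NdsOK9.of_checkF hcI (by decide +kernel)

theorem nd_172 : NdsOK9 dat rcd A.exf A.mcf A.mxf 172 174 :=
  NdsOK9.of_checkF hcI (by decide +kernel)

theorem nd_174 : NdsOK9 dat rcd A.exf A.mcf A.mxf 174 176 :=
  NdsOK9.of_checkF hcI (by decide +kernel)

theorem nd_176 : NdsOK9 dat rcd A.exf A.mcf A.mxf 176 178 :=
  NdsOK9.of_checkF hcI (by decide +kernel)

theorem nd_178 : NdsOK9 dat rcd A.exf A.mcf A.mxf 178 180 :=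
  NdsOK9.of_checkF hcI (by decide +kernel)

theorem nd_180 : NdsOK9 dat rcd A.exf A.mcf A.mxf 180 182 :=
  NdsOK9.of_checkF hcI (by decide +kernel)

theorem nd_182 : NdsOK9 dat rcd A.exf A.mcf A.mxf 182 184 :=
  NdsOK9.of_checkF hcI (by decide +kernel)

theorem nd_184 : NdsOK9 dat rcd A.exf A.mcf A.mxf 184 186 :=
  NdsOK9.of_checkF hcI (by decide +kernel)

theorem nd_186 : NdsOK9 dat rcd A.exf A.mcf A.mxf 186 188 :=
  NdsOK9.of_checkF hcI (by decide +kernel)

theorem nd_188 : NdsOK9 dat rcd A.exf A.mcf A.mxf 188 190 :=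
  NdsOK9.of_checkF hcI (by decide +kernel)

theorem nd_190 : NdsOK9 dat rcd A.exf A.mcf A.mxf 190 192 :=
  NdsOK9.of_checkF hcI (by decide +kernel)

theorem nd_192 : NdsOK9 dat rcd A.exf A.mcf A.mxf 192 194 :=
  NdsOK9.of_checkF hcI (by decide +kernel)

theorem nd_194 : NdsOK9 dat rcd A.exf A.mcf A.mxf 194 196 :=
  NdsOK9.of_checkF hcI (by decide +kernel)

theorem nd_196 : NdsOK9 dat rcd A.exf A.mcf A.mxf 196 198 :=
  NdsOK9.of_checkF hcI (by decide +kernel)

theorem nd_198 : NdsOK9 dat rcd A.exf A.mcf A.mxf 198 200 :=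
  NdsOK9.of_checkF hcI (by decide +kernel)

theorem nd_200 : NdsOK9 dat rcd A.exf A.mcf A.mxf 200 202 :=
  NdsOK9.of_checkF hcI (by decide +kernel)

theorem nd_202 : NdsOK9 dat rcd A.exf A.mcf A.mxf 202 204 :=
  NdsOK9.of_checkF hcI (by decide +kernel)

theorem nd_204 : NdsOK9 dat rcd A.exf A.mcf A.mxf 204 205 :=
  NdsOK9.of_checkF hcI (by decide +kernel)

theorem nd2 : NdsOK9 dat rcd A.exf A.mcf A.mxf 136 205 :=
  ((((((((((((((((((((((((((((((((((nd_136.join nd_138).join nd_140).join nd_142).join nd_144).join nd_146).join nd_148).join nd_150).join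
    nd_152).join nd_154).join nd_156).join nd_158).join nd_160).join nd_162).join nd_164).join nd_166).join
    nd_168).join nd_170).join nd_172).join nd_174).join nd_176).join nd_178).join nd_180).join nd_182).join
    nd_184).join nd_186).join nd_188).join nd_190).join nd_192).join nd_194).join nd_196).join nd_198).join
    nd_200).join nd_202).join nd_204)

end MP61673a.KC.RowI2931
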