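import Pool.Agent.Mu673.RowTabI3133

/-!
Kernel checks of the tables of the nodes (row cell I3133).
-/

set_option autoImplicit false
set_option maxRecDepth 100000

namespace MP61673a.KC.RowI3133

open MP61673a.Kink MP61673a.Bary MP61673a.Sos MP61673a.Fin MP61673a.FE MP61673a.KC MP61673a.RowI MP61673a.Row9 MP61673a.RowI9

theorem nd_95 : NdsOK9 dat rcd A.exf A.mcf A.mxf 95 97 :=
  NdsOK9.of_checkF hcI (by decide +kernel)

theorem nd_97 : NdsOK9 dat rcd A.exf A.mcf A.mxf 97 99 :=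
  NdsOK9.of_checkF hcI (by decide +kernel)

theorem nd_99 : NdsOK9 dat rcd A.exf A.mcf A.mxf 99 101 :=
  NdsOK9.of_checkF hcI (by decide +kernel)

theorem nd_101 : NdsOK9 dat rcd A.exf A.mcf A.mxf 101 103 :=
  NdsOK9.of_checkF hcI (by decide +kernel)

theorem nd_103 : NdsOK9 dat rcd A.exf A.mcf A.mxf 103 105 :=
  NdsOK9.of_checkF hcI (by decide +kernel)

theorem nd_105 : NdsOK9 dat rcd A.exf A.mcf A.mxf 105 107 :=
  NdsOK9.of_checkF hcI (by decide +kernel)

theorem nd_107 : NdsOK9 dat rcd A.exf A.mcf A.mxf 107 109 :=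
  NdsOK9.of_checkF hcI (by decide +kernel)

theorem nd_109 : NdsOK9 dat rcd A.exf A.mcf A.mxf 109 111 :=
  NdsOK9.of_checkF hcI (by decide +kernel)

theorem nd_111 : NdsOK9 dat rcd A.exf A.mcf A.mxf 111 113 :=
  NdsOK9.of_checkF hcI (by decide +kernel)

theorem nd_113 : NdsOK9 dat rcd A.exf A.mcf A.mxf 113 115 :=
  NdsOK9.of_checkF hcI (by decide +kernel)

theorem nd_115 : NdsOK9 dat rcd A.exf A.mcf A.mxf 115 117 :=
  NdsOK9.of_checkF hcI (by decide +kernel)

theorem nd_117 : NdsOK9 dat rcd A.exf A.mcf A.mxf 117 119 :=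
  NdsOK9.of_checkF hcI (by decide +kernel)

theorem nd_119 : NdsOK9 dat rcd A.exf A.mcf A.mxf 119 121 :=
  NdsOK9.of_checkF hcI (by decide +kernel)

theorem nd_121 : NdsOK9 dat rcd A.exf A.mcf A.mxf 121 123 :=
  NdsOK9.of_checkF hcI (by decide +kernel)

theorem nd_123 : NdsOK9 dat rcd A.exf A.mcf A.mxf 123 125 :=
  NdsOK9.of_checkF hcI (by decide +kernel)

theorem nd_125 : NdsOK9 dat rcd A.exf A.mcf A.mxf 125 127 :=
  NdsOK9.of_checkF hcI (by decide +kernel)

theorem nd_127 : NdsOK9 dat rcd A.exf A.mcf A.mxf 127 129 :=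
  NdsOK9.of_checkF hcI (by decide +kernel)

theorem nd_129 : NdsOK9 dat rcd A.exf A.mcf A.mxf 129 131 :=
  NdsOK9.of_checkF hcI (by decide +kernel)

theorem nd_131 : NdsOK9 dat rcd A.exf A.mcf A.mxf 131 133 :=
  NdsOK9.of_checkF hcI (by decide +kernel)

theorem nd_133 : NdsOK9 dat rcd A.exf A.mcf A.mxf 133 135 :=
  NdsOK9.of_checkF hcI (by decide +kernel)

theorem nd_135 : NdsOK9 dat rcd A.exf A.mcf A.mxf 135 137 :=
  NdsOK9.of_checkF hcI (by decide +kernel)

theorem nd_137 : NdsOK9 dat rcd A.exf A.mcf A.mxf 137 139 :=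
  NdsOK9.of_checkF hcI (by decide +kernel)

theorem nd_139 : NdsOK9 dat rcd A.exf A.mcf A.mxf 139 141 :=
  NdsOK9.of_checkF hcI (by decide +kernel)

theorem nd_141 : NdsOK9 dat rcd A.exf A.mcf A.mxf 141 143 :=
  NdsOK9.of_checkF hcI (by decide +kernel)

theorem nd2 : NdsOK9 dat rcd A.exf A.mcf A.mxf 95 143 :=
  (((((((((((((((((((((((nd_95.join nd_97).join nd_99).join nd_101).join nd_103).join nd_105).join nd_107).join nd_109).join
    nd_111).join nd_113).join nd_115).join nd_117).join nd_119).join nd_121).join nd_123).join nd_125).join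
    nd_127).join nd_129).join nd_131).join nd_133).join nd_135).join nd_137).join nd_139).join nd_141)

end MP61673a.KC.RowI3133
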