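import Pool.Agent.Mu673.RowTabI3436

/-!
Kernel checks of the tables of the nodes (row cell I3436).
-/

set_option autoImplicit false
set_option maxRecDepth 100000

namespace MP61673a.KC.RowI3436

open MP61673a.Kink MP61673a.Bary MP61673a.Sos MP61673a.Fin MP61673a.FE MP61673a.KC MP61673a.RowI MP61673a.Row9 MP61673a.RowI9

theorem nd_47 : NdsOK9 dat rcd A.exf A.mcf A.mxf 47 49 :=
  NdsOK9.of_checkF hcI (by decide +kernel)

theorem nd_49 : NdsOK9 dat rcd A.exf A.mcf A.mxf 49 51 :=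
  NdsOK9.of_checkF hcI (by decide +kernel)

theorem nd_51 : NdsOK9 dat rcd A.exf A.mcf A.mxf 51 53 :=
  NdsOK9.of_checkF hcI (by decide +kernel)

theorem nd_53 : NdsOK9 dat rcd A.exf A.mcf A.mxf 53 55 :=
  NdsOK9.of_checkF hcI (by decide +kernel)

theorem nd_55 : NdsOK9 dat rcd A.exf A.mcf A.mxf 55 57 :=
  NdsOK9.of_checkF hcI (by decide +kernel)

theorem nd_57 : NdsOK9 dat rcd A.exf A.mcf A.mxf 57 59 :=
  NdsOK9.of_checkF hcI (by decide +kernel)

theorem nd_59 : NdsOK9 dat rcd A.exf A.mcf A.mxf 59 61 :=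
  NdsOK9.of_checkF hcI (by decide +kernel)

theorem nd_61 : NdsOK9 dat rcd A.exf A.mcf A.mxf 61 63 :=
  NdsOK9.of_checkF hcI (by decide +kernel)

theorem nd_63 : NdsOK9 dat rcd A.exf A.mcf A.mxf 63 65 :=
  NdsOK9.of_checkF hcI (by decide +kernel)

theorem nd_65 : NdsOK9 dat rcd A.exf A.mcf A.mxf 65 67 :=
  NdsOK9.of_checkF hcI (by decide +kernel)

theorem nd_67 : NdsOK9 dat rcd A.exf A.mcf A.mxf 67 69 :=
  NdsOK9.of_checkF hcI (by decide +kernel)

theorem nd_69 : NdsOK9 dat rcd A.exf A.mcf A.mxf 69 71 :=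
  NdsOK9.of_checkF hcI (by decide +kernel)

theorem nd_71 : NdsOK9 dat rcd A.exf A.mcf A.mxf 71 73 :=
  NdsOK9.of_checkF hcI (by decide +kernel)

theorem nd_73 : NdsOK9 dat rcd A.exf A.mcf A.mxf 73 75 :=
  NdsOK9.of_checkF hcI (by decide +kernel)

theorem nd_75 : NdsOK9 dat rcd A.exf A.mcf A.mxf 75 77 :=
  NdsOK9.of_checkF hcI (by decide +kernel)

theorem nd_77 : NdsOK9 dat rcd A.exf A.mcf A.mxf 77 79 :=
  NdsOK9.of_checkF hcI (by decide +kernel)

theorem nd_79 : NdsOK9 dat rcd A.exf A.mcf A.mxf 79 81 :=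
  NdsOK9.of_checkF hcI (by decide +kernel)

theorem nd_81 : NdsOK9 dat rcd A.exf A.mcf A.mxf 81 83 :=
  NdsOK9.of_checkF hcI (by decide +kernel)

theorem nd_83 : NdsOK9 dat rcd A.exf A.mcf A.mxf 83 85 :=
  NdsOK9.of_checkF hcI (by decide +kernel)

theorem nd_85 : NdsOK9 dat rcd A.exf A.mcf A.mxf 85 87 :=
  NdsOK9.of_checkF hcI (by decide +kernel)

theorem nd_87 : NdsOK9 dat rcd A.exf A.mcf A.mxf 87 89 :=
  NdsOK9.of_checkF hcI (by decide +kernel)

theorem nd_89 : NdsOK9 dat rcd A.exf A.mcf A.mxf 89 91 :=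
  NdsOK9.of_checkF hcI (by decide +kernel)

theorem nd_91 : NdsOK9 dat rcd A.exf A.mcf A.mxf 91 93 :=
  NdsOK9.of_checkF hcI (by decide +kernel)

theorem nd_93 : NdsOK9 dat rcd A.exf A.mcf A.mxf 93 94 :=
  NdsOK9.of_checkF hcI (by decide +kernel)

theorem nd1 : NdsOK9 dat rcd A.exf A.mcf A.mxf 47 94 :=
  (((((((((((((((((((((((nd_47.join nd_49).join nd_51).join nd_53).join nd_55).join nd_57).join nd_59).join nd_61).join
    nd_63).join nd_65).join nd_67).join nd_69).join nd_71).join nd_73).join nd_75).join nd_77).join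
    nd_79).join nd_81).join nd_83).join nd_85).join nd_87).join nd_89).join nd_91).join nd_93)

end MP61673a.KC.RowI3436
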