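import Pool.Agent.Mu673.NetCk2
import Pool.Agent.Mu673.RowWrap
import Pool.Agent.Mu673.FactO

/-!
AN OUT CELL FROM ITS CERTIFICATE (helper73): all checks as Bools give `CellEx`.
-/

set_option autoImplicit false

namespace MP61673a.RowO

open Finset MP61673a.W MP61673a.Kink MP61673a.Bary MP61673a.Sos MP61673a.Fin MP61673a.FE MP61673a.KC

noncomputable section

namespace RD

variable {A : RD}

/-- the constants of the cell, see `cell_out` -/
def chkCell (A : RD) : Bool :=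
  decide (A.p.o = true) && decide (A.p.m ≤ 8 * A.p.a) && decide (A.p.a ≤ A.p.m)
  && decide (0 ≤ A.p.b) && decide (2 * A.p.b ≤ 3 * A.p.m)

/-- ALL CHECKS OF AN OUT CELL EXCEPT THE ROWS -/
structure OutOK (A : RD) (ks : List ℕ) : Prop where
  g : A.chkG = true
  kz : A.chkKz = true
  one : A.chkOne = true
  net : A.netChk ks = true
  fct : A.factChk = true
  pos : A.chkCell = true

lemma chkCell_imp (h : A.chkCell = true) : A.p.o = true ∧ A.p.m ≤ 8 * A.p.a ∧ A.p.a ≤ A.p.m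
    ∧ 0 ≤ A.p.b ∧ 2 * A.p.b ≤ 3 * A.p.m := by
  unfold chkCell at h
  simp only [Bool.and_eq_true, decide_eq_true_eq] at h
  obtain ⟨⟨⟨⟨h1, h2⟩, h3⟩, h4⟩, h5⟩ := h
  exact ⟨h1, h2, h3, h4, h5⟩

/-- THE ROW AT EVERY DEPTH OF AN OUT CELL -/
theorem depth_out {ks : List ℕ} (h : A.OutOK ks) (hn : NdsOK A.d A.r A.exf 0 (vR A.d.segs))
    {k : ℕ} (hokr : okR k A.d = true) (hrow : RowOK A.d 0 (vR A.d.segs)) :
    ∃ C : ℝ, ∀ (K0 N : ℤ), 13 * (A.p.M : ℤ) ≤ K0 →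
      DepthOut K0 (1 / 20) C N A.p.m A.p.a A.p.b := by
  have g := chkG_imp h.g
  refine ⟨A.cst (cN A) 0 0, fun K0 N hK0 => ?_⟩
  intro P Q D K V E ξR ξL env lo t0 t t1 c1 c2 c3 p
  have hD : D = 4 * K + 1 := env.hD
  have hK1 := env.hK1
  have hKK := env.hK0
  have hK : 1 ≤ K := by omega
  obtain ⟨cl, hcl, hiw, -, -⟩ := g.cs.clMap g.pos.q hD hK (lo - t0)
  obtain ⟨X3, hX, hY⟩ := fact_out g h.fct env hD hK hcl rfl
  exact row_at g (chkCell_imp h.pos).1 h.kz h.one hn hokr hrow env (by omega) p.near p.h0 p.h1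
    p.lo1 p.V p.at_ p.cuts p.cok hD hK hcl hiw rfl
    (flgU_cls g.pos.q hD hK g.cs.runF hcl env.eV) (fun _ => rfl) (fun _ => rfl) (fun _ => rfl)
    (net3_out g h.net hD hK env.eV env.hE (EnvS.E40 env) (EnvS.act env) (p.h0.trans p.h1) p.hD1
      p.at_ p.cok p.cg hcl hiw rfl)
    (eN_nonneg A (by omega)) (eN_le A hD (by omega)) hX hY le_rfl (by rw [mul_zero])

/-- OUT CELL -/
theorem cell_out {ks : List ℕ} (h : A.OutOK ks) (hn : NdsOK A.d A.r A.exf 0 (vR A.d.segs))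
    {k : ℕ} (hokr : okR k A.d = true) (hrow : RowOK A.d 0 (vR A.d.segs)) {m a b : ℤ}
    (hm : A.p.m = m) (ha : A.p.a = a) (hb : A.p.b = b) (N : ℤ) : CellEx N m a b := by
  obtain ⟨C, hC⟩ := depth_out h hn hokr hrow
  obtain ⟨-, h2, h3, h4, h5⟩ := chkCell_imp h.pos
  subst hm ha hb
  exact ⟨13 * (A.p.M : ℤ), C, rowCell_out (chkG_imp h.g).pos.m h2 h3 h4 h5 (hC _ N le_rfl)⟩

/-- LAST OUT CELL -/
theorem tail_out {ks : List ℕ} (h : A.OutOK ks) (hn : NdsOK A.d A.r A.exf 0 (vR A.d.segs))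
    {k : ℕ} (hokr : okR k A.d = true) (hrow : RowOK A.d 0 (vR A.d.segs)) {m a : ℤ}
    (hm : A.p.m = m) (ha : A.p.a = a) (hb : A.p.m < A.p.b) (N : ℤ) : TailEx N m a := by
  obtain ⟨C, hC⟩ := depth_out h hn hokr hrow
  obtain ⟨-, h2, h3, h4, h5⟩ := chkCell_imp h.pos
  have hm0 := (chkG_imp h.g).pos.m
  subst hm ha
  have hd : (0:ℤ) ≤ 11 * A.p.m := by omega
  refine ⟨max (13 * (A.p.M : ℤ)) (11 * A.p.m), C,
    rowTail_out (b := A.p.b) (d := 11 * A.p.m) hm0 h2 h3 hb.le hd ?_ ?_ h5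
      (hC _ N (le_max_left _ _))⟩
  · have := le_max_right (13 * (A.p.M : ℤ)) (11 * A.p.m)
    omega
  · nlinarith

end RD

end

end MP61673a.RowO
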