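import Pool.Agent.Mu673.KCbase

/-!
Packed vectors, part 2: gathering of digits (strides), concatenation, fieldwise minimum and
fieldwise comparison.
-/

set_option autoImplicit false

namespace MP61673a.KC

open Finset

noncomputable section

/-- the packed vector `t ↦ digit (f t)` of `x`, `t < n` -/
def gath (f : ℕ → ℕ) (n x : ℕ) : ℕ :=
  Nat.rec (motive := fun _ => ℕ) 0 (fun k ih => Nat.add ih (Nat.mul (dg x (f k)) (bp k))) n

/-- even digits -/
def evens (n x : ℕ) : ℕ := gath (fun t => Nat.mul 2 t) n x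

/-- odd digits -/
def odds (n x : ℕ) : ℕ := gath (fun t => Nat.succ (Nat.mul 2 t)) n x

/-- reversed digits: `t ↦ digit (c - t)`, `t ≤ c` -/
def revs (c x : ℕ) : ℕ := gath (fun t => Nat.sub c t) (Nat.succ c) x

/-- stride two row from the even and the odd digits: `t ↦ digit (2 t + s)` -/
def str2 (xe xo s : ℕ) : ℕ := par s (shf xe (Nat.div s 2)) (shf xo (Nat.div s 2))

/-- fieldwise comparison mask: field `2^40 - 1` where `x ≥ y`, else `0` (fields `< 2^39`) -/
def gmask (m x y : ℕ) : ℕ :=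
  Nat.mul (Nat.shiftRight (Nat.land (md m (Nat.add x (Nat.mul 549755813888 (rep m))) y)
    (Nat.mul 549755813888 (rep m))) 39) 1099511627775

/-- fieldwise minimum (fields `< 2^39`) -/
def pmin (m x y : ℕ) : ℕ :=
  Nat.add (Nat.land y (gmask m x y)) (Nat.land x (Nat.sub (Nat.sub (bp m) 1) (gmask m x y)))

/-- fieldwise `y ≤ x` (fields `< 2^39`) -/
def ple (m x y : ℕ) : Bool :=
  Nat.beq (Nat.land (md m (Nat.add x (Nat.mul 549755813888 (rep m))) y)
    (Nat.mul 549755813888 (rep m))) (Nat.mul 549755813888 (rep m))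

end

lemma dg_add_mul (X Y m c : ℕ) (hX : X < 2 ^ (40 * m)) :
    dg (X + Y * 2 ^ (40 * m)) c = if c < m then dg X c else dg Y (c - m) := by
  split_ifs with h
  · have r1 : Rp m (X + Y * 2 ^ (40 * m)) (fun c => (dg X c : ℤ)) := by
      have := Rp.self m X
      unfold Rp at *
      have e : (((X + Y * 2 ^ (40 * m) : ℕ)) : ℤ) ≡ (X : ℤ) [ZMOD 2 ^ (40 * m)] := by
        push_cast
        have h0 : (Y : ℤ) * 2 ^ (40 * m) ≡ 0 [ZMOD 2 ^ (40 * m)] :=
          (Int.modEq_zero_iff_dvd).2 (Dvd.intro_left _ rfl)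
        simpa only [add_zero] using Int.ModEq.add_left (X : ℤ) h0
      exact e.trans this
    have := r1.dg (fun c _ => ⟨by positivity, by exact_mod_cast dg_lt X c⟩) h
    exact_mod_cast this
  · rw [dg_eq, dg_eq]
    have e : (X + Y * 2 ^ (40 * m)) / 2 ^ (40 * c) = Y / 2 ^ (40 * (c - m)) := by
      have e1 : 40 * c = 40 * m + 40 * (c - m) := by omega
      rw [e1, pow_add, ← Nat.div_div_eq_div_mul]
      congr 1
      rw [Nat.add_mul_div_right _ _ (by positivity), Nat.div_eq_of_lt hX, zero_add]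
    rw [e]

lemma gath_succ (f : ℕ → ℕ) (n x : ℕ) :
    gath f (n + 1) x = gath f n x + dg x (f n) * 2 ^ (40 * n) := rfl

lemma gath_lt (f : ℕ → ℕ) (n x : ℕ) : gath f n x < 2 ^ (40 * n) := by
  induction n with
  | zero => simp [gath]
  | succ n ih =>
    rw [gath_succ, show 40 * (n + 1) = 40 + 40 * n by ring, pow_add]
    have h := dg_lt x (f n)
    have h2 : dg x (f n) * 2 ^ (40 * n) ≤ (2 ^ 40 - 1) * 2 ^ (40 * n) :=
      Nat.mul_le_mul_right _ (by omega)
    have h3 : (2 ^ 40 - 1) * 2 ^ (40 * n) + 2 ^ (40 * n) = 2 ^ 40 * 2 ^ (40 * n) := by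
      rw [Nat.sub_mul, one_mul]
      have : 1 * 2 ^ (40 * n) ≤ 2 ^ 40 * 2 ^ (40 * n) := Nat.mul_le_mul_right _ (by norm_num)
      omega
    omega

lemma dg_gath (f : ℕ → ℕ) (n x t : ℕ) : dg (gath f n x) t = if t < n then dg x (f t) else 0 := by
  induction n with
  | zero =>
    have : gath f 0 x = 0 := rfl
    rw [this, dg_zero]
    simp
  | succ n ih =>
    rw [gath_succ, dg_add_mul _ _ _ _ (gath_lt f n x)]
    split_ifs with h1 h2 h2
    · rw [ih, if_pos h1]
    · omega
    · have e : t = n := by omega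
      subst e
      rw [Nat.sub_self, dg_eq]
      simp only [mul_zero, pow_zero, Nat.div_one]
      exact Nat.mod_eq_of_lt (dg_lt x (f t))
    · rw [dg_of_lt (m := 1) (by simpa using dg_lt x (f n)) (by omega)]

lemma dg_evens (n x t : ℕ) : dg (evens n x) t = if t < n then dg x (2 * t) else 0 := dg_gath _ _ _ _

lemma dg_odds (n x t : ℕ) : dg (odds n x) t = if t < n then dg x (2 * t + 1) else 0 :=
  dg_gath _ _ _ _

lemma dg_revs (c x t : ℕ) : dg (revs c x) t = if t ≤ c then dg x (c - t) else 0 := by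
  have := dg_gath (fun t => Nat.sub c t) (Nat.succ c) x t
  unfold revs
  rw [this]
  by_cases h : t ≤ c
  · rw [if_pos h, if_pos (Nat.lt_succ_of_le h)]
    rfl
  · rw [if_neg h, if_neg (by omega)]

/-- stride two rows -/
lemma dg_str2 {n x s t : ℕ} (h : t + s / 2 < n) :
    dg (str2 (evens n x) (odds n x) s) t = dg x (2 * t + s) := by
  unfold str2
  rcases Nat.mod_two_eq_zero_or_one s with e | e
  · rw [par0 _ _ _ e, dg_shf, dg_evens]
    show (if t + s / 2 < n then dg x (2 * (t + s / 2)) else 0) = _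
    rw [if_pos h]
    congr 1
    omega
  · rw [par1 _ _ _ e, dg_shf, dg_odds]
    show (if t + s / 2 < n then dg x (2 * (t + s / 2) + 1) else 0) = _
    rw [if_pos h]
    congr 1
    omega

/-- concatenation, different lengths -/
lemma Rp.catg (m m' X Y : ℕ) : Rp (m + m') (KC.cat m X Y)
    (fun c => if c < m then (KC.dg X c : ℤ) else (KC.dg Y (c - m) : ℤ)) := by
  have e : KC.cat m X Y = X % 2 ^ (40 * m) + Y * 2 ^ (40 * m) := by
    show X % 2 ^ (40 * m) + 2 ^ (40 * m) * Y = _
    ring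
  refine (Rp.self (m + m') _).congr fun c _ => ?_
  rw [e, dg_add_mul _ _ _ _ (Nat.mod_lt _ (by positivity))]
  split_ifs with h
  · have r1 : Rp m (X % 2 ^ (40 * m)) (fun c => (KC.dg X c : ℤ)) := by
      have := Rp.self m X
      unfold Rp at *
      refine Int.ModEq.trans ?_ this
      push_cast
      exact Int.mod_modEq _ _
    exact r1.dg (fun c _ => ⟨by positivity, by exact_mod_cast dg_lt X c⟩) h
  · rfl

lemma dg_cat (m X Y c : ℕ) : dg (cat m X Y) c = if c < m then dg X c else dg Y (c - m) := by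
  have h := (Rp.catg m (c + 1) X Y).dg (c := c) (fun k _ => by
    split_ifs
    · exact ⟨by positivity, by exact_mod_cast dg_lt X k⟩
    · exact ⟨by positivity, by exact_mod_cast dg_lt Y (k - m)⟩) (by omega)
  split_ifs at h ⊢ with hc
  · exact_mod_cast h
  · exact_mod_cast h

lemma dg_land (x y c : ℕ) : dg (Nat.land x y) c = Nat.land (dg x c) (dg y c) := by
  have e1 : (x &&& y) >>> (40 * c) = (x >>> (40 * c)) &&& (y >>> (40 * c)) :=
    Nat.shiftRight_and_distrib
  show ((x &&& y) >>> (40 * c)) &&& 1099511627775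
    = ((x >>> (40 * c)) &&& 1099511627775) &&& ((y >>> (40 * c)) &&& 1099511627775)
  rw [e1, Nat.and_assoc, Nat.and_assoc]
  congr 1
  rw [Nat.and_left_comm, Nat.and_self, Nat.and_comm]

/-- digits of `2^39 * rep m` -/
lemma dg_G {m c : ℕ} (hc : c < m) : dg (Nat.mul 549755813888 (rep m)) c = 549755813888 := by
  have h := ((Rp.rep m).mul 549755813888).dg (fun c _ => ⟨by norm_num, by norm_num⟩) hc
  have e : (dg (Nat.mul 549755813888 (rep m)) c : ℤ) = 549755813888 := by
    rw [h]
    norm_num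
  exact_mod_cast e

lemma rep_lt (m k : ℕ) (hk : k ≤ 1099511627775) : Nat.mul k (rep m) < 2 ^ (40 * m) := by
  have e1 : rep m * 1099511627775 ≤ 2 ^ (40 * m) - 1 := by
    show (2 ^ (40 * m) - 1) / 1099511627775 * 1099511627775 ≤ 2 ^ (40 * m) - 1
    exact Nat.div_mul_le_self _ _
  have e2 : Nat.mul k (rep m) ≤ 1099511627775 * rep m := Nat.mul_le_mul_right _ hk
  have e3 : (1:ℕ) ≤ 2 ^ (40 * m) := Nat.one_le_two_pow
  rw [mul_comm] at e2
  omega

/-- digits of the signed difference with offset -/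
lemma dg_diff {m x y c : ℕ} (hx : ∀ c < m, dg x c < 2 ^ 39) (hy : ∀ c < m, dg y c < 2 ^ 39)
    (hc : c < m) :
    (dg (md m (Nat.add x (Nat.mul 549755813888 (rep m))) y) c : ℤ)
      = dg x c + 549755813888 - dg y c := by
  have h := (((Rp.self m x).add ((Rp.rep m).mul 549755813888)).md (Rp.self m y)).dg
    (fun c hc => by
      have h1 : ((dg x c : ℕ) : ℤ) < 2 ^ 39 := by exact_mod_cast hx c hc
      have h2 : ((dg y c : ℕ) : ℤ) < 2 ^ 39 := by exact_mod_cast hy c hc
      have h3 : (0 : ℤ) ≤ (dg x c : ℕ) := by positivity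
      have h4 : (0 : ℤ) ≤ (dg y c : ℕ) := by positivity
      push_cast
      norm_num at *
      constructor <;> linarith) hc
  rw [h]
  push_cast
  ring

lemma land_pow39 (t : ℕ) (h : t < 2 ^ 40) :
    Nat.land t 549755813888 = if 2 ^ 39 ≤ t then 549755813888 else 0 := by
  have e : (549755813888 : ℕ) = 2 ^ 39 := by norm_num
  show t &&& 549755813888 = _
  rw [e]
  split_ifs with c
  · have h1 : t.testBit 39 = true := by
      rw [Nat.testBit_eq_decide_div_mod_eq]
      have : t / 2 ^ 39 = 1 := by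
        apply Nat.div_eq_of_lt_le
        · omega
        · omega
      rw [this]
      rfl
    rw [Nat.and_two_pow, h1]
    rfl
  · have h1 : t.testBit 39 = false := Nat.testBit_lt_two_pow (by omega)
    rw [Nat.and_two_pow, h1]
    rfl

/-- the digits of the comparison word -/
lemma dg_cmp {m x y c : ℕ} (hx : ∀ c < m, dg x c < 2 ^ 39) (hy : ∀ c < m, dg y c < 2 ^ 39)
    (hc : c < m) :
    dg (Nat.land (md m (Nat.add x (Nat.mul 549755813888 (rep m))) y)
      (Nat.mul 549755813888 (rep m))) c = if dg y c ≤ dg x c then 549755813888 else 0 := by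
  rw [dg_land, dg_G hc, land_pow39 _ (dg_lt _ _)]
  have h := dg_diff hx hy hc
  by_cases k : dg y c ≤ dg x c
  · rw [if_pos k, if_pos]
    have : ((dg y c : ℕ) : ℤ) ≤ dg x c := by exact_mod_cast k
    have h2 : (549755813888 : ℤ)
        ≤ dg (md m (Nat.add x (Nat.mul 549755813888 (rep m))) y) c := by linarith
    have h3 : 549755813888 ≤ dg (md m (Nat.add x (Nat.mul 549755813888 (rep m))) y) c := by
      exact_mod_cast h2
    norm_num
    exact h3
  · rw [if_neg k, if_neg]
    have : ((dg x c : ℕ) : ℤ) < dg y c := by exact_mod_cast (not_le.1 k)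
    have h2 : (dg (md m (Nat.add x (Nat.mul 549755813888 (rep m))) y) c : ℤ)
        < 549755813888 := by linarith
    have h3 : dg (md m (Nat.add x (Nat.mul 549755813888 (rep m))) y) c < 549755813888 := by
      exact_mod_cast h2
    norm_num
    exact h3

/-- a number below `2^(40 m)` is determined by its digits -/
lemma eq_sum_of_lt {m X : ℕ} (h : X < 2 ^ (40 * m)) :
    X = ∑ c ∈ range m, dg X c * 2 ^ (40 * c) := by
  rw [← mod_eq_sum, Nat.mod_eq_of_lt h]

lemma sum_lt {m : ℕ} {u : ℕ → ℕ} (h : ∀ c < m, u c < 2 ^ 40) :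
    ∑ c ∈ range m, u c * 2 ^ (40 * c) < 2 ^ (40 * m) := by
  induction m with
  | zero => simp
  | succ m ih =>
    rw [sum_range_succ, show 40 * (m + 1) = 40 + 40 * m by ring, pow_add]
    have h1 := ih fun c hc => h c (by omega)
    have h2 : u m * 2 ^ (40 * m) ≤ (2 ^ 40 - 1) * 2 ^ (40 * m) :=
      Nat.mul_le_mul_right _ (by have := h m (by omega); omega)
    have h3 : (2 ^ 40 - 1) * 2 ^ (40 * m) + 2 ^ (40 * m) = 2 ^ 40 * 2 ^ (40 * m) := by
      rw [Nat.sub_mul, one_mul]
      have : 1 * 2 ^ (40 * m) ≤ 2 ^ 40 * 2 ^ (40 * m) := Nat.mul_le_mul_right _ (by norm_num)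
      omega
    omega

lemma dg_sum {m : ℕ} {u : ℕ → ℕ} (h : ∀ c < m, u c < 2 ^ 40) {c : ℕ} (hc : c < m) :
    dg (∑ c ∈ range m, u c * 2 ^ (40 * c)) c = u c := by
  have r : Rp m (∑ c ∈ range m, u c * 2 ^ (40 * c)) (fun c => (u c : ℤ)) := by
    unfold Rp
    push_cast
    exact Int.ModEq.refl _
  have := r.dg (fun c hc => ⟨by positivity, by exact_mod_cast h c hc⟩) hc
  exact_mod_cast this

lemma land_lt {m x y : ℕ} (h : y < 2 ^ (40 * m)) : Nat.land x y < 2 ^ (40 * m) :=
  lt_of_le_of_lt (Nat.and_le_right) h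

/-- the mask has the digits `2^40 - 1` or `0` -/
lemma gmask_eq {m x y : ℕ} (hx : ∀ c < m, dg x c < 2 ^ 39) (hy : ∀ c < m, dg y c < 2 ^ 39) :
    gmask m x y
      = ∑ c ∈ range m, (if dg y c ≤ dg x c then 1099511627775 else 0) * 2 ^ (40 * c) := by
  unfold gmask
  set W := Nat.land (md m (Nat.add x (Nat.mul 549755813888 (rep m))) y)
    (Nat.mul 549755813888 (rep m)) with hW
  have hlt : W < 2 ^ (40 * m) := land_lt (rep_lt m _ (by norm_num))
  have e1 : W = 549755813888
      * ∑ c ∈ range m, (if dg y c ≤ dg x c then 1 else 0) * 2 ^ (40 * c) := by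
    rw [eq_sum_of_lt hlt, mul_sum]
    refine sum_congr rfl fun c hc => ?_
    rw [hW, dg_cmp hx hy (mem_range.1 hc)]
    split_ifs
    · ring
    · ring
  have e2 : Nat.shiftRight W 39
      = ∑ c ∈ range m, (if dg y c ≤ dg x c then 1 else 0) * 2 ^ (40 * c) := by
    show W >>> 39 = _
    rw [Nat.shiftRight_eq_div_pow, e1]
    exact Nat.mul_div_cancel_left _ (by norm_num)
  show Nat.shiftRight W 39 * 1099511627775 = _
  rw [e2, sum_mul]
  refine sum_congr rfl fun c _ => ?_
  split_ifs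
  · ring
  · ring

lemma gmask_lt {m x y : ℕ} (hx : ∀ c < m, dg x c < 2 ^ 39) (hy : ∀ c < m, dg y c < 2 ^ 39) :
    gmask m x y < 2 ^ (40 * m) := by
  rw [gmask_eq hx hy]
  exact sum_lt fun c _ => by split_ifs <;> norm_num

lemma dg_gmask {m x y c : ℕ} (hx : ∀ c < m, dg x c < 2 ^ 39) (hy : ∀ c < m, dg y c < 2 ^ 39)
    (hc : c < m) : dg (gmask m x y) c = if dg y c ≤ dg x c then 1099511627775 else 0 := by
  rw [gmask_eq hx hy]
  exact dg_sum (u := fun c => if dg y c ≤ dg x c then 1099511627775 else 0)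
    (fun c _ => by split_ifs <;> norm_num) hc

lemma dg_cmask {m x y c : ℕ} (hx : ∀ c < m, dg x c < 2 ^ 39) (hy : ∀ c < m, dg y c < 2 ^ 39)
    (hc : c < m) : dg (Nat.sub (Nat.sub (bp m) 1) (gmask m x y)) c
      = if dg y c ≤ dg x c then 0 else 1099511627775 := by
  have e : Nat.sub (Nat.sub (bp m) 1) (gmask m x y)
      = ∑ c ∈ range m, (if dg y c ≤ dg x c then 0 else 1099511627775) * 2 ^ (40 * c) := by
    show 2 ^ (40 * m) - 1 - gmask m x y = _
    rw [gmask_eq hx hy]
    have h1 : 2 ^ (40 * m) - 1 = ∑ c ∈ range m, 1099511627775 * 2 ^ (40 * c) := by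
      have h := rep_eq m
      have h2 : rep m * 1099511627775 = 2 ^ (40 * m) - 1 := by
        rw [h]
        clear h hc hy hx
        induction m with
        | zero => simp
        | succ m ih =>
          rw [sum_range_succ, add_mul, ih, show 40 * (m + 1) = 40 * m + 40 by ring, pow_add]
          have : 1 ≤ 2 ^ (40 * m) := Nat.one_le_two_pow
          have e : (2:ℕ) ^ 40 = 1099511627776 := by norm_num
          rw [e]
          omega
      rw [← h2, h, sum_mul]
      exact sum_congr rfl fun c _ => by ring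
    rw [h1]
    have h3 : ∑ c ∈ range m, 1099511627775 * 2 ^ (40 * c)
        = ∑ c ∈ range m, (if dg y c ≤ dg x c then 1099511627775 else 0) * 2 ^ (40 * c)
          + ∑ c ∈ range m, (if dg y c ≤ dg x c then 0 else 1099511627775) * 2 ^ (40 * c) := by
      rw [← sum_add_distrib]
      refine sum_congr rfl fun c _ => ?_
      split_ifs <;> ring
    rw [h3, Nat.add_sub_cancel_left]
  rw [e]
  exact dg_sum (u := fun c => if dg y c ≤ dg x c then 0 else 1099511627775)
    (fun c _ => by split_ifs <;> norm_num) hc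

lemma land_full (t : ℕ) (h : t < 2 ^ 40) : Nat.land t 1099511627775 = t := by
  have := Nat.and_two_pow_sub_one_eq_mod t 40
  show t &&& (2 ^ 40 - 1) = t
  rw [this, Nat.mod_eq_of_lt h]

lemma land_zero' (t : ℕ) : Nat.land t 0 = 0 := Nat.and_zero t

/-- FIELDWISE MINIMUM -/
lemma Rp.pmin {m x y : ℕ} (hx : ∀ c < m, KC.dg x c < 2 ^ 39) (hy : ∀ c < m, KC.dg y c < 2 ^ 39) :
    Rp m (pmin m x y) (fun c => ((min (KC.dg x c) (KC.dg y c) : ℕ) : ℤ)) := by
  unfold KC.pmin
  refine ((Rp.self m (Nat.land y (gmask m x y))).add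
    (Rp.self m (Nat.land x (Nat.sub (Nat.sub (bp m) 1) (gmask m x y))))).congr fun c hc => ?_
  rw [dg_land, dg_land, dg_gmask hx hy hc, dg_cmask hx hy hc]
  split_ifs with h
  · rw [land_full _ (dg_lt _ _), land_zero', min_eq_right h]
    simp
  · rw [land_full _ (dg_lt _ _), land_zero', min_eq_left (by omega)]
    simp

lemma dg_pmin {m x y c : ℕ} (hx : ∀ c < m, dg x c < 2 ^ 39) (hy : ∀ c < m, dg y c < 2 ^ 39)
    (hc : c < m) : dg (pmin m x y) c = min (dg x c) (dg y c) := by
  have := (Rp.pmin hx hy).dg (fun c hc => ⟨by positivity, by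
    have h1 := hx c hc
    have h2 : min (dg x c) (dg y c) ≤ dg x c := min_le_left _ _
    have h3 : min (dg x c) (dg y c) < 2 ^ 40 := by omega
    exact_mod_cast h3⟩) hc
  exact_mod_cast this

/-- FIELDWISE COMPARISON -/
lemma ple_sound {m x y : ℕ} (hx : ∀ c < m, dg x c < 2 ^ 39) (hy : ∀ c < m, dg y c < 2 ^ 39)
    (h : ple m x y = true) {c : ℕ} (hc : c < m) : dg y c ≤ dg x c := by
  unfold ple at h
  have e := Nat.eq_of_beq_eq_true h
  have h1 := dg_cmp hx hy hc
  rw [e, dg_G hc] at h1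
  by_contra k
  rw [if_neg k] at h1
  norm_num at h1

end MP61673a.KC
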