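import Pool.Agent.Mu673.RowLink2
import Pool.Agent.Mu673.KCmin

/-!
FAST VERSION OF THE NODE CHECKS `chkNds` (helper89): packed comparisons of all labels at once, the
quadratic condition only at the labels where it is needed, end tables equal to the table `0` are
skipped.
-/

set_option autoImplicit false

namespace MP61673a.KCF

open Finset MP61673a.Kink MP61673a.FE MP61673a.KC

noncomputable section

/-! ### Packed comparison -/

/-- comparison word: digit `2^39` if `dg y c ≤ dg x c`, else `0` -/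
def cmpZ (m x y : ℕ) : ℕ :=
  Nat.land (md m (Nat.add x (Nat.mul 549755813888 (rep m))) y) (Nat.mul 549755813888 (rep m))

/-- all digits below `m` of `y` are `≤` those of `x` -/
def leA (m x y : ℕ) : Bool := Nat.beq (cmpZ m x y) (Nat.mul 549755813888 (rep m))

lemma dg_B {m c : ℕ} (hc : c < m) : dg (Nat.mul 549755813888 (rep m)) c = 549755813888 := by
  have h3 : Rp m (Nat.mul 549755813888 (rep m)) (fun _ => ((549755813888 : ℕ) : ℤ) * 1) :=
    (Rp.rep m).mul 549755813888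
  have h4 := h3.dg (fun c _ => ⟨by norm_num, by norm_num⟩) hc
  have h6 : (dg (Nat.mul 549755813888 (rep m)) c : ℤ) = ((549755813888 : ℕ) : ℤ) := by
    rw [h4]
    ring
  exact_mod_cast h6

lemma leA_imp {m x y : ℕ} (hx : ∀ c < m, dg x c < 2 ^ 39) (hy : ∀ c < m, dg y c < 2 ^ 39)
    (h : leA m x y = true) {c : ℕ} (hc : c < m) : dg y c ≤ dg x c := by
  have e : cmpZ m x y = Nat.mul 549755813888 (rep m) := Nat.eq_of_beq_eq_true h
  have h1 : dg (cmpZ m x y) c = if dg y c ≤ dg x c then 549755813888 else 0 := dg_cmp hx hy hc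
  rw [e, dg_B hc] at h1
  by_contra k
  rw [if_neg k] at h1
  omega

/-- `a` or `b`, the second only if needed -/
def orL (a b : Bool) : Bool := Bool.rec (motive := fun _ => Bool) b true a

lemma orL_imp {a b : Bool} (h : orL a b = true) : a = true ∨ b = true := by
  cases a
  · exact Or.inr h
  · exact Or.inl rfl

lemma dg_mod_bp {x m c : ℕ} (hc : c < m) : dg (Nat.mod x (bp m)) c = dg x c := by
  have e1 : (Nat.mod x (bp m) : ℕ) = x % 2 ^ (40 * m) := rfl
  have r : Rp m (Nat.mod x (bp m)) (fun c => (dg x c : ℤ)) := by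
    have h := Rp.self m x
    unfold Rp at *
    rw [e1]
    push_cast
    exact (Int.mod_modEq _ _).trans h
  have := r.dg (fun c _ => ⟨by positivity, by exact_mod_cast dg_lt x c⟩) hc
  exact_mod_cast this

/-! ### Scan of the zero digits -/

/-- `f` holds at all zero digits `c < m` of `Z` (digits `0` or `2^39`), blocks of 16 digits -/
def scan (m Z : ℕ) (f : ℕ → Bool) : Bool :=
  frcB (bp 16) (fun p => frcB (Nat.mul 549755813888 (rep 16)) (fun r =>
    allN (Nat.succ (Nat.div m 16)) (fun b => frcB (Nat.mul 16 b) (fun b =>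
      orL (Nat.beq (Nat.mod (shf Z b) p) r) (allN 16 (fun i => frcB (Nat.add b i) (fun c =>
        orL (Nat.ble m c) (orL (Nat.ble 1 (dg Z c)) (f c)))))))))

lemma scan_imp {m Z : ℕ} {f : ℕ → Bool} (h : scan m Z f = true) {c : ℕ} (hc : c < m)
    (hz : dg Z c = 0) : f c = true := by
  unfold scan at h
  rw [frcB_eq, frcB_eq] at h
  have h1 := (allN_iff _ _).1 h (c / 16) (Nat.lt_succ_of_le (Nat.div_le_div_right hc.le))
  rw [frcB_eq] at h1
  have hm : c % 16 < 16 := Nat.mod_lt _ (by norm_num)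
  have hd : Nat.mul 16 (c / 16) + c % 16 = c := Nat.div_add_mod c 16
  rcases orL_imp h1 with h2 | h2
  · have e := Nat.eq_of_beq_eq_true h2
    have d1 : dg (Nat.mod (shf Z (Nat.mul 16 (c / 16))) (bp 16)) (c % 16) = dg Z c := by
      rw [dg_mod_bp hm, dg_shf, add_comm, hd]
    rw [e, dg_B hm, hz] at d1
    exact absurd d1 (by norm_num)
  · have h3 := (allN_iff _ _).1 h2 (c % 16) hm
    rw [frcB_eq] at h3
    have e2 : Nat.add (Nat.mul 16 (c / 16)) (c % 16) = c := hd
    rw [e2] at h3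
    rcases orL_imp h3 with h4 | h4
    · have := Nat.le_of_ble_eq_true h4
      omega
    · rcases orL_imp h4 with h5 | h5
      · have := Nat.le_of_ble_eq_true h5
        omega
      · exact h5

lemma cmpZ_bad {m x y : ℕ} (hx : ∀ c < m, dg x c < 2 ^ 39) (hy : ∀ c < m, dg y c < 2 ^ 39)
    {c : ℕ} (hc : c < m) (h : dg x c < dg y c) : dg (cmpZ m x y) c = 0 := by
  have h1 : dg (cmpZ m x y) c = if dg y c ≤ dg x c then 549755813888 else 0 := dg_cmp hx hy hc
  rw [h1, if_neg (by omega)]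

/-! ### The exact rule -/

/-- the quadratic condition with forced digits: `l`, `w0`, `p`, `q` neighbours, `s` far neighbour -/
def qd (l w0 p q s : ℕ) : Bool :=
  Nat.ble (Nat.pow (Nat.sub (Nat.mul 4 l) (Nat.add (Nat.add w0 (Nat.mul 2 p)) s)) 2)
    (Nat.mul (Nat.mul 8 (Nat.sub w0 l)) (Nat.sub (Nat.add p q) (Nat.mul 2 l)))

/-- fast form of `chkFr` -/
def chkFrF (n L w : ℕ) : Bool :=
  mask 37 (Nat.succ n) w && leA (Nat.succ n) w L
  && leA (Nat.sub n 1) (Nat.add w (shf w 2)) (Nat.mul 2 (shf L 1))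
  && frcB (cmpZ (Nat.sub n 2) (Nat.add (Nat.add (shf w 1) (Nat.mul 2 w)) (shf w 3))
      (Nat.mul 4 (shf L 1))) (fun Z => scan (Nat.sub n 2) Z (fun y =>
        frcB (dg L (Nat.add y 1)) (fun l => frcB (dg w (Nat.add y 1)) (fun w0 =>
          qd l w0 (dg w y) (dg w (Nat.add y 2)) (dg w (Nat.add y 3))))))
  && frcB (cmpZ (Nat.sub n 2) (Nat.add (Nat.add (shf w 2) (Nat.mul 2 (shf w 3))) w)
      (Nat.mul 4 (shf L 2))) (fun Z => scan (Nat.sub n 2) Z (fun y =>
        frcB (dg L (Nat.add y 2)) (fun l => frcB (dg w (Nat.add y 2)) (fun w0 =>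
          qd l w0 (dg w (Nat.add y 3)) (dg w (Nat.add y 1)) (dg w y)))))

/-- digits of a sum of three packed numbers with multipliers -/
lemma dg_linF {m x y z : ℕ} {a b c : ℕ} (h : ∀ k < m, a * dg x k + b * dg y k + c * dg z k < 2 ^ 40)
    {k : ℕ} (hk : k < m) : dg (Nat.add (Nat.add (Nat.mul a x) (Nat.mul b y)) (Nat.mul c z)) k
      = a * dg x k + b * dg y k + c * dg z k := by
  have r := (((Rp.self m x).mul a).add ((Rp.self m y).mul b)).add ((Rp.self m z).mul c)
  have := r.dg (fun k hk => ⟨by positivity, by exact_mod_cast h k hk⟩) hk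
  exact_mod_cast this

lemma dg_twoF {m x : ℕ} {a : ℕ} (h : ∀ k < m, a * dg x k < 2 ^ 40) {k : ℕ} (hk : k < m) :
    dg (Nat.mul a x) k = a * dg x k := by
  have r := (Rp.self m x).mul a
  have := r.dg (fun k hk => ⟨by positivity, by exact_mod_cast h k hk⟩) hk
  exact_mod_cast this

lemma dg_addF {m x y : ℕ} (h : ∀ k < m, dg x k + dg y k < 2 ^ 40) {k : ℕ} (hk : k < m) :
    dg (Nat.add x y) k = dg x k + dg y k := by
  have r := (Rp.self m x).add (Rp.self m y)
  have := r.dg (fun k hk => ⟨by positivity, by exact_mod_cast h k hk⟩) hk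
  exact_mod_cast this

lemma grd_of {n : ℕ} {x : Bool} (h : 0 < n → x = true) : grd n x = true := by
  rcases n with _ | n
  · rfl
  · exact h (Nat.succ_pos n)

lemma ble_of {a b : ℕ} (h : a ≤ b) : Nat.ble a b = true := Nat.ble_eq_true_of_le h

/-- THE FAST RULE IMPLIES THE RULE -/
theorem chkFr_of_fast {n L w : ℕ} (hL : ∀ y, dg L y < 2 ^ 37) (h : chkFrF n L w = true) :
    chkFr n L w = true := by
  unfold chkFrF at h
  simp only [Bool.and_eq_true] at h
  obtain ⟨⟨⟨⟨h1, h2⟩, h3⟩, h4⟩, h5⟩ := h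
  rw [frcB_eq] at h4 h5
  have hw : ∀ y, dg w y < 2 ^ 37 := fun y => mask_dg (by norm_num) h1 y
  have e37 : (2:ℕ) ^ 37 = 137438953472 := by norm_num
  have e39 : (2:ℕ) ^ 39 = 549755813888 := by norm_num
  have e40 : (2:ℕ) ^ 40 = 1099511627776 := by norm_num
  have hw' : ∀ y, dg w y < 137438953472 := fun y => by rw [← e37]; exact hw y
  have hL' : ∀ y, dg L y < 137438953472 := fun y => by rw [← e37]; exact hL y
  -- all labels
  have A : ∀ y ≤ n, dg L y ≤ dg w y := fun y hy =>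
    leA_imp (fun c _ => by rw [e39]; have := hw' c; omega)
      (fun c _ => by rw [e39]; have := hL' c; omega) h2 (Nat.lt_succ_of_le hy)
  -- two neighbours
  have dB1 : ∀ k < n - 1, dg (Nat.add w (shf w 2)) k = dg w k + dg w (k + 2) := fun k hk => by
    rw [dg_addF (m := n - 1) (fun k _ => ?_) hk, dg_shf]
    rw [dg_shf, e40]
    have := hw' k
    have := hw' (k + 2)
    omega
  have dB2 : ∀ k < n - 1, dg (Nat.mul 2 (shf L 1)) k = 2 * dg L (k + 1) := fun k hk => by
    rw [dg_twoF (m := n - 1) (fun k _ => ?_) hk, dg_shf]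
    rw [dg_shf, e40]
    have := hL' (k + 1)
    omega
  have B : ∀ y, 0 < y → y < n → 2 * dg L y ≤ dg w (y - 1) + dg w (y + 1) := by
    intro y hy hn
    have k := leA_imp (m := n - 1) (x := Nat.add w (shf w 2)) (y := Nat.mul 2 (shf L 1))
      (fun c hc => by
        rw [dB1 c hc, e39]
        have := hw' c
        have := hw' (c + 2)
        omega)
      (fun c hc => by
        rw [dB2 c hc, e39]
        have := hL' (c + 1)
        omega) h3 (c := y - 1) (by omega)
    rw [dB1 _ (by omega), dB2 _ (by omega)] at k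
    rwa [show y - 1 + 1 = y by omega, show y - 1 + 2 = y + 1 by omega] at k
  -- quadratic conditions
  have q0 : ∀ {l w0 p q s : ℕ}, (4 * l ≤ w0 + 2 * p + s ∨ qd l w0 p q s = true) →
      (4 * l - (w0 + 2 * p + s)) ^ 2 ≤ 8 * (w0 - l) * (p + q - 2 * l) := by
    intro l w0 p q s hq
    rcases hq with hq | hq
    · rw [Nat.sub_eq_zero_of_le hq]
      simp
    · exact Nat.le_of_ble_eq_true hq
  have C1 : ∀ k < n - 2, dg (Nat.add (Nat.add (shf w 1) (Nat.mul 2 w)) (shf w 3)) k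
      = dg w (k + 1) + 2 * dg w k + dg w (k + 3) := fun k hk => by
    have e : Nat.add (Nat.add (shf w 1) (Nat.mul 2 w)) (shf w 3)
        = Nat.add (Nat.add (Nat.mul 1 (shf w 1)) (Nat.mul 2 w)) (Nat.mul 1 (shf w 3)) := by
      show shf w 1 + 2 * w + shf w 3 = 1 * shf w 1 + 2 * w + 1 * shf w 3
      rw [one_mul, one_mul]
    rw [e, dg_linF (m := n - 2) (fun k _ => ?_) hk, dg_shf, dg_shf]
    · ring
    · rw [dg_shf, dg_shf, e40]
      have := hw' k
      have := hw' (k + 1)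
      have := hw' (k + 3)
      omega
  have C2 : ∀ j, ∀ k < n - 2, dg (Nat.mul 4 (shf L j)) k = 4 * dg L (k + j) := fun j k hk => by
    rw [dg_twoF (m := n - 2) (fun k _ => ?_) hk, dg_shf]
    rw [dg_shf, e40]
    have := hL' (k + j)
    omega
  have D1 : ∀ k < n - 2, dg (Nat.add (Nat.add (shf w 2) (Nat.mul 2 (shf w 3))) w) k
      = dg w (k + 2) + 2 * dg w (k + 3) + dg w k := fun k hk => by
    have e : Nat.add (Nat.add (shf w 2) (Nat.mul 2 (shf w 3))) w
        = Nat.add (Nat.add (Nat.mul 1 (shf w 2)) (Nat.mul 2 (shf w 3))) (Nat.mul 1 w) := by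
      show shf w 2 + 2 * shf w 3 + w = 1 * shf w 2 + 2 * shf w 3 + 1 * w
      rw [one_mul, one_mul]
    rw [e, dg_linF (m := n - 2) (fun k _ => ?_) hk, dg_shf, dg_shf]
    · ring
    · rw [dg_shf, dg_shf, e40]
      have := hw' k
      have := hw' (k + 2)
      have := hw' (k + 3)
      omega
  have C : ∀ y, 0 < y → y + 1 < n → (4 * dg L y - (dg w y + 2 * dg w (y - 1) + dg w (y + 2))) ^ 2
      ≤ 8 * (dg w y - dg L y) * (dg w (y - 1) + dg w (y + 1) - 2 * dg L y) := by
    intro y hy hn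
    obtain ⟨k, rfl⟩ : ∃ k, y = k + 1 := ⟨y - 1, by omega⟩
    have hk : k < n - 2 := by omega
    rw [show k + 1 - 1 = k by omega]
    refine q0 ?_
    by_cases c : 4 * dg L (k + 1) ≤ dg w (k + 1) + 2 * dg w k + dg w (k + 1 + 2)
    · exact Or.inl c
    · right
      have b := cmpZ_bad (m := n - 2)
        (x := Nat.add (Nat.add (shf w 1) (Nat.mul 2 w)) (shf w 3)) (y := Nat.mul 4 (shf L 1))
        (fun c hc => by
          rw [C1 c hc, e39]
          have := hw' c
          have := hw' (c + 1)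
          have := hw' (c + 3)
          omega)
        (fun c hc => by
          rw [C2 1 c hc, e39]
          have := hL' (c + 1)
          omega) hk (by
          rw [C1 k hk, C2 1 k hk]
          rw [show k + 1 + 2 = k + 3 by omega] at c
          omega)
      have f := scan_imp h4 hk b
      rw [frcB_eq, frcB_eq] at f
      exact f
  have D : ∀ y, 1 < y → y < n → (4 * dg L y - (dg w y + 2 * dg w (y + 1) + dg w (y - 2))) ^ 2
      ≤ 8 * (dg w y - dg L y) * (dg w (y - 1) + dg w (y + 1) - 2 * dg L y) := by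
    intro y hy hn
    obtain ⟨k, rfl⟩ : ∃ k, y = k + 2 := ⟨y - 2, by omega⟩
    have hk : k < n - 2 := by omega
    rw [show k + 2 - 2 = k by omega, show k + 2 - 1 = k + 1 by omega,
      add_comm (dg w (k + 1)) (dg w (k + 2 + 1))]
    refine q0 ?_
    by_cases c : 4 * dg L (k + 2) ≤ dg w (k + 2) + 2 * dg w (k + 2 + 1) + dg w k
    · exact Or.inl c
    · right
      have b := cmpZ_bad (m := n - 2)
        (x := Nat.add (Nat.add (shf w 2) (Nat.mul 2 (shf w 3))) w) (y := Nat.mul 4 (shf L 2))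
        (fun c hc => by
          rw [D1 c hc, e39]
          have := hw' c
          have := hw' (c + 2)
          have := hw' (c + 3)
          omega)
        (fun c hc => by
          rw [C2 2 c hc, e39]
          have := hL' (c + 2)
          omega) hk (by
          rw [D1 k hk, C2 2 k hk]
          rw [show k + 2 + 1 = k + 3 by omega] at c
          omega)
      have f := scan_imp h5 hk b
      rw [frcB_eq, frcB_eq] at f
      exact f
  refine (allN_iff _ _).2 fun y hy => ?_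
  have hy' : y ≤ n := Nat.le_of_lt_succ hy
  simp only [Bool.and_eq_true]
  refine ⟨⟨⟨ble_of (A y hy'), grd_of fun c1 => grd_of fun c2 => ble_of ?_⟩,
    grd_of fun c1 => grd_of fun c2 => ble_of ?_⟩, grd_of fun c1 => grd_of fun c2 => ble_of ?_⟩
  · have : 0 < n - y := c2
    exact B y c1 (by omega)
  · have : 0 < n - 1 - y := c2
    exact C y c1 (by omega)
  · have c1' : 0 < y - 1 := c1
    have : 0 < n - y := c2
    exact D y (by omega) (by omega)

/-! ### Zone conditions -/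

/-- fast form of `chkZn` -/
def chkZnF (c : CutP) (q : Prc) (ex : ℕ) (e : Ect) (L : ℕ) : Bool :=
  mask 37 (Nat.succ c.n) (Nat.mod ex (bp (Nat.succ c.n)))
  && Nat.ble e.c0 137438953472 && Nat.ble e.c2 137438953472 && Nat.ble e.c4 137438953472
  && Nat.ble c.b c.n && Nat.ble c.a c.b
  && leA (Nat.succ c.a) L (Nat.add (Nat.add q.g ex) (Nat.mul e.c0 (rep (Nat.succ c.a))))
  && leA (Nat.sub c.b c.a) (shf L (Nat.succ c.a))
      (Nat.add (Nat.add (shf q.g (Nat.succ c.a)) (shf ex (Nat.succ c.a)))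
        (Nat.mul e.c2 (rep (Nat.sub c.b c.a))))
  && leA (Nat.sub c.n c.b) (shf L (Nat.succ c.b))
      (Nat.add (Nat.add (shf q.g (Nat.succ c.b)) (shf ex (Nat.succ c.b)))
        (Nat.mul e.c4 (rep (Nat.sub c.n c.b))))
  && Nat.ble (l2r (Nat.sub c.td c.tl) c.tl (a3 (dg q.g c.a) (dg ex c.a) e.c0)
        (a3 q.x0 (dg ex (Nat.succ c.a)) e.c0))
      (l2r (Nat.sub c.td c.tl) c.tl (dg L c.a) (dg L (Nat.succ c.a)))
  && Nat.ble (l2r (Nat.sub c.td c.tl) c.tl (a3 q.x1 (dg ex c.a) e.c1)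
        (a3 (dg q.g (Nat.succ c.a)) (dg ex (Nat.succ c.a)) e.c1))
      (l2r (Nat.sub c.td c.tl) c.tl (dg L c.a) (dg L (Nat.succ c.a)))
  && Nat.ble (l2r (Nat.sub c.td c.tl) c.tl (a3 q.x1 (dg ex c.a) e.c2)
        (a3 (dg q.g (Nat.succ c.a)) (dg ex (Nat.succ c.a)) e.c2))
      (l2r (Nat.sub c.td c.tl) c.tl (dg L c.a) (dg L (Nat.succ c.a)))
  && Nat.ble (l2r (Nat.sub c.td c.tr) c.tr (a3 (dg q.g c.b) (dg ex c.b) e.c2)
        (a3 q.x2 (dg ex (Nat.succ c.b)) e.c2))
      (l2r (Nat.sub c.td c.tr) c.tr (dg L c.b) (dg L (Nat.succ c.b)))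
  && Nat.ble (l2r (Nat.sub c.td c.tr) c.tr (a3 (dg q.g c.b) (dg ex c.b) e.c3)
        (a3 q.x2 (dg ex (Nat.succ c.b)) e.c3))
      (l2r (Nat.sub c.td c.tr) c.tr (dg L c.b) (dg L (Nat.succ c.b)))
  && Nat.ble (l2r (Nat.sub c.td c.tr) c.tr (a3 q.x3 (dg ex c.b) e.c4)
        (a3 (dg q.g (Nat.succ c.b)) (dg ex (Nat.succ c.b)) e.c4))
      (l2r (Nat.sub c.td c.tr) c.tr (dg L c.b) (dg L (Nat.succ c.b)))

/-- one packed zone condition -/
lemma leA_zone {m L g ex k : ℕ} (hL : ∀ c < m, dg L c < 2 ^ 37) (hg : ∀ c < m, dg g c < 2 ^ 36)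
    (hx : ∀ c < m, dg ex c < 2 ^ 37) (hk : k ≤ 137438953472)
    (h : leA m L (Nat.add (Nat.add g ex) (Nat.mul k (rep m))) = true) {c : ℕ} (hc : c < m) :
    dg g c + dg ex c + k ≤ dg L c := by
  have e36 : (2:ℕ) ^ 36 = 68719476736 := by norm_num
  have e37 : (2:ℕ) ^ 37 = 137438953472 := by norm_num
  have e39 : (2:ℕ) ^ 39 = 549755813888 := by norm_num
  have e40 : (2:ℕ) ^ 40 = 1099511627776 := by norm_num
  have D : ∀ c < m, dg (Nat.add (Nat.add g ex) (Nat.mul k (rep m))) c = dg g c + dg ex c + k := by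
    intro c hc
    have r := ((Rp.self m g).add (Rp.self m ex)).add ((Rp.rep m).mul k)
    have := r.dg (fun c hc => ⟨by positivity, ?_⟩) hc
    · have h2 : (dg (Nat.add (Nat.add g ex) (Nat.mul k (rep m))) c : ℤ)
          = ((dg g c + dg ex c + k : ℕ) : ℤ) := by
        rw [this]
        push_cast
        ring
      exact_mod_cast h2
    · have h1 := hg c hc
      have h2 := hx c hc
      rw [e36] at h1
      rw [e37] at h2
      have : ((dg g c + dg ex c + k : ℕ) : ℤ) < 2 ^ 40 := by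
        have : dg g c + dg ex c + k < 2 ^ 40 := by rw [e40]; omega
        exact_mod_cast this
      push_cast at this ⊢
      linarith
  have := leA_imp (fun c hc => by
      have := hL c hc
      rw [e37] at this
      rw [e39]
      omega)
    (fun c hc => by
      have h1 := hg c hc
      have h2 := hx c hc
      rw [e36] at h1
      rw [e37] at h2
      rw [D c hc, e39]
      omega) h hc
  rwa [D c hc] at this

theorem chkZn_of_fast {c : CutP} {q : Prc} {ex : ℕ} {e : Ect} {L : ℕ}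
    (hL : ∀ y, dg L y < 2 ^ 37) (hg : ∀ y, dg q.g y < 2 ^ 36)
    (h : chkZnF c q ex e L = true) : chkZn c q ex e L = true := by
  unfold chkZnF at h
  simp only [Bool.and_eq_true] at h
  obtain ⟨⟨⟨⟨⟨⟨⟨⟨⟨⟨⟨⟨⟨⟨m0, k0⟩, k2⟩, k4⟩, b1⟩, b2⟩, z0⟩, z2⟩, z4⟩, t1⟩, t2⟩, t3⟩, t4⟩, t5⟩, t6⟩ := h
  have b1' : c.b ≤ c.n := Nat.le_of_ble_eq_true b1
  have b2' : c.a ≤ c.b := Nat.le_of_ble_eq_true b2
  have hx : ∀ y ≤ c.n, dg ex y < 2 ^ 37 := fun y hy => by
    have := mask_dg (by norm_num) m0 y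
    rwa [dg_mod_bp (Nat.lt_succ_of_le hy)] at this
  unfold chkZn
  simp only [Bool.and_eq_true]
  refine ⟨⟨⟨⟨⟨⟨⟨⟨(allN_iff _ _).2 fun y hy => ble_of ?_, (allN_iff _ _).2 fun y hy => ble_of ?_⟩,
    (allN_iff _ _).2 fun y hy => ble_of ?_⟩, t1⟩, t2⟩, t3⟩, t4⟩, t5⟩, t6⟩
  · have hy' : y ≤ c.a := Nat.le_of_lt_succ hy
    have := leA_zone (m := Nat.succ c.a) (fun c _ => hL c) (fun c _ => hg c)
      (fun y hy => hx y (by
        have := Nat.le_of_lt_succ hy
        omega)) (Nat.le_of_ble_eq_true k0) z0 hy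
    show dg q.g y + (dg ex y + e.c0) ≤ dg L y
    omega
  · have hy' : y < c.b - c.a := hy
    have := leA_zone (m := Nat.sub c.b c.a) (L := shf L (Nat.succ c.a))
      (g := shf q.g (Nat.succ c.a)) (ex := shf ex (Nat.succ c.a))
      (fun c _ => by rw [dg_shf]; exact hL _) (fun c _ => by rw [dg_shf]; exact hg _)
      (fun y hy => by
        rw [dg_shf]
        have : y < c.b - c.a := hy
        exact hx _ (by
          show y + (c.a + 1) ≤ c.n
          omega)) (Nat.le_of_ble_eq_true k2) z2 hy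
    rw [dg_shf, dg_shf, dg_shf] at this
    show dg q.g (c.a + 1 + y) + (dg ex (c.a + 1 + y) + e.c2) ≤ dg L (c.a + 1 + y)
    rw [show c.a + 1 + y = y + (c.a + 1) by omega]
    change dg q.g (y + (c.a + 1)) + dg ex (y + (c.a + 1)) + e.c2 ≤ dg L (y + (c.a + 1)) at this
    omega
  · have hy' : y < c.n - c.b := hy
    have := leA_zone (m := Nat.sub c.n c.b) (L := shf L (Nat.succ c.b))
      (g := shf q.g (Nat.succ c.b)) (ex := shf ex (Nat.succ c.b))
      (fun c _ => by rw [dg_shf]; exact hL _) (fun c _ => by rw [dg_shf]; exact hg _)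
      (fun y hy => by
        rw [dg_shf]
        have : y < c.n - c.b := hy
        exact hx _ (by
          show y + (c.b + 1) ≤ c.n
          omega)) (Nat.le_of_ble_eq_true k4) z4 hy
    rw [dg_shf, dg_shf, dg_shf] at this
    show dg q.g (c.b + 1 + y) + (dg ex (c.b + 1 + y) + e.c4) ≤ dg L (c.b + 1 + y)
    rw [show c.b + 1 + y = y + (c.b + 1) by omega]
    change dg q.g (y + (c.b + 1)) + dg ex (y + (c.b + 1)) + e.c4 ≤ dg L (y + (c.b + 1)) at this
    omega

/-! ### The nodes -/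

/-- fast form of `chkEnd` -/
def chkEndF (c : CutP) (q : Prc) (ex : ℕ) (e : Ect) (w : ℕ) : Bool :=
  frcB ex (fun ex => frcB (ltab c q ex e) (fun L =>
    mask 37 (Nat.succ (Nat.mul 3 c.n)) L && chkZnF c q ex e L && chkFrF c.n L w))

/-- two end data are equal -/
def ecEq (e f : Ect) : Bool :=
  Nat.beq e.c0 f.c0 && Nat.beq e.c1 f.c1 && Nat.beq e.c2 f.c2 && Nat.beq e.c3 f.c3
    && Nat.beq e.c4 f.c4 && Nat.beq e.la f.la && Nat.beq e.la1 f.la1 && Nat.beq e.lb f.lb
    && Nat.beq e.lb1 f.lb1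

lemma ecEq_imp {e f : Ect} (h : ecEq e f = true) : e = f := by
  unfold ecEq at h
  simp only [Bool.and_eq_true] at h
  obtain ⟨⟨⟨⟨⟨⟨⟨⟨h0, h1⟩, h2⟩, h3⟩, h4⟩, h5⟩, h6⟩, h7⟩, h8⟩ := h
  cases e
  cases f
  simp only [Ect.mk.injEq]
  exact ⟨Nat.eq_of_beq_eq_true h0, Nat.eq_of_beq_eq_true h1, Nat.eq_of_beq_eq_true h2,
    Nat.eq_of_beq_eq_true h3, Nat.eq_of_beq_eq_true h4, Nat.eq_of_beq_eq_true h5,
    Nat.eq_of_beq_eq_true h6, Nat.eq_of_beq_eq_true h7, Nat.eq_of_beq_eq_true h8⟩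

/-- the end table `k` is the end table `0` -/
def same0 (d : DatR) (r : RCd) (exf : ℕ → ℕ → ℕ) (z k : ℕ) : Bool :=
  Nat.beq (nth ⟨0, []⟩ (sgR d.segs z).cb k).w (nth ⟨0, []⟩ (sgR d.segs z).cb 0).w
    && ecEq (nth ecD (nth16 [] r.ec z) k) (nth ecD (nth16 [] r.ec z) 0)
    && Nat.beq (exf z k) (exf z 0)

/-- fast form of `chkNd` -/
def chkNdF (d : DatR) (r : RCd) (exf : ℕ → ℕ → ℕ) (z : ℕ) : Bool :=
  onP (nth16 prD r.pr z) (fun q =>
    chkSz r.c q && chkHd r.c q r.yl r.mid r.yr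
    && frcB (wR d z r.km) (fun w => chkMd d.P r.num r.den q.h w)
    && frcB (wR d z 0) (fun w => onE (nth ecD (nth16 [] r.ec z) 0) (fun e =>
        chkEndF r.c q (exf z 0) e w))
    && allN r.nk (fun k => orL (same0 d r exf z k)
        (onE (nth ecD (nth16 [] r.ec z) k) (fun e =>
          frcB (wR d z k) (fun w => chkEndF r.c q (exf z k) e w)))))

/-- the nodes `lo, .., hi - 1`, fast -/
def chkNdsF (d : DatR) (r : RCd) (exf : ℕ → ℕ → ℕ) (lo hi : ℕ) : Bool :=
  allN (Nat.sub hi lo) (fun z' => frcB (Nat.add lo z') (fun z => chkNdF d r exf z))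

lemma chkEnd_of_fast {c : CutP} {q : Prc} {ex : ℕ} {e : Ect} {w : ℕ}
    (hg : ∀ y, dg q.g y < 2 ^ 36) (h : chkEndF c q ex e w = true) : chkEnd c q ex e w = true := by
  unfold chkEndF at h
  unfold chkEnd
  rw [frcB_eq, frcB_eq] at h ⊢
  simp only [Bool.and_eq_true] at h ⊢
  obtain ⟨⟨h1, h2⟩, h3⟩ := h
  have hL : ∀ y, dg (ltab c q ex e) y < 2 ^ 37 := fun y => mask_dg (by norm_num) h1 y
  exact ⟨⟨h1, chkZn_of_fast hL hg h2⟩, chkFr_of_fast hL h3⟩

/-- THE FAST CHECK GIVES THE CONDITIONS OF THE NODES -/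
theorem ndsOK_of_checkF {d : DatR} {r : RCd} {exf : ℕ → ℕ → ℕ} {lo hi : ℕ}
    (h : chkNdsF d r exf lo hi = true) : NdsOK d r exf lo hi := by
  intro z hz hz'
  have h1 := (allN_iff _ _).1 h (z - lo) (show z - lo < hi - lo by omega)
  rw [frcB_eq] at h1
  have e : Nat.add lo (z - lo) = z := by
    show lo + (z - lo) = z
    omega
  rw [e] at h1
  unfold chkNdF at h1
  rw [onP_eq] at h1
  simp only [Bool.and_eq_true] at h1
  obtain ⟨⟨⟨⟨s1, s2⟩, s3⟩, s4⟩, s5⟩ := h1
  rw [frcB_eq] at s3 s4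
  rw [onE_eq] at s4
  have hg := (chkSz_imp s1).1
  have e0 := chkEnd_of_fast hg s4
  refine ⟨s1, s2, s3, fun k hk => ?_⟩
  rcases orL_imp ((allN_iff _ _).1 s5 k hk) with c | c
  · unfold same0 at c
    simp only [Bool.and_eq_true] at c
    obtain ⟨⟨c1, c2⟩, c3⟩ := c
    have a1 : (nth ⟨0, []⟩ (sgR d.segs z).cb k).w = (nth ⟨0, []⟩ (sgR d.segs z).cb 0).w :=
      Nat.eq_of_beq_eq_true c1
    have a2 := ecEq_imp c2
    have a3 : exf z k = exf z 0 := Nat.eq_of_beq_eq_true c3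
    have a4 : wR d z k = wR d z 0 := by
      unfold wR
      rw [a1]
    rw [a2, a3, a4]
    exact e0
  · rw [onE_eq, frcB_eq] at c
    exact chkEnd_of_fast hg c

end

end MP61673a.KCF
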