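import Pool.Agent.Mu673.RowTabO1416
import Pool.Agent.Mu673.RowLinkF

/-!
Kernel checks of the tables of the nodes (row cell O1416).
-/

set_option autoImplicit false
set_option maxRecDepth 100000

namespace MP61673a.KC.RowO1416

open MP61673a.FE MP61673a.KC MP61673a.RowO

theorem nd_0 : NdsOK dat rcd A.exf 0 2 :=
  KCF.ndsOK_of_checkF (by decide +kernel)

theorem nd_2 : NdsOK dat rcd A.exf 2 4 :=
  KCF.ndsOK_of_checkF (by decide +kernel)

theorem nd_4 : NdsOK dat rcd A.exf 4 6 :=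
  KCF.ndsOK_of_checkF (by decide +kernel)

theorem nd_6 : NdsOK dat rcd A.exf 6 8 :=
  KCF.ndsOK_of_checkF (by decide +kernel)

theorem nd_8 : NdsOK dat rcd A.exf 8 10 :=
  KCF.ndsOK_of_checkF (by decide +kernel)

theorem nd_10 : NdsOK dat rcd A.exf 10 12 :=
  KCF.ndsOK_of_checkF (by decide +kernel)

theorem nd_12 : NdsOK dat rcd A.exf 12 14 :=
  KCF.ndsOK_of_checkF (by decide +kernel)

theorem nd_14 : NdsOK dat rcd A.exf 14 16 :=
  KCF.ndsOK_of_checkF (by decide +kernel)

theorem nd_16 : NdsOK dat rcd A.exf 16 18 :=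
  KCF.ndsOK_of_checkF (by decide +kernel)

theorem nd_18 : NdsOK dat rcd A.exf 18 20 :=
  KCF.ndsOK_of_checkF (by decide +kernel)

theorem nd_20 : NdsOK dat rcd A.exf 20 22 :=
  KCF.ndsOK_of_checkF (by decide +kernel)

theorem nd_22 : NdsOK dat rcd A.exf 22 24 :=
  KCF.ndsOK_of_checkF (by decide +kernel)

theorem nd_24 : NdsOK dat rcd A.exf 24 26 :=
  KCF.ndsOK_of_checkF (by decide +kernel)

theorem nd_26 : NdsOK dat rcd A.exf 26 28 :=
  KCF.ndsOK_of_checkF (by decide +kernel)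

theorem nd_28 : NdsOK dat rcd A.exf 28 30 :=
  KCF.ndsOK_of_checkF (by decide +kernel)

theorem nd_30 : NdsOK dat rcd A.exf 30 32 :=
  KCF.ndsOK_of_checkF (by decide +kernel)

theorem nd_32 : NdsOK dat rcd A.exf 32 34 :=
  KCF.ndsOK_of_checkF (by decide +kernel)

theorem nd_34 : NdsOK dat rcd A.exf 34 36 :=
  KCF.ndsOK_of_checkF (by decide +kernel)

theorem nd_36 : NdsOK dat rcd A.exf 36 38 :=
  KCF.ndsOK_of_checkF (by decide +kernel)

theorem nd_38 : NdsOK dat rcd A.exf 38 40 :=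
  KCF.ndsOK_of_checkF (by decide +kernel)

theorem nd_40 : NdsOK dat rcd A.exf 40 42 :=
  KCF.ndsOK_of_checkF (by decide +kernel)

theorem nd_42 : NdsOK dat rcd A.exf 42 44 :=
  KCF.ndsOK_of_checkF (by decide +kernel)

theorem nd_44 : NdsOK dat rcd A.exf 44 46 :=
  KCF.ndsOK_of_checkF (by decide +kernel)

theorem nd_46 : NdsOK dat rcd A.exf 46 48 :=
  KCF.ndsOK_of_checkF (by decide +kernel)

theorem nd_48 : NdsOK dat rcd A.exf 48 50 :=
  KCF.ndsOK_of_checkF (by decide +kernel)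

theorem nd_50 : NdsOK dat rcd A.exf 50 52 :=
  KCF.ndsOK_of_checkF (by decide +kernel)

theorem nd_52 : NdsOK dat rcd A.exf 52 54 :=
  KCF.ndsOK_of_checkF (by decide +kernel)

theorem nd_54 : NdsOK dat rcd A.exf 54 56 :=
  KCF.ndsOK_of_checkF (by decide +kernel)

theorem nd_56 : NdsOK dat rcd A.exf 56 58 :=
  KCF.ndsOK_of_checkF (by decide +kernel)

theorem nd_58 : NdsOK dat rcd A.exf 58 60 :=
  KCF.ndsOK_of_checkF (by decide +kernel)

theorem nd_60 : NdsOK dat rcd A.exf 60 62 :=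
  KCF.ndsOK_of_checkF (by decide +kernel)

theorem nd0 : NdsOK dat rcd A.exf 0 62 :=
  ((((((((((((((((((((((((((((((nd_0.join nd_2).join nd_4).join nd_6).join nd_8).join nd_10).join nd_12).join nd_14).join
    nd_16).join nd_18).join nd_20).join nd_22).join nd_24).join nd_26).join nd_28).join nd_30).join
    nd_32).join nd_34).join nd_36).join nd_38).join nd_40).join nd_42).join nd_44).join nd_46).join
    nd_48).join nd_50).join nd_52).join nd_54).join nd_56).join nd_58).join nd_60)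

end MP61673a.KC.RowO1416
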