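import Pool.Agent.Mu673.RowTabO1620
import Pool.Agent.Mu673.RowOut2

/-!
Kernel checks of the global conditions (row cell O1620).
-/

set_option autoImplicit false
set_option maxRecDepth 100000

namespace MP61673a.KC.RowO1620

open MP61673a.FE MP61673a.KC MP61673a.RowO

theorem hG : A.chkG = true := by decide +kernel

theorem hZ : A.chkKz = true := by decide +kernel

theorem hK : A.netChk ks = true := by decide +kernel

theorem h1 : A.chkOne = true := by decide +kernel

theorem hF : A.factChk = true := by decide +kernel

theorem hP : A.chkCell = true := by decide +kernel

end MP61673a.KC.RowO1620
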