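import Pool.Agent.Mu673.RowTabO2028
import Pool.Agent.Mu673.RowLinkF

/-!
Kernel checks of the tables of the nodes (row cell O2028).
-/

set_option autoImplicit false
set_option maxRecDepth 100000

namespace MP61673a.KC.RowO2028

open MP61673a.FE MP61673a.KC MP61673a.RowO

theorem nd_64 : NdsOK dat rcd A.exf 64 66 :=
  KCF.ndsOK_of_checkF (by decide +kernel)

theorem nd_66 : NdsOK dat rcd A.exf 66 68 :=
  KCF.ndsOK_of_checkF (by decide +kernel)

theorem nd_68 : NdsOK dat rcd A.exf 68 70 :=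
  KCF.ndsOK_of_checkF (by decide +kernel)

theorem nd_70 : NdsOK dat rcd A.exf 70 72 :=
  KCF.ndsOK_of_checkF (by decide +kernel)

theorem nd_72 : NdsOK dat rcd A.exf 72 74 :=
  KCF.ndsOK_of_checkF (by decide +kernel)

theorem nd_74 : NdsOK dat rcd A.exf 74 76 :=
  KCF.ndsOK_of_checkF (by decide +kernel)

theorem nd_76 : NdsOK dat rcd A.exf 76 78 :=
  KCF.ndsOK_of_checkF (by decide +kernel)

theorem nd_78 : NdsOK dat rcd A.exf 78 80 :=
  KCF.ndsOK_of_checkF (by decide +kernel)

theorem nd_80 : NdsOK dat rcd A.exf 80 82 :=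
  KCF.ndsOK_of_checkF (by decide +kernel)

theorem nd_82 : NdsOK dat rcd A.exf 82 84 :=
  KCF.ndsOK_of_checkF (by decide +kernel)

theorem nd_84 : NdsOK dat rcd A.exf 84 86 :=
  KCF.ndsOK_of_checkF (by decide +kernel)

theorem nd_86 : NdsOK dat rcd A.exf 86 88 :=
  KCF.ndsOK_of_checkF (by decide +kernel)

theorem nd_88 : NdsOK dat rcd A.exf 88 90 :=
  KCF.ndsOK_of_checkF (by decide +kernel)

theorem nd_90 : NdsOK dat rcd A.exf 90 92 :=
  KCF.ndsOK_of_checkF (by decide +kernel)

theorem nd_92 : NdsOK dat rcd A.exf 92 94 :=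
  KCF.ndsOK_of_checkF (by decide +kernel)

theorem nd_94 : NdsOK dat rcd A.exf 94 96 :=
  KCF.ndsOK_of_checkF (by decide +kernel)

theorem nd_96 : NdsOK dat rcd A.exf 96 98 :=
  KCF.ndsOK_of_checkF (by decide +kernel)

theorem nd_98 : NdsOK dat rcd A.exf 98 100 :=
  KCF.ndsOK_of_checkF (by decide +kernel)

theorem nd_100 : NdsOK dat rcd A.exf 100 102 :=
  KCF.ndsOK_of_checkF (by decide +kernel)

theorem nd_102 : NdsOK dat rcd A.exf 102 104 :=
  KCF.ndsOK_of_checkF (by decide +kernel)

theorem nd_104 : NdsOK dat rcd A.exf 104 106 :=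
  KCF.ndsOK_of_checkF (by decide +kernel)

theorem nd_106 : NdsOK dat rcd A.exf 106 108 :=
  KCF.ndsOK_of_checkF (by decide +kernel)

theorem nd_108 : NdsOK dat rcd A.exf 108 110 :=
  KCF.ndsOK_of_checkF (by decide +kernel)

theorem nd_110 : NdsOK dat rcd A.exf 110 112 :=
  KCF.ndsOK_of_checkF (by decide +kernel)

theorem nd_112 : NdsOK dat rcd A.exf 112 114 :=
  KCF.ndsOK_of_checkF (by decide +kernel)

theorem nd_114 : NdsOK dat rcd A.exf 114 116 :=
  KCF.ndsOK_of_checkF (by decide +kernel)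

theorem nd_116 : NdsOK dat rcd A.exf 116 118 :=
  KCF.ndsOK_of_checkF (by decide +kernel)

theorem nd_118 : NdsOK dat rcd A.exf 118 120 :=
  KCF.ndsOK_of_checkF (by decide +kernel)

theorem nd_120 : NdsOK dat rcd A.exf 120 122 :=
  KCF.ndsOK_of_checkF (by decide +kernel)

theorem nd_122 : NdsOK dat rcd A.exf 122 124 :=
  KCF.ndsOK_of_checkF (by decide +kernel)

theorem nd_124 : NdsOK dat rcd A.exf 124 126 :=
  KCF.ndsOK_of_checkF (by decide +kernel)

theorem nd_126 : NdsOK dat rcd A.exf 126 128 :=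
  KCF.ndsOK_of_checkF (by decide +kernel)

theorem nd1 : NdsOK dat rcd A.exf 64 128 :=
  (((((((((((((((((((((((((((((((nd_64.join nd_66).join nd_68).join nd_70).join nd_72).join nd_74).join nd_76).join nd_78).join
    nd_80).join nd_82).join nd_84).join nd_86).join nd_88).join nd_90).join nd_92).join nd_94).join
    nd_96).join nd_98).join nd_100).join nd_102).join nd_104).join nd_106).join nd_108).join nd_110).join
    nd_112).join nd_114).join nd_116).join nd_118).join nd_120).join nd_122).join nd_124).join nd_126)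

end MP61673a.KC.RowO2028
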