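import Pool.Agent.Mu673.RowChkO56_r
import Pool.Agent.Mu673.RowChkO56_g
import Pool.Agent.Mu673.RowChkO56_n0
import Pool.Agent.Mu673.RowChkO56_n1

/-!
All checks (row cell O56).
-/

set_option autoImplicit false
set_option maxRecDepth 100000

namespace MP61673a.KC.RowO56

open MP61673a.FE MP61673a.KC MP61673a.RowO

theorem hv : vR dat.segs = 128 := by decide +kernel

theorem all : RowOK A.d 0 (vR A.d.segs) :=
  RowOK.of_G ok chk ((le_of_eq hv).trans (by norm_num))

theorem nds : NdsOK A.d A.r A.exf 0 (vR A.d.segs) := by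
  show NdsOK dat rcd A.exf 0 (vR dat.segs)
  rw [hv]
  exact (nd0.join nd1)

/-- THE ROW CELL 5/40 < t/D <= 6/40 -/
theorem cell (N : Int) (_hN : 122 ≤ N) : Fin.CellEx N 40 5 6 :=
  RowO.RD.cell_out (A := A) (ks := ks)
    { g := hG, kz := hZ, one := h1, net := hK, fct := hF, pos := hP } nds ok all rfl rfl rfl N

end MP61673a.KC.RowO56
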