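import Pool.Agent.Mu673.HRow
import Pool.Agent.Mu673.RowChkI0810
import Pool.Agent.Mu673.RowChkI1014
import Pool.Agent.Mu673.RowChkI1419
import Pool.Agent.Mu673.RowChkI1924
import Pool.Agent.Mu673.RowChkI2429
import Pool.Agent.Mu673.RowChkI2931
import Pool.Agent.Mu673.RowChkI3133
import Pool.Agent.Mu673.RowChkI3234
import Pool.Agent.Mu673.RowChkI3436
import Pool.Agent.Mu673.RowChkI3638
import Pool.Agent.Mu673.RowChkI3840
import Pool.Agent.Mu673.RowChkO56
import Pool.Agent.Mu673.RowChkO68
import Pool.Agent.Mu673.RowChkO810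
import Pool.Agent.Mu673.RowChkO1012
import Pool.Agent.Mu673.RowChkO1214
import Pool.Agent.Mu673.RowChkO1416
import Pool.Agent.Mu673.RowChkO1620
import Pool.Agent.Mu673.RowChkO2028
import Pool.Agent.Mu673.RowChkO2840

/-!
The theorem: every maximal `3`-term-progression-free subset `A` of `{1, …, n}` has `n ≤ |A|²`.

The row cells below cover all depths `t / D` beyond `1/40`; each is a checked certificate.
-/
set_option autoImplicit false

namespace MP61673a.Fin

/-- the row cells: `(m, a, b)` stands for all rows with `a / m < t / D ≤ b / m` -/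
def cells : List (ℤ × ℤ × ℤ) :=
  [(320, 8, 10),
   (320, 10, 14),
   (320, 14, 19),
   (320, 19, 24),
   (320, 24, 29),
   (320, 29, 31),
   (320, 31, 33),
   (320, 32, 34),
   (160, 17, 18),
   (160, 18, 19),
   (320, 38, 40),
   (40, 5, 6),
   (40, 6, 8),
   (40, 8, 10),
   (40, 10, 12),
   (40, 12, 14),
   (40, 14, 16),
   (40, 16, 20),
   (40, 20, 28),
   (1000, 700, 1001)]

theorem cells_ok (N : ℤ) (hN : 122 ≤ N) : ∀ c ∈ cells, CellEx N c.1 c.2.1 c.2.2 := by
  intro c hc
  simp only [cells, List.mem_cons, List.not_mem_nil, or_false] at hc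
  rcases hc with rfl | rfl | rfl | rfl | rfl | rfl | rfl | rfl | rfl | rfl | rfl | rfl | rfl | rfl | rfl | rfl | rfl | rfl | rfl | rfl
  · exact KC.RowI0810.cell N hN
  · exact KC.RowI1014.cell N hN
  · exact KC.RowI1419.cell N hN
  · exact KC.RowI1924.cell N hN
  · exact KC.RowI2429.cell N hN
  · exact KC.RowI2931.cell N hN
  · exact KC.RowI3133.cell N hN
  · exact KC.RowI3234.cell N hN
  · exact KC.RowI3436.cell N hN
  · exact KC.RowI3638.cell N hN
  · exact KC.RowI3840.cell N hN
  · exact KC.RowO56.cell N hN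
  · exact KC.RowO68.cell N hN
  · exact KC.RowO810.cell N hN
  · exact KC.RowO1012.cell N hN
  · exact KC.RowO1214.cell N hN
  · exact KC.RowO1416.cell N hN
  · exact KC.RowO1620.cell N hN
  · exact KC.RowO2028.cell N hN
  · exact KC.RowO2840.cell N hN

theorem cells_cover : cellCov 1 40 cells = true := by decide

/-- EVERY MAXIMAL `3`-TERM-PROGRESSION-FREE SET `A ⊆ {1, …, n}` HAS `n ≤ |A|²` -/
theorem sqrt_law (n : ℕ) (A : Finset ℕ) (h : Lift.IsMaximalThreeFree n A) : n ≤ A.card ^ 2 :=
  main_list cells cells_cover cells_ok n A h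

/-- the same theorem under a second name -/
theorem main (n : ℕ) (A : Finset ℕ) (h : Lift.IsMaximalThreeFree n A) : n ≤ A.card ^ 2 :=
  sqrt_law n A h

end MP61673a.Fin
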