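import Pool.Agent.Mu673.GLink

/-!
EXTRA COSTS OF THE END POINT TABLES FROM THREE-BODY FAMILIES: packed tables moved with the sampler
node, multipliers per class of the sampler, flags per end table; the real form is the one of
`fam_costP` / `fam_gainP` (FE6).
-/

set_option autoImplicit false

namespace MP61673a.KC

open Finset MP61673a.Kink MP61673a.FE

noncomputable section

/-- a family: packed table `x` (digits below `2^bx`, `0, .., 3 P + q P`), reflection `rf`, direction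
`ng`, multiplier `q` of the sampler node, threshold `cN / cd` in digits (of the reflected table for
`rf = 1`), level `kp`, kind `kd` (`0` cost, `1` gain), level `O` of the zero of a gain, multiplier
`mu` per class, flag `fk` per end table -/
structure Gf where
  /-- table -/
  x : ℕ
  /-- size of the digits -/
  bx : ℕ
  /-- reflection -/
  rf : ℕ
  /-- direction -/
  ng : ℕ
  /-- multiplier of the sampler node -/
  q : ℕ
  /-- threshold, numerator -/
  cN : ℕ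
  /-- threshold, denominator -/
  cd : ℕ
  /-- level -/
  kp : ℕ
  /-- kind -/
  kd : ℕ
  /-- level of the zero of a gain -/
  O : ℕ
  /-- multiplier per class of the sampler -/
  mu : List ℕ
  /-- flag per end table -/
  fk : List ℕ

/-- the movement of the family -/
def gfG (f : Gf) : G3 := ⟨0, f.ng, f.q⟩

/-- multiplier of the class `c` and the end table `k` -/
def gfM (f : Gf) (c k : ℕ) : ℕ := Nat.mul (nth 0 f.mu c) (nth 0 f.fk k)

/-- packed extra costs of the sampler node `z`, end table `k` -/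
def exG (d : DatR) (fs : List Gf) (z k : ℕ) : ℕ :=
  sumL (fun f => Nat.mul (gfM f (ixR d.segs z) k) (shf f.x (g3s d.P (psR d.segs z) (gfG f)))) fs

/-- constant of the gains -/
def exO (fs : List Gf) (c k : ℕ) : ℕ :=
  sumL (fun f => Nat.mul (gfM f c k) (Nat.rec (motive := fun _ => ℕ) 0 (fun _ _ => f.O) f.kd)) fs

/-- expose the fields -/
def onF (f : Gf) (p : Gf → Bool) : Bool :=
  Gf.rec (motive := fun _ => Bool) (fun x bx rf ng q cN cd kp kd O mu fk =>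
    p ⟨x, bx, rf, ng, q, cN, cd, kp, kd, O, mu, fk⟩) f

/-- the check of one family -/
def chkFa (P : ℕ) (f : Gf) : Bool :=
  Nat.ble f.bx 30 && mask f.bx (Nat.succ (lenG P (gfG f))) f.x && Nat.ble f.rf 1 && Nat.ble f.ng 1
    && allL f.mu (fun m => Nat.ble (Nat.succ m) (Nat.pow 2 (Nat.sub 30 f.bx)))
    && allL f.fk (fun m => Nat.ble m 1)
    && Nat.ble f.O 1073741824
    && Nat.rec (motive := fun _ => Bool)
      (xrF (dF f.x f.rf (lenG P (gfG f))) f.q f.cN f.cd f.kp)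
      (fun _ _ => xgF (dF f.x f.rf (lenG P (gfG f))) (lenG P (gfG f)) f.q f.cN f.cd f.kp f.O) f.kd

/-- the check of all families -/
def chkFs (P : ℕ) (fs : List Gf) : Bool :=
  Nat.ble (sumL (fun _ => 1) fs) 32 && allL fs (fun f => onF f (fun f => chkFa P f))

/-! ### Real form -/

/-- sign of the label -/
def sF (f : Gf) : ℤ := if f.rf = 0 then 1 else -1

/-- multiplier of the sampler node with sign -/
def pF (f : Gf) : ℤ := sF f * g3p (gfG f)

/-- the threshold -/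
def cF (P : ℕ) (S : ℤ) (f : Gf) : ℝ :=
  (f.cN:ℝ) / f.cd - (if f.rf = 0 then offG P S (gfG f) else lenG P (gfG f) - offG P S (gfG f) : ℤ)

/-- the function of the family -/
def phF (P : ℕ) (S : ℤ) (f : Gf) (t : ℤ) : ℝ :=
  if f.kd = 0 then (fT P S (gfG f) f.x (sF f * t) : ℝ) / f.kp
  else ((f.O:ℝ) - (fT P S (gfG f) f.x (sF f * t) : ℝ)) / f.kp

/-- weight of the class -/
def vF (s : ℝ) (f : Gf) (c : ℕ) : ℝ := s * ((nth 0 f.mu c : ℕ) * f.kp)

/-- flag of the pair of classes -/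
def flF (d : DatR) (f : Gf) (a b : ℕ) : ℝ := (nth 0 f.fk (plE d.segs a b).k1 : ℕ)

/-- the label function of one family -/
def lam1 (d : DatR) (s0 : ℤ) (s : ℝ) (f : Gf) (ζ : ℕ × ℤ) (a b : ℕ) (m : ℤ) : ℝ :=
  if f.kd = 0 then vF s f ζ.1 * (flF d f a b * phF d.P s0 f (sF f * m + pF f * ζ.2))
  else -(vF s f ζ.1 * (flF d f a b * phF d.P s0 f (sF f * m + pF f * ζ.2)))

/-- the label function of all families -/
def lamG (d : DatR) (s0 : ℤ) (s : ℝ) (fs : List Gf) (ζ : ℕ × ℤ) (a b : ℕ) (m : ℤ) : ℝ :=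
  (fs.map fun f => lam1 d s0 s f ζ a b m).sum

end

/-! ### Soundness -/

lemma onF_eq (f : Gf) (p : Gf → Bool) : onF f p = p f := by
  cases f
  rfl

/-- the conditions of one family -/
structure FamOK (P : ℕ) (f : Gf) : Prop where
  bx : f.bx ≤ 30
  x : ∀ y, dg f.x y < 2 ^ f.bx
  rf : f.rf = 0 ∨ f.rf = 1
  ng : f.ng = 0 ∨ f.ng = 1
  mu : ∀ c, nth 0 f.mu c < 2 ^ (30 - f.bx)
  fk : ∀ k, nth 0 f.fk k ≤ 1
  O : f.O ≤ 2 ^ 30
  kp : 1 ≤ f.kp
  cost : f.kd = 0 → xrF (dF f.x f.rf (lenG P (gfG f))) f.q f.cN f.cd f.kp = true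
  gain : f.kd ≠ 0 →
    xgF (dF f.x f.rf (lenG P (gfG f))) (lenG P (gfG f)) f.q f.cN f.cd f.kp f.O = true

lemma xrF_kp {f : ℕ → ℕ} {q cN cd kp : ℕ} (h : xrF f q cN cd kp = true) : 1 ≤ kp := by
  unfold xrF at h
  simp only [Bool.and_eq_true] at h
  exact Nat.le_of_ble_eq_true h.1.1.1.2

lemma xgF_kp {f : ℕ → ℕ} {L q cN cd kp O : ℕ} (h : xgF f L q cN cd kp O = true) : 1 ≤ kp := by
  unfold xgF at h
  simp only [Bool.and_eq_true] at h
  exact Nat.le_of_ble_eq_true h.1.1.1.1.2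

lemma chkFa_imp {P : ℕ} {f : Gf} (h : chkFa P f = true) : FamOK P f := by
  unfold chkFa at h
  simp only [Bool.and_eq_true] at h
  obtain ⟨⟨⟨⟨⟨⟨⟨h1, h2⟩, h3⟩, h4⟩, h5⟩, h6⟩, h7⟩, h8⟩ := h
  have b1 := Nat.le_of_ble_eq_true h1
  have b3 := Nat.le_of_ble_eq_true h3
  have b4 := Nat.le_of_ble_eq_true h4
  have b7 := Nat.le_of_ble_eq_true h7
  have c0 : f.kd = 0 → xrF (dF f.x f.rf (lenG P (gfG f))) f.q f.cN f.cd f.kp = true := by
    intro hk
    rw [hk] at h8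
    exact h8
  have c1 : f.kd ≠ 0 →
      xgF (dF f.x f.rf (lenG P (gfG f))) (lenG P (gfG f)) f.q f.cN f.cd f.kp f.O = true := by
    intro hk
    obtain ⟨k, hk'⟩ : ∃ k, f.kd = k + 1 := ⟨f.kd - 1, by omega⟩
    rw [hk'] at h8
    exact h8
  refine ⟨b1, mask_dg (by omega) h2, by omega, by omega, fun c => ?_, fun k => ?_, by omega, ?_,
    c0, c1⟩
  · rcases nth_mem 0 f.mu c with h | h
    · have := (allL_iff _ _).1 h5 _ h
      exact Nat.lt_of_succ_le (Nat.le_of_ble_eq_true this)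
    · rw [h]
      positivity
  · rcases nth_mem 0 f.fk k with h | h
    · exact Nat.le_of_ble_eq_true ((allL_iff _ _).1 h6 _ h)
    · rw [h]
      omega
  · by_cases hk : f.kd = 0
    · exact xrF_kp (c0 hk)
    · exact xgF_kp (c1 hk)

lemma chkFs_imp {P : ℕ} {fs : List Gf} (h : chkFs P fs = true) :
    fs.length ≤ 32 ∧ ∀ f ∈ fs, FamOK P f := by
  unfold chkFs at h
  rw [Bool.and_eq_true] at h
  refine ⟨?_, fun f hf => ?_⟩
  · have := Nat.le_of_ble_eq_true h.1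
    rwa [sumL_one] at this
  · have := (allL_iff _ _).1 h.2 f hf
    rw [onF_eq] at this
    exact chkFa_imp this

lemma sF_cases (f : Gf) : sF f = 1 ∨ sF f = -1 := by
  unfold sF
  split_ifs
  · exact Or.inl rfl
  · exact Or.inr rfl

lemma sF_sq (f : Gf) (t : ℤ) : sF f * (sF f * t) = t := by
  rcases sF_cases f with h | h <;> rw [h] <;> ring

lemma pF_cases (f : Gf) : pF f = f.q ∨ pF f = -(f.q : ℤ) := by
  unfold pF g3p gfG
  rcases sF_cases f with h | h <;> rw [h] <;> split_ifs <;> simp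

/-- COST FAMILY -/
theorem FamOK.xr {P : ℕ} {f : Gf} (h : FamOK P f) (hk : f.kd = 0) (S : ℤ) :
    XR f.q (cF P S f) (phF P S f) := by
  have c := h.cost hk
  have e : phF P S f = fun t => (fT P S (gfG f) f.x (sF f * t) : ℝ) / f.kp := by
    funext t
    unfold phF
    rw [if_pos hk]
  rw [e]
  unfold cF
  rcases h.rf with r | r
  · rw [r] at c
    have k := fT_XR (g := gfG f) S c
    have es : sF f = 1 := by
      unfold sF
      rw [if_pos r]
    rw [if_pos r, es]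
    simp only [one_mul]
    exact k
  · rw [r] at c
    have k := fT_XR' (g := gfG f) S c
    have es : sF f = -1 := by
      unfold sF
      rw [if_neg (by omega)]
    rw [if_neg (by omega), es]
    simp only [neg_mul, one_mul]
    exact k

/-- GAIN FAMILY -/
theorem FamOK.xg {P : ℕ} {f : Gf} (h : FamOK P f) (hk : f.kd ≠ 0) (S : ℤ) :
    XG f.q (cF P S f) (phF P S f) := by
  have c := h.gain hk
  have e : phF P S f = fun t => ((f.O:ℝ) - (fT P S (gfG f) f.x (sF f * t) : ℝ)) / f.kp := by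
    funext t
    unfold phF
    rw [if_neg hk]
  rw [e]
  unfold cF
  rcases h.rf with r | r
  · rw [r] at c
    have k := fT_XG (g := gfG f) S c
    have es : sF f = 1 := by
      unfold sF
      rw [if_pos r]
    rw [if_pos r, es]
    simp only [one_mul]
    exact k
  · rw [r] at c
    have k := fT_XG' (g := gfG f) S c
    have es : sF f = -1 := by
      unfold sF
      rw [if_neg (by omega)]
    rw [if_neg (by omega), es]
    simp only [neg_mul, one_mul]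
    exact k

lemma ixF_eq (rf L v : ℕ) : ixF rf L v = if rf = 0 then v - (v - L) else L - v := by
  have : ixF rf L v = Nat.rec (motive := fun _ => ℕ) (v - (v - L)) (fun _ _ => L - v) rf := rfl
  rw [this]
  split_ifs with c
  · rw [c]
    rfl
  · obtain ⟨k, hk⟩ : ∃ k, rf = k + 1 := ⟨rf - 1, by omega⟩
    rw [hk]

lemma fT_lt {P : ℕ} {f : Gf} (h : FamOK P f) (S t : ℤ) : fT P S (gfG f) f.x t < 2 ^ 30 :=
  (h.x _).trans_le (Nat.pow_le_pow_right (by norm_num) h.bx)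

/-- bound of the functions -/
lemma FamOK.bd {P : ℕ} {f : Gf} (h : FamOK P f) (S t : ℤ) : |phF P S f t| ≤ 2 ^ 30 := by
  have h1 : (1:ℝ) ≤ f.kp := by exact_mod_cast h.kp
  have h0 : (0:ℝ) < f.kp := by linarith
  have h2 : ((fT P S (gfG f) f.x (sF f * t) : ℕ) : ℝ) ≤ 2 ^ 30 := by
    exact_mod_cast (fT_lt h S (sF f * t)).le
  have h3 : (0:ℝ) ≤ ((fT P S (gfG f) f.x (sF f * t) : ℕ) : ℝ) := Nat.cast_nonneg _
  have h4 : (f.O:ℝ) ≤ 2 ^ 30 := by exact_mod_cast h.O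
  have h5 : (0:ℝ) ≤ f.O := Nat.cast_nonneg _
  unfold phF
  split_ifs
  · rw [abs_div, abs_of_pos h0, div_le_iff₀ h0, abs_of_nonneg h3]
    nlinarith
  · rw [abs_div, abs_of_pos h0, div_le_iff₀ h0, abs_le]
    constructor <;> nlinarith

lemma vF_nonneg {s : ℝ} (hs : 0 ≤ s) (f : Gf) (c : ℕ) : 0 ≤ vF s f c := by
  unfold vF
  positivity

lemma FamOK.v_le {P : ℕ} {f : Gf} (h : FamOK P f) {s : ℝ} (hs : 0 ≤ s) (c : ℕ) :
    vF s f c ≤ s * (2 ^ 30 * f.kp) := by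
  unfold vF
  have h1 : nth 0 f.mu c ≤ 2 ^ 30 :=
    (h.mu c).le.trans (Nat.pow_le_pow_right (by norm_num) (by omega))
  have h2 : ((nth 0 f.mu c : ℕ) : ℝ) ≤ 2 ^ 30 := by exact_mod_cast h1
  exact mul_le_mul_of_nonneg_left (mul_le_mul_of_nonneg_right h2 (Nat.cast_nonneg _)) hs

lemma flF_nonneg (d : DatR) (f : Gf) (a b : ℕ) : 0 ≤ flF d f a b := Nat.cast_nonneg _

lemma FamOK.fl_le {P : ℕ} {f : Gf} (h : FamOK P f) (d : DatR) (a b : ℕ) : flF d f a b ≤ 1 := by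
  unfold flF
  exact_mod_cast h.fk _

/-- product with a constant -/
lemma dg_mulc {k x : ℕ} (h : ∀ c, k * dg x c < 2 ^ 40) (c : ℕ) :
    dg (Nat.mul k x) c = k * dg x c := by
  have h1 := (Rp.self (c + 1) x).mul k
  have h2 := h1.dg (fun c' _ => ⟨by positivity, by exact_mod_cast h c'⟩) (by omega : c < c + 1)
  exact_mod_cast h2

/-- DIGITS OF THE EXTRA COSTS -/
lemma dg_exG (d : DatR) {fs : List Gf} (hl : fs.length ≤ 32) (h : ∀ f ∈ fs, FamOK d.P f)
    (z k y : ℕ) :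
    dg (exG d fs z k) y = (fs.map fun f => gfM f (ixR d.segs z) k
      * dg f.x (y + g3s d.P (psR d.segs z) (gfG f))).sum := by
  have hb : ∀ f ∈ fs, ∀ c, gfM f (ixR d.segs z) k
      * dg (shf f.x (g3s d.P (psR d.segs z) (gfG f))) c < 2 ^ 30 := by
    intro f hf c
    have F := h f hf
    rw [dg_shf]
    have h1 := F.mu (ixR d.segs z)
    have h2 := F.fk k
    have h3 := F.x (c + g3s d.P (psR d.segs z) (gfG f))
    have e : gfM f (ixR d.segs z) k = nth 0 f.mu (ixR d.segs z) * nth 0 f.fk k := rfl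
    rw [e]
    have h4 : nth 0 f.mu (ixR d.segs z) * nth 0 f.fk k ≤ nth 0 f.mu (ixR d.segs z) := by
      calc nth 0 f.mu (ixR d.segs z) * nth 0 f.fk k ≤ nth 0 f.mu (ixR d.segs z) * 1 :=
            Nat.mul_le_mul_left _ h2
        _ = _ := Nat.mul_one _
    have h5 : (2:ℕ) ^ 30 = 2 ^ (30 - f.bx) * 2 ^ f.bx := by
      rw [← pow_add]
      congr 1
      have := F.bx
      omega
    rw [h5]
    exact Nat.mul_lt_mul'' (h4.trans_lt h1) h3
  have h1 := dg_sumL (fun f => Nat.mul (gfM f (ixR d.segs z) k)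
    (shf f.x (g3s d.P (psR d.segs z) (gfG f)))) fs (fun f hf c => by
      rw [dg_mulc (fun c => (hb f hf c).trans (by norm_num))]
      exact hb f hf c) (by omega) y
  show dg (sumL (fun f => Nat.mul (gfM f (ixR d.segs z) k)
    (shf f.x (g3s d.P (psR d.segs z) (gfG f)))) fs) y = _
  rw [h1.1]
  congr 1
  refine List.map_congr_left fun f hf => ?_
  rw [dg_mulc (fun c => (hb f hf c).trans (by norm_num)), dg_shf]

/-- one family in real form -/
lemma lam1_eq (d : DatR) (s0 : ℤ) (s : ℝ) {f : Gf} (h : FamOK d.P f) (ζ : ℕ × ℤ) (a b : ℕ)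
    (m : ℤ) :
    lam1 d s0 s f ζ a b m = s * ((gfM f ζ.1 (plE d.segs a b).k1 : ℕ)
        * ((fT d.P s0 (gfG f) f.x (m + g3p (gfG f) * ζ.2) : ℕ) : ℝ)
      - (Nat.mul (gfM f ζ.1 (plE d.segs a b).k1)
          (Nat.rec (motive := fun _ => ℕ) 0 (fun _ _ => f.O) f.kd) : ℕ)) := by
  have e0 : sF f * (sF f * m + pF f * ζ.2) = m + g3p (gfG f) * ζ.2 := by
    unfold pF
    rw [mul_add, sF_sq, mul_assoc, sF_sq]
  have h0 : (f.kp:ℝ) ≠ 0 := by
    have : (1:ℝ) ≤ f.kp := by exact_mod_cast h.kp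
    positivity
  have eM : ((gfM f ζ.1 (plE d.segs a b).k1 : ℕ) : ℝ)
      = (nth 0 f.mu ζ.1 : ℕ) * (nth 0 f.fk (plE d.segs a b).k1 : ℕ) := by
    have : gfM f ζ.1 (plE d.segs a b).k1 = nth 0 f.mu ζ.1 * nth 0 f.fk (plE d.segs a b).k1 := rfl
    rw [this]
    push_cast
    rfl
  have eM2 : ((Nat.mul (gfM f ζ.1 (plE d.segs a b).k1)
      (Nat.rec (motive := fun _ => ℕ) 0 (fun _ _ => f.O) f.kd) : ℕ) : ℝ)
      = (gfM f ζ.1 (plE d.segs a b).k1 : ℕ)
        * ((Nat.rec (motive := fun _ => ℕ) 0 (fun _ _ => f.O) f.kd : ℕ) : ℝ) :=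
    Nat.cast_mul _ _
  unfold lam1 vF flF phF
  rw [e0, eM2, eM]
  by_cases hk : f.kd = 0
  · have e1 : (Nat.rec (motive := fun _ => ℕ) 0 (fun _ _ => f.O) f.kd : ℕ) = 0 := by
      rw [hk]
      rfl
    rw [if_pos hk, if_pos hk, e1, Nat.cast_zero]
    field_simp
    ring
  · rw [if_neg hk, if_neg hk]
    have e1 : (Nat.rec (motive := fun _ => ℕ) 0 (fun _ _ => f.O) f.kd : ℕ) = f.O := by
      obtain ⟨k, hk'⟩ : ∃ k, f.kd = k + 1 := ⟨f.kd - 1, by omega⟩
      rw [hk']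
    rw [e1]
    field_simp
    ring

/-- THE EXTRA COSTS OF THE END TABLES ARE THE LABEL FUNCTIONS OF THE FAMILIES -/
theorem lamG_eq (d : DatR) (hc : CnsR d) {fs : List Gf} (hl : fs.length ≤ 32)
    (h : ∀ f ∈ fs, FamOK d.P f) {s0 : ℤ} {ζ : ℕ × ℤ}
    (hz : loR d.segs s0 ζ.1 ≤ ζ.2 ∧ ζ.2 ≤ hiR d.segs s0 ζ.1) (s : ℝ) (a b : ℕ) {y : ℕ}
    (hy : y ≤ 3 * d.P) :
    lamG d s0 s fs ζ a b ((y:ℤ) - (d.P + s0))
      = s * ((dg (exG d fs (vT d.segs s0 ζ) (plE d.segs a b).k1) y : ℝ)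
        - exO fs ζ.1 (plE d.segs a b).k1) := by
  obtain ⟨z1, z2, z3⟩ := vT_spec d.segs s0 ζ.1 ζ.2 hz.1 hz.2
  have z2' : (psR d.segs (vT d.segs s0 ζ) : ℤ) = ζ.2 + s0 := z2
  have z3' : ixR d.segs (vT d.segs s0 ζ) = ζ.1 := z3
  obtain ⟨p0, p1⟩ := pos_spec d hc s0 hz
  have hpP : psR d.segs (vT d.segs s0 ζ) ≤ d.P := by omega
  rw [dg_exG d hl h, z3']
  have e1 : ∀ f ∈ fs, lam1 d s0 s f ζ a b ((y:ℤ) - (d.P + s0))
      = s * ((gfM f ζ.1 (plE d.segs a b).k1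
          * dg f.x (y + g3s d.P (psR d.segs (vT d.segs s0 ζ)) (gfG f)) : ℕ)
        - (Nat.mul (gfM f ζ.1 (plE d.segs a b).k1)
          (Nat.rec (motive := fun _ => ℕ) 0 (fun _ _ => f.O) f.kd) : ℕ)) := by
    intro f hf
    rw [lam1_eq d s0 s (h f hf)]
    have g1 := gT_fT (P := d.P) (S := s0) (i := ζ.2) (m := (y:ℤ) - (d.P + s0)) (gfG f) f.x p0 p1
      (by omega)
    have g2 := gT_eq (P := d.P) (p := psR d.segs (vT d.segs s0 ζ)) (gfG f) f.x (S := s0)
      (i := ζ.2) (m := (y:ℤ) - (d.P + s0)) z2' hpP (by omega)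
    rw [← g1, ← g2]
    have g3 : ((y:ℤ) - (d.P + s0) + d.P + s0).toNat = y := by omega
    rw [g3]
    push_cast
    ring
  unfold lamG
  have e2 : exO fs ζ.1 (plE d.segs a b).k1
      = (fs.map fun f => Nat.mul (gfM f ζ.1 (plE d.segs a b).k1)
          (Nat.rec (motive := fun _ => ℕ) 0 (fun _ _ => f.O) f.kd)).sum := sumL_eq _ _
  rw [e2, List.map_congr_left e1]
  clear e1 e2 h hl
  induction fs with
  | nil => simp
  | cons f l ih =>
    simp only [List.map_cons, List.sum_cons]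
    rw [ih]
    push_cast
    ring

/-- upper bound of the label functions -/
theorem lamG_up (d : DatR) {fs : List Gf} (hl : fs.length ≤ 32) (h : ∀ f ∈ fs, FamOK d.P f)
    (s0 : ℤ) {s : ℝ} (hs : 0 ≤ s) (ζ : ℕ × ℤ) (a b : ℕ) (m : ℤ) :
    lamG d s0 s fs ζ a b m ≤ s * 2 ^ 35 := by
  have h1 : ∀ f ∈ fs, lam1 d s0 s f ζ a b m ≤ s * 2 ^ 30 := by
    intro f hf
    have F := h f hf
    rw [lam1_eq d s0 s F]
    refine mul_le_mul_of_nonneg_left ?_ hs
    have e : gfM f ζ.1 (plE d.segs a b).k1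
        = nth 0 f.mu ζ.1 * nth 0 f.fk (plE d.segs a b).k1 := rfl
    have h4 : nth 0 f.mu ζ.1 * nth 0 f.fk (plE d.segs a b).k1 ≤ nth 0 f.mu ζ.1 := by
      calc nth 0 f.mu ζ.1 * nth 0 f.fk (plE d.segs a b).k1 ≤ nth 0 f.mu ζ.1 * 1 :=
            Nat.mul_le_mul_left _ (F.fk _)
        _ = _ := Nat.mul_one _
    have h3 : fT d.P s0 (gfG f) f.x (m + g3p (gfG f) * ζ.2) < 2 ^ f.bx := F.x _
    have h5 : (2:ℕ) ^ 30 = 2 ^ (30 - f.bx) * 2 ^ f.bx := by
      rw [← pow_add]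
      congr 1
      have := F.bx
      omega
    have h6 : gfM f ζ.1 (plE d.segs a b).k1 * fT d.P s0 (gfG f) f.x (m + g3p (gfG f) * ζ.2)
        < 2 ^ 30 := by
      rw [h5, e]
      exact Nat.mul_lt_mul'' (h4.trans_lt (F.mu ζ.1)) h3
    have h7 : ((gfM f ζ.1 (plE d.segs a b).k1 : ℕ) : ℝ)
        * ((fT d.P s0 (gfG f) f.x (m + g3p (gfG f) * ζ.2) : ℕ) : ℝ) ≤ 2 ^ 30 := by
      exact_mod_cast h6.le
    have h8 : (0:ℝ) ≤ ((Nat.mul (gfM f ζ.1 (plE d.segs a b).k1)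
      (Nat.rec (motive := fun _ => ℕ) 0 (fun _ _ => f.O) f.kd) : ℕ) : ℝ) := Nat.cast_nonneg _
    linarith
  have h2 : ∀ l : List Gf, (∀ f ∈ l, lam1 d s0 s f ζ a b m ≤ s * 2 ^ 30) →
      (l.map fun f => lam1 d s0 s f ζ a b m).sum ≤ l.length * (s * 2 ^ 30) := by
    intro l hl'
    induction l with
    | nil => simp
    | cons f l ih =>
      simp only [List.map_cons, List.sum_cons, List.length_cons]
      have k1 := hl' f List.mem_cons_self
      have k2 := ih (fun g hg => hl' g (List.mem_cons_of_mem _ hg))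
      push_cast
      linarith
  refine (h2 fs h1).trans ?_
  have h3 : (fs.length : ℝ) ≤ 32 := by exact_mod_cast hl
  have h4 : 0 ≤ s * 2 ^ 30 := by positivity
  calc (fs.length : ℝ) * (s * 2 ^ 30) ≤ 32 * (s * 2 ^ 30) := mul_le_mul_of_nonneg_right h3 h4
    _ = s * 2 ^ 35 := by ring

/-- bound of the label functions -/
theorem lamG_le (d : DatR) {fs : List Gf} (hl : fs.length ≤ 32) (h : ∀ f ∈ fs, FamOK d.P f)
    (s0 : ℤ) {s : ℝ} (hs : 0 ≤ s) (ζ : ℕ × ℤ) (a b : ℕ) (m : ℤ) :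
    |lamG d s0 s fs ζ a b m| ≤ s * 2 ^ 65 := by
  have h1 : ∀ f ∈ fs, |lam1 d s0 s f ζ a b m| ≤ s * 2 ^ 60 := by
    intro f hf
    have F := h f hf
    have hM : gfM f ζ.1 (plE d.segs a b).k1 ≤ 2 ^ 30 := by
      have e : gfM f ζ.1 (plE d.segs a b).k1
          = nth 0 f.mu ζ.1 * nth 0 f.fk (plE d.segs a b).k1 := rfl
      rw [e]
      have h1 : nth 0 f.mu ζ.1 ≤ 2 ^ 30 :=
        (F.mu ζ.1).le.trans (Nat.pow_le_pow_right (by norm_num) (by omega))
      have h2 := F.fk (plE d.segs a b).k1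
      calc nth 0 f.mu ζ.1 * nth 0 f.fk (plE d.segs a b).k1 ≤ 2 ^ 30 * 1 :=
            Nat.mul_le_mul h1 h2
        _ = 2 ^ 30 := Nat.mul_one _
    have hM' : ((gfM f ζ.1 (plE d.segs a b).k1 : ℕ) : ℝ) ≤ 2 ^ 30 := by exact_mod_cast hM
    have hM0 : (0:ℝ) ≤ ((gfM f ζ.1 (plE d.segs a b).k1 : ℕ) : ℝ) := Nat.cast_nonneg _
    have hf0 : ((fT d.P s0 (gfG f) f.x (m + g3p (gfG f) * ζ.2) : ℕ) : ℝ) ≤ 2 ^ 30 := by
      exact_mod_cast (fT_lt F s0 _).le
    have hf1 : (0:ℝ) ≤ ((fT d.P s0 (gfG f) f.x (m + g3p (gfG f) * ζ.2) : ℕ) : ℝ) :=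
      Nat.cast_nonneg _
    have hO : (Nat.rec (motive := fun _ => ℕ) 0 (fun _ _ => f.O) f.kd : ℕ) ≤ 2 ^ 30 := by
      cases f.kd with
      | zero => positivity
      | succ n => exact F.O
    have hO' : ((Nat.rec (motive := fun _ => ℕ) 0 (fun _ _ => f.O) f.kd : ℕ) : ℝ) ≤ 2 ^ 30 := by
      exact_mod_cast hO
    have hO0 : (0:ℝ) ≤ ((Nat.rec (motive := fun _ => ℕ) 0 (fun _ _ => f.O) f.kd : ℕ) : ℝ) :=
      Nat.cast_nonneg _
    have e : ((Nat.mul (gfM f ζ.1 (plE d.segs a b).k1)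
        (Nat.rec (motive := fun _ => ℕ) 0 (fun _ _ => f.O) f.kd) : ℕ) : ℝ)
        = (gfM f ζ.1 (plE d.segs a b).k1 : ℕ)
          * ((Nat.rec (motive := fun _ => ℕ) 0 (fun _ _ => f.O) f.kd : ℕ) : ℝ) :=
      Nat.cast_mul _ _
    rw [lam1_eq d s0 s F, abs_mul, abs_of_nonneg hs, e, ← mul_sub, abs_mul, abs_of_nonneg hM0]
    refine mul_le_mul_of_nonneg_left ?_ hs
    have h3 : |((fT d.P s0 (gfG f) f.x (m + g3p (gfG f) * ζ.2) : ℕ) : ℝ)
        - ((Nat.rec (motive := fun _ => ℕ) 0 (fun _ _ => f.O) f.kd : ℕ) : ℝ)| ≤ 2 ^ 30 := by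
      rw [abs_le]
      constructor <;> linarith
    calc ((gfM f ζ.1 (plE d.segs a b).k1 : ℕ) : ℝ)
          * |((fT d.P s0 (gfG f) f.x (m + g3p (gfG f) * ζ.2) : ℕ) : ℝ)
            - ((Nat.rec (motive := fun _ => ℕ) 0 (fun _ _ => f.O) f.kd : ℕ) : ℝ)|
        ≤ 2 ^ 30 * 2 ^ 30 := mul_le_mul hM' h3 (abs_nonneg _) (by positivity)
      _ = 2 ^ 60 := by norm_num
  have h2 : ∀ l : List Gf, (∀ f ∈ l, |lam1 d s0 s f ζ a b m| ≤ s * 2 ^ 60) →
      |(l.map fun f => lam1 d s0 s f ζ a b m).sum| ≤ l.length * (s * 2 ^ 60) := by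
    intro l hl'
    induction l with
    | nil => simp
    | cons f l ih =>
      simp only [List.map_cons, List.sum_cons, List.length_cons]
      refine (abs_add_le _ _).trans ?_
      have k1 := hl' f List.mem_cons_self
      have k2 := ih (fun g hg => hl' g (List.mem_cons_of_mem _ hg))
      push_cast
      linarith
  refine (h2 fs h1).trans ?_
  have h3 : (fs.length : ℝ) ≤ 32 := by exact_mod_cast hl
  have h4 : 0 ≤ s * 2 ^ 60 := by positivity
  calc (fs.length : ℝ) * (s * 2 ^ 60) ≤ 32 * (s * 2 ^ 60) := mul_le_mul_of_nonneg_right h3 h4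
    _ = s * 2 ^ 65 := by ring

end MP61673a.KC
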