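import Pool.Agent.Mu673.GEx
import Pool.Agent.Mu673.FE6

/-!
THE FAMILIES OF THE DATA AS `FamP` (FE6). `ι` = number of the class.
-/

set_option autoImplicit false

namespace MP61673a.KC

open Finset MP61673a.Kink MP61673a.Bary MP61673a.Sos MP61673a.Fin MP61673a.FE

variable {C : Type} {M : ℕ} {σ δ : ℝ} {D K ρ : ℤ} {kL kR : ℝ}
  {G : GrdD C M σ δ D K ρ kL kR} {d : DatR} {f : Gf}

/-- COST FAMILY of the data -/
theorem FamOK.famC (F : FamOK d.P f) (hk : f.kd = 0) (ι : C → ℕ) (s0 : ℤ) {s : ℝ} (hs : 0 ≤ s)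
    {η : ℝ} (hη : 0 ≤ η) {Φ : P4 → P4 → P4 → ℝ} {cond : P4 → P4 → P4 → Prop}
    [∀ x y z, Decidable (cond x y z)]
    (hΦ : ∀ x y z, G.ok x → G.ok y → G.ok z →
      Φ x y z ≤ vF s f (ι (G.cl x)) * (flF d f (ι (G.cl y)) (ι (G.cl z)) * bo (cond x y z)))
    (hc : ∀ x y z, G.ok x → G.ok y → G.ok z → cond x y z →
      sF f * yc M σ D (lab D y z) + pF f * yc M σ D (lc D x.2) ≤ cF d.P s0 f + η) :
    G.FamP Φ (fun ζ a b m => lam1 d s0 s f (ι ζ.1, ζ.2) (ι a) (ι b) m)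
      (s * (2 ^ 30 * f.kp) * (2 * 2 ^ 30 * (f.q * δ + η))) := by
  have h := GrdD.fam_costP (G := G) (F.xr hk s0) (F.bd s0) (sF_cases f) (pF_cases f) hη
    (v := fun c => vF s f (ι c)) (V1 := s * (2 ^ 30 * f.kp)) (fun c => vF_nonneg hs f _)
    (fun c => F.v_le hs _) (fl := fun a b => flF d f (ι a) (ι b)) (fun a b => flF_nonneg d f _ _)
    (fun a b => F.fl_le d _ _) hΦ hc
  have e : (fun (ζ : C × ℤ) (a b : C) (m : ℤ) => lam1 d s0 s f (ι ζ.1, ζ.2) (ι a) (ι b) m)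
      = fun ζ a b m => vF s f (ι ζ.1) * (flF d f (ι a) (ι b)
        * phF d.P s0 f (sF f * m + pF f * ζ.2)) := by
    funext ζ a b m
    unfold lam1
    rw [if_pos hk]
  rw [e]
  exact h

/-- GAIN FAMILY of the data -/
theorem FamOK.famG (F : FamOK d.P f) (hk : f.kd ≠ 0) (ι : C → ℕ) (s0 : ℤ) {s : ℝ} (hs : 0 ≤ s)
    {η : ℝ} (hη : 0 ≤ η) {Φ : P4 → P4 → P4 → ℝ} {cond : P4 → P4 → P4 → Prop}
    [∀ x y z, Decidable (cond x y z)]
    (hΦ : ∀ x y z, G.ok x → G.ok y → G.ok z →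
      Φ x y z ≤ -(vF s f (ι (G.cl x)) * (flF d f (ι (G.cl y)) (ι (G.cl z)) * bo (cond x y z))))
    (hc : ∀ x y z, G.ok x → G.ok y → G.ok z → ¬ cond x y z →
      cF d.P s0 f - η ≤ sF f * yc M σ D (lab D y z) + pF f * yc M σ D (lc D x.2)) :
    G.FamP Φ (fun ζ a b m => lam1 d s0 s f (ι ζ.1, ζ.2) (ι a) (ι b) m)
      (s * (2 ^ 30 * f.kp) * (2 * 2 ^ 30 * (f.q * δ + η))) := by
  have h := GrdD.fam_gainP (G := G) (F.xg hk s0) (F.bd s0) (sF_cases f) (pF_cases f) hη
    (v := fun c => vF s f (ι c)) (V1 := s * (2 ^ 30 * f.kp)) (fun c => vF_nonneg hs f _)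
    (fun c => F.v_le hs _) (fl := fun a b => flF d f (ι a) (ι b)) (fun a b => flF_nonneg d f _ _)
    (fun a b => F.fl_le d _ _) hΦ hc
  have e : (fun (ζ : C × ℤ) (a b : C) (m : ℤ) => lam1 d s0 s f (ι ζ.1, ζ.2) (ι a) (ι b) m)
      = fun ζ a b m => -(vF s f (ι ζ.1) * (flF d f (ι a) (ι b)
        * phF d.P s0 f (sF f * m + pF f * ζ.2))) := by
    funext ζ a b m
    unfold lam1
    rw [if_neg hk]
  rw [e]
  exact h

/-- sum of functionals over a list -/
noncomputable def sumF (l : List (P4 → P4 → P4 → ℝ)) (x y z : P4) : ℝ :=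
  (l.map fun Φ => Φ x y z).sum

/-- ALL FAMILIES: functionals `Φs` in the order of the families, errors `es` -/
theorem famAll (ι : C → ℕ) (s0 : ℤ) (s : ℝ) : ∀ (fs : List Gf) (Φs : List (P4 → P4 → P4 → ℝ))
    (es : List ℝ), List.Forall₂ (fun f p => G.FamP p.1
      (fun ζ a b m => lam1 d s0 s f (ι ζ.1, ζ.2) (ι a) (ι b) m) p.2) fs (Φs.zip es) →
    fs.length = Φs.length → fs.length = es.length →
    G.FamP (sumF Φs) (fun ζ a b m => lamG d s0 s fs (ι ζ.1, ζ.2) (ι a) (ι b) m) es.sum := by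
  intro fs
  induction fs with
  | nil =>
    intro Φs es _ h1 h2
    have e1 : Φs = [] := by
      cases Φs with
      | nil => rfl
      | cons _ _ => simp at h1
    have e2 : es = [] := by
      cases es with
      | nil => rfl
      | cons _ _ => simp at h2
    rw [e1, e2]
    exact GrdD.FamP.zero
  | cons f l ih =>
    intro Φs es h h1 h2
    cases Φs with
    | nil => simp at h1
    | cons Φ Φs =>
      cases es with
      | nil => simp at h2
      | cons e es =>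
        rw [List.zip_cons_cons, List.forall₂_cons] at h
        have k := ih Φs es h.2 (by simpa using h1) (by simpa using h2)
        have := h.1.add k
        rw [List.sum_cons]
        exact this

end MP61673a.KC
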