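import Pool.Agent.Mu673.KCrowT
import Pool.Agent.Mu673.FExr
import Pool.Agent.Mu673.KinkT

/-!
TABLES OF THE ROW DATA IN REAL FORM: the digits of a table = digits of the own table of the sampler
node plus digits of the fixed tables at the argument `m + q i` (`m` label, `i` sampler node).
-/

set_option autoImplicit false

namespace MP61673a.KC

open Finset

/-- digits of a table -/
lemma dg_tabR {P : ℕ} {G ws : List ℕ} {c : Cb} {p : ℕ} (hw : ∀ w ∈ ws, ∀ y, dg w y < 2 ^ 30)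
    (hG : ∀ g ∈ G, ∀ y, dg g y < 2 ^ 30) (hc : c.g.length ≤ 500) (y : ℕ) :
    dg (tabR P G ws c p) y = dg (nth 0 ws c.w) y
      + (c.g.map fun g => dg (nth 0 G g.ix) (y + g3s P p g)).sum := by
  have h1 : ∀ y, dg (nth 0 ws c.w) y ≤ 2 ^ 30 := by
    intro y
    rcases nth_mem 0 ws c.w with h | h
    · exact (hw _ h y).le
    · rw [h, dg_zero]
      positivity
  have h2 := dg_sumL (fun g => shf (nth 0 G g.ix) (g3s P p g)) c.g (fun g _ y => by
    rw [dg_shf]
    rcases nth_mem 0 G g.ix with h | h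
    · exact hG _ h _
    · rw [h, dg_zero]
      positivity) (by omega)
  unfold tabR
  have e : dg (nth 0 ws c.w + sumL (fun g => shf (nth 0 G g.ix) (g3s P p g)) c.g) y
      = dg (nth 0 ws c.w) y + dg (sumL (fun g => shf (nth 0 G g.ix) (g3s P p g)) c.g) y :=
    dg_addb (α := 2 ^ 30) (β := c.g.length * 2 ^ 30) h1 (fun y => (h2 y).2) (by
      have : c.g.length * 2 ^ 30 ≤ 500 * 2 ^ 30 := Nat.mul_le_mul_right _ hc
      omega) y
  show dg (nth 0 ws c.w + sumL (fun g => shf (nth 0 G g.ix) (g3s P p g)) c.g) y = _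
  rw [e, (h2 y).1]
  congr 2
  exact List.map_congr_left fun g _ => by rw [dg_shf]

noncomputable section

/-- the multiplier of the sampler node with sign -/
def g3p (g : G3) : ℤ := if g.ng = 0 then (g.m : ℤ) else -(g.m : ℤ)

/-- a packed fixed table as a function of `t = m + q i` -/
def gT (P : ℕ) (S : ℤ) (g : G3) (x : ℕ) (t : ℤ) : ℝ :=
  dg x (t + P + S + if g.ng = 0 then (g.m : ℤ) * S else (g.m : ℤ) * (P - S)).toNat

end

lemma g3s_eq {P p : ℕ} (g : G3) : g3s P p g = if g.ng = 0 then g.m * p else g.m * (P - p) := by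
  have e : g3s P p g = Nat.rec (motive := fun _ => ℕ) (g.m * p) (fun _ _ => g.m * (P - p)) g.ng :=
    rfl
  rw [e]
  split_ifs with h
  · rw [h]
    rfl
  · obtain ⟨n, hn⟩ : ∃ n, g.ng = n + 1 := ⟨g.ng - 1, by omega⟩
    rw [hn]

/-- the digit of a moved fixed table -/
lemma gT_eq {P p : ℕ} (g : G3) (x : ℕ) {S i m : ℤ} (hp : (p : ℤ) = i + S) (hpP : p ≤ P)
    (hm : 0 ≤ m + P + S) :
    (dg x ((m + P + S).toNat + g3s P p g) : ℝ) = gT P S g x (m + g3p g * i) := by
  unfold gT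
  congr 2
  rw [g3s_eq]
  unfold g3p
  by_cases h : g.ng = 0
  · rw [if_pos h, if_pos h, if_pos h]
    have e1 : m + (g.m : ℤ) * i + P + S + (g.m : ℤ) * S = (m + P + S) + ((g.m * p : ℕ) : ℤ) := by
      push_cast
      rw [hp]
      ring
    rw [e1]
    omega
  · rw [if_neg h, if_neg h, if_neg h]
    have e1 : m + -(g.m : ℤ) * i + P + S + (g.m : ℤ) * (P - S)
        = (m + P + S) + ((g.m * (P - p) : ℕ) : ℤ) := by
      rw [Nat.cast_mul, Nat.cast_sub hpP, hp]
      ring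
    rw [e1]
    omega

/-- END TABLES IN REAL FORM -/
theorem tvE_eq (d : DatR) (hb : BndR d) (hc : CnsR d) (S : ℤ) {z : ℕ × ℤ}
    (hz : loR d.segs S z.1 ≤ z.2 ∧ z.2 ≤ hiR d.segs S z.1) (k : ℕ) {m : ℤ}
    (hm : 0 ≤ m + d.P + S) :
    tvE d S z k m
      = (dg (nth 0 (nth16 [] d.W (vT d.segs S z))
          (nth ⟨0, []⟩ (nth segD d.segs z.1).cb k).w) (m + d.P + S).toNat : ℝ)
        + ((nth ⟨0, []⟩ (nth segD d.segs z.1).cb k).g.map fun g =>
            gT d.P S g (nth 0 d.G g.ix) (m + g3p g * z.2)).sum := by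
  obtain ⟨z1, z2, z3⟩ := vT_spec d.segs S z.1 z.2 hz.1 hz.2
  have z1' : vT d.segs S z < vR d.segs := z1
  have z2' : (psR d.segs (vT d.segs S z) : ℤ) = z.2 + S := z2
  have z3' : ixR d.segs (vT d.segs S z) = z.1 := z3
  obtain ⟨s1, _, s3, _, s5⟩ := sgR_eq d.segs z1'
  have hP : psR d.segs (vT d.segs S z) ≤ d.P := by
    have := hc.hi _ s3
    omega
  have ecb : (sgR d.segs (vT d.segs S z)).cb = (nth segD d.segs z.1).cb := by
    rw [s1, z3']
  have hlen : (nth ⟨0, []⟩ (nth segD d.segs z.1).cb k).g.length ≤ 500 := by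
    rw [← ecb]
    rcases nth_mem (⟨0, []⟩ : Cb) (sgR d.segs (vT d.segs S z)).cb k with h | h
    · have := hb.cb _ s3 _ h
      omega
    · rw [h]
      simp
  unfold tvE arrR
  rw [dg_tabR (hb.W _ z1') hb.G (by rw [ecb]; exact hlen), ecb]
  push_cast
  congr 1
  induction (nth ⟨0, []⟩ (nth segD d.segs z.1).cb k).g with
  | nil => simp
  | cons g l ih =>
    simp only [List.map_cons, List.sum_cons]
    rw [← ih, gT_eq g _ z2' hP hm]

/-- SUM TABLES IN REAL FORM -/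
theorem tvM_eq (d : DatR) (hb : BndR d) (S : ℤ) {z : ℕ × ℤ}
    (hz : loR d.segs S z.1 ≤ z.2 ∧ z.2 ≤ hiR d.segs S z.1) (k : ℕ)
    (hk : (nth ⟨0, []⟩ (nth segD d.segs z.1).cb k).g = []) (m : ℤ) :
    tvM d S z k m
      = (dg (nth 0 (nth16 [] d.W (vT d.segs S z))
          (nth ⟨0, []⟩ (nth segD d.segs z.1).cb k).w) (m + 2 * S).toNat : ℝ) := by
  obtain ⟨z1, z2, z3⟩ := vT_spec d.segs S z.1 z.2 hz.1 hz.2
  have z1' : vT d.segs S z < vR d.segs := z1
  have z3' : ixR d.segs (vT d.segs S z) = z.1 := z3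
  obtain ⟨s1, _, s3, _, s5⟩ := sgR_eq d.segs z1'
  have ecb : (sgR d.segs (vT d.segs S z)).cb = (nth segD d.segs z.1).cb := by
    rw [s1, z3']
  unfold tvM arrR
  rw [ecb]
  rw [dg_tabR (hb.W _ z1') hb.G (by rw [hk]; simp), hk]
  simp

/-! ### Clamped fixed tables and their integer checks -/

/-- index `min u L` (`rf = 0`) or `L - min u L` -/
def ixF (rf L u : ℕ) : ℕ :=
  Nat.rec (motive := fun _ => ℕ) (Nat.sub u (Nat.sub u L)) (fun _ _ => Nat.sub L u) rf

/-- digit `u` of the fixed table, constant beyond `L`, reflected for `rf = 1` -/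
def dF (x rf L u : ℕ) : ℕ := dg x (ixF rf L u)

/-- the quadratic `(p0, p1, p2)` minus `r` is nonnegative on `[0,1]` (Bernstein form) -/
def qB (p0 p1 p2 r : ℕ) : Bool :=
  Nat.ble r p0 && Nat.ble r p2 && (Nat.ble r p1 ||
    Nat.ble (Nat.mul (Nat.sub r p1) (Nat.sub r p1)) (Nat.mul (Nat.sub p0 r) (Nat.sub p2 r)))

/-- polar form at `(j - q + a / cd, j - q + b / cd)`, threshold `cN / cd`; `x0, x1` digits at
`j - q`, `j - q + 1`; `y0, y1` digits at `j`, `j + 1` -/
def polN (q cN cd j x0 x1 y0 y1 a b : ℕ) : ℕ :=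
  Nat.add (Nat.add
    (Nat.mul (Nat.sub (Nat.add (Nat.mul cd j) a) cN)
      (Nat.add (Nat.mul (Nat.sub cd b) x0) (Nat.mul b x1)))
    (Nat.mul (Nat.sub (Nat.add (Nat.mul cd j) b) cN)
      (Nat.add (Nat.mul (Nat.sub cd a) x0) (Nat.mul a x1))))
    (Nat.add
    (Nat.mul (Nat.sub (Nat.add cN (Nat.mul cd q)) (Nat.add (Nat.mul cd j) a))
      (Nat.add (Nat.mul (Nat.sub cd b) y0) (Nat.mul b y1)))
    (Nat.mul (Nat.sub (Nat.add cN (Nat.mul cd q)) (Nat.add (Nat.mul cd j) b))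
      (Nat.add (Nat.mul (Nat.sub cd a) y0) (Nat.mul a y1))))

/-- the check on the part `[a / cd, b / cd]` of the cell `j - q` -/
def celB (q cN cd kp j x0 x1 y0 y1 a b : ℕ) : Bool :=
  qB (polN q cN cd j x0 x1 y0 y1 a a) (polN q cN cd j x0 x1 y0 y1 a b)
    (polN q cN cd j x0 x1 y0 y1 b b) (Nat.mul 2 (Nat.mul (Nat.mul cd cd) (Nat.mul kp q)))

/-- the cell `j - q` with its digits -/
def celD (f : ℕ → ℕ) (q cN cd kp j a b : ℕ) : Bool :=
  celB q cN cd kp j (f (Nat.sub j q)) (f (Nat.sub (Nat.succ j) q)) (f j) (f (Nat.succ j)) a b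

/-- all cells between `c - q` and `c`: `n = c / cd`, `r = c % cd` -/
def celsB (f : ℕ → ℕ) (q cN cd kp n r : ℕ) : Bool :=
  celD f q cN cd kp n r cd
    && allN (Nat.pred q) (fun i => celD f q cN cd kp (Nat.add (Nat.succ n) i) 0 cd)
    && (Nat.beq r 0 || celD f q cN cd kp (Nat.add n q) 0 r)

/-- costs: level `kp`, threshold `t ≤ cN / cd` -/
def xrF (f : ℕ → ℕ) (q cN cd kp : ℕ) : Bool :=
  Nat.ble 1 q && Nat.ble 1 cd && Nat.ble 1 kp
    && allN (Nat.succ (Nat.div cN cd)) (fun u => Nat.ble kp (f u))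
    && Nat.ble (Nat.mul kp cd)
      (Nat.add (Nat.mul (Nat.sub cd (Nat.mod cN cd)) (f (Nat.div cN cd)))
        (Nat.mul (Nat.mod cN cd) (f (Nat.succ (Nat.div cN cd)))))
    && celsB f q cN cd kp (Nat.div cN cd) (Nat.mod cN cd)

/-- gains: digits `O - kp ψ`, threshold `cN / cd ≤ t` -/
def xgF (f : ℕ → ℕ) (L q cN cd kp O : ℕ) : Bool :=
  Nat.ble 1 q && Nat.ble 1 cd && Nat.ble 1 kp
    && allN (Nat.succ L) (fun u => Nat.ble O (Nat.add (f u) kp)
      && (Nat.ble u (Nat.div cN cd) || Nat.ble O (f u)))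
    && Nat.ble O (f L)
    && Nat.ble (Nat.mul O cd)
      (Nat.add (Nat.mul (Nat.sub cd (Nat.mod cN cd)) (f (Nat.div cN cd)))
        (Nat.mul (Nat.mod cN cd) (f (Nat.succ (Nat.div cN cd)))))
    && celsB f q cN cd O (Nat.div cN cd) (Nat.mod cN cd)

/-- the function of the digits on the integers, `t = u - off` -/
def fZ (f : ℕ → ℕ) (off t : ℤ) : ℕ := f (t + off).toNat

open MP61673a.Kink MP61673a.FE in
lemma qB_sound {p0 p1 p2 r : ℕ} (h : qB p0 p1 p2 r = true) :
    QN ((p0 : ℝ) - r) ((p1 : ℝ) - r) ((p2 : ℝ) - r) := by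
  unfold qB at h
  simp only [Bool.and_eq_true, Bool.or_eq_true] at h
  obtain ⟨⟨h0, h2⟩, h1⟩ := h
  have h0' := Nat.le_of_ble_eq_true h0
  have h2' := Nat.le_of_ble_eq_true h2
  have e0 : (r : ℝ) ≤ p0 := by exact_mod_cast h0'
  have e2 : (r : ℝ) ≤ p2 := by exact_mod_cast h2'
  refine qn_of_disc (by linarith) (by linarith) ?_
  rcases h1 with h1 | h1
  · have : (r : ℝ) ≤ p1 := by exact_mod_cast Nat.le_of_ble_eq_true h1
    exact Or.inl (by linarith)
  · by_cases c : r ≤ p1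
    · have : (r : ℝ) ≤ p1 := by exact_mod_cast c
      exact Or.inl (by linarith)
    · have h1' : (r - p1) * (r - p1) ≤ (p0 - r) * (p2 - r) := Nat.le_of_ble_eq_true h1
      have h3 : (((r - p1) * (r - p1) : ℕ) : ℝ) ≤ (((p0 - r) * (p2 - r) : ℕ) : ℝ) := by
        exact_mod_cast h1'
      rw [Nat.cast_mul, Nat.cast_mul, Nat.cast_sub (by omega : p1 ≤ r), Nat.cast_sub h0',
        Nat.cast_sub h2'] at h3
      right
      nlinarith [h3]

/-- the polar form with natural numbers -/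
lemma polN_cast {q cN cd j x0 x1 y0 y1 a b : ℕ} (ha : a ≤ cd) (hb : b ≤ cd)
    (h1 : cN ≤ cd * j + a) (h2 : cN ≤ cd * j + b) (h3 : cd * j + a ≤ cN + cd * q)
    (h4 : cd * j + b ≤ cN + cd * q) :
    (polN q cN cd j x0 x1 y0 y1 a b : ℝ)
      = ((cd:ℝ) * j + a - cN) * ((cd - b) * x0 + b * x1)
        + ((cd:ℝ) * j + b - cN) * ((cd - a) * x0 + a * x1)
        + (((cN:ℝ) + cd * q - (cd * j + a)) * ((cd - b) * y0 + b * y1)
        + ((cN:ℝ) + cd * q - (cd * j + b)) * ((cd - a) * y0 + a * y1)) := by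
  have e : polN q cN cd j x0 x1 y0 y1 a b
      = (cd * j + a - cN) * ((cd - b) * x0 + b * x1)
        + (cd * j + b - cN) * ((cd - a) * x0 + a * x1)
        + ((cN + cd * q - (cd * j + a)) * ((cd - b) * y0 + b * y1)
        + (cN + cd * q - (cd * j + b)) * ((cd - a) * y0 + a * y1)) := rfl
  rw [e]
  simp only [Nat.cast_add, Nat.cast_mul, Nat.cast_sub ha, Nat.cast_sub hb, Nat.cast_sub h1,
    Nat.cast_sub h2, Nat.cast_sub h3, Nat.cast_sub h4]

open MP61673a.Kink MP61673a.FE in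
/-- one part of a cell -/
lemma celD_sound {f : ℕ → ℕ} {q cN cd kp j a b : ℕ} {off : ℤ} (hcd : 0 < cd) (hab : a < b)
    (hb : b ≤ cd) (h1 : cN ≤ cd * j + a) (h4 : cd * j + b ≤ cN + cd * q)
    (h : celD f q cN cd kp j a b = true) {t : ℝ}
    (ht0 : ((j:ℤ) - q - off : ℤ) + (a:ℝ) / cd ≤ t) (ht1 : t ≤ ((j:ℤ) - q - off : ℤ) + (b:ℝ) / cd) :
    (kp:ℝ) * q ≤ (t - ((cN:ℝ) / cd - off) + q) * pl (fun m => (fZ f off m : ℝ)) t
      + (((cN:ℝ) / cd - off) - t) * pl (fun m => (fZ f off m : ℝ)) (t + q) := by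
  have hcd' : (0:ℝ) < cd := by exact_mod_cast hcd
  have hab' : (a:ℝ) < b := by exact_mod_cast hab
  have hb' : (b:ℝ) ≤ cd := by exact_mod_cast hb
  have hu0 : (0:ℝ) ≤ (a:ℝ) / cd := by positivity
  have hv1 : (b:ℝ) / cd ≤ 1 := (div_le_one hcd').2 hb'
  have huv : (a:ℝ) / cd < (b:ℝ) / cd := div_lt_div_of_pos_right hab' hcd'
  set m : ℤ := (j:ℤ) - q - off with hm
  set φ : ℤ → ℝ := fun m => (fZ f off m : ℝ) with hφ
  set c : ℝ := (cN:ℝ) / cd - off with hc
  rw [pol_eq (m := m) (by linarith) (by linarith)]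
  -- digits
  have f0 : φ m = f (j - q) := by
    rw [hφ]
    show ((f (m + off).toNat : ℕ) : ℝ) = _
    congr 2
    omega
  have f1 : φ (m + 1) = f (j + 1 - q) := by
    rw [hφ]
    show ((f (m + 1 + off).toNat : ℕ) : ℝ) = _
    congr 2
    omega
  have f2 : φ (m + q) = f j := by
    rw [hφ]
    show ((f (m + q + off).toNat : ℕ) : ℝ) = _
    congr 2
    omega
  have f3 : φ (m + q + 1) = f (j + 1) := by
    rw [hφ]
    show ((f (m + q + 1 + off).toNat : ℕ) : ℝ) = _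
    congr 2
    omega
  have hmr : ((m : ℤ) : ℝ) = (j:ℝ) - q - off := by
    rw [hm]
    push_cast
    ring
  -- the polar forms
  have hp : ∀ a' b' : ℕ, a' ≤ cd → b' ≤ cd → cN ≤ cd * j + a' → cN ≤ cd * j + b' →
      cd * j + a' ≤ cN + cd * q → cd * j + b' ≤ cN + cd * q →
      (polN q cN cd j (f (j - q)) (f (j + 1 - q)) (f j) (f (j + 1)) a' b' : ℝ)
        = 2 * ((cd:ℝ) * cd) * pol q c φ m ((a':ℝ) / cd) ((b':ℝ) / cd) := by
    intro a' b' q1 q2 q3 q4 q5 q6
    rw [polN_cast q1 q2 q3 q4 q5 q6]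
    unfold pol
    rw [f0, f1, f2, f3, hmr, hc]
    field_simp
    ring
  have hh := qB_sound (p0 := polN q cN cd j (f (j - q)) (f (j + 1 - q)) (f j) (f (j + 1)) a a)
    (p1 := polN q cN cd j (f (j - q)) (f (j + 1 - q)) (f j) (f (j + 1)) a b)
    (p2 := polN q cN cd j (f (j - q)) (f (j + 1 - q)) (f j) (f (j + 1)) b b)
    (r := 2 * (cd * cd * (kp * q))) h
  rw [hp a a (by omega) (by omega) h1 h1 (by omega) (by omega),
    hp a b (by omega) hb h1 (by omega) (by omega) h4,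
    hp b b hb hb (by omega) (by omega) h4 h4] at hh
  have hd : 0 < (b:ℝ) / cd - (a:ℝ) / cd := by linarith
  have hscale := qn_scale (k := 2 * ((cd:ℝ) * cd)) (by positivity)
    (b0 := pol q c φ m ((a:ℝ) / cd) ((a:ℝ) / cd) - kp * q)
    (b1 := pol q c φ m ((a:ℝ) / cd) ((b:ℝ) / cd) - kp * q)
    (b2 := pol q c φ m ((b:ℝ) / cd) ((b:ℝ) / cd) - kp * q) (by
      convert hh using 1 <;> push_cast <;> ring)
  have k := hscale ((t - m - (a:ℝ) / cd) / ((b:ℝ) / cd - (a:ℝ) / cd))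
    (div_nonneg (by linarith) hd.le) ((div_le_one hd).2 (by linarith))
  have e : ∀ u v R : ℝ, 0 < v - u → (pol q c φ m u u - R) * (1 - (t - m - u) / (v - u)) ^ 2
      + 2 * (pol q c φ m u v - R) * ((t - m - u) / (v - u) * (1 - (t - m - u) / (v - u)))
      + (pol q c φ m v v - R) * ((t - m - u) / (v - u)) ^ 2
      = pol q c φ m (t - m) (t - m) - R := by
    intro u v R huv
    unfold pol
    field_simp
    ring
  rw [e _ _ _ hd] at k
  linarith

open MP61673a.Kink MP61673a.FE in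
/-- all cells between `c - q` and `c` -/
lemma celsB_sound {f : ℕ → ℕ} {q cN cd kp : ℕ} {off : ℤ} (hcd : 0 < cd) (hq : 1 ≤ q)
    (h : celsB f q cN cd kp (cN / cd) (cN % cd) = true) {t : ℝ}
    (ht0 : ((cN:ℝ) / cd - off) - q ≤ t) (ht1 : t ≤ (cN:ℝ) / cd - off) :
    (kp:ℝ) * q ≤ (t - ((cN:ℝ) / cd - off) + q) * pl (fun m => (fZ f off m : ℝ)) t
      + (((cN:ℝ) / cd - off) - t) * pl (fun m => (fZ f off m : ℝ)) (t + q) := by
  have hcd' : (0:ℝ) < cd := by exact_mod_cast hcd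
  set n := cN / cd with hn
  set r := cN % cd with hr
  have hdm : cd * n + r = cN := Nat.div_add_mod cN cd
  have hrcd : r < cd := Nat.mod_lt _ hcd
  have hc : (cN:ℝ) / cd = n + (r:ℝ) / cd := by
    rw [← hdm]
    push_cast
    field_simp
  have hr0 : (0:ℝ) ≤ (r:ℝ) / cd := by positivity
  unfold celsB at h
  simp only [Bool.and_eq_true, Bool.or_eq_true] at h
  obtain ⟨⟨h1, h2⟩, h3⟩ := h
  have hcdq : cd * 1 ≤ cd * q := Nat.mul_le_mul_left _ hq
  by_cases c1 : t + off ≤ n + 1 - q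
  · refine celD_sound hcd hrcd le_rfl hdm.ge (by omega) h1 ?_ ?_
    · push_cast
      linarith
    · rw [div_self hcd'.ne']
      push_cast
      linarith
  rw [not_le] at c1
  by_cases c3 : t + off ≤ n
  · -- full cells
    obtain ⟨k, hk1, hk2⟩ : ∃ k : ℤ, (k:ℝ) < t + off ∧ t + off ≤ k + 1 := by
      refine ⟨⌈t + off⌉ - 1, ?_, ?_⟩
      · have := Int.ceil_lt_add_one (t + off)
        push_cast
        linarith
      · have := Int.le_ceil (t + off)
        push_cast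
        linarith
    have k1 : (n:ℤ) + 1 - q ≤ k := by
      have : (n:ℝ) + 1 - q < k + 1 := by linarith
      have : ((n:ℤ) + 1 - q : ℤ) < k + 1 := by exact_mod_cast this
      omega
    have k2 : k < n := by
      have : (k:ℝ) < n := by linarith
      exact_mod_cast this
    obtain ⟨i, hi⟩ : ∃ i : ℕ, (i:ℤ) = k + q - (n + 1) := ⟨(k + q - (n + 1)).toNat, by omega⟩
    have hiq : i < Nat.pred q := by
      have : Nat.pred q = q - 1 := rfl
      omega
    have hj := (allN_iff _ _).1 h2 i hiq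
    have ej : ((Nat.add (Nat.succ n) i : ℕ) : ℤ) = k + q := by
      have : Nat.add (Nat.succ n) i = n + 1 + i := rfl
      rw [this]
      push_cast
      omega
    have ejr : (k:ℝ) = (((Nat.add (Nat.succ n) i : ℕ) : ℤ) - q - off : ℤ) + off := by
      rw [ej]
      push_cast
      ring
    have e1 : cd * (Nat.add (Nat.succ n) i) = cd * n + cd + cd * i := by
      have : Nat.add (Nat.succ n) i = n + 1 + i := rfl
      rw [this]
      ring
    have hiq' : i + 2 ≤ q := by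
      have : Nat.pred q = q - 1 := rfl
      omega
    have e2 : cd * (i + 2) ≤ cd * q := Nat.mul_le_mul_left _ hiq'
    have e3 : cd * (i + 2) = cd * i + cd + cd := by ring
    refine celD_sound hcd hcd le_rfl (by omega) (by omega) hj ?_ ?_
    · rw [Nat.cast_zero, zero_div, add_zero]
      linarith
    · rw [div_self hcd'.ne']
      linarith
  rw [not_le] at c3
  have hrpos : 0 < r := by
    rcases Nat.eq_zero_or_pos r with hz | hz
    · exfalso
      rw [hz, Nat.cast_zero, zero_div] at hc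
      linarith
    · exact hz
  have h3' : celD f q cN cd kp (Nat.add n q) 0 r = true := by
    rcases h3 with h3 | h3
    · have := Nat.eq_of_beq_eq_true h3
      omega
    · exact h3
  have e1 : cd * (Nat.add n q) = cd * n + cd * q := by
    have : Nat.add n q = n + q := rfl
    rw [this]
    ring
  have e2 : (((Nat.add n q : ℕ) : ℤ) : ℝ) = (n:ℝ) + q := by
    have : Nat.add n q = n + q := rfl
    rw [this]
    push_cast
    ring
  refine celD_sound hcd hrpos hrcd.le (by omega) (by omega) h3' ?_ ?_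
  · rw [Nat.cast_zero, zero_div, add_zero, Int.cast_sub, Int.cast_sub, e2]
    push_cast
    linarith
  · rw [Int.cast_sub, Int.cast_sub, e2]
    push_cast
    linarith

open MP61673a.Kink MP61673a.FE in
/-- the value at the threshold, inside its cell -/
lemma pl_thr {f : ℕ → ℕ} {cN cd : ℕ} {off : ℤ} (hcd : 0 < cd) :
    (cd:ℝ) * pl (fun m => (fZ f off m : ℝ)) ((cN:ℝ) / cd - off)
      = ((cd - cN % cd) * f (cN / cd) + (cN % cd) * f (cN / cd + 1) : ℕ) := by
  have hcd' : (0:ℝ) < cd := by exact_mod_cast hcd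
  have hrcd : cN % cd < cd := Nat.mod_lt _ hcd
  have hdm : cd * (cN / cd) + cN % cd = cN := Nat.div_add_mod cN cd
  generalize cN / cd = n at hdm ⊢
  generalize cN % cd = r at hdm hrcd ⊢
  have hc : (cN:ℝ) / cd = n + (r:ℝ) / cd := by
    rw [← hdm]
    push_cast
    field_simp
  have hr0 : (0:ℝ) ≤ (r:ℝ) / cd := by positivity
  have hr1 : (r:ℝ) / cd ≤ 1 := (div_le_one hcd').2 (by exact_mod_cast hrcd.le)
  have f1 : fZ f off ((n:ℤ) - off) = f n := by
    unfold fZ
    congr 1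
    omega
  have f2 : fZ f off ((n:ℤ) - off + 1) = f (n + 1) := by
    unfold fZ
    congr 1
    omega
  rw [hc, pl_of_mem _ (k := (n:ℤ) - off) (by push_cast; linarith) (by push_cast; linarith), f1, f2,
    Nat.cast_add, Nat.cast_mul, Nat.cast_mul, Nat.cast_sub hrcd.le]
  push_cast
  field_simp
  ring

section

open MP61673a.Kink MP61673a.FE

lemma pl_cst (c x : ℝ) : pl (fun _ => c) x = c := by
  unfold pl
  ring

lemma pl_dv (f : ℤ → ℝ) (k x : ℝ) : pl (fun m => f m / k) x = pl f x / k := by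
  unfold pl
  ring

lemma pl_sb (f : ℤ → ℝ) (O k x : ℝ) : pl (fun m => (O - f m) / k) x = (O - pl f x) / k := by
  unfold pl
  ring

lemma flr {cN cd : ℕ} (off : ℤ) (hcd : 0 < cd) :
    ((((cN / cd : ℕ) : ℤ) - off : ℤ) : ℝ) ≤ (cN:ℝ) / cd - off
      ∧ (cN:ℝ) / cd - off ≤ ((((cN / cd : ℕ) : ℤ) - off : ℤ) : ℝ) + 1 := by
  have hcd' : (0:ℝ) < cd := by exact_mod_cast hcd
  have h1 : ((cN / cd : ℕ) : ℝ) ≤ (cN:ℝ) / cd := by
    rw [le_div_iff₀ hcd']
    have : cN / cd * cd ≤ cN := Nat.div_mul_le_self cN cd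
    exact_mod_cast this
  have h2 : (cN:ℝ) / cd ≤ ((cN / cd : ℕ) : ℝ) + 1 := by
    rw [div_le_iff₀ hcd']
    have : cN ≤ (cN / cd + 1) * cd := by
      have e : (cN / cd + 1) * cd = cd * (cN / cd) + cd := by ring
      have hdm : cd * (cN / cd) + cN % cd = cN := Nat.div_add_mod cN cd
      have hr : cN % cd < cd := Nat.mod_lt _ hcd
      omega
    exact_mod_cast this
  rw [Int.cast_sub, Int.cast_natCast]
  exact ⟨by linarith, by linarith⟩

/-- COST TABLE from the integer check -/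
theorem xrF_sound {f : ℕ → ℕ} {q cN cd kp : ℕ} (off : ℤ) (h : xrF f q cN cd kp = true) :
    XR q ((cN:ℝ) / cd - off) (fun m => (fZ f off m : ℝ) / kp) := by
  unfold xrF at h
  simp only [Bool.and_eq_true] at h
  obtain ⟨⟨⟨⟨⟨h1, h2⟩, h3⟩, h4⟩, h5⟩, h6⟩ := h
  have hq : 1 ≤ q := Nat.le_of_ble_eq_true h1
  have hcd : 1 ≤ cd := Nat.le_of_ble_eq_true h2
  have hkp : 1 ≤ kp := Nat.le_of_ble_eq_true h3
  have h5' := Nat.le_of_ble_eq_true h5
  have hcd' : (0:ℝ) < cd := by exact_mod_cast hcd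
  have hkp' : (0:ℝ) < kp := by exact_mod_cast hkp
  have hn := (allN_iff _ _).1 h4
  have hdm : cd * (cN / cd) + cN % cd = cN := Nat.div_add_mod cN cd
  have hr : cN % cd < cd := Nat.mod_lt _ hcd
  obtain ⟨c1, c2⟩ := flr (cN := cN) off hcd
  have key : ∀ t : ℝ, t ≤ (cN:ℝ) / cd - off → (kp:ℝ) ≤ pl (fun m => (fZ f off m : ℝ)) t := by
    intro t ht
    have := pl_le_left (f := fun _ => (kp:ℝ)) (g := fun m => (fZ f off m : ℝ)) c1 c2
      (fun m hm => by
        have h7 := hn (m + off).toNat (by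
          show (m + off).toNat < cN / cd + 1
          clear h4 h5 h6 h5' hn hdm hr c1 c2
          generalize cN / cd = n at hm ⊢
          omega)
        have h8 := Nat.le_of_ble_eq_true h7
        exact_mod_cast h8) (by
        rw [pl_cst]
        have e := pl_thr (f := f) (cN := cN) (off := off) hcd
        have h9 : ((kp * cd : ℕ) : ℝ) ≤ ((cd - cN % cd) * f (cN / cd)
            + (cN % cd) * f (cN / cd + 1) : ℕ) := by exact_mod_cast h5'
        rw [← e] at h9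
        push_cast at h9
        nlinarith) ht
    rwa [pl_cst] at this
  refine XR.mk' hq (fun m => by positivity) (fun t ht => ?_) (fun t ht0 ht1 => ?_)
  · rw [pl_dv, le_div_iff₀ hkp', one_mul]
    exact key t ht
  · have k := celsB_sound (off := off) hcd hq h6 ht0 ht1
    rw [pl_dv, pl_dv, mul_div_assoc', mul_div_assoc', ← add_div, le_div_iff₀ hkp']
    linarith

/-- GAIN TABLE from the integer check -/
theorem xgF_sound {f : ℕ → ℕ} {L q cN cd kp O : ℕ} (off : ℤ) (hL : ∀ u, L ≤ u → f u = f L)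
    (h : xgF f L q cN cd kp O = true) :
    XG q ((cN:ℝ) / cd - off) (fun m => ((O:ℝ) - (fZ f off m : ℝ)) / kp) := by
  unfold xgF at h
  simp only [Bool.and_eq_true] at h
  obtain ⟨⟨⟨⟨⟨⟨h1, h2⟩, h3⟩, h4⟩, h4'⟩, h5⟩, h6⟩ := h
  have hq : 1 ≤ q := Nat.le_of_ble_eq_true h1
  have hcd : 1 ≤ cd := Nat.le_of_ble_eq_true h2
  have hkp : 1 ≤ kp := Nat.le_of_ble_eq_true h3
  have h5' := Nat.le_of_ble_eq_true h5
  have h4L := Nat.le_of_ble_eq_true h4'
  have hcd' : (0:ℝ) < cd := by exact_mod_cast hcd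
  have hkp' : (0:ℝ) < kp := by exact_mod_cast hkp
  have hn := (allN_iff _ _).1 h4
  have hA : ∀ u, O ≤ f u + kp := by
    intro u
    rcases le_total u L with c | c
    · have := hn u (Nat.lt_succ_of_le c)
      rw [Bool.and_eq_true] at this
      exact Nat.le_of_ble_eq_true this.1
    · rw [hL u c]
      omega
  have hB : ∀ u, cN / cd < u → O ≤ f u := by
    intro u hu
    rcases le_total u L with c | c
    · have := hn u (Nat.lt_succ_of_le c)
      rw [Bool.and_eq_true, Bool.or_eq_true] at this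
      rcases this.2 with h7 | h7
      · have : u ≤ cN / cd := Nat.le_of_ble_eq_true h7
        omega
      · exact Nat.le_of_ble_eq_true h7
    · rw [hL u c]
      exact h4L
  have hdm : cd * (cN / cd) + cN % cd = cN := Nat.div_add_mod cN cd
  have hr : cN % cd < cd := Nat.mod_lt _ hcd
  obtain ⟨c1, c2⟩ := flr (cN := cN) off hcd
  have key : ∀ t : ℝ, (cN:ℝ) / cd - off ≤ t → (O:ℝ) ≤ pl (fun m => (fZ f off m : ℝ)) t := by
    intro t ht
    have := pl_le_right (f := fun _ => (O:ℝ)) (g := fun m => (fZ f off m : ℝ)) c1 c2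
      (fun m hm => by
        have h7 := hB (m + off).toNat (by omega)
        exact_mod_cast h7) (by
        rw [pl_cst]
        have e := pl_thr (f := f) (cN := cN) (off := off) hcd
        have h9 : ((O * cd : ℕ) : ℝ) ≤ ((cd - cN % cd) * f (cN / cd)
            + (cN % cd) * f (cN / cd + 1) : ℕ) := by exact_mod_cast h5'
        rw [← e] at h9
        push_cast at h9
        nlinarith) ht
    rwa [pl_cst] at this
  refine XG.mk' hq (fun m => ?_) (fun t ht => ?_) (fun t ht0 ht1 => ?_)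
  · rw [div_le_one hkp']
    have := hA (m + off).toNat
    have h8 : (O:ℝ) ≤ (fZ f off m : ℝ) + kp := by exact_mod_cast this
    linarith
  · rw [pl_sb]
    exact div_nonpos_of_nonpos_of_nonneg (by linarith [key t ht]) hkp'.le
  · have k := celsB_sound (off := off) hcd hq h6 ht0 ht1
    rw [pl_sb, pl_sb, mul_div_assoc', mul_div_assoc', ← add_div]
    refine div_nonpos_of_nonpos_of_nonneg ?_ hkp'.le
    linarith

end

/-! ### The fixed tables of the row data -/

lemma dF_clamp (x rf L : ℕ) {u : ℕ} (h : L ≤ u) : dF x rf L u = dF x rf L L := by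
  unfold dF
  congr 1
  have e : ∀ v, ixF rf L v = if rf = 0 then v - (v - L) else L - v := by
    intro v
    have : ixF rf L v = Nat.rec (motive := fun _ => ℕ) (v - (v - L)) (fun _ _ => L - v) rf := rfl
    rw [this]
    split_ifs with c
    · rw [c]
      rfl
    · obtain ⟨k, hk⟩ : ∃ k, rf = k + 1 := ⟨rf - 1, by omega⟩
      rw [hk]
  rw [e, e]
  split_ifs <;> omega

/-- offset of the fixed table: digit `t + offG` -/
def offG (P : ℕ) (S : ℤ) (g : G3) : ℤ :=
  P + S + if g.ng = 0 then (g.m : ℤ) * S else (g.m : ℤ) * (P - S)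

/-- last digit of the fixed table -/
def lenG (P : ℕ) (g : G3) : ℕ := Nat.add (Nat.mul 3 P) (Nat.mul g.m P)

/-- the fixed table as a function on the integers, constant outside its range -/
def fT (P : ℕ) (S : ℤ) (g : G3) (x : ℕ) (t : ℤ) : ℕ := fZ (dF x 0 (lenG P g)) (offG P S g) t

/-- the own table of a sampler node, constant outside its range -/
def oT (P : ℕ) (S : ℤ) (w : ℕ) (m : ℤ) : ℕ := fZ (dF w 0 (3 * P)) (P + S) m

/-- the own midpoint table of a sampler node, constant outside its range -/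
def mT (P : ℕ) (S : ℤ) (w : ℕ) (m : ℤ) : ℕ := fZ (dF w 0 (2 * P)) (2 * S) m

lemma dF_zero {x L u : ℕ} (h : u ≤ L) : dF x 0 L u = dg x u := by
  have e : dF x 0 L u = dg x (u - (u - L)) := rfl
  rw [e]
  congr 1
  omega

lemma dF_one {x L u : ℕ} : dF x 1 L u = dg x (L - u) := rfl

/-- the reflected table -/
lemma fZ_refl (x L : ℕ) (off t : ℤ) (h : 0 ≤ (L:ℤ)) :
    fZ (dF x 1 L) (L - off) t = fZ (dF x 0 L) off (-t) := by
  have e1 : fZ (dF x 1 L) (L - off) t = dg x (L - (t + (L - off)).toNat) := rfl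
  have e2 : fZ (dF x 0 L) off (-t) = dg x ((-t + off).toNat - ((-t + off).toNat - L)) := rfl
  rw [e1, e2]
  congr 1
  omega

section

open MP61673a.Kink MP61673a.FE

/-- cost table, threshold `t ≤ cN / cd - offG` -/
theorem fT_XR {P : ℕ} {g : G3} {x cN cd kp : ℕ} (S : ℤ)
    (h : xrF (dF x 0 (lenG P g)) g.m cN cd kp = true) :
    XR g.m ((cN:ℝ) / cd - offG P S g) (fun t => (fT P S g x t : ℝ) / kp) :=
  xrF_sound (offG P S g) h

/-- reflected cost table -/
theorem fT_XR' {P : ℕ} {g : G3} {x cN cd kp : ℕ} (S : ℤ)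
    (h : xrF (dF x 1 (lenG P g)) g.m cN cd kp = true) :
    XR g.m ((cN:ℝ) / cd - ((lenG P g : ℤ) - offG P S g : ℤ))
      (fun t => (fT P S g x (-t) : ℝ) / kp) := by
  have k := xrF_sound ((lenG P g : ℤ) - offG P S g) h
  have e : (fun t => (fT P S g x (-t) : ℝ) / kp)
      = fun m => (fZ (dF x 1 (lenG P g)) ((lenG P g : ℤ) - offG P S g) m : ℝ) / kp := by
    funext t
    rw [fZ_refl _ _ _ _ (Int.natCast_nonneg _)]
    rfl
  rw [e]
  exact k

/-- gain table: `ψ = (O - table) / kp`, threshold `cN / cd - offG ≤ t` -/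
theorem fT_XG {P : ℕ} {g : G3} {x cN cd kp O : ℕ} (S : ℤ)
    (h : xgF (dF x 0 (lenG P g)) (lenG P g) g.m cN cd kp O = true) :
    XG g.m ((cN:ℝ) / cd - offG P S g) (fun t => ((O:ℝ) - (fT P S g x t : ℝ)) / kp) :=
  xgF_sound (f := dF x 0 (lenG P g)) (offG P S g) (fun _ hu => dF_clamp _ _ _ hu) h

/-- reflected gain table -/
theorem fT_XG' {P : ℕ} {g : G3} {x cN cd kp O : ℕ} (S : ℤ)
    (h : xgF (dF x 1 (lenG P g)) (lenG P g) g.m cN cd kp O = true) :
    XG g.m ((cN:ℝ) / cd - ((lenG P g : ℤ) - offG P S g : ℤ))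
      (fun t => ((O:ℝ) - (fT P S g x (-t) : ℝ)) / kp) := by
  have k := xgF_sound (f := dF x 1 (lenG P g)) ((lenG P g : ℤ) - offG P S g)
    (fun _ hu => dF_clamp _ _ _ hu) h
  have e : (fun t => ((O:ℝ) - (fT P S g x (-t) : ℝ)) / kp)
      = fun m => ((O:ℝ) - (fZ (dF x 1 (lenG P g)) ((lenG P g : ℤ) - offG P S g) m : ℝ)) / kp := by
    funext t
    rw [fZ_refl _ _ _ _ (Int.natCast_nonneg _)]
    rfl
  rw [e]
  exact k

end

/-! ### Label functions -/

noncomputable section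

/-- the fixed tables of the end table `k` of the class `c` -/
def gL (d : DatR) (c k : ℕ) : List G3 := (nth ⟨0, []⟩ (nth segD d.segs c).cb k).g

/-- the word of the own table `k` of the sampler node `z` -/
def wL (d : DatR) (S : ℤ) (z : ℕ × ℤ) (k : ℕ) : ℕ :=
  nth 0 (nth16 [] d.W (vT d.segs S z)) (nth ⟨0, []⟩ (nth segD d.segs z.1).cb k).w

/-- LABEL FUNCTION of the sampler node `z`, end table `k`, in digits -/
def LT (d : DatR) (S : ℤ) (z : ℕ × ℤ) (k : ℕ) (m : ℤ) : ℝ :=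
  (oT d.P S (wL d S z k) m : ℝ)
    + ((gL d z.1 k).map fun g => (fT d.P S g (nth 0 d.G g.ix) (m + g3p g * z.2) : ℝ)).sum

/-- MIDPOINT FUNCTION of the sampler node `z`, table `k`, in digits -/
def MT (d : DatR) (S : ℤ) (z : ℕ × ℤ) (k : ℕ) (m : ℤ) : ℝ := (mT d.P S (wL d S z k) m : ℝ)

/-- the node table with the label functions -/
def TL (d : DatR) (S : ℤ) (U : ℝ) (z a b : ℕ × ℤ) : ℝ :=
  (LT d S z (plE d.segs a.1 b.1).k1 (2 * b.2 - a.2)
    + MT d S z (plE d.segs a.1 b.1).km (a.2 + b.2) / 2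
    + ((dg d.ap (vT d.segs S z) : ℝ) - dg d.an (vT d.segs S z)) / 2
    + (d.fn.map fun f => ((dg f.lp (vT d.segs S z) : ℝ) - dg f.ln (vT d.segs S z))
        * (dg (nth16 0 f.mat (vT d.segs S a)) (vT d.segs S b) : ℝ)).sum / 2) / U

end

/-- position of a node -/
lemma pos_spec (d : DatR) (hc : CnsR d) (S : ℤ) {z : ℕ × ℤ}
    (hz : loR d.segs S z.1 ≤ z.2 ∧ z.2 ≤ hiR d.segs S z.1) : 0 ≤ z.2 + S ∧ z.2 + S ≤ d.P := by
  obtain ⟨z1, z2, _⟩ := vT_spec d.segs S z.1 z.2 hz.1 hz.2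
  have z1' : vT d.segs S z < vR d.segs := z1
  have z2' : (psR d.segs (vT d.segs S z) : ℤ) = z.2 + S := z2
  obtain ⟨_, _, s3, _, s5⟩ := sgR_eq d.segs z1'
  have := hc.hi _ s3
  omega

/-- the moved fixed table is inside its range -/
lemma gT_fT {P : ℕ} {S i m : ℤ} (g : G3) (x : ℕ) (h0 : 0 ≤ i + S) (hP : i + S ≤ P)
    (hm1 : m + S ≤ 2 * P) :
    gT P S g x (m + g3p g * i) = (fT P S g x (m + g3p g * i) : ℝ) := by
  obtain ⟨p, hp⟩ : ∃ p : ℕ, (p : ℤ) = i + S := ⟨(i + S).toNat, by omega⟩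
  have hpP : p ≤ P := by omega
  have hg : g3s P p g ≤ g.m * P := by
    rw [g3s_eq]
    split_ifs
    · exact Nat.mul_le_mul_left _ hpP
    · exact Nat.mul_le_mul_left _ (Nat.sub_le _ _)
  have hgi : (g3s P p g : ℤ) = g3p g * i + if g.ng = 0 then (g.m : ℤ) * S
      else (g.m : ℤ) * (P - S) := by
    rw [g3s_eq]
    unfold g3p
    by_cases h : g.ng = 0
    · rw [if_pos h, if_pos h, if_pos h, Nat.cast_mul, hp]
      ring
    · rw [if_neg h, if_neg h, if_neg h, Nat.cast_mul, Nat.cast_sub hpP, hp]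
      ring
  have e0 : m + g3p g * i + offG P S g = (m + P + S) + (g3s P p g : ℤ) := by
    rw [hgi]
    unfold offG
    ring
  have e1 : (fT P S g x (m + g3p g * i) : ℝ)
      = dg x (m + g3p g * i + offG P S g).toNat := by
    unfold fT fZ
    rw [dF_zero]
    have e2 : lenG P g = 3 * P + g.m * P := rfl
    rw [e2, e0]
    omega
  rw [e1]
  unfold gT offG
  congr 2
  ring_nf

/-- END TABLE = LABEL FUNCTION -/
theorem tvE_LT (d : DatR) (hb : BndR d) (hc : CnsR d) (S : ℤ) {z : ℕ × ℤ}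
    (hz : loR d.segs S z.1 ≤ z.2 ∧ z.2 ≤ hiR d.segs S z.1) (k : ℕ) {m : ℤ}
    (hm0 : 0 ≤ m + d.P + S) (hm1 : m + S ≤ 2 * d.P) : tvE d S z k m = LT d S z k m := by
  obtain ⟨p0, p1⟩ := pos_spec d hc S hz
  rw [tvE_eq d hb hc S hz k hm0]
  unfold LT
  congr 1
  · unfold oT fZ
    rw [dF_zero (by omega)]
    unfold wL
    congr 2
    ring_nf
  · unfold gL
    congr 1
    exact List.map_congr_left fun g _ => gT_fT g _ p0 p1 hm1

/-- MIDPOINT TABLE = MIDPOINT FUNCTION -/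
theorem tvM_MT (d : DatR) (hb : BndR d) (S : ℤ) {z : ℕ × ℤ}
    (hz : loR d.segs S z.1 ≤ z.2 ∧ z.2 ≤ hiR d.segs S z.1) (k : ℕ)
    (hk : gL d z.1 k = []) {m : ℤ} (hm1 : m + 2 * S ≤ 2 * d.P) :
    tvM d S z k m = MT d S z k m := by
  rw [tvM_eq d hb S hz k hk m]
  unfold MT mT fZ
  rw [dF_zero (by omega)]
  rfl

/-- NODE TABLE = TABLE OF THE LABEL FUNCTIONS -/
theorem TR_TL (d : DatR) (hb : BndR d) (hc : CnsR d) (S : ℤ) (U : ℝ) {z a b : ℕ × ℤ}
    (hz : loR d.segs S z.1 ≤ z.2 ∧ z.2 ≤ hiR d.segs S z.1)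
    (ha : loR d.segs S a.1 ≤ a.2 ∧ a.2 ≤ hiR d.segs S a.1)
    (hb' : loR d.segs S b.1 ≤ b.2 ∧ b.2 ≤ hiR d.segs S b.1)
    (hk : gL d z.1 (plE d.segs a.1 b.1).km = []) : TR d S U z a b = TL d S U z a b := by
  obtain ⟨a0, a1⟩ := pos_spec d hc S ha
  obtain ⟨b0, b1⟩ := pos_spec d hc S hb'
  unfold TR TL
  rw [tvE_LT d hb hc S hz _ (m := 2 * b.2 - a.2) (by omega) (by omega),
    tvM_MT d hb S hz _ hk (m := a.2 + b.2) (by omega)]

section

open MP61673a.Kink

lemma pl_shf (f : ℤ → ℝ) (j : ℤ) (x : ℝ) : pl (fun m => f (m + j)) x = pl f (x + j) := by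
  unfold pl
  rw [Int.floor_add_intCast, Int.fract_add_intCast]
  beta_reduce
  rw [show ⌊x⌋ + 1 + j = ⌊x⌋ + j + 1 by ring]

lemma pl_lsum (l : List G3) (F : G3 → ℤ → ℝ) (x : ℝ) :
    pl (fun m => (l.map fun g => F g m).sum) x = (l.map fun g => pl (F g) x).sum := by
  induction l with
  | nil => simp [pl]
  | cons g l ih =>
    simp only [List.map_cons, List.sum_cons]
    rw [pl_add, ih]

/-- the label function between the nodes -/
theorem pl_LT (d : DatR) (S : ℤ) (z : ℕ × ℤ) (k : ℕ) (Y : ℝ) :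
    pl (LT d S z k) Y = pl (fun m => (oT d.P S (wL d S z k) m : ℝ)) Y
      + ((gL d z.1 k).map fun g =>
          pl (fun t => (fT d.P S g (nth 0 d.G g.ix) t : ℝ)) (Y + g3p g * z.2)).sum := by
  unfold LT
  rw [pl_add, pl_lsum]
  congr 2
  refine List.map_congr_left fun g _ => ?_
  rw [pl_shf (fun t => (fT d.P S g (nth 0 d.G g.ix) t : ℝ)) (g3p g * z.2) Y]
  push_cast
  ring_nf

end

end MP61673a.KC
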