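import Pool.Agent.Mu673.GidW

/-!
The identity with the cap `T+1` instead of `K` (shifted frame of helper8, `ρ = σ = ε`):
labels at distance `≥ D - K + T + 1` cost nothing.
-/

namespace MP61673a.W

open Finset

noncomputable section

/-- the price of a label, cap `T+1` -/
def priceE (P Q : WS) (D K T ρ s : ℤ) : ℝ :=
  kap K T ρ s
    + (if s < D - K + (T + 1) then nn P (2 * max (s - (D - K)) 0 + 1 + ρ) else 0)
    - dd P Q (2 * K + 1 + ρ + 2 * s)

/-- all terms of one side except the main term and the waste, cap `T+1` -/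
def side0E (P Q : WS) (D K T ρ : ℤ) : ℝ :=
  (T + 1 + nn P (1 + ρ)) * (cc P Q 0 + nn Q (D + 1))
  - ∑ a ∈ P.S, ∑ b ∈ Q.S, P.f1 a * Q.f1 b * (if P.u a + 2 * Q.u b < 0 then
      dd P Q (2 * K + 1 + ρ + 2 * (P.u a + 2 * Q.u b)) else 0)
  + ∑ a ∈ P.S, ∑ b ∈ Q.S, (P.f a * Q.f b - P.f1 a * Q.f1 b) * (if 0 ≤ P.u a + 2 * Q.u b then
      dd P Q (2 * K + 1 + ρ + 2 * (P.u a + 2 * Q.u b)) else 0)
  + ∑ s ∈ Ico 0 D, qq Q (D - s) * dd P Q (2 * K + 1 + ρ + 2 * s)
  + (pp P ρ (fun y => dd P Q (D - K + min y (T + 1)))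
    - ∑ g ∈ Ico (T + 1) D, dd P Q (2 * K + 1 + ρ + 2 * g))
  + ∑ a ∈ P.S, ∑ a1 ∈ P.S, (if P.u a - 2 * P.u a1 < 1 + ρ then
      P.f a * P.f1 a1 * nn Q (K + 1 - yy P ρ a a1) else 0)
  + pp P ρ (fun y => nn Q (K + 1 - y) - nn Q (K + 1 - min y (T + 1)))

/-- the waste part of one side, cap `T+1` -/
def wasteE (P Q : WS) (D K T ρ : ℤ) : ℝ :=
  ∑ s ∈ Ico 0 D, (rr P Q s + qq Q (D - s) - 1) * priceE P Q D K T ρ s

/-- the waste differences over the pairs `(a,a1)`, cap `κ ≤ K` -/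
lemma sum_wdiffE (P Q : WS) {D K ρ κ : ℤ} (hκ : 0 ≤ κ) (hκK : κ ≤ K) (hKD : 2 * K ≤ D) :
    pp P ρ (fun y => ww P Q D (D - K + min y κ) - ww P Q D (min y κ))
      = ∑ s ∈ Ico 0 D, (rr P Q s + qq Q (D - s) - 1)
        * ((if s < D - K + κ then nn P (2 * max (s - (D - K)) 0 + 1 + ρ) else 0)
          - (if s < κ then nn P (2 * s + 1 + ρ) else 0)) := by
  have h1 : ∀ a ∈ P.S, ∀ a1 ∈ P.S, (if 1 + ρ ≤ P.u a - 2 * P.u a1 then P.f a * P.f1 a1 *
        (ww P Q D (D - K + min (yy P ρ a a1) κ) - ww P Q D (min (yy P ρ a a1) κ)) else 0)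
      = ∑ s ∈ Ico 0 D, (rr P Q s + qq Q (D - s) - 1)
          * (if 1 + ρ ≤ P.u a - 2 * P.u a1 ∧ min (yy P ρ a a1) κ ≤ s
              ∧ s < D - K + min (yy P ρ a a1) κ then P.f a * P.f1 a1 else 0) := by
    intro a _ a1 _
    by_cases c : 1 + ρ ≤ P.u a - 2 * P.u a1
    · rw [if_pos c]
      have hy : 0 ≤ min (yy P ρ a a1) κ := by unfold yy; omega
      have hy2 : min (yy P ρ a a1) κ ≤ κ := min_le_right _ _
      rw [← tele (fun x => ww P Q D x) (x := min (yy P ρ a a1) κ)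
        (y := D - K + min (yy P ρ a a1) κ) (D := D) hy (by omega) (by omega), mul_sum]
      refine sum_congr rfl fun s hs => ?_
      rw [ww_succ]
      by_cases c2 : min (yy P ρ a a1) κ ≤ s ∧ s < D - K + min (yy P ρ a a1) κ
      · rw [if_pos c2, if_pos ⟨c, c2⟩, mul_comm]
      · rw [if_neg c2, if_neg (by tauto), mul_zero, mul_zero]
    · rw [if_neg c]
      symm
      refine sum_eq_zero fun s _ => ?_
      rw [if_neg (by tauto), mul_zero]
  unfold pp
  rw [sum_congr rfl fun a ha => sum_congr rfl fun b hb => h1 a ha b hb, sum3_comm]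
  refine sum_congr rfl fun s hs => ?_
  rw [mem_Ico] at hs
  simp only [← mul_sum]
  congr 1
  unfold nn yy
  by_cases c0 : s < D - K + κ
  · rw [if_pos c0]
    split_ifs with c
    · simp only [← sum_sub_distrib]
      refine sum_congr rfl fun a _ => sum_congr rfl fun a1 _ => ?_
      split_ifs <;> first | omega | ring
    · rw [sub_zero]
      refine sum_congr rfl fun a _ => sum_congr rfl fun a1 _ => ?_
      split_ifs <;> first | omega | ring
  · rw [if_neg c0, if_neg (show ¬ s < κ by omega), sub_zero]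
    refine sum_eq_zero fun a _ => sum_eq_zero fun a1 _ => ?_
    rw [if_neg]
    omega

/-- one-sided identity, cap `T+1` -/
theorem one_sidedE (P Q : WS) {D K T ρ : ℤ}
    (hKD : 2 * K ≤ D) (hT : -1 ≤ T) (hTK : T < K)
    (hlab : ∀ a ∈ P.S, ∀ b ∈ Q.S, P.f a * Q.f b ≠ 0 →
      P.u a + 2 * Q.u b < 2 * K + 1 + ρ + 2 * D) :
    ∑ g ∈ Icc 0 T, (dd P Q (2 * K + 1 + ρ + 2 * g) - nn P (2 * g + 1 + ρ))
      = side0E P Q D K T ρ + wasteE P Q D K T ρ
        + nn P (1 + ρ) * (D - K - mass P * mass Q)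
        - (T + 1) * ww P Q D 0
        - ∑ s ∈ Ico 0 D, (rr P Q s + qq Q (D - s) - 1) * kap K T ρ s := by
  have r1 := regroup1 P Q K ρ
  have hκ0 : 0 ≤ T + 1 := by omega
  have hκK : T + 1 ≤ K := by omega
  have r2 := regroup2 P Q (K := T + 1) (ρ := ρ) hκ0
  -- split the pairs with doubled roles
  have s1 : ∑ a ∈ P.S, ∑ b ∈ Q.S, P.f1 a * Q.f1 b
        * dd P Q (2 * K + 1 + ρ + 2 * (P.u a + 2 * Q.u b))
      = ∑ a ∈ P.S, ∑ b ∈ Q.S, P.f1 a * Q.f1 b * (if P.u a + 2 * Q.u b < 0 then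
            dd P Q (2 * K + 1 + ρ + 2 * (P.u a + 2 * Q.u b)) else 0)
        + ∑ g ∈ Ico 0 D, rr P Q g * dd P Q (2 * K + 1 + ρ + 2 * g)
        - ∑ a ∈ P.S, ∑ b ∈ Q.S, (P.f a * Q.f b - P.f1 a * Q.f1 b)
            * (if 0 ≤ P.u a + 2 * Q.u b then
            dd P Q (2 * K + 1 + ρ + 2 * (P.u a + 2 * Q.u b)) else 0) := by
    have e1 : ∑ g ∈ Ico 0 D, rr P Q g * dd P Q (2 * K + 1 + ρ + 2 * g)
        = ∑ a ∈ P.S, ∑ b ∈ Q.S, P.f a * Q.f b * (if 0 ≤ P.u a + 2 * Q.u b then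
            dd P Q (2 * K + 1 + ρ + 2 * (P.u a + 2 * Q.u b)) else 0) := by
      rw [← sum_label P Q D (fun g => dd P Q (2 * K + 1 + ρ + 2 * g))]
      refine sum_congr rfl fun a _ => sum_congr rfl fun b _ => ?_
      congr 1
      by_cases c : 0 ≤ P.u a + 2 * Q.u b
      · by_cases c2 : P.u a + 2 * Q.u b < D
        · rw [if_pos ⟨c, c2⟩, if_pos c]
        · rw [if_neg (by tauto), if_pos c]
          symm
          unfold dd
          refine sum_eq_zero fun a' ha' => sum_eq_zero fun b' hb' => ?_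
          by_cases h0 : P.f a' * Q.f b' = 0
          · rw [h0, ite_self]
          · rw [if_neg]
            have := hlab a' ha' b' hb' h0
            omega
      · rw [if_neg (by tauto), if_neg c]
    rw [e1]
    simp only [← sum_sub_distrib, ← sum_add_distrib]
    refine sum_congr rfl fun a _ => sum_congr rfl fun b _ => ?_
    by_cases c : 0 ≤ P.u a + 2 * Q.u b
    · simp only [if_pos c, if_neg (not_lt.mpr c)]
      ring
    · simp only [if_neg c, if_pos (not_le.mp c)]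
      ring
  -- the other side of regrouping 2
  have s2 : ∑ p ∈ P.S, ∑ q ∈ Q.S, P.f p * Q.f q * (if P.u p + 2 * Q.u q < 0 then nn P (1 + ρ)
          else if P.u p + 2 * Q.u q < T + 1 then nn P (2 * (P.u p + 2 * Q.u q) + 1 + ρ) else 0)
      = cc P Q 0 * nn P (1 + ρ)
        + ∑ g ∈ Ico 0 D, rr P Q g * (if g < T + 1 then nn P (2 * g + 1 + ρ) else 0) := by
    rw [← sum_label P Q D (fun g => if g < T + 1 then nn P (2 * g + 1 + ρ) else 0)]
    unfold cc
    rw [sum_mul, ← sum_add_distrib]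
    refine sum_congr rfl fun a _ => ?_
    rw [sum_mul, ← sum_add_distrib]
    refine sum_congr rfl fun b _ => ?_
    by_cases c1 : P.u a + 2 * Q.u b < 0
    · rw [if_pos c1, if_pos c1, if_neg (by omega)]
      ring
    · rw [if_neg c1, if_neg c1]
      by_cases c2 : P.u a + 2 * Q.u b < T + 1
      · rw [if_pos c2, if_pos (by omega)]
        ring
      · rw [if_neg c2]
        split_ifs <;> ring
  -- the pairs of `P × P1`
  have s3 : ∑ a ∈ P.S, ∑ a1 ∈ P.S, P.f a * P.f1 a1 * nn Q (K + 1 - yy P ρ a a1)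
      - pp P ρ (fun y => cc P Q (min y (T + 1)))
      = ∑ a ∈ P.S, ∑ a1 ∈ P.S, (if P.u a - 2 * P.u a1 < 1 + ρ then
          P.f a * P.f1 a1 * nn Q (K + 1 - yy P ρ a a1) else 0)
        + pp P ρ (fun y => nn Q (K + 1 - y) - nn Q (K + 1 - min y (T + 1)))
        + nn P (1 + ρ) * (D - K - mass P * mass Q)
        + pp P ρ (fun y => dd P Q (D - K + min y (T + 1)))
        + pp P ρ (fun y => ww P Q D (D - K + min y (T + 1)) - ww P Q D (min y (T + 1)))
        + pp P ρ (fun y => nn Q (D + 1 - min y (T + 1))) := by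
    have e1 : nn P (1 + ρ) * (D - K - mass P * mass Q)
        = ∑ a ∈ P.S, ∑ a1 ∈ P.S, (if 1 + ρ ≤ P.u a - 2 * P.u a1 then
            P.f a * P.f1 a1 * (D - K - mass P * mass Q) else 0) := by
      unfold nn
      rw [sum_mul]
      refine sum_congr rfl fun a _ => ?_
      rw [sum_mul]
      refine sum_congr rfl fun b _ => ?_
      rw [ite_mul']
    rw [e1]
    unfold pp
    simp only [← sum_sub_distrib, ← sum_add_distrib]
    refine sum_congr rfl fun a _ => sum_congr rfl fun a1 _ => ?_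
    by_cases c : 1 + ρ ≤ P.u a - 2 * P.u a1
    · simp only [if_pos c]
      rw [if_neg (by omega)]
      have h1 := cc_add_dd P Q (D - K + min (yy P ρ a a1) (T + 1))
      unfold ww
      rw [show D + 1 - (D - K + min (yy P ρ a a1) (T + 1))
        = K + 1 - min (yy P ρ a a1) (T + 1) by ring]
      rw [show mass P * mass Q = cc P Q (D - K + min (yy P ρ a a1) (T + 1))
        + dd P Q (D - K + min (yy P ρ a a1) (T + 1)) from h1.symm]
      push_cast
      ring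
    · simp only [if_neg c]
      rw [if_pos (by omega)]
      ring
  have s4 := sum_last P Q (ρ := ρ) hκ0 (show T + 1 ≤ D by omega)
  have s5 := sum_wdiffE P Q (ρ := ρ) hκ0 hκK hKD
  -- algebra on the label sums
  have s6 : ∑ g ∈ Ico 0 D, rr P Q g * dd P Q (2 * K + 1 + ρ + 2 * g)
      - ∑ g ∈ Ico 0 D, rr P Q g * (if g < T + 1 then nn P (2 * g + 1 + ρ) else 0)
      = ∑ g ∈ Ico 0 D, (rr P Q g + qq Q (D - g) - 1) * (dd P Q (2 * K + 1 + ρ + 2 * g)
          - (if g < T + 1 then nn P (2 * g + 1 + ρ) else 0))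
        - ∑ g ∈ Ico 0 D, qq Q (D - g) * dd P Q (2 * K + 1 + ρ + 2 * g)
        + ∑ g ∈ Ico 0 D, qq Q (D - g) * (if g < T + 1 then nn P (2 * g + 1 + ρ) else 0)
        + ∑ g ∈ Ico 0 D, (dd P Q (2 * K + 1 + ρ + 2 * g)
          - (if g < T + 1 then nn P (2 * g + 1 + ρ) else 0)) := by
    simp only [← sum_sub_distrib, ← sum_add_distrib]
    refine sum_congr rfl fun g _ => ?_
    ring
  have s7 : ∑ g ∈ Ico 0 D, (dd P Q (2 * K + 1 + ρ + 2 * g)
          - (if g < T + 1 then nn P (2 * g + 1 + ρ) else 0))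
      = ∑ g ∈ Icc 0 T, (dd P Q (2 * K + 1 + ρ + 2 * g) - nn P (2 * g + 1 + ρ))
        + ∑ g ∈ Ico (T + 1) D, dd P Q (2 * K + 1 + ρ + 2 * g) := by
    have e1 : Ico (0:ℤ) D = Icc 0 T ∪ Ico (T + 1) D := by
      ext g
      simp only [mem_union, mem_Ico, mem_Icc]
      omega
    have e2 : Disjoint (Icc (0:ℤ) T) (Ico (T + 1) D) := by
      rw [disjoint_left]
      intro g
      simp only [mem_Ico, mem_Icc]
      omega
    rw [e1, sum_union e2]
    congr 1
    · refine sum_congr rfl fun g hg => ?_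
      rw [mem_Icc] at hg
      rw [if_pos (by omega)]
    · refine sum_congr rfl fun g hg => ?_
      rw [mem_Ico] at hg
      rw [if_neg (by omega), sub_zero]
  have s8 : ∑ s ∈ Ico 0 D, (rr P Q s + qq Q (D - s) - 1) * priceE P Q D K T ρ s
      = ∑ s ∈ Ico 0 D, (rr P Q s + qq Q (D - s) - 1) * kap K T ρ s
        + ∑ s ∈ Ico 0 D, (rr P Q s + qq Q (D - s) - 1)
        * ((if s < D - K + (T + 1) then nn P (2 * max (s - (D - K)) 0 + 1 + ρ) else 0)
          - (if s < T + 1 then nn P (2 * s + 1 + ρ) else 0))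
        - ∑ g ∈ Ico 0 D, (rr P Q g + qq Q (D - g) - 1) * (dd P Q (2 * K + 1 + ρ + 2 * g)
          - (if g < T + 1 then nn P (2 * g + 1 + ρ) else 0)) := by
    simp only [← sum_sub_distrib, ← sum_add_distrib]
    refine sum_congr rfl fun g _ => ?_
    unfold priceE
    ring
  have s9 : (T + 1) * ww P Q D 0 = (T + 1) * (cc P Q 0 + nn Q (D + 1)) := by
    unfold ww
    rw [sub_zero, Int.cast_zero, sub_zero]
  unfold side0E wasteE
  linarith

/-- GENERAL IDENTITY, both sides, cap `T+1`. -/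
theorem gidE (P Q : WS) {D K T ρ σ : ℤ}
    (hK : 0 ≤ K) (hKD : 2 * K ≤ D) (hT : -1 ≤ T) (hTK : T < K) (hρ : 0 ≤ ρ) (hσ : 0 ≤ σ)
    (hD : D = 2 * T + 2 * K + 1 + ρ + σ)
    (hlab : ∀ a ∈ P.S, ∀ b ∈ Q.S, P.f a * Q.f b ≠ 0 →
      P.u a + 2 * Q.u b < 2 * K + 1 + ρ + 2 * D)
    (hlab' : ∀ a ∈ P.S, ∀ b ∈ Q.S, P.f a * Q.f b ≠ 0 →
      Q.u b + 2 * P.u a < 2 * K + 1 + σ + 2 * D) :
    (T + 1) * (D + 2 * K + 1 - 2 * (mass P * mass Q))
      + (D - K - mass P * mass Q) * (nn P (1 + ρ) + nn Q (1 + σ))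
      + side0E P Q D K T ρ + side0E Q P D K T σ
      + wasteE P Q D K T ρ + wasteE Q P D K T σ = 0 := by
  have h1 := one_sidedE P Q (ρ := ρ) hKD hT hTK hlab
  have h2 := one_sidedE Q P (ρ := σ) hKD hT hTK
    (fun b hb a ha h0 => hlab' a ha b hb (by rwa [mul_comm]))
  have w1 := sum_ww P Q (T := T) (D := D) hK hρ (by omega)
  have w2 := sum_ww Q P (T := T) (D := D) hK hσ (by omega)
  have hc : (((T + 1 : ℤ).toNat : ℕ) : ℝ) = T + 1 := by
    have h3 : (((T + 1 : ℤ).toNat : ℕ) : ℤ) = T + 1 := Int.toNat_of_nonneg (by omega)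
    exact_mod_cast h3
  rw [hc] at w1 w2
  have r2 := sum_reflect T (fun g => dd Q P (2 * K + 1 + σ + 2 * g) - nn Q (2 * g + 1 + σ))
  have r3 := sum_reflect T (fun g => ww Q P D (2 * K + 1 + σ + 2 * g))
  have m1 : ∑ g ∈ Icc 0 T, (dd P Q (2 * K + 1 + ρ + 2 * g) - nn P (2 * g + 1 + ρ))
      + ∑ g ∈ Icc 0 T, (dd Q P (2 * K + 1 + σ + 2 * (T - g)) - nn Q (2 * (T - g) + 1 + σ))
      = - ((T + 1) * (D + 2 * K + 1 - 2 * (mass P * mass Q)))
        - ∑ g ∈ Icc 0 T, ww P Q D (2 * K + 1 + ρ + 2 * g)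
        - ∑ g ∈ Icc 0 T, ww Q P D (2 * K + 1 + σ + 2 * (T - g)) := by
    have e1 : (T + 1) * (D + 2 * K + 1 - 2 * (mass P * mass Q))
        = ∑ g ∈ Icc 0 T, ((D:ℝ) + 2 * K + 1 - 2 * (mass P * mass Q)) := by
      rw [sum_const, Int.card_Icc, nsmul_eq_mul, sub_zero, hc]
    rw [e1]
    simp only [← sum_add_distrib, ← sum_sub_distrib, ← sum_neg_distrib]
    refine sum_congr rfl fun g _ => ?_
    have a1 := cc_add_dd P Q (2 * K + 1 + ρ + 2 * g)
    have a2 := cc_add_dd Q P (2 * K + 1 + σ + 2 * (T - g))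
    unfold ww
    rw [show D + 1 - (2 * K + 1 + ρ + 2 * g) = 2 * (T - g) + 1 + σ by rw [hD]; ring,
      show D + 1 - (2 * K + 1 + σ + 2 * (T - g)) = 2 * g + 1 + ρ by rw [hD]; ring]
    have a3 : mass Q * mass P = mass P * mass Q := by ring
    rw [a3] at a2
    have a4 : (D : ℝ) = 2 * T + 2 * K + 1 + ρ + σ := by exact_mod_cast hD
    rw [a4]
    push_cast
    linarith
  have a3 : mass Q * mass P = mass P * mass Q := by ring
  rw [a3] at h2
  linarith

end

end MP61673a.W
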