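import Mathlib

/-!
MP_61673a_co, GENERAL EXACT FOUR-FOLD IDENTITY, weighted and discrete
(helper75's count; general doubled-role weights = identity (GID) of helpers 61, 95).

A `WS` is a finite weighted family of integer positions `u a` with weights `f a`
(role of a single element) and `f1 a` (role of a doubled element).
`P`, `Q` are two such families (left part, mirrored right part). No hypothesis on the
positions (strays are negative) and none on the weights.
`K` is the free threshold, `ρ`, `σ` rounding parameters, `D = 2T + 2K + 1 + ρ + σ`.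
-/

namespace MP61673a.W

open Finset

noncomputable section

/-- weighted family: positions `u`, weights `f`, doubled-role weights `f1` -/
structure WS where
  ι : Type
  S : Finset ι
  u : ι → ℤ
  f : ι → ℝ
  f1 : ι → ℝ

/-- total mass -/
def mass (P : WS) : ℝ := ∑ a ∈ P.S, P.f a

/-- pairs with label `u a + 2 u b < x` -/
def cc (P Q : WS) (x : ℤ) : ℝ :=
  ∑ a ∈ P.S, ∑ b ∈ Q.S, if P.u a + 2 * Q.u b < x then P.f a * Q.f b else 0

/-- pairs with label `u a + 2 u b ≥ x` -/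
def dd (P Q : WS) (x : ℤ) : ℝ :=
  ∑ a ∈ P.S, ∑ b ∈ Q.S, if x ≤ P.u a + 2 * Q.u b then P.f a * Q.f b else 0

/-- pairs with label `u a + 2 u b = x` -/
def rr (P Q : WS) (x : ℤ) : ℝ :=
  ∑ a ∈ P.S, ∑ b ∈ Q.S, if P.u a + 2 * Q.u b = x then P.f a * Q.f b else 0

/-- pairs `(a,a1)`, `a1` doubled, with `u a - 2 u a1 ≥ j` -/
def nn (P : WS) (j : ℤ) : ℝ :=
  ∑ a ∈ P.S, ∑ a1 ∈ P.S, if j ≤ P.u a - 2 * P.u a1 then P.f a * P.f1 a1 else 0

/-- pairs `(a,a1)`, `a1` doubled, with `u a - 2 u a1 = j` -/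
def qq (P : WS) (j : ℤ) : ℝ :=
  ∑ a ∈ P.S, ∑ a1 ∈ P.S, if P.u a - 2 * P.u a1 = j then P.f a * P.f1 a1 else 0

/-- the rounded half of `u a - 2 u a1` -/
def yy (P : WS) (ρ : ℤ) (a a1 : P.ι) : ℤ := (P.u a - 2 * P.u a1 - ρ + 1) / 2

/-- sum over the pairs `(a,a1)` with `u a - 2 u a1 ≥ 1 + ρ`, weighted -/
def pp (P : WS) (ρ : ℤ) (F : ℤ → ℝ) : ℝ :=
  ∑ a ∈ P.S, ∑ a1 ∈ P.S,
    if 1 + ρ ≤ P.u a - 2 * P.u a1 then P.f a * P.f1 a1 * F (yy P ρ a a1) else 0

lemma ite_mul' (p : Prop) [Decidable p] (x c : ℝ) :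
    (if p then x else 0) * c = if p then x * c else 0 := by
  split_ifs <;> simp

lemma mul_ite' (p : Prop) [Decidable p] (x c : ℝ) :
    c * (if p then x else 0) = if p then c * x else 0 := by
  split_ifs <;> simp

lemma cc_add_dd (P Q : WS) (x : ℤ) : cc P Q x + dd P Q x = mass P * mass Q := by
  unfold cc dd mass
  rw [sum_mul_sum, ← sum_add_distrib]
  refine sum_congr rfl fun a _ => ?_
  rw [← sum_add_distrib]
  refine sum_congr rfl fun b _ => ?_
  split_ifs <;> first | omega | ring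

lemma cc_succ (P Q : WS) (x : ℤ) : cc P Q (x + 1) = cc P Q x + rr P Q x := by
  unfold cc rr
  rw [← sum_add_distrib]
  refine sum_congr rfl fun a _ => ?_
  rw [← sum_add_distrib]
  refine sum_congr rfl fun b _ => ?_
  split_ifs <;> first | omega | ring

lemma nn_succ (P : WS) (j : ℤ) : nn P j = nn P (j + 1) + qq P j := by
  unfold nn qq
  rw [← sum_add_distrib]
  refine sum_congr rfl fun a _ => ?_
  rw [← sum_add_distrib]
  refine sum_congr rfl fun b _ => ?_
  split_ifs <;> first | omega | ring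

/-- three sums: move the last one to the front -/
lemma sum3_comm {α β γ : Type} {A : Finset α} {B : Finset β} {C : Finset γ}
    (F : α → β → γ → ℝ) :
    ∑ a ∈ A, ∑ b ∈ B, ∑ c ∈ C, F a b c = ∑ c ∈ C, ∑ a ∈ A, ∑ b ∈ B, F a b c := by
  have h1 : ∀ a ∈ A, ∑ b ∈ B, ∑ c ∈ C, F a b c = ∑ c ∈ C, ∑ b ∈ B, F a b c := by
    intro a _
    rw [sum_comm]
  rw [sum_congr rfl h1, sum_comm]

/-- four sums: swap the first two with the last two -/
lemma sum4_comm {α β γ δ : Type} {A : Finset α} {B : Finset β} {C : Finset γ} {E : Finset δ}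
    (F : α → β → γ → δ → ℝ) :
    ∑ a ∈ A, ∑ b ∈ B, ∑ c ∈ C, ∑ d ∈ E, F a b c d
      = ∑ c ∈ C, ∑ d ∈ E, ∑ a ∈ A, ∑ b ∈ B, F a b c d := by
  rw [sum3_comm (fun a b c => ∑ d ∈ E, F a b c d)]
  refine sum_congr rfl fun c _ => ?_
  exact sum3_comm (fun a b d => F a b c d)

/-- regrouping 1: the associativity identity -/
lemma regroup1 (P Q : WS) (K ρ : ℤ) :
    ∑ a1 ∈ P.S, ∑ q ∈ Q.S, P.f1 a1 * Q.f1 q
        * dd P Q (2 * K + 1 + ρ + 2 * (P.u a1 + 2 * Q.u q))
      = ∑ a ∈ P.S, ∑ a1 ∈ P.S, P.f a * P.f1 a1 * nn Q (K + 1 - yy P ρ a a1) := by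
  have h1 : ∑ a1 ∈ P.S, ∑ q ∈ Q.S, P.f1 a1 * Q.f1 q
        * dd P Q (2 * K + 1 + ρ + 2 * (P.u a1 + 2 * Q.u q))
      = ∑ a1 ∈ P.S, ∑ q ∈ Q.S, ∑ a ∈ P.S, ∑ b ∈ Q.S,
        if 2 * K + 1 + ρ + 2 * (P.u a1 + 2 * Q.u q) ≤ P.u a + 2 * Q.u b then
          P.f1 a1 * Q.f1 q * (P.f a * Q.f b) else 0 := by
    refine sum_congr rfl fun a1 _ => sum_congr rfl fun q _ => ?_
    unfold dd
    rw [mul_sum]
    refine sum_congr rfl fun a _ => ?_
    rw [mul_sum]
    refine sum_congr rfl fun b _ => ?_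
    rw [mul_ite']
  have h2 : ∑ a ∈ P.S, ∑ a1 ∈ P.S, P.f a * P.f1 a1 * nn Q (K + 1 - yy P ρ a a1)
      = ∑ a ∈ P.S, ∑ a1 ∈ P.S, ∑ b ∈ Q.S, ∑ q ∈ Q.S,
        if 2 * K + 1 + ρ + 2 * (P.u a1 + 2 * Q.u q) ≤ P.u a + 2 * Q.u b then
          P.f1 a1 * Q.f1 q * (P.f a * Q.f b) else 0 := by
    refine sum_congr rfl fun a _ => sum_congr rfl fun a1 _ => ?_
    unfold nn yy
    rw [mul_sum]
    refine sum_congr rfl fun b _ => ?_
    rw [mul_sum]
    refine sum_congr rfl fun q _ => ?_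
    rw [mul_ite']
    split_ifs <;> first | omega | ring
  rw [h1, h2, sum_comm (s := P.S) (t := P.S)]
  refine sum_congr rfl fun a1 _ => ?_
  exact (sum3_comm (fun a b q => if 2 * K + 1 + ρ + 2 * (P.u a1 + 2 * Q.u q)
    ≤ P.u a + 2 * Q.u b then P.f1 a1 * Q.f1 q * (P.f a * Q.f b) else 0)).symm

/-- regrouping 2 -/
lemma regroup2 (P Q : WS) {K ρ : ℤ} (hK : 0 ≤ K) :
    pp P ρ (fun y => cc P Q (min y K))
      = ∑ p ∈ P.S, ∑ q ∈ Q.S, P.f p * Q.f q * (if P.u p + 2 * Q.u q < 0 then nn P (1 + ρ)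
          else if P.u p + 2 * Q.u q < K then nn P (2 * (P.u p + 2 * Q.u q) + 1 + ρ) else 0) := by
  have h1 : pp P ρ (fun y => cc P Q (min y K))
      = ∑ a ∈ P.S, ∑ a1 ∈ P.S, ∑ p ∈ P.S, ∑ q ∈ Q.S,
        if 1 + ρ ≤ P.u a - 2 * P.u a1 ∧ P.u p + 2 * Q.u q < min (yy P ρ a a1) K then
          P.f a * P.f1 a1 * (P.f p * Q.f q) else 0 := by
    unfold pp
    refine sum_congr rfl fun a _ => sum_congr rfl fun a1 _ => ?_
    unfold cc
    split_ifs with h
    · rw [mul_sum]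
      refine sum_congr rfl fun p _ => ?_
      rw [mul_sum]
      refine sum_congr rfl fun q _ => ?_
      rw [mul_ite']
      simp [h]
    · symm
      refine sum_eq_zero fun p _ => sum_eq_zero fun q _ => ?_
      simp [h]
  rw [h1, sum4_comm]
  refine sum_congr rfl fun p _ => sum_congr rfl fun q _ => ?_
  unfold nn yy
  split_ifs with h2 h3
  · rw [mul_sum]
    refine sum_congr rfl fun a _ => ?_
    rw [mul_sum]
    refine sum_congr rfl fun a1 _ => ?_
    rw [mul_ite']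
    split_ifs <;> first | omega | ring
  · rw [mul_sum]
    refine sum_congr rfl fun a _ => ?_
    rw [mul_sum]
    refine sum_congr rfl fun a1 _ => ?_
    rw [mul_ite']
    split_ifs <;> first | omega | ring
  · rw [mul_zero]
    refine sum_eq_zero fun a _ => sum_eq_zero fun a1 _ => ?_
    rw [if_neg]
    omega

/-- telescoping over a sub-interval of a fixed range -/
lemma tele (f : ℤ → ℝ) {x y D : ℤ} (hx : 0 ≤ x) (hxy : x ≤ y) (hy : y ≤ D) :
    ∑ s ∈ Ico 0 D, (if x ≤ s ∧ s < y then f (s + 1) - f s else 0) = f y - f x := by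
  have h1 : ∀ y, x ≤ y → y ≤ D →
      ∑ s ∈ Ico 0 D, (if x ≤ s ∧ s < y then f (s + 1) - f s else 0) = f y - f x := by
    intro y hy
    induction y, hy using Int.leInduction with
    | base =>
      intro _
      rw [sub_self]
      refine sum_eq_zero fun s _ => ?_
      rw [if_neg]
      omega
    | succ n hn ih =>
      intro h
      have h2 := ih (by omega)
      have h3 : ∑ s ∈ Ico 0 D, (if x ≤ s ∧ s < n + 1 then f (s + 1) - f s else 0)
          = ∑ s ∈ Ico 0 D, (if x ≤ s ∧ s < n then f (s + 1) - f s else 0)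
            + ∑ s ∈ Ico 0 D, (if s = n then f (s + 1) - f s else 0) := by
        rw [← sum_add_distrib]
        refine sum_congr rfl fun s _ => ?_
        by_cases c1 : s = n
        · subst c1
          rw [if_pos ⟨hn, by omega⟩, if_neg (by omega), if_pos rfl]
          ring
        · rw [if_neg c1]
          by_cases c2 : x ≤ s ∧ s < n
          · rw [if_pos c2, if_pos (by omega)]
            ring
          · rw [if_neg c2, if_neg (by omega)]
            ring
      rw [h3, h2, sum_ite_eq' (Ico 0 D) n (fun s => f (s + 1) - f s), if_pos]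
      · ring
      · rw [mem_Ico]
        omega
  exact h1 y hxy hy

/-- summing a function of the label over the pairs with label in `[0,D)` -/
lemma sum_label (P Q : WS) (D : ℤ) (F : ℤ → ℝ) :
    ∑ a ∈ P.S, ∑ b ∈ Q.S, P.f a * Q.f b * (if 0 ≤ P.u a + 2 * Q.u b ∧ P.u a + 2 * Q.u b < D
        then F (P.u a + 2 * Q.u b) else 0)
      = ∑ g ∈ Ico 0 D, rr P Q g * F g := by
  have h1 : ∀ a ∈ P.S, ∀ b ∈ Q.S,
      P.f a * Q.f b * (if 0 ≤ P.u a + 2 * Q.u b ∧ P.u a + 2 * Q.u b < D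
        then F (P.u a + 2 * Q.u b) else 0)
      = ∑ g ∈ Ico 0 D, (if P.u a + 2 * Q.u b = g then P.f a * Q.f b else 0) * F g := by
    intro a _ b _
    split_ifs with h
    · rw [sum_eq_single (P.u a + 2 * Q.u b)]
      · simp
      · intro g _ hg
        rw [if_neg (Ne.symm hg)]
        simp
      · intro hg
        exfalso
        apply hg
        rw [mem_Ico]
        exact h
    · rw [mul_zero]
      symm
      refine sum_eq_zero fun g hg => ?_
      rw [mem_Ico] at hg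
      rw [if_neg]
      · simp
      · intro h2
        apply h
        rw [h2]
        exact hg
  rw [sum_congr rfl fun a ha => sum_congr rfl fun b hb => h1 a ha b hb, sum3_comm]
  refine sum_congr rfl fun g _ => ?_
  unfold rr
  rw [sum_mul]
  refine sum_congr rfl fun a _ => ?_
  rw [sum_mul]

/-- the signed waste function of one side (no external representations) -/
def ww (P Q : WS) (D x : ℤ) : ℝ := cc P Q x + nn Q (D + 1 - x) - x

lemma ww_succ (P Q : WS) (D s : ℤ) :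
    ww P Q D (s + 1) - ww P Q D s = rr P Q s + qq Q (D - s) - 1 := by
  unfold ww
  rw [cc_succ, show D + 1 - (s + 1) = D - s by ring, nn_succ Q (D - s),
    show D - s + 1 = D + 1 - s by ring]
  push_cast
  ring

/-- number of `g` in `[0,T]` with `s < 2K+1+ρ+2g` -/
def kap (K T ρ s : ℤ) : ℝ := ∑ g ∈ Icc 0 T, if s < 2 * K + 1 + ρ + 2 * g then 1 else 0

/-- the price of a label -/
def price (P Q : WS) (D K T ρ s : ℤ) : ℝ :=
  kap K T ρ s + nn P (2 * max (s - (D - K)) 0 + 1 + ρ) - dd P Q (2 * K + 1 + ρ + 2 * s)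

/-- all terms of one side except the main term and the waste -/
def side0 (P Q : WS) (D K T ρ : ℤ) : ℝ :=
  (T + 1 + nn P (1 + ρ)) * (cc P Q 0 + nn Q (D + 1))
  - ∑ a ∈ P.S, ∑ b ∈ Q.S, P.f1 a * Q.f1 b * (if P.u a + 2 * Q.u b < 0 then
      dd P Q (2 * K + 1 + ρ + 2 * (P.u a + 2 * Q.u b)) else 0)
  + ∑ a ∈ P.S, ∑ b ∈ Q.S, (P.f a * Q.f b - P.f1 a * Q.f1 b) * (if 0 ≤ P.u a + 2 * Q.u b then
      dd P Q (2 * K + 1 + ρ + 2 * (P.u a + 2 * Q.u b)) else 0)
  + ∑ s ∈ Ico 0 D, qq Q (D - s) * dd P Q (2 * K + 1 + ρ + 2 * s)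
  + (pp P ρ (fun y => dd P Q (D - K + min y K))
    - ∑ g ∈ Ico (T + 1) D, dd P Q (2 * K + 1 + ρ + 2 * g)
    + ∑ g ∈ Ico (T + 1) K, nn P (2 * g + 1 + ρ))
  + ∑ a ∈ P.S, ∑ a1 ∈ P.S, (if P.u a - 2 * P.u a1 < 1 + ρ then
      P.f a * P.f1 a1 * nn Q (K + 1 - yy P ρ a a1) else 0)
  + pp P ρ (fun y => nn Q (K + 1 - y) - nn Q (K + 1 - min y K))

/-- the waste part of one side: `(multiplicity - 1)` times the price of the label -/
def waste (P Q : WS) (D K T ρ : ℤ) : ℝ :=
  ∑ s ∈ Ico 0 D, (rr P Q s + qq Q (D - s) - 1) * price P Q D K T ρ s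

lemma sum_ww (P Q : WS) {D K T ρ : ℤ} (hK : 0 ≤ K) (hρ : 0 ≤ ρ)
    (hx : 2 * K + 1 + ρ + 2 * T ≤ D) :
    ∑ g ∈ Icc 0 T, ww P Q D (2 * K + 1 + ρ + 2 * g)
      = ((T + 1 : ℤ).toNat : ℝ) * ww P Q D 0
        + ∑ s ∈ Ico 0 D, (rr P Q s + qq Q (D - s) - 1) * kap K T ρ s := by
  have h1 : ∀ g ∈ Icc (0:ℤ) T, ww P Q D (2 * K + 1 + ρ + 2 * g)
      = ww P Q D 0 + ∑ s ∈ Ico 0 D, (rr P Q s + qq Q (D - s) - 1)
          * (if s < 2 * K + 1 + ρ + 2 * g then 1 else 0) := by
    intro g hg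
    rw [mem_Icc] at hg
    have h2 := tele (fun x => ww P Q D x) (x := 0) (y := 2 * K + 1 + ρ + 2 * g) (D := D)
      le_rfl (by omega) (by omega)
    have h3 : ∑ s ∈ Ico 0 D, (rr P Q s + qq Q (D - s) - 1)
          * (if s < 2 * K + 1 + ρ + 2 * g then 1 else 0)
        = ∑ s ∈ Ico 0 D, (if 0 ≤ s ∧ s < 2 * K + 1 + ρ + 2 * g then
          ww P Q D (s + 1) - ww P Q D s else 0) := by
      refine sum_congr rfl fun s hs => ?_
      rw [mem_Ico] at hs
      rw [ww_succ]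
      by_cases c : s < 2 * K + 1 + ρ + 2 * g
      · rw [if_pos c, if_pos ⟨hs.1, c⟩, mul_one]
      · rw [if_neg c, if_neg (by omega), mul_zero]
    rw [h3]
    linarith
  rw [sum_congr rfl h1, sum_add_distrib, sum_const, Int.card_Icc, nsmul_eq_mul, sub_zero]
  congr 1
  rw [sum_comm]
  refine sum_congr rfl fun s _ => ?_
  unfold kap
  rw [mul_sum]

/-- the pairs `(a,a1)` with positive `y` and the last `nn` term -/
lemma sum_last (P Q : WS) {D K ρ : ℤ} (hK : 0 ≤ K) (hKD : K ≤ D) :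
    pp P ρ (fun y => nn Q (D + 1 - min y K))
      = nn P (1 + ρ) * nn Q (D + 1)
        + ∑ s ∈ Ico 0 D, qq Q (D - s) * (if s < K then nn P (2 * s + 1 + ρ) else 0) := by
  have h1 : ∀ a ∈ P.S, ∀ a1 ∈ P.S,
      (if 1 + ρ ≤ P.u a - 2 * P.u a1 then
        P.f a * P.f1 a1 * nn Q (D + 1 - min (yy P ρ a a1) K) else 0)
      = (if 1 + ρ ≤ P.u a - 2 * P.u a1 then P.f a * P.f1 a1 else 0) * nn Q (D + 1)
        + ∑ s ∈ Ico 0 D, qq Q (D - s)
          * (if 1 + ρ ≤ P.u a - 2 * P.u a1 ∧ s < min (yy P ρ a a1) K then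
              P.f a * P.f1 a1 else 0) := by
    intro a _ a1 _
    by_cases c : 1 + ρ ≤ P.u a - 2 * P.u a1
    · rw [if_pos c, if_pos c]
      have hy : 0 ≤ min (yy P ρ a a1) K := by unfold yy; omega
      have h2 := tele (fun x => nn Q (D + 1 - x)) (x := 0) (y := min (yy P ρ a a1) K) (D := D)
        le_rfl hy (le_trans (min_le_right _ _) hKD)
      have h3 : ∑ s ∈ Ico 0 D, qq Q (D - s)
            * (if 1 + ρ ≤ P.u a - 2 * P.u a1 ∧ s < min (yy P ρ a a1) K then
              P.f a * P.f1 a1 else 0)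
          = P.f a * P.f1 a1 * ∑ s ∈ Ico 0 D, (if 0 ≤ s ∧ s < min (yy P ρ a a1) K then
            nn Q (D + 1 - (s + 1)) - nn Q (D + 1 - s) else 0) := by
        rw [mul_sum]
        refine sum_congr rfl fun s hs => ?_
        rw [mem_Ico] at hs
        have h4 := nn_succ Q (D - s)
        rw [show D + 1 - (s + 1) = D - s by ring, show D + 1 - s = D - s + 1 by ring]
        by_cases c2 : s < min (yy P ρ a a1) K
        · rw [if_pos ⟨c, c2⟩, if_pos ⟨hs.1, c2⟩, h4]
          ring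
        · rw [if_neg (by tauto), if_neg (by tauto), mul_zero, mul_zero]
      rw [h3, h2, sub_zero]
      ring
    · rw [if_neg c, if_neg c, zero_mul, zero_add]
      symm
      refine sum_eq_zero fun s _ => ?_
      rw [if_neg (by tauto), mul_zero]
  unfold pp
  rw [sum_congr rfl fun a ha => sum_congr rfl fun b hb => h1 a ha b hb]
  simp only [sum_add_distrib]
  congr 1
  · unfold nn
    rw [sum_mul]
    refine sum_congr rfl fun a _ => ?_
    rw [sum_mul]
  · rw [sum3_comm]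
    refine sum_congr rfl fun s hs => ?_
    rw [mem_Ico] at hs
    simp only [← mul_sum]
    congr 1
    unfold nn yy
    split_ifs with c
    · refine sum_congr rfl fun a _ => sum_congr rfl fun a1 _ => ?_
      split_ifs <;> first | omega | rfl
    · refine sum_eq_zero fun a _ => sum_eq_zero fun a1 _ => ?_
      rw [if_neg]
      omega

/-- the waste differences over the pairs `(a,a1)` -/
lemma sum_wdiff (P Q : WS) {D K ρ : ℤ} (hK : 0 ≤ K) (hKD : 2 * K ≤ D) :
    pp P ρ (fun y => ww P Q D (D - K + min y K) - ww P Q D (min y K))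
      = ∑ s ∈ Ico 0 D, (rr P Q s + qq Q (D - s) - 1)
        * (nn P (2 * max (s - (D - K)) 0 + 1 + ρ)
          - (if s < K then nn P (2 * s + 1 + ρ) else 0)) := by
  have h1 : ∀ a ∈ P.S, ∀ a1 ∈ P.S, (if 1 + ρ ≤ P.u a - 2 * P.u a1 then P.f a * P.f1 a1 *
        (ww P Q D (D - K + min (yy P ρ a a1) K) - ww P Q D (min (yy P ρ a a1) K)) else 0)
      = ∑ s ∈ Ico 0 D, (rr P Q s + qq Q (D - s) - 1)
          * (if 1 + ρ ≤ P.u a - 2 * P.u a1 ∧ min (yy P ρ a a1) K ≤ s
              ∧ s < D - K + min (yy P ρ a a1) K then P.f a * P.f1 a1 else 0) := by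
    intro a _ a1 _
    by_cases c : 1 + ρ ≤ P.u a - 2 * P.u a1
    · rw [if_pos c]
      have hy : 0 ≤ min (yy P ρ a a1) K := by unfold yy; omega
      have hy2 : min (yy P ρ a a1) K ≤ K := min_le_right _ _
      rw [← tele (fun x => ww P Q D x) (x := min (yy P ρ a a1) K)
        (y := D - K + min (yy P ρ a a1) K) (D := D) hy (by omega) (by omega), mul_sum]
      refine sum_congr rfl fun s hs => ?_
      rw [ww_succ]
      by_cases c2 : min (yy P ρ a a1) K ≤ s ∧ s < D - K + min (yy P ρ a a1) K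
      · rw [if_pos c2, if_pos ⟨c, c2⟩, mul_comm]
      · rw [if_neg c2, if_neg (by tauto), mul_zero, mul_zero]
    · rw [if_neg c]
      symm
      refine sum_eq_zero fun s _ => ?_
      rw [if_neg (by tauto), mul_zero]
  unfold pp
  rw [sum_congr rfl fun a ha => sum_congr rfl fun b hb => h1 a ha b hb, sum3_comm]
  refine sum_congr rfl fun s hs => ?_
  rw [mem_Ico] at hs
  simp only [← mul_sum]
  congr 1
  unfold nn yy
  split_ifs with c
  · simp only [← sum_sub_distrib]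
    refine sum_congr rfl fun a _ => sum_congr rfl fun a1 _ => ?_
    split_ifs <;> first | omega | ring
  · rw [sub_zero]
    refine sum_congr rfl fun a _ => sum_congr rfl fun a1 _ => ?_
    split_ifs <;> first | omega | ring

/-- one-sided identity -/
theorem one_sided (P Q : WS) {D K T ρ : ℤ}
    (hK : 0 ≤ K) (hKD : 2 * K ≤ D) (hT : -1 ≤ T) (hTK : T < K)
    (hlab : ∀ a ∈ P.S, ∀ b ∈ Q.S, P.f a * Q.f b ≠ 0 →
      P.u a + 2 * Q.u b < 2 * K + 1 + ρ + 2 * D) :
    ∑ g ∈ Icc 0 T, (dd P Q (2 * K + 1 + ρ + 2 * g) - nn P (2 * g + 1 + ρ))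
      = side0 P Q D K T ρ + waste P Q D K T ρ
        + nn P (1 + ρ) * (D - K - mass P * mass Q)
        - (T + 1) * ww P Q D 0
        - ∑ s ∈ Ico 0 D, (rr P Q s + qq Q (D - s) - 1) * kap K T ρ s := by
  have r1 := regroup1 P Q K ρ
  have r2 := regroup2 P Q (K := K) (ρ := ρ) hK
  -- split the pairs with doubled roles
  have s1 : ∑ a ∈ P.S, ∑ b ∈ Q.S, P.f1 a * Q.f1 b
        * dd P Q (2 * K + 1 + ρ + 2 * (P.u a + 2 * Q.u b))
      = ∑ a ∈ P.S, ∑ b ∈ Q.S, P.f1 a * Q.f1 b * (if P.u a + 2 * Q.u b < 0 then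
            dd P Q (2 * K + 1 + ρ + 2 * (P.u a + 2 * Q.u b)) else 0)
        + ∑ g ∈ Ico 0 D, rr P Q g * dd P Q (2 * K + 1 + ρ + 2 * g)
        - ∑ a ∈ P.S, ∑ b ∈ Q.S, (P.f a * Q.f b - P.f1 a * Q.f1 b)
            * (if 0 ≤ P.u a + 2 * Q.u b then
            dd P Q (2 * K + 1 + ρ + 2 * (P.u a + 2 * Q.u b)) else 0) := by
    have e1 : ∑ g ∈ Ico 0 D, rr P Q g * dd P Q (2 * K + 1 + ρ + 2 * g)
        = ∑ a ∈ P.S, ∑ b ∈ Q.S, P.f a * Q.f b * (if 0 ≤ P.u a + 2 * Q.u b then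
            dd P Q (2 * K + 1 + ρ + 2 * (P.u a + 2 * Q.u b)) else 0) := by
      rw [← sum_label P Q D (fun g => dd P Q (2 * K + 1 + ρ + 2 * g))]
      refine sum_congr rfl fun a _ => sum_congr rfl fun b _ => ?_
      congr 1
      by_cases c : 0 ≤ P.u a + 2 * Q.u b
      · by_cases c2 : P.u a + 2 * Q.u b < D
        · rw [if_pos ⟨c, c2⟩, if_pos c]
        · rw [if_neg (by tauto), if_pos c]
          symm
          unfold dd
          refine sum_eq_zero fun a' ha' => sum_eq_zero fun b' hb' => ?_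
          by_cases h0 : P.f a' * Q.f b' = 0
          · rw [h0, ite_self]
          · rw [if_neg]
            have := hlab a' ha' b' hb' h0
            omega
      · rw [if_neg (by tauto), if_neg c]
    rw [e1]
    simp only [← sum_sub_distrib, ← sum_add_distrib]
    refine sum_congr rfl fun a _ => sum_congr rfl fun b _ => ?_
    by_cases c : 0 ≤ P.u a + 2 * Q.u b
    · simp only [if_pos c, if_neg (not_lt.mpr c)]
      ring
    · simp only [if_neg c, if_pos (not_le.mp c)]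
      ring
  -- the other side of regrouping 2
  have s2 : ∑ p ∈ P.S, ∑ q ∈ Q.S, P.f p * Q.f q * (if P.u p + 2 * Q.u q < 0 then nn P (1 + ρ)
          else if P.u p + 2 * Q.u q < K then nn P (2 * (P.u p + 2 * Q.u q) + 1 + ρ) else 0)
      = cc P Q 0 * nn P (1 + ρ)
        + ∑ g ∈ Ico 0 D, rr P Q g * (if g < K then nn P (2 * g + 1 + ρ) else 0) := by
    rw [← sum_label P Q D (fun g => if g < K then nn P (2 * g + 1 + ρ) else 0)]
    unfold cc
    rw [sum_mul, ← sum_add_distrib]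
    refine sum_congr rfl fun a _ => ?_
    rw [sum_mul, ← sum_add_distrib]
    refine sum_congr rfl fun b _ => ?_
    by_cases c1 : P.u a + 2 * Q.u b < 0
    · rw [if_pos c1, if_pos c1, if_neg (by omega)]
      ring
    · rw [if_neg c1, if_neg c1]
      by_cases c2 : P.u a + 2 * Q.u b < K
      · rw [if_pos c2, if_pos (by omega)]
        ring
      · rw [if_neg c2]
        split_ifs <;> ring
  -- the pairs of `P × P1`
  have s3 : ∑ a ∈ P.S, ∑ a1 ∈ P.S, P.f a * P.f1 a1 * nn Q (K + 1 - yy P ρ a a1)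
      - pp P ρ (fun y => cc P Q (min y K))
      = ∑ a ∈ P.S, ∑ a1 ∈ P.S, (if P.u a - 2 * P.u a1 < 1 + ρ then
          P.f a * P.f1 a1 * nn Q (K + 1 - yy P ρ a a1) else 0)
        + pp P ρ (fun y => nn Q (K + 1 - y) - nn Q (K + 1 - min y K))
        + nn P (1 + ρ) * (D - K - mass P * mass Q)
        + pp P ρ (fun y => dd P Q (D - K + min y K))
        + pp P ρ (fun y => ww P Q D (D - K + min y K) - ww P Q D (min y K))
        + pp P ρ (fun y => nn Q (D + 1 - min y K)) := by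
    have e1 : nn P (1 + ρ) * (D - K - mass P * mass Q)
        = ∑ a ∈ P.S, ∑ a1 ∈ P.S, (if 1 + ρ ≤ P.u a - 2 * P.u a1 then
            P.f a * P.f1 a1 * (D - K - mass P * mass Q) else 0) := by
      unfold nn
      rw [sum_mul]
      refine sum_congr rfl fun a _ => ?_
      rw [sum_mul]
      refine sum_congr rfl fun b _ => ?_
      rw [ite_mul']
    rw [e1]
    unfold pp
    simp only [← sum_sub_distrib, ← sum_add_distrib]
    refine sum_congr rfl fun a _ => sum_congr rfl fun a1 _ => ?_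
    by_cases c : 1 + ρ ≤ P.u a - 2 * P.u a1
    · simp only [if_pos c]
      rw [if_neg (by omega)]
      have h1 := cc_add_dd P Q (D - K + min (yy P ρ a a1) K)
      unfold ww
      rw [show D + 1 - (D - K + min (yy P ρ a a1) K) = K + 1 - min (yy P ρ a a1) K by ring]
      rw [show mass P * mass Q = cc P Q (D - K + min (yy P ρ a a1) K)
        + dd P Q (D - K + min (yy P ρ a a1) K) from h1.symm]
      push_cast
      ring
    · simp only [if_neg c]
      rw [if_pos (by omega)]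
      ring
  have s4 := sum_last P Q (ρ := ρ) hK (show K ≤ D by omega)
  have s5 := sum_wdiff P Q (ρ := ρ) hK hKD
  -- algebra on the label sums
  have s6 : ∑ g ∈ Ico 0 D, rr P Q g * dd P Q (2 * K + 1 + ρ + 2 * g)
      - ∑ g ∈ Ico 0 D, rr P Q g * (if g < K then nn P (2 * g + 1 + ρ) else 0)
      = ∑ g ∈ Ico 0 D, (rr P Q g + qq Q (D - g) - 1) * (dd P Q (2 * K + 1 + ρ + 2 * g)
          - (if g < K then nn P (2 * g + 1 + ρ) else 0))
        - ∑ g ∈ Ico 0 D, qq Q (D - g) * dd P Q (2 * K + 1 + ρ + 2 * g)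
        + ∑ g ∈ Ico 0 D, qq Q (D - g) * (if g < K then nn P (2 * g + 1 + ρ) else 0)
        + ∑ g ∈ Ico 0 D, (dd P Q (2 * K + 1 + ρ + 2 * g)
          - (if g < K then nn P (2 * g + 1 + ρ) else 0)) := by
    simp only [← sum_sub_distrib, ← sum_add_distrib]
    refine sum_congr rfl fun g _ => ?_
    ring
  have s7 : ∑ g ∈ Ico 0 D, (dd P Q (2 * K + 1 + ρ + 2 * g)
          - (if g < K then nn P (2 * g + 1 + ρ) else 0))
      = ∑ g ∈ Icc 0 T, (dd P Q (2 * K + 1 + ρ + 2 * g) - nn P (2 * g + 1 + ρ))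
        + ∑ g ∈ Ico (T + 1) D, dd P Q (2 * K + 1 + ρ + 2 * g)
        - ∑ g ∈ Ico (T + 1) K, nn P (2 * g + 1 + ρ) := by
    have e1 : Ico (0:ℤ) D = Icc 0 T ∪ Ico (T + 1) D := by
      ext g
      simp only [mem_union, mem_Ico, mem_Icc]
      omega
    have e2 : Disjoint (Icc (0:ℤ) T) (Ico (T + 1) D) := by
      rw [disjoint_left]
      intro g
      simp only [mem_Ico, mem_Icc]
      omega
    rw [e1, sum_union e2, add_sub_assoc]
    congr 1
    · refine sum_congr rfl fun g hg => ?_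
      rw [mem_Icc] at hg
      rw [if_pos (by omega)]
    · rw [sum_sub_distrib]
      congr 1
      have e3 : Ico (T + 1) K ⊆ Ico (T + 1) D := by
        intro g
        simp only [mem_Ico]
        omega
      rw [← sum_subset e3]
      · refine sum_congr rfl fun g hg => ?_
        rw [mem_Ico] at hg
        rw [if_pos (by omega)]
      · intro g hg hg2
        rw [mem_Ico] at hg hg2
        rw [if_neg (by omega)]
  have s8 : ∑ s ∈ Ico 0 D, (rr P Q s + qq Q (D - s) - 1) * price P Q D K T ρ s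
      = ∑ s ∈ Ico 0 D, (rr P Q s + qq Q (D - s) - 1) * kap K T ρ s
        + ∑ s ∈ Ico 0 D, (rr P Q s + qq Q (D - s) - 1)
        * (nn P (2 * max (s - (D - K)) 0 + 1 + ρ)
          - (if s < K then nn P (2 * s + 1 + ρ) else 0))
        - ∑ g ∈ Ico 0 D, (rr P Q g + qq Q (D - g) - 1) * (dd P Q (2 * K + 1 + ρ + 2 * g)
          - (if g < K then nn P (2 * g + 1 + ρ) else 0)) := by
    simp only [← sum_sub_distrib, ← sum_add_distrib]
    refine sum_congr rfl fun g _ => ?_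
    unfold price
    ring
  have s9 : (T + 1) * ww P Q D 0 = (T + 1) * (cc P Q 0 + nn Q (D + 1)) := by
    unfold ww
    rw [sub_zero, Int.cast_zero, sub_zero]
  unfold side0 waste
  linarith

lemma sum_reflect (T : ℤ) (f : ℤ → ℝ) :
    ∑ g ∈ Icc 0 T, f (T - g) = ∑ g ∈ Icc 0 T, f g := by
  refine sum_nbij' (fun g => T - g) (fun g => T - g) ?_ ?_ ?_ ?_ ?_
  · intro g hg; rw [mem_Icc] at hg ⊢; omega
  · intro g hg; rw [mem_Icc] at hg ⊢; omega
  · intro g _; ring
  · intro g _; ring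
  · intro g _; rfl

/-- GENERAL IDENTITY, both sides. -/
theorem gid (P Q : WS) {D K T ρ σ : ℤ}
    (hK : 0 ≤ K) (hKD : 2 * K ≤ D) (hT : -1 ≤ T) (hTK : T < K) (hρ : 0 ≤ ρ) (hσ : 0 ≤ σ)
    (hD : D = 2 * T + 2 * K + 1 + ρ + σ)
    (hlab : ∀ a ∈ P.S, ∀ b ∈ Q.S, P.f a * Q.f b ≠ 0 →
      P.u a + 2 * Q.u b < 2 * K + 1 + ρ + 2 * D)
    (hlab' : ∀ a ∈ P.S, ∀ b ∈ Q.S, P.f a * Q.f b ≠ 0 →
      Q.u b + 2 * P.u a < 2 * K + 1 + σ + 2 * D) :
    (T + 1) * (D + 2 * K + 1 - 2 * (mass P * mass Q))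
      + (D - K - mass P * mass Q) * (nn P (1 + ρ) + nn Q (1 + σ))
      + side0 P Q D K T ρ + side0 Q P D K T σ
      + waste P Q D K T ρ + waste Q P D K T σ = 0 := by
  have h1 := one_sided P Q (ρ := ρ) hK hKD hT hTK hlab
  have h2 := one_sided Q P (ρ := σ) hK hKD hT hTK
    (fun b hb a ha h0 => hlab' a ha b hb (by rwa [mul_comm]))
  have w1 := sum_ww P Q (T := T) (D := D) hK hρ (by omega)
  have w2 := sum_ww Q P (T := T) (D := D) hK hσ (by omega)
  have hc : (((T + 1 : ℤ).toNat : ℕ) : ℝ) = T + 1 := by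
    have h3 : (((T + 1 : ℤ).toNat : ℕ) : ℤ) = T + 1 := Int.toNat_of_nonneg (by omega)
    exact_mod_cast h3
  rw [hc] at w1 w2
  have r2 := sum_reflect T (fun g => dd Q P (2 * K + 1 + σ + 2 * g) - nn Q (2 * g + 1 + σ))
  have r3 := sum_reflect T (fun g => ww Q P D (2 * K + 1 + σ + 2 * g))
  have m1 : ∑ g ∈ Icc 0 T, (dd P Q (2 * K + 1 + ρ + 2 * g) - nn P (2 * g + 1 + ρ))
      + ∑ g ∈ Icc 0 T, (dd Q P (2 * K + 1 + σ + 2 * (T - g)) - nn Q (2 * (T - g) + 1 + σ))
      = - ((T + 1) * (D + 2 * K + 1 - 2 * (mass P * mass Q)))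
        - ∑ g ∈ Icc 0 T, ww P Q D (2 * K + 1 + ρ + 2 * g)
        - ∑ g ∈ Icc 0 T, ww Q P D (2 * K + 1 + σ + 2 * (T - g)) := by
    have e1 : (T + 1) * (D + 2 * K + 1 - 2 * (mass P * mass Q))
        = ∑ g ∈ Icc 0 T, ((D:ℝ) + 2 * K + 1 - 2 * (mass P * mass Q)) := by
      rw [sum_const, Int.card_Icc, nsmul_eq_mul, sub_zero, hc]
    rw [e1]
    simp only [← sum_add_distrib, ← sum_sub_distrib, ← sum_neg_distrib]
    refine sum_congr rfl fun g _ => ?_
    have a1 := cc_add_dd P Q (2 * K + 1 + ρ + 2 * g)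
    have a2 := cc_add_dd Q P (2 * K + 1 + σ + 2 * (T - g))
    unfold ww
    rw [show D + 1 - (2 * K + 1 + ρ + 2 * g) = 2 * (T - g) + 1 + σ by rw [hD]; ring,
      show D + 1 - (2 * K + 1 + σ + 2 * (T - g)) = 2 * g + 1 + ρ by rw [hD]; ring]
    have a3 : mass Q * mass P = mass P * mass Q := by ring
    rw [a3] at a2
    have a4 : (D : ℝ) = 2 * T + 2 * K + 1 + ρ + σ := by exact_mod_cast hD
    rw [a4]
    push_cast
    linarith
  have a3 : mass Q * mass P = mass P * mass Q := by ring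
  rw [a3] at h2
  linarith

/-! ## From sets of integers to the identity -/

/-- the left family: positions measured from `D` -/
def PP (A : Finset ℤ) (φ φ1 : ℤ → ℝ) (D : ℤ) : WS := ⟨ℤ, A, fun x => x - D, φ, φ1⟩

/-- the right family: positions measured from `2D`, to the left -/
def QQ (A : Finset ℤ) (φ ψ1 : ℤ → ℝ) (D : ℤ) : WS :=
  ⟨ℤ, A, fun x => 2 * D - x, fun x => 1 - φ x, ψ1⟩

/-- number of pairs with `2j - i = y` -/
def lab (A : Finset ℤ) (y : ℤ) : ℝ := ∑ i ∈ A, ∑ j ∈ A, if 2 * j - i = y then 1 else 0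

/-- exotic right labels: excluded centres, both elements left, reversed pairs -/
def extraR (A : Finset ℤ) (φ ψ1 : ℤ → ℝ) (D s : ℤ) : ℝ :=
  ∑ i ∈ A, ∑ j ∈ A, if 2 * j - i = 3 * D - s then
    (1 - φ i) * ((1 - φ j) - ψ1 j) + φ i * φ j + (1 - φ i) * φ j else 0

/-- exotic left labels -/
def extraL (A : Finset ℤ) (φ φ1 : ℤ → ℝ) (s : ℤ) : ℝ :=
  ∑ i ∈ A, ∑ j ∈ A, if 2 * j - i = s then
    φ i * (φ j - φ1 j) + (1 - φ i) * (1 - φ j) + φ i * (1 - φ j) else 0

lemma covR (A : Finset ℤ) (φ φ1 ψ1 : ℤ → ℝ) (D s : ℤ) :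
    rr (PP A φ φ1 D) (QQ A φ ψ1 D) s + qq (QQ A φ ψ1 D) (D - s) + extraR A φ ψ1 D s
      = lab A (3 * D - s) := by
  unfold rr qq extraR lab PP QQ
  simp only [← sum_add_distrib]
  refine sum_congr rfl fun i _ => sum_congr rfl fun j _ => ?_
  by_cases c : 2 * j - i = 3 * D - s
  · rw [if_pos (by linarith), if_pos (by linarith), if_pos c, if_pos c]
    ring
  · rw [if_neg (by intro h; apply c; linarith), if_neg (by intro h; apply c; linarith),
      if_neg c, if_neg c]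
    ring

lemma covL (A : Finset ℤ) (φ φ1 ψ1 : ℤ → ℝ) (D s : ℤ) :
    rr (QQ A φ ψ1 D) (PP A φ φ1 D) s + qq (PP A φ φ1 D) (D - s) + extraL A φ φ1 s
      = lab A s := by
  unfold rr qq extraL lab PP QQ
  simp only [← sum_add_distrib]
  refine sum_congr rfl fun i _ => sum_congr rfl fun j _ => ?_
  by_cases c : 2 * j - i = s
  · rw [if_pos (by linarith), if_pos (by linarith), if_pos c, if_pos c]
    ring
  · rw [if_neg (by intro h; apply c; linarith), if_neg (by intro h; apply c; linarith),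
      if_neg c, if_neg c]
    ring

lemma lab_nonneg (A : Finset ℤ) (y : ℤ) : 0 ≤ lab A y :=
  sum_nonneg fun _ _ => sum_nonneg fun _ _ => by split_ifs <;> norm_num

lemma one_le_lab {A : Finset ℤ} {y : ℤ} (h : ∃ i ∈ A, ∃ j ∈ A, 2 * j - i = y) :
    1 ≤ lab A y := by
  obtain ⟨i, hi, j, hj, h⟩ := h
  calc (1 : ℝ) = if 2 * j - i = y then 1 else 0 := by rw [if_pos h]
    _ ≤ ∑ j ∈ A, if 2 * j - i = y then (1 : ℝ) else 0 :=
        single_le_sum (f := fun j => if 2 * j - i = y then (1 : ℝ) else 0)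
          (fun _ _ => by split_ifs <;> norm_num) hj
    _ ≤ lab A y :=
        single_le_sum (f := fun i => ∑ j ∈ A, if 2 * j - i = y then (1 : ℝ) else 0)
          (fun _ _ => sum_nonneg fun _ _ => by split_ifs <;> norm_num) hi

lemma mass_add (A : Finset ℤ) (φ φ1 ψ1 : ℤ → ℝ) (D : ℤ) :
    mass (PP A φ φ1 D) + mass (QQ A φ ψ1 D) = A.card := by
  unfold mass PP QQ
  simp only [← sum_add_distrib]
  simp

end

end MP61673a.W
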