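import Pool.Agent.Mu673.RowDefs

set_option autoImplicit false

/-!
THE ROWS FROM A LIST OF CELLS. A cell is a triple `(m, a, b)`: depths `τ` with `a/m < τ/D ≤ b/m`.
The cells may overlap; `cellCov p q l`: they cover all depths beyond `p/q` (up to `1001/1000`,
beyond which there is no stray).
-/

namespace MP61673a.Fin

open Finset MP61673a.W MP61673a.LiftW MP61673a.Mids
open MP61673a.Lift hiding PP QQ

/-- no stray beyond `1001/1000 D` -/
lemma tailEx_top {N q p : ℤ} (hq : 0 < q) (h : 1001 * q ≤ 1000 * p) : TailEx N q p := by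
  refine ⟨3000, 0, ?_⟩
  intro P Q D K ρ V E ξR ξL env lo τ g1 g2 g3 g4 g6
  exfalso
  obtain ⟨x, hx, hf, _, hτ⟩ := g6
  have h1 := env.lQ x hx hf
  have hD := env.hD
  have hK0 := env.hK1
  have k : τ ≤ D + 11 := by omega
  have hD0 : 0 < D := by omega
  have e1 : 1001 * q * D ≤ 1000 * p * D := mul_le_mul_of_nonneg_right h hD0.le
  have e2 : q * τ ≤ q * (D + 11) := mul_le_mul_of_nonneg_left k hq.le
  have e4 : 0 < q * (D - 11000) := mul_pos hq (by omega)
  nlinarith

/-- the cells cover all depths beyond `p/q` -/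
def cellCov (p q : ℤ) : List (ℤ × ℤ × ℤ) → Bool
  | [] => decide (1001 * q ≤ 1000 * p)
  | c :: l => decide (0 < c.1 ∧ c.2.1 * q ≤ p * c.1) && cellCov c.2.2 c.1 l

theorem TailEx.of_list {N : ℤ} : ∀ (l : List (ℤ × ℤ × ℤ)) (p q : ℤ), 0 < q →
    cellCov p q l = true → (∀ c ∈ l, CellEx N c.1 c.2.1 c.2.2) → TailEx N q p := by
  intro l
  induction l with
  | nil =>
    intro p q hq h _
    exact tailEx_top hq (of_decide_eq_true h)
  | cons c l ih =>
    intro p q hq h hc
    obtain ⟨m, a, b⟩ := c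
    unfold cellCov at h
    rw [Bool.and_eq_true, decide_eq_true_eq] at h
    obtain ⟨⟨hm, ha⟩, h2⟩ := h
    obtain ⟨K1, C1, h1⟩ := hc _ List.mem_cons_self
    obtain ⟨K2, C2, ht⟩ := ih b m hm h2 (fun c hc' => hc c (List.mem_cons_of_mem _ hc'))
    dsimp only at h1 hm ha
    have h1' : RowCell (max K1 K2) (1 / 20) (max C1 C2) N m a b :=
      h1.mono (le_max_left _ _) le_rfl (le_max_left _ _)
    have ht' : RowTail (max K1 K2) (1 / 20) (max C1 C2) N m b :=
      ht.mono (le_max_right _ _) le_rfl (le_max_right _ _)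
    refine ⟨max K1 K2, max C1 C2, ?_⟩
    intro P Q D K ρ V E ξR ξL env lo τ g1 g2 g3 g4 g6
    by_cases hcase : m * τ ≤ b * D
    · refine h1' env lo τ g1 g2 g3 ?_ hcase g6
      have hD : 0 ≤ D := by
        have := env.hD
        have := env.hK1
        omega
      have e1 : a * q * D ≤ p * m * D := mul_le_mul_of_nonneg_right ha hD
      have e2 : m * (p * D) < m * (q * τ) := mul_lt_mul_of_pos_left g4 hm
      have e3 : q * (a * D) < q * (m * τ) := by nlinarith
      exact lt_of_mul_lt_mul_left e3 hq.le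
    · exact ht' env lo τ g1 g2 g3 (not_le.1 hcase) g6

/-- a cell in front of a tail, overlaps allowed -/
lemma TailEx.cons_le {N m a b q p : ℤ} (hq : 0 < q) (hm : 0 < m) (ha : a * q ≤ p * m)
    (h1 : CellEx N m a b) (h2 : TailEx N m b) : TailEx N q p := by
  obtain ⟨K1, C1, h1⟩ := h1
  obtain ⟨K2, C2, ht⟩ := h2
  have h1' : RowCell (max K1 K2) (1 / 20) (max C1 C2) N m a b :=
    h1.mono (le_max_left _ _) le_rfl (le_max_left _ _)
  have ht' : RowTail (max K1 K2) (1 / 20) (max C1 C2) N m b :=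
    ht.mono (le_max_right _ _) le_rfl (le_max_right _ _)
  refine ⟨max K1 K2, max C1 C2, ?_⟩
  intro P Q D K ρ V E ξR ξL env lo τ g1 g2 g3 g4 g6
  by_cases hcase : m * τ ≤ b * D
  · refine h1' env lo τ g1 g2 g3 ?_ hcase g6
    have hD : 0 ≤ D := by
      have := env.hD
      have := env.hK1
      omega
    have e1 : a * q * D ≤ p * m * D := mul_le_mul_of_nonneg_right ha hD
    have e2 : m * (p * D) < m * (q * τ) := mul_lt_mul_of_pos_left g4 hm
    have e3 : q * (a * D) < q * (m * τ) := by nlinarith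
    exact lt_of_mul_lt_mul_left e3 hq.le
  · exact ht' env lo τ g1 g2 g3 (not_le.1 hcase) g6

/-- a tail which begins earlier -/
lemma TailEx.weaken {N q p q' p' : ℤ} (hq : 0 < q) (hq' : 0 < q') (h : p' * q ≤ p * q')
    (ht : TailEx N q' p') : TailEx N q p := by
  obtain ⟨K1, C1, h1⟩ := ht
  refine ⟨K1, C1, ?_⟩
  intro P Q D K ρ V E ξR ξL env lo τ g1 g2 g3 g4 g6
  refine h1 env lo τ g1 g2 g3 ?_ g6
  have hD : 0 ≤ D := by
    have := env.hD
    have := env.hK1
    omega
  have e1 : p' * q * D ≤ p * q' * D := mul_le_mul_of_nonneg_right h hD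
  have e2 : q' * (p * D) < q' * (q * τ) := mul_lt_mul_of_pos_left g4 hq'
  have e3 : q * (p' * D) < q * (q' * τ) := by nlinarith
  exact lt_of_mul_lt_mul_left e3 hq.le

/-- the cells cover all depths beyond `p/q` up to `t.2/t.1`, where a tail begins -/
def cellCovT (t : ℤ × ℤ) (p q : ℤ) : List (ℤ × ℤ × ℤ) → Bool
  | [] => decide (0 < t.1 ∧ t.2 * q ≤ p * t.1)
  | c :: l => decide (0 < c.1 ∧ c.2.1 * q ≤ p * c.1) && cellCovT t c.2.2 c.1 l

theorem TailEx.of_listT {N : ℤ} {t : ℤ × ℤ} (ht : TailEx N t.1 t.2) :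
    ∀ (l : List (ℤ × ℤ × ℤ)) (p q : ℤ), 0 < q →
    cellCovT t p q l = true → (∀ c ∈ l, CellEx N c.1 c.2.1 c.2.2) → TailEx N q p := by
  intro l
  induction l with
  | nil =>
    intro p q hq h _
    have h' := of_decide_eq_true h
    exact TailEx.weaken hq h'.1 h'.2 ht
  | cons c l ih =>
    intro p q hq h hc
    obtain ⟨m, a, b⟩ := c
    unfold cellCovT at h
    rw [Bool.and_eq_true, decide_eq_true_eq] at h
    obtain ⟨⟨hm, ha⟩, h2⟩ := h
    exact TailEx.cons_le hq hm ha (hc _ List.mem_cons_self)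
      (ih b m hm h2 (fun c hc' => hc c (List.mem_cons_of_mem _ hc')))

end MP61673a.Fin
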