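import Pool.Agent.Mu673.RowsGlue
import Pool.Agent.Mu673.RowList

set_option autoImplicit false

/-!
THE THEOREM FROM A LIST OF CELLS `(m, a, b)`: depths `a/m < τ/D ≤ b/m`, from `D/40` on.
-/

namespace MP61673a.Fin

open Finset MP61673a.W MP61673a.LiftW MP61673a.Mids
open MP61673a.Lift hiding PP QQ

/-- THE THEOREM from a list of cells which covers all depths beyond `D/40` -/
theorem main_list (l : List (ℤ × ℤ × ℤ)) (hl : cellCov 1 40 l = true)
    (hc : ∀ N : ℤ, 122 ≤ N → ∀ c ∈ l, CellEx N c.1 c.2.1 c.2.2)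
    (n : ℕ) (A : Finset ℕ) (h : IsMaximalThreeFree n A) : n ≤ A.card ^ 2 :=
  main_rows (fun N hN => TailEx.of_list l 1 40 (by norm_num) hl (hc N hN)) n A h

/-- the same with a tail `t = (m, a)` at the end -/
theorem main_listT (t : ℤ × ℤ) (l : List (ℤ × ℤ × ℤ)) (hl : cellCovT t 1 40 l = true)
    (ht : ∀ N : ℤ, 122 ≤ N → TailEx N t.1 t.2)
    (hc : ∀ N : ℤ, 122 ≤ N → ∀ c ∈ l, CellEx N c.1 c.2.1 c.2.2)
    (n : ℕ) (A : Finset ℕ) (h : IsMaximalThreeFree n A) : n ≤ A.card ^ 2 :=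
  main_rows (fun N hN => TailEx.of_listT (ht N hN) l 1 40 (by norm_num) hl (hc N hN)) n A h

end MP61673a.Fin
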