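import Pool.Agent.Mu673.PW
import Pool.Agent.Mu673.Fin

/-!
The fully inclusive frame: the rest of the identity is at least the sum of the useless pairs minus
the crude prices of the exotic labels (pairs of one side, and blocks of midpoints).
-/

namespace MP61673a.Fin

open Finset MP61673a.W MP61673a.LiftW
open MP61673a.Lift hiding PP QQ

noncomputable section

/-- crude price of a label -/
def cprice (P : WS) (D K T ρ s : ℤ) : ℝ :=
  kap K T ρ s + nn P (2 * max (s - (D - K)) 0 + 1 + ρ)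

lemma price_le_cprice {P Q : WS} (hP : Good P) (hQ : Good Q) (D K T ρ s : ℤ) :
    price P Q D K T ρ s ≤ cprice P D K T ρ s := by
  unfold price cprice
  have := dd_nonneg hP hQ (2 * K + 1 + ρ + 2 * s)
  linarith

lemma cprice_nonneg {P : WS} (hP : Good P) (D K T ρ s : ℤ) : 0 ≤ cprice P D K T ρ s :=
  add_nonneg (kap_nonneg K T ρ s) (nn_nonneg hP _)

/-- the exotic labels `2D - (2 u b - u a)` of pairs of the same side -/
def xx (P : WS) (D : ℤ) (g : ℤ → ℝ) : ℝ :=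
  ∑ a ∈ P.S, ∑ b ∈ P.S, if 0 ≤ 2 * D - (2 * P.u b - P.u a) ∧ 2 * D - (2 * P.u b - P.u a) < D then
    P.f a * P.f b * g (2 * D - (2 * P.u b - P.u a)) else 0

/-- value of the useless pairs of one side -/
def UU (P Q : WS) (K T ρ : ℤ) : ℝ :=
  ∑ a ∈ P.S, ∑ b ∈ Q.S, P.f a * Q.f b * (if P.u a + 2 * Q.u b < 0 then
        T + 1 + nn P (1 + ρ) - KK P Q K ρ (P.u a) (Q.u b) else 0)

/-- the additional gains of one side -/
def GG (P Q : WS) (D K T ρ : ℤ) : ℝ :=
  ∑ a ∈ P.S, ∑ b ∈ Q.S, P.f a * Q.f b * (if 0 ≤ P.u a + 2 * Q.u b then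
            KC P Q K ρ (P.u a) (Q.u b) else 0)
      + (T + 1 + nn P (1 + ρ)) * nn Q (D + 1)
      + ∑ s ∈ Ico 0 D, qq Q (D - s) * dd P Q (2 * K + 1 + ρ + 2 * s)

lemma GG_nonneg {P Q : WS} (hP : Good P) (hQ : Good Q) (D K ρ : ℤ) {T : ℤ} (hT : -1 ≤ T) :
    0 ≤ GG P Q D K T ρ := by
  unfold GG
  have h1 : 0 ≤ ∑ a ∈ P.S, ∑ b ∈ Q.S, P.f a * Q.f b * (if 0 ≤ P.u a + 2 * Q.u b then
            KC P Q K ρ (P.u a) (Q.u b) else 0) :=
    sum_nonneg fun a ha => sum_nonneg fun b hb => mul_nonneg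
      (mul_nonneg (hP.f_nonneg a ha) (hQ.f_nonneg b hb)) (ite_nonneg' (KC_nonneg hP hQ _ _ _ _))
  have h2 : 0 ≤ (T + 1 + nn P (1 + ρ)) * nn Q (D + 1) := by
    have e1 := nn_nonneg hP (1 + ρ)
    have e2 := nn_nonneg hQ (D + 1)
    have e3 : (-1:ℝ) ≤ T := by exact_mod_cast hT
    exact mul_nonneg (by linarith) e2
  have h3 : 0 ≤ ∑ s ∈ Ico 0 D, qq Q (D - s) * dd P Q (2 * K + 1 + ρ + 2 * s) :=
    sum_nonneg fun s _ => mul_nonneg (qq_nonneg hQ _) (dd_nonneg hP hQ _)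
  linarith

/-- one side: `side0 + waste` from below, any external list `ξ` -/
theorem side_ge {P Q : WS} (hP : Good P) (hQ : Good Q) {D K T ρ σ L : ℤ} {ξ : ℤ → ℝ}
    (hT : -1 ≤ T) (hK : 0 ≤ K) (hD : D = 2 * T + 2 * K + 1 + ρ + σ) (hσ0 : 0 ≤ σ) (hσ : σ ≤ 2)
    (hPf : ∀ a ∈ P.S, P.f1 a = P.f a) (hQf : ∀ b ∈ Q.S, Q.f1 b = Q.f b)
    (hL : ∀ a ∈ P.S, ∀ b ∈ Q.S, P.f a * Q.f b ≠ 0 → P.u a + 2 * Q.u b ≤ L)
    (hL2 : L ≤ 2 * K + 2 + ρ + 2 * (2 * K + ρ)) (hM : 2 * K + ρ ≤ D - K)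
    (hcov : Covers P Q D ξ) (hξ : ∀ s, 0 ≤ s → s < D → 0 ≤ ξ s)
    (h0 : 0 ≤ price P Q D K T ρ 0) :
    UU P Q K T ρ + GG P Q D K T ρ
      + (nn P (1 + ρ) - ((L:ℝ) - D + σ) / 2) * dd P Q D
      - ∑ s ∈ Ico 0 D, ξ s * cprice P D K T ρ s
      ≤ side0 P Q D K T ρ + waste P Q D K T ρ := by
  have h1 := side0_ge (ρ := ρ) hP hQ hK hD hσ0 hσ hPf hQf hL
  have h2 := waste_ge (P := P) (Q := Q) (K := K) (T := T) (ρ := ρ) hcov
    (fun s hs _ => price_nonneg hP hQ hT h0 hM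
      (fun a ha b hb h => (hL a ha b hb h).trans hL2) hs)
  have h3 : ∑ s ∈ Ico 0 D, ξ s * price P Q D K T ρ s
      ≤ ∑ s ∈ Ico 0 D, ξ s * cprice P D K T ρ s := by
    refine sum_le_sum fun s hs => ?_
    rw [mem_Ico] at hs
    exact mul_le_mul_of_nonneg_left (price_le_cprice hP hQ _ _ _ _ _) (hξ s hs.1 hs.2)
  unfold UU GG
  linarith

/-- the exotic right labels in the inclusive frame -/
lemma sum_extraR (A : Finset ℤ) (D : ℤ) (φ1 : ℤ → ℝ) (g : ℤ → ℝ) :
    ∑ s ∈ Ico 0 D, extraR A (cut D) (fun x => 1 - cut D x) D s * g s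
      = xx (PP A (cut D) φ1 D) D g := by
  unfold extraR xx PP
  simp only
  have h1 : ∀ s ∈ Ico 0 D, (∑ i ∈ A, ∑ j ∈ A, if 2 * j - i = 3 * D - s then
      (1 - cut D i) * ((1 - cut D j) - (1 - cut D j)) + cut D i * cut D j
        + (1 - cut D i) * cut D j else 0) * g s
      = ∑ i ∈ A, ∑ j ∈ A, if s = 3 * D - (2 * j - i) then cut D i * cut D j * g s else 0 := by
    intro s hs
    rw [mem_Ico] at hs
    rw [sum_mul]
    refine sum_congr rfl fun i _ => ?_
    rw [sum_mul]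
    refine sum_congr rfl fun j _ => ?_
    by_cases c : s = 3 * D - (2 * j - i)
    · rw [if_pos (by omega), if_pos c]
      have h2 : (1 - cut D i) * cut D j = 0 := by
        unfold cut
        by_cases ci : 2 * i ≤ 3 * D
        · rw [if_pos ci]
          ring
        · by_cases cj : 2 * j ≤ 3 * D
          · exfalso
            omega
          · rw [if_neg cj]
            ring
      rw [h2]
      ring
    · rw [if_neg (by omega), if_neg c, zero_mul]
  rw [sum_congr rfl h1]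
  have h3 : ∀ F : ℤ → ℤ → ℤ → ℝ, ∑ s ∈ Ico 0 D, ∑ i ∈ A, ∑ j ∈ A, F s i j
      = ∑ i ∈ A, ∑ j ∈ A, ∑ s ∈ Ico 0 D, F s i j := by
    intro F
    rw [sum_comm]
    refine sum_congr rfl fun i _ => ?_
    rw [sum_comm]
  rw [h3]
  refine sum_congr rfl fun i _ => sum_congr rfl fun j _ => ?_
  rw [sum_ite_eq' (Ico 0 D) (3 * D - (2 * j - i)) (fun s => cut D i * cut D j * g s)]
  have e1 : 2 * D - (2 * (j - D) - (i - D)) = 3 * D - (2 * j - i) := by ring
  rw [e1]
  simp only [mem_Ico]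

/-- the exotic left labels in the inclusive frame -/
lemma sum_extraL (A : Finset ℤ) (D : ℤ) (ψ1 : ℤ → ℝ) (g : ℤ → ℝ) :
    ∑ s ∈ Ico 0 D, extraL A (cut D) (cut D) s * g s
      = xx (QQ A (cut D) ψ1 D) D g := by
  unfold extraL xx QQ
  simp only
  have h1 : ∀ s ∈ Ico 0 D, (∑ i ∈ A, ∑ j ∈ A, if 2 * j - i = s then
      cut D i * (cut D j - cut D j) + (1 - cut D i) * (1 - cut D j)
        + cut D i * (1 - cut D j) else 0) * g s
      = ∑ i ∈ A, ∑ j ∈ A, if s = 2 * j - i then (1 - cut D i) * (1 - cut D j) * g s else 0 := by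
    intro s hs
    rw [mem_Ico] at hs
    rw [sum_mul]
    refine sum_congr rfl fun i _ => ?_
    rw [sum_mul]
    refine sum_congr rfl fun j _ => ?_
    by_cases c : s = 2 * j - i
    · rw [if_pos (by omega), if_pos c]
      have h2 : cut D i * (1 - cut D j) = 0 := by
        unfold cut
        by_cases cj : 2 * j ≤ 3 * D
        · rw [if_pos cj]
          ring
        · by_cases ci : 2 * i ≤ 3 * D
          · exfalso
            omega
          · rw [if_neg ci]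
            ring
      rw [h2]
      ring
    · rw [if_neg (by omega), if_neg c, zero_mul]
  rw [sum_congr rfl h1]
  have h3 : ∀ F : ℤ → ℤ → ℤ → ℝ, ∑ s ∈ Ico 0 D, ∑ i ∈ A, ∑ j ∈ A, F s i j
      = ∑ i ∈ A, ∑ j ∈ A, ∑ s ∈ Ico 0 D, F s i j := by
    intro F
    rw [sum_comm]
    refine sum_congr rfl fun i _ => ?_
    rw [sum_comm]
  rw [h3]
  refine sum_congr rfl fun i _ => sum_congr rfl fun j _ => ?_
  rw [sum_ite_eq' (Ico 0 D) (2 * j - i) (fun s => (1 - cut D i) * (1 - cut D j) * g s)]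
  have e1 : 2 * D - (2 * (2 * D - j) - (2 * D - i)) = 2 * j - i := by ring
  rw [e1]
  simp only [mem_Ico]

lemma extraR_nonneg (A : Finset ℤ) (D s : ℤ) :
    0 ≤ extraR A (cut D) (fun x => 1 - cut D x) D s := by
  unfold extraR
  refine sum_nonneg fun i _ => sum_nonneg fun j _ => ?_
  have h1 := cut_nonneg D i
  have h2 := cut_nonneg D j
  have h3 := cut_le_one D i
  split_ifs
  · nlinarith [mul_nonneg h1 h2, mul_nonneg (sub_nonneg.2 h3) h2]
  · exact le_rfl

lemma extraL_nonneg (A : Finset ℤ) (D s : ℤ) : 0 ≤ extraL A (cut D) (cut D) s := by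
  unfold extraL
  refine sum_nonneg fun i _ => sum_nonneg fun j _ => ?_
  have h1 := cut_nonneg D i
  have h2 := cut_le_one D j
  have h3 := cut_le_one D i
  split_ifs
  · nlinarith [mul_nonneg h1 (sub_nonneg.2 h2), mul_nonneg (sub_nonneg.2 h3) (sub_nonneg.2 h2)]
  · exact le_rfl

/-- the left family in the inclusive frame -/
abbrev PI (A : Finset ℤ) (D : ℤ) : WS := PP A (cut D) (cut D) D

/-- the right family in the inclusive frame -/
abbrev QI (A : Finset ℤ) (D : ℤ) : WS := QQ A (cut D) (fun x => 1 - cut D x) D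

lemma goodPI (A : Finset ℤ) (D : ℤ) : Good (PI A D) := goodP (adm_cut D)

lemma goodQI (A : Finset ℤ) (D : ℤ) : Good (QI A D) := goodQ (adm_cut D)

/-- the value of all strays: everything of `rest`, in the inclusive frame, `D = 4K+1`,
`T = K-1`, `ρ = σ = 1`; the last two terms are the blocks of the midpoints -/
theorem rest_ge (A : Finset ℤ) (X : ℤ → Prop) {D K : ℤ} (hK : 1 ≤ K) (hD : D = 4 * K + 1)
    (hcov : Cov A X (3 * D + 1))
    (h0 : 0 ≤ price (PI A D) (QI A D) D K (K - 1) 1 0)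
    (h0' : 0 ≤ price (QI A D) (PI A D) D K (K - 1) 1 0) :
    UU (PI A D) (QI A D) K (K - 1) 1 + UU (QI A D) (PI A D) K (K - 1) 1
      + GG (PI A D) (QI A D) D K (K - 1) 1 + GG (QI A D) (PI A D) D K (K - 1) 1
      + (nn (PI A D) 2 - K) * dd (PI A D) (QI A D) D
      + (nn (QI A D) 2 - K) * dd (QI A D) (PI A D) D
      - xx (PI A D) D (cprice (PI A D) D K (K - 1) 1)
      - xx (QI A D) D (cprice (QI A D) D K (K - 1) 1)
      - ∑ s ∈ Ico 0 D, ind X (3 * D - s) * cprice (PI A D) D K (K - 1) 1 s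
      - ∑ s ∈ Ico 0 D, ind X s * cprice (QI A D) D K (K - 1) 1 s
      ≤ rest (PI A D) (QI A D) K := by
  have hl : ∀ a ∈ (PI A D).S, ∀ b ∈ (QI A D).S, (PI A D).f a * (QI A D).f b ≠ 0 →
      (PI A D).u a ≤ 2 * K ∧ (QI A D).u b ≤ 2 * K :=
    label_le (A := A) hD (cut D) (fun x => 1 - cut D x)
  have h1 := side_ge (P := PI A D) (Q := QI A D) (goodPI A D) (goodQI A D) (K := K) (T := K - 1)
    (ρ := 1) (σ := 1) (L := 6 * K) (D := D) (by omega) (by omega) (by omega) (by norm_num)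
    (by norm_num) (fun _ _ => rfl) (fun _ _ => rfl)
    (fun a ha b hb h => by have := hl a ha b hb h; omega) (by omega) (by omega)
    (coversR hcov (cut D) (cut D) (fun x => 1 - cut D x))
    (fun s _ _ => add_nonneg (extraR_nonneg A D s) (ind_nonneg X _)) h0
  have h2 := side_ge (P := QI A D) (Q := PI A D) (goodQI A D) (goodPI A D) (K := K) (T := K - 1)
    (ρ := 1) (σ := 1) (L := 6 * K) (D := D) (by omega) (by omega) (by omega) (by norm_num)
    (by norm_num) (fun _ _ => rfl) (fun _ _ => rfl)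
    (fun b hb a ha h => by have := hl a ha b hb (by rwa [mul_comm]); omega) (by omega) (by omega)
    (coversL hcov (cut D) (cut D) (fun x => 1 - cut D x))
    (fun s _ _ => add_nonneg (extraL_nonneg A D s) (ind_nonneg X _)) h0'
  have e1 : ((6 * K : ℤ) : ℝ) - (D : ℤ) + (1 : ℤ) = 2 * K := by
    rw [hD]
    push_cast
    ring
  have e2 := sum_extraR A D (cut D) (cprice (PI A D) D K (K - 1) 1)
  have e3 := sum_extraL A D (fun x => 1 - cut D x)
    (cprice (QI A D) D K (K - 1) 1)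
  have e4 : ∑ s ∈ Ico 0 D, (extraR A (cut D) (fun x => 1 - cut D x) D s + ind X (3 * D - s))
        * cprice (PI A D) D K (K - 1) 1 s
      = xx (PI A D) D (cprice (PI A D) D K (K - 1) 1)
        + ∑ s ∈ Ico 0 D, ind X (3 * D - s) * cprice (PI A D) D K (K - 1) 1 s := by
    rw [← e2, ← sum_add_distrib]
    refine sum_congr rfl fun s _ => ?_
    ring
  have e5 : ∑ s ∈ Ico 0 D, (extraL A (cut D) (cut D) s + ind X s)
        * cprice (QI A D) D K (K - 1) 1 s
      = xx (QI A D) D (cprice (QI A D) D K (K - 1) 1)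
        + ∑ s ∈ Ico 0 D, ind X s * cprice (QI A D) D K (K - 1) 1 s := by
    rw [← e3, ← sum_add_distrib]
    refine sum_congr rfl fun s _ => ?_
    ring
  rw [e1, e4] at h1
  rw [e1, e5] at h2
  rw [show (1:ℤ) + 1 = 2 by norm_num, show (2 * (K:ℝ)) / 2 = K by ring] at h1 h2
  unfold rest
  rw [← hD]
  linarith

/-- everything that has to be shown nonnegative (up to errors), in the inclusive frame -/
def psi (A : Finset ℤ) (X : ℤ → Prop) (D K : ℤ) : ℝ :=
  (mass (PI A D) - mass (QI A D)) ^ 2 / 4 * budget (PI A D) (QI A D) K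
      + UU (PI A D) (QI A D) K (K - 1) 1 + UU (QI A D) (PI A D) K (K - 1) 1
      + GG (PI A D) (QI A D) D K (K - 1) 1 + GG (QI A D) (PI A D) D K (K - 1) 1
      + (nn (PI A D) 2 - K) * dd (PI A D) (QI A D) D
      + (nn (QI A D) 2 - K) * dd (QI A D) (PI A D) D
      - xx (PI A D) D (cprice (PI A D) D K (K - 1) 1)
      - xx (QI A D) D (cprice (QI A D) D K (K - 1) 1)
      - ∑ s ∈ Ico 0 D, ind X (3 * D - s) * cprice (PI A D) D K (K - 1) 1 s
      - ∑ s ∈ Ico 0 D, ind X s * cprice (QI A D) D K (K - 1) 1 s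

/-- FINAL REDUCTION in the inclusive frame -/
theorem finish2 {n : ℕ} {A : Finset ℕ} (h : IsMaximalThreeFree n A) {C : ℝ} (t0 : ℕ)
    (hmain : A.card ^ 2 < n → ∀ t : ℕ, t0 ≤ t → ∀ D K : ℤ, 1 ≤ K → D = 4 * K + 1 →
      3 * D + 1 ≤ 4 ^ t * (n : ℤ) → 4 ^ t * (n : ℤ) ≤ 3 * D + 12 →
      Cov (liftN t (shift A)) (fun y => Mid (shift A) (y / 4 ^ t)) (3 * D + 1) →
      0 ≤ price (PI (liftN t (shift A)) D) (QI (liftN t (shift A)) D) D K (K - 1) 1 0 ∧
      0 ≤ price (QI (liftN t (shift A)) D) (PI (liftN t (shift A)) D) D K (K - 1) 1 0 ∧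
      -(C * 2 ^ t * budget (PI (liftN t (shift A)) D) (QI (liftN t (shift A)) D) K)
        ≤ psi (liftN t (shift A)) (fun y => Mid (shift A) (y / 4 ^ t)) D K) :
    n ≤ A.card ^ 2 := by
  refine finish h (C := C) t0 ?_
  intro hlt t ht D K hK hD h1 h2 hcov
  obtain ⟨p1, p2, h3⟩ := hmain hlt t ht D K hK hD h1 h2 hcov
  refine ⟨cut D, fun x => 1 - cut D x, adm_cut D, ?_⟩
  have h4 := rest_ge (liftN t (shift A)) _ hK hD hcov p1 p2
  unfold psi at h3
  refine le_trans ?_ h4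
  rw [add_mul]
  linarith

end

end MP61673a.Fin
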