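import Pool.Agent.Mu673.KCdef

/-!
Packed vectors: representation modulo `2^(40 m)`, digits, masks.
-/

set_option autoImplicit false

namespace MP61673a.KC

open Finset

lemma dg_eq (x c : ℕ) : dg x c = x / 2 ^ (40 * c) % 2 ^ 40 := by
  have h := Nat.and_two_pow_sub_one_eq_mod (x >>> (40 * c)) 40
  rw [← Nat.shiftRight_eq_div_pow]
  exact h

lemma shf_eq (x s : ℕ) : shf x s = x / 2 ^ (40 * s) := Nat.shiftRight_eq_div_pow _ _

lemma bp_eq (m : ℕ) : bp m = 2 ^ (40 * m) := rfl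

lemma dg_lt (x c : ℕ) : dg x c < 2 ^ 40 := by
  rw [dg_eq]
  exact Nat.mod_lt _ (by positivity)

lemma dg_zero (c : ℕ) : dg 0 c = 0 := by
  rw [dg_eq, Nat.zero_div, Nat.zero_mod]

lemma dg_shf (x s c : ℕ) : dg (shf x s) c = dg x (c + s) := by
  rw [dg_eq, dg_eq, shf_eq, Nat.div_div_eq_div_mul, ← pow_add, ← mul_add, add_comm s c]

/-- `X` represents the vector `t` modulo `2^(40 m)` -/
def Rp (m X : ℕ) (t : ℕ → ℤ) : Prop :=
  (X : ℤ) ≡ ∑ c ∈ range m, t c * 2 ^ (40 * c) [ZMOD 2 ^ (40 * m)]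

lemma mod_eq_sum (X m : ℕ) : X % 2 ^ (40 * m) = ∑ c ∈ range m, dg X c * 2 ^ (40 * c) := by
  induction m with
  | zero => simp [Nat.mod_one]
  | succ m ih =>
    rw [sum_range_succ, ← ih, show 40 * (m + 1) = 40 * m + 40 by ring, pow_add, Nat.mod_mul, dg_eq]
    ring

lemma Rp.self (m X : ℕ) : Rp m X (fun c => (dg X c : ℤ)) := by
  unfold Rp
  have h := mod_eq_sum X m
  have h2 : ((X % 2 ^ (40 * m) : ℕ) : ℤ) = ∑ c ∈ range m, (dg X c : ℤ) * 2 ^ (40 * c) := by
    rw [h]
    push_cast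
    rfl
  rw [← h2]
  push_cast
  exact (Int.mod_modEq _ _).symm

lemma Rp.congr {m X : ℕ} {t u : ℕ → ℤ} (h : Rp m X t) (e : ∀ c < m, t c = u c) : Rp m X u := by
  unfold Rp at *
  rw [sum_congr rfl fun c hc => by rw [← e c (mem_range.1 hc)]]
  exact h

lemma Rp.add {m X Y : ℕ} {t u : ℕ → ℤ} (h : Rp m X t) (k : Rp m Y u) :
    Rp m (Nat.add X Y) (fun c => t c + u c) := by
  unfold Rp at *
  have e : ((Nat.add X Y : ℕ) : ℤ) = X + Y := by
    show ((X + Y : ℕ) : ℤ) = X + Y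
    push_cast
    rfl
  rw [e]
  simp only [add_mul, sum_add_distrib]
  exact Int.ModEq.add h k

lemma Rp.mul {m X : ℕ} {t : ℕ → ℤ} (k : ℕ) (h : Rp m X t) :
    Rp m (Nat.mul k X) (fun c => (k : ℤ) * t c) := by
  unfold Rp at *
  have e : ((Nat.mul k X : ℕ) : ℤ) = k * X := by
    show ((k * X : ℕ) : ℤ) = k * X
    push_cast
    rfl
  rw [e]
  have e2 : ∑ c ∈ range m, (k : ℤ) * t c * 2 ^ (40 * c) = k * ∑ c ∈ range m, t c * 2 ^ (40 * c) := by
    rw [mul_sum]
    exact sum_congr rfl fun c _ => by ring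
  rw [e2]
  exact Int.ModEq.mul_left _ h

lemma Rp.zero (m : ℕ) : Rp m 0 (fun _ => 0) := by
  unfold Rp
  simp

lemma Rp.shf (m X s : ℕ) : Rp m (shf X s) (fun c => (dg X (c + s) : ℤ)) :=
  (Rp.self m (KC.shf X s)).congr fun c _ => by rw [dg_shf]

lemma Rp.cat (m X Y : ℕ) : Rp (2 * m) (cat m X Y)
    (fun c => if c < m then (dg X c : ℤ) else (dg Y (c - m) : ℤ)) := by
  unfold Rp
  have e : ((KC.cat m X Y : ℕ) : ℤ) = ((X % 2 ^ (40 * m) : ℕ) : ℤ) + 2 ^ (40 * m) * (Y : ℤ) := by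
    show ((X % (2 ^ (40 * m)) + 2 ^ (40 * m) * Y : ℕ) : ℤ) = _
    push_cast
    rfl
  rw [e, mod_eq_sum]
  have hY := Rp.self m Y
  unfold Rp at hY
  have h2 : (2:ℤ) ^ (40 * m) * (Y : ℤ) ≡ 2 ^ (40 * m) * ∑ c ∈ range m, (dg Y c : ℤ) * 2 ^ (40 * c)
      [ZMOD 2 ^ (40 * m) * 2 ^ (40 * m)] := Int.ModEq.mul_left' hY
  rw [← pow_add, show 40 * m + 40 * m = 40 * (2 * m) by ring] at h2
  have e2 : ∑ c ∈ range (2 * m), (if c < m then (dg X c : ℤ) else (dg Y (c - m) : ℤ))
        * 2 ^ (40 * c)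
      = ∑ c ∈ range m, (dg X c : ℤ) * 2 ^ (40 * c)
        + 2 ^ (40 * m) * ∑ c ∈ range m, (dg Y c : ℤ) * 2 ^ (40 * c) := by
    rw [two_mul m, sum_range_add, mul_sum]
    congr 1
    · refine sum_congr rfl fun c hc => ?_
      rw [if_pos (mem_range.1 hc)]
    · refine sum_congr rfl fun c _ => ?_
      rw [if_neg (by omega), Nat.add_sub_cancel_left, mul_add, pow_add]
      ring
  rw [e2]
  refine Int.ModEq.add ?_ h2
  push_cast
  exact Int.ModEq.refl _

lemma Rp.md {m X Y : ℕ} {t u : ℕ → ℤ} (h : Rp m X t) (k : Rp m Y u) :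
    Rp m (md m X Y) (fun c => t c - u c) := by
  unfold Rp at *
  have e : ((KC.md m X Y : ℕ) : ℤ) = ((X : ℤ) + (2 ^ (40 * m) - 1) * Y) % 2 ^ (40 * m) := by
    show (((X + (2 ^ (40 * m) - 1) * Y) % 2 ^ (40 * m) : ℕ) : ℤ) = _
    rw [Int.natCast_mod, Nat.cast_add, Nat.cast_mul, Nat.cast_sub Nat.one_le_two_pow]
    push_cast
    rfl
  rw [e]
  refine (Int.mod_modEq _ _).trans ?_
  have e2 : (X : ℤ) + (2 ^ (40 * m) - 1) * Y = (X - Y) + 2 ^ (40 * m) * Y := by ring
  rw [e2]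
  simp only [sub_mul, sum_sub_distrib]
  have h3 : ((X : ℤ) - Y) + 2 ^ (40 * m) * Y ≡ (X : ℤ) - Y [ZMOD 2 ^ (40 * m)] := by
    have : (2:ℤ) ^ (40 * m) * Y ≡ 0 [ZMOD 2 ^ (40 * m)] := by
      exact (Int.modEq_zero_iff_dvd).2 (Dvd.intro _ rfl)
    simpa only [add_zero] using Int.ModEq.add_left ((X : ℤ) - Y) this
  exact h3.trans (Int.ModEq.sub h k)

lemma rep_eq (m : ℕ) : rep m = ∑ c ∈ range m, 2 ^ (40 * c) := by
  have h : (∑ c ∈ range m, 2 ^ (40 * c)) * 1099511627775 = 2 ^ (40 * m) - 1 := by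
    induction m with
    | zero => simp
    | succ m ih =>
      rw [sum_range_succ, add_mul, ih, show 40 * (m + 1) = 40 * m + 40 by ring, pow_add]
      have : 1 ≤ 2 ^ (40 * m) := Nat.one_le_two_pow
      have e : (2:ℕ) ^ 40 = 1099511627776 := by norm_num
      rw [e]
      omega
  show (2 ^ (40 * m) - 1) / 1099511627775 = _
  rw [← h]
  exact Nat.mul_div_cancel _ (by norm_num)

lemma Rp.rep (m : ℕ) : Rp m (rep m) (fun _ => 1) := by
  unfold Rp
  rw [rep_eq]
  push_cast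
  simp only [one_mul]
  exact Int.ModEq.refl _

/-- uniqueness of digits -/
lemma digits_unique (m : ℕ) : ∀ (u v : ℕ → ℤ), (∀ c < m, 0 ≤ u c ∧ u c < 2 ^ 40) →
    (∀ c < m, 0 ≤ v c ∧ v c < 2 ^ 40) →
    (∑ c ∈ range m, u c * 2 ^ (40 * c) ≡ ∑ c ∈ range m, v c * 2 ^ (40 * c) [ZMOD 2 ^ (40 * m)]) →
    ∀ c < m, u c = v c := by
  induction m with
  | zero => intro _ _ _ _ _ c hc; omega
  | succ m ih =>
    intro u v hu hv h c hc
    rw [sum_range_succ', sum_range_succ'] at h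
    have eu : ∀ w : ℕ → ℤ, ∑ k ∈ range m, w (k + 1) * 2 ^ (40 * (k + 1))
        = 2 ^ 40 * ∑ k ∈ range m, w (k + 1) * 2 ^ (40 * k) := by
      intro w
      rw [mul_sum]
      refine sum_congr rfl fun k _ => ?_
      rw [mul_add, pow_add]
      ring
    rw [eu u, eu v] at h
    simp only [mul_zero, pow_zero, mul_one] at h
    have e40 : (2:ℤ) ^ (40 * (m + 1)) = 2 ^ 40 * 2 ^ (40 * m) := by
      rw [← pow_add]
      congr 1
      ring
    rw [e40] at h
    have h0 : u 0 = v 0 := by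
      have h1 : 2 ^ 40 * ∑ k ∈ range m, u (k + 1) * 2 ^ (40 * k) + u 0
          ≡ 2 ^ 40 * ∑ k ∈ range m, v (k + 1) * 2 ^ (40 * k) + v 0 [ZMOD 2 ^ 40] :=
        Int.ModEq.of_mul_right _ h
      have h2 : ∀ (w : ℤ) (x : ℤ), 2 ^ 40 * w + x ≡ x [ZMOD 2 ^ 40] := by
        intro w x
        have : (2:ℤ) ^ 40 * w ≡ 0 [ZMOD 2 ^ 40] := (Int.modEq_zero_iff_dvd).2 (Dvd.intro _ rfl)
        simpa only [zero_add] using Int.ModEq.add_right x this
      have h3 := (h2 _ _).symm.trans (h1.trans (h2 _ _))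
      have h4 : u 0 % 2 ^ 40 = v 0 % 2 ^ 40 := h3
      rw [Int.emod_eq_of_lt (hu 0 (by omega)).1 (hu 0 (by omega)).2,
        Int.emod_eq_of_lt (hv 0 (by omega)).1 (hv 0 (by omega)).2] at h4
      exact h4
    rw [h0] at h
    have h5 := Int.ModEq.add_right_cancel' _ h
    have h6 : ∑ k ∈ range m, u (k + 1) * 2 ^ (40 * k)
        ≡ ∑ k ∈ range m, v (k + 1) * 2 ^ (40 * k) [ZMOD 2 ^ (40 * m)] :=
      Int.ModEq.mul_left_cancel' (by positivity) h5
    rcases c with _ | c
    · exact h0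
    · exact ih (fun k => u (k + 1)) (fun k => v (k + 1)) (fun k hk => hu _ (by omega))
        (fun k hk => hv _ (by omega)) h6 c (by omega)

lemma Rp.dg {m X : ℕ} {t : ℕ → ℤ} (h : Rp m X t) (ht : ∀ c < m, 0 ≤ t c ∧ t c < 2 ^ 40)
    {c : ℕ} (hc : c < m) : (dg X c : ℤ) = t c := by
  refine digits_unique m (fun c => (KC.dg X c : ℤ)) t (fun c _ => ⟨by positivity, ?_⟩) ht ?_ c hc
  · have := dg_lt X c
    exact_mod_cast this
  · exact (Rp.self m X).symm.trans h

lemma dg_of_lt {x m c : ℕ} (h : x < 2 ^ (40 * m)) (hc : m ≤ c) : dg x c = 0 := by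
  rw [dg_eq, Nat.div_eq_of_lt, Nat.zero_mod]
  exact h.trans_le (Nat.pow_le_pow_right (by norm_num) (by omega))

/-- all digits of `x` are `< 2 ^ k` and there are at most `M` digits -/
def mask (k M x : ℕ) : Bool :=
  Nat.beq (Nat.land x (Nat.mul (Nat.sub (Nat.pow 2 k) 1) (rep M))) x

lemma mask_dg {k M x : ℕ} (hk : k ≤ 40) (h : mask k M x = true) (c : ℕ) : dg x c < 2 ^ k := by
  set y := Nat.mul (Nat.sub (Nat.pow 2 k) 1) (rep M) with hy
  have h1 : Nat.land x y = x := Nat.eq_of_beq_eq_true h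
  have h2 : dg (Nat.land x y) c ≤ dg y c := by
    show Nat.land (Nat.shiftRight (Nat.land x y) (40 * c)) 1099511627775
      ≤ Nat.land (Nat.shiftRight y (40 * c)) 1099511627775
    have e1 : (x &&& y) >>> (40 * c) = (x >>> (40 * c)) &&& (y >>> (40 * c)) :=
      Nat.shiftRight_and_distrib
    show ((x &&& y) >>> (40 * c)) &&& 1099511627775 ≤ (y >>> (40 * c)) &&& 1099511627775
    rw [e1, Nat.and_assoc]
    exact Nat.and_le_right
  rw [h1] at h2
  refine h2.trans_lt ?_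
  have h2k : (1:ℕ) ≤ 2 ^ k := Nat.one_le_two_pow
  have hkk : (2:ℕ) ^ k ≤ 2 ^ 40 := Nat.pow_le_pow_right (by norm_num) hk
  by_cases hc : c < M
  · have h3 : Rp M y (fun _ => ((2 ^ k - 1 : ℕ) : ℤ) * 1) := (Rp.rep M).mul (2 ^ k - 1)
    have hb : ((2 ^ k - 1 : ℕ) : ℤ) < 2 ^ 40 := by
      have : (2 ^ k - 1 : ℕ) < 2 ^ 40 := by omega
      exact_mod_cast this
    have h4 := h3.dg (fun c _ => ⟨by positivity, by simpa using hb⟩) hc
    have h5 : dg y c = 2 ^ k - 1 := by
      have h6 : (dg y c : ℤ) = ((2 ^ k - 1 : ℕ) : ℤ) := by rw [h4]; ring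
      exact_mod_cast h6
    rw [h5]
    omega
  · have h3 : y < 2 ^ (40 * M) := by
      have e1 : rep M * 1099511627775 ≤ 2 ^ (40 * M) - 1 := by
        show (2 ^ (40 * M) - 1) / 1099511627775 * 1099511627775 ≤ 2 ^ (40 * M) - 1
        exact Nat.div_mul_le_self _ _
      have e2 : y ≤ 1099511627775 * rep M := by
        show (2 ^ k - 1) * rep M ≤ 1099511627775 * rep M
        refine Nat.mul_le_mul_right _ ?_
        have : (2:ℕ) ^ 40 = 1099511627776 := by norm_num
        omega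
      have e3 : (1:ℕ) ≤ 2 ^ (40 * M) := Nat.one_le_two_pow
      rw [mul_comm] at e2
      omega
    rw [dg_of_lt h3 (by omega)]
    exact h2k

lemma allN_iff (n : ℕ) (p : ℕ → Bool) : allN n p = true ↔ ∀ k < n, p k = true := by
  induction n with
  | zero => simp [allN]
  | succ n ih =>
    have e : allN (n + 1) p = (p n && allN n p) := by
      show Bool.rec (motive := fun _ => Bool) false (allN n p) (p n) = _
      cases p n <;> rfl
    rw [e, Bool.and_eq_true, ih]
    constructor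
    · rintro ⟨h1, h2⟩ k hk
      rcases Nat.lt_succ_iff_lt_or_eq.1 hk with h | rfl
      · exact h2 k h
      · exact h1
    · intro h
      exact ⟨h n (by omega), fun k hk => h k (by omega)⟩

lemma allL_iff {α : Type} (l : List α) (p : α → Bool) :
    allL l p = true ↔ ∀ a ∈ l, p a = true := by
  induction l with
  | nil => simp [allL]
  | cons a l ih =>
    have e : allL (a :: l) p = (p a && allL l p) := by
      show Bool.rec (motive := fun _ => Bool) false (allL l p) (p a) = _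
      cases p a <;> rfl
    rw [e, Bool.and_eq_true, ih]
    simp

lemma nth_mem {α : Type} (d : α) (l : List α) (n : ℕ) : nth d l n ∈ l ∨ nth d l n = d := by
  induction l generalizing n with
  | nil => exact Or.inr rfl
  | cons a l ih =>
    rcases n with _ | n
    · exact Or.inl (List.mem_cons_self)
    · have e : nth d (a :: l) (n + 1) = nth d l n := rfl
      rw [e]
      rcases ih n with h | h
      · exact Or.inl (List.mem_cons_of_mem _ h)
      · exact Or.inr h

lemma sumL_eq {α : Type} (f : α → ℕ) (l : List α) : sumL f l = (l.map f).sum := by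
  induction l with
  | nil => rfl
  | cons a l ih =>
    have e : sumL f (a :: l) = f a + sumL f l := rfl
    rw [e, ih]
    simp

lemma mapL_eq (f : ℕ → ℕ) (l : List ℕ) : mapL f l = l.map f := by
  induction l with
  | nil => rfl
  | cons a l ih =>
    have e : mapL f (a :: l) = f a :: mapL f l := rfl
    rw [e, ih]
    rfl

lemma par0 (b x y : ℕ) (h : b % 2 = 0) : par b x y = x := by
  show Nat.rec (motive := fun _ => ℕ) x (fun _ _ => y) (b % 2) = x
  rw [h]
  rfl

lemma par1 (b x y : ℕ) (h : b % 2 = 1) : par b x y = y := by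
  show Nat.rec (motive := fun _ => ℕ) x (fun _ _ => y) (b % 2) = y
  rw [h]
  rfl

lemma Rp.sumL {α : Type} {m : ℕ} (f : α → ℕ) (t : α → ℕ → ℤ) (l : List α)
    (h : ∀ a ∈ l, Rp m (f a) (t a)) :
    Rp m (sumL f l) (fun c => (l.map fun a => t a c).sum) := by
  induction l with
  | nil => exact (Rp.zero m).congr fun c _ => by simp
  | cons a l ih =>
    have e : KC.sumL f (a :: l) = Nat.add (f a) (KC.sumL f l) := rfl
    rw [e]
    refine ((h a (List.mem_cons_self)).add (ih fun b hb => h b (List.mem_cons_of_mem _ hb))).congr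
      fun c _ => ?_
    simp

lemma sum_bounds {α : Type} (l : List α) (f : α → ℤ) {A B : ℤ} (h : ∀ a ∈ l, A ≤ f a ∧ f a ≤ B) :
    (l.length : ℤ) * A ≤ (l.map f).sum ∧ (l.map f).sum ≤ l.length * B := by
  induction l with
  | nil => simp
  | cons a l ih =>
    have h1 := h a List.mem_cons_self
    have h2 := ih fun b hb => h b (List.mem_cons_of_mem _ hb)
    simp only [List.map_cons, List.sum_cons, List.length_cons]
    push_cast
    constructor
    · nlinarith [h1.1, h2.1]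
    · nlinarith [h1.2, h2.2]

/-- the square part of a row -/
lemma Rp.sqrow {m b : ℕ} {l : List ℕ} {x y : ℕ} {X Y : ℕ → ℤ} (hb : b < m)
    (hl : l.length ≤ 64) (hd : ∀ p ∈ l, ∀ c, KC.dg p c < 2 ^ 15)
    (hx : Rp m x X) (hy : Rp m y Y) :
    Rp m (sqrow m b l x y) (fun c =>
      2 * (l.map fun p => ((KC.dg p b : ℤ) - 16384) * ((KC.dg p c : ℤ) - 16384)).sum
        + 137438953472 + X c - Y c) := by
  have h1 : Rp m (qs b l) (fun c => (l.map fun p => (KC.dg p b : ℤ) * (KC.dg p c : ℤ)).sum) :=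
    Rp.sumL _ _ l fun p _ => (Rp.self m p).mul (KC.dg p b)
  have h2 : Rp m (ps l) (fun c => (l.map fun p => (KC.dg p c : ℤ)).sum) :=
    Rp.sumL _ _ l fun p _ => Rp.self m p
  have h3 : ((KC.dg (ps l) b : ℕ) : ℤ) = (l.map fun p => (KC.dg p b : ℤ)).sum := by
    refine h2.dg (fun c _ => ?_) hb
    have hh := sum_bounds l (fun p => (KC.dg p c : ℤ)) (A := 0) (B := 2 ^ 15) (fun p hp => by
      have := hd p hp c
      constructor
      · positivity
      · exact_mod_cast this.le)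
    have hl' : (l.length : ℤ) ≤ 64 := by exact_mod_cast hl
    constructor
    · simpa using hh.1
    · refine hh.2.trans_lt ?_
      have : (l.length : ℤ) * 2 ^ 15 ≤ 64 * 2 ^ 15 := mul_le_mul_of_nonneg_right hl' (by norm_num)
      refine this.trans_lt (by norm_num)
  have hlen : len l = l.length := by
    unfold len
    rw [sumL_eq]
    simp
  have key := Rp.md (m := m)
    (((h1.mul 2).add ((Rp.rep m).mul (Nat.add 137438953472 (Nat.mul 536870912 (len l))))).add hx)
    (((((Rp.rep m).mul (KC.dg (ps l) b)).add h2).mul 32768).add hy)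
  -- the products in the definition
  have e1 : KC.sqrow m b l x y = KC.md m (Nat.add (Nat.add (Nat.mul 2 (qs b l))
      (Nat.mul (Nat.add 137438953472 (Nat.mul 536870912 (len l))) (KC.rep m))) x)
    (Nat.add (Nat.mul 32768 (Nat.add (Nat.mul (KC.dg (ps l) b) (KC.rep m)) (ps l))) y) := rfl
  rw [e1]
  refine key.congr fun c _ => ?_
  rw [h3, hlen]
  have e2 : ((Nat.add 137438953472 (Nat.mul 536870912 l.length) : ℕ) : ℤ)
      = 137438953472 + 536870912 * l.length := by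
    show ((137438953472 + 536870912 * l.length : ℕ) : ℤ) = _
    push_cast
    rfl
  rw [e2]
  have e3 : (l.map fun p => ((KC.dg p b : ℤ) - 16384) * ((KC.dg p c : ℤ) - 16384)).sum
      = (l.map fun p => (KC.dg p b : ℤ) * (KC.dg p c : ℤ)).sum
        - 16384 * ((l.map fun p => (KC.dg p b : ℤ)).sum + (l.map fun p => (KC.dg p c : ℤ)).sum)
        + 268435456 * l.length := by
    clear key h1 h2 h3 hx hy hlen e1 e2 hl hd
    induction l with
    | nil => simp
    | cons a l ih =>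
      simp only [List.map_cons, List.sum_cons, List.length_cons]
      rw [ih]
      push_cast
      ring
  rw [e3]
  push_cast
  ring

end MP61673a.KC
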