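import Pool.Agent.Mu673.KCbase

/-!
GENERIC kernel checker for degree three certificates: nodes `0, .., m - 1`, base rows given by any
packed natural numbers `pos z b`, `neg z b` (entry `c` = base cost of the sampler `z` at the pair
`(b, c)`), squares as lists of packed vectors (digit = value + 2^14).
-/

set_option autoImplicit false

namespace MP61673a.KC

open Finset

noncomputable section

/-- row `b` of the sampler `z`, plus the offset `2^37` -/
def Rg (m : ℕ) (sq : ℕ → List ℕ) (pos neg : ℕ → ℕ → ℕ) (z b : ℕ) : ℕ :=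
  sqrow m b (sq z) (pos z b) (neg z b)

/-- the triples `{a, b, c}` for fixed `a`, `b`; `x` = sum of the two rows -/
def innerg (m : ℕ) (sq : ℕ → List ℕ) (pos neg : ℕ → ℕ → ℕ) (a b x bd : ℕ) : Bool :=
  allN m (fun c => Nat.ble (Nat.add (dg (Rg m sq pos neg c a) b) (dg x c)) bd)

/-- all triples with `lo ≤ a < hi`, `b ≤ a`, all `c` -/
def genCheck (m : ℕ) (sq : ℕ → List ℕ) (pos neg : ℕ → ℕ → ℕ) (bd lo hi : ℕ) : Bool :=
  allN (Nat.sub hi lo) (fun a' => allN (Nat.succ (Nat.add lo a')) (fun b =>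
    innerg m sq pos neg (Nat.add lo a') b
      (Nat.add (Rg m sq pos neg (Nat.add lo a') b) (Rg m sq pos neg b (Nat.add lo a')))
      (Nat.add bd 412316860416)))

/-- the squares of the sampler `z` at the pair `(b, c)` -/
def SSg (sq : ℕ → List ℕ) (z b c : ℕ) : ℤ :=
  ((sq z).map fun p => ((dg p b : ℤ) - 16384) * ((dg p c : ℤ) - 16384)).sum

/-- size conditions of the squares -/
def bndg (m : ℕ) (sq : ℕ → List ℕ) : Bool :=
  allN m (fun z => Nat.ble (len (sq z)) 64 && allL (sq z) (mask 15 m))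

lemma bndg_sound {m : ℕ} {sq : ℕ → List ℕ} (h : bndg m sq = true) {z : ℕ} (hz : z < m) :
    (sq z).length ≤ 64 ∧ ∀ p ∈ sq z, ∀ c, dg p c < 2 ^ 15 := by
  have h1 := (allN_iff _ _).1 h z hz
  rw [Bool.and_eq_true] at h1
  constructor
  · have := Nat.le_of_ble_eq_true h1.1
    unfold KC.len at this
    rw [sumL_eq] at this
    simpa using this
  · intro p hp c
    exact mask_dg (by norm_num) ((allL_iff _ _).1 h1.2 p hp) c

/-- SOUNDNESS of the generic check: `X z b c`, `Y z b c` = the entries of the base rows -/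
theorem gen_sound {m : ℕ} {sq : ℕ → List ℕ} {pos neg : ℕ → ℕ → ℕ} {bd lo hi : ℕ}
    (hb : bndg m sq = true) (h : genCheck m sq pos neg bd lo hi = true) (hhi : hi ≤ m)
    {X Y : ℕ → ℕ → ℕ → ℤ}
    (hX : ∀ z < m, ∀ b < m, Rp m (pos z b) (X z b)) (hY : ∀ z < m, ∀ b < m, Rp m (neg z b) (Y z b))
    (bX : ∀ z < m, ∀ b < m, ∀ c < m, 0 ≤ X z b c ∧ X z b c ≤ 2 ^ 36)
    (bY : ∀ z < m, ∀ b < m, ∀ c < m, 0 ≤ Y z b c ∧ Y z b c ≤ 2 ^ 36)
    {a b c : ℕ} (ha : lo ≤ a) (ha' : a < hi) (hba : b ≤ a) (hc : c < m) :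
    (X a b c - Y a b c) + (X b a c - Y b a c) + (X c a b - Y c a b)
      + 2 * (SSg sq a b c + SSg sq b a c + SSg sq c a b) ≤ bd := by
  have ham : a < m := by omega
  have hbm : b < m := by omega
  unfold genCheck at h
  have h1 := (allN_iff _ _).1 h (a - lo) (by
    show a - lo < hi - lo
    omega)
  have ea : Nat.add lo (a - lo) = a := by
    show lo + (a - lo) = a
    omega
  rw [ea] at h1
  have h2 := (allN_iff _ _).1 h1 b (Nat.lt_succ_of_le hba)
  unfold innerg at h2
  have h3 : dg (Rg m sq pos neg c a) b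
      + dg (Nat.add (Rg m sq pos neg a b) (Rg m sq pos neg b a)) c ≤ bd + 412316860416 :=
    Nat.le_of_ble_eq_true ((allN_iff _ _).1 h2 c hc)
  have hR : ∀ z < m, ∀ b < m, Rp m (Rg m sq pos neg z b) (fun c =>
      2 * SSg sq z b c + 137438953472 + X z b c - Y z b c) := by
    intro z hz b hb'
    have := bndg_sound hb hz
    exact Rp.sqrow hb' this.1 this.2 (hX z hz b hb') (hY z hz b hb')
  have hB : ∀ z < m, ∀ b < m, ∀ c < m, 0 ≤ 2 * SSg sq z b c + 137438953472 + X z b c - Y z b c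
      ∧ 2 * SSg sq z b c + 137438953472 + X z b c - Y z b c < 2 ^ 39 := by
    intro z hz b hb' c hc
    have h4 := bndg_sound hb hz
    have hlen : ((sq z).length : ℤ) ≤ 64 := by exact_mod_cast h4.1
    have hlen0 : (0:ℤ) ≤ (sq z).length := by positivity
    have hh := sum_bounds (sq z) (fun p => ((dg p b : ℤ) - 16384) * ((dg p c : ℤ) - 16384))
      (A := -2 ^ 28) (B := 2 ^ 28) (fun p hp => by
        have h1 : ((dg p b : ℕ) : ℤ) < 32768 := by exact_mod_cast h4.2 p hp _
        have h2 : ((dg p c : ℕ) : ℤ) < 32768 := by exact_mod_cast h4.2 p hp _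
        have h3 : (0:ℤ) ≤ (dg p b : ℕ) := by positivity
        have h4 : (0:ℤ) ≤ (dg p c : ℕ) := by positivity
        constructor <;> nlinarith)
    have s1 : -2 ^ 34 ≤ SSg sq z b c := by
      unfold SSg
      refine le_trans ?_ hh.1
      nlinarith
    have s2 : SSg sq z b c ≤ 2 ^ 34 := by
      unfold SSg
      refine hh.2.trans ?_
      nlinarith
    have x1 := bX z hz b hb' c hc
    have y1 := bY z hz b hb' c hc
    norm_num at *
    constructor <;> linarith [x1.1, x1.2, y1.1, y1.2]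
  have r1 : ((dg (Rg m sq pos neg c a) b : ℕ) : ℤ)
      = 2 * SSg sq c a b + 137438953472 + X c a b - Y c a b :=
    (hR c hc a ham).dg (fun k hk => ⟨(hB c hc a ham k hk).1,
      (hB c hc a ham k hk).2.trans (by norm_num)⟩) hbm
  have hx := (hR a ham b hbm).add (hR b hbm a ham)
  have r2 := hx.dg (fun k hk => by
    have u := hB a ham b hbm k hk
    have v := hB b hbm a ham k hk
    norm_num at *
    constructor <;> linarith [u.1, u.2, v.1, v.2]) hc
  have h5 : ((dg (Rg m sq pos neg c a) b : ℕ) : ℤ)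
      + (dg (Nat.add (Rg m sq pos neg a b) (Rg m sq pos neg b a)) c : ℕ)
        ≤ (bd : ℤ) + 412316860416 := by exact_mod_cast h3
  rw [r1, r2] at h5
  linarith

end

end MP61673a.KC
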