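import Pool.Agent.Mu673.KCbigdef
import Pool.Agent.Mu673.KCgen

/-!
Soundness of the fast main loop `bigCheck`.
-/

set_option autoImplicit false

namespace MP61673a.KC

open Finset

/-! ### rows of digits -/

lemma msb_succ (f : ℕ → ℕ) (w n : ℕ) : msb f w (n + 1) = msb f w n + f n * 2 ^ (w * n) := rfl

lemma dg_add_mul' (X Y m c : ℕ) (hX : X < 2 ^ (40 * m)) :
    dg (X + Y * 2 ^ (40 * m)) c = if c < m then dg X c else dg Y (c - m) :=
  dg_add_mul X Y m c hX

lemma msb_lt {f : ℕ → ℕ} {L n : ℕ} (hf : ∀ j < n, f j < 2 ^ (40 * L)) :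
    msb f (40 * L) n < 2 ^ (40 * (L * n)) := by
  induction n with
  | zero => simp [msb]
  | succ n ih =>
    rw [msb_succ]
    have h1 := ih fun j hj => hf j (by omega)
    have e : 40 * (L * (n + 1)) = 40 * L + 40 * (L * n) := by ring
    have e2 : 40 * L * n = 40 * (L * n) := by ring
    rw [e, pow_add, e2]
    have h2 : f n * 2 ^ (40 * (L * n)) ≤ (2 ^ (40 * L) - 1) * 2 ^ (40 * (L * n)) :=
      Nat.mul_le_mul_right _ (by have := hf n (by omega); omega)
    have h3 : (2 ^ (40 * L) - 1) * 2 ^ (40 * (L * n)) + 2 ^ (40 * (L * n))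
        = 2 ^ (40 * L) * 2 ^ (40 * (L * n)) := by
      rw [Nat.sub_mul, one_mul]
      have : 1 * 2 ^ (40 * (L * n)) ≤ 2 ^ (40 * L) * 2 ^ (40 * (L * n)) :=
        Nat.mul_le_mul_right _ Nat.one_le_two_pow
      omega
    omega

/-- digits of rows of length `L` -/
lemma dg_msb {f : ℕ → ℕ} {L n : ℕ} (hf : ∀ j < n, f j < 2 ^ (40 * L)) {r c : ℕ} (hr : r < n)
    (hc : c < L) : dg (msb f (40 * L) n) (L * r + c) = dg (f r) c := by
  induction n with
  | zero => omega
  | succ n ih =>
    rw [msb_succ, show 40 * L * n = 40 * (L * n) by ring,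
      dg_add_mul _ _ _ _ (msb_lt fun j hj => hf j (by omega))]
    rcases Nat.lt_succ_iff_lt_or_eq.1 hr with h | rfl
    · have h1 : L * r + c < L * n := by
        calc L * r + c < L * r + L := by omega
          _ = L * (r + 1) := by ring
          _ ≤ L * n := Nat.mul_le_mul_left _ h
      rw [if_pos h1, ih (fun j hj => hf j (by omega)) h]
    · rw [if_neg (by omega), Nat.add_sub_cancel_left]

/-- digits of a vector of full or empty digits -/
lemma dg_msb1 {f : ℕ → ℕ} {n : ℕ} (hf : ∀ j < n, f j < 2 ^ 40) {c : ℕ} (hc : c < n) :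
    dg (msb f 40 n) c = f c := by
  have h := dg_msb (f := f) (L := 1) (n := n) (fun j hj => by simpa using hf j hj) (r := c)
    (c := 0) hc (by norm_num)
  simp only [one_mul, add_zero, mul_one] at h
  rw [h, dg_eq]
  simp only [mul_zero, pow_zero, Nat.div_one]
  exact Nat.mod_eq_of_lt (hf c hc)

lemma msb1_lt {f : ℕ → ℕ} {n : ℕ} (hf : ∀ j < n, f j < 2 ^ 40) : msb f 40 n < 2 ^ (40 * n) := by
  have := msb_lt (f := f) (L := 1) (n := n) (fun j hj => by simpa using hf j hj)
  simpa using this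

lemma bitj_eq (j c : ℕ) : bitj j c = c / 2 ^ j % 2 := rfl

lemma bitj_le (j c : ℕ) : bitj j c ≤ 1 := by
  rw [bitj_eq]
  omega

lemma msb_mul (x : ℕ) (f : ℕ → ℕ) (w n : ℕ) : x * msb f w n = msb (fun r => x * f r) w n := by
  induction n with
  | zero => simp [msb]
  | succ n ih =>
    rw [msb_succ, msb_succ, ← ih]
    ring

lemma colm_lt (L j : ℕ) : colm L j < 2 ^ (40 * L) := by
  unfold colm
  refine msb1_lt fun c _ => ?_
  have := bitj_le j c
  show 1099511627775 * bitj j c < 2 ^ 40
  have e : (2:ℕ) ^ 40 = 1099511627776 := by norm_num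
  rw [e]
  nlinarith

lemma coln_lt (L j : ℕ) : coln L j < 2 ^ (40 * L) := by
  unfold coln
  refine msb1_lt fun c _ => ?_
  show 1099511627775 * (1 - bitj j c) < 2 ^ 40
  have e : (2:ℕ) ^ 40 = 1099511627776 := by norm_num
  rw [e]
  have : 1 - bitj j c ≤ 1 := by omega
  nlinarith

/-- digits of the mask of the sources that move up -/
lemma dg_mup {L j r c : ℕ} (hr : r < L) (hc : c < L) :
    dg (mup L j) (L * r + c)
      = if r / 2 ^ j % 2 = 0 ∧ c / 2 ^ j % 2 = 1 then 1099511627775 else 0 := by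
  have e : mup L j = msb (fun r => colm L j * (1 - bitj j r)) (40 * L) L := by
    show colm L j * rown L j = _
    exact msb_mul _ _ _ _
  rw [e, dg_msb (fun r _ => by
    have h1 := colm_lt L j
    have h2 : 1 - bitj j r ≤ 1 := by omega
    nlinarith) hr hc, bitj_eq]
  have hcm : dg (colm L j) c = 1099511627775 * (c / 2 ^ j % 2) := by
    unfold colm
    rw [dg_msb1 (fun c _ => by
      have := bitj_le j c
      show 1099511627775 * bitj j c < 2 ^ 40
      have e : (2:ℕ) ^ 40 = 1099511627776 := by norm_num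
      rw [e]
      nlinarith) hc]
    rfl
  rcases Nat.mod_two_eq_zero_or_one (r / 2 ^ j) with h | h
  · rw [h]
    simp only [Nat.sub_zero, mul_one, true_and]
    rw [hcm]
    rcases Nat.mod_two_eq_zero_or_one (c / 2 ^ j) with h' | h'
    · rw [h']
      simp
    · rw [h']
      simp
  · rw [h]
    simp only [Nat.sub_self, mul_zero, one_ne_zero, false_and, if_false]
    exact dg_zero c

/-- digits of the mask of the sources that move down -/
lemma dg_mdn {L j r c : ℕ} (hr : r < L) (hc : c < L) :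
    dg (mdn L j) (L * r + c)
      = if r / 2 ^ j % 2 = 1 ∧ c / 2 ^ j % 2 = 0 then 1099511627775 else 0 := by
  have e : mdn L j = msb (fun r => coln L j * bitj j r) (40 * L) L := by
    show coln L j * rowm L j = _
    exact msb_mul _ _ _ _
  rw [e, dg_msb (fun r _ => by
    have h1 := coln_lt L j
    have h2 := bitj_le j r
    nlinarith) hr hc, bitj_eq]
  have hcm : dg (coln L j) c = 1099511627775 * (1 - c / 2 ^ j % 2) := by
    unfold coln
    rw [dg_msb1 (fun c _ => by
      show 1099511627775 * (1 - bitj j c) < 2 ^ 40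
      have e : (2:ℕ) ^ 40 = 1099511627776 := by norm_num
      rw [e]
      have : 1 - bitj j c ≤ 1 := by omega
      nlinarith) hc]
    rfl
  rcases Nat.mod_two_eq_zero_or_one (r / 2 ^ j) with h | h
  · rw [h]
    simp only [mul_zero, zero_ne_one, false_and, if_false]
    exact dg_zero c
  · rw [h]
    simp only [mul_one, true_and]
    rw [hcm]
    rcases Nat.mod_two_eq_zero_or_one (c / 2 ^ j) with h' | h'
    · rw [h']
      simp
    · rw [h']
      simp

lemma mup_lt (L j : ℕ) : mup L j < 2 ^ (40 * (L * L)) := by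
  have e : mup L j = msb (fun r => colm L j * (1 - bitj j r)) (40 * L) L := by
    show colm L j * rown L j = _
    exact msb_mul _ _ _ _
  rw [e]
  refine msb_lt fun r _ => ?_
  have h1 := colm_lt L j
  have h2 : 1 - bitj j r ≤ 1 := by omega
  nlinarith

lemma mdn_lt (L j : ℕ) : mdn L j < 2 ^ (40 * (L * L)) := by
  have e : mdn L j = msb (fun r => coln L j * bitj j r) (40 * L) L := by
    show coln L j * rowm L j = _
    exact msb_mul _ _ _ _
  rw [e]
  refine msb_lt fun r _ => ?_
  have h1 := coln_lt L j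
  have h2 := bitj_le j r
  nlinarith

/-- row and column bits of a position -/
def rb (L s p : ℕ) : ℕ := p / L / s % 2

/-- column bit -/
def cb (L s p : ℕ) : ℕ := p % L / s % 2

lemma pos_split {L p : ℕ} (hL : 0 < L) (hp : p < L * L) :
    p / L < L ∧ p % L < L ∧ L * (p / L) + p % L = p :=
  ⟨Nat.div_lt_of_lt_mul hp, Nat.mod_lt _ hL, Nat.div_add_mod p L⟩

lemma dg_mup' {L j p : ℕ} (hL : 0 < L) (hp : p < L * L) :
    dg (mup L j) p = if rb L (2 ^ j) p = 0 ∧ cb L (2 ^ j) p = 1 then 1099511627775 else 0 := by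
  obtain ⟨h1, h2, h3⟩ := pos_split hL hp
  have := dg_mup (j := j) h1 h2
  rw [h3] at this
  exact this

lemma dg_mdn' {L j p : ℕ} (hL : 0 < L) (hp : p < L * L) :
    dg (mdn L j) p = if rb L (2 ^ j) p = 1 ∧ cb L (2 ^ j) p = 0 then 1099511627775 else 0 := by
  obtain ⟨h1, h2, h3⟩ := pos_split hL hp
  have := dg_mdn (j := j) h1 h2
  rw [h3] at this
  exact this

/-! ### index arithmetic of one level: `L = 2 s m` -/

/-- position with explicit bits -/
def mk (L s R a ρ C b γ : ℕ) : ℕ := L * ((2 * R + a) * s + ρ) + ((2 * C + b) * s + γ)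

lemma mk_col_lt {L s m C b γ : ℕ} (hL : L = 2 * s * m) (hC : C < m) (hb : b ≤ 1) (hγ : γ < s) :
    (2 * C + b) * s + γ < L := by
  have h1 : (2 * C + b) * s ≤ (2 * C + 1) * s := Nat.mul_le_mul_right _ (by omega)
  have h2 : (C + 1) * s ≤ m * s := Nat.mul_le_mul_right _ hC
  have e1 : (2 * C + 1) * s + s = 2 * ((C + 1) * s) := by ring
  have e2 : 2 * s * m = 2 * (m * s) := by ring
  omega

lemma mk_div {L s m R a ρ C b γ : ℕ} (hL : L = 2 * s * m) (hC : C < m) (hb : b ≤ 1) (hγ : γ < s) :
    mk L s R a ρ C b γ / L = (2 * R + a) * s + ρ := by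
  have h := mk_col_lt hL hC hb hγ
  unfold mk
  rw [Nat.mul_add_div (by omega), Nat.div_eq_of_lt h, add_zero]

lemma mk_mod {L s m R a ρ C b γ : ℕ} (hL : L = 2 * s * m) (hC : C < m) (hb : b ≤ 1) (hγ : γ < s) :
    mk L s R a ρ C b γ % L = (2 * C + b) * s + γ := by
  have h := mk_col_lt hL hC hb hγ
  unfold mk
  rw [Nat.mul_add_mod, Nat.mod_eq_of_lt h]

lemma half_bit {s R a ρ : ℕ} (ha : a ≤ 1) (hρ : ρ < s) : ((2 * R + a) * s + ρ) / s % 2 = a := by
  have hs : 0 < s := by omega
  rw [mul_comm (2 * R + a) s, Nat.mul_add_div hs, Nat.div_eq_of_lt hρ, add_zero]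
  omega

lemma mk_rb {L s m R a ρ C b γ : ℕ} (hL : L = 2 * s * m) (hC : C < m) (hb : b ≤ 1) (hγ : γ < s)
    (ha : a ≤ 1) (hρ : ρ < s) : rb L s (mk L s R a ρ C b γ) = a := by
  unfold rb
  rw [mk_div hL hC hb hγ, half_bit ha hρ]

lemma mk_cb {L s m R a ρ C b γ : ℕ} (hL : L = 2 * s * m) (hC : C < m) (hb : b ≤ 1) (hγ : γ < s) :
    cb L s (mk L s R a ρ C b γ) = b := by
  unfold cb
  rw [mk_mod hL hC hb hγ, half_bit hb hγ]

/-- every position has explicit bits -/
lemma exists_mk {L s m p : ℕ} (hs : 0 < s) (hm : 0 < m) (hL : L = 2 * s * m) (hp : p < L * L) :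
    ∃ R a ρ C b γ, p = mk L s R a ρ C b γ ∧ R < m ∧ C < m ∧ a ≤ 1 ∧ b ≤ 1 ∧ ρ < s ∧ γ < s := by
  have hLp : 0 < L := by rw [hL]; positivity
  obtain ⟨h1, h2, h3⟩ := pos_split hLp hp
  have dec : ∀ x < L, ∃ R a ρ, x = (2 * R + a) * s + ρ ∧ R < m ∧ a ≤ 1 ∧ ρ < s := by
    intro x hx
    refine ⟨x / s / 2, x / s % 2, x % s, ?_, ?_, by omega, Nat.mod_lt _ hs⟩
    · have e1 : 2 * (x / s / 2) + x / s % 2 = x / s := Nat.div_add_mod _ _
      rw [e1, mul_comm]
      exact (Nat.div_add_mod x s).symm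
    · rw [Nat.div_div_eq_div_mul]
      refine Nat.div_lt_of_lt_mul ?_
      rw [hL] at hx
      calc x < 2 * s * m := hx
        _ = s * 2 * m := by ring
  obtain ⟨R, a, ρ, e1, hR, ha, hρ⟩ := dec _ h1
  obtain ⟨C, b, γ, e2, hC, hb, hγ⟩ := dec _ h2
  refine ⟨R, a, ρ, C, b, γ, ?_, hR, hC, ha, hb, hρ, hγ⟩
  unfold mk
  rw [← e1, ← e2]
  exact h3.symm

lemma mk_lt {L s m R a ρ C b γ : ℕ} (hL : L = 2 * s * m) (hR : R < m) (hC : C < m) (ha : a ≤ 1)
    (hb : b ≤ 1) (hρ : ρ < s) (hγ : γ < s) : mk L s R a ρ C b γ < L * L := by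
  have h1 := mk_col_lt hL hR ha hρ
  have h2 := mk_col_lt hL hC hb hγ
  unfold mk
  calc L * ((2 * R + a) * s + ρ) + ((2 * C + b) * s + γ)
      < L * ((2 * R + a) * s + ρ) + L := by omega
    _ = L * ((2 * R + a) * s + ρ + 1) := by ring
    _ ≤ L * L := Nat.mul_le_mul_left _ h1

/-- the masked source above `p` -/
lemma up_src {L s m R a ρ C b γ : ℕ} (hs : 0 < s) (hL : L = 2 * s * m) (hR : R < m) (hC : C < m)
    (ha : a ≤ 1) (hb : b ≤ 1) (hρ : ρ < s) (hγ : γ < s)
    (hD : s * (L - 1) ≤ mk L s R a ρ C b γ) :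
    (rb L s (mk L s R a ρ C b γ - s * (L - 1)) = 0
      ∧ cb L s (mk L s R a ρ C b γ - s * (L - 1)) = 1) ↔ (a = 1 ∧ b = 0) := by
  have hLp : 1 ≤ L := by
    have := mk_col_lt hL hC hb hγ
    omega
  have hsL : s * (L - 1) + s = s * L := by
    obtain ⟨l, rfl⟩ : ∃ l, L = l + 1 := ⟨L - 1, by omega⟩
    simp only [Nat.add_sub_cancel]
    ring
  interval_cases a <;> interval_cases b
  · -- a = 0, b = 0
    have hR1 : 1 ≤ R := by
      by_contra h
      have : R = 0 := by omega
      subst this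
      unfold mk at hD
      have h1 := mk_col_lt hL hC (b := 0) (by omega) hγ
      have h3 : ρ + 1 ≤ s := hρ
      have h4 : L * (ρ + 1) ≤ L * s := Nat.mul_le_mul_left _ h3
      have h6 := mk_col_lt hL hC (b := 1) (by omega) hγ
      have h7 : (2 * C + 1) * s = (2 * C + 0) * s + s := by ring
      have e3 : L * (ρ + 1) = L * ρ + L := by ring
      have e4 : L * s = s * L := by ring
      simp only [mul_zero, zero_add, add_zero, zero_mul] at hD h7
      simp only [add_zero] at h1
      omega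
    obtain ⟨R', rfl⟩ : ∃ R', R = R' + 1 := ⟨R - 1, by omega⟩
    have e : mk L s (R' + 1) 0 ρ C 0 γ - s * (L - 1) = mk L s R' 1 ρ C 1 γ := by
      have : mk L s (R' + 1) 0 ρ C 0 γ = mk L s R' 1 ρ C 1 γ + s * (L - 1) := by
        unfold mk
        have h2 : (2 * C + 1) * s + s * (L - 1) = 2 * C * s + s * L := by
          rw [← hsL]
          ring
        calc L * ((2 * (R' + 1) + 0) * s + ρ) + ((2 * C + 0) * s + γ)
            = L * ((2 * R' + 1) * s + ρ) + (2 * C * s + s * L) + γ := by ring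
          _ = L * ((2 * R' + 1) * s + ρ) + ((2 * C + 1) * s + s * (L - 1)) + γ := by rw [h2]
          _ = L * ((2 * R' + 1) * s + ρ) + ((2 * C + 1) * s + γ) + s * (L - 1) := by ring
      omega
    rw [e, mk_rb hL hC (by omega) hγ (by omega) hρ, mk_cb hL hC (by omega) hγ]
    omega
  · -- a = 0, b = 1
    have key : cb L s (mk L s R 0 ρ C 1 γ - s * (L - 1)) = 0 := by
      by_cases hC1 : C + 1 < m
      · have hR1 : 1 ≤ R := by
          by_contra h
          have : R = 0 := by omega
          subst this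
          unfold mk at hD
          have h6 := mk_col_lt hL hC1 (b := 0) (by omega) hγ
          have h3 : ρ + 1 ≤ s := hρ
          have h4 : L * (ρ + 1) ≤ L * s := Nat.mul_le_mul_left _ h3
          have h7 : (2 * (C + 1) + 0) * s = (2 * C + 1) * s + s := by ring
          have e3 : L * (ρ + 1) = L * ρ + L := by ring
          have e4 : L * s = s * L := by ring
          simp only [mul_zero, zero_add, add_zero, zero_mul] at hD
          omega
        obtain ⟨R', rfl⟩ : ∃ R', R = R' + 1 := ⟨R - 1, by omega⟩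
        have e : mk L s (R' + 1) 0 ρ C 1 γ - s * (L - 1) = mk L s R' 1 ρ (C + 1) 0 γ := by
          have : mk L s (R' + 1) 0 ρ C 1 γ = mk L s R' 1 ρ (C + 1) 0 γ + s * (L - 1) := by
            unfold mk
            have h2 : (2 * (C + 1) + 0) * s + s * (L - 1) = (2 * C + 1) * s + s * L := by
              rw [← hsL]
              ring
            calc L * ((2 * (R' + 1) + 0) * s + ρ) + ((2 * C + 1) * s + γ)
                = L * ((2 * R' + 1) * s + ρ) + ((2 * C + 1) * s + s * L) + γ := by ring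
              _ = L * ((2 * R' + 1) * s + ρ) + ((2 * (C + 1) + 0) * s + s * (L - 1)) + γ := by
                  rw [h2]
              _ = L * ((2 * R' + 1) * s + ρ) + ((2 * (C + 1) + 0) * s + γ) + s * (L - 1) := by ring
          omega
        rw [e, mk_cb hL hC1 (by omega) hγ]
      · have hCm : 2 * (C + 1) * s = L := by
          have : C + 1 = m := by omega
          rw [this, hL]
          ring
        have e : mk L s R 0 ρ C 1 γ - s * (L - 1) = L * (2 * R * s + ρ + 1 - s) + γ := by
          have h8 : s ≤ 2 * R * s + ρ + 1 := by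
            by_contra h
            push Not at h
            unfold mk at hD
            have h9 : L * (2 * R * s + ρ + 2) ≤ L * s := Nat.mul_le_mul_left _ (by omega)
            have e3 : L * (2 * R * s + ρ + 2) = L * ((2 * R + 0) * s + ρ) + 2 * L := by ring
            have e4 : L * s = s * L := by ring
            have e5 : (2 * C + 1) * s + s = L := by rw [← hCm]; ring
            omega
          obtain ⟨q, hq⟩ : ∃ q, 2 * R * s + ρ + 1 = q + s := ⟨2 * R * s + ρ + 1 - s, by omega⟩
          have e5 : (2 * C + 1) * s + s = L := by rw [← hCm]; ring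
          rw [hq, Nat.add_sub_cancel]
          have : mk L s R 0 ρ C 1 γ = L * q + γ + s * (L - 1) := by
            unfold mk
            have h10 : L * ((2 * R + 0) * s + ρ) + L = L * q + s * L := by
              have : L * (2 * R * s + ρ + 1) = L * (q + s) := by rw [hq]
              nlinarith
            omega
          omega
        rw [e]
        unfold cb
        have hγL : γ < L :=
          lt_of_le_of_lt (Nat.le_add_left γ _) (mk_col_lt hL hC (b := 1) (le_refl 1) hγ)
        rw [Nat.mul_add_mod, Nat.mod_eq_of_lt hγL, Nat.div_eq_of_lt hγ]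
    rw [key]
    omega
  · -- a = 1, b = 0
    have e : mk L s R 1 ρ C 0 γ - s * (L - 1) = mk L s R 0 ρ C 1 γ := by
      have : mk L s R 1 ρ C 0 γ = mk L s R 0 ρ C 1 γ + s * (L - 1) := by
        unfold mk
        have h2 : (2 * C + 1) * s + s * (L - 1) = 2 * C * s + s * L := by
          rw [← hsL]
          ring
        calc L * ((2 * R + 1) * s + ρ) + ((2 * C + 0) * s + γ)
            = L * ((2 * R + 0) * s + ρ) + (2 * C * s + s * L) + γ := by ring
          _ = L * ((2 * R + 0) * s + ρ) + ((2 * C + 1) * s + s * (L - 1)) + γ := by rw [h2]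
          _ = L * ((2 * R + 0) * s + ρ) + ((2 * C + 1) * s + γ) + s * (L - 1) := by ring
      omega
    rw [e, mk_rb hL hC (by omega) hγ (by omega) hρ, mk_cb hL hC (by omega) hγ]
    omega
  · -- a = 1, b = 1
    have key : cb L s (mk L s R 1 ρ C 1 γ - s * (L - 1)) = 0 := by
      by_cases hC1 : C + 1 < m
      · have e : mk L s R 1 ρ C 1 γ - s * (L - 1) = mk L s R 0 ρ (C + 1) 0 γ := by
          have : mk L s R 1 ρ C 1 γ = mk L s R 0 ρ (C + 1) 0 γ + s * (L - 1) := by
            unfold mk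
            have h2 : (2 * (C + 1) + 0) * s + s * (L - 1) = (2 * C + 1) * s + s * L := by
              rw [← hsL]
              ring
            calc L * ((2 * R + 1) * s + ρ) + ((2 * C + 1) * s + γ)
                = L * ((2 * R + 0) * s + ρ) + ((2 * C + 1) * s + s * L) + γ := by ring
              _ = L * ((2 * R + 0) * s + ρ) + ((2 * (C + 1) + 0) * s + s * (L - 1)) + γ := by
                  rw [h2]
              _ = L * ((2 * R + 0) * s + ρ) + ((2 * (C + 1) + 0) * s + γ) + s * (L - 1) := by ring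
          omega
        rw [e, mk_cb hL hC1 (by omega) hγ]
      · have hCm : 2 * (C + 1) * s = L := by
          have : C + 1 = m := by omega
          rw [this, hL]
          ring
        have e : mk L s R 1 ρ C 1 γ - s * (L - 1) = L * (2 * R * s + ρ + 1) + γ := by
          have e5 : (2 * C + 1) * s + s = L := by rw [← hCm]; ring
          have : mk L s R 1 ρ C 1 γ = L * (2 * R * s + ρ + 1) + γ + s * (L - 1) := by
            unfold mk
            have h10 : L * ((2 * R + 1) * s + ρ) = L * (2 * R * s + ρ) + s * L := by ring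
            have h11 : L * (2 * R * s + ρ + 1) = L * (2 * R * s + ρ) + L := by ring
            omega
          omega
        rw [e]
        unfold cb
        have hγL : γ < L :=
          lt_of_le_of_lt (Nat.le_add_left γ _) (mk_col_lt hL hC (b := 1) (le_refl 1) hγ)
        rw [Nat.mul_add_mod, Nat.mod_eq_of_lt hγL, Nat.div_eq_of_lt hγ]
    rw [key]
    omega

/-- the masked source below `p` -/
lemma dn_src {L s m R a ρ C b γ : ℕ} (hs : 0 < s) (hm : 0 < m) (hL : L = 2 * s * m) (hR : R < m)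
    (hC : C < m) (ha : a ≤ 1) (hb : b ≤ 1) (hρ : ρ < s) (hγ : γ < s)
    (hD : mk L s R a ρ C b γ + s * (L - 1) < L * L) :
    (rb L s (mk L s R a ρ C b γ + s * (L - 1)) = 1
      ∧ cb L s (mk L s R a ρ C b γ + s * (L - 1)) = 0) ↔ (a = 0 ∧ b = 1) := by
  obtain ⟨R', a', ρ', C', b', γ', e, hR', hC', ha', hb', hρ', hγ'⟩ := exists_mk hs hm hL hD
  have h := up_src hs hL hR' hC' ha' hb' hρ' hγ' (by rw [← e]; omega)
  rw [← e, Nat.add_sub_cancel, mk_rb hL hC hb hγ ha hρ, mk_cb hL hC hb hγ] at h
  rw [e, mk_rb hL hC' hb' hγ' ha' hρ', mk_cb hL hC' hb' hγ']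
  exact h.symm

end MP61673a.KC
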