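import Pool.Agent.Mu673.KCmin

/-!
FAST MAIN LOOP: packed transposition of the rows. Matrices have `L = 2^k` rows of `L` digits.
-/

set_option autoImplicit false

namespace MP61673a.KC

noncomputable section

/-- `∑ j < n, f j * 2^(w j)` -/
def msb (f : ℕ → ℕ) (w n : ℕ) : ℕ :=
  Nat.rec (motive := fun _ => ℕ) 0
    (fun j ih => Nat.add ih (Nat.mul (f j) (Nat.pow 2 (Nat.mul w j)))) n

/-- bit `j` of `c` -/
def bitj (j c : ℕ) : ℕ := Nat.mod (Nat.div c (Nat.pow 2 j)) 2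

/-- digits `2^40 - 1` at the columns with bit `j` equal to `1` -/
def colm (L j : ℕ) : ℕ := msb (fun c => Nat.mul 1099511627775 (bitj j c)) 40 L

/-- digits `2^40 - 1` at the columns with bit `j` equal to `0` -/
def coln (L j : ℕ) : ℕ := msb (fun c => Nat.mul 1099511627775 (Nat.sub 1 (bitj j c))) 40 L

/-- ones at the rows with bit `j` equal to `1` -/
def rowm (L j : ℕ) : ℕ := msb (fun r => bitj j r) (Nat.mul 40 L) L

/-- ones at the rows with bit `j` equal to `0` -/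
def rown (L j : ℕ) : ℕ := msb (fun r => Nat.sub 1 (bitj j r)) (Nat.mul 40 L) L

/-- sources that move up (row bit `0`, column bit `1`) -/
def mup (L j : ℕ) : ℕ := Nat.mul (colm L j) (rown L j)

/-- sources that move down (row bit `1`, column bit `0`) -/
def mdn (L j : ℕ) : ℕ := Nat.mul (coln L j) (rowm L j)

/-- one level of the transposition, with the masks given -/
def swp (L j up dn x : ℕ) : ℕ :=
  Nat.add (Nat.add
    (Nat.land x (Nat.sub (Nat.sub (bp (Nat.mul L L)) 1) (Nat.add up dn)))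
    (Nat.mul (Nat.land x up) (bp (Nat.mul (Nat.pow 2 j) (Nat.sub L 1)))))
    (shf (Nat.land x dn) (Nat.mul (Nat.pow 2 j) (Nat.sub L 1)))

/-- transposition: levels `0 .. j-1` -/
def trn (L j x : ℕ) : ℕ :=
  Nat.rec (motive := fun _ => ℕ) x (fun i ih => swp L i (mup L i) (mdn L i) ih) j

/-- concatenation of the rows `f (c0 + i)`, `i < 2^k`, of `L` digits -/
def bld (L : ℕ) (f : ℕ → ℕ) (k : ℕ) : ℕ → ℕ :=
  Nat.rec (motive := fun _ => ℕ → ℕ) (fun c0 => f c0)
    (fun i ih c0 => Nat.add (ih c0) (Nat.mul (ih (Nat.add c0 (Nat.pow 2 i)))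
      (bp (Nat.mul L (Nat.pow 2 i))))) k

/-- all rows `b0 + i`, `i < 2^k`, of `x` satisfy `p` -/
def spl (L : ℕ) (p : ℕ → ℕ → Bool) (k : ℕ) : ℕ → ℕ → Bool :=
  Nat.rec (motive := fun _ => ℕ → ℕ → Bool) (fun b0 x => p b0 x)
    (fun i ih b0 x => Bool.rec (motive := fun _ => Bool) false
      (ih (Nat.add b0 (Nat.pow 2 i)) (shf x (Nat.mul L (Nat.pow 2 i))))
      (ih b0 (Nat.mod x (bp (Nat.mul L (Nat.pow 2 i)))))) k

/-- forces `n` to a literal -/
def frc (n : ℕ) (f : ℕ → ℕ) : ℕ :=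
  Nat.rec (motive := fun _ => ℕ) (f 0) (fun m _ => f (Nat.succ m)) n

/-- the rows with forced indices -/
def rfc (Rw : ℕ → ℕ → ℕ) (z b : ℕ) : ℕ := frc z (fun z => frc b (fun b => Rw z b))

/-- `0` for `v ≤ c`, else `x` -/
def guard (v c x : ℕ) : ℕ := Nat.rec (motive := fun _ => ℕ) 0 (fun _ _ => x) (Nat.sub v c)

/-- `true` for `a < b`, else `x` -/
def skip (a b : ℕ) (x : Bool) : Bool :=
  Nat.rec (motive := fun _ => Bool) x (fun _ _ => true) (Nat.sub b a)

/-- fieldwise check of the sum of the row `col` with `Rw a b + Rw b a` -/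
def leaf (L : ℕ) (Rw : ℕ → ℕ → ℕ) (bdr a b col : ℕ) : Bool :=
  ple L bdr (Nat.add (Nat.add (Rw a b) (Rw b a)) col)

/-- all triples with the first node `a` -/
def bigA (k V : ℕ) (Rw : ℕ → ℕ → ℕ) (bdr a : ℕ) : Bool :=
  spl (Nat.pow 2 k) (fun b col => skip a b (leaf (Nat.pow 2 k) Rw bdr a b col)) k 0
    (trn (Nat.pow 2 k) k (bld (Nat.pow 2 k) (fun c => guard V c (Rw c a)) k 0))

/-- all triples with `lo ≤ a < hi` -/
def bigCheck (k V : ℕ) (Rw : ℕ → ℕ → ℕ) (bd lo hi : ℕ) : Bool :=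
  allN (Nat.sub hi lo) (fun a' =>
    bigA k V (rfc Rw) (Nat.mul (Nat.add bd 412316860416) (rep (Nat.pow 2 k))) (Nat.add lo a'))

end

end MP61673a.KC
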