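import Pool.Agent.Mu673.KCbig

/-!
Soundness of the fast main loop `bigCheck`, part 2.
-/

set_option autoImplicit false

namespace MP61673a.KC

open Finset

/-! ### masks -/

lemma full_eq (m : ℕ) : 2 ^ (40 * m) - 1 = ∑ c ∈ range m, 1099511627775 * 2 ^ (40 * c) := by
  induction m with
  | zero => simp
  | succ m ih =>
    rw [sum_range_succ, ← ih, show 40 * (m + 1) = 40 * m + 40 by ring, pow_add]
    have : 1 ≤ 2 ^ (40 * m) := Nat.one_le_two_pow
    have e : (2:ℕ) ^ 40 = 1099511627776 := by norm_num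
    rw [e]
    omega

lemma dg_compl {m y c : ℕ} (hy : y < 2 ^ (40 * m)) (hc : c < m) :
    dg (2 ^ (40 * m) - 1 - y) c = 1099511627775 - dg y c := by
  have hd : ∀ c, dg y c ≤ 1099511627775 := by
    intro c
    have := dg_lt y c
    have e : (2:ℕ) ^ 40 = 1099511627776 := by norm_num
    omega
  have e : 2 ^ (40 * m) - 1 - y = ∑ c ∈ range m, (1099511627775 - dg y c) * 2 ^ (40 * c) := by
    have h1 := eq_sum_of_lt hy
    have h2 : 2 ^ (40 * m) - 1 = (∑ c ∈ range m, (1099511627775 - dg y c) * 2 ^ (40 * c))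
        + ∑ c ∈ range m, dg y c * 2 ^ (40 * c) := by
      rw [full_eq, ← sum_add_distrib]
      refine sum_congr rfl fun c _ => ?_
      rw [← add_mul, Nat.sub_add_cancel (hd c)]
    rw [← h1] at h2
    omega
  rw [e]
  refine dg_sum (u := fun c => 1099511627775 - dg y c) (fun c _ => ?_) hc
  have e : (2:ℕ) ^ 40 = 1099511627776 := by norm_num
  omega

/-- digits of a sum without carries -/
lemma dg_add2 {n A B : ℕ} (h : ∀ c < n, dg A c + dg B c < 2 ^ 40) {c : ℕ} (hc : c < n) :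
    dg (A + B) c = dg A c + dg B c := by
  have r := ((Rp.self n A).add (Rp.self n B)).dg (fun k hk =>
    ⟨by positivity, by exact_mod_cast h k hk⟩) hc
  exact_mod_cast r

lemma rb_cb_lt {L s p : ℕ} : rb L s p < 2 ∧ cb L s p < 2 :=
  ⟨Nat.mod_lt _ (by norm_num), Nat.mod_lt _ (by norm_num)⟩

lemma msb_add (f g : ℕ → ℕ) (w n : ℕ) :
    msb f w n + msb g w n = msb (fun r => f r + g r) w n := by
  induction n with
  | zero => simp [msb]
  | succ n ih =>
    rw [msb_succ, msb_succ, msb_succ, ← ih]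
    ring

lemma updn_lt (L j : ℕ) : mup L j + mdn L j < 2 ^ (40 * (L * L)) := by
  have e1 : mup L j = msb (fun r => colm L j * (1 - bitj j r)) (40 * L) L := by
    show colm L j * rown L j = _
    exact msb_mul _ _ _ _
  have e2 : mdn L j = msb (fun r => coln L j * bitj j r) (40 * L) L := by
    show coln L j * rowm L j = _
    exact msb_mul _ _ _ _
  rw [e1, e2, msb_add]
  refine msb_lt fun r _ => ?_
  have h1 := colm_lt L j
  have h2 := coln_lt L j
  have h3 := bitj_le j r
  show colm L j * (1 - bitj j r) + coln L j * bitj j r < 2 ^ (40 * L)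
  rcases Nat.le_one_iff_eq_zero_or_eq_one.1 h3 with h | h
  · rw [h]
    simpa using h1
  · rw [h]
    simpa using h2

/-- digits of the mask of the fixed positions -/
lemma dg_mid {L j p : ℕ} (hL : 0 < L) (hp : p < L * L) :
    dg (Nat.sub (Nat.sub (bp (Nat.mul L L)) 1) (Nat.add (mup L j) (mdn L j))) p
      = if rb L (2 ^ j) p = cb L (2 ^ j) p then 1099511627775 else 0 := by
  have h1 : dg (mup L j + mdn L j) p = dg (mup L j) p + dg (mdn L j) p := by
    refine dg_add2 (n := L * L) (fun c hc => ?_) hp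
    rw [dg_mup' hL hc, dg_mdn' hL hc]
    split_ifs <;> norm_num
    omega
  have h2 : dg (2 ^ (40 * (L * L)) - 1 - (mup L j + mdn L j)) p
      = 1099511627775 - dg (mup L j + mdn L j) p := dg_compl (updn_lt L j) hp
  show dg (2 ^ (40 * (L * L)) - 1 - (mup L j + mdn L j)) p = _
  rw [h2, h1, dg_mup' hL hp, dg_mdn' hL hp]
  have h3 := rb_cb_lt (L := L) (s := 2 ^ j) (p := p)
  rcases Nat.lt_succ_iff.1 h3.1 |> Nat.le_one_iff_eq_zero_or_eq_one.1 with a | a <;>
  rcases Nat.lt_succ_iff.1 h3.2 |> Nat.le_one_iff_eq_zero_or_eq_one.1 with b | b <;>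
  rw [a, b] <;> simp

/-- one level of the transposition -/
lemma dg_swp {L s m j R a ρ C b γ : ℕ} (hs : s = 2 ^ j) (hL : L = 2 * s * m) (hR : R < m)
    (hC : C < m) (ha : a ≤ 1) (hb : b ≤ 1) (hρ : ρ < s) (hγ : γ < s) (x : ℕ) :
    dg (swp L j (mup L j) (mdn L j) x) (mk L s R a ρ C b γ) = dg x (mk L s R b ρ C a γ) := by
  have hm : 0 < m := by omega
  have hs0 : 0 < s := by omega
  have hLp : 0 < L := by rw [hL]; positivity
  set p := mk L s R a ρ C b γ with hpdef
  have hp : p < L * L := mk_lt hL hR hC ha hb hρ hγ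
  have hrp : rb L s p = a := mk_rb hL hC hb hγ ha hρ
  have hcp : cb L s p = b := mk_cb hL hC hb hγ
  set A := Nat.land x (Nat.sub (Nat.sub (bp (Nat.mul L L)) 1) (Nat.add (mup L j) (mdn L j))) with hA
  set B := Nat.mul (Nat.land x (mup L j)) (bp (Nat.mul (Nat.pow 2 j) (Nat.sub L 1))) with hB
  set C' := shf (Nat.land x (mdn L j)) (Nat.mul (Nat.pow 2 j) (Nat.sub L 1)) with hC'
  -- digits of the three parts
  have dA : ∀ q < L * L, dg A q = if rb L s q = cb L s q then dg x q else 0 := by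
    intro q hq
    rw [hA, dg_land, dg_mid hLp hq, ← hs]
    split_ifs
    · exact land_full _ (dg_lt _ _)
    · exact land_zero' _
  have dB : ∀ q < L * L, dg B q = if rb L s q = 1 ∧ cb L s q = 0
      then dg x (q - s * (L - 1)) else 0 := by
    intro q hq
    obtain ⟨R', a', ρ', C₁, b', γ', e, hR', hC₁, ha', hb', hρ', hγ'⟩ := exists_mk hs0 hm hL hq
    have e1 : B = 0 + Nat.land x (mup L j) * 2 ^ (40 * (s * (L - 1))) := by
      rw [hB, zero_add, hs]
      rfl
    rw [e1, dg_add_mul _ _ _ _ (by positivity), dg_zero]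
    have hr : rb L s q = a' := by rw [e]; exact mk_rb hL hC₁ hb' hγ' ha' hρ'
    have hc : cb L s q = b' := by rw [e]; exact mk_cb hL hC₁ hb' hγ'
    rw [hr, hc]
    by_cases hlt : q < s * (L - 1)
    · rw [if_pos hlt, if_neg]
      rintro ⟨rfl, rfl⟩
      have : s * (L - 1) ≤ q := by
        rw [e]
        unfold mk
        have h1 : L * s ≤ L * ((2 * R' + 1) * s + ρ') := Nat.mul_le_mul_left _ (by nlinarith)
        have h2 : s * (L - 1) ≤ s * L := Nat.mul_le_mul_left _ (by omega)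
        have h3 : s * L = L * s := by ring
        omega
      omega
    · rw [if_neg hlt]
      have h := up_src hs0 hL hR' hC₁ ha' hb' hρ' hγ' (by rw [← e]; omega)
      rw [← e] at h
      rw [dg_land, dg_mup' hLp (by omega), ← hs]
      by_cases hab : a' = 1 ∧ b' = 0
      · rw [if_pos hab, if_pos (h.2 hab)]
        exact land_full _ (dg_lt _ _)
      · rw [if_neg hab, if_neg fun h' => hab (h.1 h')]
        exact land_zero' _
  have dC : ∀ q < L * L, dg C' q = if rb L s q = 0 ∧ cb L s q = 1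
      then dg x (q + s * (L - 1)) else 0 := by
    intro q hq
    obtain ⟨R', a', ρ', C₁, b', γ', e, hR', hC₁, ha', hb', hρ', hγ'⟩ := exists_mk hs0 hm hL hq
    have e1 : C' = shf (Nat.land x (mdn L j)) (s * (L - 1)) := by
      rw [hC', hs]
      rfl
    rw [e1, dg_shf, dg_land]
    have hr : rb L s q = a' := by rw [e]; exact mk_rb hL hC₁ hb' hγ' ha' hρ'
    have hc : cb L s q = b' := by rw [e]; exact mk_cb hL hC₁ hb' hγ'
    rw [hr, hc]
    by_cases hlt : q + s * (L - 1) < L * L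
    · have h := dn_src hs0 hm hL hR' hC₁ ha' hb' hρ' hγ' (by rw [← e]; exact hlt)
      rw [← e] at h
      rw [dg_mdn' hLp hlt, ← hs]
      by_cases hab : a' = 0 ∧ b' = 1
      · rw [if_pos hab, if_pos (h.2 hab)]
        exact land_full _ (dg_lt _ _)
      · rw [if_neg hab, if_neg fun h' => hab (h.1 h')]
        exact land_zero' _
    · rw [dg_of_lt (mdn_lt L j) (by omega), if_neg]
      · exact land_zero' _
      · rintro ⟨rfl, rfl⟩
        apply hlt
        have : q + s * (L - 1) = mk L s R' 1 ρ' C₁ 0 γ' := by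
          rw [e]
          unfold mk
          obtain ⟨l, rfl⟩ : ∃ l, L = l + 1 := ⟨L - 1, by omega⟩
          simp only [Nat.add_sub_cancel]
          ring
        rw [this]
        exact mk_lt hL hR' hC₁ (by omega) (by omega) hρ' hγ'
  have hsum : swp L j (mup L j) (mdn L j) x = A + B + C' := rfl
  have h40 : ∀ q < L * L, dg A q + dg B q < 2 ^ 40 := by
    intro q hq
    rw [dA q hq, dB q hq]
    have h1 := dg_lt x q
    have h2 := dg_lt x (q - s * (L - 1))
    split_ifs <;> omega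
  have h41 : ∀ q < L * L, dg (A + B) q = dg A q + dg B q := fun q hq => dg_add2 h40 hq
  have h42 : ∀ q < L * L, dg (A + B) q + dg C' q < 2 ^ 40 := by
    intro q hq
    rw [h41 q hq, dA q hq, dB q hq, dC q hq]
    have h1 := dg_lt x q
    have h2 := dg_lt x (q - s * (L - 1))
    have h3 := dg_lt x (q + s * (L - 1))
    split_ifs <;> omega
  rw [hsum, dg_add2 h42 hp, h41 p hp, dA p hp, dB p hp, dC p hp, hrp, hcp]
  have h01 : mk L s R 1 ρ C 0 γ = mk L s R 0 ρ C 1 γ + s * (L - 1) := by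
    unfold mk
    obtain ⟨l, rfl⟩ : ∃ l, L = l + 1 := ⟨L - 1, by omega⟩
    simp only [Nat.add_sub_cancel]
    ring
  interval_cases a <;> interval_cases b
  · simp [hpdef]
  · simp only [zero_ne_one, if_false, false_and, if_true, zero_add, hpdef, and_true]
    rw [h01]
  · simp only [one_ne_zero, if_false, and_self, if_true, zero_add, hpdef]
    rw [h01, Nat.add_sub_cancel]
    simp
  · simp [hpdef]

/-! ### composition of the levels -/

lemma trn_succ (L j x : ℕ) : trn L (j + 1) x = swp L j (mup L j) (mdn L j) (trn L j x) := rfl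

lemma div_s {s R a ρ : ℕ} (hρ : ρ < s) : ((2 * R + a) * s + ρ) / s = 2 * R + a := by
  have hs : 0 < s := by omega
  rw [mul_comm (2 * R + a) s, Nat.mul_add_div hs, Nat.div_eq_of_lt hρ, add_zero]

lemma mod_s {s R a ρ : ℕ} (hρ : ρ < s) : ((2 * R + a) * s + ρ) % s = ρ := by
  rw [mul_comm (2 * R + a) s, Nat.mul_add_mod, Nat.mod_eq_of_lt hρ]

lemma div_2s {s R a ρ : ℕ} (ha : a ≤ 1) (hρ : ρ < s) : ((2 * R + a) * s + ρ) / (s * 2) = R := by
  have hs : 0 < s := by omega
  rw [← Nat.div_div_eq_div_mul, div_s hρ]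
  omega

lemma mod_2s {s R a ρ : ℕ} (ha : a ≤ 1) (hρ : ρ < s) :
    ((2 * R + a) * s + ρ) % (s * 2) = a * s + ρ := by
  have h := Nat.div_add_mod ((2 * R + a) * s + ρ) (s * 2)
  rw [div_2s ha hρ] at h
  have e : (2 * R + a) * s + ρ = s * 2 * R + (a * s + ρ) := by ring
  omega

lemma dg_trn {k x : ℕ} {j : ℕ} (hj : j ≤ k) {r c : ℕ} (hr : r < 2 ^ k) (hc : c < 2 ^ k) :
    dg (trn (2 ^ k) j x) (2 ^ k * r + c)
      = dg x (2 ^ k * (r / 2 ^ j * 2 ^ j + c % 2 ^ j) + (c / 2 ^ j * 2 ^ j + r % 2 ^ j)) := by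
  induction j generalizing r c with
  | zero =>
    have e : trn (2 ^ k) 0 x = x := rfl
    rw [e]
    simp [Nat.mod_one]
  | succ j ih =>
    have hjk : j ≤ k := by omega
    set s := 2 ^ j with hs
    set m := 2 ^ (k - (j + 1)) with hm
    have hs0 : 0 < s := by positivity
    have hm0 : 0 < m := by positivity
    have hL : 2 ^ k = 2 * s * m := by
      rw [hs, hm, ← pow_succ', ← pow_add]
      congr 1
      omega
    have hp : 2 ^ k * r + c < 2 ^ k * 2 ^ k := by
      calc 2 ^ k * r + c < 2 ^ k * r + 2 ^ k := by omega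
        _ = 2 ^ k * (r + 1) := by ring
        _ ≤ 2 ^ k * 2 ^ k := Nat.mul_le_mul_left _ hr
    obtain ⟨R, a, ρ, C, b, γ, e, hR, hC, ha, hb, hρ, hγ⟩ := exists_mk hs0 hm0 hL hp
    have er : r = (2 * R + a) * s + ρ := by
      have h1 : (2 ^ k * r + c) / 2 ^ k = r := by
        rw [Nat.mul_add_div (by positivity), Nat.div_eq_of_lt hc, add_zero]
      rw [e, mk_div hL hC hb hγ] at h1
      exact h1.symm
    have ec : c = (2 * C + b) * s + γ := by
      have h1 : (2 ^ k * r + c) % 2 ^ k = c := by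
        rw [Nat.mul_add_mod, Nat.mod_eq_of_lt hc]
      rw [e, mk_mod hL hC hb hγ] at h1
      exact h1.symm
    rw [trn_succ, e, dg_swp hs hL hR hC ha hb hρ hγ]
    have e2 : mk (2 ^ k) s R b ρ C a γ = 2 ^ k * ((2 * R + b) * s + ρ) + ((2 * C + a) * s + γ) := rfl
    rw [e2, ih hjk (by rw [hL]; exact mk_col_lt rfl hR hb hρ) (by
      rw [hL]; exact mk_col_lt rfl hC ha hγ)]
    rw [div_s hρ, div_s hγ, mod_s hρ, mod_s hγ]
    have e3 : (2:ℕ) ^ (j + 1) = s * 2 := by rw [pow_succ]
    rw [er, ec, e3, div_2s ha hρ, div_2s hb hγ, mod_2s ha hρ, mod_2s hb hγ]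
    congr 1
    ring

/-- THE TRANSPOSITION -/
lemma dg_trn_full {k x r c : ℕ} (hr : r < 2 ^ k) (hc : c < 2 ^ k) :
    dg (trn (2 ^ k) k x) (2 ^ k * r + c) = dg x (2 ^ k * c + r) := by
  rw [dg_trn le_rfl hr hc, Nat.div_eq_of_lt hr, Nat.div_eq_of_lt hc, Nat.mod_eq_of_lt hr,
    Nat.mod_eq_of_lt hc]
  simp

/-! ### rows -/

lemma frc_eq (n : ℕ) (f : ℕ → ℕ) : frc n f = f n := by
  cases n <;> rfl

lemma rfc_eq (Rw : ℕ → ℕ → ℕ) (z b : ℕ) : rfc Rw z b = Rw z b := by
  unfold rfc
  rw [frc_eq, frc_eq]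

lemma guard_eq (v c x : ℕ) : guard v c x = if c < v then x else 0 := by
  have e : guard v c x = Nat.rec (motive := fun _ => ℕ) 0 (fun _ _ => x) (v - c) := rfl
  rw [e]
  split_ifs with h
  · obtain ⟨k, hk⟩ : ∃ k, v - c = k + 1 := ⟨v - c - 1, by omega⟩
    rw [hk]
  · have : v - c = 0 := by omega
    rw [this]
    rfl

lemma skip_eq {a b : ℕ} {x : Bool} (h : b ≤ a) (hx : skip a b x = true) : x = true := by
  have e : skip a b x = Nat.rec (motive := fun _ => Bool) x (fun _ _ => true) (b - a) := rfl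
  have h2 : b - a = 0 := by omega
  rw [e, h2] at hx
  exact hx

lemma bld_succ (L : ℕ) (f : ℕ → ℕ) (k c0 : ℕ) :
    bld L f (k + 1) c0 = bld L f k c0 + bld L f k (c0 + 2 ^ k) * 2 ^ (40 * (L * 2 ^ k)) := rfl

lemma bld_lt {L : ℕ} {f : ℕ → ℕ} (hf : ∀ c, f c < 2 ^ (40 * L)) (k c0 : ℕ) :
    bld L f k c0 < 2 ^ (40 * (L * 2 ^ k)) := by
  induction k generalizing c0 with
  | zero =>
    have e : bld L f 0 c0 = f c0 := rfl
    rw [e]
    simpa using hf c0
  | succ k ih =>
    rw [bld_succ]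
    have h1 := ih c0
    have h2 : bld L f k (c0 + 2 ^ k) * 2 ^ (40 * (L * 2 ^ k))
        ≤ (2 ^ (40 * (L * 2 ^ k)) - 1) * 2 ^ (40 * (L * 2 ^ k)) :=
      Nat.mul_le_mul_right _ (by have := ih (c0 + 2 ^ k); omega)
    have e : 40 * (L * 2 ^ (k + 1)) = 40 * (L * 2 ^ k) + 40 * (L * 2 ^ k) := by ring
    rw [e, pow_add]
    have h3 : (2 ^ (40 * (L * 2 ^ k)) - 1) * 2 ^ (40 * (L * 2 ^ k)) + 2 ^ (40 * (L * 2 ^ k))
        = 2 ^ (40 * (L * 2 ^ k)) * 2 ^ (40 * (L * 2 ^ k)) := by
      rw [Nat.sub_mul, one_mul]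
      have : 1 * 2 ^ (40 * (L * 2 ^ k)) ≤ 2 ^ (40 * (L * 2 ^ k)) * 2 ^ (40 * (L * 2 ^ k)) :=
        Nat.mul_le_mul_right _ Nat.one_le_two_pow
      omega
    omega

lemma dg_bld {L : ℕ} {f : ℕ → ℕ} (hf : ∀ c, f c < 2 ^ (40 * L)) {k r c : ℕ} (c0 : ℕ)
    (hr : r < 2 ^ k) (hc : c < L) : dg (bld L f k c0) (L * r + c) = dg (f (c0 + r)) c := by
  induction k generalizing c0 r with
  | zero =>
    have e : bld L f 0 c0 = f c0 := rfl
    have h0 : r = 0 := by simpa using hr
    rw [e, h0]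
    simp
  | succ k ih =>
    rw [bld_succ, dg_add_mul _ _ _ _ (bld_lt hf k c0)]
    by_cases h : r < 2 ^ k
    · have h1 : L * r + c < L * 2 ^ k := by
        calc L * r + c < L * r + L := by omega
          _ = L * (r + 1) := by ring
          _ ≤ L * 2 ^ k := Nat.mul_le_mul_left _ h
      rw [if_pos h1, ih c0 h]
    · have h1 : L * 2 ^ k ≤ L * r := Nat.mul_le_mul_left _ (by omega)
      obtain ⟨q, hq⟩ : ∃ q, r = 2 ^ k + q := ⟨r - 2 ^ k, by omega⟩
      have h2 : q < 2 ^ k := by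
        rw [pow_succ] at hr
        omega
      have h3 : L * r + c - L * 2 ^ k = L * q + c := by
        rw [hq]
        have : L * (2 ^ k + q) = L * 2 ^ k + L * q := by ring
        omega
      rw [if_neg (by omega), h3, ih (c0 + 2 ^ k) h2, hq, add_assoc]

lemma dg_mod' {x m t : ℕ} (ht : t < m) : dg (x % 2 ^ (40 * m)) t = dg x t := by
  have h := dg_cat m x 0 t
  have e : cat m x 0 = x % 2 ^ (40 * m) := by
    show x % 2 ^ (40 * m) + 2 ^ (40 * m) * 0 = _
    rw [mul_zero, add_zero]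
  rw [e, if_pos ht] at h
  exact h

lemma spl_succ (L : ℕ) (p : ℕ → ℕ → Bool) (k b0 x : ℕ) :
    spl L p (k + 1) b0 x = (spl L p k b0 (x % 2 ^ (40 * (L * 2 ^ k)))
      && spl L p k (b0 + 2 ^ k) (shf x (L * 2 ^ k))) := by
  show Bool.rec (motive := fun _ => Bool) false (spl L p k (b0 + 2 ^ k) (shf x (L * 2 ^ k)))
    (spl L p k b0 (x % 2 ^ (40 * (L * 2 ^ k)))) = _
  cases spl L p k b0 (x % 2 ^ (40 * (L * 2 ^ k))) <;> rfl

/-- every row passes the test -/
lemma spl_sound {L : ℕ} {p : ℕ → ℕ → Bool} {k b0 x : ℕ} (h : spl L p k b0 x = true) {i : ℕ}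
    (hi : i < 2 ^ k) : ∃ y, p (b0 + i) y = true ∧ ∀ c < L, dg y c = dg x (L * i + c) := by
  induction k generalizing b0 x i with
  | zero =>
    have e : spl L p 0 b0 x = p b0 x := rfl
    have h0 : i = 0 := by simpa using hi
    subst h0
    exact ⟨x, by rw [e] at h; exact h, fun c _ => by simp⟩
  | succ k ih =>
    rw [spl_succ, Bool.and_eq_true] at h
    by_cases hk : i < 2 ^ k
    · obtain ⟨y, h1, h2⟩ := ih h.1 hk
      refine ⟨y, h1, fun c hc => ?_⟩
      rw [h2 c hc]
      refine dg_mod' ?_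
      calc L * i + c < L * i + L := by omega
        _ = L * (i + 1) := by ring
        _ ≤ L * 2 ^ k := Nat.mul_le_mul_left _ hk
    · obtain ⟨q, hq⟩ : ∃ q, i = 2 ^ k + q := ⟨i - 2 ^ k, by omega⟩
      have hq2 : q < 2 ^ k := by
        rw [pow_succ] at hi
        omega
      obtain ⟨y, h1, h2⟩ := ih h.2 hq2
      refine ⟨y, by rw [hq, ← add_assoc]; exact h1, fun c hc => ?_⟩
      rw [h2 c hc, dg_shf, hq]
      congr 1
      ring

/-! ### the comparison -/

lemma ple_sound' {m x y : ℕ} (hx : ∀ c < m, dg x c < 2 ^ 39)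
    (hy : ∀ c < m, dg y c ≤ dg x c + 2 ^ 39) (h : ple m x y = true) {c : ℕ} (hc : c < m) :
    dg y c ≤ dg x c := by
  have hd := (((Rp.self m x).add ((Rp.rep m).mul 549755813888)).md (Rp.self m y)).dg
    (fun c hc => by
      have h1 : ((dg x c : ℕ) : ℤ) < 2 ^ 39 := by exact_mod_cast hx c hc
      have h2 : ((dg y c : ℕ) : ℤ) ≤ dg x c + 2 ^ 39 := by exact_mod_cast hy c hc
      have h3 : (0 : ℤ) ≤ (dg x c : ℕ) := by positivity
      have h4 : (0 : ℤ) ≤ (dg y c : ℕ) := by positivity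
      push_cast
      norm_num at *
      constructor <;> linarith) hc
  unfold ple at h
  have e := Nat.eq_of_beq_eq_true h
  have h1 : dg (Nat.land (md m (Nat.add x (Nat.mul 549755813888 (rep m))) y)
      (Nat.mul 549755813888 (rep m))) c = 549755813888 := by rw [e, dg_G hc]
  rw [dg_land, dg_G hc, land_pow39 _ (dg_lt _ _)] at h1
  have h5 : 2 ^ 39 ≤ dg (md m (Nat.add x (Nat.mul 549755813888 (rep m))) y) c := by
    by_contra k
    rw [if_neg k] at h1
    norm_num at h1
  have h6 : (549755813888 : ℤ)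
      ≤ (dg (md m (Nat.add x (Nat.mul 549755813888 (rep m))) y) c : ℕ) := by
    have h7 : (549755813888 : ℕ)
        ≤ dg (md m (Nat.add x (Nat.mul 549755813888 (rep m))) y) c := by
      norm_num at h5
      exact h5
    exact_mod_cast h7
  rw [hd] at h6
  have h8 : ((dg y c : ℕ) : ℤ) ≤ dg x c := by
    push_cast at h6
    linarith
  exact_mod_cast h8

lemma Rg_lt (m : ℕ) (sq : ℕ → List ℕ) (pos neg : ℕ → ℕ → ℕ) (z b : ℕ) :
    Rg m sq pos neg z b < 2 ^ (40 * m) := by
  show (_ % 2 ^ (40 * m) : ℕ) < 2 ^ (40 * m)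
  exact Nat.mod_lt _ (by positivity)

/-- MAIN: the fast check gives all the inequalities of the triples -/
theorem big_sound {k V : ℕ} {Rw : ℕ → ℕ → ℕ} {bd lo hi : ℕ} (hV : V ≤ 2 ^ k)
    (hbd : bd + 412316860416 < 2 ^ 39) (hlt : ∀ z b, Rw z b < 2 ^ (40 * V))
    (hrow : ∀ z < V, ∀ b < V, ∀ c < V, dg (Rw z b) c < 2 ^ 38)
    (h : bigCheck k V Rw bd lo hi = true) (hhi : hi ≤ V)
    {a b c : ℕ} (ha : lo ≤ a) (ha' : a < hi) (hba : b ≤ a) (hc : c < V) :
    dg (Rw c a) b + (dg (Rw a b) c + dg (Rw b a) c) ≤ bd + 412316860416 := by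
  have haV : a < V := by omega
  have hbV : b < V := by omega
  have e1 : rfc Rw = Rw := by
    funext z b
    exact rfc_eq Rw z b
  unfold bigCheck at h
  have h1 := (allN_iff _ _).1 h (a - lo) (by
    show a - lo < hi - lo
    omega)
  have ea : Nat.add lo (a - lo) = a := by
    show lo + (a - lo) = a
    omega
  rw [ea, e1] at h1
  unfold bigA at h1
  obtain ⟨y, hy, hyd⟩ := spl_sound h1 (i := b) (show b < 2 ^ k by omega)
  rw [zero_add] at hy
  have hy2 := skip_eq hba hy
  unfold leaf at hy2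
  set L := 2 ^ k with hL
  have hfull : ∀ c, guard V c (Rw c a) < 2 ^ (40 * L) := by
    intro c
    rw [guard_eq]
    split_ifs
    · exact (hlt c a).trans_le (Nat.pow_le_pow_right (by norm_num) (by omega))
    · positivity
  -- the digits of the transposed row
  have hyc : ∀ c < L, dg y c = if c < V then dg (Rw c a) b else 0 := by
    intro c hc
    have e2 := hyd c hc
    have e3 : dg (trn L k (bld L (fun c => guard V c (Rw c a)) k 0)) (L * b + c)
        = dg (bld L (fun c => guard V c (Rw c a)) k 0) (L * c + b) :=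
      dg_trn_full (by omega) hc
    have e4 := dg_bld hfull (k := k) (r := c) (c := b) 0 hc (by omega)
    rw [zero_add] at e4
    have e5 : dg y c = dg (guard V c (Rw c a)) b := by
      rw [← e4, ← e3]
      exact e2
    rw [e5, guard_eq]
    split_ifs
    · rfl
    · exact dg_zero _
  have hr : ∀ z < V, ∀ b < V, ∀ c, dg (Rw z b) c < 2 ^ 38 := by
    intro z hz b hb c
    by_cases hc : c < V
    · exact hrow z hz b hb c hc
    · rw [dg_of_lt (hlt z b) (by omega)]
      positivity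
  have hy38 : ∀ c < L, dg y c < 2 ^ 38 := by
    intro c hc
    rw [hyc c hc]
    split_ifs with hcV
    · exact hr c hcV a haV b
    · positivity
  have s1 : ∀ c < L, dg (Rw a b + Rw b a) c = dg (Rw a b) c + dg (Rw b a) c := fun c hc =>
    dg_add2 (n := L) (fun c _ => by
      have h1 := hr a haV b hbV c
      have h2 := hr b hbV a haV c
      omega) hc
  have s2 : ∀ c < L, dg (Rw a b + Rw b a + y) c = dg (Rw a b) c + dg (Rw b a) c + dg y c := by
    intro c hc
    rw [dg_add2 (n := L) (fun c hc => by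
      have h1 := hr a haV b hbV c
      have h2 := hr b hbV a haV c
      have h3 := hy38 c hc
      rw [s1 c hc]
      omega) hc, s1 c hc]
  have hbr : ∀ c < L, dg (Nat.mul (Nat.add bd 412316860416) (rep (Nat.pow 2 k))) c
      = bd + 412316860416 := by
    intro c hc
    have h := ((Rp.rep L).mul (bd + 412316860416)).dg (fun c _ => ⟨by positivity, by
      have : ((bd + 412316860416 : ℕ) : ℤ) < 2 ^ 39 := by exact_mod_cast hbd
      norm_num at *
      linarith⟩) hc
    have h2 : ((dg (Nat.mul (Nat.add bd 412316860416) (rep (Nat.pow 2 k))) c : ℕ) : ℤ)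
        = ((bd + 412316860416 : ℕ) : ℤ) * 1 := h
    rw [mul_one] at h2
    exact_mod_cast h2
  have fin := ple_sound' (m := L) (x := Nat.mul (Nat.add bd 412316860416) (rep (Nat.pow 2 k)))
    (y := Rw a b + Rw b a + y) (fun c hc => by rw [hbr c hc]; exact hbd) (fun c hc => by
      have h1 := hr a haV b hbV c
      have h2 := hr b hbV a haV c
      have h3 := hy38 c hc
      rw [hbr c hc, s2 c hc]
      norm_num at *
      omega) hy2 (c := c) (by omega)
  rw [hbr c (by omega), s2 c (by omega), hyc c (by omega), if_pos hc] at fin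
  omega

/-- the fast check implies the plain check -/
theorem gen_of_big {k V : ℕ} {sq : ℕ → List ℕ} {pos neg : ℕ → ℕ → ℕ} {bd lo hi : ℕ}
    (hV : V ≤ 2 ^ k) (hbd : bd + 412316860416 < 2 ^ 39) (hb : bndg V sq = true)
    (h : bigCheck k V (Rg V sq pos neg) bd lo hi = true) (hhi : hi ≤ V)
    {X Y : ℕ → ℕ → ℕ → ℤ}
    (hX : ∀ z < V, ∀ b < V, Rp V (pos z b) (X z b)) (hY : ∀ z < V, ∀ b < V, Rp V (neg z b) (Y z b))
    (bX : ∀ z < V, ∀ b < V, ∀ c < V, 0 ≤ X z b c ∧ X z b c ≤ 2 ^ 36)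
    (bY : ∀ z < V, ∀ b < V, ∀ c < V, 0 ≤ Y z b c ∧ Y z b c ≤ 2 ^ 36) :
    genCheck V sq pos neg bd lo hi = true := by
  have hR : ∀ z < V, ∀ b < V, Rp V (Rg V sq pos neg z b) (fun c =>
      2 * SSg sq z b c + 137438953472 + X z b c - Y z b c) := by
    intro z hz b hb'
    have := bndg_sound hb hz
    exact Rp.sqrow hb' this.1 this.2 (hX z hz b hb') (hY z hz b hb')
  have hB : ∀ z < V, ∀ b < V, ∀ c < V, 0 ≤ 2 * SSg sq z b c + 137438953472 + X z b c - Y z b c
      ∧ 2 * SSg sq z b c + 137438953472 + X z b c - Y z b c < 2 ^ 38 := by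
    intro z hz b hb' c hc
    have h4 := bndg_sound hb hz
    have hlen : ((sq z).length : ℤ) ≤ 64 := by exact_mod_cast h4.1
    have hlen0 : (0:ℤ) ≤ (sq z).length := by positivity
    have hh := sum_bounds (sq z) (fun p => ((dg p b : ℤ) - 16384) * ((dg p c : ℤ) - 16384))
      (A := -2 ^ 28) (B := 2 ^ 28) (fun p hp => by
        have h1 : ((dg p b : ℕ) : ℤ) < 32768 := by exact_mod_cast h4.2 p hp _
        have h2 : ((dg p c : ℕ) : ℤ) < 32768 := by exact_mod_cast h4.2 p hp _
        have h3 : (0:ℤ) ≤ (dg p b : ℕ) := by positivity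
        have h4 : (0:ℤ) ≤ (dg p c : ℕ) := by positivity
        constructor <;> nlinarith)
    have s1 : -2 ^ 34 ≤ SSg sq z b c := by
      unfold SSg
      refine le_trans ?_ hh.1
      nlinarith
    have s2 : SSg sq z b c ≤ 2 ^ 34 := by
      unfold SSg
      refine hh.2.trans ?_
      nlinarith
    have x1 := bX z hz b hb' c hc
    have y1 := bY z hz b hb' c hc
    norm_num at *
    constructor <;> linarith [x1.1, x1.2, y1.1, y1.2]
  have hrow : ∀ z < V, ∀ b < V, ∀ c < V, dg (Rg V sq pos neg z b) c < 2 ^ 38 := by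
    intro z hz b hb' c hc
    have r1 := (hR z hz b hb').dg (fun k hk => ⟨(hB z hz b hb' k hk).1,
      (hB z hz b hb' k hk).2.trans (by norm_num)⟩) hc
    have r2 := (hB z hz b hb' c hc).2
    rw [← r1] at r2
    exact_mod_cast r2
  unfold genCheck
  refine (allN_iff _ _).2 fun a' ha' => (allN_iff _ _).2 fun b hb' => ?_
  have ha1 : a' < hi - lo := ha'
  have hb1 : b < lo + a' + 1 := hb'
  unfold innerg
  refine (allN_iff _ _).2 fun c hc => ?_
  have key := big_sound hV hbd (fun z b => Rg_lt V sq pos neg z b) hrow h hhi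
    (a := lo + a') (b := b) (c := c) (by omega) (by omega) (by omega) hc
  have e : dg (Nat.add (Rg V sq pos neg (Nat.add lo a') b) (Rg V sq pos neg b (Nat.add lo a'))) c
      = dg (Rg V sq pos neg (lo + a') b) c + dg (Rg V sq pos neg b (lo + a')) c := by
    refine dg_add2 (n := V) (fun c hc => ?_) hc
    have h1 := hrow (lo + a') (by omega) b (by omega) c hc
    have h2 := hrow b (by omega) (lo + a') (by omega) c hc
    have h1' : dg (Rg V sq pos neg (Nat.add lo a') b) c < 2 ^ 38 := h1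
    have h2' : dg (Rg V sq pos neg b (Nat.add lo a')) c < 2 ^ 38 := h2
    omega
  refine Nat.ble_eq_true_of_le ?_
  show dg (Rg V sq pos neg c (lo + a')) b + dg (Nat.add (Rg V sq pos neg (Nat.add lo a') b)
    (Rg V sq pos neg b (Nat.add lo a'))) c ≤ bd + 412316860416
  rw [e]
  exact key

end MP61673a.KC
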