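import Pool.Agent.Mu673.KCrowT

/-!
FAST MAIN LOOP, second version: per node `a` one packed comparison of all pairs `(b, c)`; the rows
are computed once per module (kernel cache), so one module should hold all nodes.
-/

set_option autoImplicit false

namespace MP61673a.KC

open Finset

noncomputable section

/-- concatenation of the rows `f (c0 + i)`, `i < 2^k`, of `L` digits, by shifts -/
def bls (L : ℕ) (f : ℕ → ℕ) (k : ℕ) : ℕ → ℕ :=
  Nat.rec (motive := fun _ => ℕ → ℕ) (fun c0 => frc c0 f)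
    (fun i ih c0 => Nat.add (ih c0) (Nat.shiftLeft (ih (Nat.add c0 (Nat.pow 2 i)))
      (Nat.mul 40 (Nat.mul L (Nat.pow 2 i))))) k

/-- one level of the transposition, with the masks given -/
def swq (L j up dn x : ℕ) : ℕ :=
  Nat.add (Nat.add
    (Nat.land x (Nat.sub (Nat.sub (bp (Nat.mul L L)) 1) (Nat.add up dn)))
    (Nat.shiftLeft (Nat.land x up) (Nat.mul 40 (Nat.mul (Nat.pow 2 j) (Nat.sub L 1)))))
    (shf (Nat.land x dn) (Nat.mul (Nat.pow 2 j) (Nat.sub L 1)))

/-- transposition: levels `0 .. j-1` -/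
def trq (L j x : ℕ) : ℕ :=
  Nat.rec (motive := fun _ => ℕ) x (fun i ih => swq L i (mup L i) (mdn L i) ih) j

/-- forces `n` to a literal -/
def frcBk (n : ℕ) (f : ℕ → Bool) : Bool :=
  Nat.rec (motive := fun _ => Bool) (f 0) (fun m _ => f (Nat.succ m)) n

/-- the rows of the sampler `a` -/
def mtA (k V : ℕ) (Rw : ℕ → ℕ → ℕ) (a : ℕ) : ℕ :=
  bls (Nat.pow 2 k) (fun b => guard V b (Rw a b)) k 0

/-- the rows `a` of all samplers -/
def mtB (k V : ℕ) (Rw : ℕ → ℕ → ℕ) (a : ℕ) : ℕ :=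
  bls (Nat.pow 2 k) (fun z => guard V z (Rw z a)) k 0

/-- all triples with the first node `a` -/
def fasA (k V : ℕ) (Rw : ℕ → ℕ → ℕ) (bdr a : ℕ) : Bool :=
  ple (Nat.mul (Nat.pow 2 k) (Nat.pow 2 k)) bdr
    (Nat.add (Nat.add (mtA k V Rw a) (mtB k V Rw a)) (trq (Nat.pow 2 k) k (mtB k V Rw a)))

/-- all triples with `lo ≤ a < hi` -/
def fasCheck (k V : ℕ) (Rw : ℕ → ℕ → ℕ) (bd lo hi : ℕ) : Bool :=
  allN (Nat.sub hi lo) (fun a' => frcBk (Nat.add lo a') (fun a =>
    fasA k V Rw (Nat.mul (Nat.add bd 412316860416) (rep (Nat.mul (Nat.pow 2 k) (Nat.pow 2 k)))) a))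

/-- the fast check of a row certificate, triples with `lo ≤ a < hi`, `V ≤ 2^k` -/
def rowCheckF (k : ℕ) (d : DatR) (lo hi : ℕ) : Bool :=
  fasCheck k (vR d.segs) (Rg (vR d.segs) (sqR d) (posR d) (negR d)) d.Bd lo hi

end

lemma shl_eq (x n : ℕ) : Nat.shiftLeft x n = x * 2 ^ n := Nat.shiftLeft_eq x n

lemma frcBk_eq (n : ℕ) (f : ℕ → Bool) : frcBk n f = f n := by
  cases n <;> rfl

lemma bls_eq (L : ℕ) (f : ℕ → ℕ) (k c0 : ℕ) : bls L f k c0 = bld L f k c0 := by
  induction k generalizing c0 with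
  | zero => exact frc_eq c0 f
  | succ k ih =>
    rw [bld_succ, ← ih, ← ih]
    show bls L f k c0 + Nat.shiftLeft (bls L f k (c0 + 2 ^ k)) (40 * (L * 2 ^ k)) = _
    rw [shl_eq]

lemma swq_eq (L j up dn x : ℕ) : swq L j up dn x = swp L j up dn x := by
  unfold swq swp
  rw [shl_eq]
  rfl

lemma trq_eq (L j x : ℕ) : trq L j x = trn L j x := by
  induction j with
  | zero => rfl
  | succ j ih =>
    rw [trn_succ, ← ih, ← swq_eq]
    rfl

/-- MAIN: the fast check gives all the inequalities of the triples -/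
theorem fas_sound {k V : ℕ} {Rw : ℕ → ℕ → ℕ} {bd lo hi : ℕ} (hV : V ≤ 2 ^ k)
    (hbd : bd + 412316860416 < 2 ^ 39) (hlt : ∀ z b, Rw z b < 2 ^ (40 * V))
    (hrow : ∀ z < V, ∀ b < V, ∀ c < V, dg (Rw z b) c < 2 ^ 38)
    (h : fasCheck k V Rw bd lo hi = true) (hhi : hi ≤ V)
    {a b c : ℕ} (ha : lo ≤ a) (ha' : a < hi) (hb : b < V) (hc : c < V) :
    dg (Rw c a) b + (dg (Rw a b) c + dg (Rw b a) c) ≤ bd + 412316860416 := by
  have haV : a < V := by omega
  unfold fasCheck at h
  have h1 := (allN_iff _ _).1 h (a - lo) (by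
    show a - lo < hi - lo
    omega)
  rw [frcBk_eq] at h1
  have ea : Nat.add lo (a - lo) = a := by
    show lo + (a - lo) = a
    omega
  rw [ea] at h1
  unfold fasA at h1
  set L := 2 ^ k with hL
  have e0 : Nat.pow 2 k = L := rfl
  rw [e0] at h1
  have hA : ∀ b, guard V b (Rw a b) < 2 ^ (40 * L) := by
    intro b
    rw [guard_eq]
    split_ifs
    · exact (hlt a b).trans_le (Nat.pow_le_pow_right (by norm_num) (by omega))
    · positivity
  have hB : ∀ z, guard V z (Rw z a) < 2 ^ (40 * L) := by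
    intro z
    rw [guard_eq]
    split_ifs
    · exact (hlt z a).trans_le (Nat.pow_le_pow_right (by norm_num) (by omega))
    · positivity
  have hr : ∀ z < V, ∀ b < V, ∀ c, dg (Rw z b) c < 2 ^ 38 := by
    intro z hz b hb c
    by_cases hc : c < V
    · exact hrow z hz b hb c hc
    · rw [dg_of_lt (hlt z b) (by omega)]
      positivity
  -- the digits of the three matrices
  have dA : ∀ r < L, ∀ c < L, dg (mtA k V Rw a) (L * r + c) = if r < V then dg (Rw a r) c else 0 := by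
    intro r hr c hc
    unfold mtA
    rw [e0, bls_eq, dg_bld hA 0 hr hc, zero_add, guard_eq]
    split_ifs
    · rfl
    · exact dg_zero _
  have dB : ∀ r < L, ∀ c < L, dg (mtB k V Rw a) (L * r + c) = if r < V then dg (Rw r a) c else 0 := by
    intro r hr c hc
    unfold mtB
    rw [e0, bls_eq, dg_bld hB 0 hr hc, zero_add, guard_eq]
    split_ifs
    · rfl
    · exact dg_zero _
  have dC : ∀ r < L, ∀ c < L, dg (trq L k (mtB k V Rw a)) (L * r + c)
      = if c < V then dg (Rw c a) r else 0 := by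
    intro r hr c hc
    rw [trq_eq, dg_trn_full hr hc, dB c hc r hr]
  have bA : ∀ r < L, ∀ c < L, dg (mtA k V Rw a) (L * r + c) < 2 ^ 38 := by
    intro r h1 c h2
    rw [dA r h1 c h2]
    split_ifs with h3
    · exact hr a haV r h3 c
    · positivity
  have bB : ∀ r < L, ∀ c < L, dg (mtB k V Rw a) (L * r + c) < 2 ^ 38 := by
    intro r h1 c h2
    rw [dB r h1 c h2]
    split_ifs with h3
    · exact hr r h3 a haV c
    · positivity
  have bC : ∀ r < L, ∀ c < L, dg (trq L k (mtB k V Rw a)) (L * r + c) < 2 ^ 38 := by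
    intro r h1 c h2
    rw [dC r h1 c h2]
    split_ifs with h3
    · exact hr c h3 a haV r
    · positivity
  have hLpos : 0 < L := by omega
  have split : ∀ p < L * L, ∃ r < L, ∃ c < L, p = L * r + c := by
    intro p hp
    refine ⟨p / L, Nat.div_lt_of_lt_mul hp, p % L, Nat.mod_lt _ hLpos, ?_⟩
    exact (Nat.div_add_mod p L).symm
  have s1 : ∀ p < L * L, dg (mtA k V Rw a + mtB k V Rw a) p
      = dg (mtA k V Rw a) p + dg (mtB k V Rw a) p := fun p hp =>
    dg_add2 (n := L * L) (fun p hp => by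
      obtain ⟨r, hr, c, hc, rfl⟩ := split p hp
      have h1 := bA r hr c hc
      have h2 := bB r hr c hc
      omega) hp
  have s2 : ∀ p < L * L, dg (mtA k V Rw a + mtB k V Rw a + trq L k (mtB k V Rw a)) p
      = dg (mtA k V Rw a) p + dg (mtB k V Rw a) p + dg (trq L k (mtB k V Rw a)) p := by
    intro p hp
    rw [dg_add2 (n := L * L) (fun p hp => by
      rw [s1 p hp]
      obtain ⟨r, hr, c, hc, rfl⟩ := split p hp
      have h1 := bA r hr c hc
      have h2 := bB r hr c hc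
      have h3 := bC r hr c hc
      omega) hp, s1 p hp]
  have hbr : ∀ c < L * L, dg (Nat.mul (Nat.add bd 412316860416) (rep (Nat.mul L L))) c
      = bd + 412316860416 := by
    intro c hc
    have h := ((Rp.rep (L * L)).mul (bd + 412316860416)).dg (fun c _ => ⟨by positivity, by
      have : ((bd + 412316860416 : ℕ) : ℤ) < 2 ^ 39 := by exact_mod_cast hbd
      norm_num at *
      linarith⟩) hc
    have h2 : ((dg (Nat.mul (Nat.add bd 412316860416) (rep (Nat.mul L L))) c : ℕ) : ℤ)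
        = ((bd + 412316860416 : ℕ) : ℤ) * 1 := h
    rw [mul_one] at h2
    exact_mod_cast h2
  have hbL : b < L := by omega
  have hcL : c < L := by omega
  have hp : L * b + c < L * L := by
    calc L * b + c < L * b + L := by omega
      _ = L * (b + 1) := by ring
      _ ≤ L * L := Nat.mul_le_mul_left _ hbL
  have fin := ple_sound' (m := L * L) (x := Nat.mul (Nat.add bd 412316860416) (rep (Nat.mul L L)))
    (y := mtA k V Rw a + mtB k V Rw a + trq L k (mtB k V Rw a))
    (fun c hc => by rw [hbr c hc]; exact hbd) (fun p hp => by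
      rw [hbr p hp, s2 p hp]
      obtain ⟨r, hr, c, hc, rfl⟩ := split p hp
      have h1 := bA r hr c hc
      have h2 := bB r hr c hc
      have h3 := bC r hr c hc
      norm_num at *
      omega) h1 hp
  rw [hbr _ hp, s2 _ hp, dA b hbL c hcL, dB b hbL c hcL, dC b hbL c hcL, if_pos hb, if_pos hb,
    if_pos hc] at fin
  omega

/-- the fast check implies the plain check -/
theorem gen_of_fas {k V : ℕ} {sq : ℕ → List ℕ} {pos neg : ℕ → ℕ → ℕ} {bd lo hi : ℕ}
    (hV : V ≤ 2 ^ k) (hbd : bd + 412316860416 < 2 ^ 39) (hb : bndg V sq = true)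
    (h : fasCheck k V (Rg V sq pos neg) bd lo hi = true) (hhi : hi ≤ V)
    {X Y : ℕ → ℕ → ℕ → ℤ}
    (hX : ∀ z < V, ∀ b < V, Rp V (pos z b) (X z b)) (hY : ∀ z < V, ∀ b < V, Rp V (neg z b) (Y z b))
    (bX : ∀ z < V, ∀ b < V, ∀ c < V, 0 ≤ X z b c ∧ X z b c ≤ 2 ^ 36)
    (bY : ∀ z < V, ∀ b < V, ∀ c < V, 0 ≤ Y z b c ∧ Y z b c ≤ 2 ^ 36) :
    genCheck V sq pos neg bd lo hi = true := by
  have hR : ∀ z < V, ∀ b < V, Rp V (Rg V sq pos neg z b) (fun c =>
      2 * SSg sq z b c + 137438953472 + X z b c - Y z b c) := by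
    intro z hz b hb'
    have := bndg_sound hb hz
    exact Rp.sqrow hb' this.1 this.2 (hX z hz b hb') (hY z hz b hb')
  have hB : ∀ z < V, ∀ b < V, ∀ c < V, 0 ≤ 2 * SSg sq z b c + 137438953472 + X z b c - Y z b c
      ∧ 2 * SSg sq z b c + 137438953472 + X z b c - Y z b c < 2 ^ 38 := by
    intro z hz b hb' c hc
    have h4 := bndg_sound hb hz
    have hlen : ((sq z).length : ℤ) ≤ 64 := by exact_mod_cast h4.1
    have hlen0 : (0:ℤ) ≤ (sq z).length := by positivity
    have hh := sum_bounds (sq z) (fun p => ((dg p b : ℤ) - 16384) * ((dg p c : ℤ) - 16384))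
      (A := -2 ^ 28) (B := 2 ^ 28) (fun p hp => by
        have h1 : ((dg p b : ℕ) : ℤ) < 32768 := by exact_mod_cast h4.2 p hp _
        have h2 : ((dg p c : ℕ) : ℤ) < 32768 := by exact_mod_cast h4.2 p hp _
        have h3 : (0:ℤ) ≤ (dg p b : ℕ) := by positivity
        have h4 : (0:ℤ) ≤ (dg p c : ℕ) := by positivity
        constructor <;> nlinarith)
    have s1 : -2 ^ 34 ≤ SSg sq z b c := by
      unfold SSg
      refine le_trans ?_ hh.1
      nlinarith
    have s2 : SSg sq z b c ≤ 2 ^ 34 := by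
      unfold SSg
      refine hh.2.trans ?_
      nlinarith
    have x1 := bX z hz b hb' c hc
    have y1 := bY z hz b hb' c hc
    norm_num at *
    constructor <;> linarith [x1.1, x1.2, y1.1, y1.2]
  have hrow : ∀ z < V, ∀ b < V, ∀ c < V, dg (Rg V sq pos neg z b) c < 2 ^ 38 := by
    intro z hz b hb' c hc
    have r1 := (hR z hz b hb').dg (fun k hk => ⟨(hB z hz b hb' k hk).1,
      (hB z hz b hb' k hk).2.trans (by norm_num)⟩) hc
    have r2 := (hB z hz b hb' c hc).2
    rw [← r1] at r2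
    exact_mod_cast r2
  unfold genCheck
  refine (allN_iff _ _).2 fun a' ha' => (allN_iff _ _).2 fun b hb' => ?_
  have ha1 : a' < hi - lo := ha'
  have hb1 : b < lo + a' + 1 := hb'
  unfold innerg
  refine (allN_iff _ _).2 fun c hc => ?_
  have key := fas_sound hV hbd (fun z b => Rg_lt V sq pos neg z b) hrow h hhi
    (a := lo + a') (b := b) (c := c) (by omega) (by omega) (by omega) hc
  have e : dg (Nat.add (Rg V sq pos neg (Nat.add lo a') b) (Rg V sq pos neg b (Nat.add lo a'))) c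
      = dg (Rg V sq pos neg (lo + a') b) c + dg (Rg V sq pos neg b (lo + a')) c := by
    refine dg_add2 (n := V) (fun c hc => ?_) hc
    have h1 := hrow (lo + a') (by omega) b (by omega) c hc
    have h2 := hrow b (by omega) (lo + a') (by omega) c hc
    have h1' : dg (Rg V sq pos neg (Nat.add lo a') b) c < 2 ^ 38 := h1
    have h2' : dg (Rg V sq pos neg b (Nat.add lo a')) c < 2 ^ 38 := h2
    omega
  refine Nat.ble_eq_true_of_le ?_
  show dg (Rg V sq pos neg c (lo + a')) b + dg (Nat.add (Rg V sq pos neg (Nat.add lo a') b)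
    (Rg V sq pos neg b (Nat.add lo a'))) c ≤ bd + 412316860416
  rw [e]
  exact key

/-- the fast check gives the inequality of the triples -/
theorem row_soundF (d : DatR) (hb : bndR d = true) (hc : cnsR d = true) {k lo hi : ℕ}
    (hV : vR d.segs ≤ 2 ^ k) (hbd : d.Bd + 412316860416 < 2 ^ 39)
    (h : rowCheckF k d lo hi = true) (hhi : hi ≤ vR d.segs) {a b c : ℕ} (ha : lo ≤ a)
    (ha' : a < hi) (hba : b ≤ a) (hcV : c < vR d.segs) :
    WR d a b c + WR d b a c + WR d c a b ≤ d.Bd := by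
  have hB := bndR_imp hb
  have hC := cnsR_imp hc
  have tX : ∀ z < vR d.segs, ∀ b < vR d.segs, Rp (vR d.segs) (posR d z b) (fun c =>
      KR d z b c + ((dg d.ap z : ℕ) : ℤ) * 1
        + (d.fn.map fun f => ((dg f.lp z : ℕ) : ℤ) * (dg (nth16 0 f.mat b) c : ℤ)).sum) :=
    fun z hz b hb' => ((plrow_rp hB hC hz hb').add ((Rp.rep _).mul (dg d.ap z))).add
      (Rp.sumL (fun f : FnR => Nat.mul (dg f.lp z) (nth16 0 f.mat b)) _ d.fn
        fun f _ => (Rp.self _ (nth16 0 f.mat b)).mul (dg f.lp z))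
  have tY : ∀ z < vR d.segs, ∀ b < vR d.segs, Rp (vR d.segs) (negR d z b) (fun c =>
      ((dg d.an z : ℕ) : ℤ) * 1
        + (d.fn.map fun f => ((dg f.ln z : ℕ) : ℤ) * (dg (nth16 0 f.mat b) c : ℤ)).sum) :=
    fun z _ b _ => ((Rp.rep _).mul (dg d.an z)).add
      (Rp.sumL (fun f : FnR => Nat.mul (dg f.ln z) (nth16 0 f.mat b)) _ d.fn
        fun f _ => (Rp.self _ (nth16 0 f.mat b)).mul (dg f.ln z))
  have bX : ∀ z < vR d.segs, ∀ b < vR d.segs, ∀ c < vR d.segs,
      0 ≤ KR d z b c + ((dg d.ap z : ℕ) : ℤ) * 1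
        + (d.fn.map fun f => ((dg f.lp z : ℕ) : ℤ) * (dg (nth16 0 f.mat b) c : ℤ)).sum
      ∧ KR d z b c + ((dg d.ap z : ℕ) : ℤ) * 1
        + (d.fn.map fun f => ((dg f.lp z : ℕ) : ℤ) * (dg (nth16 0 f.mat b) c : ℤ)).sum
          ≤ 2 ^ 36 := by
    intro z hz b hb' c _
    have f1 := (fnR_sum hB.fn hB.fl hb' z c).1
    have k1 := KR_bound hB hz b c
    have a1 : ((dg d.ap z : ℕ) : ℤ) < 2 ^ 32 := by exact_mod_cast hB.ap z
    have a2 : (0:ℤ) ≤ (dg d.ap z : ℕ) := by positivity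
    norm_num at *
    constructor <;> linarith [f1.1, f1.2, k1.1, k1.2]
  have bY : ∀ z < vR d.segs, ∀ b < vR d.segs, ∀ c < vR d.segs,
      0 ≤ ((dg d.an z : ℕ) : ℤ) * 1
        + (d.fn.map fun f => ((dg f.ln z : ℕ) : ℤ) * (dg (nth16 0 f.mat b) c : ℤ)).sum
      ∧ ((dg d.an z : ℕ) : ℤ) * 1
        + (d.fn.map fun f => ((dg f.ln z : ℕ) : ℤ) * (dg (nth16 0 f.mat b) c : ℤ)).sum
          ≤ 2 ^ 36 := by
    intro z hz b hb' c _
    have f1 := (fnR_sum hB.fn hB.fl hb' z c).2
    have a1 : ((dg d.an z : ℕ) : ℤ) < 2 ^ 32 := by exact_mod_cast hB.an z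
    have a2 : (0:ℤ) ≤ (dg d.an z : ℕ) := by positivity
    norm_num at *
    constructor <;> linarith [f1.1, f1.2]
  have hg := gen_of_fas (k := k) (V := vR d.segs) (sq := sqR d) (pos := posR d) (neg := negR d)
    (bd := d.Bd) (lo := lo) (hi := hi) hV hbd hB.sq h hhi tX tY bX bY
  have key := gen_sound hB.sq hg hhi tX tY bX bY ha ha' hba hcV
  have e : ∀ z b c, WR d z b c = (KR d z b c + ((dg d.ap z : ℕ) : ℤ) * 1
        + (d.fn.map fun f => ((dg f.lp z : ℕ) : ℤ) * (dg (nth16 0 f.mat b) c : ℤ)).sum)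
      - (((dg d.an z : ℕ) : ℤ) * 1
        + (d.fn.map fun f => ((dg f.ln z : ℕ) : ℤ) * (dg (nth16 0 f.mat b) c : ℤ)).sum)
      + 2 * SSg (sqR d) z b c := by
    intro z b c
    unfold WR
    have e1 : (d.fn.map fun f => (((dg f.lp z : ℕ) : ℤ) - (dg f.ln z : ℕ))
        * (dg (nth16 0 f.mat b) c : ℤ)).sum
        = (d.fn.map fun f => ((dg f.lp z : ℕ) : ℤ) * (dg (nth16 0 f.mat b) c : ℤ)).sum
          - (d.fn.map fun f => ((dg f.ln z : ℕ) : ℤ) * (dg (nth16 0 f.mat b) c : ℤ)).sum := by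
      induction d.fn with
      | nil => simp
      | cons a l ih =>
        simp only [List.map_cons, List.sum_cons]
        rw [ih]
        ring
    rw [e1]
    ring
  rw [e a b c, e b a c, e c a b]
  linarith

theorem RowOK.of_fast {k : ℕ} {d : DatR} (h : okR k d = true) {lo hi : ℕ}
    (hc : rowCheckF k d lo hi = true) (hhi : hi ≤ vR d.segs) : RowOK d lo hi := by
  obtain ⟨h1, h2, _, h4, h5⟩ := okR_imp h
  intro a ha ha' b hb c hcV
  exact row_soundF d h1 h2 h4 h5 hc hhi ha ha' hb hcV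

end MP61673a.KC
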