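import Pool.Agent.Mu673.KCfast

/-!
FAST MASKS for the packed transposition: doubling instead of a sum over all rows (memory and time).
-/

set_option autoImplicit false

namespace MP61673a.KC

open Finset

noncomputable section

/-- `∑ r < 2^k with bit j of r equal to 0, 2^(w r)` -/
def zb (w j k : ℕ) : ℕ :=
  Nat.rec (motive := fun _ => ℕ) 1 (fun i ih => Bool.rec (motive := fun _ => ℕ)
    (Nat.add ih (Nat.shiftLeft ih (Nat.mul w (Nat.pow 2 i)))) ih (Nat.beq i j)) k

/-- digits `2^40 - 1` at the rows and columns with bit `j` equal to `0`, `2^k` columns -/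
def zz (L j k : ℕ) : ℕ := Nat.mul (Nat.mul 1099511627775 (zb 40 j k)) (zb (Nat.mul 40 L) j k)

/-- sources that move up -/
def muF (L j k : ℕ) : ℕ := Nat.shiftLeft (zz L j k) (Nat.mul 40 (Nat.pow 2 j))

/-- sources that move down -/
def mdF (L j k : ℕ) : ℕ := Nat.shiftLeft (zz L j k) (Nat.mul (Nat.mul 40 L) (Nat.pow 2 j))

/-- transposition with fast masks: levels `0 .. j-1` -/
def trf (L k j x : ℕ) : ℕ :=
  Nat.rec (motive := fun _ => ℕ) x (fun i ih => swq L i (muF L i k) (mdF L i k) ih) j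

end

lemma zb_succ_ne {w j k : ℕ} (h : k ≠ j) : zb w j (k + 1) = zb w j k + zb w j k * 2 ^ (w * 2 ^ k) := by
  have e : zb w j (k + 1) = Bool.rec (motive := fun _ => ℕ)
    (Nat.add (zb w j k) (Nat.shiftLeft (zb w j k) (Nat.mul w (Nat.pow 2 k)))) (zb w j k)
      (Nat.beq k j) := rfl
  have hb : Nat.beq k j = false := by
    cases hh : Nat.beq k j with
    | false => rfl
    | true => exact absurd (Nat.eq_of_beq_eq_true hh) h
  rw [e, hb, shl_eq]
  rfl

lemma zb_succ_self (w j : ℕ) : zb w j (j + 1) = zb w j j := by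
  have e : zb w j (j + 1) = Bool.rec (motive := fun _ => ℕ)
    (Nat.add (zb w j j) (Nat.shiftLeft (zb w j j) (Nat.mul w (Nat.pow 2 j)))) (zb w j j)
      (Nat.beq j j) := rfl
  rw [e, Nat.beq_refl j]

lemma msb_congr {f g : ℕ → ℕ} {n : ℕ} (w : ℕ) (h : ∀ r < n, f r = g r) : msb f w n = msb g w n := by
  induction n with
  | zero => rfl
  | succ n ih =>
    rw [msb_succ, msb_succ, ih fun r hr => h r (by omega), h n (by omega)]

lemma msb_split (f : ℕ → ℕ) (w m n : ℕ) :
    msb f w (m + n) = msb f w m + msb (fun r => f (m + r)) w n * 2 ^ (w * m) := by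
  induction n with
  | zero =>
    have e : msb (fun r => f (m + r)) w 0 = 0 := rfl
    rw [e, zero_mul, add_zero, add_zero]
  | succ n ih =>
    rw [← add_assoc, msb_succ, msb_succ, ih, add_mul, mul_add w, pow_add]
    ring

lemma msb_zero_fun (w n : ℕ) : msb (fun _ => 0) w n = 0 := by
  induction n with
  | zero => rfl
  | succ n ih =>
    rw [msb_succ, ih, zero_mul]
    rfl

lemma bit_small {j r : ℕ} (h : r < 2 ^ j) : bitj j r = 0 := by
  rw [bitj_eq, Nat.div_eq_of_lt h]

lemma bit_self {j r : ℕ} (h : r < 2 ^ j) : bitj j (2 ^ j + r) = 1 := by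
  rw [bitj_eq, Nat.add_div_left _ (by positivity), Nat.div_eq_of_lt h]

lemma bit_shift {i j : ℕ} (r : ℕ) (h : j < i) : bitj j (2 ^ i + r) = bitj j r := by
  obtain ⟨t, rfl⟩ : ∃ t, i = j + 1 + t := ⟨i - (j + 1), by omega⟩
  have e : 2 ^ (j + 1 + t) + r = r + 2 ^ j * (2 * 2 ^ t) := by
    rw [pow_add, pow_succ]
    ring
  rw [bitj_eq, bitj_eq, e, Nat.add_mul_div_left _ _ (by positivity), Nat.add_mul_mod_self_left]

/-- ones at the bit `0` -/
lemma zb_eq (w j k : ℕ) : zb w j k = msb (fun r => 1 - bitj j r) w (2 ^ k) := by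
  induction k with
  | zero =>
    have e : msb (fun r => 1 - bitj j r) w (2 ^ 0) = 0 + (1 - bitj j 0) * 2 ^ (w * 0) := rfl
    rw [e, bit_small (by positivity), mul_zero, pow_zero]
    rfl
  | succ k ih =>
    rw [pow_succ, mul_two, msb_split, ← ih]
    rcases eq_or_ne k j with rfl | h
    · rw [zb_succ_self, msb_congr (g := fun _ => 0) w fun r hr => by rw [bit_self hr],
        msb_zero_fun, zero_mul, add_zero]
    · rw [zb_succ_ne h]
      congr 2
      rw [ih]
      refine msb_congr w fun r hr => ?_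
      rcases lt_or_gt_of_ne h with h1 | h1
      · rw [bit_small (j := j) (r := r) (hr.trans_le (Nat.pow_le_pow_right (by norm_num) h1.le)),
          bit_small]
        have : 2 ^ (k + 1) ≤ 2 ^ j := Nat.pow_le_pow_right (by norm_num) h1
        rw [pow_succ] at this
        omega
      · rw [bit_shift r h1]

/-- ones at the bit `1` -/
lemma zb_eq' {w j k : ℕ} (hj : j < k) : msb (fun r => bitj j r) w (2 ^ k)
    = zb w j k * 2 ^ (w * 2 ^ j) := by
  induction k with
  | zero => omega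
  | succ k ih =>
    rw [pow_succ, mul_two, msb_split]
    rcases eq_or_ne k j with rfl | h
    · rw [zb_succ_self, msb_congr (g := fun _ => 0) w fun r hr => bit_small hr, msb_zero_fun,
        zero_add, zb_eq]
      congr 1
      refine msb_congr w fun r hr => ?_
      rw [bit_self hr, bit_small hr]
    · have h1 : j < k := by omega
      rw [zb_succ_ne h, ih h1, msb_congr (g := fun r => bitj j r) w fun r _ => bit_shift r h1,
        ih h1]
      ring

lemma muF_eq {k j : ℕ} (hj : j < k) : muF (2 ^ k) j k = mup (2 ^ k) j := by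
  have e1 : colm (2 ^ k) j = 1099511627775 * (zb 40 j k * 2 ^ (40 * 2 ^ j)) := by
    rw [← zb_eq' hj, msb_mul]
    rfl
  have e2 : rown (2 ^ k) j = zb (40 * 2 ^ k) j k := by
    rw [zb_eq]
    rfl
  unfold muF zz
  rw [shl_eq]
  show 1099511627775 * zb 40 j k * zb (40 * 2 ^ k) j k * 2 ^ (40 * 2 ^ j)
    = colm (2 ^ k) j * rown (2 ^ k) j
  rw [e1, e2]
  ring

lemma mdF_eq {k j : ℕ} (hj : j < k) : mdF (2 ^ k) j k = mdn (2 ^ k) j := by
  have e1 : coln (2 ^ k) j = 1099511627775 * zb 40 j k := by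
    rw [zb_eq, msb_mul]
    rfl
  have e2 : rowm (2 ^ k) j = zb (40 * 2 ^ k) j k * 2 ^ (40 * 2 ^ k * 2 ^ j) := by
    rw [← zb_eq' hj]
    rfl
  unfold mdF zz
  rw [shl_eq]
  show 1099511627775 * zb 40 j k * zb (40 * 2 ^ k) j k * 2 ^ (40 * 2 ^ k * 2 ^ j)
    = coln (2 ^ k) j * rowm (2 ^ k) j
  rw [e1, e2]
  ring

lemma trf_eq {k j : ℕ} (hj : j ≤ k) (x : ℕ) : trf (2 ^ k) k j x = trq (2 ^ k) j x := by
  induction j with
  | zero => rfl
  | succ j ih =>
    have e1 : trf (2 ^ k) k (j + 1) x = swq (2 ^ k) j (muF (2 ^ k) j k) (mdF (2 ^ k) j k)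
      (trf (2 ^ k) k j x) := rfl
    have e2 : trq (2 ^ k) (j + 1) x = swq (2 ^ k) j (mup (2 ^ k) j) (mdn (2 ^ k) j)
      (trq (2 ^ k) j x) := rfl
    rw [e1, e2, ih (by omega), muF_eq (by omega), mdF_eq (by omega)]

end MP61673a.KC
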