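import Pool.Agent.Mu673.KCtri

/-!
FAST ROWS: sixteen rows of a sampler node at a time by operations on packed matrices (outer products
of the squares, packed constants and facts); only the label rows are computed one by one.
-/

set_option autoImplicit false

namespace MP61673a.KC

open Finset

noncomputable section

/-- `2^k` copies of `x`, `S` digits apart -/
def dbl (S x k : ℕ) : ℕ :=
  Nat.rec (motive := fun _ => ℕ) x
    (fun i ih => Nat.add ih (Nat.shiftLeft ih (Nat.mul 40 (Nat.mul S (Nat.pow 2 i))))) k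

/-- sixteen rows of `S` digits -/
def u16 (S : ℕ) (f : ℕ → ℕ) : ℕ :=
  Nat.add
    (Nat.add
      (Nat.add
        (Nat.add (f (nat_lit 0)) (Nat.shiftLeft (f (nat_lit 1)) (Nat.mul 40 S)))
        (Nat.shiftLeft
          (Nat.add (f (nat_lit 2)) (Nat.shiftLeft (f (nat_lit 3)) (Nat.mul 40 S))) (Nat.mul 80 S)))
      (Nat.shiftLeft
        (Nat.add
          (Nat.add (f (nat_lit 4)) (Nat.shiftLeft (f (nat_lit 5)) (Nat.mul 40 S)))
          (Nat.shiftLeft
            (Nat.add (f (nat_lit 6)) (Nat.shiftLeft (f (nat_lit 7)) (Nat.mul 40 S)))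
            (Nat.mul 80 S))) (Nat.mul 160 S)))
    (Nat.shiftLeft
      (Nat.add
        (Nat.add
          (Nat.add (f (nat_lit 8)) (Nat.shiftLeft (f (nat_lit 9)) (Nat.mul 40 S)))
          (Nat.shiftLeft
            (Nat.add (f (nat_lit 10)) (Nat.shiftLeft (f (nat_lit 11)) (Nat.mul 40 S)))
            (Nat.mul 80 S)))
        (Nat.shiftLeft
          (Nat.add
            (Nat.add (f (nat_lit 12)) (Nat.shiftLeft (f (nat_lit 13)) (Nat.mul 40 S)))
            (Nat.shiftLeft
              (Nat.add (f (nat_lit 14)) (Nat.shiftLeft (f (nat_lit 15)) (Nat.mul 40 S)))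
              (Nat.mul 80 S))) (Nat.mul 160 S))) (Nat.mul 320 S))

/-- ones at the rows `i < 16`, `i < m`, of a matrix with `m + 1` columns -/
def oneB (m : ℕ) : ℕ := u16 (Nat.succ m) (fun i => guard m i 1)

/-- the first 16 digits of `w`, one in each row of a matrix with `m + 1` columns -/
def sprB (m w : ℕ) : ℕ :=
  Nat.land (Nat.mul (Nat.mod w (bp 16)) (dbl m 1 4)) (Nat.mul 1099511627775 (oneB m))

/-- outer product -/
def outB (m q : ℕ) : ℕ := Nat.mul (sprB m q) q

/-- rows of the matrix of a fact -/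
def matB (f : FnR) (m c0 : ℕ) : ℕ :=
  u16 (Nat.succ m) (fun i => guard m i (shf (nth16 0 f.mat (Nat.add c0 i)) c0))

/-- label values of the pairs with the row position `p`, by the position of the column -/
def SW (d : DatR) (z p k1 k2 km : ℕ) : ℕ :=
  Nat.add (Nat.add
    (shf (frc (Nat.mod (Nat.sub d.P p) 2) (fun e => aE d z k1 e)) (Nat.div (Nat.sub d.P p) 2))
    (shf (aV d z k2) (Nat.sub (Nat.sub (Nat.sub (Nat.pow 2 d.K) 1) d.P) (Nat.mul 2 p))))
    (shf (arrR d z km) p)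

/-- label part of a row -/
def plS (d : DatR) (z p : ℕ) (l : List Pl) : ℕ :=
  List.rec (motive := fun _ => ℕ) 0
    (fun q _ ih => Pl.rec (motive := fun _ => ℕ) (fun lo len k1 k2 km =>
      Nat.add (Nat.mod (shf (SW d z p k1 k2 km) lo) (bp len))
        (Nat.shiftLeft ih (Nat.mul 40 len))) q) l

/-- the list without its first `n` elements -/
def drp (n : ℕ) : List Pl → List Pl :=
  Nat.rec (motive := fun _ => List Pl → List Pl) (fun l => l)
    (fun _ ih l => List.rec (motive := fun _ => List Pl) [] (fun _ t _ => ih t) l) n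

/-- label part of the row `b`, columns from `c0` on -/
def labL (d : DatR) (z c0 b : ℕ) : ℕ :=
  shf (plS d z (psR d.segs b) (drp (ixR d.segs c0) (sgR d.segs b).pl))
    (Nat.sub (psR d.segs c0) (sgR d.segs c0).lo)

/-- label part of 16 rows -/
def labB (d : DatR) (m c0 z : ℕ) : ℕ :=
  u16 (Nat.succ m) (fun i => guard m i (labL d z c0 (Nat.add c0 i)))

/-- packed constant -/
def conB (m : ℕ) : ℕ := Nat.mul (rep m) (oneB m)

/-- sum of the vectors of the squares -/
def sumB (d : DatR) (c0 z : ℕ) : ℕ := sumL (fun q => shf q c0) (sqR d z)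

/-- positive part of 16 rows -/
def posB (d : DatR) (m c0 z : ℕ) : ℕ :=
  Nat.add (Nat.add (Nat.add
    (Nat.mul 2 (sumL (fun q => outB m (shf q c0)) (sqR d z)))
    (Nat.mul (Nat.add (Nat.add 137438953472 (Nat.mul 536870912 (len (sqR d z)))) (dg d.ap z))
      (conB m)))
    (labB d m c0 z))
    (sumL (fun f : FnR => Nat.mul (dg f.lp z) (matB f m c0)) d.fn)

/-- negative part of 16 rows -/
def negB (d : DatR) (m c0 z : ℕ) : ℕ :=
  Nat.add (Nat.add (Nat.mul (dg d.an z) (conB m))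
    (sumL (fun f : FnR => Nat.mul (dg f.ln z) (matB f m c0)) d.fn))
    (Nat.mul 32768 (Nat.add (Nat.mul (rep m) (sprB m (sumB d c0 z)))
      (Nat.mul (sumB d c0 z) (oneB m))))

/-- rows `c0 .. c0 + 15` of the sampler `z`, columns from `c0` on, plus the offset `2^37` -/
def matR (d : DatR) (m c0 z : ℕ) : ℕ := Nat.sub (posB d m c0 z) (negB d m c0 z)

/-- row `c0 + i` of the sampler `z`, columns from `c0` on -/
def rowI (d : DatR) (m c0 z i : ℕ) : ℕ :=
  Nat.mod (Nat.shiftRight (matR d m c0 z) (Nat.mul 40 (Nat.mul (Nat.succ m) i))) (bp m)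

/-- the rows of the sampler `c0 + ia`, nodes from `c0` on, `L` columns -/
def blkA (d : DatR) (V L k4 m c0 ia : ℕ) : ℕ :=
  Nat.mod (bls (Nat.mul 16 L) (fun s => guard m (Nat.mul 16 s)
    (frc (Nat.add c0 (Nat.mul 16 s)) (fun c1 => frc (Nat.sub V c1) (fun m1 =>
      Nat.shiftLeft (u16 L (fun i => rowI d m1 c1 (Nat.add c0 ia) i))
        (Nat.mul 40 (Nat.sub c1 c0)))))) k4 0) (bp (Nat.mul L m))

/-- the rows `c0 + ia` of the samplers from `c0` on, `L` columns -/
def blkB (d : DatR) (L k4 m c0 ia : ℕ) : ℕ :=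
  Nat.mod (bls (Nat.mul 16 L) (fun s => guard m (Nat.mul 16 s)
    (frc (Nat.add c0 (Nat.mul 16 s)) (fun zb => u16 L (fun i => rowI d m c0 (Nat.add zb i) ia))))
      k4 0) (bp (Nat.mul L m))

/-- all triples with the smallest node in the block of `c0` -/
def blkC (d : DatR) (V m c0 k4 : ℕ) : Bool :=
  Bool.rec (motive := fun _ => Bool) false
    (allN (Nat.sub m (Nat.sub m 16)) (fun ia =>
      fasB (Nat.add k4 4) d.Bd (blkA d V (Nat.pow 2 (Nat.add k4 4)) k4 m c0 ia)
        (blkB d (Nat.pow 2 (Nat.add k4 4)) k4 m c0 ia)))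
    (Nat.ble m (Nat.pow 2 (Nat.add k4 4)))

/-- THE FAST CHECK of a row certificate: sorted triples with the smallest node in the blocks
`lo ≤ t < hi` of 16 nodes -/
def rowCheckG (d : DatR) (lo hi : ℕ) : Bool :=
  frcBk (vR d.segs) (fun V => allN (Nat.sub hi lo) (fun t => frcBk (Nat.mul 16 (Nat.add lo t))
    (fun c0 => frcBk (Nat.sub V c0) (fun m =>
      frcBk (Nat.sub (Nat.log2 (Nat.sub (Nat.mul 2 m) 1)) 4) (fun k4 => blkC d V m c0 k4)))))

end

/-! ### Linear algebra of the packed matrices -/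

lemma bld_add (S : ℕ) (f g : ℕ → ℕ) (k c0 : ℕ) :
    bld S f k c0 + bld S g k c0 = bld S (fun i => f i + g i) k c0 := by
  induction k generalizing c0 with
  | zero => rfl
  | succ k ih =>
    rw [bld_succ, bld_succ, bld_succ, ← ih, ← ih]
    ring

lemma bld_mul (S x : ℕ) (f : ℕ → ℕ) (k c0 : ℕ) :
    x * bld S f k c0 = bld S (fun i => x * f i) k c0 := by
  induction k generalizing c0 with
  | zero => rfl
  | succ k ih =>
    rw [bld_succ, bld_succ, ← ih, ← ih]
    ring

lemma bld_zero (S k c0 : ℕ) : bld S (fun _ => 0) k c0 = 0 := by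
  induction k generalizing c0 with
  | zero => rfl
  | succ k ih =>
    rw [bld_succ, ih, ih, zero_mul]
    rfl

lemma bld_congr {S : ℕ} {f g : ℕ → ℕ} {k c0 : ℕ} (h : ∀ i, c0 ≤ i → i < c0 + 2 ^ k → f i = g i) :
    bld S f k c0 = bld S g k c0 := by
  induction k generalizing c0 with
  | zero => exact h c0 le_rfl (by simp)
  | succ k ih =>
    have e : 2 ^ (k + 1) = 2 ^ k + 2 ^ k := by ring
    rw [bld_succ, bld_succ, ih fun i h1 h2 => h i h1 (by omega),
      ih fun i h1 h2 => h i (by omega) (by omega)]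

lemma bld_sumL {α : Type} (S : ℕ) (F : α → ℕ → ℕ) (k c0 : ℕ) (l : List α) :
    sumL (fun a => bld S (F a) k c0) l = bld S (fun i => sumL (fun a => F a i) l) k c0 := by
  induction l with
  | nil =>
    have e : (fun i => sumL (fun a => F a i) []) = fun _ : ℕ => 0 := rfl
    rw [e, bld_zero]
    rfl
  | cons a l ih =>
    have e : sumL (fun a => bld S (F a) k c0) (a :: l)
      = bld S (F a) k c0 + sumL (fun a => bld S (F a) k c0) l := rfl
    rw [e, ih, bld_add]
    rfl

lemma dbl_eq (S x k c0 : ℕ) : dbl S x k = bld S (fun _ => x) k c0 := by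
  induction k generalizing c0 with
  | zero => rfl
  | succ k ih =>
    have e : dbl S x (k + 1) = dbl S x k + Nat.shiftLeft (dbl S x k) (40 * (S * 2 ^ k)) := rfl
    rw [e, shl_eq, bld_succ, ← ih, ← ih]

lemma u16_eq (S : ℕ) (f : ℕ → ℕ) : u16 S f = bld S f 4 0 := by
  have e0 : ∀ c, bld S f 0 c = f c := fun _ => rfl
  rw [bld_succ, bld_succ, bld_succ, bld_succ, bld_succ, bld_succ, bld_succ, bld_succ, bld_succ,
    bld_succ, bld_succ, bld_succ, bld_succ, bld_succ, bld_succ]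
  simp only [e0]
  unfold u16
  simp only [shl_eq]
  norm_num
  ring_nf

/-- equality from digits -/
lemma ext_dg {n x y : ℕ} (hx : x < 2 ^ (40 * n)) (hy : y < 2 ^ (40 * n))
    (h : ∀ p < n, dg x p = dg y p) : x = y := by
  rw [eq_sum_of_lt hx, eq_sum_of_lt hy]
  exact sum_congr rfl fun c hc => by rw [h c (mem_range.1 hc)]

lemma dg_small {x : ℕ} (h : x < 2 ^ 40) (c : ℕ) : dg x c = if c = 0 then x else 0 := by
  split_ifs with hc
  · rw [hc, dg_eq, mul_zero, pow_zero, Nat.div_one, Nat.mod_eq_of_lt h]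
  · exact dg_of_lt (m := 1) (by simpa using h) (by omega)

lemma full_lt : (1099511627775 : ℕ) < 2 ^ 40 := by norm_num

/-- the spread digits -/
lemma sprB_eq {m w : ℕ} (hw : w < 2 ^ (40 * m)) :
    sprB m w = bld (m + 1) (fun i => if i < m then dg w i else 0) 4 0 := by
  have e1 : oneB m = bld (m + 1) (fun i => if i < m then 1 else 0) 4 0 := by
    unfold oneB
    rw [u16_eq]
    exact bld_congr fun i _ _ => guard_eq _ _ _
  have hf1 : ∀ i, (1099511627775 * if i < m then 1 else 0) < 2 ^ (40 * (m + 1)) := by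
    intro i
    have h1 : (2:ℕ) ^ 40 ≤ 2 ^ (40 * (m + 1)) := Nat.pow_le_pow_right (by norm_num) (by omega)
    have := full_lt
    split_ifs <;> omega
  have hf2 : ∀ i, (if i < m then dg w i else 0) < 2 ^ (40 * (m + 1)) := by
    intro i
    have h1 : (2:ℕ) ^ 40 ≤ 2 ^ (40 * (m + 1)) := Nat.pow_le_pow_right (by norm_num) (by omega)
    have := dg_lt w i
    split_ifs <;> omega
  have e2 : Nat.mul 1099511627775 (oneB m)
      = bld (m + 1) (fun i => 1099511627775 * if i < m then 1 else 0) 4 0 := by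
    rw [e1]
    exact bld_mul _ _ _ _ _
  have e3 : Nat.mul (Nat.mod w (bp 16)) (dbl m 1 4) = bld m (fun _ => w % 2 ^ (40 * 16)) 4 0 := by
    rw [dbl_eq m 1 4 0]
    refine (bld_mul _ _ _ _ _).trans ?_
    simp only [mul_one]
    rfl
  unfold sprB
  rw [e2, e3]
  have hmod : ∀ _ : ℕ, w % 2 ^ (40 * 16) < 2 ^ (40 * m) := fun _ =>
    (Nat.mod_le _ _).trans_lt hw
  refine ext_dg (n := (m + 1) * 2 ^ 4) (land_lt (bld_lt hf1 4 0)) (bld_lt hf2 4 0) fun p hp => ?_
  obtain ⟨r, hr, c, hc, rfl⟩ : ∃ r < 2 ^ 4, ∃ c < m + 1, p = (m + 1) * r + c :=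
    ⟨p / (m + 1), Nat.div_lt_of_lt_mul hp, p % (m + 1), Nat.mod_lt _ (by omega),
      (Nat.div_add_mod p (m + 1)).symm⟩
  rw [dg_land, dg_bld hf1 0 hr hc, dg_bld hf2 0 hr hc, zero_add]
  have hr' : r < 16 := by
    norm_num at hr
    exact hr
  by_cases h1 : r < m
  · simp only [if_pos h1, mul_one]
    rw [dg_small full_lt, dg_small (dg_lt _ _)]
    by_cases h2 : c = 0
    · rw [if_pos h2, if_pos h2, land_full _ (dg_lt _ _), h2, add_zero]
      have e4 : (m + 1) * r = m * r + r := by ring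
      rw [e4, dg_bld hmod 0 hr h1, dg_mod' hr']
    · rw [if_neg h2, if_neg h2, land_zero']
  · simp only [if_neg h1, mul_zero]
    rw [dg_zero, land_zero']

/-! ### Exact representation -/

/-- `X = ∑ c < m, t c 2^(40 c)` -/
def Ex (m X : ℕ) (t : ℕ → ℤ) : Prop := (X : ℤ) = ∑ c ∈ range m, t c * 2 ^ (40 * c)

lemma Ex.self {m X : ℕ} (h : X < 2 ^ (40 * m)) : Ex m X (fun c => (dg X c : ℤ)) := by
  unfold Ex
  conv_lhs => rw [eq_sum_of_lt h]
  push_cast
  rfl

lemma Ex.congr {m X : ℕ} {t u : ℕ → ℤ} (h : Ex m X t) (e : ∀ c < m, t c = u c) : Ex m X u := by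
  unfold Ex at *
  rw [h]
  exact sum_congr rfl fun c hc => by rw [e c (mem_range.1 hc)]

lemma Ex.add {m X Y : ℕ} {t u : ℕ → ℤ} (h : Ex m X t) (k : Ex m Y u) :
    Ex m (X + Y) (fun c => t c + u c) := by
  unfold Ex at *
  push_cast
  rw [h, k, ← sum_add_distrib]
  exact sum_congr rfl fun c _ => by ring

lemma Ex.mul {m X : ℕ} {t : ℕ → ℤ} (k : ℕ) (h : Ex m X t) :
    Ex m (k * X) (fun c => (k : ℤ) * t c) := by
  unfold Ex at *
  push_cast
  rw [h, mul_sum]
  exact sum_congr rfl fun c _ => by ring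

lemma Ex.zero (m : ℕ) : Ex m 0 (fun _ => 0) := by
  unfold Ex
  simp

lemma Ex.rep (m : ℕ) : Ex m (rep m) (fun _ => 1) := by
  unfold Ex
  rw [rep_eq]
  push_cast
  simp

lemma Ex.sumL {α : Type} {m : ℕ} (f : α → ℕ) (t : α → ℕ → ℤ) (l : List α)
    (h : ∀ a ∈ l, Ex m (f a) (t a)) : Ex m (sumL f l) (fun c => (l.map fun a => t a c).sum) := by
  induction l with
  | nil => exact Ex.zero m
  | cons a l ih =>
    have e : KC.sumL f (a :: l) = f a + KC.sumL f l := rfl
    rw [e]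
    refine ((h a List.mem_cons_self).add (ih fun b hb => h b (List.mem_cons_of_mem _ hb))).congr
      fun c _ => ?_
    simp

lemma Ex.rp {m X : ℕ} {t : ℕ → ℤ} (h : Ex m X t) : Rp m X t := by
  unfold Ex at h
  unfold Rp
  rw [h]

lemma Ex.dg {m X : ℕ} {t : ℕ → ℤ} (h : Ex m X t) (ht : ∀ c < m, 0 ≤ t c ∧ t c < 2 ^ 40)
    {c : ℕ} (hc : c < m) : (dg X c : ℤ) = t c := h.rp.dg ht hc

lemma Ex.lt {m X : ℕ} {t : ℕ → ℤ} (h : Ex m X t) (ht : ∀ c < m, 0 ≤ t c ∧ t c < 2 ^ 40) :
    X < 2 ^ (40 * m) := by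
  unfold Ex at h
  have h1 : X = ∑ c ∈ range m, (t c).toNat * 2 ^ (40 * c) := by
    have e : (X : ℤ) = ((∑ c ∈ range m, (t c).toNat * 2 ^ (40 * c) : ℕ) : ℤ) := by
      rw [h]
      push_cast
      refine sum_congr rfl fun c hc => ?_
      rw [Int.toNat_of_nonneg (ht c (mem_range.1 hc)).1]
    exact_mod_cast e
  rw [h1]
  refine sum_lt fun c hc => ?_
  have h2 := ht c hc
  omega

/-- exact subtraction -/
lemma Ex.sub {m X Y : ℕ} {t u : ℕ → ℤ} (h : Ex m X t) (k : Ex m Y u)
    (ht : ∀ c < m, 0 ≤ t c - u c ∧ t c - u c < 2 ^ 40) :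
    Y ≤ X ∧ Ex m (X - Y) (fun c => t c - u c) := by
  unfold Ex at *
  have e : (X : ℤ) - Y = ∑ c ∈ range m, (t c - u c) * 2 ^ (40 * c) := by
    rw [h, k, ← sum_sub_distrib]
    exact sum_congr rfl fun c _ => by ring
  have h0 : (0:ℤ) ≤ ∑ c ∈ range m, (t c - u c) * 2 ^ (40 * c) :=
    sum_nonneg fun c hc => mul_nonneg (ht c (mem_range.1 hc)).1 (by positivity)
  have h1 : (Y : ℤ) ≤ X := by linarith
  have h2 : Y ≤ X := by exact_mod_cast h1
  refine ⟨h2, ?_⟩
  rw [Nat.cast_sub h2, e]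

end MP61673a.KC
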