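import Pool.Agent.Mu673.KCmats

/-!
SOUNDNESS of the fast rows `KCmat`, second part: the packed matrices represent the costs.
-/

set_option autoImplicit false

namespace MP61673a.KC

open Finset

lemma sumL_congr {α : Type} {f g : α → ℕ} {l : List α} (h : ∀ a ∈ l, f a = g a) :
    sumL f l = sumL g l := by
  induction l with
  | nil => rfl
  | cons a l ih =>
    have e1 : sumL f (a :: l) = f a + sumL f l := rfl
    have e2 : sumL g (a :: l) = g a + sumL g l := rfl
    rw [e1, e2, h a List.mem_cons_self, ih fun b hb => h b (List.mem_cons_of_mem _ hb)]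

lemma mask_lt {k M x : ℕ} (hk : k ≤ 40) (h : mask k M x = true) : x < 2 ^ (40 * M) := by
  have h1 : Nat.land x (Nat.mul (Nat.sub (Nat.pow 2 k) 1) (rep M)) = x :=
    Nat.eq_of_beq_eq_true h
  rw [← h1]
  refine land_lt (rep_lt M _ ?_)
  have : (2:ℕ) ^ k ≤ 2 ^ 40 := Nat.pow_le_pow_right (by norm_num) hk
  show 2 ^ k - 1 ≤ 1099511627775
  norm_num at this
  omega

lemma oneB_eq (m : ℕ) : oneB m = bld (m + 1) (fun i => if i < m then 1 else 0) 4 0 := by
  unfold oneB
  rw [u16_eq]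
  exact bld_congr fun i _ _ => guard_eq _ _ _

lemma conB_eq (m : ℕ) : conB m = bld (m + 1) (fun i => rep m * if i < m then 1 else 0) 4 0 := by
  unfold conB
  rw [oneB_eq]
  exact bld_mul _ _ _ _ _

lemma outB_eq {m q : ℕ} (hq : q < 2 ^ (40 * m)) :
    outB m q = bld (m + 1) (fun i => q * if i < m then dg q i else 0) 4 0 := by
  unfold outB
  rw [sprB_eq hq]
  exact (mul_comm _ _).trans (bld_mul _ _ _ _ _)

lemma labB_eq (d : DatR) (m c0 z : ℕ) :
    labB d m c0 z = bld (m + 1) (fun i => if i < m then labL d z c0 (c0 + i) else 0) 4 0 := by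
  unfold labB
  rw [u16_eq]
  exact bld_congr fun i _ _ => guard_eq _ _ _

lemma matB_eq (f : FnR) (m c0 : ℕ) :
    matB f m c0
      = bld (m + 1) (fun i => if i < m then shf (nth16 0 f.mat (c0 + i)) c0 else 0) 4 0 := by
  unfold matB
  rw [u16_eq]
  exact bld_congr fun i _ _ => guard_eq _ _ _

/-- positive part of one row -/
noncomputable def Pf (d : DatR) (m c0 z i : ℕ) : ℕ :=
  2 * sumL (fun q => shf q c0 * if i < m then dg (shf q c0) i else 0) (sqR d z)
    + (137438953472 + 536870912 * len (sqR d z) + dg d.ap z) * (rep m * if i < m then 1 else 0)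
    + (if i < m then labL d z c0 (c0 + i) else 0)
    + sumL (fun f : FnR => dg f.lp z * if i < m then shf (nth16 0 f.mat (c0 + i)) c0 else 0) d.fn

/-- negative part of one row -/
noncomputable def Nf (d : DatR) (m c0 z i : ℕ) : ℕ :=
  dg d.an z * (rep m * if i < m then 1 else 0)
    + sumL (fun f : FnR => dg f.ln z * if i < m then shf (nth16 0 f.mat (c0 + i)) c0 else 0) d.fn
    + 32768 * (rep m * (if i < m then dg (sumB d c0 z) i else 0)
      + sumB d c0 z * if i < m then 1 else 0)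

/-- the squares have at most `V` digits -/
lemma sq_lt {d : DatR} (hb : BndR d) {z : ℕ} (hz : z < vR d.segs) {q : ℕ} (hq : q ∈ sqR d z) :
    q < 2 ^ (40 * vR d.segs) := by
  have h1 := (allN_iff _ _).1 hb.sq z hz
  rw [Bool.and_eq_true] at h1
  exact mask_lt (by norm_num) ((allL_iff _ _).1 h1.2 q hq)

lemma mat_lt {V : ℕ} {f : FnR} (h : bndFR V f = true) {b : ℕ} (hb : b < V) :
    nth16 0 f.mat b < 2 ^ (40 * V) := by
  unfold bndFR at h
  simp only [Bool.and_eq_true] at h
  obtain ⟨⟨⟨h1, h2⟩, h3⟩, h4⟩ := h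
  exact mask_lt (by show 32 - f.k ≤ 40; omega) ((allN_iff _ _).1 h4 b hb)

lemma posB_eq {d : DatR} (hb : BndR d) {z c0 : ℕ} (hz : z < vR d.segs) :
    posB d (vR d.segs - c0) c0 z
      = bld (vR d.segs - c0 + 1) (Pf d (vR d.segs - c0) c0 z) 4 0 := by
  set m := vR d.segs - c0 with hm
  have e1 : sumL (fun q => outB m (shf q c0)) (sqR d z)
      = bld (m + 1) (fun i => sumL (fun q => shf q c0 * if i < m then dg (shf q c0) i else 0)
        (sqR d z)) 4 0 := by
    rw [← bld_sumL]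
    exact sumL_congr fun q hq => outB_eq (shf_lt (sq_lt hb hz hq))
  have e2 : sumL (fun f : FnR => Nat.mul (dg f.lp z) (matB f m c0)) d.fn
      = bld (m + 1) (fun i => sumL (fun f : FnR => dg f.lp z
        * if i < m then shf (nth16 0 f.mat (c0 + i)) c0 else 0) d.fn) 4 0 := by
    rw [← bld_sumL]
    refine sumL_congr fun f _ => ?_
    rw [matB_eq]
    exact bld_mul _ _ _ _ _
  unfold posB
  rw [e1, e2, conB_eq, labB_eq]
  show 2 * bld _ _ 4 0 + (137438953472 + 536870912 * len (sqR d z) + dg d.ap z) * bld _ _ 4 0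
    + bld _ _ 4 0 + bld _ _ 4 0 = _
  rw [bld_mul, bld_mul, bld_add, bld_add, bld_add]
  rfl

lemma exSumB {d : DatR} (hb : BndR d) {z c0 : ℕ} (hz : z < vR d.segs) :
    Ex (vR d.segs - c0) (sumB d c0 z)
      (fun c => ((sqR d z).map fun q => (dg (shf q c0) c : ℤ)).sum) :=
  Ex.sumL (fun q => shf q c0) (fun q c => (dg (shf q c0) c : ℤ)) _
    fun _ hq => Ex.self (shf_lt (sq_lt hb hz hq))

lemma sumB_bd {d : DatR} (hb : BndR d) {z : ℕ} (c0 : ℕ) (hz : z < vR d.segs) (c : ℕ) :
    0 ≤ ((sqR d z).map fun q => (dg (shf q c0) c : ℤ)).sum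
      ∧ ((sqR d z).map fun q => (dg (shf q c0) c : ℤ)).sum < 2 ^ 40 := by
  have h4 := bndg_sound hb.sq hz
  have hlen : ((sqR d z).length : ℤ) ≤ 64 := by exact_mod_cast h4.1
  have hlen0 : (0:ℤ) ≤ (sqR d z).length := by positivity
  have hh := sum_bounds (sqR d z) (fun q => (dg (shf q c0) c : ℤ)) (A := 0) (B := 2 ^ 15)
    (fun q hq => by
      rw [dg_shf]
      have := h4.2 q hq (c + c0)
      exact ⟨by positivity, by exact_mod_cast this.le⟩)
  refine ⟨by simpa using hh.1, hh.2.trans_lt ?_⟩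
  nlinarith

lemma negB_eq {d : DatR} (hb : BndR d) {z c0 : ℕ} (hz : z < vR d.segs) :
    negB d (vR d.segs - c0) c0 z
      = bld (vR d.segs - c0 + 1) (Nf d (vR d.segs - c0) c0 z) 4 0 := by
  set m := vR d.segs - c0 with hm
  have e2 : sumL (fun f : FnR => Nat.mul (dg f.ln z) (matB f m c0)) d.fn
      = bld (m + 1) (fun i => sumL (fun f : FnR => dg f.ln z
        * if i < m then shf (nth16 0 f.mat (c0 + i)) c0 else 0) d.fn) 4 0 := by
    rw [← bld_sumL]
    refine sumL_congr fun f _ => ?_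
    rw [matB_eq]
    exact bld_mul _ _ _ _ _
  have hs : sumB d c0 z < 2 ^ (40 * m) := (exSumB hb hz).lt fun c _ => sumB_bd hb c0 hz c
  unfold negB
  rw [e2, conB_eq, oneB_eq, sprB_eq hs]
  show dg d.an z * bld _ _ 4 0 + bld _ _ 4 0
    + 32768 * (rep m * bld _ _ 4 0 + sumB d c0 z * bld _ _ 4 0) = _
  rw [bld_mul, bld_mul, bld_mul, bld_add, bld_add, bld_mul, bld_add]
  rfl

lemma SSg_expand (sq : ℕ → List ℕ) (z b c : ℕ) :
    2 * SSg sq z b c = 2 * ((sq z).map fun q => (dg q b : ℤ) * dg q c).sum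
      + 536870912 * (len (sq z) : ℕ)
      - 32768 * (((sq z).map fun q => (dg q b : ℤ)).sum + ((sq z).map fun q => (dg q c : ℤ)).sum) := by
  unfold SSg
  induction sq z with
  | nil =>
    have e : len [] = 0 := rfl
    rw [e]
    simp
  | cons q l ih =>
    have e : len (q :: l) = 1 + len l := rfl
    rw [e]
    simp only [List.map_cons, List.sum_cons]
    push_cast
    linarith

lemma sum_map_subG {α : Type} (l : List α) (u v : α → ℤ) :
    (l.map fun f => (u f - v f)).sum = (l.map u).sum - (l.map v).sum := by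
  induction l with
  | nil => simp
  | cons a l ih =>
    simp only [List.map_cons, List.sum_cons]
    rw [ih]
    ring

/-- the values have the right size -/
lemma WR_bound {d : DatR} (hB : BndR d) {z b c : ℕ} (hz : z < vR d.segs) (hb : b < vR d.segs) :
    0 ≤ WR d z b c + 137438953472 ∧ WR d z b c + 137438953472 < 2 ^ 38 := by
  have h4 := bndg_sound hB.sq hz
  have hlen : ((sqR d z).length : ℤ) ≤ 64 := by exact_mod_cast h4.1
  have hlen0 : (0:ℤ) ≤ (sqR d z).length := by positivity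
  have hh := sum_bounds (sqR d z) (fun p => ((dg p b : ℤ) - 16384) * ((dg p c : ℤ) - 16384))
    (A := -2 ^ 28) (B := 2 ^ 28) (fun p hp => by
      have h1 : ((dg p b : ℕ) : ℤ) < 32768 := by exact_mod_cast h4.2 p hp _
      have h2 : ((dg p c : ℕ) : ℤ) < 32768 := by exact_mod_cast h4.2 p hp _
      have h3 : (0:ℤ) ≤ (dg p b : ℕ) := by positivity
      have h4 : (0:ℤ) ≤ (dg p c : ℕ) := by positivity
      constructor <;> nlinarith)
  have s1 : -2 ^ 34 ≤ SSg (sqR d) z b c := by
    unfold SSg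
    refine le_trans ?_ hh.1
    nlinarith
  have s2 : SSg (sqR d) z b c ≤ 2 ^ 34 := by
    unfold SSg
    refine hh.2.trans ?_
    nlinarith
  have f1 := fnR_sum hB.fn hB.fl hb z c
  have k1 := KR_bound hB hz b c
  have a1 : ((dg d.ap z : ℕ) : ℤ) < 2 ^ 32 := by exact_mod_cast hB.ap z
  have a2 : (0:ℤ) ≤ (dg d.ap z : ℕ) := by positivity
  have a3 : ((dg d.an z : ℕ) : ℤ) < 2 ^ 32 := by exact_mod_cast hB.an z
  have a4 : (0:ℤ) ≤ (dg d.an z : ℕ) := by positivity
  have e1 : (d.fn.map fun f => (((dg f.lp z : ℕ) : ℤ) - (dg f.ln z : ℕ))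
      * (dg (nth16 0 f.mat b) c : ℤ)).sum
      = (d.fn.map fun f => ((dg f.lp z : ℕ) : ℤ) * (dg (nth16 0 f.mat b) c : ℤ)).sum
        - (d.fn.map fun f => ((dg f.ln z : ℕ) : ℤ) * (dg (nth16 0 f.mat b) c : ℤ)).sum := by
    rw [← sum_map_subG]
    congr 1
    exact List.map_congr_left fun f _ => by ring
  unfold WR
  rw [e1]
  norm_num at *
  constructor <;> linarith [f1.1.1, f1.1.2, f1.2.1, f1.2.2, k1.1, k1.2]

end MP61673a.KC
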