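import Pool.Agent.Mu673.KCmat

/-!
SOUNDNESS of the fast rows `KCmat`.
-/

set_option autoImplicit false

namespace MP61673a.KC

open Finset

/-! ### Two level concatenation -/

lemma bld_shift (L : ℕ) (f : ℕ → ℕ) (c k c0 : ℕ) :
    bld L (fun i => f (c + i)) k c0 = bld L f k (c + c0) := by
  induction k generalizing c0 with
  | zero => rfl
  | succ k ih => rw [bld_succ, bld_succ, ih, ih, add_assoc]

lemma bld_two (L : ℕ) (f : ℕ → ℕ) (k c0 : ℕ) :
    bld (16 * L) (fun s => bld L f 4 (16 * s)) k c0 = bld L f (k + 4) (16 * c0) := by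
  induction k generalizing c0 with
  | zero => rw [zero_add]; rfl
  | succ k ih =>
    have e : k + 1 + 4 = (k + 4) + 1 := by ring
    have e2 : 16 * (c0 + 2 ^ k) = 16 * c0 + 2 ^ (k + 4) := by
      rw [pow_add]
      ring
    have e3 : 40 * (16 * L * 2 ^ k) = 40 * (L * 2 ^ (k + 4)) := by
      rw [pow_add]
      ring
    rw [bld_succ (16 * L), ih, ih, e, bld_succ L f (k + 4), e2, e3]

/-- truncation -/
lemma mod_bld {L m k : ℕ} {f : ℕ → ℕ} (hf : ∀ c, f c < 2 ^ (40 * L)) :
    bld L f k 0 % 2 ^ (40 * (L * m)) = bld L (fun b => if b < m then f b else 0) k 0 := by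
  have hf2 : ∀ c, (if c < m then f c else 0) < 2 ^ (40 * L) := by
    intro c
    split_ifs
    · exact hf c
    · positivity
  refine ext_dg (n := L * 2 ^ k) ((Nat.mod_le _ _).trans_lt (bld_lt hf k 0)) (bld_lt hf2 k 0)
    fun p hp => ?_
  have hL : 0 < L := by
    rcases Nat.eq_zero_or_pos L with h | h
    · rw [h, zero_mul] at hp
      omega
    · exact h
  obtain ⟨r, hr, c, hc, rfl⟩ : ∃ r < 2 ^ k, ∃ c < L, p = L * r + c :=
    ⟨p / L, Nat.div_lt_of_lt_mul hp, p % L, Nat.mod_lt _ hL, (Nat.div_add_mod p L).symm⟩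
  rw [dg_bld hf2 0 hr hc, zero_add]
  split_ifs with h
  · have h1 : L * r + c < L * m := by
      calc L * r + c < L * r + L := by omega
        _ = L * (r + 1) := by ring
        _ ≤ L * m := Nat.mul_le_mul_left _ h
    rw [dg_mod' h1, dg_bld hf 0 hr hc, zero_add]
  · rw [dg_zero]
    refine dg_of_lt (m := L * m) (Nat.mod_lt _ (by positivity)) ?_
    have : L * m ≤ L * r := Nat.mul_le_mul_left _ (by omega)
    omega

/-- concatenation of blocks of 16 rows, truncated -/
lemma two_mod {L m k : ℕ} {f : ℕ → ℕ} (hf : ∀ c, f c < 2 ^ (40 * L))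
    {X : ℕ → ℕ} (hX : ∀ s, X s = guard m (16 * s) (bld L f 4 (16 * s))) :
    bls (16 * L) X k 0 % 2 ^ (40 * (L * m)) = bls L (fun b => guard m b (f b)) (k + 4) 0 := by
  have e1 : bls (16 * L) X k 0
      = bld L (fun b => if 16 * (b / 16) < m then f b else 0) (k + 4) 0 := by
    rw [bls_eq, show (0:ℕ) = 16 * 0 from rfl, ← bld_two L _ k 0]
    refine bld_congr fun s _ _ => ?_
    rw [hX, guard_eq]
    split_ifs with h
    · refine bld_congr fun b h1 h2 => ?_
      have : b / 16 = s := by
        norm_num at h2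
        omega
      rw [this, if_pos h]
    · refine (bld_zero L 4 (16 * s)).symm.trans (bld_congr fun b h1 h2 => ?_)
      have : b / 16 = s := by
        norm_num at h2
        omega
      rw [this, if_neg h]
  rw [e1, mod_bld (fun c => by
    split_ifs
    · exact hf c
    · positivity), bls_eq]
  refine bld_congr fun b _ _ => ?_
  rw [guard_eq]
  by_cases h : b < m
  · rw [if_pos h, if_pos h, if_pos (by omega)]
  · rw [if_neg h, if_neg h]

/-! ### Label rows -/

/-- the concatenation over a plan -/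
def planG (f : Pl → ℕ) (l : List Pl) : ℕ :=
  List.rec (motive := fun _ => ℕ) 0 (fun q _ ih => cat q.len (f q) ih) l

lemma planG_cons (f : Pl → ℕ) (q : Pl) (l : List Pl) :
    planG f (q :: l) = cat q.len (f q) (planG f l) := rfl

lemma plS_eq (d : DatR) (z p : ℕ) (l : List Pl) :
    plS d z p l = planG (fun q => shf (SW d z p q.k1 q.k2 q.km) q.lo) l := by
  induction l with
  | nil => rfl
  | cons q l ih =>
    cases q with
    | mk lo len k1 k2 km =>
      rw [planG_cons, ← ih]
      show shf (SW d z p k1 k2 km) lo % bp len + Nat.shiftLeft (plS d z p l) (40 * len)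
        = shf (SW d z p k1 k2 km) lo % bp len + bp len * plS d z p l
      rw [shl_eq, mul_comm]
      rfl

lemma drp_zero (l : List Pl) : drp 0 l = l := rfl

lemma drp_succ (n : ℕ) (q : Pl) (l : List Pl) : drp (n + 1) (q :: l) = drp n l := rfl

lemma cat_lt {m n x y : ℕ} (h : y < 2 ^ (40 * n)) : cat m x y < 2 ^ (40 * (m + n)) := by
  show x % 2 ^ (40 * m) + 2 ^ (40 * m) * y < _
  have h1 : x % 2 ^ (40 * m) < 2 ^ (40 * m) := Nat.mod_lt _ (by positivity)
  have h2 : 2 ^ (40 * m) * (y + 1) ≤ 2 ^ (40 * m) * 2 ^ (40 * n) := Nat.mul_le_mul_left _ h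
  rw [mul_add, mul_one, ← pow_add, ← mul_add] at h2
  omega

lemma planG_lt (f : Pl → ℕ) (l : List Pl) (s : List SegR) (hm : plOK l s = true) :
    planG f l < 2 ^ (40 * vR s) := by
  induction l generalizing s with
  | nil =>
    show 0 < _
    positivity
  | cons q l ih =>
    cases s with
    | nil =>
      have : plOK (q :: l) [] = false := rfl
      rw [this] at hm
      exact absurd hm (by simp)
    | cons a s =>
      rw [plOK_cons] at hm
      simp only [Bool.and_eq_true] at hm
      obtain ⟨⟨m1, m2⟩, m3⟩ := hm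
      have e2 : q.len = a.len := Nat.eq_of_beq_eq_true m2
      rw [planG_cons, vR_cons, ← e2]
      exact cat_lt (ih s m3)

/-- the digits from the node `v0` on -/
lemma planG_drp (f : Pl → ℕ) (l : List Pl) (s : List SegR) (hm : plOK l s = true) {v0 : ℕ}
    (hv : v0 < vR s) :
    (∀ c, dg (shf (planG f (drp (ixR s v0) l)) (psR s v0 - (sgR s v0).lo)) c
      = dg (planG f l) (v0 + c))
    ∧ shf (planG f (drp (ixR s v0) l)) (psR s v0 - (sgR s v0).lo) < 2 ^ (40 * (vR s - v0)) := by
  induction l generalizing s v0 with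
  | nil =>
    cases s with
    | nil => exact absurd hv (Nat.not_lt_zero v0)
    | cons a s =>
      have : plOK [] (a :: s) = false := rfl
      rw [this] at hm
      exact absurd hm (by simp)
  | cons q l ih =>
    cases s with
    | nil => exact absurd hv (Nat.not_lt_zero v0)
    | cons a s =>
      have hm' := hm
      rw [plOK_cons] at hm
      simp only [Bool.and_eq_true] at hm
      obtain ⟨⟨m1, m2⟩, m3⟩ := hm
      have e2 : q.len = a.len := Nat.eq_of_beq_eq_true m2
      rw [ixR_cons, psR_cons, sgR_cons]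
      by_cases h : v0 < a.len
      · rw [if_pos h, if_pos h, if_pos h, Nat.add_sub_cancel_left, drp_zero]
        refine ⟨fun c => by rw [dg_shf, add_comm c v0], shf_lt ?_⟩
        exact planG_lt f (q :: l) (a :: s) hm'
      · rw [if_neg h, if_neg h, if_neg h, drp_succ]
        rw [vR_cons] at hv
        obtain ⟨i1, i2⟩ := ih s m3 (v0 := v0 - a.len) (by omega)
        refine ⟨fun c => ?_, ?_⟩
        · rw [i1 c, planG_cons, dg_cat, if_neg (by omega)]
          congr 1
          omega
        · rw [vR_cons]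
          have : a.len + vR s - v0 = vR s - (v0 - a.len) := by omega
          rw [this]
          exact i2

/-- digits of the label values -/
lemma SW_dg {d : DatR} (hb : BndR d) (hc : CnsR d) {z p q k1 k2 km : ℕ} (hz : z < vR d.segs)
    (hp : p ≤ d.P) (hq : q ≤ d.P) :
    dg (SW d z p k1 k2 km) q = dg (arrR d z k1) (2 * q + d.P - p)
      + dg (arrR d z k2) (2 * p + d.P - q) + dg (arrR d z km) (p + q) := by
  have eE : ∀ c < d.P + 1, dg (shf (frc (Nat.mod (Nat.sub d.P p) 2) (fun e => aE d z k1 e))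
      (Nat.div (Nat.sub d.P p) 2)) c = dg (arrR d z k1) (2 * c + d.P - p) := by
    intro c hc'
    rw [frc_eq, dg_shf]
    exact dg_aE hc hp (by omega)
  have eV : ∀ c < d.P + 1, dg (shf (aV d z k2)
      (Nat.sub (Nat.sub (Nat.sub (Nat.pow 2 d.K) 1) d.P) (Nat.mul 2 p))) c
      = dg (arrR d z k2) (2 * p + d.P - c) := by
    intro c hc'
    rw [dg_shf]
    exact dg_aV hc hp (by omega)
  have eM : ∀ c < d.P + 1, dg (shf (arrR d z km) p) c = dg (arrR d z km) (p + c) := by
    intro c _
    rw [dg_shf, add_comm]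
  unfold SW
  rw [dg_add3n (n := d.P + 1) (fun c hc' => by rw [eE c hc']; exact arr_le hb hz _ _)
    (fun c hc' => by rw [eV c hc']; exact arr_le hb hz _ _)
    (fun c hc' => by rw [eM c hc']; exact arr_le hb hz _ _) (by omega), eE q (by omega),
    eV q (by omega), eM q (by omega)]

/-- the digits of the label row -/
lemma labL_dg {d : DatR} (hb : BndR d) (hc : CnsR d) {z c0 b c : ℕ} (hz : z < vR d.segs)
    (hbV : b < vR d.segs) (h0 : c0 + c < vR d.segs) :
    (dg (labL d z c0 b) c : ℤ) = KR d z b (c0 + c) := by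
  obtain ⟨b1, b2, b3, b4, b5⟩ := sgR_eq d.segs hbV
  have hpP : psR d.segs b ≤ d.P := by
    have := hc.hi _ b3
    omega
  have k1 := (planG_drp (fun q => shf (SW d z (psR d.segs b) q.k1 q.k2 q.km) q.lo)
    (sgR d.segs b).pl d.segs (hc.pl _ b3) (v0 := c0) (by omega)).1 c
  have e1 : labL d z c0 b = shf (planG (fun q => shf (SW d z (psR d.segs b) q.k1 q.k2 q.km) q.lo)
      (drp (ixR d.segs c0) (sgR d.segs b).pl)) (psR d.segs c0 - (sgR d.segs c0).lo) := by
    rw [← plS_eq]
    rfl
  have key := dg_plan (fun q => shf (SW d z (psR d.segs b) q.k1 q.k2 q.km) q.lo)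
    (fun x q => dg (arrR d z q.k1) (2 * x + d.P - psR d.segs b)
      + dg (arrR d z q.k2) (2 * psR d.segs b + d.P - x)
      + dg (arrR d z q.km) (psR d.segs b + x)) (sgR d.segs b).pl d.segs (hc.pl _ b3)
      (fun q hq t ht => by
        obtain ⟨a, ha, l1, l2⟩ := plOK_mem (hc.pl _ b3) hq
        have ht' : q.lo + t ≤ d.P := by
          have := hc.hi a ha
          omega
        rw [dg_shf, add_comm t, SW_dg hb hc hz hpP ht']) h0
  rw [e1, k1]
  have key2 : dg (planG (fun q => shf (SW d z (psR d.segs b) q.k1 q.k2 q.km) q.lo)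
    (sgR d.segs b).pl) (c0 + c) = _ := key
  rw [key2]
  unfold KR
  have e : (sgR d.segs b).pl = (nth segD d.segs (ixR d.segs b)).pl := by rw [← b1]
  unfold plE
  rw [← e]
  push_cast
  ring

lemma labL_lt {d : DatR} (hc : CnsR d) {z c0 b : ℕ} (hbV : b < vR d.segs) (h0 : c0 < vR d.segs) :
    labL d z c0 b < 2 ^ (40 * (vR d.segs - c0)) := by
  obtain ⟨_, _, b3, _, _⟩ := sgR_eq d.segs hbV
  have k1 := (planG_drp (fun q => shf (SW d z (psR d.segs b) q.k1 q.k2 q.km) q.lo)
    (sgR d.segs b).pl d.segs (hc.pl _ b3) h0).2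
  have e1 : labL d z c0 b = shf (planG (fun q => shf (SW d z (psR d.segs b) q.k1 q.k2 q.km) q.lo)
      (drp (ixR d.segs c0) (sgR d.segs b).pl)) (psR d.segs c0 - (sgR d.segs c0).lo) := by
    rw [← plS_eq]
    rfl
  rw [e1]
  exact k1

end MP61673a.KC
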