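import Pool.Agent.Mu673.KCbigs

/-!
LOG-STEP PERMUTATIONS of packed words with `2^K` digits: even digits, odd digits, reversal.
-/

set_option autoImplicit false

namespace MP61673a.KC

open Finset

noncomputable section

/-- ones at the digits `i < 2^K` with `i % 2^(j+1) < 2^j` (`j < K`) -/
def mk2 (K j : ℕ) : ℕ :=
  msb (fun _ => Nat.sub (bp (Nat.pow 2 j)) 1) (Nat.mul 40 (Nat.pow 2 (Nat.succ j)))
    (Nat.pow 2 (Nat.sub K (Nat.succ j)))

/-- even digits -/
def evl (K x : ℕ) : ℕ :=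
  Nat.rec (motive := fun _ => ℕ) (Nat.land x (mk2 K 0))
    (fun j ih => Nat.land (Nat.lor ih (shf ih (Nat.pow 2 j))) (mk2 K (Nat.succ j)))
    (Nat.sub K 1)

/-- odd digits -/
def odl (K x : ℕ) : ℕ := evl K (shf x 1)

/-- reversed digits: digit `i` = digit `2^K - 1 - i` -/
def rvl (K x : ℕ) : ℕ :=
  Nat.rec (motive := fun _ => ℕ) x
    (fun j ih => Nat.lor (Nat.mul (Nat.land ih (mk2 K j)) (bp (Nat.pow 2 j)))
      (Nat.land (shf ih (Nat.pow 2 j)) (mk2 K j))) K

end

lemma dg_lor (x y c : ℕ) : dg (Nat.lor x y) c = Nat.lor (dg x c) (dg y c) := by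
  have e1 : (x ||| y) >>> (40 * c) = (x >>> (40 * c)) ||| (y >>> (40 * c)) :=
    Nat.shiftRight_or_distrib
  show ((x ||| y) >>> (40 * c)) &&& 1099511627775
    = (((x >>> (40 * c)) &&& 1099511627775) ||| ((y >>> (40 * c)) &&& 1099511627775))
  rw [e1, Nat.and_or_distrib_right]

lemma lor_zero' (t : ℕ) : Nat.lor t 0 = t := Nat.or_zero t

lemma zero_lor' (t : ℕ) : Nat.lor 0 t = t := Nat.zero_or t

lemma dg_full {m c : ℕ} : dg (2 ^ (40 * m) - 1) c = if c < m then 1099511627775 else 0 := by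
  split_ifs with h
  · have := dg_compl (m := m) (y := 0) (by positivity) h
    rw [dg_zero] at this
    simpa using this
  · refine dg_of_lt (m := m) ?_ (by omega)
    have : 1 ≤ 2 ^ (40 * m) := Nat.one_le_two_pow
    omega

lemma mk2_blk {K j : ℕ} : ∀ i < 2 ^ (K - (j + 1)),
    (fun _ : ℕ => Nat.sub (bp (Nat.pow 2 j)) 1) i < 2 ^ (40 * 2 ^ (j + 1)) := by
  intro i _
  show 2 ^ (40 * 2 ^ j) - 1 < 2 ^ (40 * 2 ^ (j + 1))
  have h1 : 2 ^ (40 * 2 ^ j) ≤ 2 ^ (40 * 2 ^ (j + 1)) := by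
    refine Nat.pow_le_pow_right (by norm_num) ?_
    rw [pow_succ]
    omega
  have : 1 ≤ 2 ^ (40 * 2 ^ j) := Nat.one_le_two_pow
  omega

lemma pow_split {K j : ℕ} (hj : j < K) : 2 ^ (j + 1) * 2 ^ (K - (j + 1)) = 2 ^ K := by
  rw [← pow_add]
  congr 1
  omega

lemma mk2_lt {K j : ℕ} (hj : j < K) : mk2 K j < 2 ^ (40 * 2 ^ K) := by
  have h := msb_lt (f := fun _ : ℕ => Nat.sub (bp (Nat.pow 2 j)) 1) (L := 2 ^ (j + 1))
    (n := 2 ^ (K - (j + 1))) mk2_blk
  rw [pow_split hj] at h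
  exact h

lemma dg_mk2 {K j i : ℕ} (hj : j < K) (hi : i < 2 ^ K) :
    dg (mk2 K j) i = if i % 2 ^ (j + 1) < 2 ^ j then 1099511627775 else 0 := by
  have hr : i / 2 ^ (j + 1) < 2 ^ (K - (j + 1)) := by
    refine Nat.div_lt_of_lt_mul ?_
    rw [pow_split hj]
    exact hi
  have h := dg_msb (f := fun _ : ℕ => Nat.sub (bp (Nat.pow 2 j)) 1) (L := 2 ^ (j + 1))
    (n := 2 ^ (K - (j + 1))) mk2_blk hr (Nat.mod_lt i (by positivity : 0 < 2 ^ (j + 1)))
  rw [Nat.div_add_mod] at h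
  have e : dg (mk2 K j) i = dg (2 ^ (40 * 2 ^ j) - 1) (i % 2 ^ (j + 1)) := h
  rw [e, dg_full]

lemma evl_succ (K j x : ℕ) : (Nat.rec (motive := fun _ => ℕ) (Nat.land x (mk2 K 0))
    (fun j ih => Nat.land (Nat.lor ih (shf ih (Nat.pow 2 j))) (mk2 K (Nat.succ j))) (j + 1) : ℕ)
    = Nat.land (Nat.lor (Nat.rec (motive := fun _ => ℕ) (Nat.land x (mk2 K 0))
      (fun j ih => Nat.land (Nat.lor ih (shf ih (Nat.pow 2 j))) (mk2 K (Nat.succ j))) j)
      (shf (Nat.rec (motive := fun _ => ℕ) (Nat.land x (mk2 K 0))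
      (fun j ih => Nat.land (Nat.lor ih (shf ih (Nat.pow 2 j))) (mk2 K (Nat.succ j))) j) (2 ^ j)))
        (mk2 K (j + 1)) := rfl

/-- index arithmetic: `i = 2^(j+1) q + r` -/
lemma div_mod_two {s i : ℕ} (hs : 0 < s) :
    i / s = 2 * (i / (s * 2)) + (i % (s * 2)) / s ∧ i % s = (i % (s * 2)) % s := by
  have h := Nat.div_add_mod i (s * 2)
  set q := i / (s * 2) with hq
  set r := i % (s * 2) with hr
  have e : i = s * (2 * q) + r := by
    have : s * 2 * q = s * (2 * q) := by ring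
    omega
  constructor
  · rw [e, Nat.mul_add_div hs]
  · rw [e, Nat.mul_add_mod]

lemma dg_evl_aux {K x j : ℕ} (hj : j < K) {i : ℕ} (hi : i < 2 ^ K) :
    dg (Nat.rec (motive := fun _ => ℕ) (Nat.land x (mk2 K 0))
      (fun j ih => Nat.land (Nat.lor ih (shf ih (Nat.pow 2 j))) (mk2 K (Nat.succ j))) j) i
      = if i % 2 ^ (j + 1) < 2 ^ j then
          dg x (2 * (2 ^ j * (i / 2 ^ (j + 1)) + i % 2 ^ (j + 1))) else 0 := by
  induction j generalizing i with
  | zero =>
    have e : (Nat.rec (motive := fun _ => ℕ) (Nat.land x (mk2 K 0))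
      (fun j ih => Nat.land (Nat.lor ih (shf ih (Nat.pow 2 j))) (mk2 K (Nat.succ j))) 0 : ℕ)
      = Nat.land x (mk2 K 0) := rfl
    rw [e, dg_land, dg_mk2 hj hi]
    simp only [zero_add, pow_one, pow_zero, one_mul]
    by_cases c : i % 2 < 1
    · rw [if_pos c, if_pos c, land_full _ (dg_lt _ _)]
      congr 1
      omega
    · rw [if_neg c, if_neg c, land_zero']
  | succ j ih =>
    have hj' : j < K := by omega
    set y : ℕ := (Nat.rec (motive := fun _ => ℕ) (Nat.land x (mk2 K 0))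
      (fun j ih => Nat.land (Nat.lor ih (shf ih (Nat.pow 2 j))) (mk2 K (Nat.succ j))) j) with hy
    have hs : 0 < 2 ^ j := by positivity
    have e2 : 2 ^ (j + 1) = 2 ^ j * 2 := pow_succ _ _
    have e4 : 2 ^ (j + 1 + 1) = 2 ^ j * 4 := by rw [pow_succ, pow_succ]; ring
    have hdvd : 2 ^ j * 4 * 2 ^ (K - (j + 1 + 1)) = 2 ^ K := by
      rw [← e4]
      exact pow_split hj
    rw [evl_succ, ← hy, dg_land, dg_lor, dg_shf, dg_mk2 hj hi]
    by_cases c : i % 2 ^ (j + 1 + 1) < 2 ^ (j + 1)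
    · rw [if_pos c, if_pos c]
      have hlt : ∀ t : ℕ, t < 2 ^ 40 → Nat.land t 1099511627775 = t := fun t h => land_full t h
      have h4 := Nat.div_add_mod i (2 ^ j * 4)
      set q := i / (2 ^ j * 4) with hq
      set r := i % (2 ^ j * 4) with hr
      rw [e4, e2] at c
      rw [← hr] at c
      have hqlt : q < 2 ^ (K - (j + 1 + 1)) := by
        rw [hq]
        refine Nat.div_lt_of_lt_mul ?_
        rw [hdvd]
        exact hi
      have hi2 : i + 2 ^ j < 2 ^ K := by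
        have h5 : 2 ^ j * 4 * (q + 1) ≤ 2 ^ K := by
          rw [← hdvd]
          exact Nat.mul_le_mul_left _ hqlt
        have : 2 ^ j * 4 * (q + 1) = 2 ^ j * 4 * q + 2 ^ j * 4 := by ring
        omega
      rw [ih hj' hi, ih hj' hi2, e4, e2, ← hq, ← hr]
      have ei : i = 2 ^ j * 2 * (2 * q) + r := by
        have : 2 ^ j * 2 * (2 * q) = 2 ^ j * 4 * q := by ring
        omega
      have hpos : 0 < 2 ^ j * 2 := by positivity
      by_cases cr : r < 2 ^ j
      · have d1 : i / (2 ^ j * 2) = 2 * q := by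
          rw [ei, Nat.mul_add_div hpos, Nat.div_eq_of_lt (by omega), add_zero]
        have d2 : i % (2 ^ j * 2) = r := by
          rw [ei, Nat.mul_add_mod, Nat.mod_eq_of_lt (by omega)]
        have d3 : (i + 2 ^ j) % (2 ^ j * 2) = r + 2 ^ j := by
          rw [ei, add_assoc, Nat.mul_add_mod, Nat.mod_eq_of_lt (by omega)]
        rw [d1, d2, d3, if_pos cr, if_neg (by omega), lor_zero', hlt _ (dg_lt _ _)]
        congr 1
        ring
      · have d2 : i % (2 ^ j * 2) = r := by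
          rw [ei, Nat.mul_add_mod, Nat.mod_eq_of_lt (by omega)]
        obtain ⟨t, ht⟩ : ∃ t, r = 2 ^ j + t := ⟨r - 2 ^ j, by omega⟩
        have d3 : (i + 2 ^ j) % (2 ^ j * 2) = t := by
          have : i + 2 ^ j = 2 ^ j * 2 * (2 * q + 1) + t := by
            rw [ei, ht]
            ring
          rw [this, Nat.mul_add_mod, Nat.mod_eq_of_lt (by omega)]
        have d4 : (i + 2 ^ j) / (2 ^ j * 2) = 2 * q + 1 := by
          have : i + 2 ^ j = 2 ^ j * 2 * (2 * q + 1) + t := by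
            rw [ei, ht]
            ring
          rw [this, Nat.mul_add_div hpos, Nat.div_eq_of_lt (by omega), add_zero]
        rw [d2, d3, d4, if_neg cr, if_pos (by omega), zero_lor', hlt _ (dg_lt _ _)]
        congr 1
        rw [ht]
        ring
    · rw [if_neg c, if_neg c, land_zero']

/-- EVEN DIGITS -/
lemma dg_evl {K x t : ℕ} (hK : 0 < K) (ht : t < 2 ^ (K - 1)) : dg (evl K x) t = dg x (2 * t) := by
  have e : 2 ^ K = 2 ^ (K - 1) * 2 := by
    rw [← pow_succ]
    congr 1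
    omega
  have h := dg_evl_aux (x := x) (j := K - 1) (K := K) (by omega) (i := t) (by omega)
  have e1 : K - 1 + 1 = K := by omega
  rw [e1, Nat.mod_eq_of_lt (by omega), Nat.div_eq_of_lt (by omega), if_pos ht] at h
  have e2 : evl K x = (Nat.rec (motive := fun _ => ℕ) (Nat.land x (mk2 K 0))
      (fun j ih => Nat.land (Nat.lor ih (shf ih (Nat.pow 2 j))) (mk2 K (Nat.succ j))) (K - 1)) := rfl
  rw [e2, h]
  congr 1
  ring

/-- ODD DIGITS -/
lemma dg_odl {K x t : ℕ} (hK : 0 < K) (ht : t < 2 ^ (K - 1)) :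
    dg (odl K x) t = dg x (2 * t + 1) := by
  unfold odl
  rw [dg_evl hK ht, dg_shf]

lemma dg_mulbp (y s i : ℕ) : dg (Nat.mul y (bp s)) i = if i < s then 0 else dg y (i - s) := by
  have e : Nat.mul y (bp s) = 0 + y * 2 ^ (40 * s) := by
    rw [zero_add]
    rfl
  rw [e, dg_add_mul _ _ _ _ (by positivity), dg_zero]

lemma dg_rvl_aux {K x j : ℕ} (hj : j ≤ K) {i : ℕ} (hi : i < 2 ^ K) :
    dg (Nat.rec (motive := fun _ => ℕ) x
      (fun j ih => Nat.lor (Nat.mul (Nat.land ih (mk2 K j)) (bp (Nat.pow 2 j)))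
        (Nat.land (shf ih (Nat.pow 2 j)) (mk2 K j))) j) i
      = dg x (2 ^ j * (i / 2 ^ j) + (2 ^ j - 1 - i % 2 ^ j)) := by
  induction j generalizing i with
  | zero =>
    simp only [pow_zero, Nat.div_one, one_mul, Nat.sub_self, Nat.zero_sub, add_zero]
    rfl
  | succ j ih =>
    have hj' : j < K := by omega
    set y : ℕ := (Nat.rec (motive := fun _ => ℕ) x
      (fun j ih => Nat.lor (Nat.mul (Nat.land ih (mk2 K j)) (bp (Nat.pow 2 j)))
        (Nat.land (shf ih (Nat.pow 2 j)) (mk2 K j))) j) with hy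
    have e : (Nat.rec (motive := fun _ => ℕ) x
      (fun j ih => Nat.lor (Nat.mul (Nat.land ih (mk2 K j)) (bp (Nat.pow 2 j)))
        (Nat.land (shf ih (Nat.pow 2 j)) (mk2 K j))) (j + 1) : ℕ)
        = Nat.lor (Nat.mul (Nat.land y (mk2 K j)) (bp (2 ^ j)))
          (Nat.land (shf y (2 ^ j)) (mk2 K j)) := rfl
    have hs : 0 < 2 ^ j := by positivity
    have hpos : 0 < 2 ^ j * 2 := by positivity
    have e2 : 2 ^ (j + 1) = 2 ^ j * 2 := pow_succ _ _
    have hdvd : 2 ^ j * 2 * 2 ^ (K - (j + 1)) = 2 ^ K := by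
      rw [← e2]
      exact pow_split hj'
    have h4 := Nat.div_add_mod i (2 ^ j * 2)
    set q := i / (2 ^ j * 2) with hq
    set r := i % (2 ^ j * 2) with hr
    have hrlt : r < 2 ^ j * 2 := Nat.mod_lt _ hpos
    have hqlt : q < 2 ^ (K - (j + 1)) := by
      rw [hq]
      refine Nat.div_lt_of_lt_mul ?_
      rw [hdvd]
      exact hi
    have hblk : 2 ^ j * 2 * (q + 1) ≤ 2 ^ K := by
      rw [← hdvd]
      exact Nat.mul_le_mul_left _ hqlt
    have hblk2 : 2 ^ j * 2 * (q + 1) = 2 ^ j * 2 * q + 2 ^ j * 2 := by ring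
    rw [e, dg_lor, dg_mulbp, dg_land, dg_land, dg_shf, dg_mk2 hj' hi, e2, ← hq, ← hr]
    by_cases cr : r < 2 ^ j
    · rw [if_pos cr, land_full _ (dg_lt _ _)]
      have h1 : (if i < 2 ^ j then 0 else
          (dg y (i - 2 ^ j)).land (dg (mk2 K j) (i - 2 ^ j))) = 0 := by
        split_ifs with c
        · rfl
        · have h2 : i - 2 ^ j < 2 ^ K := by omega
          rw [dg_mk2 hj' h2, e2, if_neg, land_zero']
          -- the block before
          have hq1 : 1 ≤ q := by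
            by_contra h0
            have hq0 : q = 0 := Nat.lt_one_iff.1 (not_le.1 h0)
            rw [hq0, mul_zero, zero_add] at h4
            omega
          obtain ⟨q', hq'⟩ : ∃ q', q = q' + 1 := ⟨q - 1, (Nat.sub_add_cancel hq1).symm⟩
          have : i - 2 ^ j = 2 ^ j * 2 * q' + (r + 2 ^ j) := by
            rw [hq'] at h4
            have : 2 ^ j * 2 * (q' + 1) = 2 ^ j * 2 * q' + 2 ^ j * 2 := by ring
            omega
          rw [this, Nat.mul_add_mod, Nat.mod_eq_of_lt (by omega)]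
          omega
      rw [h1, zero_lor']
      have hi2 : i + 2 ^ j < 2 ^ K := by omega
      rw [ih hj'.le hi2]
      have ei : i + 2 ^ j = 2 ^ j * (2 * q + 1) + r := by
        have : 2 ^ j * (2 * q + 1) = 2 ^ j * 2 * q + 2 ^ j := by ring
        omega
      rw [ei, Nat.mul_add_div hs, Nat.div_eq_of_lt cr, Nat.mul_add_mod, Nat.mod_eq_of_lt cr,
        add_zero]
      congr 1
      have : 2 ^ j * (2 * q + 1) = 2 ^ j * 2 * q + 2 ^ j := by ring
      omega
    · rw [if_neg cr, land_zero', lor_zero', if_neg (by omega)]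
      have h2 : i - 2 ^ j < 2 ^ K := by omega
      have ei : i - 2 ^ j = 2 ^ j * 2 * q + (r - 2 ^ j) := by omega
      rw [dg_mk2 hj' h2, e2, if_pos (by
        rw [ei, Nat.mul_add_mod, Nat.mod_eq_of_lt (by omega)]
        omega), land_full _ (dg_lt _ _), ih hj'.le h2]
      have ei2 : i - 2 ^ j = 2 ^ j * (2 * q) + (r - 2 ^ j) := by
        have : 2 ^ j * (2 * q) = 2 ^ j * 2 * q := by ring
        omega
      rw [ei2, Nat.mul_add_div hs, Nat.div_eq_of_lt (by omega), Nat.mul_add_mod,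
        Nat.mod_eq_of_lt (by omega), add_zero]
      congr 1
      have : 2 ^ j * (2 * q) = 2 ^ j * 2 * q := by ring
      omega

/-- REVERSAL -/
lemma dg_rvl {K x i : ℕ} (hi : i < 2 ^ K) : dg (rvl K x) i = dg x (2 ^ K - 1 - i) := by
  have h := dg_rvl_aux (x := x) (j := K) (K := K) le_rfl hi
  rw [Nat.div_eq_of_lt hi, Nat.mod_eq_of_lt hi, mul_zero, zero_add] at h
  exact h

end MP61673a.KC
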