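import Pool.Agent.Mu673.KCperm
import Pool.Agent.Mu673.KCgen

/-!
DATA LAYER FOR ROW CERTIFICATES: nodes = union of segments (classes), label tables per sampler node and
per pair of classes, fixed tables shifted with the sampler node (three body thresholds), linear facts.
-/

set_option autoImplicit false

namespace MP61673a.KC

open Finset

noncomputable section

/-- the pair (class of the row node, this class): position of the first node, number of nodes,
table numbers: `k1` label `2 c - b` (`b` = row node single, `c` = node of this class doubled),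
`k2` label `2 b - c`, `km` sum `b + c` -/
structure Pl where
  /-- position of the first node -/
  lo : ℕ
  /-- number of nodes -/
  len : ℕ
  /-- table of the label `2 c - b` -/
  k1 : ℕ
  /-- table of the label `2 b - c` -/
  k2 : ℕ
  /-- table of the sum -/
  km : ℕ

/-- a fixed table seen by the sampler node with the position `p`: table `ix`, moved by `m * p`
digits (`ng = 0`) or `m * (P - p)` digits (`ng = 1`) -/
structure G3 where
  /-- number of the fixed table -/
  ix : ℕ
  /-- sign -/
  ng : ℕ
  /-- multiplier -/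
  m : ℕ

/-- a table of the sampler nodes of one class: table `w` of the node plus fixed tables -/
structure Cb where
  /-- number of the table of the node -/
  w : ℕ
  /-- fixed tables -/
  g : List G3

/-- a class of nodes -/
structure SegR where
  /-- position of the first node -/
  lo : ℕ
  /-- number of nodes -/
  len : ℕ
  /-- pairs with the other classes -/
  pl : List Pl
  /-- tables of a sampler node of the class -/
  cb : List Cb

/-- linear fact: value `lp - ln` of the sampler (packed), matrix of the pair (rows in blocks of 16) -/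
structure FnR where
  /-- positive part of the values, packed -/
  lp : ℕ
  /-- negative part of the values, packed -/
  ln : ℕ
  /-- matrix -/
  mat : List (List ℕ)
  /-- size parameter -/
  k : ℕ

/-- data of a row certificate; positions `0, .., P`, `3 P < 2^K` -/
structure DatR where
  /-- last position -/
  P : ℕ
  /-- size of the words: `2^K` digits -/
  K : ℕ
  /-- classes -/
  segs : List SegR
  /-- squares of the sampler nodes, blocks of 16 -/
  sq : List (List (List ℕ))
  /-- tables of the sampler nodes, blocks of 16 -/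
  W : List (List (List ℕ))
  /-- fixed tables -/
  G : List ℕ
  /-- facts -/
  fn : List FnR
  /-- constants of the sampler nodes, positive part, packed -/
  ap : ℕ
  /-- constants of the sampler nodes, negative part, packed -/
  an : ℕ
  /-- bound -/
  Bd : ℕ

/-- element of a list in blocks of 16 -/
def nth16 {α : Type} (d : α) (l : List (List α)) (z : ℕ) : α :=
  nth d (nth [] l (Nat.div z 16)) (Nat.mod z 16)

/-- number of nodes -/
def vR (l : List SegR) : ℕ := sumL (fun s => s.len) l

/-- the empty class -/
def segD : SegR := ⟨0, 0, [], []⟩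

/-- class of the node `v` -/
def sgR (l : List SegR) (v : ℕ) : SegR :=
  List.rec (motive := fun _ => ℕ → SegR) (fun _ => segD)
    (fun s _ ih v => Nat.rec (motive := fun _ => SegR) (ih (Nat.sub v s.len))
      (fun _ _ => s) (Nat.sub s.len v)) l v

/-- position of the node `v` -/
def psR (l : List SegR) (v : ℕ) : ℕ :=
  List.rec (motive := fun _ => ℕ → ℕ) (fun _ => 0)
    (fun s _ ih v => Nat.rec (motive := fun _ => ℕ) (ih (Nat.sub v s.len))
      (fun _ _ => Nat.add s.lo v) (Nat.sub s.len v)) l v

/-- shift of a fixed table -/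
def g3s (P p : ℕ) (g : G3) : ℕ :=
  Nat.rec (motive := fun _ => ℕ) (Nat.mul g.m p) (fun _ _ => Nat.mul g.m (Nat.sub P p)) g.ng

/-- the sampler table: `ws` = tables of the node, `c` = description, `p` = position of the node -/
def tabR (P : ℕ) (G ws : List ℕ) (c : Cb) (p : ℕ) : ℕ :=
  Nat.add (nth 0 ws c.w) (sumL (fun g => shf (nth 0 G g.ix) (g3s P p g)) c.g)

/-- table number `k` of the sampler node `z` -/
def arrR (d : DatR) (z k : ℕ) : ℕ :=
  tabR d.P d.G (nth16 [] d.W z) (nth ⟨0, []⟩ (sgR d.segs z).cb k) (psR d.segs z)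

/-- table `k` of the sampler `z` with stride two, parity `e` -/
def aE (d : DatR) (z k e : ℕ) : ℕ :=
  Nat.rec (motive := fun _ => ℕ) (evl d.K (arrR d z k)) (fun _ _ => odl d.K (arrR d z k)) e

/-- table `k` of the sampler `z`, reversed -/
def aV (d : DatR) (z k : ℕ) : ℕ := rvl d.K (arrR d z k)

/-- label part of the row of a node with the position `p` -/
def plrow (d : DatR) (z p : ℕ) (l : List Pl) : ℕ :=
  List.rec (motive := fun _ => ℕ) 0
    (fun q _ ih => cat q.len
      (Nat.add (Nat.add
        (shf (frc q.k1 (fun k => frc (Nat.mod (Nat.sub d.P p) 2) (fun e => aE d z k e)))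
          (Nat.add (Nat.div (Nat.sub d.P p) 2) q.lo))
        (shf (frc q.k2 (fun k => aV d z k))
          (Nat.add (Nat.sub (Nat.sub (Nat.sub (Nat.pow 2 d.K) 1) d.P) (Nat.mul 2 p)) q.lo)))
        (shf (frc q.km (fun k => arrR d z k)) (Nat.add p q.lo))) ih) l

/-- positive base row -/
def posR (d : DatR) (z b : ℕ) : ℕ :=
  Nat.add (Nat.add (plrow d z (psR d.segs b) (sgR d.segs b).pl)
      (Nat.mul (dg d.ap z) (rep (vR d.segs))))
    (sumL (fun f : FnR => Nat.mul (dg f.lp z) (nth16 0 f.mat b)) d.fn)

/-- negative base row -/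
def negR (d : DatR) (z b : ℕ) : ℕ :=
  Nat.add (Nat.mul (dg d.an z) (rep (vR d.segs)))
    (sumL (fun f : FnR => Nat.mul (dg f.ln z) (nth16 0 f.mat b)) d.fn)

/-- squares of the sampler node `z` -/
def sqR (d : DatR) (z : ℕ) : List ℕ := nth16 [] d.sq z

/-- the kernel check, triples with `lo ≤ a < hi`, `V ≤ 2^k` -/
def rowCheck (k : ℕ) (d : DatR) (lo hi : ℕ) : Bool :=
  bigCheck k (vR d.segs) (Rg (vR d.segs) (sqR d) (posR d) (negR d)) d.Bd lo hi

/-- the classes in the plans are the classes of the nodes -/
def plOK (l : List Pl) (s : List SegR) : Bool :=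
  List.rec (motive := fun _ => List SegR → Bool)
    (fun s => List.rec (motive := fun _ => Bool) true (fun _ _ _ => false) s)
    (fun q _ ih s => List.rec (motive := fun _ => Bool) false
      (fun a s' _ => Nat.beq q.lo a.lo && Nat.beq q.len a.len && ih s') s) l s

/-- entry `j` of the plan of the class `i` -/
def plE (l : List SegR) (i j : ℕ) : Pl := nth ⟨0, 0, 0, 0, 0⟩ (nth segD l i).pl j

/-- number of classes -/
def nC (l : List SegR) : ℕ := sumL (fun _ => 1) l

/-- consistency of the plans -/
def cnsR (d : DatR) : Bool :=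
  allL d.segs (fun s => plOK s.pl d.segs && Nat.ble (Nat.add s.lo s.len) (Nat.succ d.P))
    && allN (nC d.segs) (fun i => allN (nC d.segs) (fun j =>
      Nat.beq (plE d.segs i j).k1 (plE d.segs j i).k2
        && Nat.beq (plE d.segs i j).km (plE d.segs j i).km))
    && Nat.ble (Nat.succ (Nat.mul 3 d.P)) (Nat.pow 2 d.K) && Nat.ble 1 d.K

/-- size conditions of the facts -/
def bndFR (V : ℕ) (f : FnR) : Bool :=
  Nat.ble f.k 32 && mask f.k V f.lp && mask f.k V f.ln
    && allN V (fun z => mask (Nat.sub 32 f.k) V (nth16 0 f.mat z))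

/-- size conditions -/
def bndR (d : DatR) : Bool :=
  bndg (vR d.segs) (sqR d)
    && allN (vR d.segs) (fun z => allL (nth16 [] d.W z) (mask 30 (Nat.pow 2 d.K)))
    && allL d.G (mask 30 (Nat.mul 16 (Nat.pow 2 d.K)))
    && allL d.segs (fun s => allL s.cb (fun c => Nat.ble (sumL (fun _ => 1) c.g) 3))
    && allL d.fn (bndFR (vR d.segs)) && Nat.ble (sumL (fun _ => 1) d.fn) 11
    && mask 32 (vR d.segs) d.ap && mask 32 (vR d.segs) d.an

/-- symmetry of the matrices of the facts -/
def symR (d : DatR) : Bool :=
  allL d.fn (fun f => allN (vR d.segs) (fun b => allN b (fun c =>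
    Nat.beq (dg (nth16 0 f.mat b) c) (dg (nth16 0 f.mat c) b))))

/-! ### Meaning -/

/-- number of the class of the node `v` -/
def ixR (l : List SegR) (v : ℕ) : ℕ :=
  List.rec (motive := fun _ => ℕ → ℕ) (fun _ => 0)
    (fun s _ ih v => Nat.rec (motive := fun _ => ℕ) (Nat.succ (ih (Nat.sub v s.len)))
      (fun _ _ => 0) (Nat.sub s.len v)) l v

/-- label and midpoint part of the cost -/
def KR (d : DatR) (z b c : ℕ) : ℤ :=
  dg (arrR d z (plE d.segs (ixR d.segs b) (ixR d.segs c)).k1)
      (2 * psR d.segs c + d.P - psR d.segs b)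
    + dg (arrR d z (plE d.segs (ixR d.segs b) (ixR d.segs c)).k2)
      (2 * psR d.segs b + d.P - psR d.segs c)
    + dg (arrR d z (plE d.segs (ixR d.segs b) (ixR d.segs c)).km) (psR d.segs b + psR d.segs c)

/-- the integer cost of the pair of nodes `(b, c)` for the sampler node `z` -/
def WR (d : DatR) (z b c : ℕ) : ℤ :=
  2 * SSg (sqR d) z b c + KR d z b c + ((dg d.ap z : ℕ) - (dg d.an z : ℕ))
    + (d.fn.map fun f => (((dg f.lp z : ℕ) : ℤ) - (dg f.ln z : ℕ))
        * (dg (nth16 0 f.mat b) c : ℤ)).sum

end

/-! ### Location -/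

lemma vR_cons (s : SegR) (l : List SegR) : vR (s :: l) = s.len + vR l := rfl

lemma psR_cons (s : SegR) (l : List SegR) (v : ℕ) :
    psR (s :: l) v = if v < s.len then s.lo + v else psR l (v - s.len) := by
  have e : psR (s :: l) v = Nat.rec (motive := fun _ => ℕ) (psR l (v - s.len))
      (fun _ _ => s.lo + v) (s.len - v) := rfl
  rw [e]
  split_ifs with h
  · obtain ⟨k, hk⟩ : ∃ k, s.len - v = k + 1 := ⟨s.len - v - 1, by omega⟩
    rw [hk]
  · have : s.len - v = 0 := by omega
    rw [this]
    rfl

lemma sgR_cons (s : SegR) (l : List SegR) (v : ℕ) :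
    sgR (s :: l) v = if v < s.len then s else sgR l (v - s.len) := by
  have e : sgR (s :: l) v = Nat.rec (motive := fun _ => SegR) (sgR l (v - s.len))
      (fun _ _ => s) (s.len - v) := rfl
  rw [e]
  split_ifs with h
  · obtain ⟨k, hk⟩ : ∃ k, s.len - v = k + 1 := ⟨s.len - v - 1, by omega⟩
    rw [hk]
  · have : s.len - v = 0 := by omega
    rw [this]
    rfl

lemma ixR_cons (s : SegR) (l : List SegR) (v : ℕ) :
    ixR (s :: l) v = if v < s.len then 0 else ixR l (v - s.len) + 1 := by
  have e : ixR (s :: l) v = Nat.rec (motive := fun _ => ℕ) (ixR l (v - s.len) + 1)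
      (fun _ _ => 0) (s.len - v) := rfl
  rw [e]
  split_ifs with h
  · obtain ⟨k, hk⟩ : ∃ k, s.len - v = k + 1 := ⟨s.len - v - 1, by omega⟩
    rw [hk]
  · have : s.len - v = 0 := by omega
    rw [this]
    rfl

/-- the class of a node -/
lemma sgR_eq (l : List SegR) {v : ℕ} (hv : v < vR l) :
    sgR l v = nth segD l (ixR l v) ∧ ixR l v < nC l ∧ sgR l v ∈ l
      ∧ (sgR l v).lo ≤ psR l v ∧ psR l v < (sgR l v).lo + (sgR l v).len := by
  induction l generalizing v with
  | nil => exact absurd hv (Nat.not_lt_zero v)
  | cons s l ih =>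
    rw [vR_cons] at hv
    rw [sgR_cons, ixR_cons, psR_cons]
    have en : nC (s :: l) = 1 + nC l := rfl
    by_cases h : v < s.len
    · rw [if_pos h, if_pos h, if_pos h, en]
      exact ⟨rfl, by omega, List.mem_cons_self, by omega, by omega⟩
    · rw [if_neg h, if_neg h, if_neg h, en]
      obtain ⟨h1, h2, h3, h4, h5⟩ := ih (v := v - s.len) (by omega)
      exact ⟨h1, by omega, List.mem_cons_of_mem _ h3, h4, h5⟩

lemma plOK_cons (q : Pl) (l : List Pl) (a : SegR) (s : List SegR) :
    plOK (q :: l) (a :: s) = (Nat.beq q.lo a.lo && Nat.beq q.len a.len && plOK l s) := rfl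

/-- digits of a concatenation over a plan -/
lemma dg_plan (f : Pl → ℕ) (F : ℕ → Pl → ℕ) (l : List Pl) (s : List SegR)
    (hm : plOK l s = true)
    (h : ∀ q ∈ l, ∀ t < q.len, dg (f q) t = F (q.lo + t) q) {v : ℕ} (hv : v < vR s) :
    dg (List.rec (motive := fun _ => ℕ) 0 (fun q _ ih => cat q.len (f q) ih) l) v
      = F (psR s v) (nth ⟨0, 0, 0, 0, 0⟩ l (ixR s v)) := by
  induction l generalizing v s with
  | nil =>
    cases s with
    | nil => exact absurd hv (Nat.not_lt_zero v)
    | cons a s =>
      have : plOK [] (a :: s) = false := rfl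
      rw [this] at hm
      exact absurd hm (by simp)
  | cons q l ih =>
    cases s with
    | nil =>
      have : plOK (q :: l) [] = false := rfl
      rw [this] at hm
      exact absurd hm (by simp)
    | cons a s =>
      rw [plOK_cons] at hm
      simp only [Bool.and_eq_true] at hm
      obtain ⟨⟨m1, m2⟩, m3⟩ := hm
      have e1 : q.lo = a.lo := Nat.eq_of_beq_eq_true m1
      have e2 : q.len = a.len := Nat.eq_of_beq_eq_true m2
      rw [vR_cons] at hv
      show dg (cat q.len (f q) (List.rec (motive := fun _ => ℕ) 0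
        (fun q _ ih => cat q.len (f q) ih) l)) v = _
      rw [dg_cat, psR_cons, ixR_cons, ← e2, ← e1]
      by_cases hc : v < q.len
      · rw [if_pos hc, if_pos hc, if_pos hc, h q List.mem_cons_self v hc]
        rfl
      · rw [if_neg hc, if_neg hc, if_neg hc,
          ih s m3 (fun q hq => h q (List.mem_cons_of_mem _ hq)) (by omega)]
        rfl

end MP61673a.KC
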