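import Pool.Agent.Mu673.KCrows

/-!
NODE INEQUALITY from the row data (`KCrow`): classes = segments (`ℕ`), nodes `(c, i)` with
`i = position - S`, table `TR`, squares `sqT`; the hypothesis `hnode` of `point_of_part` (FE2).
-/

set_option autoImplicit false

namespace MP61673a.KC

open Finset MP61673a.Sos

noncomputable section

/-- first node of the class -/
def loR (l : List SegR) (S : ℤ) (c : ℕ) : ℤ := ((nth segD l c).lo : ℤ) - S

/-- last node of the class -/
def hiR (l : List SegR) (S : ℤ) (c : ℕ) : ℤ := ((nth segD l c).lo : ℤ) + (nth segD l c).len - 1 - S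

/-- number of nodes before the class -/
def offR : List SegR → ℕ → ℕ
  | [], _ => 0
  | _ :: _, 0 => 0
  | s :: l, c + 1 => s.len + offR l c

/-- node number -/
def vT (l : List SegR) (S : ℤ) (s : ℕ × ℤ) : ℕ := offR l s.1 + (s.2 - loR l S s.1).toNat

/-- value of the table `k` of the sampler node `z` at the label `y` (left coordinate):
digit `y + P + S` -/
def tvE (d : DatR) (S : ℤ) (z : ℕ × ℤ) (k : ℕ) (y : ℤ) : ℝ :=
  dg (arrR d (vT d.segs S z) k) (y + d.P + S).toNat

/-- value of the table `k` of the sampler node `z` at the sum `m`: digit `m + 2 S` -/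
def tvM (d : DatR) (S : ℤ) (z : ℕ × ℤ) (k : ℕ) (m : ℤ) : ℝ :=
  dg (arrR d (vT d.segs S z) k) (m + 2 * S).toNat

/-- the node table: `z` sampler, `a` single, `b` doubled -/
def TR (d : DatR) (S : ℤ) (U : ℝ) (z a b : ℕ × ℤ) : ℝ :=
  (tvE d S z (plE d.segs a.1 b.1).k1 (2 * b.2 - a.2)
    + tvM d S z (plE d.segs a.1 b.1).km (a.2 + b.2) / 2
    + ((dg d.ap (vT d.segs S z) : ℝ) - dg d.an (vT d.segs S z)) / 2
    + (d.fn.map fun f => ((dg f.lp (vT d.segs S z) : ℝ) - dg f.ln (vT d.segs S z))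
        * (dg (nth16 0 f.mat (vT d.segs S a)) (vT d.segs S b) : ℝ)).sum / 2) / U

/-- the squares -/
def sqT (d : DatR) (S : ℤ) (U : ℝ) (q : Fin 64) (z a : ℕ × ℤ) : ℝ :=
  if (q : ℕ) < (sqR d (vT d.segs S z)).length then
    ((dg (nth 0 (sqR d (vT d.segs S z)) q) (vT d.segs S a) : ℝ) - 16384) / Real.sqrt U else 0

end

lemma vT_spec (l : List SegR) (S : ℤ) (c : ℕ) (i : ℤ) (h1 : loR l S c ≤ i) (h2 : i ≤ hiR l S c) :
    vT l S (c, i) < vR l ∧ (psR l (vT l S (c, i)) : ℤ) = i + S ∧ ixR l (vT l S (c, i)) = c := by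
  induction l generalizing c with
  | nil =>
    exfalso
    have e1 : loR [] S c = ((0:ℕ) : ℤ) - S := rfl
    have e2 : hiR [] S c = ((0:ℕ) : ℤ) + ((0:ℕ) : ℤ) - 1 - S := rfl
    rw [e1] at h1
    rw [e2] at h2
    push_cast at h1 h2
    omega
  | cons s l ih =>
    cases c with
    | zero =>
      have e1 : loR (s :: l) S 0 = s.lo - S := rfl
      have e2 : hiR (s :: l) S 0 = (s.lo : ℤ) + s.len - 1 - S := rfl
      have e3 : vT (s :: l) S (0, i) = 0 + (i - ((s.lo : ℤ) - S)).toNat := rfl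
      rw [e1] at h1
      rw [e2] at h2
      have hlt : vT (s :: l) S (0, i) < s.len := by
        rw [e3]
        omega
      rw [psR_cons, ixR_cons, if_pos hlt, if_pos hlt, vR_cons]
      refine ⟨by omega, ?_, rfl⟩
      push_cast
      omega
    | succ c =>
      have k := ih c h1 h2
      obtain ⟨k1, k2, k3⟩ := k
      have e3 : vT (s :: l) S (c + 1, i) = s.len + vT l S (c, i) := by
        change s.len + offR l c + (i - loR l S c).toNat
          = s.len + (offR l c + (i - loR l S c).toNat)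
        ring
      rw [e3, psR_cons, ixR_cons, if_neg (by omega), if_neg (by omega), vR_cons,
        Nat.add_sub_cancel_left]
      exact ⟨by omega, k2, by rw [k3]⟩

lemma sum_fin_nth {α : Type} (d0 : α) (l : List α) (F : α → ℝ) {n : ℕ} (h : l.length ≤ n) :
    ∑ q : Fin n, (if (q : ℕ) < l.length then F (nth d0 l q) else 0) = (l.map F).sum := by
  induction l generalizing n with
  | nil => simp
  | cons a l ih =>
    obtain ⟨m, rfl⟩ : ∃ m, n = m + 1 := ⟨n - 1, by
      have : l.length + 1 ≤ n := h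
      omega⟩
    have hl : l.length ≤ m := by
      have : l.length + 1 ≤ m + 1 := h
      omega
    have e1 : (if ((0 : Fin (m + 1)) : ℕ) < (a :: l).length then
        F (nth d0 (a :: l) ((0 : Fin (m + 1)) : ℕ)) else 0) = F a := by
      rw [if_pos (by simp)]
      rfl
    have e2 : ∀ q : Fin m, (if ((q.succ : Fin (m + 1)) : ℕ) < (a :: l).length then
        F (nth d0 (a :: l) ((q.succ : Fin (m + 1)) : ℕ)) else 0)
        = if (q : ℕ) < l.length then F (nth d0 l q) else 0 := by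
      intro q
      have e3 : ((q.succ : Fin (m + 1)) : ℕ) = (q : ℕ) + 1 := rfl
      have e4 : nth d0 (a :: l) ((q : ℕ) + 1) = nth d0 l q := rfl
      have e5 : (a :: l).length = l.length + 1 := rfl
      rw [e3, e4, e5]
      by_cases c : (q : ℕ) < l.length
      · rw [if_pos c, if_pos (by omega)]
      · rw [if_neg c, if_neg (by omega)]
    rw [Fin.sum_univ_succ, e1, List.map_cons, List.sum_cons, ← ih hl,
      sum_congr rfl fun q _ => e2 q]

/-- one pair with its two orders and the squares -/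
lemma pair_eq (d : DatR) (hb : BndR d) (hc : CnsR d) (hs : symR d = true) (S : ℤ) {U : ℝ}
    (hU : 0 < U) {z a b : ℕ × ℤ} (hz : loR d.segs S z.1 ≤ z.2 ∧ z.2 ≤ hiR d.segs S z.1)
    (ha : loR d.segs S a.1 ≤ a.2 ∧ a.2 ≤ hiR d.segs S a.1)
    (hb' : loR d.segs S b.1 ≤ b.2 ∧ b.2 ≤ hiR d.segs S b.1) :
    TR d S U z a b + TR d S U z b a
      + 2 * ∑ q : Fin 64, sqT d S U q z a * sqT d S U q z b
      = (WR d (vT d.segs S z) (vT d.segs S a) (vT d.segs S b) : ℝ) / U := by
  obtain ⟨z1, z2, z3⟩ := vT_spec d.segs S z.1 z.2 hz.1 hz.2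
  obtain ⟨a1, a2, a3⟩ := vT_spec d.segs S a.1 a.2 ha.1 ha.2
  obtain ⟨b1, b2, b3⟩ := vT_spec d.segs S b.1 b.2 hb'.1 hb'.2
  set vz := vT d.segs S z with hvz
  set va := vT d.segs S a with hva
  set vb := vT d.segs S b with hvb
  have a1' : va < vR d.segs := a1
  have b1' : vb < vR d.segs := b1
  have a3' : ixR d.segs va = a.1 := a3
  have b3' : ixR d.segs vb = b.1 := b3
  have a2' : (psR d.segs va : ℤ) = a.2 + S := a2
  have b2' : (psR d.segs vb : ℤ) = b.2 + S := b2
  have na := (sgR_eq d.segs a1').2.1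
  have nb := (sgR_eq d.segs b1').2.1
  rw [a3'] at na
  rw [b3'] at nb
  -- positions are at most P
  have pa : psR d.segs va ≤ d.P := by
    obtain ⟨_, _, h3, _, h5⟩ := sgR_eq d.segs a1'
    have := hc.hi _ h3
    omega
  have pb : psR d.segs vb ≤ d.P := by
    obtain ⟨_, _, h3, _, h5⟩ := sgR_eq d.segs b1'
    have := hc.hi _ h3
    omega
  -- the squares
  have hU' : Real.sqrt U * Real.sqrt U = U := Real.mul_self_sqrt hU.le
  have hU0 : Real.sqrt U ≠ 0 := (Real.sqrt_pos.2 hU).ne'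
  have esq : ∑ q : Fin 64, sqT d S U q z a * sqT d S U q z b
      = (SSg (sqR d) vz va vb : ℝ) / U := by
    have hlen := (bndg_sound hb.sq z1).1
    have h1 := sum_fin_nth 0 (sqR d vz) (fun p => ((dg p va : ℝ) - 16384)
      * ((dg p vb : ℝ) - 16384) / U) hlen
    have h2 : (SSg (sqR d) vz va vb : ℝ) / U
        = ((sqR d vz).map fun p => ((dg p va : ℝ) - 16384) * ((dg p vb : ℝ) - 16384) / U).sum := by
      unfold SSg
      have : ∀ l : List ℕ, (((l.map fun p => ((dg p va : ℤ) - 16384)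
          * ((dg p vb : ℤ) - 16384)).sum : ℤ) : ℝ) / U
          = (l.map fun p => ((dg p va : ℝ) - 16384) * ((dg p vb : ℝ) - 16384) / U).sum := by
        intro l
        induction l with
        | nil => simp
        | cons p l ih =>
          simp only [List.map_cons, List.sum_cons]
          rw [← ih]
          push_cast
          ring
      exact this _
    rw [h2, ← h1]
    refine sum_congr rfl fun q _ => ?_
    unfold sqT
    rw [← hvz, ← hva, ← hvb]
    split_ifs
    · rw [div_mul_div_comm, hU']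
    · ring
  rw [esq]
  -- the labels
  have l1 : (2 * b.2 - a.2 + d.P + S).toNat = 2 * psR d.segs vb + d.P - psR d.segs va := by omega
  have l2 : (2 * a.2 - b.2 + d.P + S).toNat = 2 * psR d.segs va + d.P - psR d.segs vb := by omega
  have l3 : (a.2 + b.2 + 2 * S).toNat = psR d.segs va + psR d.segs vb := by omega
  have l4 : (b.2 + a.2 + 2 * S).toNat = psR d.segs va + psR d.segs vb := by omega
  have efn : (d.fn.map fun f => ((dg f.lp vz : ℝ) - dg f.ln vz)
        * (dg (nth16 0 f.mat vb) va : ℝ)).sum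
      = (d.fn.map fun f => ((dg f.lp vz : ℝ) - dg f.ln vz)
        * (dg (nth16 0 f.mat va) vb : ℝ)).sum := by
    congr 1
    exact List.map_congr_left fun f hf => by rw [symR_sound d hs hf b1' a1']
  have efz : (((d.fn.map fun f => (((dg f.lp vz : ℕ) : ℤ) - (dg f.ln vz : ℕ))
        * (dg (nth16 0 f.mat va) vb : ℤ)).sum : ℤ) : ℝ)
      = (d.fn.map fun f => ((dg f.lp vz : ℝ) - dg f.ln vz)
        * (dg (nth16 0 f.mat va) vb : ℝ)).sum := by
    induction d.fn with
    | nil => simp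
    | cons f l ih =>
      simp only [List.map_cons, List.sum_cons]
      rw [← ih]
      push_cast
      ring
  have eW : (WR d vz va vb : ℝ) = 2 * (SSg (sqR d) vz va vb : ℝ) + (KR d vz va vb : ℝ)
      + ((dg d.ap vz : ℝ) - dg d.an vz)
      + (d.fn.map fun f => ((dg f.lp vz : ℝ) - dg f.ln vz)
        * (dg (nth16 0 f.mat va) vb : ℝ)).sum := by
    unfold WR
    rw [Int.cast_add, efz]
    push_cast
    ring
  have eK : (KR d vz va vb : ℝ)
      = dg (arrR d vz (plE d.segs a.1 b.1).k1) (2 * psR d.segs vb + d.P - psR d.segs va)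
        + dg (arrR d vz (plE d.segs b.1 a.1).k1) (2 * psR d.segs va + d.P - psR d.segs vb)
        + dg (arrR d vz (plE d.segs a.1 b.1).km) (psR d.segs va + psR d.segs vb) := by
    unfold KR
    rw [a3', b3', ← hc.k12 _ nb _ na]
    push_cast
    ring
  unfold TR tvE tvM
  rw [← hvz, ← hva, ← hvb, l1, l2, l3, l4, ← hc.km _ na _ nb, efn, eW, eK]
  ring

/-- THE NODE INEQUALITY -/
theorem row_node (d : DatR) (hb : BndR d) (hc : CnsR d) (hs : symR d = true)
    (hall : ∀ a < vR d.segs, ∀ b ≤ a, ∀ c < vR d.segs,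
      WR d a b c + WR d b a c + WR d c a b ≤ d.Bd) (S : ℤ) {U : ℝ} (hU : 0 < U)
    (z a b : ℕ × ℤ) (hz : z.2 ∈ Bary.nd (loR d.segs S) (hiR d.segs S) z.1)
    (ha : a.2 ∈ Bary.nd (loR d.segs S) (hiR d.segs S) a.1)
    (hb' : b.2 ∈ Bary.nd (loR d.segs S) (hiR d.segs S) b.1) :
    sym6 (TR d S U) z a b + 2 * sq3 univ (sqT d S U) z a b ≤ (d.Bd : ℝ) / U := by
  have hz' := mem_Icc.1 hz
  have ha' := mem_Icc.1 ha
  have hb'' := mem_Icc.1 hb'
  have e1 := pair_eq d hb hc hs S hU hz' ha' hb''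
  have e2 := pair_eq d hb hc hs S hU ha' hz' hb''
  have e3 := pair_eq d hb hc hs S hU hb'' hz' ha'
  have h := row_all d hc hs hall (vT_spec d.segs S z.1 z.2 hz'.1 hz'.2).1
    (vT_spec d.segs S a.1 a.2 ha'.1 ha'.2).1 (vT_spec d.segs S b.1 b.2 hb''.1 hb''.2).1
  have h' : (WR d (vT d.segs S z) (vT d.segs S a) (vT d.segs S b) : ℝ)
      + WR d (vT d.segs S a) (vT d.segs S z) (vT d.segs S b)
      + WR d (vT d.segs S b) (vT d.segs S z) (vT d.segs S a) ≤ d.Bd := by exact_mod_cast h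
  have h2 := div_le_div_of_nonneg_right h' hU.le
  rw [add_div, add_div, ← e1, ← e2, ← e3] at h2
  unfold sym6 sq3
  rw [sum_add_distrib, sum_add_distrib]
  linarith

/-! ### Ranges -/

/-- the inequalities of the triples with `lo ≤ a < hi` -/
def RowOK (d : DatR) (lo hi : ℕ) : Prop :=
  ∀ a, lo ≤ a → a < hi → ∀ b ≤ a, ∀ c < vR d.segs,
    WR d a b c + WR d b a c + WR d c a b ≤ d.Bd

/-- all size and consistency conditions, `V ≤ 2^k` -/
def okR (k : ℕ) (d : DatR) : Bool :=
  bndR d && cnsR d && symR d && Nat.ble (vR d.segs) (Nat.pow 2 k)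
    && Nat.ble (Nat.succ (Nat.add d.Bd 412316860416)) (Nat.pow 2 39)

lemma okR_imp {k : ℕ} {d : DatR} (h : okR k d = true) : bndR d = true ∧ cnsR d = true
    ∧ symR d = true ∧ vR d.segs ≤ 2 ^ k ∧ d.Bd + 412316860416 < 2 ^ 39 := by
  unfold okR at h
  simp only [Bool.and_eq_true] at h
  obtain ⟨⟨⟨⟨h1, h2⟩, h3⟩, h4⟩, h5⟩ := h
  exact ⟨h1, h2, h3, Nat.le_of_ble_eq_true h4, Nat.lt_of_succ_le (Nat.le_of_ble_eq_true h5)⟩

theorem RowOK.of_check {k : ℕ} {d : DatR} (h : okR k d = true) {lo hi : ℕ}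
    (hc : rowCheck k d lo hi = true) (hhi : hi ≤ vR d.segs) : RowOK d lo hi := by
  obtain ⟨h1, h2, _, h4, h5⟩ := okR_imp h
  intro a ha ha' b hb c hcV
  exact row_sound d h1 h2 h4 h5 hc hhi ha ha' hb hcV

theorem RowOK.join {d : DatR} {lo mid hi : ℕ} (h1 : RowOK d lo mid) (h2 : RowOK d mid hi) :
    RowOK d lo hi := by
  intro a ha ha' b hb c hcV
  by_cases h : a < mid
  · exact h1 a ha h b hb c hcV
  · exact h2 a (by omega) ha' b hb c hcV

/-- THE NODE INEQUALITY from the checks -/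
theorem row_node' {k : ℕ} (d : DatR) (h : okR k d = true) (hr : RowOK d 0 (vR d.segs)) (S : ℤ)
    {U : ℝ} (hU : 0 < U) (z a b : ℕ × ℤ)
    (hz : z.2 ∈ Bary.nd (loR d.segs S) (hiR d.segs S) z.1)
    (ha : a.2 ∈ Bary.nd (loR d.segs S) (hiR d.segs S) a.1)
    (hb' : b.2 ∈ Bary.nd (loR d.segs S) (hiR d.segs S) b.1) :
    sym6 (TR d S U) z a b + 2 * sq3 univ (sqT d S U) z a b ≤ (d.Bd : ℝ) / U := by
  obtain ⟨h1, h2, h3, _, _⟩ := okR_imp h
  exact row_node d (bndR_imp h1) (cnsR_imp h2) h3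
    (fun a ha b hb c hc => hr a (Nat.zero_le _) ha b hb c hc) S hU z a b hz ha hb'

end MP61673a.KC
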