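import Pool.Agent.Mu673.KCrow
import Pool.Agent.Mu673.BaryX

/-!
SOUNDNESS of the row data layer `KCrow`: the kernel check gives the node inequality
`sym6 T + 2 sq3 sg ≤ B` for the table `TR`.
-/

set_option autoImplicit false

namespace MP61673a.KC

open Finset

/-! ### Digits of sums -/

lemma dg_addb {A B : ℕ} {α β : ℕ} (hA : ∀ c, dg A c ≤ α) (hB : ∀ c, dg B c ≤ β)
    (h : α + β < 2 ^ 40) (c : ℕ) : dg (A + B) c = dg A c + dg B c :=
  dg_add2 (n := c + 1) (fun k _ => by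
    have := hA k
    have := hB k
    omega) (Nat.lt_succ_self c)

lemma dg_sumL {α : Type} (f : α → ℕ) (l : List α) (h : ∀ g ∈ l, ∀ c, dg (f g) c < 2 ^ 30)
    (hl : l.length ≤ 512) (c : ℕ) :
    dg (sumL f l) c = (l.map fun g => dg (f g) c).sum ∧ dg (sumL f l) c ≤ l.length * 2 ^ 30 := by
  induction l generalizing c with
  | nil =>
    have e : sumL f [] = 0 := rfl
    rw [e, dg_zero]
    simp
  | cons a l ih =>
    have e : sumL f (a :: l) = f a + sumL f l := rfl
    have hl' : l.length + 1 ≤ 512 := hl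
    have ih' := ih (fun g hg => h g (List.mem_cons_of_mem _ hg)) (by omega)
    rw [e, dg_addb (α := 2 ^ 30) (β := l.length * 2 ^ 30)
      (fun c => (h a List.mem_cons_self c).le) (fun c => (ih' c).2) (by
        have : l.length * 2 ^ 30 ≤ 511 * 2 ^ 30 := Nat.mul_le_mul_right _ (by omega)
        omega) c]
    simp only [List.map_cons, List.sum_cons, List.length_cons]
    have h1 := (h a List.mem_cons_self c).le
    have h2 := ih' c
    constructor
    · rw [h2.1]
    · have : (l.length + 1) * 2 ^ 30 = l.length * 2 ^ 30 + 2 ^ 30 := by ring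
      omega

/-- sum of three vectors with small digits -/
lemma dg_add3n {n A B C : ℕ} (hA : ∀ c < n, dg A c ≤ 2 ^ 32) (hB : ∀ c < n, dg B c ≤ 2 ^ 32)
    (hC : ∀ c < n, dg C c ≤ 2 ^ 32) {c : ℕ} (hc : c < n) :
    dg (Nat.add (Nat.add A B) C) c = dg A c + dg B c + dg C c := by
  have h1 : ∀ c < n, dg (A + B) c = dg A c + dg B c := fun c hc => dg_add2 (n := n) (fun c hc => by
    have := hA c hc
    have := hB c hc
    omega) hc
  have h2 := dg_add2 (A := A + B) (B := C) (n := n) (fun c hc => by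
    rw [h1 c hc]
    have := hA c hc
    have := hB c hc
    have := hC c hc
    omega) hc
  show dg (A + B + C) c = _
  rw [h2, h1 c hc]

/-! ### Size conditions -/

/-- the size conditions as a proposition -/
structure BndR (d : DatR) : Prop where
  sq : bndg (vR d.segs) (sqR d) = true
  W : ∀ z < vR d.segs, ∀ w ∈ nth16 [] d.W z, ∀ c, dg w c < 2 ^ 30
  G : ∀ g ∈ d.G, ∀ c, dg g c < 2 ^ 30
  cb : ∀ s ∈ d.segs, ∀ c ∈ s.cb, c.g.length ≤ 3
  fn : ∀ f ∈ d.fn, bndFR (vR d.segs) f = true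
  fl : d.fn.length ≤ 11
  ap : ∀ c, dg d.ap c < 2 ^ 32
  an : ∀ c, dg d.an c < 2 ^ 32

lemma sumL_one {α : Type} (l : List α) : sumL (fun _ => 1) l = l.length := by
  rw [sumL_eq]
  simp

lemma bndR_imp {d : DatR} (h : bndR d = true) : BndR d := by
  unfold bndR at h
  simp only [Bool.and_eq_true] at h
  obtain ⟨⟨⟨⟨⟨⟨⟨h1, h2⟩, h3⟩, h4⟩, h5⟩, h6⟩, h7⟩, h8⟩ := h
  refine ⟨h1, fun z hz w hw => ?_, fun g hg => ?_, fun s hs c hc => ?_, (allL_iff _ _).1 h5, ?_,
    mask_dg (by norm_num) h7, mask_dg (by norm_num) h8⟩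
  · exact mask_dg (by norm_num) ((allL_iff _ _).1 ((allN_iff _ _).1 h2 z hz) w hw)
  · exact mask_dg (by norm_num) ((allL_iff _ _).1 h3 g hg)
  · have := Nat.le_of_ble_eq_true ((allL_iff _ _).1 ((allL_iff _ _).1 h4 s hs) c hc)
    rwa [sumL_one] at this
  · have := Nat.le_of_ble_eq_true h6
    rwa [sumL_one] at this

lemma arr_le {d : DatR} (h : BndR d) {z : ℕ} (hz : z < vR d.segs) (k c : ℕ) :
    dg (arrR d z k) c ≤ 2 ^ 32 := by
  unfold arrR tabR
  set cb := nth ⟨0, []⟩ (sgR d.segs z).cb k with hcb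
  have hlen : cb.g.length ≤ 3 := by
    rcases nth_mem (⟨0, []⟩ : Cb) (sgR d.segs z).cb k with h1 | h1
    · exact h.cb _ (sgR_eq d.segs hz).2.2.1 _ h1
    · rw [hcb, h1]
      simp
  have hw : ∀ c, dg (nth 0 (nth16 [] d.W z) cb.w) c ≤ 2 ^ 30 := by
    intro c
    rcases nth_mem 0 (nth16 [] d.W z) cb.w with h1 | h1
    · exact (h.W z hz _ h1 c).le
    · rw [h1, dg_zero]
      positivity
  have hg := dg_sumL (fun g => shf (nth 0 d.G g.ix) (g3s d.P (psR d.segs z) g)) cb.g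
    (fun g _ c => by
      rw [dg_shf]
      rcases nth_mem 0 d.G g.ix with h1 | h1
      · exact h.G _ h1 _
      · rw [h1, dg_zero]
        positivity) (by omega)
  have hg' : ∀ c, dg (sumL (fun g => shf (nth 0 d.G g.ix) (g3s d.P (psR d.segs z) g)) cb.g) c
      ≤ 3 * 2 ^ 30 := fun c => (hg c).2.trans (Nat.mul_le_mul_right _ hlen)
  show dg (nth 0 (nth16 [] d.W z) cb.w
    + sumL (fun g => shf (nth 0 d.G g.ix) (g3s d.P (psR d.segs z) g)) cb.g) c ≤ 2 ^ 32
  rw [dg_addb hw hg' (by norm_num) c]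
  have h1 := hw c
  have h2 := hg' c
  norm_num at *
  omega

/-! ### Consistency of the plans -/

/-- consistency as a proposition -/
structure CnsR (d : DatR) : Prop where
  pl : ∀ s ∈ d.segs, plOK s.pl d.segs = true
  hi : ∀ s ∈ d.segs, s.lo + s.len ≤ d.P + 1
  k12 : ∀ i < nC d.segs, ∀ j < nC d.segs, (plE d.segs i j).k1 = (plE d.segs j i).k2
  km : ∀ i < nC d.segs, ∀ j < nC d.segs, (plE d.segs i j).km = (plE d.segs j i).km
  P : 3 * d.P + 1 ≤ 2 ^ d.K
  K : 1 ≤ d.K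

lemma cnsR_imp {d : DatR} (h : cnsR d = true) : CnsR d := by
  unfold cnsR at h
  simp only [Bool.and_eq_true] at h
  obtain ⟨⟨⟨h1, h2⟩, h3⟩, h4⟩ := h
  have a := (allL_iff _ _).1 h1
  refine ⟨fun s hs => ?_, fun s hs => ?_, fun i hi j hj => ?_, fun i hi j hj => ?_,
    Nat.le_of_ble_eq_true h3, Nat.le_of_ble_eq_true h4⟩
  · have := a s hs
    rw [Bool.and_eq_true] at this
    exact this.1
  · have := a s hs
    rw [Bool.and_eq_true] at this
    exact Nat.le_of_ble_eq_true this.2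
  · have := (allN_iff _ _).1 ((allN_iff _ _).1 h2 i hi) j hj
    rw [Bool.and_eq_true] at this
    exact Nat.eq_of_beq_eq_true this.1
  · have := (allN_iff _ _).1 ((allN_iff _ _).1 h2 i hi) j hj
    rw [Bool.and_eq_true] at this
    exact Nat.eq_of_beq_eq_true this.2

lemma plOK_mem {l : List Pl} {s : List SegR} (h : plOK l s = true) {q : Pl} (hq : q ∈ l) :
    ∃ a ∈ s, q.lo = a.lo ∧ q.len = a.len := by
  induction l generalizing s with
  | nil => exact absurd hq (by simp)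
  | cons p l ih =>
    cases s with
    | nil =>
      have : plOK (p :: l) [] = false := rfl
      rw [this] at h
      exact absurd h (by simp)
    | cons a s =>
      rw [plOK_cons] at h
      simp only [Bool.and_eq_true] at h
      rcases List.mem_cons.1 hq with rfl | hq
      · exact ⟨a, List.mem_cons_self, Nat.eq_of_beq_eq_true h.1.1, Nat.eq_of_beq_eq_true h.1.2⟩
      · obtain ⟨b, hb, h1⟩ := ih h.2 hq
        exact ⟨b, List.mem_cons_of_mem _ hb, h1⟩

/-! ### The label part of a row -/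

lemma dg_aE {d : DatR} (hc : CnsR d) {z k p q : ℕ} (hp : p ≤ d.P) (hq : q ≤ d.P) :
    dg (aE d z k ((d.P - p) % 2)) (q + (d.P - p) / 2) = dg (arrR d z k) (2 * q + d.P - p) := by
  have e2 : 2 ^ d.K = 2 ^ (d.K - 1) * 2 := by
    rw [← pow_succ]
    congr 1
    have := hc.K
    omega
  have hP := hc.P
  have hlt : q + (d.P - p) / 2 < 2 ^ (d.K - 1) := by omega
  rcases Nat.mod_two_eq_zero_or_one (d.P - p) with h | h
  · rw [h]
    have e : aE d z k 0 = evl d.K (arrR d z k) := rfl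
    rw [e, dg_evl hc.K hlt]
    congr 1
    omega
  · rw [h]
    have e : aE d z k 1 = odl d.K (arrR d z k) := rfl
    rw [e, dg_odl hc.K hlt]
    congr 1
    omega

lemma dg_aV {d : DatR} (hc : CnsR d) {z k p q : ℕ} (hp : p ≤ d.P) (hq : q ≤ d.P) :
    dg (aV d z k) (q + (2 ^ d.K - 1 - d.P - 2 * p)) = dg (arrR d z k) (2 * p + d.P - q) := by
  have hP := hc.P
  unfold aV
  rw [dg_rvl (by omega)]
  congr 1
  omega

lemma plrow_dg {d : DatR} (hb : BndR d) (hc : CnsR d) {z b c : ℕ} (hz : z < vR d.segs)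
    (hbV : b < vR d.segs) (hcV : c < vR d.segs) :
    (dg (plrow d z (psR d.segs b) (sgR d.segs b).pl) c : ℤ) = KR d z b c := by
  obtain ⟨b1, b2, b3, b4, b5⟩ := sgR_eq d.segs hbV
  set p := psR d.segs b with hp
  have hpP : p ≤ d.P := by
    have := hc.hi _ b3
    omega
  have key := dg_plan (fun q => Nat.add (Nat.add
        (shf (frc q.k1 (fun k => frc (Nat.mod (Nat.sub d.P p) 2) (fun e => aE d z k e)))
          (Nat.add (Nat.div (Nat.sub d.P p) 2) q.lo))
        (shf (frc q.k2 (fun k => aV d z k))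
          (Nat.add (Nat.sub (Nat.sub (Nat.sub (Nat.pow 2 d.K) 1) d.P) (Nat.mul 2 p)) q.lo)))
        (shf (frc q.km (fun k => arrR d z k)) (Nat.add p q.lo)))
    (fun x q => dg (arrR d z q.k1) (2 * x + d.P - p) + dg (arrR d z q.k2) (2 * p + d.P - x)
      + dg (arrR d z q.km) (p + x)) (sgR d.segs b).pl d.segs (hc.pl _ b3) (fun q hq t ht => by
      obtain ⟨a, ha, l1, l2⟩ := plOK_mem (hc.pl _ b3) hq
      have ht' : q.lo + t ≤ d.P := by
        have := hc.hi a ha
        omega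
      have hsm : ∀ c < q.len, q.lo + c ≤ d.P := by
        intro c hc'
        have := hc.hi a ha
        omega
      have eE : ∀ c < q.len, dg (shf (frc q.k1 (fun k => frc (Nat.mod (Nat.sub d.P p) 2)
          (fun e => aE d z k e))) (Nat.add (Nat.div (Nat.sub d.P p) 2) q.lo)) c
          = dg (arrR d z q.k1) (2 * (q.lo + c) + d.P - p) := by
        intro c hc'
        rw [frc_eq, frc_eq, dg_shf, ← dg_aE hc hpP (hsm c hc')]
        congr 1
        show c + ((d.P - p) / 2 + q.lo) = q.lo + c + (d.P - p) / 2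
        omega
      have eV : ∀ c < q.len, dg (shf (frc q.k2 (fun k => aV d z k))
          (Nat.add (Nat.sub (Nat.sub (Nat.sub (Nat.pow 2 d.K) 1) d.P) (Nat.mul 2 p)) q.lo)) c
          = dg (arrR d z q.k2) (2 * p + d.P - (q.lo + c)) := by
        intro c hc'
        rw [frc_eq, dg_shf, ← dg_aV hc hpP (hsm c hc')]
        congr 1
        show c + (2 ^ d.K - 1 - d.P - 2 * p + q.lo) = q.lo + c + (2 ^ d.K - 1 - d.P - 2 * p)
        omega
      have eM : ∀ c < q.len, dg (shf (frc q.km (fun k => arrR d z k)) (Nat.add p q.lo)) c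
          = dg (arrR d z q.km) (p + (q.lo + c)) := by
        intro c hc'
        rw [frc_eq, dg_shf]
        congr 1
        show c + (p + q.lo) = p + (q.lo + c)
        omega
      rw [dg_add3n (n := q.len) (fun c hc' => by rw [eE c hc']; exact arr_le hb hz _ _)
        (fun c hc' => by rw [eV c hc']; exact arr_le hb hz _ _)
        (fun c hc' => by rw [eM c hc']; exact arr_le hb hz _ _) ht, eE t ht, eV t ht, eM t ht])
    hcV
  have key2 : dg (plrow d z p (sgR d.segs b).pl) c = _ := key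
  rw [key2]
  unfold KR
  have e : (sgR d.segs b).pl = (nth segD d.segs (ixR d.segs b)).pl := by rw [b1]
  unfold plE
  rw [← e, ← hp]
  push_cast
  ring

/-- the label part of a row -/
lemma plrow_rp {d : DatR} (hb : BndR d) (hc : CnsR d) {z b : ℕ} (hz : z < vR d.segs)
    (hbV : b < vR d.segs) :
    Rp (vR d.segs) (plrow d z (psR d.segs b) (sgR d.segs b).pl) (fun c => KR d z b c) :=
  (Rp.self _ _).congr fun c hcV => plrow_dg hb hc hz hbV hcV

lemma KR_bound {d : DatR} (hb : BndR d) {z : ℕ} (hz : z < vR d.segs) (b c : ℕ) :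
    0 ≤ KR d z b c ∧ KR d z b c ≤ 3 * 2 ^ 32 := by
  unfold KR
  have h1 := arr_le hb hz (plE d.segs (ixR d.segs b) (ixR d.segs c)).k1
    (2 * psR d.segs c + d.P - psR d.segs b)
  have h2 := arr_le hb hz (plE d.segs (ixR d.segs b) (ixR d.segs c)).k2
    (2 * psR d.segs b + d.P - psR d.segs c)
  have h3 := arr_le hb hz (plE d.segs (ixR d.segs b) (ixR d.segs c)).km
    (psR d.segs b + psR d.segs c)
  have h1' : ((dg (arrR d z (plE d.segs (ixR d.segs b) (ixR d.segs c)).k1)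
    (2 * psR d.segs c + d.P - psR d.segs b) : ℕ) : ℤ) ≤ 2 ^ 32 := by exact_mod_cast h1
  have h2' : ((dg (arrR d z (plE d.segs (ixR d.segs b) (ixR d.segs c)).k2)
    (2 * psR d.segs b + d.P - psR d.segs c) : ℕ) : ℤ) ≤ 2 ^ 32 := by exact_mod_cast h2
  have h3' : ((dg (arrR d z (plE d.segs (ixR d.segs b) (ixR d.segs c)).km)
    (psR d.segs b + psR d.segs c) : ℕ) : ℤ) ≤ 2 ^ 32 := by exact_mod_cast h3
  constructor
  · positivity
  · linarith

/-! ### The facts -/

lemma bndFR_sound {V : ℕ} {f : FnR} (h : bndFR V f = true) :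
    f.k ≤ 32 ∧ (∀ z, dg f.lp z < 2 ^ f.k) ∧ (∀ z, dg f.ln z < 2 ^ f.k)
      ∧ ∀ z < V, ∀ c, dg (nth16 0 f.mat z) c < 2 ^ (32 - f.k) := by
  unfold bndFR at h
  simp only [Bool.and_eq_true] at h
  obtain ⟨⟨⟨h1, h2⟩, h3⟩, h4⟩ := h
  have hk : f.k ≤ 32 := Nat.le_of_ble_eq_true h1
  refine ⟨hk, mask_dg (by omega) h2, mask_dg (by omega) h3, fun z hz => ?_⟩
  exact mask_dg (by show 32 - f.k ≤ 40; omega) ((allN_iff _ _).1 h4 z hz)

lemma fnR_sum {V : ℕ} {l : List FnR} (h : ∀ f ∈ l, bndFR V f = true) (hl : l.length ≤ 11)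
    {b : ℕ} (hb : b < V) (z c : ℕ) :
    (0 ≤ (l.map fun f => ((dg f.lp z : ℕ) : ℤ) * (dg (nth16 0 f.mat b) c : ℤ)).sum
      ∧ (l.map fun f => ((dg f.lp z : ℕ) : ℤ) * (dg (nth16 0 f.mat b) c : ℤ)).sum
        ≤ 11 * 2 ^ 32)
    ∧ (0 ≤ (l.map fun f => ((dg f.ln z : ℕ) : ℤ) * (dg (nth16 0 f.mat b) c : ℤ)).sum
      ∧ (l.map fun f => ((dg f.ln z : ℕ) : ℤ) * (dg (nth16 0 f.mat b) c : ℤ)).sum
        ≤ 11 * 2 ^ 32) := by
  have hlen : (l.length : ℤ) ≤ 11 := by exact_mod_cast hl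
  have hlen0 : (0:ℤ) ≤ l.length := by positivity
  have g : ∀ (w : FnR → ℕ), (∀ f ∈ l, w f ≤ 2 ^ f.k) →
      0 ≤ (l.map fun f => ((w f : ℕ) : ℤ) * (dg (nth16 0 f.mat b) c : ℤ)).sum
        ∧ (l.map fun f => ((w f : ℕ) : ℤ) * (dg (nth16 0 f.mat b) c : ℤ)).sum
          ≤ 11 * 2 ^ 32 := by
    intro w hw
    have hh := sum_bounds l (fun f => ((w f : ℕ) : ℤ) * (dg (nth16 0 f.mat b) c : ℤ)) (A := 0)
      (B := 2 ^ 32) (fun f hf => by
        obtain ⟨hk, h1, h2, h3⟩ := bndFR_sound (h f hf)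
        have h3 := h3 b hb c
        have h4 : w f * dg (nth16 0 f.mat b) c ≤ 2 ^ f.k * 2 ^ (32 - f.k) :=
          Nat.mul_le_mul (hw f hf) h3.le
        rw [← pow_add, Nat.add_sub_cancel' hk] at h4
        refine ⟨by positivity, by exact_mod_cast h4⟩)
    refine ⟨by simpa using hh.1, hh.2.trans ?_⟩
    nlinarith
  exact ⟨g _ fun f hf => ((bndFR_sound (h f hf)).2.1 z).le,
    g _ fun f hf => ((bndFR_sound (h f hf)).2.2.1 z).le⟩

/-! ### Soundness of the check -/

/-- the check gives the inequality of the triples -/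
theorem row_sound (d : DatR) (hb : bndR d = true) (hc : cnsR d = true) {k lo hi : ℕ}
    (hV : vR d.segs ≤ 2 ^ k) (hbd : d.Bd + 412316860416 < 2 ^ 39)
    (h : rowCheck k d lo hi = true) (hhi : hi ≤ vR d.segs) {a b c : ℕ} (ha : lo ≤ a)
    (ha' : a < hi) (hba : b ≤ a) (hcV : c < vR d.segs) :
    WR d a b c + WR d b a c + WR d c a b ≤ d.Bd := by
  have hB := bndR_imp hb
  have hC := cnsR_imp hc
  have tX : ∀ z < vR d.segs, ∀ b < vR d.segs, Rp (vR d.segs) (posR d z b) (fun c =>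
      KR d z b c + ((dg d.ap z : ℕ) : ℤ) * 1
        + (d.fn.map fun f => ((dg f.lp z : ℕ) : ℤ) * (dg (nth16 0 f.mat b) c : ℤ)).sum) :=
    fun z hz b hb' => ((plrow_rp hB hC hz hb').add ((Rp.rep _).mul (dg d.ap z))).add
      (Rp.sumL (fun f : FnR => Nat.mul (dg f.lp z) (nth16 0 f.mat b)) _ d.fn
        fun f _ => (Rp.self _ (nth16 0 f.mat b)).mul (dg f.lp z))
  have tY : ∀ z < vR d.segs, ∀ b < vR d.segs, Rp (vR d.segs) (negR d z b) (fun c =>
      ((dg d.an z : ℕ) : ℤ) * 1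
        + (d.fn.map fun f => ((dg f.ln z : ℕ) : ℤ) * (dg (nth16 0 f.mat b) c : ℤ)).sum) :=
    fun z _ b _ => ((Rp.rep _).mul (dg d.an z)).add
      (Rp.sumL (fun f : FnR => Nat.mul (dg f.ln z) (nth16 0 f.mat b)) _ d.fn
        fun f _ => (Rp.self _ (nth16 0 f.mat b)).mul (dg f.ln z))
  have bX : ∀ z < vR d.segs, ∀ b < vR d.segs, ∀ c < vR d.segs,
      0 ≤ KR d z b c + ((dg d.ap z : ℕ) : ℤ) * 1
        + (d.fn.map fun f => ((dg f.lp z : ℕ) : ℤ) * (dg (nth16 0 f.mat b) c : ℤ)).sum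
      ∧ KR d z b c + ((dg d.ap z : ℕ) : ℤ) * 1
        + (d.fn.map fun f => ((dg f.lp z : ℕ) : ℤ) * (dg (nth16 0 f.mat b) c : ℤ)).sum
          ≤ 2 ^ 36 := by
    intro z hz b hb' c _
    have f1 := (fnR_sum hB.fn hB.fl hb' z c).1
    have k1 := KR_bound hB hz b c
    have a1 : ((dg d.ap z : ℕ) : ℤ) < 2 ^ 32 := by exact_mod_cast hB.ap z
    have a2 : (0:ℤ) ≤ (dg d.ap z : ℕ) := by positivity
    norm_num at *
    constructor <;> linarith [f1.1, f1.2, k1.1, k1.2]
  have bY : ∀ z < vR d.segs, ∀ b < vR d.segs, ∀ c < vR d.segs,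
      0 ≤ ((dg d.an z : ℕ) : ℤ) * 1
        + (d.fn.map fun f => ((dg f.ln z : ℕ) : ℤ) * (dg (nth16 0 f.mat b) c : ℤ)).sum
      ∧ ((dg d.an z : ℕ) : ℤ) * 1
        + (d.fn.map fun f => ((dg f.ln z : ℕ) : ℤ) * (dg (nth16 0 f.mat b) c : ℤ)).sum
          ≤ 2 ^ 36 := by
    intro z hz b hb' c _
    have f1 := (fnR_sum hB.fn hB.fl hb' z c).2
    have a1 : ((dg d.an z : ℕ) : ℤ) < 2 ^ 32 := by exact_mod_cast hB.an z
    have a2 : (0:ℤ) ≤ (dg d.an z : ℕ) := by positivity
    norm_num at *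
    constructor <;> linarith [f1.1, f1.2]
  have hg := gen_of_big (k := k) (V := vR d.segs) (sq := sqR d) (pos := posR d) (neg := negR d)
    (bd := d.Bd) (lo := lo) (hi := hi) hV hbd hB.sq h hhi tX tY bX bY
  have key := gen_sound hB.sq hg hhi tX tY bX bY ha ha' hba hcV
  have e : ∀ z b c, WR d z b c = (KR d z b c + ((dg d.ap z : ℕ) : ℤ) * 1
        + (d.fn.map fun f => ((dg f.lp z : ℕ) : ℤ) * (dg (nth16 0 f.mat b) c : ℤ)).sum)
      - (((dg d.an z : ℕ) : ℤ) * 1
        + (d.fn.map fun f => ((dg f.ln z : ℕ) : ℤ) * (dg (nth16 0 f.mat b) c : ℤ)).sum)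
      + 2 * SSg (sqR d) z b c := by
    intro z b c
    unfold WR
    have e1 : (d.fn.map fun f => (((dg f.lp z : ℕ) : ℤ) - (dg f.ln z : ℕ))
        * (dg (nth16 0 f.mat b) c : ℤ)).sum
        = (d.fn.map fun f => ((dg f.lp z : ℕ) : ℤ) * (dg (nth16 0 f.mat b) c : ℤ)).sum
          - (d.fn.map fun f => ((dg f.ln z : ℕ) : ℤ) * (dg (nth16 0 f.mat b) c : ℤ)).sum := by
      induction d.fn with
      | nil => simp
      | cons a l ih =>
        simp only [List.map_cons, List.sum_cons]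
        rw [ih]
        ring
    rw [e1]
    ring
  rw [e a b c, e b a c, e c a b]
  linarith

/-- the matrices of the facts are symmetric -/
theorem symR_sound (d : DatR) (h : symR d = true) {f : FnR} (hf : f ∈ d.fn) {b c : ℕ}
    (hb : b < vR d.segs) (hc : c < vR d.segs) :
    dg (nth16 0 f.mat b) c = dg (nth16 0 f.mat c) b := by
  have h1 := (allL_iff _ _).1 h f hf
  rcases lt_trichotomy b c with hlt | rfl | hlt
  · have h2 := (allN_iff _ _).1 h1 c hc
    exact (Nat.eq_of_beq_eq_true ((allN_iff _ _).1 h2 b hlt)).symm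
  · rfl
  · have h2 := (allN_iff _ _).1 h1 b hb
    exact Nat.eq_of_beq_eq_true ((allN_iff _ _).1 h2 c hlt)

/-- the cost is symmetric in the pair -/
lemma WR_symm (d : DatR) (hc : CnsR d) (hs : symR d = true) {z b c : ℕ} (hb : b < vR d.segs)
    (hc' : c < vR d.segs) : WR d z b c = WR d z c b := by
  obtain ⟨_, b2, _⟩ := sgR_eq d.segs hb
  obtain ⟨_, c2, _⟩ := sgR_eq d.segs hc'
  unfold WR
  have e1 : SSg (sqR d) z b c = SSg (sqR d) z c b := by
    unfold SSg
    congr 1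
    exact List.map_congr_left fun p _ => by ring
  have e2 : KR d z b c = KR d z c b := by
    unfold KR
    rw [hc.k12 _ b2 _ c2, ← hc.k12 _ c2 _ b2, hc.km _ b2 _ c2, add_comm (psR d.segs b)]
    ring
  have e3 : (d.fn.map fun f => (((dg f.lp z : ℕ) : ℤ) - (dg f.ln z : ℕ))
        * (dg (nth16 0 f.mat b) c : ℤ)).sum
      = (d.fn.map fun f => (((dg f.lp z : ℕ) : ℤ) - (dg f.ln z : ℕ))
        * (dg (nth16 0 f.mat c) b : ℤ)).sum := by
    congr 1
    exact List.map_congr_left fun f hf => by rw [symR_sound d hs hf hb hc']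
  rw [e1, e2, e3]

/-- ALL TRIPLES: `hall` = the inequality for all `b ≤ a` -/
theorem row_all (d : DatR) (hc : CnsR d) (hs : symR d = true)
    (hall : ∀ a < vR d.segs, ∀ b ≤ a, ∀ c < vR d.segs,
      WR d a b c + WR d b a c + WR d c a b ≤ d.Bd)
    {a b c : ℕ} (ha : a < vR d.segs) (hb : b < vR d.segs) (hc' : c < vR d.segs) :
    WR d a b c + WR d b a c + WR d c a b ≤ d.Bd := by
  rcases le_total b a with h | h
  · exact hall a ha b h c hc'
  · have := hall b hb a h c hc'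
    rw [WR_symm d hc hs hb ha (z := c)] at this
    linarith

end MP61673a.KC
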