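import Pool.Agent.Mu673.KCgen
import Pool.Agent.Mu673.KCmin

/-!
SEGMENT CHECKER: nodes = union of segments (runs of positions) with a label parity; no symmetry.
-/

set_option autoImplicit false

namespace MP61673a.KC

open Finset

noncomputable section

/-- a class of nodes: positions `lo, .., lo + len - 1`, parity `par` -/
structure Seg where
  /-- first position -/
  lo : ℕ
  /-- number of nodes -/
  len : ℕ
  /-- parity -/
  par : ℕ

/-- a term `(lp z - ln z) * mat b c` of the cost; `lp, ln ≤ 2^k`, digits of `mat` below `2^(32-k)` -/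
structure FnS where
  /-- positive part of the values -/
  lp : List ℕ
  /-- negative part of the values -/
  ln : List ℕ
  /-- rows of the matrix -/
  mat : List ℕ
  /-- size parameter -/
  k : ℕ

/-- data of a certificate with segments -/
structure DatS where
  /-- mesh -/
  N : ℕ
  /-- classes -/
  segs : List Seg
  /-- squares of the sampler nodes -/
  sq : List (List ℕ)
  /-- label values of the sampler nodes `[Ke0, Ko0, Kr0, Ke1, Ko1, Kr1, M, cc]` -/
  ke : List (List ℕ)
  /-- facts -/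
  fn : List FnS
  /-- bound -/
  Bd : ℕ

/-- number of nodes -/
def vN (l : List Seg) : ℕ := sumL (fun s => s.len) l

/-- position of the node `v` -/
def locP (l : List Seg) (v : ℕ) : ℕ :=
  List.rec (motive := fun _ => ℕ → ℕ) (fun _ => 0)
    (fun s _ ih v => Nat.rec (motive := fun _ => ℕ) (ih (Nat.sub v s.len))
      (fun _ _ => Nat.add s.lo v) (Nat.sub s.len v)) l v

/-- parity of the node `v` -/
def locE (l : List Seg) (v : ℕ) : ℕ :=
  List.rec (motive := fun _ => ℕ → ℕ) (fun _ => 0)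
    (fun s _ ih v => Nat.rec (motive := fun _ => ℕ) (ih (Nat.sub v s.len))
      (fun _ _ => s.par) (Nat.sub s.len v)) l v

/-- concatenation of rows of the segments -/
def segrow (f : Seg → ℕ) (l : List Seg) : ℕ :=
  List.rec (motive := fun _ => ℕ) 0 (fun s _ ih => cat s.len (f s) ih) l

/-- `1` if `a = b`, else `0` (`a, b ∈ {0,1}`) -/
def eqn (a b : ℕ) : ℕ := Nat.sub 1 (Nat.add (Nat.sub a b) (Nat.sub b a))

/-- label part over all positions, label parity `e'` of the second node -/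
def keFull (N : ℕ) (kz : List ℕ) (p e e' : ℕ) : ℕ :=
  Nat.add (Nat.add (shf (nth 0 kz (Nat.add (Nat.mul 3 e) (Nat.mod p 2))) (s1 N p))
    (shf (nth 0 kz (Nat.add (Nat.mul 3 e') 2)) (s2 N p)))
    (Nat.mul (eqn e' e) (shf (nth 0 kz 6) p))

/-- label part of the row `b` (position `p`, parity `e`) for a sampler with label values `kz` -/
def keRow (N : ℕ) (kz : List ℕ) (p e : ℕ) (l : List Seg) : ℕ :=
  segrow (fun s => shf (keFull N kz p e s.par) s.lo) l

/-- positive base row -/
def posS (d : DatS) (z b : ℕ) : ℕ :=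
  Nat.add (keRow d.N (nth [] d.ke z) (locP d.segs b) (locE d.segs b) d.segs)
    (sumL (fun f : FnS => Nat.mul (nth 0 f.lp z) (nth 0 f.mat b)) d.fn)

/-- negative base row -/
def negS (d : DatS) (z b : ℕ) : ℕ :=
  Nat.add (Nat.mul (nth 0 (nth [] d.ke z) 7) (rep (vN d.segs)))
    (sumL (fun f : FnS => Nat.mul (nth 0 f.ln z) (nth 0 f.mat b)) d.fn)

/-- squares of the sampler node `z` -/
def sqS (d : DatS) (z : ℕ) : List ℕ := nth [] d.sq z

/-- the kernel check, triples with `lo ≤ a < hi` -/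
def segCheck (d : DatS) (lo hi : ℕ) : Bool :=
  genCheck (vN d.segs) (sqS d) (posS d) (negS d) d.Bd lo hi

/-- size conditions of the facts -/
def bndF (V : ℕ) (f : FnS) : Bool :=
  Nat.ble f.k 32 && allN V (fun z => Nat.ble (nth 0 f.lp z) (Nat.pow 2 f.k)
    && Nat.ble (nth 0 f.ln z) (Nat.pow 2 f.k) && mask (Nat.sub 32 f.k) V (nth 0 f.mat z))

/-- size conditions -/
def bndS (d : DatS) : Bool :=
  bndg (vN d.segs) (sqS d)
    && allN (vN d.segs) (fun z => allL (nth [] d.ke z) (mask 30 (Nat.succ (Nat.mul 3 (Nat.succ d.N))))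
      && Nat.ble (nth 0 (nth [] d.ke z) 7) 1073741824)
    && allL d.fn (bndF (vN d.segs)) && Nat.ble (sumL (fun _ => 1) d.fn) 15
    && allL d.segs (fun s => Nat.ble s.par 1)

/-- symmetry of the matrices of the facts -/
def symS (d : DatS) : Bool :=
  allL d.fn (fun f => allN (vN d.segs) (fun b => allN b (fun c =>
    Nat.beq (dg (nth 0 f.mat b) c) (dg (nth 0 f.mat c) b))))

/-- label and midpoint part of the cost -/
def KE (d : DatS) (z b c : ℕ) : ℤ :=
  dg (nth 0 (nth [] d.ke z) (3 * locE d.segs b + locP d.segs b % 2))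
      (locP d.segs c + s1 d.N (locP d.segs b))
    + dg (nth 0 (nth [] d.ke z) (3 * locE d.segs c + 2)) (locP d.segs c + s2 d.N (locP d.segs b))
    + (if locE d.segs b = locE d.segs c then
        (dg (nth 0 (nth [] d.ke z) 6) (locP d.segs c + locP d.segs b) : ℤ) else 0)

/-- the integer cost of the pair of nodes `(b, c)` for the sampler node `z` -/
def WS (d : DatS) (z b c : ℕ) : ℤ :=
  2 * SSg (sqS d) z b c + KE d z b c - nth 0 (nth [] d.ke z) 7
    + (d.fn.map fun f => (((nth 0 f.lp z : ℕ) : ℤ) - (nth 0 f.ln z : ℕ))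
        * (dg (nth 0 f.mat b) c : ℤ)).sum

end

lemma locP_cons (s : Seg) (l : List Seg) (v : ℕ) :
    locP (s :: l) v = if v < s.len then s.lo + v else locP l (v - s.len) := by
  have e : locP (s :: l) v = Nat.rec (motive := fun _ => ℕ) (locP l (v - s.len))
      (fun _ _ => s.lo + v) (s.len - v) := rfl
  rw [e]
  split_ifs with h
  · obtain ⟨k, hk⟩ : ∃ k, s.len - v = k + 1 := ⟨s.len - v - 1, by omega⟩
    rw [hk]
  · have : s.len - v = 0 := by omega
    rw [this]
    rfl

lemma locE_cons (s : Seg) (l : List Seg) (v : ℕ) :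
    locE (s :: l) v = if v < s.len then s.par else locE l (v - s.len) := by
  have e : locE (s :: l) v = Nat.rec (motive := fun _ => ℕ) (locE l (v - s.len))
      (fun _ _ => s.par) (s.len - v) := rfl
  rw [e]
  split_ifs with h
  · obtain ⟨k, hk⟩ : ∃ k, s.len - v = k + 1 := ⟨s.len - v - 1, by omega⟩
    rw [hk]
  · have : s.len - v = 0 := by omega
    rw [this]
    rfl

lemma vN_cons (s : Seg) (l : List Seg) : vN (s :: l) = s.len + vN l := rfl

lemma segrow_cons (f : Seg → ℕ) (s : Seg) (l : List Seg) :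
    segrow f (s :: l) = cat s.len (f s) (segrow f l) := rfl

/-- digits of a concatenation: a function of the location -/
lemma dg_segrow (f : Seg → ℕ) (F : ℕ → ℕ → ℕ → ℕ) (l : List Seg) (p0 : ℕ)
    (h : ∀ s ∈ l, ∀ t < s.len, dg (f s) t = F (s.lo + t) s.par p0) {v : ℕ} (hv : v < vN l) :
    dg (segrow f l) v = F (locP l v) (locE l v) p0 := by
  induction l generalizing v with
  | nil => exact absurd hv (Nat.not_lt_zero v)
  | cons s l ih =>
    rw [vN_cons] at hv
    rw [segrow_cons, dg_cat, locP_cons, locE_cons]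
    split_ifs with hc
    · exact h s List.mem_cons_self v hc
    · exact ih (fun s hs => h s (List.mem_cons_of_mem _ hs)) (by omega)

lemma locE_le (l : List Seg) (h : ∀ s ∈ l, s.par ≤ 1) (v : ℕ) : locE l v ≤ 1 := by
  induction l generalizing v with
  | nil => exact Nat.zero_le _
  | cons s l ih =>
    rw [locE_cons]
    split_ifs
    · exact h s List.mem_cons_self
    · exact ih (fun s hs => h s (List.mem_cons_of_mem _ hs)) _

lemma eqn_eq {a b : ℕ} (ha : a ≤ 1) (hb : b ≤ 1) : eqn a b = if a = b then 1 else 0 := by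
  show 1 - ((a - b) + (b - a)) = _
  split_ifs with h
  · omega
  · omega

lemma dg_mod {x m t : ℕ} (ht : t < m) : dg (x % 2 ^ (40 * m)) t = dg x t := by
  have h := dg_cat m x 0 t
  have e : cat m x 0 = x % 2 ^ (40 * m) := by
    show x % 2 ^ (40 * m) + 2 ^ (40 * m) * 0 = _
    rw [mul_zero, add_zero]
  rw [e, if_pos ht] at h
  exact h

/-- sum of three vectors with small digits -/
lemma dg_add3 {A B C : ℕ} (hA : ∀ c, dg A c < 2 ^ 30) (hB : ∀ c, dg B c < 2 ^ 30)
    (hC : ∀ c, dg C c < 2 ^ 30) (c : ℕ) :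
    dg (Nat.add (Nat.add A B) C) c = dg A c + dg B c + dg C c := by
  have h := (((Rp.self (c + 1) A).add (Rp.self (c + 1) B)).add (Rp.self (c + 1) C)).dg
    (fun k _ => by
      have h1 : ((dg A k : ℕ) : ℤ) < 2 ^ 30 := by exact_mod_cast hA k
      have h2 : ((dg B k : ℕ) : ℤ) < 2 ^ 30 := by exact_mod_cast hB k
      have h3 : ((dg C k : ℕ) : ℤ) < 2 ^ 30 := by exact_mod_cast hC k
      have h4 : (0:ℤ) ≤ (dg A k : ℕ) := by positivity
      have h5 : (0:ℤ) ≤ (dg B k : ℕ) := by positivity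
      have h6 : (0:ℤ) ≤ (dg C k : ℕ) := by positivity
      norm_num at *
      constructor <;> linarith) (Nat.lt_succ_self c)
  exact_mod_cast h

/-- the label part of a row -/
lemma keRow_rp (d : DatS) {z b : ℕ} (hs : ∀ s ∈ d.segs, s.par ≤ 1)
    (hk : ∀ i c, dg (nth 0 (nth [] d.ke z) i) c < 2 ^ 30) :
    Rp (vN d.segs) (keRow d.N (nth [] d.ke z) (locP d.segs b) (locE d.segs b) d.segs)
      (fun c => KE d z b c) := by
  set kz := nth [] d.ke z with hkz
  set p := locP d.segs b with hp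
  set e := locE d.segs b with he
  have he1 : e ≤ 1 := locE_le _ hs _
  refine (Rp.self _ _).congr fun c hc => ?_
  have full : ∀ e' ≤ 1, ∀ t, dg (keFull d.N kz p e e') t
      = dg (nth 0 kz (3 * e + p % 2)) (t + s1 d.N p) + dg (nth 0 kz (3 * e' + 2)) (t + s2 d.N p)
        + if e' = e then dg (nth 0 kz 6) (t + p) else 0 := by
    intro e' he' t
    unfold keFull
    have em : ∀ t, dg (Nat.mul (eqn e' e) (shf (nth 0 kz 6) p)) t
        = if e' = e then dg (nth 0 kz 6) (t + p) else 0 := by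
      intro t
      rw [eqn_eq he' he1]
      split_ifs
      · show dg (1 * shf (nth 0 kz 6) p) t = _
        rw [one_mul, dg_shf]
      · show dg (0 * _) t = _
        rw [zero_mul, dg_zero]
    rw [dg_add3 (fun c => by rw [dg_shf]; exact hk _ _) (fun c => by rw [dg_shf]; exact hk _ _)
      (fun c => by
        rw [em]
        split_ifs
        · exact hk _ _
        · norm_num), em, dg_shf, dg_shf]
    rfl
  have h1 := dg_segrow (fun s => shf (keFull d.N kz p e s.par) s.lo)
    (fun q e' p => dg (nth 0 kz (3 * e + p % 2)) (q + s1 d.N p)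
      + dg (nth 0 kz (3 * e' + 2)) (q + s2 d.N p)
        + if e' = e then dg (nth 0 kz 6) (q + p) else 0) d.segs p (fun s hs' t _ => by
      rw [dg_shf, full s.par (hs s hs'), add_comm t s.lo]) hc
  unfold keRow
  rw [h1]
  unfold KE
  rw [← hkz, ← hp, ← he]
  by_cases c' : locE d.segs c = e
  · rw [if_pos c', if_pos c'.symm]
    push_cast
    ring
  · rw [if_neg c', if_neg (fun h => c' h.symm)]
    push_cast
    ring

/-- size conditions, facts -/
lemma bndF_sound {V : ℕ} {f : FnS} (h : bndF V f = true) :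
    f.k ≤ 32 ∧ ∀ z < V, nth 0 f.lp z ≤ 2 ^ f.k ∧ nth 0 f.ln z ≤ 2 ^ f.k
      ∧ ∀ c, dg (nth 0 f.mat z) c < 2 ^ (32 - f.k) := by
  unfold bndF at h
  rw [Bool.and_eq_true] at h
  refine ⟨Nat.le_of_ble_eq_true h.1, fun z hz => ?_⟩
  have h1 := (allN_iff _ _).1 h.2 z hz
  simp only [Bool.and_eq_true] at h1
  exact ⟨Nat.le_of_ble_eq_true h1.1.1, Nat.le_of_ble_eq_true h1.1.2,
    mask_dg (by show 32 - f.k ≤ 40; omega) h1.2⟩

lemma fnS_sum {V : ℕ} {l : List FnS} (h : ∀ f ∈ l, bndF V f = true) (hl : l.length ≤ 15)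
    {z b : ℕ} (hz : z < V) (hb : b < V) (c : ℕ) :
    (0 ≤ (l.map fun f => ((nth 0 f.lp z : ℕ) : ℤ) * (dg (nth 0 f.mat b) c : ℤ)).sum
      ∧ (l.map fun f => ((nth 0 f.lp z : ℕ) : ℤ) * (dg (nth 0 f.mat b) c : ℤ)).sum
        ≤ 15 * 2 ^ 32)
    ∧ (0 ≤ (l.map fun f => ((nth 0 f.ln z : ℕ) : ℤ) * (dg (nth 0 f.mat b) c : ℤ)).sum
      ∧ (l.map fun f => ((nth 0 f.ln z : ℕ) : ℤ) * (dg (nth 0 f.mat b) c : ℤ)).sum
        ≤ 15 * 2 ^ 32) := by
  have hlen : (l.length : ℤ) ≤ 15 := by exact_mod_cast hl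
  have hlen0 : (0:ℤ) ≤ l.length := by positivity
  have g : ∀ (w : FnS → ℕ), (∀ f ∈ l, w f ≤ 2 ^ f.k) →
      0 ≤ (l.map fun f => ((w f : ℕ) : ℤ) * (dg (nth 0 f.mat b) c : ℤ)).sum
        ∧ (l.map fun f => ((w f : ℕ) : ℤ) * (dg (nth 0 f.mat b) c : ℤ)).sum ≤ 15 * 2 ^ 32 := by
    intro w hw
    have hh := sum_bounds l (fun f => ((w f : ℕ) : ℤ) * (dg (nth 0 f.mat b) c : ℤ)) (A := 0)
      (B := 2 ^ 32) (fun f hf => by
        obtain ⟨hk, h2⟩ := bndF_sound (h f hf)
        have h3 := (h2 b hb).2.2 c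
        have h4 : w f * dg (nth 0 f.mat b) c ≤ 2 ^ f.k * 2 ^ (32 - f.k) :=
          Nat.mul_le_mul (hw f hf) h3.le
        rw [← pow_add, Nat.add_sub_cancel' hk] at h4
        refine ⟨by positivity, by exact_mod_cast h4⟩)
    refine ⟨by simpa using hh.1, hh.2.trans ?_⟩
    nlinarith
  exact ⟨g _ fun f hf => ((bndF_sound (h f hf)).2 z hz).1,
    g _ fun f hf => ((bndF_sound (h f hf)).2 z hz).2.1⟩

/-- SOUNDNESS of the segment check -/
theorem seg_sound (d : DatS) (hb : bndS d = true) {lo hi : ℕ} (h : segCheck d lo hi = true)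
    (hhi : hi ≤ vN d.segs) {a b c : ℕ} (ha : lo ≤ a) (ha' : a < hi) (hba : b ≤ a)
    (hc : c < vN d.segs) :
    WS d a b c + WS d b a c + WS d c a b ≤ d.Bd := by
  unfold bndS at hb
  simp only [Bool.and_eq_true] at hb
  obtain ⟨⟨⟨⟨b1, b2⟩, b3⟩, b4⟩, b5⟩ := hb
  have hpar : ∀ s ∈ d.segs, s.par ≤ 1 := fun s hs =>
    Nat.le_of_ble_eq_true ((allL_iff _ _).1 b5 s hs)
  have hfn : ∀ f ∈ d.fn, bndF (vN d.segs) f = true := (allL_iff _ _).1 b3
  have hlen : d.fn.length ≤ 15 := by
    have := Nat.le_of_ble_eq_true b4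
    rw [sumL_eq] at this
    simpa using this
  have hke : ∀ z < vN d.segs, (∀ i c, dg (nth 0 (nth [] d.ke z) i) c < 2 ^ 30)
      ∧ nth 0 (nth [] d.ke z) 7 ≤ 2 ^ 30 := by
    intro z hz
    have h1 := (allN_iff _ _).1 b2 z hz
    rw [Bool.and_eq_true] at h1
    refine ⟨fun i c => ?_, ?_⟩
    · rcases nth_mem 0 (nth [] d.ke z) i with h | h
      · exact mask_dg (by norm_num) ((allL_iff _ _).1 h1.1 _ h) c
      · rw [h, dg_zero]
        norm_num
    · have := Nat.le_of_ble_eq_true h1.2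
      simpa using this
  have key := gen_sound (m := vN d.segs) (sq := sqS d) (pos := posS d) (neg := negS d)
    (bd := d.Bd) (lo := lo) (hi := hi) b1 h hhi
    (X := fun z b c => KE d z b c
      + (d.fn.map fun f => ((nth 0 f.lp z : ℕ) : ℤ) * (dg (nth 0 f.mat b) c : ℤ)).sum)
    (Y := fun z b c => ((nth 0 (nth [] d.ke z) 7 : ℕ) : ℤ) * 1
      + (d.fn.map fun f => ((nth 0 f.ln z : ℕ) : ℤ) * (dg (nth 0 f.mat b) c : ℤ)).sum)
    (fun z hz b _ => (keRow_rp d hpar (hke z hz).1).add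
      (Rp.sumL (fun f : FnS => Nat.mul (nth 0 f.lp z) (nth 0 f.mat b)) _ d.fn
        fun f _ => (Rp.self _ (nth 0 f.mat b)).mul (nth 0 f.lp z)))
    (fun z _ b _ => ((Rp.rep _).mul (nth 0 (nth [] d.ke z) 7)).add
      (Rp.sumL (fun f : FnS => Nat.mul (nth 0 f.ln z) (nth 0 f.mat b)) _ d.fn
        fun f _ => (Rp.self _ (nth 0 f.mat b)).mul (nth 0 f.ln z)))
    (fun z hz b hb c _ => by
      have f1 := (fnS_sum hfn hlen hz hb c).1
      have k1 := (hke z hz).1
      unfold KE
      have a1 : ((dg (nth 0 (nth [] d.ke z) (3 * locE d.segs b + locP d.segs b % 2))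
        (locP d.segs c + s1 d.N (locP d.segs b)) : ℕ) : ℤ) < 2 ^ 30 := by exact_mod_cast k1 _ _
      have a2 : ((dg (nth 0 (nth [] d.ke z) (3 * locE d.segs c + 2))
        (locP d.segs c + s2 d.N (locP d.segs b)) : ℕ) : ℤ) < 2 ^ 30 := by exact_mod_cast k1 _ _
      have a3 : (if locE d.segs b = locE d.segs c then
        ((dg (nth 0 (nth [] d.ke z) 6) (locP d.segs c + locP d.segs b) : ℕ) : ℤ) else 0)
          < 2 ^ 30 := by
        split_ifs
        · exact_mod_cast k1 _ _
        · norm_num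
      have a4 : 0 ≤ (if locE d.segs b = locE d.segs c then
        ((dg (nth 0 (nth [] d.ke z) 6) (locP d.segs c + locP d.segs b) : ℕ) : ℤ) else 0) := by
        split_ifs
        · positivity
        · norm_num
      have a5 : (0:ℤ) ≤ (dg (nth 0 (nth [] d.ke z) (3 * locE d.segs b + locP d.segs b % 2))
        (locP d.segs c + s1 d.N (locP d.segs b)) : ℕ) := by positivity
      have a6 : (0:ℤ) ≤ (dg (nth 0 (nth [] d.ke z) (3 * locE d.segs c + 2))
        (locP d.segs c + s2 d.N (locP d.segs b)) : ℕ) := by positivity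
      norm_num at *
      constructor <;> linarith [f1.1, f1.2])
    (fun z hz b hb c _ => by
      have f1 := (fnS_sum hfn hlen hz hb c).2
      have k1 : ((nth 0 (nth [] d.ke z) 7 : ℕ) : ℤ) ≤ 2 ^ 30 := by exact_mod_cast (hke z hz).2
      have k2 : (0:ℤ) ≤ (nth 0 (nth [] d.ke z) 7 : ℕ) := by positivity
      norm_num at *
      constructor <;> linarith [f1.1, f1.2])
    ha ha' hba hc
  have e : ∀ z b c, WS d z b c = (KE d z b c
      + (d.fn.map fun f => ((nth 0 f.lp z : ℕ) : ℤ) * (dg (nth 0 f.mat b) c : ℤ)).sum)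
      - (((nth 0 (nth [] d.ke z) 7 : ℕ) : ℤ) * 1
      + (d.fn.map fun f => ((nth 0 f.ln z : ℕ) : ℤ) * (dg (nth 0 f.mat b) c : ℤ)).sum)
      + 2 * SSg (sqS d) z b c := by
    intro z b c
    unfold WS
    have e1 : (d.fn.map fun f => (((nth 0 f.lp z : ℕ) : ℤ) - (nth 0 f.ln z : ℕ))
        * (dg (nth 0 f.mat b) c : ℤ)).sum
        = (d.fn.map fun f => ((nth 0 f.lp z : ℕ) : ℤ) * (dg (nth 0 f.mat b) c : ℤ)).sum
          - (d.fn.map fun f => ((nth 0 f.ln z : ℕ) : ℤ) * (dg (nth 0 f.mat b) c : ℤ)).sum := by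
      induction d.fn with
      | nil => simp
      | cons a l ih =>
        simp only [List.map_cons, List.sum_cons]
        rw [ih]
        ring
    rw [e1]
    ring
  rw [e a b c, e b a c, e c a b]
  linarith

/-- the matrices of the facts are symmetric -/
theorem symS_sound (d : DatS) (h : symS d = true) {f : FnS} (hf : f ∈ d.fn) {b c : ℕ}
    (hb : b < vN d.segs) (hc : c < vN d.segs) : dg (nth 0 f.mat b) c = dg (nth 0 f.mat c) b := by
  have h1 := (allL_iff _ _).1 h f hf
  rcases lt_trichotomy b c with hlt | rfl | hlt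
  · have h2 := (allN_iff _ _).1 h1 c hc
    exact (Nat.eq_of_beq_eq_true ((allN_iff _ _).1 h2 b hlt)).symm
  · rfl
  · have h2 := (allN_iff _ _).1 h1 b hb
    exact Nat.eq_of_beq_eq_true ((allN_iff _ _).1 h2 c hlt)

end MP61673a.KC
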