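import Pool.Agent.Mu673.KCseg
import Pool.Agent.Mu673.KCbigs

/-!
FAST SEGMENT CHECKER: `segCheckB` (packed transposition) implies `segCheck`.
-/

set_option autoImplicit false

namespace MP61673a.KC

noncomputable section

/-- the fast kernel check, triples with `lo ≤ a < hi`; `V ≤ 2^k` -/
def segCheckB (k : ℕ) (d : DatS) (lo hi : ℕ) : Bool :=
  bigCheck k (vN d.segs) (Rg (vN d.segs) (sqS d) (posS d) (negS d)) d.Bd lo hi

end

/-- the fast check implies the plain check -/
theorem segCheck_of_B (d : DatS) (hb : bndS d = true) {k lo hi : ℕ} (hV : vN d.segs ≤ 2 ^ k)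
    (hbd : d.Bd + 412316860416 < 2 ^ 39) (h : segCheckB k d lo hi = true)
    (hhi : hi ≤ vN d.segs) : segCheck d lo hi = true := by
  unfold bndS at hb
  simp only [Bool.and_eq_true] at hb
  obtain ⟨⟨⟨⟨b1, b2⟩, b3⟩, b4⟩, b5⟩ := hb
  have hpar : ∀ s ∈ d.segs, s.par ≤ 1 := fun s hs =>
    Nat.le_of_ble_eq_true ((allL_iff _ _).1 b5 s hs)
  have hfn : ∀ f ∈ d.fn, bndF (vN d.segs) f = true := (allL_iff _ _).1 b3
  have hlen : d.fn.length ≤ 15 := by
    have := Nat.le_of_ble_eq_true b4
    rw [sumL_eq] at this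
    simpa using this
  have hke : ∀ z < vN d.segs, (∀ i c, dg (nth 0 (nth [] d.ke z) i) c < 2 ^ 30)
      ∧ nth 0 (nth [] d.ke z) 7 ≤ 2 ^ 30 := by
    intro z hz
    have h1 := (allN_iff _ _).1 b2 z hz
    rw [Bool.and_eq_true] at h1
    refine ⟨fun i c => ?_, ?_⟩
    · rcases nth_mem 0 (nth [] d.ke z) i with h | h
      · exact mask_dg (by norm_num) ((allL_iff _ _).1 h1.1 _ h) c
      · rw [h, dg_zero]
        norm_num
    · have := Nat.le_of_ble_eq_true h1.2
      simpa using this
  exact gen_of_big (k := k) (V := vN d.segs) (sq := sqS d) (pos := posS d) (neg := negS d)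
    (bd := d.Bd) (lo := lo) (hi := hi) hV hbd b1 h hhi
    (X := fun z b c => KE d z b c
      + (d.fn.map fun f => ((nth 0 f.lp z : ℕ) : ℤ) * (dg (nth 0 f.mat b) c : ℤ)).sum)
    (Y := fun z b c => ((nth 0 (nth [] d.ke z) 7 : ℕ) : ℤ) * 1
      + (d.fn.map fun f => ((nth 0 f.ln z : ℕ) : ℤ) * (dg (nth 0 f.mat b) c : ℤ)).sum)
    (fun z hz b _ => (keRow_rp d hpar (hke z hz).1).add
      (Rp.sumL (fun f : FnS => Nat.mul (nth 0 f.lp z) (nth 0 f.mat b)) _ d.fn
        fun f _ => (Rp.self _ (nth 0 f.mat b)).mul (nth 0 f.lp z)))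
    (fun z _ b _ => ((Rp.rep _).mul (nth 0 (nth [] d.ke z) 7)).add
      (Rp.sumL (fun f : FnS => Nat.mul (nth 0 f.ln z) (nth 0 f.mat b)) _ d.fn
        fun f _ => (Rp.self _ (nth 0 f.mat b)).mul (nth 0 f.ln z)))
    (fun z hz b hb c _ => by
      have f1 := (fnS_sum hfn hlen hz hb c).1
      have k1 := (hke z hz).1
      unfold KE
      have a1 : ((dg (nth 0 (nth [] d.ke z) (3 * locE d.segs b + locP d.segs b % 2))
        (locP d.segs c + s1 d.N (locP d.segs b)) : ℕ) : ℤ) < 2 ^ 30 := by exact_mod_cast k1 _ _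
      have a2 : ((dg (nth 0 (nth [] d.ke z) (3 * locE d.segs c + 2))
        (locP d.segs c + s2 d.N (locP d.segs b)) : ℕ) : ℤ) < 2 ^ 30 := by exact_mod_cast k1 _ _
      have a3 : (if locE d.segs b = locE d.segs c then
        ((dg (nth 0 (nth [] d.ke z) 6) (locP d.segs c + locP d.segs b) : ℕ) : ℤ) else 0)
          < 2 ^ 30 := by
        split_ifs
        · exact_mod_cast k1 _ _
        · norm_num
      have a4 : 0 ≤ (if locE d.segs b = locE d.segs c then
        ((dg (nth 0 (nth [] d.ke z) 6) (locP d.segs c + locP d.segs b) : ℕ) : ℤ) else 0) := by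
        split_ifs
        · positivity
        · norm_num
      have a5 : (0:ℤ) ≤ (dg (nth 0 (nth [] d.ke z) (3 * locE d.segs b + locP d.segs b % 2))
        (locP d.segs c + s1 d.N (locP d.segs b)) : ℕ) := by positivity
      have a6 : (0:ℤ) ≤ (dg (nth 0 (nth [] d.ke z) (3 * locE d.segs c + 2))
        (locP d.segs c + s2 d.N (locP d.segs b)) : ℕ) := by positivity
      norm_num at *
      constructor <;> linarith [f1.1, f1.2])
    (fun z hz b hb c _ => by
      have f1 := (fnS_sum hfn hlen hz hb c).2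
      have k1 : ((nth 0 (nth [] d.ke z) 7 : ℕ) : ℤ) ≤ 2 ^ 30 := by exact_mod_cast (hke z hz).2
      have k2 : (0:ℤ) ≤ (nth 0 (nth [] d.ke z) 7 : ℕ) := by positivity
      norm_num at *
      constructor <;> linarith [f1.1, f1.2])

/-- gluing of ranges of the plain check -/
theorem segCheck_join (d : DatS) {lo mid hi : ℕ} (h1 : segCheck d lo mid = true)
    (h2 : segCheck d mid hi = true) (hm : lo ≤ mid) (hm' : mid ≤ hi) :
    segCheck d lo hi = true := by
  unfold segCheck genCheck at *
  refine (allN_iff _ _).2 fun k hk => ?_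
  have hk' : k < hi - lo := hk
  by_cases c : lo + k < mid
  · exact (allN_iff _ _).1 h1 k (by
      show k < mid - lo
      omega)
  · have h3 := (allN_iff _ _).1 h2 (lo + k - mid) (by
      show lo + k - mid < hi - mid
      omega)
    have e : Nat.add mid (lo + k - mid) = Nat.add lo k := by
      show mid + (lo + k - mid) = lo + k
      omega
    rw [e] at h3
    exact h3

end MP61673a.KC
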