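import Pool.Agent.Mu673.KCmask

/-!
TRIANGULAR MAIN LOOP: sorted triples `a ≤ b ≤ c` only; the packed matrices of the node `a` have
`V - a` rows, so they shrink with `a`. Any rows with at most `V` digits may be used, the digits
`c < b` of the row `b` are free.
-/

set_option autoImplicit false

namespace MP61673a.KC

open Finset

noncomputable section

/-- row `a + b` of the sampler `a + z`, columns from `a` on -/
def triR (Rw : ℕ → ℕ → ℕ) (a z b : ℕ) : ℕ :=
  frc (Nat.add a z) (fun z => frc (Nat.add a b) (fun b => shf (Rw z b) a))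

/-- the bound, packed -/
def bdT (L bd : ℕ) : ℕ := Nat.mul (Nat.add bd 412316860416) (rep (Nat.mul L L))

/-- comparison of all pairs, matrices with `L = 2^k` columns -/
def fasB (k bd A B : ℕ) : Bool :=
  ple (Nat.mul (Nat.pow 2 k) (Nat.pow 2 k)) (bdT (Nat.pow 2 k) bd)
    (Nat.add (Nat.add A B) (trf (Nat.pow 2 k) k k B))

/-- all triples with the smallest node `a` -/
def triA (Rw : ℕ → ℕ → ℕ) (V bd a : ℕ) : Bool :=
  frcBk (Nat.sub V a) (fun n => frcBk (Nat.log2 (Nat.sub (Nat.mul 2 n) 1)) (fun k =>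
    Bool.rec (motive := fun _ => Bool) false
      (fasB k bd (mtA k n (triR Rw a) 0) (mtB k n (triR Rw a) 0))
      (Nat.ble n (Nat.pow 2 k))))

/-- all triples with the smallest node in `lo ≤ a < hi` -/
def triCheck (Rw : ℕ → ℕ → ℕ) (V bd lo hi : ℕ) : Bool :=
  allN (Nat.sub hi lo) (fun a' => frcBk (Nat.add lo a') (fun a => triA Rw V bd a))

/-- the inequalities of the triples with the smallest node in `lo ≤ a < hi` -/
def RowMin (d : DatR) (lo hi : ℕ) : Prop :=
  ∀ a, lo ≤ a → a < hi → ∀ b, a ≤ b → ∀ c, b ≤ c → c < vR d.segs →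
    WR d a b c + WR d b a c + WR d c a b ≤ d.Bd

end

lemma triR_eq (Rw : ℕ → ℕ → ℕ) (a z b : ℕ) : triR Rw a z b = shf (Rw (a + z) (a + b)) a := by
  unfold triR
  rw [frc_eq, frc_eq]
  rfl

lemma shf_lt {x V a : ℕ} (h : x < 2 ^ (40 * V)) : shf x a < 2 ^ (40 * (V - a)) := by
  rw [shf_eq]
  rcases le_total a V with ha | ha
  · refine Nat.div_lt_of_lt_mul ?_
    rw [← pow_add, ← mul_add, Nat.add_sub_cancel' ha]
    exact h
  · rw [Nat.div_eq_of_lt (h.trans_le (Nat.pow_le_pow_right (by norm_num) (by omega)))]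
    positivity

lemma fasB_eq {k n bd : ℕ} {Rw : ℕ → ℕ → ℕ} (h : fasB k bd (mtA k n Rw 0) (mtB k n Rw 0) = true) :
    fasCheck k n Rw bd 0 1 = true := by
  unfold fasCheck
  refine (allN_iff _ _).2 fun t ht => ?_
  have ht' : t < 1 := ht
  obtain rfl : t = 0 := by omega
  rw [frcBk_eq]
  unfold fasB at h
  have e : trf (Nat.pow 2 k) k k (mtB k n Rw 0) = trq (Nat.pow 2 k) k (mtB k n Rw 0) :=
    trf_eq le_rfl _
  rw [e] at h
  exact h

/-- SOUNDNESS of the triangular loop -/
theorem tri_sound {V : ℕ} {Rw : ℕ → ℕ → ℕ} {bd lo hi : ℕ} (hbd : bd + 412316860416 < 2 ^ 39)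
    (hlt : ∀ z b, Rw z b < 2 ^ (40 * V))
    (hrow : ∀ z < V, ∀ b < V, ∀ c < V, dg (Rw z b) c < 2 ^ 38)
    (h : triCheck Rw V bd lo hi = true) (hhi : hi ≤ V) {a b c : ℕ} (ha : lo ≤ a) (ha' : a < hi)
    (hab : a ≤ b) (hac : a ≤ c) (hb : b < V) (hc : c < V) :
    dg (Rw c a) b + (dg (Rw a b) c + dg (Rw b a) c) ≤ bd + 412316860416 := by
  unfold triCheck at h
  have h1 := (allN_iff _ _).1 h (a - lo) (by
    show a - lo < hi - lo
    omega)
  rw [frcBk_eq] at h1
  have ea : Nat.add lo (a - lo) = a := by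
    show lo + (a - lo) = a
    omega
  rw [ea] at h1
  unfold triA at h1
  rw [frcBk_eq, frcBk_eq] at h1
  have en : Nat.sub V a = V - a := rfl
  rw [en] at h1
  set k := Nat.log2 (Nat.sub (Nat.mul 2 (V - a)) 1) with hk
  have h2 : V - a ≤ 2 ^ k ∧ fasCheck k (V - a) (triR Rw a) bd 0 1 = true := by
    cases hh : Nat.ble (V - a) (Nat.pow 2 k) with
    | false =>
      rw [hh] at h1
      exact absurd h1 (by simp)
    | true =>
      rw [hh] at h1
      exact ⟨Nat.le_of_ble_eq_true hh, fasB_eq h1⟩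
  have key := fas_sound (Rw := triR Rw a) (lo := 0) (hi := 1) h2.1 hbd (fun z b => by
      rw [triR_eq]
      exact shf_lt (hlt _ _))
    (fun z hz b hb c hc => by
      rw [triR_eq, dg_shf]
      exact hrow _ (by omega) _ (by omega) _ (by omega)) h2.2 (by omega) (a := 0) (b := b - a)
    (c := c - a) (le_refl _) (by omega) (by omega) (by omega)
  rw [triR_eq, triR_eq, triR_eq, dg_shf, dg_shf, dg_shf] at key
  have e1 : a + (c - a) = c := by omega
  have e2 : a + (b - a) = b := by omega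
  have e3 : c - a + a = c := by omega
  have e4 : b - a + a = b := by omega
  rw [e1, e2, e3, e4, add_zero] at key
  exact key

theorem RowMin.join {d : DatR} {lo mid hi : ℕ} (h1 : RowMin d lo mid) (h2 : RowMin d mid hi) :
    RowMin d lo hi := by
  intro a ha ha' b hb c hc hcV
  by_cases h : a < mid
  · exact h1 a ha h b hb c hc hcV
  · exact h2 a (by omega) ha' b hb c hc hcV

/-- all triples from the sorted triples -/
theorem RowOK.of_min {k : ℕ} {d : DatR} (h : okR k d = true)
    (hm : RowMin d 0 (vR d.segs)) : RowOK d 0 (vR d.segs) := by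
  obtain ⟨_, h2, h3, _, _⟩ := okR_imp h
  have hc := cnsR_imp h2
  intro a _ ha b hb c hcV
  have hbV : b < vR d.segs := by omega
  have hs : ∀ z x y, x < vR d.segs → y < vR d.segs → WR d z x y = WR d z y x :=
    fun z x y hx hy => WR_symm d hc h3 hx hy
  rcases le_total c b with h1 | h1
  · have k1 := hm c (Nat.zero_le _) hcV b h1 a hb ha
    rw [hs c b a hbV ha, hs b c a hcV ha, hs a c b hcV hbV] at k1
    linarith
  · rcases le_total c a with h4 | h4
    · have k1 := hm b (Nat.zero_le _) hbV c h1 a h4 ha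
      rw [hs b c a hcV ha, hs c b a hbV ha] at k1
      linarith
    · have k1 := hm b (Nat.zero_le _) hbV a hb c h4 hcV
      rw [hs c b a hbV ha] at k1
      linarith

/-- the loop with rows that represent the costs -/
theorem RowMin.of_tri {d : DatR} {V : ℕ} (eV : V = vR d.segs) {Rw : ℕ → ℕ → ℕ} {lo hi : ℕ}
    (hbd : d.Bd + 412316860416 < 2 ^ 39) (hlt : ∀ z b, Rw z b < 2 ^ (40 * V))
    (hrow : ∀ z < V, ∀ b < V, ∀ c < V, dg (Rw z b) c < 2 ^ 38)
    (hval : ∀ z < V, ∀ b < V, ∀ c, b ≤ c → c < V →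
      (dg (Rw z b) c : ℤ) = WR d z b c + 137438953472)
    (h : triCheck Rw V d.Bd lo hi = true) (hhi : hi ≤ V) : RowMin d lo hi := by
  intro a ha ha' b hb c hc hcV
  rw [← eV] at hcV
  have key := tri_sound hbd hlt hrow h hhi ha ha' hb (hb.trans hc) (by omega) hcV
  have k2 : ((dg (Rw c a) b : ℕ) : ℤ) + ((dg (Rw a b) c : ℕ) + (dg (Rw b a) c : ℕ))
      ≤ (d.Bd : ℤ) + 412316860416 := by exact_mod_cast key
  rw [hval c hcV a (by omega) b hb (by omega), hval a (by omega) b (by omega) c hc hcV,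
    hval b (by omega) a (by omega) c (hb.trans hc) hcV] at k2
  linarith

end MP61673a.KC
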