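import Mathlib

/-!
Piecewise linear label weights and hat functions: the kink rule of helper44 (second half of the
bridge from node inequalities to real positions).
-/

set_option autoImplicit false

namespace MP61673a.Kink

open Finset

noncomputable section

/-- the piecewise linear function with node values `lam` at the integers -/
def pl (lam : ℤ → ℝ) (x : ℝ) : ℝ :=
  (1 - Int.fract x) * lam ⌊x⌋ + Int.fract x * lam (⌊x⌋ + 1)

/-- hat function of the node `i` -/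
def hat (i : ℤ) (x : ℝ) : ℝ := max 0 (1 - |x - i|)

lemma hat_nonneg (i : ℤ) (x : ℝ) : 0 ≤ hat i x := le_max_left _ _

lemma hat_floor (x : ℝ) : hat ⌊x⌋ x = 1 - Int.fract x := by
  unfold hat
  have h0 := Int.fract_nonneg x
  have h1 := Int.fract_lt_one x
  have h2 : x - (⌊x⌋ : ℝ) = Int.fract x := rfl
  rw [h2, abs_of_nonneg h0]
  exact max_eq_right (by linarith)

lemma hat_floor_succ (x : ℝ) : hat (⌊x⌋ + 1) x = Int.fract x := by
  unfold hat
  have h0 := Int.fract_nonneg x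
  have h1 := Int.fract_lt_one x
  have h2 : x - (⌊x⌋ : ℝ) = Int.fract x := rfl
  have h3 : x - ((⌊x⌋ + 1 : ℤ) : ℝ) = Int.fract x - 1 := by
    push_cast
    linarith
  rw [h3, abs_of_nonpos (by linarith)]
  rw [max_eq_right (by linarith)]
  ring

lemma hat_eq_zero {i : ℤ} {x : ℝ} (h1 : i ≠ ⌊x⌋) (h2 : i ≠ ⌊x⌋ + 1) : hat i x = 0 := by
  unfold hat
  apply max_eq_left
  have h0 := Int.fract_nonneg x
  have h3 := Int.fract_lt_one x
  have h4 : x - (⌊x⌋ : ℝ) = Int.fract x := rfl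
  have h5 : i ≤ ⌊x⌋ - 1 ∨ ⌊x⌋ + 2 ≤ i := by omega
  rcases h5 with h5 | h5
  · have h6 : (i : ℝ) ≤ (⌊x⌋ : ℝ) - 1 := by exact_mod_cast h5
    have : 1 ≤ |x - i| := by
      rw [abs_of_nonneg (by linarith)]
      linarith
    linarith
  · have h6 : (⌊x⌋ : ℝ) + 2 ≤ (i : ℝ) := by exact_mod_cast h5
    have : 1 ≤ |x - i| := by
      rw [abs_of_nonpos (by linarith)]
      linarith
    linarith

/-- all nodes seen from `x` are in `I` -/
def Near (I : Finset ℤ) (x : ℝ) : Prop := ∀ i, hat i x ≠ 0 → i ∈ I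

lemma near_Icc {a b : ℤ} {x : ℝ} (h0 : (a : ℝ) ≤ x) (h1 : x ≤ b) : Near (Icc a b) x := by
  intro i hi
  rw [mem_Icc]
  by_contra hc
  apply hi
  unfold hat
  apply max_eq_left
  have hc' : i + 1 ≤ a ∨ b + 1 ≤ i := by omega
  rcases hc' with h | h
  · have h' : (i : ℝ) + 1 ≤ a := by exact_mod_cast h
    have : 1 ≤ |x - i| := by
      rw [abs_of_nonneg (by linarith)]
      linarith
    linarith
  · have h' : (b : ℝ) + 1 ≤ i := by exact_mod_cast h
    have : 1 ≤ |x - i| := by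
      rw [abs_of_nonpos (by linarith)]
      linarith
    linarith

/-- interpolation with hats -/
lemma sum_hat {I : Finset ℤ} {x : ℝ} (h : Near I x) (F : ℤ → ℝ) :
    ∑ i ∈ I, hat i x * F i = (1 - Int.fract x) * F ⌊x⌋ + Int.fract x * F (⌊x⌋ + 1) := by
  have h1 : ∑ i ∈ I, hat i x * F i = ∑ i ∈ I ∪ {⌊x⌋, ⌊x⌋ + 1}, hat i x * F i := by
    apply sum_subset subset_union_left
    intro i _ hi
    by_contra hc
    apply hi
    apply h
    intro h0
    apply hc
    rw [h0, zero_mul]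
  have h2 : ∑ i ∈ I ∪ {⌊x⌋, ⌊x⌋ + 1}, hat i x * F i
      = ∑ i ∈ ({⌊x⌋, ⌊x⌋ + 1} : Finset ℤ), hat i x * F i := by
    symm
    apply sum_subset subset_union_right
    intro i _ hi
    simp only [mem_insert, mem_singleton, not_or] at hi
    rw [hat_eq_zero hi.1 hi.2, zero_mul]
  rw [h1, h2, sum_pair (by omega), hat_floor, hat_floor_succ]

lemma pl_eq_sum {I : Finset ℤ} {x : ℝ} (h : Near I x) (lam : ℤ → ℝ) :
    pl lam x = ∑ i ∈ I, hat i x * lam i := by
  rw [sum_hat h]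
  rfl

/-- partition of unity -/
lemma sum_hat_one {I : Finset ℤ} {x : ℝ} (h : Near I x) : ∑ i ∈ I, hat i x = 1 := by
  have := sum_hat h (fun _ => 1)
  simp only [mul_one] at this
  rw [this]
  ring

lemma pl_int (lam : ℤ → ℝ) (k : ℤ) : pl lam k = lam k := by
  unfold pl
  simp

lemma pl_of_mem (lam : ℤ → ℝ) {k : ℤ} {x : ℝ} (h0 : (k : ℝ) ≤ x) (h1 : x ≤ k + 1) :
    pl lam x = (k + 1 - x) * lam k + (x - k) * lam (k + 1) := by
  rcases eq_or_lt_of_le h1 with h | h
  · have : x = ((k + 1 : ℤ) : ℝ) := by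
      push_cast
      exact h
    rw [this, pl_int]
    push_cast
    ring
  · have hf : ⌊x⌋ = k := by
      rw [Int.floor_eq_iff]
      exact ⟨h0, h⟩
    unfold pl
    have : Int.fract x = x - k := by
      unfold Int.fract
      rw [hf]
    rw [this, hf]
    ring

lemma pl_nonneg {lam : ℤ → ℝ} (h : ∀ k, 0 ≤ lam k) (x : ℝ) : 0 ≤ pl lam x := by
  unfold pl
  have h0 := Int.fract_nonneg x
  have h1 := Int.fract_lt_one x
  have := mul_nonneg (by linarith : 0 ≤ 1 - Int.fract x) (h ⌊x⌋)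
  have := mul_nonneg h0 (h (⌊x⌋ + 1))
  linarith

/-- the kink bound `D` of the node function `lam` -/
structure Kinks (lam D : ℤ → ℝ) : Prop where
  nonneg : ∀ k, 0 ≤ D k
  le : ∀ k, 2 * lam k - lam (k - 1) - lam (k + 1) ≤ D k

/-- node weight of an end point label -/
def kE (lam D : ℤ → ℝ) (y : ℤ) : ℝ := lam y + D (y - 1) + D (y + 1)

/-- node weight of a midpoint label, argument = sum of the two nodes -/
def kM (lam D : ℤ → ℝ) (z : ℤ) : ℝ :=
  if z % 2 = 0 then lam (z / 2)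
  else (lam ((z - 1) / 2) + lam ((z + 1) / 2)) / 2 + (D ((z - 1) / 2) + D ((z + 1) / 2)) / 4

lemma kE_core {lam D : ℤ → ℝ} (h : Kinks lam D) (y : ℤ) {s u : ℝ} (hs0 : 0 ≤ s) (hs1 : s ≤ 1)
    (hu0 : 0 ≤ u) (hu1 : u ≤ 1) :
    pl lam (y + 2 * u - s) ≤ (1 - s) * (1 - u) * kE lam D y + (1 - s) * u * kE lam D (y + 2)
      + s * (1 - u) * kE lam D (y - 1) + s * u * kE lam D (y + 1) := by
  have a0 := h.le y
  have a1 := h.le (y + 1)
  rw [show y + 1 - 1 = y by ring, show y + 1 + 1 = y + 2 by ring] at a1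
  have p0 := h.nonneg y
  have p1 := h.nonneg (y + 1)
  have key : pl lam (y + 2 * u - s) ≤ (1 - s) * (1 - u) * lam y + (1 - s) * u * lam (y + 2)
      + s * (1 - u) * lam (y - 1) + s * u * lam (y + 1) + (1 - s) * D (y + 1) + s * D y := by
    have e0 : 0 ≤ lam (y - 1) + lam (y + 1) - 2 * lam y + D y := by linarith
    have e1 : 0 ≤ lam y + lam (y + 2) - 2 * lam (y + 1) + D (y + 1) := by linarith
    set δ0 := lam (y - 1) + lam (y + 1) - 2 * lam y with hδ0
    set δ1 := lam y + lam (y + 2) - 2 * lam (y + 1) with hδ1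
    have hL : lam (y - 1) = 2 * lam y - lam (y + 1) + δ0 := by rw [hδ0]; ring
    have hR : lam (y + 2) = 2 * lam (y + 1) - lam y + δ1 := by rw [hδ1]; ring
    have q1 := mul_nonneg (mul_nonneg (sub_nonneg.2 hs1) hu0) e1
    have q2 := mul_nonneg (mul_nonneg (sub_nonneg.2 hs1) (sub_nonneg.2 hu1)) p1
    have q3 := mul_nonneg (mul_nonneg hs0 (sub_nonneg.2 hu1)) e0
    have q4 := mul_nonneg (mul_nonneg hs0 hu0) p0
    rcases le_total (2 * u - s) 0 with c | c
    · have hx := pl_of_mem lam (k := y - 1) (x := y + 2 * u - s) (by push_cast; linarith)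
        (by push_cast; linarith)
      rw [show y - 1 + 1 = y by ring] at hx
      rw [hx]
      push_cast
      rw [hL, hR]
      have q5 := mul_nonneg (mul_nonneg hu0 (by linarith : (0:ℝ) ≤ 2 - s)) e0
      have q6 : 0 ≤ (s - u * (2 - s)) * D y := by
        apply mul_nonneg _ p0
        nlinarith
      nlinarith
    · rcases le_total (2 * u - s) 1 with c' | c'
      · have hx := pl_of_mem lam (k := y) (x := y + 2 * u - s) (by linarith) (by linarith)
        rw [hx, hL, hR]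
        nlinarith
      · have hx := pl_of_mem lam (k := y + 1) (x := y + 2 * u - s) (by push_cast; linarith)
          (by push_cast; linarith)
        rw [show y + 1 + 1 = y + 2 by ring] at hx
        rw [hx]
        push_cast
        rw [hL, hR]
        have q5 := mul_nonneg (mul_nonneg (by linarith : (0:ℝ) ≤ 1 + s) (sub_nonneg.2 hu1)) e1
        have q6 : 0 ≤ ((1 - s) - (1 + s) * (1 - u)) * D (y + 1) := by
          apply mul_nonneg _ p1
          nlinarith
        nlinarith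
  refine key.trans ?_
  unfold kE
  have p2 := h.nonneg (y - 1)
  have p3 := h.nonneg (y + 3)
  have p4 := h.nonneg (y - 2)
  have p5 := h.nonneg (y + 2)
  rw [show y + 2 - 1 = y + 1 by ring, show y + 2 + 1 = y + 3 by ring,
    show y - 1 - 1 = y - 2 by ring, show y - 1 + 1 = y by ring,
    show y + 1 - 1 = y by ring, show y + 1 + 1 = y + 2 by ring]
  have r1 := mul_nonneg (mul_nonneg (sub_nonneg.2 hs1) (sub_nonneg.2 hu1)) p2
  have r2 := mul_nonneg (mul_nonneg (sub_nonneg.2 hs1) hu0) p3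
  have r3 := mul_nonneg (mul_nonneg hs0 (sub_nonneg.2 hu1)) p4
  have r4 := mul_nonneg (mul_nonneg hs0 hu0) p5
  nlinarith

lemma kM_core {lam D : ℤ → ℝ} (h : Kinks lam D) (i j : ℤ) {s u : ℝ} (hs0 : 0 ≤ s) (hs1 : s ≤ 1)
    (hu0 : 0 ≤ u) (hu1 : u ≤ 1) :
    pl lam (((i + s) + (j + u)) / 2) ≤ (1 - s) * (1 - u) * kM lam D (i + j)
      + (1 - s) * u * kM lam D (i + j + 1) + s * (1 - u) * kM lam D (i + j + 1)
      + s * u * kM lam D (i + j + 2) := by
  rcases Int.even_or_odd' (i + j) with ⟨k, hk | hk⟩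
  · -- even
    have e1 : (i : ℝ) + j = 2 * k := by exact_mod_cast hk
    have hx := pl_of_mem lam (k := k) (x := ((i + s) + (j + u)) / 2) (by linarith) (by linarith)
    rw [hx, hk]
    have k0 : kM lam D (2 * k) = lam k := by
      unfold kM
      rw [if_pos (by omega), show 2 * k / 2 = k by omega]
    have k1 : kM lam D (2 * k + 1) = (lam k + lam (k + 1)) / 2 + (D k + D (k + 1)) / 4 := by
      unfold kM
      rw [if_neg (by omega), show (2 * k + 1 - 1) / 2 = k by omega,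
        show (2 * k + 1 + 1) / 2 = k + 1 by omega]
    have k2 : kM lam D (2 * k + 2) = lam (k + 1) := by
      unfold kM
      rw [if_pos (by omega), show (2 * k + 2) / 2 = k + 1 by omega]
    rw [k0, k1, k2]
    have p0 := h.nonneg k
    have p1 := h.nonneg (k + 1)
    have r1 := mul_nonneg (mul_nonneg (sub_nonneg.2 hs1) hu0) p0
    have r2 := mul_nonneg (mul_nonneg hs0 (sub_nonneg.2 hu1)) p0
    have r3 := mul_nonneg (mul_nonneg (sub_nonneg.2 hs1) hu0) p1
    have r4 := mul_nonneg (mul_nonneg hs0 (sub_nonneg.2 hu1)) p1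
    have e2 : ((i + s) + (j + u)) / 2 = (k : ℝ) + (s + u) / 2 := by linarith
    rw [e2]
    nlinarith
  · -- odd
    have e1 : (i : ℝ) + j = 2 * k + 1 := by exact_mod_cast hk
    rw [hk]
    have k0 : kM lam D (2 * k + 1) = (lam k + lam (k + 1)) / 2 + (D k + D (k + 1)) / 4 := by
      unfold kM
      rw [if_neg (by omega), show (2 * k + 1 - 1) / 2 = k by omega,
        show (2 * k + 1 + 1) / 2 = k + 1 by omega]
    have k1 : kM lam D (2 * k + 1 + 1) = lam (k + 1) := by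
      unfold kM
      rw [if_pos (by omega), show (2 * k + 1 + 1) / 2 = k + 1 by omega]
    have k2 : kM lam D (2 * k + 1 + 2)
        = (lam (k + 1) + lam (k + 2)) / 2 + (D (k + 1) + D (k + 2)) / 4 := by
      unfold kM
      rw [if_neg (by omega), show (2 * k + 1 + 2 - 1) / 2 = k + 1 by omega,
        show (2 * k + 1 + 2 + 1) / 2 = k + 2 by omega]
    rw [k0, k1, k2]
    have p0 := h.nonneg k
    have p1 := h.nonneg (k + 1)
    have p2 := h.nonneg (k + 2)
    have a1 := h.le (k + 1)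
    rw [show k + 1 - 1 = k by ring, show k + 1 + 1 = k + 2 by ring] at a1
    have e2 : ((i + s) + (j + u)) / 2 = (k : ℝ) + 1 + (s + u - 1) / 2 := by linarith
    rw [e2]
    have r0 := mul_nonneg (mul_nonneg (sub_nonneg.2 hs1) (sub_nonneg.2 hu1)) p0
    have r2 := mul_nonneg (mul_nonneg hs0 hu0) p2
    have A0 := mul_nonneg (sub_nonneg.2 hs1) (sub_nonneg.2 hu1)
    have A1 := mul_nonneg hs0 hu0
    have e0 : 0 ≤ lam k + lam (k + 2) - 2 * lam (k + 1) + D (k + 1) := by linarith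
    set δ := lam k + lam (k + 2) - 2 * lam (k + 1) with hδ
    have hL : lam k = 2 * lam (k + 1) - lam (k + 2) + δ := by rw [hδ]; ring
    rcases le_total (s + u) 1 with c | c
    · have hx := pl_of_mem lam (k := k) (x := (k : ℝ) + 1 + (s + u - 1) / 2) (by linarith)
        (by linarith)
      rw [hx, hL]
      have t1 := mul_nonneg A1 e0
      have t2 := mul_nonneg (by linarith : (0:ℝ) ≤ 1 - s - u) p1
      nlinarith
    · have hx := pl_of_mem lam (k := k + 1) (x := (k : ℝ) + 1 + (s + u - 1) / 2)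
        (by push_cast; linarith) (by push_cast; linarith)
      rw [show k + 1 + 1 = k + 2 by ring] at hx
      rw [hx, hL]
      push_cast
      have t1 := mul_nonneg A0 e0
      have t2 := mul_nonneg (by linarith : (0:ℝ) ≤ s + u - 1) p1
      nlinarith

/-- double interpolation -/
lemma sum_hat2 {I J : Finset ℤ} {c d : ℝ} (hI : Near I c) (hJ : Near J d) (F : ℤ → ℤ → ℝ) :
    ∑ i ∈ I, ∑ j ∈ J, hat i c * hat j d * F i j
      = (1 - Int.fract c) * (1 - Int.fract d) * F ⌊c⌋ ⌊d⌋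
        + (1 - Int.fract c) * Int.fract d * F ⌊c⌋ (⌊d⌋ + 1)
        + Int.fract c * (1 - Int.fract d) * F (⌊c⌋ + 1) ⌊d⌋
        + Int.fract c * Int.fract d * F (⌊c⌋ + 1) (⌊d⌋ + 1) := by
  have h1 : ∀ i ∈ I, ∑ j ∈ J, hat i c * hat j d * F i j
      = hat i c * ((1 - Int.fract d) * F i ⌊d⌋ + Int.fract d * F i (⌊d⌋ + 1)) := by
    intro i _
    rw [← sum_hat hJ (fun j => F i j), mul_sum]
    exact sum_congr rfl fun j _ => by ring
  rw [sum_congr rfl h1, sum_hat hI]
  ring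

/-- (K1) END POINT LABELS -/
theorem pl_le_E {lam D : ℤ → ℝ} (h : Kinks lam D) {I J : Finset ℤ} {c d : ℝ} (hI : Near I c)
    (hJ : Near J d) :
    pl lam (2 * d - c) ≤ ∑ i ∈ I, ∑ j ∈ J, hat i c * hat j d * kE lam D (2 * j - i) := by
  rw [sum_hat2 hI hJ (fun i j => kE lam D (2 * j - i))]
  have h0 := kE_core h (2 * ⌊d⌋ - ⌊c⌋) (Int.fract_nonneg c) (Int.fract_lt_one c).le
    (Int.fract_nonneg d) (Int.fract_lt_one d).le
  have e : ((2 * ⌊d⌋ - ⌊c⌋ : ℤ) : ℝ) + 2 * Int.fract d - Int.fract c = 2 * d - c := by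
    have h1 := Int.floor_add_fract d
    have h2 := Int.floor_add_fract c
    push_cast
    linarith
  rw [e] at h0
  rw [show 2 * (⌊d⌋ + 1) - ⌊c⌋ = 2 * ⌊d⌋ - ⌊c⌋ + 2 by ring,
    show 2 * ⌊d⌋ - (⌊c⌋ + 1) = 2 * ⌊d⌋ - ⌊c⌋ - 1 by ring,
    show 2 * (⌊d⌋ + 1) - (⌊c⌋ + 1) = 2 * ⌊d⌋ - ⌊c⌋ + 1 by ring]
  exact h0

/-- (K2) MIDPOINT LABELS -/
theorem pl_le_M {lam D : ℤ → ℝ} (h : Kinks lam D) {I J : Finset ℤ} {c d : ℝ} (hI : Near I c)
    (hJ : Near J d) :
    pl lam ((c + d) / 2) ≤ ∑ i ∈ I, ∑ j ∈ J, hat i c * hat j d * kM lam D (i + j) := by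
  rw [sum_hat2 hI hJ (fun i j => kM lam D (i + j))]
  have h0 := kM_core h ⌊c⌋ ⌊d⌋ (Int.fract_nonneg c) (Int.fract_lt_one c).le
    (Int.fract_nonneg d) (Int.fract_lt_one d).le
  rw [Int.floor_add_fract c, Int.floor_add_fract d] at h0
  rw [show ⌊c⌋ + (⌊d⌋ + 1) = ⌊c⌋ + ⌊d⌋ + 1 by ring,
    show ⌊c⌋ + 1 + ⌊d⌋ = ⌊c⌋ + ⌊d⌋ + 1 by ring,
    show ⌊c⌋ + 1 + (⌊d⌋ + 1) = ⌊c⌋ + ⌊d⌋ + 2 by ring]
  exact h0

/-- (K3) a trilinear form whose node values are at most `C` is at most `C` -/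
theorem tri_le {I : Finset ℤ} {a b c : ℝ} (ha : Near I a) (hb : Near I b) (hc : Near I c)
    (F : ℤ → ℤ → ℤ → ℝ) {C : ℝ} (h : ∀ i ∈ I, ∀ j ∈ I, ∀ k ∈ I, F i j k ≤ C) :
    ∑ i ∈ I, ∑ j ∈ I, ∑ k ∈ I, hat i a * hat j b * hat k c * F i j k ≤ C := by
  have h1 : ∑ i ∈ I, ∑ j ∈ I, ∑ k ∈ I, hat i a * hat j b * hat k c * F i j k
      ≤ ∑ i ∈ I, ∑ j ∈ I, ∑ k ∈ I, hat i a * hat j b * hat k c * C := by
    refine sum_le_sum fun i hi => sum_le_sum fun j hj => sum_le_sum fun k hk => ?_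
    exact mul_le_mul_of_nonneg_left (h i hi j hj k hk)
      (mul_nonneg (mul_nonneg (hat_nonneg _ _) (hat_nonneg _ _)) (hat_nonneg _ _))
  refine h1.trans (le_of_eq ?_)
  have h2 : ∑ i ∈ I, ∑ j ∈ I, ∑ k ∈ I, hat i a * hat j b * hat k c * C
      = (∑ i ∈ I, hat i a) * (∑ j ∈ I, hat j b) * (∑ k ∈ I, hat k c) * C := by
    rw [sum_mul_sum, sum_mul, sum_mul]
    refine sum_congr rfl fun i _ => ?_
    rw [sum_mul, sum_mul]
    refine sum_congr rfl fun j _ => ?_
    rw [mul_sum, sum_mul]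
  rw [h2, sum_hat_one ha, sum_hat_one hb, sum_hat_one hc]
  ring

end

end MP61673a.Kink
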