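import Pool.Agent.Mu673.Kink

/-!
The sharper kink rule of helper44: end point labels
`K y = lam y + D y / 4 + .5845 (D (y-1) + D (y+1))`, midpoints
`Mi (2k) = lam k + D k / 4`, `Mi (2k+1) = (lam k + lam (k+1)) / 2`.
-/

set_option autoImplicit false

namespace MP61673a.Kink

open Finset

noncomputable section

/-- node weight of an end point label -/
def eK (lam D : ℤ → ℝ) (y : ℤ) : ℝ := lam y + D y / 4 + 1169 / 2000 * (D (y - 1) + D (y + 1))

/-- node weight of a midpoint label, argument = sum of the two nodes -/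
def mK (lam D : ℤ → ℝ) (z : ℤ) : ℝ :=
  if z % 2 = 0 then lam (z / 2) + D (z / 2) / 4
  else (lam ((z - 1) / 2) + lam ((z + 1) / 2)) / 2

/-- the kink inequality -/
lemma kink_aux {s u : ℝ} (hs0 : 0 ≤ s) (hs1 : s ≤ 1) (hu0 : 0 ≤ u) (hu1 : u ≤ 1) :
    (2 * u ≤ s → u * (2 - s) ≤ (1 - s) * (1 - u) / 4 + 1169 / 2000 * s)
      ∧ (s ≤ 2 * u → s * (1 - u) ≤ (1 - s) * (1 - u) / 4 + 1169 / 2000 * s) := by
  have q : 0 ≤ 1 / 4 + (1169 / 2000 - 11 / 8) * s + 5 / 8 * s ^ 2 := by
    nlinarith [sq_nonneg (s - 3162 / 5000)]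
  constructor
  · intro h
    have h1 : 0 ≤ (s / 2 - u) * ((1 - s) / 4 + 2 - s) :=
      mul_nonneg (by linarith) (by linarith)
    nlinarith
  · intro h
    rcases le_total s ((1 - s) / 4) with c | c
    · have h1 : 0 ≤ ((1 - s) / 4 - s) * (1 - u) := mul_nonneg (by linarith) (by linarith)
      nlinarith
    · have h1 : 0 ≤ (u - s / 2) * (s - (1 - s) / 4) := mul_nonneg (by linarith) (by linarith)
      nlinarith

lemma eK_core {lam D : ℤ → ℝ} (h : Kinks lam D) (y : ℤ) {s u : ℝ} (hs0 : 0 ≤ s) (hs1 : s ≤ 1)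
    (hu0 : 0 ≤ u) (hu1 : u ≤ 1) :
    pl lam (y + 2 * u - s) ≤ (1 - s) * (1 - u) * eK lam D y + (1 - s) * u * eK lam D (y + 2)
      + s * (1 - u) * eK lam D (y - 1) + s * u * eK lam D (y + 1) := by
  have a0 := h.le y
  have a1 := h.le (y + 1)
  rw [show y + 1 - 1 = y by ring, show y + 1 + 1 = y + 2 by ring] at a1
  have p0 := h.nonneg y
  have p1 := h.nonneg (y + 1)
  have key : pl lam (y + 2 * u - s) ≤ (1 - s) * (1 - u) * lam y + (1 - s) * u * lam (y + 2)
      + s * (1 - u) * lam (y - 1) + s * u * lam (y + 1)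
      + ((1 - s) * (1 - u) / 4 + 1169 / 2000 * s) * D y
      + (s * u / 4 + 1169 / 2000 * (1 - s)) * D (y + 1) := by
    obtain ⟨k1, k2⟩ := kink_aux hs0 hs1 hu0 hu1
    obtain ⟨k3, k4⟩ := kink_aux (s := 1 - s) (u := 1 - u) (by linarith) (by linarith)
      (by linarith) (by linarith)
    have e0 : 0 ≤ lam (y - 1) + lam (y + 1) - 2 * lam y + D y := by linarith
    have e1 : 0 ≤ lam y + lam (y + 2) - 2 * lam (y + 1) + D (y + 1) := by linarith
    set δ0 := lam (y - 1) + lam (y + 1) - 2 * lam y with hδ0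
    set δ1 := lam y + lam (y + 2) - 2 * lam (y + 1) with hδ1
    have hL : lam (y - 1) = 2 * lam y - lam (y + 1) + δ0 := by rw [hδ0]; ring
    have hR : lam (y + 2) = 2 * lam (y + 1) - lam y + δ1 := by rw [hδ1]; ring
    rcases le_total (2 * u - s) 0 with c | c
    · have hx := pl_of_mem lam (k := y - 1) (x := y + 2 * u - s) (by push_cast; linarith)
        (by push_cast; linarith)
      rw [show y - 1 + 1 = y by ring] at hx
      rw [hx]
      push_cast
      rw [hL, hR]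
      have q1 := mul_nonneg (mul_nonneg hu0 (by linarith : (0:ℝ) ≤ 2 - s)) e0
      have q2 := mul_nonneg (sub_nonneg.2 (k1 (by linarith))) p0
      have q3 := mul_nonneg (mul_nonneg (sub_nonneg.2 hs1) hu0) e1
      have q4 := mul_nonneg (sub_nonneg.2 (k4 (by linarith))) p1
      nlinarith
    · rcases le_total (2 * u - s) 1 with c' | c'
      · have hx := pl_of_mem lam (k := y) (x := y + 2 * u - s) (by linarith) (by linarith)
        rw [hx, hL, hR]
        have q1 := mul_nonneg (mul_nonneg hs0 (sub_nonneg.2 hu1)) e0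
        have q2 := mul_nonneg (sub_nonneg.2 (k2 (by linarith))) p0
        have q3 := mul_nonneg (mul_nonneg (sub_nonneg.2 hs1) hu0) e1
        have q4 := mul_nonneg (sub_nonneg.2 (k4 (by linarith))) p1
        nlinarith
      · have hx := pl_of_mem lam (k := y + 1) (x := y + 2 * u - s) (by push_cast; linarith)
          (by push_cast; linarith)
        rw [show y + 1 + 1 = y + 2 by ring] at hx
        rw [hx]
        push_cast
        rw [hL, hR]
        have q1 := mul_nonneg (mul_nonneg hs0 (sub_nonneg.2 hu1)) e0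
        have q2 := mul_nonneg (sub_nonneg.2 (k2 (by linarith))) p0
        have q3 := mul_nonneg (mul_nonneg (sub_nonneg.2 hu1) (by linarith : (0:ℝ) ≤ 1 + s)) e1
        have q4 := mul_nonneg (sub_nonneg.2 (k3 (by linarith))) p1
        nlinarith
  refine key.trans ?_
  unfold eK
  have p2 := h.nonneg (y - 1)
  have p3 := h.nonneg (y + 3)
  have p4 := h.nonneg (y - 2)
  have p5 := h.nonneg (y + 2)
  rw [show y + 2 - 1 = y + 1 by ring, show y + 2 + 1 = y + 3 by ring,
    show y - 1 - 1 = y - 2 by ring, show y - 1 + 1 = y by ring,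
    show y + 1 - 1 = y by ring, show y + 1 + 1 = y + 2 by ring]
  have r1 := mul_nonneg (mul_nonneg (sub_nonneg.2 hs1) (sub_nonneg.2 hu1)) p2
  have r2 := mul_nonneg (mul_nonneg (sub_nonneg.2 hs1) hu0) p3
  have r3 := mul_nonneg (mul_nonneg hs0 (sub_nonneg.2 hu1)) p4
  have r4 := mul_nonneg (mul_nonneg hs0 hu0) p5
  have r5 := mul_nonneg (mul_nonneg (sub_nonneg.2 hs1) hu0) p5
  have r6 := mul_nonneg (mul_nonneg hs0 (sub_nonneg.2 hu1)) p2
  nlinarith

lemma mK_core {lam D : ℤ → ℝ} (h : Kinks lam D) (i j : ℤ) {s u : ℝ} (hs0 : 0 ≤ s) (hs1 : s ≤ 1)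
    (hu0 : 0 ≤ u) (hu1 : u ≤ 1) :
    pl lam (((i + s) + (j + u)) / 2) ≤ (1 - s) * (1 - u) * mK lam D (i + j)
      + (1 - s) * u * mK lam D (i + j + 1) + s * (1 - u) * mK lam D (i + j + 1)
      + s * u * mK lam D (i + j + 2) := by
  rcases Int.even_or_odd' (i + j) with ⟨k, hk | hk⟩
  · -- even
    have e1 : (i : ℝ) + j = 2 * k := by exact_mod_cast hk
    have hx := pl_of_mem lam (k := k) (x := ((i + s) + (j + u)) / 2) (by linarith) (by linarith)
    rw [hx, hk]
    have k0 : mK lam D (2 * k) = lam k + D k / 4 := by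
      unfold mK
      rw [if_pos (by omega), show 2 * k / 2 = k by omega]
    have k1 : mK lam D (2 * k + 1) = (lam k + lam (k + 1)) / 2 := by
      unfold mK
      rw [if_neg (by omega), show (2 * k + 1 - 1) / 2 = k by omega,
        show (2 * k + 1 + 1) / 2 = k + 1 by omega]
    have k2 : mK lam D (2 * k + 2) = lam (k + 1) + D (k + 1) / 4 := by
      unfold mK
      rw [if_pos (by omega), show (2 * k + 2) / 2 = k + 1 by omega]
    rw [k0, k1, k2]
    have p0 := h.nonneg k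
    have p1 := h.nonneg (k + 1)
    have r1 := mul_nonneg (mul_nonneg (sub_nonneg.2 hs1) (sub_nonneg.2 hu1)) p0
    have r2 := mul_nonneg (mul_nonneg hs0 hu0) p1
    have e2 : ((i + s) + (j + u)) / 2 = (k : ℝ) + (s + u) / 2 := by linarith
    rw [e2]
    nlinarith
  · -- odd
    have e1 : (i : ℝ) + j = 2 * k + 1 := by exact_mod_cast hk
    rw [hk]
    have k0 : mK lam D (2 * k + 1) = (lam k + lam (k + 1)) / 2 := by
      unfold mK
      rw [if_neg (by omega), show (2 * k + 1 - 1) / 2 = k by omega,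
        show (2 * k + 1 + 1) / 2 = k + 1 by omega]
    have k1 : mK lam D (2 * k + 1 + 1) = lam (k + 1) + D (k + 1) / 4 := by
      unfold mK
      rw [if_pos (by omega), show (2 * k + 1 + 1) / 2 = k + 1 by omega]
    have k2 : mK lam D (2 * k + 1 + 2)
        = (lam (k + 1) + lam (k + 2)) / 2 := by
      unfold mK
      rw [if_neg (by omega), show (2 * k + 1 + 2 - 1) / 2 = k + 1 by omega,
        show (2 * k + 1 + 2 + 1) / 2 = k + 2 by omega]
    rw [k0, k1, k2]
    have p1 := h.nonneg (k + 1)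
    have a1 := h.le (k + 1)
    rw [show k + 1 - 1 = k by ring, show k + 1 + 1 = k + 2 by ring] at a1
    have e2 : ((i + s) + (j + u)) / 2 = (k : ℝ) + 1 + (s + u - 1) / 2 := by linarith
    rw [e2]
    have A0 := mul_nonneg (sub_nonneg.2 hs1) (sub_nonneg.2 hu1)
    have A1 := mul_nonneg hs0 hu0
    have e0 : 0 ≤ lam k + lam (k + 2) - 2 * lam (k + 1) + D (k + 1) := by linarith
    set δ := lam k + lam (k + 2) - 2 * lam (k + 1) with hδ
    have hL : lam k = 2 * lam (k + 1) - lam (k + 2) + δ := by rw [hδ]; ring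
    rcases le_total (s + u) 1 with c | c
    · have hx := pl_of_mem lam (k := k) (x := (k : ℝ) + 1 + (s + u - 1) / 2) (by linarith)
        (by linarith)
      rw [hx, hL]
      have t1 := mul_nonneg A1 e0
      have t0 : 0 ≤ s + u - 4 * (s * u) := by
        nlinarith [sq_nonneg (s - u), mul_nonneg (add_nonneg hs0 hu0)
          (by linarith : (0:ℝ) ≤ 1 - s - u)]
      have t2 := mul_nonneg t0 p1
      nlinarith
    · have hx := pl_of_mem lam (k := k + 1) (x := (k : ℝ) + 1 + (s + u - 1) / 2)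
        (by push_cast; linarith) (by push_cast; linarith)
      rw [show k + 1 + 1 = k + 2 by ring] at hx
      rw [hx, hL]
      push_cast
      have t1 := mul_nonneg A0 e0
      have t0 : 0 ≤ (1 - s) + (1 - u) - 4 * ((1 - s) * (1 - u)) := by
        nlinarith [sq_nonneg (s - u), mul_nonneg (by linarith : (0:ℝ) ≤ (1 - s) + (1 - u))
          (by linarith : (0:ℝ) ≤ s + u - 1)]
      have t2 := mul_nonneg t0 p1
      nlinarith

/-- END POINT LABELS, sharper rule -/
theorem pl_le_eK {lam D : ℤ → ℝ} (h : Kinks lam D) {I J : Finset ℤ} {c d : ℝ} (hI : Near I c)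
    (hJ : Near J d) :
    pl lam (2 * d - c) ≤ ∑ i ∈ I, ∑ j ∈ J, hat i c * hat j d * eK lam D (2 * j - i) := by
  rw [sum_hat2 hI hJ (fun i j => eK lam D (2 * j - i))]
  have h0 := eK_core h (2 * ⌊d⌋ - ⌊c⌋) (Int.fract_nonneg c) (Int.fract_lt_one c).le
    (Int.fract_nonneg d) (Int.fract_lt_one d).le
  have e : ((2 * ⌊d⌋ - ⌊c⌋ : ℤ) : ℝ) + 2 * Int.fract d - Int.fract c = 2 * d - c := by
    have h1 := Int.floor_add_fract d
    have h2 := Int.floor_add_fract c
    push_cast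
    linarith
  rw [e] at h0
  rw [show 2 * (⌊d⌋ + 1) - ⌊c⌋ = 2 * ⌊d⌋ - ⌊c⌋ + 2 by ring,
    show 2 * ⌊d⌋ - (⌊c⌋ + 1) = 2 * ⌊d⌋ - ⌊c⌋ - 1 by ring,
    show 2 * (⌊d⌋ + 1) - (⌊c⌋ + 1) = 2 * ⌊d⌋ - ⌊c⌋ + 1 by ring]
  exact h0

/-- MIDPOINT LABELS, sharper rule -/
theorem pl_le_mK {lam D : ℤ → ℝ} (h : Kinks lam D) {I J : Finset ℤ} {c d : ℝ} (hI : Near I c)
    (hJ : Near J d) :
    pl lam ((c + d) / 2) ≤ ∑ i ∈ I, ∑ j ∈ J, hat i c * hat j d * mK lam D (i + j) := by
  rw [sum_hat2 hI hJ (fun i j => mK lam D (i + j))]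
  have h0 := mK_core h ⌊c⌋ ⌊d⌋ (Int.fract_nonneg c) (Int.fract_lt_one c).le
    (Int.fract_nonneg d) (Int.fract_lt_one d).le
  rw [Int.floor_add_fract c, Int.floor_add_fract d] at h0
  rw [show ⌊c⌋ + (⌊d⌋ + 1) = ⌊c⌋ + ⌊d⌋ + 1 by ring,
    show ⌊c⌋ + 1 + ⌊d⌋ = ⌊c⌋ + ⌊d⌋ + 1 by ring,
    show ⌊c⌋ + 1 + (⌊d⌋ + 1) = ⌊c⌋ + ⌊d⌋ + 2 by ring]
  exact h0

end

end MP61673a.Kink
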