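import Pool.Agent.Mu673.Step
import Pool.Agent.Mu673.Kink4

/-!
FREE KINK CORRECTION (helper55): `lam` node values of a piecewise linear label function, `G` node
values used in the certificate (`G = lam + e`, `e` a free nonnegative correction). If on the two
slanted lines of every cell the bilinear interpolation of `G` is above `lam` (a quadratic with three
Bernstein coefficients), then `pl lam (σ a + 2 τ b)` is at most the interpolation of
`G (σ i + 2 τ j)`, at every real position.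
-/

set_option autoImplicit false

namespace MP61673a.Kink

open Finset

noncomputable section

/-- the quadratic with Bernstein coefficients `b0, b1, b2` is nonnegative on `[0,1]` -/
def QN (b0 b1 b2 : ℝ) : Prop :=
  ∀ s : ℝ, 0 ≤ s → s ≤ 1 → 0 ≤ b0 * (1 - s) ^ 2 + 2 * b1 * (s * (1 - s)) + b2 * s ^ 2

/-- no subdivision -/
lemma qn_of_nonneg {b0 b1 b2 : ℝ} (h0 : 0 ≤ b0) (h1 : 0 ≤ b1) (h2 : 0 ≤ b2) : QN b0 b1 b2 := by
  intro s hs0 hs1
  have a0 := mul_nonneg h0 (sq_nonneg (1 - s))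
  have a1 := mul_nonneg h1 (mul_nonneg hs0 (sub_nonneg.2 hs1))
  have a2 := mul_nonneg h2 (sq_nonneg s)
  linarith

/-- subdivision at `1/2` -/
lemma qn_split {b0 b1 b2 : ℝ} (hl : QN b0 ((b0 + b1) / 2) ((b0 + 2 * b1 + b2) / 4))
    (hr : QN ((b0 + 2 * b1 + b2) / 4) ((b1 + b2) / 2) b2) : QN b0 b1 b2 := by
  intro s hs0 hs1
  rcases le_total s (1 / 2) with c | c
  · have h := hl (2 * s) (by linarith) (by linarith)
    refine h.trans (le_of_eq ?_)
    ring
  · have h := hr (2 * s - 1) (by linarith) (by linarith)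
    refine h.trans (le_of_eq ?_)
    ring

/-- helper55's list: subdivision at `1/2` and `3/4` -/
lemma qn_of_six {b0 b1 b2 : ℝ} (h0 : 0 ≤ b0) (h1 : 0 ≤ b0 + b1) (h2 : 0 ≤ b0 + 2 * b1 + b2)
    (h3 : 0 ≤ b0 + 4 * b1 + 3 * b2) (h4 : 0 ≤ b0 + 6 * b1 + 9 * b2) (h5 : 0 ≤ b1 + 3 * b2)
    (h6 : 0 ≤ b2) : QN b0 b1 b2 := by
  refine qn_split (qn_of_nonneg h0 (by linarith) (by linarith)) (qn_split ?_ ?_)
  · exact qn_of_nonneg (by linarith) (by linarith) (by linarith)
  · exact qn_of_nonneg (by linarith) (by linarith) h6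

/-- exact condition -/
lemma qn_of_disc {b0 b1 b2 : ℝ} (h0 : 0 ≤ b0) (h2 : 0 ≤ b2) (h1 : 0 ≤ b1 ∨ b1 ^ 2 ≤ b0 * b2) :
    QN b0 b1 b2 := by
  rcases h1 with h1 | h1
  · exact qn_of_nonneg h0 h1 h2
  · intro s hs0 hs1
    rcases eq_or_lt_of_le h0 with h | h
    · rw [← h, zero_mul] at h1
      have : b1 = 0 := by
        have := sq_nonneg b1
        exact pow_eq_zero_iff (two_ne_zero) |>.1 (le_antisymm h1 this)
      rw [← h, this]
      have a2 := mul_nonneg h2 (sq_nonneg s)
      linarith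
    · have a1 : 0 ≤ (b0 * (1 - s) + b1 * s) ^ 2 + (b0 * b2 - b1 ^ 2) * s ^ 2 :=
        add_nonneg (sq_nonneg _) (mul_nonneg (by linarith) (sq_nonneg s))
      have a2 : (b0 * (1 - s) + b1 * s) ^ 2 + (b0 * b2 - b1 ^ 2) * s ^ 2
          = b0 * (b0 * (1 - s) ^ 2 + 2 * b1 * (s * (1 - s)) + b2 * s ^ 2) := by ring
      rw [a2] at a1
      exact nonneg_of_mul_nonneg_right a1 h

/-- the correction condition: `G` nodes above `lam` on the lines `x = m` through the cells -/
structure KinkF (lam G : ℤ → ℝ) : Prop where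
  le : ∀ m, lam m ≤ G m
  lo : ∀ m, QN (G m - lam m) (G m / 4 + G (m + 2) / 4 + G (m - 1) / 2 - lam m)
    ((G (m - 1) + G (m + 1)) / 2 - lam m)
  hi : ∀ m, QN (G m - lam m) (G m / 4 + G (m - 2) / 4 + G (m + 1) / 2 - lam m)
    ((G (m + 1) + G (m - 1)) / 2 - lam m)

/-- bilinear interpolation on one cell -/
def bl (G : ℤ → ℝ) (M : ℤ) (s u : ℝ) : ℝ :=
  (1 - s) * (1 - u) * G M + s * (1 - u) * G (M + 1) + (1 - s) * u * G (M + 2) + s * u * G (M + 3)

lemma bl_line1 {lam G : ℤ → ℝ} (h : KinkF lam G) (M : ℤ) {s : ℝ} (hs0 : 0 ≤ s) (hs1 : s ≤ 1) :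
    lam (M + 1) ≤ bl G M s ((1 - s) / 2) := by
  have q := h.lo (M + 1) (1 - s) (by linarith) (by linarith)
  rw [show M + 1 + 2 = M + 3 by ring, show M + 1 - 1 = M by ring,
    show M + 1 + 1 = M + 2 by ring] at q
  have e : bl G M s ((1 - s) / 2) - lam (M + 1)
      = (G (M + 1) - lam (M + 1)) * (1 - (1 - s)) ^ 2
        + 2 * (G (M + 1) / 4 + G (M + 3) / 4 + G M / 2 - lam (M + 1)) * ((1 - s) * (1 - (1 - s)))
        + ((G M + G (M + 2)) / 2 - lam (M + 1)) * (1 - s) ^ 2 := by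
    unfold bl
    ring
  linarith

lemma bl_line2 {lam G : ℤ → ℝ} (h : KinkF lam G) (M : ℤ) {s : ℝ} (hs0 : 0 ≤ s) (hs1 : s ≤ 1) :
    lam (M + 2) ≤ bl G M s (1 - s / 2) := by
  have q := h.hi (M + 2) s hs0 hs1
  rw [show M + 2 - 2 = M by ring, show M + 2 + 1 = M + 3 by ring,
    show M + 2 - 1 = M + 1 by ring] at q
  have e : bl G M s (1 - s / 2) - lam (M + 2)
      = (G (M + 2) - lam (M + 2)) * (1 - s) ^ 2
        + 2 * (G (M + 2) / 4 + G M / 4 + G (M + 3) / 2 - lam (M + 2)) * (s * (1 - s))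
        + ((G (M + 3) + G (M + 1)) / 2 - lam (M + 2)) * s ^ 2 := by
    unfold bl
    ring
  linarith

/-- one cell: corner labels `M, M+1, M+2, M+3` -/
lemma kinkF_core {lam G : ℤ → ℝ} (h : KinkF lam G) (M : ℤ) {s u : ℝ} (hs0 : 0 ≤ s) (hs1 : s ≤ 1)
    (hu0 : 0 ≤ u) (hu1 : u ≤ 1) :
    pl lam (M + s + 2 * u) ≤ (1 - s) * (1 - u) * G M + s * (1 - u) * G (M + 1)
      + (1 - s) * u * G (M + 2) + s * u * G (M + 3) := by
  have l1 := bl_line1 h M hs0 hs1
  have l2 := bl_line2 h M hs0 hs1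
  have g0 := h.le M
  have g1 := h.le (M + 1)
  have g2 := h.le (M + 2)
  have g3 := h.le (M + 3)
  change _ ≤ bl G M s u
  rcases le_total (s + 2 * u) 1 with c | c
  · -- first strip
    have hx := pl_of_mem lam (k := M) (x := M + s + 2 * u) (by linarith) (by linarith)
    rw [hx]
    have a0 : (1 - s) * lam M + s * lam (M + 1) ≤ bl G M s 0 := by
      have b0 := mul_le_mul_of_nonneg_left g0 (sub_nonneg.2 hs1)
      have b1 := mul_le_mul_of_nonneg_left g1 hs0
      unfold bl
      linarith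
    rcases eq_or_lt_of_le hs1 with e | e
    · have hu : u = 0 := by linarith
      subst hu
      rw [e] at a0 ⊢
      linarith
    · have w1 : 0 ≤ (1 - s - 2 * u) * (bl G M s 0 - ((1 - s) * lam M + s * lam (M + 1))) :=
        mul_nonneg (by linarith) (by linarith)
      have w2 : 0 ≤ 2 * u * (bl G M s ((1 - s) / 2) - lam (M + 1)) :=
        mul_nonneg (by linarith) (by linarith)
      have e2 : (1 - s) * (bl G M s u - (((M:ℝ) + 1 - (M + s + 2 * u)) * lam M
            + ((M:ℝ) + s + 2 * u - M) * lam (M + 1)))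
          = (1 - s - 2 * u) * (bl G M s 0 - ((1 - s) * lam M + s * lam (M + 1)))
            + 2 * u * (bl G M s ((1 - s) / 2) - lam (M + 1)) := by
        unfold bl
        ring
      have w3 := nonneg_of_mul_nonneg_right (by rw [e2]; linarith) (sub_pos.2 e)
      linarith
  · rcases le_total (s + 2 * u) 2 with c' | c'
    · -- middle strip
      have hx := pl_of_mem lam (k := M + 1) (x := M + s + 2 * u) (by push_cast; linarith)
        (by push_cast; linarith)
      rw [hx, show M + 1 + 1 = M + 2 by ring]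
      have w1 : 0 ≤ (2 - s - 2 * u) * (bl G M s ((1 - s) / 2) - lam (M + 1)) :=
        mul_nonneg (by linarith) (by linarith)
      have w2 : 0 ≤ (s + 2 * u - 1) * (bl G M s (1 - s / 2) - lam (M + 2)) :=
        mul_nonneg (by linarith) (by linarith)
      have e2 : bl G M s u - ((((M + 1 : ℤ) : ℝ) + 1 - (M + s + 2 * u)) * lam (M + 1)
            + ((M:ℝ) + s + 2 * u - ((M + 1 : ℤ) : ℝ)) * lam (M + 2))
          = (2 - s - 2 * u) * (bl G M s ((1 - s) / 2) - lam (M + 1))
            + (s + 2 * u - 1) * (bl G M s (1 - s / 2) - lam (M + 2)) := by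
        unfold bl
        push_cast
        ring
      linarith
    · -- last strip
      have hx := pl_of_mem lam (k := M + 2) (x := M + s + 2 * u) (by push_cast; linarith)
        (by push_cast; linarith)
      rw [hx, show M + 2 + 1 = M + 3 by ring]
      have a0 : (1 - s) * lam (M + 2) + s * lam (M + 3) ≤ bl G M s 1 := by
        have b0 := mul_le_mul_of_nonneg_left g2 (sub_nonneg.2 hs1)
        have b1 := mul_le_mul_of_nonneg_left g3 hs0
        unfold bl
        linarith
      rcases eq_or_lt_of_le hs0 with e | e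
      · have hu : u = 1 := by linarith
        subst hu
        rw [← e] at a0 ⊢
        push_cast
        linarith
      · have w1 : 0 ≤ (s + 2 * u - 2) * (bl G M s 1
            - ((1 - s) * lam (M + 2) + s * lam (M + 3))) :=
          mul_nonneg (by linarith) (by linarith)
        have w2 : 0 ≤ 2 * (1 - u) * (bl G M s (1 - s / 2) - lam (M + 2)) :=
          mul_nonneg (by linarith) (by linarith)
        have e2 : s * (bl G M s u - ((((M + 2 : ℤ) : ℝ) + 1 - (M + s + 2 * u)) * lam (M + 2)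
              + ((M:ℝ) + s + 2 * u - ((M + 2 : ℤ) : ℝ)) * lam (M + 3)))
            = (s + 2 * u - 2) * (bl G M s 1 - ((1 - s) * lam (M + 2) + s * lam (M + 3)))
              + 2 * (1 - u) * (bl G M s (1 - s / 2) - lam (M + 2)) := by
          unfold bl
          push_cast
          ring
        have w3 := nonneg_of_mul_nonneg_right (by rw [e2]; linarith) e
        linarith

/-- FREE CORRECTION, all signs: `x = σ a + 2 τ b` -/
theorem plF_le {lam G : ℤ → ℝ} (h : KinkF lam G) {I J : Finset ℤ} {a b : ℝ} (hI : Near I a)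
    (hJ : Near J b) {σ τ : ℤ} (hσ : σ = 1 ∨ σ = -1) (hτ : τ = 1 ∨ τ = -1) :
    pl lam (σ * a + 2 * (τ * b))
      ≤ ∑ i ∈ I, ∑ j ∈ J, hat i a * hat j b * G (σ * i + 2 * (τ * j)) := by
  obtain ⟨m, n, s, u, hs0, hs1, hu0, hu1, e1, e2, g⟩ := sum2_sign hI hJ hσ hτ
  rw [g (fun i j => G (i + 2 * j))]
  have h0 := kinkF_core h (m + 2 * n) hs0 hs1 hu0 hu1
  rw [show m + 2 * n + 1 = m + 1 + 2 * n by ring, show m + 2 * n + 2 = m + 2 * (n + 1) by ring,
    show m + 2 * n + 3 = m + 1 + 2 * (n + 1) by ring] at h0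
  rw [← e1, ← e2]
  refine le_trans (le_of_eq ?_) h0
  congr 1
  push_cast
  ring

/-- minorant form: `G` below `lam` -/
theorem plF_ge {lam G : ℤ → ℝ} (h : KinkF (fun m => -lam m) (fun m => -G m)) {I J : Finset ℤ}
    {a b : ℝ} (hI : Near I a) (hJ : Near J b) {σ τ : ℤ} (hσ : σ = 1 ∨ σ = -1)
    (hτ : τ = 1 ∨ τ = -1) :
    ∑ i ∈ I, ∑ j ∈ J, hat i a * hat j b * G (σ * i + 2 * (τ * j))
      ≤ pl lam (σ * a + 2 * (τ * b)) := by
  have h1 := plF_le h hI hJ hσ hτ
  have h2 : pl (fun m => -lam m) (σ * a + 2 * (τ * b)) = -pl lam (σ * a + 2 * (τ * b)) := by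
    unfold pl
    ring
  have h3 : ∑ i ∈ I, ∑ j ∈ J, hat i a * hat j b * (fun m => -G m) (σ * i + 2 * (τ * j))
      = -∑ i ∈ I, ∑ j ∈ J, hat i a * hat j b * G (σ * i + 2 * (τ * j)) := by
    rw [← sum_neg_distrib]
    refine sum_congr rfl fun i _ => ?_
    rw [← sum_neg_distrib]
    exact sum_congr rfl fun j _ => by ring
  rw [h2, h3] at h1
  linarith

/-- END POINT LABELS `2 d - c` (format of `pl_le_E`, `pl_le_eK`) -/
theorem pl_le_F {lam G : ℤ → ℝ} (h : KinkF lam G) {I J : Finset ℤ} {c d : ℝ} (hI : Near I c)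
    (hJ : Near J d) :
    pl lam (2 * d - c) ≤ ∑ i ∈ I, ∑ j ∈ J, hat i c * hat j d * G (2 * j - i) := by
  have h1 := plF_le h hI hJ (σ := -1) (τ := 1) (Or.inr rfl) (Or.inl rfl)
  have e : ((-1 : ℤ) : ℝ) * c + 2 * (((1 : ℤ) : ℝ) * d) = 2 * d - c := by
    push_cast
    ring
  rw [e] at h1
  refine h1.trans (le_of_eq ?_)
  refine sum_congr rfl fun i _ => sum_congr rfl fun j _ => ?_
  rw [show -1 * i + 2 * (1 * j) = 2 * j - i by ring]

/-! ### Checkable form -/

/-- the list of linear inequalities at one label for `G = lam + e` -/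
def Six (b0 b1 b2 : ℝ) : Prop :=
  0 ≤ b0 + b1 ∧ 0 ≤ b0 + 2 * b1 + b2 ∧ 0 ≤ b0 + 4 * b1 + 3 * b2 ∧ 0 ≤ b0 + 6 * b1 + 9 * b2 ∧
    0 ≤ b1 + 3 * b2 ∧ 0 ≤ b2

lemma kinkF_of_six {lam G : ℤ → ℝ} (h0 : ∀ m, lam m ≤ G m)
    (h1 : ∀ m, Six (G m - lam m) (G m / 4 + G (m + 2) / 4 + G (m - 1) / 2 - lam m)
      ((G (m - 1) + G (m + 1)) / 2 - lam m))
    (h2 : ∀ m, Six (G m - lam m) (G m / 4 + G (m - 2) / 4 + G (m + 1) / 2 - lam m)
      ((G (m + 1) + G (m - 1)) / 2 - lam m)) : KinkF lam G where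
  le := h0
  lo := fun m => by
    obtain ⟨a1, a2, a3, a4, a5, a6⟩ := h1 m
    exact qn_of_six (by linarith [h0 m]) a1 a2 a3 a4 a5 a6
  hi := fun m => by
    obtain ⟨a1, a2, a3, a4, a5, a6⟩ := h2 m
    exact qn_of_six (by linarith [h0 m]) a1 a2 a3 a4 a5 a6

/-! ### Steps at a node: one combined label function -/

lemma pl_add (f g : ℤ → ℝ) (x : ℝ) : pl (fun m => f m + g m) x = pl f x + pl g x := by
  unfold pl
  ring

lemma pl_smul (c : ℝ) (f : ℤ → ℝ) (x : ℝ) : pl (fun m => c * f m) x = c * pl f x := by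
  unfold pl
  ring

/-- node function of the step at `c` -/
def sn (c m : ℤ) : ℝ := if c ≤ m then 1 else 0

lemma sn_le_one (c m : ℤ) : sn c m ≤ 1 := by
  unfold sn
  split_ifs <;> norm_num

lemma sn_nonneg (c m : ℤ) : 0 ≤ sn c m := by
  unfold sn
  split_ifs <;> norm_num

/-- the non strict step is below the ramp on `[c-1,c]` -/
lemma stE_le_pl (c : ℤ) (x : ℝ) : stE (x - c) ≤ pl (sn c) x := by
  have h0 := Int.fract_nonneg x
  have h1 := Int.fract_lt_one x
  rcases lt_or_ge (x - c) 0 with h | h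
  · rw [stE_of_neg h]
    exact pl_nonneg (sn_nonneg c) x
  · rw [stE_of_nonneg h]
    have h2 : c ≤ ⌊x⌋ := Int.le_floor.2 (by linarith)
    unfold pl sn
    rw [if_pos h2, if_pos (by omega)]
    linarith

/-- the strict step is above the ramp on `[c,c+1]` -/
lemma pl_le_st (c : ℤ) (x : ℝ) : pl (sn (c + 1)) x ≤ st (x - c) := by
  have h0 := Int.fract_nonneg x
  have h1 := Int.fract_lt_one x
  rcases lt_or_ge 0 (x - c) with h | h
  · rw [st_of_pos h]
    unfold pl
    have a0 := mul_le_mul_of_nonneg_left (sn_le_one (c + 1) ⌊x⌋) (by linarith : 0 ≤ 1 - Int.fract x)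
    have a1 := mul_le_mul_of_nonneg_left (sn_le_one (c + 1) (⌊x⌋ + 1)) h0
    linarith
  · rw [st_of_nonpos h]
    have h2 : ⌊x⌋ ≤ c := by
      have := Int.floor_le x
      have h3 : (⌊x⌋ : ℝ) ≤ c := by linarith
      exact_mod_cast h3
    unfold pl sn
    rw [if_neg (by omega)]
    rcases eq_or_lt_of_le h2 with e | e
    · have h4 : Int.fract x = 0 := by
        have := Int.floor_add_fract x
        rw [e] at this
        linarith
      rw [h4]
      simp
    · rw [if_neg (by omega)]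
      simp

/-- two piecewise linear functions joined at the node `c` (a jump at `c` is allowed) -/
def join (c : ℤ) (f g : ℤ → ℝ) (m : ℤ) : ℝ :=
  if m < c then f m else if m = c then max (f c) (g c) else g m

/-- JUMP AT A NODE: `v = 1` left of `c`, `v = 0` right of `c`, anything in `[0,1]` at `c` -/
lemma join_le {c : ℤ} {x v : ℝ} (h0 : 0 ≤ v) (h1 : v ≤ 1) (hl : x < c → v = 1)
    (hr : (c : ℝ) < x → v = 0) (f g : ℤ → ℝ) :
    v * pl f x + (1 - v) * pl g x ≤ pl (join c f g) x := by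
  have f0 := Int.fract_nonneg x
  have f1 := Int.fract_lt_one x
  have jf : ∀ m, m ≤ c → f m ≤ join c f g m := by
    intro m hm
    unfold join
    split_ifs with c1 c2
    · exact le_rfl
    · rw [c2]
      exact le_max_left _ _
    · omega
  have jg : ∀ m, c ≤ m → g m ≤ join c f g m := by
    intro m hm
    unfold join
    split_ifs with c1 c2
    · omega
    · rw [c2]
      exact le_max_right _ _
    · exact le_rfl
  rcases lt_trichotomy x c with h | h | h
  · rw [hl h, sub_self, zero_mul, add_zero, one_mul]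
    have h2 : ⌊x⌋ + 1 ≤ c := by
      have h3 : ⌊x⌋ < c := Int.floor_lt.2 h
      omega
    unfold pl
    have a0 := mul_le_mul_of_nonneg_left (jf ⌊x⌋ (by omega)) (by linarith : 0 ≤ 1 - Int.fract x)
    have a1 := mul_le_mul_of_nonneg_left (jf (⌊x⌋ + 1) h2) f0
    linarith
  · rw [h, pl_int, pl_int, pl_int]
    have a0 := mul_le_mul_of_nonneg_left (jf c le_rfl) h0
    have a1 := mul_le_mul_of_nonneg_left (jg c le_rfl) (sub_nonneg.2 h1)
    linarith
  · rw [hr h, zero_mul, zero_add, sub_zero, one_mul]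
    have h2 : c ≤ ⌊x⌋ := Int.le_floor.2 h.le
    unfold pl
    have a0 := mul_le_mul_of_nonneg_left (jg ⌊x⌋ h2) (by linarith : 0 ≤ 1 - Int.fract x)
    have a1 := mul_le_mul_of_nonneg_left (jg (⌊x⌋ + 1) (by omega)) f0
    linarith

/-- a step with coefficient `k` (any sign) plus a piecewise linear function, one node function:
the step is at the node `c`, its value at `c` is anything between the two limits -/
lemma step_add_le {k : ℝ} {c : ℤ} {x v : ℝ} (hv0 : st (x - c) ≤ v) (hv1 : v ≤ stE (x - c))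
    (lam : ℤ → ℝ) :
    k * v + pl lam x ≤ pl (fun m => (if 0 ≤ k then k * sn c m else k * sn (c + 1) m) + lam m) x := by
  rw [pl_add (fun m => if 0 ≤ k then k * sn c m else k * sn (c + 1) m) lam]
  rcases le_or_gt 0 k with h | h
  · have e : (fun m => if 0 ≤ k then k * sn c m else k * sn (c + 1) m) = fun m => k * sn c m := by
      funext m
      rw [if_pos h]
    rw [e, pl_smul]
    have := mul_le_mul_of_nonneg_left (hv1.trans (stE_le_pl c x)) h
    linarith
  · have e : (fun m => if 0 ≤ k then k * sn c m else k * sn (c + 1) m)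
        = fun m => k * sn (c + 1) m := by
      funext m
      rw [if_neg (by linarith)]
    rw [e, pl_smul]
    have := mul_le_mul_of_nonpos_left ((pl_le_st c x).trans hv0) h.le
    linarith

/-! ### Midpoints with free correction -/

/-- `W` = node values of a midpoint term, argument = sum of the two nodes; exact conditions -/
structure MidF (lam W : ℤ → ℝ) : Prop where
  even : ∀ k, lam k ≤ W (2 * k)
  odd : ∀ k, lam k + lam (k + 1) ≤ 2 * W (2 * k + 1)
  line : ∀ k, 4 * lam k ≤ W (2 * k - 1) + 2 * W (2 * k) + W (2 * k + 1)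

lemma midF_core {lam W : ℤ → ℝ} (h : MidF lam W) (M : ℤ) {s u : ℝ} (hs0 : 0 ≤ s) (hs1 : s ≤ 1)
    (hu0 : 0 ≤ u) (hu1 : u ≤ 1) :
    pl lam ((M + s + u) / 2) ≤ (1 - s) * (1 - u) * W M + s * (1 - u) * W (M + 1)
      + (1 - s) * u * W (M + 1) + s * u * W (M + 2) := by
  have w00 := mul_nonneg (sub_nonneg.2 hs1) (sub_nonneg.2 hu1)
  have w10 := mul_nonneg hs0 (sub_nonneg.2 hu1)
  have w01 := mul_nonneg (sub_nonneg.2 hs1) hu0
  have w11 := mul_nonneg hs0 hu0
  rcases Int.even_or_odd' M with ⟨k, hk | hk⟩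
  · subst hk
    have hx := pl_of_mem lam (k := k) (x := (((2 * k : ℤ) : ℝ) + s + u) / 2)
      (by push_cast; linarith) (by push_cast; linarith)
    rw [hx]
    have a0 := h.even k
    have a1 := h.odd k
    have a2 := h.even (k + 1)
    rw [show 2 * (k + 1) = 2 * k + 2 by ring] at a2
    have b0 := mul_le_mul_of_nonneg_left a0 w00
    have b1 := mul_le_mul_of_nonneg_left a1 w10
    have b2 := mul_le_mul_of_nonneg_left a1 w01
    have b3 := mul_le_mul_of_nonneg_left a2 w11
    push_cast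
    nlinarith
  · subst hk
    have a0 := h.odd k
    have a1 := h.even (k + 1)
    have a2 := h.odd (k + 1)
    have a3 := h.line (k + 1)
    rw [show 2 * (k + 1) = 2 * k + 2 by ring] at a1
    rw [show 2 * (k + 1) + 1 = 2 * k + 1 + 2 by ring, show k + 1 + 1 = k + 2 by ring] at a2
    rw [show 2 * (k + 1) - 1 = 2 * k + 1 by ring, show 2 * (k + 1) + 1 = 2 * k + 1 + 2 by ring,
      show 2 * (k + 1) = 2 * k + 2 by ring] at a3
    rw [show 2 * k + 1 + 1 = 2 * k + 2 by ring]
    set A := W (2 * k + 1)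
    set B := W (2 * k + 2)
    set C := W (2 * k + 1 + 2)
    rcases le_total (s + u) 1 with c | c
    · have hx := pl_of_mem lam (k := k) (x := (((2 * k + 1 : ℤ) : ℝ) + s + u) / 2)
        (by push_cast; linarith) (by push_cast; linarith)
      rw [hx]
      push_cast
      have t1 := mul_le_mul_of_nonneg_left a0 (by linarith : (0:ℝ) ≤ 1 - s - u)
      by_cases d : A + C ≤ 2 * B
      · have t2 := mul_le_mul_of_nonneg_left a3 (by linarith : (0:ℝ) ≤ s + u)
        have t3 : 0 ≤ (2 * B - A - C) * ((s + u) / 4 - s * u) :=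
          mul_nonneg (by linarith) (by nlinarith [sq_nonneg (s - u)])
        nlinarith
      · have t2 := mul_le_mul_of_nonneg_left a1 (by linarith : (0:ℝ) ≤ s + u)
        have t3 : 0 ≤ (A + C - 2 * B) * (s * u) := mul_nonneg (by linarith) w11
        nlinarith
    · have hx := pl_of_mem lam (k := k + 1) (x := (((2 * k + 1 : ℤ) : ℝ) + s + u) / 2)
        (by push_cast; linarith) (by push_cast; linarith)
      rw [hx, show k + 1 + 1 = k + 2 by ring]
      push_cast
      have t1 := mul_le_mul_of_nonneg_left a2 (by linarith : (0:ℝ) ≤ s + u - 1)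
      by_cases d : A + C ≤ 2 * B
      · have t2 := mul_le_mul_of_nonneg_left a3 (by linarith : (0:ℝ) ≤ 2 - s - u)
        have t3 : 0 ≤ (2 * B - A - C) * ((2 - s - u) / 4 - (1 - s) * (1 - u)) :=
          mul_nonneg (by linarith) (by nlinarith [sq_nonneg (s - u)])
        nlinarith
      · have t2 := mul_le_mul_of_nonneg_left a1 (by linarith : (0:ℝ) ≤ 2 - s - u)
        have t3 : 0 ≤ (A + C - 2 * B) * ((1 - s) * (1 - u)) := mul_nonneg (by linarith) w00
        nlinarith

/-- MIDPOINTS, all signs: `x = (σ a + τ b) / 2` -/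
theorem midF_le {lam W : ℤ → ℝ} (h : MidF lam W) {I J : Finset ℤ} {a b : ℝ} (hI : Near I a)
    (hJ : Near J b) {σ τ : ℤ} (hσ : σ = 1 ∨ σ = -1) (hτ : τ = 1 ∨ τ = -1) :
    pl lam ((σ * a + τ * b) / 2)
      ≤ ∑ i ∈ I, ∑ j ∈ J, hat i a * hat j b * W (σ * i + τ * j) := by
  obtain ⟨m, n, s, u, hs0, hs1, hu0, hu1, e1, e2, g⟩ := sum2_sign hI hJ hσ hτ
  rw [g (fun i j => W (i + j))]
  have h0 := midF_core h (m + n) hs0 hs1 hu0 hu1
  rw [show m + 1 + n = m + n + 1 by ring, show m + (n + 1) = m + n + 1 by ring,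
    show m + 1 + (n + 1) = m + n + 2 by ring]
  rw [← e1, ← e2]
  refine le_trans (le_of_eq ?_) h0
  congr 1
  push_cast
  ring

/-! ### Interface of helper45 -/

lemma EndOK.of_kinkF {lam G : ℤ → ℝ} (h : KinkF lam G) : EndOK lam G :=
  fun _ _ _ _ hI hJ => pl_le_F h hI hJ

lemma MidOK.of_midF {lam W : ℤ → ℝ} (h : MidF lam W) : MidOK lam W := by
  intro I J c d hI hJ
  have h1 := midF_le h hI hJ (σ := 1) (τ := 1) (Or.inl rfl) (Or.inl rfl)
  simpa using h1

end

end MP61673a.Kink
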