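import Pool.Agent.Mu673.LightShare
import Pool.Agent.Mu673.AsmE

/-!
LIGHT SHARES IN THE FRAME (helper84): the share of the outer parts `pos ≤ ξ`, `pos ≥ 1 - ξ` bounds the masses of
the frame of depth at least `δ D`, for every `δ ≥ 1 - 3 ξ + (1/2 + 1/10000) / n`.
-/

set_option autoImplicit false

namespace MP61673a.Fin

open Finset MP61673a.W MP61673a.LiftW MP61673a.TP
open MP61673a.Lift hiding PP QQ
open MP61673a.KC (outerX)

noncomputable section

/-- GENERAL FAR SHARE OF THE FRAME -/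
theorem far_frameX {n : ℕ} {A : Finset ℕ} (hn : 0 < n) {ξ δ : ℝ} (hδ0 : 0 ≤ δ) (hδ1 : δ ≤ 1)
    (hξ : 1 - 3 * ξ + (1 / 2 + 1 / 10000) / n ≤ δ) {f : ℝ}
    (hf : lin n (shift A) (outerX ξ) ≤ f * A.card) {t : ℕ} (ht : 10 ≤ t) {D z c : ℤ}
    (hc : δ * D ≤ c)
    (e1 : 3 * D + 1 ≤ 4 ^ t * (n : ℤ)) (e2 : 4 ^ t * (n : ℤ) ≤ 3 * D + 12) :
    farM (PH (liftN t (shift A)) D z) c + farM (QH (liftN t (shift A)) D z) c
      ≤ f * (mass (PH (liftN t (shift A)) D z) + mass (QH (liftN t (shift A)) D z)) := by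
  have hmass : mass (PH (liftN t (shift A)) D z) + mass (QH (liftN t (shift A)) D z)
      = (liftN t (shift A)).card := mass_add _ _ _ _ _
  rw [hmass, card_liftN, card_shift]
  have hn' : (0:ℝ) < n := by exact_mod_cast hn
  have hp : (1048576:ℝ) ≤ 4 ^ t := by
    calc (1048576:ℝ) = 4 ^ 10 := by norm_num
      _ ≤ 4 ^ t := pow_le_pow_right₀ (by norm_num) ht
  have hnr : (1:ℝ) ≤ n := by exact_mod_cast hn
  have E1 : 3 * (D:ℝ) + 1 ≤ 4 ^ t * n := by exact_mod_cast e1
  have E2 : (4:ℝ) ^ t * n ≤ 3 * D + 12 := by exact_mod_cast e2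
  have hD0 : (0:ℝ) < D := by nlinarith
  have hle : farM (PH (liftN t (shift A)) D z) c + farM (QH (liftN t (shift A)) D z) c
      ≤ ∑ x ∈ liftN t (shift A), (if x ≤ D - c ∨ 2 * D + c ≤ x then (1:ℝ) else 0) := by
    change (∑ x ∈ liftN t (shift A), if x - D ≤ -c then cut D x else 0)
      + (∑ x ∈ liftN t (shift A), if 2 * D - x ≤ -c then 1 - cut D x else 0) ≤ _
    rw [← sum_add_distrib]
    refine sum_le_sum fun x _ => ?_
    have k0 := cut_nonneg D x
    have k1 : cut D x ≤ 1 := by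
      unfold cut
      split_ifs <;> norm_num
    have hc0 : 0 ≤ c := by
      have : (0:ℝ) ≤ c := by nlinarith
      exact_mod_cast this
    have hDi : 0 < D := by exact_mod_cast hD0
    by_cases c1 : x ≤ D - c
    · by_cases c2 : 2 * D + c ≤ x
      · rw [if_pos (by omega), if_pos (by omega), if_pos (Or.inl c1)]
        linarith
      · rw [if_pos (by omega), if_neg (by omega), if_pos (Or.inl c1)]
        linarith
    · by_cases c2 : 2 * D + c ≤ x
      · rw [if_neg (by omega), if_pos (by omega), if_pos (Or.inr c2)]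
        linarith
      · rw [if_neg (by omega), if_neg (by omega), if_neg (by omega)]
        linarith
  refine hle.trans ?_
  rw [sum_liftN]
  -- the constant of the positions
  have hq : (1 / 2 + 1 / 10000) ≤ (δ - (1 - 3 * ξ)) * n := by
    have h1 : (1 / 2 + 1 / 10000) / n ≤ δ - (1 - 3 * ξ) := by linarith
    rwa [div_le_iff₀ hn'] at h1
  have hcell : ∀ a ∈ shift A, ∑ c' ∈ dig t,
      (if 4 ^ t * a + c' ≤ D - c ∨ 2 * D + c ≤ 4 ^ t * a + c' then (1:ℝ) else 0)
      ≤ 2 ^ t * outerX ξ (pos n a) := by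
    intro a _
    by_cases hex : ∃ c' ∈ dig t, 4 ^ t * a + c' ≤ D - c ∨ 2 * D + c ≤ 4 ^ t * a + c'
    · obtain ⟨c', hc', hd⟩ := hex
      have hm := dig_mem hc'
      have m1 : (4:ℝ) ^ t - 1 ≤ 3 * c' := by exact_mod_cast hm.1
      have m2 : 3 * (c':ℝ) ≤ 2 * (4 ^ t - 1) := by
        have := hm.2
        exact_mod_cast this
      have hchi : outerX ξ (pos n a) = 1 := by
        unfold outerX
        rw [if_pos]
        rcases hd with hd | hd
        · left
          have hd' : (4:ℝ) ^ t * a + c' ≤ D - c := by exact_mod_cast hd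
          unfold pos
          rw [div_le_iff₀ hn']
          -- 3 * 4^t (a + 1/2) ≤ 3 * 4^t ξ n
          have i1 : 3 * ((4:ℝ) ^ t * a) ≤ 3 * (1 - δ) * D - (4 ^ t - 1) := by nlinarith
          have i2 : 3 * (1 - δ) * D ≤ (1 - δ) * (4 ^ t * n - 1) := by
            nlinarith [mul_le_mul_of_nonneg_left E1 (sub_nonneg.2 hδ1)]
          have i3 : 3 * ((4:ℝ) ^ t * (a + 1 / 2)) ≤ 4 ^ t * ((1 - δ) * n + 1 / 2) + δ := by
            nlinarith
          have i4 : (4:ℝ) ^ t * ((1 - δ) * n + 1 / 2) + δ ≤ 4 ^ t * (3 * ξ * n) := by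
            have j1 : (1 - δ) * n + 1 / 2 + 1 / 10000 ≤ 3 * ξ * n := by nlinarith
            have j2 := mul_le_mul_of_nonneg_left j1 (show (0:ℝ) ≤ 4 ^ t by positivity)
            nlinarith
          have i5 : (4:ℝ) ^ t * (3 * ((a:ℝ) + 1 / 2)) ≤ 4 ^ t * (3 * (ξ * n)) := by linarith
          have i6 := le_of_mul_le_mul_left i5 (by positivity)
          linarith
        · right
          have hd' : 2 * (D:ℝ) + c ≤ 4 ^ t * a + c' := by exact_mod_cast hd
          unfold pos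
          rw [le_div_iff₀ hn']
          have i1 : 3 * (2 + δ) * D - 2 * (4 ^ t - 1) ≤ 3 * ((4:ℝ) ^ t * a) := by nlinarith
          have i2 : (2 + δ) * (4 ^ t * n - 12) ≤ 3 * (2 + δ) * D := by
            nlinarith [mul_le_mul_of_nonneg_left E2 (show (0:ℝ) ≤ 2 + δ by linarith)]
          have i3 : (4:ℝ) ^ t * ((2 + δ) * n - 1 / 2) - 36 ≤ 3 * (4 ^ t * ((a:ℝ) + 1 / 2)) := by
            nlinarith
          have i4 : (4:ℝ) ^ t * (3 * ((1 - ξ) * n)) ≤ 4 ^ t * ((2 + δ) * n - 1 / 2) - 36 := by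
            have j1 : 3 * ((1 - ξ) * n) ≤ (2 + δ) * n - 1 / 2 - 1 / 10000 := by nlinarith
            have j2 := mul_le_mul_of_nonneg_left j1 (show (0:ℝ) ≤ 4 ^ t by positivity)
            nlinarith
          have i5 : (4:ℝ) ^ t * (3 * ((1 - ξ) * n)) ≤ 4 ^ t * (3 * ((a:ℝ) + 1 / 2)) := by linarith
          have i6 := le_of_mul_le_mul_left i5 (by positivity)
          linarith
      calc ∑ c' ∈ dig t, (if 4 ^ t * a + c' ≤ D - c ∨ 2 * D + c ≤ 4 ^ t * a + c' then (1:ℝ) else 0)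
          ≤ ∑ c' ∈ dig t, (1:ℝ) := sum_le_sum fun c' _ => by split_ifs <;> norm_num
        _ = 2 ^ t := by rw [sum_const, card_dig]; simp
        _ ≤ 2 ^ t * outerX ξ (pos n a) := by rw [hchi, mul_one]
    · have hz : ∀ c' ∈ dig t, (if 4 ^ t * a + c' ≤ D - c ∨ 2 * D + c ≤ 4 ^ t * a + c' then (1:ℝ)
          else 0) = 0 := by
        intro c' hc'
        rw [if_neg]
        intro hh
        exact hex ⟨c', hc', hh⟩
      rw [sum_congr rfl hz, sum_const_zero]
      refine mul_nonneg (by positivity) ?_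
      unfold outerX
      split_ifs <;> norm_num
  refine (sum_le_sum hcell).trans ?_
  rw [← mul_sum]
  have hf' : ∑ a ∈ shift A, outerX ξ (pos n a) ≤ f * A.card := hf
  push_cast
  have : (0:ℝ) < 2 ^ t := by positivity
  nlinarith

/-- the old form of the far share -/
theorem farCert_of_outer {n : ℕ} {A : Finset ℕ} {ξ f : ℝ} (hξ : 1 / 4 ≤ ξ)
    (hf : lin n (shift A) (outerX ξ) ≤ f * A.card) : FarCert n A f := by
  refine ⟨outerX ξ, fun x => ?_, fun x hx => ?_, fun x hx => ?_, hf⟩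
  · unfold outerX
    split_ifs <;> norm_num
  · unfold outerX
    rw [if_pos (Or.inl (hx.trans hξ))]
  · unfold outerX
    rw [if_pos (Or.inr (by linarith))]

end

end MP61673a.Fin
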