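import Pool.Agent.Mu673.LtChk2
import Pool.Agent.Mu673.LightFrame

/-!
LIGHT SHARES, end (helper84): share of the masses of the frame of depth at least `.1168 D` (`1/20`),
and the old far share with `1/20` instead of `1/5`.
-/

set_option autoImplicit false

namespace MP61673a.Fin

open Finset MP61673a.W MP61673a.LiftW MP61673a.TP
open MP61673a.Lift hiding PP QQ
open MP61673a.KC (outerX)

noncomputable section

/-- the old far share with `1/20` -/
theorem farCert_twentieth {n : ℕ} {A : Finset ℕ} (hn : 122 ≤ n) (h : IsMaximalThreeFree n A)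
    (hlt : A.card ^ 2 < n) : FarCert n A (1 / 20) :=
  farCert_of_outer (ξ := 21 / 71) (by norm_num) (MP61673a.KC.LtTab2.light hn h hlt).le

/-- share of depth `≥ .1168 D`: at most `1/20` -/
theorem light_twentieth {n : ℕ} {A : Finset ℕ} (hn : 122 ≤ n) (h : IsMaximalThreeFree n A)
    (hlt : A.card ^ 2 < n) {t : ℕ} (ht : 10 ≤ t) {D z c : ℤ} (hc : 1168 * D ≤ 10000 * c)
    (e1 : 3 * D + 1 ≤ 4 ^ t * (n : ℤ)) (e2 : 4 ^ t * (n : ℤ) ≤ 3 * D + 12) :
    farM (PH (liftN t (shift A)) D z) c + farM (QH (liftN t (shift A)) D z) c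
      ≤ 1 / 20 * (mass (PH (liftN t (shift A)) D z) + mass (QH (liftN t (shift A)) D z)) := by
  have hnr : (122:ℝ) ≤ n := by exact_mod_cast hn
  refine far_frameX (by omega) (ξ := 21 / 71) (δ := 1168 / 10000) (by norm_num) (by norm_num) ?_
    (MP61673a.KC.LtTab2.light hn h hlt).le ht ?_ e1 e2
  · have : (1 / 2 + 1 / 10000) / (n:ℝ) ≤ (1 / 2 + 1 / 10000) / 122 :=
      div_le_div_of_nonneg_left (by norm_num) (by norm_num) hnr
    refine (add_le_add_right this _).trans ?_
    norm_num
  · have : (1168:ℝ) * D ≤ 10000 * c := by exact_mod_cast hc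
    linarith

end

end MP61673a.Fin
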