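import Pool.Agent.Mu673.SegData
import Pool.Agent.Mu673.KCsegB
import Pool.Agent.Mu673.FarBoxL

/-!
LIGHT SHARES (helper84): from an integer certificate with two segments (the two parities of the window) to the
bound of the share of the outer parts `pos ≤ ξ`, `pos ≥ 1 - ξ`.
-/

set_option autoImplicit false

namespace MP61673a.KC

open Finset MP61673a.Kink MP61673a.Bridge
open MP61673a.TP (CertifiedC pos tp tp_in linT lin clsF class_facts shift_bounds)
open MP61673a.Lift (shift IsMaximalThreeFree card_shift)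

noncomputable section

/-- indicator of the outer parts of the window: positions `≤ ξ` and `≥ 1 - ξ` -/
def outerX (ξ x : ℝ) : ℝ :=
  open Classical in if x ≤ ξ ∨ 1 - ξ ≤ x then 1 else 0

/-- far nodes -/
def farI (N G : ℕ) (i : ℤ) : ℝ := if i ≤ (G : ℤ) ∨ (N : ℤ) - G ≤ i then 1 else 0

/-- values of the three facts: share of the far nodes `- fnum / fden`, shares of the classes `- 1/3` -/
def lF (N G fnum fden : ℕ) : ℕ → ℕ × ℤ → ℝ
  | 0, z => farI N G z.2 - (fnum : ℝ) / fden
  | 1, z => (if z.1 = 0 then 1 else 0) - 1 / 3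
  | _ + 2, z => (if z.1 = 1 then 1 else 0) - 1 / 3

/-- far nodes, as `0` or `1` -/
def farN (N G i : ℕ) : ℕ := if i ≤ G ∨ N ≤ i + G then 1 else 0

/-- values of the facts at the nodes -/
def chkVL (N G fnum fden : ℕ) (f0 f1 f2 : FnS) : Bool :=
  allN (N + 1) fun i => allN 2 fun c =>
    decide (nth 0 f0.lp (c * (N + 1) + i) + 3 * fnum
      = nth 0 f0.ln (c * (N + 1) + i) + 3 * fden * farN N G i)
    && decide (nth 0 f1.lp (c * (N + 1) + i) + fden
      = nth 0 f1.ln (c * (N + 1) + i) + 3 * fden * (1 - c))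
    && decide (nth 0 f2.lp (c * (N + 1) + i) + fden
      = nth 0 f2.ln (c * (N + 1) + i) + 3 * fden * c)

/-- the two segments -/
def seg2 (N : ℕ) : List Seg := [⟨0, N + 1, 0⟩, ⟨0, N + 1, 1⟩]

lemma seg2_vN (N : ℕ) : vN (seg2 N) = 2 * (N + 1) := by
  change (N + 1) + ((N + 1) + 0) = _
  omega

/-- the class of a cell -/
def cl2L (x : ℤ) : ℕ := if x % 2 = 0 then 1 else 0

lemma loC_two (N c : ℕ) (hc : c < 2) : loC (seg2 N) c = 0 := by
  interval_cases c <;> rfl

lemma hiC_two (N c : ℕ) (hc : c < 2) : hiC (seg2 N) c = N := by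
  interval_cases c
  · change ((0:ℕ) : ℤ) + ((N + 1 : ℕ) : ℤ) - 1 = N
    push_cast
    ring
  · change ((0:ℕ) : ℤ) + ((N + 1 : ℕ) : ℤ) - 1 = N
    push_cast
    ring

lemma cl2L_lt (x : ℤ) : cl2L x < 2 := by
  unfold cl2L
  split_ifs <;> norm_num

lemma okS_two {N : ℕ} {z : ℕ × ℤ} (h : okS (seg2 N) z) :
    z.1 < 2 ∧ 0 ≤ z.2 ∧ z.2 ≤ N ∧ vO (seg2 N) z = z.1 * (N + 1) + z.2.toNat := by
  obtain ⟨c, i⟩ := z
  obtain ⟨h1, h2⟩ := h
  dsimp only at h1 h2 ⊢
  rcases c with _ | _ | c
  · rw [loC_two N 0 (by norm_num)] at h1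
    rw [hiC_two N 0 (by norm_num)] at h2
    refine ⟨by norm_num, h1, h2, ?_⟩
    have e : vO (seg2 N) (0, i) = 0 + (i - ((0 : ℕ) : ℤ)).toNat := rfl
    rw [e]
    simp
  · rw [loC_two N 1 (by norm_num)] at h1
    rw [hiC_two N 1 (by norm_num)] at h2
    refine ⟨by norm_num, h1, h2, ?_⟩
    have e : vO (seg2 N) (0 + 1, i) = (N + 1 + 0) + (i - ((0 : ℕ) : ℤ)).toNat := rfl
    rw [e]
    simp
  · exfalso
    have e1 : loC (seg2 N) (c + 1 + 1) = ((1 : ℕ) : ℤ) := rfl
    have e2 : hiC (seg2 N) (c + 1 + 1) = ((1 : ℕ) : ℤ) + ((0 : ℕ) : ℤ) - 1 := rfl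
    rw [e1] at h1
    rw [e2] at h2
    omega

/-- a node with positive hat value is near -/
lemma hat_ne_zero {i : ℤ} {y : ℝ} (h : hat i y ≠ 0) : |y - i| < 1 := by
  by_contra hc
  apply h
  unfold MP61673a.Kink.hat
  rw [max_eq_left]
  linarith [not_lt.1 hc]

/-- SHARE OF THE OUTER PARTS from the integer certificate with two segments -/
theorem light_of_data {d : DatS} {X : List (List ℕ)} {o2 Mx Mw n0 M G fnum fden : ℕ}
    {f0 f1 f2 : FnS} (hsegs : d.segs = seg2 (M + 1))
    (hN : d.N = M + 1) (hfn : d.fn = [f0, f1, f2]) (hb : bndS d = true) (hs : symS d = true)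
    (hX : chkY d X [] o2 Mx Mw n0 1 1 = true) (hV : chkVL (M + 1) G fnum fden f0 f1 f2 = true)
    (ho : o2 ≤ (d.N + 1) / 2) (hn0 : d.N ≤ n0) (hBd : 0 < d.Bd) (hf : 0 < fden)
    (hm : segCheck d 0 (vN d.segs) = true) {n : ℕ} (hn : n0 ≤ n) {A : Finset ℕ}
    (h : IsMaximalThreeFree n A) (hlt : A.card ^ 2 < n) {ξ : ℝ} (hξ : ξ * ((M + 1 : ℕ) : ℝ) ≤ G) :
    lin n (shift A) (outerX ξ) < (fnum : ℝ) / fden * A.card := by
  by_contra hcon
  push Not at hcon
  have hf' : (0:ℝ) < fden := by exact_mod_cast hf
  have hg : chkG d = true := by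
    unfold chkG
    rw [hsegs]
    refine (allL_iff _ _).2 fun s hs => ?_
    have : s.lo = 0 ∧ s.len = M + 2 := by
      unfold seg2 at hs
      simp only [List.mem_cons, List.not_mem_nil, or_false] at hs
      rcases hs with rfl | rfl <;> exact ⟨rfl, rfl⟩
    rw [this.1, this.2, hN]
    refine Nat.ble_eq_true_of_le ?_
    change 0 + (M + 2) ≤ M + 1 + 1
    omega
  unfold chkVL at hV
  have hV' := fun (i : ℕ) (hi : i < M + 1 + 1) (c : ℕ) (hc : c < 2) => by
    have h1 := (allN_iff _ _).1 ((allN_iff _ _).1 hV i hi) c hc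
    simp only [Bool.and_eq_true, decide_eq_true_eq] at h1
    exact h1
  have hF : Fct d [f0, f1, f2] (3 * fden) (fun q z => lF (M + 1) G fnum fden q.1 z) [] 1
      (fun i => i.elim0) := by
    constructor
    · intro q z hz
      rw [hsegs] at hz
      obtain ⟨k1, k2, k3, k4⟩ := okS_two hz
      obtain ⟨⟨v0, v1⟩, v2⟩ := hV' z.2.toNat (by omega) z.1 k1
      rw [hsegs, k4]
      have q3 : q.1 < 3 := q.2
      have efar : (farN (M + 1) G z.2.toNat : ℝ) = farI (M + 1) G z.2 := by
        unfold farN farI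
        have e : (z.2.toNat ≤ G ∨ M + 1 ≤ z.2.toNat + G)
            ↔ (z.2 ≤ (G : ℤ) ∨ ((M + 1 : ℕ) : ℤ) - G ≤ z.2) := by
          constructor
          · rintro (h | h)
            · left; omega
            · right; omega
          · rintro (h | h)
            · left; omega
            · right; omega
        by_cases c : (z.2.toNat ≤ G ∨ M + 1 ≤ z.2.toNat + G)
        · rw [if_pos c, if_pos (e.1 c)]
          norm_num
        · rw [if_neg c, if_neg (fun h => c (e.2 h))]
          norm_num
      obtain ⟨q, hq⟩ := q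
      have v0' : ((nth 0 f0.lp (z.1 * (M + 1 + 1) + z.2.toNat) : ℕ) : ℝ) + 3 * fnum
          = ((nth 0 f0.ln (z.1 * (M + 1 + 1) + z.2.toNat) : ℕ) : ℝ)
            + 3 * fden * farN (M + 1) G z.2.toNat := by exact_mod_cast v0
      rw [efar] at v0'
      have v1' : ((nth 0 f1.lp (z.1 * (M + 1 + 1) + z.2.toNat) : ℕ) : ℝ) + fden
          = ((nth 0 f1.ln (z.1 * (M + 1 + 1) + z.2.toNat) : ℕ) : ℝ)
            + 3 * fden * ((1 - z.1 : ℕ) : ℝ) := by exact_mod_cast v1
      have v2' : ((nth 0 f2.lp (z.1 * (M + 1 + 1) + z.2.toNat) : ℕ) : ℝ) + fden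
          = ((nth 0 f2.ln (z.1 * (M + 1 + 1) + z.2.toNat) : ℕ) : ℝ)
            + 3 * fden * (z.1 : ℝ) := by exact_mod_cast v2
      have q3 : q < 3 := hq
      interval_cases q
      · change ((3 * fden : ℕ) : ℝ) * (farI (M + 1) G z.2 - (fnum : ℝ) / fden)
          = ((nth 0 f0.lp _ : ℕ) : ℝ) - ((nth 0 f0.ln _ : ℕ) : ℝ)
        push_cast
        have e : (3 * (fden : ℝ)) * (farI (M + 1) G z.2 - (fnum : ℝ) / fden)
            = 3 * fden * farI (M + 1) G z.2 - 3 * fnum := by
          field_simp
        rw [e]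
        linarith
      · change ((3 * fden : ℕ) : ℝ) * ((if z.1 = 0 then 1 else 0) - 1 / 3)
          = ((nth 0 f1.lp _ : ℕ) : ℝ) - ((nth 0 f1.ln _ : ℕ) : ℝ)
        push_cast
        have e : ((1 - z.1 : ℕ) : ℝ) = if z.1 = 0 then 1 else 0 := by
          split_ifs with c
          · rw [c]
            norm_num
          · have : z.1 = 1 := by omega
            rw [this]
            norm_num
        rw [← e]
        linarith
      · change ((3 * fden : ℕ) : ℝ) * ((if z.1 = 1 then 1 else 0) - 1 / 3)
          = ((nth 0 f2.lp _ : ℕ) : ℝ) - ((nth 0 f2.ln _ : ℕ) : ℝ)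
        push_cast
        have e : ((z.1 : ℕ) : ℝ) = if z.1 = 1 then 1 else 0 := by
          split_ifs with c
          · rw [c]
            norm_num
          · have : z.1 = 0 := by omega
            rw [this]
            norm_num
        rw [← e]
        linarith
    · intro i
      exact i.elim0
  have cert := certC_of_data (E := 1) (E1 := 1) (J := [f0, f1, f2]) (I := [])
    (ℓ := fun q z => kC (M + 1) (loC d.segs) (hiC d.segs) (fun z => lF (M + 1) G fnum fden q.1 z) z)
    (φ := fun i => i.elim0) (c := fun i => i.elim0)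
    hN (by rw [hfn]; rfl) hb hs hg hX hF ho hn0 hBd one_pos hm hn (fun q z _ => rfl)
    (fun i => i.elim0) (fun i => i.elim0)
  have hA := fun a (ha : a ∈ shift A) => tp_in (shift_bounds h ha).1 (shift_bounds h ha).2
  have hReg : ∀ a ∈ shift A, RegC (M + 1) (loC d.segs) (hiC d.segs) (cl2L a, pos n a) := by
    intro a ha
    have k := hA a ha
    have k1 : 0 < pos n a := k.1
    have k2 : pos n a < 1 := k.2
    rw [hsegs]
    refine ⟨?_, ?_, k1, k2⟩
    · rw [loC_two _ _ (cl2L_lt a)]
      push_cast
      positivity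
    · rw [hiC_two _ _ (cl2L_lt a)]
      push_cast
      have : (0:ℝ) ≤ (M:ℝ) + 1 := by positivity
      nlinarith
  -- sums of the hats
  have hone : ∀ a ∈ shift A, ∑ i ∈ ns (loC d.segs) (hiC d.segs) (cl2L a),
      hat i (((M + 1 : ℕ) : ℝ) * pos n a) = 1 := fun a ha => (hReg a ha).one
  have hcard := card_shift A
  refine CertifiedC.false h hlt cert cl2L ?_ hReg ?_ ?_
  · intro a _
    rw [hsegs]
    unfold cl2L tp
    by_cases c : a % 2 = 0
    · rw [if_pos c]
      change decide ((1:ℕ) = 1) = decide (a % 2 = 0)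
      rw [decide_eq_decide]
      exact ⟨fun _ => c, fun _ => rfl⟩
    · rw [if_neg c]
      change decide ((0:ℕ) = 1) = decide (a % 2 = 0)
      rw [decide_eq_decide]
      exact ⟨fun h => absurd h (by norm_num), fun h => absurd h c⟩
  · intro q _
    obtain ⟨q, hq⟩ := q
    have q3 : q < 3 := hq
    interval_cases q
    · -- far share
      have key : ∀ a ∈ shift A, outerX ξ (pos n a) - (fnum : ℝ) / fden
          ≤ kC (M + 1) (loC d.segs) (hiC d.segs) (fun z => lF (M + 1) G fnum fden 0 z)
            (cl2L a, pos n a) := by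
        intro a ha
        have e : kC (M + 1) (loC d.segs) (hiC d.segs) (fun z => lF (M + 1) G fnum fden 0 z)
            (cl2L a, pos n a)
            = ∑ i ∈ ns (loC d.segs) (hiC d.segs) (cl2L a),
              hat i (((M + 1 : ℕ) : ℝ) * pos n a) * farI (M + 1) G i - (fnum : ℝ) / fden := by
          have e1 : (fnum : ℝ) / fden = ∑ i ∈ ns (loC d.segs) (hiC d.segs) (cl2L a),
              hat i (((M + 1 : ℕ) : ℝ) * pos n a) * ((fnum : ℝ) / fden) := by
            rw [← sum_mul, hone a ha, one_mul]
          conv_rhs => rw [e1]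
          rw [← sum_sub_distrib]
          unfold kC
          refine sum_congr rfl fun i _ => ?_
          change _ * (farI (M + 1) G i - (fnum : ℝ) / fden) = _
          ring
        rw [e]
        refine sub_le_sub_right ?_ _
        unfold outerX
        split_ifs with c
        · rw [← hone a ha]
          refine sum_le_sum fun i _ => ?_
          by_cases hz : hat i (((M + 1 : ℕ) : ℝ) * pos n a) = 0
          · rw [hz, zero_mul]
          · have hab := abs_lt.1 (hat_ne_zero hz)
            have : farI (M + 1) G i = 1 := by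
              unfold farI
              rw [if_pos]
              have hN0 : (0:ℝ) ≤ ((M + 1 : ℕ) : ℝ) := by positivity
              rcases c with c | c
              · left
                have h1 : ((M + 1 : ℕ) : ℝ) * pos n a ≤ G := by
                  have := mul_le_mul_of_nonneg_left c hN0
                  linarith
                have h2 : (i : ℝ) < G + 1 := by linarith [hab.1]
                have h3 : i < (G : ℤ) + 1 := by exact_mod_cast h2
                omega
              · right
                have h1 : ((M + 1 : ℕ) : ℝ) - G ≤ ((M + 1 : ℕ) : ℝ) * pos n a := by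
                  have := mul_le_mul_of_nonneg_left c hN0
                  linarith
                have h2 : ((M + 1 : ℕ) : ℝ) - G - 1 < (i : ℝ) := by linarith [hab.2]
                have h3 : ((M + 1 : ℕ) : ℤ) - G - 1 < i := by exact_mod_cast h2
                omega
            rw [this, mul_one]
        · refine sum_nonneg fun i _ => mul_nonneg (hat_nonneg _ _) ?_
          unfold farI
          split_ifs <;> norm_num
      have hsum := sum_le_sum key
      rw [sum_sub_distrib, sum_const, nsmul_eq_mul, hcard] at hsum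
      have e : ∑ a ∈ shift A, outerX ξ (pos n a) = lin n (shift A) (outerX ξ) := rfl
      rw [e] at hsum
      refine le_trans ?_ hsum
      rw [mul_comm] at hcon
      linarith
    · have key : ∀ a ∈ shift A, kC (M + 1) (loC d.segs) (hiC d.segs)
          (fun z => lF (M + 1) G fnum fden 1 z) (cl2L a, pos n a)
          = clsF false (tp n a) - 1 / 3 := by
        intro a ha
        have e2 : clsF false (tp n a) = if cl2L a = 0 then 1 else 0 := by
          unfold clsF tp cl2L
          by_cases c : a % 2 = 0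
          · simp [c]
          · simp [c]
        have e3 : kC (M + 1) (loC d.segs) (hiC d.segs)
            (fun z => lF (M + 1) G fnum fden 1 z) (cl2L a, pos n a)
            = ∑ i ∈ ns (loC d.segs) (hiC d.segs) (cl2L a), hat i (((M + 1 : ℕ) : ℝ) * pos n a)
              * ((if cl2L a = 0 then (1:ℝ) else 0) - 1 / 3) := rfl
        rw [e3, ← sum_mul, hone a ha, one_mul, e2]
      change 0 ≤ ∑ a ∈ shift A, kC (M + 1) (loC d.segs) (hiC d.segs)
          (fun z => lF (M + 1) G fnum fden 1 z) (cl2L a, pos n a)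
      rw [sum_congr rfl key, sum_sub_distrib, sum_const, nsmul_eq_mul, hcard]
      have k := class_facts h hlt false
      rw [hcard] at k
      unfold linT at k
      linarith
    · have key : ∀ a ∈ shift A, kC (M + 1) (loC d.segs) (hiC d.segs)
          (fun z => lF (M + 1) G fnum fden 2 z) (cl2L a, pos n a)
          = clsF true (tp n a) - 1 / 3 := by
        intro a ha
        have e2 : clsF true (tp n a) = if cl2L a = 1 then 1 else 0 := by
          unfold clsF tp cl2L
          by_cases c : a % 2 = 0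
          · simp [c]
          · simp [c]
        have e3 : kC (M + 1) (loC d.segs) (hiC d.segs)
            (fun z => lF (M + 1) G fnum fden 2 z) (cl2L a, pos n a)
            = ∑ i ∈ ns (loC d.segs) (hiC d.segs) (cl2L a), hat i (((M + 1 : ℕ) : ℝ) * pos n a)
              * ((if cl2L a = 1 then (1:ℝ) else 0) - 1 / 3) := rfl
        rw [e3, ← sum_mul, hone a ha, one_mul, e2]
      change 0 ≤ ∑ a ∈ shift A, kC (M + 1) (loC d.segs) (hiC d.segs)
          (fun z => lF (M + 1) G fnum fden 2 z) (cl2L a, pos n a)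
      rw [sum_congr rfl key, sum_sub_distrib, sum_const, nsmul_eq_mul, hcard]
      have k := class_facts h hlt true
      rw [hcard] at k
      unfold linT at k
      linarith
  · intro i _
    cases i with
    | some i => exact i.elim0
    | none =>
      change -(((1 : ℕ) : ℝ) / ((1 : ℕ) : ℝ)) * n ≤ ∑ a ∈ shift A, ∑ b ∈ shift A, (-1 : ℝ)
      rw [sum_const, sum_const, nsmul_eq_mul, nsmul_eq_mul, hcard]
      have hlt' : (A.card : ℝ) ^ 2 < n := by exact_mod_cast hlt
      push_cast
      nlinarith

end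

end MP61673a.KC
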