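import Pool.Agent.Mu673.LtChk2_m0
import Pool.Agent.Mu673.KCsegB

/-!
Kernel checks of the triples, part 1 (helper84).
-/

set_option autoImplicit false
set_option maxRecDepth 100000

namespace MP61673a.KC.LtTab2

theorem m1_ok : segCheckB 8 dat 24 48 = true := by decide +kernel

end MP61673a.KC.LtTab2
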