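import Pool.Agent.Mu673.LtTab2
import Pool.Agent.Mu673.LtChk2_m0
import Pool.Agent.Mu673.LtChk2_m1
import Pool.Agent.Mu673.LtChk2_m2
import Pool.Agent.Mu673.LtChk2_m3
import Pool.Agent.Mu673.LtChk2_m4
import Pool.Agent.Mu673.LtChk2_m5
import Pool.Agent.Mu673.LightShare

/-!
LIGHT SHARE: the share of the outer parts `pos ≤ 21/71` (depth at least `.1168 D`) is less than `1/20`, all `n ≥ 122` (helper84).
-/

set_option autoImplicit false
set_option maxRecDepth 100000

namespace MP61673a.KC.LtTab2

theorem bnd_ok : bndS dat = true := by decide +kernel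

theorem sym_ok : symS dat = true := by decide +kernel

theorem y_ok : chkY dat lab [] 2 77 79 122 1 1 = true := by decide +kernel

theorem v_ok : chkVL 71 21 1 20 fn0 fn1 fn2 = true := by decide +kernel

theorem s0_ok : segCheck dat 0 24 = true :=
  segCheck_of_B dat bnd_ok (k := 8) (by decide) (by decide) m0_ok (by decide)

theorem s1_ok : segCheck dat 0 48 = true :=
  segCheck_join dat s0_ok
    (segCheck_of_B dat bnd_ok (k := 8) (by decide) (by decide) m1_ok (by decide))
    (by decide) (by decide)

theorem s2_ok : segCheck dat 0 72 = true :=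
  segCheck_join dat s1_ok
    (segCheck_of_B dat bnd_ok (k := 8) (by decide) (by decide) m2_ok (by decide))
    (by decide) (by decide)

theorem s3_ok : segCheck dat 0 96 = true :=
  segCheck_join dat s2_ok
    (segCheck_of_B dat bnd_ok (k := 8) (by decide) (by decide) m3_ok (by decide))
    (by decide) (by decide)

theorem s4_ok : segCheck dat 0 120 = true :=
  segCheck_join dat s3_ok
    (segCheck_of_B dat bnd_ok (k := 8) (by decide) (by decide) m4_ok (by decide))
    (by decide) (by decide)

theorem s5_ok : segCheck dat 0 144 = true :=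
  segCheck_join dat s4_ok
    (segCheck_of_B dat bnd_ok (k := 8) (by decide) (by decide) m5_ok (by decide))
    (by decide) (by decide)

theorem seg_ok : segCheck dat 0 (vN dat.segs) = true := s5_ok

open MP61673a.Lift (shift IsMaximalThreeFree) in
/-- SHARE OF THE OUTER PARTS (depth at least `.1168 D`) IS LESS THAN `1/20` -/
theorem light {n : ℕ} (hn : 122 ≤ n) {A : Finset ℕ} (h : IsMaximalThreeFree n A)
    (hlt : A.card ^ 2 < n) :
    TP.lin n (shift A) (outerX (21 / 71)) < 1 / 20 * A.card := by
  have k := light_of_data (d := dat) (X := lab) (o2 := 2) (Mx := 77) (Mw := 79) (n0 := 122)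
    (M := 70) (G := 21) (fnum := 1) (fden := 20) (f0 := fn0) (f1 := fn1) (f2 := fn2) rfl rfl rfl
    bnd_ok sym_ok y_ok v_ok (by decide) (by decide) (by decide) (by norm_num) seg_ok hn h hlt
    (ξ := 21 / 71) (by norm_num)
  push_cast at k
  exact k

end MP61673a.KC.LtTab2
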