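import Pool.Agent.Mu673.PriceHuman
import Pool.Agent.Mu673.BridgeC

set_option autoImplicit false

/-!
PRICE FACT from a typed three point certificate with arbitrary classes (`CertifiedC`): the pair facts
are the negations of the price fact for finitely many pairs of ramps.
-/

namespace MP61673a.PF

open Finset MP61673a.W MP61673a.TP
open MP61673a.Lift (shift liftN Mid Cov IsMaximalThreeFree cov_of_maximal)
open MP61673a.Fin (PH QH)

noncomputable section

/-- the pair kernel at typed points -/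
def kT {C : Type} (side par : C → Bool) (vc : ℝ) (wR wL : ℝ → ℝ) (a b : C × ℝ) : ℝ :=
  kW vc wR wL (side a.1) (side b.1) (par a.1 == par b.1) a.2 b.2

/-- for every side map some pair of ramps satisfies the bound -/
theorem exists_ramps {n : ℕ} {r v vc : ℝ} {C : Type}
    (side par : C → Bool) {Reg : C × ℝ → Prop} {ιJ ιI : Type} {J : Finset ιJ}
    {ℓ : ιJ → C × ℝ → ℝ} {I : Finset ιI} {wR wL : ιI → ℝ → ℝ} {c : ιI → ℝ}
    (hw : ∀ i ∈ I, Ramps n r v (wR i) (wL i))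
    (hc : ∀ i ∈ I, c i * n ≤ bW n r (wR i) (wL i))
    (cert : CertifiedC n (13 / 18) par Reg J ℓ I (fun i => kT side par vc (wR i) (wL i)) c)
    {cl : (ℤ → Bool) → ℤ → C}
    (hcl : ∀ sd, Side n sd → ∀ x : ℤ, 0 ≤ x → x < n →
      side (cl sd x) = sd x ∧ par (cl sd x) = (tp n x).1 ∧ Reg (cl sd x, pos n x))
    {A : Finset ℕ} (h : IsMaximalThreeFree n A) (hlt : A.card ^ 2 < n) (sd : ℤ → Bool)
    (hsd : Side n sd) (hJ : ∀ j ∈ J, 0 ≤ ∑ a ∈ shift A, ℓ j (cl sd a, pos n a)) :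
    ∃ wR wL : ℝ → ℝ, Ramps n r v wR wL ∧ sW n vc wR wL sd (shift A) ≤ bW n r wR wL := by
  by_contra hcon
  push Not at hcon
  refine cert.false h hlt (cl sd) (fun a ha => ?_) (fun a ha => ?_) hJ (fun i hi => ?_)
  · have hb := shift_bounds h ha
    exact (hcl sd hsd a hb.1 hb.2).2.1
  · have hb := shift_bounds h ha
    exact (hcl sd hsd a hb.1 hb.2).2.2
  · have k := hcon _ _ (hw i hi)
    have e : sW n vc (wR i) (wL i) sd (shift A)
        = ∑ a ∈ shift A, ∑ b ∈ shift A,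
          kT side par vc (wR i) (wL i) (cl sd a, pos n a) (cl sd b, pos n b) := by
      unfold sW
      refine sum_congr rfl fun a ha => sum_congr rfl fun b hb => ?_
      have ha' := hcl sd hsd a (shift_bounds h ha).1 (shift_bounds h ha).2
      have hb' := hcl sd hsd b (shift_bounds h hb).1 (shift_bounds h hb).2
      unfold kT
      dsimp only
      rw [ha'.1, hb'.1, ha'.2.1, hb'.2.1]
      congr 1
      rw [Bool.eq_iff_iff, decide_eq_true_eq, beq_iff_eq]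
      exact tp_class.symm
    rw [← e]
    exact (hc i hi).trans k.le

/-- PRICE FACT OF THE FRAME from a typed three point certificate. -/
theorem pxi_of_certC {n : ℕ} (hn : 122 ≤ n) {r v vc : ℝ} (hp : Par r v vc) {C : Type}
    (side par : C → Bool) {Reg : C × ℝ → Prop} {ιJ ιI : Type} {J : Finset ιJ}
    {ℓ : ιJ → C × ℝ → ℝ} {I : Finset ιI} {wR wL : ιI → ℝ → ℝ} {c : ιI → ℝ}
    (hw : ∀ i ∈ I, Ramps n r v (wR i) (wL i))
    (hc : ∀ i ∈ I, c i * n ≤ bW n r (wR i) (wL i))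
    (cert : CertifiedC n (13 / 18) par Reg J ℓ I (fun i => kT side par vc (wR i) (wL i)) c)
    {cl : (ℤ → Bool) → ℤ → C}
    (hcl : ∀ sd, Side n sd → ∀ x : ℤ, 0 ≤ x → x < n →
      side (cl sd x) = sd x ∧ par (cl sd x) = (tp n x).1 ∧ Reg (cl sd x, pos n x))
    (hJ : ∀ A : Finset ℕ, IsMaximalThreeFree n A → A.card ^ 2 < n → ∀ sd : ℤ → Bool, Side n sd →
      ∀ j ∈ J, 0 ≤ ∑ a ∈ shift A, ℓ j (cl sd a, pos n a))
    {A : Finset ℕ} (hA : IsMaximalThreeFree n A) (hlt : A.card ^ 2 < n) {t : ℕ} (ht : 5 ≤ t)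
    {D K ρ V ν : ℤ} (hD : D = 4 * K + 1) (e1 : 3 * D + 1 ≤ 4 ^ t * (n : ℤ))
    (e2 : 4 ^ t * (n : ℤ) ≤ 3 * D + 12) (hρ1 : r * D - 1 ≤ ρ) (hρ2 : (ρ:ℝ) ≤ r * D)
    (hν : (ν:ℝ) ≤ v * D) (hV : (1 - 3 * vc + 1 / 244) * (D:ℝ) + 12 ≤ V) :
    dd (PH (liftN t (shift A)) D V) (QH (liftN t (shift A)) D V) (2 * K + 1 + ρ - 6 * ν)
        ≤ K - ρ + 1 + nn (PH (liftN t (shift A)) D V) (1 + ρ) + 1 ∧
      dd (QH (liftN t (shift A)) D V) (PH (liftN t (shift A)) D V) (2 * K + 1 + ρ - 6 * ν)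
        ≤ K - ρ + 1 + nn (QH (liftN t (shift A)) D V) (1 + ρ) + 1 :=
  pxi_of_ramps hn hp
    (fun A hA hlt sd hsd => exists_ramps side par hw hc cert hcl hA hlt sd hsd
      (hJ A hA hlt sd hsd)) hA hlt ht hD e1 e2 hρ1 hρ2 hν hV

/-- the constant of the pair fact for linear ramps -/
lemma bW_lin {n n0 : ℕ} (h0 : 0 < n0) (hn : n0 ≤ n) {r a δ b δ' : ℝ} (hδ : 0 < δ) (ha : 0 ≤ a)
    (h1 : a + δ ≤ 1) (hδ' : 0 < δ') (hb : b ≤ 1) (h1' : δ' ≤ b) :
    ((1 / 4 - r) / 3 + (1 - a - δ / 2) + (b - δ' / 2)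
      - (3 / 8 + (1 / (8 * δ) + 1 / (8 * δ')) / n0) / n0) * n
      ≤ bW n r (rUp a δ) (rDn b δ') := by
  have hn0 : 0 < n := lt_of_lt_of_le h0 hn
  have r0 : (0:ℝ) < n0 := by exact_mod_cast h0
  have rn : (0:ℝ) < n := by exact_mod_cast hn0
  have hnn : (n0:ℝ) ≤ n := by exact_mod_cast hn
  have k1 := sum_rUp hn0 hδ ha h1
  have k2 := sum_rDn hn0 hδ' hb h1'
  unfold bW
  rw [sum_add_distrib]
  have d : ∀ e : ℝ, 0 < e → 1 / (8 * e * n) ≤ 1 / (8 * e) / n0 / n0 * n := by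
    intro e he
    rw [div_le_iff₀ (by positivity)]
    have : 1 / (8 * e) / n0 / n0 * n * (8 * e * n) = (n / n0) * (n / n0) := by
      field_simp
    rw [this]
    have h : (1:ℝ) ≤ n / n0 := by rw [le_div_iff₀ r0]; linarith
    nlinarith
  have d1 := d δ hδ
  have d2 := d δ' hδ'
  have d3 : (3:ℝ) / 8 ≤ 3 / 8 / n0 * n := by
    have h : (1:ℝ) ≤ n / n0 := by rw [le_div_iff₀ r0]; linarith
    have : (3:ℝ) / 8 / n0 * n = 3 / 8 * (n / n0) := by field_simp
    rw [this]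
    linarith
  have e : ((1 / 4 - r) / 3 + (1 - a - δ / 2) + (b - δ' / 2)
      - (3 / 8 + (1 / (8 * δ) + 1 / (8 * δ')) / n0) / n0) * n
      = (1 / 4 - r) / 3 * n + (1 - a - δ / 2) * n + (b - δ' / 2) * n
        - (3 / 8 / n0 * n + (1 / (8 * δ) / n0 / n0 * n + 1 / (8 * δ') / n0 / n0 * n)) := by
    field_simp
  rw [e]
  linarith

/-- a class map for segments: every position of every side and parity lies in the node run of some
class -/
theorem exists_cl {n N : ℕ} (hn : 0 < n) {C : Type} (side par : C → Bool) (lo hi : C → ℤ)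
    (hcov : ∀ (s e : Bool) (y : ℝ), 0 < y → y < 1 → (s = true → y ≤ 1 / 2) →
      (s = false → 1 / 2 ≤ y) → ∃ c : C, side c = s ∧ par c = e ∧ (lo c : ℝ) ≤ N * y ∧
        N * y ≤ (hi c : ℝ)) :
    ∃ cl : (ℤ → Bool) → ℤ → C, ∀ sd, Side n sd → ∀ x : ℤ, 0 ≤ x → x < n →
      side (cl sd x) = sd x ∧ par (cl sd x) = (tp n x).1 ∧
        MP61673a.Bridge.RegC N lo hi (cl sd x, pos n x) := by
  have key : ∀ (sd : ℤ → Bool) (x : ℤ), ∃ c : C, Side n sd → 0 ≤ x → x < n →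
      side c = sd x ∧ par c = (tp n x).1 ∧ MP61673a.Bridge.RegC N lo hi (c, pos n x) := by
    intro sd x
    by_cases h : Side n sd ∧ 0 ≤ x ∧ x < n
    · obtain ⟨hsd, h0, h1⟩ := h
      have hp := pos_mem h0 h1
      have hn' : (0:ℝ) < n := by exact_mod_cast hn
      obtain ⟨c, c1, c2, c3, c4⟩ := hcov (sd x) (tp n x).1 (pos n x) hp.1 hp.2 (fun hs => by
        have : ¬ (n:ℤ) < 2 * x + 1 := fun hlt => by
          have := hsd.2 x hlt
          rw [hs] at this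
          exact absurd this (by decide)
        have h2 : 2 * (x:ℝ) + 1 ≤ n := by exact_mod_cast not_lt.1 this
        unfold pos
        rw [div_le_iff₀ hn']
        linarith) (fun hs => by
        have : ¬ 2 * x + 1 < (n:ℤ) := fun hlt => by
          have := hsd.1 x hlt
          rw [hs] at this
          exact absurd this (by decide)
        have h2 : (n:ℝ) ≤ 2 * (x:ℝ) + 1 := by exact_mod_cast not_lt.1 this
        unfold pos
        rw [le_div_iff₀ hn']
        linarith)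
      exact ⟨c, fun _ _ _ => ⟨c1, c2, c3, c4, hp.1, hp.2⟩⟩
    · obtain ⟨c, -⟩ := hcov true true (1 / 2) (by norm_num) (by norm_num) (fun _ => le_rfl)
        (fun h => absurd h (by decide))
      exact ⟨c, fun a b d => absurd ⟨a, b, d⟩ h⟩
  choose cl hcl using key
  exact ⟨cl, fun sd hsd x h0 h1 => hcl sd x hsd h0 h1⟩

end

end MP61673a.PF
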