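import Pool.Agent.Mu673.AsmE
import Pool.Agent.Mu673.PriceClass

set_option autoImplicit false

/-!
The price fact of the frames (`PxCert` of `AsmE.lean`: `ρ = D/40`, `V = D/8`, near threshold `D/80`)
from the human form, and from a typed three point certificate.
-/

namespace MP61673a.PF

open Finset MP61673a.W MP61673a.TP
open MP61673a.Lift (shift liftN Mid Cov IsMaximalThreeFree cov_of_maximal)
open MP61673a.Fin (PH QH PxCert rhoE zE nearE)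

noncomputable section

lemma par_E {vc : ℝ} (h0 : 0 ≤ vc) (h1 : vc ≤ 1 / 3) : Par (1 / 40) (1 / 80) vc where
  r0 := by norm_num
  r1 := by norm_num
  v0 := by norm_num
  v1 := by norm_num
  c0 := h0
  c1 := h1

/-- the numerical conditions of `pxi_of_ramps` -/
lemma cond_E {n t : ℕ} (hn : 122 ≤ n) (ht : 10 ≤ t) {vc : ℝ} (h1 : 29304 / 100000 ≤ vc) {D : ℤ}
    (e2 : 4 ^ t * (n : ℤ) ≤ 3 * D + 12) :
    (1 / 40 : ℝ) * D - 1 ≤ ((rhoE D : ℤ) : ℝ) ∧ ((rhoE D : ℤ) : ℝ) ≤ (1 / 40 : ℝ) * D ∧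
      ((nearE D : ℤ) : ℝ) ≤ (1 / 80 : ℝ) * D ∧
      (1 - 3 * vc + 1 / 244) * (D : ℝ) + 12 ≤ ((zE D : ℤ) : ℝ) := by
  have hW : (1048576:ℤ) ≤ 4 ^ t := by
    calc (1048576:ℤ) = 4 ^ 10 := by norm_num
      _ ≤ 4 ^ t := pow_le_pow_right₀ (by norm_num) ht
  have hnn : (122:ℤ) ≤ n := by exact_mod_cast hn
  have hNW : 1048576 * 122 ≤ 4 ^ t * (n:ℤ) := mul_le_mul hW hnn (by norm_num) (by positivity)
  have hD : (42000000:ℤ) ≤ D := by omega
  have hDr : (42000000:ℝ) ≤ D := by exact_mod_cast hD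
  have a1 : D - 39 ≤ 40 * rhoE D := by unfold rhoE; omega
  have a2 : 40 * rhoE D ≤ D := by unfold rhoE; omega
  have a3 : 80 * nearE D ≤ D := by unfold nearE; omega
  have a4 : D - 7 ≤ 8 * zE D := by unfold zE; omega
  have r1 : (D:ℝ) - 39 ≤ 40 * ((rhoE D : ℤ) : ℝ) := by exact_mod_cast a1
  have r2 : 40 * ((rhoE D : ℤ) : ℝ) ≤ D := by exact_mod_cast a2
  have r3 : 80 * ((nearE D : ℤ) : ℝ) ≤ D := by exact_mod_cast a3
  have r4 : (D:ℝ) - 7 ≤ 8 * ((zE D : ℤ) : ℝ) := by exact_mod_cast a4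
  refine ⟨by linarith, by linarith, by linarith, ?_⟩
  have k : (1 - 3 * vc + 1 / 244) * (D : ℝ)
      ≤ (1 - 3 * (29304 / 100000) + 1 / 244) * (D : ℝ) :=
    mul_le_mul_of_nonneg_right (by linarith) (by linarith)
  linarith

/-- `PxCert` from the human form -/
theorem pxCert_of_ramps {n : ℕ} (hn : 122 ≤ n) {vc : ℝ} (hv : 29304 / 100000 ≤ vc)
    (hv1 : vc ≤ 1 / 3)
    (h : ∀ A : Finset ℕ, IsMaximalThreeFree n A → A.card ^ 2 < n → ∀ sd : ℤ → Bool, Side n sd →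
      ∃ wR wL : ℝ → ℝ, Ramps n (1 / 40) (1 / 80) wR wL ∧
        sW n vc wR wL sd (shift A) ≤ bW n (1 / 40) wR wL)
    {A : Finset ℕ} (hA : IsMaximalThreeFree n A) (hlt : A.card ^ 2 < n) : PxCert n A := by
  intro t D K ht hD e1 e2
  have c := cond_E hn ht hv e2
  exact pxi_of_ramps hn (par_E (by linarith) hv1) h hA hlt (by omega) hD e1 e2 c.1 c.2.1 c.2.2.1 c.2.2.2

/-- `PxCert` from a typed three point certificate -/
theorem pxCert_of_certC {n : ℕ} (hn : 122 ≤ n) {vc : ℝ} (hv : 29304 / 100000 ≤ vc)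
    (hv1 : vc ≤ 1 / 3) {C : Type}
    (side par : C → Bool) {Reg : C × ℝ → Prop} {ιJ ιI : Type} {J : Finset ιJ}
    {ℓ : ιJ → C × ℝ → ℝ} {I : Finset ιI} {wR wL : ιI → ℝ → ℝ} {c : ιI → ℝ}
    (hw : ∀ i ∈ I, Ramps n (1 / 40) (1 / 80) (wR i) (wL i))
    (hc : ∀ i ∈ I, c i * n ≤ bW n (1 / 40) (wR i) (wL i))
    (cert : CertifiedC n (13 / 18) par Reg J ℓ I (fun i => kT side par vc (wR i) (wL i)) c)
    {cl : (ℤ → Bool) → ℤ → C}
    (hcl : ∀ sd, Side n sd → ∀ x : ℤ, 0 ≤ x → x < n →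
      side (cl sd x) = sd x ∧ par (cl sd x) = (tp n x).1 ∧ Reg (cl sd x, pos n x))
    (hJ : ∀ A : Finset ℕ, IsMaximalThreeFree n A → A.card ^ 2 < n → ∀ sd : ℤ → Bool, Side n sd →
      ∀ j ∈ J, 0 ≤ ∑ a ∈ shift A, ℓ j (cl sd a, pos n a))
    {A : Finset ℕ} (hA : IsMaximalThreeFree n A) (hlt : A.card ^ 2 < n) : PxCert n A :=
  pxCert_of_ramps hn hv hv1 (fun A hA hlt sd hsd =>
    exists_ramps side par hw hc cert hcl hA hlt sd hsd (hJ A hA hlt sd hsd)) hA hlt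

end

end MP61673a.PF
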