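import Pool.Agent.Mu673.PriceEndV
import Pool.Agent.Mu673.PriceFin
import Pool.Agent.Mu673.AsmS

/-!
The price fact `PxCert6` (`xi = 3/20`: right threshold `7/8`) from integer data.
-/

set_option autoImplicit false

namespace MP61673a.KC

open MP61673a.Lift (IsMaximalThreeFree)
open MP61673a.Fin (PxCert6)

/-- `PxCert6` from integer data -/
theorem pxCert6_of_data {d : DatS} {X : List (List ℕ)} {o2 Mx Mw n0 E E1 M S c0 nv den af : ℕ}
    {kd : List ℕ} {J : List FnS} {I : List Prf} {TL : List PT} {sides : List ℕ}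
    (hN : d.N = M + 1) (hfn : d.fn = allF J I) (hb : bndS d = true) (hs : symS d = true)
    (hg : chkG d = true) (hX : chkY d X I o2 Mx Mw n0 E E1 = true)
    (hT : chkAll d S c0 o2 Mx nv sides TL I = true)
    (hJ : chkJs d af den kd J = true) (hcov : chkCov d sides = true)
    (hW : chkWinV d.N n0 7 8 E S TL I = true)
    (ho : o2 ≤ (d.N + 1) / 2) (hn0 : d.N ≤ n0) (h122 : 122 ≤ n0) (hBd : 0 < d.Bd) (hE : 0 < E)
    (hE1 : E ≤ E1) (hden : 0 < den) (hv : 29304 * d.N ≤ 100000 * nv) (hv1 : 3 * nv ≤ d.N)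
    (hm : segCheck d 0 (vN d.segs) = true) {n : ℕ} (hn : n0 ≤ n)
    {A : Finset ℕ} (hA : IsMaximalThreeFree n A) (hlt : A.card ^ 2 < n) : PxCert6 n A := by
  intro t D K ht hD e1 e2
  have hN0 : 0 < d.N := by omega
  have hN' : (0:ℝ) < d.N := by exact_mod_cast hN0
  have hvr : (29304 / 100000 : ℝ) ≤ (nv:ℝ) / d.N := by
    rw [le_div_iff₀ hN']
    have : (29304:ℝ) * d.N ≤ 100000 * nv := by exact_mod_cast hv
    linarith
  have c := MP61673a.PF.cond_E (n := n) (by omega) ht hvr e2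
  exact px_of_data (pn := 7) (pd := 8) hN hfn hb hs hg hX hT hJ hcov hW ho hn0 h122 hBd hE hE1
    hden hm hn (v := 1 / 40) (by norm_num) (by
      unfold MP61673a.PF.yRp
      norm_num) (by norm_num) (by norm_num) hv1 hA hlt (by omega) hD e1 e2 c.1 c.2.1 c.2.1 c.2.2.2

end MP61673a.KC
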