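import Pool.Agent.Mu673.PriceSixCheck
import Pool.Agent.Mu673.PriceEnd6

/-!
THE PRICE FACT with near parameter `D/40`: `PxCert6 n A` for all `n ≥ 122` and every maximal `A`
with `|A|^2 < n`.
-/

set_option autoImplicit false
set_option maxRecDepth 100000

namespace MP61673a.KC.PriceSix

open MP61673a.Lift (IsMaximalThreeFree)
open MP61673a.Fin (PxCert6)

theorem facts_ok : chkJs dat 14 15 [2, 0, 1] facJ = true := by decide +kernel

theorem cov_ok : chkCov dat sds = true := by decide +kernel

theorem win_ok : chkWinV dat.N 122 7 8 100000 8 [ptt] facI = true := by decide +kernel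

theorem vN_eq : vN dat.segs = 122 := by decide +kernel

theorem N_eq : dat.N = 58 := rfl

theorem chunk {lo hi : ℕ} (h : segCheckB 7 dat lo hi = true) (hh : hi ≤ 122) :
    segCheck dat lo hi = true :=
  segCheck_of_B dat bnds_ok (k := 7) (by rw [vN_eq]; norm_num)
    (show 69063630 + 412316860416 < 2 ^ 39 by norm_num) h (by rw [vN_eq]; exact hh)

theorem seg_all : segCheck dat 0 (vN dat.segs) = true := by
  rw [vN_eq]
  have c0 := chunk m0 (by norm_num)
  have c1 := segCheck_join dat c0 (chunk m1 (by norm_num)) (by norm_num) (by norm_num)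
  have c2 := segCheck_join dat c1 (chunk m2 (by norm_num)) (by norm_num) (by norm_num)
  have c3 := segCheck_join dat c2 (chunk m3 (by norm_num)) (by norm_num) (by norm_num)
  have c4 := segCheck_join dat c3 (chunk m4 (by norm_num)) (by norm_num) (by norm_num)
  have c5 := segCheck_join dat c4 (chunk m5 (by norm_num)) (by norm_num) (by norm_num)
  have c6 := segCheck_join dat c5 (chunk m6 (by norm_num)) (by norm_num) (by norm_num)
  exact segCheck_join dat c6 (chunk m7 (by norm_num)) (by norm_num) (by norm_num)

/-- THE PRICE FACT, near parameter `D/40` -/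
theorem pxCert6 {n : ℕ} (hn : 122 ≤ n) {A : Finset ℕ} (hA : IsMaximalThreeFree n A)
    (hlt : A.card ^ 2 < n) : PxCert6 n A :=
  pxCert6_of_data (d := dat) (X := lab) (o2 := 29) (Mx := 123) (Mw := 121) (n0 := 122)
    (E := 100000) (E1 := 100000) (M := 57) (S := 8) (c0 := 0) (nv := 17) (den := 15) (af := 14)
    (kd := [2, 0, 1]) (J := facJ) (I := facI) (TL := [ptt]) (sides := sds) rfl rfl bnds_ok syms_ok
    segs_ok lab_ok tab_ok facts_ok cov_ok win_ok (by rw [N_eq]) (by rw [N_eq]; norm_num)
    (by norm_num) (show 0 < 69063630 by norm_num) (by norm_num) (by norm_num) (by norm_num)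
    (by rw [N_eq]; norm_num) (by rw [N_eq]; norm_num) seg_all hn hA hlt

end MP61673a.KC.PriceSix
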