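import Pool.Agent.Mu673.SmallC9_0
import Pool.Agent.Mu673.SmallC9_1
import Pool.Agent.Mu673.SmallC9_2
import Pool.Agent.Mu673.SmallC9_3

set_option autoImplicit false
set_option maxRecDepth 1000000

/-!
The top of the tree for `k = 9`.
-/

namespace MP61673a.Small

open Finset

/-- all states of the table -/
def tab9 : List (List (List ℕ × ℕ)) := [
tab9_0,tab9_1,tab9_2,tab9_3]

/-- certificate for the top -/
noncomputable def top9 : List ℕ := [
0,
0x210090a08c6064304318294e18c60e5308318494e28c616538c318694e38c61e5390318894e48c6265394318a94e58c62e5398318c94e68c636539c318e94e78c63e53a0319094e88a5464324295290c98a54e4328295490ca8a556432c295690cb8a55e433010c000,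
515,267,780,779,523,10,11,522,266,777,521,264,520,776,775,263,518,262,517,772,2,3,513,769,1,257,770,
258,514,771,259,260,4,773,516,261,5,6,774,519,7,8,265,9,778,268,524,12,0,
0xa80056002c0016800b8005e00300018800c800660034001a800d8006e0038001c800e80076003c31d44f,0,
0xa80056002d0017000bc006000320019800d0006a0036001b800e00072003b4a53cd,0,0x2a0015800b0005a002e0017bb]

theorem run9 : topRun 2716 82 97 4 5 tab9 9 33 top9 = true := by decide +kernel

theorem refl9 : ∀ l ∈ tab9, RefL 9 82 97 4 5 l := by
  intro l hl
  unfold tab9 at hl
  simp only [List.mem_cons, List.not_mem_nil, or_false] at hl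
  rcases hl with rfl | rfl | rfl | rfl
  · exact ref9_0
  · exact ref9_1
  · exact ref9_2
  · exact ref9_3

theorem ref9 : Ref (Adm 9 82 97 4 5) ∅ (range 97) :=
  topRun_sound (K := 388) ⟨by norm_num, by norm_num, by norm_num, by norm_num⟩ refl9 run9

end MP61673a.Small
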