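import Pool.Agent.Mu673.SmallK
import Pool.Agent.Mu673.SmallR
import Pool.Agent.Mu673.SmallT9
import Pool.Agent.Mu673.SmallT10

set_option autoImplicit false

/-!
The inequality for `n ≤ 121`.
-/

namespace MP61673a.Small

/-- the lower bound for `n ≤ 121` -/
theorem small {n : ℕ} {A : Finset ℕ} (h : Lift.IsMaximalThreeFree n A) (hn : n ≤ 121) :
    n ≤ A.card ^ 2 := by
  refine small_of (K := 10) ?_ h hn
  intro k hk
  by_cases h3 : k ≤ 3
  · exact ref_trivial k h3
  · push Not at h3
    interval_cases k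
    · exact ⟨18, 2, 2, by decide +kernel, ref4⟩
    · exact ⟨29, 2, 3, by decide +kernel, ref5⟩
    · exact ⟨42, 3, 3, by decide +kernel, ref6⟩
    · exact ⟨58, 3, 4, by decide +kernel, ref7⟩
    · exact ⟨77, 3, 5, by decide +kernel, ref8⟩
    · exact ⟨97, 4, 5, by decide +kernel, ref9⟩
    · exact ⟨121, 4, 6, by decide +kernel, ref10⟩

end MP61673a.Small
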