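import Pool.Agent.Mu673.AsmS
import Pool.Agent.Mu673.RowDefs
import Pool.Agent.Mu673.LightEnd
import Pool.Agent.Mu673.Small
import Pool.Agent.Mu673.PriceSixFinal

set_option autoImplicit false

/-!
LAST ASSEMBLY WITH THE STRIP (helper82). The rows are needed for the depths `τ > D/40` only; instead
the price fact has the threshold moved by `6 ρ` (or the weaker near facts `NearCert`).
-/

namespace MP61673a.Fin

open Finset MP61673a.W MP61673a.LiftW MP61673a.Mids
open MP61673a.Lift hiding PP QQ

noncomputable section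

/-- THE THEOREM FOR ONE SET from the far share, the price, the near facts and the rows beyond
`D/40` -/
theorem main_oneS {n : ℕ} {A : Finset ℕ} (h : IsMaximalThreeFree n A) (hn : 122 ≤ n)
    {K0 : ℤ} {f C : ℝ} (hfar : A.card ^ 2 < n → FarCert n A f)
    (hpx : A.card ^ 2 < n → PxCert n A) (hlit : A.card ^ 2 < n → LitCert n A)
    (hnear : A.card ^ 2 < n → NearCert n A)
    (hrow : RowTail K0 f C n 80 2) : n ≤ A.card ^ 2 := by
  have hR : RowTail K0 f (max 0 C) n 80 2 := hrow.mono le_rfl le_rfl (le_max_right _ _)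
  refine asmS h hn (K0 := K0) (f := f) (C := max 0 C) (le_max_left _ _) hfar hpx hlit hnear ?_
  intro P Q D K ρ V E ξR ξL env lo τ h1 h2 h3 h4
  have e1 := env.eρ
  have e2 := env.near_le
  unfold rhoE at e1
  exact hR env lo τ h1 h2 (by omega) (by omega) h4

/-- THE THEOREM from the rows beyond `D/40` -/
theorem main_allS
    (hrow : ∀ N : ℤ, 122 ≤ N → ∃ (K0 : ℤ) (C : ℝ), RowTail K0 (1 / 20) C N 80 2)
    (n : ℕ) (A : Finset ℕ) (h : IsMaximalThreeFree n A) : n ≤ A.card ^ 2 := by
  by_cases hn : n ≤ 121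
  · exact MP61673a.Small.small h hn
  · have hn' : 122 ≤ n := by omega
    obtain ⟨K2, C2, hR⟩ := hrow n (by exact_mod_cast hn')
    exact main_oneS h hn' (fun hlt => farCert_twentieth hn' h hlt)
      (fun hlt => (MP61673a.KC.PriceSix.pxCert6 hn' h hlt).px hn')
      (fun hlt t D c ht hc e1 e2 => light_twentieth hn' h hlt ht hc e1 e2)
      (fun hlt => (MP61673a.KC.PriceSix.pxCert6 hn' h hlt).near hn') hR

end

end MP61673a.Fin
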