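import Pool.Agent.Mu673.Row3

/-!
THREE-POINT FORM, the net of a stray without doubled role (exact) and the deep charge.
-/

namespace MP61673a.Fin

open Finset MP61673a.W MP61673a.LiftW MP61673a.Mids MP61673a.Sos
open MP61673a.Lift hiding PP QQ

noncomputable section

/-- indicator -/
def bo (p : Prop) [Decidable p] : ℝ := if p then 1 else 0

lemma bo_true {p : Prop} [Decidable p] (h : p) : bo p = 1 := if_pos h

lemma bo_false {p : Prop} [Decidable p] (h : ¬ p) : bo p = 0 := if_neg h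

lemma bo_nonneg (p : Prop) [Decidable p] : 0 ≤ bo p := by
  unfold bo
  split_ifs <;> norm_num

lemma bo_le_one (p : Prop) [Decidable p] : bo p ≤ 1 := by
  unfold bo
  split_ifs <;> norm_num

/-- pairs counted by `nn P y` -/
def kNP (V y : ℤ) (a b : P3) : ℝ :=
  bo ((a.1 = false ∧ b.1 = false) ∧ -V ≤ b.2 ∧ y ≤ a.2 - 2 * b.2)

/-- pairs counted by `nn Q y` -/
def kNQ (V y : ℤ) (a b : P3) : ℝ :=
  bo ((a.1 = true ∧ b.1 = true) ∧ -V ≤ b.2 ∧ y ≤ a.2 - 2 * b.2)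

/-- pairs counted by `dd P Q x`, `a` single in `P`, `b` doubled in `Q` -/
def kPQ (x : ℤ) (a b : P3) : ℝ := bo ((a.1 = false ∧ b.1 = true) ∧ x ≤ a.2 + 2 * b.2)

/-- pairs counted by `dd Q P x` -/
def kQP (x : ℤ) (a b : P3) : ℝ := bo ((a.1 = true ∧ b.1 = false) ∧ x ≤ a.2 + 2 * b.2)

lemma T2_kNP {P Q : WS} {V : ℤ} (dP : Dbl P V) (y : ℤ) : T2 P Q (kNP V y) = nn P y := by
  rw [T2_four]
  unfold kNP bo
  simp only [Bool.true_eq_false, and_false, false_and, if_false, mul_zero,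
    sum_const_zero, add_zero, and_true, true_and]
  unfold nn
  refine sum_congr rfl fun a _ => sum_congr rfl fun b hb => ?_
  rw [dP b hb]
  by_cases c1 : -V ≤ P.u b
  · by_cases c2 : y ≤ P.u a - 2 * P.u b
    · rw [if_pos ⟨c1, c2⟩, if_pos c2, if_pos c1, mul_one]
    · rw [if_neg (fun h => c2 h.2), if_neg c2, mul_zero]
  · rw [if_neg (fun h => c1 h.1), if_neg c1, mul_zero, mul_zero]
    split_ifs <;> rfl

lemma T2_kNQ {P Q : WS} {V : ℤ} (dQ : Dbl Q V) (y : ℤ) : T2 P Q (kNQ V y) = nn Q y := by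
  rw [T2_four]
  unfold kNQ bo
  simp only [Bool.false_eq_true, and_false, false_and, if_false, mul_zero,
    sum_const_zero, add_zero, zero_add, and_true, true_and]
  unfold nn
  refine sum_congr rfl fun a _ => sum_congr rfl fun b hb => ?_
  rw [dQ b hb]
  by_cases c1 : -V ≤ Q.u b
  · by_cases c2 : y ≤ Q.u a - 2 * Q.u b
    · rw [if_pos ⟨c1, c2⟩, if_pos c2, if_pos c1, mul_one]
    · rw [if_neg (fun h => c2 h.2), if_neg c2, mul_zero]
  · rw [if_neg (fun h => c1 h.1), if_neg c1, mul_zero, mul_zero]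
    split_ifs <;> rfl

lemma T2_kPQ (P Q : WS) (x : ℤ) : T2 P Q (kPQ x) = dd P Q x := by
  rw [T2_four]
  unfold kPQ bo
  simp only [Bool.false_eq_true, Bool.true_eq_false, and_false, false_and, if_false, mul_zero,
    sum_const_zero, add_zero, zero_add, and_true, true_and]
  unfold dd
  refine sum_congr rfl fun a _ => sum_congr rfl fun b _ => ?_
  split_ifs <;> ring

lemma T2_kQP (P Q : WS) (x : ℤ) : T2 P Q (kQP x) = dd Q P x := by
  rw [T2_four]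
  unfold kQP bo
  simp only [Bool.false_eq_true, Bool.true_eq_false, and_false, false_and, if_false, mul_zero,
    sum_const_zero, add_zero, zero_add, and_true, true_and]
  unfold dd
  refine sum_congr rfl fun a _ => sum_congr rfl fun b _ => ?_
  split_ifs <;> ring

/-- sharing weight of the midpoint of the stray at depth `t` with the element `u` of its side -/
def omw (t u : ℤ) : ℝ := if u < 0 then deeper t (-u) else 1

/-- number part of the price at depth `j` -/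
def kvr (K ρ j : ℤ) : ℝ := ((kv K ρ j : ℤ) : ℝ)

/-- threshold of the pair part of the price at depth `j` -/
def thr (K ρ j : ℤ) : ℤ := 2 * max (K - j) 0 + 1 + ρ

/-- ONE-BODY PART of the net of a stray at depth `t > V` of `Q` -/
def n1out (K ρ E lo t : ℤ) (x : P3) : ℝ :=
  if x.1 = false then
    (K - ρ + 1) * (bo (lo - t ≤ x.2 ∧ x.2 < 2 * t) + bo (lo - t ≤ x.2 ∧ 2 * x.2 < t))
      - 1 / 2 * (bo (0 < (t + x.2 - (4 * K + 1) + 0) / 2)
          * kvr K ρ ((t + x.2 - (4 * K + 1) + 0) / 2)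
        + bo (0 < (t + x.2 - (4 * K + 1) + E) / 2)
          * kvr K ρ ((t + x.2 - (4 * K + 1) + E) / 2))
  else
    -(bo (1 ≤ x.2 + 2 * t ∧ x.2 + 2 * t ≤ 4 * K + 1) * kvr K ρ (x.2 + 2 * t))
      - bo (1 ≤ 2 * x.2 + t - (4 * K + 1) ∧ 2 * x.2 + t - (4 * K + 1) ≤ 4 * K + 1)
        * kvr K ρ (2 * x.2 + t - (4 * K + 1))
      - 1 / 2 * omw t x.2 * (bo (0 < (t - x.2 + 0) / 2) * kvr K ρ ((t - x.2 + 0) / 2)
        + bo (0 < (t - x.2 + E) / 2) * kvr K ρ ((t - x.2 + E) / 2))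

/-- THREE-BODY PART of the net of a stray at depth `t > V` of `Q`, exact -/
def n3out (K ρ V E lo t : ℤ) (x y z : P3) : ℝ :=
  if x.1 = false then
    bo (lo - t ≤ x.2 ∧ x.2 < 2 * t) * kNP V (1 + ρ) y z
      + bo (lo - t ≤ x.2 ∧ 2 * x.2 < t) * kNQ V (1 + ρ) y z
      + bo (2 * t ≤ x.2) * kPQ (2 * K + 1 + ρ + 2 * (x.2 - 2 * t)) y z
      + bo (t ≤ 2 * x.2) * kQP (2 * K + 1 + ρ + 2 * (2 * x.2 - t)) y z
      - 1 / 2 * (bo (0 < (t + x.2 - (4 * K + 1) + 0) / 2 ∧ ρ ≤ (t + x.2 - (4 * K + 1) + 0) / 2)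
          * kNP V (thr K ρ ((t + x.2 - (4 * K + 1) + 0) / 2)) y z
        + bo (0 < (t + x.2 - (4 * K + 1) + E) / 2 ∧ ρ ≤ (t + x.2 - (4 * K + 1) + E) / 2)
          * kNP V (thr K ρ ((t + x.2 - (4 * K + 1) + E) / 2)) y z)
  else
    -(bo ((1 ≤ x.2 + 2 * t ∧ x.2 + 2 * t ≤ 4 * K + 1) ∧ ρ ≤ x.2 + 2 * t)
        * kNP V (thr K ρ (x.2 + 2 * t)) y z)
      + bo (1 ≤ x.2 + 2 * t ∧ x.2 + 2 * t ≤ 4 * K + 1)
        * kPQ (2 * K + 1 + ρ + 2 * (4 * K + 1 - (x.2 + 2 * t))) y z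
      - bo ((1 ≤ 2 * x.2 + t - (4 * K + 1) ∧ 2 * x.2 + t - (4 * K + 1) ≤ 4 * K + 1)
          ∧ ρ ≤ 2 * x.2 + t - (4 * K + 1))
        * kNQ V (thr K ρ (2 * x.2 + t - (4 * K + 1))) y z
      + bo (1 ≤ 2 * x.2 + t - (4 * K + 1) ∧ 2 * x.2 + t - (4 * K + 1) ≤ 4 * K + 1)
        * kQP (2 * K + 1 + ρ + 2 * (2 * (4 * K + 1) - 2 * x.2 - t)) y z
      - 1 / 2 * omw t x.2
        * (bo (0 < (t - x.2 + 0) / 2 ∧ ρ ≤ (t - x.2 + 0) / 2)
            * kNP V (thr K ρ ((t - x.2 + 0) / 2)) y z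
          + bo (0 < (t - x.2 + E) / 2 ∧ ρ ≤ (t - x.2 + E) / 2)
            * kNP V (thr K ρ ((t - x.2 + E) / 2)) y z)

lemma T2_lin4 (P Q : WS) (a b c d e f : ℝ) (g1 g2 g3 g4 g5 g6 : P3 → P3 → ℝ) :
    T2 P Q (fun y z => a * g1 y z + b * g2 y z + c * g3 y z + d * g4 y z
      - 1 / 2 * (e * g5 y z + f * g6 y z))
      = a * T2 P Q g1 + b * T2 P Q g2 + c * T2 P Q g3 + d * T2 P Q g4
        - 1 / 2 * (e * T2 P Q g5 + f * T2 P Q g6) := by
  rw [← T2_mul P Q a, ← T2_mul P Q b, ← T2_mul P Q c, ← T2_mul P Q d, ← T2_mul P Q e,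
    ← T2_mul P Q f, ← T2_add P Q (fun y z => e * g5 y z), ← T2_mul P Q (1 / 2),
    ← T2_add P Q (fun y z => a * g1 y z),
    ← T2_add P Q (fun y z => a * g1 y z + b * g2 y z),
    ← T2_add P Q (fun y z => a * g1 y z + b * g2 y z + c * g3 y z),
    ← T2_sub P Q (fun y z => a * g1 y z + b * g2 y z + c * g3 y z + d * g4 y z)]

lemma T2_lin5 (P Q : WS) (a b c d w e f : ℝ) (g1 g2 g3 g4 g5 g6 : P3 → P3 → ℝ) :
    T2 P Q (fun y z => -(a * g1 y z) + b * g2 y z - c * g3 y z + d * g4 y z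
      - 1 / 2 * w * (e * g5 y z + f * g6 y z))
      = -(a * T2 P Q g1) + b * T2 P Q g2 - c * T2 P Q g3 + d * T2 P Q g4
        - 1 / 2 * w * (e * T2 P Q g5 + f * T2 P Q g6) := by
  have h := T2_lin4 P Q (-a) b (-c) d (w * e) (w * f) g1 g2 g3 g4 g5 g6
  have e1 : (fun y z => -(a * g1 y z) + b * g2 y z - c * g3 y z + d * g4 y z
      - 1 / 2 * w * (e * g5 y z + f * g6 y z))
      = (fun y z => -a * g1 y z + b * g2 y z + -c * g3 y z + d * g4 y z
      - 1 / 2 * (w * e * g5 y z + w * f * g6 y z)) := by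
    funext y z
    ring
  rw [e1, h]
  ring

/-- THE NET OF A STRAY WITHOUT DOUBLED ROLE IN THREE-POINT FORM, exact -/
theorem net3 {P Q : WS} {K ρ V E lo t : ℤ} (dP : Dbl P V) (dQ : Dbl Q V)
    (hρ : ρ ≤ K + 1) (hVt : V < t) (hlo : lo ≤ 1) (ht : 1 ≤ t) :
    netE P Q deeper (4 * K + 1) K (K - ρ) ρ ρ V E lo t
      = T1 P Q (n1out K ρ E lo t) + T3 P Q (n3out K ρ V E lo t) := by
  have h1 := pairNetE_out P Q K (K - ρ) ρ ρ hVt hlo ht
  have h3 : own P Q (4 * K + 1) K (K - ρ) ρ V t = 0 := by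
    unfold own
    rw [if_neg (by omega)]
  have h4 : deepNetE P Q (4 * K + 1) K (K - ρ) ρ V t = 0 := by
    unfold deepNetE
    rw [if_neg (by omega)]
  have h5 := exB_eq P Q (K := K) (ρ := ρ) (t := t) hρ
  have m0 := mid_eqE P Q (K := K) (ρ := ρ) hρ deeper 0 t
  have mE := mid_eqE P Q (K := K) (ρ := ρ) hρ deeper E t
  -- the right hand side, per point
  have r1 : T1 P Q (n1out K ρ E lo t) + T3 P Q (n3out K ρ V E lo t)
      = ∑ a ∈ P.S, P.f a * (n1out K ρ E lo t (false, P.u a)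
          + T2 P Q (n3out K ρ V E lo t (false, P.u a)))
        + ∑ b ∈ Q.S, Q.f b * (n1out K ρ E lo t (true, Q.u b)
          + T2 P Q (n3out K ρ V E lo t (true, Q.u b))) := by
    rw [T3_eq, ← T1_add, T1_eq]
  have rP : ∀ u : ℤ, T2 P Q (n3out K ρ V E lo t (false, u))
      = bo (lo - t ≤ u ∧ u < 2 * t) * nn P (1 + ρ)
      + bo (lo - t ≤ u ∧ 2 * u < t) * nn Q (1 + ρ)
      + bo (2 * t ≤ u) * dd P Q (2 * K + 1 + ρ + 2 * (u - 2 * t))
      + bo (t ≤ 2 * u) * dd Q P (2 * K + 1 + ρ + 2 * (2 * u - t))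
      - 1 / 2 * (bo (0 < (t + u - (4 * K + 1) + 0) / 2 ∧ ρ ≤ (t + u - (4 * K + 1) + 0) / 2)
          * nn P (thr K ρ ((t + u - (4 * K + 1) + 0) / 2))
        + bo (0 < (t + u - (4 * K + 1) + E) / 2 ∧ ρ ≤ (t + u - (4 * K + 1) + E) / 2)
          * nn P (thr K ρ ((t + u - (4 * K + 1) + E) / 2))) := by
    intro u
    have e : n3out K ρ V E lo t (false, u) = fun y z =>
      bo (lo - t ≤ u ∧ u < 2 * t) * kNP V (1 + ρ) y z
      + bo (lo - t ≤ u ∧ 2 * u < t) * kNQ V (1 + ρ) y z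
      + bo (2 * t ≤ u) * kPQ (2 * K + 1 + ρ + 2 * (u - 2 * t)) y z
      + bo (t ≤ 2 * u) * kQP (2 * K + 1 + ρ + 2 * (2 * u - t)) y z
      - 1 / 2 * (bo (0 < (t + u - (4 * K + 1) + 0) / 2 ∧ ρ ≤ (t + u - (4 * K + 1) + 0) / 2)
          * kNP V (thr K ρ ((t + u - (4 * K + 1) + 0) / 2)) y z
        + bo (0 < (t + u - (4 * K + 1) + E) / 2 ∧ ρ ≤ (t + u - (4 * K + 1) + E) / 2)
          * kNP V (thr K ρ ((t + u - (4 * K + 1) + E) / 2)) y z) := by
      funext y z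
      unfold n3out
      rw [if_pos rfl]
    rw [e, T2_lin4, T2_kNP dP, T2_kNQ dQ, T2_kPQ, T2_kQP, T2_kNP dP, T2_kNP dP]
  have rQ : ∀ u : ℤ, T2 P Q (n3out K ρ V E lo t (true, u))
      = -(bo ((1 ≤ u + 2 * t ∧ u + 2 * t ≤ 4 * K + 1) ∧ ρ ≤ u + 2 * t)
        * nn P (thr K ρ (u + 2 * t)))
      + bo (1 ≤ u + 2 * t ∧ u + 2 * t ≤ 4 * K + 1)
        * dd P Q (2 * K + 1 + ρ + 2 * (4 * K + 1 - (u + 2 * t)))
      - bo ((1 ≤ 2 * u + t - (4 * K + 1) ∧ 2 * u + t - (4 * K + 1) ≤ 4 * K + 1)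
          ∧ ρ ≤ 2 * u + t - (4 * K + 1))
        * nn Q (thr K ρ (2 * u + t - (4 * K + 1)))
      + bo (1 ≤ 2 * u + t - (4 * K + 1) ∧ 2 * u + t - (4 * K + 1) ≤ 4 * K + 1)
        * dd Q P (2 * K + 1 + ρ + 2 * (2 * (4 * K + 1) - 2 * u - t))
      - 1 / 2 * omw t u
        * (bo (0 < (t - u + 0) / 2 ∧ ρ ≤ (t - u + 0) / 2)
            * nn P (thr K ρ ((t - u + 0) / 2))
          + bo (0 < (t - u + E) / 2 ∧ ρ ≤ (t - u + E) / 2)
            * nn P (thr K ρ ((t - u + E) / 2))) := by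
    intro u
    have e : n3out K ρ V E lo t (true, u) = fun y z =>
      -(bo ((1 ≤ u + 2 * t ∧ u + 2 * t ≤ 4 * K + 1) ∧ ρ ≤ u + 2 * t)
        * kNP V (thr K ρ (u + 2 * t)) y z)
      + bo (1 ≤ u + 2 * t ∧ u + 2 * t ≤ 4 * K + 1)
        * kPQ (2 * K + 1 + ρ + 2 * (4 * K + 1 - (u + 2 * t))) y z
      - bo ((1 ≤ 2 * u + t - (4 * K + 1) ∧ 2 * u + t - (4 * K + 1) ≤ 4 * K + 1)
          ∧ ρ ≤ 2 * u + t - (4 * K + 1))
        * kNQ V (thr K ρ (2 * u + t - (4 * K + 1))) y z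
      + bo (1 ≤ 2 * u + t - (4 * K + 1) ∧ 2 * u + t - (4 * K + 1) ≤ 4 * K + 1)
        * kQP (2 * K + 1 + ρ + 2 * (2 * (4 * K + 1) - 2 * u - t)) y z
      - 1 / 2 * omw t u
        * (bo (0 < (t - u + 0) / 2 ∧ ρ ≤ (t - u + 0) / 2)
            * kNP V (thr K ρ ((t - u + 0) / 2)) y z
          + bo (0 < (t - u + E) / 2 ∧ ρ ≤ (t - u + E) / 2)
            * kNP V (thr K ρ ((t - u + E) / 2)) y z) := by
      funext y z
      unfold n3out
      rw [if_neg (by simp)]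
    rw [e, T2_lin5, T2_kNP dP, T2_kPQ, T2_kNQ dQ, T2_kQP, T2_kNP dP, T2_kNP dP]
  have cK : ((K - ρ : ℤ) : ℝ) = (K:ℝ) - ρ := by push_cast; ring
  -- the left hand side, per point
  have lP : ∀ a ∈ P.S, P.f a * (n1out K ρ E lo t (false, P.u a)
          + T2 P Q (n3out K ρ V E lo t (false, P.u a)))
      = ((K:ℝ) - ρ + 1 + nn P (1 + ρ)) * (if lo - t ≤ P.u a ∧ P.u a < 2 * t then P.f a else 0)
        + ((K:ℝ) - ρ + 1 + nn Q (1 + ρ))
          * (if lo - t ≤ P.u a ∧ P.u a < (t + 1) / 2 then P.f a else 0)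
        + (if 2 * t ≤ P.u a then
            P.f a * dd P Q (2 * K + 1 + ρ + 2 * (P.u a - 2 * t)) else 0)
        + (if t ≤ 2 * P.u a then
            P.f a * dd Q P (2 * K + 1 + ρ + 2 * (2 * P.u a - t)) else 0)
        - 1 / 2 * (P.f a * (if 0 < (t + P.u a - (4 * K + 1) + 0) / 2 then
            ((kv K ρ ((t + P.u a - (4 * K + 1) + 0) / 2) : ℤ) : ℝ)
            + (if ρ ≤ (t + P.u a - (4 * K + 1) + 0) / 2 then
                nn P (2 * max (K - (t + P.u a - (4 * K + 1) + 0) / 2) 0 + 1 + ρ) else 0)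
            else 0)
          + P.f a * (if 0 < (t + P.u a - (4 * K + 1) + E) / 2 then
            ((kv K ρ ((t + P.u a - (4 * K + 1) + E) / 2) : ℤ) : ℝ)
            + (if ρ ≤ (t + P.u a - (4 * K + 1) + E) / 2 then
                nn P (2 * max (K - (t + P.u a - (4 * K + 1) + E) / 2) 0 + 1 + ρ) else 0)
            else 0)) := by
    intro a _
    rw [rP]
    unfold n1out bo kvr thr
    rw [if_pos rfl]
    have e1 : (if lo - t ≤ P.u a ∧ P.u a < (t + 1) / 2 then P.f a else 0)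
        = P.f a * (if lo - t ≤ P.u a ∧ 2 * P.u a < t then 1 else 0) := by
      by_cases c : lo - t ≤ P.u a ∧ 2 * P.u a < t
      · rw [if_pos c, if_pos (by omega), mul_one]
      · rw [if_neg c, if_neg (by omega), mul_zero]
    have e2 : (if lo - t ≤ P.u a ∧ P.u a < 2 * t then P.f a else 0)
        = P.f a * (if lo - t ≤ P.u a ∧ P.u a < 2 * t then 1 else 0) := by
      split_ifs <;> ring
    have e3 : ∀ j : ℤ, (if 0 < j then ((kv K ρ j : ℤ) : ℝ) + (if ρ ≤ j then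
        nn P (2 * max (K - j) 0 + 1 + ρ) else 0) else 0)
        = (if 0 < j then 1 else 0) * ((kv K ρ j : ℤ) : ℝ)
          + (if 0 < j ∧ ρ ≤ j then 1 else 0) * nn P (2 * max (K - j) 0 + 1 + ρ) := by
      intro j
      by_cases c1 : 0 < j
      · by_cases c2 : ρ ≤ j
        · rw [if_pos c1, if_pos c2, if_pos c1, if_pos ⟨c1, c2⟩]
          ring
        · rw [if_pos c1, if_neg c2, if_pos c1, if_neg (fun h => c2 h.2)]
          ring
      · rw [if_neg c1, if_neg c1, if_neg (fun h => c1 h.1)]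
        ring
    rw [e1, e2, e3, e3]
    have e4 : (if 2 * t ≤ P.u a then
            P.f a * dd P Q (2 * K + 1 + ρ + 2 * (P.u a - 2 * t)) else 0)
        = P.f a * ((if 2 * t ≤ P.u a then 1 else 0)
          * dd P Q (2 * K + 1 + ρ + 2 * (P.u a - 2 * t))) := by
      split_ifs <;> ring
    have e5 : (if t ≤ 2 * P.u a then
            P.f a * dd Q P (2 * K + 1 + ρ + 2 * (2 * P.u a - t)) else 0)
        = P.f a * ((if t ≤ 2 * P.u a then 1 else 0)
          * dd Q P (2 * K + 1 + ρ + 2 * (2 * P.u a - t))) := by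
      split_ifs <;> ring
    rw [e4, e5]
    ring
  have lQ : ∀ q ∈ Q.S, Q.f q * (n1out K ρ E lo t (true, Q.u q)
          + T2 P Q (n3out K ρ V E lo t (true, Q.u q)))
      = -(Q.f q * (if 1 ≤ Q.u q + 2 * t ∧ Q.u q + 2 * t ≤ 4 * K + 1 then
          priceE P Q (4 * K + 1) K (K - ρ) ρ (4 * K + 1 - (Q.u q + 2 * t)) else 0))
        - (if 1 ≤ 2 * Q.u q + t - (4 * K + 1) ∧ 2 * Q.u q + t - (4 * K + 1) ≤ 4 * K + 1
        then Q.f q * (((kv K ρ (2 * Q.u q + t - (4 * K + 1)) : ℤ) : ℝ)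
          + (if ρ ≤ 2 * Q.u q + t - (4 * K + 1) then
              nn Q (2 * max (K - (2 * Q.u q + t - (4 * K + 1))) 0 + 1 + ρ) else 0)
          - dd Q P (2 * K + 1 + ρ + 2 * (2 * (4 * K + 1) - 2 * Q.u q - t))) else 0)
        - 1 / 2 * (Q.f q * ((if Q.u q < 0 then deeper t (-Q.u q) else 1)
          * (if 0 < (t - Q.u q + 0) / 2 then ((kv K ρ ((t - Q.u q + 0) / 2) : ℤ) : ℝ)
            + (if ρ ≤ (t - Q.u q + 0) / 2 then
                nn P (2 * max (K - (t - Q.u q + 0) / 2) 0 + 1 + ρ) else 0) else 0))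
          + Q.f q * ((if Q.u q < 0 then deeper t (-Q.u q) else 1)
          * (if 0 < (t - Q.u q + E) / 2 then ((kv K ρ ((t - Q.u q + E) / 2) : ℤ) : ℝ)
            + (if ρ ≤ (t - Q.u q + E) / 2 then
                nn P (2 * max (K - (t - Q.u q + E) / 2) 0 + 1 + ρ) else 0) else 0))) := by
    intro q _
    rw [rQ]
    unfold n1out bo kvr thr omw
    rw [if_neg (by simp)]
    have e3 : ∀ j : ℤ, (if 0 < j then ((kv K ρ j : ℤ) : ℝ) + (if ρ ≤ j then
        nn P (2 * max (K - j) 0 + 1 + ρ) else 0) else 0)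
        = (if 0 < j then 1 else 0) * ((kv K ρ j : ℤ) : ℝ)
          + (if 0 < j ∧ ρ ≤ j then 1 else 0) * nn P (2 * max (K - j) 0 + 1 + ρ) := by
      intro j
      by_cases c1 : 0 < j
      · by_cases c2 : ρ ≤ j
        · rw [if_pos c1, if_pos c2, if_pos c1, if_pos ⟨c1, c2⟩]
          ring
        · rw [if_pos c1, if_neg c2, if_pos c1, if_neg (fun h => c2 h.2)]
          ring
      · rw [if_neg c1, if_neg c1, if_neg (fun h => c1 h.1)]
        ring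
    have e4 : (if 1 ≤ Q.u q + 2 * t ∧ Q.u q + 2 * t ≤ 4 * K + 1 then
          priceE P Q (4 * K + 1) K (K - ρ) ρ (4 * K + 1 - (Q.u q + 2 * t)) else 0)
        = (if 1 ≤ Q.u q + 2 * t ∧ Q.u q + 2 * t ≤ 4 * K + 1 then 1 else 0)
            * ((kv K ρ (Q.u q + 2 * t) : ℤ) : ℝ)
          + (if (1 ≤ Q.u q + 2 * t ∧ Q.u q + 2 * t ≤ 4 * K + 1) ∧ ρ ≤ Q.u q + 2 * t
              then 1 else 0) * nn P (2 * max (K - (Q.u q + 2 * t)) 0 + 1 + ρ)
          - (if 1 ≤ Q.u q + 2 * t ∧ Q.u q + 2 * t ≤ 4 * K + 1 then 1 else 0)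
            * dd P Q (2 * K + 1 + ρ + 2 * (4 * K + 1 - (Q.u q + 2 * t))) := by
      by_cases c : 1 ≤ Q.u q + 2 * t ∧ Q.u q + 2 * t ≤ 4 * K + 1
      · rw [if_pos c, if_pos c, priceE_depth P Q hρ]
        by_cases c2 : ρ ≤ Q.u q + 2 * t
        · rw [if_pos c2, if_pos ⟨c, c2⟩]
          ring
        · rw [if_neg c2, if_neg (fun h => c2 h.2)]
          ring
      · rw [if_neg c, if_neg c, if_neg (fun h => c h.1)]
        ring
    have e5 : (if 1 ≤ 2 * Q.u q + t - (4 * K + 1) ∧ 2 * Q.u q + t - (4 * K + 1) ≤ 4 * K + 1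
        then Q.f q * (((kv K ρ (2 * Q.u q + t - (4 * K + 1)) : ℤ) : ℝ)
          + (if ρ ≤ 2 * Q.u q + t - (4 * K + 1) then
              nn Q (2 * max (K - (2 * Q.u q + t - (4 * K + 1))) 0 + 1 + ρ) else 0)
          - dd Q P (2 * K + 1 + ρ + 2 * (2 * (4 * K + 1) - 2 * Q.u q - t))) else 0)
        = Q.f q * ((if 1 ≤ 2 * Q.u q + t - (4 * K + 1) ∧ 2 * Q.u q + t - (4 * K + 1) ≤ 4 * K + 1
            then 1 else 0) * ((kv K ρ (2 * Q.u q + t - (4 * K + 1)) : ℤ) : ℝ)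
          + (if (1 ≤ 2 * Q.u q + t - (4 * K + 1) ∧ 2 * Q.u q + t - (4 * K + 1) ≤ 4 * K + 1)
              ∧ ρ ≤ 2 * Q.u q + t - (4 * K + 1) then 1 else 0)
            * nn Q (2 * max (K - (2 * Q.u q + t - (4 * K + 1))) 0 + 1 + ρ)
          - (if 1 ≤ 2 * Q.u q + t - (4 * K + 1) ∧ 2 * Q.u q + t - (4 * K + 1) ≤ 4 * K + 1
            then 1 else 0)
            * dd Q P (2 * K + 1 + ρ + 2 * (2 * (4 * K + 1) - 2 * Q.u q - t))) := by
      by_cases c : 1 ≤ 2 * Q.u q + t - (4 * K + 1) ∧ 2 * Q.u q + t - (4 * K + 1) ≤ 4 * K + 1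
      · rw [if_pos c, if_pos c]
        by_cases c2 : ρ ≤ 2 * Q.u q + t - (4 * K + 1)
        · rw [if_pos c2, if_pos ⟨c, c2⟩]
          ring
        · rw [if_neg c2, if_neg (fun h => c2 h.2)]
          ring
      · rw [if_neg c, if_neg c, if_neg (fun h => c h.1)]
        ring
    rw [e3, e3, e4, e5]
    ring
  rw [r1, sum_congr rfl lP, sum_congr rfl lQ]
  simp only [sum_add_distrib, sum_sub_distrib, sum_neg_distrib, ← mul_sum]
  unfold netE grossE gainE midE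
  rw [h1, h3, h4, h5, m0, mE]
  unfold win tailR tailL exA
  rw [if_pos hVt]
  push_cast
  ring

/-! ### What the stray pays for the deep labels -/

/-- deep right labels made by the stray at depth `t > V` of `Q` and the point `x` -/
def aR (D ρ E t : ℤ) (x : P3) : ℝ :=
  if x.1 = false then
    1 / 2 * (bo (0 < (t + x.2 - D + 0) / 2 ∧ ρ < (t + x.2 - D + 0) / 2)
      + bo (0 < (t + x.2 - D + E) / 2 ∧ ρ < (t + x.2 - D + E) / 2))
  else
    1 / 2 * omw t x.2 * (bo (0 < (t - x.2 + 0) / 2 ∧ ρ < (t - x.2 + 0) / 2)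
      + bo (0 < (t - x.2 + E) / 2 ∧ ρ < (t - x.2 + E) / 2))
      + bo ((1 ≤ x.2 + 2 * t ∧ x.2 + 2 * t ≤ D) ∧ ρ < x.2 + 2 * t)

/-- useless right pairs of the stray -/
def bR (t : ℤ) (x : P3) : ℝ := if x.1 = false then bo (x.2 < 2 * t) else 0

/-- deep left labels made by the stray and the point `x` -/
def aL (D ρ t : ℤ) (x : P3) : ℝ :=
  if x.1 = false then 0
  else bo ((1 ≤ 2 * x.2 + t - D ∧ 2 * x.2 + t - D ≤ D) ∧ ρ < 2 * x.2 + t - D)

/-- useless left pairs of the stray -/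
def bL (t : ℤ) (x : P3) : ℝ := if x.1 = false then bo (0 ≤ x.2 ∧ 2 * x.2 < t) else 0

/-- far labels of the stray -/
def fC (D K E t : ℤ) (x : P3) : ℝ :=
  if x.1 = false then
    bo (t ≤ 2 * x.2 ∧ 2 * x.2 < t + K) + bo (2 * t ≤ x.2 ∧ x.2 < 2 * t + K)
      + bo (2 * (D - K) - E < t + x.2 - D ∧ t + x.2 - D ≤ 2 * (D - 0) + E ∧ 0 < t + x.2 - D + E)
  else
    bo (D + 1 - K ≤ x.2 + 2 * t)
      + omw t x.2 * bo (2 * (D - K) - E < t - x.2 ∧ t - x.2 ≤ 2 * (D - 0) + E ∧ 0 < t - x.2 + E)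
      + bo ((1 ≤ 2 * x.2 + t - D ∧ 2 * x.2 + t - D ≤ D) ∧ D - (2 * x.2 + t - D) < K)

lemma omw_nonneg (t u : ℤ) : 0 ≤ omw t u := by
  unfold omw deeper
  split_ifs <;> norm_num

lemma aR_nonneg (D ρ E t : ℤ) (x : P3) : 0 ≤ aR D ρ E t x := by
  unfold aR
  have h := omw_nonneg t x.2
  split_ifs
  · have h1 := bo_nonneg (0 < (t + x.2 - D + 0) / 2 ∧ ρ < (t + x.2 - D + 0) / 2)
    have h2 := bo_nonneg (0 < (t + x.2 - D + E) / 2 ∧ ρ < (t + x.2 - D + E) / 2)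
    positivity
  · have h1 := bo_nonneg (0 < (t - x.2 + 0) / 2 ∧ ρ < (t - x.2 + 0) / 2)
    have h2 := bo_nonneg (0 < (t - x.2 + E) / 2 ∧ ρ < (t - x.2 + E) / 2)
    have h3 := bo_nonneg ((1 ≤ x.2 + 2 * t ∧ x.2 + 2 * t ≤ D) ∧ ρ < x.2 + 2 * t)
    positivity

lemma bR_nonneg (t : ℤ) (x : P3) : 0 ≤ bR t x := by
  unfold bR
  split_ifs
  · exact bo_nonneg _
  · exact le_rfl

lemma aL_nonneg (D ρ t : ℤ) (x : P3) : 0 ≤ aL D ρ t x := by
  unfold aL
  split_ifs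
  · exact le_rfl
  · exact bo_nonneg _

lemma bL_nonneg (t : ℤ) (x : P3) : 0 ≤ bL t x := by
  unfold bL
  split_ifs
  · exact bo_nonneg _
  · exact le_rfl

lemma aR_P (D ρ E t u : ℤ) : aR D ρ E t (false, u)
    = 1 / 2 * ((if 0 < (t + u - D + 0) / 2 ∧ ρ < (t + u - D + 0) / 2 then 1 else 0)
      + (if 0 < (t + u - D + E) / 2 ∧ ρ < (t + u - D + E) / 2 then 1 else 0)) := by
  unfold aR bo
  rw [if_pos rfl]

lemma aR_Q (D ρ E t u : ℤ) : aR D ρ E t (true, u)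
    = 1 / 2 * omw t u * ((if 0 < (t - u + 0) / 2 ∧ ρ < (t - u + 0) / 2 then 1 else 0)
      + (if 0 < (t - u + E) / 2 ∧ ρ < (t - u + E) / 2 then 1 else 0))
      + (if (1 ≤ u + 2 * t ∧ u + 2 * t ≤ D) ∧ ρ < u + 2 * t then 1 else 0) := by
  unfold aR bo
  rw [if_neg (by simp)]

lemma T1_aR (P Q : WS) {D ρ V E t : ℤ} (hVt : V < t) :
    T1 P Q (aR D ρ E t) = exoA P Q deeper D V E (D - ρ) t := by
  rw [T1_eq]
  unfold exoA midN mid exA cp inD inS
  rw [if_pos hVt, show D - (D - ρ) = ρ by ring]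
  have e1 : ∀ j : ℤ, (if 0 < j then (if ρ < j then (1:ℝ) else 0) else 0)
      = if 0 < j ∧ ρ < j then 1 else 0 := fun j => (ite_and _ _ _ _).symm
  have e2 : ∀ u : ℤ, (if 1 ≤ u + 2 * t ∧ u + 2 * t ≤ D then
        (if D - (u + 2 * t) < D - ρ then (1:ℝ) else 0) else 0)
      = if (1 ≤ u + 2 * t ∧ u + 2 * t ≤ D) ∧ ρ < u + 2 * t then 1 else 0 := by
    intro u
    rw [← ite_and]
    exact if_congr (by constructor <;> intro h <;> exact ⟨h.1, by omega⟩) rfl rfl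
  simp only [e1, e2, aR_P, aR_Q]
  have lP : ∀ a ∈ P.S, P.f a * (1 / 2 * ((if 0 < (t + P.u a - D + 0) / 2
          ∧ ρ < (t + P.u a - D + 0) / 2 then (1:ℝ) else 0)
      + (if 0 < (t + P.u a - D + E) / 2 ∧ ρ < (t + P.u a - D + E) / 2 then 1 else 0)))
      = 1 / 2 * (P.f a * (if 0 < (t + P.u a - D + 0) / 2
          ∧ ρ < (t + P.u a - D + 0) / 2 then (1:ℝ) else 0)
        + P.f a * (if 0 < (t + P.u a - D + E) / 2
          ∧ ρ < (t + P.u a - D + E) / 2 then 1 else 0)) := by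
    intro a _
    ring
  have lQ : ∀ q ∈ Q.S, Q.f q * (1 / 2 * omw t (Q.u q) * ((if 0 < (t - Q.u q + 0) / 2
          ∧ ρ < (t - Q.u q + 0) / 2 then (1:ℝ) else 0)
      + (if 0 < (t - Q.u q + E) / 2 ∧ ρ < (t - Q.u q + E) / 2 then 1 else 0))
      + (if (1 ≤ Q.u q + 2 * t ∧ Q.u q + 2 * t ≤ D) ∧ ρ < Q.u q + 2 * t then 1 else 0))
      = 1 / 2 * (Q.f q * ((if Q.u q < 0 then deeper t (-Q.u q) else 1)
          * (if 0 < (t - Q.u q + 0) / 2 ∧ ρ < (t - Q.u q + 0) / 2 then (1:ℝ) else 0))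
        + Q.f q * ((if Q.u q < 0 then deeper t (-Q.u q) else 1)
          * (if 0 < (t - Q.u q + E) / 2 ∧ ρ < (t - Q.u q + E) / 2 then 1 else 0)))
        + Q.f q * (if (1 ≤ Q.u q + 2 * t ∧ Q.u q + 2 * t ≤ D) ∧ ρ < Q.u q + 2 * t
          then 1 else 0) := by
    intro q _
    unfold omw
    ring
  rw [sum_congr rfl lP, sum_congr rfl lQ]
  simp only [sum_add_distrib, ← mul_sum]
  ring

lemma T1_bR (P Q : WS) (t : ℤ) : T1 P Q (bR t) = lt P (2 * t) := by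
  rw [T1_eq]
  unfold bR bo lt
  simp only [Bool.true_eq_false, if_false, if_true, mul_zero, sum_const_zero, add_zero]
  refine sum_congr rfl fun a _ => ?_
  split_ifs <;> ring

lemma T1_aL (P Q : WS) (D ρ t : ℤ) :
    T1 P Q (aL D ρ t) = exB Q D (inS (D - ρ)) t := by
  rw [T1_eq]
  unfold aL bo exB inS
  simp only [Bool.true_eq_false, if_false, if_true, mul_zero, sum_const_zero, zero_add]
  refine sum_congr rfl fun q _ => ?_
  congr 1
  rw [← ite_and]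
  exact if_congr (by omega) rfl rfl

lemma T1_bL (P Q : WS) (t : ℤ) : T1 P Q (bL t) = lo2 P t := by
  rw [T1_eq]
  unfold bL bo lo2
  simp only [Bool.true_eq_false, if_false, if_true, mul_zero, sum_const_zero, add_zero]
  refine sum_congr rfl fun a _ => ?_
  split_ifs <;> ring

/-- THE DEEP CHARGE, exactly -/
theorem dch_T {P Q : WS} {D ρ V E t : ℤ} (hVt : V < t) :
    dchE P Q deeper D ρ V E t
      = max 0 (T1 P Q (aR D ρ E t) - T1 P Q (bR t)) * T2 P Q (kQP (D - ρ + 1))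
        + max 0 (T1 P Q (aL D ρ t) - T1 P Q (bL t)) * T2 P Q (kPQ (D - ρ + 1)) := by
  rw [T1_aR P Q hVt, T1_bR, T1_aL, T1_bL, T2_kQP, T2_kPQ]
  rfl

/-- the deep charge in three-point form; `sR = 1`, `sL = 1`: the useless pairs are subtracted -/
def dk3 (D ρ E t : ℤ) (eR eL sR sL : ℝ) (x y z : P3) : ℝ :=
  eR * ((aR D ρ E t x - sR * bR t x) * kQP (D - ρ + 1) y z)
    + eL * ((aL D ρ t x - sL * bL t x) * kPQ (D - ρ + 1) y z)

lemma T3_dk3 (P Q : WS) (D ρ E t : ℤ) (eR eL sR sL : ℝ) :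
    T3 P Q (dk3 D ρ E t eR eL sR sL)
      = eR * ((T1 P Q (aR D ρ E t) - sR * T1 P Q (bR t)) * T2 P Q (kQP (D - ρ + 1)))
        + eL * ((T1 P Q (aL D ρ t) - sL * T1 P Q (bL t)) * T2 P Q (kPQ (D - ρ + 1))) := by
  unfold dk3
  rw [T3_add P Q (fun x y z => eR * ((aR D ρ E t x - sR * bR t x) * kQP (D - ρ + 1) y z)),
    T3_mul P Q eR, T3_mul P Q eL, T3_prod P Q (fun x => aR D ρ E t x - sR * bR t x),
    T3_prod P Q (fun x => aL D ρ t x - sL * bL t x), T1_sub, T1_sub, T1_mul, T1_mul]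

/-- the deep charge, useless pairs dropped -/
theorem dch_drop {P Q : WS} {D K V E N : ℤ} {ξR ξL : ℤ → ℝ} (h : Env P Q D K V E N ξR ξL)
    {ρ t : ℤ} (hVt : V < t) :
    dchE P Q deeper D ρ V E t ≤ T3 P Q (dk3 D ρ E t 1 1 0 0) := by
  rw [dch_T hVt, T3_dk3, zero_mul, zero_mul, sub_zero, sub_zero, one_mul, one_mul]
  have a1 := h.T1_nonneg (c := aR D ρ E t) (fun x _ => aR_nonneg _ _ _ _ _)
  have a2 := h.T1_nonneg (c := bR t) (fun x _ => bR_nonneg _ _)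
  have a3 := h.T1_nonneg (c := aL D ρ t) (fun x _ => aL_nonneg _ _ _ _)
  have a4 := h.T1_nonneg (c := bL t) (fun x _ => bL_nonneg _ _)
  have b1 : 0 ≤ T2 P Q (kQP (D - ρ + 1)) := by
    rw [T2_kQP]
    exact dd_nonneg h.gQ h.gP _
  have b2 : 0 ≤ T2 P Q (kPQ (D - ρ + 1)) := by
    rw [T2_kPQ]
    exact dd_nonneg h.gP h.gQ _
  exact add_le_add (mul_le_mul_of_nonneg_right (max_le a1 (by linarith)) b1)
    (mul_le_mul_of_nonneg_right (max_le a3 (by linarith)) b2)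

lemma fC_P (D K E t u : ℤ) : fC D K E t (false, u)
    = (if t ≤ 2 * u ∧ 2 * u < t + K then 1 else 0)
      + (if 2 * t ≤ u ∧ u < 2 * t + K then 1 else 0)
      + (if 2 * (D - K) - E < t + u - D ∧ t + u - D ≤ 2 * (D - 0) + E ∧ 0 < t + u - D + E
        then 1 else 0) := by
  unfold fC bo
  rw [if_pos rfl]

lemma fC_Q (D K E t u : ℤ) : fC D K E t (true, u)
    = (if D + 1 - K ≤ u + 2 * t then 1 else 0)
      + omw t u * (if 2 * (D - K) - E < t - u ∧ t - u ≤ 2 * (D - 0) + E ∧ 0 < t - u + E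
        then 1 else 0)
      + (if (1 ≤ 2 * u + t - D ∧ 2 * u + t - D ≤ D) ∧ D - (2 * u + t - D) < K
        then 1 else 0) := by
  unfold fC bo
  rw [if_neg (by simp)]

/-- THE FAR LABELS, exactly -/
theorem farC_T {P Q : WS} {D K E N t : ℤ} (hN : N < t) :
    farC P Q deeper D K E N t = T1 P Q (fC D K E t) := by
  rw [T1_eq]
  unfold farC farS farD farQ midg ex2g gdep
  rw [if_pos hN]
  have e2 : ∀ u : ℤ, (if 1 ≤ 2 * u + t - D ∧ 2 * u + t - D ≤ D then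
        (if 0 ≤ D - (2 * u + t - D) ∧ D - (2 * u + t - D) < K then (1:ℝ) else 0)
          else 0)
      = if (1 ≤ 2 * u + t - D ∧ 2 * u + t - D ≤ D)
        ∧ D - (2 * u + t - D) < K then 1 else 0 := by
    intro u
    rw [← ite_and]
    exact if_congr (by omega) rfl rfl
  simp only [e2, fC_P, fC_Q]
  have lP : ∀ a ∈ P.S, P.f a * ((if t ≤ 2 * P.u a ∧ 2 * P.u a < t + K then (1:ℝ) else 0)
      + (if 2 * t ≤ P.u a ∧ P.u a < 2 * t + K then 1 else 0)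
      + (if 2 * (D - K) - E < t + P.u a - D ∧ t + P.u a - D ≤ 2 * (D - 0) + E
          ∧ 0 < t + P.u a - D + E then 1 else 0))
      = P.f a * (if t ≤ 2 * P.u a ∧ 2 * P.u a < t + K then 1 else 0)
        + P.f a * (if 2 * t ≤ P.u a ∧ P.u a < 2 * t + K then 1 else 0)
        + P.f a * (if 2 * (D - K) - E < t + P.u a - D ∧ t + P.u a - D ≤ 2 * (D - 0) + E
          ∧ 0 < t + P.u a - D + E then 1 else 0) := by
    intro a _
    ring
  have lQ : ∀ q ∈ Q.S, Q.f q * ((if D + 1 - K ≤ Q.u q + 2 * t then (1:ℝ) else 0)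
      + omw t (Q.u q) * (if 2 * (D - K) - E < t - Q.u q ∧ t - Q.u q ≤ 2 * (D - 0) + E
            ∧ 0 < t - Q.u q + E then 1 else 0)
      + (if (1 ≤ 2 * Q.u q + t - D ∧ 2 * Q.u q + t - D ≤ D)
        ∧ D - (2 * Q.u q + t - D) < K then 1 else 0))
      = Q.f q * (if D + 1 - K ≤ Q.u q + 2 * t then 1 else 0)
        + Q.f q * ((if Q.u q < 0 then deeper t (-Q.u q) else 1)
          * (if 2 * (D - K) - E < t - Q.u q ∧ t - Q.u q ≤ 2 * (D - 0) + E
            ∧ 0 < t - Q.u q + E then 1 else 0))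
        + Q.f q * (if (1 ≤ 2 * Q.u q + t - D ∧ 2 * Q.u q + t - D ≤ D)
          ∧ D - (2 * Q.u q + t - D) < K then 1 else 0) := by
    intro q _
    unfold omw
    ring
  rw [sum_congr rfl lP, sum_congr rfl lQ]
  simp only [sum_add_distrib]
  ring

/-! ### The pointwise step -/

/-- from a pointwise inequality to the sum: `m` = one-body part (homogenised with the upper bound
of the square of the total mass), `M` = three-body part, squares allowed -/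
theorem point3 {K0 : ℤ} {f : ℝ} {P Q : WS} {D K ρ V E N : ℤ} {ξR ξL : ℤ → ℝ}
    (h : EnvS K0 f P Q D K ρ V E N ξR ξL) {m : P3 → ℝ} {M : P3 → P3 → P3 → ℝ}
    (hm : ∀ x, InR D K x → 0 ≤ m x) {κ : Type} (I : Finset κ) (s : κ → P3 → P3 → ℝ)
    {c : ℝ} (hc : 0 ≤ c)
    (hpt : ∀ x y z, InR D K x → InR D K y → InR D K z →
      2 * sq3 I s x y z ≤ sym6 (fun x y z => m x / (3 * D + 11) + M x y z) x y z + c / K) :
    -(3 * c * K) ≤ T1 P Q m + T3 P Q M := by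
  have hKr : (10000:ℝ) ≤ K := by exact_mod_cast h.hK1
  have hDr : (D:ℝ) = 4 * K + 1 := by exact_mod_cast h.hD
  have hD0 : (0:ℝ) < 3 * D + 11 := by linarith
  have hS := h.sq_le
  have mP := mass_nonneg h.gP
  have mQ := mass_nonneg h.gQ
  -- squares
  have q0 : 0 ≤ T3 P Q (sq3 I s) :=
    tri_sq3_nonneg (wt3_nonneg h.gP h.gQ) I (fun i x y => s i (pt3 P Q x) (pt3 P Q y))
  -- the symmetrised kernel
  have q1 : T3 P Q (sym6 (fun x y z => m x / (3 * D + 11) + M x y z))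
      = 6 * T3 P Q (fun x y z => m x / (3 * D + 11) + M x y z) :=
    tri_sym6 (st3 P Q) (wt3 P Q) (fun x y z => m (pt3 P Q x) / (3 * D + 11)
      + M (pt3 P Q x) (pt3 P Q y) (pt3 P Q z))
  have q2 := h.toEnv.T3_mono hpt
  rw [T3_mul P Q 2, T3_add P Q (sym6 (fun x y z => m x / (3 * D + 11) + M x y z))
    (fun _ _ _ => c / K), T3_const, q1, T3_add P Q (fun x _ _ => m x / (3 * D + 11)) M,
    T3_fst P Q (fun x => m x / (3 * D + 11))] at q2
  have q3 : T1 P Q (fun x => m x / (3 * D + 11)) = T1 P Q m / (3 * D + 11) := by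
    have : (fun x : P3 => m x / (3 * D + 11)) = fun x => (1 / (3 * D + 11)) * m x := by
      funext x
      ring
    rw [this, T1_mul]
    ring
  rw [q3] at q2
  have q4 : 0 ≤ T1 P Q m := h.toEnv.T1_nonneg hm
  have q5 : T1 P Q m / (3 * D + 11) * (mass P + mass Q) ^ 2 ≤ T1 P Q m := by
    rw [div_mul_eq_mul_div, div_le_iff₀ hD0]
    exact mul_le_mul_of_nonneg_left hS q4
  -- the error
  have q6 : c / K * (mass P + mass Q) ^ 3 ≤ 18 * c * K := by
    have hSK : mass P + mass Q ≤ K := by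
      have h1 : (mass P + mass Q) ^ 2 ≤ (K:ℝ) ^ 2 := by
        rw [hDr] at hS
        nlinarith
      by_contra h2
      push Not at h2
      nlinarith
    have h2 : (mass P + mass Q) ^ 3 ≤ (3 * D + 11) * K := by
      rw [pow_succ]
      exact mul_le_mul hS hSK (by positivity) (by linarith)
    have h3 : (3 * (D:ℝ) + 11) * K ≤ 18 * K * K := by
      rw [hDr]
      nlinarith
    rw [div_mul_eq_mul_div, div_le_iff₀ (by linarith)]
    nlinarith [mul_le_mul_of_nonneg_left (h2.trans h3) hc]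
  linarith

/-- one-body part of a row: net, far labels, prices, extra facts -/
def m1row (K ρ E lo t : ℤ) (pR pL : P3 → ℤ → ℝ) (X1 : P3 → ℝ) (x : P3) : ℝ :=
  n1out K ρ E lo t x - kapE K ρ * fC (4 * K + 1) K E t x
    + ∑ s ∈ Ico 0 (4 * K + 1), (pR x s + pL x s) - X1 x

/-- three-body part of a row -/
def m3row (K ρ V E lo t : ℤ) (f : ℝ) (pR mR pL mL : P3 → ℤ → ℝ) (ν : P3 → P3 → ℝ) (o : P3 → ℝ)
    (dk X3 : P3 → P3 → P3 → ℝ) (x y z : P3) : ℝ :=
  n3out K ρ V E lo t x y z - dk x y z - cov3 (4 * K + 1) pR mR pL mL x y z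
    + far3 (4 * K + 1) f ν x y z + out3 (4 * K + 1) o x y z - X3 x y z

/-- ROW OF A STRAY WITHOUT DOUBLED ROLE FROM ONE POINTWISE INEQUALITY.
`pR`, `pL` = prices of the labels, `mR`, `mL` = majorants for the midpoints, `ν`, `o` = multipliers
of far share and of the parity count fact, `dk` = bound of the deep charge (for instance
`dch_drop`), `X1`, `X3` = any extra facts, `s` = squares. -/
theorem row3 {K0 : ℤ} {f : ℝ} {P Q : WS} {D K ρ V E N : ℤ} {ξR ξL : ℤ → ℝ}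
    (h : EnvS K0 f P Q D K ρ V E N ξR ξL) {lo t : ℤ} (hlo : lo ≤ 1) (hVt : V < t)
    {pR mR pL mL : P3 → ℤ → ℝ}
    (hpR : ∀ x, InR D K x → ∀ s, 0 ≤ s → s < D → 0 ≤ pR x s)
    (hpL : ∀ x, InR D K x → ∀ s, 0 ≤ s → s < D → 0 ≤ pL x s)
    (hmR : ∀ x, InR D K x → Maj D E (pR x) (mR x))
    (hmL : ∀ x, InR D K x → Maj D E (pL x) (mL x))
    {ν : P3 → P3 → ℝ} (hν : ∀ x y, 0 ≤ ν x y)
    {o : P3 → ℝ} {o0 : ℝ} (ho : ∀ x, InR D K x → 0 ≤ o x) (ho1 : ∀ x, InR D K x → o x ≤ o0)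
    (ho0 : 0 ≤ o0)
    {dk : P3 → P3 → P3 → ℝ} (hdk : dchE P Q deeper D ρ V E t ≤ T3 P Q dk)
    {X1 : P3 → ℝ} {X3 : P3 → P3 → P3 → ℝ} {C0 : ℝ}
    (hX : -(C0 * K) ≤ T1 P Q X1 + T3 P Q X3)
    (hm : ∀ x, InR D K x → 0 ≤ m1row K ρ E lo t pR pL X1 x)
    {κ : Type} (I : Finset κ) (s : κ → P3 → P3 → ℝ) {c : ℝ} (hc : 0 ≤ c)
    (hpt : ∀ x y z, InR D K x → InR D K y → InR D K z →
      2 * sq3 I s x y z ≤ sym6 (fun x y z => m1row K ρ E lo t pR pL X1 x / (3 * D + 11)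
        + m3row K ρ V E lo t f pR mR pL mL ν o dk X3 x y z) x y z + c / K)
    {C : ℝ} (hC : 3 * c + 143 * o0 + C0 ≤ C) :
    deepD P Q D K ρ V E (nearE D) (kapE K ρ) t - C * K
      ≤ netE P Q deeper D K (K - ρ) ρ ρ V E lo t := by
  have hρV := h.hρV
  have hnρ := h.near_le
  have hρ1 := h.hρ
  have hρK := h.hρK
  have hD := h.hD
  have hKr : (10000:ℝ) ≤ K := by exact_mod_cast h.hK1
  have hDr : (D:ℝ) = 4 * K + 1 := by exact_mod_cast hD
  have p := point3 h hm I s hc hpt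
  have net := net3 (P := P) (Q := Q) (K := K) (ρ := ρ) (V := V) (E := E) (lo := lo) (t := t)
    h.dP h.dQ (by omega) hVt hlo (by omega)
  have cov := cov3_ge h.toEnv hpR hpL hmR hmL
  have far := far3_le h hν
  have out := out3_le h ho ho1 ho0
  have farC := farC_T (P := P) (Q := Q) (D := D) (K := K) (E := E) (N := nearE D) (t := t)
    (by omega)
  rw [← hD] at net
  have e1 : T1 P Q (m1row K ρ E lo t pR pL X1) = T1 P Q (n1out K ρ E lo t)
      - kapE K ρ * T1 P Q (fC D K E t)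
      + T1 P Q (fun x => ∑ s ∈ Ico 0 D, (pR x s + pL x s)) - T1 P Q X1 := by
    rw [← T1_mul, ← T1_sub, ← T1_add, ← T1_sub, hD]
    rfl
  have e2 : T3 P Q (m3row K ρ V E lo t f pR mR pL mL ν o dk X3)
      = T3 P Q (n3out K ρ V E lo t) - T3 P Q dk - T3 P Q (cov3 D pR mR pL mL)
        + T3 P Q (far3 D f ν) + T3 P Q (out3 D o) - T3 P Q X3 := by
    rw [← T3_sub, ← T3_sub, ← T3_add, ← T3_add, ← T3_sub, hD]
    rfl
  rw [e1, e2] at p
  have e3 : 11 * o0 * (3 * D + 11) ≤ 143 * o0 * K := by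
    rw [hDr]
    nlinarith
  have e4 : (3 * c + 143 * o0 + C0) * K ≤ C * K := mul_le_mul_of_nonneg_right hC (by linarith)
  unfold deepD
  rw [net, farC]
  linarith

end

end MP61673a.Fin
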