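import Pool.Agent.Mu673.RowCut

/-!
CLASS WEIGHTS OF THE THREE-BODY PART of an OUT cell, as doubled integers, from the class
descriptors.
-/

set_option autoImplicit false

namespace MP61673a.FE

open Finset MP61673a.Fin

lemma Cl.has_lo_lt {q D : ℤ} {c : Cl} {x : P3} (h : c.has q D x) (hb : c.bt = false)
    (hs : c.sa = true) : c.na * D < q * x.2 := by
  rcases h.2.1 with h1 | h1
  · rw [hb] at h1
    exact absurd h1 (by simp)
  · rwa [if_pos hs] at h1

/-! ### Needs of the costs and bounds of the gains, doubled -/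

/-- exotic labels of the own side -/
def dF1 (q m a b : ℤ) (c : Cl) : ℤ := if c.sd = true then 2 * ff1 q m a b c else 0

/-- exotic labels of the other side -/
def dF2 (q m a b : ℤ) (c : Cl) : ℤ := if c.sd = true then 2 * ff2 q m a b c else 0

/-- midpoints (one parity) -/
def dMid (q m b : ℤ) (c : Cl) : ℤ :=
  if c.sd = false then
    (if 40 * (m * c.nb + b * q) ≤ 41 * m * q then 0 else 1)
  else
    (if fom q m b c = 0 ∨ (c.bt = false ∧ 40 * b * q ≤ 40 * m * c.na + m * q) then 0 else 1)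

/-- tail gain, right labels -/
def dGA (q m a : ℤ) (c : Cl) : ℤ :=
  if c.sd = false then
    (if c.bt = false ∧ (2 * a * q < m * c.na ∨ (2 * a * q ≤ m * c.na ∧ c.sa = true)) then 2
      else 0)
  else
    (if m * c.nb < (m - 2 * a) * q ∨ (m * c.nb ≤ (m - 2 * a) * q ∧ c.sb = true) then 2 else 0)

/-- tail gain, left labels -/
def dGB (q m a : ℤ) (c : Cl) : ℤ :=
  if c.sd = false then
    (if c.bt = false ∧ (a * q < 2 * m * c.na ∨ (a * q ≤ 2 * m * c.na ∧ c.sa = true)) then 2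
      else 0)
  else 2

/-- the cuts from above, for the gains -/
structure CutG (m a D c1 c2 c3 : ℤ) : Prop where
  g1 : ∀ u, 2 * a * D < m * u → c1 ≤ u
  g2 : ∀ u, a * D < 2 * m * u → c2 ≤ u
  g3 : ∀ u, m * u < (m - 2 * a) * D → u ≤ c3

lemma CutG.of_cell {m a D : ℤ} (hm : 0 < m) :
    CutG m a D (2 * a * D / m + 1) (a * D / (2 * m) + 1) (-((2 * a * D - m * D) / m) - 1) where
  g1 := fun u hu => by
    have : 2 * a * D / m < u := (Int.ediv_lt_iff_lt_mul hm).2 (by linarith)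
    omega
  g2 := fun u hu => by
    have : a * D / (2 * m) < u := (Int.ediv_lt_iff_lt_mul (by omega)).2 (by linarith)
    omega
  g3 := fun u hu => by
    have : (2 * a * D - m * D) / m < -u := (Int.ediv_lt_iff_lt_mul hm).2 (by linarith)
    omega

section
variable {q m a b D K E t0 t1 : ℤ} {c : Cl} {x : P3}

lemma dMid_P {e : ℤ} (hq : 0 < q) (hD0 : 0 < D) (hc : CellAt m a b D t0 t1)
    (hE : D < 40 * (2 * rhoE D - e)) (hx : c.has q D x) (hs : x.1 = false) :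
    1 / 2 * bo (0 < (t1 + x.2 - D + e) / 2 ∧ rhoE D ≤ (t1 + x.2 - D + e) / 2)
      ≤ ((dMid q m b c : ℤ) : ℝ) / 2 := by
  have hm := hc.m0
  unfold dMid
  rw [if_pos (by rw [← Cl.has_sd hx]; exact hs)]
  split_ifs with h
  · rw [bo_false, Int.cast_zero]
    · norm_num
    · rintro ⟨d1, d2⟩
      have u1 := mul_le_mul_of_nonneg_left (Cl.has_hi hx) hm.le
      have u2 := mul_le_mul_of_nonneg_right h hD0.le
      have l3 := mul_le_mul_of_nonneg_left hc.h1 hq.le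
      have e0 : 0 < 40 * (t1 + x.2 - D) - D := by omega
      have e1 : 0 < (m * q) * (40 * (t1 + x.2 - D) - D) := mul_pos (mul_pos hm hq) e0
      linarith
  · rw [Int.cast_one]
    have := bo_le_one (0 < (t1 + x.2 - D + e) / 2 ∧ rhoE D ≤ (t1 + x.2 - D + e) / 2)
    linarith

lemma dMid_Q {e : ℤ} (hq : 0 < q) (hD0 : 0 < D) (hc : CellAt m a b D t0 t1)
    (hE : D < 40 * (2 * rhoE D - e)) (hx : c.has q D x) (hs : x.1 = true) :
    1 / 2 * omc t1 x.2 * bo (0 < (t1 - x.2 + e) / 2 ∧ rhoE D ≤ (t1 - x.2 + e) / 2)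
      ≤ ((dMid q m b c : ℤ) : ℝ) / 2 := by
  have hm := hc.m0
  have o1 := fom_ge hq hD0 hc hx
  have o3 := omc_nonneg t1 x.2
  have o5 : omc t1 x.2 ≤ 1 := by
    unfold omc incl
    split_ifs <;> norm_num
  unfold dMid
  rw [if_neg (by rw [← Cl.has_sd hx, hs]; simp)]
  split_ifs with h
  · rw [Int.cast_zero]
    rcases h with h | ⟨hb, h⟩
    · rw [h, Int.cast_zero] at o1
      have o4 : omc t1 x.2 = 0 := le_antisymm o1 o3
      rw [o4]
      norm_num
    · rw [bo_false]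
      · norm_num
      · rintro ⟨d1, d2⟩
        have u1 := mul_le_mul_of_nonneg_left (Cl.has_lo hx hb) hm.le
        have u2 := mul_le_mul_of_nonneg_right h hD0.le
        have l3 := mul_le_mul_of_nonneg_left hc.h1 hq.le
        have e0 : 0 < 40 * (t1 - x.2) - D := by omega
        have e1 : 0 < (m * q) * (40 * (t1 - x.2) - D) := mul_pos (mul_pos hm hq) e0
        linarith
  · rw [Int.cast_one]
    have h1 := bo_le_one (0 < (t1 - x.2 + e) / 2 ∧ rhoE D ≤ (t1 - x.2 + e) / 2)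
    have h0 := bo_nonneg (0 < (t1 - x.2 + e) / 2 ∧ rhoE D ≤ (t1 - x.2 + e) / 2)
    have := mul_le_one₀ o5 h0 h1
    linarith

lemma dF1_ge {ρ w c1 c2 c3 : ℤ} (hq : 0 < q) (hD0 : 0 < D) (hc : CellAt m a b D t0 t1)
    (hk : CutOK m a D t0 w c1 c2 c3) (hx : c.has q D x) (hs : x.1 = true) :
    bo ((1 ≤ x.2 + 2 * t1 ∧ x.2 ≤ c3) ∧ ρ ≤ x.2 + 2 * t1) ≤ ((dF1 q m a b c : ℤ) : ℝ) / 2 := by
  have h := ff1_ge hq hD0 hc hk hx
  unfold dF1
  rw [if_pos (by rw [← Cl.has_sd hx]; exact hs)]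
  push_cast
  have h1 := bo_mono (p := (1 ≤ x.2 + 2 * t1 ∧ x.2 ≤ c3) ∧ ρ ≤ x.2 + 2 * t1)
    (q := 1 ≤ x.2 + 2 * t1 ∧ x.2 ≤ c3) (fun h => h.1)
  linarith

lemma dF2_ge {ρ : ℤ} (hq : 0 < q) (hD : D = 4 * K + 1) (hK : 1 ≤ K)
    (hc : CellAt m a b D t0 t1) (hx : c.has q D x) (hs : x.1 = true) :
    bo ((1 ≤ 2 * x.2 + t1 - (4 * K + 1) ∧ 2 * x.2 + t0 - (4 * K + 1) ≤ 4 * K + 1)
        ∧ ρ ≤ 2 * x.2 + t1 - (4 * K + 1))
      ≤ ((dF2 q m a b c : ℤ) : ℝ) / 2 := by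
  have h := ff2_ge hq hD hK hc hx
  unfold dF2
  rw [if_pos (by rw [← Cl.has_sd hx]; exact hs)]
  push_cast
  have h1 := bo_mono (p := (1 ≤ 2 * x.2 + t1 - (4 * K + 1)
      ∧ 2 * x.2 + t0 - (4 * K + 1) ≤ 4 * K + 1) ∧ ρ ≤ 2 * x.2 + t1 - (4 * K + 1))
    (q := 1 ≤ 2 * x.2 + t1 - (4 * K + 1) ∧ 2 * x.2 + t0 - (4 * K + 1) ≤ 4 * K + 1)
    (fun h => h.1)
  linarith

lemma dGA_P {c1 c2 c3 : ℤ} (hq : 0 < q) (hD0 : 0 < D) (hm : 0 < m) (hg : CutG m a D c1 c2 c3)
    (hx : c.has q D x) (hs : x.1 = false) :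
    ((dGA q m a c : ℤ) : ℝ) / 2 ≤ bo (c1 ≤ x.2) := by
  unfold dGA
  rw [if_pos (by rw [← Cl.has_sd hx]; exact hs)]
  split_ifs with h
  · obtain ⟨hb, h⟩ := h
    have key : q * (2 * a * D) < q * (m * x.2) := by
      rcases h with h | ⟨h, hsa⟩
      · have u1 := mul_le_mul_of_nonneg_left (Cl.has_lo hx hb) hm.le
        have u2 := mul_lt_mul_of_pos_right h hD0
        linarith
      · have u1 := mul_lt_mul_of_pos_left (Cl.has_lo_lt hx hb hsa) hm
        have u2 := mul_le_mul_of_nonneg_right h hD0.le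
        linarith
    rw [bo_true (hg.g1 _ (lt_of_mul_lt_mul_left key hq.le))]
    norm_num
  · rw [Int.cast_zero, zero_div]
    exact bo_nonneg _

lemma dGA_Q {c1 c2 c3 : ℤ} (hq : 0 < q) (hD0 : 0 < D) (hm : 0 < m) (hg : CutG m a D c1 c2 c3)
    (hx : c.has q D x) (hs : x.1 = true) :
    ((dGA q m a c : ℤ) : ℝ) / 2 ≤ bo (x.2 ≤ c3) := by
  unfold dGA
  rw [if_neg (by rw [← Cl.has_sd hx, hs]; simp)]
  split_ifs with h
  · have key : q * (m * x.2) < q * ((m - 2 * a) * D) := by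
      rcases h with h | ⟨h, hsb⟩
      · have u1 := mul_le_mul_of_nonneg_left (Cl.has_hi hx) hm.le
        have u2 := mul_lt_mul_of_pos_right h hD0
        linarith
      · have u1 := mul_lt_mul_of_pos_left (Cl.has_hi_lt hx hsb) hm
        have u2 := mul_le_mul_of_nonneg_right h hD0.le
        linarith
    rw [bo_true (hg.g3 _ (lt_of_mul_lt_mul_left key hq.le))]
    norm_num
  · rw [Int.cast_zero, zero_div]
    exact bo_nonneg _

lemma dGB_P {c1 c2 c3 : ℤ} (hq : 0 < q) (hD0 : 0 < D) (hm : 0 < m) (hg : CutG m a D c1 c2 c3)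
    (hx : c.has q D x) (hs : x.1 = false) :
    ((dGB q m a c : ℤ) : ℝ) / 2 ≤ bo (c2 ≤ x.2) := by
  unfold dGB
  rw [if_pos (by rw [← Cl.has_sd hx]; exact hs)]
  split_ifs with h
  · obtain ⟨hb, h⟩ := h
    have key : q * (a * D) < q * (2 * m * x.2) := by
      rcases h with h | ⟨h, hsa⟩
      · have u1 := mul_le_mul_of_nonneg_left (Cl.has_lo hx hb) hm.le
        have u2 := mul_lt_mul_of_pos_right h hD0
        linarith
      · have u1 := mul_lt_mul_of_pos_left (Cl.has_lo_lt hx hb hsa) hm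
        have u2 := mul_le_mul_of_nonneg_right h hD0.le
        linarith
    rw [bo_true (hg.g2 _ (lt_of_mul_lt_mul_left key hq.le))]
    norm_num
  · rw [Int.cast_zero, zero_div]
    exact bo_nonneg _

lemma dGB_le (q m a : ℤ) (c : Cl) : ((dGB q m a c : ℤ) : ℝ) / 2 ≤ 1 := by
  unfold dGB
  split_ifs <;> norm_num

lemma dMid_bd (q m b : ℤ) (c : Cl) : 0 ≤ dMid q m b c ∧ dMid q m b c ≤ 1 := by
  unfold dMid
  split_ifs <;> norm_num

lemma dF1_bd (q m a b : ℤ) (c : Cl) : 0 ≤ dF1 q m a b c ∧ dF1 q m a b c ≤ 2 := by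
  have := ff1_bd q m a b c
  unfold dF1
  split_ifs <;> omega

lemma dF2_bd (q m a b : ℤ) (c : Cl) : 0 ≤ dF2 q m a b c ∧ dF2 q m a b c ≤ 2 := by
  have := ff2_bd q m a b c
  unfold dF2
  split_ifs <;> omega

end

end MP61673a.FE
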