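import Pool.Agent.Mu673.RowNumR
import Pool.Agent.Mu673.CellX
import Pool.Agent.Mu673.NetW

/-!
The one-body kernels with cuts (`n1x` of OUT cells, `n1inw` of IN cells) and the cuts of a rational
cell for `one_row`.
-/

set_option autoImplicit false

namespace MP61673a.FE

open MP61673a.Fin

/-- OUT cells -/
lemma n1x_cut (K ρ E lo t0 t1 c1 c2 c3 : ℤ) (x : P3) :
    n1x K ρ E lo t0 t1 c1 c2 c3 x = n1cut true K ρ E t0 t1 (lo - t0) c1 c2 c3 x := rfl

/-- IN cells -/
lemma n1inw_cut (K ρ E w t0 t1 c1 c2 c3 : ℤ) (x : P3) :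
    n1inw K ρ E w t0 t1 c1 c2 x = n1cut false K ρ E t0 t1 w c1 c2 c3 x := by
  unfold n1inw n1cut n1g
  by_cases h : x.1 = false
  · rw [if_pos h, if_pos h]
  · rw [if_neg h, if_neg h]
    have e : (if false = true then bo (1 ≤ x.2 + 2 * t1 ∧ x.2 ≤ c3) else (0:ℝ)) = 0 :=
      if_neg (by simp)
    dsimp only
    rw [e]
    ring

/-- the cuts of a rational cell -/
lemma CutOK.of_cell {m a D t0 w : ℤ} (hm : 0 < m) (hw : w ≤ 1 - t0) :
    CutOK m a D t0 w (2 * a * D / m + 1) (a * D / (2 * m) + 1)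
      (-((2 * a * D - m * D) / m) - 1) where
  w := hw
  c1 := fun u hu => by
    have : u ≤ 2 * a * D / m := (Int.le_ediv_iff_mul_le hm).2 (by linarith)
    omega
  c2 := fun u hu => by
    have : u ≤ a * D / (2 * m) := (Int.le_ediv_iff_mul_le (by omega)).2 (by linarith)
    omega
  c3 := fun u hu => by
    have h1 : (2 * a * D - m * D) / m < -u := by omega
    have h2 := (Int.ediv_lt_iff_lt_mul hm).1 h1
    linarith

/-- the position of a cell from the facts of `CellPos` -/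
lemma CellAt.of_pos {m a b D t0 t1 : ℤ} (hm : 0 < m) (hD : 0 ≤ D) (hb : 0 ≤ b)
    (hb2 : 2 * b ≤ 3 * m) (h0 : a * D < m * t0) (h1 : b * D < m * t1 + m)
    (h2 : m * t1 ≤ b * D) : CellAt m a b D t0 t1 where
  m0 := hm
  h0 := h0
  h1 := h2
  t1n := by
    have h2 := mul_nonneg hb hD
    have h3 : 0 < m * (t1 + 1) := by linarith
    have := (mul_pos_iff_of_pos_left hm).1 h3
    omega
  b2 := hb2

/-- the position of the last cell, with `t1 = D + 11` -/
lemma CellAt.of_tail {m a b D t0 d : ℤ} (hm : 0 < m) (hmb : m ≤ b) (hd : 0 ≤ d)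
    (hb : m * (d + 11) ≤ b * d) (hD : d ≤ D) (hb2 : 2 * b ≤ 3 * m) (h : a * D < m * t0) :
    CellAt m a b D t0 (D + 11) where
  m0 := hm
  h0 := h
  h1 := by
    have h1 : m * (D - d) ≤ b * (D - d) := mul_le_mul_of_nonneg_right hmb (by omega)
    linarith
  t1n := by omega
  b2 := hb2

end MP61673a.FE
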