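import Pool.Agent.Mu673.FE8u
import Pool.Agent.Mu673.RowLink2
import Pool.Agent.Mu673.GFam
import Pool.Agent.Mu673.RowCut

/-!
GLUE OF A ROW CELL (helper73): the data of a row certificate and the Bool checks give the hypotheses
of `row_tables`.
-/

set_option autoImplicit false

namespace MP61673a.RowO

open Finset MP61673a.W MP61673a.Kink MP61673a.Bary MP61673a.Sos MP61673a.Fin MP61673a.FE MP61673a.KC

noncomputable section

/-! ### Zone constants by pair codes -/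

/-- code of a pair of classes: pole of the single point, pole and flags of the doubled point.
`0` nothing, `1` / `2` doubled point inside `[-V, ..)`, both in `P` / both in `Q`, `3` single point
in `Q`, doubled in `P`, `4` single in `P`, doubled in `Q`, `5` / `6` like `1` / `2` without flags -/
def code (c d vi vo : Bool) : ℕ :=
  if c then (if d then (if vi then 2 else if vo then 0 else 6) else 3)
  else (if d then 4 else (if vi then 1 else if vo then 0 else 5))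

/-- zone constant of a code, in the units of the weights -/
def kzI (k : ℕ) (A B E G : ℤ) (i : ℕ) : ℤ :=
  if k = 1 then (if i = 0 then A else 0)
  else if k = 2 then (if i = 4 then B else 0)
  else if k = 3 then (if 2 ≤ i then E else 0)
  else if k = 4 then (if i ≤ 2 then G else 0)
  else if k = 5 then (if i = 0 then max A 0 else 0)
  else if k = 6 then (if i = 4 then max B 0 else 0)
  else 0

lemma kz_code (c d vi vo : Bool) (A B E G : ℤ) (i : Fin 5) :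
    kz c d vi vo ((A:ℝ) / 2) ((B:ℝ) / 2) ((E:ℝ) / 2) ((G:ℝ) / 2) i
      = (kzI (code c d vi vo) A B E G i : ℝ) / 2 := by
  have m2 : ∀ x : ℤ, max ((x:ℝ) / 2) 0 = ((max x 0 : ℤ) : ℝ) / 2 := by
    intro x
    rw [Int.cast_max, Int.cast_zero]
    rw [← max_div_div_right (by norm_num : (0:ℝ) ≤ 2) (x:ℝ) 0, zero_div]
  unfold kz kzI code effc
  rw [m2, m2]
  cases c <;> cases d <;> cases vi <;> cases vo <;> fin_cases i <;> simp

/-! ### The data -/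

/-- the data of a row cell: nodes, tables and squares `d`, prices and end data `r`, class
descriptors `cs` with window copies `iw`, cell `p`, families `fs`, scale `U`, position `s0` of the
coordinate `0`, packed price weights `w`, codes `ck` of the end tables, doubled class weights of
the four constant kernels -/
structure RD where
  /-- nodes, tables, squares -/
  d : DatR
  /-- prices and end data -/
  r : RCd
  /-- classes -/
  cs : List Cl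
  /-- window copies -/
  iw : List ℕ
  /-- cell -/
  p : CellPar
  /-- families -/
  fs : List Gf
  /-- scale -/
  U : ℕ
  /-- position of the coordinate `0` -/
  s0 : ℕ
  /-- price weights -/
  w : List ℕ
  /-- codes of the end tables -/
  ck : List ℕ
  /-- weights of `kNP` -/
  wa : List ℤ
  /-- weights of `kNQ` -/
  wb : List ℤ
  /-- weights of `kQP` -/
  we : List ℤ
  /-- weights of `kPQ` -/
  wg : List ℤ

namespace RD

variable (A : RD)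

/-- zone price digit -/
def zdn (c : CutP) (q : Prc) (i y : ℕ) : ℕ :=
  if i = 0 then (if y ≤ c.a then dg q.g y else if y = c.a + 1 then q.x0 else 0)
  else if i = 1 then (if y = c.a then q.x1 else if y = c.b + 1 then q.x2
    else if c.a < y ∧ y ≤ c.b then dg q.g y else 0)
  else (if y = c.b then q.x3 else if c.b < y then dg q.g y else 0)

lemma zdn_eq (c : CutP) (q : Prc) (i : Fin 3) (y : ℕ) : zdn c q i y = zd c q i y := by
  unfold zdn zd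
  fin_cases i <;> simp

/-- distance of the first label node of the price sums -/
def off : ℕ := A.d.P + A.s0 - (A.p.M + 2)

/-- prices of the node `v` in the order of the price sums -/
def gN (v i j : ℕ) : ℕ := zdn A.r.c (nth16 prD A.r.pr v) i (j + A.off)

/-- price weights -/
def wN (i j : ℕ) : ℕ := dg (nth 0 A.w i) j

/-- one body constant of the node `v` (units `1 / (2 U)`) -/
def aN (v : ℕ) : ℕ := Nat.sub (dg A.d.an v) (Nat.add (dg A.d.ap v)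
  (Nat.mul 2 (nth16 prD A.r.pr v).oe))

/-- extra costs -/
def exf (z k : ℕ) : ℕ := exG A.d A.fs z k

/-- scale -/
def s : ℝ := 1 / (A.U : ℝ)

/-- class weights -/
def w4 (l : List ℤ) (c : ℕ) : ℝ := ((nth 0 l c : ℤ) : ℝ) / 2

/-! ### Checks -/

/-- inside and outside flags of the doubled point -/
def clI (q : ℤ) (c : Cl) : Bool := decide (c.bt = false ∧ -q ≤ 8 * c.na)

/-- outside flag -/
def clO (q : ℤ) (c : Cl) : Bool := decide (8 * c.nb ≤ -q)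

/-- the pair of classes may have midpoints: all pairs -/
def stC (_q : ℤ) (_c _c' : Cl) : Bool := true

/-- the code of a pair of classes -/
def cdC (q : ℤ) (c c' : Cl) : ℕ := code c.sd c'.sd (clI q c') (clO q c')

/-- global check -/
def chkG : Bool :=
  chkGl A.d A.r && csChk A.p.M A.p.s2 A.p.q A.s0 A.d.segs A.cs A.iw
  && wChk A.p.M A.p.s2.toNat A.wN && chkFs A.d.P A.fs
  && decide (0 < A.p.M) && decide (0 < A.p.q) && decide (0 < A.p.m) && decide (0 < A.p.kd)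
  && decide (0 ≤ A.p.kn) && decide (0 ≤ A.p.s2) && decide (A.p.s2 ≤ 2)
  && decide (1 * A.p.kd ≤ 250 * A.p.kn) && decide (0 < A.U)
  && decide (A.p.M + 2 ≤ A.d.P + A.s0) && decide (2 * A.p.M + 2 + A.s0 ≤ 2 * A.d.P)
  && decide ((A.r.c.td : ℤ) * (80 * ((A.r.c.a : ℤ) - (A.d.P + A.s0))) + 80 * A.r.c.tl
      = A.r.c.td * (-2 * A.p.M - 40 * A.p.s2))
  && decide ((A.r.c.td : ℤ) * (80 * ((A.r.c.b : ℤ) - (A.d.P + A.s0))) + 80 * A.r.c.tr
      = A.r.c.td * (82 * A.p.M - 40 * A.p.s2))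
  && decide (2 * ((A.r.yr : ℤ) - (A.d.P + A.s0)) ≤ 2 * A.p.M - A.p.s2)
  && decide (-A.p.s2 ≤ 2 * ((A.r.yl : ℤ) - (A.d.P + A.s0)))
  && decide (A.p.M * A.r.den ≤ 80 * A.r.num)
  && allL A.d.segs (fun sg => allL sg.cb (fun c => Nat.beq (sumL (fun _ => 1) c.g) 0))
  && allN A.cs.length (fun i => allN A.cs.length (fun j =>
      Nat.beq (cdC A.p.q (clN A.cs i) (clN A.cs j)) (nth 0 A.ck (plE A.d.segs i j).k1)
      && (!(stC A.p.q (clN A.cs i) (clN A.cs j)) || Nat.beq (plE A.d.segs i j).km A.r.km)))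
  && Nat.beq A.d.Bd 0
  && decide (A.U ≤ 268435456)
  && allL (A.wa ++ A.wb ++ A.we ++ A.wg) (fun x => decide (|x| ≤ 64))

/-- constants of the end table `k` of the node `v` -/
def chkKz1 (v k : ℕ) : Bool :=
  allN 5 (fun i => decide ((A.U : ℤ) * kzI (nth 0 A.ck k) (nth 0 A.wa (ixR A.d.segs v))
      (nth 0 A.wb (ixR A.d.segs v)) (nth 0 A.we (ixR A.d.segs v)) (nth 0 A.wg (ixR A.d.segs v)) i
      + 2 * (nth16 prD A.r.pr v).oe
    ≤ 2 * ((nth 0 [(nth ecD (nth16 [] A.r.ec v) k).c0, (nth ecD (nth16 [] A.r.ec v) k).c1,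
        (nth ecD (nth16 [] A.r.ec v) k).c2, (nth ecD (nth16 [] A.r.ec v) k).c3,
        (nth ecD (nth16 [] A.r.ec v) k).c4] i : ℕ) : ℤ)
      + 2 * exO A.fs (ixR A.d.segs v) k))

/-- constants of all tables -/
def chkKz : Bool :=
  allN (vR A.d.segs) (fun v => allN A.r.nk (fun k => A.chkKz1 v k)
    && Nat.ble (nth16 prD A.r.pr v).oe 68719476736)

/-- the one body check -/
def chkOne : Bool := oneR A.p A.U A.s0 A.d.segs A.cs A.iw A.wN A.gN A.aN (fun _ => 0)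

/-- the global conditions -/
structure GOK : Prop where
  gl : GlOK A.d A.r
  cs : CsOK A.p.M A.p.s2 A.p.q A.s0 A.d.segs A.cs A.iw
  wc : wChk A.p.M A.p.s2.toNat A.wN = true
  fs : chkFs A.d.P A.fs = true
  pos : A.p.Pos
  U : 0 < A.U
  o1 : A.p.M + 2 ≤ A.d.P + A.s0
  o2 : 2 * A.p.M + 2 + A.s0 ≤ 2 * A.d.P
  kL : (A.r.c.td : ℤ) * (80 * ((A.r.c.a : ℤ) - (A.d.P + A.s0))) + 80 * A.r.c.tl
      = A.r.c.td * (-2 * A.p.M - 40 * A.p.s2)
  kR : (A.r.c.td : ℤ) * (80 * ((A.r.c.b : ℤ) - (A.d.P + A.s0))) + 80 * A.r.c.tr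
      = A.r.c.td * (82 * A.p.M - 40 * A.p.s2)
  yr : 2 * ((A.r.yr : ℤ) - (A.d.P + A.s0)) ≤ 2 * A.p.M - A.p.s2
  yl : -A.p.s2 ≤ 2 * ((A.r.yl : ℤ) - (A.d.P + A.s0))
  fz : A.p.M * A.r.den ≤ 80 * A.r.num
  G : ∀ sg ∈ A.d.segs, ∀ c ∈ sg.cb, c.g = []
  cd : ∀ i < A.cs.length, ∀ j < A.cs.length,
    cdC A.p.q (clN A.cs i) (clN A.cs j) = nth 0 A.ck (plE A.d.segs i j).k1
    ∧ (stC A.p.q (clN A.cs i) (clN A.cs j) = true → (plE A.d.segs i j).km = A.r.km)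
  Bd : A.d.Bd = 0
  U2 : A.U ≤ 268435456
  wt : ∀ x ∈ A.wa ++ A.wb ++ A.we ++ A.wg, |x| ≤ 64

lemma chkG_imp {A : RD} (h : A.chkG = true) : A.GOK := by
  unfold chkG at h
  simp only [Bool.and_eq_true, decide_eq_true_eq] at h
  obtain ⟨⟨⟨⟨⟨⟨⟨⟨⟨⟨⟨⟨⟨⟨⟨⟨⟨⟨⟨⟨⟨⟨⟨⟨h1, h2⟩, h3⟩, h4⟩, h5⟩, h6⟩, h7⟩, h8⟩, h9⟩, h10⟩, h11⟩, h12⟩, h13⟩, h14⟩, h15⟩, h16⟩, h17⟩, h18⟩, h19⟩, h20⟩, h21⟩, h22⟩, h23⟩, h24⟩, h25⟩ := h
  refine ⟨chkGl_imp h1, csChk_sound h2, h3, h4, ⟨h5, h6, h7, h8, h9, h10, h11, h12⟩, h13, h14,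
    h15, h16, h17, h18, h19, h20, fun sg hs c hc => ?_, fun i hi j hj => ?_,
    Nat.eq_of_beq_eq_true h23, h24, fun x hx => ?_⟩
  · have k := Nat.eq_of_beq_eq_true ((allL_iff _ _).1 ((allL_iff _ _).1 h21 _ hs) _ hc)
    rw [sumL_one] at k
    exact List.length_eq_zero_iff.1 k
  · have k := (allN_iff _ _).1 ((allN_iff _ _).1 h22 i hi) j hj
    simp only [Bool.and_eq_true, Bool.or_eq_true, Bool.not_eq_true'] at k
    refine ⟨Nat.eq_of_beq_eq_true k.1, fun hst => ?_⟩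
    rcases k.2 with k2 | k2
    · rw [hst] at k2
      exact absurd k2 (by simp)
    · exact Nat.eq_of_beq_eq_true k2
  · exact of_decide_eq_true ((allL_iff _ _).1 h25 _ hx)

/-! ### Small facts -/

lemma nth_wt {l : List ℤ} (h : ∀ x ∈ l, |x| ≤ 64) (c : ℕ) : |nth 0 l c| ≤ 64 := by
  rcases nth_mem (0:ℤ) l c with h1 | h1
  · exact h _ h1
  · rw [h1]
    norm_num

lemma kzI_bd {k i : ℕ} {a b e g : ℤ} (ha : |a| ≤ 64) (hb : |b| ≤ 64) (he : |e| ≤ 64)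
    (hg : |g| ≤ 64) : |kzI k a b e g i| ≤ 64 := by
  have h1 := abs_le.1 ha
  have h2 := abs_le.1 hb
  have h3 := abs_le.1 he
  have h4 := abs_le.1 hg
  rw [abs_le]
  unfold kzI
  split_ifs <;> constructor <;> omega

/-- constant of a zone as a list entry -/
lemma czN_nth (e : Ect) (i : Fin 5) : nth 0 [e.c0, e.c1, e.c2, e.c3, e.c4] i = czN e i := by
  fin_cases i <;> rfl

lemma kz_bd {c d vi vo : Bool} {a b e g : ℤ} (ha : |a| ≤ 64) (hb : |b| ≤ 64) (he : |e| ≤ 64)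
    (hg : |g| ≤ 64) (i : Fin 5) :
    |kz c d vi vo ((a:ℝ) / 2) ((b:ℝ) / 2) ((e:ℝ) / 2) ((g:ℝ) / 2) i| ≤ 32 := by
  rw [kz_code, abs_div]
  have h := kzI_bd (k := code c d vi vo) (i := i) ha hb he hg
  have h' : |((kzI (code c d vi vo) a b e g i : ℤ) : ℝ)| ≤ 64 := by exact_mod_cast h
  rw [abs_of_pos (by norm_num : (0:ℝ) < 2)]
  linarith

end RD

/-! ### The three body part as a hypothesis -/

section net

variable {C : Type} {M : ℕ} {σ δ : ℝ} {D K ρ : ℤ} {kL kR : ℝ}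

/-- THE THREE BODY PART of a cell: constant thresholds with class weights and families -/
def Net3 (G : GrdD C M σ δ D K ρ kL kR) (V : ℤ) (n3 dk : P3 → P3 → P3 → ℝ)
    (ca cb ce cg : C → ℝ) (lamF : C × ℤ → C → C → ℤ → ℝ) (εF : ℝ) : Prop :=
  ∃ (a b e e' : P4 → ℝ) (Φ : P4 → P4 → P4 → ℝ),
    (∀ x y z, G.ok x → G.ok y → G.ok z → -n3 x.2 y.2 z.2 + dk x.2 y.2 z.2
      ≤ (a x * kNP V (1 + ρ) y.2 z.2 + b x * kNQ V (1 + ρ) y.2 z.2
        + e x * kQP (D - ρ + 1) y.2 z.2 + e' x * kPQ (D - ρ + 1) y.2 z.2) + Φ x y z)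
    ∧ (∀ x, G.ok x → a x ≤ ca (G.cl x)) ∧ (∀ x, G.ok x → b x ≤ cb (G.cl x))
    ∧ (∀ x, G.ok x → e x ≤ ce (G.cl x)) ∧ (∀ x, G.ok x → e' x ≤ cg (G.cl x))
    ∧ G.FamP Φ lamF εF

lemma kX_class {G : GrdD C M σ δ D K ρ kL kR} {x : P4} (hx : G.ok x) (c : C → ℝ) :
    kX G.lo G.hi (fun ζ => c ζ.1) (G.pt x) = c (G.cl x) := by
  have h := GrdD.kX_cl (G := G) (x := x) c (fun _ => 1)
  rw [kX_const (G.regX hx), mul_one] at h
  rw [← h]
  congr 1
  funext ζ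
  rw [mul_one]

end net

/-! ### The tables -/

/-- node as a pair of numbers -/
abbrev ix {n : ℕ} (ζ : Fin n × ℤ) : ℕ × ℤ := ((ζ.1 : ℕ), ζ.2)

namespace RD

variable {A : RD}

/-- prices -/
def gT (A : RD) (i : Fin 3) (ζ : Fin A.cs.length × ℤ) (e : Bool) (m : ℤ) : ℝ :=
  gK A.d A.r A.s0 A.s i (ix ζ) e m

/-- right majorant -/
def hRT (A : RD) (ζ : Fin A.cs.length × ℤ) (m : ℤ) : ℝ := hRK A.d A.r A.s0 A.s (ix ζ) m

/-- left majorant -/
def hLT (A : RD) (ζ : Fin A.cs.length × ℤ) (m : ℤ) : ℝ := hLK A.d A.r A.s0 A.s (ix ζ) m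

/-- midpoint majorant -/
def LmT (A : RD) (ζ : Fin A.cs.length × ℤ) (m : ℤ) : ℝ := LmK A.d A.r A.s0 A.s (ix ζ) m

/-- midpoint table -/
def WmT (A : RD) (ζ : Fin A.cs.length × ℤ) (m : ℤ) : ℝ := WmK A.d A.r A.s0 A.s (ix ζ) m

/-- end majorant -/
def LT (A : RD) (ζ : Fin A.cs.length × ℤ) (a b : Fin A.cs.length) (m : ℤ) : ℝ :=
  LK A.d A.r A.exf A.s0 A.s (ix ζ) a b m

/-- end table -/
def WT (A : RD) (ζ : Fin A.cs.length × ℤ) (a b : Fin A.cs.length) (m : ℤ) : ℝ :=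
  WK A.d A.r A.s0 A.s (ix ζ) a b m

/-- families -/
def lamT (A : RD) (ζ : Fin A.cs.length × ℤ) (a b : Fin A.cs.length) (m : ℤ) : ℝ :=
  lamG A.d A.s0 A.s A.fs (ix ζ) a b m

/-- facts -/
def TxT (A : RD) (z a b : Fin A.cs.length × ℤ) : ℝ :=
  (A.d.fn.map fun f => ((dg f.lp (vT A.d.segs A.s0 (ix z)) : ℝ)
      - dg f.ln (vT A.d.segs A.s0 (ix z)))
    * (dg (nth16 0 f.mat (vT A.d.segs A.s0 (ix a))) (vT A.d.segs A.s0 (ix b)) : ℝ)).sum / 2 / A.U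

/-- one body constants -/
def a1T (A : RD) (ζ : Fin A.cs.length × ℤ) : ℝ :=
  -((A.aN (vT A.d.segs A.s0 (ζ.1, ζ.2)) : ℝ) / (2 * A.U))

/-- squares -/
def sgT (A : RD) (q : Fin 64) (z a : Fin A.cs.length × ℤ) : ℝ := sqT A.d A.s0 A.U q (ix z) (ix a)

/-- midpoint pairs -/
def stT (A : RD) (a b : Fin A.cs.length) : Bool := stC A.p.q (A.cs.get a) (A.cs.get b)

lemma s_nonneg (A : RD) : 0 ≤ A.s := by
  unfold s
  positivity

lemma GOK.inN (g : A.GOK) {ζ : Fin A.cs.length × ℤ} (h1 : (A.cs.get ζ.1).lo ≤ ζ.2)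
    (h2 : ζ.2 ≤ (A.cs.get ζ.1).hi) : KC.inN A.d A.s0 (ix ζ) := by
  have hlo := g.cs.lo ζ.1 ζ.1.2
  have hhi := g.cs.hi ζ.1 ζ.1.2
  rw [clN_get] at hlo hhi
  refine mem_Icc.2 ⟨?_, ?_⟩
  · show loR A.d.segs A.s0 ζ.1 ≤ ζ.2
    rw [← hlo]
    exact h1
  · show ζ.2 ≤ hiR A.d.segs A.s0 ζ.1
    rw [← hhi]
    exact h2

lemma GOK.cls (g : A.GOK) (a : Fin A.cs.length) : (a : ℕ) < nC A.d.segs := by
  rw [← g.cs.len]
  exact a.2

/-- THE NODE INEQUALITY -/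
theorem node (g : A.GOK) {k : ℕ} (hokr : okR k A.d = true) (hrow : RowOK A.d 0 (vR A.d.segs))
    {z a b : Fin A.cs.length × ℤ} (hz : KC.inN A.d A.s0 (ix z)) (ha : KC.inN A.d A.s0 (ix a))
    (hb : KC.inN A.d A.s0 (ix b)) :
    sym6 (Tcert A.a1T A.WT A.stT A.WmT A.TxT) z a b + 2 * sq3 univ A.sgT z a b ≤ 0 := by
  have hU : (0:ℝ) < A.U := by exact_mod_cast g.U
  -- every ordered triple
  have key : ∀ z a b : Fin A.cs.length × ℤ, KC.inN A.d A.s0 (ix z) → KC.inN A.d A.s0 (ix a) →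
      KC.inN A.d A.s0 (ix b) →
      Tcert A.a1T A.WT A.stT A.WmT A.TxT z a b ≤ TR A.d A.s0 A.U (ix z) (ix a) (ix b) := by
    intro z a b hz ha hb
    -- positions
    have pos : ∀ c : Fin A.cs.length × ℤ, KC.inN A.d A.s0 (ix c) →
        0 ≤ c.2 + A.s0 ∧ c.2 + A.s0 ≤ A.d.P := by
      intro c hc
      have hc' := mem_Icc.1 hc
      obtain ⟨c1, c2, c3⟩ := vT_spec A.d.segs A.s0 c.1 c.2 hc'.1 hc'.2
      obtain ⟨_, _, h3, _, h5⟩ := sgR_eq A.d.segs c1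
      have := (cnsR_imp (okR_imp hokr).2.1).hi _ h3
      constructor <;> omega
    obtain ⟨a1, a2⟩ := pos a ha
    obtain ⟨b1, b2⟩ := pos b hb
    have eW := WK_eq (s := A.s) g.gl g.G hz (a.1 : ℕ) (b.1 : ℕ) (m := 2 * b.2 - a.2)
      (by omega) (by omega)
    have eM : A.WmT z (a.2 + b.2) = A.s * tvM A.d A.s0 (ix z) A.r.km (a.2 + b.2) :=
      WmK_eq g.G hz (by omega) (by omega)
    have hcd := g.cd a.1 a.1.2 b.1 b.1.2
    have hM0 : 0 ≤ tvM A.d A.s0 (ix z) (plE A.d.segs a.1 b.1).km (a.2 + b.2) :=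
      Nat.cast_nonneg _
    have e1 : (if A.stT a.1 b.1 = true then 1 / 2 * A.WmT z (a.2 + b.2) else 0)
        ≤ A.s * (tvM A.d A.s0 (ix z) (plE A.d.segs a.1 b.1).km (a.2 + b.2) / 2) := by
      split_ifs with c
      · have c' : stC A.p.q (clN A.cs a.1) (clN A.cs b.1) = true := by
          rw [clN_get, clN_get]
          exact c
        rw [eM, hcd.2 c']
        exact le_of_eq (by ring)
      · exact mul_nonneg A.s_nonneg (by positivity)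
    have e2 : A.a1T z - A.s * ((nth16 prD A.r.pr (vT A.d.segs A.s0 (ix z))).oe : ℝ)
        ≤ (((dg A.d.ap (vT A.d.segs A.s0 (ix z)) : ℝ)
          - dg A.d.an (vT A.d.segs A.s0 (ix z))) / 2) / A.U := by
      have h0 : dg A.d.an (vT A.d.segs A.s0 (ix z)) ≤ A.aN (vT A.d.segs A.s0 (ix z))
          + (dg A.d.ap (vT A.d.segs A.s0 (ix z))
            + 2 * (nth16 prD A.r.pr (vT A.d.segs A.s0 (ix z))).oe) := by
        have : A.aN (vT A.d.segs A.s0 (ix z)) = dg A.d.an (vT A.d.segs A.s0 (ix z))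
            - (dg A.d.ap (vT A.d.segs A.s0 (ix z))
              + 2 * (nth16 prD A.r.pr (vT A.d.segs A.s0 (ix z))).oe) := rfl
        omega
      have h1 : (dg A.d.an (vT A.d.segs A.s0 (ix z)) : ℝ) ≤ A.aN (vT A.d.segs A.s0 (ix z))
          + (dg A.d.ap (vT A.d.segs A.s0 (ix z))
            + 2 * (nth16 prD A.r.pr (vT A.d.segs A.s0 (ix z))).oe) := by exact_mod_cast h0
      unfold a1T s
      rw [le_div_iff₀ hU]
      have e : (-((A.aN (vT A.d.segs A.s0 (z.1, z.2)) : ℝ) / (2 * A.U))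
          - 1 / (A.U:ℝ) * ((nth16 prD A.r.pr (vT A.d.segs A.s0 (ix z))).oe : ℝ)) * A.U
          = -(A.aN (vT A.d.segs A.s0 (ix z)) : ℝ) / 2
            - (nth16 prD A.r.pr (vT A.d.segs A.s0 (ix z))).oe := by
        field_simp
      rw [e]
      linarith
    have eTR : TR A.d A.s0 A.U (ix z) (ix a) (ix b)
        = A.s * tvE A.d A.s0 (ix z) (plE A.d.segs a.1 b.1).k1 (2 * b.2 - a.2)
          + A.s * (tvM A.d A.s0 (ix z) (plE A.d.segs a.1 b.1).km (a.2 + b.2) / 2)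
          + (((dg A.d.ap (vT A.d.segs A.s0 (ix z)) : ℝ)
            - dg A.d.an (vT A.d.segs A.s0 (ix z))) / 2) / A.U + A.TxT z a b := by
      unfold TR TxT s
      ring
    have eWT : A.WT z a.1 b.1 (2 * b.2 - a.2) = A.s
        * (tvE A.d A.s0 (ix z) (plE A.d.segs a.1 b.1).k1 (2 * b.2 - a.2)
          - (prK A.d A.r A.s0 (ix z)).oe) := eW
    unfold Tcert
    rw [eWT, eTR]
    have e3 : ((prK A.d A.r A.s0 (ix z)).oe : ℝ)
        = ((nth16 prD A.r.pr (vT A.d.segs A.s0 (ix z))).oe : ℝ) := rfl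
    rw [e3]
    have e4 := mul_sub A.s (tvE A.d A.s0 (ix z) (plE A.d.segs a.1 b.1).k1 (2 * b.2 - a.2))
      ((nth16 prD A.r.pr (vT A.d.segs A.s0 (ix z))).oe : ℝ)
    linarith
  have h := row_node' A.d hokr hrow A.s0 hU (ix z) (ix a) (ix b) hz ha hb
  rw [g.Bd, Nat.cast_zero, zero_div] at h
  have h2 : sq3 univ A.sgT z a b = sq3 univ (sqT A.d A.s0 A.U) (ix z) (ix a) (ix b) := rfl
  rw [h2]
  have k1 := key z a b hz ha hb
  have k2 := key z b a hz hb ha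
  have k3 := key a z b ha hz hb
  have k4 := key a b z ha hb hz
  have k5 := key b z a hb hz ha
  have k6 := key b a z hb ha hz
  unfold sym6 at h ⊢
  linarith

/-! ### End point tables -/

lemma GOK.wts (g : A.GOK) (c : ℕ) : |nth 0 A.wa c| ≤ 64 ∧ |nth 0 A.wb c| ≤ 64
    ∧ |nth 0 A.we c| ≤ 64 ∧ |nth 0 A.wg c| ≤ 64 := by
  have h := g.wt
  refine ⟨nth_wt (fun x hx => h x ?_) c, nth_wt (fun x hx => h x ?_) c,
    nth_wt (fun x hx => h x ?_) c, nth_wt (fun x hx => h x ?_) c⟩ <;>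
    simp only [List.mem_append] <;> tauto

/-- END POINT TABLES OF A NODE -/
theorem zones (g : A.GOK) (hkz : A.chkKz = true) (hn : NdsOK A.d A.r A.exf 0 (vR A.d.segs))
    {k : ℕ} (hokr : okR k A.d = true) {M : ℕ} {σ δ : ℝ} {D K ρ : ℤ} {kL kR : ℝ}
    {G : GrdD (Fin A.cs.length) M σ δ D K ρ kL kR} {V : ℤ} (F : FlgU G.toGrd V)
    (hp : ∀ c, F.pole c = (A.cs.get c).sd) (hi : ∀ c, F.vI c = clI A.p.q (A.cs.get c))
    (ho : ∀ c, F.vO c = clO A.p.q (A.cs.get c))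
    {ζ : Fin A.cs.length × ℤ} (hζ : KC.inN A.d A.s0 (ix ζ)) (a b : Fin A.cs.length) :
    Zone5 (kLc A.r.c (A.d.P + A.s0)) (kRc A.r.c (A.d.P + A.s0))
      (fun i m => lam5U G F A.gT (fun ζ => w4 A.wa ζ.1) (fun ζ => w4 A.wb ζ.1)
        (fun ζ => w4 A.we ζ.1) (fun ζ => w4 A.wg ζ.1) ζ a b i m + A.lamT ζ a b m) (A.LT ζ a b)
      ∧ EndOK (A.LT ζ a b) (A.WT ζ a b) := by
  have hU : (0:ℝ) < A.U := by exact_mod_cast g.U
  have hs := A.s_nonneg
  obtain ⟨fl, fok⟩ := chkFs_imp g.fs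
  have hc := cnsR_imp (okR_imp hokr).2.1
  have hm := mem_Icc.1 hζ
  obtain ⟨z1, z2, z3⟩ := vT_spec A.d.segs A.s0 (ζ.1 : ℕ) ζ.2 hm.1 hm.2
  have z3' : ixR A.d.segs (vT A.d.segs A.s0 (ix ζ)) = ζ.1 := z3
  have z1' : vT A.d.segs A.s0 (ix ζ) < vR A.d.segs := z1
  have hk := g.gl.k a (g.cls a) b (g.cls b)
  -- the check of the constants
  have h1 := (allN_iff _ _).1 hkz _ z1'
  rw [Bool.and_eq_true] at h1
  have hoe := Nat.le_of_ble_eq_true h1.2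
  have hoe' : ((prK A.d A.r A.s0 (ix ζ)).oe : ℝ) ≤ 2 ^ 36 := by
    have e : (prK A.d A.r A.s0 (ix ζ)).oe = (nth16 prD A.r.pr (vT A.d.segs A.s0 (ix ζ))).oe := rfl
    rw [e]
    exact_mod_cast hoe
  have h2 : ∀ i : Fin 5, (A.U : ℤ) * kzI (nth 0 A.ck (plE A.d.segs a b).k1) (nth 0 A.wa ζ.1)
      (nth 0 A.wb ζ.1) (nth 0 A.we ζ.1) (nth 0 A.wg ζ.1) i + 2 * (prK A.d A.r A.s0 (ix ζ)).oe
      ≤ 2 * (czN (ecK A.d A.r A.s0 (ix ζ) a b) i : ℤ)
        + 2 * exO A.fs ζ.1 (plE A.d.segs a b).k1 := by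
    intro i
    have h3 := of_decide_eq_true ((allN_iff _ _).1 ((allN_iff _ _).1 h1.1 _ hk) i i.2)
    rw [z3', czN_nth] at h3
    exact h3
  obtain ⟨w1, w2, w3, w4'⟩ := g.wts ζ.1
  have hcode : code (F.pole a) (F.pole b) (F.vI b) (F.vO b)
      = nth 0 A.ck (plE A.d.segs a b).k1 := by
    have h3 := (g.cd a a.2 b b.2).1
    rw [clN_get, clN_get] at h3
    rw [hp, hp, hi, ho, ← h3]
    rfl
  have ekz : ∀ i : Fin 5, kz (F.pole a) (F.pole b) (F.vI b) (F.vO b) (w4 A.wa ζ.1)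
      (w4 A.wb ζ.1) (w4 A.we ζ.1) (w4 A.wg ζ.1) i
      = (kzI (nth 0 A.ck (plE A.d.segs a b).k1) (nth 0 A.wa ζ.1) (nth 0 A.wb ζ.1)
        (nth 0 A.we ζ.1) (nth 0 A.wg ζ.1) i : ℝ) / 2 := by
    intro i
    have h3 := kz_code (F.pole a) (F.pole b) (F.vI b) (F.vO b) (nth 0 A.wa ζ.1)
      (nth 0 A.wb ζ.1) (nth 0 A.we ζ.1) (nth 0 A.wg ζ.1) i
    rw [hcode] at h3
    unfold w4
    exact h3
  refine row_end g.gl hn hs hζ (g.cls a) (g.cls b) (fun i y hy => ?_) (fun i m hm' => ?_)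
  · -- inside
    have hg : A.gT (z53 i) ζ false ((y:ℤ) - (A.d.P + A.s0))
        = A.s * (zd A.r.c (prK A.d A.r A.s0 (ix ζ)) (z53 i) y : ℝ) := by
      unfold gT gK gZ
      rw [if_pos hζ, dz_in (y := y) (by ring) (by rw [g.gl.n]; exact hy)]
    have hl : A.lamT ζ a b ((y:ℤ) - (A.d.P + A.s0))
        = A.s * ((dg (exKr A.d A.exf A.s0 (ix ζ) a b) y : ℝ)
          - exO A.fs ζ.1 (plE A.d.segs a b).k1) :=
      lamG_eq A.d hc fl fok ⟨hm.1, hm.2⟩ A.s a b hy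
    have h3 := h2 i
    have h3' : (A.U : ℝ) * (kzI (nth 0 A.ck (plE A.d.segs a b).k1) (nth 0 A.wa ζ.1)
      (nth 0 A.wb ζ.1) (nth 0 A.we ζ.1) (nth 0 A.wg ζ.1) i : ℤ)
        + 2 * ((prK A.d A.r A.s0 (ix ζ)).oe : ℝ)
      ≤ 2 * (czN (ecK A.d A.r A.s0 (ix ζ) a b) i : ℝ)
        + 2 * (exO A.fs ζ.1 (plE A.d.segs a b).k1 : ℝ) := by exact_mod_cast h3
    have h4 : (kzI (nth 0 A.ck (plE A.d.segs a b).k1) (nth 0 A.wa ζ.1)
      (nth 0 A.wb ζ.1) (nth 0 A.we ζ.1) (nth 0 A.wg ζ.1) i : ℝ) / 2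
        ≤ A.s * ((czN (ecK A.d A.r A.s0 (ix ζ) a b) i : ℝ)
          + exO A.fs ζ.1 (plE A.d.segs a b).k1 - (prK A.d A.r A.s0 (ix ζ)).oe) := by
      unfold s
      rw [one_div, inv_mul_eq_div, le_div_iff₀ hU]
      linarith
    show A.gT (z53 i) ζ false ((y:ℤ) - (A.d.P + A.s0))
      + kz (F.pole a) (F.pole b) (F.vI b) (F.vO b) (w4 A.wa ζ.1) (w4 A.wb ζ.1) (w4 A.we ζ.1)
        (w4 A.wg ζ.1) i + A.lamT ζ a b ((y:ℤ) - (A.d.P + A.s0)) ≤ _
    rw [hg, hl, ekz]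
    linarith
  · -- outside
    have hg : A.gT (z53 i) ζ false m = 0 := by
      unfold gT gK gZ
      rw [if_pos hζ]
      rcases hm' with h3 | h3
      · rw [dz_lo h3, mul_zero]
      · rw [dz_hi (by rw [g.gl.n]; exact h3), mul_zero]
    have hl : A.lamT ζ a b m ≤ A.s * 2 ^ 35 := lamG_up A.d fl fok A.s0 hs (ix ζ) a b m
    have hkb := kzI_bd (k := nth 0 A.ck (plE A.d.segs a b).k1) (i := i) w1 w2 w3 w4'
    have hkb' : (kzI (nth 0 A.ck (plE A.d.segs a b).k1) (nth 0 A.wa ζ.1) (nth 0 A.wb ζ.1)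
        (nth 0 A.we ζ.1) (nth 0 A.wg ζ.1) i : ℝ) ≤ 64 := by
      exact_mod_cast (abs_le.1 hkb).2
    have hU2 : (A.U : ℝ) ≤ 268435456 := by exact_mod_cast g.U2
    have h4 : (kzI (nth 0 A.ck (plE A.d.segs a b).k1) (nth 0 A.wa ζ.1)
      (nth 0 A.wb ζ.1) (nth 0 A.we ζ.1) (nth 0 A.wg ζ.1) i : ℝ) / 2 ≤ A.s * 2 ^ 33 := by
      unfold s
      rw [one_div, inv_mul_eq_div, le_div_iff₀ hU]
      nlinarith
    show A.gT (z53 i) ζ false m
      + kz (F.pole a) (F.pole b) (F.vI b) (F.vO b) (w4 A.wa ζ.1) (w4 A.wb ζ.1) (w4 A.we ζ.1)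
        (w4 A.wg ζ.1) i + A.lamT ζ a b m ≤ _
    rw [hg, ekz]
    have h5 : A.s * (2 ^ 33 + 2 ^ 35) ≤ A.s * (2 ^ 37 - (prK A.d A.r A.s0 (ix ζ)).oe) :=
      mul_le_mul_of_nonneg_left (by linarith) hs
    linarith

/-! ### The row at one depth -/

/-- the sum of the absolute node values of the one body part -/
def absOne (A : RD) : ℝ :=
  ∑ c : Fin A.cs.length, ∑ i ∈ nd (fun c : Fin A.cs.length => (A.cs.get c).lo)
    (fun c => (A.cs.get c).hi) c, |((A.p.nb (nth 0 A.iw c) (A.cs.get c) i : ℚ) : ℝ)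
      + (bzS A.p.M ((A.p.s2:ℝ) / 2) (cutL A.p.M ((A.p.s2:ℝ) / 2))
          (cutR A.p.M ((A.p.s2:ℝ) / 2)) (fun j => fun m => A.gT j (c, i) true m)
        + A.p.M * -(((0:ℤ) : ℝ) / (2 * A.U))) / A.p.M|

/-- bound of the price sums -/
def BgS (A : RD) : ℝ := 3 * ((3 * A.p.M + 5) * (A.s * 2 ^ 36))

/-- bound of all tables -/
def BB (A : RD) : ℝ := A.s * 2 ^ 66 + 64

/-- one body constant -/
def e1 (A : RD) : ℝ := oneC A.p.M A.absOne A.BgS 0

/-- the constant of the row; `CF`, `Cx` = constants of the families and of the facts (per `1 / K`),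
`C0` = constant of the facts -/
def cst (A : RD) (CF Cx C0 : ℝ) : ℝ :=
  18 * (A.e1 + (14 * A.BB + A.BB + 6 * A.BB) * (3 * A.p.M) + CF + Cx) + C0 + 4 + 2 * A.e1

lemma U_pos (g : A.GOK) : (0:ℝ) < A.U := by exact_mod_cast g.U

lemma GOK.kLc_eq (g : A.GOK) : kLc A.r.c (A.d.P + A.s0) = cutL A.p.M ((A.p.s2:ℝ) / 2) := by
  have h := g.kL
  have htd : 1 ≤ A.r.c.td := (chkC_imp g.gl.c).2.2.2.2
  have h' : (A.r.c.td : ℝ) * (80 * ((A.r.c.a : ℝ) - (A.d.P + A.s0))) + 80 * A.r.c.tl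
      = A.r.c.td * (-2 * A.p.M - 40 * A.p.s2) := by exact_mod_cast h
  have ht : (0:ℝ) < A.r.c.td := by exact_mod_cast htd
  unfold kLc cutL
  push_cast
  field_simp
  linarith

lemma GOK.kRc_eq (g : A.GOK) : kRc A.r.c (A.d.P + A.s0) = cutR A.p.M ((A.p.s2:ℝ) / 2) := by
  have h := g.kR
  have htd : 1 ≤ A.r.c.td := (chkC_imp g.gl.c).2.2.2.2
  have h' : (A.r.c.td : ℝ) * (80 * ((A.r.c.b : ℝ) - (A.d.P + A.s0))) + 80 * A.r.c.tr
      = A.r.c.td * (82 * A.p.M - 40 * A.p.s2) := by exact_mod_cast h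
  have ht : (0:ℝ) < A.r.c.td := by exact_mod_cast htd
  unfold kRc cutR
  push_cast
  field_simp
  linarith

/-- prices at the nodes of the sums -/
lemma price_node (g : A.GOK) {ζ : Fin A.cs.length × ℤ} (hζ : KC.inN A.d A.s0 (ix ζ)) (i : Fin 3)
    (e : Bool) {j : ℕ} (hj : j < 3 * A.p.M + 5) :
    A.gT i ζ e ((j:ℤ) - A.p.M - 2) = (A.gN (vT A.d.segs A.s0 (ζ.1, ζ.2)) i j : ℝ) / A.U := by
  have h1 := g.o1
  have h2 := g.o2
  have h3 := g.gl.n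
  have ho : j + A.off ≤ A.r.c.n := by
    unfold off
    omega
  have ei : ((j:ℤ) - A.p.M - 2) + (A.d.P + A.s0) = ((j + A.off : ℕ) : ℤ) := by
    unfold off
    omega
  unfold gT gK gZ gN s
  rw [if_pos hζ, dz_in ei ho, zdn_eq]
  unfold prK
  rw [one_div, inv_mul_eq_div]

lemma BgS_bd (hn : NdsOK A.d A.r A.exf 0 (vR A.d.segs)) (ζ : Fin A.cs.length × ℤ) :
    ∑ i : Fin 3, ∑ k ∈ Iz A.p.M, A.gT i ζ true k ≤ A.BgS := by
  have hI : ((Iz A.p.M).card : ℝ) = 3 * A.p.M + 5 := by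
    unfold Iz
    rw [Int.card_Icc]
    have : (2 * (A.p.M : ℤ) + 2 + 1 - (-(A.p.M : ℤ) - 2)).toNat = 3 * A.p.M + 5 := by omega
    rw [this]
    push_cast
    ring
  have h1 : ∀ i : Fin 3, ∑ k ∈ Iz A.p.M, A.gT i ζ true k ≤ (3 * A.p.M + 5) * (A.s * 2 ^ 36) := by
    intro i
    refine (sum_le_card_nsmul _ _ _ fun k _ => (gK_bd hn A.s_nonneg i (ix ζ) true k).2).trans ?_
    rw [nsmul_eq_mul, hI]
  refine (sum_le_card_nsmul _ _ _ fun i _ => h1 i).trans (le_of_eq ?_)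
  rw [nsmul_eq_mul]
  unfold BgS
  simp

/-- THE ROW AT ONE DEPTH -/
theorem row_at (g : A.GOK) (hout : A.p.o = true) (hkz : A.chkKz = true) (hone : A.chkOne = true)
    (hn : NdsOK A.d A.r A.exf 0 (vR A.d.segs)) {k : ℕ} (hokr : okR k A.d = true)
    (hrow : RowOK A.d 0 (vR A.d.segs))
    {K0 : ℤ} {f : ℝ} {P Q : WS} {D K V E N : ℤ} {ξR ξL : ℤ → ℝ}
    (h : EnvS K0 f P Q D K (rhoE D) V E N ξR ξL) (hDM : 13 * (A.p.M : ℤ) ≤ D)
    {lo t0 t t1 c1 c2 c3 : ℤ} (hNt : nearE D < t) (h0 : t0 ≤ t) (h1 : t ≤ t1) (hlo : lo ≤ 1)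
    (hVt : V < t0) (hcA : CellAt A.p.m A.p.a A.p.b D t0 t1) (hcut : Cuts D t0 c1 c2 c3)
    (hco : CutOK A.p.m A.p.a D t0 (lo - t0) c1 c2 c3)
    {cl : P4 → Fin A.cs.length} (hD : D = 4 * K + 1) (hK : 1 ≤ K)
    (hcl : ClMap (fun i : Fin A.cs.length => A.cs.get i) A.p.q D K cl)
    (hiw : ∀ x : P4, InR D K x.2 → nth 0 A.iw (cl x) = 1 → lo - t0 ≤ x.2.2)
    {G : GrdD (Fin A.cs.length) A.p.M ((A.p.s2:ℝ) / 2) (12 * A.p.M / D) D K (rhoE D)
      (cutL A.p.M ((A.p.s2:ℝ) / 2)) (cutR A.p.M ((A.p.s2:ℝ) / 2))}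
    (hG : G = mkGrd g.pos.q hD hK g.cs.runF hcl) (F : FlgU G.toGrd V)
    (hp : ∀ c, F.pole c = (A.cs.get c).sd) (hi : ∀ c, F.vI c = clI A.p.q (A.cs.get c))
    (ho : ∀ c, F.vO c = clO A.p.q (A.cs.get c))
    {εF CF : ℝ}
    (hN : Net3 G V (n3x K (rhoE D) V E lo t0 t1 c1 c2 c3)
      (dk3c D (rhoE D) E t0 t1 1 1 0 0) (fun c => w4 A.wa c) (fun c => w4 A.wb c)
      (fun c => w4 A.we c) (fun c => w4 A.wg c) A.lamT εF) (hF0 : 0 ≤ εF) (hF : K * εF ≤ CF)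
    {X3 : P4 → P4 → P4 → ℝ} {C0 εx Cx : ℝ}
    (hX : ∀ cl', XF P Q cl' K (fun _ => 0) X3 C0)
    (hY : G.Part X3 A.TxT εx) (hx0 : 0 ≤ εx)
    (hx : K * εx ≤ Cx) :
    RowAt (A.cst CF Cx C0) P Q D K (rhoE D) V E lo t := by
  obtain ⟨clT, lR, lL, ht⟩ := h.ty
  have hU := U_pos g
  have hs := A.s_nonneg
  have hK1 := h.hK1
  have hKr : (10000:ℝ) ≤ K := by exact_mod_cast hK1
  have hDr : (D:ℝ) = 4 * K + 1 := by exact_mod_cast hD
  have hDp : (0:ℝ) < D := by rw [hDr]; linarith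
  have hM0 : (0:ℝ) < A.p.M := by exact_mod_cast g.pos.M
  have hE0 : 0 ≤ E := h.hE
  have hE : 40 * E ≤ D := by
    have e1 := h.hN'
    have e2 := h.hN0
    have e3 : (E + 1) * 122 ≤ (E + 1) * N := mul_le_mul_of_nonneg_left e2 (by omega)
    omega
  have hs0 : (0:ℝ) ≤ (A.p.s2:ℝ) / 2 := by
    have : (0:ℝ) ≤ A.p.s2 := by exact_mod_cast g.pos.s0
    linarith
  have hδ : (0:ℝ) ≤ 12 * (A.p.M:ℝ) / D := by positivity
  have hKδ : (K:ℝ) * (12 * (A.p.M:ℝ) / D) ≤ 3 * A.p.M := by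
    rw [mul_div_assoc', div_le_iff₀ hDp, hDr]
    nlinarith
  have inN : ∀ ζ : Fin A.cs.length × ℤ, ζ.2 ∈ nd G.lo G.hi ζ.1 → KC.inN A.d A.s0 (ix ζ) := by
    intro ζ hζ
    subst hG
    have := mem_Icc.1 hζ
    exact g.inN this.1 this.2
  -- one body part
  obtain ⟨B, e1', he1, ee1, hB, hm, hOne⟩ := one_row g.pos g.U g.cs g.wc (g := A.gN) (a := A.aN)
    (x := fun _ => 0) hone hD hK (by omega) hDM hcl hiw hcA hco hE
    (gr := A.gT) (g0 := fun i ζ m => A.gT i ζ true m)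
    (fun i ζ m => (gK_bd hn hs i (ix ζ) true m).1) (fun i ζ e m => le_rfl)
    (fun i ζ j hj hz1 hz2 => price_node g (g.inN hz1 hz2) i true hj) (Bg := A.BgS) (fun ζ => BgS_bd hn ζ)
    (wf := fun _ => 0) (cw := 0) le_rfl (fun y hy => by
      have e : (fun ζ : Fin A.cs.length × ℤ => -((((fun _ => (0:ℤ)) (vT A.d.segs A.s0
          (ζ.1, ζ.2)) : ℤ) : ℝ) / (2 * A.U))) = fun _ => 0 := by
        funext ζ
        simp
      rw [e]
      unfold kX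
      simp) (n1 := n1x K (rhoE D) E lo t0 t1 c1 c2 c3) (X1 := fun _ => 0) (fun y hy => by
      rw [hout, n1x_cut, add_zero, sub_zero])
  have ee : e1' = A.e1 := ee1
  rw [← hG] at hB hOne
  -- the three body part
  obtain ⟨a, b, e, e', Φ, H3, wa, wb, we, wg, hΦ⟩ := hN
  have hoe : ∀ z < vR A.d.segs, (nth16 prD A.r.pr z).oe ≤ 2 ^ 37 := by
    intro z hz
    have h2 := (allN_iff _ _).1 hkz _ hz
    rw [Bool.and_eq_true] at h2
    have h3 := Nat.le_of_ble_eq_true h2.2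
    exact h3.trans (by norm_num)
  have hzone := fun (ζ : Fin A.cs.length × ℤ) (hζ : ζ.2 ∈ nd G.lo G.hi ζ.1)
    (c d : Fin A.cs.length) => zones g hkz hn hokr F hp hi ho (inN ζ hζ) c d
  obtain ⟨fl, fok⟩ := chkFs_imp g.fs
  have hnum := (chkMd_imp (hn 0 le_rfl (by
    obtain ⟨c, hc⟩ : ∃ c, c = cl (false, false, 0) := ⟨_, rfl⟩
    have h2 := (g.cs.runF c).1
    exact lt_of_le_of_lt (Nat.zero_le _) (inN_lt (g.inN (ζ := (c, (A.cs.get c).lo)) le_rfl h2)))).md)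
  have hden : (0:ℝ) < A.r.den := by exact_mod_cast hnum.2.1
  have hnd : (A.r.num:ℝ) ≤ A.r.den := by exact_mod_cast hnum.1
  have hcL := g.kLc_eq
  have hcR := g.kRc_eq
  have s36 : A.s * 2 ^ 36 ≤ A.BB := by
    unfold BB
    have : A.s * 2 ^ 36 ≤ A.s * 2 ^ 66 := mul_le_mul_of_nonneg_left (by norm_num) hs
    linarith
  have s37 : A.s * 2 ^ 37 ≤ A.BB := by
    unfold BB
    have : A.s * 2 ^ 37 ≤ A.s * 2 ^ 66 := mul_le_mul_of_nonneg_left (by norm_num) hs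
    linarith
  have s40 : A.s * 2 ^ 40 ≤ A.BB := by
    unfold BB
    have : A.s * 2 ^ 40 ≤ A.s * 2 ^ 66 := mul_le_mul_of_nonneg_left (by norm_num) hs
    linarith
  have hBB : 0 ≤ A.BB := by
    unfold BB
    positivity
  have hW0 : ∀ c, nd G.lo G.hi c ⊆ univ.biUnion (fun c : Fin A.cs.length => nd G.lo G.hi c) :=
    fun c => subset_biUnion_of_mem (fun c : Fin A.cs.length => nd G.lo G.hi c) (mem_univ c)
  refine row_tablesU h ht hNt h0 h1 (n1 := n1x K (rhoE D) E lo t0 t1 c1 c2 c3)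
    (n3 := n3x K (rhoE D) V E lo t0 t1 c1 c2 c3) (C1 := 4)
    (net_out_cell_X h hlo hVt h0 h1 hcut)
    (dk := dk3c D (rhoE D) E t0 t1 1 1 0 0)
    ((dchE_le_dchc h.toEnv (by omega) h0 h1).trans (dchc_drop h.toEnv (by omega))) (X1 := fun _ => 0)
    (X3 := X3) (C0 := C0) (hX clT) G F hδ hW0
    (hI9 G hδ ?_ ?_ ?_ ?_ ?_)
    (g := A.gT) (fun i ζ e m => rfl) (fun i ζ e m => (gK_bd hn hs i (ix ζ) e m).1) (Bg := A.BB)
    (fun i ζ e m => ?_)
    (hR := A.hRT) (hL := A.hLT) (fun ζ m => (hRK_bd hn hs (ix ζ) m).1)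
    (fun ζ m => (hLK_bd hn hs (ix ζ) m).1) (fun ζ m => ?_) (fun ζ m => ?_)
    (nR := (((A.r.yr : ℤ) - (A.d.P + A.s0) : ℤ) : ℝ))
    (nL := (((A.r.yl : ℤ) - (A.d.P + A.s0) : ℤ) : ℝ)) ?_ ?_ ?_ ?_
    (fun ζ _ e x hx hx' => ?_) (fun ζ _ e x hx => ?_) (fun ζ _ e x hx hx' => ?_)
    (fun ζ _ e x hx => ?_)
    (τ := A.p.s2) (by push_cast; ring) (d := (A.r.num:ℝ) / A.r.den) ?_ (by positivity)
    ((div_le_one hden).2 hnd)
    (Lm := A.LmT) (Wm := A.WmT) (Bm := A.BB)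
    (fun ζ hζ m => (row_mid g.gl hn hs (inN ζ hζ)).1 m) (fun ζ m => ?_)
    (fun ζ hζ => (row_mid g.gl hn hs (inN ζ hζ)).2)
    (st := A.stT) (fun y z _ _ hf => absurd hf (by simp [stT, stC]))
    (BB := B) (fun x hx => hB lR lL x hx) (a1 := A.a1T) (ε1 := e1' / (3 * D)) (e0 := 2 * e1')
    (by linarith) hm hOne
    (a := a) (b := b) (e := e) (e' := e') (Φ := Φ) (Y3 := X3) (fun x y z hx hy hz => ?_)
    (ca := fun ζ => w4 A.wa ζ.1) (cb := fun ζ => w4 A.wb ζ.1) (ce := fun ζ => w4 A.we ζ.1)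
    (cg := fun ζ => w4 A.wg ζ.1)
    (fun x hx => ?_) (fun x hx => ?_) (fun x hx => ?_) (fun x hx => ?_)
    (lamF := A.lamT) hΦ (Tx := A.TxT) hY
    (L := A.LT) (W := A.WT) (B := A.BB) (fun ζ c d i m => ?_) (fun ζ c d m => ?_)
    (fun ζ hζ c d => ?_) (fun ζ hζ c d => (hzone ζ hζ c d).2)
    (p := 64) (sg := A.sgT) (fun z a b hz ha hb => node g hokr hrow (inN z hz) (inN a ha) (inN b hb))
    (ε := e1' / (3 * D) + (14 * A.BB * (12 * (A.p.M:ℝ) / D) + εF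
      + (A.BB * (12 * (A.p.M:ℝ) / D) + 6 * A.BB * (12 * (A.p.M:ℝ) / D))) + εx) (by positivity)
    le_rfl ?_
  -- cuts
  · exact div_le_div_of_nonneg_right (by linarith) hDp.le
  · unfold cutL
    linarith
  · unfold cutL
    linarith
  · unfold cutR
    linarith
  · unfold cutR
    linarith
  -- bounds
  · have k2 := gK_bd (s0 := (A.s0:ℤ)) hn hs i (ix ζ) e m
    show |gK A.d A.r A.s0 A.s i (ix ζ) e m| ≤ _
    rw [abs_of_nonneg k2.1]
    exact k2.2.trans s36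
  · have k2 := hRK_bd (s0 := (A.s0:ℤ)) hn hs (ix ζ) m
    show |hRK A.d A.r A.s0 A.s (ix ζ) m| ≤ _
    rw [abs_of_nonneg k2.1]
    exact k2.2.trans s36
  · have k2 := hLK_bd (s0 := (A.s0:ℤ)) hn hs (ix ζ) m
    show |hLK A.d A.r A.s0 A.s (ix ζ) m| ≤ _
    rw [abs_of_nonneg k2.1]
    exact k2.2.trans s36
  · have k2 := g.yr
    have k3 : 2 * (((A.r.yr : ℤ) - (A.d.P + A.s0) : ℤ) : ℝ) ≤ 2 * A.p.M - A.p.s2 := by
      exact_mod_cast k2
    linarith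
  · have k2 := g.yr
    have k3 : 2 * (((A.r.yr : ℤ) - (A.d.P + A.s0) : ℤ) : ℝ) ≤ 2 * A.p.M - A.p.s2 := by
      exact_mod_cast k2
    unfold cutR
    linarith
  · have k2 := g.yl
    have k3 : -(A.p.s2 : ℝ) ≤ 2 * (((A.r.yl : ℤ) - (A.d.P + A.s0) : ℤ) : ℝ) := by
      exact_mod_cast k2
    linarith
  · have k2 := g.yl
    have k3 : -(A.p.s2 : ℝ) ≤ 2 * (((A.r.yl : ℤ) - (A.d.P + A.s0) : ℤ) : ℝ) := by
      exact_mod_cast k2
    unfold cutL
    linarith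
  · exact (row_dom g.gl hn hs (ix ζ) e).1 x hx (by rw [hcR]; exact hx')
  · exact (row_dom g.gl hn hs (ix ζ) e).2.1 x (by rw [hcR]; exact hx)
  · exact (row_dom g.gl hn hs (ix ζ) e).2.2.1 x (by rw [hcL]; exact hx) hx'
  · exact (row_dom g.gl hn hs (ix ζ) e).2.2.2 x (by rw [hcL]; exact hx)
  · -- fuzz
    have k2 : (A.p.M : ℝ) * A.r.den ≤ 80 * A.r.num := by exact_mod_cast g.fz
    have k3 : (40:ℝ) * E ≤ D := by exact_mod_cast hE
    rw [div_le_div_iff₀ (by positivity) hden]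
    have k4 := mul_le_mul_of_nonneg_left k3 (mul_nonneg hM0.le hden.le)
    have k5 := mul_le_mul_of_nonneg_right k2 hDp.le
    linarith
  · exact (LmK_bd hn hs (ix ζ) m).trans s37
  · -- three body inequality
    have k2 := H3 x y z hx hy hz
    linarith
  · rw [kX_class hx (fun c => w4 A.wa c)]
    exact wa x hx
  · rw [kX_class hx (fun c => w4 A.wb c)]
    exact wb x hx
  · rw [kX_class hx (fun c => w4 A.we c)]
    exact we x hx
  · rw [kX_class hx (fun c => w4 A.wg c)]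
    exact wg x hx
  · -- bound of the zone tables
    obtain ⟨q1, q2, q3, q4⟩ := g.wts ζ.1
    have k2 := kz_bd (c := F.pole c) (d := F.pole d) (vi := F.vI d) (vo := F.vO d) q1 q2 q3 q4
      (z95 i)
    have k3 : |A.lamT ζ c d m| ≤ A.s * 2 ^ 65 := lamG_le A.d fl fok A.s0 hs (ix ζ) c d m
    have k4 : |g9 A.gT ζ false i m| ≤ A.s * 2 ^ 36 := by
      have k5 : ∀ j : Fin 3, |A.gT j ζ false m| ≤ A.s * 2 ^ 36 := fun j => by
        have k6 := gK_bd (s0 := (A.s0:ℤ)) hn hs j (ix ζ) false m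
        show |gK A.d A.r A.s0 A.s j (ix ζ) false m| ≤ _
        rw [abs_of_nonneg k6.1]
        exact k6.2
      have k6 : |(0:ℝ)| ≤ A.s * 2 ^ 36 := by
        rw [abs_zero]
        positivity
      unfold g9
      fin_cases i
      · exact k6
      · exact k5 0
      · exact k5 1
      · exact k5 1
      · exact k6
      · exact k5 1
      · exact k5 1
      · exact k5 2
      · exact k6
    have k7 : A.s * 2 ^ 36 + A.s * 2 ^ 65 ≤ A.s * 2 ^ 66 := by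
      have : A.s * (2 ^ 36 + 2 ^ 65) ≤ A.s * 2 ^ 66 :=
        mul_le_mul_of_nonneg_left (by norm_num) hs
      linarith
    unfold lam9U BB
    refine (abs_add_le _ _).trans ?_
    have k8 := abs_add_le (g9 A.gT ζ false i m) (kz (F.pole c) (F.pole d) (F.vI d) (F.vO d)
      (w4 A.wa ζ.1) (w4 A.wb ζ.1) (w4 A.we ζ.1) (w4 A.wg ζ.1) (z95 i))
    have k2' : |kz (F.pole c) (F.pole d) (F.vI d) (F.vO d)
      (w4 A.wa ζ.1) (w4 A.wb ζ.1) (w4 A.we ζ.1) (w4 A.wg ζ.1) (z95 i)| ≤ 32 := k2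
    linarith
  · exact (LK_bd hs hoe (ix ζ) c d m).trans s40
  · -- zones
    refine Zone9.of_zone5U (fun i ζ e m => (gK_bd hn hs i (ix ζ) e m).1) ?_ ?_ ?_ ?_ ?_
    · unfold cutL
      linarith
    · unfold cutL
      linarith
    · unfold cutR
      linarith
    · unfold cutR
      linarith
    · have hz5 := (hzone ζ hζ c d).1
      rw [hcL, hcR] at hz5
      exact hz5
  · -- constants
    have he1p : (K:ℝ) * (e1' / (3 * D)) ≤ e1' := by
      rw [mul_div_assoc', div_le_iff₀ (by positivity), hDr]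
      nlinarith
    have k2 := mul_le_mul_of_nonneg_left hKδ (by positivity : 0 ≤ 21 * A.BB)
    have k3 : (K:ℝ) * (e1' / (3 * D) + (14 * A.BB * (12 * (A.p.M:ℝ) / D) + εF
      + (A.BB * (12 * (A.p.M:ℝ) / D) + 6 * A.BB * (12 * (A.p.M:ℝ) / D))) + εx)
      = (K:ℝ) * (e1' / (3 * D)) + 21 * A.BB * ((K:ℝ) * (12 * (A.p.M:ℝ) / D)) + K * εF
        + K * εx := by ring
    rw [k3]
    unfold cst
    rw [← ee]
    linarith

end RD

end

end MP61673a.RowO
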