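import Pool.Agent.Mu673.NetCk
import Pool.Agent.Mu673.FEnetX
import Pool.Agent.Mu673.RowOut

/-!
THE THREE-BODY PART OF AN OUT CELL FROM A BOOL CHECK: the families of the data with their kinds
(`0` exotic labels of the own side, `1` of the other side, `2`, `3` midpoints, `4`, `5` tail gains)
and the doubled class weights give `Net3`.
-/

set_option autoImplicit false

namespace MP61673a.RowO

open Finset MP61673a.W MP61673a.Kink MP61673a.Bary MP61673a.Sos MP61673a.Fin MP61673a.FE MP61673a.KC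

/-! ### Weights of the kinds -/

/-- doubled multipliers of the families of kind `k`, times the scale -/
def nK (l : List (Gf × ℕ)) (k c : ℕ) : ℕ :=
  (l.map fun p => if p.2 = k then 2 * (nth 0 p.1.mu c * p.1.kp) else 0).sum

/-- doubled moving weight, rounded down -/
def vdK (U : ℕ) (l : List (Gf × ℕ)) (k c : ℕ) : ℤ := ((nK l k c / U : ℕ) : ℤ)

/-- doubled constant weight -/
def cdK (U : ℕ) (l : List (Gf × ℕ)) (need : ℤ) (k c : ℕ) : ℤ := max 0 (need - vdK U l k c)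

/-- moving weight -/
noncomputable def vK (U : ℕ) (l : List (Gf × ℕ)) (k c : ℕ) : ℝ := (nK l k c : ℝ) / (2 * U)

lemma vK_nonneg (U : ℕ) (l : List (Gf × ℕ)) (k c : ℕ) : 0 ≤ vK U l k c := by
  unfold vK
  positivity

lemma vdK_le {U : ℕ} (hU : 0 < U) (l : List (Gf × ℕ)) (k c : ℕ) :
    ((vdK U l k c : ℤ) : ℝ) / 2 ≤ vK U l k c := by
  have hU' : (0:ℝ) < U := by exact_mod_cast hU
  have h : (nK l k c / U) * U ≤ nK l k c := Nat.div_mul_le_self _ _
  have h' : ((nK l k c / U : ℕ) : ℝ) * U ≤ nK l k c := by exact_mod_cast h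
  unfold vK vdK
  rw [Int.cast_natCast, div_le_div_iff₀ (by norm_num) (by positivity)]
  linarith

lemma need_le {U : ℕ} (hU : 0 < U) (l : List (Gf × ℕ)) (need : ℤ) (k c : ℕ) :
    (need : ℝ) / 2 ≤ ((cdK U l need k c : ℤ) : ℝ) / 2 + vK U l k c := by
  have h := vdK_le hU l k c
  have h1 : need - vdK U l k c ≤ cdK U l need k c := le_max_right _ _
  have h2 : (need : ℝ) - vdK U l k c ≤ cdK U l need k c := by exact_mod_cast h1
  linarith

lemma cdK_nonneg (U : ℕ) (l : List (Gf × ℕ)) (need : ℤ) (k c : ℕ) :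
    (0:ℝ) ≤ ((cdK U l need k c : ℤ) : ℝ) / 2 := by
  have h1 : (0:ℤ) ≤ cdK U l need k c := le_max_left _ _
  have h2 : (0:ℝ) ≤ cdK U l need k c := by exact_mod_cast h1
  linarith

lemma cdK_zero {U : ℕ} {l : List (Gf × ℕ)} {need : ℤ} (h : need ≤ 0) (k c : ℕ) :
    cdK U l need k c = 0 := by
  have : (0:ℤ) ≤ vdK U l k c := by
    unfold vdK
    positivity
  unfold cdK
  omega

/-- the sum over the families is the sum over the kinds -/
lemma sum_kinds {U : ℕ} (hU : 0 < U) (c : ℕ) (ψ : ℕ → ℝ) : ∀ l : List (Gf × ℕ),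
    (∀ p ∈ l, p.2 < 6) →
    (l.map fun p => vF (1 / (U:ℝ)) p.1 c * ψ p.2).sum
      = vK U l 0 c * ψ 0 + vK U l 1 c * ψ 1 + vK U l 2 c * ψ 2 + vK U l 3 c * ψ 3
        + vK U l 4 c * ψ 4 + vK U l 5 c * ψ 5 := by
  have hU' : (0:ℝ) < U := by exact_mod_cast hU
  intro l
  induction l with
  | nil =>
    intro _
    simp [vK, nK]
  | cons p l ih =>
    intro hp
    have h := ih (fun q hq => hp q (List.mem_cons_of_mem _ hq))
    have hp0 := hp p List.mem_cons_self
    have e : ∀ k, vK U (p :: l) k c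
        = (if p.2 = k then vF (1 / (U:ℝ)) p.1 c else 0) + vK U l k c := by
      intro k
      unfold vK nK vF
      rw [List.map_cons, List.sum_cons]
      split_ifs
      · push_cast
        field_simp
      · rw [zero_add, zero_add]
    rw [List.map_cons, List.sum_cons, h]
    simp only [e]
    obtain ⟨f, t⟩ := p
    dsimp only at hp0 ⊢
    interval_cases t <;> simp <;> ring

/-- ALL FAMILIES from the list with kinds -/
lemma fam_list {C : Type} {M : ℕ} {σ δ : ℝ} {D K ρ : ℤ} {kL kR : ℝ}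
    {G : GrdD C M σ δ D K ρ kL kR} {Ψ : Gf × ℕ → P4 → P4 → P4 → ℝ}
    {lam : Gf → C × ℤ → C → C → ℤ → ℝ} {e : Gf → ℝ} : ∀ l : List (Gf × ℕ),
    (∀ p ∈ l, G.FamP (Ψ p) (lam p.1) (e p.1)) →
    G.FamP (fun x y z => (l.map fun p => Ψ p x y z).sum)
      (fun ζ a b m => (l.map fun p => lam p.1 ζ a b m).sum) (l.map fun p => e p.1).sum := by
  intro l
  induction l with
  | nil =>
    intro _
    exact GrdD.FamP.zero
  | cons p l ih =>
    intro hp
    have h := ih (fun q hq => hp q (List.mem_cons_of_mem _ hq))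
    have h0 := hp p List.mem_cons_self
    have := h0.add h
    simp only [List.map_cons, List.sum_cons]
    exact this

/-! ### The check of one family -/

/-- numerator of the threshold of a kind, over `40 m` -/
def limN (p : CellPar) (t : ℕ) : ℤ :=
  if t = 0 then 59 * p.m + 160 * p.b
  else if t = 1 then 19 * p.m + 80 * p.b
  else if t = 2 then 40 * p.b - 61 * p.m
  else if t = 3 then 40 * p.b - 60 * p.m
  else if t = 4 then 59 * p.m + 160 * p.a
  else 19 * p.m + 80 * p.a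

/-- number of shifts in the threshold of a kind -/
def shN (t : ℕ) : ℤ := if t = 2 ∨ t = 3 then 0 else 3

/-- place of the zero of the table of a family -/
def offF (P s0 : ℕ) (f : Gf) : ℤ :=
  if f.rf = 0 then offG P s0 (gfG f) else lenG P (gfG f) - offG P s0 (gfG f)

/-- threshold of the kind, cleared -/
def thL (p : CellPar) (f : Gf) (t : ℕ) : ℤ :=
  f.cd * (2 * p.M * limN p t - 40 * p.m * shN t * p.s2)

/-- threshold of the data, cleared -/
def thR (p : CellPar) (P s0 : ℕ) (f : Gf) : ℤ := 80 * p.m * (f.cN - offF P s0 f * f.cd)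

/-- form, direction and threshold of a family -/
def kdChk (p : CellPar) (P s0 : ℕ) (f : Gf) (t : ℕ) : Bool :=
  decide (t < 6) && decide (1 ≤ f.cd)
  && (if t < 4 then decide (f.kd = 0) && decide (thL p f t ≤ thR p P s0 f)
      else decide (f.kd = 1) && decide (thR p P s0 f ≤ thL p f t))
  && (if t = 0 ∨ t = 4 then decide (f.rf = 0 ∧ f.ng = 0 ∧ f.q = 2)
      else if t = 1 ∨ t = 5 then decide (f.rf = 1 ∧ f.ng = 1 ∧ f.q = 4)
      else decide (f.rf = 0 ∧ f.ng = 1 ∧ f.q = 1))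

/-- flags of a pair of classes -/
def fkChk (q : ℤ) (f : Gf) (t : ℕ) (c c' : Cl) (k : ℕ) : Bool :=
  if t = 1 then
    (!(c.sd && c'.sd && decide (-q < 8 * c'.nb))) || Nat.ble 1 (nth 0 f.fk k)
  else if t < 4 then
    (!(!c.sd && !c'.sd && decide (-q < 8 * c'.nb))) || Nat.ble 1 (nth 0 f.fk k)
  else if t = 4 then
    (!c.sd && c'.sd) || Nat.beq (nth 0 f.fk k) 0
  else
    (c.sd && !c'.sd) || Nat.beq (nth 0 f.fk k) 0

/-- weights of the windows -/
def w1D (p : CellPar) (iw : ℕ) (c : Cl) : ℤ := if c.sd = false then 2 * fw1 p.q p.m p.a iw c else 0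

/-- weights of the windows -/
def w2D (p : CellPar) (iw : ℕ) (c : Cl) : ℤ := if c.sd = false then 2 * fw2 p.q p.m p.a iw c else 0

/-- weights of one class: families and the four constant kernels -/
def wtChk (p : CellPar) (U : ℕ) (l : List (Gf × ℕ)) (iw : ℕ) (cl : Cl) (c : ℕ)
    (wa wb we wg : ℤ) : Bool :=
  decide (cdK U l (dF1 p.q p.m p.a p.b cl) 0 c + cdK U l (dMid p.q p.m p.b cl) 2 c
      + cdK U l (dMid p.q p.m p.b cl) 3 c - w1D p iw cl ≤ wa)
  && decide (cdK U l (dF2 p.q p.m p.a p.b cl) 1 c - w2D p iw cl ≤ wb)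
  && decide (dF1 p.q p.m p.a p.b cl + 2 * dMid p.q p.m p.b cl ≤ we)
  && decide (dF2 p.q p.m p.a p.b cl ≤ wg)
  && (cl.sd || (Nat.beq (nK l 0 c) 0 && Nat.beq (nK l 1 c) 0))
  && decide ((nK l 4 c : ℤ) ≤ U * dGA p.q p.m p.a cl)
  && decide ((nK l 5 c : ℤ) ≤ U * dGB p.q p.m p.a cl)

namespace RD

variable (A : RD)

/-- THE CHECK OF THE THREE-BODY PART, `ks` = kinds of the families -/
def netChk (ks : List ℕ) : Bool :=
  Nat.beq ks.length A.fs.length
  && allL (A.fs.zip ks) (fun p => kdChk A.p A.d.P A.s0 p.1 p.2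
    && allN A.cs.length (fun i => allN A.cs.length (fun j =>
      fkChk A.p.q p.1 p.2 (clN A.cs i) (clN A.cs j) (plE A.d.segs i j).k1)))
  && allN A.cs.length (fun c => wtChk A.p A.U (A.fs.zip ks) (nth 0 A.iw c) (clN A.cs c) c
    (nth 0 A.wa c) (nth 0 A.wb c) (nth 0 A.we c) (nth 0 A.wg c))

end RD

/-! ### Soundness -/

lemma out_lt {q D K : ℤ} {c : Cl} {x : P3} (hq : 0 < q) (hD : D = 4 * K + 1) (hK : 1 ≤ K)
    (hx : c.has q D x) (h : 8 * c.nb ≤ -q) : x.2 < -(D / 8) := by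
  have h1 := mul_le_mul_of_nonneg_right h (by omega : (0:ℤ) ≤ D)
  have h2 := Cl.has_hi hx
  have h3 : 0 ≤ q * (-(8 * x.2) - D) := by linarith
  have h4 := (mul_nonneg_iff_of_pos_left hq).1 h3
  omega

/-- the facts of one family -/
structure KdOK (p : CellPar) (P s0 : ℕ) (f : Gf) (t : ℕ) : Prop where
  t6 : t < 6
  cd : 1 ≤ f.cd
  kc : t < 4 → f.kd = 0 ∧ thL p f t ≤ thR p P s0 f
  kg : 4 ≤ t → f.kd = 1 ∧ thR p P s0 f ≤ thL p f t
  qA : (t = 0 ∨ t = 4) → f.rf = 0 ∧ f.ng = 0 ∧ f.q = 2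
  qB : (t = 1 ∨ t = 5) → f.rf = 1 ∧ f.ng = 1 ∧ f.q = 4
  qC : (t = 2 ∨ t = 3) → f.rf = 0 ∧ f.ng = 1 ∧ f.q = 1

lemma kdChk_imp {p : CellPar} {P s0 : ℕ} {f : Gf} {t : ℕ} (h : kdChk p P s0 f t = true) :
    KdOK p P s0 f t := by
  unfold kdChk at h
  simp only [Bool.and_eq_true] at h
  obtain ⟨⟨⟨h1, h2⟩, h3⟩, h4⟩ := h
  refine ⟨of_decide_eq_true h1, of_decide_eq_true h2, fun ht => ?_, fun ht => ?_, fun ht => ?_,
    fun ht => ?_, fun ht => ?_⟩
  · rw [if_pos ht] at h3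
    simp only [Bool.and_eq_true, decide_eq_true_eq] at h3
    exact h3
  · rw [if_neg (by omega)] at h3
    simp only [Bool.and_eq_true, decide_eq_true_eq] at h3
    exact h3
  · rw [if_pos ht] at h4
    exact of_decide_eq_true h4
  · rw [if_neg (by omega), if_pos ht] at h4
    exact of_decide_eq_true h4
  · rw [if_neg (by omega), if_neg (by omega)] at h4
    exact of_decide_eq_true h4

lemma offF_cF (P s0 : ℕ) (f : Gf) : cF P s0 f = (f.cN:ℝ) / f.cd - (offF P s0 f : ℤ) := by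
  unfold cF offF
  split_ifs <;> push_cast <;> rfl

lemma thR_eq {p : CellPar} (hm : 0 < p.m) {P s0 : ℕ} {f : Gf} (hcd : 1 ≤ f.cd) :
    ((thR p P s0 f : ℤ) : ℝ) = (80 * p.m * f.cd) * cF P s0 f := by
  have h1 : (0:ℝ) < f.cd := by exact_mod_cast hcd
  rw [offF_cF]
  unfold thR
  push_cast
  field_simp

lemma thL_eq {p : CellPar} (hm : 0 < p.m) {f : Gf} {t : ℕ} :
    ((thL p f t : ℤ) : ℝ) = (80 * p.m * f.cd)
      * (p.M * ((limN p t : ℝ) / (40 * p.m)) - (shN t : ℝ) * ((p.s2:ℝ) / 2)) := by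
  have h1 : (0:ℝ) < p.m := by exact_mod_cast hm
  unfold thL
  push_cast
  field_simp
  ring

lemma th_cost {p : CellPar} (hm : 0 < p.m) {P s0 : ℕ} {f : Gf} {t : ℕ} (h : KdOK p P s0 f t)
    (ht : t < 4) :
    p.M * ((limN p t : ℝ) / (40 * p.m)) - (shN t : ℝ) * ((p.s2:ℝ) / 2) ≤ cF P s0 f := by
  have h1 : (0:ℝ) < f.cd := by exact_mod_cast h.cd
  have h2 : (0:ℝ) < p.m := by exact_mod_cast hm
  have h3 : ((thL p f t : ℤ) : ℝ) ≤ ((thR p P s0 f : ℤ) : ℝ) := by exact_mod_cast (h.kc ht).2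
  rw [thL_eq hm, thR_eq hm h.cd] at h3
  exact le_of_mul_le_mul_left h3 (by positivity)

lemma th_gain {p : CellPar} (hm : 0 < p.m) {P s0 : ℕ} {f : Gf} {t : ℕ} (h : KdOK p P s0 f t)
    (ht : 4 ≤ t) :
    cF P s0 f ≤ p.M * ((limN p t : ℝ) / (40 * p.m)) - (shN t : ℝ) * ((p.s2:ℝ) / 2) := by
  have h1 : (0:ℝ) < f.cd := by exact_mod_cast h.cd
  have h2 : (0:ℝ) < p.m := by exact_mod_cast hm
  have h3 : ((thR p P s0 f : ℤ) : ℝ) ≤ ((thL p f t : ℤ) : ℝ) := by exact_mod_cast (h.kg ht).2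
  rw [thL_eq hm, thR_eq hm h.cd] at h3
  exact le_of_mul_le_mul_left h3 (by positivity)

lemma sF_A {f : Gf} (h : f.rf = 0 ∧ f.ng = 0 ∧ f.q = 2) : sF f = 1 ∧ pF f = 2 := by
  obtain ⟨h1, h2, h3⟩ := h
  have e : sF f = 1 := by
    unfold sF
    rw [if_pos h1]
  refine ⟨e, ?_⟩
  unfold pF g3p gfG
  rw [e, if_pos h2]
  dsimp only
  omega

lemma sF_B {f : Gf} (h : f.rf = 1 ∧ f.ng = 1 ∧ f.q = 4) : sF f = -1 ∧ pF f = 4 := by
  obtain ⟨h1, h2, h3⟩ := h
  have e : sF f = -1 := by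
    unfold sF
    rw [if_neg (by omega)]
  refine ⟨e, ?_⟩
  unfold pF g3p gfG
  rw [e, if_neg (by dsimp only; omega)]
  dsimp only
  omega

lemma sF_C {f : Gf} (h : f.rf = 0 ∧ f.ng = 1 ∧ f.q = 1) : sF f = 1 ∧ pF f = -1 := by
  obtain ⟨h1, h2, h3⟩ := h
  have e : sF f = 1 := by
    unfold sF
    rw [if_pos h1]
  refine ⟨e, ?_⟩
  unfold pF g3p gfG
  rw [e, if_neg (by dsimp only; omega)]
  dsimp only
  omega

noncomputable section

/-- the functional of a kind -/
def psK (D K ρ V E t0 t1 : ℤ) (t : ℕ) (x y z : P4) : ℝ :=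
  if t = 0 then fPP V y z * bo (2 * lc D x.2 + lab D y z ≤ cA D K ρ t1)
  else if t = 1 then fQQ V y z * bo (cB D K ρ t1 ≤ -4 * lc D x.2 + lab D y z)
  else if t = 2 then fPP V y z * bo (-1 * lc D x.2 + lab D y z ≤ cC D K ρ t1)
  else if t = 3 then fPP V y z * bo (-1 * lc D x.2 + lab D y z ≤ cC D K ρ (t1 + E))
  else if t = 4 then -(fPQ y z * bo (2 * lc D x.2 + lab D y z ≤ cA D K ρ t0))
  else -(fQP y z * bo (cB D K ρ t0 ≤ -4 * lc D x.2 + lab D y z))

/-- error of a family -/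
def eK (A : RD) (D : ℤ) (f : Gf) : ℝ :=
  A.s * (2 ^ 30 * f.kp) * (2 * 2 ^ 30 * (f.q * (12 * A.p.M / D) + 45 * A.p.M / D))

namespace RD

variable {A : RD}

/-- ONE FAMILY -/
theorem fam_one {D K V E t0 t1 : ℤ} (g : A.GOK) (hD : D = 4 * K + 1) (hK : 1 ≤ K)
    (hV : V = D / 8) (hE : 40 * E ≤ D)
    (hcA : CellAt A.p.m A.p.a A.p.b D t0 t1) {cl : P4 → Fin A.cs.length}
    (hcl : ClMap (fun i : Fin A.cs.length => A.cs.get i) A.p.q D K cl)
    {G : GrdD (Fin A.cs.length) A.p.M ((A.p.s2:ℝ) / 2) (12 * A.p.M / D) D K (rhoE D)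
      (cutL A.p.M ((A.p.s2:ℝ) / 2)) (cutR A.p.M ((A.p.s2:ℝ) / 2))}
    (hG : G = mkGrd g.pos.q hD hK g.cs.runF hcl) {f : Gf} {t : ℕ} (F : FamOK A.d.P f)
    (hk : KdOK A.p A.d.P A.s0 f t)
    (hfl : ∀ i < A.cs.length, ∀ j < A.cs.length,
      fkChk A.p.q f t (clN A.cs i) (clN A.cs j) (plE A.d.segs i j).k1 = true) :
    G.FamP (fun x y z => vF A.s f (G.cl x) * psK D K (rhoE D) V E t0 t1 t x y z)
      (fun ζ a b m => lam1 A.d A.s0 A.s f (ix ζ) a b m) (eK A D f) := by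
  have hs := A.s_nonneg
  have hDi : 0 < D := by omega
  have hDp : (0:ℝ) < D := by exact_mod_cast hDi
  have hm := g.pos.m
  have hmp : (0:ℝ) < A.p.m := by exact_mod_cast hm
  have hη : (0:ℝ) ≤ 45 * (A.p.M:ℝ) / D := by positivity
  have hr := rho_le D
  have h39 : D ≤ 40 * rhoE D + 39 := hr.2
  have h40 : 40 * rhoE D ≤ D := hr.1
  have ht1 : A.p.m * t1 ≤ A.p.b * D + 11 * A.p.m := by
    have := hcA.h1
    omega
  have ht0 : A.p.a * D ≤ A.p.m * t0 := hcA.h0.le
  have has : ∀ x, G.ok x → (clN A.cs (G.cl x)).has A.p.q D x.2 := by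
    intro x hx
    subst hG
    rw [clN_get]
    exact hcl.has x hx
  have k12 : 12 * (A.p.M:ℝ) / D ≤ 45 * A.p.M / D := by
    gcongr
    norm_num
  have k23 : 23 * (A.p.M:ℝ) / D ≤ 45 * A.p.M / D := by
    gcongr
    norm_num
  have hlim : ∀ (r : ℝ), 40 * A.p.m * r = (limN A.p t : ℝ) →
      (limN A.p t : ℝ) / (40 * A.p.m) = r := by
    intro r hr
    rw [div_eq_iff (by positivity)]
    linarith
  -- flags
  have fPPle : (t = 0 ∨ t = 2 ∨ t = 3) → ∀ y z, G.ok y → G.ok z →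
      fPP V y z ≤ flF A.d f (G.cl y) (G.cl z) := by
    intro ht y z hy hz
    have h := hfl (G.cl y) (G.cl y).2 (G.cl z) (G.cl z).2
    unfold fkChk at h
    rw [if_neg (by omega), if_pos (by omega)] at h
    unfold fPP flF
    by_cases c : y.2.1 = false ∧ z.2.1 = false ∧ -V ≤ z.2.2
    · rw [bo_true c]
      have sy := Cl.has_sd (has y hy)
      have sz := Cl.has_sd (has z hz)
      have hb : -A.p.q < 8 * (clN A.cs (G.cl z)).nb := by
        by_contra hc
        have := out_lt g.pos.q hD hK (has z hz) (not_lt.1 hc)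
        rw [← hV] at this
        omega
      rw [← sy, ← sz, c.1, c.2.1, decide_eq_true hb] at h
      have h' := Nat.le_of_ble_eq_true (by simpa using h :
        Nat.ble 1 (nth 0 f.fk (plE A.d.segs (G.cl y) (G.cl z)).k1) = true)
      exact_mod_cast h'
    · rw [bo_false c]
      exact Nat.cast_nonneg _
  have fQQle : t = 1 → ∀ y z, G.ok y → G.ok z →
      fQQ V y z ≤ flF A.d f (G.cl y) (G.cl z) := by
    intro ht y z hy hz
    have h := hfl (G.cl y) (G.cl y).2 (G.cl z) (G.cl z).2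
    unfold fkChk at h
    rw [if_pos ht] at h
    unfold fQQ flF
    by_cases c : y.2.1 = true ∧ z.2.1 = true ∧ -V ≤ z.2.2
    · rw [bo_true c]
      have sy := Cl.has_sd (has y hy)
      have sz := Cl.has_sd (has z hz)
      have hb : -A.p.q < 8 * (clN A.cs (G.cl z)).nb := by
        by_contra hc
        have := out_lt g.pos.q hD hK (has z hz) (not_lt.1 hc)
        rw [← hV] at this
        omega
      rw [← sy, ← sz, c.1, c.2.1, decide_eq_true hb] at h
      have h' := Nat.le_of_ble_eq_true (by simpa using h :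
        Nat.ble 1 (nth 0 f.fk (plE A.d.segs (G.cl y) (G.cl z)).k1) = true)
      exact_mod_cast h'
    · rw [bo_false c]
      exact Nat.cast_nonneg _
  have fPQge : t = 4 → ∀ y z, G.ok y → G.ok z →
      flF A.d f (G.cl y) (G.cl z) ≤ fPQ y z := by
    intro ht y z hy hz
    have h := hfl (G.cl y) (G.cl y).2 (G.cl z) (G.cl z).2
    unfold fkChk at h
    rw [if_neg (by omega), if_neg (by omega), if_pos ht, Bool.or_eq_true] at h
    have sy := Cl.has_sd (has y hy)
    have sz := Cl.has_sd (has z hz)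
    rw [← sy, ← sz] at h
    rcases h with h | h
    · have c : y.2.1 = false ∧ z.2.1 = true := by
        simpa using h
      unfold fPQ
      rw [bo_true c]
      exact F.fl_le _ _ _
    · unfold flF
      rw [Nat.eq_of_beq_eq_true h, Nat.cast_zero]
      exact bo_nonneg _
  have fQPge : t = 5 → ∀ y z, G.ok y → G.ok z →
      flF A.d f (G.cl y) (G.cl z) ≤ fQP y z := by
    intro ht y z hy hz
    have h := hfl (G.cl y) (G.cl y).2 (G.cl z) (G.cl z).2
    unfold fkChk at h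
    rw [if_neg (by omega), if_neg (by omega), if_neg (by omega), Bool.or_eq_true] at h
    have sy := Cl.has_sd (has y hy)
    have sz := Cl.has_sd (has z hz)
    rw [← sy, ← sz] at h
    rcases h with h | h
    · have c : y.2.1 = true ∧ z.2.1 = false := by
        simpa using h
      unfold fQP
      rw [bo_true c]
      exact F.fl_le _ _ _
    · unfold flF
      rw [Nat.eq_of_beq_eq_true h, Nat.cast_zero]
      exact bo_nonneg _
  have hv0 : ∀ x, 0 ≤ vF A.s f (G.cl x) := fun x => vF_nonneg hs f _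
  have t6 := hk.t6
  have hc4 : t < 4 → f.kd = 0 := fun h => (hk.kc h).1
  have hg4 : 4 ≤ t → f.kd ≠ 0 := fun h => by
    have := (hk.kg h).1
    omega
  interval_cases t
  · -- own exotic labels
    obtain ⟨es, ep⟩ := sF_A (hk.qA (Or.inl rfl))
    have hlm := hlim (59 / 40 + 4 * ((A.p.b:ℝ) / A.p.m)) (by
      unfold limN
      rw [if_pos rfl]
      push_cast
      field_simp
      ring)
    have hth := th_cost hm hk (by norm_num)
    rw [hlm] at hth
    refine F.famC (hc4 (by norm_num)) (fun c : Fin A.cs.length => (c:ℕ)) A.s0 hs hη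
      (cond := fun x y z => 2 * lc D x.2 + lab D y z ≤ cA D K (rhoE D) t1)
      (fun x y z hx hy hz => ?_) (fun x y z hx hy hz hc => ?_)
    · unfold psK
      rw [if_pos rfl]
      exact mul_le_mul_of_nonneg_left (mul_le_mul_of_nonneg_right
        (fPPle (Or.inl rfl) y z hy hz) (bo_nonneg _)) (hv0 x)
    · rw [es, ep]
      refine condA_cost hD hK h39 hm ht1 ?_ hc
      have e : (shN 0 : ℝ) = 3 := by simp [shN]
      rw [e] at hth
      exact hth
  · -- exotic labels of the other side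
    obtain ⟨es, ep⟩ := sF_B (hk.qB (Or.inl rfl))
    have hlm := hlim (19 / 40 + 2 * ((A.p.b:ℝ) / A.p.m)) (by
      unfold limN
      rw [if_neg (by norm_num), if_pos rfl]
      push_cast
      field_simp
      ring)
    have hth := th_cost hm hk (by norm_num)
    rw [hlm] at hth
    refine F.famC (hc4 (by norm_num)) (fun c : Fin A.cs.length => (c:ℕ)) A.s0 hs hη
      (cond := fun x y z => cB D K (rhoE D) t1 ≤ -4 * lc D x.2 + lab D y z)
      (fun x y z hx hy hz => ?_) (fun x y z hx hy hz hc => ?_)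
    · unfold psK
      rw [if_neg (by norm_num), if_pos rfl]
      exact mul_le_mul_of_nonneg_left (mul_le_mul_of_nonneg_right
        (fQQle rfl y z hy hz) (bo_nonneg _)) (hv0 x)
    · rw [es, ep]
      refine (condB_cost hD hK h39 hm ht1 (c := cF A.d.P A.s0 f) ?_ hc).trans (by linarith)
      have e : (shN 1 : ℝ) = 3 := by simp [shN]
      rw [e] at hth
      exact hth
  · -- midpoints
    obtain ⟨es, ep⟩ := sF_C (hk.qC (Or.inl rfl))
    have hlm := hlim ((A.p.b:ℝ) / A.p.m + 0 - 61 / 40) (by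
      unfold limN
      rw [if_neg (by norm_num), if_neg (by norm_num), if_pos rfl]
      push_cast
      field_simp
      ring)
    have hth := th_cost hm hk (by norm_num)
    rw [hlm] at hth
    refine F.famC (hc4 (by norm_num)) (fun c : Fin A.cs.length => (c:ℕ)) A.s0 hs hη
      (cond := fun x y z => -1 * lc D x.2 + lab D y z ≤ cC D K (rhoE D) t1)
      (fun x y z hx hy hz => ?_) (fun x y z hx hy hz hc => ?_)
    · unfold psK
      rw [if_neg (by norm_num), if_neg (by norm_num), if_pos rfl]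
      exact mul_le_mul_of_nonneg_left (mul_le_mul_of_nonneg_right
        (fPPle (Or.inr (Or.inl rfl)) y z hy hz) (bo_nonneg _)) (hv0 x)
    · rw [es, ep]
      refine (condC_cost hD hK h39 hm ht1 (E := 0) (e := 0) (by simp)
        (c := cF A.d.P A.s0 f) ?_ (by rw [add_zero]; exact hc)).trans (by linarith)
      have e : (shN 2 : ℝ) = 0 := by simp [shN]
      rw [e, zero_mul, sub_zero] at hth
      exact hth
  · -- midpoints with the shift
    obtain ⟨es, ep⟩ := sF_C (hk.qC (Or.inr rfl))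
    have hlm := hlim ((A.p.b:ℝ) / A.p.m + 1 / 40 - 61 / 40) (by
      unfold limN
      rw [if_neg (by norm_num), if_neg (by norm_num), if_neg (by norm_num), if_pos rfl]
      push_cast
      field_simp
      ring)
    have hth := th_cost hm hk (by norm_num)
    rw [hlm] at hth
    refine F.famC (hc4 (by norm_num)) (fun c : Fin A.cs.length => (c:ℕ)) A.s0 hs hη
      (cond := fun x y z => -1 * lc D x.2 + lab D y z ≤ cC D K (rhoE D) (t1 + E))
      (fun x y z hx hy hz => ?_) (fun x y z hx hy hz hc => ?_)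
    · unfold psK
      rw [if_neg (by norm_num), if_neg (by norm_num), if_neg (by norm_num), if_pos rfl]
      exact mul_le_mul_of_nonneg_left (mul_le_mul_of_nonneg_right
        (fPPle (Or.inr (Or.inr rfl)) y z hy hz) (bo_nonneg _)) (hv0 x)
    · rw [es, ep]
      refine (condC_cost hD hK h39 hm ht1 (E := E) (e := 1 / 40) ?_
        (c := cF A.d.P A.s0 f) ?_ hc).trans (by linarith)
      · have : (40:ℝ) * E ≤ D := by exact_mod_cast hE
        linarith
      · have e : (shN 3 : ℝ) = 0 := by simp [shN]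
        rw [e, zero_mul, sub_zero] at hth
        exact hth
  · -- tail gain, right
    obtain ⟨es, ep⟩ := sF_A (hk.qA (Or.inr rfl))
    have hlm := hlim (59 / 40 + 4 * ((A.p.a:ℝ) / A.p.m)) (by
      unfold limN
      rw [if_neg (by norm_num), if_neg (by norm_num), if_neg (by norm_num), if_neg (by norm_num),
        if_pos rfl]
      push_cast
      field_simp
      ring)
    have hth := th_gain hm hk (by norm_num)
    rw [hlm] at hth
    refine F.famG (hg4 (by norm_num)) (fun c : Fin A.cs.length => (c:ℕ)) A.s0 hs hη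
      (cond := fun x y z => 2 * lc D x.2 + lab D y z ≤ cA D K (rhoE D) t0)
      (fun x y z hx hy hz => ?_) (fun x y z hx hy hz hc => ?_)
    · unfold psK
      rw [if_neg (by norm_num), if_neg (by norm_num), if_neg (by norm_num), if_neg (by norm_num),
        if_pos rfl, mul_neg]
      exact neg_le_neg (mul_le_mul_of_nonneg_left (mul_le_mul_of_nonneg_right
        (fPQge rfl y z hy hz) (bo_nonneg _)) (hv0 x))
    · rw [es, ep]
      have k := condA_gain (x := x) (y := y) (z := z) (σ := (A.p.s2:ℝ) / 2) (M := A.p.M)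
        hD hK h40 hm ht0 (c := cF A.d.P A.s0 f) (by
          have e : (shN 4 : ℝ) = 3 := by simp [shN]
          rw [e] at hth
          exact hth) hc
      linarith
  · -- tail gain, left
    obtain ⟨es, ep⟩ := sF_B (hk.qB (Or.inr rfl))
    have hlm := hlim (19 / 40 + 2 * ((A.p.a:ℝ) / A.p.m)) (by
      unfold limN
      rw [if_neg (by norm_num), if_neg (by norm_num), if_neg (by norm_num), if_neg (by norm_num),
        if_neg (by norm_num)]
      push_cast
      field_simp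
      ring)
    have hth := th_gain hm hk (by norm_num)
    rw [hlm] at hth
    refine F.famG (hg4 (by norm_num)) (fun c : Fin A.cs.length => (c:ℕ)) A.s0 hs hη
      (cond := fun x y z => cB D K (rhoE D) t0 ≤ -4 * lc D x.2 + lab D y z)
      (fun x y z hx hy hz => ?_) (fun x y z hx hy hz hc => ?_)
    · unfold psK
      rw [if_neg (by norm_num), if_neg (by norm_num), if_neg (by norm_num), if_neg (by norm_num),
        if_neg (by norm_num), mul_neg]
      exact neg_le_neg (mul_le_mul_of_nonneg_left (mul_le_mul_of_nonneg_right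
        (fQPge rfl y z hy hz) (bo_nonneg _)) (hv0 x))
    · rw [es, ep]
      have k := condB_gain (x := x) (y := y) (z := z) (σ := (A.p.s2:ℝ) / 2) (M := A.p.M)
        hD hK h40 hm ht0 (c := cF A.d.P A.s0 f) (by
          have e : (shN 5 : ℝ) = 3 := by simp [shN]
          rw [e] at hth
          exact hth) hc
      linarith

end RD

/-- the facts of the weights of one class -/
structure WtOK (p : CellPar) (U : ℕ) (l : List (Gf × ℕ)) (iw : ℕ) (cl : Cl) (c : ℕ)
    (wa wb we wg : ℤ) : Prop where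
  a : cdK U l (dF1 p.q p.m p.a p.b cl) 0 c + cdK U l (dMid p.q p.m p.b cl) 2 c
      + cdK U l (dMid p.q p.m p.b cl) 3 c - w1D p iw cl ≤ wa
  b : cdK U l (dF2 p.q p.m p.a p.b cl) 1 c - w2D p iw cl ≤ wb
  e : dF1 p.q p.m p.a p.b cl + 2 * dMid p.q p.m p.b cl ≤ we
  g : dF2 p.q p.m p.a p.b cl ≤ wg
  z : cl.sd = false → nK l 0 c = 0 ∧ nK l 1 c = 0
  vA : (nK l 4 c : ℤ) ≤ U * dGA p.q p.m p.a cl
  vB : (nK l 5 c : ℤ) ≤ U * dGB p.q p.m p.a cl

lemma wtChk_imp {p : CellPar} {U : ℕ} {l : List (Gf × ℕ)} {iw : ℕ} {cl : Cl} {c : ℕ}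
    {wa wb we wg : ℤ} (h : wtChk p U l iw cl c wa wb we wg = true) :
    WtOK p U l iw cl c wa wb we wg := by
  unfold wtChk at h
  simp only [Bool.and_eq_true, decide_eq_true_eq] at h
  obtain ⟨⟨⟨⟨⟨⟨h1, h2⟩, h3⟩, h4⟩, h5⟩, h6⟩, h7⟩ := h
  refine ⟨h1, h2, h3, h4, fun hs => ?_, h6, h7⟩
  rw [hs, Bool.false_or, Bool.and_eq_true] at h5
  exact ⟨Nat.eq_of_beq_eq_true h5.1, Nat.eq_of_beq_eq_true h5.2⟩

lemma vK_le {U : ℕ} (hU : 0 < U) {l : List (Gf × ℕ)} {k c : ℕ} {b : ℤ}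
    (h : (nK l k c : ℤ) ≤ U * b) : vK U l k c ≤ (b:ℝ) / 2 := by
  have hU' : (0:ℝ) < U := by exact_mod_cast hU
  have h' : (nK l k c : ℝ) ≤ U * b := by exact_mod_cast h
  unfold vK
  rw [div_le_div_iff₀ (by positivity) (by norm_num)]
  linarith

/-- error of all families -/
def eN (A : RD) (D : ℤ) : ℝ := (A.fs.map fun f => eK A D f).sum

/-- THE THREE-BODY PART OF AN OUT CELL FROM THE BOOL CHECK -/
theorem net3_out {A : RD} (g : A.GOK) {ks : List ℕ} (hks : A.netChk ks = true)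
    {D K V E lo t0 t1 c1 c2 c3 : ℤ} (hD : D = 4 * K + 1) (hK : 1 ≤ K) (hV : V = D / 8)
    (hE0 : 0 ≤ E) (hE : 40 * E ≤ D) (hE' : D < 40 * (2 * rhoE D - E)) (h01 : t0 ≤ t1)
    (ht0 : t0 ≤ D + 1) (hcA : CellAt A.p.m A.p.a A.p.b D t0 t1)
    (hco : CutOK A.p.m A.p.a D t0 (lo - t0) c1 c2 c3) (hcg : CutG A.p.m A.p.a D c1 c2 c3)
    {cl : P4 → Fin A.cs.length}
    (hcl : ClMap (fun i : Fin A.cs.length => A.cs.get i) A.p.q D K cl)
    (hiw : ∀ x : P4, InR D K x.2 → nth 0 A.iw (cl x) = 1 → lo - t0 ≤ x.2.2)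
    {G : GrdD (Fin A.cs.length) A.p.M ((A.p.s2:ℝ) / 2) (12 * A.p.M / D) D K (rhoE D)
      (cutL A.p.M ((A.p.s2:ℝ) / 2)) (cutR A.p.M ((A.p.s2:ℝ) / 2))}
    (hG : G = mkGrd g.pos.q hD hK g.cs.runF hcl) :
    Net3 G V (n3x K (rhoE D) V E lo t0 t1 c1 c2 c3) (dk3c D (rhoE D) E t0 t1 1 1 0 0)
      (fun c => RD.w4 A.wa c) (fun c => RD.w4 A.wb c) (fun c => RD.w4 A.we c)
      (fun c => RD.w4 A.wg c) A.lamT (eN A D) := by
  have hDi : 0 < D := by omega
  have hm := g.pos.m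
  have hq := g.pos.q
  have hU := g.U
  obtain ⟨fl, fok⟩ := chkFs_imp g.fs
  unfold RD.netChk at hks
  simp only [Bool.and_eq_true] at hks
  obtain ⟨⟨k1, k2⟩, k3⟩ := hks
  have hlen : ks.length = A.fs.length := Nat.eq_of_beq_eq_true k1
  set l := A.fs.zip ks with hl
  have hfam : ∀ p ∈ l, KdOK A.p A.d.P A.s0 p.1 p.2 ∧ (∀ i < A.cs.length, ∀ j < A.cs.length,
      fkChk A.p.q p.1 p.2 (clN A.cs i) (clN A.cs j) (plE A.d.segs i j).k1 = true) := by
    intro p hp
    have h := (allL_iff _ _).1 k2 p hp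
    rw [Bool.and_eq_true] at h
    exact ⟨kdChk_imp h.1, fun i hi j hj => (allN_iff _ _).1 ((allN_iff _ _).1 h.2 i hi) j hj⟩
  have hwt : ∀ c : Fin A.cs.length, WtOK A.p A.U l (nth 0 A.iw c) (clN A.cs c) c
      (nth 0 A.wa c) (nth 0 A.wb c) (nth 0 A.we c) (nth 0 A.wg c) := fun c =>
    wtChk_imp ((allN_iff _ _).1 k3 c c.2)
  have hmem : ∀ p ∈ l, p.1 ∈ A.fs := fun p hp => (List.of_mem_zip hp).1
  have has : ∀ x, G.ok x → (clN A.cs (G.cl x)).has A.p.q D x.2 := by
    intro x hx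
    subst hG
    rw [clN_get]
    exact hcl.has x hx
  have hsd : ∀ x, G.ok x → (clN A.cs (G.cl x)).sd = x.2.1 := fun x hx =>
    (Cl.has_sd (has x hx)).symm
  have hcls : ∀ x, G.ok x → (nth 0 A.iw (G.cl x) = 1 → lo - t0 ≤ x.2.2) := by
    intro x hx h1
    subst hG
    exact hiw x hx h1
  have hE1 : D < 40 * (2 * rhoE D - 0) := by omega
  -- the flags
  have hfl : FlgNetX G E lo t0 t1 c1 c2 c3 (fun c => (clN A.cs c).sd)
      (fun c => ((w1D A.p (nth 0 A.iw c) (clN A.cs c) : ℤ) : ℝ) / 2)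
      (fun c => ((w2D A.p (nth 0 A.iw c) (clN A.cs c) : ℤ) : ℝ) / 2)
      (fun c => ((cdK A.U l (dF1 A.p.q A.p.m A.p.a A.p.b (clN A.cs c)) 0 c : ℤ) : ℝ) / 2)
      (fun c => vK A.U l 0 c)
      (fun c => ((cdK A.U l (dF2 A.p.q A.p.m A.p.a A.p.b (clN A.cs c)) 1 c : ℤ) : ℝ) / 2)
      (fun c => vK A.U l 1 c)
      (fun c => ((cdK A.U l (dMid A.p.q A.p.m A.p.b (clN A.cs c)) 2 c : ℤ) : ℝ) / 2)
      (fun c => vK A.U l 2 c)
      (fun c => ((cdK A.U l (dMid A.p.q A.p.m A.p.b (clN A.cs c)) 3 c : ℤ) : ℝ) / 2)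
      (fun c => vK A.U l 3 c) (fun c => vK A.U l 4 c) (fun c => vK A.U l 5 c) := by
    refine ⟨hsd, fun x hx hs => ?_, fun x hx hs => ?_, fun x hx hs => ?_, fun x hx hs => ?_,
      fun x hx hs => ?_, fun x hx hs => ?_, fun x hx hs => ?_, fun x hx hs => ?_,
      fun x hx hs => ?_, fun x hx hs => ?_, fun x hx hs => ?_, fun x hx hs => ?_, fun c => ?_,
      fun c hc => ?_, fun c hc => ?_⟩
    · unfold w1D
      rw [if_pos ((hsd x hx).trans hs)]
      have := fw1_le hq hDi hcA hco (hcls x hx) (has x hx)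
      push_cast
      linarith
    · unfold w2D
      rw [if_pos ((hsd x hx).trans hs)]
      have := fw2_le hq hDi hcA hco (hcls x hx) (has x hx)
      push_cast
      linarith
    · exact (dF1_ge hq hDi hcA hco (has x hx) hs).trans (need_le hU l _ 0 _)
    · exact (dF2_ge hq hD hK hcA (has x hx) hs).trans (need_le hU l _ 1 _)
    · rw [← hD]
      exact (dMid_P hq hDi hcA hE1 (has x hx) hs).trans (need_le hU l _ 2 _)
    · rw [← hD]
      exact (dMid_P hq hDi hcA hE' (has x hx) hs).trans (need_le hU l _ 3 _)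
    · exact (dMid_Q hq hDi hcA hE1 (has x hx) hs).trans (need_le hU l _ 2 _)
    · exact (dMid_Q hq hDi hcA hE' (has x hx) hs).trans (need_le hU l _ 3 _)
    · exact (vK_le hU (hwt (G.cl x)).vA).trans (dGA_P hq hDi hm hcg (has x hx) hs)
    · exact (vK_le hU (hwt (G.cl x)).vA).trans (dGA_Q hq hDi hm hcg (has x hx) hs)
    · exact (vK_le hU (hwt (G.cl x)).vB).trans (dGB_P hq hDi hm hcg (has x hx) hs)
    · exact (vK_le hU (hwt (G.cl x)).vB).trans (dGB_le _ _ _ _)
    · have w0 : (0:ℝ) ≤ ((w1D A.p (nth 0 A.iw c) (clN A.cs c) : ℤ) : ℝ) / 2 := by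
        have h1 := (fw1_bd A.p.q A.p.m A.p.a (nth 0 A.iw c) (clN A.cs c)).1
        have h2 : 0 ≤ w1D A.p (nth 0 A.iw c) (clN A.cs c) := by
          unfold w1D
          split_ifs <;> omega
        have h3 : (0:ℝ) ≤ ((w1D A.p (nth 0 A.iw c) (clN A.cs c) : ℤ) : ℝ) := by exact_mod_cast h2
        linarith
      have w0' : (0:ℝ) ≤ ((w2D A.p (nth 0 A.iw c) (clN A.cs c) : ℤ) : ℝ) / 2 := by
        have h1 := (fw2_bd A.p.q A.p.m A.p.a (nth 0 A.iw c) (clN A.cs c)).1
        have h2 : 0 ≤ w2D A.p (nth 0 A.iw c) (clN A.cs c) := by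
          unfold w2D
          split_ifs <;> omega
        have h3 : (0:ℝ) ≤ ((w2D A.p (nth 0 A.iw c) (clN A.cs c) : ℤ) : ℝ) := by exact_mod_cast h2
        linarith
      exact ⟨w0, w0', cdK_nonneg _ _ _ _ _, vK_nonneg _ _ _ _, cdK_nonneg _ _ _ _ _,
        vK_nonneg _ _ _ _, cdK_nonneg _ _ _ _ _, vK_nonneg _ _ _ _, cdK_nonneg _ _ _ _ _,
        vK_nonneg _ _ _ _, vK_nonneg _ _ _ _, vK_nonneg _ _ _ _⟩
    · obtain ⟨z0, z1⟩ := (hwt c).z hc
      have e1 : dF1 A.p.q A.p.m A.p.a A.p.b (clN A.cs c) = 0 := by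
        unfold dF1
        rw [if_neg (by rw [hc]; simp)]
      have e2 : dF2 A.p.q A.p.m A.p.a A.p.b (clN A.cs c) = 0 := by
        unfold dF2
        rw [if_neg (by rw [hc]; simp)]
      refine ⟨?_, ?_, ?_, ?_⟩
      · rw [e1, cdK_zero le_rfl]
        simp
      · unfold vK
        rw [z0]
        simp
      · rw [e2, cdK_zero le_rfl]
        simp
      · unfold vK
        rw [z1]
        simp
    · unfold w1D w2D
      rw [if_neg (by rw [hc]; simp), if_neg (by rw [hc]; simp)]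
      simp
  -- the deep charge
  have hR : ∀ x, G.ok x → (1:ℝ) * (aRc D (rhoE D) E t0 t1 x.2 - 0 * bR t0 x.2)
      ≤ ((dF1 A.p.q A.p.m A.p.a A.p.b (clN A.cs (G.cl x))
        + 2 * dMid A.p.q A.p.m A.p.b (clN A.cs (G.cl x)) : ℤ) : ℝ) / 2 := by
    intro x hx
    have half : ∀ e : ℤ, D < 40 * (2 * rhoE D - e) →
        (if x.2.1 = false then 1 / 2 * bo (0 < (t1 + x.2.2 - D + e) / 2
          ∧ rhoE D < (t1 + x.2.2 - D + e) / 2) else 1 / 2 * omc t1 x.2.2
          * bo (0 < (t1 - x.2.2 + e) / 2 ∧ rhoE D < (t1 - x.2.2 + e) / 2))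
        ≤ ((dMid A.p.q A.p.m A.p.b (clN A.cs (G.cl x)) : ℤ) : ℝ) / 2 := by
      intro e he
      split_ifs with hs
      · refine le_trans ?_ (dMid_P hq hDi hcA he (has x hx) hs)
        have := bo_mono (p := 0 < (t1 + x.2.2 - D + e) / 2 ∧ rhoE D < (t1 + x.2.2 - D + e) / 2)
          (q := 0 < (t1 + x.2.2 - D + e) / 2 ∧ rhoE D ≤ (t1 + x.2.2 - D + e) / 2)
          (fun h => ⟨h.1, h.2.le⟩)
        linarith
      · refine le_trans ?_ (dMid_Q hq hDi hcA he (has x hx) (by simpa using hs))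
        have h1 := bo_mono (p := 0 < (t1 - x.2.2 + e) / 2 ∧ rhoE D < (t1 - x.2.2 + e) / 2)
          (q := 0 < (t1 - x.2.2 + e) / 2 ∧ rhoE D ≤ (t1 - x.2.2 + e) / 2)
          (fun h => ⟨h.1, h.2.le⟩)
        have h2 := omc_nonneg t1 x.2.2
        exact mul_le_mul_of_nonneg_left h1 (by linarith)
    have hf : x.2.1 = true → bo ((1 ≤ x.2.2 + 2 * t1 ∧ x.2.2 + 2 * t0 ≤ D)
        ∧ rhoE D < x.2.2 + 2 * t1)
        ≤ ((dF1 A.p.q A.p.m A.p.a A.p.b (clN A.cs (G.cl x)) : ℤ) : ℝ) / 2 := by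
      intro hs
      have h1 := ff1_ge hq hDi hcA (CutOK.usual hcA (le_refl 1)) (has x hx)
      unfold dF1
      rw [if_pos ((hsd x hx).trans hs)]
      have h2 := bo_mono (p := (1 ≤ x.2.2 + 2 * t1 ∧ x.2.2 + 2 * t0 ≤ D)
        ∧ rhoE D < x.2.2 + 2 * t1) (q := 1 ≤ x.2.2 + 2 * t1 ∧ x.2.2 ≤ D - 2 * t0)
        (fun h => ⟨h.1.1, by omega⟩)
      push_cast
      linarith
    have hf0 : (0:ℝ) ≤ ((dF1 A.p.q A.p.m A.p.a A.p.b (clN A.cs (G.cl x)) : ℤ) : ℝ) / 2 := by
      have := (dF1_bd A.p.q A.p.m A.p.a A.p.b (clN A.cs (G.cl x))).1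
      have : (0:ℝ) ≤ ((dF1 A.p.q A.p.m A.p.a A.p.b (clN A.cs (G.cl x)) : ℤ) : ℝ) := by
        exact_mod_cast this
      linarith
    have k := aRc_le (half 0 hE1) (half E hE') hf hf0
    rw [one_mul, zero_mul, sub_zero]
    refine k.trans (le_of_eq ?_)
    push_cast
    ring
  have hL : ∀ x, G.ok x → (1:ℝ) * (aLc D (rhoE D) t0 t1 x.2 - 0 * bL t0 x.2)
      ≤ ((dF2 A.p.q A.p.m A.p.a A.p.b (clN A.cs (G.cl x)) : ℤ) : ℝ) / 2 := by
    intro x hx
    rw [one_mul, zero_mul, sub_zero]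
    unfold aLc
    have hb := (dF2_bd A.p.q A.p.m A.p.a A.p.b (clN A.cs (G.cl x))).1
    have hb' : (0:ℝ) ≤ ((dF2 A.p.q A.p.m A.p.a A.p.b (clN A.cs (G.cl x)) : ℤ) : ℝ) := by
      exact_mod_cast hb
    split_ifs with hs
    · linarith
    · have hs' : x.2.1 = true := by simpa using hs
      have k := dF2_ge (ρ := rhoE D) hq hD hK hcA (has x hx) hs'
      refine le_trans (bo_mono (fun h => ?_)) k
      rw [← hD]
      exact ⟨h.1, h.2.le⟩
  -- assembly
  refine ⟨fun x => ((cdK A.U l (dF1 A.p.q A.p.m A.p.a A.p.b (clN A.cs (G.cl x))) 0 (G.cl x) : ℤ)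
        : ℝ) / 2
      + ((cdK A.U l (dMid A.p.q A.p.m A.p.b (clN A.cs (G.cl x))) 2 (G.cl x) : ℤ) : ℝ) / 2
      + ((cdK A.U l (dMid A.p.q A.p.m A.p.b (clN A.cs (G.cl x))) 3 (G.cl x) : ℤ) : ℝ) / 2
      - ((w1D A.p (nth 0 A.iw (G.cl x)) (clN A.cs (G.cl x)) : ℤ) : ℝ) / 2,
    fun x => ((cdK A.U l (dF2 A.p.q A.p.m A.p.a A.p.b (clN A.cs (G.cl x))) 1 (G.cl x) : ℤ)
        : ℝ) / 2 - ((w2D A.p (nth 0 A.iw (G.cl x)) (clN A.cs (G.cl x)) : ℤ) : ℝ) / 2,
    fun x => ((dF1 A.p.q A.p.m A.p.a A.p.b (clN A.cs (G.cl x))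
        + 2 * dMid A.p.q A.p.m A.p.b (clN A.cs (G.cl x)) : ℤ) : ℝ) / 2,
    fun x => ((dF2 A.p.q A.p.m A.p.a A.p.b (clN A.cs (G.cl x)) : ℤ) : ℝ) / 2,
    fun x y z => (l.map fun p => vF A.s p.1 (G.cl x)
      * psK D K (rhoE D) V E t0 t1 p.2 x y z).sum,
    fun x y z hx hy hz => ?_, fun x _ => ?_, fun x _ => ?_, fun x _ => ?_, fun x _ => ?_, ?_⟩
  · have a1 := n3x_parts (ρ := rhoE D) (V := V) hD (by omega) (by
      have := rho_le D
      omega) h01 ht0 hfl x y z hx hy hz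
    have a2 := dk3c_le (aR := fun c : Fin A.cs.length =>
        ((dF1 A.p.q A.p.m A.p.a A.p.b (clN A.cs c)
          + 2 * dMid A.p.q A.p.m A.p.b (clN A.cs c) : ℤ) : ℝ) / 2)
      (aL := fun c : Fin A.cs.length => ((dF2 A.p.q A.p.m A.p.a A.p.b (clN A.cs c) : ℤ) : ℝ) / 2)
      hR hL x y z hx
    have a3 := sum_kinds hU (G.cl x) (fun t => psK D K (rhoE D) V E t0 t1 t x y z) l
      (fun p hp => (hfam p hp).1.t6)
    have e0 : psK D K (rhoE D) V E t0 t1 0 x y z
        = fPP V y z * bo (2 * lc D x.2 + lab D y z ≤ cA D K (rhoE D) t1) := rfl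
    have e1 : psK D K (rhoE D) V E t0 t1 1 x y z
        = fQQ V y z * bo (cB D K (rhoE D) t1 ≤ -4 * lc D x.2 + lab D y z) := rfl
    have e2 : psK D K (rhoE D) V E t0 t1 2 x y z
        = fPP V y z * bo (-1 * lc D x.2 + lab D y z ≤ cC D K (rhoE D) t1) := rfl
    have e3 : psK D K (rhoE D) V E t0 t1 3 x y z
        = fPP V y z * bo (-1 * lc D x.2 + lab D y z ≤ cC D K (rhoE D) (t1 + E)) := rfl
    have e4 : psK D K (rhoE D) V E t0 t1 4 x y z
        = -(fPQ y z * bo (2 * lc D x.2 + lab D y z ≤ cA D K (rhoE D) t0)) := rfl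
    have e5 : psK D K (rhoE D) V E t0 t1 5 x y z
        = -(fQP y z * bo (cB D K (rhoE D) t0 ≤ -4 * lc D x.2 + lab D y z)) := rfl
    have es : A.s = 1 / (A.U:ℝ) := rfl
    rw [e0, e1, e2, e3, e4, e5] at a3
    beta_reduce
    rw [es, a3]
    linarith
  · have h := (hwt (G.cl x)).a
    have h' : ((cdK A.U l (dF1 A.p.q A.p.m A.p.a A.p.b (clN A.cs (G.cl x))) 0 (G.cl x) : ℤ) : ℝ)
      + (cdK A.U l (dMid A.p.q A.p.m A.p.b (clN A.cs (G.cl x))) 2 (G.cl x) : ℤ)
      + (cdK A.U l (dMid A.p.q A.p.m A.p.b (clN A.cs (G.cl x))) 3 (G.cl x) : ℤ)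
      - (w1D A.p (nth 0 A.iw (G.cl x)) (clN A.cs (G.cl x)) : ℤ)
      ≤ (nth 0 A.wa (G.cl x) : ℤ) := by exact_mod_cast h
    unfold RD.w4
    linarith
  · have h := (hwt (G.cl x)).b
    have h' : ((cdK A.U l (dF2 A.p.q A.p.m A.p.a A.p.b (clN A.cs (G.cl x))) 1 (G.cl x) : ℤ) : ℝ)
      - (w2D A.p (nth 0 A.iw (G.cl x)) (clN A.cs (G.cl x)) : ℤ)
      ≤ (nth 0 A.wb (G.cl x) : ℤ) := by exact_mod_cast h
    unfold RD.w4
    linarith
  · have h := (hwt (G.cl x)).e
    have h' : ((dF1 A.p.q A.p.m A.p.a A.p.b (clN A.cs (G.cl x))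
        + 2 * dMid A.p.q A.p.m A.p.b (clN A.cs (G.cl x)) : ℤ) : ℝ)
      ≤ (nth 0 A.we (G.cl x) : ℤ) := by exact_mod_cast h
    unfold RD.w4
    linarith
  · have h := (hwt (G.cl x)).g
    have h' : ((dF2 A.p.q A.p.m A.p.a A.p.b (clN A.cs (G.cl x)) : ℤ) : ℝ)
      ≤ (nth 0 A.wg (G.cl x) : ℤ) := by exact_mod_cast h
    unfold RD.w4
    linarith
  · have h := fam_list (G := G) (Ψ := fun p x y z => vF A.s p.1 (G.cl x)
        * psK D K (rhoE D) V E t0 t1 p.2 x y z)
      (lam := fun f ζ a b m => lam1 A.d A.s0 A.s f (ix ζ) a b m) (e := fun f => eK A D f) l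
      (fun p hp => RD.fam_one g hD hK hV hE hcA hcl hG (fok _ (hmem p hp)) (hfam p hp).1
        (hfam p hp).2)
    have m1 : ∀ (F : Gf → ℝ), (l.map fun p => F p.1).sum = (A.fs.map F).sum := by
      intro F
      have : (l.map fun p => F p.1) = (l.map Prod.fst).map F := by rw [List.map_map]; rfl
      rw [this, hl, List.map_fst_zip (by omega)]
    have e1 : A.lamT = fun (ζ : Fin A.cs.length × ℤ) (a b : Fin A.cs.length) (m : ℤ) =>
        (l.map fun p => lam1 A.d A.s0 A.s p.1 (ix ζ) a b m).sum := by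
      funext ζ a b m
      rw [m1 (fun f => lam1 A.d A.s0 A.s f (ix ζ) a b m)]
      rfl
    have e2 : eN A D = (l.map fun p => eK A D p.1).sum := (m1 (fun f => eK A D f)).symm
    rw [e1, e2]
    exact h

lemma eK_nonneg (A : RD) {D : ℤ} (hD : 0 < D) (f : Gf) : 0 ≤ eK A D f := by
  have hs := A.s_nonneg
  have : (0:ℝ) < D := by exact_mod_cast hD
  unfold eK
  positivity

lemma eN_nonneg (A : RD) {D : ℤ} (hD : 0 < D) : 0 ≤ eN A D := by
  unfold eN
  refine List.sum_nonneg fun x hx => ?_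
  obtain ⟨f, _, rfl⟩ := List.mem_map.1 hx
  exact eK_nonneg A hD f

/-- constant of the families -/
def cN (A : RD) : ℝ := eN A 1

lemma eN_le (A : RD) {D K : ℤ} (hD : D = 4 * K + 1) (hK : 0 ≤ K) : K * eN A D ≤ cN A := by
  have hDp : (0:ℝ) < D := by exact_mod_cast (by omega : 0 < D)
  have hKD : (K:ℝ) ≤ D := by exact_mod_cast (by omega : K ≤ D)
  have hK0 : (0:ℝ) ≤ K := by exact_mod_cast hK
  have e : ∀ f, eK A D f = eK A 1 f / D := by
    intro f
    unfold eK
    push_cast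
    field_simp
  have e2 : eN A D = eN A 1 / D := by
    unfold eN
    induction A.fs with
    | nil => simp
    | cons f l ih =>
      rw [List.map_cons, List.sum_cons, ih, e f, List.map_cons, List.sum_cons]
      ring
  have h0 : 0 ≤ eN A 1 := eN_nonneg A (by norm_num)
  unfold cN
  rw [e2, mul_div_assoc', div_le_iff₀ hDp]
  nlinarith

end

end MP61673a.RowO
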