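import Pool.Agent.Mu673.DecompE

/-!
Shifted frame (`D = 4K+1`, `T = K-ρ`, `σ = ρ`, cap `T+1`), hybrid: the rest of the identity is at
least the sum of the nets of the strays + deep labels + core gains + waste times price.
-/

namespace MP61673a.Fin

open Finset MP61673a.W MP61673a.LiftW MP61673a.Mids
open MP61673a.Lift hiding PP QQ

noncomputable section

/-- crude price of the label `s` -/
def cpriceE (P : WS) (D K T ρ s : ℤ) : ℝ :=
  kap K T ρ s + (if s < D - K + (T + 1) then nn P (2 * max (s - (D - K)) 0 + 1 + ρ) else 0)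

/-- crude price as a function of the depth -/
def cprE (P : WS) (D K T ρ : ℤ) (j : ℤ) : ℝ := cpriceE P D K T ρ (D - j)

lemma priceE_le_cpriceE {P Q : WS} (hP : Good P) (hQ : Good Q) (D K T ρ s : ℤ) :
    priceE P Q D K T ρ s ≤ cpriceE P D K T ρ s := by
  unfold priceE cpriceE
  have := dd_nonneg hP hQ (2 * K + 1 + ρ + 2 * s)
  linarith

lemma cpriceE_nonneg {P : WS} (hP : Good P) (D K T ρ s : ℤ) : 0 ≤ cpriceE P D K T ρ s := by
  unfold cpriceE
  have h1 := kap_nonneg K T ρ s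
  have h2 := nn_nonneg hP (2 * max (s - (D - K)) 0 + 1 + ρ)
  split_ifs <;> linarith

lemma cprE_mono {P : WS} (hP : Good P) (D K T ρ : ℤ) : Monotone (cprE P D K T ρ) := by
  intro i j hij
  unfold cprE cpriceE kap
  refine add_le_add ?_ ?_
  · refine sum_le_sum fun g _ => ?_
    by_cases c : D - i < 2 * K + 1 + ρ + 2 * g
    · rw [if_pos c, if_pos (by omega)]
    · rw [if_neg c]
      split_ifs <;> norm_num
  · by_cases c : D - i < D - K + (T + 1)
    · rw [if_pos c, if_pos (by omega)]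
      refine nn_anti hP ?_
      have h : max (D - j - (D - K)) 0 ≤ max (D - i - (D - K)) 0 := max_le_max (by omega) le_rfl
      omega
    · rw [if_neg c]
      have := nn_nonneg hP (2 * max (D - j - (D - K)) 0 + 1 + ρ)
      split_ifs <;> first | exact this | exact le_rfl

/-- the crude price vanishes at depth `≤ min (K-T-1) (..)` -/
lemma cprE_zero (P : WS) {D K T ρ j : ℤ} (hD : D = 2 * T + 2 * K + 1 + 2 * ρ)
    (hj : j ≤ K - T - 1) (hj2 : j ≤ ρ) : cprE P D K T ρ j = 0 := by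
  unfold cprE cpriceE
  rw [if_neg (by omega), add_zero]
  unfold kap
  refine sum_eq_zero fun g hg => ?_
  rw [mem_Icc] at hg
  rw [if_neg]
  omega

/-- external labels with the undoubled centre at `-t` of `Q`, for a function `g` of the label -/
def exA (Q : WS) (D V : ℤ) (g : ℤ → ℝ) (t : ℤ) : ℝ :=
  if V < t then ∑ q ∈ Q.S, Q.f q * (if 1 ≤ Q.u q + 2 * t ∧ Q.u q + 2 * t ≤ D then
    g (D - (Q.u q + 2 * t)) else 0) else 0

/-- labels of the other side, outer element `-t` of `Q`, centre in `Q` -/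
def exB (Q : WS) (D : ℤ) (g : ℤ → ℝ) (t : ℤ) : ℝ :=
  ∑ q ∈ Q.S, Q.f q * (if 0 ≤ 2 * D - 2 * Q.u q - t ∧ 2 * D - 2 * Q.u q - t < D then
    g (2 * D - 2 * Q.u q - t) else 0)

lemma sum_exA {Q : WS} {V : ℤ} (hV : 0 ≤ V) (dQ : Dbl Q V) (D : ℤ) (g : ℤ → ℝ) :
    ∑ s ∈ Ico 0 D, qc Q (D - s) * g s = strayC Q (exA Q D V g) := by
  have h2 : ∀ s ∈ Ico 0 D, qc Q (D - s) * g s
      = ∑ q ∈ Q.S, ∑ b ∈ Q.S, (if s = D - (Q.u q - 2 * Q.u b) then
        Q.f q * (Q.f b - Q.f1 b) * g s else 0) := by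
    intro s _
    unfold qc
    rw [sum_mul]
    refine sum_congr rfl fun q _ => ?_
    rw [sum_mul]
    refine sum_congr rfl fun b _ => ?_
    by_cases c : s = D - (Q.u q - 2 * Q.u b)
    · rw [if_pos c, if_pos (by omega)]
    · rw [if_neg c, if_neg (by omega), zero_mul]
  have h4 : ∀ F : ℤ → Q.ι → Q.ι → ℝ, ∑ s ∈ Ico 0 D, ∑ q ∈ Q.S, ∑ b ∈ Q.S, F s q b
      = ∑ b ∈ Q.S, ∑ q ∈ Q.S, ∑ s ∈ Ico 0 D, F s q b := by
    intro F
    rw [sum_comm]
    have h5 : ∀ q ∈ Q.S, ∑ s ∈ Ico 0 D, ∑ b ∈ Q.S, F s q b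
        = ∑ b ∈ Q.S, ∑ s ∈ Ico 0 D, F s q b := fun q _ => sum_comm
    rw [sum_congr rfl h5, sum_comm]
  rw [sum_congr rfl h2, h4]
  unfold strayC
  refine sum_congr rfl fun b hb => ?_
  have h3 : ∀ q ∈ Q.S, ∑ s ∈ Ico 0 D, (if s = D - (Q.u q - 2 * Q.u b) then
        Q.f q * (Q.f b - Q.f1 b) * g s else 0)
      = (if 1 ≤ Q.u q - 2 * Q.u b ∧ Q.u q - 2 * Q.u b ≤ D then
        Q.f q * (Q.f b - Q.f1 b) * g (D - (Q.u q - 2 * Q.u b)) else 0) := by
    intro q _
    rw [sum_ite_eq' (Ico 0 D) (D - (Q.u q - 2 * Q.u b))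
      (fun s => Q.f q * (Q.f b - Q.f1 b) * g s)]
    simp only [mem_Ico]
    by_cases c : 1 ≤ Q.u q - 2 * Q.u b ∧ Q.u q - 2 * Q.u b ≤ D
    · rw [if_pos (by omega), if_pos c]
    · rw [if_neg (by omega), if_neg c]
  rw [sum_congr rfl h3, dQ b hb]
  by_cases c1 : -V ≤ Q.u b
  · have e1 : (if Q.u b < 0 then exA Q D V g (-Q.u b) else 0) = 0 := by
      unfold exA
      rw [if_neg (show ¬ V < -Q.u b by omega)]
      simp
    rw [e1, mul_zero]
    refine sum_eq_zero fun q _ => ?_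
    rw [if_pos c1]
    simp
  · have c2 : Q.u b < 0 := by omega
    unfold exA
    rw [if_pos c2, if_pos (show V < -Q.u b by omega), mul_sum]
    refine sum_congr rfl fun q _ => ?_
    rw [if_neg c1, show Q.u q + 2 * -Q.u b = Q.u q - 2 * Q.u b by ring]
    split_ifs <;> ring

lemma sum_exB {Q : WS} {D : ℤ} (hu : ∀ b ∈ Q.S, Q.f b ≠ 0 → 2 * Q.u b ≤ D) (g : ℤ → ℝ) :
    xx Q D g = strayC Q (exB Q D g) := by
  unfold xx exB strayC
  refine sum_congr rfl fun b hb => ?_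
  by_cases c : Q.u b < 0
  · rw [if_pos c, mul_sum]
    refine sum_congr rfl fun q _ => ?_
    rw [show 2 * D - (2 * Q.u q - Q.u b) = 2 * D - 2 * Q.u q - -Q.u b by ring]
    split_ifs <;> ring
  · rw [if_neg c, mul_zero]
    refine sum_eq_zero fun q hq => ?_
    by_cases h0 : Q.f q = 0
    · rw [h0]
      simp
    · have := hu q hq h0
      rw [if_neg]
      omega

/-- gain of a stray without the midpoints, shifted frame -/
def grossE (P Q : WS) (D K T ρ σ V lo t : ℤ) : ℝ :=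
  gainE P Q D K T ρ σ V lo t - exA Q D V (priceE P Q D K T ρ) t
    - exB Q D (priceE Q P D K T σ) t

/-- cost of the midpoints of a stray: mean of the roundings `0` and `E` -/
def midE (P Q : WS) (ω : ℤ → ℤ → ℝ) (D K T ρ E t : ℤ) : ℝ :=
  1 / 2 * (mid P Q D 0 (cprE P D K T ρ) ω t + mid P Q D E (cprE P D K T ρ) ω t)

/-- NET OF A STRAY at `-t` of `Q`, shifted frame -/
def netE (P Q : WS) (ω : ℤ → ℤ → ℝ) (D K T ρ σ V E lo t : ℤ) : ℝ :=
  grossE P Q D K T ρ σ V lo t - midE P Q ω D K T ρ E t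

lemma mid_nonneg {P Q : WS} (hP : Good P) (hQ : Good Q) {ω : ℤ → ℤ → ℝ}
    (hω : ∀ x y, 0 ≤ ω x y) (D E : ℤ) {c : ℤ → ℝ} (hc : ∀ x, 0 ≤ c x) (t : ℤ) :
    0 ≤ mid P Q D E c ω t := by
  unfold mid
  refine add_nonneg (sum_nonneg fun q hq => ?_) (sum_nonneg fun a ha => ?_)
  · refine mul_nonneg (hQ.f_nonneg q hq) (mul_nonneg ?_ (cp_nonneg hc _))
    split_ifs
    · exact hω _ _
    · norm_num
  · exact mul_nonneg (hP.f_nonneg a ha) (cp_nonneg hc _)

/-- waste times price, shifted frame -/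
def wstE (P Q : WS) (D K T ρ : ℤ) (ξ : ℤ → ℝ) : ℝ :=
  ∑ s ∈ Ico 0 D, exc P Q D ξ s * priceE P Q D K T ρ s

lemma wasteE_eq (P Q : WS) (D K T ρ : ℤ) (ξ : ℤ → ℝ) :
    wasteE P Q D K T ρ = wstE P Q D K T ρ ξ - ∑ s ∈ Ico 0 D, ξ s * priceE P Q D K T ρ s := by
  unfold wasteE wstE exc
  rw [← sum_sub_distrib]
  refine sum_congr rfl fun s _ => ?_
  ring

/-- the gains of the core elements, shifted frame -/
def coreGE (P Q : WS) (D K T ρ : ℤ) : ℝ :=
  corePE P Q K T ρ ρ + coreDE P Q D K T ρ + coreDE Q P D K T ρ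

lemma coreGE_nonneg {P Q : WS} (hP : Good P) (hQ : Good Q) (D K T ρ : ℤ) :
    0 ≤ coreGE P Q D K T ρ :=
  add_nonneg (add_nonneg (corePE_nonneg hP hQ _ _ _ _) (coreDE_nonneg hP hQ _ _ _ _))
    (coreDE_nonneg hQ hP _ _ _ _)

/-- the two midpoint bounds (half shift) for any monotone nonnegative crude prices -/
lemma mids_gen (A : Finset ℤ) (t : ℕ) {ω : ℤ → ℤ → ℝ} (hω : ∀ x y, ω x y + ω y x = 1)
    {D : ℤ} (hD : 0 < D) (z : ℤ) {c : ℤ → ℝ} (hc : Monotone c) (h0 : ∀ x, 0 ≤ c x) :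
    ∑ s ∈ Ico 0 D, ind (fun y => Mid A (y / 4 ^ t)) (3 * D - s) * c (D - s)
      ≤ strayC (QH (liftN t A) D z) (fun τ => 1 / 2 *
          (mid (PH (liftN t A) D z) (QH (liftN t A) D z) D 0 c ω τ
            + mid (PH (liftN t A) D z) (QH (liftN t A) D z) D (4 ^ t - 1) c ω τ))
    ∧ ∑ s ∈ Ico 0 D, ind (fun y => Mid A (y / 4 ^ t)) s * c (D - s)
      ≤ strayC (PH (liftN t A) D z) (fun τ => 1 / 2 *
          (mid (QH (liftN t A) D z) (PH (liftN t A) D z) D 0 c ω τ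
            + mid (QH (liftN t A) D z) (PH (liftN t A) D z) D (4 ^ t - 1) c ω τ)) := by
  have hA := adm_hybrid D z
  have gP : Good (PH (liftN t A) D z) := goodP hA
  have gQ : Good (QH (liftN t A) D z) := goodQ hA
  have m1 := mid_right_PQH A t D c hc h0 (cut D) (fun x => if D - z ≤ x then cut D x else 0)
    (fun x => if x ≤ 2 * D + z then 1 - cut D x else 0)
    (fun x hx => by unfold cut; rw [if_neg]; omega)
  have m2 := mid_left_PQH A t D c hc h0 (cut D) (fun x => if D - z ≤ x then cut D x else 0)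
    (fun x => if x ≤ 2 * D + z then 1 - cut D x else 0)
    (fun x hx => by unfold cut; rw [if_pos]; omega)
  set P := PH (liftN t A) D z with hPdef
  set Q := QH (liftN t A) D z with hQdef
  have avg : ∀ (Y : WS) (F G : ℤ → ℝ), strayC Y (fun τ => 1 / 2 * (F τ + G τ))
      = 1 / 2 * (∑ b ∈ Y.S, Y.f b * (if Y.u b < 0 then F (-Y.u b) else 0)
        + ∑ b ∈ Y.S, Y.f b * (if Y.u b < 0 then G (-Y.u b) else 0)) := by
    intro Y F G
    unfold strayC
    rw [← sum_add_distrib, mul_sum]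
    refine sum_congr rfl fun b _ => ?_
    split_ifs <;> ring
  constructor
  · refine m1.trans ?_
    rw [avg Q]
    have k1 := sum_mid gP gQ (parw_le t) (parw_le t) D 0 h0 hω
    have k2 := sum_mid gP gQ (parw_le t) (parw_le t) D (4 ^ t - 1) h0 hω
    linarith
  · refine m2.trans ?_
    rw [avg P]
    have k1 := sum_mid gQ gP (parw_le t) (parw_le t) D 0 h0 hω
    have k2 := sum_mid gQ gP (parw_le t) (parw_le t) D (4 ^ t - 1) h0 hω
    linarith

/-- sum of the nets of the strays of `Q`, shifted frame -/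
def netSumE (P Q : WS) (ω : ℤ → ℤ → ℝ) (D K ρ z E lo : ℤ) : ℝ :=
  strayC Q (netE P Q ω D K (K - ρ) ρ ρ z E lo)

/-- REST ≥ SUM OF THE NETS + DEEP LABELS + CORE + WASTE, shifted hybrid frame, lifted set. -/
theorem rest_ge_totalE (A : Finset ℤ) (t : ℕ) {ω : ℤ → ℤ → ℝ} (hω : ∀ x y, ω x y + ω y x = 1)
    {D K ρ z : ℤ} (hρ : 1 ≤ ρ) (hρK : ρ ≤ K) (hD : D = 4 * K + 1) (hz : 0 ≤ z) :
    netSumE (PH (liftN t A) D z) (QH (liftN t A) D z) ω D K ρ z (4 ^ t - 1) 0
      + netSumE (QH (liftN t A) D z) (PH (liftN t A) D z) ω D K ρ z (4 ^ t - 1) 1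
      + (deepB (PH (liftN t A) D z) (QH (liftN t A) D z) D K (K - ρ) ρ
        + deepB (QH (liftN t A) D z) (PH (liftN t A) D z) D K (K - ρ) ρ)
      + coreGE (PH (liftN t A) D z) (QH (liftN t A) D z) D K (K - ρ) ρ
      + wstE (PH (liftN t A) D z) (QH (liftN t A) D z) D K (K - ρ) ρ (xiR A t D z)
      + wstE (QH (liftN t A) D z) (PH (liftN t A) D z) D K (K - ρ) ρ (xiL A t D z)
      ≤ restE (PH (liftN t A) D z) (QH (liftN t A) D z) K ρ := by
  have hA := adm_hybrid D z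
  have gP : Good (PH (liftN t A) D z) := goodP hA
  have gQ : Good (QH (liftN t A) D z) := goodQ hA
  have e2 := sum_extraR_g (liftN t A) D (fun x => if D - z ≤ x then cut D x else 0)
    (fun x => if x ≤ 2 * D + z then 1 - cut D x else 0)
    (priceE (PH (liftN t A) D z) (QH (liftN t A) D z) D K (K - ρ) ρ)
  have e3 := sum_extraL_g (liftN t A) D (fun x => if D - z ≤ x then cut D x else 0)
    (fun x => if x ≤ 2 * D + z then 1 - cut D x else 0)
    (priceE (QH (liftN t A) D z) (PH (liftN t A) D z) D K (K - ρ) ρ)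
  have huP : ∀ a ∈ (PH (liftN t A) D z).S, (PH (liftN t A) D z).f a ≠ 0 →
      (PH (liftN t A) D z).u a ≤ 2 * K := fun (a : ℤ) _ h => leP hD a h
  have huQ : ∀ a ∈ (QH (liftN t A) D z).S, (QH (liftN t A) D z).f a ≠ 0 →
      (QH (liftN t A) D z).u a ≤ 2 * K := fun (a : ℤ) _ h => leQ hD a h
  have m1 := (mids_gen A t hω (by omega : 0 < D) z (cprE_mono gP D K (K - ρ) ρ)
    (fun x => cpriceE_nonneg gP _ _ _ _ _)).1
  have m2 := (mids_gen A t hω (by omega : 0 < D) z (cprE_mono gQ D K (K - ρ) ρ)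
    (fun x => cpriceE_nonneg gQ _ _ _ _ _)).2
  have dP := dblP (liftN t A) D z
  have dQ := dblQ (liftN t A) D z
  have xR : ∀ s, xiR A t D z s = extraR (liftN t A) (cut D)
      (fun x => if x ≤ 2 * D + z then 1 - cut D x else 0) D s
      + ind (fun y => Mid A (y / 4 ^ t)) (3 * D - s) := fun _ => rfl
  have xL : ∀ s, xiL A t D z s = extraL (liftN t A) (cut D)
      (fun x => if D - z ≤ x then cut D x else 0) s
      + ind (fun y => Mid A (y / 4 ^ t)) s := fun _ => rfl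
  set P := PH (liftN t A) D z with hPdef
  set Q := QH (liftN t A) D z with hQdef
  have w1 := wasteE_eq P Q D K (K - ρ) ρ (xiR A t D z)
  have w2 := wasteE_eq Q P D K (K - ρ) ρ (xiL A t D z)
  have d1 := decompE gP gQ (D := D) (K := K) (T := K - ρ) (ρ := ρ) (σ := ρ)
    (V := z) (by omega) hz dP dQ
  simp only [xR, xL, add_mul, sum_add_distrib] at w1 w2
  rw [e2] at w1
  rw [e3] at w2
  have x1 := sum_exA hz dQ D (priceE P Q D K (K - ρ) ρ)
  have x1' := sum_exA hz dP D (priceE Q P D K (K - ρ) ρ)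
  have x2 := sum_exB (Q := Q) (D := D) (fun b hb h => by have := huQ b hb h; omega)
    (priceE Q P D K (K - ρ) ρ)
  have x2' := sum_exB (Q := P) (D := D) (fun b hb h => by have := huP b hb h; omega)
    (priceE P Q D K (K - ρ) ρ)
  have y1 : ∑ s ∈ Ico 0 D, ind (fun y => Mid A (y / 4 ^ t)) (3 * D - s)
        * priceE P Q D K (K - ρ) ρ s
      ≤ strayC Q (midE P Q ω D K (K - ρ) ρ (4 ^ t - 1)) := by
    refine le_trans ?_ m1
    refine sum_le_sum fun s _ => ?_
    refine mul_le_mul_of_nonneg_left ?_ (ind_nonneg _ _)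
    have := priceE_le_cpriceE gP gQ D K (K - ρ) ρ s
    unfold cprE
    rwa [show D - (D - s) = s by ring]
  have y2 : ∑ s ∈ Ico 0 D, ind (fun y => Mid A (y / 4 ^ t)) s
        * priceE Q P D K (K - ρ) ρ s
      ≤ strayC P (midE Q P ω D K (K - ρ) ρ (4 ^ t - 1)) := by
    refine le_trans ?_ m2
    refine sum_le_sum fun s _ => ?_
    refine mul_le_mul_of_nonneg_left ?_ (ind_nonneg _ _)
    have := priceE_le_cpriceE gQ gP D K (K - ρ) ρ s
    unfold cprE
    rwa [show D - (D - s) = s by ring]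
  have n1 : netSumE P Q ω D K ρ z (4 ^ t - 1) 0
      = strayC Q (gainE P Q D K (K - ρ) ρ ρ z 0)
        - strayC Q (exA Q D z (priceE P Q D K (K - ρ) ρ))
        - strayC Q (exB Q D (priceE Q P D K (K - ρ) ρ))
        - strayC Q (midE P Q ω D K (K - ρ) ρ (4 ^ t - 1)) := by
    rw [← strayC_sub, ← strayC_sub, ← strayC_sub]
    rfl
  have n2 : netSumE Q P ω D K ρ z (4 ^ t - 1) 1
      = strayC P (gainE Q P D K (K - ρ) ρ ρ z 1)
        - strayC P (exA P D z (priceE Q P D K (K - ρ) ρ))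
        - strayC P (exB P D (priceE P Q D K (K - ρ) ρ))
        - strayC P (midE Q P ω D K (K - ρ) ρ (4 ^ t - 1)) := by
    rw [← strayC_sub, ← strayC_sub, ← strayC_sub]
    rfl
  have g1 : strayC Q (gainE P Q D K (K - ρ) ρ ρ z 0)
      = ∑ b ∈ Q.S, Q.f b * (if Q.u b < 0 then gainE P Q D K (K - ρ) ρ ρ z 0 (-Q.u b) else 0) := rfl
  have g2 : strayC P (gainE Q P D K (K - ρ) ρ ρ z 1)
      = ∑ b ∈ P.S, P.f b * (if P.u b < 0 then gainE Q P D K (K - ρ) ρ ρ z 1 (-P.u b) else 0) := rfl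
  rw [n1, n2, g1, g2]
  unfold restE coreGE
  rw [← hD]
  linarith

end

end MP61673a.Fin
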