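import Pool.Agent.Mu673.NetsE
import Pool.Agent.Mu673.DchE

/-!
STRIP TRICK (helper82). The midpoint part of the exotic labels is an indicator, so the labels of
depth `≤ x0` cost at most their total price; the pairs pay only for the labels of depth `> x0`.
With `x0 = ρ + E/2` all midpoints of two strays of depth `≤ ρ` are free.
-/

namespace MP61673a.Fin

open Finset MP61673a.W MP61673a.LiftW MP61673a.Mids
open MP61673a.Lift hiding PP QQ

noncomputable section

/-- cost function truncated at depth `x0` -/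
def trc (x0 : ℤ) (c : ℤ → ℝ) : ℤ → ℝ := fun x => if x ≤ x0 then 0 else c x

lemma trc_nonneg {x0 : ℤ} {c : ℤ → ℝ} (h0 : ∀ x, 0 ≤ c x) (x : ℤ) : 0 ≤ trc x0 c x := by
  unfold trc
  split_ifs
  · exact le_rfl
  · exact h0 x

lemma trc_le {x0 : ℤ} {c : ℤ → ℝ} (h0 : ∀ x, 0 ≤ c x) (x : ℤ) : trc x0 c x ≤ c x := by
  unfold trc
  split_ifs
  · exact h0 x
  · exact le_rfl

lemma trc_mono {x0 : ℤ} {c : ℤ → ℝ} (hc : Monotone c) (h0 : ∀ x, 0 ≤ c x) :
    Monotone (trc x0 c) := by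
  intro i j hij
  unfold trc
  by_cases c1 : i ≤ x0
  · rw [if_pos c1]
    split_ifs
    · exact le_rfl
    · exact h0 j
  · rw [if_neg c1, if_neg (by omega)]
    exact hc hij

lemma cp_le_cp {c c' : ℤ → ℝ} (h : ∀ x, c x ≤ c' x) (x : ℤ) : cp c x ≤ cp c' x := by
  unfold cp
  split_ifs
  · exact h x
  · exact le_rfl

lemma mid_le_mid {P Q : WS} (hP : Good P) (hQ : Good Q) {ω : ℤ → ℤ → ℝ} (hω : ∀ x y, 0 ≤ ω x y)
    (D E : ℤ) {c c' : ℤ → ℝ} (h : ∀ x, c x ≤ c' x) (t : ℤ) :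
    mid P Q D E c ω t ≤ mid P Q D E c' ω t := by
  unfold mid
  refine add_le_add (sum_le_sum fun q hq => ?_) (sum_le_sum fun a ha => ?_)
  · refine mul_le_mul_of_nonneg_left (mul_le_mul_of_nonneg_left (cp_le_cp h _) ?_)
      (hQ.f_nonneg q hq)
    split_ifs
    · exact hω _ _
    · norm_num
  · exact mul_le_mul_of_nonneg_left (cp_le_cp h _) (hP.f_nonneg a ha)

/-- cost of the midpoints of a stray with label depth `> x0` -/
def midS (P Q : WS) (ω : ℤ → ℤ → ℝ) (D K T ρ E x0 t : ℤ) : ℝ :=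
  1 / 2 * (mid P Q D 0 (trc x0 (cprE P D K T ρ)) ω t
    + mid P Q D E (trc x0 (cprE P D K T ρ)) ω t)

/-- NET with the truncated midpoints -/
def netS (P Q : WS) (ω : ℤ → ℤ → ℝ) (D K T ρ σ V E x0 lo t : ℤ) : ℝ :=
  grossE P Q D K T ρ σ V lo t - midS P Q ω D K T ρ E x0 t

lemma midS_le {P Q : WS} (hP : Good P) (hQ : Good Q) {ω : ℤ → ℤ → ℝ} (hω : ∀ x y, 0 ≤ ω x y)
    (D K T ρ E x0 t : ℤ) : midS P Q ω D K T ρ E x0 t ≤ midE P Q ω D K T ρ E t := by
  unfold midS midE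
  have h := trc_le (x0 := x0) (c := cprE P D K T ρ) (fun x => cpriceE_nonneg hP D K T ρ (D - x))
  have h1 := mid_le_mid hP hQ hω D 0 h t
  have h2 := mid_le_mid hP hQ hω D E h t
  linarith

/-- the rows for `netE` are rows for `netS` -/
theorem netE_le_netS {P Q : WS} (hP : Good P) (hQ : Good Q) {ω : ℤ → ℤ → ℝ}
    (hω : ∀ x y, 0 ≤ ω x y) (D K T ρ σ V E x0 lo t : ℤ) :
    netE P Q ω D K T ρ σ V E lo t ≤ netS P Q ω D K T ρ σ V E x0 lo t := by
  unfold netE netS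
  have := midS_le hP hQ hω D K T ρ E x0 t
  linarith

/-- total price of the labels of depth `1 .. x0` -/
def strip (P : WS) (D K T ρ x0 : ℤ) : ℝ := ∑ j ∈ Icc 1 x0, cprE P D K T ρ j

/-- a sum over labels, weights at most `1`, is at most the strip + the truncated sum -/
lemma strip_split {w c : ℤ → ℝ} {D x0 : ℤ} (hx : x0 ≤ D) (w1 : ∀ s, w s ≤ 1)
    (h0 : ∀ x, 0 ≤ c x) :
    ∑ s ∈ Ico 0 D, w s * c (D - s)
      ≤ ∑ j ∈ Icc 1 x0, c j + ∑ s ∈ Ico 0 D, w s * trc x0 c (D - s) := by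
  have e1 : ∑ j ∈ Icc 1 x0, c j = ∑ s ∈ Ico 0 D, (if D - s ≤ x0 then c (D - s) else 0) := by
    rw [← sum_filter]
    refine sum_nbij' (fun j => D - j) (fun s => D - s) ?_ ?_ ?_ ?_ ?_
    · intro j hj
      rw [mem_Icc] at hj
      rw [mem_filter, mem_Ico]
      omega
    · intro s hs
      rw [mem_filter, mem_Ico] at hs
      rw [mem_Icc]
      omega
    · intro j _
      ring
    · intro s _
      ring
    · intro j _
      rw [show D - (D - j) = j by ring]
  rw [e1, ← sum_add_distrib]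
  refine sum_le_sum fun s _ => ?_
  unfold trc
  by_cases c1 : D - s ≤ x0
  · rw [if_pos c1, if_pos c1, mul_zero, add_zero]
    have := mul_le_mul_of_nonneg_right (w1 s) (h0 (D - s))
    linarith
  · rw [if_neg c1, if_neg c1, zero_add]

/-- the midpoints of a stray of depth `≤ ρ` are free if `x0 ≥ ρ + E/2` -/
lemma midS_near {P Q : WS} {D K ρ E x0 τ : ℤ} (hD : D = 4 * K + 1)
    (uP : ∀ a ∈ P.S, P.f a ≠ 0 → P.u a ≤ 2 * K) (hτρ : 2 * τ + E ≤ 2 * x0 + 1)
    (hE : 0 ≤ E) (hK : 0 ≤ K) (hτ : 0 ≤ τ) (hx : τ ≤ 2 * K) :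
    midS P Q deeper D K (K - ρ) ρ E x0 τ = 0 := by
  have key : ∀ E' : ℤ, 0 ≤ E' → E' ≤ E →
      mid P Q D E' (trc x0 (cprE P D K (K - ρ) ρ)) deeper τ = 0 := by
    intro E' h0 h1
    have hz : ∀ j : ℤ, j ≤ x0 → cp (trc x0 (cprE P D K (K - ρ) ρ)) j = 0 := by
      intro j hj
      unfold cp trc
      rw [if_pos hj, ite_self]
    unfold mid
    rw [sum_eq_zero, sum_eq_zero, add_zero]
    · intro a ha
      by_cases h0 : P.f a = 0
      · rw [h0, zero_mul]
      · have := uP a ha h0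
        rw [hz _ (by omega), mul_zero]
    · intro q hq
      by_cases c : Q.u q < 0
      · rw [if_pos c]
        by_cases c2 : τ < -Q.u q
        · unfold deeper
          rw [if_neg (by omega), if_pos c2, zero_mul, mul_zero]
        · rw [hz _ (by omega), mul_zero, mul_zero]
      · rw [hz _ (by omega), mul_zero, mul_zero]
  unfold midS
  rw [key 0 le_rfl hE, key E hE le_rfl]
  ring

lemma ind_le_one (X : ℤ → Prop) (s : ℤ) : ind X s ≤ 1 := by
  unfold ind
  split_ifs <;> norm_num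

/-- sum of the truncated nets -/
def netSumS (P Q : WS) (ω : ℤ → ℤ → ℝ) (D K ρ z E x0 lo : ℤ) : ℝ :=
  strayC Q (netS P Q ω D K (K - ρ) ρ ρ z E x0 lo)

/-- REST ≥ SUM OF THE TRUNCATED NETS + DEEP LABELS + CORE + WASTE - STRIPS -/
theorem rest_ge_totalS (A : Finset ℤ) (t : ℕ) {ω : ℤ → ℤ → ℝ} (hω : ∀ x y, ω x y + ω y x = 1)
    {D K ρ z x0 : ℤ} (hρ : 1 ≤ ρ) (hρK : ρ ≤ K) (hD : D = 4 * K + 1) (hz : 0 ≤ z) (hx : x0 ≤ D) :
    netSumS (PH (liftN t A) D z) (QH (liftN t A) D z) ω D K ρ z (4 ^ t - 1) x0 0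
      + netSumS (QH (liftN t A) D z) (PH (liftN t A) D z) ω D K ρ z (4 ^ t - 1) x0 1
      + (deepB (PH (liftN t A) D z) (QH (liftN t A) D z) D K (K - ρ) ρ
        + deepB (QH (liftN t A) D z) (PH (liftN t A) D z) D K (K - ρ) ρ)
      + coreGE (PH (liftN t A) D z) (QH (liftN t A) D z) D K (K - ρ) ρ
      + wstE (PH (liftN t A) D z) (QH (liftN t A) D z) D K (K - ρ) ρ (xiR A t D z)
      + wstE (QH (liftN t A) D z) (PH (liftN t A) D z) D K (K - ρ) ρ (xiL A t D z)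
      - (strip (PH (liftN t A) D z) D K (K - ρ) ρ x0 + strip (QH (liftN t A) D z) D K (K - ρ) ρ x0)
      ≤ restE (PH (liftN t A) D z) (QH (liftN t A) D z) K ρ := by
  have hA := adm_hybrid D z
  have gP : Good (PH (liftN t A) D z) := goodP hA
  have gQ : Good (QH (liftN t A) D z) := goodQ hA
  have e2 := sum_extraR_g (liftN t A) D (fun x => if D - z ≤ x then cut D x else 0)
    (fun x => if x ≤ 2 * D + z then 1 - cut D x else 0)
    (priceE (PH (liftN t A) D z) (QH (liftN t A) D z) D K (K - ρ) ρ)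
  have e3 := sum_extraL_g (liftN t A) D (fun x => if D - z ≤ x then cut D x else 0)
    (fun x => if x ≤ 2 * D + z then 1 - cut D x else 0)
    (priceE (QH (liftN t A) D z) (PH (liftN t A) D z) D K (K - ρ) ρ)
  have huP : ∀ a ∈ (PH (liftN t A) D z).S, (PH (liftN t A) D z).f a ≠ 0 →
      (PH (liftN t A) D z).u a ≤ 2 * K := fun (a : ℤ) _ h => leP hD a h
  have huQ : ∀ a ∈ (QH (liftN t A) D z).S, (QH (liftN t A) D z).f a ≠ 0 →
      (QH (liftN t A) D z).u a ≤ 2 * K := fun (a : ℤ) _ h => leQ hD a h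
  have m1 := (mids_gen A t hω (by omega : 0 < D) z
    (trc_mono (x0 := x0) (cprE_mono gP D K (K - ρ) ρ) (fun x => cpriceE_nonneg gP _ _ _ _ _))
    (trc_nonneg (fun x => cpriceE_nonneg gP _ _ _ _ _))).1
  have m2 := (mids_gen A t hω (by omega : 0 < D) z
    (trc_mono (x0 := x0) (cprE_mono gQ D K (K - ρ) ρ) (fun x => cpriceE_nonneg gQ _ _ _ _ _))
    (trc_nonneg (fun x => cpriceE_nonneg gQ _ _ _ _ _))).2
  have dP := dblP (liftN t A) D z
  have dQ := dblQ (liftN t A) D z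
  have xR : ∀ s, xiR A t D z s = extraR (liftN t A) (cut D)
      (fun x => if x ≤ 2 * D + z then 1 - cut D x else 0) D s
      + ind (fun y => Mid A (y / 4 ^ t)) (3 * D - s) := fun _ => rfl
  have xL : ∀ s, xiL A t D z s = extraL (liftN t A) (cut D)
      (fun x => if D - z ≤ x then cut D x else 0) s
      + ind (fun y => Mid A (y / 4 ^ t)) s := fun _ => rfl
  set P := PH (liftN t A) D z with hPdef
  set Q := QH (liftN t A) D z with hQdef
  have w1 := wasteE_eq P Q D K (K - ρ) ρ (xiR A t D z)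
  have w2 := wasteE_eq Q P D K (K - ρ) ρ (xiL A t D z)
  have d1 := decompE gP gQ (D := D) (K := K) (T := K - ρ) (ρ := ρ) (σ := ρ)
    (V := z) (by omega) hz dP dQ
  simp only [xR, xL, add_mul, sum_add_distrib] at w1 w2
  rw [e2] at w1
  rw [e3] at w2
  have x1 := sum_exA hz dQ D (priceE P Q D K (K - ρ) ρ)
  have x1' := sum_exA hz dP D (priceE Q P D K (K - ρ) ρ)
  have x2 := sum_exB (Q := Q) (D := D) (fun b hb h => by have := huQ b hb h; omega)
    (priceE Q P D K (K - ρ) ρ)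
  have x2' := sum_exB (Q := P) (D := D) (fun b hb h => by have := huP b hb h; omega)
    (priceE P Q D K (K - ρ) ρ)
  have y1 : ∑ s ∈ Ico 0 D, ind (fun y => Mid A (y / 4 ^ t)) (3 * D - s)
        * priceE P Q D K (K - ρ) ρ s
      ≤ strayC Q (midS P Q ω D K (K - ρ) ρ (4 ^ t - 1) x0) + strip P D K (K - ρ) ρ x0 := by
    have k1 : ∑ s ∈ Ico 0 D, ind (fun y => Mid A (y / 4 ^ t)) (3 * D - s)
          * priceE P Q D K (K - ρ) ρ s
        ≤ ∑ s ∈ Ico 0 D, ind (fun y => Mid A (y / 4 ^ t)) (3 * D - s)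
          * cprE P D K (K - ρ) ρ (D - s) := by
      refine sum_le_sum fun s _ => ?_
      refine mul_le_mul_of_nonneg_left ?_ (ind_nonneg _ _)
      have := priceE_le_cpriceE gP gQ D K (K - ρ) ρ s
      unfold cprE
      rwa [show D - (D - s) = s by ring]
    have k2 := strip_split (w := fun s => ind (fun y => Mid A (y / 4 ^ t)) (3 * D - s))
      (c := cprE P D K (K - ρ) ρ) hx (fun s => ind_le_one _ _)
      (fun x => cpriceE_nonneg gP _ _ _ _ _)
    have k3 : strayC Q (midS P Q ω D K (K - ρ) ρ (4 ^ t - 1) x0)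
      = strayC Q (fun τ => 1 / 2 *
          (mid P Q D 0 (trc x0 (cprE P D K (K - ρ) ρ)) ω τ
            + mid P Q D (4 ^ t - 1) (trc x0 (cprE P D K (K - ρ) ρ)) ω τ)) := rfl
    unfold strip
    rw [k3]
    linarith
  have y2 : ∑ s ∈ Ico 0 D, ind (fun y => Mid A (y / 4 ^ t)) s
        * priceE Q P D K (K - ρ) ρ s
      ≤ strayC P (midS Q P ω D K (K - ρ) ρ (4 ^ t - 1) x0) + strip Q D K (K - ρ) ρ x0 := by
    have k1 : ∑ s ∈ Ico 0 D, ind (fun y => Mid A (y / 4 ^ t)) s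
          * priceE Q P D K (K - ρ) ρ s
        ≤ ∑ s ∈ Ico 0 D, ind (fun y => Mid A (y / 4 ^ t)) s
          * cprE Q D K (K - ρ) ρ (D - s) := by
      refine sum_le_sum fun s _ => ?_
      refine mul_le_mul_of_nonneg_left ?_ (ind_nonneg _ _)
      have := priceE_le_cpriceE gQ gP D K (K - ρ) ρ s
      unfold cprE
      rwa [show D - (D - s) = s by ring]
    have k2 := strip_split (w := fun s => ind (fun y => Mid A (y / 4 ^ t)) s)
      (c := cprE Q D K (K - ρ) ρ) hx (fun s => ind_le_one _ _)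
      (fun x => cpriceE_nonneg gQ _ _ _ _ _)
    have k3 : strayC P (midS Q P ω D K (K - ρ) ρ (4 ^ t - 1) x0)
      = strayC P (fun τ => 1 / 2 *
          (mid Q P D 0 (trc x0 (cprE Q D K (K - ρ) ρ)) ω τ
            + mid Q P D (4 ^ t - 1) (trc x0 (cprE Q D K (K - ρ) ρ)) ω τ)) := rfl
    unfold strip
    rw [k3]
    linarith
  have n1 : netSumS P Q ω D K ρ z (4 ^ t - 1) x0 0
      = strayC Q (gainE P Q D K (K - ρ) ρ ρ z 0)
        - strayC Q (exA Q D z (priceE P Q D K (K - ρ) ρ))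
        - strayC Q (exB Q D (priceE Q P D K (K - ρ) ρ))
        - strayC Q (midS P Q ω D K (K - ρ) ρ (4 ^ t - 1) x0) := by
    rw [← strayC_sub, ← strayC_sub, ← strayC_sub]
    rfl
  have n2 : netSumS Q P ω D K ρ z (4 ^ t - 1) x0 1
      = strayC P (gainE Q P D K (K - ρ) ρ ρ z 1)
        - strayC P (exA P D z (priceE Q P D K (K - ρ) ρ))
        - strayC P (exB P D (priceE P Q D K (K - ρ) ρ))
        - strayC P (midS Q P ω D K (K - ρ) ρ (4 ^ t - 1) x0) := by
    rw [← strayC_sub, ← strayC_sub, ← strayC_sub]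
    rfl
  have g1 : strayC Q (gainE P Q D K (K - ρ) ρ ρ z 0)
      = ∑ b ∈ Q.S, Q.f b * (if Q.u b < 0 then gainE P Q D K (K - ρ) ρ ρ z 0 (-Q.u b) else 0) := rfl
  have g2 : strayC P (gainE Q P D K (K - ρ) ρ ρ z 1)
      = ∑ b ∈ P.S, P.f b * (if P.u b < 0 then gainE Q P D K (K - ρ) ρ ρ z 1 (-P.u b) else 0) := rfl
  rw [n1, n2, g1, g2]
  unfold restE coreGE
  rw [← hD]
  linarith

end

end MP61673a.Fin
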