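import Pool.Agent.Mu673.Glue
import Pool.Agent.Mu673.BaryX
import Pool.Agent.Mu673.Cell3In

/-!
ONE-BODY PART OF A ROW CELL IN NODE UNITS. `D`-units: depth `v = u / D`, node coordinate
`X = M v - σ`. A class of points has an interval `[a, b]` in `D`-units; the windows are constant on
the classes (flags), the prices `kvr` are majorised by node tables.
-/

set_option autoImplicit false

namespace MP61673a.Fin

open Finset MP61673a.W MP61673a.LiftW MP61673a.Mids MP61673a.Sos MP61673a.Kink MP61673a.Bary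
open MP61673a.Lift hiding PP QQ

noncomputable section

/-! ### The number part of the price -/

/-- number part of the price, in units of `D` -/
def kapR (ε T y : ℝ) : ℝ := max 0 (min T ((y - ε) / 2))

lemma kapR_nonneg (ε T y : ℝ) : 0 ≤ kapR ε T y := le_max_left _ _

lemma kapR_mono {ε T y y' : ℝ} (h : y ≤ y') : kapR ε T y ≤ kapR ε T y' :=
  max_le_max le_rfl (min_le_min le_rfl (by linarith))

lemma kapR_le {ε T : ℝ} (hT : 0 ≤ T) (y : ℝ) : kapR ε T y ≤ T := max_le hT (min_le_left _ _)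

lemma kapR_le_line {ε T y L : ℝ} (h0 : 0 ≤ L) (h1 : (y - ε) / 2 ≤ L) : kapR ε T y ≤ L :=
  max_le h0 ((min_le_right _ _).trans h1)

lemma line_le_kapR {ε T y : ℝ} (hy : y ≤ 2 * T + ε) : (y - ε) / 2 ≤ kapR ε T y := by
  refine le_trans ?_ (le_max_right _ _)
  exact le_min (by linarith) le_rfl

lemma kapR_top {ε T y : ℝ} (hy : 2 * T + ε ≤ y) : T ≤ kapR ε T y := by
  refine le_trans ?_ (le_max_right _ _)
  exact le_min le_rfl (by linarith)

/-- the chord over a cell is above the price -/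
def CapOK (ε T y0 y1 g0 g1 : ℝ) : Prop :=
  (2 * T + ε ≤ y0 ∧ 2 * T + ε ≤ y1) ∨ (y0 ≤ 2 * T + ε ∧ y1 ≤ 2 * T + ε) ∨
    (y0 < 2 * T + ε ∧ 2 * T + ε < y1 ∧
      T * (y1 - y0) ≤ g0 * (y1 - (2 * T + ε)) + g1 * (2 * T + ε - y0)) ∨
    (y1 < 2 * T + ε ∧ 2 * T + ε < y0 ∧
      T * (y0 - y1) ≤ g0 * (2 * T + ε - y1) + g1 * (y0 - (2 * T + ε)))

lemma cap_up {ε T y0 y1 g0 g1 s : ℝ} (hT : 0 ≤ T) (hs0 : 0 ≤ s) (hs1 : s ≤ 1)
    (h0 : kapR ε T y0 ≤ g0) (h1 : kapR ε T y1 ≤ g1) (a1 : y0 < 2 * T + ε) (a2 : 2 * T + ε < y1)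
    (a3 : T * (y1 - y0) ≤ g0 * (y1 - (2 * T + ε)) + g1 * (2 * T + ε - y0)) :
    kapR ε T ((1 - s) * y0 + s * y1) ≤ (1 - s) * g0 + s * g1 := by
  have g0' := (kapR_nonneg ε T y0).trans h0
  have g1' := (kapR_nonneg ε T y1).trans h1
  have L0 : 0 ≤ (1 - s) * g0 + s * g1 :=
    add_nonneg (mul_nonneg (by linarith) g0') (mul_nonneg hs0 g1')
  have q0 : (y0 - ε) / 2 ≤ g0 := (line_le_kapR a1.le).trans h0
  have t1 : T ≤ g1 := (kapR_top a2.le).trans h1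
  have hd : 0 < y1 - y0 := by linarith
  rcases le_total ((1 - s) * y0 + s * y1) (2 * T + ε) with c | c
  · refine kapR_le_line L0 ?_
    -- between the node `y0` and the cap
    have key : 0 ≤ ((1 - s) * g0 + s * g1 - ((1 - s) * y0 + s * y1 - ε) / 2)
        * (2 * T + ε - y0) := by
      have e : ((1 - s) * g0 + s * g1 - ((1 - s) * y0 + s * y1 - ε) / 2) * (2 * T + ε - y0)
          = (2 * T + ε - ((1 - s) * y0 + s * y1)) * (g0 - (y0 - ε) / 2)
            + s * (g0 * (y1 - (2 * T + ε)) + g1 * (2 * T + ε - y0) - T * (y1 - y0)) := by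
        ring
      rw [e]
      exact add_nonneg (mul_nonneg (by linarith) (by linarith))
        (mul_nonneg hs0 (by linarith))
    have := nonneg_of_mul_nonneg_left key (by linarith)
    linarith
  · refine (kapR_le hT _).trans ?_
    have key : 0 ≤ ((1 - s) * g0 + s * g1 - T) * (y1 - (2 * T + ε)) := by
      have e : ((1 - s) * g0 + s * g1 - T) * (y1 - (2 * T + ε))
          = (1 - s) * (g0 * (y1 - (2 * T + ε)) + g1 * (2 * T + ε - y0) - T * (y1 - y0))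
            + (((1 - s) * y0 + s * y1) - (2 * T + ε)) * (g1 - T) := by
        ring
      rw [e]
      exact add_nonneg (mul_nonneg (by linarith) (by linarith))
        (mul_nonneg (by linarith) (by linarith))
    have := nonneg_of_mul_nonneg_left key (by linarith)
    linarith

lemma kapR_chord {ε T y0 y1 g0 g1 s : ℝ} (hT : 0 ≤ T) (hs0 : 0 ≤ s) (hs1 : s ≤ 1)
    (h0 : kapR ε T y0 ≤ g0) (h1 : kapR ε T y1 ≤ g1) (hc : CapOK ε T y0 y1 g0 g1) :
    kapR ε T ((1 - s) * y0 + s * y1) ≤ (1 - s) * g0 + s * g1 := by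
  have g0' := (kapR_nonneg ε T y0).trans h0
  have g1' := (kapR_nonneg ε T y1).trans h1
  have L0 : 0 ≤ (1 - s) * g0 + s * g1 :=
    add_nonneg (mul_nonneg (by linarith) g0') (mul_nonneg hs0 g1')
  rcases hc with ⟨a, b⟩ | ⟨a, b⟩ | ⟨a1, a2, a3⟩ | ⟨a1, a2, a3⟩
  · refine (kapR_le hT _).trans ?_
    have t0 := (kapR_top a).trans h0
    have t1 := (kapR_top b).trans h1
    have e1 := mul_le_mul_of_nonneg_left t0 (by linarith : 0 ≤ 1 - s)
    have e2 := mul_le_mul_of_nonneg_left t1 hs0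
    linarith
  · refine kapR_le_line L0 ?_
    have q0 := (line_le_kapR a).trans h0
    have q1 := (line_le_kapR b).trans h1
    have e1 := mul_le_mul_of_nonneg_left q0 (by linarith : 0 ≤ 1 - s)
    have e2 := mul_le_mul_of_nonneg_left q1 hs0
    linarith
  · exact cap_up hT hs0 hs1 h0 h1 a1 a2 a3
  · have h := cap_up (s := 1 - s) hT (by linarith) (by linarith) h1 h0 a1 a2 (by linarith)
    have e1 : (1 - (1 - s)) * y1 + (1 - s) * y0 = (1 - s) * y0 + s * y1 := by ring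
    have e2 : (1 - (1 - s)) * g1 + (1 - s) * g0 = (1 - s) * g0 + s * g1 := by ring
    rw [e1, e2] at h
    exact h

/-- node table of the price along the class: `g` majorises `κ (α X + β)` -/
structure KapOK (ε T α β : ℝ) (lo hi : ℤ) (g : ℤ → ℝ) : Prop where
  node : ∀ i : ℤ, lo ≤ i → i ≤ hi → kapR ε T (α * i + β) ≤ g i
  cell : ∀ i : ℤ, lo ≤ i → i < hi →
    CapOK ε T (α * i + β) (α * ((i + 1 : ℤ) : ℝ) + β) (g i) (g (i + 1))

theorem KapOK.le {ε T α β : ℝ} {lo hi : ℤ} {g : ℤ → ℝ} (h : KapOK ε T α β lo hi g)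
    (hT : 0 ≤ T) {X : ℝ} (h0 : (lo:ℝ) ≤ X) (h1 : X ≤ hi) : kapR ε T (α * X + β) ≤ pl g X := by
  rcases eq_or_lt_of_le h1 with he | hlt
  · rw [he, pl_int]
    exact h.node hi (by exact_mod_cast (h0.trans h1)) le_rfl
  · obtain ⟨k, hk⟩ : ∃ k : ℤ, k = ⌊X⌋ := ⟨_, rfl⟩
    have k0 : (k:ℝ) ≤ X := by
      rw [hk]
      exact Int.floor_le X
    have k1 : X < k + 1 := by
      rw [hk]
      exact Int.lt_floor_add_one X
    have kl : lo ≤ k := by
      rw [hk]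
      exact Int.le_floor.2 h0
    have kh : k < hi := by
      have : (k:ℝ) < hi := k0.trans_lt hlt
      exact_mod_cast this
    rw [pl_of_mem g k0 k1.le]
    have := kapR_chord (s := X - k) hT (by linarith) (by linarith)
      (h.node k kl kh.le) (h.node (k + 1) (by omega) (by omega)) (h.cell k kl kh)
    have e1 : (1 - (X - k)) * (α * k + β) + (X - k) * (α * ((k + 1 : ℤ) : ℝ) + β)
        = α * X + β := by
      push_cast
      ring
    rw [e1] at this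
    refine this.trans (le_of_eq ?_)
    ring

/-- constants of the frame in units of `D` -/
structure Sc (D K ρ : ℤ) (ε T : ℝ) : Prop where
  hD : D = 4 * K + 1
  hK : 1 ≤ K
  r0 : ε * D ≤ ρ + 1
  r1 : (ρ:ℝ) ≤ ε * D
  hT : T = 1 / 4 - ε
  hT0 : 0 ≤ T
  hε : 0 ≤ ε

lemma Sc.hDr {D K ρ : ℤ} {ε T : ℝ} (h : Sc D K ρ ε T) : (D:ℝ) = 4 * K + 1 := by
  exact_mod_cast h.hD

lemma Sc.Dpos {D K ρ : ℤ} {ε T : ℝ} (h : Sc D K ρ ε T) : (0:ℝ) < D := by
  have h1 : (1:ℝ) ≤ K := by exact_mod_cast h.hK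
  rw [h.hDr]
  linarith

lemma sc_E {D K : ℤ} (hD : D = 4 * K + 1) (hK : 1 ≤ K) : Sc D K (rhoE D) (1 / 40) (9 / 40) where
  hD := hD
  hK := hK
  r0 := by
    have h : D ≤ 40 * rhoE D + 39 := by
      unfold rhoE
      omega
    have h' : (D:ℝ) ≤ 40 * (rhoE D : ℤ) + 39 := by exact_mod_cast h
    linarith
  r1 := by
    have h : 40 * rhoE D ≤ D := by
      unfold rhoE
      omega
    have h' : 40 * ((rhoE D : ℤ) : ℝ) ≤ D := by exact_mod_cast h
    linarith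
  hT := by norm_num
  hT0 := by norm_num
  hε := by norm_num

/-- the full price at least `D T` -/
lemma Sc.full {D K ρ : ℤ} {ε T : ℝ} (h : Sc D K ρ ε T) : (D:ℝ) * T ≤ K - ρ + 1 := by
  have := h.r1
  have e := h.hDr
  rw [h.hT]
  linarith

lemma Sc.kvr_le {D K ρ : ℤ} {ε T : ℝ} (h : Sc D K ρ ε T) {j : ℤ} {y : ℝ}
    (hj : (j:ℝ) ≤ D * y) : kvr K ρ j ≤ D * kapR ε T y + 2 := by
  have hD := h.Dpos
  have e := h.hDr
  have r0 := h.r0
  have hT := h.hT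
  have h1 : ((K - ρ + 1 : ℤ) : ℝ) ≤ D * T + 2 := by
    push_cast
    rw [hT]
    linarith
  have h2 : (((j - ρ + 1) / 2 : ℤ) : ℝ) ≤ D * ((y - ε) / 2) + 2 := by
    have a1 : 2 * ((j - ρ + 1) / 2) ≤ j - ρ + 1 := by omega
    have a2 : 2 * (((j - ρ + 1) / 2 : ℤ) : ℝ) ≤ j - ρ + 1 := by exact_mod_cast a1
    linarith
  unfold kvr kv
  rw [Int.cast_max, Int.cast_min, Int.cast_zero]
  have k0 := kapR_nonneg ε T y
  refine max_le (by nlinarith) ?_
  have hm : min T ((y - ε) / 2) ≤ kapR ε T y := le_max_right _ _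
  rcases le_total T ((y - ε) / 2) with c | c
  · rw [min_eq_left c] at hm
    refine (min_le_left _ _).trans (h1.trans ?_)
    have := mul_le_mul_of_nonneg_left hm hD.le
    linarith
  · rw [min_eq_right c] at hm
    refine (min_le_right _ _).trans (h2.trans ?_)
    have := mul_le_mul_of_nonneg_left hm hD.le
    linarith

lemma bo_mul_le {p : Prop} [Decidable p] {x y : ℝ} (h : x ≤ y) (h0 : 0 ≤ y) : bo p * x ≤ y := by
  unfold bo
  split_ifs <;> linarith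

lemma half_le (z : ℤ) : ((z / 2 : ℤ) : ℝ) ≤ z / 2 := by
  have a1 : 2 * (z / 2) ≤ z := by omega
  have a2 : 2 * ((z / 2 : ℤ) : ℝ) ≤ z := by exact_mod_cast a1
  linarith

/-- the midpoint price (both parities) -/
lemma Sc.mid_le {D K ρ : ℤ} {ε T : ℝ} (h : Sc D K ρ ε T) {z : ℤ} {y : ℝ}
    (hz : (z:ℝ) ≤ D * (2 * y)) : bo (0 < z / 2) * kvr K ρ (z / 2) ≤ D * kapR ε T y + 2 := by
  refine bo_mul_le (h.kvr_le ?_) ?_
  · have := half_le z
    linarith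
  · have := kapR_nonneg ε T y
    have := h.Dpos
    positivity

/-- one-body kernel with arbitrary window functions -/
def n1g (K ρ E t0 t1 : ℤ) (W1 W2 F1 : ℤ → ℝ) (x : P3) : ℝ :=
  if x.1 = false then
    (K - ρ + 1) * (W1 x.2 + W2 x.2)
      - 1 / 2 * (bo (0 < (t1 + x.2 - (4 * K + 1) + 0) / 2)
          * kvr K ρ ((t1 + x.2 - (4 * K + 1) + 0) / 2)
        + bo (0 < (t1 + x.2 - (4 * K + 1) + E) / 2)
          * kvr K ρ ((t1 + x.2 - (4 * K + 1) + E) / 2))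
  else
    -(F1 x.2 * kvr K ρ (x.2 + 2 * t1))
      - bo (1 ≤ 2 * x.2 + t1 - (4 * K + 1) ∧ 2 * x.2 + t0 - (4 * K + 1) ≤ 4 * K + 1)
        * kvr K ρ (2 * x.2 + t1 - (4 * K + 1))
      - 1 / 2 * omc t1 x.2 * (bo (0 < (t1 - x.2 + 0) / 2) * kvr K ρ ((t1 - x.2 + 0) / 2)
        + bo (0 < (t1 - x.2 + E) / 2) * kvr K ρ ((t1 - x.2 + E) / 2))

lemma n1c_eq (K ρ E lo t0 t1 : ℤ) (x : P3) :
    n1c K ρ E lo t0 t1 x = n1g K ρ E t0 t1 (fun u => bo (lo - t0 ≤ u ∧ u < 2 * t0))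
      (fun u => bo (lo - t0 ≤ u ∧ 2 * u < t0))
      (fun u => bo (1 ≤ u + 2 * t1 ∧ u + 2 * t0 ≤ 4 * K + 1)) x := rfl

lemma n1inc_eq (K ρ E lo t0 t1 : ℤ) (x : P3) :
    n1inc K ρ E lo t0 t1 x = n1g K ρ E t0 t1 (fun u => bo (lo - t0 ≤ u ∧ u < 2 * t0))
      (fun u => bo (lo - t0 ≤ u ∧ 2 * u < t0)) (fun _ => 0) x := by
  unfold n1inc n1g
  split_ifs
  · rfl
  · ring

/-- ONE BODY PART, SIDE `P`: `w1`, `w2` = windows, `yA`, `yB` = depths of the midpoints -/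
theorem n1g_P {D K ρ : ℤ} {ε T : ℝ} (h : Sc D K ρ ε T) {E t0 t1 u : ℤ} {W1 W2 F1 : ℤ → ℝ}
    {τ1 v e w1 w2 : ℝ} (hw1 : w1 ≤ W1 u) (hw2 : w2 ≤ W2 u)
    (h10 : 0 ≤ w1) (h20 : 0 ≤ w2) (ht : (t1:ℝ) ≤ τ1 * D) (hu : (u:ℝ) = v * D)
    (hE : (E:ℝ) ≤ e * D) :
    D * (T * (w1 + w2) - 1 / 2 * (kapR ε T ((τ1 + v - 1) / 2) + kapR ε T ((τ1 + v - 1 + e) / 2)))
        - 2 ≤ n1g K ρ E t0 t1 W1 W2 F1 (false, u) := by
  have hDr := h.hDr
  have hD := h.Dpos
  unfold n1g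
  rw [if_pos rfl]
  dsimp only
  have f := h.full
  have g1 := mul_le_mul_of_nonneg_left (add_le_add hw1 hw2) (h.hT0)
  have g2 : D * T * (W1 u + W2 u) ≤ (K - ρ + 1) * (W1 u + W2 u) :=
    mul_le_mul_of_nonneg_right f (by linarith)
  have g3 := mul_le_mul_of_nonneg_left g1 hD.le
  have m0 := h.mid_le (z := t1 + u - (4 * K + 1) + 0) (y := (τ1 + v - 1) / 2) (by
    push_cast
    rw [hu]
    linarith)
  have mE := h.mid_le (z := t1 + u - (4 * K + 1) + E) (y := (τ1 + v - 1 + e) / 2) (by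
    push_cast
    rw [hu]
    linarith)
  linarith

/-- ONE BODY PART, SIDE `Q`: `f1`, `f2` = exotic windows, `om` = sharing of the midpoints -/
theorem n1g_Q {D K ρ : ℤ} {ε T : ℝ} (h : Sc D K ρ ε T) {E t0 t1 u : ℤ} {W1 W2 F1 : ℤ → ℝ}
    {τ1 v e f1 f2 om : ℝ} (hF0 : 0 ≤ F1 u) (hf1 : F1 u ≤ f1)
    (hf2 : bo (1 ≤ 2 * u + t1 - (4 * K + 1) ∧ 2 * u + t0 - (4 * K + 1) ≤ 4 * K + 1) ≤ f2)
    (hom : omc t1 u ≤ om) (h11 : f1 ≤ 1) (h21 : f2 ≤ 1) (ho1 : om ≤ 1)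
    (ht : (t1:ℝ) ≤ τ1 * D) (hu : (u:ℝ) = v * D) (hE : (E:ℝ) ≤ e * D) :
    D * (-(f1 * kapR ε T (v + 2 * τ1)) - f2 * kapR ε T (2 * v + τ1 - 1)
          - 1 / 2 * om * (kapR ε T ((τ1 - v) / 2) + kapR ε T ((τ1 - v + e) / 2))) - 6
      ≤ n1g K ρ E t0 t1 W1 W2 F1 (true, u) := by
  have hDr := h.hDr
  have hD := h.Dpos
  unfold n1g
  rw [if_neg (by simp)]
  dsimp only
  have k1 := h.kvr_le (j := u + 2 * t1) (y := v + 2 * τ1) (by push_cast; rw [hu]; linarith)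
  have k2 := h.kvr_le (j := 2 * u + t1 - (4 * K + 1)) (y := 2 * v + τ1 - 1) (by
    push_cast
    rw [hu]
    linarith)
  have m0 := h.mid_le (z := t1 - u + 0) (y := (τ1 - v) / 2) (by
    push_cast
    rw [hu]
    linarith)
  have mE := h.mid_le (z := t1 - u + E) (y := (τ1 - v + e) / 2) (by
    push_cast
    rw [hu]
    linarith)
  have n1 := kapR_nonneg ε T (v + 2 * τ1)
  have n2 := kapR_nonneg ε T (2 * v + τ1 - 1)
  have n3 := kapR_nonneg ε T ((τ1 - v) / 2)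
  have n4 := kapR_nonneg ε T ((τ1 - v + e) / 2)
  have b2 := bo_nonneg (1 ≤ 2 * u + t1 - (4 * K + 1) ∧ 2 * u + t0 - (4 * K + 1) ≤ 4 * K + 1)
  have o0 := omc_nonneg t1 u
  have q1 : F1 u * kvr K ρ (u + 2 * t1) ≤ f1 * (D * kapR ε T (v + 2 * τ1)) + 2 := by
    have s1 := mul_le_mul_of_nonneg_left k1 hF0
    have s2 := mul_le_mul_of_nonneg_right hf1
      (by positivity : 0 ≤ D * kapR ε T (v + 2 * τ1) + 2)
    linarith
  have q2 : bo (1 ≤ 2 * u + t1 - (4 * K + 1) ∧ 2 * u + t0 - (4 * K + 1) ≤ 4 * K + 1)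
        * kvr K ρ (2 * u + t1 - (4 * K + 1))
      ≤ f2 * (D * kapR ε T (2 * v + τ1 - 1)) + 2 := by
    have s1 := mul_le_mul_of_nonneg_left k2 b2
    have s2 := mul_le_mul_of_nonneg_right hf2
      (by positivity : 0 ≤ D * kapR ε T (2 * v + τ1 - 1) + 2)
    linarith
  have q3 : 1 / 2 * omc t1 u * (bo (0 < (t1 - u + 0) / 2) * kvr K ρ ((t1 - u + 0) / 2)
        + bo (0 < (t1 - u + E) / 2) * kvr K ρ ((t1 - u + E) / 2))
      ≤ 1 / 2 * om * (D * kapR ε T ((τ1 - v) / 2) + D * kapR ε T ((τ1 - v + e) / 2)) + 2 := by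
    have s1 := mul_le_mul_of_nonneg_left (add_le_add m0 mE)
      (by positivity : 0 ≤ 1 / 2 * omc t1 u)
    have s2 := mul_le_mul_of_nonneg_right
      (by linarith : 1 / 2 * omc t1 u ≤ 1 / 2 * om)
      (by positivity : 0 ≤ D * kapR ε T ((τ1 - v) / 2) + 2
        + (D * kapR ε T ((τ1 - v + e) / 2) + 2))
    linarith
  linarith

end

end MP61673a.Fin
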