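import Pool.Agent.Mu673.OneBody
import Pool.Agent.Mu673.FE3

/-!
ONE-BODY PART OF A ROW CELL AS A PART (calculus of helper31, `FE2`, `FE3`): left coordinate
`J = M lc / D - σ` for both sides.
-/

set_option autoImplicit false

namespace MP61673a.FE

open Finset MP61673a.Kink MP61673a.Bary MP61673a.Sos MP61673a.Fin

noncomputable section

lemma kapR_lip {ε T y y' : ℝ} : kapR ε T y ≤ kapR ε T y' + |y - y'| / 2 := by
  unfold kapR
  have h := le_abs_self (y - y')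
  have h0 := abs_nonneg (y - y')
  refine max_le ?_ ?_
  · have := le_max_left (0:ℝ) (min T ((y' - ε) / 2))
    linarith
  · have h1 : min T ((y - ε) / 2) ≤ min T ((y' - ε) / 2) + |y - y'| / 2 := by
      rcases le_total T ((y' - ε) / 2) with c | c
      · rw [min_eq_left c]
        have := min_le_left T ((y - ε) / 2)
        linarith
      · rw [min_eq_right c]
        have := min_le_right T ((y - ε) / 2)
        linarith
    have := le_max_right (0:ℝ) (min T ((y' - ε) / 2))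
    linarith

lemma kap_rob {ε T α β δ : ℝ} {lo hi : ℤ} {g : ℤ → ℝ} (h : KapOK ε T α β lo hi g)
    (hT : 0 ≤ T) (hα : |α| ≤ 2) {X Y : ℝ} (h0 : (lo:ℝ) ≤ X) (h1 : X ≤ hi)
    (hd : |X - Y| ≤ δ) : kapR ε T (α * Y + β) ≤ pl g X + δ := by
  have a := h.le hT h0 h1
  have b := kapR_lip (ε := ε) (T := T) (y := α * Y + β) (y' := α * X + β)
  have e : α * Y + β - (α * X + β) = α * (Y - X) := by ring
  rw [e, abs_mul, abs_sub_comm Y X] at b
  have c : |α| * |X - Y| ≤ 2 * δ :=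
    mul_le_mul hα hd (abs_nonneg _) (by norm_num)
  linarith

variable {C : Type} {M : ℕ} {σ δ : ℝ} {D K ρ : ℤ} {kL kR : ℝ}

lemma kX_pl {lo hi : C → ℤ} (f : C × ℤ → ℝ) {z : C × ℝ} (hz : RegX lo hi z) :
    kX lo hi f z = pl (fun i => f (z.1, i)) z.2 := (pl_eq_sum hz.near _).symm

/-- windows and tables of the classes; `W1 W2 F1` = window functions of the kernel -/
structure FlgOut (G : GrdD C M σ δ D K ρ kL kR) (ε T e τ1 : ℝ) (E t0 t1 : ℤ)
    (W1 W2 F1 : ℤ → ℝ) (sd : C → Bool) (w1 w2 f1 f2 om Fc : C → ℝ) (gA gB g1 g2 : C → ℤ → ℝ) : Prop where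
  hsd : ∀ x, G.ok x → sd (G.cl x) = x.2.1
  hw1 : ∀ x, G.ok x → x.2.1 = false → w1 (G.cl x) ≤ W1 x.2.2
  hw2 : ∀ x, G.ok x → x.2.1 = false → w2 (G.cl x) ≤ W2 x.2.2
  hw10 : ∀ c, 0 ≤ w1 c
  hw20 : ∀ c, 0 ≤ w2 c
  hF0 : ∀ x, G.ok x → x.2.1 = true → 0 ≤ F1 x.2.2
  hf1 : ∀ x, G.ok x → x.2.1 = true → F1 x.2.2 ≤ f1 (G.cl x)
  hf2 : ∀ x, G.ok x → x.2.1 = true →
    bo (1 ≤ 2 * x.2.2 + t1 - (4 * K + 1) ∧ 2 * x.2.2 + t0 - (4 * K + 1) ≤ 4 * K + 1)
      ≤ f2 (G.cl x)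
  hom : ∀ x, G.ok x → x.2.1 = true → omc t1 x.2.2 ≤ om (G.cl x)
  hf11 : ∀ c, f1 c ≤ 1
  hf21 : ∀ c, f2 c ≤ 1
  hom1 : ∀ c, om c ≤ 1
  hom0 : ∀ c, 0 ≤ om c
  hf10 : ∀ c, 0 ≤ f1 c
  hf20 : ∀ c, 0 ≤ f2 c
  hFc : ∀ x, G.ok x → fCc D K E t0 t1 x.2 ≤ Fc (G.cl x)
  hFc0 : ∀ c, 0 ≤ Fc c
  hFc3 : ∀ c, Fc c ≤ 3
  hkA : ∀ c, KapOK ε T (1 / (2 * M)) ((τ1 - 1 + σ / M) / 2) (G.lo c) (G.hi c) (gA c)
  hkB : ∀ c, KapOK ε T (1 / (2 * M)) ((τ1 - 1 + e + σ / M) / 2) (G.lo c) (G.hi c) (gB c)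
  hk1 : ∀ c, sd c = true →
    KapOK ε T (-(1 / M)) (1 + 2 * τ1 - σ / M) (G.lo c) (G.hi c) (g1 c)
  hk2 : ∀ c, sd c = true →
    KapOK ε T (-(2 / M)) (1 + τ1 - 2 * (σ / M)) (G.lo c) (G.hi c) (g2 c)

/-- node table of the one body part of the net (units of `D`) -/
def nbOut (T kc : ℝ) (sd : C → Bool) (w1 w2 f1 f2 om Fc : C → ℝ) (gA gB g1 g2 : C → ℤ → ℝ)
    (ζ : C × ℤ) : ℝ :=
  (if sd ζ.1 = false then T * (w1 ζ.1 + w2 ζ.1) - 1 / 2 * (gA ζ.1 ζ.2 + gB ζ.1 ζ.2)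
    else -(f1 ζ.1 * g1 ζ.1 ζ.2) - f2 ζ.1 * g2 ζ.1 ζ.2
      - 1 / 2 * om ζ.1 * (gA ζ.1 ζ.2 + gB ζ.1 ζ.2)) - Fc ζ.1 * kc

lemma pl_lin2 (a b c : ℝ) (f g : ℤ → ℝ) (x : ℝ) :
    pl (fun i => a * f i + b * g i + c) x = a * pl f x + b * pl g x + c := by
  unfold pl
  ring

lemma pl_lin4 (a b c d r : ℝ) (f g h k : ℤ → ℝ) (x : ℝ) :
    pl (fun i => a * f i + b * g i + c * h i + d * k i + r) x
      = a * pl f x + b * pl g x + c * pl h x + d * pl k x + r := by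
  unfold pl
  ring

lemma kapE_le {D K ρ : ℤ} {T : ℝ} (h : Sc D K ρ (1 / 40) T) (hK : 100 ≤ K) :
    kapE K ρ ≤ D * (1 / 250) + 1 := by
  have hD := h.hDr
  have hKr : (100:ℝ) ≤ K := by exact_mod_cast hK
  have r1 := h.r1
  have r0 := h.r0
  have hr : (0:ℝ) ≤ ρ := by
    rw [hD] at r0
    linarith
  unfold kapE
  have h1 : (ρ:ℝ) ^ 2 ≤ (1 / 40 * D) ^ 2 := pow_le_pow_left₀ hr r1 2
  have h2 : (ρ:ℝ) ^ 2 / K ≤ (1 / 40 * (D:ℝ)) ^ 2 / K :=
    div_le_div_of_nonneg_right h1 (by linarith)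
  have h3 : (1 / 40 * (D:ℝ)) ^ 2 / K ≤ (D / 400 + 5 / 8) := by
    rw [div_le_iff₀ (by linarith), hD]
    nlinarith
  linarith

/-- ONE BODY PART OF A CELL -/
theorem onep_net {G : GrdD C M σ δ D K ρ kL kR} {T kc e τ1 : ℝ}
    (hS : Sc D K ρ (1 / 40) T) (hK : 0 ≤ K) (hkc : kapE K ρ ≤ D * kc + 1) (hM : 0 < M) {E t0 t1 : ℤ}
    {W1 W2 F1 : ℤ → ℝ} {sd : C → Bool} {w1 w2 f1 f2 om Fc : C → ℝ}
    {gA gB g1 g2 : C → ℤ → ℝ}
    (h : FlgOut G (1 / 40) T e τ1 E t0 t1 W1 W2 F1 sd w1 w2 f1 f2 om Fc gA gB g1 g2)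
    (ht : (t1:ℝ) ≤ τ1 * D) (hE : (E:ℝ) ≤ e * D)
    {B : P4 → ℝ} {Bn : C × ℤ → ℝ} {cB : ℝ} (hcB : 0 ≤ cB)
    (hB : ∀ x, G.ok x → (D:ℝ) / M * kX G.lo G.hi Bn (G.pt x) - cB ≤ B x)
    {A0 : ℝ} (hA : ∀ x, G.ok x →
      |kX G.lo G.hi (fun ζ => nbOut T kc sd w1 w2 f1 f2 om Fc gA gB g1 g2 ζ + Bn ζ / M) (G.pt x)|
        ≤ A0)
    {η : ℝ} (hη : 4 * A0 + 3 * (D * δ) + cB + 9 ≤ η * (3 * D)) :
    G.OneP (fun x => -((n1g K ρ E t0 t1 W1 W2 F1 x.2 - kapE K ρ * fCc D K E t0 t1 x.2 + B x)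
        / (3 * D + 11)))
      (fun ζ => -((nbOut T kc sd w1 w2 f1 f2 om Fc gA gB g1 g2 ζ + Bn ζ / M) / 3)) η := by
  intro x hx
  have hD := hS.Dpos
  have hM' : (0:ℝ) < M := by exact_mod_cast hM
  have hr := G.reg x hx
  have hn := G.near x hx
  have hsd := h.hsd x hx
  have hδ : 0 ≤ δ := (abs_nonneg _).trans hn
  have hTT := hS.hT0
  -- the interpolated node table
  set A : ℝ := kX G.lo G.hi (fun ζ => nbOut T kc sd w1 w2 f1 f2 om Fc gA gB g1 g2 ζ + Bn ζ / M)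
    (G.pt x) with hAdef
  have hAx := hA x hx
  rw [← hAdef] at hAx
  have eA : A = kX G.lo G.hi (nbOut T kc sd w1 w2 f1 f2 om Fc gA gB g1 g2) (G.pt x)
      + kX G.lo G.hi Bn (G.pt x) / M := by
    rw [hAdef, kX_add]
    congr 1
    have := kX_smul G.lo G.hi Bn (1 / (M:ℝ)) (G.pt x)
    have e2 : (fun x : C × ℤ => 1 / (M:ℝ) * Bn x) = fun x => Bn x / M := by
      funext y
      ring
    rw [e2] at this
    rw [this]
    ring
  -- the net
  have key : D * kX G.lo G.hi (nbOut T kc sd w1 w2 f1 f2 om Fc gA gB g1 g2) (G.pt x)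
      - (3 * (D * δ) + 9) ≤ n1g K ρ E t0 t1 W1 W2 F1 x.2 - kapE K ρ * fCc D K E t0 t1 x.2 := by
    have far : kapE K ρ * fCc D K E t0 t1 x.2 ≤ D * (Fc (G.cl x) * kc) + 3 := by
      have a1 := hkc
      have a2 := kapE_nonneg (ρ := ρ) (K := K) hK
      have a3 := h.hFc x hx
      have a4 := h.hFc0 (G.cl x)
      have a5 := h.hFc3 (G.cl x)
      calc kapE K ρ * fCc D K E t0 t1 x.2 ≤ kapE K ρ * Fc (G.cl x) :=
            mul_le_mul_of_nonneg_left a3 a2
        _ ≤ (D * kc + 1) * Fc (G.cl x) := mul_le_mul_of_nonneg_right a1 a4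
        _ ≤ D * (Fc (G.cl x) * kc) + 3 := by linarith
    have ekX := kX_pl (lo := G.lo) (hi := G.hi)
      (nbOut T kc sd w1 w2 f1 f2 om Fc gA gB g1 g2) (G.regX hx)
    have X0 : (G.pt x).1 = G.cl x := rfl
    have X1 : (G.pt x).2 = G.J x := rfl
    rw [X0, X1] at ekX
    rcases hs : x.2.1 with _ | _
    · -- side P
      rw [hs] at hsd
      have ex : x.2 = ((false, x.2.2) : P3) := Prod.ext hs rfl
      have elc : lc D x.2 = x.2.2 := by
        unfold lc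
        rw [hs]
        simp
      rw [elc] at hn
      have eu : ((x.2.2 : ℤ) : ℝ) = (yc M σ D x.2.2 + σ) / M * D := by
        unfold yc
        field_simp
        ring
      have p := n1g_P hS (E := E) (t0 := t0) (t1 := t1) (F1 := F1) (e := e) (h.hw1 x hx hs)
        (h.hw2 x hx hs) (h.hw10 _) (h.hw20 _) ht eu hE
      rw [← ex] at p
      have kA := kap_rob (h.hkA (G.cl x)) hTT (by
        rw [abs_of_nonneg (by positivity)]
        rw [div_le_iff₀ (by positivity)]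
        have : (1:ℝ) ≤ M := by exact_mod_cast hM
        linarith) hr.1 hr.2 hn
      have kB := kap_rob (h.hkB (G.cl x)) hTT (by
        rw [abs_of_nonneg (by positivity)]
        rw [div_le_iff₀ (by positivity)]
        have : (1:ℝ) ≤ M := by exact_mod_cast hM
        linarith) hr.1 hr.2 hn
      have e1 : 1 / (2 * (M:ℝ)) * yc M σ D x.2.2 + (τ1 - 1 + σ / M) / 2
          = (τ1 + (yc M σ D x.2.2 + σ) / M - 1) / 2 := by
        field_simp
        ring
      have e2 : 1 / (2 * (M:ℝ)) * yc M σ D x.2.2 + (τ1 - 1 + e + σ / M) / 2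
          = (τ1 + (yc M σ D x.2.2 + σ) / M - 1 + e) / 2 := by
        field_simp
        ring
      rw [e1] at kA
      rw [e2] at kB
      have ev : kX G.lo G.hi (nbOut T kc sd w1 w2 f1 f2 om Fc gA gB g1 g2) (G.pt x)
          = T * (w1 (G.cl x) + w2 (G.cl x)) - 1 / 2 * (pl (gA (G.cl x)) (G.J x)
            + pl (gB (G.cl x)) (G.J x)) - Fc (G.cl x) * kc := by
        rw [ekX]
        have ef : (fun i => nbOut T kc sd w1 w2 f1 f2 om Fc gA gB g1 g2 (G.cl x, i))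
            = fun i => -(1 / 2) * gA (G.cl x) i + -(1 / 2) * gB (G.cl x) i
              + (T * (w1 (G.cl x) + w2 (G.cl x)) - Fc (G.cl x) * kc) := by
          funext i
          unfold nbOut
          rw [if_pos hsd]
          ring
        rw [ef, pl_lin2]
        ring
      rw [ev]
      have q := mul_le_mul_of_nonneg_left (add_le_add kA kB) hD.le
      have hDδ : 0 ≤ D * δ := mul_nonneg hD.le hδ
      linarith
    · -- side Q
      rw [hs] at hsd
      have ex : x.2 = ((true, x.2.2) : P3) := Prod.ext hs rfl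
      have elc : lc D x.2 = D - x.2.2 := by
        unfold lc
        rw [hs]
        simp
      rw [elc] at hn
      set y : ℝ := yc M σ D (D - x.2.2) with hy
      have eu : ((x.2.2 : ℤ) : ℝ) = (1 - (y + σ) / M) * D := by
        rw [hy]
        unfold yc
        push_cast
        field_simp
        ring
      have p : D * (-(f1 (G.cl x) * kapR (1 / 40) T (1 - (y + σ) / M + 2 * τ1))
            - f2 (G.cl x) * kapR (1 / 40) T (2 * (1 - (y + σ) / M) + τ1 - 1)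
            - 1 / 2 * om (G.cl x) * (kapR (1 / 40) T ((τ1 - (1 - (y + σ) / M)) / 2)
              + kapR (1 / 40) T ((τ1 - (1 - (y + σ) / M) + e) / 2))) - 6
          ≤ n1g K ρ E t0 t1 W1 W2 F1 x.2 := by
        have p := n1g_Q hS (E := E) (t0 := t0) (t1 := t1) (W1 := W1) (W2 := W2) (e := e)
          (h.hF0 x hx hs) (h.hf1 x hx hs) (h.hf2 x hx hs) (h.hom x hx hs) (h.hf11 _) (h.hf21 _)
          (h.hom1 _) ht eu hE
        rw [← ex] at p
        exact p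
      have hM1 : (1:ℝ) ≤ M := by exact_mod_cast hM
      have kA := kap_rob (h.hkA (G.cl x)) hTT (by
        rw [abs_of_nonneg (by positivity)]
        rw [div_le_iff₀ (by positivity)]
        linarith) hr.1 hr.2 hn
      have kB := kap_rob (h.hkB (G.cl x)) hTT (by
        rw [abs_of_nonneg (by positivity)]
        rw [div_le_iff₀ (by positivity)]
        linarith) hr.1 hr.2 hn
      have k1 := kap_rob (h.hk1 (G.cl x) hsd) hTT (by
        rw [abs_neg, abs_of_nonneg (by positivity)]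
        rw [div_le_iff₀ (by positivity)]
        linarith) hr.1 hr.2 hn
      have k2 := kap_rob (h.hk2 (G.cl x) hsd) hTT (by
        rw [abs_neg, abs_of_nonneg (by positivity)]
        rw [div_le_iff₀ (by positivity)]
        linarith) hr.1 hr.2 hn
      have e1 : 1 / (2 * (M:ℝ)) * y + (τ1 - 1 + σ / M) / 2 = (τ1 - (1 - (y + σ) / M)) / 2 := by
        field_simp
        ring
      have e2 : 1 / (2 * (M:ℝ)) * y + (τ1 - 1 + e + σ / M) / 2
          = (τ1 - (1 - (y + σ) / M) + e) / 2 := by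
        field_simp
        ring
      have e3 : -(1 / (M:ℝ)) * y + (1 + 2 * τ1 - σ / M) = 1 - (y + σ) / M + 2 * τ1 := by
        field_simp
        ring
      have e4 : -(2 / (M:ℝ)) * y + (1 + τ1 - 2 * (σ / M))
          = 2 * (1 - (y + σ) / M) + τ1 - 1 := by
        field_simp
        ring
      rw [e1] at kA
      rw [e2] at kB
      rw [e3] at k1
      rw [e4] at k2
      have ev : kX G.lo G.hi (nbOut T kc sd w1 w2 f1 f2 om Fc gA gB g1 g2) (G.pt x)
          = -(f1 (G.cl x) * pl (g1 (G.cl x)) (G.J x)) - f2 (G.cl x) * pl (g2 (G.cl x)) (G.J x)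
            - 1 / 2 * om (G.cl x) * (pl (gA (G.cl x)) (G.J x)
            + pl (gB (G.cl x)) (G.J x)) - Fc (G.cl x) * kc := by
        rw [ekX]
        have ef : (fun i => nbOut T kc sd w1 w2 f1 f2 om Fc gA gB g1 g2 (G.cl x, i))
            = fun i => -f1 (G.cl x) * g1 (G.cl x) i + -f2 (G.cl x) * g2 (G.cl x) i
              + -(1 / 2 * om (G.cl x)) * gA (G.cl x) i + -(1 / 2 * om (G.cl x)) * gB (G.cl x) i
              + (-(Fc (G.cl x) * kc)) := by
          funext i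
          unfold nbOut
          rw [if_neg (by rw [hsd]; simp)]
          ring
        rw [ef, pl_lin4]
        ring
      rw [ev]
      have q1 := mul_le_mul_of_nonneg_left k1 (h.hf10 (G.cl x))
      have q2 := mul_le_mul_of_nonneg_left k2 (h.hf20 (G.cl x))
      have q3 := mul_le_mul_of_nonneg_left (add_le_add kA kB)
        (by have := h.hom0 (G.cl x); linarith : 0 ≤ 1 / 2 * om (G.cl x))
      have s1 := mul_le_mul_of_nonneg_right (h.hf11 (G.cl x)) hδ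
      have s2 := mul_le_mul_of_nonneg_right (h.hf21 (G.cl x)) hδ
      have s3 := mul_le_mul_of_nonneg_right (h.hom1 (G.cl x)) hδ
      have q := mul_le_mul_of_nonneg_left (show
        f1 (G.cl x) * kapR (1 / 40) T (1 - (y + σ) / M + 2 * τ1)
          + f2 (G.cl x) * kapR (1 / 40) T (2 * (1 - (y + σ) / M) + τ1 - 1)
          + 1 / 2 * om (G.cl x) * (kapR (1 / 40) T ((τ1 - (1 - (y + σ) / M)) / 2)
            + kapR (1 / 40) T ((τ1 - (1 - (y + σ) / M) + e) / 2))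
        ≤ f1 (G.cl x) * pl (g1 (G.cl x)) (G.J x) + f2 (G.cl x) * pl (g2 (G.cl x)) (G.J x)
          + 1 / 2 * om (G.cl x) * (pl (gA (G.cl x)) (G.J x) + pl (gB (G.cl x)) (G.J x))
          + 3 * δ by linarith) hD.le
      linarith
  -- division by the square of the mass
  have hBx := hB x hx
  have tot : D * A - (3 * (D * δ) + cB + 9)
      ≤ n1g K ρ E t0 t1 W1 W2 F1 x.2 - kapE K ρ * fCc D K E t0 t1 x.2 + B x := by
    rw [eA]
    have e : (D:ℝ) / M * kX G.lo G.hi Bn (G.pt x) = D * (kX G.lo G.hi Bn (G.pt x) / M) := by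
      ring
    rw [e] at hBx
    linarith
  have e3 : kX G.lo G.hi
      (fun ζ => -((nbOut T kc sd w1 w2 f1 f2 om Fc gA gB g1 g2 ζ + Bn ζ / M) / 3)) (G.pt x)
      = -(A / 3) := by
    have := kX_smul G.lo G.hi
      (fun ζ => nbOut T kc sd w1 w2 f1 f2 om Fc gA gB g1 g2 ζ + Bn ζ / M) (-(1 / 3)) (G.pt x)
    rw [hAdef]
    have e4 : (fun ζ : C × ℤ =>
        -((nbOut T kc sd w1 w2 f1 f2 om Fc gA gB g1 g2 ζ + Bn ζ / M) / 3))
        = fun ζ => -(1 / 3) * (nbOut T kc sd w1 w2 f1 f2 om Fc gA gB g1 g2 ζ + Bn ζ / M) := by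
      funext y
      ring
    rw [e4, this]
    ring
  beta_reduce
  rw [e3]
  have h3 : (0:ℝ) < 3 * D + 11 := by linarith
  have hA' := abs_le.1 hAx
  have hη0 : 0 ≤ η := by
    by_contra hc
    push Not at hc
    have a1 : η * (3 * D) < 0 := mul_neg_of_neg_of_pos hc (by linarith)
    have a2 : 0 ≤ A0 := (abs_nonneg _).trans hAx
    have a3 : 0 ≤ D * δ := mul_nonneg hD.le hδ
    linarith
  have fin : A / 3 - η ≤ (n1g K ρ E t0 t1 W1 W2 F1 x.2 - kapE K ρ * fCc D K E t0 t1 x.2 + B x)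
      / (3 * D + 11) := by
    rw [le_div_iff₀ h3]
    refine le_trans ?_ tot
    have a4 : (A / 3 - η) * (3 * D + 11) = D * A + 11 / 3 * A - η * (3 * D) - 11 * η := by ring
    rw [a4]
    linarith
  have e5 : -((n1g K ρ E t0 t1 W1 W2 F1 x.2 - kapE K ρ * fCc D K E t0 t1 x.2 + B x) / (3 * D + 11))
      ≤ -(A / 3 - η) := neg_le_neg fin
  linarith

end

end MP61673a.FE
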