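import Pool.Agent.Mu673.Nets

set_option autoImplicit false

/-!
The net of a stray without doubled role (`V < t`), explicit.
-/

namespace MP61673a.Fin

open Finset MP61673a.W MP61673a.LiftW MP61673a.Mids
open MP61673a.Lift hiding PP QQ

noncomputable section

/-- mass of the elements with `lo ≤ u < hi` -/
def win (P : WS) (lo hi : ℤ) : ℝ := ∑ a ∈ P.S, if lo ≤ P.u a ∧ P.u a < hi then P.f a else 0

lemma win_nonneg {P : WS} (hP : Good P) (lo hi : ℤ) : 0 ≤ win P lo hi :=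
  sum_nonneg fun a ha => ite_nonneg' (hP.f_nonneg a ha)

/-- windows as differences of cumulative masses -/
lemma win_eq (P : WS) {lo hi : ℤ} (h : lo ≤ hi) : win P lo hi = lt P hi - lt P lo := by
  unfold win lt
  rw [← sum_sub_distrib]
  refine sum_congr rfl fun a _ => ?_
  split_ifs <;> first | omega | ring

lemma win_mono {P : WS} (hP : Good P) {lo hi lo' hi' : ℤ} (h1 : lo' ≤ lo) (h2 : hi ≤ hi') :
    win P lo hi ≤ win P lo' hi' :=
  sum_le_sum fun a ha => ite_le_ite (hP.f_nonneg a ha) fun h => ⟨by omega, by omega⟩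

/-- a window that contains everything above `lo` -/
lemma win_ge {P : WS} {lo hi : ℤ} (h : ∀ a ∈ P.S, P.f a ≠ 0 → P.u a < hi) :
    win P lo hi = ge P lo := by
  unfold win ge
  refine sum_congr rfl fun a ha => ?_
  by_cases h0 : P.f a = 0
  · rw [h0]
    simp
  · have := h a ha h0
    split_ifs <;> first | omega | rfl

/-- gain of the undoubled pairs beyond the window, labels of the side `(P,Q)` -/
def tailR (P Q : WS) (K ρ t : ℤ) : ℝ :=
  ∑ a ∈ P.S, if 2 * t ≤ P.u a then P.f a * dd P Q (2 * K + 1 + ρ + 2 * (P.u a - 2 * t)) else 0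

/-- gain of the undoubled pairs beyond the window, labels of the side `(Q,P)` -/
def tailL (P Q : WS) (K σ t : ℤ) : ℝ :=
  ∑ a ∈ P.S, if t ≤ 2 * P.u a then P.f a * dd Q P (2 * K + 1 + σ + 2 * (2 * P.u a - t)) else 0

lemma tailR_nonneg {P Q : WS} (hP : Good P) (hQ : Good Q) (K ρ t : ℤ) : 0 ≤ tailR P Q K ρ t :=
  sum_nonneg fun a ha => ite_nonneg' (mul_nonneg (hP.f_nonneg a ha) (dd_nonneg hP hQ _))

lemma tailL_nonneg {P Q : WS} (hP : Good P) (hQ : Good Q) (K σ t : ℤ) : 0 ≤ tailL P Q K σ t :=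
  sum_nonneg fun a ha => ite_nonneg' (mul_nonneg (hP.f_nonneg a ha) (dd_nonneg hQ hP _))

/-- the pairs of a stray without doubled role, exact -/
lemma pairNet_out (P Q : WS) (K T ρ σ : ℤ) {V lo t : ℤ} (hVt : V < t) (hlo : lo ≤ 1)
    (ht : 1 ≤ t) :
    pairNet P Q K T ρ σ V lo t
      = (T + 1 + nn P (1 + ρ)) * win P (lo - t) (2 * t)
        + (T + 1 + nn Q (1 + σ)) * win P (lo - t) ((t + 1) / 2)
        + tailR P Q K ρ t + tailL P Q K σ t := by
  unfold pairNet win tailR tailL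
  rw [mul_sum, mul_sum, ← sum_add_distrib, ← sum_add_distrib, ← sum_add_distrib]
  refine sum_congr rfl fun a _ => ?_
  unfold hh
  rw [if_neg (show ¬ (-V ≤ P.u a ∧ -V ≤ -t) by omega),
    if_neg (show ¬ (-V ≤ P.u a ∧ -V ≤ -t) by omega),
    if_neg (show ¬ (-V ≤ -t ∧ -V ≤ P.u a) by omega),
    if_neg (show ¬ (-V ≤ -t ∧ -V ≤ P.u a) by omega),
    show P.u a + 2 * -t = P.u a - 2 * t by ring, show -t + 2 * P.u a = 2 * P.u a - t by ring]
  by_cases c0 : lo - t ≤ P.u a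
  · rw [if_pos c0]
    by_cases c1 : P.u a - 2 * t < 0
    · by_cases c2 : 2 * P.u a - t < 0
      · rw [if_pos c1, if_pos c2, if_pos (show lo - t ≤ P.u a ∧ P.u a < 2 * t by omega),
          if_pos (show lo - t ≤ P.u a ∧ P.u a < (t + 1) / 2 by omega),
          if_neg (show ¬ 2 * t ≤ P.u a by omega), if_neg (show ¬ t ≤ 2 * P.u a by omega)]
        ring
      · rw [if_pos c1, if_neg c2, if_pos (show lo - t ≤ P.u a ∧ P.u a < 2 * t by omega),
          if_neg (show ¬ (lo - t ≤ P.u a ∧ P.u a < (t + 1) / 2) by omega),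
          if_neg (show ¬ 2 * t ≤ P.u a by omega), if_pos (show t ≤ 2 * P.u a by omega)]
        ring
    · rw [if_neg c1, if_neg (show ¬ 2 * P.u a - t < 0 by omega),
        if_neg (show ¬ (lo - t ≤ P.u a ∧ P.u a < 2 * t) by omega),
        if_neg (show ¬ (lo - t ≤ P.u a ∧ P.u a < (t + 1) / 2) by omega),
        if_pos (show 2 * t ≤ P.u a by omega), if_pos (show t ≤ 2 * P.u a by omega)]
      ring
  · rw [if_neg c0, if_neg (show ¬ (lo - t ≤ P.u a ∧ P.u a < 2 * t) by omega),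
      if_neg (show ¬ (lo - t ≤ P.u a ∧ P.u a < (t + 1) / 2) by omega),
      if_neg (show ¬ 2 * t ≤ P.u a by omega), if_neg (show ¬ t ≤ 2 * P.u a by omega)]
    ring

/-- saving on the labels with the undoubled centre -/
def saveQ (P Q : WS) (D K ρ t : ℤ) : ℝ :=
  ∑ q ∈ Q.S, if 1 ≤ Q.u q + 2 * t ∧ Q.u q + 2 * t ≤ D then
    Q.f q * dd P Q (2 * K + 1 + ρ + 2 * (D - (Q.u q + 2 * t))) else 0

lemma saveQ_nonneg {P Q : WS} (hP : Good P) (hQ : Good Q) (D K ρ t : ℤ) :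
    0 ≤ saveQ P Q D K ρ t :=
  sum_nonneg fun a ha => ite_nonneg' (mul_nonneg (hQ.f_nonneg a ha) (dd_nonneg hP hQ _))

lemma ex1_le {P Q : WS} (hP : Good P) (hQ : Good Q) (D K : ℤ) {T ρ V t : ℤ} (hT : -1 ≤ T)
    (hVt : V < t) :
    ex1 P Q D K T ρ V t
      ≤ (T + 1 + nn P (1 + ρ)) * win Q (1 - 2 * t) (D + 1 - 2 * t) - saveQ P Q D K ρ t := by
  unfold ex1 win saveQ
  rw [if_pos hVt, mul_sum, ← sum_sub_distrib]
  refine sum_le_sum fun q hq => ?_
  have h0 := hQ.f_nonneg q hq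
  by_cases c : 1 ≤ Q.u q + 2 * t ∧ Q.u q + 2 * t ≤ D
  · rw [if_pos c, if_pos (show 1 - 2 * t ≤ Q.u q ∧ Q.u q < D + 1 - 2 * t by omega), if_pos c]
    have h1 : price P Q D K T ρ (D - (Q.u q + 2 * t))
        ≤ T + 1 + nn P (1 + ρ) - dd P Q (2 * K + 1 + ρ + 2 * (D - (Q.u q + 2 * t))) := by
      unfold price
      have h2 := kap_le K ρ (D - (Q.u q + 2 * t)) hT
      have h3 := nn_anti hP (show 1 + ρ ≤ 2 * max (D - (Q.u q + 2 * t) - (D - K)) 0 + 1 + ρ by
        have := le_max_right (D - (Q.u q + 2 * t) - (D - K)) 0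
        omega)
      linarith
    have := mul_le_mul_of_nonneg_left h1 h0
    linarith
  · rw [if_neg c, if_neg (show ¬ (1 - 2 * t ≤ Q.u q ∧ Q.u q < D + 1 - 2 * t) by omega), if_neg c]
    linarith

/-- NET OF A STRAY WITHOUT DOUBLED ROLE, lower bound (all that is lost are the rounding of the price
of the labels `2 centre - q` at depth below `K`) -/
theorem net_out_ge {P Q : WS} (hP : Good P) (hQ : Good Q) (ω : ℤ → ℤ → ℝ) (D K : ℤ)
    {T ρ σ V E lo t : ℤ}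
    (hT : -1 ≤ T) (hVt : V < t) (hlo : lo ≤ 1) (ht : 1 ≤ t) :
    (T + 1 + nn P (1 + ρ)) * (win P (lo - t) (2 * t) - win Q (1 - 2 * t) (D + 1 - 2 * t))
      + (T + 1 + nn Q (1 + σ)) * win P (lo - t) ((t + 1) / 2)
      + tailR P Q K ρ t + tailL P Q K σ t + saveQ P Q D K ρ t
      - ex2 P Q D K T σ t - mid P Q D E (cpr P D K T ρ) ω t
      ≤ net P Q ω D K T ρ σ V E lo t := by
  have h1 := pairNet_out P Q K T ρ σ hVt hlo ht
  have h2 := ex1_le hP hQ D K (T := T) (ρ := ρ) hT hVt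
  have h3 : own P Q D K T ρ V t = 0 := by
    unfold own
    rw [if_neg (by omega)]
  have h4 : deepNet P Q D K σ V t = 0 := by
    unfold deepNet
    rw [if_neg (by omega)]
  unfold net gain
  rw [h3, h4]
  linarith

/-! ### Explicit prices for `D = 4K+1`, `T = K-1`, `ρ = 1` -/

/-- `kap` as a function of the depth `j` -/
lemma kap_depth {K j : ℤ} (hK : 0 ≤ K) (hj : 0 ≤ j) :
    kap K (K - 1) 1 (4 * K + 1 - j) = ((min K (j / 2) : ℤ) : ℝ) := by
  unfold kap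
  rw [sum_boole]
  have h1 : (Icc (0:ℤ) (K - 1)).filter (fun g => 4 * K + 1 - j < 2 * K + 1 + 1 + 2 * g)
      = Ico (K - min K (j / 2)) K := by
    ext g
    rw [mem_filter, mem_Icc, mem_Ico]
    omega
  rw [h1, Int.card_Ico]
  have h2 : ((K - (K - min K (j / 2))).toNat : ℤ) = min K (j / 2) := by
    rw [Int.toNat_of_nonneg (by omega)]
    omega
  exact_mod_cast h2

lemma kap_depth_le {K j : ℤ} (hK : 0 ≤ K) (hj : 0 ≤ j) :
    kap K (K - 1) 1 (4 * K + 1 - j) ≤ j / 2 := by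
  rw [kap_depth hK hj]
  have h1 : 2 * min K (j / 2) ≤ j := by omega
  have h2 : (2:ℝ) * ((min K (j / 2) : ℤ) : ℝ) ≤ j := by exact_mod_cast h1
  linarith

lemma kap_depth_le' {K j : ℤ} (hK : 0 ≤ K) (hj : 0 ≤ j) :
    kap K (K - 1) 1 (4 * K + 1 - j) ≤ K := by
  rw [kap_depth hK hj]
  have h1 : min K (j / 2) ≤ K := min_le_left _ _
  exact_mod_cast h1

/-- the crude price at depth `j` -/
lemma cpr_eq (P : WS) {K j : ℤ} (hK : 0 ≤ K) (hj : 0 ≤ j) :
    cpr P (4 * K + 1) K (K - 1) 1 j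
      = ((min K (j / 2) : ℤ) : ℝ) + nn P (2 * max (K - j) 0 + 2) := by
  unfold cpr cprice
  rw [kap_depth hK hj]
  congr 2
  have : 4 * K + 1 - j - (4 * K + 1 - K) = K - j := by ring
  rw [this]
  ring

lemma cpr_le (P : WS) {K j : ℤ} (hK : 0 ≤ K) (hj : 0 ≤ j) :
    cpr P (4 * K + 1) K (K - 1) 1 j ≤ j / 2 + nn P (2 * max (K - j) 0 + 2) := by
  have h := kap_depth_le hK hj
  have h2 := kap_depth hK hj
  rw [cpr_eq P hK hj]
  linarith

/-- the exact price at depth `j` -/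
lemma price_depth (P Q : WS) {K j : ℤ} (hK : 0 ≤ K) (hj : 0 ≤ j) :
    price P Q (4 * K + 1) K (K - 1) 1 (4 * K + 1 - j)
      = ((min K (j / 2) : ℤ) : ℝ) + nn P (2 * max (K - j) 0 + 2)
        - dd P Q (2 * K + 2 + 2 * (4 * K + 1 - j)) := by
  unfold price
  rw [kap_depth hK hj, show 4 * K + 1 - j - (4 * K + 1 - K) = K - j by ring,
    show 2 * max (K - j) 0 + 1 + 1 = 2 * max (K - j) 0 + 2 by ring,
    show 2 * K + 1 + 1 + 2 * (4 * K + 1 - j) = 2 * K + 2 + 2 * (4 * K + 1 - j) by ring]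

/-- the labels of the other side (R3), explicit: depth `j = 2 q + t - D` -/
lemma ex2_eq (P Q : WS) {K t : ℤ} (hK : 0 ≤ K) :
    ex2 P Q (4 * K + 1) K (K - 1) 1 t
      = ∑ q ∈ Q.S, if 1 ≤ 2 * Q.u q + t - (4 * K + 1) ∧ 2 * Q.u q + t - (4 * K + 1) ≤ 4 * K + 1
        then Q.f q * (((min K ((2 * Q.u q + t - (4 * K + 1)) / 2) : ℤ) : ℝ)
          + nn Q (2 * max (K - (2 * Q.u q + t - (4 * K + 1))) 0 + 2)
          - dd Q P (2 * K + 2 + 2 * (2 * (4 * K + 1) - 2 * Q.u q - t))) else 0 := by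
  unfold ex2
  refine sum_congr rfl fun q _ => ?_
  by_cases c : 1 ≤ 2 * Q.u q + t - (4 * K + 1) ∧ 2 * Q.u q + t - (4 * K + 1) ≤ 4 * K + 1
  · rw [if_pos c, if_pos (show 0 ≤ 2 * (4 * K + 1) - 2 * Q.u q - t
        ∧ 2 * (4 * K + 1) - 2 * Q.u q - t < 4 * K + 1 by omega)]
    have h := price_depth Q P (K := K) (j := 2 * Q.u q + t - (4 * K + 1)) hK (by omega)
    rw [show 4 * K + 1 - (2 * Q.u q + t - (4 * K + 1)) = 2 * (4 * K + 1) - 2 * Q.u q - t by ring]
      at h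
    rw [h]
  · rw [if_neg c, if_neg (show ¬ (0 ≤ 2 * (4 * K + 1) - 2 * Q.u q - t
        ∧ 2 * (4 * K + 1) - 2 * Q.u q - t < 4 * K + 1) by omega), mul_zero]

/-- midpoints, crude explicit bound: `(j/2)^+` plus `nn` at depth `j = (t - q + E)/2` -/
lemma mid_le {P Q : WS} {K : ℤ} (hK : 0 ≤ K) (ω : ℤ → ℤ → ℝ) (E t : ℤ) :
    mid P Q (4 * K + 1) E (cpr P (4 * K + 1) K (K - 1) 1) ω t
      ≤ ∑ q ∈ Q.S, (if 0 < (t - Q.u q + E) / 2 then Q.f q * ((if Q.u q < 0 then ω t (-Q.u q) else 1)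
          * (((min K ((t - Q.u q + E) / 2 / 2) : ℤ) : ℝ)
            + nn P (2 * max (K - (t - Q.u q + E) / 2) 0 + 2))) else 0)
        + ∑ a ∈ P.S, (if 0 < (t + P.u a - (4 * K + 1) + E) / 2 then
          P.f a * (((min K ((t + P.u a - (4 * K + 1) + E) / 2 / 2) : ℤ) : ℝ)
            + nn P (2 * max (K - (t + P.u a - (4 * K + 1) + E) / 2) 0 + 2)) else 0) := by
  unfold mid
  refine add_le_add (sum_le_sum fun q hq => ?_) (sum_le_sum fun a ha => ?_)
  · unfold cp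
    by_cases c : 0 < (t - Q.u q + E) / 2
    · rw [if_pos c, if_pos c, cpr_eq P hK c.le]
    · rw [if_neg c, if_neg c]
      simp
  · unfold cp
    by_cases c : 0 < (t + P.u a - (4 * K + 1) + E) / 2
    · rw [if_pos c, if_pos c, cpr_eq P hK c.le]
    · rw [if_neg c, if_neg c]
      simp

end

end MP61673a.Fin
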