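import Pool.Agent.Mu673.OutNet
import Pool.Agent.Mu673.NetsE

set_option autoImplicit false

/-!
Shifted frame: the net of a stray without doubled role (`V < t`), explicit, and the explicit prices
for `D = 4K+1`, `T = K-ρ`.
-/

namespace MP61673a.Fin

open Finset MP61673a.W MP61673a.LiftW MP61673a.Mids
open MP61673a.Lift hiding PP QQ

noncomputable section

/-- the pairs of a stray without doubled role, exact -/
lemma pairNetE_out (P Q : WS) (K T ρ σ : ℤ) {V lo t : ℤ} (hVt : V < t) (hlo : lo ≤ 1)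
    (ht : 1 ≤ t) :
    pairNetE P Q K T ρ σ V lo t
      = (T + 1 + nn P (1 + ρ)) * win P (lo - t) (2 * t)
        + (T + 1 + nn Q (1 + σ)) * win P (lo - t) ((t + 1) / 2)
        + tailR P Q K ρ t + tailL P Q K σ t := by
  unfold pairNetE win tailR tailL
  rw [mul_sum, mul_sum, ← sum_add_distrib, ← sum_add_distrib, ← sum_add_distrib]
  refine sum_congr rfl fun a _ => ?_
  unfold hhE
  rw [if_neg (show ¬ (-V ≤ P.u a ∧ -V ≤ -t) by omega),
    if_neg (show ¬ (-V ≤ P.u a ∧ -V ≤ -t) by omega),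
    if_neg (show ¬ (-V ≤ -t ∧ -V ≤ P.u a) by omega),
    if_neg (show ¬ (-V ≤ -t ∧ -V ≤ P.u a) by omega),
    show P.u a + 2 * -t = P.u a - 2 * t by ring, show -t + 2 * P.u a = 2 * P.u a - t by ring]
  by_cases c0 : lo - t ≤ P.u a
  · rw [if_pos c0]
    by_cases c1 : P.u a - 2 * t < 0
    · by_cases c2 : 2 * P.u a - t < 0
      · rw [if_pos c1, if_pos c2, if_pos (show lo - t ≤ P.u a ∧ P.u a < 2 * t by omega),
          if_pos (show lo - t ≤ P.u a ∧ P.u a < (t + 1) / 2 by omega),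
          if_neg (show ¬ 2 * t ≤ P.u a by omega), if_neg (show ¬ t ≤ 2 * P.u a by omega)]
        ring
      · rw [if_pos c1, if_neg c2, if_pos (show lo - t ≤ P.u a ∧ P.u a < 2 * t by omega),
          if_neg (show ¬ (lo - t ≤ P.u a ∧ P.u a < (t + 1) / 2) by omega),
          if_neg (show ¬ 2 * t ≤ P.u a by omega), if_pos (show t ≤ 2 * P.u a by omega)]
        ring
    · rw [if_neg c1, if_neg (show ¬ 2 * P.u a - t < 0 by omega),
        if_neg (show ¬ (lo - t ≤ P.u a ∧ P.u a < 2 * t) by omega),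
        if_neg (show ¬ (lo - t ≤ P.u a ∧ P.u a < (t + 1) / 2) by omega),
        if_pos (show 2 * t ≤ P.u a by omega), if_pos (show t ≤ 2 * P.u a by omega)]
      ring
  · rw [if_neg c0, if_neg (show ¬ (lo - t ≤ P.u a ∧ P.u a < 2 * t) by omega),
      if_neg (show ¬ (lo - t ≤ P.u a ∧ P.u a < (t + 1) / 2) by omega),
      if_neg (show ¬ 2 * t ≤ P.u a by omega), if_neg (show ¬ t ≤ 2 * P.u a by omega)]
    ring

/-- every exact price is at most the top value minus the deep pairs -/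
lemma priceE_le_top {P Q : WS} (hP : Good P) (D K : ℤ) {T ρ s : ℤ} (hT : -1 ≤ T) :
    priceE P Q D K T ρ s
      ≤ T + 1 + nn P (1 + ρ) - dd P Q (2 * K + 1 + ρ + 2 * s) := by
  unfold priceE
  have h2 := kap_le K ρ s hT
  have h3 := nn_anti hP (show 1 + ρ ≤ 2 * max (s - (D - K)) 0 + 1 + ρ by
    have := le_max_right (s - (D - K)) 0
    omega)
  have h4 := nn_nonneg hP (1 + ρ)
  split_ifs <;> linarith

lemma exA_le {P Q : WS} (hP : Good P) (hQ : Good Q) (D K : ℤ) {T ρ V t : ℤ} (hT : -1 ≤ T)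
    (hVt : V < t) :
    exA Q D V (priceE P Q D K T ρ) t
      ≤ (T + 1 + nn P (1 + ρ)) * win Q (1 - 2 * t) (D + 1 - 2 * t) - saveQ P Q D K ρ t := by
  unfold exA win saveQ
  rw [if_pos hVt, mul_sum, ← sum_sub_distrib]
  refine sum_le_sum fun q hq => ?_
  have h0 := hQ.f_nonneg q hq
  by_cases c : 1 ≤ Q.u q + 2 * t ∧ Q.u q + 2 * t ≤ D
  · rw [if_pos c, if_pos (show 1 - 2 * t ≤ Q.u q ∧ Q.u q < D + 1 - 2 * t by omega), if_pos c]
    have h1 := priceE_le_top (Q := Q) hP D K (ρ := ρ) (s := D - (Q.u q + 2 * t)) hT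
    have := mul_le_mul_of_nonneg_left h1 h0
    linarith
  · rw [if_neg c, if_neg (show ¬ (1 - 2 * t ≤ Q.u q ∧ Q.u q < D + 1 - 2 * t) by omega), if_neg c]
    linarith

/-- NET OF A STRAY WITHOUT DOUBLED ROLE, shifted frame, lower bound -/
theorem net_out_geE {P Q : WS} (hP : Good P) (hQ : Good Q) (ω : ℤ → ℤ → ℝ) (D K : ℤ)
    {T ρ σ V E lo t : ℤ} (hT : -1 ≤ T) (hVt : V < t) (hlo : lo ≤ 1) (ht : 1 ≤ t) :
    (T + 1 + nn P (1 + ρ)) * (win P (lo - t) (2 * t) - win Q (1 - 2 * t) (D + 1 - 2 * t))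
      + (T + 1 + nn Q (1 + σ)) * win P (lo - t) ((t + 1) / 2)
      + tailR P Q K ρ t + tailL P Q K σ t + saveQ P Q D K ρ t
      - exB Q D (priceE Q P D K T σ) t - midE P Q ω D K T ρ E t
      ≤ netE P Q ω D K T ρ σ V E lo t := by
  have h1 := pairNetE_out P Q K T ρ σ hVt hlo ht
  have h2 := exA_le hP hQ D K (T := T) (ρ := ρ) hT hVt
  have h3 : own P Q D K T ρ V t = 0 := by
    unfold own
    rw [if_neg (by omega)]
  have h4 : deepNetE P Q D K T σ V t = 0 := by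
    unfold deepNetE
    rw [if_neg (by omega)]
  unfold netE grossE gainE
  rw [h3, h4]
  linarith

/-! ### Explicit prices for `D = 4K+1`, `T = K-ρ` -/

/-- value of `kap` at depth `j` -/
def kv (K ρ j : ℤ) : ℤ := max 0 (min (K - ρ + 1) ((j - ρ + 1) / 2))

lemma kv_nonneg (K ρ j : ℤ) : 0 ≤ kv K ρ j := le_max_left _ _

lemma kv_le {K ρ j : ℤ} (h : ρ ≤ K + 1) : kv K ρ j ≤ K - ρ + 1 := by
  unfold kv
  omega

/-- twice `kv` is at most `(j-ρ+1)^+` -/
lemma two_kv_le (K ρ j : ℤ) : 2 * kv K ρ j ≤ max 0 (j - ρ + 1) := by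
  unfold kv
  omega

lemma kap_depthE {K ρ j : ℤ} (hρ : ρ ≤ K + 1) :
    kap K (K - ρ) ρ (4 * K + 1 - j) = ((kv K ρ j : ℤ) : ℝ) := by
  unfold kap
  rw [sum_boole]
  have h1 : (Icc (0:ℤ) (K - ρ)).filter (fun g => 4 * K + 1 - j < 2 * K + 1 + ρ + 2 * g)
      = Ico (K - ρ + 1 - kv K ρ j) (K - ρ + 1) := by
    ext g
    unfold kv
    rw [mem_filter, mem_Icc, mem_Ico]
    omega
  rw [h1, Int.card_Ico]
  have h2 : ((K - ρ + 1 - (K - ρ + 1 - kv K ρ j)).toNat : ℤ) = kv K ρ j := by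
    have := kv_nonneg K ρ j
    rw [Int.toNat_of_nonneg (by omega)]
    omega
  exact_mod_cast h2

/-- the crude price at depth `j` -/
lemma cprE_eq (P : WS) {K ρ j : ℤ} (hρ : ρ ≤ K + 1) :
    cprE P (4 * K + 1) K (K - ρ) ρ j
      = ((kv K ρ j : ℤ) : ℝ) + (if ρ ≤ j then nn P (2 * max (K - j) 0 + 1 + ρ) else 0) := by
  unfold cprE cpriceE
  rw [kap_depthE hρ, show 4 * K + 1 - j - (4 * K + 1 - K) = K - j by ring]
  congr 1
  by_cases c : ρ ≤ j
  · rw [if_pos c, if_pos (by omega)]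
  · rw [if_neg c, if_neg (by omega)]

/-- the exact price at depth `j` -/
lemma priceE_depth (P Q : WS) {K ρ j : ℤ} (hρ : ρ ≤ K + 1) :
    priceE P Q (4 * K + 1) K (K - ρ) ρ (4 * K + 1 - j)
      = ((kv K ρ j : ℤ) : ℝ) + (if ρ ≤ j then nn P (2 * max (K - j) 0 + 1 + ρ) else 0)
        - dd P Q (2 * K + 1 + ρ + 2 * (4 * K + 1 - j)) := by
  unfold priceE
  rw [kap_depthE hρ, show 4 * K + 1 - j - (4 * K + 1 - K) = K - j by ring]
  congr 2
  by_cases c : ρ ≤ j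
  · rw [if_pos c, if_pos (by omega)]
  · rw [if_neg c, if_neg (by omega)]

/-- the labels of the other side (R3), explicit: depth `j = 2 q + t - D` -/
lemma exB_eq (P Q : WS) {K ρ t : ℤ} (hρ : ρ ≤ K + 1) :
    exB Q (4 * K + 1) (priceE Q P (4 * K + 1) K (K - ρ) ρ) t
      = ∑ q ∈ Q.S, if 1 ≤ 2 * Q.u q + t - (4 * K + 1) ∧ 2 * Q.u q + t - (4 * K + 1) ≤ 4 * K + 1
        then Q.f q * (((kv K ρ (2 * Q.u q + t - (4 * K + 1)) : ℤ) : ℝ)
          + (if ρ ≤ 2 * Q.u q + t - (4 * K + 1) then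
              nn Q (2 * max (K - (2 * Q.u q + t - (4 * K + 1))) 0 + 1 + ρ) else 0)
          - dd Q P (2 * K + 1 + ρ + 2 * (2 * (4 * K + 1) - 2 * Q.u q - t))) else 0 := by
  unfold exB
  refine sum_congr rfl fun q _ => ?_
  by_cases c : 1 ≤ 2 * Q.u q + t - (4 * K + 1) ∧ 2 * Q.u q + t - (4 * K + 1) ≤ 4 * K + 1
  · rw [if_pos c, if_pos (show 0 ≤ 2 * (4 * K + 1) - 2 * Q.u q - t
        ∧ 2 * (4 * K + 1) - 2 * Q.u q - t < 4 * K + 1 by omega)]
    have h := priceE_depth Q P (K := K) (ρ := ρ) (j := 2 * Q.u q + t - (4 * K + 1)) hρ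
    rw [show 4 * K + 1 - (2 * Q.u q + t - (4 * K + 1)) = 2 * (4 * K + 1) - 2 * Q.u q - t by ring]
      at h
    rw [h]
  · rw [if_neg c, if_neg (show ¬ (0 ≤ 2 * (4 * K + 1) - 2 * Q.u q - t
        ∧ 2 * (4 * K + 1) - 2 * Q.u q - t < 4 * K + 1) by omega), mul_zero]

/-- one midpoint sum (rounding `e`), explicit -/
lemma mid_eqE (P Q : WS) {K ρ : ℤ} (hρ : ρ ≤ K + 1) (ω : ℤ → ℤ → ℝ) (e t : ℤ) :
    mid P Q (4 * K + 1) e (cprE P (4 * K + 1) K (K - ρ) ρ) ω t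
      = ∑ q ∈ Q.S, Q.f q * ((if Q.u q < 0 then ω t (-Q.u q) else 1)
          * (if 0 < (t - Q.u q + e) / 2 then ((kv K ρ ((t - Q.u q + e) / 2) : ℤ) : ℝ)
            + (if ρ ≤ (t - Q.u q + e) / 2 then
                nn P (2 * max (K - (t - Q.u q + e) / 2) 0 + 1 + ρ) else 0) else 0))
        + ∑ a ∈ P.S, P.f a * (if 0 < (t + P.u a - (4 * K + 1) + e) / 2 then
            ((kv K ρ ((t + P.u a - (4 * K + 1) + e) / 2) : ℤ) : ℝ)
            + (if ρ ≤ (t + P.u a - (4 * K + 1) + e) / 2 then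
                nn P (2 * max (K - (t + P.u a - (4 * K + 1) + e) / 2) 0 + 1 + ρ) else 0)
            else 0) := by
  unfold mid
  congr 1
  · refine sum_congr rfl fun q _ => ?_
    unfold cp
    rw [cprE_eq P hρ]
  · refine sum_congr rfl fun a _ => ?_
    unfold cp
    rw [cprE_eq P hρ]

end

end MP61673a.Fin
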