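import Pool.Agent.Mu673.Deep

/-!
The exact K-form of one side: a useless pair `(a1,b1)` (both doubled, label `< 0`) costs only the
tuples `(a,b)` with `u a - 2 u a1 ≥ 1+ρ`, `u b - 2 u b1 ≥ 1` (helper27's pointwise form); all other
tuples are gains. Two pointwise bounds.
-/

namespace MP61673a.W

open Finset

noncomputable section

/-- cost tuples of a pair of doubled positions `x`, `y` -/
def KK (P Q : WS) (K ρ x y : ℤ) : ℝ :=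
  ∑ a ∈ P.S, ∑ b ∈ Q.S, if (1 + ρ ≤ P.u a - 2 * x ∧ 1 ≤ Q.u b - 2 * y) ∧
    2 * K + 1 + ρ + 2 * (x + 2 * y) ≤ P.u a + 2 * Q.u b then P.f a * Q.f b else 0

/-- the other tuples of a pair of doubled positions `x`, `y` -/
def KC (P Q : WS) (K ρ x y : ℤ) : ℝ :=
  ∑ a ∈ P.S, ∑ b ∈ Q.S, if ¬ (1 + ρ ≤ P.u a - 2 * x ∧ 1 ≤ Q.u b - 2 * y) ∧
    2 * K + 1 + ρ + 2 * (x + 2 * y) ≤ P.u a + 2 * Q.u b then P.f a * Q.f b else 0

lemma KK_add_KC (P Q : WS) (K ρ x y : ℤ) :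
    KK P Q K ρ x y + KC P Q K ρ x y = dd P Q (2 * K + 1 + ρ + 2 * (x + 2 * y)) := by
  unfold KK KC dd
  rw [← sum_add_distrib]
  refine sum_congr rfl fun a _ => ?_
  rw [← sum_add_distrib]
  refine sum_congr rfl fun b _ => ?_
  by_cases c : 1 + ρ ≤ P.u a - 2 * x ∧ 1 ≤ Q.u b - 2 * y
  · simp [c]
  · simp [c]

lemma KK_nonneg {P Q : WS} (hP : Good P) (hQ : Good Q) (K ρ x y : ℤ) : 0 ≤ KK P Q K ρ x y :=
  sum_nonneg fun a ha => sum_nonneg fun b hb =>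
    ite_nonneg' (mul_nonneg (hP.f_nonneg a ha) (hQ.f_nonneg b hb))

lemma KC_nonneg {P Q : WS} (hP : Good P) (hQ : Good Q) (K ρ x y : ℤ) : 0 ≤ KC P Q K ρ x y :=
  sum_nonneg fun a ha => sum_nonneg fun b hb =>
    ite_nonneg' (mul_nonneg (hP.f_nonneg a ha) (hQ.f_nonneg b hb))

/-- the two `PP` terms of `side0` are exactly the complementary tuples -/
lemma reg23 (P Q : WS) (K ρ : ℤ) :
    ∑ a ∈ P.S, ∑ a1 ∈ P.S, (if P.u a - 2 * P.u a1 < 1 + ρ then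
          P.f a * P.f1 a1 * nn Q (K + 1 - yy P ρ a a1) else 0)
        + pp P ρ (fun y => nn Q (K + 1 - y) - nn Q (K + 1 - min y K))
      = ∑ a1 ∈ P.S, ∑ b1 ∈ Q.S, P.f1 a1 * Q.f1 b1 * KC P Q K ρ (P.u a1) (Q.u b1) := by
  have h1 : ∑ a1 ∈ P.S, ∑ b1 ∈ Q.S, P.f1 a1 * Q.f1 b1 * KC P Q K ρ (P.u a1) (Q.u b1)
      = ∑ a1 ∈ P.S, ∑ b1 ∈ Q.S, ∑ a ∈ P.S, ∑ b ∈ Q.S,
        if ¬ (1 + ρ ≤ P.u a - 2 * P.u a1 ∧ 1 ≤ Q.u b - 2 * Q.u b1) ∧
          2 * K + 1 + ρ + 2 * (P.u a1 + 2 * Q.u b1) ≤ P.u a + 2 * Q.u b then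
          P.f1 a1 * Q.f1 b1 * (P.f a * Q.f b) else 0 := by
    refine sum_congr rfl fun a1 _ => sum_congr rfl fun b1 _ => ?_
    unfold KC
    rw [mul_sum]
    refine sum_congr rfl fun a _ => ?_
    rw [mul_sum]
    refine sum_congr rfl fun b _ => ?_
    rw [mul_ite']
  have h2 : ∑ a ∈ P.S, ∑ a1 ∈ P.S, (if P.u a - 2 * P.u a1 < 1 + ρ then
          P.f a * P.f1 a1 * nn Q (K + 1 - yy P ρ a a1) else 0)
        + pp P ρ (fun y => nn Q (K + 1 - y) - nn Q (K + 1 - min y K))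
      = ∑ a ∈ P.S, ∑ a1 ∈ P.S, ∑ b ∈ Q.S, ∑ b1 ∈ Q.S,
        if ¬ (1 + ρ ≤ P.u a - 2 * P.u a1 ∧ 1 ≤ Q.u b - 2 * Q.u b1) ∧
          2 * K + 1 + ρ + 2 * (P.u a1 + 2 * Q.u b1) ≤ P.u a + 2 * Q.u b then
          P.f1 a1 * Q.f1 b1 * (P.f a * Q.f b) else 0 := by
    unfold pp
    simp only [← sum_add_distrib]
    refine sum_congr rfl fun a _ => sum_congr rfl fun a1 _ => ?_
    by_cases c : P.u a - 2 * P.u a1 < 1 + ρ
    · rw [if_pos c, if_neg (by omega), add_zero]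
      unfold nn yy
      rw [mul_sum]
      refine sum_congr rfl fun b _ => ?_
      rw [mul_sum]
      refine sum_congr rfl fun b1 _ => ?_
      rw [mul_ite']
      split_ifs <;> first | omega | ring
    · rw [if_neg c, if_pos (by omega), zero_add]
      unfold nn yy
      rw [← sum_sub_distrib, mul_sum]
      refine sum_congr rfl fun b _ => ?_
      rw [← sum_sub_distrib, mul_sum]
      refine sum_congr rfl fun b1 _ => ?_
      split_ifs <;> first | omega | ring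
  rw [h1, h2]
  have h3 : ∀ F : P.ι → P.ι → Q.ι → Q.ι → ℝ,
      ∑ a ∈ P.S, ∑ a1 ∈ P.S, ∑ b ∈ Q.S, ∑ b1 ∈ Q.S, F a a1 b b1
        = ∑ a1 ∈ P.S, ∑ b1 ∈ Q.S, ∑ a ∈ P.S, ∑ b ∈ Q.S, F a a1 b b1 := by
    intro F
    rw [sum_comm]
    refine sum_congr rfl fun a1 _ => ?_
    exact sum3_comm (fun a b b1 => F a a1 b b1)
  exact h3 _

/-- EXACT K-FORM of one side -/
theorem side0_K (P Q : WS) (D K T ρ : ℤ) :
    side0 P Q D K T ρ
      = (T + 1 + nn P (1 + ρ)) * (cc P Q 0 + nn Q (D + 1))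
        - ∑ a ∈ P.S, ∑ b ∈ Q.S, P.f1 a * Q.f1 b * (if P.u a + 2 * Q.u b < 0 then
            KK P Q K ρ (P.u a) (Q.u b) else 0)
        + ∑ a ∈ P.S, ∑ b ∈ Q.S, P.f1 a * Q.f1 b * (if 0 ≤ P.u a + 2 * Q.u b then
            KC P Q K ρ (P.u a) (Q.u b) else 0)
        + ∑ a ∈ P.S, ∑ b ∈ Q.S, (P.f a * Q.f b - P.f1 a * Q.f1 b)
            * (if 0 ≤ P.u a + 2 * Q.u b then
            dd P Q (2 * K + 1 + ρ + 2 * (P.u a + 2 * Q.u b)) else 0)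
        + ∑ s ∈ Ico 0 D, qq Q (D - s) * dd P Q (2 * K + 1 + ρ + 2 * s)
        + deep P Q D K T ρ := by
  rw [side0_eq]
  have h1 := reg23 P Q K ρ
  have h2 : ∑ a ∈ P.S, ∑ b ∈ Q.S, P.f1 a * Q.f1 b * (if P.u a + 2 * Q.u b < 0 then
            dd P Q (2 * K + 1 + ρ + 2 * (P.u a + 2 * Q.u b)) else 0)
      = ∑ a ∈ P.S, ∑ b ∈ Q.S, P.f1 a * Q.f1 b * (if P.u a + 2 * Q.u b < 0 then
            KK P Q K ρ (P.u a) (Q.u b) else 0)
        - ∑ a ∈ P.S, ∑ b ∈ Q.S, P.f1 a * Q.f1 b * (if 0 ≤ P.u a + 2 * Q.u b then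
            KC P Q K ρ (P.u a) (Q.u b) else 0)
        + ∑ a1 ∈ P.S, ∑ b1 ∈ Q.S, P.f1 a1 * Q.f1 b1 * KC P Q K ρ (P.u a1) (Q.u b1) := by
    simp only [← sum_sub_distrib, ← sum_add_distrib]
    refine sum_congr rfl fun a _ => sum_congr rfl fun b _ => ?_
    have h3 := KK_add_KC P Q K ρ (P.u a) (Q.u b)
    by_cases c : P.u a + 2 * Q.u b < 0
    · rw [if_pos c, if_pos c, if_neg (by omega), ← h3]
      ring
    · rw [if_neg c, if_neg c, if_pos (by omega)]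
      ring
  linarith

/-- first pointwise bound -/
lemma KK_le_prod {P Q : WS} (hP : Good P) (hQ : Good Q) (K ρ x y : ℤ) :
    KK P Q K ρ x y ≤ ge P (2 * x + 1 + ρ) * ge Q (2 * y + 1) := by
  unfold KK ge
  rw [sum_mul_sum]
  refine sum_le_sum fun a ha => sum_le_sum fun b hb => ?_
  have h1 := hP.f_nonneg a ha
  have h2 := hQ.f_nonneg b hb
  by_cases c : (1 + ρ ≤ P.u a - 2 * x ∧ 1 ≤ Q.u b - 2 * y) ∧
    2 * K + 1 + ρ + 2 * (x + 2 * y) ≤ P.u a + 2 * Q.u b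
  · rw [if_pos c, if_pos (by omega), if_pos (by omega)]
  · rw [if_neg c]
    exact mul_nonneg (ite_nonneg' h1) (ite_nonneg' h2)

/-- second pointwise bound -/
lemma KK_le_dd {P Q : WS} (hP : Good P) (hQ : Good Q) (K ρ x y : ℤ) :
    KK P Q K ρ x y ≤ dd P Q (2 * K + 1 + ρ + 2 * (x + 2 * y)) := by
  rw [← KK_add_KC]
  have := KC_nonneg hP hQ K ρ x y
  linarith

/-- lower bound of `side0` by the useless pairs: in the fully inclusive frame (`f1 = f`) -/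
theorem side0_ge {P Q : WS} (hP : Good P) (hQ : Good Q) {D K T ρ σ L : ℤ}
    (hK : 0 ≤ K) (hD : D = 2 * T + 2 * K + 1 + ρ + σ) (hσ0 : 0 ≤ σ) (hσ : σ ≤ 2)
    (hPf : ∀ a ∈ P.S, P.f1 a = P.f a) (hQf : ∀ b ∈ Q.S, Q.f1 b = Q.f b)
    (hL : ∀ a ∈ P.S, ∀ b ∈ Q.S, P.f a * Q.f b ≠ 0 → P.u a + 2 * Q.u b ≤ L) :
    ∑ a ∈ P.S, ∑ b ∈ Q.S, P.f a * Q.f b * (if P.u a + 2 * Q.u b < 0 then
        T + 1 + nn P (1 + ρ) - KK P Q K ρ (P.u a) (Q.u b) else 0)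
      + ∑ a ∈ P.S, ∑ b ∈ Q.S, P.f a * Q.f b * (if 0 ≤ P.u a + 2 * Q.u b then
            KC P Q K ρ (P.u a) (Q.u b) else 0)
      + (T + 1 + nn P (1 + ρ)) * nn Q (D + 1)
      + ∑ s ∈ Ico 0 D, qq Q (D - s) * dd P Q (2 * K + 1 + ρ + 2 * s)
      + (nn P (1 + ρ) - ((L:ℝ) - D + σ) / 2) * dd P Q D
      ≤ side0 P Q D K T ρ := by
  rw [side0_K]
  have h1 := deep_ge' (ρ := ρ) hP hQ hK hD hσ0 hσ hL
  have h2 : ∑ a ∈ P.S, ∑ b ∈ Q.S, P.f a * Q.f b * (if P.u a + 2 * Q.u b < 0 then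
        T + 1 + nn P (1 + ρ) - KK P Q K ρ (P.u a) (Q.u b) else 0)
      = (T + 1 + nn P (1 + ρ)) * cc P Q 0
        - ∑ a ∈ P.S, ∑ b ∈ Q.S, P.f1 a * Q.f1 b * (if P.u a + 2 * Q.u b < 0 then
            KK P Q K ρ (P.u a) (Q.u b) else 0) := by
    unfold cc
    rw [mul_sum, ← sum_sub_distrib]
    refine sum_congr rfl fun a ha => ?_
    rw [mul_sum, ← sum_sub_distrib]
    refine sum_congr rfl fun b hb => ?_
    rw [hPf a ha, hQf b hb]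
    split_ifs
    · ring
    · ring
  have h3 : ∑ a ∈ P.S, ∑ b ∈ Q.S, (P.f a * Q.f b - P.f1 a * Q.f1 b)
            * (if 0 ≤ P.u a + 2 * Q.u b then
            dd P Q (2 * K + 1 + ρ + 2 * (P.u a + 2 * Q.u b)) else 0) = 0 := by
    refine sum_eq_zero fun a ha => sum_eq_zero fun b hb => ?_
    rw [hPf a ha, hQf b hb, sub_self, zero_mul]
  have h4 : ∑ a ∈ P.S, ∑ b ∈ Q.S, P.f1 a * Q.f1 b * (if 0 ≤ P.u a + 2 * Q.u b then
            KC P Q K ρ (P.u a) (Q.u b) else 0)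
      = ∑ a ∈ P.S, ∑ b ∈ Q.S, P.f a * Q.f b * (if 0 ≤ P.u a + 2 * Q.u b then
            KC P Q K ρ (P.u a) (Q.u b) else 0) := by
    refine sum_congr rfl fun a ha => sum_congr rfl fun b hb => ?_
    rw [hPf a ha, hQf b hb]
  linarith

/-- (PW) first bound: `T + 1 + N_P - K` for the doubled positions `x`, `y` -/
theorem pw1 {P Q : WS} (hP : Good P) (hQ : Good Q) {D K T ρ : ℤ} {ξL : ℤ → ℝ}
    (hL : Covers Q P D ξL) (hρ : 0 ≤ ρ) (hρD : ρ ≤ D) (x y : ℤ) :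
    (T + 1 + D - ρ - 2 * (mass P * mass Q)) + mass Q * lt P (2 * x + 1 + ρ)
        + ge P (2 * x + 1 + ρ) * lt Q (2 * y + 1)
        + cc Q P 0 + nn P (D + 1) + dd Q P (D - ρ) - ext ξL (D - ρ)
      ≤ T + 1 + nn P (1 + ρ) - KK P Q K ρ x y := by
  have h1 := KK_le_prod hP hQ K ρ x y
  have h2 := nn_ge hL hρ hρD
  have h3 := lt_add_ge P (2 * x + 1 + ρ)
  have h4 := lt_add_ge Q (2 * y + 1)
  rw [show ρ + 1 = 1 + ρ by ring] at h2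
  have h5 : ge P (2 * x + 1 + ρ) * ge Q (2 * y + 1)
      = mass P * mass Q - mass Q * lt P (2 * x + 1 + ρ)
        - ge P (2 * x + 1 + ρ) * lt Q (2 * y + 1) := by
    rw [← h3, ← h4]
    ring
  have h6 : mass Q * mass P = mass P * mass Q := mul_comm _ _
  rw [h6] at h2
  linarith

/-- (PW) second bound -/
theorem pw2 {P Q : WS} (hP : Good P) (hQ : Good Q) {D K T ρ : ℤ} {ξR ξL : ℤ → ℝ}
    (hR : Covers P Q D ξR) (hL : Covers Q P D ξL) (hρ : 0 ≤ ρ) (hρD : ρ ≤ D) {x y : ℤ}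
    (h0 : 0 ≤ 2 * K + 1 + ρ + 2 * (x + 2 * y)) (h1 : 2 * K + 1 + ρ + 2 * (x + 2 * y) ≤ D) :
    (T + 1 + D - ρ - 2 * (mass P * mass Q)) + (2 * K + 1 + ρ + 2 * (x + 2 * y))
        + cc P Q 0 + nn Q (D + 1) - nn Q (D - 2 * K - ρ - 2 * (x + 2 * y))
        - ext ξR (2 * K + 1 + ρ + 2 * (x + 2 * y))
        + cc Q P 0 + nn P (D + 1) + dd Q P (D - ρ) - ext ξL (D - ρ)
      ≤ T + 1 + nn P (1 + ρ) - KK P Q K ρ x y := by
  have e1 := KK_le_dd hP hQ K ρ x y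
  have e2 := nn_ge hL hρ hρD
  have e3 := dd_le hR h0 h1
  rw [show ρ + 1 = 1 + ρ by ring] at e2
  rw [show D + 1 - (2 * K + 1 + ρ + 2 * (x + 2 * y)) = D - 2 * K - ρ - 2 * (x + 2 * y) by ring]
    at e3
  have h6 : mass Q * mass P = mass P * mass Q := mul_comm _ _
  rw [h6] at e2
  push_cast at e3 ⊢
  linarith

end

end MP61673a.W
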