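import Pool.Agent.Mu673.GidW

/-!
Lemma pack for the stray part, in the language of `GidW` (weighted families):
signs, monotonicity, exchange identities (3-fold associativity), coverage facts, pair counting.
-/

namespace MP61673a.W

open Finset

noncomputable section

/-- all weights are nonnegative, the doubled-role weight is at most the weight -/
structure Good (P : WS) : Prop where
  f_nonneg : ∀ a ∈ P.S, 0 ≤ P.f a
  f1_nonneg : ∀ a ∈ P.S, 0 ≤ P.f1 a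
  f1_le : ∀ a ∈ P.S, P.f1 a ≤ P.f a

/-- mass of the elements with position `< x` -/
def lt (P : WS) (x : ℤ) : ℝ := ∑ a ∈ P.S, if P.u a < x then P.f a else 0

/-- mass of the elements with position `≥ x` -/
def ge (P : WS) (x : ℤ) : ℝ := ∑ a ∈ P.S, if x ≤ P.u a then P.f a else 0

lemma lt_add_ge (P : WS) (x : ℤ) : lt P x + ge P x = mass P := by
  unfold lt ge mass
  rw [← sum_add_distrib]
  refine sum_congr rfl fun a _ => ?_
  split_ifs <;> first | omega | ring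

lemma ite_nonneg' {p : Prop} [Decidable p] {x : ℝ} (h : 0 ≤ x) : 0 ≤ (if p then x else 0) := by
  split_ifs
  · exact h
  · exact le_rfl

lemma ite_le_ite {p q : Prop} [Decidable p] [Decidable q] {x : ℝ} (hx : 0 ≤ x) (h : p → q) :
    (if p then x else 0) ≤ (if q then x else 0) := by
  split_ifs with h1 h2
  · exact le_rfl
  · exact absurd (h h1) h2
  · exact hx
  · exact le_rfl

lemma lt_nonneg {P : WS} (hP : Good P) (x : ℤ) : 0 ≤ lt P x :=
  sum_nonneg fun a ha => ite_nonneg' (hP.f_nonneg a ha)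

lemma ge_nonneg {P : WS} (hP : Good P) (x : ℤ) : 0 ≤ ge P x :=
  sum_nonneg fun a ha => ite_nonneg' (hP.f_nonneg a ha)

lemma mass_nonneg {P : WS} (hP : Good P) : 0 ≤ mass P := sum_nonneg fun a ha => hP.f_nonneg a ha

lemma lt_mono {P : WS} (hP : Good P) {x y : ℤ} (h : x ≤ y) : lt P x ≤ lt P y :=
  sum_le_sum fun a ha => ite_le_ite (hP.f_nonneg a ha) (fun h1 => lt_of_lt_of_le h1 h)

lemma ge_anti {P : WS} (hP : Good P) {x y : ℤ} (h : x ≤ y) : ge P y ≤ ge P x :=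
  sum_le_sum fun a ha => ite_le_ite (hP.f_nonneg a ha) (fun h1 => le_trans h h1)

lemma cc_nonneg {P Q : WS} (hP : Good P) (hQ : Good Q) (x : ℤ) : 0 ≤ cc P Q x :=
  sum_nonneg fun a ha => sum_nonneg fun b hb =>
    ite_nonneg' (mul_nonneg (hP.f_nonneg a ha) (hQ.f_nonneg b hb))

lemma dd_nonneg {P Q : WS} (hP : Good P) (hQ : Good Q) (x : ℤ) : 0 ≤ dd P Q x :=
  sum_nonneg fun a ha => sum_nonneg fun b hb =>
    ite_nonneg' (mul_nonneg (hP.f_nonneg a ha) (hQ.f_nonneg b hb))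

lemma rr_nonneg {P Q : WS} (hP : Good P) (hQ : Good Q) (x : ℤ) : 0 ≤ rr P Q x :=
  sum_nonneg fun a ha => sum_nonneg fun b hb =>
    ite_nonneg' (mul_nonneg (hP.f_nonneg a ha) (hQ.f_nonneg b hb))

lemma nn_nonneg {P : WS} (hP : Good P) (x : ℤ) : 0 ≤ nn P x :=
  sum_nonneg fun a ha => sum_nonneg fun b hb =>
    ite_nonneg' (mul_nonneg (hP.f_nonneg a ha) (hP.f1_nonneg b hb))

lemma qq_nonneg {P : WS} (hP : Good P) (x : ℤ) : 0 ≤ qq P x :=
  sum_nonneg fun a ha => sum_nonneg fun b hb =>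
    ite_nonneg' (mul_nonneg (hP.f_nonneg a ha) (hP.f1_nonneg b hb))

lemma cc_mono {P Q : WS} (hP : Good P) (hQ : Good Q) {x y : ℤ} (h : x ≤ y) :
    cc P Q x ≤ cc P Q y :=
  sum_le_sum fun a ha => sum_le_sum fun b hb =>
    ite_le_ite (mul_nonneg (hP.f_nonneg a ha) (hQ.f_nonneg b hb)) (fun h1 => lt_of_lt_of_le h1 h)

lemma dd_anti {P Q : WS} (hP : Good P) (hQ : Good Q) {x y : ℤ} (h : x ≤ y) :
    dd P Q y ≤ dd P Q x :=
  sum_le_sum fun a ha => sum_le_sum fun b hb =>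
    ite_le_ite (mul_nonneg (hP.f_nonneg a ha) (hQ.f_nonneg b hb)) (fun h1 => le_trans h h1)

lemma nn_anti {P : WS} (hP : Good P) {x y : ℤ} (h : x ≤ y) : nn P y ≤ nn P x :=
  sum_le_sum fun a ha => sum_le_sum fun b hb =>
    ite_le_ite (mul_nonneg (hP.f_nonneg a ha) (hP.f1_nonneg b hb)) (fun h1 => le_trans h h1)

lemma dd_le_mass {P Q : WS} (hP : Good P) (hQ : Good Q) (x : ℤ) :
    dd P Q x ≤ mass P * mass Q := by
  have h1 := cc_add_dd P Q x
  have h2 := cc_nonneg hP hQ x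
  linarith

lemma cc_le_mass {P Q : WS} (hP : Good P) (hQ : Good Q) (x : ℤ) :
    cc P Q x ≤ mass P * mass Q := by
  have h1 := cc_add_dd P Q x
  have h2 := dd_nonneg hP hQ x
  linarith

/-- EXCHANGE 1 (3-fold associativity), exact, arbitrary weights and positions -/
lemma exch1 (P Q : WS) (c : ℤ) :
    ∑ p ∈ P.S, P.f1 p * dd P Q (c + 2 * P.u p) = ∑ q ∈ Q.S, Q.f q * nn P (c - 2 * Q.u q) := by
  unfold dd nn
  have h1 : ∀ p ∈ P.S, P.f1 p * (∑ a ∈ P.S, ∑ b ∈ Q.S,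
        if c + 2 * P.u p ≤ P.u a + 2 * Q.u b then P.f a * Q.f b else 0)
      = ∑ a ∈ P.S, ∑ b ∈ Q.S,
        if c - 2 * Q.u b ≤ P.u a - 2 * P.u p then Q.f b * (P.f a * P.f1 p) else 0 := by
    intro p _
    rw [mul_sum]
    refine sum_congr rfl fun a _ => ?_
    rw [mul_sum]
    refine sum_congr rfl fun b _ => ?_
    rw [mul_ite']
    split_ifs <;> first | omega | ring
  have h2 : ∀ b ∈ Q.S, Q.f b * (∑ a ∈ P.S, ∑ p ∈ P.S,
        if c - 2 * Q.u b ≤ P.u a - 2 * P.u p then P.f a * P.f1 p else 0)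
      = ∑ p ∈ P.S, ∑ a ∈ P.S,
        if c - 2 * Q.u b ≤ P.u a - 2 * P.u p then Q.f b * (P.f a * P.f1 p) else 0 := by
    intro b _
    rw [sum_comm, mul_sum]
    refine sum_congr rfl fun p _ => ?_
    rw [mul_sum]
    refine sum_congr rfl fun a _ => ?_
    rw [mul_ite']
  rw [sum_congr rfl h1, sum_congr rfl h2]
  exact sum3_comm (fun p a b =>
    if c - 2 * Q.u b ≤ P.u a - 2 * P.u p then Q.f b * (P.f a * P.f1 p) else 0)

/-- EXCHANGE 2: the same for the labels `u q + 2 u p`; `(v+1)/2 = ⌈v/2⌉` -/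
lemma exch2 (P Q : WS) (c : ℤ) :
    ∑ p ∈ P.S, P.f1 p * dd Q P (c + 4 * P.u p)
      = ∑ q ∈ Q.S, Q.f q * nn P ((c - Q.u q + 1) / 2) := by
  unfold dd nn
  have h1 : ∀ p ∈ P.S, P.f1 p * (∑ b ∈ Q.S, ∑ a ∈ P.S,
        if c + 4 * P.u p ≤ Q.u b + 2 * P.u a then Q.f b * P.f a else 0)
      = ∑ a ∈ P.S, ∑ b ∈ Q.S,
        if (c - Q.u b + 1) / 2 ≤ P.u a - 2 * P.u p then Q.f b * (P.f a * P.f1 p) else 0 := by
    intro p _
    rw [sum_comm, mul_sum]
    refine sum_congr rfl fun a _ => ?_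
    rw [mul_sum]
    refine sum_congr rfl fun b _ => ?_
    rw [mul_ite']
    split_ifs <;> first | omega | ring
  have h2 : ∀ b ∈ Q.S, Q.f b * (∑ a ∈ P.S, ∑ p ∈ P.S,
        if (c - Q.u b + 1) / 2 ≤ P.u a - 2 * P.u p then P.f a * P.f1 p else 0)
      = ∑ p ∈ P.S, ∑ a ∈ P.S,
        if (c - Q.u b + 1) / 2 ≤ P.u a - 2 * P.u p then Q.f b * (P.f a * P.f1 p) else 0 := by
    intro b _
    rw [sum_comm, mul_sum]
    refine sum_congr rfl fun p _ => ?_
    rw [mul_sum]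
    refine sum_congr rfl fun a _ => ?_
    rw [mul_ite']
  rw [sum_congr rfl h1, sum_congr rfl h2]
  exact sum3_comm (fun p a b =>
    if (c - Q.u b + 1) / 2 ≤ P.u a - 2 * P.u p then Q.f b * (P.f a * P.f1 p) else 0)

/-- per-element double sums: `Σ_p f1 p · #{a : u a - 2 u p ≥ j}` is `nn` -/
lemma nn_eq_sum (P : WS) (j : ℤ) :
    nn P j = ∑ p ∈ P.S, P.f1 p * ge P (j + 2 * P.u p) := by
  unfold nn ge
  rw [sum_comm]
  refine sum_congr rfl fun p _ => ?_
  rw [mul_sum]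
  refine sum_congr rfl fun a _ => ?_
  rw [mul_ite']
  split_ifs <;> first | omega | ring

/-- `dd` as a sum over the doubled element -/
lemma dd_eq_sum (P Q : WS) (x : ℤ) :
    dd P Q x = ∑ b ∈ Q.S, Q.f b * ge P (x - 2 * Q.u b) := by
  unfold dd ge
  rw [sum_comm]
  refine sum_congr rfl fun p _ => ?_
  rw [mul_sum]
  refine sum_congr rfl fun a _ => ?_
  rw [mul_ite']
  split_ifs <;> first | omega | ring

/-! ### coverage -/

/-- external labels below `x` -/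
def ext (ξ : ℤ → ℝ) (x : ℤ) : ℝ := ∑ s ∈ Ico 0 x, ξ s

lemma ext_zero (ξ : ℤ → ℝ) : ext ξ 0 = 0 := by
  unfold ext
  simp

lemma ext_succ (ξ : ℤ → ℝ) {x : ℤ} (hx : 0 ≤ x) : ext ξ (x + 1) = ext ξ x + ξ x := by
  unfold ext
  have h : Ico (0:ℤ) (x + 1) = insert x (Ico 0 x) := by
    ext y
    simp only [mem_insert, mem_Ico]
    omega
  rw [h, sum_insert (by simp)]
  ring

/-- coverage of the labels `0 ≤ s < D`; `ξ s` = external representations of `s` -/
def Covers (P Q : WS) (D : ℤ) (ξ : ℤ → ℝ) : Prop :=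
  ∀ s, 0 ≤ s → s < D → 1 ≤ rr P Q s + qq Q (D - s) + ξ s

/-- the waste function, with external labels -/
def wx (P Q : WS) (D : ℤ) (ξ : ℤ → ℝ) (x : ℤ) : ℝ := ww P Q D x + ext ξ x

lemma wx_mono_aux {P Q : WS} {D : ℤ} {ξ : ℤ → ℝ} (h : Covers P Q D ξ) {x : ℤ} (hx : 0 ≤ x) :
    ∀ n : ℕ, x + n ≤ D → wx P Q D ξ x ≤ wx P Q D ξ (x + n) := by
  intro n
  induction n with
  | zero => intro _; simp
  | succ n ih =>
    intro hn
    have h1 := ih (by push_cast at hn; linarith)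
    have h2 := ww_succ P Q D (x + n)
    have h3 := h (x + n) (by positivity) (by push_cast at hn; linarith)
    have h4 := ext_succ ξ (x := x + n) (by positivity)
    push_cast
    unfold wx at *
    rw [← add_assoc]
    linarith

lemma wx_mono {P Q : WS} {D : ℤ} {ξ : ℤ → ℝ} (h : Covers P Q D ξ) {x y : ℤ}
    (hx : 0 ≤ x) (hxy : x ≤ y) (hy : y ≤ D) : wx P Q D ξ x ≤ wx P Q D ξ y := by
  have h1 := wx_mono_aux h hx (y - x).toNat (by rw [Int.toNat_of_nonneg (by linarith)]; linarith)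
  rw [Int.toNat_of_nonneg (by linarith)] at h1
  have e : x + (y - x) = y := by ring
  rwa [e] at h1

lemma wx_zero (P Q : WS) (D : ℤ) (ξ : ℤ → ℝ) :
    wx P Q D ξ 0 = cc P Q 0 + nn Q (D + 1) := by
  unfold wx ww
  rw [ext_zero, sub_zero]
  simp

/-- (F) exact: `F(x) = m - x - W(x) + N(D+1-x) + X(x)` -/
lemma dd_eq (P Q : WS) (D : ℤ) (ξ : ℤ → ℝ) (x : ℤ) :
    dd P Q x = mass P * mass Q - x - wx P Q D ξ x + nn Q (D + 1 - x) + ext ξ x := by
  have h1 := cc_add_dd P Q x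
  unfold wx ww
  linarith

/-- (F) bound by coverage -/
lemma dd_le {P Q : WS} {D : ℤ} {ξ : ℤ → ℝ} (h : Covers P Q D ξ) {x : ℤ} (hx : 0 ≤ x)
    (hy : x ≤ D) :
    dd P Q x ≤ mass P * mass Q - x - cc P Q 0 - nn Q (D + 1) + nn Q (D + 1 - x) + ext ξ x := by
  have h1 := dd_eq P Q D ξ x
  have h2 := wx_mono h le_rfl hx hy
  rw [wx_zero] at h2
  linarith

/-- (N) exact: number of near pairs at threshold `j + 1` -/
lemma nn_eq (P Q : WS) (D : ℤ) (ξ : ℤ → ℝ) (j : ℤ) :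
    nn Q (j + 1) = D - j - mass P * mass Q + dd P Q (D - j) + wx P Q D ξ (D - j)
      - ext ξ (D - j) := by
  have h1 := dd_eq P Q D ξ (D - j)
  rw [show D + 1 - (D - j) = j + 1 by ring] at h1
  push_cast at h1
  linarith

/-- (N) lower bound by coverage -/
lemma nn_ge {P Q : WS} {D : ℤ} {ξ : ℤ → ℝ} (h : Covers P Q D ξ) {j : ℤ} (hj : 0 ≤ j)
    (hjD : j ≤ D) :
    D - j - mass P * mass Q + dd P Q (D - j) + cc P Q 0 + nn Q (D + 1) - ext ξ (D - j)
      ≤ nn Q (j + 1) := by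
  have h1 := nn_eq P Q D ξ j
  have h2 := wx_mono h le_rfl (show 0 ≤ D - j by linarith) (by linarith)
  rw [wx_zero] at h2
  linarith

/-- labels below `x` by masses, nonnegative positions; `(x+1)/2 = ⌈x/2⌉` -/
lemma cc_le_lt {P Q : WS} (hP : Good P) (hQ : Good Q) (hP0 : ∀ a ∈ P.S, 0 ≤ P.u a)
    (hQ0 : ∀ b ∈ Q.S, 0 ≤ Q.u b) (x : ℤ) : cc P Q x ≤ lt P x * lt Q ((x + 1) / 2) := by
  unfold cc lt
  rw [sum_mul_sum]
  refine sum_le_sum fun a ha => sum_le_sum fun b hb => ?_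
  have h1 := hP0 a ha
  have h2 := hQ0 b hb
  have h3 := hP.f_nonneg a ha
  have h4 := hQ.f_nonneg b hb
  have h5 := mul_nonneg h3 h4
  by_cases c : P.u a + 2 * Q.u b < x
  · rw [if_pos c, if_pos (by omega), if_pos (by omega)]
  · rw [if_neg c]
    exact mul_nonneg (ite_nonneg' h3) (ite_nonneg' h4)

/-- labels below `x` by masses, arbitrary positions `≥ -z`: the doubled element is `< (x+z)/2` -/
lemma cc_le_lt' {P Q : WS} (hP : Good P) (hQ : Good Q) {z : ℤ} (hP0 : ∀ a ∈ P.S, -z ≤ P.u a)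
    (x : ℤ) : cc P Q x ≤ mass P * lt Q ((x + z + 1) / 2) := by
  unfold cc lt mass
  rw [sum_mul_sum]
  refine sum_le_sum fun a ha => sum_le_sum fun b hb => ?_
  have h1 := hP0 a ha
  have h3 := hP.f_nonneg a ha
  have h4 := hQ.f_nonneg b hb
  by_cases c : P.u a + 2 * Q.u b < x
  · rw [if_pos c, if_pos (by omega)]
  · rw [if_neg c]
    exact mul_nonneg h3 (ite_nonneg' h4)

/-- pair counting: weight of `{(p,a) : u p < t, u a - 2 u p ≥ 1}` for nonnegative positions: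
twice it is at most `A (2 l - A)`, `A = P(<t)`, `l = P` -/
lemma pair_bound {P : WS} (hP : Good P) (hP0 : ∀ a ∈ P.S, 0 ≤ P.u a) (t : ℤ) :
    2 * (∑ a ∈ P.S, ∑ p ∈ P.S,
        if P.u p < t ∧ 1 ≤ P.u a - 2 * P.u p then P.f a * P.f1 p else 0)
      ≤ lt P t * (2 * mass P - lt P t) := by
  have h0 : (∑ a ∈ P.S, ∑ p ∈ P.S,
        if P.u p < t ∧ 1 ≤ P.u a - 2 * P.u p then P.f a * P.f1 p else 0)
      ≤ ∑ a ∈ P.S, ∑ p ∈ P.S,
        if P.u p < t ∧ 1 ≤ P.u a - 2 * P.u p then P.f a * P.f p else 0 := by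
    refine sum_le_sum fun a ha => sum_le_sum fun p hp => ?_
    split_ifs
    · exact mul_le_mul_of_nonneg_left (hP.f1_le p hp) (hP.f_nonneg a ha)
    · exact le_rfl
  have h1 : lt P t * (2 * mass P - lt P t)
      = ∑ a ∈ P.S, ∑ p ∈ P.S, (if P.u p < t then P.f p else 0)
          * (2 * P.f a - (if P.u a < t then P.f a else 0)) := by
    unfold lt mass
    rw [mul_sum, ← sum_sub_distrib, sum_mul_sum, sum_comm]
  have h6 : (∑ a ∈ P.S, ∑ p ∈ P.S,
        if P.u p < t ∧ 1 ≤ P.u a - 2 * P.u p ∧ P.u a < t then P.f a * P.f p else 0)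
      = ∑ a ∈ P.S, ∑ p ∈ P.S,
        if P.u a < t ∧ 1 ≤ P.u p - 2 * P.u a ∧ P.u p < t then P.f p * P.f a else 0 := sum_comm
  have h3 : (∑ a ∈ P.S, ∑ p ∈ P.S,
        if P.u p < t ∧ 1 ≤ P.u a - 2 * P.u p ∧ P.u a < t then P.f a * P.f p else 0)
      + (∑ a ∈ P.S, ∑ p ∈ P.S,
        if P.u a < t ∧ 1 ≤ P.u p - 2 * P.u a ∧ P.u p < t then P.f p * P.f a else 0)
      ≤ ∑ a ∈ P.S, ∑ p ∈ P.S, if P.u p < t ∧ P.u a < t then P.f a * P.f p else 0 := by
    rw [← sum_add_distrib]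
    refine sum_le_sum fun a ha => ?_
    rw [← sum_add_distrib]
    refine sum_le_sum fun p hp => ?_
    have ha0 := hP0 a ha
    have hp0 := hP0 p hp
    have hw := mul_nonneg (hP.f_nonneg a ha) (hP.f_nonneg p hp)
    by_cases c : P.u p < t ∧ P.u a < t
    · rw [if_pos c]
      by_cases c1 : P.u p < t ∧ 1 ≤ P.u a - 2 * P.u p ∧ P.u a < t
      · rw [if_pos c1, if_neg (by omega)]
        linarith
      · rw [if_neg c1]
        split_ifs
        · linarith [mul_comm (P.f p) (P.f a)]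
        · linarith
    · rw [if_neg c, if_neg (by omega), if_neg (by omega)]
      linarith
  have h4 : (∑ a ∈ P.S, ∑ p ∈ P.S,
        if P.u p < t ∧ 1 ≤ P.u a - 2 * P.u p then P.f a * P.f p else 0)
      ≤ (∑ a ∈ P.S, ∑ p ∈ P.S,
        if P.u p < t ∧ 1 ≤ P.u a - 2 * P.u p ∧ P.u a < t then P.f a * P.f p else 0)
        + ∑ a ∈ P.S, ∑ p ∈ P.S, if P.u p < t ∧ ¬ P.u a < t then P.f a * P.f p else 0 := by
    rw [← sum_add_distrib]
    refine sum_le_sum fun a ha => ?_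
    rw [← sum_add_distrib]
    refine sum_le_sum fun p hp => ?_
    have hw := mul_nonneg (hP.f_nonneg a ha) (hP.f_nonneg p hp)
    split_ifs <;> first | omega | linarith
  have h5 : (∑ a ∈ P.S, ∑ p ∈ P.S, if P.u p < t ∧ P.u a < t then P.f a * P.f p else 0)
      + 2 * ∑ a ∈ P.S, ∑ p ∈ P.S, (if P.u p < t ∧ ¬ P.u a < t then P.f a * P.f p else 0)
      = ∑ a ∈ P.S, ∑ p ∈ P.S, (if P.u p < t then P.f p else 0)
          * (2 * P.f a - (if P.u a < t then P.f a else 0)) := by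
    rw [mul_sum, ← sum_add_distrib]
    refine sum_congr rfl fun a _ => ?_
    rw [mul_sum, ← sum_add_distrib]
    refine sum_congr rfl fun p _ => ?_
    split_ifs <;> first | omega | ring
  rw [h1]
  linarith

/-- prices: `#{g in [0,T] : s < 2K+1+ρ+2g}` is at most `T + 1` -/
lemma kap_le (K ρ s : ℤ) {T : ℤ} (hT : -1 ≤ T) : kap K T ρ s ≤ T + 1 := by
  unfold kap
  have h : ∑ g ∈ Icc 0 T, (if s < 2 * K + 1 + ρ + 2 * g then (1:ℝ) else 0)
      ≤ ∑ g ∈ Icc 0 T, (1:ℝ) := sum_le_sum fun g _ => by split_ifs <;> norm_num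
  refine h.trans ?_
  rw [sum_const, Int.card_Icc, nsmul_eq_mul, mul_one, sub_zero]
  have h3 : (((T + 1 : ℤ).toNat : ℕ) : ℤ) = T + 1 := Int.toNat_of_nonneg (by omega)
  have h4 : (((T + 1 : ℤ).toNat : ℕ) : ℝ) = T + 1 := by exact_mod_cast h3
  rw [h4]

lemma kap_nonneg (K T ρ s : ℤ) : 0 ≤ kap K T ρ s :=
  sum_nonneg fun _ _ => by split_ifs <;> norm_num

/-- full price -/
lemma price_le {P Q : WS} (hP : Good P) (hQ : Good Q) {D K T ρ s : ℤ} (hT : -1 ≤ T) :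
    price P Q D K T ρ s ≤ T + 1 + nn P (1 + ρ) := by
  unfold price
  have h1 := kap_le K ρ s hT
  have h2 := dd_nonneg hP hQ (2 * K + 1 + ρ + 2 * s)
  have h3 := nn_anti hP (show 1 + ρ ≤ 2 * max (s - (D - K)) 0 + 1 + ρ by
    have := le_max_right (s - (D - K)) 0
    omega)
  linarith

/-- waste against external labels: coverage and nonnegative prices -/
lemma waste_ge {P Q : WS} {D K T ρ : ℤ} {ξ : ℤ → ℝ} (h : Covers P Q D ξ)
    (hp : ∀ s, 0 ≤ s → s < D → 0 ≤ price P Q D K T ρ s) :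
    - ∑ s ∈ Ico 0 D, ξ s * price P Q D K T ρ s ≤ waste P Q D K T ρ := by
  unfold waste
  rw [← sum_neg_distrib]
  refine sum_le_sum fun s hs => ?_
  rw [mem_Ico] at hs
  have h1 := h s hs.1 hs.2
  have h2 := hp s hs.1 hs.2
  nlinarith

end

end MP61673a.W
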