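import Pool.Agent.Mu673.PriceRamp
import Pool.Agent.Mu673.PriceFin
import Pool.Agent.Mu673.FarTabCert

/-!
PRICE FACT, Lean end: integer data (segments, labels, linear facts = class shares and far share, pair
facts = negated price facts for aligned truncated windows) ==> `PxCert n A` for every maximal `A`
with `|A|^2 < n`, all `n ≥ n0`.
-/

set_option autoImplicit false

namespace MP61673a.KC

open Finset MP61673a.Kink MP61673a.Sos MP61673a.Bridge
open MP61673a.PF (rUp rDn Ramps bW sW Side)
open MP61673a.TP (CertifiedC pos tp shift_bounds)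
open MP61673a.Lift (shift IsMaximalThreeFree)
open MP61673a.Fin (PxCert)

noncomputable section

/-! ### Kernel functions -/

/-- the class `c` covers the unit interval `[k, k+1]` of the side `s` (1 left, 0 right), parity `e` -/
def cvK (l : List Seg) (sides : List ℕ) (s e k c : ℕ) : Bool :=
  and (and (Nat.beq (cond (Nat.ble 1 (nth 0 sides c)) 1 0) s)
      (Nat.beq (cond (Nat.beq (sgA l c).par 1) 1 0) e))
    (and (Nat.ble (sgA l c).lo k) (Nat.ble (Nat.add k 2) (Nat.add (sgA l c).lo (sgA l c).len)))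

/-- some class covers -/
def exK (l : List Seg) (sides : List ℕ) (s e k : ℕ) : Bool :=
  not (allN (nS l) (fun c => not (cvK l sides s e k c)))

/-- the classes cover both sides in both parities -/
def chkCov (d : DatS) (sides : List ℕ) : Bool :=
  allN d.N (fun k => and
    (or (Nat.ble d.N (Nat.mul 2 k)) (and (exK d.segs sides 1 0 k) (exK d.segs sides 1 1 k)))
    (or (Nat.ble (Nat.mul 2 (Nat.succ k)) d.N)
      (and (exK d.segs sides 0 0 k) (exK d.segs sides 0 1 k))))

/-- node of the far share -/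
def farK (N af p : ℕ) : Bool := or (Nat.ble p af) (Nat.ble N (Nat.add p af))

/-- parity of a class fact -/
def mtK (kd e : ℕ) : Bool := cond (Nat.beq kd 1) (Nat.beq e 1) (not (Nat.beq e 1))

/-- one linear fact: `kd = 0, 1` class share of this parity, `2` far share; values times `den` -/
def chkJf (d : DatS) (af den kd : ℕ) (f : FnS) : Bool :=
  allN (vN d.segs) (fun v => cond (Nat.ble 2 kd)
    (and (Nat.beq (Nat.mul 5 (nth 0 f.lp v)) (cond (farK d.N af (locP d.segs v)) 0 den))
      (Nat.beq (Nat.mul 5 (nth 0 f.ln v)) (cond (farK d.N af (locP d.segs v)) (Nat.mul 4 den) 0)))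
    (and (Nat.beq (Nat.mul 3 (nth 0 f.lp v)) (cond (mtK kd (locE d.segs v)) (Nat.mul 2 den) 0))
      (Nat.beq (Nat.mul 3 (nth 0 f.ln v)) (cond (mtK kd (locE d.segs v)) 0 den))))

/-- all linear facts -/
def chkJs (d : DatS) (af den : ℕ) (kd : List ℕ) (J : List FnS) : Bool :=
  and (and (Nat.ble (Nat.mul 47 af) (Nat.mul 12 d.N))
      (Nat.ble (Nat.mul 47 (Nat.succ af)) (Nat.mul 13 d.N)))
    (allN (sumL (fun _ => 1) J) (fun q => chkJf d af den (nth 0 kd q) (nth ⟨[], [], [], 0⟩ J q)))

/-! ### Coverage by classes -/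

lemma exK_imp {l : List Seg} {sides : List ℕ} {s e k : ℕ} (h : exK l sides s e k = true) :
    ∃ c, cvK l sides s e k c = true := by
  by_contra hc
  push Not at hc
  unfold exK at h
  have h2 : allN (nS l) (fun c => not (cvK l sides s e k c)) = true := by
    rw [allN_iff]
    intro c _
    rw [Bool.eq_false_iff.2 (hc c)]
    rfl
  rw [h2] at h
  exact absurd h (by decide)

lemma cvK_imp {l : List Seg} {sides : List ℕ} {s e : Bool} {k c : ℕ}
    (h : cvK l sides (cond s 1 0) (cond e 1 0) k c = true) :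
    sideC sides c = s ∧ parC l c = e ∧ loC l c ≤ k ∧ (k:ℤ) + 1 ≤ hiC l c := by
  unfold cvK at h
  simp only [Bool.and_eq_true] at h
  obtain ⟨⟨h1, h2⟩, h3, h4⟩ := h
  have h1' := Nat.eq_of_beq_eq_true h1
  have h2' := Nat.eq_of_beq_eq_true h2
  have h3' : (sgA l c).lo ≤ k := Nat.le_of_ble_eq_true h3
  have h4' : k + 2 ≤ (sgA l c).lo + (sgA l c).len := Nat.le_of_ble_eq_true h4
  refine ⟨?_, ?_, ?_, ?_⟩
  · unfold sideC
    cases hb : Nat.ble 1 (nth 0 sides c) <;> rw [hb] at h1' <;> cases s <;> simp at h1' <;> rfl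
  · unfold parC
    cases hb : Nat.beq (sgA l c).par 1 with
    | false =>
      rw [hb] at h2'
      have hne : (sgA l c).par ≠ 1 := by
        intro h
        rw [h] at hb
        exact absurd hb (by decide)
      cases e
      · exact decide_eq_false hne
      · simp at h2'
    | true =>
      rw [hb] at h2'
      have he : (sgA l c).par = 1 := Nat.eq_of_beq_eq_true hb
      cases e
      · simp at h2'
      · exact decide_eq_true he
  · unfold loC
    exact_mod_cast h3'
  · unfold hiC
    omega

lemma cov_imp {d : DatS} {sides : List ℕ} (hN : 0 < d.N) (h : chkCov d sides = true) :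
    ∀ (s e : Bool) (y : ℝ), 0 < y → y < 1 → (s = true → y ≤ 1 / 2) → (s = false → 1 / 2 ≤ y) →
      ∃ c : ℕ, sideC sides c = s ∧ parC d.segs c = e ∧ (loC d.segs c : ℝ) ≤ d.N * y ∧
        d.N * y ≤ (hiC d.segs c : ℝ) := by
  intro s e y h0 h1 hs1 hs0
  have hN' : (0:ℝ) < d.N := by exact_mod_cast hN
  have fin : ∀ k : ℕ, (k:ℝ) ≤ d.N * y → d.N * y ≤ k + 1 →
      exK d.segs sides (cond s 1 0) (cond e 1 0) k = true →
      ∃ c : ℕ, sideC sides c = s ∧ parC d.segs c = e ∧ (loC d.segs c : ℝ) ≤ d.N * y ∧
        d.N * y ≤ (hiC d.segs c : ℝ) := by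
    intro k k0 k1 hk
    obtain ⟨c, hc⟩ := exK_imp hk
    obtain ⟨c1, c2, c3, c4⟩ := cvK_imp hc
    refine ⟨c, c1, c2, ?_, ?_⟩
    · have : (loC d.segs c : ℝ) ≤ k := by exact_mod_cast c3
      linarith
    · have : (k:ℝ) + 1 ≤ (hiC d.segs c : ℝ) := by exact_mod_cast c4
      linarith
  cases s with
  | true =>
    have hy := hs1 rfl
    have hNy : 0 < d.N * y := mul_pos hN' h0
    obtain ⟨m, hm⟩ : ∃ m : ℕ, ⌈(d.N:ℝ) * y⌉₊ = m + 1 := by
      have : 0 < ⌈(d.N:ℝ) * y⌉₊ := Nat.ceil_pos.2 hNy
      exact ⟨⌈(d.N:ℝ) * y⌉₊ - 1, by omega⟩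
    have e1 : (d.N:ℝ) * y ≤ m + 1 := by
      have := Nat.le_ceil ((d.N:ℝ) * y)
      rw [hm] at this
      push_cast at this
      exact this
    have e2 : (m:ℝ) < d.N * y := by
      have : m < ⌈(d.N:ℝ) * y⌉₊ := by omega
      exact Nat.lt_ceil.1 this
    have e3 : 2 * m < d.N := by
      have : (2:ℝ) * m < d.N := by nlinarith
      exact_mod_cast this
    have hk := allN_imp h m (by omega)
    rw [Bool.and_eq_true, Bool.or_eq_true] at hk
    have hk1 := hk.1.resolve_left (by
      intro h2
      have : d.N ≤ 2 * m := Nat.le_of_ble_eq_true h2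
      omega)
    rw [Bool.and_eq_true] at hk1
    refine fin m e2.le e1 ?_
    cases e
    · exact hk1.1
    · exact hk1.2
  | false =>
    have hy := hs0 rfl
    have hNy : 0 ≤ d.N * y := (mul_pos hN' h0).le
    set m := ⌊(d.N:ℝ) * y⌋₊ with hm
    have e1 : (m:ℝ) ≤ d.N * y := Nat.floor_le hNy
    have e2 : (d.N:ℝ) * y < m + 1 := Nat.lt_floor_add_one _
    have e3 : m < d.N := by
      have : (m:ℝ) < d.N := by nlinarith
      exact_mod_cast this
    have e4 : d.N < 2 * (m + 1) := by
      have : (d.N:ℝ) < 2 * (m + 1) := by nlinarith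
      exact_mod_cast this
    have hk := allN_imp h m e3
    rw [Bool.and_eq_true, Bool.or_eq_true, Bool.or_eq_true] at hk
    have hk1 := hk.2.resolve_left (by
      intro h2
      have : 2 * (m + 1) ≤ d.N := Nat.le_of_ble_eq_true h2
      omega)
    rw [Bool.and_eq_true] at hk1
    refine fin m e1 e2.le ?_
    cases e
    · exact hk1.1
    · exact hk1.2

/-! ### The linear facts -/

/-- node values of the linear fact `q` -/
def lJ (d : DatS) (J : List FnS) (den : ℕ) (q : Fin J.length) (z : ℕ × ℤ) : ℝ :=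
  (((nth 0 (J.get q).lp (vO d.segs z) : ℕ) : ℝ) - ((nth 0 (J.get q).ln (vO d.segs z) : ℕ) : ℝ))
    / den

lemma kC_congr {N : ℕ} {lo hi : ℕ → ℤ} {f g : ℕ × ℤ → ℝ} {z : ℕ × ℝ}
    (h : ∀ i ∈ ns lo hi z.1, f (z.1, i) = g (z.1, i)) : kC N lo hi f z = kC N lo hi g z := by
  unfold kC
  exact sum_congr rfl fun i hi => by rw [h i hi]

/-- trapezoid of the far share -/
def trp (a b : ℤ) (i : ℤ) : ℝ := (1 - clp a 1 i) + clp b 1 i

lemma trp_pl (a b : ℤ) (x : ℝ) : pl (trp a b) x = (1 - clp a 1 x) + clp b 1 x := by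
  have h1 := clp_pl (A := a) one_pos x
  have h2 := clp_pl (A := b) one_pos x
  rw [h1, h2]
  unfold pl trp
  ring

lemma clp_int (a i : ℤ) : clp a 1 i = if i ≤ a then 0 else 1 := by
  unfold clp
  push_cast
  rw [div_one]
  split_ifs with c
  · have : (i:ℝ) ≤ a := by exact_mod_cast c
    rw [max_eq_left ((min_le_right _ _).trans (by linarith))]
  · have : (a:ℝ) + 1 ≤ i := by exact_mod_cast (by omega : a + 1 ≤ i)
    rw [min_eq_left (by linarith), max_eq_right zero_le_one]

/-- the trapezoid of the mesh `N` is below the one of the far share table -/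
lemma trp_le {N af : ℕ} (hN : 0 < N) (h1 : 47 * af ≤ 12 * N) (h2 : 47 * (af + 1) ≤ 13 * N)
    (x : ℝ) :
    pl (trp af ((N:ℤ) - af - 1)) (N * x) ≤ pl (trp 12 34) (47 * x) := by
  have hN' : (0:ℝ) < N := by exact_mod_cast hN
  have g1 : (47:ℝ) * af ≤ 12 * N := by exact_mod_cast h1
  have g2 : (47:ℝ) * (af + 1) ≤ 13 * N := by exact_mod_cast h2
  rw [trp_pl, trp_pl]
  have key : ∀ y : ℝ, max 0 (min 1 (47 * y - 12)) ≤ max 0 (min 1 (N * y - af)) := by
    intro y
    rcases le_total (47 * y - 12) 0 with c | c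
    · rw [max_eq_left ((min_le_right _ _).trans c)]
      exact le_max_left _ _
    · rcases le_total 1 (N * y - af) with c2 | c2
      · rw [min_eq_left c2, max_eq_right zero_le_one]
        exact max_le zero_le_one (min_le_left _ _)
      · refine max_le_max le_rfl (min_le_min le_rfl ?_)
        -- `12/47 ≤ y ≤ (af+1)/N`
        by_contra hc
        push Not at hc
        have e1 : (N:ℝ) * (47 * y - 12) ≤ N * (N * y - af) ∨ (N:ℝ) < 47 := by
          rcases lt_or_ge (N:ℝ) 47 with c3 | c3
          · exact Or.inr c3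
          · left
            nlinarith
        rcases e1 with e1 | e1
        · have := le_of_mul_le_mul_left e1 hN'
          linarith
        · nlinarith
  have a1 : clp 12 1 (47 * x) ≤ clp af 1 (N * x) := by
    unfold clp
    push_cast
    rw [div_one, div_one]
    exact key x
  have a2 : clp ((N:ℤ) - af - 1) 1 (N * x) ≤ clp 34 1 (47 * x) := by
    have k := key (1 - x)
    unfold clp
    push_cast
    rw [div_one, div_one]
    have e1 : 47 * (1 - x) - 12 = 1 - (47 * x - 34) := by ring
    have e2 : N * (1 - x) - af = 1 - (N * x - (N - af - 1)) := by ring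
    rw [e1, e2] at k
    have cc : ∀ t : ℝ, max 0 (min 1 (1 - t)) = 1 - max 0 (min 1 t) := by
      intro t
      rcases le_total t 0 with h | h
      · rw [min_eq_left (by linarith), max_eq_right zero_le_one, max_eq_left
          ((min_le_right _ _).trans h), sub_zero]
      · rcases le_total t 1 with h3 | h3
        · rw [min_eq_right (by linarith), max_eq_right (by linarith), min_eq_right h3,
            max_eq_right h]
        · rw [min_eq_right (by linarith), max_eq_left (by linarith), min_eq_left h3,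
            max_eq_right zero_le_one, sub_self]
    rw [cc, cc] at k
    linarith
  linarith

/-- THE LINEAR FACTS HOLD -/
theorem factJ {d : DatS} {af den : ℕ} {kd : List ℕ} {J : List FnS} (hN : 0 < d.N)
    (hg : chkG d = true)
    (h : chkJs d af den kd J = true) (hden : 0 < den) {n : ℕ} (hn : 122 ≤ n) {A : Finset ℕ}
    (hA : IsMaximalThreeFree n A) (hlt : A.card ^ 2 < n) {cl : ℤ → ℕ}
    (hcl : ∀ a ∈ shift A, parC d.segs (cl a) = (tp n a).1 ∧
      RegC d.N (loC d.segs) (hiC d.segs) (cl a, pos n a)) (q : Fin J.length) :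
    0 ≤ ∑ a ∈ shift A, kC d.N (loC d.segs) (hiC d.segs) (lJ d J den q) (cl a, pos n a) := by
  have hden' : (0:ℝ) < den := by exact_mod_cast hden
  unfold chkJs at h
  simp only [Bool.and_eq_true] at h
  obtain ⟨⟨hf1, hf2⟩, hJ⟩ := h
  have hf1' : 47 * af ≤ 12 * d.N := Nat.le_of_ble_eq_true hf1
  have hf2' : 47 * (af + 1) ≤ 13 * d.N := Nat.le_of_ble_eq_true hf2
  have hq := allN_imp hJ q.1 (by rw [len_eq]; exact q.2)
  rw [nth_get (⟨[], [], [], 0⟩ : FnS) J q] at hq
  set kq := nth 0 kd q.1 with hkq
  unfold chkJf at hq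
  have hcard : ((shift A).card : ℝ) = A.card := by rw [MP61673a.Lift.card_shift]
  by_cases c : 2 ≤ kq
  · -- far share
    have hval : ∀ z : ℕ × ℤ, okS d.segs z →
        lJ d J den q z = 1 / 5 - trp af ((d.N:ℤ) - af - 1) z.2 := by
      intro z hz
      obtain ⟨z1, z2, z3⟩ := vO_spec d.segs z.1 z.2 hz
      change vO d.segs z < _ at z1
      change ((locP d.segs (vO d.segs z) : ℕ) : ℤ) = _ at z2
      have k := allN_imp hq _ z1
      have hb : Nat.ble 2 kq = true := Nat.ble_eq_true_of_le c
      rw [hb] at k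
      simp only [cond_true, Bool.and_eq_true] at k
      obtain ⟨k1, k2⟩ := k
      have k1' : 5 * nth 0 (J.get q).lp (vO d.segs z)
          = cond (farK d.N af (locP d.segs (vO d.segs z))) 0 den := Nat.eq_of_beq_eq_true k1
      have k2' : 5 * nth 0 (J.get q).ln (vO d.segs z)
          = cond (farK d.N af (locP d.segs (vO d.segs z))) (4 * den) 0 :=
        Nat.eq_of_beq_eq_true k2
      have hp := locP_le hg hz
      have r1 : (5:ℝ) * (nth 0 (J.get q).lp (vO d.segs z) : ℕ)
          = ((cond (farK d.N af (locP d.segs (vO d.segs z))) 0 den : ℕ) : ℝ) := by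
        exact_mod_cast k1'
      have r2 : (5:ℝ) * (nth 0 (J.get q).ln (vO d.segs z) : ℕ)
          = ((cond (farK d.N af (locP d.segs (vO d.segs z))) (4 * den) 0 : ℕ) : ℝ) := by
        exact_mod_cast k2'
      unfold lJ trp
      rw [clp_int, clp_int, div_eq_iff hden'.ne']
      cases hfar : farK d.N af (locP d.segs (vO d.segs z)) with
      | true =>
        rw [hfar] at r1 r2
        simp only [cond_true] at r1 r2
        push_cast at r1 r2
        unfold farK at hfar
        rw [Bool.or_eq_true] at hfar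
        rcases hfar with hfar | hfar
        · have hle : locP d.segs (vO d.segs z) ≤ af := Nat.le_of_ble_eq_true hfar
          have h47 : 2 * af + 1 ≤ d.N := by omega
          rw [if_pos (by omega), if_pos (by omega)]
          linarith
        · have hle : d.N ≤ locP d.segs (vO d.segs z) + af := Nat.le_of_ble_eq_true hfar
          have h47 : 2 * af + 1 ≤ d.N := by omega
          rw [if_neg (by omega), if_neg (by omega)]
          linarith
      | false =>
        rw [hfar] at r1 r2
        simp only [cond_false] at r1 r2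
        push_cast at r1 r2
        unfold farK at hfar
        rw [Bool.or_eq_false_iff] at hfar
        have c1 : af < locP d.segs (vO d.segs z) := by
          by_contra hc
          have h3 := Nat.ble_eq_true_of_le (not_lt.1 hc)
          rw [hfar.1] at h3
          exact absurd h3 (by decide)
        have c2 : locP d.segs (vO d.segs z) + af < d.N := by
          by_contra hc
          have h3 : Nat.ble d.N (Nat.add (locP d.segs (vO d.segs z)) af) = true :=
            Nat.ble_eq_true_of_le (not_lt.1 hc)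
          rw [hfar.2] at h3
          exact absurd h3 (by decide)
        rw [if_neg (by omega), if_pos (by omega)]
        linarith
    have hsum : ∀ a ∈ shift A, kC d.N (loC d.segs) (hiC d.segs) (lJ d J den q) (cl a, pos n a)
        = 1 / 5 - pl (trp af ((d.N:ℤ) - af - 1)) (d.N * pos n a) := by
      intro a ha
      have hreg := (hcl a ha).2
      rw [kC_congr (g := fun s => 1 / 5 - trp af ((d.N:ℤ) - af - 1) s.2) (fun i hi => by
        refine hval _ ?_
        unfold ns at hi
        exact mem_Icc.1 hi)]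
      unfold kC
      have e1 := pl_eq_sum hreg.near (trp af ((d.N:ℤ) - af - 1))
      have e2 := hreg.one
      simp only [mul_sub]
      rw [sum_sub_distrib, ← sum_mul, e2, ← e1]
      ring
    rw [sum_congr rfl hsum, sum_sub_distrib, sum_const, nsmul_eq_mul, hcard]
    obtain ⟨-, k1, -, -⟩ := FarTab.farNode.facts
    have hs := MP61673a.TP.share_ltL' hA hlt (FarTab.box_cert hn) k1
    have hle : ∑ a ∈ shift A, pl (trp af ((d.N:ℤ) - af - 1)) (d.N * pos n a)
        ≤ MP61673a.TP.linT n (shift A) (MP61673a.Bridge.kT 47 (farX 47)) := by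
      unfold MP61673a.TP.linT
      refine sum_le_sum fun a ha => (trp_le hN hf1' hf2' (pos n a)).trans (le_of_eq ?_)
      have hb := shift_bounds hA ha
      have hin : (tp n a).In := MP61673a.TP.tp_in hb.1 hb.2
      have hnr := near_nd (N := 47) hin.1.le hin.2.le
      have e1 := pl_eq_sum hnr (fun i => farX 47 ((tp n a).1, i))
      unfold MP61673a.Bridge.kT
      rw [← e1]
      have e3 : (tp n a).2 = pos n a := rfl
      rw [e3]
      push_cast
      have e4 : trp 12 34 = fun i => farX 47 ((tp n a).1, i) := by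
        funext i
        unfold trp farX
        rw [clp_int, clp_int]
        push_cast
        by_cases c1 : i ≤ 12
        · rw [if_pos c1, if_pos (by omega), if_pos (Or.inl (by omega))]
          ring
        · by_cases c2 : i ≤ 34
          · rw [if_neg c1, if_pos c2, if_neg (by omega)]
            ring
          · rw [if_neg c1, if_neg c2, if_pos (Or.inr (by omega))]
            ring
      rw [e4]
    have hs' : MP61673a.TP.linT n (shift A) (MP61673a.Bridge.kT 47 (farX 47))
        < 1 / 5 * A.card := by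
      refine lt_of_lt_of_eq hs ?_
      norm_num
    linarith
  · -- class share
    set b : Bool := decide (kq = 1) with hb
    have hval : ∀ z : ℕ × ℤ, okS d.segs z →
        lJ d J den q z = if parC d.segs z.1 = b then 2 / 3 else -(1 / 3) := by
      intro z hz
      obtain ⟨z1, z2, z3⟩ := vO_spec d.segs z.1 z.2 hz
      change vO d.segs z < _ at z1
      change locE d.segs (vO d.segs z) = _ at z3
      have k := allN_imp hq _ z1
      have hb2 : Nat.ble 2 kq = false := by
        rw [Bool.eq_false_iff]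
        exact fun h2 => c (Nat.le_of_ble_eq_true h2)
      rw [hb2] at k
      simp only [cond_false, Bool.and_eq_true] at k
      obtain ⟨k1, k2⟩ := k
      have k1' : 3 * nth 0 (J.get q).lp (vO d.segs z)
          = cond (mtK kq (locE d.segs (vO d.segs z))) (2 * den) 0 := Nat.eq_of_beq_eq_true k1
      have k2' : 3 * nth 0 (J.get q).ln (vO d.segs z)
          = cond (mtK kq (locE d.segs (vO d.segs z))) 0 den :=
        Nat.eq_of_beq_eq_true k2
      have r1 : (3:ℝ) * (nth 0 (J.get q).lp (vO d.segs z) : ℕ)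
          = ((cond (mtK kq (locE d.segs (vO d.segs z))) (2 * den) 0 : ℕ) : ℝ) := by
        exact_mod_cast k1'
      have r2 : (3:ℝ) * (nth 0 (J.get q).ln (vO d.segs z) : ℕ)
          = ((cond (mtK kq (locE d.segs (vO d.segs z))) 0 den : ℕ) : ℝ) := by
        exact_mod_cast k2'
      have hm : mtK kq (locE d.segs (vO d.segs z)) = true ↔ parC d.segs z.1 = b := by
        rw [z3]
        have hpar : parC d.segs z.1 = decide ((sgA d.segs z.1).par = 1) := rfl
        rw [hpar, hb]
        unfold mtK
        cases h5 : Nat.beq kq 1 with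
        | true =>
          have h6 : kq = 1 := Nat.eq_of_beq_eq_true h5
          rw [h6]
          simp only [cond_true, decide_true, decide_eq_true_eq]
          exact ⟨Nat.eq_of_beq_eq_true, fun h7 => by rw [h7]; rfl⟩
        | false =>
          have h6 : kq ≠ 1 := by
            intro h7
            rw [h7] at h5
            exact absurd h5 (by decide)
          rw [decide_eq_false h6]
          simp only [cond_false, decide_eq_false_iff_not]
          constructor
          · intro h7 h8
            rw [h8] at h7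
            exact absurd h7 (by decide)
          · intro h7
            cases h9 : Nat.beq (sgA d.segs z.1).par 1 with
            | true => exact absurd (Nat.eq_of_beq_eq_true h9) h7
            | false => rfl
      unfold lJ
      rw [div_eq_iff hden'.ne']
      by_cases c3 : parC d.segs z.1 = b
      · rw [hm.2 c3] at r1 r2
        simp only [cond_true] at r1 r2
        push_cast at r1 r2
        rw [if_pos c3]
        linarith
      · have c4 : mtK kq (locE d.segs (vO d.segs z)) = false := by
          rw [Bool.eq_false_iff]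
          exact fun h7 => c3 (hm.1 h7)
        rw [c4] at r1 r2
        simp only [cond_false] at r1 r2
        push_cast at r1 r2
        rw [if_neg c3]
        linarith
    have hsum : ∀ a ∈ shift A, kC d.N (loC d.segs) (hiC d.segs) (lJ d J den q) (cl a, pos n a)
        = MP61673a.TP.clsF b (tp n a) - 1 / 3 := by
      intro a ha
      obtain ⟨hpar, hreg⟩ := hcl a ha
      rw [kC_congr (g := fun s => if parC d.segs s.1 = b then 2 / 3 else -(1 / 3))
        (fun i hi => by
        refine hval _ ?_
        unfold ns at hi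
        exact mem_Icc.1 hi)]
      unfold kC
      have e2 := hreg.one
      dsimp only at e2 ⊢
      have e3 : ∑ i ∈ ns (loC d.segs) (hiC d.segs) (cl a), hat i (d.N * pos n a)
          * (if parC d.segs (cl a) = b then (2 / 3 : ℝ) else -(1 / 3))
          = (∑ i ∈ ns (loC d.segs) (hiC d.segs) (cl a), hat i (d.N * pos n a))
            * (if parC d.segs (cl a) = b then (2 / 3 : ℝ) else -(1 / 3)) := (sum_mul _ _ _).symm
      rw [e3, e2, one_mul, hpar]
      unfold MP61673a.TP.clsF
      split_ifs <;> norm_num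
    rw [sum_congr rfl hsum, sum_sub_distrib, sum_const, nsmul_eq_mul]
    have k := MP61673a.TP.class_facts hA hlt b
    unfold MP61673a.TP.linT at k
    linarith

/-! ### From the certificate to the ramps -/

/-- for every side map some pair of ramps satisfies the bound; pair facts with the constant fact -/
theorem exists_rampsO {n : ℕ} {r v vc : ℝ}
    (side par : ℕ → Bool) {Reg : ℕ × ℝ → Prop} {ιJ : Type} {J : Finset ιJ}
    {ℓ : ιJ → ℕ × ℝ → ℝ} {k : ℕ} {wR wL : Fin k → ℝ → ℝ} {c : Fin k → ℝ} {E E1 : ℕ}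
    (hE : 0 < E) (hE1 : E ≤ E1)
    (hw : ∀ i, Ramps n r v (wR i) (wL i))
    (hc : ∀ i, c i * n ≤ bW n r (wR i) (wL i))
    (cert : CertifiedC n (13 / 18) par Reg J ℓ (univ : Finset (Option (Fin k)))
      (optF (fun i => MP61673a.PF.kT side par vc (wR i) (wL i))) (optC E E1 c))
    {cl : (ℤ → Bool) → ℤ → ℕ}
    (hcl : ∀ sd, Side n sd → ∀ x : ℤ, 0 ≤ x → x < n →
      side (cl sd x) = sd x ∧ par (cl sd x) = (tp n x).1 ∧ Reg (cl sd x, pos n x))
    {A : Finset ℕ} (h : IsMaximalThreeFree n A) (hlt : A.card ^ 2 < n) (sd : ℤ → Bool)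
    (hsd : Side n sd) (hJ : ∀ j ∈ J, 0 ≤ ∑ a ∈ shift A, ℓ j (cl sd a, pos n a)) :
    ∃ wR wL : ℝ → ℝ, Ramps n r v wR wL ∧ sW n vc wR wL sd (shift A) ≤ bW n r wR wL := by
  by_contra hcon
  push Not at hcon
  refine cert.false h hlt (cl sd) (fun a ha => ?_) (fun a ha => ?_) hJ (fun i hi => ?_)
  · have hb := shift_bounds h ha
    exact (hcl sd hsd a hb.1 hb.2).2.1
  · have hb := shift_bounds h ha
    exact (hcl sd hsd a hb.1 hb.2).2.2
  · cases i with
    | none =>
      have hE' : (0:ℝ) < E := by exact_mod_cast hE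
      have hE1' : (E:ℝ) ≤ E1 := by exact_mod_cast hE1
      have hlt' : (A.card : ℝ) ^ 2 < n := by exact_mod_cast hlt
      have hn' : (0:ℝ) ≤ n := Nat.cast_nonneg n
      change -((E1 : ℝ) / E) * n ≤ ∑ a ∈ shift A, ∑ b ∈ shift A, (-1 : ℝ)
      rw [sum_const, sum_const, nsmul_eq_mul, nsmul_eq_mul, MP61673a.Lift.card_shift]
      have h1 : (1:ℝ) ≤ (E1:ℝ) / E := by
        rw [le_div_iff₀ hE', one_mul]
        exact hE1'
      nlinarith
    | some i =>
      have k := hcon _ _ (hw i)
      have e : sW n vc (wR i) (wL i) sd (shift A)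
          = ∑ a ∈ shift A, ∑ b ∈ shift A,
            MP61673a.PF.kT side par vc (wR i) (wL i) (cl sd a, pos n a) (cl sd b, pos n b) := by
        unfold sW
        refine sum_congr rfl fun a ha => sum_congr rfl fun b hb => ?_
        have ha' := hcl sd hsd a (shift_bounds h ha).1 (shift_bounds h ha).2
        have hb' := hcl sd hsd b (shift_bounds h hb).1 (shift_bounds h hb).2
        unfold MP61673a.PF.kT
        dsimp only
        rw [ha'.1, hb'.1, ha'.2.1, hb'.2.1]
        congr 1
        rw [Bool.eq_iff_iff, decide_eq_true_eq, beq_iff_eq]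
        exact MP61673a.TP.tp_class.symm
      change c i * n ≤ ∑ a ∈ shift A, ∑ b ∈ shift A,
            MP61673a.PF.kT side par vc (wR i) (wL i) (cl sd a, pos n a) (cl sd b, pos n b)
      rw [← e]
      exact (hc i).trans k.le

/-- all windows admissible, constants of the pair facts -/
def chkWin (N n0 E S : ℕ) (TL : List PT) (I : List Prf) : Bool :=
  (List.range I.length).all fun i => okW N n0 (TLi TL i) &&
    decide (((nth ⟨[], [], [], 0, 0⟩ I i).cn : ℚ) ≤ E * S * cWq N n0 (TLi TL i))

/-- THE PRICE FACT from integer data, arbitrary windows -/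
theorem pxCert_of_dataW {d : DatS} {X : List (List ℕ)} {o2 Mx Mw n0 E E1 M S c0 nv den af : ℕ}
    {kd : List ℕ} {J : List FnS} {I : List Prf} {TL : List PT} {sides : List ℕ}
    (hN : d.N = M + 1) (hfn : d.fn = allF J I) (hb : bndS d = true) (hs : symS d = true)
    (hg : chkG d = true) (hX : chkY d X I o2 Mx Mw n0 E E1 = true)
    (hT : chkAll d S c0 o2 Mx nv sides TL I = true)
    (hJ : chkJs d af den kd J = true) (hcov : chkCov d sides = true)
    (ho : o2 ≤ (d.N + 1) / 2) (hn0 : d.N ≤ n0) (h122 : 122 ≤ n0) (hBd : 0 < d.Bd) (hE : 0 < E)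
    (hE1 : E ≤ E1) (hden : 0 < den) (hv : 29304 * d.N ≤ 100000 * nv) (hv1 : 3 * nv ≤ d.N)
    (hm : segCheck d 0 (vN d.segs) = true) {n : ℕ} (hn : n0 ≤ n)
    {wR wL : Fin I.length → ℝ → ℝ} (ali : ∀ i, Ali d.N (TLi TL i.1) (wR i) (wL i))
    (hw : ∀ i, Ramps n (1 / 40) (1 / 80) (wR i) (wL i))
    {c : Fin I.length → ℝ} (hc : ∀ i, ((I.get i).cn : ℝ) ≤ E * S * c i)
    (hcb : ∀ i, c i * n ≤ bW n (1 / 40) (wR i) (wL i))
    {A : Finset ℕ} (hA : IsMaximalThreeFree n A) (hlt : A.card ^ 2 < n) : PxCert n A := by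
  have hN0 : 0 < d.N := by omega
  have hN' : (0:ℝ) < d.N := by exact_mod_cast hN0
  have hn122 : 122 ≤ n := by omega
  have cert := certC_price (d := d) (X := X) (o2 := o2) (Mx := Mx) (Mw := Mw) (n0 := n0) (E := E)
    (E1 := E1) (M := M) (S := S) (c0 := c0) (nv := nv) (J := J) (den := den) (l := lJ d J den)
    (I := I) (TL := TL) (sides := sides) hN hfn hb hs hg hX hT (fun q z _ => by
      unfold lJ
      have : (den:ℝ) ≠ 0 := by
        have : (0:ℝ) < den := by exact_mod_cast hden
        exact this.ne'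
      field_simp) ho hn0 hBd hE hm hn
    (ℓ := fun q z => kC d.N (loC d.segs) (hiC d.segs) (lJ d J den q) z) (fun q z _ => rfl)
    (wR := wR) (wL := wL) ali
    (fun i y => (hw i).L0 y) (c := c) hc
  obtain ⟨cl, hcl⟩ := MP61673a.PF.exists_cl (n := n) (N := d.N) (by omega) (sideC sides)
    (parC d.segs) (loC d.segs) (hiC d.segs) (cov_imp hN0 hcov)
  have hvr : (29304 / 100000 : ℝ) ≤ (nv:ℝ) / d.N := by
    rw [le_div_iff₀ hN']
    have : (29304:ℝ) * d.N ≤ 100000 * nv := by exact_mod_cast hv
    linarith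
  have hvr1 : (nv:ℝ) / d.N ≤ 1 / 3 := by
    rw [div_le_iff₀ hN']
    have : (3:ℝ) * nv ≤ d.N := by exact_mod_cast hv1
    linarith
  refine MP61673a.PF.pxCert_of_ramps hn122 hvr hvr1 (fun B hB hltB sd hsd => ?_) hA hlt
  refine exists_rampsO (sideC sides) (parC d.segs) hE hE1
    hw hcb cert hcl hB hltB
    sd hsd (fun q _ => ?_)
  exact factJ hN0 hg hJ hden hn122 hB hltB (cl := cl sd) (fun a ha => by
    have hb := shift_bounds hB ha
    exact (hcl sd hsd a hb.1 hb.2).2) q

/-- THE PRICE FACT from integer data -/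
theorem pxCert_of_data {d : DatS} {X : List (List ℕ)} {o2 Mx Mw n0 E E1 M S c0 nv den af : ℕ}
    {kd : List ℕ} {J : List FnS} {I : List Prf} {TL : List PT} {sides : List ℕ}
    (hN : d.N = M + 1) (hfn : d.fn = allF J I) (hb : bndS d = true) (hs : symS d = true)
    (hg : chkG d = true) (hX : chkY d X I o2 Mx Mw n0 E E1 = true)
    (hT : chkAll d S c0 o2 Mx nv sides TL I = true)
    (hJ : chkJs d af den kd J = true) (hcov : chkCov d sides = true)
    (hW : chkWin d.N n0 E S TL I = true)
    (ho : o2 ≤ (d.N + 1) / 2) (hn0 : d.N ≤ n0) (h122 : 122 ≤ n0) (hBd : 0 < d.Bd) (hE : 0 < E)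
    (hE1 : E ≤ E1) (hden : 0 < den) (hv : 29304 * d.N ≤ 100000 * nv) (hv1 : 3 * nv ≤ d.N)
    (hm : segCheck d 0 (vN d.segs) = true) {n : ℕ} (hn : n0 ≤ n)
    {A : Finset ℕ} (hA : IsMaximalThreeFree n A) (hlt : A.card ^ 2 < n) : PxCert n A := by
  have hN0 : 0 < d.N := by omega
  have hn00 : 0 < n0 := by omega
  have hWi : ∀ i : Fin I.length, okW d.N n0 (TLi TL i.1) = true ∧
      ((I.get i).cn : ℝ) ≤ E * S * (cWq d.N n0 (TLi TL i.1) : ℝ) := by
    intro i
    have h1 := List.all_eq_true.1 hW i.1 (List.mem_range.2 i.2)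
    rw [Bool.and_eq_true, decide_eq_true_eq] at h1
    refine ⟨h1.1, ?_⟩
    have h2 := h1.2
    rw [nth_get] at h2
    exact_mod_cast h2
  exact pxCert_of_dataW hN hfn hb hs hg hX hT hJ hcov ho hn0 h122 hBd hE hE1 hden hv hv1 hm hn
    (wR := fun i => wRT n d.N (TLi TL i.1)) (wL := fun i => wLT n d.N (TLi TL i.1))
    (fun i => by
      obtain ⟨a1, a2, a3, a4, a5, -⟩ := okW_imp (hWi i).1
      exact ali_T (by omega) hN0 a1 a2 a3 a4 a5)
    (fun i => ramps_T n d.N (TLi TL i.1))
    (c := fun i => (cWq d.N n0 (TLi TL i.1) : ℝ)) (fun i => (hWi i).2)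
    (fun i => bW_T hn00 hn hN0 (hWi i).1) hA hlt

/-! ### Exact windows behind the aligned ramps -/

/-- the exact windows lie below the aligned ramps of `T` -/
lemma ali_exact {n n0 N : ℕ} {T : PT} (h4 : 4 ≤ n0) (hn : n0 ≤ n) (hN : 0 < N)
    (hA : T.A + T.d ≤ N) (hB : T.B ≤ N) (hd : 0 < T.d) (he : 0 < T.e)
    (h1 : (T.A:ℝ) / N + (T.d:ℝ) / N ≤ 17 / 20 - 49 / 100 / n0)
    (h2 : (13 / 40 : ℝ) ≤ (T.B:ℝ) / N - (T.e:ℝ) / N) (h3 : N ≤ n0 * T.e) :
    Ali N T (MP61673a.PF.lR n (17 / 20)) (MP61673a.PF.lL n (13 / 40)) := by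
  have hN' : (0:ℝ) < N := by exact_mod_cast hN
  have h4' : (4:ℝ) ≤ n := by exact_mod_cast h4.trans hn
  have hd' : (0:ℝ) < T.d := by exact_mod_cast hd
  have he' : (0:ℝ) < T.e := by exact_mod_cast he
  have hA' : (T.A:ℝ) + T.d ≤ N := by exact_mod_cast hA
  have hB' : (T.B:ℝ) ≤ N := by exact_mod_cast hB
  have hδ : (0:ℝ) < (T.d:ℝ) / N := by positivity
  have hδe : (0:ℝ) < (T.e:ℝ) / N := by positivity
  have hne : (1:ℝ) ≤ n * ((T.e:ℝ) / N) := by
    rw [mul_div_assoc', le_div_iff₀ hN', one_mul]
    have : (N:ℝ) ≤ n0 * T.e := by exact_mod_cast h3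
    have h5 : (n0:ℝ) * T.e ≤ n * T.e :=
      mul_le_mul_of_nonneg_right (by exact_mod_cast hn) he'.le
    linarith
  refine ⟨fun y => MP61673a.PF.lR_le_rUp (by omega) hn hδ h1 y, fun y hy => ?_,
    fun y => MP61673a.PF.lL_le_rDn hδe hne h2 y, fun y hy => ?_⟩
  · rcases le_or_gt y 0 with h | h
    · have e : rUp ((T.A:ℝ) / N) ((T.d:ℝ) / N) y = 0 := by
        unfold rUp
        rw [max_eq_left]
        refine (min_le_right _ _).trans (div_nonpos_of_nonpos_of_nonneg ?_ (by positivity))
        have : (0:ℝ) ≤ (T.A:ℝ) / N := by positivity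
        linarith
      rw [e]
      refine le_antisymm ?_ (MP61673a.PF.lR_nonneg _ _ _)
      exact (MP61673a.PF.lR_le_rUp (by omega) hn hδ h1 y).trans e.le
    · have h1' : 1 ≤ y := by
        by_contra hc
        exact hy ⟨h, not_le.1 hc⟩
      have e : MP61673a.PF.lR n (17 / 20) y = 1 := by
        unfold MP61673a.PF.lR
        rw [max_eq_left, sub_zero]
        refine (min_le_right _ _).trans ?_
        nlinarith
      rw [e]
      refine le_antisymm ?_ (rUp_le _ _ _)
      have h6 := MP61673a.PF.lR_le_rUp (by omega) hn hδ h1 y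
      rw [e] at h6
      exact h6
  · rcases le_or_gt y 0 with h | h
    · have e : MP61673a.PF.lL n (13 / 40) y = 1 := by
        unfold MP61673a.PF.lL MP61673a.PF.rampL
        rw [min_eq_left, max_eq_right zero_le_one]
        nlinarith
      rw [e]
      refine le_antisymm ?_ (rDn_le _ _ _)
      have h6 := MP61673a.PF.lL_le_rDn hδe hne h2 y
      rw [e] at h6
      exact h6
    · have h1' : 1 ≤ y := by
        by_contra hc
        exact hy ⟨h, not_le.1 hc⟩
      have e : rDn ((T.B:ℝ) / N) ((T.e:ℝ) / N) y = 0 := by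
        unfold rDn
        rw [max_eq_left]
        refine (min_le_right _ _).trans (div_nonpos_of_nonpos_of_nonneg ?_ (by positivity))
        have : (T.B:ℝ) / N ≤ 1 := by
          rw [div_le_one hN']
          exact hB'
        linarith
      rw [e]
      refine le_antisymm ?_ (MP61673a.PF.lL_nonneg _ _ _)
      exact (MP61673a.PF.lL_le_rDn hδe hne h2 y).trans e.le

end

end MP61673a.KC
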