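import Pool.Agent.Mu673.PriceRampV
import Pool.Agent.Mu673.PriceEnd

/-!
PRICE FACTS with a general near parameter `v` (right threshold `pn / pd = yRp (1/40) v`), Lean end:
integer data ==> the statement of `pxi_of_ramps` for `rho = D/40`, any `nu ≤ v D`, any
`V ≥ (1 - 3 vc + 1/244) D + 12`.
-/

set_option autoImplicit false

namespace MP61673a.KC

open Finset MP61673a.Kink MP61673a.Sos MP61673a.Bridge
open MP61673a.PF (rUp rDn Ramps bW sW Side yRp Par)
open MP61673a.TP (CertifiedC pos tp shift_bounds)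
open MP61673a.W
open MP61673a.Lift (shift liftN IsMaximalThreeFree)
open MP61673a.Fin (PH QH)

noncomputable section

/-- all windows admissible, constants of the pair facts -/
def chkWinV (N n0 pn pd E S : ℕ) (TL : List PT) (I : List Prf) : Bool :=
  (List.range I.length).all fun i => okV N n0 pn pd (TLi TL i) &&
    decide (((nth ⟨[], [], [], 0, 0⟩ I i).cn : ℚ) ≤ E * S * cWv N n0 pn pd (TLi TL i))

/-- the human form from integer data -/
theorem ramps_of_data {d : DatS} {X : List (List ℕ)} {o2 Mx Mw n0 E E1 M S c0 nv den af : ℕ}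
    {pn pd : ℕ} {kd : List ℕ} {J : List FnS} {I : List Prf} {TL : List PT} {sides : List ℕ}
    (hN : d.N = M + 1) (hfn : d.fn = allF J I) (hb : bndS d = true) (hs : symS d = true)
    (hg : chkG d = true) (hX : chkY d X I o2 Mx Mw n0 E E1 = true)
    (hT : chkAll d S c0 o2 Mx nv sides TL I = true)
    (hJ : chkJs d af den kd J = true) (hcov : chkCov d sides = true)
    (hW : chkWinV d.N n0 pn pd E S TL I = true)
    (ho : o2 ≤ (d.N + 1) / 2) (hn0 : d.N ≤ n0) (h122 : 122 ≤ n0) (hBd : 0 < d.Bd) (hE : 0 < E)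
    (hE1 : E ≤ E1) (hden : 0 < den)
    (hm : segCheck d 0 (vN d.segs) = true) {n : ℕ} (hn : n0 ≤ n) {v : ℝ}
    (hp : yRp (1 / 40) v = (pn:ℝ) / pd)
    {A : Finset ℕ} (hA : IsMaximalThreeFree n A) (hlt : A.card ^ 2 < n) {sd : ℤ → Bool}
    (hsd : Side n sd) :
    ∃ wR wL : ℝ → ℝ, Ramps n (1 / 40) v wR wL ∧
      sW n ((nv:ℝ) / d.N) wR wL sd (shift A) ≤ bW n (1 / 40) wR wL := by
  have hN0 : 0 < d.N := by omega
  have hN' : (0:ℝ) < d.N := by exact_mod_cast hN0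
  have hn122 : 122 ≤ n := by omega
  have hn00 : 0 < n0 := by omega
  have hWi : ∀ i : Fin I.length, okV d.N n0 pn pd (TLi TL i.1) = true ∧
      ((I.get i).cn : ℝ) ≤ E * S * (cWv d.N n0 pn pd (TLi TL i.1) : ℝ) := by
    intro i
    have h1 := List.all_eq_true.1 hW i.1 (List.mem_range.2 i.2)
    rw [Bool.and_eq_true, decide_eq_true_eq] at h1
    refine ⟨h1.1, ?_⟩
    have h2 := h1.2
    rw [nth_get] at h2
    exact_mod_cast h2
  have ali : ∀ i : Fin I.length, Ali d.N (TLi TL i.1) (wRV n d.N ((pn:ℝ) / pd) (TLi TL i.1))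
      (wLT n d.N (TLi TL i.1)) := by
    intro i
    obtain ⟨-, a2, a3, a4, a5, -, -, ⟨p1, p2, p3⟩, -⟩ := okV_imp (hWi i).1
    have hpd : (0:ℝ) < pd := by exact_mod_cast p1
    refine ali_V (by omega) hN0 ?_ a2 a3 a4 a5
    have h2 : ((51 * pd : ℕ) : ℝ) ≤ ((100 * n0 * (pd - pn) : ℕ) : ℝ) := by exact_mod_cast p3
    push_cast [Nat.cast_sub p2] at h2
    have hpp : (pn:ℝ) ≤ pd := by exact_mod_cast p2
    have hnn : (n0:ℝ) ≤ n := by exact_mod_cast hn
    have h3 : (100 * n0:ℝ) * (pd - pn) ≤ 100 * n * (pd - pn) :=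
      mul_le_mul_of_nonneg_right (by linarith) (by linarith)
    have e : (n:ℝ) * (1 - (pn:ℝ) / pd) = 100 * n * (pd - pn) / (100 * pd) := by
      field_simp
    rw [e, le_div_iff₀ (by positivity)]
    linarith
  have cert := certC_price (d := d) (X := X) (o2 := o2) (Mx := Mx) (Mw := Mw) (n0 := n0) (E := E)
    (E1 := E1) (M := M) (S := S) (c0 := c0) (nv := nv) (J := J) (den := den) (l := lJ d J den)
    (I := I) (TL := TL) (sides := sides) hN hfn hb hs hg hX hT (fun q z _ => by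
      unfold lJ
      have : (den:ℝ) ≠ 0 := by
        have : (0:ℝ) < den := by exact_mod_cast hden
        exact this.ne'
      field_simp) ho hn0 hBd hE hm hn
    (ℓ := fun q z => kC d.N (loC d.segs) (hiC d.segs) (lJ d J den q) z) (fun q z _ => rfl)
    (wR := fun i => wRV n d.N ((pn:ℝ) / pd) (TLi TL i.1)) (wL := fun i => wLT n d.N (TLi TL i.1))
    ali (fun i y => wLT_nonneg _ _ _ _) (c := fun i => (cWv d.N n0 pn pd (TLi TL i.1) : ℝ))
    (fun i => (hWi i).2)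
  obtain ⟨cl, hcl⟩ := MP61673a.PF.exists_cl (n := n) (N := d.N) (by omega) (sideC sides)
    (parC d.segs) (loC d.segs) (hiC d.segs) (cov_imp hN0 hcov)
  refine exists_rampsO (sideC sides) (parC d.segs) hE hE1
    (fun i => ramps_V n d.N hp (TLi TL i.1)) (fun i => bW_V hn00 hn hN0 (hWi i).1) cert hcl hA hlt
    sd hsd (fun q _ => ?_)
  exact factJ hN0 hg hJ hden hn122 hA hlt (cl := cl sd) (fun a ha => by
    have hb := shift_bounds hA ha
    exact (hcl sd hsd a hb.1 hb.2).2) q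

/-- A PRICE FACT OF THE FRAME from integer data, general near parameter -/
theorem px_of_data {d : DatS} {X : List (List ℕ)} {o2 Mx Mw n0 E E1 M S c0 nv den af : ℕ}
    {pn pd : ℕ} {kd : List ℕ} {J : List FnS} {I : List Prf} {TL : List PT} {sides : List ℕ}
    (hN : d.N = M + 1) (hfn : d.fn = allF J I) (hb : bndS d = true) (hs : symS d = true)
    (hg : chkG d = true) (hX : chkY d X I o2 Mx Mw n0 E E1 = true)
    (hT : chkAll d S c0 o2 Mx nv sides TL I = true)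
    (hJ : chkJs d af den kd J = true) (hcov : chkCov d sides = true)
    (hW : chkWinV d.N n0 pn pd E S TL I = true)
    (ho : o2 ≤ (d.N + 1) / 2) (hn0 : d.N ≤ n0) (h122 : 122 ≤ n0) (hBd : 0 < d.Bd) (hE : 0 < E)
    (hE1 : E ≤ E1) (hden : 0 < den)
    (hm : segCheck d 0 (vN d.segs) = true) {n : ℕ} (hn : n0 ≤ n) {v : ℝ} (hv0 : 0 ≤ v)
    (hp : yRp (1 / 40) v = (pn:ℝ) / pd) (hpd : 0 < pd) (hpn : pn ≤ pd) (hvc : 3 * nv ≤ d.N)
    {A : Finset ℕ} (hA : IsMaximalThreeFree n A) (hlt : A.card ^ 2 < n) {t : ℕ} (ht : 5 ≤ t)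
    {D K ρ V ν : ℤ} (hD : D = 4 * K + 1) (e1 : 3 * D + 1 ≤ 4 ^ t * (n : ℤ))
    (e2 : 4 ^ t * (n : ℤ) ≤ 3 * D + 12) (hρ1 : (1 / 40 : ℝ) * D - 1 ≤ ρ)
    (hρ2 : (ρ:ℝ) ≤ (1 / 40 : ℝ) * D) (hν : (ν:ℝ) ≤ v * D)
    (hV : (1 - 3 * ((nv:ℝ) / d.N) + 1 / 244) * (D:ℝ) + 12 ≤ V) :
    dd (PH (liftN t (shift A)) D V) (QH (liftN t (shift A)) D V) (2 * K + 1 + ρ - 6 * ν)
        ≤ K - ρ + 1 + nn (PH (liftN t (shift A)) D V) (1 + ρ) + 1 ∧
      dd (QH (liftN t (shift A)) D V) (PH (liftN t (shift A)) D V) (2 * K + 1 + ρ - 6 * ν)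
        ≤ K - ρ + 1 + nn (QH (liftN t (shift A)) D V) (1 + ρ) + 1 := by
  have hN0 : 0 < d.N := by omega
  have hN' : (0:ℝ) < d.N := by exact_mod_cast hN0
  have hI : (pn:ℝ) / pd ≤ 1 := by
    rw [div_le_one (by exact_mod_cast hpd)]
    exact_mod_cast hpn
  have hvr1 : (nv:ℝ) / d.N ≤ 1 / 3 := by
    rw [div_le_iff₀ hN']
    have : (3:ℝ) * nv ≤ d.N := by exact_mod_cast hvc
    linarith
  have hpar : Par (1 / 40) v ((nv:ℝ) / d.N) := by
    refine ⟨by norm_num, by norm_num, hv0, ?_, by positivity, hvr1⟩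
    have : yRp (1 / 40) v ≤ 1 := hp.trans_le hI
    unfold yRp at this
    linarith
  exact MP61673a.PF.pxi_of_ramps (by omega) hpar (fun B hB hltB sd hsd =>
    ramps_of_data hN hfn hb hs hg hX hT hJ hcov hW ho hn0 h122 hBd hE hE1 hden hm hn hp hB hltB
      hsd) hA hlt ht hD e1 e2 hρ1 hρ2 hν hV

end

end MP61673a.KC
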