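import Pool.Agent.Mu673.CE
import Pool.Agent.Mu673.Sos

set_option autoImplicit false

/-!
Three point certificates for a covering set, directly on `A ⊆ {1..n}` (no lift).
Positions `pos n x = (x + 1/2)/n ∈ (0,1)`, `x ∈ [0,n)`: the label `2b-a` and the midpoint of the set
sit exactly at `2 pos b - pos a`, `(pos a + pos b)/2`.
A pointwise inequality on triples of reals in `(0,1)` with prices `g z x`, squares, a multiplier
`κ z ≥ 0` of the pair count fact (CE) and multipliers `ν j a b ≥ 0` of linear facts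
`Σ_(a ∈ A) ℓ j (pos a) ≥ 0` gives `γ n ≤ θ |A|²`.
-/

namespace MP61673a.TP

open Finset MP61673a.Sos MP61673a.W
open MP61673a.Lift (shift Mid Cov IsMaximalThreeFree cov_of_maximal card_shift)

noncomputable section

/-- position of the cell `x ∈ [0,n)` in `(0,1)` -/
def pos (n : ℕ) (x : ℤ) : ℝ := ((x : ℝ) + 1 / 2) / n

lemma pos_mem {n : ℕ} {x : ℤ} (h0 : 0 ≤ x) (h1 : x < n) : 0 < pos n x ∧ pos n x < 1 := by
  have hn : (0:ℝ) < n := by exact_mod_cast lt_of_le_of_lt h0 h1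
  have e0 : (0:ℝ) ≤ (x:ℝ) := by exact_mod_cast h0
  have e1 : (x:ℝ) + 1 ≤ n := by exact_mod_cast h1
  unfold pos
  constructor
  · positivity
  · rw [div_lt_one hn]
    linarith

lemma pos_lab (n : ℕ) (a b : ℤ) : pos n (2 * b - a) = 2 * pos n b - pos n a := by
  unfold pos
  push_cast
  ring

lemma pos_mid {n : ℕ} {a b x : ℤ} (h : a + b = 2 * x) : pos n x = (pos n a + pos n b) / 2 := by
  unfold pos
  have : (x : ℝ) = (a + b) / 2 := by
    have h2 : ((a + b : ℤ) : ℝ) = ((2 * x : ℤ) : ℝ) := by rw [h]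
    push_cast at h2
    linarith
  rw [this]
  ring

/-- `pos` is in the open window exactly for the cells `0..n-1` -/
lemma pos_window {n : ℕ} (hn : 0 < n) (x : ℤ) :
    (0 < pos n x ∧ pos n x < 1) ↔ (0 ≤ x ∧ x < n) := by
  constructor
  · rintro ⟨h0, h1⟩
    have hn' : (0:ℝ) < n := by exact_mod_cast hn
    unfold pos at h0 h1
    rw [div_pos_iff_of_pos_right hn'] at h0
    rw [div_lt_one hn'] at h1
    constructor
    · by_contra hc
      have : (x:ℝ) ≤ -1 := by exact_mod_cast (by omega : x ≤ -1)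
      linarith
    · by_contra hc
      have : (n:ℝ) ≤ (x:ℝ) := by exact_mod_cast (by omega : (n:ℤ) ≤ x)
      linarith
  · rintro ⟨h0, h1⟩
    exact pos_mem h0 h1

variable {κι ιJ : Type*}

/-- the cost of the ordered pair `(a,b)` for the sampler `z` -/
def F (g : ℝ → ℝ → ℝ) (κ : ℝ → ℝ) (cE : ℝ) (J : Finset ιJ) (ν : ιJ → ℝ → ℝ → ℝ)
    (ℓ : ιJ → ℝ → ℝ) (z a b : ℝ) : ℝ :=
  (if 0 < 2 * b - a ∧ 2 * b - a < 1 then g z (2 * b - a) + κ z else 0) + g z ((a + b) / 2) / 2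
    - cE * κ z + ∑ j ∈ J, ν j a b * ℓ j z

/-- THREE POINT BOUND. -/
theorem three_point_bound {n : ℕ} (hn : 0 < n) (S : Finset ℤ) (hS : ∀ a ∈ S, 0 ≤ a ∧ a < n)
    (hcov : Cov S (Mid S) n) (g : ℝ → ℝ → ℝ) (hg : ∀ z x, 0 ≤ g z x) (κ : ℝ → ℝ)
    (hκ : ∀ z, 0 ≤ κ z) {cE : ℝ}
    (hCE : cE * (S.card : ℝ) ^ 2 ≤ ∑ y ∈ Ico (0 : ℤ) n, lab S y)
    (J : Finset ιJ) (ν : ιJ → ℝ → ℝ → ℝ) (hν : ∀ j ∈ J, ∀ a b, 0 ≤ ν j a b) (ℓ : ιJ → ℝ → ℝ)
    (hℓ : ∀ j ∈ J, 0 ≤ ∑ a ∈ S, ℓ j (pos n a))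
    (K : Finset κι) (s : κι → ℝ → ℝ → ℝ) {θ γ : ℝ}
    (hsum : ∀ z, 0 < z → z < 1 → γ * n ≤ ∑ x ∈ Ico (0 : ℤ) n, g z (pos n x))
    (h3 : ∀ a b c : ℝ, 0 < a → a < 1 → 0 < b → b < 1 → 0 < c → c < 1 →
      sym6 (F g κ cE J ν ℓ) a b c + 2 * sq3 K s a b c ≤ 6 * θ) :
    γ * n * S.card ≤ θ * (S.card : ℝ) ^ 3 := by
  classical
  set p : ℤ → ℝ := pos n with hp
  have hpm : ∀ a ∈ S, 0 < p a ∧ p a < 1 := fun a ha => pos_mem (hS a ha).1 (hS a ha).2
  -- the SOS step
  have key := sos_step (S := S) (w := fun _ => (1:ℝ)) (fun _ _ => zero_le_one)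
    (fun z a b => F g κ cE J ν ℓ (p z) (p a) (p b)) (fun _ _ _ => 6 * θ - 6) K
    (fun i a b => s i (p a) (p b)) (by
      intro a ha b hb c hc
      have h := h3 (p a) (p b) (p c) (hpm a ha).1 (hpm a ha).2 (hpm b hb).1 (hpm b hb).2
        (hpm c hc).1 (hpm c hc).2
      unfold sym6 sq3 at h ⊢
      linarith)
  rw [tri_const] at key
  have hw : ∑ a ∈ S, (1:ℝ) = S.card := by simp
  rw [hw] at key
  have key2 : tri S (fun _ => (1:ℝ)) (fun z a b => F g κ cE J ν ℓ (p z) (p a) (p b))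
      ≤ θ * (S.card : ℝ) ^ 3 := by
    refine key.trans (le_of_eq ?_)
    ring
  -- lower bound of the triple sum
  refine le_trans ?_ key2
  -- for each sampler z
  have hz : ∀ z ∈ S, ∑ x ∈ Ico (0 : ℤ) n, g (p z) (p x)
      ≤ ∑ a ∈ S, ∑ b ∈ S, ((if 0 < 2 * p b - p a ∧ 2 * p b - p a < 1 then
          g (p z) (2 * p b - p a) else 0) + g (p z) ((p a + p b) / 2) / 2) := by
    intro z _
    -- labels
    have e1 : ∑ a ∈ S, ∑ b ∈ S, (if 0 < 2 * p b - p a ∧ 2 * p b - p a < 1 then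
        g (p z) (2 * p b - p a) else 0)
        = ∑ x ∈ Ico (0 : ℤ) n, ∑ a ∈ S, ∑ b ∈ S,
          (if 2 * b - a = x then g (p z) (p x) else 0) := by
      refine Eq.trans ?_ sum_comm
      refine sum_congr rfl fun a _ => ?_
      refine Eq.trans ?_ sum_comm
      refine sum_congr rfl fun b _ => ?_
      rw [← pos_lab]
      by_cases c : 0 ≤ 2 * b - a ∧ 2 * b - a < n
      · rw [if_pos ((pos_window hn _).2 c), sum_ite_eq, if_pos (by rw [mem_Ico]; exact c)]
      · rw [if_neg (fun h => c ((pos_window hn _).1 h)), sum_ite_eq,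
          if_neg (by rw [mem_Ico]; exact c)]
    have e2 : ∑ x ∈ Ico (0 : ℤ) n, ∑ a ∈ S, ∑ b ∈ S,
          (if a < b ∧ a + b = 2 * x then g (p z) (p x) else 0)
        ≤ ∑ a ∈ S, ∑ b ∈ S, (if a < b then g (p z) ((p a + p b) / 2) else 0) := by
      rw [sum_comm]
      refine sum_le_sum fun a _ => ?_
      rw [sum_comm]
      refine sum_le_sum fun b _ => ?_
      by_cases c : a < b
      · rw [if_pos c]
        by_cases d : ∃ x ∈ Ico (0 : ℤ) n, a + b = 2 * x
        · obtain ⟨x, hx, hx2⟩ := d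
          rw [sum_eq_single x]
          · rw [if_pos ⟨c, hx2⟩, hp, pos_mid hx2]
          · intro y _ hy
            rw [if_neg (by rintro ⟨_, h⟩; exact hy (by omega))]
          · intro h
            exact absurd hx h
        · rw [sum_eq_zero]
          · exact hg _ _
          · intro x hx
            rw [if_neg (by rintro ⟨_, h⟩; exact d ⟨x, hx, h⟩)]
      · rw [if_neg c]
        refine le_of_eq (sum_eq_zero fun x _ => ?_)
        rw [if_neg (by rintro ⟨h, _⟩; exact c h)]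
    have e3 : ∑ a ∈ S, ∑ b ∈ S, (if a < b then g (p z) ((p a + p b) / 2) else 0)
        ≤ ∑ a ∈ S, ∑ b ∈ S, g (p z) ((p a + p b) / 2) / 2 := by
      have f1 : ∑ a ∈ S, ∑ b ∈ S, (if a < b then g (p z) ((p a + p b) / 2) else 0)
          = ∑ a ∈ S, ∑ b ∈ S, (if b < a then g (p z) ((p a + p b) / 2) else 0) := by
        rw [sum_comm]
        refine sum_congr rfl fun a _ => sum_congr rfl fun b _ => ?_
        rw [add_comm (p b) (p a)]
      have f2 : ∑ a ∈ S, ∑ b ∈ S, (if a < b then g (p z) ((p a + p b) / 2) else 0)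
          + ∑ a ∈ S, ∑ b ∈ S, (if b < a then g (p z) ((p a + p b) / 2) else 0)
          ≤ ∑ a ∈ S, ∑ b ∈ S, g (p z) ((p a + p b) / 2) := by
        rw [← sum_add_distrib]
        refine sum_le_sum fun a _ => ?_
        rw [← sum_add_distrib]
        refine sum_le_sum fun b _ => ?_
        have := hg (p z) ((p a + p b) / 2)
        split_ifs <;> first | omega | linarith
      simp only [← sum_div]
      linarith
    have e4 : ∀ x ∈ Ico (0 : ℤ) n, g (p z) (p x)
        ≤ ∑ a ∈ S, ∑ b ∈ S, (if 2 * b - a = x then g (p z) (p x) else 0)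
          + ∑ a ∈ S, ∑ b ∈ S, (if a < b ∧ a + b = 2 * x then g (p z) (p x) else 0) := by
      intro x hx
      rw [mem_Ico] at hx
      have n1 : ∀ (q : ℤ → ℤ → Prop) [∀ a b, Decidable (q a b)],
          (∃ a ∈ S, ∃ b ∈ S, q a b) → g (p z) (p x)
          ≤ ∑ a ∈ S, ∑ b ∈ S, (if q a b then g (p z) (p x) else 0) := by
        intro q _ ⟨a, ha, b, hb, hab⟩
        have i1 : (if q a b then g (p z) (p x) else 0)
            ≤ ∑ b ∈ S, (if q a b then g (p z) (p x) else 0) :=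
          single_le_sum (f := fun b => if q a b then g (p z) (p x) else 0)
            (fun b _ => by split_ifs; exacts [hg _ _, le_rfl]) hb
        have i2 : ∑ b ∈ S, (if q a b then g (p z) (p x) else 0)
            ≤ ∑ a ∈ S, ∑ b ∈ S, (if q a b then g (p z) (p x) else 0) :=
          single_le_sum (f := fun a => ∑ b ∈ S, if q a b then g (p z) (p x) else 0)
            (fun a _ => sum_nonneg fun b _ => by split_ifs; exacts [hg _ _, le_rfl]) ha
        rw [if_pos hab] at i1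
        exact i1.trans i2
      have n0 : ∀ (q : ℤ → ℤ → Prop) [∀ a b, Decidable (q a b)],
          0 ≤ ∑ a ∈ S, ∑ b ∈ S, (if q a b then g (p z) (p x) else 0) := by
        intro q _
        exact sum_nonneg fun a _ => sum_nonneg fun b _ => by split_ifs; exacts [hg _ _, le_rfl]
      rcases hcov x hx.1 hx.2 with ⟨a, ha, b, hb, h⟩ | ⟨a, ha, b, hb, h1, h2⟩
      · have m1 := n1 (fun a b => 2 * b - a = x) ⟨a, ha, b, hb, h.symm⟩
        have m2 := n0 (fun a b => a < b ∧ a + b = 2 * x)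
        linarith
      · have m1 := n0 (fun a b => 2 * b - a = x)
        have m2 := n1 (fun a b => a < b ∧ a + b = 2 * x) ⟨a, ha, b, hb, h1, h2⟩
        linarith
    have e5 := sum_le_sum e4
    rw [sum_add_distrib] at e5
    have e6 : ∑ a ∈ S, ∑ b ∈ S, ((if 0 < 2 * p b - p a ∧ 2 * p b - p a < 1 then
          g (p z) (2 * p b - p a) else 0) + g (p z) ((p a + p b) / 2) / 2)
        = ∑ a ∈ S, ∑ b ∈ S, (if 0 < 2 * p b - p a ∧ 2 * p b - p a < 1 then
          g (p z) (2 * p b - p a) else 0) + ∑ a ∈ S, ∑ b ∈ S, g (p z) ((p a + p b) / 2) / 2 := by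
      rw [← sum_add_distrib]
      refine sum_congr rfl fun a _ => ?_
      rw [← sum_add_distrib]
    rw [e6, e1]
    linarith
  -- the pair count fact
  have hce : cE * (S.card : ℝ) ^ 2
      ≤ ∑ a ∈ S, ∑ b ∈ S, (if 0 < 2 * p b - p a ∧ 2 * p b - p a < 1 then (1:ℝ) else 0) := by
    refine hCE.trans (le_of_eq ?_)
    unfold lab
    rw [sum_comm]
    refine sum_congr rfl fun a _ => ?_
    rw [sum_comm]
    refine sum_congr rfl fun b _ => ?_
    rw [← pos_lab]
    by_cases c : 0 ≤ 2 * b - a ∧ 2 * b - a < n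
    · rw [if_pos ((pos_window hn _).2 c), sum_ite_eq, if_pos (by rw [mem_Ico]; exact c)]
    · rw [if_neg (fun h => c ((pos_window hn _).1 h)), sum_ite_eq,
        if_neg (by rw [mem_Ico]; exact c)]
  -- assembly
  have hzz : ∀ z ∈ S, γ * n ≤ ∑ a ∈ S, ∑ b ∈ S,
      ((if 0 < 2 * p b - p a ∧ 2 * p b - p a < 1 then g (p z) (2 * p b - p a) + κ (p z) else 0)
        + g (p z) ((p a + p b) / 2) / 2 - cE * κ (p z)) := by
    intro z hzS
    have i1 := hsum (p z) (hpm z hzS).1 (hpm z hzS).2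
    have i2 := hz z hzS
    have i3 : ∑ a ∈ S, ∑ b ∈ S,
        ((if 0 < 2 * p b - p a ∧ 2 * p b - p a < 1 then g (p z) (2 * p b - p a) + κ (p z) else 0)
          + g (p z) ((p a + p b) / 2) / 2 - cE * κ (p z))
        = ∑ a ∈ S, ∑ b ∈ S, ((if 0 < 2 * p b - p a ∧ 2 * p b - p a < 1 then
          g (p z) (2 * p b - p a) else 0) + g (p z) ((p a + p b) / 2) / 2)
        + κ (p z) * (∑ a ∈ S, ∑ b ∈ S,
            (if 0 < 2 * p b - p a ∧ 2 * p b - p a < 1 then (1:ℝ) else 0)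
          - cE * (S.card : ℝ) ^ 2) := by
      have c2 : (S.card : ℝ) ^ 2 = ∑ a ∈ S, ∑ b ∈ S, (1:ℝ) := by
        simp [pow_two]
      rw [c2, mul_sum, ← sum_sub_distrib, mul_sum, ← sum_add_distrib]
      refine sum_congr rfl fun a _ => ?_
      rw [mul_sum, ← sum_sub_distrib, mul_sum, ← sum_add_distrib]
      refine sum_congr rfl fun b _ => ?_
      split_ifs <;> ring
    rw [i3]
    have i4 : 0 ≤ κ (p z) * (∑ a ∈ S, ∑ b ∈ S,
            (if 0 < 2 * p b - p a ∧ 2 * p b - p a < 1 then (1:ℝ) else 0)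
          - cE * (S.card : ℝ) ^ 2) := mul_nonneg (hκ _) (by linarith)
    linarith
  have hlin : 0 ≤ ∑ z ∈ S, ∑ a ∈ S, ∑ b ∈ S, ∑ j ∈ J, ν j (p a) (p b) * ℓ j (p z) := by
    have e : ∑ z ∈ S, ∑ a ∈ S, ∑ b ∈ S, ∑ j ∈ J, ν j (p a) (p b) * ℓ j (p z)
        = ∑ j ∈ J, (∑ a ∈ S, ∑ b ∈ S, ν j (p a) (p b)) * ∑ z ∈ S, ℓ j (p z) := by
      have : ∀ j ∈ J, (∑ a ∈ S, ∑ b ∈ S, ν j (p a) (p b)) * ∑ z ∈ S, ℓ j (p z)
          = ∑ z ∈ S, ∑ a ∈ S, ∑ b ∈ S, ν j (p a) (p b) * ℓ j (p z) := by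
        intro j _
        rw [mul_sum]
        refine sum_congr rfl fun z _ => ?_
        rw [sum_mul]
        refine sum_congr rfl fun a _ => ?_
        rw [sum_mul]
      rw [sum_congr rfl this]
      refine Eq.trans ?_ sum_comm
      refine sum_congr rfl fun z _ => ?_
      refine Eq.trans ?_ sum_comm
      refine sum_congr rfl fun a _ => ?_
      exact sum_comm
    rw [e]
    exact sum_nonneg fun j hj => mul_nonneg
      (sum_nonneg fun a _ => sum_nonneg fun b _ => hν j hj _ _) (hℓ j hj)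
  have hfin : tri S (fun _ => (1:ℝ)) (fun z a b => F g κ cE J ν ℓ (p z) (p a) (p b))
      = ∑ z ∈ S, ∑ a ∈ S, ∑ b ∈ S,
      ((if 0 < 2 * p b - p a ∧ 2 * p b - p a < 1 then g (p z) (2 * p b - p a) + κ (p z) else 0)
        + g (p z) ((p a + p b) / 2) / 2 - cE * κ (p z))
      + ∑ z ∈ S, ∑ a ∈ S, ∑ b ∈ S, ∑ j ∈ J, ν j (p a) (p b) * ℓ j (p z) := by
    unfold tri F
    rw [← sum_add_distrib]
    refine sum_congr rfl fun z _ => ?_
    rw [← sum_add_distrib]
    refine sum_congr rfl fun a _ => ?_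
    rw [← sum_add_distrib]
    refine sum_congr rfl fun b _ => ?_
    ring
  rw [hfin]
  have hs := sum_le_sum hzz
  rw [sum_const, nsmul_eq_mul] at hs
  nlinarith [hs, hlin]

end

end MP61673a.TP
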