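import Pool.Agent.Mu673.Nets
import Pool.Agent.Mu673.ThreePoint

set_option autoImplicit false

/-!
PRICE FACT of the near row: translation from pairs of elements of `A` (positions in `(0,1)`) to the
pairs of the lifted frame. The digits of the lift are equidistributed (`2c - c'` runs through
`[0,4^t)`), so the number of lifted pairs with label below a threshold is a ramp of length one cell;
the middle cell (cut by the centre) is handled by Chebyshev's sum inequality.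
-/

namespace MP61673a.PF

open Finset MP61673a.W MP61673a.TP
open MP61673a.Lift (shift liftN mem_liftN card_liftN dig dig_mem dig_bounds sum_dig sum_liftN card_dig
  lift mem_lift)

noncomputable section

/-- left side `2 x ≤ H` -/
def cutH (H x : ℤ) : ℝ := if 2 * x ≤ H then 1 else 0

lemma cutH_nonneg (H x : ℤ) : 0 ≤ cutH H x := by
  unfold cutH
  split_ifs <;> norm_num

lemma cutH_le_one (H x : ℤ) : cutH H x ≤ 1 := by
  unfold cutH
  split_ifs <;> norm_num

/-- share of the cell `a` on the left side -/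
def wc (t : ℕ) (H a : ℤ) : ℝ := (∑ c ∈ dig t, cutH H (4 ^ t * a + c)) / 2 ^ t

lemma wc_nonneg (t : ℕ) (H a : ℤ) : 0 ≤ wc t H a :=
  div_nonneg (sum_nonneg fun _ _ => cutH_nonneg _ _) (by positivity)

lemma wc_le_one (t : ℕ) (H a : ℤ) : wc t H a ≤ 1 := by
  unfold wc
  rw [div_le_one (by positivity)]
  refine (sum_le_sum fun c _ => cutH_le_one H (4 ^ t * a + c)).trans ?_
  rw [sum_const, card_dig]
  simp

lemma sum_cutH (t : ℕ) (H a : ℤ) : ∑ c ∈ dig t, cutH H (4 ^ t * a + c) = 2 ^ t * wc t H a := by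
  unfold wc
  field_simp

lemma sum_cutH' (t : ℕ) (H a : ℤ) :
    ∑ c ∈ dig t, (1 - cutH H (4 ^ t * a + c)) = 2 ^ t * (1 - wc t H a) := by
  rw [sum_sub_distrib, sum_cutH, sum_const, card_dig]
  simp
  ring

/-- pairs of two cells with label at most `c`, left x right -/
lemma cell_pairs (t : ℕ) (H c a b : ℤ) :
    ∑ α ∈ dig t, ∑ β ∈ dig t, (if 2 * (4 ^ t * b + β) - (4 ^ t * a + α) ≤ c then
        cutH H (4 ^ t * a + α) * (1 - cutH H (4 ^ t * b + β)) else 0)
      ≤ wc t H a * (1 - wc t H b)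
        * ∑ v ∈ Ico (0:ℤ) (4 ^ t), (if 4 ^ t * (2 * b - a) + v ≤ c then (1:ℝ) else 0) := by
  set G : ℤ → ℤ → ℝ := fun α β => if 2 * (4 ^ t * b + β) - (4 ^ t * a + α) ≤ c then 1 else 0 with hG
  set p : ℤ → ℝ := fun α => cutH H (4 ^ t * a + α) with hp
  set q : ℤ → ℝ := fun β => 1 - cutH H (4 ^ t * b + β) with hq
  have hq0 : ∀ β, 0 ≤ q β := fun β => sub_nonneg.2 (cutH_le_one _ _)
  have h2 : (0:ℝ) < 2 ^ t := by positivity
  have e0 : ∑ α ∈ dig t, ∑ β ∈ dig t, (if 2 * (4 ^ t * b + β) - (4 ^ t * a + α) ≤ c then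
        cutH H (4 ^ t * a + α) * (1 - cutH H (4 ^ t * b + β)) else 0)
      = ∑ β ∈ dig t, q β * ∑ α ∈ dig t, G α β * p α := by
    rw [sum_comm]
    refine sum_congr rfl fun β _ => ?_
    rw [mul_sum]
    refine sum_congr rfl fun α _ => ?_
    simp only [hG, hp, hq]
    split_ifs <;> ring
  have s1 : ∀ β ∈ dig t, ∑ α ∈ dig t, G α β * p α ≤ wc t H a * ∑ α ∈ dig t, G α β := by
    intro β _
    have hanti : AntivaryOn (fun α => G α β) p (dig t : Set ℤ) := by
      intro i _ j _ hij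
      simp only [hp, cutH] at hij
      simp only [hG]
      split_ifs at hij with c1 c2 c2
      · exact absurd hij (lt_irrefl _)
      · exact absurd hij (by norm_num)
      · split_ifs with c3 c4
        · exact le_rfl
        · exfalso
          omega
        · norm_num
        · exact le_rfl
      · exact absurd hij (lt_irrefl _)
    have := hanti.card_mul_sum_le_sum_mul_sum
    rw [card_dig] at this
    push_cast at this
    have e : ∑ α ∈ dig t, p α = 2 ^ t * wc t H a := sum_cutH t H a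
    rw [e] at this
    have h3 : (2:ℝ) ^ t * (∑ α ∈ dig t, G α β * p α)
        ≤ 2 ^ t * (wc t H a * ∑ α ∈ dig t, G α β) := by linarith
    exact le_of_mul_le_mul_left h3 h2
  have s2 : ∀ α ∈ dig t, ∑ β ∈ dig t, G α β * q β ≤ (1 - wc t H b) * ∑ β ∈ dig t, G α β := by
    intro α _
    have hanti : AntivaryOn (fun β => G α β) q (dig t : Set ℤ) := by
      intro i _ j _ hij
      simp only [hq, cutH] at hij
      simp only [hG]
      split_ifs at hij with c1 c2 c2
      · exact absurd hij (lt_irrefl _)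
      · split_ifs with c3 c4
        · exact le_rfl
        · exfalso
          omega
        · norm_num
        · exact le_rfl
      · exact absurd hij (by norm_num)
      · exact absurd hij (lt_irrefl _)
    have := hanti.card_mul_sum_le_sum_mul_sum
    rw [card_dig] at this
    push_cast at this
    have e : ∑ β ∈ dig t, q β = 2 ^ t * (1 - wc t H b) := sum_cutH' t H b
    rw [e] at this
    have h3 : (2:ℝ) ^ t * (∑ β ∈ dig t, G α β * q β)
        ≤ 2 ^ t * ((1 - wc t H b) * ∑ β ∈ dig t, G α β) := by linarith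
    exact le_of_mul_le_mul_left h3 h2
  have s3 : ∑ α ∈ dig t, ∑ β ∈ dig t, G α β
      = ∑ v ∈ Ico (0:ℤ) (4 ^ t), (if 4 ^ t * (2 * b - a) + v ≤ c then (1:ℝ) else 0) := by
    rw [← sum_dig, sum_comm]
    refine sum_congr rfl fun β _ => sum_congr rfl fun α _ => ?_
    simp only [hG]
    have : 2 * (4 ^ t * b + β) - (4 ^ t * a + α) = 4 ^ t * (2 * b - a) + (2 * β - α) := by ring
    rw [this]
  rw [e0, ← s3]
  have h4 : ∑ β ∈ dig t, q β * ∑ α ∈ dig t, G α β * p α
      ≤ ∑ β ∈ dig t, q β * (wc t H a * ∑ α ∈ dig t, G α β) :=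
    sum_le_sum fun β hβ => mul_le_mul_of_nonneg_left (s1 β hβ) (hq0 β)
  refine h4.trans ?_
  have e5 : ∑ β ∈ dig t, q β * (wc t H a * ∑ α ∈ dig t, G α β)
      = wc t H a * ∑ α ∈ dig t, ∑ β ∈ dig t, G α β * q β := by
    rw [sum_comm, mul_sum]
    refine sum_congr rfl fun β _ => ?_
    rw [← sum_mul]
    ring
  rw [e5]
  have h6 : ∑ α ∈ dig t, ∑ β ∈ dig t, G α β * q β
      ≤ (1 - wc t H b) * ∑ α ∈ dig t, ∑ β ∈ dig t, G α β := by
    rw [mul_sum]
    exact sum_le_sum fun α hα => s2 α hα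
  calc wc t H a * ∑ α ∈ dig t, ∑ β ∈ dig t, G α β * q β
      ≤ wc t H a * ((1 - wc t H b) * ∑ α ∈ dig t, ∑ β ∈ dig t, G α β) :=
        mul_le_mul_of_nonneg_left h6 (wc_nonneg t H a)
    _ = wc t H a * (1 - wc t H b) * ∑ α ∈ dig t, ∑ β ∈ dig t, G α β := by ring

/-- number of `v ∈ [0,M)` with `M m + v ≤ c` -/
lemma count_le {M m c : ℤ} (hM : 0 < M) {R : ℝ} (h0 : 0 ≤ R)
    (h1 : min 1 ((c + 1 : ℝ) / M - m) ≤ R) :
    ∑ v ∈ Ico (0:ℤ) M, (if M * m + v ≤ c then (1:ℝ) else 0) ≤ M * R := by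
  have hM' : (0:ℝ) < M := by exact_mod_cast hM
  rcases le_total (c + 1) (M * m) with h | h
  · rw [sum_eq_zero]
    · positivity
    · intro v hv
      rw [mem_Ico] at hv
      rw [if_neg (by omega)]
  · rcases le_total M (c + 1 - M * m) with h2 | h2
    · have e1 : (1:ℝ) ≤ R := by
        refine le_trans ?_ h1
        refine le_min le_rfl ?_
        rw [le_sub_iff_add_le, le_div_iff₀ hM']
        have : ((M + M * m : ℤ) : ℝ) ≤ ((c + 1 : ℤ) : ℝ) := by exact_mod_cast (by omega)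
        push_cast at this
        linarith
      calc ∑ v ∈ Ico (0:ℤ) M, (if M * m + v ≤ c then (1:ℝ) else 0)
          ≤ ∑ v ∈ Ico (0:ℤ) M, (1:ℝ) := sum_le_sum fun v _ => by split_ifs <;> norm_num
        _ = M := by
          rw [sum_const, Int.card_Ico, nsmul_eq_mul, mul_one]
          rw [show (M - 0).toNat = M.toNat by simp]
          exact_mod_cast Int.toNat_of_nonneg hM.le
        _ ≤ M * R := by nlinarith
    · have e1 : (c + 1 : ℝ) / M - m ≤ R := by
        refine le_trans (le_min ?_ le_rfl) h1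
        rw [sub_le_iff_le_add, div_le_iff₀ hM']
        have : ((c + 1 : ℤ) : ℝ) ≤ ((M + M * m : ℤ) : ℝ) := by exact_mod_cast (by omega)
        push_cast at this
        linarith
      have e2 : ∑ v ∈ Ico (0:ℤ) M, (if M * m + v ≤ c then (1:ℝ) else 0)
          = ∑ v ∈ Ico (0:ℤ) (c + 1 - M * m), (1:ℝ) := by
        rw [← sum_filter]
        refine sum_congr ?_ fun _ _ => rfl
        ext v
        simp only [mem_filter, mem_Ico]
        omega
      rw [e2, sum_const, Int.card_Ico, nsmul_eq_mul, mul_one]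
      have e3 : (((c + 1 - M * m - 0).toNat : ℕ) : ℝ) = c + 1 - M * m := by
        have : (((c + 1 - M * m - 0).toNat : ℕ) : ℤ) = c + 1 - M * m := by
          rw [Int.toNat_of_nonneg (by omega)]
          ring
        exact_mod_cast this
      rw [e3]
      have e4 : (M:ℝ) * ((c + 1 : ℝ) / M - m) = c + 1 - M * m := by
        field_simp
      rw [← e4]
      exact mul_le_mul_of_nonneg_left e1 hM'.le

/-- all pairs left x right with label at most `c`, for the lifted set -/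
theorem dd_lift {n t : ℕ} (hn : 0 < n) (S : Finset ℤ) {H c : ℤ} {yR : ℝ}
    (hc : (c + 1 : ℝ) ≤ 4 ^ t * (yR * n + 1 / 2)) {R : ℝ → ℝ → ℝ} (h0 : ∀ u v, 0 ≤ R u v)
    (hR : ∀ u v, min 1 (1 - n * (2 * v - u - yR)) ≤ R u v) :
    ∑ x ∈ liftN t S, ∑ x' ∈ liftN t S,
        (if 2 * x' - x ≤ c then cutH H x * (1 - cutH H x') else 0)
      ≤ 4 ^ t * ∑ a ∈ S, ∑ b ∈ S, wc t H a * (1 - wc t H b) * R (pos n a) (pos n b) := by
  have hn' : (0:ℝ) < n := by exact_mod_cast hn
  have h4 : (0:ℝ) < 4 ^ t := by positivity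
  have h4' : (0:ℤ) < 4 ^ t := by positivity
  rw [sum_liftN]
  have e1 : ∀ a ∈ S, ∑ α ∈ dig t, ∑ x' ∈ liftN t S,
        (if 2 * x' - (4 ^ t * a + α) ≤ c then cutH H (4 ^ t * a + α) * (1 - cutH H x') else 0)
      = ∑ b ∈ S, ∑ α ∈ dig t, ∑ β ∈ dig t,
        (if 2 * (4 ^ t * b + β) - (4 ^ t * a + α) ≤ c then
          cutH H (4 ^ t * a + α) * (1 - cutH H (4 ^ t * b + β)) else 0) := by
    intro a _
    have : ∀ α ∈ dig t, ∑ x' ∈ liftN t S,
        (if 2 * x' - (4 ^ t * a + α) ≤ c then cutH H (4 ^ t * a + α) * (1 - cutH H x') else 0)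
        = ∑ b ∈ S, ∑ β ∈ dig t, (if 2 * (4 ^ t * b + β) - (4 ^ t * a + α) ≤ c then
          cutH H (4 ^ t * a + α) * (1 - cutH H (4 ^ t * b + β)) else 0) :=
      fun α _ => sum_liftN t S _
    rw [sum_congr rfl this, sum_comm]
  rw [sum_congr rfl e1, mul_sum]
  refine sum_le_sum fun a _ => ?_
  rw [mul_sum]
  refine sum_le_sum fun b _ => ?_
  refine (cell_pairs t H c a b).trans ?_
  have hw : 0 ≤ wc t H a * (1 - wc t H b) :=
    mul_nonneg (wc_nonneg _ _ _) (sub_nonneg.2 (wc_le_one _ _ _))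
  have hk := count_le (m := 2 * b - a) (c := c) h4' (h0 (pos n a) (pos n b)) (by
    refine le_trans ?_ (hR (pos n a) (pos n b))
    refine min_le_min le_rfl ?_
    have e2 : (n:ℝ) * (2 * pos n b - pos n a - yR) = 2 * b - a + 1 / 2 - yR * n := by
      unfold pos
      field_simp
      ring
    rw [e2]
    have e3 : (c + 1 : ℝ) / 4 ^ t ≤ yR * n + 1 / 2 := by
      rw [div_le_iff₀ h4]
      linarith
    push_cast
    linarith)
  push_cast at hk
  calc wc t H a * (1 - wc t H b)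
        * ∑ v ∈ Ico (0:ℤ) (4 ^ t), (if 4 ^ t * (2 * b - a) + v ≤ c then (1:ℝ) else 0)
      ≤ wc t H a * (1 - wc t H b) * (4 ^ t * R (pos n a) (pos n b)) :=
        mul_le_mul_of_nonneg_left hk hw
    _ = 4 ^ t * (wc t H a * (1 - wc t H b) * R (pos n a) (pos n b)) := by ring

/-- cells left of the centre -/
lemma wc_left {n t : ℕ} {H a : ℤ} (h1 : 3 * (4 ^ t * (n:ℤ)) - 2 * 4 ^ t - 4 ≤ 3 * H)
    (ha : 2 * a + 1 < n) : wc t H a = 1 := by
  unfold wc
  have h4 : (0:ℤ) < 4 ^ t := by positivity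
  have : ∀ c ∈ dig t, cutH H (4 ^ t * a + c) = 1 := by
    intro c hc
    have d := dig_mem hc
    have k : (4:ℤ) ^ t * (2 * a + 2) ≤ 4 ^ t * n := mul_le_mul_of_nonneg_left (by omega) h4.le
    have k2 : (4:ℤ) ^ t * (2 * a + 2) = 2 * (4 ^ t * a) + 2 * 4 ^ t := by ring
    unfold cutH
    rw [if_pos (by linarith [d.2])]
  rw [sum_congr rfl this, sum_const, card_dig]
  simp

/-- cells right of the centre -/
lemma wc_right {n t : ℕ} {H a : ℤ} (h1 : 3 * H < 3 * (4 ^ t * (n:ℤ)) + 2 * 4 ^ t - 2)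
    (ha : (n:ℤ) < 2 * a + 1) : wc t H a = 0 := by
  unfold wc
  have h4 : (0:ℤ) < 4 ^ t := by positivity
  have : ∀ c ∈ dig t, cutH H (4 ^ t * a + c) = 0 := by
    intro c hc
    have d := dig_mem hc
    have k : (4:ℤ) ^ t * n ≤ 4 ^ t * (2 * a) := mul_le_mul_of_nonneg_left (by omega) h4.le
    have k2 : (4:ℤ) ^ t * (2 * a) = 2 * (4 ^ t * a) := by ring
    unfold cutH
    rw [if_neg (by linarith [d.1])]
  rw [sum_congr rfl this, sum_const_zero, zero_div]

/-- number of `v ∈ [0,M)` with `M m + v ≤ c`, from below -/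
lemma count_ge {M m c : ℤ} (hM : 0 < M) {r : ℝ} (h1 : r ≤ max 0 (min 1 ((c + 1 : ℝ) / M - m))) :
    M * r ≤ ∑ v ∈ Ico (0:ℤ) M, (if M * m + v ≤ c then (1:ℝ) else 0) := by
  have hM' : (0:ℝ) < M := by exact_mod_cast hM
  have hs0 : 0 ≤ ∑ v ∈ Ico (0:ℤ) M, (if M * m + v ≤ c then (1:ℝ) else 0) :=
    sum_nonneg fun v _ => by split_ifs <;> norm_num
  by_cases hr : r ≤ 0
  · exact (mul_nonpos_of_nonneg_of_nonpos hM'.le hr).trans hs0
  push Not at hr
  have h2 : r ≤ min 1 ((c + 1 : ℝ) / M - m) := by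
    rcases le_max_iff.1 h1 with h | h
    · linarith
    · exact h
  have ha : r ≤ 1 := h2.trans (min_le_left _ _)
  have hb : r ≤ (c + 1 : ℝ) / M - m := h2.trans (min_le_right _ _)
  have hb2 : M * r ≤ c + 1 - M * m := by
    have := mul_le_mul_of_nonneg_left hb hM'.le
    have e : (M:ℝ) * ((c + 1 : ℝ) / M - m) = c + 1 - M * m := by field_simp
    linarith
  rcases le_total M (c + 1 - M * m) with h3 | h3
  · have e : ∑ v ∈ Ico (0:ℤ) M, (if M * m + v ≤ c then (1:ℝ) else 0)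
        = ∑ v ∈ Ico (0:ℤ) M, (1:ℝ) := by
      refine sum_congr rfl fun v hv => ?_
      rw [mem_Ico] at hv
      rw [if_pos (by omega)]
    rw [e, sum_const, Int.card_Ico, nsmul_eq_mul, mul_one]
    have e3 : (((M - 0).toNat : ℕ) : ℝ) = M := by
      have : (((M - 0).toNat : ℕ) : ℤ) = M := by
        rw [Int.toNat_of_nonneg (by omega)]
        ring
      exact_mod_cast this
    rw [e3]
    nlinarith
  · have hpos : 0 < c + 1 - M * m := by
      have : (0:ℝ) < ((c + 1 - M * m : ℤ) : ℝ) := by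
        push_cast
        have := mul_pos hM' hr
        linarith
      exact_mod_cast this
    have e2 : ∑ v ∈ Ico (0:ℤ) M, (if M * m + v ≤ c then (1:ℝ) else 0)
        = ∑ v ∈ Ico (0:ℤ) (c + 1 - M * m), (1:ℝ) := by
      rw [← sum_filter]
      refine sum_congr ?_ fun _ _ => rfl
      ext v
      simp only [mem_filter, mem_Ico]
      omega
    rw [e2, sum_const, Int.card_Ico, nsmul_eq_mul, mul_one]
    have e3 : (((c + 1 - M * m - 0).toNat : ℕ) : ℝ) = c + 1 - M * m := by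
      have : (((c + 1 - M * m - 0).toNat : ℕ) : ℤ) = c + 1 - M * m := by
        rw [Int.toNat_of_nonneg (by omega)]
        ring
      exact_mod_cast this
    rw [e3]
    exact hb2

lemma liftN_succ' (t : ℕ) (A : Finset ℤ) : liftN (t + 1) A = liftN t (lift A) := by
  induction t with
  | zero => rfl
  | succ t ih =>
    rw [MP61673a.Lift.liftN_succ, ih, ← MP61673a.Lift.liftN_succ]

/-- leading digit -/
lemma sum_dig_lead (s : ℕ) (f : ℤ → ℝ) :
    ∑ c ∈ dig (s + 1), f c = ∑ c ∈ dig s, f (4 ^ s + c) + ∑ c ∈ dig s, f (2 * 4 ^ s + c) := by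
  unfold dig
  rw [liftN_succ']
  have e : lift {0} = {1, 2} := by decide
  rw [e, sum_liftN, sum_insert (by decide), sum_singleton]
  congr 1
  · refine sum_congr rfl fun c _ => ?_
    rw [mul_one]
  · refine sum_congr rfl fun c _ => ?_
    rw [mul_comm]

/-- the left part of the middle cell: leading digit `1` -/
lemma cut_mid {n s : ℕ} (hs : 3 ≤ s) {H a : ℤ} (ha : 2 * a + 1 = (n:ℤ))
    (hH1 : 4 ^ (s + 1) * (n:ℤ) - 12 ≤ H) (hH2 : H ≤ 4 ^ (s + 1) * (n:ℤ) + 12) {c : ℤ}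
    (hc : c ∈ dig s) :
    cutH H (4 ^ (s + 1) * a + (4 ^ s + c)) = 1 ∧ cutH H (4 ^ (s + 1) * a + (2 * 4 ^ s + c)) = 0 := by
  have d := dig_mem hc
  have hW : (64:ℤ) ≤ 4 ^ s := by
    calc (64:ℤ) = 4 ^ 3 := by norm_num
      _ ≤ 4 ^ s := pow_le_pow_right₀ (by norm_num) hs
  have e : (4:ℤ) ^ (s + 1) * n = 2 * (4 ^ (s + 1) * a) + 4 * 4 ^ s := by
    rw [← ha, pow_succ]
    ring
  unfold cutH
  constructor
  · rw [if_pos (by linarith [d.2])]
  · rw [if_neg (by linarith [d.1])]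

/-- `wc = 1/2` for the middle cell -/
lemma wc_mid {n s : ℕ} (hs : 3 ≤ s) {H a : ℤ} (ha : 2 * a + 1 = (n:ℤ))
    (hH1 : 4 ^ (s + 1) * (n:ℤ) - 12 ≤ H) (hH2 : H ≤ 4 ^ (s + 1) * (n:ℤ) + 12) :
    wc (s + 1) H a = 1 / 2 := by
  unfold wc
  rw [sum_dig_lead s (fun c => cutH H (4 ^ (s + 1) * a + c))]
  have e1 : ∑ c ∈ dig s, cutH H (4 ^ (s + 1) * a + (4 ^ s + c)) = ∑ c ∈ dig s, (1:ℝ) :=
    sum_congr rfl fun c hc => (cut_mid hs ha hH1 hH2 hc).1
  have e2 : ∑ c ∈ dig s, cutH H (4 ^ (s + 1) * a + (2 * 4 ^ s + c)) = 0 :=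
    sum_eq_zero fun c hc => (cut_mid hs ha hH1 hH2 hc).2
  rw [e1, e2, sum_const, card_dig, pow_succ]
  simp
  field_simp

/-- the ramp at `y = yL` -/
def rampL (n : ℕ) (yL s y : ℝ) : ℝ := max 0 (min 1 (yL * n + s - n * y))

lemma rampL_nonneg (n : ℕ) (yL s y : ℝ) : 0 ≤ rampL n yL s y := le_max_left _ _

lemma rampL_diff (n : ℕ) (yL y : ℝ) : rampL n yL (49 / 100) y ≤ rampL n yL (24 / 100) y + 1 / 4 := by
  unfold rampL
  refine max_le ?_ ?_
  · have := le_max_left (0:ℝ) (min 1 (yL * n + 24 / 100 - n * y))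
    linarith
  · have h1 := le_max_right (0:ℝ) (min 1 (yL * n + 24 / 100 - n * y))
    rcases le_total (1:ℝ) (yL * n + 24 / 100 - n * y) with h | h
    · rw [min_eq_left h] at h1 ⊢
      have := min_le_left (1:ℝ) (yL * n + 49 / 100 - n * y)
      linarith
    · rw [min_eq_right h] at h1 ⊢
      have := min_le_right (1:ℝ) (yL * n + 49 / 100 - n * y)
      linarith

lemma rampL_anti (n : ℕ) (yL y : ℝ) : rampL n yL (24 / 100) y ≤ rampL n yL (49 / 100) y := by
  unfold rampL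
  exact max_le_max le_rfl (min_le_min le_rfl (by linarith))

/-- pairs left x left, doubled element at least `c3`, of two cells, from below; error of the middle
cell -/
lemma cell_nn {n s : ℕ} (hs : 4 ≤ s) {yL : ℝ} {H a b c c3 : ℤ}
    (hH1 : 4 ^ (s + 1) * (n:ℤ) - 12 ≤ H) (hH2 : H ≤ 4 ^ (s + 1) * (n:ℤ) + 12)
    (hc : (4:ℝ) ^ (s + 1) * (yL * n - 1 / 100) ≤ c + 1)
    (hb : 3 * c3 ≤ 3 * (4 ^ (s + 1) * b) + (4 ^ (s + 1) - 1)) {μ : ℝ} (hn : 0 < n)
    (hμ : μ ≤ rampL n yL (49 / 100) (2 * pos n b - pos n a)) (hbm : 2 * b + 1 < (n:ℤ)) :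
    4 ^ (s + 1) * (wc (s + 1) H a * wc (s + 1) H b * μ)
      ≤ ∑ α ∈ dig (s + 1), ∑ β ∈ dig (s + 1),
        (if 2 * (4 ^ (s + 1) * b + β) - (4 ^ (s + 1) * a + α) ≤ c then
          cutH H (4 ^ (s + 1) * a + α)
            * (if c3 ≤ 4 ^ (s + 1) * b + β then cutH H (4 ^ (s + 1) * b + β) else 0) else 0)
        + 4 ^ (s + 1) * (if 2 * a + 1 = (n:ℤ) then 1 / 2 *
          (rampL n yL (49 / 100) (2 * pos n b - pos n a)
            - rampL n yL (24 / 100) (2 * pos n b - pos n a)) else 0) := by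
  have hn' : (0:ℝ) < n := by exact_mod_cast hn
  have h4 : (0:ℤ) < 4 ^ (s + 1) := by positivity
  have h4r : (0:ℝ) < 4 ^ (s + 1) := by positivity
  have hW : (256:ℤ) ≤ 4 ^ s := by
    calc (256:ℤ) = 4 ^ 4 := by norm_num
      _ ≤ 4 ^ s := pow_le_pow_right₀ (by norm_num) hs
  have hW1 : (4:ℤ) ^ (s + 1) = 4 * 4 ^ s := by rw [pow_succ]; ring
  have hL1 : 3 * (4 ^ (s + 1) * (n:ℤ)) - 2 * 4 ^ (s + 1) - 4 ≤ 3 * H := by linarith
  have hL2 : 3 * H < 3 * (4 ^ (s + 1) * (n:ℤ)) + 2 * 4 ^ (s + 1) - 2 := by linarith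
  have ey : (n:ℝ) * (2 * pos n b - pos n a) = 2 * b - a + 1 / 2 := by
    unfold pos
    field_simp
    ring
  -- all elements of `b` are on the left side and doubled
  have hcb : ∀ β ∈ dig (s + 1), (if c3 ≤ 4 ^ (s + 1) * b + β then
      cutH H (4 ^ (s + 1) * b + β) else 0) = 1 := by
    intro β hβ
    have d := dig_mem hβ
    have k : (4:ℤ) ^ (s + 1) * (2 * b + 2) ≤ 4 ^ (s + 1) * n :=
      mul_le_mul_of_nonneg_left (by omega) h4.le
    have k2 : (4:ℤ) ^ (s + 1) * (2 * b + 2) = 2 * (4 ^ (s + 1) * b) + 2 * 4 ^ (s + 1) := by ring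
    rw [if_pos (by linarith [d.1])]
    unfold cutH
    rw [if_pos (by linarith [d.2])]
  have wb : wc (s + 1) H b = 1 := wc_left hL1 hbm
  have e0 : ∑ α ∈ dig (s + 1), ∑ β ∈ dig (s + 1),
        (if 2 * (4 ^ (s + 1) * b + β) - (4 ^ (s + 1) * a + α) ≤ c then
          cutH H (4 ^ (s + 1) * a + α)
            * (if c3 ≤ 4 ^ (s + 1) * b + β then cutH H (4 ^ (s + 1) * b + β) else 0) else 0)
      = ∑ α ∈ dig (s + 1), ∑ β ∈ dig (s + 1),
        (if 4 ^ (s + 1) * (2 * b - a) + (2 * β - α) ≤ c then cutH H (4 ^ (s + 1) * a + α)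
          else 0) := by
    refine sum_congr rfl fun α _ => sum_congr rfl fun β hβ => ?_
    rw [hcb β hβ, mul_one]
    have : 2 * (4 ^ (s + 1) * b + β) - (4 ^ (s + 1) * a + α)
        = 4 ^ (s + 1) * (2 * b - a) + (2 * β - α) := by ring
    rw [this]
  rw [e0, wb, mul_one]
  rcases lt_trichotomy (2 * a + 1) (n:ℤ) with ha | ha | ha
  · -- left cell
    rw [if_neg (by omega), mul_zero, add_zero, wc_left hL1 ha, one_mul]
    have e1 : ∑ α ∈ dig (s + 1), ∑ β ∈ dig (s + 1),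
        (if 4 ^ (s + 1) * (2 * b - a) + (2 * β - α) ≤ c then cutH H (4 ^ (s + 1) * a + α)
          else 0)
        = ∑ v ∈ Ico (0:ℤ) (4 ^ (s + 1)),
          (if 4 ^ (s + 1) * (2 * b - a) + v ≤ c then (1:ℝ) else 0) := by
      rw [← sum_dig, sum_comm]
      refine sum_congr rfl fun β _ => sum_congr rfl fun α hα => ?_
      have d := dig_mem hα
      have k : (4:ℤ) ^ (s + 1) * (2 * a + 2) ≤ 4 ^ (s + 1) * n :=
        mul_le_mul_of_nonneg_left (by omega) h4.le
      have k2 : (4:ℤ) ^ (s + 1) * (2 * a + 2) = 2 * (4 ^ (s + 1) * a) + 2 * 4 ^ (s + 1) := by ring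
      have : cutH H (4 ^ (s + 1) * a + α) = 1 := by
        unfold cutH
        rw [if_pos (by linarith [d.2])]
      rw [this]
    rw [e1]
    have k := count_ge (M := 4 ^ (s + 1)) (m := 2 * b - a) (c := c) h4 (r := μ) (by
      refine hμ.trans ?_
      unfold rampL
      refine max_le_max le_rfl (min_le_min le_rfl ?_)
      rw [ey]
      push_cast
      have : yL * (n:ℝ) - 1 / 100 ≤ (c + 1) / 4 ^ (s + 1) := by
        rw [le_div_iff₀ h4r]
        linarith
      linarith)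
    push_cast at k
    exact k
  · -- middle cell
    rw [if_pos ha, wc_mid (by omega) ha hH1 hH2]
    have e1 : ∑ α ∈ dig (s + 1), ∑ β ∈ dig (s + 1),
        (if 4 ^ (s + 1) * (2 * b - a) + (2 * β - α) ≤ c then cutH H (4 ^ (s + 1) * a + α)
          else 0)
        = ∑ γ ∈ dig s, ∑ β ∈ dig (s + 1),
          (if 4 ^ (s + 1) * (2 * b - a) + (2 * β - (4 ^ s + γ)) ≤ c then (1:ℝ) else 0) := by
      rw [sum_dig_lead s (fun α => ∑ β ∈ dig (s + 1),
        (if 4 ^ (s + 1) * (2 * b - a) + (2 * β - α) ≤ c then cutH H (4 ^ (s + 1) * a + α)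
          else 0))]
      have z : ∑ γ ∈ dig s, ∑ β ∈ dig (s + 1),
          (if 4 ^ (s + 1) * (2 * b - a) + (2 * β - (2 * 4 ^ s + γ)) ≤ c then
            cutH H (4 ^ (s + 1) * a + (2 * 4 ^ s + γ)) else 0) = 0 := by
        refine sum_eq_zero fun γ hγ => sum_eq_zero fun β _ => ?_
        rw [(cut_mid (by omega) ha hH1 hH2 hγ).2]
        simp
      rw [z, add_zero]
      refine sum_congr rfl fun γ hγ => sum_congr rfl fun β _ => ?_
      rw [(cut_mid (by omega) ha hH1 hH2 hγ).1]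
    rw [e1]
    have e2 : ∑ v ∈ Ico (0:ℤ) (4 ^ (s + 1)),
          (if 4 ^ (s + 1) * (2 * b - a) + v ≤ c - 4 ^ s then (1:ℝ) else 0)
        ≤ 2 * ∑ γ ∈ dig s, ∑ β ∈ dig (s + 1),
          (if 4 ^ (s + 1) * (2 * b - a) + (2 * β - (4 ^ s + γ)) ≤ c then (1:ℝ) else 0) := by
      rw [← sum_dig, sum_comm]
      rw [sum_dig_lead s (fun α => ∑ β ∈ dig (s + 1),
        (if 4 ^ (s + 1) * (2 * b - a) + (2 * β - α) ≤ c - 4 ^ s then (1:ℝ) else 0))]
      have u1 : ∑ γ ∈ dig s, ∑ β ∈ dig (s + 1),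
          (if 4 ^ (s + 1) * (2 * b - a) + (2 * β - (4 ^ s + γ)) ≤ c - 4 ^ s then (1:ℝ) else 0)
          ≤ ∑ γ ∈ dig s, ∑ β ∈ dig (s + 1),
          (if 4 ^ (s + 1) * (2 * b - a) + (2 * β - (4 ^ s + γ)) ≤ c then (1:ℝ) else 0) := by
        refine sum_le_sum fun γ _ => sum_le_sum fun β _ => ?_
        split_ifs with q1 q2
        · exact le_rfl
        · exact absurd (show _ ≤ c by linarith) q2
        · norm_num
        · exact le_rfl
      have u2 : ∑ γ ∈ dig s, ∑ β ∈ dig (s + 1),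
          (if 4 ^ (s + 1) * (2 * b - a) + (2 * β - (2 * 4 ^ s + γ)) ≤ c - 4 ^ s then (1:ℝ) else 0)
          ≤ ∑ γ ∈ dig s, ∑ β ∈ dig (s + 1),
          (if 4 ^ (s + 1) * (2 * b - a) + (2 * β - (4 ^ s + γ)) ≤ c then (1:ℝ) else 0) := by
        refine sum_le_sum fun γ _ => sum_le_sum fun β _ => ?_
        split_ifs with q1 q2
        · exact le_rfl
        · exact absurd (show _ ≤ c by linarith) q2
        · norm_num
        · exact le_rfl
      linarith
    have k := count_ge (M := 4 ^ (s + 1)) (m := 2 * b - a) (c := c - 4 ^ s) h4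
      (r := rampL n yL (24 / 100) (2 * pos n b - pos n a)) (by
      unfold rampL
      refine max_le_max le_rfl (min_le_min le_rfl ?_)
      rw [ey]
      push_cast
      have : yL * (n:ℝ) - 1 / 100 - 1 / 4 ≤ (c - 4 ^ s + 1) / 4 ^ (s + 1) := by
        rw [le_div_iff₀ h4r]
        have e : (4:ℝ) ^ (s + 1) = 4 * 4 ^ s := by rw [pow_succ]; ring
        rw [e] at hc ⊢
        linarith
      linarith)
    push_cast at k
    have k3 := mul_le_mul_of_nonneg_left hμ h4r.le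
    linarith
  · -- right cell
    rw [if_neg (by omega), mul_zero, add_zero, wc_right hL2 ha, zero_mul, mul_zero]
    refine sum_nonneg fun α _ => sum_nonneg fun β _ => ?_
    split_ifs
    · exact cutH_nonneg _ _
    · exact le_rfl

/-- at most one partner of the middle cell sees the ramp -/
lemma mid_once {n : ℕ} (hn : 0 < n) (yL : ℝ) (S : Finset ℤ) (a : ℤ) :
    ∑ b ∈ S, (rampL n yL (49 / 100) (2 * pos n b - pos n a)
      - rampL n yL (24 / 100) (2 * pos n b - pos n a)) ≤ 1 / 4 := by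
  have hn' : (0:ℝ) < n := by exact_mod_cast hn
  have ey : ∀ b : ℤ, (n:ℝ) * (2 * pos n b - pos n a) = 2 * b - a + 1 / 2 := by
    intro b
    unfold pos
    field_simp
    ring
  have hz : ∀ b : ℤ, (rampL n yL (49 / 100) (2 * pos n b - pos n a)
      - rampL n yL (24 / 100) (2 * pos n b - pos n a)) ≠ 0 →
      (0:ℝ) < yL * n + 49 / 100 - (2 * b - a + 1 / 2) ∧
      yL * n + 49 / 100 - (2 * b - a + 1 / 2) < (5:ℝ) / 4 := by
    intro b hne
    constructor
    · by_contra hc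
      apply hne
      unfold rampL
      rw [ey]
      rw [max_eq_left ((min_le_right _ _).trans (by linarith)),
        max_eq_left ((min_le_right _ _).trans (by linarith)), sub_zero]
    · by_contra hc
      apply hne
      unfold rampL
      rw [ey]
      rw [min_eq_left (by linarith), min_eq_left (by linarith)]
      norm_num
  by_cases hex : ∃ b0 ∈ S, (rampL n yL (49 / 100) (2 * pos n b0 - pos n a)
      - rampL n yL (24 / 100) (2 * pos n b0 - pos n a)) ≠ 0
  · obtain ⟨b0, hb0, hne⟩ := hex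
    rw [sum_eq_single b0]
    · have := rampL_diff n yL (2 * pos n b0 - pos n a)
      linarith
    · intro b _ hb
      by_contra hne2
      have h1 := hz b0 hne
      have h2 := hz b hne2
      have h3 : (2:ℝ) * b - 2 * b0 < 5 / 4 := by linarith [h1.2, h2.1]
      have h4 : (2:ℝ) * b0 - 2 * b < 5 / 4 := by linarith [h1.1, h2.2]
      have h5 : 2 * b - 2 * b0 < 2 := by
        have : (2:ℝ) * b - 2 * b0 < 2 := by linarith
        exact_mod_cast this
      have h6 : 2 * b0 - 2 * b < 2 := by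
        have : (2:ℝ) * b0 - 2 * b < 2 := by linarith
        exact_mod_cast this
      exact hb (by omega)
    · intro h
      exact absurd hb0 h
  · push Not at hex
    rw [sum_eq_zero hex]
    norm_num

/-- pairs of the left side whose doubled element is at least `c3`, label at most `c`, for the lifted
set, from below -/
theorem nn_lift {n s : ℕ} (hn : 0 < n) (hs : 4 ≤ s) (S : Finset ℤ) {yL : ℝ} {H c c3 : ℤ}
    {M : ℝ → ℝ → ℝ} (hH1 : 4 ^ (s + 1) * (n:ℤ) - 12 ≤ H) (hH2 : H ≤ 4 ^ (s + 1) * (n:ℤ) + 12)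
    (hc : (4:ℝ) ^ (s + 1) * (yL * n - 1 / 100) ≤ c + 1)
    (hM0 : ∀ a ∈ S, ∀ b ∈ S, M (pos n a) (pos n b) ≤ rampL n yL (49 / 100) (2 * pos n b - pos n a))
    (hM : ∀ a ∈ S, ∀ b ∈ S,
      (3 * c3 ≤ 3 * (4 ^ (s + 1) * b) + (4 ^ (s + 1) - 1) ∧ 2 * b + 1 < (n:ℤ)) ∨
        M (pos n a) (pos n b) ≤ 0 ∨ (n:ℤ) < 2 * a + 1) :
    4 ^ (s + 1) * ∑ a ∈ S, ∑ b ∈ S, wc (s + 1) H a * wc (s + 1) H b * M (pos n a) (pos n b)
      ≤ ∑ x ∈ liftN (s + 1) S, ∑ x' ∈ liftN (s + 1) S,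
        (if 2 * x' - x ≤ c then cutH H x * (if c3 ≤ x' then cutH H x' else 0) else 0)
        + 4 ^ (s + 1) * (1 / 8) := by
  have h4r : (0:ℝ) < 4 ^ (s + 1) := by positivity
  have e0 : ∑ x ∈ liftN (s + 1) S, ∑ x' ∈ liftN (s + 1) S,
        (if 2 * x' - x ≤ c then cutH H x * (if c3 ≤ x' then cutH H x' else 0) else 0)
      = ∑ a ∈ S, ∑ b ∈ S, ∑ α ∈ dig (s + 1), ∑ β ∈ dig (s + 1),
        (if 2 * (4 ^ (s + 1) * b + β) - (4 ^ (s + 1) * a + α) ≤ c then
          cutH H (4 ^ (s + 1) * a + α)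
            * (if c3 ≤ 4 ^ (s + 1) * b + β then cutH H (4 ^ (s + 1) * b + β) else 0)
          else 0) := by
    rw [sum_liftN]
    refine sum_congr rfl fun a _ => ?_
    have : ∀ α ∈ dig (s + 1), ∑ x' ∈ liftN (s + 1) S,
        (if 2 * x' - (4 ^ (s + 1) * a + α) ≤ c then
          cutH H (4 ^ (s + 1) * a + α) * (if c3 ≤ x' then cutH H x' else 0) else 0)
        = ∑ b ∈ S, ∑ β ∈ dig (s + 1),
          (if 2 * (4 ^ (s + 1) * b + β) - (4 ^ (s + 1) * a + α) ≤ c then
          cutH H (4 ^ (s + 1) * a + α)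
            * (if c3 ≤ 4 ^ (s + 1) * b + β then cutH H (4 ^ (s + 1) * b + β) else 0)
          else 0) :=
      fun α _ => sum_liftN (s + 1) S _
    rw [sum_congr rfl this, sum_comm]
  rw [e0, mul_sum]
  have hpt : ∀ a ∈ S, ∀ b ∈ S,
      4 ^ (s + 1) * (wc (s + 1) H a * wc (s + 1) H b * M (pos n a) (pos n b))
      ≤ ∑ α ∈ dig (s + 1), ∑ β ∈ dig (s + 1),
        (if 2 * (4 ^ (s + 1) * b + β) - (4 ^ (s + 1) * a + α) ≤ c then
          cutH H (4 ^ (s + 1) * a + α)
            * (if c3 ≤ 4 ^ (s + 1) * b + β then cutH H (4 ^ (s + 1) * b + β) else 0) else 0)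
        + 4 ^ (s + 1) * (if 2 * a + 1 = (n:ℤ) then 1 / 2 *
          (rampL n yL (49 / 100) (2 * pos n b - pos n a)
            - rampL n yL (24 / 100) (2 * pos n b - pos n a)) else 0) := by
    intro a ha b hb
    by_cases hgood : (3 * c3 ≤ 3 * (4 ^ (s + 1) * b) + (4 ^ (s + 1) - 1) ∧ 2 * b + 1 < (n:ℤ))
    · exact cell_nn hs hH1 hH2 hc hgood.1 hn (hM0 a ha b hb) hgood.2
    · have w0 : 0 ≤ wc (s + 1) H a * wc (s + 1) H b := mul_nonneg (wc_nonneg _ _ _) (wc_nonneg _ _ _)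
      have q1 : 4 ^ (s + 1) * (wc (s + 1) H a * wc (s + 1) H b * M (pos n a) (pos n b)) ≤ 0 := by
        rcases hM a ha b hb with k | k | k
        · exact absurd k hgood
        · exact mul_nonpos_of_nonneg_of_nonpos h4r.le (mul_nonpos_of_nonneg_of_nonpos w0 k)
        · have hL2 : 3 * H < 3 * (4 ^ (s + 1) * (n:ℤ)) + 2 * 4 ^ (s + 1) - 2 := by
            have hW : (256:ℤ) ≤ 4 ^ s := by
              calc (256:ℤ) = 4 ^ 4 := by norm_num
                _ ≤ 4 ^ s := pow_le_pow_right₀ (by norm_num) hs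
            have hW1 : (4:ℤ) ^ (s + 1) = 4 * 4 ^ s := by rw [pow_succ]; ring
            linarith
          rw [wc_right hL2 k, zero_mul, zero_mul, mul_zero]
      have q2 : 0 ≤ ∑ α ∈ dig (s + 1), ∑ β ∈ dig (s + 1),
        (if 2 * (4 ^ (s + 1) * b + β) - (4 ^ (s + 1) * a + α) ≤ c then
          cutH H (4 ^ (s + 1) * a + α)
            * (if c3 ≤ 4 ^ (s + 1) * b + β then cutH H (4 ^ (s + 1) * b + β) else 0) else 0) := by
        refine sum_nonneg fun α _ => sum_nonneg fun β _ => ?_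
        split_ifs
        · exact mul_nonneg (cutH_nonneg _ _) (cutH_nonneg _ _)
        · simp
        · exact le_rfl
      have q3 : 0 ≤ (4:ℝ) ^ (s + 1) * (if 2 * a + 1 = (n:ℤ) then 1 / 2 *
          (rampL n yL (49 / 100) (2 * pos n b - pos n a)
            - rampL n yL (24 / 100) (2 * pos n b - pos n a)) else 0) := by
        refine mul_nonneg h4r.le ?_
        split_ifs
        · have := rampL_anti n yL (2 * pos n b - pos n a)
          linarith
        · exact le_rfl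
      linarith
  have hs1 : ∀ a ∈ S, 4 ^ (s + 1) * ∑ b ∈ S, wc (s + 1) H a * wc (s + 1) H b * M (pos n a) (pos n b)
      ≤ ∑ b ∈ S, ∑ α ∈ dig (s + 1), ∑ β ∈ dig (s + 1),
        (if 2 * (4 ^ (s + 1) * b + β) - (4 ^ (s + 1) * a + α) ≤ c then
          cutH H (4 ^ (s + 1) * a + α)
            * (if c3 ≤ 4 ^ (s + 1) * b + β then cutH H (4 ^ (s + 1) * b + β) else 0) else 0)
        + (if 2 * a + 1 = (n:ℤ) then 4 ^ (s + 1) * (1 / 8) else 0) := by
    intro a ha
    have q := sum_le_sum (hpt a ha)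
    rw [← mul_sum, sum_add_distrib] at q
    refine q.trans (add_le_add le_rfl ?_)
    rw [← mul_sum]
    by_cases c1 : 2 * a + 1 = (n:ℤ)
    · simp only [if_pos c1]
      rw [← mul_sum]
      have := mid_once hn yL S a
      have h5 := mul_le_mul_of_nonneg_left this h4r.le
      linarith
    · simp only [if_neg c1]
      simp
  have hs2 := sum_le_sum hs1
  rw [sum_add_distrib] at hs2
  refine hs2.trans (add_le_add le_rfl ?_)
  have one : ∀ x : ℝ, 0 ≤ x → ∑ b ∈ S, (if 2 * b + 1 = (n:ℤ) then x else 0) ≤ x := by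
    intro x hx
    by_cases hm : ∃ m ∈ S, 2 * m + 1 = (n:ℤ)
    · obtain ⟨m, hmS, hm⟩ := hm
      rw [sum_eq_single m]
      · rw [if_pos hm]
      · intro b _ hb
        rw [if_neg (fun h => hb (by omega))]
      · intro h
        exact absurd hmS h
    · rw [sum_eq_zero]
      · exact hx
      · intro b hb
        rw [if_neg (fun h => hm ⟨b, hb, h⟩)]
  exact one _ (by positivity)

/-- A side assignment: the middle element may be on either side. -/
def Side (n : ℕ) (sd : ℤ → Bool) : Prop :=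
  (∀ a, 2 * a + 1 < (n:ℤ) → sd a = true) ∧ ∀ a, (n:ℤ) < 2 * a + 1 → sd a = false

/-- THE PAIR STATEMENT for a set of cells: left x right pairs with majorant `R`, left x left pairs
with minorant `M` -/
def PairCert (n : ℕ) (S : Finset ℤ) (R M : ℝ → ℝ → ℝ) (τ : ℝ) : Prop :=
  ∀ sd : ℤ → Bool, Side n sd →
    ∑ a ∈ S, ∑ b ∈ S, ((if sd a = true ∧ sd b = false then R (pos n a) (pos n b) else 0)
      - (if sd a = true ∧ sd b = true then M (pos n a) (pos n b) else 0)) ≤ τ * n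

/-- reduction of the weights of the middle cell to the two side assignments -/
theorem weights_le {n : ℕ} {S : Finset ℤ} {R M : ℝ → ℝ → ℝ} {τ : ℝ} (h : PairCert n S R M τ)
    {w : ℤ → ℝ} (w0 : ∀ a, 0 ≤ w a) (w1 : ∀ a, w a ≤ 1) (wl : ∀ a, 2 * a + 1 < (n:ℤ) → w a = 1)
    (wr : ∀ a, (n:ℤ) < 2 * a + 1 → w a = 0) (hR : R (1 / 2) (1 / 2) ≤ 1)
    (hM : M (1 / 2) (1 / 2) ≤ 0) :
    ∑ a ∈ S, ∑ b ∈ S, (w a * (1 - w b) * R (pos n a) (pos n b)
      - w a * w b * M (pos n a) (pos n b)) ≤ τ * n + 1 / 4 := by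
  obtain ⟨p, hp0, hp1, hp⟩ : ∃ p : ℝ, 0 ≤ p ∧ p ≤ 1 ∧ ∀ a, 2 * a + 1 = (n:ℤ) → w a = p := by
    by_cases hm : ∃ m : ℤ, 2 * m + 1 = n
    · obtain ⟨m, hm⟩ := hm
      refine ⟨w m, w0 m, w1 m, fun a ha => ?_⟩
      rw [show a = m by omega]
    · exact ⟨0, le_rfl, zero_le_one, fun a ha => absurd ⟨a, ha⟩ hm⟩
  set sP : ℤ → Bool := fun a => decide (2 * a + 1 ≤ (n:ℤ)) with hsP
  set sQ : ℤ → Bool := fun a => decide (2 * a + 1 < (n:ℤ)) with hsQ
  have gP := h sP ⟨fun a ha => by simp only [hsP, decide_eq_true_eq]; omega,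
    fun a ha => by simp only [hsP, decide_eq_false_iff_not]; omega⟩
  have gQ := h sQ ⟨fun a ha => by simp only [hsQ, decide_eq_true_eq]; omega,
    fun a ha => by simp only [hsQ, decide_eq_false_iff_not]; omega⟩
  have key : ∀ a b : ℤ, w a * (1 - w b) * R (pos n a) (pos n b)
      - w a * w b * M (pos n a) (pos n b)
      ≤ p * ((if sP a = true ∧ sP b = false then R (pos n a) (pos n b) else 0)
          - (if sP a = true ∧ sP b = true then M (pos n a) (pos n b) else 0))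
        + (1 - p) * ((if sQ a = true ∧ sQ b = false then R (pos n a) (pos n b) else 0)
          - (if sQ a = true ∧ sQ b = true then M (pos n a) (pos n b) else 0))
        + (if 2 * a + 1 = (n:ℤ) then (if 2 * b + 1 = (n:ℤ) then 1 / 4 else 0) else 0) := by
    intro a b
    simp only [hsP, hsQ, decide_eq_true_eq, decide_eq_false_iff_not]
    rcases lt_trichotomy (2 * a + 1) (n:ℤ) with ha | ha | ha
    · rw [wl a ha]
      rcases lt_trichotomy (2 * b + 1) (n:ℤ) with hb | hb | hb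
      · rw [wl b hb, if_neg (by omega), if_pos (by omega), if_neg (by omega), if_pos (by omega),
          if_neg (by omega)]
        linarith
      · rw [hp b hb, if_neg (by omega), if_pos (by omega), if_pos (by omega), if_neg (by omega),
          if_neg (by omega)]
        linarith
      · rw [wr b hb, if_pos (by omega), if_neg (by omega), if_pos (by omega), if_neg (by omega),
          if_neg (by omega)]
        linarith
    · rw [hp a ha]
      rcases lt_trichotomy (2 * b + 1) (n:ℤ) with hb | hb | hb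
      · rw [wl b hb, if_neg (by omega), if_pos (by omega), if_neg (by omega), if_neg (by omega),
          if_pos ha, if_neg (by omega)]
        linarith
      · rw [hp b hb, if_neg (by omega), if_pos (by omega), if_neg (by omega), if_neg (by omega),
          if_pos ha, if_pos hb]
        have ea : pos n a = 1 / 2 := by
          unfold pos
          have e : (2 * (a:ℝ) + 1) = n := by exact_mod_cast ha
          have hn : (n:ℝ) ≠ 0 := by
            intro h0
            rw [h0] at e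
            have : (n:ℤ) = 0 := by exact_mod_cast h0
            omega
          field_simp
          linarith
        have eb : pos n b = 1 / 2 := by
          rw [show b = a by omega]
          exact ea
        rw [ea, eb]
        have q1 : 0 ≤ p * (1 - p) := mul_nonneg hp0 (sub_nonneg.2 hp1)
        have q2 : p * (1 - p) * R (1 / 2) (1 / 2) ≤ p * (1 - p) * 1 :=
          mul_le_mul_of_nonneg_left hR q1
        have q3 : p * (1 - p) * M (1 / 2) (1 / 2) ≤ 0 :=
          mul_nonpos_of_nonneg_of_nonpos q1 hM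
        have q4 : p * (1 - p) ≤ 1 / 4 := by nlinarith [sq_nonneg (p - 1 / 2)]
        linarith
      · rw [wr b hb, if_pos (by omega), if_neg (by omega), if_neg (by omega), if_neg (by omega),
          if_pos ha, if_neg (by omega)]
        linarith
    · rw [wr a ha]
      rw [if_neg (by omega), if_neg (by omega), if_neg (by omega), if_neg (by omega),
        if_neg (by omega)]
      linarith
  have s1 := sum_le_sum fun a (_ : a ∈ S) => sum_le_sum fun b (_ : b ∈ S) => key a b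
  simp only [sum_add_distrib, ← mul_sum] at s1
  have s2 : ∑ a ∈ S, ∑ b ∈ S,
      (if 2 * a + 1 = (n:ℤ) then (if 2 * b + 1 = (n:ℤ) then (1:ℝ) / 4 else 0) else 0) ≤ 1 / 4 := by
    have one : ∀ x : ℝ, 0 ≤ x → ∑ b ∈ S, (if 2 * b + 1 = (n:ℤ) then x else 0) ≤ x := by
      intro x hx
      by_cases hm : ∃ m ∈ S, 2 * m + 1 = (n:ℤ)
      · obtain ⟨m, hmS, hm⟩ := hm
        rw [sum_eq_single m]
        · rw [if_pos hm]
        · intro b _ hb
          rw [if_neg (fun h => hb (by omega))]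
        · intro h
          exact absurd hmS h
      · rw [sum_eq_zero]
        · exact hx
        · intro b hb
          rw [if_neg (fun h => hm ⟨b, hb, h⟩)]
    have e : ∀ a ∈ S, ∑ b ∈ S,
        (if 2 * a + 1 = (n:ℤ) then (if 2 * b + 1 = (n:ℤ) then (1:ℝ) / 4 else 0) else 0)
        ≤ (if 2 * a + 1 = (n:ℤ) then 1 / 4 else 0) := by
      intro a _
      by_cases c : 2 * a + 1 = (n:ℤ)
      · simp only [if_pos c]
        exact one _ (by norm_num)
      · simp only [if_neg c]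
        simp
    exact (sum_le_sum e).trans (one _ (by norm_num))
  have g1 := mul_le_mul_of_nonneg_left gP hp0
  have g2 := mul_le_mul_of_nonneg_left gQ (sub_nonneg.2 hp1)
  linarith

/-! ### Reflection -/

lemma dig_symm {t : ℕ} {c : ℤ} (h : c ∈ dig t) : 4 ^ t - 1 - c ∈ dig t := by
  induction t generalizing c with
  | zero =>
    simp only [dig, MP61673a.Lift.liftN_zero, mem_singleton] at h
    subst h
    simp [dig]
  | succ t ih =>
    obtain ⟨d, hd, h⟩ := mem_lift.1 (show c ∈ lift (dig t) from h)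
    have h2 := ih hd
    refine (show 4 ^ (t + 1) - 1 - c ∈ lift (dig t) from mem_lift.2 ⟨_, h2, ?_⟩)
    rw [pow_succ]
    rcases h with rfl | rfl
    · right; ring
    · left; ring

/-- reflected set of cells -/
def refl (n : ℕ) (S : Finset ℤ) : Finset ℤ := S.image (fun a => (n:ℤ) - 1 - a)

lemma sum_refl {X : Type*} [AddCommMonoid X] (n : ℕ) (S : Finset ℤ) (f : ℤ → X) :
    ∑ a ∈ refl n S, f a = ∑ a ∈ S, f (n - 1 - a) := by
  unfold refl
  rw [sum_image]
  intro a _ b _ h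
  simp only at h
  omega

lemma sum_liftN_refl (n t : ℕ) (S : Finset ℤ) (f : ℤ → ℝ) :
    ∑ x ∈ liftN t (refl n S), f (4 ^ t * n - 1 - x) = ∑ x ∈ liftN t S, f x := by
  rw [sum_liftN, sum_liftN, sum_refl]
  refine sum_congr rfl fun a _ => ?_
  refine sum_nbij' (fun c => 4 ^ t - 1 - c) (fun c => 4 ^ t - 1 - c) (fun c hc => dig_symm hc)
    (fun c hc => dig_symm hc) (fun c _ => by ring) (fun c _ => by ring) ?_
  intro c _
  congr 1
  ring

open MP61673a.Fin (cut PH QH)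

lemma cut_eq (D x : ℤ) : cut D x = cutH (3 * D) x := rfl

/-- pairs left x right of the frame -/
lemma dd_PQ (B : Finset ℤ) (D z X : ℤ) :
    dd (PH B D z) (QH B D z) X = ∑ x ∈ B, ∑ x' ∈ B,
      (if 2 * x' - x ≤ 3 * D - X then cutH (3 * D) x * (1 - cutH (3 * D) x') else 0) := by
  change ∑ x ∈ B, ∑ x' ∈ B, (if X ≤ (x - D) + 2 * (2 * D - x') then cut D x * (1 - cut D x') else 0)
    = _
  refine sum_congr rfl fun x _ => sum_congr rfl fun x' _ => ?_
  by_cases c : X ≤ (x - D) + 2 * (2 * D - x')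
  · rw [if_pos c, if_pos (by omega), cut_eq, cut_eq]
  · rw [if_neg c, if_neg (by omega)]

lemma nn_P (B : Finset ℤ) (D z j : ℤ) :
    nn (PH B D z) j = ∑ x ∈ B, ∑ x' ∈ B,
      (if 2 * x' - x ≤ D - j then
        cutH (3 * D) x * (if D - z ≤ x' then cutH (3 * D) x' else 0) else 0) := by
  change ∑ x ∈ B, ∑ x' ∈ B, (if j ≤ (x - D) - 2 * (x' - D) then
    cut D x * (if D - z ≤ x' then cut D x' else 0) else 0) = _
  refine sum_congr rfl fun x _ => sum_congr rfl fun x' _ => ?_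
  by_cases c : j ≤ (x - D) - 2 * (x' - D)
  · rw [if_pos c, if_pos (show 2 * x' - x ≤ D - j by omega), cut_eq, cut_eq]
  · rw [if_neg c, if_neg (show ¬ 2 * x' - x ≤ D - j by omega)]

lemma cut_refl {N D x : ℤ} : 1 - cut D (N - 1 - x) = cutH (2 * N - 3 - 3 * D) x := by
  unfold MP61673a.Fin.cut cutH
  by_cases c : 2 * x ≤ 2 * N - 3 - 3 * D
  · rw [if_pos c, if_neg (by omega)]
    norm_num
  · rw [if_neg c, if_pos (by omega)]
    norm_num

/-- pairs right x left of the frame, reflected -/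
lemma dd_QP (n t : ℕ) (S : Finset ℤ) (D z X : ℤ) :
    dd (QH (liftN t S) D z) (PH (liftN t S) D z) X
      = ∑ x ∈ liftN t (refl n S), ∑ x' ∈ liftN t (refl n S),
      (if 2 * x' - x ≤ 4 ^ t * n - 1 - X then cutH (2 * (4 ^ t * n) - 3 - 3 * D) x
        * (1 - cutH (2 * (4 ^ t * n) - 3 - 3 * D) x') else 0) := by
  change ∑ x ∈ liftN t S, ∑ x' ∈ liftN t S,
    (if X ≤ (2 * D - x) + 2 * (x' - D) then (1 - cut D x) * cut D x' else 0) = _
  rw [← sum_liftN_refl n t S]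
  refine sum_congr rfl fun x _ => ?_
  rw [← sum_liftN_refl n t S]
  refine sum_congr rfl fun x' _ => ?_
  have e1 : 1 - cut D (4 ^ t * n - 1 - x) = cutH (2 * (4 ^ t * n) - 3 - 3 * D) x := cut_refl
  have e2 : cut D (4 ^ t * n - 1 - x') = 1 - cutH (2 * (4 ^ t * n) - 3 - 3 * D) x' := by
    rw [← cut_refl]
    ring
  rw [e1, e2]
  by_cases c : 2 * x' - x ≤ 4 ^ t * n - 1 - X
  · rw [if_pos c, if_pos (by linarith)]
  · rw [if_neg c, if_neg (by intro h; apply c; linarith)]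

lemma nn_Q (n t : ℕ) (S : Finset ℤ) (D z j : ℤ) :
    nn (QH (liftN t S) D z) j
      = ∑ x ∈ liftN t (refl n S), ∑ x' ∈ liftN t (refl n S),
      (if 2 * x' - x ≤ 4 ^ t * n - 1 - 2 * D - j then cutH (2 * (4 ^ t * n) - 3 - 3 * D) x
        * (if 4 ^ t * n - 1 - 2 * D - z ≤ x' then cutH (2 * (4 ^ t * n) - 3 - 3 * D) x' else 0)
        else 0) := by
  change ∑ x ∈ liftN t S, ∑ x' ∈ liftN t S,
    (if j ≤ (2 * D - x) - 2 * (2 * D - x') then
      (1 - cut D x) * (if x' ≤ 2 * D + z then 1 - cut D x' else 0) else 0) = _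
  rw [← sum_liftN_refl n t S]
  refine sum_congr rfl fun x _ => ?_
  rw [← sum_liftN_refl n t S]
  refine sum_congr rfl fun x' _ => ?_
  have e1 : 1 - cut D (4 ^ t * n - 1 - x) = cutH (2 * (4 ^ t * n) - 3 - 3 * D) x := cut_refl
  have e2 : 1 - cut D (4 ^ t * n - 1 - x') = cutH (2 * (4 ^ t * n) - 3 - 3 * D) x' := cut_refl
  rw [e1, e2]
  by_cases c : 2 * x' - x ≤ 4 ^ t * n - 1 - 2 * D - j
  · rw [if_pos c, if_pos (by linarith)]
    by_cases c2 : 4 ^ t * n - 1 - 2 * D - z ≤ x'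
    · rw [if_pos c2, if_pos (by linarith)]
    · rw [if_neg c2, if_neg (by intro h; apply c2; linarith)]
  · rw [if_neg c, if_neg (by intro h; apply c; linarith)]

/-- the general form of the two halves -/
lemma half {n s : ℕ} (hn : 0 < n) (hs : 4 ≤ s) {S : Finset ℤ} {R M : ℝ → ℝ → ℝ} {τ : ℝ}
    (cert : PairCert n S R M τ) {H c c2 c3 : ℤ} {yR yL : ℝ}
    (hH1 : 4 ^ (s + 1) * (n:ℤ) - 12 ≤ H) (hH2 : H ≤ 4 ^ (s + 1) * (n:ℤ) + 12)
    (hc : (c + 1 : ℝ) ≤ 4 ^ (s + 1) * (yR * n + 1 / 2)) (h0 : ∀ u v, 0 ≤ R u v)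
    (hR : ∀ u v, min 1 (1 - n * (2 * v - u - yR)) ≤ R u v) (hRm : R (1 / 2) (1 / 2) ≤ 1)
    (hMm : M (1 / 2) (1 / 2) ≤ 0)
    (hc2 : (4:ℝ) ^ (s + 1) * (yL * n - 1 / 100) ≤ c2 + 1)
    (hM0 : ∀ a ∈ S, ∀ b ∈ S, M (pos n a) (pos n b) ≤ rampL n yL (49 / 100) (2 * pos n b - pos n a))
    (hM : ∀ a ∈ S, ∀ b ∈ S,
      (3 * c3 ≤ 3 * (4 ^ (s + 1) * b) + (4 ^ (s + 1) - 1) ∧ 2 * b + 1 < (n:ℤ)) ∨
        M (pos n a) (pos n b) ≤ 0 ∨ (n:ℤ) < 2 * a + 1) :
    ∑ x ∈ liftN (s + 1) S, ∑ x' ∈ liftN (s + 1) S,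
        (if 2 * x' - x ≤ c then cutH H x * (1 - cutH H x') else 0)
      ≤ 4 ^ (s + 1) * (τ * n + 3 / 8) + ∑ x ∈ liftN (s + 1) S, ∑ x' ∈ liftN (s + 1) S,
        (if 2 * x' - x ≤ c2 then cutH H x * (if c3 ≤ x' then cutH H x' else 0) else 0) := by
  have hW : (256:ℤ) ≤ 4 ^ s := by
    calc (256:ℤ) = 4 ^ 4 := by norm_num
      _ ≤ 4 ^ s := pow_le_pow_right₀ (by norm_num) hs
  have hW1 : (4:ℤ) ^ (s + 1) = 4 * 4 ^ s := by rw [pow_succ]; ring
  have hL1 : 3 * (4 ^ (s + 1) * (n:ℤ)) - 2 * 4 ^ (s + 1) - 4 ≤ 3 * H := by linarith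
  have hL2 : 3 * H < 3 * (4 ^ (s + 1) * (n:ℤ)) + 2 * 4 ^ (s + 1) - 2 := by linarith
  have k1 := dd_lift hn S (H := H) hc h0 hR
  have k2 := nn_lift hn hs S (H := H) (c := c2) (c3 := c3) hH1 hH2 hc2 hM0 hM
  have k3 := weights_le cert (w := wc (s + 1) H) (wc_nonneg _ H) (wc_le_one _ H)
    (fun a ha => wc_left hL1 ha) (fun a ha => wc_right hL2 ha) hRm hMm
  simp only [sum_sub_distrib] at k3
  have h4 : (0:ℝ) ≤ 4 ^ (s + 1) := by positivity
  have k4 := mul_le_mul_of_nonneg_left k3 h4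
  rw [mul_sub] at k4
  linarith

/-- right threshold of the labels, `r = rho / D`, `v = nu / D` -/
def yRp (r v : ℝ) : ℝ := (5 / 2 - r + 6 * v) / 3

/-- left threshold of the labels -/
def yLp (r : ℝ) : ℝ := (1 - r) / 3

/-- the properties of the two kernels; `vc` = left end of the doubled positions -/
structure Kern (n : ℕ) (r v vc : ℝ) (R M : ℝ → ℝ → ℝ) : Prop where
  R0 : ∀ u w : ℝ, 0 ≤ R u w
  R1 : ∀ u w : ℝ, min 1 (51 / 100 - n * (2 * w - u - yRp r v)) ≤ R u w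
  Rm : R (1 / 2) (1 / 2) ≤ 1
  M0 : ∀ u w : ℝ, M u w ≤ rampL n (yLp r) (49 / 100) (2 * w - u)
  Mb : ∀ u w : ℝ, w < vc → M u w ≤ 0

/-- admissible parameters -/
structure Par (r v vc : ℝ) : Prop where
  r0 : 0 ≤ r
  r1 : r ≤ 1 / 8
  v0 : 0 ≤ v
  v1 : 6 * v ≤ 1 / 2 + r
  c0 : 0 ≤ vc
  c1 : vc ≤ 1 / 3

/-- PRICE FACT OF THE FRAME from the pair statements of the set and of its reflection. -/
theorem pxi_frame {n t : ℕ} (hn : 122 ≤ n) (ht : 5 ≤ t) {S : Finset ℤ} {R M : ℝ → ℝ → ℝ}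
    {r v vc : ℝ} (hp : Par r v vc)
    (hk : Kern n r v vc R M) {τ : ℝ} (hτ : τ * n ≤ (1 / 4 - r) / 3 * n - 3 / 8)
    (cert : PairCert n S R M τ)
    (cert' : PairCert n (refl n S) R M τ) {D K ρ V ν : ℤ} (hD : D = 4 * K + 1)
    (e1 : 3 * D + 1 ≤ 4 ^ t * (n : ℤ)) (e2 : 4 ^ t * (n : ℤ) ≤ 3 * D + 12)
    (hρ1 : r * D - 1 ≤ ρ) (hρ2 : (ρ:ℝ) ≤ r * D) (hν : (ν:ℝ) ≤ v * D)
    (hV : (1 - 3 * vc + 1 / 244) * (D:ℝ) + 12 ≤ V) :
    dd (PH (liftN t S) D V) (QH (liftN t S) D V) (2 * K + 1 + ρ - 6 * ν)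
        ≤ K - ρ + 1 + nn (PH (liftN t S) D V) (1 + ρ) + 1 ∧
      dd (QH (liftN t S) D V) (PH (liftN t S) D V) (2 * K + 1 + ρ - 6 * ν)
        ≤ K - ρ + 1 + nn (QH (liftN t S) D V) (1 + ρ) + 1 := by
  obtain ⟨s, rfl⟩ : ∃ s, t = s + 1 := ⟨t - 1, by omega⟩
  have hs : 4 ≤ s := by omega
  have hn0 : 0 < n := by omega
  have hn0' : (0:ℝ) < n := by exact_mod_cast hn0
  have hnn : (122:ℤ) ≤ n := by exact_mod_cast hn
  have rnn : (122:ℝ) ≤ n := by exact_mod_cast hn
  have hW : (1024:ℤ) ≤ 4 ^ (s + 1) := by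
    calc (1024:ℤ) = 4 ^ 5 := by norm_num
      _ ≤ 4 ^ (s + 1) := pow_le_pow_right₀ (by norm_num) ht
  have hNW : 122 * (4:ℤ) ^ (s + 1) ≤ 4 ^ (s + 1) * n := by
    rw [mul_comm (122:ℤ)]
    exact mul_le_mul_of_nonneg_left hnn (by linarith)
  have yL1 : yLp r ≤ 1 / 3 := by unfold yLp; linarith [hp.r0]
  have yL0 : 0 ≤ yLp r := by unfold yLp; linarith [hp.r1]
  have yR1 : yRp r v ≤ 1 := by unfold yRp; linarith [hp.v1]
  have yR2 : 3 / 4 ≤ yRp r v := by unfold yRp; linarith [hp.v0, hp.r1]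
  have yR0 : 0 ≤ yRp r v := by linarith
  have yR3 : 3 * yRp r v = 5 / 2 - r + 6 * v := by unfold yRp; ring
  have yL3 : 3 * yLp r = 1 - r := by unfold yLp; ring
  have hMm : M (1 / 2) (1 / 2) ≤ 0 := by
    refine (hk.M0 _ _).trans ?_
    unfold rampL
    refine max_le le_rfl ((min_le_right _ _).trans ?_)
    have := mul_le_mul_of_nonneg_right yL1 hn0'.le
    linarith
  -- real versions
  have rW : (1024:ℝ) ≤ 4 ^ (s + 1) := by exact_mod_cast hW
  have rNW : 122 * (4:ℝ) ^ (s + 1) ≤ 4 ^ (s + 1) * n := by exact_mod_cast hNW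
  have rD : (D:ℝ) = 4 * K + 1 := by exact_mod_cast hD
  have re1 : 3 * (D:ℝ) + 1 ≤ 4 ^ (s + 1) * n := by exact_mod_cast e1
  have re2 : 4 ^ (s + 1) * (n:ℝ) ≤ 3 * D + 12 := by exact_mod_cast e2
  have h4 : (0:ℝ) ≤ 4 ^ (s + 1) := by positivity
  have hD0 : (0:ℝ) ≤ D := by linarith
  -- the bound
  have hfin : 4 ^ (s + 1) * (τ * n + 3 / 8) ≤ (K:ℝ) - ρ + 1 + 1 := by
    have a1 : 4 ^ (s + 1) * (τ * n + 3 / 8) ≤ 4 ^ (s + 1) * ((1 / 4 - r) / 3 * n) := by
      refine mul_le_mul_of_nonneg_left ?_ h4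
      linarith
    have a2 := mul_le_mul_of_nonneg_left re2 (show 0 ≤ (1 / 4 - r) / 3 by linarith [hp.r1])
    have a3 : (4:ℝ) ^ (s + 1) * ((1 / 4 - r) / 3 * n) = (1 / 4 - r) / 3 * (4 ^ (s + 1) * n) := by
      ring
    have a4 : (1 / 4 - r) / 3 * (3 * (D:ℝ) + 12) = D / 4 - r * D + 1 - 4 * r := by ring
    rw [a3] at a1
    rw [a4] at a2
    linarith [hp.r0]
  -- the condition of the doubled pairs
  have hcond : ∀ (c3 : ℤ), c3 ≤ D + 11 - V → ∀ a b : ℤ,
      (3 * c3 ≤ 3 * (4 ^ (s + 1) * b) + (4 ^ (s + 1) - 1) ∧ 2 * b + 1 < (n:ℤ)) ∨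
        M (pos n a) (pos n b) ≤ 0 ∨ (n:ℤ) < 2 * a + 1 := by
    intro c3 k3 a b
    by_cases q3 : (n:ℤ) < 2 * a + 1
    · exact Or.inr (Or.inr q3)
    by_cases q1 : yLp r * n + 49 / 100 - n * (2 * pos n b - pos n a) ≤ 0
    · right; left
      refine (hk.M0 _ _).trans ?_
      unfold rampL
      exact max_le le_rfl ((min_le_right _ _).trans q1)
    by_cases q2 : pos n b < vc
    · exact Or.inr (Or.inl (hk.Mb _ _ q2))
    left
    push Not at q1 q2 q3
    have p1 : (2 * (b:ℝ) - a + 1 / 2) < yLp r * n + 49 / 100 := by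
      have e : (n:ℝ) * (2 * pos n b - pos n a) = (2 * (b:ℝ) - a + 1 / 2) := by
        unfold pos
        field_simp
        ring
      rw [e] at q1
      linarith
    have p2 : vc * n ≤ (b:ℝ) + 1 / 2 := by
      have e : pos n b * n = (b:ℝ) + 1 / 2 := by
        unfold pos
        field_simp
      have := mul_le_mul_of_nonneg_right q2 hn0'.le
      rwa [e] at this
    have p4 := mul_le_mul_of_nonneg_left p2 h4
    have p5 := mul_le_mul_of_nonneg_left re1 hp.c0
    have rk3 : (c3:ℝ) ≤ D + 11 - V := by exact_mod_cast k3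
    constructor
    · have : 3 * (c3:ℝ) ≤ 3 * (4 ^ (s + 1) * b) + (4 ^ (s + 1) - 1) := by
        have e : (4:ℝ) ^ (s + 1) * (b + 1 / 2) = 4 ^ (s + 1) * b + 4 ^ (s + 1) / 2 := by ring
        have e' : (4:ℝ) ^ (s + 1) * (vc * n) = vc * (4 ^ (s + 1) * n) := by ring
        have e'' : vc * (3 * (D:ℝ) + 1) = 3 * vc * D + vc := by ring
        have e3 : (1 - 3 * vc + 1 / 244) * (D:ℝ) = D - 3 * vc * D + D / 244 := by ring
        rw [e3] at hV
        rw [e', e] at p4
        rw [e''] at p5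
        linarith [hp.c0]
      exact_mod_cast this
    · have q4 : 2 * (a:ℝ) + 1 ≤ n := by exact_mod_cast q3
      have := mul_le_mul_of_nonneg_right yL1 hn0'.le
      have : 2 * (b:ℝ) + 1 < n := by linarith
      exact_mod_cast this
  have g1 := mul_le_mul_of_nonneg_left re1 yR0
  have g2 := mul_le_mul_of_nonneg_left re2 (sub_nonneg.2 yR1)
  have g3 := mul_le_mul_of_nonneg_left re2 yL0
  have f1 : yRp r v * (3 * (D:ℝ) + 1) = 5 / 2 * D - r * D + 6 * (v * D) + yRp r v := by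
    have : yRp r v * (3 * (D:ℝ) + 1) = (3 * yRp r v) * D + yRp r v := by ring
    rw [this, yR3]
    ring
  have f2 : (1 - yRp r v) * (3 * (D:ℝ) + 12)
      = 3 * D - (5 / 2 * D - r * D + 6 * (v * D)) + 12 * (1 - yRp r v) := by
    have : (1 - yRp r v) * (3 * (D:ℝ) + 12) = 3 * D - (3 * yRp r v) * D + 12 * (1 - yRp r v) := by
      ring
    rw [this, yR3]
    ring
  have f3 : yLp r * (3 * (D:ℝ) + 12) = D - r * D + 4 * (1 - r) := by
    have : yLp r * (3 * (D:ℝ) + 12) = (3 * yLp r) * D + 4 * (3 * yLp r) := by ring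
    rw [this, yL3]
    ring
  have f4 : (1 - yRp r v) * (4 ^ (s + 1) * (n:ℝ)) = 4 ^ (s + 1) * n - yRp r v * (4 ^ (s + 1) * n) := by
    ring
  rw [f1] at g1
  rw [f2, f4] at g2
  rw [f3] at g3
  have m1 : (4:ℝ) ^ (s + 1) * (yRp r v * n + 1 / 100)
      = yRp r v * (4 ^ (s + 1) * n) + 4 ^ (s + 1) / 100 := by ring
  have m2 : (4:ℝ) ^ (s + 1) * (yLp r * n - 1 / 100)
      = yLp r * (4 ^ (s + 1) * n) - 4 ^ (s + 1) / 100 := by ring
  have m3 : (yRp r v - 49 / 100 / (n:ℝ)) * n + 1 / 2 = yRp r v * n + 1 / 100 := by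
    field_simp
    ring
  have m4 : ∀ u w : ℝ, 1 - n * (2 * w - u - (yRp r v - 49 / 100 / (n:ℝ)))
      = 51 / 100 - n * (2 * w - u - yRp r v) := by
    intro u w
    field_simp
    ring
  constructor
  · rw [dd_PQ, nn_P]
    have k := half hn0 hs cert (H := 3 * D) (c := 3 * D - (2 * K + 1 + ρ - 6 * ν))
      (c2 := D - (1 + ρ)) (c3 := D - V) (yR := yRp r v - 49 / 100 / n) (yL := yLp r) (by linarith)
      (by linarith) (by
        rw [m3, m1]
        push_cast
        linarith) hk.R0 (fun u w => by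
        rw [m4]
        exact hk.R1 u w) hk.Rm hMm (by rw [m2]; push_cast; linarith)
      (fun a _ b _ => hk.M0 _ _) (fun a _ b _ => hcond _ (by linarith) a b)
    linarith
  · rw [dd_QP n, nn_Q n]
    have k := half hn0 hs cert' (H := 2 * (4 ^ (s + 1) * n) - 3 - 3 * D)
      (c := 4 ^ (s + 1) * n - 1 - (2 * K + 1 + ρ - 6 * ν))
      (c2 := 4 ^ (s + 1) * n - 1 - 2 * D - (1 + ρ)) (c3 := 4 ^ (s + 1) * n - 1 - 2 * D - V)
      (yR := yRp r v - 49 / 100 / n) (yL := yLp r) (by linarith) (by linarith) (by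
        rw [m3, m1]
        push_cast
        linarith) hk.R0 (fun u w => by
        rw [m4]
        exact hk.R1 u w) hk.Rm hMm (by rw [m2]; push_cast; linarith)
      (fun a _ b _ => hk.M0 _ _) (fun a _ b _ => hcond _ (by linarith) a b)
    linarith

/-! ### The reflection of a maximal set is maximal -/

open MP61673a.Lift (IsMaximalThreeFree ThreeFree card_shift)

/-- reflection of `{1,…,n}` -/
def reflA (n : ℕ) (A : Finset ℕ) : Finset ℕ := A.image (fun a => n + 1 - a)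

lemma mem_reflA {n : ℕ} {A : Finset ℕ} (hA : A ⊆ Finset.Icc 1 n) {x : ℕ} :
    x ∈ reflA n A ↔ x ∈ Finset.Icc 1 n ∧ n + 1 - x ∈ A := by
  unfold reflA
  rw [mem_image]
  constructor
  · rintro ⟨a, ha, rfl⟩
    have h := hA ha
    rw [Finset.mem_Icc] at h ⊢
    refine ⟨by omega, ?_⟩
    rwa [show n + 1 - (n + 1 - a) = a by omega]
  · rintro ⟨h, ha⟩
    rw [Finset.mem_Icc] at h
    exact ⟨n + 1 - x, ha, by omega⟩

lemma free_refl {n : ℕ} {A : Finset ℕ} (hA : A ⊆ Finset.Icc 1 n) (h : ThreeFree A) :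
    ThreeFree (reflA n A) := by
  intro a ha b hb c hc hab hbc heq
  rw [mem_reflA hA, Finset.mem_Icc] at ha hb hc
  exact h _ hc.2 _ hb.2 _ ha.2 (by omega) (by omega) (by omega)

lemma refl_refl {n : ℕ} {A : Finset ℕ} (hA : A ⊆ Finset.Icc 1 n) : reflA n (reflA n A) = A := by
  ext x
  have h2 : reflA n A ⊆ Finset.Icc 1 n := fun y hy => ((mem_reflA hA).1 hy).1
  rw [mem_reflA h2, mem_reflA hA, Finset.mem_Icc, Finset.mem_Icc]
  constructor
  · rintro ⟨h, h3, h4⟩
    rwa [show n + 1 - (n + 1 - x) = x by omega] at h4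
  · intro hx
    have h := hA hx
    rw [Finset.mem_Icc] at h
    refine ⟨by omega, by omega, ?_⟩
    rwa [show n + 1 - (n + 1 - x) = x by omega]

theorem maximal_refl {n : ℕ} {A : Finset ℕ} (h : IsMaximalThreeFree n A) :
    IsMaximalThreeFree n (reflA n A) := by
  obtain ⟨hA, hf, hm⟩ := h
  refine ⟨fun y hy => ((mem_reflA hA).1 hy).1, free_refl hA hf, ?_⟩
  intro x hx hxn hfree
  have hxI := Finset.mem_Icc.1 hx
  have hr : n + 1 - x ∈ Finset.Icc 1 n := by rw [Finset.mem_Icc]; omega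
  have hrA : n + 1 - x ∉ A := fun h => hxn ((mem_reflA hA).2 ⟨hx, h⟩)
  refine hm _ hr hrA ?_
  have hsub : insert x (reflA n A) ⊆ Finset.Icc 1 n := by
    intro y hy
    rw [mem_insert] at hy
    rcases hy with rfl | hy
    · exact hx
    · exact ((mem_reflA hA).1 hy).1
  have h2 := free_refl hsub hfree
  have e : reflA n (insert x (reflA n A)) = insert (n + 1 - x) A := by
    have : reflA n (insert x (reflA n A)) = insert (n + 1 - x) (reflA n (reflA n A)) := by
      unfold reflA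
      rw [image_insert]
    rw [this, refl_refl hA]
  rwa [e] at h2

lemma card_reflA {n : ℕ} {A : Finset ℕ} (hA : A ⊆ Finset.Icc 1 n) :
    (reflA n A).card = A.card := by
  unfold reflA
  rw [card_image_of_injOn]
  intro a ha b hb h
  have h1 := Finset.mem_Icc.1 (hA ha)
  have h2 := Finset.mem_Icc.1 (hA hb)
  simp only at h
  omega

lemma shift_reflA {n : ℕ} {A : Finset ℕ} (hA : A ⊆ Finset.Icc 1 n) :
    shift (reflA n A) = refl n (shift A) := by
  unfold shift refl reflA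
  rw [image_image, image_image]
  refine image_congr ?_
  intro a ha
  have h1 := Finset.mem_Icc.1 (hA ha)
  simp only [Function.comp]
  omega

/-- PRICE FACT OF THE FRAME for a maximal set with `|A|^2 < n`, from the pair statement for all such
sets. -/
theorem pxi_of_cert {n : ℕ} (hn : 122 ≤ n) {r v vc : ℝ} (hp : Par r v vc) {R M : ℝ → ℝ → ℝ}
    (hk : Kern n r v vc R M) {τ : ℝ} (hτ : τ * n ≤ (1 / 4 - r) / 3 * n - 3 / 8)
    (cert : ∀ A : Finset ℕ, IsMaximalThreeFree n A → A.card ^ 2 < n →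
      PairCert n (shift A) R M τ)
    {A : Finset ℕ} (h : IsMaximalThreeFree n A) (hlt : A.card ^ 2 < n) {t : ℕ} (ht : 5 ≤ t)
    {D K ρ V ν : ℤ} (hD : D = 4 * K + 1) (e1 : 3 * D + 1 ≤ 4 ^ t * (n : ℤ))
    (e2 : 4 ^ t * (n : ℤ) ≤ 3 * D + 12) (hρ1 : r * D - 1 ≤ ρ) (hρ2 : (ρ:ℝ) ≤ r * D)
    (hν : (ν:ℝ) ≤ v * D) (hV : (1 - 3 * vc + 1 / 244) * (D:ℝ) + 12 ≤ V) :
    dd (PH (liftN t (shift A)) D V) (QH (liftN t (shift A)) D V) (2 * K + 1 + ρ - 6 * ν)
        ≤ K - ρ + 1 + nn (PH (liftN t (shift A)) D V) (1 + ρ) + 1 ∧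
      dd (QH (liftN t (shift A)) D V) (PH (liftN t (shift A)) D V) (2 * K + 1 + ρ - 6 * ν)
        ≤ K - ρ + 1 + nn (QH (liftN t (shift A)) D V) (1 + ρ) + 1 := by
  have c2 := cert (reflA n A) (maximal_refl h) (by rwa [card_reflA h.1])
  rw [shift_reflA h.1] at c2
  exact pxi_frame hn ht hp hk hτ (cert A h hlt) c2 hD e1 e2 hρ1 hρ2 hν hV

end

end MP61673a.PF
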