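import Pool.Agent.Mu673.PriceFrame
import Pool.Agent.Mu673.ThreePoint

set_option autoImplicit false

/-!
PRICE FACT, HUMAN FORM (helper79, helper8): adding the coverage of the labels of the two windows
(weights = ramps) removes the steps of the pair statement of `PriceFrame.lean` for pairs of core
elements. Everything exact on `A ⊆ {1..n}`. Parameters `r = rho / D`, `v = nu / D`, `vc` = left end of
the doubled positions; the right window begins at `yRp r v`, the left window ends at `yLp r`.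
-/

namespace MP61673a.PF

open Finset MP61673a.W MP61673a.TP
open MP61673a.Lift (shift liftN Mid Cov IsMaximalThreeFree cov_of_maximal)
open MP61673a.Fin (PH QH)

noncomputable section

/-- share of the labels of the cell pair right of `yR` -/
def lR (n : ℕ) (yR y : ℝ) : ℝ := 1 - max 0 (min 1 (51 / 100 - n * (y - yR)))

/-- share of the labels of the cell pair left of `yL` -/
def lL (n : ℕ) (yL y : ℝ) : ℝ := rampL n yL (49 / 100) y

lemma lR_nonneg (n : ℕ) (yR y : ℝ) : 0 ≤ lR n yR y := by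
  unfold lR
  have : max 0 (min 1 (51 / 100 - n * (y - yR))) ≤ 1 := max_le zero_le_one (min_le_left _ _)
  linarith

lemma lR_le_one (n : ℕ) (yR y : ℝ) : lR n yR y ≤ 1 := by
  unfold lR
  have := le_max_left (0:ℝ) (min 1 (51 / 100 - n * (y - yR)))
  linarith

lemma lL_nonneg (n : ℕ) (yL y : ℝ) : 0 ≤ lL n yL y := rampL_nonneg _ _ _ _

/-- weights of the two windows: at most the exact weights of the cell pairs -/
structure Ramps (n : ℕ) (r v : ℝ) (wR wL : ℝ → ℝ) : Prop where
  R0 : ∀ y, 0 ≤ wR y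
  R1 : ∀ y, wR y ≤ lR n (yRp r v) y
  L0 : ∀ y, 0 ≤ wL y
  L1 : ∀ y, wL y ≤ lL n (yLp r) y

/-- majorant of the left x right pairs -/
def Rx (n : ℕ) (r v u w : ℝ) : ℝ := 1 - lR n (yRp r v) (2 * w - u)

/-- minorant of the left x left pairs -/
def Mx (n : ℕ) (r vc u w : ℝ) : ℝ := if w < vc then 0 else lL n (yLp r) (2 * w - u)

lemma kern_x (n : ℕ) (r v vc : ℝ) : Kern n r v vc (Rx n r v) (Mx n r vc) where
  R0 := fun u w => sub_nonneg.2 (lR_le_one _ _ _)
  R1 := fun u w => by
    unfold Rx lR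
    have := le_max_right (0:ℝ) (min 1 (51 / 100 - n * (2 * w - u - yRp r v)))
    linarith
  Rm := by
    unfold Rx
    have := lR_nonneg n (yRp r v) (2 * (1 / 2) - 1 / 2)
    linarith
  M0 := fun u w => by
    unfold Mx
    split_ifs
    · exact rampL_nonneg _ _ _ _
    · exact le_rfl
  Mb := fun u w h => by
    unfold Mx
    rw [if_pos h]

/-- THE PAIR KERNEL of the price fact (human form): `s`, `s'` = sides (`true` = left) of the first
and the doubled element, `e` = equal parity, `u`, `w` = positions -/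
def kW (vc : ℝ) (wR wL : ℝ → ℝ) (s s' e : Bool) (u w : ℝ) : ℝ :=
  (if s = true ∧ s' = false then 1 - wR (2 * w - u) else 0)
    - (if s = true ∧ s' = true ∧ vc ≤ w then wL (2 * w - u) else 0)
    + (if 0 < 2 * w - u ∧ 2 * w - u < 1 then wR (2 * w - u) + wL (2 * w - u) else 0)
    + (if e = true then (wR ((u + w) / 2) + wL ((u + w) / 2)) / 2 else 0)

/-- coverage of all labels with weights `w` -/
lemma cover_w {n : ℕ} (hn : 0 < n) (S : Finset ℤ) (hcov : Cov S (Mid S) n) (w : ℝ → ℝ)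
    (hw : ∀ x, 0 ≤ w x) :
    ∑ x ∈ Ico (0 : ℤ) n, w (pos n x)
      ≤ ∑ a ∈ S, ∑ b ∈ S, ((if 0 < 2 * pos n b - pos n a ∧ 2 * pos n b - pos n a < 1 then
          w (2 * pos n b - pos n a) else 0)
          + (if (a + b) % 2 = 0 then w ((pos n a + pos n b) / 2) / 2 else 0)) := by
  classical
  have e1 : ∑ a ∈ S, ∑ b ∈ S, (if 0 < 2 * pos n b - pos n a ∧ 2 * pos n b - pos n a < 1 then
      w (2 * pos n b - pos n a) else 0)
      = ∑ x ∈ Ico (0 : ℤ) n, ∑ a ∈ S, ∑ b ∈ S,
        (if 2 * b - a = x then w (pos n x) else 0) := by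
    refine Eq.trans ?_ sum_comm
    refine sum_congr rfl fun a _ => ?_
    refine Eq.trans ?_ sum_comm
    refine sum_congr rfl fun b _ => ?_
    rw [← pos_lab]
    by_cases c : 0 ≤ 2 * b - a ∧ 2 * b - a < n
    · rw [if_pos ((pos_window hn _).2 c), sum_ite_eq, if_pos (by rw [mem_Ico]; exact c)]
    · rw [if_neg (fun h => c ((pos_window hn _).1 h)), sum_ite_eq,
        if_neg (by rw [mem_Ico]; exact c)]
  have hm0 : ∀ a b : ℤ, 0 ≤ (if (a + b) % 2 = 0 then w ((pos n a + pos n b) / 2) else 0) := by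
    intro a b
    split_ifs
    · exact hw _
    · exact le_rfl
  have e2 : ∑ x ∈ Ico (0 : ℤ) n, ∑ a ∈ S, ∑ b ∈ S,
        (if a < b ∧ a + b = 2 * x then w (pos n x) else 0)
      ≤ ∑ a ∈ S, ∑ b ∈ S, (if a < b then
        (if (a + b) % 2 = 0 then w ((pos n a + pos n b) / 2) else 0) else 0) := by
    rw [sum_comm]
    refine sum_le_sum fun a _ => ?_
    rw [sum_comm]
    refine sum_le_sum fun b _ => ?_
    by_cases c : a < b
    · rw [if_pos c]
      by_cases d : ∃ x ∈ Ico (0 : ℤ) n, a + b = 2 * x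
      · obtain ⟨x, hx, hx2⟩ := d
        rw [sum_eq_single x]
        · rw [if_pos ⟨c, hx2⟩, if_pos (by omega), pos_mid hx2]
        · intro y _ hy
          rw [if_neg (by rintro ⟨_, h⟩; exact hy (by omega))]
        · intro h
          exact absurd hx h
      · rw [sum_eq_zero]
        · exact hm0 a b
        · intro x hx
          rw [if_neg (by rintro ⟨_, h⟩; exact d ⟨x, hx, h⟩)]
    · rw [if_neg c]
      refine le_of_eq (sum_eq_zero fun x _ => ?_)
      rw [if_neg (by rintro ⟨h, _⟩; exact c h)]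
  have e3 : ∑ a ∈ S, ∑ b ∈ S, (if a < b then
        (if (a + b) % 2 = 0 then w ((pos n a + pos n b) / 2) else 0) else 0)
      ≤ ∑ a ∈ S, ∑ b ∈ S, (if (a + b) % 2 = 0 then w ((pos n a + pos n b) / 2) / 2 else 0) := by
    have f1 : ∑ a ∈ S, ∑ b ∈ S, (if a < b then
        (if (a + b) % 2 = 0 then w ((pos n a + pos n b) / 2) else 0) else 0)
        = ∑ a ∈ S, ∑ b ∈ S, (if b < a then
        (if (a + b) % 2 = 0 then w ((pos n a + pos n b) / 2) else 0) else 0) := by
      rw [sum_comm]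
      refine sum_congr rfl fun a _ => sum_congr rfl fun b _ => ?_
      rw [add_comm (pos n b) (pos n a), add_comm b a]
    have f2 : ∑ a ∈ S, ∑ b ∈ S, (if a < b then
        (if (a + b) % 2 = 0 then w ((pos n a + pos n b) / 2) else 0) else 0)
        + ∑ a ∈ S, ∑ b ∈ S, (if b < a then
        (if (a + b) % 2 = 0 then w ((pos n a + pos n b) / 2) else 0) else 0)
        ≤ ∑ a ∈ S, ∑ b ∈ S, (if (a + b) % 2 = 0 then w ((pos n a + pos n b) / 2) else 0) := by
      rw [← sum_add_distrib]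
      refine sum_le_sum fun a _ => ?_
      rw [← sum_add_distrib]
      refine sum_le_sum fun b _ => ?_
      have := hm0 a b
      generalize (if (a + b) % 2 = 0 then w ((pos n a + pos n b) / 2) else 0) = m at this ⊢
      by_cases c1 : a < b
      · have c2 : ¬ b < a := by omega
        simp only [if_pos c1, if_neg c2]
        linarith
      · by_cases c2 : b < a
        · simp only [if_pos c2, if_neg c1]
          linarith
        · simp only [if_neg c2, if_neg c1]
          linarith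
    have f3 : ∑ a ∈ S, ∑ b ∈ S, (if (a + b) % 2 = 0 then w ((pos n a + pos n b) / 2) / 2 else 0)
        = (∑ a ∈ S, ∑ b ∈ S,
          (if (a + b) % 2 = 0 then w ((pos n a + pos n b) / 2) else 0)) / 2 := by
      rw [sum_div]
      refine sum_congr rfl fun a _ => ?_
      rw [sum_div]
      refine sum_congr rfl fun b _ => ?_
      split_ifs
      · rfl
      · rw [zero_div]
    rw [f3]
    linarith
  have e4 : ∀ x ∈ Ico (0 : ℤ) n, w (pos n x)
      ≤ ∑ a ∈ S, ∑ b ∈ S, (if 2 * b - a = x then w (pos n x) else 0)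
        + ∑ a ∈ S, ∑ b ∈ S, (if a < b ∧ a + b = 2 * x then w (pos n x) else 0) := by
    intro x hx
    rw [mem_Ico] at hx
    have n1 : ∀ (q : ℤ → ℤ → Prop) [∀ a b, Decidable (q a b)],
        (∃ a ∈ S, ∃ b ∈ S, q a b) → w (pos n x)
        ≤ ∑ a ∈ S, ∑ b ∈ S, (if q a b then w (pos n x) else 0) := by
      intro q _ ⟨a, ha, b, hb, hab⟩
      have i1 : (if q a b then w (pos n x) else 0)
          ≤ ∑ b ∈ S, (if q a b then w (pos n x) else 0) :=
        single_le_sum (f := fun b => if q a b then w (pos n x) else 0)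
          (fun b _ => by split_ifs; exacts [hw _, le_rfl]) hb
      have i2 : ∑ b ∈ S, (if q a b then w (pos n x) else 0)
          ≤ ∑ a ∈ S, ∑ b ∈ S, (if q a b then w (pos n x) else 0) :=
        single_le_sum (f := fun a => ∑ b ∈ S, if q a b then w (pos n x) else 0)
          (fun a _ => sum_nonneg fun b _ => by split_ifs; exacts [hw _, le_rfl]) ha
      rw [if_pos hab] at i1
      exact i1.trans i2
    have n0 : ∀ (q : ℤ → ℤ → Prop) [∀ a b, Decidable (q a b)],
        0 ≤ ∑ a ∈ S, ∑ b ∈ S, (if q a b then w (pos n x) else 0) := by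
      intro q _
      exact sum_nonneg fun a _ => sum_nonneg fun b _ => by split_ifs; exacts [hw _, le_rfl]
    rcases hcov x hx.1 hx.2 with ⟨a, ha, b, hb, h⟩ | ⟨a, ha, b, hb, h1, h2⟩
    · have m1 := n1 (fun a b => 2 * b - a = x) ⟨a, ha, b, hb, h.symm⟩
      have m2 := n0 (fun a b => a < b ∧ a + b = 2 * x)
      linarith
    · have m1 := n0 (fun a b => 2 * b - a = x)
      have m2 := n1 (fun a b => a < b ∧ a + b = 2 * x) ⟨a, ha, b, hb, h1, h2⟩
      linarith
  have e5 := sum_le_sum e4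
  rw [sum_add_distrib] at e5
  simp only [sum_add_distrib]
  rw [e1]
  linarith

/-- the sum of the pair kernel -/
def sW (n : ℕ) (vc : ℝ) (wR wL : ℝ → ℝ) (sd : ℤ → Bool) (S : Finset ℤ) : ℝ :=
  ∑ a ∈ S, ∑ b ∈ S, kW vc wR wL (sd a) (sd b) (decide ((a + b) % 2 = 0)) (pos n a) (pos n b)

/-- the right-hand side of the price fact -/
def bW (n : ℕ) (r : ℝ) (wR wL : ℝ → ℝ) : ℝ :=
  (1 / 4 - r) / 3 * n - 3 / 8 + ∑ x ∈ Ico (0:ℤ) n, (wR (pos n x) + wL (pos n x))

/-- the pair statement from the human form; the ramps may depend on the sides -/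
theorem pair_of_ramps {n : ℕ} (hn : 0 < n) {r v vc : ℝ} {S : Finset ℤ} (hcov : Cov S (Mid S) n)
    (h : ∀ sd : ℤ → Bool, Side n sd → ∃ wR wL : ℝ → ℝ, Ramps n r v wR wL ∧
      sW n vc wR wL sd S ≤ bW n r wR wL) {τ : ℝ}
    (hτ : τ * n = (1 / 4 - r) / 3 * n - 3 / 8) : PairCert n S (Rx n r v) (Mx n r vc) τ := by
  intro sd hsd
  obtain ⟨wR, wL, hw, k⟩ := h sd hsd
  have c := cover_w hn S hcov (fun y => wR y + wL y)
    (fun y => add_nonneg (hw.R0 _) (hw.L0 _))
  have e : sW n vc wR wL sd S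
      = ∑ a ∈ S, ∑ b ∈ S, ((if sd a = true ∧ sd b = false then
          1 - wR (2 * pos n b - pos n a) else 0)
          - (if sd a = true ∧ sd b = true ∧ vc ≤ pos n b then wL (2 * pos n b - pos n a) else 0))
        + ∑ a ∈ S, ∑ b ∈ S, ((if 0 < 2 * pos n b - pos n a ∧ 2 * pos n b - pos n a < 1 then
          wR (2 * pos n b - pos n a) + wL (2 * pos n b - pos n a) else 0)
          + (if (a + b) % 2 = 0 then
            (wR ((pos n a + pos n b) / 2) + wL ((pos n a + pos n b) / 2)) / 2 else 0)) := by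
    unfold sW
    rw [← sum_add_distrib]
    refine sum_congr rfl fun a _ => ?_
    rw [← sum_add_distrib]
    refine sum_congr rfl fun b _ => ?_
    unfold kW
    simp only [decide_eq_true_eq]
    ring
  have m : ∑ a ∈ S, ∑ b ∈ S, ((if sd a = true ∧ sd b = false then
        Rx n r v (pos n a) (pos n b) else 0)
        - (if sd a = true ∧ sd b = true then Mx n r vc (pos n a) (pos n b) else 0))
      ≤ ∑ a ∈ S, ∑ b ∈ S, ((if sd a = true ∧ sd b = false then
          1 - wR (2 * pos n b - pos n a) else 0)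
          - (if sd a = true ∧ sd b = true ∧ vc ≤ pos n b then wL (2 * pos n b - pos n a) else 0)) := by
    refine sum_le_sum fun a _ => sum_le_sum fun b _ => ?_
    have h1 := hw.R1 (2 * pos n b - pos n a)
    have h2 := hw.L1 (2 * pos n b - pos n a)
    unfold Rx Mx
    cases sd a <;> cases sd b <;> simp
    · linarith
    · by_cases c1 : pos n b < vc
      · rw [if_pos c1, if_neg (not_le.2 c1)]
      · rw [if_neg c1, if_pos (not_lt.1 c1)]
        exact h2
  rw [e] at k
  unfold bW at k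
  have e3 : ∀ a ∈ S, ∀ b ∈ S, (if (a + b) % 2 = 0 then
      (wR ((pos n a + pos n b) / 2) + wL ((pos n a + pos n b) / 2)) / 2 else 0)
      = (if (a + b) % 2 = 0 then
      (fun y => wR y + wL y) ((pos n a + pos n b) / 2) / 2 else 0) := fun a _ b _ => rfl
  linarith

/-- PRICE FACT OF THE FRAME from the human form: it suffices that for a maximal `A` with
`|A|^2 < n` and every side map, for SOME pair of ramps the sum of the kernel is at most `bW`. -/
theorem pxi_of_ramps {n : ℕ} (hn : 122 ≤ n) {r v vc : ℝ} (hp : Par r v vc)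
    (h : ∀ A : Finset ℕ, IsMaximalThreeFree n A → A.card ^ 2 < n → ∀ sd : ℤ → Bool, Side n sd →
      ∃ wR wL : ℝ → ℝ, Ramps n r v wR wL ∧ sW n vc wR wL sd (shift A) ≤ bW n r wR wL)
    {A : Finset ℕ} (hA : IsMaximalThreeFree n A) (hlt : A.card ^ 2 < n) {t : ℕ} (ht : 5 ≤ t)
    {D K ρ V ν : ℤ} (hD : D = 4 * K + 1) (e1 : 3 * D + 1 ≤ 4 ^ t * (n : ℤ))
    (e2 : 4 ^ t * (n : ℤ) ≤ 3 * D + 12) (hρ1 : r * D - 1 ≤ ρ) (hρ2 : (ρ:ℝ) ≤ r * D)
    (hν : (ν:ℝ) ≤ v * D) (hV : (1 - 3 * vc + 1 / 244) * (D:ℝ) + 12 ≤ V) :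
    dd (PH (liftN t (shift A)) D V) (QH (liftN t (shift A)) D V) (2 * K + 1 + ρ - 6 * ν)
        ≤ K - ρ + 1 + nn (PH (liftN t (shift A)) D V) (1 + ρ) + 1 ∧
      dd (QH (liftN t (shift A)) D V) (PH (liftN t (shift A)) D V) (2 * K + 1 + ρ - 6 * ν)
        ≤ K - ρ + 1 + nn (QH (liftN t (shift A)) D V) (1 + ρ) + 1 := by
  have hn' : (0:ℝ) < n := by
    have : 0 < n := by omega
    exact_mod_cast this
  have hτ : ((1 / 4 - r) / 3 - 3 / 8 / (n:ℝ)) * n = (1 / 4 - r) / 3 * n - 3 / 8 := by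
    field_simp
  exact pxi_of_cert hn hp (kern_x n r v vc) hτ.le
    (fun A hA hlt => pair_of_ramps (by omega) (cov_of_maximal hA) (h A hA hlt) hτ) hA hlt ht hD
    e1 e2 hρ1 hρ2 hν hV

/-! ### Ramps -/

/-- ramp up from `a` to `a + δ` -/
def rUp (a δ y : ℝ) : ℝ := max 0 (min 1 ((y - a) / δ))

/-- ramp down from `b - δ` to `b` -/
def rDn (b δ y : ℝ) : ℝ := max 0 (min 1 ((b - y) / δ))

lemma clamp_scale {n : ℕ} {δ x : ℝ} (hδ : 0 < δ) (hn : 1 ≤ n * δ) :
    max 0 (min 1 (x / δ)) ≤ max 0 (min 1 (n * x)) := by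
  rcases le_total x 0 with h | h
  · have : x / δ ≤ 0 := div_nonpos_of_nonpos_of_nonneg h hδ.le
    rw [max_eq_left ((min_le_right _ _).trans this)]
    exact le_max_left _ _
  · refine max_le_max le_rfl (min_le_min le_rfl ?_)
    rw [div_le_iff₀ hδ]
    have := mul_le_mul_of_nonneg_left hn h
    linarith

lemma ramps_lin {n : ℕ} (hn : 0 < n) {r v a δ b δ' : ℝ} (hδ : 0 < δ) (h1 : 1 ≤ n * δ)
    (ha : yRp r v ≤ a) (hδ' : 0 < δ') (h1' : 1 ≤ n * δ') (hb : b ≤ yLp r) :
    Ramps n r v (rUp a δ) (rDn b δ') where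
  R0 := fun y => le_max_left _ _
  L0 := fun y => le_max_left _ _
  R1 := fun y => by
    have hn' : (0:ℝ) < n := by exact_mod_cast hn
    have ha' := mul_le_mul_of_nonneg_left ha hn'.le
    refine (clamp_scale hδ h1).trans ?_
    unfold lR
    rcases le_total (51 / 100 - n * (y - yRp r v)) 0 with h | h
    · rw [max_eq_left ((min_le_right _ _).trans h), sub_zero]
      exact max_le zero_le_one (min_le_left _ _)
    · rcases le_total (51 / 100 - n * (y - yRp r v)) 1 with h2 | h2
      · rw [min_eq_right h2, max_eq_right h]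
        refine max_le (by linarith) ((min_le_right _ _).trans (by linarith))
      · rw [min_eq_left h2, max_eq_right (zero_le_one' ℝ)]
        refine max_le (by linarith) ((min_le_right _ _).trans (by linarith))
  L1 := fun y => by
    have hn' : (0:ℝ) < n := by exact_mod_cast hn
    have hb' := mul_le_mul_of_nonneg_left hb hn'.le
    refine (clamp_scale hδ' h1').trans ?_
    unfold lL rampL
    refine max_le_max le_rfl (min_le_min le_rfl ?_)
    linarith

lemma clamp_diff (z : ℝ) : max 0 (min 1 z) = max 0 z - max 0 (z - 1) := by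
  rcases le_total z 0 with h | h
  · rw [min_eq_right (by linarith), max_eq_left h, max_eq_left (by linarith)]
    ring
  · rcases le_total z 1 with h1 | h1
    · rw [min_eq_right h1, max_eq_right h, max_eq_left (by linarith)]
      ring
    · rw [min_eq_left h1, max_eq_right h, max_eq_right (show (0:ℝ) ≤ z - 1 by linarith),
        max_eq_right (zero_le_one' ℝ)]
      ring

lemma sum_tele (n : ℕ) (g : ℤ → ℝ) :
    ∑ x ∈ Ico (0:ℤ) n, (g (x + 1) - g x) = g n - g 0 := by
  induction n with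
  | zero => simp
  | succ n ih =>
    have e : Ico (0:ℤ) ((n + 1 : ℕ) : ℤ) = insert (n:ℤ) (Ico (0:ℤ) n) := by
      ext x
      simp only [mem_Ico, mem_insert]
      push_cast
      omega
    rw [e, sum_insert (by simp), ih]
    push_cast
    ring

/-- midpoint sums of `max 0 (y - c)` -/
lemma sum_pos_part (n : ℕ) {c : ℝ} (h0 : 0 ≤ c) (h1 : c ≤ n) :
    (n - c) ^ 2 / 2 - 1 / 8 ≤ ∑ x ∈ Ico (0:ℤ) n, max 0 ((x:ℝ) + 1 / 2 - c) ∧
    ∑ x ∈ Ico (0:ℤ) n, max 0 ((x:ℝ) + 1 / 2 - c) ≤ (n - c) ^ 2 / 2 := by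
  constructor
  · have key : ∀ x ∈ Ico (0:ℤ) n,
        ((max 0 (((x + 1 : ℤ) : ℝ) - c)) ^ 2 / 2 - (if c < ((x + 1 : ℤ) : ℝ) then 1 / 8 else 0))
          - ((max 0 ((x : ℝ) - c)) ^ 2 / 2 - (if c < (x : ℝ) then 1 / 8 else 0))
        ≤ max 0 ((x:ℝ) + 1 / 2 - c) := by
      intro x _
      push_cast
      rcases lt_or_ge c (x:ℝ) with h | h
      · rw [if_pos (by linarith), if_pos h, max_eq_right (by linarith), max_eq_right (by linarith),
          max_eq_right (by linarith)]
        nlinarith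
      · rw [if_neg (not_lt.2 h), max_eq_left (show (x:ℝ) - c ≤ 0 by linarith)]
        rcases lt_or_ge c ((x:ℝ) + 1) with h2 | h2
        · rw [if_pos h2, max_eq_right (by linarith)]
          rcases le_total 0 ((x:ℝ) + 1 / 2 - c) with h3 | h3
          · rw [max_eq_right h3]
            nlinarith
          · rw [max_eq_left h3]
            nlinarith
        · rw [if_neg (not_lt.2 h2), max_eq_left (show (x:ℝ) + 1 - c ≤ 0 by linarith),
            max_eq_left (show (x:ℝ) + 1 / 2 - c ≤ 0 by linarith)]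
          norm_num
    have s := sum_le_sum key
    have t := sum_tele n (fun x => (max 0 ((x : ℝ) - c)) ^ 2 / 2
      - (if c < (x : ℝ) then 1 / 8 else 0))
    rw [t] at s
    refine le_trans ?_ s
    simp only [Int.cast_natCast, Int.cast_zero]
    rw [max_eq_right (by linarith), max_eq_left (by linarith), if_neg (not_lt.2 h0)]
    split_ifs
    · linarith
    · linarith
  · have key : ∀ x ∈ Ico (0:ℤ) n, max 0 ((x:ℝ) + 1 / 2 - c)
        ≤ (max 0 (((x + 1 : ℤ) : ℝ) - c)) ^ 2 / 2 - (max 0 ((x : ℝ) - c)) ^ 2 / 2 := by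
      intro x _
      push_cast
      rcases lt_or_ge c (x:ℝ) with h | h
      · rw [max_eq_right (by linarith), max_eq_right (by linarith),
          max_eq_right (by linarith)]
        nlinarith
      · rw [max_eq_left (show (x:ℝ) - c ≤ 0 by linarith)]
        rcases lt_or_ge c ((x:ℝ) + 1) with h2 | h2
        · rw [max_eq_right (show (0:ℝ) ≤ (x:ℝ) + 1 - c by linarith)]
          rcases le_total 0 ((x:ℝ) + 1 / 2 - c) with h3 | h3
          · rw [max_eq_right h3]
            nlinarith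
          · rw [max_eq_left h3]
            nlinarith
        · rw [max_eq_left (show (x:ℝ) + 1 - c ≤ 0 by linarith),
            max_eq_left (show (x:ℝ) + 1 / 2 - c ≤ 0 by linarith)]
          norm_num
    have s := sum_le_sum key
    have t := sum_tele n (fun x => (max 0 ((x : ℝ) - c)) ^ 2 / 2)
    rw [t] at s
    refine s.trans ?_
    simp only [Int.cast_natCast, Int.cast_zero]
    rw [max_eq_right (by linarith), max_eq_left (by linarith)]
    norm_num

/-- sum of the ramp up -/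
lemma sum_rUp {n : ℕ} (hn : 0 < n) {a δ : ℝ} (hδ : 0 < δ) (ha : 0 ≤ a) (h1 : a + δ ≤ 1) :
    (1 - a - δ / 2) * n - 1 / (8 * δ * n) ≤ ∑ x ∈ Ico (0:ℤ) n, rUp a δ (pos n x) := by
  have hn' : (0:ℝ) < n := by exact_mod_cast hn
  have e : ∀ x ∈ Ico (0:ℤ) n, rUp a δ (pos n x)
      = 1 / (δ * n) * (max 0 ((x:ℝ) + 1 / 2 - n * a) - max 0 ((x:ℝ) + 1 / 2 - n * (a + δ))) := by
    intro x _
    unfold rUp
    rw [clamp_diff]
    have hd : 0 ≤ 1 / (δ * n) := by positivity
    rw [mul_sub, mul_max_of_nonneg _ _ hd, mul_max_of_nonneg _ _ hd, mul_zero]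
    have e1 : (pos n x - a) / δ = 1 / (δ * n) * ((x:ℝ) + 1 / 2 - n * a) := by
      unfold pos
      field_simp
    have e2 : (pos n x - a) / δ - 1 = 1 / (δ * n) * ((x:ℝ) + 1 / 2 - n * (a + δ)) := by
      unfold pos
      field_simp
      ring
    rw [e1, ← e1, e2, ← e2, e1]
  rw [sum_congr rfl e, ← mul_sum, sum_sub_distrib]
  have k1 := (sum_pos_part n (c := n * a) (by positivity)
    (by nlinarith)).1
  have k2 := (sum_pos_part n (c := n * (a + δ)) (by positivity)
    (by nlinarith)).2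
  have e3 : (1 - a - δ / 2) * n - 1 / (8 * δ * n)
      = 1 / (δ * n) * (((n - n * a) ^ 2 / 2 - 1 / 8) - (n - n * (a + δ)) ^ 2 / 2) := by
    field_simp
    ring
  rw [e3]
  refine mul_le_mul_of_nonneg_left ?_ (by positivity)
  linarith

/-- sum of the ramp down -/
lemma sum_rDn {n : ℕ} (hn : 0 < n) {b δ : ℝ} (hδ : 0 < δ) (hb : b ≤ 1) (h1 : δ ≤ b) :
    (b - δ / 2) * n - 1 / (8 * δ * n) ≤ ∑ x ∈ Ico (0:ℤ) n, rDn b δ (pos n x) := by
  have hn' : (0:ℝ) < n := by exact_mod_cast hn
  have e0 : ∑ x ∈ Ico (0:ℤ) n, rDn b δ (pos n x)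
      = ∑ x ∈ Ico (0:ℤ) n, rUp (1 - b) δ (pos n x) := by
    refine sum_nbij' (fun x => (n:ℤ) - 1 - x) (fun x => (n:ℤ) - 1 - x) ?_ ?_ ?_ ?_ ?_
    · intro x hx
      rw [mem_Ico] at hx ⊢
      omega
    · intro x hx
      rw [mem_Ico] at hx ⊢
      omega
    · intro x _
      ring
    · intro x _
      ring
    · intro x _
      unfold rDn rUp pos
      congr 3
      push_cast
      field_simp
      ring
  rw [e0]
  refine le_trans (le_of_eq ?_) (sum_rUp hn hδ (by linarith) (by linarith))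
  ring

/-! ### The exact windows -/

lemma ramps_exact (n : ℕ) (r v : ℝ) : Ramps n r v (lR n (yRp r v)) (lL n (yLp r)) where
  R0 := fun y => lR_nonneg _ _ y
  R1 := fun _ => le_rfl
  L0 := fun y => lL_nonneg _ _ y
  L1 := fun _ => le_rfl

/-- number of cells right of `yR` -/
lemma sum_lR {n : ℕ} (hn : 0 < n) {yR : ℝ} (h0 : 0 ≤ yR) :
    (1 - yR) * n - 1 / 100 ≤ ∑ x ∈ Ico (0:ℤ) n, lR n yR (pos n x) := by
  have hn' : (0:ℝ) < n := by exact_mod_cast hn
  have hy : 0 ≤ yR * n := mul_nonneg h0 hn'.le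
  have e : ∀ x ∈ Ico (0:ℤ) n, lR n yR (pos n x)
      = (max 0 (((x + 1 : ℤ) : ℝ) - (yR * n + 1 / 100))
        - max 0 ((x : ℝ) - (yR * n + 1 / 100))) := by
    intro x _
    unfold lR
    have e1 : (n:ℝ) * (pos n x - yR) = x + 1 / 2 - yR * n := by
      unfold pos
      field_simp
    rw [e1, clamp_diff]
    push_cast
    set z : ℝ := (x:ℝ) - (yR * n + 1 / 100) with hz
    rw [show (51:ℝ) / 100 - (x + 1 / 2 - yR * n) = -z by rw [hz]; ring,
      show (-z - 1 : ℝ) = -(z + 1) by ring, show (x:ℝ) + 1 - (yR * n + 1 / 100) = z + 1 by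
        rw [hz]; ring]
    have a : ∀ w : ℝ, max 0 (-w) = max 0 w - w := by
      intro w
      rcases le_total w 0 with h | h
      · rw [max_eq_right (by linarith), max_eq_left h]
        ring
      · rw [max_eq_left (by linarith), max_eq_right h]
        ring
    rw [a, a]
    ring
  rw [sum_congr rfl e, sum_tele n (fun x => max 0 ((x : ℝ) - (yR * n + 1 / 100)))]
  simp only [Int.cast_natCast, Int.cast_zero]
  rw [max_eq_left (show (0:ℝ) - (yR * n + 1 / 100) ≤ 0 by linarith)]
  have := le_max_right (0:ℝ) ((n:ℝ) - (yR * n + 1 / 100))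
  linarith

/-- number of cells left of `yL` -/
lemma sum_lL {n : ℕ} (hn : 0 < n) {yL : ℝ} (h1 : yL ≤ 1) :
    yL * n - 1 / 100 ≤ ∑ x ∈ Ico (0:ℤ) n, lL n yL (pos n x) := by
  have hn' : (0:ℝ) < n := by exact_mod_cast hn
  have hy : yL * n ≤ n := by nlinarith
  have e : ∀ x ∈ Ico (0:ℤ) n, lL n yL (pos n x)
      = (-max 0 ((yL * n - 1 / 100) - ((x + 1 : ℤ) : ℝ))
        - -max 0 ((yL * n - 1 / 100) - (x : ℝ))) := by
    intro x _
    unfold lL rampL
    have e1 : (n:ℝ) * pos n x = x + 1 / 2 := by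
      unfold pos
      field_simp
    rw [e1, clamp_diff]
    push_cast
    rw [show yL * n + 49 / 100 - ((x:ℝ) + 1 / 2) = yL * n - 1 / 100 - x by ring,
      show yL * n - 1 / 100 - (x:ℝ) - 1 = yL * n - 1 / 100 - (x + 1) by ring]
    ring
  rw [sum_congr rfl e, sum_tele n (fun x => -max 0 ((yL * n - 1 / 100) - (x : ℝ)))]
  simp only [Int.cast_natCast, Int.cast_zero]
  rw [max_eq_left (show yL * (n:ℝ) - 1 / 100 - n ≤ 0 by linarith)]
  have := le_max_right (0:ℝ) ((yL * (n:ℝ) - 1 / 100) - 0)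
  linarith

/-- the constant of the pair fact for the exact windows -/
lemma bW_exact {n n0 : ℕ} (h0 : 0 < n0) (hn : n0 ≤ n) {r v : ℝ} (hR : 0 ≤ yRp r v)
    (hL : yLp r ≤ 1) :
    ((1 / 4 - r) / 3 + (1 - yRp r v) + yLp r - 79 / 200 / n0) * n
      ≤ bW n r (lR n (yRp r v)) (lL n (yLp r)) := by
  have hn0 : 0 < n := lt_of_lt_of_le h0 hn
  have r0 : (0:ℝ) < n0 := by exact_mod_cast h0
  have rn : (0:ℝ) < n := by exact_mod_cast hn0
  have hnn : (n0:ℝ) ≤ n := by exact_mod_cast hn
  have k1 := sum_lR hn0 hR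
  have k2 := sum_lL hn0 hL
  unfold bW
  rw [sum_add_distrib]
  have d3 : (79:ℝ) / 200 ≤ 79 / 200 / n0 * n := by
    have h : (1:ℝ) ≤ n / n0 := by rw [le_div_iff₀ r0]; linarith
    have : (79:ℝ) / 200 / n0 * n = 79 / 200 * (n / n0) := by field_simp
    rw [this]
    linarith
  have e : ((1 / 4 - r) / 3 + (1 - yRp r v) + yLp r - 79 / 200 / n0) * n
      = (1 / 4 - r) / 3 * n + (1 - yRp r v) * n + yLp r * n - 79 / 200 / n0 * n := by
    ring
  rw [e]
  linarith

/-- the exact right window is below a ramp which ends before it -/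
lemma lR_le_rUp {n n0 : ℕ} (h0 : 0 < n0) (hn : n0 ≤ n) {yR a δ : ℝ} (hδ : 0 < δ)
    (h : a + δ ≤ yR - 49 / 100 / n0) (y : ℝ) : lR n yR y ≤ rUp a δ y := by
  have hn0 : 0 < n := lt_of_lt_of_le h0 hn
  have r0 : (0:ℝ) < n0 := by exact_mod_cast h0
  have rn : (0:ℝ) < n := by exact_mod_cast hn0
  have hnn : (n0:ℝ) ≤ n := by exact_mod_cast hn
  have hq : 49 / 100 / (n:ℝ) ≤ 49 / 100 / n0 := div_le_div_of_nonneg_left (by norm_num) r0 hnn
  rcases le_total y (yR - 49 / 100 / n) with c | c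
  · have e : n * (y - yR) ≤ -(49 / 100) := by
      have h1 : y - yR ≤ -(49 / 100 / n) := by linarith
      have h2 := mul_le_mul_of_nonneg_left h1 rn.le
      have h3 : (n:ℝ) * -(49 / 100 / n) = -(49 / 100) := by field_simp
      linarith
    have : lR n yR y = 0 := by
      unfold lR
      rw [min_eq_left (by linarith), max_eq_right zero_le_one]
      norm_num
    rw [this]
    exact le_max_left _ _
  · have : rUp a δ y = 1 := by
      unfold rUp
      have h1 : 1 ≤ (y - a) / δ := by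
        rw [le_div_iff₀ hδ]
        linarith
      rw [min_eq_left h1, max_eq_right zero_le_one]
    rw [this]
    exact lR_le_one _ _ _

/-- the exact left window is below a ramp which begins behind it -/
lemma lL_le_rDn {n : ℕ} {yL b δ : ℝ} (hδ : 0 < δ) (hn : 1 ≤ n * δ)
    (h : yL ≤ b - δ) (y : ℝ) : lL n yL y ≤ rDn b δ y := by
  rcases le_total y (b - δ) with c | c
  · have : rDn b δ y = 1 := by
      unfold rDn
      have h1 : 1 ≤ (b - y) / δ := by
        rw [le_div_iff₀ hδ]
        linarith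
      rw [min_eq_left h1, max_eq_right zero_le_one]
    rw [this]
    unfold lL rampL
    exact max_le zero_le_one (min_le_left _ _)
  · have rn : (0:ℝ) ≤ n := Nat.cast_nonneg n
    unfold lL rampL rDn
    refine max_le_max le_rfl (min_le_min le_rfl ?_)
    have e : (b - y) / δ = 1 - (y - (b - δ)) / δ := by
      field_simp
      ring
    rw [e]
    have h1 : (y - (b - δ)) / δ ≤ n * (y - (b - δ)) := by
      rw [div_le_iff₀ hδ]
      have := mul_le_mul_of_nonneg_left hn (sub_nonneg.2 c)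
      linarith
    have h2 := mul_le_mul_of_nonneg_left h rn
    linarith

end

end MP61673a.PF
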