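import Pool.Agent.Mu673.SegData
import Pool.Agent.Mu673.PriceClass

/-!
PRICE FACT: from packed label tables to the node tables of the pair facts. Ramps aligned with the
nodes: `wR = rUp (A / N) (d / N)`, `wL = rDn (B / N) (e / N)`. Every class pair has its own table of
the label part of the kernel (exact rule), one table for the midpoints.
-/

set_option autoImplicit false

namespace MP61673a.KC

open Finset MP61673a.Kink MP61673a.Sos MP61673a.Bridge
open MP61673a.PF (rUp rDn kW kT)
open MP61673a.TP (CertifiedC)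

noncomputable section

/-- label tables of one pair fact; ramps `A, .., A + d` and `B - e, .., B` (node units) with values
`0, .., sR d = S` and `sL e = S`; digit `m` of a table = label `m - 2 o2`; tables shifted by `c0` -/
structure PT where
  /-- start of the right ramp -/
  A : ℕ
  /-- length of the right ramp -/
  d : ℕ
  /-- step of the right ramp -/
  sR : ℕ
  /-- end of the left ramp -/
  B : ℕ
  /-- length of the left ramp -/
  e : ℕ
  /-- step of the left ramp -/
  sL : ℕ
  /-- value tables -/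
  vt : List ℕ
  /-- node value tables (exact rule) -/
  wt : List ℕ
  /-- table of the class pair -/
  tt : List (List ℕ)
  /-- values of the midpoints -/
  vm : ℕ
  /-- node values of the midpoints: digit `m` = half label `m / 2` -/
  wm : ℕ

/-! ### Kernel functions -/

/-- minimum -/
def mn2 (d x : ℕ) : ℕ := Nat.sub d (Nat.sub d x)

/-- right ramp at the digit `D` -/
def uR (T : PT) (o D : ℕ) : ℕ := Nat.mul T.sR (mn2 T.d (Nat.sub D (Nat.add o T.A)))

/-- left ramp at the digit `D` -/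
def uL (T : PT) (o D : ℕ) : ℕ := Nat.mul T.sL (mn2 T.e (Nat.sub (Nat.add o T.B) D))

/-- table index of a class pair -/
def tI (T : PT) (a b : ℕ) : ℕ := nth 0 (nth [] T.tt a) b

/-- left x right; `sides`: 1 = left, 2 = left and behind the cut (may be doubled), 0 = right -/
def fl1 (sides : List ℕ) (a b : ℕ) : Bool :=
  and (Nat.ble 1 (nth 0 sides a)) (Nat.beq (nth 0 sides b) 0)

/-- left x doubled left -/
def fl2 (sides : List ℕ) (a b : ℕ) : Bool :=
  and (Nat.ble 1 (nth 0 sides a)) (Nat.beq (nth 0 sides b) 2)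

/-- condition for labels inside the window -/
def vIn (S c0 o : ℕ) (T : PT) (f1 f2 : Bool) (D v : ℕ) : Bool :=
  Nat.ble (Nat.add (Nat.add c0 (cond f1 S (uR T o D))) (cond f2 0 (uL T o D))) v

/-- condition for labels outside the window -/
def vOut (S c0 o : ℕ) (T : PT) (f1 f2 : Bool) (D v : ℕ) : Bool :=
  Nat.ble (Nat.add c0 (cond f1 S 0))
    (Nat.add (Nat.add v (cond f1 (uR T o D) 0)) (cond f2 (uL T o D) 0))

/-- the value condition at the digit `D` -/
def vOK (N S c0 o : ℕ) (T : PT) (f1 f2 : Bool) (D v : ℕ) : Bool :=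
  and (or (or (Nat.ble (Nat.succ D) o) (Nat.ble (Nat.succ (Nat.add o N)) D))
      (vIn S c0 o T f1 f2 D v))
    (or (and (Nat.ble (Nat.succ o) D) (Nat.ble (Nat.succ D) (Nat.add o N)))
      (vOut S c0 o T f1 f2 D v))

/-- number of classes -/
def nS (l : List Seg) : ℕ := sumL (fun _ => 1) l

/-- number of nodes before the class -/
def offK (l : List Seg) (c : ℕ) : ℕ :=
  List.rec (motive := fun _ => ℕ → ℕ) (fun _ => 0)
    (fun s _ ih c => Nat.rec (motive := fun _ => ℕ) 0 (fun k _ => Nat.add s.len (ih k)) c) l c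

/-- value tables dominate the kernel, all class pairs, all labels of the pair -/
def chkV (d : DatS) (S c0 o : ℕ) (sides : List ℕ) (T : PT) : Bool :=
  allN (nS d.segs) (fun a => allN (nS d.segs) (fun b =>
    allN (Nat.sub (Nat.add (Nat.mul 2 (sgA d.segs b).len) (sgA d.segs a).len) 2) (fun m =>
      vOK d.N S c0 o T (fl1 sides a b) (fl2 sides a b)
        (Nat.add (Nat.sub (Nat.add (Nat.succ o) (Nat.mul 2 (sgA d.segs b).lo))
          (Nat.add (sgA d.segs a).lo (sgA d.segs a).len)) m)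
        (dg (nth 0 T.vt (tI T a b))
          (Nat.add (Nat.sub (Nat.add (Nat.succ o) (Nat.mul 2 (sgA d.segs b).lo))
          (Nat.add (sgA d.segs a).lo (sgA d.segs a).len)) m)))))

/-- exact rule for all tables -/
def chkW (Mx : ℕ) (T : PT) : Bool :=
  allN (sumL (fun _ => 1) T.vt) (fun t => and (shp Mx (nth 0 T.vt t))
    (chkFre Mx (nth 0 T.vt t) (nth 0 T.wt t)))

/-- midpoints -/
def chkQ (N o2 Mx : ℕ) (T : PT) : Bool :=
  and (and (shp Mx T.vm) (chkM2 N o2 T.vm T.wm))
    (allN (Nat.succ N) (fun j => Nat.ble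
      (Nat.add (uR T (Nat.mul 2 o2) (Nat.add (Nat.mul 2 o2) j))
        (uL T (Nat.mul 2 o2) (Nat.add (Nat.mul 2 o2) j)))
      (dg T.vm (Nat.add j (Nat.mul 2 o2)))))

/-- the matrices of the pair fact dominate the node tables -/
def chkP (d : DatS) (c0 o : ℕ) (T : PT) (mp mn : List ℕ) : Bool :=
  allN (nS d.segs) (fun a => allN (nS d.segs) (fun b =>
    allN (sgA d.segs a).len (fun i => allN (sgA d.segs b).len (fun j =>
      Nat.ble
        (Nat.add (Nat.add (Nat.add
          (dg (nth 0 T.wt (tI T a b)) (Nat.sub (Nat.add o (Nat.mul 2 (Nat.add (sgA d.segs b).lo j)))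
            (Nat.add (sgA d.segs a).lo i)))
          (dg (nth 0 T.wt (tI T b a)) (Nat.sub (Nat.add o (Nat.mul 2 (Nat.add (sgA d.segs a).lo i)))
            (Nat.add (sgA d.segs b).lo j))))
          (cond (Nat.beq (sgA d.segs a).par (sgA d.segs b).par)
            (dg T.wm (Nat.add (Nat.add (sgA d.segs a).lo i) (Nat.add (sgA d.segs b).lo j))) 0))
          (dg (nth 0 mn (Nat.add (offK d.segs a) i)) (Nat.add (offK d.segs b) j)))
        (Nat.add (dg (nth 0 mp (Nat.add (offK d.segs a) i)) (Nat.add (offK d.segs b) j))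
          (Nat.mul 2 c0))))))

/-- indices, sizes, steps of the ramps; parities of the classes -/
def chkT (d : DatS) (S o nv : ℕ) (sides : List ℕ) (T : PT) : Bool :=
  and (and (and (and (and (Nat.beq (Nat.mul T.sR T.d) S) (Nat.beq (Nat.mul T.sL T.e) S))
    (and (Nat.ble 1 T.d) (Nat.ble 1 T.e))) (and (Nat.ble 1 S) (Nat.ble T.e T.B)))
    (and (Nat.ble d.N o) (Nat.ble 1 d.N)))
    (allN (nS d.segs) (fun a => and (or (Nat.ble (nth 0 sides a) 1)
        (Nat.ble nv (sgA d.segs a).lo))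
      (and (Nat.ble (sgA d.segs a).par 1) (and (Nat.ble (nth 0 sides a) 2)
      (allN (nS d.segs) (fun b => Nat.ble (Nat.succ (tI T a b)) (sumL (fun _ => 1) T.vt)))))))

/-! ### Clamps -/

/-- clamp -/
def clp (A d : ℤ) (x : ℝ) : ℝ := max 0 (min 1 ((x - A) / d))

lemma clp_pl {A d : ℤ} (hd : 0 < d) (x : ℝ) : clp A d x = pl (fun k : ℤ => clp A d k) x := by
  have hd' : (0:ℝ) < d := by exact_mod_cast hd
  have f0 := Int.fract_nonneg x
  have f1 := Int.fract_lt_one x
  have fx := Int.floor_add_fract x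
  unfold pl
  beta_reduce
  set k := ⌊x⌋ with hk
  have hx : x = k + Int.fract x := fx.symm
  rcases lt_or_ge k A with c | c
  · -- below
    have c1 : (k:ℝ) + 1 ≤ A := by exact_mod_cast c
    have z : ∀ t : ℝ, t ≤ A → clp A d t = 0 := by
      intro t ht
      unfold clp
      rw [max_eq_left]
      exact (min_le_right _ _).trans (div_nonpos_of_nonpos_of_nonneg (by linarith) hd'.le)
    rw [z x (by linarith), z _ (by linarith), z _ (by push_cast; linarith)]
    ring
  · rcases lt_or_ge k (A + d) with c2 | c2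
    · have c1 : (A:ℝ) ≤ k := by exact_mod_cast c
      have c3 : (k:ℝ) + 1 ≤ A + d := by exact_mod_cast c2
      have z : ∀ t : ℝ, (A:ℝ) ≤ t → t ≤ A + d → clp A d t = (t - A) / d := by
        intro t h1 h2
        unfold clp
        have h3 : 0 ≤ (t - A) / d := div_nonneg (by linarith) hd'.le
        have h4 : (t - A) / d ≤ 1 := by
          rw [div_le_one hd']
          linarith
        rw [min_eq_right h4, max_eq_right h3]
      rw [z x (by linarith) (by linarith), z _ (by linarith) (by linarith),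
        z _ (by push_cast; linarith) (by push_cast; linarith)]
      push_cast
      have e : Int.fract x = x - k := by linarith
      rw [e]
      field_simp
      ring
    · have c1 : (A:ℝ) + d ≤ k := by exact_mod_cast c2
      have z : ∀ t : ℝ, (A:ℝ) + d ≤ t → clp A d t = 1 := by
        intro t h1
        unfold clp
        have h4 : 1 ≤ (t - A) / d := by
          rw [le_div_iff₀ hd']
          linarith
        rw [min_eq_left h4, max_eq_right zero_le_one]
      rw [z x (by linarith), z _ (by linarith), z _ (by push_cast; linarith)]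
      ring

lemma clp_nonneg (A d : ℤ) (x : ℝ) : 0 ≤ clp A d x := le_max_left _ _

lemma rUp_clp {N : ℕ} (hN : 0 < N) {A d : ℕ} (y : ℝ) :
    rUp ((A:ℝ) / N) ((d:ℝ) / N) y = clp A d (N * y) := by
  have hN' : (0:ℝ) < N := by exact_mod_cast hN
  unfold rUp clp
  push_cast
  congr 2
  rcases Nat.eq_zero_or_pos d with rfl | hd
  · simp
  · have hd' : (0:ℝ) < d := by exact_mod_cast hd
    field_simp

lemma rDn_clp {N : ℕ} (hN : 0 < N) {B e : ℕ} (he : 0 < e) (y : ℝ) :
    rDn ((B:ℝ) / N) ((e:ℝ) / N) y = 1 - clp ((B:ℤ) - e) e (N * y) := by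
  have hN' : (0:ℝ) < N := by exact_mod_cast hN
  have he' : (0:ℝ) < e := by exact_mod_cast he
  unfold rDn clp
  push_cast
  have e1 : ((B:ℝ) / N - y) / (e / N) = 1 - (N * y - (B - e)) / e := by
    field_simp
    ring
  rw [e1]
  set t := (N * y - ((B:ℝ) - e)) / e with ht
  rcases le_total t 0 with h | h
  · rw [min_eq_left (by linarith : (1:ℝ) ≤ 1 - t), max_eq_right zero_le_one,
      min_eq_right (by linarith : t ≤ 1), max_eq_left h]
    ring
  · rcases le_total t 1 with h1 | h1
    · rw [min_eq_right (by linarith : 1 - t ≤ 1), max_eq_right (by linarith : 0 ≤ 1 - t),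
        min_eq_right h1, max_eq_right h]
    · rw [min_eq_right (by linarith : 1 - t ≤ 1), max_eq_left (by linarith : 1 - t ≤ 0),
        min_eq_left h1, max_eq_right zero_le_one]
      ring

/-! ### Node values of the ramps -/

lemma mn2_eq (d x : ℕ) : mn2 d x = min d x := by
  change d - (d - x) = _
  omega

/-- scaled right ramp at a node -/
lemma uR_eq {T : PT} {S : ℕ} (hS : T.sR * T.d = S) (hd : 0 < T.d) (o D : ℕ) :
    ((uR T o D : ℕ) : ℝ) = S * clp T.A T.d (((D : ℤ) - o : ℤ) : ℝ) := by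
  have hd' : (0:ℝ) < T.d := by exact_mod_cast hd
  have e : uR T o D = T.sR * min T.d (D - (o + T.A)) := by
    rw [← mn2_eq]
    rfl
  rw [e, ← hS]
  unfold clp
  push_cast
  rcases le_total D (o + T.A) with c | c
  · rw [Nat.sub_eq_zero_of_le c]
    have c' : (D:ℝ) ≤ o + T.A := by exact_mod_cast c
    rw [max_eq_left ((min_le_right _ _).trans
      (div_nonpos_of_nonpos_of_nonneg (by linarith) hd'.le))]
    simp
  · rw [Nat.cast_sub c]
    have c' : (o:ℝ) + T.A ≤ D := by exact_mod_cast c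
    push_cast
    have h0 : 0 ≤ ((D:ℝ) - o - T.A) / T.d := div_nonneg (by linarith) hd'.le
    rcases le_total ((D:ℝ) - o - T.A) T.d with c2 | c2
    · rw [min_eq_right (show (D:ℝ) - (o + T.A) ≤ T.d by linarith),
        min_eq_right ((div_le_one hd').2 c2), max_eq_right h0]
      field_simp
      ring
    · rw [min_eq_left (show (T.d:ℝ) ≤ D - (o + T.A) by linarith),
        min_eq_left ((one_le_div hd').2 c2), max_eq_right zero_le_one]
      ring

/-- scaled left ramp at a node -/
lemma uL_eq {T : PT} {S : ℕ} (hS : T.sL * T.e = S) (he : 0 < T.e) (o D : ℕ) :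
    ((uL T o D : ℕ) : ℝ)
      = S * (1 - clp ((T.B : ℤ) - T.e) T.e (((D : ℤ) - o : ℤ) : ℝ)) := by
  have he' : (0:ℝ) < T.e := by exact_mod_cast he
  have e : uL T o D = T.sL * min T.e (o + T.B - D) := by
    rw [← mn2_eq]
    rfl
  rw [e, ← hS]
  unfold clp
  push_cast
  set t := ((D:ℝ) - o - (T.B - T.e)) / T.e with ht
  have hte : t * T.e = (D:ℝ) - o - (T.B - T.e) := by
    rw [ht]
    field_simp
  rcases le_total (o + T.B) D with c | c
  · rw [Nat.sub_eq_zero_of_le c]
    have c' : (o:ℝ) + T.B ≤ D := by exact_mod_cast c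
    have h1 : 1 ≤ t := by
      rw [ht, le_div_iff₀ he']
      linarith
    rw [min_eq_left h1, max_eq_right zero_le_one]
    simp
  · rw [Nat.cast_sub c]
    have c' : (D:ℝ) ≤ o + T.B := by exact_mod_cast c
    push_cast
    have h1 : t ≤ 1 := by
      rw [ht, div_le_iff₀ he']
      linarith
    rw [min_eq_right h1]
    rcases le_total t 0 with c2 | c2
    · rw [max_eq_left c2, min_eq_left (show (T.e:ℝ) ≤ o + T.B - D by nlinarith)]
      ring
    · rw [max_eq_right c2, min_eq_right (show (o:ℝ) + T.B - D ≤ T.e by nlinarith)]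
      have : (T.sL:ℝ) * T.e * (1 - t) = T.sL * (T.e - t * T.e) := by ring
      rw [this, hte]
      ring

/-! ### The end point part of the kernel -/

/-- real value of the end point part, upper bound -/
def Eu (N : ℕ) (T : PT) (f1 f2 : Bool) (y : ℝ) : ℝ :=
  (cond f1 (1 - clp T.A T.d (N * y)) 0)
    - (cond f2 (1 - clp ((T.B : ℤ) - T.e) T.e (N * y)) 0)
    + (if 0 < y ∧ y < 1 then clp T.A T.d (N * y) + (1 - clp ((T.B : ℤ) - T.e) T.e (N * y)) else 0)

/-- the end point part is below the value table -/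
lemma Eu_le {N S c0 o v : ℕ} {T : PT} {f1 f2 : Bool} (hN : 0 < N)
    (hR : T.sR * T.d = S) (hd : 0 < T.d) (hL : T.sL * T.e = S) (he : 0 < T.e)
    {l h : ℤ} (hl : 0 ≤ l + o)
    (hv : ∀ D : ℕ, l + o ≤ D → (D : ℤ) ≤ h + o → vOK N S c0 o T f1 f2 D (dg v D) = true)
    {y : ℝ} (h1 : (l:ℝ) ≤ N * y) (h2 : (N:ℝ) * y ≤ h) :
    S * Eu N T f1 f2 y + c0 ≤ pl (lR o v) (N * y) := by
  have hN' : (0:ℝ) < N := by exact_mod_cast hN
  have hd2 : (0:ℤ) < T.d := by exact_mod_cast hd
  have he2 : (0:ℤ) < T.e := by exact_mod_cast he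
  set x := (N:ℝ) * y with hx
  have f0 := Int.fract_nonneg x
  have g1 := Int.fract_lt_one x
  have fx := Int.floor_add_fract x
  -- node conditions
  have key : ∀ m : ℤ, l ≤ m → m ≤ h →
      ((0 ≤ m ∧ m ≤ N) → (c0:ℝ) + (cond f1 (S:ℝ) (S * clp T.A T.d m))
        + (cond f2 0 (S * (1 - clp ((T.B : ℤ) - T.e) T.e m))) ≤ lR o v m) ∧
      ((m ≤ 0 ∨ (N:ℤ) ≤ m) → (c0:ℝ) + (cond f1 (S:ℝ) 0)
        ≤ lR o v m + (cond f1 (S * clp T.A T.d m) 0)
          + (cond f2 (S * (1 - clp ((T.B : ℤ) - T.e) T.e m)) 0)) := by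
    intro m hm1 hm2
    obtain ⟨D, hD⟩ : ∃ D : ℕ, m = (D : ℤ) - o := ⟨(m + o).toNat, by omega⟩
    have k := hv D (by omega) (by omega)
    unfold vOK at k
    simp only [Bool.and_eq_true, Bool.or_eq_true] at k
    obtain ⟨k1, k2⟩ := k
    rw [hD, lR_nat]
    have eR := uR_eq hR hd o D
    have eL := uL_eq hL he o D
    constructor
    · rintro ⟨m0, m1⟩
      have k3 : vIn S c0 o T f1 f2 D (dg v D) = true := by
        rcases k1 with (k1 | k1) | k1
        · have := Nat.le_of_ble_eq_true k1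
          have : D + 1 ≤ o := this
          omega
        · have := Nat.le_of_ble_eq_true k1
          have : o + N + 1 ≤ D := this
          omega
        · exact k1
      have k4 : c0 + cond f1 S (uR T o D) + cond f2 0 (uL T o D) ≤ dg v D :=
        Nat.le_of_ble_eq_true k3
      have k5 : ((c0 + cond f1 S (uR T o D) + cond f2 0 (uL T o D) : ℕ) : ℝ) ≤ dg v D := by
        exact_mod_cast k4
      rw [← eR, ← eL]
      cases f1 <;> cases f2 <;> simp only [cond_true, cond_false] at k5 ⊢ <;> push_cast at k5 <;>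
        linarith
    · intro m0
      have k3 : vOut S c0 o T f1 f2 D (dg v D) = true := by
        rcases k2 with k2 | k2
        · have a1 : o + 1 ≤ D := Nat.le_of_ble_eq_true k2.1
          have a2 : D + 1 ≤ o + N := Nat.le_of_ble_eq_true k2.2
          omega
        · exact k2
      have k4 : c0 + cond f1 S 0 ≤ dg v D + cond f1 (uR T o D) 0 + cond f2 (uL T o D) 0 :=
        Nat.le_of_ble_eq_true k3
      have k5 : ((c0 + cond f1 S 0 : ℕ) : ℝ)
          ≤ ((dg v D + cond f1 (uR T o D) 0 + cond f2 (uL T o D) 0 : ℕ) : ℝ) := by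
        exact_mod_cast k4
      rw [← eR, ← eL]
      cases f1 <;> cases f2 <;> simp only [cond_true, cond_false] at k5 ⊢ <;> push_cast at k5 <;>
        linarith
  have lk : l ≤ ⌊x⌋ := Int.le_floor.2 h1
  have pR := clp_pl (A := T.A) hd2 x
  have pL := clp_pl (A := (T.B : ℤ) - T.e) he2 x
  unfold pl at pR pL
  beta_reduce at pR pL
  unfold Eu
  rw [← hx]
  unfold pl
  set k := ⌊x⌋ with hk
  set fr := Int.fract x with hfr
  have kh : k ≤ h := by
    have : (k:ℝ) ≤ h := by linarith
    exact_mod_cast this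
  -- the upper node counts only if the weight is positive
  have kh1 : fr = 0 ∨ k + 1 ≤ h := by
    rcases f0.eq_or_lt with c | c
    · exact Or.inl c.symm
    · right
      have : (k:ℝ) < h := by linarith
      have : k < h := by exact_mod_cast this
      omega
  rw [pR, pL]
  set a0 := clp T.A T.d k with ha0
  set a1 := clp T.A T.d ((k + 1 : ℤ) : ℝ) with ha1
  set b0 := clp ((T.B : ℤ) - T.e) T.e (k : ℝ) with hb0
  set b1 := clp ((T.B : ℤ) - T.e) T.e ((k + 1 : ℤ) : ℝ) with hb1
  by_cases c : 0 < y ∧ y < 1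
  · rw [if_pos c]
    have k0 : 0 ≤ k := Int.floor_nonneg.2 (mul_nonneg hN'.le c.1.le)
    have kN : k + 1 ≤ N := by
      have : (k:ℝ) < N := by nlinarith [c.2]
      have : k < N := by exact_mod_cast this
      omega
    have n0 := (key k lk kh).1 ⟨k0, by omega⟩
    rcases kh1 with hf | hk1
    · rw [hf]
      cases f1 <;> cases f2 <;> simp only [cond_true, cond_false] at n0 ⊢ <;> linarith
    · have n1 := (key (k + 1) (by omega) hk1).1 ⟨by omega, kN⟩
      have e0 := mul_le_mul_of_nonneg_left n0 (by linarith : (0:ℝ) ≤ 1 - fr)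
      have e1 := mul_le_mul_of_nonneg_left n1 f0
      rw [← ha0, ← hb0] at e0
      rw [← ha1, ← hb1] at e1
      cases f1 <;> cases f2 <;> simp only [cond_true, cond_false] at e0 e1 ⊢ <;> linarith
  · rw [if_neg c]
    have hout : (k ≤ 0 ∧ (fr = 0 ∨ k + 1 ≤ 0)) ∨ (N:ℤ) ≤ k := by
      rcases le_or_gt y 0 with c1 | c1
      · left
        have hx0 : x ≤ 0 := mul_nonpos_of_nonneg_of_nonpos hN'.le c1
        rcases f0.eq_or_lt with c2 | c2
        · have : (k:ℝ) ≤ 0 := by linarith
          exact ⟨by exact_mod_cast this, Or.inl c2.symm⟩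
        · have : (k:ℝ) < 0 := by linarith
          have : k < 0 := by exact_mod_cast this
          exact ⟨by omega, Or.inr (by omega)⟩
      · right
        have c2 : 1 ≤ y := by
          by_contra h
          exact c ⟨c1, not_le.1 h⟩
        have : (N:ℝ) ≤ x := by nlinarith
        exact Int.le_floor.2 (by exact_mod_cast this)
    have n0 := (key k lk kh).2 (by rcases hout with h | h; exacts [Or.inl h.1, Or.inr h])
    rcases kh1 with hf | hk1
    · rw [hf]
      cases f1 <;> cases f2 <;> simp only [cond_true, cond_false] at n0 ⊢ <;> linarith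
    · have hh : fr = 0 ∨ (k + 1 ≤ 0 ∨ (N:ℤ) ≤ k + 1) := by
        rcases hout with h | h
        · rcases h.2 with h3 | h3
          · exact Or.inl h3
          · exact Or.inr (Or.inl h3)
        · exact Or.inr (Or.inr (by omega))
      rcases hh with hf | hh
      · rw [hf]
        cases f1 <;> cases f2 <;> simp only [cond_true, cond_false] at n0 ⊢ <;> linarith
      · have n1 := (key (k + 1) (by omega) hk1).2 hh
        have e0 := mul_le_mul_of_nonneg_left n0 (by linarith : (0:ℝ) ≤ 1 - fr)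
        have e1 := mul_le_mul_of_nonneg_left n1 f0
        rw [← ha0, ← hb0] at e0
        rw [← ha1, ← hb1] at e1
        cases f1 <;> cases f2 <;> simp only [cond_true, cond_false] at e0 e1 ⊢ <;> linarith

/-! ### Midpoints -/

lemma mid_le {N S o2 Mx : ℕ} {T : PT} (hN : 0 < N) (hR : T.sR * T.d = S) (hd : 0 < T.d)
    (hL : T.sL * T.e = S) (he : 0 < T.e) (hQ : chkQ N o2 Mx T = true) {y : ℝ} (h0 : 0 < y)
    (h1 : y < 1) :
    S * (clp T.A T.d (N * y) + (1 - clp ((T.B : ℤ) - T.e) T.e (N * y)))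
      ≤ pl (lR (2 * o2) T.vm) (N * y) := by
  have hN' : (0:ℝ) < N := by exact_mod_cast hN
  have hd2 : (0:ℤ) < T.d := by exact_mod_cast hd
  have he2 : (0:ℤ) < T.e := by exact_mod_cast he
  unfold chkQ at hQ
  simp only [Bool.and_eq_true] at hQ
  set x := (N:ℝ) * y with hx
  have f0 := Int.fract_nonneg x
  have g1 := Int.fract_lt_one x
  have fx := Int.floor_add_fract x
  have pR := clp_pl (A := T.A) hd2 x
  have pL := clp_pl (A := (T.B : ℤ) - T.e) he2 x
  unfold pl at pR pL
  beta_reduce at pR pL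
  unfold pl
  have key : ∀ m : ℤ, 0 ≤ m → m ≤ N →
      S * (clp T.A T.d m + (1 - clp ((T.B : ℤ) - T.e) T.e m)) ≤ lR (2 * o2) T.vm m := by
    intro m m0 m1
    obtain ⟨j, rfl⟩ : ∃ j : ℕ, m = j := ⟨m.toNat, by omega⟩
    have k := Nat.le_of_ble_eq_true (allN_imp hQ.2 j (by omega))
    have k2 : uR T (2 * o2) (2 * o2 + j) + uL T (2 * o2) (2 * o2 + j)
        ≤ dg T.vm (j + 2 * o2) := k
    have k3 : ((uR T (2 * o2) (2 * o2 + j) + uL T (2 * o2) (2 * o2 + j) : ℕ) : ℝ)
        ≤ dg T.vm (j + 2 * o2) := by exact_mod_cast k2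
    rw [Nat.cast_add, uR_eq hR hd, uL_eq hL he] at k3
    have e : (((2 * o2 + j : ℕ) : ℤ) - ((2 * o2 : ℕ) : ℤ) : ℤ) = (j : ℤ) := by
      push_cast
      ring
    rw [e] at k3
    have eL : lR (2 * o2) T.vm ((j : ℕ) : ℤ) = dg T.vm (j + 2 * o2) := by
      have := lR_nat (2 * o2) T.vm (j + 2 * o2)
      push_cast at this
      rw [← this]
      congr 1
      ring
    rw [eL]
    linarith
  set k := ⌊x⌋ with hk
  set fr := Int.fract x with hfr
  have k0 : 0 ≤ k := Int.floor_nonneg.2 (mul_nonneg hN'.le h0.le)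
  have kN : k + 1 ≤ N := by
    have : (k:ℝ) < N := by nlinarith
    have : k < N := by exact_mod_cast this
    omega
  rw [pR, pL]
  have n0 := mul_le_mul_of_nonneg_left (key k k0 (by omega)) (by linarith : (0:ℝ) ≤ 1 - fr)
  have n1 := mul_le_mul_of_nonneg_left (key (k + 1) (by omega) kN) f0
  linarith

/-! ### Classes -/

/-- side of a class -/
def sideC (sides : List ℕ) (c : ℕ) : Bool := Nat.ble 1 (nth 0 sides c)

/-- node table of the pair fact -/
def phS (d : DatS) (S c0 o : ℕ) (T : PT) (x y : ℕ × ℤ) : ℝ :=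
  (lR o (nth 0 T.wt (tI T x.1 y.1)) (2 * y.2 - x.2) - c0
    + (if parC d.segs x.1 = parC d.segs y.1 then mM d.N o T.vm T.wm (x.2 + y.2) / 2 else 0)) / S

lemma nC_congr {C : Type*} (N : ℕ) (lo hi : C → ℤ) {f g : C × ℤ → C × ℤ → ℝ} {a b : C × ℝ}
    (h : ∀ j k, f (a.1, j) (b.1, k) = g (a.1, j) (b.1, k)) :
    nC N lo hi f a b = nC N lo hi g a b := by
  unfold nC
  exact sum_congr rfl fun j _ => sum_congr rfl fun k _ => by rw [h j k]

lemma nC_phS {d : DatS} {S c0 o : ℕ} (hS : 0 < S) (T : PT) {N : ℕ} {lo hi : ℕ → ℤ}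
    {a b : ℕ × ℝ} (ha : RegC N lo hi a) (hb : RegC N lo hi b) :
    S * nC N lo hi (phS d S c0 o T) a b
      = nC N lo hi (fun x y => lR o (nth 0 T.wt (tI T a.1 b.1)) (2 * y.2 - x.2)) a b - c0
        + (if parC d.segs a.1 = parC d.segs b.1 then
            nC N lo hi (fun x y => mM d.N o T.vm T.wm (x.2 + y.2)) a b / 2 else 0) := by
  have hS' : (0:ℝ) < S := by exact_mod_cast hS
  rw [← nC_smul]
  by_cases c : parC d.segs a.1 = parC d.segs b.1
  · rw [if_pos c]
    have e : nC N lo hi (fun x y => (S:ℝ) * phS d S c0 o T x y) a b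
        = nC N lo hi (fun x y => (lR o (nth 0 T.wt (tI T a.1 b.1)) (2 * y.2 - x.2)
          + (-(c0:ℝ)) * (fun _ _ => 1) x y) + (1 / 2) * mM d.N o T.vm T.wm (x.2 + y.2)) a b := by
      refine nC_congr N lo hi fun j k => ?_
      unfold phS
      rw [if_pos c]
      field_simp
      ring
    rw [e, nC_add, nC_add, nC_smul, nC_smul, nC_one ha hb]
    ring
  · rw [if_neg c]
    have e : nC N lo hi (fun x y => (S:ℝ) * phS d S c0 o T x y) a b
        = nC N lo hi (fun x y => lR o (nth 0 T.wt (tI T a.1 b.1)) (2 * y.2 - x.2)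
          + (-(c0:ℝ)) * (fun _ _ => 1) x y) a b := by
      refine nC_congr N lo hi fun j k => ?_
      unfold phS
      rw [if_neg c]
      field_simp
      ring
    rw [e, nC_add, nC_smul, nC_one ha hb]
    ring

lemma nS_cons (s : Seg) (l : List Seg) : nS (s :: l) = 1 + nS l := rfl

/-- a class with nodes is one of the list -/
lemma lt_nS (l : List Seg) (c : ℕ) (h : loC l c ≤ hiC l c) : c < nS l := by
  induction l generalizing c with
  | nil =>
    exfalso
    have e1 : loC [] c = 1 := rfl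
    have e2 : hiC [] c = 0 := rfl
    omega
  | cons s l ih =>
    rw [nS_cons]
    cases c with
    | zero => omega
    | succ c =>
      have := ih c h
      omega

lemma offK_eq (l : List Seg) (c : ℕ) : offK l c = offC l c := by
  induction l generalizing c with
  | nil => rfl
  | cons s l ih =>
    cases c with
    | zero => rfl
    | succ c =>
      change s.len + offK l c = s.len + offC l c
      rw [ih]

lemma len_eq {α : Type} (l : List α) : sumL (fun _ => 1) l = l.length := by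
  rw [sumL_eq]
  simp

/-- all checks of one pair fact, as propositions -/
structure TP' (d : DatS) (S c0 o2 Mx nv : ℕ) (sides : List ℕ) (T : PT) (mp mn : List ℕ) :
    Prop where
  t : chkT d S (2 * o2) nv sides T = true
  v : chkV d S c0 (2 * o2) sides T = true
  w : chkW Mx T = true
  q : chkQ d.N o2 Mx T = true
  p : chkP d c0 (2 * o2) T mp mn = true

/-- basic conditions -/
structure TB (d : DatS) (S o nv : ℕ) (sides : List ℕ) (T : PT) : Prop where
  R : T.sR * T.d = S
  L : T.sL * T.e = S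
  d0 : 0 < T.d
  e0 : 0 < T.e
  S0 : 0 < S
  No : d.N ≤ o
  N0 : 0 < d.N
  cut : ∀ a, a < nS d.segs → nth 0 sides a ≤ 1 ∨ nv ≤ (sgA d.segs a).lo
  par : ∀ a, a < nS d.segs → (sgA d.segs a).par ≤ 1
  sd : ∀ a, a < nS d.segs → nth 0 sides a ≤ 2
  ti : ∀ a, a < nS d.segs → ∀ b, b < nS d.segs → tI T a b < T.vt.length

lemma chkT_imp {d : DatS} {S o nv : ℕ} {sides : List ℕ} {T : PT}
    (h : chkT d S o nv sides T = true) : TB d S o nv sides T := by
  unfold chkT at h
  simp only [Bool.and_eq_true] at h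
  obtain ⟨⟨⟨⟨⟨h1, h2⟩, h3, h4⟩, h5, h6⟩, h7, h8⟩, h9⟩ := h
  refine ⟨Nat.eq_of_beq_eq_true h1, Nat.eq_of_beq_eq_true h2, Nat.le_of_ble_eq_true h3,
    Nat.le_of_ble_eq_true h4, Nat.le_of_ble_eq_true h5, Nat.le_of_ble_eq_true h7,
    Nat.le_of_ble_eq_true h8, ?_, ?_, ?_, ?_⟩
  · intro a ha
    have k := allN_imp h9 a ha
    simp only [Bool.and_eq_true, Bool.or_eq_true] at k
    rcases k.1 with k1 | k1
    · exact Or.inl (Nat.le_of_ble_eq_true k1)
    · exact Or.inr (Nat.le_of_ble_eq_true k1)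
  · intro a ha
    have k := allN_imp h9 a ha
    simp only [Bool.and_eq_true, Bool.or_eq_true] at k
    exact Nat.le_of_ble_eq_true k.2.1
  · intro a ha
    have k := allN_imp h9 a ha
    simp only [Bool.and_eq_true, Bool.or_eq_true] at k
    exact Nat.le_of_ble_eq_true k.2.2.1
  · intro a ha b hb
    have k := allN_imp h9 a ha
    simp only [Bool.and_eq_true, Bool.or_eq_true] at k
    have k2 := Nat.le_of_ble_eq_true (allN_imp k.2.2.2 b hb)
    rw [len_eq] at k2
    exact k2

/-- window weights below the aligned ramps, equal to them outside the window -/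
structure Ali (N : ℕ) (T : PT) (wR wL : ℝ → ℝ) : Prop where
  R : ∀ y, wR y ≤ rUp ((T.A:ℝ) / N) ((T.d:ℝ) / N) y
  R' : ∀ y, ¬ (0 < y ∧ y < 1) → wR y = rUp ((T.A:ℝ) / N) ((T.d:ℝ) / N) y
  L : ∀ y, wL y ≤ rDn ((T.B:ℝ) / N) ((T.e:ℝ) / N) y
  L' : ∀ y, ¬ (0 < y ∧ y < 1) → wL y = rDn ((T.B:ℝ) / N) ((T.e:ℝ) / N) y

lemma Ali.self (N : ℕ) (T : PT) :
    Ali N T (rUp ((T.A:ℝ) / N) ((T.d:ℝ) / N)) (rDn ((T.B:ℝ) / N) ((T.e:ℝ) / N)) :=
  ⟨fun _ => le_rfl, fun _ _ => rfl, fun _ => le_rfl, fun _ _ => rfl⟩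

/-- THE KERNEL IS BELOW THE NODE TABLE -/
theorem kT_le {d : DatS} {S c0 o2 Mx nv : ℕ} {sides : List ℕ} {T : PT} {mp mn : List ℕ}
    (hg : chkG d = true) (H : TP' d S c0 o2 Mx nv sides T mp mn) {wR wL : ℝ → ℝ}
    (HA : Ali d.N T wR wL) (hL0 : ∀ y, 0 ≤ wL y) {a b : ℕ × ℝ}
    (ha : RegC d.N (loC d.segs) (hiC d.segs) a) (hb : RegC d.N (loC d.segs) (hiC d.segs) b) :
    kT (sideC sides) (parC d.segs) ((nv:ℝ) / d.N) wR wL a b
      ≤ nC d.N (loC d.segs) (hiC d.segs) (phS d S c0 (2 * o2) T) a b := by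
  have B := chkT_imp H.t
  have hN' : (0:ℝ) < d.N := by exact_mod_cast B.N0
  have hS' : (0:ℝ) < S := by exact_mod_cast B.S0
  -- the classes
  have la : loC d.segs a.1 ≤ hiC d.segs a.1 := by
    have := ha.1.trans ha.2.1
    exact_mod_cast this
  have lb : loC d.segs b.1 ≤ hiC d.segs b.1 := by
    have := hb.1.trans hb.2.1
    exact_mod_cast this
  have na := lt_nS d.segs a.1 la
  have nb := lt_nS d.segs b.1 lb
  set f1 := fl1 sides a.1 b.1 with hf1
  set f2 := fl2 sides a.1 b.1 with hf2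
  set v := nth 0 T.vt (tI T a.1 b.1) with hv
  set w := nth 0 T.wt (tI T a.1 b.1) with hw
  -- exact rule of the table
  have ht := B.ti a.1 na b.1 nb
  have hW := H.w
  unfold chkW at hW
  have hW1 := allN_imp hW (tI T a.1 b.1) (by rw [len_eq]; exact ht)
  rw [Bool.and_eq_true] at hW1
  have fre := fre_of_chk (shp_imp hW1.1) hW1.2 (2 * o2)
  have k1 := endOK_nC (EndOK.of_fre fre) ha hb
  -- values
  have hV := H.v
  unfold chkV at hV
  have hV1 := allN_imp (allN_imp hV a.1 na) b.1 nb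
  have eu := Eu_le (N := d.N) (S := S) (c0 := c0) (o := 2 * o2) (v := v) (T := T) (f1 := f1)
    (f2 := f2) B.N0 B.R B.d0 B.L B.e0
    (l := 2 * loC d.segs b.1 - hiC d.segs a.1) (h := 2 * hiC d.segs b.1 - loC d.segs a.1)
    (by
      have h1 := B.No
      have h2 : hiC d.segs a.1 ≤ d.N :=
        (locP_le (s := (a.1, hiC d.segs a.1)) hg ⟨la, le_rfl⟩).2
      have h3 : 0 ≤ loC d.segs b.1 := by
        unfold loC
        positivity
      omega)
    (by
      intro D h1 h2
      unfold loC hiC at h1 h2 la lb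
      set A := sgA d.segs a.1
      set C := sgA d.segs b.1
      have h4 := (locP_le (s := (a.1, hiC d.segs a.1)) hg ⟨by unfold loC hiC; exact la, le_rfl⟩).2
      unfold hiC at h4
      simp only at h4
      have h5 := B.No
      have k := allN_imp hV1 (D - ((2 * o2 + 1 + 2 * C.lo) - (A.lo + A.len))) (by
        change _ < 2 * C.len + A.len - 2
        omega)
      have e : Nat.add (Nat.sub (Nat.add (Nat.succ (2 * o2)) (Nat.mul 2 C.lo))
          (Nat.add A.lo A.len)) (D - ((2 * o2 + 1 + 2 * C.lo) - (A.lo + A.len))) = D := by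
        change (2 * o2 + 1 + 2 * C.lo) - (A.lo + A.len)
          + (D - ((2 * o2 + 1 + 2 * C.lo) - (A.lo + A.len))) = D
        omega
      rw [e] at k
      exact k)
    (y := 2 * b.2 - a.2)
    (by
      push_cast
      have := ha.2.1
      have := hb.1
      linarith)
    (by
      push_cast
      have := ha.1
      have := hb.2.1
      linarith)
  -- midpoints
  have u0 : 0 < (a.2 + b.2) / 2 := by
    have := ha.2.2.1
    have := hb.2.2.1
    linarith
  have u1 : (a.2 + b.2) / 2 < 1 := by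
    have := ha.2.2.2
    have := hb.2.2.2
    linarith
  have ml := mid_le B.N0 B.R B.d0 B.L B.e0 H.q u0 u1
  have hQ := H.q
  unfold chkQ at hQ
  simp only [Bool.and_eq_true] at hQ
  have mk := midOK_nC (MidOK.of_freM (freM_of_chk hQ.1.2)) ha hb
  have hph := nC_phS (d := d) (c0 := c0) (o := 2 * o2) B.S0 T ha hb
  rw [← hw] at hph
  -- the kernel
  have wRe : ∀ y, rUp ((T.A:ℝ) / d.N) ((T.d:ℝ) / d.N) y = clp T.A T.d (d.N * y) :=
    fun y => rUp_clp B.N0 y
  have wLe : ∀ y, rDn ((T.B:ℝ) / d.N) ((T.e:ℝ) / d.N) y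
      = 1 - clp ((T.B:ℤ) - T.e) T.e (d.N * y) := fun y => rDn_clp B.N0 B.e0 y
  have AR := fun y => (HA.R y).trans (le_of_eq (wRe y))
  have AR' := fun y hy => (HA.R' y hy).trans (wRe y)
  have AL := fun y => (HA.L y).trans (le_of_eq (wLe y))
  have AL' := fun y hy => (HA.L' y hy).trans (wLe y)
  have hkW : kT (sideC sides) (parC d.segs) ((nv:ℝ) / d.N) wR wL a b
      ≤ Eu d.N T f1 f2 (2 * b.2 - a.2)
        + (if parC d.segs a.1 = parC d.segs b.1 then
          (clp T.A T.d (d.N * ((a.2 + b.2) / 2))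
            + (1 - clp ((T.B:ℤ) - T.e) T.e (d.N * ((a.2 + b.2) / 2)))) / 2 else 0) := by
    unfold MP61673a.PF.kT kW Eu
    set y := 2 * b.2 - a.2 with hy
    have m1 : (if (parC d.segs a.1 == parC d.segs b.1) = true then
        (wR ((a.2 + b.2) / 2) + wL ((a.2 + b.2) / 2)) / 2 else 0)
        ≤ (if parC d.segs a.1 = parC d.segs b.1 then
          (clp T.A T.d (d.N * ((a.2 + b.2) / 2))
            + (1 - clp ((T.B:ℤ) - T.e) T.e (d.N * ((a.2 + b.2) / 2)))) / 2 else 0) := by
      simp only [beq_iff_eq]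
      split_ifs
      · have := AR ((a.2 + b.2) / 2)
        have := AL ((a.2 + b.2) / 2)
        linarith
      · exact le_rfl
    have i1 : (sideC sides a.1 = true ∧ sideC sides b.1 = false) ↔ f1 = true := by
      rw [hf1]
      unfold fl1 sideC
      rw [Bool.and_eq_true]
      refine and_congr_right fun _ => ?_
      have : (nth 0 sides b.1).beq 0 = true ↔ nth 0 sides b.1 = 0 :=
        ⟨Nat.eq_of_beq_eq_true, fun h => by rw [h]; rfl⟩
      rw [this, Bool.eq_false_iff]
      constructor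
      · intro h
        by_contra h2
        exact h (Nat.ble_eq_true_of_le (Nat.one_le_iff_ne_zero.2 h2))
      · intro h h2
        have := Nat.le_of_ble_eq_true h2
        omega
    have m2 : (if sideC sides a.1 = true ∧ sideC sides b.1 = false then 1 - wR y else 0)
        = cond f1 (1 - wR y) 0 := by
      cases hc : f1 with
      | false =>
        rw [if_neg (by rw [i1, hc]; simp)]
        rfl
      | true =>
        rw [if_pos (i1.2 hc)]
        rfl
    have m3 : cond f2 (wL y) 0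
        ≤ (if sideC sides a.1 = true ∧ sideC sides b.1 = true ∧ (nv:ℝ) / d.N ≤ b.2 then
          wL y else 0) := by
      cases hc : f2 with
      | false =>
        simp only [cond_false]
        split_ifs
        · exact hL0 _
        · exact le_rfl
      | true =>
        simp only [cond_true]
        rw [if_pos]
        rw [hf2] at hc
        unfold fl2 at hc
        rw [Bool.and_eq_true] at hc
        have h2 : nth 0 sides b.1 = 2 := Nat.eq_of_beq_eq_true hc.2
        refine ⟨hc.1, ?_, ?_⟩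
        · unfold sideC
          rw [h2]
          rfl
        · have h3 : nv ≤ (sgA d.segs b.1).lo := by
            rcases B.cut b.1 nb with h | h
            · omega
            · exact h
          have h4 : (nv:ℝ) ≤ (loC d.segs b.1 : ℝ) := by
            unfold loC
            exact_mod_cast h3
          rw [div_le_iff₀ hN']
          have := hb.1
          linarith
    have m4 : cond f1 (1 - wR y) 0 - cond f2 (wL y) 0
          + (if 0 < y ∧ y < 1 then wR y + wL y else 0)
        ≤ cond f1 (1 - clp T.A T.d (d.N * y)) 0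
          - cond f2 (1 - clp ((T.B:ℤ) - T.e) T.e (d.N * y)) 0
          + (if 0 < y ∧ y < 1 then clp T.A T.d (d.N * y)
            + (1 - clp ((T.B:ℤ) - T.e) T.e (d.N * y)) else 0) := by
      by_cases c : 0 < y ∧ y < 1
      · rw [if_pos c, if_pos c]
        have k1 := AR y
        have k2 := AL y
        cases f1 <;> cases f2 <;> simp only [cond_true, cond_false] <;> linarith
      · rw [if_neg c, if_neg c, AR' y c, AL' y c]
    rw [m2]
    linarith
  refine hkW.trans ?_
  refine le_of_mul_le_mul_left ?_ hS'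
  rw [hph]
  by_cases c : parC d.segs a.1 = parC d.segs b.1
  · rw [if_pos c, if_pos c]
    linarith
  · rw [if_neg c, if_neg c]
    linarith

/-- the matrices dominate the node table -/
theorem phS_le {d : DatS} {S c0 o2 Mx nv : ℕ} {sides : List ℕ} {T : PT} {mp mn : List ℕ}
    (hg : chkG d = true) (H : TP' d S c0 o2 Mx nv sides T mp mn) {a b : ℕ × ℤ}
    (ha : okS d.segs a) (hb : okS d.segs b) :
    S * (phS d S c0 (2 * o2) T a b + phS d S c0 (2 * o2) T b a)
      ≤ ((dg (nth 0 mp (vO d.segs a)) (vO d.segs b) : ℕ) : ℝ)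
        - ((dg (nth 0 mn (vO d.segs a)) (vO d.segs b) : ℕ) : ℝ) := by
  have B := chkT_imp H.t
  have hS' : (0:ℝ) < S := by exact_mod_cast B.S0
  have na := lt_nS d.segs a.1 (ha.1.trans ha.2)
  have nb := lt_nS d.segs b.1 (hb.1.trans hb.2)
  have pa := locP_le hg ha
  have pb := locP_le hg hb
  have hP := H.p
  unfold chkP at hP
  obtain ⟨a1, a2⟩ := ha
  obtain ⟨b1, b2⟩ := hb
  unfold loC at a1 b1
  unfold hiC at a2 b2
  set A := sgA d.segs a.1 with hA
  set C := sgA d.segs b.1 with hC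
  obtain ⟨i, hi⟩ : ∃ i : ℕ, a.2 = ((A.lo + i : ℕ) : ℤ) := ⟨(a.2 - A.lo).toNat, by omega⟩
  obtain ⟨j, hj⟩ : ∃ j : ℕ, b.2 = ((C.lo + j : ℕ) : ℤ) := ⟨(b.2 - C.lo).toNat, by omega⟩
  have k := Nat.le_of_ble_eq_true (allN_imp (allN_imp (allN_imp (allN_imp hP a.1 na) b.1 nb) i
    (show i < A.len by omega)) j (show j < C.len by omega))
  have k2 : dg (nth 0 T.wt (tI T a.1 b.1)) (2 * o2 + 2 * (C.lo + j) - (A.lo + i))
      + dg (nth 0 T.wt (tI T b.1 a.1)) (2 * o2 + 2 * (A.lo + i) - (C.lo + j))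
      + cond (Nat.beq A.par C.par) (dg T.wm ((A.lo + i) + (C.lo + j))) 0
      + dg (nth 0 mn (offK d.segs a.1 + i)) (offK d.segs b.1 + j)
      ≤ dg (nth 0 mp (offK d.segs a.1 + i)) (offK d.segs b.1 + j) + 2 * c0 := k
  have va : vO d.segs a = offK d.segs a.1 + i := by
    rw [offK_eq]
    unfold vO loC
    rw [← hA]
    congr 1
    omega
  have vb : vO d.segs b = offK d.segs b.1 + j := by
    rw [offK_eq]
    unfold vO loC
    rw [← hC]
    congr 1
    omega
  rw [va, vb]
  have hNo := B.No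
  have e1 : lR (2 * o2) (nth 0 T.wt (tI T a.1 b.1)) (2 * b.2 - a.2)
      = dg (nth 0 T.wt (tI T a.1 b.1)) (2 * o2 + 2 * (C.lo + j) - (A.lo + i)) := by
    rw [← lR_nat (2 * o2)]
    congr 1
    omega
  have e2 : lR (2 * o2) (nth 0 T.wt (tI T b.1 a.1)) (2 * a.2 - b.2)
      = dg (nth 0 T.wt (tI T b.1 a.1)) (2 * o2 + 2 * (A.lo + i) - (C.lo + j)) := by
    rw [← lR_nat (2 * o2)]
    congr 1
    omega
  have e3 : mM d.N (2 * o2) T.vm T.wm (a.2 + b.2) = dg T.wm ((A.lo + i) + (C.lo + j)) := by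
    have : a.2 + b.2 = (((A.lo + i) + (C.lo + j) : ℕ) : ℤ) := by
      rw [hi, hj]
      push_cast
      ring
    rw [this, mM_nat (by omega)]
  have e4 : mM d.N (2 * o2) T.vm T.wm (b.2 + a.2) = dg T.wm ((A.lo + i) + (C.lo + j)) := by
    rw [add_comm, e3]
  have hpa : parC d.segs a.1 = decide (A.par = 1) := rfl
  have hpb : parC d.segs b.1 = decide (C.par = 1) := rfl
  have p1 := B.par a.1 na
  have p2 := B.par b.1 nb
  rw [← hA] at p1
  rw [← hC] at p2
  have hpp : (parC d.segs a.1 = parC d.segs b.1) ↔ A.par = C.par := by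
    rw [hpa, hpb, decide_eq_decide]
    omega
  have hpp' : (parC d.segs b.1 = parC d.segs a.1) ↔ A.par = C.par := by
    rw [eq_comm, hpp]
  unfold phS
  simp only [e1, e2, e3, e4, hpp, hpp']
  have k3 : ((dg (nth 0 T.wt (tI T a.1 b.1)) (2 * o2 + 2 * (C.lo + j) - (A.lo + i))
      + dg (nth 0 T.wt (tI T b.1 a.1)) (2 * o2 + 2 * (A.lo + i) - (C.lo + j))
      + cond (Nat.beq A.par C.par) (dg T.wm ((A.lo + i) + (C.lo + j))) 0
      + dg (nth 0 mn (offK d.segs a.1 + i)) (offK d.segs b.1 + j) : ℕ) : ℝ)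
      ≤ ((dg (nth 0 mp (offK d.segs a.1 + i)) (offK d.segs b.1 + j) + 2 * c0 : ℕ) : ℝ) := by
    exact_mod_cast k2
  by_cases c : A.par = C.par
  · have hb : Nat.beq A.par C.par = true := by rw [c]; exact Nat.beq_refl _
    rw [hb] at k3
    simp only [cond_true] at k3
    rw [if_pos c]
    push_cast at k3 ⊢
    have : (S:ℝ) * (((dg (nth 0 T.wt (tI T a.1 b.1)) (2 * o2 + 2 * (C.lo + j) - (A.lo + i)) : ℝ)
        - c0 + (dg T.wm (A.lo + i + (C.lo + j)) : ℝ) / 2) / S
        + ((dg (nth 0 T.wt (tI T b.1 a.1)) (2 * o2 + 2 * (A.lo + i) - (C.lo + j)) : ℝ)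
        - c0 + (dg T.wm (A.lo + i + (C.lo + j)) : ℝ) / 2) / S)
        = (dg (nth 0 T.wt (tI T a.1 b.1)) (2 * o2 + 2 * (C.lo + j) - (A.lo + i)) : ℝ)
          + dg (nth 0 T.wt (tI T b.1 a.1)) (2 * o2 + 2 * (A.lo + i) - (C.lo + j))
          + dg T.wm (A.lo + i + (C.lo + j)) - 2 * c0 := by
      field_simp
      ring
    rw [this]
    linarith
  · have hb : Nat.beq A.par C.par = false := by
      rw [Bool.eq_false_iff]
      exact fun h => c (Nat.eq_of_beq_eq_true h)
    rw [hb] at k3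
    simp only [cond_false] at k3
    rw [if_neg c]
    push_cast at k3 ⊢
    have : (S:ℝ) * (((dg (nth 0 T.wt (tI T a.1 b.1)) (2 * o2 + 2 * (C.lo + j) - (A.lo + i)) : ℝ)
        - c0 + 0) / S
        + ((dg (nth 0 T.wt (tI T b.1 a.1)) (2 * o2 + 2 * (A.lo + i) - (C.lo + j)) : ℝ)
        - c0 + 0) / S)
        = (dg (nth 0 T.wt (tI T a.1 b.1)) (2 * o2 + 2 * (C.lo + j) - (A.lo + i)) : ℝ)
          + dg (nth 0 T.wt (tI T b.1 a.1)) (2 * o2 + 2 * (A.lo + i) - (C.lo + j)) - 2 * c0 := by
      field_simp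
      ring
    rw [this]
    linarith

/-- all checks of all pair facts -/
def chkAll (d : DatS) (S c0 o2 Mx nv : ℕ) (sides : List ℕ) (TL : List PT) (IL : List Prf) : Bool :=
  allN (sumL (fun _ => 1) IL) (fun i =>
    (fun T : PT => (fun f : Prf =>
      and (and (and (and (chkT d S (Nat.mul 2 o2) nv sides T) (chkV d S c0 (Nat.mul 2 o2) sides T))
        (chkW Mx T)) (chkQ d.N o2 Mx T)) (chkP d c0 (Nat.mul 2 o2) T f.mp f.mn))
      (nth ⟨[], [], [], 0, 0⟩ IL i)) (nth ⟨0, 0, 0, 0, 0, 0, [], [], [], 0, 0⟩ TL i))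

/-- table data of the pair fact `i` -/
def TLi (TL : List PT) (i : ℕ) : PT := nth ⟨0, 0, 0, 0, 0, 0, [], [], [], 0, 0⟩ TL i

lemma nth_get {α : Type} (d0 : α) (l : List α) (i : Fin l.length) : nth d0 l i.1 = l.get i := by
  induction l with
  | nil => exact i.elim0
  | cons a l ih =>
    obtain ⟨k, hk⟩ := i
    cases k with
    | zero => rfl
    | succ k => exact ih ⟨k, by simpa using hk⟩

lemma chkAll_imp {d : DatS} {S c0 o2 Mx nv : ℕ} {sides : List ℕ} {TL : List PT} {IL : List Prf}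
    (h : chkAll d S c0 o2 Mx nv sides TL IL = true) (i : Fin IL.length) :
    TP' d S c0 o2 Mx nv sides (TLi TL i.1) (IL.get i).mp (IL.get i).mn := by
  have h1 := allN_imp h i.1 (by rw [len_eq]; exact i.2)
  have e := nth_get (⟨[], [], [], 0, 0⟩ : Prf) IL i
  simp only [e, Bool.and_eq_true] at h1
  exact ⟨h1.1.1.1.1, h1.1.1.1.2, h1.1.1.2, h1.1.2, h1.2⟩

/-- THE PRICE CERTIFICATE from integer data: `CertifiedC` with the kernels of `PriceClass.lean` -/
theorem certC_price {d : DatS} {X : List (List ℕ)} {o2 Mx Mw n0 E E1 M S c0 nv : ℕ} {J : List FnS}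
    {den : ℕ} {l : Fin J.length → ℕ × ℤ → ℝ} {I : List Prf} {TL : List PT} {sides : List ℕ}
    (hN : d.N = M + 1) (hfn : d.fn = allF J I) (hb : bndS d = true) (hs : symS d = true)
    (hg : chkG d = true) (hX : chkY d X I o2 Mx Mw n0 E E1 = true)
    (hT : chkAll d S c0 o2 Mx nv sides TL I = true)
    (hl : ∀ q : Fin J.length, ∀ z, okS d.segs z →
      den * l q z = ((nth 0 (J.get q).lp (vO d.segs z) : ℕ) : ℝ)
        - ((nth 0 (J.get q).ln (vO d.segs z) : ℕ) : ℝ))
    (ho : o2 ≤ (d.N + 1) / 2) (hn0 : d.N ≤ n0) (hBd : 0 < d.Bd) (hE : 0 < E)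
    (hm : segCheck d 0 (vN d.segs) = true) {n : ℕ} (hn : n0 ≤ n)
    {ℓ : Fin J.length → ℕ × ℝ → ℝ}
    (hℓ : ∀ q, ∀ z, RegC d.N (loC d.segs) (hiC d.segs) z →
      ℓ q z = kC d.N (loC d.segs) (hiC d.segs) (l q) z)
    {wR wL : Fin I.length → ℝ → ℝ} (hA : ∀ i, Ali d.N (TLi TL i.1) (wR i) (wL i))
    (hL0 : ∀ i y, 0 ≤ wL i y)
    {c : Fin I.length → ℝ} (hc : ∀ i, ((I.get i).cn : ℝ) ≤ E * S * c i) :
    CertifiedC n (13 / 18) (parC d.segs) (RegC d.N (loC d.segs) (hiC d.segs)) univ ℓ
      (univ : Finset (Option (Fin I.length)))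
      (optF (fun i : Fin I.length => kT (sideC sides) (parC d.segs) ((nv:ℝ) / d.N)
        (wR i) (wL i))) (optC E E1 c) := by
  have key := certC_of_data (d := d) (X := X) (o2 := o2) (Mx := Mx) (Mw := Mw) (n0 := n0) (E := E)
    (E1 := E1) (M := M) (J := J) (den := den) (l := l) (I := I) (dφ := S)
    (phin := fun i => phS d S c0 (2 * o2) (TLi TL i.1)) hN hfn hb hs hg hX
    ⟨hl, fun i a b ha hb' => phS_le hg (chkAll_imp hT i) ha hb'⟩ ho hn0 hBd hE hm hn
    (ℓ := ℓ) (fun q z hz => by rw [← hN] at hz ⊢; exact hℓ q z hz)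
    (φ := fun i : Fin I.length => kT (sideC sides) (parC d.segs) ((nv:ℝ) / d.N) (wR i) (wL i))
    (fun i a b ha hb' => by
      rw [← hN] at ha hb' ⊢
      exact kT_le hg (chkAll_imp hT i) (hA i) (hL0 i) ha hb') hc
  rw [← hN] at key
  exact key

end

end MP61673a.KC
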