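import Pool.Agent.Mu673.PriceNode

/-!
PRICE FACT: the window weights of a pair fact, aligned with the nodes and truncated at the threshold:
`wR = min (aligned ramp up) lR`, `wL = min (aligned ramp down) lL`. If the threshold lies inside the
ramp, the midpoint sum of the truncated ramp is at least its integral from `1/100` of a cell behind
the threshold.
-/

set_option autoImplicit false

namespace MP61673a.KC

open Finset
open MP61673a.PF (rUp rDn Ramps bW yRp yLp clamp_scale sum_rUp sum_rDn sum_tele)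
open MP61673a.TP (pos)

noncomputable section

/-! ### Sum of a truncated ramp -/

/-- integral of the ramp -/
def hI (α s v : ℝ) : ℝ := ((v - α) ^ 2 - (max 0 (v - (α + s))) ^ 2) / (2 * s)

/-- midpoint sum of a truncated ramp; `c` = threshold in cells -/
lemma sum_trunc {n : ℕ} {c α s : ℝ} (hs : 0 < s) (hc : 0 ≤ c) (h1 : α + 1 / 2 ≤ c)
    (h2 : c + 101 / 100 ≤ α + s) (h3 : α + s ≤ n) :
    n - α - s / 2 - (c + 1 / 100 - α) ^ 2 / (2 * s)
      ≤ ∑ x ∈ Ico (0:ℤ) n, min (max 0 (min 1 (((x:ℝ) + 1 / 2 - α) / s)))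
        (max 0 (min 1 ((x:ℝ) + 1 / 2 - c + 49 / 100))) := by
  have h2s : (0:ℝ) < 2 * s := by linarith
  set c' := c + 1 / 100 with hc'
  have key : ∀ x ∈ Ico (0:ℤ) n,
      hI α s (max ((x + 1 : ℤ) : ℝ) c') - hI α s (max (x : ℝ) c')
        ≤ min (max 0 (min 1 (((x:ℝ) + 1 / 2 - α) / s)))
          (max 0 (min 1 ((x:ℝ) + 1 / 2 - c + 49 / 100))) := by
    intro x _
    push_cast
    set X := (x:ℝ) with hX
    rcases le_total (X + 1) c' with c1 | c1
    · -- before the threshold
      rw [max_eq_right c1, max_eq_right (by linarith), sub_self]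
      exact le_min (le_max_left _ _) (le_max_left _ _)
    · rcases le_total c' X with c2 | c2
      · -- behind the threshold
        rw [max_eq_left c1, max_eq_left c2]
        have e2 : max 0 (min 1 (X + 1 / 2 - c + 49 / 100)) = 1 := by
          rw [min_eq_left (by linarith), max_eq_right zero_le_one]
        rw [e2]
        have hpos : 0 ≤ (X + 1 / 2 - α) / s := div_nonneg (by linarith) hs.le
        rw [max_eq_right (le_min zero_le_one hpos), min_eq_left (min_le_left _ _)]
        have k1 : hI α s (X + 1) - hI α s X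
            = (2 * (X + 1 / 2 - α) - ((max 0 (X + 1 - (α + s))) ^ 2 - (max 0 (X - (α + s))) ^ 2))
              / (2 * s) := by
          unfold hI
          field_simp
          ring
        rw [k1]
        refine le_min ?_ ?_
        · rw [div_le_one h2s]
          rcases le_total (X - (α + s)) 0 with d1 | d1
          · rw [max_eq_left d1]
            rcases le_total (X + 1 - (α + s)) 0 with d2 | d2
            · rw [max_eq_left d2]
              linarith
            · rw [max_eq_right d2]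
              nlinarith [sq_nonneg (X - (α + s))]
          · rw [max_eq_right d1, max_eq_right (by linarith)]
            nlinarith
        · rw [div_le_div_iff₀ h2s hs]
          have : (max 0 (X - (α + s))) ^ 2 ≤ (max 0 (X + 1 - (α + s))) ^ 2 :=
            pow_le_pow_left₀ (le_max_left _ _) (max_le_max le_rfl (by linarith)) 2
          nlinarith
      · -- the cell of the threshold
        rw [max_eq_left c1, max_eq_right c2]
        set t := X + 1 - c' with ht
        have t0 : 0 ≤ t := by linarith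
        have t1 : t ≤ 1 := by linarith
        have eX : X = c' + t - 1 := by linarith
        have e2 : X + 1 / 2 - c + 49 / 100 = t := by linarith
        rw [e2, min_eq_right t1, max_eq_right t0]
        have e1 : X + 1 / 2 - α = c' - α + t - 1 / 2 := by linarith
        rw [e1]
        have hp : 0 ≤ (c' - α + t - 1 / 2) / s := div_nonneg (by linarith) hs.le
        have hq : (c' - α + t - 1 / 2) / s ≤ 1 := by
          rw [div_le_one hs]
          linarith
        rw [min_eq_right hq, max_eq_right hp]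
        have e3 : X + 1 = c' + t := by linarith
        have k1 : hI α s (X + 1) - hI α s c' = (2 * t * (c' - α) + t ^ 2) / (2 * s) := by
          rw [e3]
          unfold hI
          rw [max_eq_left (show c' + t - (α + s) ≤ 0 by linarith),
            max_eq_left (show c' - (α + s) ≤ 0 by linarith)]
          field_simp
          ring
        rw [k1]
        refine le_min ?_ ?_
        · rw [div_le_div_iff₀ h2s hs]
          nlinarith [mul_nonneg (sub_nonneg.2 t1) (show 0 ≤ c' - α - (1 - t) / 2 by linarith)]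
        · rw [div_le_iff₀ h2s]
          nlinarith [mul_nonneg t0 (show 0 ≤ 2 * s - 2 * (c' - α) - t by linarith)]
  have s1 := sum_le_sum key
  have t1 := sum_tele n (fun x => hI α s (max (x : ℝ) c'))
  rw [t1] at s1
  refine le_trans (le_of_eq ?_) s1
  simp only [Int.cast_natCast, Int.cast_zero]
  rw [max_eq_left (show c' ≤ n by linarith), max_eq_right (show (0:ℝ) ≤ c' by linarith)]
  unfold hI
  rw [max_eq_right (show 0 ≤ (n:ℝ) - (α + s) by linarith),
    max_eq_left (show c' - (α + s) ≤ 0 by linarith)]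
  field_simp
  ring

/-! ### The windows -/

/-- right window of the pair fact with tables `T` -/
def wRT (n N : ℕ) (T : PT) (y : ℝ) : ℝ :=
  min (rUp ((T.A:ℝ) / N) ((T.d:ℝ) / N) y) (MP61673a.PF.lR n (17 / 20) y)

/-- left window of the pair fact with tables `T` -/
def wLT (n N : ℕ) (T : PT) (y : ℝ) : ℝ :=
  min (rDn ((T.B:ℝ) / N) ((T.e:ℝ) / N) y) (MP61673a.PF.lL n (13 / 40) y)

lemma rUp_nonneg (a δ y : ℝ) : 0 ≤ rUp a δ y := le_max_left _ _

lemma rDn_nonneg (a δ y : ℝ) : 0 ≤ rDn a δ y := le_max_left _ _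

lemma rUp_le (a δ y : ℝ) : rUp a δ y ≤ 1 := max_le zero_le_one (min_le_left _ _)

lemma rDn_le (a δ y : ℝ) : rDn a δ y ≤ 1 := max_le zero_le_one (min_le_left _ _)

lemma wLT_nonneg (n N : ℕ) (T : PT) (y : ℝ) : 0 ≤ wLT n N T y :=
  le_min (rDn_nonneg _ _ _) (MP61673a.PF.lL_nonneg _ _ _)

lemma ramps_T (n N : ℕ) (T : PT) : Ramps n (1 / 40) (1 / 80) (wRT n N T) (wLT n N T) where
  R0 := fun y => le_min (rUp_nonneg _ _ _) (MP61673a.PF.lR_nonneg _ _ _)
  R1 := fun y => by
    have e : yRp (1 / 40) (1 / 80) = 17 / 20 := by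
      unfold yRp
      norm_num
    rw [e]
    exact min_le_right _ _
  L0 := fun y => wLT_nonneg n N T y
  L1 := fun y => by
    have e : yLp (1 / 40) = 13 / 40 := by
      unfold yLp
      norm_num
    rw [e]
    exact min_le_right _ _

lemma ali_T {n N : ℕ} {T : PT} (hn : 4 ≤ n) (hN : 0 < N) (hA : T.A + T.d ≤ N) (hB : T.B ≤ N)
    (hd : 0 < T.d) (he : 0 < T.e) (heB : T.e ≤ T.B) : Ali N T (wRT n N T) (wLT n N T) := by
  have hN' : (0:ℝ) < N := by exact_mod_cast hN
  have hn' : (4:ℝ) ≤ n := by exact_mod_cast hn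
  have hd' : (0:ℝ) < T.d := by exact_mod_cast hd
  have he' : (0:ℝ) < T.e := by exact_mod_cast he
  have hB' : (T.B:ℝ) ≤ N := by exact_mod_cast hB
  have heB' : (T.e:ℝ) ≤ T.B := by exact_mod_cast heB
  refine ⟨fun y => min_le_left _ _, fun y hy => ?_, fun y => min_le_left _ _, fun y hy => ?_⟩
  · rcases le_or_gt y 0 with h | h
    · have e : rUp ((T.A:ℝ) / N) ((T.d:ℝ) / N) y = 0 := by
        unfold rUp
        rw [max_eq_left]
        refine (min_le_right _ _).trans (div_nonpos_of_nonpos_of_nonneg ?_ (by positivity))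
        have : (0:ℝ) ≤ (T.A:ℝ) / N := by positivity
        linarith
      unfold wRT
      rw [e, min_eq_left (MP61673a.PF.lR_nonneg _ _ _)]
    · have h1 : 1 ≤ y := by
        by_contra hc
        exact hy ⟨h, not_le.1 hc⟩
      have e : MP61673a.PF.lR n (17 / 20) y = 1 := by
        unfold MP61673a.PF.lR
        rw [max_eq_left, sub_zero]
        refine (min_le_right _ _).trans ?_
        nlinarith
      unfold wRT
      rw [e, min_eq_left (rUp_le _ _ _)]
  · rcases le_or_gt y 0 with h | h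
    · have e : MP61673a.PF.lL n (13 / 40) y = 1 := by
        unfold MP61673a.PF.lL MP61673a.PF.rampL
        rw [min_eq_left, max_eq_right zero_le_one]
        nlinarith
      unfold wLT
      rw [e, min_eq_left (rDn_le _ _ _)]
    · have h1 : 1 ≤ y := by
        by_contra hc
        exact hy ⟨h, not_le.1 hc⟩
      have e : rDn ((T.B:ℝ) / N) ((T.e:ℝ) / N) y = 0 := by
        unfold rDn
        rw [max_eq_left]
        refine (min_le_right _ _).trans (div_nonpos_of_nonpos_of_nonneg ?_ (by positivity))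
        have : (T.B:ℝ) / N ≤ 1 := by
          rw [div_le_one hN']
          exact hB'
        linarith
      unfold wLT
      rw [e, min_eq_left (MP61673a.PF.lL_nonneg _ _ _)]

/-! ### Sums of the windows -/

/-- lower bound of the right sum per cell (rational); `n0` = smallest `n`; cases: the ramp begins
behind the threshold, ends before the threshold, contains the threshold -/
def cRq (N n0 : ℕ) (T : PT) : ℚ :=
  if 17 * N ≤ 20 * T.A then 1 - T.A / N - T.d / (2 * N) - N / (8 * T.d * n0 * n0)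
  else if 100 * n0 * (T.A + T.d) + 49 * N ≤ 85 * n0 * N then 3 / 20 - 1 / (100 * n0)
  else 1 - T.A / N - T.d / (2 * N) - (17 * N - 20 * T.A) ^ 2 / (800 * N * T.d)
    - ((17 * N - 20 * T.A) / (2000 * T.d) + 1 / 20000) / n0

/-- lower bound of the left sum per cell -/
def cLq (N n0 : ℕ) (T : PT) : ℚ :=
  if 40 * T.B ≤ 13 * N then T.B / N - T.e / (2 * N) - N / (8 * T.e * n0 * n0)
  else if 13 * N + 40 * T.e ≤ 40 * T.B then 13 / 40 - 1 / (100 * n0)
  else T.B / N - T.e / (2 * N) - (40 * T.B - 13 * N) ^ 2 / (3200 * N * T.e)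
    - ((40 * T.B - 13 * N) / (4000 * T.e) + 1 / 20000) / n0

/-- admissible windows -/
def okW (N n0 : ℕ) (T : PT) : Bool :=
  decide (T.A + T.d ≤ N ∧ T.B ≤ N ∧ 0 < T.d ∧ 0 < T.e ∧ T.e ≤ T.B ∧ N ≤ n0 * T.d ∧ N ≤ n0 * T.e ∧
    (17 * N ≤ 20 * T.A ∨ 100 * n0 * (T.A + T.d) + 49 * N ≤ 85 * n0 * N ∨
      (10 * N ≤ n0 * (17 * N - 20 * T.A) ∧ 2020 * N ≤ 100 * n0 * (20 * (T.A + T.d) - 17 * N))) ∧
    (40 * T.B ≤ 13 * N ∨ 13 * N + 40 * T.e ≤ 40 * T.B ∨
      (20 * N ≤ n0 * (40 * T.B - 13 * N) ∧ 4040 * N ≤ 100 * n0 * (40 * T.e + 13 * N - 40 * T.B))))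

/-- algebra of the truncated sum; `a`, `δ`, `p` = start, length, threshold in units of the window -/
lemma trunc_alg {n n0 : ℕ} (h0 : 0 < n0) (hn : n0 ≤ n) {a δ p : ℝ} (hδ : 0 < δ) (hpa : a ≤ p)
    (hnd : 1 ≤ n * δ) :
    ((1 - a - δ / 2 - (p - a) ^ 2 / (2 * δ)) - ((p - a) / (100 * δ) + 1 / 20000) / n0) * n
      ≤ n - n * a - (n * δ) / 2 - (n * p + 1 / 100 - n * a) ^ 2 / (2 * (n * δ)) := by
  have r0 : (0:ℝ) < n0 := by exact_mod_cast h0
  have rn : (0:ℝ) < n := by
    have : 0 < n := lt_of_lt_of_le h0 hn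
    exact_mod_cast this
  have hnn : (n0:ℝ) ≤ n := by exact_mod_cast hn
  have e1 : (n * p + 1 / 100 - n * a) ^ 2 / (2 * (n * δ))
      = n * ((p - a) ^ 2 / (2 * δ)) + (p - a) / (100 * δ) + 1 / 20000 / (n * δ) := by
    field_simp
    ring
  have e2 : (1:ℝ) / 20000 / (n * δ) ≤ 1 / 20000 := by
    rw [div_le_iff₀ (by positivity)]
    linarith
  have q0 : 0 ≤ (p - a) / (100 * δ) + 1 / 20000 := by
    have : 0 ≤ (p - a) / (100 * δ) := div_nonneg (by linarith) (by positivity)
    linarith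
  have e3 : (p - a) / (100 * δ) + 1 / 20000
      ≤ ((p - a) / (100 * δ) + 1 / 20000) / n0 * n := by
    rw [div_mul_eq_mul_div, le_div_iff₀ r0]
    exact mul_le_mul_of_nonneg_left hnn q0
  rw [e1]
  have e4 : ((1 - a - δ / 2 - (p - a) ^ 2 / (2 * δ)) - ((p - a) / (100 * δ) + 1 / 20000) / n0) * n
      = n - n * a - (n * δ) / 2 - n * ((p - a) ^ 2 / (2 * δ))
        - ((p - a) / (100 * δ) + 1 / 20000) / n0 * n := by ring
  rw [e4]
  linarith

lemma plain_alg {n n0 : ℕ} (h0 : 0 < n0) (hn : n0 ≤ n) {δ : ℝ} (hδ : 0 < δ) :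
    1 / (8 * δ * n) ≤ 1 / (8 * δ * n0 * n0) * n := by
  have r0 : (0:ℝ) < n0 := by exact_mod_cast h0
  have rn : (0:ℝ) < n := by
    have : 0 < n := lt_of_lt_of_le h0 hn
    exact_mod_cast this
  have hnn : (n0:ℝ) ≤ n := by exact_mod_cast hn
  rw [div_mul_eq_mul_div, one_mul, div_le_div_iff₀ (by positivity) (by positivity)]
  have h1 : (n0:ℝ) * n0 ≤ n * n := mul_le_mul hnn hnn r0.le rn.le
  have h2 : 8 * δ * (n0 * n0) ≤ 8 * δ * (n * n) := mul_le_mul_of_nonneg_left h1 (by positivity)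
  nlinarith

/-- clamps of the truncated window as functions of the cell -/
lemma wR_cell {n : ℕ} (hn : 0 < n) {a δ p : ℝ} (hδ : 0 < δ) (x : ℤ) :
    min (rUp a δ (pos n x)) (MP61673a.PF.lR n p (pos n x))
      = min (max 0 (min 1 (((x:ℝ) + 1 / 2 - n * a) / (n * δ))))
        (max 0 (min 1 ((x:ℝ) + 1 / 2 - n * p + 49 / 100))) := by
  have rn : (0:ℝ) < n := by exact_mod_cast hn
  have e1 : (pos n x - a) / δ = ((x:ℝ) + 1 / 2 - n * a) / (n * δ) := by
    unfold pos
    field_simp
  have e2 : n * (pos n x - p) = (x:ℝ) + 1 / 2 - n * p := by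
    unfold pos
    field_simp
  unfold rUp MP61673a.PF.lR
  rw [e1, e2]
  congr 1
  set z := (x:ℝ) + 1 / 2 - n * p with hz
  rcases le_total (51 / 100 - z) 0 with h | h
  · rw [min_eq_right (by linarith : 51 / 100 - z ≤ 1), max_eq_left h,
      min_eq_left (by linarith : (1:ℝ) ≤ z + 49 / 100), max_eq_right zero_le_one]
    ring
  · rcases le_total (51 / 100 - z) 1 with h1 | h1
    · rw [min_eq_right h1, max_eq_right h, min_eq_right (by linarith : z + 49 / 100 ≤ 1),
        max_eq_right (by linarith : 0 ≤ z + 49 / 100)]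
      ring
    · rw [min_eq_left h1, max_eq_right zero_le_one, min_eq_right (by linarith : z + 49 / 100 ≤ 1),
        max_eq_left (by linarith : z + 49 / 100 ≤ 0)]
      ring

/-- the sum of the right window -/
lemma sum_wR {n n0 N : ℕ} (h0 : 0 < n0) (hn : n0 ≤ n) (hN : 0 < N) {a δ p : ℝ} (hδ : 0 < δ)
    (ha : 0 ≤ a) (hp : 0 ≤ p) (h1 : a + δ ≤ 1) (hnd : 1 ≤ n * δ)
    (hcase : n * a + 1 / 2 ≤ n * p ∧ n * p + 101 / 100 ≤ n * (a + δ)) :
    ((1 - a - δ / 2 - (p - a) ^ 2 / (2 * δ)) - ((p - a) / (100 * δ) + 1 / 20000) / n0) * n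
      ≤ ∑ x ∈ Ico (0:ℤ) n, min (rUp a δ (pos n x)) (MP61673a.PF.lR n p (pos n x)) := by
  have hn0 : 0 < n := lt_of_lt_of_le h0 hn
  have rn : (0:ℝ) < n := by exact_mod_cast hn0
  rw [sum_congr rfl fun x _ => wR_cell hn0 hδ x]
  refine (trunc_alg h0 hn hδ (by nlinarith [hcase.1]) hnd).trans ?_
  exact sum_trunc (by positivity) (by positivity) hcase.1 (by linarith [hcase.2])
    (by nlinarith)

/-- reflection of the left window -/
lemma wL_refl {n : ℕ} (hn : 0 < n) (b δ p : ℝ) (x : ℤ) :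
    min (rDn b δ (pos n x)) (MP61673a.PF.lL n p (pos n x))
      = min (rUp (1 - b) δ (pos n ((n:ℤ) - 1 - x)))
        (MP61673a.PF.lR n (1 - p) (pos n ((n:ℤ) - 1 - x))) := by
  have rn : (0:ℝ) < n := by exact_mod_cast hn
  have e : pos n ((n:ℤ) - 1 - x) = 1 - pos n x := by
    unfold pos
    push_cast
    field_simp
    ring
  rw [e]
  have e1 : rDn b δ (pos n x) = rUp (1 - b) δ (1 - pos n x) := by
    unfold rDn rUp
    congr 3
    ring
  rw [e1]
  congr 1
  unfold MP61673a.PF.lL MP61673a.PF.rampL MP61673a.PF.lR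
  have e2 : 51 / 100 - n * (1 - pos n x - (1 - p)) = 51 / 100 - n * p + n * pos n x := by ring
  have e3 : p * n + 49 / 100 - n * pos n x = 1 - (51 / 100 - n * p + n * pos n x) := by ring
  rw [e2, e3]
  set z := 51 / 100 - n * p + n * pos n x
  rcases le_total z 0 with h | h
  · rw [min_eq_right (by linarith : z ≤ 1), max_eq_left h,
      min_eq_left (by linarith : (1:ℝ) ≤ 1 - z), max_eq_right zero_le_one]
    ring
  · rcases le_total z 1 with h1 | h1
    · rw [min_eq_right h1, max_eq_right h, min_eq_right (by linarith : 1 - z ≤ 1),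
        max_eq_right (by linarith : 0 ≤ 1 - z)]
    · rw [min_eq_left h1, max_eq_right zero_le_one, min_eq_right (by linarith : 1 - z ≤ 1),
        max_eq_left (by linarith : 1 - z ≤ 0)]
      ring

lemma sum_refl (n : ℕ) (f : ℤ → ℝ) :
    ∑ x ∈ Ico (0:ℤ) n, f ((n:ℤ) - 1 - x) = ∑ x ∈ Ico (0:ℤ) n, f x := by
  refine sum_nbij' (fun x => (n:ℤ) - 1 - x) (fun x => (n:ℤ) - 1 - x) ?_ ?_ ?_ ?_ ?_
  · intro x hx
    rw [mem_Ico] at hx ⊢
    omega
  · intro x hx
    rw [mem_Ico] at hx ⊢
    omega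
  · intro x _
    ring
  · intro x _
    ring
  · intro x _
    rfl

lemma okW_imp {N n0 : ℕ} {T : PT} (h : okW N n0 T = true) :
    T.A + T.d ≤ N ∧ T.B ≤ N ∧ 0 < T.d ∧ 0 < T.e ∧ T.e ≤ T.B ∧ N ≤ n0 * T.d ∧ N ≤ n0 * T.e ∧
    (17 * N ≤ 20 * T.A ∨ 100 * n0 * (T.A + T.d) + 49 * N ≤ 85 * n0 * N ∨
      (10 * N ≤ n0 * (17 * N - 20 * T.A) ∧ 2020 * N ≤ 100 * n0 * (20 * (T.A + T.d) - 17 * N))) ∧
    (40 * T.B ≤ 13 * N ∨ 13 * N + 40 * T.e ≤ 40 * T.B ∨
      (20 * N ≤ n0 * (40 * T.B - 13 * N) ∧ 4040 * N ≤ 100 * n0 * (40 * T.e + 13 * N - 40 * T.B))) :=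
  of_decide_eq_true h

/-- the sum of the right window of `T` -/
lemma sum_wRT {n n0 N : ℕ} {T : PT} (h0 : 0 < n0) (hn : n0 ≤ n) (hN : 0 < N)
    (h : okW N n0 T = true) :
    (cRq N n0 T : ℝ) * n ≤ ∑ x ∈ Ico (0:ℤ) n, wRT n N T (pos n x) := by
  obtain ⟨a1, -, a3, -, -, a6, -, a8, -⟩ := okW_imp h
  have hn0 : 0 < n := lt_of_lt_of_le h0 hn
  have rn : (0:ℝ) < n := by exact_mod_cast hn0
  have r0 : (0:ℝ) < n0 := by exact_mod_cast h0
  have hnn : (n0:ℝ) ≤ n := by exact_mod_cast hn
  have hN' : (0:ℝ) < N := by exact_mod_cast hN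
  have hd' : (0:ℝ) < T.d := by exact_mod_cast a3
  have hδ : (0:ℝ) < (T.d:ℝ) / N := by positivity
  have h1 : (T.A:ℝ) / N + (T.d:ℝ) / N ≤ 1 := by
    rw [← add_div, div_le_one hN']
    exact_mod_cast a1
  have ha : (0:ℝ) ≤ (T.A:ℝ) / N := by positivity
  have hnd0 : (1:ℝ) ≤ n0 * ((T.d:ℝ) / N) := by
    rw [mul_div_assoc', le_div_iff₀ hN', one_mul]
    exact_mod_cast a6
  have hnd : (1:ℝ) ≤ n * ((T.d:ℝ) / N) :=
    hnd0.trans (mul_le_mul_of_nonneg_right hnn hδ.le)
  by_cases c : 17 * N ≤ 20 * T.A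
  · -- plain
    have hp : (17 / 20 : ℝ) ≤ (T.A:ℝ) / N := by
      rw [le_div_iff₀ hN']
      have : (17:ℝ) * N ≤ 20 * T.A := by exact_mod_cast c
      linarith
    have e : ∀ y, wRT n N T y = rUp ((T.A:ℝ) / N) ((T.d:ℝ) / N) y := by
      intro y
      unfold wRT
      refine min_eq_left ?_
      have := (MP61673a.PF.ramps_lin (n := n) hn0 (r := 1 / 40) (v := 1 / 80)
        (a := (T.A:ℝ) / N) (δ := (T.d:ℝ) / N) (b := 0) (δ' := (T.d:ℝ) / N) hδ hnd (by
          unfold yRp
          linarith) hδ hnd (by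
          unfold yLp
          norm_num)).R1 y
      have e2 : yRp (1 / 40) (1 / 80) = 17 / 20 := by
        unfold yRp
        norm_num
      rw [e2] at this
      exact this
    rw [sum_congr rfl fun x _ => e (pos n x)]
    have k := sum_rUp hn0 hδ ha h1
    refine le_trans ?_ k
    have k2 := plain_alg h0 hn hδ
    have e3 : ((cRq N n0 T : ℚ) : ℝ) = 1 - (T.A:ℝ) / N - (T.d:ℝ) / N / 2
        - 1 / (8 * ((T.d:ℝ) / N) * n0 * n0) := by
      unfold cRq
      rw [if_pos c]
      push_cast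
      field_simp
    rw [e3, sub_mul]
    linarith
  · by_cases ce : 100 * n0 * (T.A + T.d) + 49 * N ≤ 85 * n0 * N
    · -- the ramp ends before the threshold
      have hle : (T.A:ℝ) / N + (T.d:ℝ) / N ≤ 17 / 20 - 49 / 100 / n0 := by
        have h2 : (100:ℝ) * n0 * (T.A + T.d) + 49 * N ≤ 85 * n0 * N := by exact_mod_cast ce
        rw [← add_div, div_le_iff₀ hN']
        have e : (17 / 20 - 49 / 100 / (n0:ℝ)) * N = (85 * n0 * N - 49 * N) / (100 * n0) := by
          field_simp
          ring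
        rw [e, le_div_iff₀ (by positivity)]
        linarith
      have e : ∀ y, wRT n N T y = MP61673a.PF.lR n (17 / 20) y := fun y =>
        min_eq_right (MP61673a.PF.lR_le_rUp h0 hn hδ hle y)
      rw [sum_congr rfl fun x _ => e (pos n x)]
      refine le_trans ?_ (MP61673a.PF.sum_lR hn0 (show (0:ℝ) ≤ 17 / 20 by norm_num))
      have e3 : ((cRq N n0 T : ℚ) : ℝ) = 3 / 20 - 1 / (100 * n0) := by
        unfold cRq
        rw [if_neg c, if_pos ce]
        push_cast
        rfl
      have e4 : (1:ℝ) / 100 ≤ 1 / (100 * n0) * n := by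
        rw [div_mul_eq_mul_div, le_div_iff₀ (by positivity)]
        linarith
      rw [e3, sub_mul]
      linarith
    have c1 := (a8.resolve_left c).resolve_left ce
    have c2 : 20 * T.A < 17 * N := not_le.1 c
    have hpa : n * ((T.A:ℝ) / N) + 1 / 2 ≤ n * (17 / 20 : ℝ) := by
      have h2 : ((10 * N : ℕ) : ℝ) ≤ ((n0 * (17 * N - 20 * T.A) : ℕ) : ℝ) := by
        exact_mod_cast c1.1
      push_cast [Nat.cast_sub c2.le] at h2
      have h3 : (n0:ℝ) * (17 * N - 20 * T.A) ≤ n * (17 * N - 20 * T.A) := by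
        refine mul_le_mul_of_nonneg_right hnn ?_
        have : (20:ℝ) * T.A < 17 * N := by exact_mod_cast c2
        linarith
      have e : (n:ℝ) * (17 / 20) - n * ((T.A:ℝ) / N) = n * (17 * N - 20 * T.A) / (20 * N) := by
        field_simp
      have h4 : (1:ℝ) / 2 ≤ n * (17 * N - 20 * T.A) / (20 * N) := by
        rw [le_div_iff₀ (by positivity)]
        linarith
      linarith
    have hpd : n * (17 / 20 : ℝ) + 101 / 100 ≤ n * ((T.A:ℝ) / N + (T.d:ℝ) / N) := by
      have c3 : 17 * N ≤ 20 * (T.A + T.d) := by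
        by_contra hc
        have : 20 * (T.A + T.d) - 17 * N = 0 := by omega
        have h5 := c1.2
        rw [this] at h5
        omega
      have h2 : ((2020 * N : ℕ) : ℝ) ≤ ((100 * n0 * (20 * (T.A + T.d) - 17 * N) : ℕ) : ℝ) := by
        exact_mod_cast c1.2
      push_cast [Nat.cast_sub c3] at h2
      have c4 : (17:ℝ) * N ≤ 20 * (T.A + T.d) := by exact_mod_cast c3
      have h3 : (100 * n0:ℝ) * (20 * (T.A + T.d) - 17 * N)
          ≤ (100 * n) * (20 * (T.A + T.d) - 17 * N) := by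
        refine mul_le_mul_of_nonneg_right (by linarith) (by linarith)
      have e : (n:ℝ) * ((T.A:ℝ) / N + (T.d:ℝ) / N) - n * (17 / 20)
          = (100 * n) * (20 * (T.A + T.d) - 17 * N) / (2000 * N) := by
        field_simp
        ring
      have h4 : (101:ℝ) / 100 ≤ (100 * n) * (20 * (T.A + T.d) - 17 * N) / (2000 * N) := by
        rw [le_div_iff₀ (by positivity)]
        linarith
      linarith
    have k := sum_wR h0 hn hN hδ ha (show (0:ℝ) ≤ 17 / 20 by norm_num) h1 hnd ⟨hpa, hpd⟩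
    refine le_trans (le_of_eq ?_) k
    congr 1
    unfold cRq
    rw [if_neg c, if_neg ce]
    push_cast
    field_simp
    ring

/-- the sum of the left window of `T` -/
lemma sum_wLT {n n0 N : ℕ} {T : PT} (h0 : 0 < n0) (hn : n0 ≤ n) (hN : 0 < N)
    (h : okW N n0 T = true) :
    (cLq N n0 T : ℝ) * n ≤ ∑ x ∈ Ico (0:ℤ) n, wLT n N T (pos n x) := by
  obtain ⟨-, a2, -, a4, a5, -, a7, -, a9⟩ := okW_imp h
  have hn0 : 0 < n := lt_of_lt_of_le h0 hn
  have rn : (0:ℝ) < n := by exact_mod_cast hn0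
  have r0 : (0:ℝ) < n0 := by exact_mod_cast h0
  have hnn : (n0:ℝ) ≤ n := by exact_mod_cast hn
  have hN' : (0:ℝ) < N := by exact_mod_cast hN
  have he' : (0:ℝ) < T.e := by exact_mod_cast a4
  have hδ : (0:ℝ) < (T.e:ℝ) / N := by positivity
  have hb : (T.B:ℝ) / N ≤ 1 := by
    rw [div_le_one hN']
    exact_mod_cast a2
  have heb : (T.e:ℝ) / N ≤ (T.B:ℝ) / N := by
    refine div_le_div_of_nonneg_right ?_ hN'.le
    exact_mod_cast a5
  have hnd0 : (1:ℝ) ≤ n0 * ((T.e:ℝ) / N) := by
    rw [mul_div_assoc', le_div_iff₀ hN', one_mul]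
    exact_mod_cast a7
  have hnd : (1:ℝ) ≤ n * ((T.e:ℝ) / N) :=
    hnd0.trans (mul_le_mul_of_nonneg_right hnn hδ.le)
  by_cases c : 40 * T.B ≤ 13 * N
  · -- plain
    have hp : (T.B:ℝ) / N ≤ (13 / 40 : ℝ) := by
      rw [div_le_iff₀ hN']
      have : (40:ℝ) * T.B ≤ 13 * N := by exact_mod_cast c
      linarith
    have e : ∀ y, wLT n N T y = rDn ((T.B:ℝ) / N) ((T.e:ℝ) / N) y := by
      intro y
      unfold wLT
      refine min_eq_left ?_
      have := (MP61673a.PF.ramps_lin (n := n) hn0 (r := 1 / 40) (v := 1 / 80)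
        (a := 1) (δ := (T.e:ℝ) / N) (b := (T.B:ℝ) / N) (δ' := (T.e:ℝ) / N) hδ hnd (by
          unfold yRp
          norm_num) hδ hnd (by
          unfold yLp
          linarith)).L1 y
      have e2 : yLp (1 / 40) = 13 / 40 := by
        unfold yLp
        norm_num
      rw [e2] at this
      exact this
    rw [sum_congr rfl fun x _ => e (pos n x)]
    have k := sum_rDn hn0 hδ hb heb
    refine le_trans ?_ k
    have k2 := plain_alg h0 hn hδ
    have e3 : ((cLq N n0 T : ℚ) : ℝ) = (T.B:ℝ) / N - (T.e:ℝ) / N / 2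
        - 1 / (8 * ((T.e:ℝ) / N) * n0 * n0) := by
      unfold cLq
      rw [if_pos c]
      push_cast
      field_simp
    rw [e3, sub_mul]
    linarith
  · by_cases ce : 13 * N + 40 * T.e ≤ 40 * T.B
    · -- the ramp begins behind the threshold
      have hle : (13 / 40 : ℝ) ≤ (T.B:ℝ) / N - (T.e:ℝ) / N := by
        have h2 : (13:ℝ) * N + 40 * T.e ≤ 40 * T.B := by exact_mod_cast ce
        rw [← sub_div, le_div_iff₀ hN']
        linarith
      have e : ∀ y, wLT n N T y = MP61673a.PF.lL n (13 / 40) y := fun y =>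
        min_eq_right (MP61673a.PF.lL_le_rDn hδ hnd hle y)
      rw [sum_congr rfl fun x _ => e (pos n x)]
      refine le_trans ?_ (MP61673a.PF.sum_lL hn0 (show (13 / 40 : ℝ) ≤ 1 by norm_num))
      have e3 : ((cLq N n0 T : ℚ) : ℝ) = 13 / 40 - 1 / (100 * n0) := by
        unfold cLq
        rw [if_neg c, if_pos ce]
        push_cast
        rfl
      have e4 : (1:ℝ) / 100 ≤ 1 / (100 * n0) * n := by
        rw [div_mul_eq_mul_div, le_div_iff₀ (by positivity)]
        linarith
      rw [e3, sub_mul]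
      linarith
    have c1 := (a9.resolve_left c).resolve_left ce
    have c2 : 13 * N < 40 * T.B := not_le.1 c
    have hpa : n * (1 - (T.B:ℝ) / N) + 1 / 2 ≤ n * (1 - 13 / 40 : ℝ) := by
      have h2 : ((20 * N : ℕ) : ℝ) ≤ ((n0 * (40 * T.B - 13 * N) : ℕ) : ℝ) := by
        exact_mod_cast c1.1
      push_cast [Nat.cast_sub c2.le] at h2
      have h3 : (n0:ℝ) * (40 * T.B - 13 * N) ≤ n * (40 * T.B - 13 * N) := by
        refine mul_le_mul_of_nonneg_right hnn ?_
        have : (13:ℝ) * N < 40 * T.B := by exact_mod_cast c2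
        linarith
      have e : (n:ℝ) * (1 - 13 / 40) - n * (1 - (T.B:ℝ) / N)
          = n * (40 * T.B - 13 * N) / (40 * N) := by
        field_simp
        ring
      have h4 : (1:ℝ) / 2 ≤ n * (40 * T.B - 13 * N) / (40 * N) := by
        rw [le_div_iff₀ (by positivity)]
        linarith
      linarith
    have hpd : n * (1 - 13 / 40 : ℝ) + 101 / 100 ≤ n * ((1 - (T.B:ℝ) / N) + (T.e:ℝ) / N) := by
      have c3 : 40 * T.B ≤ 40 * T.e + 13 * N := by
        by_contra hc
        have : 40 * T.e + 13 * N - 40 * T.B = 0 := by omega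
        have h5 := c1.2
        rw [this] at h5
        omega
      have h2 : ((4040 * N : ℕ) : ℝ) ≤ ((100 * n0 * (40 * T.e + 13 * N - 40 * T.B) : ℕ) : ℝ) := by
        exact_mod_cast c1.2
      push_cast [Nat.cast_sub c3] at h2
      have c4 : (40:ℝ) * T.B ≤ 40 * T.e + 13 * N := by exact_mod_cast c3
      have h3 : (100 * n0:ℝ) * (40 * T.e + 13 * N - 40 * T.B)
          ≤ (100 * n) * (40 * T.e + 13 * N - 40 * T.B) := by
        refine mul_le_mul_of_nonneg_right (by linarith) (by linarith)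
      have e : (n:ℝ) * ((1 - (T.B:ℝ) / N) + (T.e:ℝ) / N) - n * (1 - 13 / 40)
          = (100 * n) * (40 * T.e + 13 * N - 40 * T.B) / (4000 * N) := by
        field_simp
        ring
      have h4 : (101:ℝ) / 100
          ≤ (100 * n) * (40 * T.e + 13 * N - 40 * T.B) / (4000 * N) := by
        rw [le_div_iff₀ (by positivity)]
        linarith
      linarith
    have k := sum_wR h0 hn hN hδ (show (0:ℝ) ≤ 1 - (T.B:ℝ) / N by linarith)
      (show (0:ℝ) ≤ 1 - 13 / 40 by norm_num) (by linarith) hnd ⟨hpa, hpd⟩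
    have e : ∑ x ∈ Ico (0:ℤ) n, wLT n N T (pos n x)
        = ∑ x ∈ Ico (0:ℤ) n, min (rUp (1 - (T.B:ℝ) / N) ((T.e:ℝ) / N) (pos n x))
          (MP61673a.PF.lR n (1 - 13 / 40) (pos n x)) := by
      rw [← sum_refl n (fun x => min (rUp (1 - (T.B:ℝ) / N) ((T.e:ℝ) / N) (pos n x))
          (MP61673a.PF.lR n (1 - 13 / 40) (pos n x)))]
      exact sum_congr rfl fun x _ => wL_refl hn0 _ _ _ x
    rw [e]
    refine le_trans (le_of_eq ?_) k
    congr 1
    unfold cLq
    rw [if_neg c, if_neg ce]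
    push_cast
    field_simp
    ring

/-- the constant of the pair fact with tables `T` -/
def cWq (N n0 : ℕ) (T : PT) : ℚ := 3 / 40 - 3 / (8 * n0) + cRq N n0 T + cLq N n0 T

theorem bW_T {n n0 N : ℕ} {T : PT} (h0 : 0 < n0) (hn : n0 ≤ n) (hN : 0 < N)
    (h : okW N n0 T = true) :
    (cWq N n0 T : ℝ) * n ≤ bW n (1 / 40) (wRT n N T) (wLT n N T) := by
  have r0 : (0:ℝ) < n0 := by exact_mod_cast h0
  have hnn : (n0:ℝ) ≤ n := by exact_mod_cast hn
  have k1 := sum_wRT h0 hn hN h
  have k2 := sum_wLT h0 hn hN h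
  unfold bW
  rw [sum_add_distrib]
  have e : (3:ℝ) / 8 ≤ 3 / (8 * n0) * n := by
    rw [div_mul_eq_mul_div, le_div_iff₀ (by positivity)]
    linarith
  unfold cWq
  push_cast
  linarith

end

end MP61673a.KC
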