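import Pool.Agent.Mu673.PriceRamp

/-!
PRICE FACTS with a general right threshold `pn / pd` (`= yRp (1/40) v`), general form of
`PriceRamp.lean`.
-/

set_option autoImplicit false

namespace MP61673a.KC

open Finset
open MP61673a.PF (rUp rDn Ramps bW yRp yLp clamp_scale sum_rUp sum_rDn sum_tele)
open MP61673a.TP (pos)

noncomputable section

/-- right window of the pair fact with tables `T`, threshold `p` -/
def wRV (n N : ℕ) (p : ℝ) (T : PT) (y : ℝ) : ℝ :=
  min (rUp ((T.A:ℝ) / N) ((T.d:ℝ) / N) y) (MP61673a.PF.lR n p y)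

lemma ramps_V (n N : ℕ) {p v : ℝ} (hp : yRp (1 / 40) v = p) (T : PT) :
    Ramps n (1 / 40) v (wRV n N p T) (wLT n N T) where
  R0 := fun y => le_min (rUp_nonneg _ _ _) (MP61673a.PF.lR_nonneg _ _ _)
  R1 := fun y => by
    rw [hp]
    exact min_le_right _ _
  L0 := fun y => wLT_nonneg n N T y
  L1 := fun y => by
    have e : yLp (1 / 40) = 13 / 40 := by
      unfold yLp
      norm_num
    rw [e]
    exact min_le_right _ _

lemma ali_V {n N : ℕ} {T : PT} (hn : 4 ≤ n) (hN : 0 < N) {p : ℝ}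
    (hnp : 51 / 100 ≤ n * (1 - p)) (hB : T.B ≤ N)
    (hd : 0 < T.d) (he : 0 < T.e) (heB : T.e ≤ T.B) : Ali N T (wRV n N p T) (wLT n N T) := by
  have hN' : (0:ℝ) < N := by exact_mod_cast hN
  have hn' : (4:ℝ) ≤ n := by exact_mod_cast hn
  have hd' : (0:ℝ) < T.d := by exact_mod_cast hd
  have he' : (0:ℝ) < T.e := by exact_mod_cast he
  have hB' : (T.B:ℝ) ≤ N := by exact_mod_cast hB
  have heB' : (T.e:ℝ) ≤ T.B := by exact_mod_cast heB
  refine ⟨fun y => min_le_left _ _, fun y hy => ?_, fun y => min_le_left _ _, fun y hy => ?_⟩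
  · rcases le_or_gt y 0 with h | h
    · have e : rUp ((T.A:ℝ) / N) ((T.d:ℝ) / N) y = 0 := by
        unfold rUp
        rw [max_eq_left]
        refine (min_le_right _ _).trans (div_nonpos_of_nonpos_of_nonneg ?_ (by positivity))
        have : (0:ℝ) ≤ (T.A:ℝ) / N := by positivity
        linarith
      unfold wRV
      rw [e, min_eq_left (MP61673a.PF.lR_nonneg _ _ _)]
    · have h1 : 1 ≤ y := by
        by_contra hc
        exact hy ⟨h, not_le.1 hc⟩
      have e : MP61673a.PF.lR n p y = 1 := by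
        unfold MP61673a.PF.lR
        rw [max_eq_left, sub_zero]
        refine (min_le_right _ _).trans ?_
        have : n * (1 - p) ≤ n * (y - p) := mul_le_mul_of_nonneg_left (by linarith) (by linarith)
        linarith
      unfold wRV
      rw [e, min_eq_left (rUp_le _ _ _)]
  · rcases le_or_gt y 0 with h | h
    · have e : MP61673a.PF.lL n (13 / 40) y = 1 := by
        unfold MP61673a.PF.lL MP61673a.PF.rampL
        rw [min_eq_left, max_eq_right zero_le_one]
        nlinarith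
      unfold wLT
      rw [e, min_eq_left (rDn_le _ _ _)]
    · have h1 : 1 ≤ y := by
        by_contra hc
        exact hy ⟨h, not_le.1 hc⟩
      have e : rDn ((T.B:ℝ) / N) ((T.e:ℝ) / N) y = 0 := by
        unfold rDn
        rw [max_eq_left]
        refine (min_le_right _ _).trans (div_nonpos_of_nonpos_of_nonneg ?_ (by positivity))
        have : (T.B:ℝ) / N ≤ 1 := by
          rw [div_le_one hN']
          exact hB'
        linarith
      unfold wLT
      rw [e, min_eq_left (MP61673a.PF.lL_nonneg _ _ _)]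

/-- lower bound of the right sum per cell; threshold `pn / pd` -/
def cRv (N n0 pn pd : ℕ) (T : PT) : ℚ :=
  if pn * N ≤ pd * T.A then 1 - T.A / N - T.d / (2 * N) - N / (8 * T.d * n0 * n0)
  else if 100 * n0 * (pd * (T.A + T.d)) + 49 * pd * N ≤ 100 * n0 * pn * N then
    1 - pn / pd - 1 / (100 * n0)
  else 1 - T.A / N - T.d / (2 * N) - (pn * N - pd * T.A) ^ 2 / (2 * pd * pd * N * T.d)
    - ((pn * N - pd * T.A) / (100 * pd * T.d) + 1 / 20000) / n0

/-- admissible windows -/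
def okV (N n0 pn pd : ℕ) (T : PT) : Bool :=
  decide (T.A + T.d ≤ N ∧ T.B ≤ N ∧ 0 < T.d ∧ 0 < T.e ∧ T.e ≤ T.B ∧ N ≤ n0 * T.d ∧ N ≤ n0 * T.e ∧
    (0 < pd ∧ pn ≤ pd ∧ 51 * pd ≤ 100 * n0 * (pd - pn)) ∧
    (pn * N ≤ pd * T.A ∨ 100 * n0 * (pd * (T.A + T.d)) + 49 * pd * N ≤ 100 * n0 * pn * N ∨
      (pd * N ≤ 2 * n0 * (pn * N - pd * T.A) ∧
        101 * pd * N ≤ 100 * n0 * (pd * (T.A + T.d) - pn * N))) ∧
    (40 * T.B ≤ 13 * N ∨ 13 * N + 40 * T.e ≤ 40 * T.B ∨
      (20 * N ≤ n0 * (40 * T.B - 13 * N) ∧ 4040 * N ≤ 100 * n0 * (40 * T.e + 13 * N - 40 * T.B))))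

lemma okV_imp {N n0 pn pd : ℕ} {T : PT} (h : okV N n0 pn pd T = true) :
    T.A + T.d ≤ N ∧ T.B ≤ N ∧ 0 < T.d ∧ 0 < T.e ∧ T.e ≤ T.B ∧ N ≤ n0 * T.d ∧ N ≤ n0 * T.e ∧
    (0 < pd ∧ pn ≤ pd ∧ 51 * pd ≤ 100 * n0 * (pd - pn)) ∧
    (pn * N ≤ pd * T.A ∨ 100 * n0 * (pd * (T.A + T.d)) + 49 * pd * N ≤ 100 * n0 * pn * N ∨
      (pd * N ≤ 2 * n0 * (pn * N - pd * T.A) ∧
        101 * pd * N ≤ 100 * n0 * (pd * (T.A + T.d) - pn * N))) ∧
    (40 * T.B ≤ 13 * N ∨ 13 * N + 40 * T.e ≤ 40 * T.B ∨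
      (20 * N ≤ n0 * (40 * T.B - 13 * N) ∧ 4040 * N ≤ 100 * n0 * (40 * T.e + 13 * N - 40 * T.B))) :=
  of_decide_eq_true h

/-- the sum of the right window of `T` -/
lemma sum_wRV {n n0 N pn pd : ℕ} {T : PT} (h0 : 0 < n0) (hn : n0 ≤ n) (hN : 0 < N)
    (h : okV N n0 pn pd T = true) :
    (cRv N n0 pn pd T : ℝ) * n ≤ ∑ x ∈ Ico (0:ℤ) n, wRV n N ((pn:ℝ) / pd) T (pos n x) := by
  obtain ⟨a1, -, a3, -, -, a6, -, ⟨p1, p2, p3⟩, a8, -⟩ := okV_imp h
  have hn0 : 0 < n := lt_of_lt_of_le h0 hn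
  have rn : (0:ℝ) < n := by exact_mod_cast hn0
  have r0 : (0:ℝ) < n0 := by exact_mod_cast h0
  have hnn : (n0:ℝ) ≤ n := by exact_mod_cast hn
  have hN' : (0:ℝ) < N := by exact_mod_cast hN
  have hpd : (0:ℝ) < pd := by exact_mod_cast p1
  have hpp : (pn:ℝ) ≤ pd := by exact_mod_cast p2
  have hp0 : (0:ℝ) ≤ (pn:ℝ) / pd := by positivity
  have hp1 : (pn:ℝ) / pd ≤ 1 := by
    rw [div_le_one hpd]
    exact hpp
  have hd' : (0:ℝ) < T.d := by exact_mod_cast a3
  have hδ : (0:ℝ) < (T.d:ℝ) / N := by positivity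
  have h1 : (T.A:ℝ) / N + (T.d:ℝ) / N ≤ 1 := by
    rw [← add_div, div_le_one hN']
    exact_mod_cast a1
  have ha : (0:ℝ) ≤ (T.A:ℝ) / N := by positivity
  have hnd0 : (1:ℝ) ≤ n0 * ((T.d:ℝ) / N) := by
    rw [mul_div_assoc', le_div_iff₀ hN', one_mul]
    exact_mod_cast a6
  have hnd : (1:ℝ) ≤ n * ((T.d:ℝ) / N) :=
    hnd0.trans (mul_le_mul_of_nonneg_right hnn hδ.le)
  by_cases c : pn * N ≤ pd * T.A
  · -- plain
    have hp : (pn:ℝ) / pd ≤ (T.A:ℝ) / N := by
      rw [div_le_div_iff₀ hpd hN']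
      have : (pn:ℝ) * N ≤ pd * T.A := by exact_mod_cast c
      linarith
    have e : ∀ y, wRV n N ((pn:ℝ) / pd) T y = rUp ((T.A:ℝ) / N) ((T.d:ℝ) / N) y := by
      intro y
      unfold wRV
      refine min_eq_left ?_
      have hv : yRp (1 / 40) (((pn:ℝ) / pd - 33 / 40) / 2) = (pn:ℝ) / pd := by
        unfold yRp
        ring
      have := (MP61673a.PF.ramps_lin (n := n) hn0 (r := 1 / 40)
        (v := ((pn:ℝ) / pd - 33 / 40) / 2)
        (a := (T.A:ℝ) / N) (δ := (T.d:ℝ) / N) (b := 0) (δ' := (T.d:ℝ) / N) hδ hnd (by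
          rw [hv]
          exact hp) hδ hnd (by
          unfold yLp
          norm_num)).R1 y
      rw [hv] at this
      exact this
    rw [sum_congr rfl fun x _ => e (pos n x)]
    have k := sum_rUp hn0 hδ ha h1
    refine le_trans ?_ k
    have k2 := plain_alg h0 hn hδ
    have e3 : ((cRv N n0 pn pd T : ℚ) : ℝ) = 1 - (T.A:ℝ) / N - (T.d:ℝ) / N / 2
        - 1 / (8 * ((T.d:ℝ) / N) * n0 * n0) := by
      unfold cRv
      rw [if_pos c]
      push_cast
      field_simp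
    rw [e3, sub_mul]
    linarith
  · by_cases ce : 100 * n0 * (pd * (T.A + T.d)) + 49 * pd * N ≤ 100 * n0 * pn * N
    · -- the ramp ends before the threshold
      have hle : (T.A:ℝ) / N + (T.d:ℝ) / N ≤ (pn:ℝ) / pd - 49 / 100 / n0 := by
        have h2 : (100:ℝ) * n0 * (pd * (T.A + T.d)) + 49 * pd * N ≤ 100 * n0 * pn * N := by
          exact_mod_cast ce
        rw [← add_div, div_le_iff₀ hN']
        have e : ((pn:ℝ) / pd - 49 / 100 / (n0:ℝ)) * N
            = (100 * n0 * pn * N - 49 * pd * N) / (100 * n0 * pd) := by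
          field_simp
        rw [e, le_div_iff₀ (by positivity)]
        linarith
      have e : ∀ y, wRV n N ((pn:ℝ) / pd) T y = MP61673a.PF.lR n ((pn:ℝ) / pd) y := fun y =>
        min_eq_right (MP61673a.PF.lR_le_rUp h0 hn hδ hle y)
      rw [sum_congr rfl fun x _ => e (pos n x)]
      refine le_trans ?_ (MP61673a.PF.sum_lR hn0 hp0)
      have e3 : ((cRv N n0 pn pd T : ℚ) : ℝ) = 1 - (pn:ℝ) / pd - 1 / (100 * n0) := by
        unfold cRv
        rw [if_neg c, if_pos ce]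
        push_cast
        rfl
      have e4 : (1:ℝ) / 100 ≤ 1 / (100 * n0) * n := by
        rw [div_mul_eq_mul_div, le_div_iff₀ (by positivity)]
        linarith
      rw [e3, sub_mul]
      linarith
    have c1 := (a8.resolve_left c).resolve_left ce
    have c2 : pd * T.A < pn * N := not_le.1 c
    have c2' : (pd:ℝ) * T.A < pn * N := by exact_mod_cast c2
    have hpa : n * ((T.A:ℝ) / N) + 1 / 2 ≤ n * ((pn:ℝ) / pd) := by
      have h2 : ((pd * N : ℕ) : ℝ) ≤ ((2 * n0 * (pn * N - pd * T.A) : ℕ) : ℝ) := by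
        exact_mod_cast c1.1
      push_cast [Nat.cast_sub c2.le] at h2
      have h3 : (2 * n0:ℝ) * (pn * N - pd * T.A) ≤ 2 * n * (pn * N - pd * T.A) := by
        refine mul_le_mul_of_nonneg_right (by linarith) (by linarith)
      have e : (n:ℝ) * ((pn:ℝ) / pd) - n * ((T.A:ℝ) / N)
          = 2 * n * (pn * N - pd * T.A) / (2 * (pd * N)) := by
        field_simp
      have h4 : (1:ℝ) / 2 ≤ 2 * n * (pn * N - pd * T.A) / (2 * (pd * N)) := by
        rw [le_div_iff₀ (by positivity)]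
        linarith
      linarith
    have hpd2 : n * ((pn:ℝ) / pd) + 101 / 100 ≤ n * ((T.A:ℝ) / N + (T.d:ℝ) / N) := by
      have c3 : pn * N ≤ pd * (T.A + T.d) := by
        by_contra hc
        have h6 : pd * (T.A + T.d) - pn * N = 0 := by omega
        have h5 := c1.2
        rw [h6, mul_zero] at h5
        have : 0 < pd * N := Nat.mul_pos p1 hN
        have : 0 < 101 * pd * N := by positivity
        omega
      have h2 : ((101 * pd * N : ℕ) : ℝ) ≤ ((100 * n0 * (pd * (T.A + T.d) - pn * N) : ℕ) : ℝ) := by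
        exact_mod_cast c1.2
      push_cast [Nat.cast_sub c3] at h2
      have c4 : (pn:ℝ) * N ≤ pd * (T.A + T.d) := by exact_mod_cast c3
      have h3 : (100 * n0:ℝ) * (pd * (T.A + T.d) - pn * N)
          ≤ (100 * n) * (pd * (T.A + T.d) - pn * N) := by
        refine mul_le_mul_of_nonneg_right (by linarith) (by linarith)
      have e : (n:ℝ) * ((T.A:ℝ) / N + (T.d:ℝ) / N) - n * ((pn:ℝ) / pd)
          = (100 * n) * (pd * (T.A + T.d) - pn * N) / (100 * (pd * N)) := by
        field_simp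
      have h4 : (101:ℝ) / 100
          ≤ (100 * n) * (pd * (T.A + T.d) - pn * N) / (100 * (pd * N)) := by
        rw [le_div_iff₀ (by positivity)]
        linarith
      linarith
    have k := sum_wR h0 hn hN hδ ha hp0 h1 hnd ⟨hpa, hpd2⟩
    refine le_trans (le_of_eq ?_) k
    congr 1
    unfold cRv
    rw [if_neg c, if_neg ce]
    push_cast
    field_simp

/-- the sum of the left window of `T` -/
lemma sum_wLV {n n0 N pn pd : ℕ} {T : PT} (h0 : 0 < n0) (hn : n0 ≤ n) (hN : 0 < N)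
    (h : okV N n0 pn pd T = true) :
    (cLq N n0 T : ℝ) * n ≤ ∑ x ∈ Ico (0:ℤ) n, wLT n N T (pos n x) := by
  obtain ⟨-, a2, -, a4, a5, -, a7, -, -, a9⟩ := okV_imp h
  have hn0 : 0 < n := lt_of_lt_of_le h0 hn
  have rn : (0:ℝ) < n := by exact_mod_cast hn0
  have r0 : (0:ℝ) < n0 := by exact_mod_cast h0
  have hnn : (n0:ℝ) ≤ n := by exact_mod_cast hn
  have hN' : (0:ℝ) < N := by exact_mod_cast hN
  have he' : (0:ℝ) < T.e := by exact_mod_cast a4
  have hδ : (0:ℝ) < (T.e:ℝ) / N := by positivity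
  have hb : (T.B:ℝ) / N ≤ 1 := by
    rw [div_le_one hN']
    exact_mod_cast a2
  have heb : (T.e:ℝ) / N ≤ (T.B:ℝ) / N := by
    refine div_le_div_of_nonneg_right ?_ hN'.le
    exact_mod_cast a5
  have hnd0 : (1:ℝ) ≤ n0 * ((T.e:ℝ) / N) := by
    rw [mul_div_assoc', le_div_iff₀ hN', one_mul]
    exact_mod_cast a7
  have hnd : (1:ℝ) ≤ n * ((T.e:ℝ) / N) :=
    hnd0.trans (mul_le_mul_of_nonneg_right hnn hδ.le)
  by_cases c : 40 * T.B ≤ 13 * N
  · -- plain
    have hp : (T.B:ℝ) / N ≤ (13 / 40 : ℝ) := by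
      rw [div_le_iff₀ hN']
      have : (40:ℝ) * T.B ≤ 13 * N := by exact_mod_cast c
      linarith
    have e : ∀ y, wLT n N T y = rDn ((T.B:ℝ) / N) ((T.e:ℝ) / N) y := by
      intro y
      unfold wLT
      refine min_eq_left ?_
      have := (MP61673a.PF.ramps_lin (n := n) hn0 (r := 1 / 40) (v := 1 / 80)
        (a := 1) (δ := (T.e:ℝ) / N) (b := (T.B:ℝ) / N) (δ' := (T.e:ℝ) / N) hδ hnd (by
          unfold yRp
          norm_num) hδ hnd (by
          unfold yLp
          linarith)).L1 y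
      have e2 : yLp (1 / 40) = 13 / 40 := by
        unfold yLp
        norm_num
      rw [e2] at this
      exact this
    rw [sum_congr rfl fun x _ => e (pos n x)]
    have k := sum_rDn hn0 hδ hb heb
    refine le_trans ?_ k
    have k2 := plain_alg h0 hn hδ
    have e3 : ((cLq N n0 T : ℚ) : ℝ) = (T.B:ℝ) / N - (T.e:ℝ) / N / 2
        - 1 / (8 * ((T.e:ℝ) / N) * n0 * n0) := by
      unfold cLq
      rw [if_pos c]
      push_cast
      field_simp
    rw [e3, sub_mul]
    linarith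
  · by_cases ce : 13 * N + 40 * T.e ≤ 40 * T.B
    · -- the ramp begins behind the threshold
      have hle : (13 / 40 : ℝ) ≤ (T.B:ℝ) / N - (T.e:ℝ) / N := by
        have h2 : (13:ℝ) * N + 40 * T.e ≤ 40 * T.B := by exact_mod_cast ce
        rw [← sub_div, le_div_iff₀ hN']
        linarith
      have e : ∀ y, wLT n N T y = MP61673a.PF.lL n (13 / 40) y := fun y =>
        min_eq_right (MP61673a.PF.lL_le_rDn hδ hnd hle y)
      rw [sum_congr rfl fun x _ => e (pos n x)]
      refine le_trans ?_ (MP61673a.PF.sum_lL hn0 (show (13 / 40 : ℝ) ≤ 1 by norm_num))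
      have e3 : ((cLq N n0 T : ℚ) : ℝ) = 13 / 40 - 1 / (100 * n0) := by
        unfold cLq
        rw [if_neg c, if_pos ce]
        push_cast
        rfl
      have e4 : (1:ℝ) / 100 ≤ 1 / (100 * n0) * n := by
        rw [div_mul_eq_mul_div, le_div_iff₀ (by positivity)]
        linarith
      rw [e3, sub_mul]
      linarith
    have c1 := (a9.resolve_left c).resolve_left ce
    have c2 : 13 * N < 40 * T.B := not_le.1 c
    have hpa : n * (1 - (T.B:ℝ) / N) + 1 / 2 ≤ n * (1 - 13 / 40 : ℝ) := by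
      have h2 : ((20 * N : ℕ) : ℝ) ≤ ((n0 * (40 * T.B - 13 * N) : ℕ) : ℝ) := by
        exact_mod_cast c1.1
      push_cast [Nat.cast_sub c2.le] at h2
      have h3 : (n0:ℝ) * (40 * T.B - 13 * N) ≤ n * (40 * T.B - 13 * N) := by
        refine mul_le_mul_of_nonneg_right hnn ?_
        have : (13:ℝ) * N < 40 * T.B := by exact_mod_cast c2
        linarith
      have e : (n:ℝ) * (1 - 13 / 40) - n * (1 - (T.B:ℝ) / N)
          = n * (40 * T.B - 13 * N) / (40 * N) := by
        field_simp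
        ring
      have h4 : (1:ℝ) / 2 ≤ n * (40 * T.B - 13 * N) / (40 * N) := by
        rw [le_div_iff₀ (by positivity)]
        linarith
      linarith
    have hpd : n * (1 - 13 / 40 : ℝ) + 101 / 100 ≤ n * ((1 - (T.B:ℝ) / N) + (T.e:ℝ) / N) := by
      have c3 : 40 * T.B ≤ 40 * T.e + 13 * N := by
        by_contra hc
        have : 40 * T.e + 13 * N - 40 * T.B = 0 := by omega
        have h5 := c1.2
        rw [this] at h5
        omega
      have h2 : ((4040 * N : ℕ) : ℝ) ≤ ((100 * n0 * (40 * T.e + 13 * N - 40 * T.B) : ℕ) : ℝ) := by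
        exact_mod_cast c1.2
      push_cast [Nat.cast_sub c3] at h2
      have c4 : (40:ℝ) * T.B ≤ 40 * T.e + 13 * N := by exact_mod_cast c3
      have h3 : (100 * n0:ℝ) * (40 * T.e + 13 * N - 40 * T.B)
          ≤ (100 * n) * (40 * T.e + 13 * N - 40 * T.B) := by
        refine mul_le_mul_of_nonneg_right (by linarith) (by linarith)
      have e : (n:ℝ) * ((1 - (T.B:ℝ) / N) + (T.e:ℝ) / N) - n * (1 - 13 / 40)
          = (100 * n) * (40 * T.e + 13 * N - 40 * T.B) / (4000 * N) := by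
        field_simp
        ring
      have h4 : (101:ℝ) / 100
          ≤ (100 * n) * (40 * T.e + 13 * N - 40 * T.B) / (4000 * N) := by
        rw [le_div_iff₀ (by positivity)]
        linarith
      linarith
    have k := sum_wR h0 hn hN hδ (show (0:ℝ) ≤ 1 - (T.B:ℝ) / N by linarith)
      (show (0:ℝ) ≤ 1 - 13 / 40 by norm_num) (by linarith) hnd ⟨hpa, hpd⟩
    have e : ∑ x ∈ Ico (0:ℤ) n, wLT n N T (pos n x)
        = ∑ x ∈ Ico (0:ℤ) n, min (rUp (1 - (T.B:ℝ) / N) ((T.e:ℝ) / N) (pos n x))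
          (MP61673a.PF.lR n (1 - 13 / 40) (pos n x)) := by
      rw [← sum_refl n (fun x => min (rUp (1 - (T.B:ℝ) / N) ((T.e:ℝ) / N) (pos n x))
          (MP61673a.PF.lR n (1 - 13 / 40) (pos n x)))]
      exact sum_congr rfl fun x _ => wL_refl hn0 _ _ _ x
    rw [e]
    refine le_trans (le_of_eq ?_) k
    congr 1
    unfold cLq
    rw [if_neg c, if_neg ce]
    push_cast
    field_simp
    ring

/-- the constant of the pair fact with tables `T` -/
def cWv (N n0 pn pd : ℕ) (T : PT) : ℚ := 3 / 40 - 3 / (8 * n0) + cRv N n0 pn pd T + cLq N n0 T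

theorem bW_V {n n0 N pn pd : ℕ} {T : PT} (h0 : 0 < n0) (hn : n0 ≤ n) (hN : 0 < N)
    (h : okV N n0 pn pd T = true) :
    (cWv N n0 pn pd T : ℝ) * n ≤ bW n (1 / 40) (wRV n N ((pn:ℝ) / pd) T) (wLT n N T) := by
  have r0 : (0:ℝ) < n0 := by exact_mod_cast h0
  have hnn : (n0:ℝ) ≤ n := by exact_mod_cast hn
  have k1 := sum_wRV h0 hn hN h
  have k2 := sum_wLV h0 hn hN h
  unfold bW
  rw [sum_add_distrib]
  have e : (3:ℝ) / 8 ≤ 3 / (8 * n0) * n := by
    rw [div_mul_eq_mul_div, le_div_iff₀ (by positivity)]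
    linarith
  unfold cWv
  push_cast
  linarith

end

end MP61673a.KC
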