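import Pool.Agent.Mu673.PriceSix
import Pool.Agent.Mu673.KCsegB

/-!
Kernel checks of the price table.
-/

set_option autoImplicit false
set_option maxRecDepth 100000

namespace MP61673a.KC.PriceSix

theorem bnds_ok : bndS dat = true := by decide +kernel

theorem syms_ok : symS dat = true := by decide +kernel

theorem segs_ok : chkG dat = true := by decide +kernel

theorem lab_ok : chkY dat lab facI 29 123 121 122 100000 100000 = true := by decide +kernel

theorem tab_ok : chkAll dat 8 0 29 123 17 sds [ptt] facI = true := by decide +kernel

theorem m0 : segCheckB 7 dat 0 30 = true := by decide +kernel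

theorem m1 : segCheckB 7 dat 30 50 = true := by decide +kernel

theorem m2 : segCheckB 7 dat 50 66 = true := by decide +kernel

theorem m3 : segCheckB 7 dat 66 80 = true := by decide +kernel

theorem m4 : segCheckB 7 dat 80 92 = true := by decide +kernel

theorem m5 : segCheckB 7 dat 92 103 = true := by decide +kernel

theorem m6 : segCheckB 7 dat 103 113 = true := by decide +kernel

theorem m7 : segCheckB 7 dat 113 122 = true := by decide +kernel

end MP61673a.KC.PriceSix
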