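import Pool.Agent.Mu673.EnvOut
import Pool.Agent.Mu673.Sos

/-!
POINTS OF A FRAME. One family of points (both sides together), a point = (side, integer
coordinate), `false` = side `P`, `true` = side `Q`; sums over points, pairs and triples; the
coverage facts of `Env` with prices depending on a third point.
-/

namespace MP61673a.Fin

open Finset MP61673a.W MP61673a.LiftW MP61673a.Mids MP61673a.Sos
open MP61673a.Lift hiding PP QQ

noncomputable section

/-- a point of the frame: side and coordinate -/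
abbrev P3 := Bool × ℤ

/-- the point of an element -/
def pt3 (P Q : WS) : P.ι ⊕ Q.ι → P3 := Sum.elim (fun a => (false, P.u a)) (fun b => (true, Q.u b))

/-- the weight of an element -/
def wt3 (P Q : WS) : P.ι ⊕ Q.ι → ℝ := Sum.elim P.f Q.f

/-- all elements -/
def st3 (P Q : WS) : Finset (P.ι ⊕ Q.ι) := P.S.disjSum Q.S

/-- sum over the points -/
def T1 (P Q : WS) (c : P3 → ℝ) : ℝ := ∑ x ∈ st3 P Q, wt3 P Q x * c (pt3 P Q x)

/-- sum over the ordered pairs of points -/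
def T2 (P Q : WS) (g : P3 → P3 → ℝ) : ℝ :=
  ∑ x ∈ st3 P Q, ∑ y ∈ st3 P Q, wt3 P Q x * wt3 P Q y * g (pt3 P Q x) (pt3 P Q y)

/-- sum over the triples of points -/
def T3 (P Q : WS) (F : P3 → P3 → P3 → ℝ) : ℝ :=
  tri (st3 P Q) (wt3 P Q) (fun x y z => F (pt3 P Q x) (pt3 P Q y) (pt3 P Q z))

lemma wt3_nonneg {P Q : WS} (hP : Good P) (hQ : Good Q) : ∀ x ∈ st3 P Q, 0 ≤ wt3 P Q x := by
  intro x hx
  unfold st3 at hx
  rw [mem_disjSum] at hx
  rcases hx with ⟨a, ha, rfl⟩ | ⟨b, hb, rfl⟩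
  · exact hP.f_nonneg a ha
  · exact hQ.f_nonneg b hb

lemma T1_eq (P Q : WS) (c : P3 → ℝ) :
    T1 P Q c = ∑ a ∈ P.S, P.f a * c (false, P.u a) + ∑ b ∈ Q.S, Q.f b * c (true, Q.u b) := by
  unfold T1 st3
  rw [sum_disjSum]
  rfl

lemma T3_eq (P Q : WS) (F : P3 → P3 → P3 → ℝ) :
    T3 P Q F = T1 P Q (fun x => T2 P Q (F x)) := by
  unfold T3 tri T1 T2
  refine sum_congr rfl fun x _ => ?_
  rw [mul_sum]
  refine sum_congr rfl fun y _ => ?_
  rw [mul_sum]
  refine sum_congr rfl fun z _ => ?_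
  ring

lemma T2_eq (P Q : WS) (g : P3 → P3 → ℝ) :
    T2 P Q g = T1 P Q (fun x => T1 P Q (g x)) := by
  unfold T2 T1
  refine sum_congr rfl fun x _ => ?_
  rw [mul_sum]
  refine sum_congr rfl fun y _ => ?_
  ring

lemma T1_one (P Q : WS) : T1 P Q (fun _ => 1) = mass P + mass Q := by
  rw [T1_eq]
  unfold mass
  simp

lemma T1_add (P Q : WS) (c d : P3 → ℝ) :
    T1 P Q (fun x => c x + d x) = T1 P Q c + T1 P Q d := by
  unfold T1
  rw [← sum_add_distrib]
  refine sum_congr rfl fun x _ => ?_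
  ring

lemma T1_sub (P Q : WS) (c d : P3 → ℝ) :
    T1 P Q (fun x => c x - d x) = T1 P Q c - T1 P Q d := by
  unfold T1
  rw [← sum_sub_distrib]
  refine sum_congr rfl fun x _ => ?_
  ring

lemma T1_mul (P Q : WS) (r : ℝ) (c : P3 → ℝ) :
    T1 P Q (fun x => r * c x) = r * T1 P Q c := by
  unfold T1
  rw [mul_sum]
  refine sum_congr rfl fun x _ => ?_
  ring

lemma T1_const (P Q : WS) (r : ℝ) : T1 P Q (fun _ => r) = r * (mass P + mass Q) := by
  have h := T1_mul P Q r (fun _ => 1)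
  rw [T1_one] at h
  rw [← h]
  unfold T1
  refine sum_congr rfl fun x _ => ?_
  ring

lemma T2_add (P Q : WS) (g h : P3 → P3 → ℝ) :
    T2 P Q (fun x y => g x y + h x y) = T2 P Q g + T2 P Q h := by
  unfold T2
  simp only [← sum_add_distrib]
  refine sum_congr rfl fun x _ => sum_congr rfl fun y _ => ?_
  ring

lemma T2_sub (P Q : WS) (g h : P3 → P3 → ℝ) :
    T2 P Q (fun x y => g x y - h x y) = T2 P Q g - T2 P Q h := by
  unfold T2
  simp only [← sum_sub_distrib]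
  refine sum_congr rfl fun x _ => sum_congr rfl fun y _ => ?_
  ring

lemma T2_mul (P Q : WS) (r : ℝ) (g : P3 → P3 → ℝ) :
    T2 P Q (fun x y => r * g x y) = r * T2 P Q g := by
  unfold T2
  simp only [mul_sum]
  refine sum_congr rfl fun x _ => sum_congr rfl fun y _ => ?_
  ring

lemma T2_const (P Q : WS) (r : ℝ) : T2 P Q (fun _ _ => r) = r * (mass P + mass Q) ^ 2 := by
  rw [T2_eq]
  have h : ∀ x : P3, T1 P Q (fun _ => r) = r * (mass P + mass Q) := fun _ => T1_const P Q r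
  rw [show (fun x : P3 => T1 P Q ((fun _ _ => r : P3 → P3 → ℝ) x))
    = fun _ => r * (mass P + mass Q) from funext h, T1_const]
  ring

lemma T3_add (P Q : WS) (F G : P3 → P3 → P3 → ℝ) :
    T3 P Q (fun x y z => F x y z + G x y z) = T3 P Q F + T3 P Q G :=
  tri_add _ _ _ _

lemma T3_mul (P Q : WS) (r : ℝ) (F : P3 → P3 → P3 → ℝ) :
    T3 P Q (fun x y z => r * F x y z) = r * T3 P Q F :=
  tri_smul _ _ _ _

lemma T3_sub (P Q : WS) (F G : P3 → P3 → P3 → ℝ) :
    T3 P Q (fun x y z => F x y z - G x y z) = T3 P Q F - T3 P Q G := by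
  have h := T3_add P Q (fun x y z => F x y z - G x y z) G
  have h2 : (fun x y z => F x y z - G x y z + G x y z) = F := by
    funext x y z
    ring
  rw [h2] at h
  linarith

lemma T3_prod (P Q : WS) (c : P3 → ℝ) (g : P3 → P3 → ℝ) :
    T3 P Q (fun x y z => c x * g y z) = T1 P Q c * T2 P Q g := by
  rw [T3_eq]
  simp only [T2_mul]
  unfold T1
  rw [sum_mul]
  refine sum_congr rfl fun x _ => ?_
  ring

lemma T3_fst (P Q : WS) (c : P3 → ℝ) :
    T3 P Q (fun x _ _ => c x) = T1 P Q c * (mass P + mass Q) ^ 2 := by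
  have h := T3_prod P Q c (fun _ _ => 1)
  rw [T2_const, one_mul] at h
  rw [← h]
  congr 1
  funext x y z
  ring

lemma T3_const (P Q : WS) (r : ℝ) :
    T3 P Q (fun _ _ _ => r) = r * (mass P + mass Q) ^ 3 := by
  rw [T3_fst P Q (fun _ => r), T1_const]
  ring

/-- the points of the frame -/
def InR (D K : ℤ) (x : P3) : Prop := -D - 11 ≤ x.2 ∧ x.2 ≤ 2 * K

lemma Env.inR {P Q : WS} {D K V E N : ℤ} {ξR ξL : ℤ → ℝ} (h : Env P Q D K V E N ξR ξL)
    {x : P.ι ⊕ Q.ι} (hx : x ∈ st3 P Q) (h0 : wt3 P Q x ≠ 0) : InR D K (pt3 P Q x) := by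
  unfold st3 at hx
  rw [mem_disjSum] at hx
  rcases hx with ⟨a, ha, rfl⟩ | ⟨b, hb, rfl⟩
  · exact ⟨h.lP a ha h0, h.uP a ha h0⟩
  · exact ⟨h.lQ b hb h0, h.uQ b hb h0⟩

lemma Env.T1_mono {P Q : WS} {D K V E N : ℤ} {ξR ξL : ℤ → ℝ} (h : Env P Q D K V E N ξR ξL)
    {c d : P3 → ℝ} (hcd : ∀ x, InR D K x → c x ≤ d x) : T1 P Q c ≤ T1 P Q d := by
  refine sum_le_sum fun x hx => ?_
  by_cases h0 : wt3 P Q x = 0
  · rw [h0, zero_mul, zero_mul]
  · exact mul_le_mul_of_nonneg_left (hcd _ (h.inR hx h0)) (wt3_nonneg h.gP h.gQ x hx)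

lemma Env.T1_nonneg {P Q : WS} {D K V E N : ℤ} {ξR ξL : ℤ → ℝ} (h : Env P Q D K V E N ξR ξL)
    {c : P3 → ℝ} (hc : ∀ x, InR D K x → 0 ≤ c x) : 0 ≤ T1 P Q c := by
  have h1 := h.T1_mono (c := fun _ => 0) hc
  rw [T1_const, zero_mul] at h1
  exact h1

lemma Env.T3_mono {P Q : WS} {D K V E N : ℤ} {ξR ξL : ℤ → ℝ} (h : Env P Q D K V E N ξR ξL)
    {F G : P3 → P3 → P3 → ℝ}
    (hFG : ∀ x y z, InR D K x → InR D K y → InR D K z → F x y z ≤ G x y z) :
    T3 P Q F ≤ T3 P Q G := by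
  refine sum_le_sum fun x hx => sum_le_sum fun y hy => sum_le_sum fun z hz => ?_
  by_cases h0 : wt3 P Q x = 0
  · rw [h0]
    simp
  by_cases h1 : wt3 P Q y = 0
  · rw [h1]
    simp
  by_cases h2 : wt3 P Q z = 0
  · rw [h2]
    simp
  exact mul_le_mul_of_nonneg_left (hFG _ _ _ (h.inR hx h0) (h.inR hy h1) (h.inR hz h2))
    (mul_nonneg (mul_nonneg (wt3_nonneg h.gP h.gQ x hx) (wt3_nonneg h.gP h.gQ y hy))
      (wt3_nonneg h.gP h.gQ z hz))

/-! ### Coverage -/

/-- right coordinate: distance to the point `2 D` -/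
def rc (D : ℤ) (x : P3) : ℤ := if x.1 then x.2 else D - x.2

/-- left coordinate: distance to the point `D` -/
def lc (D : ℤ) (x : P3) : ℤ := if x.1 then D - x.2 else x.2

/-- what the pair `y` (single), `z` (doubled) covers, seen through the price `g` of the right
labels; `G` = majorant for the midpoints -/
def covR (D : ℤ) (g G : ℤ → ℝ) (y z : P3) : ℝ :=
  gdep D g (rc D y - 2 * rc D z)
    + 1 / 2 * (if rc D y < 0 ∨ rc D z < 0 then G (-rc D y - rc D z) else 0)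

/-- the same for the left labels -/
def covL (D : ℤ) (g G : ℤ → ℝ) (y z : P3) : ℝ :=
  gdep D g (lc D y - 2 * lc D z)
    + 1 / 2 * (if lc D y < 0 ∨ lc D z < 0 then G (-lc D y - lc D z) else 0)

lemma T2_four (P Q : WS) (g : P3 → P3 → ℝ) :
    T2 P Q g = ∑ a ∈ P.S, ∑ a' ∈ P.S, P.f a * P.f a' * g (false, P.u a) (false, P.u a')
      + ∑ a ∈ P.S, ∑ b ∈ Q.S, P.f a * Q.f b * g (false, P.u a) (true, Q.u b)
      + (∑ b ∈ Q.S, ∑ a ∈ P.S, Q.f b * P.f a * g (true, Q.u b) (false, P.u a)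
      + ∑ b ∈ Q.S, ∑ b' ∈ Q.S, Q.f b * Q.f b' * g (true, Q.u b) (true, Q.u b')) := by
  rw [T2_eq]
  simp only [T1_eq]
  rw [← sum_add_distrib, ← sum_add_distrib]
  congr 1
  · refine sum_congr rfl fun a _ => ?_
    rw [mul_add, mul_sum, mul_sum]
    congr 1
    · exact sum_congr rfl fun a' _ => by ring
    · exact sum_congr rfl fun a' _ => by ring
  · refine sum_congr rfl fun a _ => ?_
    rw [mul_add, mul_sum, mul_sum]
    congr 1
    · exact sum_congr rfl fun a' _ => by ring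
    · exact sum_congr rfl fun a' _ => by ring

lemma sum_gdep (D : ℤ) (g : ℤ → ℝ) (s0 : ℤ) (r : ℝ) :
    ∑ s ∈ Ico 0 D, (if s0 = s then r * g s else 0) = r * gdep D g (D - s0) := by
  rw [sum_ite_eq]
  unfold gdep
  rw [show D - (D - s0) = s0 by ring]
  by_cases c : 0 ≤ s0 ∧ s0 < D
  · rw [if_pos (by rw [mem_Ico]; exact c), if_pos (by omega)]
  · rw [if_neg (by rw [mem_Ico]; exact c), if_neg (by omega), mul_zero]

/-- the labels of the pairs, coverage with a bound `B` of the midpoints -/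
lemma cov2_aux {P Q : WS} {D K V E N : ℤ} {ξR ξL : ℤ → ℝ} (h : Env P Q D K V E N ξR ξL)
    {g : ℤ → ℝ} (hg : ∀ s, 0 ≤ s → s < D → 0 ≤ g s) {B : ℝ}
    (hB : ∑ s ∈ Ico 0 D, ξR s * g s
      ≤ strayC Q (fun τ => ex1g Q D V g τ) + strayC P (fun τ => ex2g P D g τ) + B) :
    ∑ s ∈ Ico 0 D, g s ≤ T2 P Q (fun y z => gdep D g (rc D y - 2 * rc D z)) + B := by
  have hD := h.hD
  have hK := h.hK
  have h2 : ∑ s ∈ Ico 0 D, g s ≤ ∑ s ∈ Ico 0 D, rr P Q s * g s
      + ∑ s ∈ Ico 0 D, qq Q (D - s) * g s + ∑ s ∈ Ico 0 D, ξR s * g s := by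
    rw [← sum_add_distrib, ← sum_add_distrib]
    refine sum_le_sum fun s hs => ?_
    rw [mem_Ico] at hs
    have e1 := h.cR s hs.1 hs.2
    have e2 := hg s hs.1 hs.2
    nlinarith
  -- PQ
  have a1 : ∑ s ∈ Ico 0 D, rr P Q s * g s
      = ∑ a ∈ P.S, ∑ b ∈ Q.S, P.f a * Q.f b * gdep D g (D - P.u a - 2 * Q.u b) := by
    have e : ∀ s ∈ Ico 0 D, rr P Q s * g s = ∑ a ∈ P.S, ∑ b ∈ Q.S,
        (if P.u a + 2 * Q.u b = s then P.f a * Q.f b * g s else 0) := by
      intro s _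
      unfold rr
      rw [sum_mul]
      refine sum_congr rfl fun a _ => ?_
      rw [sum_mul]
      refine sum_congr rfl fun b _ => ?_
      rw [ite_mul']
    rw [sum_congr rfl e, sum_comm]
    refine sum_congr rfl fun a _ => ?_
    rw [sum_comm]
    refine sum_congr rfl fun b _ => ?_
    rw [sum_gdep, show D - (P.u a + 2 * Q.u b) = D - P.u a - 2 * Q.u b by ring]
  -- QQ, doubled
  have a2 : ∑ s ∈ Ico 0 D, qq Q (D - s) * g s + strayC Q (fun τ => ex1g Q D V g τ)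
      = ∑ q ∈ Q.S, ∑ b ∈ Q.S, Q.f q * Q.f b * gdep D g (Q.u q - 2 * Q.u b) := by
    rw [← sum_ex1g h.hV h.dQ]
    have e : ∀ s ∈ Ico 0 D, qq Q (D - s) * g s + qc Q (D - s) * g s
        = ∑ q ∈ Q.S, ∑ b ∈ Q.S,
          (if D - (Q.u q - 2 * Q.u b) = s then Q.f q * Q.f b * g s else 0) := by
      intro s _
      unfold qq qc
      rw [sum_mul, sum_mul, ← sum_add_distrib]
      refine sum_congr rfl fun a _ => ?_
      rw [sum_mul, sum_mul, ← sum_add_distrib]
      refine sum_congr rfl fun b _ => ?_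
      by_cases c : D - (Q.u a - 2 * Q.u b) = s
      · rw [if_pos c, if_pos (by omega), if_pos (by omega)]
        ring
      · rw [if_neg c, if_neg (by omega), if_neg (by omega)]
        ring
    rw [← sum_add_distrib, sum_congr rfl e, sum_comm]
    refine sum_congr rfl fun a _ => ?_
    rw [sum_comm]
    refine sum_congr rfl fun b _ => ?_
    rw [sum_gdep, show D - (D - (Q.u a - 2 * Q.u b)) = Q.u a - 2 * Q.u b by ring]
  -- PP
  have a3 : strayC P (fun τ => ex2g P D g τ)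
      = ∑ a ∈ P.S, ∑ p ∈ P.S, P.f a * P.f p * gdep D g (D - P.u a - 2 * (D - P.u p)) := by
    unfold strayC ex2g
    refine sum_congr rfl fun a _ => ?_
    by_cases c : P.u a < 0
    · rw [if_pos c, mul_sum]
      refine sum_congr rfl fun p _ => ?_
      rw [show 2 * P.u p + -P.u a - D = D - P.u a - 2 * (D - P.u p) by ring]
      ring
    · rw [if_neg c, mul_zero]
      refine (sum_eq_zero fun p hp => ?_).symm
      by_cases h0 : P.f p = 0
      · rw [h0]
        ring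
      · have := h.uP p hp h0
        unfold gdep
        rw [if_neg (by omega), mul_zero]
  -- QP
  have a4 : ∑ b ∈ Q.S, ∑ a ∈ P.S, Q.f b * P.f a * gdep D g (Q.u b - 2 * (D - P.u a)) = 0 := by
    refine sum_eq_zero fun b hb => sum_eq_zero fun a ha => ?_
    by_cases h0 : P.f a = 0
    · rw [h0]
      ring
    · by_cases h0' : Q.f b = 0
      · rw [h0']
        ring
      · have k1 := h.uP a ha h0
        have k2 := h.uQ b hb h0'
        unfold gdep
        rw [if_neg (by omega), mul_zero]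
  refine (h2.trans (add_le_add le_rfl hB)).trans (le_of_eq ?_)
  rw [T2_four]
  have t1 : ∑ a ∈ P.S, ∑ a' ∈ P.S, P.f a * P.f a'
        * gdep D g (rc D (false, P.u a) - 2 * rc D (false, P.u a'))
      = ∑ a ∈ P.S, ∑ p ∈ P.S, P.f a * P.f p * gdep D g (D - P.u a - 2 * (D - P.u p)) := rfl
  have t2 : ∑ a ∈ P.S, ∑ b ∈ Q.S, P.f a * Q.f b
        * gdep D g (rc D (false, P.u a) - 2 * rc D (true, Q.u b))
      = ∑ a ∈ P.S, ∑ b ∈ Q.S, P.f a * Q.f b * gdep D g (D - P.u a - 2 * Q.u b) := rfl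
  have t3 : ∑ b ∈ Q.S, ∑ a ∈ P.S, Q.f b * P.f a
        * gdep D g (rc D (true, Q.u b) - 2 * rc D (false, P.u a))
      = ∑ b ∈ Q.S, ∑ a ∈ P.S, Q.f b * P.f a * gdep D g (Q.u b - 2 * (D - P.u a)) := rfl
  have t4 : ∑ b ∈ Q.S, ∑ b' ∈ Q.S, Q.f b * Q.f b'
        * gdep D g (rc D (true, Q.u b) - 2 * rc D (true, Q.u b'))
      = ∑ q ∈ Q.S, ∑ b ∈ Q.S, Q.f q * Q.f b * gdep D g (Q.u q - 2 * Q.u b) := rfl
  rw [t1, t2, t3, t4, a4, a1, a3, ← a2]
  ring

/-- midpoints of the right side -/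
def midk (D : ℤ) (G : ℤ → ℝ) (y z : P3) : ℝ :=
  1 / 2 * (if rc D y < 0 ∨ rc D z < 0 then G (-rc D y - rc D z) else 0)

lemma T2_midk {P Q : WS} {D K V E N : ℤ} {ξR ξL : ℤ → ℝ} (h : Env P Q D K V E N ξR ξL)
    (G : ℤ → ℝ) : strayC Q (fun τ => midg P Q D G halves τ) = T2 P Q (midk D G) := by
  have hD := h.hD
  have hK := h.hK
  have a5 : strayC Q (fun τ => midg P Q D G halves τ)
      = ∑ b ∈ Q.S, ∑ q ∈ Q.S, Q.f b * Q.f q * (1 / 2 *
          (if Q.u b < 0 ∨ Q.u q < 0 then G (-Q.u b - Q.u q) else 0))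
        + (∑ b ∈ Q.S, ∑ a ∈ P.S, Q.f b * P.f a * (1 / 2 *
            (if Q.u b < 0 then G (-Q.u b - (D - P.u a)) else 0))
          + ∑ a ∈ P.S, ∑ b ∈ Q.S, P.f a * Q.f b * (1 / 2 *
            (if Q.u b < 0 then G (-(D - P.u a) - Q.u b) else 0))) := by
    have e1 : ∑ a ∈ P.S, ∑ b ∈ Q.S, P.f a * Q.f b * (1 / 2 *
            (if Q.u b < 0 then G (-(D - P.u a) - Q.u b) else 0))
        = ∑ b ∈ Q.S, ∑ a ∈ P.S, Q.f b * P.f a * (1 / 2 *
            (if Q.u b < 0 then G (-Q.u b - (D - P.u a)) else 0)) := by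
      rw [sum_comm]
      refine sum_congr rfl fun b _ => sum_congr rfl fun a _ => ?_
      rw [show -(D - P.u a) - Q.u b = -Q.u b - (D - P.u a) by ring]
      ring
    -- the pairs of one side
    have e2 : ∑ b ∈ Q.S, ∑ q ∈ Q.S, Q.f b * Q.f q * (1 / 2 *
          (if Q.u b < 0 ∨ Q.u q < 0 then G (-Q.u b - Q.u q) else 0))
        = ∑ b ∈ Q.S, ∑ q ∈ Q.S, Q.f b * Q.f q * (if Q.u b < 0 then
          (if Q.u q < 0 then 1 / 2 else 1) * G (-Q.u b - Q.u q) else 0) := by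
      have f1 : ∑ b ∈ Q.S, ∑ q ∈ Q.S, Q.f b * Q.f q * (1 / 2 *
          (if Q.u b < 0 ∧ ¬ Q.u q < 0 then G (-Q.u b - Q.u q) else 0))
          = ∑ b ∈ Q.S, ∑ q ∈ Q.S, Q.f b * Q.f q * (1 / 2 *
          (if ¬ Q.u b < 0 ∧ Q.u q < 0 then G (-Q.u b - Q.u q) else 0)) := by
        rw [sum_comm]
        refine sum_congr rfl fun b _ => sum_congr rfl fun q _ => ?_
        rw [show -Q.u q - Q.u b = -Q.u b - Q.u q by ring]
        have : (if Q.u q < 0 ∧ ¬ Q.u b < 0 then G (-Q.u b - Q.u q) else 0)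
            = (if ¬ Q.u b < 0 ∧ Q.u q < 0 then G (-Q.u b - Q.u q) else 0) :=
          if_congr (by tauto) rfl rfl
        rw [this]
        ring
      have f2 : ∑ b ∈ Q.S, ∑ q ∈ Q.S, Q.f b * Q.f q * (1 / 2 *
          (if Q.u b < 0 ∨ Q.u q < 0 then G (-Q.u b - Q.u q) else 0))
          = ∑ b ∈ Q.S, ∑ q ∈ Q.S, Q.f b * Q.f q * (1 / 2 *
            (if Q.u b < 0 ∧ Q.u q < 0 then G (-Q.u b - Q.u q) else 0))
          + ∑ b ∈ Q.S, ∑ q ∈ Q.S, Q.f b * Q.f q * (1 / 2 *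
            (if Q.u b < 0 ∧ ¬ Q.u q < 0 then G (-Q.u b - Q.u q) else 0))
          + ∑ b ∈ Q.S, ∑ q ∈ Q.S, Q.f b * Q.f q * (1 / 2 *
            (if ¬ Q.u b < 0 ∧ Q.u q < 0 then G (-Q.u b - Q.u q) else 0)) := by
        simp only [← sum_add_distrib]
        refine sum_congr rfl fun b _ => sum_congr rfl fun q _ => ?_
        by_cases c1 : Q.u b < 0 <;> by_cases c2 : Q.u q < 0 <;> simp [c1, c2]
      rw [f2, ← f1]
      simp only [← sum_add_distrib]
      refine sum_congr rfl fun b _ => sum_congr rfl fun q _ => ?_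
      by_cases c1 : Q.u b < 0
      · by_cases c2 : Q.u q < 0
        · simp only [c1, c2, not_true_eq_false, and_true, and_false, if_true, if_false]
          ring
        · simp only [c1, c2, not_false_eq_true, and_true, and_false, if_true, if_false]
          ring
      · simp only [c1, false_and, if_false]
        ring
    rw [e1, e2, ← sum_add_distrib, ← sum_add_distrib]
    unfold strayC midg
    refine sum_congr rfl fun b _ => ?_
    beta_reduce
    by_cases c : Q.u b < 0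
    · rw [if_pos c, mul_add, mul_sum, mul_sum, ← sum_add_distrib]
      congr 1
      · refine sum_congr rfl fun q _ => ?_
        rw [if_pos c]
        unfold halves
        ring
      · refine sum_congr rfl fun a _ => ?_
        rw [if_pos c, show -Q.u b - (D - P.u a) = -Q.u b + P.u a - D by ring]
        ring
    · rw [if_neg c, mul_zero, ← sum_add_distrib]
      rw [sum_eq_zero fun q _ => by rw [if_neg c, mul_zero],
        sum_eq_zero fun a _ => by rw [if_neg c]; ring, add_zero]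
  rw [a5, T2_four]
  have t1 : ∑ a ∈ P.S, ∑ a' ∈ P.S, P.f a * P.f a' * midk D G (false, P.u a) (false, P.u a')
      = 0 := by
    refine sum_eq_zero fun a ha => sum_eq_zero fun p hp => ?_
    by_cases h0 : P.f p = 0
    · rw [h0]
      ring
    · by_cases h0' : P.f a = 0
      · rw [h0']
        ring
      · have k1 := h.uP p hp h0
        have k2 := h.uP a ha h0'
        unfold midk rc
        simp only [Bool.false_eq_true, if_false]
        rw [if_neg (by omega), mul_zero, mul_zero]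
  have t2 : ∑ a ∈ P.S, ∑ b ∈ Q.S, P.f a * Q.f b * midk D G (false, P.u a) (true, Q.u b)
      = ∑ a ∈ P.S, ∑ b ∈ Q.S, P.f a * Q.f b * (1 / 2 *
            (if Q.u b < 0 then G (-(D - P.u a) - Q.u b) else 0)) := by
    refine sum_congr rfl fun a ha => sum_congr rfl fun b hb => ?_
    by_cases h0' : P.f a = 0
    · rw [h0']
      ring
    · have k2 := h.uP a ha h0'
      unfold midk rc
      simp only [Bool.false_eq_true, if_false, if_true]
      by_cases c : Q.u b < 0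
      · rw [if_pos (Or.inr c), if_pos c]
      · rw [if_neg (by omega), if_neg c]
  have t3 : ∑ b ∈ Q.S, ∑ a ∈ P.S, Q.f b * P.f a * midk D G (true, Q.u b) (false, P.u a)
      = ∑ b ∈ Q.S, ∑ a ∈ P.S, Q.f b * P.f a * (1 / 2 *
            (if Q.u b < 0 then G (-Q.u b - (D - P.u a)) else 0)) := by
    refine sum_congr rfl fun b hb => sum_congr rfl fun a ha => ?_
    by_cases h0' : P.f a = 0
    · rw [h0']
      ring
    · have k2 := h.uP a ha h0'
      unfold midk rc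
      simp only [Bool.false_eq_true, if_false, if_true]
      by_cases c : Q.u b < 0
      · rw [if_pos (Or.inl c), if_pos c]
      · rw [if_neg (by omega), if_neg c]
  have t4 : ∑ b ∈ Q.S, ∑ b' ∈ Q.S, Q.f b * Q.f b' * midk D G (true, Q.u b) (true, Q.u b')
      = ∑ b ∈ Q.S, ∑ q ∈ Q.S, Q.f b * Q.f q * (1 / 2 *
          (if Q.u b < 0 ∨ Q.u q < 0 then G (-Q.u b - Q.u q) else 0)) := rfl
  rw [t1, t2, t3, t4]
  ring

/-- COVERAGE OF THE RIGHT LABELS seen through any nonnegative price -/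
theorem cov2R {P Q : WS} {D K V E N : ℤ} {ξR ξL : ℤ → ℝ} (h : Env P Q D K V E N ξR ξL)
    {g G : ℤ → ℝ} (hg : ∀ s, 0 ≤ s → s < D → 0 ≤ g s) (hG : Maj D E g G) :
    ∑ s ∈ Ico 0 D, g s ≤ T2 P Q (covR D g G) := by
  have h1 := h.exR halves halves_add g G hg hG
  rw [strayC_add', T2_midk h] at h1
  refine (cov2_aux h hg (B := T2 P Q (midk D G)) (by linarith)).trans (le_of_eq ?_)
  rw [← T2_add]
  rfl

/-! ### The reflection -/

/-- the other side -/
def flip3 (x : P3) : P3 := (!x.1, x.2)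

lemma T1_swap (P Q : WS) (c : P3 → ℝ) : T1 Q P c = T1 P Q (fun x => c (flip3 x)) := by
  rw [T1_eq, T1_eq, add_comm]
  rfl

lemma T2_swap (P Q : WS) (g : P3 → P3 → ℝ) :
    T2 Q P g = T2 P Q (fun x y => g (flip3 x) (flip3 y)) := by
  rw [T2_eq, T2_eq, T1_swap]
  congr 1
  funext x
  exact T1_swap P Q _

lemma T3_swap (P Q : WS) (F : P3 → P3 → P3 → ℝ) :
    T3 Q P F = T3 P Q (fun x y z => F (flip3 x) (flip3 y) (flip3 z)) := by
  rw [T3_eq, T3_eq, T1_swap]
  congr 1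
  funext x
  exact T2_swap P Q _

lemma rc_flip (D : ℤ) (x : P3) : rc D (flip3 x) = lc D x := by
  obtain ⟨s, u⟩ := x
  cases s <;> rfl

lemma lc_flip (D : ℤ) (x : P3) : lc D (flip3 x) = rc D x := by
  obtain ⟨s, u⟩ := x
  cases s <;> rfl

lemma rc_add_lc (D : ℤ) (x : P3) : rc D x + lc D x = D := by
  obtain ⟨s, u⟩ := x
  cases s
  · change D - u + u = D
    ring
  · change u + (D - u) = D
    ring

/-- COVERAGE OF THE LEFT LABELS seen through any nonnegative price -/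
theorem cov2L {P Q : WS} {D K V E N : ℤ} {ξR ξL : ℤ → ℝ} (h : Env P Q D K V E N ξR ξL)
    {g G : ℤ → ℝ} (hg : ∀ s, 0 ≤ s → s < D → 0 ≤ g s) (hG : Maj D E g G) :
    ∑ s ∈ Ico 0 D, g s ≤ T2 P Q (covL D g G) := by
  have h1 := cov2R h.symm hg hG
  rw [T2_swap] at h1
  refine h1.trans (le_of_eq ?_)
  congr 1
  funext x y
  unfold covR covL
  rw [rc_flip, rc_flip]

/-- what the pair `y` (single), `z` (doubled) covers, both sides, prices of the point `x` -/
def cov3 (D : ℤ) (pR mR pL mL : P3 → ℤ → ℝ) (x y z : P3) : ℝ :=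
  covR D (pR x) (mR x) y z + covL D (pL x) (mL x) y z

/-- COVERAGE, the prices depend on a third point -/
theorem cov3_ge {P Q : WS} {D K V E N : ℤ} {ξR ξL : ℤ → ℝ} (h : Env P Q D K V E N ξR ξL)
    {pR mR pL mL : P3 → ℤ → ℝ}
    (hpR : ∀ x, InR D K x → ∀ s, 0 ≤ s → s < D → 0 ≤ pR x s)
    (hpL : ∀ x, InR D K x → ∀ s, 0 ≤ s → s < D → 0 ≤ pL x s)
    (hmR : ∀ x, InR D K x → Maj D E (pR x) (mR x))
    (hmL : ∀ x, InR D K x → Maj D E (pL x) (mL x)) :
    T1 P Q (fun x => ∑ s ∈ Ico 0 D, (pR x s + pL x s)) ≤ T3 P Q (cov3 D pR mR pL mL) := by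
  rw [T3_eq]
  refine h.T1_mono fun x hx => ?_
  rw [sum_add_distrib]
  unfold cov3
  rw [T2_add]
  exact add_le_add (cov2R h (hpR x hx) (hmR x hx)) (cov2L h (hpL x hx) (hmL x hx))

/-- the label of the pair `y` (single), `z` (doubled) leaves the window of length `3 D` -/
def outp (D : ℤ) (y z : P3) : ℝ :=
  if y.1 = z.1 then (if D + 1 ≤ y.2 - 2 * z.2 then 1 else 0)
  else (if y.2 + 2 * z.2 < 0 then 1 else 0)

lemma T2_outp (P Q : WS) (D : ℤ) : T2 P Q (outp D) = Out.outF P Q D := by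
  rw [T2_four]
  unfold Out.outF Out.nf cc outp
  have t1 : ∑ a ∈ P.S, ∑ a' ∈ P.S, P.f a * P.f a' *
      (if ((false, P.u a) : P3).1 = ((false, P.u a') : P3).1 then
        (if D + 1 ≤ ((false, P.u a) : P3).2 - 2 * ((false, P.u a') : P3).2 then 1 else 0)
        else (if ((false, P.u a) : P3).2 + 2 * ((false, P.u a') : P3).2 < 0 then (1:ℝ) else 0))
      = ∑ a ∈ P.S, ∑ b ∈ P.S, (if D + 1 ≤ P.u a - 2 * P.u b then P.f a * P.f b else 0) := by
    refine sum_congr rfl fun a _ => sum_congr rfl fun b _ => ?_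
    simp
  have t2 : ∑ a ∈ P.S, ∑ a' ∈ Q.S, P.f a * Q.f a' *
      (if ((false, P.u a) : P3).1 = ((true, Q.u a') : P3).1 then
        (if D + 1 ≤ ((false, P.u a) : P3).2 - 2 * ((true, Q.u a') : P3).2 then 1 else 0)
        else (if ((false, P.u a) : P3).2 + 2 * ((true, Q.u a') : P3).2 < 0 then (1:ℝ) else 0))
      = ∑ a ∈ P.S, ∑ b ∈ Q.S, (if P.u a + 2 * Q.u b < 0 then P.f a * Q.f b else 0) := by
    refine sum_congr rfl fun a _ => sum_congr rfl fun b _ => ?_
    simp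
  have t3 : ∑ a ∈ Q.S, ∑ a' ∈ P.S, Q.f a * P.f a' *
      (if ((true, Q.u a) : P3).1 = ((false, P.u a') : P3).1 then
        (if D + 1 ≤ ((true, Q.u a) : P3).2 - 2 * ((false, P.u a') : P3).2 then 1 else 0)
        else (if ((true, Q.u a) : P3).2 + 2 * ((false, P.u a') : P3).2 < 0 then (1:ℝ) else 0))
      = ∑ a ∈ Q.S, ∑ b ∈ P.S, (if Q.u a + 2 * P.u b < 0 then Q.f a * P.f b else 0) := by
    refine sum_congr rfl fun a _ => sum_congr rfl fun b _ => ?_
    simp
  have t4 : ∑ a ∈ Q.S, ∑ a' ∈ Q.S, Q.f a * Q.f a' *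
      (if ((true, Q.u a) : P3).1 = ((true, Q.u a') : P3).1 then
        (if D + 1 ≤ ((true, Q.u a) : P3).2 - 2 * ((true, Q.u a') : P3).2 then 1 else 0)
        else (if ((true, Q.u a) : P3).2 + 2 * ((true, Q.u a') : P3).2 < 0 then (1:ℝ) else 0))
      = ∑ a ∈ Q.S, ∑ b ∈ Q.S, (if D + 1 ≤ Q.u a - 2 * Q.u b then Q.f a * Q.f b else 0) := by
    refine sum_congr rfl fun a _ => sum_congr rfl fun b _ => ?_
    simp
  rw [t1, t2, t3, t4]
  ring

lemma winM_le {P Q : WS} (hP : Good P) (hQ : Good Q) (D x : ℤ) : winM P Q D x ≤ tm P Q := by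
  unfold winM tm mass
  refine add_le_add (sum_le_sum fun a ha => ?_) (sum_le_sum fun b hb => ?_)
  · refine mul_le_of_le_one_right (hP.f_nonneg a ha) ?_
    split_ifs <;> norm_num
  · refine mul_le_of_le_one_right (hQ.f_nonneg b hb) ?_
    split_ifs <;> norm_num

end

end MP61673a.Fin
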