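import Pool.Agent.Mu673.AsmE
import Pool.Agent.Mu673.OutNetE
import Pool.Agent.Mu673.Pts

/-!
THREE-POINT FORM OF A FRAME: the facts of `EnvS` (square of the total mass, far share, parity count)
as sums over triples of points, see `Pts`.
-/

namespace MP61673a.Fin

open Finset MP61673a.W MP61673a.LiftW MP61673a.Mids MP61673a.Sos
open MP61673a.Lift hiding PP QQ

noncomputable section

/-! ### The other facts -/

lemma EnvS.sq_le {K0 : ℤ} {f : ℝ} {P Q : WS} {D K ρ V E N : ℤ} {ξR ξL : ℤ → ℝ}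
    (h : EnvS K0 f P Q D K ρ V E N ξR ξL) : (mass P + mass Q) ^ 2 ≤ 3 * D + 11 := by
  have h1 := h.hm
  have h2 : (0:ℝ) ≤ E := by exact_mod_cast h.hE
  linarith

/-- far share, times any nonnegative function of the two other points -/
def far3 (D : ℤ) (f : ℝ) (ν : P3 → P3 → ℝ) (x y z : P3) : ℝ :=
  ν x y * ((if 31 * D + 120 * z.2 ≤ 0 then 1 else 0) - f)

lemma far3_le {K0 : ℤ} {f : ℝ} {P Q : WS} {D K ρ V E N : ℤ} {ξR ξL : ℤ → ℝ}
    (h : EnvS K0 f P Q D K ρ V E N ξR ξL) {ν : P3 → P3 → ℝ} (hν : ∀ x y, 0 ≤ ν x y) :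
    T3 P Q (far3 D f ν) ≤ 0 := by
  -- the far share as a sum over the points
  have h1 : T1 P Q (fun z => (if 31 * D + 120 * z.2 ≤ 0 then 1 else 0) - f) ≤ 0 := by
    have e := h.far ((31 * D + 119) / 120) (by omega)
    rw [T1_sub, T1_const, T1_eq]
    unfold farM at e
    have e1 : ∑ a ∈ P.S, P.f a * (if 31 * D + 120 * ((false, P.u a) : P3).2 ≤ 0 then 1 else 0)
        = ∑ a ∈ P.S, (if P.u a ≤ -((31 * D + 119) / 120) then P.f a else 0) := by
      refine sum_congr rfl fun a _ => ?_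
      by_cases c : P.u a ≤ -((31 * D + 119) / 120)
      · rw [if_pos c, if_pos (show 31 * D + 120 * P.u a ≤ 0 by omega), mul_one]
      · rw [if_neg c, if_neg (show ¬ 31 * D + 120 * P.u a ≤ 0 by omega), mul_zero]
    have e2 : ∑ b ∈ Q.S, Q.f b * (if 31 * D + 120 * ((true, Q.u b) : P3).2 ≤ 0 then 1 else 0)
        = ∑ b ∈ Q.S, (if Q.u b ≤ -((31 * D + 119) / 120) then Q.f b else 0) := by
      refine sum_congr rfl fun b _ => ?_
      by_cases c : Q.u b ≤ -((31 * D + 119) / 120)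
      · rw [if_pos c, if_pos (show 31 * D + 120 * Q.u b ≤ 0 by omega), mul_one]
      · rw [if_neg c, if_neg (show ¬ 31 * D + 120 * Q.u b ≤ 0 by omega), mul_zero]
    rw [e1, e2]
    linarith
  have h2 : T3 P Q (far3 D f ν)
      = ∑ x ∈ st3 P Q, ∑ y ∈ st3 P Q, wt3 P Q x * wt3 P Q y * ν (pt3 P Q x) (pt3 P Q y)
        * T1 P Q (fun z => (if 31 * D + 120 * z.2 ≤ 0 then 1 else 0) - f) := by
    unfold T3 tri T1 far3
    refine sum_congr rfl fun x _ => sum_congr rfl fun y _ => ?_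
    rw [mul_sum]
    refine sum_congr rfl fun z _ => ?_
    ring
  rw [h2]
  have w := wt3_nonneg h.gP h.gQ
  refine sum_nonpos fun x hx => sum_nonpos fun y hy => ?_
  exact mul_nonpos_of_nonneg_of_nonpos
    (mul_nonneg (mul_nonneg (w x hx) (w y hy)) (hν _ _)) h1

/-- parity count fact, times any nonnegative function of the third point -/
def out3 (D : ℤ) (o : P3 → ℝ) (x y z : P3) : ℝ := o x * (outp D y z - 5 / 18)

lemma out3_le {K0 : ℤ} {f : ℝ} {P Q : WS} {D K ρ V E N : ℤ} {ξR ξL : ℤ → ℝ}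
    (h : EnvS K0 f P Q D K ρ V E N ξR ξL) {o : P3 → ℝ} {o0 : ℝ}
    (ho : ∀ x, InR D K x → 0 ≤ o x) (ho1 : ∀ x, InR D K x → o x ≤ o0) (ho0 : 0 ≤ o0) :
    T3 P Q (out3 D o) ≤ 11 * o0 * (3 * D + 11) := by
  obtain ⟨x, hx⟩ := h.out
  have w := winM_le h.gP h.gQ D x
  have hm := tm_nonneg h.gP h.gQ
  have e1 : Out.outF P Q D ≤ 5 / 18 * tm P Q ^ 2 + 11 * tm P Q := by
    have : 0 ≤ tm P Q * (tm P Q - winM P Q D x) := mul_nonneg hm (by unfold tm at *; linarith)
    linarith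
  unfold out3
  rw [T3_prod P Q o (fun y z => outp D y z - 5 / 18), T2_sub, T2_const, T2_outp]
  have e2 : 0 ≤ T1 P Q o := h.T1_nonneg ho
  have e3 : T1 P Q o ≤ o0 * (mass P + mass Q) := by
    rw [← T1_const]
    exact h.T1_mono ho1
  have e4 : Out.outF P Q D - 5 / 18 * (mass P + mass Q) ^ 2 ≤ 11 * (mass P + mass Q) := by
    unfold tm at e1
    linarith
  have e5 := h.sq_le
  have e6 : 0 ≤ mass P + mass Q := hm
  calc T1 P Q o * (Out.outF P Q D - 5 / 18 * (mass P + mass Q) ^ 2)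
      ≤ T1 P Q o * (11 * (mass P + mass Q)) := mul_le_mul_of_nonneg_left e4 e2
    _ ≤ o0 * (mass P + mass Q) * (11 * (mass P + mass Q)) :=
        mul_le_mul_of_nonneg_right e3 (by positivity)
    _ = 11 * o0 * (mass P + mass Q) ^ 2 := by ring
    _ ≤ 11 * o0 * (3 * D + 11) := mul_le_mul_of_nonneg_left e5 (by positivity)

end

end MP61673a.Fin
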