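import Pool.Agent.Mu673.Row9
import Pool.Agent.Mu673.RowLinkF

/-!
FAST VERSION OF THE NODE CHECKS OF THE IN ROWS (helper44), as `RowLinkF` (helper89): one packed
comparison for the node conditions of all zones, `chkFrF` for the end point rule, end tables equal to
an earlier table of the node are skipped. `NdsOK9.of_checkF` replaces `NdsOK9.of_check`.
-/

set_option autoImplicit false

namespace MP61673a.Row9

open Finset MP61673a.Kink MP61673a.FE MP61673a.KC MP61673a.RowI MP61673a.KCF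

/-! ### Kernel functions -/

/-- the tests of the zone conditions at the cuts -/
def cuts9 (c : CutI) (q : PrcI) (x0 x1 x2 x3 x4 ec L : ℕ) : Bool :=
  pcC c.td c.a0 c.t0 (fz0 x0 (dg ec 0)) L
  && (pcC c.td c.a0 c.t0 (fz1 q.p0 c.a0 x0 (dg ec 1)) L
  && (pcC c.td c.a1 c.t1 (fz1 q.p0 c.a0 x0 (dg ec 1)) L
  && (pcC c.td c.a1 c.t1 (fz1 q.p1 c.a1 x1 (dg ec 2)) L
  && (pcC c.td c.a1 c.t1 (fz1 q.p1 c.a1 x2 (dg ec 3)) L
  && (pcC c.td c.a2 c.t2 (fz1 q.p1 c.a1 x2 (dg ec 3)) L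
  && (pcC c.td c.a2 c.t2 (fz0 x2 (dg ec 4)) L
  && (pcC c.td c.a3 c.t3 (fz0 x2 (dg ec 4)) L
  && (pcC c.td c.a3 c.t3 (fz1 q.p2 c.a3 x2 (dg ec 5)) L
  && (pcC c.td c.a4 c.t4 (fz1 q.p2 c.a3 x2 (dg ec 5)) L
  && (pcC c.td c.a4 c.t4 (fz1 q.p2 c.a3 x3 (dg ec 6)) L
  && (pcC c.td c.a4 c.t4 (fz1 q.p3 c.a4 x4 (dg ec 7)) L
  && (pcC c.td c.a5 c.t5 (fz1 q.p3 c.a4 x4 (dg ec 7)) L
  && pcC c.td c.a5 c.t5 (fz0 x4 (dg ec 8)) L))))))))))))

/-- fast form of `chkE95` -/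
def chkE95F (c : CutI) (q : PrcI) (g x0 x1 x2 x3 x4 : ℕ) (e : EctI) (w : ℕ) : Bool :=
  mask 37 9 e.c && frcB (exw c x0 x2 x4) (fun x =>
    mask 37 (Nat.succ c.n) (Nat.mod x (bp (Nat.succ c.n)))
    && frcB (Nat.add (Nat.add g x) (ctab c e.c)) (fun B => frcB (Nat.add B (ltc c e.l)) (fun L =>
      mask 37 (Nat.succ (Nat.mul 3 c.n)) L && (leA (Nat.succ c.n) L B
        && (cuts9 c q x0 x1 x2 x3 x4 e.c L && chkFrF c.n L w)))))

/-- the same, five words of extra costs -/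
def chkE5F (c : CutI) (q : PrcI) (g : ℕ) (ex : ℕ → ℕ) (e : EctI) (w : ℕ) : Bool :=
  frcB (ex 0) (fun x0 => frcB (ex 1) (fun x1 => frcB (ex 2) (fun x2 => frcB (ex 3) (fun x3 =>
    frcB (ex 4) (fun x4 => chkE95F c q g x0 x1 x2 x3 x4 e w)))))

/-- the end tables `k` and `j` of the node `z` agree -/
def same9 (d : DatR) (r : RC9) (exf : ℕ → ℕ → ℕ → ℕ) (z k j : ℕ) : Bool :=
  Nat.beq (nth ⟨0, []⟩ (sgR d.segs z).cb k).w (nth ⟨0, []⟩ (sgR d.segs z).cb j).w
  && (Nat.beq (nth enD (nth16 [] r.ec z) k).c (nth enD (nth16 [] r.ec z) j).c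
  && (Nat.beq (nth enD (nth16 [] r.ec z) k).l (nth enD (nth16 [] r.ec z) j).l
  && (Nat.beq (exf z k 0) (exf z j 0) && (Nat.beq (exf z k 1) (exf z j 1)
  && (Nat.beq (exf z k 2) (exf z j 2) && (Nat.beq (exf z k 3) (exf z j 3)
  && Nat.beq (exf z k 4) (exf z j 4)))))))

/-- some `j < n` satisfies `f` -/
def anyL (n : ℕ) (f : ℕ → Bool) : Bool :=
  Nat.rec (motive := fun _ => Bool) false (fun j ih => orL (f j) ih) n

/-- fast form of `chkNd9` -/
noncomputable def chkNd9F (d : DatR) (r : RC9) (exf : ℕ → ℕ → ℕ → ℕ) (mcf mxf : ℕ → ℕ)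
    (z : ℕ) : Bool :=
  onP9 (nth16 pnD r.pr z) (fun q => chkB9 d r (mcf z) (mxf z) z q
    && frcB (gtab r.c q.q) (fun g => allN r.nk (fun k => orL (anyL k (same9 d r exf z k))
      (onE9 (nth enD (nth16 [] r.ec z) k)
        (fun e => frcB (wR d z k) (fun w => chkE5F r.c q.q g (exf z k) e w))))))

/-- the nodes `lo, .., hi - 1`, fast -/
noncomputable def chkNds9F (d : DatR) (r : RC9) (exf : ℕ → ℕ → ℕ → ℕ) (mcf mxf : ℕ → ℕ)
    (lo hi : ℕ) : Bool :=
  allN (Nat.sub hi lo) (fun z' => frcB (Nat.add lo z') (fun z => chkNd9F d r exf mcf mxf z))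

/-! ### The packed base word -/

/-- zone of a digit -/
def zi9 (c : CutI) (y : ℕ) : ℕ :=
  if y ≤ c.a0 then 0 else if y ≤ c.a1 then 1 else if y ≤ c.a2 then 3 else if y ≤ c.a3 then 4
  else if y ≤ c.a4 then 5 else if y ≤ c.a5 then 7 else 8

lemma dg_mulrep {m v y : ℕ} (hv : v < 2 ^ 40) (hy : y < m) : dg (Nat.mul v (rep m)) y = v := by
  have h4 := ((Rp.rep m).mul v).dg (fun c _ => ⟨by positivity, by
    rw [mul_one]
    exact_mod_cast hv⟩) hy
  have h6 : (dg (Nat.mul v (rep m)) y : ℤ) = ((v : ℕ) : ℤ) := by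
    rw [h4]
    ring
  exact_mod_cast h6

lemma dg_zero (y : ℕ) : dg 0 y = 0 := by
  unfold dg
  show Nat.land (0 >>> (40 * y)) 1099511627775 = 0
  rw [Nat.zero_shiftRight]
  rfl

section

variable {c : CutI} {q : PrcI} {y : ℕ}

lemma ctab_dg (hc : CIOK c) (ec : ℕ) (hy : y ≤ c.n) : dg (ctab c ec) y = dg ec (zi9 c y) := by
  obtain ⟨o0, o1, o2, o3, o4, o5, -⟩ := id hc
  have b : ∀ i, dg ec i < 2 ^ 40 := fun i => dg_lt ec i
  unfold ctab zi9
  simp only [Nat.succ_eq_add_one, Nat.sub_eq]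
  split_ifs with h0 h1 h2 h3 h4 h5
  · rw [dg_cat, if_pos (show y < c.a0 + 1 by omega), dg_mulrep (b _) (show y < c.a0 + 1 by omega)]
  · rw [dg_cat, if_neg (show ¬ y < c.a0 + 1 by omega), dg_cat,
      if_pos (show y - (c.a0 + 1) < c.a1 - c.a0 by omega),
      dg_mulrep (b _) (show y - (c.a0 + 1) < c.a1 - c.a0 by omega)]
  · rw [dg_cat, if_neg (show ¬ y < c.a0 + 1 by omega), dg_cat,
      if_neg (show ¬ y - (c.a0 + 1) < c.a1 - c.a0 by omega), dg_cat,
      if_pos (show y - (c.a0 + 1) - (c.a1 - c.a0) < c.a2 - c.a1 by omega),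
      dg_mulrep (b _) (show y - (c.a0 + 1) - (c.a1 - c.a0) < c.a2 - c.a1 by omega)]
  · rw [dg_cat, if_neg (show ¬ y < c.a0 + 1 by omega), dg_cat,
      if_neg (show ¬ y - (c.a0 + 1) < c.a1 - c.a0 by omega), dg_cat,
      if_neg (show ¬ y - (c.a0 + 1) - (c.a1 - c.a0) < c.a2 - c.a1 by omega), dg_cat,
      if_pos (show y - (c.a0 + 1) - (c.a1 - c.a0) - (c.a2 - c.a1) < c.a3 - c.a2 by omega),
      dg_mulrep (b _) (show y - (c.a0 + 1) - (c.a1 - c.a0) - (c.a2 - c.a1) < c.a3 - c.a2 by omega)]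
  · rw [dg_cat, if_neg (show ¬ y < c.a0 + 1 by omega), dg_cat,
      if_neg (show ¬ y - (c.a0 + 1) < c.a1 - c.a0 by omega), dg_cat,
      if_neg (show ¬ y - (c.a0 + 1) - (c.a1 - c.a0) < c.a2 - c.a1 by omega), dg_cat,
      if_neg (show ¬ y - (c.a0 + 1) - (c.a1 - c.a0) - (c.a2 - c.a1) < c.a3 - c.a2 by omega), dg_cat,
      if_pos (show y - (c.a0 + 1) - (c.a1 - c.a0) - (c.a2 - c.a1) - (c.a3 - c.a2)
        < c.a4 - c.a3 by omega),
      dg_mulrep (b _) (show y - (c.a0 + 1) - (c.a1 - c.a0) - (c.a2 - c.a1) - (c.a3 - c.a2)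
        < c.a4 - c.a3 by omega)]
  · rw [dg_cat, if_neg (show ¬ y < c.a0 + 1 by omega), dg_cat,
      if_neg (show ¬ y - (c.a0 + 1) < c.a1 - c.a0 by omega), dg_cat,
      if_neg (show ¬ y - (c.a0 + 1) - (c.a1 - c.a0) < c.a2 - c.a1 by omega), dg_cat,
      if_neg (show ¬ y - (c.a0 + 1) - (c.a1 - c.a0) - (c.a2 - c.a1) < c.a3 - c.a2 by omega), dg_cat,
      if_neg (show ¬ y - (c.a0 + 1) - (c.a1 - c.a0) - (c.a2 - c.a1) - (c.a3 - c.a2)
        < c.a4 - c.a3 by omega), dg_cat,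
      if_pos (show y - (c.a0 + 1) - (c.a1 - c.a0) - (c.a2 - c.a1) - (c.a3 - c.a2) - (c.a4 - c.a3)
        < c.a5 - c.a4 by omega),
      dg_mulrep (b _) (show y - (c.a0 + 1) - (c.a1 - c.a0) - (c.a2 - c.a1) - (c.a3 - c.a2)
        - (c.a4 - c.a3) < c.a5 - c.a4 by omega)]
  · rw [dg_cat, if_neg (show ¬ y < c.a0 + 1 by omega), dg_cat,
      if_neg (show ¬ y - (c.a0 + 1) < c.a1 - c.a0 by omega), dg_cat,
      if_neg (show ¬ y - (c.a0 + 1) - (c.a1 - c.a0) < c.a2 - c.a1 by omega), dg_cat,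
      if_neg (show ¬ y - (c.a0 + 1) - (c.a1 - c.a0) - (c.a2 - c.a1) < c.a3 - c.a2 by omega), dg_cat,
      if_neg (show ¬ y - (c.a0 + 1) - (c.a1 - c.a0) - (c.a2 - c.a1) - (c.a3 - c.a2)
        < c.a4 - c.a3 by omega), dg_cat,
      if_neg (show ¬ y - (c.a0 + 1) - (c.a1 - c.a0) - (c.a2 - c.a1) - (c.a3 - c.a2) - (c.a4 - c.a3)
        < c.a5 - c.a4 by omega),
      dg_mulrep (b _) (show y - (c.a0 + 1) - (c.a1 - c.a0) - (c.a2 - c.a1) - (c.a3 - c.a2)
        - (c.a4 - c.a3) - (c.a5 - c.a4) < c.n - c.a5 by omega)]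

/-- digits of the packed prices -/
def gd9 (c : CutI) (q : PrcI) (y : ℕ) : ℕ :=
  if y ≤ c.a0 then 0 else if y ≤ c.a1 then dg q.p0 (y - c.a0)
  else if y ≤ c.a2 then dg q.p1 (y - c.a1) else if y ≤ c.a3 then 0
  else if y ≤ c.a4 then dg q.p2 (y - c.a3) else if y ≤ c.a5 then dg q.p3 (y - c.a4) else 0

lemma gtab_dg (hc : CIOK c) (y : ℕ) : dg (gtab c q) y = gd9 c q y := by
  obtain ⟨o0, o1, o2, o3, o4, o5, -⟩ := id hc
  unfold gtab gd9
  simp only [Nat.succ_eq_add_one, Nat.sub_eq]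
  split_ifs with h0 h1 h2 h3 h4 h5
  · rw [dg_cat, if_pos (show y < c.a0 + 1 by omega), dg_zero]
  · rw [dg_cat, if_neg (show ¬ y < c.a0 + 1 by omega), dg_cat,
      if_pos (show y - (c.a0 + 1) < c.a1 - c.a0 by omega), dg_shf]
    congr 1
    show y - (c.a0 + 1) + 1 = y - c.a0
    omega
  · rw [dg_cat, if_neg (show ¬ y < c.a0 + 1 by omega), dg_cat,
      if_neg (show ¬ y - (c.a0 + 1) < c.a1 - c.a0 by omega), dg_cat,
      if_pos (show y - (c.a0 + 1) - (c.a1 - c.a0) < c.a2 - c.a1 by omega), dg_shf]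
    congr 1
    show y - (c.a0 + 1) - (c.a1 - c.a0) + 1 = y - c.a1
    omega
  · rw [dg_cat, if_neg (show ¬ y < c.a0 + 1 by omega), dg_cat,
      if_neg (show ¬ y - (c.a0 + 1) < c.a1 - c.a0 by omega), dg_cat,
      if_neg (show ¬ y - (c.a0 + 1) - (c.a1 - c.a0) < c.a2 - c.a1 by omega), dg_cat,
      if_pos (show y - (c.a0 + 1) - (c.a1 - c.a0) - (c.a2 - c.a1) < c.a3 - c.a2 by omega), dg_zero]
  · rw [dg_cat, if_neg (show ¬ y < c.a0 + 1 by omega), dg_cat,
      if_neg (show ¬ y - (c.a0 + 1) < c.a1 - c.a0 by omega), dg_cat,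
      if_neg (show ¬ y - (c.a0 + 1) - (c.a1 - c.a0) < c.a2 - c.a1 by omega), dg_cat,
      if_neg (show ¬ y - (c.a0 + 1) - (c.a1 - c.a0) - (c.a2 - c.a1) < c.a3 - c.a2 by omega), dg_cat,
      if_pos (show y - (c.a0 + 1) - (c.a1 - c.a0) - (c.a2 - c.a1) - (c.a3 - c.a2)
        < c.a4 - c.a3 by omega), dg_shf]
    congr 1
    show y - (c.a0 + 1) - (c.a1 - c.a0) - (c.a2 - c.a1) - (c.a3 - c.a2) + 1 = y - c.a3
    omega
  · rw [dg_cat, if_neg (show ¬ y < c.a0 + 1 by omega), dg_cat,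
      if_neg (show ¬ y - (c.a0 + 1) < c.a1 - c.a0 by omega), dg_cat,
      if_neg (show ¬ y - (c.a0 + 1) - (c.a1 - c.a0) < c.a2 - c.a1 by omega), dg_cat,
      if_neg (show ¬ y - (c.a0 + 1) - (c.a1 - c.a0) - (c.a2 - c.a1) < c.a3 - c.a2 by omega), dg_cat,
      if_neg (show ¬ y - (c.a0 + 1) - (c.a1 - c.a0) - (c.a2 - c.a1) - (c.a3 - c.a2)
        < c.a4 - c.a3 by omega), dg_cat,
      if_pos (show y - (c.a0 + 1) - (c.a1 - c.a0) - (c.a2 - c.a1) - (c.a3 - c.a2) - (c.a4 - c.a3)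
        < c.a5 - c.a4 by omega), dg_shf]
    congr 1
    show y - (c.a0 + 1) - (c.a1 - c.a0) - (c.a2 - c.a1) - (c.a3 - c.a2) - (c.a4 - c.a3) + 1
      = y - c.a4
    omega
  · rw [dg_cat, if_neg (show ¬ y < c.a0 + 1 by omega), dg_cat,
      if_neg (show ¬ y - (c.a0 + 1) < c.a1 - c.a0 by omega), dg_cat,
      if_neg (show ¬ y - (c.a0 + 1) - (c.a1 - c.a0) < c.a2 - c.a1 by omega), dg_cat,
      if_neg (show ¬ y - (c.a0 + 1) - (c.a1 - c.a0) - (c.a2 - c.a1) < c.a3 - c.a2 by omega), dg_cat,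
      if_neg (show ¬ y - (c.a0 + 1) - (c.a1 - c.a0) - (c.a2 - c.a1) - (c.a3 - c.a2)
        < c.a4 - c.a3 by omega), dg_cat,
      if_neg (show ¬ y - (c.a0 + 1) - (c.a1 - c.a0) - (c.a2 - c.a1) - (c.a3 - c.a2) - (c.a4 - c.a3)
        < c.a5 - c.a4 by omega), dg_zero]

lemma gd9_lt (h0 : ∀ y, dg q.p0 y < 2 ^ 36) (h1 : ∀ y, dg q.p1 y < 2 ^ 36)
    (h2 : ∀ y, dg q.p2 y < 2 ^ 36) (h3 : ∀ y, dg q.p3 y < 2 ^ 36) (y : ℕ) :
    gd9 c q y < 2 ^ 36 := by
  unfold gd9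
  split_ifs
  · positivity
  · exact h0 _
  · exact h1 _
  · positivity
  · exact h2 _
  · exact h3 _
  · positivity

/-- digits of the packed extra costs -/
def xd9 (c : CutI) (x0 x2 x4 y : ℕ) : ℕ :=
  if y ≤ c.a1 then dg x0 y else if y ≤ c.a4 then dg x2 y else dg x4 y

lemma exw_dg (hc : CIOK c) (x0 x2 x4 y : ℕ) : dg (exw c x0 x2 x4) y = xd9 c x0 x2 x4 y := by
  obtain ⟨o0, o1, o2, o3, o4, o5, -⟩ := id hc
  unfold exw xd9
  simp only [Nat.succ_eq_add_one, Nat.sub_eq]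
  split_ifs with h0 h1
  · rw [dg_cat, if_pos (show y < c.a1 + 1 by omega)]
  · rw [dg_cat, if_neg (show ¬ y < c.a1 + 1 by omega), dg_cat,
      if_pos (show y - (c.a1 + 1) < c.a4 - c.a1 by omega), dg_shf]
    congr 1
    show y - (c.a1 + 1) + (c.a1 + 1) = y
    omega
  · rw [dg_cat, if_neg (show ¬ y < c.a1 + 1 by omega), dg_cat,
      if_neg (show ¬ y - (c.a1 + 1) < c.a4 - c.a1 by omega), dg_shf]
    congr 1
    show y - (c.a1 + 1) - (c.a4 - c.a1) + (c.a4 + 1) = y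
    omega

/-- digits of the base word -/
lemma base_dg (hc : CIOK c) {x0 x2 x4 ec : ℕ} (hg : ∀ y, gd9 c q y < 2 ^ 36)
    (hx : ∀ y ≤ c.n, xd9 c x0 x2 x4 y < 2 ^ 37) (he : ∀ i, dg ec i < 2 ^ 37) (hy : y ≤ c.n) :
    dg (Nat.add (Nat.add (gtab c q) (exw c x0 x2 x4)) (ctab c ec)) y
      = gd9 c q y + xd9 c x0 x2 x4 y + dg ec (zi9 c y) := by
  have e36 : (2:ℕ) ^ 36 = 68719476736 := by norm_num
  have e37 : (2:ℕ) ^ 37 = 137438953472 := by norm_num
  have e40 : (2:ℕ) ^ 40 = 1099511627776 := by norm_num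
  have k1 : ∀ y < c.n + 1, dg (Nat.add (gtab c q) (exw c x0 x2 x4)) y
      = gd9 c q y + xd9 c x0 x2 x4 y := fun y hy => by
    rw [dg_addF (m := c.n + 1) (fun k hk => ?_) hy, gtab_dg hc, exw_dg hc]
    rw [gtab_dg hc, exw_dg hc]
    have a := hg k
    have b := hx k (by omega)
    rw [e36] at a
    rw [e37] at b
    rw [e40]
    omega
  rw [dg_addF (m := c.n + 1) (fun k hk => ?_) (by omega), k1 y (by omega), ctab_dg hc ec hy]
  rw [k1 k hk, ctab_dg hc ec (by omega)]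
  have a := hg k
  have b := hx k (by omega)
  have d := he (zi9 c k)
  rw [e36] at a
  rw [e37] at b d
  rw [e40]
  omega

/-- THE FAST ZONE CONDITIONS -/
theorem chkZn95_of_fast (hc : CIOK c) {x0 x1 x2 x3 x4 ec L : ℕ}
    (hg : ∀ y, gd9 c q y < 2 ^ 36) (hx : ∀ y ≤ c.n, xd9 c x0 x2 x4 y < 2 ^ 37)
    (he : ∀ i, dg ec i < 2 ^ 37) (hL : ∀ y, dg L y < 2 ^ 37)
    (h : leA (Nat.succ c.n) L
      (Nat.add (Nat.add (gtab c q) (exw c x0 x2 x4)) (ctab c ec)) = true)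
    (hk : cuts9 c q x0 x1 x2 x3 x4 ec L = true) : chkZn95 c q x0 x1 x2 x3 x4 ec L = true := by
  obtain ⟨o0, o1, o2, o3, o4, o5, -⟩ := id hc
  have e36 : (2:ℕ) ^ 36 = 68719476736 := by norm_num
  have e37 : (2:ℕ) ^ 37 = 137438953472 := by norm_num
  have e39 : (2:ℕ) ^ 39 = 549755813888 := by norm_num
  have key : ∀ y ≤ c.n, gd9 c q y + xd9 c x0 x2 x4 y + dg ec (zi9 c y) ≤ dg L y := by
    intro y hy
    have := leA_imp (m := Nat.succ c.n) (fun y _ => by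
        have := hL y
        rw [e37] at this
        rw [e39]
        omega)
      (fun k hk => by
        have hk' : k ≤ c.n := Nat.le_of_lt_succ hk
        rw [base_dg hc hg hx he hk']
        have a := hg k
        have b := hx k hk'
        have d := he (zi9 c k)
        rw [e36] at a
        rw [e37] at b d
        rw [e39]
        omega) h (Nat.lt_succ_of_le hy)
    rwa [base_dg hc hg hx he hy] at this
  unfold cuts9 at hk
  simp only [Bool.and_eq_true] at hk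
  obtain ⟨c1, c2, c3, c4, c5, c6, c7, c8, c9, c10, c11, c12, c13, c14⟩ := hk
  unfold chkZn95 pcL pcI pcR pcN
  simp only [Bool.and_eq_true]
  refine ⟨⟨(allN_iff _ _).2 fun y hy => ble_of ?_, c1⟩,
    ⟨(allN_iff _ _).2 fun y hy => ble_of ?_, c2, c3⟩, c4,
    ⟨(allN_iff _ _).2 fun y hy => ble_of ?_, c5, c6⟩,
    ⟨(allN_iff _ _).2 fun y hy => ble_of ?_, c7, c8⟩,
    ⟨(allN_iff _ _).2 fun y hy => ble_of ?_, c9, c10⟩, c11,
    ⟨(allN_iff _ _).2 fun y hy => ble_of ?_, c12, c13⟩,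
    (allN_iff _ _).2 fun y hy => ble_of ?_, c14⟩
  · have hy' : y ≤ c.a0 := Nat.le_of_lt_succ hy
    have k := key y (by omega)
    unfold gd9 xd9 zi9 at k
    rw [if_pos hy', if_pos (by omega), if_pos hy'] at k
    show dg x0 y + dg ec 0 ≤ dg L y
    omega
  · have hy' : y < c.a1 - c.a0 := hy
    have k := key (c.a0 + 1 + y) (by omega)
    unfold gd9 xd9 zi9 at k
    rw [if_neg (by omega), if_pos (by omega), if_pos (by omega), if_neg (by omega),
      if_pos (by omega)] at k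
    show dg q.p0 (c.a0 + 1 + y - c.a0) + (dg x0 (c.a0 + 1 + y) + dg ec 1) ≤ dg L (c.a0 + 1 + y)
    omega
  · have hy' : y < c.a2 - c.a1 := hy
    have k := key (c.a1 + 1 + y) (by omega)
    unfold gd9 xd9 zi9 at k
    rw [if_neg (by omega), if_neg (by omega), if_pos (by omega), if_neg (by omega),
      if_pos (by omega), if_neg (by omega), if_neg (by omega), if_pos (by omega)] at k
    show dg q.p1 (c.a1 + 1 + y - c.a1) + (dg x2 (c.a1 + 1 + y) + dg ec 3) ≤ dg L (c.a1 + 1 + y)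
    omega
  · have hy' : y < c.a3 - c.a2 := hy
    have k := key (c.a2 + 1 + y) (by omega)
    unfold gd9 xd9 zi9 at k
    rw [if_neg (by omega), if_neg (by omega), if_neg (by omega), if_pos (by omega),
      if_neg (by omega), if_pos (by omega), if_neg (by omega), if_neg (by omega),
      if_neg (by omega), if_pos (by omega)] at k
    show dg x2 (c.a2 + 1 + y) + dg ec 4 ≤ dg L (c.a2 + 1 + y)
    omega
  · have hy' : y < c.a4 - c.a3 := hy
    have k := key (c.a3 + 1 + y) (by omega)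
    unfold gd9 xd9 zi9 at k
    rw [if_neg (by omega), if_neg (by omega), if_neg (by omega), if_neg (by omega),
      if_pos (by omega), if_neg (by omega), if_pos (by omega), if_neg (by omega),
      if_neg (by omega), if_neg (by omega), if_neg (by omega), if_pos (by omega)] at k
    show dg q.p2 (c.a3 + 1 + y - c.a3) + (dg x2 (c.a3 + 1 + y) + dg ec 5) ≤ dg L (c.a3 + 1 + y)
    omega
  · have hy' : y < c.a5 - c.a4 := hy
    have k := key (c.a4 + 1 + y) (by omega)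
    unfold gd9 xd9 zi9 at k
    rw [if_neg (by omega), if_neg (by omega), if_neg (by omega), if_neg (by omega),
      if_neg (by omega), if_pos (by omega), if_neg (by omega), if_neg (by omega),
      if_neg (by omega), if_neg (by omega), if_neg (by omega), if_neg (by omega),
      if_neg (by omega), if_pos (by omega)] at k
    show dg q.p3 (c.a4 + 1 + y - c.a4) + (dg x4 (c.a4 + 1 + y) + dg ec 7) ≤ dg L (c.a4 + 1 + y)
    omega
  · have hy' : y < c.n - c.a5 := hy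
    have k := key (c.a5 + 1 + y) (by omega)
    unfold gd9 xd9 zi9 at k
    rw [if_neg (by omega), if_neg (by omega), if_neg (by omega), if_neg (by omega),
      if_neg (by omega), if_neg (by omega), if_neg (by omega), if_neg (by omega),
      if_neg (by omega), if_neg (by omega), if_neg (by omega), if_neg (by omega),
      if_neg (by omega), if_neg (by omega)] at k
    show dg x4 (c.a5 + 1 + y) + dg ec 8 ≤ dg L (c.a5 + 1 + y)
    omega

/-- THE FAST CHECK OF AN END POINT TABLE -/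
theorem chkE95_of_fast (hc : CIOK c) (hg : ∀ y, gd9 c q y < 2 ^ 36) {x0 x1 x2 x3 x4 : ℕ}
    {e : EctI} {w : ℕ} (h : chkE95F c q (gtab c q) x0 x1 x2 x3 x4 e w = true) :
    chkE95 c q (gtab c q) x0 x1 x2 x3 x4 e w = true := by
  unfold chkE95F at h
  rw [frcB_eq] at h
  simp only [Bool.and_eq_true] at h
  obtain ⟨h0, h1, h2⟩ := h
  have he : ∀ i, dg e.c i < 2 ^ 37 := fun i => mask_dg (by norm_num) h0 i
  rw [frcB_eq, frcB_eq] at h2
  simp only [Bool.and_eq_true] at h2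
  obtain ⟨h2, h3, h4, h5⟩ := h2
  have hx : ∀ y ≤ c.n, xd9 c x0 x2 x4 y < 2 ^ 37 := fun y hy => by
    have := mask_dg (by norm_num) h1 y
    rwa [dg_mod_bp (Nat.lt_succ_of_le hy), exw_dg hc] at this
  have eL : Nat.add (Nat.add (Nat.add (gtab c q) (exw c x0 x2 x4)) (ctab c e.c)) (ltc c e.l)
      = ltab9 c (gtab c q) (exw c x0 x2 x4) e := by
    show gtab c q + exw c x0 x2 x4 + ctab c e.c + ltc c e.l
      = gtab c q + exw c x0 x2 x4 + (ctab c e.c + ltc c e.l)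
    ring
  rw [eL] at h2 h3 h4 h5
  have hL : ∀ y, dg (ltab9 c (gtab c q) (exw c x0 x2 x4) e) y < 2 ^ 37 :=
    fun y => mask_dg (by norm_num) h2 y
  unfold chkE95
  rw [frcB_eq]
  simp only [Bool.and_eq_true]
  exact ⟨h2, chkZn95_of_fast hc hg hx he hL h3 h4, chkFr_of_fast hL h5⟩

end

/-! ### The nodes -/

lemma anyL_imp {n : ℕ} {f : ℕ → Bool} (h : anyL n f = true) : ∃ j < n, f j = true := by
  induction n with
  | zero => exact absurd h (by simp [anyL])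
  | succ n ih =>
    have e : anyL (n + 1) f = orL (f n) (anyL n f) := rfl
    rw [e] at h
    rcases orL_imp h with h | h
    · exact ⟨n, Nat.lt_succ_self n, h⟩
    · obtain ⟨j, hj, hf⟩ := ih h
      exact ⟨j, Nat.lt_succ_of_lt hj, hf⟩

/-- THE FAST CHECK OF A NODE -/
theorem chkNd9F_imp {d : DatR} {r : RC9} {exf : ℕ → ℕ → ℕ → ℕ} {mcf mxf : ℕ → ℕ} {z : ℕ}
    (hc : CIOK r.c) (h : chkNd9F d r exf mcf mxf z = true) : NdOK9 d r exf mcf mxf z := by
  unfold chkNd9F at h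
  rw [onP9_eq] at h
  simp only [Bool.and_eq_true] at h
  obtain ⟨h1, h4⟩ := h
  rw [frcB_eq] at h4
  have hB := chkB9_imp h1
  have hs := chkSz9_imp hB.sz
  have hg : ∀ y, gd9 r.c (nth16 pnD r.pr z).q y < 2 ^ 36 :=
    gd9_lt hs.1 hs.2.1 hs.2.2.1 hs.2.2.2.1
  refine ⟨hB, fun k => ?_⟩
  induction k using Nat.strong_induction_on with
  | _ k ih =>
    intro hk
    have h6 := (allN_iff _ _).1 h4 k hk
    rcases orL_imp h6 with h6 | h6
    · obtain ⟨j, hj, hf⟩ := anyL_imp h6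
      have k0 := ih j hj (lt_trans hj hk)
      unfold same9 at hf
      simp only [Bool.and_eq_true] at hf
      obtain ⟨s1, s2, s3, s4, s5, s6, s7, s8⟩ := hf
      have a1 : (nth ⟨0, []⟩ (sgR d.segs z).cb k).w = (nth ⟨0, []⟩ (sgR d.segs z).cb j).w :=
        Nat.eq_of_beq_eq_true s1
      have a2 : nth enD (nth16 [] r.ec z) k = nth enD (nth16 [] r.ec z) j := by
        have b1 := Nat.eq_of_beq_eq_true s2
        have b2 := Nat.eq_of_beq_eq_true s3
        generalize nth enD (nth16 [] r.ec z) k = u at b1 b2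
        generalize nth enD (nth16 [] r.ec z) j = v at b1 b2
        cases u
        cases v
        simp only [EctI.mk.injEq]
        exact ⟨b1, b2⟩
      have a3 : wR d z k = wR d z j := by
        unfold wR
        rw [a1]
      rw [a2, a3, Nat.eq_of_beq_eq_true s4, Nat.eq_of_beq_eq_true s5, Nat.eq_of_beq_eq_true s6,
        Nat.eq_of_beq_eq_true s7, Nat.eq_of_beq_eq_true s8]
      exact k0
    · rw [onE9_eq, frcB_eq] at h6
      unfold chkE5F at h6
      rw [frcB_eq, frcB_eq, frcB_eq, frcB_eq, frcB_eq] at h6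
      exact chkE95_of_fast hc hg h6

/-- THE FAST CHECK GIVES THE CONDITIONS OF THE NODES -/
theorem NdsOK9.of_checkF {d : DatR} {r : RC9} {exf : ℕ → ℕ → ℕ → ℕ} {mcf mxf : ℕ → ℕ}
    {lo hi : ℕ} (hc : chkCI r.c = true) (h : chkNds9F d r exf mcf mxf lo hi = true) :
    NdsOK9 d r exf mcf mxf lo hi := by
  intro z hz hz'
  have h1 := (allN_iff _ _).1 h (z - lo) (show z - lo < hi - lo by omega)
  rw [frcB_eq] at h1
  have e : Nat.add lo (z - lo) = z := by
    show lo + (z - lo) = z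
    omega
  rw [e] at h1
  exact chkNd9F_imp (chkCI_imp hc) h1

end MP61673a.Row9
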