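import Pool.Agent.Mu673.RowTabO1416
import Pool.Agent.Mu673.KCmatc

/-!
Kernel check of all triples (row cell O1416).
-/

set_option autoImplicit false
set_option maxRecDepth 100000

namespace MP61673a.KC.RowO1416

open MP61673a.FE MP61673a.KC MP61673a.RowO

theorem ok : okR 8 dat = true := by decide +kernel

theorem chk : rowCheckG dat 0 8 = true := by decide +kernel

end MP61673a.KC.RowO1416
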