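import Pool.Agent.Mu673.RIdef
import Pool.Agent.Mu673.FF3a
import Pool.Agent.Mu673.FF3
import Pool.Agent.Mu673.FactI
import Pool.Agent.Mu673.RowCut

/-!
GLUE OF AN IN CELL (helper40): the data of a row certificate and the Bool checks give the hypotheses
of `row_tablesW`.
-/

set_option autoImplicit false

namespace MP61673a.RowI9

open Finset MP61673a.W MP61673a.Kink MP61673a.Bary MP61673a.Sos MP61673a.Fin MP61673a.FE MP61673a.KC
open MP61673a.RowI MP61673a.Row9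
open MP61673a.RowO (ix TxG)

noncomputable section

namespace RI

variable (A : RI)

/-! ### Checks -/

/-- the zone of `FE5` of one of the nine zones -/
def z95N (i : ℕ) : ℕ := nth 0 [0, 0, 1, 2, 2, 2, 3, 4, 4] i

lemma z95N_eq (i : Fin 9) : z95N i = (z95 i : Fin 5) := by
  fin_cases i <;> rfl

/-- constants of the end table `k` of the node `v` -/
def chkKz1 (v k : ℕ) : Bool :=
  allN 9 (fun i => decide ((A.U : ℤ) * A.kzN (ixR A.d.segs v) k i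
      + 2 * A.ko * (nth16 pnD A.r.pr v).oe
    ≤ 2 * A.ko * (((dg (nth enD (nth16 [] A.r.ec v) k).c i : ℕ) : ℤ)
      + exOZ A.fs A.gs (ixR A.d.segs v) k (z95N i))))

/-- constants of all tables -/
def chkKz : Bool :=
  allN (vR A.d.segs) (fun v => allN A.r.nk (fun k => A.chkKz1 v k)
    && Nat.ble (nth16 pnD A.r.pr v).oe 34359738368)

/-- label of a digit -/
def lbl (y : ℕ) : ℤ := (y:ℤ) - (A.d.P + A.s0)

/-- right window of the class `c` at a digit, units `1 / ko` -/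
def wRi (c y : ℕ) : ℤ :=
  if A.lbl y ≤ 2 * A.p.M - A.p.s2 / 2 then nth 0 A.s2 c
    + (if (59 * A.p.M - 20 * A.p.s2) / 40 ≤ A.lbl y then nth 0 A.m1 c else 0) else 0

/-- left window of the class `c` at a digit, units `1 / ko` -/
def wLi (c y : ℕ) : ℤ :=
  if -A.p.M - (A.p.s2 + 1) / 2 ≤ A.lbl y then nth 0 A.s1 c
    + (if A.lbl y ≤ -((19 * A.p.M + 20 * A.p.s2) / 40) then nth 0 A.m2 c else 0) else 0

/-- the windows of a class below their packed words -/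
def chkWc (c : ℕ) : Bool :=
  allN (A.r.c.a5 + 2 - A.r.c.a4) (fun j => decide ((A.U : ℤ) * A.wRi c (A.r.c.a4 + j)
      ≤ A.ko * ((dg (nth 0 A.mx c) (A.r.c.a4 + j) : ℕ) + (dg (nth 0 A.mc c) 7 : ℕ))))
  && allN (A.r.c.a1 + 2 - A.r.c.a0) (fun j => decide ((A.U : ℤ) * A.wLi c (A.r.c.a0 + j)
      ≤ A.ko * ((dg (nth 0 A.mx c) (A.r.c.a0 + j) : ℕ) + (dg (nth 0 A.mc c) 1 : ℕ))))

/-- the ends of the majorant of the node `v` -/
def chkWv (v : ℕ) : Bool :=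
  Nat.ble (dg (nth16 pnD A.r.pr v).p3 (A.r.c.a5 + 1 - A.r.c.a4) + dg (A.mxf v) (A.r.c.a5 + 1)
      + dg (A.mcf v) 7) (dg (nth16 pnD A.r.pr v).h (A.r.c.a5 + 1))
  && Nat.ble (dg (nth16 pnD A.r.pr v).p0 0 + dg (A.mxf v) A.r.c.a0
      + dg (A.mcf v) 1) (dg (nth16 pnD A.r.pr v).h A.r.c.a0)

/-- the windows -/
def chkWin : Bool := allN A.cs.length A.chkWc && allN (vR A.d.segs) A.chkWv

/-- the one body check -/
def chkOne : Bool := oneR A.p A.U A.s0 A.d.segs A.cs A.iw A.wN A.gN A.aN A.xN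

/-! ### The tables -/

variable {A}

/-- prices -/
def gT (A : RI) (i : Fin 3) (ζ : Fin A.cs.length × ℤ) (e : Bool) (m : ℤ) : ℝ :=
  gK9 A.d A.r A.s0 A.s i (ix ζ) e m

/-- right majorant -/
def hRT (A : RI) (ζ : Fin A.cs.length × ℤ) (m : ℤ) : ℝ := hRK9 A.d A.r A.s0 A.s (ix ζ) m

/-- left majorant -/
def hLT (A : RI) (ζ : Fin A.cs.length × ℤ) (m : ℤ) : ℝ := hLK9 A.d A.r A.s0 A.s (ix ζ) m

/-- midpoint majorant -/
def LmT (A : RI) (ζ : Fin A.cs.length × ℤ) (m : ℤ) : ℝ := LmK9 A.d A.r A.s0 A.s (ix ζ) m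

/-- midpoint table -/
def WmT (A : RI) (ζ : Fin A.cs.length × ℤ) (m : ℤ) : ℝ := WmK9 A.d A.r A.s0 A.s (ix ζ) m

/-- end majorant -/
def LT (A : RI) (ζ : Fin A.cs.length × ℤ) (a b : Fin A.cs.length) (m : ℤ) : ℝ :=
  LK9 A.d A.r A.exf A.s0 A.s (ix ζ) a b m

/-- end table -/
def WT (A : RI) (ζ : Fin A.cs.length × ℤ) (a b : Fin A.cs.length) (m : ℤ) : ℝ :=
  WK9 A.d A.r A.s0 A.s (ix ζ) a b m

/-- one body constants -/
def a1T (A : RI) (ζ : Fin A.cs.length × ℤ) : ℝ :=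
  -((A.aN (vT A.d.segs A.s0 (ζ.1, ζ.2)) : ℝ) / (2 * A.U))

/-- squares -/
def sgT (A : RI) (q : Fin 64) (z a : Fin A.cs.length × ℤ) : ℝ := sqT A.d A.s0 A.U q (ix z) (ix a)

/-- facts -/
def TxT (A : RI) (z a b : Fin A.cs.length × ℤ) : ℝ := TxG A.d A.s0 A.U z a b

lemma GOK.inN (g : A.GOK) {ζ : Fin A.cs.length × ℤ} (h1 : (A.cs.get ζ.1).lo ≤ ζ.2)
    (h2 : ζ.2 ≤ (A.cs.get ζ.1).hi) : KC.inN A.d A.s0 (ix ζ) := by
  have hlo := g.cs.lo ζ.1 ζ.1.2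
  have hhi := g.cs.hi ζ.1 ζ.1.2
  rw [clN_get] at hlo hhi
  refine mem_Icc.2 ⟨?_, ?_⟩
  · show loR A.d.segs A.s0 ζ.1 ≤ ζ.2
    rw [← hlo]
    exact h1
  · show ζ.2 ≤ hiR A.d.segs A.s0 ζ.1
    rw [← hhi]
    exact h2

lemma GOK.cls (g : A.GOK) (a : Fin A.cs.length) : (a : ℕ) < nC A.d.segs := by
  rw [← g.cs.len]
  exact a.2

/-- all pairs of classes may have midpoints -/
def stT (A : RI) (_ _ : Fin A.cs.length) : Bool := true

/-- THE NODE INEQUALITY -/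
theorem node (g : A.GOK) {k : ℕ} (hokr : okR k A.d = true) (hrow : RowOK A.d 0 (vR A.d.segs))
    {z a b : Fin A.cs.length × ℤ} (hz : KC.inN A.d A.s0 (ix z)) (ha : KC.inN A.d A.s0 (ix a))
    (hb : KC.inN A.d A.s0 (ix b)) :
    sym6 (Tcert A.a1T A.WT A.stT A.WmT A.TxT) z a b + 2 * sq3 univ A.sgT z a b ≤ 0 := by
  have hU : (0:ℝ) < A.U := by exact_mod_cast g.U
  -- every ordered triple
  have key : ∀ z a b : Fin A.cs.length × ℤ, KC.inN A.d A.s0 (ix z) → KC.inN A.d A.s0 (ix a) →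
      KC.inN A.d A.s0 (ix b) →
      Tcert A.a1T A.WT A.stT A.WmT A.TxT z a b ≤ TR A.d A.s0 A.U (ix z) (ix a) (ix b) := by
    intro z a b hz ha hb
    -- positions
    have pos : ∀ c : Fin A.cs.length × ℤ, KC.inN A.d A.s0 (ix c) →
        0 ≤ c.2 + A.s0 ∧ c.2 + A.s0 ≤ A.d.P := by
      intro c hc
      have hc' := mem_Icc.1 hc
      obtain ⟨c1, c2, c3⟩ := vT_spec A.d.segs A.s0 c.1 c.2 hc'.1 hc'.2
      obtain ⟨_, _, h3, _, h5⟩ := sgR_eq A.d.segs c1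
      have := (cnsR_imp (okR_imp hokr).2.1).hi _ h3
      constructor <;> omega
    obtain ⟨a1, a2⟩ := pos a ha
    obtain ⟨b1, b2⟩ := pos b hb
    have eW := WK9_eq (s := A.s) g.gl g.G hz (a.1 : ℕ) (b.1 : ℕ) (m := 2 * b.2 - a.2)
      (by omega) (by omega)
    have eM : A.WmT z (a.2 + b.2) = A.s * tvM A.d A.s0 (ix z) A.r.km (a.2 + b.2) :=
      WmK9_eq g.G hz (by omega) (by omega)
    have hkm := g.km a.1 a.1.2 b.1 b.1.2
    have e1 : (if A.stT a.1 b.1 = true then 1 / 2 * A.WmT z (a.2 + b.2) else 0)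
        ≤ A.s * (tvM A.d A.s0 (ix z) (plE A.d.segs a.1 b.1).km (a.2 + b.2) / 2) := by
      have hst : A.stT a.1 b.1 = true := rfl
      rw [if_pos hst, eM, hkm]
      exact le_of_eq (by ring)
    have e2 : A.a1T z - A.s * ((nth16 pnD A.r.pr (vT A.d.segs A.s0 (ix z))).oe : ℝ)
        ≤ (((dg A.d.ap (vT A.d.segs A.s0 (ix z)) : ℝ)
          - dg A.d.an (vT A.d.segs A.s0 (ix z))) / 2) / A.U := by
      have h0 : dg A.d.an (vT A.d.segs A.s0 (ix z)) ≤ A.aN (vT A.d.segs A.s0 (ix z))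
          + (dg A.d.ap (vT A.d.segs A.s0 (ix z))
            + 2 * (nth16 pnD A.r.pr (vT A.d.segs A.s0 (ix z))).oe) := by
        have : A.aN (vT A.d.segs A.s0 (ix z)) = dg A.d.an (vT A.d.segs A.s0 (ix z))
            - (dg A.d.ap (vT A.d.segs A.s0 (ix z))
              + 2 * (nth16 pnD A.r.pr (vT A.d.segs A.s0 (ix z))).oe) := rfl
        omega
      have h1 : (dg A.d.an (vT A.d.segs A.s0 (ix z)) : ℝ) ≤ A.aN (vT A.d.segs A.s0 (ix z))
          + (dg A.d.ap (vT A.d.segs A.s0 (ix z))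
            + 2 * (nth16 pnD A.r.pr (vT A.d.segs A.s0 (ix z))).oe) := by exact_mod_cast h0
      unfold a1T s
      rw [le_div_iff₀ hU]
      have e : (-((A.aN (vT A.d.segs A.s0 (z.1, z.2)) : ℝ) / (2 * A.U))
          - 1 / (A.U:ℝ) * ((nth16 pnD A.r.pr (vT A.d.segs A.s0 (ix z))).oe : ℝ)) * A.U
          = -(A.aN (vT A.d.segs A.s0 (ix z)) : ℝ) / 2
            - (nth16 pnD A.r.pr (vT A.d.segs A.s0 (ix z))).oe := by
        field_simp
      rw [e]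
      linarith
    have eTR : TR A.d A.s0 A.U (ix z) (ix a) (ix b)
        = A.s * tvE A.d A.s0 (ix z) (plE A.d.segs a.1 b.1).k1 (2 * b.2 - a.2)
          + A.s * (tvM A.d A.s0 (ix z) (plE A.d.segs a.1 b.1).km (a.2 + b.2) / 2)
          + (((dg A.d.ap (vT A.d.segs A.s0 (ix z)) : ℝ)
            - dg A.d.an (vT A.d.segs A.s0 (ix z))) / 2) / A.U + A.TxT z a b := by
      unfold TR TxT TxG s
      ring
    have eWT : A.WT z a.1 b.1 (2 * b.2 - a.2) = A.s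
        * (tvE A.d A.s0 (ix z) (plE A.d.segs a.1 b.1).k1 (2 * b.2 - a.2)
          - (pn9 A.d A.r A.s0 (ix z)).oe) := eW
    unfold Tcert
    rw [eWT, eTR]
    have e3 : ((pn9 A.d A.r A.s0 (ix z)).oe : ℝ)
        = ((nth16 pnD A.r.pr (vT A.d.segs A.s0 (ix z))).oe : ℝ) := rfl
    rw [e3]
    have e4 := mul_sub A.s (tvE A.d A.s0 (ix z) (plE A.d.segs a.1 b.1).k1 (2 * b.2 - a.2))
      ((nth16 pnD A.r.pr (vT A.d.segs A.s0 (ix z))).oe : ℝ)
    linarith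
  have h := row_node' A.d hokr hrow A.s0 hU (ix z) (ix a) (ix b) hz ha hb
  rw [g.Bd, Nat.cast_zero, zero_div] at h
  have h2 : sq3 univ A.sgT z a b = sq3 univ (sqT A.d A.s0 A.U) (ix z) (ix a) (ix b) := rfl
  rw [h2]
  have k1 := key z a b hz ha hb
  have k2 := key z b a hz hb ha
  have k3 := key a z b ha hz hb
  have k4 := key a b z ha hb hz
  have k5 := key b z a hb hz ha
  have k6 := key b a z hb ha hz
  unfold sym6 at h ⊢
  linarith

/-! ### End point tables -/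

/-- END POINT TABLES OF A NODE -/
theorem zones (g : A.GOK) (hkz : A.chkKz = true)
    (hn : NdsOK9 A.d A.r A.exf A.mcf A.mxf 0 (vR A.d.segs))
    {k : ℕ} (hokr : okR k A.d = true) {M : ℕ} {σ kL kR : ℝ}
    (hk : Cuts M σ kL kR A.r.c (A.d.P + A.s0))
    {ζ : Fin A.cs.length × ℤ} (hζ : KC.inN A.d A.s0 (ix ζ)) (a b : Fin A.cs.length) :
    Zone9 M σ kL kR (lamW A.gT (fun ζ c d i m => A.kzT ζ.1 c d i + A.lamT ζ c d i m) ζ a b)
      (A.LT ζ a b) ∧ EndOK (A.LT ζ a b) (A.WT ζ a b) := by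
  have hU : (0:ℝ) < A.U := g.U_pos
  have hko : (0:ℝ) < A.ko := g.ko_pos
  have hs := A.s_nonneg
  have hc := cnsR_imp (okR_imp hokr).2.1
  have hm := mem_Icc.1 hζ
  obtain ⟨z1, z2, z3⟩ := vT_spec A.d.segs A.s0 (ζ.1 : ℕ) ζ.2 hm.1 hm.2
  have z3' : ixR A.d.segs (vT A.d.segs A.s0 (ix ζ)) = ζ.1 := z3
  have z1' : vT A.d.segs A.s0 (ix ζ) < vR A.d.segs := z1
  have hkk := g.gl.k a (g.cls a) b (g.cls b)
  -- the check of the constants
  have h1 := (allN_iff _ _).1 hkz _ z1'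
  rw [Bool.and_eq_true] at h1
  have hoe := Nat.le_of_ble_eq_true h1.2
  have hoe' : ((pn9 A.d A.r A.s0 (ix ζ)).oe : ℝ) ≤ 2 ^ 35 := by
    have e : (pn9 A.d A.r A.s0 (ix ζ)).oe = (nth16 pnD A.r.pr (vT A.d.segs A.s0 (ix ζ))).oe := rfl
    rw [e]
    exact_mod_cast hoe
  have h2 : ∀ i : Fin 9, (A.U : ℤ) * A.kzN ζ.1 (plE A.d.segs a b).k1 i
      + 2 * A.ko * (pn9 A.d A.r A.s0 (ix ζ)).oe
      ≤ 2 * A.ko * (((dg (en9 A.d A.r A.s0 (ix ζ) a b).c i : ℕ) : ℤ)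
        + exOZ A.fs A.gs ζ.1 (plE A.d.segs a b).k1 (z95 i : Fin 5)) := by
    intro i
    have h3 := of_decide_eq_true ((allN_iff _ _).1 ((allN_iff _ _).1 h1.1 _ hkk) i i.2)
    rw [z3', z95N_eq] at h3
    exact h3
  -- zone constants in units of the tables
  have h4 : ∀ i : Fin 9, A.kzT ζ.1 a b i
      ≤ A.s * ((dg (en9 A.d A.r A.s0 (ix ζ) a b).c i : ℝ)
        + exOZ A.fs A.gs ζ.1 (plE A.d.segs a b).k1 (z95 i : Fin 5)
        - (pn9 A.d A.r A.s0 (ix ζ)).oe) := by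
    intro i
    have h3 : (A.U : ℝ) * (A.kzN ζ.1 (plE A.d.segs a b).k1 i : ℤ)
      + 2 * A.ko * ((pn9 A.d A.r A.s0 (ix ζ)).oe : ℝ)
      ≤ 2 * A.ko * ((dg (en9 A.d A.r A.s0 (ix ζ) a b).c i : ℝ)
        + exOZ A.fs A.gs ζ.1 (plE A.d.segs a b).k1 (z95 i : Fin 5)) := by exact_mod_cast h2 i
    unfold kzT s
    rw [one_div, inv_mul_eq_div, div_le_div_iff₀ (by positivity) hU]
    linarith
  refine row_end9 g.gl hn hs hk hζ (g.cls a) (g.cls b) (fun i y hy => ?_) (fun i m hm' => ?_)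
  · -- inside
    have hg : g9 A.gT ζ false i ((y:ℤ) - (A.d.P + A.s0))
        = A.s * (zp9 A.r.c (pn9 A.d A.r A.s0 (ix ζ)).q i y : ℝ) := by
      have h0 : ∀ j : Fin 3, A.gT j ζ false ((y:ℤ) - (A.d.P + A.s0))
          = A.s * (zdI A.r.c (pn9 A.d A.r A.s0 (ix ζ)).q j y : ℝ) := by
        intro j
        unfold gT gK9 gZI
        rw [if_pos hζ, dz_in (y := y) (by ring) (by rw [g.gl.n]; exact hy)]
      have hz : (0:ℝ) = A.s * ((0:ℕ) : ℝ) := by simp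
      unfold g9
      fin_cases i
      · exact hz
      · exact h0 0
      · exact h0 1
      · exact h0 1
      · exact hz
      · exact h0 1
      · exact h0 1
      · exact h0 2
      · exact hz
    have hl : A.lamT ζ a b i ((y:ℤ) - (A.d.P + A.s0))
        = A.s * ((dg (A.exf (vT A.d.segs A.s0 (ix ζ)) (plE A.d.segs a b).k1 (z95 i : Fin 5)) y : ℝ)
          - exOZ A.fs A.gs ζ.1 (plE A.d.segs a b).k1 (z95 i : Fin 5)) :=
      lamZ_eq A.d hc g.z ⟨hm.1, hm.2⟩ A.s a b _ hy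
    have h5 := h4 i
    unfold lamW
    rw [hg]
    beta_reduce
    rw [hl]
    have e1 : (vN' A.d A.s0 (ix ζ)) = vT A.d.segs A.s0 (ix ζ) := rfl
    rw [e1]
    linarith
  · -- outside
    have hg : g9 A.gT ζ false i m = 0 := by
      have h0 : ∀ j : Fin 3, A.gT j ζ false m = 0 := by
        intro j
        unfold gT gK9 gZI
        rw [if_pos hζ]
        rcases hm' with h3 | h3
        · rw [dz_lo h3, mul_zero]
        · rw [dz_hi (by rw [g.gl.n]; exact h3), mul_zero]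
      unfold g9
      fin_cases i
      · rfl
      · exact h0 0
      · exact h0 1
      · exact h0 1
      · rfl
      · exact h0 1
      · exact h0 1
      · exact h0 2
      · rfl
    have hl : A.lamT ζ a b i m ≤ A.s * 2 ^ 36 := lamZ_up A.d g.z A.s0 hs (ix ζ) a b _ m
    have hkb := (abs_le.1 (g.kzT_bd ζ.1 a b i)).2
    have hU2 : (A.U : ℝ) ≤ 268435456 := by exact_mod_cast g.U2
    have h5 : (32:ℝ) ≤ A.s * 2 ^ 33 := by
      unfold s
      rw [one_div, inv_mul_eq_div, le_div_iff₀ hU]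
      linarith
    unfold lamW
    rw [hg]
    have h6 : A.s * (2 ^ 33 + 2 ^ 36) ≤ A.s * (2 ^ 37 - (pn9 A.d A.r A.s0 (ix ζ)).oe) :=
      mul_le_mul_of_nonneg_left (by linarith) hs
    linarith


/-! ### Windows -/

lemma pl_le_nd {f g : ℤ → ℝ} {x : ℝ} (h0 : f ⌊x⌋ ≤ g ⌊x⌋)
    (h1 : (⌊x⌋ : ℝ) < x → f (⌊x⌋ + 1) ≤ g (⌊x⌋ + 1)) : pl f x ≤ pl g x := by
  unfold pl
  have a0 := Int.fract_nonneg x
  have a1 := Int.fract_lt_one x
  have a2 : x - (⌊x⌋ : ℝ) = Int.fract x := rfl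
  by_cases hf : Int.fract x = 0
  · rw [hf]
    linarith
  · have hp : 0 < Int.fract x := lt_of_le_of_ne a0 (Ne.symm hf)
    have h2 := h1 (by linarith)
    have e1 := mul_le_mul_of_nonneg_left h0 (by linarith : 0 ≤ 1 - Int.fract x)
    have e2 := mul_le_mul_of_nonneg_left h2 a0
    linarith

/-- node table of the right windows -/
def uRT (A : RI) (ζ : Fin A.cs.length × ℤ) (m : ℤ) : ℝ :=
  uwR A.p.M A.p.s2 (A.wr A.s2 ζ.1) (A.wr A.m1 ζ.1) m

/-- node table of the left windows -/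
def uLT (A : RI) (ζ : Fin A.cs.length × ℤ) (m : ℤ) : ℝ :=
  uwL A.p.M A.p.s2 (A.wr A.s1 ζ.1) (A.wr A.m2 ζ.1) m

lemma uRT_eq (ζ : Fin A.cs.length × ℤ) (y : ℕ) :
    A.uRT ζ (A.lbl y) = (A.wRi ζ.1 y : ℝ) / A.ko := by
  unfold uRT uwR wRi wr
  split_ifs <;> push_cast <;> ring

lemma uLT_eq (ζ : Fin A.cs.length × ℤ) (y : ℕ) :
    A.uLT ζ (A.lbl y) = (A.wLi ζ.1 y : ℝ) / A.ko := by
  unfold uLT uwL wLi wr
  split_ifs <;> push_cast <;> ring

lemma GOK.wR_nd (g : A.GOK) (hw : A.chkWin = true) {c : ℕ} (hc : c < A.cs.length) {y : ℕ}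
    (h1 : A.r.c.a4 ≤ y) (h2 : y ≤ A.r.c.a5 + 1) : (A.wRi c y : ℝ) / A.ko
      ≤ A.s * ((dg (nth 0 A.mx c) y : ℝ) + dg (nth 0 A.mc c) 7) := by
  unfold chkWin at hw
  rw [Bool.and_eq_true] at hw
  have k := (allN_iff _ _).1 hw.1 c hc
  unfold chkWc at k
  rw [Bool.and_eq_true] at k
  have k2 := of_decide_eq_true ((allN_iff _ _).1 k.1 (y - A.r.c.a4) (by omega))
  rw [show A.r.c.a4 + (y - A.r.c.a4) = y by omega] at k2
  have k3 : (A.U : ℝ) * (A.wRi c y : ℤ)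
      ≤ A.ko * ((dg (nth 0 A.mx c) y : ℝ) + dg (nth 0 A.mc c) 7) := by exact_mod_cast k2
  have hU := g.U_pos
  have hko := g.ko_pos
  unfold s
  rw [one_div, inv_mul_eq_div, div_le_div_iff₀ hko hU]
  linarith

lemma GOK.wL_nd (g : A.GOK) (hw : A.chkWin = true) {c : ℕ} (hc : c < A.cs.length) {y : ℕ}
    (h1 : A.r.c.a0 ≤ y) (h2 : y ≤ A.r.c.a1 + 1) : (A.wLi c y : ℝ) / A.ko
      ≤ A.s * ((dg (nth 0 A.mx c) y : ℝ) + dg (nth 0 A.mc c) 1) := by
  unfold chkWin at hw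
  rw [Bool.and_eq_true] at hw
  have k := (allN_iff _ _).1 hw.1 c hc
  unfold chkWc at k
  rw [Bool.and_eq_true] at k
  have k2 := of_decide_eq_true ((allN_iff _ _).1 k.2 (y - A.r.c.a0) (by omega))
  rw [show A.r.c.a0 + (y - A.r.c.a0) = y by omega] at k2
  have k3 : (A.U : ℝ) * (A.wLi c y : ℤ)
      ≤ A.ko * ((dg (nth 0 A.mx c) y : ℝ) + dg (nth 0 A.mc c) 1) := by exact_mod_cast k2
  have hU := g.U_pos
  have hko := g.ko_pos
  unfold s
  rw [one_div, inv_mul_eq_div, div_le_div_iff₀ hko hU]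
  linarith

section win

variable {kL kR : ℝ}

/-- class of a node -/
lemma ixT {ζ : Fin A.cs.length × ℤ} (hζ : KC.inN A.d A.s0 (ix ζ)) :
    ixR A.d.segs (vN' A.d A.s0 (ix ζ)) = ζ.1 := by
  have hm := mem_Icc.1 hζ
  exact (vT_spec A.d.segs A.s0 (ζ.1 : ℕ) ζ.2 hm.1 hm.2).2.2

lemma lmD9_in (g : A.GOK) {ζ : Fin A.cs.length × ℤ} (hζ : KC.inN A.d A.s0 (ix ζ)) (i : Fin 9)
    {y : ℕ} (hy : y ≤ A.r.c.n) : lmD9 A.d A.r A.mcf A.mxf A.s0 A.s (ix ζ) i (A.lbl y)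
      = A.s * ((zp9 A.r.c (pn9 A.d A.r A.s0 (ix ζ)).q i y : ℕ) + (dg (nth 0 A.mx ζ.1) y : ℝ)
        + dg (nth 0 A.mc ζ.1) i) := by
  unfold lmD9 lbl mxf mcf
  rw [dz_in (y := y) (by ring) hy, ixT hζ]

lemma gT_in {ζ : Fin A.cs.length × ℤ} (hζ : KC.inN A.d A.s0 (ix ζ)) (i : Fin 3) (e : Bool)
    {y : ℕ} (hy : y ≤ A.r.c.n) : A.gT i ζ e (A.lbl y)
      = A.s * (zdI A.r.c (pn9 A.d A.r A.s0 (ix ζ)).q i y : ℝ) := by
  unfold gT gK9 gZI lbl
  rw [if_pos hζ, dz_in (y := y) (by ring) hy]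

/-- the prices of the middle zones below the window table -/
lemma gT1_le (g : A.GOK) {ζ : Fin A.cs.length × ℤ} (hζ : KC.inN A.d A.s0 (ix ζ)) {i : Fin 9}
    (hi : i = 3 ∨ i = 5) (e : Bool) (m : ℤ) :
    A.gT 1 ζ e m ≤ lmD9 A.d A.r A.mcf A.mxf A.s0 A.s (ix ζ) i m := by
  have hs := A.s_nonneg
  rcases dz_cases (n := A.r.c.n) (S := A.d.P + A.s0) m with o | o | ⟨y, hy, hyn⟩
  · unfold gT gK9 gZI lmD9
    rw [if_pos hζ, dz_lo o, dz_lo o]
  · unfold gT gK9 gZI lmD9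
    rw [if_pos hζ, dz_hi o, dz_hi o]
  · have em : m = A.lbl y := by
      unfold lbl
      omega
    rw [em, gT_in hζ 1 e hyn, lmD9_in g hζ i hyn]
    refine mul_le_mul_of_nonneg_left ?_ hs
    have hz : zp9 A.r.c (pn9 A.d A.r A.s0 (ix ζ)).q i y
        = zdI A.r.c (pn9 A.d A.r A.s0 (ix ζ)).q 1 y := by
      rcases hi with rfl | rfl <;> rfl
    rw [hz]
    have h1 : (0:ℝ) ≤ (dg (nth 0 A.mx ζ.1) y : ℝ) := Nat.cast_nonneg _
    have h2 : (0:ℝ) ≤ (dg (nth 0 A.mc ζ.1) i : ℝ) := Nat.cast_nonneg _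
    linarith

/-- THE RIGHT END: prices and windows below the majorant -/
theorem dom2R (g : A.GOK) (hw : A.chkWin = true)
    (hn : NdsOK9 A.d A.r A.exf A.mcf A.mxf 0 (vR A.d.segs))
    (hk : Cuts A.p.M ((A.p.s2:ℝ) / 2) kL kR A.r.c (A.d.P + A.s0))
    {ζ : Fin A.cs.length × ℤ} (hζ : KC.inN A.d A.s0 (ix ζ)) (e : Bool) {x : ℝ} (hx : kR ≤ x) :
    pl (fun m => A.gT 2 ζ e m + A.uRT ζ m) x ≤ pl (A.hRT ζ) x := by
  have hs := A.s_nonneg
  have hc := g.gl.c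
  have htd : (0:ℝ) < A.r.c.td := by exact_mod_cast hc.td
  have ht4 : (0:ℝ) ≤ (A.r.c.t4 : ℝ) / A.r.c.td := by positivity
  have ht5 : (0:ℝ) < (A.r.c.t5 : ℝ) / A.r.c.td := by
    have : (0:ℝ) < A.r.c.t5 := by exact_mod_cast g.t5
    positivity
  have ht5' : (A.r.c.t5 : ℝ) / A.r.c.td ≤ 1 := by
    rw [div_le_one htd]
    exact_mod_cast hc.t5
  have k4 := hk.k4
  have k5 := hk.k5
  unfold RowI.kC at k4 k5
  have hdom := (row_dom9 g.gl hn hs hk hζ).2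
  -- nodes of the last piece
  have F7 : ∀ y : ℕ, A.r.c.a4 ≤ y → y ≤ A.r.c.a5 + 1 →
      A.gT 2 ζ e (A.lbl y) + A.uRT ζ (A.lbl y)
        ≤ lmD9 A.d A.r A.mcf A.mxf A.s0 A.s (ix ζ) 7 (A.lbl y) := by
    intro y h1 h2
    have hyn : y ≤ A.r.c.n := h2.trans hc.o5
    rw [gT_in hζ 2 e hyn, lmD9_in g hζ 7 hyn, uRT_eq]
    have h3 := g.wR_nd hw ζ.1.2 h1 h2
    have hz : zp9 A.r.c (pn9 A.d A.r A.s0 (ix ζ)).q 7 y
        = zdI A.r.c (pn9 A.d A.r A.s0 (ix ζ)).q 2 y := rfl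
    rw [hz]
    have e7 : ((7 : Fin 9) : ℕ) = 7 := rfl
    rw [e7]
    linarith
  -- the last piece
  have st1 : ∀ x, kR ≤ x → x ≤ 2 * A.p.M - (A.p.s2:ℝ) / 2 →
      pl (fun m => A.gT 2 ζ e m + A.uRT ζ m) x ≤ pl (A.hRT ζ) x := by
    intro x h1 h2
    refine le_trans (pl_le_nd (g := lmD9 A.d A.r A.mcf A.mxf A.s0 A.s (ix ζ) 7) ?_ ?_)
      (hdom 7 (Or.inr (Or.inr rfl)) x ⟨h1, h2⟩)
    all_goals
      have f0 : (A.r.c.a4 : ℤ) - (A.d.P + A.s0) ≤ ⌊x⌋ := by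
        rw [Int.le_floor]
        push_cast at k4 ⊢
        linarith
      have f1 : (⌊x⌋ : ℝ) ≤ x := Int.floor_le x
    · have f2 : ⌊x⌋ ≤ (A.r.c.a5 : ℤ) + 1 - (A.d.P + A.s0) := by
        have : (⌊x⌋ : ℝ) ≤ (A.r.c.a5 : ℝ) + 1 - (A.d.P + A.s0) := by
          push_cast at k5
          linarith
        exact_mod_cast this
      obtain ⟨y, hy⟩ : ∃ y : ℕ, ⌊x⌋ = A.lbl y := ⟨(⌊x⌋ + (A.d.P + A.s0)).toNat, by
        unfold lbl
        omega⟩
      rw [hy]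
      unfold lbl at hy
      exact F7 y (by omega) (by omega)
    · intro f3
      have f2 : ⌊x⌋ < (A.r.c.a5 : ℤ) + 1 - (A.d.P + A.s0) := by
        have : (⌊x⌋ : ℝ) < (A.r.c.a5 : ℝ) + 1 - (A.d.P + A.s0) := by
          push_cast at k5
          linarith
        exact_mod_cast this
      obtain ⟨y, hy⟩ : ∃ y : ℕ, ⌊x⌋ + 1 = A.lbl y := ⟨(⌊x⌋ + 1 + (A.d.P + A.s0)).toNat, by
        unfold lbl
        omega⟩
      rw [hy]
      unfold lbl at hy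
      exact F7 y (by omega) (by omega)
  rcases le_total x (2 * A.p.M - (A.p.s2:ℝ) / 2) with c | c
  · exact st1 x hx c
  · -- beyond
    have kk : kR ≤ 2 * A.p.M - (A.p.s2:ℝ) / 2 := by
      have h0 : (A.r.c.a4 : ℝ) ≤ A.r.c.a5 := by exact_mod_cast hc.o4
      have ht4' : (A.r.c.t4 : ℝ) / A.r.c.td ≤ 1 := by
        rw [div_le_one htd]
        exact_mod_cast hc.t4
      rcases lt_or_ge A.r.c.a4 A.r.c.a5 with h | h
      · have h' : (A.r.c.a4 : ℝ) + 1 ≤ A.r.c.a5 := by exact_mod_cast h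
        push_cast at k4 k5
        linarith
      · -- `kR = M + M / 40 - σ`
        have hcut := chkCut_imp (M := A.p.M) (s2 := A.p.s2) hc.td g.cut
        have e1 := hcut.k4
        have e2 := hk.k4
        have hM : (0:ℝ) < A.p.M := by exact_mod_cast g.pos.M
        linarith
    refine pl_le_Ici (α := 2 * A.p.M - (A.p.s2:ℝ) / 2) (fun m hm => ?_) (st1 _ kk le_rfl) c
    have hm0 : (A.r.c.a5 : ℤ) - (A.d.P + A.s0) < m := by
      have : (A.r.c.a5 : ℝ) - (A.d.P + A.s0) < m := by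
        push_cast at k5
        linarith
      exact_mod_cast this
    have hR0 := (hRK9_bd (s0 := (A.s0:ℤ)) hn hs (ix ζ) m).1
    rcases eq_or_lt_of_le (show (A.r.c.a5 : ℤ) + 1 - (A.d.P + A.s0) ≤ m by omega) with h | h
    · -- the node `a5 + 1`
      have em : m = A.lbl (A.r.c.a5 + 1) := by
        unfold lbl
        omega
      have h1 := F7 (A.r.c.a5 + 1) (by have := hc.o4; omega) le_rfl
      rw [em]
      refine h1.trans ?_
      rw [lmD9_in g hζ 7 hc.o5]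
      have hz : zp9 A.r.c (pn9 A.d A.r A.s0 (ix ζ)).q 7 (A.r.c.a5 + 1)
          = dg (pn9 A.d A.r A.s0 (ix ζ)).p3 (A.r.c.a5 + 1 - A.r.c.a4) := by
        have e1 : zp9 A.r.c (pn9 A.d A.r A.s0 (ix ζ)).q 7 (A.r.c.a5 + 1)
          = zdI A.r.c (pn9 A.d A.r A.s0 (ix ζ)).q 2 (A.r.c.a5 + 1) := rfl
        rw [e1]
        unfold zdI
        have := hc.o4
        rw [if_neg (by decide), if_neg (by decide), if_pos (by omega)]
        rfl
      have hmid : A.r.mid + 1 ≤ A.r.c.a3 := by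
        have k := ((hn _ (Nat.zero_le _) (inN_lt hζ)).toNdB9).dm
        unfold chkDom9 at k
        simp only [Bool.and_eq_true] at k
        obtain ⟨-, -, -, m2, -⟩ := k
        exact Nat.le_of_ble_eq_true m2
      have hR : A.hRT ζ (A.lbl (A.r.c.a5 + 1))
          = A.s * (dg (pn9 A.d A.r A.s0 (ix ζ)).h (A.r.c.a5 + 1) : ℝ) := by
        unfold hRT hRK9 hRz lbl
        rw [if_pos hζ, dz_in (n := (cn9 A.r.c.n).n) (y := A.r.c.a5 + 1) (by ring) hc.o5,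
          if_pos (by have := hc.o3; have := hc.o4; omega)]
        rfl
      rw [hR, hz]
      refine mul_le_mul_of_nonneg_left ?_ hs
      unfold chkWin at hw
      rw [Bool.and_eq_true] at hw
      have k := (allN_iff _ _).1 hw.2 _ (inN_lt hζ)
      unfold chkWv at k
      rw [Bool.and_eq_true] at k
      have k2 := Nat.le_of_ble_eq_true k.1
      unfold mxf mcf at k2
      rw [ixT hζ] at k2
      have k3 : (dg (pn9 A.d A.r A.s0 (ix ζ)).p3 (A.r.c.a5 + 1 - A.r.c.a4) : ℝ)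
          + dg (nth 0 A.mx ζ.1) (A.r.c.a5 + 1) + dg (nth 0 A.mc ζ.1) 7
          ≤ dg (pn9 A.d A.r A.s0 (ix ζ)).h (A.r.c.a5 + 1) := by exact_mod_cast k2
      exact k3
    · -- all zero
      have u0 : A.uRT ζ m = 0 := by
        unfold uRT uwR
        rw [if_neg]
        have h5 : (4:ℝ) * A.p.M - A.p.s2 ≤ 2 * ((A.r.c.a5 : ℝ) + 1 - (A.d.P + A.s0)) := by
          push_cast at k5
          linarith
        have h6 : 4 * (A.p.M : ℤ) - A.p.s2 ≤ 2 * ((A.r.c.a5 : ℤ) + 1 - (A.d.P + A.s0)) := by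
          exact_mod_cast h5
        omega
      have g0 : A.gT 2 ζ e m = 0 := by
        rcases dz_cases (n := A.r.c.n) (S := A.d.P + A.s0) m with o | o | ⟨y, hy, hyn⟩
        · omega
        · unfold gT gK9 gZI
          rw [if_pos hζ, dz_hi o, mul_zero]
        · have em : m = A.lbl y := by
            unfold lbl
            omega
          rw [em, gT_in hζ 2 e hyn]
          unfold zdI
          rw [if_neg (by decide), if_neg (by decide), if_neg (by omega)]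
          simp
      show A.gT 2 ζ e m + A.uRT ζ m ≤ _
      rw [g0, u0, add_zero]
      exact hR0

/-- THE LEFT END: prices and windows below the majorant -/
theorem dom0L (g : A.GOK) (hw : A.chkWin = true)
    (hn : NdsOK9 A.d A.r A.exf A.mcf A.mxf 0 (vR A.d.segs))
    (hk : Cuts A.p.M ((A.p.s2:ℝ) / 2) kL kR A.r.c (A.d.P + A.s0))
    {ζ : Fin A.cs.length × ℤ} (hζ : KC.inN A.d A.s0 (ix ζ)) (e : Bool) {x : ℝ} (hx : x ≤ kL) :
    pl (fun m => A.gT 0 ζ e m + A.uLT ζ m) x ≤ pl (A.hLT ζ) x := by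
  have hs := A.s_nonneg
  have hc := g.gl.c
  have htd : (0:ℝ) < A.r.c.td := by exact_mod_cast hc.td
  have ht0 : (0:ℝ) ≤ (A.r.c.t0 : ℝ) / A.r.c.td := by positivity
  have ht0' : (A.r.c.t0 : ℝ) / A.r.c.td < 1 := by
    rw [div_lt_one htd]
    exact_mod_cast g.t0
  have ht1 : (0:ℝ) ≤ (A.r.c.t1 : ℝ) / A.r.c.td := by positivity
  have ht1' : (A.r.c.t1 : ℝ) / A.r.c.td ≤ 1 := by
    rw [div_le_one htd]
    exact_mod_cast hc.t1
  have k0 := hk.k0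
  have k1 := hk.k1
  unfold RowI.kC at k0 k1
  have hdom := (row_dom9 g.gl hn hs hk hζ).1
  have hmid : A.r.c.a2 + 1 ≤ A.r.mid := by
    have k := ((hn _ (Nat.zero_le _) (inN_lt hζ)).toNdB9).dm
    unfold chkDom9 at k
    simp only [Bool.and_eq_true] at k
    obtain ⟨-, -, m1, -⟩ := k
    exact Nat.le_of_ble_eq_true m1
  -- nodes of the first piece
  have F1 : ∀ y : ℕ, A.r.c.a0 ≤ y → y ≤ A.r.c.a1 + 1 →
      A.gT 0 ζ e (A.lbl y) + A.uLT ζ (A.lbl y)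
        ≤ lmD9 A.d A.r A.mcf A.mxf A.s0 A.s (ix ζ) 1 (A.lbl y) := by
    intro y h1 h2
    have hyn : y ≤ A.r.c.n := by
      have := hc.o1
      have := hc.o2
      have := hc.o3
      have := hc.o4
      have := hc.o5
      omega
    rw [gT_in hζ 0 e hyn, lmD9_in g hζ 1 hyn, uLT_eq]
    have h3 := g.wL_nd hw ζ.1.2 h1 h2
    have hz : zp9 A.r.c (pn9 A.d A.r A.s0 (ix ζ)).q 1 y
        = zdI A.r.c (pn9 A.d A.r A.s0 (ix ζ)).q 0 y := rfl
    rw [hz]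
    have e7 : ((1 : Fin 9) : ℕ) = 1 := rfl
    rw [e7]
    linarith
  -- the first piece
  have st1 : ∀ x, -A.p.M - (A.p.s2:ℝ) / 2 ≤ x → x ≤ kL →
      pl (fun m => A.gT 0 ζ e m + A.uLT ζ m) x ≤ pl (A.hLT ζ) x := by
    intro x h1 h2
    refine le_trans (pl_le_nd (g := lmD9 A.d A.r A.mcf A.mxf A.s0 A.s (ix ζ) 1) ?_ ?_)
      (hdom 1 (Or.inl rfl) x ⟨h1, h2⟩)
    all_goals
      have f0 : (A.r.c.a0 : ℤ) - (A.d.P + A.s0) ≤ ⌊x⌋ := by
        rw [Int.le_floor]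
        push_cast at k0 ⊢
        linarith
      have f1 : (⌊x⌋ : ℝ) ≤ x := Int.floor_le x
    · have f2 : ⌊x⌋ ≤ (A.r.c.a1 : ℤ) + 1 - (A.d.P + A.s0) := by
        have : (⌊x⌋ : ℝ) ≤ (A.r.c.a1 : ℝ) + 1 - (A.d.P + A.s0) := by
          push_cast at k1
          linarith
        exact_mod_cast this
      obtain ⟨y, hy⟩ : ∃ y : ℕ, ⌊x⌋ = A.lbl y := ⟨(⌊x⌋ + (A.d.P + A.s0)).toNat, by
        unfold lbl
        omega⟩
      rw [hy]
      unfold lbl at hy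
      exact F1 y (by omega) (by omega)
    · intro f3
      have f2 : ⌊x⌋ < (A.r.c.a1 : ℤ) + 1 - (A.d.P + A.s0) := by
        have : (⌊x⌋ : ℝ) < (A.r.c.a1 : ℝ) + 1 - (A.d.P + A.s0) := by
          push_cast at k1
          linarith
        exact_mod_cast this
      obtain ⟨y, hy⟩ : ∃ y : ℕ, ⌊x⌋ + 1 = A.lbl y := ⟨(⌊x⌋ + 1 + (A.d.P + A.s0)).toNat, by
        unfold lbl
        omega⟩
      rw [hy]
      unfold lbl at hy
      exact F1 y (by omega) (by omega)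
  rcases le_total (-A.p.M - (A.p.s2:ℝ) / 2) x with c | c
  · exact st1 x c hx
  · -- beyond
    have kk : -A.p.M - (A.p.s2:ℝ) / 2 ≤ kL := by
      have hcut := chkCut_imp (M := A.p.M) (s2 := A.p.s2) hc.td g.cut
      have e1 := hcut.k1
      have e2 := hk.k1
      have hM : (0:ℝ) < A.p.M := by exact_mod_cast g.pos.M
      linarith
    refine pl_le_Iic (β := -A.p.M - (A.p.s2:ℝ) / 2) (fun m hm => ?_) (st1 _ le_rfl kk) c
    have hm0 : m < (A.r.c.a0 : ℤ) + 1 - (A.d.P + A.s0) := by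
      have : (m:ℝ) < (A.r.c.a0 : ℝ) + 1 - (A.d.P + A.s0) := by
        push_cast at k0
        linarith
      exact_mod_cast this
    have hL0 := (hLK9_bd (s0 := (A.s0:ℤ)) hn hs (ix ζ) m).1
    rcases eq_or_lt_of_le (show m ≤ (A.r.c.a0 : ℤ) - (A.d.P + A.s0) by omega) with h | h
    · -- the node `a0`
      have em : m = A.lbl A.r.c.a0 := by
        unfold lbl
        omega
      have ha0n : A.r.c.a0 ≤ A.r.c.n := by
        have := hc.o0
        have := hc.o1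
        have := hc.o2
        have := hc.o3
        have := hc.o4
        have := hc.o5
        omega
      have h1 := F1 A.r.c.a0 le_rfl (by have := hc.o0; omega)
      rw [em]
      refine h1.trans ?_
      rw [lmD9_in g hζ 1 ha0n]
      have hz : zp9 A.r.c (pn9 A.d A.r A.s0 (ix ζ)).q 1 A.r.c.a0
          = dg (pn9 A.d A.r A.s0 (ix ζ)).p0 0 := by
        have e1 : zp9 A.r.c (pn9 A.d A.r A.s0 (ix ζ)).q 1 A.r.c.a0
          = zdI A.r.c (pn9 A.d A.r A.s0 (ix ζ)).q 0 A.r.c.a0 := rfl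
        rw [e1]
        unfold zdI
        have := hc.o0
        rw [if_pos rfl, if_pos (by omega), Nat.sub_self]
        rfl
      have hL : A.hLT ζ (A.lbl A.r.c.a0)
          = A.s * (dg (pn9 A.d A.r A.s0 (ix ζ)).h A.r.c.a0 : ℝ) := by
        unfold hLT hLK9 hLz lbl
        rw [if_pos hζ, dz_in (n := (cn9 A.r.c.n).n) (y := A.r.c.a0) (by ring) ha0n,
          if_neg (by have := hc.o0; have := hc.o1; omega)]
        rfl
      rw [hL, hz]
      refine mul_le_mul_of_nonneg_left ?_ hs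
      unfold chkWin at hw
      rw [Bool.and_eq_true] at hw
      have k := (allN_iff _ _).1 hw.2 _ (inN_lt hζ)
      unfold chkWv at k
      rw [Bool.and_eq_true] at k
      have k2 := Nat.le_of_ble_eq_true k.2
      unfold mxf mcf at k2
      rw [ixT hζ] at k2
      have k3 : (dg (pn9 A.d A.r A.s0 (ix ζ)).p0 0 : ℝ)
          + dg (nth 0 A.mx ζ.1) A.r.c.a0 + dg (nth 0 A.mc ζ.1) 1
          ≤ dg (pn9 A.d A.r A.s0 (ix ζ)).h A.r.c.a0 := by exact_mod_cast k2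
      exact k3
    · -- all zero
      have u0 : A.uLT ζ m = 0 := by
        unfold uLT uwL
        rw [if_neg]
        have h5 : 2 * ((A.r.c.a0 : ℝ) - (A.d.P + A.s0)) ≤ -2 * A.p.M - A.p.s2 := by
          push_cast at k0
          linarith
        have h6 : 2 * ((A.r.c.a0 : ℤ) - (A.d.P + A.s0)) ≤ -2 * (A.p.M : ℤ) - A.p.s2 := by
          exact_mod_cast h5
        omega
      have g0 : A.gT 0 ζ e m = 0 := by
        rcases dz_cases (n := A.r.c.n) (S := A.d.P + A.s0) m with o | o | ⟨y, hy, hyn⟩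
        · unfold gT gK9 gZI
          rw [if_pos hζ, dz_lo o, mul_zero]
        · have := hc.o0
          have := hc.o1
          have := hc.o2
          have := hc.o3
          have := hc.o4
          have := hc.o5
          omega
        · have em : m = A.lbl y := by
            unfold lbl
            omega
          rw [em, gT_in hζ 0 e hyn]
          unfold zdI
          rw [if_pos rfl, if_neg (by omega)]
          simp
      show A.gT 0 ζ e m + A.uLT ζ m ≤ _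
      rw [g0, u0, add_zero]
      exact hL0

end win


/-! ### The row at one depth -/

/-- the sum of the absolute node values of the one body part -/
def absOne (A : RI) : ℝ :=
  ∑ c : Fin A.cs.length, ∑ i ∈ nd (fun c : Fin A.cs.length => (A.cs.get c).lo)
    (fun c => (A.cs.get c).hi) c, |((A.p.nb (nth 0 A.iw c) (A.cs.get c) i : ℚ) : ℝ)
      + (bzS A.p.M ((A.p.s2:ℝ) / 2) (cutL A.p.M ((A.p.s2:ℝ) / 2))
          (cutR A.p.M ((A.p.s2:ℝ) / 2)) (fun j => fun m => A.gT j (c, i) true m)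
        + A.p.M * -((A.xN (vT A.d.segs A.s0 (c, i)) : ℝ) / (2 * A.U))) / A.p.M|

/-- bound of the price sums -/
def BgS (A : RI) : ℝ := 3 * ((3 * A.p.M + 5) * (A.s * 2 ^ 36))

/-- bound of all tables -/
def BB (A : RI) : ℝ := A.s * 2 ^ 68 + 256

/-- one body constant -/
def e1 (A : RI) (cw : ℝ) : ℝ := oneC A.p.M A.absOne A.BgS cw

/-- the constant of the row; `cw` = constant of the windows, `CF` = constant of the families
(per `1 / K`) -/
def cst (A : RI) (cw CF : ℝ) : ℝ :=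
  18 * (A.e1 cw + (14 * A.BB + A.BB + 6 * A.BB) * (3 * A.p.M) + CF) + 2 + 2 * A.e1 cw

/-- prices at the nodes of the sums -/
lemma price_node (g : A.GOK) {ζ : Fin A.cs.length × ℤ} (hζ : KC.inN A.d A.s0 (ix ζ)) (i : Fin 3)
    (e : Bool) {j : ℕ} (hj : j < 3 * A.p.M + 5) :
    A.gT i ζ e ((j:ℤ) - A.p.M - 2) = (A.gN (vT A.d.segs A.s0 (ζ.1, ζ.2)) i j : ℝ) / A.U := by
  have h1 := g.o1
  have h2 := g.o2
  have h3 := g.gl.n
  have ho : j + A.off ≤ A.r.c.n := by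
    unfold off
    omega
  have ei : ((j:ℤ) - A.p.M - 2) + (A.d.P + A.s0) = ((j + A.off : ℕ) : ℤ) := by
    unfold off
    omega
  unfold gT gK9 gZI gN s
  rw [if_pos hζ, dz_in ei ho, zdn_eq]
  unfold pn9
  rw [one_div, inv_mul_eq_div]

lemma BgS_bd (hn : NdsOK9 A.d A.r A.exf A.mcf A.mxf 0 (vR A.d.segs)) (ζ : Fin A.cs.length × ℤ) :
    ∑ i : Fin 3, ∑ k ∈ Iz A.p.M, A.gT i ζ true k ≤ A.BgS := by
  have hI : ((Iz A.p.M).card : ℝ) = 3 * A.p.M + 5 := by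
    unfold Iz
    rw [Int.card_Icc]
    have : (2 * (A.p.M : ℤ) + 2 + 1 - (-(A.p.M : ℤ) - 2)).toNat = 3 * A.p.M + 5 := by omega
    rw [this]
    push_cast
    ring
  have h1 : ∀ i : Fin 3, ∑ k ∈ Iz A.p.M, A.gT i ζ true k ≤ (3 * A.p.M + 5) * (A.s * 2 ^ 36) := by
    intro i
    refine (sum_le_card_nsmul _ _ _ fun k _ =>
      (gK9_bd hn A.s_nonneg i (ix ζ) true k).2).trans ?_
    rw [nsmul_eq_mul, hI]
  refine (sum_le_card_nsmul _ _ _ fun i _ => h1 i).trans (le_of_eq ?_)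
  rw [nsmul_eq_mul]
  unfold BgS
  simp

/-- THE ADDITIONAL PRICES of a cell: class majorants and length -/
structure WinF (A : RI) (D K ρ : ℤ) (cl : P4 → Fin A.cs.length) (ωR ωL : P4 → ℤ → ℝ)
    (SW : P4 → ℝ) : Prop where
  nn : ∀ x s, 0 ≤ ωR x s ∧ 0 ≤ ωL x s
  vR : ∀ x, InR D K x.2 → ∀ s, 0 ≤ s → s < D →
    ωR x s ≤ vwin D ρ (A.wr A.s2 (cl x)) (A.wr A.m1 (cl x)) s
  vL : ∀ x, InR D K x.2 → ∀ s, 0 ≤ s → s < D →
    ωL x s ≤ vwin D ρ (A.wr A.s1 (cl x)) (A.wr A.m2 (cl x)) s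
  sum : ∀ x, InR D K x.2 → SW x ≤ ∑ s ∈ Ico 0 D, (ωR x s + ωL x s)

/-- THE ROW AT ONE DEPTH -/
theorem row_at9 (g : A.GOK) (hin : A.p.o = false) (hkz : A.chkKz = true) (hwin : A.chkWin = true)
    (hone : A.chkOne = true) (hn : NdsOK9 A.d A.r A.exf A.mcf A.mxf 0 (vR A.d.segs))
    {k : ℕ} (hokr : okR k A.d = true) (hrow : RowOK A.d 0 (vR A.d.segs))
    (hft : MP61673a.RowO.fctChk A.d A.cs A.p.M A.p.s2 A.p.q A.s0 = true)
    {K0 : ℤ} {f : ℝ} {P Q : WS} {D K V E N : ℤ} {ξR ξL : ℤ → ℝ}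
    (h : EnvS K0 f P Q D K (rhoE D) V E N ξR ξL) (hDM : 13 * (A.p.M : ℤ) ≤ D)
    {lo t0 t t1 c1 c2 c3 : ℤ} (hNt : nearE D < t) (h0 : t0 ≤ t) (h1 : t ≤ t1)
    (hcA : CellAt A.p.m A.p.a A.p.b D t0 t1)
    (hco : CutOK A.p.m A.p.a D t0 (lo - t) c1 c2 c3)
    {n3 : P3 → P3 → P3 → ℝ}
    (hnet : T1 P Q (n1inw K (rhoE D) E (lo - t) t0 t1 c1 c2) + T3 P Q n3 - 2 * K
      ≤ netE P Q deeper D K (K - rhoE D) (rhoE D) (rhoE D) V E lo t)
    {dk : P3 → P3 → P3 → ℝ} (hdk : dchE P Q deeper D (rhoE D) V E t ≤ T3 P Q dk)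
    {cl : P4 → Fin A.cs.length} (hD : D = 4 * K + 1) (hK : 1 ≤ K)
    (hcl : ClMap (fun i : Fin A.cs.length => A.cs.get i) A.p.q D K cl)
    (hiw : ∀ x : P4, InR D K x.2 → nth 0 A.iw (cl x) = 1 → lo - t ≤ x.2.2)
    {G : GrdD (Fin A.cs.length) A.p.M ((A.p.s2:ℝ) / 2) (12 * A.p.M / D) D K (rhoE D)
      (cutL A.p.M ((A.p.s2:ℝ) / 2)) (cutR A.p.M ((A.p.s2:ℝ) / 2))}
    (hG : G = mkGrd g.pos.q hD hK g.cs.runF hcl)
    {ωR ωL : P4 → ℤ → ℝ} {SW : P4 → ℝ} (hWF : WinF A D K (rhoE D) cl ωR ωL SW)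
    {cw : ℝ} (hcw : 0 ≤ cw)
    (hSW : ∀ y : P4, InR D K y.2 →
      (D:ℝ) * kX G.lo G.hi (fun ζ => -((A.xN (vT A.d.segs A.s0 (ζ.1, ζ.2)) : ℝ) / (2 * A.U)))
        (G.pt y) - cw ≤ SW y)
    {mov : P4 → P4 → P4 → ℝ} (hmov : ∀ x y z, sym6 mov x y z = 0)
    {εF CF : ℝ} (hN : Net3W G n3 dk ωR ωL mov A.kzT A.lamT εF) (hF0 : 0 ≤ εF)
    (hF : K * εF ≤ CF) :
    RowAt (A.cst cw CF) P Q D K (rhoE D) V E lo t := by
  obtain ⟨clT, lR, lL, ht⟩ := h.ty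
  have hU := g.U_pos
  have hs := A.s_nonneg
  have hK1 := h.hK1
  have hKr : (10000:ℝ) ≤ K := by exact_mod_cast hK1
  have hDr : (D:ℝ) = 4 * K + 1 := by exact_mod_cast hD
  have hDp : (0:ℝ) < D := by rw [hDr]; linarith
  have hDz : 0 < D := by omega
  have hM0 : (0:ℝ) < A.p.M := by exact_mod_cast g.pos.M
  have hE0 : 0 ≤ E := h.hE
  have hE : 40 * E ≤ D := by
    have e1 := h.hN'
    have e2 := h.hN0
    have e3 : (E + 1) * 122 ≤ (E + 1) * N := mul_le_mul_of_nonneg_left e2 (by omega)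
    omega
  have hρ : 40 * rhoE D ≤ D := (rho_le D).1
  have hs0 : (0:ℝ) ≤ (A.p.s2:ℝ) / 2 := by
    have : (0:ℝ) ≤ A.p.s2 := by exact_mod_cast g.pos.s0
    linarith
  have hδ : (0:ℝ) ≤ 12 * (A.p.M:ℝ) / D := by positivity
  have hKδ : (K:ℝ) * (12 * (A.p.M:ℝ) / D) ≤ 3 * A.p.M := by
    rw [mul_div_assoc', div_le_iff₀ hDp, hDr]
    nlinarith
  have inN : ∀ ζ : Fin A.cs.length × ℤ, ζ.2 ∈ nd G.lo G.hi ζ.1 → KC.inN A.d A.s0 (ix ζ) := by
    intro ζ hζ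
    subst hG
    have := mem_Icc.1 hζ
    exact g.inN this.1 this.2
  have hGcl : G.cl = cl := by rw [hG]; rfl
  -- one body part
  obtain ⟨B, e1', he1, ee1, hB, hm, hOne⟩ := one_rowB g.pos g.U g.cs g.wc (g := A.gN) (a := A.aN)
    (x := A.xN) hone hD hK (by omega) hDM hcl hiw hcA hco hE
    (gr := A.gT) (g0 := fun i ζ m => A.gT i ζ true m)
    (fun i ζ m => (gK9_bd hn hs i (ix ζ) true m).1) (fun i ζ e m => le_rfl)
    (fun i ζ j hj hz1 hz2 => price_node g (g.inN hz1 hz2) i true hj) (Bg := A.BgS)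
    (fun ζ => BgS_bd hn ζ)
    (wf := SW) (cw := cw) hcw (fun y hy => by
      have := hSW y hy
      rw [hG] at this
      exact this) (n1 := n1inw K (rhoE D) E (lo - t) t0 t1 c1 c2) (X1 := fun x => -SW x)
    (fun y hy => by
      rw [hin, n1inw_cut K (rhoE D) E (lo - t) t0 t1 c1 c2 c3]
      exact le_of_eq (by ring))
  have ee : e1' = A.e1 cw := ee1
  rw [← hG] at hB hOne
  have hmm : ∀ x, m1tc K (rhoE D) E t0 t1 (n1inw K (rhoE D) E (lo - t) t0 t1 c1 c2)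
      (fun x => B x + SW x) (fun _ => 0) x
      = m1tc K (rhoE D) E t0 t1 (n1inw K (rhoE D) E (lo - t) t0 t1 c1 c2) B
        (fun x => -SW x) x := by
    intro x
    unfold m1tc
    ring
  -- the three body part
  obtain ⟨X3, hX, hY⟩ := MP61673a.RowO.fct_all h (d := A.d) (s0 := A.s0) (U := A.U) hU.le hft
    g.pos.q hD hK g.cs.runF hcl hG
  obtain ⟨Φ, H3, hΦ⟩ := hN.H3 X3
  have hoe : ∀ z < KC.vR A.d.segs, (nth16 pnD A.r.pr z).oe ≤ 2 ^ 37 := by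
    intro z hz
    have h2 := (allN_iff _ _).1 hkz _ hz
    rw [Bool.and_eq_true] at h2
    have h3 := Nat.le_of_ble_eq_true h2.2
    exact h3.trans (by norm_num)
  have hk : Cuts A.p.M ((A.p.s2:ℝ) / 2) (cutL A.p.M ((A.p.s2:ℝ) / 2))
      (cutR A.p.M ((A.p.s2:ℝ) / 2)) A.r.c (A.d.P + A.s0) := chkCut_imp g.gl.c.td g.cut
  have hzone := fun (ζ : Fin A.cs.length × ℤ) (hζ : ζ.2 ∈ nd G.lo G.hi ζ.1)
    (c d : Fin A.cs.length) => zones g hkz hn hokr hk (inN ζ hζ) c d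
  have hnum := (chkMd_imp (hn 0 le_rfl (by
    obtain ⟨c, hc⟩ : ∃ c, c = cl (false, false, 0) := ⟨_, rfl⟩
    have h2 := (g.cs.runF c).1
    exact lt_of_le_of_lt (Nat.zero_le _)
      (inN_lt (g.inN (ζ := (c, (A.cs.get c).lo)) le_rfl h2)))).md)
  have hden : (0:ℝ) < A.r.den := by exact_mod_cast hnum.2.1
  have hnd : (A.r.num:ℝ) ≤ A.r.den := by exact_mod_cast hnum.1
  have s36 : A.s * 2 ^ 36 + 128 ≤ A.BB := by
    unfold BB
    have : A.s * 2 ^ 36 ≤ A.s * 2 ^ 68 := mul_le_mul_of_nonneg_left (by norm_num) hs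
    linarith
  have s37 : A.s * 2 ^ 37 ≤ A.BB := by
    unfold BB
    have : A.s * 2 ^ 37 ≤ A.s * 2 ^ 68 := mul_le_mul_of_nonneg_left (by norm_num) hs
    linarith
  have s40 : A.s * 2 ^ 40 ≤ A.BB := by
    unfold BB
    have : A.s * 2 ^ 40 ≤ A.s * 2 ^ 68 := mul_le_mul_of_nonneg_left (by norm_num) hs
    linarith
  have hBB : 0 ≤ A.BB := by
    unfold BB
    positivity
  -- bounds of the prices and of the windows
  have gb : ∀ (i : Fin 3) (ζ : Fin A.cs.length × ℤ) (e : Bool) (m : ℤ),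
      0 ≤ A.gT i ζ e m ∧ A.gT i ζ e m ≤ A.s * 2 ^ 36 := fun i ζ e m =>
    gK9_bd hn hs i (ix ζ) e m
  have hRb : ∀ (ζ : Fin A.cs.length × ℤ) (m : ℤ),
      0 ≤ A.hRT ζ m ∧ A.hRT ζ m ≤ A.s * 2 ^ 36 := fun ζ m => hRK9_bd hn hs (ix ζ) m
  have hLb : ∀ (ζ : Fin A.cs.length × ℤ) (m : ℤ),
      0 ≤ A.hLT ζ m ∧ A.hLT ζ m ≤ A.s * 2 ^ 36 := fun ζ m => hLK9_bd hn hs (ix ζ) m
  have w1 : ∀ c, 0 ≤ A.wr A.s1 c ∧ A.wr A.s1 c ≤ 64 := g.wr_bd (by simp)
  have w2 : ∀ c, 0 ≤ A.wr A.s2 c ∧ A.wr A.s2 c ≤ 64 := g.wr_bd (by simp)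
  have w3 : ∀ c, 0 ≤ A.wr A.m1 c ∧ A.wr A.m1 c ≤ 64 := g.wr_bd (by simp)
  have w4 : ∀ c, 0 ≤ A.wr A.m2 c ∧ A.wr A.m2 c ≤ 64 := g.wr_bd (by simp)
  have uRb : ∀ (ζ : Fin A.cs.length × ℤ) (m : ℤ), 0 ≤ A.uRT ζ m ∧ A.uRT ζ m ≤ 128 := by
    intro ζ m
    refine ⟨uwR_nonneg (w2 _).1 (w3 _).1 m, ?_⟩
    have k1 := uwR_le (M := A.p.M) (τ := A.p.s2) (w2 ζ.1).1 (w3 ζ.1).1 m
    have k2 := (w2 ζ.1).2
    have k3 := (w3 ζ.1).2
    unfold uRT
    linarith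
  have uLb : ∀ (ζ : Fin A.cs.length × ℤ) (m : ℤ), 0 ≤ A.uLT ζ m ∧ A.uLT ζ m ≤ 128 := by
    intro ζ m
    refine ⟨uwL_nonneg (w1 _).1 (w4 _).1 m, ?_⟩
    have k1 := uwL_le (M := A.p.M) (τ := A.p.s2) (w1 ζ.1).1 (w4 ζ.1).1 m
    have k2 := (w1 ζ.1).2
    have k3 := (w4 ζ.1).2
    unfold uLT
    linarith
  have hτ : 2 * ((A.p.s2:ℝ) / 2) = A.p.s2 := by ring
  have hW0 : ∀ c, nd G.lo G.hi c ⊆ univ.biUnion (fun c : Fin A.cs.length => nd G.lo G.hi c) :=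
    fun c => subset_biUnion_of_mem (fun c : Fin A.cs.length => nd G.lo G.hi c) (mem_univ c)
  refine row_tablesW h ht hNt h0 h1 (n1 := n1inw K (rhoE D) E (lo - t) t0 t1 c1 c2)
    (n3 := n3) (C1 := 2) hnet (dk := dk) hdk (X1 := fun _ => 0)
    (X3 := X3) (C0 := 0) (hX clT) G hδ hW0
    (hI9 G hδ ?_ ?_ ?_ ?_ ?_)
    (g := A.gT) (fun i ζ e m => rfl) (fun i ζ e m => (gb i ζ e m).1) (Bg := A.BB)
    (fun i ζ e m => ?_)
    (ωR := ωR) (ωL := ωL) hWF.nn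
    (vR := fun c => vwin D (rhoE D) (A.wr A.s2 c) (A.wr A.m1 c))
    (vL := fun c => vwin D (rhoE D) (A.wr A.s1 c) (A.wr A.m2 c))
    (fun x hx s hs0 hs1 => ?_) (fun x hx s hs0 hs1 => ?_)
    (uR := A.uRT) (uL := A.uLT) (fun ζ e m => ?_) (fun ζ e m => ?_)
    (fun ζ _ s hs0 _ => uwR_ok hτ hDz hρ (w3 _).1 hs0)
    (fun ζ _ s hs0 _ => uwL_ok hτ hDz hρ (w4 _).1 hs0)
    (SW := SW) hWF.sum
    (hR := A.hRT) (hL := A.hLT) (fun ζ m => (hRb ζ m).1)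
    (fun ζ m => (hLb ζ m).1) (fun ζ m => ?_) (fun ζ m => ?_)
    (nR := (A.p.M : ℝ) - (A.p.s2:ℝ) / 2) (nL := -((A.p.s2:ℝ) / 2)) le_rfl ?_ le_rfl ?_
    (fun ζ hζ e x hx hx' => ?_) (fun ζ hζ e x hx => dom2R g hwin hn hk (inN ζ hζ) e hx)
    (fun ζ hζ e x hx hx' => ?_)
    (fun ζ hζ e x hx => dom0L g hwin hn hk (inN ζ hζ) e hx)
    (τ := A.p.s2) (by push_cast; ring) (d := (A.r.num:ℝ) / A.r.den) ?_ (by positivity)
    ((div_le_one hden).2 hnd)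
    (Lm := A.LmT) (Wm := A.WmT) (Bm := A.BB)
    (fun ζ hζ m => (row_mid9 g.gl hn hs (inN ζ hζ)).1 m) (fun ζ m => ?_)
    (fun ζ hζ => (row_mid9 g.gl hn hs (inN ζ hζ)).2)
    (st := A.stT) (fun y z _ _ hf => absurd hf (by simp [stT]))
    (BB := B) (fun x hx => hB lR lL x hx) (a1 := A.a1T) (ε1 := e1' / (3 * D)) (e0 := 2 * e1')
    (by linarith) (fun x hx => by rw [hmm]; exact hm x hx) ?_
    (mov := mov) hmov (Φ := Φ) (Y3 := X3) H3
    (lamF := fun ζ c d i m => A.kzT ζ.1 c d i + A.lamT ζ c d i m) hΦ (Tx := A.TxT) hY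
    (L := A.LT) (W := A.WT) (B := A.BB) (fun ζ c d i m => ?_) (fun ζ c d m => ?_)
    (fun ζ hζ c d => (hzone ζ hζ c d).1) (fun ζ hζ c d => (hzone ζ hζ c d).2)
    (p := 64) (sg := A.sgT) (fun z a b hz ha hb => node g hokr hrow (inN z hz) (inN a ha) (inN b hb))
    (ε := e1' / (3 * D) + (14 * A.BB * (12 * (A.p.M:ℝ) / D) + (0 + εF)
      + (A.BB * (12 * (A.p.M:ℝ) / D) + 6 * A.BB * (12 * (A.p.M:ℝ) / D))) + 0) (by positivity)
    le_rfl ?_
  -- cuts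
  · exact div_le_div_of_nonneg_right (by linarith) hDp.le
  · unfold cutL
    linarith
  · unfold cutL
    linarith
  · unfold cutR
    linarith
  · unfold cutR
    linarith
  -- bounds
  · rw [abs_of_nonneg (gb i ζ e m).1]
    linarith [(gb i ζ e m).2]
  · have := hWF.vR x ((G.okE x).1 hx) s hs0 hs1
    rw [hGcl]
    exact this
  · have := hWF.vL x ((G.okE x).1 hx) s hs0 hs1
    rw [hGcl]
    exact this
  · rw [abs_of_nonneg (add_nonneg (gb 2 ζ e m).1 (uRb ζ m).1)]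
    linarith [(gb 2 ζ e m).2, (uRb ζ m).2]
  · rw [abs_of_nonneg (add_nonneg (gb 0 ζ e m).1 (uLb ζ m).1)]
    linarith [(gb 0 ζ e m).2, (uLb ζ m).2]
  · rw [abs_of_nonneg (hRb ζ m).1]
    linarith [(hRb ζ m).2]
  · rw [abs_of_nonneg (hLb ζ m).1]
    linarith [(hLb ζ m).2]
  · unfold cutR
    linarith
  · unfold cutL
    linarith
  · -- `[D, D + ρ]`
    refine le_trans (pl_le_nd (g := lmD9 A.d A.r A.mcf A.mxf A.s0 A.s (ix ζ) 5)
      (gT1_le g (inN ζ hζ) (Or.inr rfl) e _) fun _ => gT1_le g (inN ζ hζ) (Or.inr rfl) e _) ?_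
    exact (row_dom9 g.gl hn hs hk (inN ζ hζ)).2 5 (Or.inl rfl) x ⟨hx, hx'⟩
  · -- `[-ρ, 0]`
    refine le_trans (pl_le_nd (g := lmD9 A.d A.r A.mcf A.mxf A.s0 A.s (ix ζ) 3)
      (gT1_le g (inN ζ hζ) (Or.inl rfl) e _) fun _ => gT1_le g (inN ζ hζ) (Or.inl rfl) e _) ?_
    exact (row_dom9 g.gl hn hs hk (inN ζ hζ)).1 3 (Or.inr (Or.inr rfl)) x ⟨hx, hx'⟩
  · -- fuzz
    have k2 : (A.p.M : ℝ) * A.r.den ≤ 80 * A.r.num := by exact_mod_cast g.fz
    have k3 : (40:ℝ) * E ≤ D := by exact_mod_cast hE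
    rw [div_le_div_iff₀ (by positivity) hden]
    have k4 := mul_le_mul_of_nonneg_left k3 (mul_nonneg hM0.le hden.le)
    have k5 := mul_le_mul_of_nonneg_right k2 hDp.le
    linarith
  · exact (LmK9_bd hn hs (ix ζ) m).trans s37
  · -- one body part
    have e : (fun x => -(m1tc K (rhoE D) E t0 t1 (n1inw K (rhoE D) E (lo - t) t0 t1 c1 c2)
        (fun x => B x + SW x) (fun _ => 0) x / (3 * D + 11)))
        = fun x => -(m1tc K (rhoE D) E t0 t1 (n1inw K (rhoE D) E (lo - t) t0 t1 c1 c2) B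
          (fun x => -SW x) x / (3 * D + 11)) := by
      funext x
      rw [hmm]
    rw [e]
    exact hOne
  · -- bound of the zone tables
    have k2 := g.kzT_bd ζ.1 c d i
    have k3 : |A.lamT ζ c d i m| ≤ A.s * 2 ^ 66 := lamZ_abs A.d g.z A.s0 hs (ix ζ) c d _ m
    have k4 : |g9 A.gT ζ false i m| ≤ A.s * 2 ^ 36 := by
      have k5 : ∀ j : Fin 3, |A.gT j ζ false m| ≤ A.s * 2 ^ 36 := fun j => by
        rw [abs_of_nonneg (gb j ζ false m).1]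
        exact (gb j ζ false m).2
      have k6 : |(0:ℝ)| ≤ A.s * 2 ^ 36 := by
        rw [abs_zero]
        positivity
      unfold g9
      fin_cases i
      · exact k6
      · exact k5 0
      · exact k5 1
      · exact k5 1
      · exact k6
      · exact k5 1
      · exact k5 1
      · exact k5 2
      · exact k6
    have k7 : A.s * 2 ^ 36 + A.s * 2 ^ 66 ≤ A.s * 2 ^ 68 := by
      have : A.s * (2 ^ 36 + 2 ^ 66) ≤ A.s * 2 ^ 68 :=
        mul_le_mul_of_nonneg_left (by norm_num) hs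
      linarith
    unfold lamW BB
    refine (abs_add_le _ _).trans ?_
    have k8 := abs_add_le (A.kzT ζ.1 c d i) (A.lamT ζ c d i m)
    linarith
  · exact (LK9_bd hs hoe (ix ζ) c d m).trans s40
  · -- constants
    have he1p : (K:ℝ) * (e1' / (3 * D)) ≤ e1' := by
      rw [mul_div_assoc', div_le_iff₀ (by positivity), hDr]
      nlinarith
    have k2 := mul_le_mul_of_nonneg_left hKδ (by positivity : 0 ≤ 21 * A.BB)
    have k3 : (K:ℝ) * (e1' / (3 * D) + (14 * A.BB * (12 * (A.p.M:ℝ) / D) + (0 + εF)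
      + (A.BB * (12 * (A.p.M:ℝ) / D) + 6 * A.BB * (12 * (A.p.M:ℝ) / D))) + 0)
      = (K:ℝ) * (e1' / (3 * D)) + 21 * A.BB * ((K:ℝ) * (12 * (A.p.M:ℝ) / D)) + K * εF := by ring
    rw [k3]
    unfold cst
    rw [← ee]
    linarith

end RI

end

end MP61673a.RowI9
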