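import Pool.Agent.Mu673.KCrowT
import Pool.Agent.Mu673.FE4
import Pool.Agent.Mu673.FE5

/-!
FROM THE INTEGER TABLES OF A ROW CELL (`KCrow`) TO THE ZONE, END POINT AND MIDPOINT CONDITIONS
(helper89). Digit of a label `m` (node units, left coordinate): `y = m + S`, `0 ≤ y ≤ n`.
-/

set_option autoImplicit false

namespace MP61673a.KC

open Finset MP61673a.Kink MP61673a.FE

noncomputable section

/-- price data of a sampler node: packed prices `g`, the four values next to the cuts (zone 0 at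
`a + 1`, zone 1 at `a`, zone 1 at `b + 1`, zone 2 at `b`), packed majorant `h` of the midpoint
prices, offset `oe` of the end point tables -/
structure Prc where
  /-- packed prices -/
  g : ℕ
  /-- zone 0 at `a + 1` -/
  x0 : ℕ
  /-- zone 1 at `a` -/
  x1 : ℕ
  /-- zone 1 at `b + 1` -/
  x2 : ℕ
  /-- zone 2 at `b` -/
  x3 : ℕ
  /-- majorant for the midpoints -/
  h : ℕ
  /-- offset -/
  oe : ℕ

/-- an end point table: constants of the five zones (with the offset), values of the majorant at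
`a`, `a + 1`, `b`, `b + 1` (with the offset) -/
structure Ect where
  /-- constant of the zone 0 -/
  c0 : ℕ
  /-- constant of the zone 1 -/
  c1 : ℕ
  /-- constant of the zone 2 -/
  c2 : ℕ
  /-- constant of the zone 3 -/
  c3 : ℕ
  /-- constant of the zone 4 -/
  c4 : ℕ
  /-- value at `a` -/
  la : ℕ
  /-- value at `a + 1` -/
  la1 : ℕ
  /-- value at `b` -/
  lb : ℕ
  /-- value at `b + 1` -/
  lb1 : ℕ

/-- cuts: last digit `n`, cut cells `[a, a+1]`, `[b, b+1]`, cuts `a + tl/td`, `b + tr/td` -/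
structure CutP where
  /-- last digit -/
  n : ℕ
  /-- left cut cell -/
  a : ℕ
  /-- right cut cell -/
  b : ℕ
  /-- numerator, left -/
  tl : ℕ
  /-- numerator, right -/
  tr : ℕ
  /-- denominator -/
  td : ℕ

/-! ### Kernel functions -/

/-- `true` for `n = 0`, else `x` -/
def grd (n : ℕ) (x : Bool) : Bool := Nat.rec (motive := fun _ => Bool) true (fun _ _ => x) n

/-- the majorant of an end point table, packed; `ex` = extra costs (steps), packed -/
def ltab (c : CutP) (q : Prc) (ex : ℕ) (e : Ect) : ℕ :=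
  cat c.a (Nat.add (Nat.add q.g ex) (Nat.mul e.c0 (rep c.a)))
    (cat 1 e.la (cat 1 e.la1
      (cat (Nat.sub c.b (Nat.add c.a 2))
        (Nat.add (shf (Nat.add q.g ex) (Nat.add c.a 2))
          (Nat.mul e.c2 (rep (Nat.sub c.b (Nat.add c.a 2)))))
        (cat 1 e.lb (cat 1 e.lb1
          (Nat.add (shf (Nat.add q.g ex) (Nat.add c.b 2))
            (Nat.mul e.c4 (rep (Nat.sub c.n (Nat.succ c.b))))))))))

/-- `u p + v q` -/
def l2r (u v p q : ℕ) : ℕ := Nat.add (Nat.mul u p) (Nat.mul v q)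

/-- three summands -/
def a3 (p q r : ℕ) : ℕ := Nat.add p (Nat.add q r)

/-- zone conditions of the majorant `L` -/
def chkZn (c : CutP) (q : Prc) (ex : ℕ) (e : Ect) (L : ℕ) : Bool :=
  allN (Nat.succ c.a) (fun y => Nat.ble (a3 (dg q.g y) (dg ex y) e.c0) (dg L y))
  && allN (Nat.sub c.b c.a) (fun y =>
      Nat.ble (a3 (dg q.g (Nat.add (Nat.succ c.a) y)) (dg ex (Nat.add (Nat.succ c.a) y)) e.c2)
        (dg L (Nat.add (Nat.succ c.a) y)))
  && allN (Nat.sub c.n c.b) (fun y =>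
      Nat.ble (a3 (dg q.g (Nat.add (Nat.succ c.b) y)) (dg ex (Nat.add (Nat.succ c.b) y)) e.c4)
        (dg L (Nat.add (Nat.succ c.b) y)))
  && Nat.ble (l2r (Nat.sub c.td c.tl) c.tl (a3 (dg q.g c.a) (dg ex c.a) e.c0)
        (a3 q.x0 (dg ex (Nat.succ c.a)) e.c0))
      (l2r (Nat.sub c.td c.tl) c.tl (dg L c.a) (dg L (Nat.succ c.a)))
  && Nat.ble (l2r (Nat.sub c.td c.tl) c.tl (a3 q.x1 (dg ex c.a) e.c1)
        (a3 (dg q.g (Nat.succ c.a)) (dg ex (Nat.succ c.a)) e.c1))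
      (l2r (Nat.sub c.td c.tl) c.tl (dg L c.a) (dg L (Nat.succ c.a)))
  && Nat.ble (l2r (Nat.sub c.td c.tl) c.tl (a3 q.x1 (dg ex c.a) e.c2)
        (a3 (dg q.g (Nat.succ c.a)) (dg ex (Nat.succ c.a)) e.c2))
      (l2r (Nat.sub c.td c.tl) c.tl (dg L c.a) (dg L (Nat.succ c.a)))
  && Nat.ble (l2r (Nat.sub c.td c.tr) c.tr (a3 (dg q.g c.b) (dg ex c.b) e.c2)
        (a3 q.x2 (dg ex (Nat.succ c.b)) e.c2))
      (l2r (Nat.sub c.td c.tr) c.tr (dg L c.b) (dg L (Nat.succ c.b)))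
  && Nat.ble (l2r (Nat.sub c.td c.tr) c.tr (a3 (dg q.g c.b) (dg ex c.b) e.c3)
        (a3 q.x2 (dg ex (Nat.succ c.b)) e.c3))
      (l2r (Nat.sub c.td c.tr) c.tr (dg L c.b) (dg L (Nat.succ c.b)))
  && Nat.ble (l2r (Nat.sub c.td c.tr) c.tr (a3 q.x3 (dg ex c.b) e.c4)
        (a3 (dg q.g (Nat.succ c.b)) (dg ex (Nat.succ c.b)) e.c4))
      (l2r (Nat.sub c.td c.tr) c.tr (dg L c.b) (dg L (Nat.succ c.b)))

/-- the exact rule for the digits `0, .., n` of the majorant `L` and the node values `w` -/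
def chkFr (n L w : ℕ) : Bool :=
  allN (Nat.succ n) (fun y =>
    Nat.ble (dg L y) (dg w y)
    && grd y (grd (Nat.sub n y)
      (Nat.ble (Nat.mul 2 (dg L y)) (Nat.add (dg w (Nat.sub y 1)) (dg w (Nat.succ y)))))
    && grd y (grd (Nat.sub (Nat.sub n 1) y)
      (Nat.ble (Nat.pow (Nat.sub (Nat.mul 4 (dg L y))
          (Nat.add (Nat.add (dg w y) (Nat.mul 2 (dg w (Nat.sub y 1)))) (dg w (Nat.add y 2)))) 2)
        (Nat.mul (Nat.mul 8 (Nat.sub (dg w y) (dg L y)))
          (Nat.sub (Nat.add (dg w (Nat.sub y 1)) (dg w (Nat.succ y))) (Nat.mul 2 (dg L y))))))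
    && grd (Nat.sub y 1) (grd (Nat.sub n y)
      (Nat.ble (Nat.pow (Nat.sub (Nat.mul 4 (dg L y))
          (Nat.add (Nat.add (dg w y) (Nat.mul 2 (dg w (Nat.succ y)))) (dg w (Nat.sub y 2)))) 2)
        (Nat.mul (Nat.mul 8 (Nat.sub (dg w y) (dg L y)))
          (Nat.sub (Nat.add (dg w (Nat.sub y 1)) (dg w (Nat.succ y))) (Nat.mul 2 (dg L y)))))))

/-- forced argument -/
def frcB (n : ℕ) (f : ℕ → Bool) : Bool :=
  Nat.rec (motive := fun _ => Bool) (f 0) (fun m _ => f (Nat.succ m)) n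

/-- all conditions of an end point table with node values `w` -/
def chkEnd (c : CutP) (q : Prc) (ex : ℕ) (e : Ect) (w : ℕ) : Bool :=
  frcB ex (fun ex => frcB (ltab c q ex e) (fun L =>
    mask 37 (Nat.succ (Nat.mul 3 c.n)) L && chkZn c q ex e L && chkFr c.n L w))

/-- `2 den` times the value of `avN (num / den)` of the packed majorant `h` at the position `κ` -/
def lav (num den P h κ : ℕ) : ℕ :=
  Nat.add (Nat.mul (Nat.mul 2 den) (dg h (Nat.add κ P)))
    (Nat.mul num (Nat.sub (Nat.add (dg h (Nat.sub (Nat.add κ P) 1)) (dg h (Nat.succ (Nat.add κ P))))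
      (Nat.mul 2 (dg h (Nat.add κ P)))))

/-- midpoints: the rule `FreM` for the majorant `h` and the node values `w` (digit
`p_a + p_b`), positions `0, .., P` -/
def chkMd (P num den h w : ℕ) : Bool :=
  Nat.ble num den && Nat.ble 1 den && Nat.ble 1 P && allN (Nat.succ P) (fun κ =>
    Nat.ble (lav num den P h κ) (Nat.mul (Nat.mul 2 den) (dg w (Nat.mul 2 κ)))
    && grd (Nat.sub P κ) (Nat.ble (Nat.add (lav num den P h κ) (lav num den P h (Nat.succ κ)))
        (Nat.mul (Nat.mul 4 den) (dg w (Nat.succ (Nat.mul 2 κ)))))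
    && grd κ (grd (Nat.sub P κ) (Nat.ble (Nat.mul 2 (lav num den P h κ))
        (Nat.mul den (Nat.add (Nat.add (dg w (Nat.sub (Nat.mul 2 κ) 1))
          (dg w (Nat.succ (Nat.mul 2 κ)))) (Nat.mul 2 (dg w (Nat.mul 2 κ))))))))

/-- domination of the zone prices by the midpoint majorant: left labels up to `yl`, right labels
from `yr`, zero digits `mid`, `mid + 1` between -/
def chkHd (c : CutP) (q : Prc) (yl mid yr : ℕ) : Bool :=
  Nat.beq (dg q.h mid) 0 && Nat.beq (dg q.h (Nat.succ mid)) 0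
  && Nat.ble (Nat.succ c.a) yl && Nat.ble yl mid && Nat.ble (Nat.succ mid) yr && Nat.ble yr c.b
  && allN (Nat.succ yl) (fun y => Nat.ble (dg q.g y) (dg q.h y))
  && allN (Nat.sub (Nat.succ c.n) yr) (fun y =>
      Nat.ble (dg q.g (Nat.add yr y)) (dg q.h (Nat.add yr y)))
  && Nat.ble (l2r (Nat.sub c.td c.tl) c.tl (dg q.g c.a) q.x0)
      (l2r (Nat.sub c.td c.tl) c.tl (dg q.h c.a) (dg q.h (Nat.succ c.a)))
  && Nat.ble (l2r (Nat.sub c.td c.tl) c.tl q.x1 (dg q.g (Nat.succ c.a)))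
      (l2r (Nat.sub c.td c.tl) c.tl (dg q.h c.a) (dg q.h (Nat.succ c.a)))
  && Nat.ble (l2r (Nat.sub c.td c.tr) c.tr (dg q.g c.b) q.x2)
      (l2r (Nat.sub c.td c.tr) c.tr (dg q.h c.b) (dg q.h (Nat.succ c.b)))
  && Nat.ble (l2r (Nat.sub c.td c.tr) c.tr q.x3 (dg q.g (Nat.succ c.b)))
      (l2r (Nat.sub c.td c.tr) c.tr (dg q.h c.b) (dg q.h (Nat.succ c.b)))

/-- sizes of the price data -/
def chkSz (c : CutP) (q : Prc) : Bool :=
  mask 36 (Nat.succ c.n) q.g && mask 36 (Nat.succ c.n) q.h && Nat.ble q.x0 68719476736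
    && Nat.ble q.x1 68719476736 && Nat.ble q.x2 68719476736 && Nat.ble q.x3 68719476736

/-- the cuts are inside -/
def chkC (c : CutP) : Bool :=
  Nat.ble (Nat.succ c.a) c.b && Nat.ble (Nat.succ c.b) c.n && Nat.ble c.tl c.td
    && Nat.ble c.tr c.td && Nat.ble 1 c.td

/-! ### Real functions -/

/-- digits as a function on the integers -/
def dz (n : ℕ) (S : ℤ) (dl dr : ℝ) (u : ℕ → ℝ) (m : ℤ) : ℝ :=
  if m + S < 0 then dl else if m + S ≤ n then u (m + S).toNat else dr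

/-- zone prices, digits -/
def zd (c : CutP) (q : Prc) (i : Fin 3) (y : ℕ) : ℕ :=
  if i = 0 then (if y ≤ c.a then dg q.g y else if y = c.a + 1 then q.x0 else 0)
  else if i = 1 then (if y = c.a then q.x1 else if y = c.b + 1 then q.x2
    else if c.a < y ∧ y ≤ c.b then dg q.g y else 0)
  else (if y = c.b then q.x3 else if c.b < y then dg q.g y else 0)

/-- zone prices (integer units) -/
def gZ (c : CutP) (S : ℤ) (q : Prc) (i : Fin 3) : ℤ → ℝ := dz c.n S 0 0 fun y => (zd c q i y : ℝ)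

/-- constant of a zone, with the offset -/
def czN (e : Ect) (i : Fin 5) : ℕ := ![e.c0, e.c1, e.c2, e.c3, e.c4] i

/-- the packed majorant `L` as a function (integer units, with the offset) -/
def LZ (c : CutP) (S : ℤ) (L : ℕ) : ℤ → ℝ :=
  dz c.n S (2 ^ 37) (2 ^ 37) fun y => (dg L y : ℝ)

/-- the node values (integer units, with the offset) -/
def WZ (c : CutP) (S : ℤ) (w : ℕ) : ℤ → ℝ := dz c.n S (2 ^ 39) (2 ^ 39) fun y => (dg w y : ℝ)

end

/-! ### Digits -/

lemma grd_imp {n : ℕ} {x : Bool} (h : grd n x = true) (hn : 0 < n) : x = true := by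
  obtain ⟨k, rfl⟩ : ∃ k, n = k + 1 := ⟨n - 1, by omega⟩
  exact h

lemma frcB_eq (n : ℕ) (f : ℕ → Bool) : frcB n f = f n := by
  cases n <;> rfl

section dz

variable {n : ℕ} {S : ℤ} {dl dr : ℝ} {u : ℕ → ℝ}

lemma dz_in {m : ℤ} {y : ℕ} (h : m + S = y) (hy : y ≤ n) : dz n S dl dr u m = u y := by
  unfold dz
  rw [if_neg (by omega), if_pos (by omega), h, Int.toNat_natCast]

lemma dz_lo {m : ℤ} (h : m + S < 0) : dz n S dl dr u m = dl := by
  unfold dz
  rw [if_pos h]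

lemma dz_hi {m : ℤ} (h : (n:ℤ) < m + S) : dz n S dl dr u m = dr := by
  unfold dz
  rw [if_neg (by omega), if_neg (by omega)]

lemma dz_cases (m : ℤ) : m + S < 0 ∨ (n:ℤ) < m + S ∨ ∃ y : ℕ, m + S = y ∧ y ≤ n := by
  by_cases h : m + S < 0
  · exact Or.inl h
  · by_cases h' : (n:ℤ) < m + S
    · exact Or.inr (Or.inl h')
    · exact Or.inr (Or.inr ⟨(m + S).toNat, by omega, by omega⟩)

lemma dz_ge {b : ℝ} (hl : b ≤ dl) (hr : b ≤ dr) (hu : ∀ y, b ≤ u y) (m : ℤ) :
    b ≤ dz n S dl dr u m := by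
  rcases dz_cases (n := n) (S := S) m with h | h | ⟨y, h, hy⟩
  · rw [dz_lo h]; exact hl
  · rw [dz_hi h]; exact hr
  · rw [dz_in h hy]; exact hu y

lemma dz_le {b : ℝ} (hl : dl ≤ b) (hr : dr ≤ b) (hu : ∀ y, u y ≤ b) (m : ℤ) :
    dz n S dl dr u m ≤ b := by
  rcases dz_cases (n := n) (S := S) m with h | h | ⟨y, h, hy⟩
  · rw [dz_lo h]; exact hl
  · rw [dz_hi h]; exact hr
  · rw [dz_in h hy]; exact hu y

end dz

/-! ### The exact rule -/

lemma chkFr_imp {n L w : ℕ} (h : chkFr n L w = true) {y : ℕ} (hy : y ≤ n) :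
    dg L y ≤ dg w y ∧
    (0 < y → y < n → 2 * dg L y ≤ dg w (y - 1) + dg w (y + 1)) ∧
    (0 < y → y + 1 < n → (4 * dg L y - (dg w y + 2 * dg w (y - 1) + dg w (y + 2))) ^ 2
      ≤ 8 * (dg w y - dg L y) * (dg w (y - 1) + dg w (y + 1) - 2 * dg L y)) ∧
    (1 < y → y < n → (4 * dg L y - (dg w y + 2 * dg w (y + 1) + dg w (y - 2))) ^ 2
      ≤ 8 * (dg w y - dg L y) * (dg w (y - 1) + dg w (y + 1) - 2 * dg L y)) := by
  have h1 := (allN_iff _ _).1 h y (Nat.lt_succ_of_le hy)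
  simp only [Bool.and_eq_true] at h1
  obtain ⟨⟨⟨a1, a2⟩, a3⟩, a4⟩ := h1
  refine ⟨Nat.le_of_ble_eq_true a1, fun c1 c2 => ?_, fun c1 c2 => ?_, fun c1 c2 => ?_⟩
  · exact Nat.le_of_ble_eq_true (grd_imp (grd_imp a2 c1) (Nat.sub_pos_of_lt c2))
  · refine Nat.le_of_ble_eq_true (grd_imp (grd_imp a3 c1) ?_)
    show 0 < n - 1 - y
    omega
  · refine Nat.le_of_ble_eq_true (grd_imp (grd_imp a4 ?_) (Nat.sub_pos_of_lt c2))
    show 0 < y - 1
    omega

/-- truncated subtraction in the quadratic condition -/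
lemma quad_real {x w0 s p q : ℕ} (h1 : x ≤ w0) (h2 : 2 * x ≤ p + q)
    (h : (4 * x - s) ^ 2 ≤ 8 * (w0 - x) * (p + q - 2 * x)) :
    4 * (x:ℝ) ≤ s ∨ (4 * (x:ℝ) - s) ^ 2 ≤ 8 * (w0 - x) * ((p:ℝ) + q - 2 * x) := by
  rcases le_total (4 * x) s with c | c
  · left
    exact_mod_cast c
  · right
    have b5 : (((4 * x - s) ^ 2 : ℕ) : ℝ) ≤ ((8 * (w0 - x) * (p + q - 2 * x) : ℕ) : ℝ) := by
      exact_mod_cast h
    push_cast [Nat.cast_sub c, Nat.cast_sub h1, Nat.cast_sub h2] at b5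
    exact b5

lemma fre_dz {n L w : ℕ} {S : ℤ} {dl dr : ℝ} (hl : dl ≤ 2 ^ 37) (hr : dr ≤ 2 ^ 37) (hL : ∀ y, dg L y < 2 ^ 37) (h : chkFr n L w = true) :
    Fre (dz n S dl dr fun y => (dg L y : ℝ)) (dz n S (2 ^ 39) (2 ^ 39) fun y => (dg w y : ℝ)) := by
  have l0 : ∀ m, dz n S dl dr (fun y => (dg L y : ℝ)) m ≤ 2 ^ 37 := dz_le hl hr fun y => by
    have := hL y
    exact_mod_cast this.le
  have w0 : ∀ m, 0 ≤ dz n S (2 ^ 39) (2 ^ 39) (fun y => (dg w y : ℝ)) m :=
    dz_ge (by positivity) (by positivity) fun y => Nat.cast_nonneg _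
  have wo : ∀ m, (m + S < 0 ∨ (n:ℤ) < m + S) →
      dz n S (2 ^ 39) (2 ^ 39) (fun y => (dg w y : ℝ)) m = 2 ^ 39 := by
    intro m hm
    rcases hm with hm | hm
    · exact dz_lo hm
    · exact dz_hi hm
  have e37 : (2:ℝ) ^ 39 = 4 * 2 ^ 37 := by norm_num
  constructor
  · intro m
    rcases dz_cases (n := n) (S := S) m with c | c | ⟨y, hy, hyn⟩
    · rw [wo m (Or.inl c)]
      have := l0 m
      linarith [show (0:ℝ) < 2 ^ 37 by positivity]
    · rw [wo m (Or.inr c)]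
      have := l0 m
      linarith [show (0:ℝ) < 2 ^ 37 by positivity]
    · rw [dz_in hy hyn, dz_in hy hyn]
      exact_mod_cast (chkFr_imp h hyn).1
  · intro m
    have k := l0 m
    have a1 := w0 (m - 1)
    have a2 := w0 (m + 1)
    by_cases c1 : m - 1 + S < 0 ∨ (n:ℤ) < m - 1 + S
    · rw [wo _ c1]
      linarith [show (0:ℝ) < 2 ^ 37 by positivity]
    by_cases c2 : m + 1 + S < 0 ∨ (n:ℤ) < m + 1 + S
    · rw [wo _ c2]
      linarith [show (0:ℝ) < 2 ^ 37 by positivity]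
    obtain ⟨y, hy, hyn⟩ : ∃ y : ℕ, m + S = y ∧ y ≤ n := ⟨(m + S).toNat, by omega, by omega⟩
    have e1 : m - 1 + S = ((y - 1 : ℕ) : ℤ) := by omega
    have e2 : m + 1 + S = ((y + 1 : ℕ) : ℤ) := by omega
    rw [dz_in hy hyn, dz_in e1 (by omega), dz_in e2 (by omega)]
    exact_mod_cast (chkFr_imp h hyn).2.1 (by omega) (by omega)
  · intro m
    have k := l0 m
    have a0 := w0 m
    have a1 := w0 (m - 1)
    have a2 := w0 (m + 2)
    by_cases c1 : m - 1 + S < 0 ∨ (n:ℤ) < m - 1 + S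
    · left
      rw [wo _ c1]
      linarith [show (0:ℝ) < 2 ^ 37 by positivity]
    by_cases c2 : m + 2 + S < 0 ∨ (n:ℤ) < m + 2 + S
    · left
      rw [wo _ c2]
      linarith [show (0:ℝ) < 2 ^ 37 by positivity]
    obtain ⟨y, hy, hyn⟩ : ∃ y : ℕ, m + S = y ∧ y ≤ n := ⟨(m + S).toNat, by omega, by omega⟩
    have e1 : m - 1 + S = ((y - 1 : ℕ) : ℤ) := by omega
    have e2 : m + 1 + S = ((y + 1 : ℕ) : ℤ) := by omega
    have e3 : m + 2 + S = ((y + 2 : ℕ) : ℤ) := by omega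
    rw [dz_in hy hyn, dz_in hy hyn, dz_in e1 (by omega), dz_in e2 (by omega),
      dz_in e3 (by omega)]
    obtain ⟨b1, b2, b3, -⟩ := chkFr_imp h hyn
    have := quad_real b1 (b2 (by omega) (by omega)) (b3 (by omega) (by omega))
    push_cast at this ⊢
    exact this
  · intro m
    have k := l0 m
    have a0 := w0 m
    have a1 := w0 (m + 1)
    have a2 := w0 (m - 2)
    by_cases c1 : m + 1 + S < 0 ∨ (n:ℤ) < m + 1 + S
    · left
      rw [wo _ c1]
      linarith [show (0:ℝ) < 2 ^ 37 by positivity]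
    by_cases c2 : m - 2 + S < 0 ∨ (n:ℤ) < m - 2 + S
    · left
      rw [wo _ c2]
      linarith [show (0:ℝ) < 2 ^ 37 by positivity]
    obtain ⟨y, hy, hyn⟩ : ∃ y : ℕ, m + S = y ∧ y ≤ n := ⟨(m + S).toNat, by omega, by omega⟩
    have e1 : m - 1 + S = ((y - 1 : ℕ) : ℤ) := by omega
    have e2 : m + 1 + S = ((y + 1 : ℕ) : ℤ) := by omega
    have e3 : m - 2 + S = ((y - 2 : ℕ) : ℤ) := by omega
    rw [dz_in hy hyn, dz_in hy hyn, dz_in e1 (by omega), dz_in e2 (by omega),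
      dz_in e3 (by omega)]
    obtain ⟨b1, b2, -, b4⟩ := chkFr_imp h hyn
    have := quad_real b1 (b2 (by omega) (by omega)) (b4 (by omega) (by omega))
    push_cast at this ⊢
    exact this

/-- scaling and shift -/
lemma fre_affine {lam W : ℤ → ℝ} (h : Fre lam W) {s : ℝ} (hs : 0 ≤ s) (c : ℝ) :
    Fre (fun m => s * (lam m - c)) (fun m => s * (W m - c)) := by
  constructor
  · intro m
    exact mul_le_mul_of_nonneg_left (by linarith [h.ge m]) hs
  · intro m
    have := mul_le_mul_of_nonneg_left (h.two m) hs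
    nlinarith
  · intro m
    rcases h.q1 m with k | k
    · left
      have := mul_le_mul_of_nonneg_left k hs
      nlinarith
    · right
      have k2 := mul_le_mul_of_nonneg_left k (mul_nonneg hs hs)
      have e1 : (4 * (s * (lam m - c)) - (s * (W m - c) + 2 * (s * (W (m - 1) - c))
          + s * (W (m + 2) - c))) ^ 2
          = s * s * (4 * lam m - (W m + 2 * W (m - 1) + W (m + 2))) ^ 2 := by ring
      have e2 : 8 * (s * (W m - c) - s * (lam m - c))
          * (s * (W (m - 1) - c) + s * (W (m + 1) - c) - 2 * (s * (lam m - c)))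
          = s * s * (8 * (W m - lam m) * (W (m - 1) + W (m + 1) - 2 * lam m)) := by ring
      rw [e1, e2]
      exact k2
  · intro m
    rcases h.q2 m with k | k
    · left
      have := mul_le_mul_of_nonneg_left k hs
      nlinarith
    · right
      have k2 := mul_le_mul_of_nonneg_left k (mul_nonneg hs hs)
      have e1 : (4 * (s * (lam m - c)) - (s * (W m - c) + 2 * (s * (W (m + 1) - c))
          + s * (W (m - 2) - c))) ^ 2
          = s * s * (4 * lam m - (W m + 2 * W (m + 1) + W (m - 2))) ^ 2 := by ring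
      have e2 : 8 * (s * (W m - c) - s * (lam m - c))
          * (s * (W (m - 1) - c) + s * (W (m + 1) - c) - 2 * (s * (lam m - c)))
          = s * s * (8 * (W m - lam m) * (W (m - 1) + W (m + 1) - 2 * lam m)) := by ring
      rw [e1, e2]
      exact k2

/-! ### Zones -/

/-- the left cut -/
noncomputable def kLc (c : CutP) (S : ℤ) : ℝ := ((c.a : ℝ) - S) + c.tl / c.td

/-- the right cut -/
noncomputable def kRc (c : CutP) (S : ℤ) : ℝ := ((c.b : ℝ) - S) + c.tr / c.td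

lemma chkC_imp {c : CutP} (h : chkC c = true) :
    c.a < c.b ∧ c.b < c.n ∧ c.tl ≤ c.td ∧ c.tr ≤ c.td ∧ 0 < c.td := by
  unfold chkC at h
  simp only [Bool.and_eq_true] at h
  obtain ⟨⟨⟨⟨h1, h2⟩, h3⟩, h4⟩, h5⟩ := h
  exact ⟨Nat.le_of_ble_eq_true h1, Nat.le_of_ble_eq_true h2, Nat.le_of_ble_eq_true h3,
    Nat.le_of_ble_eq_true h4, Nat.le_of_ble_eq_true h5⟩

/-- comparison at a rational point of a cell -/
lemma pl_cut {f g : ℤ → ℝ} {k : ℤ} {tn td : ℕ} (h0 : 0 < td) (h1 : tn ≤ td)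
    (h : ((td - tn : ℕ) : ℝ) * f k + tn * f (k + 1)
      ≤ ((td - tn : ℕ) : ℝ) * g k + tn * g (k + 1)) :
    pl f (k + (tn:ℝ) / td) ≤ pl g (k + (tn:ℝ) / td) := by
  have hd : (0:ℝ) < td := by exact_mod_cast h0
  have t0 : 0 ≤ (tn:ℝ) / td := by positivity
  have t1 : (tn:ℝ) / td ≤ 1 := by
    rw [div_le_one hd]
    exact_mod_cast h1
  rw [pl_of_mem f (k := k) (by linarith) (by linarith),
    pl_of_mem g (k := k) (by linarith) (by linarith)]
  have e1 : (k:ℝ) + 1 - (k + (tn:ℝ) / td) = ((td - tn : ℕ) : ℝ) / td := by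
    rw [Nat.cast_sub h1]
    field_simp
    ring
  have e2 : (k:ℝ) + (tn:ℝ) / td - k = tn / td := by ring
  rw [e1, e2]
  have := div_le_div_of_nonneg_right h hd.le
  have e3 : ∀ f : ℤ → ℝ, (((td - tn : ℕ) : ℝ) * f k + tn * f (k + 1)) / td
      = ((td - tn : ℕ) : ℝ) / td * f k + tn / td * f (k + 1) := by
    intro f
    ring
  rw [e3, e3] at this
  exact this

lemma kLc_bd {c : CutP} (h : chkC c = true) (S : ℤ) :
    (((c.a : ℤ) - S : ℤ) : ℝ) ≤ kLc c S ∧ kLc c S ≤ (((c.a : ℤ) - S : ℤ) : ℝ) + 1 := by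
  obtain ⟨-, -, h3, -, h5⟩ := chkC_imp h
  have hd : (0:ℝ) < c.td := by exact_mod_cast h5
  have t0 : 0 ≤ (c.tl:ℝ) / c.td := by positivity
  have t1 : (c.tl:ℝ) / c.td ≤ 1 := by
    rw [div_le_one hd]
    exact_mod_cast h3
  unfold kLc
  push_cast
  constructor <;> linarith

lemma kRc_bd {c : CutP} (h : chkC c = true) (S : ℤ) :
    (((c.b : ℤ) - S : ℤ) : ℝ) ≤ kRc c S ∧ kRc c S ≤ (((c.b : ℤ) - S : ℤ) : ℝ) + 1 := by
  obtain ⟨-, -, -, h4, h5⟩ := chkC_imp h
  have hd : (0:ℝ) < c.td := by exact_mod_cast h5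
  have t0 : 0 ≤ (c.tr:ℝ) / c.td := by positivity
  have t1 : (c.tr:ℝ) / c.td ≤ 1 := by
    rw [div_le_one hd]
    exact_mod_cast h4
  unfold kRc
  push_cast
  constructor <;> linarith

/-- THE ZONE CONDITIONS from the integer check -/
theorem zone5_of_chk {c : CutP} (hc : chkC c = true) {q : Prc} {ex : ℕ} {e : Ect} {L : ℕ}
    (h : chkZn c q ex e L = true) (S : ℤ) {lam : Fin 5 → ℤ → ℝ}
    (hin : ∀ i (y : ℕ), y ≤ c.n → lam i ((y : ℤ) - S) ≤ zd c q (z53 i) y + dg ex y + czN e i)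
    (hout : ∀ i m, (m + S < 0 ∨ (c.n : ℤ) < m + S) → lam i m ≤ 2 ^ 37) :
    Zone5 (kLc c S) (kRc c S) lam (LZ c S L) := by
  obtain ⟨g1, g2, g3, g4, g5⟩ := chkC_imp hc
  unfold chkZn at h
  simp only [Bool.and_eq_true] at h
  obtain ⟨⟨⟨⟨⟨⟨⟨⟨z0, z2⟩, z4⟩, k0⟩, k1⟩, k2⟩, k3⟩, k4⟩, k5⟩ := h
  have hL : ∀ y : ℕ, y ≤ c.n → LZ c S L ((y : ℤ) - S) = dg L y := fun y hy =>
    dz_in (by ring) hy
  have n0 : ∀ y ≤ c.a, (dg q.g y : ℝ) + dg ex y + e.c0 ≤ dg L y := by
    intro y hy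
    have := Nat.le_of_ble_eq_true ((allN_iff _ _).1 z0 y (Nat.lt_succ_of_le hy))
    have e1 : dg q.g y + (dg ex y + e.c0) ≤ dg L y := this
    rw [← add_assoc] at e1
    exact_mod_cast e1
  have n2 : ∀ y, c.a < y → y ≤ c.b → (dg q.g y : ℝ) + dg ex y + e.c2 ≤ dg L y := by
    intro y hy hy'
    have := Nat.le_of_ble_eq_true ((allN_iff _ _).1 z2 (y - (c.a + 1))
      (show y - (c.a + 1) < c.b - c.a by omega))
    have e0 : Nat.add (Nat.succ c.a) (y - (c.a + 1)) = y := by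
      show c.a + 1 + (y - (c.a + 1)) = y
      omega
    rw [e0] at this
    have e1 : dg q.g y + (dg ex y + e.c2) ≤ dg L y := this
    rw [← add_assoc] at e1
    exact_mod_cast e1
  have n4 : ∀ y, c.b < y → y ≤ c.n → (dg q.g y : ℝ) + dg ex y + e.c4 ≤ dg L y := by
    intro y hy hy'
    have := Nat.le_of_ble_eq_true ((allN_iff _ _).1 z4 (y - (c.b + 1))
      (show y - (c.b + 1) < c.n - c.b by omega))
    have e0 : Nat.add (Nat.succ c.b) (y - (c.b + 1)) = y := by
      show c.b + 1 + (y - (c.b + 1)) = y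
      omega
    rw [e0] at this
    have e1 : dg q.g y + (dg ex y + e.c4) ≤ dg L y := this
    rw [← add_assoc] at e1
    exact_mod_cast e1
  -- values of the zone tables
  have v0 : ∀ y ≤ c.a, zd c q 0 y = dg q.g y := fun y hy => by
    unfold zd
    rw [if_pos rfl, if_pos hy]
  have v0' : zd c q 0 (c.a + 1) = q.x0 := by
    unfold zd
    rw [if_pos rfl, if_neg (by omega), if_pos rfl]
  have v1 : ∀ y, c.a < y → y ≤ c.b → zd c q 1 y = dg q.g y := fun y hy hy' => by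
    unfold zd
    rw [if_neg (by decide), if_pos rfl, if_neg (by omega), if_neg (by omega), if_pos ⟨hy, hy'⟩]
  have v1a : zd c q 1 c.a = q.x1 := by
    unfold zd
    rw [if_neg (by decide), if_pos rfl, if_pos rfl]
  have v1b : zd c q 1 (c.b + 1) = q.x2 := by
    unfold zd
    rw [if_neg (by decide), if_pos rfl, if_neg (by omega), if_pos rfl]
  have v2 : ∀ y, c.b < y → zd c q 2 y = dg q.g y := fun y hy => by
    unfold zd
    rw [if_neg (by decide), if_neg (by decide), if_neg (by omega), if_pos hy]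
  have v2b : zd c q 2 c.b = q.x3 := by
    unfold zd
    rw [if_neg (by decide), if_neg (by decide), if_pos rfl]
  have s0 : z53 (0 : Fin 5) = 0 := by decide
  have s1 : z53 (1 : Fin 5) = 1 := by decide
  have s2 : z53 (2 : Fin 5) = 1 := by decide
  have s3 : z53 (3 : Fin 5) = 1 := by decide
  have s4 : z53 (4 : Fin 5) = 2 := by decide
  have c0 : czN e 0 = e.c0 := rfl
  have c1 : czN e 1 = e.c1 := rfl
  have c2 : czN e 2 = e.c2 := rfl
  have c3 : czN e 3 = e.c3 := rfl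
  have c4 : czN e 4 = e.c4 := rfl
  have ea : ((c.a : ℤ) - S) + 1 = ((c.a + 1 : ℕ) : ℤ) - S := by push_cast; ring
  have eb : ((c.b : ℤ) - S) + 1 = ((c.b + 1 : ℕ) : ℤ) - S := by push_cast; ring
  have eL : kLc c S = (((c.a : ℤ) - S : ℤ) : ℝ) + (c.tl : ℝ) / c.td := by
    unfold kLc
    push_cast
    ring
  have eR : kRc c S = (((c.b : ℤ) - S : ℤ) : ℝ) + (c.tr : ℝ) / c.td := by
    unfold kRc
    push_cast
    ring
  -- one cut inequality
  have cut : ∀ (i : Fin 5) (y tn : ℕ) (p r : ℕ), y + 1 ≤ c.n → tn ≤ c.td →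
      lam i ((y : ℤ) - S) ≤ p → lam i (((y + 1 : ℕ) : ℤ) - S) ≤ r →
      (c.td - tn) * p + tn * r ≤ (c.td - tn) * dg L y + tn * dg L (y + 1) →
      pl (lam i) ((((y : ℤ) - S : ℤ) : ℝ) + (tn : ℝ) / c.td)
        ≤ pl (LZ c S L) ((((y : ℤ) - S : ℤ) : ℝ) + (tn : ℝ) / c.td) := by
    intro i y tn p r hy htn hp hr hh
    refine pl_cut g5 htn ?_
    have e1 : ((y : ℤ) - S) + 1 = ((y + 1 : ℕ) : ℤ) - S := by push_cast; ring
    rw [e1, hL y (by omega), hL (y + 1) hy]
    have a1 := mul_le_mul_of_nonneg_left hp (Nat.cast_nonneg (α := ℝ) (c.td - tn))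
    have a2 := mul_le_mul_of_nonneg_left hr (Nat.cast_nonneg (α := ℝ) tn)
    have a3 : ((c.td - tn : ℕ) : ℝ) * p + tn * r
        ≤ ((c.td - tn : ℕ) : ℝ) * dg L y + tn * dg L (y + 1) := by exact_mod_cast hh
    linarith
  have nat3 : ∀ p q r : ℕ, a3 p q r = p + q + r := fun p q r => (add_assoc p q r).symm
  refine Zone5.of_nodes (a := (c.a : ℤ) - S) (b := (c.b : ℤ) - S) (kLc_bd hc S).1 (kLc_bd hc S).2
    (kRc_bd hc S).1 (kRc_bd hc S).2 (by omega) ?_ ?_ ?_ ?_ ?_ ?_ ?_ ?_ ?_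
  · intro m hm
    rcases dz_cases (n := c.n) (S := S) m with o | o | ⟨y, hy, hyn⟩
    · refine (hout 0 m (Or.inl o)).trans (le_of_eq ?_)
      exact (dz_lo o).symm
    · omega
    · have em : m = (y : ℤ) - S := by omega
      rw [em, hL y hyn]
      refine (hin 0 y hyn).trans ?_
      rw [s0, v0 y (by omega), c0]
      exact n0 y (by omega)
  · intro m hm hm'
    obtain ⟨y, hy⟩ : ∃ y : ℕ, m = (y : ℤ) - S := ⟨(m + S).toNat, by omega⟩
    rw [hy, hL y (by omega)]
    refine (hin 2 y (by omega)).trans ?_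
    rw [s2, v1 y (by omega) (by omega), c2]
    exact n2 y (by omega) (by omega)
  · intro m hm
    rcases dz_cases (n := c.n) (S := S) m with o | o | ⟨y, hy, hyn⟩
    · omega
    · refine (hout 4 m (Or.inr o)).trans (le_of_eq ?_)
      exact (dz_hi o).symm
    · have em : m = (y : ℤ) - S := by omega
      rw [em, hL y hyn]
      refine (hin 4 y hyn).trans ?_
      rw [s4, v2 y (by omega), c4]
      exact n4 y (by omega) hyn
  · rw [eL]
    refine cut 0 c.a c.tl (a3 (dg q.g c.a) (dg ex c.a) e.c0) (a3 q.x0 (dg ex (c.a + 1)) e.c0)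
      (by omega) g3 ?_ ?_ (Nat.le_of_ble_eq_true k0)
    · have := hin 0 c.a (by omega)
      rw [s0, v0 _ le_rfl, c0] at this
      rw [nat3]
      push_cast
      exact this
    · have := hin 0 (c.a + 1) (by omega)
      rw [s0, v0', c0] at this
      rw [nat3]
      push_cast at this ⊢
      exact this
  · rw [eL]
    refine cut 1 c.a c.tl (a3 q.x1 (dg ex c.a) e.c1) (a3 (dg q.g (c.a + 1)) (dg ex (c.a + 1)) e.c1)
      (by omega) g3 ?_ ?_ (Nat.le_of_ble_eq_true k1)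
    · have := hin 1 c.a (by omega)
      rw [s1, v1a, c1] at this
      rw [nat3]
      push_cast
      exact this
    · have := hin 1 (c.a + 1) (by omega)
      rw [s1, v1 _ (by omega) (by omega), c1] at this
      rw [nat3]
      push_cast at this ⊢
      exact this
  · rw [eL]
    refine cut 2 c.a c.tl (a3 q.x1 (dg ex c.a) e.c2) (a3 (dg q.g (c.a + 1)) (dg ex (c.a + 1)) e.c2)
      (by omega) g3 ?_ ?_ (Nat.le_of_ble_eq_true k2)
    · have := hin 2 c.a (by omega)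
      rw [s2, v1a, c2] at this
      rw [nat3]
      push_cast
      exact this
    · have := hin 2 (c.a + 1) (by omega)
      rw [s2, v1 _ (by omega) (by omega), c2] at this
      rw [nat3]
      push_cast at this ⊢
      exact this
  · rw [eR]
    refine cut 2 c.b c.tr (a3 (dg q.g c.b) (dg ex c.b) e.c2) (a3 q.x2 (dg ex (c.b + 1)) e.c2)
      (by omega) g4 ?_ ?_ (Nat.le_of_ble_eq_true k3)
    · have := hin 2 c.b (by omega)
      rw [s2, v1 _ (by omega) le_rfl, c2] at this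
      rw [nat3]
      push_cast
      exact this
    · have := hin 2 (c.b + 1) (by omega)
      rw [s2, v1b, c2] at this
      rw [nat3]
      push_cast at this ⊢
      exact this
  · rw [eR]
    refine cut 3 c.b c.tr (a3 (dg q.g c.b) (dg ex c.b) e.c3) (a3 q.x2 (dg ex (c.b + 1)) e.c3)
      (by omega) g4 ?_ ?_ (Nat.le_of_ble_eq_true k4)
    · have := hin 3 c.b (by omega)
      rw [s3, v1 _ (by omega) le_rfl, c3] at this
      rw [nat3]
      push_cast
      exact this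
    · have := hin 3 (c.b + 1) (by omega)
      rw [s3, v1b, c3] at this
      rw [nat3]
      push_cast at this ⊢
      exact this
  · rw [eR]
    refine cut 4 c.b c.tr (a3 q.x3 (dg ex c.b) e.c4) (a3 (dg q.g (c.b + 1)) (dg ex (c.b + 1)) e.c4)
      (by omega) g4 ?_ ?_ (Nat.le_of_ble_eq_true k5)
    · have := hin 4 c.b (by omega)
      rw [s4, v2b, c4] at this
      rw [nat3]
      push_cast
      exact this
    · have := hin 4 (c.b + 1) (by omega)
      rw [s4, v2 _ (by omega), c4] at this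
      rw [nat3]
      push_cast at this ⊢
      exact this

/-! ### Midpoints -/

/-- the midpoint majorant of the right labels -/
noncomputable def hRz (c : CutP) (S : ℤ) (q : Prc) (mid : ℕ) : ℤ → ℝ :=
  dz c.n S 0 0 fun y => if mid < y then (dg q.h y : ℝ) else 0

/-- the midpoint majorant of the left labels -/
noncomputable def hLz (c : CutP) (S : ℤ) (q : Prc) (mid : ℕ) : ℤ → ℝ :=
  dz c.n S 0 0 fun y => if mid < y then 0 else (dg q.h y : ℝ)

/-- both -/
noncomputable def hAz (c : CutP) (S : ℤ) (q : Prc) : ℤ → ℝ :=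
  dz c.n S 0 0 fun y => (dg q.h y : ℝ)

/-- node values of the midpoints, digit `m + 2 s0` -/
noncomputable def WMz (P : ℕ) (s0 : ℤ) (w : ℕ) : ℤ → ℝ :=
  dz (2 * P) (2 * s0) (2 ^ 42) (2 ^ 42) fun y => (dg w y : ℝ)

lemma chkMd_imp {P num den h w : ℕ} (hh : chkMd P num den h w = true) :
    num ≤ den ∧ 0 < den ∧ 0 < P ∧ ∀ κ ≤ P,
      lav num den P h κ ≤ 2 * den * dg w (2 * κ) ∧
      (κ < P → lav num den P h κ + lav num den P h (κ + 1) ≤ 4 * den * dg w (2 * κ + 1)) ∧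
      (0 < κ → κ < P → 2 * lav num den P h κ
        ≤ den * (dg w (2 * κ - 1) + dg w (2 * κ + 1) + 2 * dg w (2 * κ))) := by
  unfold chkMd at hh
  simp only [Bool.and_eq_true] at hh
  obtain ⟨⟨⟨h1, h2⟩, h3⟩, h4⟩ := hh
  refine ⟨Nat.le_of_ble_eq_true h1, Nat.le_of_ble_eq_true h2, Nat.le_of_ble_eq_true h3,
    fun κ hκ => ?_⟩
  have h5 := (allN_iff _ _).1 h4 κ (Nat.lt_succ_of_le hκ)
  simp only [Bool.and_eq_true] at h5
  obtain ⟨⟨b1, b2⟩, b3⟩ := h5
  exact ⟨Nat.le_of_ble_eq_true b1, fun hk => Nat.le_of_ble_eq_true (grd_imp b2 (Nat.sub_pos_of_lt hk)),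
    fun h0 hk => Nat.le_of_ble_eq_true (grd_imp (grd_imp b3 h0) (Nat.sub_pos_of_lt hk))⟩

lemma lav_real {num den P h κ : ℕ} (hd : 0 < den) (hP : 0 < P) {n : ℕ} (hn : κ + P < n) {S : ℤ}
    {k : ℤ} (hk : k + S = ((κ + P : ℕ) : ℤ)) :
    avN ((num:ℝ) / den) (dz n S 0 0 fun y => (dg h y : ℝ)) k
      = (lav num den P h κ : ℝ) / (2 * den) := by
  have hd' : (0:ℝ) < den := by exact_mod_cast hd
  unfold avN d2p
  have e1 : k - 1 + S = ((κ + P - 1 : ℕ) : ℤ) := by omega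
  have e2 : k + 1 + S = ((κ + P + 1 : ℕ) : ℤ) := by omega
  rw [dz_in hk (by omega), dz_in e1 (by omega), dz_in e2 (by omega)]
  have e3 : (((dg h (κ + P - 1) + dg h (κ + P + 1) - 2 * dg h (κ + P) : ℕ)) : ℝ)
      = max 0 ((dg h (κ + P - 1) : ℝ) - 2 * dg h (κ + P) + dg h (κ + P + 1)) := by
    rcases le_total (2 * dg h (κ + P)) (dg h (κ + P - 1) + dg h (κ + P + 1)) with c | c
    · rw [Nat.cast_sub c, max_eq_right]
      · push_cast
        ring
      · have : (2 * (dg h (κ + P) : ℝ)) ≤ dg h (κ + P - 1) + dg h (κ + P + 1) := by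
          exact_mod_cast c
        linarith
    · rw [Nat.sub_eq_zero_of_le c, max_eq_left]
      · simp
      · have : (dg h (κ + P - 1) + dg h (κ + P + 1) : ℝ) ≤ 2 * (dg h (κ + P) : ℝ) := by
          exact_mod_cast c
        linarith
  rw [← e3]
  have e4 : lav num den P h κ = 2 * den * dg h (κ + P)
      + num * (dg h (κ + P - 1) + dg h (κ + P + 1) - 2 * dg h (κ + P)) := rfl
  rw [e4]
  push_cast
  field_simp

lemma avN_bd {d B : ℝ} (hd0 : 0 ≤ d) (hd1 : d ≤ 1) {f : ℤ → ℝ} (h0 : ∀ m, 0 ≤ f m)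
    (h1 : ∀ m, f m ≤ B) (k : ℤ) : 0 ≤ avN d f k ∧ avN d f k ≤ 2 * B := by
  have hB : 0 ≤ B := (h0 0).trans (h1 0)
  have e : d2p f k ≤ 2 * B := by
    unfold d2p
    refine max_le (by linarith) ?_
    have := h1 (k - 1)
    have := h1 (k + 1)
    have := h0 k
    linarith
  have e0 := d2p_nonneg f k
  unfold avN
  constructor
  · have := h0 k
    have := mul_nonneg (by positivity : 0 ≤ d / 2) e0
    linarith
  · have := h1 k
    have h2 := mul_le_mul (by linarith : d / 2 ≤ 1 / 2) e e0 (by norm_num)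
    linarith

/-- THE MIDPOINT RULE from the integer check (integer units); `S = P + s0` -/
theorem mid_of_chk {c : CutP} {P num den : ℕ} {q : Prc} {w : ℕ}
    (h : chkMd P num den q.h w = true) (hsz : ∀ y, dg q.h y < 2 ^ 36) {s0 S : ℤ}
    (hS : S = P + s0) (hn : 2 * P < c.n) :
    FreM (avN ((num:ℝ) / den) (hAz c S q)) (WMz P s0 w) := by
  obtain ⟨h1, h2, h3, h4⟩ := chkMd_imp h
  have hd' : (0:ℝ) < den := by exact_mod_cast h2
  have hd0 : 0 ≤ (num:ℝ) / den := by positivity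
  have hd1 : (num:ℝ) / den ≤ 1 := by
    rw [div_le_one hd']
    exact_mod_cast h1
  have hA0 : ∀ m, 0 ≤ hAz c S q m := dz_ge le_rfl le_rfl fun y => Nat.cast_nonneg _
  have hA1 : ∀ m, hAz c S q m ≤ 2 ^ 36 := dz_le (by positivity) (by positivity) fun y => by
    have := hsz y
    exact_mod_cast this.le
  have av := avN_bd hd0 hd1 hA0 hA1
  have w0 : ∀ m, 0 ≤ WMz P s0 w m := dz_ge (by positivity) (by positivity) fun y => by positivity
  have wo : ∀ m, (m + 2 * s0 < 0 ∨ ((2 * P : ℕ) : ℤ) < m + 2 * s0) →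
      WMz P s0 w m = 2 ^ 42 := by
    intro m hm
    rcases hm with hm | hm
    · exact dz_lo hm
    · exact dz_hi hm
  have win : ∀ (m : ℤ) (y : ℕ), m + 2 * s0 = y → y ≤ 2 * P → WMz P s0 w m = dg w y :=
    fun m y hy hy' => dz_in hy hy'
  have lin : ∀ (k : ℤ) (κ : ℕ), k + s0 = κ → κ ≤ P →
      avN ((num:ℝ) / den) (hAz c S q) k = (lav num den P q.h κ : ℝ) / (2 * den) := by
    intro k κ hk hκ
    exact lav_real h2 h3 (n := c.n) (by omega) (by rw [hS]; push_cast; omega)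
  constructor
  · intro k
    by_cases o : 2 * k + 2 * s0 < 0 ∨ ((2 * P : ℕ) : ℤ) < 2 * k + 2 * s0
    · rw [wo _ o]
      have := (av k).2
      norm_num at *
      linarith
    · obtain ⟨κ, hκ⟩ : ∃ κ : ℕ, k + s0 = κ := ⟨(k + s0).toNat, by omega⟩
      rw [win (2 * k) (2 * κ) (by push_cast; omega) (by omega), lin k κ hκ (by omega)]
      have b := (h4 κ (by omega)).1
      have b' : (lav num den P q.h κ : ℝ) ≤ 2 * den * dg w (2 * κ) := by exact_mod_cast b
      rw [div_le_iff₀ (by positivity)]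
      linarith
  · intro k
    by_cases o : 2 * k + 1 + 2 * s0 < 0 ∨ ((2 * P : ℕ) : ℤ) < 2 * k + 1 + 2 * s0
    · rw [wo _ o]
      have := (av k).2
      have := (av (k + 1)).2
      norm_num at *
      linarith
    · obtain ⟨κ, hκ⟩ : ∃ κ : ℕ, k + s0 = κ := ⟨(k + s0).toNat, by omega⟩
      rw [win (2 * k + 1) (2 * κ + 1) (by push_cast; omega) (by omega), lin k κ hκ (by omega),
        lin (k + 1) (κ + 1) (by push_cast; omega) (by omega)]
      have b := (h4 κ (by omega)).2.1 (by omega)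
      have b' : (lav num den P q.h κ : ℝ) + lav num den P q.h (κ + 1)
          ≤ 4 * den * dg w (2 * κ + 1) := by exact_mod_cast b
      rw [← add_div, div_le_iff₀ (by positivity)]
      linarith
  · intro k
    have a0 := w0 (2 * k)
    have a1 := w0 (2 * k - 1)
    have a2 := w0 (2 * k + 1)
    have a3 := (av k).2
    by_cases o1 : 2 * k - 1 + 2 * s0 < 0 ∨ ((2 * P : ℕ) : ℤ) < 2 * k - 1 + 2 * s0
    · rw [wo _ o1]
      norm_num at *
      linarith
    by_cases o2 : 2 * k + 1 + 2 * s0 < 0 ∨ ((2 * P : ℕ) : ℤ) < 2 * k + 1 + 2 * s0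
    · rw [wo _ o2]
      norm_num at *
      linarith
    obtain ⟨κ, hκ⟩ : ∃ κ : ℕ, k + s0 = κ := ⟨(k + s0).toNat, by omega⟩
    rw [win (2 * k - 1) (2 * κ - 1) (by omega) (by omega),
      win (2 * k + 1) (2 * κ + 1) (by push_cast; omega) (by omega),
      win (2 * k) (2 * κ) (by push_cast; omega) (by omega), lin k κ hκ (by omega)]
    have b := (h4 κ (by omega)).2.2 (by omega) (by omega)
    have b' : 2 * (lav num den P q.h κ : ℝ)
        ≤ den * (dg w (2 * κ - 1) + dg w (2 * κ + 1) + 2 * dg w (2 * κ)) := by exact_mod_cast b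
    rw [← mul_div_assoc, div_le_iff₀ (by positivity)]
    linarith

/-- the two one-sided majorants -/
lemma avN_split {c : CutP} {q : Prc} {mid : ℕ} (h0 : dg q.h mid = 0) (h1 : dg q.h (mid + 1) = 0)
    (S : ℤ) {d : ℝ} (hd : 0 ≤ d) (k : ℤ) :
    avN d (hRz c S q mid) k + avN d (hLz c S q mid) k ≤ avN d (hAz c S q) k := by
  have sp : ∀ m, hRz c S q mid m + hLz c S q mid m = hAz c S q m := by
    intro m
    unfold hRz hLz hAz
    rcases dz_cases (n := c.n) (S := S) m with o | o | ⟨y, hy, hyn⟩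
    · rw [dz_lo o, dz_lo o, dz_lo o, add_zero]
    · rw [dz_hi o, dz_hi o, dz_hi o, add_zero]
    · rw [dz_in hy hyn, dz_in hy hyn, dz_in hy hyn]
      split_ifs <;> ring
  have R0 : ∀ m, m + S ≤ mid + 1 → hRz c S q mid m = 0 := by
    intro m hm'
    unfold hRz
    rcases dz_cases (n := c.n) (S := S) m with o | o | ⟨y, hy, hyn⟩
    · exact dz_lo o
    · exact dz_hi o
    · rw [dz_in hy hyn]
      split_ifs with cc
      · have : y = mid + 1 := by omega
        rw [this, h1, Nat.cast_zero]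
      · rfl
  have L0 : ∀ m, (mid : ℤ) ≤ m + S → hLz c S q mid m = 0 := by
    intro m hm'
    unfold hLz
    rcases dz_cases (n := c.n) (S := S) m with o | o | ⟨y, hy, hyn⟩
    · exact dz_lo o
    · exact dz_hi o
    · rw [dz_in hy hyn]
      split_ifs with cc
      · rfl
      · have : y = mid := by omega
        rw [this, h0, Nat.cast_zero]
  have key : d2p (hRz c S q mid) k + d2p (hLz c S q mid) k ≤ d2p (hAz c S q) k := by
    unfold d2p
    rw [← sp, ← sp, ← sp]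
    rcases le_or_gt (k + S) mid with o | o
    · rw [R0 (k - 1) (by omega), R0 k (by omega), R0 (k + 1) (by omega)]
      simp
    · rw [L0 (k - 1) (by omega), L0 k (by omega), L0 (k + 1) (by omega)]
      simp
  unfold avN
  have := mul_le_mul_of_nonneg_left key (by positivity : 0 ≤ d / 2)
  have := sp k
  linarith

/-- DOMINATION OF THE PRICES by the midpoint majorants -/
theorem dom_of_chk {c : CutP} (hc : chkC c = true) {q : Prc} {yl mid yr : ℕ}
    (h : chkHd c q yl mid yr = true) (S : ℤ) :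
    (∀ x : ℝ, ((yr : ℤ) - S : ℤ) ≤ x → x ≤ kRc c S → pl (gZ c S q 1) x ≤ pl (hRz c S q mid) x)
    ∧ (∀ x : ℝ, kRc c S ≤ x → pl (gZ c S q 2) x ≤ pl (hRz c S q mid) x)
    ∧ (∀ x : ℝ, kLc c S ≤ x → x ≤ ((yl : ℤ) - S : ℤ) → pl (gZ c S q 1) x ≤ pl (hLz c S q mid) x)
    ∧ (∀ x : ℝ, x ≤ kLc c S → pl (gZ c S q 0) x ≤ pl (hLz c S q mid) x) := by
  obtain ⟨g1, g2, g3, g4, g5⟩ := chkC_imp hc
  unfold chkHd at h
  simp only [Bool.and_eq_true] at h
  obtain ⟨⟨⟨⟨⟨⟨⟨⟨⟨⟨⟨z0, z1⟩, o1⟩, o2⟩, o3⟩, o4⟩, n1⟩, n2⟩, k1⟩, k2⟩, k3⟩, k4⟩ := h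
  have i1 : c.a + 1 ≤ yl := Nat.le_of_ble_eq_true o1
  have i2 : yl ≤ mid := Nat.le_of_ble_eq_true o2
  have i3 : mid + 1 ≤ yr := Nat.le_of_ble_eq_true o3
  have i4 : yr ≤ c.b := Nat.le_of_ble_eq_true o4
  have m1 : ∀ y ≤ yl, dg q.g y ≤ dg q.h y := fun y hy =>
    Nat.le_of_ble_eq_true ((allN_iff _ _).1 n1 y (Nat.lt_succ_of_le hy))
  have m2 : ∀ y, yr ≤ y → y ≤ c.n → dg q.g y ≤ dg q.h y := fun y hy hy' => by
    have := Nat.le_of_ble_eq_true ((allN_iff _ _).1 n2 (y - yr) (show y - yr < c.n + 1 - yr by omega))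
    have e0 : Nat.add yr (y - yr) = y := by
      show yr + (y - yr) = y
      omega
    rwa [e0] at this
  have hR : ∀ (m : ℤ) (y : ℕ), m + S = y → mid < y → y ≤ c.n → hRz c S q mid m = dg q.h y :=
    fun m y hy hy1 hy2 => by
      unfold hRz
      rw [dz_in hy hy2, if_pos hy1]
  have hL : ∀ (m : ℤ) (y : ℕ), m + S = y → y ≤ mid → y ≤ c.n → hLz c S q mid m = dg q.h y :=
    fun m y hy hy1 hy2 => by
      unfold hLz
      rw [dz_in hy hy2, if_neg (by omega)]
  have gz : ∀ (i : Fin 3) (m : ℤ) (y : ℕ), m + S = y → y ≤ c.n → gZ c S q i m = zd c q i y :=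
    fun i m y hy hy' => by
      unfold gZ
      rw [dz_in hy hy']
  have v0 : ∀ y ≤ c.a, zd c q 0 y = dg q.g y := fun y hy => by
    unfold zd
    rw [if_pos rfl, if_pos hy]
  have v0' : zd c q 0 (c.a + 1) = q.x0 := by
    unfold zd
    rw [if_pos rfl, if_neg (by omega), if_pos rfl]
  have v1 : ∀ y, c.a < y → y ≤ c.b → zd c q 1 y = dg q.g y := fun y hy hy' => by
    unfold zd
    rw [if_neg (by decide), if_pos rfl, if_neg (by omega), if_neg (by omega), if_pos ⟨hy, hy'⟩]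
  have v1a : zd c q 1 c.a = q.x1 := by
    unfold zd
    rw [if_neg (by decide), if_pos rfl, if_pos rfl]
  have v1b : zd c q 1 (c.b + 1) = q.x2 := by
    unfold zd
    rw [if_neg (by decide), if_pos rfl, if_neg (by omega), if_pos rfl]
  have v2 : ∀ y, c.b < y → zd c q 2 y = dg q.g y := fun y hy => by
    unfold zd
    rw [if_neg (by decide), if_neg (by decide), if_neg (by omega), if_pos hy]
  have v2b : zd c q 2 c.b = q.x3 := by
    unfold zd
    rw [if_neg (by decide), if_neg (by decide), if_pos rfl]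
  have ea : ((c.a : ℤ) - S) + 1 = ((c.a + 1 : ℕ) : ℤ) - S := by push_cast; ring
  have eb : ((c.b : ℤ) - S) + 1 = ((c.b + 1 : ℕ) : ℤ) - S := by push_cast; ring
  have eL : kLc c S = (((c.a : ℤ) - S : ℤ) : ℝ) + (c.tl : ℝ) / c.td := by
    unfold kLc
    push_cast
    ring
  have eR : kRc c S = (((c.b : ℤ) - S : ℤ) : ℝ) + (c.tr : ℝ) / c.td := by
    unfold kRc
    push_cast
    ring
  have l2eq : ∀ u v p r : ℕ, l2r u v p r = u * p + v * r := fun _ _ _ _ => rfl
  have q1 := Nat.le_of_ble_eq_true k1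
  have q2 := Nat.le_of_ble_eq_true k2
  have q3 := Nat.le_of_ble_eq_true k3
  have q4 := Nat.le_of_ble_eq_true k4
  rw [l2eq, l2eq] at q1 q2 q3 q4
  -- cuts
  have cR1 : pl (gZ c S q 1) (kRc c S) ≤ pl (hRz c S q mid) (kRc c S) := by
    rw [eR]
    refine pl_cut g5 g4 ?_
    rw [eb, gz 1 _ c.b (by ring) (by omega), gz 1 _ (c.b + 1) (by ring) (by omega),
      hR _ c.b (by ring) (by omega) (by omega), hR _ (c.b + 1) (by ring) (by omega) (by omega),
      v1 _ (by omega) le_rfl, v1b]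
    exact_mod_cast q3
  have cR2 : pl (gZ c S q 2) (kRc c S) ≤ pl (hRz c S q mid) (kRc c S) := by
    rw [eR]
    refine pl_cut g5 g4 ?_
    rw [eb, gz 2 _ c.b (by ring) (by omega), gz 2 _ (c.b + 1) (by ring) (by omega),
      hR _ c.b (by ring) (by omega) (by omega), hR _ (c.b + 1) (by ring) (by omega) (by omega),
      v2b, v2 _ (by omega)]
    exact_mod_cast q4
  have cL0 : pl (gZ c S q 0) (kLc c S) ≤ pl (hLz c S q mid) (kLc c S) := by
    rw [eL]
    refine pl_cut g5 g3 ?_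
    rw [ea, gz 0 _ c.a (by ring) (by omega), gz 0 _ (c.a + 1) (by ring) (by omega),
      hL _ c.a (by ring) (by omega) (by omega), hL _ (c.a + 1) (by ring) (by omega) (by omega),
      v0 _ le_rfl, v0']
    exact_mod_cast q1
  have cL1 : pl (gZ c S q 1) (kLc c S) ≤ pl (hLz c S q mid) (kLc c S) := by
    rw [eL]
    refine pl_cut g5 g3 ?_
    rw [ea, gz 1 _ c.a (by ring) (by omega), gz 1 _ (c.a + 1) (by ring) (by omega),
      hL _ c.a (by ring) (by omega) (by omega), hL _ (c.a + 1) (by ring) (by omega) (by omega),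
      v1a, v1 _ (by omega) (by omega)]
    exact_mod_cast q2
  -- node inequalities
  have nR1 : ∀ m : ℤ, (yr : ℤ) - S ≤ m → m ≤ (c.b : ℤ) - S →
      gZ c S q 1 m ≤ hRz c S q mid m := by
    intro m hm hm'
    obtain ⟨y, hy⟩ : ∃ y : ℕ, m + S = y := ⟨(m + S).toNat, by omega⟩
    rw [gz 1 m y hy (by omega), hR m y hy (by omega) (by omega), v1 y (by omega) (by omega)]
    exact_mod_cast m2 y (by omega) (by omega)
  have nL1 : ∀ m : ℤ, ((c.a + 1 : ℕ) : ℤ) - S ≤ m → m ≤ (yl : ℤ) - S →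
      gZ c S q 1 m ≤ hLz c S q mid m := by
    intro m hm hm'
    obtain ⟨y, hy⟩ : ∃ y : ℕ, m + S = y := ⟨(m + S).toNat, by omega⟩
    rw [gz 1 m y hy (by omega), hL m y hy (by omega) (by omega), v1 y (by omega) (by omega)]
    exact_mod_cast m1 y (by omega)
  refine ⟨fun x hx hx' => ?_, fun x hx => ?_, fun x hx hx' => ?_, fun x hx => ?_⟩
  · -- right, zone 1
    rcases le_total x (((c.b : ℤ) - S : ℤ) : ℝ) with cc | cc
    · refine pl_mono_mid (a := (yr : ℤ) - S) (b := (c.b : ℤ) - S) nR1 hx cc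
    · refine pl_cell_between (k := (c.b : ℤ) - S) (a := (((c.b : ℤ) - S : ℤ) : ℝ))
        (b := kRc c S) le_rfl cc hx' (kRc_bd hc S).2 ?_ cR1
      rw [pl_int, pl_int]
      exact nR1 _ (by omega) le_rfl
  · refine pl_le_right (b := (c.b : ℤ) - S) (kRc_bd hc S).1 (kRc_bd hc S).2 ?_ cR2 hx
    intro m hm
    rcases dz_cases (n := c.n) (S := S) m with o | o | ⟨y, hy, hyn⟩
    · omega
    · unfold gZ hRz
      rw [dz_hi o, dz_hi o]
    · rw [gz 2 m y hy hyn, hR m y hy (by omega) hyn, v2 y (by omega)]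
      exact_mod_cast m2 y (by omega) hyn
  · -- left, zone 1
    rcases le_total ((((c.a : ℤ) - S : ℤ) : ℝ) + 1) x with cc | cc
    · have e1 : (((c.a : ℤ) - S : ℤ) : ℝ) + 1 = (((c.a + 1 : ℕ) : ℤ) - S : ℤ) := by
        push_cast
        ring
      rw [e1] at cc
      exact pl_mono_mid (a := ((c.a + 1 : ℕ) : ℤ) - S) (b := (yl : ℤ) - S) nL1 cc hx'
    · refine pl_cell_between (k := (c.a : ℤ) - S) (a := kLc c S)
        (b := (((c.a : ℤ) - S : ℤ) : ℝ) + 1) (kLc_bd hc S).1 hx cc le_rfl cL1 ?_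
      have e1 : (((c.a : ℤ) - S : ℤ) : ℝ) + 1 = (((c.a + 1 : ℕ) : ℤ) - S : ℤ) := by
        push_cast
        ring
      rw [e1, pl_int, pl_int]
      exact nL1 _ le_rfl (by push_cast; omega)
  · refine pl_le_left (a := (c.a : ℤ) - S) (kLc_bd hc S).1 (kLc_bd hc S).2 ?_ cL0 hx
    intro m hm
    rcases dz_cases (n := c.n) (S := S) m with o | o | ⟨y, hy, hyn⟩
    · unfold gZ hLz
      rw [dz_lo o, dz_lo o]
    · omega
    · rw [gz 0 m y hy hyn, hL m y hy (by omega) hyn, v0 y (by omega)]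
      exact_mod_cast m1 y (by omega)

lemma pl_affine (f : ℤ → ℝ) (s c x : ℝ) : pl (fun m => s * (f m - c)) x = s * (pl f x - c) := by
  unfold pl
  ring

lemma zone5_affine {kL kR : ℝ} {lam : Fin 5 → ℤ → ℝ} {L : ℤ → ℝ} (h : Zone5 kL kR lam L) {s : ℝ}
    (hs : 0 ≤ s) (c : ℝ) :
    Zone5 kL kR (fun i m => s * (lam i m - c)) (fun m => s * (L m - c)) := by
  have key : ∀ i x, pl (lam i) x ≤ pl L x →
      pl (fun m => s * (lam i m - c)) x ≤ pl (fun m => s * (L m - c)) x := by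
    intro i x hx
    rw [pl_affine, pl_affine]
    exact mul_le_mul_of_nonneg_left (by linarith) hs
  exact ⟨fun x hx => key 0 x (h.h0 x hx), key 1 _ h.h1, fun x hx hx' => key 2 x (h.h2 x hx hx'),
    key 3 _ h.h3, fun x hx => key 4 x (h.h4 x hx)⟩

/-- ALL CONDITIONS OF ONE END POINT TABLE, real units `s = 1 / U` -/
theorem end_of_chk {c : CutP} (hc : chkC c = true) {q : Prc} {ex : ℕ} {e : Ect} {w : ℕ}
    (h : chkEnd c q ex e w = true) (S : ℤ) {s : ℝ} (hs : 0 ≤ s) {lam : Fin 5 → ℤ → ℝ}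
    (hin : ∀ i (y : ℕ), y ≤ c.n → lam i ((y : ℤ) - S) ≤ zd c q (z53 i) y + dg ex y + czN e i)
    (hout : ∀ i m, (m + S < 0 ∨ (c.n : ℤ) < m + S) → lam i m ≤ 2 ^ 37) (o : ℝ) :
    Zone5 (kLc c S) (kRc c S) (fun i m => s * (lam i m - o))
        (fun m => s * (LZ c S (ltab c q ex e) m - o))
      ∧ EndOK (fun m => s * (LZ c S (ltab c q ex e) m - o)) (fun m => s * (WZ c S w m - o))
      ∧ ∀ m, 0 ≤ LZ c S (ltab c q ex e) m ∧ LZ c S (ltab c q ex e) m ≤ 2 ^ 37 := by
  unfold chkEnd at h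
  rw [frcB_eq, frcB_eq] at h
  simp only [Bool.and_eq_true] at h
  obtain ⟨⟨h1, h2⟩, h3⟩ := h
  have hL : ∀ y, dg (ltab c q ex e) y < 2 ^ 37 := mask_dg (by norm_num) h1
  refine ⟨zone5_affine (zone5_of_chk hc h2 S hin hout) hs o,
    EndOK.of_fre (fre_affine (fre_dz le_rfl le_rfl hL h3) hs o), fun m => ⟨?_, ?_⟩⟩
  · exact dz_ge (by positivity) (by positivity) (fun y => Nat.cast_nonneg _) m
  · refine dz_le le_rfl le_rfl (fun y => ?_) m
    have := hL y
    exact_mod_cast this.le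

end MP61673a.KC
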