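import Pool.Agent.Mu673.RowLink
import Pool.Agent.Mu673.FEz

/-!
FROM THE INTEGER TABLES OF AN IN ROW CELL TO THE CONDITIONS OF THE NINE ZONES (helper40). As `RowLink`
(helper89), but with the six real cuts `-D | -ρ | 0 | D | D + ρ | 2 D` of `FEz` (helper56), compact
price tables of the four priced pieces (values outside the piece at both ends included) and one constant
per zone. Digit of a label `m`: `y = m + S`, `0 ≤ y ≤ n`.
-/

set_option autoImplicit false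

namespace MP61673a.RowI

open Finset MP61673a.Kink MP61673a.FE MP61673a.KC

/-- cuts `a k + t k / td` (digits) of the labels `-D, -ρ, 0, D, D + ρ, 2 D` -/
structure CutI where
  /-- last digit -/
  n : ℕ
  /-- denominator -/
  td : ℕ
  /-- cut cell `-D` -/
  a0 : ℕ
  /-- cut cell `-ρ` -/
  a1 : ℕ
  /-- cut cell `0` -/
  a2 : ℕ
  /-- cut cell `D` -/
  a3 : ℕ
  /-- cut cell `D + ρ` -/
  a4 : ℕ
  /-- cut cell `2 D` -/
  a5 : ℕ
  /-- numerator `-D` -/
  t0 : ℕ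
  /-- numerator `-ρ` -/
  t1 : ℕ
  /-- numerator `0` -/
  t2 : ℕ
  /-- numerator `D` -/
  t3 : ℕ
  /-- numerator `D + ρ` -/
  t4 : ℕ
  /-- numerator `2 D` -/
  t5 : ℕ

/-- price data of a sampler node: packed prices of the pieces `[-D, -ρ]` (digits `a0, .., a1 + 1`),
`[-ρ, 0]` (`a1, .., a2 + 1`), `[D, D + ρ]` (`a3, .., a4 + 1`), `[D + ρ, 2 D]` (`a4, .., a5 + 1`), each
shifted to the digit `0` -/
structure PrcI where
  /-- `[-D, -ρ]` -/
  p0 : ℕ
  /-- `[-ρ, 0]` -/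
  p1 : ℕ
  /-- `[D, D + ρ]` -/
  p2 : ℕ
  /-- `[D + ρ, 2 D]` -/
  p3 : ℕ

/-- an end point table: packed constants of the nine zones (with the offset), packed corrections of the
majorant at `a k`, `a k + 1` (digits `2 k`, `2 k + 1`) -/
structure EctI where
  /-- constants of the zones -/
  c : ℕ
  /-- corrections at the cuts -/
  l : ℕ

/-! ### Kernel functions -/

/-- nodes `a + 1, .., b` -/
def pcN (a b : ℕ) (F : ℕ → ℕ) (L : ℕ) : Bool :=
  allN (Nat.sub b a) (fun y =>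
    Nat.ble (F (Nat.add (Nat.succ a) y)) (dg L (Nat.add (Nat.succ a) y)))

/-- the cut `a + t / td` -/
def pcC (td a t : ℕ) (F : ℕ → ℕ) (L : ℕ) : Bool :=
  Nat.ble (l2r (Nat.sub td t) t (F a) (F (Nat.succ a)))
    (l2r (Nat.sub td t) t (dg L a) (dg L (Nat.succ a)))

/-- closed piece between two cuts -/
def pcI (td a t b u : ℕ) (F : ℕ → ℕ) (L : ℕ) : Bool :=
  pcN a b F L && (pcC td a t F L && pcC td b u F L)

/-- left half line -/
def pcL (td b u : ℕ) (F : ℕ → ℕ) (L : ℕ) : Bool :=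
  allN (Nat.succ b) (fun y => Nat.ble (F y) (dg L y)) && pcC td b u F L

/-- right half line -/
def pcR (n td a t : ℕ) (F : ℕ → ℕ) (L : ℕ) : Bool :=
  pcN a n F L && pcC td a t F L

/-- table of a zone without price -/
def fz0 (ex c y : ℕ) : ℕ := Nat.add (dg ex y) c

/-- table of a zone with price -/
def fz1 (p a ex c y : ℕ) : ℕ := a3 (dg p (Nat.sub y a)) (dg ex y) c

/-- zone conditions of the majorant `L` -/
def chkZn9 (c : CutI) (q : PrcI) (ex ec L : ℕ) : Bool :=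
  pcL c.td c.a0 c.t0 (fz0 ex (dg ec 0)) L
  && (pcI c.td c.a0 c.t0 c.a1 c.t1 (fz1 q.p0 c.a0 ex (dg ec 1)) L
  && (pcC c.td c.a1 c.t1 (fz1 q.p1 c.a1 ex (dg ec 2)) L
  && (pcI c.td c.a1 c.t1 c.a2 c.t2 (fz1 q.p1 c.a1 ex (dg ec 3)) L
  && (pcI c.td c.a2 c.t2 c.a3 c.t3 (fz0 ex (dg ec 4)) L
  && (pcI c.td c.a3 c.t3 c.a4 c.t4 (fz1 q.p2 c.a3 ex (dg ec 5)) L
  && (pcC c.td c.a4 c.t4 (fz1 q.p2 c.a3 ex (dg ec 6)) L
  && (pcI c.td c.a4 c.t4 c.a5 c.t5 (fz1 q.p3 c.a4 ex (dg ec 7)) L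
  && pcR c.n c.td c.a5 c.t5 (fz0 ex (dg ec 8)) L)))))))

/-- packed prices of all labels -/
def gtab (c : CutI) (q : PrcI) : ℕ :=
  cat (Nat.succ c.a0) 0 (cat (Nat.sub c.a1 c.a0) (shf q.p0 1)
    (cat (Nat.sub c.a2 c.a1) (shf q.p1 1) (cat (Nat.sub c.a3 c.a2) 0
      (cat (Nat.sub c.a4 c.a3) (shf q.p2 1) (cat (Nat.sub c.a5 c.a4) (shf q.p3 1) 0)))))

/-- packed constants of all labels -/
def ctab (c : CutI) (ec : ℕ) : ℕ :=
  cat (Nat.succ c.a0) (Nat.mul (dg ec 0) (rep (Nat.succ c.a0)))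
    (cat (Nat.sub c.a1 c.a0) (Nat.mul (dg ec 1) (rep (Nat.sub c.a1 c.a0)))
    (cat (Nat.sub c.a2 c.a1) (Nat.mul (dg ec 3) (rep (Nat.sub c.a2 c.a1)))
    (cat (Nat.sub c.a3 c.a2) (Nat.mul (dg ec 4) (rep (Nat.sub c.a3 c.a2)))
    (cat (Nat.sub c.a4 c.a3) (Nat.mul (dg ec 5) (rep (Nat.sub c.a4 c.a3)))
    (cat (Nat.sub c.a5 c.a4) (Nat.mul (dg ec 7) (rep (Nat.sub c.a5 c.a4)))
      (Nat.mul (dg ec 8) (rep (Nat.sub c.n c.a5))))))))

/-- the corrections at a cut -/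
def cor (l k a : ℕ) : ℕ :=
  Nat.mul (Nat.land (shf l (Nat.mul 2 k)) 1208925819614629174706175) (bp a)

/-- packed corrections of all labels -/
def ltc (c : CutI) (l : ℕ) : ℕ :=
  Nat.add (Nat.add (cor l 0 c.a0) (Nat.add (cor l 1 c.a1) (cor l 2 c.a2)))
    (Nat.add (cor l 3 c.a3) (Nat.add (cor l 4 c.a4) (cor l 5 c.a5)))

/-- the majorant of an end point table, packed; `g` = `gtab` -/
def ltab9 (c : CutI) (g ex : ℕ) (e : EctI) : ℕ :=
  Nat.add (Nat.add g ex) (Nat.add (ctab c e.c) (ltc c e.l))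

/-- all conditions of an end point table with node values `w`; `g` = `gtab` -/
def chkEnd9 (c : CutI) (q : PrcI) (g ex : ℕ) (e : EctI) (w : ℕ) : Bool :=
  frcB ex (fun ex => frcB (ltab9 c g ex e) (fun L =>
    mask 37 (Nat.succ (Nat.mul 3 c.n)) L && (chkZn9 c q ex e.c L && chkFr c.n L w)))

/-- domination of price + extra costs + constants by the midpoint majorant `h` on the priced pieces,
zero digits `mid`, `mid + 1` between -/
def chkDom9 (c : CutI) (q : PrcI) (ex ec h mid : ℕ) : Bool :=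
  Nat.beq (dg h mid) 0 && (Nat.beq (dg h (Nat.succ mid)) 0
  && (Nat.ble (Nat.succ c.a2) mid && (Nat.ble (Nat.succ mid) c.a3
  && (pcI c.td c.a0 c.t0 c.a1 c.t1 (fz1 q.p0 c.a0 ex (dg ec 1)) h
  && (pcC c.td c.a1 c.t1 (fz1 q.p1 c.a1 ex (dg ec 2)) h
  && (pcI c.td c.a1 c.t1 c.a2 c.t2 (fz1 q.p1 c.a1 ex (dg ec 3)) h
  && (pcI c.td c.a3 c.t3 c.a4 c.t4 (fz1 q.p2 c.a3 ex (dg ec 5)) h
  && (pcC c.td c.a4 c.t4 (fz1 q.p2 c.a3 ex (dg ec 6)) h
  && pcI c.td c.a4 c.t4 c.a5 c.t5 (fz1 q.p3 c.a4 ex (dg ec 7)) h))))))))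

/-- order of the cuts -/
def chkCI (c : CutI) : Bool :=
  Nat.ble c.a0 c.a1 && (Nat.ble c.a1 c.a2 && (Nat.ble (Nat.succ (Nat.succ c.a2)) c.a3
  && (Nat.ble c.a3 c.a4 && (Nat.ble c.a4 c.a5 && (Nat.ble (Nat.succ c.a5) c.n
  && (Nat.ble 1 c.td && (Nat.ble c.t0 c.td && (Nat.ble c.t1 c.td && (Nat.ble c.t2 c.td
  && (Nat.ble c.t3 c.td && (Nat.ble c.t4 c.td && Nat.ble c.t5 c.td)))))))))))

/-- sizes of the prices -/
def chkSzI (c : CutI) (q : PrcI) : Bool :=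
  mask 36 (Nat.add (Nat.sub c.a1 c.a0) 2) q.p0 && (mask 36 (Nat.add (Nat.sub c.a2 c.a1) 2) q.p1
  && (mask 36 (Nat.add (Nat.sub c.a4 c.a3) 2) q.p2 && mask 36 (Nat.add (Nat.sub c.a5 c.a4) 2) q.p3))

/-- the cuts belong to `M`, `s2 = 2 σ`, `S` -/
def chkCut (M : ℕ) (s2 S : ℤ) (c : CutI) : Bool :=
  decide (2 * (c.td * ((c.a0 : ℤ) - S) + c.t0) = c.td * (-2 * M - s2))
  && (decide (40 * (2 * (c.td * ((c.a1 : ℤ) - S) + c.t1)) = c.td * (-2 * M - 40 * s2))
  && (decide (2 * (c.td * ((c.a2 : ℤ) - S) + c.t2) = c.td * (-s2))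
  && (decide (2 * (c.td * ((c.a3 : ℤ) - S) + c.t3) = c.td * (2 * M - s2))
  && (decide (40 * (2 * (c.td * ((c.a4 : ℤ) - S) + c.t4)) = c.td * (82 * M - 40 * s2))
  && decide (2 * (c.td * ((c.a5 : ℤ) - S) + c.t5) = c.td * (4 * M - s2))))))

/-! ### Real functions -/

/-- zone prices, digits -/
def zdI (c : CutI) (q : PrcI) (i : Fin 3) (y : ℕ) : ℕ :=
  if i = 0 then (if c.a0 ≤ y ∧ y ≤ c.a1 + 1 then dg q.p0 (y - c.a0) else 0)
  else if i = 1 then (if c.a1 ≤ y ∧ y ≤ c.a2 + 1 then dg q.p1 (y - c.a1)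
    else if c.a3 ≤ y ∧ y ≤ c.a4 + 1 then dg q.p2 (y - c.a3) else 0)
  else (if c.a4 ≤ y ∧ y ≤ c.a5 + 1 then dg q.p3 (y - c.a4) else 0)

/-- the price zone of a zone (`none` = no price) -/
def z93 (i : Fin 9) : Option (Fin 3) :=
  ![none, some 0, some 1, some 1, none, some 1, some 1, some 2, none] i

/-- prices of the nine zones, digits -/
def zp9 (c : CutI) (q : PrcI) (i : Fin 9) (y : ℕ) : ℕ :=
  match z93 i with
  | none => 0
  | some j => zdI c q j y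

noncomputable section

/-- zone prices (integer units) -/
def gZI (c : CutI) (S : ℤ) (q : PrcI) (i : Fin 3) : ℤ → ℝ :=
  dz c.n S 0 0 fun y => (zdI c q i y : ℝ)

/-- a packed majorant as a function (integer units) -/
def LN (n : ℕ) (S : ℤ) (L : ℕ) : ℤ → ℝ := dz n S (2 ^ 37) (2 ^ 37) fun y => (dg L y : ℝ)

/-- node values (integer units) -/
def WN (n : ℕ) (S : ℤ) (w : ℕ) : ℤ → ℝ := dz n S (2 ^ 39) (2 ^ 39) fun y => (dg w y : ℝ)

/-- the cut `a + t / td` -/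
def kC (td a t : ℕ) (S : ℤ) : ℝ := ((a : ℝ) - S) + t / td

end

/-! ### Pieces -/

section pieces

variable {n td a t b u : ℕ} {S : ℤ} {F : ℕ → ℕ} {L : ℕ} {f g : ℤ → ℝ}

lemma kC_bd (hd : 0 < td) (ht : t ≤ td) :
    (((a : ℤ) - S : ℤ) : ℝ) ≤ kC td a t S ∧ kC td a t S ≤ (((a : ℤ) - S : ℤ) : ℝ) + 1 := by
  have hd' : (0:ℝ) < td := by exact_mod_cast hd
  have t0 : 0 ≤ (t:ℝ) / td := by positivity
  have t1 : (t:ℝ) / td ≤ 1 := by
    rw [div_le_one hd']
    exact_mod_cast ht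
  unfold kC
  push_cast
  constructor <;> linarith

lemma pcC_real (h : pcC td a t F L = true) (hd : 0 < td) (ht : t ≤ td)
    (hf : ∀ y : ℕ, a ≤ y → y ≤ a + 1 → f ((y:ℤ) - S) ≤ F y)
    (hg : ∀ y : ℕ, a ≤ y → y ≤ a + 1 → (dg L y : ℝ) ≤ g ((y:ℤ) - S)) :
    pl f (kC td a t S) ≤ pl g (kC td a t S) := by
  have h1 : (td - t) * F a + t * F (a + 1) ≤ (td - t) * dg L a + t * dg L (a + 1) :=
    Nat.le_of_ble_eq_true h
  have h2 : ((td - t : ℕ) : ℝ) * F a + t * F (a + 1)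
      ≤ ((td - t : ℕ) : ℝ) * dg L a + t * dg L (a + 1) := by exact_mod_cast h1
  have e : kC td a t S = (((a:ℤ) - S : ℤ) : ℝ) + (t:ℝ) / td := by
    unfold kC
    push_cast
    ring
  rw [e]
  refine pl_cut hd ht ?_
  have e1 : ((a:ℤ) - S) + 1 = ((a + 1 : ℕ) : ℤ) - S := by push_cast; ring
  rw [e1]
  have f0 := hf a le_rfl (by omega)
  have f1 := hf (a + 1) (by omega) le_rfl
  have g0 := hg a le_rfl (by omega)
  have g1 := hg (a + 1) (by omega) le_rfl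
  have c0 : (0:ℝ) ≤ ((td - t : ℕ) : ℝ) := Nat.cast_nonneg _
  have c1 : (0:ℝ) ≤ t := Nat.cast_nonneg _
  have := mul_le_mul_of_nonneg_left f0 c0
  have := mul_le_mul_of_nonneg_left f1 c1
  have := mul_le_mul_of_nonneg_left g0 c0
  have := mul_le_mul_of_nonneg_left g1 c1
  linarith

lemma pcC_left (h : pcC td a 0 F L = true) (hd : 0 < td) : F a ≤ dg L a := by
  have h1 : (td - 0) * F a + 0 * F (a + 1) ≤ (td - 0) * dg L a + 0 * dg L (a + 1) :=
    Nat.le_of_ble_eq_true h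
  rw [zero_mul, zero_mul, Nat.sub_zero, add_zero, add_zero] at h1
  exact Nat.le_of_mul_le_mul_left h1 hd

lemma pcC_right (h : pcC td a td F L = true) (hd : 0 < td) : F (a + 1) ≤ dg L (a + 1) := by
  have h1 : (td - td) * F a + td * F (a + 1) ≤ (td - td) * dg L a + td * dg L (a + 1) :=
    Nat.le_of_ble_eq_true h
  rw [Nat.sub_self, zero_mul, zero_mul, zero_add, zero_add] at h1
  exact Nat.le_of_mul_le_mul_left h1 hd

lemma pcN_imp (h : pcN a b F L = true) {y : ℕ} (h1 : a < y) (h2 : y ≤ b) : F y ≤ dg L y := by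
  have := Nat.le_of_ble_eq_true ((allN_iff _ _).1 h (y - (a + 1))
    (show y - (a + 1) < b - a by omega))
  have e0 : Nat.add (Nat.succ a) (y - (a + 1)) = y := by
    show a + 1 + (y - (a + 1)) = y
    omega
  rwa [e0] at this

/-- node in a closed interval whose ends are cuts -/
lemma cut_ge (hd : 0 < td) {m : ℤ} (hm : kC td a t S ≤ m) :
    (a:ℤ) ≤ m + S ∧ ((a:ℤ) = m + S → t = 0) := by
  have hd' : (0:ℝ) < td := by exact_mod_cast hd
  have t0 : 0 ≤ (t:ℝ) / td := by positivity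
  unfold kC at hm
  constructor
  · have : (a:ℝ) ≤ ((m + S : ℤ) : ℝ) := by
      push_cast
      linarith
    exact_mod_cast this
  · intro e
    have e' : (a:ℝ) = ((m + S : ℤ) : ℝ) := by exact_mod_cast congrArg (fun x : ℤ => (x:ℝ)) e
    push_cast at e'
    have h0 : (t:ℝ) / td = 0 := le_antisymm (by linarith) t0
    rw [div_eq_zero_iff] at h0
    rcases h0 with h0 | h0
    · exact_mod_cast h0
    · exact absurd h0 hd'.ne'

lemma cut_le (hd : 0 < td) (ht : t ≤ td) {m : ℤ} (hm : (m:ℝ) ≤ kC td a t S) :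
    m + S ≤ a + 1 ∧ (m + S = a + 1 → t = td) := by
  have hd' : (0:ℝ) < td := by exact_mod_cast hd
  have t1 : (t:ℝ) / td ≤ 1 := by
    rw [div_le_one hd']
    exact_mod_cast ht
  unfold kC at hm
  constructor
  · have : ((m + S : ℤ) : ℝ) ≤ ((a + 1 : ℤ) : ℝ) := by
      push_cast
      linarith
    exact_mod_cast this
  · intro e
    have e' : ((m + S : ℤ) : ℝ) = ((a + 1 : ℤ) : ℝ) := by
      exact_mod_cast congrArg (fun x : ℤ => (x:ℝ)) e
    push_cast at e'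
    have h0 : (t:ℝ) / td = 1 := le_antisymm t1 (by linarith)
    rw [div_eq_one_iff_eq hd'.ne'] at h0
    exact_mod_cast h0

/-- A CLOSED PIECE -/
theorem pcI_sound (h : pcI td a t b u F L = true) (hd : 0 < td) (ht : t ≤ td) (hu : u ≤ td)
    (hf : ∀ y : ℕ, a ≤ y → y ≤ b + 1 → f ((y:ℤ) - S) ≤ F y)
    (hg : ∀ y : ℕ, a ≤ y → y ≤ b + 1 → (dg L y : ℝ) ≤ g ((y:ℤ) - S)) (hab : a ≤ b) :
    ∀ x ∈ Set.Icc (kC td a t S) (kC td b u S), pl f x ≤ pl g x := by
  unfold pcI at h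
  simp only [Bool.and_eq_true] at h
  obtain ⟨h1, h2, h3⟩ := h
  intro x hx
  refine pl_le_Icc (fun m m1 m2 => ?_) (pcC_real h2 hd ht (fun y y1 y2 => hf y y1 (by omega))
    (fun y y1 y2 => hg y y1 (by omega))) (pcC_real h3 hd hu (fun y y1 y2 => hf y (by omega) y2)
    (fun y y1 y2 => hg y (by omega) y2)) hx.1 hx.2
  obtain ⟨c1, c2⟩ := cut_ge hd m1
  obtain ⟨c3, c4⟩ := cut_le hd hu m2
  obtain ⟨y, hy⟩ : ∃ y : ℕ, m + S = y := ⟨(m + S).toNat, by omega⟩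
  have em : m = (y:ℤ) - S := by omega
  have y1 : a ≤ y := by omega
  have y2 : y ≤ b + 1 := by omega
  have key : F y ≤ dg L y := by
    rcases Nat.lt_or_ge a y with o | o
    · rcases Nat.lt_or_ge b y with o' | o'
      · have hb : y = b + 1 := by omega
        have : u = td := c4 (by omega)
        subst this
        rw [hb]
        exact pcC_right h3 hd
      · exact pcN_imp h1 o o'
    · have ha : y = a := by omega
      have : t = 0 := c2 (by omega)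
      subst this
      rw [ha]
      exact pcC_left h2 hd
  have key' : (F y : ℝ) ≤ dg L y := by exact_mod_cast key
  rw [em]
  exact (hf y y1 y2).trans (key'.trans (hg y y1 y2))

/-- LEFT HALF LINE -/
theorem pcL_sound (h : pcL td b u F L = true) (hd : 0 < td) (hu : u ≤ td)
    (hf : ∀ y : ℕ, y ≤ b + 1 → f ((y:ℤ) - S) ≤ F y)
    (hg : ∀ y : ℕ, y ≤ b + 1 → (dg L y : ℝ) ≤ g ((y:ℤ) - S))
    (ho : ∀ m : ℤ, m + S < 0 → f m ≤ g m) :
    ∀ x ∈ Set.Iic (kC td b u S), pl f x ≤ pl g x := by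
  unfold pcL at h
  simp only [Bool.and_eq_true] at h
  obtain ⟨h1, h3⟩ := h
  intro x hx
  refine pl_le_Iic (fun m m2 => ?_) (pcC_real h3 hd hu (fun y y1 y2 => hf y y2)
    (fun y y1 y2 => hg y y2)) hx
  obtain ⟨c3, c4⟩ := cut_le hd hu m2
  by_cases o0 : m + S < 0
  · exact ho m o0
  obtain ⟨y, hy⟩ : ∃ y : ℕ, m + S = y := ⟨(m + S).toNat, by omega⟩
  have em : m = (y:ℤ) - S := by omega
  have y2 : y ≤ b + 1 := by omega
  have key : F y ≤ dg L y := by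
    rcases Nat.lt_or_ge b y with o' | o'
    · have hb : y = b + 1 := by omega
      have : u = td := c4 (by omega)
      subst this
      rw [hb]
      exact pcC_right h3 hd
    · exact Nat.le_of_ble_eq_true ((allN_iff _ _).1 h1 y (Nat.lt_succ_of_le o'))
  have key' : (F y : ℝ) ≤ dg L y := by exact_mod_cast key
  rw [em]
  exact (hf y y2).trans (key'.trans (hg y y2))

/-- RIGHT HALF LINE -/
theorem pcR_sound (h : pcR n td a t F L = true) (hd : 0 < td) (ht : t ≤ td) (han : a < n)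
    (hf : ∀ y : ℕ, a ≤ y → y ≤ n → f ((y:ℤ) - S) ≤ F y)
    (hg : ∀ y : ℕ, a ≤ y → y ≤ n → (dg L y : ℝ) ≤ g ((y:ℤ) - S))
    (ho : ∀ m : ℤ, (n:ℤ) < m + S → f m ≤ g m) :
    ∀ x ∈ Set.Ici (kC td a t S), pl f x ≤ pl g x := by
  unfold pcR at h
  simp only [Bool.and_eq_true] at h
  obtain ⟨h1, h2⟩ := h
  intro x hx
  refine pl_le_Ici (fun m m1 => ?_) (pcC_real h2 hd ht (fun y y1 y2 => hf y y1 (by omega))
    (fun y y1 y2 => hg y y1 (by omega))) hx
  obtain ⟨c1, c2⟩ := cut_ge hd m1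
  by_cases o0 : (n:ℤ) < m + S
  · exact ho m o0
  obtain ⟨y, hy⟩ : ∃ y : ℕ, m + S = y := ⟨(m + S).toNat, by omega⟩
  have em : m = (y:ℤ) - S := by omega
  have y1 : a ≤ y := by omega
  have y2 : y ≤ n := by omega
  have key : F y ≤ dg L y := by
    rcases Nat.lt_or_ge a y with o | o
    · exact pcN_imp h1 o y2
    · have ha : y = a := by omega
      have : t = 0 := c2 (by omega)
      subst this
      rw [ha]
      exact pcC_left h2 hd
  have key' : (F y : ℝ) ≤ dg L y := by exact_mod_cast key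
  rw [em]
  exact (hf y y1 y2).trans (key'.trans (hg y y1 y2))

end pieces

/-! ### The nine zones -/

section nine

variable {c : CutI} {q : PrcI} {ex : ℕ} {S : ℤ}

structure CIOK (c : CutI) : Prop where
  o0 : c.a0 ≤ c.a1
  o1 : c.a1 ≤ c.a2
  o2 : c.a2 + 2 ≤ c.a3
  o3 : c.a3 ≤ c.a4
  o4 : c.a4 ≤ c.a5
  o5 : c.a5 + 1 ≤ c.n
  td : 0 < c.td
  t0 : c.t0 ≤ c.td
  t1 : c.t1 ≤ c.td
  t2 : c.t2 ≤ c.td
  t3 : c.t3 ≤ c.td
  t4 : c.t4 ≤ c.td
  t5 : c.t5 ≤ c.td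

lemma chkCI_imp (h : chkCI c = true) : CIOK c := by
  unfold chkCI at h
  simp only [Bool.and_eq_true] at h
  obtain ⟨h0, h1, h2, h3, h4, h5, h6, h7, h8, h9, h10, h11, h12⟩ := h
  exact ⟨Nat.le_of_ble_eq_true h0, Nat.le_of_ble_eq_true h1, Nat.le_of_ble_eq_true h2,
    Nat.le_of_ble_eq_true h3, Nat.le_of_ble_eq_true h4, Nat.le_of_ble_eq_true h5,
    Nat.le_of_ble_eq_true h6, Nat.le_of_ble_eq_true h7, Nat.le_of_ble_eq_true h8,
    Nat.le_of_ble_eq_true h9, Nat.le_of_ble_eq_true h10, Nat.le_of_ble_eq_true h11,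
    Nat.le_of_ble_eq_true h12⟩

lemma fz0_real (ex c y : ℕ) : ((fz0 ex c y : ℕ) : ℝ) = dg ex y + c := by
  have : fz0 ex c y = dg ex y + c := rfl
  rw [this]
  push_cast
  ring

lemma fz1_real (p a ex c y : ℕ) : ((fz1 p a ex c y : ℕ) : ℝ) = dg p (y - a) + dg ex y + c := by
  have : fz1 p a ex c y = dg p (y - a) + (dg ex y + c) := rfl
  rw [this]
  push_cast
  ring

lemma zd0 {y : ℕ} (h1 : c.a0 ≤ y) (h2 : y ≤ c.a1 + 1) : zdI c q 0 y = dg q.p0 (y - c.a0) := by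
  unfold zdI
  rw [if_pos rfl, if_pos ⟨h1, h2⟩]

lemma zd1 {y : ℕ} (h1 : c.a1 ≤ y) (h2 : y ≤ c.a2 + 1) : zdI c q 1 y = dg q.p1 (y - c.a1) := by
  unfold zdI
  rw [if_neg (by decide), if_pos rfl, if_pos ⟨h1, h2⟩]

lemma zd2 (h : CIOK c) {y : ℕ} (h1 : c.a3 ≤ y) (h2 : y ≤ c.a4 + 1) :
    zdI c q 1 y = dg q.p2 (y - c.a3) := by
  have := h.o2
  unfold zdI
  rw [if_neg (by decide), if_pos rfl, if_neg (by omega), if_pos ⟨h1, h2⟩]

lemma zd3 {y : ℕ} (h1 : c.a4 ≤ y) (h2 : y ≤ c.a5 + 1) : zdI c q 2 y = dg q.p3 (y - c.a4) := by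
  unfold zdI
  rw [if_neg (by decide), if_neg (by decide), if_pos ⟨h1, h2⟩]

/-- the real cuts of the nine zones -/
structure Cuts (M : ℕ) (σ kL kR : ℝ) (c : CutI) (S : ℤ) : Prop where
  k0 : -M - σ = kC c.td c.a0 c.t0 S
  k1 : kL = kC c.td c.a1 c.t1 S
  k2 : -σ = kC c.td c.a2 c.t2 S
  k3 : M - σ = kC c.td c.a3 c.t3 S
  k4 : kR = kC c.td c.a4 c.t4 S
  k5 : 2 * M - σ = kC c.td c.a5 c.t5 S

/-- THE NINE ZONE CONDITIONS from the integer check -/
theorem zone9_of_chk (hc : CIOK c) {M : ℕ} {σ kL kR : ℝ} (hk : Cuts M σ kL kR c S) {ec L : ℕ}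
    (h : chkZn9 c q ex ec L = true) {lam : Fin 9 → ℤ → ℝ}
    (hin : ∀ i (y : ℕ), y ≤ c.n → lam i ((y : ℤ) - S) ≤ zp9 c q i y + dg ex y + dg ec i)
    (hout : ∀ i m, (m + S < 0 ∨ (c.n : ℤ) < m + S) → lam i m ≤ 2 ^ 37) :
    Zone9 M σ kL kR lam (LN c.n S L) := by
  obtain ⟨o0, o1, o2, o3, o4, o5, td, t0, t1, t2, t3, t4, t5⟩ := id hc
  unfold chkZn9 at h
  simp only [Bool.and_eq_true] at h
  obtain ⟨h0, h1, h2, h3, h4, h5, h6, h7, h8⟩ := h
  have hL : ∀ y : ℕ, y ≤ c.n → (dg L y : ℝ) ≤ LN c.n S L ((y : ℤ) - S) := fun y hy => by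
    unfold LN
    rw [dz_in (m := (y:ℤ) - S) (sub_add_cancel _ _) hy]
  have ho : ∀ i m, (m + S < 0 ∨ (c.n : ℤ) < m + S) → lam i m ≤ LN c.n S L m := by
    intro i m hm
    have e : LN c.n S L m = 2 ^ 37 := by
      rcases hm with hm | hm
      · exact dz_lo hm
      · exact dz_hi hm
    rw [e]
    exact hout i m hm
  intro i
  fin_cases i
  · show ∀ x ∈ Set.Iic (-M - σ), _
    rw [hk.k0]
    refine pcL_sound h0 td t0 (fun y hy => ?_) (fun y hy => hL y (by omega))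
      (fun m hm => ho 0 m (Or.inl hm))
    have t : lam 0 ((y : ℤ) - S) ≤ (dg ex y : ℝ) + dg ec 0 := by
      have := hin 0 y (by omega)
      have e : zp9 c q 0 y = 0 := rfl
      rw [e, Nat.cast_zero, zero_add] at this
      exact this
    rw [fz0_real]
    exact t
  · show ∀ x ∈ Set.Icc (-M - σ) kL, _
    rw [hk.k0, hk.k1]
    refine pcI_sound h1 td t0 t1 (fun y hy hy' => ?_) (fun y _ hy => hL y (by omega)) o0
    have := hin 1 y (by omega)
    rw [fz1_real]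
    have e : zp9 c q 1 y = zdI c q 0 y := rfl
    rw [e, zd0 hy hy'] at this
    exact this
  · show ∀ x ∈ Set.Icc kL kL, _
    intro x hx
    have ex' : x = kL := le_antisymm hx.2 hx.1
    rw [ex', hk.k1]
    refine pcC_real h2 td t1 (fun y hy hy' => ?_) (fun y _ hy => hL y (by omega))
    have := hin 2 y (by omega)
    rw [fz1_real]
    have e : zp9 c q 2 y = zdI c q 1 y := rfl
    rw [e, zd1 hy (by omega)] at this
    exact this
  · show ∀ x ∈ Set.Icc kL (-σ), _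
    rw [hk.k1, hk.k2]
    refine pcI_sound h3 td t1 t2 (fun y hy hy' => ?_) (fun y _ hy => hL y (by omega)) o1
    have := hin 3 y (by omega)
    rw [fz1_real]
    have e : zp9 c q 3 y = zdI c q 1 y := rfl
    rw [e, zd1 hy hy'] at this
    exact this
  · show ∀ x ∈ Set.Icc (-σ) (M - σ), _
    rw [hk.k2, hk.k3]
    refine pcI_sound h4 td t2 t3 (fun y hy hy' => ?_) (fun y _ hy => hL y (by omega)) (by omega)
    have t : lam 4 ((y : ℤ) - S) ≤ (dg ex y : ℝ) + dg ec 4 := by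
      have := hin 4 y (by omega)
      have e : zp9 c q 4 y = 0 := rfl
      rw [e, Nat.cast_zero, zero_add] at this
      exact this
    rw [fz0_real]
    exact t
  · show ∀ x ∈ Set.Icc (M - σ) kR, _
    rw [hk.k3, hk.k4]
    refine pcI_sound h5 td t3 t4 (fun y hy hy' => ?_) (fun y _ hy => hL y (by omega)) o3
    have := hin 5 y (by omega)
    rw [fz1_real]
    have e : zp9 c q 5 y = zdI c q 1 y := rfl
    rw [e, zd2 hc hy hy'] at this
    exact this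
  · show ∀ x ∈ Set.Icc kR kR, _
    intro x hx
    have ex' : x = kR := le_antisymm hx.2 hx.1
    rw [ex', hk.k4]
    refine pcC_real h6 td t4 (fun y hy hy' => ?_) (fun y _ hy => hL y (by omega))
    have := hin 6 y (by omega)
    rw [fz1_real]
    have e : zp9 c q 6 y = zdI c q 1 y := rfl
    rw [e, zd2 hc (by omega) hy'] at this
    exact this
  · show ∀ x ∈ Set.Icc kR (2 * M - σ), _
    rw [hk.k4, hk.k5]
    refine pcI_sound h7 td t4 t5 (fun y hy hy' => ?_) (fun y _ hy => hL y (by omega)) o4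
    have := hin 7 y (by omega)
    rw [fz1_real]
    have e : zp9 c q 7 y = zdI c q 2 y := rfl
    rw [e, zd3 hy hy'] at this
    exact this
  · show ∀ x ∈ Set.Ici (2 * M - σ), _
    rw [hk.k5]
    refine pcR_sound h8 td t5 (by omega) (fun y hy hy' => ?_) (fun y _ hy => hL y hy)
      (fun m hm => ho 8 m (Or.inr hm))
    have t : lam 8 ((y : ℤ) - S) ≤ (dg ex y : ℝ) + dg ec 8 := by
      have := hin 8 y hy'
      have e : zp9 c q 8 y = 0 := rfl
      rw [e, Nat.cast_zero, zero_add] at this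
      exact this
    rw [fz0_real]
    exact t

lemma zone9_affine {M : ℕ} {σ kL kR : ℝ} {lam : Fin 9 → ℤ → ℝ} {L : ℤ → ℝ}
    (h : Zone9 M σ kL kR lam L) {s : ℝ} (hs : 0 ≤ s) (c : ℝ) :
    Zone9 M σ kL kR (fun i m => s * (lam i m - c)) (fun m => s * (L m - c)) := by
  intro i x hx
  rw [pl_affine, pl_affine]
  exact mul_le_mul_of_nonneg_left (by linarith [h i x hx]) hs

lemma zone9_mono {M : ℕ} {σ kL kR : ℝ} {lam lam' : Fin 9 → ℤ → ℝ} {L : ℤ → ℝ}
    (h : Zone9 M σ kL kR lam L) (hl : ∀ i m, lam' i m ≤ lam i m) : Zone9 M σ kL kR lam' L :=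
  fun i x hx => (pl_mono (hl i) x).trans (h i x hx)

/-- ALL CONDITIONS OF ONE END POINT TABLE, real units `s = 1 / U` -/
theorem end9_of_chk (hc : CIOK c) {M : ℕ} {σ kL kR : ℝ} (hk : Cuts M σ kL kR c S) {g : ℕ}
    {e : EctI} {w : ℕ} (h : chkEnd9 c q g ex e w = true) {s : ℝ} (hs : 0 ≤ s)
    {lam : Fin 9 → ℤ → ℝ}
    (hin : ∀ i (y : ℕ), y ≤ c.n → lam i ((y : ℤ) - S) ≤ zp9 c q i y + dg ex y + dg e.c i)
    (hout : ∀ i m, (m + S < 0 ∨ (c.n : ℤ) < m + S) → lam i m ≤ 2 ^ 37) (o : ℝ) :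
    Zone9 M σ kL kR (fun i m => s * (lam i m - o))
        (fun m => s * (LN c.n S (ltab9 c g ex e) m - o))
      ∧ EndOK (fun m => s * (LN c.n S (ltab9 c g ex e) m - o)) (fun m => s * (WN c.n S w m - o))
      ∧ ∀ m, 0 ≤ LN c.n S (ltab9 c g ex e) m ∧ LN c.n S (ltab9 c g ex e) m ≤ 2 ^ 37 := by
  unfold chkEnd9 at h
  rw [frcB_eq, frcB_eq] at h
  simp only [Bool.and_eq_true] at h
  obtain ⟨h1, h2, h3⟩ := h
  have hL : ∀ y, dg (ltab9 c g ex e) y < 2 ^ 37 := mask_dg (by norm_num) h1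
  refine ⟨zone9_affine (zone9_of_chk hc hk h2 hin hout) hs o,
    EndOK.of_fre (fre_affine (fre_dz le_rfl le_rfl hL h3) hs o), fun m => ⟨?_, ?_⟩⟩
  · exact dz_ge (by positivity) (by positivity) (fun y => Nat.cast_nonneg _) m
  · refine dz_le le_rfl le_rfl (fun y => ?_) m
    have := hL y
    exact_mod_cast this.le

/-! ### Midpoint majorant -/

/-- DOMINATION on the priced zones: left zones `1, 2, 3` by the left part, right zones `5, 6, 7` by the
right part of the majorant `h` -/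
theorem dom9_of_chk (hc : CIOK c) {M : ℕ} {σ kL kR : ℝ} (hk : Cuts M σ kL kR c S) {ec h mid : ℕ}
    (hd : chkDom9 c q ex ec h mid = true) {lam : Fin 9 → ℤ → ℝ}
    (hin : ∀ i (y : ℕ), y ≤ c.n → lam i ((y : ℤ) - S) ≤ zp9 c q i y + dg ex y + dg ec i)
    {hl hr : ℤ → ℝ}
    (hhl : ∀ y : ℕ, y ≤ mid → (dg h y : ℝ) ≤ hl ((y : ℤ) - S))
    (hhr : ∀ y : ℕ, mid < y → y ≤ c.n → (dg h y : ℝ) ≤ hr ((y : ℤ) - S)) :
    (∀ i : Fin 9, (i = 1 ∨ i = 2 ∨ i = 3) → ∀ x ∈ I9 M σ kL kR i, pl (lam i) x ≤ pl hl x)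
    ∧ (∀ i : Fin 9, (i = 5 ∨ i = 6 ∨ i = 7) → ∀ x ∈ I9 M σ kL kR i, pl (lam i) x ≤ pl hr x) := by
  obtain ⟨o0, o1, o2, o3, o4, o5, td, t0, t1, t2, t3, t4, t5⟩ := id hc
  unfold chkDom9 at hd
  simp only [Bool.and_eq_true] at hd
  obtain ⟨-, -, m1', m2', h1, h2, h3, h5, h6, h7⟩ := hd
  have m1 : c.a2 + 1 ≤ mid := Nat.le_of_ble_eq_true m1'
  have m2 : mid + 1 ≤ c.a3 := Nat.le_of_ble_eq_true m2'
  constructor
  · rintro i (rfl | rfl | rfl)
    · show ∀ x ∈ Set.Icc (-M - σ) kL, _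
      rw [hk.k0, hk.k1]
      refine pcI_sound h1 td t0 t1 (fun y hy hy' => ?_) (fun y _ hy => hhl y (by omega)) o0
      have := hin 1 y (by omega)
      rw [fz1_real]
      have e : zp9 c q 1 y = zdI c q 0 y := rfl
      rw [e, zd0 hy hy'] at this
      exact this
    · show ∀ x ∈ Set.Icc kL kL, _
      intro x hx
      have ex' : x = kL := le_antisymm hx.2 hx.1
      rw [ex', hk.k1]
      refine pcC_real h2 td t1 (fun y hy hy' => ?_) (fun y _ hy => hhl y (by omega))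
      have := hin 2 y (by omega)
      rw [fz1_real]
      have e : zp9 c q 2 y = zdI c q 1 y := rfl
      rw [e, zd1 hy (by omega)] at this
      exact this
    · show ∀ x ∈ Set.Icc kL (-σ), _
      rw [hk.k1, hk.k2]
      refine pcI_sound h3 td t1 t2 (fun y hy hy' => ?_) (fun y _ hy => hhl y (by omega)) o1
      have := hin 3 y (by omega)
      rw [fz1_real]
      have e : zp9 c q 3 y = zdI c q 1 y := rfl
      rw [e, zd1 hy hy'] at this
      exact this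
  · rintro i (rfl | rfl | rfl)
    · show ∀ x ∈ Set.Icc (M - σ) kR, _
      rw [hk.k3, hk.k4]
      refine pcI_sound h5 td t3 t4 (fun y hy hy' => ?_)
        (fun y hy hy' => hhr y (by omega) (by omega)) o3
      have := hin 5 y (by omega)
      rw [fz1_real]
      have e : zp9 c q 5 y = zdI c q 1 y := rfl
      rw [e, zd2 hc hy hy'] at this
      exact this
    · show ∀ x ∈ Set.Icc kR kR, _
      intro x hx
      have ex' : x = kR := le_antisymm hx.2 hx.1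
      rw [ex', hk.k4]
      refine pcC_real h6 td t4 (fun y hy hy' => ?_) (fun y hy hy' => hhr y (by omega) (by omega))
      have := hin 6 y (by omega)
      rw [fz1_real]
      have e : zp9 c q 6 y = zdI c q 1 y := rfl
      rw [e, zd2 hc (by omega) hy'] at this
      exact this
    · show ∀ x ∈ Set.Icc kR (2 * M - σ), _
      rw [hk.k4, hk.k5]
      refine pcI_sound h7 td t4 t5 (fun y hy hy' => ?_)
        (fun y hy hy' => hhr y (by omega) (by omega)) o4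
      have := hin 7 y (by omega)
      rw [fz1_real]
      have e : zp9 c q 7 y = zdI c q 2 y := rfl
      rw [e, zd3 hy hy'] at this
      exact this

/-! ### The cuts -/

lemma chkCut_imp {M : ℕ} {s2 : ℤ} (hd : 0 < c.td) (h : chkCut M s2 S c = true) :
    Cuts M ((s2:ℝ) / 2) (-((M:ℝ) / 40) - (s2:ℝ) / 2) ((M:ℝ) + (M:ℝ) / 40 - (s2:ℝ) / 2) c S := by
  unfold chkCut at h
  simp only [Bool.and_eq_true, decide_eq_true_eq] at h
  obtain ⟨h0, h1, h2, h3, h4, h5⟩ := h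
  have hd' : (0:ℝ) < c.td := by exact_mod_cast hd
  have h0' : 2 * ((c.td:ℝ) * ((c.a0 : ℝ) - S) + c.t0) = c.td * (-2 * M - s2) := by exact_mod_cast h0
  have h1' : 40 * (2 * ((c.td:ℝ) * ((c.a1 : ℝ) - S) + c.t1)) = c.td * (-2 * M - 40 * s2) := by
    exact_mod_cast h1
  have h2' : 2 * ((c.td:ℝ) * ((c.a2 : ℝ) - S) + c.t2) = c.td * (-s2) := by exact_mod_cast h2
  have h3' : 2 * ((c.td:ℝ) * ((c.a3 : ℝ) - S) + c.t3) = c.td * (2 * M - s2) := by exact_mod_cast h3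
  have h4' : 40 * (2 * ((c.td:ℝ) * ((c.a4 : ℝ) - S) + c.t4)) = c.td * (82 * M - 40 * s2) := by
    exact_mod_cast h4
  have h5' : 2 * ((c.td:ℝ) * ((c.a5 : ℝ) - S) + c.t5) = c.td * (4 * M - s2) := by exact_mod_cast h5
  have e : ∀ a t : ℕ, kC c.td a t S = ((c.td:ℝ) * ((a : ℝ) - S) + t) / c.td := by
    intro a t
    unfold kC
    field_simp
  constructor <;> rw [e, eq_div_iff hd'.ne'] <;> linarith

end nine

end MP61673a.RowI
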