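import Pool.Agent.Mu673.RowNum
import Pool.Agent.Mu673.KCrowT

/-!
ONE-BODY CHECK over all nodes of the row data (`KCrow`): one Bool check per cell.
-/

set_option autoImplicit false

namespace MP61673a.FE

open Finset MP61673a.Kink MP61673a.Bary MP61673a.Sos MP61673a.Fin MP61673a.KC

/-- the class with the number `c` -/
def clN (cs : List Cl) (c : ℕ) : Cl := nth default cs c

/-- same region -/
def Cl.same (c c' : Cl) : Bool :=
  decide (c.sd = c'.sd ∧ c.na = c'.na ∧ c.nb = c'.nb ∧ c.sa = c'.sa ∧ c.sb = c'.sb ∧ c.bt = c'.bt)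

/-- the classes which are not outside copies; `k` = number of the first class -/
def selW (iw : List ℕ) : ℕ → List Cl → List Cl
  | _, [] => []
  | k, c :: cs => if nth 0 iw k = 2 then selW iw (k + 1) cs else c :: selW iw (k + 1) cs

/-- every inside copy has an outside copy -/
def twinChk (cs : List Cl) (iw : List ℕ) : Bool :=
  allN cs.length (fun i => decide (nth 0 iw i ≠ 1)
    || !(allN cs.length (fun j => !(decide (nth 0 iw j = 2) && (clN cs i).same (clN cs j)))))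

/-- the class descriptors belong to the segments, and contain their classes -/
def csChk (M : ℕ) (s2 q S : ℤ) (segs : List SegR) (cs : List Cl) (iw : List ℕ) : Bool :=
  Nat.beq cs.length (nC segs)
    && allN cs.length (fun c => decide ((clN cs c).lo = loR segs S c)
      && decide ((clN cs c).hi = hiR segs S c) && decide ((clN cs c).run M s2 q))
    && covAll false q (selW iw 0 cs) && covAll true q (selW iw 0 cs) && twinChk cs iw

/-- the one-body check: `a v / (2 U)` = constant of the node `v`, `x v` = extra function,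
`g v i j` = price of the zone `i` at the label node `j - M - 2` -/
def oneR (p : CellPar) (U : ℕ) (S : ℤ) (segs : List SegR) (cs : List Cl) (iw : List ℕ)
    (w : ℕ → ℕ → ℕ) (g : ℕ → ℕ → ℕ → ℕ) (a : ℕ → ℕ) (x : ℕ → ℤ) : Bool :=
  allN (vR segs) (fun v => ndChk p U (nth 0 iw (ixR segs v)) (clN cs (ixR segs v))
    (psR segs v - S) (a v) (x v) (bzN p.M w (g v)))

lemma nC_eq (segs : List SegR) : nC segs = segs.length := by
  unfold nC
  rw [sumL_one]

structure CsOK (M : ℕ) (s2 q S : ℤ) (segs : List SegR) (cs : List Cl) (iw : List ℕ) :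
    Prop where
  len : cs.length = nC segs
  lo : ∀ c < cs.length, (clN cs c).lo = loR segs S c
  hi : ∀ c < cs.length, (clN cs c).hi = hiR segs S c
  run : ∀ c < cs.length, (clN cs c).run M s2 q
  c0 : covAll false q (selW iw 0 cs) = true
  c1 : covAll true q (selW iw 0 cs) = true
  tw : ∀ i < cs.length, nth 0 iw i = 1 → ∃ j < cs.length, nth 0 iw j = 2
    ∧ (clN cs i).same (clN cs j) = true

lemma allN_false {n : ℕ} {f : ℕ → Bool} (h : allN n f = false) : ∃ k < n, f k = false := by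
  by_contra hc
  push Not at hc
  have : allN n f = true := (allN_iff _ _).2 fun k hk => by
    have := hc k hk
    simpa using this
  rw [this] at h
  exact absurd h (by simp)

lemma csChk_sound {M : ℕ} {s2 q S : ℤ} {segs : List SegR} {cs : List Cl} {iw : List ℕ}
    (h : csChk M s2 q S segs cs iw = true) : CsOK M s2 q S segs cs iw := by
  unfold csChk at h
  simp only [Bool.and_eq_true] at h
  obtain ⟨⟨⟨⟨h1, h2⟩, h3⟩, h4⟩, h5⟩ := h
  have h2' := (allN_iff _ _).1 h2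
  refine ⟨Nat.eq_of_beq_eq_true h1, fun c hc => ?_, fun c hc => ?_, fun c hc => ?_, h3, h4,
    fun i hi hw => ?_⟩
  · have := h2' c hc
    simp only [Bool.and_eq_true, decide_eq_true_eq] at this
    exact this.1.1
  · have := h2' c hc
    simp only [Bool.and_eq_true, decide_eq_true_eq] at this
    exact this.1.2
  · have := h2' c hc
    simp only [Bool.and_eq_true, decide_eq_true_eq] at this
    exact this.2
  · have := (allN_iff _ _).1 h5 i hi
    simp only [Bool.or_eq_true, decide_eq_true_eq, Bool.not_eq_true'] at this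
    rcases this with h6 | h6
    · exact absurd hw h6
    · obtain ⟨j, hj, h7⟩ := allN_false h6
      simp only [Bool.not_eq_false', Bool.and_eq_true, decide_eq_true_eq] at h7
      exact ⟨j, hj, h7.1, h7.2⟩

lemma clN_get (cs : List Cl) (c : Fin cs.length) : clN cs c = cs.get c := by
  unfold clN
  obtain ⟨c, hc⟩ := c
  induction cs generalizing c with
  | nil => exact absurd hc (Nat.not_lt_zero c)
  | cons a l ih =>
    cases c with
    | zero => rfl
    | succ c => exact ih c (Nat.lt_of_succ_lt_succ hc)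

lemma selW_mem (iw : List ℕ) (k : ℕ) (cs : List Cl) {c : Cl} (h : c ∈ selW iw k cs) :
    ∃ i < cs.length, clN cs i = c ∧ nth 0 iw (k + i) ≠ 2 := by
  induction cs generalizing k with
  | nil => simp [selW] at h
  | cons a l ih =>
    unfold selW at h
    split_ifs at h with h1
    · obtain ⟨i, hi, h2, h3⟩ := ih (k + 1) h
      refine ⟨i + 1, by simp; omega, h2, ?_⟩
      rw [show k + (i + 1) = k + 1 + i by ring]
      exact h3
    · rcases List.mem_cons.1 h with h2 | h2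
      · exact ⟨0, by simp, h2.symm, h1⟩
      · obtain ⟨i, hi, h3, h4⟩ := ih (k + 1) h2
        refine ⟨i + 1, by simp; omega, h3, ?_⟩
        rw [show k + (i + 1) = k + 1 + i by ring]
        exact h4

lemma Cl.has_same {q D : ℤ} {c c' : Cl} {x : P3} (h : c.same c' = true) (hx : c.has q D x) :
    c'.has q D x := by
  unfold Cl.same at h
  have h' := of_decide_eq_true h
  obtain ⟨h1, h2, h3, h4, h5, h6⟩ := h'
  unfold Cl.has at hx ⊢
  rw [← h1, ← h2, ← h3, ← h4, ← h5, ← h6]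
  exact hx

/-- CLASS MAP with inside (`iw = 1`: `w ≤ u`) and outside (`iw = 2`: `u < w`) copies -/
theorem CsOK.clMap {M : ℕ} {s2 q S : ℤ} {segs : List SegR} {cs : List Cl} {iw : List ℕ}
    (h : CsOK M s2 q S segs cs iw) (hq : 0 < q) {D K : ℤ} (hD : D = 4 * K + 1) (hK : 1 ≤ K)
    (w : ℤ) :
    ∃ cl : P4 → Fin cs.length, ClMap (fun i => cs.get i) q D K cl
      ∧ (∀ x : P4, InR D K x.2 → nth 0 iw (cl x) = 1 → w ≤ x.2.2)
      ∧ (∀ x : P4, InR D K x.2 → nth 0 iw (cl x) = 2 → x.2.2 < w)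
      ∧ ∀ x y : P4, x.2 = y.2 → cl x = cl y := by
  have key : ∀ x : P3, InR D K x → ∃ i : Fin cs.length, (cs.get i).has q D x
      ∧ (nth 0 iw i = 1 → w ≤ x.2) ∧ (nth 0 iw i = 2 → x.2 < w) := by
    intro x hx
    have : ∃ c ∈ selW iw 0 cs, c.has q D x := by
      rcases hs : x.1 with _ | _
      · exact covAll_sound hq h.c0 hD hK hx hs
      · exact covAll_sound hq h.c1 hD hK hx hs
    obtain ⟨c, hc, hh⟩ := this
    obtain ⟨i, hi, h1, h2⟩ := selW_mem iw 0 cs hc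
    rw [zero_add] at h2
    by_cases hin : nth 0 iw i = 1 ∧ x.2 < w
    · obtain ⟨j, hj, h3, h4⟩ := h.tw i hi hin.1
      refine ⟨⟨j, hj⟩, ?_, fun h5 => ?_, fun _ => hin.2⟩
      · rw [← clN_get]
        rw [h1] at h4
        exact Cl.has_same h4 hh
      · exact absurd (h3.symm.trans h5) (by norm_num)
    · refine ⟨⟨i, hi⟩, ?_, fun h5 => ?_, fun h5 => absurd h5 h2⟩
      · rw [← clN_get]
        show (clN cs i).has q D x
        rw [h1]
        exact hh
      · by_contra h6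
        exact hin ⟨h5, by omega⟩
  have hne : Nonempty (Fin cs.length) := by
    obtain ⟨i, _⟩ := key (false, 0) ⟨by omega, by dsimp only; omega⟩
    exact ⟨i⟩
  classical
  refine ⟨fun x => if hx : InR D K x.2 then Classical.choose (key x.2 hx)
    else Classical.choice hne, ⟨fun x hx => ?_⟩, fun x hx => ?_, fun x hx => ?_,
    fun x y hxy => ?_⟩
  · rw [dif_pos hx]
    exact (Classical.choose_spec (key x.2 hx)).1
  · dsimp only
    rw [dif_pos hx]
    exact (Classical.choose_spec (key x.2 hx)).2.1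
  · dsimp only
    rw [dif_pos hx]
    exact (Classical.choose_spec (key x.2 hx)).2.2
  · simp only [hxy]

/-- THE ONE-BODY CHECK AT ONE NODE -/
theorem oneR_sound {p : CellPar} (hp : p.Pos) {U : ℕ} (hU : 0 < U) {S : ℤ}
    {segs : List SegR} {cs : List Cl} {iw : List ℕ} (hcs : CsOK p.M p.s2 p.q S segs cs iw)
    {w : ℕ → ℕ → ℕ} (hw : wChk p.M p.s2.toNat w = true) {g : ℕ → ℕ → ℕ → ℕ} {a : ℕ → ℕ}
    {x : ℕ → ℤ} (h : oneR p U S segs cs iw w g a x = true)
    {g0 : Fin 3 → Fin cs.length × ℤ → ℤ → ℝ}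
    (hg : ∀ (i : Fin 3) (ζ : Fin cs.length × ℤ) (j : ℕ), j < 3 * p.M + 5 →
      (cs.get ζ.1).lo ≤ ζ.2 → ζ.2 ≤ (cs.get ζ.1).hi →
      g0 i ζ ((j:ℤ) - p.M - 2) = (g (vT segs S (ζ.1, ζ.2)) i j : ℝ) / U)
    (ζ : Fin cs.length × ℤ) (h1 : (cs.get ζ.1).lo ≤ ζ.2) (h2 : ζ.2 ≤ (cs.get ζ.1).hi) :
    3 * ((a (vT segs S (ζ.1, ζ.2)) : ℝ) / (2 * U))
      ≤ ((p.nb (nth 0 iw ζ.1) (cs.get ζ.1) ζ.2 : ℚ) : ℝ)
        + bzS p.M ((p.s2:ℝ) / 2) (cutL p.M ((p.s2:ℝ) / 2)) (cutR p.M ((p.s2:ℝ) / 2))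
          (fun i => g0 i ζ) / p.M - x (vT segs S (ζ.1, ζ.2)) / (2 * U) := by
  have hlo := hcs.lo ζ.1 ζ.1.2
  have hhi := hcs.hi ζ.1 ζ.1.2
  rw [clN_get] at hlo hhi
  obtain ⟨v1, v2, v3⟩ := vT_spec segs S ζ.1 ζ.2 (by rw [← hlo]; exact h1)
    (by rw [← hhi]; exact h2)
  have hn := (allN_iff _ _).1 h _ v1
  rw [v3, v2, clN_get, show ζ.2 + S - S = ζ.2 by ring] at hn
  have key := ndChk_sound hp hU hn
  have hs2 : p.s2.toNat ≤ 2 := by
    have := hp.s2
    omega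
  have es : ((p.s2.toNat : ℕ) : ℝ) = (p.s2 : ℝ) := by
    have : ((p.s2.toNat : ℕ) : ℤ) = p.s2 := Int.toNat_of_nonneg hp.s0
    exact_mod_cast this
  have hw' := (allN_iff _ _).1 hw
  have eb := bzS_int (M := p.M) hs2 hU (w := w) (g := g (vT segs S (ζ.1, ζ.2)))
    (g0 := fun i => g0 i ζ) (fun j hj i hi => Nat.eq_of_beq_eq_true ((allN_iff _ _).1 (hw' j hj) i hi))
    (fun i j hj => hg i ζ j hj h1 h2)
  rw [es] at eb
  rw [eb]
  exact key


noncomputable section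

lemma CsOK.runF {M : ℕ} {s2 q S : ℤ} {segs : List SegR} {cs : List Cl} {iw : List ℕ}
    (h : CsOK M s2 q S segs cs iw) (c : Fin cs.length) : (cs.get c).run M s2 q := by
  have := h.run c c.2
  rwa [clN_get] at this

/-- THE ONE-BODY PART OF A ROW from the Bool check of all nodes -/
theorem one_row {p : CellPar} (hp : p.Pos) {U : ℕ} (hU : 0 < U) {S : ℤ}
    {segs : List SegR} {cs : List Cl} {iw : List ℕ} (hcs : CsOK p.M p.s2 p.q S segs cs iw)
    {w : ℕ → ℕ → ℕ} (hw : wChk p.M p.s2.toNat w = true) {g : ℕ → ℕ → ℕ → ℕ} {a : ℕ → ℕ}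
    {x : ℕ → ℤ} (h : oneR p U S segs cs iw w g a x = true)
    {D K E t0 t1 wl c1 c2 c3 : ℤ} {cl : P4 → Fin cs.length} (hD : D = 4 * K + 1) (hK : 1 ≤ K)
    (hK2 : 100 ≤ K) (hDM : 13 * (p.M : ℤ) ≤ D)
    (hcl : ClMap (fun i : Fin cs.length => cs.get i) p.q D K cl)
    (hiw : ∀ y, InR D K y.2 → nth 0 iw (cl y) = 1 → wl ≤ y.2.2)
    (hc : CellAt p.m p.a p.b D t0 t1) (hk : CutOK p.m p.a D t0 wl c1 c2 c3)
    (hE : 40 * E ≤ D)
    {gr : Fin 3 → Fin cs.length × ℤ → Bool → ℤ → ℝ} {g0 : Fin 3 → Fin cs.length × ℤ → ℤ → ℝ}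
    (hg0 : ∀ i ζ k, 0 ≤ g0 i ζ k) (hgr : ∀ i ζ e k, g0 i ζ k ≤ gr i ζ e k)
    (hg : ∀ (i : Fin 3) (ζ : Fin cs.length × ℤ) (j : ℕ), j < 3 * p.M + 5 →
      (cs.get ζ.1).lo ≤ ζ.2 → ζ.2 ≤ (cs.get ζ.1).hi →
      g0 i ζ ((j:ℤ) - p.M - 2) = (g (vT segs S (ζ.1, ζ.2)) i j : ℝ) / U) {Bg : ℝ}
    (hBg : ∀ ζ, ∑ i : Fin 3, ∑ k ∈ Iz p.M, g0 i ζ k ≤ Bg)
    {wf : P4 → ℝ} {cw : ℝ} (hcw : 0 ≤ cw)
    (hwf : ∀ y, InR D K y.2 →
      (D:ℝ) * kX (mkGrd hp.q hD hK hcs.runF hcl).lo (mkGrd hp.q hD hK hcs.runF hcl).hi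
        (fun ζ => -((x (vT segs S (ζ.1, ζ.2)) : ℝ) / (2 * U)))
        ((mkGrd hp.q hD hK hcs.runF hcl).pt y) - cw ≤ wf y)
    {n1 : P3 → ℝ} {X1 : P4 → ℝ}
    (hn1 : ∀ y, InR D K y.2 →
      n1cut p.o K (rhoE D) E t0 t1 wl c1 c2 c3 y.2 + wf y ≤ n1 y.2 - X1 y) :
    ∃ (B : P4 → ℝ) (e1 : ℝ), 0 ≤ e1
      ∧ e1 = oneC p.M (∑ c : Fin cs.length, ∑ i ∈ nd (mkGrd hp.q hD hK hcs.runF hcl).lo
          (mkGrd hp.q hD hK hcs.runF hcl).hi c, |((p.nb (nth 0 iw c) (cs.get c) i : ℚ) : ℝ)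
          + (bzS p.M ((p.s2:ℝ) / 2) (cutL p.M ((p.s2:ℝ) / 2)) (cutR p.M ((p.s2:ℝ) / 2))
            (fun j => g0 j (c, i)) + p.M * -((x (vT segs S (c, i)) : ℝ) / (2 * U))) / p.M|) Bg cw
      ∧ (∀ (lR lL : ℤ → Bool) (y : P4), InR D K y.2 →
        B y ≤ ∑ s ∈ Ico 0 D, ((mkGrd hp.q hD hK hcs.runF hcl).gR gr y (lR s) s
          + (mkGrd hp.q hD hK hcs.runF hcl).gL gr y (lL s) s))
      ∧ (∀ y : P4, InR D K y.2 → -(2 * e1) ≤ m1tc K (rhoE D) E t0 t1 n1 B X1 y)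
      ∧ (mkGrd hp.q hD hK hcs.runF hcl).OneP
        (fun y => -(m1tc K (rhoE D) E t0 t1 n1 B X1 y / (3 * D + 11)))
        (fun ζ => -((a (vT segs S (ζ.1, ζ.2)) : ℝ) / (2 * U))) (e1 / (3 * D)) := by
  have hU' : (0:ℝ) < U := by exact_mod_cast hU
  refine row_one (iw := fun c : Fin cs.length => nth 0 iw c) hp hD hK hK2 hDM hcs.runF hcl hiw hc hk
    hE hg0 hgr hBg hcw hwf hn1
    (fun ζ _ => by positivity) (fun ζ hζ => ?_)
  have hm := mem_Icc.1 hζ
  have := oneR_sound hp hU hcs hw h hg ζ hm.1 hm.2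
  linarith

end

end MP61673a.FE
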