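import Pool.Agent.Mu673.RowDO1012_0
import Pool.Agent.Mu673.RowOut

/-!
THE ROW CELL O1012: a/m = 10/40, b/m = 12/40, M = 40, 2 sigma = 0, case free, scale 2^25.
-/

set_option autoImplicit false
set_option maxRecDepth 100000

namespace MP61673a.KC.RowO1012

open MP61673a.FE MP61673a.KC MP61673a.RowO

noncomputable section

def seg0 : SegR := ⟨0, 36,
  [⟨0, 36, 0, 0, 5⟩, ⟨35, 11, 1, 0, 5⟩, ⟨45, 16, 1, 0, 5⟩, ⟨85, 36, 4, 3, 5⟩, ⟨69, 17, 4, 3, 5⟩, ⟨66, 4, 4, 3, 5⟩, ⟨60, 7, 4, 3, 5⟩],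
  [⟨0, []⟩, ⟨0, []⟩, ⟨0, []⟩, ⟨0, []⟩, ⟨0, []⟩, ⟨1, []⟩]⟩
def seg1 : SegR := ⟨35, 11,
  [⟨0, 36, 0, 1, 5⟩, ⟨35, 11, 1, 1, 5⟩, ⟨45, 16, 1, 1, 5⟩, ⟨85, 36, 4, 3, 5⟩, ⟨69, 17, 4, 3, 5⟩, ⟨66, 4, 4, 3, 5⟩, ⟨60, 7, 4, 3, 5⟩],
  [⟨0, []⟩, ⟨1, []⟩, ⟨2, []⟩, ⟨0, []⟩, ⟨0, []⟩, ⟨3, []⟩]⟩
def seg2 : SegR := ⟨45, 16,
  [⟨0, 36, 0, 1, 5⟩, ⟨35, 11, 1, 1, 5⟩, ⟨45, 16, 1, 1, 5⟩, ⟨85, 36, 4, 3, 5⟩, ⟨69, 17, 4, 3, 5⟩, ⟨66, 4, 4, 3, 5⟩, ⟨60, 7, 4, 3, 5⟩],
  [⟨0, []⟩, ⟨1, []⟩, ⟨0, []⟩, ⟨0, []⟩, ⟨0, []⟩, ⟨2, []⟩]⟩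
def seg3 : SegR := ⟨85, 36,
  [⟨0, 36, 3, 4, 5⟩, ⟨35, 11, 3, 4, 5⟩, ⟨45, 16, 3, 4, 5⟩, ⟨85, 36, 0, 0, 5⟩, ⟨69, 17, 2, 0, 5⟩, ⟨66, 4, 2, 0, 5⟩, ⟨60, 7, 2, 0, 5⟩],
  [⟨0, []⟩, ⟨1, []⟩, ⟨0, []⟩, ⟨2, []⟩, ⟨0, []⟩, ⟨3, []⟩]⟩
def seg4 : SegR := ⟨69, 17,
  [⟨0, 36, 3, 4, 5⟩, ⟨35, 11, 3, 4, 5⟩, ⟨45, 16, 3, 4, 5⟩, ⟨85, 36, 0, 2, 5⟩, ⟨69, 17, 2, 2, 5⟩, ⟨66, 4, 2, 2, 5⟩, ⟨60, 7, 2, 2, 5⟩],
  [⟨0, []⟩, ⟨1, []⟩, ⟨0, []⟩, ⟨2, []⟩, ⟨0, []⟩, ⟨3, []⟩]⟩
def seg5 : SegR := ⟨66, 4,
  [⟨0, 36, 3, 4, 5⟩, ⟨35, 11, 3, 4, 5⟩, ⟨45, 16, 3, 4, 5⟩, ⟨85, 36, 0, 2, 5⟩, ⟨69, 17, 2, 2, 5⟩, ⟨66, 4, 2, 2, 5⟩, ⟨60, 7, 2, 2, 5⟩],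
  [⟨0, []⟩, ⟨1, []⟩, ⟨0, []⟩, ⟨2, []⟩, ⟨0, []⟩, ⟨3, []⟩]⟩
def seg6 : SegR := ⟨60, 7,
  [⟨0, 36, 3, 4, 5⟩, ⟨35, 11, 3, 4, 5⟩, ⟨45, 16, 3, 4, 5⟩, ⟨85, 36, 0, 2, 5⟩, ⟨69, 17, 2, 2, 5⟩, ⟨66, 4, 2, 2, 5⟩, ⟨60, 7, 2, 2, 5⟩],
  [⟨0, []⟩, ⟨1, []⟩, ⟨2, []⟩, ⟨3, []⟩, ⟨4, []⟩, ⟨5, []⟩]⟩
/-- squares -/
def sqs : List (List (List Nat)) := [[sq0, sq1, sq2, sq3, sq4, sq5, sq6, sq7, sq8, sq9, sq10, sq11, sq12, sq13, sq14, sq15],
  [sq16, sq17, sq18, sq19, sq20, sq21, sq22, sq23, sq24, sq25, sq26, sq27, sq28, sq29, sq30, sq31],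
  [sq32, sq33, sq34, sq35, sq36, sq37, sq38, sq39, sq40, sq41, sq42, sq43, sq44, sq45, sq46, sq47],
  [sq48, sq49, sq50, sq51, sq52, sq53, sq54, sq55, sq56, sq57, sq58, sq59, sq60, sq61, sq62, sq63],
  [sq64, sq65, sq66, sq67, sq68, sq69, sq70, sq71, sq72, sq73, sq74, sq75, sq76, sq77, sq78, sq79],
  [sq80, sq81, sq82, sq83, sq84, sq85, sq86, sq87, sq88, sq89, sq90, sq91, sq92, sq93, sq94, sq95],
  [sq96, sq97, sq98, sq99, sq100, sq101, sq102, sq103, sq104, sq105, sq106, sq107, sq108, sq109, sq110, sq111],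
  [sq112, sq113, sq114, sq115, sq116, sq117, sq118, sq119, sq120, sq121, sq122, sq123, sq124, sq125, sq126]]
/-- tables -/
def ws : List (List (List Nat)) := [[w0, w1, w2, w3, w4, w5, w6, w7, w8, w9, w10, w11, w12, w13, w14, w15],
  [w16, w17, w18, w19, w20, w21, w22, w23, w24, w25, w26, w27, w28, w29, w30, w31],
  [w32, w33, w34, w35, w36, w37, w38, w39, w40, w41, w42, w43, w44, w45, w46, w47],
  [w48, w49, w50, w51, w52, w53, w54, w55, w56, w57, w58, w59, w60, w61, w62, w63],
  [w64, w65, w66, w67, w68, w69, w70, w71, w72, w73, w74, w75, w76, w77, w78, w79],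
  [w80, w81, w82, w83, w84, w85, w86, w87, w88, w89, w90, w91, w92, w93, w94, w95],
  [w96, w97, w98, w99, w100, w101, w102, w103, w104, w105, w106, w107, w108, w109, w110, w111],
  [w112, w113, w114, w115, w116, w117, w118, w119, w120, w121, w122, w123, w124, w125, w126]]
/-- the data of the certificate -/
def dat : DatR := ⟨120, 9, [seg0, seg1, seg2, seg3, seg4, seg5, seg6], sqs, ws, [], [fn0],
  nat_lit 0,
  nat_lit 0x440687900036f15370003665cc300036a3d6a00038277200003ebe5920004e5d9a800033f58a10002cc6747000213f3b90001b2e8e90005e1344200051bfca600054c9cd30005990aed00057275c6000553cf2100054217b100057b716400059db53600056790920004d3f5f50004789ece00043d3b430003dfc8580003a54c800003904dd500037ef3e60001f84f0200014f6fb100010a64d60000efc0d70000decd2e0000dee0720000e4e3f80000ebc69e0000f271af000106aa100001183a5a00012cbc900001439cf500015ccbe2000172ad1e00018b58bb00019e34f10001a3aeb400019fffac0001929b5d0001827a2500016b7b0b0001605db70001558b2100014226ac0001218e6100011ca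d22000129fe99000137543a000106c0bc0000ee81150001110b4600011b59290001198941000110df640000f2305b0007c8733e000767a92e00073baa9a0007437fed000774675400079261780007fc088d00087335c60008c2483200089c6c930008508b8700083abde500087127bb0009161c92000a141b21000aa9a490000783c71c00083fac9b0009708ff8000998fcbc0009de0fef000a6b71dd000b2d4bc0000abdb4b400097e980d000985ad1c0009fc49b00001aa84e400016773db0001603f660001730ec90001759f290001854b410001c0728c00025c629c0002afcf3200021389980001bc59b400019685380001971fad0001a2e0bb0001abca280001b960be0001d49b360001e5524c0001e4498a0001dde01f0001cfb5580001c124830001b0cebc00019fbe18000181b26a00015fd12200013a61ef000126723d00010d7c7d000102d67d0000ee110b0000e101590000d56bce0000cddd640000c8c5650000bef0e5, 0⟩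
/-- prices, end data, cuts -/
def rcd : RCd := ⟨⟨360, 159, 201, 0, 0, 40⟩, [[pr0, pr1, pr2, pr3, pr4, pr5, pr6, pr7, pr8, pr9, pr10, pr11, pr12, pr13, pr14, pr15],
  [pr16, pr17, pr18, pr19, pr20, pr21, pr22, pr23, pr24, pr25, pr26, pr27, pr28, pr29, pr30, pr31],
  [pr32, pr33, pr34, pr35, pr36, pr37, pr38, pr39, pr40, pr41, pr42, pr43, pr44, pr45, pr46, pr47],
  [pr48, pr49, pr50, pr51, pr52, pr53, pr54, pr55, pr56, pr57, pr58, pr59, pr60, pr61, pr62, pr63],
  [pr64, pr65, pr66, pr67, pr68, pr69, pr70, pr71, pr72, pr73, pr74, pr75, pr76, pr77, pr78, pr79],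
  [pr80, pr81, pr82, pr83, pr84, pr85, pr86, pr87, pr88, pr89, pr90, pr91, pr92, pr93, pr94, pr95],
  [pr96, pr97, pr98, pr99, pr100, pr101, pr102, pr103, pr104, pr105, pr106, pr107, pr108, pr109, pr110, pr111],
  [pr112, pr113, pr114, pr115, pr116, pr117, pr118, pr119, pr120, pr121, pr122, pr123, pr124, pr125, pr126]], [[ec0, ec1, ec2, ec3, ec4, ec5, ec6, ec7, ec8, ec9, ec10, ec11, ec12, ec13, ec14, ec15],
  [ec16, ec17, ec18, ec19, ec20, ec21, ec22, ec23, ec24, ec25, ec26, ec27, ec28, ec29, ec30, ec31],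
  [ec32, ec33, ec34, ec35, ec36, ec37, ec38, ec39, ec40, ec41, ec42, ec43, ec44, ec45, ec46, ec47],
  [ec48, ec49, ec50, ec51, ec52, ec53, ec54, ec55, ec56, ec57, ec58, ec59, ec60, ec61, ec62, ec63],
  [ec64, ec65, ec66, ec67, ec68, ec69, ec70, ec71, ec72, ec73, ec74, ec75, ec76, ec77, ec78, ec79],
  [ec80, ec81, ec82, ec83, ec84, ec85, ec86, ec87, ec88, ec89, ec90, ec91, ec92, ec93, ec94, ec95],
  [ec96, ec97, ec98, ec99, ec100, ec101, ec102, ec103, ec104, ec105, ec106, ec107, ec108, ec109, ec110, ec111],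
  [ec112, ec113, ec114, ec115, ec116, ec117, ec118, ec119, ec120, ec121, ec122, ec123, ec124, ec125, ec126]],
  40, 80, 160, 180, 200, 5, 5⟩
/-- class descriptors -/
def cls : List Cl := [⟨false, -3200, -400, false, true, true, -40, -5⟩,
  ⟨false, -400, 400, false, false, false, -5, 5⟩,
  ⟨false, 400, 1600, true, false, false, 5, 20⟩,
  ⟨true, -3200, -400, false, true, true, 45, 80⟩,
  ⟨true, -400, 880, false, true, false, 29, 45⟩,
  ⟨true, 880, 1120, false, true, false, 26, 29⟩,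
  ⟨true, 1120, 1600, false, false, false, 20, 26⟩]
/-- window copies -/
def iw : List Nat := [0, 0, 0, 0, 0, 0, 0]
/-- parameters of the cell -/
def par : CellPar := ⟨40, 0, 3200, 40, 10, 12, 1, 250, true⟩
/-- families -/
def fam : List Gf := [⟨stp0, 24, 0, 1, 1, 611200, 3200, 8388608, 0, 0, [0, 0, 0, 2, 2, 0, 0], [0, 1, 0, 0, 0]⟩,
  ⟨stp1, 24, 0, 1, 1, 614400, 3200, 8388608, 0, 0, [0, 0, 0, 2, 2, 0, 0], [0, 1, 0, 0, 0]⟩]
/-- kinds of the families -/
def ks : List Nat := [2, 3]
/-- weights of the price sums -/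
def wp : List Nat := [nat_lit 0x190000000032000000003200000000320000000032000000003200000000320000000032000000003200000000320000000032000000003200000000320000000032000000003200000000320000000032000000003200000000320000000032000000003200000000320000000032000000003200000000320000000032000000003200000000320000000032000000003200000000320000000032000000003200000000320000000032000000003200000000320000000032000000003200000000190000000000000000000000, nat_lit 0x190000000019000000000000000000000000000000000000000000000000000000000000000000000000000000000000000000000000000000000000000000000000000000000000000000000000000000000000000000000000000000000000000000000000000000000000000000000000000000000000000000000000000000000000000000000000000000000000000000000000000000000000000000000000000000000000000000000000000000000000000000000000000000000000000000000000000000000000001900000000190000000000000000000000000000000000000000000000000000000000000000000000000000000000000000000000000000000000000000000000000000000000000000000000000000000000000000000000000000000000000000000000000000000000000000000000000000000000000000000000000000000000000000000000000000000000000000000000000000000000000000000000000000000000000000000000000000000000000000000000000000000000000000000000000000000000000000000000000000,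 nat_lit 0x190000000032000000003200000000320000000032000000003200000000320000000032000000003200000000320000000032000000003200000000320000000032000000003200000000320000000032000000003200000000320000000032000000003200000000320000000032000000003200000000320000000032000000003200000000320000000032000000003200000000320000000032000000003200000000320000000032000000003200000000320000000032000000003200000000190000000000000000000000000000000000000000000000000000000000000000000000000000000000000000000000000000000000000000000000000000000000000000000000000000000000000000000000000000000000000000000000000000000000000000000000000000000000000000000000000000000000000000000000000000000000000000000000000000000000000000000000000000000000000000000000000000000000000000000000000000000000000000000000000000000000000000000000000000000000000000000000000000000000000000000000000000000000000000000000000000000000000000000000000000000000000000000000000000000000000000000000000000000000000000000000000000000000000000000000000000000000000000000000000000000000000000000000000000000000000000000000000000000000000000000000000000000000000000000000000000000000000000000000000000000000000000000000000000000000000000000000000000000000000000000000000000000000000000]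
/-- the certificate -/
def A : RD := ⟨dat, rcd, cls, iw, par, fam, 33554432, 40, wp, [0, 1, 2, 3, 4],
  [0, -2, -2, 2, 2, 2, 2], [0, -2, 0, 0, 0, 0, 2], [0, 0, 0, 4, 4, 2, 2], [0, 0, 0, 0, 0, 0, 2]⟩

end

end MP61673a.KC.RowO1012
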