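import Pool.Agent.Mu673.RowDO2028_0
import Pool.Agent.Mu673.RowOut

/-!
THE ROW CELL O2028: a/m = 20/40, b/m = 28/40, M = 40, 2 sigma = 0, case free, scale 2^25.
-/

set_option autoImplicit false
set_option maxRecDepth 100000

namespace MP61673a.KC.RowO2028

open MP61673a.FE MP61673a.KC MP61673a.RowO

noncomputable section

def seg0 : SegR := ⟨0, 36,
  [⟨0, 36, 0, 0, 5⟩, ⟨35, 16, 1, 0, 5⟩, ⟨50, 11, 1, 0, 5⟩, ⟨85, 36, 4, 3, 5⟩, ⟨80, 6, 4, 3, 5⟩, ⟨74, 7, 4, 3, 5⟩, ⟨72, 3, 4, 3, 5⟩, ⟨60, 13, 4, 3, 5⟩],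
  [⟨0, []⟩, ⟨0, []⟩, ⟨0, []⟩, ⟨0, []⟩, ⟨0, []⟩, ⟨1, []⟩]⟩
def seg1 : SegR := ⟨35, 16,
  [⟨0, 36, 0, 1, 5⟩, ⟨35, 16, 1, 1, 5⟩, ⟨50, 11, 1, 1, 5⟩, ⟨85, 36, 4, 3, 5⟩, ⟨80, 6, 4, 3, 5⟩, ⟨74, 7, 4, 3, 5⟩, ⟨72, 3, 4, 3, 5⟩, ⟨60, 13, 4, 3, 5⟩],
  [⟨0, []⟩, ⟨1, []⟩, ⟨2, []⟩, ⟨0, []⟩, ⟨0, []⟩, ⟨3, []⟩]⟩
def seg2 : SegR := ⟨50, 11,
  [⟨0, 36, 0, 1, 5⟩, ⟨35, 16, 1, 1, 5⟩, ⟨50, 11, 1, 1, 5⟩, ⟨85, 36, 4, 3, 5⟩, ⟨80, 6, 4, 3, 5⟩, ⟨74, 7, 4, 3, 5⟩, ⟨72, 3, 4, 3, 5⟩, ⟨60, 13, 4, 3, 5⟩],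
  [⟨0, []⟩, ⟨1, []⟩, ⟨0, []⟩, ⟨2, []⟩, ⟨0, []⟩, ⟨3, []⟩]⟩
def seg3 : SegR := ⟨85, 36,
  [⟨0, 36, 3, 4, 5⟩, ⟨35, 16, 3, 4, 5⟩, ⟨50, 11, 3, 4, 5⟩, ⟨85, 36, 0, 0, 5⟩, ⟨80, 6, 2, 0, 5⟩, ⟨74, 7, 2, 0, 5⟩, ⟨72, 3, 2, 0, 5⟩, ⟨60, 13, 2, 0, 5⟩],
  [⟨0, []⟩, ⟨1, []⟩, ⟨0, []⟩, ⟨2, []⟩, ⟨0, []⟩, ⟨3, []⟩]⟩
def seg4 : SegR := ⟨80, 6,
  [⟨0, 36, 3, 4, 5⟩, ⟨35, 16, 3, 4, 5⟩, ⟨50, 11, 3, 4, 5⟩, ⟨85, 36, 0, 2, 5⟩, ⟨80, 6, 2, 2, 5⟩, ⟨74, 7, 2, 2, 5⟩, ⟨72, 3, 2, 2, 5⟩, ⟨60, 13, 2, 2, 5⟩],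
  [⟨0, []⟩, ⟨1, []⟩, ⟨0, []⟩, ⟨2, []⟩, ⟨0, []⟩, ⟨3, []⟩]⟩
def seg5 : SegR := ⟨74, 7,
  [⟨0, 36, 3, 4, 5⟩, ⟨35, 16, 3, 4, 5⟩, ⟨50, 11, 3, 4, 5⟩, ⟨85, 36, 0, 2, 5⟩, ⟨80, 6, 2, 2, 5⟩, ⟨74, 7, 2, 2, 5⟩, ⟨72, 3, 2, 2, 5⟩, ⟨60, 13, 2, 2, 5⟩],
  [⟨0, []⟩, ⟨1, []⟩, ⟨0, []⟩, ⟨2, []⟩, ⟨0, []⟩, ⟨3, []⟩]⟩
def seg6 : SegR := ⟨72, 3,
  [⟨0, 36, 3, 4, 5⟩, ⟨35, 16, 3, 4, 5⟩, ⟨50, 11, 3, 4, 5⟩, ⟨85, 36, 0, 2, 5⟩, ⟨80, 6, 2, 2, 5⟩, ⟨74, 7, 2, 2, 5⟩, ⟨72, 3, 2, 2, 5⟩, ⟨60, 13, 2, 2, 5⟩],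
  [⟨0, []⟩, ⟨1, []⟩, ⟨2, []⟩, ⟨3, []⟩, ⟨4, []⟩, ⟨5, []⟩]⟩
def seg7 : SegR := ⟨60, 13,
  [⟨0, 36, 3, 4, 5⟩, ⟨35, 16, 3, 4, 5⟩, ⟨50, 11, 3, 4, 5⟩, ⟨85, 36, 0, 2, 5⟩, ⟨80, 6, 2, 2, 5⟩, ⟨74, 7, 2, 2, 5⟩, ⟨72, 3, 2, 2, 5⟩, ⟨60, 13, 2, 2, 5⟩],
  [⟨0, []⟩, ⟨1, []⟩, ⟨2, []⟩, ⟨3, []⟩, ⟨4, []⟩, ⟨5, []⟩]⟩
/-- squares -/
def sqs : List (List (List Nat)) := [[sq0, sq1, sq2, sq3, sq4, sq5, sq6, sq7, sq8, sq9, sq10, sq11, sq12, sq13, sq14, sq15],
  [sq16, sq17, sq18, sq19, sq20, sq21, sq22, sq23, sq24, sq25, sq26, sq27, sq28, sq29, sq30, sq31],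
  [sq32, sq33, sq34, sq35, sq36, sq37, sq38, sq39, sq40, sq41, sq42, sq43, sq44, sq45, sq46, sq47],
  [sq48, sq49, sq50, sq51, sq52, sq53, sq54, sq55, sq56, sq57, sq58, sq59, sq60, sq61, sq62, sq63],
  [sq64, sq65, sq66, sq67, sq68, sq69, sq70, sq71, sq72, sq73, sq74, sq75, sq76, sq77, sq78, sq79],
  [sq80, sq81, sq82, sq83, sq84, sq85, sq86, sq87, sq88, sq89, sq90, sq91, sq92, sq93, sq94, sq95],
  [sq96, sq97, sq98, sq99, sq100, sq101, sq102, sq103, sq104, sq105, sq106, sq107, sq108, sq109, sq110, sq111],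
  [sq112, sq113, sq114, sq115, sq116, sq117, sq118, sq119, sq120, sq121, sq122, sq123, sq124, sq125, sq126, sq127]]
/-- tables -/
def ws : List (List (List Nat)) := [[w0, w1, w2, w3, w4, w5, w6, w7, w8, w9, w10, w11, w12, w13, w14, w15],
  [w16, w17, w18, w19, w20, w21, w22, w23, w24, w25, w26, w27, w28, w29, w30, w31],
  [w32, w33, w34, w35, w36, w37, w38, w39, w40, w41, w42, w43, w44, w45, w46, w47],
  [w48, w49, w50, w51, w52, w53, w54, w55, w56, w57, w58, w59, w60, w61, w62, w63],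
  [w64, w65, w66, w67, w68, w69, w70, w71, w72, w73, w74, w75, w76, w77, w78, w79],
  [w80, w81, w82, w83, w84, w85, w86, w87, w88, w89, w90, w91, w92, w93, w94, w95],
  [w96, w97, w98, w99, w100, w101, w102, w103, w104, w105, w106, w107, w108, w109, w110, w111],
  [w112, w113, w114, w115, w116, w117, w118, w119, w120, w121, w122, w123, w124, w125, w126, w127]]
/-- the data of the certificate -/
def dat : DatR := ⟨120, 9, [seg0, seg1, seg2, seg3, seg4, seg5, seg6, seg7], sqs, ws, [], [fn0],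
  nat_lit 0,
  nat_lit 0x5e1bc6c0005a0cc6e0004d5a4e800046ed51200040c9ead0004318ce50003e5334e0003c723620003b717ad0003a0ebc00003bda4ee00040e3bc30004d186940006d59f3700063fc4910005940475000314f48c000496aaff000502a10d0004a79d710003cd1561000324b35600027599a90006e1b94e00064f4bdb000733ca840007b25f970007d6d4170008e1f3960000fc62780000ec7e2e0000e195f40000d7a4230000ce4d400000ccd1900000c5bda40000c877a20000cf32220000dfeb360000f78112000118acf8000131b8e8000148303900015c4f9e0001738e370001838f9400018df4b3000185bbb300017ff17200016a65c7000158299600014c85f30001403f4e00013f5d5e00013c0256000131d71f00011f3bb80000fdfa4f0000f356a70000e487e100010077080001097afa00010c51880000fb18c600012d15ca000859ddbc0007e573140007ec0be8000825479200084e237600088c372c0008bf3be400092d618e000a03699e000aeb2645000c379d2e0006fd28240008c837e7000974669500092dd7d40009367e2f0009bf8fc3000ac1eb40000bbf8496000b5c2c95000b1eeaeb000a5eaac6000a559ffe000a4055cc000a4884d00009eed9e5000a41175a0001bb60200001ab8c350001c030020001db21060001f8ff560002470ba6000297620c0002c53cfd00027afbf200021721f50001ec6ff40001e7ab020001f08b370001fb9e000001fe4ad600021556ea00022612a30002320ad60002386e5a000233b68b0002107d080001f4b36d0001e484780001d9da510001b783260001985faf000167bf4500014967b70001250e39000117b8f8000108566b00010622460000fb7f4b0000f87a220001079b660001167fb6,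 0⟩
/-- prices, end data, cuts -/
def rcd : RCd := ⟨⟨360, 159, 201, 0, 0, 40⟩, [[pr0, pr1, pr2, pr3, pr4, pr5, pr6, pr7, pr8, pr9, pr10, pr11, pr12, pr13, pr14, pr15],
  [pr16, pr17, pr18, pr19, pr20, pr21, pr22, pr23, pr24, pr25, pr26, pr27, pr28, pr29, pr30, pr31],
  [pr32, pr33, pr34, pr35, pr36, pr37, pr38, pr39, pr40, pr41, pr42, pr43, pr44, pr45, pr46, pr47],
  [pr48, pr49, pr50, pr51, pr52, pr53, pr54, pr55, pr56, pr57, pr58, pr59, pr60, pr61, pr62, pr63],
  [pr64, pr65, pr66, pr67, pr68, pr69, pr70, pr71, pr72, pr73, pr74, pr75, pr76, pr77, pr78, pr79],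
  [pr80, pr81, pr82, pr83, pr84, pr85, pr86, pr87, pr88, pr89, pr90, pr91, pr92, pr93, pr94, pr95],
  [pr96, pr97, pr98, pr99, pr100, pr101, pr102, pr103, pr104, pr105, pr106, pr107, pr108, pr109, pr110, pr111],
  [pr112, pr113, pr114, pr115, pr116, pr117, pr118, pr119, pr120, pr121, pr122, pr123, pr124, pr125, pr126, pr127]], [[ec0, ec1, ec2, ec3, ec4, ec5, ec6, ec7, ec8, ec9, ec10, ec11, ec12, ec13, ec14, ec15],
  [ec16, ec17, ec18, ec19, ec20, ec21, ec22, ec23, ec24, ec25, ec26, ec27, ec28, ec29, ec30, ec31],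
  [ec32, ec33, ec34, ec35, ec36, ec37, ec38, ec39, ec40, ec41, ec42, ec43, ec44, ec45, ec46, ec47],
  [ec48, ec49, ec50, ec51, ec52, ec53, ec54, ec55, ec56, ec57, ec58, ec59, ec60, ec61, ec62, ec63],
  [ec64, ec65, ec66, ec67, ec68, ec69, ec70, ec71, ec72, ec73, ec74, ec75, ec76, ec77, ec78, ec79],
  [ec80, ec81, ec82, ec83, ec84, ec85, ec86, ec87, ec88, ec89, ec90, ec91, ec92, ec93, ec94, ec95],
  [ec96, ec97, ec98, ec99, ec100, ec101, ec102, ec103, ec104, ec105, ec106, ec107, ec108, ec109, ec110, ec111],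
  [ec112, ec113, ec114, ec115, ec116, ec117, ec118, ec119, ec120, ec121, ec122, ec123, ec124, ec125, ec126, ec127]],
  40, 80, 160, 180, 200, 5, 5⟩
/-- class descriptors -/
def cls : List Cl := [⟨false, -3200, -400, false, true, true, -40, -5⟩,
  ⟨false, -400, 800, false, false, false, -5, 10⟩,
  ⟨false, 800, 1600, true, false, false, 10, 20⟩,
  ⟨true, -3200, -400, false, true, true, 45, 80⟩,
  ⟨true, -400, 0, false, true, false, 40, 45⟩,
  ⟨true, 0, 480, false, true, false, 34, 40⟩,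
  ⟨true, 480, 640, false, true, false, 32, 34⟩,
  ⟨true, 640, 1600, false, false, false, 20, 32⟩]
/-- window copies -/
def iw : List Nat := [0, 0, 0, 0, 0, 0, 0, 0]
/-- parameters of the cell -/
def par : CellPar := ⟨40, 0, 3200, 40, 20, 28, 1, 250, true⟩
/-- families -/
def fam : List Gf := [⟨stp0, 24, 0, 1, 1, 662400, 3200, 8388608, 0, 0, [0, 0, 2, 0, 0, 0, 0, 2], [0, 1, 0, 0, 0]⟩,
  ⟨stp1, 24, 0, 1, 1, 665600, 3200, 8388608, 0, 0, [0, 0, 2, 0, 0, 0, 0, 2], [0, 1, 0, 0, 0]⟩]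
/-- kinds of the families -/
def ks : List Nat := [2, 3]
/-- weights of the price sums -/
def wp : List Nat := [nat_lit 0x190000000032000000003200000000320000000032000000003200000000320000000032000000003200000000320000000032000000003200000000320000000032000000003200000000320000000032000000003200000000320000000032000000003200000000320000000032000000003200000000320000000032000000003200000000320000000032000000003200000000320000000032000000003200000000320000000032000000003200000000320000000032000000003200000000190000000000000000000000, nat_lit 0x190000000019000000000000000000000000000000000000000000000000000000000000000000000000000000000000000000000000000000000000000000000000000000000000000000000000000000000000000000000000000000000000000000000000000000000000000000000000000000000000000000000000000000000000000000000000000000000000000000000000000000000000000000000000000000000000000000000000000000000000000000000000000000000000000000000000000000000000001900000000190000000000000000000000000000000000000000000000000000000000000000000000000000000000000000000000000000000000000000000000000000000000000000000000000000000000000000000000000000000000000000000000000000000000000000000000000000000000000000000000000000000000000000000000000000000000000000000000000000000000000000000000000000000000000000000000000000000000000000000000000000000000000000000000000000000000000000000000000000,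 nat_lit 0x190000000032000000003200000000320000000032000000003200000000320000000032000000003200000000320000000032000000003200000000320000000032000000003200000000320000000032000000003200000000320000000032000000003200000000320000000032000000003200000000320000000032000000003200000000320000000032000000003200000000320000000032000000003200000000320000000032000000003200000000320000000032000000003200000000190000000000000000000000000000000000000000000000000000000000000000000000000000000000000000000000000000000000000000000000000000000000000000000000000000000000000000000000000000000000000000000000000000000000000000000000000000000000000000000000000000000000000000000000000000000000000000000000000000000000000000000000000000000000000000000000000000000000000000000000000000000000000000000000000000000000000000000000000000000000000000000000000000000000000000000000000000000000000000000000000000000000000000000000000000000000000000000000000000000000000000000000000000000000000000000000000000000000000000000000000000000000000000000000000000000000000000000000000000000000000000000000000000000000000000000000000000000000000000000000000000000000000000000000000000000000000000000000000000000000000000000000000000000000000000000000000000000000000000]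
/-- the certificate -/
def A : RD := ⟨dat, rcd, cls, iw, par, fam, 33554432, 40, wp, [0, 1, 2, 3, 4],
  [0, -2, -2, 4, 4, 2, 2, 0], [0, -2, 0, 0, 0, 0, 2, 2], [0, 0, 2, 4, 4, 2, 2, 2], [0, 0, 0, 0, 0, 0, 2, 2]⟩

end

end MP61673a.KC.RowO2028
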