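import Pool.Agent.Mu673.MainS

set_option autoImplicit false

/-!
The main theorem from the rows beyond `D/40`.
-/

namespace MP61673a.Fin

open Finset MP61673a.W MP61673a.LiftW MP61673a.Mids
open MP61673a.Lift hiding PP QQ

/-- THE THEOREM from the rows beyond `D/40` -/
theorem main_rows (hrow : ∀ N : ℤ, 122 ≤ N → TailEx N 40 1)
    (n : ℕ) (A : Finset ℕ) (h : IsMaximalThreeFree n A) : n ≤ A.card ^ 2 :=
  main_allS (fun N hN => (hrow N hN).scale (by norm_num) (by norm_num) (by norm_num)) n A h

end MP61673a.Fin
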