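import Pool.Agent.Mu673.KCseg
import Pool.Agent.Mu673.FarData
import Pool.Agent.Mu673.BridgeG

/-!
FROM THE INTEGER CERTIFICATE WITH SEGMENTS (`KCseg`) TO `CertifiedC` (arbitrary classes, linear facts,
pair facts). Class = index of a segment, label data `X v = [X0, X1, XH, W0, W1]` of the node `v`: prices, majorant,
node values of the end point labels (exact rule `Fre`).
-/

set_option autoImplicit false

namespace MP61673a.KC

open Finset MP61673a.Kink MP61673a.Sos MP61673a.Bridge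
open MP61673a.TP (CertifiedC)

noncomputable section

/-! ### Kernel functions -/

/-- normalisation of a sampler with the extra term `ext` (pair facts) and the constant fact with
multiplier `cc / 2` and `|A|^2 ≤ (E1 / E) n`; factor `E` -/
def chkS2 (N n0 Bd E E1 cc ext x0 x1 o : ℕ) : Bool :=
  Nat.ble
    (Nat.add (Nat.mul (Nat.mul 24 (Nat.mul N (Nat.mul n0 n0))) (Nat.mul E1 cc))
    (Nat.mul E (Nat.add (Nat.add (Nat.mul (Nat.mul 8 (Nat.mul N (Nat.mul n0 n0))) Bd)
      (Nat.mul (Nat.mul 3 (Nat.mul N N)) (sumN (Nat.sub N 1) (fun j' =>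
        Nat.add
          (Nat.sub (Nat.add (sx x0 x1 (Nat.add o j')) (sx x0 x1 (Nat.add o (Nat.add j' 2))))
            (Nat.mul 2 (sx x0 x1 (Nat.add o (Nat.succ j')))))
          (Nat.mul 2 (ab
            (Nat.add (Nat.add (dg x0 (Nat.add o j')) (dg x0 (Nat.add o (Nat.add j' 2))))
              (Nat.mul 2 (dg x1 (Nat.add o (Nat.succ j')))))
            (Nat.add (Nat.add (dg x1 (Nat.add o j')) (dg x1 (Nat.add o (Nat.add j' 2))))
              (Nat.mul 2 (dg x0 (Nat.add o (Nat.succ j')))))))))))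
      (Nat.mul (Nat.mul 12 (Nat.mul N n0))
        (Nat.add (ab (dg x0 o) (dg x1 o)) (ab (dg x0 (Nat.add o N)) (dg x1 (Nat.add o N))))))))
    (Nat.add (Nat.mul E (Nat.mul (Nat.mul 12 (Nat.mul n0 n0))
      (Nat.add (Nat.add (sx x0 x1 o) (sx x0 x1 (Nat.add o N)))
        (Nat.mul 2 (sumN (Nat.sub N 1) (fun j' => sx x0 x1 (Nat.add o (Nat.succ j'))))))))
      (Nat.mul (Nat.mul 48 (Nat.mul N (Nat.mul n0 n0))) ext))

/-- the exact rule (`Fre`) for packed prices `x` and node values `w`, labels `2, .., Mx + 1` -/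
def chkFre (Mx x w : ℕ) : Bool :=
  allN Mx (fun m' =>
    Nat.ble (dg x (Nat.add m' 2)) (dg w (Nat.add m' 2))
    && Nat.ble (Nat.mul 2 (dg x (Nat.add m' 2))) (Nat.add (dg w (Nat.add m' 1)) (dg w (Nat.add m' 3)))
    && Nat.ble (Nat.pow (Nat.sub (Nat.mul 4 (dg x (Nat.add m' 2)))
          (Nat.add (Nat.add (dg w (Nat.add m' 2)) (Nat.mul 2 (dg w (Nat.add m' 1))))
            (dg w (Nat.add m' 4)))) 2)
        (Nat.mul (Nat.mul 8 (Nat.sub (dg w (Nat.add m' 2)) (dg x (Nat.add m' 2))))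
          (Nat.sub (Nat.add (dg w (Nat.add m' 1)) (dg w (Nat.add m' 3)))
            (Nat.mul 2 (dg x (Nat.add m' 2)))))
    && Nat.ble (Nat.pow (Nat.sub (Nat.mul 4 (dg x (Nat.add m' 2)))
          (Nat.add (Nat.add (dg w (Nat.add m' 2)) (Nat.mul 2 (dg w (Nat.add m' 3))))
            (dg w m'))) 2)
        (Nat.mul (Nat.mul 8 (Nat.sub (dg w (Nat.add m' 2)) (dg x (Nat.add m' 2))))
          (Nat.sub (Nat.add (dg w (Nat.add m' 1)) (dg w (Nat.add m' 3)))
            (Nat.mul 2 (dg x (Nat.add m' 2))))))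

/-- rows of the end point labels against the node values `w`, digits below `Mw` -/
def chkE2 (N o2 Mw w : ℕ) (ke : List ℕ) (e : ℕ) : Bool :=
  Nat.ble (Nat.succ w) (bp Mw) && allN Mw (fun m =>
    Nat.ble (dg w m) (dg (nth 0 ke (Nat.add e (Nat.mod m 2)))
        (Nat.add (Nat.div m 2) (Nat.sub (Nat.div (Nat.succ N) 2) o2)))
    && Nat.ble (dg w m)
      (dg (nth 0 ke (Nat.add e 2)) (Nat.sub (Nat.add (Nat.mul 2 N) (Nat.mul 2 o2)) m)))

/-- midpoint rows: exact rule `FreM` for the labels `0, .., N` (packed majorant `x`, row `M`) -/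
def chkM2 (N o2 x M : ℕ) : Bool :=
  allN (Nat.succ N) (fun j =>
    Nat.ble (dg x (Nat.add j (Nat.mul 2 o2))) (dg M (Nat.mul 2 j)))
  && allN N (fun j =>
    Nat.ble (Nat.add (dg x (Nat.add j (Nat.mul 2 o2))) (dg x (Nat.succ (Nat.add j (Nat.mul 2 o2)))))
      (Nat.mul 2 (dg M (Nat.succ (Nat.mul 2 j))))
    && Nat.ble (Nat.mul (Nat.mul 4 (dg x (Nat.add j (Nat.mul 2 o2)))) j)
        (Nat.mul (Nat.add (Nat.add (dg M (Nat.sub (Nat.mul 2 j) 1)) (dg M (Nat.succ (Nat.mul 2 j))))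
          (Nat.mul 2 (dg M (Nat.mul 2 j)))) j))

/-- a pair fact: `tau` of the nodes, positive and negative part of the matrix, size, constant -/
structure Prf where
  /-- multipliers of the nodes -/
  tau : List ℕ
  /-- positive part -/
  mp : List ℕ
  /-- negative part -/
  mn : List ℕ
  /-- size parameter -/
  k : ℕ
  /-- constant of the fact -/
  cn : ℕ

/-- list of zeros -/
def zeros (V : ℕ) : List ℕ := Nat.rec (motive := fun _ => List ℕ) [] (fun _ ih => List.cons 0 ih) V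

/-- the two terms of a pair fact -/
def prF (f : Prf) : List FnS := [⟨f.tau, [], f.mp, f.k⟩, ⟨[], f.tau, f.mn, f.k⟩]

/-- all terms -/
def allF (J : List FnS) (I : List Prf) : List FnS :=
  List.rec (motive := fun _ => List FnS) J (fun f _ ih => List.append (prF f) ih) I

/-- all checks of the label data of the nodes -/
def chkY (d : DatS) (X : List (List ℕ)) (I : List Prf) (o2 Mx Mw n0 E E1 : ℕ) : Bool :=
  allN (vN d.segs) (fun z =>
    shp Mx (nth 0 (nth [] X z) 0) && shp Mx (nth 0 (nth [] X z) 1)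
    && shp Mx (nth 0 (nth [] X z) 2)
    && dle Mx (nth 0 (nth [] X z) 0) (nth 0 (nth [] X z) 2)
    && dle Mx (nth 0 (nth [] X z) 1) (nth 0 (nth [] X z) 2)
    && chkFre Mx (nth 0 (nth [] X z) 0) (nth 0 (nth [] X z) 3)
    && chkFre Mx (nth 0 (nth [] X z) 1) (nth 0 (nth [] X z) 4)
    && chkE2 d.N o2 Mw (nth 0 (nth [] X z) 3) (nth [] d.ke z) 0
    && chkE2 d.N o2 Mw (nth 0 (nth [] X z) 4) (nth [] d.ke z) 3
    && chkM2 d.N o2 (nth 0 (nth [] X z) 2) (nth 0 (nth [] d.ke z) 6)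
    && chkS2 d.N n0 d.Bd E E1 (nth 0 (nth [] d.ke z) 7)
        (sumL (fun f : Prf => Nat.mul (nth 0 f.tau z) f.cn) I)
        (nth 0 (nth [] X z) 0) (nth 0 (nth [] X z) 1) (Nat.mul 2 o2))

/-- segments inside `[0, N]`, parities 0 or 1 -/
def chkG (d : DatS) : Bool :=
  allL d.segs (fun s => Nat.ble (Nat.add s.lo s.len) (Nat.succ d.N))

/-! ### Classes and nodes -/

/-- class `c` -/
def sgA (l : List Seg) (c : ℕ) : Seg := nth ⟨1, 0, 0⟩ l c

/-- first node position of the class -/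
def loC (l : List Seg) (c : ℕ) : ℤ := ((sgA l c).lo : ℤ)

/-- last node position of the class -/
def hiC (l : List Seg) (c : ℕ) : ℤ := ((sgA l c).lo : ℤ) + ((sgA l c).len : ℤ) - 1

/-- parity of the class -/
def parC (l : List Seg) (c : ℕ) : Bool := decide ((sgA l c).par = 1)

/-- number of nodes before the class -/
def offC : List Seg → ℕ → ℕ
  | [], _ => 0
  | _ :: _, 0 => 0
  | s :: l, c + 1 => s.len + offC l c

/-- node number -/
def vO (l : List Seg) (s : ℕ × ℤ) : ℕ := offC l s.1 + (s.2 - loC l s.1).toNat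

/-- node of the class -/
def okS (l : List Seg) (s : ℕ × ℤ) : Prop := loC l s.1 ≤ s.2 ∧ s.2 ≤ hiC l s.1

lemma vO_spec (l : List Seg) (c : ℕ) (i : ℤ) (h : okS l (c, i)) :
    vO l (c, i) < vN l ∧ (locP l (vO l (c, i)) : ℤ) = i ∧
      locE l (vO l (c, i)) = (sgA l c).par := by
  induction l generalizing c with
  | nil =>
    exfalso
    obtain ⟨h1, h2⟩ := h
    have e1 : loC [] c = 1 := rfl
    have e2 : hiC [] c = 0 := rfl
    dsimp only at h1 h2
    omega
  | cons s l ih =>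
    cases c with
    | zero =>
      obtain ⟨h1, h2⟩ := h
      have e1 : loC (s :: l) 0 = s.lo := rfl
      have e2 : hiC (s :: l) 0 = (s.lo : ℤ) + s.len - 1 := rfl
      have e3 : vO (s :: l) (0, i) = 0 + (i - (s.lo : ℤ)).toNat := rfl
      have e4 : sgA (s :: l) 0 = s := rfl
      dsimp only at h1 h2
      rw [e1] at h1
      rw [e2] at h2
      have hlt : vO (s :: l) (0, i) < s.len := by omega
      rw [locP_cons, locE_cons, if_pos hlt, if_pos hlt, vN_cons, e4]
      refine ⟨by omega, ?_, rfl⟩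
      omega
    | succ c =>
      have h' : okS l (c, i) := h
      obtain ⟨k1, k2, k3⟩ := ih c h'
      have e3 : vO (s :: l) (c + 1, i) = s.len + vO l (c, i) := by
        change s.len + offC l c + (i - loC l c).toNat = s.len + (offC l c + (i - loC l c).toNat)
        ring
      have e4 : sgA (s :: l) (c + 1) = sgA l c := rfl
      rw [e3, locP_cons, locE_cons, if_neg (by omega), if_neg (by omega), vN_cons, e4,
        Nat.add_sub_cancel_left]
      exact ⟨by omega, k2, k3⟩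

/-! ### Sums of the facts -/

lemma allF_sum (J : List FnS) (I : List Prf) (F : FnS → ℤ) :
    ((allF J I).map F).sum = (J.map F).sum
      + (I.map fun f => F ⟨f.tau, [], f.mp, f.k⟩ + F ⟨[], f.tau, f.mn, f.k⟩).sum := by
  induction I with
  | nil =>
    change (J.map F).sum = _
    simp
  | cons f I ih =>
    have e : allF J (f :: I)
        = ⟨f.tau, [], f.mp, f.k⟩ :: ⟨[], f.tau, f.mn, f.k⟩ :: allF J I := rfl
    rw [e]
    simp only [List.map_cons, List.sum_cons]
    rw [ih]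
    ring

lemma sum_fin_list {α : Type} (l : List α) (F : α → ℝ) :
    ∑ i : Fin l.length, F (l.get i) = (l.map F).sum := by
  induction l with
  | nil => simp
  | cons a l ih =>
    rw [List.map_cons, List.sum_cons, ← ih]
    exact Fin.sum_univ_succ _

/-! ### The exact rule -/

lemma lR_of_neg {o x : ℕ} {y : ℤ} (h : y + o < 0) : lR o x y = 0 := by
  unfold lR
  rw [if_neg (by omega)]

lemma fre_of_chk {Mx x w : ℕ} (hx : Shp Mx x) (h : chkFre Mx x w = true) (o : ℕ) :
    Fre (lR o x) (lR o w) := by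
  -- the nontrivial labels
  have key : ∀ m : ℤ, lR o x m = 0 ∨ ∃ k : ℕ, m = ((k + 2 : ℕ) : ℤ) - o ∧ k < Mx := by
    intro m
    by_cases c : m + o < 0
    · exact Or.inl (lR_of_neg c)
    · obtain ⟨j, hj⟩ : ∃ j : ℕ, m = (j : ℤ) - o := ⟨(m + o).toNat, by omega⟩
      by_cases c1 : j ≤ 1 ∨ Mx ≤ j
      · left
        rw [hj, lR_nat, hx.zero c1]
        simp
      · right
        exact ⟨j - 2, by rw [hj]; congr 2; omega, by omega⟩
  have hpos := fun y => lR_nonneg o w y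
  have hchk : ∀ k : ℕ, k < Mx → ∀ m : ℤ, m = ((k + 2 : ℕ) : ℤ) - o →
      lR o x m ≤ lR o w m ∧ 2 * lR o x m ≤ lR o w (m - 1) + lR o w (m + 1)
      ∧ (4 * lR o x m ≤ lR o w m + 2 * lR o w (m - 1) + lR o w (m + 2) ∨
        (4 * lR o x m - (lR o w m + 2 * lR o w (m - 1) + lR o w (m + 2))) ^ 2
          ≤ 8 * (lR o w m - lR o x m) * (lR o w (m - 1) + lR o w (m + 1) - 2 * lR o x m))
      ∧ (4 * lR o x m ≤ lR o w m + 2 * lR o w (m + 1) + lR o w (m - 2) ∨
        (4 * lR o x m - (lR o w m + 2 * lR o w (m + 1) + lR o w (m - 2))) ^ 2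
          ≤ 8 * (lR o w m - lR o x m) * (lR o w (m - 1) + lR o w (m + 1) - 2 * lR o x m)) := by
    intro k hk m hm
    have h1 := allN_imp h k hk
    simp only [Bool.and_eq_true] at h1
    obtain ⟨⟨⟨a1, a2⟩, a3⟩, a4⟩ := h1
    have b1 : dg x (k + 2) ≤ dg w (k + 2) := Nat.le_of_ble_eq_true a1
    have b2 : 2 * dg x (k + 2) ≤ dg w (k + 1) + dg w (k + 3) := Nat.le_of_ble_eq_true a2
    have b3 : (4 * dg x (k + 2) - (dg w (k + 2) + 2 * dg w (k + 1) + dg w (k + 4))) ^ 2
        ≤ 8 * (dg w (k + 2) - dg x (k + 2))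
          * (dg w (k + 1) + dg w (k + 3) - 2 * dg x (k + 2)) := Nat.le_of_ble_eq_true a3
    have b4 : (4 * dg x (k + 2) - (dg w (k + 2) + 2 * dg w (k + 3) + dg w k)) ^ 2
        ≤ 8 * (dg w (k + 2) - dg x (k + 2))
          * (dg w (k + 1) + dg w (k + 3) - 2 * dg x (k + 2)) := Nat.le_of_ble_eq_true a4
    have e0 : m - 1 = ((k + 1 : ℕ) : ℤ) - o := by rw [hm]; push_cast; ring
    have e1 : m + 1 = ((k + 3 : ℕ) : ℤ) - o := by rw [hm]; push_cast; ring
    have e2 : m + 2 = ((k + 4 : ℕ) : ℤ) - o := by rw [hm]; push_cast; ring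
    have e3 : m - 2 = ((k : ℕ) : ℤ) - o := by rw [hm]; push_cast; ring
    rw [e0, e1, e2, e3, hm, lR_nat, lR_nat, lR_nat, lR_nat, lR_nat, lR_nat]
    have c1 : (dg x (k + 2) : ℝ) ≤ dg w (k + 2) := by exact_mod_cast b1
    have c2 : 2 * (dg x (k + 2) : ℝ) ≤ dg w (k + 1) + dg w (k + 3) := by exact_mod_cast b2
    refine ⟨c1, c2, ?_, ?_⟩
    · rcases le_total (4 * dg x (k + 2)) (dg w (k + 2) + 2 * dg w (k + 1) + dg w (k + 4)) with c | c
      · left
        exact_mod_cast c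
      · right
        have b5 : (((4 * dg x (k + 2) - (dg w (k + 2) + 2 * dg w (k + 1) + dg w (k + 4))) ^ 2 : ℕ)
            : ℝ) ≤ ((8 * (dg w (k + 2) - dg x (k + 2))
          * (dg w (k + 1) + dg w (k + 3) - 2 * dg x (k + 2)) : ℕ) : ℝ) := by exact_mod_cast b3
        push_cast [Nat.cast_sub c, Nat.cast_sub b1, Nat.cast_sub b2] at b5
        exact b5
    · rcases le_total (4 * dg x (k + 2)) (dg w (k + 2) + 2 * dg w (k + 3) + dg w k) with c | c
      · left
        exact_mod_cast c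
      · right
        have b5 : (((4 * dg x (k + 2) - (dg w (k + 2) + 2 * dg w (k + 3) + dg w k)) ^ 2 : ℕ)
            : ℝ) ≤ ((8 * (dg w (k + 2) - dg x (k + 2))
          * (dg w (k + 1) + dg w (k + 3) - 2 * dg x (k + 2)) : ℕ) : ℝ) := by exact_mod_cast b4
        push_cast [Nat.cast_sub c, Nat.cast_sub b1, Nat.cast_sub b2] at b5
        exact b5
  constructor
  · intro m
    rcases key m with h0 | ⟨k, hm, hk⟩
    · rw [h0]
      exact hpos _
    · exact (hchk k hk m hm).1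
  · intro m
    rcases key m with h0 | ⟨k, hm, hk⟩
    · rw [h0]
      have := hpos (m - 1)
      have := hpos (m + 1)
      linarith
    · exact (hchk k hk m hm).2.1
  · intro m
    rcases key m with h0 | ⟨k, hm, hk⟩
    · left
      rw [h0]
      have := hpos m
      have := hpos (m - 1)
      have := hpos (m + 2)
      linarith
    · exact (hchk k hk m hm).2.2.1
  · intro m
    rcases key m with h0 | ⟨k, hm, hk⟩
    · left
      rw [h0]
      have := hpos m
      have := hpos (m + 1)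
      have := hpos (m - 2)
      linarith
    · exact (hchk k hk m hm).2.2.2

/-- rows of the end point labels -/
lemma wK_bound {N o2 Mw w : ℕ} {ke : List ℕ} {e : ℕ}
    (hc : chkE2 N o2 Mw w ke e = true) (ho : o2 ≤ (N + 1) / 2)
    (b c : ℕ) (hb : b ≤ N) :
    lR (2 * o2) w (2 * (c : ℤ) - b) ≤ dg (nth 0 ke (e + b % 2)) (c + s1 N b)
      ∧ lR (2 * o2) w (2 * (b : ℤ) - c) ≤ dg (nth 0 ke (e + 2)) (c + s2 N b) := by
  have s1e : s1 N b = (N + 1) / 2 - (b + 1) / 2 := rfl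
  have s2e : s2 N b = 2 * N - 2 * b := rfl
  unfold chkE2 at hc
  rw [Bool.and_eq_true] at hc
  have hw : w < bp Mw := Nat.le_of_ble_eq_true hc.1
  have key : ∀ y : ℤ, ∀ v : ℕ, (∀ m : ℕ, m < Mw → y = (m : ℤ) - ((2 * o2 : ℕ) : ℤ) →
      dg w m ≤ v) → lR (2 * o2) w y ≤ v := by
    intro y v hv
    by_cases c : y + ((2 * o2 : ℕ) : ℤ) < 0
    · rw [lR_of_neg c]
      positivity
    · obtain ⟨m, hm⟩ : ∃ m : ℕ, y = (m : ℤ) - ((2 * o2 : ℕ) : ℤ) :=
        ⟨(y + ((2 * o2 : ℕ) : ℤ)).toNat, by omega⟩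
      rw [hm, lR_nat]
      by_cases c1 : m < Mw
      · exact_mod_cast hv m c1 hm
      · rw [dg_big hw (by omega)]
        simp
  constructor
  · refine key _ _ fun m m1 hy => ?_
    have h1 := allN_imp hc.2 m m1
    simp only [Bool.and_eq_true] at h1
    have h2 := Nat.le_of_ble_eq_true h1.1
    have e2 : Nat.mod m 2 = b % 2 := by
      change m % 2 = b % 2
      omega
    have e3 : Nat.add (Nat.div m 2) (Nat.sub (Nat.div (Nat.succ N) 2) o2) = c + s1 N b := by
      change m / 2 + ((N + 1) / 2 - o2) = c + s1 N b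
      rw [s1e]
      omega
    rw [e2, e3] at h2
    exact h2
  · refine key _ _ fun m m1 hy => ?_
    have h1 := allN_imp hc.2 m m1
    simp only [Bool.and_eq_true] at h1
    have h2 := Nat.le_of_ble_eq_true h1.2
    have e3 : Nat.sub (Nat.add (Nat.mul 2 N) (Nat.mul 2 o2)) m = c + s2 N b := by
      change 2 * N + 2 * o2 - m = c + s2 N b
      rw [s2e]
      omega
    rw [e3] at h2
    exact h2

/-- the midpoint row as a function on the integers -/
def mM (N o x M : ℕ) (y : ℤ) : ℝ :=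
  if 0 ≤ y ∧ y ≤ 2 * (N : ℤ) then (dg M y.toNat : ℝ)
  else 4 * (lR o x (y / 2) + lR o x (y / 2 + 1))

lemma mM_nat {N o x M k : ℕ} (hk : k ≤ 2 * N) : mM N o x M (k : ℤ) = dg M k := by
  unfold mM
  rw [if_pos ⟨by omega, by omega⟩, Int.toNat_natCast]

lemma freM_of_chk {N o2 x M : ℕ} (h : chkM2 N o2 x M = true) :
    FreM (lR (2 * o2) x) (mM N (2 * o2) x M) := by
  unfold chkM2 at h
  rw [Bool.and_eq_true] at h
  have hp := fun y => lR_nonneg (2 * o2) x y
  have eL : ∀ j : ℕ, lR (2 * o2) x ((j : ℕ) : ℤ) = dg x (j + 2 * o2) := by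
    intro j
    have := lR_nat (2 * o2) x (j + 2 * o2)
    push_cast at this
    rw [← this]
    congr 1
    ring
  have hev : ∀ j : ℕ, j ≤ N → dg x (j + 2 * o2) ≤ dg M (2 * j) := fun j hj =>
    Nat.le_of_ble_eq_true (allN_imp h.1 j (by omega))
  have hod : ∀ j : ℕ, j < N → dg x (j + 2 * o2) + dg x (j + 2 * o2 + 1) ≤ 2 * dg M (2 * j + 1) := by
    intro j hj
    have h1 := allN_imp h.2 j hj
    rw [Bool.and_eq_true] at h1
    exact Nat.le_of_ble_eq_true h1.1
  have hkn : ∀ j : ℕ, 0 < j → j < N → 4 * dg x (j + 2 * o2)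
      ≤ dg M (2 * j - 1) + dg M (2 * j + 1) + 2 * dg M (2 * j) := by
    intro j h0 hj
    have h1 := allN_imp h.2 j hj
    rw [Bool.and_eq_true] at h1
    have h2 : 4 * dg x (j + 2 * o2) * j
        ≤ (dg M (2 * j - 1) + dg M (2 * j + 1) + 2 * dg M (2 * j)) * j :=
      Nat.le_of_ble_eq_true h1.2
    exact Nat.le_of_mul_le_mul_right h2 h0
  have hm0 : ∀ y, 0 ≤ mM N (2 * o2) x M y := by
    intro y
    unfold mM
    split_ifs
    · positivity
    · have := hp (y / 2)
      have := hp (y / 2 + 1)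
      linarith
  constructor
  · intro k
    by_cases c : 0 ≤ k ∧ k ≤ (N : ℤ)
    · obtain ⟨j, rfl⟩ : ∃ j : ℕ, k = j := ⟨k.toNat, by omega⟩
      have e : (2 * (j : ℤ)) = ((2 * j : ℕ) : ℤ) := by push_cast; ring
      rw [e, mM_nat (by omega), eL]
      exact_mod_cast hev j (by omega)
    · unfold mM
      rw [if_neg (by omega), show 2 * k / 2 = k by omega]
      have := hp k
      have := hp (k + 1)
      linarith
  · intro k
    by_cases c : 0 ≤ k ∧ k < (N : ℤ)
    · obtain ⟨j, rfl⟩ : ∃ j : ℕ, k = j := ⟨k.toNat, by omega⟩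
      have e : (2 * (j : ℤ) + 1) = ((2 * j + 1 : ℕ) : ℤ) := by push_cast; ring
      have e2 : (j : ℤ) + 1 = ((j + 1 : ℕ) : ℤ) := by push_cast; ring
      rw [e, mM_nat (by omega), e2, eL, eL, show j + 1 + 2 * o2 = j + 2 * o2 + 1 by ring]
      exact_mod_cast hod j (by omega)
    · unfold mM
      rw [if_neg (by omega), show (2 * k + 1) / 2 = k by omega]
      have := hp k
      have := hp (k + 1)
      linarith
  · intro k
    by_cases c : 0 < k ∧ k < (N : ℤ)
    · obtain ⟨j, rfl⟩ : ∃ j : ℕ, k = j := ⟨k.toNat, by omega⟩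
      have e : (2 * (j : ℤ) + 1) = ((2 * j + 1 : ℕ) : ℤ) := by push_cast; ring
      have e1 : (2 * (j : ℤ) - 1) = ((2 * j - 1 : ℕ) : ℤ) := by omega
      have e2 : (2 * (j : ℤ)) = ((2 * j : ℕ) : ℤ) := by push_cast; ring
      rw [e, e1, e2, mM_nat (by omega), mM_nat (by omega), mM_nat (by omega), eL]
      exact_mod_cast hkn j (by omega) (by omega)
    · -- one of the neighbours is outside
      have h1 := hm0 (2 * k - 1)
      have h2 := hm0 (2 * k + 1)
      have h3 := hm0 (2 * k)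
      by_cases c1 : k ≤ 0
      · have e : mM N (2 * o2) x M (2 * k - 1) = 4 * (lR (2 * o2) x (k - 1) + lR (2 * o2) x k) := by
          unfold mM
          rw [if_neg (by omega), show (2 * k - 1) / 2 = k - 1 by omega,
            show k - 1 + 1 = k by ring]
        have := hp (k - 1)
        linarith
      · have e : mM N (2 * o2) x M (2 * k + 1) = 4 * (lR (2 * o2) x k + lR (2 * o2) x (k + 1)) := by
          unfold mM
          rw [if_neg (by omega), show (2 * k + 1) / 2 = k by omega]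
        have := hp (k + 1)
        linarith

/-! ### Normalisation -/

lemma chkS2_imp {M n0 Bd E E1 cc ext x0 x1 o : ℕ} (hn0 : 0 < n0) (hE : 0 < E)
    (h : chkS2 (M + 1) n0 Bd E E1 cc ext x0 x1 o = true) :
    (Bd : ℝ) / 6 ≤ 1 / ((M : ℝ) + 1)
        * ((lR o x0 0 + lR o x1 0) / 4
          + ∑ j ∈ range M, (lR o x0 ((j + 1 : ℕ) : ℤ) + lR o x1 ((j + 1 : ℕ) : ℤ)) / 2
          + (lR o x0 ((M + 1 : ℕ) : ℤ) + lR o x1 ((M + 1 : ℕ) : ℤ)) / 4)
      - ((M : ℝ) + 1) / (8 * (n0 : ℝ) ^ 2)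
        * (∑ j ∈ range M, Ds (lR o x0) (lR o x1) ((j + 1 : ℕ) : ℤ)
          + ∑ j ∈ range M, As (lR o x0) (lR o x1) ((j + 1 : ℕ) : ℤ))
      - (|lR o x0 0 - lR o x1 0|
        + |lR o x0 ((M + 1 : ℕ) : ℤ) - lR o x1 ((M + 1 : ℕ) : ℤ)|) / (4 * n0)
      + (ext : ℝ) / E - (cc : ℝ) / 2 * ((E1 : ℝ) / E) := by
  have h1 := Nat.le_of_ble_eq_true h
  set f : ℕ → ℕ := fun j' =>
    (sx x0 x1 (o + j') + sx x0 x1 (o + (j' + 2)) - 2 * sx x0 x1 (o + (j' + 1)))
      + 2 * ab (dg x0 (o + j') + dg x0 (o + (j' + 2)) + 2 * dg x1 (o + (j' + 1)))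
        (dg x1 (o + j') + dg x1 (o + (j' + 2)) + 2 * dg x0 (o + (j' + 1))) with hf
  have h2 : 24 * ((M + 1) * (n0 * n0)) * (E1 * cc)
      + E * (8 * ((M + 1) * (n0 * n0)) * Bd + 3 * ((M + 1) * (M + 1)) * sumN M f
      + 12 * ((M + 1) * n0) * (ab (dg x0 o) (dg x1 o) + ab (dg x0 (o + (M + 1))) (dg x1 (o + (M + 1)))))
      ≤ E * (12 * (n0 * n0) * (sx x0 x1 o + sx x0 x1 (o + (M + 1))
        + 2 * sumN M (fun j' => sx x0 x1 (o + (j' + 1))))) + 48 * ((M + 1) * (n0 * n0)) * ext := h1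
  rw [sumN_eq, sumN_eq] at h2
  have eL : ∀ (x j : ℕ), lR o x ((j : ℕ) : ℤ) = dg x (o + j) := by
    intro x j
    have := lR_nat o x (o + j)
    push_cast at this
    rw [← this]
    congr 1
    ring
  have eL0 : ∀ (x : ℕ), lR o x 0 = dg x o := by
    intro x
    have := eL x 0
    simpa using this
  have s1 : ∀ m, ((sx x0 x1 m : ℕ) : ℝ) = dg x0 m + dg x1 m := by
    intro m
    change ((dg x0 m + dg x1 m : ℕ) : ℝ) = _
    push_cast
    ring
  -- the kinks
  have eD : ∀ j ∈ range M, Ds (lR o x0) (lR o x1) ((j + 1 : ℕ) : ℤ)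
      + As (lR o x0) (lR o x1) ((j + 1 : ℕ) : ℤ) = (f j : ℝ) / 2 := by
    intro j _
    have e1 : ((j + 1 : ℕ) : ℤ) - 1 = ((j : ℕ) : ℤ) := by push_cast; ring
    have e2 : ((j + 1 : ℕ) : ℤ) + 1 = ((j + 2 : ℕ) : ℤ) := by push_cast; ring
    have ef : (f j : ℝ) = max (0 : ℝ) ((dg x0 (o + j) : ℝ) + (dg x1 (o + j) : ℝ)
          + ((dg x0 (o + (j + 2)) : ℝ) + (dg x1 (o + (j + 2)) : ℝ))
          - 2 * ((dg x0 (o + (j + 1)) : ℝ) + (dg x1 (o + (j + 1)) : ℝ)))
        + 2 * |(dg x0 (o + j) + dg x0 (o + (j + 2)) + 2 * dg x1 (o + (j + 1)) : ℝ)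
          - (dg x1 (o + j) + dg x1 (o + (j + 2)) + 2 * dg x0 (o + (j + 1)))| := by
      rw [hf]
      simp only
      rw [Nat.cast_add, sub_cast, Nat.cast_mul 2 (ab _ _), ab_cast]
      push_cast [s1]
      ring
    unfold Ds As
    rw [e1, e2, eL, eL, eL, eL, eL, eL, ef]
    have g1 : (dg x0 (o + j) : ℝ) + dg x1 (o + j)
        - 2 * ((dg x0 (o + (j + 1)) : ℝ) + dg x1 (o + (j + 1)))
        + ((dg x0 (o + (j + 2)) : ℝ) + dg x1 (o + (j + 2)))
        = (dg x0 (o + j) + dg x1 (o + j) + (dg x0 (o + (j + 2)) + dg x1 (o + (j + 2)))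
          - 2 * (dg x0 (o + (j + 1)) + dg x1 (o + (j + 1)))) := by ring
    have g2 : (dg x0 (o + j) : ℝ) - dg x1 (o + j)
        - 2 * ((dg x0 (o + (j + 1)) : ℝ) - dg x1 (o + (j + 1)))
        + ((dg x0 (o + (j + 2)) : ℝ) - dg x1 (o + (j + 2)))
        = (dg x0 (o + j) + dg x0 (o + (j + 2)) + 2 * dg x1 (o + (j + 1))
          - (dg x1 (o + j) + dg x1 (o + (j + 2)) + 2 * dg x0 (o + (j + 1)))) := by ring
    rw [g1, g2]
    ring
  have eD2 : ∑ j ∈ range M, Ds (lR o x0) (lR o x1) ((j + 1 : ℕ) : ℤ)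
      + ∑ j ∈ range M, As (lR o x0) (lR o x1) ((j + 1 : ℕ) : ℤ)
      = (∑ j ∈ range M, (f j : ℝ)) / 2 := by
    rw [← sum_add_distrib, sum_congr rfl eD, sum_div]
  rw [eD2]
  have h3 : ((24 * ((M + 1) * (n0 * n0)) * (E1 * cc)
      + E * (8 * ((M + 1) * (n0 * n0)) * Bd + 3 * ((M + 1) * (M + 1)) * (∑ k ∈ range M, f k)
      + 12 * ((M + 1) * n0) * (ab (dg x0 o) (dg x1 o) + ab (dg x0 (o + (M + 1))) (dg x1 (o + (M + 1)))))
      : ℕ) : ℝ)
      ≤ ((E * (12 * (n0 * n0) * (sx x0 x1 o + sx x0 x1 (o + (M + 1))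
        + 2 * ∑ k ∈ range M, sx x0 x1 (o + (k + 1)))) + 48 * ((M + 1) * (n0 * n0)) * ext
        : ℕ) : ℝ) := by exact_mod_cast h2
  push_cast [ab_cast] at h3
  simp only [s1] at h3
  rw [eL0, eL0, eL, eL]
  have eS : ∑ j ∈ range M, (lR o x0 ((j + 1 : ℕ) : ℤ) + lR o x1 ((j + 1 : ℕ) : ℤ)) / 2
      = (∑ j ∈ range M, ((dg x0 (o + (j + 1)) : ℝ) + dg x1 (o + (j + 1)))) / 2 := by
    rw [sum_div]
    refine sum_congr rfl fun j _ => ?_
    rw [eL, eL]
  rw [eS]
  set S := ∑ j ∈ range M, ((dg x0 (o + (j + 1)) : ℝ) + dg x1 (o + (j + 1))) with hS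
  set F := ∑ j ∈ range M, (f j : ℝ) with hF
  set A0 := |(dg x0 o : ℝ) - dg x1 o| with hA0
  set A1 := |(dg x0 (o + (M + 1)) : ℝ) - dg x1 (o + (M + 1))| with hA1
  set a0 := (dg x0 o : ℝ) with ha0
  set a1 := (dg x1 o : ℝ) with ha1
  set b0 := (dg x0 (o + (M + 1)) : ℝ) with hb0
  set b1 := (dg x1 (o + (M + 1)) : ℝ) with hb1
  have hn0' : (0:ℝ) < n0 := by exact_mod_cast hn0
  have hE' : (0:ℝ) < E := by exact_mod_cast hE
  have hM' : (0:ℝ) < (M:ℝ) + 1 := by positivity
  have goal : 0 ≤ (1 / ((M : ℝ) + 1) * ((a0 + a1) / 4 + S / 2 + (b0 + b1) / 4)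
      - ((M : ℝ) + 1) / (8 * (n0 : ℝ) ^ 2) * (F / 2)
      - (A0 + A1) / (4 * n0) + (ext : ℝ) / E - (cc : ℝ) / 2 * ((E1 : ℝ) / E) - (Bd : ℝ) / 6) := by
    have e : (1 / ((M : ℝ) + 1) * ((a0 + a1) / 4 + S / 2 + (b0 + b1) / 4)
      - ((M : ℝ) + 1) / (8 * (n0 : ℝ) ^ 2) * (F / 2)
      - (A0 + A1) / (4 * n0) + (ext : ℝ) / E - (cc : ℝ) / 2 * ((E1 : ℝ) / E) - (Bd : ℝ) / 6)
      = (E * (12 * (n0 * n0) * (a0 + a1 + (b0 + b1) + 2 * S))
          + 48 * (((M:ℝ) + 1) * (n0 * n0)) * ext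
        - (24 * (((M:ℝ) + 1) * (n0 * n0)) * (E1 * cc)) - E * (8 * (((M:ℝ) + 1) * (n0 * n0)) * Bd + 3 * (((M:ℝ) + 1) * ((M:ℝ) + 1)) * F
          + 12 * (((M:ℝ) + 1) * n0) * (A0 + A1))) / (48 * (((M:ℝ) + 1) * (n0 * n0)) * E) := by
      field_simp
      ring
    rw [e]
    apply div_nonneg
    · linarith
    · positivity
  linarith

/-! ### The real data -/

/-- prices -/
def lamS (l : List Seg) (o : ℕ) (X : List (List ℕ)) (s : ℕ × ℤ) (e : Bool) : ℤ → ℝ :=
  open Classical in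
  if okS l s then lR o (xx X (vO l s) (if e = true then 1 else 0)) else fun _ => 0

/-- node values of the end point labels -/
def wS (l : List Seg) (o : ℕ) (X : List (List ℕ)) (s : ℕ × ℤ) (e : Bool) : ℤ → ℝ :=
  lR o (xx X (vO l s) (if e = true then 4 else 3))

/-- majorant -/
def hS (l : List Seg) (o : ℕ) (X : List (List ℕ)) (s : ℕ × ℤ) : ℤ → ℝ :=
  open Classical in
  if okS l s then lR o (xx X (vO l s) 2) else fun _ => 0

/-- node values of the midpoints -/
def mS (d : DatS) (o : ℕ) (X : List (List ℕ)) (s : ℕ × ℤ) : ℤ → ℝ :=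
  mM d.N o (xx X (vO d.segs s) 2) (nth 0 (nth [] d.ke (vO d.segs s)) 6)

/-- squares -/
def sgS (d : DatS) (q : Fin 64) (s t : ℕ × ℤ) : ℝ :=
  ((nth [] d.sq (vO d.segs s))[q.1]?).elim 0
    (fun p => (dg p (vO d.segs t) : ℝ) - 16384)

/-- multipliers of the linear facts -/
def nuS (d : DatS) (J : List FnS) (den : ℕ) (q : Fin J.length) (a b : ℕ × ℤ) : ℝ :=
  den * ((dg (nth 0 (J.get q).mat (vO d.segs a)) (vO d.segs b) : ℕ) : ℝ) / 2

/-- multipliers of the pair facts -/
def tauS (d : DatS) (I : List Prf) (dφ : ℕ) (i : Fin I.length) (z : ℕ × ℤ) : ℝ :=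
  open Classical in
  if okS d.segs z then dφ * ((nth 0 (I.get i).tau (vO d.segs z) : ℕ) : ℝ) else 0

/-- multiplier of the constant fact -/
def ccS (d : DatS) (z : ℕ × ℤ) : ℝ :=
  open Classical in
  if okS d.segs z then ((nth 0 (nth [] d.ke (vO d.segs z)) 7 : ℕ) : ℝ) / 2 else 0

lemma ccS_nonneg (d : DatS) (z : ℕ × ℤ) : 0 ≤ ccS d z := by
  unfold ccS
  split_ifs
  · positivity
  · exact le_rfl

/-- the squares -/
lemma sgS_sum {d : DatS} (hb : bndS d = true) {z : ℕ × ℤ} (hz : okS d.segs z) (a b : ℕ × ℤ) :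
    ∑ q : Fin 64, sgS d q z a * sgS d q z b
      = (SSg (sqS d) (vO d.segs z) (vO d.segs a) (vO d.segs b) : ℝ) := by
  have hb1 : bndg (vN d.segs) (sqS d) = true := by
    unfold bndS at hb
    simp only [Bool.and_eq_true] at hb
    exact hb.1.1.1.1
  have hl : (nth [] d.sq (vO d.segs z)).length ≤ 64 :=
    (bndg_sound hb1 (vO_spec d.segs z.1 z.2 hz).1).1
  have e0 : ∀ q : Fin 64, sgS d q z a * sgS d q z b
      = (fun q' : ℕ => ((nth [] d.sq (vO d.segs z))[q']?).elim 0 (fun p =>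
        (((dg p (vO d.segs a) : ℝ) - 16384) * ((dg p (vO d.segs b) : ℝ) - 16384)))) q.1 := by
    intro q
    unfold sgS
    simp only
    generalize (nth [] d.sq (vO d.segs z))[q.1]? = w
    cases w with
    | none => simp
    | some p => simp only [Option.elim_some]
  rw [sum_congr rfl fun q _ => e0 q, Fin.sum_univ_eq_sum_range (fun q' : ℕ =>
    ((nth [] d.sq (vO d.segs z))[q']?).elim 0 (fun p =>
        (((dg p (vO d.segs a) : ℝ) - 16384) * ((dg p (vO d.segs b) : ℝ) - 16384)))) 64,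
    sum_opt _ _ _ hl]
  unfold SSg sqS
  rw [Int.cast_list_sum]
  generalize nth [] d.sq (vO d.segs z) = l
  clear hl e0
  induction l with
  | nil => simp
  | cons a l ih =>
    simp only [List.map_cons, List.sum_cons]
    rw [ih]
    push_cast
    ring

/-- node cost of the data -/
def FnS' (d : DatS) (X : List (List ℕ)) (o2 : ℕ) (J : List FnS) (den : ℕ)
    (l : Fin J.length → ℕ × ℤ → ℝ) (I : List Prf) (dφ : ℕ)
    (phin : Fin I.length → ℕ × ℤ → ℕ × ℤ → ℝ) : ℕ × ℤ → ℕ × ℤ → ℕ × ℤ → ℝ :=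
  FnG (parC d.segs)
    (fun z a b => wS d.segs (2 * o2) X z (parC d.segs a.1) (2 * b.2 - a.2)
      + (∑ i, tauS d I dφ i z * phin i a b - ccS d z))
    (fun z a b => mS d (2 * o2) X z (a.2 + b.2))
    univ (nuS d J den) l

/-- symmetric cost of the pair `a, b` for the sampler `z` -/
def WE (d : DatS) (X : List (List ℕ)) (o2 : ℕ) (J : List FnS) (den : ℕ)
    (l : Fin J.length → ℕ × ℤ → ℝ) (I : List Prf) (dφ : ℕ)
    (phin : Fin I.length → ℕ × ℤ → ℕ × ℤ → ℝ) (z a b : ℕ × ℤ) : ℝ :=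
  FnS' d X o2 J den l I dφ phin z a b + FnS' d X o2 J den l I dφ phin z b a
    + 2 * ∑ q : Fin 64, sgS d q z a * sgS d q z b

lemma WE_symm (d : DatS) (X : List (List ℕ)) (o2 : ℕ) (J : List FnS) (den : ℕ)
    (l : Fin J.length → ℕ × ℤ → ℝ) (I : List Prf) (dφ : ℕ)
    (phin : Fin I.length → ℕ × ℤ → ℕ × ℤ → ℝ) (z a b : ℕ × ℤ) :
    WE d X o2 J den l I dφ phin z a b = WE d X o2 J den l I dφ phin z b a := by
  unfold WE
  have : ∑ q : Fin 64, sgS d q z a * sgS d q z b = ∑ q : Fin 64, sgS d q z b * sgS d q z a :=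
    sum_congr rfl fun q _ => mul_comm _ _
  rw [this]
  ring

lemma totE_eq (d : DatS) (X : List (List ℕ)) (o2 : ℕ) (J : List FnS) (den : ℕ)
    (l : Fin J.length → ℕ × ℤ → ℝ) (I : List Prf) (dφ : ℕ)
    (phin : Fin I.length → ℕ × ℤ → ℕ × ℤ → ℝ) (a b c : ℕ × ℤ) :
    sym6 (FnS' d X o2 J den l I dφ phin) a b c + 2 * sq3 univ (sgS d) a b c
      = WE d X o2 J den l I dφ phin a b c + WE d X o2 J den l I dφ phin b a c
        + WE d X o2 J den l I dφ phin c a b := by
  unfold sym6 sq3 WE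
  rw [sum_add_distrib, sum_add_distrib]
  ring

/-- the checks of one node, as propositions -/
structure SE (d : DatS) (X : List (List ℕ)) (I : List Prf) (o2 Mx Mw n0 E E1 z : ℕ) : Prop where
  p0 : Shp Mx (xx X z 0)
  p1 : Shp Mx (xx X z 1)
  p2 : Shp Mx (xx X z 2)
  l0 : dle Mx (xx X z 0) (xx X z 2) = true
  l1 : dle Mx (xx X z 1) (xx X z 2) = true
  f0 : chkFre Mx (xx X z 0) (xx X z 3) = true
  f1 : chkFre Mx (xx X z 1) (xx X z 4) = true
  e0 : chkE2 d.N o2 Mw (xx X z 3) (nth [] d.ke z) 0 = true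
  e1 : chkE2 d.N o2 Mw (xx X z 4) (nth [] d.ke z) 3 = true
  m : chkM2 d.N o2 (xx X z 2) (nth 0 (nth [] d.ke z) 6) = true
  s : chkS2 d.N n0 d.Bd E E1 (nth 0 (nth [] d.ke z) 7)
    (sumL (fun f : Prf => Nat.mul (nth 0 f.tau z) f.cn) I) (xx X z 0) (xx X z 1) (2 * o2) = true

lemma chkY_imp {d : DatS} {X : List (List ℕ)} {I : List Prf} {o2 Mx Mw n0 E E1 : ℕ}
    (h : chkY d X I o2 Mx Mw n0 E E1 = true) {z : ℕ} (hz : z < vN d.segs) :
    SE d X I o2 Mx Mw n0 E E1 z := by
  have h1 := allN_imp h z hz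
  simp only [Bool.and_eq_true] at h1
  obtain ⟨⟨⟨⟨⟨⟨⟨⟨⟨⟨a0, a1⟩, a2⟩, a3⟩, a4⟩, a5⟩, a6⟩, a7⟩, a8⟩, a9⟩, a10⟩ := h1
  exact ⟨shp_imp a0, shp_imp a1, shp_imp a2, a3, a4, a5, a6, a7, a8, a9, a10⟩

/-- position of a node is at most `N` -/
lemma locP_le {d : DatS} (hg : chkG d = true) {s : ℕ × ℤ} (hs : okS d.segs s) :
    0 ≤ s.2 ∧ s.2 ≤ (d.N : ℤ) := by
  obtain ⟨c, i⟩ := s
  obtain ⟨h1, h2⟩ := hs
  dsimp only at h1 h2 ⊢
  unfold loC at h1
  unfold hiC at h2
  have h3 : (sgA d.segs c).lo + (sgA d.segs c).len ≤ d.N + 1 := by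
    unfold sgA
    rcases nth_mem (⟨1, 0, 0⟩ : Seg) d.segs c with h | h
    · exact Nat.le_of_ble_eq_true ((allL_iff _ _).1 hg _ h)
    · rw [h]
      simp
  omega

/-- data of the facts: values of the linear facts, matrices of the pair facts -/
structure Fct (d : DatS) (J : List FnS) (den : ℕ) (l : Fin J.length → ℕ × ℤ → ℝ) (I : List Prf)
    (dφ : ℕ) (phin : Fin I.length → ℕ × ℤ → ℕ × ℤ → ℝ) : Prop where
  hl : ∀ q : Fin J.length, ∀ z, okS d.segs z →
    den * l q z = ((nth 0 (J.get q).lp (vO d.segs z) : ℕ) : ℝ)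
      - ((nth 0 (J.get q).ln (vO d.segs z) : ℕ) : ℝ)
  hp : ∀ i : Fin I.length, ∀ a b, okS d.segs a → okS d.segs b →
    dφ * (phin i a b + phin i b a)
      ≤ ((dg (nth 0 (I.get i).mp (vO d.segs a)) (vO d.segs b) : ℕ) : ℝ)
        - ((dg (nth 0 (I.get i).mn (vO d.segs a)) (vO d.segs b) : ℕ) : ℝ)

/-- COST OF A PAIR -/
lemma WE_le {d : DatS} {X : List (List ℕ)} {o2 Mx Mw n0 E E1 : ℕ} {J : List FnS} {den : ℕ}
    {l : Fin J.length → ℕ × ℤ → ℝ} {I : List Prf} {dφ : ℕ}
    {phin : Fin I.length → ℕ × ℤ → ℕ × ℤ → ℝ}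
    (hfn : d.fn = allF J I) (hb : bndS d = true) (hs : symS d = true)
    (hg : chkG d = true)
    (hX : chkY d X I o2 Mx Mw n0 E E1 = true) (hF : Fct d J den l I dφ phin) (ho : o2 ≤ (d.N + 1) / 2)
    {z a b : ℕ × ℤ} (hz : okS d.segs z) (ha : okS d.segs a) (hbN : okS d.segs b) :
    WE d X o2 J den l I dφ phin z a b ≤ (WS d (vO d.segs z) (vO d.segs a) (vO d.segs b) : ℝ) := by
  obtain ⟨z1, z2, z3⟩ := vO_spec d.segs z.1 z.2 hz
  obtain ⟨a1, a2, a3⟩ := vO_spec d.segs a.1 a.2 ha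
  obtain ⟨b1, b2, b3⟩ := vO_spec d.segs b.1 b.2 hbN
  change vO d.segs z < _ at z1
  change vO d.segs a < _ at a1
  change ((locP d.segs (vO d.segs a) : ℕ) : ℤ) = _ at a2
  change locE d.segs (vO d.segs a) = _ at a3
  change vO d.segs b < _ at b1
  change ((locP d.segs (vO d.segs b) : ℕ) : ℤ) = _ at b2
  change locE d.segs (vO d.segs b) = _ at b3
  have pa := locP_le hg ha
  have pb := locP_le hg hbN
  set v := vO d.segs z with hv
  set x := vO d.segs a with hx
  set y := vO d.segs b with hy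
  set p := locP d.segs x with hp
  set q := locP d.segs y with hq
  have S := chkY_imp hX z1
  have hpar : ∀ s ∈ d.segs, s.par ≤ 1 := by
    unfold bndS at hb
    simp only [Bool.and_eq_true] at hb
    exact fun s hs => Nat.le_of_ble_eq_true ((allL_iff _ _).1 hb.2 s hs)
  have ea1 : locE d.segs x ≤ 1 := locE_le _ hpar _
  have eb1 : locE d.segs y ≤ 1 := locE_le _ hpar _
  have pca : parC d.segs a.1 = decide (locE d.segs x = 1) := by
    unfold parC
    rw [a3]
  have pcb : parC d.segs b.1 = decide (locE d.segs y = 1) := by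
    unfold parC
    rw [b3]
  have hcab : (parC d.segs a.1 = parC d.segs b.1) ↔ (locE d.segs x = locE d.segs y) := by
    rw [pca, pcb, decide_eq_decide]
    omega
  have hcba : (parC d.segs b.1 = parC d.segs a.1) ↔ (locE d.segs x = locE d.segs y) := by
    rw [eq_comm, hcab]
  -- end point labels
  have hE : ∀ (e : Bool) (n : ℕ), e = decide (n = 1) → n ≤ 1 →
      wS d.segs (2 * o2) X z e (2 * b.2 - a.2)
        ≤ (dg (nth 0 (nth [] d.ke v) (3 * n + p % 2)) (q + s1 d.N p) : ℝ)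
      ∧ wS d.segs (2 * o2) X z e (2 * a.2 - b.2)
        ≤ (dg (nth 0 (nth [] d.ke v) (3 * n + 2)) (q + s2 d.N p) : ℝ) := by
    intro e n he hn
    unfold wS
    rw [← a2, ← b2]
    rcases Nat.le_one_iff_eq_zero_or_eq_one.1 hn with rfl | rfl
    · have : e = false := by rw [he]; simp
      subst this
      simp only [Bool.false_eq_true, if_false]
      have k := wK_bound (w := xx X v 3) S.e0 ho p q (by omega)
      simpa using k
    · have : e = true := by rw [he]; simp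
      subst this
      simp only [if_true]
      have k := wK_bound (w := xx X v 4) S.e1 ho p q (by omega)
      simpa using k
  -- midpoints
  have hM : mS d (2 * o2) X z (a.2 + b.2) ≤ (dg (nth 0 (nth [] d.ke v) 6) (q + p) : ℝ) := by
    unfold mS
    rw [← a2, ← b2, ← hv]
    have e : ((p : ℕ) : ℤ) + (q : ℕ) = ((q + p : ℕ) : ℤ) := by push_cast; ring
    rw [e, mM_nat (by omega)]
  have hSS := sgS_sum hb hz a b
  rw [← hv, ← hx, ← hy] at hSS
  -- facts
  have hJ : ∑ j, nuS d J den j a b * l j z + ∑ j, nuS d J den j b a * l j z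
      = ((J.map fun f => (((nth 0 f.lp v : ℕ) : ℤ) - (nth 0 f.ln v : ℕ))
        * (dg (nth 0 f.mat x) y : ℤ)).sum : ℝ) := by
    rw [Int.cast_list_sum, List.map_map, ← sum_fin_list, ← sum_add_distrib]
    refine sum_congr rfl fun j _ => ?_
    have h1 := hF.hl j z hz
    have hmem : J.get j ∈ d.fn := by
      rw [hfn]
      have : ∀ I : List Prf, J.get j ∈ allF J I := by
        intro I
        induction I with
        | nil => exact List.get_mem _ _
        | cons f I ih =>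
          have e : allF J (f :: I)
              = ⟨f.tau, [], f.mp, f.k⟩ :: ⟨[], f.tau, f.mn, f.k⟩ :: allF J I := rfl
          rw [e]
          exact List.mem_cons_of_mem _ (List.mem_cons_of_mem _ ih)
      exact this I
    have h2 := symS_sound d hs hmem a1 b1
    unfold nuS
    rw [← hx, ← hy, ← h2]
    simp only [Function.comp_apply]
    push_cast
    rw [← hv] at h1
    rw [← h1]
    ring
  have hI : ∑ i, tauS d I dφ i z * phin i a b + ∑ i, tauS d I dφ i z * phin i b a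
      ≤ ((I.map fun f => ((nth 0 f.tau v : ℕ) : ℤ) * ((dg (nth 0 f.mp x) y : ℤ)
        - (dg (nth 0 f.mn x) y : ℤ))).sum : ℝ) := by
    rw [Int.cast_list_sum, List.map_map, ← sum_fin_list, ← sum_add_distrib]
    refine sum_le_sum fun i _ => ?_
    have h1 := hF.hp i a b ha hbN
    rw [← hx, ← hy] at h1
    unfold tauS
    rw [if_pos hz, ← hv]
    simp only [Function.comp_apply]
    push_cast
    have h2 := mul_le_mul_of_nonneg_left h1
      (show (0:ℝ) ≤ ((nth 0 (I.get i).tau v : ℕ) : ℝ) by positivity)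
    linarith
  have hCC : ccS d z = ((nth 0 (nth [] d.ke v) 7 : ℕ) : ℝ) / 2 := by
    unfold ccS
    rw [if_pos hz]
  have hWS : (WS d v x y : ℝ) = 2 * (SSg (sqS d) v x y : ℝ)
      + (dg (nth 0 (nth [] d.ke v) (3 * locE d.segs x + p % 2)) (q + s1 d.N p) : ℝ)
      + (dg (nth 0 (nth [] d.ke v) (3 * locE d.segs y + 2)) (q + s2 d.N p) : ℝ)
      + (if locE d.segs x = locE d.segs y then (dg (nth 0 (nth [] d.ke v) 6) (q + p) : ℝ) else 0)
      + ((J.map fun f => (((nth 0 f.lp v : ℕ) : ℤ) - (nth 0 f.ln v : ℕ))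
        * (dg (nth 0 f.mat x) y : ℤ)).sum : ℝ)
      + ((I.map fun f => ((nth 0 f.tau v : ℕ) : ℤ) * ((dg (nth 0 f.mp x) y : ℤ)
        - (dg (nth 0 f.mn x) y : ℤ))).sum : ℝ)
      - ((nth 0 (nth [] d.ke v) 7 : ℕ) : ℝ) := by
    unfold WS KE
    rw [hfn, allF_sum]
    have e1 : (I.map fun f : Prf =>
        ((((nth 0 (⟨f.tau, [], f.mp, f.k⟩ : FnS).lp v : ℕ) : ℤ)
          - (nth 0 (⟨f.tau, [], f.mp, f.k⟩ : FnS).ln v : ℕ))
          * (dg (nth 0 (⟨f.tau, [], f.mp, f.k⟩ : FnS).mat x) y : ℤ))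
        + ((((nth 0 (⟨[], f.tau, f.mn, f.k⟩ : FnS).lp v : ℕ) : ℤ)
          - (nth 0 (⟨[], f.tau, f.mn, f.k⟩ : FnS).ln v : ℕ))
          * (dg (nth 0 (⟨[], f.tau, f.mn, f.k⟩ : FnS).mat x) y : ℤ))).sum
        = (I.map fun f => ((nth 0 f.tau v : ℕ) : ℤ) * ((dg (nth 0 f.mp x) y : ℤ)
        - (dg (nth 0 f.mn x) y : ℤ))).sum := by
      congr 1
      refine List.map_congr_left fun f _ => ?_
      have z0 : nth 0 ([] : List ℕ) v = 0 := rfl
      simp only [z0]
      push_cast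
      ring
    rw [e1, ← hp, ← hq]
    push_cast
    split_ifs <;> ring
  unfold WE FnS' FnG
  rw [hSS, hWS]
  beta_reduce
  rw [hCC]
  simp only [hcab, hcba]
  rw [add_comm b.2 a.2]
  have k1 := (hE (parC d.segs a.1) (locE d.segs x) pca ea1).1
  have k2 := (hE (parC d.segs b.1) (locE d.segs y) pcb eb1).2
  have k3 : (if locE d.segs x = locE d.segs y then mS d (2 * o2) X z (a.2 + b.2) / 2 else 0)
      + (if locE d.segs x = locE d.segs y then mS d (2 * o2) X z (a.2 + b.2) / 2 else 0)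
      ≤ (if locE d.segs x = locE d.segs y then (dg (nth 0 (nth [] d.ke v) 6) (q + p) : ℝ)
        else 0) := by
    split_ifs
    · linarith
    · simp
  linarith

/-- pair facts: `none` = the constant fact `|A|^2 ≤ (E1 / E) n` -/
def optF {k : ℕ} (φ : Fin k → ℕ × ℝ → ℕ × ℝ → ℝ) : Option (Fin k) → ℕ × ℝ → ℕ × ℝ → ℝ
  | none, _, _ => -1
  | some i, a, b => φ i a b

/-- constants of the pair facts -/
def optC (E E1 : ℕ) {k : ℕ} (c : Fin k → ℝ) : Option (Fin k) → ℝ
  | none => -((E1 : ℝ) / E)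
  | some i => c i

/-- multipliers of the pair facts -/
def optT (d : DatS) (I : List Prf) (dφ : ℕ) : Option (Fin I.length) → ℕ × ℤ → ℝ
  | none, z => ccS d z
  | some i, z => tauS d I dφ i z

/-- INTEGER CERTIFICATE WITH SEGMENTS ==> `CertifiedC`, all `n ≥ n0` -/
theorem certC_of_data {d : DatS} {X : List (List ℕ)} {o2 Mx Mw n0 E E1 M : ℕ} {J : List FnS} {den : ℕ}
    {l : Fin J.length → ℕ × ℤ → ℝ} {I : List Prf} {dφ : ℕ}
    {phin : Fin I.length → ℕ × ℤ → ℕ × ℤ → ℝ}
    (hN : d.N = M + 1) (hfn : d.fn = allF J I) (hb : bndS d = true) (hs : symS d = true)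
    (hg : chkG d = true) (hX : chkY d X I o2 Mx Mw n0 E E1 = true) (hF : Fct d J den l I dφ phin)
    (ho : o2 ≤ (d.N + 1) / 2) (hn0 : d.N ≤ n0) (hBd : 0 < d.Bd) (hE : 0 < E)
    (hm : segCheck d 0 (vN d.segs) = true) {n : ℕ} (hn : n0 ≤ n)
    {ℓ : Fin J.length → ℕ × ℝ → ℝ}
    (hℓ : ∀ q, ∀ z, RegC (M + 1) (loC d.segs) (hiC d.segs) z →
      ℓ q z = kC (M + 1) (loC d.segs) (hiC d.segs) (l q) z)
    {φ : Fin I.length → ℕ × ℝ → ℕ × ℝ → ℝ}
    (hφ : ∀ i, ∀ a b, RegC (M + 1) (loC d.segs) (hiC d.segs) a →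
      RegC (M + 1) (loC d.segs) (hiC d.segs) b →
      φ i a b ≤ nC (M + 1) (loC d.segs) (hiC d.segs) (phin i) a b)
    {c : Fin I.length → ℝ} (hc : ∀ i, ((I.get i).cn : ℝ) ≤ E * dφ * c i) :
    CertifiedC n (13 / 18) (parC d.segs) (RegC (M + 1) (loC d.segs) (hiC d.segs))
      univ ℓ (univ : Finset (Option (Fin I.length))) (optF φ) (optC E E1 c) := by
  have hS' := fun {z : ℕ × ℤ} (hz : okS d.segs z) =>
    chkY_imp hX (vO_spec d.segs z.1 z.2 hz).1
  have hdle : ∀ {x y : ℕ}, dle Mx x y = true → Shp Mx x → ∀ (o : ℕ) (v : ℤ),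
      lR o x v ≤ lR o y v := by
    intro x y h hsx o v
    unfold lR
    split_ifs with c
    · set m := (v + (o : ℤ)).toNat
      rcases Nat.lt_or_ge m Mx with c1 | c1
      · have := Nat.le_of_ble_eq_true (allN_imp h m c1)
        exact_mod_cast this
      · rw [hsx.zero (Or.inr c1)]
        simp
    · exact le_rfl
  have hBd' : (0:ℝ) < d.Bd := by exact_mod_cast hBd
  have hE' : (0:ℝ) < E := by exact_mod_cast hE
  have hdn : 0 < n0 := by omega
  have hW : ∀ c, ns (loC d.segs) (hiC d.segs) c ⊆ Icc (0:ℤ) d.N := by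
    intro c i hi
    unfold ns at hi
    rw [mem_Icc] at hi ⊢
    exact locP_le (s := (c, i)) hg ⟨hi.1, hi.2⟩
  have hpl0 : ∀ (s : ℕ × ℤ) (e : Bool) (x : ℝ), 0 ≤ pl (lamS d.segs (2 * o2) X s e) x := by
    intro s e x
    refine pl_nonneg (fun y => ?_) _
    unfold lamS
    split_ifs
    · exact lR_nonneg _ _ _
    · exact lR_nonneg _ _ _
    · exact le_refl (0:ℝ)
  have hHH : ∀ (s : ℕ × ℤ) (e : Bool) (y : ℤ),
      lamS d.segs (2 * o2) X s e y ≤ hS d.segs (2 * o2) X s y := by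
    intro s e y
    unfold lamS hS
    split_ifs with c c2
    · exact hdle (hS' c).l1 (hS' c).p1 _ _
    · exact hdle (hS' c).l0 (hS' c).p0 _ _
    · exact le_refl (0:ℝ)
  refine certG (lo := loC d.segs) (hi := hiC d.segs)
    (W := Icc (0:ℤ) d.N) hW (par := parC d.segs) (l := l)
    (fun q _ z hz => hℓ q z hz) (tau := optT d I dφ) ?_
    (G := fun s e x => pl (lamS d.segs (2 * o2) X s e) (((M + 1 : ℕ) : ℝ) * x))
    (H := fun s x => pl (hS d.segs (2 * o2) X s) (((M + 1 : ℕ) : ℝ) * x))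
    (kap := fun _ => 0)
    (WP := fun z a b => wS d.segs (2 * o2) X z (parC d.segs a.1) (2 * b.2 - a.2)
      + (∑ i, tauS d I dφ i z * phin i a b - ccS d z))
    (WM := fun z a b => mS d (2 * o2) X z (a.2 + b.2))
    (nu := nuS d J den) (p := 64) (sg := sgS d) (θ := (d.Bd : ℝ) / 6) (by positivity)
    (fun s e x => hpl0 s e _) ?_ (fun _ => le_rfl) ?_ ?_ ?_ ?_ ?_
  · intro i _ s
    cases i with
    | none => exact ccS_nonneg d s
    | some i =>
      change 0 ≤ tauS d I dφ i s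
      unfold tauS
      split_ifs
      · positivity
      · exact le_rfl
  · intro s e x
    unfold pl
    have h0 := Int.fract_nonneg ((((M + 1 : ℕ) : ℝ)) * x)
    have h1 := Int.fract_lt_one ((((M + 1 : ℕ) : ℝ)) * x)
    exact add_le_add (mul_le_mul_of_nonneg_left (hHH _ _ _) (by linarith))
      (mul_le_mul_of_nonneg_left (hHH _ _ _) h0)
  · -- pairs
    intro z hz a b ha hb'
    have hok : okS d.segs z := by
      unfold ns at hz
      exact mem_Icc.1 hz
    simp only [mul_zero, sub_zero, add_zero]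
    have S := hS' hok
    have hF1 : EndOK (lamS d.segs (2 * o2) X z (parC d.segs a.1))
        (wS d.segs (2 * o2) X z (parC d.segs a.1)) := by
      unfold lamS wS
      rw [if_pos hok]
      cases parC d.segs a.1 with
      | false =>
        simp only [Bool.false_eq_true, if_false]
        exact EndOK.of_fre (fre_of_chk S.p0 S.f0 _)
      | true =>
        simp only [if_true]
        exact EndOK.of_fre (fre_of_chk S.p1 S.f1 _)
    have k1 := endOK_nC hF1 ha hb'
    rw [nC_add]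
    refine add_le_add ?_ ?_
    · refine le_trans ?_ k1
      split_ifs
      · exact le_rfl
      · exact hpl0 _ _ _
    · have e1 : nC (M + 1) (loC d.segs) (hiC d.segs)
          (fun a b => ∑ i, tauS d I dφ i z * phin i a b - ccS d z) a b
          = nC (M + 1) (loC d.segs) (hiC d.segs)
            (fun a b => ∑ i, tauS d I dφ i z * phin i a b + (-ccS d z) * (fun _ _ => 1) a b) a b := by
        congr 1
        funext x y
        ring
      rw [e1, nC_add, nC_smul, nC_one ha hb', nC_sum, Fintype.sum_option]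
      have e2 : optT d I dφ none z * optF φ none a b = -ccS d z * 1 := by
        change ccS d z * (-1) = _
        ring
      rw [e2, add_comm]
      refine add_le_add (sum_le_sum fun i _ => ?_) le_rfl
      change tauS d I dφ i z * φ i a b ≤ _
      rw [nC_smul]
      refine mul_le_mul_of_nonneg_left (hφ i a b ha hb') ?_
      unfold tauS
      rw [if_pos hok]
      positivity
  · -- midpoints
    intro z hz a b ha hb' _
    have hok : okS d.segs z := by
      unfold ns at hz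
      exact mem_Icc.1 hz
    refine midOK_nC (MidOK.of_freM ?_) ha hb'
    unfold hS mS
    rw [if_pos hok]
    exact freM_of_chk (hS' hok).m
  · intro q s t
    unfold nuS
    positivity
  · intro s hs'
    have hok : okS d.segs s := by
      unfold ns at hs'
      exact mem_Icc.1 hs'
    have S := (hS' hok).s
    rw [hN] at S
    have k := chkS2_imp hdn hE S
    have e1 : lamS d.segs (2 * o2) X s true = lR (2 * o2) (xx X (vO d.segs s) 1) := by
      unfold lamS
      rw [if_pos hok, if_pos rfl]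
    have e2 : lamS d.segs (2 * o2) X s false = lR (2 * o2) (xx X (vO d.segs s) 0) := by
      unfold lamS
      rw [if_pos hok, if_neg (by simp)]
    have eT : ((sumL (fun f : Prf => Nat.mul (nth 0 f.tau (vO d.segs s)) f.cn) I : ℕ) : ℝ) / E
        ≤ ∑ q, tauS d I dφ q s * c q := by
      rw [div_le_iff₀ hE', sumL_eq, Nat.cast_list_sum, List.map_map, ← sum_fin_list, sum_mul]
      refine sum_le_sum fun i _ => ?_
      unfold tauS
      rw [if_pos hok]
      simp only [Function.comp_apply]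
      have h1 := mul_le_mul_of_nonneg_left (hc i)
        (show (0:ℝ) ≤ ((nth 0 (I.get i).tau (vO d.segs s) : ℕ) : ℝ) by positivity)
      change (((nth 0 (I.get i).tau (vO d.segs s)) * (I.get i).cn : ℕ) : ℝ) ≤ _
      push_cast
      linarith
    have g1 := abs_sub_comm (lR (2 * o2) (xx X (vO d.segs s) 1) 0)
      (lR (2 * o2) (xx X (vO d.segs s) 0) 0)
    have g2 := abs_sub_comm (lR (2 * o2) (xx X (vO d.segs s) 1) ((M + 1 : ℕ) : ℤ))
      (lR (2 * o2) (xx X (vO d.segs s) 0) ((M + 1 : ℕ) : ℤ))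
    have g3 : ∑ j ∈ range M, (lR (2 * o2) (xx X (vO d.segs s) 1) ((j + 1 : ℕ) : ℤ)
          + lR (2 * o2) (xx X (vO d.segs s) 0) ((j + 1 : ℕ) : ℤ)) / 2
        = ∑ j ∈ range M, (lR (2 * o2) (xx X (vO d.segs s) 0) ((j + 1 : ℕ) : ℤ)
          + lR (2 * o2) (xx X (vO d.segs s) 1) ((j + 1 : ℕ) : ℤ)) / 2 :=
      sum_congr rfl fun j _ => by rw [add_comm]
    have eO : ∑ q, optT d I dφ q s * optC E E1 c q
        = ∑ q, tauS d I dφ q s * c q
          - ((nth 0 (nth [] d.ke (vO d.segs s)) 7 : ℕ) : ℝ) / 2 * ((E1 : ℝ) / E) := by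
      rw [Fintype.sum_option]
      have e5 : optT d I dφ none s * optC E E1 c none
          = -(((nth 0 (nth [] d.ke (vO d.segs s)) 7 : ℕ) : ℝ) / 2 * ((E1 : ℝ) / E)) := by
        change ccS d s * (-((E1 : ℝ) / E)) = _
        unfold ccS
        rw [if_pos hok]
        ring
      rw [e5]
      change _ + ∑ q, tauS d I dφ q s * c q = _
      ring
    rw [eO]
    have hnode := node_sumL (M := M) (n0 := n0) (θ := (d.Bd : ℝ) / 6
        - (∑ q, tauS d I dφ q s * c q
          - ((nth 0 (nth [] d.ke (vO d.segs s)) 7 : ℕ) : ℝ) / 2 * ((E1 : ℝ) / E)))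
      (lam := lamS d.segs (2 * o2) X s)
      (D' := Ds (lamS d.segs (2 * o2) X s true) (lamS d.segs (2 * o2) X s false))
      (Ad := As (lamS d.segs (2 * o2) X s true) (lamS d.segs (2 * o2) X s false))
      (by omega) hn ?_ ?_ (fun _ => le_rfl) ?_
    · exact hnode
    · intro y
      unfold Ds
      positivity
    · intro y
      unfold Ds
      have := le_max_right (0:ℝ) ((lamS d.segs (2 * o2) X s true (y - 1)
        + lamS d.segs (2 * o2) X s false (y - 1))
        - 2 * (lamS d.segs (2 * o2) X s true y + lamS d.segs (2 * o2) X s false y)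
        + (lamS d.segs (2 * o2) X s true (y + 1) + lamS d.segs (2 * o2) X s false (y + 1)))
      linarith
    · rw [e1, e2, Ds_comm, As_comm, g1, g2, g3, add_comm (lR (2 * o2) (xx X (vO d.segs s) 1) 0),
        add_comm (lR (2 * o2) (xx X (vO d.segs s) 1) ((M + 1 : ℕ) : ℤ))]
      linarith
  · intro z a b hz ha hb'
    unfold ns at hz ha hb'
    have oz : okS d.segs z := mem_Icc.1 hz
    have oa : okS d.segs a := mem_Icc.1 ha
    have ob : okS d.segs b := mem_Icc.1 hb'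
    have W := fun {z a b : ℕ × ℤ} (hz : okS d.segs z) (ha : okS d.segs a) (hb' : okS d.segs b) =>
      WE_le (z := z) (a := a) (b := b) hfn hb hs hg hX hF ho hz ha hb'
    have vz := (vO_spec d.segs z.1 z.2 oz).1
    have va := (vO_spec d.segs a.1 a.2 oa).1
    have vb := (vO_spec d.segs b.1 b.2 ob).1
    change vO d.segs z < _ at vz
    change vO d.segs a < _ at va
    change vO d.segs b < _ at vb
    have T := totE_eq d X o2 J den l I dφ phin z a b
    unfold FnS' at T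
    have hfin : WE d X o2 J den l I dφ phin z a b + WE d X o2 J den l I dφ phin a z b
        + WE d X o2 J den l I dφ phin b z a ≤ d.Bd := by
      rcases le_total (vO d.segs a) (vO d.segs z) with h | h
      · have k := seg_sound d hb hm le_rfl (a := vO d.segs z) (b := vO d.segs a)
          (c := vO d.segs b) (Nat.zero_le _) vz h vb
        have k' : ((WS d (vO d.segs z) (vO d.segs a) (vO d.segs b)
          + WS d (vO d.segs a) (vO d.segs z) (vO d.segs b)
          + WS d (vO d.segs b) (vO d.segs z) (vO d.segs a) : ℤ) : ℝ) ≤ ((d.Bd : ℤ) : ℝ) := by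
          exact_mod_cast k
        push_cast at k'
        linarith [W oz oa ob, W oa oz ob, W ob oz oa]
      · have k := seg_sound d hb hm le_rfl (a := vO d.segs a) (b := vO d.segs z)
          (c := vO d.segs b) (Nat.zero_le _) va h vb
        have k' : ((WS d (vO d.segs a) (vO d.segs z) (vO d.segs b)
          + WS d (vO d.segs z) (vO d.segs a) (vO d.segs b)
          + WS d (vO d.segs b) (vO d.segs a) (vO d.segs z) : ℤ) : ℝ) ≤ ((d.Bd : ℤ) : ℝ) := by
          exact_mod_cast k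
        push_cast at k'
        linarith [W oz oa ob, W oa oz ob, W ob oa oz, WE_symm d X o2 J den l I dφ phin b z a]
    linarith

end

end MP61673a.KC
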