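import Mathlib

set_option autoImplicit false

/-!
Verified search for small `n`, functions evaluated by the kernel.

A state is a set `S` of chosen elements and a set `C` of candidates; all sets are stored as numbers
(one bit per element, strides 7, 14, 28, 56), so that for every candidate `c` the number of labels
completed by `c` together with `S` is a digit in base 128 of the number `T` of `step`.
-/

namespace MP61673a.Small

/-- zero test -/
def nif (x a b : ℕ) : ℕ := Nat.rec (motive := fun _ => ℕ) a (fun _ _ => b) x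
/-- zero test -/
def bif0 (x : ℕ) (a b : Bool) : Bool := Nat.rec (motive := fun _ => Bool) a (fun _ _ => b) x

/-- continuations -/
abbrev Kt := List ℕ → Bool
/-- functions of a state, an information number, a certificate and a continuation -/
abbrev Fn := ℕ → ℕ → ℕ → ℕ → ℕ → ℕ → ℕ → ℕ → ℕ → ℕ → ℕ → ℕ → ℕ → ℕ → ℕ → List ℕ → Kt → Bool

/-- add the element `c`, continue with `F`; `i` is the information for the child -/
noncomputable def addc (Z : ℕ) (F : Fn) (e E O G1 G2 G4 G8 H1 H2 H4 U1 V4 UR C : ℕ) (c i : ℕ)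
    (t : List ℕ) (k : Kt) : Bool :=
  (fun c7 c14 c28 h b e1 e2 e4 eR =>
    Nat.rec (motive := fun _ => ℕ → ℕ → ℕ → ℕ → ℕ → ℕ → ℕ → ℕ → ℕ → ℕ → ℕ → ℕ → List ℕ → Kt → Bool)
      (F (Nat.succ e) (Nat.lor E (Nat.shiftLeft 1 h)) O)
      (fun _ _ => F e E (Nat.lor O (Nat.shiftLeft 1 (Nat.add h 7)))) b
      (Nat.lor G1 e1) (Nat.lor G2 e2) (Nat.lor G4 e4) (Nat.lor G8 (Nat.shiftLeft 1 (Nat.mul 56 c)))
      (Nat.lor H1 (Nat.shiftLeft 1 (Nat.sub Z c7))) (Nat.lor H2 eR)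
      (Nat.lor H4 (Nat.shiftLeft 1 (Nat.sub Z c28)))
      (Nat.xor U1 (Nat.land U1 (Nat.lor (Nat.lor e1 (Nat.shiftRight (Nat.shiftLeft H1 c14) Z))
        (Nat.lor (Nat.shiftRight G2 c7) (Nat.shiftLeft (nif b E O) h)))))
      (Nat.xor V4 (Nat.land V4 (Nat.lor (Nat.lor e4 (Nat.shiftRight (Nat.shiftLeft H4 (Nat.mul 56 c)) Z))
        (Nat.lor (Nat.shiftRight G8 c28) (Nat.shiftLeft G2 c14)))))
      (Nat.xor UR (Nat.land UR (Nat.lor (Nat.lor eR (Nat.shiftRight (Nat.shiftLeft G2 Z) c28))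
        (Nat.lor (Nat.shiftLeft H4 c14) (Nat.shiftRight H1 c7)))))
      (Nat.xor C (Nat.land C (Nat.lor (Nat.lor (Nat.shiftLeft e2 (Nat.add Z 6)) (Nat.shiftLeft H2 (Nat.add c28 6)))
        (Nat.lor (Nat.shiftLeft G4 (Nat.sub (Nat.add Z 6) c14)) (Nat.shiftLeft G1 (Nat.add (Nat.add Z 6) c7))))))
      i t k)
  (Nat.mul 7 c) (Nat.mul 14 c) (Nat.mul 28 c) (Nat.mul 7 (Nat.div c 2)) (Nat.mod c 2)
  (Nat.shiftLeft 1 (Nat.mul 7 c)) (Nat.shiftLeft 1 (Nat.mul 14 c)) (Nat.shiftLeft 1 (Nat.mul 28 c))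
  (Nat.shiftLeft 1 (Nat.sub Z (Nat.mul 14 c)))

/-- loop over the completions `c ∈ one`; `cont` gets the remaining candidates -/
noncomputable def loop1 (Z : ℕ) (F : Fn) (e E O G1 G2 G4 G8 H1 H2 H4 U1 V4 UR : ℕ)
    (cont : ℕ → ℕ → List ℕ → Bool) (fuel : ℕ) : ℕ → ℕ → ℕ → List ℕ → Bool :=
  Nat.rec (motive := fun _ => ℕ → ℕ → ℕ → List ℕ → Bool) (fun _ _ _ _ => false)
    (fun _ ih one C w t => bif0 one (cont C w t)
      ((fun v => bif0 (Nat.land one v) false
        (addc Z F e E O G1 G2 G4 G8 H1 H2 H4 U1 V4 UR C (Nat.mod w 128) (Nat.div w 128) t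
          (fun t => ih (Nat.xor one v) (Nat.xor C v) (Nat.div w 131072) t)))
        (Nat.shiftLeft 1 (Nat.add (Nat.add Z 6) (Nat.mul 14 (Nat.mod w 128))))))
    fuel

/-- the pair `c`, `d` -/
noncomputable def pairc (Z : ℕ) (G : Fn) (e E O G1 G2 G4 G8 H1 H2 H4 U1 V4 UR C : ℕ) (c d i : ℕ)
    (t : List ℕ) (k : Kt) : Bool :=
  addc Z (fun e E O G1 G2 G4 G8 H1 H2 H4 U1 V4 UR C i t k =>
    bif0 (Nat.mod (Nat.shiftRight C (Nat.add (Nat.add Z 6) (Nat.mul 14 d))) 2) (k t)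
      (addc Z G e E O G1 G2 G4 G8 H1 H2 H4 U1 V4 UR C d i t k))
    e E O G1 G2 G4 G8 H1 H2 H4 U1 V4 UR C c i t k

/-- loop over the pairs `c`, `2c-x`; bit `28 c` of the mask -/
noncomputable def loop2 (Z : ℕ) (G : Fn) (e E O G1 G2 G4 G8 H1 H2 H4 U1 V4 UR C x T D : ℕ)
    (cont : ℕ → List ℕ → Bool) (fuel : ℕ) : ℕ → ℕ → List ℕ → Bool :=
  Nat.rec (motive := fun _ => ℕ → ℕ → List ℕ → Bool) (fun _ _ _ => false)
    (fun _ ih m w t => bif0 m (cont w t)
      ((fun c v => bif0 (Nat.land m v) false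
        (bif0 (Nat.mod (Nat.shiftRight C (Nat.add (Nat.add Z 6) (Nat.mul 14 c))) 2)
          (ih (Nat.xor m v) (Nat.div w 131072) t)
          (bif0 (Nat.sub D (Nat.add (Nat.mod (Nat.shiftRight T (Nat.add Z (Nat.mul 14 c))) 128)
              (Nat.mod (Nat.shiftRight T (Nat.add Z (Nat.mul 14 (Nat.sub (Nat.mul 2 c) x)))) 128)))
            (pairc Z G e E O G1 G2 G4 G8 H1 H2 H4 U1 V4 UR C c (Nat.sub (Nat.mul 2 c) x) (Nat.div w 128) t
              (fun t => ih (Nat.xor m v) (Nat.div w 131072) t))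
            (ih (Nat.xor m v) (Nat.div w 131072) t))))
        (Nat.mod w 128) (Nat.shiftLeft 1 (Nat.mul 28 (Nat.mod w 128)))))
    fuel

/-- loop over the pairs `c`, `2x-c`; bit `Z+6+14c` of the mask -/
noncomputable def loop3 (Z : ℕ) (G : Fn) (e E O G1 G2 G4 G8 H1 H2 H4 U1 V4 UR C x T D : ℕ)
    (k : Kt) (fuel : ℕ) : ℕ → ℕ → List ℕ → Bool :=
  Nat.rec (motive := fun _ => ℕ → ℕ → List ℕ → Bool) (fun _ _ _ => false)
    (fun _ ih m w t => bif0 m (k t)
      ((fun c v => bif0 (Nat.land m v) false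
        (bif0 (Nat.mod (Nat.shiftRight C (Nat.add (Nat.add Z 6) (Nat.mul 14 (Nat.sub (Nat.mul 2 x) c)))) 2)
          (ih (Nat.xor m v) (Nat.div w 131072) t)
          (bif0 (Nat.sub D (Nat.add (Nat.mod (Nat.shiftRight T (Nat.add Z (Nat.mul 14 c))) 128)
              (Nat.mod (Nat.shiftRight T (Nat.add Z (Nat.mul 14 (Nat.sub (Nat.mul 2 x) c)))) 128)))
            (pairc Z G e E O G1 G2 G4 G8 H1 H2 H4 U1 V4 UR C c (Nat.sub (Nat.mul 2 x) c) (Nat.div w 128) t
              (fun t => ih (Nat.xor m v) (Nat.div w 131072) t))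
            (ih (Nat.xor m v) (Nat.div w 131072) t))))
        (Nat.mod w 128) (Nat.shiftLeft 1 (Nat.add (Nat.add Z 6) (Nat.mul 14 (Nat.mod w 128))))))
    fuel

/-- inner node: `w` is the certificate number, `C` the filtered candidates -/
noncomputable def inner (Z : ℕ) (F G : Fn) (e E O G1 G2 G4 G8 H1 H2 H4 U1 V4 UR T D : ℕ)
    (w : ℕ) (t : List ℕ) (k : Kt) (C : ℕ) : Bool :=
  (fun x =>
    (bif0 (Nat.land U1 (Nat.shiftLeft 1 (Nat.mul 7 x))) false
        (loop1 Z F e E O G1 G2 G4 G8 H1 H2 H4 U1 V4 UR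
         (fun C w t => loop2 Z G e E O G1 G2 G4 G8 H1 H2 H4 U1 V4 UR C x T D
           (fun w t => loop3 Z G e E O G1 G2 G4 G8 H1 H2 H4 U1 V4 UR C x T D k 200
             (Nat.shiftLeft (Nat.shiftRight (Nat.land C (Nat.shiftLeft UR (Nat.add (Nat.mul 28 x) 6)))
               (Nat.add (Nat.add Z 6) (Nat.mul 14 x))) (Nat.add (Nat.add Z 6) (Nat.mul 14 x))) w t)
           200 (Nat.land V4 (Nat.shiftRight C (Nat.sub (Nat.add Z 6) (Nat.mul 14 x)))) w t)
         200 (Nat.land C (Nat.lor (Nat.lor (Nat.shiftLeft H2 (Nat.add (Nat.mul 28 x) 6))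
           (Nat.shiftLeft G4 (Nat.sub (Nat.add Z 6) (Nat.mul 14 x))))
           (Nat.lor (Nat.shiftLeft G1 (Nat.add (Nat.add Z 6) (Nat.mul 7 x)))
             (Nat.shiftLeft 1 (Nat.add (Nat.add Z 6) (Nat.mul 14 x)))))) C (Nat.div w 128) t)))
   (Nat.mod w 128)

/-- `t (t-1) / 2` -/
def C2 (t : ℕ) : ℕ := Nat.div (Nat.mul t (Nat.sub t 1)) 2
/-- number of tokens of pairs of new elements -/
def qq (r t : ℕ) : ℕ := Nat.add (Nat.mul r (Nat.sub r 1)) (Nat.add (C2 t) (C2 (Nat.sub r t)))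
/-- maximum -/
def nmax (x y : ℕ) : ℕ := Nat.add x (Nat.sub y x)
/-- bound for `t` even elements among `r` -/
def bb (r Je Jo t : ℕ) : ℕ := Nat.add (Nat.add (Nat.mul t Je) (Nat.mul (Nat.sub r t) Jo)) (qq r t)
/-- bound for all `t` between `lo` and `hi` -/
def bnd (r lo hi Je Jo : ℕ) : ℕ := nmax (bb r Je Jo lo) (bb r Je Jo hi)

/-- one node with `r` elements left, `e` of the chosen elements even; `F`, `G` the functions for
`r-1`, `r-2` -/
noncomputable def step (Z CST OE OO MASK klo khi r : ℕ) (F G : Fn) : Fn :=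
  fun e E O G1 G2 G4 G8 H1 H2 H4 U1 V4 UR C i t k =>
  (fun u lo hi =>
    ((fun T Je Jo B =>
      (fun T' => bif0 (Nat.land T' C)
        (bif0 (Nat.sub u B)
         (List.rec (motive := fun _ => Bool) false (fun w t _ =>
           inner Z F G e E O G1 G2 G4 G8 H1 H2 H4 U1 V4 UR T' (Nat.sub (Nat.add u 126) B) w t k
           (Nat.land C (Nat.add T (Nat.add
             (Nat.mul (Nat.sub 64 (nif hi 64 (Nat.sub (Nat.add u Je) B))) OE)
             (Nat.mul (Nat.sub 64 (nif (Nat.sub r lo) 64 (Nat.sub (Nat.add u Jo) B))) OO))))) t)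
         (k t))
        false) (Nat.add T (Nat.add (Nat.mul (Nat.sub 63 Je) OE) (Nat.mul (Nat.sub 63 Jo) OO))))
      (Nat.add (Nat.add (Nat.mul (Nat.land V4 MASK) H2) (Nat.mul G4 UR))
        (Nat.add (Nat.shiftLeft (Nat.mul U1 G1) Z) CST))
      (Nat.mod i 32) (Nat.mod (Nat.div i 32) 32)
      (bnd r lo hi (Nat.mod i 32) (Nat.mod (Nat.div i 32) 32))))
  (Nat.mod U1 127) (Nat.sub klo e) (Nat.sub r (Nat.sub r (Nat.sub khi e)))

/-- level 0: some label is not covered -/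
def node0 : Fn := fun _ _ _ _ _ _ _ _ _ _ U1 _ _ _ _ t k => bif0 U1 false (k t)

/-- more elements than allowed -/
def nodeS : Fn := fun _ _ _ _ _ _ _ _ _ _ _ _ _ _ _ t k => k t

/-- the levels above `r0` -/
noncomputable def nodes (Z CST OE OO MASK klo khi r0 : ℕ) (F G : Fn) (j : ℕ) : Fn × Fn :=
  Nat.rec (motive := fun _ => Fn × Fn) (F, G)
  (fun j ih => (step Z CST OE OO MASK klo khi (Nat.succ (Nat.add r0 j)) ih.1 ih.2, ih.1)) j

/-- `comb a d N = ∑_{j<N} 2^(a + d j)` -/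
def comb (a d : ℕ) (N : ℕ) : ℕ :=
  Nat.rec (motive := fun _ => ℕ) 0 (fun j v => Nat.add v (Nat.shiftLeft 1 (Nat.add a (Nat.mul d j)))) N

/-- the levels above `r0`, with all constants -/
noncomputable def lev (Z n M klo khi r0 : ℕ) (F G : Fn) (j : ℕ) : Fn :=
  (nodes Z (comb Z 14 n) (comb Z 28 (Nat.div (Nat.add M 1) 2)) (comb (Nat.add Z 14) 28 (Nat.div M 2))
    (Nat.sub (Nat.shiftLeft 1 (Nat.mul 28 n)) 1) klo khi r0 F G j).1

/-- start with the empty set and the candidates `C` -/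
noncomputable def start (Z n M : ℕ) (F : Fn) (C i : ℕ) (t : List ℕ) (k : Kt) : Bool :=
  F 0 0 0 0 0 0 0 0 0 0 (comb 0 7 n) (comb 0 28 M) (comb (Nat.sub Z (Nat.mul 14 (Nat.sub n 1))) 14 n)
    C i t k

/-- the candidates given by the bits of `cm` -/
def spread (Z M cm : ℕ) : ℕ :=
  Nat.rec (motive := fun _ => ℕ) 0 (fun c v => Nat.lor v
    (Nat.shiftLeft (Nat.mod (Nat.shiftRight cm c) 2) (Nat.add (Nat.add Z 6) (Nat.mul 14 c)))) M

/-- add the elements of a list -/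
noncomputable def build (Z : ℕ) (F : Fn) (l : List ℕ) : Fn :=
  List.rec (motive := fun _ => Fn) F (fun c _ ih e E O G1 G2 G4 G8 H1 H2 H4 U1 V4 UR C i t k =>
    addc Z ih e E O G1 G2 G4 G8 H1 H2 H4 U1 V4 UR C c i t k) l

/-- replace the candidates -/
def setC (F : Fn) (C : ℕ) : Fn := fun e E O G1 G2 G4 G8 H1 H2 H4 U1 V4 UR _ i t k =>
  F e E O G1 G2 G4 G8 H1 H2 H4 U1 V4 UR C i t k

/-- the elements of `l` are different, smaller than `M` and not bits of `cm` -/
def okE (M : ℕ) (l : List ℕ) (cm : ℕ) : Bool :=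
  decide l.Nodup && l.all (fun a => Nat.blt a M && Nat.beq (Nat.mod (Nat.shiftRight cm a) 2) 0)

/-- one subtree with `r` elements left: elements, candidates, information, certificate -/
noncomputable def sub1 (Z n M klo khi r : ℕ) (q : List ℕ × ℕ × ℕ × List ℕ) : Bool :=
  okE M q.1 q.2.1 && start Z n M
    (build Z (setC (lev Z n M klo khi 0 node0 nodeS r) (spread Z M q.2.1)) q.1)
    0 q.2.2.1 q.2.2.2 (fun _ => true)

/-- the bits `7 a`, `a ∈ l` -/
def g1 (l : List ℕ) : ℕ := l.foldr (fun a v => Nat.lor v (Nat.shiftLeft 1 (Nat.mul 7 a))) 0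

/-- one subtree, `k` elements in all -/
noncomputable def sub2 (Z n M klo khi k : ℕ) (q : List ℕ × ℕ × ℕ × List ℕ) : Bool :=
  Nat.ble q.1.length k && sub1 Z n M klo khi (Nat.sub k q.1.length) q

/-- the state is in the table; `256 a + b` means entry `b` of the list `a` -/
noncomputable def look (Z M : ℕ) (L : List (List (List ℕ × ℕ))) (w : ℕ) : Fn :=
  fun _ _ _ G1 _ _ _ _ _ _ _ _ _ C _ t k =>
  (L[Nat.div w 256]?).elim false (fun l => (l[Nat.mod w 256]?).elim false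
    (fun p => Nat.beq G1 (g1 p.1) && (Nat.beq C (spread Z M p.2) && k t)))

/-- look up if the next number is not zero, otherwise go on with `F` -/
noncomputable def orLook (Z M : ℕ) (L : List (List (List ℕ × ℕ))) (F : Fn) : Fn :=
  fun e E O G1 G2 G4 G8 H1 H2 H4 U1 V4 UR C i t k =>
  List.rec (motive := fun _ => Bool) false (fun w t _ =>
    bif0 w (F e E O G1 G2 G4 G8 H1 H2 H4 U1 V4 UR C i t k)
      (look Z M L (Nat.sub w 1) e E O G1 G2 G4 G8 H1 H2 H4 U1 V4 UR C i t k)) t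

/-- the levels with look up -/
noncomputable def nodesL (Z M : ℕ) (L : List (List (List ℕ × ℕ))) (CST OE OO MASK klo khi : ℕ) (j : ℕ) :
    Fn × Fn :=
  Nat.rec (motive := fun _ => Fn × Fn) (orLook Z M L node0, nodeS)
  (fun j ih => (orLook Z M L (step Z CST OE OO MASK klo khi (Nat.succ j) ih.1 ih.2), ih.1)) j

/-- the top of the search tree, `k` elements in all -/
noncomputable def topRun (Z n M klo khi : ℕ) (L : List (List (List ℕ × ℕ))) (k i : ℕ) (t : List ℕ) :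
    Bool :=
  start Z n M (nodesL Z M L (comb Z 14 n) (comb Z 28 (Nat.div (Nat.add M 1) 2))
    (comb (Nat.add Z 14) 28 (Nat.div M 2)) (Nat.sub (Nat.shiftLeft 1 (Nat.mul 28 n)) 1) klo khi k).1
    (comb (Nat.add Z 6) 14 M) i t (fun _ => true)

/-- the whole search tree, `k` elements in all -/
noncomputable def fullRun (Z n M klo khi k i : ℕ) (t : List ℕ) : Bool :=
  start Z n M (lev Z n M klo khi 0 node0 nodeS k) (comb (Nat.add Z 6) 14 M) i t (fun _ => true)

end MP61673a.Small
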