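import Mathlib

set_option autoImplicit false

/-!
Sets stored as numbers: bits and digits in base 128.
-/

namespace MP61673a.Small

open Finset

/-- the set `F` stored with the bit `φ a` for `a` -/
def bs (φ : ℕ → ℕ) (F : Finset ℕ) : ℕ := ∑ a ∈ F, 2 ^ φ a

lemma testBit_sum (s : Finset ℕ) (j : ℕ) : (∑ i ∈ s, 2 ^ i).testBit j = true ↔ j ∈ s := by
  rw [← Nat.mem_bitIndices, ← List.mem_toFinset, toFinset_bitIndices_sum_two_pow]

lemma testBit_bs {φ : ℕ → ℕ} {F : Finset ℕ} (h : Set.InjOn φ F) (j : ℕ) :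
    (bs φ F).testBit j = true ↔ ∃ a ∈ F, φ a = j := by
  unfold bs
  rw [← Finset.sum_image (f := fun i => 2 ^ i) (g := φ) h, testBit_sum, mem_image]

lemma eq_bs {φ : ℕ → ℕ} {F : Finset ℕ} (h : Set.InjOn φ F) {X : ℕ}
    (hX : ∀ j, X.testBit j = true ↔ ∃ a ∈ F, φ a = j) : X = bs φ F := by
  apply Nat.eq_of_testBit_eq
  intro j
  rw [Bool.eq_iff_iff, hX, testBit_bs h]

lemma bs_empty (φ : ℕ → ℕ) : bs φ ∅ = 0 := by simp [bs]

lemma bs_eq_zero {φ : ℕ → ℕ} {F : Finset ℕ} : bs φ F = 0 ↔ F = ∅ := by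
  unfold bs
  constructor
  · intro h
    rw [Finset.sum_eq_zero_iff] at h
    rw [Finset.eq_empty_iff_forall_notMem]
    intro a ha
    have := h a ha
    exact absurd this (by positivity)
  · rintro rfl
    simp

lemma one_shl_testBit (i j : ℕ) : (1 <<< i : ℕ).testBit j = true ↔ i = j := by
  rw [Nat.one_shiftLeft, Nat.testBit_two_pow]
  simp

lemma bs_lor {φ : ℕ → ℕ} {F : Finset ℕ} {a : ℕ} (h : Set.InjOn φ (insert a F : Finset ℕ)) :
    bs φ F ||| 1 <<< φ a = bs φ (insert a F) := by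
  apply eq_bs h
  intro j
  rw [Nat.testBit_or, Bool.or_eq_true, one_shl_testBit,
    testBit_bs (h.mono (by intro x hx; simp only [coe_insert, Set.mem_insert_iff]; exact Or.inr hx))]
  constructor
  · rintro (⟨b, hb, rfl⟩ | rfl)
    · exact ⟨b, mem_insert_of_mem hb, rfl⟩
    · exact ⟨a, mem_insert_self a F, rfl⟩
  · rintro ⟨b, hb, rfl⟩
    rcases mem_insert.1 hb with rfl | hb
    · exact Or.inr rfl
    · exact Or.inl ⟨b, hb, rfl⟩

lemma bs_land {φ : ℕ → ℕ} {F : Finset ℕ} (h : Set.InjOn φ F) (N : ℕ) :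
    bs φ F &&& N = bs φ (F.filter (fun a => N.testBit (φ a) = true)) := by
  apply eq_bs (h.mono (by intro x hx; exact (mem_filter.1 hx).1))
  intro j
  rw [Nat.testBit_and, Bool.and_eq_true, testBit_bs h]
  constructor
  · rintro ⟨⟨a, ha, rfl⟩, h2⟩
    exact ⟨a, mem_filter.2 ⟨ha, h2⟩, rfl⟩
  · rintro ⟨a, ha, rfl⟩
    rw [mem_filter] at ha
    exact ⟨⟨a, ha.1, rfl⟩, ha.2⟩

lemma bs_xor_land {φ : ℕ → ℕ} {F : Finset ℕ} (h : Set.InjOn φ F) (N : ℕ) :
    bs φ F ^^^ (bs φ F &&& N) = bs φ (F.filter (fun a => ¬ N.testBit (φ a) = true)) := by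
  apply eq_bs (h.mono (by intro x hx; exact (mem_filter.1 hx).1))
  intro j
  have e : (bs φ F ^^^ (bs φ F &&& N)).testBit j = true ↔
      (bs φ F).testBit j = true ∧ ¬ N.testBit j = true := by
    rw [Nat.testBit_xor, Nat.testBit_and]
    cases (bs φ F).testBit j <;> cases N.testBit j <;> simp
  rw [e, testBit_bs h]
  constructor
  · rintro ⟨⟨a, ha, rfl⟩, h2⟩
    exact ⟨a, mem_filter.2 ⟨ha, h2⟩, rfl⟩
  · rintro ⟨a, ha, rfl⟩
    rw [mem_filter] at ha
    exact ⟨⟨a, ha.1, rfl⟩, ha.2⟩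

lemma bs_xor_one {φ : ℕ → ℕ} {F : Finset ℕ} (h : Set.InjOn φ F) {a : ℕ} (ha : a ∈ F) :
    bs φ F ^^^ 1 <<< φ a = bs φ (F.erase a) := by
  apply eq_bs (h.mono (by intro x hx; exact mem_of_mem_erase hx))
  intro j
  rw [Nat.testBit_xor]
  have h1 := testBit_bs h j
  have h2 := one_shl_testBit (φ a) j
  constructor
  · intro h3
    by_cases h4 : φ a = j
    · subst h4
      rw [h1.2 ⟨a, ha, rfl⟩, h2.2 rfl] at h3
      simp at h3
    · have h5 : ¬ (1 <<< φ a : ℕ).testBit j = true := fun h6 => h4 (h2.1 h6)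
      rw [Bool.not_eq_true] at h5
      rw [h5, Bool.xor_false] at h3
      obtain ⟨b, hb, hb2⟩ := h1.1 h3
      refine ⟨b, mem_erase.2 ⟨?_, hb⟩, hb2⟩
      rintro rfl
      exact h4 hb2
  · rintro ⟨b, hb, hb2⟩
    rw [mem_erase] at hb
    have h4 : ¬ φ a = j := by
      rintro rfl
      exact hb.1 (h hb.2 ha hb2)
    have h5 : ¬ (1 <<< φ a : ℕ).testBit j = true := fun h6 => h4 (h2.1 h6)
    rw [Bool.not_eq_true] at h5
    rw [h5, Bool.xor_false]
    exact h1.2 ⟨b, hb.2, hb2⟩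

/-- number with the digits `f j` -/
def fs (N : ℕ) (f : ℕ → ℕ) : ℕ := ∑ j ∈ range N, f j * 2 ^ (7 * j)

lemma fs_succ (N : ℕ) (f : ℕ → ℕ) : fs (N + 1) f = f 0 + 128 * fs N (fun j => f (j + 1)) := by
  unfold fs
  rw [Finset.sum_range_succ', Finset.mul_sum]
  simp only [mul_zero, pow_zero, mul_one]
  rw [add_comm]
  congr 1
  apply Finset.sum_congr rfl
  intro j _
  rw [show 7 * (j + 1) = 7 * j + 7 by ring, pow_add]
  ring

lemma fs_digit {N : ℕ} {f : ℕ → ℕ} (hf : ∀ j, f j < 128) {j : ℕ} (hj : j < N) :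
    (fs N f >>> (7 * j)) % 128 = f j := by
  induction N generalizing f j with
  | zero => omega
  | succ N ih =>
    rw [fs_succ]
    cases j with
    | zero =>
      have := hf 0
      simp only [mul_zero, Nat.shiftRight_zero]
      omega
    | succ j =>
      have h1 : (f 0 + 128 * fs N (fun j => f (j + 1))) >>> (7 * (j + 1)) =
          fs N (fun j => f (j + 1)) >>> (7 * j) := by
        rw [show 7 * (j + 1) = 7 + 7 * j by ring, Nat.shiftRight_add]
        congr 1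
        rw [Nat.shiftRight_eq_div_pow]
        have := hf 0
        norm_num
        omega
      rw [h1]
      exact ih (f := fun j => f (j + 1)) (fun j => hf (j + 1)) (by omega)

lemma fs_bit {N : ℕ} {f : ℕ → ℕ} (hf : ∀ j, f j < 128) {j : ℕ} (hj : j < N) :
    (fs N f).testBit (7 * j + 6) = true ↔ 64 ≤ f j := by
  rw [← fs_digit hf hj]
  generalize fs N f = X
  rw [show 7 * j + 6 = 7 * j + 6 by rfl, Nat.testBit_eq_decide_div_mod_eq, Nat.shiftRight_eq_div_pow,
    pow_add, ← Nat.div_div_eq_div_mul]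
  generalize X / 2 ^ (7 * j) = Y
  simp only [decide_eq_true_eq]
  norm_num
  omega

lemma fs_add (N : ℕ) (f g : ℕ → ℕ) : fs N f + fs N g = fs N (fun j => f j + g j) := by
  unfold fs
  rw [← Finset.sum_add_distrib]
  apply Finset.sum_congr rfl
  intro j _
  ring

lemma fs_mul (N c : ℕ) (f : ℕ → ℕ) : c * fs N f = fs N (fun j => c * f j) := by
  unfold fs
  rw [Finset.mul_sum]
  apply Finset.sum_congr rfl
  intro j _
  ring

/-- a sum of powers as a number with digits -/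
lemma sum_pow_eq_fs {ι : Type} (I : Finset ι) (κ : ι → ℕ) {N : ℕ} (hN : ∀ i ∈ I, κ i < N) :
    ∑ i ∈ I, 2 ^ (7 * κ i) = fs N (fun j => ∑ i ∈ I, if κ i = j then 1 else 0) := by
  unfold fs
  have h1 : ∀ i ∈ I, 2 ^ (7 * κ i) = ∑ j ∈ range N, (if κ i = j then 1 else 0) * 2 ^ (7 * j) := by
    intro i hi
    have h2 : ∀ j ∈ range N, (if κ i = j then 1 else 0) * 2 ^ (7 * j) =
        if κ i = j then 2 ^ (7 * κ i) else 0 := by
      intro j _
      by_cases h : κ i = j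
      · rw [if_pos h, if_pos h, h, one_mul]
      · rw [if_neg h, if_neg h, zero_mul]
    rw [Finset.sum_congr rfl h2, Finset.sum_ite_eq, if_pos (mem_range.2 (hN i hi))]
  rw [Finset.sum_congr rfl h1, Finset.sum_comm]
  apply Finset.sum_congr rfl
  intro j _
  rw [Finset.sum_mul]

lemma bs_mul_bs (φ ψ : ℕ → ℕ) (F G : Finset ℕ) :
    bs φ F * bs ψ G = ∑ p ∈ F ×ˢ G, 2 ^ (φ p.1 + ψ p.2) := by
  unfold bs
  rw [Finset.sum_mul_sum, Finset.sum_product]
  apply Finset.sum_congr rfl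
  intro x _
  apply Finset.sum_congr rfl
  intro y _
  rw [pow_add]

lemma bs_mod {F : Finset ℕ} (h : F.card < 127) : bs (fun a => 7 * a) F % 127 = F.card := by
  have h1 : bs (fun a => 7 * a) F ≡ F.card [MOD 127] := by
    unfold bs
    rw [Finset.card_eq_sum_ones]
    apply Nat.ModEq.sum
    intro a _
    rw [pow_mul]
    have : (2 ^ 7) ≡ 1 [MOD 127] := by decide
    simpa using this.pow a
  unfold Nat.ModEq at h1
  rw [h1, Nat.mod_eq_of_lt h]

end MP61673a.Small
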