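import Mathlib

set_option autoImplicit false

/-!
Covering by three-term progressions: counting bounds for a subset `S`.
-/

namespace MP61673a.Small

open Finset

/-- the three numbers form an arithmetic progression in some order -/
def T3 (a b x : ℕ) : Prop := x + a = 2 * b ∨ x + b = 2 * a ∨ a + b = 2 * x

instance (a b x : ℕ) : Decidable (T3 a b x) := by unfold T3; infer_instance

lemma T3.comm {a b x : ℕ} (h : T3 a b x) : T3 b a x := by unfold T3 at *; omega
lemma T3.rot {a b x : ℕ} (h : T3 a b x) : T3 a x b := by unfold T3 at *; omega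
lemma T3_self {a x : ℕ} : T3 a a x ↔ x = a := by unfold T3; omega

/-- `x` is an element of `S` or completes two elements of `S` -/
def Covd (S : Finset ℕ) (x : ℕ) : Prop := ∃ a ∈ S, ∃ b ∈ S, T3 a b x

instance (S : Finset ℕ) (x : ℕ) : Decidable (Covd S x) := by unfold Covd; infer_instance

/-- `x` is `c` or completes `c` and an element of `S` -/
def opt (S : Finset ℕ) (c x : ℕ) : Prop := x = c ∨ ∃ a ∈ S, T3 a c x

instance (S : Finset ℕ) (c x : ℕ) : Decidable (opt S c x) := by unfold opt; infer_instance

lemma opt_symm {S : Finset ℕ} {c x : ℕ} (h : opt S c x) : opt S x c := by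
  rcases h with rfl | ⟨a, ha, h⟩
  · exact Or.inl rfl
  · exact Or.inr ⟨a, ha, h.rot⟩

lemma covd_insert {S : Finset ℕ} {c x : ℕ} : Covd (insert c S) x ↔ Covd S x ∨ opt S c x := by
  constructor
  · rintro ⟨a, ha0, b, hb0, h⟩
    rcases mem_insert.1 ha0 with ha | ha
    · rcases mem_insert.1 hb0 with hb | hb
      · rw [ha, hb] at h
        exact Or.inr (Or.inl (T3_self.1 h))
      · rw [ha] at h
        exact Or.inr (Or.inr ⟨b, hb, h.comm⟩)
    · rcases mem_insert.1 hb0 with hb | hb
      · rw [hb] at h
        exact Or.inr (Or.inr ⟨a, ha, h⟩)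
      · exact Or.inl ⟨a, ha, b, hb, h⟩
  · rintro (⟨a, ha, b, hb, h⟩ | rfl | ⟨a, ha, h⟩)
    · exact ⟨a, mem_insert_of_mem ha, b, mem_insert_of_mem hb, h⟩
    · exact ⟨x, mem_insert_self _ _, x, mem_insert_self _ _, T3_self.2 rfl⟩
    · exact ⟨a, mem_insert_of_mem ha, c, mem_insert_self _ _, h⟩

/-- no three elements `a < b < c` with `a + c = 2 b` -/
def Free (A : Finset ℕ) : Prop := ∀ a ∈ A, ∀ b ∈ A, ∀ c ∈ A, a < b → b < c → a + c ≠ 2 * b

lemma Free.eq {A : Finset ℕ} (h : Free A) {a b c : ℕ} (ha : a ∈ A) (hb : b ∈ A) (hc : c ∈ A)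
    (h3 : T3 a b c) : a = b := by
  by_contra hab
  unfold T3 at h3
  rcases h3 with h3 | h3 | h3
  · rcases Nat.lt_or_gt_of_ne hab with h4 | h4
    · exact h a ha b hb c hc h4 (by omega) (by omega)
    · exact h c hc b hb a ha (by omega) h4 (by omega)
  · rcases Nat.lt_or_gt_of_ne hab with h4 | h4
    · exact h c hc a ha b hb (by omega) h4 (by omega)
    · exact h b hb a ha c hc h4 (by omega) (by omega)
  · rcases Nat.lt_or_gt_of_ne hab with h4 | h4
    · exact h a ha c hc b hb (by omega) (by omega) (by omega)
    · exact h b hb c hc a ha (by omega) (by omega) (by omega)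

lemma Free.not_covd {A S : Finset ℕ} (h : Free A) (hS : S ⊆ A) {a : ℕ} (ha : a ∈ A) (ha' : a ∉ S) :
    ¬ Covd S a := by
  rintro ⟨b, hb, c, hc, h3⟩
  have := h.eq (hS hb) (hS hc) ha h3
  subst this
  rw [T3_self] at h3
  subst h3
  exact ha' hb

/-- admissible sets: three-free, `k` elements below `M`, bounds for the number of even elements, all
labels below `n` covered -/
structure Adm (k n M klo khi : ℕ) (A : Finset ℕ) : Prop where
  free : Free A
  lt : ∀ a ∈ A, a < M
  card : A.card = k
  lo : klo ≤ (A.filter (fun a => a % 2 = 0)).card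
  hi : (A.filter (fun a => a % 2 = 0)).card ≤ khi
  cov : ∀ x < n, Covd A x

/-- no set with the property `P` contains `S` and has its other elements in `C` -/
def Ref (P : Finset ℕ → Prop) (S C : Finset ℕ) : Prop :=
  ∀ A, P A → S ⊆ A → (∀ a ∈ A, a ∉ S → a ∈ C) → False

/-- main counting bound -/
theorem count_main {A S : Finset ℕ} (U : Finset ℕ)
    (hU : ∀ x ∈ U, Covd A x ∧ ¬ Covd S x) (γ : ℕ → ℕ)
    (hγ : ∀ b ∈ A \ S, (U.filter (fun x => opt S b x)).card ≤ γ b) :
    U.card ≤ ∑ b ∈ A \ S, γ b + ((A \ S).card * ((A \ S).card - 1) +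
      (((A \ S).filter (fun a => a % 2 = 0)).card.choose 2 +
       ((A \ S).filter (fun a => ¬ a % 2 = 0)).card.choose 2)) := by
  classical
  set B := A \ S with hB
  set Be := B.filter (fun a => a % 2 = 0) with hBe
  set Bo := B.filter (fun a => ¬ a % 2 = 0) with hBo
  have h1 : U ⊆ (B.biUnion (fun b => U.filter (fun x => opt S b x))) ∪
      (B.offDiag.image (fun p : ℕ × ℕ => 2 * p.2 - p.1) ∪
        ((powersetCard 2 Be).image (fun s => (∑ i ∈ s, i) / 2) ∪
         (powersetCard 2 Bo).image (fun s => (∑ i ∈ s, i) / 2))) := by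
    intro x hx
    obtain ⟨⟨a, ha, b, hb, h⟩, h2⟩ := hU x hx
    rw [mem_union]
    by_cases ha' : a ∈ S
    · by_cases hb' : b ∈ S
      · exact absurd ⟨a, ha', b, hb', h⟩ h2
      · left
        exact mem_biUnion.2 ⟨b, mem_sdiff.2 ⟨hb, hb'⟩, mem_filter.2 ⟨hx, Or.inr ⟨a, ha', h⟩⟩⟩
    · have haB : a ∈ B := mem_sdiff.2 ⟨ha, ha'⟩
      by_cases hb' : b ∈ S
      · left
        exact mem_biUnion.2 ⟨a, haB, mem_filter.2 ⟨hx, Or.inr ⟨b, hb', h.comm⟩⟩⟩
      · have hbB : b ∈ B := mem_sdiff.2 ⟨hb, hb'⟩
        by_cases hab : a = b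
        · subst hab
          left
          exact mem_biUnion.2 ⟨a, haB, mem_filter.2 ⟨hx, Or.inl (T3_self.1 h)⟩⟩
        · right
          rw [mem_union, mem_union]
          rcases h with h | h | h
          · left
            exact mem_image.2 ⟨(a, b), mem_offDiag.2 ⟨haB, hbB, hab⟩, by simp only; omega⟩
          · left
            exact mem_image.2 ⟨(b, a), mem_offDiag.2 ⟨hbB, haB, fun h => hab h.symm⟩, by simp only; omega⟩
          · right
            by_cases hpar : a % 2 = 0
            · left
              refine mem_image.2 ⟨{a, b}, ?_, ?_⟩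
              · rw [mem_powersetCard]
                refine ⟨?_, card_pair hab⟩
                intro y hy
                rw [mem_insert, mem_singleton] at hy
                rcases hy with rfl | rfl
                · exact mem_filter.2 ⟨haB, hpar⟩
                · exact mem_filter.2 ⟨hbB, by omega⟩
              · rw [sum_pair hab]
                omega
            · right
              refine mem_image.2 ⟨{a, b}, ?_, ?_⟩
              · rw [mem_powersetCard]
                refine ⟨?_, card_pair hab⟩
                intro y hy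
                rw [mem_insert, mem_singleton] at hy
                rcases hy with rfl | rfl
                · exact mem_filter.2 ⟨haB, hpar⟩
                · exact mem_filter.2 ⟨hbB, by omega⟩
              · rw [sum_pair hab]
                omega
  refine (card_le_card h1).trans ((card_union_le _ _).trans ?_)
  refine add_le_add ?_ ((card_union_le _ _).trans (add_le_add ?_ ((card_union_le _ _).trans
    (add_le_add ?_ ?_))))
  · exact card_biUnion_le.trans (sum_le_sum hγ)
  · refine card_image_le.trans ?_
    rw [offDiag_card, Nat.mul_sub, mul_one]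
  · refine card_image_le.trans ?_
    rw [card_powersetCard]
  · refine card_image_le.trans ?_
    rw [card_powersetCard]

end MP61673a.Small
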