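import Pool.Agent.Mu673.SmallA
import Pool.Agent.Mu673.SmallC

set_option autoImplicit false

/-!
The numerical bounds of `step`, and the parity classes.
-/

namespace MP61673a.Small

open Finset

lemma C2_eq (t : ℕ) : C2 t = t.choose 2 := by
  rw [Nat.choose_two_right]; rfl

lemma two_mul_C2 (t : ℕ) : 2 * C2 t = t * (t - 1) := by
  have h : 2 ∣ t * (t - 1) := by
    rcases Nat.even_or_odd t with h | h
    · exact (even_iff_two_dvd.1 h).mul_right _
    · have : Even (t - 1) := by
        obtain ⟨m, rfl⟩ := h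
        exact ⟨m, by omega⟩
      exact (even_iff_two_dvd.1 this).mul_left _
  exact Nat.mul_div_cancel' h

lemma two_mul_C2_int (t : ℕ) : 2 * (C2 t : ℤ) = t * (t - 1) := by
  have h := two_mul_C2 t
  rcases t with _ | t
  · simp [C2]
  · have h2 : (2 * (C2 (t + 1)) : ℤ) = ((t + 1) * (t + 1 - 1) : ℕ) := by exact_mod_cast h
    rw [h2]
    push_cast
    simp

lemma bb_eq (r Je Jo t : ℕ) :
    bb r Je Jo t = t * Je + (r - t) * Jo + (r * (r - 1) + (C2 t + C2 (r - t))) := rfl

lemma nmax_eq (x y : ℕ) : nmax x y = max x y := by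
  change x + (y - x) = max x y
  omega

lemma bb_le {r lo hi Je Jo t : ℕ} (h1 : lo ≤ t) (h2 : t ≤ hi) (h3 : hi ≤ r) :
    bb r Je Jo t ≤ bnd r lo hi Je Jo := by
  unfold bnd
  rw [nmax_eq, bb_eq, bb_eq, bb_eq]
  obtain ⟨u, rfl⟩ := Nat.exists_eq_add_of_le h1
  obtain ⟨v, rfl⟩ := Nat.exists_eq_add_of_le h2
  obtain ⟨w, rfl⟩ := Nat.exists_eq_add_of_le h3
  have e1 : lo + u + v + w - lo = u + v + w := by omega
  have e2 : lo + u + v + w - (lo + u) = v + w := by omega
  have e3 : lo + u + v + w - (lo + u + v) = w := by omega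
  rw [e1, e2, e3]
  generalize hR : (lo + u + v + w) * (lo + u + v + w - 1) = R
  have k1 := two_mul_C2_int lo
  have k2 := two_mul_C2_int (u + v + w)
  have k3 := two_mul_C2_int (lo + u)
  have k4 := two_mul_C2_int (v + w)
  have k5 := two_mul_C2_int (lo + u + v)
  have k6 := two_mul_C2_int w
  generalize C2 lo = a1 at *
  generalize C2 (u + v + w) = a2 at *
  generalize C2 (lo + u) = a3 at *
  generalize C2 (v + w) = a4 at *
  generalize C2 (lo + u + v) = a5 at *
  generalize C2 w = a6 at *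
  rw [le_max_iff]
  by_cases hc : (Je : ℤ) + lo + lo + u ≤ Jo + (lo + u + v + w)
  · left
    zify
    push_cast at *
    nlinarith
  · right
    push Not at hc
    zify
    push_cast at *
    nlinarith

/-- the weight of a candidate -/
def wt (Je Jo b : ℕ) : ℕ := if b % 2 = 0 then Je else Jo

/-- the bound used in all three tests -/
theorem bound_main {k n M klo khi : ℕ} {A S : Finset ℕ} (hA : Adm k n M klo khi A) (hSA : S ⊆ A)
    {r : ℕ} (hr : S.card + r = k) (U : Finset ℕ)
    (hU : ∀ x ∈ U, x < n ∧ ¬ Covd S x) (γ : ℕ → ℕ)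
    (hγ : ∀ b ∈ A \ S, (U.filter (fun x => opt S b x)).card ≤ γ b) {Je Jo : ℕ}
    (hJ : ∀ b ∈ A \ S, γ b ≤ wt Je Jo b) {B' : Finset ℕ} (hB' : B' ⊆ A \ S) :
    U.card + ∑ b ∈ B', wt Je Jo b ≤ ∑ b ∈ B', γ b +
      bnd r (klo - (S.filter (fun a => a % 2 = 0)).card)
        (r - (r - (khi - (S.filter (fun a => a % 2 = 0)).card))) Je Jo := by
  classical
  have h1 := count_main U (A := A) (S := S) (fun x hx => ⟨hA.cov x (hU x hx).1, (hU x hx).2⟩) γ hγ
  have hcard : (A \ S).card = r := by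
    rw [card_sdiff_of_subset hSA, hA.card]
    omega
  have hev : ((A \ S).filter (fun a => a % 2 = 0)).card + (S.filter (fun a => a % 2 = 0)).card =
      (A.filter (fun a => a % 2 = 0)).card := by
    rw [← card_union_of_disjoint]
    · congr 1
      ext x
      simp only [mem_union, mem_filter, mem_sdiff]
      constructor
      · rintro (⟨⟨h, _⟩, h'⟩ | ⟨h, h'⟩)
        · exact ⟨h, h'⟩
        · exact ⟨hSA h, h'⟩
      · rintro ⟨h, h'⟩
        by_cases hx : x ∈ S
        · exact Or.inr ⟨hx, h'⟩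
        · exact Or.inl ⟨⟨h, hx⟩, h'⟩
    · rw [disjoint_left]
      intro x hx hx'
      rw [mem_filter, mem_sdiff] at hx
      rw [mem_filter] at hx'
      exact hx.1.2 hx'.1
  have hsum : ((A \ S).filter (fun a => a % 2 = 0)).card +
      ((A \ S).filter (fun a => ¬ a % 2 = 0)).card = (A \ S).card :=
    card_filter_add_card_filter_not _
  have hw : ∑ b ∈ A \ S, wt Je Jo b = ((A \ S).filter (fun a => a % 2 = 0)).card * Je +
      ((A \ S).filter (fun a => ¬ a % 2 = 0)).card * Jo := by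
    unfold wt
    rw [sum_ite, sum_const, sum_const, smul_eq_mul, smul_eq_mul]
  have hlo := hA.lo
  have hhi := hA.hi
  set e := (S.filter (fun a => a % 2 = 0)).card with he
  set re := ((A \ S).filter (fun a => a % 2 = 0)).card with hre
  set ro := ((A \ S).filter (fun a => ¬ a % 2 = 0)).card with hro
  have hb : bb r Je Jo re ≤ bnd r (klo - e) (r - (r - (khi - e))) Je Jo := by
    apply bb_le
    · omega
    · omega
    · omega
  rw [bb_eq] at hb
  have ero : r - re = ro := by omega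
  rw [ero, C2_eq, C2_eq] at hb
  rw [hcard] at h1
  have hspl : ∑ b ∈ A \ S, γ b + ∑ b ∈ B', wt Je Jo b ≤ ∑ b ∈ B', γ b + ∑ b ∈ A \ S, wt Je Jo b := by
    rw [← sum_sdiff hB', ← sum_sdiff hB' (f := wt Je Jo)]
    have : ∑ b ∈ (A \ S) \ B', γ b ≤ ∑ b ∈ (A \ S) \ B', wt Je Jo b :=
      sum_le_sum (fun b hb => hJ b (mem_sdiff.1 hb).1)
    omega
  rw [hw] at hspl
  omega

end MP61673a.Small
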