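import Pool.Agent.Mu673.SmallC

set_option autoImplicit false

/-!
Parity classes of a covering set, and the reduction to the search.
-/

namespace MP61673a.Small

open Finset

lemma card_even (n : ℕ) : ((range n).filter (fun x => x % 2 = 0)).card = (n + 1) / 2 := by
  induction n with
  | zero => rfl
  | succ n ih =>
    rw [range_add_one, filter_insert]
    split_ifs with h
    · rw [card_insert_of_notMem (by simp), ih]
      omega
    · rw [ih]
      omega

lemma card_odd (n : ℕ) : ((range n).filter (fun x => ¬ x % 2 = 0)).card = n / 2 := by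
  have h := card_filter_add_card_filter_not (s := range n) (fun x => x % 2 = 0)
  rw [card_even, card_range] at h
  omega

lemma mul_le_sq4 {x y z : ℕ} (h : x + y ≤ z) : x * y ≤ z * z / 4 := by
  rw [Nat.le_div_iff_mul_le (by norm_num)]
  nlinarith [sq_nonneg ((x : ℤ) - y), Nat.mul_le_mul h h, sq_nonneg (x - y : ℤ)]

/-- common part of the two class bounds: labels with the parity `ρ` of elements in `Aρ`; the
midpoints with the same parity come from two elements of `Aρ` or from `X`, `Y` -/
lemma class_bound {A U A1 X Y : Finset ℕ} (hcov : ∀ x ∈ U, Covd A x)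
    (h1 : ∀ x ∈ U, ∀ a ∈ A, (∃ b ∈ A, x + a = 2 * b) → a ∈ A1)
    (h2 : ∀ x ∈ U, ∀ a ∈ A, ∀ b ∈ A, a ≠ b → a + b = 2 * x →
      (a ∈ A1 ∧ b ∈ A1) ∨ (a ∈ X ∧ b ∈ Y) ∨ (b ∈ X ∧ a ∈ Y)) :
    U.card ≤ A1.card * A.card + (A1.card.choose 2 + X.card * Y.card) := by
  classical
  have h3 : U ⊆ ((A1 ×ˢ A).image (fun p : ℕ × ℕ => 2 * p.2 - p.1)) ∪
      ((powersetCard 2 A1).image (fun s => (∑ i ∈ s, i) / 2) ∪
       (X ×ˢ Y).image (fun p : ℕ × ℕ => (p.1 + p.2) / 2)) := by
    intro x hx
    obtain ⟨a, ha, b, hb, h⟩ := hcov x hx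
    rw [mem_union, mem_union]
    rcases h with h | h | h
    · left
      exact mem_image.2 ⟨(a, b), mem_product.2 ⟨h1 x hx a ha ⟨b, hb, h⟩, hb⟩, by simp only; omega⟩
    · left
      exact mem_image.2 ⟨(b, a), mem_product.2 ⟨h1 x hx b hb ⟨a, ha, h⟩, ha⟩, by simp only; omega⟩
    · by_cases hab : a = b
      · subst hab
        left
        exact mem_image.2 ⟨(a, a), mem_product.2 ⟨h1 x hx a ha ⟨a, ha, by omega⟩, ha⟩, by simp only; omega⟩
      · right
        rcases h2 x hx a ha b hb hab h with ⟨k1, k2⟩ | ⟨k1, k2⟩ | ⟨k1, k2⟩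
        · left
          refine mem_image.2 ⟨{a, b}, ?_, ?_⟩
          · rw [mem_powersetCard]
            refine ⟨?_, card_pair hab⟩
            intro y hy
            rw [mem_insert, mem_singleton] at hy
            rcases hy with rfl | rfl
            · exact k1
            · exact k2
          · rw [sum_pair hab]
            omega
        · right
          exact mem_image.2 ⟨(a, b), mem_product.2 ⟨k1, k2⟩, by simp only; omega⟩
        · right
          exact mem_image.2 ⟨(b, a), mem_product.2 ⟨k1, k2⟩, by simp only; omega⟩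
  refine (card_le_card h3).trans ((card_union_le _ _).trans (add_le_add ?_ ((card_union_le _ _).trans
    (add_le_add ?_ ?_))))
  · exact card_image_le.trans (by rw [card_product])
  · exact card_image_le.trans (by rw [card_powersetCard])
  · exact card_image_le.trans (by rw [card_product])

lemma card_two_classes {A : Finset ℕ} {p q r : ℕ → Prop} [DecidablePred p] [DecidablePred q]
    [DecidablePred r] (h1 : ∀ a, p a → r a) (h2 : ∀ a, q a → r a) (h3 : ∀ a, p a → ¬ q a) :
    (A.filter p).card + (A.filter q).card ≤ (A.filter r).card := by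
  classical
  rw [← card_union_of_disjoint]
  · apply card_le_card
    intro x hx
    rw [mem_union, mem_filter, mem_filter] at hx
    rw [mem_filter]
    rcases hx with hx | hx
    · exact ⟨hx.1, h1 x hx.2⟩
    · exact ⟨hx.1, h2 x hx.2⟩
  · rw [disjoint_left]
    intro x hx hx'
    exact h3 x (mem_filter.1 hx).2 (mem_filter.1 hx').2

theorem class_even {A : Finset ℕ} {n : ℕ} (hcov : ∀ x < n, Covd A x) :
    (n + 1) / 2 ≤ (A.filter (fun a => a % 2 = 0)).card * A.card +
      ((A.filter (fun a => a % 2 = 0)).card.choose 2 +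
        (A.filter (fun a => ¬ a % 2 = 0)).card * (A.filter (fun a => ¬ a % 2 = 0)).card / 4) := by
  rw [← card_even n]
  have h := class_bound (A := A) (U := (range n).filter (fun x => x % 2 = 0))
    (A1 := A.filter (fun a => a % 2 = 0)) (X := A.filter (fun a => a % 4 = 1))
    (Y := A.filter (fun a => a % 4 = 3))
    (fun x hx => hcov x (mem_range.1 (mem_filter.1 hx).1))
    (fun x hx a ha ⟨b, _, hb⟩ => by
      have := (mem_filter.1 hx).2
      rw [mem_filter]
      exact ⟨ha, by omega⟩)
    (fun x hx a ha b hb _ hm => by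
      have := (mem_filter.1 hx).2
      simp only [mem_filter]
      have : (a % 2 = 0 ∧ b % 2 = 0) ∨ (a % 4 = 1 ∧ b % 4 = 3) ∨ (b % 4 = 1 ∧ a % 4 = 3) := by omega
      tauto)
  refine h.trans (Nat.add_le_add_left (Nat.add_le_add_left (mul_le_sq4 ?_) _) _)
  exact card_two_classes (fun a h => by omega) (fun a h => by omega) (fun a h => by omega)

theorem class_odd {A : Finset ℕ} {n : ℕ} (hcov : ∀ x < n, Covd A x) :
    n / 2 ≤ (A.filter (fun a => ¬ a % 2 = 0)).card * A.card +
      ((A.filter (fun a => ¬ a % 2 = 0)).card.choose 2 +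
        (A.filter (fun a => a % 2 = 0)).card * (A.filter (fun a => a % 2 = 0)).card / 4) := by
  rw [← card_odd n]
  have h := class_bound (A := A) (U := (range n).filter (fun x => ¬ x % 2 = 0))
    (A1 := A.filter (fun a => ¬ a % 2 = 0)) (X := A.filter (fun a => a % 4 = 0))
    (Y := A.filter (fun a => a % 4 = 2))
    (fun x hx => hcov x (mem_range.1 (mem_filter.1 hx).1))
    (fun x hx a ha ⟨b, _, hb⟩ => by
      have := (mem_filter.1 hx).2
      rw [mem_filter]
      exact ⟨ha, by omega⟩)
    (fun x hx a ha b hb _ hm => by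
      have := (mem_filter.1 hx).2
      simp only [mem_filter]
      have : (¬ a % 2 = 0 ∧ ¬ b % 2 = 0) ∨ (a % 4 = 0 ∧ b % 4 = 2) ∨ (b % 4 = 0 ∧ a % 4 = 2) := by omega
      tauto)
  refine h.trans (Nat.add_le_add_left (Nat.add_le_add_left (mul_le_sq4 ?_) _) _)
  exact card_two_classes (fun a h => by omega) (fun a h => by omega) (fun a h => by omega)

/-- every pair gives at most three labels, with parity -/
theorem total_bound {A : Finset ℕ} {N : ℕ} (hcov : ∀ x < N, Covd A x) :
    N ≤ A.card * A.card + ((A.filter (fun a => a % 2 = 0)).card.choose 2 +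
      (A.filter (fun a => ¬ a % 2 = 0)).card.choose 2) := by
  have h := count_main (A := A) (S := ∅) (range N)
    (fun x hx => ⟨hcov x (mem_range.1 hx), by rintro ⟨a, ha, _⟩; simp at ha⟩) (fun _ => 1)
    (fun b _ => by
      have : ((range N).filter (fun x => opt ∅ b x)) ⊆ {b} := by
        intro x hx
        rcases (mem_filter.1 hx).2 with h | ⟨a, ha, _⟩
        · exact mem_singleton.2 h
        · simp at ha
      exact (card_le_card this).trans (by simp))
  rw [card_range, sdiff_empty, sum_const, smul_eq_mul, mul_one] at h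
  have : A.card + A.card * (A.card - 1) = A.card * A.card := by
    rcases A.card with _ | m
    · rfl
    · simp only [Nat.add_sub_cancel]
      ring
  omega

/-- the classes outside `[klo, khi]` are impossible, and `M` is large enough -/
def Cls (k n M klo khi : ℕ) : Prop :=
  ∀ ke < k + 1, (klo ≤ ke ∧ ke ≤ khi ∧ k * k + (ke.choose 2 + (k - ke).choose 2) ≤ M) ∨
    ke * k + (ke.choose 2 + (k - ke) * (k - ke) / 4) < (n + 1) / 2 ∨
    (k - ke) * k + ((k - ke).choose 2 + ke * ke / 4) < n / 2

instance (k n M klo khi : ℕ) : Decidable (Cls k n M klo khi) := by unfold Cls; infer_instance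

theorem no_cover {k M klo khi : ℕ} (hcls : Cls k (k * k + 1) M klo khi)
    (href : Ref (Adm k (k * k + 1) M klo khi) ∅ (range M)) {N : ℕ} {A : Finset ℕ} (hfree : Free A)
    (hlt : ∀ a ∈ A, a < N) (hcard : A.card = k) (hcov : ∀ x < N, Covd A x) : N ≤ k * k := by
  by_contra hN
  push Not at hN
  have hcov' : ∀ x < k * k + 1, Covd A x := fun x hx => hcov x (by omega)
  have h1 := class_even hcov'
  have h2 := class_odd hcov'
  have h3 := total_bound hcov
  have hsum : (A.filter (fun a => a % 2 = 0)).card + (A.filter (fun a => ¬ a % 2 = 0)).card = A.card :=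
    card_filter_add_card_filter_not _
  rw [hcard] at h1 h2 h3 hsum
  have ho : (A.filter (fun a => ¬ a % 2 = 0)).card = k - (A.filter (fun a => a % 2 = 0)).card := by
    omega
  rw [ho] at h1 h2 h3
  have hke : (A.filter (fun a => a % 2 = 0)).card < k + 1 := by omega
  rcases hcls _ hke with ⟨k1, k2, k3⟩ | k1 | k1
  · refine href A ⟨hfree, fun a ha => ?_, hcard, k1, k2, hcov'⟩ (empty_subset _) (fun a ha _ => ?_)
    · have := hlt a ha
      omega
    · have := hlt a ha
      rw [mem_range]
      omega
  · omega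
  · omega

end MP61673a.Small
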