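import Pool.Agent.Mu673.SmallA
import Pool.Agent.Mu673.SmallB
import Pool.Agent.Mu673.SmallC

set_option autoImplicit false

/-!
The numbers of a state and their changes.
-/

namespace MP61673a.Small

open Finset

lemma lor' (a b : ℕ) : Nat.lor a b = a ||| b := rfl
lemma land' (a b : ℕ) : Nat.land a b = a &&& b := rfl
lemma xor' (a b : ℕ) : Nat.xor a b = a ^^^ b := rfl
lemma shl' (a b : ℕ) : Nat.shiftLeft a b = a <<< b := rfl
lemma shr' (a b : ℕ) : Nat.shiftRight a b = a >>> b := rfl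
lemma add' (a b : ℕ) : Nat.add a b = a + b := rfl
lemma sub' (a b : ℕ) : Nat.sub a b = a - b := rfl
lemma mul' (a b : ℕ) : Nat.mul a b = a * b := rfl
lemma div' (a b : ℕ) : Nat.div a b = a / b := rfl
lemma mod' (a b : ℕ) : Nat.mod a b = a % b := rfl

lemma nif_eq (x a b : ℕ) : nif x a b = if x = 0 then a else b := by
  cases x
  · rfl
  · simp [nif]

lemma bif0_eq (x : ℕ) (a b : Bool) : bif0 x a b = if x = 0 then a else b := by
  cases x
  · rfl
  · simp [bif0]

/-- labels not covered by `S` -/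
def U (n : ℕ) (S : Finset ℕ) : Finset ℕ := (range n).filter (fun x => ¬ Covd S x)

lemma mem_U {n : ℕ} {S : Finset ℕ} {x : ℕ} : x ∈ U n S ↔ x < n ∧ ¬ Covd S x := by
  unfold U; rw [mem_filter, mem_range]

lemma U_insert (n : ℕ) (S : Finset ℕ) (c : ℕ) :
    U n (insert c S) = (U n S).filter (fun x => ¬ opt S c x) := by
  ext x
  rw [mem_filter, mem_U, mem_U, covd_insert]
  tauto

lemma inj_mul {d : ℕ} (hd : 0 < d) (F : Finset ℕ) : Set.InjOn (fun a => d * a) F :=
  fun _ _ _ _ h => Nat.eq_of_mul_eq_mul_left hd h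

lemma inj_sub {d Z : ℕ} (hd : 0 < d) {F : Finset ℕ} (hF : ∀ a ∈ F, d * a ≤ Z) :
    Set.InjOn (fun a => Z - d * a) F := by
  intro a ha b hb h
  have h1 := hF a ha
  have h2 := hF b hb
  simp only at h
  exact Nat.eq_of_mul_eq_mul_left hd (by omega)

/-- position of a candidate -/
def ψ (Z c : ℕ) : ℕ := Z + 6 + 14 * c

lemma inj_ψ (Z : ℕ) (F : Finset ℕ) : Set.InjOn (ψ Z) F := by
  intro a _ b _ h
  unfold ψ at h
  omega

/-- the even elements, halved -/
def nE (S : Finset ℕ) : ℕ := bs (fun a => 7 * (a / 2)) (S.filter (fun a => a % 2 = 0))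
/-- the odd elements, halved -/
def nO (S : Finset ℕ) : ℕ := bs (fun a => 7 * ((a + 1) / 2)) (S.filter (fun a => ¬ a % 2 = 0))

lemma inj_E (S : Finset ℕ) :
    Set.InjOn (fun a => 7 * (a / 2)) ((S.filter (fun a => a % 2 = 0) : Finset ℕ) : Set ℕ) := by
  intro a ha b hb h
  have h1 := (mem_filter.1 (mem_coe.1 ha)).2
  have h2 := (mem_filter.1 (mem_coe.1 hb)).2
  simp only at h
  omega

lemma inj_O (S : Finset ℕ) :
    Set.InjOn (fun a => 7 * ((a + 1) / 2)) ((S.filter (fun a => ¬ a % 2 = 0) : Finset ℕ) : Set ℕ) := by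
  intro a ha b hb h
  have h1 := (mem_filter.1 (mem_coe.1 ha)).2
  have h2 := (mem_filter.1 (mem_coe.1 hb)).2
  simp only at h
  omega

lemma up_E {S : Finset ℕ} {c : ℕ} (hc : c % 2 = 0) :
    nE S ||| 1 <<< (7 * (c / 2)) = nE (insert c S) := by
  unfold nE
  rw [filter_insert, if_pos hc]
  have h := inj_E (insert c S)
  rw [filter_insert, if_pos hc] at h
  exact bs_lor (φ := fun a => 7 * (a / 2)) h

lemma up_E' {S : Finset ℕ} {c : ℕ} (hc : ¬ c % 2 = 0) : nE S = nE (insert c S) := by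
  unfold nE
  rw [filter_insert, if_neg hc]

lemma up_O {S : Finset ℕ} {c : ℕ} (hc : ¬ c % 2 = 0) :
    nO S ||| 1 <<< (7 * (c / 2) + 7) = nO (insert c S) := by
  unfold nO
  rw [filter_insert, if_pos hc]
  have h := inj_O (insert c S)
  rw [filter_insert, if_pos hc] at h
  rw [show 7 * (c / 2) + 7 = 7 * ((c + 1) / 2) by omega]
  exact bs_lor (φ := fun a => 7 * ((a + 1) / 2)) h

lemma up_O' {S : Finset ℕ} {c : ℕ} (hc : c % 2 = 0) : nO S = nO (insert c S) := by
  unfold nO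
  rw [filter_insert, if_neg (not_not.2 hc)]

lemma up_G {d : ℕ} (hd : 0 < d) (S : Finset ℕ) (c : ℕ) :
    bs (fun a => d * a) S ||| 1 <<< (d * c) = bs (fun a => d * a) (insert c S) :=
  bs_lor (φ := fun a => d * a) (inj_mul hd _)

lemma up_H {d Z : ℕ} (hd : 0 < d) {S : Finset ℕ} {c : ℕ} (hS : ∀ a ∈ insert c S, d * a ≤ Z) :
    bs (fun a => Z - d * a) S ||| 1 <<< (Z - d * c) = bs (fun a => Z - d * a) (insert c S) :=
  bs_lor (φ := fun a => Z - d * a) (inj_sub hd hS)

lemma filter_iff {F : Finset ℕ} {p q : ℕ → Prop} [DecidablePred p] [DecidablePred q]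
    (h : ∀ x ∈ F, p x ↔ q x) : F.filter p = F.filter q := by
  ext x
  rw [mem_filter, mem_filter]
  constructor
  · rintro ⟨h1, h2⟩
    exact ⟨h1, (h x h1).1 h2⟩
  · rintro ⟨h1, h2⟩
    exact ⟨h1, (h x h1).2 h2⟩

lemma bit_nif {S : Finset ℕ} {c x : ℕ} :
    ((nif (c % 2) (nE S) (nO S)) <<< (7 * (c / 2))).testBit (7 * x) = true ↔
      ∃ a ∈ S, a + c = 2 * x := by
  rw [nif_eq, Nat.testBit_shiftLeft, Bool.and_eq_true, decide_eq_true_eq]
  split_ifs with hc
  · unfold nE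
    rw [testBit_bs (inj_E S)]
    constructor
    · rintro ⟨h1, a, ha, h2⟩
      rw [mem_filter] at ha
      exact ⟨a, ha.1, by omega⟩
    · rintro ⟨a, ha, h⟩
      exact ⟨by omega, a, mem_filter.2 ⟨ha, by omega⟩, by omega⟩
  · unfold nO
    rw [testBit_bs (inj_O S)]
    constructor
    · rintro ⟨h1, a, ha, h2⟩
      rw [mem_filter] at ha
      exact ⟨a, ha.1, by omega⟩
    · rintro ⟨a, ha, h⟩
      exact ⟨by omega, a, mem_filter.2 ⟨ha, by omega⟩, by omega⟩

lemma opt_iff {S : Finset ℕ} {c x : ℕ} {p1 p2 p3 p4 : Prop} (h1 : p1 ↔ x = c)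
    (h2 : p2 ↔ ∃ a ∈ S, x + a = 2 * c) (h3 : p3 ↔ ∃ a ∈ S, x + c = 2 * a)
    (h4 : p4 ↔ ∃ a ∈ S, a + c = 2 * x) : ((p1 ∨ p2) ∨ (p3 ∨ p4)) ↔ opt S c x := by
  rw [h1, h2, h3, h4]
  unfold opt T3
  constructor
  · rintro ((h | ⟨a, ha, h⟩) | (⟨a, ha, h⟩ | ⟨a, ha, h⟩))
    · exact Or.inl h
    · exact Or.inr ⟨a, ha, Or.inl h⟩
    · exact Or.inr ⟨a, ha, Or.inr (Or.inl h)⟩
    · exact Or.inr ⟨a, ha, Or.inr (Or.inr h)⟩
  · rintro (h | ⟨a, ha, h | h | h⟩)
    · exact Or.inl (Or.inl h)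
    · exact Or.inl (Or.inr ⟨a, ha, h⟩)
    · exact Or.inr (Or.inl ⟨a, ha, h⟩)
    · exact Or.inr (Or.inr ⟨a, ha, h⟩)

/-- the completions of `c` with stride 7 -/
lemma bit_U1 {Z M : ℕ} (hZ : 28 * M ≤ Z) {S : Finset ℕ} (hS : ∀ a ∈ S, a < M) {c x : ℕ} (hc : c < M) :
    ((((1 <<< (7 * c)) ||| ((bs (fun a => Z - 7 * a) S <<< (14 * c)) >>> Z)) |||
      ((bs (fun a => 14 * a) S >>> (7 * c)) ||| ((nif (c % 2) (nE S) (nO S)) <<< (7 * (c / 2)))) : ℕ)).testBit
      (7 * x) = true ↔ opt S c x := by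
  rw [Nat.testBit_or, Nat.testBit_or, Nat.testBit_or, Bool.or_eq_true, Bool.or_eq_true, Bool.or_eq_true]
  apply opt_iff
  · rw [one_shl_testBit]
    omega
  · rw [Nat.testBit_shiftRight, Nat.testBit_shiftLeft, Bool.and_eq_true, decide_eq_true_eq,
      testBit_bs (inj_sub (by norm_num) (fun a ha => by have := hS a ha; omega))]
    constructor
    · rintro ⟨h1, a, ha, h2⟩
      have := hS a ha
      exact ⟨a, ha, by omega⟩
    · rintro ⟨a, ha, h⟩
      have := hS a ha
      exact ⟨by omega, a, ha, by omega⟩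
  · rw [Nat.testBit_shiftRight, testBit_bs (inj_mul (by norm_num) _)]
    constructor
    · rintro ⟨a, ha, h2⟩
      exact ⟨a, ha, by omega⟩
    · rintro ⟨a, ha, h⟩
      exact ⟨a, ha, by omega⟩
  · exact bit_nif

/-- the completions of `c` with stride 28 -/
lemma bit_V4 {Z M : ℕ} (hZ : 28 * M ≤ Z) {S : Finset ℕ} (hS : ∀ a ∈ S, a < M) {c x : ℕ} :
    ((((1 <<< (28 * c)) ||| ((bs (fun a => Z - 28 * a) S <<< (56 * c)) >>> Z)) |||
      ((bs (fun a => 56 * a) S >>> (28 * c)) ||| (bs (fun a => 14 * a) S <<< (14 * c))) : ℕ)).testBit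
      (28 * x) = true ↔ opt S c x := by
  rw [Nat.testBit_or, Nat.testBit_or, Nat.testBit_or, Bool.or_eq_true, Bool.or_eq_true, Bool.or_eq_true]
  apply opt_iff
  · rw [one_shl_testBit]
    omega
  · rw [Nat.testBit_shiftRight, Nat.testBit_shiftLeft, Bool.and_eq_true, decide_eq_true_eq,
      testBit_bs (inj_sub (by norm_num) (fun a ha => by have := hS a ha; omega))]
    constructor
    · rintro ⟨h1, a, ha, h2⟩
      have := hS a ha
      exact ⟨a, ha, by omega⟩
    · rintro ⟨a, ha, h⟩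
      have := hS a ha
      exact ⟨by omega, a, ha, by omega⟩
  · rw [Nat.testBit_shiftRight, testBit_bs (inj_mul (by norm_num) _)]
    constructor
    · rintro ⟨a, ha, h2⟩
      exact ⟨a, ha, by omega⟩
    · rintro ⟨a, ha, h⟩
      exact ⟨a, ha, by omega⟩
  · rw [Nat.testBit_shiftLeft, Bool.and_eq_true, decide_eq_true_eq, testBit_bs (inj_mul (by norm_num) _)]
    constructor
    · rintro ⟨h1, a, ha, h2⟩
      exact ⟨a, ha, by omega⟩
    · rintro ⟨a, ha, h⟩
      exact ⟨by omega, a, ha, by omega⟩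

/-- the completions of `c` with stride `-14` -/
lemma bit_UR {Z M : ℕ} (hZ : 28 * M ≤ Z) {S : Finset ℕ} (hS : ∀ a ∈ S, a < M) {c x : ℕ} (hc : c < M)
    (hx : x < M) :
    ((((1 <<< (Z - 14 * c)) ||| ((bs (fun a => 14 * a) S <<< Z) >>> (28 * c))) |||
      ((bs (fun a => Z - 28 * a) S <<< (14 * c)) ||| (bs (fun a => Z - 7 * a) S >>> (7 * c))) : ℕ)).testBit
      (Z - 14 * x) = true ↔ opt S c x := by
  rw [Nat.testBit_or, Nat.testBit_or, Nat.testBit_or, Bool.or_eq_true, Bool.or_eq_true, Bool.or_eq_true]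
  apply opt_iff
  · rw [one_shl_testBit]
    omega
  · rw [Nat.testBit_shiftRight, Nat.testBit_shiftLeft, Bool.and_eq_true, decide_eq_true_eq,
      testBit_bs (inj_mul (by norm_num) _)]
    constructor
    · rintro ⟨h1, a, ha, h2⟩
      have := hS a ha
      exact ⟨a, ha, by omega⟩
    · rintro ⟨a, ha, h⟩
      have := hS a ha
      exact ⟨by omega, a, ha, by omega⟩
  · rw [Nat.testBit_shiftLeft, Bool.and_eq_true, decide_eq_true_eq,
      testBit_bs (inj_sub (by norm_num) (fun a ha => by have := hS a ha; omega))]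
    constructor
    · rintro ⟨h1, a, ha, h2⟩
      have := hS a ha
      exact ⟨a, ha, by omega⟩
    · rintro ⟨a, ha, h⟩
      have := hS a ha
      exact ⟨by omega, a, ha, by omega⟩
  · rw [Nat.testBit_shiftRight,
      testBit_bs (inj_sub (by norm_num) (fun a ha => by have := hS a ha; omega))]
    constructor
    · rintro ⟨a, ha, h2⟩
      have := hS a ha
      exact ⟨a, ha, by omega⟩
    · rintro ⟨a, ha, h⟩
      have := hS a ha
      exact ⟨a, ha, by omega⟩

/-- the completions of `c` at the positions of the candidates -/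
lemma bit_C {Z M : ℕ} (hZ : 28 * M ≤ Z) {S : Finset ℕ} (hS : ∀ a ∈ S, a < M) {c x : ℕ} (hc : c < M) :
    ((((1 <<< (Z + 6 + 14 * c)) ||| (bs (fun a => Z - 14 * a) S <<< (28 * c + 6))) |||
      ((bs (fun a => 28 * a) S <<< (Z + 6 - 14 * c)) ||| (bs (fun a => 7 * a) S <<< (Z + 6 + 7 * c))) : ℕ)).testBit
      (ψ Z x) = true ↔ opt S c x := by
  unfold ψ
  rw [Nat.testBit_or, Nat.testBit_or, Nat.testBit_or, Bool.or_eq_true, Bool.or_eq_true, Bool.or_eq_true]
  apply opt_iff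
  · rw [one_shl_testBit]
    omega
  · rw [Nat.testBit_shiftLeft, Bool.and_eq_true, decide_eq_true_eq,
      testBit_bs (inj_sub (by norm_num) (fun a ha => by have := hS a ha; omega))]
    constructor
    · rintro ⟨h1, a, ha, h2⟩
      have := hS a ha
      exact ⟨a, ha, by omega⟩
    · rintro ⟨a, ha, h⟩
      have := hS a ha
      exact ⟨by omega, a, ha, by omega⟩
  · rw [Nat.testBit_shiftLeft, Bool.and_eq_true, decide_eq_true_eq, testBit_bs (inj_mul (by norm_num) _)]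
    constructor
    · rintro ⟨h1, a, ha, h2⟩
      exact ⟨a, ha, by omega⟩
    · rintro ⟨a, ha, h⟩
      exact ⟨by omega, a, ha, by omega⟩
  · rw [Nat.testBit_shiftLeft, Bool.and_eq_true, decide_eq_true_eq, testBit_bs (inj_mul (by norm_num) _)]
    constructor
    · rintro ⟨h1, a, ha, h2⟩
      exact ⟨a, ha, by omega⟩
    · rintro ⟨a, ha, h⟩
      exact ⟨by omega, a, ha, by omega⟩

/-- apply `F` to the numbers of the state `S`, `C` -/
def ap (F : Fn) (Z n M : ℕ) (S C : Finset ℕ) (i : ℕ) (t : List ℕ) (k : Kt) : Bool :=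
  F (S.filter (fun a => a % 2 = 0)).card (nE S) (nO S) (bs (fun a => 7 * a) S) (bs (fun a => 14 * a) S)
    (bs (fun a => 28 * a) S) (bs (fun a => 56 * a) S) (bs (fun a => Z - 7 * a) S)
    (bs (fun a => Z - 14 * a) S) (bs (fun a => Z - 28 * a) S) (bs (fun a => 7 * a) (U n S))
    (bs (fun a => 28 * a) (U M S)) (bs (fun a => Z - 14 * a) (U n S)) (bs (ψ Z) C) i t k

/-- adding an element -/
theorem addc_eq (F : Fn) {Z n M : ℕ} (hZ : 28 * M ≤ Z) (hn : n ≤ M) {S C : Finset ℕ}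
    (hS : ∀ a ∈ S, a < M) {c : ℕ} (hc : c < M) (hcS : c ∉ S) (i : ℕ) (t : List ℕ) (k : Kt) :
    addc Z F (S.filter (fun a => a % 2 = 0)).card (nE S) (nO S) (bs (fun a => 7 * a) S)
      (bs (fun a => 14 * a) S) (bs (fun a => 28 * a) S) (bs (fun a => 56 * a) S)
      (bs (fun a => Z - 7 * a) S) (bs (fun a => Z - 14 * a) S) (bs (fun a => Z - 28 * a) S)
      (bs (fun a => 7 * a) (U n S)) (bs (fun a => 28 * a) (U M S)) (bs (fun a => Z - 14 * a) (U n S))
      (bs (ψ Z) C) c i t k = ap F Z n M (insert c S) (C.filter (fun x => ¬ opt S c x)) i t k := by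
  have hS' : ∀ a ∈ insert c S, a < M := by
    intro a ha
    rcases mem_insert.1 ha with rfl | ha
    · exact hc
    · exact hS a ha
  have e1 := up_G (d := 7) (by norm_num) S c
  have e2 := up_G (d := 14) (by norm_num) S c
  have e3 := up_G (d := 28) (by norm_num) S c
  have e4 := up_G (d := 56) (by norm_num) S c
  have e5 := up_H (d := 7) (Z := Z) (by norm_num) (S := S) (c := c)
    (fun a ha => by have := hS' a ha; omega)
  have e6 := up_H (d := 14) (Z := Z) (by norm_num) (S := S) (c := c)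
    (fun a ha => by have := hS' a ha; omega)
  have e7 := up_H (d := 28) (Z := Z) (by norm_num) (S := S) (c := c)
    (fun a ha => by have := hS' a ha; omega)
  have f1 := bs_xor_land (φ := fun a => 7 * a) (F := U n S) (inj_mul (by norm_num) _)
    (((1 <<< (7 * c)) ||| ((bs (fun a => Z - 7 * a) S <<< (14 * c)) >>> Z)) |||
      ((bs (fun a => 14 * a) S >>> (7 * c)) ||| ((nif (c % 2) (nE S) (nO S)) <<< (7 * (c / 2)))))
  rw [filter_iff (fun x _ => not_congr (bit_U1 hZ hS hc)), ← U_insert] at f1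
  have f2 := bs_xor_land (φ := fun a => 28 * a) (F := U M S) (inj_mul (by norm_num) _)
    (((1 <<< (28 * c)) ||| ((bs (fun a => Z - 28 * a) S <<< (56 * c)) >>> Z)) |||
      ((bs (fun a => 56 * a) S >>> (28 * c)) ||| (bs (fun a => 14 * a) S <<< (14 * c))))
  rw [filter_iff (fun x _ => not_congr (bit_V4 hZ hS)), ← U_insert] at f2
  have f3 := bs_xor_land (φ := fun a => Z - 14 * a) (F := U n S)
    (inj_sub (by norm_num) (fun a ha => by have := (mem_U.1 ha).1; omega))
    (((1 <<< (Z - 14 * c)) ||| ((bs (fun a => 14 * a) S <<< Z) >>> (28 * c))) |||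
      ((bs (fun a => Z - 28 * a) S <<< (14 * c)) ||| (bs (fun a => Z - 7 * a) S >>> (7 * c))))
  rw [filter_iff (fun x hx => not_congr (bit_UR hZ hS hc
    (lt_of_lt_of_le (mem_U.1 hx).1 hn))), ← U_insert] at f3
  have f4 := bs_xor_land (φ := ψ Z) (F := C) (inj_ψ Z C)
    (((1 <<< (Z + 6 + 14 * c)) ||| (bs (fun a => Z - 14 * a) S <<< (28 * c + 6))) |||
      ((bs (fun a => 28 * a) S <<< (Z + 6 - 14 * c)) ||| (bs (fun a => 7 * a) S <<< (Z + 6 + 7 * c))))
  rw [filter_iff (fun x _ => not_congr (bit_C hZ hS hc))] at f4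
  have g : (1 <<< (14 * c)) <<< (Z + 6) = 1 <<< (Z + 6 + 14 * c) := by
    rw [← Nat.shiftLeft_add, add_comm]
  unfold addc ap
  simp only [lor', land', xor', shl', shr', add', sub', mul', div', mod', g]
  rw [e1, e2, e3, e4, e5, e6, e7, f1, f2, f3, f4]
  by_cases hp : c % 2 = 0
  · rw [hp]
    simp only [up_E hp, ← up_O' (S := S) hp, Nat.succ_eq_add_one]
    rw [filter_insert, if_pos hp, card_insert_of_notMem (by
      intro h
      exact hcS (mem_filter.1 h).1)]
    rfl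
  · have hp1 : c % 2 = 1 := by omega
    rw [hp1]
    simp only [up_O hp, ← up_E' (S := S) hp]
    rw [filter_insert, if_neg hp]
    rfl

end MP61673a.Small
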