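import Pool.Agent.Mu673.SmallD
import Pool.Agent.Mu673.SmallF

set_option autoImplicit false

/-!
The number `T`: its digits in base 128 count the labels completed by a candidate.
-/

namespace MP61673a.Small

open Finset

/-- indicator -/
def ind (p : Prop) [Decidable p] : ℕ := if p then 1 else 0

/-- the digit `j` of `T` -/
def cntf (K n : ℕ) (S : Finset ℕ) (j : ℕ) : ℕ :=
  ((∑ p ∈ U n S ×ˢ S, if 4 * p.1 + (K - 2 * p.2) = j then 1 else 0) +
   (∑ p ∈ S ×ˢ U n S, if 4 * p.1 + (K - 2 * p.2) = j then 1 else 0)) +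
  ((∑ p ∈ U n S ×ˢ S, if K + p.1 + p.2 = j then 1 else 0) +
   (∑ c ∈ range n, if K + 2 * c = j then 1 else 0))

lemma comb_eq (a d N : ℕ) : comb a d N = ∑ j ∈ range N, 2 ^ (a + d * j) := by
  induction N with
  | zero => rfl
  | succ N ih =>
    rw [sum_range_succ, ← ih, ← Nat.one_shiftLeft]
    rfl

lemma mask_bit (m j : ℕ) : ((1 <<< m : ℕ) - 1).testBit j = decide (j < m) := by
  rw [Nat.one_shiftLeft]
  exact Nat.testBit_two_pow_sub_one m j

lemma U_mask {n M : ℕ} (hn : n ≤ M) (S : Finset ℕ) :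
    bs (fun a => 28 * a) (U M S) &&& ((1 <<< (28 * n) : ℕ) - 1) = bs (fun a => 28 * a) (U n S) := by
  rw [bs_land (inj_mul (by norm_num) _)]
  congr 1
  ext x
  rw [mem_filter, mem_U, mem_U, mask_bit, decide_eq_true_eq]
  constructor
  · rintro ⟨h1, h2⟩
    exact ⟨by omega, h1.2⟩
  · rintro ⟨h1, h2⟩
    exact ⟨⟨by omega, h2⟩, by omega⟩

/-- the number `T` -/
def nT (Z n M : ℕ) (S : Finset ℕ) : ℕ :=
  ((bs (fun a => 28 * a) (U M S) &&& ((1 <<< (28 * n) : ℕ) - 1)) * bs (fun a => Z - 14 * a) S +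
    bs (fun a => 28 * a) S * bs (fun a => Z - 14 * a) (U n S)) +
  (((bs (fun a => 7 * a) (U n S) * bs (fun a => 7 * a) S) <<< Z) + comb Z 14 n)

theorem nT_eq {K n M : ℕ} (hZ : 28 * M ≤ 7 * K) (hn : n ≤ M) {S : Finset ℕ} (hS : ∀ a ∈ S, a < M) :
    nT (7 * K) n M S = fs (8 * M + 2 * K) (cntf K n S) := by
  unfold nT cntf
  rw [U_mask hn]
  have hU : ∀ x ∈ U n S, x < M := fun x hx => lt_of_lt_of_le (mem_U.1 hx).1 hn
  have e1 : bs (fun a => 28 * a) (U n S) * bs (fun a => 7 * K - 14 * a) S =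
      fs (8 * M + 2 * K) (fun j => ∑ p ∈ U n S ×ˢ S, if 4 * p.1 + (K - 2 * p.2) = j then 1 else 0) := by
    rw [bs_mul_bs, ← sum_pow_eq_fs]
    · apply sum_congr rfl
      intro p hp
      have := hS _ (mem_product.1 hp).2
      congr 1
      omega
    · intro p hp
      have := hS _ (mem_product.1 hp).2
      have := hU _ (mem_product.1 hp).1
      omega
  have e2 : bs (fun a => 28 * a) S * bs (fun a => 7 * K - 14 * a) (U n S) =
      fs (8 * M + 2 * K) (fun j => ∑ p ∈ S ×ˢ U n S, if 4 * p.1 + (K - 2 * p.2) = j then 1 else 0) := by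
    rw [bs_mul_bs, ← sum_pow_eq_fs]
    · apply sum_congr rfl
      intro p hp
      have := hU _ (mem_product.1 hp).2
      congr 1
      omega
    · intro p hp
      have := hS _ (mem_product.1 hp).1
      have := hU _ (mem_product.1 hp).2
      omega
  have e3 : (bs (fun a => 7 * a) (U n S) * bs (fun a => 7 * a) S) <<< (7 * K) =
      fs (8 * M + 2 * K) (fun j => ∑ p ∈ U n S ×ˢ S, if K + p.1 + p.2 = j then 1 else 0) := by
    rw [bs_mul_bs, ← sum_pow_eq_fs, Nat.shiftLeft_eq, sum_mul]
    · apply sum_congr rfl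
      intro p hp
      rw [← pow_add]
      congr 1
      ring
    · intro p hp
      have := hS _ (mem_product.1 hp).2
      have := hU _ (mem_product.1 hp).1
      omega
  have e4 : comb (7 * K) 14 n =
      fs (8 * M + 2 * K) (fun j => ∑ c ∈ range n, if K + 2 * c = j then 1 else 0) := by
    rw [comb_eq, ← sum_pow_eq_fs]
    · apply sum_congr rfl
      intro p hp
      congr 1
      ring
    · intro p hp
      have := mem_range.1 hp
      omega
  rw [e1, e2, e3, e4, fs_add, fs_add, fs_add]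

lemma sum_ind_le_one {F : Finset ℕ} {p : ℕ → Prop} [DecidablePred p]
    (h : ∀ a ∈ F, ∀ b ∈ F, p a → p b → a = b) : (∑ x ∈ F, if p x then 1 else 0) ≤ 1 := by
  rw [sum_boole, Nat.cast_id, card_le_one]
  intro a ha b hb
  rw [mem_filter] at ha hb
  exact h a ha.1 b hb.1 ha.2 hb.2

lemma cntf_le (K n : ℕ) {S : Finset ℕ} (hK : ∀ x ∈ U n S, 2 * x ≤ K) (j : ℕ) :
    cntf K n S j ≤ 3 * S.card + 1 := by
  unfold cntf
  have h1 : (∑ p ∈ U n S ×ˢ S, if 4 * p.1 + (K - 2 * p.2) = j then 1 else 0) ≤ S.card := by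
    rw [sum_product_right, card_eq_sum_ones]
    apply sum_le_sum
    intro a _
    apply sum_ind_le_one
    intro x _ y _ h1 h2
    simp only at h1 h2
    omega
  have h2 : (∑ p ∈ S ×ˢ U n S, if 4 * p.1 + (K - 2 * p.2) = j then 1 else 0) ≤ S.card := by
    rw [sum_product, card_eq_sum_ones]
    apply sum_le_sum
    intro a _
    apply sum_ind_le_one
    intro x hx y hy h1 h2
    have := hK x hx
    have := hK y hy
    simp only at h1 h2
    omega
  have h3 : (∑ p ∈ U n S ×ˢ S, if K + p.1 + p.2 = j then 1 else 0) ≤ S.card := by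
    rw [sum_product_right, card_eq_sum_ones]
    apply sum_le_sum
    intro a _
    apply sum_ind_le_one
    intro x _ y _ h1 h2
    simp only at h1 h2
    omega
  have h4 : (∑ c ∈ range n, if K + 2 * c = j then 1 else 0) ≤ 1 := by
    apply sum_ind_le_one
    intro x _ y _ h1 h2
    omega
  omega

/-- the digit at a candidate counts its completions -/
lemma cnt_le_cntf {K n M : ℕ} (hK : 4 * M ≤ K) (hn : n ≤ M) {S : Finset ℕ} (hS : ∀ a ∈ S, a < M)
    (c : ℕ) : ((U n S).filter (fun x => opt S c x)).card ≤ cntf K n S (K + 2 * c) := by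
  have hU : ∀ x ∈ U n S, x < n := fun x hx => (mem_U.1 hx).1
  have h1 : ((U n S).filter (fun x => opt S c x)).card = ∑ x ∈ U n S, if opt S c x then 1 else 0 := by
    rw [sum_boole, Nat.cast_id]
  have h2 : ∀ x ∈ U n S, (if opt S c x then 1 else 0) ≤
      ((∑ a ∈ S, if 4 * x + (K - 2 * a) = K + 2 * c then 1 else 0) +
       (∑ a ∈ S, if 4 * a + (K - 2 * x) = K + 2 * c then 1 else 0)) +
      ((∑ a ∈ S, if K + x + a = K + 2 * c then 1 else 0) + (if x = c then 1 else 0)) := by
    intro x hx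
    have hx' := hU x hx
    split_ifs with h h'
    · omega
    · rcases h with h | ⟨a, ha, h⟩
      · exact absurd h h'
      · have haM := hS a ha
        rcases h with h | h | h
        · have : 1 ≤ ∑ a ∈ S, if K + x + a = K + 2 * c then 1 else 0 := by
            refine le_trans ?_ (single_le_sum (f := fun a => if K + x + a = K + 2 * c then 1 else 0)
              (fun _ _ => Nat.zero_le _) ha)
            rw [if_pos (by omega)]
          omega
        · have : 1 ≤ ∑ a ∈ S, if 4 * a + (K - 2 * x) = K + 2 * c then 1 else 0 := by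
            refine le_trans ?_ (single_le_sum (f := fun a => if 4 * a + (K - 2 * x) = K + 2 * c then 1 else 0)
              (fun _ _ => Nat.zero_le _) ha)
            rw [if_pos (by omega)]
          omega
        · have : 1 ≤ ∑ a ∈ S, if 4 * x + (K - 2 * a) = K + 2 * c then 1 else 0 := by
            refine le_trans ?_ (single_le_sum (f := fun a => if 4 * x + (K - 2 * a) = K + 2 * c then 1 else 0)
              (fun _ _ => Nat.zero_le _) ha)
            rw [if_pos (by omega)]
          omega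
    · exact Nat.zero_le _
    · exact Nat.zero_le _
  rw [h1]
  refine (sum_le_sum h2).trans ?_
  rw [sum_add_distrib, sum_add_distrib, sum_add_distrib]
  unfold cntf
  rw [sum_product, sum_product_right (s := S), sum_product]
  apply Nat.add_le_add (le_refl _)
  apply Nat.add_le_add (le_refl _)
  by_cases hc : c < n
  · have : (∑ c' ∈ range n, if K + 2 * c' = K + 2 * c then 1 else 0) =
        ∑ c' ∈ range n, if c' = c then 1 else 0 := by
      apply sum_congr rfl
      intro y _
      by_cases h : y = c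
      · rw [if_pos h, if_pos (by omega)]
      · rw [if_neg h, if_neg (by omega)]
    rw [this]
    apply sum_le_sum_of_subset
    intro x hx
    exact mem_range.2 (hU x hx)
  · have : (∑ x ∈ U n S, if x = c then 1 else 0) = 0 := by
      apply sum_eq_zero
      intro x hx
      have := hU x hx
      rw [if_neg (by omega)]
    rw [this]
    exact Nat.zero_le _

/-- offsets for even and odd candidates -/
def off (K M oe oo : ℕ) (i : ℕ) : ℕ :=
  oe * (∑ j ∈ range ((M + 1) / 2), if K + 4 * j = i then 1 else 0) +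
  oo * (∑ j ∈ range (M / 2), if K + 2 + 4 * j = i then 1 else 0)

lemma off_le {K M oe oo : ℕ} (h1 : oe ≤ 64) (h2 : oo ≤ 64) (i : ℕ) : off K M oe oo i ≤ 64 := by
  unfold off
  have k1 : (∑ j ∈ range ((M + 1) / 2), if K + 4 * j = i then 1 else 0) ≤ 1 := by
    apply sum_ind_le_one
    intro x _ y _ h1 h2
    omega
  have k2 : (∑ j ∈ range (M / 2), if K + 2 + 4 * j = i then 1 else 0) ≤ 1 := by
    apply sum_ind_le_one
    intro x _ y _ h1 h2
    omega
  by_cases hi : ∃ j, K + 4 * j = i
  · obtain ⟨j0, hj0⟩ := hi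
    have k3 : (∑ j ∈ range (M / 2), if K + 2 + 4 * j = i then 1 else 0) = 0 := by
      apply sum_eq_zero
      intro j _
      rw [if_neg (by omega)]
    rw [k3]
    nlinarith
  · have k3 : (∑ j ∈ range ((M + 1) / 2), if K + 4 * j = i then 1 else 0) = 0 := by
      apply sum_eq_zero
      intro j _
      rw [if_neg (fun h => hi ⟨j, h⟩)]
    rw [k3]
    nlinarith

lemma off_eq {K M oe oo c : ℕ} (hc : c < M) : off K M oe oo (K + 2 * c) = wt oe oo c := by
  unfold off wt
  split_ifs with h
  · have k1 : (∑ j ∈ range ((M + 1) / 2), if K + 4 * j = K + 2 * c then 1 else 0) = 1 := by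
      rw [sum_eq_single (c / 2)]
      · rw [if_pos (by omega)]
      · intro j _ hj
        rw [if_neg (by omega)]
      · intro hj
        exact absurd (mem_range.2 (by omega)) hj
    have k2 : (∑ j ∈ range (M / 2), if K + 2 + 4 * j = K + 2 * c then 1 else 0) = 0 := by
      apply sum_eq_zero
      intro j _
      rw [if_neg (by omega)]
    rw [k1, k2]
    omega
  · have k1 : (∑ j ∈ range ((M + 1) / 2), if K + 4 * j = K + 2 * c then 1 else 0) = 0 := by
      apply sum_eq_zero
      intro j _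
      rw [if_neg (by omega)]
    have k2 : (∑ j ∈ range (M / 2), if K + 2 + 4 * j = K + 2 * c then 1 else 0) = 1 := by
      rw [sum_eq_single (c / 2)]
      · rw [if_pos (by omega)]
      · intro j _ hj
        rw [if_neg (by omega)]
      · intro hj
        exact absurd (mem_range.2 (by omega)) hj
    rw [k1, k2]
    omega

/-- `T` with offsets -/
def nT' (Z n M : ℕ) (S : Finset ℕ) (oe oo : ℕ) : ℕ :=
  nT Z n M S + (oe * comb Z 28 ((M + 1) / 2) + oo * comb (Z + 14) 28 (M / 2))

lemma nT'_eq {K n M : ℕ} (hZ : 28 * M ≤ 7 * K) (hn : n ≤ M) {S : Finset ℕ} (hS : ∀ a ∈ S, a < M)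
    (oe oo : ℕ) : nT' (7 * K) n M S oe oo =
      fs (8 * M + 2 * K) (fun j => cntf K n S j + off K M oe oo j) := by
  have e1 : comb (7 * K) 28 ((M + 1) / 2) =
      fs (8 * M + 2 * K) (fun i => ∑ j ∈ range ((M + 1) / 2), if K + 4 * j = i then 1 else 0) := by
    rw [comb_eq, ← sum_pow_eq_fs]
    · apply sum_congr rfl
      intro p hp
      congr 1
      ring
    · intro p hp
      have := mem_range.1 hp
      omega
  have e2 : comb (7 * K + 14) 28 (M / 2) =
      fs (8 * M + 2 * K) (fun i => ∑ j ∈ range (M / 2), if K + 2 + 4 * j = i then 1 else 0) := by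
    rw [comb_eq, ← sum_pow_eq_fs]
    · apply sum_congr rfl
      intro p hp
      congr 1
      ring
    · intro p hp
      have := mem_range.1 hp
      omega
  unfold nT' off
  rw [nT_eq hZ hn hS, e1, e2, fs_mul, fs_mul, fs_add, fs_add]

lemma digit_lt {K n M : ℕ} (hZ : 28 * M ≤ 7 * K) (hn : n ≤ M) {S : Finset ℕ} (hcard : S.card ≤ 10)
    {oe oo : ℕ} (h1 : oe ≤ 64) (h2 : oo ≤ 64) (j : ℕ) : cntf K n S j + off K M oe oo j < 128 := by
  have k1 := cntf_le K n (S := S) (fun x hx => by have := (mem_U.1 hx).1; omega) j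
  have k2 := off_le (K := K) (M := M) h1 h2 j
  omega

/-- the digits of `T` with offsets -/
theorem T'_digit {K n M : ℕ} (hZ : 28 * M ≤ 7 * K) (hn : n ≤ M) {S : Finset ℕ} (hS : ∀ a ∈ S, a < M)
    (hcard : S.card ≤ 10) {oe oo : ℕ} (h1 : oe ≤ 64) (h2 : oo ≤ 64) {c : ℕ} (hc : c < M) :
    (nT' (7 * K) n M S oe oo >>> (7 * K + 14 * c)) % 128 = cntf K n S (K + 2 * c) + wt oe oo c := by
  rw [nT'_eq hZ hn hS, show 7 * K + 14 * c = 7 * (K + 2 * c) by ring,
    fs_digit (digit_lt hZ hn hcard h1 h2) (by omega), off_eq hc]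

theorem T'_bit {K n M : ℕ} (hZ : 28 * M ≤ 7 * K) (hn : n ≤ M) {S : Finset ℕ} (hS : ∀ a ∈ S, a < M)
    (hcard : S.card ≤ 10) {oe oo : ℕ} (h1 : oe ≤ 64) (h2 : oo ≤ 64) {c : ℕ} (hc : c < M) :
    (nT' (7 * K) n M S oe oo).testBit (ψ (7 * K) c) = true ↔
      64 ≤ cntf K n S (K + 2 * c) + wt oe oo c := by
  unfold ψ
  rw [nT'_eq hZ hn hS, show 7 * K + 6 + 14 * c = 7 * (K + 2 * c) + 6 by ring,
    fs_bit (digit_lt hZ hn hcard h1 h2) (by omega), off_eq hc]

end MP61673a.Small
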