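import Pool.Agent.Mu673.SmallG

set_option autoImplicit false

/-!
Soundness of the loops.
-/

namespace MP61673a.Small

open Finset

/-- `F` refutes all states with `m - 1` elements left -/
def Sound (P : Finset ℕ → Prop) (Z n M k : ℕ) (F : Fn) (m : ℕ) : Prop :=
  ∀ S C : Finset ℕ, (∀ a ∈ S, a < M) → (∀ c ∈ C, c < M) → Disjoint S C → S.card + m = k + 1 →
    ∀ i t kt, ap F Z n M S C i t kt = true → Ref P S C ∧ ∃ t', kt t' = true

lemma sound_node0 (k n M klo khi Z : ℕ) : Sound (Adm k n M klo khi) Z n M k node0 1 := by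
  intro S C _ _ _ hcard i t kt h
  unfold ap node0 at h
  rw [bif0_eq] at h
  split_ifs at h with h0
  refine ⟨?_, t, h⟩
  intro A hA hSA _
  have hAS : S = A := eq_of_subset_of_card_le hSA (by rw [hA.card]; omega)
  subst hAS
  rw [bs_eq_zero, ← ne_eq, ← nonempty_iff_ne_empty] at h0
  obtain ⟨x, hx⟩ := h0
  rw [mem_U] at hx
  exact hx.2 (hA.cov x hx.1)

lemma sound_nodeS (k n M klo khi Z : ℕ) : Sound (Adm k n M klo khi) Z n M k nodeS 0 := by
  intro S C _ _ _ hcard i t kt h
  refine ⟨?_, t, h⟩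
  intro A hA hSA _
  have := card_le_card hSA
  rw [hA.card] at this
  omega

lemma ref_branch {k n M klo khi : ℕ} {S C : Finset ℕ} {c : ℕ}
    (h1 : Ref (Adm k n M klo khi) (insert c S) (C.filter (fun x => ¬ opt S c x)))
    (h2 : Ref (Adm k n M klo khi) S (C.erase c)) : Ref (Adm k n M klo khi) S C := by
  intro A hA hSA hC
  by_cases hcA : c ∈ A
  · have hS' : insert c S ⊆ A := insert_subset hcA hSA
    refine h1 A hA hS' (fun a ha ha' => ?_)
    have h3 := hA.free.not_covd hS' ha ha'
    rw [covd_insert] at h3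
    exact mem_filter.2 ⟨hC a ha (fun h => ha' (mem_insert_of_mem h)), fun h => h3 (Or.inr h)⟩
  · refine h2 A hA hSA (fun a ha ha' => mem_erase.2 ⟨?_, hC a ha ha'⟩)
    rintro rfl
    exact hcA ha

lemma land_one_ne {φ : ℕ → ℕ} {X : Finset ℕ} (hφ : Set.InjOn φ X) {j : ℕ}
    (h : ¬ bs φ X &&& (1 <<< j) = 0) : ∃ a ∈ X, φ a = j := by
  rw [bs_land hφ, bs_eq_zero, ← ne_eq, ← nonempty_iff_ne_empty] at h
  obtain ⟨a, ha⟩ := h
  rw [mem_filter, one_shl_testBit] at ha
  exact ⟨a, ha.1, ha.2.symm⟩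

lemma disj_insert {S C : Finset ℕ} (h : Disjoint S C) (c : ℕ) :
    Disjoint (insert c S) (C.filter (fun x => ¬ opt S c x)) := by
  rw [disjoint_left] at *
  intro a ha ha'
  rw [mem_filter] at ha'
  rcases mem_insert.1 ha with rfl | ha
  · exact ha'.2 (Or.inl rfl)
  · exact h ha ha'.1

theorem loop1_sound {k n M klo khi Z : ℕ} (hZ : 28 * M ≤ Z) (hn : n ≤ M) {F : Fn} {m : ℕ}
    (hF : Sound (Adm k n M klo khi) Z n M k F m) {S : Finset ℕ} (hS : ∀ a ∈ S, a < M)
    (hcard : S.card + (m + 1) = k + 1) (cont : ℕ → ℕ → List ℕ → Bool) (fuel : ℕ) :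
    ∀ (X C : Finset ℕ) (w : ℕ) (t : List ℕ), X ⊆ C → (∀ c ∈ C, c < M) → Disjoint S C →
    loop1 Z F (S.filter (fun a => a % 2 = 0)).card (nE S) (nO S) (bs (fun a => 7 * a) S)
      (bs (fun a => 14 * a) S) (bs (fun a => 28 * a) S) (bs (fun a => 56 * a) S)
      (bs (fun a => Z - 7 * a) S) (bs (fun a => Z - 14 * a) S) (bs (fun a => Z - 28 * a) S)
      (bs (fun a => 7 * a) (U n S)) (bs (fun a => 28 * a) (U M S)) (bs (fun a => Z - 14 * a) (U n S))
      cont fuel (bs (ψ Z) X) (bs (ψ Z) C) w t = true →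
    (Ref (Adm k n M klo khi) S (C \ X) → Ref (Adm k n M klo khi) S C) ∧
      ∃ w' t', cont (bs (ψ Z) (C \ X)) w' t' = true := by
  induction fuel with
  | zero =>
    intro X C w t _ _ _ h
    exact absurd h (by unfold loop1; exact Bool.false_ne_true)
  | succ fuel ih =>
    intro X C w t hX hC hSC h
    unfold loop1 at h ih
    simp only [land', xor', shl', add', mul', div', mod'] at h ih
    rw [bif0_eq] at h
    split_ifs at h with h0
    · rw [bs_eq_zero] at h0
      subst h0
      rw [sdiff_empty]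
      exact ⟨fun h => h, w, t, h⟩
    · rw [bif0_eq] at h
      split_ifs at h with h1
      obtain ⟨c, hcX, hc2⟩ := land_one_ne (inj_ψ Z X) h1
      have hc3 : c = w % 128 := by
        unfold ψ at hc2
        omega
      have hcC := hX hcX
      have hcM := hC c hcC
      have hcS : c ∉ S := fun h => (disjoint_left.1 hSC) h hcC
      rw [← hc3, addc_eq F hZ hn hS hcM hcS] at h
      obtain ⟨hr, t', h⟩ := hF (insert c S) (C.filter (fun x => ¬ opt S c x))
        (fun a ha => by
          rcases mem_insert.1 ha with rfl | ha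
          · exact hcM
          · exact hS a ha)
        (fun a ha => hC a (mem_filter.1 ha).1) (disj_insert hSC c)
        (by rw [card_insert_of_notMem hcS]; omega) _ _ _ h
      have x1 : bs (ψ Z) X ^^^ 1 <<< (Z + 6 + 14 * c) = bs (ψ Z) (X.erase c) :=
        bs_xor_one (inj_ψ Z X) hcX
      have x2 : bs (ψ Z) C ^^^ 1 <<< (Z + 6 + 14 * c) = bs (ψ Z) (C.erase c) :=
        bs_xor_one (inj_ψ Z C) hcC
      simp only [x1, x2] at h
      have h2 := ih (X.erase c) (C.erase c) _ _ (erase_subset_erase c hX)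
        (fun a ha => hC a (mem_of_mem_erase ha))
        (disjoint_of_subset_right (erase_subset c C) hSC) h
      have h3 : C.erase c \ X.erase c = C \ X := by
        ext a
        rw [mem_sdiff, mem_sdiff, mem_erase, mem_erase]
        constructor
        · rintro ⟨⟨k1, k2⟩, k3⟩
          exact ⟨k2, fun k4 => k3 ⟨k1, k4⟩⟩
        · rintro ⟨k1, k2⟩
          refine ⟨⟨?_, k1⟩, fun k3 => k2 k3.2⟩
          rintro rfl
          exact k2 hcX
      rw [h3] at h2
      exact ⟨fun h4 => ref_branch hr (h2.1 h4), h2.2⟩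

/-- no admissible set contains both `c` and `d` -/
def NoPair (P : Finset ℕ → Prop) (S C : Finset ℕ) (c d : ℕ) : Prop :=
  ∀ A, P A → S ⊆ A → (∀ a ∈ A, a ∉ S → a ∈ C) → c ∈ A → c ∉ S → d ∈ A → d ∉ S → d ≠ c → False

lemma bit0 {X i : ℕ} : (X >>> i) % 2 = 0 ↔ ¬ X.testBit i = true := by
  rw [Nat.testBit_eq_decide_div_mod_eq, Nat.shiftRight_eq_div_pow, decide_eq_true_eq]
  omega

lemma bs_bit0 {φ : ℕ → ℕ} {X : Finset ℕ} (h : Set.InjOn φ X) {i : ℕ} :
    (bs φ X >>> i) % 2 = 0 ↔ ∀ a ∈ X, φ a ≠ i := by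
  rw [bit0, testBit_bs h]
  push Not
  rfl

lemma mem_of_bit {Z : ℕ} {C : Finset ℕ} {d : ℕ} (h : ¬ (bs (ψ Z) C >>> (Z + 6 + 14 * d)) % 2 = 0) :
    d ∈ C := by
  rw [bs_bit0 (inj_ψ Z C)] at h
  push Not at h
  obtain ⟨a, ha, h⟩ := h
  unfold ψ at h
  have : a = d := by omega
  exact this ▸ ha

lemma not_mem_of_bit {Z : ℕ} {C : Finset ℕ} {d : ℕ} (h : (bs (ψ Z) C >>> (Z + 6 + 14 * d)) % 2 = 0) :
    d ∉ C := by
  rw [bs_bit0 (inj_ψ Z C)] at h
  intro hd
  exact h d hd rfl

theorem pairc_sound {k n M klo khi Z : ℕ} (hZ : 28 * M ≤ Z) (hn : n ≤ M) {G : Fn} {m : ℕ}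
    (hG : Sound (Adm k n M klo khi) Z n M k G m) {S C : Finset ℕ} (hS : ∀ a ∈ S, a < M)
    (hcard : S.card + (m + 2) = k + 1) (hC : ∀ c ∈ C, c < M) (hSC : Disjoint S C) {c d : ℕ}
    (hc : c ∈ C) {i : ℕ} {t : List ℕ} {kt : Kt}
    (h : pairc Z G (S.filter (fun a => a % 2 = 0)).card (nE S) (nO S) (bs (fun a => 7 * a) S)
      (bs (fun a => 14 * a) S) (bs (fun a => 28 * a) S) (bs (fun a => 56 * a) S)
      (bs (fun a => Z - 7 * a) S) (bs (fun a => Z - 14 * a) S) (bs (fun a => Z - 28 * a) S)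
      (bs (fun a => 7 * a) (U n S)) (bs (fun a => 28 * a) (U M S)) (bs (fun a => Z - 14 * a) (U n S))
      (bs (ψ Z) C) c d i t kt = true) :
    NoPair (Adm k n M klo khi) S C c d ∧ ∃ t', kt t' = true := by
  have hcM := hC c hc
  have hcS : c ∉ S := fun h => (disjoint_left.1 hSC) h hc
  unfold pairc at h
  rw [addc_eq _ hZ hn hS hcM hcS] at h
  unfold ap at h
  simp only [shr', add', mul', mod'] at h
  rw [bif0_eq] at h
  have hS' : ∀ a ∈ insert c S, a < M := by
    intro a ha
    rcases mem_insert.1 ha with rfl | ha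
    · exact hcM
    · exact hS a ha
  have hmem : ∀ A, Adm k n M klo khi A → S ⊆ A → (∀ a ∈ A, a ∉ S → a ∈ C) → c ∈ A →
      ∀ a ∈ A, a ∉ insert c S → a ∈ C.filter (fun x => ¬ opt S c x) := by
    intro A hA hSA hAC hcA a ha ha'
    have h3 := hA.free.not_covd (insert_subset hcA hSA) ha ha'
    rw [covd_insert] at h3
    exact mem_filter.2 ⟨hAC a ha (fun h => ha' (mem_insert_of_mem h)), fun h => h3 (Or.inr h)⟩
  split_ifs at h with h0
  · refine ⟨?_, t, h⟩
    intro A hA hSA hAC hcA _ hdA hdS hdc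
    have hd : d ∉ insert c S := by
      rw [mem_insert]
      rintro (h | h)
      · exact hdc h
      · exact hdS h
    exact not_mem_of_bit h0 (hmem A hA hSA hAC hcA d hdA hd)
  · have hd := mem_of_bit h0
    have hdM : d < M := hC d (mem_filter.1 hd).1
    have hdisj := disj_insert hSC c
    have hdS : d ∉ insert c S := fun h => (disjoint_left.1 hdisj) h hd
    rw [addc_eq G hZ hn hS' hdM hdS] at h
    obtain ⟨hr, ht⟩ := hG (insert d (insert c S))
      ((C.filter (fun x => ¬ opt S c x)).filter (fun x => ¬ opt (insert c S) d x))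
      (fun a ha => by
        rcases mem_insert.1 ha with rfl | ha
        · exact hdM
        · exact hS' a ha)
      (fun a ha => hC a (mem_filter.1 (mem_filter.1 ha).1).1) (disj_insert hdisj d)
      (by rw [card_insert_of_notMem hdS, card_insert_of_notMem hcS]; omega) _ _ _ h
    refine ⟨?_, ht⟩
    intro A hA hSA hAC hcA _ hdA _ _
    have hS2 : insert c S ⊆ A := insert_subset hcA hSA
    have hS3 : insert d (insert c S) ⊆ A := insert_subset hdA hS2
    refine hr A hA hS3 (fun a ha ha' => ?_)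
    have h3 := hA.free.not_covd hS3 ha ha'
    rw [covd_insert] at h3
    exact mem_filter.2 ⟨hmem A hA hSA hAC hcA a ha (fun h => ha' (mem_insert_of_mem h)),
      fun h => h3 (Or.inr h)⟩

/-- the pair test with the digits of `T` -/
def Fil (P : Finset ℕ → Prop) (Z M : ℕ) (S C : Finset ℕ) (T D : ℕ) : Prop :=
  ∀ c d, c < M → d < M → (T >>> (Z + 14 * c)) % 128 + (T >>> (Z + 14 * d)) % 128 < D →
    NoPair P S C c d

theorem loop2_sound {k n M klo khi Z : ℕ} (hZ : 28 * M ≤ Z) (hn : n ≤ M) {G : Fn} {m : ℕ}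
    (hG : Sound (Adm k n M klo khi) Z n M k G m) {S C : Finset ℕ} (hS : ∀ a ∈ S, a < M)
    (hcard : S.card + (m + 2) = k + 1) (hC : ∀ c ∈ C, c < M) (hSC : Disjoint S C) {T D : ℕ}
    (hfil : Fil (Adm k n M klo khi) Z M S C T D) (x : ℕ) (cont : ℕ → List ℕ → Bool) (fuel : ℕ) :
    ∀ (Y : Finset ℕ) (w : ℕ) (t : List ℕ),
    loop2 Z G (S.filter (fun a => a % 2 = 0)).card (nE S) (nO S) (bs (fun a => 7 * a) S)
      (bs (fun a => 14 * a) S) (bs (fun a => 28 * a) S) (bs (fun a => 56 * a) S)
      (bs (fun a => Z - 7 * a) S) (bs (fun a => Z - 14 * a) S) (bs (fun a => Z - 28 * a) S)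
      (bs (fun a => 7 * a) (U n S)) (bs (fun a => 28 * a) (U M S)) (bs (fun a => Z - 14 * a) (U n S))
      (bs (ψ Z) C) x T D cont fuel (bs (fun a => 28 * a) Y) w t = true →
    (∀ c ∈ Y, NoPair (Adm k n M klo khi) S C c (2 * c - x)) ∧ ∃ w' t', cont w' t' = true := by
  induction fuel with
  | zero =>
    intro Y w t h
    exact absurd h (by unfold loop2; exact Bool.false_ne_true)
  | succ fuel ih =>
    intro Y w t h
    unfold loop2 at h ih
    simp only [land', xor', shl', shr', add', sub', mul', div', mod'] at h ih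
    rw [bif0_eq] at h
    split_ifs at h with h0
    · rw [bs_eq_zero] at h0
      subst h0
      exact ⟨fun c hc => absurd hc (notMem_empty c), w, t, h⟩
    · rw [bif0_eq] at h
      split_ifs at h with h1
      obtain ⟨c, hcY, hc2⟩ := land_one_ne (inj_mul (by norm_num) Y) h1
      have hc3 : c = w % 128 := by omega
      rw [← hc3] at h
      have x1 : bs (fun a => 28 * a) Y ^^^ 1 <<< (28 * c) = bs (fun a => 28 * a) (Y.erase c) :=
        bs_xor_one (φ := fun a => 28 * a) (inj_mul (by norm_num) Y) hcY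
      rw [x1, bif0_eq] at h
      have key : ∀ w t, (Nat.rec (motive := fun _ => ℕ → ℕ → List ℕ → Bool) (fun _ _ _ => false)
          (fun _ ih m w t => bif0 m (cont w t)
            (bif0 (m &&& 1 <<< (28 * (w % 128))) false
              (bif0 ((bs (ψ Z) C >>> (Z + 6 + 14 * (w % 128))) % 2)
                (ih (m ^^^ 1 <<< (28 * (w % 128))) (w / 131072) t)
                (bif0 (D - ((T >>> (Z + 14 * (w % 128))) % 128 +
                    (T >>> (Z + 14 * (2 * (w % 128) - x))) % 128))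
                  (pairc Z G (S.filter (fun a => a % 2 = 0)).card (nE S) (nO S) (bs (fun a => 7 * a) S)
                    (bs (fun a => 14 * a) S) (bs (fun a => 28 * a) S) (bs (fun a => 56 * a) S)
                    (bs (fun a => Z - 7 * a) S) (bs (fun a => Z - 14 * a) S) (bs (fun a => Z - 28 * a) S)
                    (bs (fun a => 7 * a) (U n S)) (bs (fun a => 28 * a) (U M S))
                    (bs (fun a => Z - 14 * a) (U n S)) (bs (ψ Z) C) (w % 128) (2 * (w % 128) - x)
                    (w / 128) t (fun t => ih (m ^^^ 1 <<< (28 * (w % 128))) (w / 131072) t))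
                  (ih (m ^^^ 1 <<< (28 * (w % 128))) (w / 131072) t))))) fuel
            (bs (fun a => 28 * a) (Y.erase c)) w t : Bool) = true →
          NoPair (Adm k n M klo khi) S C c (2 * c - x) →
          (∀ c ∈ Y, NoPair (Adm k n M klo khi) S C c (2 * c - x)) ∧ ∃ w' t', cont w' t' = true := by
        intro w t h hp
        obtain ⟨k1, k2⟩ := ih (Y.erase c) w t h
        refine ⟨fun c' hc' => ?_, k2⟩
        by_cases hcc : c' = c
        · rw [hcc]
          exact hp
        · exact k1 c' (mem_erase.2 ⟨hcc, hc'⟩)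
      split_ifs at h with h2
      · refine key _ _ h ?_
        intro A hA hSA hAC hcA hcS _ _ _
        exact not_mem_of_bit h2 (hAC c hcA hcS)
      · have hcC := mem_of_bit h2
        rw [bif0_eq] at h
        split_ifs at h with h3
        · obtain ⟨hp, t', h⟩ := pairc_sound hZ hn hG hS hcard hC hSC hcC h
          exact key _ _ h hp
        · refine key _ _ h ?_
          intro A hA hSA hAC hcA hcS hdA hdS hdc
          exact hfil c (2 * c - x) (hC c hcC) (hC _ (hAC _ hdA hdS)) (by omega) A hA hSA hAC hcA hcS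
            hdA hdS hdc

theorem loop3_sound {k n M klo khi Z : ℕ} (hZ : 28 * M ≤ Z) (hn : n ≤ M) {G : Fn} {m : ℕ}
    (hG : Sound (Adm k n M klo khi) Z n M k G m) {S C : Finset ℕ} (hS : ∀ a ∈ S, a < M)
    (hcard : S.card + (m + 2) = k + 1) (hC : ∀ c ∈ C, c < M) (hSC : Disjoint S C) {T D : ℕ}
    (hfil : Fil (Adm k n M klo khi) Z M S C T D) (x : ℕ) (kt : Kt) (fuel : ℕ) :
    ∀ (Y : Finset ℕ) (w : ℕ) (t : List ℕ), Y ⊆ C →
    loop3 Z G (S.filter (fun a => a % 2 = 0)).card (nE S) (nO S) (bs (fun a => 7 * a) S)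
      (bs (fun a => 14 * a) S) (bs (fun a => 28 * a) S) (bs (fun a => 56 * a) S)
      (bs (fun a => Z - 7 * a) S) (bs (fun a => Z - 14 * a) S) (bs (fun a => Z - 28 * a) S)
      (bs (fun a => 7 * a) (U n S)) (bs (fun a => 28 * a) (U M S)) (bs (fun a => Z - 14 * a) (U n S))
      (bs (ψ Z) C) x T D kt fuel (bs (ψ Z) Y) w t = true →
    (∀ c ∈ Y, NoPair (Adm k n M klo khi) S C c (2 * x - c)) ∧ ∃ t', kt t' = true := by
  induction fuel with
  | zero =>
    intro Y w t _ h
    exact absurd h (by unfold loop3; exact Bool.false_ne_true)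
  | succ fuel ih =>
    intro Y w t hYC h
    unfold loop3 at h ih
    simp only [land', xor', shl', shr', add', sub', mul', div', mod'] at h ih
    rw [bif0_eq] at h
    split_ifs at h with h0
    · rw [bs_eq_zero] at h0
      subst h0
      exact ⟨fun c hc => absurd hc (notMem_empty c), t, h⟩
    · rw [bif0_eq] at h
      split_ifs at h with h1
      obtain ⟨c, hcY, hc2⟩ := land_one_ne (inj_ψ Z Y) h1
      have hc3 : c = w % 128 := by
        unfold ψ at hc2
        omega
      have hcC := hYC hcY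
      rw [← hc3] at h
      have x1 : bs (ψ Z) Y ^^^ 1 <<< (Z + 6 + 14 * c) = bs (ψ Z) (Y.erase c) :=
        bs_xor_one (inj_ψ Z Y) hcY
      rw [x1, bif0_eq] at h
      have key : ∀ w t, (Nat.rec (motive := fun _ => ℕ → ℕ → List ℕ → Bool) (fun _ _ _ => false)
          (fun _ ih m w t => bif0 m (kt t)
            (bif0 (m &&& 1 <<< (Z + 6 + 14 * (w % 128))) false
              (bif0 ((bs (ψ Z) C >>> (Z + 6 + 14 * (2 * x - w % 128))) % 2)
                (ih (m ^^^ 1 <<< (Z + 6 + 14 * (w % 128))) (w / 131072) t)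
                (bif0 (D - ((T >>> (Z + 14 * (w % 128))) % 128 +
                    (T >>> (Z + 14 * (2 * x - w % 128))) % 128))
                  (pairc Z G (S.filter (fun a => a % 2 = 0)).card (nE S) (nO S) (bs (fun a => 7 * a) S)
                    (bs (fun a => 14 * a) S) (bs (fun a => 28 * a) S) (bs (fun a => 56 * a) S)
                    (bs (fun a => Z - 7 * a) S) (bs (fun a => Z - 14 * a) S) (bs (fun a => Z - 28 * a) S)
                    (bs (fun a => 7 * a) (U n S)) (bs (fun a => 28 * a) (U M S))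
                    (bs (fun a => Z - 14 * a) (U n S)) (bs (ψ Z) C) (w % 128) (2 * x - w % 128)
                    (w / 128) t (fun t => ih (m ^^^ 1 <<< (Z + 6 + 14 * (w % 128))) (w / 131072) t))
                  (ih (m ^^^ 1 <<< (Z + 6 + 14 * (w % 128))) (w / 131072) t))))) fuel
            (bs (ψ Z) (Y.erase c)) w t : Bool) = true →
          NoPair (Adm k n M klo khi) S C c (2 * x - c) →
          (∀ c ∈ Y, NoPair (Adm k n M klo khi) S C c (2 * x - c)) ∧ ∃ t', kt t' = true := by
        intro w t h hp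
        obtain ⟨k1, k2⟩ := ih (Y.erase c) w t ((erase_subset c Y).trans hYC) h
        refine ⟨fun c' hc' => ?_, k2⟩
        by_cases hcc : c' = c
        · rw [hcc]
          exact hp
        · exact k1 c' (mem_erase.2 ⟨hcc, hc'⟩)
      split_ifs at h with h2
      · refine key _ _ h ?_
        intro A hA hSA hAC hcA hcS hdA hdS _
        exact not_mem_of_bit h2 (hAC _ hdA hdS)
      · rw [bif0_eq] at h
        split_ifs at h with h3
        · obtain ⟨hp, t', h⟩ := pairc_sound hZ hn hG hS hcard hC hSC hcC h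
          exact key _ _ h hp
        · refine key _ _ h ?_
          intro A hA hSA hAC hcA hcS hdA hdS hdc
          exact hfil c (2 * x - c) (hC c hcC) (hC _ (hAC _ hdA hdS)) (by omega) A hA hSA hAC hcA hcS
            hdA hdS hdc

end MP61673a.Small
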