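import Pool.Agent.Mu673.SmallH

set_option autoImplicit false

/-!
Soundness of a node.
-/

namespace MP61673a.Small

open Finset

lemma NoPair.mono {P : Finset ℕ → Prop} {S C C' : Finset ℕ} (h : C' ⊆ C) {c d : ℕ}
    (h1 : NoPair P S C c d) : NoPair P S C' c d :=
  fun A hA hSA hAC => h1 A hA hSA (fun a ha ha' => h (hAC a ha ha'))

lemma Fil.mono {P : Finset ℕ → Prop} {Z M : ℕ} {S C C' : Finset ℕ} (h : C' ⊆ C) {T D : ℕ}
    (h1 : Fil P Z M S C T D) : Fil P Z M S C' T D :=
  fun c d hc hd hcd => (h1 c d hc hd hcd).mono h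

lemma mask1 {Z M : ℕ} (hZ : 28 * M ≤ Z) {S : Finset ℕ} (hS : ∀ a ∈ S, a < M) {x : ℕ} (hx : x < M)
    (C : Finset ℕ) :
    bs (ψ Z) C &&& ((bs (fun a => Z - 14 * a) S <<< (28 * x + 6) |||
      bs (fun a => 28 * a) S <<< (Z + 6 - 14 * x)) ||| (bs (fun a => 7 * a) S <<< (Z + 6 + 7 * x) |||
      1 <<< (Z + 6 + 14 * x))) = bs (ψ Z) (C.filter (fun c => opt S x c)) := by
  have e : ((bs (fun a => Z - 14 * a) S <<< (28 * x + 6) |||
      bs (fun a => 28 * a) S <<< (Z + 6 - 14 * x)) ||| (bs (fun a => 7 * a) S <<< (Z + 6 + 7 * x) |||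
      1 <<< (Z + 6 + 14 * x))) =
      (((1 <<< (Z + 6 + 14 * x)) ||| (bs (fun a => Z - 14 * a) S <<< (28 * x + 6))) |||
      ((bs (fun a => 28 * a) S <<< (Z + 6 - 14 * x)) ||| (bs (fun a => 7 * a) S <<< (Z + 6 + 7 * x)))) := by
    ac_rfl
  rw [e, bs_land (inj_ψ Z C), filter_iff (fun c _ => bit_C hZ hS hx)]

lemma mask2 {Z : ℕ} {V C : Finset ℕ} {x : ℕ} (hx : 14 * x ≤ Z) :
    bs (fun a => 28 * a) V &&& (bs (ψ Z) C >>> (Z + 6 - 14 * x)) =
      bs (fun a => 28 * a) (V.filter (fun c => ∃ d ∈ C, d + x = 2 * c)) := by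
  rw [bs_land (inj_mul (by norm_num) _)]
  congr 1
  apply filter_iff
  intro c _
  rw [Nat.testBit_shiftRight, testBit_bs (inj_ψ Z C)]
  unfold ψ
  constructor
  · rintro ⟨a, ha, h⟩
    exact ⟨a, ha, by omega⟩
  · rintro ⟨a, ha, h⟩
    exact ⟨a, ha, by omega⟩

lemma mask3 {Z n : ℕ} (hZ : 14 * n ≤ Z) {V C : Finset ℕ} (hV : ∀ a ∈ V, a < n) (x : ℕ) :
    ((bs (ψ Z) C &&& (bs (fun a => Z - 14 * a) V <<< (28 * x + 6))) >>> (Z + 6 + 14 * x)) <<<
      (Z + 6 + 14 * x) = bs (ψ Z) (C.filter (fun c => x ≤ c ∧ ∃ y ∈ V, y + c = 2 * x)) := by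
  apply eq_bs (inj_ψ Z _)
  intro j
  rw [Nat.testBit_shiftLeft, Bool.and_eq_true, decide_eq_true_eq, Nat.testBit_shiftRight,
    Nat.testBit_and, Bool.and_eq_true, testBit_bs (inj_ψ Z C), Nat.testBit_shiftLeft, Bool.and_eq_true,
    decide_eq_true_eq, testBit_bs (inj_sub (by norm_num) (fun a ha => by have := hV a ha; omega))]
  unfold ψ
  constructor
  · rintro ⟨h1, ⟨c, hc, h2⟩, h3, y, hy, h4⟩
    have := hV y hy
    exact ⟨c, mem_filter.2 ⟨hc, by omega, y, hy, by omega⟩, by omega⟩
  · rintro ⟨c, hc, h⟩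
    rw [mem_filter] at hc
    obtain ⟨hc, h1, y, hy, h2⟩ := hc
    have := hV y hy
    exact ⟨by omega, ⟨c, hc, by omega⟩, by omega, y, hy, by omega⟩

theorem inner_sound {k n M klo khi Z : ℕ} (hZ : 28 * M ≤ Z) (hn : n ≤ M) {F G : Fn} {m : ℕ}
    (hF : Sound (Adm k n M klo khi) Z n M k F (m + 1)) (hG : Sound (Adm k n M klo khi) Z n M k G m)
    {S C : Finset ℕ} (hS : ∀ a ∈ S, a < M)
    (hcard : S.card + (m + 2) = k + 1) (hC : ∀ c ∈ C, c < M) (hSC : Disjoint S C) {T D : ℕ}
    (hfil : Fil (Adm k n M klo khi) Z M S C T D) {w : ℕ} {t : List ℕ} {kt : Kt}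
    (h : inner Z F G (S.filter (fun a => a % 2 = 0)).card (nE S) (nO S) (bs (fun a => 7 * a) S)
      (bs (fun a => 14 * a) S) (bs (fun a => 28 * a) S) (bs (fun a => 56 * a) S)
      (bs (fun a => Z - 7 * a) S) (bs (fun a => Z - 14 * a) S) (bs (fun a => Z - 28 * a) S)
      (bs (fun a => 7 * a) (U n S)) (bs (fun a => 28 * a) (U M S)) (bs (fun a => Z - 14 * a) (U n S))
      T D w t kt (bs (ψ Z) C) = true) :
    Ref (Adm k n M klo khi) S C ∧ ∃ t', kt t' = true := by
  unfold inner at h
  simp only [lor', land', shl', shr', add', sub', mul', div', mod'] at h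
  generalize w % 128 = x at h
  rw [bif0_eq] at h
  split_ifs at h with h0
  obtain ⟨x', hx, hx2⟩ := land_one_ne (inj_mul (by norm_num) (U n S)) h0
  have hx3 : x' = x := by omega
  subst hx3
  have hxU := mem_U.1 hx
  rw [mask1 hZ hS (by omega) C] at h
  obtain ⟨h1, w1, t1, h⟩ := loop1_sound hZ hn hF hS (by omega) _ _ _ _ _ _ (filter_subset _ C) hC hSC h
  rw [mask2 (by omega)] at h
  have hC' : ∀ c ∈ C \ C.filter (fun c => opt S x' c), c < M := fun c hc => hC c (mem_sdiff.1 hc).1
  have hSC' : Disjoint S (C \ C.filter (fun c => opt S x' c)) :=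
    disjoint_of_subset_right sdiff_subset hSC
  have hfil' : Fil (Adm k n M klo khi) Z M S (C \ C.filter (fun c => opt S x' c)) T D :=
    hfil.mono sdiff_subset
  obtain ⟨h2, w2, t2, h⟩ := loop2_sound hZ hn hG hS hcard hC' hSC' hfil' _ _ _ _ _ _ h
  rw [mask3 (n := n) (by omega) (fun a ha => (mem_U.1 ha).1)] at h
  obtain ⟨h3, t3, h⟩ := loop3_sound hZ hn hG hS hcard hC' hSC' hfil' _ _ _ _ _ _ (filter_subset _ _) h
  refine ⟨h1 ?_, t3, h⟩
  intro A hA hSA hAC
  obtain ⟨a, ha, b, hb, hab⟩ := hA.cov x' hxU.1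
  have hnot : ∀ y ∈ A, y ∉ S → opt S x' y → False := by
    intro y hy hyS ho
    have := hAC y hy hyS
    rw [mem_sdiff, mem_filter] at this
    exact this.2 ⟨this.1, ho⟩
  by_cases haS : a ∈ S
  · by_cases hbS : b ∈ S
    · exact hxU.2 ⟨a, haS, b, hbS, hab⟩
    · exact hnot b hb hbS (Or.inr ⟨a, haS, hab.rot⟩)
  · by_cases hbS : b ∈ S
    · exact hnot a ha haS (Or.inr ⟨b, hbS, hab.comm.rot⟩)
    · by_cases hne : a = b
      · subst hne
        exact hnot a ha haS (Or.inl (T3_self.1 hab).symm)
      · have hnc : ∀ y ∈ A, y ∉ S → ¬ Covd S y := fun y hy hyS => hA.free.not_covd hSA hy hyS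
        have haM := hA.lt a ha
        have hbM := hA.lt b hb
        rcases hab with h4 | h4 | h4
        · refine h2 b (mem_filter.2 ⟨mem_U.2 ⟨hbM, hnc b hb hbS⟩, a, hAC a ha haS, by omega⟩) A hA hSA
            hAC hb hbS ?_ ?_ ?_
          · rw [show 2 * b - x' = a by omega]; exact ha
          · rw [show 2 * b - x' = a by omega]; exact haS
          · rw [show 2 * b - x' = a by omega]; exact hne
        · refine h2 a (mem_filter.2 ⟨mem_U.2 ⟨haM, hnc a ha haS⟩, b, hAC b hb hbS, by omega⟩) A hA hSA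
            hAC ha haS ?_ ?_ ?_
          · rw [show 2 * a - x' = b by omega]; exact hb
          · rw [show 2 * a - x' = b by omega]; exact hbS
          · rw [show 2 * a - x' = b by omega]; exact fun h => hne h.symm
        · rcases Nat.lt_or_gt_of_ne hne with h5 | h5
          · refine h3 b (mem_filter.2 ⟨hAC b hb hbS, by omega, a, mem_U.2 ⟨by omega, hnc a ha haS⟩,
              by omega⟩) A hA hSA hAC hb hbS ?_ ?_ ?_
            · rw [show 2 * x' - b = a by omega]; exact ha
            · rw [show 2 * x' - b = a by omega]; exact haS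
            · rw [show 2 * x' - b = a by omega]; exact hne
          · refine h3 a (mem_filter.2 ⟨hAC a ha haS, by omega, b, mem_U.2 ⟨by omega, hnc b hb hbS⟩,
              by omega⟩) A hA hSA hAC ha haS ?_ ?_ ?_
            · rw [show 2 * x' - a = b by omega]; exact hb
            · rw [show 2 * x' - a = b by omega]; exact hbS
            · rw [show 2 * x' - a = b by omega]; exact fun h => hne h.symm

theorem step_sound {k n M klo khi K r : ℕ} (hK : 28 * M ≤ 7 * K) (hn : n ≤ M) (hn' : n < 127)
    (hk : k ≤ 10) {F G : Fn} {m : ℕ} (hr : r = m + 1)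
    (hF : Sound (Adm k n M klo khi) (7 * K) n M k F (m + 1))
    (hG : Sound (Adm k n M klo khi) (7 * K) n M k G m) :
    Sound (Adm k n M klo khi) (7 * K) n M k (step (7 * K) (comb (7 * K) 14 n)
      (comb (7 * K) 28 ((M + 1) / 2)) (comb (7 * K + 14) 28 (M / 2)) ((1 <<< (28 * n)) - 1) klo khi r
      F G) (m + 2) := by
  intro S C hS hC hSC hcard i t kt h
  unfold ap step at h
  simp only [land', shl', add', sub', mul', div', mod'] at h
  have hu : bs (fun a => 7 * a) (U n S) % 127 = (U n S).card := by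
    apply bs_mod
    have : (U n S).card ≤ n := by
      unfold U
      exact (card_filter_le _ _).trans (by rw [card_range])
    omega
  rw [hu] at h
  set e := (S.filter (fun a => a % 2 = 0)).card with he
  set u := (U n S).card with hu'
  set lo := klo - e with hlo
  set hi := r - (r - (khi - e)) with hhi
  set Je := i % 32 with hJe
  set Jo := i / 32 % 32 with hJo
  set B := bnd r lo hi Je Jo with hB
  have hJe' : Je ≤ 31 := by omega
  have hJo' : Jo ≤ 31 := by omega
  have hScard : S.card ≤ 10 := by omega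
  have hSr : S.card + r = k := by omega
  have eT : ((bs (fun a => 28 * a) (U M S) &&& ((1 <<< (28 * n) : ℕ) - 1)) * bs (fun a => 7 * K - 14 * a) S +
    bs (fun a => 28 * a) S * bs (fun a => 7 * K - 14 * a) (U n S)) +
    (((bs (fun a => 7 * a) (U n S) * bs (fun a => 7 * a) S) <<< (7 * K)) + comb (7 * K) 14 n) =
      nT (7 * K) n M S := rfl
  rw [eT] at h
  have eT' : ∀ oe oo : ℕ, nT (7 * K) n M S + (oe * comb (7 * K) 28 ((M + 1) / 2) +
      oo * comb (7 * K + 14) 28 (M / 2)) = nT' (7 * K) n M S oe oo := fun _ _ => rfl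
  rw [eT', eT', bif0_eq] at h
  split_ifs at h with h0
  rw [Nat.land_comm, bs_land (inj_ψ _ C), bs_eq_zero, filter_eq_empty_iff] at h0
  -- the counts are at most the weights
  have hJ : ∀ b ∈ C, cntf K n S (K + 2 * b) ≤ wt Je Jo b := by
    intro b hb
    have h1 := h0 hb
    rw [T'_bit hK hn hS hScard (by omega) (by omega) (hC b hb)] at h1
    unfold wt at h1 ⊢
    split_ifs at h1 ⊢ with hp
    · omega
    · omega
  have hcnt : ∀ b, ((U n S).filter (fun x => opt S b x)).card ≤ cntf K n S (K + 2 * b) :=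
    fun b => cnt_le_cntf (by omega) hn hS b
  have hbd : ∀ A, Adm k n M klo khi A → S ⊆ A → (∀ a ∈ A, a ∉ S → a ∈ C) → ∀ B' : Finset ℕ,
      B' ⊆ A \ S → u + ∑ b ∈ B', wt Je Jo b ≤ ∑ b ∈ B', cntf K n S (K + 2 * b) + B := by
    intro A hA hSA hAC B' hB'
    exact bound_main hA hSA hSr (U n S) (fun x hx => mem_U.1 hx) (fun b => cntf K n S (K + 2 * b))
      (fun b _ => hcnt b)
      (fun b hb => hJ b (hAC b (mem_sdiff.1 hb).1 (mem_sdiff.1 hb).2)) hB'
  rw [bif0_eq] at h
  split_ifs at h with h1
  · cases t with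
    | nil => exact absurd h Bool.false_ne_true
    | cons w t =>
      simp only at h
      rw [bs_land (inj_ψ _ C)] at h
      set t1 := nif hi 64 (u + Je - B) with ht1
      set t2 := nif (r - lo) 64 (u + Jo - B) with ht2
      have hfil : Fil (Adm k n M klo khi) (7 * K) M S C (nT' (7 * K) n M S (63 - Je) (63 - Jo))
          (u + 126 - B) := by
        intro c d hc hd hcd A hA hSA hAC hcA hcS hdA hdS hdc
        rw [T'_digit hK hn hS hScard (by omega) (by omega) hc,
          T'_digit hK hn hS hScard (by omega) (by omega) hd] at hcd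
        have h2 := hbd A hA hSA hAC {c, d} (by
          intro y hy
          rw [mem_insert, mem_singleton] at hy
          rcases hy with rfl | rfl
          · exact mem_sdiff.2 ⟨hcA, hcS⟩
          · exact mem_sdiff.2 ⟨hdA, hdS⟩)
        rw [sum_pair hdc.symm, sum_pair hdc.symm] at h2
        have w1 : wt (63 - Je) (63 - Jo) c + wt Je Jo c = 63 := by
          unfold wt
          split_ifs <;> omega
        have w2 : wt (63 - Je) (63 - Jo) d + wt Je Jo d = 63 := by
          unfold wt
          split_ifs <;> omega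
        omega
      have hsub := filter_subset (fun c => (nT' (7 * K) n M S (64 - t1) (64 - t2)).testBit
        (ψ (7 * K) c) = true) C
      obtain ⟨h2, h3⟩ := inner_sound hK hn hF hG hS hcard (fun c hc => hC c (hsub hc))
        (disjoint_of_subset_right hsub hSC) (hfil.mono hsub) h
      refine ⟨?_, h3⟩
      intro A hA hSA hAC
      refine h2 A hA hSA (fun b hb hbS => ?_)
      have hbC := hAC b hb hbS
      rw [mem_filter]
      refine ⟨hbC, ?_⟩
      rw [T'_bit hK hn hS hScard (by omega) (by omega) (hC b hbC)]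
      have h4 := hbd A hA hSA hAC {b} (by
        intro y hy
        rw [mem_singleton] at hy
        subst hy
        exact mem_sdiff.2 ⟨hb, hbS⟩)
      rw [sum_singleton, sum_singleton] at h4
      have hcard' : (A \ S).card = r := by
        rw [card_sdiff_of_subset hSA, hA.card]
        omega
      have hbA : b ∈ A \ S := mem_sdiff.2 ⟨hb, hbS⟩
      have hr0 : 0 < r := by
        rw [← hcard']
        exact card_pos.2 ⟨b, hbA⟩
      by_cases hp : b % 2 = 0
      · -- an even element
        have h5 : e + 1 ≤ khi := by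
          refine le_trans ?_ hA.hi
          have h6 : insert b (S.filter (fun a => a % 2 = 0)) ⊆ A.filter (fun a => a % 2 = 0) := by
            intro y hy
            rcases mem_insert.1 hy with rfl | hy
            · exact mem_filter.2 ⟨hb, hp⟩
            · exact mem_filter.2 ⟨hSA (mem_filter.1 hy).1, (mem_filter.1 hy).2⟩
          have h7 := card_le_card h6
          rwa [card_insert_of_notMem (fun h => hbS (mem_filter.1 h).1)] at h7
        have h6 : t1 = u + Je - B := by
          rw [ht1, nif_eq, if_neg (by omega)]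
        have w1 : wt (64 - t1) (64 - t2) b = 64 - t1 := by unfold wt; rw [if_pos hp]
        have w2 : wt Je Jo b = Je := by unfold wt; rw [if_pos hp]
        rw [w1]
        rw [w2] at h4
        omega
      · -- an odd element
        have h5 : lo < r := by
          have h6 : (A \ S).filter (fun a => a % 2 = 0) ⊂ A \ S := by
            refine ⟨filter_subset _ _, fun h => hp (mem_filter.1 (h hbA)).2⟩
          have h7 := card_lt_card h6
          have h8 : (A.filter (fun a => a % 2 = 0)).card ≤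
              (S.filter (fun a => a % 2 = 0)).card + ((A \ S).filter (fun a => a % 2 = 0)).card := by
            refine (card_le_card (t := S.filter (fun a => a % 2 = 0) ∪
              (A \ S).filter (fun a => a % 2 = 0)) ?_).trans (card_union_le _ _)
            intro y hy
            rw [mem_filter] at hy
            rw [mem_union, mem_filter, mem_filter, mem_sdiff]
            by_cases hyS : y ∈ S
            · exact Or.inl ⟨hyS, hy.2⟩
            · exact Or.inr ⟨⟨hy.1, hyS⟩, hy.2⟩
          have h9 := hA.lo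
          omega
        have h6 : t2 = u + Jo - B := by
          rw [ht2, nif_eq, if_neg (by omega)]
        have w1 : wt (64 - t1) (64 - t2) b = 64 - t2 := by unfold wt; rw [if_neg hp]
        have w2 : wt Je Jo b = Jo := by unfold wt; rw [if_neg hp]
        rw [w1]
        rw [w2] at h4
        omega
  · refine ⟨?_, t, h⟩
    intro A hA hSA hAC
    have h2 := hbd A hA hSA hAC ∅ (empty_subset _)
    rw [sum_empty, sum_empty] at h2
    omega

end MP61673a.Small
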