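import Pool.Agent.Mu673.SmallI
import Pool.Agent.Mu673.SmallE

set_option autoImplicit false

/-!
Soundness of the runs.
-/

namespace MP61673a.Small

open Finset

/-- parameters -/
structure Par (k n M K : ℕ) : Prop where
  hK : 28 * M ≤ 7 * K
  hn : n ≤ M
  hn' : n < 127
  hk : k ≤ 10

lemma nodes_succ (Z CST OE OO MASK klo khi r0 : ℕ) (F G : Fn) (j : ℕ) :
    nodes Z CST OE OO MASK klo khi r0 F G (j + 1) =
      (step Z CST OE OO MASK klo khi (r0 + j + 1) (nodes Z CST OE OO MASK klo khi r0 F G j).1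
        (nodes Z CST OE OO MASK klo khi r0 F G j).2, (nodes Z CST OE OO MASK klo khi r0 F G j).1) := rfl

theorem lev_sound {k n M K : ℕ} (h : Par k n M K) {klo khi r0 : ℕ} {F G : Fn}
    (hF : Sound (Adm k n M klo khi) (7 * K) n M k F (r0 + 1))
    (hG : Sound (Adm k n M klo khi) (7 * K) n M k G r0) (j : ℕ) :
    Sound (Adm k n M klo khi) (7 * K) n M k (lev (7 * K) n M klo khi r0 F G j) (r0 + j + 1) := by
  have key : ∀ j, Sound (Adm k n M klo khi) (7 * K) n M k
      (nodes (7 * K) (comb (7 * K) 14 n) (comb (7 * K) 28 ((M + 1) / 2))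
        (comb (7 * K + 14) 28 (M / 2)) ((1 <<< (28 * n)) - 1) klo khi r0 F G j).1 (r0 + j + 1) ∧
      Sound (Adm k n M klo khi) (7 * K) n M k
      (nodes (7 * K) (comb (7 * K) 14 n) (comb (7 * K) 28 ((M + 1) / 2))
        (comb (7 * K + 14) 28 (M / 2)) ((1 <<< (28 * n)) - 1) klo khi r0 F G j).2 (r0 + j) := by
    intro j
    induction j with
    | zero => exact ⟨hF, hG⟩
    | succ j ih =>
      rw [nodes_succ]
      refine ⟨?_, ih.1⟩
      have := step_sound h.hK h.hn h.hn' h.hk (klo := klo) (khi := khi) (r := r0 + j + 1) (m := r0 + j)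
        rfl ih.1 ih.2
      exact this
  exact (key j).1

lemma bs_inj {φ : ℕ → ℕ} (h : Function.Injective φ) {A B : Finset ℕ} (hAB : bs φ A = bs φ B) :
    A = B := by
  ext a
  have h1 := testBit_bs (h.injOn (s := (A : Set ℕ))) (φ a)
  have h2 := testBit_bs (h.injOn (s := (B : Set ℕ))) (φ a)
  rw [hAB, h2] at h1
  constructor
  · intro ha
    obtain ⟨b, hb, h3⟩ := h1.2 ⟨a, ha, rfl⟩
    exact h h3 ▸ hb
  · intro ha
    obtain ⟨b, hb, h3⟩ := h1.1 ⟨a, ha, rfl⟩
    exact h h3 ▸ hb

lemma U_empty (n : ℕ) : U n ∅ = range n := by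
  ext x
  rw [mem_U, mem_range]
  constructor
  · exact fun h => h.1
  · refine fun h => ⟨h, ?_⟩
    rintro ⟨a, ha, _⟩
    exact absurd ha (notMem_empty a)

lemma start_eq {n M Z : ℕ} (hZ : 14 * n ≤ Z) (F : Fn) (C : Finset ℕ) (i : ℕ)
    (t : List ℕ) (kt : Kt) : start Z n M F (bs (ψ Z) C) i t kt = ap F Z n M ∅ C i t kt := by
  unfold start ap
  have e1 : comb 0 7 n = bs (fun a => 7 * a) (U n ∅) := by
    rw [comb_eq, U_empty]
    unfold bs
    apply sum_congr rfl
    intro x _
    rw [zero_add]
  have e2 : comb 0 28 M = bs (fun a => 28 * a) (U M ∅) := by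
    rw [comb_eq, U_empty]
    unfold bs
    apply sum_congr rfl
    intro x _
    rw [zero_add]
  have e3 : comb (Nat.sub Z (Nat.mul 14 (Nat.sub n 1))) 14 n = bs (fun a => Z - 14 * a) (U n ∅) := by
    rw [comb_eq, U_empty, ← sum_range_reflect]
    unfold bs
    apply sum_congr rfl
    intro x hx
    rw [mem_range] at hx
    congr 1
    simp only [sub', mul']
    omega
  have e4 : nE ∅ = 0 := by unfold nE bs; simp
  have e5 : nO ∅ = 0 := by unfold nO bs; simp
  rw [e1, e2, e3, e4, e5, filter_empty, card_empty]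
  simp only [bs_empty]

lemma comb_C (Z M : ℕ) : comb (Nat.add Z 6) 14 M = bs (ψ Z) (range M) := by
  rw [comb_eq]
  rfl

theorem fullRun_sound {k n M K : ℕ} (h : Par k n M K) {klo khi i : ℕ} {t : List ℕ}
    (hr : fullRun (7 * K) n M klo khi k i t = true) : Ref (Adm k n M klo khi) ∅ (range M) := by
  unfold fullRun at hr
  rw [comb_C, start_eq (by have := h.hK; have := h.hn; omega)] at hr
  have h1 := lev_sound h (klo := klo) (khi := khi) (r0 := 0) (sound_node0 k n M klo khi (7 * K))
    (sound_nodeS k n M klo khi (7 * K)) k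
  exact (h1 ∅ (range M) (fun a ha => absurd ha (notMem_empty a)) (fun a ha => mem_range.1 ha)
    (disjoint_empty_left _) (by rw [card_empty]; omega) _ _ _ hr).1

/-- the elements given by the bits of a number -/
def bits (M cm : ℕ) : Finset ℕ := (range M).filter (fun c => cm.testBit c = true)

lemma spread_eq (Z M cm : ℕ) : spread Z M cm = bs (ψ Z) (bits M cm) := by
  induction M with
  | zero => rfl
  | succ M ih =>
    have e : spread Z (M + 1) cm = spread Z M cm |||
        ((cm >>> M) % 2) <<< (Z + 6 + 14 * M) := rfl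
    rw [e, ih]
    unfold bits
    rw [range_add_one, filter_insert]
    by_cases hb : cm.testBit M = true
    · have h1 : (cm >>> M) % 2 = 1 := by
        have : ¬ (cm >>> M) % 2 = 0 := fun h => bit0.1 h hb
        omega
      rw [if_pos hb, h1]
      exact bs_lor (φ := ψ Z) (inj_ψ Z _)
    · rw [if_neg hb, bit0.2 hb, Nat.zero_shiftLeft, Nat.or_zero]

/-- a table entry is refuted -/
def RefE (k n M klo khi : ℕ) (l : List ℕ) (cm : ℕ) : Prop :=
  Ref (Adm k n M klo khi) l.toFinset (bits M cm)

lemma build_eq {n M Z : ℕ} (hZ : 28 * M ≤ Z) (hn : n ≤ M) (F : Fn) (i : ℕ) (t : List ℕ) (kt : Kt) :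
    ∀ (l : List ℕ) (S : Finset ℕ), l.Nodup → (∀ a ∈ l, a < M) → (∀ a ∈ l, a ∉ S) →
      (∀ a ∈ S, a < M) →
      ap (build Z F l) Z n M S ∅ i t kt = ap F Z n M (l.toFinset ∪ S) ∅ i t kt := by
  intro l
  induction l with
  | nil =>
    intro S _ _ _ _
    rw [List.toFinset_nil, empty_union]
    rfl
  | cons c l ih =>
    intro S hl hM hlS hS
    rw [List.nodup_cons] at hl
    have hc : c < M := hM c (List.mem_cons_self ..)
    have hcS : c ∉ S := hlS c (List.mem_cons_self ..)
    have e1 : ap (build Z F (c :: l)) Z n M S ∅ i t kt =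
        addc Z (build Z F l) (S.filter (fun a => a % 2 = 0)).card (nE S) (nO S) (bs (fun a => 7 * a) S)
      (bs (fun a => 14 * a) S) (bs (fun a => 28 * a) S) (bs (fun a => 56 * a) S)
      (bs (fun a => Z - 7 * a) S) (bs (fun a => Z - 14 * a) S) (bs (fun a => Z - 28 * a) S)
      (bs (fun a => 7 * a) (U n S)) (bs (fun a => 28 * a) (U M S)) (bs (fun a => Z - 14 * a) (U n S))
      (bs (ψ Z) ∅) c i t kt := rfl
    rw [e1, addc_eq _ hZ hn hS hc hcS, filter_empty]
    rw [ih (insert c S) hl.2 (fun a ha => hM a (List.mem_cons_of_mem _ ha)) (fun a ha => by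
      rw [mem_insert]
      rintro (h | h)
      · exact hl.1 (h ▸ ha)
      · exact hlS a (List.mem_cons_of_mem _ ha) h) (fun a ha => by
      rcases mem_insert.1 ha with rfl | ha
      · exact hc
      · exact hS a ha)]
    congr 1
    ext a
    simp only [mem_union, List.mem_toFinset, mem_insert, List.mem_cons]
    tauto

theorem sub1_sound {k n M K : ℕ} (h : Par k n M K) {klo khi r : ℕ} {q : List ℕ × ℕ × ℕ × List ℕ}
    (hr : sub1 (7 * K) n M klo khi r q = true) (hk : q.1.length + r = k) :
    RefE k n M klo khi q.1 q.2.1 := by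
  obtain ⟨l, cm, i, t⟩ := q
  unfold sub1 at hr
  simp only at hr hk
  rw [Bool.and_eq_true] at hr
  obtain ⟨h1, h2⟩ := hr
  unfold okE at h1
  rw [Bool.and_eq_true, decide_eq_true_eq, List.all_eq_true] at h1
  obtain ⟨hnd, h1⟩ := h1
  have hl : ∀ a ∈ l, a < M ∧ ¬ cm.testBit a = true := by
    intro a ha
    have h3 := h1 a ha
    rw [Bool.and_eq_true] at h3
    refine ⟨Nat.le_of_ble_eq_true h3.1, ?_⟩
    exact bit0.1 (Nat.eq_of_beq_eq_true h3.2)
  have hZ : 28 * M ≤ 7 * K := h.hK
  have e0 : (0 : ℕ) = bs (ψ (7 * K)) ∅ := (bs_empty _).symm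
  rw [show start (7 * K) n M (build (7 * K) (setC (lev (7 * K) n M klo khi 0 node0 nodeS r)
      (spread (7 * K) M cm)) l) 0 i t (fun _ => true) = start (7 * K) n M (build (7 * K)
      (setC (lev (7 * K) n M klo khi 0 node0 nodeS r) (spread (7 * K) M cm)) l)
      (bs (ψ (7 * K)) ∅) i t (fun _ => true) by rw [← e0],
    start_eq (by have := h.hn; omega),
    build_eq hZ h.hn _ _ _ _ l ∅ hnd (fun a ha => (hl a ha).1) (fun a _ => notMem_empty a)
      (fun a ha => absurd ha (notMem_empty a)), union_empty] at h2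
  have e1 : ap (setC (lev (7 * K) n M klo khi 0 node0 nodeS r) (spread (7 * K) M cm)) (7 * K) n M
      l.toFinset ∅ i t (fun _ => true) =
      ap (lev (7 * K) n M klo khi 0 node0 nodeS r) (7 * K) n M l.toFinset (bits M cm) i t
        (fun _ => true) := by
    unfold ap setC
    rw [spread_eq]
  rw [e1] at h2
  have h3 := lev_sound h (klo := klo) (khi := khi) (r0 := 0) (sound_node0 k n M klo khi (7 * K))
    (sound_nodeS k n M klo khi (7 * K)) r
  refine (h3 l.toFinset (bits M cm) (fun a ha => (hl a (List.mem_toFinset.1 ha)).1)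
    (fun a ha => mem_range.1 (mem_filter.1 ha).1) ?_ ?_ _ _ _ h2).1
  · rw [disjoint_left]
    intro a ha ha'
    exact (hl a (List.mem_toFinset.1 ha)).2 (mem_filter.1 ha').2
  · rw [List.toFinset_card_of_nodup hnd]
    omega

lemma g1_eq (l : List ℕ) : g1 l = bs (fun a => 7 * a) l.toFinset := by
  induction l with
  | nil => rfl
  | cons c l ih =>
    have e : g1 (c :: l) = g1 l ||| 1 <<< (7 * c) := rfl
    rw [e, ih, List.toFinset_cons]
    exact bs_lor (φ := fun a => 7 * a) (inj_mul (by norm_num) _)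

theorem sub2_sound {k n M K : ℕ} (h : Par k n M K) {klo khi : ℕ} {q : List ℕ × ℕ × ℕ × List ℕ}
    (hr : sub2 (7 * K) n M klo khi k q = true) : RefE k n M klo khi q.1 q.2.1 := by
  unfold sub2 at hr
  rw [Bool.and_eq_true] at hr
  have h1 := Nat.le_of_ble_eq_true hr.1
  exact sub1_sound h hr.2 (by rw [sub']; omega)

/-- all entries of a table are refuted -/
def RefL (k n M klo khi : ℕ) (l : List (List ℕ × ℕ)) : Prop := ∀ p ∈ l, RefE k n M klo khi p.1 p.2

theorem chunk_sound {k n M K : ℕ} (h : Par k n M K) {klo khi : ℕ} {l : List (List ℕ × ℕ × ℕ × List ℕ)}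
    (hr : l.all (sub2 (7 * K) n M klo khi k) = true) :
    RefL k n M klo khi (l.map (fun q => (q.1, q.2.1))) := by
  rw [List.all_eq_true] at hr
  intro p hp
  rw [List.mem_map] at hp
  obtain ⟨q, hq, rfl⟩ := hp
  exact sub2_sound h (hr q hq)

theorem orLook_sound {k n M klo khi Z : ℕ} {L : List (List (List ℕ × ℕ))}
    (hL : ∀ l ∈ L, RefL k n M klo khi l) {F : Fn} {m : ℕ}
    (hF : Sound (Adm k n M klo khi) Z n M k F m) :
    Sound (Adm k n M klo khi) Z n M k (orLook Z M L F) m := by
  intro S C hS hC hSC hcard i t kt h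
  unfold ap orLook at h
  cases t with
  | nil => exact absurd h Bool.false_ne_true
  | cons w t =>
    simp only at h
    rw [bif0_eq] at h
    split_ifs at h with h0
    · exact hF S C hS hC hSC hcard i t kt h
    · unfold look at h
      generalize Nat.sub w 1 = w' at h
      cases hw : L[Nat.div w' 256]? with
      | none =>
        rw [hw] at h
        exact absurd h Bool.false_ne_true
      | some l =>
        rw [hw] at h
        simp only [Option.elim_some] at h
        cases hv : l[Nat.mod w' 256]? with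
        | none =>
          rw [hv] at h
          exact absurd h Bool.false_ne_true
        | some p =>
          rw [hv] at h
          simp only [Option.elim_some, Bool.and_eq_true] at h
          obtain ⟨h1, h2, h3⟩ := h
          have h4 := Nat.eq_of_beq_eq_true h1
          have h5 := Nat.eq_of_beq_eq_true h2
          rw [g1_eq] at h4
          rw [spread_eq] at h5
          have h6 : S = p.1.toFinset := bs_inj (fun a b (hab : 7 * a = 7 * b) => by omega) h4
          have h7 : C = bits M p.2 := bs_inj (fun a b hab => by unfold ψ at hab; omega) h5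
          refine ⟨?_, t, h3⟩
          rw [h6, h7]
          exact hL l (List.mem_of_getElem? hw) p (List.mem_of_getElem? hv)

theorem topRun_sound {k n M K : ℕ} (h : Par k n M K) {klo khi i : ℕ} {L : List (List (List ℕ × ℕ))}
    {t : List ℕ} (hL : ∀ l ∈ L, RefL k n M klo khi l)
    (hr : topRun (7 * K) n M klo khi L k i t = true) : Ref (Adm k n M klo khi) ∅ (range M) := by
  have key : ∀ j, Sound (Adm k n M klo khi) (7 * K) n M k
      (nodesL (7 * K) M L (comb (7 * K) 14 n) (comb (7 * K) 28 ((M + 1) / 2))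
        (comb (7 * K + 14) 28 (M / 2)) ((1 <<< (28 * n)) - 1) klo khi j).1 (j + 1) ∧
      Sound (Adm k n M klo khi) (7 * K) n M k
      (nodesL (7 * K) M L (comb (7 * K) 14 n) (comb (7 * K) 28 ((M + 1) / 2))
        (comb (7 * K + 14) 28 (M / 2)) ((1 <<< (28 * n)) - 1) klo khi j).2 j := by
    intro j
    induction j with
    | zero => exact ⟨orLook_sound hL (sound_node0 k n M klo khi (7 * K)),
        sound_nodeS k n M klo khi (7 * K)⟩
    | succ j ih =>
      refine ⟨?_, ih.1⟩
      have := step_sound h.hK h.hn h.hn' h.hk (klo := klo) (khi := khi) (r := j + 1) (m := j)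
        rfl ih.1 ih.2
      exact orLook_sound hL this
  unfold topRun at hr
  rw [comb_C, start_eq (by have := h.hK; have := h.hn; omega)] at hr
  exact ((key k).1 ∅ (range M) (fun a ha => absurd ha (notMem_empty a))
    (fun a ha => mem_range.1 ha) (disjoint_empty_left _) (by rw [card_empty]; omega) _ _ _ hr).1

end MP61673a.Small
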