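import Pool.Agent.Mu673.Lift
import Pool.Agent.Mu673.SmallJ

set_option autoImplicit false

/-!
Maximal three-free sets of `{1, …, n}` and the search.
-/

namespace MP61673a.Small

open Finset

/-- the translate of a maximal three-free set covers all labels -/
lemma of_maximal {n : ℕ} {A : Finset ℕ} (h : Lift.IsMaximalThreeFree n A) :
    ∃ S : Finset ℕ, S.card = A.card ∧ Free S ∧ (∀ a ∈ S, a < n) ∧ ∀ x < n, Covd S x := by
  obtain ⟨h1, h2, h3⟩ := h
  have hpos : ∀ a ∈ A, 1 ≤ a ∧ a ≤ n := fun a ha => mem_Icc.1 (h1 ha)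
  refine ⟨A.image (fun a => a - 1), ?_, ?_, ?_, ?_⟩
  · rw [card_image_of_injOn]
    intro a ha b hb hab
    have := hpos a ha
    have := hpos b hb
    simp only at hab
    omega
  · intro a ha b hb c hc hab hbc habc
    rw [mem_image] at ha hb hc
    obtain ⟨a', ha', rfl⟩ := ha
    obtain ⟨b', hb', rfl⟩ := hb
    obtain ⟨c', hc', rfl⟩ := hc
    have := hpos a' ha'
    have := hpos b' hb'
    have := hpos c' hc'
    exact h2 a' ha' b' hb' c' hc' (by omega) (by omega) (by omega)
  · intro a ha
    rw [mem_image] at ha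
    obtain ⟨a', ha', rfl⟩ := ha
    have := hpos a' ha'
    omega
  · intro x hx
    have hmem : ∀ a ∈ A, a - 1 ∈ A.image (fun a => a - 1) := fun a ha => mem_image.2 ⟨a, ha, rfl⟩
    by_cases hxA : x + 1 ∈ A
    · refine ⟨x, ?_, x, ?_, T3_self.2 rfl⟩
      · simpa using hmem _ hxA
      · simpa using hmem _ hxA
    · have h4 := h3 (x + 1) (mem_Icc.2 ⟨by omega, by omega⟩) hxA
      unfold Lift.ThreeFree at h4
      push Not at h4
      obtain ⟨a, ha, b, hb, c, hc, hab, hbc, habc⟩ := h4
      rw [mem_insert] at ha hb hc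
      rcases ha with ha | ha
      · have hb : b ∈ A := by
          rcases hb with hb | hb
          · omega
          · exact hb
        have hc : c ∈ A := by
          rcases hc with hc | hc
          · omega
          · exact hc
        have := hpos b hb
        have := hpos c hc
        exact ⟨b - 1, hmem b hb, c - 1, hmem c hc, Or.inr (Or.inl (by omega))⟩
      · have := hpos a ha
        rcases hb with hb | hb
        · have hc : c ∈ A := by
            rcases hc with hc | hc
            · omega
            · exact hc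
          have := hpos c hc
          exact ⟨a - 1, hmem a ha, c - 1, hmem c hc, Or.inr (Or.inr (by omega))⟩
        · have := hpos b hb
          rcases hc with hc | hc
          · exact ⟨a - 1, hmem a ha, b - 1, hmem b hb, Or.inl (by omega)⟩
          · exact absurd habc (h2 a ha b hb c hc hab hbc)

/-- no class is possible -/
lemma ref_empty_class {k n M klo khi : ℕ} (h : khi < klo) : Ref (Adm k n M klo khi) ∅ (range M) := by
  intro A hA _ _
  have h1 := hA.lo
  have h2 := hA.hi
  omega

theorem small_of {K : ℕ} (href : ∀ k ≤ K, ∃ M klo khi, Cls k (k * k + 1) M klo khi ∧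
    Ref (Adm k (k * k + 1) M klo khi) ∅ (range M)) {n : ℕ} {A : Finset ℕ}
    (h : Lift.IsMaximalThreeFree n A) (hn : n ≤ (K + 1) * (K + 1)) : n ≤ A.card ^ 2 := by
  obtain ⟨S, h1, h2, h3, h4⟩ := of_maximal h
  by_cases hk : A.card ≤ K
  · obtain ⟨M, klo, khi, h5, h6⟩ := href _ hk
    rw [pow_two]
    exact no_cover h5 h6 h2 h3 h1 h4
  · push Not at hk
    rw [pow_two]
    exact hn.trans (Nat.mul_le_mul hk hk)

lemma ref_trivial : ∀ k ≤ 3, ∃ M klo khi, Cls k (k * k + 1) M klo khi ∧
    Ref (Adm k (k * k + 1) M klo khi) ∅ (range M) := by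
  intro k hk
  refine ⟨0, 1, 0, ?_, ref_empty_class (by norm_num)⟩
  interval_cases k
  · decide
  · decide
  · decide
  · decide

end MP61673a.Small
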