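import Pool.Agent.Mu673.Kink

/-!
NODE RULES FOR INDICATOR STEPS (values of helper71): `Σ hat hat (hat) k(node value of the form)`
is at most the indicator of `form > 0`, at every real position.
-/

set_option autoImplicit false

namespace MP61673a.Kink

open Finset

noncomputable section

/-- strict step -/
def st (x : ℝ) : ℝ := if 0 < x then 1 else 0

/-- non strict step -/
def stE (x : ℝ) : ℝ := if 0 ≤ x then 1 else 0

lemma st_of_pos {x : ℝ} (h : 0 < x) : st x = 1 := if_pos h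
lemma st_of_nonpos {x : ℝ} (h : x ≤ 0) : st x = 0 := if_neg (not_lt.2 h)
lemma stE_of_nonneg {x : ℝ} (h : 0 ≤ x) : stE x = 1 := if_pos h
lemma stE_of_neg {x : ℝ} (h : x < 0) : stE x = 0 := if_neg (not_le.2 h)

lemma stE_eq (x : ℝ) : stE x = 1 - st (-x) := by
  rcases lt_or_ge x 0 with h | h
  · rw [stE_of_neg h, st_of_pos (by linarith)]
    ring
  · rw [stE_of_nonneg h, st_of_nonpos (by linarith)]
    ring

lemma st_nonneg (x : ℝ) : 0 ≤ st x := by
  unfold st
  split_ifs <;> norm_num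

lemma st_le_one (x : ℝ) : st x ≤ 1 := by
  unfold st
  split_ifs <;> norm_num

/-! ### two bodies, coefficients 1, 2 -/

/-- node values for two bodies: `-1/3, -1/10, 1/5` at `-1, 0, 1` -/
def k2 (m : ℤ) : ℝ :=
  if m ≤ -2 then 0 else if m = -1 then -(1/3) else if m = 0 then -(1/10)
  else if m = 1 then 1/5 else 1

lemma k2_low {m : ℤ} (h : m ≤ -2) : k2 m = 0 := if_pos h
lemma k2_m1 : k2 (-1) = -(1/3) := by norm_num [k2]
lemma k2_0 : k2 0 = -(1/10) := by norm_num [k2]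
lemma k2_1 : k2 1 = 1/5 := by norm_num [k2]
lemma k2_high {m : ℤ} (h : 2 ≤ m) : k2 m = 1 := by
  unfold k2
  rw [if_neg (by omega), if_neg (by omega), if_neg (by omega), if_neg (by omega)]

lemma k2_le_one (m : ℤ) : k2 m ≤ 1 := by
  unfold k2
  split_ifs <;> norm_num

lemma k2_core (m : ℤ) {s u : ℝ} (hs0 : 0 ≤ s) (hs1 : s ≤ 1) (hu0 : 0 ≤ u) (hu1 : u ≤ 1) :
    (1 - s) * (1 - u) * k2 m + s * (1 - u) * k2 (m + 1) + (1 - s) * u * k2 (m + 2)
      + s * u * k2 (m + 3) ≤ st (m + s + 2 * u) := by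
  have w00 := mul_nonneg (sub_nonneg.2 hs1) (sub_nonneg.2 hu1)
  have w10 := mul_nonneg hs0 (sub_nonneg.2 hu1)
  have w01 := mul_nonneg (sub_nonneg.2 hs1) hu0
  have w11 := mul_nonneg hs0 hu0
  rcases lt_or_ge 0 ((m : ℝ) + s + 2 * u) with h | h
  · rw [st_of_pos h]
    have a1 := mul_le_mul_of_nonneg_left (k2_le_one m) w00
    have a2 := mul_le_mul_of_nonneg_left (k2_le_one (m + 1)) w10
    have a3 := mul_le_mul_of_nonneg_left (k2_le_one (m + 2)) w01
    have a4 := mul_le_mul_of_nonneg_left (k2_le_one (m + 3)) w11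
    linarith
  · rw [st_of_nonpos h]
    have hm : m ≤ 0 := by
      have : (m : ℝ) ≤ 0 := by linarith
      exact_mod_cast this
    rcases le_or_gt m (-5) with c | c
    · rw [k2_low (by omega : m ≤ -2), k2_low (by omega : m + 1 ≤ -2),
        k2_low (by omega : m + 2 ≤ -2), k2_low (by omega : m + 3 ≤ -2)]
      simp
    have c' : m = -4 ∨ m = -3 ∨ m = -2 ∨ m = -1 ∨ m = 0 := by omega
    rcases c' with rfl | rfl | rfl | rfl | rfl
    · norm_num [k2]
      nlinarith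
    · norm_num [k2]
      nlinarith
    · norm_num [k2] at h ⊢
      have h' : s + 2 * u ≤ 2 := by linarith
      -- s(1-u)(-1/3) + (1-s)u(-1/10) + su/5
      nlinarith [mul_nonneg hs0 (sub_nonneg.2 h'), sq_nonneg (s - 1/2), sq_nonneg (s - 3/5)]
    · norm_num [k2] at h ⊢
      nlinarith [mul_nonneg hs0 (by linarith : 0 ≤ 1 - s - 2 * u), sq_nonneg (s - 1/2)]
    · have h1 : s = 0 := by
        push_cast at h
        linarith
      have h2 : u = 0 := by
        push_cast at h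
        linarith
      subst h1 h2
      norm_num [k2]


/-- sum against the hats with reflected argument -/
lemma sum_hat_neg {I : Finset ℤ} {x : ℝ} (h : Near I x) (F : ℤ → ℝ) :
    ∑ i ∈ I, hat i x * F (-i) = Int.fract x * F (-⌊x⌋ - 1) + (1 - Int.fract x) * F (-⌊x⌋) := by
  rw [sum_hat h (fun i => F (-i)), show -(⌊x⌋ + 1) = -⌊x⌋ - 1 by ring]
  ring

/-- a sign: interpolation of `F (σ i)` in the form `(1 - s) F m + s F (m + 1)` with
`m + s = σ x` -/
lemma sum_hat_sign {I : Finset ℤ} {x : ℝ} (h : Near I x) {σ : ℤ} (hσ : σ = 1 ∨ σ = -1) :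
    ∃ m : ℤ, ∃ s : ℝ, 0 ≤ s ∧ s ≤ 1 ∧ (m : ℝ) + s = σ * x ∧
      ∀ F : ℤ → ℝ, ∑ i ∈ I, hat i x * F (σ * i) = (1 - s) * F m + s * F (m + 1) := by
  have h0 := Int.fract_nonneg x
  have h1 := Int.fract_lt_one x
  have h2 := Int.floor_add_fract x
  rcases hσ with rfl | rfl
  · refine ⟨⌊x⌋, Int.fract x, h0, h1.le, by push_cast; linarith, fun F => ?_⟩
    rw [← sum_hat h F]
    refine sum_congr rfl fun i _ => ?_
    rw [one_mul]
  · refine ⟨-⌊x⌋ - 1, 1 - Int.fract x, by linarith, by linarith, by push_cast; linarith,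
      fun F => ?_⟩
    have := sum_hat_neg h F
    rw [show -⌊x⌋ - 1 + 1 = -⌊x⌋ by ring]
    simp only [neg_one_mul]
    rw [this]
    ring

lemma sum2_one {I J : Finset ℤ} {a b : ℝ} (hI : Near I a) (hJ : Near J b) :
    ∑ i ∈ I, ∑ j ∈ J, hat i a * hat j b = 1 := by
  rw [← sum_mul_sum, sum_hat_one hI, sum_hat_one hJ]
  ring

lemma sum3_one {I J K : Finset ℤ} {a b c : ℝ} (hI : Near I a) (hJ : Near J b) (hK : Near K c) :
    ∑ i ∈ I, ∑ j ∈ J, ∑ k ∈ K, hat i a * hat j b * hat k c = 1 := by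
  have h1 : ∑ i ∈ I, ∑ j ∈ J, ∑ k ∈ K, hat i a * hat j b * hat k c
      = ∑ i ∈ I, ∑ j ∈ J, hat i a * hat j b := by
    refine sum_congr rfl fun i _ => sum_congr rfl fun j _ => ?_
    rw [← mul_sum, sum_hat_one hK, mul_one]
  rw [h1, sum2_one hI hJ]

lemma sum2_sign {I J : Finset ℤ} {a b : ℝ} (hI : Near I a) (hJ : Near J b) {σ τ : ℤ}
    (hσ : σ = 1 ∨ σ = -1) (hτ : τ = 1 ∨ τ = -1) :
    ∃ m n : ℤ, ∃ s u : ℝ, 0 ≤ s ∧ s ≤ 1 ∧ 0 ≤ u ∧ u ≤ 1 ∧ (m : ℝ) + s = σ * a ∧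
      (n : ℝ) + u = τ * b ∧
      ∀ F : ℤ → ℤ → ℝ, ∑ i ∈ I, ∑ j ∈ J, hat i a * hat j b * F (σ * i) (τ * j)
        = (1 - s) * (1 - u) * F m n + s * (1 - u) * F (m + 1) n + (1 - s) * u * F m (n + 1)
          + s * u * F (m + 1) (n + 1) := by
  obtain ⟨m, s, hs0, hs1, e1, g1⟩ := sum_hat_sign hI hσ
  obtain ⟨n, u, hu0, hu1, e2, g2⟩ := sum_hat_sign hJ hτ
  refine ⟨m, n, s, u, hs0, hs1, hu0, hu1, e1, e2, fun F => ?_⟩
  have h1 : ∀ i ∈ I, ∑ j ∈ J, hat i a * hat j b * F (σ * i) (τ * j)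
      = hat i a * ((1 - u) * F (σ * i) n + u * F (σ * i) (n + 1)) := by
    intro i _
    rw [← g2 (fun j => F (σ * i) j), mul_sum]
    exact sum_congr rfl fun j _ => by ring
  rw [sum_congr rfl h1, g1 (fun i => (1 - u) * F i n + u * F i (n + 1))]
  ring

lemma sum3_sign {I J K : Finset ℤ} {a b c : ℝ} (hI : Near I a) (hJ : Near J b) (hK : Near K c)
    {σ τ ρ : ℤ} (hσ : σ = 1 ∨ σ = -1) (hτ : τ = 1 ∨ τ = -1) (hρ : ρ = 1 ∨ ρ = -1) :
    ∃ m n p : ℤ, ∃ s u w : ℝ, 0 ≤ s ∧ s ≤ 1 ∧ 0 ≤ u ∧ u ≤ 1 ∧ 0 ≤ w ∧ w ≤ 1 ∧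
      (m : ℝ) + s = σ * a ∧ (n : ℝ) + u = τ * b ∧ (p : ℝ) + w = ρ * c ∧
      ∀ F : ℤ → ℤ → ℤ → ℝ,
        ∑ i ∈ I, ∑ j ∈ J, ∑ k ∈ K, hat i a * hat j b * hat k c * F (σ * i) (τ * j) (ρ * k)
        = (1 - s) * (1 - u) * (1 - w) * F m n p + (1 - s) * (1 - u) * w * F m n (p + 1)
          + (1 - s) * u * (1 - w) * F m (n + 1) p + (1 - s) * u * w * F m (n + 1) (p + 1)
          + s * (1 - u) * (1 - w) * F (m + 1) n p + s * (1 - u) * w * F (m + 1) n (p + 1)
          + s * u * (1 - w) * F (m + 1) (n + 1) p + s * u * w * F (m + 1) (n + 1) (p + 1) := by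
  obtain ⟨m, n, s, u, hs0, hs1, hu0, hu1, e1, e2, g2⟩ := sum2_sign hI hJ hσ hτ
  obtain ⟨p, w, hw0, hw1, e3, g3⟩ := sum_hat_sign hK hρ
  refine ⟨m, n, p, s, u, w, hs0, hs1, hu0, hu1, hw0, hw1, e1, e2, e3, fun F => ?_⟩
  have h1 : ∀ i ∈ I, ∀ j ∈ J,
      ∑ k ∈ K, hat i a * hat j b * hat k c * F (σ * i) (τ * j) (ρ * k)
      = hat i a * hat j b * ((1 - w) * F (σ * i) (τ * j) p + w * F (σ * i) (τ * j) (p + 1)) := by
    intro i _ j _
    rw [← g3 (fun k => F (σ * i) (τ * j) k), mul_sum]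
    exact sum_congr rfl fun k _ => by ring
  rw [sum_congr rfl fun i hi => sum_congr rfl (h1 i hi),
    g2 (fun i j => (1 - w) * F i j p + w * F i j (p + 1))]
  ring

/-- (S2) MINORANT OF A STRICT TWO BODY STEP `σ a + 2 τ b > c` -/
theorem step2 {I J : Finset ℤ} {a b : ℝ} (hI : Near I a) (hJ : Near J b) {σ τ : ℤ}
    (hσ : σ = 1 ∨ σ = -1) (hτ : τ = 1 ∨ τ = -1) (c : ℤ) :
    ∑ i ∈ I, ∑ j ∈ J, hat i a * hat j b * k2 (σ * i + 2 * (τ * j) - c)
      ≤ st (σ * a + 2 * (τ * b) - c) := by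
  obtain ⟨m, n, s, u, hs0, hs1, hu0, hu1, e1, e2, g⟩ := sum2_sign hI hJ hσ hτ
  rw [g (fun i j => k2 (i + 2 * j - c))]
  have h0 := k2_core (m + 2 * n - c) hs0 hs1 hu0 hu1
  rw [show m + 1 + 2 * n - c = m + 2 * n - c + 1 by ring,
    show m + 2 * (n + 1) - c = m + 2 * n - c + 2 by ring,
    show m + 1 + 2 * (n + 1) - c = m + 2 * n - c + 3 by ring]
  refine h0.trans (le_of_eq ?_)
  congr 1
  push_cast
  rw [← e1, ← e2]
  ring

/-- node values of the majorant of a non strict two body step -/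
def K2 (m : ℤ) : ℝ := 1 - k2 (-m)

/-- (S2') MAJORANT OF A NON STRICT TWO BODY STEP `σ a + 2 τ b ≥ c` -/
theorem step2' {I J : Finset ℤ} {a b : ℝ} (hI : Near I a) (hJ : Near J b) {σ τ : ℤ}
    (hσ : σ = 1 ∨ σ = -1) (hτ : τ = 1 ∨ τ = -1) (c : ℤ) :
    stE (σ * a + 2 * (τ * b) - c)
      ≤ ∑ i ∈ I, ∑ j ∈ J, hat i a * hat j b * K2 (σ * i + 2 * (τ * j) - c) := by
  have h := step2 hI hJ (σ := -σ) (τ := -τ) (by omega) (by omega) (-c)
  have e : ∑ i ∈ I, ∑ j ∈ J, hat i a * hat j b * K2 (σ * i + 2 * (τ * j) - c)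
      = 1 - ∑ i ∈ I, ∑ j ∈ J, hat i a * hat j b * k2 (-σ * i + 2 * (-τ * j) - -c) := by
    rw [← sum2_one hI hJ, ← sum_sub_distrib]
    refine sum_congr rfl fun i _ => ?_
    rw [← sum_sub_distrib]
    refine sum_congr rfl fun j _ => ?_
    unfold K2
    rw [show -(σ * i + 2 * (τ * j) - c) = -σ * i + 2 * (-τ * j) - -c by ring]
    ring
  rw [e, stE_eq]
  have e2 : -((σ : ℝ) * a + 2 * (τ * b) - c) = ((-σ : ℤ) : ℝ) * a + 2 * (((-τ : ℤ) : ℝ) * b)
      - ((-c : ℤ) : ℝ) := by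
    push_cast
    ring
  rw [e2]
  linarith


/-! ### three bodies, coefficients 1, 2, 1 -/

/-- node values for three bodies with coefficients `1, 2, 1`: `-1/2, 0, 0` at `-1, 0, 1` -/
def k3 (m : ℤ) : ℝ := if m = -1 then -(1/2) else if m ≤ 1 then 0 else 1

lemma k3_low {m : ℤ} (h : m ≤ -2) : k3 m = 0 := by
  unfold k3
  rw [if_neg (by omega), if_pos (by omega)]

lemma k3_le_one (m : ℤ) : k3 m ≤ 1 := by
  unfold k3
  split_ifs <;> norm_num

lemma k3_core (m : ℤ) {s u w : ℝ} (hs0 : 0 ≤ s) (hs1 : s ≤ 1) (hu0 : 0 ≤ u) (hu1 : u ≤ 1)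
    (hw0 : 0 ≤ w) (hw1 : w ≤ 1) :
    (1 - s) * (1 - u) * (1 - w) * k3 m + (1 - s) * (1 - u) * w * k3 (m + 1)
      + (1 - s) * u * (1 - w) * k3 (m + 2) + (1 - s) * u * w * k3 (m + 3)
      + s * (1 - u) * (1 - w) * k3 (m + 1) + s * (1 - u) * w * k3 (m + 2)
      + s * u * (1 - w) * k3 (m + 3) + s * u * w * k3 (m + 4)
      ≤ st (m + s + 2 * u + w) := by
  have s1 := sub_nonneg.2 hs1
  have u1 := sub_nonneg.2 hu1
  have w1 := sub_nonneg.2 hw1
  have x000 := mul_nonneg (mul_nonneg s1 u1) w1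
  have x001 := mul_nonneg (mul_nonneg s1 u1) hw0
  have x010 := mul_nonneg (mul_nonneg s1 hu0) w1
  have x011 := mul_nonneg (mul_nonneg s1 hu0) hw0
  have x100 := mul_nonneg (mul_nonneg hs0 u1) w1
  have x101 := mul_nonneg (mul_nonneg hs0 u1) hw0
  have x110 := mul_nonneg (mul_nonneg hs0 hu0) w1
  have x111 := mul_nonneg (mul_nonneg hs0 hu0) hw0
  rcases lt_or_ge 0 ((m : ℝ) + s + 2 * u + w) with h | h
  · rw [st_of_pos h]
    have a1 := mul_le_mul_of_nonneg_left (k3_le_one m) x000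
    have a2 := mul_le_mul_of_nonneg_left (k3_le_one (m + 1)) x001
    have a3 := mul_le_mul_of_nonneg_left (k3_le_one (m + 2)) x010
    have a4 := mul_le_mul_of_nonneg_left (k3_le_one (m + 3)) x011
    have a5 := mul_le_mul_of_nonneg_left (k3_le_one (m + 1)) x100
    have a6 := mul_le_mul_of_nonneg_left (k3_le_one (m + 2)) x101
    have a7 := mul_le_mul_of_nonneg_left (k3_le_one (m + 3)) x110
    have a8 := mul_le_mul_of_nonneg_left (k3_le_one (m + 4)) x111
    linarith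
  · rw [st_of_nonpos h]
    have hm : m ≤ 0 := by
      have : (m : ℝ) ≤ 0 := by linarith
      exact_mod_cast this
    rcases le_or_gt m (-6) with c | c
    · rw [k3_low (by omega : m ≤ -2), k3_low (by omega : m + 1 ≤ -2),
        k3_low (by omega : m + 2 ≤ -2), k3_low (by omega : m + 3 ≤ -2),
        k3_low (by omega : m + 4 ≤ -2)]
      simp
    have c' : m = -5 ∨ m = -4 ∨ m = -3 ∨ m = -2 ∨ m = -1 ∨ m = 0 := by omega
    rcases c' with rfl | rfl | rfl | rfl | rfl | rfl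
    · norm_num [k3]
      linarith
    · norm_num [k3]
      linarith
    · norm_num [k3]
      linarith
    · norm_num [k3] at h ⊢
      have h' : 0 ≤ 2 - s - 2 * u - w := by linarith
      have hp : 0 ≤ s * (1 - w) + (1 - s) * w + 2 * (s * w) := by positivity
      have := mul_nonneg hp h'
      nlinarith [sq_nonneg (s - w)]
    · norm_num [k3] at h ⊢
      have h' : 0 ≤ 1 - s - 2 * u - w := by linarith
      have hp : 0 ≤ (1 - s) * (1 - w) + 2 * (s * (1 - w)) + 2 * ((1 - s) * w)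
        + 2 * (s * w) := by positivity
      have q1 := mul_nonneg hp h'
      have q2 := mul_nonneg (mul_nonneg hs0 hw0) (by linarith : 0 ≤ 3 - s - w)
      nlinarith [sq_nonneg (1 - s - w)]
    · have h1 : s = 0 := by
        push_cast at h
        linarith
      have h2 : u = 0 := by
        push_cast at h
        linarith
      have h3 : w = 0 := by
        push_cast at h
        linarith
      subst h1 h2 h3
      norm_num [k3]

/-- (S3) MINORANT OF A STRICT THREE BODY STEP `σ a + 2 τ b + ρ z > c` -/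
theorem step3 {I J K : Finset ℤ} {a b z : ℝ} (hI : Near I a) (hJ : Near J b) (hK : Near K z)
    {σ τ ρ : ℤ} (hσ : σ = 1 ∨ σ = -1) (hτ : τ = 1 ∨ τ = -1) (hρ : ρ = 1 ∨ ρ = -1) (c : ℤ) :
    ∑ i ∈ I, ∑ j ∈ J, ∑ k ∈ K,
        hat i a * hat j b * hat k z * k3 (σ * i + 2 * (τ * j) + ρ * k - c)
      ≤ st (σ * a + 2 * (τ * b) + ρ * z - c) := by
  obtain ⟨m, n, p, s, u, w, hs0, hs1, hu0, hu1, hw0, hw1, e1, e2, e3, g⟩ :=
    sum3_sign hI hJ hK hσ hτ hρ
  rw [g (fun i j k => k3 (i + 2 * j + k - c))]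
  have h0 := k3_core (m + 2 * n + p - c) hs0 hs1 hu0 hu1 hw0 hw1
  rw [show m + 2 * n + (p + 1) - c = m + 2 * n + p - c + 1 by ring,
    show m + 2 * (n + 1) + p - c = m + 2 * n + p - c + 2 by ring,
    show m + 2 * (n + 1) + (p + 1) - c = m + 2 * n + p - c + 3 by ring,
    show m + 1 + 2 * n + p - c = m + 2 * n + p - c + 1 by ring,
    show m + 1 + 2 * n + (p + 1) - c = m + 2 * n + p - c + 2 by ring,
    show m + 1 + 2 * (n + 1) + p - c = m + 2 * n + p - c + 3 by ring,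
    show m + 1 + 2 * (n + 1) + (p + 1) - c = m + 2 * n + p - c + 4 by ring]
  refine h0.trans (le_of_eq ?_)
  congr 1
  push_cast
  rw [← e1, ← e2, ← e3]
  ring

/-- node values of the majorant of a non strict three body step -/
def K3 (m : ℤ) : ℝ := 1 - k3 (-m)

/-- (S3') MAJORANT OF A NON STRICT THREE BODY STEP `σ a + 2 τ b + ρ z ≥ c` -/
theorem step3' {I J K : Finset ℤ} {a b z : ℝ} (hI : Near I a) (hJ : Near J b) (hK : Near K z)
    {σ τ ρ : ℤ} (hσ : σ = 1 ∨ σ = -1) (hτ : τ = 1 ∨ τ = -1) (hρ : ρ = 1 ∨ ρ = -1) (c : ℤ) :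
    stE (σ * a + 2 * (τ * b) + ρ * z - c)
      ≤ ∑ i ∈ I, ∑ j ∈ J, ∑ k ∈ K,
        hat i a * hat j b * hat k z * K3 (σ * i + 2 * (τ * j) + ρ * k - c) := by
  have h := step3 hI hJ hK (σ := -σ) (τ := -τ) (ρ := -ρ) (by omega) (by omega) (by omega) (-c)
  have e : ∑ i ∈ I, ∑ j ∈ J, ∑ k ∈ K,
        hat i a * hat j b * hat k z * K3 (σ * i + 2 * (τ * j) + ρ * k - c)
      = 1 - ∑ i ∈ I, ∑ j ∈ J, ∑ k ∈ K,
        hat i a * hat j b * hat k z * k3 (-σ * i + 2 * (-τ * j) + -ρ * k - -c) := by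
    rw [← sum3_one hI hJ hK, ← sum_sub_distrib]
    refine sum_congr rfl fun i _ => ?_
    rw [← sum_sub_distrib]
    refine sum_congr rfl fun j _ => ?_
    rw [← sum_sub_distrib]
    refine sum_congr rfl fun k _ => ?_
    unfold K3
    rw [show -(σ * i + 2 * (τ * j) + ρ * k - c) = -σ * i + 2 * (-τ * j) + -ρ * k - -c by ring]
    ring
  rw [e, stE_eq]
  have e2 : -((σ : ℝ) * a + 2 * (τ * b) + ρ * z - c)
      = ((-σ : ℤ) : ℝ) * a + 2 * (((-τ : ℤ) : ℝ) * b) + ((-ρ : ℤ) : ℝ) * z - ((-c : ℤ) : ℝ) := by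
    push_cast
    ring
  rw [e2]
  linarith

/-! ### three bodies, coefficients 1, 2, 2 -/

/-- node values for three bodies with coefficients `1, 2, 2` at `-1, 0, 1` -/
def k5 (m : ℤ) : ℝ :=
  if m ≤ -2 then 0 else if m = -1 then -(67/100) else if m = 0 then -(52/100)
  else if m = 1 then 42/100 else 1

lemma k5_low {m : ℤ} (h : m ≤ -2) : k5 m = 0 := if_pos h

lemma k5_le_one (m : ℤ) : k5 m ≤ 1 := by
  unfold k5
  split_ifs <;> norm_num

lemma k5_core (m : ℤ) {s u w : ℝ} (hs0 : 0 ≤ s) (hs1 : s ≤ 1) (hu0 : 0 ≤ u) (hu1 : u ≤ 1)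
    (hw0 : 0 ≤ w) (hw1 : w ≤ 1) :
    (1 - s) * (1 - u) * (1 - w) * k5 m + (1 - s) * (1 - u) * w * k5 (m + 2)
      + (1 - s) * u * (1 - w) * k5 (m + 2) + (1 - s) * u * w * k5 (m + 4)
      + s * (1 - u) * (1 - w) * k5 (m + 1) + s * (1 - u) * w * k5 (m + 3)
      + s * u * (1 - w) * k5 (m + 3) + s * u * w * k5 (m + 5)
      ≤ st (m + s + 2 * u + 2 * w) := by
  have s1 := sub_nonneg.2 hs1
  have u1 := sub_nonneg.2 hu1
  have w1 := sub_nonneg.2 hw1
  have x000 := mul_nonneg (mul_nonneg s1 u1) w1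
  have x001 := mul_nonneg (mul_nonneg s1 u1) hw0
  have x010 := mul_nonneg (mul_nonneg s1 hu0) w1
  have x011 := mul_nonneg (mul_nonneg s1 hu0) hw0
  have x100 := mul_nonneg (mul_nonneg hs0 u1) w1
  have x101 := mul_nonneg (mul_nonneg hs0 u1) hw0
  have x110 := mul_nonneg (mul_nonneg hs0 hu0) w1
  have x111 := mul_nonneg (mul_nonneg hs0 hu0) hw0
  rcases lt_or_ge 0 ((m : ℝ) + s + 2 * u + 2 * w) with h | h
  · rw [st_of_pos h]
    have a1 := mul_le_mul_of_nonneg_left (k5_le_one m) x000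
    have a2 := mul_le_mul_of_nonneg_left (k5_le_one (m + 2)) x001
    have a3 := mul_le_mul_of_nonneg_left (k5_le_one (m + 2)) x010
    have a4 := mul_le_mul_of_nonneg_left (k5_le_one (m + 4)) x011
    have a5 := mul_le_mul_of_nonneg_left (k5_le_one (m + 1)) x100
    have a6 := mul_le_mul_of_nonneg_left (k5_le_one (m + 3)) x101
    have a7 := mul_le_mul_of_nonneg_left (k5_le_one (m + 3)) x110
    have a8 := mul_le_mul_of_nonneg_left (k5_le_one (m + 5)) x111
    linarith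
  · rw [st_of_nonpos h]
    have hm : m ≤ 0 := by
      have : (m : ℝ) ≤ 0 := by linarith
      exact_mod_cast this
    rcases le_or_gt m (-7) with c | c
    · rw [k5_low (by omega : m ≤ -2), k5_low (by omega : m + 1 ≤ -2),
        k5_low (by omega : m + 2 ≤ -2), k5_low (by omega : m + 3 ≤ -2),
        k5_low (by omega : m + 4 ≤ -2), k5_low (by omega : m + 5 ≤ -2)]
      simp
    have c' : m = -6 ∨ m = -5 ∨ m = -4 ∨ m = -3 ∨ m = -2 ∨ m = -1 ∨ m = 0 := by omega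
    have hπ : 4 * (u * w) ≤ (u + w) ^ 2 := by nlinarith [sq_nonneg (u - w)]
    rcases c' with rfl | rfl | rfl | rfl | rfl | rfl | rfl
    · norm_num [k5]
      linarith
    · norm_num [k5]
      linarith
    · -- m = -4
      norm_num [k5] at h ⊢
      have h' : 0 ≤ 4 - s - 2 * (u + w) := by linarith
      set g := u + w with hg
      have g0 : 0 ≤ g := by linarith
      have q0 : 0 ≤ u * w := mul_nonneg hu0 hw0
      have key : -(67/100) * (s * g) + u * w * (228/100 * s - 52/100) ≤ 0 := by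
        rcases le_total (228/100 * s - 52/100) 0 with d | d
        · have t1 := mul_nonneg q0 (sub_nonneg.2 d)
          have t2 := mul_nonneg hs0 g0
          nlinarith
        · have t1 := mul_nonneg d (by linarith : 0 ≤ g ^ 2 - 4 * (u * w))
          have t2 : -(268/100) * s + g * (228/100 * s - 52/100) ≤ 0 := by
            have t3 := mul_nonneg d h'
            nlinarith [sq_nonneg (s - 107/114)]
          have t4 := mul_nonneg g0 (sub_nonneg.2 t2)
          nlinarith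
      rw [hg] at key
      nlinarith
    · -- m = -3
      norm_num [k5] at h ⊢
      have h' : 0 ≤ 3 - s - 2 * (u + w) := by linarith
      set g := u + w with hg
      have g0 : 0 ≤ g := by linarith
      have q0 : 0 ≤ u * w := mul_nonneg hu0 hw0
      have key : -(67/100) * g + 15/100 * (s * g) + u * w * (176/100 + 28/100 * s) ≤ 0 := by
        have d : 0 ≤ 176/100 + 28/100 * s := by linarith
        have t1 := mul_nonneg d (by linarith : 0 ≤ g ^ 2 - 4 * (u * w))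
        have t2 : -(268/100) + 60/100 * s + g * (176/100 + 28/100 * s) ≤ 0 := by
          have t3 := mul_nonneg d h'
          nlinarith [sq_nonneg (s - 1/2)]
        have t4 := mul_nonneg g0 (sub_nonneg.2 t2)
        nlinarith
      rw [hg] at key
      nlinarith
    · -- m = -2
      norm_num [k5] at h ⊢
      have h' : 0 ≤ 2 - s - 2 * (u + w) := by linarith
      set g := u + w with hg
      have g0 : 0 ≤ g := by linarith
      have q0 : 0 ≤ u * w := mul_nonneg hu0 hw0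
      have key : -(67/100) * s + 161/100 * (s * g) - 52/100 * g
          + u * w * (204/100 - 255/100 * s) ≤ 0 := by
        rcases le_total (204/100 - 255/100 * s) 0 with d | d
        · have t1 := mul_nonneg q0 (sub_nonneg.2 d)
          have t2 := mul_nonneg (by linarith : 0 ≤ 161/100 * s - 52/100) h'
          nlinarith [sq_nonneg (s - 120/161)]
        · have t1 := mul_nonneg d (by linarith : 0 ≤ g ^ 2 - 4 * (u * w))
          have g1 : g ≤ 1 := by linarith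
          have key2 : -(67/100) * s + 161/100 * (s * g) - 52/100 * g + 51/100 * g ^ 2
              - 6375/10000 * (s * g ^ 2) ≤ 0 := by
            rcases le_total (-(67/100) + 161/100 * g - 6375/10000 * g ^ 2) 0 with e | e
            · have t2 := mul_nonneg hs0 (sub_nonneg.2 e)
              nlinarith [mul_nonneg g0 (sub_nonneg.2 g1)]
            · have t2 := mul_nonneg e h'
              have t3 := mul_nonneg (by linarith : 0 ≤ (1 - g) + 26/100) (sq_nonneg ((1 - g) - 13/100))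
              nlinarith [sq_nonneg ((1 - g) - 13/100)]
          nlinarith
      rw [hg] at key
      nlinarith
    · -- m = -1
      norm_num [k5] at h ⊢
      have h' : 0 ≤ 1 - s - 2 * (u + w) := by linarith
      have q0 : 0 ≤ u * w := mul_nonneg hu0 hw0
      have q1 : 0 ≤ s * (u * w) := mul_nonneg hs0 q0
      have q2 := mul_nonneg hs0 h'
      nlinarith [sq_nonneg s]
    · have h1 : s = 0 := by
        push_cast at h
        linarith
      have h2 : u = 0 := by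
        push_cast at h
        linarith
      have h3 : w = 0 := by
        push_cast at h
        linarith
      subst h1 h2 h3
      norm_num [k5]


/-- (S5) MINORANT OF A STRICT THREE BODY STEP `σ a + 2 τ b + 2 ρ z > c` -/
theorem step5 {I J K : Finset ℤ} {a b z : ℝ} (hI : Near I a) (hJ : Near J b) (hK : Near K z)
    {σ τ ρ : ℤ} (hσ : σ = 1 ∨ σ = -1) (hτ : τ = 1 ∨ τ = -1) (hρ : ρ = 1 ∨ ρ = -1) (c : ℤ) :
    ∑ i ∈ I, ∑ j ∈ J, ∑ k ∈ K,
        hat i a * hat j b * hat k z * k5 (σ * i + 2 * (τ * j) + 2 * (ρ * k) - c)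
      ≤ st (σ * a + 2 * (τ * b) + 2 * (ρ * z) - c) := by
  obtain ⟨m, n, p, s, u, w, hs0, hs1, hu0, hu1, hw0, hw1, e1, e2, e3, g⟩ :=
    sum3_sign hI hJ hK hσ hτ hρ
  rw [g (fun i j k => k5 (i + 2 * j + 2 * k - c))]
  have h0 := k5_core (m + 2 * n + 2 * p - c) hs0 hs1 hu0 hu1 hw0 hw1
  rw [show m + 2 * n + 2 * (p + 1) - c = m + 2 * n + 2 * p - c + 2 by ring,
    show m + 2 * (n + 1) + 2 * p - c = m + 2 * n + 2 * p - c + 2 by ring,
    show m + 2 * (n + 1) + 2 * (p + 1) - c = m + 2 * n + 2 * p - c + 4 by ring,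
    show m + 1 + 2 * n + 2 * p - c = m + 2 * n + 2 * p - c + 1 by ring,
    show m + 1 + 2 * n + 2 * (p + 1) - c = m + 2 * n + 2 * p - c + 3 by ring,
    show m + 1 + 2 * (n + 1) + 2 * p - c = m + 2 * n + 2 * p - c + 3 by ring,
    show m + 1 + 2 * (n + 1) + 2 * (p + 1) - c = m + 2 * n + 2 * p - c + 5 by ring]
  refine h0.trans (le_of_eq ?_)
  congr 1
  push_cast
  rw [← e1, ← e2, ← e3]
  ring

/-- node values of the majorant of a non strict three body step -/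
def K5 (m : ℤ) : ℝ := 1 - k5 (-m)

/-- (S5') MAJORANT OF A NON STRICT THREE BODY STEP `σ a + 2 τ b + 2 ρ z ≥ c` -/
theorem step5' {I J K : Finset ℤ} {a b z : ℝ} (hI : Near I a) (hJ : Near J b) (hK : Near K z)
    {σ τ ρ : ℤ} (hσ : σ = 1 ∨ σ = -1) (hτ : τ = 1 ∨ τ = -1) (hρ : ρ = 1 ∨ ρ = -1) (c : ℤ) :
    stE (σ * a + 2 * (τ * b) + 2 * (ρ * z) - c)
      ≤ ∑ i ∈ I, ∑ j ∈ J, ∑ k ∈ K,
        hat i a * hat j b * hat k z * K5 (σ * i + 2 * (τ * j) + 2 * (ρ * k) - c) := by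
  have h := step5 hI hJ hK (σ := -σ) (τ := -τ) (ρ := -ρ) (by omega) (by omega) (by omega) (-c)
  have e : ∑ i ∈ I, ∑ j ∈ J, ∑ k ∈ K,
        hat i a * hat j b * hat k z * K5 (σ * i + 2 * (τ * j) + 2 * (ρ * k) - c)
      = 1 - ∑ i ∈ I, ∑ j ∈ J, ∑ k ∈ K,
        hat i a * hat j b * hat k z * k5 (-σ * i + 2 * (-τ * j) + 2 * (-ρ * k) - -c) := by
    rw [← sum3_one hI hJ hK, ← sum_sub_distrib]
    refine sum_congr rfl fun i _ => ?_
    rw [← sum_sub_distrib]
    refine sum_congr rfl fun j _ => ?_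
    rw [← sum_sub_distrib]
    refine sum_congr rfl fun k _ => ?_
    unfold K5
    rw [show -(σ * i + 2 * (τ * j) + 2 * (ρ * k) - c)
      = -σ * i + 2 * (-τ * j) + 2 * (-ρ * k) - -c by ring]
    ring
  rw [e, stE_eq]
  have e2 : -((σ : ℝ) * a + 2 * (τ * b) + 2 * (ρ * z) - c)
      = ((-σ : ℤ) : ℝ) * a + 2 * (((-τ : ℤ) : ℝ) * b) + 2 * (((-ρ : ℤ) : ℝ) * z)
        - ((-c : ℤ) : ℝ) := by
    push_cast
    ring
  rw [e2]
  linarith

end

end MP61673a.Kink
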