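import Pool.Agent.Mu673.FarBoxL

set_option autoImplicit false

/-!
Three point certificates with PAIR FACTS `Σ_(a,b) φ_i(a,b) ≥ c_i n` (price of the near row), typed
points and typed labels.
-/

namespace MP61673a.TP

open Finset MP61673a.Sos MP61673a.W
open MP61673a.Lift (shift Mid Cov IsMaximalThreeFree cov_of_maximal card_shift mem_shift)

noncomputable section

/-- COVERAGE for one sampler `w`: prices `g` of end point labels (by class), majorant `H` for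
midpoints -/
theorem cover_sum {n : ℕ} (hn : 0 < n) (S : Finset ℤ)
    (hcov : Cov S (Mid S) n) (w : Pt) (g : Pt → Bool → ℝ → ℝ) (hg : ∀ e x, 0 ≤ g w e x)
    (H : Pt → ℝ → ℝ) (hH : ∀ e x, g w e x ≤ H w x) :
    ∑ x ∈ Ico (0 : ℤ) n, g w (tp n x).1 (pos n x)
      ≤ ∑ a ∈ S, ∑ b ∈ S, ((if 0 < 2 * (tp n b).2 - (tp n a).2 ∧ 2 * (tp n b).2 - (tp n a).2 < 1 then
          g w (tp n a).1 (2 * (tp n b).2 - (tp n a).2) else 0)
          + (if (tp n a).1 = (tp n b).1 then H w (((tp n a).2 + (tp n b).2) / 2) / 2 else 0)) := by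
  classical
  set p : ℤ → Pt := tp n with hp
  have hp2 : ∀ a, (p a).2 = pos n a := fun a => rfl
  have hH0 : ∀ x, 0 ≤ H w x := fun x => (hg true x).trans (hH true x)
  have e1 : ∑ a ∈ S, ∑ b ∈ S, (if 0 < 2 * (p b).2 - (p a).2 ∧ 2 * (p b).2 - (p a).2 < 1 then
      g w (p a).1 (2 * (p b).2 - (p a).2) else 0)
      = ∑ x ∈ Ico (0 : ℤ) n, ∑ a ∈ S, ∑ b ∈ S,
        (if 2 * b - a = x then g w (p x).1 (pos n x) else 0) := by
    refine Eq.trans ?_ sum_comm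
    refine sum_congr rfl fun a _ => ?_
    refine Eq.trans ?_ sum_comm
    refine sum_congr rfl fun b _ => ?_
    have hcl : (p (2 * b - a)).1 = (p a).1 := tp_class.2 (by omega)
    rw [hp2, hp2, ← pos_lab, ← hcl]
    by_cases c : 0 ≤ 2 * b - a ∧ 2 * b - a < n
    · rw [if_pos ((pos_window hn _).2 c), sum_ite_eq, if_pos (by rw [mem_Ico]; exact c)]
    · rw [if_neg (fun h => c ((pos_window hn _).1 h)), sum_ite_eq,
        if_neg (by rw [mem_Ico]; exact c)]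
  have e2 : ∑ x ∈ Ico (0 : ℤ) n, ∑ a ∈ S, ∑ b ∈ S,
        (if a < b ∧ a + b = 2 * x then H w (pos n x) else 0)
      ≤ ∑ a ∈ S, ∑ b ∈ S, (if a < b then
        (if (p a).1 = (p b).1 then H w (((p a).2 + (p b).2) / 2) else 0) else 0) := by
    rw [sum_comm]
    refine sum_le_sum fun a _ => ?_
    rw [sum_comm]
    refine sum_le_sum fun b _ => ?_
    by_cases c : a < b
    · rw [if_pos c]
      by_cases d : ∃ x ∈ Ico (0 : ℤ) n, a + b = 2 * x
      · obtain ⟨x, hx, hx2⟩ := d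
        rw [sum_eq_single x]
        · rw [if_pos ⟨c, hx2⟩, if_pos (tp_class.2 (by omega)), hp2, hp2, pos_mid hx2]
        · intro y _ hy
          rw [if_neg (by rintro ⟨_, h⟩; exact hy (by omega))]
        · intro h
          exact absurd hx h
      · rw [sum_eq_zero]
        · split_ifs
          · exact hH0 _
          · exact le_rfl
        · intro x hx
          rw [if_neg (by rintro ⟨_, h⟩; exact d ⟨x, hx, h⟩)]
    · rw [if_neg c]
      refine le_of_eq (sum_eq_zero fun x _ => ?_)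
      rw [if_neg (by rintro ⟨h, _⟩; exact c h)]
  have hm0 : ∀ a b : ℤ, 0 ≤ (if (p a).1 = (p b).1 then H w (((p a).2 + (p b).2) / 2)
      else 0) := by
    intro a b
    split_ifs
    · exact hH0 _
    · exact le_rfl
  have e3 : ∑ a ∈ S, ∑ b ∈ S, (if a < b then
        (if (p a).1 = (p b).1 then H w (((p a).2 + (p b).2) / 2) else 0) else 0)
      ≤ ∑ a ∈ S, ∑ b ∈ S,
        (if (p a).1 = (p b).1 then H w (((p a).2 + (p b).2) / 2) / 2 else 0) := by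
    have f1 : ∑ a ∈ S, ∑ b ∈ S, (if a < b then
        (if (p a).1 = (p b).1 then H w (((p a).2 + (p b).2) / 2) else 0) else 0)
        = ∑ a ∈ S, ∑ b ∈ S, (if b < a then
        (if (p a).1 = (p b).1 then H w (((p a).2 + (p b).2) / 2) else 0) else 0) := by
      rw [sum_comm]
      refine sum_congr rfl fun a _ => sum_congr rfl fun b _ => ?_
      rw [add_comm (p b).2 (p a).2]
      by_cases c : (p a).1 = (p b).1
      · simp only [if_pos c, if_pos c.symm]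
      · simp only [if_neg c, if_neg (fun h => c (Eq.symm h))]
    have f2 : ∑ a ∈ S, ∑ b ∈ S, (if a < b then
        (if (p a).1 = (p b).1 then H w (((p a).2 + (p b).2) / 2) else 0) else 0)
        + ∑ a ∈ S, ∑ b ∈ S, (if b < a then
        (if (p a).1 = (p b).1 then H w (((p a).2 + (p b).2) / 2) else 0) else 0)
        ≤ ∑ a ∈ S, ∑ b ∈ S,
        (if (p a).1 = (p b).1 then H w (((p a).2 + (p b).2) / 2) else 0) := by
      rw [← sum_add_distrib]
      refine sum_le_sum fun a _ => ?_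
      rw [← sum_add_distrib]
      refine sum_le_sum fun b _ => ?_
      have := hm0 a b
      generalize (if (p a).1 = (p b).1 then H w (((p a).2 + (p b).2) / 2) else 0) = m
        at this ⊢
      by_cases c1 : a < b
      · have c2 : ¬ b < a := by omega
        simp only [if_pos c1, if_neg c2]
        linarith
      · by_cases c2 : b < a
        · simp only [if_pos c2, if_neg c1]
          linarith
        · simp only [if_neg c2, if_neg c1]
          linarith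
    have f3 : ∑ a ∈ S, ∑ b ∈ S,
        (if (p a).1 = (p b).1 then H w (((p a).2 + (p b).2) / 2) / 2 else 0)
        = (∑ a ∈ S, ∑ b ∈ S,
        (if (p a).1 = (p b).1 then H w (((p a).2 + (p b).2) / 2) else 0)) / 2 := by
      rw [sum_div]
      refine sum_congr rfl fun a _ => ?_
      rw [sum_div]
      refine sum_congr rfl fun b _ => ?_
      split_ifs
      · rfl
      · rw [zero_div]
    rw [f3]
    linarith
  have e4 : ∀ x ∈ Ico (0 : ℤ) n, g w (p x).1 (pos n x)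
      ≤ ∑ a ∈ S, ∑ b ∈ S, (if 2 * b - a = x then g w (p x).1 (pos n x) else 0)
        + ∑ a ∈ S, ∑ b ∈ S, (if a < b ∧ a + b = 2 * x then H w (pos n x) else 0) := by
    intro x hx
    rw [mem_Ico] at hx
    have n1 : ∀ (v : ℝ), 0 ≤ v → ∀ (q : ℤ → ℤ → Prop) [∀ a b, Decidable (q a b)],
        (∃ a ∈ S, ∃ b ∈ S, q a b) → v ≤ ∑ a ∈ S, ∑ b ∈ S, (if q a b then v else 0) := by
      intro v hv q _ ⟨a, ha, b, hb, hab⟩
      have i1 : (if q a b then v else 0) ≤ ∑ b ∈ S, (if q a b then v else 0) :=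
        single_le_sum (f := fun b => if q a b then v else 0)
          (fun b _ => by split_ifs; exacts [hv, le_rfl]) hb
      have i2 : ∑ b ∈ S, (if q a b then v else 0)
          ≤ ∑ a ∈ S, ∑ b ∈ S, (if q a b then v else 0) :=
        single_le_sum (f := fun a => ∑ b ∈ S, if q a b then v else 0)
          (fun a _ => sum_nonneg fun b _ => by split_ifs; exacts [hv, le_rfl]) ha
      rw [if_pos hab] at i1
      exact i1.trans i2
    have n0 : ∀ (v : ℝ), 0 ≤ v → ∀ (q : ℤ → ℤ → Prop) [∀ a b, Decidable (q a b)],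
        0 ≤ ∑ a ∈ S, ∑ b ∈ S, (if q a b then v else 0) := by
      intro v hv q _
      exact sum_nonneg fun a _ => sum_nonneg fun b _ => by split_ifs; exacts [hv, le_rfl]
    have hHn : 0 ≤ H w (pos n x) := (hg (p x).1 _).trans (hH _ _)
    rcases hcov x hx.1 hx.2 with ⟨a, ha, b, hb, h⟩ | ⟨a, ha, b, hb, h1, h2⟩
    · have m1 := n1 _ (hg (p x).1 (pos n x)) (fun a b => 2 * b - a = x)
        ⟨a, ha, b, hb, h.symm⟩
      have m2 := n0 _ hHn (fun a b => a < b ∧ a + b = 2 * x)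
      linarith
    · have m1 := n0 _ (hg (p x).1 (pos n x)) (fun a b => 2 * b - a = x)
      have m2 := n1 _ hHn (fun a b => a < b ∧ a + b = 2 * x) ⟨a, ha, b, hb, h1, h2⟩
      have m3 := hH (p x).1 (pos n x)
      linarith
  have e5 := sum_le_sum e4
  rw [sum_add_distrib] at e5
  have e6 : ∑ a ∈ S, ∑ b ∈ S, ((if 0 < 2 * (p b).2 - (p a).2 ∧ 2 * (p b).2 - (p a).2 < 1 then
        g w (p a).1 (2 * (p b).2 - (p a).2) else 0)
        + (if (p a).1 = (p b).1 then H w (((p a).2 + (p b).2) / 2) / 2 else 0))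
      = ∑ a ∈ S, ∑ b ∈ S, (if 0 < 2 * (p b).2 - (p a).2 ∧ 2 * (p b).2 - (p a).2 < 1 then
        g w (p a).1 (2 * (p b).2 - (p a).2) else 0) + ∑ a ∈ S, ∑ b ∈ S,
        (if (p a).1 = (p b).1 then H w (((p a).2 + (p b).2) / 2) / 2 else 0) := by
    rw [← sum_add_distrib]
    refine sum_congr rfl fun a _ => ?_
    rw [← sum_add_distrib]
  rw [e6, e1]
  linarith

variable {κι ιJ ιI : Type*}

/-- the cost of the ordered pair `(a,b)` for the sampler `z`, with pair facts `φ i`, multipliers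
`τ i z` -/
def FP (g : Pt → Bool → ℝ → ℝ) (H : Pt → ℝ → ℝ) (κ : Pt → ℝ) (cE : ℝ) (J : Finset ιJ)
    (ν : ιJ → Pt → Pt → ℝ) (ℓ : ιJ → Pt → ℝ) (I : Finset ιI) (τ : ιI → Pt → ℝ)
    (φ : ιI → Pt → Pt → ℝ) (z a b : Pt) : ℝ :=
  FL g H κ cE J ν ℓ z a b + ∑ i ∈ I, τ i z * φ i a b

/-- THREE POINT BOUND WITH PAIR FACTS, typed points and labels. -/
theorem three_point_boundP {n : ℕ} (hn : 0 < n) (S : Finset ℤ) (hS : ∀ a ∈ S, 0 ≤ a ∧ a < n)
    (hcov : Cov S (Mid S) n) (g : Pt → Bool → ℝ → ℝ) (hg : ∀ z e x, 0 ≤ g z e x) (H : Pt → ℝ → ℝ)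
    (hH : ∀ z e x, g z e x ≤ H z x) (κ : Pt → ℝ)
    (hκ : ∀ z, 0 ≤ κ z) {cE : ℝ}
    (hCE : cE * (S.card : ℝ) ^ 2 ≤ ∑ y ∈ Ico (0 : ℤ) n, lab S y)
    (J : Finset ιJ) (ν : ιJ → Pt → Pt → ℝ) (hν : ∀ j ∈ J, ∀ a b, 0 ≤ ν j a b) (ℓ : ιJ → Pt → ℝ)
    (hℓ : ∀ j ∈ J, 0 ≤ ∑ a ∈ S, ℓ j (tp n a))
    (I : Finset ιI) (τ : ιI → Pt → ℝ) (hτ : ∀ i ∈ I, ∀ z, 0 ≤ τ i z) (φ : ιI → Pt → Pt → ℝ)
    (c : ιI → ℝ) (hφ : ∀ i ∈ I, c i * n ≤ ∑ a ∈ S, ∑ b ∈ S, φ i (tp n a) (tp n b))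
    (K : Finset κι) (s : κι → Pt → Pt → ℝ) {θ γ : ℝ}
    (hsum : ∀ z : Pt, z.In → γ * n ≤ ∑ x ∈ Ico (0 : ℤ) n, g z (tp n x).1 (pos n x)
      + n * ∑ i ∈ I, τ i z * c i)
    (h3 : ∀ a b c : Pt, a.In → b.In → c.In →
      sym6 (FP g H κ cE J ν ℓ I τ φ) a b c + 2 * sq3 K s a b c ≤ 6 * θ) :
    γ * n * S.card ≤ θ * (S.card : ℝ) ^ 3 := by
  classical
  set p : ℤ → Pt := tp n with hp
  have hpm : ∀ a ∈ S, (p a).In := fun a ha => tp_in (hS a ha).1 (hS a ha).2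
  have hp2 : ∀ a, (p a).2 = pos n a := fun a => rfl
  have key := sos_step (S := S) (w := fun _ => (1:ℝ)) (fun _ _ => zero_le_one)
    (fun z a b => FP g H κ cE J ν ℓ I τ φ (p z) (p a) (p b)) (fun _ _ _ => 6 * θ - 6) K
    (fun i a b => s i (p a) (p b)) (by
      intro a ha b hb c hc
      have h := h3 (p a) (p b) (p c) (hpm a ha) (hpm b hb) (hpm c hc)
      unfold sym6 sq3 at h ⊢
      linarith)
  rw [tri_const] at key
  have hw : ∑ a ∈ S, (1:ℝ) = S.card := by simp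
  rw [hw] at key
  have key2 : tri S (fun _ => (1:ℝ)) (fun z a b => FP g H κ cE J ν ℓ I τ φ (p z) (p a) (p b))
      ≤ θ * (S.card : ℝ) ^ 3 := by
    refine key.trans (le_of_eq ?_)
    ring
  refine le_trans ?_ key2
  have hce : cE * (S.card : ℝ) ^ 2
      ≤ ∑ a ∈ S, ∑ b ∈ S,
        (if 0 < 2 * (p b).2 - (p a).2 ∧ 2 * (p b).2 - (p a).2 < 1 then (1:ℝ) else 0) := by
    refine hCE.trans (le_of_eq ?_)
    unfold lab
    rw [sum_comm]
    refine sum_congr rfl fun a _ => ?_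
    rw [sum_comm]
    refine sum_congr rfl fun b _ => ?_
    rw [hp2, hp2, ← pos_lab]
    by_cases c : 0 ≤ 2 * b - a ∧ 2 * b - a < n
    · rw [if_pos ((pos_window hn _).2 c), sum_ite_eq, if_pos (by rw [mem_Ico]; exact c)]
    · rw [if_neg (fun h => c ((pos_window hn _).1 h)), sum_ite_eq,
        if_neg (by rw [mem_Ico]; exact c)]
  have hzz : ∀ z ∈ S, γ * n ≤ ∑ a ∈ S, ∑ b ∈ S,
      ((if 0 < 2 * (p b).2 - (p a).2 ∧ 2 * (p b).2 - (p a).2 < 1 then
        g (p z) (p a).1 (2 * (p b).2 - (p a).2) + κ (p z) else 0)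
        + (if (p a).1 = (p b).1 then H (p z) (((p a).2 + (p b).2) / 2) / 2 else 0)
        - cE * κ (p z) + ∑ i ∈ I, τ i (p z) * φ i (p a) (p b)) := by
    intro z hzS
    have i1 := hsum (p z) (hpm z hzS)
    have i2 := cover_sum hn S hcov (p z) g (hg (p z)) H (hH (p z))
    have i3 : ∑ a ∈ S, ∑ b ∈ S,
        ((if 0 < 2 * (p b).2 - (p a).2 ∧ 2 * (p b).2 - (p a).2 < 1 then
          g (p z) (p a).1 (2 * (p b).2 - (p a).2) + κ (p z) else 0)
          + (if (p a).1 = (p b).1 then H (p z) (((p a).2 + (p b).2) / 2) / 2 else 0)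
          - cE * κ (p z) + ∑ i ∈ I, τ i (p z) * φ i (p a) (p b))
        = ∑ a ∈ S, ∑ b ∈ S, ((if 0 < 2 * (p b).2 - (p a).2 ∧ 2 * (p b).2 - (p a).2 < 1 then
          g (p z) (p a).1 (2 * (p b).2 - (p a).2) else 0)
          + (if (p a).1 = (p b).1 then H (p z) (((p a).2 + (p b).2) / 2) / 2 else 0))
        + κ (p z) * (∑ a ∈ S, ∑ b ∈ S,
            (if 0 < 2 * (p b).2 - (p a).2 ∧ 2 * (p b).2 - (p a).2 < 1 then (1:ℝ) else 0)
          - cE * (S.card : ℝ) ^ 2)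
        + ∑ i ∈ I, τ i (p z) * ∑ a ∈ S, ∑ b ∈ S, φ i (p a) (p b) := by
      have c2 : (S.card : ℝ) ^ 2 = ∑ a ∈ S, ∑ b ∈ S, (1:ℝ) := by
        simp [pow_two]
      have c3 : ∑ i ∈ I, τ i (p z) * ∑ a ∈ S, ∑ b ∈ S, φ i (p a) (p b)
          = ∑ a ∈ S, ∑ b ∈ S, ∑ i ∈ I, τ i (p z) * φ i (p a) (p b) := by
        have : ∀ i ∈ I, τ i (p z) * ∑ a ∈ S, ∑ b ∈ S, φ i (p a) (p b)
            = ∑ a ∈ S, ∑ b ∈ S, τ i (p z) * φ i (p a) (p b) := by
          intro i _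
          rw [mul_sum]
          refine sum_congr rfl fun a _ => ?_
          rw [mul_sum]
        rw [sum_congr rfl this, sum_comm]
        refine sum_congr rfl fun a _ => ?_
        rw [sum_comm]
      rw [c3, c2, mul_sum, ← sum_sub_distrib, mul_sum, ← sum_add_distrib, ← sum_add_distrib]
      refine sum_congr rfl fun a _ => ?_
      rw [mul_sum, ← sum_sub_distrib, mul_sum, ← sum_add_distrib, ← sum_add_distrib]
      refine sum_congr rfl fun b _ => ?_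
      by_cases c : 0 < 2 * (p b).2 - (p a).2 ∧ 2 * (p b).2 - (p a).2 < 1
      · rw [if_pos c, if_pos c, if_pos c]
        ring
      · rw [if_neg c, if_neg c, if_neg c]
        ring
    rw [i3]
    have i4 : 0 ≤ κ (p z) * (∑ a ∈ S, ∑ b ∈ S,
            (if 0 < 2 * (p b).2 - (p a).2 ∧ 2 * (p b).2 - (p a).2 < 1 then (1:ℝ) else 0)
          - cE * (S.card : ℝ) ^ 2) := mul_nonneg (hκ _) (by linarith)
    have i5 : n * ∑ i ∈ I, τ i (p z) * c i
        ≤ ∑ i ∈ I, τ i (p z) * ∑ a ∈ S, ∑ b ∈ S, φ i (p a) (p b) := by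
      rw [mul_sum]
      refine sum_le_sum fun i hi => ?_
      have := mul_le_mul_of_nonneg_left (hφ i hi) (hτ i hi (p z))
      linarith
    linarith
  have hlin : 0 ≤ ∑ z ∈ S, ∑ a ∈ S, ∑ b ∈ S, ∑ j ∈ J, ν j (p a) (p b) * ℓ j (p z) := by
    have e : ∑ z ∈ S, ∑ a ∈ S, ∑ b ∈ S, ∑ j ∈ J, ν j (p a) (p b) * ℓ j (p z)
        = ∑ j ∈ J, (∑ a ∈ S, ∑ b ∈ S, ν j (p a) (p b)) * ∑ z ∈ S, ℓ j (p z) := by
      have : ∀ j ∈ J, (∑ a ∈ S, ∑ b ∈ S, ν j (p a) (p b)) * ∑ z ∈ S, ℓ j (p z)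
          = ∑ z ∈ S, ∑ a ∈ S, ∑ b ∈ S, ν j (p a) (p b) * ℓ j (p z) := by
        intro j _
        rw [mul_sum]
        refine sum_congr rfl fun z _ => ?_
        rw [sum_mul]
        refine sum_congr rfl fun a _ => ?_
        rw [sum_mul]
      rw [sum_congr rfl this]
      refine Eq.trans ?_ sum_comm
      refine sum_congr rfl fun z _ => ?_
      refine Eq.trans ?_ sum_comm
      refine sum_congr rfl fun a _ => ?_
      exact sum_comm
    rw [e]
    exact sum_nonneg fun j hj => mul_nonneg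
      (sum_nonneg fun a _ => sum_nonneg fun b _ => hν j hj _ _) (hℓ j hj)
  have hfin : tri S (fun _ => (1:ℝ)) (fun z a b => FP g H κ cE J ν ℓ I τ φ (p z) (p a) (p b))
      = ∑ z ∈ S, ∑ a ∈ S, ∑ b ∈ S,
      ((if 0 < 2 * (p b).2 - (p a).2 ∧ 2 * (p b).2 - (p a).2 < 1 then
        g (p z) (p a).1 (2 * (p b).2 - (p a).2) + κ (p z) else 0)
        + (if (p a).1 = (p b).1 then H (p z) (((p a).2 + (p b).2) / 2) / 2 else 0)
        - cE * κ (p z) + ∑ i ∈ I, τ i (p z) * φ i (p a) (p b))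
      + ∑ z ∈ S, ∑ a ∈ S, ∑ b ∈ S, ∑ j ∈ J, ν j (p a) (p b) * ℓ j (p z) := by
    unfold tri FP FL
    rw [← sum_add_distrib]
    refine sum_congr rfl fun z _ => ?_
    rw [← sum_add_distrib]
    refine sum_congr rfl fun a _ => ?_
    rw [← sum_add_distrib]
    refine sum_congr rfl fun b _ => ?_
    ring
  rw [hfin]
  have hs := sum_le_sum hzz
  rw [sum_const, nsmul_eq_mul] at hs
  nlinarith [hs, hlin]

/-- a typed three point certificate for the linear facts `ℓ j ≥ 0`, `j ∈ J`, and the pair facts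
`Σ φ i ≥ c i n`, `i ∈ I` -/
def CertifiedP (n : ℕ) (cE : ℝ) {ιJ ιI : Type} (J : Finset ιJ) (ℓ : ιJ → Pt → ℝ) (I : Finset ιI)
    (φ : ιI → Pt → Pt → ℝ) (c : ιI → ℝ) : Prop :=
  ∃ (g : Pt → Bool → ℝ → ℝ) (H : Pt → ℝ → ℝ) (κ : Pt → ℝ) (m : ℕ) (s : Fin m → Pt → Pt → ℝ)
    (ν : ιJ → Pt → Pt → ℝ) (τ : ιI → Pt → ℝ)
    (θ γ : ℝ), (∀ z e x, 0 ≤ g z e x) ∧ (∀ z e x, g z e x ≤ H z x) ∧ (∀ z, 0 ≤ κ z) ∧
    (∀ j ∈ J, ∀ a b, 0 ≤ ν j a b) ∧ (∀ i ∈ I, ∀ z, 0 ≤ τ i z) ∧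
    0 < θ ∧ θ ≤ γ ∧
    (∀ z : Pt, z.In → γ * n ≤ ∑ x ∈ Ico (0 : ℤ) n, g z (tp n x).1 (pos n x)
      + n * ∑ i ∈ I, τ i z * c i) ∧
    ∀ a b c : Pt, a.In → b.In → c.In →
      sym6 (FP g H κ cE J ν ℓ I τ φ) a b c + 2 * sq3 univ s a b c ≤ 6 * θ

theorem CertifiedP.false {n : ℕ} {A : Finset ℕ} (h : IsMaximalThreeFree n A)
    (hlt : A.card ^ 2 < n) {ιJ ιI : Type} {J : Finset ιJ} {ℓ : ιJ → Pt → ℝ} {I : Finset ιI}
    {φ : ιI → Pt → Pt → ℝ} {c : ιI → ℝ}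
    (cert : CertifiedP n (13 / 18) J ℓ I φ c) (hJ : ∀ j ∈ J, 0 ≤ linT n (shift A) (ℓ j))
    (hI : ∀ i ∈ I, c i * n ≤ ∑ a ∈ shift A, ∑ b ∈ shift A, φ i (tp n a) (tp n b)) : False := by
  obtain ⟨g, H, κ, m, s, ν, τ, θ, γ, hg, hH, hκ, hν, hτ, hθ, hθγ, hsum, h3⟩ := cert
  have hn : 0 < n := lt_of_le_of_lt (Nat.zero_le _) hlt
  have hCE : (13 / 18 : ℝ) * ((shift A).card : ℝ) ^ 2 ≤ ∑ y ∈ Ico (0 : ℤ) n, lab (shift A) y := by
    rw [card_shift]
    exact CE.ce_lab h hlt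
  have key := three_point_boundP hn (shift A) (fun a ha => shift_bounds h ha) (cov_of_maximal h)
    g hg H hH κ hκ hCE J ν hν ℓ hJ I τ hτ φ c hI univ s hsum h3
  rw [card_shift] at key
  have hk := card_pos_of_maximal h hn
  have hk' : (0:ℝ) < A.card := by exact_mod_cast hk
  have hn' : (0:ℝ) < n := by exact_mod_cast hn
  have hlt' : (A.card : ℝ) ^ 2 < n := by exact_mod_cast hlt
  have h1 : θ * (A.card : ℝ) ^ 3 < θ * n * A.card := by
    have h5 : (A.card : ℝ) ^ 2 * (A.card : ℝ) < (n : ℝ) * (A.card : ℝ) :=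
      mul_lt_mul_of_pos_right hlt' hk'
    have h6 := mul_lt_mul_of_pos_left h5 hθ
    have e1 : θ * (A.card : ℝ) ^ 3 = θ * ((A.card : ℝ) ^ 2 * (A.card : ℝ)) := by ring
    rw [e1, mul_assoc]
    exact h6
  have h2 : θ * n * A.card ≤ γ * n * A.card :=
    mul_le_mul_of_nonneg_right (mul_le_mul_of_nonneg_right hθγ hn'.le) hk'.le
  linarith

end

end MP61673a.TP
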