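import Pool.Agent.Mu673.FarBox

set_option autoImplicit false

/-!
TYPED three point certificates. A point is `(class, position)`, the class is the parity of the
element. Midpoints exist only for two elements of the same class; both classes have at least `|A|/3`
elements when `|A|^2 < n`. Everything directly on `A ⊆ {1..n}`, no error terms.
-/

namespace MP61673a.TP

open Finset MP61673a.Sos MP61673a.W
open MP61673a.Lift (shift Mid Cov IsMaximalThreeFree cov_of_maximal card_shift mem_shift)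

noncomputable section

/-- class and position -/
abbrev Pt := Bool × ℝ

/-- the typed point of the cell `x` -/
def tp (n : ℕ) (x : ℤ) : Pt := (decide (x % 2 = 0), pos n x)

/-- position in the open window -/
def Pt.In (a : Pt) : Prop := 0 < a.2 ∧ a.2 < 1

lemma tp_in {n : ℕ} {x : ℤ} (h0 : 0 ≤ x) (h1 : x < n) : (tp n x).In := pos_mem h0 h1

lemma tp_class {n : ℕ} {a b : ℤ} : (tp n a).1 = (tp n b).1 ↔ (a + b) % 2 = 0 := by
  unfold tp
  simp only [decide_eq_decide]
  constructor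
  · intro h
    by_cases c : a % 2 = 0
    · have := h.1 c
      omega
    · have : ¬ b % 2 = 0 := fun hb => c (h.2 hb)
      omega
  · intro h
    constructor <;> intro h2 <;> omega

variable {κι ιJ : Type*}

/-- the cost of the ordered pair `(a,b)` for the sampler `z` -/
def FT (g : Pt → ℝ → ℝ) (κ : Pt → ℝ) (cE : ℝ) (J : Finset ιJ) (ν : ιJ → Pt → Pt → ℝ)
    (ℓ : ιJ → Pt → ℝ) (z a b : Pt) : ℝ :=
  (if 0 < 2 * b.2 - a.2 ∧ 2 * b.2 - a.2 < 1 then g z (2 * b.2 - a.2) + κ z else 0)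
    + (if a.1 = b.1 then g z ((a.2 + b.2) / 2) / 2 else 0)
    - cE * κ z + ∑ j ∈ J, ν j a b * ℓ j z

/-- TYPED THREE POINT BOUND. -/
theorem three_point_boundT {n : ℕ} (hn : 0 < n) (S : Finset ℤ) (hS : ∀ a ∈ S, 0 ≤ a ∧ a < n)
    (hcov : Cov S (Mid S) n) (g : Pt → ℝ → ℝ) (hg : ∀ z x, 0 ≤ g z x) (κ : Pt → ℝ)
    (hκ : ∀ z, 0 ≤ κ z) {cE : ℝ}
    (hCE : cE * (S.card : ℝ) ^ 2 ≤ ∑ y ∈ Ico (0 : ℤ) n, lab S y)
    (J : Finset ιJ) (ν : ιJ → Pt → Pt → ℝ) (hν : ∀ j ∈ J, ∀ a b, 0 ≤ ν j a b) (ℓ : ιJ → Pt → ℝ)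
    (hℓ : ∀ j ∈ J, 0 ≤ ∑ a ∈ S, ℓ j (tp n a))
    (K : Finset κι) (s : κι → Pt → Pt → ℝ) {θ γ : ℝ}
    (hsum : ∀ z : Pt, z.In → γ * n ≤ ∑ x ∈ Ico (0 : ℤ) n, g z (pos n x))
    (h3 : ∀ a b c : Pt, a.In → b.In → c.In →
      sym6 (FT g κ cE J ν ℓ) a b c + 2 * sq3 K s a b c ≤ 6 * θ) :
    γ * n * S.card ≤ θ * (S.card : ℝ) ^ 3 := by
  classical
  set p : ℤ → Pt := tp n with hp
  have hpm : ∀ a ∈ S, (p a).In := fun a ha => tp_in (hS a ha).1 (hS a ha).2
  have hp2 : ∀ a, (p a).2 = pos n a := fun a => rfl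
  have key := sos_step (S := S) (w := fun _ => (1:ℝ)) (fun _ _ => zero_le_one)
    (fun z a b => FT g κ cE J ν ℓ (p z) (p a) (p b)) (fun _ _ _ => 6 * θ - 6) K
    (fun i a b => s i (p a) (p b)) (by
      intro a ha b hb c hc
      have h := h3 (p a) (p b) (p c) (hpm a ha) (hpm b hb) (hpm c hc)
      unfold sym6 sq3 at h ⊢
      linarith)
  rw [tri_const] at key
  have hw : ∑ a ∈ S, (1:ℝ) = S.card := by simp
  rw [hw] at key
  have key2 : tri S (fun _ => (1:ℝ)) (fun z a b => FT g κ cE J ν ℓ (p z) (p a) (p b))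
      ≤ θ * (S.card : ℝ) ^ 3 := by
    refine key.trans (le_of_eq ?_)
    ring
  refine le_trans ?_ key2
  have hz : ∀ z ∈ S, ∑ x ∈ Ico (0 : ℤ) n, g (p z) (pos n x)
      ≤ ∑ a ∈ S, ∑ b ∈ S, ((if 0 < 2 * (p b).2 - (p a).2 ∧ 2 * (p b).2 - (p a).2 < 1 then
          g (p z) (2 * (p b).2 - (p a).2) else 0)
          + (if (p a).1 = (p b).1 then g (p z) (((p a).2 + (p b).2) / 2) / 2 else 0)) := by
    intro z _
    have e1 : ∑ a ∈ S, ∑ b ∈ S, (if 0 < 2 * (p b).2 - (p a).2 ∧ 2 * (p b).2 - (p a).2 < 1 then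
        g (p z) (2 * (p b).2 - (p a).2) else 0)
        = ∑ x ∈ Ico (0 : ℤ) n, ∑ a ∈ S, ∑ b ∈ S,
          (if 2 * b - a = x then g (p z) (pos n x) else 0) := by
      refine Eq.trans ?_ sum_comm
      refine sum_congr rfl fun a _ => ?_
      refine Eq.trans ?_ sum_comm
      refine sum_congr rfl fun b _ => ?_
      rw [hp2, hp2, ← pos_lab]
      by_cases c : 0 ≤ 2 * b - a ∧ 2 * b - a < n
      · rw [if_pos ((pos_window hn _).2 c), sum_ite_eq, if_pos (by rw [mem_Ico]; exact c)]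
      · rw [if_neg (fun h => c ((pos_window hn _).1 h)), sum_ite_eq,
          if_neg (by rw [mem_Ico]; exact c)]
    have e2 : ∑ x ∈ Ico (0 : ℤ) n, ∑ a ∈ S, ∑ b ∈ S,
          (if a < b ∧ a + b = 2 * x then g (p z) (pos n x) else 0)
        ≤ ∑ a ∈ S, ∑ b ∈ S, (if a < b then
          (if (p a).1 = (p b).1 then g (p z) (((p a).2 + (p b).2) / 2) else 0) else 0) := by
      rw [sum_comm]
      refine sum_le_sum fun a _ => ?_
      rw [sum_comm]
      refine sum_le_sum fun b _ => ?_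
      by_cases c : a < b
      · rw [if_pos c]
        by_cases d : ∃ x ∈ Ico (0 : ℤ) n, a + b = 2 * x
        · obtain ⟨x, hx, hx2⟩ := d
          rw [sum_eq_single x]
          · rw [if_pos ⟨c, hx2⟩, if_pos (tp_class.2 (by omega)), hp2, hp2, pos_mid hx2]
          · intro y _ hy
            rw [if_neg (by rintro ⟨_, h⟩; exact hy (by omega))]
          · intro h
            exact absurd hx h
        · rw [sum_eq_zero]
          · split_ifs
            · exact hg _ _
            · exact le_rfl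
          · intro x hx
            rw [if_neg (by rintro ⟨_, h⟩; exact d ⟨x, hx, h⟩)]
      · rw [if_neg c]
        refine le_of_eq (sum_eq_zero fun x _ => ?_)
        rw [if_neg (by rintro ⟨h, _⟩; exact c h)]
    have hm0 : ∀ a b : ℤ, 0 ≤ (if (p a).1 = (p b).1 then g (p z) (((p a).2 + (p b).2) / 2)
        else 0) := by
      intro a b
      split_ifs
      · exact hg _ _
      · exact le_rfl
    have e3 : ∑ a ∈ S, ∑ b ∈ S, (if a < b then
          (if (p a).1 = (p b).1 then g (p z) (((p a).2 + (p b).2) / 2) else 0) else 0)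
        ≤ ∑ a ∈ S, ∑ b ∈ S,
          (if (p a).1 = (p b).1 then g (p z) (((p a).2 + (p b).2) / 2) / 2 else 0) := by
      have f1 : ∑ a ∈ S, ∑ b ∈ S, (if a < b then
          (if (p a).1 = (p b).1 then g (p z) (((p a).2 + (p b).2) / 2) else 0) else 0)
          = ∑ a ∈ S, ∑ b ∈ S, (if b < a then
          (if (p a).1 = (p b).1 then g (p z) (((p a).2 + (p b).2) / 2) else 0) else 0) := by
        rw [sum_comm]
        refine sum_congr rfl fun a _ => sum_congr rfl fun b _ => ?_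
        rw [add_comm (p b).2 (p a).2]
        by_cases c : (p a).1 = (p b).1
        · simp only [if_pos c, if_pos c.symm]
        · simp only [if_neg c, if_neg (fun h => c (Eq.symm h))]
      have f2 : ∑ a ∈ S, ∑ b ∈ S, (if a < b then
          (if (p a).1 = (p b).1 then g (p z) (((p a).2 + (p b).2) / 2) else 0) else 0)
          + ∑ a ∈ S, ∑ b ∈ S, (if b < a then
          (if (p a).1 = (p b).1 then g (p z) (((p a).2 + (p b).2) / 2) else 0) else 0)
          ≤ ∑ a ∈ S, ∑ b ∈ S,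
          (if (p a).1 = (p b).1 then g (p z) (((p a).2 + (p b).2) / 2) else 0) := by
        rw [← sum_add_distrib]
        refine sum_le_sum fun a _ => ?_
        rw [← sum_add_distrib]
        refine sum_le_sum fun b _ => ?_
        have := hm0 a b
        generalize (if (p a).1 = (p b).1 then g (p z) (((p a).2 + (p b).2) / 2) else 0) = m
          at this ⊢
        by_cases c1 : a < b
        · have c2 : ¬ b < a := by omega
          simp only [if_pos c1, if_neg c2]
          linarith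
        · by_cases c2 : b < a
          · simp only [if_pos c2, if_neg c1]
            linarith
          · simp only [if_neg c2, if_neg c1]
            linarith
      have f3 : ∑ a ∈ S, ∑ b ∈ S,
          (if (p a).1 = (p b).1 then g (p z) (((p a).2 + (p b).2) / 2) / 2 else 0)
          = (∑ a ∈ S, ∑ b ∈ S,
          (if (p a).1 = (p b).1 then g (p z) (((p a).2 + (p b).2) / 2) else 0)) / 2 := by
        rw [sum_div]
        refine sum_congr rfl fun a _ => ?_
        rw [sum_div]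
        refine sum_congr rfl fun b _ => ?_
        split_ifs
        · rfl
        · rw [zero_div]
      rw [f3]
      linarith
    have e4 : ∀ x ∈ Ico (0 : ℤ) n, g (p z) (pos n x)
        ≤ ∑ a ∈ S, ∑ b ∈ S, (if 2 * b - a = x then g (p z) (pos n x) else 0)
          + ∑ a ∈ S, ∑ b ∈ S, (if a < b ∧ a + b = 2 * x then g (p z) (pos n x) else 0) := by
      intro x hx
      rw [mem_Ico] at hx
      have n1 : ∀ (q : ℤ → ℤ → Prop) [∀ a b, Decidable (q a b)],
          (∃ a ∈ S, ∃ b ∈ S, q a b) → g (p z) (pos n x)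
          ≤ ∑ a ∈ S, ∑ b ∈ S, (if q a b then g (p z) (pos n x) else 0) := by
        intro q _ ⟨a, ha, b, hb, hab⟩
        have i1 : (if q a b then g (p z) (pos n x) else 0)
            ≤ ∑ b ∈ S, (if q a b then g (p z) (pos n x) else 0) :=
          single_le_sum (f := fun b => if q a b then g (p z) (pos n x) else 0)
            (fun b _ => by split_ifs; exacts [hg _ _, le_rfl]) hb
        have i2 : ∑ b ∈ S, (if q a b then g (p z) (pos n x) else 0)
            ≤ ∑ a ∈ S, ∑ b ∈ S, (if q a b then g (p z) (pos n x) else 0) :=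
          single_le_sum (f := fun a => ∑ b ∈ S, if q a b then g (p z) (pos n x) else 0)
            (fun a _ => sum_nonneg fun b _ => by split_ifs; exacts [hg _ _, le_rfl]) ha
        rw [if_pos hab] at i1
        exact i1.trans i2
      have n0 : ∀ (q : ℤ → ℤ → Prop) [∀ a b, Decidable (q a b)],
          0 ≤ ∑ a ∈ S, ∑ b ∈ S, (if q a b then g (p z) (pos n x) else 0) := by
        intro q _
        exact sum_nonneg fun a _ => sum_nonneg fun b _ => by split_ifs; exacts [hg _ _, le_rfl]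
      rcases hcov x hx.1 hx.2 with ⟨a, ha, b, hb, h⟩ | ⟨a, ha, b, hb, h1, h2⟩
      · have m1 := n1 (fun a b => 2 * b - a = x) ⟨a, ha, b, hb, h.symm⟩
        have m2 := n0 (fun a b => a < b ∧ a + b = 2 * x)
        linarith
      · have m1 := n0 (fun a b => 2 * b - a = x)
        have m2 := n1 (fun a b => a < b ∧ a + b = 2 * x) ⟨a, ha, b, hb, h1, h2⟩
        linarith
    have e5 := sum_le_sum e4
    rw [sum_add_distrib] at e5
    have e6 : ∑ a ∈ S, ∑ b ∈ S, ((if 0 < 2 * (p b).2 - (p a).2 ∧ 2 * (p b).2 - (p a).2 < 1 then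
          g (p z) (2 * (p b).2 - (p a).2) else 0)
          + (if (p a).1 = (p b).1 then g (p z) (((p a).2 + (p b).2) / 2) / 2 else 0))
        = ∑ a ∈ S, ∑ b ∈ S, (if 0 < 2 * (p b).2 - (p a).2 ∧ 2 * (p b).2 - (p a).2 < 1 then
          g (p z) (2 * (p b).2 - (p a).2) else 0) + ∑ a ∈ S, ∑ b ∈ S,
          (if (p a).1 = (p b).1 then g (p z) (((p a).2 + (p b).2) / 2) / 2 else 0) := by
      rw [← sum_add_distrib]
      refine sum_congr rfl fun a _ => ?_
      rw [← sum_add_distrib]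
    rw [e6, e1]
    linarith
  have hce : cE * (S.card : ℝ) ^ 2
      ≤ ∑ a ∈ S, ∑ b ∈ S,
        (if 0 < 2 * (p b).2 - (p a).2 ∧ 2 * (p b).2 - (p a).2 < 1 then (1:ℝ) else 0) := by
    refine hCE.trans (le_of_eq ?_)
    unfold lab
    rw [sum_comm]
    refine sum_congr rfl fun a _ => ?_
    rw [sum_comm]
    refine sum_congr rfl fun b _ => ?_
    rw [hp2, hp2, ← pos_lab]
    by_cases c : 0 ≤ 2 * b - a ∧ 2 * b - a < n
    · rw [if_pos ((pos_window hn _).2 c), sum_ite_eq, if_pos (by rw [mem_Ico]; exact c)]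
    · rw [if_neg (fun h => c ((pos_window hn _).1 h)), sum_ite_eq,
        if_neg (by rw [mem_Ico]; exact c)]
  have hzz : ∀ z ∈ S, γ * n ≤ ∑ a ∈ S, ∑ b ∈ S,
      ((if 0 < 2 * (p b).2 - (p a).2 ∧ 2 * (p b).2 - (p a).2 < 1 then
        g (p z) (2 * (p b).2 - (p a).2) + κ (p z) else 0)
        + (if (p a).1 = (p b).1 then g (p z) (((p a).2 + (p b).2) / 2) / 2 else 0)
        - cE * κ (p z)) := by
    intro z hzS
    have i1 := hsum (p z) (hpm z hzS)
    have i2 := hz z hzS
    have i3 : ∑ a ∈ S, ∑ b ∈ S,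
        ((if 0 < 2 * (p b).2 - (p a).2 ∧ 2 * (p b).2 - (p a).2 < 1 then
          g (p z) (2 * (p b).2 - (p a).2) + κ (p z) else 0)
          + (if (p a).1 = (p b).1 then g (p z) (((p a).2 + (p b).2) / 2) / 2 else 0)
          - cE * κ (p z))
        = ∑ a ∈ S, ∑ b ∈ S, ((if 0 < 2 * (p b).2 - (p a).2 ∧ 2 * (p b).2 - (p a).2 < 1 then
          g (p z) (2 * (p b).2 - (p a).2) else 0)
          + (if (p a).1 = (p b).1 then g (p z) (((p a).2 + (p b).2) / 2) / 2 else 0))
        + κ (p z) * (∑ a ∈ S, ∑ b ∈ S,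
            (if 0 < 2 * (p b).2 - (p a).2 ∧ 2 * (p b).2 - (p a).2 < 1 then (1:ℝ) else 0)
          - cE * (S.card : ℝ) ^ 2) := by
      have c2 : (S.card : ℝ) ^ 2 = ∑ a ∈ S, ∑ b ∈ S, (1:ℝ) := by
        simp [pow_two]
      rw [c2, mul_sum, ← sum_sub_distrib, mul_sum, ← sum_add_distrib]
      refine sum_congr rfl fun a _ => ?_
      rw [mul_sum, ← sum_sub_distrib, mul_sum, ← sum_add_distrib]
      refine sum_congr rfl fun b _ => ?_
      by_cases c : 0 < 2 * (p b).2 - (p a).2 ∧ 2 * (p b).2 - (p a).2 < 1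
      · rw [if_pos c, if_pos c, if_pos c]
        ring
      · rw [if_neg c, if_neg c, if_neg c]
        ring
    rw [i3]
    have i4 : 0 ≤ κ (p z) * (∑ a ∈ S, ∑ b ∈ S,
            (if 0 < 2 * (p b).2 - (p a).2 ∧ 2 * (p b).2 - (p a).2 < 1 then (1:ℝ) else 0)
          - cE * (S.card : ℝ) ^ 2) := mul_nonneg (hκ _) (by linarith)
    linarith
  have hlin : 0 ≤ ∑ z ∈ S, ∑ a ∈ S, ∑ b ∈ S, ∑ j ∈ J, ν j (p a) (p b) * ℓ j (p z) := by
    have e : ∑ z ∈ S, ∑ a ∈ S, ∑ b ∈ S, ∑ j ∈ J, ν j (p a) (p b) * ℓ j (p z)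
        = ∑ j ∈ J, (∑ a ∈ S, ∑ b ∈ S, ν j (p a) (p b)) * ∑ z ∈ S, ℓ j (p z) := by
      have : ∀ j ∈ J, (∑ a ∈ S, ∑ b ∈ S, ν j (p a) (p b)) * ∑ z ∈ S, ℓ j (p z)
          = ∑ z ∈ S, ∑ a ∈ S, ∑ b ∈ S, ν j (p a) (p b) * ℓ j (p z) := by
        intro j _
        rw [mul_sum]
        refine sum_congr rfl fun z _ => ?_
        rw [sum_mul]
        refine sum_congr rfl fun a _ => ?_
        rw [sum_mul]
      rw [sum_congr rfl this]
      refine Eq.trans ?_ sum_comm
      refine sum_congr rfl fun z _ => ?_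
      refine Eq.trans ?_ sum_comm
      refine sum_congr rfl fun a _ => ?_
      exact sum_comm
    rw [e]
    exact sum_nonneg fun j hj => mul_nonneg
      (sum_nonneg fun a _ => sum_nonneg fun b _ => hν j hj _ _) (hℓ j hj)
  have hfin : tri S (fun _ => (1:ℝ)) (fun z a b => FT g κ cE J ν ℓ (p z) (p a) (p b))
      = ∑ z ∈ S, ∑ a ∈ S, ∑ b ∈ S,
      ((if 0 < 2 * (p b).2 - (p a).2 ∧ 2 * (p b).2 - (p a).2 < 1 then
        g (p z) (2 * (p b).2 - (p a).2) + κ (p z) else 0)
        + (if (p a).1 = (p b).1 then g (p z) (((p a).2 + (p b).2) / 2) / 2 else 0)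
        - cE * κ (p z))
      + ∑ z ∈ S, ∑ a ∈ S, ∑ b ∈ S, ∑ j ∈ J, ν j (p a) (p b) * ℓ j (p z) := by
    unfold tri FT
    rw [← sum_add_distrib]
    refine sum_congr rfl fun z _ => ?_
    rw [← sum_add_distrib]
    refine sum_congr rfl fun a _ => ?_
    rw [← sum_add_distrib]
    refine sum_congr rfl fun b _ => ?_
    ring
  rw [hfin]
  have hs := sum_le_sum hzz
  rw [sum_const, nsmul_eq_mul] at hs
  nlinarith [hs, hlin]

/-! ### Both parity classes have at least a third of the elements -/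

lemma class_third {n : ℕ} {A : Finset ℕ} (h : IsMaximalThreeFree n A) (hlt : A.card ^ 2 < n) :
    A.card ≤ 3 * (A.filter (fun x => x % 2 = 0)).card ∧
    A.card ≤ 3 * (A.filter (fun x => x % 2 = 1)).card := by
  obtain ⟨e, o, e0, e2, o1, o3, hk, hee, hoo, he, ho, h1, h2, h3⟩ := CE.ineqs h
  have m0 := CE.windowSum_le (n := n) (m := (A.card : ℝ)) (A := A)
    (fun a _ => by exact_mod_cast Finset.card_filter_le _ _) 0
  have m1 := CE.windowSum_le (n := n) (m := (A.card : ℝ)) (A := A)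
    (fun a _ => by exact_mod_cast Finset.card_filter_le _ _) 1
  rw [hee] at m0 ⊢
  rw [hoo] at m1 ⊢
  rw [← hk] at m0 m1 hlt ⊢
  set S0 := CE.windowSum n A 0
  set S1 := CE.windowSum n A 1
  have m0' : (S0 : ℝ) ≤ e * ((e : ℝ) + o) := by
    push_cast at m0
    linarith
  have m1' : (S1 : ℝ) ≤ o * ((e : ℝ) + o) := by
    push_cast at m1
    linarith
  have m0n : S0 ≤ e * (e + o) := by exact_mod_cast m0'
  have m1n : S1 ≤ o * (e + o) := by exact_mod_cast m1'
  have q1 : 4 * (e0 * e2) ≤ e * e := by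
    rw [← he]
    zify
    nlinarith [sq_nonneg ((e0 : ℤ) - e2)]
  have q2 : 4 * (o1 * o3) ≤ o * o := by
    rw [← ho]
    zify
    nlinarith [sq_nonneg ((o1 : ℤ) - o3)]
  constructor
  · by_contra hc
    push Not at hc
    -- 2e < o
    have hc' : 2 * e + 1 ≤ o := by omega
    zify at hc' h3 q2 m0n hlt
    nlinarith
  · by_contra hc
    push Not at hc
    have hc' : 2 * o + 1 ≤ e := by omega
    zify at hc' h2 q1 m1n hlt
    nlinarith

end

end MP61673a.TP
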