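import Pool.Agent.Mu673.FinNets

/-!
The most general form of the final reduction: nothing is dropped (waste times price, gains of the
core elements), and charges between the strays are allowed.
-/

namespace MP61673a.Fin

open Finset MP61673a.W MP61673a.LiftW MP61673a.Mids
open MP61673a.Lift hiding PP QQ

noncomputable section

/-- the excess multiplicity of the label `s`, with external multiplicity `ξ` -/
def exc (P Q : WS) (D : ℤ) (ξ : ℤ → ℝ) (s : ℤ) : ℝ := rr P Q s + qq Q (D - s) + ξ s - 1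

lemma exc_nonneg {P Q : WS} {D : ℤ} {ξ : ℤ → ℝ} (h : Covers P Q D ξ) {s : ℤ} (h0 : 0 ≤ s)
    (h1 : s < D) : 0 ≤ exc P Q D ξ s := by
  unfold exc
  have := h s h0 h1
  linarith

/-- gain of the pairs of core elements (both sides) -/
def coreP (P Q : WS) (K ρ σ : ℤ) : ℝ :=
  ∑ a ∈ P.S, ∑ b ∈ Q.S, (if 0 ≤ P.u a ∧ 0 ≤ Q.u b then
    P.f a * Q.f b * (KC P Q K ρ (P.u a) (Q.u b) + KC Q P K σ (Q.u b) (P.u a)) else 0)

lemma coreP_nonneg {P Q : WS} (hP : Good P) (hQ : Good Q) (K ρ σ : ℤ) : 0 ≤ coreP P Q K ρ σ := by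
  refine sum_nonneg fun a ha => sum_nonneg fun b hb => ite_nonneg' ?_
  exact mul_nonneg (mul_nonneg (hP.f_nonneg a ha) (hQ.f_nonneg b hb))
    (add_nonneg (KC_nonneg hP hQ _ _ _ _) (KC_nonneg hQ hP _ _ _ _))

/-- bonus of the core bases of `Q` in the deep bracket of the side `(Q,P)` -/
def coreD (P Q : WS) (D K σ : ℤ) : ℝ :=
  ∑ b ∈ Q.S, (if 0 ≤ Q.u b then Q.f b * ∑ q ∈ Q.S, Q.f q * (if 1 + σ ≤ Q.u q - 2 * Q.u b then
    dd Q P (D - K + min ((Q.u q - 2 * Q.u b - σ + 1) / 2) K) - dd Q P D else 0) else 0)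

lemma coreD_nonneg {P Q : WS} (hP : Good P) (hQ : Good Q) (D K σ : ℤ) : 0 ≤ coreD P Q D K σ := by
  refine sum_nonneg fun b hb => ite_nonneg' ?_
  refine mul_nonneg (hQ.f_nonneg b hb) (sum_nonneg fun q hq => ?_)
  refine mul_nonneg (hQ.f_nonneg q hq) (ite_nonneg' ?_)
  have := dd_anti hQ hP (show D - K + min ((Q.u q - 2 * Q.u b - σ + 1) / 2) K ≤ D by
    have := min_le_right ((Q.u q - 2 * Q.u b - σ + 1) / 2) K
    omega)
  linarith

/-- the pairs, exactly -/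
lemma pairs_decomp_eq (P Q : WS) (K T ρ σ : ℤ) {V : ℤ} (hV : 0 ≤ V) :
    ∑ b ∈ Q.S, Q.f b * (if Q.u b < 0 then pairNet P Q K T ρ σ V 0 (-Q.u b) else 0)
      + ∑ a ∈ P.S, P.f a * (if P.u a < 0 then pairNet Q P K T σ ρ V 1 (-P.u a) else 0)
      + coreP P Q K ρ σ
      = ∑ a ∈ P.S, ∑ b ∈ Q.S, P.f a * Q.f b * hh P Q K T ρ V (P.u a) (Q.u b)
        + ∑ b ∈ Q.S, ∑ a ∈ P.S, Q.f b * P.f a * hh Q P K T σ V (Q.u b) (P.u a) := by
  have h0 : ∑ a ∈ P.S, ∑ b ∈ Q.S, P.f a * Q.f b * hh P Q K T ρ V (P.u a) (Q.u b)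
        + ∑ b ∈ Q.S, ∑ a ∈ P.S, Q.f b * P.f a * hh Q P K T σ V (Q.u b) (P.u a)
      = ∑ a ∈ P.S, ∑ b ∈ Q.S, P.f a * Q.f b *
        (hh P Q K T ρ V (P.u a) (Q.u b) + hh Q P K T σ V (Q.u b) (P.u a)) := by
    rw [sum_comm (s := Q.S)]
    simp only [← sum_add_distrib]
    refine sum_congr rfl fun a _ => sum_congr rfl fun b _ => ?_
    ring
  rw [h0, split_pairs P Q (fun x y => hh P Q K T ρ V x y + hh Q P K T σ V y x)]
  have h1 : ∑ b ∈ Q.S, Q.f b * (if Q.u b < 0 then pairNet P Q K T ρ σ V 0 (-Q.u b) else 0)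
      = ∑ b ∈ Q.S, Q.f b * (if Q.u b < 0 then
          ∑ a ∈ P.S, (if 0 - (-Q.u b) ≤ P.u a then P.f a *
            (hh P Q K T ρ V (P.u a) (Q.u b) + hh Q P K T σ V (Q.u b) (P.u a)) else 0) else 0) := by
    refine sum_congr rfl fun b _ => ?_
    unfold pairNet
    rw [neg_neg]
  have h2 : ∑ a ∈ P.S, P.f a * (if P.u a < 0 then pairNet Q P K T σ ρ V 1 (-P.u a) else 0)
      = ∑ a ∈ P.S, P.f a * (if P.u a < 0 then
          ∑ b ∈ Q.S, (if 1 - (-P.u a) ≤ Q.u b then Q.f b *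
            (hh P Q K T ρ V (P.u a) (Q.u b) + hh Q P K T σ V (Q.u b) (P.u a)) else 0) else 0) := by
    refine sum_congr rfl fun a _ => ?_
    unfold pairNet
    rw [neg_neg]
    simp only [add_comm (hh Q P K T σ V _ _)]
  rw [h1, h2]
  congr 1
  unfold coreP
  refine sum_congr rfl fun a ha => sum_congr rfl fun b hb => ?_
  by_cases c : 0 ≤ P.u a ∧ 0 ≤ Q.u b
  · rw [if_pos c, if_pos c]
    unfold hh
    have c1 : ¬ P.u a + 2 * Q.u b < 0 := by omega
    have c2 : ¬ Q.u b + 2 * P.u a < 0 := by omega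
    have c3 : -V ≤ P.u a ∧ -V ≤ Q.u b := by omega
    have c4 : -V ≤ Q.u b ∧ -V ≤ P.u a := by omega
    simp only [if_neg c1, if_neg c2, if_pos c3, if_pos c4]
  · rw [if_neg c, if_neg c]

/-- the deep bracket, with the bonus of the core bases -/
lemma deepNet_core_ge {P Q : WS} (hP : Good P) (hQ : Good Q) {D K T ρ σ L V : ℤ} (hV : 0 ≤ V)
    (hD : D = 2 * T + 2 * K + 1 + σ + ρ) (hρ0 : 0 ≤ ρ) (hρ : ρ ≤ 2) (dQ : Dbl Q V)
    (hL : ∀ b ∈ Q.S, ∀ a ∈ P.S, Q.f b * P.f a ≠ 0 → Q.u b + 2 * P.u a ≤ L) :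
    ∑ b ∈ Q.S, Q.f b * (if Q.u b < 0 then deepNet P Q D K σ V (-Q.u b) else 0)
      + coreD P Q D K σ
      + (nn Q (1 + σ) - ((L:ℝ) - D + ρ) / 2) * dd Q P D ≤ deep Q P D K T σ := by
  unfold deep
  have h0 : 0 ≤ ∑ g ∈ Ico (T + 1) K, nn Q (2 * g + 1 + σ) :=
    sum_nonneg fun g _ => nn_nonneg hQ _
  have h1 : ∑ g ∈ Ico (T + 1) D, dd Q P (2 * K + 1 + σ + 2 * g)
      ≤ ((L:ℝ) - D + ρ) / 2 * dd Q P D := by
    rw [sum_dd_eq]
    unfold dd
    rw [mul_sum]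
    refine sum_le_sum fun b hb => ?_
    rw [mul_sum]
    refine sum_le_sum fun a ha => ?_
    have e1 := mul_nonneg (hQ.f_nonneg b hb) (hP.f_nonneg a ha)
    have e2 := count_le (s := Q.u b + 2 * P.u a) hD hρ0 hρ
    by_cases h0 : Q.f b * P.f a = 0
    · rw [h0]
      simp
    by_cases c : D ≤ Q.u b + 2 * P.u a
    · rw [if_pos c] at e2 ⊢
      rw [mul_comm]
      refine mul_le_mul_of_nonneg_right (e2.trans ?_) e1
      have h2 : ((Q.u b + 2 * P.u a : ℤ) : ℝ) ≤ L := by exact_mod_cast hL b hb a ha h0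
      linarith
    · rw [if_neg c] at e2 ⊢
      rw [mul_zero]
      exact mul_nonpos_of_nonneg_of_nonpos e1 e2
  have h2 : ∑ b ∈ Q.S, Q.f b * (if Q.u b < 0 then deepNet P Q D K σ V (-Q.u b) else 0)
      + coreD P Q D K σ
      + nn Q (1 + σ) * dd Q P D ≤ pp Q σ (fun y => dd Q P (D - K + min y K)) := by
    have e1 : pp Q σ (fun y => dd Q P (D - K + min y K))
        = ∑ b ∈ Q.S, ∑ q ∈ Q.S, (if 1 + σ ≤ Q.u q - 2 * Q.u b then Q.f q * Q.f1 b *
            (dd Q P (D - K + min (yy Q σ q b) K) - dd Q P D) else 0)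
          + nn Q (1 + σ) * dd Q P D := by
      unfold pp nn
      rw [sum_comm, sum_comm (s := Q.S) (t := Q.S)
        (f := fun a a1 => if 1 + σ ≤ Q.u a - 2 * Q.u a1 then Q.f a * Q.f1 a1 else 0),
        sum_mul, ← sum_add_distrib]
      refine sum_congr rfl fun b _ => ?_
      rw [sum_mul, ← sum_add_distrib]
      refine sum_congr rfl fun q _ => ?_
      split_ifs <;> ring
    rw [e1]
    refine add_le_add ?_ le_rfl
    unfold coreD
    rw [← sum_add_distrib]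
    refine sum_le_sum fun b hb => ?_
    have g0 : ∀ q ∈ Q.S, 0 ≤ (if 1 + σ ≤ Q.u q - 2 * Q.u b then Q.f q * Q.f1 b *
            (dd Q P (D - K + min (yy Q σ q b) K) - dd Q P D) else 0) := by
      intro q hq
      refine ite_nonneg' (mul_nonneg (mul_nonneg (hQ.f_nonneg q hq) (hQ.f1_nonneg b hb)) ?_)
      have := dd_anti hQ hP (show D - K + min (yy Q σ q b) K ≤ D by
        have := min_le_right (yy Q σ q b) K
        omega)
      linarith
    by_cases c : Q.u b < 0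
    · rw [if_pos c, if_neg (show ¬ 0 ≤ Q.u b by omega), add_zero]
      unfold deepNet
      by_cases c2 : -Q.u b ≤ V
      · rw [if_pos c2, mul_sum]
        refine le_of_eq (sum_congr rfl fun q _ => ?_)
        have c3 : -V ≤ Q.u b := by omega
        rw [dQ b hb, if_pos c3]
        unfold yy
        rw [show Q.u q + 2 * -Q.u b = Q.u q - 2 * Q.u b by ring]
        split_ifs <;> ring
      · rw [if_neg c2, mul_zero]
        exact sum_nonneg g0
    · rw [if_neg c, mul_zero, if_pos (show 0 ≤ Q.u b by omega), zero_add, mul_sum]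
      refine le_of_eq (sum_congr rfl fun q _ => ?_)
      have c3 : -V ≤ Q.u b := by omega
      rw [dQ b hb, if_pos c3]
      unfold yy
      split_ifs <;> ring
  linarith

/-- DECOMPOSITION of the two sides, with the gains of the core -/
theorem decomp_core {P Q : WS} (hP : Good P) (hQ : Good Q) {D K T ρ σ L V : ℤ} (hT : -1 ≤ T)
    (hV : 0 ≤ V) (dP : Dbl P V) (dQ : Dbl Q V)
    (hD : D = 2 * T + 2 * K + 1 + ρ + σ) (hρ0 : 0 ≤ ρ) (hρ : ρ ≤ 2) (hσ0 : 0 ≤ σ) (hσ : σ ≤ 2)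
    (hL : ∀ a ∈ P.S, ∀ b ∈ Q.S, P.f a * Q.f b ≠ 0 → P.u a + 2 * Q.u b ≤ L)
    (hL' : ∀ b ∈ Q.S, ∀ a ∈ P.S, Q.f b * P.f a ≠ 0 → Q.u b + 2 * P.u a ≤ L) :
    ∑ b ∈ Q.S, Q.f b * (if Q.u b < 0 then gain P Q D K T ρ σ V 0 (-Q.u b) else 0)
      + ∑ a ∈ P.S, P.f a * (if P.u a < 0 then gain Q P D K T σ ρ V 1 (-P.u a) else 0)
      + (coreP P Q K ρ σ + coreD P Q D K σ + coreD Q P D K ρ)
      + (nn P (1 + ρ) - ((L:ℝ) - D + σ) / 2) * dd P Q D
      + (nn Q (1 + σ) - ((L:ℝ) - D + ρ) / 2) * dd Q P D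
      ≤ side0 P Q D K T ρ + side0 Q P D K T σ := by
  rw [side0_hh D K T ρ V dP dQ, side0_hh D K T σ V dQ dP]
  have h1 := pairs_decomp_eq P Q K T ρ σ hV
  have h2 := own_ge hP hQ hT dQ D K ρ
  have h3 := own_ge hQ hP hT dP D K σ
  have h4 := deepNet_core_ge hP hQ (T := T) hV (by omega : D = 2 * T + 2 * K + 1 + σ + ρ)
    hρ0 hρ dQ hL'
  have h5 := deepNet_core_ge hQ hP (T := T) hV (by omega : D = 2 * T + 2 * K + 1 + ρ + σ)
    hσ0 hσ dP hL
  have e1 : ∑ b ∈ Q.S, Q.f b * (if Q.u b < 0 then gain P Q D K T ρ σ V 0 (-Q.u b) else 0)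
      = ∑ b ∈ Q.S, Q.f b * (if Q.u b < 0 then pairNet P Q K T ρ σ V 0 (-Q.u b) else 0)
        + ∑ b ∈ Q.S, Q.f b * (if Q.u b < 0 then own P Q D K T ρ V (-Q.u b) else 0)
        + ∑ b ∈ Q.S, Q.f b * (if Q.u b < 0 then deepNet P Q D K σ V (-Q.u b) else 0) := by
    rw [← sum_add_distrib, ← sum_add_distrib]
    refine sum_congr rfl fun b _ => ?_
    unfold gain
    split_ifs <;> ring
  have e2 : ∑ a ∈ P.S, P.f a * (if P.u a < 0 then gain Q P D K T σ ρ V 1 (-P.u a) else 0)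
      = ∑ a ∈ P.S, P.f a * (if P.u a < 0 then pairNet Q P K T σ ρ V 1 (-P.u a) else 0)
        + ∑ a ∈ P.S, P.f a * (if P.u a < 0 then own Q P D K T σ V (-P.u a) else 0)
        + ∑ a ∈ P.S, P.f a * (if P.u a < 0 then deepNet Q P D K ρ V (-P.u a) else 0) := by
    rw [← sum_add_distrib, ← sum_add_distrib]
    refine sum_congr rfl fun a _ => ?_
    unfold gain
    split_ifs <;> ring
  rw [e1, e2]
  linarith

/-- sum of the nets of the strays of `Q` -/
def netSum (P Q : WS) (ω : ℤ → ℤ → ℝ) (D K z E lo : ℤ) : ℝ :=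
  ∑ b ∈ Q.S, Q.f b * (if Q.u b < 0 then
    net P Q ω D K (K - 1) 1 1 z E lo (-Q.u b) else 0)

/-- the gains of the core elements -/
def coreG (P Q : WS) (D K : ℤ) : ℝ := coreP P Q K 1 1 + coreD P Q D K 1 + coreD Q P D K 1

lemma coreG_nonneg {P Q : WS} (hP : Good P) (hQ : Good Q) (D K : ℤ) : 0 ≤ coreG P Q D K :=
  add_nonneg (add_nonneg (coreP_nonneg hP hQ _ _ _) (coreD_nonneg hP hQ _ _ _))
    (coreD_nonneg hQ hP _ _ _)

/-- REST ≥ SUM OF THE NETS + DEEP BRACKETS + CORE + WASTE, hybrid frame, lifted set. -/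
theorem rest_ge_total (A : Finset ℤ) (t : ℕ) {ω : ℤ → ℤ → ℝ} (hω : ∀ x y, ω x y + ω y x = 1)
    {D K z : ℤ} (hK : 1 ≤ K) (hD : D = 4 * K + 1) (hz : 0 ≤ z) :
    1 / 2 * (netSum (PH (liftN t A) D z) (QH (liftN t A) D z) ω D K z 0 0
        + netSum (PH (liftN t A) D z) (QH (liftN t A) D z) ω D K z (4 ^ t - 1) 0)
      + 1 / 2 * (netSum (QH (liftN t A) D z) (PH (liftN t A) D z) ω D K z 0 1
        + netSum (QH (liftN t A) D z) (PH (liftN t A) D z) ω D K z (4 ^ t - 1) 1)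
      + (nn (PH (liftN t A) D z) 2 - K) * dd (PH (liftN t A) D z) (QH (liftN t A) D z) D
      + (nn (QH (liftN t A) D z) 2 - K) * dd (QH (liftN t A) D z) (PH (liftN t A) D z) D
      + coreG (PH (liftN t A) D z) (QH (liftN t A) D z) D K
      + wst (PH (liftN t A) D z) (QH (liftN t A) D z) D K (K - 1) 1 (xiR A t D z)
      + wst (QH (liftN t A) D z) (PH (liftN t A) D z) D K (K - 1) 1 (xiL A t D z)
      ≤ rest (PH (liftN t A) D z) (QH (liftN t A) D z) K := by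
  have hA := adm_hybrid D z
  have gP : Good (PH (liftN t A) D z) := goodP hA
  have gQ : Good (QH (liftN t A) D z) := goodQ hA
  have hl : ∀ a ∈ (PH (liftN t A) D z).S, ∀ b ∈ (QH (liftN t A) D z).S,
      (PH (liftN t A) D z).f a * (QH (liftN t A) D z).f b ≠ 0 →
      (PH (liftN t A) D z).u a ≤ 2 * K ∧ (QH (liftN t A) D z).u b ≤ 2 * K :=
    label_le (A := liftN t A) hD (fun x => if D - z ≤ x then cut D x else 0)
    (fun x => if x ≤ 2 * D + z then 1 - cut D x else 0)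
  have e2 := sum_extraR_g (liftN t A) D (fun x => if D - z ≤ x then cut D x else 0)
    (fun x => if x ≤ 2 * D + z then 1 - cut D x else 0)
    (price (PH (liftN t A) D z) (QH (liftN t A) D z) D K (K - 1) 1)
  have e3 := sum_extraL_g (liftN t A) D (fun x => if D - z ≤ x then cut D x else 0)
    (fun x => if x ≤ 2 * D + z then 1 - cut D x else 0)
    (price (QH (liftN t A) D z) (PH (liftN t A) D z) D K (K - 1) 1)
  have huP : ∀ a ∈ (PH (liftN t A) D z).S, (PH (liftN t A) D z).f a ≠ 0 →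
      (PH (liftN t A) D z).u a ≤ 2 * K := fun (a : ℤ) _ h => leP hD a h
  have huQ : ∀ a ∈ (QH (liftN t A) D z).S, (QH (liftN t A) D z).f a ≠ 0 →
      (QH (liftN t A) D z).u a ≤ 2 * K := fun (a : ℤ) _ h => leQ hD a h
  obtain ⟨y1, y2⟩ := mids_hyb A t hω (show 0 < D by omega) K z
  have dP := dblP (liftN t A) D z
  have dQ := dblQ (liftN t A) D z
  have xR : ∀ s, xiR A t D z s = extraR (liftN t A) (cut D)
      (fun x => if x ≤ 2 * D + z then 1 - cut D x else 0) D s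
      + ind (fun y => Mid A (y / 4 ^ t)) (3 * D - s) := fun _ => rfl
  have xL : ∀ s, xiL A t D z s = extraL (liftN t A) (cut D)
      (fun x => if D - z ≤ x then cut D x else 0) s
      + ind (fun y => Mid A (y / 4 ^ t)) s := fun _ => rfl
  set P := PH (liftN t A) D z with hPdef
  set Q := QH (liftN t A) D z with hQdef
  have w1 := waste_eq P Q D K (K - 1) 1 (xiR A t D z)
  have w2 := waste_eq Q P D K (K - 1) 1 (xiL A t D z)
  have d1 := decomp_core gP gQ (D := D) (K := K) (T := K - 1) (ρ := 1) (σ := 1) (L := 6 * K)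
    (V := z) (by omega) hz dP dQ (by omega) (by norm_num) (by norm_num) (by norm_num)
    (by norm_num) (fun a ha b hb h => by have := hl a ha b hb h; omega)
    (fun b hb a ha h => by have := hl a ha b hb (by rwa [mul_comm]); omega)
  have e1 : ((6 * K : ℤ) : ℝ) - (D : ℤ) + (1 : ℤ) = 2 * K := by
    rw [hD]
    push_cast
    ring
  rw [e1, show (1:ℤ) + 1 = 2 by norm_num, show (2 * (K:ℝ)) / 2 = K by ring] at d1
  simp only [xR, xL, add_mul, sum_add_distrib] at w1 w2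
  rw [e2] at w1
  rw [e3] at w2
  have x1 := sum_ex1 (P := P) hz dQ D K (K - 1) 1
  have x1' := sum_ex1 (P := Q) hz dP D K (K - 1) 1
  have x2 := sum_ex2 (P := P) (Q := Q) (D := D)
    (fun b hb h => by have := huQ b hb h; omega) K (K - 1) 1
  have x2' := sum_ex2 (P := Q) (Q := P) (D := D)
    (fun b hb h => by have := huP b hb h; omega) K (K - 1) 1
  have avg : ∀ (Y : WS) (F G : ℤ → ℝ), ∑ b ∈ Y.S, Y.f b * (if Y.u b < 0 then
      1 / 2 * (F (-Y.u b) + G (-Y.u b)) else 0)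
      = 1 / 2 * (∑ b ∈ Y.S, Y.f b * (if Y.u b < 0 then F (-Y.u b) else 0)
        + ∑ b ∈ Y.S, Y.f b * (if Y.u b < 0 then G (-Y.u b) else 0)) := by
    intro Y F G
    rw [← sum_add_distrib, mul_sum]
    refine sum_congr rfl fun b _ => ?_
    split_ifs <;> ring
  rw [avg Q] at y1
  rw [avg P] at y2
  have n1 : ∀ E : ℤ, netSum P Q ω D K z E 0
      = ∑ b ∈ Q.S, Q.f b * (if Q.u b < 0 then gain P Q D K (K - 1) 1 1 z 0 (-Q.u b) else 0)
        - ∑ b ∈ Q.S, Q.f b * (if Q.u b < 0 then ex1 P Q D K (K - 1) 1 z (-Q.u b) else 0)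
        - ∑ b ∈ Q.S, Q.f b * (if Q.u b < 0 then ex2 P Q D K (K - 1) 1 (-Q.u b) else 0)
        - ∑ b ∈ Q.S, Q.f b * (if Q.u b < 0 then
          mid P Q D E (cpr P D K (K - 1) 1) ω (-Q.u b) else 0) := by
    intro E
    unfold netSum
    rw [← sum_sub_distrib, ← sum_sub_distrib, ← sum_sub_distrib]
    refine sum_congr rfl fun b _ => ?_
    unfold net
    split_ifs <;> ring
  have n2 : ∀ E : ℤ, netSum Q P ω D K z E 1
      = ∑ a ∈ P.S, P.f a * (if P.u a < 0 then gain Q P D K (K - 1) 1 1 z 1 (-P.u a) else 0)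
        - ∑ a ∈ P.S, P.f a * (if P.u a < 0 then ex1 Q P D K (K - 1) 1 z (-P.u a) else 0)
        - ∑ a ∈ P.S, P.f a * (if P.u a < 0 then ex2 Q P D K (K - 1) 1 (-P.u a) else 0)
        - ∑ a ∈ P.S, P.f a * (if P.u a < 0 then
          mid Q P D E (cpr Q D K (K - 1) 1) ω (-P.u a) else 0) := by
    intro E
    unfold netSum
    rw [← sum_sub_distrib, ← sum_sub_distrib, ← sum_sub_distrib]
    refine sum_congr rfl fun b _ => ?_
    unfold net
    split_ifs <;> ring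
  rw [n1 0, n1 (4 ^ t - 1), n2 0, n2 (4 ^ t - 1)]
  unfold rest coreG
  rw [← hD]
  linarith

/-- FINAL REDUCTION, nothing dropped. -/
theorem finish_total {n : ℕ} {A : Finset ℕ} (h : IsMaximalThreeFree n A) {C : ℝ} (t0 : ℕ)
    {ω : ℤ → ℤ → ℝ} (hω : ∀ x y, ω x y + ω y x = 1)
    (hmain : A.card ^ 2 < n → ∀ t : ℕ, t0 ≤ t → ∀ D K : ℤ, 1 ≤ K → D = 4 * K + 1 →
      3 * D + 1 ≤ 4 ^ t * (n : ℤ) → 4 ^ t * (n : ℤ) ≤ 3 * D + 12 →
      Cov (liftN t (shift A)) (fun y => Mid (shift A) (y / 4 ^ t)) (3 * D + 1) →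
      ∃ z : ℤ, 0 ≤ z ∧
      ∀ P Q : WS, P = PH (liftN t (shift A)) D z → Q = QH (liftN t (shift A)) D z →
        -(((mass P - mass Q) ^ 2 / 4 + C * 2 ^ t) * budget P Q K)
          ≤ 1 / 2 * (netSum P Q ω D K z 0 0 + netSum P Q ω D K z (4 ^ t - 1) 0)
            + 1 / 2 * (netSum Q P ω D K z 0 1 + netSum Q P ω D K z (4 ^ t - 1) 1)
            + (nn P 2 - K) * dd P Q D + (nn Q 2 - K) * dd Q P D
            + coreG P Q D K
            + wst P Q D K (K - 1) 1 (xiR (shift A) t D z)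
            + wst Q P D K (K - 1) 1 (xiL (shift A) t D z)) :
    n ≤ A.card ^ 2 := by
  refine finish h (C := C) t0 ?_
  intro hlt t ht D K hK hD h1 h2 hcov
  obtain ⟨z, hz, hall⟩ := hmain hlt t ht D K hK hD h1 h2 hcov
  exact ⟨_, _, adm_hybrid D z, (hall _ _ rfl rfl).trans (rest_ge_total (shift A) t hω hK hD hz)⟩

end

end MP61673a.Fin
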